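import Pool.Agent.Lib.H34S.Rot
import Pool.Agent.Lib.H82O.A01

/-!
# H34S: signs and permutations of the coordinates with given residues
-/

set_option autoImplicit false

namespace H34S

/-- every `n ≡ 1, 2 (mod 4)` is a sum of three squares, not all divisible by `3` -/
theorem prim12 (n : ℕ) : n % 4 = 1 ∨ n % 4 = 2 → ∃ x y z : ℤ, (n : ℤ) = x ^ 2 + y ^ 2 + z ^ 2 ∧
    ¬ (x % 3 = 0 ∧ y % 3 = 0 ∧ z % 3 = 0) := by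
  induction n using Nat.strong_induction_on with
  | _ n ih =>
    intro hn
    obtain ⟨x, y, z, h⟩ : ∃ x y z : ℤ, (n : ℤ) = x ^ 2 + y ^ 2 + z ^ 2 := by
      rcases hn with hn | hn
      · exact Pool.Agent.Lib.H82O.three_squares_one_mod_four n hn
      · exact Pool.Agent.Lib.H63.ThreeSquares.three_squares_two_mod_four n hn
    by_cases h3 : x % 3 = 0 ∧ y % 3 = 0 ∧ z % 3 = 0
    · obtain ⟨a, ha⟩ : ∃ a, x = 3 * a := ⟨x / 3, by omega⟩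
      obtain ⟨b, hb⟩ : ∃ b, y = 3 * b := ⟨y / 3, by omega⟩
      obtain ⟨c, hc⟩ : ∃ c, z = 3 * c := ⟨z / 3, by omega⟩
      have h9 : (n : ℤ) = 9 * (a ^ 2 + b ^ 2 + c ^ 2) := by rw [h, ha, hb, hc]; ring
      obtain ⟨m, hm⟩ : ∃ m : ℕ, n = 9 * m := ⟨n / 9, by omega⟩
      obtain ⟨u, v, w, h1, h2⟩ := ih m (by omega) (by omega)
      obtain ⟨u', v', w', h1', h2'⟩ : ∃ u' v' w' : ℤ, (m : ℤ) = u' ^ 2 + v' ^ 2 + w' ^ 2 ∧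
          (u' + v' + w') % 3 ≠ 0 := by
        by_cases c1 : (u + v + w) % 3 = 0
        · by_cases c2 : (u + v - w) % 3 = 0
          · by_cases c3 : (u - v + w) % 3 = 0
            · refine ⟨u, -v, -w, by rw [h1]; ring, ?_⟩
              intro c4
              exact h2 ⟨by omega, by omega, by omega⟩
            · exact ⟨u, -v, w, by rw [h1]; ring, by rwa [← sub_eq_add_neg]⟩
          · exact ⟨u, v, -w, by rw [h1]; ring, by rwa [← sub_eq_add_neg]⟩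
        · exact ⟨u, v, w, h1, c1⟩
      refine ⟨3 * u' - 2 * (u' + v' + w'), 3 * v' - 2 * (u' + v' + w'), 3 * w' - 2 * (u' + v' + w'), ?_, ?_⟩
      · rw [hm]; push_cast; rw [h1']; ring
      · intro hh; omega
    · exact ⟨x, y, z, h, h3⟩

/-- the same for integers -/
theorem prim12' {n : ℤ} (h0 : 0 ≤ n) (h : n % 4 = 1 ∨ n % 4 = 2) : ∃ x y z : ℤ, n = x ^ 2 + y ^ 2 + z ^ 2 ∧
    ¬ (x % 3 = 0 ∧ y % 3 = 0 ∧ z % 3 = 0) := by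
  obtain ⟨m, rfl⟩ := Int.eq_ofNat_of_zero_le h0
  exact prim12 m (by omega)

/-- choice of the sign modulo `3` -/
theorem sgn1 {x : ℤ} (h : x % 3 ≠ 0) : ∃ y : ℤ, y ^ 2 = x ^ 2 ∧ y % 3 = 1 := by
  rcases (show x % 3 = 1 ∨ x % 3 = 2 by omega) with h | h
  · exact ⟨x, rfl, h⟩
  · exact ⟨-x, by ring, by omega⟩

theorem sgn2 {x : ℤ} (h : x % 3 ≠ 0) : ∃ y : ℤ, y ^ 2 = x ^ 2 ∧ y % 3 = 2 := by
  rcases (show x % 3 = 1 ∨ x % 3 = 2 by omega) with h | h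
  · exact ⟨-x, by ring, by omega⟩
  · exact ⟨x, rfl, h⟩

/-- arrangement for case A -/
theorem arrA {W : ℤ} (hW : W % 3 = 2) (h : ∃ x y z : ℤ, W = x ^ 2 + y ^ 2 + z ^ 2) :
    ∃ a b c : ℤ, W = a ^ 2 + b ^ 2 + c ^ 2 ∧ a % 3 = 0 ∧ b % 3 = 2 ∧ c % 3 = 1 := by
  obtain ⟨x, y, z, h⟩ := h
  rcases sq_mod3 x with ⟨ax, bx⟩ | ⟨ax, bx⟩ <;> rcases sq_mod3 y with ⟨ay, by'⟩ | ⟨ay, by'⟩ <;>
    rcases sq_mod3 z with ⟨az, bz⟩ | ⟨az, bz⟩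
  · omega
  · omega
  · omega
  · obtain ⟨y', h1, h2⟩ := sgn2 ay
    obtain ⟨z', h3, h4⟩ := sgn1 az
    exact ⟨x, y', z', by rw [h1, h3, h], ax, h2, h4⟩
  · omega
  · obtain ⟨y', h1, h2⟩ := sgn2 ax
    obtain ⟨z', h3, h4⟩ := sgn1 az
    exact ⟨y, y', z', by rw [h1, h3, h]; ring, ay, h2, h4⟩
  · obtain ⟨y', h1, h2⟩ := sgn2 ax
    obtain ⟨z', h3, h4⟩ := sgn1 ay
    exact ⟨z, y', z', by rw [h1, h3, h]; ring, az, h2, h4⟩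
  · omega

/-- arrangement for case C -/
theorem arrC {W : ℤ} (hW : W % 3 = 0) (h : ∃ x y z : ℤ, W = x ^ 2 + y ^ 2 + z ^ 2 ∧
    ¬ (x % 3 = 0 ∧ y % 3 = 0 ∧ z % 3 = 0)) :
    ∃ a b c : ℤ, W = a ^ 2 + b ^ 2 + c ^ 2 ∧ a % 3 = 1 ∧ b % 3 = 1 ∧ c % 3 = 1 := by
  obtain ⟨x, y, z, h, hn⟩ := h
  have hh : x % 3 ≠ 0 ∧ y % 3 ≠ 0 ∧ z % 3 ≠ 0 := by
    rcases sq_mod3 x with ax | ax <;> rcases sq_mod3 y with ay | ay <;> rcases sq_mod3 z with az | az <;> omega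
  obtain ⟨x', h1, h2⟩ := sgn1 hh.1
  obtain ⟨y', h3, h4⟩ := sgn1 hh.2.1
  obtain ⟨z', h5, h6⟩ := sgn1 hh.2.2
  exact ⟨x', y', z', by rw [h1, h3, h5, h], h2, h4, h6⟩

/-- the squares modulo `5` -/
theorem sq_mod5 (x : ℤ) : (x % 5 = 0 ∧ x ^ 2 % 5 = 0) ∨ ((x % 5 = 1 ∨ x % 5 = 4) ∧ x ^ 2 % 5 = 1) ∨
    ((x % 5 = 2 ∨ x % 5 = 3) ∧ x ^ 2 % 5 = 4) := by
  have h : x % 5 = 0 ∨ x % 5 = 1 ∨ x % 5 = 2 ∨ x % 5 = 3 ∨ x % 5 = 4 := by omega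
  have e : x ^ 2 % 5 = (x % 5) ^ 2 % 5 := ((Int.mod_modEq x 5).pow 2).symm
  rcases h with h | h | h | h | h <;> rw [h] at e <;> norm_num at e <;> omega

/-- the sign for the condition modulo `5` -/
theorem sgn5 {x z : ℤ} (h : (x ^ 2 + z ^ 2) % 5 = 0) : ∃ z' : ℤ, z' ^ 2 = z ^ 2 ∧ (z' + 2 * x) % 5 = 0 ∧
    (z' % 3 = 0 ↔ z % 3 = 0) := by
  have key : (z + 2 * x) % 5 = 0 ∨ (-z + 2 * x) % 5 = 0 := by
    rcases sq_mod5 x with hx | hx | hx <;> rcases sq_mod5 z with hz | hz | hz <;> omega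
  rcases key with h1 | h1
  · exact ⟨z, rfl, h1, Iff.rfl⟩
  · exact ⟨-z, by ring, h1, by omega⟩

/-- arrangement modulo `5` -/
theorem arr5 {W : ℤ} (hW : W % 5 = 0) (h : ∃ x y z : ℤ, W = x ^ 2 + y ^ 2 + z ^ 2 ∧
    ¬ (x % 3 = 0 ∧ y % 3 = 0 ∧ z % 3 = 0)) :
    ∃ x y z : ℤ, W = x ^ 2 + y ^ 2 + z ^ 2 ∧ ¬ (x % 3 = 0 ∧ y % 3 = 0 ∧ z % 3 = 0) ∧ y % 5 = 0 ∧
      (z + 2 * x) % 5 = 0 := by
  obtain ⟨x, y, z, h, hn⟩ := h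
  have key : x % 5 = 0 ∨ y % 5 = 0 ∨ z % 5 = 0 := by
    rcases sq_mod5 x with hx | hx | hx <;> rcases sq_mod5 y with hy | hy | hy <;>
      rcases sq_mod5 z with hz | hz | hz <;> omega
  rcases key with h0 | h0 | h0
  · have h1 : (y ^ 2 + z ^ 2) % 5 = 0 := by rcases sq_mod5 x with hx | hx | hx <;> omega
    obtain ⟨z', e1, e2, e3⟩ := sgn5 h1
    exact ⟨y, x, z', by rw [e1, h]; ring, fun hh => hn ⟨hh.2.1, hh.1, e3.mp hh.2.2⟩, h0, e2⟩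
  · have h1 : (x ^ 2 + z ^ 2) % 5 = 0 := by rcases sq_mod5 y with hx | hx | hx <;> omega
    obtain ⟨z', e1, e2, e3⟩ := sgn5 h1
    exact ⟨x, y, z', by rw [e1, h], fun hh => hn ⟨hh.1, hh.2.1, e3.mp hh.2.2⟩, h0, e2⟩
  · have h1 : (x ^ 2 + y ^ 2) % 5 = 0 := by rcases sq_mod5 z with hx | hx | hx <;> omega
    obtain ⟨z', e1, e2, e3⟩ := sgn5 h1
    exact ⟨x, z, z', by rw [e1, h]; ring, fun hh => hn ⟨hh.1, e3.mp hh.2.2, hh.2.1⟩, h0, e2⟩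

/-- arrangement for case B, first kind -/
theorem arrB1 {W : ℤ} (hW : W % 5 = 0) (h3 : W % 3 = 0 ∨ W % 3 = 1) (h : ∃ x y z : ℤ, W = x ^ 2 + y ^ 2 + z ^ 2 ∧
    ¬ (x % 3 = 0 ∧ y % 3 = 0 ∧ z % 3 = 0)) :
    ∃ a b c : ℤ, W = a ^ 2 + b ^ 2 + c ^ 2 ∧ b % 5 = 0 ∧ (c + 2 * a) % 5 = 0 ∧
      ((a % 3 = 2 ∧ b % 3 = 1 ∧ (c % 3 = 1 ∨ c % 3 = 2)) ∨ (a % 3 = 1 ∧ b % 3 = 0 ∧ c % 3 = 0) ∨
        (a % 3 = 0 ∧ b % 3 = 2 ∧ c % 3 = 0)) := by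
  obtain ⟨x, y, z, h, hn, h1, h2⟩ := arr5 hW h
  -- the four rotations of (x, z) and the two signs of y
  have key : ∃ a c : ℤ, a ^ 2 + c ^ 2 = x ^ 2 + z ^ 2 ∧ (c + 2 * a) % 5 = 0 ∧ ∃ b : ℤ, b ^ 2 = y ^ 2 ∧ b % 5 = 0 ∧
      ((a % 3 = 2 ∧ b % 3 = 1 ∧ (c % 3 = 1 ∨ c % 3 = 2)) ∨ (a % 3 = 1 ∧ b % 3 = 0 ∧ c % 3 = 0) ∨
        (a % 3 = 0 ∧ b % 3 = 2 ∧ c % 3 = 0)) := by
    rcases sq_mod3 x with ⟨ax, bx⟩ | ⟨ax, bx⟩ <;> rcases sq_mod3 y with ⟨ay, by'⟩ | ⟨ay, by'⟩ <;>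
      rcases sq_mod3 z with ⟨az, bz⟩ | ⟨az, bz⟩
    · exact absurd ⟨ax, ay, az⟩ hn
    · -- only z
      rcases (show z % 3 = 1 ∨ z % 3 = 2 by omega) with hz | hz
      · exact ⟨z, -x, by ring, by omega, y, rfl, h1, Or.inr (Or.inl ⟨hz, ay, by omega⟩)⟩
      · exact ⟨-z, x, by ring, by omega, y, rfl, h1, Or.inr (Or.inl ⟨by omega, ay, ax⟩)⟩
    · -- only y
      rcases (show y % 3 = 1 ∨ y % 3 = 2 by omega) with hy | hy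
      · exact ⟨x, z, rfl, h2, -y, by ring, by omega, Or.inr (Or.inr ⟨ax, by omega, az⟩)⟩
      · exact ⟨x, z, rfl, h2, y, rfl, h1, Or.inr (Or.inr ⟨ax, hy, az⟩)⟩
    · omega
    · -- only x
      rcases (show x % 3 = 1 ∨ x % 3 = 2 by omega) with hx | hx
      · exact ⟨x, z, rfl, h2, y, rfl, h1, Or.inr (Or.inl ⟨hx, ay, az⟩)⟩
      · exact ⟨-x, -z, by ring, by omega, y, rfl, h1, Or.inr (Or.inl ⟨by omega, ay, by omega⟩)⟩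
    · omega
    · omega
    · rcases (show x % 3 = 1 ∨ x % 3 = 2 by omega) with hx | hx <;>
        rcases (show y % 3 = 1 ∨ y % 3 = 2 by omega) with hy | hy
      · exact ⟨-x, -z, by ring, by omega, y, rfl, h1, Or.inl ⟨by omega, hy, by omega⟩⟩
      · exact ⟨-x, -z, by ring, by omega, -y, by ring, by omega, Or.inl ⟨by omega, by omega, by omega⟩⟩
      · exact ⟨x, z, rfl, h2, y, rfl, h1, Or.inl ⟨hx, hy, by omega⟩⟩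
      · exact ⟨x, z, rfl, h2, -y, by ring, by omega, Or.inl ⟨hx, by omega, by omega⟩⟩
  obtain ⟨a, c, e1, e2, b, e3, e4, e5⟩ := key
  exact ⟨a, b, c, by rw [h, e3]; linear_combination -e1, e4, e2, e5⟩

/-- arrangement for case B, second kind -/
theorem arrB2 {W : ℤ} (hW : W % 5 = 0) (h3 : W % 3 = 0 ∨ W % 3 = 1) (h : ∃ x y z : ℤ, W = x ^ 2 + y ^ 2 + z ^ 2 ∧
    ¬ (x % 3 = 0 ∧ y % 3 = 0 ∧ z % 3 = 0)) :
    ∃ a b c : ℤ, W = a ^ 2 + b ^ 2 + c ^ 2 ∧ b % 5 = 0 ∧ (c + 2 * a) % 5 = 0 ∧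
      (((a % 3 = 1 ∨ a % 3 = 2) ∧ b % 3 = 2 ∧ c % 3 = 1) ∨ (a % 3 = 0 ∧ b % 3 = 1 ∧ c % 3 = 0) ∨
        (a % 3 = 0 ∧ b % 3 = 0 ∧ c % 3 = 2)) := by
  obtain ⟨x, y, z, h, hn, h1, h2⟩ := arr5 hW h
  have key : ∃ a c : ℤ, a ^ 2 + c ^ 2 = x ^ 2 + z ^ 2 ∧ (c + 2 * a) % 5 = 0 ∧ ∃ b : ℤ, b ^ 2 = y ^ 2 ∧ b % 5 = 0 ∧
      (((a % 3 = 1 ∨ a % 3 = 2) ∧ b % 3 = 2 ∧ c % 3 = 1) ∨ (a % 3 = 0 ∧ b % 3 = 1 ∧ c % 3 = 0) ∨
        (a % 3 = 0 ∧ b % 3 = 0 ∧ c % 3 = 2)) := by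
    rcases sq_mod3 x with ⟨ax, bx⟩ | ⟨ax, bx⟩ <;> rcases sq_mod3 y with ⟨ay, by'⟩ | ⟨ay, by'⟩ <;>
      rcases sq_mod3 z with ⟨az, bz⟩ | ⟨az, bz⟩
    · exact absurd ⟨ax, ay, az⟩ hn
    · -- only z
      rcases (show z % 3 = 1 ∨ z % 3 = 2 by omega) with hz | hz
      · exact ⟨-x, -z, by ring, by omega, y, rfl, h1, Or.inr (Or.inr ⟨by omega, ay, by omega⟩)⟩
      · exact ⟨x, z, rfl, h2, y, rfl, h1, Or.inr (Or.inr ⟨ax, ay, hz⟩)⟩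
    · -- only y
      rcases (show y % 3 = 1 ∨ y % 3 = 2 by omega) with hy | hy
      · exact ⟨x, z, rfl, h2, y, rfl, h1, Or.inr (Or.inl ⟨ax, hy, az⟩)⟩
      · exact ⟨x, z, rfl, h2, -y, by ring, by omega, Or.inr (Or.inl ⟨ax, by omega, az⟩)⟩
    · omega
    · -- only x
      rcases (show x % 3 = 1 ∨ x % 3 = 2 by omega) with hx | hx
      · exact ⟨z, -x, by ring, by omega, y, rfl, h1, Or.inr (Or.inr ⟨az, ay, by omega⟩)⟩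
      · exact ⟨-z, x, by ring, by omega, y, rfl, h1, Or.inr (Or.inr ⟨by omega, ay, hx⟩)⟩
    · omega
    · omega
    · rcases (show z % 3 = 1 ∨ z % 3 = 2 by omega) with hz | hz <;>
        rcases (show y % 3 = 1 ∨ y % 3 = 2 by omega) with hy | hy
      · exact ⟨x, z, rfl, h2, -y, by ring, by omega, Or.inl ⟨by omega, by omega, hz⟩⟩
      · exact ⟨x, z, rfl, h2, y, rfl, h1, Or.inl ⟨by omega, hy, hz⟩⟩
      · exact ⟨-x, -z, by ring, by omega, -y, by ring, by omega, Or.inl ⟨by omega, by omega, by omega⟩⟩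
      · exact ⟨-x, -z, by ring, by omega, y, rfl, h1, Or.inl ⟨by omega, hy, by omega⟩⟩
  obtain ⟨a, c, e1, e2, b, e3, e4, e5⟩ := key
  exact ⟨a, b, c, by rw [h, e3]; linear_combination -e1, e4, e2, e5⟩

/-- the row sums of the matrix of a quaternion -/
def Row (a b c d : ℤ) : Prop := R1 a b c d 1 1 1 % 3 = 1 ∧ R2 a b c d 1 1 1 % 3 = 1 ∧ R3 a b c d 1 1 1 % 3 = 1

/-- the row sums modulo `3` depend on the residues only -/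
theorem row_of_mod {a b c d a' b' c' d' : ℤ} (ha : a % 3 = a' % 3) (hb : b % 3 = b' % 3) (hc : c % 3 = c' % 3)
    (hd : d % 3 = d' % 3) (h : Row a' b' c' d') : Row a b c d := by
  have ea : a ≡ a' [ZMOD 3] := ha
  have eb : b ≡ b' [ZMOD 3] := hb
  have ec : c ≡ c' [ZMOD 3] := hc
  have ed : d ≡ d' [ZMOD 3] := hd
  obtain ⟨h1, h2, h3⟩ := h
  have two := Int.ModEq.refl (n := 3) (2 : ℤ)
  have one := Int.ModEq.refl (n := 3) (1 : ℤ)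
  refine ⟨Eq.trans ?_ h1, Eq.trans ?_ h2, Eq.trans ?_ h3⟩
  · exact ((((((ea.pow 2).add (eb.pow 2)).sub (ec.pow 2)).sub (ed.pow 2)).mul one).add
      ((two.mul ((eb.mul ec).sub (ea.mul ed))).mul one)).add ((two.mul ((eb.mul ed).add (ea.mul ec))).mul one)
  · exact (((two.mul ((eb.mul ec).add (ea.mul ed))).mul one).add
      (((((ea.pow 2).sub (eb.pow 2)).add (ec.pow 2)).sub (ed.pow 2)).mul one)).add
        ((two.mul ((ec.mul ed).sub (ea.mul eb))).mul one)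
  · exact (((two.mul ((eb.mul ed).sub (ea.mul ec))).mul one).add
      ((two.mul ((ec.mul ed).add (ea.mul eb))).mul one)).add
        (((((ea.pow 2).sub (eb.pow 2)).sub (ec.pow 2)).add (ed.pow 2)).mul one)

end H34S
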