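import Mathlib

/-!
# H34S: certificates for coverings of space by the octants of integral frames
-/

set_option autoImplicit false

namespace H34S

/-- integral vectors -/
structure V where
  a : ℤ
  b : ℤ
  c : ℤ
deriving DecidableEq

/-- inner product -/
def dot (r v : V) : ℤ := r.a * v.a + r.b * v.b + r.c * v.c

/-- opposite vector -/
def neg (r : V) : V := ⟨-r.a, -r.b, -r.c⟩

/-- multiple of a vector -/
def smul (k : ℕ) (r : V) : V := ⟨k * r.a, k * r.b, k * r.c⟩

/-- sum of vectors -/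
def add (r s : V) : V := ⟨r.a + s.a, r.b + s.b, r.c + s.c⟩

/-- a matrix, given by its rows -/
structure F where
  r : V
  s : V
  t : V

theorem dot_neg (r v : V) : dot (neg r) v = - dot r v := by simp only [dot, neg]; ring

theorem dot_smul (k : ℕ) (r v : V) : dot (smul k r) v = k * dot r v := by simp only [dot, smul]; ring

theorem dot_add (r s v : V) : dot (add r s) v = dot r v + dot s v := by simp only [dot, add]; ring

/-- the combination of the vectors of a list described by a list of pairs (index, coefficient) -/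
def combo (cs : List V) : List (ℕ × ℕ) → V
  | [] => ⟨0, 0, 0⟩
  | (i, k) :: l => add (smul k (cs.getD i ⟨0, 0, 0⟩)) (combo cs l)

theorem combo_nonneg {cs : List V} {v : V} (h : ∀ r ∈ cs, 0 ≤ dot r v) (l : List (ℕ × ℕ)) :
    0 ≤ dot (combo cs l) v := by
  induction l with
  | nil => simp [combo, dot]
  | cons x l ih =>
    obtain ⟨i, k⟩ := x
    have h1 : 0 ≤ dot (cs.getD i ⟨0, 0, 0⟩) v := by
      by_cases hi : i < cs.length
      · rw [List.getD_eq_getElem _ _ hi]
        exact h _ (List.getElem_mem hi)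
      · rw [List.getD_eq_default _ _ (not_lt.mp hi)]
        simp [dot]
    rw [combo, dot_add, dot_smul]
    exact add_nonneg (mul_nonneg (Int.natCast_nonneg k) h1) ih

/-- the check that `r` is nonnegative where the vectors of `cs` are -/
def cert (cs : List V) (r : V) (c : ℕ × List (ℕ × ℕ)) : Bool :=
  decide (0 < c.1) && decide (combo cs c.2 = smul c.1 r)

theorem cert_sound {cs : List V} {v r : V} {c : ℕ × List (ℕ × ℕ)} (h : ∀ r ∈ cs, 0 ≤ dot r v)
    (hc : cert cs r c = true) : 0 ≤ dot r v := by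
  rw [cert, Bool.and_eq_true, decide_eq_true_eq, decide_eq_true_eq] at hc
  have h1 := combo_nonneg h c.2
  rw [hc.2, dot_smul] at h1
  have h2 : (0 : ℤ) < c.1 := by exact_mod_cast hc.1
  by_contra h3
  have := mul_neg_of_pos_of_neg h2 (not_le.mp h3)
  omega

/-- decision trees -/
inductive T where
  | leaf (j : Bool) (f : F) (x y z : ℕ × List (ℕ × ℕ))
  | node (r : V) (p q : T)

/-- the check of a decision tree; `tr j` is applied to the rows of the matrices of kind `j` -/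
def T.check (ok : F → Bool) (tr : Bool → V → V) : T → List V → Bool
  | .leaf j f x y z, cs => ok f && (cert cs (tr j f.r) x && (cert cs (tr j f.s) y && cert cs (tr j f.t) z))
  | .node r p q, cs => p.check ok tr (r :: cs) && q.check ok tr (neg r :: cs)

theorem T.sound {ok : F → Bool} {tr : Bool → V → V} {v : V} (t : T) : ∀ cs : List V,
    t.check ok tr cs = true → (∀ r ∈ cs, 0 ≤ dot r v) →
      ∃ j f, ok f = true ∧ 0 ≤ dot (tr j f.r) v ∧ 0 ≤ dot (tr j f.s) v ∧ 0 ≤ dot (tr j f.t) v := by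
  induction t with
  | leaf j f x y z =>
    intro cs h hv
    rw [T.check, Bool.and_eq_true, Bool.and_eq_true, Bool.and_eq_true] at h
    exact ⟨j, f, h.1, cert_sound hv h.2.1, cert_sound hv h.2.2.1, cert_sound hv h.2.2.2⟩
  | node r p q hp hq =>
    intro cs h hv
    rw [T.check, Bool.and_eq_true] at h
    rcases le_total 0 (dot r v) with h1 | h1
    · refine hp (r :: cs) h.1 ?_
      intro r' hr'
      rcases List.mem_cons.mp hr' with rfl | hr'
      · exact h1
      · exact hv r' hr'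
    · refine hq (neg r :: cs) h.2 ?_
      intro r' hr'
      rcases List.mem_cons.mp hr' with rfl | hr'
      · rw [dot_neg]; omega
      · exact hv r' hr'

/-- the matrix `f` satisfies `fᵗ f = k²` and its rows `r` satisfy `⟨r, w⟩ ≡ -1 (mod n)` -/
def ok (k n : ℕ) (w : V) (f : F) : Bool :=
  decide (f.r.a ^ 2 + f.s.a ^ 2 + f.t.a ^ 2 = (k : ℤ) ^ 2) &&
  (decide (f.r.b ^ 2 + f.s.b ^ 2 + f.t.b ^ 2 = (k : ℤ) ^ 2) &&
  (decide (f.r.c ^ 2 + f.s.c ^ 2 + f.t.c ^ 2 = (k : ℤ) ^ 2) &&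
  (decide (f.r.a * f.r.b + f.s.a * f.s.b + f.t.a * f.t.b = 0) &&
  (decide (f.r.a * f.r.c + f.s.a * f.s.c + f.t.a * f.t.c = 0) &&
  (decide (f.r.b * f.r.c + f.s.b * f.s.c + f.t.b * f.t.c = 0) &&
  (decide (dot f.r w % n = n - 1) && (decide (dot f.s w % n = n - 1) && decide (dot f.t w % n = n - 1))))))))

/-- the vector `v` is congruent to `w` modulo `n` -/
def Cong (n : ℕ) (v w : V) : Prop := v.a % n = w.a % n ∧ v.b % n = w.b % n ∧ v.c % n = w.c % n

theorem dot_cong {n : ℕ} {r v w : V} (h : Cong n v w) : dot r v % n = dot r w % n := by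
  obtain ⟨h1, h2, h3⟩ := h
  exact (((Int.ModEq.refl r.a).mul h1).add ((Int.ModEq.refl r.b).mul h2)).add ((Int.ModEq.refl r.c).mul h3)

theorem ok_sound {k n : ℕ} {w v : V} {f : F} (h : ok k n w f = true) (hv : Cong n v w) :
    dot f.r v ^ 2 + dot f.s v ^ 2 + dot f.t v ^ 2 = (k : ℤ) ^ 2 * (v.a ^ 2 + v.b ^ 2 + v.c ^ 2) ∧
    dot f.r v % n = n - 1 ∧ dot f.s v % n = n - 1 ∧ dot f.t v % n = n - 1 := by
  rw [ok] at h
  simp only [Bool.and_eq_true, decide_eq_true_eq] at h
  obtain ⟨h1, h2, h3, h4, h5, h6, h7, h8, h9⟩ := h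
  refine ⟨?_, ?_, ?_, ?_⟩
  · simp only [dot]
    linear_combination v.a ^ 2 * h1 + v.b ^ 2 * h2 + v.c ^ 2 * h3 + 2 * v.a * v.b * h4 + 2 * v.a * v.c * h5
      + 2 * v.b * v.c * h6
  · rw [dot_cong hv, h7]
  · rw [dot_cong hv, h8]
  · rw [dot_cong hv, h9]

/-- `m` is the sum of the squares of three positive integers congruent to `-1` modulo `n` -/
def Good (n : ℕ) (m : ℤ) : Prop :=
  ∃ x y z : ℕ, m = ((n : ℤ) * x + n - 1) ^ 2 + ((n : ℤ) * y + n - 1) ^ 2 + ((n : ℤ) * z + n - 1) ^ 2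

theorem nat_of {n : ℕ} {x : ℤ} (h0 : 0 ≤ x) (h : x % n = n - 1) : ∃ y : ℕ, x = (n : ℤ) * y + n - 1 := by
  have h1 : 0 ≤ x / n := Int.ediv_nonneg h0 (Int.natCast_nonneg n)
  refine ⟨(x / n).toNat, ?_⟩
  rw [Int.toNat_of_nonneg h1]
  have := Int.mul_ediv_add_emod x n
  omega

theorem good_of {k n : ℕ} {w v : V} {f : F} (h : ok k n w f = true) (hv : Cong n v w)
    (h1 : 0 ≤ dot f.r v) (h2 : 0 ≤ dot f.s v) (h3 : 0 ≤ dot f.t v) :
    Good n ((k : ℤ) ^ 2 * (v.a ^ 2 + v.b ^ 2 + v.c ^ 2)) := by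
  obtain ⟨e, e1, e2, e3⟩ := ok_sound h hv
  obtain ⟨x, hx⟩ := nat_of h1 e1
  obtain ⟨y, hy⟩ := nat_of h2 e2
  obtain ⟨z, hz⟩ := nat_of h3 e3
  exact ⟨x, y, z, by rw [← e, hx, hy, hz]⟩

end H34S
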