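import Pool.Agent.Lib.H34S.Cover

/-!
# H34S: certificates (generated), hexagonal numbers
-/

set_option autoImplicit false

namespace H34S

def h21 : T := .node ⟨1,0,0⟩ (.node ⟨0,1,0⟩ (.node ⟨0,0,1⟩ (.leaf false ⟨⟨0,0,21⟩,⟨0,21,0⟩,⟨21,0,0⟩⟩ (1,[(0,21)]) (1,[(1,21)]) (1,[(2,21)])) (.node ⟨-11,16,-8⟩ (.node ⟨8,-4,-19⟩ (.node ⟨16,13,4⟩ (.leaf false ⟨⟨-11,16,-8⟩,⟨8,-4,-19⟩,⟨16,13,4⟩⟩ (1,[(2,1)]) (1,[(1,1)]) (1,[(0,1)])) (.leaf false ⟨⟨-19,-4,-8⟩,⟨4,13,-16⟩,⟨8,-16,-11⟩⟩ (1,[(5,13),(4,22),(0,2)]) (1,[(5,68),(4,65),(0,4)]) (4,[(5,208),(4,79),(0,11)]))) (.leaf false ⟨⟨-18,9,-6⟩,⟨6,18,9⟩,⟨9,6,-18⟩⟩ (4,[(2,195),(0,9)]) (2,[(2,153),(4,84),(0,9)]) (2,[(2,93),(4,42),(0,3)]))) (.node ⟨4,-8,-19⟩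 (.leaf false ⟨⟨4,-8,-19⟩,⟨13,16,-4⟩,⟨16,-11,8⟩⟩ (1,[(0,1)]) (11,[(2,148),(1,13),(3,384)]) (11,[(2,40),(1,16),(3,135)])) (.leaf false ⟨⟨-7,14,14⟩,⟨14,-7,14⟩,⟨14,14,-7⟩⟩ (4,[(2,77),(0,7)]) (8,[(2,1043),(1,28),(0,49)]) (4,[(2,1449),(1,28),(0,63)]))))) (.node ⟨0,0,1⟩ (.node ⟨-11,-8,16⟩ (.node ⟨8,-19,-4⟩ (.node ⟨16,4,13⟩ (.leaf false ⟨⟨-11,-8,16⟩,⟨8,-19,-4⟩,⟨16,4,13⟩⟩ (1,[(2,1)]) (1,[(1,1)]) (1,[(0,1)])) (.leaf false ⟨⟨-19,-8,-4⟩,⟨4,-16,13⟩,⟨8,-11,-16⟩⟩ (1,[(3,22),(5,13),(0,2)]) (1,[(3,65),(5,68),(0,4)]) (4,[(3,79),(5,208),(0,11)]))) (.leaf false ⟨⟨-18,-6,9⟩,⟨6,9,18⟩,⟨9,-18,6⟩⟩ (4,[(3,195),(0,9)]) (2,[(4,84),(3,153),(0,9)]) (2,[(4,42),(3,93),(0,3)]))) (.node ⟨4,-19,-8⟩ (.leaf false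 ⟨⟨4,-19,-8⟩,⟨13,-4,16⟩,⟨16,8,-11⟩⟩ (1,[(0,1)]) (11,[(2,384),(1,13),(3,148)]) (11,[(2,135),(1,16),(3,40)])) (.leaf false ⟨⟨-7,14,14⟩,⟨14,-7,14⟩,⟨14,14,-7⟩⟩ (4,[(3,77),(0,7)]) (4,[(1,28),(3,1449),(0,63)]) (8,[(1,28),(3,1043),(0,49)])))) (.node ⟨4,-20,5⟩ (.node ⟨20,5,4⟩ (.leaf false ⟨⟨4,-20,5⟩,⟨5,-4,-20⟩,⟨20,5,4⟩⟩ (1,[(1,1)]) (4,[(2,84),(0,1),(3,21)]) (1,[(0,1)])) (.node ⟨4,-19,8⟩ (.leaf false ⟨⟨-16,-8,-11⟩,⟨4,-19,8⟩,⟨13,-4,-16⟩⟩ (5,[(3,23),(5,80),(1,8)]) (1,[(0,1)]) (5,[(3,64),(5,145),(1,4)])) (.leaf false ⟨⟨-19,-4,-8⟩,⟨4,13,-16⟩,⟨8,-16,-11⟩⟩ (29,[(5,393),(1,46),(0,6)]) (13,[(5,96),(2,40),(0,51)]) (65,[(5,372),(2,337),(0,300)])))) (.node ⟨-16,8,-11⟩ (.leaf false ⟨⟨-16,8,-11⟩,⟨-4,-19,-8⟩,⟨13,4,-16⟩⟩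 (1,[(0,1)]) (5,[(4,12),(3,255),(1,8)]) (5,[(4,129),(3,300),(1,16)])) (.leaf false ⟨⟨-4,8,-19⟩,⟨13,16,4⟩,⟨16,-11,-8⟩⟩ (9,[(3,1116),(1,65),(0,14)]) (36,[(3,612),(1,79),(0,49)]) (9,[(3,1395),(1,76),(0,28)])))))) (.node ⟨0,1,0⟩ (.node ⟨0,0,1⟩ (.node ⟨-8,16,-11⟩ (.node ⟨-19,-4,8⟩ (.node ⟨4,13,16⟩ (.leaf false ⟨⟨-19,-4,8⟩,⟨-8,16,-11⟩,⟨4,13,16⟩⟩ (1,[(1,1)]) (1,[(2,1)]) (1,[(0,1)])) (.leaf false ⟨⟨-19,4,8⟩,⟨-8,-16,-11⟩,⟨-4,13,-16⟩⟩ (4,[(3,336),(0,19),(4,263)]) (1,[(3,21),(0,2),(4,10)]) (1,[(0,1),(4,26)]))) (.leaf false ⟨⟨-19,4,-8⟩,⟨-4,13,16⟩,⟨8,16,-11⟩⟩ (1,[(4,38),(0,1)]) (4,[(2,168),(4,263),(0,13)]) (1,[(2,21),(4,68),(0,4)]))) (.node ⟨-19,-8,4⟩ (.leaf false ⟨⟨-19,-8,4⟩,⟨-4,16,13⟩,⟨8,-11,16⟩⟩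 (1,[(0,1)]) (11,[(4,148),(3,384),(1,13)]) (11,[(4,40),(3,135),(1,16)])) (.leaf false ⟨⟨-19,8,-4⟩,⟨-8,-11,16⟩,⟨4,16,13⟩⟩ (1,[(4,38),(0,1)]) (8,[(4,1143),(0,45),(1,28)]) (1,[(4,356),(0,16),(1,7)])))) (.node ⟨-20,4,5⟩ (.node ⟨5,20,4⟩ (.leaf false ⟨⟨-20,4,5⟩,⟨-4,5,-20⟩,⟨5,20,4⟩⟩ (1,[(1,1)]) (4,[(2,84),(4,21),(0,1)]) (1,[(0,1)])) (.node ⟨-19,4,8⟩ (.leaf false ⟨⟨-19,4,8⟩,⟨-8,-16,-11⟩,⟨-4,13,-16⟩⟩ (1,[(0,1)]) (5,[(3,23),(1,8),(4,80)]) (5,[(3,64),(1,4),(4,145)])) (.leaf false ⟨⟨-19,-4,-8⟩,⟨4,13,-16⟩,⟨8,-16,-11⟩⟩ (56,[(1,19),(2,228),(0,189)]) (65,[(2,272),(4,957),(0,300)]) (4,[(1,5),(4,48),(0,3)])))) (.node ⟨8,-16,-11⟩ (.leaf false ⟨⟨-19,-4,-8⟩,⟨4,13,-16⟩,⟨8,-16,-11⟩⟩ (5,[(4,255),(3,12),(1,8)])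 (5,[(4,300),(3,129),(1,16)]) (1,[(0,1)])) (.leaf false ⟨⟨-20,5,-4⟩,⟨4,20,5⟩,⟨5,4,-20⟩⟩ (36,[(4,2772),(0,41),(1,119)]) (9,[(4,504),(0,20),(1,35)]) (9,[(4,1575),(0,25),(1,91)]))))) (.node ⟨0,0,1⟩ (.node ⟨4,5,20⟩ (.node ⟨5,-20,4⟩ (.leaf false ⟨⟨-20,-4,5⟩,⟨4,5,20⟩,⟨5,-20,4⟩⟩ (4,[(4,84),(3,21),(1,1)]) (1,[(1,1)]) (1,[(0,1)])) (.node ⟨-11,8,-16⟩ (.leaf false ⟨⟨-16,4,13⟩,⟨-11,8,-16⟩,⟨-8,-19,-4⟩⟩ (52,[(4,1449),(2,133),(0,124)]) (1,[(0,1)]) (7,[(4,378),(2,1),(1,12)])) (.leaf false ⟨⟨-20,5,4⟩,⟨-4,-20,5⟩,⟨5,4,20⟩⟩ (9,[(4,1575),(0,25),(1,91)]) (36,[(4,2772),(0,41),(1,119)]) (9,[(4,504),(0,20),(1,35)])))) (.node ⟨-19,8,4⟩ (.leaf false ⟨⟨-19,8,4⟩,⟨-8,-11,-16⟩,⟨-4,-16,13⟩⟩ (1,[(0,1)]) (1,[(2,24),(1,2),(3,1)])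 (1,[(2,33),(1,1),(3,11)])) (.leaf false ⟨⟨-19,-8,-4⟩,⟨4,-16,13⟩,⟨8,-11,-16⟩⟩ (1,[(4,38),(0,1)]) (1,[(2,21),(4,34),(0,2)]) (5,[(4,43),(1,3),(0,5)])))) (.node ⟨-4,13,-16⟩ (.node ⟨-19,4,8⟩ (.leaf false ⟨⟨-19,4,8⟩,⟨-8,-16,-11⟩,⟨-4,13,-16⟩⟩ (1,[(0,1)]) (19,[(2,273),(0,8),(3,336)]) (1,[(1,1)])) (.leaf false ⟨⟨-16,8,-11⟩,⟨-4,-19,-8⟩,⟨13,4,-16⟩⟩ (16,[(1,11),(4,212),(3,15)]) (1,[(4,23),(3,15),(0,1)]) (7,[(1,4),(4,7),(0,6)]))) (.node ⟨8,-11,-16⟩ (.leaf false ⟨⟨-19,-8,-4⟩,⟨4,-16,13⟩,⟨8,-11,-16⟩⟩ (13,[(2,180),(4,279),(1,8)]) (13,[(2,87),(4,12),(1,16)]) (1,[(0,1)])) (.leaf false ⟨⟨-19,8,4⟩,⟨-8,-11,-16⟩,⟨-4,-16,13⟩⟩ (12,[(2,1104),(0,43),(1,29)]) (15,[(2,1536),(0,37),(1,44)]) (15,[(2,957),(0,29),(1,43)]))))))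
theorem h21_ok : h21.check (ok 21 4 ⟨3, 3, 3⟩) (fun _ r => r) [] = true := by decide +kernel

def h27 : T := .node ⟨1,0,0⟩ (.node ⟨0,1,0⟩ (.node ⟨0,0,1⟩ (.node ⟨-18,9,18⟩ (.node ⟨9,18,-18⟩ (.node ⟨-18,18,9⟩ (.leaf false ⟨⟨-18,18,9⟩,⟨9,18,-18⟩,⟨18,9,18⟩⟩ (1,[(0,1)]) (1,[(1,1)]) (1,[(5,36),(2,1)])) (.leaf false ⟨⟨-18,9,18⟩,⟨9,-18,18⟩,⟨18,18,9⟩⟩ (1,[(2,1)]) (1,[(1,1),(2,4),(0,4)]) (1,[(1,4),(2,8),(0,7)]))) (.leaf false ⟨⟨-18,9,18⟩,⟨9,-18,18⟩,⟨18,18,9⟩⟩ (1,[(1,1)]) (1,[(4,18),(0,1)]) (2,[(4,54),(3,27),(1,1)]))) (.node ⟨18,-18,9⟩ (.leaf false ⟨⟨9,18,18⟩,⟨18,-18,9⟩,⟨18,9,-18⟩⟩ (2,[(2,27),(0,1),(3,54)]) (1,[(0,1)]) (1,[(1,1),(3,18)])) (.leaf false ⟨⟨-18,18,9⟩,⟨9,18,-18⟩,⟨18,9,18⟩⟩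 (1,[(2,18),(0,1)]) (2,[(2,117),(1,6),(0,5)]) (1,[(2,90),(1,3),(0,2)])))) (.node ⟨-10,10,-23⟩ (.node ⟨2,25,10⟩ (.leaf false ⟨⟨-10,10,-23⟩,⟨2,25,10⟩,⟨25,2,-10⟩⟩ (1,[(1,1)]) (1,[(0,1)]) (5,[(2,27),(4,135),(1,1)])) (.leaf false ⟨⟨-7,14,-22⟩,⟨-2,-23,-14⟩,⟨26,2,-7⟩⟩ (23,[(4,59),(3,102),(1,22)]) (5,[(4,4),(3,60),(0,7)]) (10,[(4,274),(3,195),(0,7)]))) (.leaf false ⟨⟨2,25,-10⟩,⟨10,-10,-23⟩,⟨25,2,10⟩⟩ (5,[(1,73),(0,1),(2,135)]) (1,[(1,46),(0,1)]) (2,[(1,95),(0,5),(2,54)])))) (.node ⟨0,0,1⟩ (.node ⟨-10,-23,10⟩ (.node ⟨2,10,25⟩ (.leaf false ⟨⟨-10,-23,10⟩,⟨2,10,25⟩,⟨25,-10,2⟩⟩ (1,[(1,1)]) (1,[(0,1)]) (5,[(4,135),(3,27),(1,1)])) (.leaf false ⟨⟨-7,-22,14⟩,⟨-2,-14,-23⟩,⟨26,-7,2⟩⟩ (23,[(2,102),(4,59),(1,22)])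 (5,[(2,60),(4,4),(0,7)]) (10,[(2,195),(4,274),(0,7)]))) (.leaf false ⟨⟨2,-10,25⟩,⟨10,-23,-10⟩,⟨25,10,2⟩⟩ (5,[(1,135),(0,1),(2,73)]) (1,[(0,1),(2,46)]) (2,[(1,54),(0,5),(2,95)]))) (.node ⟨-12,-24,-3⟩ (.node ⟨21,12,-12⟩ (.node ⟨-12,-3,-24⟩ (.leaf false ⟨⟨-12,-3,-24⟩,⟨12,-24,-3⟩,⟨21,12,-12⟩⟩ (1,[(0,1)]) (1,[(5,24),(2,1)]) (1,[(1,1)])) (.leaf false ⟨⟨-12,-24,-3⟩,⟨12,-3,-24⟩,⟨21,-12,12⟩⟩ (1,[(2,1)]) (7,[(3,378),(0,9),(2,2)]) (7,[(1,7),(0,8),(2,8)]))) (.leaf false ⟨⟨-12,-24,-3⟩,⟨12,-3,-24⟩,⟨21,-12,12⟩⟩ (1,[(2,27),(4,30),(0,2)]) (4,[(2,108),(4,69),(0,1)]) (1,[(4,42),(0,1)]))) (.node ⟨12,-3,24⟩ (.leaf false ⟨⟨12,-3,24⟩,⟨12,24,-3⟩,⟨21,-12,-12⟩⟩ (1,[(0,1)]) (1,[(2,6),(1,1)]) (4,[(2,69),(1,7),(3,216)]))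 (.leaf false ⟨⟨-12,-3,-24⟩,⟨12,-24,-3⟩,⟨21,12,-12⟩⟩ (1,[(3,6),(0,1)]) (7,[(1,9),(3,390),(0,2)]) (28,[(1,72),(3,1461),(0,23)])))))) (.node ⟨0,1,0⟩ (.node ⟨0,0,1⟩ (.node ⟨-23,-10,10⟩ (.node ⟨10,2,25⟩ (.leaf false ⟨⟨-23,-10,10⟩,⟨-10,25,2⟩,⟨10,2,25⟩⟩ (1,[(1,1)]) (5,[(1,1),(4,27),(3,135)]) (1,[(0,1)])) (.leaf false ⟨⟨-22,-7,14⟩,⟨-14,-2,-23⟩,⟨-7,26,2⟩⟩ (23,[(2,102),(1,22),(3,59)]) (5,[(2,60),(0,7),(3,4)]) (10,[(2,195),(0,7),(3,274)]))) (.leaf false ⟨⟨-23,10,-10⟩,⟨-10,2,25⟩,⟨10,25,2⟩⟩ (1,[(3,46),(0,1)]) (5,[(1,135),(3,73),(0,1)]) (2,[(1,54),(3,95),(0,5)]))) (.node ⟨-7,22,14⟩ (.node ⟨-24,-12,-3⟩ (.leaf false ⟨⟨-26,-7,-2⟩,⟨-7,22,14⟩,⟨-2,14,-23⟩⟩ (68,[(2,153),(0,69),(1,16)]) (1,[(1,1)])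 (7,[(2,189),(1,2),(3,54)])) (.node ⟨25,2,-10⟩ (.leaf false ⟨⟨-10,10,-23⟩,⟨2,25,10⟩,⟨25,2,-10⟩⟩ (6,[(3,153),(5,180),(1,5)]) (188,[(3,288),(2,207),(0,73)]) (1,[(0,1)])) (.node ⟨-3,12,24⟩ (.leaf false ⟨⟨-12,21,-12⟩,⟨-3,12,24⟩,⟨24,12,-3⟩⟩ (28,[(4,1239),(1,72),(2,61)]) (1,[(0,1)]) (1,[(4,6),(2,1)])) (.leaf false ⟨⟨-26,-7,-2⟩,⟨-7,22,14⟩,⟨-2,14,-23⟩⟩ (42,[(1,69),(2,22),(0,35)]) (105,[(1,561),(2,524),(0,238)]) (105,[(1,897),(2,853),(0,581)]))))) (.node ⟨14,-7,-22⟩ (.leaf false ⟨⟨-23,-2,-14⟩,⟨2,26,-7⟩,⟨14,-7,-22⟩⟩ (1,[(4,30),(3,20),(1,1)]) (2,[(4,3),(3,74),(1,1)]) (1,[(0,1)])) (.leaf false ⟨⟨-26,-7,2⟩,⟨-7,22,-14⟩,⟨2,-14,-23⟩⟩ (21,[(3,4612),(1,272),(0,175)]) (3,[(3,518),(1,25),(0,14)])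 (42,[(3,4597),(1,278),(0,133)]))))) (.node ⟨0,0,1⟩ (.node ⟨-7,14,22⟩ (.node ⟨-24,-3,-12⟩ (.leaf false ⟨⟨-26,-2,-7⟩,⟨-7,14,22⟩,⟨-2,-23,14⟩⟩ (68,[(1,16),(0,69),(3,153)]) (1,[(1,1)]) (7,[(2,54),(1,2),(3,189)])) (.node ⟨25,-10,2⟩ (.leaf false ⟨⟨-10,-23,10⟩,⟨2,10,25⟩,⟨25,-10,2⟩⟩ (6,[(5,180),(4,153),(1,5)]) (188,[(2,207),(4,288),(0,73)]) (1,[(0,1)])) (.node ⟨-3,24,12⟩ (.leaf false ⟨⟨-12,-12,21⟩,⟨-3,24,12⟩,⟨24,-3,12⟩⟩ (28,[(5,1239),(2,61),(1,72)]) (1,[(0,1)]) (1,[(5,6),(2,1)])) (.leaf false ⟨⟨-26,-2,-7⟩,⟨-7,14,22⟩,⟨-2,-23,14⟩⟩ (42,[(2,22),(1,69),(0,35)]) (105,[(2,524),(1,561),(0,238)]) (105,[(2,853),(1,897),(0,581)]))))) (.node ⟨14,-22,-7⟩ (.leaf false ⟨⟨-23,-14,-2⟩,⟨2,-7,26⟩,⟨14,-22,-7⟩⟩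 (1,[(2,20),(4,30),(1,1)]) (2,[(2,74),(4,3),(1,1)]) (1,[(0,1)])) (.leaf false ⟨⟨-26,2,-7⟩,⟨-7,-14,22⟩,⟨2,-23,-14⟩⟩ (21,[(2,4612),(0,175),(1,272)]) (3,[(2,518),(0,14),(1,25)]) (42,[(2,4597),(0,133),(1,278)])))) (.leaf false ⟨⟨-27,0,0⟩,⟨0,-27,0⟩,⟨0,0,-27⟩⟩ (1,[(2,27)]) (1,[(1,27)]) (1,[(0,27)]))))
theorem h27_ok : h27.check (ok 27 4 ⟨3, 3, 3⟩) (fun _ r => r) [] = true := by decide +kernel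

def h33 : T := .node ⟨1,0,0⟩ (.node ⟨0,1,0⟩ (.node ⟨0,0,1⟩ (.leaf false ⟨⟨0,0,33⟩,⟨0,33,0⟩,⟨33,0,0⟩⟩ (1,[(0,33)]) (1,[(1,33)]) (1,[(2,33)])) (.node ⟨-8,8,-31⟩ (.node ⟨1,32,8⟩ (.leaf false ⟨⟨-8,8,-31⟩,⟨1,32,8⟩,⟨32,1,-8⟩⟩ (1,[(1,1)]) (1,[(0,1)]) (8,[(2,33),(4,264),(1,1)])) (.leaf false ⟨⟨-7,4,-32⟩,⟨16,-28,-7⟩,⟨28,17,-4⟩⟩ (8,[(4,9),(1,8),(0,1)]) (8,[(4,135),(0,7)]) (2,[(4,57),(3,66),(0,1)]))) (.leaf false ⟨⟨1,32,-8⟩,⟨8,-8,-31⟩,⟨32,1,8⟩⟩ (8,[(1,95),(0,1),(2,264)]) (1,[(1,62),(0,1)]) (1,[(1,116),(0,4),(2,33)])))) (.node ⟨0,0,1⟩ (.node ⟨-8,-31,8⟩ (.node ⟨1,8,32⟩ (.leaf false ⟨⟨-8,-31,8⟩,⟨1,8,32⟩,⟨32,-8,1⟩⟩ (1,[(1,1)]) (1,[(0,1)]) (8,[(4,264),(3,33),(1,1)])) (.leaf false ⟨⟨-7,-32,4⟩,⟨16,-7,-28⟩,⟨28,-4,17⟩⟩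 (8,[(4,9),(0,1),(1,8)]) (8,[(4,135),(0,7)]) (2,[(2,66),(4,57),(0,1)]))) (.leaf false ⟨⟨1,-8,32⟩,⟨8,-31,-8⟩,⟨32,8,1⟩⟩ (8,[(1,264),(0,1),(2,95)]) (1,[(0,1),(2,62)]) (1,[(1,33),(0,4),(2,116)]))) (.node ⟨-18,-27,-6⟩ (.node ⟨21,18,-18⟩ (.node ⟨-18,-6,-27⟩ (.leaf false ⟨⟨-18,-6,-27⟩,⟨18,-27,-6⟩,⟨21,18,-18⟩⟩ (1,[(0,1)]) (1,[(5,36),(2,1)]) (1,[(1,1)])) (.leaf false ⟨⟨-18,-27,-6⟩,⟨18,-6,-27⟩,⟨21,-18,18⟩⟩ (1,[(2,1)]) (49,[(1,84),(0,23),(2,72)]) (7,[(1,7),(0,12),(2,12)]))) (.leaf false ⟨⟨-18,-27,-6⟩,⟨18,-6,-27⟩,⟨21,-18,18⟩⟩ (2,[(2,66),(4,27),(0,3)]) (3,[(2,99),(4,75),(0,1)]) (1,[(4,42),(0,1)]))) (.node ⟨-4,-7,-32⟩ (.leaf false ⟨⟨-4,-7,-32⟩,⟨17,-28,4⟩,⟨28,16,-7⟩⟩ (1,[(0,1)]) (18,[(2,30),(1,17),(3,963)])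 (9,[(2,147),(1,14),(3,234)])) (.leaf false ⟨⟨4,-7,32⟩,⟨17,28,4⟩,⟨28,-16,-7⟩⟩ (1,[(0,1),(3,14)]) (4,[(2,528),(0,17),(3,7)]) (1,[(2,231),(0,7),(3,65)])))))) (.node ⟨0,1,0⟩ (.node ⟨0,0,1⟩ (.node ⟨-31,-8,8⟩ (.node ⟨8,1,32⟩ (.leaf false ⟨⟨-31,-8,8⟩,⟨-8,32,1⟩,⟨8,1,32⟩⟩ (1,[(1,1)]) (8,[(1,1),(4,33),(3,264)]) (1,[(0,1)])) (.leaf false ⟨⟨-32,-7,4⟩,⟨-7,16,-28⟩,⟨-4,28,17⟩⟩ (8,[(1,8),(0,1),(3,9)]) (8,[(0,7),(3,135)]) (2,[(2,66),(0,1),(3,57)]))) (.leaf false ⟨⟨-31,8,-8⟩,⟨-8,1,32⟩,⟨8,32,1⟩⟩ (1,[(3,62),(0,1)]) (8,[(1,264),(3,95),(0,1)]) (1,[(1,33),(3,116),(0,4)]))) (.node ⟨-4,28,17⟩ (.node ⟨-32,-4,-7⟩ (.node ⟨4,17,-28⟩ (.leaf false ⟨⟨-32,-4,-7⟩,⟨-7,28,16⟩,⟨4,17,-28⟩⟩ (1,[(1,1)]) (1,[(3,1),(5,3),(2,1)])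 (1,[(0,1)])) (.leaf false ⟨⟨-32,-7,4⟩,⟨-7,16,-28⟩,⟨-4,28,17⟩⟩ (1,[(3,220),(0,8),(4,129)]) (4,[(3,308),(0,7),(4,183)]) (1,[(3,11),(0,1),(4,45)]))) (.leaf false ⟨⟨-27,18,6⟩,⟨6,18,-27⟩,⟨18,21,18⟩⟩ (2,[(2,51),(4,342),(0,9)]) (2,[(2,117),(4,276),(0,9)]) (4,[(2,75),(4,600),(0,21)]))) (.node ⟨17,-4,-28⟩ (.leaf false ⟨⟨-28,-7,-16⟩,⟨-4,32,-7⟩,⟨17,-4,-28⟩⟩ (17,[(4,540),(3,329),(1,16)]) (4,[(4,33),(3,132),(0,1)]) (1,[(0,1)])) (.leaf false ⟨⟨-32,8,1⟩,⟨-8,-31,-8⟩,⟨1,8,-32⟩⟩ (59,[(3,7956),(1,293),(0,180)]) (59,[(3,1307),(1,120),(0,56)]) (59,[(3,5140),(1,172),(0,37)]))))) (.node ⟨0,0,1⟩ (.node ⟨-4,17,28⟩ (.node ⟨-32,-7,-4⟩ (.node ⟨4,-28,17⟩ (.leaf false ⟨⟨-32,-7,-4⟩,⟨-7,16,28⟩,⟨4,-28,17⟩⟩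 (1,[(1,1)]) (1,[(2,1),(5,3),(4,1)]) (1,[(0,1)])) (.leaf false ⟨⟨-32,-7,4⟩,⟨-7,16,-28⟩,⟨-4,28,17⟩⟩ (1,[(3,140),(0,8),(4,231)]) (4,[(3,7),(0,7),(4,132)]) (1,[(3,34),(0,1)]))) (.leaf false ⟨⟨-27,6,18⟩,⟨6,-27,18⟩,⟨18,18,21⟩⟩ (2,[(4,342),(3,51),(0,9)]) (2,[(4,276),(3,117),(0,9)]) (4,[(4,600),(3,75),(0,21)]))) (.node ⟨17,-28,-4⟩ (.leaf false ⟨⟨-28,-16,-7⟩,⟨-4,-7,32⟩,⟨17,-28,-4⟩⟩ (17,[(2,329),(4,540),(1,16)]) (4,[(2,132),(4,33),(0,1)]) (1,[(0,1)])) (.leaf false ⟨⟨-32,1,8⟩,⟨-8,-8,-31⟩,⟨1,-32,8⟩⟩ (59,[(2,7956),(0,180),(1,293)]) (59,[(2,1307),(0,56),(1,120)]) (59,[(2,5140),(0,37),(1,172)])))) (.node ⟨8,-31,8⟩ (.leaf false ⟨⟨-32,-8,1⟩,⟨1,-8,-32⟩,⟨8,-31,8⟩⟩ (31,[(1,33),(3,1056),(0,8)])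 (31,[(1,1056),(3,33),(0,8)]) (1,[(0,1)])) (.node ⟨8,8,-31⟩ (.leaf false ⟨⟨-32,1,-8⟩,⟨1,-32,-8⟩,⟨8,8,-31⟩⟩ (1,[(1,1),(4,24),(3,30)]) (31,[(4,33),(3,1056),(0,8)]) (1,[(0,1)])) (.leaf false ⟨⟨-31,8,8⟩,⟨-8,-32,1⟩,⟨-8,1,-32⟩⟩ (8,[(2,585),(1,8),(0,23)]) (1,[(2,30),(0,1),(3,24)]) (1,[(2,24),(1,1),(3,30)]))))))
theorem h33_ok : h33.check (ok 33 4 ⟨3, 3, 3⟩) (fun _ r => r) [] = true := by decide +kernel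

def h35 : T := .node ⟨1,0,0⟩ (.node ⟨0,1,0⟩ (.node ⟨0,0,1⟩ (.node ⟨-15,-10,30⟩ (.node ⟨-10,33,6⟩ (.leaf false ⟨⟨-15,-10,30⟩,⟨-10,33,6⟩,⟨30,6,17⟩⟩ (1,[(1,1)]) (1,[(0,1)]) (6,[(4,245),(0,2),(1,3)])) (.leaf false ⟨⟨-15,10,30⟩,⟨10,33,-6⟩,⟨30,-6,17⟩⟩ (1,[(3,20),(1,1)]) (1,[(3,66),(0,1)]) (6,[(3,1153),(1,10),(0,33)]))) (.node ⟨-10,30,-15⟩ (.leaf false ⟨⟨-10,30,-15⟩,⟨6,17,30⟩,⟨33,6,-10⟩⟩ (1,[(0,1)]) (30,[(2,1155),(4,350),(0,17)]) (5,[(2,40),(4,120),(1,3)])) (.leaf false ⟨⟨6,-10,33⟩,⟨17,30,6⟩,⟨30,-15,-10⟩⟩ (5,[(2,120),(0,3),(3,40)]) (15,[(2,600),(1,17),(3,280)]) (22,[(2,365),(0,21),(1,30)])))) (.node ⟨-18,1,-30⟩ (.node ⟨-28,21,0⟩ (.leaf false ⟨⟨-28,21,0⟩,⟨0,0,-35⟩,⟨21,28,0⟩⟩ (1,[(0,1)])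 (1,[(2,35)]) (3,[(4,175),(0,4)])) (.node ⟨18,30,1⟩ (.leaf false ⟨⟨-15,10,-30⟩,⟨18,30,1⟩,⟨26,-15,-18⟩⟩ (28,[(4,315),(2,28),(1,3)]) (1,[(0,1)]) (35,[(4,420),(2,21),(1,46)])) (.leaf false ⟨⟨-30,-15,-10⟩,⟨1,18,-30⟩,⟨18,-26,-15⟩⟩ (14,[(4,5565),(0,140),(1,75)]) (28,[(4,37065),(0,840),(1,541)]) (7,[(4,4480),(0,105),(1,72)])))) (.node ⟨21,-28,0⟩ (.leaf false ⟨⟨0,0,-35⟩,⟨21,-28,0⟩,⟨28,21,0⟩⟩ (1,[(2,35)]) (1,[(0,1)]) (3,[(0,4),(3,175)])) (.leaf false ⟨⟨-10,30,-15⟩,⟨6,17,30⟩,⟨33,6,-10⟩⟩ (483,[(2,17745),(1,350),(0,530)]) (161,[(2,420),(1,175),(0,104)]) (161,[(2,12110),(1,350),(0,47)]))))) (.node ⟨0,0,1⟩ (.node ⟨-18,-30,1⟩ (.node ⟨-28,0,21⟩ (.leaf false ⟨⟨-28,0,21⟩,⟨0,-35,0⟩,⟨21,0,28⟩⟩ (1,[(0,1)])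 (1,[(3,35)]) (3,[(4,175),(0,4)])) (.node ⟨18,1,30⟩ (.leaf false ⟨⟨-15,-30,10⟩,⟨18,1,30⟩,⟨26,-18,-15⟩⟩ (28,[(3,315),(1,3),(2,28)]) (1,[(0,1)]) (35,[(3,420),(1,46),(2,21)])) (.leaf false ⟨⟨-30,-15,-10⟩,⟨-6,-10,33⟩,⟨17,-30,-6⟩⟩ (7,[(3,4340),(1,60),(0,105)]) (14,[(3,6489),(1,87),(0,140)]) (28,[(3,36729),(1,557),(0,840)])))) (.node ⟨21,0,-28⟩ (.leaf false ⟨⟨0,-35,0⟩,⟨21,0,-28⟩,⟨28,0,21⟩⟩ (1,[(3,35)]) (1,[(0,1)]) (3,[(2,175),(0,4)])) (.leaf false ⟨⟨-10,-15,30⟩,⟨6,30,17⟩,⟨33,-10,6⟩⟩ (483,[(1,350),(3,17745),(0,530)]) (161,[(1,175),(3,420),(0,104)]) (161,[(1,350),(3,12110),(0,47)])))) (.node ⟨28,0,21⟩ (.leaf false ⟨⟨0,-35,0⟩,⟨21,0,-28⟩,⟨28,0,21⟩⟩ (1,[(2,35)]) (4,[(1,175),(0,3)]) (1,[(0,1)]))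 (.node ⟨-6,17,-30⟩ (.leaf false ⟨⟨-10,-30,-15⟩,⟨-6,17,-30⟩,⟨33,-6,-10⟩⟩ (7,[(4,70),(3,210),(1,5)]) (1,[(0,1)]) (3,[(4,105),(3,35),(0,1)])) (.leaf false ⟨⟨-30,-10,-15⟩,⟨1,-30,18⟩,⟨18,-15,-26⟩⟩ (119,[(4,1190),(0,70),(1,185)]) (119,[(4,4403),(0,210),(1,198)]) (357,[(4,29512),(0,315),(1,892)])))))) (.node ⟨0,1,0⟩ (.node ⟨0,0,1⟩ (.node ⟨-30,-18,1⟩ (.node ⟨0,-28,21⟩ (.leaf false ⟨⟨-35,0,0⟩,⟨0,-28,21⟩,⟨0,21,28⟩⟩ (1,[(4,35)]) (1,[(0,1)]) (3,[(0,4),(3,175)])) (.node ⟨1,18,30⟩ (.leaf false ⟨⟨-30,-15,10⟩,⟨-18,26,-15⟩,⟨1,18,30⟩⟩ (28,[(3,315),(2,28),(1,3)]) (35,[(3,420),(2,21),(1,46)]) (1,[(0,1)])) (.leaf false ⟨⟨-30,-15,-10⟩,⟨-15,10,30⟩,⟨-10,30,-15⟩⟩ (4,[(3,5135),(0,120),(1,75)]) (1,[(3,690),(0,15),(1,10)])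 (2,[(3,885),(0,20),(1,15)])))) (.node ⟨0,21,-28⟩ (.leaf false ⟨⟨-35,0,0⟩,⟨0,21,-28⟩,⟨0,28,21⟩⟩ (1,[(4,35)]) (1,[(0,1)]) (3,[(2,175),(0,4)])) (.leaf false ⟨⟨-15,-10,30⟩,⟨-10,33,6⟩,⟨30,6,17⟩⟩ (483,[(4,17745),(1,350),(0,530)]) (161,[(4,12110),(1,350),(0,47)]) (161,[(4,420),(1,175),(0,104)])))) (.node ⟨0,28,21⟩ (.leaf false ⟨⟨-35,0,0⟩,⟨0,21,-28⟩,⟨0,28,21⟩⟩ (1,[(3,35)]) (4,[(1,175),(0,3)]) (1,[(0,1)])) (.node ⟨17,-6,-30⟩ (.leaf false ⟨⟨-30,-10,-15⟩,⟨-6,33,-10⟩,⟨17,-6,-30⟩⟩ (7,[(1,5),(4,210),(3,70)]) (3,[(4,35),(3,105),(0,1)]) (1,[(0,1)])) (.leaf false ⟨⟨-30,-6,17⟩,⟨-15,-10,-30⟩,⟨-10,33,-6⟩⟩ (357,[(1,611),(0,630),(3,11186)]) (119,[(1,320),(0,105),(3,7140)]) (119,[(1,134),(0,70),(3,7259)])))))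 (.node ⟨0,0,1⟩ (.node ⟨0,21,28⟩ (.leaf false ⟨⟨-35,0,0⟩,⟨0,-28,21⟩,⟨0,21,28⟩⟩ (1,[(3,35)]) (4,[(0,3),(2,175)]) (1,[(0,1)])) (.node ⟨17,-30,-6⟩ (.leaf false ⟨⟨-30,-15,-10⟩,⟨-6,-10,33⟩,⟨17,-30,-6⟩⟩ (7,[(2,70),(4,210),(1,5)]) (3,[(2,105),(4,35),(0,1)]) (1,[(0,1)])) (.leaf false ⟨⟨-30,17,-6⟩,⟨-15,-30,-10⟩,⟨-10,-6,33⟩⟩ (357,[(2,11186),(0,630),(1,611)]) (119,[(2,7140),(0,105),(1,320)]) (119,[(2,7259),(0,70),(1,134)])))) (.leaf false ⟨⟨-35,0,0⟩,⟨0,-35,0⟩,⟨0,0,-35⟩⟩ (1,[(2,35)]) (1,[(1,35)]) (1,[(0,35)]))))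
theorem h35_ok : h35.check (ok 35 4 ⟨3, 3, 3⟩) (fun _ r => r) [] = true := by decide +kernel

def h37 : T := .node ⟨1,0,0⟩ (.node ⟨0,1,0⟩ (.node ⟨0,0,1⟩ (.leaf false ⟨⟨0,0,37⟩,⟨0,37,0⟩,⟨37,0,0⟩⟩ (1,[(0,37)]) (1,[(1,37)]) (1,[(2,37)])) (.node ⟨-28,21,-12⟩ (.node ⟨12,28,21⟩ (.leaf false ⟨⟨-28,21,-12⟩,⟨12,28,21⟩,⟨21,12,-28⟩⟩ (1,[(1,1)]) (1,[(0,1)]) (7,[(2,259),(4,111),(0,3)])) (.leaf false ⟨⟨-24,-8,-27⟩,⟨-3,36,-8⟩,⟨28,-3,-24⟩⟩ (37,[(3,481),(1,15),(0,39)]) (3,[(4,47),(3,66),(1,2)]) (7,[(4,292),(3,203),(0,8)]))) (.node ⟨21,-28,-12⟩ (.node ⟨28,12,21⟩ (.leaf false ⟨⟨12,21,-28⟩,⟨21,-28,-12⟩,⟨28,12,21⟩⟩ (7,[(3,232),(2,3),(4,210)]) (1,[(1,1)]) (1,[(0,1)])) (.leaf false ⟨⟨-24,-8,-27⟩,⟨-3,36,-8⟩,⟨28,-3,-24⟩⟩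 (7,[(2,7),(4,247),(0,13)]) (252,[(2,161),(4,14709),(0,188)]) (1,[(2,5),(4,150),(0,4)]))) (.leaf false ⟨⟨-3,28,24⟩,⟨8,24,-27⟩,⟨36,-3,8⟩⟩ (49,[(2,924),(1,72),(0,103)]) (49,[(2,4011),(1,104),(0,120)]) (49,[(2,2380),(1,135),(0,96)]))))) (.node ⟨0,0,1⟩ (.node ⟨-28,-12,21⟩ (.node ⟨12,21,28⟩ (.leaf false ⟨⟨-28,-12,21⟩,⟨12,21,28⟩,⟨21,-28,12⟩⟩ (1,[(1,1)]) (1,[(0,1)]) (7,[(4,259),(3,148),(1,4)])) (.leaf false ⟨⟨-24,-27,-8⟩,⟨-3,-8,36⟩,⟨28,-24,-3⟩⟩ (37,[(2,481),(0,39),(1,15)]) (3,[(2,66),(4,47),(1,2)]) (7,[(2,203),(4,292),(0,8)]))) (.node ⟨21,-12,-28⟩ (.node ⟨28,21,12⟩ (.leaf false ⟨⟨12,-28,21⟩,⟨21,-12,-28⟩,⟨28,21,12⟩⟩ (7,[(3,210),(2,3),(4,232)]) (1,[(1,1)]) (1,[(0,1)])) (.leaf false ⟨⟨-24,-27,-8⟩,⟨-3,-8,36⟩,⟨28,-24,-3⟩⟩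 (7,[(3,247),(2,7),(0,13)]) (252,[(3,14709),(2,161),(0,188)]) (1,[(3,150),(2,5),(0,4)]))) (.leaf false ⟨⟨-3,8,36⟩,⟨24,-27,8⟩,⟨28,24,-3⟩⟩ (49,[(1,96),(3,2380),(0,135)]) (49,[(1,120),(3,4011),(0,104)]) (49,[(1,103),(3,924),(0,72)])))) (.node ⟨0,12,-35⟩ (.leaf false ⟨⟨0,-35,-12⟩,⟨0,12,-35⟩,⟨37,0,0⟩⟩ (35,[(0,12),(2,1369)]) (1,[(0,1)]) (1,[(3,37)])) (.leaf false ⟨⟨0,-35,12⟩,⟨0,-12,-35⟩,⟨37,0,0⟩⟩ (12,[(1,1081),(0,35)]) (1,[(1,70),(0,1)]) (1,[(3,37)]))))) (.node ⟨0,1,0⟩ (.node ⟨0,0,1⟩ (.node ⟨-12,21,-28⟩ (.node ⟨21,28,12⟩ (.leaf false ⟨⟨-28,12,21⟩,⟨-12,21,-28⟩,⟨21,28,12⟩⟩ (7,[(2,259),(4,148),(1,4)]) (1,[(1,1)]) (1,[(0,1)])) (.leaf false ⟨⟨-27,-24,-8⟩,⟨-24,28,-3⟩,⟨-8,-3,36⟩⟩ (7,[(2,52),(0,9),(3,84)])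 (7,[(2,75),(0,8),(3,420)]) (21,[(2,852),(0,8),(3,161)]))) (.node ⟨-12,-28,21⟩ (.node ⟨21,12,28⟩ (.leaf false ⟨⟨-28,21,12⟩,⟨-12,-28,21⟩,⟨21,12,28⟩⟩ (7,[(5,232),(4,210),(2,3)]) (1,[(1,1)]) (1,[(0,1)])) (.leaf false ⟨⟨-35,12,0⟩,⟨-12,-35,0⟩,⟨0,0,37⟩⟩ (9,[(4,1263),(2,35),(0,35)]) (3,[(4,27),(2,4),(0,4)]) (84,[(4,7215),(2,259),(0,148)]))) (.leaf false ⟨⟨-27,8,24⟩,⟨8,36,-3⟩,⟨24,-3,28⟩⟩ (49,[(4,4011),(0,104),(1,120)]) (49,[(4,2380),(0,135),(1,96)]) (49,[(4,924),(0,72),(1,103)])))) (.node ⟨12,0,-35⟩ (.leaf false ⟨⟨-35,0,-12⟩,⟨0,37,0⟩,⟨12,0,-35⟩⟩ (35,[(3,1369),(0,12)]) (1,[(2,37)]) (1,[(0,1)])) (.leaf false ⟨⟨-35,0,12⟩,⟨-12,0,-35⟩,⟨0,37,0⟩⟩ (12,[(1,1081),(0,35)]) (1,[(1,70),(0,1)]) (1,[(2,37)]))))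 (.node ⟨0,0,1⟩ (.node ⟨12,-35,0⟩ (.leaf false ⟨⟨-35,-12,0⟩,⟨0,0,37⟩,⟨12,-35,0⟩⟩ (35,[(3,1369),(0,12)]) (1,[(1,37)]) (1,[(0,1)])) (.leaf false ⟨⟨-35,12,0⟩,⟨-12,-35,0⟩,⟨0,0,37⟩⟩ (12,[(0,35),(2,1081)]) (1,[(0,1),(2,70)]) (1,[(1,37)]))) (.node ⟨-8,24,-27⟩ (.node ⟨-36,-3,8⟩ (.leaf false ⟨⟨-36,-3,8⟩,⟨-8,24,-27⟩,⟨-3,-28,-24⟩⟩ (1,[(0,1)]) (1,[(1,1)]) (8,[(2,111),(1,3),(3,296)])) (.leaf false ⟨⟨-36,-8,-3⟩,⟨-3,24,-28⟩,⟨8,-27,-24⟩⟩ (9,[(1,1),(4,316),(3,96)]) (37,[(1,36),(4,111),(0,8)]) (1,[(4,100),(3,36),(0,3)]))) (.leaf false ⟨⟨-36,-3,-8⟩,⟨-3,-28,24⟩,⟨8,-24,-27⟩⟩ (8,[(1,91),(3,296),(0,1)]) (6,[(1,45),(3,74),(0,7)]) (1,[(1,54),(0,1)])))))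
theorem h37_ok : h37.check (ok 37 4 ⟨3, 3, 3⟩) (fun _ r => r) [] = true := by decide +kernel

def h39 : T := .node ⟨1,0,0⟩ (.node ⟨0,1,0⟩ (.node ⟨0,0,1⟩ (.node ⟨-26,13,26⟩ (.node ⟨-2,34,-19⟩ (.leaf false ⟨⟨-26,13,26⟩,⟨-2,34,-19⟩,⟨29,14,22⟩⟩ (1,[(1,1)]) (1,[(0,1)]) (17,[(2,507),(4,507),(0,7)])) (.leaf false ⟨⟨-26,13,26⟩,⟨13,-26,26⟩,⟨26,26,13⟩⟩ (1,[(1,1)]) (19,[(4,195),(3,390),(0,26)]) (2,[(4,78),(3,39),(1,1)]))) (.node ⟨22,-19,26⟩ (.leaf false ⟨⟨14,34,13⟩,⟨22,-19,26⟩,⟨29,-2,-26⟩⟩ (13,[(2,351),(1,7),(3,533)]) (1,[(0,1)]) (16,[(0,1),(1,17),(3,208)])) (.leaf false ⟨⟨-26,26,13⟩,⟨13,26,-26⟩,⟨26,13,26⟩⟩ (8,[(2,520),(1,3),(0,13)]) (16,[(2,2912),(1,63),(0,65)]) (4,[(2,832),(1,15),(0,13)]))))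 (.node ⟨-26,22,-19⟩ (.node ⟨13,-14,-34⟩ (.leaf false ⟨⟨-26,22,-19⟩,⟨13,-14,-34⟩,⟨26,29,-2⟩⟩ (1,[(1,1)]) (1,[(0,1)]) (17,[(4,429),(3,507),(0,1)])) (.leaf false ⟨⟨-26,26,13⟩,⟨13,26,-26⟩,⟨26,13,26⟩⟩ (13,[(4,26),(0,10),(1,9)]) (11,[(2,39),(4,481),(1,13)]) (14,[(2,78),(4,533),(0,13)]))) (.node ⟨26,13,26⟩ (.leaf false ⟨⟨2,34,-19⟩,⟨26,13,26⟩,⟨29,-14,-22⟩⟩ (13,[(2,273),(0,1),(3,429)]) (1,[(0,1)]) (26,[(2,1123),(1,29),(3,274)])) (.leaf false ⟨⟨-26,13,-26⟩,⟨2,-34,-19⟩,⟨29,14,-22⟩⟩ (1,[(3,26),(0,1)]) (13,[(1,39),(3,910),(0,38)]) (182,[(1,1326),(3,46319),(0,1123)]))))) (.node ⟨0,0,1⟩ (.node ⟨-26,-19,22⟩ (.node ⟨13,-34,-14⟩ (.leaf false ⟨⟨-26,-19,22⟩,⟨13,-34,-14⟩,⟨26,-2,29⟩⟩ (1,[(1,1)])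 (1,[(0,1)]) (17,[(2,507),(4,429),(0,1)])) (.leaf false ⟨⟨-26,-2,29⟩,⟨13,34,14⟩,⟨26,-19,22⟩⟩ (2,[(4,13),(1,2),(0,1)]) (1,[(4,26),(0,1)]) (1,[(4,52),(1,1)]))) (.node ⟨26,26,13⟩ (.leaf false ⟨⟨2,-19,34⟩,⟨26,26,13⟩,⟨29,-22,-14⟩⟩ (13,[(2,429),(0,1),(3,273)]) (1,[(0,1)]) (26,[(2,274),(1,29),(3,1123)])) (.leaf false ⟨⟨-26,-26,13⟩,⟨2,-19,-34⟩,⟨29,-22,14⟩⟩ (1,[(2,26),(0,1)]) (13,[(2,910),(1,39),(0,38)]) (182,[(2,46319),(1,1326),(0,1123)])))) (.node ⟨-15,-36,0⟩ (.leaf false ⟨⟨-15,-36,0⟩,⟨0,0,-39⟩,⟨36,-15,0⟩⟩ (1,[(0,1)]) (1,[(1,39)]) (12,[(3,507),(0,5)])) (.node ⟨26,-26,13⟩ (.node ⟨-2,-19,-34⟩ (.leaf false ⟨⟨-2,-19,-34⟩,⟨26,-26,13⟩,⟨29,22,-14⟩⟩ (1,[(0,1)]) (1,[(1,1)]) (13,[(3,273),(2,13),(1,7)]))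 (.leaf false ⟨⟨2,-19,34⟩,⟨26,26,13⟩,⟨29,-22,-14⟩⟩ (1,[(0,1),(4,38)]) (1,[(3,429),(0,13),(4,221)]) (2,[(3,1014),(0,29),(4,595)]))) (.leaf false ⟨⟨-34,2,-19⟩,⟨13,-26,-26⟩,⟨14,29,-22⟩⟩ (195,[(1,52),(3,8892),(0,285)]) (3,[(1,13),(3,702),(0,6)]) (195,[(1,754),(3,30069),(0,330)])))))) (.node ⟨0,1,0⟩ (.node ⟨0,0,1⟩ (.node ⟨9,-12,36⟩ (.node ⟨12,36,9⟩ (.leaf false ⟨⟨-36,9,12⟩,⟨9,-12,36⟩,⟨12,36,9⟩⟩ (3,[(4,117),(3,39),(1,1)]) (1,[(1,1)]) (1,[(0,1)])) (.leaf false ⟨⟨-34,13,-14⟩,⟨-19,-26,22⟩,⟨-2,26,29⟩⟩ (117,[(3,15249),(1,46),(0,366)]) (117,[(3,9282),(1,145),(0,294)]) (117,[(3,8502),(1,122),(0,111)]))) (.node ⟨-34,-14,13⟩ (.leaf false ⟨⟨-34,-14,13⟩,⟨-19,22,-26⟩,⟨-2,29,26⟩⟩ (1,[(0,1)]) (89,[(2,3705),(0,5),(1,169)])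 (9,[(2,306),(1,2),(3,237)])) (.leaf false ⟨⟨-36,12,9⟩,⟨9,36,-12⟩,⟨12,9,36⟩⟩ (1,[(2,45),(4,27),(1,1)]) (7,[(2,150),(4,549),(0,18)]) (14,[(2,621),(4,138),(0,9)])))) (.node ⟨0,-15,-36⟩ (.leaf false ⟨⟨-39,0,0⟩,⟨0,-15,-36⟩,⟨0,36,-15⟩⟩ (1,[(3,39)]) (1,[(0,1)]) (12,[(0,5),(2,507)])) (.node ⟨13,26,-26⟩ (.node ⟨-34,-2,-19⟩ (.leaf false ⟨⟨-34,-2,-19⟩,⟨-14,29,22⟩,⟨13,26,-26⟩⟩ (1,[(0,1)]) (13,[(5,273),(2,13),(1,7)]) (1,[(1,1)])) (.leaf false ⟨⟨-36,12,9⟩,⟨9,36,-12⟩,⟨12,9,36⟩⟩ (1,[(3,105),(5,240),(0,6)]) (1,[(3,354),(5,603),(0,18)]) (2,[(3,99),(5,282),(0,9)]))) (.leaf false ⟨⟨-36,-15,0⟩,⟨-15,36,0⟩,⟨0,0,-39⟩⟩ (65,[(2,13572),(0,180),(1,247)]) (65,[(2,12246),(0,75),(1,286)]) (1,[(2,39)])))))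 (.node ⟨0,0,1⟩ (.node ⟨0,-36,-15⟩ (.leaf false ⟨⟨-39,0,0⟩,⟨0,-36,-15⟩,⟨0,-15,36⟩⟩ (1,[(3,39)]) (1,[(0,1)]) (12,[(1,507),(0,5)])) (.node ⟨13,-26,26⟩ (.node ⟨-34,-19,-2⟩ (.leaf false ⟨⟨-34,-19,-2⟩,⟨-14,22,29⟩,⟨13,-26,26⟩⟩ (1,[(0,1)]) (13,[(2,13),(5,273),(1,7)]) (1,[(1,1)])) (.leaf false ⟨⟨-36,9,12⟩,⟨9,-12,36⟩,⟨12,36,9⟩⟩ (1,[(5,240),(4,105),(0,6)]) (1,[(5,603),(4,354),(0,18)]) (2,[(5,282),(4,99),(0,9)]))) (.leaf false ⟨⟨-36,0,-15⟩,⟨-15,0,36⟩,⟨0,-39,0⟩⟩ (65,[(1,247),(0,180),(3,13572)]) (65,[(1,286),(0,75),(3,12246)]) (1,[(3,39)])))) (.leaf false ⟨⟨-39,0,0⟩,⟨0,-39,0⟩,⟨0,0,-39⟩⟩ (1,[(2,39)]) (1,[(1,39)]) (1,[(0,39)]))))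
theorem h39_ok : h39.check (ok 39 4 ⟨3, 3, 3⟩) (fun _ r => r) [] = true := by decide +kernel

def h43 : T := .node ⟨1,0,0⟩ (.node ⟨0,1,0⟩ (.node ⟨0,0,1⟩ (.node ⟨-18,25,30⟩ (.node ⟨30,-18,25⟩ (.node ⟨30,25,-18⟩ (.leaf false ⟨⟨-7,30,30⟩,⟨30,-18,25⟩,⟨30,25,-18⟩⟩ (1,[(5,11),(4,5),(2,1)]) (1,[(1,1)]) (1,[(0,1)])) (.leaf false ⟨⟨-30,25,18⟩,⟨-7,-30,30⟩,⟨30,18,25⟩⟩ (1,[(4,50),(0,1)]) (3,[(5,129),(4,35),(0,5)]) (18,[(5,1290),(4,949),(0,25)]))) (.leaf false ⟨⟨-30,18,25⟩,⟨-7,30,-30⟩,⟨30,25,18⟩⟩ (1,[(2,50),(0,1)]) (3,[(2,35),(4,129),(0,5)]) (18,[(2,949),(4,1290),(0,25)]))) (.leaf false ⟨⟨18,25,-30⟩,⟨25,18,30⟩,⟨30,-30,-7⟩⟩ (1,[(0,1),(2,50)]) (18,[(1,1290),(0,25),(2,949)]) (3,[(1,129),(0,5),(2,35)])))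 (.node ⟨-7,-6,-42⟩ (.node ⟨42,-7,-6⟩ (.leaf false ⟨⟨-7,-6,-42⟩,⟨6,42,-7⟩,⟨42,-7,-6⟩⟩ (1,[(1,1)]) (6,[(4,43),(3,258),(1,1)]) (1,[(0,1)])) (.leaf false ⟨⟨-42,9,2⟩,⟨2,18,-39⟩,⟨9,38,18⟩⟩ (129,[(4,2408),(0,183),(1,20)]) (86,[(4,14921),(0,330),(1,127)]) (43,[(4,10922),(0,248),(1,17)]))) (.node ⟨-30,30,-7⟩ (.leaf false ⟨⟨-30,30,-7⟩,⟨18,25,30⟩,⟨25,18,-30⟩⟩ (1,[(0,1)]) (390,[(2,42011),(1,1290),(0,67)]) (1,[(2,156),(4,4),(1,3)])) (.leaf false ⟨⟨18,25,-30⟩,⟨25,18,30⟩,⟨30,-30,-7⟩⟩ (5,[(2,171),(0,3),(3,215)]) (65,[(2,7108),(0,4),(1,215)]) (1,[(2,14),(0,1)]))))) (.node ⟨0,0,1⟩ (.node ⟨-7,-42,-6⟩ (.node ⟨42,-6,-7⟩ (.leaf false ⟨⟨-7,-42,-6⟩,⟨6,-7,42⟩,⟨42,-6,-7⟩⟩ (1,[(1,1)]) (6,[(2,258),(4,43),(1,1)])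 (1,[(0,1)])) (.leaf false ⟨⟨-42,2,9⟩,⟨2,-39,18⟩,⟨9,18,38⟩⟩ (129,[(4,2408),(1,20),(0,183)]) (86,[(4,14921),(1,127),(0,330)]) (43,[(4,10922),(1,17),(0,248)]))) (.node ⟨-30,-7,30⟩ (.leaf false ⟨⟨-30,-7,30⟩,⟨18,30,25⟩,⟨25,-30,18⟩⟩ (1,[(0,1)]) (1302,[(1,1075),(4,42011),(0,870)]) (1,[(1,3),(4,4),(3,156)])) (.leaf false ⟨⟨18,-30,25⟩,⟨25,30,18⟩,⟨30,-7,-30⟩⟩ (5,[(2,215),(0,3),(3,171)]) (65,[(1,215),(0,4),(3,7108)]) (1,[(0,1),(3,14)])))) (.node ⟨9,18,-38⟩ (.node ⟨42,-2,9⟩ (.leaf false ⟨⟨2,-39,-18⟩,⟨9,18,-38⟩,⟨42,-2,9⟩⟩ (9,[(2,86),(1,2),(3,387)]) (1,[(1,1)]) (1,[(0,1)])) (.node ⟨38,9,-18⟩ (.leaf false ⟨⟨-18,-2,-39⟩,⟨9,-42,-2⟩,⟨38,9,-18⟩⟩ (3,[(5,492),(4,32),(1,13)]) (9,[(5,165),(4,382),(1,2)])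 (1,[(0,1)])) (.leaf false ⟨⟨-42,-7,6⟩,⟨-7,6,-42⟩,⟨6,-42,-7⟩⟩ (9,[(2,36),(5,2300),(0,79)]) (3,[(2,45),(5,2918),(0,88)]) (6,[(2,273),(5,19391),(0,574)])))) (.leaf false ⟨⟨-18,-39,-2⟩,⟨9,-2,-42⟩,⟨38,-18,9⟩⟩ (6,[(1,506),(3,9),(0,13)]) (9,[(1,416),(3,90),(0,1)]) (1,[(1,29),(3,47),(0,1)]))))) (.node ⟨0,1,0⟩ (.node ⟨0,0,1⟩ (.node ⟨-42,-7,-6⟩ (.node ⟨-6,42,-7⟩ (.leaf false ⟨⟨-42,-7,-6⟩,⟨-7,6,42⟩,⟨-6,42,-7⟩⟩ (1,[(1,1)]) (6,[(2,258),(1,1),(3,43)]) (1,[(0,1)])) (.leaf false ⟨⟨-42,2,9⟩,⟨2,-39,18⟩,⟨9,18,38⟩⟩ (43,[(1,58),(3,4902),(0,105)]) (129,[(1,47),(3,10922),(0,372)]) (86,[(1,55),(3,23521),(0,514)]))) (.node ⟨-7,-30,30⟩ (.leaf false ⟨⟨-30,25,18⟩,⟨-7,-30,30⟩,⟨30,18,25⟩⟩ (1,[(4,156),(3,4),(1,3)])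 (1,[(0,1)]) (390,[(4,42011),(1,1290),(0,67)])) (.leaf false ⟨⟨-30,18,25⟩,⟨-7,30,-30⟩,⟨30,25,18⟩⟩ (5,[(2,215),(4,171),(0,3)]) (1,[(4,14),(0,1)]) (65,[(4,7108),(0,4),(1,215)])))) (.node ⟨18,9,-38⟩ (.node ⟨-2,42,9⟩ (.leaf false ⟨⟨-39,2,-18⟩,⟨-2,42,9⟩,⟨18,9,-38⟩⟩ (9,[(2,86),(4,387),(1,2)]) (1,[(0,1)]) (1,[(1,1)])) (.node ⟨9,38,-18⟩ (.leaf false ⟨⟨-42,9,-2⟩,⟨-2,-18,-39⟩,⟨9,38,-18⟩⟩ (9,[(5,382),(4,165),(1,2)]) (3,[(5,32),(4,492),(1,13)]) (1,[(0,1)])) (.leaf false ⟨⟨-42,6,-7⟩,⟨-7,-42,6⟩,⟨6,-7,-42⟩⟩ (6,[(4,19391),(2,273),(0,574)]) (9,[(4,2300),(2,36),(0,79)]) (3,[(4,2918),(2,45),(0,88)])))) (.leaf false ⟨⟨-39,-18,-2⟩,⟨-18,38,9⟩,⟨-2,9,-42⟩⟩ (6,[(1,506),(0,13),(2,9)]) (1,[(1,29),(0,1),(2,47)])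 (9,[(1,416),(0,1),(2,90)])))) (.node ⟨0,0,1⟩ (.node ⟨18,-38,9⟩ (.node ⟨-2,9,42⟩ (.leaf false ⟨⟨-39,-18,2⟩,⟨-2,9,42⟩,⟨18,-38,9⟩⟩ (9,[(4,387),(3,86),(1,2)]) (1,[(0,1)]) (1,[(1,1)])) (.node ⟨9,-18,38⟩ (.leaf false ⟨⟨-42,-2,9⟩,⟨-2,-39,-18⟩,⟨9,-18,38⟩⟩ (9,[(3,165),(5,382),(1,2)]) (3,[(3,492),(5,32),(1,13)]) (1,[(0,1)])) (.leaf false ⟨⟨-42,-7,6⟩,⟨-7,6,-42⟩,⟨6,-42,-7⟩⟩ (6,[(3,19391),(0,574),(2,273)]) (9,[(3,2300),(0,79),(2,36)]) (3,[(3,2918),(0,88),(2,45)])))) (.leaf false ⟨⟨-39,-2,-18⟩,⟨-18,9,38⟩,⟨-2,-42,9⟩⟩ (6,[(1,9),(0,13),(2,506)]) (1,[(1,47),(0,1),(2,29)]) (9,[(1,90),(0,1),(2,416)]))) (.leaf false ⟨⟨-43,0,0⟩,⟨0,-43,0⟩,⟨0,0,-43⟩⟩ (1,[(2,43)]) (1,[(1,43)]) (1,[(0,43)]))))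
theorem h43_ok : h43.check (ok 43 4 ⟨3, 3, 3⟩) (fun _ r => r) [] = true := by decide +kernel

def h45 : T := .node ⟨1,0,0⟩ (.node ⟨0,1,0⟩ (.node ⟨0,0,1⟩ (.leaf false ⟨⟨0,0,45⟩,⟨0,45,0⟩,⟨45,0,0⟩⟩ (1,[(0,45)]) (1,[(1,45)]) (1,[(2,45)])) (.node ⟨-27,0,-36⟩ (.leaf false ⟨⟨-27,0,-36⟩,⟨0,45,0⟩,⟨36,0,-27⟩⟩ (1,[(0,1)]) (1,[(2,45)]) (4,[(3,225),(0,3)])) (.node ⟨40,-20,5⟩ (.leaf false ⟨⟨6,42,-15⟩,⟨30,-15,-30⟩,⟨33,6,30⟩⟩ (9,[(2,207),(1,2),(3,378)]) (4,[(2,135),(0,3)]) (9,[(2,126),(1,11),(3,54)])) (.leaf false ⟨⟨-35,28,-4⟩,⟨20,20,-35⟩,⟨20,29,28⟩⟩ (45,[(2,1125),(1,35),(0,63)]) (9,[(2,990),(1,20),(0,9)]) (180,[(2,12375),(1,520),(0,261)]))))) (.node ⟨0,0,1⟩ (.node ⟨-27,-36,0⟩ (.leaf false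 ⟨⟨-27,-36,0⟩,⟨0,0,45⟩,⟨36,-27,0⟩⟩ (1,[(0,1)]) (1,[(1,45)]) (4,[(3,225),(0,3)])) (.node ⟨40,5,-20⟩ (.leaf false ⟨⟨6,-15,42⟩,⟨30,-30,-15⟩,⟨33,30,6⟩⟩ (9,[(2,378),(1,2),(3,207)]) (4,[(0,3),(3,135)]) (9,[(2,54),(1,11),(3,126)])) (.leaf false ⟨⟨-35,-4,28⟩,⟨20,-35,20⟩,⟨20,28,29⟩⟩ (45,[(1,35),(3,1125),(0,63)]) (9,[(1,20),(3,990),(0,9)]) (180,[(1,520),(3,12375),(0,261)])))) (.node ⟨5,-40,20⟩ (.node ⟨44,8,5⟩ (.leaf false ⟨⟨5,-40,20⟩,⟨8,-19,-40⟩,⟨44,8,5⟩⟩ (1,[(1,1)]) (8,[(2,405),(0,1),(1,4)]) (1,[(0,1)])) (.leaf false ⟨⟨-20,-40,5⟩,⟨5,-8,-44⟩,⟨40,-19,8⟩⟩ (9,[(2,90),(1,8),(0,5)]) (1,[(2,39),(4,49),(0,1)]) (40,[(2,60),(4,1505),(1,19)]))) (.leaf false ⟨⟨0,-27,-36⟩,⟨0,36,-27⟩,⟨45,0,0⟩⟩ (5,[(3,45),(2,495),(0,9)])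 (20,[(3,135),(2,360),(0,27)]) (1,[(3,45)]))))) (.node ⟨0,1,0⟩ (.node ⟨0,0,1⟩ (.node ⟨-36,-27,0⟩ (.leaf false ⟨⟨-36,-27,0⟩,⟨-27,36,0⟩,⟨0,0,45⟩⟩ (1,[(0,1)]) (4,[(0,3),(2,225)]) (1,[(1,45)])) (.node ⟨5,40,-20⟩ (.leaf false ⟨⟨-40,13,16⟩,⟨5,40,-20⟩,⟨20,16,37⟩⟩ (27,[(2,432),(4,1548),(1,13)]) (1,[(0,1)]) (27,[(2,999),(4,36),(1,16)])) (.leaf false ⟨⟨-40,5,20⟩,⟨13,40,16⟩,⟨16,-20,37⟩⟩ (3,[(4,285),(1,5),(0,3)]) (15,[(4,1185),(1,40),(0,12)]) (20,[(4,935),(1,40),(0,37)])))) (.node ⟨-40,5,20⟩ (.node ⟨8,44,5⟩ (.leaf false ⟨⟨-40,5,20⟩,⟨-19,8,-40⟩,⟨8,44,5⟩⟩ (1,[(1,1)]) (8,[(2,405),(1,4),(0,1)]) (1,[(0,1)])) (.leaf false ⟨⟨-40,-20,5⟩,⟨-19,40,8⟩,⟨-8,5,-44⟩⟩ (9,[(2,90),(0,5),(1,8)]) (40,[(2,60),(1,19),(3,1505)])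 (1,[(2,39),(0,1),(3,49)]))) (.leaf false ⟨⟨-27,0,-36⟩,⟨0,45,0⟩,⟨36,0,-27⟩⟩ (5,[(3,495),(2,45),(0,9)]) (1,[(2,45)]) (20,[(3,360),(2,135),(0,27)])))) (.node ⟨0,0,1⟩ (.node ⟨20,-40,5⟩ (.node ⟨5,8,44⟩ (.leaf false ⟨⟨-40,-19,8⟩,⟨5,8,44⟩,⟨20,-40,5⟩⟩ (8,[(4,405),(1,4),(0,1)]) (1,[(0,1)]) (1,[(1,1)])) (.leaf false ⟨⟨-44,-8,5⟩,⟨5,-40,-20⟩,⟨8,-19,40⟩⟩ (1,[(2,49),(4,39),(0,1)]) (9,[(4,90),(0,5),(1,8)]) (40,[(2,1505),(4,60),(1,19)]))) (.leaf false ⟨⟨-36,-27,0⟩,⟨-27,36,0⟩,⟨0,0,45⟩⟩ (5,[(1,45),(0,9),(2,495)]) (20,[(1,135),(0,27),(2,360)]) (1,[(1,45)]))) (.node ⟨-20,29,-28⟩ (.node ⟨-35,-20,20⟩ (.node ⟨-28,29,-20⟩ (.leaf false ⟨⟨-35,-20,20⟩,⟨-28,29,-20⟩,⟨-4,-28,-35⟩⟩ (1,[(1,1)]) (1,[(0,1)])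 (5,[(3,147),(2,1),(4,169)])) (.leaf false ⟨⟨-40,-20,5⟩,⟨5,-20,-40⟩,⟨20,-35,20⟩⟩ (2232,[(2,4905),(1,3160),(0,4265)]) (558,[(2,4365),(1,790),(0,4205)]) (279,[(2,225),(1,104),(0,490)]))) (.leaf false ⟨⟨-40,5,-20⟩,⟨5,-40,-20⟩,⟨20,20,-35⟩⟩ (1,[(4,75),(3,15),(0,1)]) (1,[(4,30),(3,60),(0,1)]) (4,[(4,165),(3,60),(0,7)]))) (.leaf false ⟨⟨-40,-20,5⟩,⟨5,-20,-40⟩,⟨20,-35,20⟩⟩ (29,[(1,415),(3,1560),(0,20)]) (29,[(1,1720),(3,255),(0,20)]) (29,[(1,400),(3,120),(0,35)])))))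
theorem h45_ok : h45.check (ok 45 4 ⟨3, 3, 3⟩) (fun _ r => r) [] = true := by decide +kernel

def h47 : T := .node ⟨1,0,0⟩ (.node ⟨0,1,0⟩ (.node ⟨0,0,1⟩ (.node ⟨-38,18,21⟩ (.node ⟨18,42,-11⟩ (.node ⟨-38,21,18⟩ (.leaf false ⟨⟨-38,21,18⟩,⟨18,42,-11⟩,⟨21,2,42⟩⟩ (1,[(0,1)]) (1,[(1,1)]) (9,[(3,357),(5,227),(2,1)])) (.leaf false ⟨⟨-38,18,21⟩,⟨18,-11,42⟩,⟨21,42,2⟩⟩ (1,[(2,1)]) (3,[(1,3),(2,53),(0,53)]) (40,[(1,53),(2,203),(0,200)]))) (.leaf false ⟨⟨-38,18,21⟩,⟨18,-11,42⟩,⟨21,42,2⟩⟩ (1,[(1,1)]) (11,[(4,954),(3,1643),(0,42)]) (11,[(4,267),(3,546),(0,2)]))) (.node ⟨21,18,-38⟩ (.leaf false ⟨⟨2,42,21⟩,⟨21,18,-38⟩,⟨42,-11,18⟩⟩ (19,[(2,420),(1,1),(3,816)]) (1,[(0,1)]) (19,[(2,783),(1,21),(3,169)]))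 (.leaf false ⟨⟨-11,18,42⟩,⟨18,-38,21⟩,⟨42,21,2⟩⟩ (1003,[(1,464),(3,50976),(0,1365)]) (1003,[(1,1125),(3,3304),(0,1176)]) (1003,[(1,1638),(3,67791),(0,958)])))) (.node ⟨42,2,21⟩ (.node ⟨-18,42,-11⟩ (.node ⟨21,-2,-42⟩ (.leaf false ⟨⟨-18,42,-11⟩,⟨21,-2,-42⟩,⟨38,21,18⟩⟩ (1,[(1,1)]) (1,[(0,1)]) (7,[(5,14),(2,6),(4,135)])) (.leaf false ⟨⟨-42,18,-11⟩,⟨-2,21,42⟩,⟨21,38,-18⟩⟩ (1,[(3,389),(5,147),(0,9)]) (2,[(3,798),(5,437),(0,21)]) (1,[(3,816),(5,420),(0,19)]))) (.leaf false ⟨⟨18,-11,-42⟩,⟨21,42,-2⟩,⟨38,-18,21⟩⟩ (1,[(2,53),(0,1),(3,31)]) (6,[(2,89),(0,7),(3,546)]) (9,[(2,20),(0,19),(3,636)]))) (.node ⟨38,21,18⟩ (.leaf false ⟨⟨-18,42,-11⟩,⟨21,-2,-42⟩,⟨38,21,18⟩⟩ (21,[(0,42),(3,94),(1,47)])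 (1,[(4,105),(3,2),(1,2)]) (1,[(0,1)])) (.node ⟨-43,-6,-18⟩ (.leaf false ⟨⟨-43,-6,-18⟩,⟨6,38,-27⟩,⟨18,-27,-34⟩⟩ (1,[(0,1)]) (2,[(5,126),(4,139),(1,3)]) (9,[(5,808),(4,114),(1,17)])) (.leaf false ⟨⟨-27,-34,-18⟩,⟨6,18,-43⟩,⟨38,-27,-6⟩⟩ (5,[(4,100),(1,16),(0,11)]) (90,[(4,32265),(1,1957),(0,1742)]) (15,[(4,1980),(1,157),(0,152)])))))) (.node ⟨0,0,1⟩ (.node ⟨42,21,2⟩ (.node ⟨-18,-11,42⟩ (.node ⟨21,-42,-2⟩ (.leaf false ⟨⟨-18,-11,42⟩,⟨21,-42,-2⟩,⟨38,18,21⟩⟩ (1,[(1,1)]) (1,[(0,1)]) (7,[(3,135),(2,6),(5,14)])) (.leaf false ⟨⟨-42,-11,18⟩,⟨-2,42,21⟩,⟨21,-18,38⟩⟩ (1,[(5,147),(4,389),(0,9)]) (2,[(5,437),(4,798),(0,21)]) (1,[(5,420),(4,816),(0,19)]))) (.leaf false ⟨⟨18,-42,-11⟩,⟨21,-2,42⟩,⟨38,21,-18⟩⟩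 (1,[(2,31),(0,1),(3,53)]) (6,[(2,546),(0,7),(3,89)]) (9,[(2,636),(0,19),(3,20)]))) (.node ⟨38,18,21⟩ (.leaf false ⟨⟨-18,-11,42⟩,⟨21,-42,-2⟩,⟨38,18,21⟩⟩ (21,[(2,94),(0,42),(1,47)]) (1,[(2,2),(4,105),(1,2)]) (1,[(0,1)])) (.node ⟨-43,-18,-6⟩ (.leaf false ⟨⟨-43,-18,-6⟩,⟨6,-27,38⟩,⟨18,-34,-27⟩⟩ (1,[(0,1)]) (2,[(3,139),(5,126),(1,3)]) (9,[(3,114),(5,808),(1,17)])) (.leaf false ⟨⟨-27,-38,-6⟩,⟨18,-6,-43⟩,⟨34,-27,18⟩⟩ (45,[(3,8910),(0,479),(1,574)]) (15,[(3,840),(0,92),(1,97)]) (10,[(3,3225),(0,182),(1,197)]))))) (.node ⟨-27,-34,-18⟩ (.node ⟨6,18,-43⟩ (.leaf false ⟨⟨-27,-34,-18⟩,⟨6,18,-43⟩,⟨38,-27,-6⟩⟩ (1,[(1,1)]) (1,[(0,1)]) (3,[(4,141),(3,47),(1,1)])) (.leaf false ⟨⟨-27,-38,-6⟩,⟨18,-6,-43⟩,⟨34,-27,18⟩⟩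 (47,[(2,282),(0,18),(1,43)]) (3,[(2,172),(4,60),(0,1)]) (2,[(2,93),(4,86),(0,3)]))) (.node ⟨21,42,-2⟩ (.leaf false ⟨⟨18,-11,-42⟩,⟨21,42,-2⟩,⟨38,-18,21⟩⟩ (3,[(2,162),(1,2),(3,101)]) (1,[(0,1)]) (27,[(2,117),(1,38),(3,1778)])) (.leaf false ⟨⟨18,-42,-11⟩,⟨21,-2,42⟩,⟨38,21,-18⟩⟩ (70,[(2,6266),(1,273),(0,291)]) (35,[(2,44),(1,77),(0,64)]) (84,[(2,5960),(1,231),(0,145)])))))) (.node ⟨0,1,0⟩ (.node ⟨0,0,1⟩ (.node ⟨21,42,2⟩ (.node ⟨-11,-18,42⟩ (.node ⟨-42,21,-2⟩ (.leaf false ⟨⟨-42,21,-2⟩,⟨-11,-18,42⟩,⟨18,38,21⟩⟩ (1,[(0,1)]) (1,[(1,1)]) (7,[(3,135),(4,14),(2,6)])) (.leaf false ⟨⟨-42,-11,18⟩,⟨-2,42,21⟩,⟨21,-18,38⟩⟩ (1,[(5,420),(4,178),(0,9)]) (2,[(5,886),(4,525),(0,21)]) (1,[(5,777),(4,381),(0,19)])))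 (.leaf false ⟨⟨-42,18,-11⟩,⟨-2,21,42⟩,⟨21,38,-18⟩⟩ (1,[(2,31),(4,53),(0,1)]) (6,[(2,546),(4,89),(0,7)]) (9,[(2,636),(4,20),(0,19)]))) (.node ⟨18,38,21⟩ (.leaf false ⟨⟨-42,21,-2⟩,⟨-11,-18,42⟩,⟨18,38,21⟩⟩ (1,[(2,2),(1,2),(3,105)]) (21,[(2,94),(1,47),(0,42)]) (1,[(0,1)])) (.node ⟨-18,-43,-6⟩ (.leaf false ⟨⟨-34,18,-27⟩,⟨-27,6,38⟩,⟨-18,-43,-6⟩⟩ (9,[(3,114),(1,17),(4,808)]) (2,[(3,139),(1,3),(4,126)]) (1,[(0,1)])) (.leaf false ⟨⟨-43,6,18⟩,⟨-18,-27,-34⟩,⟨-6,38,-27⟩⟩ (90,[(3,32265),(1,1957),(0,1742)]) (5,[(3,100),(1,16),(0,11)]) (15,[(3,1980),(1,157),(0,152)]))))) (.node ⟨-18,-27,-34⟩ (.node ⟨-43,6,18⟩ (.leaf false ⟨⟨-43,6,18⟩,⟨-18,-27,-34⟩,⟨-6,38,-27⟩⟩ (1,[(0,1)]) (1,[(1,1)]) (3,[(2,47),(1,1),(3,141)]))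 (.leaf false ⟨⟨-43,18,-6⟩,⟨-6,-27,-38⟩,⟨18,34,-27⟩⟩ (3,[(4,172),(3,60),(0,1)]) (47,[(1,43),(4,282),(0,18)]) (2,[(4,93),(3,86),(0,3)]))) (.node ⟨-2,21,42⟩ (.leaf false ⟨⟨-42,18,-11⟩,⟨-2,21,42⟩,⟨21,38,-18⟩⟩ (3,[(2,101),(4,162),(1,2)]) (1,[(0,1)]) (27,[(2,1778),(4,117),(1,38)])) (.leaf false ⟨⟨-18,38,21⟩,⟨-11,18,-42⟩,⟨42,21,-2⟩⟩ (84,[(4,5960),(1,231),(0,145)]) (70,[(4,6266),(1,273),(0,291)]) (35,[(4,44),(1,77),(0,64)]))))) (.node ⟨0,0,1⟩ (.node ⟨-18,-34,-27⟩ (.node ⟨-43,18,6⟩ (.leaf false ⟨⟨-43,18,6⟩,⟨-18,-34,-27⟩,⟨-6,-27,38⟩⟩ (1,[(0,1)]) (1,[(1,1)]) (3,[(2,141),(1,1),(3,47)])) (.leaf false ⟨⟨-43,-6,18⟩,⟨-6,-38,-27⟩,⟨18,-27,34⟩⟩ (3,[(2,60),(4,172),(0,1)]) (47,[(4,282),(1,43),(0,18)])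 (2,[(2,86),(4,93),(0,3)]))) (.node ⟨-2,42,21⟩ (.leaf false ⟨⟨-42,-11,18⟩,⟨-2,42,21⟩,⟨21,-18,38⟩⟩ (3,[(4,162),(3,101),(1,2)]) (1,[(0,1)]) (27,[(4,117),(3,1778),(1,38)])) (.leaf false ⟨⟨-18,21,38⟩,⟨-11,-42,18⟩,⟨42,-2,21⟩⟩ (84,[(4,5960),(0,145),(1,231)]) (70,[(4,6266),(0,291),(1,273)]) (35,[(4,44),(0,64),(1,77)])))) (.leaf false ⟨⟨-47,0,0⟩,⟨0,-47,0⟩,⟨0,0,-47⟩⟩ (1,[(2,47)]) (1,[(1,47)]) (1,[(0,47)]))))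
theorem h47_ok : h47.check (ok 47 4 ⟨3, 3, 3⟩) (fun _ r => r) [] = true := by decide +kernel

def h51 : T := .node ⟨1,0,0⟩ (.node ⟨0,1,0⟩ (.node ⟨0,0,1⟩ (.node ⟨-10,1,50⟩ (.node ⟨1,50,-10⟩ (.node ⟨-10,10,49⟩ (.leaf false ⟨⟨-10,10,49⟩,⟨1,50,-10⟩,⟨50,1,10⟩⟩ (1,[(0,1)]) (1,[(1,1)]) (10,[(3,51),(5,510),(0,1)])) (.leaf false ⟨⟨-10,1,50⟩,⟨10,50,1⟩,⟨49,-10,10⟩⟩ (1,[(2,1)]) (1,[(1,100),(2,560),(0,551)]) (1,[(1,449),(2,2540),(0,2500)]))) (.leaf false ⟨⟨-10,1,50⟩,⟨10,50,1⟩,⟨49,-10,10⟩⟩ (1,[(1,1)]) (10,[(4,101),(3,550),(0,1)]) (1,[(4,50),(3,40),(0,1)]))) (.node ⟨34,-34,17⟩ (.leaf false ⟨⟨1,10,50⟩,⟨10,49,-10⟩,⟨50,-10,1⟩⟩ (10,[(2,550),(1,1),(3,101)]) (1,[(2,40),(1,1),(3,50)]) (153,[(2,33728),(0,25),(1,680)]))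 (.leaf false ⟨⟨-34,34,17⟩,⟨17,34,-34⟩,⟨34,17,34⟩⟩ (1,[(2,34),(0,1)]) (6,[(2,1615),(1,34),(0,7)]) (3,[(2,986),(1,17),(0,2)])))) (.node ⟨-24,45,0⟩ (.leaf false ⟨⟨-24,45,0⟩,⟨0,0,-51⟩,⟨45,24,0⟩⟩ (1,[(0,1)]) (1,[(1,51)]) (15,[(3,867),(0,8)])) (.leaf false ⟨⟨0,0,-51⟩,⟨24,45,0⟩,⟨45,-24,0⟩⟩ (1,[(1,51)]) (1,[(0,1),(2,90)]) (8,[(0,15),(2,483)])))) (.node ⟨0,0,1⟩ (.node ⟨-24,0,45⟩ (.leaf false ⟨⟨-24,0,45⟩,⟨0,-51,0⟩,⟨45,0,24⟩⟩ (1,[(0,1)]) (1,[(2,51)]) (15,[(3,867),(0,8)])) (.leaf false ⟨⟨0,-51,0⟩,⟨24,0,45⟩,⟨45,0,-24⟩⟩ (1,[(2,51)]) (1,[(1,90),(0,1)]) (8,[(1,483),(0,15)]))) (.node ⟨49,10,10⟩ (.leaf false ⟨⟨10,-50,1⟩,⟨10,1,-50⟩,⟨49,10,10⟩⟩ (49,[(1,51),(0,10),(2,2550)]) (49,[(1,2550),(0,10),(2,51)])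 (1,[(0,1)])) (.node ⟨-38,-31,14⟩ (.node ⟨34,1,-38⟩ (.leaf false ⟨⟨-34,-22,-31⟩,⟨17,-46,14⟩,⟨34,1,-38⟩⟩ (5,[(3,45),(5,369),(2,11)]) (15,[(5,1358),(1,20),(2,7)]) (1,[(0,1)])) (.leaf false ⟨⟨-46,-22,1⟩,⟨14,-31,-38⟩,⟨17,-34,34⟩⟩ (1,[(3,835),(5,702),(0,22)]) (1,[(3,1216),(5,1068),(0,31)]) (1,[(3,1258),(5,1173),(0,34)]))) (.leaf false ⟨⟨-46,1,-22⟩,⟨14,-38,-31⟩,⟨17,34,-34⟩⟩ (225,[(4,1646),(1,334),(0,115)]) (10,[(4,1659),(3,70),(1,31)]) (225,[(4,5066),(1,289),(0,340)])))))) (.node ⟨0,1,0⟩ (.node ⟨0,0,1⟩ (.node ⟨0,-24,45⟩ (.leaf false ⟨⟨-51,0,0⟩,⟨0,-24,45⟩,⟨0,45,24⟩⟩ (1,[(3,51)]) (1,[(0,1)]) (15,[(0,8),(2,867)])) (.leaf false ⟨⟨-51,0,0⟩,⟨0,24,45⟩,⟨0,45,-24⟩⟩ (1,[(3,51)]) (1,[(1,90),(0,1)])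 (8,[(1,483),(0,15)]))) (.node ⟨10,49,10⟩ (.leaf false ⟨⟨-50,10,1⟩,⟨1,10,-50⟩,⟨10,49,10⟩⟩ (49,[(1,51),(3,2550),(0,10)]) (49,[(1,2550),(3,51),(0,10)]) (1,[(0,1)])) (.node ⟨14,-38,-31⟩ (.node ⟨-38,34,1⟩ (.leaf false ⟨⟨-38,34,1⟩,⟨-31,-34,-22⟩,⟨14,17,-46⟩⟩ (1,[(0,1)]) (5,[(2,11),(5,45),(4,369)]) (15,[(2,7),(4,1358),(1,20)])) (.leaf false ⟨⟨-46,1,-22⟩,⟨14,-38,-31⟩,⟨17,34,-34⟩⟩ (1,[(5,882),(4,749),(0,22)]) (1,[(5,1164),(4,1016),(0,31)]) (1,[(5,1275),(4,1190),(0,34)]))) (.leaf false ⟨⟨-36,-3,36⟩,⟨-27,36,-24⟩,⟨-24,-36,-27⟩⟩ (25,[(1,34),(0,40),(3,71)]) (150,[(1,391),(0,10),(3,24179)]) (5,[(2,15),(1,12),(3,408)]))))) (.node ⟨0,0,1⟩ (.node ⟨10,10,49⟩ (.leaf false ⟨⟨-50,1,10⟩,⟨1,-50,10⟩,⟨10,10,49⟩⟩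 (49,[(3,2550),(2,51),(0,10)]) (49,[(3,51),(2,2550),(0,10)]) (1,[(0,1)])) (.node ⟨14,-31,-38⟩ (.node ⟨-38,1,34⟩ (.leaf false ⟨⟨-38,1,34⟩,⟨-31,-22,-34⟩,⟨14,-46,17⟩⟩ (1,[(0,1)]) (5,[(3,369),(5,45),(2,11)]) (15,[(3,1358),(2,7),(1,20)])) (.leaf false ⟨⟨-46,-22,1⟩,⟨14,-31,-38⟩,⟨17,-34,34⟩⟩ (1,[(3,749),(5,882),(0,22)]) (1,[(3,1016),(5,1164),(0,31)]) (1,[(3,1190),(5,1275),(0,34)]))) (.leaf false ⟨⟨-36,36,-3⟩,⟨-27,-24,36⟩,⟨-24,-27,-36⟩⟩ (25,[(2,71),(0,40),(1,34)]) (150,[(2,24179),(0,10),(1,391)]) (5,[(2,408),(1,12),(3,15)])))) (.leaf false ⟨⟨-51,0,0⟩,⟨0,-51,0⟩,⟨0,0,-51⟩⟩ (1,[(2,51)]) (1,[(1,51)]) (1,[(0,51)]))))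
theorem h51_ok : h51.check (ok 51 4 ⟨3, 3, 3⟩) (fun _ r => r) [] = true := by decide +kernel

def h53 : T := .node ⟨1,0,0⟩ (.node ⟨0,1,0⟩ (.node ⟨0,0,1⟩ (.leaf false ⟨⟨0,0,53⟩,⟨0,53,0⟩,⟨53,0,0⟩⟩ (1,[(0,53)]) (1,[(1,53)]) (1,[(2,53)])) (.node ⟨-36,28,-27⟩ (.node ⟨48,-19,-12⟩ (.node ⟨21,48,8⟩ (.leaf false ⟨⟨-8,12,-51⟩,⟨21,48,8⟩,⟨48,-19,-12⟩⟩ (7,[(3,276),(5,52),(2,3)]) (1,[(0,1)]) (1,[(1,1)])) (.leaf false ⟨⟨-48,12,-19⟩,⟨-8,-51,-12⟩,⟨21,8,-48⟩⟩ (8,[(5,15),(4,1008),(0,19)]) (2,[(5,47),(4,42),(0,3)]) (1,[(5,147),(4,296),(0,6)]))) (.leaf false ⟨⟨-19,48,12⟩,⟨-12,8,-51⟩,⟨48,21,-8⟩⟩ (19,[(2,348),(4,1943),(0,48)]) (19,[(2,1065),(4,156),(0,8)]) (19,[(2,404),(4,1920),(0,21)]))) (.node ⟨37,12,36⟩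 (.leaf false ⟨⟨12,44,-27⟩,⟨36,-27,-28⟩,⟨37,12,36⟩⟩ (3,[(2,108),(1,1),(3,160)]) (1,[(2,55),(1,1),(3,1)]) (1,[(0,1)])) (.leaf false ⟨⟨-27,12,-44⟩,⟨28,-36,-27⟩,⟨36,37,-12⟩⟩ (297,[(1,656),(3,32192),(0,855)]) (33,[(1,223),(3,7360),(0,192)]) (99,[(1,580),(3,25519),(0,468)]))))) (.node ⟨0,0,1⟩ (.node ⟨-36,-27,28⟩ (.node ⟨48,-12,-19⟩ (.node ⟨21,8,48⟩ (.leaf false ⟨⟨-8,-51,12⟩,⟨21,8,48⟩,⟨48,-12,-19⟩⟩ (7,[(5,52),(4,276),(2,3)]) (1,[(0,1)]) (1,[(1,1)])) (.leaf false ⟨⟨-48,-19,12⟩,⟨-8,-12,-51⟩,⟨21,-48,8⟩⟩ (8,[(3,1008),(5,15),(0,19)]) (2,[(3,42),(5,47),(0,3)]) (1,[(3,296),(5,147),(0,6)]))) (.leaf false ⟨⟨-19,12,48⟩,⟨-12,-51,8⟩,⟨48,-8,21⟩⟩ (19,[(4,1943),(3,348),(0,48)]) (19,[(4,156),(3,1065),(0,8)])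 (19,[(4,1920),(3,404),(0,21)]))) (.node ⟨37,36,12⟩ (.leaf false ⟨⟨12,-27,44⟩,⟨36,-28,-27⟩,⟨37,36,12⟩⟩ (3,[(2,160),(1,1),(3,108)]) (1,[(2,1),(1,1),(3,55)]) (1,[(0,1)])) (.leaf false ⟨⟨-27,-44,12⟩,⟨28,-27,-36⟩,⟨36,-12,37⟩⟩ (297,[(2,32192),(1,656),(0,855)]) (33,[(2,7360),(1,223),(0,192)]) (99,[(2,25519),(1,580),(0,468)])))) (.node ⟨36,-12,37⟩ (.node ⟨-27,-44,12⟩ (.leaf false ⟨⟨-27,-44,12⟩,⟨28,-27,-36⟩,⟨36,-12,37⟩⟩ (1,[(0,1)]) (44,[(2,1908),(4,1961),(0,27)]) (1,[(1,1)])) (.node ⟨-12,-27,-44⟩ (.leaf false ⟨⟨-12,-27,-44⟩,⟨36,28,-27⟩,⟨37,-36,12⟩⟩ (1,[(0,1)]) (3,[(3,33),(1,4),(4,92)]) (372,[(3,689),(2,477),(0,284)])) (.leaf false ⟨⟨8,-51,-12⟩,⟨21,-8,48⟩,⟨48,12,-19⟩⟩ (3,[(3,124),(0,2),(4,207)])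 (4,[(3,116),(0,7),(4,221)]) (1,[(3,195),(0,4),(4,96)])))) (.node ⟨-12,37,-36⟩ (.leaf false ⟨⟨-27,-36,-28⟩,⟨-12,37,-36⟩,⟨44,-12,-27⟩⟩ (37,[(4,9),(3,1668),(1,28)]) (1,[(0,1)]) (4,[(4,212),(3,159),(0,3)])) (.node ⟨-48,-19,-12⟩ (.leaf false ⟨⟨-48,-19,-12⟩,⟨8,12,-51⟩,⟨21,-48,-8⟩⟩ (1,[(0,1)]) (121,[(5,7844),(0,24),(2,159)]) (141,[(5,14469),(1,53),(0,253)])) (.leaf false ⟨⟨-12,-44,-27⟩,⟨36,-27,28⟩,⟨37,12,-36⟩⟩ (1211,[(1,6916),(2,9189),(0,4860)]) (1211,[(1,2625),(2,2272),(0,1956)]) (14532,[(1,60571),(2,94872),(0,67213)]))))))) (.node ⟨0,1,0⟩ (.node ⟨0,0,1⟩ (.node ⟨-27,28,-36⟩ (.node ⟨-12,-19,48⟩ (.node ⟨8,48,21⟩ (.leaf false ⟨⟨-51,12,-8⟩,⟨-12,-19,48⟩,⟨8,48,21⟩⟩ (7,[(3,52),(5,276),(2,3)])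 (1,[(1,1)]) (1,[(0,1)])) (.leaf false ⟨⟨-48,8,21⟩,⟨-19,12,-48⟩,⟨-12,-51,-8⟩⟩ (1,[(3,147),(0,6),(4,296)]) (8,[(3,15),(0,19),(4,1008)]) (2,[(3,47),(0,3),(4,42)]))) (.leaf false ⟨⟨-51,8,-12⟩,⟨-8,21,48⟩,⟨12,48,-19⟩⟩ (19,[(2,156),(4,1065),(0,8)]) (19,[(2,1920),(4,404),(0,21)]) (19,[(2,1943),(4,348),(0,48)]))) (.node ⟨36,12,37⟩ (.leaf false ⟨⟨-28,-27,36⟩,⟨-27,44,12⟩,⟨36,12,37⟩⟩ (1,[(4,55),(3,1),(1,1)]) (3,[(4,108),(3,160),(1,1)]) (1,[(0,1)])) (.leaf false ⟨⟨-51,-12,8⟩,⟨-8,48,21⟩,⟨12,-19,48⟩⟩ (99,[(3,27320),(1,725),(0,684)]) (297,[(3,53972),(1,1052),(0,855)]) (99,[(3,13559),(1,428),(0,288)])))) (.node ⟨-12,36,37⟩ (.node ⟨-44,-27,12⟩ (.leaf false ⟨⟨-44,-27,12⟩,⟨-27,28,-36⟩,⟨-12,36,37⟩⟩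 (1,[(0,1)]) (44,[(2,1908),(0,27),(3,1961)]) (1,[(1,1)])) (.node ⟨-27,-12,-44⟩ (.leaf false ⟨⟨-36,37,12⟩,⟨-27,-12,-44⟩,⟨28,36,-27⟩⟩ (372,[(3,689),(0,284),(2,477)]) (1,[(0,1)]) (3,[(3,33),(5,92),(1,4)])) (.leaf false ⟨⟨-51,8,-12⟩,⟨-8,21,48⟩,⟨12,48,-19⟩⟩ (3,[(3,124),(5,207),(0,2)]) (4,[(3,116),(5,221),(0,7)]) (1,[(3,195),(5,96),(0,4)])))) (.node ⟨37,-12,-36⟩ (.leaf false ⟨⟨-36,-27,-28⟩,⟨-12,44,-27⟩,⟨37,-12,-36⟩⟩ (37,[(4,1668),(3,9),(1,28)]) (4,[(4,159),(3,212),(0,3)]) (1,[(0,1)])) (.node ⟨-19,-48,-12⟩ (.leaf false ⟨⟨-48,21,-8⟩,⟨-19,-48,-12⟩,⟨12,8,-51⟩⟩ (141,[(4,14469),(0,253),(1,53)]) (1,[(0,1)]) (121,[(4,7844),(2,159),(0,24)])) (.leaf false ⟨⟨-44,-12,-27⟩,⟨-27,36,28⟩,⟨12,37,-36⟩⟩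 (1211,[(2,9189),(1,6916),(0,4860)]) (1211,[(2,2272),(1,2625),(0,1956)]) (14532,[(2,94872),(1,60571),(0,67213)])))))) (.node ⟨0,0,1⟩ (.node ⟨-12,37,36⟩ (.node ⟨-44,12,-27⟩ (.leaf false ⟨⟨-44,12,-27⟩,⟨-27,-36,28⟩,⟨-12,37,36⟩⟩ (1,[(0,1)]) (44,[(2,1961),(0,27),(3,1908)]) (1,[(1,1)])) (.node ⟨-27,-44,-12⟩ (.leaf false ⟨⟨-36,12,37⟩,⟨-27,-44,-12⟩,⟨28,-27,36⟩⟩ (372,[(2,477),(0,284),(4,689)]) (1,[(0,1)]) (3,[(5,92),(4,33),(1,4)])) (.leaf false ⟨⟨-51,-12,8⟩,⟨-8,48,21⟩,⟨12,-19,48⟩⟩ (3,[(5,207),(4,124),(0,2)]) (4,[(5,221),(4,116),(0,7)]) (1,[(5,96),(4,195),(0,4)])))) (.node ⟨37,-36,-12⟩ (.leaf false ⟨⟨-36,-28,-27⟩,⟨-12,-27,44⟩,⟨37,-36,-12⟩⟩ (37,[(2,9),(4,1668),(1,28)]) (4,[(2,212),(4,159),(0,3)])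 (1,[(0,1)])) (.node ⟨-19,-12,-48⟩ (.leaf false ⟨⟨-48,-8,21⟩,⟨-19,-12,-48⟩,⟨12,-51,8⟩⟩ (141,[(3,14469),(1,53),(0,253)]) (1,[(0,1)]) (121,[(3,7844),(0,24),(2,159)])) (.leaf false ⟨⟨-44,-27,-12⟩,⟨-27,28,36⟩,⟨12,-36,37⟩⟩ (1211,[(1,6916),(2,9189),(0,4860)]) (1211,[(1,2625),(2,2272),(0,1956)]) (14532,[(1,60571),(2,94872),(0,67213)]))))) (.node ⟨-8,21,-48⟩ (.node ⟨-51,8,12⟩ (.leaf false ⟨⟨-51,8,12⟩,⟨-12,-48,-19⟩,⟨-8,21,-48⟩⟩ (1,[(0,1)]) (17,[(2,371),(0,4),(3,848)]) (1,[(1,1)])) (.leaf false ⟨⟨-48,-19,-12⟩,⟨8,12,-51⟩,⟨21,-48,-8⟩⟩ (1,[(4,99),(3,11),(0,1)]) (212,[(1,184),(4,5247),(0,165)]) (3,[(4,39),(3,128),(0,2)]))) (.node ⟨21,-48,8⟩ (.leaf false ⟨⟨-48,-19,12⟩,⟨-8,-12,-51⟩,⟨21,-48,8⟩⟩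 (21,[(2,660),(4,1160),(1,19)]) (4,[(2,212),(4,53),(0,1)]) (1,[(0,1)])) (.leaf false ⟨⟨-51,12,8⟩,⟨-12,-19,-48⟩,⟨-8,-48,21⟩⟩ (19,[(2,32384),(0,325),(1,732)]) (57,[(2,46304),(0,404),(1,975)]) (19,[(2,20401),(0,184),(1,464)]))))))
theorem h53_ok : h53.check (ok 53 4 ⟨3, 3, 3⟩) (fun _ r => r) [] = true := by decide +kernel

def h55 : T := .node ⟨1,0,0⟩ (.node ⟨0,1,0⟩ (.node ⟨0,0,1⟩ (.node ⟨-30,-10,45⟩ (.leaf false ⟨⟨-30,-10,45⟩,⟨-3,54,10⟩,⟨46,-3,30⟩⟩ (1,[(0,1)]) (9,[(3,33),(2,506),(0,2)]) (3,[(3,198),(2,11),(0,2)])) (.node ⟨-10,45,-30⟩ (.leaf false ⟨⟨-10,45,-30⟩,⟨-3,30,46⟩,⟨54,10,-3⟩⟩ (1,[(0,1)]) (3,[(2,198),(4,11),(0,2)]) (1,[(2,42),(4,24),(1,1)])) (.leaf false ⟨⟨10,-3,54⟩,⟨30,46,-3⟩,⟨45,-30,-10⟩⟩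 (1,[(2,24),(0,1),(3,42)]) (1,[(2,42),(1,1),(3,36)]) (58,[(2,905),(0,54),(1,69)])))) (.node ⟨-30,30,-35⟩ (.node ⟨45,-26,-18⟩ (.node ⟨30,45,10⟩ (.leaf false ⟨⟨-10,18,-51⟩,⟨30,45,10⟩,⟨45,-26,-18⟩⟩ (3,[(3,118),(4,24),(2,1)]) (1,[(0,1)]) (1,[(1,1)])) (.leaf false ⟨⟨-35,-30,-30⟩,⟨-6,42,-35⟩,⟨42,-19,-30⟩⟩ (1,[(5,55),(4,105),(0,3)]) (2,[(5,198),(4,399),(0,7)]) (1,[(5,132),(4,116),(0,3)]))) (.leaf false ⟨⟨-44,33,0⟩,⟨0,0,-55⟩,⟨33,44,0⟩⟩ (26,[(2,594),(4,341),(0,33)]) (1,[(2,55)]) (13,[(2,396),(4,1419),(0,22)]))) (.leaf false ⟨⟨10,45,-30⟩,⟨30,-30,-35⟩,⟨45,10,30⟩⟩ (3,[(1,125),(0,1),(2,165)]) (1,[(1,70),(0,1)]) (2,[(1,45),(0,3),(2,110)])))) (.node ⟨0,0,1⟩ (.node ⟨-30,-35,30⟩ (.node ⟨45,-18,-26⟩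 (.node ⟨30,10,45⟩ (.leaf false ⟨⟨-10,-51,18⟩,⟨30,10,45⟩,⟨45,-18,-26⟩⟩ (3,[(3,24),(4,118),(2,1)]) (1,[(0,1)]) (1,[(1,1)])) (.leaf false ⟨⟨-35,-42,6⟩,⟨30,-30,-35⟩,⟨30,-19,42⟩⟩ (5,[(3,975),(5,455),(0,21)]) (1,[(3,100),(5,120),(0,3)]) (10,[(3,1275),(5,870),(0,19)]))) (.leaf false ⟨⟨-44,0,33⟩,⟨0,-55,0⟩,⟨33,0,44⟩⟩ (26,[(4,341),(3,594),(0,33)]) (1,[(3,55)]) (13,[(4,1419),(3,396),(0,22)]))) (.leaf false ⟨⟨10,-30,45⟩,⟨30,-35,-30⟩,⟨45,30,10⟩⟩ (3,[(1,165),(0,1),(2,125)]) (1,[(0,1),(2,70)]) (2,[(1,110),(0,3),(2,45)]))) (.node ⟨44,0,33⟩ (.leaf false ⟨⟨0,-55,0⟩,⟨33,0,-44⟩,⟨44,0,33⟩⟩ (1,[(2,55)]) (4,[(1,275),(0,3)]) (1,[(0,1)])) (.node ⟨45,10,-30⟩ (.leaf false ⟨⟨-30,-3,-46⟩,⟨10,-54,-3⟩,⟨45,10,-30⟩⟩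 (33,[(4,1034),(3,99),(1,46)]) (10,[(4,55),(3,550),(0,1)]) (1,[(0,1)])) (.leaf false ⟨⟨-42,-6,-35⟩,⟨-19,-42,30⟩,⟨30,-35,-30⟩⟩ (165,[(4,9185),(0,99),(1,265)]) (55,[(4,16390),(0,231),(1,160)]) (22,[(4,8085),(0,77),(1,90)])))))) (.node ⟨0,1,0⟩ (.node ⟨0,0,1⟩ (.node ⟨-35,-30,30⟩ (.node ⟨-18,45,-26⟩ (.node ⟨10,30,45⟩ (.leaf false ⟨⟨-51,-10,18⟩,⟨-18,45,-26⟩,⟨10,30,45⟩⟩ (3,[(3,24),(2,1),(5,118)]) (1,[(1,1)]) (1,[(0,1)])) (.leaf false ⟨⟨-51,-18,-10⟩,⟨-18,26,45⟩,⟨-10,45,-30⟩⟩ (10,[(3,2195),(0,51),(4,1350)]) (5,[(3,630),(0,9),(4,400)]) (1,[(3,15),(0,1),(4,75)]))) (.leaf false ⟨⟨-55,0,0⟩,⟨0,-44,33⟩,⟨0,33,44⟩⟩ (1,[(4,55)]) (26,[(4,594),(3,341),(0,33)]) (13,[(4,396),(3,1419),(0,22)]))) (.leaf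 false ⟨⟨-51,18,10⟩,⟨10,45,-30⟩,⟨18,26,45⟩⟩ (5,[(1,140),(3,360),(0,3)]) (2,[(1,30),(3,85),(0,3)]) (15,[(1,1065),(3,185),(0,13)]))) (.node ⟨0,44,33⟩ (.leaf false ⟨⟨-55,0,0⟩,⟨0,33,-44⟩,⟨0,44,33⟩⟩ (1,[(3,55)]) (4,[(1,275),(0,3)]) (1,[(0,1)])) (.node ⟨10,45,-30⟩ (.leaf false ⟨⟨-54,10,-3⟩,⟨-3,-30,-46⟩,⟨10,45,-30⟩⟩ (10,[(4,550),(3,55),(0,1)]) (33,[(1,46),(4,99),(3,1034)]) (1,[(0,1)])) (.leaf false ⟨⟨-54,-10,-3⟩,⟨-10,45,30⟩,⟨-3,30,-46⟩⟩ (5,[(1,25),(0,27),(3,2265)]) (1,[(0,1),(3,90)]) (30,[(1,50),(0,9),(3,3505)]))))) (.node ⟨0,0,1⟩ (.node ⟨0,33,44⟩ (.leaf false ⟨⟨-55,0,0⟩,⟨0,-44,33⟩,⟨0,33,44⟩⟩ (1,[(3,55)]) (4,[(0,3),(2,275)]) (1,[(0,1)])) (.node ⟨10,-30,45⟩ (.leaf false ⟨⟨-54,-3,10⟩,⟨-3,-46,-30⟩,⟨10,-30,45⟩⟩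 (10,[(2,55),(4,550),(0,1)]) (33,[(2,1034),(4,99),(1,46)]) (1,[(0,1)])) (.leaf false ⟨⟨-54,-3,-10⟩,⟨-10,30,45⟩,⟨-3,-46,30⟩⟩ (5,[(2,2265),(0,27),(1,25)]) (1,[(2,90),(0,1)]) (30,[(2,3505),(0,9),(1,50)])))) (.leaf false ⟨⟨-55,0,0⟩,⟨0,-55,0⟩,⟨0,0,-55⟩⟩ (1,[(2,55)]) (1,[(1,55)]) (1,[(0,55)]))))
theorem h55_ok : h55.check (ok 55 4 ⟨3, 3, 3⟩) (fun _ r => r) [] = true := by decide +kernel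

def h57 : T := .node ⟨1,0,0⟩ (.node ⟨0,1,0⟩ (.node ⟨0,0,1⟩ (.leaf false ⟨⟨0,0,57⟩,⟨0,57,0⟩,⟨57,0,0⟩⟩ (1,[(0,57)]) (1,[(1,57)]) (1,[(2,57)])) (.node ⟨-32,25,-40⟩ (.node ⟨25,-32,-40⟩ (.leaf false ⟨⟨-32,25,-40⟩,⟨25,-32,-40⟩,⟨40,40,-7⟩⟩ (1,[(1,1)]) (1,[(0,1)]) (40,[(4,1824),(3,1425),(1,7)])) (.leaf false ⟨⟨-40,40,-7⟩,⟨25,32,40⟩,⟨32,25,-40⟩⟩ (40,[(4,49),(0,25),(1,32)]) (1,[(4,50),(0,1)]) (1,[(4,64),(1,1)]))) (.leaf false ⟨⟨17,52,16⟩,⟨32,4,-47⟩,⟨44,-23,28⟩⟩ (32,[(1,168),(0,17),(2,2089)]) (1,[(1,87),(0,1),(2,29)]) (8,[(1,216),(0,11),(2,91)])))) (.node ⟨0,0,1⟩ (.node ⟨-32,-40,25⟩ (.node ⟨25,-40,-32⟩ (.leaf false ⟨⟨-32,-40,25⟩,⟨25,-40,-32⟩,⟨40,-7,40⟩⟩ (1,[(1,1)]) (1,[(0,1)]) (40,[(2,1824),(4,1425),(0,7)]))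 (.leaf false ⟨⟨-40,-7,40⟩,⟨25,40,32⟩,⟨32,-40,25⟩⟩ (40,[(4,49),(1,32),(0,25)]) (1,[(4,50),(0,1)]) (1,[(4,64),(1,1)]))) (.leaf false ⟨⟨17,16,52⟩,⟨32,-47,4⟩,⟨44,28,-23⟩⟩ (32,[(1,2089),(0,17),(2,168)]) (1,[(1,29),(0,1),(2,87)]) (8,[(1,91),(0,11),(2,216)]))) (.node ⟨-8,-56,-7⟩ (.node ⟨-7,8,-56⟩ (.leaf false ⟨⟨-8,-56,-7⟩,⟨-7,8,-56⟩,⟨56,-7,-8⟩⟩ (1,[(1,1)]) (1,[(0,1)]) (7,[(4,399),(3,57),(0,1)])) (.node ⟨-16,-47,-28⟩ (.leaf false ⟨⟨-16,-47,-28⟩,⟨17,-32,44⟩,⟨52,-4,-23⟩⟩ (1,[(0,1)]) (238,[(5,4237),(1,247),(0,120)]) (2,[(3,102),(5,97),(1,1)])) (.leaf false ⟨⟨16,-47,28⟩,⟨17,32,44⟩,⟨52,4,-23⟩⟩ (65,[(3,1316),(0,159),(2,188)]) (457,[(3,6044),(0,360),(1,287)]) (26,[(3,3797),(0,144),(2,119)]))))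 (.node ⟨32,25,40⟩ (.leaf false ⟨⟨17,52,16⟩,⟨32,4,-47⟩,⟨44,-23,28⟩⟩ (32,[(1,56),(0,3),(3,1547)]) (1,[(2,87),(0,1),(3,21)]) (8,[(2,216),(0,11),(3,459)])) (.leaf false ⟨⟨-32,-4,-47⟩,⟨17,52,-16⟩,⟨44,-23,-28⟩⟩ (12,[(1,28),(3,1141),(0,19)]) (96,[(1,1192),(3,55585),(0,247)]) (24,[(1,664),(3,34411),(0,133)])))))) (.node ⟨0,1,0⟩ (.node ⟨0,0,1⟩ (.node ⟨-40,-32,25⟩ (.node ⟨-40,25,-32⟩ (.leaf false ⟨⟨-40,-32,25⟩,⟨-40,25,-32⟩,⟨-7,40,40⟩⟩ (1,[(1,1)]) (1,[(0,1)]) (40,[(2,1425),(1,7),(3,1824)])) (.leaf false ⟨⟨-47,4,32⟩,⟨16,52,17⟩,⟨28,-23,44⟩⟩ (1,[(4,87),(3,29),(0,1)]) (32,[(4,168),(3,2089),(0,17)]) (8,[(4,216),(3,91),(0,11)]))) (.leaf false ⟨⟨-47,32,4⟩,⟨16,17,52⟩,⟨28,44,-23⟩⟩ (1,[(1,29),(3,87),(0,1)])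 (32,[(1,2089),(3,168),(0,17)]) (8,[(1,91),(3,216),(0,11)]))) (.node ⟨-56,-8,-7⟩ (.node ⟨8,-7,-56⟩ (.leaf false ⟨⟨-56,-8,-7⟩,⟨-7,56,-8⟩,⟨8,-7,-56⟩⟩ (1,[(1,1)]) (7,[(4,57),(3,399),(0,1)]) (1,[(0,1)])) (.node ⟨-47,-16,-28⟩ (.leaf false ⟨⟨-47,-16,-28⟩,⟨-32,17,44⟩,⟨-4,52,-23⟩⟩ (1,[(0,1)]) (238,[(0,120),(1,247),(4,4237)]) (2,[(3,102),(1,1),(4,97)])) (.leaf false ⟨⟨-47,16,28⟩,⟨4,52,-23⟩,⟨32,17,44⟩⟩ (65,[(3,1316),(2,188),(0,159)]) (26,[(3,3797),(2,119),(0,144)]) (457,[(3,6044),(1,287),(0,360)])))) (.node ⟨25,32,40⟩ (.leaf false ⟨⟨-40,40,-7⟩,⟨25,32,40⟩,⟨32,25,-40⟩⟩ (4,[(2,228),(4,285),(0,5)]) (1,[(0,1)]) (8,[(2,495),(4,1144),(1,25)])) (.leaf false ⟨⟨-40,-7,-40⟩,⟨-32,40,25⟩,⟨25,40,-32⟩⟩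 (96,[(4,53065),(1,1000),(0,271)]) (6,[(4,2867),(1,50),(0,5)]) (12,[(4,16393),(1,328),(0,67)]))))) (.node ⟨0,0,1⟩ (.node ⟨-56,-7,-8⟩ (.node ⟨8,-56,-7⟩ (.leaf false ⟨⟨-56,-7,-8⟩,⟨-7,-8,56⟩,⟨8,-56,-7⟩⟩ (1,[(1,1)]) (7,[(2,399),(4,57),(0,1)]) (1,[(0,1)])) (.node ⟨-47,-28,-16⟩ (.leaf false ⟨⟨-47,-28,-16⟩,⟨-32,44,17⟩,⟨-4,-23,52⟩⟩ (1,[(0,1)]) (238,[(3,4237),(1,247),(0,120)]) (2,[(3,97),(1,1),(4,102)])) (.leaf false ⟨⟨-47,4,32⟩,⟨16,52,17⟩,⟨28,-23,44⟩⟩ (65,[(2,282),(4,5354),(0,271)]) (457,[(1,543),(4,13588),(0,248)]) (26,[(2,81),(4,3167),(0,112)])))) (.node ⟨25,40,32⟩ (.leaf false ⟨⟨-40,-7,40⟩,⟨25,40,32⟩,⟨32,-40,25⟩⟩ (4,[(4,285),(3,228),(0,5)]) (1,[(0,1)]) (8,[(4,1144),(3,495),(1,25)]))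 (.leaf false ⟨⟨-40,-40,-7⟩,⟨-32,25,40⟩,⟨25,-32,40⟩⟩ (96,[(4,53065),(0,271),(1,1000)]) (6,[(4,2867),(0,5),(1,50)]) (12,[(4,16393),(0,67),(1,328)])))) (.node ⟨-3,18,-54⟩ (.node ⟨-54,-3,18⟩ (.node ⟨-18,18,-51⟩ (.leaf false ⟨⟨-54,-3,18⟩,⟨-18,18,-51⟩,⟨-3,-54,-18⟩⟩ (1,[(1,1)]) (1,[(0,1)]) (6,[(3,57),(0,1),(4,342)])) (.leaf false ⟨⟨-54,-18,-3⟩,⟨-3,18,-54⟩,⟨18,-51,-18⟩⟩ (1,[(2,132),(1,36),(0,127)]) (1,[(2,1)]) (1,[(2,336),(1,89),(0,324)]))) (.leaf false ⟨⟨-54,-18,-3⟩,⟨-3,18,-54⟩,⟨18,-51,-18⟩⟩ (6,[(4,378),(3,111),(0,1)]) (1,[(1,1)]) (1,[(4,36),(3,54),(0,1)]))) (.node ⟨16,-28,-47⟩ (.leaf false ⟨⟨-51,-18,18⟩,⟨-18,-3,-54⟩,⟨18,-54,-3⟩⟩ (1,[(2,36),(4,54),(1,1)]) (6,[(2,378),(4,111),(1,1)])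 (34,[(2,2073),(1,60),(0,27)])) (.leaf false ⟨⟨-56,-7,-8⟩,⟨-7,-8,56⟩,⟨8,-56,-7⟩⟩ (68,[(2,46905),(0,343),(1,560)]) (34,[(2,2187),(0,25),(1,54)]) (17,[(2,3237),(0,2),(1,56)]))))))
theorem h57_ok : h57.check (ok 57 4 ⟨3, 3, 3⟩) (fun _ r => r) [] = true := by decide +kernel

def h59 : T := .node ⟨1,0,0⟩ (.node ⟨0,1,0⟩ (.node ⟨0,0,1⟩ (.node ⟨-30,9,50⟩ (.node ⟨9,50,-30⟩ (.node ⟨-30,30,41⟩ (.leaf false ⟨⟨-30,30,41⟩,⟨9,50,-30⟩,⟨50,9,30⟩⟩ (1,[(0,1)]) (1,[(1,1)]) (10,[(3,177),(5,590),(0,3)])) (.leaf false ⟨⟨-30,9,50⟩,⟨30,50,9⟩,⟨41,-30,30⟩⟩ (1,[(2,1)]) (27,[(1,300),(2,740),(0,677)]) (81,[(1,969),(2,2680),(0,2500)]))) (.leaf false ⟨⟨-30,9,50⟩,⟨30,50,9⟩,⟨41,-30,30⟩⟩ (1,[(1,1)]) (10,[(4,327),(3,650),(0,3)])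 (1,[(4,50),(3,20),(0,1)]))) (.node ⟨50,-30,9⟩ (.leaf false ⟨⟨9,30,50⟩,⟨30,41,-30⟩,⟨50,-30,9⟩⟩ (10,[(2,650),(1,3),(3,327)]) (1,[(2,20),(1,1),(3,50)]) (1,[(0,1)])) (.leaf false ⟨⟨-50,30,9⟩,⟨9,30,-50⟩,⟨30,41,30⟩⟩ (1,[(2,18),(0,1)]) (150,[(2,24943),(1,590),(0,327)]) (9,[(2,3490),(1,59),(0,30)])))) (.node ⟨-23,6,-54⟩ (.node ⟨-23,54,6⟩ (.node ⟨54,22,9⟩ (.leaf false ⟨⟨-23,54,6⟩,⟨6,9,-58⟩,⟨54,22,9⟩⟩ (1,[(1,1)]) (6,[(3,354),(5,59),(1,1)]) (1,[(0,1)])) (.leaf false ⟨⟨-58,9,-6⟩,⟨-6,-54,-23⟩,⟨9,22,-54⟩⟩ (118,[(5,1593),(1,71),(0,126)]) (177,[(5,23954),(1,10),(0,459)]) (59,[(5,33276),(1,231),(0,508)]))) (.node ⟨-14,-42,-39⟩ (.leaf false ⟨⟨-14,-42,-39⟩,⟨-6,41,-42⟩,⟨57,-6,-14⟩⟩ (1,[(0,1)])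 (9,[(5,107),(4,327),(2,7)]) (3,[(5,10),(4,360),(1,7)])) (.leaf false ⟨⟨-22,9,-54⟩,⟨9,58,6⟩,⟨54,-6,-23⟩⟩ (6248,[(2,6781),(1,325),(0,788)]) (4686,[(2,5271),(1,2033),(0,8332)]) (4686,[(2,11153),(1,13201),(0,14710)])))) (.node ⟨42,-14,-39⟩ (.leaf false ⟨⟨6,57,-14⟩,⟨41,6,42⟩,⟨42,-14,-39⟩⟩ (7,[(2,59),(0,1),(3,413)]) (23,[(2,1248),(1,41),(3,384)]) (1,[(0,1)])) (.leaf false ⟨⟨-50,30,9⟩,⟨9,30,-50⟩,⟨30,41,30⟩⟩ (7,[(2,4482),(1,56),(0,39)]) (35,[(2,53680),(1,693),(0,372)]) (70,[(2,157365),(1,2142),(0,1123)]))))) (.node ⟨0,0,1⟩ (.node ⟨-23,-54,6⟩ (.node ⟨-23,6,54⟩ (.node ⟨54,9,22⟩ (.leaf false ⟨⟨-23,6,54⟩,⟨6,-58,9⟩,⟨54,9,22⟩⟩ (1,[(1,1)]) (6,[(5,59),(4,354),(1,1)]) (1,[(0,1)])) (.leaf false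 ⟨⟨-58,-6,9⟩,⟨-6,-23,-54⟩,⟨9,-54,22⟩⟩ (118,[(5,1593),(0,126),(1,71)]) (177,[(5,23954),(0,459),(1,10)]) (59,[(5,33276),(0,508),(1,231)]))) (.node ⟨-14,-39,-42⟩ (.leaf false ⟨⟨-14,-39,-42⟩,⟨-6,-42,41⟩,⟨57,-14,-6⟩⟩ (1,[(0,1)]) (9,[(3,327),(5,107),(2,7)]) (3,[(3,360),(5,10),(1,7)])) (.leaf false ⟨⟨-22,-54,9⟩,⟨9,6,58⟩,⟨54,-23,-6⟩⟩ (6248,[(1,325),(2,6781),(0,788)]) (4686,[(1,2033),(2,5271),(0,8332)]) (4686,[(1,13201),(2,11153),(0,14710)])))) (.node ⟨42,-39,-14⟩ (.leaf false ⟨⟨6,-14,57⟩,⟨41,42,6⟩,⟨42,-39,-14⟩⟩ (7,[(2,413),(0,1),(3,59)]) (23,[(2,384),(1,41),(3,1248)]) (1,[(0,1)])) (.leaf false ⟨⟨-50,9,30⟩,⟨9,-50,30⟩,⟨30,30,41⟩⟩ (7,[(1,56),(3,4482),(0,39)]) (35,[(1,693),(3,53680),(0,372)])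 (70,[(1,2142),(3,157365),(0,1123)])))) (.node ⟨6,-42,41⟩ (.node ⟨57,14,6⟩ (.leaf false ⟨⟨6,-42,41⟩,⟨14,-39,-42⟩,⟨57,14,6⟩⟩ (1,[(1,1)]) (57,[(2,2478),(0,14),(3,2419)]) (1,[(0,1)])) (.leaf false ⟨⟨-54,-23,-6⟩,⟨9,-6,-58⟩,⟨22,-54,9⟩⟩ (826,[(2,7729),(1,185),(0,802)]) (7,[(2,388),(4,234),(0,3)]) (7,[(2,306),(4,100),(1,9)]))) (.node ⟨-14,-42,-39⟩ (.leaf false ⟨⟨-14,-42,-39⟩,⟨-6,41,-42⟩,⟨57,-6,-14⟩⟩ (1,[(0,1)]) (41,[(4,6),(3,83),(1,42)]) (41,[(4,2421),(3,834),(1,14)])) (.leaf false ⟨⟨6,-23,-54⟩,⟨9,54,-22⟩,⟨58,-6,9⟩⟩ (34,[(3,7334),(1,99),(0,57)]) (340,[(3,30360),(1,659),(0,501)]) (85,[(3,47340),(1,534),(0,581)])))))) (.node ⟨0,1,0⟩ (.node ⟨0,0,1⟩ (.node ⟨-54,-23,6⟩ (.node ⟨6,-23,54⟩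 (.node ⟨9,54,22⟩ (.leaf false ⟨⟨-58,6,9⟩,⟨6,-23,54⟩,⟨9,54,22⟩⟩ (6,[(5,354),(4,59),(1,1)]) (1,[(1,1)]) (1,[(0,1)])) (.leaf false ⟨⟨-54,-22,9⟩,⟨-23,54,-6⟩,⟨6,9,58⟩⟩ (118,[(4,60593),(1,423),(0,990)]) (177,[(4,47318),(1,226),(0,603)]) (59,[(4,2242),(1,65),(0,4)]))) (.node ⟨-39,-14,-42⟩ (.leaf false ⟨⟨-42,-6,41⟩,⟨-39,-14,-42⟩,⟨-14,57,-6⟩⟩ (9,[(3,327),(2,7),(4,107)]) (1,[(0,1)]) (3,[(3,360),(1,7),(4,10)])) (.leaf false ⟨⟨-58,9,6⟩,⟨6,54,-23⟩,⟨9,22,54⟩⟩ (2343,[(2,5102),(1,3511),(0,4120)]) (1704,[(2,2037),(1,3805),(0,3668)]) (781,[(2,1087),(1,739),(0,1799)])))) (.node ⟨-39,42,-14⟩ (.leaf false ⟨⟨-39,42,-14⟩,⟨-14,6,57⟩,⟨42,41,6⟩⟩ (1,[(0,1)]) (7,[(2,413),(4,59),(0,1)]) (23,[(2,384),(4,1248),(1,41)]))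 (.leaf false ⟨⟨-58,6,9⟩,⟨6,-23,54⟩,⟨9,54,22⟩⟩ (70,[(4,38485),(1,462),(0,243)]) (35,[(4,73860),(1,973),(0,552)]) (7,[(4,12246),(1,168),(0,83)])))) (.node ⟨-42,6,41⟩ (.node ⟨14,57,6⟩ (.leaf false ⟨⟨-42,6,41⟩,⟨-39,14,-42⟩,⟨14,57,6⟩⟩ (1,[(1,1)]) (57,[(2,2478),(4,2419),(0,14)]) (1,[(0,1)])) (.leaf false ⟨⟨-54,22,9⟩,⟨-23,-54,-6⟩,⟨-6,9,-58⟩⟩ (7,[(2,306),(1,9),(3,100)]) (826,[(2,7729),(0,802),(1,185)]) (7,[(2,388),(0,3),(3,234)]))) (.node ⟨-42,-14,-39⟩ (.leaf false ⟨⟨-42,-14,-39⟩,⟨-6,57,-14⟩,⟨41,-6,-42⟩⟩ (1,[(0,1)]) (41,[(4,834),(3,2421),(1,14)]) (41,[(4,83),(3,6),(1,42)])) (.leaf false ⟨⟨-58,9,6⟩,⟨6,54,-23⟩,⟨9,22,54⟩⟩ (340,[(4,44920),(0,333),(1,267)]) (85,[(4,49680),(0,588),(1,607)])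 (10,[(4,750),(0,17),(1,3)]))))) (.node ⟨0,0,1⟩ (.node ⟨41,-42,6⟩ (.node ⟨6,14,57⟩ (.leaf false ⟨⟨-42,-39,14⟩,⟨6,14,57⟩,⟨41,-42,6⟩⟩ (57,[(4,2478),(3,2419),(0,14)]) (1,[(0,1)]) (1,[(1,1)])) (.leaf false ⟨⟨-58,-6,9⟩,⟨-6,-23,-54⟩,⟨9,-54,22⟩⟩ (7,[(2,234),(4,388),(0,3)]) (826,[(4,7729),(0,802),(1,185)]) (7,[(2,100),(4,306),(1,9)]))) (.node ⟨-39,-42,-14⟩ (.leaf false ⟨⟨-42,41,-6⟩,⟨-39,-42,-14⟩,⟨-14,-6,57⟩⟩ (41,[(2,6),(1,42),(3,83)]) (1,[(0,1)]) (41,[(2,2421),(1,14),(3,834)])) (.leaf false ⟨⟨-58,6,9⟩,⟨6,-23,54⟩,⟨9,54,22⟩⟩ (340,[(1,1163),(3,76920),(0,717)]) (170,[(1,1011),(3,92110),(0,1089)]) (85,[(1,183),(3,12000),(0,212)])))) (.leaf false ⟨⟨-59,0,0⟩,⟨0,-59,0⟩,⟨0,0,-59⟩⟩ (1,[(2,59)])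 (1,[(1,59)]) (1,[(0,59)]))))
theorem h59_ok : h59.check (ok 59 4 ⟨3, 3, 3⟩) (fun _ r => r) [] = true := by decide +kernel

def h67 : T := .node ⟨1,0,0⟩ (.node ⟨0,1,0⟩ (.node ⟨0,0,1⟩ (.node ⟨-31,42,42⟩ (.node ⟨42,-31,42⟩ (.node ⟨42,42,-31⟩ (.leaf false ⟨⟨-31,42,42⟩,⟨42,-18,49⟩,⟨42,49,-18⟩⟩ (1,[(2,1)]) (1,[(3,7),(1,1),(4,13)]) (1,[(3,13),(0,1),(4,7)])) (.node ⟨49,-42,18⟩ (.leaf false ⟨⟨-42,-31,42⟩,⟨18,42,49⟩,⟨49,-42,18⟩⟩ (31,[(6,462),(5,803),(1,42)]) (31,[(6,2616),(5,3360),(1,49)]) (1,[(0,1)])) (.leaf false ⟨⟨-50,-30,33⟩,⟨-15,58,30⟩,⟨42,-15,50⟩⟩ (91,[(6,5096),(0,76),(1,141)]) (273,[(6,119210),(0,1529),(1,1152)]) (182,[(6,59969),(0,545),(1,610)])))) (.node ⟨49,18,-42⟩ (.leaf false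 ⟨⟨-42,42,-31⟩,⟨18,49,42⟩,⟨49,18,-42⟩⟩ (31,[(3,803),(5,462),(1,42)]) (31,[(3,3360),(5,2616),(1,49)]) (1,[(0,1)])) (.leaf false ⟨⟨-50,-15,42⟩,⟨-30,58,-15⟩,⟨33,30,50⟩⟩ (13,[(5,260),(1,3),(0,16)]) (182,[(5,57057),(1,722),(0,657)]) (273,[(5,123214),(1,1080),(0,1405)])))) (.node ⟨18,49,-42⟩ (.leaf false ⟨⟨18,49,-42⟩,⟨42,-42,-31⟩,⟨49,18,42⟩⟩ (1,[(0,1)]) (31,[(2,803),(1,42),(3,462)]) (31,[(2,3360),(1,49),(3,2616)])) (.leaf false ⟨⟨-18,42,49⟩,⟨42,-31,42⟩,⟨49,42,-18⟩⟩ (78,[(1,18),(3,9373),(0,109)]) (13,[(1,60),(3,5694),(0,73)]) (91,[(1,289),(3,28210),(0,250)])))) (.node ⟨-42,42,-31⟩ (.node ⟨50,30,33⟩ (.node ⟨42,-15,-50⟩ (.leaf false ⟨⟨-15,58,-30⟩,⟨42,-15,-50⟩,⟨50,30,33⟩⟩ (14,[(3,265),(4,602),(2,5)])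 (1,[(0,1)]) (1,[(1,1)])) (.leaf false ⟨⟨-58,33,6⟩,⟨6,22,-63⟩,⟨33,54,22⟩⟩ (5,[(3,520),(5,172),(0,11)]) (15,[(3,2045),(5,1014),(0,22)]) (5,[(3,790),(5,921),(0,18)]))) (.node ⟨-42,50,-15⟩ (.leaf false ⟨⟨-42,50,-15⟩,⟨-15,-30,-58⟩,⟨50,33,-30⟩⟩ (1,[(0,1)]) (33,[(5,2405),(4,750),(1,58)]) (11,[(5,1050),(4,663),(1,10)])) (.leaf false ⟨⟨-50,-15,-42⟩,⟨30,-58,-15⟩,⟨33,30,-50⟩⟩ (106,[(4,7230),(1,169),(0,75)]) (53,[(4,6876),(1,90),(0,145)]) (636,[(4,276380),(1,2595),(0,3589)])))) (.node ⟨49,18,42⟩ (.leaf false ⟨⟨18,49,-42⟩,⟨42,-42,-31⟩,⟨49,18,42⟩⟩ (7,[(2,387),(1,3),(3,469)]) (1,[(2,62),(1,1)]) (1,[(0,1)])) (.leaf false ⟨⟨-30,-15,-58⟩,⟨33,50,-30⟩,⟨50,-42,-15⟩⟩ (245,[(1,1582),(3,89877),(0,1506)])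 (245,[(1,2856),(3,173296),(0,2283)]) (49,[(1,567),(3,29604),(0,436)]))))) (.node ⟨0,0,1⟩ (.node ⟨-42,-31,42⟩ (.node ⟨50,33,30⟩ (.node ⟨42,-50,-15⟩ (.leaf false ⟨⟨-15,-30,58⟩,⟨42,-50,-15⟩,⟨50,33,30⟩⟩ (14,[(3,602),(4,265),(2,5)]) (1,[(0,1)]) (1,[(1,1)])) (.leaf false ⟨⟨-58,6,33⟩,⟨6,-63,22⟩,⟨33,22,54⟩⟩ (5,[(5,172),(4,520),(0,11)]) (15,[(5,1014),(4,2045),(0,22)]) (5,[(5,921),(4,790),(0,18)]))) (.node ⟨-42,-15,50⟩ (.leaf false ⟨⟨-42,-15,50⟩,⟨-15,-58,-30⟩,⟨50,-30,33⟩⟩ (1,[(0,1)]) (33,[(3,750),(5,2405),(1,58)]) (11,[(3,663),(5,1050),(1,10)])) (.leaf false ⟨⟨-50,-42,-15⟩,⟨30,-15,-58⟩,⟨33,-50,30⟩⟩ (106,[(3,7230),(0,75),(1,169)]) (53,[(3,6876),(0,145),(1,90)]) (636,[(3,276380),(0,3589),(1,2595)]))))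 (.node ⟨49,42,18⟩ (.leaf false ⟨⟨18,-42,49⟩,⟨42,-31,-42⟩,⟨49,42,18⟩⟩ (7,[(2,469),(1,3),(3,387)]) (1,[(1,1),(3,62)]) (1,[(0,1)])) (.leaf false ⟨⟨-30,-58,-15⟩,⟨33,-30,50⟩,⟨50,-15,-42⟩⟩ (245,[(2,89877),(1,1582),(0,1506)]) (245,[(2,173296),(1,2856),(0,2283)]) (49,[(2,29604),(1,567),(0,436)])))) (.node ⟨54,-22,33⟩ (.node ⟨-22,-63,-6⟩ (.leaf false ⟨⟨-22,-63,-6⟩,⟨33,-6,-58⟩,⟨54,-22,33⟩⟩ (1,[(0,1)]) (11,[(2,737),(4,201),(1,3)]) (1,[(1,1)])) (.leaf false ⟨⟨6,-63,-22⟩,⟨33,22,-54⟩,⟨58,-6,33⟩⟩ (9,[(2,231),(1,1),(3,545)]) (2,[(2,126),(0,3),(3,145)]) (67,[(0,22),(1,63),(3,402)]))) (.leaf false ⟨⟨-50,-15,-42⟩,⟨30,-58,-15⟩,⟨33,30,-50⟩⟩ (11,[(3,206),(2,473),(0,14)]) (11,[(3,600),(2,748),(0,5)])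 (33,[(3,3789),(2,110),(0,50)]))))) (.node ⟨0,1,0⟩ (.node ⟨0,0,1⟩ (.node ⟨-31,42,-42⟩ (.node ⟨33,30,50⟩ (.node ⟨-50,-15,42⟩ (.leaf false ⟨⟨-50,-15,42⟩,⟨-30,58,-15⟩,⟨33,30,50⟩⟩ (1,[(0,1)]) (14,[(5,265),(2,5),(4,602)]) (1,[(1,1)])) (.leaf false ⟨⟨-63,22,6⟩,⟨6,33,-58⟩,⟨22,54,33⟩⟩ (15,[(3,1014),(5,2045),(0,22)]) (5,[(3,172),(5,520),(0,11)]) (5,[(3,921),(5,790),(0,18)]))) (.node ⟨-15,50,-42⟩ (.leaf false ⟨⟨-58,-30,-15⟩,⟨-30,33,50⟩,⟨-15,50,-42⟩⟩ (33,[(3,2405),(1,58),(4,750)]) (11,[(3,1050),(1,10),(4,663)]) (1,[(0,1)])) (.leaf false ⟨⟨-63,-6,-22⟩,⟨-22,33,54⟩,⟨-6,-58,33⟩⟩ (53,[(1,193),(4,15572),(0,202)]) (318,[(1,867),(4,108554),(0,1441)]) (212,[(1,249),(4,18324),(0,463)])))) (.node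 ⟨42,18,49⟩ (.leaf false ⟨⟨-42,49,18⟩,⟨-31,-42,42⟩,⟨42,18,49⟩⟩ (7,[(4,387),(3,469),(1,3)]) (1,[(4,62),(1,1)]) (1,[(0,1)])) (.leaf false ⟨⟨-63,-22,6⟩,⟨-6,33,58⟩,⟨22,-54,33⟩⟩ (245,[(3,185824),(1,3339),(0,2832)]) (49,[(3,31929),(1,546),(0,410)]) (245,[(3,1488),(1,308),(0,99)])))) (.node ⟨-22,54,33⟩ (.node ⟨-63,-22,-6⟩ (.leaf false ⟨⟨-63,-22,-6⟩,⟨-22,54,33⟩,⟨-6,33,-58⟩⟩ (1,[(0,1)]) (1,[(1,1)]) (11,[(2,737),(1,3),(3,201)])) (.leaf false ⟨⟨-63,6,-22⟩,⟨-6,58,33⟩,⟨22,33,-54⟩⟩ (9,[(2,231),(4,545),(1,1)]) (67,[(4,402),(1,63),(0,22)]) (2,[(2,126),(4,145),(0,3)]))) (.leaf false ⟨⟨-58,30,-15⟩,⟨-15,-50,-42⟩,⟨30,33,-50⟩⟩ (11,[(3,748),(2,600),(0,5)]) (11,[(3,473),(2,206),(0,14)]) (33,[(3,110),(2,3789),(0,50)]))))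 (.node ⟨0,0,1⟩ (.node ⟨-22,33,54⟩ (.node ⟨-63,-6,-22⟩ (.leaf false ⟨⟨-63,-6,-22⟩,⟨-22,33,54⟩,⟨-6,-58,33⟩⟩ (1,[(0,1)]) (1,[(1,1)]) (11,[(2,201),(1,3),(3,737)])) (.leaf false ⟨⟨-63,-22,6⟩,⟨-6,33,58⟩,⟨22,-54,33⟩⟩ (9,[(1,1),(4,545),(3,231)]) (67,[(1,63),(4,402),(0,22)]) (2,[(4,145),(3,126),(0,3)]))) (.leaf false ⟨⟨-58,-15,30⟩,⟨-15,-42,-50⟩,⟨30,-50,33⟩⟩ (11,[(1,600),(3,748),(0,5)]) (11,[(1,206),(3,473),(0,14)]) (33,[(1,3789),(3,110),(0,50)]))) (.leaf false ⟨⟨-67,0,0⟩,⟨0,-67,0⟩,⟨0,0,-67⟩⟩ (1,[(2,67)]) (1,[(1,67)]) (1,[(0,67)]))))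
theorem h67_ok : h67.check (ok 67 4 ⟨3, 3, 3⟩) (fun _ r => r) [] = true := by decide +kernel

def h69 : T := .node ⟨1,0,0⟩ (.node ⟨0,1,0⟩ (.node ⟨0,0,1⟩ (.leaf false ⟨⟨0,0,69⟩,⟨0,69,0⟩,⟨69,0,0⟩⟩ (1,[(0,69)]) (1,[(1,69)]) (1,[(2,69)])) (.node ⟨-44,52,-11⟩ (.node ⟨4,-11,-68⟩ (.leaf false ⟨⟨-44,52,-11⟩,⟨4,-11,-68⟩,⟨53,44,-4⟩⟩ (1,[(1,1)]) (1,[(0,1)]) (11,[(4,759),(3,276),(1,4)])) (.leaf false ⟨⟨-28,56,29⟩,⟨16,37,-56⟩,⟨61,16,28⟩⟩ (23,[(2,4968),(0,84),(1,7)]) (52,[(2,2505),(4,2460),(1,37)]) (11,[(2,780),(4,735),(0,16)]))) (.node ⟨56,-16,37⟩ (.leaf false ⟨⟨28,61,-16⟩,⟨29,-28,-56⟩,⟨56,-16,37⟩⟩ (2,[(2,69),(0,1),(3,138)]) (8,[(2,529),(1,4),(0,1)]) (1,[(0,1)])) (.leaf false ⟨⟨-44,-11,-52⟩,⟨-4,68,-11⟩,⟨53,-4,-44⟩⟩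 (253,[(1,321),(3,6693),(0,451)]) (253,[(1,117),(3,21528),(0,110)]) (1012,[(1,4425),(3,185748),(0,2519)]))))) (.node ⟨0,0,1⟩ (.node ⟨-44,-11,52⟩ (.node ⟨4,-68,-11⟩ (.leaf false ⟨⟨-44,-11,52⟩,⟨4,-68,-11⟩,⟨53,-4,44⟩⟩ (1,[(1,1)]) (1,[(0,1)]) (11,[(2,276),(4,759),(1,4)])) (.leaf false ⟨⟨-28,16,61⟩,⟨29,-56,28⟩,⟨56,37,16⟩⟩ (69,[(3,19596),(1,16),(0,307)]) (13,[(4,685),(3,651),(1,7)]) (11,[(4,680),(3,681),(0,16)]))) (.node ⟨56,37,-16⟩ (.leaf false ⟨⟨28,-16,61⟩,⟨29,-56,-28⟩,⟨56,37,-16⟩⟩ (2,[(2,138),(0,1),(3,69)]) (8,[(0,1),(1,4),(3,529)]) (1,[(0,1)])) (.leaf false ⟨⟨-44,-52,-11⟩,⟨-4,-11,68⟩,⟨53,-44,-4⟩⟩ (253,[(2,6693),(1,321),(0,451)]) (253,[(2,21528),(1,117),(0,110)]) (1012,[(2,185748),(1,4425),(0,2519)]))))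 (.node ⟨-32,-59,-16⟩ (.node ⟨4,16,-67⟩ (.leaf false ⟨⟨-32,-59,-16⟩,⟨4,16,-67⟩,⟨61,-32,-4⟩⟩ (1,[(1,1)]) (1,[(0,1)]) (4,[(4,276),(3,69),(1,1)])) (.leaf false ⟨⟨-11,-52,-44⟩,⟨-4,-44,53⟩,⟨68,-11,-4⟩⟩ (4,[(2,1047),(4,8),(0,13)]) (4,[(2,525),(4,28),(0,11)]) (16,[(2,801),(4,1132),(0,11)]))) (.leaf false ⟨⟨4,-16,-67⟩,⟨32,-59,16⟩,⟨61,32,-4⟩⟩ (8,[(1,552),(0,1),(2,187)]) (1,[(0,1),(2,118)]) (32,[(1,1104),(0,61),(2,2575)]))))) (.node ⟨0,1,0⟩ (.node ⟨0,0,1⟩ (.node ⟨-11,52,-44⟩ (.node ⟨-68,-11,4⟩ (.leaf false ⟨⟨-68,-11,4⟩,⟨-11,52,-44⟩,⟨-4,44,53⟩⟩ (1,[(0,1)]) (1,[(1,1)]) (11,[(2,759),(1,4),(3,276)])) (.leaf false ⟨⟨-56,28,29⟩,⟨16,61,-28⟩,⟨37,16,56⟩⟩ (13,[(2,685),(4,651),(1,7)]) (69,[(4,19596),(1,16),(0,307)])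 (11,[(2,680),(4,681),(0,16)]))) (.node ⟨37,-16,56⟩ (.leaf false ⟨⟨-56,-28,29⟩,⟨-16,61,28⟩,⟨37,-16,56⟩⟩ (8,[(4,529),(0,1),(1,4)]) (2,[(4,69),(3,138),(0,1)]) (1,[(0,1)])) (.leaf false ⟨⟨-68,-11,-4⟩,⟨-11,52,44⟩,⟨4,-44,53⟩⟩ (253,[(3,33005),(1,915),(0,737)]) (23,[(3,3496),(1,51),(0,22)]) (1012,[(3,39284),(1,1737),(0,407)])))) (.node ⟨-16,-32,-59⟩ (.node ⟨-67,4,16⟩ (.leaf false ⟨⟨-67,4,16⟩,⟨-16,-32,-59⟩,⟨-4,61,-32⟩⟩ (1,[(0,1)]) (1,[(1,1)]) (4,[(2,69),(1,1),(3,276)])) (.leaf false ⟨⟨-44,-11,-52⟩,⟨-4,68,-11⟩,⟨53,-4,-44⟩⟩ (4,[(4,1047),(3,8),(0,13)]) (16,[(4,801),(3,1132),(0,11)]) (4,[(4,525),(3,28),(0,11)]))) (.leaf false ⟨⟨-67,4,-16⟩,⟨-4,61,32⟩,⟨16,32,-59⟩⟩ (8,[(1,187),(3,552),(0,1)])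 (32,[(1,2575),(3,1104),(0,61)]) (1,[(1,118),(0,1)])))) (.node ⟨0,0,1⟩ (.node ⟨-16,-59,-32⟩ (.node ⟨-67,16,4⟩ (.leaf false ⟨⟨-67,16,4⟩,⟨-16,-59,-32⟩,⟨-4,-32,61⟩⟩ (1,[(0,1)]) (1,[(1,1)]) (4,[(2,276),(1,1),(3,69)])) (.leaf false ⟨⟨-44,-52,-11⟩,⟨-4,-11,68⟩,⟨53,-44,-4⟩⟩ (4,[(2,8),(4,1047),(0,13)]) (16,[(2,1132),(4,801),(0,11)]) (4,[(2,28),(4,525),(0,11)]))) (.leaf false ⟨⟨-67,-16,4⟩,⟨-4,32,61⟩,⟨16,-59,32⟩⟩ (8,[(3,552),(2,187),(0,1)]) (32,[(3,1104),(2,2575),(0,61)]) (1,[(2,118),(0,1)]))) (.node ⟨-23,46,-46⟩ (.node ⟨-46,-23,46⟩ (.node ⟨-46,46,-23⟩ (.leaf false ⟨⟨-46,-23,46⟩,⟨-46,46,-23⟩,⟨-23,-46,-46⟩⟩ (1,[(1,1)]) (1,[(0,1)]) (1,[(2,1),(4,92)])) (.leaf false ⟨⟨-56,-40,5⟩,⟨-35,44,-40⟩,⟨20,-35,-56⟩⟩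 (23,[(2,126),(1,74),(0,109)]) (23,[(2,27),(1,6),(0,2)]) (23,[(2,162),(1,59),(0,150)]))) (.leaf false ⟨⟨-46,-46,-23⟩,⟨-23,46,-46⟩,⟨46,-23,-46⟩⟩ (2,[(1,1),(4,69),(3,138)]) (1,[(1,1)]) (1,[(3,46),(0,1)]))) (.node ⟨46,-46,-23⟩ (.leaf false ⟨⟨-46,-23,-46⟩,⟨-23,-46,46⟩,⟨46,-46,-23⟩⟩ (2,[(2,138),(4,115),(1,1)]) (1,[(4,46),(1,1)]) (1,[(0,1)])) (.leaf false ⟨⟨-67,-16,-4⟩,⟨4,-32,61⟩,⟨16,-59,-32⟩⟩ (23,[(2,5635),(0,75),(1,83)]) (23,[(2,161),(0,12),(1,28)]) (46,[(2,6049),(0,27),(1,86)]))))))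
theorem h69_ok : h69.check (ok 69 4 ⟨3, 3, 3⟩) (fun _ r => r) [] = true := by decide +kernel

def h71 : T := .node ⟨1,0,0⟩ (.node ⟨0,1,0⟩ (.node ⟨0,0,1⟩ (.node ⟨-46,30,45⟩ (.node ⟨30,54,-35⟩ (.node ⟨-46,45,30⟩ (.leaf false ⟨⟨-46,45,30⟩,⟨30,54,-35⟩,⟨45,10,54⟩⟩ (1,[(0,1)]) (1,[(1,1)]) (3,[(3,117),(5,181),(2,1)])) (.leaf false ⟨⟨-46,30,45⟩,⟨30,-35,54⟩,⟨45,54,10⟩⟩ (1,[(2,1)]) (15,[(1,15),(2,89),(0,89)]) (44,[(1,89),(2,207),(0,192)]))) (.leaf false ⟨⟨-46,30,45⟩,⟨30,-35,54⟩,⟨45,54,10⟩⟩ (1,[(1,1)]) (35,[(4,2670),(3,1691),(0,54)]) (7,[(4,375),(3,486),(0,2)]))) (.node ⟨45,30,-46⟩ (.leaf false ⟨⟨10,54,45⟩,⟨45,30,-46⟩,⟨54,-35,30⟩⟩ (9,[(2,497),(0,2),(3,426)]) (1,[(0,1)]) (23,[(2,1905),(1,27),(3,5)]))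 (.leaf false ⟨⟨-35,30,54⟩,⟨30,-46,45⟩,⟨54,45,10⟩⟩ (91,[(1,820),(3,54600),(0,909)]) (91,[(1,3405),(3,200564),(0,3420)]) (91,[(1,2934),(3,178815),(0,2890)])))) (.node ⟨-51,42,-26⟩ (.node ⟨18,-19,-66⟩ (.leaf false ⟨⟨-51,42,-26⟩,⟨18,-19,-66⟩,⟨46,54,-3⟩⟩ (1,[(1,1)]) (1,[(0,1)]) (22,[(4,994),(3,1207),(0,1)])) (.leaf false ⟨⟨-35,30,-54⟩,⟨-30,46,45⟩,⟨54,45,-10⟩⟩ (7,[(2,248),(4,10),(1,5)]) (19,[(2,2181),(4,258),(0,46)]) (19,[(2,3160),(4,1836),(0,45)]))) (.node ⟨10,54,45⟩ (.leaf false ⟨⟨10,54,45⟩,⟨45,30,-46⟩,⟨54,-35,30⟩⟩ (1,[(0,1)]) (17,[(2,1172),(1,15),(3,1140)]) (138,[(2,497),(1,142),(0,21)])) (.leaf false ⟨⟨-3,-54,-46⟩,⟨26,42,-51⟩,⟨66,-19,18⟩⟩ (2035,[(1,325),(3,26232),(0,2268)]) (2035,[(1,1680),(3,332988),(0,3277)])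 (2035,[(1,2790),(3,121607),(0,798)]))))) (.node ⟨0,0,1⟩ (.node ⟨-51,-26,42⟩ (.node ⟨18,-66,-19⟩ (.leaf false ⟨⟨-51,-26,42⟩,⟨18,-66,-19⟩,⟨46,-3,54⟩⟩ (1,[(1,1)]) (1,[(0,1)]) (22,[(2,1207),(4,994),(0,1)])) (.leaf false ⟨⟨-35,-54,30⟩,⟨-30,45,46⟩,⟨54,-10,45⟩⟩ (7,[(4,10),(3,248),(1,5)]) (19,[(4,258),(3,2181),(0,46)]) (19,[(4,1836),(3,3160),(0,45)]))) (.node ⟨10,45,54⟩ (.leaf false ⟨⟨10,45,54⟩,⟨45,-46,30⟩,⟨54,30,-35⟩⟩ (1,[(0,1)]) (17,[(2,1140),(1,15),(3,1172)]) (138,[(0,21),(1,142),(3,497)])) (.leaf false ⟨⟨-3,-46,-54⟩,⟨26,-51,42⟩,⟨66,18,-19⟩⟩ (2035,[(2,26232),(1,325),(0,2268)]) (2035,[(2,332988),(1,1680),(0,3277)]) (2035,[(2,121607),(1,2790),(0,798)])))) (.node ⟨-46,-51,-18⟩ (.node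 ⟨-3,26,-66⟩ (.leaf false ⟨⟨-46,-51,-18⟩,⟨-3,26,-66⟩,⟨54,-42,-19⟩⟩ (1,[(1,1)]) (1,[(0,1)]) (66,[(4,3621),(3,3266),(0,19)])) (.leaf false ⟨⟨-26,-42,-51⟩,⟨-3,-54,46⟩,⟨66,-19,-18⟩⟩ (17,[(2,615),(4,202),(1,14)]) (1917,[(4,43736),(0,1659),(1,1184)]) (26,[(2,1722),(4,1659),(0,19)]))) (.node ⟨-3,-26,-66⟩ (.leaf false ⟨⟨-3,-26,-66⟩,⟨46,-51,18⟩,⟨54,42,-19⟩⟩ (1,[(0,1)]) (1,[(1,1),(3,102)]) (42,[(1,51),(3,161),(0,26)])) (.leaf false ⟨⟨10,45,54⟩,⟨45,-46,30⟩,⟨54,30,-35⟩⟩ (3,[(2,498),(0,10),(3,125)]) (1,[(2,960),(0,15),(3,436)]) (1,[(2,1223),(0,18),(3,438)])))))) (.node ⟨0,1,0⟩ (.node ⟨0,0,1⟩ (.node ⟨-26,42,-51⟩ (.node ⟨-66,-19,18⟩ (.leaf false ⟨⟨-66,-19,18⟩,⟨-26,42,-51⟩,⟨-3,54,46⟩⟩ (1,[(0,1)])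 (1,[(1,1)]) (22,[(2,994),(0,1),(3,1207)])) (.leaf false ⟨⟨-54,30,-35⟩,⟨-10,45,54⟩,⟨45,46,-30⟩⟩ (7,[(2,10),(4,248),(1,5)]) (19,[(2,1836),(4,3160),(0,45)]) (19,[(2,258),(4,2181),(0,46)]))) (.node ⟨45,54,10⟩ (.leaf false ⟨⟨-46,30,45⟩,⟨30,-35,54⟩,⟨45,54,10⟩⟩ (17,[(4,1172),(3,1140),(1,15)]) (138,[(4,497),(0,21),(1,142)]) (1,[(0,1)])) (.leaf false ⟨⟨-51,42,26⟩,⟨-46,-54,-3⟩,⟨18,-19,66⟩⟩ (2035,[(3,332988),(1,1680),(0,3277)]) (2035,[(3,26232),(1,325),(0,2268)]) (2035,[(3,121607),(1,2790),(0,798)])))) (.node ⟨-18,-46,-51⟩ (.node ⟨-66,-3,26⟩ (.leaf false ⟨⟨-66,-3,26⟩,⟨-19,54,-42⟩,⟨-18,-46,-51⟩⟩ (1,[(0,1)]) (66,[(2,3266),(0,19),(3,3621)]) (1,[(1,1)])) (.leaf false ⟨⟨-54,-19,-42⟩,⟨-3,66,-26⟩,⟨46,-18,-51⟩⟩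 (17,[(1,14),(4,666),(3,321)]) (1,[(4,69),(3,63),(0,1)]) (1917,[(1,1085),(3,10508),(0,1632)]))) (.node ⟨-66,-3,-26⟩ (.leaf false ⟨⟨-66,-3,-26⟩,⟨-19,54,42⟩,⟨18,46,-51⟩⟩ (1,[(0,1)]) (42,[(2,161),(0,26),(1,51)]) (1,[(2,102),(1,1)])) (.leaf false ⟨⟨-54,30,-35⟩,⟨-10,45,54⟩,⟨45,46,-30⟩⟩ (1,[(2,295),(4,714),(0,10)]) (1,[(2,336),(4,1000),(0,15)]) (3,[(2,1286),(4,2901),(0,46)]))))) (.node ⟨0,0,1⟩ (.node ⟨-18,-51,-46⟩ (.node ⟨-66,26,-3⟩ (.leaf false ⟨⟨-66,26,-3⟩,⟨-19,-42,54⟩,⟨-18,-51,-46⟩⟩ (1,[(0,1)]) (66,[(2,3621),(0,19),(3,3266)]) (1,[(1,1)])) (.leaf false ⟨⟨-54,-42,-19⟩,⟨-3,-26,66⟩,⟨46,-51,-18⟩⟩ (17,[(2,321),(4,666),(1,14)]) (1,[(2,63),(4,69),(0,1)]) (1917,[(2,10508),(1,1085),(0,1632)])))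 (.node ⟨-66,-26,-3⟩ (.leaf false ⟨⟨-66,-26,-3⟩,⟨-19,42,54⟩,⟨18,-51,46⟩⟩ (1,[(0,1)]) (42,[(0,26),(3,161),(1,51)]) (1,[(3,102),(1,1)])) (.leaf false ⟨⟨-54,-35,30⟩,⟨-10,54,45⟩,⟨45,-30,46⟩⟩ (1,[(4,714),(3,295),(0,10)]) (1,[(4,1000),(3,336),(0,15)]) (3,[(4,2901),(3,1286),(0,46)])))) (.leaf false ⟨⟨-71,0,0⟩,⟨0,-71,0⟩,⟨0,0,-71⟩⟩ (1,[(2,71)]) (1,[(1,71)]) (1,[(0,71)]))))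
theorem h71_ok : h71.check (ok 71 4 ⟨3, 3, 3⟩) (fun _ r => r) [] = true := by decide +kernel

def h73 : T := .node ⟨1,0,0⟩ (.node ⟨0,1,0⟩ (.node ⟨0,0,1⟩ (.leaf false ⟨⟨0,0,73⟩,⟨0,73,0⟩,⟨73,0,0⟩⟩ (1,[(0,73)]) (1,[(1,73)]) (1,[(2,73)])) (.node ⟨-12,12,-71⟩ (.node ⟨1,72,12⟩ (.leaf false ⟨⟨-12,12,-71⟩,⟨1,72,12⟩,⟨72,1,-12⟩⟩ (1,[(1,1)]) (1,[(0,1)]) (12,[(2,73),(4,876),(1,1)])) (.leaf false ⟨⟨0,-55,-48⟩,⟨0,48,-55⟩,⟨73,0,0⟩⟩ (1,[(4,4),(3,233),(0,4)]) (71,[(4,660),(3,2748),(1,55)]) (1,[(4,73)]))) (.leaf false ⟨⟨1,72,-12⟩,⟨12,-12,-71⟩,⟨72,1,12⟩⟩ (12,[(1,215),(0,1),(2,876)]) (1,[(1,142),(0,1)]) (1,[(1,414),(0,6),(2,73)])))) (.node ⟨0,0,1⟩ (.node ⟨-12,-71,12⟩ (.node ⟨1,12,72⟩ (.leaf false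 ⟨⟨-12,-71,12⟩,⟨1,12,72⟩,⟨72,-12,1⟩⟩ (1,[(1,1)]) (1,[(0,1)]) (12,[(4,876),(3,73),(1,1)])) (.leaf false ⟨⟨0,-55,48⟩,⟨0,-48,-55⟩,⟨73,0,0⟩⟩ (71,[(2,2748),(4,660),(1,55)]) (1,[(2,233),(4,4),(0,4)]) (1,[(4,73)]))) (.leaf false ⟨⟨1,-12,72⟩,⟨12,-71,-12⟩,⟨72,12,1⟩⟩ (12,[(1,876),(0,1),(2,215)]) (1,[(0,1),(2,142)]) (1,[(1,73),(0,6),(2,414)]))) (.node ⟨0,48,-55⟩ (.leaf false ⟨⟨0,-55,-48⟩,⟨0,48,-55⟩,⟨73,0,0⟩⟩ (55,[(0,48),(2,5329)]) (1,[(0,1)]) (1,[(3,73)])) (.leaf false ⟨⟨0,-55,48⟩,⟨0,-48,-55⟩,⟨73,0,0⟩⟩ (48,[(1,721),(0,55)]) (1,[(1,110),(0,1)]) (1,[(3,73)]))))) (.node ⟨0,1,0⟩ (.node ⟨0,0,1⟩ (.node ⟨-71,-12,12⟩ (.node ⟨12,1,72⟩ (.leaf false ⟨⟨-71,-12,12⟩,⟨-12,72,1⟩,⟨12,1,72⟩⟩ (1,[(1,1)])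 (12,[(1,1),(4,73),(3,876)]) (1,[(0,1)])) (.leaf false ⟨⟨-55,0,48⟩,⟨-48,0,-55⟩,⟨0,73,0⟩⟩ (71,[(2,2748),(1,55),(3,660)]) (1,[(2,233),(0,4),(3,4)]) (1,[(3,73)]))) (.leaf false ⟨⟨-71,12,-12⟩,⟨-12,1,72⟩,⟨12,72,1⟩⟩ (1,[(3,142),(0,1)]) (12,[(1,876),(3,215),(0,1)]) (1,[(1,73),(3,414),(0,6)]))) (.node ⟨48,0,-55⟩ (.leaf false ⟨⟨-55,0,-48⟩,⟨0,73,0⟩,⟨48,0,-55⟩⟩ (55,[(3,5329),(0,48)]) (1,[(2,73)]) (1,[(0,1)])) (.leaf false ⟨⟨-55,0,48⟩,⟨-48,0,-55⟩,⟨0,73,0⟩⟩ (48,[(1,721),(0,55)]) (1,[(1,110),(0,1)]) (1,[(2,73)])))) (.node ⟨0,0,1⟩ (.node ⟨48,-55,0⟩ (.leaf false ⟨⟨-55,-48,0⟩,⟨0,0,73⟩,⟨48,-55,0⟩⟩ (55,[(3,5329),(0,48)]) (1,[(1,73)]) (1,[(0,1)])) (.leaf false ⟨⟨-55,48,0⟩,⟨-48,-55,0⟩,⟨0,0,73⟩⟩ (48,[(0,55),(2,721)])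 (1,[(0,1),(2,110)]) (1,[(1,73)]))) (.node ⟨12,-71,12⟩ (.leaf false ⟨⟨-72,-12,1⟩,⟨1,-12,-72⟩,⟨12,-71,12⟩⟩ (71,[(1,73),(3,5256),(0,12)]) (71,[(1,5256),(3,73),(0,12)]) (1,[(0,1)])) (.node ⟨24,-28,-63⟩ (.leaf false ⟨⟨-72,1,-12⟩,⟨1,-72,-12⟩,⟨12,12,-71⟩⟩ (1,[(1,1),(4,60),(3,70)]) (21,[(4,75),(3,1400),(0,4)]) (87,[(1,79),(3,2241),(0,83)])) (.leaf false ⟨⟨-71,12,12⟩,⟨-12,-72,1⟩,⟨-12,1,-72⟩⟩ (24,[(2,4185),(0,71),(3,1700)]) (2,[(2,61),(0,1),(3,172)]) (1,[(2,60),(1,1),(3,70)]))))))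
theorem h73_ok : h73.check (ok 73 4 ⟨3, 3, 3⟩) (fun _ r => r) [] = true := by decide +kernel

def h75 : T := .node ⟨1,0,0⟩ (.node ⟨0,1,0⟩ (.node ⟨0,0,1⟩ (.node ⟨-48,36,45⟩ (.node ⟨36,-27,60⟩ (.leaf false ⟨⟨-48,36,45⟩,⟨36,-27,60⟩,⟨45,60,0⟩⟩ (1,[(1,1)]) (1,[(0,1)]) (1,[(4,45),(3,60)])) (.leaf false ⟨⟨-50,50,25⟩,⟨25,50,-50⟩,⟨50,25,50⟩⟩ (27,[(2,3675),(4,450),(0,50)]) (27,[(2,1650),(4,2475),(0,50)]) (27,[(2,2850),(4,2250),(0,25)]))) (.node ⟨45,36,-48⟩ (.leaf false ⟨⟨0,60,45⟩,⟨45,36,-48⟩,⟨60,-27,36⟩⟩ (1,[(2,45),(3,60)]) (1,[(0,1)]) (4,[(2,369),(1,5),(3,72)])) (.leaf false ⟨⟨-36,-27,60⟩,⟨45,-60,0⟩,⟨48,36,45⟩⟩ (31,[(1,108),(3,8091),(0,140)]) (31,[(1,240),(3,14880),(0,225)]) (31,[(1,481),(3,35712),(0,480)]))))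 (.node ⟨-36,60,-27⟩ (.node ⟨48,45,36⟩ (.leaf false ⟨⟨-36,60,-27⟩,⟨45,0,-60⟩,⟨48,45,36⟩⟩ (1,[(1,1)]) (1,[(2,60),(4,45)]) (1,[(0,1)])) (.leaf false ⟨⟨-50,25,-50⟩,⟨38,-34,-55⟩,⟨41,62,-10⟩⟩ (18,[(4,300),(3,1575),(0,25)]) (36,[(4,4008),(3,1251),(0,55)]) (18,[(4,978),(3,1341),(0,5)]))) (.leaf false ⟨⟨0,0,-75⟩,⟨45,-60,0⟩,⟨60,45,0⟩⟩ (1,[(1,75)]) (4,[(1,135),(0,5),(2,60)]) (3,[(1,135),(0,5),(2,435)])))) (.node ⟨0,0,1⟩ (.node ⟨-36,-27,60⟩ (.node ⟨48,36,45⟩ (.leaf false ⟨⟨-36,-27,60⟩,⟨45,-60,0⟩,⟨48,36,45⟩⟩ (1,[(1,1)]) (1,[(4,45),(3,60)]) (1,[(0,1)])) (.leaf false ⟨⟨-50,-50,25⟩,⟨38,-55,-34⟩,⟨41,-10,62⟩⟩ (18,[(2,1575),(4,300),(0,25)]) (36,[(2,1251),(4,4008),(0,55)]) (18,[(2,1341),(4,978),(0,5)])))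 (.leaf false ⟨⟨0,-75,0⟩,⟨45,0,-60⟩,⟨60,0,45⟩⟩ (1,[(2,75)]) (4,[(1,60),(0,5),(2,135)]) (3,[(1,435),(0,5),(2,135)]))) (.node ⟨72,0,21⟩ (.leaf false ⟨⟨0,-75,0⟩,⟨21,0,-72⟩,⟨72,0,21⟩⟩ (1,[(2,75)]) (24,[(1,1875),(0,7)]) (1,[(0,1)])) (.node ⟨46,22,-55⟩ (.leaf false ⟨⟨-70,-7,-26⟩,⟨10,-74,-7⟩,⟨25,10,-70⟩⟩ (21,[(4,402),(3,147),(1,26)]) (3,[(4,102),(3,222),(1,1)]) (77,[(4,12195),(1,165),(0,35)])) (.leaf false ⟨⟨-71,-22,-10⟩,⟨10,-55,50⟩,⟨22,-46,-55⟩⟩ (21,[(4,4155),(0,21),(1,65)]) (6,[(4,2550),(0,15),(1,25)]) (231,[(4,161940),(0,483),(1,1870)])))))) (.node ⟨0,1,0⟩ (.node ⟨0,0,1⟩ (.node ⟨-7,70,-26⟩ (.node ⟨-74,-10,-7⟩ (.leaf false ⟨⟨-74,-10,-7⟩,⟨-10,25,70⟩,⟨-7,70,-26⟩⟩ (1,[(0,1)]) (37,[(2,2625),(0,5),(3,975)])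 (1,[(1,1)])) (.leaf false ⟨⟨-23,70,-14⟩,⟨-14,10,73⟩,⟨70,25,10⟩⟩ (1,[(2,12),(4,16),(1,1)]) (1,[(2,66),(4,88),(0,1)]) (10,[(4,625),(1,1),(0,18)]))) (.leaf false ⟨⟨-75,0,0⟩,⟨0,-60,45⟩,⟨0,45,60⟩⟩ (1,[(3,75)]) (26,[(3,315),(2,1590),(0,45)]) (13,[(3,210),(2,2685),(0,30)]))) (.node ⟨0,72,21⟩ (.leaf false ⟨⟨-75,0,0⟩,⟨0,21,-72⟩,⟨0,72,21⟩⟩ (1,[(3,75)]) (24,[(1,1875),(0,7)]) (1,[(0,1)])) (.node ⟨22,46,-55⟩ (.leaf false ⟨⟨-74,10,-7⟩,⟨-7,-70,-26⟩,⟨10,25,-70⟩⟩ (3,[(1,1),(4,222),(3,102)]) (21,[(1,26),(4,147),(3,402)]) (77,[(1,165),(3,12195),(0,35)])) (.leaf false ⟨⟨-71,10,22⟩,⟨-22,-55,-46⟩,⟨-10,50,-55⟩⟩ (462,[(1,3421),(0,1491),(3,319518)]) (21,[(1,101),(0,21),(3,7083)]) (231,[(1,880),(0,105),(3,79740)])))))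 (.node ⟨0,0,1⟩ (.node ⟨0,21,72⟩ (.leaf false ⟨⟨-75,0,0⟩,⟨0,-72,21⟩,⟨0,21,72⟩⟩ (1,[(3,75)]) (24,[(0,7),(2,1875)]) (1,[(0,1)])) (.node ⟨22,-55,46⟩ (.leaf false ⟨⟨-74,-7,10⟩,⟨-7,-26,-70⟩,⟨10,-70,25⟩⟩ (3,[(2,102),(4,222),(1,1)]) (21,[(2,402),(4,147),(1,26)]) (77,[(2,12195),(1,165),(0,35)])) (.leaf false ⟨⟨-71,22,10⟩,⟨-22,-46,-55⟩,⟨-10,-55,50⟩⟩ (462,[(2,319518),(0,1491),(1,3421)]) (21,[(2,7083),(0,21),(1,101)]) (231,[(2,79740),(0,105),(1,880)])))) (.leaf false ⟨⟨-75,0,0⟩,⟨0,-75,0⟩,⟨0,0,-75⟩⟩ (1,[(2,75)]) (1,[(1,75)]) (1,[(0,75)]))))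
theorem h75_ok : h75.check (ok 75 4 ⟨3, 3, 3⟩) (fun _ r => r) [] = true := by decide +kernel

def h77 : T := .node ⟨1,0,0⟩ (.node ⟨0,1,0⟩ (.node ⟨0,0,1⟩ (.leaf false ⟨⟨0,0,77⟩,⟨0,77,0⟩,⟨77,0,0⟩⟩ (1,[(0,77)]) (1,[(1,77)]) (1,[(2,77)])) (.node ⟨-40,60,-27⟩ (.node ⟨45,48,40⟩ (.leaf false ⟨⟨-40,60,-27⟩,⟨45,48,40⟩,⟨48,5,-60⟩⟩ (1,[(1,1)]) (1,[(0,1)]) (12,[(2,693),(4,616),(1,1)])) (.leaf false ⟨⟨-48,5,-60⟩,⟨40,60,-27⟩,⟨45,-48,-40⟩⟩ (2,[(4,39),(3,154),(0,3)]) (1,[(4,80),(1,1)]) (1,[(4,90),(0,1)]))) (.node ⟨48,45,40⟩ (.leaf false ⟨⟨5,48,-60⟩,⟨48,45,40⟩,⟨60,-40,-27⟩⟩ (8,[(2,507),(1,1),(3,444)]) (1,[(0,1)]) (2,[(2,135),(1,3),(3,100)])) (.leaf false ⟨⟨-51,32,-48⟩,⟨32,69,12⟩,⟨48,-12,-59⟩⟩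 (304,[(1,264),(3,50003),(0,543)]) (19,[(1,44),(3,5031),(0,24)]) (38,[(1,594),(3,55749),(0,457)]))))) (.node ⟨0,0,1⟩ (.node ⟨-40,-27,60⟩ (.node ⟨45,40,48⟩ (.leaf false ⟨⟨-40,-27,60⟩,⟨45,40,48⟩,⟨48,-60,5⟩⟩ (1,[(1,1)]) (1,[(0,1)]) (12,[(4,616),(3,693),(1,1)])) (.leaf false ⟨⟨-48,-60,5⟩,⟨40,-27,60⟩,⟨45,-40,-48⟩⟩ (2,[(2,154),(4,39),(0,3)]) (1,[(4,80),(1,1)]) (1,[(4,90),(0,1)]))) (.node ⟨48,40,45⟩ (.leaf false ⟨⟨5,-60,48⟩,⟨48,40,45⟩,⟨60,-27,-40⟩⟩ (8,[(2,444),(1,1),(3,507)]) (1,[(0,1)]) (2,[(2,100),(1,3),(3,135)])) (.leaf false ⟨⟨-51,-48,32⟩,⟨32,12,69⟩,⟨48,-59,-12⟩⟩ (304,[(2,50003),(1,264),(0,543)]) (19,[(2,5031),(1,44),(0,24)]) (38,[(2,55749),(1,594),(0,457)])))) (.node ⟨-42,-63,-14⟩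 (.node ⟨49,42,-42⟩ (.node ⟨-42,-14,-63⟩ (.leaf false ⟨⟨-42,-14,-63⟩,⟨42,-63,-14⟩,⟨49,42,-42⟩⟩ (1,[(0,1)]) (1,[(5,84),(2,1)]) (1,[(1,1)])) (.leaf false ⟨⟨-42,-63,-14⟩,⟨42,-14,-63⟩,⟨49,-42,42⟩⟩ (1,[(2,1)]) (49,[(1,84),(0,23),(2,72)]) (7,[(1,7),(0,12),(2,12)]))) (.leaf false ⟨⟨-42,-63,-14⟩,⟨42,-14,-63⟩,⟨49,-42,42⟩⟩ (2,[(2,154),(4,63),(0,3)]) (3,[(2,231),(4,175),(0,1)]) (1,[(4,98),(0,1)]))) (.node ⟨66,22,33⟩ (.leaf false ⟨⟨12,-59,-48⟩,⟨32,48,-51⟩,⟨69,-12,32⟩⟩ (7,[(2,364),(1,2),(3,539)]) (21,[(2,1295),(1,16)]) (22,[(2,55),(0,23),(3,770)])) (.leaf false ⟨⟨-59,-12,-48⟩,⟨12,69,-32⟩,⟨48,-32,-51⟩⟩ (462,[(1,1221),(3,56287),(0,1190)]) (77,[(1,418),(3,15477),(0,252)]) (77,[(1,825),(3,44121),(0,469)]))))))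 (.node ⟨0,1,0⟩ (.node ⟨0,0,1⟩ (.node ⟨-27,60,-40⟩ (.node ⟨40,48,45⟩ (.leaf false ⟨⟨-60,5,48⟩,⟨-27,60,-40⟩,⟨40,48,45⟩⟩ (12,[(2,616),(4,693),(1,1)]) (1,[(1,1)]) (1,[(0,1)])) (.leaf false ⟨⟨-67,-36,-12⟩,⟨-36,68,-3⟩,⟨-12,-3,76⟩⟩ (40,[(2,2535),(0,67),(3,1776)]) (10,[(2,375),(0,9),(3,1112)]) (10,[(2,895),(0,3),(3,114)]))) (.node ⟨40,45,48⟩ (.leaf false ⟨⟨-60,48,5⟩,⟨-27,-40,60⟩,⟨40,45,48⟩⟩ (8,[(4,507),(3,444),(1,1)]) (2,[(4,135),(3,100),(1,3)]) (1,[(0,1)])) (.leaf false ⟨⟨-72,24,13⟩,⟨-27,-68,-24⟩,⟨4,-27,72⟩⟩ (304,[(3,391251),(1,3976),(0,3231)]) (19,[(3,1183),(1,21),(0,27)]) (38,[(3,29169),(1,336),(0,223)])))) (.node ⟨-72,-27,-4⟩ (.node ⟨24,13,-72⟩ (.node ⟨-27,72,4⟩ (.leaf false ⟨⟨-68,-24,-27⟩,⟨-27,72,4⟩,⟨24,13,-72⟩⟩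 (60,[(2,63),(4,14),(1,19)]) (1,[(0,1)]) (1,[(1,1)])) (.leaf false ⟨⟨-76,-12,-3⟩,⟨-3,36,-68⟩,⟨12,-67,-36⟩⟩ (4,[(5,385),(4,168),(0,3)]) (1,[(5,462),(4,1260),(0,17)]) (1,[(5,231),(4,581),(0,9)]))) (.leaf false ⟨⟨-68,-27,24⟩,⟨-27,4,-72⟩,⟨-24,72,13⟩⟩ (6,[(2,1080),(0,17),(3,59)]) (8,[(2,1224),(0,9),(3,149)]) (1,[(2,59),(0,1),(3,85)]))) (.node ⟨22,66,33⟩ (.leaf false ⟨⟨-66,33,-22⟩,⟨22,66,33⟩,⟨33,22,-66⟩⟩ (2,[(2,77),(4,154),(0,1)]) (1,[(0,1)]) (27,[(2,1870),(4,693),(1,22)])) (.leaf false ⟨⟨-72,4,-27⟩,⟨13,72,-24⟩,⟨24,-27,-68⟩⟩ (627,[(4,166562),(1,1914),(0,745)]) (209,[(4,85459),(1,1320),(0,312)]) (209,[(4,68640),(1,1199),(0,576)]))))) (.node ⟨0,0,1⟩ (.node ⟨-72,-4,-27⟩ (.node ⟨24,-72,13⟩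 (.node ⟨-27,4,72⟩ (.leaf false ⟨⟨-68,-27,-24⟩,⟨-27,4,72⟩,⟨24,-72,13⟩⟩ (60,[(3,14),(2,63),(1,19)]) (1,[(0,1)]) (1,[(1,1)])) (.leaf false ⟨⟨-76,-3,-12⟩,⟨-3,-68,36⟩,⟨12,-36,-67⟩⟩ (4,[(3,168),(5,385),(0,3)]) (1,[(3,1260),(5,462),(0,17)]) (1,[(3,581),(5,231),(0,9)]))) (.leaf false ⟨⟨-68,24,-27⟩,⟨-27,-72,4⟩,⟨-24,13,72⟩⟩ (6,[(2,59),(0,17),(3,1080)]) (8,[(2,149),(0,9),(3,1224)]) (1,[(2,85),(0,1),(3,59)]))) (.node ⟨22,33,66⟩ (.leaf false ⟨⟨-66,-22,33⟩,⟨22,33,66⟩,⟨33,-66,22⟩⟩ (2,[(4,154),(3,77),(0,1)]) (1,[(0,1)]) (27,[(4,693),(3,1870),(1,22)])) (.leaf false ⟨⟨-72,-27,4⟩,⟨13,-24,72⟩,⟨24,-68,-27⟩⟩ (627,[(4,166562),(0,745),(1,1914)]) (209,[(4,85459),(0,312),(1,1320)]) (209,[(4,68640),(0,576),(1,1199)]))))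 (.node ⟨-12,36,-67⟩ (.node ⟨-68,36,-3⟩ (.node ⟨12,-3,-76⟩ (.leaf false ⟨⟨-67,36,-12⟩,⟨-36,-68,-3⟩,⟨12,-3,-76⟩⟩ (64,[(2,9),(1,55),(5,440)]) (67,[(2,3),(5,2376),(4,4664)]) (1,[(0,1)])) (.leaf false ⟨⟨-76,-3,12⟩,⟨-12,36,-67⟩,⟨-3,-68,-36⟩⟩ (3,[(3,1408),(0,19),(4,66)]) (1,[(2,1)]) (4,[(3,220),(0,1),(4,275)]))) (.leaf false ⟨⟨-68,-36,-3⟩,⟨-3,12,-76⟩,⟨36,-67,-12⟩⟩ (32,[(1,3),(4,4520),(0,35)]) (192,[(1,225),(4,8824),(0,161)]) (2304,[(1,633),(4,244088),(0,4921)]))) (.leaf false ⟨⟨-76,-3,-12⟩,⟨-3,-68,36⟩,⟨12,-36,-67⟩⟩ (12,[(1,211),(3,924),(0,1)]) (9,[(1,815),(3,231),(0,17)]) (1,[(1,134),(0,1)])))))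
theorem h77_ok : h77.check (ok 77 4 ⟨3, 3, 3⟩) (fun _ r => r) [] = true := by decide +kernel


end H34S
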