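import Pool.Agent.Lib.H34S.Cover

/-!
# H34S: certificates (generated), hexagonal numbers
-/

set_option autoImplicit false

namespace H34S

def h691 : T := .node ⟨1,0,0⟩ (.node ⟨0,1,0⟩ (.node ⟨0,0,1⟩ (.node ⟨-258,209,606⟩ (.node ⟨210,630,-191⟩ (.node ⟨630,-191,210⟩ (.leaf false ⟨⟨-191,210,630⟩,⟨210,641,-150⟩,⟨630,-150,241⟩⟩ (209,[(3,4410),(5,14261),(2,210)]) (1,[(3,41),(1,1),(4,11)]) (1,[(3,31),(0,1),(4,41)])) (.leaf false ⟨⟨-650,234,-15⟩,⟨66,225,650⟩,⟨225,610,-234⟩⟩ (191,[(3,46275),(5,23270),(0,234)]) (191,[(3,171400),(5,154356),(0,225)]) (191,[(3,83406),(5,427275),(0,610)]))) (.leaf false ⟨⟨-510,-34,465⟩,⟨-15,690,34⟩,⟨466,-15,510⟩⟩ (191,[(4,240),(3,286456),(0,465)]) (191,[(4,4275),(3,153210),(0,34)]) (191,[(4,196106),(3,318435),(0,510)]))) (.leaf false ⟨⟨34,690,-15⟩,⟨465,-34,-510⟩,⟨510,-15,466⟩⟩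 (129,[(1,8367),(0,17),(2,92563)]) (86,[(1,50070),(0,155),(2,29471)]) (43,[(1,71548),(0,85),(2,17120)]))) (.node ⟨561,214,342⟩ (.node ⟨-270,465,-434⟩ (.node ⟨434,-210,-495⟩ (.leaf false ⟨⟨-270,465,-434⟩,⟨434,-210,-495⟩,⟨465,466,210⟩⟩ (1,[(1,1)]) (1,[(0,1)]) (57,[(5,6870),(2,35),(4,19072)])) (.leaf false ⟨⟨-606,322,81⟩,⟨-63,54,-686⟩,⟨326,609,18⟩⟩ (15,[(3,10170),(5,892),(0,23)]) (35,[(3,28465),(5,1701),(0,9)]) (10,[(3,14175),(5,15846),(0,29)]))) (.leaf false ⟨⟨6,358,-591⟩,⟨214,561,342⟩,⟨657,-186,-106⟩⟩ (45,[(2,27029),(0,1),(3,16575)]) (135,[(2,268),(0,107),(3,125490)]) (30,[(2,34862),(0,73),(3,28365)]))) (.leaf false ⟨⟨-538,81,-426⟩,⟨129,678,-34⟩,⟨414,-106,-543⟩⟩ (57,[(3,9165),(2,19811),(0,71)]) (171,[(3,31596),(2,119576),(0,17)]) (114,[(3,148737),(2,26650),(0,181)]))))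 (.node ⟨0,0,1⟩ (.node ⟨561,342,214⟩ (.node ⟨-270,-434,465⟩ (.node ⟨434,-495,-210⟩ (.leaf false ⟨⟨-270,-434,465⟩,⟨434,-495,-210⟩,⟨465,210,466⟩⟩ (1,[(1,1)]) (1,[(0,1)]) (57,[(3,19072),(2,35),(5,6870)])) (.leaf false ⟨⟨-606,-63,326⟩,⟨81,-686,18⟩,⟨322,54,609⟩⟩ (105,[(5,7112),(4,87300),(0,163)]) (35,[(5,4137),(4,25495),(0,3)]) (10,[(5,15806),(4,13815),(0,29)]))) (.leaf false ⟨⟨6,-591,358⟩,⟨214,342,561⟩,⟨657,-106,-186⟩⟩ (45,[(2,16575),(0,1),(3,27029)]) (135,[(2,125490),(0,107),(3,268)]) (30,[(2,28365),(0,73),(3,34862)]))) (.leaf false ⟨⟨-538,-426,81⟩,⟨129,-34,678⟩,⟨414,-543,-106⟩⟩ (57,[(1,19811),(3,9165),(0,71)]) (171,[(1,119576),(3,31596),(0,17)]) (114,[(1,26650),(3,148737),(0,181)]))) (.node ⟨-111,-678,-74⟩ (.node ⟨-111,74,-678⟩ (.leaf false ⟨⟨-111,-678,-74⟩,⟨6,74,-687⟩,⟨682,-111,-6⟩⟩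 (1,[(1,1)]) (226,[(4,26775),(3,222),(0,229)]) (37,[(4,25567),(3,2073),(1,3)])) (.leaf false ⟨⟨-66,-687,-34⟩,⟨398,-66,561⟩,⟨561,-34,-402⟩⟩ (27824,[(2,6065572),(0,10503),(1,27047)]) (37,[(2,1617),(4,11063),(0,33)]) (37,[(2,26400),(4,18870),(0,17)]))) (.leaf false ⟨⟨6,-654,-223⟩,⟨258,209,-606⟩,⟨641,-78,246⟩⟩ (37,[(1,8399),(0,2),(2,25554)]) (37,[(1,28786),(0,86),(2,50575)]) (111,[(1,20128),(0,641),(2,443256)]))))) (.node ⟨0,1,0⟩ (.node ⟨0,0,1⟩ (.node ⟨342,214,561⟩ (.node ⟨-434,465,-270⟩ (.node ⟨-495,-210,434⟩ (.leaf false ⟨⟨-495,-210,434⟩,⟨-434,465,-270⟩,⟨210,466,465⟩⟩ (1,[(0,1)]) (1,[(1,1)]) (57,[(3,6870),(4,19072),(2,35)])) (.leaf false ⟨⟨-687,34,-66⟩,⟨-34,402,561⟩,⟨66,561,-398⟩⟩ (105,[(3,448),(5,80550),(0,17)]) (35,[(3,48713),(5,34355),(0,67)]) (70,[(3,53298),(5,87945),(0,187)])))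 (.leaf false ⟨⟨-687,34,66⟩,⟨34,-402,561⟩,⟨66,561,398⟩⟩ (45,[(4,35689),(3,6645),(0,11)]) (90,[(4,78098),(3,50775),(0,187)]) (135,[(4,77456),(3,168270),(0,199)]))) (.leaf false ⟨⟨-594,-351,-38⟩,⟨-286,522,-351⟩,⟨-207,286,594⟩⟩ (19,[(1,17791),(0,33),(2,393)]) (171,[(1,20202),(0,143),(2,119864)]) (38,[(1,35475),(0,23),(2,15790)]))) (.node ⟨-74,-111,-678⟩ (.node ⟨-678,-111,74⟩ (.leaf false ⟨⟨-687,6,74⟩,⟨-74,-111,-678⟩,⟨-6,682,-111⟩⟩ (226,[(2,222),(0,229),(3,26775)]) (1,[(1,1)]) (37,[(2,2073),(1,3),(3,25567)])) (.leaf false ⟨⟨-402,561,-34⟩,⟨-34,-66,-687⟩,⟨561,398,-66⟩⟩ (37,[(4,26400),(3,18870),(0,17)]) (27824,[(1,27047),(4,6065572),(0,10503)]) (37,[(4,1617),(3,11063),(0,33)]))) (.leaf false ⟨⟨-687,34,-66⟩,⟨-34,402,561⟩,⟨66,561,-398⟩⟩ (111,[(1,30378),(3,78773),(0,34)]) (37,[(1,70095),(3,11174),(0,134)])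 (37,[(1,141512),(3,11396),(0,187)])))) (.node ⟨0,0,1⟩ (.node ⟨-74,-678,-111⟩ (.node ⟨-678,74,-111⟩ (.leaf false ⟨⟨-687,74,6⟩,⟨-74,-678,-111⟩,⟨-6,-111,682⟩⟩ (226,[(2,26775),(0,229),(3,222)]) (1,[(1,1)]) (37,[(2,25567),(1,3),(3,2073)])) (.leaf false ⟨⟨-402,-34,561⟩,⟨-34,-687,-66⟩,⟨561,-66,398⟩⟩ (37,[(2,18870),(4,26400),(0,17)]) (27824,[(4,6065572),(1,27047),(0,10503)]) (37,[(2,11063),(4,1617),(0,33)]))) (.leaf false ⟨⟨-687,-66,34⟩,⟨-34,561,402⟩,⟨66,-398,561⟩⟩ (111,[(3,78773),(2,30378),(0,34)]) (37,[(3,11174),(2,70095),(0,134)]) (37,[(3,11396),(2,141512),(0,187)]))) (.leaf false ⟨⟨-691,0,0⟩,⟨0,-691,0⟩,⟨0,0,-691⟩⟩ (1,[(2,691)]) (1,[(1,691)]) (1,[(0,691)]))))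
theorem h691_ok : h691.check (ok 691 4 ⟨3, 3, 3⟩) (fun _ r => r) [] = true := by decide +kernel

def h697 : T := .node ⟨1,0,0⟩ (.node ⟨0,1,0⟩ (.node ⟨0,0,1⟩ (.leaf false ⟨⟨0,0,697⟩,⟨0,697,0⟩,⟨697,0,0⟩⟩ (1,[(0,697)]) (1,[(1,697)]) (1,[(2,697)])) (.node ⟨0,680,153⟩ (.leaf false ⟨⟨0,153,-680⟩,⟨0,680,153⟩,⟨697,0,0⟩⟩ (40,[(1,28577),(0,9)]) (1,[(0,1)]) (1,[(3,697)])) (.leaf false ⟨⟨0,-615,-328⟩,⟨0,328,-615⟩,⟨697,0,0⟩⟩ (153,[(0,328),(2,128945)]) (51,[(0,205),(2,156128)]) (1,[(3,697)])))) (.node ⟨0,0,1⟩ (.node ⟨0,153,680⟩ (.leaf false ⟨⟨0,-680,153⟩,⟨0,153,680⟩,⟨697,0,0⟩⟩ (40,[(0,9),(2,28577)]) (1,[(0,1)]) (1,[(3,697)])) (.leaf false ⟨⟨0,-615,328⟩,⟨0,-328,-615⟩,⟨697,0,0⟩⟩ (51,[(1,156128),(0,205)]) (153,[(1,128945),(0,328)]) (1,[(3,697)]))) (.node ⟨0,328,-615⟩ (.leaf false ⟨⟨0,-615,-328⟩,⟨0,328,-615⟩,⟨697,0,0⟩⟩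 (15,[(0,8),(2,11849)]) (1,[(0,1)]) (1,[(3,697)])) (.leaf false ⟨⟨0,-615,328⟩,⟨0,-328,-615⟩,⟨697,0,0⟩⟩ (8,[(1,6601),(0,15)]) (1,[(1,1230),(0,1)]) (1,[(3,697)]))))) (.node ⟨0,1,0⟩ (.node ⟨0,0,1⟩ (.node ⟨153,0,680⟩ (.leaf false ⟨⟨-680,0,153⟩,⟨0,697,0⟩,⟨153,0,680⟩⟩ (40,[(3,28577),(0,9)]) (1,[(2,697)]) (1,[(0,1)])) (.leaf false ⟨⟨-615,0,328⟩,⟨-328,0,-615⟩,⟨0,697,0⟩⟩ (51,[(1,156128),(0,205)]) (153,[(1,128945),(0,328)]) (1,[(2,697)]))) (.node ⟨328,0,-615⟩ (.leaf false ⟨⟨-615,0,-328⟩,⟨0,697,0⟩,⟨328,0,-615⟩⟩ (15,[(3,11849),(0,8)]) (1,[(2,697)]) (1,[(0,1)])) (.leaf false ⟨⟨-615,0,328⟩,⟨-328,0,-615⟩,⟨0,697,0⟩⟩ (8,[(1,6601),(0,15)]) (1,[(1,1230),(0,1)]) (1,[(2,697)])))) (.node ⟨0,0,1⟩ (.node ⟨328,-615,0⟩ (.leaf false ⟨⟨-615,-328,0⟩,⟨0,0,697⟩,⟨328,-615,0⟩⟩ (15,[(3,11849),(0,8)])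 (1,[(1,697)]) (1,[(0,1)])) (.leaf false ⟨⟨-615,328,0⟩,⟨-328,-615,0⟩,⟨0,0,697⟩⟩ (8,[(0,15),(2,6601)]) (1,[(0,1),(2,1230)]) (1,[(1,697)]))) (.node ⟨-135,328,-600⟩ (.node ⟨-663,-148,156⟩ (.node ⟨68,-624,-303⟩ (.leaf false ⟨⟨-663,-148,156⟩,⟨-204,273,-608⟩,⟨68,-624,-303⟩⟩ (1,[(1,1)]) (75,[(2,76),(5,5040),(4,4453)]) (1,[(0,1)])) (.leaf false ⟨⟨-687,-112,36⟩,⟨-96,657,212⟩,⟨-68,204,-663⟩⟩ (68,[(3,205713),(0,687),(4,436304)]) (17,[(3,3668),(0,24),(4,3807)]) (1,[(3,966),(0,1),(4,420)]))) (.leaf false ⟨⟨-680,-135,-72⟩,⟨0,328,-615⟩,⟨153,-600,-320⟩⟩ (13,[(4,12818),(3,2643),(0,6)]) (52,[(4,135915),(3,13284),(0,205)]) (39,[(4,47073),(3,35240),(0,80)]))) (.leaf false ⟨⟨-684,-132,-23⟩,⟨72,-463,516⟩,⟨113,-504,-468⟩⟩ (82,[(1,21686),(3,60543),(0,33)]) (328,[(1,108552),(3,38889),(0,463)])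 (41,[(1,56988),(3,3872),(0,63)])))))
theorem h697_ok : h697.check (ok 697 4 ⟨3, 3, 3⟩) (fun _ r => r) [] = true := by decide +kernel

def h701 : T := .node ⟨1,0,0⟩ (.node ⟨0,1,0⟩ (.node ⟨0,0,1⟩ (.leaf false ⟨⟨0,0,701⟩,⟨0,701,0⟩,⟨701,0,0⟩⟩ (1,[(0,701)]) (1,[(1,701)]) (1,[(2,701)])) (.node ⟨672,64,189⟩ (.node ⟨-64,672,189⟩ (.node ⟨-84,181,-672⟩ (.leaf false ⟨⟨-84,181,-672⟩,⟨-64,672,189⟩,⟨693,84,-64⟩⟩ (1,[(0,1)]) (1,[(1,1)]) (8,[(3,701),(5,5608),(1,1)])) (.leaf false ⟨⟨-64,693,-84⟩,⟨189,-64,-672⟩,⟨672,84,181⟩⟩ (11216,[(3,3371109),(0,336),(1,11657)]) (44864,[(3,118194909),(0,122912),(1,28833)]) (2804,[(3,20204923),(0,28560),(1,8043)]))) (.leaf false ⟨⟨21,-152,-684⟩,⟨152,669,-144⟩,⟨684,-144,53⟩⟩ (64,[(2,39807),(0,21),(3,4384)]) (84,[(2,15687),(1,19),(3,54980)]) (3560,[(2,268889),(0,1098),(1,3519)])))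 (.leaf false ⟨⟨-651,0,-260⟩,⟨0,701,0⟩,⟨260,0,-651⟩⟩ (189,[(3,51681),(2,16640),(0,260)]) (1,[(2,701)]) (9,[(3,23172),(2,1984),(0,31)])))) (.node ⟨0,0,1⟩ (.node ⟨672,189,64⟩ (.node ⟨-64,189,672⟩ (.node ⟨-84,-672,181⟩ (.leaf false ⟨⟨-84,-672,181⟩,⟨-64,189,672⟩,⟨693,-64,84⟩⟩ (1,[(0,1)]) (1,[(1,1)]) (8,[(5,5608),(4,701),(1,1)])) (.leaf false ⟨⟨-64,-84,693⟩,⟨189,-672,-64⟩,⟨672,181,84⟩⟩ (11216,[(4,3371109),(1,11657),(0,336)]) (44864,[(4,118194909),(1,28833),(0,122912)]) (2804,[(4,20204923),(1,8043),(0,28560)]))) (.leaf false ⟨⟨21,-684,-152⟩,⟨152,-144,669⟩,⟨684,53,-144⟩⟩ (64,[(2,4384),(0,21),(3,39807)]) (84,[(2,54980),(1,19),(3,15687)]) (3560,[(1,3519),(0,1098),(3,268889)]))) (.leaf false ⟨⟨-651,-260,0⟩,⟨0,0,701⟩,⟨260,-651,0⟩⟩ (189,[(1,16640),(3,51681),(0,260)]) (1,[(1,701)])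 (9,[(1,1984),(3,23172),(0,31)]))) (.node ⟨0,260,-651⟩ (.leaf false ⟨⟨0,-651,-260⟩,⟨0,260,-651⟩,⟨701,0,0⟩⟩ (651,[(0,260),(2,491401)]) (1,[(0,1)]) (1,[(3,701)])) (.leaf false ⟨⟨0,-651,260⟩,⟨0,-260,-651⟩,⟨701,0,0⟩⟩ (260,[(1,356201),(0,651)]) (1,[(1,1302),(0,1)]) (1,[(3,701)]))))) (.node ⟨0,1,0⟩ (.node ⟨0,0,1⟩ (.node ⟨189,64,672⟩ (.node ⟨189,672,-64⟩ (.node ⟨-672,181,-84⟩ (.leaf false ⟨⟨-672,181,-84⟩,⟨-64,84,693⟩,⟨189,672,-64⟩⟩ (1,[(0,1)]) (8,[(3,5608),(5,701),(1,1)]) (1,[(1,1)])) (.leaf false ⟨⟨-684,21,152⟩,⟨53,684,144⟩,⟨144,-152,669⟩⟩ (11216,[(5,26441019),(1,7319),(0,25872)]) (701,[(5,1685204),(1,1305),(0,2196)]) (44864,[(5,309584733),(1,108321),(0,439840)]))) (.leaf false ⟨⟨-684,-152,21⟩,⟨-144,669,152⟩,⟨53,-144,684⟩⟩ (64,[(4,39807),(3,4384),(0,21)]) (84,[(4,15687),(3,54980),(1,19)])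 (3560,[(4,268889),(1,3519),(0,1098)]))) (.leaf false ⟨⟨-651,0,260⟩,⟨-260,0,-651⟩,⟨0,701,0⟩⟩ (9,[(1,23172),(0,31),(2,1984)]) (189,[(1,51681),(0,260),(2,16640)]) (1,[(2,701)]))) (.node ⟨260,0,-651⟩ (.leaf false ⟨⟨-651,0,-260⟩,⟨0,701,0⟩,⟨260,0,-651⟩⟩ (651,[(3,491401),(0,260)]) (1,[(2,701)]) (1,[(0,1)])) (.leaf false ⟨⟨-651,0,260⟩,⟨-260,0,-651⟩,⟨0,701,0⟩⟩ (260,[(1,356201),(0,651)]) (1,[(1,1302),(0,1)]) (1,[(2,701)])))) (.node ⟨0,0,1⟩ (.node ⟨260,-651,0⟩ (.leaf false ⟨⟨-651,-260,0⟩,⟨0,0,701⟩,⟨260,-651,0⟩⟩ (651,[(3,491401),(0,260)]) (1,[(1,701)]) (1,[(0,1)])) (.leaf false ⟨⟨-651,260,0⟩,⟨-260,-651,0⟩,⟨0,0,701⟩⟩ (260,[(0,651),(2,356201)]) (1,[(0,1),(2,1302)]) (1,[(1,701)]))) (.node ⟨-72,336,-611⟩ (.node ⟨-676,-144,117⟩ (.node ⟨72,-611,-336⟩ (.leaf false ⟨⟨-676,-144,117⟩,⟨-171,312,-604⟩,⟨72,-611,-336⟩⟩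 (1,[(1,1)]) (14,[(3,513),(2,13),(5,1458)]) (1,[(0,1)])) (.leaf false ⟨⟨-684,-108,109⟩,⟨-147,604,-324⟩,⟨-44,-339,-612⟩⟩ (2,[(3,6166),(0,19),(4,11825)]) (24,[(3,24240),(0,49),(4,15443)]) (18,[(3,14712),(0,11),(4,12823)]))) (.leaf false ⟨⟨-676,-72,-171⟩,⟨117,336,-604⟩,⟨144,-611,-312⟩⟩ (13,[(4,21632),(3,3672),(0,19)]) (117,[(4,394615),(3,47664),(0,604)]) (3,[(4,4976),(3,2985),(0,8)]))) (.leaf false ⟨⟨-684,-44,-147⟩,⟨-108,-339,604⟩,⟨109,-612,-324⟩⟩ (84,[(1,19069),(3,58248),(0,11)]) (112,[(1,1395),(3,20232),(0,113)]) (28,[(1,40233),(3,620),(0,51)])))))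
theorem h701_ok : h701.check (ok 701 4 ⟨3, 3, 3⟩) (fun _ r => r) [] = true := by decide +kernel

def h709 : T := .node ⟨1,0,0⟩ (.node ⟨0,1,0⟩ (.node ⟨0,0,1⟩ (.leaf false ⟨⟨0,0,709⟩,⟨0,709,0⟩,⟨709,0,0⟩⟩ (1,[(0,709)]) (1,[(1,709)]) (1,[(2,709)])) (.node ⟨-259,0,-660⟩ (.leaf false ⟨⟨-259,0,-660⟩,⟨0,709,0⟩,⟨660,0,-259⟩⟩ (1,[(0,1)]) (1,[(2,709)]) (660,[(3,502681),(0,259)])) (.node ⟨573,-164,-384⟩ (.leaf false ⟨⟨36,573,-416⟩,⟨232,384,549⟩,⟨669,-164,-168⟩⟩ (191,[(2,74848),(0,12),(3,111411)]) (259,[(2,10929),(1,232),(3,99456)]) (259,[(2,7416),(0,259),(1,96)])) (.leaf false ⟨⟨-675,200,84⟩,⟨-20,216,-675⟩,⟨216,645,200⟩⟩ (10619,[(2,4724304),(1,975),(0,12950)]) (10619,[(2,32418969),(1,30122),(0,13986)]) (42476,[(2,322959860),(1,405009),(0,167055)]))))) (.node ⟨0,0,1⟩ (.node ⟨-259,-660,0⟩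 (.leaf false ⟨⟨-259,-660,0⟩,⟨0,0,709⟩,⟨660,-259,0⟩⟩ (1,[(0,1)]) (1,[(1,709)]) (660,[(3,502681),(0,259)])) (.node ⟨573,-384,-164⟩ (.leaf false ⟨⟨36,-416,573⟩,⟨232,549,384⟩,⟨669,-168,-164⟩⟩ (191,[(2,111411),(0,12),(3,74848)]) (259,[(2,99456),(1,232),(3,10929)]) (259,[(1,96),(0,259),(3,7416)])) (.leaf false ⟨⟨-675,-20,216⟩,⟨84,-675,200⟩,⟨200,216,645⟩⟩ (10619,[(1,3267),(3,7739224),(0,13986)]) (10619,[(1,32094),(3,33322665),(0,12950)]) (42476,[(1,402385),(3,320548404),(0,167055)])))) (.node ⟨24,-696,133⟩ (.node ⟨696,24,133⟩ (.node ⟨132,29,-696⟩ (.leaf false ⟨⟨29,-708,-24⟩,⟨132,29,-696⟩,⟨696,24,133⟩⟩ (24,[(3,709),(1,1),(4,17016)]) (1,[(0,1)]) (1,[(1,1)])) (.leaf false ⟨⟨-672,-219,56⟩,⟨124,-504,-483⟩,⟨189,-448,516⟩⟩ (1418,[(3,7930165),(1,785),(0,11358)]) (4254,[(3,65940545),(1,17531),(0,88440)])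 (5672,[(3,73329743),(1,21539),(0,105448)]))) (.leaf false ⟨⟨-216,-20,-675⟩,⟨-200,-675,84⟩,⟨645,-216,-200⟩⟩ (6,[(2,3385),(4,2184),(0,5)]) (1520,[(4,6944),(1,1457),(0,497)]) (29,[(2,6997),(4,18489),(1,9)]))) (.leaf false ⟨⟨-36,-396,-587⟩,⟨-11,588,-396⟩,⟨708,-11,-36⟩⟩ (133,[(3,9300),(2,461220),(0,587)]) (133,[(3,8041),(2,197412),(0,396)]) (133,[(3,95028),(2,26519),(0,36)]))))) (.node ⟨0,1,0⟩ (.node ⟨0,0,1⟩ (.node ⟨-660,-259,0⟩ (.leaf false ⟨⟨-660,-259,0⟩,⟨-259,660,0⟩,⟨0,0,709⟩⟩ (1,[(0,1)]) (660,[(0,259),(2,502681)]) (1,[(1,709)])) (.node ⟨-384,573,-164⟩ (.leaf false ⟨⟨-416,36,573⟩,⟨-168,669,-164⟩,⟨549,232,384⟩⟩ (191,[(2,111411),(4,74848),(0,12)]) (259,[(4,7416),(0,259),(1,96)]) (259,[(2,99456),(4,10929),(1,232)])) (.leaf false ⟨⟨-704,-3,84⟩,⟨48,-596,381⟩,⟨69,384,592⟩⟩ (10619,[(4,17424952),(1,11910),(0,5439)])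 (42476,[(4,115429428),(1,120569),(0,98679)]) (1517,[(4,11478351),(1,14364),(0,5476)])))) (.node ⟨-696,24,133⟩ (.node ⟨24,696,133⟩ (.node ⟨29,132,-696⟩ (.leaf false ⟨⟨-708,29,-24⟩,⟨24,696,133⟩,⟨29,132,-696⟩⟩ (24,[(3,709),(5,17016),(1,1)]) (1,[(1,1)]) (1,[(0,1)])) (.leaf false ⟨⟨-704,-48,69⟩,⟨-84,381,-592⟩,⟨-3,596,384⟩⟩ (709,[(3,14634469),(0,20368),(1,3814)]) (5672,[(3,20024287),(0,22536),(1,7379)]) (2127,[(3,903266),(0,2049),(1,2210)]))) (.leaf false ⟨⟨-700,-75,84⟩,⟨-84,700,-75⟩,⟨-75,-84,-700⟩⟩ (3420,[(0,1237),(1,3397),(3,522924)]) (58,[(2,5281),(1,7),(3,40432)]) (8,[(2,2275),(0,25),(3,16728)]))) (.leaf false ⟨⟨-396,-36,-587⟩,⟨-11,708,-36⟩,⟨588,-11,-396⟩⟩ (133,[(3,461220),(2,9300),(0,587)]) (133,[(3,26519),(2,95028),(0,36)]) (133,[(3,197412),(2,8041),(0,396)])))) (.node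 ⟨0,0,1⟩ (.node ⟨133,-696,24⟩ (.node ⟨133,24,696⟩ (.node ⟨-696,29,132⟩ (.leaf false ⟨⟨-696,29,132⟩,⟨-24,-708,29⟩,⟨133,24,696⟩⟩ (1,[(0,1)]) (24,[(5,709),(4,17016),(1,1)]) (1,[(1,1)])) (.leaf false ⟨⟨-708,-11,-36⟩,⟨-11,-588,396⟩,⟨36,-396,-587⟩⟩ (709,[(5,701201),(0,283),(1,17)]) (1418,[(5,25290739),(0,34896),(1,7425)]) (17016,[(5,186099029),(0,261528),(1,35249)]))) (.leaf false ⟨⟨-700,-75,-84⟩,⟨-75,-84,700⟩,⟨84,-700,-75⟩⟩ (8,[(2,16728),(4,2275),(0,25)]) (58,[(2,40432),(4,5281),(1,7)]) (3420,[(2,522924),(0,1237),(1,3397)]))) (.leaf false ⟨⟨-660,-259,0⟩,⟨-259,660,0⟩,⟨0,0,709⟩⟩ (133,[(1,15840),(0,660),(2,493807)]) (19,[(1,888),(0,37),(2,13212)]) (1,[(1,709)]))) (.node ⟨-340,420,-459⟩ (.node ⟨-540,-340,309⟩ (.node ⟨309,-340,-540⟩ (.leaf false ⟨⟨-540,-459,-20⟩,⟨-340,420,-459⟩,⟨309,-340,-540⟩⟩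 (27,[(5,14889),(4,12053),(0,1)]) (1,[(2,1)]) (1,[(0,1)])) (.leaf false ⟨⟨-651,276,52⟩,⟨-228,-596,309⟩,⟨-164,-267,-636⟩⟩ (103,[(3,111824),(0,217),(4,45352)]) (103,[(3,9213),(0,76),(4,87228)]) (85,[(3,35241),(2,41),(4,39915)]))) (.leaf false ⟨⟨-708,-36,-11⟩,⟨-11,396,-588⟩,⟨36,-587,-396⟩⟩ (309,[(4,224712),(3,14864),(0,11)]) (103,[(4,106973),(3,25852),(0,196)]) (103,[(4,67572),(3,105341),(0,132)]))) (.leaf false ⟨⟨-708,-11,-36⟩,⟨-11,-588,396⟩,⟨36,-396,-587⟩⟩ (420,[(1,20169),(3,301100),(0,11)]) (5,[(1,1233),(3,2435),(0,7)]) (35,[(1,35692),(3,9960),(0,33)])))))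
theorem h709_ok : h709.check (ok 709 4 ⟨3, 3, 3⟩) (fun _ r => r) [] = true := by decide +kernel

def h713 : T := .node ⟨1,0,0⟩ (.node ⟨0,1,0⟩ (.node ⟨0,0,1⟩ (.leaf false ⟨⟨0,0,713⟩,⟨0,713,0⟩,⟨713,0,0⟩⟩ (1,[(0,713)]) (1,[(1,713)]) (1,[(2,713)])) (.node ⟨-263,60,-660⟩ (.node ⟨-128,672,201⟩ (.leaf false ⟨⟨-263,60,-660⟩,⟨-60,705,88⟩,⟨660,88,-255⟩⟩ (1,[(1,1)]) (224,[(2,27523),(4,16640),(0,235)]) (84,[(2,23631),(4,56848),(0,11)])) (.leaf false ⟨⟨-88,-255,-660⟩,⟨60,660,-263⟩,⟨705,-88,-60⟩⟩ (10124,[(4,810299),(1,8717),(0,4620)]) (660,[(4,108769),(3,419820),(1,263)]) (67,[(4,44675),(3,7544),(0,20)]))) (.leaf false ⟨⟨84,708,-7⟩,⟨488,-63,-516⟩,⟨513,-56,492⟩⟩ (263,[(1,57281),(0,84),(2,191244)]) (263,[(1,457788),(0,488),(2,12711)]) (263,[(1,209184),(0,513),(2,16052)])))) (.node ⟨0,0,1⟩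 (.node ⟨-263,-660,60⟩ (.node ⟨-128,201,672⟩ (.leaf false ⟨⟨-263,-660,60⟩,⟨-60,88,705⟩,⟨660,-255,88⟩⟩ (1,[(1,1)]) (224,[(4,16640),(3,27523),(0,235)]) (84,[(4,56848),(3,23631),(0,11)])) (.leaf false ⟨⟨-88,-660,-255⟩,⟨60,-263,660⟩,⟨705,-60,-88⟩⟩ (10124,[(4,810299),(0,4620),(1,8717)]) (660,[(2,419820),(4,108769),(1,263)]) (67,[(2,7544),(4,44675),(0,20)]))) (.leaf false ⟨⟨84,-7,708⟩,⟨488,-516,-63⟩,⟨513,492,-56⟩⟩ (263,[(1,191244),(0,84),(2,57281)]) (263,[(1,12711),(0,488),(2,457788)]) (263,[(1,16052),(0,513),(2,209184)]))) (.node ⟨696,-72,137⟩ (.node ⟨-72,-696,137⟩ (.node ⟨-87,-128,-696⟩ (.leaf false ⟨⟨-87,-128,-696⟩,⟨-72,-696,137⟩,⟨704,-87,-72⟩⟩ (1,[(0,1)]) (1,[(1,1)]) (8,[(3,713),(5,5704),(1,1)])) (.leaf false ⟨⟨-72,-704,-87⟩,⟨137,72,-696⟩,⟨696,-87,128⟩⟩ (2139,[(3,499813),(0,24),(1,2168)])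 (6417,[(3,12503881),(0,11271),(1,1409)]) (17112,[(3,116061427),(0,163560),(1,32219)]))) (.leaf false ⟨⟨12,-52,-711⟩,⟨312,-639,52⟩,⟨641,312,-12⟩⟩ (6,[(2,4129),(0,1),(3,1008)]) (29,[(2,273),(1,13),(3,17595)]) (20400,[(2,1160234),(0,10971),(1,17653)]))) (.leaf false ⟨⟨-592,33,-396⟩,⟨33,-704,-108⟩,⟨396,108,-583⟩⟩ (137,[(3,194512),(2,23991),(0,396)]) (137,[(3,79689),(2,104224),(0,108)]) (137,[(3,460020),(2,27180),(0,583)]))))) (.node ⟨0,1,0⟩ (.node ⟨0,0,1⟩ (.node ⟨-660,-263,60⟩ (.node ⟨201,-128,672⟩ (.leaf false ⟨⟨-672,-168,169⟩,⟨-128,681,168⟩,⟨201,-128,672⟩⟩ (151860,[(1,161851),(3,20093053),(0,23740)]) (4,[(4,713),(3,2852),(0,1)]) (1,[(0,1)])) (.leaf false ⟨⟨-660,-88,-255⟩,⟨-263,60,660⟩,⟨-60,705,-88⟩⟩ (10124,[(1,8717),(0,4620),(3,810299)]) (660,[(2,419820),(1,263),(3,108769)])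 (67,[(2,7544),(0,20),(3,44675)]))) (.leaf false ⟨⟨-516,488,-63⟩,⟨-7,84,708⟩,⟨492,513,-56⟩⟩ (263,[(1,12711),(3,457788),(0,488)]) (263,[(1,191244),(3,57281),(0,84)]) (263,[(1,16052),(3,209184),(0,513)]))) (.node ⟨-72,696,137⟩ (.node ⟨-696,-72,137⟩ (.node ⟨-128,-87,-696⟩ (.leaf false ⟨⟨-696,-72,137⟩,⟨-128,-87,-696⟩,⟨-87,704,-72⟩⟩ (1,[(1,1)]) (1,[(0,1)]) (8,[(3,713),(1,1),(4,5704)])) (.leaf false ⟨⟨-711,-12,52⟩,⟨-52,312,-639⟩,⟨12,641,312⟩⟩ (17112,[(3,11803715),(1,20107),(0,14280)]) (1426,[(3,5351065),(1,1235),(0,6136)]) (12834,[(3,76247507),(1,20251),(0,111318)]))) (.leaf false ⟨⟨-639,312,52⟩,⟨-52,12,-711⟩,⟨312,641,-12⟩⟩ (29,[(2,273),(4,17595),(1,13)]) (6,[(2,4129),(4,1008),(0,1)]) (20400,[(2,1160234),(1,17653),(0,10971)]))) (.leaf false ⟨⟨-711,-12,-52⟩,⟨12,641,-312⟩,⟨52,-312,-639⟩⟩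 (137,[(3,101151),(2,34548),(0,52)]) (137,[(3,20820),(2,304969),(0,312)]) (137,[(3,38884),(2,402000),(0,639)])))) (.node ⟨0,0,1⟩ (.node ⟨-72,137,696⟩ (.node ⟨-696,137,-72⟩ (.node ⟨-128,-696,-87⟩ (.leaf false ⟨⟨-696,137,-72⟩,⟨-128,-696,-87⟩,⟨-87,-72,704⟩⟩ (1,[(1,1)]) (1,[(0,1)]) (8,[(3,5704),(1,1),(4,713)])) (.leaf false ⟨⟨-711,-52,12⟩,⟨-12,312,641⟩,⟨52,-639,312⟩⟩ (17112,[(1,21131),(4,17598979),(0,19848)]) (12834,[(1,20773),(4,76619693),(0,111750)]) (4278,[(1,2951),(4,15515593),(0,17784)]))) (.leaf false ⟨⟨-639,52,312⟩,⟨-52,-711,12⟩,⟨312,-12,641⟩⟩ (29,[(1,13),(4,17595),(3,273)]) (6,[(4,1008),(3,4129),(0,1)]) (20400,[(1,17653),(3,1160234),(0,10971)]))) (.leaf false ⟨⟨-711,-52,-12⟩,⟨12,-312,641⟩,⟨52,-639,-312⟩⟩ (137,[(1,34548),(3,101151),(0,52)]) (137,[(1,304969),(3,20820),(0,312)])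 (137,[(1,402000),(3,38884),(0,639)]))) (.node ⟨-252,324,-583⟩ (.node ⟨-252,-583,324⟩ (.node ⟨-664,-63,252⟩ (.leaf false ⟨⟨-664,-63,252⟩,⟨-252,324,-583⟩,⟨-63,-632,-324⟩⟩ (1,[(0,1)]) (1,[(2,1)]) (4,[(3,1620),(1,1),(4,1945)])) (.leaf false ⟨⟨-664,-252,-63⟩,⟨-63,324,-632⟩,⟨252,-583,-324⟩⟩ (2008,[(5,2311076),(1,1071),(0,1879)]) (713,[(2,664),(5,44919),(0,252)]) (1757,[(5,2455596),(1,2324),(0,5247)]))) (.leaf false ⟨⟨-704,33,-108⟩,⟨33,-592,-396⟩,⟨108,396,-583⟩⟩ (3,[(4,2364),(3,484),(0,1)]) (9,[(4,2475),(3,11741),(0,11)]) (324,[(4,111924),(3,211585),(0,583)]))) (.leaf false ⟨⟨-704,-108,33⟩,⟨33,-396,-592⟩,⟨108,-583,396⟩⟩ (3,[(1,484),(3,2364),(0,1)]) (9,[(1,11741),(3,2475),(0,11)]) (324,[(1,211585),(3,111924),(0,583)])))))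
theorem h713_ok : h713.check (ok 713 4 ⟨3, 3, 3⟩) (fun _ r => r) [] = true := by decide +kernel

def h719 : T := .node ⟨1,0,0⟩ (.node ⟨0,1,0⟩ (.node ⟨0,0,1⟩ (.node ⟨-354,126,613⟩ (.node ⟨234,658,-171⟩ (.node ⟨613,-126,354⟩ (.leaf false ⟨⟨-294,261,602⟩,⟨234,658,-171⟩,⟨613,-126,354⟩⟩ (59,[(3,5481),(4,9225),(2,49)]) (1,[(1,1)]) (1,[(0,1)])) (.leaf false ⟨⟨-694,165,90⟩,⟨90,594,-395⟩,⟨165,370,594⟩⟩ (42,[(3,23250),(5,4567),(0,55)]) (7,[(3,8917),(5,20859),(0,33)]) (63,[(3,102912),(5,123800),(0,185)]))) (.leaf false ⟨⟨-555,-210,406⟩,⟨294,325,570⟩,⟨350,-606,165⟩⟩ (171,[(4,99),(3,231238),(0,406)]) (3,[(4,3222),(3,7555),(0,10)]) (57,[(4,32820),(3,1648),(0,55)]))) (.leaf false ⟨⟨46,693,186⟩,⟨462,114,-539⟩,⟨549,-154,438⟩⟩ (177,[(1,47021),(0,23),(2,125559)]) (59,[(1,15400),(0,77),(2,16428)])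 (118,[(1,163863),(0,183),(2,4886)]))) (.node ⟨690,69,190⟩ (.node ⟨-190,690,69⟩ (.leaf false ⟨⟨-190,690,69⟩,⟨69,90,-710⟩,⟨690,181,90⟩⟩ (1,[(0,1)]) (23,[(2,16537),(4,2157),(0,3)]) (48921,[(2,5829652),(1,51049),(0,7728)])) (.leaf false ⟨⟨21,82,-714⟩,⟨298,-651,-66⟩,⟨654,294,53⟩⟩ (190,[(2,134211),(0,21),(3,30070)]) (81535,[(2,2573612),(0,78292),(1,13655)]) (115,[(2,14615),(1,109),(3,26289)]))) (.leaf false ⟨⟨-654,21,-298⟩,⟨53,714,-66⟩,⟨294,-82,-651⟩⟩ (95,[(3,40680),(2,12276),(0,149)]) (95,[(3,27805),(2,70107),(0,33)]) (190,[(3,505050),(2,29339),(0,651)])))) (.node ⟨0,0,1⟩ (.node ⟨690,190,69⟩ (.node ⟨-190,69,690⟩ (.leaf false ⟨⟨-190,69,690⟩,⟨69,-710,90⟩,⟨690,90,181⟩⟩ (1,[(0,1)]) (23,[(4,2157),(3,16537),(0,3)]) (48921,[(1,51049),(3,5829652),(0,7728)])) (.leaf false ⟨⟨21,-714,82⟩,⟨298,-66,-651⟩,⟨654,53,294⟩⟩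 (190,[(2,30070),(0,21),(3,134211)]) (81535,[(1,13655),(0,78292),(3,2573612)]) (115,[(2,26289),(1,109),(3,14615)]))) (.leaf false ⟨⟨-654,-298,21⟩,⟨53,-66,714⟩,⟨294,-651,-82⟩⟩ (95,[(1,12276),(3,40680),(0,149)]) (95,[(1,70107),(3,27805),(0,33)]) (190,[(1,29339),(3,505050),(0,651)]))) (.node ⟨-267,-654,-134⟩ (.node ⟨325,294,-570⟩ (.node ⟨606,-350,165⟩ (.leaf false ⟨⟨-210,-555,-406⟩,⟨325,294,-570⟩,⟨606,-350,165⟩⟩ (89,[(3,26754),(4,3615),(2,70)]) (1,[(1,1)]) (1,[(0,1)])) (.leaf false ⟨⟨-683,-126,-186⟩,⟨126,278,-651⟩,⟨186,-651,-242⟩⟩ (55,[(5,7),(4,28630),(0,62)]) (55,[(5,138432),(4,60660),(0,217)]) (15,[(5,16122),(4,17465),(0,22)]))) (.leaf false ⟨⟨-498,-486,181⟩,⟨134,-363,-606⟩,⟨501,-386,342⟩⟩ (49,[(2,37301),(4,1923),(0,81)]) (98,[(2,128358),(4,52457),(0,121)]) (147,[(2,59736),(4,136372),(0,193)])))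 (.leaf false ⟨⟨21,-154,-702⟩,⟨494,-507,126⟩,⟨522,486,-91⟩⟩ (89,[(1,63416),(0,7),(2,18284)]) (267,[(1,32554),(0,494),(2,458445)]) (89,[(1,31415),(0,174),(2,70542)]))))) (.node ⟨0,1,0⟩ (.node ⟨0,0,1⟩ (.node ⟨190,69,690⟩ (.node ⟨69,690,-190⟩ (.leaf false ⟨⟨-710,90,69⟩,⟨69,690,-190⟩,⟨90,181,690⟩⟩ (23,[(2,2157),(4,16537),(0,3)]) (1,[(0,1)]) (48921,[(4,5829652),(0,7728),(1,51049)])) (.leaf false ⟨⟨-714,82,21⟩,⟨-66,-651,298⟩,⟨53,294,654⟩⟩ (190,[(4,134211),(3,30070),(0,21)]) (81535,[(4,2573612),(1,13655),(0,78292)]) (115,[(4,14615),(3,26289),(1,109)]))) (.leaf false ⟨⟨-694,-171,78⟩,⟨-186,582,-379⟩,⟨-27,386,606⟩⟩ (95,[(1,246840),(0,347),(2,7698)]) (95,[(1,28165),(0,93),(2,61707)]) (190,[(1,133770),(0,27),(2,75203)]))) (.node ⟨-134,-267,-654⟩ (.node ⟨-570,325,294⟩ (.node ⟨165,606,-350⟩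 (.leaf false ⟨⟨-570,325,294⟩,⟨-406,-210,-555⟩,⟨165,606,-350⟩⟩ (1,[(1,1)]) (89,[(3,3615),(2,70),(5,26754)]) (1,[(0,1)])) (.leaf false ⟨⟨-699,-46,162⟩,⟨-134,-267,-654⟩,⟨-102,666,-251⟩⟩ (55,[(3,72640),(0,233),(4,138668)]) (165,[(3,154810),(0,134),(4,37149)]) (55,[(3,25705),(0,34),(4,57234)]))) (.leaf false ⟨⟨-714,21,-82⟩,⟨53,654,-294⟩,⟨66,-298,-651⟩⟩ (147,[(4,128328),(3,16412),(0,41)]) (1,[(4,517),(3,979),(0,1)]) (14,[(4,16746),(3,5903),(0,31)]))) (.leaf false ⟨⟨-714,53,-66⟩,⟨21,654,298⟩,⟨82,294,-651⟩⟩ (267,[(1,52284),(3,197740),(0,53)]) (89,[(1,116050),(3,27343),(0,218)]) (89,[(1,122031),(3,5834),(0,98)])))) (.node ⟨0,0,1⟩ (.node ⟨-134,-654,-267⟩ (.node ⟨-570,294,325⟩ (.node ⟨165,-350,606⟩ (.leaf false ⟨⟨-570,294,325⟩,⟨-406,-555,-210⟩,⟨165,-350,606⟩⟩ (1,[(1,1)]) (89,[(5,26754),(2,70),(4,3615)])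 (1,[(0,1)])) (.leaf false ⟨⟨-699,162,-46⟩,⟨-134,-654,-267⟩,⟨-102,-251,666⟩⟩ (55,[(3,138668),(0,233),(4,72640)]) (165,[(3,37149),(0,134),(4,154810)]) (55,[(3,57234),(0,34),(4,25705)]))) (.leaf false ⟨⟨-714,-82,21⟩,⟨53,-294,654⟩,⟨66,-651,-298⟩⟩ (147,[(2,16412),(4,128328),(0,41)]) (1,[(2,979),(4,517),(0,1)]) (14,[(2,5903),(4,16746),(0,31)]))) (.leaf false ⟨⟨-714,-66,53⟩,⟨21,298,654⟩,⟨82,-651,294⟩⟩ (267,[(3,197740),(2,52284),(0,53)]) (89,[(3,27343),(2,116050),(0,218)]) (89,[(3,5834),(2,122031),(0,98)]))) (.leaf false ⟨⟨-719,0,0⟩,⟨0,-719,0⟩,⟨0,0,-719⟩⟩ (1,[(2,719)]) (1,[(1,719)]) (1,[(0,719)]))))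
theorem h719_ok : h719.check (ok 719 4 ⟨3, 3, 3⟩) (fun _ r => r) [] = true := by decide +kernel

def h727 : T := .node ⟨1,0,0⟩ (.node ⟨0,1,0⟩ (.node ⟨0,0,1⟩ (.node ⟨-114,-38,717⟩ (.leaf false ⟨⟨-114,-38,717⟩,⟨-3,726,38⟩,⟨718,-3,114⟩⟩ (1,[(0,1)]) (717,[(3,2181),(2,521986),(0,38)]) (239,[(3,175934),(2,727),(0,38)])) (.node ⟨-227,690,30⟩ (.leaf false ⟨⟨-227,690,30⟩,⟨390,102,605⟩,⟨570,205,-402⟩⟩ (1,[(0,1)]) (19,[(2,48062),(4,1596),(1,51)]) (165290,[(4,93407141),(1,94510),(0,43903)])) (.leaf false ⟨⟨2,378,621⟩,⟨378,-531,322⟩,⟨621,322,-198⟩⟩ (57,[(2,36114),(1,1),(3,21508)]) (227,[(2,84434),(0,378),(3,140283)]) (38,[(2,140895),(1,207),(3,4370)])))) (.node ⟨-243,66,-682⟩ (.node ⟨-243,682,66⟩ (.node ⟨682,234,93⟩ (.leaf false ⟨⟨-243,682,66⟩,⟨66,93,-718⟩,⟨682,234,93⟩⟩ (1,[(1,1)])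 (22,[(3,15994),(5,2181),(1,3)]) (1,[(0,1)])) (.leaf false ⟨⟨-691,-42,-222⟩,⟨42,678,-259⟩,⟨222,-259,-642⟩⟩ (7997,[(5,13314278),(1,8007),(0,24772)]) (23991,[(5,91524938),(1,61830),(0,110693)]) (15994,[(5,109418589),(1,42047),(0,140250)]))) (.leaf false ⟨⟨-150,-115,-702⟩,⟨173,690,-150⟩,⟨690,-198,-115⟩⟩ (21340,[(4,625278),(1,21417),(0,5671)]) (341,[(4,77218),(3,230340),(1,75)]) (66,[(4,17595),(3,65362),(0,115)]))) (.leaf false ⟨⟨102,718,-51⟩,⟨429,-102,-578⟩,⟨578,-51,438⟩⟩ (81,[(1,27319),(0,34),(2,60402)]) (81,[(1,144344),(0,143),(2,1176)]) (243,[(1,287762),(0,578),(2,25755)])))) (.node ⟨0,0,1⟩ (.node ⟨-243,-682,66⟩ (.node ⟨-243,66,682⟩ (.node ⟨682,93,234⟩ (.leaf false ⟨⟨-243,66,682⟩,⟨66,-718,93⟩,⟨682,93,234⟩⟩ (1,[(1,1)]) (22,[(5,2181),(4,15994),(1,3)]) (1,[(0,1)])) (.leaf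 false ⟨⟨-691,-222,-42⟩,⟨42,-259,678⟩,⟨222,-642,-259⟩⟩ (7997,[(5,13314278),(0,24772),(1,8007)]) (23991,[(5,91524938),(0,110693),(1,61830)]) (15994,[(5,109418589),(0,140250),(1,42047)]))) (.leaf false ⟨⟨-150,-702,-115⟩,⟨173,-150,690⟩,⟨690,-115,-198⟩⟩ (21340,[(4,625278),(0,5671),(1,21417)]) (341,[(2,230340),(4,77218),(1,75)]) (66,[(2,65362),(4,17595),(0,115)]))) (.leaf false ⟨⟨102,-51,718⟩,⟨429,-578,-102⟩,⟨578,438,-51⟩⟩ (81,[(1,60402),(0,34),(2,27319)]) (81,[(1,1176),(0,143),(2,144344)]) (243,[(1,25755),(0,578),(2,287762)]))) (.node ⟨717,-38,114⟩ (.node ⟨-114,-718,-3⟩ (.leaf false ⟨⟨-114,-718,-3⟩,⟨38,-3,-726⟩,⟨717,-114,38⟩⟩ (1,[(0,1)]) (718,[(2,521259),(4,27626),(0,3)]) (2157,[(4,1059966),(1,727),(0,304)])) (.leaf false ⟨⟨30,-70,-723⟩,⟨502,525,-30⟩,⟨525,-498,70⟩⟩ (19,[(2,13752),(0,5),(3,4920)])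 (57,[(2,2463),(0,251),(3,150293)]) (239,[(2,3220),(1,175),(3,112372)]))) (.leaf false ⟨⟨-690,-115,-198⟩,⟨150,-702,-115⟩,⟨173,150,-690⟩⟩ (19,[(3,10551),(2,3439),(0,33)]) (114,[(3,99555),(2,84398),(0,115)]) (19,[(3,85742),(2,1520),(0,115)]))))) (.node ⟨0,1,0⟩ (.node ⟨0,0,1⟩ (.node ⟨-682,-243,66⟩ (.node ⟨66,-243,682⟩ (.node ⟨93,682,234⟩ (.leaf false ⟨⟨-718,66,93⟩,⟨66,-243,682⟩,⟨93,682,234⟩⟩ (22,[(5,15994),(4,2181),(1,3)]) (1,[(1,1)]) (1,[(0,1)])) (.leaf false ⟨⟨-723,-30,-70⟩,⟨-70,525,498⟩,⟨-30,-502,525⟩⟩ (7997,[(4,61870608),(1,27112),(0,81411)]) (23991,[(4,47699924),(1,31347),(0,40304)]) (15994,[(4,9022797),(1,18615),(0,18370)]))) (.leaf false ⟨⟨-718,-102,-51⟩,⟨-102,429,578⟩,⟨-51,578,-438⟩⟩ (4268,[(1,4421),(0,747),(3,457446)]) (11,[(2,17952),(0,17),(3,588)]) (22,[(2,1958),(0,17),(3,8585)])))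 (.leaf false ⟨⟨-578,429,-102⟩,⟨-51,102,718⟩,⟨438,578,-51⟩⟩ (81,[(1,1176),(3,144344),(0,143)]) (81,[(1,60402),(3,27319),(0,34)]) (243,[(1,25755),(3,287762),(0,578)]))) (.node ⟨-38,717,114⟩ (.node ⟨-718,-114,-3⟩ (.leaf false ⟨⟨-726,-38,-3⟩,⟨-38,717,114⟩,⟨-3,114,-718⟩⟩ (13661,[(0,13813),(1,4),(3,1052696)]) (1,[(1,1)]) (38,[(2,27626),(1,3),(3,2181)])) (.leaf false ⟨⟨-646,333,18⟩,⟨18,74,-723⟩,⟨333,642,74⟩⟩ (239,[(2,8352),(4,150176),(1,111)]) (57,[(2,41322),(4,25540),(0,37)]) (723,[(4,706305),(1,434),(0,1342)]))) (.leaf false ⟨⟨-726,38,-3⟩,⟨-3,-114,-718⟩,⟨38,717,-114⟩⟩ (38,[(3,27626),(2,2161),(0,1)]) (57,[(3,13813),(2,250905),(0,359)]) (1,[(2,1434),(0,1)])))) (.node ⟨0,0,1⟩ (.node ⟨-38,114,717⟩ (.node ⟨-718,-3,-114⟩ (.leaf false ⟨⟨-726,-3,-38⟩,⟨-38,114,717⟩,⟨-3,-718,114⟩⟩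 (13661,[(2,1052696),(1,4),(0,13813)]) (1,[(1,1)]) (38,[(2,2181),(1,3),(3,27626)])) (.leaf false ⟨⟨-646,18,333⟩,⟨18,-723,74⟩,⟨333,74,642⟩⟩ (239,[(1,111),(4,150176),(3,8352)]) (57,[(4,25540),(3,41322),(0,37)]) (723,[(1,434),(4,706305),(0,1342)]))) (.leaf false ⟨⟨-726,-3,38⟩,⟨-3,-718,-114⟩,⟨38,-114,717⟩⟩ (38,[(1,2161),(3,27626),(0,1)]) (57,[(1,250905),(3,13813),(0,359)]) (1,[(1,1434),(0,1)]))) (.leaf false ⟨⟨-727,0,0⟩,⟨0,-727,0⟩,⟨0,0,-727⟩⟩ (1,[(2,727)]) (1,[(1,727)]) (1,[(0,727)]))))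
theorem h727_ok : h727.check (ok 727 4 ⟨3, 3, 3⟩) (fun _ r => r) [] = true := by decide +kernel

def h733 : T := .node ⟨1,0,0⟩ (.node ⟨0,1,0⟩ (.node ⟨0,0,1⟩ (.leaf false ⟨⟨0,0,733⟩,⟨0,733,0⟩,⟨733,0,0⟩⟩ (1,[(0,733)]) (1,[(1,733)]) (1,[(2,733)])) (.node ⟨-120,108,-715⟩ (.node ⟨148,636,333⟩ (.node ⟨720,-67,-120⟩ (.leaf false ⟨⟨-108,120,-715⟩,⟨85,720,108⟩,⟨720,-67,-120⟩⟩ (1,[(5,12),(4,12),(2,1)]) (37,[(5,1369),(1,12),(4,19008)]) (1,[(0,1)])) (.leaf false ⟨⟨-707,168,-96⟩,⟨24,437,588⟩,⟨192,564,-427⟩⟩ (67,[(3,26592),(5,73591),(0,168)]) (67,[(3,13044),(5,316248),(0,437)]) (67,[(3,96289),(5,418944),(0,564)]))) (.leaf false ⟨⟨-132,-627,-356⟩,⟨-76,372,-627⟩,⟨717,-76,-132⟩⟩ (333,[(4,8732),(3,17625),(0,356)]) (111,[(4,22496),(3,174216),(0,209)]) (111,[(4,86099),(3,19548),(0,44)])))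 (.leaf false ⟨⟨13,732,-36⟩,⟨468,-36,-563⟩,⟨564,13,468⟩⟩ (120,[(1,13615),(0,13),(2,89244)]) (10,[(1,33515),(0,39),(2,3852)]) (10,[(1,28925),(0,47),(2,5206)])))) (.node ⟨0,0,1⟩ (.node ⟨-120,-715,108⟩ (.node ⟨148,333,636⟩ (.node ⟨720,-120,-67⟩ (.leaf false ⟨⟨-108,-715,120⟩,⟨85,108,720⟩,⟨720,-120,-67⟩⟩ (1,[(3,12),(5,12),(2,1)]) (37,[(3,19008),(1,12),(5,1369)]) (1,[(0,1)])) (.leaf false ⟨⟨-707,-96,168⟩,⟨24,588,437⟩,⟨192,-427,564⟩⟩ (67,[(5,73591),(4,26592),(0,168)]) (67,[(5,316248),(4,13044),(0,437)]) (67,[(5,418944),(4,96289),(0,564)]))) (.leaf false ⟨⟨-132,-627,356⟩,⟨76,-372,-627⟩,⟨717,-76,132⟩⟩ (111,[(2,172440),(4,16280),(0,209)]) (111,[(2,9267),(4,26788),(0,124)]) (333,[(2,92292),(4,250009),(0,76)]))) (.leaf false ⟨⟨13,-36,732⟩,⟨468,-563,-36⟩,⟨564,468,13⟩⟩ (120,[(1,89244),(0,13),(2,13615)])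 (10,[(1,3852),(0,39),(2,33515)]) (10,[(1,5206),(0,47),(2,28925)]))) (.node ⟨21,-672,292⟩ (.node ⟨669,248,168⟩ (.leaf false ⟨⟨21,-672,292⟩,⟨32,-291,-672⟩,⟨732,32,21⟩⟩ (1,[(1,1)]) (669,[(2,454944),(0,32),(3,202615)]) (223,[(2,36309),(0,244),(3,53376)])) (.leaf false ⟨⟨-588,-364,-243⟩,⟨284,-627,252⟩,⟨333,-108,-644⟩⟩ (5414,[(2,849638),(1,1163),(0,4795)]) (224,[(2,4580),(4,59227),(1,209)]) (56,[(2,38692),(4,18459),(1,9)]))) (.node ⟨-248,228,-651⟩ (.leaf false ⟨⟨-248,228,-651⟩,⟨168,-651,-292⟩,⟨669,248,-168⟩⟩ (1,[(0,1)]) (1,[(4,189),(3,1323),(1,1)]) (73,[(4,49719),(3,10120),(1,42)])) (.leaf false ⟨⟨-24,-192,-707⟩,⟨437,564,-168⟩,⟨588,-427,96⟩⟩ (58745,[(3,116818212),(1,159712),(0,7839)]) (58745,[(3,156143196),(1,326151),(0,131132)]) (11749,[(3,45526327),(1,71796),(0,33936)]))))))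 (.node ⟨0,1,0⟩ (.node ⟨0,0,1⟩ (.node ⟨-715,-120,108⟩ (.node ⟨333,148,636⟩ (.node ⟨-120,720,-67⟩ (.leaf false ⟨⟨-715,-108,120⟩,⟨-120,720,-67⟩,⟨108,85,720⟩⟩ (1,[(3,12),(2,1),(4,12)]) (1,[(0,1)]) (37,[(3,19008),(4,1369),(1,12)])) (.leaf false ⟨⟨-715,-120,108⟩,⟨-108,720,85⟩,⟨120,-67,720⟩⟩ (67,[(5,60865),(4,69720),(0,108)]) (67,[(5,17436),(4,109440),(0,85)]) (67,[(5,78360),(4,513911),(0,720)]))) (.leaf false ⟨⟨-627,-132,356⟩,⟨-372,76,-627⟩,⟨-76,717,132⟩⟩ (111,[(2,172440),(0,209),(3,16280)]) (111,[(2,9267),(0,124),(3,26788)]) (333,[(2,92292),(0,76),(3,250009)]))) (.leaf false ⟨⟨-707,24,192⟩,⟨-96,588,-427⟩,⟨168,437,564⟩⟩ (5,[(1,1068),(3,4250),(0,1)]) (10,[(1,1022),(3,35995),(0,49)]) (120,[(1,114876),(3,292295),(0,437)]))) (.node ⟨-672,21,292⟩ (.node ⟨248,669,168⟩ (.leaf false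 ⟨⟨-672,21,292⟩,⟨-291,32,-672⟩,⟨32,732,21⟩⟩ (1,[(1,1)]) (669,[(2,454944),(4,202615),(0,32)]) (223,[(2,36309),(4,53376),(0,244)])) (.leaf false ⟨⟨-696,-168,157⟩,⟨-203,684,-168⟩,⟨-108,-203,-696⟩⟩ (18949,[(2,1290603),(0,5313),(1,17665)]) (96,[(2,24596),(1,29),(3,65055)]) (62,[(2,38616),(0,27),(3,5477)]))) (.node ⟨228,-248,-651⟩ (.leaf false ⟨⟨-696,108,-203⟩,⟨157,696,-168⟩,⟨168,-203,-684⟩⟩ (93,[(4,71340),(3,17236),(0,29)]) (73,[(4,16763),(3,51690),(1,42)]) (217,[(4,15528),(3,12493),(0,228)])) (.leaf false ⟨⟨-707,168,-96⟩,⟨24,437,588⟩,⟨192,564,-427⟩⟩ (58745,[(4,119382571),(0,51072),(1,133176)]) (58745,[(4,65493288),(0,115256),(1,138663)]) (11749,[(4,53404788),(0,34731),(1,94612)]))))) (.node ⟨0,0,1⟩ (.node ⟨292,-672,21⟩ (.node ⟨168,248,669⟩ (.leaf false ⟨⟨-672,-291,32⟩,⟨21,32,732⟩,⟨292,-672,21⟩⟩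 (669,[(4,454944),(3,202615),(0,32)]) (223,[(4,36309),(3,53376),(0,244)]) (1,[(1,1)])) (.leaf false ⟨⟨-732,-32,21⟩,⟨21,-672,-292⟩,⟨32,-291,672⟩⟩ (21,[(2,420),(4,15664),(1,1)]) (23164,[(2,8155205),(0,22764),(1,14763)]) (224,[(2,148491),(4,21156),(1,97)]))) (.node ⟨-651,228,-248⟩ (.leaf false ⟨⟨-684,168,-203⟩,⟨-203,-696,108⟩,⟨-168,157,696⟩⟩ (217,[(2,12493),(0,228),(3,15528)]) (93,[(2,17236),(0,29),(3,71340)]) (73,[(2,51690),(1,42),(3,16763)])) (.leaf false ⟨⟨-715,-120,108⟩,⟨-108,720,85⟩,⟨120,-67,720⟩⟩ (58745,[(1,247628),(3,162841788),(0,46551)]) (58745,[(1,82119),(3,6711504),(0,27088)]) (11749,[(1,87792),(3,50311375),(0,41544)])))) (.node ⟨-720,-67,120⟩ (.node ⟨120,-67,-720⟩ (.node ⟨108,-715,120⟩ (.leaf false ⟨⟨-720,-120,-67⟩,⟨85,-108,-720⟩,⟨108,-715,120⟩⟩ (143,[(3,12461),(5,105552),(0,24)])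 (4357,[(5,183983),(0,246),(1,4398)]) (1,[(0,1)])) (.leaf false ⟨⟨-720,108,85⟩,⟨-120,-715,-108⟩,⟨-67,120,-720⟩⟩ (552,[(2,531),(4,4907),(0,140)]) (350,[(2,69),(4,241339),(1,64)]) (768,[(4,671143),(1,581),(0,1122)]))) (.leaf false ⟨⟨-720,85,108⟩,⟨-120,-108,-715⟩,⟨-67,-720,120⟩⟩ (1,[(2,4212),(0,6),(3,317)]) (1,[(2,1435),(0,1),(3,175)]) (120,[(2,33840),(0,67),(3,90889)]))) (.leaf false ⟨⟨-720,-67,-120⟩,⟨85,-720,-108⟩,⟨108,120,-715⟩⟩ (1,[(3,1440),(2,134),(0,1)]) (10,[(3,5630),(2,7803),(0,9)]) (24,[(3,100368),(2,6701),(0,143)])))))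
theorem h733_ok : h733.check (ok 733 4 ⟨3, 3, 3⟩) (fun _ r => r) [] = true := by decide +kernel

def h739 : T := .node ⟨1,0,0⟩ (.node ⟨0,1,0⟩ (.node ⟨0,0,1⟩ (.node ⟨-351,334,558⟩ (.node ⟨126,714,-143⟩ (.node ⟨714,-143,126⟩ (.leaf false ⟨⟨-102,126,721⟩,⟨161,714,-102⟩,⟨714,-143,126⟩⟩ (117,[(3,65385),(4,3386),(2,34)]) (1,[(3,41),(5,35),(1,1)]) (1,[(0,1)])) (.leaf false ⟨⟨-690,210,161⟩,⟨161,690,-210⟩,⟨210,161,690⟩⟩ (143,[(3,49483),(5,51270),(0,210)]) (143,[(3,56910),(5,515683),(0,690)]) (143,[(3,118956),(5,144984),(0,161)]))) (.leaf false ⟨⟨-478,54,561⟩,⟨369,586,258⟩,⟨426,-447,406⟩⟩ (13,[(4,212),(3,37116),(0,51)]) (143,[(4,85275),(3,268010),(0,258)]) (143,[(4,112074),(3,225963),(0,406)]))) (.leaf false ⟨⟨54,334,657⟩,⟨369,558,-314⟩,⟨638,-351,126⟩⟩ (13,[(1,9657),(0,2),(2,5010)])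 (39,[(1,10632),(0,41),(2,35456)]) (351,[(1,400230),(0,638),(2,89891)]))) (.node ⟨-162,54,-719⟩ (.node ⟨54,678,289⟩ (.leaf false ⟨⟨-162,54,-719⟩,⟨6,737,54⟩,⟨721,6,-162⟩⟩ (1,[(1,1)]) (6264,[(2,156668),(0,6651),(1,1985)]) (9,[(2,739),(4,6651),(1,1)])) (.leaf false ⟨⟨-138,1,-726⟩,⟨289,678,-54⟩,⟨666,-294,-127⟩⟩ (1332,[(3,2073300),(1,113),(0,3065)]) (289,[(4,86437),(3,232554),(0,54)]) (289,[(4,199332),(3,1140),(0,127)]))) (.leaf false ⟨⟨1,294,-678⟩,⟨138,666,289⟩,⟨726,-127,-54⟩⟩ (162,[(1,110555),(0,1),(2,47682)]) (27,[(1,8734),(0,23),(2,19224)]) (27,[(1,88457),(0,121),(2,3105)])))) (.node ⟨0,0,1⟩ (.node ⟨-162,-719,54⟩ (.node ⟨54,289,678⟩ (.leaf false ⟨⟨-162,-719,54⟩,⟨6,54,737⟩,⟨721,-162,6⟩⟩ (1,[(1,1)]) (6264,[(3,156668),(1,1985),(0,6651)]) (9,[(4,6651),(3,739),(1,1)])) (.leaf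 false ⟨⟨-138,-726,1⟩,⟨289,-54,678⟩,⟨666,-127,-294⟩⟩ (1332,[(2,2073300),(0,3065),(1,113)]) (289,[(2,232554),(4,86437),(0,54)]) (289,[(2,1140),(4,199332),(0,127)]))) (.leaf false ⟨⟨1,-678,294⟩,⟨138,289,666⟩,⟨726,-54,-127⟩⟩ (162,[(1,47682),(0,1),(2,110555)]) (27,[(1,19224),(0,23),(2,8734)]) (27,[(1,3105),(0,121),(2,88457)]))) (.node ⟨705,-114,190⟩ (.node ⟨-190,-714,-15⟩ (.leaf false ⟨⟨-190,-714,-15⟩,⟨114,-15,-730⟩,⟨705,-190,114⟩⟩ (1,[(0,1)]) (38,[(2,28690),(4,807),(1,5)]) (3615,[(4,1101110),(1,2217),(0,608)])) (.leaf false ⟨⟨102,161,-714⟩,⟨126,-714,-143⟩,⟨721,102,126⟩⟩ (95,[(2,68595),(0,51),(3,21119)]) (95,[(2,14530),(0,63),(3,112812)]) (87505,[(2,5047740),(0,25684),(1,82569)]))) (.leaf false ⟨⟨-678,1,-294⟩,⟨54,-726,-127⟩,⟨289,138,-666⟩⟩ (95,[(3,39225),(2,16663),(0,147)])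 (190,[(3,99795),(2,152418),(0,127)]) (95,[(3,262220),(2,24852),(0,333)]))))) (.node ⟨0,1,0⟩ (.node ⟨0,0,1⟩ (.node ⟨-719,-162,54⟩ (.node ⟨289,54,678⟩ (.leaf false ⟨⟨-719,-162,54⟩,⟨-162,721,6⟩,⟨54,6,737⟩⟩ (1,[(1,1)]) (9,[(1,1),(4,739),(3,6651)]) (6264,[(1,1985),(4,156668),(0,6651)])) (.leaf false ⟨⟨-726,-138,1⟩,⟨-127,666,-294⟩,⟨-54,289,678⟩⟩ (1332,[(2,2073300),(1,113),(0,3065)]) (289,[(2,1140),(0,127),(3,199332)]) (289,[(2,232554),(0,54),(3,86437)]))) (.leaf false ⟨⟨-719,162,-54⟩,⟨-54,6,737⟩,⟨162,721,6⟩⟩ (1,[(3,1438),(0,1)]) (27,[(1,19953),(3,2177),(0,1)]) (162,[(1,39906),(3,492155),(0,721)]))) (.node ⟨-114,705,190⟩ (.node ⟨-714,-190,-15⟩ (.leaf false ⟨⟨-730,-114,-15⟩,⟨-114,705,190⟩,⟨-15,190,-714⟩⟩ (13737,[(0,14041),(1,24),(3,1084852)]) (1,[(1,1)]) (38,[(2,28082),(1,5),(3,3695)]))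 (.leaf false ⟨⟨-714,126,-143⟩,⟨102,721,126⟩,⟨161,102,-714⟩⟩ (95,[(2,14530),(4,112812),(0,63)]) (87505,[(2,5047740),(1,82569),(0,25684)]) (95,[(2,68595),(4,21119),(0,51)]))) (.leaf false ⟨⟨-730,114,-15⟩,⟨-15,-190,-714⟩,⟨114,705,-190⟩⟩ (38,[(3,28082),(2,6447),(0,3)]) (95,[(3,42123),(2,233635),(0,357)]) (1,[(2,1410),(0,1)])))) (.node ⟨0,0,1⟩ (.node ⟨-114,190,705⟩ (.node ⟨-714,-15,-190⟩ (.leaf false ⟨⟨-730,-15,-114⟩,⟨-114,190,705⟩,⟨-15,-714,190⟩⟩ (13737,[(2,1084852),(1,24),(0,14041)]) (1,[(1,1)]) (38,[(2,3695),(1,5),(3,28082)])) (.leaf false ⟨⟨-714,-143,126⟩,⟨102,126,721⟩,⟨161,-714,102⟩⟩ (95,[(4,112812),(3,14530),(0,63)]) (87505,[(1,82569),(3,5047740),(0,25684)]) (95,[(4,21119),(3,68595),(0,51)]))) (.leaf false ⟨⟨-730,-15,114⟩,⟨-15,-714,-190⟩,⟨114,-190,705⟩⟩ (38,[(1,6447),(3,28082),(0,3)])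 (95,[(1,233635),(3,42123),(0,357)]) (1,[(1,1410),(0,1)]))) (.leaf false ⟨⟨-739,0,0⟩,⟨0,-739,0⟩,⟨0,0,-739⟩⟩ (1,[(2,739)]) (1,[(1,739)]) (1,[(0,739)]))))
theorem h739_ok : h739.check (ok 739 4 ⟨3, 3, 3⟩) (fun _ r => r) [] = true := by decide +kernel

def h743 : T := .node ⟨1,0,0⟩ (.node ⟨0,1,0⟩ (.node ⟨0,0,1⟩ (.node ⟨-194,18,717⟩ (.node ⟨-194,702,-147⟩ (.leaf false ⟨⟨-194,18,717⟩,⟨-147,726,-58⟩,⟨702,157,186⟩⟩ (1,[(1,1)]) (117,[(2,11001),(4,6275),(0,121)]) (702,[(2,153651),(4,523262),(0,157)])) (.node ⟨598,438,-51⟩ (.leaf false ⟨⟨-102,221,702⟩,⟨429,-558,238⟩,⟨598,438,-51⟩⟩ (239,[(5,21018),(4,48607),(2,234)]) (21,[(5,2413),(4,12150),(1,34)]) (1,[(0,1)])) (.leaf false ⟨⟨-726,-138,77⟩,⟨-3,374,642⟩,⟨158,-627,366⟩⟩ (51,[(5,9020),(4,26688),(0,77)]) (17,[(5,127921),(4,100090),(0,214)])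 (17,[(5,75642),(4,42777),(0,122)])))) (.node ⟨653,-354,-18⟩ (.leaf false ⟨⟨157,18,726⟩,⟨186,717,-58⟩,⟨702,-194,-147⟩⟩ (194,[(2,253413),(1,157),(3,6318)]) (97,[(2,61055),(1,93),(3,71223)]) (154903,[(0,158272),(1,27785),(3,26477236)])) (.leaf false ⟨⟨-618,381,158⟩,⟨282,598,-339⟩,⟨301,222,642⟩⟩ (18974,[(2,9796171),(1,10007),(0,20930)]) (28461,[(2,165042366),(1,245161),(0,60544)]) (9487,[(2,36001836),(1,41920),(0,8081)])))) (.node ⟨717,102,166⟩ (.node ⟨-166,42,-723⟩ (.node ⟨-102,717,166⟩ (.leaf false ⟨⟨-166,42,-723⟩,⟨-102,733,66⟩,⟨717,114,-158⟩⟩ (1,[(1,1)]) (717,[(3,74356),(5,1632),(0,733)]) (239,[(3,44070),(5,175239),(0,38)])) (.leaf false ⟨⟨-147,266,-678⟩,⟨482,-483,-294⟩,⟨546,498,77⟩⟩ (101302,[(4,27510335),(1,93558),(0,6267)]) (5229,[(2,1924),(4,5297790),(0,11185)]) (6474,[(2,4690),(4,3955251),(0,1687)])))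 (.leaf false ⟨⟨66,158,-723⟩,⟨102,717,166⟩,⟨733,-114,42⟩⟩ (83,[(2,83868),(0,33),(3,14500)]) (83,[(2,23095),(0,51),(3,61653)]) (166,[(2,522987),(0,733),(3,11862)]))) (.leaf false ⟨⟨-675,-130,-282⟩,⟨-18,690,-275⟩,⟨310,-243,-630⟩⟩ (83,[(3,45072),(2,3592),(0,141)]) (166,[(3,194187),(2,142590),(0,275)]) (83,[(3,251585),(2,11961),(0,315)])))) (.node ⟨0,0,1⟩ (.node ⟨717,166,102⟩ (.node ⟨-166,-723,42⟩ (.node ⟨-102,166,717⟩ (.leaf false ⟨⟨-166,-723,42⟩,⟨-102,66,733⟩,⟨717,-158,114⟩⟩ (1,[(1,1)]) (717,[(5,1632),(4,74356),(0,733)]) (239,[(5,175239),(4,44070),(0,38)])) (.leaf false ⟨⟨-147,-678,266⟩,⟨482,-294,-483⟩,⟨546,77,498⟩⟩ (101302,[(3,27510335),(0,6267),(1,93558)]) (5229,[(3,5297790),(2,1924),(0,11185)]) (6474,[(3,3955251),(2,4690),(0,1687)]))) (.leaf false ⟨⟨66,-723,158⟩,⟨102,166,717⟩,⟨733,42,-114⟩⟩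 (83,[(2,14500),(0,33),(3,83868)]) (83,[(2,61653),(0,51),(3,23095)]) (166,[(2,11862),(0,733),(3,522987)]))) (.leaf false ⟨⟨-675,-310,18⟩,⟨130,-243,690⟩,⟨282,-630,-275⟩⟩ (83,[(1,17304),(3,55110),(0,155)]) (166,[(1,139326),(3,195811),(0,243)]) (83,[(1,9305),(3,249261),(0,315)]))) (.node ⟨-194,-702,-147⟩ (.node ⟨626,333,-222⟩ (.node ⟨-243,-130,-690⟩ (.node ⟨310,-675,18⟩ (.leaf false ⟨⟨-243,-130,-690⟩,⟨310,-675,18⟩,⟨630,282,-275⟩⟩ (1,[(1,1)]) (1,[(0,1)]) (111,[(4,9657),(2,94),(6,11086)])) (.leaf false ⟨⟨-738,-67,-54⟩,⟨-3,486,-562⟩,⟨86,-558,-483⟩⟩ (1,[(6,192),(5,2092),(0,3)]) (9,[(6,87083),(5,185301),(0,281)]) (6,[(6,50426),(5,112023),(0,161)]))) (.leaf false ⟨⟨-158,-579,-438⟩,⟨282,-462,509⟩,⟨669,58,-318⟩⟩ (145366,[(3,46980129),(0,1410),(2,120157)]) (72683,[(3,51277532),(0,143796),(2,74463)])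 (72683,[(3,175899978),(0,229193),(2,36438)]))) (.leaf false ⟨⟨-627,-382,-114⟩,⟨198,-114,-707⟩,⟨346,-627,198⟩⟩ (333,[(2,122766),(4,30341),(0,382)]) (111,[(2,86913),(4,45766),(0,38)]) (111,[(2,24420),(4,169240),(0,209)]))) (.leaf false ⟨⟨45,-410,-618⟩,⟨318,570,-355⟩,⟨670,-243,210⟩⟩ (194,[(1,126507),(0,45),(2,111130)]) (97,[(1,57808),(0,159),(2,56328)]) (97,[(1,28875),(0,335),(2,258741)]))))) (.node ⟨0,1,0⟩ (.node ⟨0,0,1⟩ (.node ⟨166,102,717⟩ (.node ⟨-723,42,-166⟩ (.node ⟨166,717,-102⟩ (.leaf false ⟨⟨-723,42,-166⟩,⟨-158,114,717⟩,⟨66,733,-102⟩⟩ (1,[(1,1)]) (239,[(3,175239),(5,44070),(0,38)]) (717,[(3,1632),(5,74356),(0,733)])) (.leaf false ⟨⟨-738,54,-67⟩,⟨-86,-483,558⟩,⟨-3,562,486⟩⟩ (101302,[(1,86398),(4,54947631),(0,74067)]) (22659,[(4,6067806),(2,13976),(0,25715)]) (15106,[(4,14177263),(2,8930),(0,9203)])))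 (.leaf false ⟨⟨-723,42,166⟩,⟨66,733,102⟩,⟨158,-114,717⟩⟩ (1,[(4,1446),(3,84),(0,1)]) (83,[(4,31395),(3,62981),(0,51)]) (166,[(4,492163),(3,11190),(0,717)]))) (.leaf false ⟨⟨-723,-166,-42⟩,⟨-158,717,-114⟩,⟨-66,102,733⟩⟩ (166,[(1,511419),(0,723),(2,46190)]) (83,[(1,47181),(0,79),(2,67569)]) (83,[(1,84500),(0,33),(2,11832)]))) (.node ⟨-147,-194,-702⟩ (.node ⟨-222,626,333⟩ (.node ⟨-690,-243,-130⟩ (.node ⟨18,310,-675⟩ (.leaf false ⟨⟨-690,-243,-130⟩,⟨-275,630,282⟩,⟨18,310,-675⟩⟩ (1,[(1,1)]) (111,[(6,9657),(2,94),(5,11086)]) (1,[(0,1)])) (.leaf false ⟨⟨-738,-3,86⟩,⟨-67,486,-558⟩,⟨-54,-562,-483⟩⟩ (1,[(4,27589),(0,41),(5,12707)]) (18,[(4,55269),(0,67),(5,29518)]) (1,[(4,2508),(0,3),(5,368)]))) (.leaf false ⟨⟨-726,58,-147⟩,⟨18,717,194⟩,⟨157,186,-702⟩⟩ (145366,[(2,43261),(5,146947809),(0,69234)])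 (72683,[(2,23034),(5,155971518),(0,232849)]) (5591,[(2,7491),(5,5100436),(0,10260)]))) (.leaf false ⟨⟨-738,-67,-54⟩,⟨-3,486,-562⟩,⟨86,-558,-483⟩⟩ (37,[(4,28638),(3,1277),(0,6)]) (333,[(4,125763),(3,513650),(0,562)]) (111,[(4,26196),(3,38848),(0,161)]))) (.leaf false ⟨⟨-726,77,-138⟩,⟨-3,642,374⟩,⟨158,366,-627⟩⟩ (194,[(1,80826),(3,152163),(0,77)]) (97,[(1,189064),(3,47478),(0,321)]) (97,[(1,189285),(3,11575),(0,183)])))) (.node ⟨0,0,1⟩ (.node ⟨-147,-702,-194⟩ (.node ⟨-222,333,626⟩ (.node ⟨-690,-130,-243⟩ (.node ⟨18,-675,310⟩ (.leaf false ⟨⟨-690,-130,-243⟩,⟨-275,282,630⟩,⟨18,-675,310⟩⟩ (1,[(1,1)]) (111,[(4,11086),(2,94),(6,9657)]) (1,[(0,1)])) (.leaf false ⟨⟨-738,-3,86⟩,⟨-67,486,-558⟩,⟨-54,-562,-483⟩⟩ (1,[(4,12796),(0,41),(5,27678)]) (18,[(4,10726),(0,67),(5,36477)]) (1,[(4,447),(0,3),(5,2587)])))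 (.leaf false ⟨⟨-726,-147,58⟩,⟨18,194,717⟩,⟨157,-702,186⟩⟩ (145366,[(5,146947809),(2,43261),(0,69234)]) (72683,[(5,155971518),(2,23034),(0,232849)]) (5591,[(5,5100436),(2,7491),(0,10260)]))) (.leaf false ⟨⟨-738,-54,-67⟩,⟨-3,-562,486⟩,⟨86,-483,-558⟩⟩ (37,[(2,1277),(4,28638),(0,6)]) (333,[(2,513650),(4,125763),(0,562)]) (111,[(2,38848),(4,26196),(0,161)]))) (.leaf false ⟨⟨-726,-138,77⟩,⟨-3,374,642⟩,⟨158,-627,366⟩⟩ (194,[(3,152163),(2,80826),(0,77)]) (97,[(3,47478),(2,189064),(0,321)]) (97,[(3,11575),(2,189285),(0,183)]))) (.leaf false ⟨⟨-743,0,0⟩,⟨0,-743,0⟩,⟨0,0,-743⟩⟩ (1,[(2,743)]) (1,[(1,743)]) (1,[(0,743)]))))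
theorem h743_ok : h743.check (ok 743 4 ⟨3, 3, 3⟩) (fun _ r => r) [] = true := by decide +kernel

def h751 : T := .node ⟨1,0,0⟩ (.node ⟨0,1,0⟩ (.node ⟨0,0,1⟩ (.node ⟨-266,114,693⟩ (.node ⟨293,594,-354⟩ (.node ⟨666,-139,318⟩ (.leaf false ⟨⟨-186,438,581⟩,⟨293,594,-354⟩,⟨666,-139,318⟩⟩ (99,[(5,3664),(4,33900),(2,83)]) (1,[(1,1)]) (1,[(0,1)])) (.leaf false ⟨⟨-715,150,-174⟩,⟨-150,126,725⟩,⟨174,725,-90⟩⟩ (139,[(3,23514),(5,515),(0,150)]) (139,[(3,140843),(5,63066),(0,126)]) (139,[(3,218040),(5,507036),(0,725)]))) (.leaf false ⟨⟨-462,114,581⟩,⟨229,714,42⟩,⟨546,-203,474⟩⟩ (354,[(4,6685),(3,385470),(0,581)]) (59,[(4,15562),(3,46284),(0,7)]) (59,[(4,55361),(3,34949),(0,79)]))) (.leaf false ⟨⟨21,114,742⟩,⟨266,693,-114⟩,⟨702,-266,21⟩⟩ (38,[(1,30275),(0,3),(2,4674)]) (1,[(1,579),(0,1),(2,807)])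 (133,[(1,246036),(0,351),(2,4636)]))) (.node ⟨-363,354,-554⟩ (.node ⟨126,725,150⟩ (.node ⟨725,-90,-174⟩ (.leaf false ⟨⟨-150,174,-715⟩,⟨126,725,150⟩,⟨725,-90,-174⟩⟩ (59,[(3,26119),(5,1677),(2,29)]) (1,[(1,1)]) (1,[(0,1)])) (.leaf false ⟨⟨-742,114,21⟩,⟨21,266,-702⟩,⟨114,693,266⟩⟩ (15,[(3,2991),(5,2645),(0,19)]) (45,[(3,54732),(5,97370),(0,133)]) (10,[(3,10738),(5,56965),(0,77)]))) (.leaf false ⟨⟨-459,22,-594⟩,⟨374,594,-267⟩,⟨462,-459,-374⟩⟩ (25,[(4,999),(3,72325),(0,99)]) (50,[(4,29914),(3,94225),(0,89)]) (75,[(4,58212),(3,101150),(0,187)]))) (.leaf false ⟨⟨21,354,-662⟩,⟨402,554,309⟩,⟨634,-363,-174⟩⟩ (121,[(1,83980),(0,7),(2,45312)]) (121,[(1,36847),(0,134),(2,114470)]) (363,[(1,414398),(0,634),(2,92667)])))) (.node ⟨0,0,1⟩ (.node ⟨-363,-554,354⟩ (.node ⟨126,150,725⟩ (.node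 ⟨725,-174,-90⟩ (.leaf false ⟨⟨-150,-715,174⟩,⟨126,150,725⟩,⟨725,-174,-90⟩⟩ (59,[(5,1677),(4,26119),(2,29)]) (1,[(1,1)]) (1,[(0,1)])) (.leaf false ⟨⟨-742,21,114⟩,⟨21,-702,266⟩,⟨114,266,693⟩⟩ (15,[(5,2645),(4,2991),(0,19)]) (45,[(5,97370),(4,54732),(0,133)]) (10,[(5,56965),(4,10738),(0,77)]))) (.leaf false ⟨⟨-459,-594,22⟩,⟨374,-267,594⟩,⟨462,-374,-459⟩⟩ (25,[(2,72325),(4,999),(0,99)]) (50,[(2,94225),(4,29914),(0,89)]) (75,[(2,101150),(4,58212),(0,187)]))) (.leaf false ⟨⟨21,-662,354⟩,⟨402,309,554⟩,⟨634,-174,-363⟩⟩ (121,[(1,45312),(0,7),(2,83980)]) (121,[(1,114470),(0,134),(2,36847)]) (363,[(1,92667),(0,634),(2,414398)]))) (.node ⟨549,-346,378⟩ (.node ⟨549,266,-438⟩ (.node ⟨-174,-507,-526⟩ (.leaf false ⟨⟨-174,-507,-526⟩,⟨482,-486,309⟩,⟨549,266,-438⟩⟩ (1,[(0,1)]) (126,[(5,4185),(2,103),(4,25598)])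 (1,[(1,1)])) (.leaf false ⟨⟨42,-571,-486⟩,⟨354,-414,517⟩,⟨661,258,-246⟩⟩ (29,[(3,17776),(0,7),(4,20108)]) (29,[(3,16041),(0,59),(4,41919)]) (174,[(3,390490),(0,661),(4,290235)]))) (.leaf false ⟨⟨-662,-354,21⟩,⟨174,-363,-634⟩,⟨309,-554,402⟩⟩ (133,[(2,74733),(4,9127),(0,177)]) (266,[(2,327638),(4,245571),(0,363)]) (133,[(2,67860),(4,193170),(0,277)]))) (.leaf false ⟨⟨-462,229,-546⟩,⟨-114,-714,-203⟩,⟨581,42,-474⟩⟩ (9,[(3,2979),(2,2437),(0,13)]) (54,[(3,9765),(2,48590),(0,29)]) (63,[(3,79974),(2,24688),(0,79)]))))) (.node ⟨0,1,0⟩ (.node ⟨0,0,1⟩ (.node ⟨-554,-363,354⟩ (.node ⟨150,126,725⟩ (.node ⟨-174,725,-90⟩ (.leaf false ⟨⟨-715,-150,174⟩,⟨-174,725,-90⟩,⟨150,126,725⟩⟩ (59,[(2,29),(5,26119),(4,1677)]) (1,[(0,1)]) (1,[(1,1)])) (.leaf false ⟨⟨-742,21,114⟩,⟨21,-702,266⟩,⟨114,266,693⟩⟩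 (15,[(5,14436),(4,14090),(0,19)]) (45,[(5,22197),(4,64835),(0,133)]) (10,[(5,12258),(4,58485),(0,77)]))) (.leaf false ⟨⟨-738,-139,6⟩,⟨-126,654,-347⟩,⟨-59,342,666⟩⟩ (25,[(2,89325),(0,123),(3,12023)]) (25,[(2,6550),(0,21),(3,18996)]) (150,[(2,142675),(0,59),(3,58734)]))) (.leaf false ⟨⟨-699,50,270⟩,⟨-150,549,-490⟩,⟨230,510,501⟩⟩ (363,[(1,115710),(3,281437),(0,50)]) (121,[(1,5492),(3,119532),(0,183)]) (121,[(1,120801),(3,66350),(0,170)]))) (.node ⟨-346,549,378⟩ (.node ⟨266,549,-438⟩ (.node ⟨-507,-174,-526⟩ (.leaf false ⟨⟨-507,-174,-526⟩,⟨-486,482,309⟩,⟨266,549,-438⟩⟩ (1,[(0,1)]) (126,[(5,25598),(2,103),(4,4185)]) (1,[(1,1)])) (.leaf false ⟨⟨-742,114,21⟩,⟨21,266,-702⟩,⟨114,693,266⟩⟩ (29,[(3,9385),(5,31151),(0,19)]) (87,[(3,131032),(5,65604),(0,133)]) (58,[(3,106078),(5,110505),(0,231)])))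 (.leaf false ⟨⟨-670,-315,-126⟩,⟨-315,474,490⟩,⟨-126,490,-555⟩⟩ (133,[(2,163488),(0,335),(3,142020)]) (38,[(2,1090),(0,45),(3,42717)]) (19,[(2,14487),(0,9),(3,14251)]))) (.leaf false ⟨⟨-714,-114,-203⟩,⟨42,581,-474⟩,⟨229,-462,-546⟩⟩ (54,[(3,48590),(2,9765),(0,29)]) (63,[(3,24688),(2,79974),(0,79)]) (9,[(3,2437),(2,2979),(0,13)])))) (.node ⟨0,0,1⟩ (.node ⟨-346,378,549⟩ (.node ⟨266,-438,549⟩ (.node ⟨-507,-526,-174⟩ (.leaf false ⟨⟨-507,-526,-174⟩,⟨-486,309,482⟩,⟨266,-438,549⟩⟩ (1,[(0,1)]) (126,[(3,4185),(2,103),(5,25598)]) (1,[(1,1)])) (.leaf false ⟨⟨-742,21,114⟩,⟨21,-702,266⟩,⟨114,266,693⟩⟩ (29,[(5,31151),(4,9385),(0,19)]) (87,[(5,65604),(4,131032),(0,133)]) (58,[(5,110505),(4,106078),(0,231)]))) (.leaf false ⟨⟨-670,-126,-315⟩,⟨-315,490,474⟩,⟨-126,-555,490⟩⟩ (133,[(2,142020),(0,335),(3,163488)])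 (38,[(2,42717),(0,45),(3,1090)]) (19,[(2,14251),(0,9),(3,14487)]))) (.leaf false ⟨⟨-714,-203,-114⟩,⟨42,-474,581⟩,⟨229,-546,-462⟩⟩ (54,[(1,9765),(3,48590),(0,29)]) (63,[(1,79974),(3,24688),(0,79)]) (9,[(1,2979),(3,2437),(0,13)]))) (.leaf false ⟨⟨-751,0,0⟩,⟨0,-751,0⟩,⟨0,0,-751⟩⟩ (1,[(2,751)]) (1,[(1,751)]) (1,[(0,751)]))))
theorem h751_ok : h751.check (ok 751 4 ⟨3, 3, 3⟩) (fun _ r => r) [] = true := by decide +kernel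

def h757 : T := .node ⟨1,0,0⟩ (.node ⟨0,1,0⟩ (.node ⟨0,0,1⟩ (.leaf false ⟨⟨0,0,757⟩,⟨0,757,0⟩,⟨757,0,0⟩⟩ (1,[(0,757)]) (1,[(1,757)]) (1,[(2,757)])) (.node ⟨612,296,333⟩ (.node ⟨-348,532,-411⟩ (.node ⟨388,-219,-612⟩ (.leaf false ⟨⟨-348,532,-411⟩,⟨388,-219,-612⟩,⟨549,492,172⟩⟩ (1,[(1,1)]) (1,[(0,1)]) (68,[(3,8617),(2,61),(4,15400)])) (.leaf false ⟨⟨-627,408,116⟩,⟨12,224,-723⟩,⟨424,597,192⟩⟩ (73,[(3,74764),(5,6997),(0,136)]) (219,[(3,295425),(5,89540),(0,224)]) (73,[(3,107772),(5,108164),(0,199)]))) (.leaf false ⟨⟨12,37,-756⟩,⟨444,612,37⟩,⟨613,-444,-12⟩⟩ (29,[(2,22335),(0,1),(3,1605)]) (29,[(2,14134),(0,37),(3,37432)]) (348,[(2,256119),(0,613),(3,171604)]))) (.leaf false ⟨⟨-627,152,-396⟩,⟨264,693,-152⟩,⟨332,-264,-627⟩⟩ (37,[(3,3729),(2,18648),(0,44)]) (333,[(3,180936),(2,275761),(0,152)])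 (111,[(3,164760),(2,32560),(0,209)])))) (.node ⟨0,0,1⟩ (.node ⟨612,333,296⟩ (.node ⟨-348,-411,532⟩ (.node ⟨388,-612,-219⟩ (.leaf false ⟨⟨-348,-411,532⟩,⟨388,-612,-219⟩,⟨549,172,492⟩⟩ (1,[(1,1)]) (1,[(0,1)]) (68,[(3,15400),(2,61),(4,8617)])) (.leaf false ⟨⟨-627,12,424⟩,⟨116,-723,192⟩,⟨408,224,597⟩⟩ (219,[(5,27199),(4,256860),(0,424)]) (73,[(5,33300),(4,91947),(0,64)]) (73,[(5,106996),(4,105436),(0,199)]))) (.leaf false ⟨⟨12,-756,37⟩,⟨444,37,612⟩,⟨613,-12,-444⟩⟩ (29,[(2,1605),(0,1),(3,22335)]) (29,[(2,37432),(0,37),(3,14134)]) (348,[(2,171604),(0,613),(3,256119)]))) (.leaf false ⟨⟨-627,-396,152⟩,⟨264,-152,693⟩,⟨332,-627,-264⟩⟩ (37,[(1,18648),(3,3729),(0,44)]) (333,[(1,275761),(3,180936),(0,152)]) (111,[(1,32560),(3,164760),(0,209)]))) (.node ⟨0,468,-595⟩ (.leaf false ⟨⟨0,-595,-468⟩,⟨0,468,-595⟩,⟨757,0,0⟩⟩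 (595,[(0,468),(2,573049)]) (1,[(0,1)]) (1,[(3,757)])) (.leaf false ⟨⟨0,-595,468⟩,⟨0,-468,-595⟩,⟨757,0,0⟩⟩ (468,[(1,135001),(0,595)]) (1,[(1,1190),(0,1)]) (1,[(3,757)]))))) (.node ⟨0,1,0⟩ (.node ⟨0,0,1⟩ (.node ⟨333,296,612⟩ (.node ⟨-411,532,-348⟩ (.node ⟨-612,-219,388⟩ (.leaf false ⟨⟨-612,-219,388⟩,⟨-411,532,-348⟩,⟨172,492,549⟩⟩ (1,[(0,1)]) (1,[(1,1)]) (68,[(5,8617),(4,15400),(2,61)])) (.leaf false ⟨⟨-756,12,37⟩,⟨-12,613,-444⟩,⟨37,444,612⟩⟩ (73,[(3,4253),(5,57636),(0,4)]) (219,[(3,140608),(5,377784),(0,613)]) (73,[(3,102100),(5,87875),(0,148)]))) (.leaf false ⟨⟨-756,-12,37⟩,⟨12,613,444⟩,⟨37,-444,612⟩⟩ (348,[(4,278295),(3,15508),(0,37)]) (29,[(4,14859),(3,37461),(0,37)]) (29,[(4,19888),(3,14256),(0,51)]))) (.leaf false ⟨⟨-723,-208,-84⟩,⟨-172,696,-243⟩,⟨-144,213,712⟩⟩ (111,[(1,138168),(0,241),(2,48248)])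 (333,[(1,24345),(0,172),(2,282680)]) (37,[(1,36136),(0,16),(2,12617)]))) (.node ⟨468,0,-595⟩ (.leaf false ⟨⟨-595,0,-468⟩,⟨0,757,0⟩,⟨468,0,-595⟩⟩ (595,[(3,573049),(0,468)]) (1,[(2,757)]) (1,[(0,1)])) (.leaf false ⟨⟨-595,0,468⟩,⟨-468,0,-595⟩,⟨0,757,0⟩⟩ (468,[(1,135001),(0,595)]) (1,[(1,1190),(0,1)]) (1,[(2,757)])))) (.node ⟨0,0,1⟩ (.node ⟨468,-595,0⟩ (.leaf false ⟨⟨-595,-468,0⟩,⟨0,0,757⟩,⟨468,-595,0⟩⟩ (595,[(3,573049),(0,468)]) (1,[(1,757)]) (1,[(0,1)])) (.leaf false ⟨⟨-595,468,0⟩,⟨-468,-595,0⟩,⟨0,0,757⟩⟩ (468,[(0,595),(2,135001)]) (1,[(0,1),(2,1190)]) (1,[(1,757)]))) (.node ⟨144,-712,213⟩ (.node ⟨-723,-84,208⟩ (.leaf false ⟨⟨-723,-84,208⟩,⟨-172,-243,-696⟩,⟨144,-712,213⟩⟩ (1,[(0,1)]) (712,[(2,547311),(4,157456),(1,243)]) (1,[(1,1)])) (.leaf false ⟨⟨-723,84,-208⟩,⟨-144,-712,213⟩,⟨172,-243,-696⟩⟩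 (1,[(4,1446),(0,1)]) (1,[(4,288),(1,1)]) (172,[(4,513881),(1,144),(0,723)]))) (.node ⟨-712,213,144⟩ (.leaf false ⟨⟨-712,213,144⟩,⟨-243,-696,-172⟩,⟨-84,208,-723⟩⟩ (1,[(0,1)]) (712,[(2,157456),(0,243),(3,547311)]) (12,[(2,7185),(1,7),(3,2488)])) (.leaf false ⟨⟨-723,144,-172⟩,⟨-84,-712,-243⟩,⟨208,213,-696⟩⟩ (213,[(1,172),(4,129231),(3,91792)]) (16,[(4,20568),(3,5641),(0,27)]) (7183,[(1,19400),(3,11000135),(0,6022)]))))))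
theorem h757_ok : h757.check (ok 757 4 ⟨3, 3, 3⟩) (fun _ r => r) [] = true := by decide +kernel

def h761 : T := .node ⟨1,0,0⟩ (.node ⟨0,1,0⟩ (.node ⟨0,0,1⟩ (.leaf false ⟨⟨0,0,761⟩,⟨0,761,0⟩,⟨761,0,0⟩⟩ (1,[(0,761)]) (1,[(1,761)]) (1,[(2,761)])) (.node ⟨-39,0,-760⟩ (.leaf false ⟨⟨-39,0,-760⟩,⟨0,761,0⟩,⟨760,0,-39⟩⟩ (1,[(0,1)]) (1,[(2,761)]) (760,[(3,579121),(0,39)])) (.node ⟨644,-276,297⟩ (.leaf false ⟨⟨36,752,-111⟩,⟨444,-111,-608⟩,⟨617,36,444⟩⟩ (13,[(2,10563),(1,12),(3,9776)]) (161,[(2,130855),(0,111),(3,12765)]) (39,[(2,451604),(1,617),(3,1404)])) (.leaf false ⟨⟨-679,312,-144⟩,⟨72,441,616⟩,⟨336,536,-423⟩⟩ (897,[(2,684530),(1,1127),(0,1014)]) (1196,[(2,24356337),(1,33764),(0,1911)]) (2691,[(2,82790971),(1,109480),(0,5226)]))))) (.node ⟨0,0,1⟩ (.node ⟨-39,-760,0⟩ (.leaf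 false ⟨⟨-39,-760,0⟩,⟨0,0,761⟩,⟨760,-39,0⟩⟩ (1,[(0,1)]) (1,[(1,761)]) (760,[(3,579121),(0,39)])) (.node ⟨644,297,-276⟩ (.leaf false ⟨⟨36,-111,752⟩,⟨444,-608,-111⟩,⟨617,444,36⟩⟩ (13,[(2,9776),(1,12),(3,10563)]) (161,[(2,12765),(0,111),(3,130855)]) (39,[(2,1404),(1,617),(3,451604)])) (.leaf false ⟨⟨-679,-144,312⟩,⟨72,616,441⟩,⟨336,-423,536⟩⟩ (897,[(1,1127),(3,684530),(0,1014)]) (1196,[(1,33764),(3,24356337),(0,1911)]) (2691,[(1,109480),(3,82790971),(0,5226)])))) (.node ⟨756,-23,84⟩ (.node ⟨84,-663,364⟩ (.node ⟨-32,-756,81⟩ (.leaf false ⟨⟨-32,-756,81⟩,⟨81,-84,-752⟩,⟨756,-23,84⟩⟩ (1,[(0,1)]) (9,[(3,6849),(5,761),(0,1)]) (1,[(2,1)])) (.leaf false ⟨⟨4,-708,-279⟩,⟨384,-239,612⟩,⟨657,144,-356⟩⟩ (8,[(3,2151),(0,1),(4,6420)]) (21180,[(3,9402523),(0,58629),(1,74488)]) (2636,[(0,38436),(1,5975),(4,24716607)])))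 (.leaf false ⟨⟨-111,-444,-608⟩,⟨-36,617,-444⟩,⟨752,-36,-111⟩⟩ (3192,[(1,127),(3,4968670),(0,5361)]) (133,[(1,12),(3,27058),(0,165)]) (9576,[(1,10109),(3,3594968),(0,5253)]))) (.leaf false ⟨⟨-535,36,-540⟩,⟨-36,-760,-15⟩,⟨540,-15,-536⟩⟩ (7,[(3,30275),(2,783),(0,45)]) (28,[(3,2772),(2,21395),(0,5)]) (21,[(3,112644),(2,3397),(0,134)]))))) (.node ⟨0,1,0⟩ (.node ⟨0,0,1⟩ (.node ⟨-760,-39,0⟩ (.leaf false ⟨⟨-760,-39,0⟩,⟨-39,760,0⟩,⟨0,0,761⟩⟩ (1,[(0,1)]) (760,[(0,39),(2,579121)]) (1,[(1,761)])) (.node ⟨297,644,-276⟩ (.leaf false ⟨⟨-687,204,256⟩,⟨176,732,-111⟩,⟨276,41,708⟩⟩ (13,[(2,3328),(4,60611),(1,68)]) (161,[(2,32637),(4,26015),(0,183)]) (39,[(2,27612),(4,20396),(1,41)])) (.leaf false ⟨⟨-687,176,276⟩,⟨204,732,41⟩,⟨256,-111,708⟩⟩ (39,[(4,638410),(1,820),(0,39)]) (828,[(4,13149277),(1,17572),(0,123)])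 (897,[(4,26023651),(1,35443),(0,2301)])))) (.node ⟨-23,756,84⟩ (.node ⟨-663,84,364⟩ (.node ⟨-756,-32,81⟩ (.leaf false ⟨⟨-756,-32,81⟩,⟨-84,81,-752⟩,⟨-23,756,84⟩⟩ (1,[(0,1)]) (9,[(3,6849),(0,1),(4,761)]) (1,[(2,1)])) (.leaf false ⟨⟨-756,81,32⟩,⟨-23,84,-756⟩,⟨84,752,81⟩⟩ (28,[(3,8932),(5,3267),(1,27)]) (8,[(3,4347),(5,16060),(0,21)]) (1765,[(3,3294613),(1,11788),(0,10534)]))) (.leaf false ⟨⟨-752,81,-84⟩,⟨81,-32,-756⟩,⟨84,756,-23⟩⟩ (1064,[(4,981770),(1,145),(0,279)]) (2394,[(4,3162814),(1,463),(0,5079)]) (3192,[(4,294464),(1,3299),(0,963)]))) (.leaf false ⟨⟨-760,-36,-15⟩,⟨-15,540,-536⟩,⟨36,-535,-540⟩⟩ (28,[(3,21395),(2,2772),(0,5)]) (21,[(3,3397),(2,112644),(0,134)]) (7,[(3,783),(2,30275),(0,45)])))) (.node ⟨0,0,1⟩ (.node ⟨-23,84,756⟩ (.node ⟨-663,364,84⟩ (.node ⟨-756,81,-32⟩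 (.leaf false ⟨⟨-756,81,-32⟩,⟨-84,-752,81⟩,⟨-23,84,756⟩⟩ (1,[(0,1)]) (9,[(3,761),(0,1),(4,6849)]) (1,[(2,1)])) (.leaf false ⟨⟨-756,-23,84⟩,⟨32,-756,81⟩,⟨81,84,752⟩⟩ (1,[(1,1),(5,93),(4,387)]) (32,[(5,60212),(4,17631),(0,81)]) (1412,[(1,9432),(4,2632377),(0,8423)]))) (.leaf false ⟨⟨-752,-84,81⟩,⟨81,-756,-32⟩,⟨84,-23,756⟩⟩ (1064,[(1,145),(4,981770),(0,279)]) (2394,[(1,463),(4,3162814),(0,5079)]) (3192,[(1,3299),(4,294464),(0,963)]))) (.leaf false ⟨⟨-760,-15,-36⟩,⟨-15,-536,540⟩,⟨36,-540,-535⟩⟩ (28,[(1,2772),(3,21395),(0,5)]) (21,[(1,112644),(3,3397),(0,134)]) (7,[(1,30275),(3,783),(0,45)]))) (.node ⟨-176,276,-687⟩ (.node ⟨-708,-111,256⟩ (.node ⟨41,-732,-204⟩ (.leaf false ⟨⟨-708,-111,256⟩,⟨-276,176,-687⟩,⟨41,-732,-204⟩⟩ (1,[(1,1)]) (1,[(2,1),(5,100),(4,100)]) (1,[(0,1)]))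 (.leaf false ⟨⟨-760,-15,36⟩,⟨-36,540,-535⟩,⟨-15,-536,-540⟩⟩ (41,[(3,153564),(0,760),(4,556935)]) (41,[(3,29279),(0,36),(4,4212)]) (41,[(3,25200),(0,15),(4,32956)]))) (.leaf false ⟨⟨-732,-176,-111⟩,⟨41,276,-708⟩,⟨204,-687,-256⟩⟩ (256,[(4,265980),(3,57377),(0,111)]) (64,[(4,122692),(3,1983),(0,177)]) (1,[(4,504),(3,798),(0,1)]))) (.leaf false ⟨⟨-760,-15,-36⟩,⟨-15,-536,540⟩,⟨36,-540,-535⟩⟩ (92,[(1,6747),(3,70800),(0,5)]) (69,[(1,54798),(3,24619),(0,134)]) (23,[(1,43220),(3,7092),(0,45)])))))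
theorem h761_ok : h761.check (ok 761 4 ⟨3, 3, 3⟩) (fun _ r => r) [] = true := by decide +kernel

def h769 : T := .node ⟨1,0,0⟩ (.node ⟨0,1,0⟩ (.node ⟨0,0,1⟩ (.leaf false ⟨⟨0,0,769⟩,⟨0,769,0⟩,⟨769,0,0⟩⟩ (1,[(0,769)]) (1,[(1,769)]) (1,[(2,769)])) (.node ⟨0,600,481⟩ (.leaf false ⟨⟨0,481,-600⟩,⟨0,600,481⟩,⟨769,0,0⟩⟩ (600,[(1,591361),(0,481)]) (1,[(0,1)]) (1,[(3,769)])) (.node ⟨-103,684,-336⟩ (.leaf false ⟨⟨-39,-156,-752⟩,⟨-4,753,-156⟩,⟨768,-4,-39⟩⟩ (4913,[(1,5248),(4,167142),(0,3483)]) (28,[(4,1227),(3,12192),(0,13)]) (37,[(1,3),(4,28416),(3,1652)])) (.leaf false ⟨⟨0,769,0⟩,⟨481,0,-600⟩,⟨600,0,481⟩⟩ (1,[(3,769)]) (49543,[(1,223416),(0,231361),(3,292300524)]) (49543,[(1,152057),(0,288600),(3,288636600)]))))) (.node ⟨0,0,1⟩ (.node ⟨0,481,600⟩ (.leaf false ⟨⟨0,-600,481⟩,⟨0,481,600⟩,⟨769,0,0⟩⟩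 (600,[(0,481),(2,591361)]) (1,[(0,1)]) (1,[(3,769)])) (.node ⟨-103,-336,684⟩ (.leaf false ⟨⟨-39,-752,-156⟩,⟨-4,-156,753⟩,⟨768,-39,-4⟩⟩ (4913,[(4,167142),(1,5248),(0,3483)]) (28,[(2,12192),(4,1227),(0,13)]) (37,[(2,1652),(4,28416),(1,3)])) (.leaf false ⟨⟨0,0,769⟩,⟨481,-600,0⟩,⟨600,481,0⟩⟩ (1,[(2,769)]) (49543,[(2,292300524),(0,231361),(1,223416)]) (49543,[(2,288636600),(0,288600),(1,152057)])))) (.node ⟨-140,-744,-135⟩ (.node ⟨744,193,-24⟩ (.node ⟨-24,193,-744⟩ (.leaf false ⟨⟨-140,-744,-135⟩,⟨-15,140,-756⟩,⟨756,-135,-40⟩⟩ (1,[(2,1)]) (62,[(5,582),(4,3479),(0,63)]) (93,[(5,70428),(4,13520),(0,5)])) (.leaf false ⟨⟨-96,-543,-536⟩,⟨129,-544,528⟩,⟨752,24,-159⟩⟩ (11219,[(3,5803090),(0,1149),(2,7890)]) (45868352,[(1,11774799),(0,37792463),(2,26788944)]) (9264,[(3,7172928),(1,9107),(0,7955)])))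 (.node ⟨168,-671,336⟩ (.leaf false ⟨⟨-711,-284,-72⟩,⟨156,-207,-724⟩,⟨248,-684,249⟩⟩ (193,[(3,20712),(5,74073),(1,284)]) (193,[(3,144700),(5,184116),(1,207)]) (671,[(3,62745),(5,51496),(0,684)])) (.leaf false ⟨⟨-756,-96,-103⟩,⟨49,348,-684⟩,⟨132,-679,-336⟩⟩ (48744,[(5,42294816),(1,101369),(0,22183)]) (1354,[(5,7712170),(1,9501),(0,3435)]) (677,[(5,4965900),(1,6300),(0,1127)])))) (.leaf false ⟨⟨60,185,-744⟩,⟨444,600,185⟩,⟨625,-444,-60⟩⟩ (7,[(1,5613),(0,3),(2,937)]) (35,[(1,8510),(0,111),(2,61584)]) (28,[(1,18555),(0,125),(2,105432)]))))) (.node ⟨0,1,0⟩ (.node ⟨0,0,1⟩ (.node ⟨481,0,600⟩ (.leaf false ⟨⟨-600,0,481⟩,⟨0,769,0⟩,⟨481,0,600⟩⟩ (600,[(3,591361),(0,481)]) (1,[(2,769)]) (1,[(0,1)])) (.node ⟨-336,-103,684⟩ (.leaf false ⟨⟨-752,-39,-156⟩,⟨-156,-4,753⟩,⟨-39,768,-4⟩⟩ (4913,[(0,3483),(1,5248),(3,167142)])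 (28,[(2,12192),(0,13),(3,1227)]) (37,[(2,1652),(1,3),(3,28416)])) (.leaf false ⟨⟨-756,84,113⟩,⟨72,761,-84⟩,⟨121,72,756⟩⟩ (49543,[(2,96889895),(1,106092),(0,40404)]) (49543,[(2,395178432),(1,248280),(0,366041)]) (1339,[(2,1842708),(1,317),(0,936)])))) (.node ⟨-756,-15,140⟩ (.node ⟨-135,-140,-744⟩ (.leaf false ⟨⟨-756,-15,140⟩,⟨-135,-140,-744⟩,⟨-40,756,-135⟩⟩ (1,[(1,1)]) (1,[(0,1)]) (189,[(2,26915),(1,10),(3,143034)])) (.leaf false ⟨⟨-768,-4,-39⟩,⟨-39,156,752⟩,⟨4,753,-156⟩⟩ (34605,[(2,8449003),(1,35660),(0,2832)]) (34605,[(2,4607848),(1,8840),(0,39507)]) (103815,[(2,453839192),(1,101095),(0,569208)]))) (.node ⟨-112,-159,-744⟩ (.leaf false ⟨⟨-744,-31,-192⟩,⟨-24,768,-31⟩,⟨193,-24,-744⟩⟩ (31,[(4,22168),(3,311),(0,8)]) (24,[(4,464),(3,18591),(0,1)]) (557,[(4,1130939),(1,1674),(0,242)]))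 (.leaf false ⟨⟨-744,60,185⟩,⟨-60,625,-444⟩,⟨185,444,600⟩⟩ (53,[(2,5075),(4,41672),(0,20)]) (159,[(2,535596),(4,79540),(0,625)]) (53,[(2,78312),(4,6771),(0,148)]))))) (.node ⟨0,0,1⟩ (.node ⟨-756,140,-15⟩ (.node ⟨-135,-744,-140⟩ (.leaf false ⟨⟨-756,140,-15⟩,⟨-135,-744,-140⟩,⟨-40,-135,756⟩⟩ (1,[(1,1)]) (1,[(0,1)]) (189,[(2,143034),(1,10),(3,26915)])) (.leaf false ⟨⟨-768,-39,-4⟩,⟨-39,752,156⟩,⟨4,-156,753⟩⟩ (34605,[(1,35660),(3,8449003),(0,2832)]) (34605,[(1,8840),(3,4607848),(0,39507)]) (103815,[(1,101095),(3,453839192),(0,569208)]))) (.node ⟨-112,-744,-159⟩ (.leaf false ⟨⟨-744,-192,-31⟩,⟨-24,-31,768⟩,⟨193,-744,-24⟩⟩ (31,[(2,311),(4,22168),(0,8)]) (24,[(2,18591),(4,464),(0,1)]) (557,[(4,1130939),(0,242),(1,1674)])) (.leaf false ⟨⟨-744,-159,112⟩,⟨-63,616,456⟩,⟨184,-432,609⟩⟩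 (159,[(4,130840),(3,108609),(0,112)]) (53,[(4,20363),(3,80440),(0,152)]) (53,[(4,12984),(3,173928),(0,203)])))) (.node ⟨-96,348,-679⟩ (.node ⟨-724,72,249⟩ (.leaf false ⟨⟨-756,49,132⟩,⟨-103,-684,-336⟩,⟨-96,348,-679⟩⟩ (181,[(2,23169),(0,189),(3,4739)]) (724,[(2,268911),(0,103),(3,502632)]) (1,[(1,1)])) (.leaf false ⟨⟨-724,-207,-156⟩,⟨72,284,-711⟩,⟨249,-684,-248⟩⟩ (83,[(4,97740),(3,13437),(0,52)]) (33885,[(1,30477),(4,4515640),(0,13648)]) (249,[(4,117551),(3,152460),(0,248)]))) (.leaf false ⟨⟨-752,-159,24⟩,⟨96,-536,-543⟩,⟨129,-528,544⟩⟩ (116,[(1,33203),(3,92320),(0,53)]) (87,[(1,138227),(3,4512),(0,134)]) (29,[(1,14100),(3,483),(0,44)])))))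
theorem h769_ok : h769.check (ok 769 4 ⟨3, 3, 3⟩) (fun _ r => r) [] = true := by decide +kernel

def h773 : T := .node ⟨1,0,0⟩ (.node ⟨0,1,0⟩ (.node ⟨0,0,1⟩ (.leaf false ⟨⟨0,0,773⟩,⟨0,773,0⟩,⟨773,0,0⟩⟩ (1,[(0,773)]) (1,[(1,773)]) (1,[(2,773)])) (.node ⟨-195,0,-748⟩ (.leaf false ⟨⟨-195,0,-748⟩,⟨0,773,0⟩,⟨748,0,-195⟩⟩ (1,[(0,1)]) (1,[(2,773)]) (748,[(3,597529),(0,195)])) (.node ⟨477,-100,-600⟩ (.leaf false ⟨⟨100,765,-48⟩,⟨477,-100,-600⟩,⟨600,-48,485⟩⟩ (39,[(2,16832),(1,20),(3,29835)]) (1,[(0,1)]) (1625,[(2,1056691),(0,780),(1,3092)])) (.leaf false ⟨⟨-744,188,93⟩,⟨-72,93,-764⟩,⟨197,744,72⟩⟩ (1625,[(2,2634079),(1,1273),(0,3055)]) (6500,[(2,17858476),(1,12387),(0,6045)]) (4875,[(2,91458956),(1,93647),(0,36270)]))))) (.node ⟨0,0,1⟩ (.node ⟨-195,-748,0⟩ (.leaf false ⟨⟨-195,-748,0⟩,⟨0,0,773⟩,⟨748,-195,0⟩⟩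 (1,[(0,1)]) (1,[(1,773)]) (748,[(3,597529),(0,195)])) (.node ⟨477,-600,-100⟩ (.leaf false ⟨⟨100,-48,765⟩,⟨477,-600,-100⟩,⟨600,485,-48⟩⟩ (39,[(2,29835),(1,20),(3,16832)]) (1,[(0,1)]) (1625,[(1,3092),(0,780),(3,1056691)])) (.leaf false ⟨⟨-744,-72,197⟩,⟨93,-764,72⟩,⟨188,93,744⟩⟩ (6500,[(1,6523),(3,13030204),(0,12805)]) (1625,[(1,3637),(3,4663976),(0,1170)]) (4875,[(1,93422),(3,91188281),(0,36270)])))) (.node ⟨72,-744,197⟩ (.node ⟨744,197,72⟩ (.leaf false ⟨⟨72,-744,197⟩,⟨93,-188,-744⟩,⟨764,93,72⟩⟩ (1,[(1,1)]) (8,[(2,6024),(0,1),(3,1701)]) (186,[(2,360),(0,191),(3,20329)])) (.leaf false ⟨⟨-675,-280,-252⟩,⟨252,-720,125⟩,⟨280,-27,-720⟩⟩ (197,[(2,29484),(4,75345),(0,280)]) (31,[(2,2035),(4,5652),(1,30)]) (197,[(2,139896),(4,75248),(0,27)]))) (.leaf false ⟨⟨-208,468,-579⟩,⟨-72,-611,-468⟩,⟨741,72,-208⟩⟩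 (197,[(3,712),(2,338580),(0,579)]) (197,[(3,19512),(2,468559),(0,468)]) (197,[(3,160953),(2,140568),(0,208)]))))) (.node ⟨0,1,0⟩ (.node ⟨0,0,1⟩ (.node ⟨-748,-195,0⟩ (.leaf false ⟨⟨-748,-195,0⟩,⟨-195,748,0⟩,⟨0,0,773⟩⟩ (1,[(0,1)]) (748,[(0,195),(2,597529)]) (1,[(1,773)])) (.node ⟨-600,477,-100⟩ (.leaf false ⟨⟨-600,477,-100⟩,⟨-48,100,765⟩,⟨485,600,-48⟩⟩ (1,[(0,1)]) (39,[(2,29835),(4,16832),(1,20)]) (1625,[(4,1056691),(0,780),(1,3092)])) (.leaf false ⟨⟨-771,-48,28⟩,⟨-28,672,381⟩,⟨48,-379,672⟩⟩ (1625,[(4,2059199),(1,713),(0,455)]) (500,[(4,5931484),(1,6383),(0,1905)]) (4875,[(4,72276428),(1,70661),(0,32760)])))) (.node ⟨-744,72,197⟩ (.node ⟨197,744,72⟩ (.leaf false ⟨⟨-744,72,197⟩,⟨-188,93,-744⟩,⟨93,764,72⟩⟩ (1,[(1,1)]) (8,[(2,6024),(4,1701),(0,1)]) (186,[(2,360),(4,20329),(0,191)]))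 (.leaf false ⟨⟨-748,48,189⟩,⟨-168,-539,-528⟩,⟨-99,552,-532⟩⟩ (23655,[(2,120427),(0,756),(1,23582)]) (197,[(2,91920),(0,168),(3,18809)]) (248,[(2,138437),(1,33),(3,134520)]))) (.leaf false ⟨⟨-656,-132,-387⟩,⟨-27,744,-208⟩,⟨408,-163,-636⟩⟩ (197,[(3,417160),(2,1860),(0,387)]) (197,[(3,160071),(2,161544),(0,208)]) (197,[(3,392808),(2,13681),(0,636)])))) (.node ⟨0,0,1⟩ (.node ⟨197,-744,72⟩ (.node ⟨72,197,744⟩ (.leaf false ⟨⟨-764,-72,93⟩,⟨72,197,744⟩,⟨93,-744,188⟩⟩ (8,[(4,6184),(3,773),(0,1)]) (1,[(0,1)]) (141930,[(4,17439653),(1,147643),(0,21576)])) (.leaf false ⟨⟨-720,-27,280⟩,⟨-252,-280,-675⟩,⟨125,-720,252⟩⟩ (197,[(2,75248),(4,139896),(0,27)]) (197,[(2,75345),(4,29484),(0,280)]) (31,[(2,5652),(4,2035),(1,30)]))) (.leaf false ⟨⟨-636,408,-163⟩,⟨-387,-656,-132⟩,⟨-208,-27,744⟩⟩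 (197,[(1,13681),(0,636),(2,392808)]) (197,[(1,1860),(0,387),(2,417160)]) (197,[(1,161544),(0,208),(2,160071)]))) (.node ⟨-720,-27,280⟩ (.node ⟨28,-672,381⟩ (.node ⟨48,-379,-672⟩ (.leaf false ⟨⟨-771,-48,-28⟩,⟨28,-672,381⟩,⟨48,-379,-672⟩⟩ (14,[(3,773),(5,10822),(1,1)]) (1,[(1,1)]) (1,[(0,1)])) (.leaf false ⟨⟨-771,48,28⟩,⟨-48,-379,-672⟩,⟨-28,-672,381⟩⟩ (3092,[(3,65302267),(0,73824),(1,41415)]) (5411,[(3,14303592),(0,10717),(1,9096)]) (773,[(3,1191966),(0,1344),(1,1531)]))) (.leaf false ⟨⟨-771,28,48⟩,⟨-48,-672,-379⟩,⟨-28,381,-672⟩⟩ (56432,[(0,36264),(1,59019),(3,21195799)]) (15,[(2,5965),(1,1),(3,10053)]) (1,[(2,291),(0,1),(3,291)]))) (.node ⟨-523,180,-540⟩ (.leaf false ⟨⟨-672,48,-379⟩,⟨-28,-771,-48⟩,⟨381,28,-672⟩⟩ (540,[(4,164663),(3,42300),(0,379)]) (35,[(4,5300),(3,27147),(1,6)])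 (5,[(4,6735),(3,184),(1,12)])) (.leaf false ⟨⟨-771,-48,-28⟩,⟨28,-672,381⟩,⟨48,-379,-672⟩⟩ (2985,[(4,4777744),(0,1183),(1,2580)]) (11940,[(4,101306873),(0,59291),(1,98100)]) (8955,[(4,74429278),(0,31066),(1,81405)]))))))
theorem h773_ok : h773.check (ok 773 4 ⟨3, 3, 3⟩) (fun _ r => r) [] = true := by decide +kernel

def h779 : T := .node ⟨1,0,0⟩ (.node ⟨0,1,0⟩ (.node ⟨0,0,1⟩ (.node ⟨-246,41,738⟩ (.node ⟨41,738,-246⟩ (.node ⟨-246,246,697⟩ (.leaf false ⟨⟨-246,246,697⟩,⟨41,738,-246⟩,⟨738,41,246⟩⟩ (1,[(0,1)]) (1,[(1,1)]) (6,[(3,779),(5,4674),(0,1)])) (.leaf false ⟨⟨-246,41,738⟩,⟨246,738,41⟩,⟨697,-246,246⟩⟩ (1,[(2,1)]) (1,[(1,36),(2,132),(0,127)]) (1,[(1,89),(2,336),(0,324)]))) (.leaf false ⟨⟨-246,41,738⟩,⟨246,738,41⟩,⟨697,-246,246⟩⟩ (1,[(1,1)]) (6,[(4,1517),(3,5166),(0,1)])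 (1,[(4,738),(3,492),(0,1)]))) (.leaf false ⟨⟨78,774,41⟩,⟨249,14,-738⟩,⟨734,-87,246⟩⟩ (41,[(1,11275),(0,13),(2,32267)]) (82,[(1,738),(0,83),(2,4551)]) (123,[(1,301104),(0,367),(2,4346)]))) (.node ⟨734,78,249⟩ (.node ⟨-14,738,249⟩ (.node ⟨-87,246,-734⟩ (.leaf false ⟨⟨-87,246,-734⟩,⟨-14,738,249⟩,⟨774,41,-78⟩⟩ (1,[(0,1)]) (1,[(1,1)]) (18,[(3,1653),(5,13946),(1,1)])) (.leaf false ⟨⟨-14,774,-87⟩,⟨249,-78,-734⟩,⟨738,41,246⟩⟩ (10127,[(3,3594306),(0,84),(1,10649)]) (10127,[(3,32040270),(0,30445),(1,9078)]) (1482,[(3,10520395),(0,13298),(1,4515)]))) (.leaf false ⟨⟨14,-87,-774⟩,⟨249,734,-78⟩,⟨738,-246,41⟩⟩ (1,[(2,525),(0,1),(3,651)]) (734,[(2,119253),(1,249),(3,519334)]) (1028,[(2,100778),(0,451),(1,1025)]))) (.leaf false ⟨⟨-599,186,-462⟩,⟨258,734,-39⟩,⟨426,-183,-626⟩⟩ (83,[(3,63319),(2,27450),(0,154)])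 (83,[(3,30956),(2,61936),(0,13)]) (249,[(3,565558),(2,3261),(0,626)])))) (.node ⟨0,0,1⟩ (.node ⟨734,249,78⟩ (.node ⟨-14,249,738⟩ (.node ⟨-87,-734,246⟩ (.leaf false ⟨⟨-87,-734,246⟩,⟨-14,249,738⟩,⟨774,-78,41⟩⟩ (1,[(0,1)]) (1,[(1,1)]) (18,[(5,13946),(4,1653),(1,1)])) (.leaf false ⟨⟨-14,-87,774⟩,⟨249,-734,-78⟩,⟨738,246,41⟩⟩ (10127,[(4,3594306),(1,10649),(0,84)]) (10127,[(4,32040270),(1,9078),(0,30445)]) (1482,[(4,10520395),(1,4515),(0,13298)]))) (.leaf false ⟨⟨14,-774,-87⟩,⟨249,-78,734⟩,⟨738,41,-246⟩⟩ (1,[(2,651),(0,1),(3,525)]) (734,[(2,519334),(1,249),(3,119253)]) (1028,[(1,1025),(0,451),(3,100778)]))) (.leaf false ⟨⟨-599,-462,186⟩,⟨258,-39,734⟩,⟨426,-626,-183⟩⟩ (83,[(1,27450),(3,63319),(0,154)]) (83,[(1,61936),(3,30956),(0,13)]) (249,[(1,3261),(3,565558),(0,626)]))) (.node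 ⟨-171,-760,0⟩ (.leaf false ⟨⟨-171,-760,0⟩,⟨0,0,-779⟩,⟨760,-171,0⟩⟩ (1,[(0,1)]) (1,[(1,779)]) (40,[(3,31939),(0,9)])) (.node ⟨690,105,346⟩ (.leaf false ⟨⟨6,-498,-599⟩,⟨454,489,-402⟩,⟨633,-346,294⟩⟩ (57,[(2,34143),(1,2),(3,29906)]) (171,[(2,68742),(1,454),(3,261421)]) (230,[(2,5386),(0,211),(3,101735)])) (.leaf false ⟨⟨-666,41,-402⟩,⟨94,-738,-231⟩,⟨393,246,-626⟩⟩ (3287,[(1,2608),(3,1446318),(0,3819)]) (59166,[(1,191914),(3,185371543),(0,39501)]) (3287,[(1,31551),(3,22545723),(0,5947)])))))) (.node ⟨0,1,0⟩ (.node ⟨0,0,1⟩ (.node ⟨249,78,734⟩ (.node ⟨249,738,-14⟩ (.node ⟨-734,246,-87⟩ (.leaf false ⟨⟨-734,246,-87⟩,⟨-78,41,774⟩,⟨249,738,-14⟩⟩ (1,[(0,1)]) (18,[(3,13946),(5,1653),(1,1)]) (1,[(1,1)])) (.leaf false ⟨⟨-770,54,105⟩,⟨54,-455,630⟩,⟨105,630,446⟩⟩ (10127,[(5,18636796),(1,5088),(0,13041)])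 (60762,[(5,362042587),(1,115395),(0,458570)]) (10127,[(5,47109246),(1,27421),(0,56328)]))) (.leaf false ⟨⟨-774,-87,14⟩,⟨-78,734,249⟩,⟨41,-246,738⟩⟩ (1,[(4,525),(3,651),(0,1)]) (734,[(4,119253),(3,519334),(1,249)]) (1028,[(4,100778),(1,1025),(0,451)]))) (.leaf false ⟨⟨-734,-183,186⟩,⟨-258,426,-599⟩,⟨-39,626,462⟩⟩ (249,[(1,585070),(0,734),(2,11685)]) (83,[(1,13407),(0,86),(2,42066)]) (83,[(1,47888),(0,13),(2,52972)]))) (.node ⟨0,-171,-760⟩ (.leaf false ⟨⟨-779,0,0⟩,⟨0,-171,-760⟩,⟨0,760,-171⟩⟩ (1,[(3,779)]) (1,[(0,1)]) (40,[(0,9),(2,31939)])) (.node ⟨346,690,105⟩ (.leaf false ⟨⟨-774,14,-87⟩,⟨-78,249,734⟩,⟨41,738,-246⟩⟩ (171,[(2,25517),(4,132354),(1,14)]) (57,[(2,21242),(4,4446),(1,83)]) (115,[(2,41205),(4,37843),(0,123)])) (.leaf false ⟨⟨-778,-39,-6⟩,⟨-39,742,234⟩,⟨-6,234,-743⟩⟩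 (9861,[(2,64018961),(0,22173),(1,87221)]) (59166,[(2,201022831),(0,6669),(1,283642)]) (3287,[(2,6029536),(0,57),(1,4728)]))))) (.node ⟨0,0,1⟩ (.node ⟨0,-760,-171⟩ (.leaf false ⟨⟨-779,0,0⟩,⟨0,-760,-171⟩,⟨0,-171,760⟩⟩ (1,[(3,779)]) (1,[(0,1)]) (40,[(1,31939),(0,9)])) (.node ⟨346,105,690⟩ (.leaf false ⟨⟨-774,-87,14⟩,⟨-78,734,249⟩,⟨41,-246,738⟩⟩ (171,[(1,14),(4,132354),(3,25517)]) (57,[(1,83),(4,4446),(3,21242)]) (115,[(4,37843),(3,41205),(0,123)])) (.leaf false ⟨⟨-778,-6,-39⟩,⟨-39,234,742⟩,⟨-6,-743,234⟩⟩ (9861,[(1,87221),(0,22173),(3,64018961)]) (59166,[(1,283642),(0,6669),(3,201022831)]) (3287,[(1,4728),(0,57),(3,6029536)])))) (.leaf false ⟨⟨-779,0,0⟩,⟨0,-779,0⟩,⟨0,0,-779⟩⟩ (1,[(2,779)]) (1,[(1,779)]) (1,[(0,779)]))))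
theorem h779_ok : h779.check (ok 779 4 ⟨3, 3, 3⟩) (fun _ r => r) [] = true := by decide +kernel

def h785 : T := .node ⟨1,0,0⟩ (.node ⟨0,1,0⟩ (.node ⟨0,0,1⟩ (.leaf false ⟨⟨0,0,785⟩,⟨0,785,0⟩,⟨785,0,0⟩⟩ (1,[(0,785)]) (1,[(1,785)]) (1,[(2,785)])) (.node ⟨0,736,273⟩ (.leaf false ⟨⟨0,273,-736⟩,⟨0,736,273⟩,⟨785,0,0⟩⟩ (736,[(1,616225),(0,273)]) (1,[(0,1)]) (1,[(3,785)])) (.leaf false ⟨⟨0,-471,-628⟩,⟨0,628,-471⟩,⟨785,0,0⟩⟩ (273,[(0,628),(2,333625)]) (91,[(0,157),(2,172700)]) (1,[(3,785)])))) (.node ⟨0,0,1⟩ (.node ⟨0,273,736⟩ (.leaf false ⟨⟨0,-736,273⟩,⟨0,273,736⟩,⟨785,0,0⟩⟩ (736,[(0,273),(2,616225)]) (1,[(0,1)]) (1,[(3,785)])) (.leaf false ⟨⟨0,-628,-471⟩,⟨0,-471,628⟩,⟨785,0,0⟩⟩ (273,[(1,333625),(0,628)]) (91,[(1,172700),(0,157)]) (1,[(3,785)]))) (.node ⟨0,56,-783⟩ (.leaf false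 ⟨⟨0,-783,-56⟩,⟨0,56,-783⟩,⟨785,0,0⟩⟩ (783,[(0,56),(2,616225)]) (1,[(0,1)]) (1,[(3,785)])) (.leaf false ⟨⟨0,-783,56⟩,⟨0,-56,-783⟩,⟨785,0,0⟩⟩ (56,[(1,609953),(0,783)]) (1,[(1,1566),(0,1)]) (1,[(3,785)]))))) (.node ⟨0,1,0⟩ (.node ⟨0,0,1⟩ (.node ⟨273,0,736⟩ (.leaf false ⟨⟨-736,0,273⟩,⟨0,785,0⟩,⟨273,0,736⟩⟩ (736,[(3,616225),(0,273)]) (1,[(2,785)]) (1,[(0,1)])) (.leaf false ⟨⟨-628,0,-471⟩,⟨-471,0,628⟩,⟨0,785,0⟩⟩ (273,[(1,333625),(0,628)]) (91,[(1,172700),(0,157)]) (1,[(2,785)]))) (.node ⟨56,0,-783⟩ (.leaf false ⟨⟨-783,0,-56⟩,⟨0,785,0⟩,⟨56,0,-783⟩⟩ (783,[(3,616225),(0,56)]) (1,[(2,785)]) (1,[(0,1)])) (.leaf false ⟨⟨-783,0,56⟩,⟨-56,0,-783⟩,⟨0,785,0⟩⟩ (56,[(1,609953),(0,783)]) (1,[(1,1566),(0,1)]) (1,[(2,785)])))) (.node ⟨0,0,1⟩ (.node ⟨56,-783,0⟩ (.leaf false ⟨⟨-783,-56,0⟩,⟨0,0,785⟩,⟨56,-783,0⟩⟩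 (783,[(3,616225),(0,56)]) (1,[(1,785)]) (1,[(0,1)])) (.leaf false ⟨⟨-783,56,0⟩,⟨-56,-783,0⟩,⟨0,0,785⟩⟩ (56,[(0,783),(2,609953)]) (1,[(0,1),(2,1566)]) (1,[(1,785)]))) (.node ⟨-180,385,-660⟩ (.node ⟨-740,-168,201⟩ (.node ⟨60,-695,-360⟩ (.leaf false ⟨⟨-740,-168,201⟩,⟨-255,324,-668⟩,⟨60,-695,-360⟩⟩ (1,[(1,1)]) (165,[(2,167),(5,12015),(4,10835)]) (1,[(0,1)])) (.leaf false ⟨⟨-768,-124,105⟩,⟨-151,732,-240⟩,⟨-60,-255,-740⟩⟩ (5,[(3,22515),(0,64),(4,45100)]) (60,[(3,68760),(0,151),(4,61025)]) (1,[(3,1100),(0,1),(4,950)]))) (.leaf false ⟨⟨-780,-16,-87⟩,⟨60,-663,-416⟩,⟨65,420,-660⟩⟩ (67,[(4,73720),(3,5944),(0,29)]) (201,[(4,295780),(3,203151),(0,416)]) (67,[(4,158445),(3,8820),(0,220)]))) (.leaf false ⟨⟨-780,-87,-16⟩,⟨60,-416,-663⟩,⟨65,-660,420⟩⟩ (385,[(1,63580),(3,315960),(0,87)])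 (385,[(1,529815),(3,51780),(0,416)]) (7,[(1,4980),(3,1705),(0,12)])))))
theorem h785_ok : h785.check (ok 785 4 ⟨3, 3, 3⟩) (fun _ r => r) [] = true := by decide +kernel

def h787 : T := .node ⟨1,0,0⟩ (.node ⟨0,1,0⟩ (.node ⟨0,0,1⟩ (.node ⟨-495,338,510⟩ (.node ⟨337,630,-330⟩ (.node ⟨545,-330,462⟩ (.leaf false ⟨⟨-330,337,630⟩,⟨462,630,-95⟩,⟨545,-330,462⟩⟩ (3,[(3,870),(4,335),(2,2)]) (1,[(3,235),(5,125),(1,1)]) (1,[(0,1)])) (.leaf false ⟨⟨-594,418,-303⟩,⟨58,513,594⟩,⟨513,426,-418⟩⟩ (15,[(3,4233),(5,1445),(0,19)]) (110,[(3,144342),(5,99575),(0,171)]) (55,[(3,9812),(5,66910),(0,71)]))) (.leaf false ⟨⟨-554,33,558⟩,⟨222,734,177⟩,⟨513,-282,526⟩⟩ (55,[(4,871),(3,60405),(0,93)]) (110,[(4,44303),(3,117910),(0,59)]) (165,[(4,173276),(3,119160),(0,263)]))) (.leaf false ⟨⟨33,114,778⟩,⟨418,657,-114⟩,⟨666,-418,33⟩⟩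 (15,[(1,12180),(0,1),(2,2048)]) (45,[(1,14250),(0,38),(2,42409)]) (55,[(1,39555),(0,74),(2,2022)]))) (.node ⟨-418,594,-303⟩ (.node ⟨162,-175,-750⟩ (.node ⟨750,210,113⟩ (.leaf false ⟨⟨-175,738,-210⟩,⟨162,-175,-750⟩,⟨750,210,113⟩⟩ (101,[(5,11585),(4,32958),(2,70)]) (1,[(1,1)]) (1,[(0,1)])) (.leaf false ⟨⟨-770,-63,-150⟩,⟨-15,750,-238⟩,⟨162,-230,-735⟩⟩ (113,[(5,25490),(4,24381),(0,150)]) (113,[(5,176805),(4,134730),(0,238)]) (113,[(5,569556),(4,128360),(0,735)]))) (.leaf false ⟨⟨-498,561,238⟩,⟨238,462,-591⟩,⟨561,302,462⟩⟩ (175,[(2,379100),(4,3732),(0,561)]) (25,[(2,64275),(4,16642),(0,66)]) (175,[(2,145650),(4,147099),(0,302)]))) (.leaf false ⟨⟨33,22,-786⟩,⟨302,726,33⟩,⟨726,-303,22⟩⟩ (38,[(1,30777),(0,3),(2,2618)]) (209,[(1,38856),(0,151),(2,241428)]) (19,[(1,9581),(0,33),(2,13845)]))))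 (.node ⟨0,0,1⟩ (.node ⟨-418,-303,594⟩ (.node ⟨162,-750,-175⟩ (.node ⟨750,113,210⟩ (.leaf false ⟨⟨-175,-210,738⟩,⟨162,-750,-175⟩,⟨750,113,210⟩⟩ (101,[(3,32958),(5,11585),(2,70)]) (1,[(1,1)]) (1,[(0,1)])) (.leaf false ⟨⟨-770,-150,-63⟩,⟨-15,-238,750⟩,⟨162,-735,-230⟩⟩ (113,[(3,24381),(5,25490),(0,150)]) (113,[(3,134730),(5,176805),(0,238)]) (113,[(3,128360),(5,569556),(0,735)]))) (.leaf false ⟨⟨-498,22,609⟩,⟨321,678,238⟩,⟨518,-399,438⟩⟩ (25,[(4,1644),(3,64700),(0,87)]) (25,[(4,13533),(3,8550),(0,34)]) (175,[(4,161606),(3,398325),(0,438)]))) (.leaf false ⟨⟨33,-786,22⟩,⟨302,33,726⟩,⟨726,22,-303⟩⟩ (38,[(1,2618),(0,3),(2,30777)]) (209,[(1,241428),(0,151),(2,38856)]) (19,[(1,13845),(0,33),(2,9581)]))) (.node ⟨-238,-735,-150⟩ (.node ⟨-15,238,-750⟩ (.leaf false ⟨⟨-238,-735,-150⟩,⟨-15,162,-770⟩,⟨750,-230,-63⟩⟩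 (1,[(1,1)]) (75,[(4,30),(3,6176),(0,77)]) (250,[(4,187815),(3,62498),(0,21)])) (.leaf false ⟨⟨-222,-751,-78⟩,⟨481,-78,-618⟩,⟨582,-222,481⟩⟩ (97825,[(4,1223172),(0,9220),(1,96969)]) (119,[(2,102792),(4,56654),(0,39)]) (119,[(2,26011),(4,67593),(0,111)]))) (.leaf false ⟨⟨14,-783,-78⟩,⟨273,78,-734⟩,⟨738,-14,273⟩⟩ (17,[(1,1476),(0,1),(2,14046)]) (34,[(1,30806),(0,39),(2,26013)]) (119,[(1,22863),(0,369),(2,272881)]))))) (.node ⟨0,1,0⟩ (.node ⟨0,0,1⟩ (.node ⟨-303,594,-418⟩ (.node ⟨-750,-175,162⟩ (.node ⟨113,210,750⟩ (.leaf false ⟨⟨-750,-175,162⟩,⟨-210,738,-175⟩,⟨113,210,750⟩⟩ (1,[(1,1)]) (101,[(3,11585),(2,70),(4,32958)]) (1,[(0,1)])) (.leaf false ⟨⟨-770,-63,150⟩,⟨-162,230,-735⟩,⟨-15,750,238⟩⟩ (113,[(3,594450),(0,770),(4,154581)]) (113,[(3,38445),(0,162),(4,60010)]) (113,[(3,38144),(0,15),(4,87900)])))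 (.leaf false ⟨⟨-786,33,22⟩,⟨22,726,-303⟩,⟨33,302,726⟩⟩ (175,[(2,9196),(4,162300),(0,33)]) (175,[(2,64587),(4,540650),(0,726)]) (175,[(2,175974),(4,220725),(0,302)]))) (.leaf false ⟨⟨-786,22,33⟩,⟨22,-303,726⟩,⟨33,726,302⟩⟩ (38,[(3,30777),(2,2618),(0,3)]) (19,[(3,9581),(2,13845),(0,33)]) (209,[(3,38856),(2,241428),(0,151)]))) (.node ⟨-150,-238,-735⟩ (.node ⟨-750,-15,238⟩ (.leaf false ⟨⟨-770,-15,162⟩,⟨-150,-238,-735⟩,⟨-63,750,-230⟩⟩ (75,[(2,6176),(0,77),(3,30)]) (1,[(1,1)]) (250,[(2,62498),(0,21),(3,187815)])) (.leaf false ⟨⟨-750,-63,-230⟩,⟨-15,770,-162⟩,⟨238,-150,-735⟩⟩ (147,[(1,46),(4,103350),(3,1687)]) (119,[(4,62535),(3,90415),(0,81)]) (41925,[(1,35329),(3,1814002),(0,20370)]))) (.leaf false ⟨⟨-786,33,22⟩,⟨22,726,-303⟩,⟨33,302,726⟩⟩ (238,[(1,19019),(3,192018),(0,33)])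 (119,[(1,302862),(3,51832),(0,363)]) (119,[(1,24591),(3,18723),(0,151)])))) (.node ⟨0,0,1⟩ (.node ⟨-150,-735,-238⟩ (.node ⟨-750,238,-15⟩ (.leaf false ⟨⟨-770,162,-15⟩,⟨-150,-735,-238⟩,⟨-63,-230,750⟩⟩ (75,[(2,30),(0,77),(3,6176)]) (1,[(1,1)]) (250,[(2,187815),(0,21),(3,62498)])) (.leaf false ⟨⟨-750,-230,-63⟩,⟨-15,-162,770⟩,⟨238,-735,-150⟩⟩ (147,[(2,1687),(4,103350),(1,46)]) (119,[(2,90415),(4,62535),(0,81)]) (41925,[(2,1814002),(1,35329),(0,20370)]))) (.leaf false ⟨⟨-786,22,33⟩,⟨22,-303,726⟩,⟨33,726,302⟩⟩ (238,[(3,192018),(2,19019),(0,33)]) (119,[(3,51832),(2,302862),(0,363)]) (119,[(3,18723),(2,24591),(0,151)]))) (.leaf false ⟨⟨-787,0,0⟩,⟨0,-787,0⟩,⟨0,0,-787⟩⟩ (1,[(2,787)]) (1,[(1,787)]) (1,[(0,787)]))))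
theorem h787_ok : h787.check (ok 787 4 ⟨3, 3, 3⟩) (fun _ r => r) [] = true := by decide +kernel


end H34S
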