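import Pool.Agent.Lib.H34S.Cover

/-!
# H34S: certificates (generated), hexagonal numbers
-/

set_option autoImplicit false

namespace H34S

def h793 : T := .node ⟨1,0,0⟩ (.node ⟨0,1,0⟩ (.node ⟨0,0,1⟩ (.leaf false ⟨⟨0,0,793⟩,⟨0,793,0⟩,⟨793,0,0⟩⟩ (1,[(0,793)]) (1,[(1,793)]) (1,[(2,793)])) (.node ⟨-143,0,-780⟩ (.leaf false ⟨⟨-143,0,-780⟩,⟨0,793,0⟩,⟨780,0,-143⟩⟩ (1,[(0,1)]) (1,[(2,793)]) (60,[(3,48373),(0,11)])) (.leaf false ⟨⟨0,793,0⟩,⟨305,0,-732⟩,⟨732,0,305⟩⟩ (1,[(2,793)]) (143,[(1,342576),(0,305)]) (143,[(1,527345),(0,732)])))) (.node ⟨0,0,1⟩ (.node ⟨-143,-780,0⟩ (.leaf false ⟨⟨-143,-780,0⟩,⟨0,0,793⟩,⟨780,-143,0⟩⟩ (1,[(0,1)]) (1,[(1,793)]) (60,[(3,48373),(0,11)])) (.leaf false ⟨⟨0,0,793⟩,⟨305,-732,0⟩,⟨732,305,0⟩⟩ (1,[(1,793)]) (143,[(0,305),(2,342576)]) (143,[(0,732),(2,527345)])))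 (.node ⟨0,168,-775⟩ (.leaf false ⟨⟨0,-775,-168⟩,⟨0,168,-775⟩,⟨793,0,0⟩⟩ (775,[(0,168),(2,628849)]) (1,[(0,1)]) (1,[(3,793)])) (.leaf false ⟨⟨0,-775,168⟩,⟨0,-168,-775⟩,⟨793,0,0⟩⟩ (168,[(1,572401),(0,775)]) (1,[(1,1550),(0,1)]) (1,[(3,793)]))))) (.node ⟨0,1,0⟩ (.node ⟨0,0,1⟩ (.node ⟨-780,-143,0⟩ (.leaf false ⟨⟨-780,-143,0⟩,⟨-143,780,0⟩,⟨0,0,793⟩⟩ (1,[(0,1)]) (60,[(0,11),(2,48373)]) (1,[(1,793)])) (.leaf false ⟨⟨-732,305,0⟩,⟨0,0,793⟩,⟨305,732,0⟩⟩ (143,[(3,342576),(0,305)]) (1,[(1,793)]) (143,[(3,527345),(0,732)]))) (.node ⟨168,0,-775⟩ (.leaf false ⟨⟨-775,0,-168⟩,⟨0,793,0⟩,⟨168,0,-775⟩⟩ (775,[(3,628849),(0,168)]) (1,[(2,793)]) (1,[(0,1)])) (.leaf false ⟨⟨-775,0,168⟩,⟨-168,0,-775⟩,⟨0,793,0⟩⟩ (168,[(1,572401),(0,775)]) (1,[(1,1550),(0,1)]) (1,[(2,793)])))) (.node ⟨0,0,1⟩ (.node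 ⟨168,-775,0⟩ (.leaf false ⟨⟨-775,-168,0⟩,⟨0,0,793⟩,⟨168,-775,0⟩⟩ (775,[(3,628849),(0,168)]) (1,[(1,793)]) (1,[(0,1)])) (.leaf false ⟨⟨-775,168,0⟩,⟨-168,-775,0⟩,⟨0,0,793⟩⟩ (168,[(0,775),(2,572401)]) (1,[(0,1),(2,1550)]) (1,[(1,793)]))) (.node ⟨-396,468,-503⟩ (.node ⟨377,-456,-528⟩ (.node ⟨-312,-647,336⟩ (.leaf false ⟨⟨-624,48,-487⟩,⟨-312,-647,336⟩,⟨377,-456,-528⟩⟩ (39,[(3,16981),(2,4),(5,22752)]) (1,[(0,1)]) (1,[(1,1)])) (.leaf false ⟨⟨-792,17,-36⟩,⟨17,-504,-612⟩,⟨36,612,-503⟩⟩ (28,[(5,23112),(4,1465),(0,3)]) (28,[(5,15436),(4,47109),(0,51)]) (336,[(5,144840),(4,119809),(0,503)]))) (.leaf false ⟨⟨-687,136,372⟩,⟨-312,273,-676⟩,⟨-244,-732,-183⟩⟩ (377,[(2,222492),(0,687),(3,262000)]) (29,[(2,32276),(0,24),(3,3027)]) (377,[(2,197823),(0,244),(3,387228)]))) (.leaf false ⟨⟨-728,-84,-303⟩,⟨-156,-567,532⟩,⟨273,-548,-504⟩⟩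 (39,[(1,15338),(3,31164),(0,7)]) (52,[(1,4025),(3,33060),(0,63)]) (117,[(1,127879),(3,22311),(0,137)])))))
theorem h793_ok : h793.check (ok 793 4 ⟨3, 3, 3⟩) (fun _ r => r) [] = true := by decide +kernel

def h797 : T := .node ⟨1,0,0⟩ (.node ⟨0,1,0⟩ (.node ⟨0,0,1⟩ (.leaf false ⟨⟨0,0,797⟩,⟨0,797,0⟩,⟨797,0,0⟩⟩ (1,[(0,797)]) (1,[(1,797)]) (1,[(2,797)])) (.node ⟨-555,0,-572⟩ (.leaf false ⟨⟨-555,0,-572⟩,⟨0,797,0⟩,⟨572,0,-555⟩⟩ (1,[(0,1)]) (1,[(2,797)]) (572,[(3,635209),(0,555)])) (.node ⟨725,-228,240⟩ (.node ⟨-3,240,-760⟩ (.leaf false ⟨⟨-3,240,-760⟩,⟨240,725,228⟩,⟨760,-228,-75⟩⟩ (1,[(0,1)]) (37,[(3,716),(2,16),(4,26825)]) (111,[(3,38969),(1,111),(2,7)])) (.leaf false ⟨⟨4,213,768⟩,⟨528,-576,157⟩,⟨597,508,-144⟩⟩ (3,[(3,736),(0,4),(4,1599)]) (1,[(3,133603),(0,176),(4,41664)]) (1,[(3,151384),(0,199),(4,48268)])))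 (.leaf false ⟨⟨-716,333,-108⟩,⟨108,444,653⟩,⟨333,572,-444⟩⟩ (42180,[(2,4675988),(1,26059),(0,61605)]) (10545,[(2,4703359),(1,28877),(0,20535)]) (31635,[(2,65157572),(1,122656),(0,79365)]))))) (.node ⟨0,0,1⟩ (.node ⟨-555,-572,0⟩ (.leaf false ⟨⟨-555,-572,0⟩,⟨0,0,797⟩,⟨572,-555,0⟩⟩ (1,[(0,1)]) (1,[(1,797)]) (572,[(3,635209),(0,555)])) (.node ⟨725,240,-228⟩ (.node ⟨-3,-760,240⟩ (.leaf false ⟨⟨-3,-760,240⟩,⟨240,228,725⟩,⟨760,-75,-228⟩⟩ (1,[(0,1)]) (37,[(3,26825),(2,16),(4,716)]) (111,[(2,7),(1,111),(4,38969)])) (.leaf false ⟨⟨4,213,768⟩,⟨528,-576,157⟩,⟨597,508,-144⟩⟩ (3,[(3,3264),(0,4),(4,2401)]) (1,[(3,42397),(0,176),(4,134336)]) (1,[(3,47616),(0,199),(4,150732)]))) (.leaf false ⟨⟨-716,-108,333⟩,⟨108,653,444⟩,⟨333,-444,572⟩⟩ (42180,[(1,26059),(3,4675988),(0,61605)]) (10545,[(1,28877),(3,4703359),(0,20535)])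 (31635,[(1,122656),(3,65157572),(0,79365)])))) (.node ⟨112,168,-771⟩ (.node ⟨0,-555,572⟩ (.leaf false ⟨⟨0,-572,-555⟩,⟨0,-555,572⟩,⟨797,0,0⟩⟩ (555,[(2,635209),(0,572)]) (1,[(0,1)]) (1,[(4,797)])) (.node ⟨-276,-563,-492⟩ (.leaf false ⟨⟨-276,-563,-492⟩,⟨212,444,-627⟩,⟨717,-348,-4⟩⟩ (1,[(0,1)]) (52,[(1,57),(5,11024),(4,8547)]) (123,[(5,88467),(4,42241),(0,1)])) (.leaf false ⟨⟨4,-627,-492⟩,⟨348,444,-563⟩,⟨717,-212,276⟩⟩ (9867,[(1,8610),(0,143),(4,11045668)]) (13156,[(1,27217),(0,16588),(4,18603215)]) (1012,[(1,1773),(0,2629),(4,2678686)])))) (.leaf false ⟨⟨-428,-651,-168⟩,⟨21,-212,768⟩,⟨672,-408,-131⟩⟩ (8,[(1,25245),(3,48),(0,31)]) (42,[(1,8607),(3,6818),(0,53)]) (7,[(1,14024),(3,6608),(0,17)]))))) (.node ⟨0,1,0⟩ (.node ⟨0,0,1⟩ (.node ⟨-572,-555,0⟩ (.leaf false ⟨⟨-572,-555,0⟩,⟨-555,572,0⟩,⟨0,0,797⟩⟩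 (1,[(0,1)]) (572,[(0,555),(2,635209)]) (1,[(1,797)])) (.node ⟨240,725,-228⟩ (.node ⟨-760,-3,240⟩ (.leaf false ⟨⟨-760,-3,240⟩,⟨-75,760,-228⟩,⟨228,240,725⟩⟩ (1,[(0,1)]) (111,[(5,38969),(1,111),(2,7)]) (37,[(3,26825),(5,716),(2,16)])) (.leaf false ⟨⟨-788,24,117⟩,⟨-24,733,-312⟩,⟨117,312,724⟩⟩ (1,[(3,2037),(5,6868),(0,8)]) (3,[(3,174984),(5,557152),(0,733)]) (1,[(3,25684),(5,78923),(0,104)]))) (.leaf false ⟨⟨-788,-24,117⟩,⟨24,733,312⟩,⟨117,-312,724⟩⟩ (14060,[(4,14391004),(1,8817),(0,7215)]) (10545,[(4,15032164),(1,32777),(0,14430)]) (31635,[(4,37077757),(1,113441),(0,100455)])))) (.node ⟨168,112,-771⟩ (.node ⟨-555,0,572⟩ (.leaf false ⟨⟨-572,0,-555⟩,⟨-555,0,572⟩,⟨0,797,0⟩⟩ (555,[(2,635209),(0,572)]) (1,[(0,1)]) (1,[(3,797)])) (.node ⟨-563,-276,-492⟩ (.leaf false ⟨⟨-779,-12,-168⟩,⟨12,789,-112⟩,⟨168,-112,-771⟩⟩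 (41,[(5,24057),(4,3372),(0,14)]) (143,[(5,13824),(4,112827),(1,28)]) (39468,[(5,6232133),(1,39423),(0,16016)])) (.leaf false ⟨⟨-779,12,-168⟩,⟨-12,789,112⟩,⟨168,112,-771⟩⟩ (299,[(5,295185),(0,13),(1,99)]) (13156,[(5,37855754),(0,37609),(1,29773)]) (39468,[(5,39557509),(0,16016),(1,66975)])))) (.leaf false ⟨⟨-779,12,168⟩,⟨-168,-112,-771⟩,⟨-12,789,-112⟩⟩ (168,[(1,572385),(0,779),(2,89264)]) (1,[(1,1542),(0,1)]) (14,[(1,2339),(0,1),(2,11158)])))) (.node ⟨0,0,1⟩ (.node ⟨168,-771,112⟩ (.node ⟨-555,572,0⟩ (.leaf false ⟨⟨-572,-555,0⟩,⟨-555,572,0⟩,⟨0,0,797⟩⟩ (555,[(0,572),(3,635209)]) (1,[(0,1)]) (1,[(2,797)])) (.node ⟨-563,-492,-276⟩ (.leaf false ⟨⟨-779,-168,-12⟩,⟨12,-112,789⟩,⟨168,-771,-112⟩⟩ (41,[(3,3372),(5,24057),(0,14)]) (143,[(3,112827),(5,13824),(1,28)]) (39468,[(5,6232133),(0,16016),(1,39423)]))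 (.leaf false ⟨⟨-779,-168,12⟩,⟨-12,112,789⟩,⟨168,-771,112⟩⟩ (299,[(5,295185),(1,99),(0,13)]) (13156,[(5,37855754),(1,29773),(0,37609)]) (39468,[(5,39557509),(1,66975),(0,16016)])))) (.leaf false ⟨⟨-779,168,12⟩,⟨-168,-771,-112⟩,⟨-12,-112,789⟩⟩ (168,[(1,89264),(0,779),(2,572385)]) (1,[(0,1),(2,1542)]) (14,[(1,11158),(0,1),(2,2339)]))) (.node ⟨-276,373,-648⟩ (.node ⟨-747,-108,256⟩ (.leaf false ⟨⟨-747,-108,256⟩,⟨-276,373,-648⟩,⟨-32,-696,-387⟩⟩ (1,[(0,1)]) (1,[(1,1)]) (69,[(2,21519),(1,8),(3,51008)])) (.leaf false ⟨⟨-747,-276,-32⟩,⟨-108,373,-696⟩,⟨256,-648,-387⟩⟩ (8,[(4,6723),(3,2316),(0,1)]) (23113,[(1,22815),(3,438350),(0,5088)]) (256,[(4,223553),(3,207684),(0,387)]))) (.leaf false ⟨⟨-788,-51,-108⟩,⟨-51,-508,612⟩,⟨108,-612,-499⟩⟩ (373,[(1,73332),(3,308000),(0,51)]) (373,[(1,100908),(3,159231),(0,508)])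 (373,[(1,582703),(3,128628),(0,612)])))))
theorem h797_ok : h797.check (ok 797 4 ⟨3, 3, 3⟩) (fun _ r => r) [] = true := by decide +kernel

def h809 : T := .node ⟨1,0,0⟩ (.node ⟨0,1,0⟩ (.node ⟨0,0,1⟩ (.leaf false ⟨⟨0,0,809⟩,⟨0,809,0⟩,⟨809,0,0⟩⟩ (1,[(0,809)]) (1,[(1,809)]) (1,[(2,809)])) (.node ⟨-120,120,-791⟩ (.node ⟨348,576,449⟩ (.node ⟨729,-244,-252⟩ (.leaf false ⟨⟨-44,513,-624⟩,⟨348,576,449⟩,⟨729,-244,-252⟩⟩ (30,[(3,10019),(4,14070),(2,11)]) (1,[(1,1)]) (1,[(0,1)])) (.leaf false ⟨⟨-708,289,264⟩,⟨-231,132,-764⟩,⟨316,744,33⟩⟩ (244,[(3,8412),(5,37929),(0,289)]) (61,[(3,54920),(5,9966),(0,33)]) (61,[(3,44859),(5,154870),(0,186)]))) (.leaf false ⟨⟨-471,-208,-624⟩,⟨208,681,-384⟩,⟨624,-384,-343⟩⟩ (449,[(4,5673),(3,266032),(0,624)]) (449,[(4,227024),(3,526953),(0,384)]) (449,[(4,399540),(3,25152),(0,343)])))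 (.leaf false ⟨⟨1,756,-288⟩,⟨432,-244,-639⟩,⟨684,153,404⟩⟩ (120,[(1,35351),(0,1),(2,90840)]) (5,[(1,17433),(0,18),(2,940)]) (10,[(1,41047),(0,57),(2,8370)])))) (.node ⟨0,0,1⟩ (.node ⟨-120,-791,120⟩ (.node ⟨348,449,576⟩ (.node ⟨729,-252,-244⟩ (.leaf false ⟨⟨-44,-624,513⟩,⟨348,449,576⟩,⟨729,-252,-244⟩⟩ (30,[(3,14070),(4,10019),(2,11)]) (1,[(1,1)]) (1,[(0,1)])) (.leaf false ⟨⟨-708,-231,316⟩,⟨264,-764,33⟩,⟨289,132,744⟩⟩ (61,[(5,14403),(4,33999),(0,79)]) (244,[(5,88473),(4,194732),(0,33)]) (61,[(5,153223),(4,38820),(0,186)]))) (.leaf false ⟨⟨-471,-624,-208⟩,⟨208,-384,681⟩,⟨624,-343,-384⟩⟩ (449,[(2,266032),(4,5673),(0,624)]) (449,[(2,526953),(4,227024),(0,384)]) (449,[(2,25152),(4,399540),(0,343)]))) (.leaf false ⟨⟨1,-288,756⟩,⟨432,-639,-244⟩,⟨684,404,153⟩⟩ (120,[(1,90840),(0,1),(2,35351)])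 (5,[(1,940),(0,18),(2,17433)]) (10,[(1,8370),(0,57),(2,41047)]))) (.node ⟨0,280,-759⟩ (.leaf false ⟨⟨0,-759,-280⟩,⟨0,280,-759⟩,⟨809,0,0⟩⟩ (759,[(0,280),(2,654481)]) (1,[(0,1)]) (1,[(3,809)])) (.leaf false ⟨⟨0,-759,280⟩,⟨0,-280,-759⟩,⟨809,0,0⟩⟩ (280,[(1,497681),(0,759)]) (1,[(1,1518),(0,1)]) (1,[(3,809)]))))) (.node ⟨0,1,0⟩ (.node ⟨0,0,1⟩ (.node ⟨-791,-120,120⟩ (.node ⟨449,348,576⟩ (.node ⟨-252,729,-244⟩ (.leaf false ⟨⟨-624,-44,513⟩,⟨-252,729,-244⟩,⟨449,348,576⟩⟩ (30,[(3,14070),(2,11),(5,10019)]) (1,[(0,1)]) (1,[(1,1)])) (.leaf false ⟨⟨-807,-44,36⟩,⟨-36,792,161⟩,⟨44,-159,792⟩⟩ (61,[(5,51495),(4,3877),(0,9)]) (244,[(5,49356),(4,310617),(0,161)]) (61,[(5,47212),(4,134643),(0,198)]))) (.leaf false ⟨⟨-728,-351,36⟩,⟨-351,712,-156⟩,⟨-36,156,793⟩⟩ (449,[(2,435492),(0,728),(3,95745)])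 (449,[(2,132132),(0,351),(3,441836)]) (449,[(2,376793),(0,36),(3,82572)]))) (.leaf false ⟨⟨-791,120,-120⟩,⟨-120,9,800⟩,⟨120,800,9⟩⟩ (1,[(3,1582),(0,1)]) (40,[(1,32360),(3,7173),(0,3)]) (3,[(1,2427),(3,15460),(0,20)]))) (.node ⟨280,0,-759⟩ (.leaf false ⟨⟨-759,0,-280⟩,⟨0,809,0⟩,⟨280,0,-759⟩⟩ (759,[(3,654481),(0,280)]) (1,[(2,809)]) (1,[(0,1)])) (.leaf false ⟨⟨-759,0,280⟩,⟨-280,0,-759⟩,⟨0,809,0⟩⟩ (280,[(1,497681),(0,759)]) (1,[(1,1518),(0,1)]) (1,[(2,809)])))) (.node ⟨0,0,1⟩ (.node ⟨280,-759,0⟩ (.leaf false ⟨⟨-759,-280,0⟩,⟨0,0,809⟩,⟨280,-759,0⟩⟩ (759,[(3,654481),(0,280)]) (1,[(1,809)]) (1,[(0,1)])) (.leaf false ⟨⟨-759,280,0⟩,⟨-280,-759,0⟩,⟨0,0,809⟩⟩ (280,[(0,759),(2,497681)]) (1,[(0,1),(2,1518)]) (1,[(1,809)]))) (.node ⟨-36,161,-792⟩ (.node ⟨-791,120,120⟩ (.leaf false ⟨⟨-807,36,44⟩,⟨-44,-792,-159⟩,⟨-36,161,-792⟩⟩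 (791,[(2,62036),(0,807),(3,68364)]) (791,[(2,131049),(0,44),(3,631752)]) (1,[(1,1)])) (.leaf false ⟨⟨-800,9,-120⟩,⟨9,-800,-120⟩,⟨120,120,-791⟩⟩ (33,[(1,5),(4,26220),(3,508)]) (1,[(4,782),(3,680),(0,1)]) (114360,[(1,109320),(4,7899281),(0,32311)]))) (.leaf false ⟨⟨-804,-64,-63⟩,⟨12,-639,496⟩,⟨89,-492,-636⟩⟩ (161,[(1,60831),(3,131748),(0,64)]) (161,[(1,426232),(3,21072),(0,639)]) (161,[(1,492060),(3,3383),(0,492)])))))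
theorem h809_ok : h809.check (ok 809 4 ⟨3, 3, 3⟩) (fun _ r => r) [] = true := by decide +kernel

def h811 : T := .node ⟨1,0,0⟩ (.node ⟨0,1,0⟩ (.node ⟨0,0,1⟩ (.node ⟨-126,-71,798⟩ (.node ⟨793,-126,114⟩ (.leaf false ⟨⟨-126,-71,798⟩,⟨114,798,89⟩,⟨793,-126,114⟩⟩ (1,[(1,1)]) (798,[(4,102186),(3,643123),(1,89)]) (1,[(0,1)])) (.leaf false ⟨⟨-786,170,105⟩,⟨105,714,-370⟩,⟨170,345,714⟩⟩ (30818,[(4,14976737),(0,47705),(1,10870)]) (46227,[(4,222543266),(0,271751),(1,17388)]) (15409,[(4,48421566),(0,54334),(1,21549)]))) (.node ⟨-199,774,138⟩ (.leaf false ⟨⟨-199,774,138⟩,⟨486,233,-606⟩,⟨618,66,521⟩⟩ (1,[(0,1)]) (71,[(2,142908),(4,5148),(1,233)]) (129,[(2,65691),(4,81911),(0,11)])) (.leaf false ⟨⟨18,-54,809⟩,⟨486,-647,-54⟩,⟨649,486,18⟩⟩ (199,[(2,163475),(0,18),(3,3186)]) (199,[(2,56322),(0,486),(3,247411)])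 (126,[(2,520170),(1,649),(3,15157)])))) (.node ⟨-354,702,-199⟩ (.node ⟨73,-186,-786⟩ (.leaf false ⟨⟨-354,702,-199⟩,⟨73,-186,-786⟩,⟨726,361,-18⟩⟩ (1,[(1,1)]) (1,[(0,1)]) (131,[(4,94887),(3,47849),(0,3)])) (.leaf false ⟨⟨-226,777,-54⟩,⟨441,174,658⟩,⟨642,154,-471⟩⟩ (62,[(2,206922),(4,4895),(0,259)]) (31,[(2,2396),(4,15788),(0,29)]) (93,[(2,104325),(4,65327),(0,77)]))) (.leaf false ⟨⟨18,786,-199⟩,⟨361,-186,-702⟩,⟨726,73,354⟩⟩ (59,[(1,12338),(0,3),(2,48480)]) (354,[(1,320347),(0,361),(2,187578)]) (59,[(1,3193),(0,121),(2,89249)])))) (.node ⟨0,0,1⟩ (.node ⟨-354,-199,702⟩ (.node ⟨73,-786,-186⟩ (.leaf false ⟨⟨-354,-199,702⟩,⟨73,-786,-186⟩,⟨726,-18,361⟩⟩ (1,[(1,1)]) (1,[(0,1)]) (131,[(2,47849),(4,94887),(0,3)])) (.leaf false ⟨⟨-226,-54,777⟩,⟨441,658,174⟩,⟨642,-471,154⟩⟩ (62,[(4,4895),(3,206922),(0,259)])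 (31,[(4,15788),(3,2396),(0,29)]) (93,[(4,65327),(3,104325),(0,77)]))) (.leaf false ⟨⟨18,-199,786⟩,⟨361,-702,-186⟩,⟨726,354,73⟩⟩ (59,[(1,48480),(0,3),(2,12338)]) (354,[(1,187578),(0,361),(2,320347)]) (59,[(1,89249),(0,121),(2,3193)]))) (.node ⟨242,306,-711⟩ (.node ⟨746,-198,249⟩ (.node ⟨-114,-759,-262⟩ (.leaf false ⟨⟨-114,-759,-262⟩,⟨297,206,-726⟩,⟨746,-198,249⟩⟩ (1,[(0,1)]) (237,[(2,242),(5,11825),(4,25230)]) (1,[(1,1)])) (.leaf false ⟨⟨9,-774,-242⟩,⟨318,226,-711⟩,⟨746,-87,306⟩⟩ (38,[(3,9982),(0,3),(4,31689)]) (19,[(3,27395),(0,53),(4,35933)]) (57,[(3,80284),(0,373),(4,288066)]))) (.leaf false ⟨⟨-759,-46,-282⟩,⟨66,-807,-46⟩,⟨278,66,-759⟩⟩ (83,[(4,7127),(3,22430),(0,94)]) (249,[(4,50750),(3,210051),(0,46)]) (83,[(4,211812),(3,44616),(0,253)]))) (.leaf false ⟨⟨-494,-642,-39⟩,⟨114,-39,-802⟩,⟨633,-494,114⟩⟩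 (51,[(1,78066),(3,700),(0,107)]) (102,[(1,91047),(3,14774),(0,13)]) (153,[(1,158175),(3,156623),(0,247)]))))) (.node ⟨0,1,0⟩ (.node ⟨0,0,1⟩ (.node ⟨-199,702,-354⟩ (.node ⟨-786,-186,73⟩ (.leaf false ⟨⟨-786,-186,73⟩,⟨-199,702,-354⟩,⟨-18,361,726⟩⟩ (1,[(0,1)]) (1,[(1,1)]) (131,[(2,94887),(0,3),(3,47849)])) (.leaf false ⟨⟨-726,73,354⟩,⟨-18,786,-199⟩,⟨361,186,702⟩⟩ (186,[(2,71173),(4,192414),(0,73)]) (31,[(2,3394),(4,103524),(0,131)]) (1,[(2,775),(4,425),(0,1)]))) (.leaf false ⟨⟨-786,105,170⟩,⟨105,-370,714⟩,⟨170,714,345⟩⟩ (177,[(3,156037),(2,78255),(0,85)]) (59,[(3,17486),(2,61708),(0,119)]) (118,[(3,2825),(2,164982),(0,115)]))) (.node ⟨306,242,-711⟩ (.node ⟨-198,746,249⟩ (.node ⟨-759,-114,-262⟩ (.leaf false ⟨⟨-759,-114,-262⟩,⟨-198,746,249⟩,⟨206,297,-726⟩⟩ (1,[(0,1)]) (1,[(1,1)])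 (237,[(5,25230),(4,11825),(2,242)])) (.leaf false ⟨⟨-798,114,89⟩,⟨-71,126,-798⟩,⟨126,793,114⟩⟩ (1,[(3,173),(5,1557),(0,1)]) (19,[(3,20664),(5,17288),(0,21)]) (114,[(3,194770),(5,587523),(0,793)]))) (.leaf false ⟨⟨-807,-46,-66⟩,⟨46,282,-759⟩,⟨66,-759,-278⟩⟩ (83,[(4,71337),(3,12594),(0,22)]) (83,[(4,46276),(3,212144),(0,253)]) (249,[(4,38610),(3,18397),(0,278)]))) (.leaf false ⟨⟨-759,-262,114⟩,⟨-206,726,297⟩,⟨-198,249,-746⟩⟩ (102,[(1,168255),(0,253),(2,34502)]) (153,[(1,27792),(0,103),(2,136004)]) (17,[(1,20503),(0,11),(2,6895)])))) (.node ⟨0,0,1⟩ (.node ⟨306,-711,242⟩ (.node ⟨-198,249,746⟩ (.node ⟨-759,-262,-114⟩ (.leaf false ⟨⟨-759,-262,-114⟩,⟨-198,249,746⟩,⟨206,-726,297⟩⟩ (1,[(0,1)]) (1,[(1,1)]) (237,[(3,11825),(5,25230),(2,242)])) (.leaf false ⟨⟨-798,-71,126⟩,⟨89,-798,114⟩,⟨114,126,793⟩⟩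 (19,[(5,31101),(4,6851),(0,21)]) (1,[(5,670),(4,1060),(0,1)]) (114,[(5,588891),(4,193402),(0,793)]))) (.leaf false ⟨⟨-807,-66,-46⟩,⟨46,-759,282⟩,⟨66,-278,-759⟩⟩ (83,[(2,12594),(4,71337),(0,22)]) (83,[(2,212144),(4,46276),(0,253)]) (249,[(2,18397),(4,38610),(0,278)]))) (.leaf false ⟨⟨-759,114,-262⟩,⟨-206,297,726⟩,⟨-198,-746,249⟩⟩ (102,[(1,34502),(0,253),(2,168255)]) (153,[(1,136004),(0,103),(2,27792)]) (17,[(1,6895),(0,11),(2,20503)]))) (.leaf false ⟨⟨-811,0,0⟩,⟨0,-811,0⟩,⟨0,0,-811⟩⟩ (1,[(2,811)]) (1,[(1,811)]) (1,[(0,811)]))))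
theorem h811_ok : h811.check (ok 811 4 ⟨3, 3, 3⟩) (fun _ r => r) [] = true := by decide +kernel

def h821 : T := .node ⟨1,0,0⟩ (.node ⟨0,1,0⟩ (.node ⟨0,0,1⟩ (.leaf false ⟨⟨0,0,821⟩,⟨0,821,0⟩,⟨821,0,0⟩⟩ (1,[(0,821)]) (1,[(1,821)]) (1,[(2,821)])) (.node ⟨0,700,429⟩ (.leaf false ⟨⟨0,429,-700⟩,⟨0,700,429⟩,⟨821,0,0⟩⟩ (700,[(1,674041),(0,429)]) (1,[(0,1)]) (1,[(3,821)])) (.node ⟨-216,-363,-704⟩ (.leaf false ⟨⟨-132,549,-596⟩,⟨101,-588,-564⟩,⟨804,164,-27⟩⟩ (176,[(4,8952),(3,150711),(0,149)]) (143,[(1,188),(4,14443),(3,47516)]) (143,[(1,9),(4,114972),(3,29752)])) (.leaf false ⟨⟨0,821,0⟩,⟨429,0,-700⟩,⟨700,0,429⟩⟩ (1,[(3,821)]) (30888,[(1,151072),(0,61347),(3,83481439)]) (2106,[(1,9094),(0,6825),(3,3888325)]))))) (.node ⟨0,0,1⟩ (.node ⟨0,429,700⟩ (.leaf false ⟨⟨0,-700,429⟩,⟨0,429,700⟩,⟨821,0,0⟩⟩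 (700,[(0,429),(2,674041)]) (1,[(0,1)]) (1,[(3,821)])) (.node ⟨-216,-704,-363⟩ (.leaf false ⟨⟨-132,-596,549⟩,⟨101,-564,-588⟩,⟨804,-27,164⟩⟩ (176,[(2,150711),(4,8952),(0,149)]) (143,[(2,47516),(4,14443),(1,188)]) (143,[(2,29752),(4,114972),(1,9)])) (.leaf false ⟨⟨0,0,821⟩,⟨429,-700,0⟩,⟨700,429,0⟩⟩ (1,[(2,821)]) (30888,[(2,83481439),(0,61347),(1,151072)]) (2106,[(2,3888325),(0,6825),(1,9094)])))) (.node ⟨804,-83,144⟩ (.node ⟨-88,-804,141⟩ (.leaf false ⟨⟨-88,-816,21⟩,⟨141,-36,-808⟩,⟨804,-83,144⟩⟩ (67,[(2,8181),(4,88),(0,68)]) (67,[(2,54559),(4,9711),(0,3)]) (1,[(1,1)])) (.leaf false ⟨⟨12,-56,-819⟩,⟨336,-747,56⟩,⟨749,336,-12⟩⟩ (22,[(2,17595),(0,3),(3,3644)]) (67,[(2,280),(1,28),(3,47725)]) (14004,[(0,13056),(1,11617),(3,4827469)]))) (.leaf false ⟨⟨-804,60,-155⟩,⟨-20,-795,-204⟩,⟨165,196,-780⟩⟩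 (144,[(3,8844),(2,4225),(0,155)]) (12,[(3,13428),(2,10951),(0,17)]) (12,[(3,54240),(2,3043),(0,65)]))))) (.node ⟨0,1,0⟩ (.node ⟨0,0,1⟩ (.node ⟨429,0,700⟩ (.leaf false ⟨⟨-700,0,429⟩,⟨0,821,0⟩,⟨429,0,700⟩⟩ (700,[(3,674041),(0,429)]) (1,[(2,821)]) (1,[(0,1)])) (.node ⟨-704,-216,-363⟩ (.leaf false ⟨⟨-596,-132,549⟩,⟨-564,101,-588⟩,⟨-27,804,164⟩⟩ (176,[(2,150711),(0,149),(3,8952)]) (143,[(2,47516),(1,188),(3,14443)]) (143,[(2,29752),(1,9),(3,114972)])) (.leaf false ⟨⟨-819,12,-56⟩,⟨-12,749,336⟩,⟨56,336,-747⟩⟩ (7722,[(2,10224041),(1,15446),(0,429)]) (92664,[(2,285417181),(1,529888),(0,321321)]) (3861,[(2,1482055),(1,9352),(0,6006)])))) (.node ⟨-83,804,144⟩ (.node ⟨-804,-88,141⟩ (.leaf false ⟨⟨-816,-88,21⟩,⟨-83,804,144⟩,⟨-36,141,-808⟩⟩ (67,[(2,8181),(0,68),(3,88)]) (1,[(1,1)]) (67,[(2,54559),(0,3),(3,9711)]))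 (.leaf false ⟨⟨-804,144,-83⟩,⟨88,21,-816⟩,⟨141,808,36⟩⟩ (67,[(2,7289),(4,52872),(1,12)]) (88,[(2,68847),(4,9140),(0,21)]) (10503,[(4,3565499),(1,9758),(0,7284)]))) (.leaf false ⟨⟨-819,-24,-52⟩,⟨24,533,-624⟩,⟨52,-624,-531⟩⟩ (36,[(3,30563),(2,9588),(0,13)]) (3,[(3,1007),(2,12051),(0,13)]) (16,[(3,4065),(2,37452),(0,59)])))) (.node ⟨0,0,1⟩ (.node ⟨-83,144,804⟩ (.node ⟨-804,141,-88⟩ (.leaf false ⟨⟨-816,21,-88⟩,⟨-83,144,804⟩,⟨-36,-808,141⟩⟩ (67,[(2,88),(0,68),(3,8181)]) (1,[(1,1)]) (67,[(2,9711),(0,3),(3,54559)])) (.leaf false ⟨⟨-804,-83,144⟩,⟨88,-816,21⟩,⟨141,36,808⟩⟩ (67,[(1,12),(4,52872),(3,7289)]) (88,[(4,9140),(3,68847),(0,21)]) (10503,[(1,9758),(4,3565499),(0,7284)]))) (.leaf false ⟨⟨-819,-56,-12⟩,⟨12,-336,749⟩,⟨56,-747,-336⟩⟩ (18,[(1,5412),(3,15323),(0,7)]) (3,[(1,7875),(3,545),(0,7)])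 (16,[(1,61356),(3,5993),(0,83)]))) (.node ⟨-155,204,-780⟩ (.node ⟨-155,-780,204⟩ (.node ⟨-795,20,204⟩ (.leaf false ⟨⟨-804,20,165⟩,⟨-155,204,-780⟩,⟨-60,-795,-196⟩⟩ (265,[(3,10947),(0,268),(4,60)]) (1,[(2,1)]) (31,[(3,8524),(1,12),(4,15285)])) (.leaf false ⟨⟨-795,-196,-60⟩,⟨20,165,-804⟩,⟨204,-780,-155⟩⟩ (425,[(5,501890),(1,101),(0,226)]) (4768,[(2,4145),(5,1601850),(0,2943)]) (8160,[(5,8257000),(1,7801),(0,14001)]))) (.leaf false ⟨⟨-819,-24,-52⟩,⟨24,533,-624⟩,⟨52,-624,-531⟩⟩ (51,[(4,43784),(3,11364),(0,13)]) (17,[(4,7652),(3,31499),(0,52)]) (68,[(4,23899),(3,180492),(0,177)]))) (.leaf false ⟨⟨-819,-56,-12⟩,⟨12,-336,749⟩,⟨56,-747,-336⟩⟩ (51,[(1,11532),(3,43939),(0,14)]) (17,[(1,9107),(3,4136),(0,28)]) (68,[(1,217068),(3,34787),(0,249)])))))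
theorem h821_ok : h821.check (ok 821 4 ⟨3, 3, 3⟩) (fun _ r => r) [] = true := by decide +kernel

def h823 : T := .node ⟨1,0,0⟩ (.node ⟨0,1,0⟩ (.node ⟨0,0,1⟩ (.node ⟨-243,114,778⟩ (.node ⟨-22,786,-243⟩ (.leaf false ⟨⟨-243,114,778⟩,⟨-22,813,-126⟩,⟨786,58,237⟩⟩ (1,[(1,1)]) (262,[(2,32841),(4,198),(0,271)]) (393,[(2,100188),(4,309536),(0,29)])) (.leaf false ⟨⟨-162,474,653⟩,⟨126,-643,498⟩,⟨797,198,54⟩⟩ (778,[(4,32643),(3,294330),(1,653)]) (81,[(4,6554),(3,78393),(0,166)]) (9,[(4,7129),(3,3354),(0,2)]))) (.leaf false ⟨⟨54,797,198⟩,⟨498,126,-643⟩,⟨653,-162,474⟩⟩ (9,[(1,3338),(0,2),(2,7401)]) (81,[(1,77065),(0,166),(2,29130)]) (243,[(1,623216),(0,653),(2,35076)]))) (.node ⟨-147,78,-806⟩ (.node ⟨-147,806,78⟩ (.node ⟨806,138,93⟩ (.leaf false ⟨⟨-147,806,78⟩,⟨78,93,-814⟩,⟨806,138,93⟩⟩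 (1,[(1,1)]) (26,[(3,21398),(5,2469),(1,3)]) (1,[(0,1)])) (.leaf false ⟨⟨-798,77,-186⟩,⟨126,-402,-707⟩,⟨157,714,-378⟩⟩ (21398,[(5,26424061),(1,10943),(0,51974)]) (32097,[(5,225477310),(1,30090),(0,269243)]) (10699,[(5,52992970),(1,19761),(0,60060)]))) (.node ⟨-186,378,-707⟩ (.leaf false ⟨⟨-186,378,-707⟩,⟨77,-714,-402⟩,⟨798,157,-126⟩⟩ (1,[(0,1)]) (1261,[(5,1400),(2,516),(1,1167)]) (13,[(5,7287),(4,18967),(1,21)])) (.leaf false ⟨⟨-138,93,-806⟩,⟨93,814,78⟩,⟨806,-78,-147⟩⟩ (15329,[(4,978501),(2,17450),(0,2418)]) (15329,[(4,19145480),(2,17081),(0,21164)]) (45987,[(4,203563272),(2,597184),(0,671245)])))) (.leaf false ⟨⟨30,765,-302⟩,⟨477,230,630⟩,⟨670,-198,-435⟩⟩ (49,[(1,22858),(0,10),(2,38265)]) (49,[(1,97284),(0,159),(2,23672)]) (147,[(1,603965),(0,670),(2,23154)])))) (.node ⟨0,0,1⟩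 (.node ⟨-147,-806,78⟩ (.node ⟨-147,78,806⟩ (.node ⟨806,93,138⟩ (.leaf false ⟨⟨-147,78,806⟩,⟨78,-814,93⟩,⟨806,93,138⟩⟩ (1,[(1,1)]) (26,[(5,2469),(4,21398),(1,3)]) (1,[(0,1)])) (.leaf false ⟨⟨-798,-186,77⟩,⟨126,-707,-402⟩,⟨157,-378,714⟩⟩ (21398,[(5,26424061),(0,51974),(1,10943)]) (32097,[(5,225477310),(0,269243),(1,30090)]) (10699,[(5,52992970),(0,60060),(1,19761)]))) (.node ⟨-186,-707,378⟩ (.leaf false ⟨⟨-186,-707,378⟩,⟨77,-402,-714⟩,⟨798,-126,157⟩⟩ (1,[(0,1)]) (1261,[(5,1400),(1,1167),(2,516)]) (13,[(3,18967),(5,7287),(1,21)])) (.leaf false ⟨⟨-138,-806,93⟩,⟨93,78,814⟩,⟨806,-147,-78⟩⟩ (15329,[(3,978501),(0,2418),(2,17450)]) (15329,[(3,19145480),(0,21164),(2,17081)]) (45987,[(3,203563272),(0,671245),(2,597184)])))) (.leaf false ⟨⟨30,-302,765⟩,⟨477,630,230⟩,⟨670,-435,-198⟩⟩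 (49,[(1,38265),(0,10),(2,22858)]) (49,[(1,23672),(0,159),(2,97284)]) (147,[(1,23154),(0,670),(2,603965)]))) (.node ⟨698,-195,390⟩ (.node ⟨342,194,-723⟩ (.node ⟨-147,-762,-274⟩ (.leaf false ⟨⟨-147,-762,-274⟩,⟨342,194,-723⟩,⟨734,-243,282⟩⟩ (1,[(0,1)]) (1,[(1,1)]) (65,[(5,14904),(2,47),(4,6630)])) (.leaf false ⟨⟨22,-819,-78⟩,⟨429,78,-698⟩,⟨702,-22,429⟩⟩ (147,[(3,17494),(0,22),(4,137157)]) (49,[(3,73384),(0,143),(4,105144)]) (49,[(3,43095),(0,234),(4,179386)]))) (.leaf false ⟨⟨-698,-435,30⟩,⟨285,-498,-590⟩,⟨330,-490,573⟩⟩ (194,[(2,308685),(4,13358),(0,435)]) (97,[(2,237257),(4,112803),(0,249)]) (97,[(2,121554),(4,115800),(0,245)]))) (.leaf false ⟨⟨-579,162,-562⟩,⟨58,-771,-282⟩,⟨582,238,-531⟩⟩ (195,[(3,83233),(2,23205),(0,281)]) (65,[(3,36576),(2,59280),(0,47)]) (130,[(3,199206),(2,3575),(0,177)])))))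 (.node ⟨0,1,0⟩ (.node ⟨0,0,1⟩ (.node ⟨-806,-147,78⟩ (.node ⟨78,-147,806⟩ (.node ⟨93,806,138⟩ (.leaf false ⟨⟨-814,78,93⟩,⟨78,-147,806⟩,⟨93,806,138⟩⟩ (26,[(5,21398),(4,2469),(1,3)]) (1,[(1,1)]) (1,[(0,1)])) (.leaf false ⟨⟨-819,-22,-78⟩,⟨-78,429,698⟩,⟨-22,-702,429⟩⟩ (823,[(4,6939536),(1,1356),(0,8385)]) (10699,[(4,22202894),(1,12613),(0,19552)]) (64194,[(4,2509327),(1,42933),(0,51194)]))) (.node ⟨-707,-186,378⟩ (.leaf false ⟨⟨-707,-186,378⟩,⟨-402,77,-714⟩,⟨-126,798,157⟩⟩ (1,[(0,1)]) (1261,[(2,516),(1,1167),(4,1400)]) (13,[(3,18967),(1,21),(4,7287)])) (.leaf false ⟨⟨-819,-78,-22⟩,⟨-78,698,429⟩,⟨-22,429,-702⟩⟩ (15329,[(3,4384024),(2,32396),(0,19175)]) (45987,[(3,197097303),(2,507994),(0,574054)]) (15329,[(3,25221780),(2,102465),(0,116336)])))) (.leaf false ⟨⟨-814,93,78⟩,⟨78,806,-147⟩,⟨93,138,806⟩⟩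 (49,[(1,6240),(3,64872),(0,31)]) (147,[(1,41259),(3,638170),(0,806)]) (49,[(1,43082),(3,32519),(0,46)]))) (.node ⟨-195,698,390⟩ (.node ⟨194,342,-723⟩ (.node ⟨-762,-147,-274⟩ (.leaf false ⟨⟨-762,-147,-274⟩,⟨-243,734,282⟩,⟨194,342,-723⟩⟩ (1,[(0,1)]) (65,[(5,6630),(2,47),(4,14904)]) (1,[(1,1)])) (.leaf false ⟨⟨-819,22,-78⟩,⟨-22,702,429⟩,⟨78,429,-698⟩⟩ (147,[(3,17494),(5,137157),(0,22)]) (49,[(3,43095),(5,179386),(0,234)]) (49,[(3,73384),(5,105144),(0,143)]))) (.leaf false ⟨⟨-798,-195,-50⟩,⟨-195,698,390⟩,⟨-50,390,-723⟩⟩ (97,[(2,293327),(0,399),(3,117543)]) (194,[(2,65325),(0,195),(3,202102)]) (97,[(2,88206),(0,25),(3,46380)]))) (.leaf false ⟨⟨-798,77,-186⟩,⟨126,-402,-707⟩,⟨157,714,-378⟩⟩ (65,[(3,57915),(2,26643),(0,31)]) (390,[(3,88725),(2,336706),(0,707)]) (65,[(3,2080),(2,90384),(0,63)]))))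 (.node ⟨0,0,1⟩ (.node ⟨-195,390,698⟩ (.node ⟨194,-723,342⟩ (.node ⟨-762,-274,-147⟩ (.leaf false ⟨⟨-762,-274,-147⟩,⟨-243,282,734⟩,⟨194,-723,342⟩⟩ (1,[(0,1)]) (65,[(3,14904),(2,47),(5,6630)]) (1,[(1,1)])) (.leaf false ⟨⟨-819,-78,22⟩,⟨-22,429,702⟩,⟨78,-698,429⟩⟩ (147,[(5,137157),(4,17494),(0,22)]) (49,[(5,179386),(4,43095),(0,234)]) (49,[(5,105144),(4,73384),(0,143)]))) (.leaf false ⟨⟨-798,-50,-195⟩,⟨-195,390,698⟩,⟨-50,-723,390⟩⟩ (97,[(2,117543),(0,399),(3,293327)]) (194,[(2,202102),(0,195),(3,65325)]) (97,[(2,46380),(0,25),(3,88206)]))) (.leaf false ⟨⟨-798,-186,77⟩,⟨126,-707,-402⟩,⟨157,-378,714⟩⟩ (65,[(1,26643),(3,57915),(0,31)]) (390,[(1,336706),(3,88725),(0,707)]) (65,[(1,90384),(3,2080),(0,63)]))) (.leaf false ⟨⟨-823,0,0⟩,⟨0,-823,0⟩,⟨0,0,-823⟩⟩ (1,[(2,823)]) (1,[(1,823)])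 (1,[(0,823)]))))
theorem h823_ok : h823.check (ok 823 4 ⟨3, 3, 3⟩) (fun _ r => r) [] = true := by decide +kernel

def h827 : T := .node ⟨1,0,0⟩ (.node ⟨0,1,0⟩ (.node ⟨0,0,1⟩ (.node ⟨-282,73,774⟩ (.node ⟨-55,798,-210⟩ (.leaf false ⟨⟨-282,73,774⟩,⟨-26,822,-87⟩,⟨777,54,278⟩⟩ (1,[(1,1)]) (133,[(2,17199),(4,4077),(0,137)]) (133,[(2,38864),(4,103836),(0,9)])) (.leaf false ⟨⟨-242,-87,786⟩,⟨474,642,217⟩,⟨633,-514,138⟩⟩ (5655,[(3,649174),(1,5225),(0,1908)]) (30,[(4,12515),(3,43998),(0,31)]) (35,[(4,20890),(3,364),(0,23)]))) (.leaf false ⟨⟨73,822,-54⟩,⟨282,26,777⟩,⟨774,-87,-278⟩⟩ (282,[(1,41274),(0,73),(2,237133)]) (1,[(1,1551),(0,1),(2,99)]) (47,[(1,86780),(0,129),(2,5328)]))) (.node ⟨802,18,201⟩ (.node ⟨-82,798,201⟩ (.leaf false ⟨⟨-39,802,198⟩,⟨82,201,-798⟩,⟨822,18,89⟩⟩ (399,[(2,1599),(4,17321),(0,401)])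 (266,[(2,225735),(4,27306),(0,67)]) (1,[(2,112),(4,20),(1,1)])) (.leaf false ⟨⟨73,-150,-810⟩,⟨150,802,-135⟩,⟨810,-135,98⟩⟩ (82,[(2,51747),(0,73),(3,45954)]) (401,[(2,69210),(1,75),(3,320252)]) (8224,[(2,514618),(0,1575),(1,8145)]))) (.node ⟨-402,-215,-690⟩ (.leaf false ⟨⟨-423,690,-170⟩,⟨-30,-215,-798⟩,⟨710,402,-135⟩⟩ (201,[(4,51317),(3,141750),(1,170)]) (115,[(4,50016),(3,3870),(0,133)]) (46,[(4,36278),(3,20427),(0,9)])) (.leaf false ⟨⟨-798,153,154⟩,⟨6,602,-567⟩,⟨217,546,582⟩⟩ (30795,[(4,22290148),(0,27981),(1,72460)]) (10265,[(4,126113908),(0,43736),(1,179095)]) (2053,[(4,11237813),(0,6618),(1,16774)]))))) (.node ⟨0,0,1⟩ (.node ⟨802,201,18⟩ (.node ⟨-82,201,798⟩ (.leaf false ⟨⟨-39,82,822⟩,⟨198,-798,89⟩,⟨802,201,18⟩⟩ (133,[(4,6047),(3,16631),(0,137)]) (798,[(4,165302),(3,654693),(0,89)])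 (1,[(1,1)])) (.leaf false ⟨⟨73,-810,-150⟩,⟨150,-135,802⟩,⟨810,98,-135⟩⟩ (82,[(2,45954),(0,73),(3,51747)]) (401,[(2,320252),(1,75),(3,69210)]) (8224,[(1,8145),(0,1575),(3,514618)]))) (.node ⟨-402,-690,-215⟩ (.leaf false ⟨⟨-423,-170,690⟩,⟨-30,-798,-215⟩,⟨710,-135,402⟩⟩ (201,[(2,141750),(4,51317),(1,170)]) (115,[(2,3870),(4,50016),(0,133)]) (46,[(2,20427),(4,36278),(0,9)])) (.leaf false ⟨⟨-798,-55,210⟩,⟨105,-798,190⟩,⟨190,210,777⟩⟩ (6159,[(4,16750528),(1,31345),(0,8640)]) (10265,[(4,74949369),(1,100890),(0,17518)]) (10265,[(4,112784472),(1,163660),(0,50799)])))) (.node ⟨102,-782,249⟩ (.node ⟨777,210,190⟩ (.leaf false ⟨⟨102,-782,249⟩,⟨138,-231,-782⟩,⟨809,138,102⟩⟩ (1,[(1,1)]) (259,[(2,211278),(0,46),(3,69489)]) (777,[(2,74456),(0,809),(3,62664)])) (.leaf false ⟨⟨-582,-567,-154⟩,⟨217,-6,-798⟩,⟨546,-602,153⟩⟩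 (209678,[(2,26225209),(1,106113),(0,170986)]) (35,[(2,27740),(4,8372),(0,1)]) (391,[(2,15126),(4,182784),(1,301)]))) (.leaf false ⟨⟨-282,73,-774⟩,⟨26,-822,-87⟩,⟨777,54,-278⟩⟩ (83,[(3,2910),(2,195697),(0,258)]) (83,[(3,5116),(2,90904),(0,29)]) (249,[(3,221829),(2,203950),(0,278)]))))) (.node ⟨0,1,0⟩ (.node ⟨0,0,1⟩ (.node ⟨201,18,802⟩ (.node ⟨201,798,-82⟩ (.leaf false ⟨⟨-798,89,198⟩,⟨82,822,-39⟩,⟨201,18,802⟩⟩ (798,[(2,165302),(4,654693),(0,89)]) (133,[(2,6047),(4,16631),(0,137)]) (1,[(1,1)])) (.leaf false ⟨⟨-822,-39,82⟩,⟨-18,802,201⟩,⟨89,-198,798⟩⟩ (1,[(4,621),(3,759),(0,1)]) (802,[(4,54837),(3,639586),(1,201)]) (2056,[(4,105250),(1,1989),(0,555)]))) (.node ⟨-690,-215,-402⟩ (.leaf false ⟨⟨-802,-150,-135⟩,⟨-150,73,810⟩,⟨-135,810,-98⟩⟩ (345,[(2,114627),(0,401),(3,34465)]) (23,[(2,20640),(0,5),(3,2754)])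 (67,[(2,29524),(1,45),(3,55080)])) (.leaf false ⟨⟨-822,-54,73⟩,⟨-87,278,-774⟩,⟨-26,777,282⟩⟩ (10265,[(2,37506097),(1,46490),(0,1314)]) (10265,[(2,40637744),(1,70175),(0,19148)]) (6159,[(2,76034468),(1,108344),(0,31329)])))) (.node ⟨-782,102,249⟩ (.node ⟨210,777,190⟩ (.leaf false ⟨⟨-798,190,105⟩,⟨-55,210,-798⟩,⟨210,777,190⟩⟩ (314517,[(2,55521472),(1,329973),(0,33592)]) (37,[(2,31426),(4,4135),(0,10)]) (1,[(0,1)])) (.leaf false ⟨⟨-774,-282,73⟩,⟨-278,777,54⟩,⟨-87,26,-822⟩⟩ (20087,[(0,13564),(1,16239),(3,3218316)]) (391,[(2,13497),(1,139),(3,289629)]) (70,[(2,52030),(0,29),(3,24353)]))) (.leaf false ⟨⟨-822,26,-87⟩,⟨54,777,-278⟩,⟨73,-282,-774⟩⟩ (83,[(3,90904),(2,5116),(0,29)]) (249,[(3,203950),(2,221829),(0,278)]) (83,[(3,195697),(2,2910),(0,258)])))) (.node ⟨0,0,1⟩ (.node ⟨249,-782,102⟩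 (.node ⟨190,210,777⟩ (.leaf false ⟨⟨-798,-55,210⟩,⟨105,-798,190⟩,⟨190,210,777⟩⟩ (37,[(4,31426),(3,4135),(0,10)]) (314517,[(4,55521472),(1,329973),(0,33592)]) (1,[(0,1)])) (.leaf false ⟨⟨-822,-87,26⟩,⟨54,-278,777⟩,⟨73,-774,-282⟩⟩ (70,[(2,24353),(4,52030),(0,29)]) (391,[(2,289629),(4,13497),(1,139)]) (20087,[(2,3218316),(0,13564),(1,16239)]))) (.leaf false ⟨⟨-774,73,-282⟩,⟨-278,54,777⟩,⟨-87,-822,26⟩⟩ (83,[(1,2910),(0,258),(2,195697)]) (249,[(1,221829),(0,278),(2,203950)]) (83,[(1,5116),(0,29),(2,90904)]))) (.leaf false ⟨⟨-827,0,0⟩,⟨0,-827,0⟩,⟨0,0,-827⟩⟩ (1,[(2,827)]) (1,[(1,827)]) (1,[(0,827)]))))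
theorem h827_ok : h827.check (ok 827 4 ⟨3, 3, 3⟩) (fun _ r => r) [] = true := by decide +kernel

def h829 : T := .node ⟨1,0,0⟩ (.node ⟨0,1,0⟩ (.node ⟨0,0,1⟩ (.leaf false ⟨⟨0,0,829⟩,⟨0,829,0⟩,⟨829,0,0⟩⟩ (1,[(0,829)]) (1,[(1,829)]) (1,[(2,829)])) (.node ⟨-280,120,-771⟩ (.node ⟨21,780,280⟩ (.leaf false ⟨⟨-280,120,-771⟩,⟨21,820,120⟩,⟨780,21,-280⟩⟩ (1,[(1,1)]) (789,[(2,135127),(0,829),(1,3)]) (40,[(2,5803),(4,33160),(1,7)])) (.leaf false ⟨⟨-244,21,-792⟩,⟨384,728,-99⟩,⟨693,-396,-224⟩⟩ (211660,[(4,7113303),(1,207880),(0,26283)]) (257,[(4,107928),(3,183136),(1,33)]) (5,[(4,3549),(3,1140),(0,4)]))) (.leaf false ⟨⟨0,829,0⟩,⟨540,0,629⟩,⟨629,0,-540⟩⟩ (1,[(2,829)]) (14,[(1,12011),(0,27),(2,3240)]) (280,[(1,636159),(0,629),(2,75480)])))) (.node ⟨0,0,1⟩ (.node ⟨-280,-771,120⟩ (.node ⟨21,280,780⟩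 (.leaf false ⟨⟨-280,-771,120⟩,⟨21,120,820⟩,⟨780,-280,21⟩⟩ (1,[(1,1)]) (789,[(3,135127),(1,3),(0,829)]) (40,[(4,33160),(3,5803),(1,7)])) (.leaf false ⟨⟨-244,-792,21⟩,⟨384,-99,728⟩,⟨693,-224,-396⟩⟩ (211660,[(4,7113303),(0,26283),(1,207880)]) (257,[(2,183136),(4,107928),(1,33)]) (5,[(2,1140),(4,3549),(0,4)]))) (.leaf false ⟨⟨0,0,829⟩,⟨540,629,0⟩,⟨629,-540,0⟩⟩ (1,[(1,829)]) (14,[(1,3240),(0,27),(2,12011)]) (280,[(1,75480),(0,629),(2,636159)]))) (.node ⟨-204,-800,-75⟩ (.node ⟨-75,204,-800⟩ (.leaf false ⟨⟨-204,-800,-75⟩,⟨-75,96,-820⟩,⟨800,-195,-96⟩⟩ (1,[(1,1)]) (40,[(4,75),(3,4524),(0,41)]) (25,[(4,20225),(3,5487),(0,3)])) (.leaf false ⟨⟨-36,-467,-684⟩,⟨-19,-684,468⟩,⟨828,-36,-19⟩⟩ (800,[(2,512175),(4,66468),(1,467)]) (12702,[(2,5971789),(0,15542),(1,6897)]) (17,[(2,2723),(4,13851),(0,3)])))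 (.leaf false ⟨⟨53,-336,-756⟩,⟨336,701,-288⟩,⟨756,-288,181⟩⟩ (204,[(1,158199),(0,53),(2,110944)]) (17,[(1,6996),(0,28),(2,10483)]) (17,[(1,1648),(0,63),(2,55296)]))))) (.node ⟨0,1,0⟩ (.node ⟨0,0,1⟩ (.node ⟨-771,-280,120⟩ (.node ⟨280,21,780⟩ (.leaf false ⟨⟨-771,-280,120⟩,⟨-280,780,21⟩,⟨120,21,820⟩⟩ (1,[(1,1)]) (40,[(1,7),(4,5803),(3,33160)]) (789,[(1,3),(4,135127),(0,829)])) (.leaf false ⟨⟨-792,-244,21⟩,⟨-224,693,-396⟩,⟨-99,384,728⟩⟩ (211660,[(1,207880),(0,26283),(3,7113303)]) (5,[(2,1140),(0,4),(3,3549)]) (257,[(2,183136),(1,33),(3,107928)]))) (.leaf false ⟨⟨-771,280,-120⟩,⟨-120,21,820⟩,⟨280,780,21⟩⟩ (1,[(3,1542),(0,1)]) (40,[(1,33160),(3,7113),(0,3)]) (14,[(1,4974),(3,26149),(0,39)]))) (.node ⟨-75,-204,-800⟩ (.node ⟨-800,-75,204⟩ (.leaf false ⟨⟨-820,-75,96⟩,⟨-96,800,-195⟩,⟨-75,-204,-800⟩⟩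 (40,[(2,4524),(0,41),(3,75)]) (25,[(2,5487),(0,3),(3,20225)]) (1,[(1,1)])) (.leaf false ⟨⟨-684,-36,-467⟩,⟨-19,828,-36⟩,⟨468,-19,-684⟩⟩ (800,[(1,467),(4,512175),(3,66468)]) (17,[(4,2723),(3,13851),(0,3)]) (12702,[(1,6897),(4,5971789),(0,15542)]))) (.leaf false ⟨⟨-811,72,-156⟩,⟨-72,541,624⟩,⟨156,624,-523⟩⟩ (17,[(1,7452),(3,14237),(0,6)]) (204,[(1,305504),(3,55263),(0,541)]) (17,[(1,50491),(3,1248),(0,52)])))) (.node ⟨0,0,1⟩ (.node ⟨-75,-800,-204⟩ (.node ⟨-800,204,-75⟩ (.leaf false ⟨⟨-820,96,-75⟩,⟨-96,-195,800⟩,⟨-75,-800,-204⟩⟩ (40,[(2,75),(0,41),(3,4524)]) (25,[(2,20225),(0,3),(3,5487)]) (1,[(1,1)])) (.leaf false ⟨⟨-684,-467,-36⟩,⟨-19,-36,828⟩,⟨468,-684,-19⟩⟩ (800,[(2,66468),(4,512175),(1,467)]) (17,[(2,13851),(4,2723),(0,3)]) (12702,[(4,5971789),(1,6897),(0,15542)]))) (.leaf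 false ⟨⟨-811,-156,72⟩,⟨-72,624,541⟩,⟨156,-523,624⟩⟩ (17,[(3,14237),(2,7452),(0,6)]) (204,[(3,55263),(2,305504),(0,541)]) (17,[(3,1248),(2,50491),(0,52)]))) (.node ⟨120,-771,280⟩ (.leaf false ⟨⟨-820,-120,21⟩,⟨21,-280,-780⟩,⟨120,-771,280⟩⟩ (257,[(1,5803),(3,215540),(0,40)]) (771,[(1,679780),(3,17409),(0,280)]) (1,[(0,1)])) (.node ⟨-756,-244,237⟩ (.leaf false ⟨⟨-756,-244,237⟩,⟨-339,588,-476⟩,⟨-28,-531,-636⟩⟩ (1,[(0,1)]) (26680,[(1,48911),(0,4200),(3,20997741)]) (27,[(2,17409),(0,1),(3,14093)])) (.leaf false ⟨⟨-828,-36,-19⟩,⟨-19,684,-468⟩,⟨36,-467,-684⟩⟩ (237,[(4,210600),(3,13168),(0,19)]) (114407,[(1,47916),(4,124420661),(0,169308)]) (79,[(4,169524),(3,92525),(0,228)]))))))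
theorem h829_ok : h829.check (ok 829 4 ⟨3, 3, 3⟩) (fun _ r => r) [] = true := by decide +kernel

def h839 : T := .node ⟨1,0,0⟩ (.node ⟨0,1,0⟩ (.node ⟨0,0,1⟩ (.node ⟨-290,45,786⟩ (.node ⟨-486,669,142⟩ (.node ⟨-186,810,-115⟩ (.leaf false ⟨⟨-290,45,786⟩,⟨-186,810,-115⟩,⟨765,214,270⟩⟩ (1,[(2,1)]) (1,[(0,1)]) (405,[(3,121655),(5,329727),(0,107)])) (.leaf false ⟨⟨-691,186,438⟩,⟨318,-394,669⟩,⟨354,717,254⟩⟩ (12797,[(5,39217),(1,25078),(0,17774)]) (13717,[(4,34787816),(1,14644),(0,61715)]) (1247,[(4,2959788),(1,99),(0,2632)]))) (.leaf false ⟨⟨-198,234,781⟩,⟨466,-627,306⟩,⟨669,506,18⟩⟩ (170408,[(3,55671186),(1,175725),(0,35431)]) (42602,[(3,10130514),(1,26861),(0,56877)]) (170408,[(3,261529726),(1,51873),(0,265527)]))) (.node ⟨749,-378,-6⟩ (.leaf false ⟨⟨18,669,506⟩,⟨306,466,-627⟩,⟨781,-198,234⟩⟩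 (145,[(2,80444),(1,9),(3,97410)]) (145,[(2,29343),(1,153),(3,74455)]) (749,[(2,179952),(0,781),(3,146916)])) (.leaf false ⟨⟨-718,429,66⟩,⟨66,234,-803⟩,⟨429,682,234⟩⟩ (25305,[(2,14564184),(1,16639),(0,30700)]) (8435,[(2,10664831),(1,22246),(0,7870)]) (15183,[(2,109084776),(1,134596),(0,43417)])))) (.node ⟨-259,786,-138⟩ (.node ⟨-6,-259,-798⟩ (.leaf false ⟨⟨-259,786,-138⟩,⟨-6,-147,-826⟩,⟨798,254,-51⟩⟩ (1,[(1,1)]) (57,[(4,12),(3,6902),(0,59)]) (266,[(4,212370),(3,71967),(0,17)])) (.leaf false ⟨⟨-243,774,-214⟩,⟨466,318,621⟩,⟨654,61,-522⟩⟩ (131,[(2,10232),(4,1578),(1,129)]) (259,[(2,92925),(4,118786),(0,318)]) (259,[(2,183876),(4,169020),(0,61)]))) (.leaf false ⟨⟨6,182,-819⟩,⟨546,621,142⟩,⟨637,-534,-114⟩⟩ (259,[(1,212949),(0,6),(2,51854)]) (37,[(1,5510),(0,78),(2,84285)]) (37,[(1,16776),(0,91),(2,51768)]))))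 (.node ⟨0,0,1⟩ (.node ⟨-259,-138,786⟩ (.node ⟨-6,-798,-259⟩ (.leaf false ⟨⟨-259,-138,786⟩,⟨-6,-826,-147⟩,⟨798,-51,254⟩⟩ (1,[(1,1)]) (57,[(2,6902),(4,12),(0,59)]) (266,[(2,71967),(4,212370),(0,17)])) (.leaf false ⟨⟨-243,-214,774⟩,⟨466,621,318⟩,⟨654,-522,61⟩⟩ (131,[(4,1578),(3,10232),(1,129)]) (259,[(4,118786),(3,92925),(0,318)]) (259,[(4,169020),(3,183876),(0,61)]))) (.leaf false ⟨⟨6,-819,182⟩,⟨546,142,621⟩,⟨637,-114,-534⟩⟩ (259,[(1,51854),(0,6),(2,212949)]) (37,[(1,84285),(0,78),(2,5510)]) (37,[(1,51768),(0,91),(2,16776)]))) (.node ⟨765,-186,290⟩ (.node ⟨-270,-786,-115⟩ (.node ⟨214,45,-810⟩ (.leaf false ⟨⟨-270,-786,-115⟩,⟨214,45,-810⟩,⟨765,-290,186⟩⟩ (1,[(1,1)]) (1,[(0,1)]) (1,[(3,104),(2,1),(4,104)])) (.leaf false ⟨⟨-786,-210,205⟩,⟨-70,-435,-714⟩,⟨285,-686,390⟩⟩ (3,[(3,10725),(5,638),(0,14)])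 (3,[(3,25632),(5,5996),(0,29)]) (45,[(3,538110),(5,159629),(0,686)]))) (.leaf false ⟨⟨70,-435,-714⟩,⟨285,686,-390⟩,⟨786,-210,205⟩⟩ (27,[(2,20083),(0,7),(3,17247)]) (18,[(2,9205),(0,19),(3,2586)]) (45,[(2,5840),(0,131),(3,112416)]))) (.leaf false ⟨⟨-714,-70,-435⟩,⟨205,-786,-210⟩,⟨390,285,-686⟩⟩ (2,[(3,867),(2,698),(0,3)]) (29,[(3,22010),(2,26700),(0,21)]) (145,[(3,318945),(2,22473),(0,343)]))))) (.node ⟨0,1,0⟩ (.node ⟨0,0,1⟩ (.node ⟨-138,786,-259⟩ (.node ⟨-798,-259,-6⟩ (.leaf false ⟨⟨-826,-147,-6⟩,⟨-138,786,-259⟩,⟨-51,254,798⟩⟩ (57,[(2,12),(0,59),(3,6902)]) (1,[(1,1)]) (266,[(2,212370),(0,17),(3,71967)])) (.leaf false ⟨⟨-810,110,189⟩,⟨61,810,-210⟩,⟨210,189,790⟩⟩ (259,[(2,48291),(4,297570),(0,110)]) (94710,[(2,3305489),(1,90083),(0,22818)]) (37,[(2,29068),(4,13776),(0,27)])))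 (.leaf false ⟨⟨-830,45,114⟩,⟨45,-614,570⟩,⟨114,570,605⟩⟩ (259,[(3,230702),(2,101259),(0,114)]) (259,[(3,67005),(2,288994),(0,570)]) (259,[(3,53964),(2,623160),(0,605)]))) (.node ⟨-186,765,290⟩ (.node ⟨-786,-270,-115⟩ (.node ⟨45,214,-810⟩ (.leaf false ⟨⟨-786,-270,-115⟩,⟨-290,765,186⟩,⟨45,214,-810⟩⟩ (1,[(1,1)]) (1,[(3,104),(5,104),(2,1)]) (1,[(0,1)])) (.leaf false ⟨⟨-826,-147,-6⟩,⟨-138,786,-259⟩,⟨-51,254,798⟩⟩ (45,[(3,669330),(0,826),(4,170149)]) (15,[(3,41145),(0,46),(4,21634)]) (15,[(3,1800),(0,17),(4,7448)]))) (.leaf false ⟨⟨-718,429,66⟩,⟨66,234,-803⟩,⟨429,682,234⟩⟩ (90,[(2,10505),(4,177018),(0,143)]) (15,[(2,13540),(4,9228),(0,13)]) (135,[(2,7625),(4,210111),(0,341)]))) (.leaf false ⟨⟨-826,93,-114⟩,⟨42,-474,-691⟩,⟨141,686,-462⟩⟩ (145,[(3,130372),(2,57090),(0,57)]) (290,[(3,116346),(2,391155),(0,691)])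 (145,[(3,22521),(2,276185),(0,231)])))) (.node ⟨0,0,1⟩ (.node ⟨-186,290,765⟩ (.node ⟨-786,-115,-270⟩ (.node ⟨45,-810,214⟩ (.leaf false ⟨⟨-786,-115,-270⟩,⟨-290,186,765⟩,⟨45,-810,214⟩⟩ (1,[(1,1)]) (1,[(2,1),(5,104),(4,104)]) (1,[(0,1)])) (.leaf false ⟨⟨-826,-147,-6⟩,⟨-138,786,-259⟩,⟨-51,254,798⟩⟩ (45,[(3,176494),(0,826),(4,675675)]) (15,[(3,5959),(0,46),(4,25470)]) (15,[(3,15608),(0,17),(4,9960)]))) (.leaf false ⟨⟨-718,66,429⟩,⟨66,-803,234⟩,⟨429,234,682⟩⟩ (90,[(4,177018),(3,10505),(0,143)]) (15,[(4,9228),(3,13540),(0,13)]) (135,[(4,210111),(3,7625),(0,341)]))) (.leaf false ⟨⟨-826,-114,93⟩,⟨42,-691,-474⟩,⟨141,-462,686⟩⟩ (145,[(1,57090),(3,130372),(0,57)]) (290,[(1,391155),(3,116346),(0,691)]) (145,[(1,276185),(3,22521),(0,231)]))) (.leaf false ⟨⟨-839,0,0⟩,⟨0,-839,0⟩,⟨0,0,-839⟩⟩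 (1,[(2,839)]) (1,[(1,839)]) (1,[(0,839)]))))
theorem h839_ok : h839.check (ok 839 4 ⟨3, 3, 3⟩) (fun _ r => r) [] = true := by decide +kernel

def h841 : T := .node ⟨1,0,0⟩ (.node ⟨0,1,0⟩ (.node ⟨0,0,1⟩ (.leaf false ⟨⟨0,0,841⟩,⟨0,841,0⟩,⟨841,0,0⟩⟩ (1,[(0,841)]) (1,[(1,841)]) (1,[(2,841)])) (.node ⟨0,840,41⟩ (.leaf false ⟨⟨0,41,-840⟩,⟨0,840,41⟩,⟨841,0,0⟩⟩ (840,[(1,707281),(0,41)]) (1,[(0,1)]) (1,[(3,841)])) (.node ⟨-255,-360,-716⟩ (.leaf false ⟨⟨-264,248,-759⟩,⟨184,-759,-312⟩,⟨777,264,-184⟩⟩ (716,[(4,4521),(3,450808),(0,759)]) (41,[(1,312),(4,7544),(3,230961)]) (179,[(4,150813),(3,63816),(0,46)])) (.leaf false ⟨⟨0,609,-580⟩,⟨580,420,441⟩,⟨609,-400,-420⟩⟩ (41,[(1,580),(3,512169)]) (2091,[(1,60565),(0,4756),(3,50040660)]) (3485,[(1,181048),(0,8323),(3,147690040)]))))) (.node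 ⟨0,0,1⟩ (.node ⟨0,41,840⟩ (.leaf false ⟨⟨0,-840,41⟩,⟨0,41,840⟩,⟨841,0,0⟩⟩ (840,[(0,41),(2,707281)]) (1,[(0,1)]) (1,[(3,841)])) (.node ⟨-255,-716,-360⟩ (.leaf false ⟨⟨-264,-759,248⟩,⟨184,-312,-759⟩,⟨777,-184,264⟩⟩ (716,[(2,450808),(4,4521),(0,759)]) (41,[(2,230961),(4,7544),(1,312)]) (179,[(2,63816),(4,150813),(0,46)])) (.leaf false ⟨⟨0,-580,609⟩,⟨580,441,420⟩,⟨609,-420,-400⟩⟩ (41,[(2,512169),(1,580)]) (2091,[(2,50040660),(0,4756),(1,60565)]) (3485,[(2,147690040),(0,8323),(1,181048)])))) (.node ⟨796,-63,264⟩ (.node ⟨-108,-796,249⟩ (.leaf false ⟨⟨-108,-824,129⟩,⟨249,-156,-788⟩,⟨796,-63,264⟩⟩ (199,[(2,25623),(4,756),(0,206)]) (199,[(2,166523),(4,53763),(0,39)]) (1,[(1,1)])) (.leaf false ⟨⟨32,-696,-471⟩,⟨201,464,-672⟩,⟨816,-87,184⟩⟩ (27,[(2,10725),(0,8),(3,25160)]) (36,[(2,7509),(0,67),(3,36628)])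 (199,[(2,17240),(1,204),(3,4461)]))) (.leaf false ⟨⟨-760,9,-360⟩,⟨9,-840,-40⟩,⟨360,40,-759⟩⟩ (11,[(3,3580),(2,846),(0,15)]) (33,[(3,4277),(2,28035),(0,5)]) (8,[(3,21188),(2,1129),(0,23)]))))) (.node ⟨0,1,0⟩ (.node ⟨0,0,1⟩ (.node ⟨41,0,840⟩ (.leaf false ⟨⟨-840,0,41⟩,⟨0,841,0⟩,⟨41,0,840⟩⟩ (840,[(3,707281),(0,41)]) (1,[(2,841)]) (1,[(0,1)])) (.node ⟨-716,-255,-360⟩ (.leaf false ⟨⟨-824,-168,9⟩,⟨-144,681,-472⟩,⟨-87,464,696⟩⟩ (179,[(2,75771),(0,206),(3,22458)]) (41,[(2,101608),(1,144),(3,27921)]) (41,[(2,101616),(1,87),(3,19024)])) (.leaf false ⟨⟨-840,41,0⟩,⟨0,0,841⟩,⟨41,840,0⟩⟩ (10455,[(2,203981880),(1,243556),(0,1681)]) (1,[(2,841)]) (697,[(2,32268600),(1,39399),(0,2296)])))) (.node ⟨-63,796,264⟩ (.node ⟨-796,-108,249⟩ (.leaf false ⟨⟨-824,-108,129⟩,⟨-156,249,-788⟩,⟨-63,796,264⟩⟩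 (199,[(2,25623),(0,206),(3,756)]) (199,[(2,166523),(0,39),(3,53763)]) (1,[(1,1)])) (.leaf false ⟨⟨-735,140,-384⟩,⟨84,825,140⟩,⟨400,84,-735⟩⟩ (27,[(2,1653),(4,47705),(0,35)]) (640420,[(2,51724081),(1,647628),(0,118839)]) (9,[(2,4872),(4,1972),(0,7)]))) (.leaf false ⟨⟨-840,9,-40⟩,⟨9,-760,-360⟩,⟨40,360,-759⟩⟩ (33,[(3,28035),(2,4277),(0,5)]) (11,[(3,846),(2,3580),(0,15)]) (8,[(3,1129),(2,21188),(0,23)])))) (.node ⟨0,0,1⟩ (.node ⟨-63,264,796⟩ (.node ⟨-796,249,-108⟩ (.leaf false ⟨⟨-824,129,-108⟩,⟨-156,-788,249⟩,⟨-63,264,796⟩⟩ (199,[(2,756),(0,206),(3,25623)]) (199,[(2,53763),(0,39),(3,166523)]) (1,[(1,1)])) (.leaf false ⟨⟨-735,-384,140⟩,⟨84,140,825⟩,⟨400,-735,84⟩⟩ (27,[(4,47705),(3,1653),(0,35)]) (226716,[(1,220545),(4,51724081),(0,106360)]) (9,[(4,1972),(3,4872),(0,7)]))) (.leaf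 false ⟨⟨-840,-40,9⟩,⟨9,-360,-760⟩,⟨40,-759,360⟩⟩ (33,[(1,4277),(3,28035),(0,5)]) (11,[(1,3580),(3,846),(0,15)]) (8,[(1,21188),(3,1129),(0,23)]))) (.node ⟨-96,329,-768⟩ (.node ⟨-759,360,40⟩ (.leaf false ⟨⟨-759,360,40⟩,⟨-360,-760,9⟩,⟨-40,9,-840⟩⟩ (1,[(0,1)]) (253,[(2,2523),(0,120),(3,235480)]) (12,[(2,6240),(1,5),(3,1537)])) (.leaf false ⟨⟨-768,-311,-144⟩,⟨96,144,-823⟩,⟨329,-768,-96⟩⟩ (16,[(1,3),(4,12000),(3,5963)]) (57928,[(1,60408),(4,12954309),(0,32035)]) (36205,[(1,480),(4,46998559),(0,77676)]))) (.leaf false ⟨⟨-840,-40,9⟩,⟨9,-360,-760⟩,⟨40,-759,360⟩⟩ (329,[(1,27759),(3,280200),(0,40)]) (329,[(1,526520),(3,31599),(0,360)]) (329,[(1,464472),(3,59704),(0,759)])))))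
theorem h841_ok : h841.check (ok 841 4 ⟨3, 3, 3⟩) (fun _ r => r) [] = true := by decide +kernel

def h853 : T := .node ⟨1,0,0⟩ (.node ⟨0,1,0⟩ (.node ⟨0,0,1⟩ (.leaf false ⟨⟨0,0,853⟩,⟨0,853,0⟩,⟨853,0,0⟩⟩ (1,[(0,853)]) (1,[(1,853)]) (1,[(2,853)])) (.node ⟨0,828,205⟩ (.leaf false ⟨⟨0,205,-828⟩,⟨0,828,205⟩,⟨853,0,0⟩⟩ (828,[(1,727609),(0,205)]) (1,[(0,1)]) (1,[(3,853)])) (.node ⟨-156,-507,-668⟩ (.leaf false ⟨⟨-168,376,-747⟩,⟨196,-723,-408⟩,⟨813,252,-56⟩⟩ (668,[(4,4308),(3,629897),(0,747)]) (205,[(1,408),(4,40180),(3,189609)]) (167,[(4,137955),(3,49182),(0,14)])) (.leaf false ⟨⟨0,853,0⟩,⟨205,0,-828⟩,⟨828,0,205⟩⟩ (1,[(3,853)]) (31980,[(1,266108),(0,42025),(3,199030749)]) (2665,[(1,43427),(0,14145),(3,28786041)]))))) (.node ⟨0,0,1⟩ (.node ⟨0,205,828⟩ (.leaf false ⟨⟨0,-828,205⟩,⟨0,205,828⟩,⟨853,0,0⟩⟩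 (828,[(0,205),(2,727609)]) (1,[(0,1)]) (1,[(3,853)])) (.node ⟨-156,-668,-507⟩ (.leaf false ⟨⟨-168,-747,376⟩,⟨196,-408,-723⟩,⟨813,-56,252⟩⟩ (668,[(2,629897),(4,4308),(0,747)]) (205,[(2,189609),(4,40180),(1,408)]) (167,[(2,49182),(4,137955),(0,14)])) (.leaf false ⟨⟨0,0,853⟩,⟨205,-828,0⟩,⟨828,205,0⟩⟩ (1,[(2,853)]) (31980,[(2,199030749),(0,42025),(1,266108)]) (2665,[(2,28786041),(0,14145),(1,43427)])))) (.node ⟨252,261,-772⟩ (.node ⟨700,-315,372⟩ (.node ⟨-180,-772,-315⟩ (.leaf false ⟨⟨-180,-772,-315⟩,⟨453,180,-700⟩,⟨700,-315,372⟩⟩ (1,[(0,1)]) (29,[(3,4860),(2,20),(5,8097)]) (1,[(1,1)])) (.leaf false ⟨⟨20,-840,-147⟩,⟨525,128,-660⟩,⟨672,-75,520⟩⟩ (9,[(3,1638),(0,1),(4,8332)]) (12,[(3,18945),(0,35),(4,25484)]) (15,[(3,9840),(0,56),(4,44357)]))) (.leaf false ⟨⟨-691,-252,-432⟩,⟨252,461,-672⟩,⟨432,-672,-299⟩⟩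 (31,[(4,3779),(3,19152),(0,36)]) (31,[(4,47012),(3,3349),(0,56)]) (372,[(4,370004),(3,344169),(0,299)]))) (.leaf false ⟨⟨-564,-628,-123⟩,⟨452,-507,516⟩,⟨453,-276,-668⟩⟩ (261,[(1,516919),(3,11052),(0,628)]) (87,[(1,85576),(3,81912),(0,169)]) (87,[(1,129140),(3,62595),(0,92)]))))) (.node ⟨0,1,0⟩ (.node ⟨0,0,1⟩ (.node ⟨205,0,828⟩ (.leaf false ⟨⟨-828,0,205⟩,⟨0,853,0⟩,⟨205,0,828⟩⟩ (828,[(3,727609),(0,205)]) (1,[(2,853)]) (1,[(0,1)])) (.node ⟨-668,-156,-507⟩ (.leaf false ⟨⟨-844,-123,12⟩,⟨-123,828,-164⟩,⟨-12,164,837⟩⟩ (167,[(2,108981),(0,211),(3,12375)]) (5,[(2,1664),(1,3),(3,4140)]) (167,[(2,141300),(0,3),(3,27856)])) (.leaf false ⟨⟨-843,96,88⟩,⟨-24,452,-723⟩,⟨128,717,444⟩⟩ (2665,[(2,12901924),(1,16303),(0,1640)]) (1599,[(2,9150144),(1,15284),(0,4633)]) (10660,[(2,106573263),(1,152996),(0,48995)]))))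 (.node ⟨-12,812,261⟩ (.node ⟨-747,-56,408⟩ (.node ⟨-376,-252,-723⟩ (.leaf false ⟨⟨-747,-56,408⟩,⟨-376,-252,-723⟩,⟨-168,813,-196⟩⟩ (1,[(1,1)]) (1,[(0,1)]) (249,[(3,71652),(1,56),(4,205573)])) (.leaf false ⟨⟨-843,96,88⟩,⟨-24,452,-723⟩,⟨128,717,444⟩⟩ (41797,[(3,43166918),(1,62133),(0,29730)]) (41797,[(3,109443312),(1,44000),(0,84747)]) (167188,[(3,404657229),(1,237336),(0,528431)]))) (.leaf false ⟨⟨-812,69,-252⟩,⟨-12,812,261⟩,⟨261,252,-772⟩⟩ (812,[(2,222633),(4,658516),(1,69)]) (1,[(1,1)]) (7229,[(2,5076203),(1,2067),(0,2559)]))) (.node ⟨128,717,-444⟩ (.leaf false ⟨⟨-843,96,-88⟩,⟨24,-452,-723⟩,⟨128,717,-444⟩⟩ (261,[(4,221079),(3,96512),(1,88)]) (87,[(4,804),(3,156368),(1,241)]) (1,[(0,1)])) (.leaf false ⟨⟨-843,-96,-88⟩,⟨-128,717,444⟩,⟨24,452,-723⟩⟩ (28080,[(3,468889435),(1,385556),(0,221079)])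 (1,[(3,1434),(0,1)]) (2340,[(3,6742885),(1,6824),(0,201)]))))) (.node ⟨0,0,1⟩ (.node ⟨-12,261,812⟩ (.node ⟨-747,408,-56⟩ (.node ⟨-376,-723,-252⟩ (.leaf false ⟨⟨-747,408,-56⟩,⟨-376,-723,-252⟩,⟨-168,-196,813⟩⟩ (1,[(1,1)]) (1,[(0,1)]) (249,[(3,205573),(1,56),(4,71652)])) (.leaf false ⟨⟨-843,-24,128⟩,⟨88,-723,444⟩,⟨96,452,717⟩⟩ (41797,[(1,65141),(4,53396094),(0,35706)]) (41797,[(1,36192),(4,104043822),(0,81685)]) (167188,[(1,245400),(4,407905453),(0,530223)]))) (.leaf false ⟨⟨-812,-252,69⟩,⟨-12,261,812⟩,⟨261,-772,252⟩⟩ (812,[(1,69),(4,658516),(3,222633)]) (1,[(1,1)]) (7229,[(1,2067),(3,5076203),(0,2559)]))) (.node ⟨128,-444,717⟩ (.leaf false ⟨⟨-843,-88,96⟩,⟨24,-723,-452⟩,⟨128,-444,717⟩⟩ (261,[(2,96512),(4,221079),(1,88)]) (87,[(2,156368),(4,804),(1,241)]) (1,[(0,1)])) (.leaf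 false ⟨⟨-843,-88,-96⟩,⟨-128,444,717⟩,⟨24,-723,452⟩⟩ (28080,[(2,468889435),(0,221079),(1,385556)]) (1,[(2,1434),(0,1)]) (2340,[(2,6742885),(0,201),(1,6824)])))) (.node ⟨-528,488,-459⟩ (.node ⟨408,-339,-668⟩ (.node ⟨-459,488,-528⟩ (.leaf false ⟨⟨-592,-612,-51⟩,⟨-459,488,-528⟩,⟨408,-339,-668⟩⟩ (9,[(2,1),(5,4800),(4,5996)]) (1,[(0,1)]) (1,[(1,1)])) (.leaf false ⟨⟨-843,-88,96⟩,⟨24,-723,-452⟩,⟨128,-444,717⟩⟩ (10613879,[(2,155819216),(0,150521097),(1,10382016)]) (10613879,[(2,128325320),(0,129311744),(1,21216695)]) (31841637,[(2,135955405),(0,163686160),(1,1784892)]))) (.leaf false ⟨⟨-756,133,372⟩,⟨-348,156,-763⟩,⟨-187,-828,-84⟩⟩ (34,[(2,29436),(0,63),(3,16835)]) (44,[(2,20261),(1,29),(3,7288)]) (24,[(2,9364),(0,11),(3,23601)]))) (.leaf false ⟨⟨-828,-200,45⟩,⟨45,-360,-772⟩,⟨200,-747,360⟩⟩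 (61,[(1,8730),(3,63708),(0,25)]) (61,[(1,67747),(3,21015),(0,45)]) (488,[(1,167193),(3,296816),(0,747)])))))
theorem h853_ok : h853.check (ok 853 4 ⟨3, 3, 3⟩) (fun _ r => r) [] = true := by decide +kernel

def h857 : T := .node ⟨1,0,0⟩ (.node ⟨0,1,0⟩ (.node ⟨0,0,1⟩ (.leaf false ⟨⟨0,0,857⟩,⟨0,857,0⟩,⟨857,0,0⟩⟩ (1,[(0,857)]) (1,[(1,857)]) (1,[(2,857)])) (.node ⟨828,72,209⟩ (.node ⟨-72,828,209⟩ (.node ⟨-92,201,-828⟩ (.leaf false ⟨⟨-92,201,-828⟩,⟨-72,828,209⟩,⟨849,92,-72⟩⟩ (1,[(0,1)]) (1,[(1,1)]) (9,[(3,857),(5,7713),(1,1)])) (.leaf false ⟨⟨-72,849,-92⟩,⟨209,-72,-828⟩,⟨828,92,201⟩⟩ (5142,[(3,1685719),(0,126),(1,5303)]) (20568,[(3,65827027),(0,55956),(1,11795)]) (15426,[(3,149324537),(0,173052),(1,43723)]))) (.leaf false ⟨⟨25,-168,-840⟩,⟨168,825,-160⟩,⟨840,-160,57⟩⟩ (72,[(2,55255),(0,25),(3,8604)])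 (69,[(2,13966),(1,14),(3,55917)]) (825,[(0,563),(1,788),(3,277428)]))) (.leaf false ⟨⟨-792,232,-231⟩,⟨168,-231,-808⟩,⟨281,792,-168⟩⟩ (19,[(3,2340),(2,5920),(0,21)]) (209,[(3,704136),(2,9897),(0,808)]) (209,[(3,197833),(2,177624),(0,168)])))) (.node ⟨0,0,1⟩ (.node ⟨828,209,72⟩ (.node ⟨-72,209,828⟩ (.node ⟨-92,-828,201⟩ (.leaf false ⟨⟨-92,-828,201⟩,⟨-72,209,828⟩,⟨849,-72,92⟩⟩ (1,[(0,1)]) (1,[(1,1)]) (9,[(5,7713),(4,857),(1,1)])) (.leaf false ⟨⟨-72,-92,849⟩,⟨209,-828,-72⟩,⟨828,201,92⟩⟩ (5142,[(4,1685719),(1,5303),(0,126)]) (20568,[(4,65827027),(1,11795),(0,55956)]) (15426,[(4,149324537),(1,43723),(0,173052)]))) (.leaf false ⟨⟨25,-840,-168⟩,⟨168,-160,825⟩,⟨840,57,-160⟩⟩ (72,[(2,8604),(0,25),(3,55255)]) (69,[(2,55917),(1,14),(3,13966)]) (825,[(2,277428),(1,788),(0,563)]))) (.leaf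 false ⟨⟨-792,-231,232⟩,⟨168,-808,-231⟩,⟨281,-168,792⟩⟩ (19,[(1,5920),(3,2340),(0,21)]) (209,[(1,9897),(3,704136),(0,808)]) (209,[(1,177624),(3,197833),(0,168)]))) (.node ⟨660,-380,393⟩ (.node ⟨-168,-808,-231⟩ (.node ⟨281,168,-792⟩ (.leaf false ⟨⟨-168,-808,-231⟩,⟨281,168,-792⟩,⟨792,-231,232⟩⟩ (1,[(1,1)]) (1,[(0,1)]) (380,[(3,2623),(5,148500),(2,231)])) (.leaf false ⟨⟨-695,-468,-180⟩,⟨180,-520,657⟩,⟨468,-495,-520⟩⟩ (14,[(3,33408),(5,1229),(0,39)]) (21,[(3,37683),(5,22045),(0,65)]) (56,[(3,159800),(5,72573),(0,165)]))) (.leaf false ⟨⟨24,-588,-623⟩,⟨273,596,-552⟩,⟨812,-183,204⟩⟩ (7,[(2,4592),(0,1),(3,4924)]) (8,[(2,7419),(0,13),(3,5736)]) (6,[(2,5475),(0,29),(3,24530)]))) (.leaf false ⟨⟨-687,-156,-488⟩,⟨348,457,-636⟩,⟨376,-708,-303⟩⟩ (393,[(3,52089),(2,246748),(0,488)]) (131,[(3,185508),(2,20693),(0,212)])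 (131,[(3,115916),(2,131128),(0,101)]))))) (.node ⟨0,1,0⟩ (.node ⟨0,0,1⟩ (.node ⟨209,72,828⟩ (.node ⟨209,828,-72⟩ (.node ⟨-828,201,-92⟩ (.leaf false ⟨⟨-828,201,-92⟩,⟨-72,92,849⟩,⟨209,828,-72⟩⟩ (1,[(0,1)]) (9,[(3,7713),(5,857),(1,1)]) (1,[(1,1)])) (.leaf false ⟨⟨-852,-79,48⟩,⟨9,372,772⟩,⟨92,-768,369⟩⟩ (15426,[(5,20316899),(1,595),(0,8514)]) (1714,[(5,16402123),(1,5261),(0,18500)]) (20568,[(5,67417619),(1,1171),(0,83412)]))) (.leaf false ⟨⟨-840,-168,25⟩,⟨-160,825,168⟩,⟨57,-160,840⟩⟩ (72,[(4,55255),(3,8604),(0,25)]) (69,[(4,13966),(3,55917),(1,14)]) (825,[(3,277428),(1,788),(0,563)]))) (.leaf false ⟨⟨-808,-231,168⟩,⟨-231,232,-792⟩,⟨-168,792,281⟩⟩ (209,[(1,704136),(0,808),(2,9897)]) (19,[(1,2340),(0,21),(2,5920)]) (209,[(1,197833),(0,168),(2,177624)]))) (.node ⟨-380,660,393⟩ (.node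 ⟨-808,-168,-231⟩ (.node ⟨168,281,-792⟩ (.leaf false ⟨⟨-808,-168,-231⟩,⟨-231,792,232⟩,⟨168,281,-792⟩⟩ (1,[(1,1)]) (380,[(3,2623),(2,231),(4,148500)]) (1,[(0,1)])) (.leaf false ⟨⟨-852,-92,9⟩,⟨-79,768,372⟩,⟨-48,369,-772⟩⟩ (14,[(3,56106),(0,71),(4,18663)]) (168,[(3,72),(0,79),(4,151223)]) (7,[(3,6988),(0,2),(4,3145)]))) (.leaf false ⟨⟨-852,48,-79⟩,⟨9,772,372⟩,⟨92,369,-768⟩⟩ (7,[(2,1015),(4,7580),(0,2)]) (42,[(2,28959),(4,155566),(0,193)]) (56,[(2,71421),(4,94232),(0,123)]))) (.leaf false ⟨⟨-839,-48,-168⟩,⟨48,729,-448⟩,⟨168,-448,-711⟩⟩ (131,[(3,131189),(2,30672),(0,56)]) (393,[(3,151376),(2,582177),(0,448)]) (131,[(3,68052),(2,97732),(0,237)])))) (.node ⟨0,0,1⟩ (.node ⟨-380,393,660⟩ (.node ⟨-808,-231,-168⟩ (.node ⟨168,-792,281⟩ (.leaf false ⟨⟨-808,-231,-168⟩,⟨-231,232,792⟩,⟨168,-792,281⟩⟩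 (1,[(1,1)]) (380,[(3,148500),(2,231),(4,2623)]) (1,[(0,1)])) (.leaf false ⟨⟨-852,9,-92⟩,⟨-79,372,768⟩,⟨-48,-772,369⟩⟩ (14,[(3,18663),(0,71),(4,56106)]) (168,[(3,151223),(0,79),(4,72)]) (7,[(3,3145),(0,2),(4,6988)]))) (.leaf false ⟨⟨-852,-79,48⟩,⟨9,372,772⟩,⟨92,-768,369⟩⟩ (7,[(4,7580),(3,1015),(0,2)]) (42,[(4,155566),(3,28959),(0,193)]) (56,[(4,94232),(3,71421),(0,123)]))) (.leaf false ⟨⟨-839,-168,-48⟩,⟨48,-448,729⟩,⟨168,-711,-448⟩⟩ (131,[(1,30672),(3,131189),(0,56)]) (393,[(1,582177),(3,151376),(0,448)]) (131,[(1,97732),(3,68052),(0,237)]))) (.node ⟨-288,313,-744⟩ (.node ⟨-288,-744,313⟩ (.node ⟨-807,272,-96⟩ (.leaf false ⟨⟨-807,272,-96⟩,⟨-288,-744,313⟩,⟨-16,-327,-792⟩⟩ (1,[(0,1)]) (1,[(1,1)]) (18,[(3,13512),(2,1),(4,6199)])) (.leaf false ⟨⟨-807,-16,-288⟩,⟨-96,-792,313⟩,⟨272,-327,-744⟩⟩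 (1795,[(2,832),(5,2066790),(0,1063)]) (857,[(5,676173),(1,569),(0,939)]) (359,[(2,487),(5,562640),(0,992)]))) (.leaf false ⟨⟨-839,-48,-168⟩,⟨48,729,-448⟩,⟨168,-448,-711⟩⟩ (313,[(4,310991),(3,140016),(0,168)]) (313,[(4,114000),(3,105135),(0,448)]) (313,[(4,152184),(3,669208),(0,711)]))) (.leaf false ⟨⟨-839,-168,-48⟩,⟨48,-448,729⟩,⟨168,-711,-448⟩⟩ (313,[(1,140016),(3,310991),(0,168)]) (313,[(1,105135),(3,114000),(0,448)]) (313,[(1,669208),(3,152184),(0,711)])))))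
theorem h857_ok : h857.check (ok 857 4 ⟨3, 3, 3⟩) (fun _ r => r) [] = true := by decide +kernel

def h859 : T := .node ⟨1,0,0⟩ (.node ⟨0,1,0⟩ (.node ⟨0,0,1⟩ (.node ⟨-354,249,742⟩ (.node ⟨594,454,-423⟩ (.node ⟨-382,729,246⟩ (.leaf false ⟨⟨-382,729,246⟩,⟨489,18,706⟩,⟨594,454,-423⟩⟩ (1,[(0,1)]) (83,[(3,54146),(5,42711),(2,6)]) (1,[(1,1)])) (.leaf false ⟨⟨-266,105,810⟩,⟨570,634,105⟩,⟨585,-570,266⟩⟩ (24545,[(4,3126882),(2,30498),(0,11171)]) (19636,[(4,41501026),(2,18033),(0,46011)]) (98180,[(4,106011204),(2,122761),(0,264117)]))) (.leaf false ⟨⟨-570,105,634⟩,⟨266,810,105⟩,⟨585,-266,570⟩⟩ (423,[(4,135486),(3,332251),(0,634)]) (141,[(4,58296),(3,130100),(0,35)]) (141,[(4,195345),(3,48754),(0,190)]))) (.leaf false ⟨⟨14,249,822⟩,⟨366,742,-231⟩,⟨777,-354,94⟩⟩ (177,[(1,150688),(0,7),(2,45816)])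 (59,[(1,31633),(0,61),(2,58967)]) (118,[(1,203270),(0,259),(2,22719)]))) (.node ⟨-174,174,-823⟩ (.node ⟨825,-230,-66⟩ (.node ⟨234,825,50⟩ (.leaf false ⟨⟨-50,66,-855⟩,⟨234,825,50⟩,⟨825,-230,-66⟩⟩ (29,[(3,15742),(5,464),(2,11)]) (1,[(0,1)]) (1,[(1,1)])) (.leaf false ⟨⟨-822,-94,-231⟩,⟨14,777,-366⟩,⟨249,-354,-742⟩⟩ (50,[(5,12954),(4,185875),(0,231)]) (25,[(5,43172),(4,170400),(0,183)]) (25,[(5,93039),(4,297225),(0,371)]))) (.leaf false ⟨⟨-823,246,6⟩,⟨6,41,-858⟩,⟨246,822,41⟩⟩ (115,[(2,7428),(4,6830),(0,123)]) (230,[(2,200046),(4,35205),(0,41)]) (115,[(2,22411),(4,367365),(0,411)]))) (.leaf false ⟨⟨18,841,-174⟩,⟨174,-174,-823⟩,⟨841,18,174⟩⟩ (29,[(1,7515),(0,3),(2,24911)]) (1,[(1,1646),(0,1)]) (6,[(1,22823),(0,29),(2,5154)])))) (.node ⟨0,0,1⟩ (.node ⟨-174,-823,174⟩ (.node ⟨825,-66,-230⟩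 (.node ⟨234,50,825⟩ (.leaf false ⟨⟨-50,-855,66⟩,⟨234,50,825⟩,⟨825,-66,-230⟩⟩ (29,[(5,464),(4,15742),(2,11)]) (1,[(0,1)]) (1,[(1,1)])) (.leaf false ⟨⟨-822,-231,-94⟩,⟨14,-366,777⟩,⟨249,-742,-354⟩⟩ (50,[(3,185875),(5,12954),(0,231)]) (25,[(3,170400),(5,43172),(0,183)]) (25,[(3,297225),(5,93039),(0,371)]))) (.leaf false ⟨⟨-823,6,246⟩,⟨6,-858,41⟩,⟨246,41,822⟩⟩ (115,[(4,6830),(3,7428),(0,123)]) (230,[(4,35205),(3,200046),(0,41)]) (115,[(4,367365),(3,22411),(0,411)]))) (.leaf false ⟨⟨18,-174,841⟩,⟨174,-823,-174⟩,⟨841,174,18⟩⟩ (29,[(1,24911),(0,3),(2,7515)]) (1,[(0,1),(2,1646)]) (6,[(1,5154),(0,29),(2,22823)]))) (.node ⟨41,246,-822⟩ (.node ⟨822,246,41⟩ (.leaf false ⟨⟨6,-823,-246⟩,⟨41,246,-822⟩,⟨858,-6,41⟩⟩ (41,[(2,5154),(1,6),(3,35219)]) (1,[(1,1)]) (137,[(2,246),(0,143),(3,36000)]))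 (.leaf false ⟨⟨-678,-519,-94⟩,⟨-39,202,-834⟩,⟨526,-654,-183⟩⟩ (7969,[(1,582),(3,2654991),(0,6602)]) (106149,[(1,106723),(4,7562866),(0,19560)]) (274,[(1,61),(4,141623),(3,194202)]))) (.leaf false ⟨⟨-39,-662,546⟩,⟨-14,-546,-663⟩,⟨858,-39,14⟩⟩ (123,[(1,204924),(3,8774),(0,331)]) (41,[(1,101985),(3,3157),(0,91)]) (82,[(1,9538),(3,70889),(0,13)]))))) (.node ⟨0,1,0⟩ (.node ⟨0,0,1⟩ (.node ⟨-823,-174,174⟩ (.node ⟨-66,825,-230⟩ (.node ⟨50,234,825⟩ (.leaf false ⟨⟨-855,-50,66⟩,⟨-66,825,-230⟩,⟨50,234,825⟩⟩ (29,[(2,11),(5,15742),(4,464)]) (1,[(1,1)]) (1,[(0,1)])) (.leaf false ⟨⟨-855,-66,-50⟩,⟨-66,230,825⟩,⟨-50,825,-234⟩⟩ (10,[(3,140575),(0,171),(4,39354)]) (25,[(3,47850),(0,33),(4,13472)]) (1,[(3,591),(0,1),(4,1059)]))) (.leaf false ⟨⟨-858,6,41⟩,⟨6,-823,246⟩,⟨41,246,822⟩⟩ (230,[(4,200046),(3,35205),(0,41)])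 (115,[(4,7428),(3,6830),(0,123)]) (115,[(4,22411),(3,367365),(0,411)]))) (.leaf false ⟨⟨-855,66,50⟩,⟨50,825,-234⟩,⟨66,230,825⟩⟩ (29,[(1,3364),(3,33848),(0,11)]) (58,[(1,34278),(3,223425),(0,275)]) (87,[(1,91785),(3,88903),(0,115)]))) (.node ⟨246,41,-822⟩ (.node ⟨246,822,41⟩ (.leaf false ⟨⟨-823,6,-246⟩,⟨-6,858,41⟩,⟨246,41,-822⟩⟩ (41,[(2,5154),(4,35219),(1,6)]) (137,[(2,246),(4,36000),(0,143)]) (1,[(1,1)])) (.leaf false ⟨⟨-858,41,-6⟩,⟨-6,-246,-823⟩,⟨41,822,-246⟩⟩ (41,[(4,33702),(3,6613),(0,6)]) (35383,[(3,18326430),(1,33702),(0,34565)]) (137,[(4,4469),(3,110933),(1,41)]))) (.leaf false ⟨⟨-663,14,546⟩,⟨-546,-39,-662⟩,⟨-14,858,-39⟩⟩ (82,[(1,136890),(0,221),(2,10209)]) (41,[(1,101944),(0,91),(2,2132)]) (123,[(1,10551),(0,7),(2,105821)])))) (.node ⟨0,0,1⟩ (.node ⟨246,-822,41⟩ (.node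 ⟨246,41,822⟩ (.leaf false ⟨⟨-823,-246,6⟩,⟨-6,41,858⟩,⟨246,-822,41⟩⟩ (41,[(4,35219),(3,5154),(1,6)]) (137,[(4,36000),(3,246),(0,143)]) (1,[(1,1)])) (.leaf false ⟨⟨-858,-6,41⟩,⟨-6,-823,-246⟩,⟨41,-246,822⟩⟩ (41,[(2,6613),(4,33702),(0,6)]) (35383,[(2,18326430),(0,34565),(1,33702)]) (137,[(2,110933),(4,4469),(1,41)]))) (.leaf false ⟨⟨-663,546,14⟩,⟨-546,-662,-39⟩,⟨-14,-39,858⟩⟩ (82,[(1,10209),(0,221),(2,136890)]) (41,[(1,2132),(0,91),(2,101944)]) (123,[(1,105821),(0,7),(2,10551)]))) (.leaf false ⟨⟨-859,0,0⟩,⟨0,-859,0⟩,⟨0,0,-859⟩⟩ (1,[(2,859)]) (1,[(1,859)]) (1,[(0,859)]))))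
theorem h859_ok : h859.check (ok 859 4 ⟨3, 3, 3⟩) (fun _ r => r) [] = true := by decide +kernel

def h863 : T := .node ⟨1,0,0⟩ (.node ⟨0,1,0⟩ (.node ⟨0,0,1⟩ (.node ⟨-395,210,738⟩ (.node ⟨-395,762,90⟩ (.node ⟨90,837,-190⟩ (.leaf false ⟨⟨-395,210,738⟩,⟨90,837,-190⟩,⟨762,10,405⟩⟩ (1,[(2,1)]) (1,[(0,1)]) (21,[(3,7767),(5,16397),(2,1)])) (.leaf false ⟨⟨-667,294,462⟩,⟨294,-422,693⟩,⟨462,693,226⟩⟩ (515,[(4,440754),(1,655),(0,942)]) (190,[(5,118230),(4,499861),(0,693)]) (95,[(5,54060),(4,160416),(0,113)]))) (.leaf false ⟨⟨-267,-66,818⟩,⟨342,773,174⟩,⟨746,-378,213⟩⟩ (31995,[(3,2045076),(1,37385),(0,15758)]) (42660,[(3,70276332),(1,16585),(0,53521)]) (85320,[(3,118369272),(1,50425),(0,211561)]))) (.leaf false ⟨⟨10,210,837⟩,⟨405,738,-190⟩,⟨762,-395,90⟩⟩ (79,[(1,67599),(0,2),(2,17010)])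 (79,[(1,44768),(0,81),(2,75312)]) (395,[(1,597906),(0,762),(2,3995)]))) (.node ⟨762,262,309⟩ (.node ⟨-363,690,-370⟩ (.node ⟨330,-235,-762⟩ (.leaf false ⟨⟨-363,690,-370⟩,⟨330,-235,-762⟩,⟨710,462,165⟩⟩ (1,[(1,1)]) (1,[(0,1)]) (103,[(5,31220),(2,55),(4,33176)])) (.leaf false ⟨⟨-667,546,42⟩,⟨42,117,-854⟩,⟨546,658,117⟩⟩ (235,[(3,406182),(5,23435),(0,546)]) (235,[(3,289844),(5,48480),(0,117)]) (5,[(3,10083),(5,7350),(0,14)]))) (.leaf false ⟨⟨18,693,-514⟩,⟨414,-458,-603⟩,⟨757,234,342⟩⟩ (121,[(2,64414),(0,6),(3,87993)]) (121,[(2,124023),(0,138),(3,39802)]) (363,[(2,155944),(0,757),(3,607272)]))) (.leaf false ⟨⟨-762,-90,-395⟩,⟨10,837,-210⟩,⟨405,-190,-738⟩⟩ (309,[(3,65532),(2,75680),(0,395)]) (103,[(3,54370),(2,104551),(0,70)]) (103,[(3,229167),(2,44882),(0,246)])))) (.node ⟨0,0,1⟩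 (.node ⟨762,309,262⟩ (.node ⟨-363,-370,690⟩ (.node ⟨330,-762,-235⟩ (.leaf false ⟨⟨-363,-370,690⟩,⟨330,-762,-235⟩,⟨710,165,462⟩⟩ (1,[(1,1)]) (1,[(0,1)]) (103,[(3,33176),(2,55),(5,31220)])) (.leaf false ⟨⟨-667,42,546⟩,⟨42,-854,117⟩,⟨546,117,658⟩⟩ (235,[(5,23435),(4,406182),(0,546)]) (235,[(5,48480),(4,289844),(0,117)]) (5,[(5,7350),(4,10083),(0,14)]))) (.leaf false ⟨⟨18,-514,693⟩,⟨414,-603,-458⟩,⟨757,342,234⟩⟩ (121,[(2,87993),(0,6),(3,64414)]) (121,[(2,39802),(0,138),(3,124023)]) (363,[(2,607272),(0,757),(3,155944)]))) (.leaf false ⟨⟨-762,-395,-90⟩,⟨10,-210,837⟩,⟨405,-738,-190⟩⟩ (309,[(1,75680),(3,65532),(0,395)]) (103,[(1,104551),(3,54370),(0,70)]) (103,[(1,44882),(3,229167),(0,246)]))) (.node ⟨818,-123,246⟩ (.node ⟨18,-827,246⟩ (.node ⟨-123,-854,-18⟩ (.leaf false ⟨⟨-123,-854,-18⟩,⟨246,-18,-827⟩,⟨818,-123,246⟩⟩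 (1,[(0,1)]) (41,[(3,35383),(5,5178),(2,6)]) (1,[(2,1)])) (.leaf false ⟨⟨42,-667,-546⟩,⟨117,546,-658⟩,⟨854,-42,117⟩⟩ (41,[(3,22638),(0,14),(4,39303)]) (41,[(3,27680),(0,39),(4,10920)]) (123,[(3,981),(0,854),(4,734482)]))) (.leaf false ⟨⟨-62,69,-858⟩,⟨438,-738,-91⟩,⟨741,442,-18⟩⟩ (1025,[(1,1),(3,2886504),(0,3576)]) (98400,[(1,54693),(3,141225872),(0,91093)]) (6560,[(1,6087),(3,1782688),(0,6567)]))) (.leaf false ⟨⟨-822,78,-251⟩,⟨21,-802,-318⟩,⟨262,309,-762⟩⟩ (246,[(3,3106),(2,11685),(0,251)]) (41,[(3,44215),(2,39401),(0,53)]) (41,[(3,114628),(2,2952),(0,127)]))))) (.node ⟨0,1,0⟩ (.node ⟨0,0,1⟩ (.node ⟨309,262,762⟩ (.node ⟨-370,690,-363⟩ (.node ⟨-762,-235,330⟩ (.leaf false ⟨⟨-762,-235,330⟩,⟨-370,690,-363⟩,⟨165,462,710⟩⟩ (1,[(0,1)]) (1,[(1,1)]) (103,[(3,31220),(4,33176),(2,55)]))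 (.leaf false ⟨⟨-854,117,42⟩,⟨42,546,-667⟩,⟨117,658,546⟩⟩ (235,[(3,48480),(5,289844),(0,117)]) (235,[(3,23435),(5,406182),(0,546)]) (5,[(3,7350),(5,10083),(0,14)]))) (.leaf false ⟨⟨-854,42,117⟩,⟨42,-667,546⟩,⟨117,546,658⟩⟩ (121,[(4,117764),(3,31992),(0,39)]) (121,[(4,62258),(3,44873),(0,182)]) (363,[(4,200989),(3,652218),(0,658)]))) (.leaf false ⟨⟨-827,-186,-162⟩,⟨-186,98,837⟩,⟨-162,837,-134⟩⟩ (309,[(1,580116),(0,827),(2,159200)]) (103,[(1,133455),(0,62),(2,26338)]) (103,[(1,27346),(0,54),(2,100359)]))) (.node ⟨-123,818,246⟩ (.node ⟨-827,18,246⟩ (.node ⟨-854,-123,-18⟩ (.leaf false ⟨⟨-854,-123,-18⟩,⟨-123,818,246⟩,⟨-18,246,-827⟩⟩ (1,[(0,1)]) (1,[(2,1)]) (41,[(3,35383),(2,6),(4,5178)])) (.leaf false ⟨⟨-854,117,42⟩,⟨42,546,-667⟩,⟨117,658,546⟩⟩ (1663,[(5,2609290),(1,170),(0,1557)])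 (41,[(3,30623),(5,153706),(0,182)]) (4989,[(5,13432534),(1,9219),(0,25340)]))) (.leaf false ⟨⟨-822,213,-154⟩,⟨174,62,-843⟩,⟨197,834,102⟩⟩ (19680,[(4,30249568),(1,5517),(0,17837)]) (32800,[(4,90817584),(1,5071),(0,117471)]) (1025,[(4,192136),(1,1059),(0,634)]))) (.leaf false ⟨⟨-858,18,-91⟩,⟨62,741,-438⟩,⟨69,-442,-738⟩⟩ (246,[(3,222261),(2,78866),(0,91)]) (41,[(3,6437),(2,90095),(0,73)]) (1,[(3,300),(2,2012),(0,3)])))) (.node ⟨0,0,1⟩ (.node ⟨-123,246,818⟩ (.node ⟨-827,246,18⟩ (.node ⟨-854,-18,-123⟩ (.leaf false ⟨⟨-854,-18,-123⟩,⟨-123,246,818⟩,⟨-18,-827,246⟩⟩ (1,[(0,1)]) (1,[(2,1)]) (41,[(3,5178),(2,6),(4,35383)])) (.leaf false ⟨⟨-854,42,117⟩,⟨42,-667,546⟩,⟨117,546,658⟩⟩ (1663,[(1,170),(5,2609290),(0,1557)]) (41,[(5,153706),(4,30623),(0,182)]) (4989,[(1,9219),(5,13432534),(0,25340)])))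 (.leaf false ⟨⟨-822,-154,213⟩,⟨174,-843,62⟩,⟨197,102,834⟩⟩ (19680,[(1,5517),(4,30249568),(0,17837)]) (32800,[(1,5071),(4,90817584),(0,117471)]) (1025,[(1,1059),(4,192136),(0,634)]))) (.leaf false ⟨⟨-858,-91,18⟩,⟨62,-438,741⟩,⟨69,-738,-442⟩⟩ (246,[(1,78866),(3,222261),(0,91)]) (41,[(1,90095),(3,6437),(0,73)]) (1,[(1,2012),(3,300),(0,3)]))) (.leaf false ⟨⟨-863,0,0⟩,⟨0,-863,0⟩,⟨0,0,-863⟩⟩ (1,[(2,863)]) (1,[(1,863)]) (1,[(0,863)]))))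
theorem h863_ok : h863.check (ok 863 4 ⟨3, 3, 3⟩) (fun _ r => r) [] = true := by decide +kernel

def h877 : T := .node ⟨1,0,0⟩ (.node ⟨0,1,0⟩ (.node ⟨0,0,1⟩ (.leaf false ⟨⟨0,0,877⟩,⟨0,877,0⟩,⟨877,0,0⟩⟩ (1,[(0,877)]) (1,[(1,877)]) (1,[(2,877)])) (.node ⟨-328,804,-123⟩ (.node ⟨508,-384,-603⟩ (.node ⟨24,-123,-868⟩ (.leaf false ⟨⟨-328,804,-123⟩,⟨24,-123,-868⟩,⟨813,328,-24⟩⟩ (1,[(2,1)]) (1,[(0,1)]) (41,[(5,35957),(4,7016),(2,8)])) (.leaf false ⟨⟨-312,816,77⟩,⟨517,132,696⟩,⟨636,293,-528⟩⟩ (877,[(3,443762),(0,700),(2,783)]) (17756,[(3,51065569),(1,22253),(0,88528)]) (13317,[(3,79474187),(1,21315),(0,98267)]))) (.leaf false ⟨⟨-696,528,77⟩,⟨132,293,-816⟩,⟨517,636,312⟩⟩ (8,[(2,6017),(4,20),(0,11)]) (384,[(2,490023),(4,199532),(0,293)]) (32,[(2,21975),(4,43468),(0,53)]))) (.leaf false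 ⟨⟨32,312,-819⟩,⟨468,-699,-248⟩,⟨741,428,192⟩⟩ (41,[(1,34071),(0,4),(2,16008)]) (82,[(1,34727),(0,117),(2,36750)]) (328,[(1,28167),(0,741),(2,736148)])))) (.node ⟨0,0,1⟩ (.node ⟨-328,-123,804⟩ (.node ⟨508,-603,-384⟩ (.node ⟨24,-868,-123⟩ (.leaf false ⟨⟨-328,-123,804⟩,⟨24,-868,-123⟩,⟨813,-24,328⟩⟩ (1,[(2,1)]) (1,[(0,1)]) (41,[(3,7016),(5,35957),(2,8)])) (.leaf false ⟨⟨-312,77,816⟩,⟨517,696,132⟩,⟨636,-528,293⟩⟩ (877,[(4,443762),(2,783),(0,700)]) (17756,[(1,22253),(4,51065569),(0,88528)]) (13317,[(1,21315),(4,79474187),(0,98267)]))) (.leaf false ⟨⟨-696,77,528⟩,⟨132,-816,293⟩,⟨517,312,636⟩⟩ (8,[(4,20),(3,6017),(0,11)]) (384,[(4,199532),(3,490023),(0,293)]) (32,[(4,43468),(3,21975),(0,53)]))) (.leaf false ⟨⟨32,-819,312⟩,⟨468,-248,-699⟩,⟨741,192,428⟩⟩ (41,[(1,16008),(0,4),(2,34071)])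 (82,[(1,36750),(0,117),(2,34727)]) (328,[(1,736148),(0,741),(2,28167)]))) (.node ⟨-148,-864,-27⟩ (.node ⟨-27,148,-864⟩ (.leaf false ⟨⟨-148,-864,-27⟩,⟨-27,32,-876⟩,⟨864,-147,-32⟩⟩ (1,[(1,1)]) (72,[(4,27),(3,8500),(0,73)]) (27,[(4,23355),(3,4117),(0,1)])) (.leaf false ⟨⟨-76,-867,-108⟩,⟨477,-132,724⟩,⟨732,-4,-483⟩⟩ (288,[(2,23301),(4,20884),(1,289)]) (37,[(2,1724),(4,16758),(0,33)]) (37,[(2,18735),(4,27057),(0,1)]))) (.leaf false ⟨⟨5,-252,-840⟩,⟨252,805,-240⟩,⟨840,-240,77⟩⟩ (148,[(1,124455),(0,5),(2,41616)]) (37,[(1,10581),(0,63),(2,24647)]) (37,[(1,2821),(0,210),(2,190320)]))))) (.node ⟨0,1,0⟩ (.node ⟨0,0,1⟩ (.node ⟨-123,804,-328⟩ (.node ⟨-603,-384,508⟩ (.node ⟨-868,-123,24⟩ (.leaf false ⟨⟨-868,-123,24⟩,⟨-123,804,-328⟩,⟨-24,328,813⟩⟩ (1,[(0,1)]) (1,[(2,1)]) (41,[(3,35957),(2,8),(4,7016)]))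 (.leaf false ⟨⟨-840,5,252⟩,⟨77,840,240⟩,⟨240,-252,805⟩⟩ (6420,[(1,4642),(5,2316063),(2,2257)]) (193,[(1,180),(5,1508439),(0,1880)]) (17756,[(1,30989),(5,29451617),(0,60368)]))) (.leaf false ⟨⟨-867,76,108⟩,⟨4,732,-483⟩,⟨132,477,724⟩⟩ (96,[(2,20020),(4,94689),(0,19)]) (32,[(2,15532),(4,36655),(0,61)]) (128,[(2,173444),(4,78981),(0,159)]))) (.leaf false ⟨⟨-867,4,132⟩,⟨76,732,477⟩,⟨108,-483,724⟩⟩ (82,[(3,75153),(2,26860),(0,33)]) (328,[(3,33743),(2,623604),(0,477)]) (82,[(3,13407),(2,105918),(0,181)]))) (.node ⟨-27,-148,-864⟩ (.node ⟨-864,-27,148⟩ (.leaf false ⟨⟨-876,-27,32⟩,⟨-32,864,-147⟩,⟨-27,-148,-864⟩⟩ (72,[(2,8500),(0,73),(3,27)]) (27,[(2,4117),(0,1),(3,23355)]) (1,[(1,1)])) (.leaf false ⟨⟨-483,732,-4⟩,⟨-108,-76,-867⟩,⟨724,477,-132⟩⟩ (37,[(4,18735),(3,27057),(0,1)]) (288,[(1,289),(4,23301),(3,20884)])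 (37,[(4,1724),(3,16758),(0,33)]))) (.leaf false ⟨⟨-868,84,93⟩,⟨-84,93,-868⟩,⟨93,868,84⟩⟩ (37,[(1,14703),(3,32683),(0,21)]) (148,[(1,208816),(3,14943),(0,93)]) (37,[(1,184380),(3,2418),(0,217)])))) (.node ⟨0,0,1⟩ (.node ⟨-27,-864,-148⟩ (.node ⟨-864,148,-27⟩ (.leaf false ⟨⟨-876,32,-27⟩,⟨-32,-147,864⟩,⟨-27,-864,-148⟩⟩ (72,[(2,27),(0,73),(3,8500)]) (27,[(2,23355),(0,1),(3,4117)]) (1,[(1,1)])) (.leaf false ⟨⟨-483,-4,732⟩,⟨-108,-867,-76⟩,⟨724,-132,477⟩⟩ (37,[(2,27057),(4,18735),(0,1)]) (288,[(2,20884),(4,23301),(1,289)]) (37,[(2,16758),(4,1724),(0,33)]))) (.leaf false ⟨⟨-868,93,84⟩,⟨-84,-868,93⟩,⟨93,84,868⟩⟩ (37,[(3,32683),(2,14703),(0,21)]) (148,[(3,14943),(2,208816),(0,93)]) (37,[(3,2418),(2,184380),(0,217)]))) (.node ⟨-372,552,-571⟩ (.node ⟨-675,-500,252⟩ (.node ⟨252,-500,-675⟩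 (.leaf false ⟨⟨-675,-540,148⟩,⟨-500,477,-540⟩,⟨252,-500,-675⟩⟩ (1,[(3,104),(1,1),(4,40)]) (184,[(3,8571),(2,159),(5,32852)]) (1,[(0,1)])) (.leaf false ⟨⟨-792,-211,312⟩,⟨-372,552,-571⟩,⟨-59,-648,-588⟩⟩ (7,[(3,12666),(0,22),(4,12477)]) (21,[(3,32916),(0,31),(4,3908)]) (252,[(3,188001),(0,59),(4,192796)]))) (.leaf false ⟨⟨-867,76,-108⟩,⟨-4,-732,-483⟩,⟨132,477,-724⟩⟩ (7,[(4,8094),(3,968),(0,3)]) (12,[(4,15573),(3,20284),(0,23)]) (63,[(4,113859),(3,60449),(0,181)]))) (.leaf false ⟨⟨-867,-108,76⟩,⟨-4,-483,-732⟩,⟨132,-724,477⟩⟩ (46,[(1,1643),(3,43230),(0,9)]) (8,[(1,9853),(3,2636),(0,7)]) (138,[(1,37525),(3,49116),(0,181)])))))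
theorem h877_ok : h877.check (ok 877 4 ⟨3, 3, 3⟩) (fun _ r => r) [] = true := by decide +kernel

def h881 : T := .node ⟨1,0,0⟩ (.node ⟨0,1,0⟩ (.node ⟨0,0,1⟩ (.leaf false ⟨⟨0,0,881⟩,⟨0,881,0⟩,⟨881,0,0⟩⟩ (1,[(0,881)]) (1,[(1,881)]) (1,[(2,881)])) (.node ⟨0,800,369⟩ (.leaf false ⟨⟨0,369,-800⟩,⟨0,800,369⟩,⟨881,0,0⟩⟩ (800,[(1,776161),(0,369)]) (1,[(0,1)]) (1,[(3,881)])) (.node ⟨-432,116,-759⟩ (.leaf false ⟨⟨-432,116,-759⟩,⟨521,684,-192⟩,⟨564,-543,-404⟩⟩ (1,[(0,1)]) (123,[(1,64),(4,64083),(3,135332)]) (369,[(1,404),(4,208116),(3,122833)])) (.leaf false ⟨⟨0,881,0⟩,⟨369,0,-800⟩,⟨800,0,369⟩⟩ (1,[(3,881)]) (5904,[(1,23173),(0,5043),(3,19123388)]) (3321,[(1,9329),(0,6150),(3,8176600)]))))) (.node ⟨0,0,1⟩ (.node ⟨0,369,800⟩ (.leaf false ⟨⟨0,-800,369⟩,⟨0,369,800⟩,⟨881,0,0⟩⟩ (800,[(0,369),(2,776161)])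 (1,[(0,1)]) (1,[(3,881)])) (.node ⟨-432,-759,116⟩ (.leaf false ⟨⟨-432,-759,116⟩,⟨521,-192,684⟩,⟨564,-404,-543⟩⟩ (1,[(0,1)]) (123,[(2,135332),(4,64083),(1,64)]) (369,[(2,122833),(4,208116),(1,404)])) (.leaf false ⟨⟨0,0,881⟩,⟨369,-800,0⟩,⟨800,369,0⟩⟩ (1,[(2,881)]) (5904,[(2,19123388),(0,5043),(1,23173)]) (3321,[(2,8176600),(0,6150),(1,9329)])))) (.node ⟨81,-864,152⟩ (.node ⟨81,152,-864⟩ (.node ⟨784,393,84⟩ (.leaf false ⟨⟨81,-864,152⟩,⟨96,-143,-864⟩,⟨872,96,81⟩⟩ (1,[(2,1)]) (49,[(3,42840),(0,6),(4,9365)]) (98,[(3,1218),(0,109),(4,33429)])) (.leaf false ⟨⟨-719,-360,-360⟩,⟨360,-800,81⟩,⟨360,81,-800⟩⟩ (2936,[(1,927),(5,203561),(0,3048)]) (90424,[(1,6452),(5,25156287),(2,84861)]) (90424,[(1,84861),(5,25156287),(2,6452)]))) (.leaf false ⟨⟨-399,-784,-48⟩,⟨432,-264,721⟩,⟨656,-303,-504⟩⟩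 (19,[(2,85584),(4,357),(0,98)]) (19,[(2,14813),(4,10881),(0,33)]) (152,[(2,338400),(4,124255),(0,303)]))) (.leaf false ⟨⟨-399,-48,-784⟩,⟨432,721,-264⟩,⟨656,-504,-303⟩⟩ (19,[(3,357),(2,85584),(0,98)]) (19,[(3,10881),(2,14813),(0,33)]) (152,[(3,124255),(2,338400),(0,303)]))))) (.node ⟨0,1,0⟩ (.node ⟨0,0,1⟩ (.node ⟨369,0,800⟩ (.leaf false ⟨⟨-800,0,369⟩,⟨0,881,0⟩,⟨369,0,800⟩⟩ (800,[(3,776161),(0,369)]) (1,[(2,881)]) (1,[(0,1)])) (.node ⟨-759,-432,116⟩ (.leaf false ⟨⟨-836,-264,-87⟩,⟨-228,809,-264⟩,⟨-159,228,836⟩⟩ (2214,[(2,1436834),(0,1353),(1,2233)]) (123,[(2,28328),(1,76),(3,99507)]) (123,[(2,145228),(1,53),(3,28044)])) (.leaf false ⟨⟨-864,9,-172⟩,⟨-156,332,801⟩,⟨73,816,-324⟩⟩ (5904,[(2,10260380),(1,14077),(0,123)]) (13284,[(2,33116728),(1,26615),(0,10209)]) (1107,[(2,3149488),(1,4082),(0,2091)]))))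 (.node ⟨-864,81,152⟩ (.node ⟨152,81,-864⟩ (.node ⟨84,784,393⟩ (.leaf false ⟨⟨-864,81,152⟩,⟨-143,96,-864⟩,⟨96,872,81⟩⟩ (1,[(2,1)]) (49,[(3,44694),(5,7511),(0,6)]) (4013,[(3,1363947),(0,4456),(1,72)])) (.leaf false ⟨⟨-800,360,81⟩,⟨-360,-719,-360⟩,⟨81,360,-800⟩⟩ (90424,[(2,84861),(4,25156287),(1,6452)]) (2936,[(2,927),(4,203561),(0,3048)]) (90424,[(2,6452),(4,25156287),(1,84861)]))) (.leaf false ⟨⟨-864,-152,81⟩,⟨-143,864,96⟩,⟨-96,81,-872⟩⟩ (19,[(2,91773),(0,108),(3,5860)]) (152,[(2,108960),(0,143),(3,142911)]) (19,[(2,26936),(0,12),(3,2511)]))) (.leaf false ⟨⟨-872,81,-96⟩,⟨81,-152,-864⟩,⟨96,864,-143⟩⟩ (19,[(3,26936),(2,2511),(0,12)]) (19,[(3,91773),(2,5860),(0,108)]) (152,[(3,108960),(2,142911),(0,143)])))) (.node ⟨0,0,1⟩ (.node ⟨152,-864,81⟩ (.node ⟨-864,152,81⟩ (.node ⟨84,393,784⟩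 (.leaf false ⟨⟨-864,-143,96⟩,⟨81,96,872⟩,⟨152,-864,81⟩⟩ (49,[(5,42840),(4,9365),(0,6)]) (98,[(5,1218),(4,33429),(0,109)]) (1,[(2,1)])) (.leaf false ⟨⟨-800,81,360⟩,⟨-360,-360,-719⟩,⟨81,-800,360⟩⟩ (90424,[(3,25156287),(1,84861),(2,6452)]) (2936,[(3,203561),(1,927),(0,3048)]) (90424,[(3,25156287),(1,6452),(2,84861)]))) (.leaf false ⟨⟨-872,-96,81⟩,⟨81,-864,-152⟩,⟨96,-143,864⟩⟩ (19,[(2,2511),(4,26936),(0,12)]) (19,[(2,5860),(4,91773),(0,108)]) (152,[(2,142911),(4,108960),(0,143)]))) (.leaf false ⟨⟨-864,81,-152⟩,⟨-143,96,864⟩,⟨-96,-872,81⟩⟩ (19,[(1,5860),(0,108),(2,91773)]) (152,[(1,142911),(0,143),(2,108960)]) (19,[(1,2511),(0,12),(2,26936)]))) (.node ⟨-432,521,-564⟩ (.node ⟨-732,-396,289⟩ (.node ⟨136,-663,-564⟩ (.leaf false ⟨⟨-732,-396,289⟩,⟨-471,424,-612⟩,⟨136,-663,-564⟩⟩ (1,[(1,1)])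 (47,[(2,51),(5,105),(4,6643)]) (1,[(0,1)])) (.leaf false ⟨⟨-840,105,244⟩,⟨-215,-744,-420⟩,⟨-156,460,-735⟩⟩ (17,[(3,55072),(0,105),(4,67830)]) (136,[(3,178380),(0,215),(4,243729)]) (34,[(3,46986),(0,39),(4,10217)]))) (.leaf false ⟨⟨-863,-84,-156⟩,⟨84,489,-728⟩,⟨156,-728,-471⟩⟩ (289,[(4,363599),(3,86052),(0,156)]) (289,[(4,508620),(3,146967),(0,728)]) (289,[(4,299688),(3,396908),(0,471)]))) (.leaf false ⟨⟨-863,-156,-84⟩,⟨84,-728,489⟩,⟨156,-471,-728⟩⟩ (521,[(1,131748),(3,517015),(0,156)]) (521,[(1,155823),(3,270732),(0,728)]) (521,[(1,644932),(3,122196),(0,471)])))))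
theorem h881_ok : h881.check (ok 881 4 ⟨3, 3, 3⟩) (fun _ r => r) [] = true := by decide +kernel

def h883 : T := .node ⟨1,0,0⟩ (.node ⟨0,1,0⟩ (.node ⟨0,0,1⟩ (.node ⟨-42,1,882⟩ (.node ⟨161,798,-342⟩ (.node ⟨-342,378,721⟩ (.leaf false ⟨⟨-342,378,721⟩,⟨161,798,-342⟩,⟨798,1,378⟩⟩ (1,[(0,1)]) (1,[(1,1)]) (378,[(3,142163),(5,301986),(0,1)])) (.leaf false ⟨⟨-42,1,882⟩,⟨42,882,1⟩,⟨881,-42,42⟩⟩ (1,[(2,1)]) (18234,[(1,5298),(4,11852509),(2,2075)]) (299881,[(1,319753),(2,718872),(0,710256)]))) (.leaf false ⟨⟨-342,161,798⟩,⟨378,798,1⟩,⟨721,-342,378⟩⟩ (3,[(4,101),(3,6069),(0,7)]) (342,[(4,129437),(3,273714),(0,1)]) (19,[(4,17080),(3,10260),(0,21)]))) (.node ⟨766,-303,-318⟩ (.leaf false ⟨⟨1,42,882⟩,⟨42,881,-42⟩,⟨882,-42,1⟩⟩ (42,[(2,37926),(1,1),(3,1765)]) (1,[(2,840),(1,1),(3,882)]) (383,[(2,140621),(0,441),(3,117537)]))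 (.leaf false ⟨⟨-802,369,18⟩,⟨18,82,-879⟩,⟨369,798,82⟩⟩ (1495,[(2,3813936),(1,4956),(0,1837)]) (5980,[(2,24298428),(1,34133),(0,1731)]) (2392,[(2,125591488),(1,144615),(0,6777)])))) (.node ⟨-150,870,17⟩ (.node ⟨858,145,150⟩ (.leaf false ⟨⟨-150,870,17⟩,⟨145,42,-870⟩,⟨858,145,150⟩⟩ (1,[(1,1)]) (145,[(2,126269),(4,22075),(1,7)]) (1,[(0,1)])) (.leaf false ⟨⟨-847,-42,-246⟩,⟨42,834,-287⟩,⟨246,-287,-798⟩⟩ (128035,[(4,78976403),(1,29370),(0,213306)]) (128035,[(4,256783464),(1,166715),(0,263868)]) (128035,[(4,633884508),(1,72660),(0,689381)]))) (.node ⟨-138,126,-863⟩ (.leaf false ⟨⟨-138,126,-863⟩,⟨577,-642,-186⟩,⟨654,593,-18⟩⟩ (1,[(0,1)]) (125492,[(1,96247),(4,61442672),(0,25151)]) (17,[(1,18),(4,8418),(3,25741)])) (.leaf false ⟨⟨17,642,-606⟩,⟨402,534,577⟩,⟨786,-287,-282⟩⟩ (138,[(2,98299),(0,17),(3,90738)])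 (23,[(2,44550),(0,67),(3,20724)]) (25,[(2,4823),(1,131),(3,106795)]))))) (.node ⟨0,0,1⟩ (.node ⟨-150,17,870⟩ (.node ⟨858,150,145⟩ (.leaf false ⟨⟨-150,17,870⟩,⟨145,-870,42⟩,⟨858,150,145⟩⟩ (1,[(1,1)]) (145,[(4,22075),(3,126269),(1,7)]) (1,[(0,1)])) (.leaf false ⟨⟨-847,-246,-42⟩,⟨42,-287,834⟩,⟨246,-798,-287⟩⟩ (128035,[(4,78976403),(0,213306),(1,29370)]) (128035,[(4,256783464),(0,263868),(1,166715)]) (128035,[(4,633884508),(0,689381),(1,72660)]))) (.node ⟨-138,-863,126⟩ (.leaf false ⟨⟨-138,-863,126⟩,⟨577,-186,-642⟩,⟨654,-18,593⟩⟩ (1,[(0,1)]) (125492,[(4,61442672),(1,96247),(0,25151)]) (17,[(2,25741),(4,8418),(1,18)])) (.leaf false ⟨⟨17,-606,642⟩,⟨402,577,534⟩,⟨786,-282,-287⟩⟩ (138,[(2,90738),(0,17),(3,98299)]) (23,[(2,20724),(0,67),(3,44550)]) (25,[(2,106795),(1,131),(3,4823)]))))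 (.node ⟨881,42,42⟩ (.leaf false ⟨⟨42,-882,1⟩,⟨42,1,-882⟩,⟨881,42,42⟩⟩ (881,[(1,883),(0,42),(2,778806)]) (881,[(1,778806),(0,42),(2,883)]) (1,[(0,1)])) (.node ⟨114,222,-847⟩ (.leaf false ⟨⟨-858,-26,-207⟩,⟨33,-882,-26⟩,⟨206,33,-858⟩⟩ (22449,[(4,10248872),(1,33988),(0,3801)]) (21,[(4,12146),(3,17976),(1,13)]) (77,[(4,6970),(3,14775),(0,78)])) (.leaf false ⟨⟨-858,-207,-26⟩,⟨33,-26,-882⟩,⟨206,-858,33⟩⟩ (63598,[(2,40631375),(0,48777),(1,55626)]) (21,[(2,17976),(4,12146),(1,13)]) (37,[(2,119900),(4,23924),(0,143)])))))) (.node ⟨0,1,0⟩ (.node ⟨0,0,1⟩ (.node ⟨17,870,-150⟩ (.node ⟨150,145,858⟩ (.leaf false ⟨⟨-870,42,145⟩,⟨17,870,-150⟩,⟨150,145,858⟩⟩ (145,[(2,22075),(4,126269),(1,7)]) (1,[(1,1)]) (1,[(0,1)])) (.leaf false ⟨⟨-863,-186,18⟩,⟨-138,577,-654⟩,⟨-126,642,593⟩⟩ (128035,[(2,658371864),(0,747648),(1,97235)])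 (128035,[(2,43676712),(0,129869),(1,106560)]) (128035,[(2,196528427),(0,120534),(1,114570)]))) (.node ⟨-863,126,-138⟩ (.leaf false ⟨⟨-879,-18,-82⟩,⟨-82,369,798⟩,⟨-18,-802,369⟩⟩ (31373,[(2,1033552),(1,5262),(0,31851)]) (17,[(2,1266),(1,82),(3,77613)]) (17,[(2,3573),(1,18),(3,2026)])) (.leaf false ⟨⟨-882,26,33⟩,⟨26,-207,858⟩,⟨33,858,206⟩⟩ (50,[(1,11),(4,43913),(3,10870)]) (23,[(4,122811),(3,13257),(0,143)]) (69,[(4,86612),(3,72180),(0,103)])))) (.node ⟨42,881,42⟩ (.leaf false ⟨⟨-882,42,1⟩,⟨1,42,-882⟩,⟨42,881,42⟩⟩ (881,[(1,883),(3,778806),(0,42)]) (881,[(1,778806),(3,883),(0,42)]) (1,[(0,1)])) (.node ⟨-847,114,222⟩ (.leaf false ⟨⟨-858,206,33⟩,⟨-207,-858,-26⟩,⟨-26,33,-882⟩⟩ (77,[(2,14775),(0,78),(3,6970)]) (22449,[(1,33988),(0,3801),(3,10248872)]) (21,[(2,17976),(1,13),(3,12146)]))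 (.leaf false ⟨⟨-882,33,-26⟩,⟨-26,-858,-207⟩,⟨33,206,-858⟩⟩ (21,[(1,13),(4,17976),(3,12146)]) (63598,[(1,55626),(4,40631375),(0,48777)]) (37,[(4,119900),(3,23924),(0,143)]))))) (.node ⟨0,0,1⟩ (.node ⟨42,42,881⟩ (.leaf false ⟨⟨-882,1,42⟩,⟨1,-882,42⟩,⟨42,42,881⟩⟩ (881,[(3,778806),(2,883),(0,42)]) (881,[(3,883),(2,778806),(0,42)]) (1,[(0,1)])) (.node ⟨-847,222,114⟩ (.leaf false ⟨⟨-858,33,206⟩,⟨-207,-26,-858⟩,⟨-26,-882,33⟩⟩ (77,[(2,6970),(0,78),(3,14775)]) (22449,[(2,10248872),(0,3801),(1,33988)]) (21,[(2,12146),(1,13),(3,17976)])) (.leaf false ⟨⟨-882,-26,33⟩,⟨-26,-207,-858⟩,⟨33,-858,206⟩⟩ (21,[(2,12146),(4,17976),(1,13)]) (14966,[(2,40631375),(1,60367),(0,2534)]) (37,[(2,23924),(4,119900),(0,143)])))) (.leaf false ⟨⟨-883,0,0⟩,⟨0,-883,0⟩,⟨0,0,-883⟩⟩ (1,[(2,883)]) (1,[(1,883)])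 (1,[(0,883)]))))
theorem h883_ok : h883.check (ok 883 4 ⟨3, 3, 3⟩) (fun _ r => r) [] = true := by decide +kernel

def h887 : T := .node ⟨1,0,0⟩ (.node ⟨0,1,0⟩ (.node ⟨0,0,1⟩ (.node ⟨-126,-42,877⟩ (.leaf false ⟨⟨-126,-42,877⟩,⟨-3,886,42⟩,⟨878,-3,126⟩⟩ (1,[(0,1)]) (877,[(3,2661),(2,778786),(0,42)]) (877,[(3,785882),(2,2661),(0,126)])) (.node ⟨-258,846,-67⟩ (.leaf false ⟨⟨-258,846,-67⟩,⟨573,122,-666⟩,⟨626,237,582⟩⟩ (1,[(0,1)]) (21,[(2,39511),(4,4347),(1,61)]) (282,[(2,169417),(4,196914),(0,79)])) (.leaf false ⟨⟨42,-3,886⟩,⟨126,878,-3⟩,⟨877,-126,-42⟩⟩ (43,[(2,37629),(0,7),(3,5793)]) (1,[(2,874),(1,1),(3,836)]) (19572,[(2,102284984),(0,8785),(1,118239)])))) (.node ⟨-211,858,-78⟩ (.node ⟨-78,-211,-858⟩ (.leaf false ⟨⟨-211,858,-78⟩,⟨-78,-99,-878⟩,⟨858,202,-99⟩⟩ (1,[(1,1)]) (429,[(4,780),(3,50158),(0,439)])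 (26,[(4,22542),(3,5885),(0,3)])) (.node ⟨518,93,714⟩ (.leaf false ⟨⟨-66,882,-67⟩,⟨518,93,714⟩,⟨717,14,-522⟩⟩ (51563,[(3,9713537),(0,14386),(2,51446)]) (1,[(0,1)]) (93,[(3,58542),(5,59429),(0,14)])) (.leaf false ⟨⟨-867,162,-94⟩,⟨-22,354,813⟩,⟨186,797,-342⟩⟩ (7086,[(5,1113434),(1,12441),(0,15883)]) (23620,[(5,17699172),(1,59049),(0,44063)]) (5905,[(5,29826196),(1,50072),(0,62999)])))) (.leaf false ⟨⟨14,93,-882⟩,⟨522,-714,-67⟩,⟨717,518,66⟩⟩ (211,[(1,187194),(0,14),(2,31635)]) (211,[(1,54853),(0,522),(2,297222)]) (211,[(1,42000),(0,717),(2,724484)])))) (.node ⟨0,0,1⟩ (.node ⟨-211,-78,858⟩ (.node ⟨-78,-858,-211⟩ (.leaf false ⟨⟨-211,-78,858⟩,⟨-78,-878,-99⟩,⟨858,-99,202⟩⟩ (1,[(1,1)]) (429,[(2,50158),(4,780),(0,439)]) (26,[(2,5885),(4,22542),(0,3)])) (.node ⟨518,714,93⟩ (.leaf false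 ⟨⟨-66,-67,882⟩,⟨518,714,93⟩,⟨717,-522,14⟩⟩ (51563,[(4,9713537),(2,51446),(0,14386)]) (1,[(0,1)]) (93,[(5,59429),(4,58542),(0,14)])) (.leaf false ⟨⟨-867,-94,162⟩,⟨-22,813,354⟩,⟨186,-342,797⟩⟩ (7086,[(5,1113434),(0,15883),(1,12441)]) (23620,[(5,17699172),(0,44063),(1,59049)]) (5905,[(5,29826196),(0,62999),(1,50072)])))) (.leaf false ⟨⟨14,-882,93⟩,⟨522,-67,-714⟩,⟨717,66,518⟩⟩ (211,[(1,31635),(0,14),(2,187194)]) (211,[(1,297222),(0,522),(2,54853)]) (211,[(1,724484),(0,717),(2,42000)]))) (.node ⟨877,-42,126⟩ (.node ⟨-126,-878,-3⟩ (.leaf false ⟨⟨-126,-878,-3⟩,⟨42,-3,-886⟩,⟨877,-126,42⟩⟩ (1,[(0,1)]) (878,[(2,777899),(4,37254),(0,3)]) (2637,[(4,1577086),(1,887),(0,336)])) (.leaf false ⟨⟨14,93,-882⟩,⟨522,-714,-67⟩,⟨717,518,66⟩⟩ (9,[(2,7941),(0,1),(3,41)]) (7,[(2,556),(0,29),(3,30460)])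 (883,[(0,2164),(1,411),(3,1425336)]))) (.leaf false ⟨⟨-762,-410,-195⟩,⟨90,237,-850⟩,⟨445,-750,-162⟩⟩ (42,[(3,25001),(2,19950),(0,65)]) (63,[(3,378395),(2,2919),(0,425)]) (7,[(3,11008),(2,5628),(0,9)]))))) (.node ⟨0,1,0⟩ (.node ⟨0,0,1⟩ (.node ⟨-78,858,-211⟩ (.node ⟨-858,-211,-78⟩ (.leaf false ⟨⟨-878,-99,-78⟩,⟨-99,202,858⟩,⟨-78,858,-211⟩⟩ (429,[(2,780),(0,439),(3,50158)]) (26,[(2,22542),(0,3),(3,5885)]) (1,[(1,1)])) (.node ⟨714,93,518⟩ (.leaf false ⟨⟨-522,14,717⟩,⟨-67,882,-66⟩,⟨714,93,518⟩⟩ (93,[(3,59429),(5,58542),(0,14)]) (51563,[(5,9713537),(2,51446),(0,14386)]) (1,[(0,1)])) (.leaf false ⟨⟨-882,-3,94⟩,⟨-54,742,-483⟩,⟨77,486,738⟩⟩ (5905,[(3,7958116),(0,15294),(1,6657)]) (2362,[(3,8657966),(0,21601),(1,17827)]) (70860,[(3,233370764),(0,400741),(1,339843)])))) (.leaf false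 ⟨⟨-882,-67,66⟩,⟨14,522,717⟩,⟨93,-714,518⟩⟩ (211,[(3,191250),(2,42491),(0,66)]) (211,[(3,52972),(2,725328),(0,717)]) (211,[(3,20781),(2,293790),(0,518)]))) (.node ⟨-42,877,126⟩ (.node ⟨-878,-126,-3⟩ (.leaf false ⟨⟨-886,-42,-3⟩,⟨-42,877,126⟩,⟨-3,126,-878⟩⟩ (18459,[(0,18627),(1,4),(3,1568216)]) (1,[(1,1)]) (14,[(2,12418),(1,1),(3,887)])) (.leaf false ⟨⟨-714,522,-67⟩,⟨93,14,-882⟩,⟨518,717,66⟩⟩ (7,[(2,556),(4,30460),(0,29)]) (9,[(2,7941),(4,41),(0,1)]) (883,[(4,1425336),(1,411),(0,2164)]))) (.leaf false ⟨⟨-886,42,-3⟩,⟨-3,-126,-878⟩,⟨42,877,-126⟩⟩ (42,[(3,37254),(2,2641),(0,1)]) (63,[(3,18627),(2,377065),(0,439)]) (1,[(2,1754),(0,1)])))) (.node ⟨0,0,1⟩ (.node ⟨-42,126,877⟩ (.node ⟨-878,-3,-126⟩ (.leaf false ⟨⟨-886,-3,-42⟩,⟨-42,126,877⟩,⟨-3,-878,126⟩⟩ (18459,[(2,1568216),(1,4),(0,18627)])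 (1,[(1,1)]) (14,[(2,887),(1,1),(3,12418)])) (.leaf false ⟨⟨-714,-67,522⟩,⟨93,-882,14⟩,⟨518,66,717⟩⟩ (7,[(4,30460),(3,556),(0,29)]) (9,[(4,41),(3,7941),(0,1)]) (883,[(1,411),(4,1425336),(0,2164)]))) (.leaf false ⟨⟨-886,-3,42⟩,⟨-3,-878,-126⟩,⟨42,-126,877⟩⟩ (42,[(1,2641),(3,37254),(0,1)]) (63,[(1,377065),(3,18627),(0,439)]) (1,[(1,1754),(0,1)]))) (.leaf false ⟨⟨-887,0,0⟩,⟨0,-887,0⟩,⟨0,0,-887⟩⟩ (1,[(2,887)]) (1,[(1,887)]) (1,[(0,887)]))))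
theorem h887_ok : h887.check (ok 887 4 ⟨3, 3, 3⟩) (fun _ r => r) [] = true := by decide +kernel


end H34S
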