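import Pool.Agent.Lib.H34S.Cover

/-!
# H34S: certificates (generated), hexagonal numbers
-/

set_option autoImplicit false

namespace H34S

def h899 : T := .node ⟨1,0,0⟩ (.node ⟨0,1,0⟩ (.node ⟨0,0,1⟩ (.node ⟨-442,321,714⟩ (.node ⟨321,782,-306⟩ (.node ⟨874,-114,177⟩ (.leaf false ⟨⟨-159,138,874⟩,⟨138,881,-114⟩,⟨874,-114,177⟩⟩ (107,[(3,60674),(5,3319),(2,46)]) (51,[(5,939),(1,19),(4,30073)]) (1,[(0,1)])) (.leaf false ⟨⟨-882,134,-111⟩,⟨-66,273,854⟩,⟨161,846,-258⟩⟩ (57,[(3,5532),(5,8284),(0,67)]) (38,[(3,48559),(5,77026),(0,91)]) (19,[(3,20055),(5,126293),(0,141)]))) (.leaf false ⟨⟨-639,-114,622⟩,⟨414,593,534⟩,⟨478,-666,369⟩⟩ (153,[(4,2064),(3,225760),(0,311)]) (51,[(4,49683),(3,99841),(0,89)]) (34,[(4,29413),(3,9418),(0,41)]))) (.leaf false ⟨⟨17,546,714⟩,⟨546,561,-442⟩,⟨714,-442,321⟩⟩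 (26,[(1,19278),(0,1),(2,14517)]) (17,[(1,7480),(0,21),(2,16278)]) (13,[(1,19167),(0,21),(2,995)]))) (.node ⟨854,66,273⟩ (.node ⟨-174,870,145⟩ (.leaf false ⟨⟨-174,870,145⟩,⟨145,174,-870⟩,⟨870,145,174⟩⟩ (1,[(0,1)]) (5,[(2,4495),(4,899),(0,1)]) (13008,[(2,1584038),(1,13485),(0,1145)])) (.leaf false ⟨⟨1,174,-882⟩,⟨414,-783,-154⟩,⟨798,406,81⟩⟩ (174,[(2,153323),(0,1),(3,31146)]) (125744,[(2,12733610),(0,116001),(1,37323)]) (61,[(2,10620),(1,57),(3,21004)]))) (.leaf false ⟨⟨-798,1,-414⟩,⟨81,882,-154⟩,⟨406,-174,-783⟩⟩ (91,[(3,45234),(2,9199),(0,138)]) (39,[(3,21947),(2,35850),(0,22)]) (91,[(3,259840),(2,1392),(0,261)])))) (.node ⟨0,0,1⟩ (.node ⟨854,273,66⟩ (.node ⟨-174,145,870⟩ (.leaf false ⟨⟨-174,145,870⟩,⟨145,-870,174⟩,⟨870,174,145⟩⟩ (1,[(0,1)]) (5,[(4,899),(3,4495),(0,1)]) (13008,[(1,13485),(3,1584038),(0,1145)]))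 (.leaf false ⟨⟨1,-882,174⟩,⟨414,-154,-783⟩,⟨798,81,406⟩⟩ (174,[(2,31146),(0,1),(3,153323)]) (125744,[(1,37323),(0,116001),(3,12733610)]) (61,[(2,21004),(1,57),(3,10620)]))) (.leaf false ⟨⟨-798,-414,1⟩,⟨81,-154,882⟩,⟨406,-783,-174⟩⟩ (91,[(1,9199),(3,45234),(0,138)]) (39,[(1,35850),(3,21947),(0,22)]) (91,[(1,1392),(3,259840),(0,261)]))) (.node ⟨865,-126,210⟩ (.node ⟨-651,0,-620⟩ (.leaf false ⟨⟨-651,0,-620⟩,⟨0,-899,0⟩,⟨620,0,-651⟩⟩ (1,[(0,1)]) (1,[(3,899)]) (20,[(4,26071),(0,21)])) (.node ⟨406,174,-783⟩ (.leaf false ⟨⟨81,-882,-154⟩,⟨406,174,-783⟩,⟨798,1,414⟩⟩ (217,[(3,50158),(1,27),(4,191394)]) (1,[(0,1)]) (522,[(3,177103),(0,3),(1,638)])) (.leaf false ⟨⟨-798,-414,1⟩,⟨81,-154,882⟩,⟨406,-783,-174⟩⟩ (899,[(3,1817778),(1,232),(0,2139)]) (56637,[(3,13047187),(1,38309),(0,50127)]) (186,[(3,1083295),(1,638),(0,837)]))))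 (.leaf false ⟨⟨-750,-26,-495⟩,⟨145,-870,-174⟩,⟨474,225,-730⟩⟩ (14,[(3,18045),(2,4522),(0,33)]) (35,[(3,30160),(2,34104),(0,29)]) (21,[(3,73099),(2,4473),(0,73)]))))) (.node ⟨0,1,0⟩ (.node ⟨0,0,1⟩ (.node ⟨273,66,854⟩ (.node ⟨145,870,-174⟩ (.leaf false ⟨⟨-870,174,145⟩,⟨145,870,-174⟩,⟨174,145,870⟩⟩ (5,[(2,899),(4,4495),(0,1)]) (1,[(0,1)]) (13008,[(4,1584038),(0,1145),(1,13485)])) (.leaf false ⟨⟨-882,-111,134⟩,⟨-66,854,273⟩,⟨161,-258,846⟩⟩ (87,[(4,67019),(3,48633),(0,67)]) (122,[(4,18699),(3,101614),(1,39)]) (31436,[(4,1131870),(1,28797),(0,11507)]))) (.leaf false ⟨⟨-783,-174,-406⟩,⟨-406,-42,801⟩,⟨-174,881,-42⟩⟩ (91,[(1,185948),(0,261),(2,1392)]) (39,[(1,80771),(0,58),(2,2190)]) (91,[(1,45710),(0,58),(2,83999)]))) (.node ⟨-126,865,210⟩ (.node ⟨0,-651,-620⟩ (.leaf false ⟨⟨-899,0,0⟩,⟨0,-651,-620⟩,⟨0,620,-651⟩⟩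 (1,[(4,899)]) (1,[(0,1)]) (20,[(0,21),(3,26071)])) (.node ⟨174,406,-783⟩ (.leaf false ⟨⟨-882,81,-154⟩,⟨1,798,414⟩,⟨174,406,-783⟩⟩ (217,[(3,50158),(5,191394),(1,27)]) (522,[(3,177103),(1,638),(0,3)]) (1,[(0,1)])) (.leaf false ⟨⟨-890,-126,-15⟩,⟨-126,865,210⟩,⟨-15,210,-874⟩⟩ (8091,[(3,47557100),(0,41385),(1,24244)]) (18879,[(3,27578623),(0,13671),(1,33611)]) (5394,[(3,6337051),(0,465),(1,2030)])))) (.leaf false ⟨⟨-899,0,0⟩,⟨0,-651,-620⟩,⟨0,620,-651⟩⟩ (1,[(3,899)]) (21,[(3,7812),(2,39959),(0,62)]) (10,[(3,3906),(2,33015),(0,31)])))) (.node ⟨0,0,1⟩ (.node ⟨-126,210,865⟩ (.node ⟨0,-620,-651⟩ (.leaf false ⟨⟨-899,0,0⟩,⟨0,-651,620⟩,⟨0,-620,-651⟩⟩ (1,[(4,899)]) (20,[(2,26071),(0,21)]) (1,[(0,1)])) (.node ⟨174,-783,406⟩ (.leaf false ⟨⟨-882,-154,81⟩,⟨1,414,798⟩,⟨174,-783,406⟩⟩ (217,[(1,27),(5,191394),(4,50158)])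 (3509,[(1,3654),(5,177103),(0,1038)]) (1,[(0,1)])) (.leaf false ⟨⟨-890,-15,-126⟩,⟨-126,210,865⟩,⟨-15,-874,210⟩⟩ (8091,[(1,24244),(0,41385),(4,47557100)]) (18879,[(1,33611),(0,13671),(4,27578623)]) (5394,[(1,2030),(0,465),(4,6337051)])))) (.leaf false ⟨⟨-899,0,0⟩,⟨0,-651,620⟩,⟨0,-620,-651⟩⟩ (1,[(3,899)]) (10,[(1,33015),(3,3906),(0,31)]) (21,[(1,39959),(3,7812),(0,62)]))) (.leaf false ⟨⟨-899,0,0⟩,⟨0,-899,0⟩,⟨0,0,-899⟩⟩ (1,[(2,899)]) (1,[(1,899)]) (1,[(0,899)]))))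
theorem h899_ok : h899.check (ok 899 4 ⟨3, 3, 3⟩) (fun _ r => r) [] = true := by decide +kernel

def h907 : T := .node ⟨1,0,0⟩ (.node ⟨0,1,0⟩ (.node ⟨0,0,1⟩ (.node ⟨-210,25,882⟩ (.node ⟨-106,873,-222⟩ (.leaf false ⟨⟨-222,153,866⟩,⟨-106,882,-183⟩,⟨873,146,198⟩⟩ (48471,[(4,358564),(0,7081),(1,49374)]) (97,[(2,4005),(4,106),(0,98)]) (873,[(2,205266),(4,777605),(0,146)])) (.leaf false ⟨⟨-210,25,882⟩,⟨210,882,25⟩,⟨857,-210,210⟩⟩ (1,[(1,1)]) (222,[(4,43970),(3,217629),(0,25)]) (37,[(4,27999),(3,22785),(0,35)]))) (.leaf false ⟨⟨42,906,-7⟩,⟨294,-7,858⟩,⟨857,-42,-294⟩⟩ (5,[(1,847),(0,1),(2,4555)]) (5,[(1,10464),(0,7),(2,140)]) (210,[(1,694134),(0,857),(2,12605)]))) (.node ⟨-327,142,-834⟩ (.node ⟨282,825,250⟩ (.node ⟨825,-182,-330⟩ (.leaf false ⟨⟨-250,330,-807⟩,⟨282,825,250⟩,⟨825,-182,-330⟩⟩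 (278,[(5,18463),(4,53542),(2,269)]) (1,[(1,1)]) (1,[(0,1)])) (.leaf false ⟨⟨-882,210,25⟩,⟨25,210,-882⟩,⟨210,857,210⟩⟩ (13,[(3,4625),(5,909),(0,15)]) (13,[(3,16416),(5,12700),(0,15)]) (182,[(3,244590),(5,745245),(0,857)]))) (.leaf false ⟨⟨-650,-135,-618⟩,⟨57,870,-250⟩,⟨630,-218,-615⟩⟩ (125,[(4,5888),(3,238050),(0,309)]) (1,[(4,339),(3,1695),(0,1)]) (50,[(4,66186),(3,90575),(0,123)]))) (.leaf false ⟨⟨42,862,-279⟩,⟨538,201,702⟩,⟨729,-198,-502⟩⟩ (109,[(1,42087),(0,14),(2,95946)]) (327,[(1,219138),(0,538),(2,142123)]) (109,[(1,257380),(0,243),(2,12924)])))) (.node ⟨0,0,1⟩ (.node ⟨-327,-834,142⟩ (.node ⟨282,250,825⟩ (.node ⟨825,-330,-182⟩ (.leaf false ⟨⟨-250,-807,330⟩,⟨282,250,825⟩,⟨825,-330,-182⟩⟩ (278,[(3,53542),(5,18463),(2,269)]) (1,[(1,1)]) (1,[(0,1)])) (.leaf false ⟨⟨-882,25,210⟩,⟨25,-882,210⟩,⟨210,210,857⟩⟩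 (13,[(5,909),(4,4625),(0,15)]) (13,[(5,12700),(4,16416),(0,15)]) (182,[(5,745245),(4,244590),(0,857)]))) (.leaf false ⟨⟨-650,-618,-135⟩,⟨57,-250,870⟩,⟨630,-615,-218⟩⟩ (125,[(2,238050),(4,5888),(0,309)]) (1,[(2,1695),(4,339),(0,1)]) (50,[(2,90575),(4,66186),(0,123)]))) (.leaf false ⟨⟨42,-279,862⟩,⟨538,702,201⟩,⟨729,-502,-198⟩⟩ (109,[(1,95946),(0,14),(2,42087)]) (327,[(1,142123),(0,538),(2,219138)]) (109,[(1,12924),(0,243),(2,257380)]))) (.node ⟨857,-42,294⟩ (.node ⟨-222,-866,153⟩ (.leaf false ⟨⟨-222,-866,153⟩,⟨106,-183,-882⟩,⟨873,-198,146⟩⟩ (1,[(0,1)]) (866,[(2,791811),(4,132422),(0,183)]) (375743,[(2,72913730),(1,399987),(0,66510)])) (.leaf false ⟨⟨2,-414,-807⟩,⟨246,777,-398⟩,⟨873,-218,114⟩⟩ (111,[(2,89424),(0,1),(3,46820)]) (37,[(2,8453),(0,41),(3,6757)]) (857,[(2,158964),(1,873),(3,150160)])))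 (.leaf false ⟨⟨-834,-142,-327⟩,⟨153,-894,-2⟩,⟨322,57,-846⟩⟩ (98,[(3,11681),(2,18494),(0,109)]) (147,[(3,23348),(2,131460),(0,1)]) (49,[(3,136615),(2,3129),(0,141)]))))) (.node ⟨0,1,0⟩ (.node ⟨0,0,1⟩ (.node ⟨-834,-327,142⟩ (.node ⟨250,282,825⟩ (.node ⟨-330,825,-182⟩ (.leaf false ⟨⟨-807,-250,330⟩,⟨-330,825,-182⟩,⟨250,282,825⟩⟩ (278,[(3,53542),(2,269),(4,18463)]) (1,[(0,1)]) (1,[(1,1)])) (.leaf false ⟨⟨-903,-74,42⟩,⟨-42,777,466⟩,⟨74,-462,777⟩⟩ (13,[(5,12729),(4,1513),(0,3)]) (91,[(5,80712),(4,262932),(0,233)]) (26,[(5,34706),(4,79563),(0,111)]))) (.leaf false ⟨⟨-862,-198,201⟩,⟨-279,502,-702⟩,⟨-42,729,538⟩⟩ (125,[(2,380700),(0,431),(3,96792)]) (250,[(2,54675),(0,279),(3,204178)]) (125,[(2,84575),(0,21),(3,97047)]))) (.leaf false ⟨⟨-894,57,142⟩,⟨2,846,-327⟩,⟨153,322,834⟩⟩ (109,[(1,18176),(3,113292),(0,19)])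 (109,[(1,4401),(3,234970),(0,282)]) (327,[(1,318442),(3,218517),(0,322)]))) (.node ⟨-42,857,294⟩ (.node ⟨-866,-222,153⟩ (.leaf false ⟨⟨-906,-42,-7⟩,⟨-42,857,294⟩,⟨-7,294,-858⟩⟩ (433,[(2,72340),(0,453),(3,82380)]) (1,[(1,1)]) (6,[(2,5442),(1,1),(3,907)])) (.leaf false ⟨⟨-882,210,25⟩,⟨25,210,-882⟩,⟨210,857,210⟩⟩ (857,[(2,40315),(4,747054),(1,210)]) (37,[(2,27279),(4,29385),(0,35)]) (65463,[(4,4544932),(1,59247),(0,23996)]))) (.leaf false ⟨⟨-906,42,-7⟩,⟨-7,-294,-858⟩,⟨42,857,-294⟩⟩ (42,[(3,38094),(2,2621),(0,1)]) (49,[(3,6349),(2,108145),(0,143)]) (1,[(2,1714),(0,1)])))) (.node ⟨0,0,1⟩ (.node ⟨-42,294,857⟩ (.node ⟨-866,153,-222⟩ (.leaf false ⟨⟨-906,-7,-42⟩,⟨-42,294,857⟩,⟨-7,-858,294⟩⟩ (433,[(2,82380),(0,453),(3,72340)]) (1,[(1,1)]) (6,[(2,907),(1,1),(3,5442)])) (.leaf false ⟨⟨-882,25,210⟩,⟨25,-882,210⟩,⟨210,210,857⟩⟩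 (857,[(1,210),(4,747054),(3,40315)]) (37,[(4,29385),(3,27279),(0,35)]) (65463,[(1,59247),(4,4544932),(0,23996)]))) (.leaf false ⟨⟨-906,-7,42⟩,⟨-7,-858,-294⟩,⟨42,-294,857⟩⟩ (42,[(1,2621),(3,38094),(0,1)]) (49,[(1,108145),(3,6349),(0,143)]) (1,[(1,1714),(0,1)]))) (.leaf false ⟨⟨-907,0,0⟩,⟨0,-907,0⟩,⟨0,0,-907⟩⟩ (1,[(2,907)]) (1,[(1,907)]) (1,[(0,907)]))))
theorem h907_ok : h907.check (ok 907 4 ⟨3, 3, 3⟩) (fun _ r => r) [] = true := by decide +kernel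

def h911 : T := .node ⟨1,0,0⟩ (.node ⟨0,1,0⟩ (.node ⟨0,0,1⟩ (.node ⟨-294,126,853⟩ (.node ⟨21,862,-294⟩ (.leaf false ⟨⟨-294,126,853⟩,⟨21,902,-126⟩,⟨862,21,294⟩⟩ (1,[(1,1)]) (6097,[(2,1089556),(0,6377),(1,20)]) (6,[(2,911),(4,5466),(1,1)])) (.leaf false ⟨⟨-282,261,826⟩,⟨389,-738,366⟩,⟨774,466,117⟩⟩ (853,[(4,2298),(3,118557),(1,826)]) (49,[(4,20342),(3,16420),(0,61)]) (98,[(4,76671),(3,79286),(0,39)]))) (.leaf false ⟨⟨21,126,902⟩,⟨294,853,-126⟩,⟨862,-294,21⟩⟩ (14,[(1,13481),(0,1),(2,1890)]) (1,[(1,727),(0,1),(2,979)]) (147,[(1,370730),(0,431),(2,11088)]))) (.node ⟨-270,870,-11⟩ (.node ⟨69,-378,-826⟩ (.node ⟨-434,714,-363⟩ (.leaf false ⟨⟨-434,714,-363⟩,⟨69,-378,-826⟩,⟨798,421,-126⟩⟩ (1,[(0,1)]) (1,[(1,1)]) (59,[(5,46461),(4,28241),(1,9)])) (.leaf false ⟨⟨-270,870,-11⟩,⟨261,70,-870⟩,⟨830,261,270⟩⟩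 (1,[(2,1)]) (38049,[(2,86842),(1,67969),(0,66102)]) (50732,[(2,246067),(1,84172),(0,236723)]))) (.leaf false ⟨⟨-270,870,-11⟩,⟨261,70,-870⟩,⟨830,261,270⟩⟩ (1,[(1,1)]) (27,[(2,27620),(4,7392),(0,5)]) (42,[(2,12614),(4,36861),(0,29)]))) (.node ⟨789,-318,326⟩ (.leaf false ⟨⟨21,282,-866⟩,⟨642,-619,-186⟩,⟨646,606,213⟩⟩ (90,[(2,78017),(1,7),(3,31470)]) (45,[(2,9547),(1,107),(3,65235)]) (789,[(2,42539),(0,646),(3,683562)])) (.leaf false ⟨⟨-810,-70,-411⟩,⟨150,789,-430⟩,⟨389,-450,-690⟩⟩ (26447,[(1,20073),(3,4793860),(0,34020)]) (26447,[(1,129390),(3,120954483),(0,39250)]) (79341,[(1,671224),(3,487657308),(0,190579)]))))) (.node ⟨0,0,1⟩ (.node ⟨-270,-11,870⟩ (.node ⟨69,-826,-378⟩ (.node ⟨-434,-363,714⟩ (.leaf false ⟨⟨-434,-363,714⟩,⟨69,-826,-378⟩,⟨798,-126,421⟩⟩ (1,[(0,1)]) (1,[(1,1)]) (59,[(3,28241),(5,46461),(1,9)]))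 (.leaf false ⟨⟨-270,-11,870⟩,⟨261,-870,70⟩,⟨830,270,261⟩⟩ (1,[(2,1)]) (38049,[(1,67969),(2,86842),(0,66102)]) (50732,[(1,84172),(2,246067),(0,236723)]))) (.leaf false ⟨⟨-270,-11,870⟩,⟨261,-870,70⟩,⟨830,270,261⟩⟩ (1,[(1,1)]) (27,[(4,7392),(3,27620),(0,5)]) (42,[(4,36861),(3,12614),(0,29)]))) (.node ⟨789,326,-318⟩ (.leaf false ⟨⟨21,-866,282⟩,⟨642,-186,-619⟩,⟨646,213,606⟩⟩ (90,[(2,31470),(1,7),(3,78017)]) (45,[(2,65235),(1,107),(3,9547)]) (789,[(2,683562),(0,646),(3,42539)])) (.leaf false ⟨⟨-810,-411,-70⟩,⟨150,-430,789⟩,⟨389,-690,-450⟩⟩ (26447,[(2,4793860),(1,20073),(0,34020)]) (26447,[(2,120954483),(1,129390),(0,39250)]) (79341,[(2,487657308),(1,671224),(0,190579)])))) (.node ⟨-430,-690,-411⟩ (.node ⟨245,390,-786⟩ (.node ⟨870,-214,165⟩ (.leaf false ⟨⟨-114,-795,-430⟩,⟨245,390,-786⟩,⟨870,-214,165⟩⟩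 (215,[(3,69023),(4,131595),(2,57)]) (1,[(1,1)]) (1,[(0,1)])) (.leaf false ⟨⟨-894,-38,-171⟩,⟨114,549,-718⟩,⟨133,-726,-534⟩⟩ (55,[(5,420),(4,14288),(0,57)]) (165,[(5,643470),(4,63067),(0,718)]) (55,[(5,162175),(4,78022),(0,178)]))) (.leaf false ⟨⟨-459,-786,38⟩,⟨142,-126,-891⟩,⟨774,-443,186⟩⟩ (65,[(2,100496),(4,2260),(0,131)]) (65,[(2,74421),(4,14375),(0,21)]) (390,[(2,275658),(4,410395),(0,443)]))) (.leaf false ⟨⟨38,-171,-894⟩,⟨549,718,-114⟩,⟨726,-534,133⟩⟩ (215,[(1,200019),(0,19),(2,49875)]) (430,[(1,274659),(0,549),(2,70070)]) (215,[(1,120598),(0,363),(2,365280)]))))) (.node ⟨0,1,0⟩ (.node ⟨0,0,1⟩ (.node ⟨-11,870,-270⟩ (.node ⟨-826,-378,69⟩ (.node ⟨-363,714,-434⟩ (.leaf false ⟨⟨-826,-378,69⟩,⟨-363,714,-434⟩,⟨-126,421,798⟩⟩ (1,[(1,1)]) (1,[(0,1)]) (59,[(3,46461),(1,9),(4,28241)]))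 (.leaf false ⟨⟨-894,-171,38⟩,⟨-114,718,549⟩,⟨133,-534,726⟩⟩ (46216852,[(1,53656724),(2,21553349),(0,8924725)]) (34662639,[(1,64269623),(2,171892946),(0,140567466)]) (11554213,[(1,12434136),(2,25642828),(0,33304071)]))) (.leaf false ⟨⟨-870,70,261⟩,⟨-11,870,-270⟩,⟨270,261,830⟩⟩ (27,[(2,7392),(4,27620),(0,5)]) (1,[(1,1)]) (42,[(2,36861),(4,12614),(0,29)]))) (.node ⟨326,-318,789⟩ (.leaf false ⟨⟨-902,21,126⟩,⟨21,-862,294⟩,⟨126,294,853⟩⟩ (15,[(4,13607),(3,6405),(1,7)]) (100095,[(4,225326),(0,3840),(1,97771)]) (789,[(4,178664),(3,503220),(0,853)])) (.leaf false ⟨⟨-858,-299,-66⟩,⟨-219,462,754⟩,⟨-214,726,-507⟩⟩ (26447,[(3,157692683),(1,218482),(0,76978)]) (79341,[(3,379392360),(1,418595),(0,67424)]) (26447,[(3,14700564),(1,1188),(0,17401)])))) (.node ⟨-411,-430,-690⟩ (.node ⟨-786,245,390⟩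 (.node ⟨165,870,-214⟩ (.leaf false ⟨⟨-786,245,390⟩,⟨-430,-114,-795⟩,⟨165,870,-214⟩⟩ (1,[(1,1)]) (215,[(3,131595),(2,57),(5,69023)]) (1,[(0,1)])) (.leaf false ⟨⟨-894,114,133⟩,⟨-171,-718,-534⟩,⟨-38,549,-726⟩⟩ (55,[(3,56457),(0,298),(4,265530)]) (55,[(3,41568),(0,57),(4,10100)]) (165,[(3,127922),(0,38),(4,123645)]))) (.leaf false ⟨⟨-891,38,-186⟩,⟨126,786,-443⟩,⟨142,-459,-774⟩⟩ (65,[(4,82281),(3,10065),(0,31)]) (390,[(4,299058),(3,415075),(0,443)]) (65,[(4,92164),(3,1770),(0,129)]))) (.leaf false ⟨⟨-902,126,21⟩,⟨21,294,-862⟩,⟨126,853,294⟩⟩ (215,[(1,38955),(3,219823),(0,63)]) (215,[(1,286760),(3,55902),(0,147)]) (430,[(1,462150),(3,296403),(0,853)])))) (.node ⟨0,0,1⟩ (.node ⟨-411,-690,-430⟩ (.node ⟨-786,390,245⟩ (.node ⟨165,-214,870⟩ (.leaf false ⟨⟨-786,390,245⟩,⟨-430,-795,-114⟩,⟨165,-214,870⟩⟩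 (1,[(1,1)]) (215,[(5,69023),(2,57),(4,131595)]) (1,[(0,1)])) (.leaf false ⟨⟨-894,133,114⟩,⟨-171,-534,-718⟩,⟨-38,-726,549⟩⟩ (55,[(3,265530),(0,298),(4,56457)]) (55,[(3,10100),(0,57),(4,41568)]) (165,[(3,123645),(0,38),(4,127922)]))) (.leaf false ⟨⟨-891,-186,38⟩,⟨126,-443,786⟩,⟨142,-774,-459⟩⟩ (65,[(2,10065),(4,82281),(0,31)]) (390,[(2,415075),(4,299058),(0,443)]) (65,[(2,1770),(4,92164),(0,129)]))) (.leaf false ⟨⟨-902,21,126⟩,⟨21,-862,294⟩,⟨126,294,853⟩⟩ (215,[(3,219823),(2,38955),(0,63)]) (215,[(3,55902),(2,286760),(0,147)]) (430,[(3,296403),(2,462150),(0,853)]))) (.leaf false ⟨⟨-911,0,0⟩,⟨0,-911,0⟩,⟨0,0,-911⟩⟩ (1,[(2,911)]) (1,[(1,911)]) (1,[(0,911)]))))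
theorem h911_ok : h911.check (ok 911 4 ⟨3, 3, 3⟩) (fun _ r => r) [] = true := by decide +kernel

def h919 : T := .node ⟨1,0,0⟩ (.node ⟨0,1,0⟩ (.node ⟨0,0,1⟩ (.node ⟨-339,118,846⟩ (.node ⟨-339,854,-18⟩ (.node ⟨846,333,-134⟩ (.leaf false ⟨⟨-339,854,-18⟩,⟨118,66,909⟩,⟨846,333,-134⟩⟩ (1,[(1,1)]) (59,[(3,25713),(5,18149),(2,33)]) (1,[(0,1)])) (.leaf false ⟨⟨-906,-35,150⟩,⟨90,606,685⟩,⟨125,-690,594⟩⟩ (54221,[(5,12467154),(1,22630),(0,63735)]) (108442,[(5,618745239),(1,309309),(0,595898)]) (54221,[(5,233957182),(1,52671),(0,247428)]))) (.leaf false ⟨⟨-186,262,861⟩,⟨386,-771,318⟩,⟨813,426,46⟩⟩ (282,[(4,44841),(3,40018),(1,287)]) (16272,[(3,7401008),(1,5603),(0,24131)]) (423,[(4,351696),(3,177484),(1,23)]))) (.leaf false ⟨⟨46,813,426⟩,⟨318,386,-771⟩,⟨861,-186,262⟩⟩ (339,[(1,183330),(0,46),(2,281035)])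 (113,[(1,2553),(0,106),(2,56126)]) (113,[(1,272408),(0,287),(2,12848)]))) (.node ⟨-486,557,-546⟩ (.node ⟨381,746,378⟩ (.node ⟨766,-378,-339⟩ (.leaf false ⟨⟨-174,381,-818⟩,⟨477,746,246⟩,⟨766,-378,-339⟩⟩ (81,[(3,50424),(4,14708),(2,29)]) (1,[(3,132),(5,96),(1,1)]) (1,[(0,1)])) (.leaf false ⟨⟨-723,546,154⟩,⟨154,429,-798⟩,⟨546,602,429⟩⟩ (9,[(3,3021),(5,3451),(0,13)]) (126,[(3,149025),(5,128942),(0,143)]) (27,[(3,2994),(5,47680),(0,43)]))) (.leaf false ⟨⟨-627,154,-654⟩,⟨314,858,-99⟩,⟨594,-291,-638⟩⟩ (63,[(4,2028),(3,91016),(0,109)]) (42,[(4,17379),(3,44242),(0,11)]) (189,[(4,233805),(3,182975),(0,319)]))) (.leaf false ⟨⟨10,750,-531⟩,⟨630,381,550⟩,⟨669,-370,-510⟩⟩ (243,[(1,131763),(0,5),(2,185035)]) (27,[(1,4260),(0,35),(2,29782)]) (162,[(1,204378),(0,223),(2,64271)])))) (.node ⟨0,0,1⟩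 (.node ⟨-486,-546,557⟩ (.node ⟨381,378,746⟩ (.node ⟨766,-339,-378⟩ (.leaf false ⟨⟨-174,-818,381⟩,⟨477,246,746⟩,⟨766,-339,-378⟩⟩ (81,[(3,14708),(4,50424),(2,29)]) (1,[(1,1),(5,96),(4,132)]) (1,[(0,1)])) (.leaf false ⟨⟨-723,154,546⟩,⟨154,-798,429⟩,⟨546,429,602⟩⟩ (9,[(5,3451),(4,3021),(0,13)]) (126,[(5,128942),(4,149025),(0,143)]) (27,[(5,47680),(4,2994),(0,43)]))) (.leaf false ⟨⟨-627,-654,154⟩,⟨314,-99,858⟩,⟨594,-638,-291⟩⟩ (63,[(2,91016),(4,2028),(0,109)]) (42,[(2,44242),(4,17379),(0,11)]) (189,[(2,182975),(4,233805),(0,319)]))) (.leaf false ⟨⟨10,-531,750⟩,⟨630,550,381⟩,⟨669,-510,-370⟩⟩ (243,[(1,185035),(0,5),(2,131763)]) (27,[(1,29782),(0,35),(2,4260)]) (162,[(1,64271),(0,223),(2,204378)]))) (.node ⟨845,-210,294⟩ (.node ⟨-294,-870,-35⟩ (.leaf false ⟨⟨-294,-870,-35⟩,⟨210,-35,-894⟩,⟨845,-294,210⟩⟩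 (1,[(0,1)]) (6,[(2,5658),(4,415),(1,1)]) (6265,[(4,1707502),(1,4595),(0,1008)])) (.leaf false ⟨⟨90,125,-906⟩,⟨606,-690,-35⟩,⟨685,594,150⟩⟩ (49,[(2,44919),(0,15),(3,6925)]) (49,[(2,5250),(0,101),(3,121680)]) (132815,[(2,4489186),(0,107630),(1,70219)]))) (.leaf false ⟨⟨-818,-246,-339⟩,⟨174,477,-766⟩,⟨381,-746,-378⟩⟩ (98,[(3,15321),(2,47838),(0,113)]) (147,[(3,349213),(2,10311),(0,383)]) (7,[(3,10272),(2,7112),(0,9)]))))) (.node ⟨0,1,0⟩ (.node ⟨0,0,1⟩ (.node ⟨-546,557,-486⟩ (.node ⟨378,746,381⟩ (.node ⟨-339,-378,766⟩ (.leaf false ⟨⟨-818,381,-174⟩,⟨-339,-378,766⟩,⟨246,746,477⟩⟩ (81,[(5,50424),(2,29),(4,14708)]) (1,[(0,1)]) (1,[(3,96),(5,132),(1,1)])) (.leaf false ⟨⟨-906,62,141⟩,⟨-3,834,-386⟩,⟨154,381,822⟩⟩ (189,[(3,50395),(5,181743),(0,31)]) (63,[(3,82156),(5,47310),(0,139)]) (126,[(3,200854),(5,23649),(0,127)])))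 (.leaf false ⟨⟨-834,-342,-179⟩,⟨-307,846,-186⟩,⟨-234,109,882⟩⟩ (63,[(2,41682),(0,139),(3,82148)]) (378,[(2,46659),(0,307),(3,548810)]) (21,[(2,23475),(0,13),(3,11987)]))) (.leaf false ⟨⟨-906,-3,154⟩,⟨62,834,381⟩,⟨141,-386,822⟩⟩ (243,[(3,262200),(2,42160),(0,77)]) (162,[(3,59298),(2,205847),(0,127)]) (81,[(3,63381),(2,45043),(0,137)]))) (.node ⟨-210,845,294⟩ (.node ⟨-870,-294,-35⟩ (.leaf false ⟨⟨-894,-210,-35⟩,⟨-210,845,294⟩,⟨-35,294,-870⟩⟩ (6265,[(0,6433),(1,20),(3,558752)]) (1,[(1,1)]) (6,[(2,5514),(1,1),(3,919)])) (.leaf false ⟨⟨-854,306,-147⟩,⟨189,98,-894⟩,⟨282,861,154⟩⟩ (49,[(2,8988),(4,86216),(0,51)]) (3,[(2,2717),(4,303),(0,1)]) (8123,[(4,12542724),(1,2163),(0,17572)]))) (.leaf false ⟨⟨-894,-154,-147⟩,⟨-98,861,-306⟩,⟨189,-282,-854⟩⟩ (2,[(3,1998),(2,537),(0,1)]) (49,[(3,15512),(2,85284),(0,51)])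 (21,[(3,8841),(2,45623),(0,61)])))) (.node ⟨0,0,1⟩ (.node ⟨-210,294,845⟩ (.node ⟨-870,-35,-294⟩ (.leaf false ⟨⟨-894,-35,-210⟩,⟨-210,294,845⟩,⟨-35,-870,294⟩⟩ (6265,[(2,558752),(1,20),(0,6433)]) (1,[(1,1)]) (6,[(2,919),(1,1),(3,5514)])) (.leaf false ⟨⟨-854,-147,306⟩,⟨189,-894,98⟩,⟨282,154,861⟩⟩ (49,[(4,86216),(3,8988),(0,51)]) (3,[(4,303),(3,2717),(0,1)]) (8123,[(1,2163),(4,12542724),(0,17572)]))) (.leaf false ⟨⟨-894,-147,-154⟩,⟨-98,-306,861⟩,⟨189,-854,-282⟩⟩ (2,[(1,537),(3,1998),(0,1)]) (49,[(1,85284),(3,15512),(0,51)]) (21,[(1,45623),(3,8841),(0,61)]))) (.leaf false ⟨⟨-919,0,0⟩,⟨0,-919,0⟩,⟨0,0,-919⟩⟩ (1,[(2,919)]) (1,[(1,919)]) (1,[(0,919)]))))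
theorem h919_ok : h919.check (ok 919 4 ⟨3, 3, 3⟩) (fun _ r => r) [] = true := by decide +kernel

def h929 : T := .node ⟨1,0,0⟩ (.node ⟨0,1,0⟩ (.node ⟨0,0,1⟩ (.leaf false ⟨⟨0,0,929⟩,⟨0,929,0⟩,⟨929,0,0⟩⟩ (1,[(0,929)]) (1,[(1,929)]) (1,[(2,929)])) (.node ⟨0,920,129⟩ (.leaf false ⟨⟨0,129,-920⟩,⟨0,920,129⟩,⟨929,0,0⟩⟩ (920,[(1,863041),(0,129)]) (1,[(0,1)]) (1,[(3,929)])) (.node ⟨-351,-272,-816⟩ (.leaf false ⟨⟨-351,-272,-816⟩,⟨272,801,-384⟩,⟨816,-384,-223⟩⟩ (1,[(0,1)]) (17,[(4,7432),(3,15793),(0,8)]) (129,[(1,223),(4,105264),(3,155624)])) (.leaf false ⟨⟨0,929,0⟩,⟨129,0,-920⟩,⟨920,0,129⟩⟩ (1,[(3,929)]) (5031,[(1,47576),(0,1849),(3,43266992)]) (15093,[(1,235147),(0,39560),(3,205574920)]))))) (.node ⟨0,0,1⟩ (.node ⟨0,129,920⟩ (.leaf false ⟨⟨0,-920,129⟩,⟨0,129,920⟩,⟨929,0,0⟩⟩ (920,[(0,129),(2,863041)])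 (1,[(0,1)]) (1,[(3,929)])) (.node ⟨-351,-816,-272⟩ (.leaf false ⟨⟨-351,-848,144⟩,⟨592,-351,-624⟩,⟨624,-144,673⟩⟩ (51,[(2,21760),(4,702),(0,53)]) (43,[(2,80808),(4,25456),(1,117)]) (17,[(2,12257),(4,11661),(0,3)])) (.leaf false ⟨⟨0,0,929⟩,⟨129,-920,0⟩,⟨920,129,0⟩⟩ (1,[(2,929)]) (5031,[(2,43266992),(0,1849),(1,47576)]) (15093,[(2,205574920),(0,39560),(1,235147)])))) (.node ⟨120,300,-871⟩ (.node ⟨889,-144,228⟩ (.node ⟨-96,-903,-196⟩ (.leaf false ⟨⟨-96,-903,-196⟩,⟨252,164,-879⟩,⟨889,-144,228⟩⟩ (1,[(0,1)]) (75,[(3,30214),(2,41),(5,13980)]) (1,[(1,1)])) (.leaf false ⟨⟨20,-879,-300⟩,⟨120,300,-871⟩,⟨921,-20,120⟩⟩ (24,[(3,8180),(0,5),(4,25611)]) (4,[(3,4464),(0,5),(4,3315)]) (32,[(3,56332),(0,307),(4,277861)]))) (.leaf false ⟨⟨-871,-84,-312⟩,⟨168,-884,-231⟩,⟨276,273,-844⟩⟩ (19,[(4,6565),(3,5340),(0,26)])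 (76,[(4,81221),(3,78272),(0,77)]) (57,[(4,203311),(3,14823),(0,211)]))) (.leaf false ⟨⟨-252,-879,164⟩,⟨96,-196,-903⟩,⟨889,-228,144⟩⟩ (100,[(1,238803),(3,9960),(0,293)]) (75,[(1,110404),(3,13080),(0,49)]) (25,[(1,12949),(3,24505),(0,19)]))))) (.node ⟨0,1,0⟩ (.node ⟨0,0,1⟩ (.node ⟨129,0,920⟩ (.leaf false ⟨⟨-920,0,129⟩,⟨0,929,0⟩,⟨129,0,920⟩⟩ (920,[(3,863041),(0,129)]) (1,[(2,929)]) (1,[(0,1)])) (.node ⟨-816,-351,-272⟩ (.leaf false ⟨⟨-924,-88,-39⟩,⟨-84,921,-88⟩,⟨-47,84,924⟩⟩ (68,[(2,18292),(0,77),(3,21043)]) (43,[(2,21976),(1,28),(3,39603)]) (129,[(2,162436),(1,47),(3,10836)])) (.leaf false ⟨⟨-927,24,-56⟩,⟨-24,641,672⟩,⟨56,672,-639⟩⟩ (5031,[(2,34887376),(1,38329),(0,344)]) (351,[(2,3851920),(1,4120),(0,641)]) (5031,[(2,48209767),(1,58744),(0,9632)])))) (.node ⟨300,120,-871⟩ (.node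 ⟨-144,889,228⟩ (.node ⟨-903,-96,-196⟩ (.leaf false ⟨⟨-903,-96,-196⟩,⟨-144,889,228⟩,⟨164,252,-879⟩⟩ (1,[(0,1)]) (1,[(1,1)]) (75,[(3,30214),(4,13980),(2,41)])) (.leaf false ⟨⟨-927,24,-56⟩,⟨-24,641,672⟩,⟨56,672,-639⟩⟩ (4,[(3,420),(5,4611),(0,1)]) (96,[(3,61124),(5,581127),(0,641)]) (1,[(3,2011),(5,6265),(0,7)]))) (.leaf false ⟨⟨-927,-24,-56⟩,⟨24,641,-672⟩,⟨56,-672,-639⟩⟩ (57,[(4,54855),(3,11078),(0,14)]) (19,[(4,7608),(3,61963),(0,56)]) (76,[(4,26416),(3,138285),(0,213)]))) (.leaf false ⟨⟨-903,-144,164⟩,⟨-196,228,-879⟩,⟨-96,889,252⟩⟩ (100,[(1,245771),(0,301),(2,21720)]) (75,[(1,108604),(0,49),(2,22980)]) (25,[(1,668),(0,8),(2,23185)])))) (.node ⟨0,0,1⟩ (.node ⟨300,-871,120⟩ (.node ⟨-144,228,889⟩ (.node ⟨-903,-196,-96⟩ (.leaf false ⟨⟨-903,-196,-96⟩,⟨-144,228,889⟩,⟨164,-879,252⟩⟩ (1,[(0,1)])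 (1,[(1,1)]) (75,[(3,13980),(4,30214),(2,41)])) (.leaf false ⟨⟨-927,-56,24⟩,⟨-24,672,641⟩,⟨56,-639,672⟩⟩ (4,[(5,4611),(4,420),(0,1)]) (96,[(5,581127),(4,61124),(0,641)]) (1,[(5,6265),(4,2011),(0,7)]))) (.leaf false ⟨⟨-927,-56,-24⟩,⟨24,-672,641⟩,⟨56,-639,-672⟩⟩ (57,[(2,11078),(4,54855),(0,14)]) (19,[(2,61963),(4,7608),(0,56)]) (76,[(2,138285),(4,26416),(0,213)]))) (.leaf false ⟨⟨-903,164,-144⟩,⟨-196,-879,228⟩,⟨-96,252,889⟩⟩ (100,[(1,21720),(0,301),(2,245771)]) (75,[(1,22980),(0,49),(2,108604)]) (25,[(1,23185),(0,8),(2,668)]))) (.node ⟨-108,384,-839⟩ (.node ⟨-884,84,273⟩ (.leaf false ⟨⟨-916,57,144⟩,⟨-111,-844,-372⟩,⟨-108,384,-839⟩⟩ (221,[(2,30693),(0,229),(3,6639)]) (884,[(2,359151),(0,111),(3,755420)]) (1,[(1,1)])) (.leaf false ⟨⟨-884,-231,-168⟩,⟨84,312,-871⟩,⟨273,-844,-276⟩⟩ (13,[(4,18564),(3,2331),(0,8)])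 (14609,[(1,13195),(4,2703056),(0,6058)]) (91,[(4,56485),(3,69076),(0,92)]))) (.leaf false ⟨⟨-927,-56,-24⟩,⟨24,-672,641⟩,⟨56,-639,-672⟩⟩ (48,[(1,7025),(3,45252),(0,7)]) (4,[(1,3309),(3,660),(0,7)]) (128,[(1,264723),(3,15836),(0,213)])))))
theorem h929_ok : h929.check (ok 929 4 ⟨3, 3, 3⟩) (fun _ r => r) [] = true := by decide +kernel

def h937 : T := .node ⟨1,0,0⟩ (.node ⟨0,1,0⟩ (.node ⟨0,0,1⟩ (.leaf false ⟨⟨0,0,937⟩,⟨0,937,0⟩,⟨937,0,0⟩⟩ (1,[(0,937)]) (1,[(1,937)]) (1,[(2,937)])) (.node ⟨-215,0,-912⟩ (.leaf false ⟨⟨-215,0,-912⟩,⟨0,937,0⟩,⟨912,0,-215⟩⟩ (1,[(0,1)]) (1,[(2,937)]) (912,[(3,877969),(0,215)])) (.node ⟨600,-280,-663⟩ (.leaf false ⟨⟨12,129,-928⟩,⟨172,912,129⟩,⟨921,-172,-12⟩⟩ (50,[(2,45737),(0,1),(3,6730)]) (5,[(2,3003),(1,4),(3,4560)]) (3010,[(2,5863641),(0,1849),(1,7734)]))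 (.leaf false ⟨⟨-807,388,276⟩,⟨172,744,-543⟩,⟨444,417,712⟩⟩ (3010,[(2,2246517),(1,342),(0,4171)]) (1505,[(2,14744520),(1,12364),(0,3999)]) (12040,[(2,71628221),(1,74904),(0,17931)]))))) (.node ⟨0,0,1⟩ (.node ⟨-215,-912,0⟩ (.leaf false ⟨⟨-215,-912,0⟩,⟨0,0,937⟩,⟨912,-215,0⟩⟩ (1,[(0,1)]) (1,[(1,937)]) (912,[(3,877969),(0,215)])) (.node ⟨600,-663,-280⟩ (.leaf false ⟨⟨12,-928,129⟩,⟨172,129,912⟩,⟨921,-12,-172⟩⟩ (50,[(2,6730),(0,1),(3,45737)]) (5,[(2,4560),(1,4),(3,3003)]) (3010,[(1,7734),(0,1849),(3,5863641)])) (.leaf false ⟨⟨-807,-252,404⟩,⟨12,784,513⟩,⟨476,-447,672⟩⟩ (3010,[(1,822),(3,4387593),(0,4343)]) (12040,[(1,62232),(3,61941341),(0,22059)]) (215,[(1,1916),(3,2185605),(0,516)])))) (.node ⟨28,-924,153⟩ (.node ⟨924,153,28⟩ (.leaf false ⟨⟨28,-924,153⟩,⟨33,-152,-924⟩,⟨936,33,28⟩⟩ (1,[(1,1)])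 (28,[(2,25900),(0,1),(3,4409)]) (77,[(2,28),(0,78),(3,9393)])) (.leaf false ⟨⟨-836,-423,-12⟩,⟨72,-116,-927⟩,⟨417,-828,136⟩⟩ (71505,[(2,2380544),(1,21912),(0,65359)]) (153,[(2,138583),(4,118200),(0,116)]) (77,[(2,85),(4,30177),(1,69)]))) (.leaf false ⟨⟨0,-215,-912⟩,⟨0,912,-215⟩,⟨937,0,0⟩⟩ (51,[(3,8512),(2,291861),(0,304)]) (153,[(3,6020),(2,59124),(0,215)]) (1,[(3,937)]))))) (.node ⟨0,1,0⟩ (.node ⟨0,0,1⟩ (.node ⟨-912,-215,0⟩ (.leaf false ⟨⟨-912,-215,0⟩,⟨-215,912,0⟩,⟨0,0,937⟩⟩ (1,[(0,1)]) (912,[(0,215),(2,877969)]) (1,[(1,937)])) (.node ⟨-663,600,-280⟩ (.leaf false ⟨⟨-928,12,129⟩,⟨-12,921,-172⟩,⟨129,172,912⟩⟩ (50,[(2,6730),(4,45737),(0,1)]) (3010,[(4,5863641),(0,1849),(1,7734)]) (5,[(2,4560),(4,3003),(1,4)])) (.leaf false ⟨⟨-928,-12,129⟩,⟨12,921,172⟩,⟨129,-172,912⟩⟩ (12040,[(4,28355677),(1,14808),(0,5547)])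 (3010,[(4,17655015),(1,18054),(0,1849)]) (1505,[(4,14433993),(1,12476),(0,4902)])))) (.node ⟨-924,28,153⟩ (.node ⟨153,924,28⟩ (.leaf false ⟨⟨-924,28,153⟩,⟨-152,33,-924⟩,⟨33,936,28⟩⟩ (1,[(1,1)]) (28,[(2,25900),(4,4409),(0,1)]) (77,[(2,28),(4,9393),(0,78)])) (.leaf false ⟨⟨-935,12,60⟩,⟨-60,-360,-863⟩,⟨-12,865,-360⟩⟩ (214515,[(2,20139388),(0,3773),(1,216444)]) (51,[(2,43453),(0,20),(3,120)]) (51,[(2,18248),(0,4),(3,47811)]))) (.leaf false ⟨⟨-215,0,-912⟩,⟨0,937,0⟩,⟨912,0,-215⟩⟩ (51,[(3,291861),(2,8512),(0,304)]) (1,[(2,937)]) (153,[(3,59124),(2,6020),(0,215)])))) (.node ⟨0,0,1⟩ (.node ⟨153,-924,28⟩ (.node ⟨28,153,924⟩ (.leaf false ⟨⟨-936,-28,33⟩,⟨28,153,924⟩,⟨33,-924,152⟩⟩ (28,[(4,26236),(3,937),(0,1)]) (1,[(0,1)]) (71505,[(4,9089837),(1,73086),(0,9548)])) (.leaf false ⟨⟨-935,-60,-12⟩,⟨12,-360,865⟩,⟨60,-863,-360⟩⟩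 (51,[(2,17868),(4,47125),(0,20)]) (77,[(2,65765),(4,3666),(1,30)]) (214515,[(4,13025671),(0,89201),(1,185583)]))) (.leaf false ⟨⟨-912,-215,0⟩,⟨-215,912,0⟩,⟨0,0,937⟩⟩ (51,[(1,8512),(0,304),(2,291861)]) (153,[(1,6020),(0,215),(2,59124)]) (1,[(1,937)]))) (.node ⟨-39,-852,388⟩ (.node ⟨-876,252,217⟩ (.leaf false ⟨⟨-908,129,192⟩,⟨-228,-368,-831⟩,⟨-39,-852,388⟩⟩ (219,[(2,7211),(0,227),(3,28953)]) (73,[(2,64786),(0,19),(3,31652)]) (1,[(1,1)])) (.leaf false ⟨⟨-852,-368,129⟩,⟨-39,-228,-908⟩,⟨388,-831,192⟩⟩ (213,[(2,8219),(4,177888),(1,92)]) (21,[(2,14945),(4,17463),(0,19)]) (13460,[(4,978835),(1,10891),(0,7564)]))) (.node ⟨228,368,-831⟩ (.leaf false ⟨⟨-927,72,-116⟩,⟨-12,-836,-423⟩,⟨136,417,-828⟩⟩ (97,[(4,91050),(3,17724),(1,29)]) (277,[(4,35472),(3,283460),(0,141)]) (565228,[(4,48714569),(0,543660),(1,41823)]))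 (.leaf false ⟨⟨-935,-12,-60⟩,⟨12,865,-360⟩,⟨60,-360,-863⟩⟩ (11211,[(3,107991016),(1,158133),(0,73024)]) (18685,[(3,3165043),(1,24036),(0,3128)]) (18685,[(3,47174424),(1,48968),(0,3459)]))))))
theorem h937_ok : h937.check (ok 937 4 ⟨3, 3, 3⟩) (fun _ r => r) [] = true := by decide +kernel

def h941 : T := .node ⟨1,0,0⟩ (.node ⟨0,1,0⟩ (.node ⟨0,0,1⟩ (.leaf false ⟨⟨0,0,941⟩,⟨0,941,0⟩,⟨941,0,0⟩⟩ (1,[(0,941)]) (1,[(1,941)]) (1,[(2,941)])) (.node ⟨-219,76,-912⟩ (.node ⟨-168,909,176⟩ (.leaf false ⟨⟨-219,76,-912⟩,⟨-76,933,96⟩,⟨912,96,-211⟩⟩ (1,[(1,1)]) (303,[(2,25648),(4,29220),(0,311)]) (303,[(2,69565),(4,281712),(0,32)])) (.leaf false ⟨⟨-184,120,-915⟩,⟨645,684,-40⟩,⟨660,-635,-216⟩⟩ (304,[(4,10859),(3,13300),(1,305)]) (22,[(4,13350),(3,19593),(0,5)]) (22,[(4,9984),(3,10573),(0,27)])))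 (.leaf false ⟨⟨0,941,0⟩,⟨580,0,741⟩,⟨741,0,-580⟩⟩ (1,[(2,941)]) (219,[(1,366681),(0,580),(2,44080)]) (73,[(1,267604),(0,247),(2,18772)])))) (.node ⟨0,0,1⟩ (.node ⟨-219,-912,76⟩ (.node ⟨-168,176,909⟩ (.leaf false ⟨⟨-219,-912,76⟩,⟨-76,96,933⟩,⟨912,-211,96⟩⟩ (1,[(1,1)]) (303,[(4,29220),(3,25648),(0,311)]) (303,[(4,281712),(3,69565),(0,32)])) (.leaf false ⟨⟨-184,-915,120⟩,⟨645,-40,684⟩,⟨660,-216,-635⟩⟩ (304,[(2,13300),(4,10859),(1,305)]) (22,[(2,19593),(4,13350),(0,5)]) (22,[(2,10573),(4,9984),(0,27)]))) (.leaf false ⟨⟨0,0,941⟩,⟨580,741,0⟩,⟨741,-580,0⟩⟩ (1,[(1,941)]) (219,[(1,44080),(0,580),(2,366681)]) (73,[(1,18772),(0,247),(2,267604)]))) (.node ⟨924,-84,157⟩ (.node ⟨-84,-924,157⟩ (.node ⟨-99,-148,-924⟩ (.leaf false ⟨⟨-99,-148,-924⟩,⟨-84,-924,157⟩,⟨932,-99,-84⟩⟩ (1,[(0,1)]) (1,[(1,1)])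 (28,[(3,2823),(5,26348),(1,3)])) (.leaf false ⟨⟨-84,-932,-99⟩,⟨157,84,-924⟩,⟨924,-99,148⟩⟩ (6587,[(3,1748378),(0,56),(1,6653)]) (19761,[(3,50725546),(0,34503),(1,3730)]) (26348,[(3,269294439),(0,287364),(1,48851)]))) (.leaf false ⟨⟨13,-576,-744⟩,⟨96,741,-572⟩,⟨936,-68,69⟩⟩ (84,[(2,60455),(0,13),(3,60396)]) (7,[(2,2748),(0,8),(3,2205)]) (2562,[(2,222630),(0,47),(1,2591)]))) (.leaf false ⟨⟨-904,96,-243⟩,⟨12,-859,-384⟩,⟨261,372,-824⟩⟩ (157,[(3,82604),(2,5340),(0,243)]) (157,[(3,356700),(2,167119),(0,384)]) (157,[(3,802353),(2,10812),(0,824)]))))) (.node ⟨0,1,0⟩ (.node ⟨0,0,1⟩ (.node ⟨-912,-219,76⟩ (.node ⟨176,-168,909⟩ (.leaf false ⟨⟨-924,-59,168⟩,⟨-27,924,176⟩,⟨176,-168,909⟩⟩ (210596,[(1,217371),(3,38664749),(0,20748)]) (909,[(4,55519),(3,869484),(0,176)]) (1,[(0,1)])) (.leaf false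 ⟨⟨-924,-176,-27⟩,⟨-168,909,-176⟩,⟨-59,168,924⟩⟩ (11084,[(1,10989),(0,1248),(3,246143)]) (22,[(2,15217),(0,21),(3,16470)]) (176,[(2,216255),(0,59),(3,19656)]))) (.leaf false ⟨⟨-859,12,384⟩,⟨-96,904,-243⟩,⟨372,261,824⟩⟩ (73,[(1,28336),(3,66355),(0,4)]) (219,[(1,15487),(3,845472),(0,904)]) (73,[(1,66764),(3,52188),(0,87)]))) (.node ⟨-84,924,157⟩ (.node ⟨-924,-84,157⟩ (.node ⟨-148,-99,-924⟩ (.leaf false ⟨⟨-924,-84,157⟩,⟨-148,-99,-924⟩,⟨-99,932,-84⟩⟩ (1,[(1,1)]) (1,[(0,1)]) (28,[(3,2823),(1,3),(4,26348)])) (.leaf false ⟨⟨-936,-68,69⟩,⟨-96,741,-572⟩,⟨13,576,744⟩⟩ (2823,[(3,789499),(1,2950),(0,564)]) (6587,[(3,58668527),(1,9931),(0,57729)]) (26348,[(3,148379703),(1,27987),(0,177044)]))) (.leaf false ⟨⟨-576,13,-744⟩,⟨-68,936,69⟩,⟨741,96,-572⟩⟩ (84,[(2,60455),(4,60396),(0,13)]) (2562,[(2,222630),(1,2591),(0,47)])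 (7,[(2,2748),(4,2205),(0,8)]))) (.leaf false ⟨⟨-931,-132,-36⟩,⟨-108,861,-364⟩,⟨84,-356,-867⟩⟩ (157,[(3,149191),(2,12540),(0,36)]) (157,[(3,47532),(2,471513),(0,364)]) (157,[(3,59640),(2,745216),(0,867)])))) (.node ⟨0,0,1⟩ (.node ⟨-84,157,924⟩ (.node ⟨-924,157,-84⟩ (.node ⟨-148,-924,-99⟩ (.leaf false ⟨⟨-924,157,-84⟩,⟨-148,-924,-99⟩,⟨-99,-84,932⟩⟩ (1,[(1,1)]) (1,[(0,1)]) (28,[(3,26348),(1,3),(4,2823)])) (.leaf false ⟨⟨-936,-96,13⟩,⟨-68,741,576⟩,⟨69,-572,744⟩⟩ (19761,[(1,23647),(4,26546551),(0,22659)]) (941,[(1,1095),(4,5391930),(0,6404)]) (26348,[(1,34427),(4,230427375),(0,227220)]))) (.leaf false ⟨⟨-576,-744,13⟩,⟨-68,69,936⟩,⟨741,-572,96⟩⟩ (84,[(4,60396),(3,60455),(0,13)]) (2562,[(1,2591),(3,222630),(0,47)]) (7,[(4,2205),(3,2748),(0,8)]))) (.leaf false ⟨⟨-931,-84,108⟩,⟨36,-867,-364⟩,⟨132,-356,861⟩⟩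 (157,[(1,94572),(3,153223),(0,84)]) (157,[(1,743960),(3,67176),(0,867)]) (157,[(1,464121),(3,9180),(0,356)]))) (.node ⟨-243,384,-824⟩ (.node ⟨-708,-411,464⟩ (.node ⟨229,-828,-384⟩ (.leaf false ⟨⟨-708,-411,464⟩,⟨-576,176,-723⟩,⟨229,-828,-384⟩⟩ (1,[(1,1)]) (24,[(3,8288),(2,11),(5,11151)]) (1,[(0,1)])) (.leaf false ⟨⟨-915,-40,216⟩,⟨-184,645,-660⟩,⟨-120,-684,-635⟩⟩ (229,[(3,301896),(0,915),(4,766780)]) (229,[(3,221796),(0,184),(4,4647)]) (229,[(3,191495),(0,120),(4,255996)]))) (.leaf false ⟨⟨-923,-96,-156⟩,⟨96,429,-832⟩,⟨156,-832,-411⟩⟩ (116,[(4,134680),(3,27165),(0,39)]) (29,[(4,34032),(3,8931),(0,52)]) (464,[(4,218604),(3,554969),(0,411)]))) (.leaf false ⟨⟨-923,-156,-96⟩,⟨96,-832,429⟩,⟨156,-411,-832⟩⟩ (32,[(1,13784),(3,32695),(0,13)]) (6,[(1,8138),(3,2583),(0,13)]) (128,[(1,219384),(3,13323),(0,137)])))))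
theorem h941_ok : h941.check (ok 941 4 ⟨3, 3, 3⟩) (fun _ r => r) [] = true := by decide +kernel

def h943 : T := .node ⟨1,0,0⟩ (.node ⟨0,1,0⟩ (.node ⟨0,0,1⟩ (.node ⟨-398,174,837⟩ (.node ⟨182,870,-315⟩ (.node ⟨885,-70,318⟩ (.leaf false ⟨⟨-270,357,830⟩,⟨182,870,-315⟩,⟨885,-70,318⟩⟩ (199,[(3,52175),(4,47553),(2,135)]) (1,[(1,1)]) (1,[(0,1)])) (.leaf false ⟨⟨-939,78,38⟩,⟨38,741,-582⟩,⟨78,578,741⟩⟩ (35,[(3,13732),(5,1650),(0,39)]) (70,[(3,194898),(5,658445),(0,741)]) (35,[(3,117837),(5,258495),(0,289)]))) (.leaf false ⟨⟨-462,-42,821⟩,⟨-11,942,42⟩,⟨822,-11,462⟩⟩ (315,[(4,3892),(3,701040),(0,821)]) (15,[(4,199),(3,15870),(0,2)]) (15,[(4,16334),(3,18975),(0,22)]))) (.leaf false ⟨⟨18,837,434⟩,⟨434,378,-747⟩,⟨837,-214,378⟩⟩ (199,[(1,93899),(0,9),(2,168129)]) (199,[(1,32976),(0,217),(2,112980)])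 (398,[(1,851013),(0,837),(2,60466)]))) (.node ⟨-155,-18,-930⟩ (.node ⟨918,-155,-150⟩ (.leaf false ⟨⟨-155,-18,-930⟩,⟨150,930,-43⟩,⟨918,-155,-150⟩⟩ (1,[(1,1)]) (930,[(4,146165),(3,865674),(1,43)]) (1,[(0,1)])) (.leaf false ⟨⟨-907,246,78⟩,⟨78,533,-774⟩,⟨246,738,533⟩⟩ (23575,[(4,14046928),(0,37896),(1,4135)]) (23575,[(4,84975616),(0,84937),(1,33320)]) (3450,[(4,16107383),(0,16506),(1,685)]))) (.node ⟨-276,897,-92⟩ (.leaf false ⟨⟨-276,897,-92⟩,⟨552,92,-759⟩,⟨713,276,552⟩⟩ (1,[(0,1)]) (39,[(2,29233),(4,22632),(0,4)]) (6057,[(4,4227469),(1,3772),(0,1788)])) (.leaf false ⟨⟨21,942,38⟩,⟨502,21,-798⟩,⟨798,-38,501⟩⟩ (155,[(2,13640),(1,21),(3,145632)]) (138,[(2,133216),(0,251),(3,228045)]) (48484,[(0,132897),(1,12972),(3,117132721)]))))) (.node ⟨0,0,1⟩ (.node ⟨-155,-930,-18⟩ (.node ⟨918,-150,-155⟩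 (.leaf false ⟨⟨-155,-930,-18⟩,⟨150,-43,930⟩,⟨918,-150,-155⟩⟩ (1,[(1,1)]) (930,[(2,865674),(4,146165),(1,43)]) (1,[(0,1)])) (.leaf false ⟨⟨-907,78,246⟩,⟨78,-774,533⟩,⟨246,533,738⟩⟩ (23575,[(4,14046928),(1,4135),(0,37896)]) (23575,[(4,84975616),(1,33320),(0,84937)]) (3450,[(4,16107383),(1,685),(0,16506)]))) (.node ⟨-276,-92,897⟩ (.leaf false ⟨⟨-276,-92,897⟩,⟨552,-759,92⟩,⟨713,552,276⟩⟩ (1,[(0,1)]) (39,[(4,22632),(3,29233),(0,4)]) (6057,[(1,3772),(4,4227469),(0,1788)])) (.leaf false ⟨⟨21,38,942⟩,⟨502,-798,21⟩,⟨798,501,-38⟩⟩ (155,[(2,145632),(1,21),(3,13640)]) (138,[(2,228045),(0,251),(3,133216)]) (48484,[(2,117132721),(1,12972),(0,132897)])))) (.node ⟨-207,-920,0⟩ (.leaf false ⟨⟨-207,-920,0⟩,⟨0,0,-943⟩,⟨920,-207,0⟩⟩ (1,[(0,1)]) (1,[(1,943)]) (40,[(3,38663),(0,9)])) (.node ⟨834,-43,438⟩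 (.leaf false ⟨⟨6,-738,-587⟩,⟨402,533,-666⟩,⟨853,-246,318⟩⟩ (69,[(2,40503),(1,2),(3,52762)]) (69,[(2,45954),(1,134),(3,86503)]) (834,[(2,108402),(0,853),(3,168485)])) (.leaf false ⟨⟨-834,-43,-438⟩,⟨277,678,-594⟩,⟨342,-654,-587⟩⟩ (1,[(3,86),(0,1)]) (657,[(1,4469),(3,3704347),(0,891)]) (1314,[(1,9266),(3,9459799),(0,1761)])))))) (.node ⟨0,1,0⟩ (.node ⟨0,0,1⟩ (.node ⟨-930,-155,-18⟩ (.node ⟨-150,918,-155⟩ (.leaf false ⟨⟨-930,-155,-18⟩,⟨-150,918,-155⟩,⟨-43,150,930⟩⟩ (1,[(1,1)]) (1,[(0,1)]) (930,[(2,865674),(1,43),(3,146165)])) (.leaf false ⟨⟨-942,21,38⟩,⟨21,-502,798⟩,⟨38,798,501⟩⟩ (23575,[(1,25285),(3,12415538),(0,8716)]) (47150,[(1,38815),(3,209326197),(0,247254)]) (70725,[(1,34630),(3,275354114),(0,232623)]))) (.node ⟨-92,-276,897⟩ (.leaf false ⟨⟨-918,-34,213⟩,⟨-27,942,34⟩,⟨214,-27,918⟩⟩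 (299,[(4,267950),(3,9430),(0,71)]) (9,[(4,16053),(3,5843),(1,17)]) (139311,[(3,28192756),(1,46069),(0,141648)])) (.leaf false ⟨⟨-942,38,21⟩,⟨21,798,-502⟩,⟨38,501,798⟩⟩ (138,[(2,19941),(4,131744),(0,19)]) (46,[(2,96209),(4,11270),(0,133)]) (92,[(2,223215),(4,11868),(0,167)])))) (.node ⟨0,-207,-920⟩ (.leaf false ⟨⟨-943,0,0⟩,⟨0,-207,-920⟩,⟨0,920,-207⟩⟩ (1,[(3,943)]) (1,[(0,1)]) (40,[(0,9),(2,38663)])) (.node ⟨438,834,-43⟩ (.leaf false ⟨⟨-942,38,21⟩,⟨21,798,-502⟩,⟨38,501,798⟩⟩ (207,[(2,30613),(4,194994),(1,38)]) (139,[(2,64059),(4,55335),(0,133)]) (15111,[(2,16672769),(1,31291),(0,1311)])) (.leaf false ⟨⟨-942,-43,-6⟩,⟨-43,906,258⟩,⟨-6,258,-907⟩⟩ (15111,[(2,119063203),(0,32499),(1,127799)]) (30222,[(2,125021905),(0,2967),(1,144230)]) (5037,[(2,10603046),(0,69),(1,6556)]))))) (.node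 ⟨0,0,1⟩ (.node ⟨0,-920,-207⟩ (.leaf false ⟨⟨-943,0,0⟩,⟨0,-920,-207⟩,⟨0,-207,920⟩⟩ (1,[(3,943)]) (1,[(0,1)]) (40,[(1,38663),(0,9)])) (.node ⟨438,-43,834⟩ (.leaf false ⟨⟨-942,21,38⟩,⟨21,-502,798⟩,⟨38,798,501⟩⟩ (207,[(1,38),(4,194994),(3,30613)]) (139,[(4,55335),(3,64059),(0,133)]) (15111,[(1,31291),(3,16672769),(0,1311)])) (.leaf false ⟨⟨-942,-27,-34⟩,⟨-34,918,213⟩,⟨-27,-214,918⟩⟩ (15111,[(1,128456),(0,32499),(3,119984974)]) (15111,[(1,20275),(0,1173),(3,4831541)]) (3358,[(1,15726),(0,207),(3,15195433)])))) (.leaf false ⟨⟨-943,0,0⟩,⟨0,-943,0⟩,⟨0,0,-943⟩⟩ (1,[(2,943)]) (1,[(1,943)]) (1,[(0,943)]))))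
theorem h943_ok : h943.check (ok 943 4 ⟨3, 3, 3⟩) (fun _ r => r) [] = true := by decide +kernel

def h947 : T := .node ⟨1,0,0⟩ (.node ⟨0,1,0⟩ (.node ⟨0,0,1⟩ (.node ⟨-543,522,574⟩ (.node ⟨330,822,-335⟩ (.node ⟨753,-70,570⟩ (.leaf false ⟨⟨-470,465,678⟩,⟨330,822,-335⟩,⟨753,-70,570⟩⟩ (174,[(3,29002),(5,2385),(2,155)]) (1,[(1,1)]) (1,[(0,1)])) (.leaf false ⟨⟨-938,102,81⟩,⟨81,918,-218⟩,⟨102,209,918⟩⟩ (35,[(3,31905),(5,5573),(0,51)]) (35,[(3,254000),(5,348462),(0,459)]) (70,[(3,183390),(5,164517),(0,209)]))) (.leaf false ⟨⟨-591,-162,722⟩,⟨462,641,522⟩,⟨578,-678,321⟩⟩ (335,[(4,40275),(3,539214),(0,722)]) (335,[(4,327030),(3,643819),(0,522)]) (335,[(4,299560),(3,36732),(0,321)]))) (.leaf false ⟨⟨18,574,753⟩,⟨666,-543,398⟩,⟨673,522,-414⟩⟩ (181,[(1,139737),(0,6),(2,107026)]) (181,[(1,199466),(0,222),(2,17601)])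 (543,[(1,161500),(0,673),(2,634752)]))) (.node ⟨918,81,218⟩ (.node ⟨-218,918,81⟩ (.leaf false ⟨⟨-218,918,81⟩,⟨81,102,-938⟩,⟨918,209,102⟩⟩ (1,[(0,1)]) (9,[(2,8523),(4,947),(0,1)]) (430191,[(2,57702604),(1,444143),(0,58752)])) (.leaf false ⟨⟨6,97,-942⟩,⟨657,678,74⟩,⟨682,-654,-63⟩⟩ (109,[(2,102435),(0,3),(3,13327)]) (102,[(2,8366),(1,73),(3,63243)]) (143397,[(2,17750534),(0,109269),(1,80584)]))) (.leaf false ⟨⟨-750,-15,-578⟩,⟨97,930,-150⟩,⟨570,-178,-735⟩⟩ (109,[(3,183552),(2,21774),(0,289)]) (109,[(3,79423),(2,107445),(0,75)]) (218,[(3,798990),(2,20731),(0,735)])))) (.node ⟨0,0,1⟩ (.node ⟨918,218,81⟩ (.node ⟨-218,81,918⟩ (.leaf false ⟨⟨-218,81,918⟩,⟨81,-938,102⟩,⟨918,102,209⟩⟩ (1,[(0,1)]) (9,[(4,947),(3,8523),(0,1)]) (430191,[(1,444143),(3,57702604),(0,58752)])) (.leaf false ⟨⟨6,-942,97⟩,⟨657,74,678⟩,⟨682,-63,-654⟩⟩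 (109,[(2,13327),(0,3),(3,102435)]) (102,[(2,63243),(1,73),(3,8366)]) (143397,[(1,80584),(0,109269),(3,17750534)]))) (.leaf false ⟨⟨-750,-578,-15⟩,⟨97,-150,930⟩,⟨570,-735,-178⟩⟩ (109,[(1,21774),(3,183552),(0,289)]) (109,[(1,107445),(3,79423),(0,75)]) (218,[(1,20731),(3,798990),(0,735)]))) (.node ⟨129,258,-902⟩ (.node ⟨902,129,258⟩ (.leaf false ⟨⟨18,-911,-258⟩,⟨129,258,-902⟩,⟨938,-18,129⟩⟩ (43,[(2,5682),(1,6),(3,40721)]) (1,[(1,1)]) (451,[(2,62823),(0,469),(3,68619)])) (.leaf false ⟨⟨-798,-63,-506⟩,⟨114,-938,-63⟩,⟨497,114,-798⟩⟩ (30487,[(1,8170),(4,2786002),(0,31229)]) (86,[(4,28746),(3,77959),(0,21)]) (451,[(1,399),(4,172676),(3,51528)]))) (.leaf false ⟨⟨-378,-866,-63⟩,⟨294,-63,-898⟩,⟨817,-378,294⟩⟩ (129,[(1,398693),(3,7095),(0,433)]) (86,[(1,96170),(3,27993),(0,21)]) (43,[(1,44184),(3,43258),(0,63)])))))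 (.node ⟨0,1,0⟩ (.node ⟨0,0,1⟩ (.node ⟨218,81,918⟩ (.node ⟨81,918,-218⟩ (.leaf false ⟨⟨-938,102,81⟩,⟨81,918,-218⟩,⟨102,209,918⟩⟩ (9,[(2,947),(4,8523),(0,1)]) (1,[(0,1)]) (430191,[(4,57702604),(0,58752),(1,444143)])) (.leaf false ⟨⟨-942,97,6⟩,⟨-63,-654,682⟩,⟨74,678,657⟩⟩ (109,[(4,102435),(3,13327),(0,3)]) (143397,[(4,17750534),(1,80584),(0,109269)]) (102,[(4,8366),(3,63243),(1,73)]))) (.leaf false ⟨⟨-767,-246,-498⟩,⟨-546,178,753⟩,⟨-102,897,-286⟩⟩ (218,[(1,595542),(0,767),(2,8499)]) (109,[(1,332691),(0,273),(2,41515)]) (109,[(1,15644),(0,51),(2,101904)]))) (.node ⟨258,129,-902⟩ (.node ⟨129,902,258⟩ (.leaf false ⟨⟨-938,129,18⟩,⟨18,258,-911⟩,⟨129,902,258⟩⟩ (902,[(2,17046),(4,862717),(0,129)]) (451,[(2,444143),(4,8523),(0,129)]) (1,[(0,1)])) (.leaf false ⟨⟨-938,114,-63⟩,⟨-63,-798,-506⟩,⟨114,497,-798⟩⟩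 (86,[(4,77959),(3,28746),(0,21)]) (30487,[(3,2786002),(1,8170),(0,31229)]) (451,[(4,51528),(3,172676),(1,399)]))) (.leaf false ⟨⟨-918,-223,66⟩,⟨-207,906,182⟩,⟨-106,162,-927⟩⟩ (43,[(1,135168),(0,153),(2,10148)]) (86,[(1,46586),(0,69),(2,86817)]) (129,[(1,167389),(0,53),(2,27735)])))) (.node ⟨0,0,1⟩ (.node ⟨258,-902,129⟩ (.node ⟨129,258,902⟩ (.leaf false ⟨⟨-938,18,129⟩,⟨18,-911,258⟩,⟨129,258,902⟩⟩ (902,[(4,862717),(3,17046),(0,129)]) (451,[(4,8523),(3,444143),(0,129)]) (1,[(0,1)])) (.leaf false ⟨⟨-938,-63,114⟩,⟨-63,-506,-798⟩,⟨114,-798,497⟩⟩ (86,[(2,28746),(4,77959),(0,21)]) (30487,[(2,2786002),(0,31229),(1,8170)]) (451,[(2,172676),(4,51528),(1,399)]))) (.leaf false ⟨⟨-918,66,-223⟩,⟨-207,182,906⟩,⟨-106,-927,162⟩⟩ (43,[(1,10148),(0,153),(2,135168)]) (86,[(1,86817),(0,69),(2,46586)])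 (129,[(1,27735),(0,53),(2,167389)]))) (.leaf false ⟨⟨-947,0,0⟩,⟨0,-947,0⟩,⟨0,0,-947⟩⟩ (1,[(2,947)]) (1,[(1,947)]) (1,[(0,947)]))))
theorem h947_ok : h947.check (ok 947 4 ⟨3, 3, 3⟩) (fun _ r => r) [] = true := by decide +kernel

def h953 : T := .node ⟨1,0,0⟩ (.node ⟨0,1,0⟩ (.node ⟨0,0,1⟩ (.leaf false ⟨⟨0,0,953⟩,⟨0,953,0⟩,⟨953,0,0⟩⟩ (1,[(0,953)]) (1,[(1,953)]) (1,[(2,953)])) (.node ⟨-615,0,-728⟩ (.leaf false ⟨⟨-615,0,-728⟩,⟨0,953,0⟩,⟨728,0,-615⟩⟩ (1,[(0,1)]) (1,[(2,953)]) (728,[(3,908209),(0,615)])) (.node ⟨793,-408,-336⟩ (.leaf false ⟨⟨24,633,-712⟩,⟨528,584,537⟩,⟨793,-408,-336⟩⟩ (205,[(2,151784),(1,8),(3,129765)]) (205,[(2,18043),(1,176),(3,119720)]) (1,[(0,1)])) (.leaf false ⟨⟨-828,460,105⟩,⟨305,360,828⟩,⟨360,753,-460⟩⟩ (62730,[(2,22082942),(1,6739),(0,70725)]) (2091,[(2,1375420),(1,3416),(0,1845)])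 (83640,[(2,270887224),(1,248003),(0,154365)]))))) (.node ⟨0,0,1⟩ (.node ⟨-615,-728,0⟩ (.leaf false ⟨⟨-615,-728,0⟩,⟨0,0,953⟩,⟨728,-615,0⟩⟩ (1,[(0,1)]) (1,[(1,953)]) (728,[(3,908209),(0,615)])) (.node ⟨793,-336,-408⟩ (.leaf false ⟨⟨24,-712,633⟩,⟨528,537,584⟩,⟨793,-336,-408⟩⟩ (205,[(2,129765),(1,8),(3,151784)]) (205,[(2,119720),(1,176),(3,18043)]) (1,[(0,1)])) (.leaf false ⟨⟨-828,105,460⟩,⟨305,828,360⟩,⟨360,-460,753⟩⟩ (62730,[(1,6739),(3,22082942),(0,70725)]) (2091,[(1,3416),(3,1375420),(0,1845)]) (83640,[(1,248003),(3,270887224),(0,154365)])))) (.node ⟨908,-87,276⟩ (.node ⟨0,-615,728⟩ (.leaf false ⟨⟨0,-728,-615⟩,⟨0,-615,728⟩,⟨953,0,0⟩⟩ (615,[(2,908209),(0,728)]) (1,[(0,1)]) (1,[(4,953)])) (.leaf false ⟨⟨28,-855,-420⟩,⟨120,420,-847⟩,⟨945,-28,120⟩⟩ (2951,[(0,1737),(1,91),(3,3583443)])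 (165256,[(0,200549),(1,21840),(3,52030035)]) (165256,[(0,37965),(1,171990),(3,13012513)]))) (.leaf false ⟨⟨-836,-207,-408⟩,⟨297,-892,-156⟩,⟨348,264,-847⟩⟩ (23,[(3,11644),(2,7719),(0,34)]) (23,[(3,18635),(2,21647),(0,13)]) (276,[(3,865124),(2,825),(0,847)]))))) (.node ⟨0,1,0⟩ (.node ⟨0,0,1⟩ (.node ⟨-728,-615,0⟩ (.leaf false ⟨⟨-728,-615,0⟩,⟨-615,728,0⟩,⟨0,0,953⟩⟩ (1,[(0,1)]) (728,[(0,615),(2,908209)]) (1,[(1,953)])) (.node ⟨-336,793,-408⟩ (.leaf false ⟨⟨-900,297,-100⟩,⟨-72,100,945⟩,⟨305,900,-72⟩⟩ (793,[(2,41876),(4,613908),(0,297)]) (123,[(2,116235),(4,23416),(1,20)]) (3485,[(4,1865931),(0,615),(1,4307)])) (.leaf false ⟨⟨-924,-152,177⟩,⟨-12,753,584⟩,⟨233,-564,732⟩⟩ (5576,[(4,7232456),(1,1741),(0,2419)]) (31365,[(4,85561676),(1,96292),(0,44895)]) (20910,[(4,28988426),(1,29197),(0,37515)]))))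 (.node ⟨-87,908,276⟩ (.node ⟨-615,0,728⟩ (.leaf false ⟨⟨-728,0,-615⟩,⟨-615,0,728⟩,⟨0,953,0⟩⟩ (615,[(2,908209),(0,728)]) (1,[(0,1)]) (1,[(3,953)])) (.leaf false ⟨⟨-855,28,-420⟩,⟨-28,945,120⟩,⟨420,120,-847⟩⟩ (2951,[(4,3583443),(1,91),(0,1737)]) (165256,[(4,13012513),(1,171990),(0,37965)]) (165256,[(4,52030035),(1,21840),(0,200549)]))) (.leaf false ⟨⟨-936,-143,-108⟩,⟨-28,684,-663⟩,⟨177,-648,-676⟩⟩ (23,[(3,22311),(2,4883),(0,9)]) (92,[(3,21803),(2,263596),(0,221)]) (69,[(3,2490),(2,108740),(0,169)])))) (.node ⟨0,0,1⟩ (.node ⟨-87,276,908⟩ (.node ⟨-615,728,0⟩ (.leaf false ⟨⟨-728,-615,0⟩,⟨-615,728,0⟩,⟨0,0,953⟩⟩ (615,[(0,728),(3,908209)]) (1,[(0,1)]) (1,[(2,953)])) (.leaf false ⟨⟨-855,-420,28⟩,⟨-28,120,945⟩,⟨420,-847,120⟩⟩ (2951,[(1,91),(4,3583443),(0,1737)]) (165256,[(1,171990),(4,13012513),(0,37965)])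 (165256,[(1,21840),(4,52030035),(0,200549)]))) (.leaf false ⟨⟨-936,-143,108⟩,⟨28,-684,-663⟩,⟨177,-648,676⟩⟩ (276,[(1,159652),(3,270777),(0,143)]) (23,[(1,36507),(3,4315),(0,57)]) (23,[(1,64580),(3,627),(0,54)]))) (.node ⟨-207,408,-836⟩ (.node ⟨-892,156,297⟩ (.leaf false ⟨⟨-892,156,297⟩,⟨-264,-847,-348⟩,⟨-207,408,-836⟩⟩ (1,[(0,1)]) (223,[(2,97206),(0,66),(3,199177)]) (1,[(1,1)])) (.leaf false ⟨⟨-847,-348,-264⟩,⟨156,297,-892⟩,⟨408,-836,-207⟩⟩ (9,[(4,14759),(3,1884),(0,8)]) (83864,[(1,75787),(4,5614123),(0,38548)]) (33,[(4,7052),(3,24000),(0,23)]))) (.leaf false ⟨⟨-936,-143,108⟩,⟨28,-684,-663⟩,⟨177,-648,676⟩⟩ (408,[(1,75484),(3,411489),(0,143)]) (34,[(1,70194),(3,10847),(0,57)]) (17,[(1,11080),(3,2580),(0,27)])))))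
theorem h953_ok : h953.check (ok 953 4 ⟨3, 3, 3⟩) (fun _ r => r) [] = true := by decide +kernel

def h961 : T := .node ⟨1,0,0⟩ (.node ⟨0,1,0⟩ (.node ⟨0,0,1⟩ (.leaf false ⟨⟨0,0,961⟩,⟨0,961,0⟩,⟨961,0,0⟩⟩ (1,[(0,961)]) (1,[(1,961)]) (1,[(2,961)])) (.node ⟨-344,129,-888⟩ (.node ⟨-344,897,-24⟩ (.node ⟨24,952,129⟩ (.leaf false ⟨⟨-344,129,-888⟩,⟨24,952,129⟩,⟨897,24,-344⟩⟩ (1,[(2,1)]) (1,[(0,1)]) (43,[(3,7688),(5,41323),(2,8)])) (.leaf false ⟨⟨-852,196,-399⟩,⟨-56,-903,-324⟩,⟨441,264,-812⟩⟩ (3650,[(4,2482351),(1,8361),(0,9734)]) (43,[(5,184),(4,63987),(0,108)]) (129,[(5,76377),(4,807080),(0,812)]))) (.leaf false ⟨⟨-288,-39,-916⟩,⟨556,756,-207⟩,⟨729,-592,-204⟩⟩ (9288,[(3,59304),(1,9631),(0,1855)]) (12384,[(3,30022320),(1,3523),(0,23539)]) (12384,[(3,19015044),(1,3653),(0,29897)]))) (.leaf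 false ⟨⟨20,960,-39⟩,⟨561,20,780⟩,⟨780,-39,-560⟩⟩ (86,[(1,7794),(0,5),(2,83205)]) (344,[(1,229848),(0,561),(2,79249)]) (86,[(1,221320),(0,195),(2,21801)])))) (.node ⟨0,0,1⟩ (.node ⟨-344,-888,129⟩ (.node ⟨-344,-24,897⟩ (.node ⟨24,129,952⟩ (.leaf false ⟨⟨-344,-888,129⟩,⟨24,129,952⟩,⟨897,-344,24⟩⟩ (1,[(2,1)]) (1,[(0,1)]) (43,[(5,41323),(4,7688),(2,8)])) (.leaf false ⟨⟨-852,-399,196⟩,⟨-56,-324,-903⟩,⟨441,-812,264⟩⟩ (3650,[(3,2482351),(0,9734),(1,8361)]) (43,[(3,63987),(5,184),(0,108)]) (129,[(3,807080),(5,76377),(0,812)]))) (.leaf false ⟨⟨-288,-916,-39⟩,⟨556,-207,756⟩,⟨729,-204,-592⟩⟩ (9288,[(2,59304),(0,1855),(1,9631)]) (12384,[(2,30022320),(0,23539),(1,3523)]) (12384,[(2,19015044),(0,29897),(1,3653)]))) (.leaf false ⟨⟨20,-39,960⟩,⟨561,780,20⟩,⟨780,-560,-39⟩⟩ (86,[(1,83205),(0,5),(2,7794)])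 (344,[(1,79249),(0,561),(2,229848)]) (86,[(1,21801),(0,195),(2,221320)]))) (.node ⟨-360,-839,-300⟩ (.node ⟨177,196,-924⟩ (.node ⟨857,-276,336⟩ (.leaf false ⟨⟨-204,-911,-228⟩,⟨384,132,-871⟩,⟨857,-276,336⟩⟩ (25,[(5,1740),(4,6834),(2,19)]) (49,[(3,12187),(1,33),(5,12975)]) (1,[(0,1)])) (.leaf false ⟨⟨-852,196,-399⟩,⟨-56,-903,-324⟩,⟨441,264,-812⟩⟩ (16,[(5,2651),(4,2108),(0,19)]) (28,[(5,21571),(4,32736),(0,27)]) (12,[(5,30145),(4,4836),(0,29)]))) (.leaf false ⟨⟨-592,-756,-39⟩,⟨204,-207,916⟩,⟨729,-556,-288⟩⟩ (7,[(2,25221),(4,635),(0,27)]) (196,[(2,11732),(4,76623),(0,207)]) (49,[(2,142548),(4,60324),(0,139)]))) (.leaf false ⟨⟨52,-591,-756⟩,⟨624,596,-423⟩,⟨729,-468,416⟩⟩ (90,[(1,71940),(0,13),(2,64097)]) (15,[(1,14145),(0,26),(2,12874)]) (40,[(1,7660),(0,81),(2,86679)]))))) (.node ⟨0,1,0⟩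 (.node ⟨0,0,1⟩ (.node ⟨-888,-344,129⟩ (.node ⟨-24,-344,897⟩ (.node ⟨129,24,952⟩ (.leaf false ⟨⟨-888,-344,129⟩,⟨-344,897,24⟩,⟨129,24,952⟩⟩ (1,[(2,1)]) (43,[(2,8),(5,7688),(4,41323)]) (1,[(0,1)])) (.leaf false ⟨⟨-924,-264,-7⟩,⟨-252,889,-264⟩,⟨-79,252,924⟩⟩ (365,[(3,2380034),(1,99),(0,2596)]) (43,[(3,68616),(0,84),(4,40243)]) (129,[(3,194404),(0,79),(4,34404)]))) (.leaf false ⟨⟨-960,-39,20⟩,⟨-39,560,-780⟩,⟨-20,780,561⟩⟩ (12384,[(2,9526020),(1,13721),(0,12317)]) (4128,[(2,3094464),(1,373),(0,7093)]) (2322,[(2,6178947),(1,200),(0,5465)]))) (.leaf false ⟨⟨-924,252,-79⟩,⟨-7,264,924⟩,⟨264,889,-252⟩⟩ (86,[(1,1333),(3,135408),(0,63)]) (43,[(1,43989),(3,29605),(0,33)]) (344,[(1,27993),(3,698616),(0,889)]))) (.node ⟨-300,-360,-839⟩ (.node ⟨-924,177,196⟩ (.node ⟨336,857,-276⟩ (.leaf false ⟨⟨-924,177,196⟩,⟨-231,-196,-912⟩,⟨128,924,-231⟩⟩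 (1,[(1,1)]) (100,[(3,26597),(2,77),(4,8120)]) (21,[(3,2643),(4,12548),(0,8)])) (.leaf false ⟨⟨-930,-155,186⟩,⟨-186,930,-155⟩,⟨-155,-186,-930⟩⟩ (56,[(3,32364),(0,155),(4,124155)]) (56,[(3,17236),(0,31),(4,78647)]) (336,[(3,355260),(0,155),(4,70339)]))) (.leaf false ⟨⟨-960,25,-36⟩,⟨25,-336,-900⟩,⟨36,900,-335⟩⟩ (49,[(4,55356),(3,2818),(0,9)]) (49,[(4,206675),(3,23361),(0,225)]) (196,[(4,302484),(3,235695),(0,335)]))) (.leaf false ⟨⟨-916,204,-207⟩,⟨-39,592,756⟩,⟨288,729,-556⟩⟩ (30,[(1,20473),(3,32580),(0,17)]) (45,[(1,28066),(3,23955),(0,74)]) (40,[(1,90199),(3,12780),(0,81)])))) (.node ⟨0,0,1⟩ (.node ⟨-300,-839,-360⟩ (.node ⟨-924,196,177⟩ (.node ⟨336,-276,857⟩ (.leaf false ⟨⟨-924,196,177⟩,⟨-231,-912,-196⟩,⟨128,-231,924⟩⟩ (1,[(1,1)]) (100,[(3,8120),(2,77),(4,26597)]) (21,[(3,12548),(4,2643),(0,8)]))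 (.leaf false ⟨⟨-930,186,-155⟩,⟨-186,-155,930⟩,⟨-155,-930,-186⟩⟩ (56,[(3,124155),(0,155),(4,32364)]) (56,[(3,78647),(0,31),(4,17236)]) (336,[(3,70339),(0,155),(4,355260)]))) (.leaf false ⟨⟨-960,-36,25⟩,⟨25,-900,-336⟩,⟨36,-335,900⟩⟩ (49,[(2,2818),(4,55356),(0,9)]) (49,[(2,23361),(4,206675),(0,225)]) (196,[(2,235695),(4,302484),(0,335)]))) (.leaf false ⟨⟨-916,-207,204⟩,⟨-39,756,592⟩,⟨288,-556,729⟩⟩ (30,[(3,32580),(2,20473),(0,17)]) (45,[(3,23955),(2,28066),(0,74)]) (40,[(3,12780),(2,90199),(0,81)]))) (.node ⟨-519,484,-648⟩ (.node ⟨-519,-648,484⟩ (.node ⟨-808,-276,441⟩ (.leaf false ⟨⟨-808,-276,441⟩,⟨-519,484,-648⟩,⟨-36,-783,-556⟩⟩ (1,[(0,1)]) (1,[(2,1)]) (173,[(3,101996),(1,12),(4,127683)])) (.leaf false ⟨⟨-924,-263,-24⟩,⟨-108,456,-839⟩,⟨241,-804,-468⟩⟩ (1132,[(2,871),(5,17829),(1,1110)])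 (12682,[(5,21798427),(1,2539),(0,26914)]) (12682,[(5,22643829),(1,40311),(0,57700)]))) (.leaf false ⟨⟨-924,-263,-24⟩,⟨-108,456,-839⟩,⟨241,-804,-468⟩⟩ (121,[(4,114918),(3,35711),(0,6)]) (484,[(4,487713),(3,322968),(0,839)]) (121,[(4,31562),(3,173100),(0,117)]))) (.leaf false ⟨⟨-924,-263,24⟩,⟨108,-456,-839⟩,⟨241,-804,468⟩⟩ (484,[(1,158808),(3,583713),(0,263)]) (121,[(1,175391),(3,46098),(0,114)]) (121,[(1,73620),(3,75158),(0,201)])))))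
theorem h961_ok : h961.check (ok 961 4 ⟨3, 3, 3⟩) (fun _ r => r) [] = true := by decide +kernel

def h967 : T := .node ⟨1,0,0⟩ (.node ⟨0,1,0⟩ (.node ⟨0,0,1⟩ (.node ⟨-462,294,797⟩ (.node ⟨282,861,-338⟩ (.node ⟨878,-138,381⟩ (.leaf false ⟨⟨-291,418,822⟩,⟨282,861,-338⟩,⟨878,-138,381⟩⟩ (154,[(3,49279),(4,35854),(2,97)]) (1,[(1,1)]) (1,[(0,1)])) (.leaf false ⟨⟨-954,157,-18⟩,⟨77,558,786⟩,⟨138,774,-563⟩⟩ (138,[(3,57333),(5,6194),(0,157)]) (23,[(3,53511),(5,83425),(0,93)]) (23,[(3,36200),(5,116436),(0,129)]))) (.leaf false ⟨⟨-570,270,733⟩,⟨445,858,30⟩,⟨642,-355,630⟩⟩ (338,[(4,14046),(3,722373),(0,733)]) (169,[(4,79435),(3,157917),(0,15)]) (169,[(4,197328),(3,211220),(0,315)]))) (.leaf false ⟨⟨13,966,42⟩,⟨546,-42,797⟩,⟨798,13,-546⟩⟩ (462,[(1,29765),(0,13),(2,450114)]) (11,[(1,19128),(0,13),(2,3360)])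 (11,[(1,9137),(0,19),(2,5729)]))) (.node ⟨-126,957,-58⟩ (.node ⟨957,-126,-58⟩ (.node ⟨-590,333,-690⟩ (.node ⟨126,957,58⟩ (.leaf false ⟨⟨-58,66,-963⟩,⟨126,957,58⟩,⟨957,-122,-66⟩⟩ (111,[(4,91713),(6,6542),(1,22)]) (1,[(0,1)]) (63,[(4,620),(2,61),(6,1914)])) (.leaf false ⟨⟨-851,-138,-438⟩,⟨222,-931,-138⟩,⟨402,222,-851⟩⟩ (29,[(6,2915),(5,205581),(0,219)]) (29,[(6,15132),(5,39034),(0,69)]) (58,[(6,130542),(5,827283),(0,851)]))) (.leaf false ⟨⟨-94,957,-102⟩,⟨642,-14,-723⟩,⟨717,138,634⟩⟩ (10889,[(3,906460),(0,638),(2,11111)]) (261336,[(3,394343024),(0,306315),(2,102763)]) (174224,[(3,45169928),(0,234519),(2,106727)]))) (.leaf false ⟨⟨-931,258,42⟩,⟨42,301,-918⟩,⟨258,882,301⟩⟩ (21,[(2,1612),(4,21600),(0,43)]) (18,[(2,19018),(4,41907),(0,43)]) (1,[(2,105),(4,6957),(0,7)]))) (.leaf false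 ⟨⟨18,786,-563⟩,⟨157,-558,-774⟩,⟨954,77,138⟩⟩ (7,[(1,3999),(0,1),(2,6459)]) (126,[(1,106630),(0,157),(2,79941)]) (7,[(1,2108),(0,53),(2,51260)])))) (.node ⟨0,0,1⟩ (.node ⟨-126,-58,957⟩ (.node ⟨957,-58,-126⟩ (.node ⟨-590,-690,333⟩ (.node ⟨126,58,957⟩ (.leaf false ⟨⟨-58,-963,66⟩,⟨126,58,957⟩,⟨957,-66,-122⟩⟩ (111,[(6,6542),(5,91713),(1,22)]) (1,[(0,1)]) (63,[(6,1914),(2,61),(5,620)])) (.leaf false ⟨⟨-851,-438,-138⟩,⟨222,-138,-931⟩,⟨402,-851,222⟩⟩ (29,[(4,205581),(6,2915),(0,219)]) (29,[(4,39034),(6,15132),(0,69)]) (58,[(4,827283),(6,130542),(0,851)]))) (.leaf false ⟨⟨-94,-102,957⟩,⟨642,-723,-14⟩,⟨717,634,138⟩⟩ (10889,[(4,906460),(2,11111),(0,638)]) (261336,[(4,394343024),(2,102763),(0,306315)]) (174224,[(4,45169928),(2,106727),(0,234519)]))) (.leaf false ⟨⟨-931,42,258⟩,⟨42,-918,301⟩,⟨258,301,882⟩⟩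 (21,[(4,21600),(3,1612),(0,43)]) (18,[(4,41907),(3,19018),(0,43)]) (1,[(4,6957),(3,105),(0,7)]))) (.leaf false ⟨⟨18,-563,786⟩,⟨157,-774,-558⟩,⟨954,138,77⟩⟩ (7,[(1,6459),(0,1),(2,3999)]) (126,[(1,79941),(0,157),(2,106630)]) (7,[(1,51260),(0,53),(2,2108)]))) (.node ⟨882,-258,301⟩ (.node ⟨-387,-654,-598⟩ (.node ⟨546,338,-723⟩ (.leaf false ⟨⟨-387,-654,-598⟩,⟨546,338,-723⟩,⟨698,-627,234⟩⟩ (1,[(1,1)]) (1,[(0,1)]) (301,[(5,3710),(2,234),(4,128355)])) (.leaf false ⟨⟨-798,-526,-147⟩,⟨266,-147,-918⟩,⟨477,-798,266⟩⟩ (169,[(3,214992),(5,8736),(0,263)]) (338,[(3,416565),(5,170170),(0,147)]) (169,[(3,243523),(5,298467),(0,399)]))) (.leaf false ⟨⟨42,-966,13⟩,⟨546,13,-798⟩,⟨797,42,546⟩⟩ (129,[(2,6695),(0,14),(3,133770)]) (129,[(2,211778),(0,182),(3,117351)]) (387,[(2,265304),(0,797),(3,504984)])))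 (.leaf false ⟨⟨-906,-3,-338⟩,⟨58,-954,-147⟩,⟨333,158,-894⟩⟩ (301,[(3,25410),(2,88107),(0,338)]) (43,[(3,21016),(2,46440),(0,21)]) (301,[(3,888741),(2,183094),(0,894)]))))) (.node ⟨0,1,0⟩ (.node ⟨0,0,1⟩ (.node ⟨-58,957,-126⟩ (.node ⟨-58,-126,957⟩ (.node ⟨-690,-590,333⟩ (.node ⟨58,126,957⟩ (.leaf false ⟨⟨-963,-58,66⟩,⟨-66,957,-122⟩,⟨58,126,957⟩⟩ (111,[(1,22),(6,91713),(5,6542)]) (63,[(6,620),(3,61),(5,1914)]) (1,[(0,1)])) (.leaf false ⟨⟨-963,-66,-58⟩,⟨-66,122,957⟩,⟨-58,957,-126⟩⟩ (58,[(4,918227),(0,963),(5,117510)]) (29,[(4,59334),(0,33),(5,7696)]) (1,[(4,831),(0,1),(5,1083)]))) (.leaf false ⟨⟨-963,66,58⟩,⟨58,957,-126⟩,⟨66,122,957⟩⟩ (261336,[(1,28099),(5,274348976),(0,35235)]) (174224,[(1,81447),(5,192164872),(0,299991)]) (21778,[(1,25219),(5,3923360),(0,9889)]))) (.leaf false ⟨⟨-966,42,13⟩,⟨13,546,-798⟩,⟨42,797,546⟩⟩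 (3,[(2,996),(4,2956),(0,1)]) (3,[(2,10047),(4,715),(0,13)]) (126,[(2,831525),(4,40934),(0,797)]))) (.leaf false ⟨⟨-966,13,42⟩,⟨13,-798,546⟩,⟨42,546,797⟩⟩ (3,[(3,2956),(2,996),(0,1)]) (3,[(3,715),(2,10047),(0,13)]) (126,[(3,40934),(2,831525),(0,797)]))) (.node ⟨-258,882,301⟩ (.node ⟨-654,-387,-598⟩ (.node ⟨338,546,-723⟩ (.leaf false ⟨⟨-654,-387,-598⟩,⟨-627,698,234⟩,⟨338,546,-723⟩⟩ (1,[(1,1)]) (301,[(5,128355),(2,234),(4,3710)]) (1,[(0,1)])) (.leaf false ⟨⟨-931,-258,-42⟩,⟨-258,882,301⟩,⟨-42,301,-918⟩⟩ (338,[(3,687309),(0,931),(4,421122)]) (169,[(3,42398),(0,129),(4,219492)]) (169,[(3,170325),(0,21),(4,62335)]))) (.leaf false ⟨⟨-966,42,13⟩,⟨13,546,-798⟩,⟨42,797,546⟩⟩ (129,[(2,6695),(4,133770),(0,14)]) (129,[(2,211778),(4,117351),(0,182)]) (387,[(2,265304),(4,504984),(0,797)]))) (.leaf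 false ⟨⟨-963,-18,-86⟩,⟨18,886,-387⟩,⟨86,-387,-882⟩⟩ (7,[(3,7257),(2,1638),(0,2)]) (7,[(3,2196),(2,14140),(0,9)]) (43,[(3,28810),(2,94491),(0,126)])))) (.node ⟨0,0,1⟩ (.node ⟨-258,301,882⟩ (.node ⟨-654,-598,-387⟩ (.node ⟨338,-723,546⟩ (.leaf false ⟨⟨-654,-598,-387⟩,⟨-627,234,698⟩,⟨338,-723,546⟩⟩ (1,[(1,1)]) (301,[(3,3710),(2,234),(5,128355)]) (1,[(0,1)])) (.leaf false ⟨⟨-931,-42,-258⟩,⟨-258,301,882⟩,⟨-42,-918,301⟩⟩ (338,[(3,421122),(0,931),(4,687309)]) (169,[(3,219492),(0,129),(4,42398)]) (169,[(3,62335),(0,21),(4,170325)]))) (.leaf false ⟨⟨-966,13,42⟩,⟨13,-798,546⟩,⟨42,546,797⟩⟩ (129,[(4,133770),(3,6695),(0,14)]) (129,[(4,117351),(3,211778),(0,182)]) (387,[(4,504984),(3,265304),(0,797)]))) (.leaf false ⟨⟨-963,-86,-18⟩,⟨18,-387,886⟩,⟨86,-882,-387⟩⟩ (7,[(1,1638),(3,7257),(0,2)])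 (7,[(1,14140),(3,2196),(0,9)]) (43,[(1,94491),(3,28810),(0,126)]))) (.leaf false ⟨⟨-967,0,0⟩,⟨0,-967,0⟩,⟨0,0,-967⟩⟩ (1,[(2,967)]) (1,[(1,967)]) (1,[(0,967)]))))
theorem h967_ok : h967.check (ok 967 4 ⟨3, 3, 3⟩) (fun _ r => r) [] = true := by decide +kernel

def h971 : T := .node ⟨1,0,0⟩ (.node ⟨0,1,0⟩ (.node ⟨0,0,1⟩ (.node ⟨-87,-46,966⟩ (.node ⟨-46,969,42⟩ (.leaf false ⟨⟨-87,-46,966⟩,⟨-46,969,42⟩,⟨966,42,89⟩⟩ (1,[(1,1)]) (1,[(0,1)]) (966,[(4,940899),(3,44666),(1,89)])) (.leaf false ⟨⟨-87,46,966⟩,⟨46,969,-42⟩,⟨966,-42,89⟩⟩ (1,[(3,92),(1,1)]) (1,[(3,1938),(0,1)]) (42,[(3,939313),(1,46),(0,969)]))) (.node ⟨-186,937,-174⟩ (.leaf false ⟨⟨-186,937,-174⟩,⟨489,246,802⟩,⟨818,66,-519⟩⟩ (1,[(0,1)]) (23,[(2,137264),(4,546),(1,123)]) (23,[(2,19941),(4,15943),(1,33)])) (.leaf false ⟨⟨6,969,-62⟩,⟨186,-62,-951⟩,⟨953,6,186⟩⟩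 (29,[(2,134),(1,2),(3,28009)]) (1201,[(2,921705),(0,186),(1,2170)]) (32469,[(0,156130),(1,21871),(3,145482558)])))) (.node ⟨-186,62,-951⟩ (.node ⟨6,953,186⟩ (.leaf false ⟨⟨-186,62,-951⟩,⟨6,969,62⟩,⟨953,6,-186⟩⟩ (1,[(1,1)]) (29605,[(2,3748060),(0,30101),(1,16)]) (31,[(2,2913),(4,30101),(1,3)])) (.leaf false ⟨⟨-98,654,-711⟩,⟨9,-714,-658⟩,⟨966,73,-66⟩⟩ (317,[(4,13016),(3,192624),(1,237)]) (93,[(4,2811),(3,247135),(0,329)]) (31,[(4,30012),(3,12746),(0,11)]))) (.leaf false ⟨⟨6,969,-62⟩,⟨186,-62,-951⟩,⟨953,6,186⟩⟩ (31,[(1,2873),(0,1),(2,30101)]) (1,[(1,1902),(0,1)]) (186,[(1,871707),(0,953),(2,60202)])))) (.node ⟨0,0,1⟩ (.node ⟨-186,-951,62⟩ (.node ⟨6,186,953⟩ (.leaf false ⟨⟨-186,-951,62⟩,⟨6,62,969⟩,⟨953,-186,6⟩⟩ (1,[(1,1)]) (29605,[(3,3748060),(1,16),(0,30101)]) (31,[(4,30101),(3,2913),(1,3)]))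 (.leaf false ⟨⟨-98,-711,654⟩,⟨9,-658,-714⟩,⟨966,-66,73⟩⟩ (317,[(2,192624),(4,13016),(1,237)]) (93,[(2,247135),(4,2811),(0,329)]) (31,[(2,12746),(4,30012),(0,11)]))) (.leaf false ⟨⟨6,-62,969⟩,⟨186,-951,-62⟩,⟨953,186,6⟩⟩ (31,[(1,30101),(0,1),(2,2873)]) (1,[(0,1),(2,1902)]) (186,[(1,60202),(0,953),(2,871707)]))) (.node ⟨42,-966,89⟩ (.node ⟨42,89,-966⟩ (.node ⟨746,-210,585⟩ (.node ⟨969,46,42⟩ (.leaf false ⟨⟨42,-966,89⟩,⟨46,-87,-966⟩,⟨969,46,42⟩⟩ (1,[(3,1)]) (373,[(4,373773),(1,23),(5,27621)]) (1,[(0,1)])) (.leaf false ⟨⟨-966,-98,9⟩,⟨66,-711,-658⟩,⟨73,-654,714⟩⟩ (1191,[(6,527560),(1,151),(0,1848)]) (3441,[(2,29),(6,51817386),(0,53242)]) (5955,[(6,30508898),(1,10052),(0,38775)]))) (.leaf false ⟨⟨-666,-199,-678⟩,⟨314,-918,-39⟩,⟨633,246,-694⟩⟩ (546420,[(5,127018504),(2,258795),(0,672659)])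 (45535,[(5,19810928),(2,45435),(0,9948)]) (18214,[(5,27653182),(2,61),(0,21617)]))) (.leaf false ⟨⟨-354,-791,438⟩,⟨297,-546,-746⟩,⟨854,-138,441⟩⟩ (89,[(2,725124),(4,1716),(0,791)]) (89,[(2,593830),(4,49365),(0,546)]) (89,[(2,94059),(4,81802),(0,138)]))) (.leaf false ⟨⟨-354,438,-791⟩,⟨297,-746,-546⟩,⟨854,441,-138⟩⟩ (89,[(3,1716),(2,725124),(0,791)]) (89,[(3,49365),(2,593830),(0,546)]) (89,[(3,81802),(2,94059),(0,138)]))))) (.node ⟨0,1,0⟩ (.node ⟨0,0,1⟩ (.node ⟨-951,-186,62⟩ (.node ⟨186,6,953⟩ (.leaf false ⟨⟨-951,-186,62⟩,⟨-186,953,6⟩,⟨62,6,969⟩⟩ (1,[(1,1)]) (31,[(1,3),(4,2913),(3,30101)]) (29605,[(1,16),(4,3748060),(0,30101)])) (.leaf false ⟨⟨-951,-62,-186⟩,⟨-186,-6,953⟩,⟨-62,969,-6⟩⟩ (4815,[(2,17774470),(1,971),(0,19654)]) (1,[(2,1906),(0,1)]) (3,[(2,935),(0,1),(3,2913)]))) (.leaf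 false ⟨⟨-951,186,-62⟩,⟨-62,6,969⟩,⟨186,953,6⟩⟩ (1,[(3,1902),(0,1)]) (31,[(1,30101),(3,2873),(0,1)]) (186,[(1,60202),(3,871707),(0,953)]))) (.node ⟨-966,42,89⟩ (.node ⟨89,42,-966⟩ (.node ⟨-210,746,585⟩ (.node ⟨46,969,42⟩ (.leaf false ⟨⟨-966,42,89⟩,⟨-87,46,-966⟩,⟨46,969,42⟩⟩ (1,[(3,1)]) (373,[(4,373773),(6,27621),(1,23)]) (1,[(0,1)])) (.leaf false ⟨⟨-966,-42,89⟩,⟨-87,-46,-966⟩,⟨-46,969,-42⟩⟩ (17865,[(1,22333),(5,247329742),(0,273210)]) (1147,[(5,3828968),(2,971),(0,4048)]) (1,[(5,1938),(0,1)]))) (.leaf false ⟨⟨-966,-46,-87⟩,⟨-42,969,-46⟩,⟨89,-42,-966⟩⟩ (6505,[(2,6945),(4,918984),(0,2024)]) (13010,[(2,815),(4,13428122),(0,1147)]) (109284,[(2,30159),(4,132188456),(0,185047)]))) (.leaf false ⟨⟨-962,-126,-39⟩,⟨-126,793,546⟩,⟨-39,546,-802⟩⟩ (89,[(2,932763),(0,962),(3,29190)]) (89,[(2,73122),(0,126),(3,75869)])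 (89,[(2,109052),(0,39),(3,50232)]))) (.leaf false ⟨⟨-903,-126,-334⟩,⟨-46,942,-231⟩,⟨354,-199,-882⟩⟩ (89,[(3,403011),(2,2814),(0,334)]) (89,[(3,227240),(2,93540),(0,231)]) (89,[(3,820506),(2,19333),(0,882)])))) (.node ⟨0,0,1⟩ (.node ⟨89,-966,42⟩ (.node ⟨-966,89,42⟩ (.node ⟨-210,585,746⟩ (.node ⟨46,42,969⟩ (.leaf false ⟨⟨-966,-87,46⟩,⟨42,46,969⟩,⟨89,-966,42⟩⟩ (373,[(1,23),(6,355488),(5,45906)]) (118903,[(1,1938),(5,595454),(0,117411)]) (1,[(3,1)])) (.leaf false ⟨⟨-966,66,73⟩,⟨-98,-711,-654⟩,⟨9,-658,714⟩⟩ (5955,[(4,84039662),(1,7268),(0,91875)]) (16058,[(4,40114689),(0,52649),(3,9530)]) (3441,[(4,5816514),(0,3562),(3,2189)]))) (.leaf false ⟨⟨-966,-98,9⟩,⟨66,-711,-658⟩,⟨73,-654,714⟩⟩ (13010,[(3,2739946),(1,13945),(0,4301)]) (45535,[(3,11983036),(1,9225),(0,56746)]) (546420,[(3,852618392),(1,94635),(0,625267)])))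 (.leaf false ⟨⟨-903,-354,46⟩,⟨126,-199,942⟩,⟨334,-882,-231⟩⟩ (89,[(2,18962),(4,422331),(0,354)]) (89,[(2,92196),(4,181020),(0,199)]) (89,[(2,16485),(4,822286),(0,882)]))) (.leaf false ⟨⟨-962,-39,-126⟩,⟨-126,546,793⟩,⟨-39,-802,546⟩⟩ (89,[(1,29190),(0,962),(2,932763)]) (89,[(1,75869),(0,126),(2,73122)]) (89,[(1,50232),(0,39),(2,109052)]))) (.leaf false ⟨⟨-971,0,0⟩,⟨0,-971,0⟩,⟨0,0,-971⟩⟩ (1,[(2,971)]) (1,[(1,971)]) (1,[(0,971)]))))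
theorem h971_ok : h971.check (ok 971 4 ⟨3, 3, 3⟩) (fun _ r => r) [] = true := by decide +kernel

def h977 : T := .node ⟨1,0,0⟩ (.node ⟨0,1,0⟩ (.node ⟨0,0,1⟩ (.leaf false ⟨⟨0,0,977⟩,⟨0,977,0⟩,⟨977,0,0⟩⟩ (1,[(0,977)]) (1,[(1,977)]) (1,[(2,977)])) (.node ⟨-132,132,-959⟩ (.node ⟨96,873,428⟩ (.node ⟨972,-76,-63⟩ (.leaf false ⟨⟨-23,432,-876⟩,⟨96,873,428⟩,⟨972,-76,-63⟩⟩ (132,[(3,93575),(4,53988),(2,23)]) (1,[(1,1)]) (1,[(0,1)])) (.leaf false ⟨⟨-951,168,-148⟩,⟨72,841,492⟩,⟨212,468,-831⟩⟩ (19,[(3,5458),(5,22755),(0,42)]) (76,[(3,15591),(5,822924),(0,841)]) (19,[(3,23160),(5,117752),(0,117)]))) (.leaf false ⟨⟨-148,705,-660⟩,⟨105,-652,-720⟩,⟨960,180,-23⟩⟩ (107,[(4,4),(3,219480),(0,165)]) (107,[(4,28515),(3,87376),(0,180)]) (428,[(4,413088),(3,97119),(0,23)]))) (.leaf false ⟨⟨0,977,0⟩,⟨248,0,945⟩,⟨945,0,-248⟩⟩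 (1,[(2,977)]) (33,[(1,28273),(0,62),(2,8184)]) (44,[(1,312997),(0,315),(2,41580)])))) (.node ⟨0,0,1⟩ (.node ⟨-132,-959,132⟩ (.node ⟨96,428,873⟩ (.node ⟨972,-63,-76⟩ (.leaf false ⟨⟨-23,-876,432⟩,⟨96,428,873⟩,⟨972,-63,-76⟩⟩ (132,[(3,53988),(4,93575),(2,23)]) (1,[(1,1)]) (1,[(0,1)])) (.leaf false ⟨⟨-951,-148,168⟩,⟨72,492,841⟩,⟨212,-831,468⟩⟩ (19,[(5,22755),(4,5458),(0,42)]) (76,[(5,822924),(4,15591),(0,841)]) (19,[(5,117752),(4,23160),(0,117)]))) (.leaf false ⟨⟨-148,-660,705⟩,⟨105,-720,-652⟩,⟨960,-23,180⟩⟩ (107,[(2,219480),(4,4),(0,165)]) (107,[(2,87376),(4,28515),(0,180)]) (428,[(2,97119),(4,413088),(0,23)]))) (.leaf false ⟨⟨0,0,977⟩,⟨248,945,0⟩,⟨945,-248,0⟩⟩ (1,[(1,977)]) (33,[(1,8184),(0,62),(2,28273)]) (44,[(1,41580),(0,315),(2,312997)]))) (.node ⟨513,516,-652⟩ (.node ⟨873,-300,320⟩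 (.node ⟨-320,-855,-348⟩ (.leaf false ⟨⟨-320,-855,-348⟩,⟨300,252,-895⟩,⟨873,-400,180⟩⟩ (1,[(0,1)]) (43,[(3,24793),(2,21),(5,2127)]) (1,[(3,140),(1,1),(4,100)])) (.leaf false ⟨⟨76,-792,-567⟩,⟨513,516,-652⟩,⟨828,-247,456⟩⟩ (80,[(3,51972),(0,19),(4,79605)]) (320,[(3,387164),(0,513),(4,273495)]) (80,[(3,35556),(0,207),(4,196745)]))) (.leaf false ⟨⟨-887,216,-348⟩,⟨-36,-868,-447⟩,⟨408,393,-796⟩⟩ (80,[(4,4991),(3,8820),(0,87)]) (320,[(4,378711),(3,411860),(0,447)]) (80,[(4,206367),(3,28260),(0,199)]))) (.leaf false ⟨⟨-663,-716,48⟩,⟨428,-447,-756⟩,⟨576,-492,617⟩⟩ (129,[(1,110516),(3,6300),(0,179)]) (172,[(1,227180),(3,150053),(0,149)]) (43,[(1,201),(3,45801),(0,41)]))))) (.node ⟨0,1,0⟩ (.node ⟨0,0,1⟩ (.node ⟨-959,-132,132⟩ (.node ⟨428,96,873⟩ (.node ⟨-63,972,-76⟩ (.leaf false ⟨⟨-876,-23,432⟩,⟨-63,972,-76⟩,⟨428,96,873⟩⟩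 (132,[(3,53988),(2,23),(5,93575)]) (1,[(0,1)]) (1,[(1,1)])) (.leaf false ⟨⟨-975,-48,40⟩,⟨-40,960,177⟩,⟨48,-175,960⟩⟩ (19,[(5,19155),(4,8808),(0,10)]) (76,[(5,14191),(4,245004),(0,177)]) (19,[(5,14208),(4,229955),(0,240)]))) (.leaf false ⟨⟨-876,-23,-432⟩,⟨-428,-96,873⟩,⟨-63,972,76⟩⟩ (107,[(2,144963),(0,219),(3,18563)]) (1,[(2,1746),(0,1)]) (428,[(2,87527),(0,63),(3,422064)]))) (.leaf false ⟨⟨-972,76,-63⟩,⟨-23,432,876⟩,⟨96,873,-428⟩⟩ (33,[(1,429),(3,50297),(0,19)]) (11,[(1,14388),(3,34777),(0,36)]) (44,[(1,19580),(3,274845),(0,291)]))) (.node ⟨516,513,-652⟩ (.node ⟨-300,873,320⟩ (.node ⟨-855,-320,-348⟩ (.leaf false ⟨⟨-895,-180,-348⟩,⟨-300,873,320⟩,⟨252,400,-855⟩⟩ (1,[(0,1),(5,40),(4,140)]) (1,[(1,1)]) (43,[(3,23073),(4,6427),(2,21)])) (.leaf false ⟨⟨-951,168,-148⟩,⟨72,841,492⟩,⟨212,468,-831⟩⟩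 (40,[(3,13228),(5,55995),(0,21)]) (320,[(3,135228),(5,696015),(0,841)]) (80,[(3,107196),(5,83075),(0,117)]))) (.leaf false ⟨⟨-951,-168,-148⟩,⟨-72,841,-492⟩,⟨212,-468,-831⟩⟩ (80,[(4,87180),(3,18861),(0,37)]) (80,[(4,42660),(3,174659),(0,123)]) (320,[(4,181460),(3,575703),(0,831)]))) (.leaf false ⟨⟨-888,-72,401⟩,⟨-392,-111,-888⟩,⟨-111,968,-72⟩⟩ (43,[(1,31005),(0,74),(2,34866)]) (129,[(1,178448),(0,98),(2,35955)]) (172,[(1,36508),(0,37),(2,185477)])))) (.node ⟨0,0,1⟩ (.node ⟨516,-652,513⟩ (.node ⟨-300,320,873⟩ (.node ⟨-855,-348,-320⟩ (.leaf false ⟨⟨-895,-348,-180⟩,⟨-300,320,873⟩,⟨252,-855,400⟩⟩ (1,[(3,140),(5,40),(0,1)]) (1,[(1,1)]) (43,[(3,6427),(4,23073),(2,21)])) (.leaf false ⟨⟨-951,-148,168⟩,⟨72,492,841⟩,⟨212,-831,468⟩⟩ (40,[(5,55995),(4,13228),(0,21)]) (320,[(5,696015),(4,135228),(0,841)])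 (80,[(5,83075),(4,107196),(0,117)]))) (.leaf false ⟨⟨-951,-212,72⟩,⟨148,-831,-492⟩,⟨168,-468,841⟩⟩ (80,[(2,52029),(4,91980),(0,53)]) (320,[(2,568023),(4,201940),(0,831)]) (80,[(2,169421),(4,21660),(0,117)]))) (.leaf false ⟨⟨-888,401,-72⟩,⟨-392,-888,-111⟩,⟨-111,-72,968⟩⟩ (43,[(1,34866),(0,74),(2,31005)]) (129,[(1,35955),(0,98),(2,178448)]) (172,[(1,185477),(0,37),(2,36508)]))) (.node ⟨-40,177,-960⟩ (.node ⟨-959,132,132⟩ (.leaf false ⟨⟨-975,40,48⟩,⟨-48,-960,-175⟩,⟨-40,177,-960⟩⟩ (959,[(2,82668),(0,975),(3,90340)]) (959,[(2,174161),(0,48),(3,926976)]) (1,[(1,1)])) (.leaf false ⟨⟨-968,9,-132⟩,⟨9,-968,-132⟩,⟨132,132,-959⟩⟩ (80,[(1,11),(4,77000),(3,1227)]) (1,[(4,950),(3,836),(0,1)]) (50028,[(1,48004),(4,5229163),(0,14341)]))) (.leaf false ⟨⟨-968,-132,9⟩,⟨9,-132,-968⟩,⟨132,-959,132⟩⟩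 (59,[(1,41709),(3,58872),(0,44)]) (59,[(1,99352),(3,1229),(0,44)]) (177,[(1,897276),(3,14996),(0,959)])))))
theorem h977_ok : h977.check (ok 977 4 ⟨3, 3, 3⟩) (fun _ r => r) [] = true := by decide +kernel

def h983 : T := .node ⟨1,0,0⟩ (.node ⟨0,1,0⟩ (.node ⟨0,0,1⟩ (.node ⟨-222,34,957⟩ (.node ⟨-222,954,-83⟩ (.leaf false ⟨⟨-222,34,957⟩,⟨-83,978,-54⟩,⟨954,93,218⟩⟩ (1,[(1,1)]) (159,[(2,4943),(4,22989),(0,163)]) (318,[(2,71897),(4,310254),(0,31)])) (.leaf false ⟨⟨-54,-83,978⟩,⟨218,954,93⟩,⟨957,-222,34⟩⟩ (2960,[(3,1681160),(1,2841),(0,2121)]) (319,[(4,76424),(3,303272),(1,31)]) (83,[(4,71883),(3,14010),(0,34)]))) (.leaf false ⟨⟨78,978,61⟩,⟨621,-2,-762⟩,⟨758,-99,618⟩⟩ (37,[(1,14698),(0,13),(2,36628)]) (74,[(1,141711),(0,207),(2,6890)]) (111,[(1,431301),(0,379),(2,1897)]))) (.node ⟨-198,174,-947⟩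 (.node ⟨957,106,198⟩ (.node ⟨142,957,174⟩ (.node ⟨957,-106,-198⟩ (.leaf false ⟨⟨-174,198,-947⟩,⟨142,957,174⟩,⟨957,-106,-198⟩⟩ (33,[(4,3788),(5,1488),(3,29)]) (1,[(1,1)]) (1,[(0,1)])) (.leaf false ⟨⟨-954,173,162⟩,⟨-2,666,-723⟩,⟨237,702,646⟩⟩ (106,[(4,17082),(6,64437),(0,173)]) (53,[(4,104253),(6,318575),(0,333)]) (53,[(4,35260),(6,348468),(0,351)]))) (.leaf false ⟨⟨-582,-243,-754⟩,⟨317,786,-498⟩,⟨726,-538,-387⟩⟩ (69201,[(1,2900),(4,273011404),(0,303171)]) (2563,[(1,2331),(4,11325948),(0,9988)]) (5126,[(1,6714),(4,14752765),(0,19041)]))) (.leaf false ⟨⟨-947,-54,-258⟩,⟨54,902,-387⟩,⟨258,-387,-866⟩⟩ (33,[(4,9900),(3,2776),(0,43)]) (22,[(4,42339),(3,24402),(0,43)]) (99,[(4,439923),(3,7585),(0,433)]))) (.leaf false ⟨⟨2,978,-99⟩,⟨621,-78,-758⟩,⟨762,61,618⟩⟩ (99,[(1,10748),(0,1),(2,96996)])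 (22,[(1,82019),(0,69),(2,10290)]) (33,[(1,99875),(0,127),(2,24111)])))) (.node ⟨0,0,1⟩ (.node ⟨-198,-947,174⟩ (.node ⟨957,198,106⟩ (.node ⟨142,174,957⟩ (.node ⟨957,-198,-106⟩ (.leaf false ⟨⟨-174,-947,198⟩,⟨142,174,957⟩,⟨957,-198,-106⟩⟩ (33,[(4,1488),(5,3788),(3,29)]) (1,[(1,1)]) (1,[(0,1)])) (.leaf false ⟨⟨-954,-83,222⟩,⟨93,-978,34⟩,⟨218,54,957⟩⟩ (53,[(6,55665),(5,26377),(0,111)]) (53,[(6,21198),(5,55200),(0,17)]) (106,[(6,938957),(5,183762),(0,957)]))) (.leaf false ⟨⟨-582,-771,-182⟩,⟨258,-398,861⟩,⟨749,-462,-438⟩⟩ (46134,[(3,189926293),(1,2738),(0,207537)]) (69201,[(3,260905082),(1,50704),(0,215985)]) (7689,[(3,26869922),(1,10885),(0,32802)]))) (.leaf false ⟨⟨-947,-258,-54⟩,⟨54,-387,902⟩,⟨258,-866,-387⟩⟩ (33,[(2,2776),(4,9900),(0,43)]) (22,[(2,24402),(4,42339),(0,43)]) (99,[(2,7585),(4,439923),(0,433)])))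 (.leaf false ⟨⟨2,-99,978⟩,⟨621,-758,-78⟩,⟨762,618,61⟩⟩ (99,[(1,96996),(0,1),(2,10748)]) (22,[(1,10290),(0,69),(2,82019)]) (33,[(1,24111),(0,127),(2,99875)]))) (.node ⟨-222,-954,-83⟩ (.node ⟨-387,-54,-902⟩ (.node ⟨-34,93,-978⟩ (.leaf false ⟨⟨-222,-954,-83⟩,⟨-34,93,-978⟩,⟨957,-218,-54⟩⟩ (1,[(2,1)]) (1,[(0,1)]) (163,[(5,156297),(4,36371),(0,9)])) (.leaf false ⟨⟨-894,-398,93⟩,⟨258,-723,-614⟩,⟨317,-534,762⟩⟩ (37827,[(3,12705641),(0,105750),(1,96674)]) (22783,[(5,51661046),(0,103165),(1,127366)]) (31,[(3,150462),(5,3775),(0,178)]))) (.leaf false ⟨⟨-174,-798,-547⟩,⟨237,-574,762⟩,⟨938,-3,-294⟩⟩ (3969,[(2,2006750),(0,124),(1,3327)]) (59535,[(2,4531124),(0,58921),(1,39156)]) (39690,[(2,100941833),(0,99502),(1,5757)]))) (.leaf false ⟨⟨34,93,-978⟩,⟨222,-954,-83⟩,⟨957,218,54⟩⟩ (111,[(1,109969),(0,17),(2,5895)])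 (1,[(1,166),(0,1),(2,1908)]) (74,[(1,22481),(0,319),(2,288194)]))))) (.node ⟨0,1,0⟩ (.node ⟨0,0,1⟩ (.node ⟨-947,-198,174⟩ (.node ⟨198,957,106⟩ (.node ⟨174,142,957⟩ (.node ⟨-198,957,-106⟩ (.leaf false ⟨⟨-947,-174,198⟩,⟨-198,957,-106⟩,⟨174,142,957⟩⟩ (33,[(4,1488),(3,29),(6,3788)]) (1,[(0,1)]) (1,[(1,1)])) (.leaf false ⟨⟨-978,-83,54⟩,⟨34,222,957⟩,⟨93,-954,218⟩⟩ (53,[(6,57180),(5,21440),(0,27)]) (106,[(6,185882),(5,939381),(0,957)]) (53,[(6,16653),(5,53751),(0,109)]))) (.leaf false ⟨⟨-978,-78,61⟩,⟨-99,758,-618⟩,⟨-2,621,762⟩⟩ (23067,[(3,146013452),(0,153417),(1,20884)]) (46134,[(3,44432101),(0,81609),(1,48650)]) (69201,[(3,106740500),(0,62436),(1,54169)]))) (.leaf false ⟨⟨-966,162,-83⟩,⟨-182,-867,426⟩,⟨-3,434,882⟩⟩ (33,[(2,14327),(0,161),(3,159423)]) (99,[(2,51820),(0,91),(3,1254)])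 (66,[(2,58318),(0,1),(3,29601)]))) (.leaf false ⟨⟨-947,198,174⟩,⟨174,957,-142⟩,⟨198,106,957⟩⟩ (1,[(1,348),(3,1894),(0,1)]) (6,[(1,4194),(3,26419),(0,29)]) (99,[(1,103965),(3,30589),(0,53)]))) (.node ⟨-83,-222,-954⟩ (.node ⟨-902,-387,-54⟩ (.node ⟨-978,-34,93⟩ (.leaf false ⟨⟨-978,-34,93⟩,⟨-83,-222,-954⟩,⟨-54,957,-218⟩⟩ (1,[(0,1)]) (1,[(2,1)]) (163,[(3,36371),(0,9),(4,156297)])) (.leaf false ⟨⟨-979,-42,-78⟩,⟨42,542,-819⟩,⟨78,-819,-538⟩⟩ (12609,[(1,2186),(5,19473707),(0,9306)]) (31,[(5,265692),(4,7520),(0,273)]) (68349,[(1,259455),(4,36109958),(0,244744)]))) (.leaf false ⟨⟨-954,222,-83⟩,⟨93,34,-978⟩,⟨218,957,54⟩⟩ (119070,[(1,14703),(4,181590107),(0,76738)]) (19845,[(1,21129),(4,8906036),(0,13864)]) (1323,[(1,114),(4,2712098),(0,3337)]))) (.leaf false ⟨⟨-978,34,93⟩,⟨-83,222,-954⟩,⟨54,957,218⟩⟩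 (111,[(1,5895),(3,109969),(0,17)]) (1,[(1,1908),(3,166),(0,1)]) (74,[(1,288194),(3,22481),(0,319)])))) (.node ⟨0,0,1⟩ (.node ⟨-83,-954,-222⟩ (.node ⟨-902,-54,-387⟩ (.node ⟨-978,93,-34⟩ (.leaf false ⟨⟨-978,93,-34⟩,⟨-83,-954,-222⟩,⟨-54,-218,957⟩⟩ (1,[(0,1)]) (1,[(2,1)]) (163,[(3,156297),(0,9),(4,36371)])) (.leaf false ⟨⟨-979,-78,-42⟩,⟨42,-819,542⟩,⟨78,-538,-819⟩⟩ (45566,[(3,19473707),(1,55777),(0,5830)]) (31,[(3,7520),(5,265692),(0,273)]) (68349,[(3,36109958),(1,259455),(0,244744)]))) (.leaf false ⟨⟨-954,-83,222⟩,⟨93,-978,34⟩,⟨218,54,957⟩⟩ (119070,[(4,181590107),(1,14703),(0,76738)]) (19845,[(4,8906036),(1,21129),(0,13864)]) (1323,[(4,2712098),(1,114),(0,3337)]))) (.leaf false ⟨⟨-978,93,34⟩,⟨-83,-954,222⟩,⟨54,218,957⟩⟩ (111,[(3,109969),(2,5895),(0,17)]) (1,[(3,166),(2,1908),(0,1)])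 (74,[(3,22481),(2,288194),(0,319)]))) (.leaf false ⟨⟨-983,0,0⟩,⟨0,-983,0⟩,⟨0,0,-983⟩⟩ (1,[(2,983)]) (1,[(1,983)]) (1,[(0,983)]))))
theorem h983_ok : h983.check (ok 983 4 ⟨3, 3, 3⟩) (fun _ r => r) [] = true := by decide +kernel

def h991 : T := .node ⟨1,0,0⟩ (.node ⟨0,1,0⟩ (.node ⟨0,0,1⟩ (.node ⟨-267,126,946⟩ (.node ⟨-26,954,-267⟩ (.leaf false ⟨⟨-267,126,946⟩,⟨-26,981,-138⟩,⟨954,62,261⟩⟩ (1,[(1,1)]) (106,[(2,14475),(4,78),(0,109)]) (477,[(2,132774),(4,455864),(0,31)])) (.leaf false ⟨⟨-226,246,933⟩,⟨618,-699,334⟩,⟨741,658,6⟩⟩ (946,[(4,35315),(3,115158),(1,933)]) (267,[(4,156322),(3,132003),(0,334)]) (89,[(4,65897),(3,60470),(0,2)]))) (.leaf false ⟨⟨6,741,658⟩,⟨334,618,-699⟩,⟨933,-226,246⟩⟩ (89,[(1,60454),(0,2),(2,66201)]) (267,[(1,129331),(0,334),(2,207090)]) (89,[(1,316100),(0,311),(2,19072)])))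 (.node ⟨933,114,314⟩ (.node ⟨-330,930,-91⟩ (.node ⟨-114,933,314⟩ (.leaf false ⟨⟨-330,930,-91⟩,⟨341,30,-930⟩,⟨870,341,330⟩⟩ (1,[(1,1)]) (19,[(3,19240),(5,1814),(2,5)]) (18369,[(5,3163632),(2,14344),(0,4961)])) (.leaf false ⟨⟨-426,82,-891⟩,⟨566,789,-198⟩,⟨693,-594,-386⟩⟩ (20085153,[(2,1909632),(1,46972705),(0,45289744)]) (100425765,[(2,114416648),(1,193292016),(0,121724699)]) (33475255,[(2,30157447),(1,35995444),(0,60876756)]))) (.leaf false ⟨⟨114,69,-982⟩,⟨453,874,114⟩,⟨874,-462,69⟩⟩ (55,[(2,55739),(0,19),(3,21465)]) (110,[(2,1201),(0,151),(3,236570)]) (165,[(2,28382),(0,437),(3,330180)]))) (.leaf false ⟨⟨-798,234,-539⟩,⟨354,917,-126⟩,⟨469,-294,-822⟩⟩ (314,[(3,252315),(2,134922),(0,539)]) (157,[(3,114357),(2,151151),(0,63)]) (157,[(3,457096),(2,696),(0,411)])))) (.node ⟨0,0,1⟩ (.node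 ⟨933,314,114⟩ (.node ⟨-330,-91,930⟩ (.node ⟨-114,314,933⟩ (.leaf false ⟨⟨-330,-91,930⟩,⟨341,-930,30⟩,⟨870,330,341⟩⟩ (1,[(1,1)]) (19,[(2,5),(5,1814),(4,19240)]) (18369,[(2,14344),(5,3163632),(0,4961)])) (.leaf false ⟨⟨-426,-891,82⟩,⟨566,-198,789⟩,⟨693,-386,-594⟩⟩ (20085153,[(2,1909632),(0,45289744),(1,46972705)]) (100425765,[(2,114416648),(0,121724699),(1,193292016)]) (33475255,[(2,30157447),(0,60876756),(1,35995444)]))) (.leaf false ⟨⟨114,-982,69⟩,⟨453,114,874⟩,⟨874,69,-462⟩⟩ (55,[(2,21465),(0,19),(3,55739)]) (110,[(2,236570),(0,151),(3,1201)]) (165,[(2,330180),(0,437),(3,28382)]))) (.leaf false ⟨⟨-798,-539,234⟩,⟨354,-126,917⟩,⟨469,-822,-294⟩⟩ (314,[(1,134922),(3,252315),(0,539)]) (157,[(1,151151),(3,114357),(0,63)]) (157,[(1,696),(3,457096),(0,411)]))) (.node ⟨-62,-954,261⟩ (.node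 ⟨981,-26,138⟩ (.leaf false ⟨⟨-62,-954,261⟩,⟨126,-267,-946⟩,⟨981,-26,138⟩⟩ (1,[(1,1)]) (318,[(2,324057),(4,45586),(1,89)]) (1,[(0,1)])) (.leaf false ⟨⟨-882,-246,-379⟩,⟨181,-954,198⟩,⟨414,-107,-894⟩⟩ (62433,[(4,155133122),(1,21901),(0,212886)]) (991,[(4,709556),(1,1004),(0,477)]) (5946,[(4,43719947),(1,1810),(0,41943)]))) (.node ⟨-294,-91,-942⟩ (.leaf false ⟨⟨-294,-91,-942⟩,⟨546,-822,-91⟩,⟨773,546,-294⟩⟩ (1,[(0,1)]) (261,[(1,91),(4,136864),(3,301356)]) (87,[(1,98),(4,61175),(3,45990)])) (.leaf false ⟨⟨30,341,-930⟩,⟨341,870,330⟩,⟨930,-330,-91⟩⟩ (31,[(2,24915),(1,15),(3,3739)]) (45046,[(1,74734),(0,36487),(3,35426533)]) (49,[(2,150469),(0,155),(3,30275)])))))) (.node ⟨0,1,0⟩ (.node ⟨0,0,1⟩ (.node ⟨314,114,933⟩ (.node ⟨-91,930,-330⟩ (.node ⟨314,933,-114⟩ (.leaf false ⟨⟨-939,82,306⟩,⟨42,981,-134⟩,⟨314,114,933⟩⟩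 (465,[(3,155820),(5,432904),(1,41)]) (33645,[(5,8806982),(1,2198),(0,33185)]) (1,[(2,1)])) (.leaf false ⟨⟨-982,69,114⟩,⟨69,-462,874⟩,⟨114,874,453⟩⟩ (33475255,[(1,102175944),(2,27674572),(0,102753201)]) (100425765,[(1,3972141),(2,87612148),(0,64392904)]) (20085153,[(1,20207560),(2,16490913),(0,3342520)]))) (.leaf false ⟨⟨-982,69,114⟩,⟨69,-462,874⟩,⟨114,874,453⟩⟩ (55,[(4,55739),(3,21465),(0,19)]) (165,[(4,28382),(3,330180),(0,437)]) (110,[(4,1201),(3,236570),(0,151)]))) (.leaf false ⟨⟨-946,-219,198⟩,⟨-294,638,-699⟩,⟨-27,726,674⟩⟩ (157,[(1,472395),(0,473),(2,19539)]) (157,[(1,27408),(0,147),(2,116924)]) (314,[(1,236827),(0,27),(2,231042)]))) (.node ⟨-954,-62,261⟩ (.node ⟨-26,981,138⟩ (.leaf false ⟨⟨-954,-62,261⟩,⟨-267,126,-946⟩,⟨-26,981,138⟩⟩ (1,[(1,1)]) (318,[(2,324057),(1,89),(3,45586)])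 (1,[(0,1)])) (.leaf false ⟨⟨-982,-114,69⟩,⟨-114,453,-874⟩,⟨69,-874,-462⟩⟩ (6937,[(1,7429),(3,10050722),(0,10582)]) (62433,[(1,19228),(3,453045560),(0,431775)]) (41622,[(1,830),(3,101909485),(0,140913)]))) (.node ⟨-91,-294,-942⟩ (.leaf false ⟨⟨-954,26,-267⟩,⟨62,981,-126⟩,⟨261,-138,-946⟩⟩ (314,[(4,291457),(3,34330),(0,89)]) (29,[(4,11558),(3,27581),(1,14)]) (67569,[(4,48714062),(1,74064),(0,47335)])) (.leaf false ⟨⟨-982,114,69⟩,⟨69,874,-462⟩,⟨114,453,874⟩⟩ (49,[(2,14517),(4,49847),(0,19)]) (147,[(2,479568),(4,29624),(0,437)]) (98,[(2,56590),(4,2569),(0,151)]))))) (.node ⟨0,0,1⟩ (.node ⟨-954,261,-62⟩ (.node ⟨-26,138,981⟩ (.leaf false ⟨⟨-954,261,-62⟩,⟨-267,-946,126⟩,⟨-26,138,981⟩⟩ (1,[(1,1)]) (318,[(2,45586),(1,89),(3,324057)]) (1,[(0,1)])) (.leaf false ⟨⟨-982,69,-114⟩,⟨-114,-874,453⟩,⟨69,-462,-874⟩⟩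 (6937,[(2,10050722),(1,7429),(0,10582)]) (62433,[(2,453045560),(1,19228),(0,431775)]) (41622,[(2,101909485),(1,830),(0,140913)]))) (.node ⟨-91,-942,-294⟩ (.leaf false ⟨⟨-954,-267,26⟩,⟨62,-126,981⟩,⟨261,-946,-138⟩⟩ (314,[(2,34330),(4,291457),(0,89)]) (29,[(2,27581),(4,11558),(1,14)]) (67569,[(4,48714062),(0,47335),(1,74064)])) (.leaf false ⟨⟨-982,69,114⟩,⟨69,-462,874⟩,⟨114,874,453⟩⟩ (49,[(4,49847),(3,14517),(0,19)]) (147,[(4,29624),(3,479568),(0,437)]) (98,[(4,2569),(3,56590),(0,151)])))) (.leaf false ⟨⟨-991,0,0⟩,⟨0,-991,0⟩,⟨0,0,-991⟩⟩ (1,[(2,991)]) (1,[(1,991)]) (1,[(0,991)]))))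
theorem h991_ok : h991.check (ok 991 4 ⟨3, 3, 3⟩) (fun _ r => r) [] = true := by decide +kernel

def h997 : T := .node ⟨1,0,0⟩ (.node ⟨0,1,0⟩ (.node ⟨0,0,1⟩ (.leaf false ⟨⟨0,0,997⟩,⟨0,997,0⟩,⟨997,0,0⟩⟩ (1,[(0,997)]) (1,[(1,997)]) (1,[(2,997)])) (.node ⟨-308,132,-939⟩ (.node ⟨21,948,308⟩ (.leaf false ⟨⟨-308,132,-939⟩,⟨21,988,132⟩,⟨948,21,-308⟩⟩ (1,[(1,1)]) (10527,[(2,1960102),(0,10967),(1,30)]) (44,[(2,6979),(4,43868),(1,7)])) (.leaf false ⟨⟨-252,277,-924⟩,⟨533,-756,-372⟩,⟨804,588,-43⟩⟩ (313,[(4,15988),(3,46045),(1,308)]) (77,[(4,42994),(3,29952),(0,93)]) (308,[(4,248535),(3,221868),(0,43)]))) (.leaf false ⟨⟨0,997,0⟩,⟨372,0,925⟩,⟨925,0,-372⟩⟩ (1,[(2,997)]) (77,[(1,16102),(0,93),(2,12276)]) (308,[(1,983151),(0,925),(2,122100)])))) (.node ⟨0,0,1⟩ (.node ⟨-308,-939,132⟩ (.node ⟨21,308,948⟩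 (.leaf false ⟨⟨-308,-939,132⟩,⟨21,132,988⟩,⟨948,-308,21⟩⟩ (1,[(1,1)]) (10527,[(3,1960102),(1,30),(0,10967)]) (44,[(4,43868),(3,6979),(1,7)])) (.leaf false ⟨⟨-252,-924,277⟩,⟨533,-372,-756⟩,⟨804,-43,588⟩⟩ (313,[(2,46045),(4,15988),(1,308)]) (77,[(2,29952),(4,42994),(0,93)]) (308,[(2,221868),(4,248535),(0,43)]))) (.leaf false ⟨⟨0,0,997⟩,⟨372,925,0⟩,⟨925,-372,0⟩⟩ (1,[(1,997)]) (77,[(1,12276),(0,93),(2,16102)]) (308,[(1,122100),(0,925),(2,983151)]))) (.node ⟨992,-27,96⟩ (.node ⟨-628,-555,-540⟩ (.node ⟨420,228,-875⟩ (.node ⟨853,-420,300⟩ (.leaf false ⟨⟨-300,-875,-372⟩,⟨420,228,-875⟩,⟨853,-420,300⟩⟩ (45,[(6,5968),(5,22170),(2,31)]) (1,[(1,1)]) (1,[(0,1)])) (.leaf false ⟨⟨-888,96,-443⟩,⟨317,828,-456⟩,⟨324,-547,-768⟩⟩ (215712,[(3,111479),(5,125049075),(0,354208)]) (168,[(3,377),(5,8637),(0,376)])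 (642,[(3,2239),(5,1281921),(0,2360)]))) (.leaf false ⟨⟨-867,-492,-16⟩,⟨236,-387,-888⟩,⟨432,-776,453⟩⟩ (19,[(3,36179),(5,747),(0,41)]) (76,[(3,180363),(5,72116),(0,129)]) (57,[(3,143929),(5,106104),(0,194)]))) (.leaf false ⟨⟨93,-992,36⟩,⟨96,-27,-992⟩,⟨988,96,93⟩⟩ (628,[(2,27612),(0,93),(3,674591)]) (157,[(2,168704),(0,24),(3,17559)]) (157,[(2,118779),(0,247),(3,122013)]))) (.leaf false ⟨⟨-948,21,-308⟩,⟨21,-988,-132⟩,⟨308,132,-939⟩⟩ (24,[(3,53632),(2,1575),(0,77)]) (8,[(3,11080),(2,8201),(0,11)]) (32,[(3,320352),(2,4227),(0,313)]))))) (.node ⟨0,1,0⟩ (.node ⟨0,0,1⟩ (.node ⟨-939,-308,132⟩ (.node ⟨308,21,948⟩ (.leaf false ⟨⟨-939,-308,132⟩,⟨-308,948,21⟩,⟨132,21,988⟩⟩ (1,[(1,1)]) (44,[(1,7),(4,6979),(3,43868)]) (10527,[(1,30),(4,1960102),(0,10967)])) (.leaf false ⟨⟨-924,-252,277⟩,⟨-372,533,-756⟩,⟨-43,804,588⟩⟩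 (313,[(2,46045),(1,308),(3,15988)]) (77,[(2,29952),(0,93),(3,42994)]) (308,[(2,221868),(0,43),(3,248535)]))) (.leaf false ⟨⟨-939,308,-132⟩,⟨-132,21,988⟩,⟨308,948,21⟩⟩ (1,[(3,1878),(0,1)]) (44,[(1,43868),(3,8625),(0,3)]) (77,[(1,32901),(3,198827),(0,237)]))) (.node ⟨-27,992,96⟩ (.node ⟨-555,-628,-540⟩ (.node ⟨228,420,-875⟩ (.node ⟨-420,853,300⟩ (.leaf false ⟨⟨-875,-300,-372⟩,⟨-420,853,300⟩,⟨228,420,-875⟩⟩ (45,[(2,31),(6,22170),(5,5968)]) (1,[(0,1)]) (1,[(1,1)])) (.leaf false ⟨⟨-992,-27,-96⟩,⟨-36,992,93⟩,⟨93,96,-988⟩⟩ (17976,[(6,20908569),(3,6149),(0,7720)]) (71904,[(6,1040745),(3,72757),(0,992)]) (53928,[(6,92979399),(3,217891),(0,247328)]))) (.leaf false ⟨⟨-992,-36,93⟩,⟨-96,93,-988⟩,⟨-27,992,96⟩⟩ (57,[(3,211699),(0,248),(4,102108)]) (19,[(3,25772),(0,8),(4,5127)]) (76,[(3,579),(0,9),(4,79172)])))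 (.leaf false ⟨⟨-992,93,36⟩,⟨-27,96,-992⟩,⟨96,988,93⟩⟩ (628,[(2,27612),(4,674591),(0,93)]) (157,[(2,168704),(4,17559),(0,24)]) (157,[(2,118779),(4,122013),(0,247)]))) (.leaf false ⟨⟨-992,-12,-99⟩,⟨69,632,-768⟩,⟨72,-771,-628⟩⟩ (32,[(3,32635),(2,32352),(0,33)]) (1,[(3,147),(2,8568),(0,8)]) (24,[(3,2511),(2,137240),(0,157)])))) (.node ⟨0,0,1⟩ (.node ⟨-27,96,992⟩ (.node ⟨-555,-540,-628⟩ (.node ⟨228,-875,420⟩ (.node ⟨-420,300,853⟩ (.leaf false ⟨⟨-875,-372,-300⟩,⟨-420,300,853⟩,⟨228,-875,420⟩⟩ (45,[(4,5968),(6,22170),(2,31)]) (1,[(0,1)]) (1,[(1,1)])) (.leaf false ⟨⟨-992,-99,-12⟩,⟨69,-768,632⟩,⟨72,-628,-771⟩⟩ (23968,[(3,8983),(6,28062995),(0,10784)]) (107,[(3,419),(6,152664),(0,408)]) (6741,[(3,9512),(6,6462924),(0,17155)]))) (.leaf false ⟨⟨-992,93,-36⟩,⟨-96,-988,93⟩,⟨-27,96,992⟩⟩ (57,[(3,102108),(0,248),(4,211699)])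 (19,[(3,5127),(0,8),(4,25772)]) (76,[(3,79172),(0,9),(4,579)]))) (.leaf false ⟨⟨-992,-27,96⟩,⟨36,-992,93⟩,⟨93,96,988⟩⟩ (157,[(4,169064),(3,17199),(0,24)]) (628,[(4,29007),(3,673196),(0,93)]) (157,[(4,122484),(3,118308),(0,247)]))) (.leaf false ⟨⟨-992,-99,-12⟩,⟨69,-768,632⟩,⟨72,-628,-771⟩⟩ (32,[(1,32352),(3,32635),(0,33)]) (1,[(1,8568),(3,147),(0,8)]) (24,[(1,137240),(3,2511),(0,157)]))) (.node ⟨-483,556,-672⟩ (.node ⟨-867,-384,308⟩ (.node ⟨308,-816,-483⟩ (.leaf false ⟨⟨-867,-448,204⟩,⟨-384,357,-848⟩,⟨308,-816,-483⟩⟩ (1,[(3,104),(1,1),(4,64)]) (161,[(3,50512),(2,128),(4,13691)]) (1,[(0,1)])) (.leaf false ⟨⟨-939,132,308⟩,⟨-308,21,-948⟩,⟨-132,-988,21⟩⟩ (308,[(3,358673),(0,939),(4,725568)]) (1,[(3,1431),(0,1),(4,795)]) (7,[(3,1302),(0,3),(4,9364)]))) (.leaf false ⟨⟨-992,-12,-99⟩,⟨69,632,-768⟩,⟨72,-771,-628⟩⟩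 (28,[(4,35579),(3,3792),(0,9)]) (77,[(4,161151),(3,25064),(0,192)]) (77,[(4,130575),(3,119655),(0,157)]))) (.leaf false ⟨⟨-992,-99,-12⟩,⟨69,-768,632⟩,⟨72,-628,-771⟩⟩ (556,[(1,73200),(3,599369),(0,99)]) (139,[(1,41176),(3,83145),(0,192)]) (139,[(1,212673),(3,65823),(0,157)])))))
theorem h997_ok : h997.check (ok 997 4 ⟨3, 3, 3⟩) (fun _ r => r) [] = true := by decide +kernel


end H34S
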