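import Pool.Agent.Lib.H34S.Cover

/-!
# H34S: certificates (generated), hexagonal numbers
-/

set_option autoImplicit false

namespace H34S

def h79 : T := .node ⟨1,0,0⟩ (.node ⟨0,1,0⟩ (.node ⟨0,0,1⟩ (.node ⟨-38,21,66⟩ (.node ⟨-6,74,-27⟩ (.leaf false ⟨⟨-38,21,66⟩,⟨-6,74,-27⟩,⟨69,18,34⟩⟩ (1,[(1,1)]) (1,[(0,1)]) (37,[(2,1501),(4,2607),(0,9)])) (.leaf false ⟨⟨-30,21,70⟩,⟨21,-70,30⟩,⟨70,30,21⟩⟩ (711,[(3,27176),(1,615),(0,340)]) (9,[(4,129),(3,110),(0,10)]) (9,[(4,588),(3,788),(0,7)]))) (.leaf false ⟨⟨18,21,74⟩,⟨34,66,-27⟩,⟨69,-38,-6⟩⟩ (19,[(1,2000),(0,9),(2,588)]) (19,[(1,609),(0,17),(2,1611)]) (38,[(1,4326),(0,69),(2,5)]))) (.node ⟨-43,66,-6⟩ (.node ⟨-43,-6,-66⟩ (.node ⟨66,-11,-42⟩ (.leaf false ⟨⟨-43,-6,-66⟩,⟨6,78,-11⟩,⟨66,-11,-42⟩⟩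 (1,[(1,1)]) (6,[(5,79),(4,474),(1,1)]) (1,[(0,1)])) (.leaf false ⟨⟨-70,30,21⟩,⟨21,70,-30⟩,⟨30,21,70⟩⟩ (158,[(5,44477),(0,618),(1,343)]) (79,[(5,77894),(0,800),(1,545)]) (237,[(5,41396),(0,483),(1,56)]))) (.node ⟨-30,70,21⟩ (.leaf false ⟨⟨-30,70,21⟩,⟨21,30,-70⟩,⟨70,21,30⟩⟩ (1,[(0,1)]) (7,[(3,553),(5,237),(0,3)]) (244,[(5,14930),(1,117),(2,67)])) (.leaf false ⟨⟨-43,66,-6⟩,⟨-6,-11,-78⟩,⟨66,42,-11⟩⟩ (1,[(2,1)]) (5392,[(1,19197),(2,63381),(0,62252)]) (4044,[(1,44003),(2,113195),(0,108072)])))) (.node ⟨21,70,30⟩ (.leaf false ⟨⟨21,70,30⟩,⟨30,21,-70⟩,⟨70,-30,21⟩⟩ (1,[(0,1)]) (43,[(2,3190),(1,30),(3,2883)]) (388,[(1,553),(0,161),(3,13588)])) (.leaf false ⟨⟨-43,-6,-66⟩,⟨6,78,-11⟩,⟨66,-11,-42⟩⟩ (97,[(1,8),(3,14996),(0,215)])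 (1164,[(1,411),(3,153548),(0,509)]) (194,[(1,477),(3,55038),(0,367)]))))) (.node ⟨0,0,1⟩ (.node ⟨-43,-6,66⟩ (.node ⟨-43,-66,-6⟩ (.node ⟨66,-42,-11⟩ (.leaf false ⟨⟨-43,-66,-6⟩,⟨6,-11,78⟩,⟨66,-42,-11⟩⟩ (1,[(1,1)]) (6,[(3,474),(5,79),(1,1)]) (1,[(0,1)])) (.leaf false ⟨⟨-70,21,30⟩,⟨21,-30,70⟩,⟨30,70,21⟩⟩ (158,[(5,44477),(1,343),(0,618)]) (79,[(5,77894),(1,545),(0,800)]) (237,[(5,41396),(1,56),(0,483)]))) (.node ⟨-30,21,70⟩ (.leaf false ⟨⟨-30,21,70⟩,⟨21,-70,30⟩,⟨70,30,21⟩⟩ (1,[(0,1)]) (7,[(5,237),(4,553),(0,3)]) (244,[(5,14930),(2,67),(1,117)])) (.leaf false ⟨⟨-43,-6,66⟩,⟨-6,-78,-11⟩,⟨66,-11,42⟩⟩ (1,[(2,1)]) (5392,[(2,63381),(1,19197),(0,62252)]) (4044,[(2,113195),(1,44003),(0,108072)])))) (.node ⟨21,30,70⟩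 (.leaf false ⟨⟨21,30,70⟩,⟨30,-70,21⟩,⟨70,21,-30⟩⟩ (1,[(0,1)]) (43,[(2,2883),(1,30),(3,3190)]) (388,[(2,13588),(0,161),(1,553)])) (.leaf false ⟨⟨-43,-66,-6⟩,⟨6,-11,78⟩,⟨66,-42,-11⟩⟩ (97,[(2,14996),(1,8),(0,215)]) (1164,[(2,153548),(1,411),(0,509)]) (194,[(2,55038),(1,477),(0,367)])))) (.node ⟨69,-6,38⟩ (.node ⟨-18,-74,21⟩ (.leaf false ⟨⟨-18,-74,21⟩,⟨34,-27,-66⟩,⟨69,-6,38⟩⟩ (1,[(0,1)]) (74,[(2,5451),(4,3002),(0,27)]) (1,[(1,1)])) (.node ⟨-6,-74,-27⟩ (.leaf false ⟨⟨-6,-74,-27⟩,⟨38,21,-66⟩,⟨69,-18,34⟩⟩ (1,[(0,1)]) (9,[(3,195),(1,19),(4,1217)]) (1,[(3,4),(2,1),(4,12)])) (.leaf false ⟨⟨6,74,-27⟩,⟨38,21,66⟩,⟨69,-18,-34⟩⟩ (1,[(3,54),(0,1)]) (3,[(3,315),(0,19),(4,1343)]) (2,[(3,689),(0,23),(4,1738)])))) (.node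 ⟨69,18,-34⟩ (.node ⟨-38,21,-66⟩ (.leaf false ⟨⟨-38,21,-66⟩,⟨6,-74,-27⟩,⟨69,18,-34⟩⟩ (1,[(0,1)]) (22,[(5,474),(4,1817),(0,9)]) (1,[(1,1)])) (.leaf false ⟨⟨-74,-27,6⟩,⟨18,-34,69⟩,⟨21,-66,-38⟩⟩ (553,[(2,4582),(1,1954),(0,3695)]) (13272,[(2,60119),(1,28727),(0,63288)]) (1106,[(2,39737),(1,21675),(0,33408)]))) (.leaf false ⟨⟨-66,-43,6⟩,⟨-11,6,-78⟩,⟨42,-66,-11⟩⟩ (240,[(4,86004),(0,799),(1,677)]) (2,[(4,392),(0,1),(1,5)]) (80,[(4,61044),(0,429),(1,407)])))))) (.node ⟨0,1,0⟩ (.node ⟨0,0,1⟩ (.node ⟨-6,66,-43⟩ (.node ⟨-66,-6,-43⟩ (.node ⟨-42,-11,66⟩ (.leaf false ⟨⟨-66,-6,-43⟩,⟨-42,-11,66⟩,⟨-11,78,6⟩⟩ (1,[(1,1)]) (1,[(0,1)]) (6,[(3,79),(1,1),(4,474)])) (.leaf false ⟨⟨-74,-6,-27⟩,⟨-18,69,34⟩,⟨21,38,-66⟩⟩ (237,[(3,7268),(1,281),(0,24)])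 (79,[(3,76156),(1,516),(0,777)]) (158,[(3,61541),(1,455),(0,794)]))) (.node ⟨21,70,-30⟩ (.leaf false ⟨⟨-70,30,21⟩,⟨21,70,-30⟩,⟨30,21,70⟩⟩ (7,[(3,237),(5,553),(0,3)]) (1,[(0,1)]) (244,[(3,14930),(2,67),(1,117)])) (.leaf false ⟨⟨-78,-11,-6⟩,⟨-11,42,66⟩,⟨-6,66,-43⟩⟩ (5392,[(2,63381),(1,19197),(0,62252)]) (4044,[(2,113195),(1,44003),(0,108072)]) (1,[(2,1)])))) (.node ⟨30,70,21⟩ (.leaf false ⟨⟨-70,21,30⟩,⟨21,-30,70⟩,⟨30,70,21⟩⟩ (43,[(4,3190),(3,2883),(1,30)]) (388,[(3,13588),(0,161),(1,553)]) (1,[(0,1)])) (.leaf false ⟨⟨-78,-6,-11⟩,⟨-11,66,42⟩,⟨-6,-43,66⟩⟩ (97,[(3,25792),(1,109),(0,274)]) (1164,[(3,225980),(1,1491),(0,725)]) (194,[(3,22454),(1,351),(0,109)])))) (.node ⟨-6,69,38⟩ (.node ⟨-74,-18,21⟩ (.leaf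 false ⟨⟨-74,-18,21⟩,⟨-27,34,-66⟩,⟨-6,69,38⟩⟩ (1,[(0,1)]) (74,[(2,5451),(0,27),(3,3002)]) (1,[(1,1)])) (.node ⟨-74,-6,-27⟩ (.leaf false ⟨⟨-74,-6,-27⟩,⟨-18,69,34⟩,⟨21,38,-66⟩⟩ (1,[(0,1)]) (1,[(3,4),(5,12),(2,1)]) (9,[(3,195),(5,1217),(1,19)])) (.leaf false ⟨⟨-70,30,21⟩,⟨21,70,-30⟩,⟨30,21,70⟩⟩ (1,[(3,114),(5,440),(0,5)]) (3,[(3,1035),(5,2527),(0,35)]) (2,[(3,49),(5,458),(0,7)])))) (.node ⟨18,69,-34⟩ (.node ⟨21,-38,-66⟩ (.leaf false ⟨⟨-74,6,-27⟩,⟨18,69,-34⟩,⟨21,-38,-66⟩⟩ (22,[(5,1817),(4,474),(0,9)]) (1,[(1,1)]) (1,[(0,1)])) (.leaf false ⟨⟨-78,-11,6⟩,⟨-11,42,-66⟩,⟨6,-66,-43⟩⟩ (79,[(1,1374),(2,2607),(0,2216)]) (1659,[(1,16460),(2,28124),(0,23013)]) (4424,[(1,2437),(2,8453),(0,3240)]))) (.leaf false ⟨⟨-78,-11,6⟩,⟨-11,42,-66⟩,⟨6,-66,-43⟩⟩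 (10,[(3,7756),(1,53),(0,61)]) (240,[(3,92052),(1,781),(0,407)]) (16,[(3,324),(1,19),(0,1)]))))) (.node ⟨0,0,1⟩ (.node ⟨-6,38,69⟩ (.node ⟨-74,21,-18⟩ (.leaf false ⟨⟨-74,21,-18⟩,⟨-27,-66,34⟩,⟨-6,38,69⟩⟩ (1,[(0,1)]) (74,[(2,3002),(0,27),(3,5451)]) (1,[(1,1)])) (.node ⟨-74,-27,-6⟩ (.leaf false ⟨⟨-74,-27,-6⟩,⟨-18,34,69⟩,⟨21,-66,38⟩⟩ (1,[(0,1)]) (1,[(2,1),(5,12),(4,4)]) (9,[(5,1217),(4,195),(1,19)])) (.leaf false ⟨⟨-70,21,30⟩,⟨21,-30,70⟩,⟨30,70,21⟩⟩ (1,[(5,440),(4,114),(0,5)]) (3,[(5,2527),(4,1035),(0,35)]) (2,[(5,458),(4,49),(0,7)])))) (.node ⟨18,-34,69⟩ (.node ⟨21,-66,-38⟩ (.leaf false ⟨⟨-74,-27,6⟩,⟨18,-34,69⟩,⟨21,-66,-38⟩⟩ (22,[(3,474),(5,1817),(0,9)]) (1,[(1,1)]) (1,[(0,1)])) (.leaf false ⟨⟨-78,6,-11⟩,⟨-11,-66,42⟩,⟨6,-43,-66⟩⟩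 (79,[(2,2607),(1,1374),(0,2216)]) (1659,[(2,28124),(1,16460),(0,23013)]) (4424,[(2,8453),(1,2437),(0,3240)]))) (.leaf false ⟨⟨-78,6,-11⟩,⟨-11,-66,42⟩,⟨6,-43,-66⟩⟩ (10,[(2,7756),(0,61),(1,53)]) (240,[(2,92052),(0,407),(1,781)]) (16,[(2,324),(0,1),(1,19)])))) (.leaf false ⟨⟨-79,0,0⟩,⟨0,-79,0⟩,⟨0,0,-79⟩⟩ (1,[(2,79)]) (1,[(1,79)]) (1,[(0,79)]))))
theorem h79_ok : h79.check (ok 79 4 ⟨3, 3, 3⟩) (fun _ r => r) [] = true := by decide +kernel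

def h83 : T := .node ⟨1,0,0⟩ (.node ⟨0,1,0⟩ (.node ⟨0,0,1⟩ (.node ⟨-42,-15,70⟩ (.node ⟨65,-42,30⟩ (.leaf false ⟨⟨-42,-15,70⟩,⟨30,70,33⟩,⟨65,-42,30⟩⟩ (1,[(1,1)]) (70,[(4,3486),(3,5395),(1,33)]) (1,[(0,1)])) (.leaf false ⟨⟨-74,33,18⟩,⟨18,66,-47⟩,⟨33,38,66⟩⟩ (415,[(4,9462),(0,430),(1,291)]) (830,[(4,99849),(0,1305),(1,2)]) (1245,[(4,241862),(0,1825),(1,1956)]))) (.node ⟨-42,70,-15⟩ (.leaf false ⟨⟨-42,70,-15⟩,⟨30,33,70⟩,⟨65,30,-42⟩⟩ (1,[(0,1)]) (70,[(2,5395),(4,3486),(0,33)]) (714,[(2,52207),(1,1162),(0,57)])) (.leaf false ⟨⟨30,-42,65⟩,⟨33,70,30⟩,⟨70,-15,-42⟩⟩ (7,[(2,380),(0,5),(3,56)]) (14,[(2,1190),(1,11),(3,815)]) (51,[(2,1768),(0,24),(1,61)])))) (.node ⟨-18,18,-79⟩ (.node ⟨2,81,18⟩ (.leaf false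 ⟨⟨-18,18,-79⟩,⟨2,81,18⟩,⟨81,2,-18⟩⟩ (1,[(1,1)]) (1,[(0,1)]) (9,[(2,83),(4,747),(1,1)])) (.node ⟨-18,-18,-79⟩ (.leaf false ⟨⟨-18,-18,-79⟩,⟨-2,81,-18⟩,⟨81,-2,-18⟩⟩ (1,[(0,1)]) (1,[(4,162),(1,1)]) (1,[(5,83),(4,79),(1,1)])) (.leaf false ⟨⟨2,81,-18⟩,⟨18,-18,-79⟩,⟨81,2,18⟩⟩ (83,[(2,711),(1,241),(0,747)]) (166,[(2,6075),(1,2844),(0,6557)]) (5976,[(2,466811),(1,218700),(0,518003)])))) (.leaf false ⟨⟨2,81,-18⟩,⟨18,-18,-79⟩,⟨81,2,18⟩⟩ (9,[(1,241),(0,1),(2,747)]) (1,[(1,158),(0,1)]) (2,[(1,675),(0,9),(2,166)])))) (.node ⟨0,0,1⟩ (.node ⟨-18,-79,18⟩ (.node ⟨2,18,81⟩ (.leaf false ⟨⟨-18,-79,18⟩,⟨2,18,81⟩,⟨81,-18,2⟩⟩ (1,[(1,1)]) (1,[(0,1)]) (9,[(4,747),(3,83),(1,1)])) (.node ⟨-18,-79,-18⟩ (.leaf false ⟨⟨-18,-79,-18⟩,⟨-2,-18,81⟩,⟨81,-18,-2⟩⟩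 (1,[(0,1)]) (1,[(3,162),(1,1)]) (1,[(3,79),(5,83),(1,1)])) (.leaf false ⟨⟨2,-18,81⟩,⟨18,-79,-18⟩,⟨81,18,2⟩⟩ (83,[(0,747),(1,241),(2,711)]) (166,[(0,6557),(1,2844),(2,6075)]) (5976,[(0,518003),(1,218700),(2,466811)])))) (.leaf false ⟨⟨2,-18,81⟩,⟨18,-79,-18⟩,⟨81,18,2⟩⟩ (9,[(1,747),(0,1),(2,241)]) (1,[(0,1),(2,158)]) (2,[(1,166),(0,9),(2,675)]))) (.node ⟨-63,-42,-34⟩ (.node ⟨38,33,-66⟩ (.node ⟨-66,-18,-47⟩ (.leaf false ⟨⟨-66,-18,-47⟩,⟨33,-74,-18⟩,⟨38,33,-66⟩⟩ (1,[(0,1)]) (11,[(5,249),(4,913),(1,3)]) (1,[(1,1)])) (.leaf false ⟨⟨-47,-54,-42⟩,⟨42,-63,34⟩,⟨54,2,-63⟩⟩ (45401,[(2,88561),(1,14500),(0,43856)]) (45401,[(2,150396),(1,15561),(0,163492)]) (136203,[(2,229744),(1,175308),(0,229805)]))) (.leaf false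 ⟨⟨-66,-47,-18⟩,⟨33,-18,-74⟩,⟨38,-66,33⟩⟩ (69,[(2,1120),(0,27),(1,56)]) (7,[(2,416),(4,420),(1,3)]) (1,[(2,99),(4,114),(0,2)]))) (.node ⟨30,-70,33⟩ (.leaf false ⟨⟨30,-70,33⟩,⟨42,-15,-70⟩,⟨65,42,30⟩⟩ (1,[(0,1)]) (3,[(2,278),(1,2),(3,129)]) (63,[(2,320),(1,65),(3,84)])) (.leaf false ⟨⟨-47,-42,-54⟩,⟨42,34,-63⟩,⟨54,-63,2⟩⟩ (1059,[(1,69),(3,173656),(0,1804)]) (353,[(1,1092),(3,159792),(0,1799)]) (353,[(1,574),(3,86247),(0,570)])))))) (.node ⟨0,1,0⟩ (.node ⟨0,0,1⟩ (.node ⟨-79,-18,18⟩ (.node ⟨18,2,81⟩ (.leaf false ⟨⟨-79,-18,18⟩,⟨-18,81,2⟩,⟨18,2,81⟩⟩ (1,[(1,1)]) (9,[(1,1),(4,83),(3,747)]) (1,[(0,1)])) (.node ⟨-79,-18,-18⟩ (.leaf false ⟨⟨-79,-18,-18⟩,⟨-18,-2,81⟩,⟨-18,81,-2⟩⟩ (1,[(0,1)]) (1,[(3,162),(1,1)])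 (1,[(3,79),(1,1),(4,83)])) (.leaf false ⟨⟨-79,18,-18⟩,⟨-18,2,81⟩,⟨18,81,2⟩⟩ (166,[(2,6075),(1,2844),(0,6557)]) (83,[(2,711),(1,241),(0,747)]) (5976,[(2,466811),(1,218700),(0,518003)])))) (.leaf false ⟨⟨-79,18,-18⟩,⟨-18,2,81⟩,⟨18,81,2⟩⟩ (1,[(3,158),(0,1)]) (9,[(1,747),(3,241),(0,1)]) (2,[(1,166),(3,675),(0,9)]))) (.node ⟨-70,-42,-15⟩ (.node ⟨33,-30,-70⟩ (.leaf false ⟨⟨-70,-42,-15⟩,⟨-30,65,-42⟩,⟨33,-30,-70⟩⟩ (1,[(1,1)]) (5,[(4,249),(3,415),(0,3)]) (1,[(0,1)])) (.node ⟨-54,-47,-42⟩ (.node ⟨2,54,-63⟩ (.leaf false ⟨⟨-63,42,34⟩,⟨-54,-47,-42⟩,⟨2,54,-63⟩⟩ (254,[(3,107),(2,266),(0,133)]) (1,[(1,1)]) (1,[(0,1)])) (.leaf false ⟨⟨-79,-18,-18⟩,⟨-18,-2,81⟩,⟨-18,81,-2⟩⟩ (2,[(4,5013),(0,79),(5,4230)]) (1,[(4,486),(0,9),(5,484)])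 (1,[(4,569),(0,9),(5,567)]))) (.leaf false ⟨⟨-70,30,33⟩,⟨-15,42,-70⟩,⟨42,65,30⟩⟩ (511,[(3,52152),(2,2455),(0,2520)]) (1022,[(3,176885),(2,2973),(0,3570)]) (511,[(3,31656),(2,768),(0,1393)])))) (.node ⟨30,65,42⟩ (.leaf false ⟨⟨-70,42,-15⟩,⟨30,65,42⟩,⟨33,30,-70⟩⟩ (1,[(2,30),(4,140),(1,1)]) (1,[(0,1)]) (7,[(2,565),(4,119),(1,5)])) (.leaf false ⟨⟨-74,33,-18⟩,⟨-18,-66,-47⟩,⟨33,38,-66⟩⟩ (263,[(4,66592),(1,852),(0,417)]) (789,[(4,4492),(1,283),(0,984)]) (263,[(4,95241),(1,1962),(0,1114)]))))) (.node ⟨0,0,1⟩ (.node ⟨-70,-15,-42⟩ (.node ⟨33,-70,-30⟩ (.leaf false ⟨⟨-70,-15,-42⟩,⟨-30,-42,65⟩,⟨33,-70,-30⟩⟩ (1,[(1,1)]) (5,[(2,415),(4,249),(0,3)]) (1,[(0,1)])) (.node ⟨-54,-42,-47⟩ (.node ⟨2,-63,54⟩ (.leaf false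 ⟨⟨-63,34,42⟩,⟨-54,-42,-47⟩,⟨2,-63,54⟩⟩ (254,[(2,266),(3,107),(0,133)]) (1,[(1,1)]) (1,[(0,1)])) (.leaf false ⟨⟨-79,-18,-18⟩,⟨-18,-2,81⟩,⟨-18,81,-2⟩⟩ (2,[(4,4230),(0,79),(5,5013)]) (1,[(4,567),(0,9),(5,569)]) (1,[(4,484),(0,9),(5,486)]))) (.leaf false ⟨⟨-70,-15,42⟩,⟨30,42,65⟩,⟨33,-70,30⟩⟩ (73,[(2,397),(4,12780),(0,420)]) (73,[(2,150),(4,4554),(0,235)]) (1022,[(2,69),(4,100493),(0,714)])))) (.node ⟨30,42,65⟩ (.leaf false ⟨⟨-70,-15,42⟩,⟨30,42,65⟩,⟨33,-70,30⟩⟩ (1,[(4,140),(3,30),(1,1)]) (1,[(0,1)]) (7,[(4,119),(3,565),(1,5)])) (.leaf false ⟨⟨-74,-18,33⟩,⟨-18,-47,-66⟩,⟨33,-66,38⟩⟩ (263,[(4,66592),(0,417),(1,852)]) (789,[(4,4492),(0,984),(1,283)]) (263,[(4,95241),(0,1114),(1,1962)])))) (.leaf false ⟨⟨-83,0,0⟩,⟨0,-83,0⟩,⟨0,0,-83⟩⟩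 (1,[(2,83)]) (1,[(1,83)]) (1,[(0,83)]))))
theorem h83_ok : h83.check (ok 83 4 ⟨3, 3, 3⟩) (fun _ r => r) [] = true := by decide +kernel

def h85 : T := .node ⟨1,0,0⟩ (.node ⟨0,1,0⟩ (.node ⟨0,0,1⟩ (.leaf false ⟨⟨0,0,85⟩,⟨0,85,0⟩,⟨85,0,0⟩⟩ (1,[(0,85)]) (1,[(1,85)]) (1,[(2,85)])) (.node ⟨0,84,13⟩ (.leaf false ⟨⟨0,13,-84⟩,⟨0,84,13⟩,⟨85,0,0⟩⟩ (84,[(1,7225),(0,13)]) (1,[(0,1)]) (1,[(3,85)])) (.leaf false ⟨⟨0,-75,-40⟩,⟨0,40,-75⟩,⟨85,0,0⟩⟩ (13,[(0,40),(2,2385)]) (13,[(0,75),(2,6820)]) (1,[(3,85)])))) (.node ⟨0,0,1⟩ (.node ⟨0,13,84⟩ (.leaf false ⟨⟨0,-84,13⟩,⟨0,13,84⟩,⟨85,0,0⟩⟩ (84,[(0,13),(2,7225)]) (1,[(0,1)]) (1,[(3,85)])) (.leaf false ⟨⟨0,-75,40⟩,⟨0,-40,-75⟩,⟨85,0,0⟩⟩ (13,[(1,6820),(0,75)]) (13,[(1,2385),(0,40)])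 (1,[(3,85)]))) (.node ⟨0,40,-75⟩ (.leaf false ⟨⟨0,-75,-40⟩,⟨0,40,-75⟩,⟨85,0,0⟩⟩ (15,[(0,8),(2,1445)]) (1,[(0,1)]) (1,[(3,85)])) (.leaf false ⟨⟨0,-75,40⟩,⟨0,-40,-75⟩,⟨85,0,0⟩⟩ (8,[(1,805),(0,15)]) (1,[(1,150),(0,1)]) (1,[(3,85)]))))) (.node ⟨0,1,0⟩ (.node ⟨0,0,1⟩ (.node ⟨13,0,84⟩ (.leaf false ⟨⟨-84,0,13⟩,⟨0,85,0⟩,⟨13,0,84⟩⟩ (84,[(3,7225),(0,13)]) (1,[(2,85)]) (1,[(0,1)])) (.leaf false ⟨⟨-75,0,40⟩,⟨-40,0,-75⟩,⟨0,85,0⟩⟩ (13,[(1,6820),(0,75)]) (13,[(1,2385),(0,40)]) (1,[(2,85)]))) (.node ⟨40,0,-75⟩ (.leaf false ⟨⟨-75,0,-40⟩,⟨0,85,0⟩,⟨40,0,-75⟩⟩ (15,[(3,1445),(0,8)]) (1,[(2,85)]) (1,[(0,1)])) (.leaf false ⟨⟨-75,0,40⟩,⟨-40,0,-75⟩,⟨0,85,0⟩⟩ (8,[(1,805),(0,15)]) (1,[(1,150),(0,1)]) (1,[(2,85)])))) (.node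 ⟨0,0,1⟩ (.node ⟨40,-75,0⟩ (.leaf false ⟨⟨-75,-40,0⟩,⟨0,0,85⟩,⟨40,-75,0⟩⟩ (15,[(3,1445),(0,8)]) (1,[(1,85)]) (1,[(0,1)])) (.leaf false ⟨⟨-75,40,0⟩,⟨-40,-75,0⟩,⟨0,0,85⟩⟩ (8,[(0,15),(2,805)]) (1,[(0,1),(2,150)]) (1,[(1,85)]))) (.node ⟨-40,45,-60⟩ (.node ⟨-75,-24,32⟩ (.leaf false ⟨⟨-75,-24,32⟩,⟨-40,45,-60⟩,⟨0,-68,-51⟩⟩ (1,[(0,1)]) (1,[(1,1)]) (1,[(2,51),(3,68)])) (.leaf false ⟨⟨-75,-40,0⟩,⟨-24,45,-68⟩,⟨32,-60,-51⟩⟩ (1,[(4,75),(3,40)]) (8,[(4,1467),(3,48),(0,17)]) (32,[(4,2801),(3,3144),(0,51)]))) (.leaf false ⟨⟨-84,-12,5⟩,⟨5,-60,-60⟩,⟨12,-59,60⟩⟩ (15,[(1,165),(3,1420),(0,4)]) (3,[(1,420),(3,145),(0,4)]) (45,[(1,840),(3,1820),(0,59)])))))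
theorem h85_ok : h85.check (ok 85 4 ⟨3, 3, 3⟩) (fun _ r => r) [] = true := by decide +kernel

def h87 : T := .node ⟨1,0,0⟩ (.node ⟨0,1,0⟩ (.node ⟨0,0,1⟩ (.node ⟨-58,29,58⟩ (.node ⟨22,82,-19⟩ (.node ⟨61,-2,62⟩ (.leaf false ⟨⟨-58,29,58⟩,⟨22,82,-19⟩,⟨61,-2,62⟩⟩ (1,[(2,1)]) (1,[(1,1)]) (1,[(0,1)])) (.leaf false ⟨⟨-86,13,2⟩,⟨2,26,-83⟩,⟨13,82,26⟩⟩ (2,[(3,810),(5,621),(0,13)]) (1,[(3,723),(5,795),(0,13)]) (1,[(3,2568),(5,2514),(0,41)]))) (.leaf false ⟨⟨-62,-19,58⟩,⟨2,82,29⟩,⟨61,-22,58⟩⟩ (19,[(4,98),(3,4395),(0,58)]) (19,[(4,676),(3,3936),(0,29)]) (19,[(4,2435),(3,4338),(0,58)]))) (.node ⟨58,-58,29⟩ (.leaf false ⟨⟨29,58,58⟩,⟨58,-58,29⟩,⟨58,29,-58⟩⟩ (2,[(2,87),(0,1),(3,174)]) (1,[(0,1)]) (1,[(1,1),(3,58)]))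 (.leaf false ⟨⟨-58,58,29⟩,⟨29,58,-58⟩,⟨58,29,58⟩⟩ (1,[(2,58),(0,1)]) (2,[(2,377),(1,6),(0,5)]) (1,[(2,290),(1,3),(0,2)])))) (.node ⟨-38,77,-14⟩ (.node ⟨22,-14,-83⟩ (.node ⟨77,38,14⟩ (.leaf false ⟨⟨-34,77,-22⟩,⟨22,-14,-83⟩,⟨77,38,14⟩⟩ (1,[(3,8),(5,4),(2,1)]) (1,[(1,1)]) (1,[(0,1)])) (.leaf false ⟨⟨-82,-22,-19⟩,⟨-2,61,-62⟩,⟨29,-58,-58⟩⟩ (14,[(5,315),(4,414),(0,19)]) (7,[(5,2373),(4,1605),(0,31)]) (7,[(5,2436),(4,696),(0,29)]))) (.leaf false ⟨⟨-63,48,-36⟩,⟨36,72,33⟩,⟨48,9,-72⟩⟩ (7,[(2,2244),(4,87),(0,24)]) (7,[(2,2757),(4,1044),(0,36)]) (14,[(2,1755),(4,870),(0,9)]))) (.leaf false ⟨⟨2,29,-82⟩,⟨61,58,22⟩,⟨62,-58,-19⟩⟩ (19,[(1,1572),(0,1),(2,628)]) (38,[(1,18),(0,61),(2,6901)]) (19,[(1,795),(0,31),(2,1285)]))))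 (.node ⟨0,0,1⟩ (.node ⟨-38,-14,77⟩ (.node ⟨22,-83,-14⟩ (.node ⟨77,14,38⟩ (.leaf false ⟨⟨-34,-22,77⟩,⟨22,-83,-14⟩,⟨77,14,38⟩⟩ (1,[(5,4),(4,8),(2,1)]) (1,[(1,1)]) (1,[(0,1)])) (.leaf false ⟨⟨-82,-19,-22⟩,⟨-2,-62,61⟩,⟨29,-58,-58⟩⟩ (14,[(3,414),(5,315),(0,19)]) (7,[(3,1605),(5,2373),(0,31)]) (7,[(3,696),(5,2436),(0,29)]))) (.leaf false ⟨⟨-63,-36,48⟩,⟨36,33,72⟩,⟨48,-72,9⟩⟩ (7,[(4,87),(3,2244),(0,24)]) (7,[(4,1044),(3,2757),(0,36)]) (14,[(4,870),(3,1755),(0,9)]))) (.leaf false ⟨⟨2,-82,29⟩,⟨61,22,58⟩,⟨62,-19,-58⟩⟩ (19,[(1,628),(0,1),(2,1572)]) (38,[(1,6901),(0,61),(2,18)]) (19,[(1,1285),(0,31),(2,795)]))) (.node ⟨13,26,-82⟩ (.node ⟨13,-82,26⟩ (.node ⟨82,13,26⟩ (.leaf false ⟨⟨2,-83,-26⟩,⟨13,26,-82⟩,⟨86,-2,13⟩⟩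 (13,[(3,390),(1,2),(4,915)]) (1,[(2,1)]) (41,[(3,585),(0,43),(4,641)])) (.leaf false ⟨⟨-63,0,-60⟩,⟨0,-87,0⟩,⟨60,0,-63⟩⟩ (67,[(2,30),(5,309),(0,60)]) (95,[(5,6003),(1,87),(0,87)]) (48,[(2,41),(5,2178),(1,13)]))) (.leaf false ⟨⟨-26,-2,-83⟩,⟨13,-86,-2⟩,⟨82,13,-26⟩⟩ (26,[(4,403),(3,6858),(0,83)]) (13,[(4,182),(3,1200),(0,1)]) (1,[(4,95),(3,69),(0,1)]))) (.leaf false ⟨⟨-26,-83,-2⟩,⟨13,-2,-86⟩,⟨82,-26,13⟩⟩ (26,[(1,6858),(3,403),(0,83)]) (13,[(1,1200),(3,182),(0,1)]) (1,[(1,69),(3,95),(0,1)]))))) (.node ⟨0,1,0⟩ (.node ⟨0,0,1⟩ (.node ⟨-14,77,-38⟩ (.node ⟨-83,-14,22⟩ (.node ⟨14,38,77⟩ (.leaf false ⟨⟨-83,-14,22⟩,⟨-22,77,-34⟩,⟨14,38,77⟩⟩ (1,[(1,1)]) (1,[(3,4),(5,8),(2,1)]) (1,[(0,1)])) (.leaf false ⟨⟨-83,-22,-14⟩,⟨-22,34,77⟩,⟨-14,77,-38⟩⟩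 (14,[(3,6195),(0,83),(4,2846)]) (7,[(3,1386),(0,11),(4,656)]) (1,[(3,39),(0,1),(4,115)]))) (.leaf false ⟨⟨-83,14,-22⟩,⟨-14,38,77⟩,⟨22,77,-34⟩⟩ (1,[(4,166),(0,1)]) (7,[(2,957),(4,1675),(0,19)]) (2,[(2,174),(4,869),(0,11)]))) (.leaf false ⟨⟨-83,-22,14⟩,⟨-14,77,38⟩,⟨22,-34,77⟩⟩ (19,[(3,1675),(2,121),(0,7)]) (1,[(3,28),(2,154),(0,1)]) (38,[(3,242),(2,4637),(0,77)]))) (.node ⟨26,13,-82⟩ (.node ⟨-82,13,26⟩ (.node ⟨13,82,26⟩ (.leaf false ⟨⟨-86,13,2⟩,⟨2,26,-83⟩,⟨13,82,26⟩⟩ (1,[(3,24),(5,4),(1,1)]) (41,[(3,3741),(5,87),(0,13)]) (1,[(0,1)])) (.leaf false ⟨⟨-87,0,0⟩,⟨0,-63,-60⟩,⟨0,60,-63⟩⟩ (95,[(1,87),(4,6003),(0,87)]) (67,[(4,309),(2,30),(0,60)]) (48,[(1,13),(4,2178),(2,41)]))) (.leaf false ⟨⟨-86,13,-2⟩,⟨-2,-26,-83⟩,⟨13,82,-26⟩⟩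 (13,[(4,1200),(3,182),(0,1)]) (26,[(4,6858),(3,403),(0,83)]) (1,[(4,69),(3,95),(0,1)]))) (.leaf false ⟨⟨-83,-26,-2⟩,⟨-26,82,13⟩,⟨-2,13,-86⟩⟩ (26,[(1,6858),(0,83),(2,403)]) (1,[(1,69),(0,1),(2,95)]) (13,[(1,1200),(0,1),(2,182)])))) (.node ⟨0,0,1⟩ (.node ⟨26,-82,13⟩ (.node ⟨-82,26,13⟩ (.node ⟨13,26,82⟩ (.leaf false ⟨⟨-86,2,13⟩,⟨2,-83,26⟩,⟨13,26,82⟩⟩ (1,[(1,1),(5,4),(4,24)]) (41,[(5,87),(4,3741),(0,13)]) (1,[(0,1)])) (.leaf false ⟨⟨-87,0,0⟩,⟨0,-63,60⟩,⟨0,-60,-63⟩⟩ (95,[(3,6003),(1,87),(0,87)]) (48,[(3,2178),(1,13),(2,41)]) (67,[(3,309),(0,60),(2,30)]))) (.leaf false ⟨⟨-86,-2,13⟩,⟨-2,-83,-26⟩,⟨13,-26,82⟩⟩ (13,[(2,182),(4,1200),(0,1)]) (26,[(2,403),(4,6858),(0,83)]) (1,[(2,95),(4,69),(0,1)]))) (.leaf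 false ⟨⟨-83,-2,-26⟩,⟨-26,13,82⟩,⟨-2,-86,13⟩⟩ (26,[(1,403),(0,83),(2,6858)]) (1,[(1,95),(0,1),(2,69)]) (13,[(1,182),(0,1),(2,1200)]))) (.leaf false ⟨⟨-87,0,0⟩,⟨0,-87,0⟩,⟨0,0,-87⟩⟩ (1,[(2,87)]) (1,[(1,87)]) (1,[(0,87)]))))
theorem h87_ok : h87.check (ok 87 4 ⟨3, 3, 3⟩) (fun _ r => r) [] = true := by decide +kernel

def h89 : T := .node ⟨1,0,0⟩ (.node ⟨0,1,0⟩ (.node ⟨0,0,1⟩ (.leaf false ⟨⟨0,0,89⟩,⟨0,89,0⟩,⟨89,0,0⟩⟩ (1,[(0,89)]) (1,[(1,89)]) (1,[(2,89)])) (.node ⟨-39,0,-80⟩ (.leaf false ⟨⟨-39,0,-80⟩,⟨0,89,0⟩,⟨80,0,-39⟩⟩ (1,[(0,1)]) (1,[(2,89)]) (80,[(3,7921),(0,39)])) (.node ⟨81,-28,24⟩ (.leaf false ⟨⟨17,24,-84⟩,⟨24,81,28⟩,⟨84,-28,9⟩⟩ (39,[(2,4636),(1,17),(3,936)]) (13,[(2,276),(1,8),(3,1053)]) (13,[(2,275),(0,13),(1,1)]))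 (.leaf false ⟨⟨-48,24,-71⟩,⟨-39,64,48⟩,⟨64,57,-24⟩⟩ (91,[(2,8589),(1,50),(0,78)]) (91,[(2,17920),(1,341),(0,208)]) (84,[(2,37352),(1,493),(0,171)]))))) (.node ⟨0,0,1⟩ (.node ⟨-39,-80,0⟩ (.leaf false ⟨⟨-39,-80,0⟩,⟨0,0,89⟩,⟨80,-39,0⟩⟩ (1,[(0,1)]) (1,[(1,89)]) (80,[(3,7921),(0,39)])) (.node ⟨81,24,-28⟩ (.leaf false ⟨⟨17,-84,24⟩,⟨24,28,81⟩,⟨84,9,-28⟩⟩ (39,[(2,936),(1,17),(3,4636)]) (13,[(2,1053),(1,8),(3,276)]) (13,[(1,1),(0,13),(3,275)])) (.leaf false ⟨⟨-48,-71,24⟩,⟨-39,48,64⟩,⟨64,-24,57⟩⟩ (91,[(1,50),(3,8589),(0,78)]) (91,[(1,341),(3,17920),(0,208)]) (84,[(1,493),(3,37352),(0,171)])))) (.node ⟨-64,-48,-39⟩ (.node ⟨24,48,-71⟩ (.node ⟨-64,-39,-48⟩ (.leaf false ⟨⟨-64,-39,-48⟩,⟨24,48,-71⟩,⟨57,-64,-24⟩⟩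 (1,[(0,1)]) (1,[(1,1)]) (2,[(5,178),(4,89),(0,1)])) (.leaf false ⟨⟨-64,-48,-39⟩,⟨24,-71,48⟩,⟨57,-24,-64⟩⟩ (1,[(2,1)]) (9,[(2,119),(1,9),(0,119)]) (120,[(2,2107),(1,357),(0,2080)]))) (.leaf false ⟨⟨-64,-48,-39⟩,⟨24,-71,48⟩,⟨57,-24,-64⟩⟩ (1,[(1,1)]) (48,[(2,2737),(4,2856),(0,71)]) (2,[(2,89),(4,178),(1,1)]))) (.node ⟨57,-24,64⟩ (.leaf false ⟨⟨24,-71,-48⟩,⟨57,-24,64⟩,⟨64,48,-39⟩⟩ (8,[(2,501),(1,3),(3,712)]) (1,[(0,1)]) (1,[(2,78),(1,1)])) (.leaf false ⟨⟨-36,-60,-55⟩,⟨-15,64,-60⟩,⟨80,-15,-36⟩⟩ (1873,[(1,831),(3,203052),(0,2116)]) (1873,[(1,2460),(3,76328),(0,3255)]) (1873,[(1,7172),(3,502527),(0,5424)])))))) (.node ⟨0,1,0⟩ (.node ⟨0,0,1⟩ (.node ⟨-80,-39,0⟩ (.leaf false ⟨⟨-80,-39,0⟩,⟨-39,80,0⟩,⟨0,0,89⟩⟩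 (1,[(0,1)]) (80,[(0,39),(2,7921)]) (1,[(1,89)])) (.node ⟨24,81,-28⟩ (.leaf false ⟨⟨-84,17,24⟩,⟨9,84,-28⟩,⟨28,24,81⟩⟩ (39,[(2,936),(4,4636),(1,17)]) (13,[(4,275),(0,13),(1,1)]) (13,[(2,1053),(4,276),(1,8)])) (.leaf false ⟨⟨-84,9,28⟩,⟨17,84,24⟩,⟨24,-28,81⟩⟩ (13,[(4,3180),(1,30),(0,13)]) (91,[(4,25221),(1,358),(0,78)]) (1092,[(4,360136),(1,5777),(0,3159)])))) (.node ⟨-48,-64,-39⟩ (.node ⟨48,24,-71⟩ (.node ⟨-39,-64,-48⟩ (.leaf false ⟨⟨-64,57,-24⟩,⟨-39,-64,-48⟩,⟨48,24,-71⟩⟩ (2,[(5,89),(4,178),(0,1)]) (1,[(0,1)]) (1,[(1,1)])) (.leaf false ⟨⟨-71,24,-48⟩,⟨-24,57,64⟩,⟨48,64,-39⟩⟩ (4005,[(2,78587),(0,75995),(1,10917)]) (3560,[(2,32129),(0,34400),(1,2399)]) (445,[(2,1869),(0,2080),(1,624)]))) (.leaf false ⟨⟨-71,24,48⟩,⟨-48,-64,-39⟩,⟨-24,57,-64⟩⟩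 (48,[(2,2737),(0,71),(3,2856)]) (1,[(1,1)]) (2,[(2,89),(1,1),(3,178)]))) (.node ⟨-24,57,64⟩ (.leaf false ⟨⟨-71,24,-48⟩,⟨-24,57,64⟩,⟨48,64,-39⟩⟩ (8,[(2,501),(4,712),(1,3)]) (1,[(0,1)]) (1,[(2,78),(1,1)])) (.leaf false ⟨⟨-60,-36,-55⟩,⟨-15,80,-36⟩,⟨64,-15,-60⟩⟩ (1873,[(4,203052),(1,831),(0,2116)]) (1873,[(4,502527),(1,7172),(0,5424)]) (1873,[(4,76328),(1,2460),(0,3255)]))))) (.node ⟨0,0,1⟩ (.node ⟨-48,-39,-64⟩ (.node ⟨48,-71,24⟩ (.node ⟨-39,-48,-64⟩ (.leaf false ⟨⟨-64,-24,57⟩,⟨-39,-48,-64⟩,⟨48,-71,24⟩⟩ (2,[(3,178),(5,89),(0,1)]) (1,[(0,1)]) (1,[(1,1)])) (.leaf false ⟨⟨-71,-48,24⟩,⟨-24,64,57⟩,⟨48,-39,64⟩⟩ (4005,[(2,78587),(1,10917),(0,75995)]) (3560,[(2,32129),(1,2399),(0,34400)]) (445,[(2,1869),(1,624),(0,2080)])))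 (.leaf false ⟨⟨-71,48,24⟩,⟨-48,-39,-64⟩,⟨-24,-64,57⟩⟩ (48,[(2,2856),(0,71),(3,2737)]) (1,[(1,1)]) (2,[(2,178),(1,1),(3,89)]))) (.node ⟨-24,64,57⟩ (.leaf false ⟨⟨-71,-48,24⟩,⟨-24,64,57⟩,⟨48,-39,64⟩⟩ (8,[(4,712),(3,501),(1,3)]) (1,[(0,1)]) (1,[(3,78),(1,1)])) (.leaf false ⟨⟨-60,-55,-36⟩,⟨-15,-36,80⟩,⟨64,-60,-15⟩⟩ (1873,[(4,203052),(0,2116),(1,831)]) (1873,[(4,502527),(0,5424),(1,7172)]) (1873,[(4,76328),(0,3255),(1,2460)])))) (.node ⟨-36,60,-55⟩ (.node ⟨-80,-15,36⟩ (.leaf false ⟨⟨-80,-15,36⟩,⟨-36,60,-55⟩,⟨-15,-64,-60⟩⟩ (1,[(0,1)]) (1,[(1,1)]) (12,[(2,445),(1,5),(3,1068)])) (.leaf false ⟨⟨-80,-36,-15⟩,⟨-15,60,-64⟩,⟨36,-55,-60⟩⟩ (11,[(1,3),(4,772),(3,576)]) (89,[(1,80),(4,1335),(0,36)]) (3,[(4,292),(3,240),(0,5)])))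 (.node ⟨-15,-64,60⟩ (.leaf false ⟨⟨-80,-15,-36⟩,⟨-15,-64,60⟩,⟨36,-60,-55⟩⟩ (4,[(2,199),(4,356),(1,1)]) (1,[(0,1)]) (1,[(2,110),(1,1)])) (.leaf false ⟨⟨-80,-36,-15⟩,⟨-15,60,-64⟩,⟨36,-55,-60⟩⟩ (1,[(4,2024),(1,39),(0,36)]) (20,[(4,6789),(1,124),(0,135)]) (16,[(4,70707),(1,1428),(0,1325)]))))))
theorem h89_ok : h89.check (ok 89 4 ⟨3, 3, 3⟩) (fun _ r => r) [] = true := by decide +kernel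

def h91 : T := .node ⟨1,0,0⟩ (.node ⟨0,1,0⟩ (.node ⟨0,0,1⟩ (.node ⟨-66,9,62⟩ (.node ⟨-26,78,-39⟩ (.leaf false ⟨⟨-66,9,62⟩,⟨-26,78,-39⟩,⟨57,46,54⟩⟩ (1,[(1,1)]) (1,[(0,1)]) (39,[(2,3003),(4,2821),(0,23)])) (.node ⟨89,18,-6⟩ (.leaf false ⟨⟨-6,54,73⟩,⟨18,-71,54⟩,⟨89,18,-6⟩⟩ (62,[(5,4446),(4,2691),(2,73)]) (33,[(0,4),(2,9),(1,32)]) (1,[(0,1)])) (.leaf false ⟨⟨-90,9,10⟩,⟨9,-10,90⟩,⟨10,90,9⟩⟩ (3,[(5,175),(4,117),(0,5)]) (1,[(5,1344),(4,260),(0,15)]) (2,[(5,287),(4,234),(0,3)])))) (.node ⟨62,-54,-39⟩ (.node ⟨9,-46,78⟩ (.leaf false ⟨⟨9,-46,78⟩,⟨62,-54,-39⟩,⟨66,57,26⟩⟩ (1,[(0,1)]) (1,[(1,1)]) (1,[(3,88),(2,1),(4,66)])) (.leaf false ⟨⟨-6,73,54⟩,⟨18,54,-71⟩,⟨89,-6,18⟩⟩ (2366,[(3,470379),(1,381),(0,4202)]) (1183,[(3,110110),(1,657),(0,2160)])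 (1183,[(3,273000),(1,2020),(0,2217)]))) (.node ⟨18,54,-71⟩ (.leaf false ⟨⟨-6,73,54⟩,⟨18,54,-71⟩,⟨89,-6,18⟩⟩ (1503,[(3,118526),(2,2101),(1,2382)]) (1,[(0,1)]) (138,[(3,14833),(2,182),(0,15)])) (.leaf false ⟨⟨-39,-26,78⟩,⟨54,57,46⟩,⟨62,-66,9⟩⟩ (18180,[(2,1820),(1,8463),(0,16913)]) (7575,[(2,60865),(1,49182),(0,31042)]) (7575,[(2,13580),(1,3759),(0,10754)]))))) (.node ⟨-10,90,9⟩ (.node ⟨90,9,10⟩ (.leaf false ⟨⟨-10,90,9⟩,⟨9,10,-90⟩,⟨90,9,10⟩⟩ (1,[(1,1)]) (9,[(2,819),(4,91),(1,1)]) (1,[(0,1)])) (.leaf false ⟨⟨-87,-6,-26⟩,⟨6,82,-39⟩,⟨26,-39,-78⟩⟩ (273,[(4,45409),(1,58),(0,762)]) (819,[(4,398944),(1,1171),(0,4248)]) (21,[(4,16016),(1,8),(0,171)]))) (.node ⟨89,6,18⟩ (.leaf false ⟨⟨6,73,-54⟩,⟨18,-54,-71⟩,⟨89,6,18⟩⟩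 (5,[(2,243),(1,3),(3,635)]) (5,[(2,274),(1,9),(3,540)]) (1,[(0,1)])) (.leaf false ⟨⟨-87,-6,-26⟩,⟨6,82,-39⟩,⟨26,-39,-78⟩⟩ (9,[(4,374),(3,24),(0,13)]) (6,[(4,1193),(3,570),(0,13)]) (174,[(1,26),(4,70213),(0,741)]))))) (.node ⟨0,0,1⟩ (.node ⟨-10,9,90⟩ (.node ⟨90,10,9⟩ (.leaf false ⟨⟨-10,9,90⟩,⟨9,-90,10⟩,⟨90,10,9⟩⟩ (1,[(1,1)]) (9,[(4,91),(3,819),(1,1)]) (1,[(0,1)])) (.leaf false ⟨⟨-87,-26,-6⟩,⟨6,-39,82⟩,⟨26,-78,-39⟩⟩ (273,[(4,45409),(0,762),(1,58)]) (819,[(4,398944),(0,4248),(1,1171)]) (21,[(4,16016),(0,171),(1,8)]))) (.node ⟨89,18,6⟩ (.leaf false ⟨⟨6,-54,73⟩,⟨18,-71,-54⟩,⟨89,18,6⟩⟩ (5,[(2,635),(1,3),(3,243)]) (5,[(2,540),(1,9),(3,274)]) (1,[(0,1)])) (.leaf false ⟨⟨-87,-26,-6⟩,⟨6,-39,82⟩,⟨26,-78,-39⟩⟩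 (9,[(2,24),(4,374),(0,13)]) (6,[(2,570),(4,1193),(0,13)]) (174,[(4,70213),(1,26),(0,741)])))) (.node ⟨-35,-84,0⟩ (.leaf false ⟨⟨-35,-84,0⟩,⟨0,0,-91⟩,⟨84,-35,0⟩⟩ (1,[(0,1)]) (1,[(1,91)]) (12,[(3,1183),(0,5)])) (.node ⟨54,-39,62⟩ (.leaf false ⟨⟨46,78,9⟩,⟨54,-39,62⟩,⟨57,-26,-66⟩⟩ (281,[(2,819),(1,286),(0,54)]) (1,[(0,1)]) (35,[(2,2310),(1,57),(3,5698)])) (.leaf false ⟨⟨-55,-30,-66⟩,⟨30,66,-55⟩,⟨66,-55,-30⟩⟩ (155,[(1,11),(3,12009),(0,165)]) (62,[(1,138),(3,9645),(0,55)]) (155,[(1,408),(3,45722),(0,75)])))))) (.node ⟨0,1,0⟩ (.node ⟨0,0,1⟩ (.node ⟨9,-10,90⟩ (.node ⟨10,90,9⟩ (.leaf false ⟨⟨-90,9,10⟩,⟨9,-10,90⟩,⟨10,90,9⟩⟩ (9,[(4,819),(3,91),(1,1)]) (1,[(1,1)]) (1,[(0,1)])) (.leaf false ⟨⟨-82,-6,-39⟩,⟨-39,26,78⟩,⟨-6,-87,26⟩⟩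 (273,[(3,210392),(1,116),(0,2343)]) (21,[(3,10556),(1,29),(0,108)]) (819,[(3,1547),(1,314),(0,774)]))) (.node ⟨18,89,6⟩ (.leaf false ⟨⟨-71,18,-54⟩,⟨-54,6,73⟩,⟨18,89,6⟩⟩ (5,[(2,540),(4,274),(1,9)]) (5,[(2,635),(4,243),(1,3)]) (1,[(0,1)])) (.leaf false ⟨⟨-87,6,26⟩,⟨-26,-39,-78⟩,⟨-6,82,-39⟩⟩ (6,[(2,330),(0,29),(3,2617)]) (261,[(0,273),(1,208),(3,12038)]) (3,[(2,63),(1,2),(3,226)])))) (.node ⟨0,-35,-84⟩ (.leaf false ⟨⟨-91,0,0⟩,⟨0,-35,-84⟩,⟨0,84,-35⟩⟩ (1,[(3,91)]) (1,[(0,1)]) (12,[(0,5),(2,1183)])) (.node ⟨62,54,-39⟩ (.leaf false ⟨⟨-66,57,-26⟩,⟨9,46,78⟩,⟨62,54,-39⟩⟩ (35,[(2,5698),(4,2310),(1,57)]) (281,[(4,819),(1,286),(0,54)]) (1,[(0,1)])) (.leaf false ⟨⟨-84,-35,0⟩,⟨-35,84,0⟩,⟨0,0,-91⟩⟩ (155,[(2,22386),(0,210),(1,169)])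 (310,[(2,92001),(0,175),(1,1014)]) (1,[(2,91)]))))) (.node ⟨0,0,1⟩ (.node ⟨0,-84,-35⟩ (.leaf false ⟨⟨-91,0,0⟩,⟨0,-84,-35⟩,⟨0,-35,84⟩⟩ (1,[(3,91)]) (1,[(0,1)]) (12,[(1,1183),(0,5)])) (.node ⟨62,-39,54⟩ (.leaf false ⟨⟨-66,-26,57⟩,⟨9,78,46⟩,⟨62,-39,54⟩⟩ (35,[(1,57),(4,2310),(3,5698)]) (281,[(1,286),(4,819),(0,54)]) (1,[(0,1)])) (.leaf false ⟨⟨-84,0,-35⟩,⟨-35,0,84⟩,⟨0,-91,0⟩⟩ (155,[(1,169),(0,210),(3,22386)]) (310,[(1,1014),(0,175),(3,92001)]) (1,[(3,91)])))) (.leaf false ⟨⟨-91,0,0⟩,⟨0,-91,0⟩,⟨0,0,-91⟩⟩ (1,[(2,91)]) (1,[(1,91)]) (1,[(0,91)]))))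
theorem h91_ok : h91.check (ok 91 4 ⟨3, 3, 3⟩) (fun _ r => r) [] = true := by decide +kernel

def h93 : T := .node ⟨1,0,0⟩ (.node ⟨0,1,0⟩ (.node ⟨0,0,1⟩ (.leaf false ⟨⟨0,0,93⟩,⟨0,93,0⟩,⟨93,0,0⟩⟩ (1,[(0,93)]) (1,[(1,93)]) (1,[(2,93)])) (.node ⟨52,53,56⟩ (.node ⟨32,-35,-80⟩ (.node ⟨-20,80,-43⟩ (.leaf false ⟨⟨-20,80,-43⟩,⟨32,-35,-80⟩,⟨85,32,20⟩⟩ (1,[(0,1)]) (1,[(1,1)]) (14,[(5,930),(2,5),(4,183)])) (.leaf false ⟨⟨4,13,-92⟩,⟨52,76,13⟩,⟨77,-52,-4⟩⟩ (5,[(3,503),(0,1),(4,145)]) (5,[(3,494),(0,13),(4,1420)]) (20,[(3,3391),(0,77),(4,5120)]))) (.leaf false ⟨⟨-52,76,13⟩,⟨-4,13,-92⟩,⟨77,52,4⟩⟩ (35,[(2,5625),(4,612),(0,76)]) (35,[(2,4260),(4,276),(0,13)]) (35,[(2,4020),(4,4359),(0,52)]))) (.leaf false ⟨⟨-56,32,-67⟩,⟨52,-43,-64⟩,⟨53,76,-8⟩⟩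 (56,[(3,348),(2,5343),(0,67)]) (7,[(3,780),(2,123),(0,8)]) (7,[(3,423),(2,585),(0,1)])))) (.node ⟨0,0,1⟩ (.node ⟨52,56,53⟩ (.node ⟨32,-80,-35⟩ (.node ⟨-20,-43,80⟩ (.leaf false ⟨⟨-20,-43,80⟩,⟨32,-80,-35⟩,⟨85,20,32⟩⟩ (1,[(0,1)]) (1,[(1,1)]) (14,[(3,183),(2,5),(5,930)])) (.leaf false ⟨⟨4,-92,13⟩,⟨52,13,76⟩,⟨77,-4,-52⟩⟩ (5,[(3,145),(0,1),(4,503)]) (5,[(3,1420),(0,13),(4,494)]) (20,[(3,5120),(0,77),(4,3391)]))) (.leaf false ⟨⟨-52,-4,77⟩,⟨13,-92,4⟩,⟨76,13,52⟩⟩ (5,[(4,92),(3,900),(0,11)]) (35,[(4,583),(3,3540),(0,4)]) (35,[(4,4324),(3,3705),(0,52)]))) (.leaf false ⟨⟨-56,-67,32⟩,⟨52,-64,-43⟩,⟨53,-8,76⟩⟩ (56,[(1,5343),(3,348),(0,67)]) (7,[(1,123),(3,780),(0,8)]) (7,[(1,585),(3,423),(0,1)]))) (.node ⟨88,-8,29⟩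 (.node ⟨-8,-88,29⟩ (.node ⟨-11,-28,-88⟩ (.leaf false ⟨⟨-11,-28,-88⟩,⟨-8,-88,29⟩,⟨92,-11,-8⟩⟩ (1,[(0,1)]) (1,[(1,1)]) (8,[(3,93),(5,744),(1,1)])) (.leaf false ⟨⟨-8,-92,-11⟩,⟨29,8,-88⟩,⟨88,-11,28⟩⟩ (186,[(3,8463),(0,8),(1,197)]) (186,[(3,76353),(0,622),(1,181)]) (744,[(3,743349),(0,7832),(1,2585)]))) (.node ⟨85,-20,32⟩ (.leaf false ⟨⟨20,-43,-80⟩,⟨32,80,-35⟩,⟨85,-20,32⟩⟩ (2,[(3,15),(1,5),(4,526)]) (61,[(3,975),(1,57),(2,17)]) (1,[(0,1)])) (.leaf false ⟨⟨-76,-43,-32⟩,⟨-8,64,-67⟩,⟨53,-52,-56⟩⟩ (39,[(2,32),(4,2781),(0,68)]) (117,[(2,1813),(4,15768),(0,1888)]) (117,[(2,2152),(4,31968),(0,2155)])))) (.leaf false ⟨⟨-18,-90,-15⟩,⟨-15,18,-90⟩,⟨90,-15,-18⟩⟩ (29,[(3,798),(2,2730),(0,15)]) (29,[(3,7485),(2,198),(0,90)])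 (29,[(3,4194),(2,579),(0,18)]))))) (.node ⟨0,1,0⟩ (.node ⟨0,0,1⟩ (.node ⟨56,53,52⟩ (.node ⟨-80,-35,32⟩ (.node ⟨-43,80,-20⟩ (.leaf false ⟨⟨-80,-35,32⟩,⟨-43,80,-20⟩,⟨20,32,85⟩⟩ (1,[(1,1)]) (1,[(0,1)]) (14,[(3,930),(4,183),(2,5)])) (.leaf false ⟨⟨-92,-4,13⟩,⟨4,77,52⟩,⟨13,-52,76⟩⟩ (20,[(5,2399),(4,960),(0,13)]) (5,[(5,539),(4,1425),(0,13)]) (5,[(5,752),(4,1260),(0,19)]))) (.leaf false ⟨⟨-92,4,13⟩,⟨-4,77,-52⟩,⟨13,52,76⟩⟩ (35,[(2,583),(4,3540),(0,4)]) (5,[(2,92),(4,900),(0,11)]) (35,[(2,4324),(4,3705),(0,52)]))) (.leaf false ⟨⟨-80,-43,-20⟩,⟨-35,80,-32⟩,⟨-32,20,85⟩⟩ (7,[(1,380),(0,10),(2,229)]) (8,[(1,4),(0,5),(2,905)]) (7,[(1,803),(0,4),(2,352)]))) (.node ⟨-8,88,29⟩ (.node ⟨-88,-8,29⟩ (.node ⟨-28,-11,-88⟩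 (.leaf false ⟨⟨-88,-8,29⟩,⟨-28,-11,-88⟩,⟨-11,92,-8⟩⟩ (1,[(1,1)]) (1,[(0,1)]) (8,[(3,93),(1,1),(4,744)])) (.leaf false ⟨⟨-92,-8,-11⟩,⟨-11,88,28⟩,⟨8,29,-88⟩⟩ (186,[(3,8463),(1,197),(0,8)]) (744,[(3,743349),(1,2585),(0,7832)]) (186,[(3,76353),(1,181),(0,622)]))) (.node ⟨-20,85,32⟩ (.leaf false ⟨⟨-43,20,-80⟩,⟨-20,85,32⟩,⟨80,32,-35⟩⟩ (2,[(3,15),(5,526),(1,5)]) (1,[(0,1)]) (61,[(3,975),(2,17),(1,57)])) (.leaf false ⟨⟨-92,-8,-11⟩,⟨-11,88,28⟩,⟨8,29,-88⟩⟩ (351,[(5,41580),(2,679),(0,736)]) (351,[(5,2133),(2,436),(0,88)]) (351,[(5,101628),(2,8408),(0,8585)])))) (.leaf false ⟨⟨-90,-18,-15⟩,⟨-15,90,-18⟩,⟨18,-15,-90⟩⟩ (29,[(3,2730),(2,798),(0,15)]) (29,[(3,579),(2,4194),(0,18)]) (29,[(3,198),(2,7485),(0,90)]))))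 (.node ⟨0,0,1⟩ (.node ⟨-8,29,88⟩ (.node ⟨-88,29,-8⟩ (.node ⟨-28,-88,-11⟩ (.leaf false ⟨⟨-88,29,-8⟩,⟨-28,-88,-11⟩,⟨-11,-8,92⟩⟩ (1,[(1,1)]) (1,[(0,1)]) (8,[(3,744),(1,1),(4,93)])) (.leaf false ⟨⟨-92,-11,-8⟩,⟨-11,28,88⟩,⟨8,-88,29⟩⟩ (186,[(1,197),(4,8463),(0,8)]) (744,[(1,2585),(4,743349),(0,7832)]) (186,[(1,181),(4,76353),(0,622)]))) (.node ⟨-20,32,85⟩ (.leaf false ⟨⟨-43,-80,20⟩,⟨-20,32,85⟩,⟨80,-35,32⟩⟩ (2,[(5,526),(4,15),(1,5)]) (1,[(0,1)]) (61,[(2,17),(4,975),(1,57)])) (.leaf false ⟨⟨-92,-11,-8⟩,⟨-11,28,88⟩,⟨8,-88,29⟩⟩ (351,[(2,679),(5,41580),(0,736)]) (351,[(2,436),(5,2133),(0,88)]) (351,[(2,8408),(5,101628),(0,8585)])))) (.leaf false ⟨⟨-90,-15,-18⟩,⟨-15,-18,90⟩,⟨18,-90,-15⟩⟩ (29,[(1,798),(3,2730),(0,15)])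 (29,[(1,4194),(3,579),(0,18)]) (29,[(1,7485),(3,198),(0,90)]))) (.node ⟨-43,64,-52⟩ (.node ⟨-56,-52,53⟩ (.node ⟨-76,-8,53⟩ (.leaf false ⟨⟨-76,-8,53⟩,⟨-43,64,-52⟩,⟨-32,-67,-56⟩⟩ (1,[(0,1)]) (1,[(2,1)]) (7,[(3,604),(1,4),(4,261)])) (.leaf false ⟨⟨-67,-56,-32⟩,⟨-8,53,-76⟩,⟨64,-52,-43⟩⟩ (577,[(2,881),(1,1922),(0,1406)]) (2308,[(2,2460),(1,961),(0,1857)]) (577,[(2,152),(1,961),(0,1280)]))) (.leaf false ⟨⟨-76,-43,-32⟩,⟨-8,64,-67⟩,⟨53,-52,-56⟩⟩ (13,[(1,8),(4,644),(3,1071)]) (179,[(1,144),(3,2180),(0,85)]) (53,[(4,327),(3,5668),(0,56)]))) (.node ⟨64,-43,-52⟩ (.leaf false ⟨⟨-67,-32,-56⟩,⟨-8,-76,53⟩,⟨64,-43,-52⟩⟩ (2,[(2,164),(4,177),(1,1)]) (16,[(2,140),(4,945),(1,19)]) (1,[(0,1)])) (.leaf false ⟨⟨-76,8,53⟩,⟨-43,-64,-52⟩,⟨32,-67,56⟩⟩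 (2247,[(2,259261),(0,4520),(1,2756)]) (2247,[(2,712192),(0,5504),(1,5945)]) (321,[(2,9844),(0,119),(1,416)]))))))
theorem h93_ok : h93.check (ok 93 4 ⟨3, 3, 3⟩) (fun _ r => r) [] = true := by decide +kernel

def h95 : T := .node ⟨1,0,0⟩ (.node ⟨0,1,0⟩ (.node ⟨0,0,1⟩ (.node ⟨-30,5,90⟩ (.node ⟨5,90,-30⟩ (.node ⟨-30,30,85⟩ (.leaf false ⟨⟨-30,30,85⟩,⟨5,90,-30⟩,⟨90,5,30⟩⟩ (1,[(0,1)]) (1,[(1,1)]) (6,[(3,95),(5,570),(0,1)])) (.leaf false ⟨⟨-30,5,90⟩,⟨30,90,5⟩,⟨85,-30,30⟩⟩ (1,[(2,1)]) (1,[(1,36),(2,132),(0,127)]) (1,[(1,89),(2,336),(0,324)]))) (.leaf false ⟨⟨-30,5,90⟩,⟨30,90,5⟩,⟨85,-30,30⟩⟩ (1,[(1,1)]) (6,[(4,185),(3,630),(0,1)]) (1,[(4,90),(3,60),(0,1)]))) (.node ⟨69,-42,50⟩ (.leaf false ⟨⟨5,30,90⟩,⟨30,85,-30⟩,⟨90,-30,5⟩⟩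 (6,[(2,630),(1,1),(3,185)]) (1,[(2,60),(1,1),(3,90)]) (61,[(2,9065),(0,30),(1,114)])) (.leaf false ⟨⟨-75,50,-30⟩,⟨-6,42,85⟩,⟨58,69,-30⟩⟩ (61,[(2,3720),(1,20),(0,75)]) (305,[(2,125805),(1,882),(0,410)]) (915,[(2,738280),(1,7197),(0,2360)])))) (.node ⟨-30,5,-90⟩ (.node ⟨-76,57,0⟩ (.leaf false ⟨⟨-76,57,0⟩,⟨0,0,-95⟩,⟨57,76,0⟩⟩ (1,[(0,1)]) (1,[(2,95)]) (3,[(4,475),(0,4)])) (.node ⟨30,90,5⟩ (.leaf false ⟨⟨-27,14,-90⟩,⟨30,90,5⟩,⟨86,-27,-30⟩⟩ (76,[(4,855),(2,76),(1,3)]) (1,[(0,1)]) (803,[(2,285),(1,898),(0,312)])) (.leaf false ⟨⟨-90,5,-30⟩,⟨21,78,-50⟩,⟨22,-54,-75⟩⟩ (38,[(4,23275),(0,228),(1,45)]) (76,[(4,92625),(0,760),(1,321)]) (19,[(4,31350),(0,285),(1,118)])))) (.node ⟨85,-42,6⟩ (.leaf false ⟨⟨30,50,-75⟩,⟨30,69,58⟩,⟨85,-42,6⟩⟩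 (1,[(2,165),(1,1),(3,55)]) (1,[(2,32),(1,1),(3,74)]) (1,[(0,1)])) (.leaf false ⟨⟨-76,57,0⟩,⟨0,0,-95⟩,⟨57,76,0⟩⟩ (835,[(2,140790),(1,1653),(0,1330)]) (1,[(2,95)]) (835,[(2,781470),(1,8854),(0,2565)]))))) (.node ⟨0,0,1⟩ (.node ⟨-30,-90,5⟩ (.node ⟨-76,0,57⟩ (.leaf false ⟨⟨-76,0,57⟩,⟨0,-95,0⟩,⟨57,0,76⟩⟩ (1,[(0,1)]) (1,[(3,95)]) (3,[(4,475),(0,4)])) (.node ⟨30,5,90⟩ (.leaf false ⟨⟨-27,-90,14⟩,⟨30,5,90⟩,⟨86,-30,-27⟩⟩ (76,[(3,855),(1,3),(2,76)]) (1,[(0,1)]) (803,[(0,312),(1,898),(2,285)])) (.leaf false ⟨⟨-90,-30,5⟩,⟨21,-50,78⟩,⟨22,-75,-54⟩⟩ (38,[(3,23275),(1,45),(0,228)]) (76,[(3,92625),(1,321),(0,760)]) (19,[(3,31350),(1,118),(0,285)])))) (.node ⟨85,6,-42⟩ (.leaf false ⟨⟨30,-75,50⟩,⟨30,58,69⟩,⟨85,6,-42⟩⟩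 (1,[(2,55),(1,1),(3,165)]) (1,[(2,74),(1,1),(3,32)]) (1,[(0,1)])) (.leaf false ⟨⟨-76,0,57⟩,⟨0,-95,0⟩,⟨57,0,76⟩⟩ (835,[(1,1653),(3,140790),(0,1330)]) (1,[(3,95)]) (835,[(1,8854),(3,781470),(0,2565)])))) (.node ⟨76,0,57⟩ (.leaf false ⟨⟨0,-95,0⟩,⟨57,0,-76⟩,⟨76,0,57⟩⟩ (1,[(2,95)]) (4,[(1,475),(0,3)]) (1,[(0,1)])) (.node ⟨-54,22,-75⟩ (.node ⟨78,21,-50⟩ (.leaf false ⟨⟨-54,22,-75⟩,⟨5,-90,-30⟩,⟨78,21,-50⟩⟩ (1,[(1,1)]) (5,[(5,133),(4,494),(1,2)]) (1,[(0,1)])) (.leaf false ⟨⟨-90,-30,5⟩,⟨21,-50,78⟩,⟨22,-75,-54⟩⟩ (95,[(5,39900),(0,428),(1,279)]) (475,[(5,215175),(0,2034),(1,862)]) (475,[(5,805600),(0,6813),(1,4884)]))) (.leaf false ⟨⟨-75,-50,-30⟩,⟨30,-75,50⟩,⟨50,-30,-75⟩⟩ (209,[(4,14535),(0,475),(1,735)]) (1254,[(4,150670),(0,4275),(1,4525)])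 (209,[(4,44460),(0,285),(1,650)])))))) (.node ⟨0,1,0⟩ (.node ⟨0,0,1⟩ (.node ⟨-90,-30,5⟩ (.node ⟨0,-76,57⟩ (.leaf false ⟨⟨-95,0,0⟩,⟨0,-76,57⟩,⟨0,57,76⟩⟩ (1,[(4,95)]) (1,[(0,1)]) (3,[(0,4),(3,475)])) (.node ⟨5,30,90⟩ (.leaf false ⟨⟨-90,-27,14⟩,⟨-30,86,-27⟩,⟨5,30,90⟩⟩ (76,[(3,855),(2,76),(1,3)]) (803,[(2,285),(1,898),(0,312)]) (1,[(0,1)])) (.leaf false ⟨⟨-90,30,5⟩,⟨-27,-86,30⟩,⟨-14,-27,-90⟩⟩ (2,[(3,4105),(0,36),(1,15)]) (5,[(3,2865),(0,27),(1,5)]) (20,[(3,4095),(0,56),(1,15)])))) (.node ⟨6,85,-42⟩ (.leaf false ⟨⟨-75,30,50⟩,⟨6,85,-42⟩,⟨58,30,69⟩⟩ (1,[(2,55),(4,165),(1,1)]) (1,[(0,1)]) (1,[(2,74),(4,32),(1,1)])) (.leaf false ⟨⟨-95,0,0⟩,⟨0,-76,57⟩,⟨0,57,76⟩⟩ (1,[(4,95)]) (835,[(4,140790),(1,1653),(0,1330)])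 (835,[(4,781470),(1,8854),(0,2565)])))) (.node ⟨0,76,57⟩ (.leaf false ⟨⟨-95,0,0⟩,⟨0,57,-76⟩,⟨0,76,57⟩⟩ (1,[(3,95)]) (4,[(1,475),(0,3)]) (1,[(0,1)])) (.node ⟨22,-54,-75⟩ (.node ⟨21,78,-50⟩ (.leaf false ⟨⟨-90,5,-30⟩,⟨21,78,-50⟩,⟨22,-54,-75⟩⟩ (5,[(5,494),(4,133),(1,2)]) (1,[(0,1)]) (1,[(1,1)])) (.leaf false ⟨⟨-90,-30,5⟩,⟨-30,85,-30⟩,⟨5,-30,-90⟩⟩ (95,[(4,148200),(1,879),(0,1328)]) (95,[(4,76475),(1,426),(0,582)]) (95,[(4,39900),(1,328),(0,321)]))) (.leaf false ⟨⟨-75,-54,22⟩,⟨-50,78,21⟩,⟨-30,5,-90⟩⟩ (1254,[(1,5141),(0,4275),(3,92150)]) (209,[(1,548),(0,475),(3,32300)]) (209,[(1,705),(0,285),(3,39235)]))))) (.node ⟨0,0,1⟩ (.node ⟨0,57,76⟩ (.leaf false ⟨⟨-95,0,0⟩,⟨0,-76,57⟩,⟨0,57,76⟩⟩ (1,[(3,95)]) (4,[(0,3),(2,475)])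 (1,[(0,1)])) (.node ⟨22,-75,-54⟩ (.node ⟨21,-50,78⟩ (.leaf false ⟨⟨-90,-30,5⟩,⟨21,-50,78⟩,⟨22,-75,-54⟩⟩ (5,[(3,133),(5,494),(1,2)]) (1,[(0,1)]) (1,[(1,1)])) (.leaf false ⟨⟨-90,5,-30⟩,⟨-30,-30,85⟩,⟨5,-90,-30⟩⟩ (95,[(3,148200),(0,1328),(1,879)]) (95,[(3,76475),(0,582),(1,426)]) (95,[(3,39900),(0,321),(1,328)]))) (.leaf false ⟨⟨-75,-50,-30⟩,⟨-58,69,30⟩,⟨-6,-42,85⟩⟩ (1254,[(2,242630),(0,4275),(1,6725)]) (209,[(2,12388),(0,551),(1,472)]) (209,[(2,32091),(0,57),(1,229)])))) (.leaf false ⟨⟨-95,0,0⟩,⟨0,-95,0⟩,⟨0,0,-95⟩⟩ (1,[(2,95)]) (1,[(1,95)]) (1,[(0,95)]))))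
theorem h95_ok : h95.check (ok 95 4 ⟨3, 3, 3⟩) (fun _ r => r) [] = true := by decide +kernel

def h97 : T := .node ⟨1,0,0⟩ (.node ⟨0,1,0⟩ (.node ⟨0,0,1⟩ (.leaf false ⟨⟨0,0,97⟩,⟨0,97,0⟩,⟨97,0,0⟩⟩ (1,[(0,97)]) (1,[(1,97)]) (1,[(2,97)])) (.node ⟨0,72,65⟩ (.leaf false ⟨⟨0,65,-72⟩,⟨0,72,65⟩,⟨97,0,0⟩⟩ (72,[(1,9409),(0,65)]) (1,[(0,1)]) (1,[(3,97)])) (.node ⟨-52,72,-39⟩ (.leaf false ⟨⟨-52,72,-39⟩,⟨12,-39,-88⟩,⟨81,52,-12⟩⟩ (1,[(0,1)]) (65,[(1,88),(4,780),(3,3801)]) (13,[(4,1261),(3,388),(0,4)])) (.leaf false ⟨⟨12,88,-39⟩,⟨52,-39,-72⟩,⟨81,12,52⟩⟩ (65,[(1,48),(0,15),(3,10256)]) (65,[(1,111),(0,65),(3,10137)]) (52,[(1,7),(0,81),(3,6960)]))))) (.node ⟨0,0,1⟩ (.node ⟨0,65,72⟩ (.leaf false ⟨⟨0,-72,65⟩,⟨0,65,72⟩,⟨97,0,0⟩⟩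 (72,[(0,65),(2,9409)]) (1,[(0,1)]) (1,[(3,97)])) (.node ⟨-52,-39,72⟩ (.leaf false ⟨⟨-52,-39,72⟩,⟨12,-88,-39⟩,⟨81,-12,52⟩⟩ (1,[(0,1)]) (65,[(2,3801),(4,780),(1,88)]) (13,[(2,388),(4,1261),(0,4)])) (.leaf false ⟨⟨12,-39,88⟩,⟨52,-72,-39⟩,⟨81,52,12⟩⟩ (65,[(2,10256),(0,15),(1,48)]) (65,[(2,10137),(0,65),(1,111)]) (52,[(2,6960),(0,81),(1,7)])))) (.node ⟨-56,-63,-48⟩ (.node ⟨60,-72,25⟩ (.node ⟨60,25,-72⟩ (.leaf false ⟨⟨-47,-60,-60⟩,⟨60,-72,25⟩,⟨60,25,-72⟩⟩ (288,[(0,46),(4,97),(2,291)]) (1,[(1,1)]) (1,[(0,1)])) (.leaf false ⟨⟨-72,-63,-16⟩,⟨33,-56,72⟩,⟨56,-48,-63⟩⟩ (25,[(3,4936),(5,1980),(0,63)]) (25,[(3,2232),(5,4185),(0,56)]) (25,[(3,5031),(5,4280),(0,48)]))) (.leaf false ⟨⟨-72,-16,-63⟩,⟨33,72,-56⟩,⟨56,-63,-48⟩⟩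 (25,[(4,1980),(3,4936),(0,63)]) (25,[(4,4185),(3,2232),(0,56)]) (25,[(4,4280),(3,5031),(0,48)]))) (.node ⟨24,33,-88⟩ (.leaf false ⟨⟨24,33,-88⟩,⟨33,-88,-24⟩,⟨88,24,33⟩⟩ (1,[(0,1)]) (56,[(2,2928),(1,33),(3,7007)]) (7,[(2,297),(1,11),(3,525)])) (.leaf false ⟨⟨-52,-72,-39⟩,⟨-12,-39,88⟩,⟨81,-52,-12⟩⟩ (28,[(2,6684),(1,1),(0,63)]) (28,[(2,10168),(1,45),(0,119)]) (336,[(2,897560),(1,3921),(0,8015)])))))) (.node ⟨0,1,0⟩ (.node ⟨0,0,1⟩ (.node ⟨65,0,72⟩ (.leaf false ⟨⟨-72,0,65⟩,⟨0,97,0⟩,⟨65,0,72⟩⟩ (72,[(3,9409),(0,65)]) (1,[(2,97)]) (1,[(0,1)])) (.node ⟨-39,-52,72⟩ (.leaf false ⟨⟨-88,12,-39⟩,⟨-39,-52,72⟩,⟨-12,81,52⟩⟩ (65,[(2,3801),(1,88),(3,780)]) (1,[(0,1)]) (13,[(2,388),(0,4),(3,1261)])) (.leaf false ⟨⟨-88,24,33⟩,⟨-24,33,-88⟩,⟨33,88,24⟩⟩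 (65,[(2,11937),(1,106),(0,30)]) (52,[(2,608),(1,39),(0,33)]) (65,[(2,11856),(1,33),(0,110)])))) (.node ⟨-72,33,56⟩ (.node ⟨24,88,33⟩ (.node ⟨33,88,24⟩ (.leaf false ⟨⟨-88,24,33⟩,⟨-24,33,-88⟩,⟨33,88,24⟩⟩ (11,[(3,85),(5,392),(2,8)]) (8,[(3,776),(5,291),(0,3)]) (1,[(0,1)])) (.leaf false ⟨⟨-88,-12,-39⟩,⟨-39,52,72⟩,⟨12,81,-52⟩⟩ (198,[(3,23607),(0,1864),(1,1837)]) (22,[(3,15),(0,130),(1,143)]) (264,[(3,24411),(0,296),(1,539)]))) (.leaf false ⟨⟨-84,-47,12⟩,⟨-48,84,-7⟩,⟨-7,-12,-96⟩⟩ (66,[(2,575),(0,57),(1,58)]) (3,[(2,133),(1,2),(3,186)]) (24,[(2,2073),(0,7),(3,328)]))) (.leaf false ⟨⟨-84,-12,-47⟩,⟨-7,96,-12⟩,⟨48,-7,-84⟩⟩ (56,[(3,8088),(2,879),(0,47)]) (14,[(3,314),(2,1443),(0,3)]) (2,[(3,120),(2,85),(0,3)]))))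 (.node ⟨0,0,1⟩ (.node ⟨-72,56,33⟩ (.node ⟨24,33,88⟩ (.node ⟨33,24,88⟩ (.leaf false ⟨⟨-88,33,24⟩,⟨-24,-88,33⟩,⟨33,24,88⟩⟩ (11,[(2,8),(5,392),(4,85)]) (8,[(5,291),(4,776),(0,3)]) (1,[(0,1)])) (.leaf false ⟨⟨-88,-39,-12⟩,⟨-39,72,52⟩,⟨12,-52,81⟩⟩ (198,[(4,23607),(1,1837),(0,1864)]) (22,[(4,15),(1,143),(0,130)]) (264,[(4,24411),(1,539),(0,296)]))) (.leaf false ⟨⟨-84,12,-47⟩,⟨-48,-7,84⟩,⟨-7,-96,-12⟩⟩ (66,[(1,58),(0,57),(3,575)]) (3,[(2,186),(1,2),(3,133)]) (24,[(2,328),(0,7),(3,2073)]))) (.leaf false ⟨⟨-84,-47,-12⟩,⟨-7,-12,96⟩,⟨48,-84,-7⟩⟩ (56,[(1,879),(3,8088),(0,47)]) (14,[(1,1443),(3,314),(0,3)]) (2,[(1,85),(3,120),(0,3)]))) (.node ⟨-56,48,-63⟩ (.node ⟨33,-56,-72⟩ (.node ⟨-63,-56,48⟩ (.leaf false ⟨⟨-72,-63,16⟩,⟨-56,48,-63⟩,⟨33,-56,-72⟩⟩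 (3,[(5,153),(0,1),(4,133)]) (1,[(2,1)]) (1,[(1,1)])) (.leaf false ⟨⟨-63,56,-48⟩,⟨-16,-72,-63⟩,⟨72,33,-56⟩⟩ (1,[(5,126),(0,1)]) (16,[(5,1579),(4,2328),(0,21)]) (6,[(5,9),(4,194),(0,7)]))) (.leaf false ⟨⟨-84,12,-47⟩,⟨-48,-7,84⟩,⟨-7,-96,-12⟩⟩ (11,[(2,2533),(0,28),(3,1436)]) (11,[(2,228),(0,16),(3,973)]) (33,[(2,900),(0,7),(3,3560)]))) (.leaf false ⟨⟨-72,-63,-16⟩,⟨33,-56,72⟩,⟨56,-48,-63⟩⟩ (16,[(1,1579),(3,2328),(0,21)]) (6,[(1,9),(3,194),(0,7)]) (1,[(1,126),(0,1)])))))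
theorem h97_ok : h97.check (ok 97 4 ⟨3, 3, 3⟩) (fun _ r => r) [] = true := by decide +kernel

def h101 : T := .node ⟨1,0,0⟩ (.node ⟨0,1,0⟩ (.node ⟨0,0,1⟩ (.leaf false ⟨⟨0,0,101⟩,⟨0,101,0⟩,⟨101,0,0⟩⟩ (1,[(0,101)]) (1,[(1,101)]) (1,[(2,101)])) (.node ⟨-48,29,-84⟩ (.node ⟨-27,96,16⟩ (.leaf false ⟨⟨-27,96,16⟩,⟨-16,12,-99⟩,⟨96,29,-12⟩⟩ (1,[(0,1)]) (29,[(2,1863),(4,112),(1,12)]) (96,[(2,1616),(4,9999),(0,29)])) (.leaf false ⟨⟨-48,29,-84⟩,⟨56,84,-3⟩,⟨69,-48,-56⟩⟩ (1,[(1,1)]) (16,[(4,815),(3,1632),(0,3)]) (253,[(3,54742),(1,34),(0,707)]))) (.leaf false ⟨⟨21,92,-36⟩,⟨52,21,84⟩,⟨84,-36,-43⟩⟩ (16,[(1,1164),(0,7),(2,1675)]) (12,[(1,84),(0,13),(2,629)]) (4,[(1,760),(0,7),(2,59)])))) (.node ⟨0,0,1⟩ (.node ⟨-48,-84,29⟩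 (.node ⟨-27,16,96⟩ (.leaf false ⟨⟨-27,16,96⟩,⟨-16,-99,12⟩,⟨96,-12,29⟩⟩ (1,[(0,1)]) (29,[(4,112),(3,1863),(1,12)]) (96,[(4,9999),(3,1616),(0,29)])) (.leaf false ⟨⟨-48,-84,29⟩,⟨56,-3,84⟩,⟨69,-56,-48⟩⟩ (1,[(1,1)]) (16,[(2,1632),(4,815),(0,3)]) (253,[(2,54742),(0,707),(1,34)]))) (.leaf false ⟨⟨21,-36,92⟩,⟨52,84,21⟩,⟨84,-43,-36⟩⟩ (16,[(1,1675),(0,7),(2,1164)]) (12,[(1,629),(0,13),(2,84)]) (4,[(1,59),(0,7),(2,760)]))) (.node ⟨0,20,-99⟩ (.leaf false ⟨⟨0,-99,-20⟩,⟨0,20,-99⟩,⟨101,0,0⟩⟩ (99,[(0,20),(2,10201)]) (1,[(0,1)]) (1,[(3,101)])) (.leaf false ⟨⟨0,-99,20⟩,⟨0,-20,-99⟩,⟨101,0,0⟩⟩ (20,[(1,9401),(0,99)]) (1,[(1,198),(0,1)]) (1,[(3,101)]))))) (.node ⟨0,1,0⟩ (.node ⟨0,0,1⟩ (.node ⟨-84,-48,29⟩ (.node ⟨16,-27,96⟩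 (.leaf false ⟨⟨-99,-16,12⟩,⟨-12,96,29⟩,⟨16,-27,96⟩⟩ (29,[(1,12),(4,1863),(3,112)]) (96,[(4,1616),(3,9999),(0,29)]) (1,[(0,1)])) (.leaf false ⟨⟨-84,-48,29⟩,⟨-56,69,-48⟩,⟨-3,56,84⟩⟩ (1,[(1,1)]) (253,[(2,54742),(1,34),(0,707)]) (16,[(2,1632),(0,3),(3,815)]))) (.leaf false ⟨⟨-72,61,-36⟩,⟨-16,36,93⟩,⟨69,72,-16⟩⟩ (48,[(1,41),(3,8580),(0,61)]) (4,[(1,459),(3,316),(0,3)]) (2,[(1,55),(3,114),(0,3)]))) (.node ⟨20,0,-99⟩ (.leaf false ⟨⟨-99,0,-20⟩,⟨0,101,0⟩,⟨20,0,-99⟩⟩ (99,[(3,10201),(0,20)]) (1,[(2,101)]) (1,[(0,1)])) (.leaf false ⟨⟨-99,0,20⟩,⟨-20,0,-99⟩,⟨0,101,0⟩⟩ (20,[(1,9401),(0,99)]) (1,[(1,198),(0,1)]) (1,[(2,101)])))) (.node ⟨0,0,1⟩ (.node ⟨20,-99,0⟩ (.leaf false ⟨⟨-99,-20,0⟩,⟨0,0,101⟩,⟨20,-99,0⟩⟩ (99,[(3,10201),(0,20)])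 (1,[(1,101)]) (1,[(0,1)])) (.leaf false ⟨⟨-99,20,0⟩,⟨-20,-99,0⟩,⟨0,0,101⟩⟩ (20,[(0,99),(2,9401)]) (1,[(0,1),(2,198)]) (1,[(1,101)]))) (.node ⟨-12,29,-96⟩ (.node ⟨-96,12,29⟩ (.leaf false ⟨⟨-99,12,16⟩,⟨-16,-96,-27⟩,⟨-12,29,-96⟩⟩ (32,[(2,445),(0,33),(3,12)]) (6,[(2,191),(0,1),(3,588)]) (1,[(1,1)])) (.leaf false ⟨⟨-96,-27,-16⟩,⟨12,16,-99⟩,⟨29,-96,-12⟩⟩ (6,[(1,1),(4,564),(3,191)]) (797,[(1,763),(3,7035),(0,195)]) (29,[(4,311),(3,2640),(0,12)]))) (.leaf false ⟨⟨-96,-27,16⟩,⟨-12,-16,-99⟩,⟨29,-96,12⟩⟩ (29,[(1,2128),(3,3108),(0,27)]) (29,[(1,4407),(3,540),(0,16)]) (29,[(1,8868),(3,311),(0,96)])))))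
theorem h101_ok : h101.check (ok 101 4 ⟨3, 3, 3⟩) (fun _ r => r) [] = true := by decide +kernel

def h103 : T := .node ⟨1,0,0⟩ (.node ⟨0,1,0⟩ (.node ⟨0,0,1⟩ (.node ⟨-67,42,66⟩ (.node ⟨42,77,-54⟩ (.node ⟨-42,93,-14⟩ (.leaf false ⟨⟨-42,93,-14⟩,⟨-3,14,102⟩,⟨94,42,-3⟩⟩ (1,[(0,1)]) (3,[(3,240),(5,58),(2,1)]) (11,[(3,291),(5,782),(1,6)])) (.leaf false ⟨⟨-67,42,66⟩,⟨42,-54,77⟩,⟨66,77,18⟩⟩ (1,[(2,1)]) (326944,[(1,426111),(2,561204),(0,796087)]) (40868,[(1,101249),(2,76092),(0,84357)]))) (.leaf false ⟨⟨-67,42,66⟩,⟨42,-54,77⟩,⟨66,77,18⟩⟩ (1,[(1,1)]) (54,[(4,5502),(3,3013),(0,77)]) (3,[(4,240),(3,308),(0,1)]))) (.leaf false ⟨⟨14,-3,102⟩,⟨42,94,-3⟩,⟨93,-42,-14⟩⟩ (67,[(1,7758),(0,14),(2,387)]) (67,[(1,2571),(0,42),(2,8062)])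 (67,[(1,5200),(0,93),(2,1092)]))) (.node ⟨-50,90,-3⟩ (.node ⟨78,45,50⟩ (.leaf false ⟨⟨-50,90,-3⟩,⟨45,22,-90⟩,⟨78,45,50⟩⟩ (1,[(1,1)]) (45,[(2,4017),(4,2575),(1,11)]) (1,[(0,1)])) (.node ⟨-42,-66,-67⟩ (.leaf false ⟨⟨-54,77,-42⟩,⟨-42,-66,-67⟩,⟨77,18,-66⟩⟩ (25,[(5,288),(4,2870),(1,21)]) (1,[(0,1)]) (25,[(5,4499),(4,1935),(1,33)])) (.leaf false ⟨⟨-102,14,-3⟩,⟨-3,-42,-94⟩,⟨14,93,-42⟩⟩ (285,[(5,24468),(0,835),(1,1136)]) (19,[(5,11607),(0,142),(1,226)]) (95,[(5,143848),(0,2180),(1,3001)])))) (.node ⟨66,78,13⟩ (.leaf false ⟨⟨13,6,-102⟩,⟨66,78,13⟩,⟨78,-67,6⟩⟩ (50,[(2,5139),(1,13),(3,1470)]) (1,[(0,1)]) (4920,[(2,10094),(1,5253),(0,1835)])) (.leaf false ⟨⟨-99,-18,-22⟩,⟨18,22,-99⟩,⟨22,-99,-18⟩⟩ (452,[(1,165),(3,69348),(0,803)])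 (113,[(1,1692),(3,252344),(0,1251)]) (226,[(1,737),(3,81630),(0,483)]))))) (.node ⟨0,0,1⟩ (.node ⟨-50,-3,90⟩ (.node ⟨78,50,45⟩ (.leaf false ⟨⟨-50,-3,90⟩,⟨45,-90,22⟩,⟨78,50,45⟩⟩ (1,[(1,1)]) (45,[(4,2575),(3,4017),(1,11)]) (1,[(0,1)])) (.node ⟨-42,-67,-66⟩ (.leaf false ⟨⟨-54,-42,77⟩,⟨-42,-67,-66⟩,⟨77,-66,18⟩⟩ (25,[(3,2870),(5,288),(1,21)]) (1,[(0,1)]) (25,[(3,1935),(5,4499),(1,33)])) (.leaf false ⟨⟨-102,-3,14⟩,⟨-3,-94,-42⟩,⟨14,-42,93⟩⟩ (285,[(5,24468),(1,1136),(0,835)]) (19,[(5,11607),(1,226),(0,142)]) (95,[(5,143848),(1,3001),(0,2180)])))) (.node ⟨66,13,78⟩ (.leaf false ⟨⟨13,-102,6⟩,⟨66,13,78⟩,⟨78,6,-67⟩⟩ (50,[(2,1470),(1,13),(3,5139)]) (1,[(0,1)]) (226,[(2,10094),(0,33),(1,309)])) (.leaf false ⟨⟨-99,-22,-18⟩,⟨18,-99,22⟩,⟨22,-18,-99⟩⟩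 (452,[(2,69348),(1,165),(0,803)]) (113,[(2,252344),(1,1692),(0,1251)]) (226,[(2,81630),(1,737),(0,483)])))) (.node ⟨93,-14,42⟩ (.node ⟨-42,-94,-3⟩ (.leaf false ⟨⟨-42,-94,-3⟩,⟨14,-3,-102⟩,⟨93,-42,14⟩⟩ (1,[(0,1)]) (94,[(2,9579),(4,1442),(0,3)]) (285,[(4,21630),(1,103),(0,112)])) (.leaf false ⟨⟨13,6,-102⟩,⟨66,78,13⟩,⟨78,-67,6⟩⟩ (42,[(2,4323),(0,13),(3,970)]) (1555,[(2,4370),(0,1363),(1,488)]) (31,[(2,906),(1,26),(3,1713)]))) (.leaf false ⟨⟨-78,-6,-67⟩,⟨13,-102,-6⟩,⟨66,13,-78⟩⟩ (42,[(3,2955),(2,1190),(0,67)]) (7,[(3,184),(2,728),(0,1)]) (7,[(3,1671),(2,91),(0,13)]))))) (.node ⟨0,1,0⟩ (.node ⟨0,0,1⟩ (.node ⟨-3,90,-50⟩ (.node ⟨50,45,78⟩ (.leaf false ⟨⟨-90,22,45⟩,⟨-3,90,-50⟩,⟨50,45,78⟩⟩ (45,[(2,2575),(4,4017),(1,11)])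 (1,[(1,1)]) (1,[(0,1)])) (.node ⟨-67,-66,-42⟩ (.leaf false ⟨⟨-67,-66,-42⟩,⟨-66,18,77⟩,⟨-42,77,-54⟩⟩ (1,[(0,1)]) (25,[(3,4499),(1,33),(4,1935)]) (25,[(3,288),(1,21),(4,2870)])) (.leaf false ⟨⟨-102,-14,-3⟩,⟨-14,93,42⟩,⟨-3,42,-94⟩⟩ (285,[(3,287697),(1,5794),(0,3890)]) (19,[(3,23220),(1,477),(0,352)]) (95,[(3,38092),(1,1004),(0,745)])))) (.node ⟨13,78,66⟩ (.leaf false ⟨⟨-102,6,13⟩,⟨6,-67,78⟩,⟨13,78,66⟩⟩ (50,[(4,5139),(3,1470),(1,13)]) (4920,[(4,10094),(0,1835),(1,5253)]) (1,[(0,1)])) (.leaf false ⟨⟨-102,-3,-14⟩,⟨-14,42,93⟩,⟨-3,-94,42⟩⟩ (226,[(3,491334),(1,3275),(0,2529)]) (452,[(3,287316),(1,2133),(0,979)]) (113,[(3,11500),(1,186),(0,69)])))) (.node ⟨-14,93,42⟩ (.node ⟨-94,-42,-3⟩ (.leaf false ⟨⟨-102,-14,-3⟩,⟨-14,93,42⟩,⟨-3,42,-94⟩⟩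 (665,[(0,721),(1,4),(3,20600)]) (1,[(1,1)]) (14,[(2,1442),(1,3),(3,309)])) (.leaf false ⟨⟨-67,78,6⟩,⟨6,13,-102⟩,⟨78,66,13⟩⟩ (31,[(2,906),(4,1713),(1,26)]) (42,[(2,4323),(4,970),(0,13)]) (1555,[(2,4370),(1,488),(0,1363)]))) (.leaf false ⟨⟨-102,13,-6⟩,⟨-6,-78,-67⟩,⟨13,66,-78⟩⟩ (7,[(3,728),(2,184),(0,1)]) (42,[(3,1190),(2,2955),(0,67)]) (7,[(3,91),(2,1671),(0,13)])))) (.node ⟨0,0,1⟩ (.node ⟨-14,42,93⟩ (.node ⟨-94,-3,-42⟩ (.leaf false ⟨⟨-102,-3,-14⟩,⟨-14,42,93⟩,⟨-3,-94,42⟩⟩ (665,[(2,20600),(1,4),(0,721)]) (1,[(1,1)]) (14,[(2,309),(1,3),(3,1442)])) (.leaf false ⟨⟨-67,6,78⟩,⟨6,-102,13⟩,⟨78,13,66⟩⟩ (31,[(1,26),(4,1713),(3,906)]) (42,[(4,970),(3,4323),(0,13)]) (1555,[(1,488),(3,4370),(0,1363)]))) (.leaf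 false ⟨⟨-102,-6,13⟩,⟨-6,-67,-78⟩,⟨13,-78,66⟩⟩ (7,[(1,184),(3,728),(0,1)]) (42,[(1,2955),(3,1190),(0,67)]) (7,[(1,1671),(3,91),(0,13)]))) (.leaf false ⟨⟨-103,0,0⟩,⟨0,-103,0⟩,⟨0,0,-103⟩⟩ (1,[(2,103)]) (1,[(1,103)]) (1,[(0,103)]))))
theorem h103_ok : h103.check (ok 103 4 ⟨3, 3, 3⟩) (fun _ r => r) [] = true := by decide +kernel

def h107 : T := .node ⟨1,0,0⟩ (.node ⟨0,1,0⟩ (.node ⟨0,0,1⟩ (.node ⟨-42,9,98⟩ (.node ⟨9,98,-42⟩ (.node ⟨-42,42,89⟩ (.leaf false ⟨⟨-42,42,89⟩,⟨9,98,-42⟩,⟨98,9,42⟩⟩ (1,[(0,1)]) (1,[(1,1)]) (14,[(3,321),(5,1498),(0,3)])) (.leaf false ⟨⟨-42,9,98⟩,⟨42,98,9⟩,⟨89,-42,42⟩⟩ (1,[(2,1)]) (27,[(1,588),(2,1792),(0,1693)]) (81,[(1,3153),(2,10108),(0,9604)]))) (.leaf false ⟨⟨-42,9,98⟩,⟨42,98,9⟩,⟨89,-42,42⟩⟩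 (1,[(1,1)]) (14,[(4,615),(3,1666),(0,3)]) (1,[(4,98),(3,56),(0,1)]))) (.leaf false ⟨⟨10,105,-18⟩,⟨57,10,90⟩,⟨90,-18,-55⟩⟩ (21,[(1,112),(0,5),(2,2250)]) (14,[(1,3122),(0,19),(2,311)]) (7,[(1,1085),(0,15),(2,9)]))) (.node ⟨-66,57,-62⟩ (.node ⟨42,-46,-87⟩ (.leaf false ⟨⟨-66,57,-62⟩,⟨42,-46,-87⟩,⟨73,78,-6⟩⟩ (1,[(1,1)]) (1,[(0,1)]) (29,[(4,2033),(3,2354),(0,2)])) (.leaf false ⟨⟨-78,73,-6⟩,⟨46,42,-87⟩,⟨57,66,62⟩⟩ (107,[(2,642),(0,62),(1,87)]) (19,[(2,785),(4,1798),(1,14)]) (23,[(2,1445),(4,2697),(0,33)]))) (.node ⟨73,-66,-42⟩ (.leaf false ⟨⟨6,62,-87⟩,⟨73,-66,-42⟩,⟨78,57,46⟩⟩ (11,[(2,1019),(1,1),(3,739)]) (1,[(0,1)]) (11,[(2,300),(1,13),(3,1368)])) (.leaf false ⟨⟨-78,73,-6⟩,⟨46,42,-87⟩,⟨57,66,62⟩⟩ (195,[(2,28016),(1,181),(0,372)])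 (65,[(2,207279),(1,2034),(0,1798)]) (1,[(2,4304),(1,44),(0,39)]))))) (.node ⟨0,0,1⟩ (.node ⟨-66,-62,57⟩ (.node ⟨42,-87,-46⟩ (.leaf false ⟨⟨-66,-62,57⟩,⟨42,-87,-46⟩,⟨73,-6,78⟩⟩ (1,[(1,1)]) (1,[(0,1)]) (29,[(2,2354),(4,2033),(0,2)])) (.leaf false ⟨⟨-78,-6,73⟩,⟨46,-87,42⟩,⟨57,62,66⟩⟩ (107,[(3,642),(1,87),(0,62)]) (19,[(4,1798),(3,785),(1,14)]) (23,[(4,2697),(3,1445),(0,33)]))) (.node ⟨73,-42,-66⟩ (.leaf false ⟨⟨6,-87,62⟩,⟨73,-42,-66⟩,⟨78,46,57⟩⟩ (11,[(2,739),(1,1),(3,1019)]) (1,[(0,1)]) (11,[(2,1368),(1,13),(3,300)])) (.leaf false ⟨⟨-78,-6,73⟩,⟨46,-87,42⟩,⟨57,62,66⟩⟩ (195,[(1,181),(3,28016),(0,372)]) (65,[(1,2034),(3,207279),(0,1798)]) (1,[(1,44),(3,4304),(0,39)])))) (.node ⟨10,-90,57⟩ (.node ⟨105,18,10⟩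 (.leaf false ⟨⟨10,-90,57⟩,⟨18,-55,-90⟩,⟨105,18,10⟩⟩ (1,[(1,1)]) (35,[(2,3210),(0,6),(3,2033)]) (1,[(0,1)])) (.node ⟨-10,-90,57⟩ (.leaf false ⟨⟨-18,-55,-90⟩,⟨-10,-90,57⟩,⟨105,-18,-10⟩⟩ (18,[(3,1070),(5,5451),(1,55)]) (1,[(0,1)]) (1,[(5,210),(1,1)])) (.leaf false ⟨⟨-78,-71,18⟩,⟨-39,18,-98⟩,⟨62,-78,-39⟩⟩ (38520,[(2,114947),(1,48540),(0,94267)]) (535,[(2,10053),(1,2165),(0,10593)]) (3210,[(2,79631),(1,13260),(0,79501)])))) (.node ⟨-18,-90,-55⟩ (.leaf false ⟨⟨-18,-90,-55⟩,⟨-10,57,-90⟩,⟨105,-10,-18⟩⟩ (1,[(0,1)]) (19,[(4,110),(3,1617),(1,30)]) (19,[(4,2055),(3,730),(1,6)])) (.leaf false ⟨⟨-6,-87,-62⟩,⟨73,42,-66⟩,⟨78,-46,57⟩⟩ (238,[(3,68586),(1,393),(0,139)]) (476,[(3,882168),(1,5203),(0,4821)]) (7,[(3,9772),(1,48),(0,57)]))))))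 (.node ⟨0,1,0⟩ (.node ⟨0,0,1⟩ (.node ⟨-62,57,-66⟩ (.node ⟨-87,-46,42⟩ (.leaf false ⟨⟨-87,-46,42⟩,⟨-62,57,-66⟩,⟨-6,78,73⟩⟩ (1,[(0,1)]) (1,[(1,1)]) (29,[(2,2033),(0,2),(3,2354)])) (.leaf false ⟨⟨-87,6,62⟩,⟨-42,73,-66⟩,⟨46,78,57⟩⟩ (19,[(2,1310),(4,1529),(1,2)]) (46,[(2,30),(4,8283),(0,73)]) (23,[(2,2949),(4,2335),(0,39)]))) (.node ⟨-42,-66,73⟩ (.leaf false ⟨⟨-87,62,6⟩,⟨-42,-66,73⟩,⟨46,57,78⟩⟩ (11,[(4,1019),(3,739),(1,1)]) (1,[(0,1)]) (11,[(4,300),(3,1368),(1,13)])) (.leaf false ⟨⟨-87,6,62⟩,⟨-42,73,-66⟩,⟨46,78,57⟩⟩ (13,[(4,30859),(0,262),(1,302)]) (195,[(4,112868),(0,1056),(1,973)]) (65,[(4,309992),(0,2799),(1,3152)])))) (.node ⟨-90,10,57⟩ (.node ⟨18,105,10⟩ (.leaf false ⟨⟨-90,10,57⟩,⟨-55,18,-90⟩,⟨18,105,10⟩⟩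 (1,[(1,1)]) (35,[(2,3210),(4,2033),(0,6)]) (1,[(0,1)])) (.node ⟨-90,-10,57⟩ (.leaf false ⟨⟨-90,-10,57⟩,⟨-55,-18,-90⟩,⟨-18,105,-10⟩⟩ (1,[(0,1)]) (18,[(3,1070),(1,55),(4,5451)]) (1,[(1,1),(4,210)])) (.leaf false ⟨⟨-98,-42,9⟩,⟨-42,89,-42⟩,⟨9,-42,-98⟩⟩ (4815,[(1,11940),(2,54001),(0,51146)]) (3210,[(1,10290),(2,68027),(0,68587)]) (4280,[(1,18460),(2,85867),(0,89987)])))) (.node ⟨-90,-18,-55⟩ (.leaf false ⟨⟨-90,-18,-55⟩,⟨-10,105,-18⟩,⟨57,-10,-90⟩⟩ (1,[(0,1)]) (19,[(4,730),(3,2055),(1,6)]) (19,[(4,1617),(3,110),(1,30)])) (.leaf false ⟨⟨-98,42,9⟩,⟨9,42,-98⟩,⟨42,89,42⟩⟩ (119,[(4,111832),(0,576),(1,537)]) (34,[(4,47574),(0,241),(1,291)]) (476,[(4,771288),(0,4653),(1,4139)]))))) (.node ⟨0,0,1⟩ (.node ⟨57,-90,10⟩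 (.node ⟨10,18,105⟩ (.leaf false ⟨⟨-90,-55,18⟩,⟨10,18,105⟩,⟨57,-90,10⟩⟩ (35,[(4,3210),(3,2033),(0,6)]) (1,[(0,1)]) (1,[(1,1)])) (.node ⟨57,-90,-10⟩ (.leaf false ⟨⟨-90,-55,-18⟩,⟨-10,-18,105⟩,⟨57,-90,-10⟩⟩ (18,[(3,5451),(5,1070),(1,55)]) (1,[(3,210),(1,1)]) (1,[(0,1)])) (.leaf false ⟨⟨-98,9,-42⟩,⟨-42,-42,89⟩,⟨9,-98,-42⟩⟩ (4280,[(0,89987),(1,18460),(2,85867)]) (3210,[(0,68587),(1,10290),(2,68027)]) (4815,[(0,51146),(1,11940),(2,54001)])))) (.node ⟨-55,-90,-18⟩ (.leaf false ⟨⟨-90,57,-10⟩,⟨-55,-90,-18⟩,⟨-18,-10,105⟩⟩ (19,[(2,110),(1,30),(3,1617)]) (1,[(0,1)]) (19,[(2,2055),(1,6),(3,730)])) (.leaf false ⟨⟨-98,9,42⟩,⟨9,-98,42⟩,⟨42,42,89⟩⟩ (34,[(1,291),(3,47574),(0,241)]) (119,[(1,537),(3,111832),(0,576)])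 (476,[(1,4139),(3,771288),(0,4653)])))) (.leaf false ⟨⟨-107,0,0⟩,⟨0,-107,0⟩,⟨0,0,-107⟩⟩ (1,[(2,107)]) (1,[(1,107)]) (1,[(0,107)]))))
theorem h107_ok : h107.check (ok 107 4 ⟨3, 3, 3⟩) (fun _ r => r) [] = true := by decide +kernel

def h109 : T := .node ⟨1,0,0⟩ (.node ⟨0,1,0⟩ (.node ⟨0,0,1⟩ (.leaf false ⟨⟨0,0,109⟩,⟨0,109,0⟩,⟨109,0,0⟩⟩ (1,[(0,109)]) (1,[(1,109)]) (1,[(2,109)])) (.node ⟨-48,36,-91⟩ (.node ⟨37,96,36⟩ (.node ⟨96,-19,-48⟩ (.leaf false ⟨⟨-36,48,-91⟩,⟨37,96,36⟩,⟨96,-19,-48⟩⟩ (1,[(5,12),(4,12),(2,1)]) (1,[(1,1)]) (1,[(0,1)])) (.leaf false ⟨⟨-99,36,28⟩,⟨-12,44,-99⟩,⟨44,93,36⟩⟩ (19,[(3,1196),(5,1575),(0,36)]) (19,[(3,3993),(5,3996),(0,44)]) (19,[(3,3780),(5,9764),(0,93)]))) (.leaf false ⟨⟨-51,-72,-64⟩,⟨8,69,-84⟩,⟨96,-44,-27⟩⟩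 (9,[(4,133),(3,888),(0,16)]) (3,[(4,283),(3,879),(0,7)]) (4,[(4,495),(3,112),(0,3)]))) (.leaf false ⟨⟨44,96,-27⟩,⟨69,-8,84⟩,⟨72,-51,-64⟩⟩ (12,[(1,1325),(0,11),(2,1548)]) (16,[(1,749),(0,23),(2,700)]) (2,[(1,401),(0,3),(2,6)])))) (.node ⟨0,0,1⟩ (.node ⟨-48,-91,36⟩ (.node ⟨37,36,96⟩ (.node ⟨96,-48,-19⟩ (.leaf false ⟨⟨-36,-91,48⟩,⟨37,36,96⟩,⟨96,-48,-19⟩⟩ (1,[(3,12),(5,12),(2,1)]) (1,[(1,1)]) (1,[(0,1)])) (.leaf false ⟨⟨-99,-12,44⟩,⟨28,-99,36⟩,⟨36,44,93⟩⟩ (19,[(5,2343),(4,2340),(0,44)]) (19,[(5,3988),(4,3609),(0,36)]) (19,[(5,9612),(4,3628),(0,93)]))) (.leaf false ⟨⟨-51,-64,-72⟩,⟨8,-84,69⟩,⟨96,-27,-44⟩⟩ (9,[(2,888),(4,133),(0,16)]) (3,[(2,879),(4,283),(0,7)]) (4,[(2,112),(4,495),(0,3)]))) (.leaf false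 ⟨⟨44,-27,96⟩,⟨69,84,-8⟩,⟨72,-64,-51⟩⟩ (12,[(1,1548),(0,11),(2,1325)]) (16,[(1,700),(0,23),(2,749)]) (2,[(1,6),(0,3),(2,401)]))) (.node ⟨0,60,-91⟩ (.leaf false ⟨⟨0,-91,-60⟩,⟨0,60,-91⟩,⟨109,0,0⟩⟩ (91,[(0,60),(2,11881)]) (1,[(0,1)]) (1,[(3,109)])) (.leaf false ⟨⟨0,-91,60⟩,⟨0,-60,-91⟩,⟨109,0,0⟩⟩ (60,[(1,4681),(0,91)]) (1,[(1,182),(0,1)]) (1,[(3,109)]))))) (.node ⟨0,1,0⟩ (.node ⟨0,0,1⟩ (.node ⟨-91,-48,36⟩ (.node ⟨36,37,96⟩ (.node ⟨-48,96,-19⟩ (.leaf false ⟨⟨-91,-36,48⟩,⟨-48,96,-19⟩,⟨36,37,96⟩⟩ (1,[(3,12),(2,1),(4,12)]) (1,[(0,1)]) (1,[(1,1)])) (.leaf false ⟨⟨-99,-12,44⟩,⟨28,-99,36⟩,⟨36,44,93⟩⟩ (19,[(5,3993),(4,3996),(0,44)]) (19,[(5,1196),(4,1575),(0,36)]) (19,[(5,3780),(4,9764),(0,93)]))) (.leaf false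 ⟨⟨-91,0,60⟩,⟨-60,0,-91⟩,⟨0,109,0⟩⟩ (36,[(2,10896),(0,91),(3,3367)]) (3,[(2,207),(0,5),(3,185)]) (1,[(3,109)]))) (.leaf false ⟨⟨-64,72,-51⟩,⟨-27,44,96⟩,⟨84,69,-8⟩⟩ (2,[(1,6),(3,401),(0,3)]) (12,[(1,1548),(3,1325),(0,11)]) (16,[(1,700),(3,749),(0,23)]))) (.node ⟨60,0,-91⟩ (.leaf false ⟨⟨-91,0,-60⟩,⟨0,109,0⟩,⟨60,0,-91⟩⟩ (91,[(3,11881),(0,60)]) (1,[(2,109)]) (1,[(0,1)])) (.leaf false ⟨⟨-91,0,60⟩,⟨-60,0,-91⟩,⟨0,109,0⟩⟩ (60,[(1,4681),(0,91)]) (1,[(1,182),(0,1)]) (1,[(2,109)])))) (.node ⟨0,0,1⟩ (.node ⟨60,-91,0⟩ (.leaf false ⟨⟨-91,-60,0⟩,⟨0,0,109⟩,⟨60,-91,0⟩⟩ (91,[(3,11881),(0,60)]) (1,[(1,109)]) (1,[(0,1)])) (.leaf false ⟨⟨-91,60,0⟩,⟨-60,-91,0⟩,⟨0,0,109⟩⟩ (60,[(0,91),(2,4681)]) (1,[(0,1),(2,182)]) (1,[(1,109)])))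 (.node ⟨-96,-19,48⟩ (.node ⟨36,-96,37⟩ (.node ⟨37,-96,36⟩ (.leaf false ⟨⟨-96,-19,48⟩,⟨-36,-48,-91⟩,⟨37,-96,36⟩⟩ (1,[(2,1)]) (2,[(3,218),(5,109),(0,1)]) (1,[(0,1)])) (.leaf false ⟨⟨-99,-36,28⟩,⟨-44,93,-36⟩,⟨-12,-44,-99⟩⟩ (8,[(3,787),(0,900),(1,903)]) (32,[(3,297),(0,292),(1,261)]) (24,[(3,3467),(0,684),(1,695)]))) (.leaf false ⟨⟨-99,-36,28⟩,⟨-44,93,-36⟩,⟨-12,-44,-99⟩⟩ (32,[(2,688),(1,33),(3,525)]) (2475,[(2,9295),(0,2441),(1,219)]) (3,[(2,260),(0,1),(3,228)]))) (.node ⟨36,48,-91⟩ (.leaf false ⟨⟨-96,-19,-48⟩,⟨36,48,-91⟩,⟨37,-96,-36⟩⟩ (1,[(4,192),(3,38),(1,1)]) (1,[(0,1)]) (4,[(4,140),(3,441),(1,3)])) (.leaf false ⟨⟨-96,-48,-19⟩,⟨36,-91,48⟩,⟨37,-36,-96⟩⟩ (115,[(4,93228),(0,533),(1,1056)]) (575,[(4,428676),(0,3456),(1,5977)])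 (575,[(4,607717),(0,3552),(1,7884)]))))))
theorem h109_ok : h109.check (ok 109 4 ⟨3, 3, 3⟩) (fun _ r => r) [] = true := by decide +kernel

def h113 : T := .node ⟨1,0,0⟩ (.node ⟨0,1,0⟩ (.node ⟨0,0,1⟩ (.leaf false ⟨⟨0,0,113⟩,⟨0,113,0⟩,⟨113,0,0⟩⟩ (1,[(0,113)]) (1,[(1,113)]) (1,[(2,113)])) (.node ⟨-15,0,-112⟩ (.leaf false ⟨⟨-15,0,-112⟩,⟨0,113,0⟩,⟨112,0,-15⟩⟩ (1,[(0,1)]) (1,[(2,113)]) (112,[(3,12769),(0,15)])) (.node ⟨68,-24,-87⟩ (.leaf false ⟨⟨9,112,-12⟩,⟨32,9,108⟩,⟨108,-12,-31⟩⟩ (5,[(2,396),(1,3),(3,560)]) (15,[(2,1964),(1,32),(3,135)]) (30,[(2,16201),(0,15),(1,148)])) (.leaf false ⟨⟨-87,68,-24⟩,⟨-4,33,108⟩,⟨72,84,-23⟩⟩ (90,[(2,95353),(1,634),(0,255)]) (120,[(2,81587),(1,716),(0,165)]) (6,[(2,15853),(1,124),(0,21)])))))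 (.node ⟨0,0,1⟩ (.node ⟨-15,-112,0⟩ (.leaf false ⟨⟨-15,-112,0⟩,⟨0,0,113⟩,⟨112,-15,0⟩⟩ (1,[(0,1)]) (1,[(1,113)]) (112,[(3,12769),(0,15)])) (.node ⟨68,-87,-24⟩ (.leaf false ⟨⟨9,-12,112⟩,⟨32,108,9⟩,⟨108,-31,-12⟩⟩ (5,[(2,560),(1,3),(3,396)]) (15,[(2,135),(1,32),(3,1964)]) (30,[(1,148),(0,15),(3,16201)])) (.leaf false ⟨⟨-87,-24,68⟩,⟨-4,108,33⟩,⟨72,-23,84⟩⟩ (90,[(1,634),(3,95353),(0,255)]) (120,[(1,716),(3,81587),(0,165)]) (6,[(1,124),(3,15853),(0,21)])))) (.node ⟨9,-108,32⟩ (.node ⟨112,12,9⟩ (.leaf false ⟨⟨9,-108,32⟩,⟨12,-31,-108⟩,⟨112,12,9⟩⟩ (1,[(1,1)]) (28,[(2,3051),(0,3),(3,904)]) (1,[(0,1)])) (.leaf false ⟨⟨-84,-72,-23⟩,⟨33,-4,-108⟩,⟨68,-87,24⟩⟩ (339,[(2,11639),(1,196),(0,270)]) (3,[(2,315),(4,211),(0,1)])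 (36,[(2,64),(4,2187),(1,29)]))) (.node ⟨-40,60,-87⟩ (.leaf false ⟨⟨-40,60,-87⟩,⟨-12,-95,-60⟩,⟨105,12,-40⟩⟩ (1,[(0,1)]) (8,[(4,39),(3,2380),(1,15)]) (4,[(4,465),(3,492),(1,5)])) (.leaf false ⟨⟨-12,60,-95⟩,⟨40,-87,-60⟩,⟨105,40,12⟩⟩ (497,[(3,239568),(1,2756),(0,471)]) (71,[(3,81297),(1,840),(0,260)]) (497,[(3,719740),(1,8655),(0,3252)])))))) (.node ⟨0,1,0⟩ (.node ⟨0,0,1⟩ (.node ⟨-112,-15,0⟩ (.leaf false ⟨⟨-112,-15,0⟩,⟨-15,112,0⟩,⟨0,0,113⟩⟩ (1,[(0,1)]) (112,[(0,15),(2,12769)]) (1,[(1,113)])) (.node ⟨-87,68,-24⟩ (.leaf false ⟨⟨-31,108,-12⟩,⟨-12,9,112⟩,⟨108,32,9⟩⟩ (30,[(4,16201),(0,15),(1,148)]) (5,[(2,560),(4,396),(1,3)]) (15,[(2,135),(4,1964),(1,32)])) (.leaf false ⟨⟨-87,-24,68⟩,⟨-4,108,33⟩,⟨72,-23,84⟩⟩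 (90,[(4,143359),(1,1012),(0,255)]) (120,[(4,195379),(1,1612),(0,165)]) (6,[(4,11027),(1,86),(0,21)])))) (.node ⟨-108,9,32⟩ (.node ⟨12,112,9⟩ (.leaf false ⟨⟨-108,9,32⟩,⟨-31,12,-108⟩,⟨12,112,9⟩⟩ (1,[(1,1)]) (28,[(2,3051),(4,904),(0,3)]) (1,[(0,1)])) (.leaf false ⟨⟨-87,68,24⟩,⟨-72,-84,-23⟩,⟨-4,33,-108⟩⟩ (36,[(2,64),(1,29),(3,2187)]) (339,[(2,11639),(0,270),(1,196)]) (3,[(2,315),(0,1),(3,211)]))) (.node ⟨60,-40,-87⟩ (.leaf false ⟨⟨-112,9,-12⟩,⟨9,-32,-108⟩,⟨12,108,-31⟩⟩ (8,[(4,1220),(3,99),(1,3)]) (29,[(4,1899),(3,512),(0,36)]) (32,[(4,2964),(3,3735),(1,31)])) (.leaf false ⟨⟨-108,12,-31⟩,⟨9,112,12⟩,⟨32,9,-108⟩⟩ (497,[(4,260568),(0,663),(1,2284)]) (497,[(4,787479),(0,3476),(1,9264)]) (71,[(4,65660),(0,180),(1,729)])))))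 (.node ⟨0,0,1⟩ (.node ⟨32,-108,9⟩ (.node ⟨9,12,112⟩ (.leaf false ⟨⟨-108,-31,12⟩,⟨9,12,112⟩,⟨32,-108,9⟩⟩ (28,[(4,3051),(3,904),(0,3)]) (1,[(0,1)]) (1,[(1,1)])) (.leaf false ⟨⟨-108,-4,33⟩,⟨-23,-72,-84⟩,⟨24,-87,68⟩⟩ (3,[(2,211),(4,315),(0,1)]) (339,[(4,11639),(0,270),(1,196)]) (36,[(2,2187),(4,64),(1,29)]))) (.node ⟨-87,60,-40⟩ (.leaf false ⟨⟨-108,9,-32⟩,⟨-31,12,108⟩,⟨-12,-112,9⟩⟩ (29,[(2,512),(0,36),(3,1899)]) (32,[(2,3735),(1,31),(3,2964)]) (8,[(2,99),(1,3),(3,1220)])) (.leaf false ⟨⟨-112,-15,0⟩,⟨-15,112,0⟩,⟨0,0,113⟩⟩ (71,[(1,640),(3,61545),(0,144)]) (497,[(1,600),(3,1036),(0,135)]) (497,[(1,9831),(3,844788),(0,3616)])))) (.node ⟨-23,72,-84⟩ (.node ⟨-108,4,33⟩ (.leaf false ⟨⟨-108,4,33⟩,⟨-24,-87,-68⟩,⟨-23,72,-84⟩⟩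 (1,[(0,1)]) (9,[(2,678),(0,2),(3,791)]) (1,[(1,1)])) (.leaf false ⟨⟨-87,-68,-24⟩,⟨4,33,-108⟩,⟨72,-84,-23⟩⟩ (7,[(1,2),(4,563),(3,620)]) (904,[(1,507),(4,164867),(0,1668)]) (33,[(4,108),(3,2680),(0,23)]))) (.node ⟨33,-68,-84⟩ (.leaf false ⟨⟨-108,-24,-23⟩,⟨4,-87,72⟩,⟨33,-68,-84⟩⟩ (3,[(2,153),(4,347),(1,1)]) (24,[(2,708),(4,571),(1,29)]) (1,[(0,1)])) (.leaf false ⟨⟨-108,-12,-31⟩,⟨-32,9,108⟩,⟨9,-112,12⟩⟩ (203,[(2,337925),(0,2013),(1,1935)]) (812,[(2,246288),(0,2097),(1,1879)]) (203,[(2,102816),(0,482),(1,771)]))))))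
theorem h113_ok : h113.check (ok 113 4 ⟨3, 3, 3⟩) (fun _ r => r) [] = true := by decide +kernel

def h115 : T := .node ⟨1,0,0⟩ (.node ⟨0,1,0⟩ (.node ⟨0,0,1⟩ (.node ⟨-90,30,65⟩ (.node ⟨54,97,-30⟩ (.node ⟨90,-30,65⟩ (.leaf false ⟨⟨-47,54,90⟩,⟨54,97,-30⟩,⟨90,-30,65⟩⟩ (468,[(0,191),(1,156),(2,529)]) (1,[(1,1)]) (1,[(0,1)])) (.leaf false ⟨⟨-90,30,65⟩,⟨-47,54,-90⟩,⟨54,97,30⟩⟩ (1,[(3,130),(0,1)]) (5,[(3,135),(5,575),(0,9)]) (30,[(3,7205),(5,10350),(0,97)]))) (.leaf false ⟨⟨-90,-47,54⟩,⟨30,54,97⟩,⟨65,-90,30⟩⟩ (5,[(4,36),(3,638),(0,9)]) (30,[(4,6138),(3,11029),(0,97)]) (1,[(4,119),(3,7),(0,1)]))) (.node ⟨30,-54,97⟩ (.node ⟨90,-47,-54⟩ (.leaf false ⟨⟨30,-54,97⟩,⟨65,90,30⟩,⟨90,-47,-54⟩⟩ (1,[(1,1)]) (18,[(3,1385),(2,13),(4,2010)])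 (1,[(0,1)])) (.leaf false ⟨⟨-47,54,90⟩,⟨54,97,-30⟩,⟨90,-30,65⟩⟩ (27600,[(1,24743),(2,103615),(0,126276)]) (2300,[(1,2127),(2,21735),(0,21064)]) (460,[(1,663),(2,1955),(0,1716)]))) (.leaf false ⟨⟨-42,81,-70⟩,⟨-15,70,90⟩,⟨106,42,-15⟩⟩ (220,[(2,17680),(1,9),(0,335)]) (132,[(2,33590),(1,43),(0,195)]) (165,[(2,44570),(1,291),(0,290)])))) (.node ⟨110,6,33⟩ (.node ⟨-30,110,-15⟩ (.node ⟨33,-6,-110⟩ (.leaf false ⟨⟨-30,110,-15⟩,⟨33,-6,-110⟩,⟨106,33,30⟩⟩ (1,[(1,1)]) (1,[(0,1)]) (11,[(5,66),(2,10),(4,303)])) (.leaf false ⟨⟨-110,30,-15⟩,⟨-6,33,110⟩,⟨33,106,-30⟩⟩ (1,[(3,565),(5,55),(0,5)]) (2,[(3,990),(5,351),(0,11)]) (3,[(3,5920),(5,1848),(0,53)]))) (.leaf false ⟨⟨0,0,-115⟩,⟨69,-92,0⟩,⟨92,69,0⟩⟩ (1,[(2,115)])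 (10,[(2,345),(0,23),(3,1610)]) (15,[(2,690),(0,46),(3,6095)]))) (.node ⟨34,-63,-90⟩ (.leaf false ⟨⟨-63,66,-70⟩,⟨34,-63,-90⟩,⟨90,70,-15⟩⟩ (33,[(4,5621),(3,2598),(1,70)]) (1,[(0,1)]) (6,[(4,506),(3,483),(0,1)])) (.leaf false ⟨⟨-111,-2,-30⟩,⟨2,114,-15⟩,⟨30,-15,-110⟩⟩ (27,[(4,371),(0,2),(1,30)]) (171,[(4,151844),(0,428),(1,1245)]) (513,[(4,221860),(0,55),(1,1860)]))))) (.node ⟨0,0,1⟩ (.node ⟨110,33,6⟩ (.node ⟨-30,-15,110⟩ (.node ⟨33,-110,-6⟩ (.leaf false ⟨⟨-30,-15,110⟩,⟨33,-110,-6⟩,⟨106,30,33⟩⟩ (1,[(1,1)]) (1,[(0,1)]) (11,[(3,303),(2,10),(5,66)])) (.leaf false ⟨⟨-110,-15,30⟩,⟨-6,110,33⟩,⟨33,-30,106⟩⟩ (1,[(5,55),(4,565),(0,5)]) (2,[(5,351),(4,990),(0,11)]) (3,[(5,1848),(4,5920),(0,53)]))) (.leaf false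 ⟨⟨0,-115,0⟩,⟨69,0,-92⟩,⟨92,0,69⟩⟩ (1,[(3,115)]) (10,[(2,1610),(0,23),(3,345)]) (15,[(2,6095),(0,46),(3,690)]))) (.node ⟨34,-90,-63⟩ (.leaf false ⟨⟨-63,-70,66⟩,⟨34,-90,-63⟩,⟨90,-15,70⟩⟩ (33,[(2,2598),(4,5621),(1,70)]) (1,[(0,1)]) (6,[(2,483),(4,506),(0,1)])) (.leaf false ⟨⟨-111,-30,-2⟩,⟨2,-15,114⟩,⟨30,-110,-15⟩⟩ (27,[(4,371),(1,30),(0,2)]) (171,[(4,151844),(1,1245),(0,428)]) (513,[(4,221860),(1,1860),(0,55)])))) (.node ⟨92,0,69⟩ (.leaf false ⟨⟨0,-115,0⟩,⟨69,0,-92⟩,⟨92,0,69⟩⟩ (1,[(2,115)]) (4,[(1,575),(0,3)]) (1,[(0,1)])) (.node ⟨81,42,-70⟩ (.leaf false ⟨⟨-90,-15,-70⟩,⟨30,-110,-15⟩,⟨65,30,-90⟩⟩ (69,[(4,230),(3,1035),(1,70)]) (14,[(4,177),(3,1666),(0,3)]) (483,[(4,29210),(1,280),(0,345)])) (.leaf false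 ⟨⟨-90,-70,-15⟩,⟨30,-15,-110⟩,⟨65,-90,30⟩⟩ (207,[(4,45655),(0,345),(1,395)]) (322,[(4,76935),(0,115),(1,630)]) (161,[(4,64170),(0,345),(1,280)])))))) (.node ⟨0,1,0⟩ (.node ⟨0,0,1⟩ (.node ⟨33,110,6⟩ (.node ⟨-15,-30,110⟩ (.node ⟨-110,33,-6⟩ (.leaf false ⟨⟨-110,33,-6⟩,⟨-15,-30,110⟩,⟨30,106,33⟩⟩ (1,[(0,1)]) (1,[(1,1)]) (11,[(3,303),(4,66),(2,10)])) (.leaf false ⟨⟨-115,0,0⟩,⟨0,-92,69⟩,⟨0,69,92⟩⟩ (1,[(5,115)]) (2,[(5,2530),(4,575),(0,23)]) (3,[(5,5060),(4,1725),(0,46)]))) (.leaf false ⟨⟨-115,0,0⟩,⟨0,69,-92⟩,⟨0,92,69⟩⟩ (1,[(4,115)]) (10,[(2,1610),(4,345),(0,23)]) (15,[(2,6095),(4,690),(0,46)]))) (.node ⟨-90,34,-63⟩ (.leaf false ⟨⟨-90,34,-63⟩,⟨-70,-63,66⟩,⟨-15,90,70⟩⟩ (1,[(0,1)]) (33,[(2,2598),(1,70),(3,5621)])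 (6,[(2,483),(0,1),(3,506)])) (.leaf false ⟨⟨-115,0,0⟩,⟨0,-92,69⟩,⟨0,69,92⟩⟩ (513,[(1,2415),(3,273470),(0,230)]) (171,[(1,690),(3,68770),(0,253)]) (513,[(1,2760),(3,373405),(0,1012)])))) (.node ⟨0,92,69⟩ (.leaf false ⟨⟨-115,0,0⟩,⟨0,69,-92⟩,⟨0,92,69⟩⟩ (1,[(3,115)]) (4,[(1,575),(0,3)]) (1,[(0,1)])) (.node ⟨42,81,-70⟩ (.leaf false ⟨⟨-111,-2,-30⟩,⟨2,114,-15⟩,⟨30,-15,-110⟩⟩ (23,[(1,10),(4,2553),(3,874)]) (14,[(4,98),(3,1353),(0,3)]) (161,[(1,140),(3,1150),(0,115)])) (.leaf false ⟨⟨-111,2,30⟩,⟨-30,-15,-110⟩,⟨-2,114,-15⟩⟩ (966,[(1,2170),(0,2553),(3,408365)]) (483,[(1,1120),(0,345),(3,123740)]) (1449,[(1,385),(0,69),(3,206195)]))))) (.node ⟨0,0,1⟩ (.node ⟨0,69,92⟩ (.leaf false ⟨⟨-115,0,0⟩,⟨0,-92,69⟩,⟨0,69,92⟩⟩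 (1,[(3,115)]) (4,[(0,3),(2,575)]) (1,[(0,1)])) (.node ⟨42,-70,81⟩ (.leaf false ⟨⟨-111,-30,-2⟩,⟨2,-15,114⟩,⟨30,-110,-15⟩⟩ (23,[(2,874),(4,2553),(1,10)]) (14,[(2,1353),(4,98),(0,3)]) (161,[(2,1150),(1,140),(0,115)])) (.leaf false ⟨⟨-111,30,2⟩,⟨-30,-110,-15⟩,⟨-2,-15,114⟩⟩ (966,[(2,408365),(0,2553),(1,2170)]) (483,[(2,123740),(0,345),(1,1120)]) (1449,[(2,206195),(0,69),(1,385)])))) (.leaf false ⟨⟨-115,0,0⟩,⟨0,-115,0⟩,⟨0,0,-115⟩⟩ (1,[(2,115)]) (1,[(1,115)]) (1,[(0,115)]))))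
theorem h115_ok : h115.check (ok 115 4 ⟨3, 3, 3⟩) (fun _ r => r) [] = true := by decide +kernel

def h119 : T := .node ⟨1,0,0⟩ (.node ⟨0,1,0⟩ (.node ⟨0,0,1⟩ (.node ⟨-66,61,78⟩ (.node ⟨34,102,-51⟩ (.leaf false ⟨⟨-66,61,78⟩,⟨34,102,-51⟩,⟨93,6,74⟩⟩ (1,[(1,1)]) (1,[(0,1)]) (17,[(2,1309),(4,1547),(0,1)])) (.leaf false ⟨⟨-66,34,93⟩,⟨61,102,6⟩,⟨78,-51,74⟩⟩ (119,[(3,18802),(1,34),(0,165)]) (13,[(4,859),(3,1265),(1,1)]) (51,[(4,6494),(3,4947),(0,74)]))) (.leaf false ⟨⟨6,61,102⟩,⟨74,78,-51⟩,⟨93,-66,34⟩⟩ (11,[(1,1200),(0,1),(2,732)]) (33,[(1,1203),(0,37),(2,4831)]) (22,[(1,3166),(0,31),(2,439)]))) (.node ⟨-56,105,0⟩ (.leaf false ⟨⟨-56,105,0⟩,⟨0,0,-119⟩,⟨105,56,0⟩⟩ (1,[(0,1)]) (1,[(1,119)]) (15,[(3,2023),(0,8)]))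 (.leaf false ⟨⟨0,0,-119⟩,⟨56,105,0⟩,⟨105,-56,0⟩⟩ (1,[(1,119)]) (1,[(0,1),(2,210)]) (8,[(0,15),(2,1127)])))) (.node ⟨0,0,1⟩ (.node ⟨-56,0,105⟩ (.leaf false ⟨⟨-56,0,105⟩,⟨0,-119,0⟩,⟨105,0,56⟩⟩ (1,[(0,1)]) (1,[(2,119)]) (15,[(3,2023),(0,8)])) (.leaf false ⟨⟨0,-119,0⟩,⟨56,0,105⟩,⟨105,0,-56⟩⟩ (1,[(2,119)]) (1,[(1,210),(0,1)]) (8,[(1,1127),(0,15)]))) (.node ⟨106,-30,45⟩ (.node ⟨-30,-115,-6⟩ (.leaf false ⟨⟨-30,-115,-6⟩,⟨45,-6,-110⟩,⟨106,-30,45⟩⟩ (1,[(0,1)]) (5,[(2,595),(4,119),(1,1)]) (1,[(1,1)])) (.leaf false ⟨⟨0,0,-119⟩,⟨56,105,0⟩,⟨105,-56,0⟩⟩ (1,[(2,119)]) (15,[(2,168),(0,28),(3,1645)]) (2,[(2,42),(0,7),(3,917)]))) (.leaf false ⟨⟨-106,18,-51⟩,⟨-3,-114,-34⟩,⟨54,29,-102⟩⟩ (15,[(3,212),(2,240),(0,17)])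 (45,[(3,3469),(2,6150),(0,34)]) (15,[(3,4414),(2,585),(0,34)]))))) (.node ⟨0,1,0⟩ (.node ⟨0,0,1⟩ (.node ⟨0,-56,105⟩ (.leaf false ⟨⟨-119,0,0⟩,⟨0,-56,105⟩,⟨0,105,56⟩⟩ (1,[(3,119)]) (1,[(0,1)]) (15,[(0,8),(2,2023)])) (.leaf false ⟨⟨-119,0,0⟩,⟨0,56,105⟩,⟨0,105,-56⟩⟩ (1,[(3,119)]) (1,[(1,210),(0,1)]) (8,[(1,1127),(0,15)]))) (.node ⟨-30,106,45⟩ (.node ⟨-115,-30,-6⟩ (.leaf false ⟨⟨-115,-30,-6⟩,⟨-30,106,45⟩,⟨-6,45,-110⟩⟩ (1,[(0,1)]) (1,[(1,1)]) (5,[(2,595),(1,1),(3,119)])) (.leaf false ⟨⟨-115,6,-30⟩,⟨-6,110,45⟩,⟨30,45,-106⟩⟩ (5,[(2,156),(4,690),(0,1)]) (119,[(4,714),(1,115),(0,30)]) (2,[(2,230),(4,285),(0,3)]))) (.leaf false ⟨⟨-114,-3,-34⟩,⟨18,-106,-51⟩,⟨29,54,-102⟩⟩ (45,[(3,6150),(2,3469),(0,34)]) (15,[(3,240),(2,212),(0,17)])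 (15,[(3,585),(2,4414),(0,34)])))) (.node ⟨0,0,1⟩ (.node ⟨-30,45,106⟩ (.node ⟨-115,-6,-30⟩ (.leaf false ⟨⟨-115,-6,-30⟩,⟨-30,45,106⟩,⟨-6,-110,45⟩⟩ (1,[(0,1)]) (1,[(1,1)]) (5,[(2,119),(1,1),(3,595)])) (.leaf false ⟨⟨-115,-30,6⟩,⟨-6,45,110⟩,⟨30,-106,45⟩⟩ (5,[(4,690),(3,156),(0,1)]) (119,[(1,115),(4,714),(0,30)]) (2,[(4,285),(3,230),(0,3)]))) (.leaf false ⟨⟨-114,-34,-3⟩,⟨18,-51,-106⟩,⟨29,-102,54⟩⟩ (45,[(1,3469),(3,6150),(0,34)]) (15,[(1,212),(3,240),(0,17)]) (15,[(1,4414),(3,585),(0,34)]))) (.leaf false ⟨⟨-119,0,0⟩,⟨0,-119,0⟩,⟨0,0,-119⟩⟩ (1,[(2,119)]) (1,[(1,119)]) (1,[(0,119)]))))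
theorem h119_ok : h119.check (ok 119 4 ⟨3, 3, 3⟩) (fun _ r => r) [] = true := by decide +kernel

def h121 : T := .node ⟨1,0,0⟩ (.node ⟨0,1,0⟩ (.node ⟨0,0,1⟩ (.leaf false ⟨⟨0,0,121⟩,⟨0,121,0⟩,⟨121,0,0⟩⟩ (1,[(0,121)]) (1,[(1,121)]) (1,[(2,121)])) (.node ⟨-72,49,-84⟩ (.node ⟨36,108,41⟩ (.node ⟨113,-24,-36⟩ (.leaf false ⟨⟨-24,49,-108⟩,⟨36,108,41⟩,⟨113,-24,-36⟩⟩ (1,[(3,24),(5,48),(2,1)]) (1,[(1,1)]) (1,[(0,1)])) (.leaf false ⟨⟨-111,32,36⟩,⟨-4,84,-87⟩,⟨48,81,76⟩⟩ (3,[(3,36),(5,119),(0,4)]) (2,[(3,426),(5,783),(0,7)]) (8,[(3,364),(5,3435),(0,27)]))) (.leaf false ⟨⟨-72,49,-84⟩,⟨49,-72,-84⟩,⟨84,84,-23⟩⟩ (41,[(4,72),(3,11081),(0,84)]) (41,[(4,5033),(3,6120),(0,84)]) (41,[(4,4272),(3,5928),(0,23)]))) (.leaf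 false ⟨⟨4,120,-15⟩,⟨60,-15,-104⟩,⟨105,4,60⟩⟩ (18,[(1,354),(0,1),(2,2209)]) (6,[(1,1044),(0,5),(2,155)]) (24,[(1,1500),(0,35),(2,1811)])))) (.node ⟨0,0,1⟩ (.node ⟨-72,-84,49⟩ (.node ⟨36,41,108⟩ (.node ⟨113,-36,-24⟩ (.leaf false ⟨⟨-24,-108,49⟩,⟨36,41,108⟩,⟨113,-36,-24⟩⟩ (1,[(5,48),(4,24),(2,1)]) (1,[(1,1)]) (1,[(0,1)])) (.leaf false ⟨⟨-111,-4,48⟩,⟨32,84,81⟩,⟨36,-87,76⟩⟩ (1,[(5,115),(4,76),(0,2)]) (8,[(5,3307),(4,300),(0,27)]) (6,[(5,2363),(4,1206),(0,19)]))) (.leaf false ⟨⟨-72,-84,49⟩,⟨49,-84,-72⟩,⟨84,-23,84⟩⟩ (41,[(2,11081),(4,72),(0,84)]) (41,[(2,6120),(4,5033),(0,84)]) (41,[(2,5928),(4,4272),(0,23)]))) (.leaf false ⟨⟨4,-15,120⟩,⟨60,-104,-15⟩,⟨105,60,4⟩⟩ (18,[(1,2209),(0,1),(2,354)]) (6,[(1,155),(0,5),(2,1044)])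 (24,[(1,1811),(0,35),(2,1500)]))) (.node ⟨-66,-99,-22⟩ (.node ⟨77,66,-66⟩ (.node ⟨-66,-22,-99⟩ (.leaf false ⟨⟨-66,-22,-99⟩,⟨66,-99,-22⟩,⟨77,66,-66⟩⟩ (1,[(0,1)]) (1,[(5,132),(2,1)]) (1,[(1,1)])) (.leaf false ⟨⟨-66,-99,-22⟩,⟨66,-22,-99⟩,⟨77,-66,66⟩⟩ (1,[(2,1)]) (49,[(1,84),(0,23),(2,72)]) (7,[(1,7),(0,12),(2,12)]))) (.leaf false ⟨⟨-84,-87,4⟩,⟨32,-36,-111⟩,⟨81,-76,48⟩⟩ (22,[(2,1826),(4,385),(0,29)]) (11,[(2,1617),(4,814),(0,6)]) (33,[(2,924),(4,5599),(0,38)]))) (.node ⟨76,-87,36⟩ (.node ⟨-24,-39,-112⟩ (.leaf false ⟨⟨-24,-39,-112⟩,⟨57,-104,24⟩,⟨104,48,-39⟩⟩ (1,[(0,1)]) (4,[(3,12),(1,3),(4,155)]) (24,[(2,44),(4,2541),(0,17)])) (.leaf false ⟨⟨32,-111,36⟩,⟨81,48,76⟩,⟨84,-4,-87⟩⟩ (3,[(3,340),(0,4),(4,489)])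 (8,[(3,2416),(0,27),(4,669)]) (2,[(3,958),(0,7),(4,281)]))) (.leaf false ⟨⟨-84,4,-87⟩,⟨32,-111,-36⟩,⟨81,48,-76⟩⟩ (352,[(1,1794),(3,345587),(0,1947)]) (88,[(1,486),(3,91377),(0,385)]) (352,[(1,4346),(3,709071),(0,3399)])))))) (.node ⟨0,1,0⟩ (.node ⟨0,0,1⟩ (.node ⟨-84,-72,49⟩ (.node ⟨41,36,108⟩ (.node ⟨-36,113,-24⟩ (.leaf false ⟨⟨-108,-24,49⟩,⟨-36,113,-24⟩,⟨41,36,108⟩⟩ (1,[(2,1),(5,24),(4,48)]) (1,[(0,1)]) (1,[(1,1)])) (.leaf false ⟨⟨-111,-4,48⟩,⟨32,84,81⟩,⟨36,-87,76⟩⟩ (1,[(5,183),(4,222),(0,2)]) (8,[(5,716),(4,3723),(0,27)]) (6,[(5,468),(4,1625),(0,19)]))) (.leaf false ⟨⟨-111,-48,4⟩,⟨-36,76,-87⟩,⟨-32,81,84⟩⟩ (41,[(2,12152),(0,111),(3,2028)]) (41,[(2,321),(0,36),(3,4412)]) (41,[(2,6900),(0,32),(3,4473)])))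 (.leaf false ⟨⟨-104,60,-15⟩,⟨-15,4,120⟩,⟨60,105,4⟩⟩ (6,[(1,155),(3,1044),(0,5)]) (18,[(1,2209),(3,354),(0,1)]) (24,[(1,1811),(3,1500),(0,35)]))) (.node ⟨-99,-66,-22⟩ (.node ⟨66,77,-66⟩ (.node ⟨-22,-66,-99⟩ (.leaf false ⟨⟨-99,66,-22⟩,⟨-22,-66,-99⟩,⟨66,77,-66⟩⟩ (1,[(2,1),(4,132)]) (1,[(0,1)]) (1,[(1,1)])) (.leaf false ⟨⟨-120,-15,4⟩,⟨-15,104,-60⟩,⟨-4,60,105⟩⟩ (5929,[(2,10802),(0,5118),(1,3717)]) (5929,[(2,9669),(0,5994),(1,11158)]) (77,[(3,693),(2,24),(0,94)]))) (.leaf false ⟨⟨-104,-24,57⟩,⟨-48,-39,-104⟩,⟨-39,112,-24⟩⟩ (33,[(2,1551),(0,52),(3,3212)]) (11,[(2,1672),(0,8),(3,187)]) (22,[(2,1386),(0,13),(3,3465)]))) (.node ⟨-87,76,36⟩ (.node ⟨-39,-24,-112⟩ (.leaf false ⟨⟨-104,57,24⟩,⟨-39,-24,-112⟩,⟨48,104,-39⟩⟩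 (4,[(3,12),(5,155),(1,3)]) (1,[(0,1)]) (24,[(0,17),(5,2541),(2,44)])) (.leaf false ⟨⟨-111,32,36⟩,⟨-4,84,-87⟩,⟨48,81,76⟩⟩ (3,[(3,340),(5,489),(0,4)]) (2,[(3,958),(5,281),(0,7)]) (8,[(3,2416),(5,669),(0,27)]))) (.leaf false ⟨⟨-111,32,-36⟩,⟨4,-84,-87⟩,⟨48,81,-76⟩⟩ (88,[(4,91377),(1,486),(0,385)]) (352,[(4,345587),(1,1794),(0,1947)]) (352,[(4,709071),(1,4346),(0,3399)]))))) (.node ⟨0,0,1⟩ (.node ⟨-99,-22,-66⟩ (.node ⟨66,-66,77⟩ (.node ⟨-22,-99,-66⟩ (.leaf false ⟨⟨-99,-22,66⟩,⟨-22,-99,-66⟩,⟨66,-66,77⟩⟩ (1,[(3,132),(2,1)]) (1,[(0,1)]) (1,[(1,1)])) (.leaf false ⟨⟨-120,-15,-4⟩,⟨-15,104,60⟩,⟨4,-60,105⟩⟩ (5929,[(2,11946),(1,5362),(0,5331)]) (11,[(2,5),(4,231),(0,15)]) (847,[(2,1122),(1,1491),(0,730)]))) (.leaf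 false ⟨⟨-104,57,-24⟩,⟨-48,-104,-39⟩,⟨-39,-24,112⟩⟩ (33,[(2,3212),(0,52),(3,1551)]) (11,[(2,187),(0,8),(3,1672)]) (22,[(2,3465),(0,13),(3,1386)]))) (.node ⟨-87,36,76⟩ (.node ⟨-39,-112,-24⟩ (.leaf false ⟨⟨-104,24,57⟩,⟨-39,-112,-24⟩,⟨48,-39,104⟩⟩ (4,[(5,155),(4,12),(1,3)]) (1,[(0,1)]) (24,[(5,2541),(0,17),(2,44)])) (.leaf false ⟨⟨-111,-4,48⟩,⟨32,84,81⟩,⟨36,-87,76⟩⟩ (1,[(5,189),(4,228),(0,2)]) (8,[(5,797),(4,2352),(0,27)]) (6,[(5,525),(4,2650),(0,19)]))) (.leaf false ⟨⟨-111,-36,32⟩,⟨4,-87,-84⟩,⟨48,-76,81⟩⟩ (88,[(4,91377),(0,385),(1,486)]) (352,[(4,345587),(0,1947),(1,1794)]) (352,[(4,709071),(0,3399),(1,4346)])))) (.node ⟨-48,81,-76⟩ (.node ⟨-111,-32,36⟩ (.leaf false ⟨⟨-111,-32,36⟩,⟨-48,81,-76⟩,⟨-4,-84,-87⟩⟩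 (1,[(0,1)]) (1,[(1,1)]) (12,[(2,968),(1,1),(3,1089)])) (.leaf false ⟨⟨-111,-48,-4⟩,⟨-32,81,-84⟩,⟨36,-76,-87⟩⟩ (9,[(4,1110),(3,464),(0,1)]) (121,[(1,57),(4,19118),(0,162)]) (12,[(4,2787),(3,1840),(0,29)]))) (.node ⟨-32,-84,81⟩ (.leaf false ⟨⟨-111,-4,-48⟩,⟨-32,-84,81⟩,⟨36,-87,-76⟩⟩ (21,[(2,1089),(4,2299),(0,1)]) (1,[(0,1)]) (27,[(2,4256),(4,420),(1,29)])) (.leaf false ⟨⟨-111,-48,-4⟩,⟨-32,81,-84⟩,⟨36,-76,-87⟩⟩ (59,[(4,116501),(1,1408),(0,1324)]) (59,[(4,16720),(1,165),(0,216)]) (177,[(4,1050236),(1,13464),(0,12823)]))))))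
theorem h121_ok : h121.check (ok 121 4 ⟨3, 3, 3⟩) (fun _ r => r) [] = true := by decide +kernel

def h123 : T := .node ⟨1,0,0⟩ (.node ⟨0,1,0⟩ (.node ⟨0,0,1⟩ (.node ⟨-70,25,98⟩ (.node ⟨73,70,-70⟩ (.node ⟨-70,98,25⟩ (.leaf false ⟨⟨-70,98,25⟩,⟨70,25,98⟩,⟨73,70,-70⟩⟩ (1,[(0,1)]) (1,[(5,140),(2,1)]) (1,[(1,1)])) (.leaf false ⟨⟨-70,25,98⟩,⟨70,98,25⟩,⟨73,-70,70⟩⟩ (1,[(2,1)]) (5329,[(1,10220),(2,9800),(0,4471)]) (73,[(1,73),(2,140),(0,140)]))) (.leaf false ⟨⟨-82,41,82⟩,⟨41,-82,82⟩,⟨82,82,41⟩⟩ (35,[(4,123),(3,4305),(0,41)]) (35,[(4,4428),(0,41)]) (70,[(4,8733),(3,8610),(0,41)]))) (.leaf false ⟨⟨14,122,-7⟩,⟨73,-14,-98⟩,⟨98,-7,74⟩⟩ (5,[(1,63),(0,1),(2,635)]) (70,[(1,294),(0,73),(2,845)]) (5,[(1,1056),(0,7),(2,140)])))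 (.node ⟨-22,22,-119⟩ (.node ⟨2,121,22⟩ (.leaf false ⟨⟨-22,22,-119⟩,⟨2,121,22⟩,⟨121,2,-22⟩⟩ (1,[(1,1)]) (1,[(0,1)]) (11,[(2,123),(4,1353),(1,1)])) (.node ⟨98,-74,-7⟩ (.leaf false ⟨⟨-14,-7,-122⟩,⟨73,98,-14⟩,⟨98,-74,-7⟩⟩ (1483,[(2,1462),(1,277),(0,122)]) (17,[(5,1285),(4,1622),(2,2)]) (1,[(0,1)])) (.leaf false ⟨⟨-122,14,-7⟩,⟨-7,-98,-74⟩,⟨14,73,-98⟩⟩ (71,[(5,1740),(0,105),(1,56)]) (781,[(5,670317),(0,6798),(1,4790)]) (781,[(5,1345932),(0,13464),(1,7763)])))) (.leaf false ⟨⟨2,121,-22⟩,⟨22,-22,-119⟩,⟨121,2,22⟩⟩ (11,[(1,361),(0,1),(2,1353)]) (1,[(1,238),(0,1)]) (2,[(1,1265),(0,11),(2,246)])))) (.node ⟨0,0,1⟩ (.node ⟨-22,-119,22⟩ (.node ⟨2,22,121⟩ (.leaf false ⟨⟨-22,-119,22⟩,⟨2,22,121⟩,⟨121,-22,2⟩⟩ (1,[(1,1)])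 (1,[(0,1)]) (11,[(4,1353),(3,123),(1,1)])) (.node ⟨98,-7,-74⟩ (.leaf false ⟨⟨-14,-122,-7⟩,⟨73,-14,98⟩,⟨98,-7,-74⟩⟩ (1483,[(0,122),(1,277),(2,1462)]) (17,[(3,1622),(5,1285),(2,2)]) (1,[(0,1)])) (.leaf false ⟨⟨-122,-7,14⟩,⟨-7,-74,-98⟩,⟨14,-98,73⟩⟩ (71,[(5,1740),(1,56),(0,105)]) (781,[(5,670317),(1,4790),(0,6798)]) (781,[(5,1345932),(1,7763),(0,13464)])))) (.leaf false ⟨⟨2,-22,121⟩,⟨22,-119,-22⟩,⟨121,22,2⟩⟩ (11,[(1,1353),(0,1),(2,361)]) (1,[(0,1),(2,238)]) (2,[(1,246),(0,11),(2,1265)]))) (.node ⟨-27,-120,0⟩ (.leaf false ⟨⟨-27,-120,0⟩,⟨0,0,-123⟩,⟨120,-27,0⟩⟩ (1,[(0,1)]) (1,[(1,123)]) (40,[(3,5043),(0,9)])) (.node ⟨82,22,89⟩ (.leaf false ⟨⟨41,98,-62⟩,⟨82,-71,-58⟩,⟨82,22,89⟩⟩ (27,[(2,1674),(1,41),(3,2274)])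 (1,[(2,147),(0,1),(3,93)]) (1,[(0,1)])) (.leaf false ⟨⟨-72,-27,-96⟩,⟨69,72,-72⟩,⟨72,-96,-27⟩⟩ (801,[(1,488),(3,61179),(0,864)]) (801,[(1,4015),(3,409872),(0,648)]) (267,[(1,958),(3,138810),(0,81)])))))) (.node ⟨0,1,0⟩ (.node ⟨0,0,1⟩ (.node ⟨-119,-22,22⟩ (.node ⟨22,2,121⟩ (.leaf false ⟨⟨-119,-22,22⟩,⟨-22,121,2⟩,⟨22,2,121⟩⟩ (1,[(1,1)]) (11,[(1,1),(4,123),(3,1353)]) (1,[(0,1)])) (.node ⟨-7,98,-74⟩ (.leaf false ⟨⟨-122,-14,-7⟩,⟨-14,73,98⟩,⟨-7,98,-74⟩⟩ (1483,[(2,1462),(1,277),(0,122)]) (17,[(3,1622),(2,2),(4,1285)]) (1,[(0,1)])) (.leaf false ⟨⟨-122,-7,-14⟩,⟨-14,98,73⟩,⟨-7,-74,98⟩⟩ (781,[(1,8930),(4,1428885),(0,14454)]) (781,[(1,1547),(4,403032),(0,3300)]) (781,[(1,1204),(4,238908),(0,3003)])))) (.leaf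 false ⟨⟨-119,22,-22⟩,⟨-22,2,121⟩,⟨22,121,2⟩⟩ (1,[(3,238),(0,1)]) (11,[(1,1353),(3,361),(0,1)]) (2,[(1,246),(3,1265),(0,11)]))) (.node ⟨0,-27,-120⟩ (.leaf false ⟨⟨-123,0,0⟩,⟨0,-27,-120⟩,⟨0,120,-27⟩⟩ (1,[(3,123)]) (1,[(0,1)]) (40,[(0,9),(2,5043)])) (.node ⟨89,82,22⟩ (.leaf false ⟨⟨-62,41,98⟩,⟨-58,82,-71⟩,⟨89,82,22⟩⟩ (27,[(2,2274),(4,1674),(1,41)]) (1,[(2,93),(4,147),(0,1)]) (1,[(0,1)])) (.leaf false ⟨⟨-122,-14,-7⟩,⟨-14,73,98⟩,⟨-7,98,-74⟩⟩ (2403,[(2,995313),(0,3294),(1,8758)]) (2403,[(2,673590),(0,378),(1,7645)]) (2403,[(2,1289184),(0,189),(1,9296)]))))) (.node ⟨0,0,1⟩ (.node ⟨0,-120,-27⟩ (.leaf false ⟨⟨-123,0,0⟩,⟨0,-120,-27⟩,⟨0,-27,120⟩⟩ (1,[(3,123)]) (1,[(0,1)]) (40,[(1,5043),(0,9)])) (.node ⟨89,22,82⟩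 (.leaf false ⟨⟨-62,98,41⟩,⟨-58,-71,82⟩,⟨89,22,82⟩⟩ (27,[(1,41),(4,1674),(3,2274)]) (1,[(4,147),(3,93),(0,1)]) (1,[(0,1)])) (.leaf false ⟨⟨-122,-7,-14⟩,⟨-14,98,73⟩,⟨-7,-74,98⟩⟩ (2403,[(1,8758),(0,3294),(3,995313)]) (2403,[(1,7645),(0,378),(3,673590)]) (2403,[(1,9296),(0,189),(3,1289184)])))) (.leaf false ⟨⟨-123,0,0⟩,⟨0,-123,0⟩,⟨0,0,-123⟩⟩ (1,[(2,123)]) (1,[(1,123)]) (1,[(0,123)]))))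
theorem h123_ok : h123.check (ok 123 4 ⟨3, 3, 3⟩) (fun _ r => r) [] = true := by decide +kernel

def h125 : T := .node ⟨1,0,0⟩ (.node ⟨0,1,0⟩ (.node ⟨0,0,1⟩ (.leaf false ⟨⟨0,0,125⟩,⟨0,125,0⟩,⟨125,0,0⟩⟩ (1,[(0,125)]) (1,[(1,125)]) (1,[(2,125)])) (.node ⟨-35,0,-120⟩ (.leaf false ⟨⟨-35,0,-120⟩,⟨0,125,0⟩,⟨120,0,-35⟩⟩ (1,[(0,1)]) (1,[(2,125)]) (24,[(3,3125),(0,7)])) (.leaf false ⟨⟨0,125,0⟩,⟨44,0,117⟩,⟨117,0,-44⟩⟩ (1,[(2,125)]) (35,[(1,1185),(0,44)]) (35,[(1,15580),(0,117)])))) (.node ⟨0,0,1⟩ (.node ⟨-35,-120,0⟩ (.leaf false ⟨⟨-35,-120,0⟩,⟨0,0,125⟩,⟨120,-35,0⟩⟩ (1,[(0,1)]) (1,[(1,125)]) (24,[(3,3125),(0,7)])) (.leaf false ⟨⟨0,0,125⟩,⟨44,117,0⟩,⟨117,-44,0⟩⟩ (1,[(1,125)]) (35,[(0,44),(2,1185)]) (35,[(0,117),(2,15580)])))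 (.node ⟨-60,-80,-75⟩ (.node ⟨45,60,-100⟩ (.leaf false ⟨⟨-60,-80,-75⟩,⟨45,60,-100⟩,⟨100,-75,0⟩⟩ (1,[(1,1)]) (1,[(0,1)]) (1,[(4,100),(3,75)])) (.leaf false ⟨⟨-35,-96,72⟩,⟨0,-75,-100⟩,⟨120,-28,21⟩⟩ (5,[(2,440),(4,185),(0,8)]) (4,[(2,900),(4,225),(0,5)]) (15,[(2,385),(4,2115),(0,7)]))) (.leaf false ⟨⟨24,-107,-60⟩,⟨80,60,-75⟩,⟨93,-24,80⟩⟩ (5,[(1,450),(0,2),(2,695)]) (3,[(1,525),(0,4),(2,140)]) (20,[(1,725),(0,31),(2,2960)]))))) (.node ⟨0,1,0⟩ (.node ⟨0,0,1⟩ (.node ⟨-120,-35,0⟩ (.leaf false ⟨⟨-120,-35,0⟩,⟨-35,120,0⟩,⟨0,0,125⟩⟩ (1,[(0,1)]) (24,[(0,7),(2,3125)]) (1,[(1,125)])) (.leaf false ⟨⟨-44,117,0⟩,⟨0,0,125⟩,⟨117,44,0⟩⟩ (35,[(3,15580),(0,117)]) (1,[(1,125)]) (35,[(3,1185),(0,44)]))) (.node ⟨-100,45,60⟩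 (.node ⟨-75,-60,-80⟩ (.leaf false ⟨⟨-100,45,60⟩,⟨-75,-60,-80⟩,⟨0,100,-75⟩⟩ (1,[(1,1)]) (1,[(0,1)]) (1,[(2,75),(3,100)])) (.leaf false ⟨⟨-108,45,44⟩,⟨-19,60,-108⟩,⟨60,100,45⟩⟩ (4,[(2,64),(4,657),(0,3)]) (1,[(2,188),(4,94),(0,1)]) (3,[(2,265),(4,195),(0,5)]))) (.leaf false ⟨⟨-100,0,-75⟩,⟨21,120,-28⟩,⟨72,-35,-96⟩⟩ (4,[(3,900),(2,225),(0,5)]) (15,[(3,385),(2,2115),(0,7)]) (5,[(3,440),(2,185),(0,8)])))) (.node ⟨0,0,1⟩ (.node ⟨-100,60,45⟩ (.node ⟨-75,-80,-60⟩ (.leaf false ⟨⟨-100,60,45⟩,⟨-75,-80,-60⟩,⟨0,-75,100⟩⟩ (1,[(1,1)]) (1,[(0,1)]) (1,[(2,100),(3,75)])) (.leaf false ⟨⟨-108,-19,60⟩,⟨44,-108,45⟩,⟨45,60,100⟩⟩ (1,[(4,183),(3,99),(0,1)]) (4,[(4,49),(3,672),(0,3)]) (3,[(4,240),(3,220),(0,5)]))) (.leaf false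 ⟨⟨-100,-75,0⟩,⟨21,-28,120⟩,⟨72,-96,-35⟩⟩ (4,[(1,225),(3,900),(0,5)]) (15,[(1,2115),(3,385),(0,7)]) (5,[(1,185),(3,440),(0,8)]))) (.node ⟨-60,80,-75⟩ (.node ⟨45,-60,-100⟩ (.leaf false ⟨⟨-100,-75,0⟩,⟨-60,80,-75⟩,⟨45,-60,-100⟩⟩ (1,[(4,100),(3,75)]) (1,[(1,1)]) (1,[(0,1)])) (.leaf false ⟨⟨-100,-72,21⟩,⟨-75,96,-28⟩,⟨0,-35,-120⟩⟩ (9,[(2,1811),(0,20),(3,1848)]) (3,[(2,584),(0,5),(3,12)]) (1,[(2,120),(3,35)]))) (.node ⟨-60,-75,80⟩ (.leaf false ⟨⟨-100,0,-75⟩,⟨-60,-75,80⟩,⟨45,-100,-60⟩⟩ (1,[(2,75),(4,100)]) (1,[(0,1)]) (4,[(2,615),(4,120),(1,5)])) (.leaf false ⟨⟨-96,-60,53⟩,⟨-3,-80,-96⟩,⟨80,-75,60⟩⟩ (155,[(4,27900),(1,165),(0,52)]) (155,[(4,327825),(1,2720),(0,2736)]) (31,[(4,3100),(1,60),(0,33)]))))))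
theorem h125_ok : h125.check (ok 125 4 ⟨3, 3, 3⟩) (fun _ r => r) [] = true := by decide +kernel


end H34S
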