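import Pool.Agent.Lib.H34S.Cover

/-!
# H34S: certificates (generated), hexagonal numbers
-/

set_option autoImplicit false

namespace H34S

def h127 : T := .node ⟨1,0,0⟩ (.node ⟨0,1,0⟩ (.node ⟨0,0,1⟩ (.node ⟨-98,42,69⟩ (.node ⟨21,118,-42⟩ (.leaf false ⟨⟨-98,42,69⟩,⟨21,118,-42⟩,⟨78,21,98⟩⟩ (1,[(1,1)]) (1,[(0,1)]) (2,[(2,127),(4,254),(1,1)])) (.leaf false ⟨⟨-98,21,78⟩,⟨42,118,21⟩,⟨69,-42,98⟩⟩ (127,[(3,2667),(1,118),(0,42)]) (2,[(4,105),(3,354),(0,1)]) (3,[(4,354),(3,700),(0,7)]))) (.node ⟨78,21,-98⟩ (.leaf false ⟨⟨21,118,42⟩,⟨78,21,-98⟩,⟨98,-42,69⟩⟩ (14,[(2,795),(1,3),(3,1778)]) (1,[(0,1)]) (1,[(2,138),(1,1)])) (.leaf false ⟨⟨-42,21,118⟩,⟨69,-98,42⟩,⟨98,78,21⟩⟩ (2111,[(1,2544),(3,242172),(0,4333)]) (4222,[(1,10038),(3,194257),(0,8877)])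 (2111,[(1,5621),(3,493350),(0,4410)])))) (.node ⟨-46,117,-18⟩ (.node ⟨26,-18,-123⟩ (.node ⟨117,46,18⟩ (.leaf false ⟨⟨-42,117,-26⟩,⟨26,-18,-123⟩,⟨117,46,18⟩⟩ (1,[(3,8),(5,4),(2,1)]) (1,[(1,1)]) (1,[(0,1)])) (.leaf false ⟨⟨-123,-10,-30⟩,⟨10,102,-75⟩,⟨30,-75,-98⟩⟩ (3,[(5,216),(4,200),(0,5)]) (6,[(5,2985),(4,1762),(0,25)]) (9,[(5,6003),(4,1579),(0,49)]))) (.leaf false ⟨⟨-98,78,21⟩,⟨42,21,118⟩,⟨69,98,-42⟩⟩ (3,[(2,1536),(4,44),(0,13)]) (6,[(2,153),(4,434),(0,7)]) (9,[(2,6405),(4,1895),(0,49)]))) (.leaf false ⟨⟨18,-26,-123⟩,⟨46,117,-18⟩,⟨117,-42,26⟩⟩ (23,[(1,2991),(0,9),(2,455)]) (1,[(1,36),(0,1),(2,234)]) (46,[(1,910),(0,117),(2,11757)])))) (.node ⟨0,0,1⟩ (.node ⟨-46,-18,117⟩ (.node ⟨26,-123,-18⟩ (.node ⟨117,18,46⟩ (.leaf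 false ⟨⟨-42,-26,117⟩,⟨26,-123,-18⟩,⟨117,18,46⟩⟩ (1,[(5,4),(4,8),(2,1)]) (1,[(1,1)]) (1,[(0,1)])) (.leaf false ⟨⟨-123,-30,-10⟩,⟨10,-75,102⟩,⟨30,-98,-75⟩⟩ (3,[(3,200),(5,216),(0,5)]) (6,[(3,1762),(5,2985),(0,25)]) (9,[(3,1579),(5,6003),(0,49)]))) (.leaf false ⟨⟨-98,21,78⟩,⟨42,118,21⟩,⟨69,-42,98⟩⟩ (3,[(4,44),(3,1536),(0,13)]) (6,[(4,434),(3,153),(0,7)]) (9,[(4,1895),(3,6405),(0,49)]))) (.leaf false ⟨⟨18,-123,-26⟩,⟨46,-18,117⟩,⟨117,26,-42⟩⟩ (23,[(1,455),(0,9),(2,2991)]) (1,[(1,234),(0,1),(2,36)]) (46,[(1,11757),(0,117),(2,910)]))) (.node ⟨-75,-98,-30⟩ (.node ⟨102,-66,37⟩ (.node ⟨53,18,-114⟩ (.leaf false ⟨⟨-54,-107,-42⟩,⟨53,18,-114⟩,⟨102,-66,37⟩⟩ (25,[(3,510),(4,911),(2,18)]) (1,[(0,1)]) (1,[(1,1)])) (.leaf false ⟨⟨-114,-42,37⟩,⟨18,-107,-66⟩,⟨53,-54,102⟩⟩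 (3,[(3,687),(5,29),(0,7)]) (18,[(3,13386),(5,5995),(0,107)]) (1,[(3,240),(5,212),(0,3)]))) (.leaf false ⟨⟨-91,-42,-78⟩,⟨42,78,-91⟩,⟨78,-91,-42⟩⟩ (37,[(4,4589),(3,6702),(0,78)]) (37,[(4,10836),(3,3120),(0,91)]) (37,[(4,7170),(3,6139),(0,42)]))) (.node ⟨54,-107,42⟩ (.leaf false ⟨⟨53,-18,-114⟩,⟨54,-107,42⟩,⟨102,66,37⟩⟩ (75,[(2,10140),(1,53),(3,6544)]) (1,[(0,1)]) (25,[(2,95),(1,34),(3,1682)])) (.leaf false ⟨⟨-91,-42,-78⟩,⟨42,78,-91⟩,⟨78,-91,-42⟩⟩ (51,[(1,13),(3,14544),(0,104)]) (510,[(1,2226),(3,466733),(0,2695)]) (85,[(1,308),(3,70554),(0,305)])))))) (.node ⟨0,1,0⟩ (.node ⟨0,0,1⟩ (.node ⟨-18,117,-46⟩ (.node ⟨-123,-18,26⟩ (.node ⟨18,46,117⟩ (.leaf false ⟨⟨-123,-18,26⟩,⟨-26,117,-42⟩,⟨18,46,117⟩⟩ (1,[(1,1)]) (1,[(3,4),(5,8),(2,1)])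 (1,[(0,1)])) (.leaf false ⟨⟨-123,-26,-18⟩,⟨-26,42,117⟩,⟨-18,117,-46⟩⟩ (6,[(3,4689),(0,41),(4,1730)]) (9,[(3,2574),(0,13),(4,976)]) (1,[(3,71),(0,1),(4,163)]))) (.leaf false ⟨⟨-123,18,-26⟩,⟨-18,46,117⟩,⟨26,117,-42⟩⟩ (1,[(4,246),(0,1)]) (9,[(2,1651),(4,2991),(0,23)]) (2,[(2,254),(4,1547),(0,13)]))) (.leaf false ⟨⟨-123,-26,18⟩,⟨-18,117,46⟩,⟨26,-42,117⟩⟩ (23,[(3,2991),(2,455),(0,9)]) (1,[(3,36),(2,234),(0,1)]) (46,[(3,910),(2,11757),(0,117)]))) (.node ⟨-30,-75,-98⟩ (.node ⟨37,102,-66⟩ (.node ⟨-114,53,18⟩ (.leaf false ⟨⟨-114,53,18⟩,⟨-42,-54,-107⟩,⟨37,102,-66⟩⟩ (1,[(0,1)]) (25,[(3,911),(2,18),(5,510)]) (1,[(1,1)])) (.leaf false ⟨⟨-123,-10,-30⟩,⟨10,102,-75⟩,⟨30,-75,-98⟩⟩ (3,[(5,939),(4,235),(0,5)]) (6,[(5,2790),(4,1937),(0,25)])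 (9,[(5,5316),(4,1922),(0,49)]))) (.leaf false ⟨⟨-123,10,30⟩,⟨-30,-75,-98⟩,⟨-10,102,-75⟩⟩ (37,[(2,7008),(0,123),(3,12916)]) (37,[(2,5606),(0,30),(3,285)]) (37,[(2,3435),(0,10),(3,4794)]))) (.node ⟨42,54,-107⟩ (.leaf false ⟨⟨-114,53,-18⟩,⟨37,102,66⟩,⟨42,54,-107⟩⟩ (75,[(2,6544),(4,10140),(1,53)]) (25,[(2,1682),(4,95),(1,34)]) (1,[(0,1)])) (.leaf false ⟨⟨-123,-26,-18⟩,⟨-26,42,117⟩,⟨-18,117,-46⟩⟩ (102,[(2,98337),(0,563),(1,370)]) (255,[(2,79154),(0,535),(1,528)]) (85,[(2,64846),(0,270),(1,327)]))))) (.node ⟨0,0,1⟩ (.node ⟨-30,-98,-75⟩ (.node ⟨37,-66,102⟩ (.node ⟨-114,18,53⟩ (.leaf false ⟨⟨-114,18,53⟩,⟨-42,-107,-54⟩,⟨37,-66,102⟩⟩ (1,[(0,1)]) (25,[(5,510),(2,18),(4,911)]) (1,[(1,1)])) (.leaf false ⟨⟨-123,-30,-10⟩,⟨10,-75,102⟩,⟨30,-98,-75⟩⟩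 (3,[(3,235),(5,939),(0,5)]) (6,[(3,1937),(5,2790),(0,25)]) (9,[(3,1922),(5,5316),(0,49)]))) (.leaf false ⟨⟨-123,30,10⟩,⟨-30,-98,-75⟩,⟨-10,-75,102⟩⟩ (37,[(2,12916),(0,123),(3,7008)]) (37,[(2,285),(0,30),(3,5606)]) (37,[(2,4794),(0,10),(3,3435)]))) (.node ⟨42,-107,54⟩ (.leaf false ⟨⟨-114,-18,53⟩,⟨37,66,102⟩,⟨42,-107,54⟩⟩ (75,[(4,10140),(3,6544),(1,53)]) (25,[(4,95),(3,1682),(1,34)]) (1,[(0,1)])) (.leaf false ⟨⟨-123,-26,18⟩,⟨-18,117,46⟩,⟨26,-42,117⟩⟩ (170,[(3,201071),(1,822),(0,1085)]) (255,[(3,66282),(1,484),(0,455)]) (51,[(3,19172),(1,117),(0,52)])))) (.leaf false ⟨⟨-127,0,0⟩,⟨0,-127,0⟩,⟨0,0,-127⟩⟩ (1,[(2,127)]) (1,[(1,127)]) (1,[(0,127)]))))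
theorem h127_ok : h127.check (ok 127 4 ⟨3, 3, 3⟩) (fun _ r => r) [] = true := by decide +kernel

def h131 : T := .node ⟨1,0,0⟩ (.node ⟨0,1,0⟩ (.node ⟨0,0,1⟩ (.node ⟨-31,-18,126⟩ (.node ⟨-18,129,14⟩ (.leaf false ⟨⟨-31,-18,126⟩,⟨-18,129,14⟩,⟨126,14,33⟩⟩ (1,[(1,1)]) (1,[(0,1)]) (42,[(4,5633),(3,786),(1,11)])) (.leaf false ⟨⟨-31,18,126⟩,⟨18,129,-14⟩,⟨126,-14,33⟩⟩ (1,[(3,36),(1,1)]) (1,[(3,258),(0,1)]) (14,[(3,16769),(1,18),(0,129)]))) (.node ⟨-18,126,-31⟩ (.leaf false ⟨⟨-18,126,-31⟩,⟨14,33,126⟩,⟨129,14,-18⟩⟩ (1,[(0,1)]) (42,[(2,5633),(4,786),(0,11)]) (9,[(2,720),(4,944),(1,7)])) (.leaf false ⟨⟨6,-22,129⟩,⟨66,-111,-22⟩,⟨113,66,6⟩⟩ (3,[(2,356),(0,1),(3,60)]) (1410,[(2,186503),(0,1543),(1,2106)]) (31,[(2,14424),(1,113),(3,12)]))))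 (.node ⟨-66,22,-111⟩ (.node ⟨49,102,66⟩ (.node ⟨114,-14,-63⟩ (.leaf false ⟨⟨-42,81,-94⟩,⟨49,102,66⟩,⟨114,-14,-63⟩⟩ (11,[(3,257),(4,737),(2,7)]) (1,[(1,1)]) (1,[(0,1)])) (.leaf false ⟨⟨-126,18,-31⟩,⟨14,129,18⟩,⟨33,14,-126⟩⟩ (7,[(3,784),(5,144),(0,9)]) (14,[(3,7875),(5,14902),(0,129)]) (1,[(3,189),(5,147),(0,1)]))) (.leaf false ⟨⟨-66,-22,-111⟩,⟨-6,129,-22⟩,⟨113,-6,-66⟩⟩ (22,[(4,361),(3,3290),(0,37)]) (3,[(4,31),(3,489),(0,1)]) (1,[(4,162),(3,96),(0,1)]))) (.leaf false ⟨⟨6,129,-22⟩,⟨66,-22,-111⟩,⟨113,6,66⟩⟩ (11,[(1,353),(0,1),(2,1441)]) (1,[(1,222),(0,1)]) (66,[(1,8187),(0,113),(2,2882)])))) (.node ⟨0,0,1⟩ (.node ⟨-66,-111,22⟩ (.node ⟨49,66,102⟩ (.node ⟨114,-63,-14⟩ (.leaf false ⟨⟨-42,-94,81⟩,⟨49,66,102⟩,⟨114,-63,-14⟩⟩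 (11,[(3,737),(4,257),(2,7)]) (1,[(1,1)]) (1,[(0,1)])) (.leaf false ⟨⟨-126,-31,18⟩,⟨14,18,129⟩,⟨33,-126,14⟩⟩ (7,[(5,144),(4,784),(0,9)]) (14,[(5,14902),(4,7875),(0,129)]) (1,[(5,147),(4,189),(0,1)]))) (.leaf false ⟨⟨-66,-111,-22⟩,⟨-6,-22,129⟩,⟨113,-66,-6⟩⟩ (22,[(2,3290),(4,361),(0,37)]) (3,[(2,489),(4,31),(0,1)]) (1,[(2,96),(4,162),(0,1)]))) (.leaf false ⟨⟨6,-22,129⟩,⟨66,-111,-22⟩,⟨113,66,6⟩⟩ (11,[(1,1441),(0,1),(2,353)]) (1,[(0,1),(2,222)]) (66,[(1,2882),(0,113),(2,8187)]))) (.node ⟨14,-126,33⟩ (.node ⟨14,33,-126⟩ (.node ⟨129,18,14⟩ (.leaf false ⟨⟨14,-126,33⟩,⟨18,-31,-126⟩,⟨129,18,14⟩⟩ (1,[(2,1)]) (43,[(3,5502),(0,6),(4,1441)]) (1,[(0,1)])) (.leaf false ⟨⟨-90,-95,6⟩,⟨-15,6,-130⟩,⟨94,-90,-15⟩⟩ (2358,[(5,74539),(2,1438),(0,2379)])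 (455,[(1,404),(5,63500),(0,589)]) (131,[(5,46374),(2,55),(0,270)]))) (.leaf false ⟨⟨-22,-111,-66⟩,⟨-6,-66,113⟩,⟨129,-22,-6⟩⟩ (11,[(2,5388),(4,276),(0,37)]) (1,[(2,139),(4,22),(0,2)]) (3,[(2,270),(4,415),(0,2)]))) (.leaf false ⟨⟨-22,-66,-111⟩,⟨-6,113,-66⟩,⟨129,-6,-22⟩⟩ (11,[(3,276),(2,5388),(0,37)]) (1,[(3,22),(2,139),(0,2)]) (3,[(3,415),(2,270),(0,2)]))))) (.node ⟨0,1,0⟩ (.node ⟨0,0,1⟩ (.node ⟨-111,-66,22⟩ (.node ⟨66,49,102⟩ (.node ⟨-63,114,-14⟩ (.leaf false ⟨⟨-94,-42,81⟩,⟨-63,114,-14⟩,⟨66,49,102⟩⟩ (11,[(3,737),(2,7),(5,257)]) (1,[(0,1)]) (1,[(1,1)])) (.leaf false ⟨⟨-126,33,14⟩,⟨-31,-126,18⟩,⟨18,14,129⟩⟩ (1,[(5,189),(4,147),(0,1)]) (7,[(5,784),(4,144),(0,9)]) (14,[(5,7875),(4,14902),(0,129)]))) (.leaf false ⟨⟨-111,-66,-22⟩,⟨-66,113,-6⟩,⟨-22,-6,129⟩⟩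 (22,[(2,3290),(0,37),(3,361)]) (1,[(2,96),(0,1),(3,162)]) (3,[(2,489),(0,1),(3,31)]))) (.leaf false ⟨⟨-111,66,-22⟩,⟨-22,6,129⟩,⟨66,113,6⟩⟩ (1,[(3,222),(0,1)]) (11,[(1,1441),(3,353),(0,1)]) (66,[(1,2882),(3,8187),(0,113)]))) (.node ⟨-126,14,33⟩ (.node ⟨33,14,-126⟩ (.node ⟨18,129,14⟩ (.leaf false ⟨⟨-126,14,33⟩,⟨-31,18,-126⟩,⟨18,129,14⟩⟩ (1,[(2,1)]) (43,[(3,5502),(5,1441),(0,6)]) (1,[(0,1)])) (.leaf false ⟨⟨-130,-15,6⟩,⟨-15,94,-90⟩,⟨6,-90,-95⟩⟩ (1179,[(2,964),(4,196762),(0,1767)]) (91,[(4,28794),(1,47),(0,162)]) (70,[(4,925),(1,46),(0,61)]))) (.leaf false ⟨⟨-111,-22,-66⟩,⟨-66,-6,113⟩,⟨-22,129,-6⟩⟩ (11,[(2,5388),(0,37),(3,276)]) (1,[(2,139),(0,2),(3,22)]) (3,[(2,270),(0,2),(3,415)]))) (.leaf false ⟨⟨-95,-6,-90⟩,⟨6,130,-15⟩,⟨90,-15,-94⟩⟩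 (11,[(3,4825),(2,354),(0,30)]) (11,[(3,564),(2,1500),(0,5)]) (33,[(3,8874),(2,821),(0,94)])))) (.node ⟨0,0,1⟩ (.node ⟨33,-126,14⟩ (.node ⟨-126,33,14⟩ (.node ⟨14,18,129⟩ (.leaf false ⟨⟨-126,-31,18⟩,⟨14,18,129⟩,⟨33,-126,14⟩⟩ (43,[(5,5502),(4,1441),(0,6)]) (1,[(0,1)]) (1,[(2,1)])) (.leaf false ⟨⟨-130,6,-15⟩,⟨-15,-90,94⟩,⟨6,-95,-90⟩⟩ (455,[(3,63500),(1,404),(0,589)]) (131,[(3,46374),(0,270),(2,55)]) (2358,[(3,74539),(0,2379),(2,1438)]))) (.leaf false ⟨⟨-95,-90,-6⟩,⟨6,-15,130⟩,⟨90,-94,-15⟩⟩ (11,[(2,354),(4,4825),(0,30)]) (11,[(2,1500),(4,564),(0,5)]) (33,[(2,821),(4,8874),(0,94)]))) (.leaf false ⟨⟨-111,-66,-22⟩,⟨-66,113,-6⟩,⟨-22,-6,129⟩⟩ (11,[(1,276),(0,37),(2,5388)]) (1,[(1,22),(0,2),(2,139)]) (3,[(1,415),(0,2),(2,270)])))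 (.leaf false ⟨⟨-131,0,0⟩,⟨0,-131,0⟩,⟨0,0,-131⟩⟩ (1,[(2,131)]) (1,[(1,131)]) (1,[(0,131)]))))
theorem h131_ok : h131.check (ok 131 4 ⟨3, 3, 3⟩) (fun _ r => r) [] = true := by decide +kernel

def h133 : T := .node ⟨1,0,0⟩ (.node ⟨0,1,0⟩ (.node ⟨0,0,1⟩ (.leaf false ⟨⟨0,0,133⟩,⟨0,133,0⟩,⟨133,0,0⟩⟩ (1,[(0,133)]) (1,[(1,133)]) (1,[(2,133)])) (.node ⟨-75,60,-92⟩ (.node ⟨61,-48,-108⟩ (.node ⟨108,72,29⟩ (.leaf false ⟨⟨-48,101,-72⟩,⟨61,-48,-108⟩,⟨108,72,29⟩⟩ (23,[(5,246),(4,1243),(2,18)]) (1,[(1,1)]) (1,[(0,1)])) (.leaf false ⟨⟨-99,72,-52⟩,⟨-12,-88,-99⟩,⟨88,69,-72⟩⟩ (29,[(5,2745),(4,5832),(0,52)]) (29,[(5,10344),(4,4576),(0,99)]) (29,[(5,10328),(4,7185),(0,72)]))) (.leaf false ⟨⟨-99,88,12⟩,⟨52,72,-99⟩,⟨72,69,88⟩⟩ (6,[(2,1116),(4,77),(0,11)])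 (2,[(2,522),(4,287),(0,3)]) (16,[(2,1076),(4,2555),(0,23)]))) (.leaf false ⟨⟨36,128,-3⟩,⟨88,-27,-96⟩,⟨93,-24,92⟩⟩ (25,[(1,1179),(0,12),(2,3920)]) (75,[(1,15296),(0,88),(2,3255)]) (25,[(1,552),(0,31),(2,1260)])))) (.node ⟨0,0,1⟩ (.node ⟨-75,-92,60⟩ (.node ⟨61,-108,-48⟩ (.node ⟨108,29,72⟩ (.leaf false ⟨⟨-48,-72,101⟩,⟨61,-108,-48⟩,⟨108,29,72⟩⟩ (23,[(3,1243),(5,246),(2,18)]) (1,[(1,1)]) (1,[(0,1)])) (.leaf false ⟨⟨-99,-52,72⟩,⟨-12,-99,-88⟩,⟨88,-72,69⟩⟩ (29,[(3,5832),(5,2745),(0,52)]) (29,[(3,4576),(5,10344),(0,99)]) (29,[(3,7185),(5,10328),(0,72)]))) (.leaf false ⟨⟨-99,12,88⟩,⟨52,-99,72⟩,⟨72,88,69⟩⟩ (6,[(4,77),(3,1116),(0,11)]) (2,[(4,287),(3,522),(0,3)]) (16,[(4,2555),(3,1076),(0,23)]))) (.leaf false ⟨⟨36,-3,128⟩,⟨88,-96,-27⟩,⟨93,92,-24⟩⟩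 (25,[(1,3920),(0,12),(2,1179)]) (75,[(1,3255),(0,88),(2,15296)]) (25,[(1,1260),(0,31),(2,552)]))) (.node ⟨-12,-132,-11⟩ (.node ⟨-11,12,-132⟩ (.leaf false ⟨⟨-12,-132,-11⟩,⟨-11,12,-132⟩,⟨132,-11,-12⟩⟩ (1,[(1,1)]) (1,[(0,1)]) (11,[(4,1463),(3,133),(0,1)])) (.node ⟨-27,-128,-24⟩ (.leaf false ⟨⟨-27,-128,-24⟩,⟨88,-36,93⟩,⟨96,-3,-92⟩⟩ (1,[(0,1)]) (1,[(3,303),(5,55),(1,3)]) (4,[(3,500),(5,373),(1,1)])) (.leaf false ⟨⟨-3,-128,36⟩,⟨92,24,93⟩,⟨96,-27,-88⟩⟩ (21,[(3,1015),(1,15),(2,19)]) (433,[(3,335163),(0,342),(1,2782)]) (676,[(3,115727),(0,4332),(2,4339)])))) (.leaf false ⟨⟨20,108,-75⟩,⟨60,-75,-92⟩,⟨117,20,60⟩⟩ (3,[(1,280),(0,5),(2,336)]) (1,[(1,147),(0,5),(2,735)]) (4,[(1,189),(0,39),(2,5068)]))))) (.node ⟨0,1,0⟩ (.node ⟨0,0,1⟩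 (.node ⟨-92,-75,60⟩ (.node ⟨-108,61,-48⟩ (.node ⟨29,108,72⟩ (.leaf false ⟨⟨-108,61,-48⟩,⟨-72,-48,101⟩,⟨29,108,72⟩⟩ (1,[(1,1)]) (23,[(3,1243),(2,18),(4,246)]) (1,[(0,1)])) (.leaf false ⟨⟨-123,-48,-16⟩,⟨-48,124,-3⟩,⟨-16,-3,132⟩⟩ (29,[(3,8392),(0,123),(4,11892)]) (29,[(3,3369),(0,48),(4,8780)]) (29,[(3,4980),(0,16),(4,1641)]))) (.leaf false ⟨⟨-128,-27,24⟩,⟨-3,96,92⟩,⟨36,-88,93⟩⟩ (2,[(4,364),(3,7),(0,1)]) (12,[(4,2520),(3,2555),(0,23)]) (16,[(4,2772),(3,483),(0,31)]))) (.leaf false ⟨⟨-96,88,-27⟩,⟨-3,36,128⟩,⟨92,93,-24⟩⟩ (75,[(1,3255),(3,15296),(0,88)]) (25,[(1,3920),(3,1179),(0,12)]) (25,[(1,1260),(3,552),(0,31)]))) (.node ⟨-132,-12,-11⟩ (.node ⟨12,-11,-132⟩ (.leaf false ⟨⟨-132,-12,-11⟩,⟨-11,132,-12⟩,⟨12,-11,-132⟩⟩ (1,[(1,1)])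 (11,[(4,133),(3,1463),(0,1)]) (1,[(0,1)])) (.node ⟨-128,-27,-24⟩ (.leaf false ⟨⟨-128,-27,-24⟩,⟨-36,88,93⟩,⟨-3,96,-92⟩⟩ (1,[(0,1)]) (1,[(3,303),(1,3),(4,55)]) (4,[(3,500),(1,1),(4,373)])) (.leaf false ⟨⟨-128,-3,36⟩,⟨-27,96,-88⟩,⟨24,92,93⟩⟩ (21,[(3,1015),(2,19),(1,15)]) (676,[(3,115727),(2,4339),(0,4332)]) (433,[(3,335163),(1,2782),(0,342)])))) (.leaf false ⟨⟨-114,57,-38⟩,⟨38,114,57⟩,⟨57,38,-114⟩⟩ (4,[(1,361),(3,2964),(0,19)]) (2,[(1,95),(3,2432),(0,19)]) (6,[(1,893),(3,2166),(0,19)])))) (.node ⟨0,0,1⟩ (.node ⟨-132,-11,-12⟩ (.node ⟨12,-132,-11⟩ (.leaf false ⟨⟨-132,-11,-12⟩,⟨-11,-12,132⟩,⟨12,-132,-11⟩⟩ (1,[(1,1)]) (11,[(2,1463),(4,133),(0,1)]) (1,[(0,1)])) (.node ⟨-128,-24,-27⟩ (.leaf false ⟨⟨-128,-24,-27⟩,⟨-36,93,88⟩,⟨-3,-92,96⟩⟩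 (1,[(0,1)]) (1,[(3,55),(1,3),(4,303)]) (4,[(3,373),(1,1),(4,500)])) (.leaf false ⟨⟨-128,-27,24⟩,⟨-3,96,92⟩,⟨36,-88,93⟩⟩ (169,[(2,544),(4,7987),(0,392)]) (35492,[(1,4685),(2,203508),(0,209475)]) (169,[(2,911),(4,28539),(0,987)])))) (.leaf false ⟨⟨-114,-38,57⟩,⟨38,57,114⟩,⟨57,-114,38⟩⟩ (4,[(3,2964),(2,361),(0,19)]) (2,[(3,2432),(2,95),(0,19)]) (6,[(3,2166),(2,893),(0,19)]))) (.node ⟨-16,48,-123⟩ (.node ⟨-126,-7,42⟩ (.leaf false ⟨⟨-132,-3,16⟩,⟨-16,48,-123⟩,⟨-3,-124,-48⟩⟩ (440,[(2,7315),(1,39),(0,456)]) (1,[(1,1)]) (16,[(2,399),(1,3),(3,2128)])) (.leaf false ⟨⟨-126,-42,-7⟩,⟨-7,42,-126⟩,⟨42,-119,-42⟩⟩ (6,[(4,882),(3,259),(0,1)]) (14,[(1,14),(3,91),(0,1)]) (1,[(4,84),(3,126),(0,1)]))) (.leaf false ⟨⟨-132,-3,-16⟩,⟨-3,-124,48⟩,⟨16,-48,-123⟩⟩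 (16,[(1,379),(3,2128),(0,1)]) (12,[(1,3237),(3,532),(0,31)]) (1,[(1,246),(0,1)])))))
theorem h133_ok : h133.check (ok 133 4 ⟨3, 3, 3⟩) (fun _ r => r) [] = true := by decide +kernel

def h137 : T := .node ⟨1,0,0⟩ (.node ⟨0,1,0⟩ (.node ⟨0,0,1⟩ (.leaf false ⟨⟨0,0,137⟩,⟨0,137,0⟩,⟨137,0,0⟩⟩ (1,[(0,137)]) (1,[(1,137)]) (1,[(2,137)])) (.node ⟨-48,48,-119⟩ (.node ⟨9,128,48⟩ (.leaf false ⟨⟨-48,48,-119⟩,⟨9,128,48⟩,⟨128,9,-48⟩⟩ (1,[(1,1)]) (1,[(0,1)]) (16,[(2,411),(4,2192),(1,3)])) (.node ⟨96,92,33⟩ (.leaf false ⟨⟨-12,57,-124⟩,⟨96,92,33⟩,⟨97,-84,-48⟩⟩ (124,[(0,53),(2,131),(1,32)]) (1,[(0,1)]) (1,[(5,106),(4,44),(1,1)])) (.leaf false ⟨⟨-128,9,-48⟩,⟨9,-128,-48⟩,⟨48,48,-119⟩⟩ (11,[(5,128),(4,1571),(0,16)]) (11,[(5,1635),(4,64),(0,16)])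 (33,[(5,13008),(4,12532),(0,119)])))) (.leaf false ⟨⟨0,137,0⟩,⟨88,0,105⟩,⟨105,0,-88⟩⟩ (1,[(2,137)]) (6,[(1,679),(0,11),(2,528)]) (16,[(1,5573),(0,35),(2,1680)])))) (.node ⟨0,0,1⟩ (.node ⟨-48,-119,48⟩ (.node ⟨9,48,128⟩ (.leaf false ⟨⟨-48,-119,48⟩,⟨9,48,128⟩,⟨128,-48,9⟩⟩ (1,[(1,1)]) (1,[(0,1)]) (16,[(4,2192),(3,411),(1,3)])) (.node ⟨96,33,92⟩ (.leaf false ⟨⟨-12,-124,57⟩,⟨96,33,92⟩,⟨97,-48,-84⟩⟩ (124,[(0,53),(1,32),(2,131)]) (1,[(0,1)]) (1,[(3,44),(5,106),(1,1)])) (.leaf false ⟨⟨-128,-48,9⟩,⟨9,-48,-128⟩,⟨48,-119,48⟩⟩ (11,[(3,1571),(5,128),(0,16)]) (11,[(3,64),(5,1635),(0,16)]) (33,[(3,12532),(5,13008),(0,119)])))) (.leaf false ⟨⟨0,0,137⟩,⟨88,105,0⟩,⟨105,-88,0⟩⟩ (1,[(1,137)]) (6,[(1,528),(0,11),(2,679)]) (16,[(1,1680),(0,35),(2,5573)])))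 (.node ⟨132,-7,36⟩ (.node ⟨-16,-132,33⟩ (.leaf false ⟨⟨-16,-132,33⟩,⟨33,-36,-128⟩,⟨132,-7,36⟩⟩ (1,[(0,1)]) (11,[(2,1507),(4,411),(0,3)]) (1,[(1,1)])) (.node ⟨65,120,-12⟩ (.leaf false ⟨⟨12,-20,-135⟩,⟨65,120,-12⟩,⟨120,-63,20⟩⟩ (4,[(3,441),(1,3),(4,476)]) (1,[(0,1)]) (11,[(3,140),(2,10),(4,623)])) (.leaf false ⟨⟨-120,-20,-63⟩,⟨12,-135,20⟩,⟨65,-12,-120⟩⟩ (9727,[(1,66305),(2,19280),(0,73432)]) (87543,[(1,254672),(2,158967),(0,369352)]) (9727,[(1,253092),(2,108564),(0,273041)])))) (.node ⟨-7,84,-108⟩ (.leaf false ⟨⟨-128,9,-48⟩,⟨9,-128,-48⟩,⟨48,48,-119⟩⟩ (3,[(4,144),(3,1),(1,4)]) (3,[(4,555),(3,412),(1,4)]) (108,[(4,6017),(3,4812),(0,119)])) (.leaf false ⟨⟨-135,-20,-12⟩,⟨12,-120,65⟩,⟨20,-63,-120⟩⟩ (189,[(4,8864),(0,67),(1,264)])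 (2268,[(4,990161),(0,3865),(1,7500)]) (27,[(4,26813),(0,37),(1,201)])))))) (.node ⟨0,1,0⟩ (.node ⟨0,0,1⟩ (.node ⟨-119,-48,48⟩ (.node ⟨48,9,128⟩ (.leaf false ⟨⟨-119,-48,48⟩,⟨-48,128,9⟩,⟨48,9,128⟩⟩ (1,[(1,1)]) (16,[(1,3),(4,411),(3,2192)]) (1,[(0,1)])) (.node ⟨33,96,92⟩ (.leaf false ⟨⟨-124,-12,57⟩,⟨-48,97,-84⟩,⟨33,96,92⟩⟩ (124,[(2,131),(1,32),(0,53)]) (1,[(3,44),(1,1),(4,106)]) (1,[(0,1)])) (.leaf false ⟨⟨-119,48,48⟩,⟨-48,-128,9⟩,⟨-48,9,-128⟩⟩ (33,[(3,12532),(0,119),(4,13008)]) (11,[(3,1571),(0,16),(4,128)]) (11,[(3,64),(0,16),(4,1635)])))) (.leaf false ⟨⟨-124,48,33⟩,⟨12,97,-96⟩,⟨57,84,92⟩⟩ (1,[(1,81),(3,243),(0,1)]) (48,[(1,48),(3,10967),(0,97)]) (4,[(1,704),(3,605),(0,7)]))) (.node ⟨-7,132,36⟩ (.node ⟨-132,-16,33⟩ (.leaf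 false ⟨⟨-132,-16,33⟩,⟨-36,33,-128⟩,⟨-7,132,36⟩⟩ (1,[(0,1)]) (11,[(2,1507),(0,3),(3,411)]) (1,[(1,1)])) (.node ⟨120,65,-12⟩ (.leaf false ⟨⟨-63,120,20⟩,⟨-20,12,-135⟩,⟨120,65,-12⟩⟩ (11,[(3,140),(5,623),(2,10)]) (4,[(3,441),(5,476),(1,3)]) (1,[(0,1)])) (.leaf false ⟨⟨-135,-12,-20⟩,⟨12,65,-120⟩,⟨20,-120,-63⟩⟩ (87543,[(2,368343),(1,804808),(0,962288)]) (9727,[(2,103356),(1,242628),(0,259889)]) (9727,[(2,10600),(1,48865),(0,51512)])))) (.node ⟨84,-7,-108⟩ (.leaf false ⟨⟨-135,-12,-20⟩,⟨12,65,-120⟩,⟨20,-120,-63⟩⟩ (9,[(4,1250),(3,552),(1,5)]) (9,[(4,732),(3,655),(0,10)]) (1556,[(4,15913),(0,444),(1,1391)])) (.leaf false ⟨⟨-135,12,20⟩,⟨-20,-120,-63⟩,⟨-12,65,-120⟩⟩ (567,[(3,424244),(1,3225),(0,1180)]) (84,[(3,26051),(1,276),(0,43)])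 (189,[(3,136679),(1,948),(0,106)]))))) (.node ⟨0,0,1⟩ (.node ⟨-7,36,132⟩ (.node ⟨-132,33,-16⟩ (.leaf false ⟨⟨-132,33,-16⟩,⟨-36,-128,33⟩,⟨-7,36,132⟩⟩ (1,[(0,1)]) (11,[(2,411),(0,3),(3,1507)]) (1,[(1,1)])) (.node ⟨120,-12,65⟩ (.leaf false ⟨⟨-63,20,120⟩,⟨-20,-135,12⟩,⟨120,-12,65⟩⟩ (11,[(2,10),(5,623),(4,140)]) (4,[(5,476),(4,441),(1,3)]) (1,[(0,1)])) (.leaf false ⟨⟨-135,-20,-12⟩,⟨12,-120,65⟩,⟨20,-63,-120⟩⟩ (87543,[(2,368343),(0,962288),(1,804808)]) (9727,[(2,103356),(0,259889),(1,242628)]) (9727,[(2,10600),(0,51512),(1,48865)])))) (.node ⟨84,-108,-7⟩ (.leaf false ⟨⟨-135,-20,-12⟩,⟨12,-120,65⟩,⟨20,-63,-120⟩⟩ (9,[(2,552),(4,1250),(1,5)]) (9,[(2,655),(4,732),(0,10)]) (252,[(2,15913),(1,348),(0,31)])) (.leaf false ⟨⟨-135,20,12⟩,⟨-20,-63,-120⟩,⟨-12,-120,65⟩⟩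 (567,[(2,424244),(0,1180),(1,3225)]) (84,[(2,26051),(0,43),(1,276)]) (189,[(2,136679),(0,106),(1,948)])))) (.node ⟨-12,65,-120⟩ (.node ⟨-108,-63,56⟩ (.node ⟨-84,88,-63⟩ (.leaf false ⟨⟨-108,-63,56⟩,⟨-84,88,-63⟩,⟨-7,-84,-108⟩⟩ (1,[(1,1)]) (1,[(0,1)]) (12,[(3,1233),(0,1),(4,1096)])) (.leaf false ⟨⟨-135,-20,-12⟩,⟨12,-120,65⟩,⟨20,-63,-120⟩⟩ (980,[(2,469),(5,40812),(1,795)]) (10823,[(2,4247),(1,7865),(0,12265)]) (32469,[(2,77542),(1,30831),(0,58448)]))) (.leaf false ⟨⟨-135,-12,-20⟩,⟨12,65,-120⟩,⟨20,-120,-63⟩⟩ (14,[(4,2430),(3,483),(0,5)]) (7,[(4,1536),(3,490),(0,15)]) (8,[(4,812),(3,1527),(0,9)]))) (.node ⟨20,-63,-120⟩ (.leaf false ⟨⟨-135,-20,-12⟩,⟨12,-120,65⟩,⟨20,-63,-120⟩⟩ (13,[(2,636),(4,1803),(1,4)]) (13,[(2,2035),(4,132),(1,24)])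 (1,[(0,1)])) (.leaf false ⟨⟨-135,20,12⟩,⟨-20,-63,-120⟩,⟨-12,-120,65⟩⟩ (544,[(2,1990272),(0,8535),(1,8105)]) (68,[(2,76800),(0,257),(1,315)]) (136,[(2,152440),(0,555),(1,789)]))))))
theorem h137_ok : h137.check (ok 137 4 ⟨3, 3, 3⟩) (fun _ r => r) [] = true := by decide +kernel

def h139 : T := .node ⟨1,0,0⟩ (.node ⟨0,1,0⟩ (.node ⟨0,0,1⟩ (.node ⟨-54,-23,126⟩ (.node ⟨121,-54,42⟩ (.leaf false ⟨⟨-54,-23,126⟩,⟨42,126,41⟩,⟨121,-54,42⟩⟩ (1,[(1,1)]) (126,[(4,7506),(3,16819),(1,41)]) (1,[(0,1)])) (.leaf false ⟨⟨-126,57,14⟩,⟨9,-14,138⟩,⟨58,126,9⟩⟩ (417,[(4,24464),(0,536),(1,225)]) (973,[(4,98968),(0,235),(1,1144)]) (1946,[(4,865553),(0,5361),(1,1926)]))) (.node ⟨-54,126,-23⟩ (.leaf false ⟨⟨-54,126,-23⟩,⟨42,41,126⟩,⟨121,42,-54⟩⟩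 (1,[(0,1)]) (126,[(2,16819),(4,7506),(0,41)]) (23,[(2,4050),(4,515),(1,42)])) (.leaf false ⟨⟨41,42,126⟩,⟨42,121,-54⟩,⟨126,-54,-23⟩⟩ (54,[(2,5861),(0,41),(3,7434)]) (9,[(2,396),(1,7),(3,928)]) (447,[(2,73010),(0,323),(1,720)])))) (.node ⟨126,9,58⟩ (.node ⟨-14,126,57⟩ (.leaf false ⟨⟨-14,126,57⟩,⟨9,58,-126⟩,⟨138,9,14⟩⟩ (1,[(0,1)]) (63,[(2,9591),(4,973),(0,29)]) (1,[(2,44),(4,12),(1,1)])) (.leaf false ⟨⟨14,9,-138⟩,⟨57,126,14⟩,⟨126,-58,9⟩⟩ (1,[(2,81),(0,1),(3,135)]) (42,[(2,514),(1,19),(3,5121)]) (1143,[(2,17750),(0,603),(1,1076)]))) (.node ⟨-30,-39,-130⟩ (.leaf false ⟨⟨-39,130,-30⟩,⟨-30,-39,-130⟩,⟨130,30,-39⟩⟩ (29,[(4,759),(3,3905),(1,15)]) (1,[(0,1)]) (10,[(4,1390),(3,417),(0,3)])) (.leaf false ⟨⟨-138,14,9⟩,⟨9,126,-58⟩,⟨14,57,126⟩⟩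 (1092,[(4,12468),(0,731),(1,1469)]) (182,[(4,353970),(0,1305),(1,3107)]) (91,[(4,22052),(0,181),(1,208)]))))) (.node ⟨0,0,1⟩ (.node ⟨126,58,9⟩ (.node ⟨-14,57,126⟩ (.leaf false ⟨⟨-14,9,138⟩,⟨57,-126,14⟩,⟨126,58,9⟩⟩ (21,[(4,28),(3,1122),(0,23)]) (9,[(4,527),(3,1191),(0,1)]) (1,[(1,1)])) (.leaf false ⟨⟨14,-138,9⟩,⟨57,14,126⟩,⟨126,9,-58⟩⟩ (1,[(2,135),(0,1),(3,81)]) (42,[(2,5121),(1,19),(3,514)]) (571,[(2,17750),(1,522),(0,441)]))) (.node ⟨-30,-130,-39⟩ (.leaf false ⟨⟨-39,-30,130⟩,⟨-30,-130,-39⟩,⟨130,-39,30⟩⟩ (29,[(2,3905),(4,759),(1,15)]) (1,[(0,1)]) (10,[(2,417),(4,1390),(0,3)])) (.leaf false ⟨⟨-138,9,14⟩,⟨9,-58,126⟩,⟨14,126,57⟩⟩ (1092,[(4,12468),(1,1469),(0,731)]) (182,[(4,353970),(1,3107),(0,1305)]) (91,[(4,22052),(1,208),(0,181)]))))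 (.node ⟨66,86,-87⟩ (.node ⟨122,-39,54⟩ (.leaf false ⟨⟨9,-102,-94⟩,⟨66,86,-87⟩,⟨122,-39,54⟩⟩ (22,[(2,1807),(1,3),(3,2502)]) (1,[(1,1)]) (1,[(0,1)])) (.leaf false ⟨⟨-94,-87,-54⟩,⟨9,66,-122⟩,⟨102,-86,-39⟩⟩ (1,[(4,28),(3,126),(0,1)]) (27,[(4,7685),(3,597),(0,61)]) (18,[(4,3422),(3,2055),(0,13)]))) (.leaf false ⟨⟨-66,-86,-87⟩,⟨9,-102,94⟩,⟨122,-39,-54⟩⟩ (1,[(1,174),(0,1)]) (43,[(1,395),(3,3753),(0,51)]) (86,[(1,8037),(3,13066),(0,39)]))))) (.node ⟨0,1,0⟩ (.node ⟨0,0,1⟩ (.node ⟨58,9,126⟩ (.node ⟨57,126,-14⟩ (.leaf false ⟨⟨-126,14,57⟩,⟨9,138,-14⟩,⟨58,9,126⟩⟩ (9,[(2,527),(4,1191),(0,1)]) (21,[(2,28),(4,1122),(0,23)]) (1,[(1,1)])) (.leaf false ⟨⟨-138,9,14⟩,⟨9,-58,126⟩,⟨14,126,57⟩⟩ (1,[(4,81),(3,135),(0,1)]) (1143,[(4,17750),(1,1076),(0,603)])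 (42,[(4,514),(3,5121),(1,19)]))) (.node ⟨-130,-39,-30⟩ (.leaf false ⟨⟨-130,-39,-30⟩,⟨-39,30,130⟩,⟨-30,130,-39⟩⟩ (1,[(0,1)]) (10,[(2,1390),(0,3),(3,417)]) (29,[(2,759),(1,15),(3,3905)])) (.leaf false ⟨⟨-138,14,9⟩,⟨9,126,-58⟩,⟨14,57,126⟩⟩ (42,[(2,32910),(1,277),(0,79)]) (364,[(2,579836),(1,5343),(0,2409)]) (91,[(2,75588),(1,572),(0,265)])))) (.node ⟨86,66,-87⟩ (.node ⟨-39,122,54⟩ (.leaf false ⟨⟨-102,9,-94⟩,⟨-39,122,54⟩,⟨86,66,-87⟩⟩ (22,[(2,1807),(4,2502),(1,3)]) (1,[(0,1)]) (1,[(1,1)])) (.leaf false ⟨⟨-122,-39,-54⟩,⟨9,102,-94⟩,⟨66,-86,-87⟩⟩ (1,[(4,161),(3,83),(0,1)]) (87,[(4,7301),(3,2670),(1,94)]) (2363,[(4,15568),(1,995),(0,2204)]))) (.leaf false ⟨⟨-102,9,94⟩,⟨-86,-66,-87⟩,⟨-39,122,-54⟩⟩ (43,[(1,395),(0,51),(2,3753)])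 (1,[(1,174),(0,1)]) (86,[(1,8037),(0,39),(2,13066)])))) (.node ⟨0,0,1⟩ (.node ⟨86,-87,66⟩ (.node ⟨-39,54,122⟩ (.leaf false ⟨⟨-102,-94,9⟩,⟨-39,54,122⟩,⟨86,-87,66⟩⟩ (22,[(4,2502),(3,1807),(1,3)]) (1,[(0,1)]) (1,[(1,1)])) (.leaf false ⟨⟨-122,-54,-39⟩,⟨9,-94,102⟩,⟨66,-87,-86⟩⟩ (1,[(2,83),(4,161),(0,1)]) (87,[(2,2670),(4,7301),(1,94)]) (2363,[(4,15568),(0,2204),(1,995)]))) (.leaf false ⟨⟨-102,94,9⟩,⟨-86,-87,-66⟩,⟨-39,-54,122⟩⟩ (43,[(1,3753),(0,51),(2,395)]) (1,[(0,1),(2,174)]) (86,[(1,13066),(0,39),(2,8037)]))) (.leaf false ⟨⟨-139,0,0⟩,⟨0,-139,0⟩,⟨0,0,-139⟩⟩ (1,[(2,139)]) (1,[(1,139)]) (1,[(0,139)]))))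
theorem h139_ok : h139.check (ok 139 4 ⟨3, 3, 3⟩) (fun _ r => r) [] = true := by decide +kernel

def h143 : T := .node ⟨1,0,0⟩ (.node ⟨0,1,0⟩ (.node ⟨0,0,1⟩ (.node ⟨-82,6,117⟩ (.node ⟨26,138,-27⟩ (.node ⟨117,-6,82⟩ (.leaf false ⟨⟨-78,37,114⟩,⟨26,138,-27⟩,⟨117,-6,82⟩⟩ (39,[(5,74),(4,1215),(2,38)]) (1,[(1,1)]) (1,[(0,1)])) (.leaf false ⟨⟨-138,26,-27⟩,⟨6,117,82⟩,⟨37,78,-114⟩⟩ (3,[(3,985),(5,1107),(0,13)]) (2,[(3,3362),(5,4575),(0,39)]) (1,[(3,952),(5,1558),(0,13)]))) (.leaf false ⟨⟨-82,-27,114⟩,⟨6,138,37⟩,⟨117,-26,78⟩⟩ (9,[(4,250),(3,5001),(0,38)]) (27,[(4,1124),(3,8832),(0,37)]) (9,[(4,1729),(3,3354),(0,26)]))) (.node ⟨78,-26,117⟩ (.node ⟨-26,117,78⟩ (.leaf false ⟨⟨-26,117,78⟩,⟨78,78,-91⟩,⟨117,-26,78⟩⟩ (1,[(0,1)]) (41,[(3,832),(2,39),(4,3432)])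 (96,[(1,103),(2,39),(4,416)])) (.leaf false ⟨⟨26,-78,117⟩,⟨78,-91,-78⟩,⟨117,78,26⟩⟩ (1,[(3,195),(0,1),(4,39)]) (1,[(3,156),(0,3),(4,260)]) (2,[(3,754),(0,9),(4,1209)]))) (.leaf false ⟨⟨-132,44,33⟩,⟨33,132,-44⟩,⟨44,33,132⟩⟩ (13,[(2,3003),(0,22)]) (832,[(2,1260688),(1,5577),(0,5511)]) (832,[(2,501072),(1,1859),(0,1485)])))) (.node ⟨-91,78,-78⟩ (.node ⟨78,-54,-107⟩ (.node ⟨117,62,54⟩ (.leaf false ⟨⟨-26,117,-78⟩,⟨78,-54,-107⟩,⟨117,62,54⟩⟩ (1,[(5,65),(4,39),(2,1)]) (1,[(1,1)]) (1,[(0,1)])) (.leaf false ⟨⟨-118,21,-78⟩,⟨42,-102,-91⟩,⟨69,98,-78⟩⟩ (9,[(5,459),(4,995),(0,13)]) (54,[(5,12915),(4,134),(0,91)]) (9,[(5,2142),(4,1688),(0,13)]))) (.leaf false ⟨⟨-114,82,-27⟩,⟨37,6,-138⟩,⟨78,117,26⟩⟩ (27,[(2,5116),(4,120),(0,41)]) (9,[(2,1349),(4,411),(0,1)])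 (6,[(2,1235),(4,1482),(0,13)]))) (.leaf false ⟨⟨42,134,-27⟩,⟨53,-42,-126⟩,⟨126,-27,62⟩⟩ (13,[(1,819),(0,6),(2,2210)]) (91,[(1,15600),(0,53),(2,312)]) (13,[(1,598),(0,18),(2,1053)])))) (.node ⟨0,0,1⟩ (.node ⟨-91,-78,78⟩ (.node ⟨78,-107,-54⟩ (.node ⟨117,54,62⟩ (.leaf false ⟨⟨-26,-78,117⟩,⟨78,-107,-54⟩,⟨117,54,62⟩⟩ (1,[(3,39),(5,65),(2,1)]) (1,[(1,1)]) (1,[(0,1)])) (.leaf false ⟨⟨-118,-78,21⟩,⟨42,-91,-102⟩,⟨69,-78,98⟩⟩ (9,[(3,995),(5,459),(0,13)]) (54,[(3,134),(5,12915),(0,91)]) (9,[(3,1688),(5,2142),(0,13)]))) (.leaf false ⟨⟨-114,-27,82⟩,⟨37,-138,6⟩,⟨78,26,117⟩⟩ (27,[(4,120),(3,5116),(0,41)]) (9,[(4,411),(3,1349),(0,1)]) (6,[(4,1482),(3,1235),(0,13)]))) (.leaf false ⟨⟨42,-27,134⟩,⟨53,-126,-42⟩,⟨126,62,-27⟩⟩ (13,[(1,2210),(0,6),(2,819)])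 (91,[(1,312),(0,53),(2,15600)]) (13,[(1,1053),(0,18),(2,598)]))) (.node ⟨-55,-132,0⟩ (.leaf false ⟨⟨-55,-132,0⟩,⟨0,0,-143⟩,⟨132,-55,0⟩⟩ (1,[(0,1)]) (1,[(1,143)]) (12,[(3,1859),(0,5)])) (.node ⟨78,-114,37⟩ (.leaf false ⟨⟨26,-27,-138⟩,⟨78,-114,37⟩,⟨117,82,6⟩⟩ (55,[(2,7590),(1,26),(3,4917)]) (1,[(0,1)]) (753,[(2,13871),(1,897),(0,497)])) (.leaf false ⟨⟨-126,-27,-62⟩,⟨42,-134,-27⟩,⟨53,42,-126⟩⟩ (2035,[(1,174),(3,466653),(0,3410)]) (407,[(1,732),(3,185020),(0,297)]) (2035,[(1,11789),(3,2260698),(0,6930)])))))) (.node ⟨0,1,0⟩ (.node ⟨0,0,1⟩ (.node ⟨-27,126,-62⟩ (.node ⟨-134,-42,-27⟩ (.leaf false ⟨⟨-134,-42,-27⟩,⟨-42,53,126⟩,⟨-27,126,-62⟩⟩ (1,[(0,1)]) (67,[(2,9009),(0,21),(3,4433)]) (1,[(1,1)])) (.leaf false ⟨⟨-132,44,33⟩,⟨33,132,-44⟩,⟨44,33,132⟩⟩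 (21,[(2,99),(4,5720),(0,22)]) (21,[(2,11),(1,19),(0,9)]) (14,[(2,1551),(4,858),(0,11)]))) (.leaf false ⟨⟨-138,37,6⟩,⟨-27,-114,82⟩,⟨26,78,117⟩⟩ (31,[(3,4359),(2,1525),(0,3)]) (31,[(3,1944),(2,1632),(0,41)]) (62,[(3,1547),(2,19578),(0,117)]))) (.node ⟨0,-55,-132⟩ (.leaf false ⟨⟨-143,0,0⟩,⟨0,-55,-132⟩,⟨0,132,-55⟩⟩ (1,[(3,143)]) (1,[(0,1)]) (12,[(0,5),(2,1859)])) (.node ⟨37,78,-114⟩ (.leaf false ⟨⟨-138,26,-27⟩,⟨6,117,82⟩,⟨37,78,-114⟩⟩ (55,[(2,4917),(4,7590),(1,26)]) (753,[(4,13871),(1,897),(0,497)]) (1,[(0,1)])) (.leaf false ⟨⟨-134,-42,-27⟩,⟨-42,53,126⟩,⟨-27,126,-62⟩⟩ (2035,[(2,2069661),(0,7370),(1,8898)]) (2035,[(2,698214),(0,2310),(1,5237)]) (2035,[(2,1188836),(0,1485),(1,6768)]))))) (.node ⟨0,0,1⟩ (.node ⟨0,-132,-55⟩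 (.leaf false ⟨⟨-143,0,0⟩,⟨0,-132,-55⟩,⟨0,-55,132⟩⟩ (1,[(3,143)]) (1,[(0,1)]) (12,[(1,1859),(0,5)])) (.node ⟨37,-114,78⟩ (.leaf false ⟨⟨-138,-27,26⟩,⟨6,82,117⟩,⟨37,-114,78⟩⟩ (55,[(1,26),(4,7590),(3,4917)]) (753,[(1,897),(4,13871),(0,497)]) (1,[(0,1)])) (.leaf false ⟨⟨-134,-27,-42⟩,⟨-42,126,53⟩,⟨-27,-62,126⟩⟩ (2035,[(1,8898),(0,7370),(3,2069661)]) (2035,[(1,5237),(0,2310),(3,698214)]) (2035,[(1,6768),(0,1485),(3,1188836)])))) (.leaf false ⟨⟨-143,0,0⟩,⟨0,-143,0⟩,⟨0,0,-143⟩⟩ (1,[(2,143)]) (1,[(1,143)]) (1,[(0,143)]))))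
theorem h143_ok : h143.check (ok 143 4 ⟨3, 3, 3⟩) (fun _ r => r) [] = true := by decide +kernel

def h145 : T := .node ⟨1,0,0⟩ (.node ⟨0,1,0⟩ (.node ⟨0,0,1⟩ (.leaf false ⟨⟨0,0,145⟩,⟨0,145,0⟩,⟨145,0,0⟩⟩ (1,[(0,145)]) (1,[(1,145)]) (1,[(2,145)])) (.node ⟨0,144,17⟩ (.leaf false ⟨⟨0,17,-144⟩,⟨0,144,17⟩,⟨145,0,0⟩⟩ (144,[(1,21025),(0,17)]) (1,[(0,1)]) (1,[(3,145)])) (.leaf false ⟨⟨0,-143,-24⟩,⟨0,24,-143⟩,⟨145,0,0⟩⟩ (17,[(0,24),(2,1025)]) (17,[(0,143),(2,21000)]) (1,[(3,145)])))) (.node ⟨0,0,1⟩ (.node ⟨0,17,144⟩ (.leaf false ⟨⟨0,-144,17⟩,⟨0,17,144⟩,⟨145,0,0⟩⟩ (144,[(0,17),(2,21025)]) (1,[(0,1)]) (1,[(3,145)])) (.leaf false ⟨⟨0,-143,24⟩,⟨0,-24,-143⟩,⟨145,0,0⟩⟩ (17,[(1,21000),(0,143)]) (17,[(1,1025),(0,24)]) (1,[(3,145)]))) (.node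 ⟨0,24,-143⟩ (.leaf false ⟨⟨0,-143,-24⟩,⟨0,24,-143⟩,⟨145,0,0⟩⟩ (143,[(0,24),(2,21025)]) (1,[(0,1)]) (1,[(3,145)])) (.leaf false ⟨⟨0,-143,24⟩,⟨0,-24,-143⟩,⟨145,0,0⟩⟩ (24,[(1,19873),(0,143)]) (1,[(1,286),(0,1)]) (1,[(3,145)]))))) (.node ⟨0,1,0⟩ (.node ⟨0,0,1⟩ (.node ⟨17,0,144⟩ (.leaf false ⟨⟨-144,0,17⟩,⟨0,145,0⟩,⟨17,0,144⟩⟩ (144,[(3,21025),(0,17)]) (1,[(2,145)]) (1,[(0,1)])) (.leaf false ⟨⟨-143,0,24⟩,⟨-24,0,-143⟩,⟨0,145,0⟩⟩ (17,[(1,21000),(0,143)]) (17,[(1,1025),(0,24)]) (1,[(2,145)]))) (.node ⟨24,0,-143⟩ (.leaf false ⟨⟨-143,0,-24⟩,⟨0,145,0⟩,⟨24,0,-143⟩⟩ (143,[(3,21025),(0,24)]) (1,[(2,145)]) (1,[(0,1)])) (.leaf false ⟨⟨-143,0,24⟩,⟨-24,0,-143⟩,⟨0,145,0⟩⟩ (24,[(1,19873),(0,143)]) (1,[(1,286),(0,1)]) (1,[(2,145)])))) (.node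 ⟨0,0,1⟩ (.node ⟨24,-143,0⟩ (.leaf false ⟨⟨-143,-24,0⟩,⟨0,0,145⟩,⟨24,-143,0⟩⟩ (143,[(3,21025),(0,24)]) (1,[(1,145)]) (1,[(0,1)])) (.leaf false ⟨⟨-143,24,0⟩,⟨-24,-143,0⟩,⟨0,0,145⟩⟩ (24,[(0,143),(2,19873)]) (1,[(0,1),(2,286)]) (1,[(1,145)]))) (.node ⟨-48,80,-111⟩ (.node ⟨-136,-15,48⟩ (.leaf false ⟨⟨-136,-15,48⟩,⟨-48,80,-111⟩,⟨-15,-120,-80⟩⟩ (1,[(0,1)]) (1,[(1,1)]) (16,[(2,725),(1,5),(3,2320)])) (.leaf false ⟨⟨-136,-48,-15⟩,⟨-15,80,-120⟩,⟨48,-111,-80⟩⟩ (16,[(4,2856),(3,843),(0,5)]) (145,[(1,136),(4,2175),(0,48)]) (3,[(4,536),(3,408),(0,5)]))) (.leaf false ⟨⟨-136,-15,-48⟩,⟨-15,-120,80⟩,⟨48,-80,-111⟩⟩ (16,[(1,1101),(3,2320),(0,3)]) (2,[(1,173),(3,174),(0,3)]) (1,[(1,222),(0,1)])))))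
theorem h145_ok : h145.check (ok 145 4 ⟨3, 3, 3⟩) (fun _ r => r) [] = true := by decide +kernel

def h149 : T := .node ⟨1,0,0⟩ (.node ⟨0,1,0⟩ (.node ⟨0,0,1⟩ (.leaf false ⟨⟨0,0,149⟩,⟨0,149,0⟩,⟨149,0,0⟩⟩ (1,[(0,149)]) (1,[(1,149)]) (1,[(2,149)])) (.node ⟨-51,0,-140⟩ (.leaf false ⟨⟨-51,0,-140⟩,⟨0,149,0⟩,⟨140,0,-51⟩⟩ (1,[(0,1)]) (1,[(2,149)]) (140,[(3,22201),(0,51)])) (.node ⟨112,-84,-51⟩ (.leaf false ⟨⟨4,84,-123⟩,⟨69,108,76⟩,⟨132,-59,-36⟩⟩ (28,[(2,3393),(0,1),(3,2436)]) (17,[(2,1928),(1,23),(3,1836)]) (4284,[(2,627965),(0,3009),(1,4480)])) (.leaf false ⟨⟨-112,84,-51⟩,⟨21,96,112⟩,⟨96,77,-84⟩⟩ (1,[(2,102),(0,1)]) (357,[(2,126844),(1,1043),(0,408)]) (612,[(2,413779),(1,2384),(0,561)]))))) (.node ⟨0,0,1⟩ (.node ⟨-51,-140,0⟩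 (.leaf false ⟨⟨-51,-140,0⟩,⟨0,0,149⟩,⟨140,-51,0⟩⟩ (1,[(0,1)]) (1,[(1,149)]) (140,[(3,22201),(0,51)])) (.node ⟨112,-51,-84⟩ (.leaf false ⟨⟨4,-123,84⟩,⟨69,76,108⟩,⟨132,-36,-59⟩⟩ (28,[(2,2436),(0,1),(3,3393)]) (17,[(2,1836),(1,23),(3,1928)]) (18281,[(2,627965),(1,2700),(0,20316)])) (.leaf false ⟨⟨-112,-51,84⟩,⟨21,112,96⟩,⟨96,-84,77⟩⟩ (1,[(3,102),(0,1)]) (357,[(1,1043),(3,126844),(0,408)]) (612,[(1,2384),(3,413779),(0,561)])))) (.node ⟨-48,-139,-24⟩ (.node ⟨-48,24,-139⟩ (.leaf false ⟨⟨-48,-139,-24⟩,⟨4,24,-147⟩,⟨141,-48,-4⟩⟩ (1,[(1,1)]) (139,[(4,7612),(3,192),(0,147)]) (6,[(4,894),(3,149),(1,1)])) (.node ⟨-48,-139,24⟩ (.leaf false ⟨⟨-48,-139,24⟩,⟨-4,-24,-147⟩,⟨141,-48,4⟩⟩ (1,[(0,1)]) (139,[(3,21009),(5,596),(0,24)]) (1,[(3,274),(5,45),(1,2)]))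 (.leaf false ⟨⟨-4,-147,24⟩,⟨48,-24,-139⟩,⟨141,4,48⟩⟩ (93888,[(0,136019),(1,78000),(2,221843)]) (24,[(0,139),(1,24),(2,139)]) (125184,[(0,802615),(1,310512),(2,745399)])))) (.leaf false ⟨⟨4,-147,-24⟩,⟨48,24,-139⟩,⟨141,-4,48⟩⟩ (12,[(1,312),(0,1),(2,1903)]) (1,[(1,163),(0,1),(2,115)]) (16,[(1,360),(0,47),(2,6597)]))))) (.node ⟨0,1,0⟩ (.node ⟨0,0,1⟩ (.node ⟨-140,-51,0⟩ (.leaf false ⟨⟨-140,-51,0⟩,⟨-51,140,0⟩,⟨0,0,149⟩⟩ (1,[(0,1)]) (140,[(0,51),(2,22201)]) (1,[(1,149)])) (.node ⟨-51,112,-84⟩ (.leaf false ⟨⟨-144,21,32⟩,⟨13,144,-36⟩,⟨36,32,141⟩⟩ (16,[(2,764),(4,2151),(0,3)]) (119,[(4,27212),(0,51),(1,224)]) (51,[(2,7191),(4,2644),(1,32)])) (.leaf false ⟨⟨-144,13,36⟩,⟨21,144,32⟩,⟨32,-36,141⟩⟩ (357,[(4,118991),(1,427),(0,153)])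 (1071,[(4,547117),(1,3920),(0,408)]) (1428,[(4,672391),(1,4256),(0,2397)])))) (.node ⟨-24,-48,-139⟩ (.node ⟨-139,-48,24⟩ (.leaf false ⟨⟨-147,4,24⟩,⟨-24,-48,-139⟩,⟨-4,141,-48⟩⟩ (139,[(2,192),(0,147),(3,7612)]) (1,[(1,1)]) (6,[(2,149),(1,1),(3,894)])) (.node ⟨24,-48,-139⟩ (.leaf false ⟨⟨-147,-4,-24⟩,⟨4,141,-48⟩,⟨24,-48,-139⟩⟩ (139,[(5,21009),(4,596),(0,24)]) (1,[(5,274),(4,45),(1,2)]) (1,[(0,1)])) (.leaf false ⟨⟨-147,4,-24⟩,⟨-4,141,48⟩,⟨24,48,-139⟩⟩ (93888,[(2,353221),(0,340549),(1,20496)]) (41728,[(2,255421),(0,285757),(1,92240)]) (3912,[(2,18745),(0,15985),(1,6672)])))) (.leaf false ⟨⟨-147,4,-24⟩,⟨-4,141,48⟩,⟨24,48,-139⟩⟩ (12,[(1,427),(3,1788),(0,1)]) (16,[(1,5765),(3,1192),(0,47)]) (1,[(1,278),(0,1)])))) (.node ⟨0,0,1⟩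 (.node ⟨-24,-139,-48⟩ (.node ⟨-139,24,-48⟩ (.leaf false ⟨⟨-147,24,4⟩,⟨-24,-139,-48⟩,⟨-4,-48,141⟩⟩ (139,[(2,7612),(0,147),(3,192)]) (1,[(1,1)]) (6,[(2,894),(1,1),(3,149)])) (.node ⟨24,-139,-48⟩ (.leaf false ⟨⟨-147,-24,-4⟩,⟨4,-48,141⟩,⟨24,-139,-48⟩⟩ (139,[(3,596),(5,21009),(0,24)]) (1,[(3,45),(5,274),(1,2)]) (1,[(0,1)])) (.leaf false ⟨⟨-147,-24,4⟩,⟨-4,48,141⟩,⟨24,-139,48⟩⟩ (93888,[(2,353221),(1,20496),(0,340549)]) (41728,[(2,255421),(1,92240),(0,285757)]) (3912,[(2,18745),(1,6672),(0,15985)])))) (.leaf false ⟨⟨-147,-24,4⟩,⟨-4,48,141⟩,⟨24,-139,48⟩⟩ (12,[(3,1788),(2,427),(0,1)]) (16,[(3,1192),(2,5765),(0,47)]) (1,[(2,278),(0,1)]))) (.node ⟨-59,84,-108⟩ (.node ⟨-132,-4,69⟩ (.leaf false ⟨⟨-132,-4,69⟩,⟨-59,84,-108⟩,⟨-36,-123,-76⟩⟩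 (1,[(0,1)]) (1,[(1,1)]) (11,[(2,1043),(0,3),(3,1341)])) (.leaf false ⟨⟨-123,-76,-36⟩,⟨-4,69,-132⟩,⟨84,-108,-59⟩⟩ (3,[(1,1),(4,310),(3,312)]) (1788,[(1,1411),(4,83887),(0,1212)]) (69,[(4,1992),(3,7688),(0,59)]))) (.leaf false ⟨⟨-132,-59,36⟩,⟨4,-84,-123⟩,⟨69,-108,76⟩⟩ (84,[(1,3348),(3,14569),(0,59)]) (1,[(1,231),(3,55),(0,1)]) (7,[(1,440),(3,48),(0,9)])))))
theorem h149_ok : h149.check (ok 149 4 ⟨3, 3, 3⟩) (fun _ r => r) [] = true := by decide +kernel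

def h151 : T := .node ⟨1,0,0⟩ (.node ⟨0,1,0⟩ (.node ⟨0,0,1⟩ (.node ⟨-99,42,106⟩ (.node ⟨2,141,-54⟩ (.leaf false ⟨⟨-99,42,106⟩,⟨2,141,-54⟩,⟨114,34,93⟩⟩ (1,[(1,1)]) (1,[(0,1)]) (21,[(2,151),(4,4077),(1,17)])) (.leaf false ⟨⟨-83,54,114⟩,⟨-6,-138,61⟩,⟨126,29,78⟩⟩ (53,[(4,1244),(3,468),(1,57)]) (5738,[(4,14949),(1,383),(0,5730)]) (9,[(4,1160),(3,2094),(0,13)]))) (.leaf false ⟨⟨54,141,-2⟩,⟨93,-34,114⟩,⟨106,-42,-99⟩⟩ (11,[(1,614),(0,6),(2,1803)]) (33,[(1,7048),(0,31),(2,180)]) (99,[(1,1435),(0,106),(2,294)]))) (.node ⟨-78,61,-114⟩ (.node ⟨29,138,54⟩ (.leaf false ⟨⟨-78,61,-114⟩,⟨29,138,54⟩,⟨126,6,-83⟩⟩ (1,[(1,1)]) (1,[(0,1)]) (23,[(2,1963),(4,2869),(0,1)])) (.leaf false ⟨⟨-78,29,-126⟩,⟨61,138,-6⟩,⟨114,-54,-83⟩⟩ (3171,[(4,20234),(1,3159),(0,730)])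 (9,[(4,578),(3,1380),(0,1)]) (54,[(4,8563),(3,8538),(0,83)]))) (.leaf false ⟨⟨29,54,-138⟩,⟨78,114,61⟩,⟨126,-83,-6⟩⟩ (78,[(1,14070),(0,29),(2,5981)]) (1,[(1,53),(0,1),(2,175)]) (13,[(1,2472),(0,21),(2,202)])))) (.node ⟨0,0,1⟩ (.node ⟨-78,-114,61⟩ (.node ⟨29,54,138⟩ (.leaf false ⟨⟨-78,-114,61⟩,⟨29,54,138⟩,⟨126,-83,6⟩⟩ (1,[(1,1)]) (1,[(0,1)]) (23,[(4,2869),(3,1963),(0,1)])) (.leaf false ⟨⟨-78,-126,29⟩,⟨61,-6,138⟩,⟨114,-83,-54⟩⟩ (151,[(2,20234),(0,156),(1,93)]) (9,[(2,1380),(4,578),(0,1)]) (54,[(2,8538),(4,8563),(0,83)]))) (.leaf false ⟨⟨29,-138,54⟩,⟨78,61,114⟩,⟨126,-6,-83⟩⟩ (78,[(1,5981),(0,29),(2,14070)]) (1,[(1,175),(0,1),(2,53)]) (13,[(1,202),(0,21),(2,2472)]))) (.node ⟨-51,-138,-34⟩ (.node ⟨-51,-6,-142⟩ (.node ⟨6,-147,34⟩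 (.leaf false ⟨⟨-51,-34,-138⟩,⟨6,-147,34⟩,⟨142,-6,-51⟩⟩ (33,[(3,624),(2,7),(1,26)]) (1,[(0,1)]) (23,[(3,1139),(5,3317),(2,1)])) (.leaf false ⟨⟨-54,93,-106⟩,⟨-2,-114,-99⟩,⟨141,34,-42⟩⟩ (323,[(5,7230),(2,414),(0,593)]) (34,[(5,526),(4,18429),(0,99)]) (17,[(5,2523),(4,2509),(0,21)]))) (.node ⟨138,29,-54⟩ (.leaf false ⟨⟨-6,-126,-83⟩,⟨61,-78,114⟩,⟨138,29,-54⟩⟩ (374,[(3,63134),(1,311),(2,355)]) (561,[(3,70424),(1,1033),(2,362)]) (1,[(0,1)])) (.leaf false ⟨⟨-147,-34,-6⟩,⟨6,-51,142⟩,⟨34,-138,-51⟩⟩ (217,[(3,36944),(1,143),(0,284)]) (217,[(3,358020),(1,2404),(0,879)]) (651,[(3,3268529),(1,20030),(0,7242)])))) (.leaf false ⟨⟨2,-114,-99⟩,⟨54,93,-106⟩,⟨141,-34,42⟩⟩ (51,[(1,5117),(0,2),(2,6090)]) (17,[(1,2414),(0,18),(2,903)]) (17,[(1,884),(0,47),(2,7064)])))))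 (.node ⟨0,1,0⟩ (.node ⟨0,0,1⟩ (.node ⟨-114,-78,61⟩ (.node ⟨54,29,138⟩ (.leaf false ⟨⟨-114,-78,61⟩,⟨-83,126,6⟩,⟨54,29,138⟩⟩ (1,[(1,1)]) (23,[(4,1963),(3,2869),(0,1)]) (1,[(0,1)])) (.leaf false ⟨⟨-126,-78,29⟩,⟨-83,114,-54⟩,⟨-6,61,138⟩⟩ (151,[(2,20234),(1,93),(0,156)]) (54,[(2,8538),(0,83),(3,8563)]) (9,[(2,1380),(0,1),(3,578)]))) (.leaf false ⟨⟨-138,29,54⟩,⟨-6,126,-83⟩,⟨61,78,114⟩⟩ (78,[(1,5981),(3,14070),(0,29)]) (13,[(1,202),(3,2472),(0,21)]) (1,[(1,175),(3,53),(0,1)]))) (.node ⟨-34,-51,-138⟩ (.node ⟨-142,-51,-6⟩ (.node ⟨34,6,-147⟩ (.leaf false ⟨⟨-138,-51,-34⟩,⟨-51,142,-6⟩,⟨34,6,-147⟩⟩ (33,[(2,7),(1,26),(5,624)]) (23,[(2,1),(5,1139),(4,3317)]) (1,[(0,1)])) (.leaf false ⟨⟨-147,6,34⟩,⟨-34,-51,-138⟩,⟨-6,142,-51⟩⟩ (34,[(3,20453),(0,147),(4,1086)])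 (1,[(2,1)]) (17,[(3,1308),(0,3),(4,2432)]))) (.node ⟨-54,138,29⟩ (.leaf false ⟨⟨-83,-6,-126⟩,⟨-54,138,29⟩,⟨114,61,-78⟩⟩ (374,[(2,355),(5,63134),(1,311)]) (1,[(0,1)]) (561,[(2,362),(5,70424),(1,1033)])) (.leaf false ⟨⟨-147,-6,-34⟩,⟨6,142,-51⟩,⟨34,-51,-138⟩⟩ (217,[(5,276315),(1,1506),(0,566)]) (651,[(5,1766708),(1,11156),(0,3453)]) (217,[(5,945208),(1,5855),(0,2244)])))) (.leaf false ⟨⟨-138,61,-6⟩,⟨29,78,126⟩,⟨54,114,-83⟩⟩ (51,[(1,8724),(3,9112),(0,61)]) (17,[(1,1446),(3,391),(0,26)]) (17,[(1,6655),(3,374),(0,38)])))) (.node ⟨0,0,1⟩ (.node ⟨-34,-138,-51⟩ (.node ⟨-142,-6,-51⟩ (.node ⟨34,-147,6⟩ (.leaf false ⟨⟨-138,-34,-51⟩,⟨-51,-6,142⟩,⟨34,-147,6⟩⟩ (33,[(5,624),(1,26),(2,7)]) (23,[(3,3317),(5,1139),(2,1)]) (1,[(0,1)]))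 (.leaf false ⟨⟨-147,34,6⟩,⟨-34,-138,-51⟩,⟨-6,-51,142⟩⟩ (34,[(3,1086),(0,147),(4,20453)]) (1,[(2,1)]) (17,[(3,2432),(0,3),(4,1308)]))) (.node ⟨-54,29,138⟩ (.leaf false ⟨⟨-83,-126,-6⟩,⟨-54,29,138⟩,⟨114,-78,61⟩⟩ (374,[(5,63134),(2,355),(1,311)]) (1,[(0,1)]) (561,[(5,70424),(2,362),(1,1033)])) (.leaf false ⟨⟨-147,-34,-6⟩,⟨6,-51,142⟩,⟨34,-138,-51⟩⟩ (217,[(5,276315),(0,566),(1,1506)]) (651,[(5,1766708),(0,3453),(1,11156)]) (217,[(5,945208),(0,2244),(1,5855)])))) (.leaf false ⟨⟨-138,-6,61⟩,⟨29,126,78⟩,⟨54,-83,114⟩⟩ (51,[(3,9112),(2,8724),(0,61)]) (17,[(3,391),(2,1446),(0,26)]) (17,[(3,374),(2,6655),(0,38)]))) (.leaf false ⟨⟨-151,0,0⟩,⟨0,-151,0⟩,⟨0,0,-151⟩⟩ (1,[(2,151)]) (1,[(1,151)]) (1,[(0,151)]))))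
theorem h151_ok : h151.check (ok 151 4 ⟨3, 3, 3⟩) (fun _ r => r) [] = true := by decide +kernel

def h155 : T := .node ⟨1,0,0⟩ (.node ⟨0,1,0⟩ (.node ⟨0,0,1⟩ (.node ⟨-90,-7,126⟩ (.node ⟨105,-90,70⟩ (.leaf false ⟨⟨-90,-7,126⟩,⟨70,126,57⟩,⟨105,-90,70⟩⟩ (1,[(1,1)]) (42,[(4,4650),(3,5425),(1,19)]) (1,[(0,1)])) (.leaf false ⟨⟨-114,25,102⟩,⟨-2,150,-39⟩,⟨105,30,110⟩⟩ (5425,[(4,76260),(0,1932),(1,5465)]) (10850,[(4,2563235),(0,18627),(1,6990)]) (217,[(4,53940),(0,91),(1,240)]))) (.node ⟨-39,150,-2⟩ (.leaf false ⟨⟨-39,150,-2⟩,⟨102,25,-114⟩,⟨110,30,105⟩⟩ (1,[(0,1)]) (4591,[(2,161200),(1,5425),(0,512)]) (5,[(2,527),(4,589),(0,1)])) (.leaf false ⟨⟨25,-30,150⟩,⟨102,-110,-39⟩,⟨114,105,2⟩⟩ (39,[(2,5800),(0,25),(3,2580)]) (4591,[(2,276295),(0,3538),(1,3670)])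 (15,[(2,2424),(1,19),(3,1442)])))) (.node ⟨-30,150,25⟩ (.node ⟨150,25,30⟩ (.leaf false ⟨⟨-30,150,25⟩,⟨25,30,-150⟩,⟨150,25,30⟩⟩ (1,[(1,1)]) (5,[(2,775),(4,155),(1,1)]) (1,[(0,1)])) (.leaf false ⟨⟨-150,9,-38⟩,⟨25,138,-66⟩,⟨30,-70,-135⟩⟩ (775,[(4,68820),(1,244),(0,1185)]) (775,[(4,454615),(1,1158),(0,2670)]) (155,[(4,117180),(1,51),(0,740)]))) (.node ⟨93,-124,0⟩ (.leaf false ⟨⟨0,0,-155⟩,⟨93,-124,0⟩,⟨124,93,0⟩⟩ (1,[(2,155)]) (1,[(0,1)]) (3,[(0,4),(3,775)])) (.leaf false ⟨⟨-138,9,-70⟩,⟨25,150,-30⟩,⟨66,-38,-135⟩⟩ (620,[(1,1736),(4,61845),(0,2145)]) (310,[(1,372),(4,73315),(0,825)]) (155,[(1,837),(4,74865),(0,965)]))))) (.node ⟨0,0,1⟩ (.node ⟨-30,25,150⟩ (.node ⟨150,30,25⟩ (.leaf false ⟨⟨-30,25,150⟩,⟨25,-150,30⟩,⟨150,30,25⟩⟩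 (1,[(1,1)]) (5,[(4,155),(3,775),(1,1)]) (1,[(0,1)])) (.leaf false ⟨⟨-150,-38,9⟩,⟨25,-66,138⟩,⟨30,-135,-70⟩⟩ (775,[(4,68820),(0,1185),(1,244)]) (775,[(4,454615),(0,2670),(1,1158)]) (155,[(4,117180),(0,740),(1,51)]))) (.node ⟨93,0,-124⟩ (.leaf false ⟨⟨0,-155,0⟩,⟨93,0,-124⟩,⟨124,0,93⟩⟩ (1,[(3,155)]) (1,[(0,1)]) (3,[(2,775),(0,4)])) (.leaf false ⟨⟨-138,-70,9⟩,⟨25,-30,150⟩,⟨66,-135,-38⟩⟩ (620,[(4,61845),(1,1736),(0,2145)]) (310,[(4,73315),(1,372),(0,825)]) (155,[(4,74865),(1,837),(0,965)])))) (.node ⟨124,0,93⟩ (.leaf false ⟨⟨0,-155,0⟩,⟨93,0,-124⟩,⟨124,0,93⟩⟩ (1,[(2,155)]) (4,[(1,775),(0,3)]) (1,[(0,1)])) (.node ⟨-70,30,-135⟩ (.node ⟨138,25,-66⟩ (.leaf false ⟨⟨-70,30,-135⟩,⟨9,-150,-38⟩,⟨138,25,-66⟩⟩ (1,[(1,1)]) (30,[(4,4805),(1,6),(0,5)])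 (1,[(0,1)])) (.leaf false ⟨⟨-151,-30,-18⟩,⟨18,-135,74⟩,⟨30,-70,-135⟩⟩ (31,[(5,13175),(0,102),(1,54)]) (279,[(5,545600),(0,3201),(1,1412)]) (93,[(5,164300),(0,900),(1,533)]))) (.leaf false ⟨⟨-135,-74,-18⟩,⟨30,-18,-151⟩,⟨70,-135,30⟩⟩ (465,[(4,74555),(0,1147),(1,1755)]) (465,[(4,138260),(0,279),(1,1160)]) (62,[(4,32550),(0,279),(1,385)])))))) (.node ⟨0,1,0⟩ (.node ⟨0,0,1⟩ (.node ⟨25,-30,150⟩ (.node ⟨30,150,25⟩ (.leaf false ⟨⟨-150,25,30⟩,⟨25,-30,150⟩,⟨30,150,25⟩⟩ (5,[(4,775),(3,155),(1,1)]) (1,[(1,1)]) (1,[(0,1)])) (.leaf false ⟨⟨-150,25,-30⟩,⟨-39,-102,110⟩,⟨-2,114,105⟩⟩ (155,[(3,137795),(1,114),(0,870)]) (155,[(3,40920),(1,171),(0,344)]) (155,[(3,39060),(1,128),(0,117)]))) (.node ⟨0,93,-124⟩ (.leaf false ⟨⟨-155,0,0⟩,⟨0,93,-124⟩,⟨0,124,93⟩⟩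 (1,[(4,155)]) (1,[(0,1)]) (3,[(2,775),(0,4)])) (.leaf false ⟨⟨-150,-30,25⟩,⟨-39,110,-102⟩,⟨-2,105,114⟩⟩ (124,[(0,925),(1,744),(3,59985)]) (775,[(0,825),(1,1209),(3,125705)]) (1550,[(0,1575),(1,124),(3,305505)])))) (.node ⟨0,124,93⟩ (.leaf false ⟨⟨-155,0,0⟩,⟨0,93,-124⟩,⟨0,124,93⟩⟩ (1,[(3,155)]) (4,[(1,775),(0,3)]) (1,[(0,1)])) (.node ⟨30,-70,-135⟩ (.node ⟨25,138,-66⟩ (.leaf false ⟨⟨-150,9,-38⟩,⟨25,138,-66⟩,⟨30,-70,-135⟩⟩ (30,[(5,4805),(0,5),(1,6)]) (1,[(0,1)]) (1,[(1,1)])) (.leaf false ⟨⟨-151,18,-30⟩,⟨-30,-135,70⟩,⟨18,-74,-135⟩⟩ (465,[(4,1237520),(1,3572),(0,7095)]) (279,[(4,19375),(1,46),(0,390)]) (155,[(4,30380),(1,243),(0,180)]))) (.leaf false ⟨⟨-151,18,30⟩,⟨-30,-135,-70⟩,⟨-18,74,-135⟩⟩ (930,[(1,6495),(0,4681),(3,494450)])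 (93,[(1,205),(0,93),(3,6355)]) (155,[(1,360),(0,93),(3,49600)]))))) (.node ⟨0,0,1⟩ (.node ⟨0,93,124⟩ (.leaf false ⟨⟨-155,0,0⟩,⟨0,-124,93⟩,⟨0,93,124⟩⟩ (1,[(3,155)]) (4,[(0,3),(2,775)]) (1,[(0,1)])) (.node ⟨30,-135,-70⟩ (.node ⟨25,-66,138⟩ (.leaf false ⟨⟨-150,-38,9⟩,⟨25,-66,138⟩,⟨30,-135,-70⟩⟩ (30,[(5,4805),(1,6),(0,5)]) (1,[(0,1)]) (1,[(1,1)])) (.leaf false ⟨⟨-151,-30,18⟩,⟨-30,70,-135⟩,⟨18,-135,-74⟩⟩ (465,[(3,1237520),(0,7095),(1,3572)]) (279,[(3,19375),(0,390),(1,46)]) (155,[(3,30380),(0,180),(1,243)]))) (.leaf false ⟨⟨-151,30,18⟩,⟨-30,-70,-135⟩,⟨-18,-135,74⟩⟩ (930,[(2,494450),(0,4681),(1,6495)]) (93,[(2,6355),(0,93),(1,205)]) (155,[(2,49600),(0,93),(1,360)])))) (.leaf false ⟨⟨-155,0,0⟩,⟨0,-155,0⟩,⟨0,0,-155⟩⟩ (1,[(2,155)])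 (1,[(1,155)]) (1,[(0,155)]))))
theorem h155_ok : h155.check (ok 155 4 ⟨3, 3, 3⟩) (fun _ r => r) [] = true := by decide +kernel

def h161 : T := .node ⟨1,0,0⟩ (.node ⟨0,1,0⟩ (.node ⟨0,0,1⟩ (.leaf false ⟨⟨0,0,161⟩,⟨0,161,0⟩,⟨161,0,0⟩⟩ (1,[(0,161)]) (1,[(1,161)]) (1,[(2,161)])) (.node ⟨-72,144,1⟩ (.node ⟨129,64,72⟩ (.leaf false ⟨⟨-72,144,1⟩,⟨64,33,-144⟩,⟨129,64,72⟩⟩ (1,[(1,1)]) (48,[(2,6923),(4,3864),(1,11)]) (1,[(0,1)])) (.leaf false ⟨⟨-135,36,-80⟩,⟨60,145,-36⟩,⟨64,-60,-135⟩⟩ (2576,[(4,163737),(1,1928),(0,2889)]) (10304,[(4,2223249),(1,12744),(0,5329)]) (2576,[(4,867629),(1,1080),(0,4845)]))) (.node ⟨-60,64,-135⟩ (.node ⟨36,-135,-80⟩ (.leaf false ⟨⟨-60,64,-135⟩,⟨36,-135,-80⟩,⟨145,60,-36⟩⟩ (1,[(1,1)]) (1,[(0,1)]) (15,[(5,2415),(4,644),(1,4)]))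 (.leaf false ⟨⟨-64,129,-72⟩,⟨33,-64,-144⟩,⟨144,72,1⟩⟩ (73899,[(2,42343),(0,75917),(1,84087)]) (10948,[(2,36547),(0,22160),(1,24539)]) (2737,[(2,37513),(0,32488),(1,18954)]))) (.leaf false ⟨⟨21,154,-42⟩,⟨98,21,126⟩,⟨126,-42,-91⟩⟩ (20,[(2,1785),(0,7),(3,3528)]) (30,[(2,2835),(0,49),(3,3766)]) (4,[(2,357),(1,7),(3,840)]))))) (.node ⟨0,0,1⟩ (.node ⟨-72,1,144⟩ (.node ⟨129,72,64⟩ (.leaf false ⟨⟨-72,1,144⟩,⟨64,-144,33⟩,⟨129,72,64⟩⟩ (1,[(1,1)]) (48,[(4,3864),(3,6923),(1,11)]) (1,[(0,1)])) (.leaf false ⟨⟨-135,-80,36⟩,⟨60,-36,145⟩,⟨64,-135,-60⟩⟩ (2576,[(4,163737),(0,2889),(1,1928)]) (10304,[(4,2223249),(0,5329),(1,12744)]) (2576,[(4,867629),(0,4845),(1,1080)]))) (.node ⟨-60,-135,64⟩ (.node ⟨36,-80,-135⟩ (.leaf false ⟨⟨-60,-135,64⟩,⟨36,-80,-135⟩,⟨145,-36,60⟩⟩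 (1,[(1,1)]) (1,[(0,1)]) (15,[(3,644),(5,2415),(1,4)])) (.leaf false ⟨⟨-64,-72,129⟩,⟨33,-144,-64⟩,⟨144,1,72⟩⟩ (73899,[(2,42343),(1,84087),(0,75917)]) (10948,[(2,36547),(1,24539),(0,22160)]) (2737,[(2,37513),(1,18954),(0,32488)]))) (.leaf false ⟨⟨21,-42,154⟩,⟨98,126,21⟩,⟨126,-91,-42⟩⟩ (20,[(2,3528),(0,7),(3,1785)]) (30,[(2,3766),(0,49),(3,2835)]) (4,[(2,840),(1,7),(3,357)])))) (.node ⟨-39,-156,-8⟩ (.node ⟨17,36,-156⟩ (.node ⟨156,-39,8⟩ (.leaf false ⟨⟨-36,-152,-39⟩,⟨17,36,-156⟩,⟨156,-39,8⟩⟩ (13,[(3,411),(4,104),(2,12)]) (1,[(1,1)]) (1,[(0,1)])) (.leaf false ⟨⟨-159,-8,-24⟩,⟨8,129,-96⟩,⟨24,-96,-127⟩⟩ (1,[(5,309),(4,125),(0,3)]) (1,[(5,1880),(4,339),(0,12)]) (8,[(5,20004),(4,5721),(0,127)]))) (.leaf false ⟨⟨-60,-135,64⟩,⟨36,-80,-135⟩,⟨145,-36,60⟩⟩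 (4,[(2,2084),(4,15),(0,15)]) (9,[(2,4335),(4,664),(0,20)]) (1,[(2,96),(4,162),(0,1)]))) (.node ⟨138,46,69⟩ (.leaf false ⟨⟨1,-72,-144⟩,⟨72,129,-64⟩,⟨144,-64,33⟩⟩ (39,[(2,5624),(1,1),(3,2964)]) (13,[(2,1024),(1,24),(3,2067)]) (23,[(2,897),(0,24),(3,2576)])) (.leaf false ⟨⟨-135,36,-80⟩,⟨60,145,-36⟩,⟨64,-60,-135⟩⟩ (529,[(1,575),(3,39376),(0,680)]) (529,[(1,3036),(3,368023),(0,628)]) (1587,[(1,23046),(3,3424654),(0,5777)])))))) (.node ⟨0,1,0⟩ (.node ⟨0,0,1⟩ (.node ⟨1,144,-72⟩ (.node ⟨72,64,129⟩ (.leaf false ⟨⟨-144,33,64⟩,⟨1,144,-72⟩,⟨72,64,129⟩⟩ (48,[(2,3864),(4,6923),(1,11)]) (1,[(1,1)]) (1,[(0,1)])) (.leaf false ⟨⟨-144,33,-64⟩,⟨-72,-64,129⟩,⟨1,144,72⟩⟩ (64,[(2,17729),(0,129),(1,72)]) (1,[(2,258),(0,1)]) (1,[(2,144),(1,1)])))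 (.node ⟨-135,64,-60⟩ (.node ⟨-80,-135,36⟩ (.leaf false ⟨⟨-135,64,-60⟩,⟨-80,-135,36⟩,⟨-36,60,145⟩⟩ (1,[(1,1)]) (1,[(0,1)]) (15,[(3,2415),(1,4),(4,644)])) (.leaf false ⟨⟨-159,-24,8⟩,⟨-8,96,129⟩,⟨24,-127,96⟩⟩ (73899,[(2,219121),(1,168732),(0,140600)]) (98532,[(2,1328411),(1,684819),(0,1162384)]) (8211,[(2,24311),(1,7143),(0,14821)]))) (.leaf false ⟨⟨-144,1,72⟩,⟨33,144,64⟩,⟨64,-72,129⟩⟩ (1,[(1,1),(4,143),(3,145)]) (15,[(4,1665),(3,3184),(0,16)]) (20,[(4,4525),(3,1312),(0,43)])))) (.node ⟨-156,-39,-8⟩ (.node ⟨36,17,-156⟩ (.node ⟨-39,156,8⟩ (.leaf false ⟨⟨-152,-36,-39⟩,⟨-39,156,8⟩,⟨36,17,-156⟩⟩ (13,[(3,411),(2,12),(5,104)]) (1,[(0,1)]) (1,[(1,1)])) (.leaf false ⟨⟨-159,-8,-24⟩,⟨8,129,-96⟩,⟨24,-96,-127⟩⟩ (1,[(5,276),(4,460),(0,3)])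 (1,[(5,460),(4,2001),(0,12)]) (8,[(5,4761),(4,19044),(0,127)]))) (.leaf false ⟨⟨-152,-39,36⟩,⟨-39,8,-156⟩,⟨-36,156,17⟩⟩ (9,[(2,5604),(0,38),(3,295)]) (12,[(2,3900),(0,13),(3,317)]) (1,[(2,139),(0,1),(3,173)]))) (.node ⟨46,138,69⟩ (.leaf false ⟨⟨-138,69,-46⟩,⟨46,138,69⟩,⟨69,46,-138⟩⟩ (2,[(2,161),(4,322),(0,1)]) (1,[(0,1)]) (39,[(2,5750),(4,4485),(1,46)])) (.leaf false ⟨⟨-159,-8,-24⟩,⟨8,129,-96⟩,⟨24,-96,-127⟩⟩ (1587,[(4,642781),(1,2760),(0,872)]) (529,[(4,1074284),(1,7383),(0,1592)]) (529,[(4,490038),(1,3634),(0,1395)]))))) (.node ⟨0,0,1⟩ (.node ⟨-156,-8,-39⟩ (.node ⟨36,-156,17⟩ (.node ⟨-39,8,156⟩ (.leaf false ⟨⟨-152,-39,-36⟩,⟨-39,8,156⟩,⟨36,-156,17⟩⟩ (13,[(5,104),(2,12),(4,411)]) (1,[(0,1)]) (1,[(1,1)])) (.leaf false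 ⟨⟨-159,-24,-8⟩,⟨8,-96,129⟩,⟨24,-127,-96⟩⟩ (1,[(3,460),(5,276),(0,3)]) (1,[(3,2001),(5,460),(0,12)]) (8,[(3,19044),(5,4761),(0,127)]))) (.leaf false ⟨⟨-152,36,-39⟩,⟨-39,-156,8⟩,⟨-36,17,156⟩⟩ (9,[(2,295),(0,38),(3,5604)]) (12,[(2,317),(0,13),(3,3900)]) (1,[(2,173),(0,1),(3,139)]))) (.node ⟨46,69,138⟩ (.leaf false ⟨⟨-138,-46,69⟩,⟨46,69,138⟩,⟨69,-138,46⟩⟩ (2,[(4,322),(3,161),(0,1)]) (1,[(0,1)]) (39,[(4,4485),(3,5750),(1,46)])) (.leaf false ⟨⟨-159,-24,-8⟩,⟨8,-96,129⟩,⟨24,-127,-96⟩⟩ (1587,[(4,642781),(0,872),(1,2760)]) (529,[(4,1074284),(0,1592),(1,7383)]) (529,[(4,490038),(0,1395),(1,3634)])))) (.node ⟨-71,108,-96⟩ (.node ⟨-144,-44,57⟩ (.leaf false ⟨⟨-144,-44,57⟩,⟨-71,108,-96⟩,⟨-12,-111,-116⟩⟩ (1,[(0,1)]) (1,[(1,1)]) (12,[(2,1449),(0,1),(3,1288)]))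 (.leaf false ⟨⟨-144,-71,-12⟩,⟨-44,108,-111⟩,⟨57,-96,-116⟩⟩ (8,[(1,1),(4,1081),(3,676)]) (259,[(1,268),(3,3304),(0,53)]) (57,[(4,13455),(3,10576),(0,116)]))) (.node ⟨-44,-111,108⟩ (.leaf false ⟨⟨-144,-12,-71⟩,⟨-44,-111,108⟩,⟨57,-116,-96⟩⟩ (9,[(2,735),(4,1367),(1,1)]) (1,[(0,1)]) (27,[(2,5376),(4,520),(1,29)])) (.leaf false ⟨⟨-144,-71,-12⟩,⟨-44,108,-111⟩,⟨57,-96,-116⟩⟩ (42,[(4,47545),(1,375),(0,338)]) (112,[(4,18031),(1,73),(0,180)]) (84,[(4,212467),(1,1937),(0,1812)]))))))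
theorem h161_ok : h161.check (ok 161 4 ⟨3, 3, 3⟩) (fun _ r => r) [] = true := by decide +kernel

def h163 : T := .node ⟨1,0,0⟩ (.node ⟨0,1,0⟩ (.node ⟨0,0,1⟩ (.node ⟨-18,1,162⟩ (.node ⟨1,162,-18⟩ (.node ⟨-18,18,161⟩ (.leaf false ⟨⟨-18,18,161⟩,⟨1,162,-18⟩,⟨162,1,18⟩⟩ (1,[(0,1)]) (1,[(1,1)]) (18,[(3,163),(5,2934),(0,1)])) (.leaf false ⟨⟨-18,1,162⟩,⟨18,162,1⟩,⟨161,-18,18⟩⟩ (1,[(2,1)]) (1,[(1,324),(2,3096),(0,3079)]) (1,[(1,2753),(2,26388),(0,26244)]))) (.leaf false ⟨⟨-18,1,162⟩,⟨18,162,1⟩,⟨161,-18,18⟩⟩ (1,[(1,1)]) (18,[(4,325),(3,3078),(0,1)]) (1,[(4,162),(3,144),(0,1)]))) (.node ⟨129,-98,-18⟩ (.leaf false ⟨⟨1,18,162⟩,⟨18,161,-18⟩,⟨162,-18,1⟩⟩ (18,[(2,3078),(1,1),(3,325)]) (1,[(2,144),(1,1),(3,162)]) (43,[(2,1015),(0,54),(3,4518)]))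 (.leaf false ⟨⟨-127,102,6⟩,⟨6,17,-162⟩,⟨102,126,17⟩⟩ (1635,[(2,94392),(1,712),(0,1709)]) (545,[(2,60012),(1,927),(0,104)]) (109,[(2,282509),(1,1750),(0,158)])))) (.node ⟨-63,150,-10⟩ (.node ⟨-63,-10,-150⟩ (.node ⟨150,-15,-62⟩ (.leaf false ⟨⟨-63,-10,-150⟩,⟨10,162,-15⟩,⟨150,-15,-62⟩⟩ (1,[(1,1)]) (10,[(5,163),(4,1630),(1,1)]) (1,[(0,1)])) (.leaf false ⟨⟨-162,17,6⟩,⟨6,102,-127⟩,⟨17,126,102⟩⟩ (815,[(5,85086),(0,1245),(1,482)]) (1630,[(5,3013707),(0,16570),(1,8229)]) (815,[(5,1552738),(0,8940),(1,3141)]))) (.leaf false ⟨⟨-42,154,33⟩,⟨33,42,-154⟩,⟨154,33,42⟩⟩ (240,[(2,1820),(0,81),(1,241)]) (25,[(2,3780),(4,1266),(1,7)]) (2260,[(4,334810),(0,663),(1,453)]))) (.leaf false ⟨⟨17,6,-162⟩,⟨102,-127,6⟩,⟨126,102,17⟩⟩ (63,[(1,10376),(0,17),(2,2928)])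 (21,[(1,214),(0,34),(2,2433)]) (1,[(1,3),(0,2),(2,402)])))) (.node ⟨0,0,1⟩ (.node ⟨-63,-10,150⟩ (.node ⟨-63,-150,-10⟩ (.node ⟨150,-62,-15⟩ (.leaf false ⟨⟨-63,-150,-10⟩,⟨10,-15,162⟩,⟨150,-62,-15⟩⟩ (1,[(1,1)]) (10,[(3,1630),(5,163),(1,1)]) (1,[(0,1)])) (.leaf false ⟨⟨-162,1,18⟩,⟨1,-162,18⟩,⟨18,18,161⟩⟩ (1630,[(5,208803),(1,1101),(0,2690)]) (815,[(5,436514),(1,1773),(0,2160)]) (815,[(5,2118348),(1,4856),(0,11985)]))) (.leaf false ⟨⟨-42,33,154⟩,⟨33,-154,42⟩,⟨154,42,33⟩⟩ (240,[(3,1820),(1,241),(0,81)]) (25,[(4,1266),(3,3780),(1,7)]) (2260,[(4,334810),(1,453),(0,663)]))) (.leaf false ⟨⟨17,-162,6⟩,⟨102,6,-127⟩,⟨126,17,102⟩⟩ (63,[(1,2928),(0,17),(2,10376)]) (21,[(1,2433),(0,34),(2,214)]) (1,[(1,402),(0,2),(2,3)]))) (.node ⟨161,18,18⟩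 (.leaf false ⟨⟨18,-162,1⟩,⟨18,1,-162⟩,⟨161,18,18⟩⟩ (161,[(1,163),(0,18),(2,26406)]) (161,[(1,26406),(0,18),(2,163)]) (1,[(0,1)])) (.node ⟨66,-143,42⟩ (.leaf false ⟨⟨-127,-78,-66⟩,⟨66,-143,42⟩,⟨78,-6,-143⟩⟩ (555,[(4,268298),(0,36),(1,2119)]) (1,[(0,1)]) (3,[(2,411),(4,395),(1,1)])) (.leaf false ⟨⟨-143,-66,-42⟩,⟨6,78,-143⟩,⟨78,-127,-66⟩⟩ (3,[(4,698),(3,72),(1,7)]) (42,[(4,9690),(3,17173),(0,143)]) (3,[(4,2005),(3,183),(1,11)])))))) (.node ⟨0,1,0⟩ (.node ⟨0,0,1⟩ (.node ⟨-10,150,-63⟩ (.node ⟨-150,-10,-63⟩ (.node ⟨-62,-15,150⟩ (.leaf false ⟨⟨-150,-10,-63⟩,⟨-62,-15,150⟩,⟨-15,162,10⟩⟩ (1,[(1,1)]) (1,[(0,1)]) (10,[(3,163),(1,1),(4,1630)])) (.leaf false ⟨⟨-162,17,6⟩,⟨6,102,-127⟩,⟨17,126,102⟩⟩ (815,[(3,427386),(1,1742),(0,2085)])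 (815,[(3,1235866),(1,3117),(0,7620)]) (1630,[(3,3451851),(1,7557),(0,18730)]))) (.leaf false ⟨⟨-154,42,33⟩,⟨33,154,-42⟩,⟨42,33,154⟩⟩ (25,[(2,1266),(4,3780),(1,7)]) (240,[(4,1820),(1,241),(0,81)]) (2260,[(2,334810),(1,453),(0,663)]))) (.leaf false ⟨⟨-162,6,17⟩,⟨6,-127,102⟩,⟨17,102,126⟩⟩ (63,[(3,10376),(2,2928),(0,17)]) (21,[(3,214),(2,2433),(0,34)]) (1,[(3,3),(2,402),(0,2)]))) (.node ⟨18,161,18⟩ (.leaf false ⟨⟨-162,18,1⟩,⟨1,18,-162⟩,⟨18,161,18⟩⟩ (161,[(1,163),(3,26406),(0,18)]) (161,[(1,26406),(3,163),(0,18)]) (1,[(0,1)])) (.node ⟨-143,66,42⟩ (.leaf false ⟨⟨-143,66,42⟩,⟨-78,-127,-66⟩,⟨-6,78,-143⟩⟩ (1,[(0,1)]) (555,[(1,2119),(0,36),(3,268298)]) (3,[(2,411),(1,1),(3,395)])) (.leaf false ⟨⟨-162,17,-6⟩,⟨-6,-102,-127⟩,⟨17,126,-102⟩⟩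 (3,[(1,1),(4,468),(3,212)]) (42,[(4,18413),(3,4098),(0,127)]) (7,[(4,2312),(3,2004),(0,17)]))))) (.node ⟨0,0,1⟩ (.node ⟨18,18,161⟩ (.leaf false ⟨⟨-162,1,18⟩,⟨1,-162,18⟩,⟨18,18,161⟩⟩ (161,[(3,26406),(2,163),(0,18)]) (161,[(3,163),(2,26406),(0,18)]) (1,[(0,1)])) (.node ⟨42,-143,66⟩ (.leaf false ⟨⟨-162,-6,17⟩,⟨-6,-127,-102⟩,⟨17,-102,126⟩⟩ (3,[(2,212),(4,468),(1,1)]) (185,[(2,28528),(1,344),(0,121)]) (143,[(2,11286),(4,1853),(0,102)])) (.leaf false ⟨⟨-150,-63,-10⟩,⟨-62,150,-15⟩,⟨-15,10,162⟩⟩ (7,[(2,1580),(0,25),(3,4016)]) (21,[(2,1731),(0,31),(3,1283)]) (14,[(2,2598),(0,5),(3,575)])))) (.leaf false ⟨⟨-163,0,0⟩,⟨0,-163,0⟩,⟨0,0,-163⟩⟩ (1,[(2,163)]) (1,[(1,163)]) (1,[(0,163)]))))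
theorem h163_ok : h163.check (ok 163 4 ⟨3, 3, 3⟩) (fun _ r => r) [] = true := by decide +kernel

def h167 : T := .node ⟨1,0,0⟩ (.node ⟨0,1,0⟩ (.node ⟨0,0,1⟩ (.node ⟨-54,-18,157⟩ (.leaf false ⟨⟨-54,-18,157⟩,⟨-3,166,18⟩,⟨158,-3,54⟩⟩ (1,[(0,1)]) (157,[(3,501),(2,26386),(0,18)]) (157,[(3,27722),(2,501),(0,54)])) (.node ⟨-18,157,-54⟩ (.leaf false ⟨⟨-18,157,-54⟩,⟨-3,54,158⟩,⟨166,18,-3⟩⟩ (1,[(0,1)]) (157,[(2,27722),(4,501),(0,54)]) (1,[(2,154),(4,112),(1,1)])) (.leaf false ⟨⟨18,-3,166⟩,⟨54,158,-3⟩,⟨157,-54,-18⟩⟩ (1,[(2,112),(0,1),(3,154)]) (1,[(2,154),(1,1),(3,140)]) (8802,[(2,3248785),(0,5742),(1,23677)])))) (.node ⟨-67,30,-150⟩ (.node ⟨45,158,30⟩ (.node ⟨150,-30,-67⟩ (.leaf false ⟨⟨-58,45,-150⟩,⟨45,158,30⟩,⟨150,-30,-67⟩⟩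 (1,[(5,9),(4,15),(2,1)]) (1,[(1,1)]) (1,[(0,1)])) (.leaf false ⟨⟨-147,54,-58⟩,⟨14,138,93⟩,⟨78,77,-126⟩⟩ (5,[(3,893),(5,615),(0,9)]) (5,[(3,1076),(5,3520),(0,23)]) (30,[(3,8939),(5,13890),(0,77)]))) (.leaf false ⟨⟨-131,-18,-102⟩,⟨18,158,-51⟩,⟨102,-51,-122⟩⟩ (5,[(4,110),(3,2596),(0,17)]) (10,[(4,945),(3,4266),(0,17)]) (15,[(4,4275),(3,8873),(0,61)]))) (.leaf false ⟨⟨45,30,-158⟩,⟨58,150,45⟩,⟨150,-67,30⟩⟩ (67,[(1,17336),(0,45),(2,3360)]) (67,[(1,5685),(0,58),(2,11790)]) (67,[(1,20490),(0,150),(2,11)])))) (.node ⟨0,0,1⟩ (.node ⟨-67,-150,30⟩ (.node ⟨45,30,158⟩ (.node ⟨150,-67,-30⟩ (.leaf false ⟨⟨-58,-150,45⟩,⟨45,30,158⟩,⟨150,-67,-30⟩⟩ (1,[(3,15),(5,9),(2,1)]) (1,[(1,1)]) (1,[(0,1)])) (.leaf false ⟨⟨-147,-58,54⟩,⟨14,93,138⟩,⟨78,-126,77⟩⟩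 (5,[(5,615),(4,893),(0,9)]) (5,[(5,3520),(4,1076),(0,23)]) (30,[(5,13890),(4,8939),(0,77)]))) (.leaf false ⟨⟨-131,-102,-18⟩,⟨18,-51,158⟩,⟨102,-122,-51⟩⟩ (5,[(2,2596),(4,110),(0,17)]) (10,[(2,4266),(4,945),(0,17)]) (15,[(2,8873),(4,4275),(0,61)]))) (.leaf false ⟨⟨45,-158,30⟩,⟨58,45,150⟩,⟨150,30,-67⟩⟩ (67,[(1,3360),(0,45),(2,17336)]) (67,[(1,11790),(0,58),(2,5685)]) (67,[(1,11),(0,150),(2,20490)]))) (.node ⟨157,-18,54⟩ (.node ⟨-54,-158,-3⟩ (.leaf false ⟨⟨-54,-158,-3⟩,⟨18,-3,-166⟩,⟨157,-54,18⟩⟩ (1,[(0,1)]) (158,[(2,26219),(4,3006),(0,3)]) (477,[(4,56446),(1,167),(0,144)])) (.node ⟨45,150,-58⟩ (.leaf false ⟨⟨30,-67,-150⟩,⟨45,150,-58⟩,⟨158,-30,45⟩⟩ (3,[(3,334),(0,2),(4,501)]) (1,[(0,1)]) (5,[(1,3),(2,4),(4,552)])) (.leaf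 false ⟨⟨-18,-166,-3⟩,⟨54,-3,-158⟩,⟨157,-18,54⟩⟩ (11,[(3,4136),(1,53),(0,68)]) (110,[(3,76153),(1,915),(0,966)]) (495,[(3,757372),(1,12180),(0,12889)])))) (.leaf false ⟨⟨-150,-30,-67⟩,⟨45,-158,-30⟩,⟨58,45,-150⟩⟩ (54,[(3,2419),(2,2826),(0,67)]) (9,[(3,1190),(2,1512),(0,5)]) (9,[(3,4447),(2,45),(0,25)]))))) (.node ⟨0,1,0⟩ (.node ⟨0,0,1⟩ (.node ⟨-150,-67,30⟩ (.node ⟨-67,150,-30⟩ (.node ⟨30,45,158⟩ (.leaf false ⟨⟨-150,-58,45⟩,⟨-67,150,-30⟩,⟨30,45,158⟩⟩ (1,[(3,15),(2,1),(4,9)]) (1,[(1,1)]) (1,[(0,1)])) (.leaf false ⟨⟨-147,-78,14⟩,⟨-58,126,93⟩,⟨-54,77,-138⟩⟩ (10,[(3,7882),(0,49),(4,1425)]) (15,[(3,5977),(0,29),(4,3195)]) (5,[(3,732),(0,9),(4,790)]))) (.leaf false ⟨⟨-158,30,45⟩,⟨30,-67,150⟩,⟨45,150,58⟩⟩ (2,[(4,517),(3,510),(0,3)])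 (1,[(4,305),(3,683),(0,5)]) (15,[(4,1268),(3,6600),(0,29)]))) (.leaf false ⟨⟨-158,45,30⟩,⟨30,150,-67⟩,⟨45,58,150⟩⟩ (67,[(1,3360),(3,17336),(0,45)]) (67,[(1,11),(3,20490),(0,150)]) (67,[(1,11790),(3,5685),(0,58)]))) (.node ⟨-18,157,54⟩ (.node ⟨-158,-54,-3⟩ (.leaf false ⟨⟨-166,-18,-3⟩,⟨-18,157,54⟩,⟨-3,54,-158⟩⟩ (1431,[(0,1503),(1,4),(3,54776)]) (1,[(1,1)]) (6,[(2,1002),(1,1),(3,167)])) (.node ⟨150,45,-58⟩ (.leaf false ⟨⟨-67,30,-150⟩,⟨-30,158,45⟩,⟨150,45,-58⟩⟩ (3,[(3,334),(5,501),(0,2)]) (5,[(5,552),(2,4),(1,3)]) (1,[(0,1)])) (.leaf false ⟨⟨-166,-18,-3⟩,⟨-18,157,54⟩,⟨-3,54,-158⟩⟩ (11,[(3,4136),(0,68),(1,53)]) (495,[(3,757372),(0,12889),(1,12180)]) (110,[(3,76153),(0,966),(1,915)])))) (.leaf false ⟨⟨-166,18,-3⟩,⟨-3,-54,-158⟩,⟨18,157,-54⟩⟩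 (18,[(3,3006),(2,481),(0,1)]) (27,[(3,1503),(2,10945),(0,79)]) (1,[(2,314),(0,1)])))) (.node ⟨0,0,1⟩ (.node ⟨-18,54,157⟩ (.node ⟨-158,-3,-54⟩ (.leaf false ⟨⟨-166,-3,-18⟩,⟨-18,54,157⟩,⟨-3,-158,54⟩⟩ (1431,[(2,54776),(1,4),(0,1503)]) (1,[(1,1)]) (6,[(2,167),(1,1),(3,1002)])) (.node ⟨150,-58,45⟩ (.leaf false ⟨⟨-67,-150,30⟩,⟨-30,45,158⟩,⟨150,-58,45⟩⟩ (3,[(5,501),(4,334),(0,2)]) (5,[(2,4),(5,552),(1,3)]) (1,[(0,1)])) (.leaf false ⟨⟨-166,-3,-18⟩,⟨-18,54,157⟩,⟨-3,-158,54⟩⟩ (11,[(4,4136),(1,53),(0,68)]) (495,[(4,757372),(1,12180),(0,12889)]) (110,[(4,76153),(1,915),(0,966)])))) (.leaf false ⟨⟨-166,-3,18⟩,⟨-3,-158,-54⟩,⟨18,-54,157⟩⟩ (18,[(1,481),(3,3006),(0,1)]) (27,[(1,10945),(3,1503),(0,79)]) (1,[(1,314),(0,1)]))) (.leaf false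 ⟨⟨-167,0,0⟩,⟨0,-167,0⟩,⟨0,0,-167⟩⟩ (1,[(2,167)]) (1,[(1,167)]) (1,[(0,167)]))))
theorem h167_ok : h167.check (ok 167 4 ⟨3, 3, 3⟩) (fun _ r => r) [] = true := by decide +kernel

def h169 : T := .node ⟨1,0,0⟩ (.node ⟨0,1,0⟩ (.node ⟨0,0,1⟩ (.leaf false ⟨⟨0,0,169⟩,⟨0,169,0⟩,⟨169,0,0⟩⟩ (1,[(0,169)]) (1,[(1,169)]) (1,[(2,169)])) (.node ⟨0,156,65⟩ (.leaf false ⟨⟨0,65,-156⟩,⟨0,156,65⟩,⟨169,0,0⟩⟩ (12,[(1,2197),(0,5)]) (1,[(0,1)]) (1,[(3,169)])) (.leaf false ⟨⟨0,-119,-120⟩,⟨0,120,-119⟩,⟨169,0,0⟩⟩ (13,[(0,24),(2,2197)]) (65,[(0,119),(2,26364)]) (1,[(3,169)])))) (.node ⟨0,0,1⟩ (.node ⟨0,65,156⟩ (.leaf false ⟨⟨0,-156,65⟩,⟨0,65,156⟩,⟨169,0,0⟩⟩ (12,[(0,5),(2,2197)]) (1,[(0,1)]) (1,[(3,169)])) (.leaf false ⟨⟨0,-120,-119⟩,⟨0,-119,120⟩,⟨169,0,0⟩⟩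 (13,[(1,2197),(0,24)]) (65,[(1,26364),(0,119)]) (1,[(3,169)]))) (.node ⟨-96,-119,-72⟩ (.node ⟨24,72,-151⟩ (.leaf false ⟨⟨-96,-119,-72⟩,⟨24,72,-151⟩,⟨137,-96,-24⟩⟩ (1,[(1,1)]) (1,[(0,1)]) (3,[(4,507),(3,169),(1,1)])) (.leaf false ⟨⟨-88,-144,9⟩,⟨9,-16,-168⟩,⟨144,-87,16⟩⟩ (507,[(2,32786),(0,419),(1,360)]) (9,[(2,1814),(4,129),(0,2)]) (24,[(2,3995),(4,4152),(0,29)]))) (.leaf false ⟨⟨16,-63,-156⟩,⟨108,124,-39⟩,⟨129,-96,52⟩⟩ (6,[(1,1008),(0,1),(2,497)]) (8,[(1,960),(0,9),(2,79)]) (32,[(1,1432),(0,43),(2,8189)]))))) (.node ⟨0,1,0⟩ (.node ⟨0,0,1⟩ (.node ⟨65,0,156⟩ (.leaf false ⟨⟨-156,0,65⟩,⟨0,169,0⟩,⟨65,0,156⟩⟩ (12,[(3,2197),(0,5)]) (1,[(2,169)]) (1,[(0,1)])) (.leaf false ⟨⟨-120,0,-119⟩,⟨-119,0,120⟩,⟨0,169,0⟩⟩ (13,[(1,2197),(0,24)])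 (65,[(1,26364),(0,119)]) (1,[(2,169)]))) (.node ⟨-72,-96,-119⟩ (.node ⟨-151,24,72⟩ (.leaf false ⟨⟨-151,24,72⟩,⟨-72,-96,-119⟩,⟨-24,137,-96⟩⟩ (1,[(0,1)]) (1,[(1,1)]) (3,[(2,169),(1,1),(3,507)])) (.leaf false ⟨⟨-168,9,-16⟩,⟨9,-88,-144⟩,⟨16,144,-87⟩⟩ (9,[(4,1814),(3,129),(0,2)]) (507,[(1,360),(4,32786),(0,419)]) (24,[(4,3995),(3,4152),(0,29)]))) (.leaf false ⟨⟨-156,16,-63⟩,⟨-39,108,124⟩,⟨52,129,-96⟩⟩ (6,[(1,497),(3,1008),(0,1)]) (8,[(1,79),(3,960),(0,9)]) (32,[(1,8189),(3,1432),(0,43)])))) (.node ⟨0,0,1⟩ (.node ⟨-72,-119,-96⟩ (.node ⟨-151,72,24⟩ (.leaf false ⟨⟨-151,72,24⟩,⟨-72,-119,-96⟩,⟨-24,-96,137⟩⟩ (1,[(0,1)]) (1,[(1,1)]) (3,[(2,507),(1,1),(3,169)])) (.leaf false ⟨⟨-168,-16,9⟩,⟨9,-144,-88⟩,⟨16,-87,144⟩⟩ (9,[(2,129),(4,1814),(0,2)])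 (507,[(4,32786),(1,360),(0,419)]) (24,[(2,4152),(4,3995),(0,29)]))) (.leaf false ⟨⟨-156,-63,16⟩,⟨-39,124,108⟩,⟨52,-96,129⟩⟩ (6,[(3,1008),(2,497),(0,1)]) (8,[(3,960),(2,79),(0,9)]) (32,[(3,1432),(2,8189),(0,43)]))) (.node ⟨-12,-159,56⟩ (.node ⟨-164,33,-24⟩ (.node ⟨12,-56,-159⟩ (.leaf false ⟨⟨-164,33,-24⟩,⟨-39,-156,52⟩,⟨12,-56,-159⟩⟩ (1,[(1,1)]) (14,[(5,390),(2,13),(4,117)]) (1,[(0,1)])) (.leaf false ⟨⟨-164,24,33⟩,⟨-39,-52,-156⟩,⟨-12,-159,56⟩⟩ (3,[(3,6420),(0,41),(4,2224)]) (4,[(3,2691),(0,13),(4,936)]) (1,[(3,103),(0,1),(4,215)]))) (.leaf false ⟨⟨-164,-39,-12⟩,⟨24,-52,-159⟩,⟨33,-156,56⟩⟩ (11,[(2,444),(4,3936),(0,13)]) (33,[(2,6495),(4,7736),(0,52)]) (11,[(2,632),(4,8165),(0,52)]))) (.leaf false ⟨⟨-168,9,-16⟩,⟨9,-88,-144⟩,⟨16,144,-87⟩⟩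 (7,[(3,1200),(2,255),(0,2)]) (7,[(3,153),(2,3478),(0,18)]) (56,[(3,148),(2,5769),(0,87)])))))
theorem h169_ok : h169.check (ok 169 4 ⟨3, 3, 3⟩) (fun _ r => r) [] = true := by decide +kernel

def h173 : T := .node ⟨1,0,0⟩ (.node ⟨0,1,0⟩ (.node ⟨0,0,1⟩ (.leaf false ⟨⟨0,0,173⟩,⟨0,173,0⟩,⟨173,0,0⟩⟩ (1,[(0,173)]) (1,[(1,173)]) (1,[(2,173)])) (.node ⟨-60,48,-155⟩ (.node ⟨88,132,69⟩ (.node ⟨141,-48,-88⟩ (.leaf false ⟨⟨-48,101,-132⟩,⟨88,132,69⟩,⟨141,-48,-88⟩⟩ (5,[(3,40),(4,313),(2,4)]) (1,[(1,1)]) (1,[(0,1)])) (.leaf false ⟨⟨-147,72,-56⟩,⟨24,133,108⟩,⟨88,84,-123⟩⟩ (2,[(3,376),(5,129),(0,3)]) (48,[(3,6520),(5,19905),(0,133)]) (4,[(3,1108),(5,1339),(0,7)]))) (.leaf false ⟨⟨-123,-20,-120⟩,⟨20,165,-48⟩,⟨120,-48,-115⟩⟩ (23,[(4,691),(3,4820),(0,40)])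 (23,[(4,1868),(3,5907),(0,16)]) (3,[(4,800),(3,516),(0,5)]))) (.leaf false ⟨⟨48,132,101⟩,⟨88,69,-132⟩,⟨141,-88,48⟩⟩ (5,[(1,115),(0,4),(2,852)]) (15,[(1,5390),(0,22),(2,2091)]) (20,[(1,6325),(0,47),(2,496)])))) (.node ⟨0,0,1⟩ (.node ⟨-60,-155,48⟩ (.node ⟨88,69,132⟩ (.node ⟨141,-88,-48⟩ (.leaf false ⟨⟨-48,-132,101⟩,⟨88,69,132⟩,⟨141,-88,-48⟩⟩ (5,[(3,313),(4,40),(2,4)]) (1,[(1,1)]) (1,[(0,1)])) (.leaf false ⟨⟨-147,-56,72⟩,⟨24,108,133⟩,⟨88,-123,84⟩⟩ (2,[(5,129),(4,376),(0,3)]) (48,[(5,19905),(4,6520),(0,133)]) (4,[(5,1339),(4,1108),(0,7)]))) (.leaf false ⟨⟨-123,-120,-20⟩,⟨20,-48,165⟩,⟨120,-115,-48⟩⟩ (23,[(2,4820),(4,691),(0,40)]) (23,[(2,5907),(4,1868),(0,16)]) (3,[(2,516),(4,800),(0,5)]))) (.leaf false ⟨⟨48,88,141⟩,⟨101,-132,48⟩,⟨132,69,-88⟩⟩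 (5,[(1,897),(0,4),(2,180)]) (60,[(1,7728),(0,101),(2,23575)]) (5,[(1,88),(0,11),(2,1360)]))) (.node ⟨-92,-144,-27⟩ (.node ⟨-27,48,-164⟩ (.leaf false ⟨⟨-92,-144,-27⟩,⟨-27,48,-164⟩,⟨144,-83,-48⟩⟩ (1,[(1,1)]) (1,[(0,1)]) (41,[(4,6228),(3,3979),(0,12)])) (.leaf false ⟨⟨-48,-120,-115⟩,⟨20,-123,120⟩,⟨165,-20,-48⟩⟩ (6,[(2,555),(4,172),(1,5)]) (2768,[(2,422639),(0,4732),(1,787)]) (12,[(2,1396),(4,1845),(0,5)]))) (.node ⟨133,24,108⟩ (.leaf false ⟨⟨72,-147,-56⟩,⟨84,88,-123⟩,⟨133,24,108⟩⟩ (23,[(2,1774),(1,18),(3,5973)]) (23,[(2,3396),(1,21),(3,1000)]) (1,[(0,1)])) (.leaf false ⟨⟨-123,-20,-120⟩,⟨20,165,-48⟩,⟨120,-48,-115⟩⟩ (2115,[(1,892),(3,108996),(0,2573)]) (2115,[(1,2848),(3,21489),(0,1652)]) (1269,[(1,5651),(3,808320),(0,2764)]))))))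 (.node ⟨0,1,0⟩ (.node ⟨0,0,1⟩ (.node ⟨-155,-60,48⟩ (.node ⟨69,88,132⟩ (.node ⟨-88,141,-48⟩ (.leaf false ⟨⟨-132,-48,101⟩,⟨-88,141,-48⟩,⟨69,88,132⟩⟩ (5,[(3,313),(2,4),(5,40)]) (1,[(0,1)]) (1,[(1,1)])) (.leaf false ⟨⟨-155,-60,48⟩,⟨-48,160,45⟩,⟨60,-27,160⟩⟩ (1,[(5,243),(4,81),(0,1)]) (16,[(5,2088),(4,4675),(0,15)]) (3,[(5,700),(4,1329),(0,10)]))) (.leaf false ⟨⟨-147,-72,56⟩,⟨-88,84,-123⟩,⟨-24,133,108⟩⟩ (23,[(2,7756),(0,49),(3,2656)]) (69,[(2,3129),(0,88),(3,13540)]) (23,[(2,3540),(0,8),(3,3763)]))) (.leaf false ⟨⟨-132,88,69⟩,⟨48,141,-88⟩,⟨101,48,132⟩⟩ (15,[(1,2091),(3,5390),(0,22)]) (20,[(1,496),(3,6325),(0,47)]) (5,[(1,852),(3,115),(0,4)]))) (.node ⟨-27,-92,-144⟩ (.node ⟨-164,-27,48⟩ (.leaf false ⟨⟨-164,-27,48⟩,⟨-48,144,-83⟩,⟨-27,-92,-144⟩⟩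 (1,[(0,1)]) (41,[(2,3979),(0,12),(3,6228)]) (1,[(1,1)])) (.leaf false ⟨⟨-144,-48,-83⟩,⟨-27,164,-48⟩,⟨92,-27,-144⟩⟩ (144,[(1,83),(4,18495),(3,724)]) (1,[(4,191),(3,137),(0,1)]) (173,[(1,108),(4,13148),(0,195)]))) (.node ⟨108,133,24⟩ (.leaf false ⟨⟨-123,84,88⟩,⟨-56,72,-147⟩,⟨108,133,24⟩⟩ (23,[(2,1000),(4,3396),(1,21)]) (23,[(2,5973),(4,1774),(1,18)]) (1,[(0,1)])) (.leaf false ⟨⟨-147,-72,56⟩,⟨-88,84,-123⟩,⟨-24,133,108⟩⟩ (423,[(2,70824),(0,772),(1,785)]) (6345,[(2,3523443),(0,10364),(1,20776)]) (2115,[(2,567876),(0,1933),(1,5852)]))))) (.node ⟨0,0,1⟩ (.node ⟨-27,-144,-92⟩ (.node ⟨-164,48,-27⟩ (.leaf false ⟨⟨-164,48,-27⟩,⟨-48,-83,144⟩,⟨-27,-144,-92⟩⟩ (1,[(0,1)]) (41,[(2,6228),(0,12),(3,3979)]) (1,[(1,1)])) (.leaf false ⟨⟨-144,-83,-48⟩,⟨-27,-48,164⟩,⟨92,-144,-27⟩⟩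 (144,[(2,724),(4,18495),(1,83)]) (1,[(2,137),(4,191),(0,1)]) (519,[(2,13148),(1,400),(0,357)]))) (.node ⟨108,24,133⟩ (.leaf false ⟨⟨-123,88,84⟩,⟨-56,-147,72⟩,⟨108,24,133⟩⟩ (23,[(4,3396),(3,1000),(1,21)]) (23,[(4,1774),(3,5973),(1,18)]) (1,[(0,1)])) (.leaf false ⟨⟨-147,56,-72⟩,⟨-88,-123,84⟩,⟨-24,108,133⟩⟩ (423,[(3,70824),(1,785),(0,772)]) (6345,[(3,3523443),(1,20776),(0,10364)]) (2115,[(3,567876),(1,5852),(0,1933)])))) (.node ⟨-160,-27,60⟩ (.node ⟨92,-99,-108⟩ (.node ⟨-99,52,-132⟩ (.leaf false ⟨⟨-108,-132,29⟩,⟨-99,52,-132⟩,⟨92,-99,-108⟩⟩ (40,[(3,460),(2,27),(4,4551)]) (1,[(0,1)]) (1,[(1,1)])) (.leaf false ⟨⟨-164,-27,-48⟩,⟨-27,-92,144⟩,⟨48,-144,-83⟩⟩ (52,[(3,6060),(5,11201),(0,27)]) (13,[(3,1164),(5,2628),(0,23)]) (13,[(3,5831),(5,2940),(0,36)])))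 (.leaf false ⟨⟨-155,48,60⟩,⟨-60,-160,-27⟩,⟨-48,45,-160⟩⟩ (92,[(2,11220),(0,155),(3,10929)]) (23,[(2,2241),(0,15),(3,5165)]) (23,[(2,4976),(0,12),(3,153)]))) (.leaf false ⟨⟨-160,-27,-60⟩,⟨45,-160,-48⟩,⟨48,60,-155⟩⟩ (1,[(3,320),(2,54),(0,1)]) (5,[(3,415),(2,908),(0,4)]) (12,[(3,4384),(2,117),(0,31)])))))
theorem h173_ok : h173.check (ok 173 4 ⟨3, 3, 3⟩) (fun _ r => r) [] = true := by decide +kernel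

def h179 : T := .node ⟨1,0,0⟩ (.node ⟨0,1,0⟩ (.node ⟨0,0,1⟩ (.node ⟨-98,81,126⟩ (.node ⟨66,161,-42⟩ (.node ⟨154,-42,81⟩ (.leaf false ⟨⟨-63,66,154⟩,⟨66,161,-42⟩,⟨154,-42,81⟩⟩ (14,[(3,1022),(4,195),(2,9)]) (1,[(1,1)]) (1,[(0,1)])) (.leaf false ⟨⟨-126,98,81⟩,⟨17,126,-126⟩,⟨126,81,98⟩⟩ (3,[(3,810),(5,700),(0,7)]) (1,[(3,117),(5,479),(0,3)]) (14,[(3,3559),(5,5922),(0,27)]))) (.leaf false ⟨⟨-126,17,126⟩,⟨81,-126,98⟩,⟨98,126,81⟩⟩ (1,[(4,72),(3,500),(0,3)]) (3,[(4,705),(3,749),(0,7)]) (14,[(4,3154),(3,6111),(0,27)]))) (.leaf false ⟨⟨17,126,126⟩,⟨126,-98,81⟩,⟨126,81,-98⟩⟩ (98,[(1,14490),(0,17),(2,13725)]) (7,[(1,1701),(0,9),(2,43)]) (7,[(1,448),(0,9),(2,1296)]))) (.node ⟨-78,26,-159⟩ (.node ⟨6,161,78⟩ (.leaf false ⟨⟨-78,26,-159⟩,⟨6,177,26⟩,⟨161,6,-78⟩⟩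 (1,[(1,1)]) (2119,[(2,123868),(0,2327),(1,16)]) (13,[(2,537),(4,2327),(1,3)])) (.leaf false ⟨⟨-42,134,-111⟩,⟨1,-114,-138⟩,⟨174,33,-26⟩⟩ (53,[(4,660),(3,6140),(1,37)]) (13,[(4,151),(3,2221),(0,23)]) (3,[(4,528),(3,260),(0,1)]))) (.leaf false ⟨⟨6,177,-26⟩,⟨78,-26,-159⟩,⟨161,6,78⟩⟩ (13,[(1,497),(0,1),(2,2327)]) (1,[(1,318),(0,1)]) (78,[(1,19515),(0,161),(2,4654)])))) (.node ⟨0,0,1⟩ (.node ⟨-78,-159,26⟩ (.node ⟨6,78,161⟩ (.leaf false ⟨⟨-78,-159,26⟩,⟨6,26,177⟩,⟨161,-78,6⟩⟩ (1,[(1,1)]) (2119,[(3,123868),(1,16),(0,2327)]) (13,[(4,2327),(3,537),(1,3)])) (.leaf false ⟨⟨-42,-111,134⟩,⟨1,-138,-114⟩,⟨174,-26,33⟩⟩ (53,[(2,6140),(4,660),(1,37)]) (13,[(2,2221),(4,151),(0,23)]) (3,[(2,260),(4,528),(0,1)]))) (.leaf false ⟨⟨6,-26,177⟩,⟨78,-159,-26⟩,⟨161,78,6⟩⟩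 (13,[(1,2327),(0,1),(2,497)]) (1,[(0,1),(2,318)]) (78,[(1,4654),(0,161),(2,19515)]))) (.node ⟨145,-54,90⟩ (.node ⟨-54,-170,-15⟩ (.leaf false ⟨⟨-54,-170,-15⟩,⟨90,-15,-154⟩,⟨145,-54,90⟩⟩ (1,[(0,1)]) (18,[(2,3222),(4,895),(1,5)]) (1,[(1,1)])) (.leaf false ⟨⟨33,-26,-174⟩,⟨114,138,1⟩,⟨134,-111,42⟩⟩ (18,[(2,3297),(0,11),(3,2338)]) (9,[(2,276),(0,19),(3,1988)]) (145,[(2,5970),(1,134),(3,8859)]))) (.leaf false ⟨⟨-138,26,-111⟩,⟨1,-174,-42⟩,⟨114,33,-134⟩⟩ (30,[(3,1225),(2,1218),(0,37)]) (15,[(3,1030),(2,2988),(0,7)]) (45,[(3,14845),(2,2133),(0,67)]))))) (.node ⟨0,1,0⟩ (.node ⟨0,0,1⟩ (.node ⟨-159,-78,26⟩ (.node ⟨78,6,161⟩ (.leaf false ⟨⟨-159,-78,26⟩,⟨-78,161,6⟩,⟨26,6,177⟩⟩ (1,[(1,1)]) (13,[(1,3),(4,537),(3,2327)]) (2119,[(1,16),(4,123868),(0,2327)]))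 (.leaf false ⟨⟨-159,-26,-78⟩,⟨-78,-6,161⟩,⟨-26,177,-6⟩⟩ (855,[(2,150514),(1,179),(0,1378)]) (1,[(2,322),(0,1)]) (3,[(2,143),(0,1),(3,537)]))) (.leaf false ⟨⟨-159,78,-26⟩,⟨-26,6,177⟩,⟨78,161,6⟩⟩ (1,[(3,318),(0,1)]) (13,[(1,2327),(3,497),(0,1)]) (78,[(1,4654),(3,19515),(0,161)]))) (.node ⟨-54,145,90⟩ (.node ⟨-170,-54,-15⟩ (.leaf false ⟨⟨-170,-54,-15⟩,⟨-54,145,90⟩,⟨-15,90,-154⟩⟩ (1,[(0,1)]) (1,[(1,1)]) (18,[(2,3222),(1,5),(3,895)])) (.leaf false ⟨⟨-154,66,-63⟩,⟨42,161,66⟩,⟨81,42,-154⟩⟩ (9,[(2,732),(4,3256),(0,11)]) (179,[(2,4296),(1,163),(0,96)]) (9,[(2,1491),(4,461),(0,7)]))) (.leaf false ⟨⟨-174,1,-42⟩,⟨26,-138,-111⟩,⟨33,114,-134⟩⟩ (15,[(3,2988),(2,1030),(0,7)]) (30,[(3,1218),(2,1225),(0,37)]) (45,[(3,2133),(2,14845),(0,67)]))))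 (.node ⟨0,0,1⟩ (.node ⟨-54,90,145⟩ (.node ⟨-170,-15,-54⟩ (.leaf false ⟨⟨-170,-15,-54⟩,⟨-54,90,145⟩,⟨-15,-154,90⟩⟩ (1,[(0,1)]) (1,[(1,1)]) (18,[(2,895),(1,5),(3,3222)])) (.leaf false ⟨⟨-154,-63,66⟩,⟨42,66,161⟩,⟨81,-154,42⟩⟩ (9,[(4,3256),(3,732),(0,11)]) (179,[(1,163),(3,4296),(0,96)]) (9,[(4,461),(3,1491),(0,7)]))) (.leaf false ⟨⟨-174,-42,1⟩,⟨26,-111,-138⟩,⟨33,-134,114⟩⟩ (15,[(1,1030),(3,2988),(0,7)]) (30,[(1,1225),(3,1218),(0,37)]) (45,[(1,14845),(3,2133),(0,67)]))) (.leaf false ⟨⟨-179,0,0⟩,⟨0,-179,0⟩,⟨0,0,-179⟩⟩ (1,[(2,179)]) (1,[(1,179)]) (1,[(0,179)]))))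
theorem h179_ok : h179.check (ok 179 4 ⟨3, 3, 3⟩) (fun _ r => r) [] = true := by decide +kernel

def h181 : T := .node ⟨1,0,0⟩ (.node ⟨0,1,0⟩ (.node ⟨0,0,1⟩ (.leaf false ⟨⟨0,0,181⟩,⟨0,181,0⟩,⟨181,0,0⟩⟩ (1,[(0,181)]) (1,[(1,181)]) (1,[(2,181)])) (.node ⟨-19,0,-180⟩ (.leaf false ⟨⟨-19,0,-180⟩,⟨0,181,0⟩,⟨180,0,-19⟩⟩ (1,[(0,1)]) (1,[(2,181)]) (180,[(3,32761),(0,19)])) (.node ⟨136,-51,-108⟩ (.leaf false ⟨⟨21,152,96⟩,⟨64,84,-147⟩,⟨168,-51,44⟩⟩ (19,[(2,1956),(1,21),(3,2888)]) (17,[(2,1635),(0,8),(3,1836)]) (19,[(2,2872),(0,19),(1,32)])) (.leaf false ⟨⟨-147,64,84⟩,⟨44,168,-51⟩,⟨96,21,152⟩⟩ (969,[(2,267192),(1,1207),(0,1216)]) (323,[(2,1636905),(1,8364),(0,1064)]) (17,[(2,22652),(1,136),(0,7)]))))) (.node ⟨0,0,1⟩ (.node ⟨-19,-180,0⟩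 (.leaf false ⟨⟨-19,-180,0⟩,⟨0,0,181⟩,⟨180,-19,0⟩⟩ (1,[(0,1)]) (1,[(1,181)]) (180,[(3,32761),(0,19)])) (.node ⟨136,-108,-51⟩ (.leaf false ⟨⟨21,96,152⟩,⟨64,-147,84⟩,⟨168,44,-51⟩⟩ (19,[(2,2888),(1,21),(3,1956)]) (17,[(2,1836),(0,8),(3,1635)]) (19,[(1,32),(0,19),(3,2872)])) (.leaf false ⟨⟨-147,44,96⟩,⟨64,168,21⟩,⟨84,-51,152⟩⟩ (323,[(1,1853),(3,384992),(0,608)]) (323,[(1,2040),(3,327300),(0,133)]) (969,[(1,24956),(3,4853403),(0,2888)])))) (.node ⟨-84,-132,-91⟩ (.node ⟨37,84,-156⟩ (.leaf false ⟨⟨-84,-132,-91⟩,⟨37,84,-156⟩,⟨156,-91,-12⟩⟩ (1,[(1,1)]) (1,[(0,1)]) (13,[(4,1991),(3,1267),(0,1)])) (.leaf false ⟨⟨-64,-147,-84⟩,⟨21,-96,152⟩,⟨168,-44,-51⟩⟩ (4,[(2,1428),(4,3),(0,7)]) (7,[(2,184),(4,443),(0,8)]) (3,[(2,62),(4,588),(1,1)])))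 (.leaf false ⟨⟨12,-24,-179⟩,⟨109,144,-12⟩,⟨144,-107,24⟩⟩ (7,[(1,1344),(0,1),(2,300)]) (84,[(1,10927),(0,109),(2,2292)]) (7,[(1,924),(0,12),(2,2333)]))))) (.node ⟨0,1,0⟩ (.node ⟨0,0,1⟩ (.node ⟨-180,-19,0⟩ (.leaf false ⟨⟨-180,-19,0⟩,⟨-19,180,0⟩,⟨0,0,181⟩⟩ (1,[(0,1)]) (180,[(0,19),(2,32761)]) (1,[(1,181)])) (.node ⟨-108,136,-51⟩ (.leaf false ⟨⟨-147,64,84⟩,⟨44,168,-51⟩,⟨96,21,152⟩⟩ (17,[(2,1836),(4,1635),(0,8)]) (19,[(4,2872),(0,19),(1,32)]) (19,[(2,2888),(4,1956),(1,21)])) (.leaf false ⟨⟨-179,-24,12⟩,⟨-12,144,109⟩,⟨24,-107,144⟩⟩ (323,[(4,90505),(1,136),(0,76)]) (969,[(4,4225536),(1,22168),(0,2071)]) (323,[(4,938364),(1,4709),(0,912)])))) (.node ⟨-156,37,84⟩ (.node ⟨-91,-84,-132⟩ (.leaf false ⟨⟨-156,37,84⟩,⟨-91,-84,-132⟩,⟨-12,156,-91⟩⟩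 (1,[(1,1)]) (1,[(0,1)]) (13,[(2,1267),(1,1),(3,1991)])) (.leaf false ⟨⟨-179,12,-24⟩,⟨-12,109,144⟩,⟨24,144,-107⟩⟩ (7,[(2,300),(4,1344),(0,1)]) (84,[(2,2292),(4,10927),(0,109)]) (7,[(2,2333),(4,924),(0,12)]))) (.leaf false ⟨⟨-84,-64,-147⟩,⟨-51,168,-44⟩,⟨152,21,-96⟩⟩ (4,[(3,1428),(2,3),(0,7)]) (21,[(3,2787),(2,3935),(0,11)]) (7,[(3,184),(2,443),(0,8)])))) (.node ⟨0,0,1⟩ (.node ⟨-156,84,37⟩ (.node ⟨-91,-132,-84⟩ (.leaf false ⟨⟨-156,84,37⟩,⟨-91,-132,-84⟩,⟨-12,-91,156⟩⟩ (1,[(1,1)]) (1,[(0,1)]) (13,[(2,1991),(1,1),(3,1267)])) (.leaf false ⟨⟨-179,-24,12⟩,⟨-12,144,109⟩,⟨24,-107,144⟩⟩ (7,[(4,1344),(3,300),(0,1)]) (84,[(4,10927),(3,2292),(0,109)]) (7,[(4,924),(3,2333),(0,12)]))) (.leaf false ⟨⟨-84,-147,-64⟩,⟨-51,-44,168⟩,⟨152,-96,21⟩⟩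 (4,[(1,3),(3,1428),(0,7)]) (21,[(1,3935),(3,2787),(0,11)]) (7,[(1,443),(3,184),(0,8)]))) (.node ⟨-44,96,-147⟩ (.node ⟨-168,-51,44⟩ (.node ⟨21,-152,-96⟩ (.leaf false ⟨⟨-168,-51,44⟩,⟨-64,84,-147⟩,⟨21,-152,-96⟩⟩ (1,[(1,1)]) (1,[(2,1),(5,20),(4,12)]) (1,[(0,1)])) (.leaf false ⟨⟨-168,21,64⟩,⟨-51,-152,-84⟩,⟨-44,96,-147⟩⟩ (1,[(3,704),(0,8),(4,1195)]) (7,[(3,2220),(0,17),(4,3648)]) (21,[(3,7311),(0,44),(4,4672)]))) (.leaf false ⟨⟨-179,-12,-24⟩,⟨12,109,-144⟩,⟨24,-144,-107⟩⟩ (11,[(4,2977),(3,438),(0,6)]) (11,[(4,5916),(3,637),(0,36)]) (44,[(4,16920),(3,11793),(0,107)]))) (.leaf false ⟨⟨-179,-24,-12⟩,⟨12,-144,109⟩,⟨24,-107,-144⟩⟩ (4,[(1,195),(3,760),(0,1)]) (2,[(1,223),(3,108),(0,3)]) (96,[(1,29553),(3,2404),(0,107)])))))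
theorem h181_ok : h181.check (ok 181 4 ⟨3, 3, 3⟩) (fun _ r => r) [] = true := by decide +kernel

def h183 : T := .node ⟨1,0,0⟩ (.node ⟨0,1,0⟩ (.node ⟨0,0,1⟩ (.node ⟨-86,77,142⟩ (.node ⟨142,77,-86⟩ (.node ⟨38,166,-67⟩ (.leaf false ⟨⟨-86,77,142⟩,⟨38,166,-67⟩,⟨157,2,94⟩⟩ (1,[(2,1)]) (1,[(0,1)]) (77,[(3,7410),(5,11805),(1,2)])) (.leaf false ⟨⟨-86,38,157⟩,⟨77,166,2⟩,⟨142,-67,94⟩⟩ (24339,[(1,2257),(2,24951),(0,7049)]) (2128,[(1,1851),(4,122094),(2,1151)]) (1159,[(1,2501),(2,1242),(0,2204)]))) (.leaf false ⟨⟨-154,13,98⟩,⟨62,154,77⟩,⟨77,-98,134⟩⟩ (43,[(4,336),(3,4332),(0,49)]) (86,[(4,16266),(3,19173),(0,77)]) (43,[(4,12825),(3,945),(0,67)]))) (.leaf false ⟨⟨2,77,166⟩,⟨94,142,-67⟩,⟨157,-86,38⟩⟩ (43,[(1,7280),(0,1),(2,3388)])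 (43,[(1,3793),(0,47),(2,9725)]) (86,[(1,25562),(0,157),(2,4693)]))) (.node ⟨-14,182,13⟩ (.node ⟨182,13,14⟩ (.leaf false ⟨⟨-14,182,13⟩,⟨13,14,-182⟩,⟨182,13,14⟩⟩ (1,[(1,1)]) (13,[(2,2379),(4,183),(1,1)]) (1,[(0,1)])) (.leaf false ⟨⟨-179,-2,-38⟩,⟨2,182,-19⟩,⟨38,-19,-178⟩⟩ (2379,[(4,834663),(1,466),(0,6890)]) (183,[(4,84912),(1,215),(0,448)]) (2379,[(4,5970192),(1,2048),(0,32149)]))) (.node ⟨33,-180,0⟩ (.leaf false ⟨⟨0,0,-183⟩,⟨33,-180,0⟩,⟨180,33,0⟩⟩ (1,[(2,183)]) (1,[(0,1)]) (11,[(0,60),(3,11163)])) (.leaf false ⟨⟨-142,61,-98⟩,⟨38,-122,-131⟩,⟨109,122,-82⟩⟩ (2340,[(1,17640),(4,35517),(0,18629)]) (585,[(1,5895),(4,123312),(0,5564)]) (234,[(1,1476),(4,59325),(0,1651)]))))) (.node ⟨0,0,1⟩ (.node ⟨-14,13,182⟩ (.node ⟨182,14,13⟩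 (.leaf false ⟨⟨-14,13,182⟩,⟨13,-182,14⟩,⟨182,14,13⟩⟩ (1,[(1,1)]) (13,[(4,183),(3,2379),(1,1)]) (1,[(0,1)])) (.leaf false ⟨⟨-179,-38,-2⟩,⟨2,-19,182⟩,⟨38,-178,-19⟩⟩ (2379,[(4,834663),(0,6890),(1,466)]) (183,[(4,84912),(0,448),(1,215)]) (2379,[(4,5970192),(0,32149),(1,2048)]))) (.node ⟨33,0,-180⟩ (.leaf false ⟨⟨0,-183,0⟩,⟨33,0,-180⟩,⟨180,0,33⟩⟩ (1,[(3,183)]) (1,[(0,1)]) (11,[(2,11163),(0,60)])) (.leaf false ⟨⟨-142,-98,61⟩,⟨38,-131,-122⟩,⟨109,-82,122⟩⟩ (2340,[(4,35517),(1,17640),(0,18629)]) (585,[(4,123312),(1,5895),(0,5564)]) (234,[(4,59325),(1,1476),(0,1651)])))) (.node ⟨180,0,33⟩ (.leaf false ⟨⟨0,-183,0⟩,⟨33,0,-180⟩,⟨180,0,33⟩⟩ (1,[(2,183)]) (60,[(1,11163),(0,11)]) (1,[(0,1)])) (.node ⟨2,77,-166⟩ (.leaf false ⟨⟨-168,-63,-36⟩,⟨9,72,-168⟩,⟨72,-156,-63⟩⟩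 (11,[(4,312),(3,693),(1,12)]) (83,[(4,579),(3,492),(0,84)]) (11,[(4,4572),(3,1716),(1,21)])) (.leaf false ⟨⟨-170,-10,-67⟩,⟨-35,-142,110⟩,⟨58,-115,-130⟩⟩ (847,[(4,265370),(0,110),(1,2273)]) (847,[(4,879599),(0,1562),(1,5034)]) (847,[(4,1797656),(0,1265),(1,9700)])))))) (.node ⟨0,1,0⟩ (.node ⟨0,0,1⟩ (.node ⟨13,-14,182⟩ (.node ⟨14,182,13⟩ (.leaf false ⟨⟨-182,13,14⟩,⟨13,-14,182⟩,⟨14,182,13⟩⟩ (13,[(4,2379),(3,183),(1,1)]) (1,[(1,1)]) (1,[(0,1)])) (.leaf false ⟨⟨-179,38,2⟩,⟨-38,-178,-19⟩,⟨-2,-19,182⟩⟩ (793,[(3,2019100),(1,785),(0,10868)]) (793,[(3,264496),(1,76),(0,2223)]) (61,[(3,12505),(1,66),(0,70)]))) (.node ⟨0,33,-180⟩ (.leaf false ⟨⟨-183,0,0⟩,⟨0,33,-180⟩,⟨0,180,33⟩⟩ (1,[(4,183)]) (1,[(0,1)]) (11,[(2,11163),(0,60)]))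 (.leaf false ⟨⟨-179,2,38⟩,⟨-38,-19,-178⟩,⟨-2,182,-19⟩⟩ (195,[(0,2756),(1,2685),(3,53748)]) (390,[(0,767),(1,1140),(3,1941)]) (260,[(0,13),(1,40),(3,47189)])))) (.node ⟨0,180,33⟩ (.leaf false ⟨⟨-183,0,0⟩,⟨0,33,-180⟩,⟨0,180,33⟩⟩ (1,[(3,183)]) (60,[(1,11163),(0,11)]) (1,[(0,1)])) (.node ⟨77,2,-166⟩ (.leaf false ⟨⟨-179,-2,-38⟩,⟨2,182,-19⟩,⟨38,-19,-178⟩⟩ (33,[(1,38),(4,5907),(3,6774)]) (166,[(4,1131),(3,30174),(0,19)]) (9982,[(1,1170),(4,426951),(0,10471)])) (.leaf false ⟨⟨-182,-19,-2⟩,⟨-19,178,38⟩,⟨-2,38,-179⟩⟩ (121,[(1,1446),(0,286),(3,258553)]) (847,[(1,76),(0,209),(3,164864)]) (847,[(1,4705),(0,22),(3,879130)]))))) (.node ⟨0,0,1⟩ (.node ⟨0,33,180⟩ (.leaf false ⟨⟨-183,0,0⟩,⟨0,-180,33⟩,⟨0,33,180⟩⟩ (1,[(3,183)]) (60,[(0,11),(2,11163)])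 (1,[(0,1)])) (.node ⟨77,-166,2⟩ (.leaf false ⟨⟨-179,-38,-2⟩,⟨2,-19,182⟩,⟨38,-178,-19⟩⟩ (33,[(2,6774),(4,5907),(1,38)]) (166,[(2,30174),(4,1131),(0,19)]) (847,[(2,426951),(1,2466),(0,418)])) (.leaf false ⟨⟨-182,-2,-19⟩,⟨-19,38,178⟩,⟨-2,-179,38⟩⟩ (121,[(2,258553),(0,286),(1,1446)]) (847,[(2,164864),(0,209),(1,76)]) (847,[(2,879130),(0,22),(1,4705)])))) (.leaf false ⟨⟨-183,0,0⟩,⟨0,-183,0⟩,⟨0,0,-183⟩⟩ (1,[(2,183)]) (1,[(1,183)]) (1,[(0,183)]))))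
theorem h183_ok : h183.check (ok 183 4 ⟨3, 3, 3⟩) (fun _ r => r) [] = true := by decide +kernel

def h187 : T := .node ⟨1,0,0⟩ (.node ⟨0,1,0⟩ (.node ⟨0,0,1⟩ (.node ⟨-90,25,162⟩ (.node ⟨25,162,-90⟩ (.node ⟨-90,90,137⟩ (.leaf false ⟨⟨-90,90,137⟩,⟨25,162,-90⟩,⟨162,25,90⟩⟩ (1,[(0,1)]) (1,[(1,1)]) (18,[(3,935),(5,3366),(0,5)])) (.leaf false ⟨⟨-90,25,162⟩,⟨90,162,25⟩,⟨137,-90,90⟩⟩ (1,[(2,1)]) (125,[(1,1620),(2,4176),(0,3851)]) (625,[(1,9905),(2,28044),(0,26244)]))) (.leaf false ⟨⟨-90,25,162⟩,⟨90,162,25⟩,⟨137,-90,90⟩⟩ (1,[(1,1)]) (18,[(4,1745),(3,3726),(0,5)]) (1,[(4,162),(3,72),(0,1)]))) (.leaf false ⟨⟨18,186,-7⟩,⟨126,-7,138⟩,⟨137,-18,-126⟩⟩ (5,[(1,127),(0,1),(2,955)]) (5,[(1,1824),(0,7),(2,140)]) (90,[(1,10854),(0,137),(2,1805)])))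 (.node ⟨-88,165,0⟩ (.leaf false ⟨⟨-88,165,0⟩,⟨0,0,-187⟩,⟨165,88,0⟩⟩ (1,[(0,1)]) (1,[(1,187)]) (15,[(3,3179),(0,8)])) (.leaf false ⟨⟨0,0,-187⟩,⟨88,165,0⟩,⟨165,-88,0⟩⟩ (1,[(1,187)]) (1,[(0,1),(2,330)]) (8,[(0,15),(2,1771)])))) (.node ⟨0,0,1⟩ (.node ⟨-88,0,165⟩ (.leaf false ⟨⟨-88,0,165⟩,⟨0,-187,0⟩,⟨165,0,88⟩⟩ (1,[(0,1)]) (1,[(2,187)]) (15,[(3,3179),(0,8)])) (.leaf false ⟨⟨0,-187,0⟩,⟨88,0,165⟩,⟨165,0,-88⟩⟩ (1,[(2,187)]) (1,[(1,330),(0,1)]) (8,[(1,1771),(0,15)]))) (.node ⟨174,-38,57⟩ (.node ⟨-78,-146,-87⟩ (.node ⟨74,57,-162⟩ (.leaf false ⟨⟨-78,-146,-87⟩,⟨74,57,-162⟩,⟨153,-102,34⟩⟩ (1,[(1,1)]) (1,[(0,1)]) (58,[(3,935),(2,51),(4,3978)])) (.leaf false ⟨⟨-126,-138,-7⟩,⟨18,-7,-186⟩,⟨137,-126,18⟩⟩ (19,[(3,7585),(5,1010),(0,46)])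 (57,[(3,11736),(5,1544),(0,7)]) (19,[(3,6462),(5,5711),(0,42)]))) (.leaf false ⟨⟨6,-183,-38⟩,⟨57,38,-174⟩,⟨178,-6,57⟩⟩ (13,[(2,581),(0,1),(3,2525)]) (26,[(2,6177),(0,19),(3,1786)]) (39,[(2,5520),(0,89),(3,13228)]))) (.leaf false ⟨⟨-126,-7,-138⟩,⟨18,-186,-7⟩,⟨137,18,-126⟩⟩ (19,[(3,5610),(2,1881),(0,46)]) (57,[(3,2244),(2,10868),(0,7)]) (19,[(3,9911),(2,1254),(0,42)]))))) (.node ⟨0,1,0⟩ (.node ⟨0,0,1⟩ (.node ⟨0,-88,165⟩ (.leaf false ⟨⟨-187,0,0⟩,⟨0,-88,165⟩,⟨0,165,88⟩⟩ (1,[(3,187)]) (1,[(0,1)]) (15,[(0,8),(2,3179)])) (.leaf false ⟨⟨-187,0,0⟩,⟨0,88,165⟩,⟨0,165,-88⟩⟩ (1,[(3,187)]) (1,[(1,330),(0,1)]) (8,[(1,1771),(0,15)]))) (.node ⟨-38,174,57⟩ (.node ⟨-146,-78,-87⟩ (.node ⟨57,74,-162⟩ (.leaf false ⟨⟨-146,-78,-87⟩,⟨-102,153,34⟩,⟨57,74,-162⟩⟩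 (1,[(1,1)]) (58,[(3,935),(5,3978),(2,51)]) (1,[(0,1)])) (.leaf false ⟨⟨-183,-38,-6⟩,⟨-38,174,57⟩,⟨-6,57,-178⟩⟩ (19,[(3,9996),(0,61),(4,3792)]) (3,[(3,153),(0,2),(4,670)]) (19,[(3,3706),(0,2),(4,1231)]))) (.leaf false ⟨⟨-183,6,-38⟩,⟨-6,178,57⟩,⟨38,57,-174⟩⟩ (13,[(2,581),(4,2525),(0,1)]) (39,[(2,5520),(4,13228),(0,89)]) (26,[(2,6177),(4,1786),(0,19)]))) (.leaf false ⟨⟨-186,18,-7⟩,⟨-7,-126,-138⟩,⟨18,137,-126⟩⟩ (57,[(3,10868),(2,2244),(0,7)]) (19,[(3,1881),(2,5610),(0,46)]) (19,[(3,1254),(2,9911),(0,42)])))) (.node ⟨0,0,1⟩ (.node ⟨-38,57,174⟩ (.node ⟨-146,-87,-78⟩ (.node ⟨57,-162,74⟩ (.leaf false ⟨⟨-146,-87,-78⟩,⟨-102,34,153⟩,⟨57,-162,74⟩⟩ (1,[(1,1)]) (58,[(2,51),(5,3978),(4,935)]) (1,[(0,1)])) (.leaf false ⟨⟨-183,-6,-38⟩,⟨-38,57,174⟩,⟨-6,-178,57⟩⟩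 (19,[(3,3792),(0,61),(4,9996)]) (3,[(3,670),(0,2),(4,153)]) (19,[(3,1231),(0,2),(4,3706)]))) (.leaf false ⟨⟨-183,-38,6⟩,⟨-6,57,178⟩,⟨38,-174,57⟩⟩ (13,[(4,2525),(3,581),(0,1)]) (39,[(4,13228),(3,5520),(0,89)]) (26,[(4,1786),(3,6177),(0,19)]))) (.leaf false ⟨⟨-186,-7,18⟩,⟨-7,-138,-126⟩,⟨18,-126,137⟩⟩ (57,[(1,2244),(3,10868),(0,7)]) (19,[(1,5610),(3,1881),(0,46)]) (19,[(1,9911),(3,1254),(0,42)]))) (.leaf false ⟨⟨-187,0,0⟩,⟨0,-187,0⟩,⟨0,0,-187⟩⟩ (1,[(2,187)]) (1,[(1,187)]) (1,[(0,187)]))))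
theorem h187_ok : h187.check (ok 187 4 ⟨3, 3, 3⟩) (fun _ r => r) [] = true := by decide +kernel


end H34S
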