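import Pool.Agent.Lib.H34S.Cover

/-!
# H34S: certificates (generated), hexagonal numbers
-/

set_option autoImplicit false

namespace H34S

def h191 : T := .node ⟨1,0,0⟩ (.node ⟨0,1,0⟩ (.node ⟨0,0,1⟩ (.node ⟨-126,54,133⟩ (.node ⟨21,182,-54⟩ (.leaf false ⟨⟨-126,54,133⟩,⟨21,182,-54⟩,⟨142,21,126⟩⟩ (1,[(1,1)]) (1,[(0,1)]) (18,[(2,1337),(4,3438),(1,7)])) (.leaf false ⟨⟨-126,21,142⟩,⟨54,182,21⟩,⟨133,-54,126⟩⟩ (191,[(3,4011),(1,182),(0,54)]) (19,[(4,1404),(3,3296),(1,3)]) (3,[(4,546),(3,1112),(0,7)]))) (.leaf false ⟨⟨21,182,54⟩,⟨126,-54,133⟩,⟨142,21,-126⟩⟩ (6,[(1,457),(0,1),(2,1146)]) (1,[(1,266),(0,1)]) (63,[(1,1505),(0,71),(2,5157)]))) (.node ⟨174,38,69⟩ (.node ⟨-6,178,69⟩ (.node ⟨-43,66,-174⟩ (.leaf false ⟨⟨-43,66,-174⟩,⟨-6,178,69⟩,⟨186,21,-38⟩⟩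 (1,[(0,1)]) (1,[(1,1)]) (38,[(3,2893),(5,3414),(2,21)])) (.leaf false ⟨⟨-6,186,-43⟩,⟨69,-38,-174⟩,⟨178,21,66⟩⟩ (3629,[(3,422492),(0,24),(1,3801)]) (3629,[(3,1780884),(0,6027),(1,1460)]) (7258,[(3,5928831),(0,31810),(1,12651)]))) (.leaf false ⟨⟨6,-43,-186⟩,⟨69,174,-38⟩,⟨178,-66,21⟩⟩ (1,[(2,117),(0,1),(3,135)]) (58,[(2,3791),(1,23),(3,9218)]) (1035,[(0,719),(1,1034),(3,20380)]))) (.leaf false ⟨⟨-174,-27,-74⟩,⟨-11,186,-42⟩,⟨78,-34,-171⟩⟩ (69,[(3,870),(2,949),(0,74)]) (23,[(3,2183),(2,4810),(0,14)]) (23,[(3,11712),(2,1384),(0,57)])))) (.node ⟨0,0,1⟩ (.node ⟨174,69,38⟩ (.node ⟨-6,69,178⟩ (.node ⟨-43,-174,66⟩ (.leaf false ⟨⟨-43,-174,66⟩,⟨-6,69,178⟩,⟨186,-38,21⟩⟩ (1,[(0,1)]) (1,[(1,1)]) (38,[(2,21),(5,3414),(4,2893)])) (.leaf false ⟨⟨-6,-43,186⟩,⟨69,-174,-38⟩,⟨178,66,21⟩⟩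 (3629,[(4,422492),(1,3801),(0,24)]) (3629,[(4,1780884),(1,1460),(0,6027)]) (7258,[(4,5928831),(1,12651),(0,31810)]))) (.leaf false ⟨⟨6,-186,-43⟩,⟨69,-38,174⟩,⟨178,21,-66⟩⟩ (1,[(2,135),(0,1),(3,117)]) (58,[(2,9218),(1,23),(3,3791)]) (1035,[(2,20380),(1,1034),(0,719)]))) (.leaf false ⟨⟨-174,-74,-27⟩,⟨-11,-42,186⟩,⟨78,-171,-34⟩⟩ (69,[(1,949),(3,870),(0,74)]) (23,[(1,4810),(3,2183),(0,14)]) (23,[(1,1384),(3,11712),(0,57)]))) (.node ⟨-78,-171,-34⟩ (.node ⟨42,74,-171⟩ (.node ⟨186,-27,34⟩ (.leaf false ⟨⟨-11,-174,-78⟩,⟨42,74,-171⟩,⟨186,-27,34⟩⟩ (57,[(3,2474),(5,3897),(2,58)]) (1,[(1,1)]) (1,[(0,1)])) (.leaf false ⟨⟨-186,-6,-43⟩,⟨21,-178,-66⟩,⟨38,69,-174⟩⟩ (34,[(5,1674),(4,1365),(0,43)]) (17,[(5,6495),(4,3917),(0,33)]) (17,[(5,16828),(4,1176),(0,87)])))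 (.leaf false ⟨⟨-42,-74,-171⟩,⟨-11,-174,78⟩,⟨186,-27,-34⟩⟩ (1,[(2,342),(0,1)]) (37,[(2,11991),(4,3247),(0,87)]) (74,[(2,7133),(4,14898),(0,27)]))) (.leaf false ⟨⟨6,-123,-146⟩,⟨101,126,-102⟩,⟨162,-74,69⟩⟩ (13,[(1,1932),(0,1),(2,1770)]) (78,[(1,11390),(0,101),(2,7443)]) (13,[(1,21),(0,27),(2,5579)]))))) (.node ⟨0,1,0⟩ (.node ⟨0,0,1⟩ (.node ⟨69,38,174⟩ (.node ⟨69,178,-6⟩ (.node ⟨-174,66,-43⟩ (.leaf false ⟨⟨-174,66,-43⟩,⟨-38,21,186⟩,⟨69,178,-6⟩⟩ (1,[(0,1)]) (38,[(3,3414),(5,2893),(2,21)]) (1,[(1,1)])) (.leaf false ⟨⟨-182,21,54⟩,⟨21,-142,126⟩,⟨54,126,133⟩⟩ (7258,[(5,3323591),(1,4467),(0,9738)]) (3629,[(5,1877148),(1,1105),(0,10788)]) (3629,[(5,2419206),(1,7098),(0,12215)]))) (.leaf false ⟨⟨-186,-43,6⟩,⟨-38,174,69⟩,⟨21,-66,178⟩⟩ (1,[(4,117),(3,135),(0,1)])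 (58,[(4,3791),(3,9218),(1,23)]) (1035,[(3,20380),(1,1034),(0,719)]))) (.leaf false ⟨⟨-174,-27,74⟩,⟨-78,34,-171⟩,⟨-11,186,42⟩⟩ (23,[(1,11794),(0,58),(2,1583)]) (23,[(1,591),(0,26),(2,1770)]) (69,[(1,4812),(0,11),(2,13252)]))) (.node ⟨-34,-78,-171⟩ (.node ⟨-171,42,74⟩ (.node ⟨34,186,-27⟩ (.leaf false ⟨⟨-171,42,74⟩,⟨-78,-11,-174⟩,⟨34,186,-27⟩⟩ (1,[(1,1)]) (57,[(2,58),(5,2474),(4,3897)]) (1,[(0,1)])) (.leaf false ⟨⟨-186,-11,42⟩,⟨-34,-78,-171⟩,⟨-27,174,-74⟩⟩ (17,[(3,1797),(0,93),(4,17111)]) (1,[(3,198),(0,1),(4,108)]) (34,[(3,3245),(0,27),(4,10938)]))) (.leaf false ⟨⟨-174,-27,-74⟩,⟨-11,186,-42⟩,⟨78,-34,-171⟩⟩ (1,[(4,345),(3,15),(0,1)]) (37,[(4,3998),(3,7764),(0,21)]) (74,[(4,23469),(3,4666),(0,171)]))) (.leaf false ⟨⟨-182,54,21⟩,⟨21,126,-142⟩,⟨54,133,126⟩⟩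 (13,[(1,1266),(3,2672),(0,9)]) (13,[(1,5437),(3,441),(0,21)]) (78,[(1,12915),(3,310),(0,133)])))) (.node ⟨0,0,1⟩ (.node ⟨-34,-171,-78⟩ (.node ⟨-171,74,42⟩ (.node ⟨34,-27,186⟩ (.leaf false ⟨⟨-171,74,42⟩,⟨-78,-174,-11⟩,⟨34,-27,186⟩⟩ (1,[(1,1)]) (57,[(3,3897),(5,2474),(2,58)]) (1,[(0,1)])) (.leaf false ⟨⟨-186,21,38⟩,⟨-43,-66,-174⟩,⟨-6,-178,69⟩⟩ (17,[(3,17944),(0,93),(4,2154)]) (34,[(3,2082),(0,43),(4,3405)]) (17,[(3,1731),(0,3),(4,3107)]))) (.leaf false ⟨⟨-174,-74,-27⟩,⟨-11,-42,186⟩,⟨78,-171,-34⟩⟩ (1,[(2,15),(4,345),(0,1)]) (37,[(2,7764),(4,3998),(0,21)]) (74,[(2,4666),(4,23469),(0,171)]))) (.leaf false ⟨⟨-182,21,54⟩,⟨21,-142,126⟩,⟨54,126,133⟩⟩ (13,[(3,2672),(2,1266),(0,9)]) (13,[(3,441),(2,5437),(0,21)]) (78,[(3,310),(2,12915),(0,133)])))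 (.leaf false ⟨⟨-191,0,0⟩,⟨0,-191,0⟩,⟨0,0,-191⟩⟩ (1,[(2,191)]) (1,[(1,191)]) (1,[(0,191)]))))
theorem h191_ok : h191.check (ok 191 4 ⟨3, 3, 3⟩) (fun _ r => r) [] = true := by decide +kernel

def h193 : T := .node ⟨1,0,0⟩ (.node ⟨0,1,0⟩ (.node ⟨0,0,1⟩ (.leaf false ⟨⟨0,0,193⟩,⟨0,193,0⟩,⟨193,0,0⟩⟩ (1,[(0,193)]) (1,[(1,193)]) (1,[(2,193)])) (.node ⟨-95,0,-168⟩ (.leaf false ⟨⟨-95,0,-168⟩,⟨0,193,0⟩,⟨168,0,-95⟩⟩ (1,[(0,1)]) (1,[(2,193)]) (168,[(3,37249),(0,95)])) (.node ⟨156,-103,-48⟩ (.leaf false ⟨⟨12,57,-184⟩,⟨76,168,57⟩,⟨177,-76,-12⟩⟩ (13,[(2,2344),(0,1),(3,844)]) (5,[(2,387),(1,4),(3,840)]) (2564,[(0,2573),(1,552),(3,70155)])) (.leaf false ⟨⟨-132,121,72⟩,⟨49,132,-132⟩,⟨132,72,121⟩⟩ (1957,[(2,146856),(1,1056),(0,2299)]) (9785,[(2,6200892),(1,25639),(0,12540)])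 (9785,[(2,3315439),(1,24828),(0,6840)]))))) (.node ⟨0,0,1⟩ (.node ⟨-95,-168,0⟩ (.leaf false ⟨⟨-95,-168,0⟩,⟨0,0,193⟩,⟨168,-95,0⟩⟩ (1,[(0,1)]) (1,[(1,193)]) (168,[(3,37249),(0,95)])) (.node ⟨156,-48,-103⟩ (.leaf false ⟨⟨12,-184,57⟩,⟨76,57,168⟩,⟨177,-12,-76⟩⟩ (13,[(2,844),(0,1),(3,2344)]) (5,[(2,840),(1,4),(3,387)]) (2564,[(2,70155),(1,552),(0,2573)])) (.leaf false ⟨⟨-132,49,132⟩,⟨72,-132,121⟩,⟨121,132,72⟩⟩ (9785,[(1,6996),(3,1297783),(0,12540)]) (9785,[(1,26292),(3,6260436),(0,11495)]) (1957,[(1,4739),(3,603492),(0,1368)])))) (.node ⟨33,-176,72⟩ (.node ⟨184,48,33⟩ (.leaf false ⟨⟨33,-176,72⟩,⟨48,-63,-176⟩,⟨184,48,33⟩⟩ (1,[(1,1)]) (23,[(2,4246),(0,6),(3,1737)]) (1,[(0,1)])) (.leaf false ⟨⟨-135,-132,-40⟩,⟨68,-15,-180⟩,⟨120,-140,57⟩⟩ (8492,[(2,428267),(1,4452),(0,7029)])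 (16,[(2,2715),(4,2008),(0,5)]) (44,[(2,12),(4,4125),(1,35)]))) (.leaf false ⟨⟨-72,33,-176⟩,⟨33,-184,-48⟩,⟨176,48,-63⟩⟩ (9,[(3,78),(2,3575),(0,22)]) (3,[(3,165),(2,904),(0,2)]) (8,[(3,1639),(2,848),(0,7)]))))) (.node ⟨0,1,0⟩ (.node ⟨0,0,1⟩ (.node ⟨-168,-95,0⟩ (.leaf false ⟨⟨-168,-95,0⟩,⟨-95,168,0⟩,⟨0,0,193⟩⟩ (1,[(0,1)]) (168,[(0,95),(2,37249)]) (1,[(1,193)])) (.node ⟨-48,156,-103⟩ (.leaf false ⟨⟨-184,12,57⟩,⟨-12,177,-76⟩,⟨57,76,168⟩⟩ (13,[(2,844),(4,2344),(0,1)]) (2564,[(2,70155),(0,2573),(1,552)]) (5,[(2,840),(4,387),(1,4)])) (.leaf false ⟨⟨-184,-12,57⟩,⟨12,177,76⟩,⟨57,-76,168⟩⟩ (9785,[(4,3346568),(1,7656),(0,5415)]) (9785,[(4,5283756),(1,30087),(0,7220)]) (1957,[(4,659235),(1,3676),(0,3192)])))) (.node ⟨-176,33,72⟩ (.node ⟨48,184,33⟩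 (.leaf false ⟨⟨-176,33,72⟩,⟨-63,48,-176⟩,⟨48,184,33⟩⟩ (1,[(1,1)]) (23,[(2,4246),(4,1737),(0,6)]) (1,[(0,1)])) (.leaf false ⟨⟨-180,40,57⟩,⟨-68,-135,-120⟩,⟨-15,132,-140⟩⟩ (44,[(2,732),(1,45),(3,275)]) (12,[(2,879),(0,17),(3,1508)]) (16,[(2,2075),(0,5),(3,3032)]))) (.leaf false ⟨⟨-184,33,-48⟩,⟨33,-72,-176⟩,⟨48,176,-63⟩⟩ (3,[(3,904),(2,165),(0,2)]) (9,[(3,3575),(2,78),(0,22)]) (8,[(3,848),(2,1639),(0,7)])))) (.node ⟨0,0,1⟩ (.node ⟨72,-176,33⟩ (.node ⟨33,48,184⟩ (.leaf false ⟨⟨-176,-63,48⟩,⟨33,48,184⟩,⟨72,-176,33⟩⟩ (23,[(4,4246),(3,1737),(0,6)]) (1,[(0,1)]) (1,[(1,1)])) (.leaf false ⟨⟨-180,-15,68⟩,⟨-40,-132,-135⟩,⟨57,-140,120⟩⟩ (16,[(2,2008),(4,2715),(0,5)]) (2316,[(2,428267),(0,4136),(1,609)]) (44,[(2,4125),(4,12),(1,35)]))) (.leaf false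 ⟨⟨-176,33,-72⟩,⟨-63,48,176⟩,⟨-48,-184,33⟩⟩ (9,[(1,78),(0,22),(2,3575)]) (8,[(1,1639),(0,7),(2,848)]) (3,[(1,165),(0,2),(2,904)]))) (.node ⟨-84,113,-132⟩ (.node ⟨-167,-12,96⟩ (.leaf false ⟨⟨-167,-12,96⟩,⟨-84,113,-132⟩,⟨-48,-156,-103⟩⟩ (1,[(0,1)]) (1,[(1,1)]) (7,[(2,193),(1,4),(3,1544)])) (.leaf false ⟨⟨-156,-103,-48⟩,⟨-12,96,-167⟩,⟨113,-132,-84⟩⟩ (2,[(4,479),(3,218),(0,1)]) (9264,[(1,7212),(4,540593),(0,6199)]) (8,[(4,265),(3,1140),(0,7)]))) (.leaf false ⟨⟨-180,-68,-15⟩,⟨40,-135,132⟩,⟨57,-120,-140⟩⟩ (113,[(1,10671),(3,26052),(0,68)]) (113,[(1,2904),(3,6820),(0,135)]) (113,[(1,31660),(3,3639),(0,120)])))))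
theorem h193_ok : h193.check (ok 193 4 ⟨3, 3, 3⟩) (fun _ r => r) [] = true := by decide +kernel

def h197 : T := .node ⟨1,0,0⟩ (.node ⟨0,1,0⟩ (.node ⟨0,0,1⟩ (.leaf false ⟨⟨0,0,197⟩,⟨0,197,0⟩,⟨197,0,0⟩⟩ (1,[(0,197)]) (1,[(1,197)]) (1,[(2,197)])) (.node ⟨-99,28,-168⟩ (.node ⟨48,189,28⟩ (.node ⟨168,-28,-99⟩ (.leaf false ⟨⟨-91,48,-168⟩,⟨48,189,28⟩,⟨168,-28,-99⟩⟩ (1,[(5,8),(4,20),(2,1)]) (1,[(1,1)]) (1,[(0,1)])) (.leaf false ⟨⟨-192,37,24⟩,⟨-3,96,-172⟩,⟨44,168,93⟩⟩ (28,[(3,2991),(5,840),(0,37)]) (7,[(3,3580),(5,4011),(0,24)]) (1,[(3,501),(5,1052),(0,6)]))) (.leaf false ⟨⟨-152,-24,-123⟩,⟨84,-163,-72⟩,⟨93,108,-136⟩⟩ (28,[(4,1648),(3,22575),(0,123)]) (7,[(4,1452),(3,2261),(0,18)]) (7,[(4,2283),(3,7182),(0,34)]))) (.node ⟨165,-72,80⟩ (.node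 ⟨-3,80,-180⟩ (.leaf false ⟨⟨-3,80,-180⟩,⟨80,165,72⟩,⟨180,-72,-35⟩⟩ (1,[(0,1)]) (99,[(3,6312),(2,80),(4,18575)]) (11,[(3,1345),(1,12),(4,72)])) (.leaf false ⟨⟨24,37,192⟩,⟨93,168,-44⟩,⟨172,-96,-3⟩⟩ (1,[(3,1248),(0,8),(4,677)]) (1,[(3,5624),(0,31),(4,2648)]) (3,[(3,30969),(0,172),(4,13472)]))) (.leaf false ⟨⟨-172,93,24⟩,⟨-3,44,-192⟩,⟨96,168,37⟩⟩ (2508,[(2,85976),(1,2961),(0,4391)]) (209,[(2,110264),(1,587),(0,356)]) (209,[(2,348315),(1,2886),(0,1610)]))))) (.node ⟨0,0,1⟩ (.node ⟨-99,-168,28⟩ (.node ⟨48,28,189⟩ (.node ⟨168,-99,-28⟩ (.leaf false ⟨⟨-91,-168,48⟩,⟨48,28,189⟩,⟨168,-99,-28⟩⟩ (1,[(3,20),(5,8),(2,1)]) (1,[(1,1)]) (1,[(0,1)])) (.leaf false ⟨⟨-192,-3,44⟩,⟨24,-172,93⟩,⟨37,96,168⟩⟩ (7,[(5,504),(4,1110),(0,11)]) (28,[(5,16296),(4,14023),(0,93)])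 (1,[(5,1045),(4,498),(0,6)]))) (.leaf false ⟨⟨-152,-123,-24⟩,⟨84,-72,-163⟩,⟨93,-136,108⟩⟩ (28,[(2,22575),(4,1648),(0,123)]) (7,[(2,2261),(4,1452),(0,18)]) (7,[(2,7182),(4,2283),(0,34)]))) (.node ⟨165,80,-72⟩ (.node ⟨-3,-180,80⟩ (.leaf false ⟨⟨-3,-180,80⟩,⟨80,72,165⟩,⟨180,-35,-72⟩⟩ (1,[(0,1)]) (99,[(3,18575),(2,80),(4,6312)]) (11,[(3,72),(1,12),(4,1345)])) (.leaf false ⟨⟨24,37,192⟩,⟨93,168,-44⟩,⟨172,-96,-3⟩⟩ (1,[(3,832),(0,8),(4,1403)]) (1,[(3,2436),(0,31),(4,5412)]) (3,[(3,13751),(0,172),(4,31248)]))) (.leaf false ⟨⟨-172,-3,96⟩,⟨24,-192,37⟩,⟨93,44,168⟩⟩ (627,[(1,864),(3,53273),(0,1172)]) (836,[(1,2611),(3,483560),(0,1445)]) (209,[(1,2868),(3,344388),(0,1603)])))) (.node ⟨0,28,-195⟩ (.leaf false ⟨⟨0,-195,-28⟩,⟨0,28,-195⟩,⟨197,0,0⟩⟩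 (195,[(0,28),(2,38809)]) (1,[(0,1)]) (1,[(3,197)])) (.leaf false ⟨⟨0,-195,28⟩,⟨0,-28,-195⟩,⟨197,0,0⟩⟩ (28,[(1,37241),(0,195)]) (1,[(1,390),(0,1)]) (1,[(3,197)]))))) (.node ⟨0,1,0⟩ (.node ⟨0,0,1⟩ (.node ⟨-180,-80,-3⟩ (.node ⟨-72,165,-80⟩ (.leaf false ⟨⟨-180,-80,-3⟩,⟨-72,165,-80⟩,⟨-35,72,180⟩⟩ (1,[(1,1)]) (1,[(0,1)]) (36,[(2,6501),(1,7),(3,3152)])) (.leaf false ⟨⟨-192,-44,-3⟩,⟨-24,93,172⟩,⟨37,-168,96⟩⟩ (1182,[(1,1262),(3,49447),(0,3)]) (591,[(1,596),(3,315988),(0,1293)]) (14184,[(1,3952),(3,766133),(0,17169)]))) (.node ⟨-3,-44,192⟩ (.leaf false ⟨⟨-96,168,37⟩,⟨-3,-44,192⟩,⟨172,93,24⟩⟩ (192,[(4,18321),(3,33884),(0,37)]) (1,[(0,1)]) (5164,[(4,244871),(1,6304),(0,547)])) (.leaf false ⟨⟨-192,37,24⟩,⟨-3,96,-172⟩,⟨44,168,93⟩⟩ (44,[(2,8160),(4,8559),(0,37)])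 (11,[(2,2716),(4,105),(0,24)]) (10,[(2,867),(4,3340),(1,21)])))) (.node ⟨28,0,-195⟩ (.leaf false ⟨⟨-195,0,-28⟩,⟨0,197,0⟩,⟨28,0,-195⟩⟩ (195,[(3,38809),(0,28)]) (1,[(2,197)]) (1,[(0,1)])) (.leaf false ⟨⟨-195,0,28⟩,⟨-28,0,-195⟩,⟨0,197,0⟩⟩ (28,[(1,37241),(0,195)]) (1,[(1,390),(0,1)]) (1,[(2,197)])))) (.node ⟨0,0,1⟩ (.node ⟨28,-195,0⟩ (.leaf false ⟨⟨-195,-28,0⟩,⟨0,0,197⟩,⟨28,-195,0⟩⟩ (195,[(3,38809),(0,28)]) (1,[(1,197)]) (1,[(0,1)])) (.leaf false ⟨⟨-195,28,0⟩,⟨-28,-195,0⟩,⟨0,0,197⟩⟩ (28,[(0,195),(2,37241)]) (1,[(0,1),(2,390)]) (1,[(1,197)]))) (.node ⟨-108,93,-136⟩ (.node ⟨-136,-108,93⟩ (.node ⟨72,-163,-84⟩ (.leaf false ⟨⟨-163,-84,72⟩,⟨-108,93,-136⟩,⟨24,-152,-123⟩⟩ (9,[(3,3),(5,515),(1,7)]) (1,[(2,1)]) (3,[(3,285),(4,293),(0,1)])) (.leaf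 false ⟨⟨-136,93,108⟩,⟨-123,-152,-24⟩,⟨-72,84,-163⟩⟩ (9,[(3,456),(0,17),(4,1934)]) (24,[(3,4020),(0,41),(4,10331)]) (1,[(3,247),(0,1),(4,79)]))) (.leaf false ⟨⟨-152,-24,-123⟩,⟨84,-163,-72⟩,⟨93,108,-136⟩⟩ (31,[(4,10288),(3,5172),(0,41)]) (31,[(4,660),(3,7645),(0,24)]) (93,[(4,9847),(3,4644),(0,136)]))) (.leaf false ⟨⟨-163,-72,84⟩,⟨-24,-123,-152⟩,⟨108,-136,93⟩⟩ (31,[(1,660),(3,7645),(0,24)]) (31,[(1,10288),(3,5172),(0,41)]) (93,[(1,9847),(3,4644),(0,136)])))))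
theorem h197_ok : h197.check (ok 197 4 ⟨3, 3, 3⟩) (fun _ r => r) [] = true := by decide +kernel

def h199 : T := .node ⟨1,0,0⟩ (.node ⟨0,1,0⟩ (.node ⟨0,0,1⟩ (.node ⟨-138,26,141⟩ (.node ⟨82,174,-51⟩ (.node ⟨141,-26,138⟩ (.leaf false ⟨⟨-114,93,134⟩,⟨82,174,-51⟩,⟨141,-26,138⟩⟩ (23,[(3,403),(4,1645),(2,19)]) (1,[(1,1)]) (1,[(0,1)])) (.leaf false ⟨⟨-174,82,-51⟩,⟨26,141,138⟩,⟨93,114,-134⟩⟩ (13,[(3,4995),(5,3519),(0,41)]) (26,[(3,23046),(5,20557),(0,141)]) (13,[(3,6124),(5,9246),(0,57)]))) (.leaf false ⟨⟨-147,-46,126⟩,⟨-6,189,62⟩,⟨134,-42,141⟩⟩ (17,[(4,945),(3,6526),(0,42)]) (51,[(4,4778),(3,20427),(0,62)]) (17,[(4,6132),(3,7464),(0,47)]))) (.node ⟨-51,174,82⟩ (.leaf false ⟨⟨-51,174,82⟩,⟨134,93,-114⟩,⟨138,-26,141⟩⟩ (1,[(0,1)]) (114,[(2,161),(1,141),(0,82)])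 (1,[(2,282),(1,1)])) (.leaf false ⟨⟨42,46,189⟩,⟨134,-147,6⟩,⟨141,126,-62⟩⟩ (17,[(2,4361),(0,14),(3,3218)]) (51,[(2,11294),(0,134),(3,15819)]) (17,[(2,2800),(0,47),(3,10320)])))) (.node ⟨-99,78,-154⟩ (.node ⟨118,-99,-126⟩ (.leaf false ⟨⟨-99,78,-154⟩,⟨118,-99,-126⟩,⟨126,154,-3⟩⟩ (1,[(1,1)]) (1,[(0,1)]) (42,[(4,5174),(3,6567),(0,1)])) (.leaf false ⟨⟨-134,114,93⟩,⟨-51,82,-174⟩,⟨138,141,26⟩⟩ (33,[(2,1719),(4,62),(0,38)]) (39,[(2,472),(4,2070),(1,41)]) (33,[(2,5064),(4,10100),(0,47)]))) (.leaf false ⟨⟨26,141,-138⟩,⟨93,114,134⟩,⟨174,-82,-51⟩⟩ (99,[(1,17666),(0,26),(2,15987)]) (33,[(1,352),(0,31),(2,6180)]) (33,[(1,10615),(0,58),(2,1818)])))) (.node ⟨0,0,1⟩ (.node ⟨-99,-154,78⟩ (.node ⟨118,-126,-99⟩ (.leaf false ⟨⟨-99,-154,78⟩,⟨118,-126,-99⟩,⟨126,-3,154⟩⟩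 (1,[(1,1)]) (1,[(0,1)]) (42,[(2,6567),(4,5174),(0,1)])) (.leaf false ⟨⟨-134,-51,138⟩,⟨93,-174,26⟩,⟨114,82,141⟩⟩ (33,[(4,1006),(3,7479),(0,46)]) (3,[(4,378),(3,368),(1,1)]) (33,[(4,9308),(3,3216),(0,47)]))) (.leaf false ⟨⟨26,-138,141⟩,⟨93,134,114⟩,⟨174,-51,-82⟩⟩ (99,[(1,15987),(0,26),(2,17666)]) (33,[(1,6180),(0,31),(2,352)]) (33,[(1,1818),(0,58),(2,10615)]))) (.node ⟨125,-90,126⟩ (.node ⟨-90,-174,-35⟩ (.leaf false ⟨⟨-90,-174,-35⟩,⟨125,-90,126⟩,⟨126,-35,-150⟩⟩ (1,[(0,1)]) (1,[(1,1)]) (18,[(2,3582),(4,1393),(1,7)])) (.leaf false ⟨⟨82,-51,-174⟩,⟨114,-134,93⟩,⟨141,138,26⟩⟩ (45,[(2,9265),(0,41),(3,9429)]) (125,[(2,2739),(1,114),(3,6490)]) (30,[(2,865),(0,47),(3,4038)]))) (.leaf false ⟨⟨-126,-35,-150⟩,⟨90,-174,-35⟩,⟨125,90,-126⟩⟩ (21,[(3,479),(2,2985),(0,25)])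 (18,[(3,2245),(2,3582),(0,5)]) (1,[(3,250),(0,1)]))))) (.node ⟨0,1,0⟩ (.node ⟨0,0,1⟩ (.node ⟨-154,-99,78⟩ (.node ⟨-126,118,-99⟩ (.leaf false ⟨⟨-154,-99,78⟩,⟨-126,118,-99⟩,⟨-3,126,154⟩⟩ (1,[(1,1)]) (1,[(0,1)]) (42,[(2,6567),(0,1),(3,5174)])) (.leaf false ⟨⟨-174,-51,82⟩,⟨26,138,141⟩,⟨93,-134,114⟩⟩ (39,[(1,41),(4,472),(3,2070)]) (33,[(4,5064),(3,10100),(0,47)]) (33,[(4,1719),(3,62),(0,38)]))) (.leaf false ⟨⟨-147,126,-46⟩,⟨-6,62,189⟩,⟨134,141,-42⟩⟩ (11,[(1,586),(3,3773),(0,14)]) (99,[(1,23547),(3,10142),(0,62)]) (33,[(1,2280),(3,2816),(0,47)]))) (.node ⟨-90,125,126⟩ (.node ⟨-174,-90,-35⟩ (.leaf false ⟨⟨-174,-90,-35⟩,⟨-90,125,126⟩,⟨-35,126,-150⟩⟩ (1,[(0,1)]) (1,[(1,1)]) (18,[(2,3582),(1,7),(3,1393)])) (.leaf false ⟨⟨-134,114,93⟩,⟨-51,82,-174⟩,⟨138,141,26⟩⟩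 (125,[(2,2739),(4,6490),(1,114)]) (45,[(2,9265),(4,9429),(0,41)]) (30,[(2,865),(4,4038),(0,47)]))) (.leaf false ⟨⟨-174,90,-35⟩,⟨-35,-126,-150⟩,⟨90,125,-126⟩⟩ (18,[(3,3582),(2,2245),(0,5)]) (21,[(3,2985),(2,479),(0,25)]) (1,[(2,250),(0,1)])))) (.node ⟨0,0,1⟩ (.node ⟨-90,126,125⟩ (.node ⟨-174,-35,-90⟩ (.leaf false ⟨⟨-174,-35,-90⟩,⟨-90,126,125⟩,⟨-35,-150,126⟩⟩ (1,[(0,1)]) (1,[(1,1)]) (18,[(2,1393),(1,7),(3,3582)])) (.leaf false ⟨⟨-134,93,114⟩,⟨-51,-174,82⟩,⟨138,26,141⟩⟩ (125,[(1,114),(4,6490),(3,2739)]) (45,[(4,9429),(3,9265),(0,41)]) (30,[(4,4038),(3,865),(0,47)]))) (.leaf false ⟨⟨-174,-35,90⟩,⟨-35,-150,-126⟩,⟨90,-126,125⟩⟩ (18,[(1,2245),(3,3582),(0,5)]) (21,[(1,479),(3,2985),(0,25)]) (1,[(1,250),(0,1)]))) (.leaf false ⟨⟨-199,0,0⟩,⟨0,-199,0⟩,⟨0,0,-199⟩⟩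 (1,[(2,199)]) (1,[(1,199)]) (1,[(0,199)]))))
theorem h199_ok : h199.check (ok 199 4 ⟨3, 3, 3⟩) (fun _ r => r) [] = true := by decide +kernel

def h203 : T := .node ⟨1,0,0⟩ (.node ⟨0,1,0⟩ (.node ⟨0,0,1⟩ (.node ⟨-39,-22,198⟩ (.node ⟨-22,201,18⟩ (.leaf false ⟨⟨-39,-22,198⟩,⟨-22,201,18⟩,⟨198,18,41⟩⟩ (1,[(1,1)]) (1,[(0,1)]) (198,[(4,40803),(3,4466),(1,41)])) (.leaf false ⟨⟨-39,22,198⟩,⟨22,201,-18⟩,⟨198,-18,41⟩⟩ (1,[(3,44),(1,1)]) (1,[(3,402),(0,1)]) (18,[(3,40561),(1,22),(0,201)]))) (.node ⟨-18,202,9⟩ (.leaf false ⟨⟨-18,202,9⟩,⟨121,18,-162⟩,⟨162,9,122⟩⟩ (1,[(0,1)]) (11,[(4,980),(1,9)]) (22,[(2,4466),(4,3213),(1,9)])) (.leaf false ⟨⟨9,18,202⟩,⟨122,-162,9⟩,⟨162,121,-18⟩⟩ (2,[(2,413),(0,1),(3,238)]) (9,[(2,630),(0,61),(3,10864)]) (1,[(2,63),(0,9),(3,1939)]))))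 (.node ⟨-102,57,-166⟩ (.node ⟨58,186,57⟩ (.node ⟨174,-23,-102⟩ (.leaf false ⟨⟨-87,78,-166⟩,⟨58,186,57⟩,⟨174,-23,-102⟩⟩ (1,[(5,15),(4,21),(2,1)]) (1,[(1,1)]) (1,[(0,1)])) (.leaf false ⟨⟨-194,57,18⟩,⟨18,114,-167⟩,⟨57,158,114⟩⟩ (23,[(3,5400),(5,5456),(0,57)]) (23,[(3,15469),(5,20250),(0,114)]) (23,[(3,13494),(5,28803),(0,158)]))) (.leaf false ⟨⟨-135,-22,-150⟩,⟨90,150,-103⟩,⟨122,-135,-90⟩⟩ (19,[(4,335),(3,8882),(0,50)]) (57,[(4,11104),(3,27708),(0,103)]) (19,[(4,4058),(3,3015),(0,30)]))) (.node ⟨130,-78,-135⟩ (.leaf false ⟨⟨30,185,-78⟩,⟨130,-78,-135⟩,⟨153,30,130⟩⟩ (13,[(2,609),(0,3),(3,2639)]) (1,[(0,1)]) (2,[(2,238),(1,3),(3,231)])) (.leaf false ⟨⟨-167,102,54⟩,⟨54,153,-122⟩,⟨102,86,153⟩⟩ (182,[(2,42945),(1,78),(0,295)]) (91,[(2,1098314),(1,4017),(0,3114)])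 (21,[(2,194698),(1,736),(0,561)]))))) (.node ⟨0,0,1⟩ (.node ⟨-102,-166,57⟩ (.node ⟨58,57,186⟩ (.node ⟨174,-102,-23⟩ (.leaf false ⟨⟨-87,-166,78⟩,⟨58,57,186⟩,⟨174,-102,-23⟩⟩ (1,[(3,21),(5,15),(2,1)]) (1,[(1,1)]) (1,[(0,1)])) (.leaf false ⟨⟨-194,18,57⟩,⟨18,-167,114⟩,⟨57,114,158⟩⟩ (23,[(5,5456),(4,5400),(0,57)]) (23,[(5,20250),(4,15469),(0,114)]) (23,[(5,28803),(4,13494),(0,158)]))) (.leaf false ⟨⟨-135,-150,-22⟩,⟨90,-103,150⟩,⟨122,-90,-135⟩⟩ (19,[(2,8882),(4,335),(0,50)]) (57,[(2,27708),(4,11104),(0,103)]) (19,[(2,3015),(4,4058),(0,30)]))) (.node ⟨130,-135,-78⟩ (.leaf false ⟨⟨30,-78,185⟩,⟨130,-135,-78⟩,⟨153,130,30⟩⟩ (13,[(2,2639),(0,3),(3,609)]) (1,[(0,1)]) (2,[(2,231),(1,3),(3,238)])) (.leaf false ⟨⟨-167,18,114⟩,⟨18,-194,57⟩,⟨114,57,158⟩⟩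 (182,[(1,598),(3,190897),(0,703)]) (91,[(1,1469),(3,415408),(0,1140)]) (273,[(1,14716),(3,3953740),(0,11307)])))) (.node ⟨18,-198,41⟩ (.node ⟨18,41,-198⟩ (.node ⟨201,22,18⟩ (.leaf false ⟨⟨18,-198,41⟩,⟨22,-39,-198⟩,⟨201,22,18⟩⟩ (1,[(2,1)]) (201,[(3,40194),(0,22),(4,8323)]) (1,[(0,1)])) (.leaf false ⟨⟨-147,-140,0⟩,⟨0,0,-203⟩,⟨140,-147,0⟩⟩ (6931,[(1,406),(2,4374),(0,5497)]) (12667,[(1,13398),(2,2615),(0,1434)]) (638,[(5,255577),(2,378),(0,861)]))) (.leaf false ⟨⟨-58,-174,-87⟩,⟨57,-102,166⟩,⟨186,-23,-78⟩⟩ (41,[(2,38019),(4,754),(0,174)]) (41,[(2,13390),(4,4173),(0,102)]) (41,[(2,7752),(4,8040),(0,23)]))) (.leaf false ⟨⟨-58,-87,-174⟩,⟨57,166,-102⟩,⟨186,-78,-23⟩⟩ (41,[(3,754),(2,38019),(0,174)]) (41,[(3,4173),(2,13390),(0,102)]) (41,[(3,8040),(2,7752),(0,23)])))))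 (.node ⟨0,1,0⟩ (.node ⟨0,0,1⟩ (.node ⟨-166,-102,57⟩ (.node ⟨57,58,186⟩ (.node ⟨-102,174,-23⟩ (.leaf false ⟨⟨-166,-87,78⟩,⟨-102,174,-23⟩,⟨57,58,186⟩⟩ (1,[(3,21),(2,1),(4,15)]) (1,[(0,1)]) (1,[(1,1)])) (.leaf false ⟨⟨-202,9,18⟩,⟨9,-122,162⟩,⟨18,162,121⟩⟩ (23,[(5,6482),(4,3339),(0,18)]) (23,[(5,16317),(4,25382),(0,162)]) (23,[(5,11928),(4,24780),(0,121)]))) (.leaf false ⟨⟨-174,-103,18⟩,⟨-87,162,86⟩,⟨-58,66,-183⟩⟩ (19,[(2,11130),(0,58),(3,1407)]) (19,[(2,7028),(0,29),(3,4760)]) (57,[(2,357),(0,58),(3,7126)]))) (.node ⟨-135,130,-78⟩ (.leaf false ⟨⟨-135,130,-78⟩,⟨-78,30,185⟩,⟨130,153,30⟩⟩ (1,[(0,1)]) (13,[(2,2639),(4,609),(0,3)]) (2,[(2,231),(4,238),(1,3)])) (.leaf false ⟨⟨-202,9,18⟩,⟨9,-122,162⟩,⟨18,162,121⟩⟩ (182,[(4,310793),(1,1014),(0,783)])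 (91,[(4,533890),(1,1924),(0,1595)]) (273,[(4,3805844),(1,14183),(0,10788)])))) (.node ⟨-198,18,41⟩ (.node ⟨41,18,-198⟩ (.node ⟨22,201,18⟩ (.leaf false ⟨⟨-198,18,41⟩,⟨-39,22,-198⟩,⟨22,201,18⟩⟩ (1,[(2,1)]) (201,[(3,40194),(5,8323),(0,22)]) (1,[(0,1)])) (.leaf false ⟨⟨-203,0,0⟩,⟨0,-147,-140⟩,⟨0,140,-147⟩⟩ (22,[(2,18),(4,7917),(0,41)]) (6931,[(2,314),(1,4466),(0,5497)]) (1698,[(4,622125),(1,1078),(0,2009)]))) (.leaf false ⟨⟨-174,-58,-87⟩,⟨-102,57,166⟩,⟨-23,186,-78⟩⟩ (41,[(2,38019),(0,174),(3,754)]) (41,[(2,13390),(0,102),(3,4173)]) (41,[(2,7752),(0,23),(3,8040)]))) (.leaf false ⟨⟨-87,-58,-174⟩,⟨-78,186,-23⟩,⟨166,57,-102⟩⟩ (41,[(3,38019),(2,754),(0,174)]) (41,[(3,7752),(2,8040),(0,23)]) (41,[(3,13390),(2,4173),(0,102)])))) (.node ⟨0,0,1⟩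 (.node ⟨41,-198,18⟩ (.node ⟨-198,41,18⟩ (.node ⟨18,22,201⟩ (.leaf false ⟨⟨-198,-39,22⟩,⟨18,22,201⟩,⟨41,-198,18⟩⟩ (201,[(5,40194),(4,8323),(0,22)]) (1,[(0,1)]) (1,[(2,1)])) (.leaf false ⟨⟨-203,0,0⟩,⟨0,-147,140⟩,⟨0,-140,-147⟩⟩ (12667,[(1,13398),(0,1434),(2,2615)]) (638,[(3,255577),(0,861),(2,378)]) (6931,[(1,406),(0,5497),(2,4374)]))) (.leaf false ⟨⟨-87,-174,-58⟩,⟨-78,-23,186⟩,⟨166,-102,57⟩⟩ (41,[(2,754),(4,38019),(0,174)]) (41,[(2,8040),(4,7752),(0,23)]) (41,[(2,4173),(4,13390),(0,102)]))) (.leaf false ⟨⟨-174,-87,-58⟩,⟨-102,166,57⟩,⟨-23,-78,186⟩⟩ (41,[(1,754),(0,174),(2,38019)]) (41,[(1,4173),(0,102),(2,13390)]) (41,[(1,8040),(0,23),(2,7752)]))) (.leaf false ⟨⟨-203,0,0⟩,⟨0,-203,0⟩,⟨0,0,-203⟩⟩ (1,[(2,203)]) (1,[(1,203)]) (1,[(0,203)]))))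
theorem h203_ok : h203.check (ok 203 4 ⟨3, 3, 3⟩) (fun _ r => r) [] = true := by decide +kernel

def h205 : T := .node ⟨1,0,0⟩ (.node ⟨0,1,0⟩ (.node ⟨0,0,1⟩ (.leaf false ⟨⟨0,0,205⟩,⟨0,205,0⟩,⟨205,0,0⟩⟩ (1,[(0,205)]) (1,[(1,205)]) (1,[(2,205)])) (.node ⟨0,200,45⟩ (.leaf false ⟨⟨0,45,-200⟩,⟨0,200,45⟩,⟨205,0,0⟩⟩ (40,[(1,8405),(0,9)]) (1,[(0,1)]) (1,[(3,205)])) (.leaf false ⟨⟨0,-187,-84⟩,⟨0,84,-187⟩,⟨205,0,0⟩⟩ (15,[(0,28),(2,2795)]) (45,[(0,187),(2,41180)]) (1,[(3,205)])))) (.node ⟨0,0,1⟩ (.node ⟨0,45,200⟩ (.leaf false ⟨⟨0,-200,45⟩,⟨0,45,200⟩,⟨205,0,0⟩⟩ (40,[(0,9),(2,8405)]) (1,[(0,1)]) (1,[(3,205)])) (.leaf false ⟨⟨0,-187,84⟩,⟨0,-84,-187⟩,⟨205,0,0⟩⟩ (45,[(1,41180),(0,187)]) (15,[(1,2795),(0,28)]) (1,[(3,205)]))) (.node ⟨0,84,-187⟩ (.leaf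 false ⟨⟨0,-187,-84⟩,⟨0,84,-187⟩,⟨205,0,0⟩⟩ (187,[(0,84),(2,42025)]) (1,[(0,1)]) (1,[(3,205)])) (.leaf false ⟨⟨0,-187,84⟩,⟨0,-84,-187⟩,⟨205,0,0⟩⟩ (84,[(1,27913),(0,187)]) (1,[(1,374),(0,1)]) (1,[(3,205)]))))) (.node ⟨0,1,0⟩ (.node ⟨0,0,1⟩ (.node ⟨45,0,200⟩ (.leaf false ⟨⟨-200,0,45⟩,⟨0,205,0⟩,⟨45,0,200⟩⟩ (40,[(3,8405),(0,9)]) (1,[(2,205)]) (1,[(0,1)])) (.leaf false ⟨⟨-187,0,84⟩,⟨-84,0,-187⟩,⟨0,205,0⟩⟩ (45,[(1,41180),(0,187)]) (15,[(1,2795),(0,28)]) (1,[(2,205)]))) (.node ⟨84,0,-187⟩ (.leaf false ⟨⟨-187,0,-84⟩,⟨0,205,0⟩,⟨84,0,-187⟩⟩ (187,[(3,42025),(0,84)]) (1,[(2,205)]) (1,[(0,1)])) (.leaf false ⟨⟨-187,0,84⟩,⟨-84,0,-187⟩,⟨0,205,0⟩⟩ (84,[(1,27913),(0,187)]) (1,[(1,374),(0,1)]) (1,[(2,205)])))) (.node ⟨0,0,1⟩ (.node ⟨84,-187,0⟩ (.leaf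 false ⟨⟨-187,-84,0⟩,⟨0,0,205⟩,⟨84,-187,0⟩⟩ (187,[(3,42025),(0,84)]) (1,[(1,205)]) (1,[(0,1)])) (.leaf false ⟨⟨-187,84,0⟩,⟨-84,-187,0⟩,⟨0,0,205⟩⟩ (84,[(0,187),(2,27913)]) (1,[(0,1),(2,374)]) (1,[(1,205)]))) (.node ⟨-20,60,-195⟩ (.node ⟨-196,60,-3⟩ (.node ⟨-204,-3,20⟩ (.leaf false ⟨⟨-204,-3,20⟩,⟨-20,60,-195⟩,⟨-3,-196,-60⟩⟩ (1,[(0,1)]) (1,[(2,1)]) (20,[(3,615),(2,3),(4,4100)])) (.leaf false ⟨⟨-204,-20,-3⟩,⟨-3,60,-196⟩,⟨20,-195,-60⟩⟩ (1,[(1,1),(5,8),(4,80)]) (397,[(1,204),(5,748647),(0,3860)]) (1,[(5,592),(4,204),(0,3)]))) (.leaf false ⟨⟨-196,-60,-3⟩,⟨-3,20,-204⟩,⟨60,-195,-20⟩⟩ (32,[(1,1),(4,12720),(0,33)]) (192,[(1,203),(4,23760),(0,139)]) (768,[(1,119),(4,464080),(0,2615)]))) (.leaf false ⟨⟨-204,-3,-20⟩,⟨-3,-196,60⟩,⟨20,-60,-195⟩⟩ (20,[(1,595),(3,4100),(0,1)])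 (15,[(1,8655),(3,1025),(0,49)]) (1,[(1,390),(0,1)])))))
theorem h205_ok : h205.check (ok 205 4 ⟨3, 3, 3⟩) (fun _ r => r) [] = true := by decide +kernel

def h209 : T := .node ⟨1,0,0⟩ (.node ⟨0,1,0⟩ (.node ⟨0,0,1⟩ (.leaf false ⟨⟨0,0,209⟩,⟨0,209,0⟩,⟨209,0,0⟩⟩ (1,[(0,209)]) (1,[(1,209)]) (1,[(2,209)])) (.node ⟨-60,60,-191⟩ (.node ⟨9,200,60⟩ (.leaf false ⟨⟨-60,60,-191⟩,⟨9,200,60⟩,⟨200,9,-60⟩⟩ (1,[(1,1)]) (1,[(0,1)]) (20,[(2,627),(4,4180),(1,3)])) (.leaf false ⟨⟨-56,84,-183⟩,⟨-12,-191,-84⟩,⟨201,12,-56⟩⟩ (191,[(4,284),(3,5064),(1,183)]) (5,[(4,3),(3,445),(0,7)]) (15,[(4,3141),(3,2980),(0,14)]))) (.leaf false ⟨⟨9,200,-60⟩,⟨60,-60,-191⟩,⟨200,9,60⟩⟩ (20,[(1,1773),(0,3),(2,4180)]) (1,[(1,382),(0,1)]) (3,[(1,1730),(0,10),(2,627)])))) (.node ⟨0,0,1⟩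 (.node ⟨-60,-191,60⟩ (.node ⟨9,60,200⟩ (.leaf false ⟨⟨-60,-191,60⟩,⟨9,60,200⟩,⟨200,-60,9⟩⟩ (1,[(1,1)]) (1,[(0,1)]) (20,[(4,4180),(3,627),(1,3)])) (.leaf false ⟨⟨-56,-183,84⟩,⟨-12,-84,-191⟩,⟨201,-56,12⟩⟩ (191,[(2,5064),(4,284),(1,183)]) (5,[(2,445),(4,3),(0,7)]) (15,[(2,2980),(4,3141),(0,14)]))) (.leaf false ⟨⟨9,-60,200⟩,⟨60,-191,-60⟩,⟨200,60,9⟩⟩ (20,[(1,4180),(0,3),(2,1773)]) (1,[(0,1),(2,382)]) (3,[(1,627),(0,10),(2,1730)]))) (.node ⟨56,84,-183⟩ (.node ⟨56,-183,84⟩ (.node ⟨201,-12,56⟩ (.leaf false ⟨⟨12,-191,-84⟩,⟨56,84,-183⟩,⟨201,-12,56⟩⟩ (14,[(3,1428),(1,3),(4,2125)]) (1,[(2,1)]) (1,[(0,1)])) (.leaf false ⟨⟨-200,9,-60⟩,⟨9,-200,-60⟩,⟨60,60,-191⟩⟩ (385,[(5,8122),(1,9),(0,426)]) (462,[(5,249971),(1,596),(0,1389)]) (209,[(2,89),(5,92378),(0,422)])))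 (.leaf false ⟨⟨-114,-38,-171⟩,⟨114,-171,-38⟩,⟨133,114,-114⟩⟩ (28,[(3,11495),(0,57)]) (42,[(4,5852),(3,10659),(0,19)]) (14,[(4,2926),(3,1881),(0,19)]))) (.leaf false ⟨⟨-114,-171,-38⟩,⟨114,-38,-171⟩,⟨133,-114,114⟩⟩ (28,[(1,11495),(0,57)]) (42,[(1,10659),(3,5852),(0,19)]) (14,[(1,1881),(3,2926),(0,19)]))))) (.node ⟨0,1,0⟩ (.node ⟨0,0,1⟩ (.node ⟨-191,-60,60⟩ (.node ⟨60,9,200⟩ (.leaf false ⟨⟨-191,-60,60⟩,⟨-60,200,9⟩,⟨60,9,200⟩⟩ (1,[(1,1)]) (20,[(1,3),(4,627),(3,4180)]) (1,[(0,1)])) (.leaf false ⟨⟨-183,-56,84⟩,⟨-84,-12,-191⟩,⟨-56,201,12⟩⟩ (191,[(2,5064),(1,183),(3,284)]) (5,[(2,445),(0,7),(3,3)]) (15,[(2,2980),(0,14),(3,3141)]))) (.leaf false ⟨⟨-191,60,-60⟩,⟨-60,9,200⟩,⟨60,200,9⟩⟩ (1,[(3,382),(0,1)]) (20,[(1,4180),(3,1773),(0,3)]) (3,[(1,627),(3,1730),(0,10)])))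 (.node ⟨84,56,-183⟩ (.node ⟨-183,56,84⟩ (.node ⟨-12,201,56⟩ (.leaf false ⟨⟨-191,12,-84⟩,⟨-12,201,56⟩,⟨84,56,-183⟩⟩ (14,[(3,1428),(5,2125),(1,3)]) (1,[(0,1)]) (1,[(2,1)])) (.leaf false ⟨⟨-207,16,24⟩,⟨-24,-192,-79⟩,⟨-16,81,-192⟩⟩ (104753,[(1,138281),(2,37316),(0,40584)]) (104753,[(1,32692),(2,24713),(0,116056)]) (231,[(1,80),(4,197543),(0,912)]))) (.leaf false ⟨⟨-191,-12,-84⟩,⟨12,201,-56⟩,⟨84,-56,-183⟩⟩ (1,[(4,374),(3,44),(0,1)]) (3,[(4,330),(3,715),(0,2)]) (28,[(4,8811),(3,1848),(0,61)]))) (.leaf false ⟨⟨-191,12,84⟩,⟨-84,-56,-183⟩,⟨-12,201,-56⟩⟩ (84,[(1,27897),(0,191),(2,11704)]) (1,[(1,366),(0,1)]) (7,[(1,575),(0,1),(2,1463)])))) (.node ⟨0,0,1⟩ (.node ⟨84,-183,56⟩ (.node ⟨-183,84,56⟩ (.node ⟨-12,56,201⟩ (.leaf false ⟨⟨-191,-84,12⟩,⟨-12,56,201⟩,⟨84,-183,56⟩⟩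 (14,[(1,3),(5,2125),(4,1428)]) (1,[(0,1)]) (1,[(2,1)])) (.leaf false ⟨⟨-207,24,16⟩,⟨-24,-79,-192⟩,⟨-16,-192,81⟩⟩ (104753,[(1,138281),(0,40584),(2,37316)]) (104753,[(1,32692),(0,116056),(2,24713)]) (231,[(3,197543),(1,80),(0,912)]))) (.leaf false ⟨⟨-191,-84,-12⟩,⟨12,-56,201⟩,⟨84,-183,-56⟩⟩ (1,[(2,44),(4,374),(0,1)]) (3,[(2,715),(4,330),(0,2)]) (28,[(2,1848),(4,8811),(0,61)]))) (.leaf false ⟨⟨-191,84,12⟩,⟨-84,-183,-56⟩,⟨-12,-56,201⟩⟩ (84,[(1,11704),(0,191),(2,27897)]) (1,[(0,1),(2,366)]) (7,[(1,1463),(0,1),(2,575)]))) (.node ⟨-11,66,-198⟩ (.node ⟨-198,-11,66⟩ (.node ⟨-192,81,16⟩ (.leaf false ⟨⟨-198,-11,66⟩,⟨-66,66,-187⟩,⟨-11,-198,-66⟩⟩ (1,[(1,1)]) (496,[(2,480),(0,143),(4,10527)]) (18,[(3,1254),(1,1),(4,3553)])) (.leaf false ⟨⟨-207,-24,-16⟩,⟨16,-192,81⟩,⟨24,-79,-192⟩⟩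 (137599,[(2,75525),(1,211071),(0,73645)]) (39314,[(2,3458),(1,79287),(0,85239)]) (137599,[(2,186504),(1,221312),(0,256113)]))) (.leaf false ⟨⟨-198,-66,-11⟩,⟨-11,66,-198⟩,⟨66,-187,-66⟩⟩ (6,[(4,1386),(3,407),(0,1)]) (1,[(1,1)]) (1,[(4,132),(3,198),(0,1)]))) (.node ⟨129,-164,12⟩ (.leaf false ⟨⟨-207,-24,-16⟩,⟨16,-192,81⟩,⟨24,-79,-192⟩⟩ (11,[(2,968),(4,2321),(1,4)]) (11,[(2,5445),(4,176),(1,32)]) (164,[(2,32436),(4,6255),(0,79)])) (.leaf false ⟨⟨-207,24,16⟩,⟨-24,-79,-192⟩,⟨-16,-192,81⟩⟩ (3355,[(2,2920280),(0,6699),(1,15426)]) (6710,[(2,4056030),(0,2453),(1,14127)]) (3355,[(2,2421045),(0,1584),(1,13696)]))))))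
theorem h209_ok : h209.check (ok 209 4 ⟨3, 3, 3⟩) (fun _ r => r) [] = true := by decide +kernel

def h211 : T := .node ⟨1,0,0⟩ (.node ⟨0,1,0⟩ (.node ⟨0,0,1⟩ (.node ⟨-66,-31,198⟩ (.node ⟨193,-66,54⟩ (.leaf false ⟨⟨-66,-31,198⟩,⟨54,198,49⟩,⟨193,-66,54⟩⟩ (1,[(1,1)]) (198,[(4,13926),(3,40723),(1,49)]) (1,[(0,1)])) (.leaf false ⟨⟨-166,114,-63⟩,⟨-18,81,194⟩,⟨129,158,-54⟩⟩ (1266,[(4,246659),(0,2291),(1,222)]) (5697,[(4,2592346),(0,11026),(1,8589)]) (633,[(4,417358),(0,1645),(1,276)]))) (.node ⟨-63,194,54⟩ (.leaf false ⟨⟨-63,194,54⟩,⟨114,81,-158⟩,⟨166,18,129⟩⟩ (1,[(0,1)]) (4919,[(2,986636),(1,9073),(0,604)]) (31,[(2,7563),(4,3958),(1,18)])) (.leaf false ⟨⟨18,81,194⟩,⟨129,-158,54⟩,⟨166,114,-63⟩⟩ (7,[(2,1466),(0,2),(3,955)]) (21,[(2,3456),(0,43),(3,5024)])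 (33,[(2,14355),(1,83),(3,1189)])))) (.node ⟨-15,-14,-210⟩ (.node ⟨210,-15,-14⟩ (.leaf false ⟨⟨-15,-14,-210⟩,⟨14,210,-15⟩,⟨210,-15,-14⟩⟩ (1,[(1,1)]) (14,[(4,211),(3,2954),(1,1)]) (1,[(0,1)])) (.leaf false ⟨⟨-198,54,49⟩,⟨-31,66,-198⟩,⟨66,193,54⟩⟩ (422,[(4,236109),(0,1522),(1,3)]) (1477,[(4,1729778),(0,8316),(1,1947)]) (1477,[(4,4287942),(0,19887),(1,946)]))) (.node ⟨-63,194,54⟩ (.leaf false ⟨⟨-63,194,54⟩,⟨114,81,-158⟩,⟨166,18,129⟩⟩ (1,[(0,1)]) (14,[(2,19222),(4,381),(1,81)]) (7,[(2,987),(4,1027),(1,9)])) (.leaf false ⟨⟨14,138,-159⟩,⟨114,129,122⟩,⟨177,-94,-66⟩⟩ (9,[(2,1323),(0,2),(3,1630)]) (5,[(2,7370),(1,38),(3,113)]) (39,[(0,106),(1,15),(3,16688)]))))) (.node ⟨0,0,1⟩ (.node ⟨-15,-210,-14⟩ (.node ⟨210,-14,-15⟩ (.leaf false ⟨⟨-15,-210,-14⟩,⟨14,-15,210⟩,⟨210,-14,-15⟩⟩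 (1,[(1,1)]) (14,[(2,2954),(4,211),(1,1)]) (1,[(0,1)])) (.leaf false ⟨⟨-198,-31,66⟩,⟨49,-198,54⟩,⟨54,66,193⟩⟩ (2954,[(4,2437683),(1,1389),(0,14294)]) (1477,[(4,1582078),(1,1863),(0,7056)]) (1477,[(4,4251228),(1,856),(0,19803)]))) (.node ⟨-63,54,194⟩ (.leaf false ⟨⟨-63,54,194⟩,⟨114,-158,81⟩,⟨166,129,18⟩⟩ (1,[(0,1)]) (14,[(1,81),(4,381),(3,19222)]) (7,[(1,9),(4,1027),(3,987)])) (.leaf false ⟨⟨14,-159,138⟩,⟨114,122,129⟩,⟨177,-66,-94⟩⟩ (9,[(2,1630),(0,2),(3,1323)]) (5,[(2,113),(1,38),(3,7370)]) (39,[(2,16688),(1,15),(0,106)])))) (.node ⟨150,-95,114⟩ (.node ⟨-102,-159,-94⟩ (.node ⟨81,58,-186⟩ (.leaf false ⟨⟨-102,-159,-94⟩,⟨81,58,-186⟩,⟨166,-126,33⟩⟩ (1,[(1,1)]) (1,[(0,1)]) (38,[(5,4658),(2,11),(4,3743)])) (.leaf false ⟨⟨-166,-126,33⟩,⟨81,-58,186⟩,⟨102,-159,-94⟩⟩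 (29,[(3,10761),(5,289),(0,63)]) (1,[(5,162),(0,1)]) (58,[(3,35026),(5,18795),(0,159)]))) (.leaf false ⟨⟨54,-198,49⟩,⟨66,-31,-198⟩,⟨193,66,54⟩⟩ (17,[(2,13),(0,9),(3,4797)]) (17,[(2,4400),(0,11),(3,2276)]) (102,[(2,12634),(0,193),(3,23955)]))) (.leaf false ⟨⟨-126,58,-159⟩,⟨33,-186,-94⟩,⟨166,81,-102⟩⟩ (38,[(3,3162),(2,2831),(0,53)]) (57,[(3,8931),(2,15067),(0,47)]) (19,[(3,5704),(2,76),(0,17)]))))) (.node ⟨0,1,0⟩ (.node ⟨0,0,1⟩ (.node ⟨-210,-15,-14⟩ (.node ⟨-14,210,-15⟩ (.leaf false ⟨⟨-210,-15,-14⟩,⟨-15,14,210⟩,⟨-14,210,-15⟩⟩ (1,[(1,1)]) (14,[(2,2954),(1,1),(3,211)]) (1,[(0,1)])) (.leaf false ⟨⟨-198,-31,66⟩,⟨49,-198,54⟩,⟨54,66,193⟩⟩ (1477,[(1,1947),(3,1729778),(0,8316)]) (422,[(1,3),(3,236109),(0,1522)]) (1477,[(1,946),(3,4287942),(0,19887)])))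 (.node ⟨54,-63,194⟩ (.leaf false ⟨⟨-158,114,81⟩,⟨54,-63,194⟩,⟨129,166,18⟩⟩ (14,[(4,19222),(3,381),(1,81)]) (1,[(0,1)]) (7,[(4,987),(3,1027),(1,9)])) (.leaf false ⟨⟨-194,54,-63⟩,⟨-18,129,166⟩,⟨81,158,-114⟩⟩ (7,[(2,723),(4,1034),(0,6)]) (5,[(2,228),(4,9120),(1,43)]) (936,[(2,293984),(0,2131),(1,909)])))) (.node ⟨-95,150,114⟩ (.node ⟨-159,-102,-94⟩ (.node ⟨58,81,-186⟩ (.leaf false ⟨⟨-159,-102,-94⟩,⟨-126,166,33⟩,⟨58,81,-186⟩⟩ (1,[(1,1)]) (38,[(5,3743),(2,11),(4,4658)]) (1,[(0,1)])) (.leaf false ⟨⟨-186,-95,-30⟩,⟨-95,150,114⟩,⟨-30,114,-175⟩⟩ (29,[(3,18168),(0,93),(4,4778)]) (58,[(3,11058),(0,95),(4,16395)]) (29,[(3,7865),(0,15),(4,4521)]))) (.leaf false ⟨⟨-198,54,49⟩,⟨-31,66,-198⟩,⟨66,193,54⟩⟩ (17,[(2,13),(4,4797),(0,9)]) (17,[(2,4400),(4,2276),(0,11)])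 (102,[(2,12634),(4,23955),(0,193)]))) (.leaf false ⟨⟨-186,33,-94⟩,⟨58,-126,-159⟩,⟨81,166,-102⟩⟩ (57,[(3,15067),(2,8931),(0,47)]) (38,[(3,2831),(2,3162),(0,53)]) (19,[(3,76),(2,5704),(0,17)])))) (.node ⟨0,0,1⟩ (.node ⟨-95,114,150⟩ (.node ⟨-159,-94,-102⟩ (.node ⟨58,-186,81⟩ (.leaf false ⟨⟨-159,-94,-102⟩,⟨-126,33,166⟩,⟨58,-186,81⟩⟩ (1,[(1,1)]) (38,[(3,4658),(2,11),(5,3743)]) (1,[(0,1)])) (.leaf false ⟨⟨-186,-30,-95⟩,⟨-95,114,150⟩,⟨-30,-175,114⟩⟩ (29,[(3,4778),(0,93),(4,18168)]) (58,[(3,16395),(0,95),(4,11058)]) (29,[(3,4521),(0,15),(4,7865)]))) (.leaf false ⟨⟨-198,-31,66⟩,⟨49,-198,54⟩,⟨54,66,193⟩⟩ (17,[(4,5115),(3,1561),(0,11)]) (17,[(4,598),(3,4212),(0,9)]) (102,[(4,25179),(3,11410),(0,193)]))) (.leaf false ⟨⟨-186,-94,33⟩,⟨58,-159,-126⟩,⟨81,-102,166⟩⟩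 (57,[(1,8931),(3,15067),(0,47)]) (38,[(1,3162),(3,2831),(0,53)]) (19,[(1,5704),(3,76),(0,17)]))) (.leaf false ⟨⟨-211,0,0⟩,⟨0,-211,0⟩,⟨0,0,-211⟩⟩ (1,[(2,211)]) (1,[(1,211)]) (1,[(0,211)]))))
theorem h211_ok : h211.check (ok 211 4 ⟨3, 3, 3⟩) (fun _ r => r) [] = true := by decide +kernel

def h217 : T := .node ⟨1,0,0⟩ (.node ⟨0,1,0⟩ (.node ⟨0,0,1⟩ (.leaf false ⟨⟨0,0,217⟩,⟨0,217,0⟩,⟨217,0,0⟩⟩ (1,[(0,217)]) (1,[(1,217)]) (1,[(2,217)])) (.node ⟨-108,180,-55⟩ (.node ⟨72,-48,-199⟩ (.node ⟨192,89,48⟩ (.leaf false ⟨⟨-71,192,-72⟩,⟨72,-48,-199⟩,⟨192,89,48⟩⟩ (15,[(3,200),(5,663),(2,16)]) (1,[(1,1)]) (1,[(0,1)])) (.leaf false ⟨⟨-188,9,-108⟩,⟨72,172,-111⟩,⟨81,-132,-152⟩⟩ (4,[(5,976),(4,837),(0,9)]) (16,[(5,8256),(4,6045),(0,37)]) (6,[(5,4134),(4,899),(0,19)])))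 (.leaf false ⟨⟨-152,108,-111⟩,⟨81,188,72⟩,⟨132,9,-172⟩⟩ (4,[(2,2235),(4,40),(0,9)]) (12,[(2,8489),(4,4356),(0,47)]) (16,[(2,3349),(4,2328),(0,3)]))) (.leaf false ⟨⟨9,132,-172⟩,⟨108,-152,-111⟩,⟨188,81,72⟩⟩ (12,[(1,2119),(0,1),(2,1764)]) (1,[(1,166),(0,1),(2,28)]) (27,[(1,641),(0,47),(2,10647)])))) (.node ⟨0,0,1⟩ (.node ⟨-108,-55,180⟩ (.node ⟨72,-199,-48⟩ (.node ⟨192,48,89⟩ (.leaf false ⟨⟨-71,-72,192⟩,⟨72,-199,-48⟩,⟨192,48,89⟩⟩ (15,[(5,663),(4,200),(2,16)]) (1,[(1,1)]) (1,[(0,1)])) (.leaf false ⟨⟨-188,-108,9⟩,⟨72,-111,172⟩,⟨81,-152,-132⟩⟩ (4,[(3,837),(5,976),(0,9)]) (16,[(3,6045),(5,8256),(0,37)]) (6,[(3,899),(5,4134),(0,19)]))) (.leaf false ⟨⟨-152,-111,108⟩,⟨81,72,188⟩,⟨132,-172,9⟩⟩ (4,[(4,40),(3,2235),(0,9)]) (12,[(4,4356),(3,8489),(0,47)])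 (16,[(4,2328),(3,3349),(0,3)]))) (.leaf false ⟨⟨9,-172,132⟩,⟨108,-111,-152⟩,⟨188,72,81⟩⟩ (12,[(1,1764),(0,1),(2,2119)]) (1,[(1,28),(0,1),(2,166)]) (27,[(1,10647),(0,47),(2,641)]))) (.node ⟨12,-204,73⟩ (.node ⟨204,12,73⟩ (.node ⟨72,17,-204⟩ (.leaf false ⟨⟨17,-216,-12⟩,⟨72,17,-204⟩,⟨204,12,73⟩⟩ (12,[(3,217),(1,1),(4,2604)]) (1,[(0,1)]) (1,[(1,1)])) (.leaf false ⟨⟨-199,-72,-48⟩,⟨48,-192,89⟩,⟨72,-71,-192⟩⟩ (2604,[(3,2765665),(1,1801),(0,12300)]) (217,[(3,745395),(1,1220),(0,3312)]) (217,[(3,341124),(1,528),(0,1279)]))) (.leaf false ⟨⟨-192,-15,-100⟩,⟨-15,-208,60⟩,⟨100,-60,-183⟩⟩ (4,[(2,35),(4,252),(0,5)]) (3480,[(2,14434),(1,3521),(0,463)]) (17,[(2,3476),(4,1640),(1,5)]))) (.node ⟨-64,12,-207⟩ (.leaf false ⟨⟨-64,12,-207⟩,⟨108,-183,-44⟩,⟨177,116,-48⟩⟩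 (1,[(0,1)]) (73,[(4,8412),(3,22335),(1,44)]) (73,[(4,13497),(3,1324),(1,48)])) (.leaf false ⟨⟨9,132,-172⟩,⟨108,-152,-111⟩,⟨188,81,72⟩⟩ (2188,[(3,2304216),(1,12871),(0,2721)]) (547,[(3,1557956),(1,7365),(0,2304)]) (547,[(3,1666821),(1,8577),(0,3215)])))))) (.node ⟨0,1,0⟩ (.node ⟨0,0,1⟩ (.node ⟨-55,180,-108⟩ (.node ⟨-199,-48,72⟩ (.node ⟨48,89,192⟩ (.leaf false ⟨⟨-199,-48,72⟩,⟨-72,192,-71⟩,⟨48,89,192⟩⟩ (1,[(1,1)]) (15,[(3,663),(5,200),(2,16)]) (1,[(0,1)])) (.leaf false ⟨⟨-183,-100,-60⟩,⟨-100,192,-15⟩,⟨-60,-15,208⟩⟩ (16,[(3,10752),(0,61),(4,3829)]) (12,[(3,4620),(0,25),(4,4529)]) (4,[(3,1792),(0,5),(4,385)]))) (.leaf false ⟨⟨-208,24,57⟩,⟨-24,153,-152⟩,⟨57,152,144⟩⟩ (2,[(2,186),(4,615),(0,1)]) (16,[(2,1240),(4,10533),(0,51)]) (6,[(2,2232),(4,3439),(0,19)])))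 (.leaf false ⟨⟨-208,-24,57⟩,⟨24,153,152⟩,⟨57,-152,144⟩⟩ (36,[(3,8533),(2,2556),(0,19)]) (27,[(3,1442),(2,10971),(0,38)]) (3,[(3,49),(2,264),(0,4)]))) (.node ⟨-204,12,73⟩ (.node ⟨12,204,73⟩ (.node ⟨17,72,-204⟩ (.leaf false ⟨⟨-216,17,-12⟩,⟨12,204,73⟩,⟨17,72,-204⟩⟩ (12,[(3,217),(5,2604),(1,1)]) (1,[(1,1)]) (1,[(0,1)])) (.leaf false ⟨⟨-210,-35,42⟩,⟨-42,210,-35⟩,⟨-35,-42,-210⟩⟩ (372,[(3,1372091),(0,6060),(1,2075)]) (62,[(3,67487),(0,264),(1,157)]) (62,[(3,48391),(0,158),(1,43)]))) (.leaf false ⟨⟨-210,-35,42⟩,⟨-42,210,-35⟩,⟨-35,-42,-210⟩⟩ (696,[(2,10626),(0,161),(1,707)]) (34,[(2,1701),(1,7),(3,7056)]) (3480,[(2,716492),(0,749),(1,553)]))) (.node ⟨12,-64,-207⟩ (.leaf false ⟨⟨-183,108,-44⟩,⟨12,-64,-207⟩,⟨116,177,-48⟩⟩ (73,[(4,22335),(3,8412),(1,44)])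 (1,[(0,1)]) (73,[(4,1324),(3,13497),(1,48)])) (.leaf false ⟨⟨-216,12,17⟩,⟨-12,73,-204⟩,⟨17,204,72⟩⟩ (547,[(4,187332),(0,168),(1,349)]) (2188,[(4,5679000),(0,7777),(1,28167)]) (547,[(4,1867237),(0,3507),(1,9405)]))))) (.node ⟨0,0,1⟩ (.node ⟨73,-204,12⟩ (.node ⟨73,12,204⟩ (.node ⟨-204,17,72⟩ (.leaf false ⟨⟨-204,17,72⟩,⟨-12,-216,17⟩,⟨73,12,204⟩⟩ (1,[(0,1)]) (12,[(5,217),(4,2604),(1,1)]) (1,[(1,1)])) (.leaf false ⟨⟨-210,-35,-42⟩,⟨-35,-42,210⟩,⟨42,-210,-35⟩⟩ (62,[(5,48391),(0,158),(1,43)]) (62,[(5,67487),(0,264),(1,157)]) (372,[(5,1372091),(0,6060),(1,2075)]))) (.leaf false ⟨⟨-210,-35,-42⟩,⟨-35,-42,210⟩,⟨42,-210,-35⟩⟩ (3480,[(4,716492),(0,749),(1,553)]) (34,[(2,7056),(4,1701),(1,7)]) (696,[(4,10626),(0,161),(1,707)]))) (.node ⟨-207,12,-64⟩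 (.leaf false ⟨⟨-207,12,-64⟩,⟨-48,116,177⟩,⟨-44,-183,108⟩⟩ (1,[(0,1)]) (73,[(2,13497),(1,48),(3,1324)]) (73,[(2,8412),(1,44),(3,22335)])) (.leaf false ⟨⟨-216,-12,17⟩,⟨12,73,204⟩,⟨17,-204,72⟩⟩ (2188,[(1,17343),(3,3518232),(0,3833)]) (547,[(1,10365),(3,2030285),(0,3687)]) (547,[(1,3454),(3,801048),(0,1263)])))) (.node ⟨-60,100,-183⟩ (.node ⟨-132,-143,96⟩ (.node ⟨73,-156,-132⟩ (.leaf false ⟨⟨-156,48,-143⟩,⟨-132,-143,96⟩,⟨73,-156,-132⟩⟩ (25,[(3,1379),(2,12),(5,3180)]) (1,[(1,1)]) (1,[(0,1)])) (.leaf false ⟨⟨-208,-15,60⟩,⟨-60,100,-183⟩,⟨-15,-192,-100⟩⟩ (73,[(3,23076),(0,208),(4,33543)]) (73,[(3,21279),(0,60),(4,2060)]) (73,[(3,9280),(0,15),(4,16356)]))) (.leaf false ⟨⟨-208,-60,-15⟩,⟨-15,100,-192⟩,⟨60,-183,-100⟩⟩ (32,[(4,7316),(3,2635),(0,5)])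 (1,[(4,279),(3,186),(0,2)]) (24,[(4,1860),(3,7967),(0,25)]))) (.leaf false ⟨⟨-208,-15,-60⟩,⟨-15,-192,100⟩,⟨60,-100,-183⟩⟩ (20,[(1,1749),(3,4340),(0,3)]) (25,[(1,6284),(3,3255),(0,48)]) (1,[(1,366),(0,1)])))))
theorem h217_ok : h217.check (ok 217 4 ⟨3, 3, 3⟩) (fun _ r => r) [] = true := by decide +kernel

def h221 : T := .node ⟨1,0,0⟩ (.node ⟨0,1,0⟩ (.node ⟨0,0,1⟩ (.leaf false ⟨⟨0,0,221⟩,⟨0,221,0⟩,⟨221,0,0⟩⟩ (1,[(0,221)]) (1,[(1,221)]) (1,[(2,221)])) (.node ⟨0,220,21⟩ (.leaf false ⟨⟨0,21,-220⟩,⟨0,220,21⟩,⟨221,0,0⟩⟩ (220,[(1,48841),(0,21)]) (1,[(0,1)]) (1,[(3,221)])) (.leaf false ⟨⟨0,-195,-104⟩,⟨0,104,-195⟩,⟨221,0,0⟩⟩ (21,[(0,104),(2,18785)]) (7,[(0,65),(2,15028)]) (1,[(3,221)])))) (.node ⟨0,0,1⟩ (.node ⟨0,21,220⟩ (.leaf false ⟨⟨0,-220,21⟩,⟨0,21,220⟩,⟨221,0,0⟩⟩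 (220,[(0,21),(2,48841)]) (1,[(0,1)]) (1,[(3,221)])) (.leaf false ⟨⟨0,-195,104⟩,⟨0,-104,-195⟩,⟨221,0,0⟩⟩ (7,[(1,15028),(0,65)]) (21,[(1,18785),(0,104)]) (1,[(3,221)]))) (.node ⟨0,104,-195⟩ (.leaf false ⟨⟨0,-195,-104⟩,⟨0,104,-195⟩,⟨221,0,0⟩⟩ (15,[(0,8),(2,3757)]) (1,[(0,1)]) (1,[(3,221)])) (.leaf false ⟨⟨0,-195,104⟩,⟨0,-104,-195⟩,⟨221,0,0⟩⟩ (8,[(1,2093),(0,15)]) (1,[(1,390),(0,1)]) (1,[(3,221)]))))) (.node ⟨0,1,0⟩ (.node ⟨0,0,1⟩ (.node ⟨21,0,220⟩ (.leaf false ⟨⟨-220,0,21⟩,⟨0,221,0⟩,⟨21,0,220⟩⟩ (220,[(3,48841),(0,21)]) (1,[(2,221)]) (1,[(0,1)])) (.leaf false ⟨⟨-195,0,104⟩,⟨-104,0,-195⟩,⟨0,221,0⟩⟩ (7,[(1,15028),(0,65)]) (21,[(1,18785),(0,104)]) (1,[(2,221)]))) (.node ⟨104,0,-195⟩ (.leaf false ⟨⟨-195,0,-104⟩,⟨0,221,0⟩,⟨104,0,-195⟩⟩ (15,[(3,3757),(0,8)])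 (1,[(2,221)]) (1,[(0,1)])) (.leaf false ⟨⟨-195,0,104⟩,⟨-104,0,-195⟩,⟨0,221,0⟩⟩ (8,[(1,2093),(0,15)]) (1,[(1,390),(0,1)]) (1,[(2,221)])))) (.node ⟨0,0,1⟩ (.node ⟨104,-195,0⟩ (.leaf false ⟨⟨-195,-104,0⟩,⟨0,0,221⟩,⟨104,-195,0⟩⟩ (15,[(3,3757),(0,8)]) (1,[(1,221)]) (1,[(0,1)])) (.leaf false ⟨⟨-195,104,0⟩,⟨-104,-195,0⟩,⟨0,0,221⟩⟩ (8,[(0,15),(2,2093)]) (1,[(0,1),(2,390)]) (1,[(1,221)]))) (.node ⟨-75,104,-180⟩ (.node ⟨-204,0,85⟩ (.leaf false ⟨⟨-204,0,85⟩,⟨-75,104,-180⟩,⟨-40,-195,-96⟩⟩ (1,[(0,1)]) (1,[(1,1)]) (15,[(1,8),(3,3757)])) (.leaf false ⟨⟨-195,-96,-40⟩,⟨0,85,-204⟩,⟨104,-180,-75⟩⟩ (9,[(1,2),(4,1605),(3,1072)]) (845,[(1,816),(3,13039),(0,300)]) (17,[(4,1292),(3,3060),(0,15)]))) (.leaf false ⟨⟨-204,-75,40⟩,⟨0,-104,-195⟩,⟨85,-180,96⟩⟩ (104,[(1,9340),(3,26841),(0,75)])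 (1,[(1,375),(3,75),(0,1)]) (26,[(1,5604),(3,1165),(0,45)])))))
theorem h221_ok : h221.check (ok 221 4 ⟨3, 3, 3⟩) (fun _ r => r) [] = true := by decide +kernel

def h223 : T := .node ⟨1,0,0⟩ (.node ⟨0,1,0⟩ (.node ⟨0,0,1⟩ (.node ⟨-123,110,150⟩ (.node ⟨110,165,-102⟩ (.node ⟨-123,150,110⟩ (.leaf false ⟨⟨-123,150,110⟩,⟨110,165,-102⟩,⟨150,2,165⟩⟩ (1,[(0,1)]) (1,[(1,1)]) (55,[(3,8925),(5,8373),(2,1)])) (.leaf false ⟨⟨-123,110,150⟩,⟨110,-102,165⟩,⟨150,165,2⟩⟩ (1,[(2,1)]) (40,[(1,40),(2,267),(0,267)]) (163,[(1,267),(2,579),(0,539)]))) (.leaf false ⟨⟨-126,117,142⟩,⟨-27,-182,126⟩,⟨182,54,117⟩⟩ (51,[(4,1384),(3,17682),(0,71)]) (17,[(4,1851),(3,371),(0,21)]) (34,[(4,10478),(3,8271),(0,39)]))) (.leaf false ⟨⟨2,150,165⟩,⟨150,-123,110⟩,⟨165,110,-102⟩⟩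 (123,[(1,20595),(0,2),(2,18670)]) (41,[(1,12010),(0,50),(2,457)]) (41,[(1,4068),(0,55),(2,10560)]))) (.node ⟨-75,-2,-210⟩ (.node ⟨198,-75,-70⟩ (.leaf false ⟨⟨-75,-2,-210⟩,⟨70,210,-27⟩,⟨198,-75,-70⟩⟩ (1,[(1,1)]) (70,[(4,5575),(3,14718),(1,9)]) (1,[(0,1)])) (.leaf false ⟨⟨-174,133,42⟩,⟨42,114,-187⟩,⟨133,138,114⟩⟩ (1115,[(4,232812),(0,1989),(1,440)]) (15610,[(4,7120167),(0,24314),(1,22005)]) (7805,[(4,3926138),(0,14376),(1,555)]))) (.node ⟨213,-38,-54⟩ (.leaf false ⟨⟨2,186,-123⟩,⟨66,117,178⟩,⟨213,-38,-54⟩⟩ (75,[(2,9645),(1,2),(3,13946)]) (25,[(2,170),(1,22),(3,2881)]) (1,[(0,1)])) (.leaf false ⟨⟨-219,42,2⟩,⟨2,21,-222⟩,⟨42,218,21⟩⟩ (19,[(2,1096),(4,312),(0,21)]) (38,[(2,9570),(4,4549),(0,21)]) (19,[(2,5487),(4,24015),(0,109)]))))) (.node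 ⟨0,0,1⟩ (.node ⟨-75,-210,-2⟩ (.node ⟨198,-70,-75⟩ (.leaf false ⟨⟨-75,-210,-2⟩,⟨70,-27,210⟩,⟨198,-70,-75⟩⟩ (1,[(1,1)]) (70,[(2,14718),(4,5575),(1,9)]) (1,[(0,1)])) (.leaf false ⟨⟨-174,42,133⟩,⟨42,-187,114⟩,⟨133,114,138⟩⟩ (1115,[(4,232812),(1,440),(0,1989)]) (15610,[(4,7120167),(1,22005),(0,24314)]) (7805,[(4,3926138),(1,555),(0,14376)]))) (.node ⟨213,-54,-38⟩ (.leaf false ⟨⟨2,-123,186⟩,⟨66,178,117⟩,⟨213,-54,-38⟩⟩ (75,[(2,13946),(1,2),(3,9645)]) (25,[(2,2881),(1,22),(3,170)]) (1,[(0,1)])) (.leaf false ⟨⟨-219,2,42⟩,⟨2,-222,21⟩,⟨42,21,218⟩⟩ (19,[(4,312),(3,1096),(0,21)]) (38,[(4,4549),(3,9570),(0,21)]) (19,[(4,24015),(3,5487),(0,109)])))) (.node ⟨21,42,-218⟩ (.node ⟨218,21,42⟩ (.leaf false ⟨⟨2,-219,-42⟩,⟨21,42,-218⟩,⟨222,-2,21⟩⟩ (21,[(2,446),(1,2),(3,4683)])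 (1,[(1,1)]) (109,[(2,2373),(0,111),(3,2549)])) (.leaf false ⟨⟨-198,-11,-102⟩,⟨18,-222,-11⟩,⟨101,18,-198⟩⟩ (3171,[(1,840),(4,82840),(0,3341)]) (42,[(4,3154),(3,9093),(0,11)]) (109,[(1,99),(4,8930),(3,2196)]))) (.leaf false ⟨⟨-75,-198,-70⟩,⟨2,-75,210⟩,⟨210,-70,-27⟩⟩ (7,[(1,7684),(3,168),(0,33)]) (14,[(1,2510),(3,553),(0,25)]) (3,[(1,1171),(3,735),(0,5)]))))) (.node ⟨0,1,0⟩ (.node ⟨0,0,1⟩ (.node ⟨-210,-75,-2⟩ (.node ⟨-70,198,-75⟩ (.leaf false ⟨⟨-210,-75,-2⟩,⟨-70,198,-75⟩,⟨-27,70,210⟩⟩ (1,[(1,1)]) (1,[(0,1)]) (70,[(2,14718),(1,9),(3,5575)])) (.leaf false ⟨⟨-198,-18,101⟩,⟨-11,222,18⟩,⟨102,-11,198⟩⟩ (7805,[(1,10960),(3,2820504),(0,10803)]) (15610,[(1,2085),(3,4374591),(0,3802)]) (7805,[(1,3105),(3,4243244),(0,20688)]))) (.node ⟨-54,213,-38⟩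 (.leaf false ⟨⟨-198,101,-18⟩,⟨-11,18,222⟩,⟨102,198,-11⟩⟩ (213,[(2,4),(4,36720),(0,101)]) (25,[(2,5538),(4,1535),(1,6)]) (2710,[(2,38218),(0,1885),(1,1801)])) (.leaf false ⟨⟨-222,2,21⟩,⟨2,-219,42⟩,⟨21,42,218⟩⟩ (38,[(4,9570),(3,4549),(0,21)]) (19,[(4,1096),(3,312),(0,21)]) (19,[(4,5487),(3,24015),(0,109)])))) (.node ⟨42,21,-218⟩ (.node ⟨21,218,42⟩ (.leaf false ⟨⟨-222,21,2⟩,⟨2,42,-219⟩,⟨21,218,42⟩⟩ (218,[(2,446),(4,48837),(0,21)]) (109,[(2,24753),(4,223),(0,21)]) (1,[(0,1)])) (.leaf false ⟨⟨-222,18,-11⟩,⟨-11,-198,-102⟩,⟨18,101,-198⟩⟩ (42,[(4,9093),(3,3154),(0,11)]) (24203,[(4,82840),(1,6960),(0,22653)]) (109,[(4,2196),(3,8930),(1,99)]))) (.leaf false ⟨⟨-219,-42,-2⟩,⟨-42,218,21⟩,⟨-2,21,-222⟩⟩ (14,[(1,15942),(0,73),(2,945)]) (1,[(1,197),(0,1),(2,239)])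 (21,[(1,4880),(0,1),(2,462)])))) (.node ⟨0,0,1⟩ (.node ⟨42,-218,21⟩ (.node ⟨21,42,218⟩ (.leaf false ⟨⟨-222,2,21⟩,⟨2,-219,42⟩,⟨21,42,218⟩⟩ (218,[(4,48837),(3,446),(0,21)]) (109,[(4,223),(3,24753),(0,21)]) (1,[(0,1)])) (.leaf false ⟨⟨-222,-11,18⟩,⟨-11,-102,-198⟩,⟨18,-198,101⟩⟩ (42,[(2,3154),(4,9093),(0,11)]) (3171,[(2,82840),(0,3341),(1,840)]) (109,[(2,8930),(4,2196),(1,99)]))) (.leaf false ⟨⟨-219,-2,-42⟩,⟨-42,21,218⟩,⟨-2,-222,21⟩⟩ (14,[(1,945),(0,73),(2,15942)]) (1,[(1,239),(0,1),(2,197)]) (21,[(1,462),(0,1),(2,4880)]))) (.leaf false ⟨⟨-223,0,0⟩,⟨0,-223,0⟩,⟨0,0,-223⟩⟩ (1,[(2,223)]) (1,[(1,223)]) (1,[(0,223)]))))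
theorem h223_ok : h223.check (ok 223 4 ⟨3, 3, 3⟩) (fun _ r => r) [] = true := by decide +kernel

def h227 : T := .node ⟨1,0,0⟩ (.node ⟨0,1,0⟩ (.node ⟨0,0,1⟩ (.node ⟨-110,-15,198⟩ (.node ⟨177,-110,90⟩ (.leaf false ⟨⟨-110,-15,198⟩,⟨90,198,65⟩,⟨177,-110,90⟩⟩ (1,[(1,1)]) (198,[(4,24970),(3,40179),(1,65)]) (1,[(0,1)])) (.leaf false ⟨⟨-198,106,33⟩,⟨54,33,218⟩,⟨97,198,-54⟩⟩ (6810,[(4,402017),(0,7161),(1,4390)]) (10215,[(4,2901514),(0,4902),(1,13475)]) (1135,[(4,560236),(0,2133),(1,660)]))) (.node ⟨-47,222,-6⟩ (.leaf false ⟨⟨-47,222,-6⟩,⟨138,34,177⟩,⟨174,33,-142⟩⟩ (1,[(0,1)]) (111,[(2,19749),(4,16117),(0,17)]) (7311,[(4,732302),(1,5221),(0,734)])) (.leaf false ⟨⟨33,-142,174⟩,⟨34,177,138⟩,⟨222,-6,-47⟩⟩ (47,[(2,7980),(0,33),(3,652)]) (55,[(2,10956),(1,17),(3,9480)])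 (8375,[(2,2832527),(0,1330),(1,16334)])))) (.node ⟨-30,30,-223⟩ (.node ⟨2,225,30⟩ (.leaf false ⟨⟨-30,30,-223⟩,⟨2,225,30⟩,⟨225,2,-30⟩⟩ (1,[(1,1)]) (1,[(0,1)]) (15,[(2,227),(4,3405),(1,1)])) (.node ⟨-30,-30,-223⟩ (.leaf false ⟨⟨-30,-30,-223⟩,⟨-2,225,-30⟩,⟨225,-2,-30⟩⟩ (1,[(0,1)]) (1,[(4,450),(1,1)]) (1,[(5,227),(4,223),(1,1)])) (.leaf false ⟨⟨-6,-47,-222⟩,⟨142,-174,33⟩,⟨177,138,-34⟩⟩ (3405,[(2,146024),(1,39915),(0,148004)]) (2270,[(2,558107),(1,153380),(0,579077)]) (9080,[(2,3003929),(1,809820),(0,3111489)])))) (.leaf false ⟨⟨2,225,-30⟩,⟨30,-30,-223⟩,⟨225,2,30⟩⟩ (15,[(1,673),(0,1),(2,3405)]) (1,[(1,446),(0,1)]) (2,[(1,3285),(0,15),(2,454)])))) (.node ⟨0,0,1⟩ (.node ⟨-30,-223,30⟩ (.node ⟨2,30,225⟩ (.leaf false ⟨⟨-30,-223,30⟩,⟨2,30,225⟩,⟨225,-30,2⟩⟩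 (1,[(1,1)]) (1,[(0,1)]) (15,[(4,3405),(3,227),(1,1)])) (.node ⟨-30,-223,-30⟩ (.leaf false ⟨⟨-30,-223,-30⟩,⟨-2,-30,225⟩,⟨225,-30,-2⟩⟩ (1,[(0,1)]) (1,[(3,450),(1,1)]) (1,[(3,223),(5,227),(1,1)])) (.leaf false ⟨⟨-6,-222,-47⟩,⟨142,33,-174⟩,⟨177,-34,138⟩⟩ (3405,[(0,148004),(1,39915),(2,146024)]) (2270,[(0,579077),(1,153380),(2,558107)]) (9080,[(0,3111489),(1,809820),(2,3003929)])))) (.leaf false ⟨⟨2,-30,225⟩,⟨30,-223,-30⟩,⟨225,30,2⟩⟩ (15,[(1,3405),(0,1),(2,673)]) (1,[(0,1),(2,446)]) (2,[(1,454),(0,15),(2,3285)]))) (.node ⟨-63,-214,-42⟩ (.node ⟨-63,-6,-218⟩ (.node ⟨6,-223,42⟩ (.leaf false ⟨⟨-63,-42,-214⟩,⟨6,-223,42⟩,⟨218,-6,-63⟩⟩ (52,[(3,1376),(2,9),(1,43)]) (1,[(0,1)]) (107,[(3,6615),(5,23515),(2,3)])) (.leaf false ⟨⟨-126,-63,-178⟩,⟨97,162,-126⟩,⟨162,-146,-63⟩⟩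 (399,[(4,94582),(2,704),(0,987)]) (1,[(5,115),(4,507),(0,3)]) (2,[(5,342),(4,961),(0,3)]))) (.leaf false ⟨⟨-34,-222,33⟩,⟨138,-47,-174⟩,⟨177,-6,142⟩⟩ (6552,[(2,225752),(0,3355),(1,6891)]) (4368,[(2,3068144),(0,10831),(1,1263)]) (273,[(2,133720),(0,797),(1,30)]))) (.leaf false ⟨⟨42,129,-182⟩,⟨78,-182,-111⟩,⟨209,42,78⟩⟩ (3,[(1,630),(0,2),(2,41)]) (21,[(1,3423),(0,26),(2,9386)]) (63,[(1,3864),(0,209),(2,42080)]))))) (.node ⟨0,1,0⟩ (.node ⟨0,0,1⟩ (.node ⟨-223,-30,30⟩ (.node ⟨30,2,225⟩ (.leaf false ⟨⟨-223,-30,30⟩,⟨-30,225,2⟩,⟨30,2,225⟩⟩ (1,[(1,1)]) (15,[(1,1),(4,227),(3,3405)]) (1,[(0,1)])) (.node ⟨-223,-30,-30⟩ (.leaf false ⟨⟨-223,-30,-30⟩,⟨-30,-2,225⟩,⟨-30,225,-2⟩⟩ (1,[(0,1)]) (1,[(3,450),(1,1)]) (1,[(3,223),(1,1),(4,227)])) (.leaf false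 ⟨⟨-223,30,-30⟩,⟨-30,2,225⟩,⟨30,225,2⟩⟩ (454,[(2,49275),(1,13380),(0,50621)]) (227,[(2,3345),(1,673),(0,3405)]) (27240,[(2,10887083),(1,2956500),(0,11288483)])))) (.leaf false ⟨⟨-223,30,-30⟩,⟨-30,2,225⟩,⟨30,225,2⟩⟩ (1,[(3,446),(0,1)]) (15,[(1,3405),(3,673),(0,1)]) (2,[(1,454),(3,3285),(0,15)]))) (.node ⟨-42,-63,-214⟩ (.node ⟨-218,-63,-6⟩ (.node ⟨42,6,-223⟩ (.leaf false ⟨⟨-214,-63,-42⟩,⟨-63,218,-6⟩,⟨42,6,-223⟩⟩ (52,[(2,9),(1,43),(5,1376)]) (107,[(2,3),(5,6615),(4,23515)]) (1,[(0,1)])) (.leaf false ⟨⟨-223,6,42⟩,⟨-42,-63,-214⟩,⟨-6,218,-63⟩⟩ (42,[(3,47965),(0,223),(4,1590)]) (1,[(2,1)]) (7,[(3,664),(0,1),(4,1532)]))) (.leaf false ⟨⟨-174,138,-47⟩,⟨33,-34,-222⟩,⟨142,177,-6⟩⟩ (4368,[(1,1263),(4,3068144),(0,10831)]) (6552,[(1,6891),(4,225752),(0,3355)])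 (273,[(1,30),(4,133720),(0,797)]))) (.leaf false ⟨⟨-218,54,33⟩,⟨33,198,-106⟩,⟨54,97,198⟩⟩ (7,[(1,1053),(3,1778),(0,6)]) (7,[(1,5450),(3,693),(0,22)]) (63,[(1,8284),(3,672),(0,97)])))) (.node ⟨0,0,1⟩ (.node ⟨-42,-214,-63⟩ (.node ⟨-218,-6,-63⟩ (.node ⟨42,-223,6⟩ (.leaf false ⟨⟨-214,-42,-63⟩,⟨-63,-6,218⟩,⟨42,-223,6⟩⟩ (52,[(5,1376),(1,43),(2,9)]) (107,[(3,23515),(5,6615),(2,3)]) (1,[(0,1)])) (.leaf false ⟨⟨-223,42,6⟩,⟨-42,-214,-63⟩,⟨-6,-63,218⟩⟩ (42,[(3,1590),(0,223),(4,47965)]) (1,[(2,1)]) (7,[(3,1532),(0,1),(4,664)]))) (.leaf false ⟨⟨-174,-47,138⟩,⟨33,-222,-34⟩,⟨142,-6,177⟩⟩ (4368,[(4,3068144),(1,1263),(0,10831)]) (6552,[(4,225752),(1,6891),(0,3355)]) (273,[(4,133720),(1,30),(0,797)]))) (.leaf false ⟨⟨-218,33,54⟩,⟨33,-106,198⟩,⟨54,198,97⟩⟩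 (7,[(3,1778),(2,1053),(0,6)]) (7,[(3,693),(2,5450),(0,22)]) (63,[(3,672),(2,8284),(0,97)]))) (.leaf false ⟨⟨-227,0,0⟩,⟨0,-227,0⟩,⟨0,0,-227⟩⟩ (1,[(2,227)]) (1,[(1,227)]) (1,[(0,227)]))))
theorem h227_ok : h227.check (ok 227 4 ⟨3, 3, 3⟩) (fun _ r => r) [] = true := by decide +kernel

def h229 : T := .node ⟨1,0,0⟩ (.node ⟨0,1,0⟩ (.node ⟨0,0,1⟩ (.leaf false ⟨⟨0,0,229⟩,⟨0,229,0⟩,⟨229,0,0⟩⟩ (1,[(0,229)]) (1,[(1,229)]) (1,[(2,229)])) (.node ⟨-84,21,-212⟩ (.node ⟨-84,213,-4⟩ (.node ⟨4,228,21⟩ (.leaf false ⟨⟨-84,21,-212⟩,⟨4,228,21⟩,⟨213,4,-84⟩⟩ (1,[(2,1)]) (1,[(0,1)]) (21,[(3,916),(5,4809),(2,4)])) (.leaf false ⟨⟨-220,21,-60⟩,⟨21,-180,-140⟩,⟨60,140,-171⟩⟩ (437,[(4,13062),(1,1095),(0,1040)]) (3,[(5,143),(4,4020),(0,20)]) (7,[(5,648),(4,13976),(0,57)])))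 (.leaf false ⟨⟨-48,-59,-216⟩,⟨36,216,-67⟩,⟨221,-48,-36⟩⟩ (182,[(3,3014),(1,187),(0,83)]) (112,[(3,41520),(1,37),(0,85)]) (4368,[(3,2425716),(1,977),(0,12469)]))) (.node ⟨140,-60,-171⟩ (.leaf false ⟨⟨21,220,-60⟩,⟨140,-60,-171⟩,⟨180,21,140⟩⟩ (4,[(2,452),(1,1),(3,901)]) (1,[(0,1)]) (7,[(2,2200),(1,15),(3,462)])) (.leaf false ⟨⟨-195,104,60⟩,⟨4,120,-195⟩,⟨120,165,104⟩⟩ (2100,[(2,1273931),(1,2860),(0,4641)]) (175,[(2,480002),(1,1420),(0,847)]) (35,[(2,150103),(1,505),(0,273)]))))) (.node ⟨0,0,1⟩ (.node ⟨-84,-212,21⟩ (.node ⟨-84,-4,213⟩ (.node ⟨4,21,228⟩ (.leaf false ⟨⟨-84,-212,21⟩,⟨4,21,228⟩,⟨213,-84,4⟩⟩ (1,[(2,1)]) (1,[(0,1)]) (21,[(5,4809),(4,916),(2,4)])) (.leaf false ⟨⟨-220,-60,21⟩,⟨21,-140,-180⟩,⟨60,-171,140⟩⟩ (437,[(3,13062),(0,1040),(1,1095)])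 (3,[(3,4020),(5,143),(0,20)]) (7,[(3,13976),(5,648),(0,57)]))) (.leaf false ⟨⟨-48,-216,-59⟩,⟨36,-67,216⟩,⟨221,-36,-48⟩⟩ (182,[(2,3014),(0,83),(1,187)]) (112,[(2,41520),(0,85),(1,37)]) (4368,[(2,2425716),(0,12469),(1,977)]))) (.node ⟨140,-171,-60⟩ (.leaf false ⟨⟨21,-60,220⟩,⟨140,-171,-60⟩,⟨180,140,21⟩⟩ (4,[(2,901),(1,1),(3,452)]) (1,[(0,1)]) (7,[(2,462),(1,15),(3,2200)])) (.leaf false ⟨⟨-195,4,120⟩,⟨60,-195,104⟩,⟨104,120,165⟩⟩ (140,[(1,340),(3,139749),(0,399)]) (525,[(1,4540),(3,1492184),(0,2499)]) (175,[(1,2445),(3,725967),(0,1337)])))) (.node ⟨-99,-192,-76⟩ (.node ⟨165,104,-120⟩ (.node ⟨-104,-60,-195⟩ (.leaf false ⟨⟨-104,-60,-195⟩,⟨120,-195,-4⟩,⟨165,104,-120⟩⟩ (1,[(0,1)]) (19,[(5,2379),(4,3513),(2,1)]) (1,[(1,1)])) (.leaf false ⟨⟨-36,-148,-171⟩,⟨76,-171,132⟩,⟨213,36,-76⟩⟩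 (1782,[(3,96374),(1,645),(2,1723)]) (668,[(3,123655),(0,1501),(2,1064)]) (1169,[(3,638261),(0,3111),(2,753)]))) (.leaf false ⟨⟨-180,-140,21⟩,⟨21,-60,-220⟩,⟨140,-171,60⟩⟩ (26,[(2,3654),(4,1095),(0,35)]) (26,[(2,7520),(4,3021),(0,15)]) (104,[(2,14280),(4,42775),(0,171)]))) (.leaf false ⟨⟨32,-204,-99⟩,⟨69,104,-192⟩,⟨216,-3,76⟩⟩ (99,[(1,12233),(0,32),(2,26340)]) (33,[(1,8084),(0,23),(2,984)]) (11,[(1,988),(0,24),(2,4641)]))))) (.node ⟨0,1,0⟩ (.node ⟨0,0,1⟩ (.node ⟨-212,-84,21⟩ (.node ⟨-4,-84,213⟩ (.node ⟨21,4,228⟩ (.leaf false ⟨⟨-212,-84,21⟩,⟨-84,213,4⟩,⟨21,4,228⟩⟩ (1,[(2,1)]) (21,[(2,4),(5,916),(4,4809)]) (1,[(0,1)])) (.leaf false ⟨⟨-216,-67,-36⟩,⟨-59,216,-48⟩,⟨-48,36,221⟩⟩ (1795,[(1,16164),(0,15384),(4,1299047)]) (21,[(3,12444),(0,59),(4,4772)])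 (7,[(3,5195),(0,16),(4,316)]))) (.leaf false ⟨⟨-216,-48,-59⟩,⟨-67,36,216⟩,⟨-36,221,-48⟩⟩ (182,[(2,3014),(1,187),(0,83)]) (112,[(2,41520),(1,37),(0,85)]) (4368,[(2,2425716),(1,977),(0,12469)]))) (.node ⟨-171,140,-60⟩ (.leaf false ⟨⟨-171,140,-60⟩,⟨-60,21,220⟩,⟨140,180,21⟩⟩ (1,[(0,1)]) (4,[(2,901),(4,452),(1,1)]) (7,[(2,462),(4,2200),(1,15)])) (.leaf false ⟨⟨-228,-4,21⟩,⟨4,213,84⟩,⟨21,-84,212⟩⟩ (35,[(4,22308),(1,45),(0,28)]) (700,[(4,2388513),(1,8180),(0,3843)]) (75,[(4,282968),(1,880),(0,573)])))) (.node ⟨-76,-99,-192⟩ (.node ⟨-120,165,104⟩ (.node ⟨-195,-104,-60⟩ (.leaf false ⟨⟨-195,-104,-60⟩,⟨-120,165,104⟩,⟨-4,120,-195⟩⟩ (1,[(0,1)]) (1,[(1,1)]) (19,[(3,3513),(2,1),(4,2379)])) (.leaf false ⟨⟨-204,32,-99⟩,⟨-3,216,76⟩,⟨104,69,-192⟩⟩ (21384,[(2,19663),(5,954548),(1,15945)])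 (740357,[(2,318081),(1,784711),(0,595479)]) (167,[(2,287),(5,35700),(0,384)]))) (.leaf false ⟨⟨-220,21,-60⟩,⟨21,-180,-140⟩,⟨60,140,-171⟩⟩ (26,[(4,7520),(3,3021),(0,15)]) (26,[(4,3654),(3,1095),(0,35)]) (104,[(4,14280),(3,42775),(0,171)]))) (.leaf false ⟨⟨-204,60,85⟩,⟨-60,85,-204⟩,⟨85,204,60⟩⟩ (33,[(1,1035),(3,8252),(0,20)]) (99,[(1,36516),(3,12400),(0,85)]) (33,[(1,11076),(3,2363),(0,68)])))) (.node ⟨0,0,1⟩ (.node ⟨-76,-192,-99⟩ (.node ⟨-120,104,165⟩ (.node ⟨-195,-60,-104⟩ (.leaf false ⟨⟨-195,-60,-104⟩,⟨-120,104,165⟩,⟨-4,-195,120⟩⟩ (1,[(0,1)]) (1,[(1,1)]) (19,[(3,2379),(2,1),(4,3513)])) (.leaf false ⟨⟨-204,-99,32⟩,⟨-3,76,216⟩,⟨104,-192,69⟩⟩ (21384,[(1,15945),(5,954548),(2,19663)]) (740357,[(1,784711),(2,318081),(0,595479)]) (167,[(5,35700),(2,287),(0,384)])))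 (.leaf false ⟨⟨-220,-60,21⟩,⟨21,-140,-180⟩,⟨60,-171,140⟩⟩ (26,[(2,3021),(4,7520),(0,15)]) (26,[(2,1095),(4,3654),(0,35)]) (104,[(2,42775),(4,14280),(0,171)]))) (.leaf false ⟨⟨-204,85,60⟩,⟨-60,-204,85⟩,⟨85,60,204⟩⟩ (33,[(3,8252),(2,1035),(0,20)]) (99,[(3,12400),(2,36516),(0,85)]) (33,[(3,2363),(2,11076),(0,68)]))) (.node ⟨-99,148,-144⟩ (.node ⟨-176,-99,108⟩ (.node ⟨-144,148,-99⟩ (.leaf false ⟨⟨-176,-99,108⟩,⟨-144,148,-99⟩,⟨-27,-144,-176⟩⟩ (1,[(1,1)]) (1,[(0,1)]) (11,[(3,1504),(2,3),(4,2028)])) (.leaf false ⟨⟨-180,-140,21⟩,⟨21,-60,-220⟩,⟨140,-171,60⟩⟩ (511815,[(2,1627732),(1,863280),(0,1534417)]) (1535445,[(2,10715597),(1,1981440),(0,10012652)]) (511815,[(2,785012),(1,179295),(0,1256432)]))) (.leaf false ⟨⟨-220,21,-60⟩,⟨21,-180,-140⟩,⟨60,140,-171⟩⟩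 (12,[(1,5),(4,2145),(3,488)]) (27,[(4,5593),(3,8325),(0,35)]) (12,[(4,2624),(3,201),(0,19)]))) (.leaf false ⟨⟨-220,-60,21⟩,⟨21,-140,-180⟩,⟨60,-171,140⟩⟩ (37,[(1,1383),(3,9625),(0,15)]) (37,[(1,11700),(3,2688),(0,35)]) (148,[(1,3904),(3,8049),(0,171)])))))
theorem h229_ok : h229.check (ok 229 4 ⟨3, 3, 3⟩) (fun _ r => r) [] = true := by decide +kernel

def h233 : T := .node ⟨1,0,0⟩ (.node ⟨0,1,0⟩ (.node ⟨0,0,1⟩ (.leaf false ⟨⟨0,0,233⟩,⟨0,233,0⟩,⟨233,0,0⟩⟩ (1,[(0,233)]) (1,[(1,233)]) (1,[(2,233)])) (.node ⟨0,208,105⟩ (.leaf false ⟨⟨0,105,-208⟩,⟨0,208,105⟩,⟨233,0,0⟩⟩ (208,[(1,54289),(0,105)]) (1,[(0,1)]) (1,[(3,233)])) (.node ⟨-87,168,-136⟩ (.leaf false ⟨⟨-87,168,-136⟩,⟨8,-144,-183⟩,⟨216,73,-48⟩⟩ (1,[(0,1)]) (35,[(1,61),(4,280),(3,7648)])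 (17,[(4,4194),(3,233),(0,6)])) (.leaf false ⟨⟨0,233,0⟩,⟨105,0,-208⟩,⟨208,0,105⟩⟩ (1,[(3,233)]) (3045,[(1,10792),(0,3675),(3,2862136)]) (9135,[(1,19153),(0,21840),(3,7652944)]))))) (.node ⟨0,0,1⟩ (.node ⟨0,105,208⟩ (.leaf false ⟨⟨0,-208,105⟩,⟨0,105,208⟩,⟨233,0,0⟩⟩ (208,[(0,105),(2,54289)]) (1,[(0,1)]) (1,[(3,233)])) (.node ⟨-87,-136,168⟩ (.leaf false ⟨⟨-87,-136,168⟩,⟨8,-183,-144⟩,⟨216,-48,73⟩⟩ (1,[(0,1)]) (35,[(2,7648),(4,280),(1,61)]) (17,[(2,233),(4,4194),(0,6)])) (.leaf false ⟨⟨0,0,233⟩,⟨105,-208,0⟩,⟨208,105,0⟩⟩ (1,[(2,233)]) (3045,[(2,2862136),(0,3675),(1,10792)]) (9135,[(2,7652944),(0,21840),(1,19153)])))) (.node ⟨132,-127,144⟩ (.node ⟨-116,-192,-63⟩ (.leaf false ⟨⟨-116,-192,-63⟩,⟨132,-127,144⟩,⟨153,-36,-172⟩⟩ (1,[(0,1)]) (1,[(1,1)])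 (16,[(2,2563),(4,2796),(0,3)])) (.leaf false ⟨⟨12,-28,-231⟩,⟨161,168,-12⟩,⟨168,-159,28⟩⟩ (11,[(2,2685),(1,1),(3,181)]) (116,[(2,11535),(0,161),(3,11424)]) (29,[(2,1834),(0,42),(3,12675)]))) (.leaf false ⟨⟨-48,129,-188⟩,⟨1,-192,-132⟩,⟨228,28,-39⟩⟩ (36,[(3,4476),(2,1325),(0,47)]) (12,[(3,1464),(2,3701),(0,11)]) (48,[(3,12660),(2,307),(0,13)]))))) (.node ⟨0,1,0⟩ (.node ⟨0,0,1⟩ (.node ⟨105,0,208⟩ (.leaf false ⟨⟨-208,0,105⟩,⟨0,233,0⟩,⟨105,0,208⟩⟩ (208,[(3,54289),(0,105)]) (1,[(2,233)]) (1,[(0,1)])) (.node ⟨-136,-87,168⟩ (.leaf false ⟨⟨-224,-63,12⟩,⟨-63,208,-84⟩,⟨-12,84,217⟩⟩ (87,[(2,12092),(0,63),(1,104)]) (5,[(2,204),(1,3),(3,1040)]) (34,[(2,6874),(0,3),(3,3117)])) (.leaf false ⟨⟨-231,12,-28⟩,⟨-12,161,168⟩,⟨28,168,-159⟩⟩ (3045,[(2,1491844),(1,7243),(0,420)])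 (1827,[(2,1829248),(1,4588),(0,3381)]) (145,[(2,91377),(1,324),(0,280)])))) (.node ⟨-127,132,144⟩ (.node ⟨-192,-116,-63⟩ (.leaf false ⟨⟨-192,-116,-63⟩,⟨-127,132,144⟩,⟨-36,153,-172⟩⟩ (1,[(0,1)]) (1,[(1,1)]) (16,[(2,2563),(0,3),(3,2796)])) (.leaf false ⟨⟨-228,28,-39⟩,⟨1,192,132⟩,⟨48,129,-188⟩⟩ (33,[(2,2295),(4,6635),(1,7)]) (699,[(4,128849),(1,268),(0,852)]) (116,[(2,29935),(4,19200),(0,129)]))) (.leaf false ⟨⟨-192,1,-132⟩,⟨28,228,-39⟩,⟨129,-48,-188⟩⟩ (12,[(3,3701),(2,1464),(0,11)]) (48,[(3,307),(2,12660),(0,13)]) (36,[(3,1325),(2,4476),(0,47)])))) (.node ⟨0,0,1⟩ (.node ⟨-127,144,132⟩ (.node ⟨-192,-63,-116⟩ (.leaf false ⟨⟨-192,-63,-116⟩,⟨-127,144,132⟩,⟨-36,-172,153⟩⟩ (1,[(0,1)]) (1,[(1,1)]) (16,[(2,2796),(0,3),(3,2563)])) (.leaf false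 ⟨⟨-228,-39,28⟩,⟨1,132,192⟩,⟨48,-188,129⟩⟩ (33,[(1,7),(4,6635),(3,2295)]) (699,[(1,268),(4,128849),(0,852)]) (116,[(4,19200),(3,29935),(0,129)]))) (.leaf false ⟨⟨-192,-132,1⟩,⟨28,-39,228⟩,⟨129,-188,-48⟩⟩ (12,[(1,1464),(3,3701),(0,11)]) (48,[(1,12660),(3,307),(0,13)]) (36,[(1,4476),(3,1325),(0,47)]))) (.node ⟨-87,136,-168⟩ (.node ⟨-216,-48,73⟩ (.leaf false ⟨⟨-216,-48,73⟩,⟨-87,136,-168⟩,⟨-8,-183,-144⟩⟩ (1,[(0,1)]) (1,[(1,1)]) (27,[(2,3961),(0,1),(3,4893)])) (.leaf false ⟨⟨-216,-87,-8⟩,⟨-48,136,-183⟩,⟨73,-168,-144⟩⟩ (21,[(1,1),(4,4449),(3,1963)]) (233,[(1,143),(4,53823),(0,255)]) (73,[(4,25775),(3,19176),(0,144)]))) (.leaf false ⟨⟨-231,-28,-12⟩,⟨12,-168,161⟩,⟨28,-159,-168⟩⟩ (34,[(1,1584),(3,8463),(0,7)]) (17,[(1,791),(3,1623),(0,21)])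 (136,[(1,49560),(3,10025),(0,159)])))))
theorem h233_ok : h233.check (ok 233 4 ⟨3, 3, 3⟩) (fun _ r => r) [] = true := by decide +kernel

def h239 : T := .node ⟨1,0,0⟩ (.node ⟨0,1,0⟩ (.node ⟨0,0,1⟩ (.node ⟨-150,5,186⟩ (.node ⟨-86,210,-75⟩ (.leaf false ⟨⟨-150,5,186⟩,⟨-86,210,-75⟩,⟨165,114,130⟩⟩ (1,[(1,1)]) (1,[(0,1)]) (35,[(2,5975),(4,7409),(0,19)])) (.node ⟨-86,-150,165⟩ (.leaf false ⟨⟨-86,-150,165⟩,⟨-75,186,130⟩,⟨210,5,114⟩⟩ (1,[(0,1)]) (93,[(5,2775),(4,16973),(2,65)]) (25,[(5,1982),(4,8105),(1,38)])) (.leaf false ⟨⟨-75,-86,210⟩,⟨130,165,114⟩,⟨186,-150,5⟩⟩ (783920,[(2,990520),(1,636027),(0,407973)]) (19598,[(2,83142),(1,64939),(0,109701)]) (29397,[(2,17640),(1,51805),(0,42542)])))) (.node ⟨165,-86,-150⟩ (.node ⟨149,-186,18⟩ (.leaf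 false ⟨⟨114,210,5⟩,⟨130,-75,186⟩,⟨165,-86,-150⟩⟩ (25,[(3,3659),(2,19),(4,5345)]) (149,[(3,25374),(0,130),(4,13005)]) (1,[(1,1)])) (.leaf false ⟨⟨-75,186,-130⟩,⟨86,150,165⟩,⟨210,5,-114⟩⟩ (4469,[(3,44260),(1,3441),(0,6060)]) (8938,[(3,4640034),(1,19173),(0,16073)]) (17876,[(3,4272816),(1,39805),(0,18885)]))) (.node ⟨-75,186,-130⟩ (.leaf false ⟨⟨-171,138,94⟩,⟨18,149,-186⟩,⟨166,126,117⟩⟩ (505,[(3,2260),(0,168),(1,447)]) (99155,[(2,88925),(0,62601),(1,41569)]) (12075,[(3,4975551),(2,35066),(1,19730)])) (.leaf false ⟨⟨5,-114,210⟩,⟨150,165,86⟩,⟨186,-130,-75⟩⟩ (59493,[(2,77900),(1,107159),(0,83916)]) (2833,[(2,31767),(1,31365),(0,11135)]) (396620,[(2,399960),(1,47627),(0,288477)]))))) (.node ⟨213,54,94⟩ (.node ⟨-54,229,-42⟩ (.node ⟨94,-18,-219⟩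 (.leaf false ⟨⟨-54,229,-42⟩,⟨94,-18,-219⟩,⟨213,66,86⟩⟩ (1,[(1,1)]) (1,[(0,1)]) (1,[(3,8),(2,1),(4,12)])) (.leaf false ⟨⟨-219,42,86⟩,⟨18,229,-66⟩,⟨94,54,213⟩⟩ (3,[(3,1275),(5,1),(0,7)]) (18,[(3,51339),(5,21850),(0,229)]) (1,[(3,444),(5,376),(0,3)]))) (.leaf false ⟨⟨21,-86,-222⟩,⟨138,186,-59⟩,⟨194,-123,66⟩⟩ (18,[(2,4290),(0,7),(3,55)]) (9,[(2,1497),(0,23),(3,6941)]) (27,[(2,2292),(0,97),(3,18892)]))) (.leaf false ⟨⟨-138,-59,-186⟩,⟨21,222,-86⟩,⟨194,-66,-123⟩⟩ (47,[(3,13323),(2,2249),(0,93)]) (47,[(3,10146),(2,12756),(0,43)]) (94,[(3,44435),(2,438),(0,123)])))) (.node ⟨0,0,1⟩ (.node ⟨213,94,54⟩ (.node ⟨-54,-42,229⟩ (.node ⟨94,-219,-18⟩ (.leaf false ⟨⟨-54,-42,229⟩,⟨94,-219,-18⟩,⟨213,86,66⟩⟩ (1,[(1,1)]) (1,[(0,1)]) (1,[(3,12),(2,1),(4,8)]))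 (.leaf false ⟨⟨-219,-42,86⟩,⟨-18,229,66⟩,⟨94,-54,213⟩⟩ (9,[(5,2071),(4,9795),(0,43)]) (3,[(5,980),(4,1722),(0,11)]) (6,[(5,7238),(4,15873),(0,71)]))) (.leaf false ⟨⟨21,-238,6⟩,⟨126,6,-203⟩,⟨202,21,126⟩⟩ (18,[(2,1711),(0,7),(3,4578)]) (3,[(2,994),(0,7),(3,276)]) (27,[(2,26531),(0,101),(3,3675)]))) (.leaf false ⟨⟨-138,-186,-59⟩,⟨21,-86,222⟩,⟨194,-123,-66⟩⟩ (47,[(1,2249),(3,13323),(0,93)]) (47,[(1,12756),(3,10146),(0,43)]) (94,[(1,438),(3,44435),(0,123)]))) (.node ⟨149,138,-126⟩ (.node ⟨186,-94,117⟩ (.leaf false ⟨⟨18,-171,-166⟩,⟨149,138,-126⟩,⟨186,-94,117⟩⟩ (31,[(2,5497),(0,3),(3,5019)]) (1,[(1,1)]) (1,[(0,1)])) (.leaf false ⟨⟨-186,86,-123⟩,⟨-59,-222,-66⟩,⟨138,21,-194⟩⟩ (39,[(4,372),(3,500),(0,41)]) (39,[(4,1791),(3,10726),(0,22)]) (117,[(4,52230),(3,15779),(0,194)])))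 (.leaf false ⟨⟨-150,-186,5⟩,⟨86,-75,-210⟩,⟨165,-130,114⟩⟩ (23,[(1,3791),(3,1169),(0,31)]) (46,[(1,12810),(3,7681),(0,25)]) (69,[(1,324),(3,21070),(0,65)]))))) (.node ⟨0,1,0⟩ (.node ⟨0,0,1⟩ (.node ⟨94,54,213⟩ (.node ⟨-42,229,-54⟩ (.node ⟨-219,-18,94⟩ (.leaf false ⟨⟨-219,-18,94⟩,⟨-42,229,-54⟩,⟨86,66,213⟩⟩ (1,[(0,1)]) (1,[(1,1)]) (1,[(5,8),(4,12),(2,1)])) (.leaf false ⟨⟨-238,21,6⟩,⟨6,126,-203⟩,⟨21,202,126⟩⟩ (6,[(3,694),(5,2961),(0,7)]) (1,[(3,455),(5,1527),(0,7)]) (9,[(3,10628),(5,21930),(0,101)]))) (.leaf false ⟨⟨-238,6,21⟩,⟨6,-203,126⟩,⟨21,126,202⟩⟩ (18,[(4,4578),(3,1711),(0,7)]) (3,[(4,276),(3,994),(0,7)]) (27,[(4,3675),(3,26531),(0,101)]))) (.leaf false ⟨⟨-219,-94,-18⟩,⟨-86,213,-66⟩,⟨-42,54,229⟩⟩ (94,[(1,44955),(0,219),(2,2990)])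 (47,[(1,6057),(0,43),(2,12333)]) (47,[(1,15236),(0,21),(2,3672)]))) (.node ⟨138,149,-126⟩ (.node ⟨-94,186,117⟩ (.leaf false ⟨⟨-171,18,-166⟩,⟨-94,186,117⟩,⟨138,149,-126⟩⟩ (31,[(2,5497),(4,5019),(0,3)]) (1,[(0,1)]) (1,[(1,1)])) (.leaf false ⟨⟨-238,21,-6⟩,⟨-6,-126,-203⟩,⟨21,202,-126⟩⟩ (21,[(4,5136),(3,292),(1,1)]) (117,[(4,19784),(3,23016),(0,203)]) (1,[(4,117),(3,53),(1,1)]))) (.leaf false ⟨⟨-203,-126,-6⟩,⟨-126,202,21⟩,⟨-6,21,-238⟩⟩ (138,[(1,26406),(0,203),(2,12859)]) (23,[(1,2163),(0,21),(2,7775)]) (23,[(1,5600),(0,1),(2,632)])))) (.node ⟨0,0,1⟩ (.node ⟨138,-126,149⟩ (.node ⟨-94,117,186⟩ (.leaf false ⟨⟨-171,-166,18⟩,⟨-94,117,186⟩,⟨138,-126,149⟩⟩ (31,[(4,5019),(3,5497),(0,3)]) (1,[(0,1)]) (1,[(1,1)])) (.leaf false ⟨⟨-238,-6,21⟩,⟨-6,-203,-126⟩,⟨21,-126,202⟩⟩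 (21,[(2,292),(4,5136),(1,1)]) (117,[(2,23016),(4,19784),(0,203)]) (1,[(2,53),(4,117),(1,1)]))) (.leaf false ⟨⟨-203,-6,-126⟩,⟨-126,21,202⟩,⟨-6,-238,21⟩⟩ (138,[(1,12859),(0,203),(2,26406)]) (23,[(1,7775),(0,21),(2,2163)]) (23,[(1,632),(0,1),(2,5600)]))) (.leaf false ⟨⟨-239,0,0⟩,⟨0,-239,0⟩,⟨0,0,-239⟩⟩ (1,[(2,239)]) (1,[(1,239)]) (1,[(0,239)]))))
theorem h239_ok : h239.check (ok 239 4 ⟨3, 3, 3⟩) (fun _ r => r) [] = true := by decide +kernel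

def h241 : T := .node ⟨1,0,0⟩ (.node ⟨0,1,0⟩ (.node ⟨0,0,1⟩ (.leaf false ⟨⟨0,0,241⟩,⟨0,241,0⟩,⟨241,0,0⟩⟩ (1,[(0,241)]) (1,[(1,241)]) (1,[(2,241)])) (.node ⟨200,84,105⟩ (.node ⟨-72,216,-79⟩ (.node ⟨96,-47,-216⟩ (.leaf false ⟨⟨-72,216,-79⟩,⟨96,-47,-216⟩,⟨209,96,72⟩⟩ (1,[(1,1)]) (1,[(0,1)]) (35,[(5,2515),(2,24),(4,1344)])) (.leaf false ⟨⟨-183,96,-124⟩,⟨16,201,132⟩,⟨156,92,-159⟩⟩ (47,[(3,26564),(5,615),(0,96)]) (47,[(3,37212),(5,20048),(0,201)]) (47,[(3,27345),(5,16164),(0,92)]))) (.leaf false ⟨⟨16,156,-183⟩,⟨132,-159,-124⟩,⟨201,92,96⟩⟩ (9,[(2,1805),(0,2),(3,1836)]) (6,[(2,1613),(0,11),(3,1422)]) (24,[(2,2989),(0,67),(3,16680)]))) (.leaf false ⟨⟨-204,48,-119⟩,⟨84,-119,-192⟩,⟨97,204,-84⟩⟩ (15,[(3,340),(2,2148),(0,17)]) (35,[(3,15740),(2,1211),(0,64)])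 (5,[(3,1285),(2,1356),(0,4)])))) (.node ⟨0,0,1⟩ (.node ⟨200,105,84⟩ (.node ⟨-72,-79,216⟩ (.node ⟨96,-216,-47⟩ (.leaf false ⟨⟨-72,-79,216⟩,⟨96,-216,-47⟩,⟨209,72,96⟩⟩ (1,[(1,1)]) (1,[(0,1)]) (35,[(3,1344),(2,24),(5,2515)])) (.leaf false ⟨⟨-183,-124,96⟩,⟨16,132,201⟩,⟨156,-159,92⟩⟩ (47,[(5,615),(4,26564),(0,96)]) (47,[(5,20048),(4,37212),(0,201)]) (47,[(5,16164),(4,27345),(0,92)]))) (.leaf false ⟨⟨16,-183,156⟩,⟨132,-124,-159⟩,⟨201,96,92⟩⟩ (9,[(2,1836),(0,2),(3,1805)]) (6,[(2,1422),(0,11),(3,1613)]) (24,[(2,16680),(0,67),(3,2989)]))) (.leaf false ⟨⟨-204,-119,48⟩,⟨84,-192,-119⟩,⟨97,-84,204⟩⟩ (15,[(1,2148),(3,340),(0,17)]) (35,[(1,1211),(3,15740),(0,64)]) (5,[(1,1356),(3,1285),(0,4)]))) (.node ⟨-16,-240,-15⟩ (.node ⟨-15,16,-240⟩ (.leaf false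 ⟨⟨-16,-240,-15⟩,⟨-15,16,-240⟩,⟨240,-15,-16⟩⟩ (1,[(1,1)]) (1,[(0,1)]) (15,[(4,3615),(3,241),(0,1)])) (.node ⟨240,20,9⟩ (.leaf false ⟨⟨9,-180,160⟩,⟨20,-159,-180⟩,⟨240,20,9⟩⟩ (14289,[(0,575),(1,10135),(2,10089)]) (3580,[(3,612381),(0,459),(2,2410)]) (1,[(0,1)])) (.leaf false ⟨⟨-223,-84,-36⟩,⟨36,-168,169⟩,⟨84,-151,-168⟩⟩ (412,[(5,322799),(1,3),(0,1728)]) (115,[(3,253679),(1,1140),(0,54)]) (20,[(3,2001),(5,37920),(0,151)])))) (.leaf false ⟨⟨9,-128,-204⟩,⟨48,201,-124⟩,⟨236,-36,33⟩⟩ (16,[(1,3399),(0,9),(2,4208)]) (1,[(1,169),(0,3),(2,519)]) (4,[(1,753),(0,59),(2,14304)]))))) (.node ⟨0,1,0⟩ (.node ⟨0,0,1⟩ (.node ⟨105,84,200⟩ (.node ⟨-79,216,-72⟩ (.node ⟨-216,-47,96⟩ (.leaf false ⟨⟨-216,-47,96⟩,⟨-79,216,-72⟩,⟨72,96,209⟩⟩ (1,[(0,1)]) (1,[(1,1)])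 (35,[(3,2515),(4,1344),(2,24)])) (.leaf false ⟨⟨-236,33,36⟩,⟨9,204,-128⟩,⟨48,124,201⟩⟩ (47,[(3,4860),(5,18220),(0,33)]) (47,[(3,13568),(5,43641),(0,204)]) (47,[(3,21351),(5,24528),(0,124)]))) (.leaf false ⟨⟨-236,9,48⟩,⟨33,204,124⟩,⟨36,-128,201⟩⟩ (3,[(4,866),(3,459),(0,2)]) (18,[(4,1855),(3,10368),(0,31)]) (24,[(4,4429),(3,11400),(0,67)]))) (.leaf false ⟨⟨-216,-96,-47⟩,⟨-79,72,216⟩,⟨-72,209,-96⟩⟩ (35,[(1,12755),(0,72),(2,2688)]) (105,[(1,38480),(0,79),(2,14196)]) (35,[(1,1440),(0,24),(2,9331)]))) (.node ⟨-240,-16,-15⟩ (.node ⟨16,-15,-240⟩ (.leaf false ⟨⟨-240,-16,-15⟩,⟨-15,240,-16⟩,⟨16,-15,-240⟩⟩ (1,[(1,1)]) (15,[(4,241),(3,3615),(0,1)]) (1,[(0,1)])) (.node ⟨20,240,9⟩ (.leaf false ⟨⟨-180,9,160⟩,⟨-159,20,-180⟩,⟨20,240,9⟩⟩ (14289,[(2,10089),(1,10135),(0,575)])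 (3580,[(3,612381),(2,2410),(0,459)]) (1,[(0,1)])) (.leaf false ⟨⟨-240,-15,16⟩,⟨-16,240,-15⟩,⟨-15,-16,-240⟩⟩ (69,[(3,227520),(0,64),(1,955)]) (1,[(3,255),(1,1),(4,225)]) (4,[(3,933),(0,3),(4,656)])))) (.leaf false ⟨⟨-183,96,-124⟩,⟨16,201,132⟩,⟨156,92,-159⟩⟩ (1,[(1,214),(3,1623),(0,6)]) (16,[(1,903),(3,47984),(0,201)]) (4,[(1,981),(3,4896),(0,23)])))) (.node ⟨0,0,1⟩ (.node ⟨-240,-15,-16⟩ (.node ⟨16,-240,-15⟩ (.leaf false ⟨⟨-240,-15,-16⟩,⟨-15,-16,240⟩,⟨16,-240,-15⟩⟩ (1,[(1,1)]) (15,[(2,3615),(4,241),(0,1)]) (1,[(0,1)])) (.node ⟨20,9,240⟩ (.leaf false ⟨⟨-180,160,9⟩,⟨-159,-180,20⟩,⟨20,9,240⟩⟩ (14289,[(1,10135),(2,10089),(0,575)]) (3580,[(2,2410),(4,612381),(0,459)]) (1,[(0,1)])) (.leaf false ⟨⟨-240,16,-15⟩,⟨-16,-15,240⟩,⟨-15,-240,-16⟩⟩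 (69,[(1,955),(0,64),(4,227520)]) (1,[(3,225),(1,1),(4,255)]) (4,[(3,656),(0,3),(4,933)])))) (.leaf false ⟨⟨-183,-124,96⟩,⟨16,132,201⟩,⟨156,-159,92⟩⟩ (1,[(3,1623),(2,214),(0,6)]) (16,[(3,47984),(2,903),(0,201)]) (4,[(3,4896),(2,981),(0,23)]))) (.node ⟨-36,169,-168⟩ (.node ⟨-223,36,84⟩ (.leaf false ⟨⟨-223,36,84⟩,⟨-84,-168,-151⟩,⟨-36,169,-168⟩⟩ (1,[(0,1)]) (223,[(2,40729),(0,84),(3,40488)]) (1,[(1,1)])) (.leaf false ⟨⟨-168,84,-151⟩,⟨-36,-223,-84⟩,⟨169,36,-168⟩⟩ (168,[(1,151),(4,22788),(3,11407)]) (1,[(4,259),(3,187),(0,1)]) (241,[(1,108),(4,14701),(0,266)]))) (.node ⟨20,-159,180⟩ (.leaf false ⟨⟨-240,-20,9⟩,⟨9,-180,-160⟩,⟨20,-159,180⟩⟩ (159,[(2,2169),(4,38560),(0,20)]) (53,[(2,19280),(4,723),(0,60)]) (1,[(0,1)])) (.node ⟨192,-119,-84⟩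 (.leaf false ⟨⟨-168,-151,-84⟩,⟨36,84,-223⟩,⟨169,-168,-36⟩⟩ (103,[(5,35860),(2,1126),(1,1099)]) (3708,[(5,127144),(2,20337),(1,23575)]) (2849,[(5,96931),(2,819),(0,2859)])) (.leaf false ⟨⟨-240,9,20⟩,⟨-20,-180,-159⟩,⟨9,-160,180⟩⟩ (1797,[(2,93214),(1,91554),(0,10187)]) (11980,[(2,974521),(1,959353),(0,84038)]) (11980,[(2,34898),(1,22299),(0,3659)])))))))
theorem h241_ok : h241.check (ok 241 4 ⟨3, 3, 3⟩) (fun _ r => r) [] = true := by decide +kernel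

def h247 : T := .node ⟨1,0,0⟩ (.node ⟨0,1,0⟩ (.node ⟨0,0,1⟩ (.node ⟨-78,13,234⟩ (.node ⟨-66,237,-22⟩ (.leaf false ⟨⟨-66,237,-22⟩,⟨-3,22,246⟩,⟨238,66,-3⟩⟩ (1,[(0,1)]) (237,[(2,58786),(4,741),(0,22)]) (79,[(2,247),(4,20254),(0,22)])) (.leaf false ⟨⟨-78,13,234⟩,⟨78,234,13⟩,⟨221,-78,78⟩⟩ (1,[(1,1)]) (18,[(4,1482),(3,4199),(1,1)]) (2144,[(4,475228),(1,645),(0,741)]))) (.leaf false ⟨⟨13,246,18⟩,⟨78,13,-234⟩,⟨234,-18,77⟩⟩ (6,[(1,342),(0,1),(2,1489)]) (1,[(0,1),(2,26)]) (1,[(1,779),(0,3),(2,21)]))) (.node ⟨234,13,78⟩ (.node ⟨-18,234,77⟩ (.leaf false ⟨⟨-18,234,77⟩,⟨13,78,-234⟩,⟨246,13,18⟩⟩ (1,[(0,1)]) (3,[(2,779),(4,57),(0,1)]) (1,[(2,60),(4,12),(1,1)])) (.leaf false ⟨⟨18,13,-246⟩,⟨77,234,18⟩,⟨234,-78,13⟩⟩ (1,[(2,169),(0,1),(3,247)]) (234,[(2,1794),(1,77),(3,53755)])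 (235,[(2,7722),(0,91),(1,228)]))) (.node ⟨-78,-102,-211⟩ (.leaf false ⟨⟨-210,-3,-130⟩,⟨45,230,-78⟩,⟨122,-90,-195⟩⟩ (3,[(4,540),(3,56),(1,5)]) (1,[(4,279),(3,243),(1,1)]) (211,[(4,40952),(3,900),(0,195)])) (.leaf false ⟨⟨-238,66,-3⟩,⟨-3,-22,-246⟩,⟨66,237,-22⟩⟩ (5213,[(4,1685008),(0,5187),(1,14232)]) (5213,[(4,4654065),(0,1482),(1,20450)]) (5213,[(4,11106576),(0,18772),(1,52251)]))))) (.node ⟨0,0,1⟩ (.node ⟨234,78,13⟩ (.node ⟨-18,77,234⟩ (.leaf false ⟨⟨-18,13,246⟩,⟨77,-234,18⟩,⟨234,78,13⟩⟩ (39,[(4,36),(3,2650),(0,41)]) (13,[(4,1019),(3,3119),(0,1)]) (1,[(1,1)])) (.leaf false ⟨⟨18,-246,13⟩,⟨77,18,234⟩,⟨234,13,-78⟩⟩ (1,[(2,247),(0,1),(3,169)]) (234,[(2,53755),(1,77),(3,1794)]) (83,[(2,7722),(1,78),(0,65)]))) (.node ⟨-78,-211,-102⟩ (.leaf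 false ⟨⟨-210,-130,-3⟩,⟨45,-78,230⟩,⟨122,-195,-90⟩⟩ (3,[(2,56),(4,540),(1,5)]) (1,[(2,243),(4,279),(1,1)]) (211,[(2,900),(4,40952),(0,195)])) (.leaf false ⟨⟨-238,-3,66⟩,⟨-3,-246,-22⟩,⟨66,-22,237⟩⟩ (5213,[(4,1685008),(1,14232),(0,5187)]) (5213,[(4,4654065),(1,20450),(0,1482)]) (5213,[(4,11106576),(1,52251),(0,18772)])))) (.node ⟨-95,-228,0⟩ (.leaf false ⟨⟨-95,-228,0⟩,⟨0,0,-247⟩,⟨228,-95,0⟩⟩ (1,[(0,1)]) (1,[(1,247)]) (12,[(3,3211),(0,5)])) (.node ⟨230,-3,90⟩ (.leaf false ⟨⟨45,-210,-122⟩,⟨78,130,-195⟩,⟨230,-3,90⟩⟩ (19,[(2,2318),(1,9),(3,6042)]) (95,[(2,18525),(1,78),(3,5434)]) (1,[(0,1)])) (.leaf false ⟨⟨-230,-3,-90⟩,⟨45,210,-122⟩,⟨78,-130,-195⟩⟩ (1,[(3,6),(0,1)]) (45,[(1,169),(3,29265),(0,61)]) (30,[(1,182),(3,45591),(0,65)])))))) (.node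 ⟨0,1,0⟩ (.node ⟨0,0,1⟩ (.node ⟨78,13,234⟩ (.node ⟨77,234,-18⟩ (.leaf false ⟨⟨-234,18,77⟩,⟨13,246,-18⟩,⟨78,13,234⟩⟩ (13,[(2,1019),(4,3119),(0,1)]) (39,[(2,36),(4,2650),(0,41)]) (1,[(1,1)])) (.leaf false ⟨⟨-246,13,18⟩,⟨13,-78,234⟩,⟨18,234,77⟩⟩ (1,[(4,169),(3,247),(0,1)]) (235,[(4,7722),(1,228),(0,91)]) (234,[(4,1794),(3,53755),(1,77)]))) (.node ⟨-211,-102,-78⟩ (.leaf false ⟨⟨-238,-51,-42⟩,⟨-51,42,238⟩,⟨-42,238,-51⟩⟩ (211,[(2,9702),(0,238),(3,13515)]) (26,[(2,10166),(1,17),(3,1313)]) (13,[(2,975),(1,7),(3,3185)])) (.leaf false ⟨⟨-246,-22,-3⟩,⟨-22,237,66⟩,⟨-3,66,-238⟩⟩ (5213,[(2,4654065),(1,20450),(0,1482)]) (5213,[(2,11106576),(1,52251),(0,18772)]) (5213,[(2,1685008),(1,14232),(0,5187)])))) (.node ⟨0,-95,-228⟩ (.leaf false ⟨⟨-247,0,0⟩,⟨0,-95,-228⟩,⟨0,228,-95⟩⟩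 (1,[(3,247)]) (1,[(0,1)]) (12,[(0,5),(2,3211)])) (.node ⟨90,230,-3⟩ (.leaf false ⟨⟨-195,78,130⟩,⟨-122,45,-210⟩,⟨90,230,-3⟩⟩ (95,[(2,5434),(4,18525),(1,78)]) (19,[(2,6042),(4,2318),(1,9)]) (1,[(0,1)])) (.leaf false ⟨⟨-246,-22,-3⟩,⟨-22,237,66⟩,⟨-3,66,-238⟩⟩ (285,[(2,418152),(0,779),(1,1820)]) (855,[(2,545889),(0,209),(1,2639)]) (570,[(2,236493),(0,19),(1,442)]))))) (.node ⟨0,0,1⟩ (.node ⟨0,-228,-95⟩ (.leaf false ⟨⟨-247,0,0⟩,⟨0,-228,-95⟩,⟨0,-95,228⟩⟩ (1,[(3,247)]) (1,[(0,1)]) (12,[(1,3211),(0,5)])) (.node ⟨90,-3,230⟩ (.leaf false ⟨⟨-195,130,78⟩,⟨-122,-210,45⟩,⟨90,-3,230⟩⟩ (95,[(1,78),(4,18525),(3,5434)]) (19,[(1,9),(4,2318),(3,6042)]) (1,[(0,1)])) (.leaf false ⟨⟨-246,-3,-22⟩,⟨-22,66,237⟩,⟨-3,-238,66⟩⟩ (285,[(1,1820),(0,779),(3,418152)])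 (855,[(1,2639),(0,209),(3,545889)]) (570,[(1,442),(0,19),(3,236493)])))) (.leaf false ⟨⟨-247,0,0⟩,⟨0,-247,0⟩,⟨0,0,-247⟩⟩ (1,[(2,247)]) (1,[(1,247)]) (1,[(0,247)]))))
theorem h247_ok : h247.check (ok 247 4 ⟨3, 3, 3⟩) (fun _ r => r) [] = true := by decide +kernel

def h251 : T := .node ⟨1,0,0⟩ (.node ⟨0,1,0⟩ (.node ⟨0,0,1⟩ (.node ⟨-66,9,242⟩ (.node ⟨9,242,-66⟩ (.node ⟨-66,66,233⟩ (.leaf false ⟨⟨-66,66,233⟩,⟨9,242,-66⟩,⟨242,9,66⟩⟩ (1,[(0,1)]) (1,[(1,1)]) (22,[(3,753),(5,5522),(0,3)])) (.leaf false ⟨⟨-66,9,242⟩,⟨66,242,9⟩,⟨233,-66,66⟩⟩ (1,[(2,1)]) (27,[(1,1452),(2,6248),(0,6077)]) (81,[(1,13713),(2,60148),(0,58564)]))) (.leaf false ⟨⟨-66,9,242⟩,⟨66,242,9⟩,⟨233,-66,66⟩⟩ (1,[(1,1)]) (22,[(4,1479),(3,6050),(0,3)]) (1,[(4,242),(3,176),(0,1)])))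 (.leaf false ⟨⟨18,249,-26⟩,⟨89,18,234⟩,⟨234,-26,-87⟩⟩ (11,[(1,440),(0,3),(2,2766)]) (66,[(1,36982),(0,89),(2,1989)]) (11,[(1,8481),(0,39),(2,65)]))) (.node ⟨-82,234,-39⟩ (.node ⟨234,-82,-39⟩ (.node ⟨-135,26,-210⟩ (.node ⟨170,-135,-126⟩ (.leaf false ⟨⟨-135,26,-210⟩,⟨126,210,-55⟩,⟨170,-135,-126⟩⟩ (1,[(1,1)]) (42,[(6,6777),(5,8534),(1,11)]) (1,[(0,1)])) (.leaf false ⟨⟨-198,154,9⟩,⟨89,126,-198⟩,⟨126,153,154⟩⟩ (1205553,[(2,577049),(0,1574388),(1,785800)]) (401851,[(2,1354396),(0,1051676),(1,758363)]) (3616659,[(2,9923536),(0,9853605),(1,1417004)]))) (.leaf false ⟨⟨-10,249,30⟩,⟨150,30,-199⟩,⟨201,-10,150⟩⟩ (29458,[(3,1611795),(0,18078),(2,33355)]) (6004,[(3,917506),(1,4695),(2,2415)]) (317501,[(1,142641),(0,265519),(2,65919)]))) (.leaf false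 ⟨⟨-126,201,82⟩,⟨6,98,-231⟩,⟨217,114,54⟩⟩ (82,[(2,1115),(4,36702),(0,201)]) (41,[(2,11382),(4,11712),(0,49)]) (41,[(2,9),(4,22235),(0,57)]))) (.leaf false ⟨⟨54,242,-39⟩,⟨73,-54,-234⟩,⟨234,-39,82⟩⟩ (41,[(1,2652),(0,27),(2,16240)]) (82,[(1,22035),(0,73),(2,12654)]) (41,[(1,1201),(0,117),(2,25779)])))) (.node ⟨0,0,1⟩ (.node ⟨-82,-39,234⟩ (.node ⟨234,-39,-82⟩ (.node ⟨-135,-210,26⟩ (.node ⟨170,-126,-135⟩ (.leaf false ⟨⟨-135,-210,26⟩,⟨126,-55,210⟩,⟨170,-126,-135⟩⟩ (1,[(1,1)]) (42,[(4,8534),(6,6777),(1,11)]) (1,[(0,1)])) (.leaf false ⟨⟨-198,9,154⟩,⟨89,-198,126⟩,⟨126,154,153⟩⟩ (1205553,[(2,577049),(1,785800),(0,1574388)]) (401851,[(2,1354396),(1,758363),(0,1051676)]) (3616659,[(2,9923536),(1,1417004),(0,9853605)]))) (.leaf false ⟨⟨-10,30,249⟩,⟨150,-199,30⟩,⟨201,150,-10⟩⟩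 (29458,[(4,1611795),(2,33355),(0,18078)]) (6004,[(1,4695),(4,917506),(2,2415)]) (317501,[(1,142641),(2,65919),(0,265519)]))) (.leaf false ⟨⟨-126,82,201⟩,⟨6,-231,98⟩,⟨217,54,114⟩⟩ (82,[(4,36702),(3,1115),(0,201)]) (41,[(4,11712),(3,11382),(0,49)]) (41,[(4,22235),(3,9),(0,57)]))) (.leaf false ⟨⟨54,-39,242⟩,⟨73,-234,-54⟩,⟨234,82,-39⟩⟩ (41,[(1,16240),(0,27),(2,2652)]) (82,[(1,12654),(0,73),(2,22035)]) (41,[(1,25779),(0,117),(2,1201)]))) (.node ⟨18,-234,89⟩ (.node ⟨226,105,-30⟩ (.node ⟨233,66,66⟩ (.leaf false ⟨⟨18,-234,89⟩,⟨26,-87,-234⟩,⟨249,26,18⟩⟩ (1,[(2,1)]) (113,[(3,26052),(1,13),(4,11196)]) (233,[(3,12240),(0,249),(4,10376)])) (.leaf false ⟨⟨-126,-30,-215⟩,⟨105,-226,-30⟩,⟨190,105,-126⟩⟩ (1478841,[(1,3292684),(2,529185),(0,4034360)])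 (4436523,[(1,8327764),(2,6172776),(0,6555149)]) (492947,[(1,1001915),(2,66216),(0,574956)]))) (.node ⟨-18,-234,89⟩ (.leaf false ⟨⟨-26,-87,-234⟩,⟨-18,-234,89⟩,⟨249,-26,-18⟩⟩ (35,[(3,9060),(5,5644),(1,29)]) (1,[(0,1)]) (9,[(3,251),(5,2259),(0,1)])) (.leaf false ⟨⟨-242,54,-39⟩,⟨-39,-234,-82⟩,⟨54,73,-234⟩⟩ (1395,[(2,6152),(1,2592),(0,7637)]) (9300,[(2,963461),(1,160056),(0,1025981)]) (20925,[(2,2657311),(1,434331),(0,2858731)])))) (.leaf false ⟨⟨-30,-150,-199⟩,⟨-10,201,-150⟩,⟨249,-10,-30⟩⟩ (89,[(3,912),(2,59916),(0,199)]) (89,[(3,1810),(2,17211),(0,150)]) (89,[(3,22701),(2,7910),(0,30)]))))) (.node ⟨0,1,0⟩ (.node ⟨0,0,1⟩ (.node ⟨-39,234,-82⟩ (.node ⟨-39,-82,234⟩ (.node ⟨-210,-135,26⟩ (.node ⟨-126,170,-135⟩ (.leaf false ⟨⟨-210,-135,26⟩,⟨-126,170,-135⟩,⟨-55,126,210⟩⟩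 (1,[(1,1)]) (1,[(0,1)]) (42,[(4,8534),(1,11),(5,6777)])) (.leaf false ⟨⟨-234,-54,73⟩,⟨-39,242,54⟩,⟨82,-39,234⟩⟩ (1205553,[(1,1841608),(3,1790132),(0,1384551)]) (1205553,[(1,1049560),(3,3679409),(0,2514984)]) (3616659,[(1,3702923),(3,9968716),(0,11610792)]))) (.leaf false ⟨⟨-199,150,-30⟩,⟨-30,10,249⟩,⟨150,201,10⟩⟩ (1501,[(1,165),(5,252484),(2,1020)]) (29458,[(1,33875),(5,4341795),(0,22758)]) (952503,[(1,288432),(2,447848),(0,817097)]))) (.leaf false ⟨⟨-234,73,-54⟩,⟨-39,54,242⟩,⟨82,234,-39⟩⟩ (82,[(2,12654),(4,22035),(0,73)]) (41,[(2,16240),(4,2652),(0,27)]) (41,[(2,25779),(4,1201),(0,117)]))) (.leaf false ⟨⟨-234,-54,73⟩,⟨-39,242,54⟩,⟨82,-39,234⟩⟩ (82,[(3,22035),(2,12654),(0,73)]) (41,[(3,2652),(2,16240),(0,27)]) (41,[(3,1201),(2,25779),(0,117)])))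 (.node ⟨-234,18,89⟩ (.node ⟨105,226,-30⟩ (.node ⟨66,233,66⟩ (.leaf false ⟨⟨-242,66,9⟩,⟨9,66,-242⟩,⟨66,233,66⟩⟩ (233,[(3,2259),(5,60742),(0,66)]) (113,[(3,26356),(5,2448),(1,33)]) (1,[(0,1)])) (.leaf false ⟨⟨-242,-66,9⟩,⟨-66,233,-66⟩,⟨9,-66,-242⟩⟩ (4436523,[(2,4627251),(1,2822480),(0,4351852)]) (1478841,[(2,1384020),(1,3311396),(0,1839991)]) (492947,[(2,169516),(1,1322099),(0,1435108)]))) (.node ⟨-234,-18,89⟩ (.leaf false ⟨⟨-234,-18,89⟩,⟨-87,-26,-234⟩,⟨-26,249,-18⟩⟩ (1,[(0,1)]) (35,[(3,9060),(1,29),(4,5644)]) (9,[(3,251),(0,1),(4,2259)])) (.leaf false ⟨⟨-242,-66,9⟩,⟨-66,233,-66⟩,⟨9,-66,-242⟩⟩ (20925,[(1,174888),(2,1031128),(0,1087963)]) (27900,[(1,255816),(2,1733071),(0,1839991)]) (2325,[(1,55827),(2,333637),(0,358777)])))) (.leaf false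 ⟨⟨-150,-30,-199⟩,⟨-10,249,-30⟩,⟨201,-10,-150⟩⟩ (89,[(3,59916),(2,912),(0,199)]) (89,[(3,7910),(2,22701),(0,30)]) (89,[(3,17211),(2,1810),(0,150)])))) (.node ⟨0,0,1⟩ (.node ⟨89,-234,18⟩ (.node ⟨-30,105,226⟩ (.node ⟨66,66,233⟩ (.leaf false ⟨⟨-242,9,66⟩,⟨9,-242,66⟩,⟨66,66,233⟩⟩ (113,[(5,26356),(4,2448),(1,33)]) (233,[(5,2259),(4,60742),(0,66)]) (1,[(0,1)])) (.leaf false ⟨⟨-242,9,-66⟩,⟨-66,-66,233⟩,⟨9,-242,-66⟩⟩ (492947,[(2,169516),(1,1322099),(0,1435108)]) (1478841,[(2,1384020),(1,3311396),(0,1839991)]) (4436523,[(2,4627251),(1,2822480),(0,4351852)]))) (.node ⟨89,-234,-18⟩ (.leaf false ⟨⟨-234,-87,-26⟩,⟨-18,-26,249⟩,⟨89,-234,-18⟩⟩ (35,[(3,5644),(5,9060),(1,29)]) (9,[(3,2259),(5,251),(0,1)]) (1,[(0,1)])) (.leaf false ⟨⟨-242,-39,54⟩,⟨-39,-82,-234⟩,⟨54,-234,73⟩⟩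 (6975,[(0,1182197),(1,180297),(2,1102457)]) (20925,[(0,821441),(1,147816),(2,762446)]) (5580,[(0,136331),(1,19656),(2,133091)])))) (.leaf false ⟨⟨-199,-150,-30⟩,⟨-150,201,-10⟩,⟨-30,-10,249⟩⟩ (89,[(1,912),(0,199),(2,59916)]) (89,[(1,1810),(0,150),(2,17211)]) (89,[(1,22701),(0,30),(2,7910)]))) (.leaf false ⟨⟨-251,0,0⟩,⟨0,-251,0⟩,⟨0,0,-251⟩⟩ (1,[(2,251)]) (1,[(1,251)]) (1,[(0,251)]))))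
theorem h251_ok : h251.check (ok 251 4 ⟨3, 3, 3⟩) (fun _ r => r) [] = true := by decide +kernel


end H34S
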