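import Pool.Agent.Lib.H34S.Cover

/-!
# H34S: certificates (generated), hexagonal numbers
-/

set_option autoImplicit false

namespace H34S

def h253 : T := .node ⟨1,0,0⟩ (.node ⟨0,1,0⟩ (.node ⟨0,0,1⟩ (.leaf false ⟨⟨0,0,253⟩,⟨0,253,0⟩,⟨253,0,0⟩⟩ (1,[(0,253)]) (1,[(1,253)]) (1,[(2,253)])) (.node ⟨-72,60,-235⟩ (.node ⟨53,240,60⟩ (.node ⟨240,-35,-72⟩ (.leaf false ⟨⟨-60,72,-235⟩,⟨53,240,60⟩,⟨240,-35,-72⟩⟩ (1,[(5,12),(4,12),(2,1)]) (1,[(1,1)]) (1,[(0,1)])) (.leaf false ⟨⟨-224,72,93⟩,⟨12,213,-136⟩,⟨117,116,192⟩⟩ (35,[(3,1929),(5,9440),(0,72)]) (35,[(3,20096),(5,51540),(0,213)]) (35,[(3,1632),(5,31935),(0,116)]))) (.leaf false ⟨⟨-154,33,-198⟩,⟨33,-242,-66⟩,⟨198,66,-143⟩⟩ (10,[(4,209),(3,8250),(0,33)]) (10,[(4,913),(3,220),(0,11)]) (60,[(4,19459),(3,38280),(0,143)])))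 (.leaf false ⟨⟨12,252,-19⟩,⟨109,12,228⟩,⟨228,-19,-108⟩⟩ (6,[(1,349),(0,1),(2,1572)]) (72,[(1,9199),(0,109),(2,7404)]) (6,[(1,5113),(0,19),(2,1026)])))) (.node ⟨0,0,1⟩ (.node ⟨-72,-235,60⟩ (.node ⟨53,60,240⟩ (.node ⟨240,-72,-35⟩ (.leaf false ⟨⟨-60,-235,72⟩,⟨53,60,240⟩,⟨240,-72,-35⟩⟩ (1,[(3,12),(5,12),(2,1)]) (1,[(1,1)]) (1,[(0,1)])) (.leaf false ⟨⟨-224,-72,93⟩,⟨-12,213,136⟩,⟨117,-116,192⟩⟩ (35,[(5,14480),(4,9216),(0,93)]) (35,[(5,32220),(4,2337),(0,136)]) (35,[(5,50175),(4,17884),(0,192)]))) (.leaf false ⟨⟨-154,-198,33⟩,⟨33,-66,-242⟩,⟨198,-143,66⟩⟩ (10,[(2,8250),(4,209),(0,33)]) (10,[(2,220),(4,913),(0,11)]) (60,[(2,38280),(4,19459),(0,143)]))) (.leaf false ⟨⟨12,-19,252⟩,⟨109,228,12⟩,⟨228,-108,-19⟩⟩ (6,[(1,1572),(0,1),(2,349)]) (72,[(1,7404),(0,109),(2,9199)])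 (6,[(1,1026),(0,19),(2,5113)]))) (.node ⟨-80,-228,-75⟩ (.node ⟨-3,80,-240⟩ (.leaf false ⟨⟨-80,-228,-75⟩,⟨-3,80,-240⟩,⟨240,-75,-28⟩⟩ (1,[(1,1)]) (1,[(0,1)]) (60,[(4,14421),(3,5060),(0,7)])) (.leaf false ⟨⟨-19,-108,-228⟩,⟨-12,-228,109⟩,⟨252,-19,-12⟩⟩ (19,[(2,3657),(4,359),(1,9)]) (165,[(4,7678),(0,114),(1,125)]) (12,[(2,69),(4,3104),(1,1)]))) (.leaf false ⟨⟨8,21,-252⟩,⟨168,188,21⟩,⟨189,-168,-8⟩⟩ (10,[(1,2595),(0,1),(2,18)]) (10,[(1,1365),(0,21),(2,2908)]) (80,[(1,14815),(0,189),(2,56532)]))))) (.node ⟨0,1,0⟩ (.node ⟨0,0,1⟩ (.node ⟨-235,-72,60⟩ (.node ⟨60,53,240⟩ (.node ⟨-72,240,-35⟩ (.leaf false ⟨⟨-235,-60,72⟩,⟨-72,240,-35⟩,⟨60,53,240⟩⟩ (1,[(3,12),(2,1),(4,12)]) (1,[(0,1)]) (1,[(1,1)])) (.leaf false ⟨⟨-252,-8,21⟩,⟨8,189,168⟩,⟨21,-168,188⟩⟩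 (5,[(5,1476),(4,680),(0,3)]) (5,[(5,1688),(4,6705),(0,24)]) (35,[(5,12801),(4,39240),(0,188)]))) (.leaf false ⟨⟨-228,-75,80⟩,⟨-80,240,-3⟩,⟨-75,-28,-240⟩⟩ (5,[(2,4960),(0,19),(3,632)]) (3,[(2,951),(0,4),(3,932)]) (4,[(2,240),(0,5),(3,153)]))) (.leaf false ⟨⟨-224,72,93⟩,⟨12,213,-136⟩,⟨117,116,192⟩⟩ (1,[(1,153),(3,459),(0,1)]) (24,[(1,996),(3,16397),(0,71)]) (18,[(1,5196),(3,4709),(0,29)]))) (.node ⟨-240,-3,80⟩ (.node ⟨-75,-80,-228⟩ (.leaf false ⟨⟨-240,-3,80⟩,⟨-75,-80,-228⟩,⟨-28,240,-75⟩⟩ (1,[(1,1)]) (1,[(0,1)]) (60,[(2,5060),(1,7),(3,14421)])) (.leaf false ⟨⟨-252,8,21⟩,⟨-8,189,-168⟩,⟨21,168,188⟩⟩ (6325,[(2,624151),(1,6920),(0,892)]) (18975,[(2,14720552),(1,14815),(0,45384)]) (6325,[(2,2161632),(1,3640),(0,13419)]))) (.node ⟨33,242,66⟩ (.leaf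 false ⟨⟨-198,66,-143⟩,⟨33,242,66⟩,⟨154,33,-198⟩⟩ (11,[(2,1771),(4,2277),(0,3)]) (1,[(0,1)]) (889,[(4,412643),(0,93),(1,2277)])) (.leaf false ⟨⟨-242,33,-66⟩,⟨33,-154,-198⟩,⟨66,198,-143⟩⟩ (1,[(4,209),(3,275),(0,1)]) (70,[(3,30261),(1,33),(0,170)]) (80,[(4,29040),(3,15411),(1,143)]))))) (.node ⟨0,0,1⟩ (.node ⟨-240,80,-3⟩ (.node ⟨-75,-228,-80⟩ (.leaf false ⟨⟨-240,80,-3⟩,⟨-75,-228,-80⟩,⟨-28,-75,240⟩⟩ (1,[(1,1)]) (1,[(0,1)]) (60,[(2,14421),(1,7),(3,5060)])) (.leaf false ⟨⟨-252,-8,21⟩,⟨8,189,168⟩,⟨21,-168,188⟩⟩ (275,[(1,315),(3,46552),(0,84)]) (825,[(1,520),(3,285131),(0,1752)]) (275,[(1,180),(3,209484),(0,653)]))) (.node ⟨33,66,242⟩ (.leaf false ⟨⟨-198,-143,66⟩,⟨33,66,242⟩,⟨154,-198,33⟩⟩ (11,[(4,2277),(3,1771),(0,3)]) (1,[(0,1)]) (889,[(4,412643),(1,2277),(0,93)]))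 (.leaf false ⟨⟨-242,-66,33⟩,⟨33,-198,-154⟩,⟨66,-143,198⟩⟩ (1,[(2,275),(4,209),(0,1)]) (70,[(2,30261),(0,170),(1,33)]) (80,[(2,15411),(4,29040),(1,143)])))) (.node ⟨-240,-35,72⟩ (.node ⟨72,-35,-240⟩ (.node ⟨60,-235,72⟩ (.leaf false ⟨⟨-240,-72,-35⟩,⟨53,-60,-240⟩,⟨60,-235,72⟩⟩ (235,[(3,13409),(5,60720),(0,72)]) (491,[(5,13409),(0,50),(1,506)]) (1,[(0,1)])) (.leaf false ⟨⟨-240,-80,-3⟩,⟨-75,228,-80⟩,⟨28,-75,-240⟩⟩ (24,[(2,19),(4,5955),(0,20)]) (36,[(2,1),(4,1392),(0,41)]) (546,[(2,110),(4,16835),(1,579)]))) (.leaf false ⟨⟨-240,28,-75⟩,⟨-80,-75,228⟩,⟨-3,-240,-80⟩⟩ (3,[(2,2625),(0,10),(3,266)]) (9,[(2,348),(0,10),(3,1025)]) (24,[(2,2160),(0,1),(3,5795)]))) (.leaf false ⟨⟨-240,-35,-72⟩,⟨53,-240,-60⟩,⟨60,72,-235⟩⟩ (1,[(3,480),(2,70),(0,1)]) (6,[(3,882),(2,1615),(0,5)])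 (72,[(3,52080),(2,3041),(0,235)])))))
theorem h253_ok : h253.check (ok 253 4 ⟨3, 3, 3⟩) (fun _ r => r) [] = true := by decide +kernel

def h257 : T := .node ⟨1,0,0⟩ (.node ⟨0,1,0⟩ (.node ⟨0,0,1⟩ (.leaf false ⟨⟨0,0,257⟩,⟨0,257,0⟩,⟨257,0,0⟩⟩ (1,[(0,257)]) (1,[(1,257)]) (1,[(2,257)])) (.node ⟨-120,57,-220⟩ (.node ⟨185,120,132⟩ (.node ⟨140,-60,-207⟩ (.node ⟨-135,168,-140⟩ (.leaf false ⟨⟨-135,168,-140⟩,⟨140,-60,-207⟩,⟨168,185,60⟩⟩ (1,[(0,1)]) (1,[(1,1)]) (11,[(6,923),(2,5),(5,1435)])) (.leaf false ⟨⟨-120,57,-220⟩,⟨132,220,-15⟩,⟨185,-120,-132⟩⟩ (1,[(3,1)]) (860,[(5,456689),(3,1367),(0,2056)]) (645,[(5,272934),(3,2186),(0,2827)]))) (.leaf false ⟨⟨-228,104,57⟩,⟨-36,57,-248⟩,⟨113,228,36⟩⟩ (15,[(3,4527),(5,220),(0,26)]) (20,[(3,8893),(5,1940),(0,19)])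 (5,[(3,3753),(5,3225),(0,19)]))) (.leaf false ⟨⟨-168,-63,-184⟩,⟨-24,248,-63⟩,⟨193,-24,-168⟩⟩ (33,[(4,2966),(3,3441),(0,46)]) (44,[(4,2829),(3,13432),(0,21)]) (11,[(4,4713),(3,1416),(0,14)]))) (.leaf false ⟨⟨24,248,-63⟩,⟨168,-63,-184⟩,⟨193,24,168⟩⟩ (5,[(1,535),(0,1),(2,1297)]) (5,[(1,2460),(0,7),(2,84)]) (120,[(1,22300),(0,193),(2,13881)])))) (.node ⟨0,0,1⟩ (.node ⟨-120,-220,57⟩ (.node ⟨185,132,120⟩ (.node ⟨140,-207,-60⟩ (.node ⟨-135,-140,168⟩ (.leaf false ⟨⟨-135,-140,168⟩,⟨140,-207,-60⟩,⟨168,60,185⟩⟩ (1,[(0,1)]) (1,[(1,1)]) (11,[(4,1435),(2,5),(6,923)])) (.leaf false ⟨⟨-120,-220,57⟩,⟨132,-15,220⟩,⟨185,-132,-120⟩⟩ (1,[(3,1)]) (860,[(4,456689),(0,2056),(3,1367)]) (645,[(4,272934),(0,2827),(3,2186)]))) (.leaf false ⟨⟨-228,-36,113⟩,⟨57,-248,36⟩,⟨104,57,228⟩⟩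 (60,[(5,2140),(4,25551),(0,113)]) (5,[(5,705),(4,1861),(0,3)]) (5,[(5,3180),(4,3648),(0,19)]))) (.leaf false ⟨⟨-168,-184,-63⟩,⟨-24,-63,248⟩,⟨193,-168,-24⟩⟩ (33,[(2,3441),(4,2966),(0,46)]) (44,[(2,13432),(4,2829),(0,21)]) (11,[(2,1416),(4,4713),(0,14)]))) (.leaf false ⟨⟨24,-63,248⟩,⟨168,-184,-63⟩,⟨193,168,24⟩⟩ (5,[(1,1297),(0,1),(2,535)]) (5,[(1,84),(0,7),(2,2460)]) (120,[(1,13881),(0,193),(2,22300)]))) (.node ⟨0,32,-255⟩ (.leaf false ⟨⟨0,-255,-32⟩,⟨0,32,-255⟩,⟨257,0,0⟩⟩ (255,[(0,32),(2,66049)]) (1,[(0,1)]) (1,[(3,257)])) (.leaf false ⟨⟨0,-255,32⟩,⟨0,-32,-255⟩,⟨257,0,0⟩⟩ (32,[(1,64001),(0,255)]) (1,[(1,510),(0,1)]) (1,[(3,257)]))))) (.node ⟨0,1,0⟩ (.node ⟨0,0,1⟩ (.node ⟨-220,-120,57⟩ (.node ⟨132,185,120⟩ (.node ⟨-207,140,-60⟩ (.node ⟨-140,-135,168⟩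 (.leaf false ⟨⟨-207,140,-60⟩,⟨-140,-135,168⟩,⟨60,168,185⟩⟩ (1,[(1,1)]) (1,[(0,1)]) (11,[(4,1435),(5,923),(2,5)])) (.leaf false ⟨⟨-248,-63,24⟩,⟨-63,184,-168⟩,⟨-24,168,193⟩⟩ (215,[(4,26253),(3,411),(0,265)]) (2580,[(4,790083),(3,6853),(0,9608)]) (215,[(4,127625),(3,446),(0,664)]))) (.leaf false ⟨⟨-248,-36,57⟩,⟨36,113,228⟩,⟨57,-228,104⟩⟩ (20,[(5,8893),(4,1940),(0,19)]) (5,[(5,3753),(4,3225),(0,19)]) (15,[(5,4527),(4,220),(0,26)]))) (.leaf false ⟨⟨-220,-120,57⟩,⟨-132,185,-120⟩,⟨-15,132,220⟩⟩ (3,[(2,771),(0,5),(3,565)]) (1,[(0,1),(3,370)]) (44,[(2,10280),(0,5),(3,6733)]))) (.leaf false ⟨⟨-231,108,-32⟩,⟨-12,49,252⟩,⟨112,228,-39⟩⟩ (10,[(1,193),(3,4290),(0,9)]) (120,[(1,33033),(3,12220),(0,49)]) (10,[(1,693),(3,3060),(0,19)]))) (.node ⟨32,0,-255⟩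 (.leaf false ⟨⟨-255,0,-32⟩,⟨0,257,0⟩,⟨32,0,-255⟩⟩ (255,[(3,66049),(0,32)]) (1,[(2,257)]) (1,[(0,1)])) (.leaf false ⟨⟨-255,0,32⟩,⟨-32,0,-255⟩,⟨0,257,0⟩⟩ (32,[(1,64001),(0,255)]) (1,[(1,510),(0,1)]) (1,[(2,257)])))) (.node ⟨0,0,1⟩ (.node ⟨32,-255,0⟩ (.leaf false ⟨⟨-255,-32,0⟩,⟨0,0,257⟩,⟨32,-255,0⟩⟩ (255,[(3,66049),(0,32)]) (1,[(1,257)]) (1,[(0,1)])) (.leaf false ⟨⟨-255,32,0⟩,⟨-32,-255,0⟩,⟨0,0,257⟩⟩ (32,[(0,255),(2,64001)]) (1,[(0,1),(2,510)]) (1,[(1,257)]))) (.node ⟨-39,112,-228⟩ (.node ⟨-207,-76,132⟩ (.node ⟨-231,12,112⟩ (.leaf false ⟨⟨-252,12,49⟩,⟨-39,112,-228⟩,⟨-32,-231,-108⟩⟩ (11,[(3,805),(0,12),(4,12)]) (1,[(2,1)]) (207,[(3,26580),(1,32),(4,45385)])) (.leaf false ⟨⟨-231,-108,-32⟩,⟨12,49,-252⟩,⟨112,-228,-39⟩⟩ (86341,[(2,78390),(1,218802),(0,122963)])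 (345364,[(2,380903),(1,285307),(0,337914)]) (2524,[(5,329258),(1,6267),(0,8265)]))) (.leaf false ⟨⟨-252,-39,-32⟩,⟨12,112,-231⟩,⟨49,-228,-108⟩⟩ (33,[(4,9972),(3,1895),(0,8)]) (4,[(4,1401),(3,84),(0,7)]) (11,[(4,1324),(3,3192),(0,9)]))) (.leaf false ⟨⟨-252,-39,32⟩,⟨-12,-112,-231⟩,⟨49,-228,108⟩⟩ (112,[(1,5308),(3,29745),(0,39)]) (1,[(1,459),(3,51),(0,1)]) (28,[(1,9972),(3,851),(0,57)])))))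
theorem h257_ok : h257.check (ok 257 4 ⟨3, 3, 3⟩) (fun _ r => r) [] = true := by decide +kernel

def h263 : T := .node ⟨1,0,0⟩ (.node ⟨0,1,0⟩ (.node ⟨0,0,1⟩ (.node ⟨-114,2,237⟩ (.node ⟨42,246,-83⟩ (.node ⟨237,-2,114⟩ (.leaf false ⟨⟨-106,93,222⟩,⟨42,246,-83⟩,⟨237,-2,114⟩⟩ (57,[(3,93),(4,5195),(2,53)]) (1,[(1,1)]) (1,[(0,1)])) (.leaf false ⟨⟨-259,18,-42⟩,⟨-18,182,189⟩,⟨42,189,-178⟩⟩ (1,[(3,984),(5,1874),(0,9)]) (1,[(3,10563),(5,21549),(0,91)]) (2,[(3,21190),(5,44877),(0,189)]))) (.leaf false ⟨⟨-90,70,237⟩,⟨138,-195,110⟩,⟨205,162,30⟩⟩ (83,[(4,2484),(3,64112),(0,237)]) (83,[(4,16074),(3,10875),(0,110)]) (83,[(4,18275),(3,20826),(0,30)]))) (.node ⟨205,-90,138⟩ (.leaf false ⟨⟨30,205,162⟩,⟨110,138,-195⟩,⟨237,-90,70⟩⟩ (19,[(2,4263),(1,5),(3,3905)])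 (57,[(2,1920),(1,55),(3,7976)]) (4925,[(2,10796),(0,4893),(1,1440)])) (.leaf false ⟨⟨-222,141,2⟩,⟨29,42,258⟩,⟨138,218,-51⟩⟩ (1970,[(2,858373),(1,1785),(0,3126)]) (4925,[(2,2934594),(1,5610),(0,2423)]) (4925,[(2,8250192),(1,28555),(0,12564)])))) (.node ⟨-146,162,-147⟩ (.node ⟨142,-99,-198⟩ (.node ⟨198,162,61⟩ (.leaf false ⟨⟨-99,182,-162⟩,⟨142,-99,-198⟩,⟨198,162,61⟩⟩ (49,[(5,3033),(4,170),(2,54)]) (1,[(1,1)]) (1,[(0,1)])) (.leaf false ⟨⟨-246,-42,-83⟩,⟨-2,237,-114⟩,⟨93,-106,-222⟩⟩ (61,[(5,1428),(4,10884),(0,83)]) (61,[(5,22450),(4,32925),(0,114)]) (61,[(5,49629),(4,29498),(0,222)]))) (.leaf false ⟨⟨-198,173,-6⟩,⟨93,114,218⟩,⟨146,162,-147⟩⟩ (99,[(2,34848),(4,4964),(0,173)]) (33,[(2,330),(4,8465),(0,38)]) (11,[(2,5181),(4,4162),(0,18)]))) (.leaf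 false ⟨⟨6,218,-147⟩,⟨173,-114,-162⟩,⟨198,93,146⟩⟩ (73,[(1,11172),(0,3),(2,16400)]) (146,[(1,49083),(0,173),(2,11382)]) (73,[(1,3895),(0,99),(2,22827)])))) (.node ⟨0,0,1⟩ (.node ⟨-146,-147,162⟩ (.node ⟨142,-198,-99⟩ (.node ⟨198,61,162⟩ (.leaf false ⟨⟨-99,-162,182⟩,⟨142,-198,-99⟩,⟨198,61,162⟩⟩ (49,[(3,170),(5,3033),(2,54)]) (1,[(1,1)]) (1,[(0,1)])) (.leaf false ⟨⟨-246,-83,-42⟩,⟨-2,-114,237⟩,⟨93,-222,-106⟩⟩ (61,[(3,10884),(5,1428),(0,83)]) (61,[(3,32925),(5,22450),(0,114)]) (61,[(3,29498),(5,49629),(0,222)]))) (.leaf false ⟨⟨-198,-6,173⟩,⟨93,218,114⟩,⟨146,-147,162⟩⟩ (99,[(4,4964),(3,34848),(0,173)]) (33,[(4,8465),(3,330),(0,38)]) (11,[(4,4162),(3,5181),(0,18)]))) (.leaf false ⟨⟨6,-147,218⟩,⟨173,-162,-114⟩,⟨198,146,93⟩⟩ (73,[(1,16400),(0,3),(2,11172)])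 (146,[(1,11382),(0,173),(2,49083)]) (73,[(1,22827),(0,99),(2,3895)]))) (.node ⟨-114,-222,-83⟩ (.node ⟨-2,93,-246⟩ (.leaf false ⟨⟨-114,-222,-83⟩,⟨-2,93,-246⟩,⟨237,-106,-42⟩⟩ (1,[(1,1)]) (1,[(0,1)]) (41,[(4,9731),(3,4997),(0,7)])) (.node ⟨-110,-195,-138⟩ (.leaf false ⟨⟨-110,-195,-138⟩,⟨30,-162,205⟩,⟨237,-70,-90⟩⟩ (1,[(0,1)]) (31,[(3,6929),(5,822),(1,54)]) (39,[(3,1578),(5,10783),(0,14)])) (.leaf false ⟨⟨-42,-259,-18⟩,⟨178,-42,189⟩,⟨189,-18,-182⟩⟩ (1095,[(3,571198),(0,10101),(2,10150)]) (365,[(3,405942),(0,7384),(2,6555)]) (146,[(3,216577),(0,2934),(2,2589)])))) (.leaf false ⟨⟨2,-51,-258⟩,⟨141,218,-42⟩,⟨222,-138,29⟩⟩ (57,[(1,14789),(0,1),(2,3129)]) (38,[(1,5497),(0,47),(2,2150)]) (19,[(1,2520),(0,37),(2,10836)]))))) (.node ⟨0,1,0⟩ (.node ⟨0,0,1⟩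 (.node ⟨-147,162,-146⟩ (.node ⟨-198,-99,142⟩ (.node ⟨61,162,198⟩ (.leaf false ⟨⟨-198,-99,142⟩,⟨-162,182,-99⟩,⟨61,162,198⟩⟩ (1,[(1,1)]) (49,[(3,3033),(2,54),(4,170)]) (1,[(0,1)])) (.leaf false ⟨⟨-246,-2,93⟩,⟨-83,-114,-222⟩,⟨-42,237,-106⟩⟩ (61,[(3,54381),(0,246),(4,39730)]) (61,[(3,2892),(0,83),(4,6492)]) (61,[(3,1850),(0,42),(4,21261)]))) (.leaf false ⟨⟨-259,42,18⟩,⟨18,189,-182⟩,⟨42,178,189⟩⟩ (33,[(2,2582),(4,11319),(0,14)]) (11,[(2,980),(4,3960),(0,21)]) (99,[(2,43987),(4,31086),(0,178)]))) (.leaf false ⟨⟨-259,18,42⟩,⟨18,-182,189⟩,⟨42,189,178⟩⟩ (73,[(3,21994),(2,4716),(0,21)]) (146,[(3,25155),(2,4046),(0,189)]) (73,[(3,10017),(2,28215),(0,89)]))) (.node ⟨-83,-114,-222⟩ (.node ⟨-246,-2,93⟩ (.leaf false ⟨⟨-246,-2,93⟩,⟨-83,-114,-222⟩,⟨-42,237,-106⟩⟩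 (1,[(0,1)]) (1,[(1,1)]) (41,[(2,4997),(0,7),(3,9731)])) (.node ⟨-138,-110,-195⟩ (.leaf false ⟨⟨-138,-110,-195⟩,⟨-90,237,-70⟩,⟨205,30,-162⟩⟩ (1,[(0,1)]) (39,[(0,14),(5,1578),(4,10783)]) (31,[(5,6929),(4,822),(1,54)])) (.leaf false ⟨⟨-259,18,-42⟩,⟨-18,182,189⟩,⟨42,189,-178⟩⟩ (365,[(2,1355),(5,184102),(0,1464)]) (365,[(2,2450),(5,236954),(0,3143)]) (438,[(2,11287),(5,762883),(0,12450)])))) (.leaf false ⟨⟨-259,18,-42⟩,⟨-18,182,189⟩,⟨42,189,-178⟩⟩ (19,[(1,1464),(3,5170),(0,3)]) (57,[(1,9429),(3,8579),(0,91)]) (38,[(1,20750),(3,3633),(0,63)])))) (.node ⟨0,0,1⟩ (.node ⟨-83,-222,-114⟩ (.node ⟨-246,93,-2⟩ (.leaf false ⟨⟨-246,93,-2⟩,⟨-83,-222,-114⟩,⟨-42,-106,237⟩⟩ (1,[(0,1)]) (1,[(1,1)]) (41,[(2,9731),(0,7),(3,4997)])) (.node ⟨-138,-195,-110⟩ (.leaf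 false ⟨⟨-138,-195,-110⟩,⟨-90,-70,237⟩,⟨205,-162,30⟩⟩ (1,[(0,1)]) (39,[(3,10783),(5,1578),(0,14)]) (31,[(3,822),(5,6929),(1,54)])) (.leaf false ⟨⟨-259,-42,18⟩,⟨-18,189,182⟩,⟨42,-178,189⟩⟩ (365,[(5,184102),(2,1355),(0,1464)]) (365,[(5,236954),(2,2450),(0,3143)]) (438,[(5,762883),(2,11287),(0,12450)])))) (.leaf false ⟨⟨-259,-42,18⟩,⟨-18,189,182⟩,⟨42,-178,189⟩⟩ (19,[(3,5170),(2,1464),(0,3)]) (57,[(3,8579),(2,9429),(0,91)]) (38,[(3,3633),(2,20750),(0,63)]))) (.leaf false ⟨⟨-263,0,0⟩,⟨0,-263,0⟩,⟨0,0,-263⟩⟩ (1,[(2,263)]) (1,[(1,263)]) (1,[(0,263)]))))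
theorem h263_ok : h263.check (ok 263 4 ⟨3, 3, 3⟩) (fun _ r => r) [] = true := by decide +kernel

def h269 : T := .node ⟨1,0,0⟩ (.node ⟨0,1,0⟩ (.node ⟨0,0,1⟩ (.leaf false ⟨⟨0,0,269⟩,⟨0,269,0⟩,⟨269,0,0⟩⟩ (1,[(0,269)]) (1,[(1,269)]) (1,[(2,269)])) (.node ⟨0,260,69⟩ (.leaf false ⟨⟨0,69,-260⟩,⟨0,260,69⟩,⟨269,0,0⟩⟩ (260,[(1,72361),(0,69)]) (1,[(0,1)]) (1,[(3,269)])) (.node ⟨-51,216,-152⟩ (.leaf false ⟨⟨-51,216,-152⟩,⟨-8,-156,-219⟩,⟨264,37,-36⟩⟩ (1,[(0,1)]) (6803,[(1,8877),(4,239948),(0,5772)]) (23,[(1,12),(4,6072),(3,3971)])) (.leaf false ⟨⟨0,269,0⟩,⟨69,0,-260⟩,⟨260,0,69⟩⟩ (1,[(3,269)]) (1173,[(1,7916),(0,1587),(3,2400952)]) (3519,[(1,36001),(0,17940),(3,13235300)]))))) (.node ⟨0,0,1⟩ (.node ⟨0,69,260⟩ (.leaf false ⟨⟨0,-260,69⟩,⟨0,69,260⟩,⟨269,0,0⟩⟩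 (260,[(0,69),(2,72361)]) (1,[(0,1)]) (1,[(3,269)])) (.node ⟨-51,-152,216⟩ (.leaf false ⟨⟨-51,-152,216⟩,⟨-8,-219,-156⟩,⟨264,-36,37⟩⟩ (1,[(0,1)]) (6803,[(4,239948),(1,8877),(0,5772)]) (23,[(2,3971),(4,6072),(1,12)])) (.leaf false ⟨⟨0,0,269⟩,⟨69,-260,0⟩,⟨260,69,0⟩⟩ (1,[(2,269)]) (1173,[(2,2400952),(0,1587),(1,7916)]) (3519,[(2,13235300),(0,17940),(1,36001)])))) (.node ⟨64,96,-243⟩ (.node ⟨64,-243,96⟩ (.node ⟨261,-12,64⟩ (.leaf false ⟨⟨12,-251,-96⟩,⟨64,96,-243⟩,⟨261,-12,64⟩⟩ (16,[(3,1824),(1,3),(4,3287)]) (1,[(2,1)]) (1,[(0,1)])) (.leaf false ⟨⟨-224,-123,-84⟩,⟨48,84,-251⟩,⟨141,-224,-48⟩⟩ (240,[(5,76925),(1,148),(0,537)]) (269,[(2,197),(5,80431),(0,307)]) (16611,[(2,11056),(5,375047),(1,19680)]))) (.leaf false ⟨⟨-91,132,-216⟩,⟨24,-224,-147⟩,⟨252,69,-64⟩⟩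 (4,[(4,212),(3,1659),(0,9)]) (32,[(4,3904),(3,19075),(0,49)]) (3,[(4,884),(3,279),(0,2)]))) (.leaf false ⟨⟨-91,-216,132⟩,⟨24,-147,-224⟩,⟨252,-64,69⟩⟩ (4,[(1,1659),(3,212),(0,9)]) (32,[(1,19075),(3,3904),(0,49)]) (3,[(1,279),(3,884),(0,2)]))))) (.node ⟨0,1,0⟩ (.node ⟨0,0,1⟩ (.node ⟨69,0,260⟩ (.leaf false ⟨⟨-260,0,69⟩,⟨0,269,0⟩,⟨69,0,260⟩⟩ (260,[(3,72361),(0,69)]) (1,[(2,269)]) (1,[(0,1)])) (.node ⟨-152,-51,216⟩ (.leaf false ⟨⟨-264,-48,-19⟩,⟨-44,261,-48⟩,⟨-27,44,264⟩⟩ (1173,[(2,273809),(0,1104),(1,2056)]) (69,[(2,8128),(1,44),(3,18009)]) (23,[(2,8412),(1,9),(3,1012)])) (.leaf false ⟨⟨-264,44,-27⟩,⟨-19,48,264⟩,⟨48,261,-44⟩⟩ (3519,[(2,5800283),(1,20152),(0,3036)]) (1173,[(2,1264436),(1,2755),(0,1104)]) (391,[(2,1490372),(1,4136),(0,2001)]))))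 (.node ⟨96,64,-243⟩ (.node ⟨-243,64,96⟩ (.node ⟨-12,261,64⟩ (.leaf false ⟨⟨-251,12,-96⟩,⟨-12,261,64⟩,⟨96,64,-243⟩⟩ (16,[(3,1824),(5,3287),(1,3)]) (1,[(0,1)]) (1,[(2,1)])) (.leaf false ⟨⟨-264,-51,8⟩,⟨-36,152,-219⟩,⟨37,-216,-156⟩⟩ (24,[(1,28),(4,7163),(0,39)]) (5537,[(1,3308),(4,226904),(2,6297)]) (3228,[(4,833093),(2,496),(0,5985)]))) (.leaf false ⟨⟨-251,-12,-96⟩,⟨12,261,-64⟩,⟨96,-64,-243⟩⟩ (1,[(4,494),(3,52),(0,1)]) (3,[(4,450),(3,911),(0,2)]) (32,[(4,16611),(3,3136),(0,81)]))) (.leaf false ⟨⟨-251,12,96⟩,⟨-96,-64,-243⟩,⟨-12,261,-64⟩⟩ (96,[(1,51777),(0,251),(2,17216)]) (1,[(1,486),(0,1)]) (8,[(1,755),(0,1),(2,2152)])))) (.node ⟨0,0,1⟩ (.node ⟨96,-243,64⟩ (.node ⟨-243,96,64⟩ (.node ⟨-12,64,261⟩ (.leaf false ⟨⟨-251,-96,12⟩,⟨-12,64,261⟩,⟨96,-243,64⟩⟩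 (16,[(1,3),(5,3287),(4,1824)]) (1,[(0,1)]) (1,[(2,1)])) (.leaf false ⟨⟨-264,-51,-8⟩,⟨36,-152,-219⟩,⟨37,-216,156⟩⟩ (4800,[(3,2871215),(1,5836),(0,12579)]) (269,[(3,65636),(0,487),(2,40)]) (16611,[(3,1296788),(1,3915),(2,16312)]))) (.leaf false ⟨⟨-251,-96,-12⟩,⟨12,-64,261⟩,⟨96,-243,-64⟩⟩ (1,[(2,52),(4,494),(0,1)]) (3,[(2,911),(4,450),(0,2)]) (32,[(2,3136),(4,16611),(0,81)]))) (.leaf false ⟨⟨-251,96,12⟩,⟨-96,-243,-64⟩,⟨-12,-64,261⟩⟩ (96,[(1,17216),(0,251),(2,51777)]) (1,[(0,1),(2,486)]) (8,[(1,2152),(0,1),(2,755)]))) (.node ⟨-48,141,-224⟩ (.node ⟨-251,48,84⟩ (.leaf false ⟨⟨-251,48,84⟩,⟨-84,-224,-123⟩,⟨-48,141,-224⟩⟩ (1,[(0,1)]) (251,[(2,37929),(0,84),(3,60256)]) (1,[(1,1)])) (.leaf false ⟨⟨-224,-123,-84⟩,⟨48,84,-251⟩,⟨141,-224,-48⟩⟩ (1,[(4,475),(3,75),(0,1)])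 (7532,[(1,6368),(4,719575),(0,5525)]) (7,[(4,17),(3,1376),(0,4)]))) (.leaf false ⟨⟨-264,-51,-8⟩,⟨36,-152,-219⟩,⟨37,-216,156⟩⟩ (47,[(1,4184),(3,13224),(0,17)]) (141,[(1,64927),(3,2220),(0,152)]) (47,[(1,8796),(3,1717),(0,72)])))))
theorem h269_ok : h269.check (ok 269 4 ⟨3, 3, 3⟩) (fun _ r => r) [] = true := by decide +kernel

def h271 : T := .node ⟨1,0,0⟩ (.node ⟨0,1,0⟩ (.node ⟨0,0,1⟩ (.node ⟨-154,66,213⟩ (.node ⟨21,262,-66⟩ (.leaf false ⟨⟨-154,66,213⟩,⟨21,262,-66⟩,⟨222,21,154⟩⟩ (1,[(1,1)]) (1,[(0,1)]) (22,[(2,1897),(4,5962),(1,7)])) (.leaf false ⟨⟨-154,21,222⟩,⟨66,262,21⟩,⟨213,-66,154⟩⟩ (271,[(3,5691),(1,262),(0,66)]) (22,[(4,1599),(3,7598),(0,7)]) (3,[(4,786),(3,1636),(0,7)]))) (.leaf false ⟨⟨21,262,66⟩,⟨154,-66,213⟩,⟨222,21,-154⟩⟩ (22,[(1,2091),(0,3),(2,5962)])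 (1,[(1,426),(0,1)]) (77,[(1,11785),(0,111),(2,8943)]))) (.node ⟨-154,210,-75⟩ (.node ⟨102,-91,-234⟩ (.node ⟨234,126,53⟩ (.leaf false ⟨⟨-91,222,-126⟩,⟨102,-91,-234⟩,⟨234,126,53⟩⟩ (22,[(3,1797),(4,2154),(2,13)]) (1,[(1,1)]) (1,[(0,1)])) (.leaf false ⟨⟨-234,-27,-134⟩,⟨69,206,-162⟩,⟨118,-174,-171⟩⟩ (53,[(5,18954),(4,15453),(0,134)]) (53,[(5,41565),(4,31330),(0,162)]) (53,[(5,46268),(4,12324),(0,171)]))) (.leaf false ⟨⟨-186,181,78⟩,⟨-6,102,-251⟩,⟨197,174,66⟩⟩ (91,[(2,35256),(4,1536),(0,181)]) (91,[(2,46709),(4,9858),(0,102)]) (91,[(2,34710),(4,35675),(0,174)]))) (.leaf false ⟨⟨6,102,-251⟩,⟨186,181,78⟩,⟨197,-174,-66⟩⟩ (77,[(1,19552),(0,3),(2,8484)]) (77,[(1,969),(0,93),(2,33467)]) (154,[(1,24939),(0,197),(2,14574)])))) (.node ⟨0,0,1⟩ (.node ⟨-154,-75,210⟩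 (.node ⟨102,-234,-91⟩ (.node ⟨234,53,126⟩ (.leaf false ⟨⟨-91,-126,222⟩,⟨102,-234,-91⟩,⟨234,53,126⟩⟩ (22,[(3,2154),(4,1797),(2,13)]) (1,[(1,1)]) (1,[(0,1)])) (.leaf false ⟨⟨-234,-134,-27⟩,⟨69,-162,206⟩,⟨118,-171,-174⟩⟩ (53,[(3,15453),(5,18954),(0,134)]) (53,[(3,31330),(5,41565),(0,162)]) (53,[(3,12324),(5,46268),(0,171)]))) (.leaf false ⟨⟨-186,-6,197⟩,⟨78,-251,66⟩,⟨181,102,174⟩⟩ (91,[(4,3168),(3,46644),(0,197)]) (91,[(4,13830),(3,38285),(0,66)]) (91,[(4,34219),(3,31434),(0,174)]))) (.leaf false ⟨⟨6,-251,102⟩,⟨186,78,181⟩,⟨197,-66,-174⟩⟩ (77,[(1,8484),(0,3),(2,19552)]) (77,[(1,33467),(0,93),(2,969)]) (154,[(1,14574),(0,197),(2,24939)]))) (.node ⟨258,-46,69⟩ (.node ⟨-123,-186,-154⟩ (.node ⟨126,98,-219⟩ (.leaf false ⟨⟨-123,-186,-154⟩,⟨126,98,-219⟩,⟨206,-171,42⟩⟩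 (1,[(1,1)]) (1,[(0,1)]) (23,[(5,1126),(2,14),(4,3289)])) (.leaf false ⟨⟨-210,-171,-10⟩,⟨21,-10,-270⟩,⟨170,-210,21⟩⟩ (98,[(3,38429),(5,966),(0,171)]) (49,[(3,14325),(5,1659),(0,5)]) (7,[(3,3138),(5,3080),(0,15)]))) (.leaf false ⟨⟨6,-267,-46⟩,⟨69,46,-258⟩,⟨262,-6,69⟩⟩ (41,[(2,2194),(0,2),(3,11319)]) (41,[(2,14120),(0,23),(3,2392)]) (123,[(2,31861),(0,262),(3,49470)]))) (.leaf false ⟨⟨-234,-91,-102⟩,⟨53,126,-234⟩,⟨126,-222,-91⟩⟩ (23,[(3,3390),(2,3657),(0,34)]) (23,[(3,21343),(2,690),(0,78)]) (69,[(3,32172),(2,19504),(0,91)]))))) (.node ⟨0,1,0⟩ (.node ⟨0,0,1⟩ (.node ⟨-75,210,-154⟩ (.node ⟨-234,-91,102⟩ (.node ⟨53,126,234⟩ (.leaf false ⟨⟨-234,-91,102⟩,⟨-126,222,-91⟩,⟨53,126,234⟩⟩ (1,[(1,1)]) (22,[(5,1797),(2,13),(4,2154)]) (1,[(0,1)])) (.leaf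 false ⟨⟨-251,-102,6⟩,⟨-78,181,-186⟩,⟨-66,174,197⟩⟩ (53,[(3,59052),(0,251),(4,26220)]) (53,[(3,8394),(0,78),(4,19421)]) (53,[(3,25885),(0,66),(4,17538)]))) (.leaf false ⟨⟨-270,21,10⟩,⟨10,210,-171⟩,⟨21,170,210⟩⟩ (13,[(2,436),(4,4212),(0,3)]) (13,[(2,837),(4,6890),(0,30)]) (91,[(2,36450),(4,37869),(0,170)]))) (.leaf false ⟨⟨-270,10,21⟩,⟨10,-171,210⟩,⟨21,210,170⟩⟩ (22,[(3,6165),(2,850),(0,3)]) (11,[(3,1015),(2,1269),(0,15)]) (77,[(3,4758),(2,34020),(0,85)]))) (.node ⟨-46,258,69⟩ (.node ⟨-186,-123,-154⟩ (.node ⟨98,126,-219⟩ (.leaf false ⟨⟨-186,-123,-154⟩,⟨-171,206,42⟩,⟨98,126,-219⟩⟩ (1,[(1,1)]) (23,[(5,3289),(2,14),(4,1126)]) (1,[(0,1)])) (.leaf false ⟨⟨-267,-46,-6⟩,⟨-46,258,69⟩,⟨-6,69,-262⟩⟩ (98,[(3,59061),(0,267),(4,29134)]) (49,[(3,1656),(0,23),(4,15540)])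 (49,[(3,13495),(0,3),(4,3759)]))) (.leaf false ⟨⟨-270,21,10⟩,⟨10,210,-171⟩,⟨21,170,210⟩⟩ (41,[(2,668),(4,12372),(0,7)]) (41,[(2,17791),(4,12610),(0,70)]) (123,[(2,350),(4,29037),(0,170)]))) (.leaf false ⟨⟨-270,21,-10⟩,⟨-10,-210,-171⟩,⟨21,170,-210⟩⟩ (69,[(3,19090),(2,4029),(0,10)]) (23,[(3,2852),(2,9876),(0,57)]) (23,[(3,2737),(2,21970),(0,70)])))) (.node ⟨0,0,1⟩ (.node ⟨-46,69,258⟩ (.node ⟨-186,-154,-123⟩ (.node ⟨98,-219,126⟩ (.leaf false ⟨⟨-186,-154,-123⟩,⟨-171,42,206⟩,⟨98,-219,126⟩⟩ (1,[(1,1)]) (23,[(3,1126),(2,14),(5,3289)]) (1,[(0,1)])) (.leaf false ⟨⟨-267,-6,-46⟩,⟨-46,69,258⟩,⟨-6,-262,69⟩⟩ (98,[(3,29134),(0,267),(4,59061)]) (49,[(3,15540),(0,23),(4,1656)]) (49,[(3,3759),(0,3),(4,13495)]))) (.leaf false ⟨⟨-270,10,21⟩,⟨10,-171,210⟩,⟨21,210,170⟩⟩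 (41,[(4,12372),(3,668),(0,7)]) (41,[(4,12610),(3,17791),(0,70)]) (123,[(4,29037),(3,350),(0,170)]))) (.leaf false ⟨⟨-270,-10,21⟩,⟨-10,-171,-210⟩,⟨21,-210,170⟩⟩ (69,[(1,4029),(3,19090),(0,10)]) (23,[(1,9876),(3,2852),(0,57)]) (23,[(1,21970),(3,2737),(0,70)]))) (.leaf false ⟨⟨-271,0,0⟩,⟨0,-271,0⟩,⟨0,0,-271⟩⟩ (1,[(2,271)]) (1,[(1,271)]) (1,[(0,271)]))))
theorem h271_ok : h271.check (ok 271 4 ⟨3, 3, 3⟩) (fun _ r => r) [] = true := by decide +kernel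

def h277 : T := .node ⟨1,0,0⟩ (.node ⟨0,1,0⟩ (.node ⟨0,0,1⟩ (.leaf false ⟨⟨0,0,277⟩,⟨0,277,0⟩,⟨277,0,0⟩⟩ (1,[(0,277)]) (1,[(1,277)]) (1,[(2,277)])) (.node ⟨-115,0,-252⟩ (.leaf false ⟨⟨-115,0,-252⟩,⟨0,277,0⟩,⟨252,0,-115⟩⟩ (1,[(0,1)]) (1,[(2,277)]) (252,[(3,76729),(0,115)])) (.node ⟨232,-147,36⟩ (.leaf false ⟨⟨12,69,-268⟩,⟨92,252,69⟩,⟨261,-92,-12⟩⟩ (58,[(2,15652),(0,3),(3,4443)]) (5,[(2,663),(1,4),(3,1260)]) (8,[(2,420),(0,9),(3,587)])) (.leaf false ⟨⟨-187,204,-12⟩,⟨132,133,204⟩,⟨156,132,-187⟩⟩ (5635,[(2,1452576),(1,6613),(0,7820)]) (483,[(2,247608),(1,1436),(0,437)]) (5635,[(2,5370289),(1,17852),(0,5060)]))))) (.node ⟨0,0,1⟩ (.node ⟨-115,-252,0⟩ (.leaf false ⟨⟨-115,-252,0⟩,⟨0,0,277⟩,⟨252,-115,0⟩⟩ (1,[(0,1)]) (1,[(1,277)]) (252,[(3,76729),(0,115)]))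 (.node ⟨232,36,-147⟩ (.leaf false ⟨⟨12,-268,69⟩,⟨92,69,252⟩,⟨261,-12,-92⟩⟩ (58,[(2,4443),(0,3),(3,15652)]) (5,[(2,1260),(1,4),(3,663)]) (8,[(2,587),(0,9),(3,420)])) (.leaf false ⟨⟨-187,-12,204⟩,⟨132,204,133⟩,⟨156,-187,132⟩⟩ (5635,[(1,6613),(3,1452576),(0,7820)]) (483,[(1,1436),(3,247608),(0,437)]) (5635,[(1,17852),(3,5370289),(0,5060)])))) (.node ⟨-51,-272,-12⟩ (.node ⟨-51,48,-268⟩ (.leaf false ⟨⟨-51,-272,-12⟩,⟨-48,21,-272⟩,⟨268,-48,-51⟩⟩ (1,[(1,1)]) (67,[(4,252),(3,1857),(0,68)]) (268,[(4,74425),(3,15312),(0,51)])) (.node ⟨0,-115,252⟩ (.leaf false ⟨⟨0,-252,-115⟩,⟨0,-115,252⟩,⟨277,0,0⟩⟩ (68,[(3,7064),(5,3213),(2,63)]) (1,[(0,1)]) (1,[(5,277)])) (.leaf false ⟨⟨-48,-268,-51⟩,⟨21,48,-272⟩,⟨272,-51,12⟩⟩ (870400,[(1,129033),(2,948233),(0,268224)])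 (217600,[(1,203899),(2,114299),(0,446272)]) (384,[(1,2883),(2,835),(0,3008)])))) (.node ⟨228,84,133⟩ (.leaf false ⟨⟨12,-83,-264⟩,⟨173,-204,72⟩,⟨216,168,-43⟩⟩ (17,[(2,4536),(1,4),(3,2499)]) (228,[(2,6593),(0,173),(3,61044)]) (17,[(2,1595),(1,72),(3,16728)])) (.leaf false ⟨⟨-232,-36,-147⟩,⟨96,-243,-92⟩,⟨117,128,-216⟩⟩ (4047,[(1,2660),(3,473320),(0,4713)]) (1349,[(1,11248),(3,3223631),(0,1948)]) (1349,[(1,21603),(3,5355584),(0,4140)])))))) (.node ⟨0,1,0⟩ (.node ⟨0,0,1⟩ (.node ⟨-252,-115,0⟩ (.leaf false ⟨⟨-252,-115,0⟩,⟨-115,252,0⟩,⟨0,0,277⟩⟩ (1,[(0,1)]) (252,[(0,115),(2,76729)]) (1,[(1,277)])) (.node ⟨36,232,-147⟩ (.leaf false ⟨⟨-268,12,69⟩,⟨-12,261,-92⟩,⟨69,92,252⟩⟩ (58,[(2,4443),(4,15652),(0,3)]) (8,[(2,587),(4,420),(0,9)]) (5,[(2,1260),(4,663),(1,4)]))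 (.leaf false ⟨⟨-268,-12,69⟩,⟨12,261,92⟩,⟨69,-92,252⟩⟩ (5635,[(4,2611456),(1,4748),(0,2645)]) (16905,[(4,14463432),(1,59711),(0,10580)]) (161,[(4,86811),(1,428),(0,276)])))) (.node ⟨-272,-51,-12⟩ (.node ⟨48,-51,-268⟩ (.leaf false ⟨⟨-272,-51,-12⟩,⟨-48,268,-51⟩,⟨21,-48,-272⟩⟩ (1,[(1,1)]) (268,[(4,15312),(3,74425),(0,51)]) (67,[(4,1857),(3,252),(0,68)])) (.node ⟨-115,0,252⟩ (.leaf false ⟨⟨-252,0,-115⟩,⟨-115,0,252⟩,⟨0,277,0⟩⟩ (68,[(3,7064),(2,63),(4,3213)]) (1,[(0,1)]) (1,[(4,277)])) (.leaf false ⟨⟨-268,-48,-51⟩,⟨-51,272,12⟩,⟨48,21,-272⟩⟩ (870400,[(2,948233),(1,129033),(0,268224)]) (384,[(2,835),(1,2883),(0,3008)]) (217600,[(2,114299),(1,203899),(0,446272)])))) (.node ⟨84,228,133⟩ (.leaf false ⟨⟨-267,72,-16⟩,⟨48,124,-243⟩,⟨56,237,132⟩⟩ (19,[(2,1102),(4,5577),(0,6)])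 (51,[(2,13881),(4,31280),(1,124)]) (76,[(2,475),(4,2380),(0,79)])) (.leaf false ⟨⟨-272,12,-51⟩,⟨21,272,-48⟩,⟨48,-51,-268⟩⟩ (1349,[(4,1489044),(1,4408),(0,915)]) (4047,[(4,12251845),(1,47120),(0,5712)]) (1349,[(4,4494784),(1,18107),(0,4352)]))))) (.node ⟨0,0,1⟩ (.node ⟨-272,-12,-51⟩ (.node ⟨48,-268,-51⟩ (.leaf false ⟨⟨-272,-12,-51⟩,⟨-48,-51,268⟩,⟨21,-272,-48⟩⟩ (1,[(1,1)]) (268,[(2,74425),(4,15312),(0,51)]) (67,[(2,252),(4,1857),(0,68)])) (.node ⟨-115,252,0⟩ (.leaf false ⟨⟨-252,-115,0⟩,⟨-115,252,0⟩,⟨0,0,277⟩⟩ (68,[(3,3213),(2,63),(4,7064)]) (1,[(0,1)]) (1,[(3,277)])) (.leaf false ⟨⟨-268,-51,-48⟩,⟨-51,12,272⟩,⟨48,-272,21⟩⟩ (870400,[(1,129033),(2,948233),(0,268224)]) (384,[(1,2883),(2,835),(0,3008)]) (217600,[(1,203899),(2,114299),(0,446272)]))))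 (.node ⟨84,133,228⟩ (.leaf false ⟨⟨-267,-16,72⟩,⟨48,-243,124⟩,⟨56,132,237⟩⟩ (19,[(4,5577),(3,1102),(0,6)]) (51,[(4,31280),(3,13881),(1,124)]) (76,[(4,2380),(3,475),(0,79)])) (.leaf false ⟨⟨-272,-51,12⟩,⟨21,-48,272⟩,⟨48,-268,-51⟩⟩ (1349,[(4,1489044),(0,915),(1,4408)]) (4047,[(4,12251845),(0,5712),(1,47120)]) (1349,[(4,4494784),(0,4352),(1,18107)])))) (.node ⟨-132,156,-187⟩ (.node ⟨-243,-96,92⟩ (.node ⟨36,-232,-147⟩ (.leaf false ⟨⟨-243,-96,92⟩,⟨-128,117,-216⟩,⟨36,-232,-147⟩⟩ (1,[(1,1)]) (4,[(3,303),(2,3),(5,116)]) (1,[(0,1)])) (.leaf false ⟨⟨-272,-48,21⟩,⟨-51,268,-48⟩,⟨-12,-51,-272⟩⟩ (9,[(3,9807),(0,68),(4,16208)]) (12,[(3,3075),(0,17),(4,728)]) (3,[(3,963),(0,1),(4,385)]))) (.leaf false ⟨⟨-243,96,-92⟩,⟨-36,-232,-147⟩,⟨128,117,-216⟩⟩ (1,[(4,486),(0,1)])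 (92,[(4,39033),(3,35456),(0,147)]) (23,[(4,10178),(3,2493),(0,54)]))) (.leaf false ⟨⟨-243,-92,96⟩,⟨-36,-147,-232⟩,⟨128,-216,117⟩⟩ (39,[(1,557),(3,12513),(0,23)]) (52,[(1,21227),(3,8340),(0,49)]) (13,[(1,1845),(3,712),(0,18)])))))
theorem h277_ok : h277.check (ok 277 4 ⟨3, 3, 3⟩) (fun _ r => r) [] = true := by decide +kernel

def h281 : T := .node ⟨1,0,0⟩ (.node ⟨0,1,0⟩ (.node ⟨0,0,1⟩ (.leaf false ⟨⟨0,0,281⟩,⟨0,281,0⟩,⟨281,0,0⟩⟩ (1,[(0,281)]) (1,[(1,281)]) (1,[(2,281)])) (.node ⟨-119,36,-252⟩ (.node ⟨56,273,36⟩ (.node ⟨252,-36,-119⟩ (.leaf false ⟨⟨-111,56,-252⟩,⟨56,273,36⟩,⟨252,-36,-119⟩⟩ (1,[(5,8),(4,20),(2,1)]) (1,[(1,1)]) (1,[(0,1)])) (.leaf false ⟨⟨-264,81,52⟩,⟨-47,24,-276⟩,⟨84,268,9⟩⟩ (4,[(3,863),(5,1212),(0,9)]) (3,[(3,1066),(5,363),(0,2)])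 (9,[(3,7892),(5,17640),(0,67)]))) (.leaf false ⟨⟨-231,0,-160⟩,⟨0,281,0⟩,⟨160,0,-231⟩⟩ (9,[(4,161),(3,10920),(0,40)]) (1,[(3,281)]) (12,[(4,6232),(3,21021),(0,77)]))) (.node ⟨177,-144,-164⟩ (.leaf false ⟨⟨12,201,-196⟩,⟨144,164,177⟩,⟨241,-108,-96⟩⟩ (59,[(2,10908),(0,4),(3,12435)]) (119,[(2,15225),(1,144),(3,24700)]) (299,[(2,118796),(0,116),(1,433)])) (.leaf false ⟨⟨-196,177,-96⟩,⟨12,144,241⟩,⟨201,164,-108⟩⟩ (156,[(2,59608),(1,45),(0,203)]) (299,[(2,198485),(1,756),(0,488)]) (2691,[(2,5039696),(1,14493),(0,6688)]))))) (.node ⟨0,0,1⟩ (.node ⟨-119,-252,36⟩ (.node ⟨56,36,273⟩ (.node ⟨252,-119,-36⟩ (.leaf false ⟨⟨-111,-252,56⟩,⟨56,36,273⟩,⟨252,-119,-36⟩⟩ (1,[(3,20),(5,8),(2,1)]) (1,[(1,1)]) (1,[(0,1)])) (.leaf false ⟨⟨-264,-47,84⟩,⟨52,-276,9⟩,⟨81,24,268⟩⟩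 (3,[(5,972),(4,974),(0,7)]) (4,[(5,460),(4,1223),(0,1)]) (9,[(5,17613),(4,7757),(0,67)]))) (.leaf false ⟨⟨-231,-160,0⟩,⟨0,0,281⟩,⟨160,-231,0⟩⟩ (9,[(2,10920),(4,161),(0,40)]) (1,[(2,281)]) (12,[(2,21021),(4,6232),(0,77)]))) (.node ⟨177,-164,-144⟩ (.leaf false ⟨⟨12,-196,201⟩,⟨144,177,164⟩,⟨241,-96,-108⟩⟩ (59,[(2,12435),(0,4),(3,10908)]) (119,[(2,24700),(1,144),(3,15225)]) (299,[(1,433),(0,116),(3,118796)])) (.leaf false ⟨⟨-196,-96,177⟩,⟨12,241,144⟩,⟨201,-108,164⟩⟩ (156,[(1,45),(3,59608),(0,203)]) (299,[(1,756),(3,198485),(0,488)]) (2691,[(1,14493),(3,5039696),(0,6688)])))) (.node ⟨0,160,-231⟩ (.leaf false ⟨⟨0,-231,-160⟩,⟨0,160,-231⟩,⟨281,0,0⟩⟩ (231,[(0,160),(2,78961)]) (1,[(0,1)]) (1,[(3,281)])) (.leaf false ⟨⟨0,-231,160⟩,⟨0,-160,-231⟩,⟨281,0,0⟩⟩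 (160,[(1,27761),(0,231)]) (1,[(1,462),(0,1)]) (1,[(3,281)]))))) (.node ⟨0,1,0⟩ (.node ⟨0,0,1⟩ (.node ⟨-252,-119,36⟩ (.node ⟨-119,252,-36⟩ (.node ⟨36,56,273⟩ (.leaf false ⟨⟨-252,-111,56⟩,⟨-119,252,-36⟩,⟨36,56,273⟩⟩ (1,[(3,20),(2,1),(4,8)]) (1,[(1,1)]) (1,[(0,1)])) (.leaf false ⟨⟨-264,-96,-7⟩,⟨-88,249,-96⟩,⟨-39,88,264⟩⟩ (3,[(3,5985),(0,22),(4,944)]) (9,[(3,5142),(0,22),(4,3473)]) (12,[(3,6717),(0,13),(4,1784)]))) (.leaf false ⟨⟨-276,-47,24⟩,⟨9,84,268⟩,⟨52,-264,81⟩⟩ (3,[(4,1066),(3,363),(0,2)]) (9,[(4,7892),(3,17640),(0,67)]) (4,[(4,863),(3,1212),(0,9)]))) (.node ⟨-164,177,-144⟩ (.leaf false ⟨⟨-264,88,-39⟩,⟨-7,96,264⟩,⟨96,249,-88⟩⟩ (177,[(2,5769),(4,32296),(0,88)]) (119,[(2,34872),(4,25025),(1,96)]) (207,[(4,73652),(0,29),(1,390)])) (.leaf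 false ⟨⟨-264,-39,88⟩,⟨-7,264,96⟩,⟨96,-88,249⟩⟩ (2691,[(4,1709692),(1,2490),(0,2267)]) (897,[(4,1447463),(1,4584),(0,1744)]) (3588,[(4,3739880),(1,10467),(0,8821)])))) (.node ⟨160,0,-231⟩ (.leaf false ⟨⟨-231,0,-160⟩,⟨0,281,0⟩,⟨160,0,-231⟩⟩ (231,[(3,78961),(0,160)]) (1,[(2,281)]) (1,[(0,1)])) (.leaf false ⟨⟨-231,0,160⟩,⟨-160,0,-231⟩,⟨0,281,0⟩⟩ (160,[(1,27761),(0,231)]) (1,[(1,462),(0,1)]) (1,[(2,281)])))) (.node ⟨0,0,1⟩ (.node ⟨160,-231,0⟩ (.leaf false ⟨⟨-231,-160,0⟩,⟨0,0,281⟩,⟨160,-231,0⟩⟩ (231,[(3,78961),(0,160)]) (1,[(1,281)]) (1,[(0,1)])) (.leaf false ⟨⟨-231,160,0⟩,⟨-160,-231,0⟩,⟨0,0,281⟩⟩ (160,[(0,231),(2,27761)]) (1,[(0,1),(2,462)]) (1,[(1,281)]))) (.node ⟨-96,164,-207⟩ (.node ⟨-252,-79,96⟩ (.node ⟨9,-228,-164⟩ (.leaf false ⟨⟨-252,-79,96⟩,⟨-124,144,-207⟩,⟨9,-228,-164⟩⟩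 (1,[(1,1)]) (1,[(2,1),(5,28),(4,20)]) (1,[(0,1)])) (.leaf false ⟨⟨-276,-52,9⟩,⟨-47,264,84⟩,⟨-24,81,-268⟩⟩ (3,[(3,15061),(0,92),(4,21132)]) (9,[(3,6952),(0,47),(4,8340)]) (3,[(3,2116),(0,8),(4,1581)]))) (.leaf false ⟨⟨-252,-96,-79⟩,⟨9,164,-228⟩,⟨124,-207,-144⟩⟩ (96,[(4,44100),(3,15457),(0,79)]) (8,[(4,4716),(3,189),(0,19)]) (2,[(4,508),(3,651),(0,3)]))) (.node ⟨164,-228,9⟩ (.leaf false ⟨⟨-207,-144,124⟩,⟨-96,-79,-252⟩,⟨164,-228,9⟩⟩ (41,[(2,2368),(4,11943),(1,36)]) (164,[(2,57681),(4,23328),(1,79)]) (1,[(0,1)])) (.leaf false ⟨⟨-264,-84,-47⟩,⟨-52,9,276⟩,⟨81,-268,24⟩⟩ (313,[(2,942782),(0,3210),(1,4623)]) (1252,[(2,174369),(0,1916),(1,2595)]) (1252,[(2,1260750),(0,3111),(1,6371)]))))))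
theorem h281_ok : h281.check (ok 281 4 ⟨3, 3, 3⟩) (fun _ r => r) [] = true := by decide +kernel

def h283 : T := .node ⟨1,0,0⟩ (.node ⟨0,1,0⟩ (.node ⟨0,0,1⟩ (.node ⟨-162,121,198⟩ (.node ⟨121,198,-162⟩ (.node ⟨-162,198,121⟩ (.leaf false ⟨⟨-162,198,121⟩,⟨121,198,-162⟩,⟨198,41,198⟩⟩ (1,[(0,1)]) (1,[(1,1)]) (121,[(3,15840),(5,30600),(2,41)])) (.leaf false ⟨⟨-162,121,198⟩,⟨121,-162,198⟩,⟨198,198,41⟩⟩ (1,[(2,1)]) (77,[(1,77),(2,360),(0,360)]) (157,[(1,360),(2,720),(0,643)]))) (.leaf false ⟨⟨-162,121,198⟩,⟨121,-162,198⟩,⟨198,198,41⟩⟩ (1,[(1,1)]) (9,[(4,2420),(3,720),(0,11)]) (162,[(4,37037),(3,40194),(0,41)]))) (.leaf false ⟨⟨9,282,22⟩,⟨198,-22,201⟩,⟨202,9,-198⟩⟩ (18,[(1,594),(0,1),(2,5197)]) (9,[(1,3987),(0,11),(2,1133)]) (81,[(1,3960),(0,101),(2,12950)])))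 (.node ⟨-87,42,-266⟩ (.node ⟨57,274,42⟩ (.node ⟨266,-42,-87⟩ (.leaf false ⟨⟨-78,57,-266⟩,⟨57,274,42⟩,⟨266,-42,-87⟩⟩ (1,[(5,9),(4,15),(2,1)]) (1,[(1,1)]) (1,[(0,1)])) (.leaf false ⟨⟨-258,105,50⟩,⟨50,210,-183⟩,⟨105,158,210⟩⟩ (2,[(3,335),(5,814),(0,5)]) (1,[(3,618),(5,1380),(0,5)]) (21,[(3,2463),(5,23219),(0,79)]))) (.leaf false ⟨⟨-222,57,-166⟩,⟨86,-198,-183⟩,⟨153,194,-138⟩⟩ (21,[(4,69),(3,23939),(0,83)]) (14,[(4,4681),(3,13942),(0,61)]) (7,[(4,2382),(3,7660),(0,23)]))) (.leaf false ⟨⟨9,282,22⟩,⟨198,-22,201⟩,⟨202,9,-198⟩⟩ (29,[(1,160),(0,3),(2,8304)]) (29,[(1,11727),(0,66),(2,2134)]) (87,[(1,70958),(0,202),(2,9267)])))) (.node ⟨0,0,1⟩ (.node ⟨-87,-266,42⟩ (.node ⟨57,42,274⟩ (.node ⟨266,-87,-42⟩ (.leaf false ⟨⟨-78,-266,57⟩,⟨57,42,274⟩,⟨266,-87,-42⟩⟩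 (1,[(3,15),(5,9),(2,1)]) (1,[(1,1)]) (1,[(0,1)])) (.leaf false ⟨⟨-258,50,105⟩,⟨50,-183,210⟩,⟨105,210,158⟩⟩ (2,[(5,814),(4,335),(0,5)]) (1,[(5,1380),(4,618),(0,5)]) (21,[(5,23219),(4,2463),(0,79)]))) (.leaf false ⟨⟨-222,-166,57⟩,⟨86,-183,-198⟩,⟨153,-138,194⟩⟩ (21,[(2,23939),(4,69),(0,83)]) (14,[(2,13942),(4,4681),(0,61)]) (7,[(2,7660),(4,2382),(0,23)]))) (.leaf false ⟨⟨9,22,282⟩,⟨198,201,-22⟩,⟨202,-198,9⟩⟩ (29,[(1,8304),(0,3),(2,160)]) (29,[(1,2134),(0,66),(2,11727)]) (87,[(1,9267),(0,202),(2,70958)]))) (.node ⟨246,-23,138⟩ (.node ⟨6,-247,138⟩ (.node ⟨-23,-282,-6⟩ (.leaf false ⟨⟨-23,-282,-6⟩,⟨138,-6,-247⟩,⟨246,-23,138⟩⟩ (1,[(0,1)]) (23,[(3,6509),(5,1698),(2,6)]) (1,[(2,1)])) (.leaf false ⟨⟨22,-282,9⟩,⟨198,9,-202⟩,⟨201,22,198⟩⟩ (1046,[(0,994),(1,25),(4,569105)])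 (23,[(3,5834),(0,198),(4,55629)]) (523,[(0,4425),(1,558),(4,1098518)]))) (.leaf false ⟨⟨42,185,-210⟩,⟨90,-210,-167⟩,⟨265,42,90⟩⟩ (230,[(1,49),(3,54876),(0,399)]) (5520,[(1,2237),(3,3310248),(0,8917)]) (1104,[(1,1201),(3,44816),(0,481)]))) (.node ⟨158,105,-210⟩ (.leaf false ⟨⟨-231,-22,-162⟩,⟨42,-279,-22⟩,⟨158,42,-231⟩⟩ (23,[(4,1329),(3,1127),(1,27)]) (69,[(4,5604),(3,19504),(1,11)]) (460,[(4,249856),(1,735),(0,23)])) (.leaf false ⟨⟨-279,-42,-22⟩,⟨22,-231,162⟩,⟨42,-158,-231⟩⟩ (4830,[(4,519278),(0,3151),(1,5565)]) (805,[(4,1034128),(0,2346),(1,2625)]) (3220,[(4,6273072),(0,9039),(1,19145)])))))) (.node ⟨0,1,0⟩ (.node ⟨0,0,1⟩ (.node ⟨-266,-87,42⟩ (.node ⟨-87,266,-42⟩ (.node ⟨42,57,274⟩ (.leaf false ⟨⟨-266,-78,57⟩,⟨-87,266,-42⟩,⟨42,57,274⟩⟩ (1,[(3,15),(2,1),(4,9)])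 (1,[(1,1)]) (1,[(0,1)])) (.leaf false ⟨⟨-258,-103,54⟩,⟨-114,198,-167⟩,⟨-23,174,222⟩⟩ (7,[(3,12160),(0,43),(4,1730)]) (7,[(3,4037),(0,19),(4,2469)]) (42,[(3,15626),(0,23),(4,8619)]))) (.leaf false ⟨⟨-282,9,22⟩,⟨9,-202,198⟩,⟨22,198,201⟩⟩ (21,[(4,6879),(3,3115),(0,11)]) (7,[(4,2808),(3,7364),(0,33)]) (14,[(4,5521),(3,20594),(0,67)]))) (.leaf false ⟨⟨-274,57,42⟩,⟨42,266,-87⟩,⟨57,78,266⟩⟩ (29,[(1,2016),(3,13000),(0,19)]) (87,[(1,3603),(3,67102),(0,266)]) (29,[(1,8806),(3,5263),(0,26)]))) (.node ⟨-23,246,138⟩ (.node ⟨-247,6,138⟩ (.node ⟨-282,-23,-6⟩ (.leaf false ⟨⟨-282,-23,-6⟩,⟨-23,246,138⟩,⟨-6,138,-247⟩⟩ (1,[(0,1)]) (1,[(2,1)]) (23,[(3,6509),(2,6),(4,1698)])) (.leaf false ⟨⟨-282,22,9⟩,⟨9,198,-202⟩,⟨22,201,198⟩⟩ (1046,[(5,569105),(1,25),(0,994)])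 (23,[(3,5834),(5,55629),(0,198)]) (523,[(5,1098518),(1,558),(0,4425)]))) (.leaf false ⟨⟨-210,90,-167⟩,⟨42,265,90⟩,⟨185,42,-210⟩⟩ (5520,[(4,3310248),(1,2237),(0,8917)]) (1104,[(4,44816),(1,1201),(0,481)]) (230,[(4,54876),(1,49),(0,399)]))) (.node ⟨105,158,-210⟩ (.leaf false ⟨⟨-279,42,-22⟩,⟨-22,-231,-162⟩,⟨42,158,-231⟩⟩ (69,[(4,19504),(3,5604),(1,11)]) (23,[(4,1127),(3,1329),(1,27)]) (460,[(3,249856),(0,23),(1,735)])) (.leaf false ⟨⟨-282,-23,6⟩,⟨-23,246,-138⟩,⟨6,-138,-247⟩⟩ (1610,[(3,3386314),(1,9765),(0,6463)]) (35,[(3,29464),(1,70),(0,23)]) (9660,[(3,5503744),(1,24675),(0,4853)]))))) (.node ⟨0,0,1⟩ (.node ⟨-23,138,246⟩ (.node ⟨-247,138,6⟩ (.node ⟨-282,-6,-23⟩ (.leaf false ⟨⟨-282,-6,-23⟩,⟨-23,138,246⟩,⟨-6,-247,138⟩⟩ (1,[(0,1)]) (1,[(2,1)])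 (23,[(3,1698),(2,6),(4,6509)])) (.leaf false ⟨⟨-282,9,22⟩,⟨9,-202,198⟩,⟨22,198,201⟩⟩ (1046,[(1,25),(5,569105),(0,994)]) (23,[(5,55629),(4,5834),(0,198)]) (523,[(1,558),(5,1098518),(0,4425)]))) (.leaf false ⟨⟨-210,-167,90⟩,⟨42,90,265⟩,⟨185,-210,42⟩⟩ (5520,[(1,2237),(4,3310248),(0,8917)]) (1104,[(1,1201),(4,44816),(0,481)]) (230,[(1,49),(4,54876),(0,399)]))) (.node ⟨105,-210,158⟩ (.leaf false ⟨⟨-279,-22,42⟩,⟨-22,-162,-231⟩,⟨42,-231,158⟩⟩ (69,[(2,5604),(4,19504),(1,11)]) (23,[(2,1329),(4,1127),(1,27)]) (460,[(2,249856),(1,735),(0,23)])) (.leaf false ⟨⟨-282,6,-23⟩,⟨-23,-138,246⟩,⟨6,-247,-138⟩⟩ (1610,[(2,3386314),(0,6463),(1,9765)]) (35,[(2,29464),(0,23),(1,70)]) (9660,[(2,5503744),(0,4853),(1,24675)])))) (.leaf false ⟨⟨-283,0,0⟩,⟨0,-283,0⟩,⟨0,0,-283⟩⟩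 (1,[(2,283)]) (1,[(1,283)]) (1,[(0,283)]))))
theorem h283_ok : h283.check (ok 283 4 ⟨3, 3, 3⟩) (fun _ r => r) [] = true := by decide +kernel

def h287 : T := .node ⟨1,0,0⟩ (.node ⟨0,1,0⟩ (.node ⟨0,0,1⟩ (.node ⟨-171,118,198⟩ (.node ⟨62,261,-102⟩ (.leaf false ⟨⟨-171,118,198⟩,⟨62,261,-102⟩,⟨222,18,181⟩⟩ (1,[(1,1)]) (1,[(0,1)]) (29,[(2,5453),(4,6314),(0,2)])) (.leaf false ⟨⟨-171,62,222⟩,⟨118,261,18⟩,⟨198,-102,181⟩⟩ (10619,[(4,159572),(1,10711),(0,2320)]) (11,[(4,1469),(3,2753),(1,1)]) (102,[(4,31418),(3,36837),(0,181)]))) (.leaf false ⟨⟨18,261,118⟩,⟨181,-102,198⟩,⟨222,62,-171⟩⟩ (19,[(1,2638),(0,2),(2,5195)]) (171,[(1,69696),(0,181),(2,3916)]) (57,[(1,4905),(0,74),(2,12266)]))) (.node ⟨-170,165,-162⟩ (.node ⟨90,-138,-235⟩ (.leaf false ⟨⟨-170,165,-162⟩,⟨90,-138,-235⟩,⟨213,190,-30⟩⟩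 (1,[(1,1)]) (1,[(0,1)]) (27,[(4,6601),(3,4305),(1,5)])) (.leaf false ⟨⟨-190,213,-30⟩,⟨138,90,-235⟩,⟨165,170,162⟩⟩ (287,[(2,8610),(0,162),(1,235)]) (11,[(2,1613),(4,2538),(1,6)]) (69,[(2,8797),(4,19035),(0,85)]))) (.leaf false ⟨⟨30,162,-235⟩,⟨190,165,138⟩,⟨213,-170,-90⟩⟩ (17,[(1,4481),(0,3),(2,3249)]) (17,[(1,732),(0,19),(2,5940)]) (170,[(1,49806),(0,213),(2,6245)])))) (.node ⟨0,0,1⟩ (.node ⟨-170,-162,165⟩ (.node ⟨90,-235,-138⟩ (.leaf false ⟨⟨-170,-162,165⟩,⟨90,-235,-138⟩,⟨213,-30,190⟩⟩ (1,[(1,1)]) (1,[(0,1)]) (27,[(2,4305),(4,6601),(1,5)])) (.leaf false ⟨⟨-190,-30,213⟩,⟨138,-235,90⟩,⟨165,162,170⟩⟩ (287,[(3,8610),(1,235),(0,162)]) (11,[(4,2538),(3,1613),(1,6)]) (69,[(4,19035),(3,8797),(0,85)]))) (.leaf false ⟨⟨30,-235,162⟩,⟨190,138,165⟩,⟨213,-90,-170⟩⟩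 (17,[(1,3249),(0,3),(2,4481)]) (17,[(1,5940),(0,19),(2,732)]) (170,[(1,6245),(0,213),(2,49806)]))) (.node ⟨-63,-280,0⟩ (.leaf false ⟨⟨-63,-280,0⟩,⟨0,0,-287⟩,⟨280,-63,0⟩⟩ (1,[(0,1)]) (1,[(1,287)]) (40,[(3,11767),(0,9)])) (.node ⟨261,-18,118⟩ (.leaf false ⟨⟨18,-251,-138⟩,⟨69,138,-242⟩,⟨278,-18,69⟩⟩ (7,[(2,966),(1,2),(3,2317)]) (21,[(2,5082),(1,23),(3,3542)]) (37107,[(2,2099083),(1,153),(0,39487)])) (.leaf false ⟨⟨-246,82,-123⟩,⟨53,-174,-222⟩,⟨138,213,-134⟩⟩ (2478,[(1,1025),(3,130298),(0,2583)]) (3717,[(1,32098),(3,9760072),(0,6993)]) (1239,[(1,8543),(3,2153459),(0,1407)])))))) (.node ⟨0,1,0⟩ (.node ⟨0,0,1⟩ (.node ⟨-162,165,-170⟩ (.node ⟨-235,-138,90⟩ (.leaf false ⟨⟨-235,-138,90⟩,⟨-162,165,-170⟩,⟨-30,190,213⟩⟩ (1,[(0,1)]) (1,[(1,1)]) (27,[(2,6601),(1,5),(3,4305)]))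 (.leaf false ⟨⟨-282,46,-27⟩,⟨-6,117,262⟩,⟨53,258,-114⟩⟩ (3,[(2,9),(4,1081),(0,1)]) (46,[(2,15562),(4,9441),(0,39)]) (23,[(2,1248),(4,8886),(0,43)]))) (.leaf false ⟨⟨-282,-27,46⟩,⟨-6,262,117⟩,⟨53,-114,258⟩⟩ (85,[(3,27696),(2,1500),(0,23)]) (170,[(3,19974),(2,63845),(0,117)]) (85,[(3,16393),(2,11595),(0,129)]))) (.node ⟨0,-63,-280⟩ (.leaf false ⟨⟨-287,0,0⟩,⟨0,-63,-280⟩,⟨0,280,-63⟩⟩ (1,[(3,287)]) (1,[(0,1)]) (40,[(0,9),(2,11767)])) (.node ⟨118,261,-18⟩ (.leaf false ⟨⟨-282,46,-27⟩,⟨-6,117,262⟩,⟨53,258,-114⟩⟩ (63,[(2,14581),(4,17766),(1,46)]) (7,[(2,1806),(4,42),(1,13)]) (87,[(2,8370),(4,5537),(0,86)])) (.leaf false ⟨⟨-280,-63,0⟩,⟨-63,280,0⟩,⟨0,0,-287⟩⟩ (59,[(2,148400),(0,140),(1,521)]) (1062,[(2,1989526),(0,567),(1,7069)]) (1,[(2,287)])))))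 (.node ⟨0,0,1⟩ (.node ⟨0,-280,-63⟩ (.leaf false ⟨⟨-287,0,0⟩,⟨0,-280,-63⟩,⟨0,-63,280⟩⟩ (1,[(3,287)]) (1,[(0,1)]) (40,[(1,11767),(0,9)])) (.node ⟨118,-18,261⟩ (.leaf false ⟨⟨-282,-27,46⟩,⟨-6,262,117⟩,⟨53,-114,258⟩⟩ (63,[(1,46),(4,17766),(3,14581)]) (7,[(1,13),(4,42),(3,1806)]) (87,[(4,5537),(3,8370),(0,86)])) (.leaf false ⟨⟨-280,0,-63⟩,⟨-63,0,280⟩,⟨0,-287,0⟩⟩ (59,[(1,521),(0,140),(3,148400)]) (1062,[(1,7069),(0,567),(3,1989526)]) (1,[(3,287)])))) (.leaf false ⟨⟨-287,0,0⟩,⟨0,-287,0⟩,⟨0,0,-287⟩⟩ (1,[(2,287)]) (1,[(1,287)]) (1,[(0,287)]))))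
theorem h287_ok : h287.check (ok 287 4 ⟨3, 3, 3⟩) (fun _ r => r) [] = true := by decide +kernel

def h289 : T := .node ⟨1,0,0⟩ (.node ⟨0,1,0⟩ (.node ⟨0,0,1⟩ (.leaf false ⟨⟨0,0,289⟩,⟨0,289,0⟩,⟨289,0,0⟩⟩ (1,[(0,289)]) (1,[(1,289)]) (1,[(2,289)])) (.node ⟨0,240,161⟩ (.leaf false ⟨⟨0,161,-240⟩,⟨0,240,161⟩,⟨289,0,0⟩⟩ (240,[(1,83521),(0,161)]) (1,[(0,1)]) (1,[(3,289)])) (.node ⟨-116,153,-216⟩ (.leaf false ⟨⟨-116,153,-216⟩,⟨81,-204,-188⟩,⟨252,136,-39⟩⟩ (1,[(0,1)]) (161,[(1,188),(4,13041),(3,12276)]) (72,[(4,19652),(3,7803),(0,13)])) (.leaf false ⟨⟨0,289,0⟩,⟨161,0,-240⟩,⟨240,0,161⟩⟩ (1,[(3,289)]) (18676,[(1,62616),(0,25921),(3,18993753)]) (4669,[(1,8291),(0,9660),(3,3467820)]))))) (.node ⟨0,0,1⟩ (.node ⟨0,161,240⟩ (.leaf false ⟨⟨0,-240,161⟩,⟨0,161,240⟩,⟨289,0,0⟩⟩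 (240,[(0,161),(2,83521)]) (1,[(0,1)]) (1,[(3,289)])) (.node ⟨-116,-216,153⟩ (.leaf false ⟨⟨-116,-216,153⟩,⟨81,-188,-204⟩,⟨252,-39,136⟩⟩ (1,[(0,1)]) (161,[(2,12276),(4,13041),(1,188)]) (72,[(2,7803),(4,19652),(0,13)])) (.leaf false ⟨⟨0,0,289⟩,⟨161,-240,0⟩,⟨240,161,0⟩⟩ (1,[(2,289)]) (18676,[(2,18993753),(0,25921),(1,62616)]) (4669,[(2,3467820),(0,9660),(1,8291)])))) (.node ⟨0,136,-255⟩ (.leaf false ⟨⟨0,-255,-136⟩,⟨0,136,-255⟩,⟨289,0,0⟩⟩ (15,[(0,8),(2,4913)]) (1,[(0,1)]) (1,[(3,289)])) (.leaf false ⟨⟨0,-255,136⟩,⟨0,-136,-255⟩,⟨289,0,0⟩⟩ (8,[(1,2737),(0,15)]) (1,[(1,510),(0,1)]) (1,[(3,289)]))))) (.node ⟨0,1,0⟩ (.node ⟨0,0,1⟩ (.node ⟨161,0,240⟩ (.leaf false ⟨⟨-240,0,161⟩,⟨0,289,0⟩,⟨161,0,240⟩⟩ (240,[(3,83521),(0,161)]) (1,[(2,289)]) (1,[(0,1)]))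 (.node ⟨-216,-116,153⟩ (.leaf false ⟨⟨-231,-84,152⟩,⟨-168,44,-231⟩,⟨-44,273,84⟩⟩ (667,[(2,101645),(0,483),(1,309)]) (23,[(2,447),(1,24),(3,1012)]) (54,[(2,2853),(0,11),(3,16018)])) (.leaf false ⟨⟨-287,24,-24⟩,⟨-24,1,288⟩,⟨24,288,1⟩⟩ (4669,[(2,2344302),(1,9619),(0,966)]) (18676,[(2,6123321),(1,3000),(0,161)]) (4669,[(2,5343685),(1,14856),(0,11592)])))) (.node ⟨136,0,-255⟩ (.leaf false ⟨⟨-255,0,-136⟩,⟨0,289,0⟩,⟨136,0,-255⟩⟩ (15,[(3,4913),(0,8)]) (1,[(2,289)]) (1,[(0,1)])) (.leaf false ⟨⟨-255,0,136⟩,⟨-136,0,-255⟩,⟨0,289,0⟩⟩ (8,[(1,2737),(0,15)]) (1,[(1,510),(0,1)]) (1,[(2,289)])))) (.node ⟨0,0,1⟩ (.node ⟨136,-255,0⟩ (.leaf false ⟨⟨-255,-136,0⟩,⟨0,0,289⟩,⟨136,-255,0⟩⟩ (15,[(3,4913),(0,8)]) (1,[(1,289)]) (1,[(0,1)])) (.leaf false ⟨⟨-255,136,0⟩,⟨-136,-255,0⟩,⟨0,0,289⟩⟩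 (8,[(0,15),(2,2737)]) (1,[(0,1),(2,510)]) (1,[(1,289)]))) (.node ⟨24,-287,24⟩ (.leaf false ⟨⟨-288,-24,1⟩,⟨1,-24,-288⟩,⟨24,-287,24⟩⟩ (287,[(1,289),(3,83232),(0,24)]) (287,[(1,83232),(3,289),(0,24)]) (1,[(0,1)])) (.node ⟨64,-120,-255⟩ (.leaf false ⟨⟨-288,1,-24⟩,⟨1,-288,-24⟩,⟨24,24,-287⟩⟩ (1,[(1,1),(4,264),(3,286)]) (85,[(4,427),(3,23520),(0,8)]) (957,[(1,1531),(3,304469),(0,933)])) (.leaf false ⟨⟨-287,24,24⟩,⟨-24,-288,1⟩,⟨-24,1,-288⟩⟩ (64,[(2,71649),(0,287),(3,32904)]) (8,[(2,757),(0,3),(3,2664)]) (1,[(2,264),(1,1),(3,286)]))))))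
theorem h289_ok : h289.check (ok 289 4 ⟨3, 3, 3⟩) (fun _ r => r) [] = true := by decide +kernel

def h293 : T := .node ⟨1,0,0⟩ (.node ⟨0,1,0⟩ (.node ⟨0,0,1⟩ (.leaf false ⟨⟨0,0,293⟩,⟨0,293,0⟩,⟨293,0,0⟩⟩ (1,[(0,293)]) (1,[(1,293)]) (1,[(2,293)])) (.node ⟨-140,168,-195⟩ (.node ⟨112,-99,-252⟩ (.node ⟨261,112,72⟩ (.leaf false ⟨⟨-72,252,-131⟩,⟨112,-99,-252⟩,⟨261,112,72⟩⟩ (35,[(3,1075),(4,5796),(2,18)]) (1,[(1,1)]) (1,[(0,1)])) (.leaf false ⟨⟨-256,72,-123⟩,⟨93,276,-32⟩,⟨108,-67,-264⟩⟩ (24,[(5,4557),(4,6320),(0,41)]) (9,[(5,1881),(4,2932),(0,4)]) (3,[(5,3195),(4,1031),(0,11)]))) (.leaf false ⟨⟨-212,189,-72⟩,⟨72,168,229⟩,⟨189,148,-168⟩⟩ (11,[(2,6084),(4,20),(0,21)]) (33,[(2,6555),(4,8648),(0,56)]) (99,[(2,53928),(4,35287),(0,148)]))) (.leaf false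 ⟨⟨5,240,-168⟩,⟨168,-140,-195⟩,⟨240,93,140⟩⟩ (28,[(1,4899),(0,1),(2,6888)]) (5,[(1,2145),(0,6),(2,308)]) (7,[(1,1360),(0,12),(2,2667)])))) (.node ⟨0,0,1⟩ (.node ⟨-140,-195,168⟩ (.node ⟨112,-252,-99⟩ (.node ⟨261,72,112⟩ (.leaf false ⟨⟨-72,-131,252⟩,⟨112,-252,-99⟩,⟨261,72,112⟩⟩ (35,[(3,5796),(4,1075),(2,18)]) (1,[(1,1)]) (1,[(0,1)])) (.leaf false ⟨⟨-256,-123,72⟩,⟨93,-32,276⟩,⟨108,-264,-67⟩⟩ (24,[(3,6320),(5,4557),(0,41)]) (9,[(3,2932),(5,1881),(0,4)]) (3,[(3,1031),(5,3195),(0,11)]))) (.leaf false ⟨⟨-212,-72,189⟩,⟨72,229,168⟩,⟨189,-168,148⟩⟩ (11,[(4,20),(3,6084),(0,21)]) (33,[(4,8648),(3,6555),(0,56)]) (99,[(4,35287),(3,53928),(0,148)]))) (.leaf false ⟨⟨5,-168,240⟩,⟨168,-195,-140⟩,⟨240,140,93⟩⟩ (28,[(1,6888),(0,1),(2,4899)]) (5,[(1,308),(0,6),(2,2145)])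 (7,[(1,2667),(0,12),(2,1360)]))) (.node ⟨192,-156,157⟩ (.node ⟨-108,-171,-212⟩ (.node ⟨228,68,-171⟩ (.leaf false ⟨⟨-108,-171,-212⟩,⟨149,-228,108⟩,⟨228,68,-171⟩⟩ (1,[(1,1)]) (157,[(5,2657),(2,108),(4,18948)]) (1,[(0,1)])) (.leaf false ⟨⟨-240,-168,5⟩,⟨93,-140,-240⟩,⟨140,-195,168⟩⟩ (17,[(3,7097),(5,5496),(0,42)]) (17,[(3,10065),(5,9561),(0,35)]) (68,[(3,21921),(5,53980),(0,195)]))) (.leaf false ⟨⟨12,-292,21⟩,⟨149,-12,-252⟩,⟨252,21,148⟩⟩ (9,[(2,23),(0,1),(3,2799)]) (108,[(2,58804),(0,149),(3,26775)]) (3,[(2,1040),(0,7),(3,1134)]))) (.leaf false ⟨⟨-192,32,-219⟩,⟨-12,-291,-32⟩,⟨221,12,-192⟩⟩ (157,[(3,11904),(2,29140),(0,219)]) (157,[(3,4260),(2,50679),(0,32)]) (157,[(3,71561),(2,28068),(0,192)]))))) (.node ⟨0,1,0⟩ (.node ⟨0,0,1⟩ (.node ⟨-195,-140,168⟩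 (.node ⟨-252,112,-99⟩ (.node ⟨72,261,112⟩ (.leaf false ⟨⟨-252,112,-99⟩,⟨-131,-72,252⟩,⟨72,261,112⟩⟩ (1,[(1,1)]) (35,[(3,5796),(2,18),(5,1075)]) (1,[(0,1)])) (.leaf false ⟨⟨-283,-72,-24⟩,⟨-72,284,-3⟩,⟨-24,-3,292⟩⟩ (72,[(3,29968),(0,283),(4,68679)]) (1,[(3,109),(0,1),(4,545)]) (3,[(3,988),(0,1),(4,252)]))) (.leaf false ⟨⟨-240,-60,157⟩,⟨-32,285,60⟩,⟨165,-32,240⟩⟩ (99,[(4,63324),(3,11644),(0,157)]) (33,[(4,6096),(3,11645),(0,20)]) (33,[(4,14715),(3,7904),(0,80)]))) (.leaf false ⟨⟨-240,157,-60⟩,⟨-32,60,285⟩,⟨165,240,-32⟩⟩ (140,[(1,17976),(3,64215),(0,157)]) (7,[(1,2499),(3,809),(0,3)]) (7,[(1,1792),(3,1185),(0,12)]))) (.node ⟨-156,192,157⟩ (.node ⟨-171,-108,-212⟩ (.node ⟨68,228,-171⟩ (.leaf false ⟨⟨-228,149,108⟩,⟨-171,-108,-212⟩,⟨68,228,-171⟩⟩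 (157,[(5,18948),(2,108),(4,2657)]) (1,[(1,1)]) (1,[(0,1)])) (.leaf false ⟨⟨-276,-32,93⟩,⟨-72,-123,-256⟩,⟨-67,264,-108⟩⟩ (17,[(3,10218),(0,69),(4,15188)]) (17,[(3,7430),(0,18),(4,2013)]) (68,[(3,18801),(0,67),(4,33228)]))) (.leaf false ⟨⟨-292,12,21⟩,⟨-12,149,-252⟩,⟨21,252,148⟩⟩ (9,[(2,23),(4,2799),(0,1)]) (108,[(2,58804),(4,26775),(0,149)]) (3,[(2,1040),(4,1134),(0,7)]))) (.leaf false ⟨⟨-291,-12,-32⟩,⟨12,221,-192⟩,⟨32,-192,-219⟩⟩ (157,[(3,50679),(2,4260),(0,32)]) (157,[(3,28068),(2,71561),(0,192)]) (157,[(3,29140),(2,11904),(0,219)])))) (.node ⟨0,0,1⟩ (.node ⟨-156,157,192⟩ (.node ⟨-171,-212,-108⟩ (.node ⟨68,-171,228⟩ (.leaf false ⟨⟨-228,108,149⟩,⟨-171,-212,-108⟩,⟨68,-171,228⟩⟩ (157,[(3,2657),(2,108),(5,18948)]) (1,[(1,1)]) (1,[(0,1)])) (.leaf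 false ⟨⟨-276,93,-32⟩,⟨-72,-256,-123⟩,⟨-67,-108,264⟩⟩ (17,[(3,15188),(0,69),(4,10218)]) (17,[(3,2013),(0,18),(4,7430)]) (68,[(3,33228),(0,67),(4,18801)]))) (.leaf false ⟨⟨-292,-12,21⟩,⟨12,149,252⟩,⟨21,-252,148⟩⟩ (36,[(4,11709),(3,1916),(0,7)]) (3,[(4,1161),(3,1037),(0,7)]) (27,[(4,5760),(3,14648),(0,37)]))) (.leaf false ⟨⟨-291,-32,-12⟩,⟨12,-192,221⟩,⟨32,-219,-192⟩⟩ (157,[(1,4260),(3,50679),(0,32)]) (157,[(1,71561),(3,28068),(0,192)]) (157,[(1,11904),(3,29140),(0,219)]))) (.node ⟨-24,72,-283⟩ (.node ⟨-284,-3,72⟩ (.leaf false ⟨⟨-292,-3,24⟩,⟨-24,72,-283⟩,⟨-3,-284,-72⟩⟩ (855,[(2,42485),(1,1),(0,879)]) (1,[(1,1)]) (8,[(2,293),(1,1),(3,2344)])) (.leaf false ⟨⟨-284,-72,-3⟩,⟨-3,24,-292⟩,⟨72,-283,-24⟩⟩ (24,[(4,7100),(3,1731),(0,1)]) (1445,[(1,284),(4,1344815),(0,4744)])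 (3,[(4,68),(3,852),(0,1)]))) (.leaf false ⟨⟨-292,-3,-24⟩,⟨-3,-284,72⟩,⟨24,-72,-283⟩⟩ (24,[(1,859),(3,7032),(0,1)]) (18,[(1,18797),(3,1758),(0,71)]) (1,[(1,566),(0,1)])))))
theorem h293_ok : h293.check (ok 293 4 ⟨3, 3, 3⟩) (fun _ r => r) [] = true := by decide +kernel

def h299 : T := .node ⟨1,0,0⟩ (.node ⟨0,1,0⟩ (.node ⟨0,0,1⟩ (.node ⟨-78,-39,286⟩ (.node ⟨281,-78,66⟩ (.leaf false ⟨⟨-78,-39,286⟩,⟨66,286,57⟩,⟨281,-78,66⟩⟩ (1,[(1,1)]) (22,[(3,6877),(1,3),(0,6)]) (1,[(0,1)])) (.leaf false ⟨⟨-279,102,-34⟩,⟨-34,6,297⟩,⟨102,281,6⟩⟩ (3289,[(4,439530),(0,4641),(1,680)]) (598,[(4,148603),(0,403),(1,714)]) (9867,[(4,13072280),(0,40300),(1,9507)]))) (.node ⟨-74,270,105⟩ (.leaf false ⟨⟨-74,270,105⟩,⟨105,126,-250⟩,⟨270,25,126⟩⟩ (1,[(0,1)]) (614,[(2,107341),(1,966),(0,147)])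 (39,[(2,12064),(4,8580),(1,25)])) (.leaf false ⟨⟨25,126,270⟩,⟨126,-250,105⟩,⟨270,105,-74⟩⟩ (74,[(2,22605),(0,25),(3,16074)]) (37,[(2,10500),(0,63),(3,7760)]) (37,[(2,11437),(0,135),(3,40335)])))) (.node ⟨-102,34,-279⟩ (.node ⟨6,281,102⟩ (.leaf false ⟨⟨-102,34,-279⟩,⟨6,297,34⟩,⟨281,6,-102⟩⟩ (1,[(1,1)]) (4811,[(2,350428),(0,5083),(1,16)]) (17,[(2,897),(4,5083),(1,3)])) (.leaf false ⟨⟨-87,6,-286⟩,⟨146,258,-39⟩,⟨246,-151,-78⟩⟩ (2910,[(3,395209),(1,2386),(0,1633)]) (34,[(4,5042),(3,12425),(0,13)]) (17,[(4,4260),(3,1086),(0,13)]))) (.leaf false ⟨⟨6,297,-34⟩,⟨102,-34,-279⟩,⟨281,6,102⟩⟩ (17,[(1,857),(0,1),(2,5083)]) (1,[(1,558),(0,1)]) (102,[(1,67995),(0,281),(2,10166)])))) (.node ⟨0,0,1⟩ (.node ⟨-102,-279,34⟩ (.node ⟨6,102,281⟩ (.leaf false ⟨⟨-102,-279,34⟩,⟨6,34,297⟩,⟨281,-102,6⟩⟩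 (1,[(1,1)]) (4811,[(3,350428),(1,16),(0,5083)]) (17,[(4,5083),(3,897),(1,3)])) (.leaf false ⟨⟨-87,-286,6⟩,⟨146,-39,258⟩,⟨246,-78,-151⟩⟩ (2910,[(2,395209),(0,1633),(1,2386)]) (34,[(2,12425),(4,5042),(0,13)]) (17,[(2,1086),(4,4260),(0,13)]))) (.leaf false ⟨⟨6,-34,297⟩,⟨102,-279,-34⟩,⟨281,102,6⟩⟩ (17,[(1,5083),(0,1),(2,857)]) (1,[(0,1),(2,558)]) (102,[(1,10166),(0,281),(2,67995)]))) (.node ⟨-115,-276,0⟩ (.leaf false ⟨⟨-115,-276,0⟩,⟨0,0,-299⟩,⟨276,-115,0⟩⟩ (1,[(0,1)]) (1,[(1,299)]) (12,[(3,3887),(0,5)])) (.node ⟨249,-78,146⟩ (.leaf false ⟨⟨34,-234,-183⟩,⟨162,169,-186⟩,⟨249,-78,146⟩⟩ (115,[(2,21045),(1,34),(3,36294)]) (115,[(2,21390),(1,162),(3,25277)]) (1,[(0,1)])) (.leaf false ⟨⟨-234,-39,-182⟩,⟨78,-286,-39⟩,⟨169,78,-234⟩⟩ (8395,[(1,5577),(3,2682927),(0,10465)])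 (16790,[(1,21099),(3,10975094),(0,4485)]) (1679,[(1,8294),(3,2368080),(0,2691)])))))) (.node ⟨0,1,0⟩ (.node ⟨0,0,1⟩ (.node ⟨-279,-102,34⟩ (.node ⟨102,6,281⟩ (.leaf false ⟨⟨-279,-102,34⟩,⟨-102,281,6⟩,⟨34,6,297⟩⟩ (1,[(1,1)]) (17,[(1,3),(4,897),(3,5083)]) (4811,[(1,16),(4,350428),(0,5083)])) (.leaf false ⟨⟨-286,-87,6⟩,⟨-78,246,-151⟩,⟨-39,146,258⟩⟩ (2910,[(2,395209),(1,2386),(0,1633)]) (17,[(2,1086),(0,13),(3,4260)]) (34,[(2,12425),(0,13),(3,5042)]))) (.leaf false ⟨⟨-279,102,-34⟩,⟨-34,6,297⟩,⟨102,281,6⟩⟩ (1,[(3,558),(0,1)]) (17,[(1,5083),(3,857),(0,1)]) (102,[(1,10166),(3,67995),(0,281)]))) (.node ⟨0,-115,-276⟩ (.leaf false ⟨⟨-299,0,0⟩,⟨0,-115,-276⟩,⟨0,276,-115⟩⟩ (1,[(3,299)]) (1,[(0,1)]) (12,[(0,5),(2,3887)])) (.node ⟨146,249,-78⟩ (.leaf false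 ⟨⟨-286,66,57⟩,⟨-39,78,-286⟩,⟨78,281,66⟩⟩ (115,[(2,11661),(4,32890),(1,66)]) (83,[(2,21710),(4,7033),(0,26)]) (12949,[(4,692484),(1,6392),(0,11661)])) (.leaf false ⟨⟨-294,-39,38⟩,⟨-54,182,-231⟩,⟨-7,234,186⟩⟩ (8395,[(2,10316236),(0,16905),(1,33756)]) (8395,[(2,7703919),(0,3105),(1,20009)]) (16790,[(2,6850182),(0,805),(1,35907)]))))) (.node ⟨0,0,1⟩ (.node ⟨0,-276,-115⟩ (.leaf false ⟨⟨-299,0,0⟩,⟨0,-276,-115⟩,⟨0,-115,276⟩⟩ (1,[(3,299)]) (1,[(0,1)]) (12,[(1,3887),(0,5)])) (.node ⟨146,-78,249⟩ (.leaf false ⟨⟨-286,57,66⟩,⟨-39,-286,78⟩,⟨78,66,281⟩⟩ (115,[(1,66),(4,32890),(3,11661)]) (83,[(4,7033),(3,21710),(0,26)]) (12949,[(1,6392),(4,692484),(0,11661)])) (.leaf false ⟨⟨-294,38,-39⟩,⟨-54,-231,182⟩,⟨-7,186,234⟩⟩ (8395,[(1,33756),(0,16905),(3,10316236)])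 (8395,[(1,20009),(0,3105),(3,7703919)]) (16790,[(1,35907),(0,805),(3,6850182)])))) (.leaf false ⟨⟨-299,0,0⟩,⟨0,-299,0⟩,⟨0,0,-299⟩⟩ (1,[(2,299)]) (1,[(1,299)]) (1,[(0,299)]))))
theorem h299_ok : h299.check (ok 299 4 ⟨3, 3, 3⟩) (fun _ r => r) [] = true := by decide +kernel

def h305 : T := .node ⟨1,0,0⟩ (.node ⟨0,1,0⟩ (.node ⟨0,0,1⟩ (.leaf false ⟨⟨0,0,305⟩,⟨0,305,0⟩,⟨305,0,0⟩⟩ (1,[(0,305)]) (1,[(1,305)]) (1,[(2,305)])) (.node ⟨-55,0,-300⟩ (.leaf false ⟨⟨-55,0,-300⟩,⟨0,305,0⟩,⟨300,0,-55⟩⟩ (1,[(0,1)]) (1,[(2,305)]) (60,[(3,18605),(0,11)])) (.leaf false ⟨⟨0,305,0⟩,⟨136,0,273⟩,⟨273,0,-136⟩⟩ (1,[(2,305)]) (55,[(1,25785),(0,136)]) (55,[(1,89380),(0,273)])))) (.node ⟨0,0,1⟩ (.node ⟨-55,-300,0⟩ (.leaf false ⟨⟨-55,-300,0⟩,⟨0,0,305⟩,⟨300,-55,0⟩⟩ (1,[(0,1)])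 (1,[(1,305)]) (60,[(3,18605),(0,11)])) (.leaf false ⟨⟨0,0,305⟩,⟨136,273,0⟩,⟨273,-136,0⟩⟩ (1,[(1,305)]) (55,[(0,136),(2,25785)]) (55,[(0,273),(2,89380)]))) (.node ⟨240,-120,145⟩ (.node ⟨0,-207,224⟩ (.leaf false ⟨⟨0,-224,-207⟩,⟨0,-207,224⟩,⟨305,0,0⟩⟩ (207,[(2,93025),(0,224)]) (1,[(0,1)]) (1,[(4,305)])) (.node ⟨-44,-240,-183⟩ (.leaf false ⟨⟨-44,-240,-183⟩,⟨33,180,-244⟩,⟨300,-55,0⟩⟩ (1,[(0,1)]) (291412,[(1,319640),(2,46299),(0,33981)]) (896,[(1,725),(2,1120),(4,64955)])) (.leaf false ⟨⟨9,100,-288⟩,⟨188,225,84⟩,⟨240,-180,-55⟩⟩ (9856,[(1,14319),(0,2016),(4,2462273)]) (2464,[(1,7677),(0,10528),(4,3561459)]) (352,[(1,1655),(0,1920),(4,866745)])))) (.leaf false ⟨⟨-215,-120,-180⟩,⟨120,145,-240⟩,⟨180,-240,-55⟩⟩ (29,[(3,2405),(2,7800),(0,36)]) (29,[(3,15000),(2,1555),(0,48)])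 (29,[(3,7860),(2,8280),(0,11)]))))) (.node ⟨0,1,0⟩ (.node ⟨0,0,1⟩ (.node ⟨-300,-55,0⟩ (.leaf false ⟨⟨-300,-55,0⟩,⟨-55,300,0⟩,⟨0,0,305⟩⟩ (1,[(0,1)]) (60,[(0,11),(2,18605)]) (1,[(1,305)])) (.leaf false ⟨⟨-136,273,0⟩,⟨0,0,305⟩,⟨273,136,0⟩⟩ (55,[(3,89380),(0,273)]) (1,[(1,305)]) (55,[(3,25785),(0,136)]))) (.node ⟨-120,240,145⟩ (.node ⟨-207,0,224⟩ (.leaf false ⟨⟨-224,0,-207⟩,⟨-207,0,224⟩,⟨0,305,0⟩⟩ (207,[(2,93025),(0,224)]) (1,[(0,1)]) (1,[(3,305)])) (.node ⟨-240,-44,-183⟩ (.leaf false ⟨⟨-240,-44,-183⟩,⟨-55,300,0⟩,⟨180,33,-244⟩⟩ (1,[(0,1)]) (896,[(5,64955),(2,1120),(1,725)]) (291412,[(2,46299),(1,319640),(0,33981)])) (.leaf false ⟨⟨-288,84,-55⟩,⟨9,188,240⟩,⟨100,225,-180⟩⟩ (77,[(5,86229),(0,147),(1,139)]) (2464,[(5,3738471),(0,10528),(1,5961)])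 (9856,[(5,21273065),(0,50400),(1,49095)])))) (.leaf false ⟨⟨-300,0,-55⟩,⟨33,244,-180⟩,⟨44,-183,-240⟩⟩ (29,[(3,10020),(2,2640),(0,11)]) (29,[(3,3363),(2,15716),(0,36)]) (29,[(3,4484),(2,6213),(0,48)])))) (.node ⟨0,0,1⟩ (.node ⟨-120,145,240⟩ (.node ⟨-207,224,0⟩ (.leaf false ⟨⟨-224,-207,0⟩,⟨-207,224,0⟩,⟨0,0,305⟩⟩ (207,[(0,224),(3,93025)]) (1,[(0,1)]) (1,[(2,305)])) (.node ⟨-240,-183,-44⟩ (.leaf false ⟨⟨-240,-183,-44⟩,⟨-55,0,300⟩,⟨180,-244,33⟩⟩ (1,[(0,1)]) (896,[(2,1120),(5,64955),(1,725)]) (291412,[(2,46299),(0,33981),(1,319640)])) (.leaf false ⟨⟨-288,-55,84⟩,⟨9,240,188⟩,⟨100,-180,225⟩⟩ (77,[(5,86229),(1,139),(0,147)]) (2464,[(5,3738471),(1,5961),(0,10528)]) (9856,[(5,21273065),(1,49095),(0,50400)])))) (.leaf false ⟨⟨-300,-55,0⟩,⟨33,-180,244⟩,⟨44,-240,-183⟩⟩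 (29,[(1,2640),(3,10020),(0,11)]) (29,[(1,15716),(3,3363),(0,36)]) (29,[(1,6213),(3,4484),(0,48)]))) (.node ⟨-72,120,-271⟩ (.node ⟨-280,-15,120⟩ (.leaf false ⟨⟨-296,-15,72⟩,⟨-72,120,-271⟩,⟨-15,-280,-120⟩⟩ (289,[(2,15250),(1,2),(0,305)]) (1,[(1,1)]) (24,[(2,1525),(1,5),(3,7320)])) (.leaf false ⟨⟨-287,-60,-84⟩,⟨60,105,-280⟩,⟨84,-280,-87⟩⟩ (10,[(4,4830),(3,705),(0,7)]) (4226,[(1,3560),(3,10785),(0,1821)]) (40,[(4,4760),(3,11635),(0,29)]))) (.leaf false ⟨⟨-300,-55,0⟩,⟨33,-180,244⟩,⟨44,-240,-183⟩⟩ (24,[(1,2981),(3,7992),(0,11)]) (2,[(1,325),(3,150),(0,3)]) (1,[(1,725),(3,100),(0,2)])))))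
theorem h305_ok : h305.check (ok 305 4 ⟨3, 3, 3⟩) (fun _ r => r) [] = true := by decide +kernel

def h307 : T := .node ⟨1,0,0⟩ (.node ⟨0,1,0⟩ (.node ⟨0,0,1⟩ (.node ⟨-126,33,278⟩ (.node ⟨-114,278,-63⟩ (.leaf false ⟨⟨-126,33,278⟩,⟨-62,294,-63⟩,⟨273,82,114⟩⟩ (1,[(1,1)]) (139,[(2,504),(4,8140),(0,147)]) (139,[(2,18429),(4,42621),(0,41)])) (.leaf false ⟨⟨-66,33,298⟩,⟨177,-242,66⟩,⟨242,186,33⟩⟩ (1321,[(3,179570),(1,1271),(0,640)]) (21,[(4,1209),(3,1034),(0,22)]) (21,[(4,3828),(3,6964),(0,11)]))) (.leaf false ⟨⟨18,305,-30⟩,⟨145,18,270⟩,⟨270,-30,-143⟩⟩ (7,[(1,68),(0,1),(2,2168)]) (126,[(1,74330),(0,145),(2,7053)]) (7,[(1,3169),(0,15),(2,285)]))) (.node ⟨-18,306,17⟩ (.node ⟨306,17,18⟩ (.leaf false ⟨⟨-18,306,17⟩,⟨17,18,-306⟩,⟨306,17,18⟩⟩ (1,[(1,1)])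 (17,[(2,5219),(4,307),(1,1)]) (1,[(0,1)])) (.leaf false ⟨⟨-303,-18,-46⟩,⟨18,226,-207⟩,⟨46,-207,-222⟩⟩ (5219,[(4,2640507),(1,458),(0,13770)]) (5219,[(4,20788812),(1,7587),(0,67184)]) (5219,[(4,19951316),(1,48),(0,64413)]))) (.node ⟨-42,-26,-303⟩ (.leaf false ⟨⟨-42,-26,-303⟩,⟨134,273,-42⟩,⟨273,-138,-26⟩⟩ (1,[(0,1)]) (17,[(1,42),(4,1522),(3,17493)]) (17,[(1,26),(4,4173),(3,5610)])) (.leaf false ⟨⟨17,-234,-198⟩,⟨198,-143,186⟩,⟨234,138,-143⟩⟩ (18,[(2,3275),(1,17),(3,990)]) (2220,[(2,2485184),(1,1859),(0,9669)]) (185,[(2,338174),(1,4),(0,1029)]))))) (.node ⟨0,0,1⟩ (.node ⟨-18,17,306⟩ (.node ⟨306,18,17⟩ (.leaf false ⟨⟨-18,17,306⟩,⟨17,-306,18⟩,⟨306,18,17⟩⟩ (1,[(1,1)]) (17,[(4,307),(3,5219),(1,1)]) (1,[(0,1)])) (.leaf false ⟨⟨-303,-46,-18⟩,⟨18,-207,226⟩,⟨46,-222,-207⟩⟩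 (5219,[(4,2640507),(0,13770),(1,458)]) (5219,[(4,20788812),(0,67184),(1,7587)]) (5219,[(4,19951316),(0,64413),(1,48)]))) (.node ⟨-42,-303,-26⟩ (.leaf false ⟨⟨-42,-303,-26⟩,⟨134,-42,273⟩,⟨273,-26,-138⟩⟩ (1,[(0,1)]) (17,[(2,17493),(4,1522),(1,42)]) (17,[(2,5610),(4,4173),(1,26)])) (.leaf false ⟨⟨17,-234,-198⟩,⟨198,-143,186⟩,⟨234,138,-143⟩⟩ (18,[(2,1638),(1,17),(3,3923)]) (7,[(2,444),(0,33),(3,11000)]) (444,[(0,2301),(1,403),(3,629080)])))) (.node ⟨273,-62,126⟩ (.node ⟨-114,-278,-63⟩ (.node ⟨82,33,-294⟩ (.leaf false ⟨⟨-114,-278,-63⟩,⟨82,33,-294⟩,⟨273,-126,62⟩⟩ (1,[(1,1)]) (1,[(0,1)]) (1,[(3,64),(2,1),(4,64)])) (.leaf false ⟨⟨-262,-159,-18⟩,⟨81,-102,-278⟩,⟨138,-242,129⟩⟩ (11,[(3,15780),(5,1464),(0,53)]) (11,[(3,13054),(5,3679),(0,34)]) (3,[(3,6081),(5,2218),(0,22)])))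 (.leaf false ⟨⟨18,-159,-262⟩,⟨129,242,-138⟩,⟨278,-102,81⟩⟩ (19,[(2,5167),(0,3),(3,3855)]) (38,[(2,7953),(0,43),(3,2758)]) (57,[(2,4140),(0,139),(3,44456)]))) (.leaf false ⟨⟨-242,-102,-159⟩,⟨129,-278,-18⟩,⟨138,81,-262⟩⟩ (42,[(3,4305),(2,7570),(0,53)]) (7,[(3,1176),(2,2008),(0,1)]) (63,[(3,44457),(2,3019),(0,131)]))))) (.node ⟨0,1,0⟩ (.node ⟨0,0,1⟩ (.node ⟨17,-18,306⟩ (.node ⟨18,306,17⟩ (.leaf false ⟨⟨-306,17,18⟩,⟨17,-18,306⟩,⟨18,306,17⟩⟩ (17,[(4,5219),(3,307),(1,1)]) (1,[(1,1)]) (1,[(0,1)])) (.leaf false ⟨⟨-303,-26,-42⟩,⟨-42,273,134⟩,⟨-26,-138,273⟩⟩ (5219,[(3,28096640),(1,4395),(0,92004)]) (5219,[(3,6110835),(1,3126),(0,15130)]) (5219,[(3,3230868),(1,5356),(0,12597)]))) (.node ⟨-303,-42,-26⟩ (.leaf false ⟨⟨-303,-42,-26⟩,⟨-42,134,273⟩,⟨-26,273,-138⟩⟩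 (1,[(0,1)]) (17,[(2,17493),(1,42),(3,1522)]) (17,[(2,5610),(1,26),(3,4173)])) (.leaf false ⟨⟨-306,18,17⟩,⟨17,306,-18⟩,⟨18,17,306⟩⟩ (1,[(2,323),(4,289),(1,1)]) (185,[(4,387486),(1,121),(0,1296)]) (42,[(2,12410),(4,4395),(0,17)])))) (.node ⟨-62,273,126⟩ (.node ⟨-278,-114,-63⟩ (.node ⟨33,82,-294⟩ (.leaf false ⟨⟨-278,-114,-63⟩,⟨-126,273,62⟩,⟨33,82,-294⟩⟩ (1,[(1,1)]) (1,[(3,64),(5,64),(2,1)]) (1,[(0,1)])) (.leaf false ⟨⟨-303,-42,-26⟩,⟨-42,134,273⟩,⟨-26,273,-138⟩⟩ (11,[(3,29980),(0,101),(4,7820)]) (11,[(3,1113),(0,14),(4,2622)]) (33,[(3,12198),(0,26),(4,11141)]))) (.leaf false ⟨⟨-186,242,33⟩,⟨33,66,-298⟩,⟨242,177,66⟩⟩ (57,[(2,5742),(4,44240),(0,121)]) (19,[(2,6355),(4,2431),(0,11)]) (38,[(2,1209),(4,7206),(0,59)]))) (.leaf false ⟨⟨-303,-18,-46⟩,⟨18,226,-207⟩,⟨46,-207,-222⟩⟩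 (63,[(3,20515),(2,5145),(0,23)]) (14,[(3,1174),(2,9443),(0,23)]) (21,[(3,1328),(2,5754),(0,37)])))) (.node ⟨0,0,1⟩ (.node ⟨-62,126,273⟩ (.node ⟨-278,-63,-114⟩ (.node ⟨33,-294,82⟩ (.leaf false ⟨⟨-278,-63,-114⟩,⟨-126,62,273⟩,⟨33,-294,82⟩⟩ (1,[(1,1)]) (1,[(2,1),(5,64),(4,64)]) (1,[(0,1)])) (.leaf false ⟨⟨-303,-26,-42⟩,⟨-42,273,134⟩,⟨-26,-138,273⟩⟩ (11,[(3,7820),(0,101),(4,29980)]) (11,[(3,2622),(0,14),(4,1113)]) (33,[(3,11141),(0,26),(4,12198)]))) (.leaf false ⟨⟨-186,33,242⟩,⟨33,-298,66⟩,⟨242,66,177⟩⟩ (57,[(4,44240),(3,5742),(0,121)]) (19,[(4,2431),(3,6355),(0,11)]) (38,[(4,7206),(3,1209),(0,59)]))) (.leaf false ⟨⟨-303,-46,-18⟩,⟨18,-207,226⟩,⟨46,-222,-207⟩⟩ (63,[(1,5145),(3,20515),(0,23)]) (14,[(1,9443),(3,1174),(0,23)]) (21,[(1,5754),(3,1328),(0,37)])))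 (.leaf false ⟨⟨-307,0,0⟩,⟨0,-307,0⟩,⟨0,0,-307⟩⟩ (1,[(2,307)]) (1,[(1,307)]) (1,[(0,307)]))))
theorem h307_ok : h307.check (ok 307 4 ⟨3, 3, 3⟩) (fun _ r => r) [] = true := by decide +kernel

def h311 : T := .node ⟨1,0,0⟩ (.node ⟨0,1,0⟩ (.node ⟨0,0,1⟩ (.node ⟨-147,66,266⟩ (.node ⟨-6,301,-78⟩ (.leaf false ⟨⟨-147,66,266⟩,⟨-6,301,-78⟩,⟨274,42,141⟩⟩ (1,[(1,1)]) (1,[(0,1)]) (43,[(2,6531),(4,11818),(0,6)])) (.leaf false ⟨⟨-99,22,294⟩,⟨174,-246,77⟩,⟨238,189,66⟩⟩ (2177,[(3,790562),(1,1581),(0,2814)]) (78,[(4,13110),(3,3989),(0,77)]) (13,[(4,3028),(3,5768),(0,11)]))) (.leaf false ⟨⟨66,294,77⟩,⟨189,22,-246⟩,⟨238,-99,174⟩⟩ (49,[(1,9625),(0,22),(2,15858)]) (7,[(1,672),(0,9),(2,748)]) (21,[(1,12698),(0,34),(2,165)]))) (.node ⟨-54,13,-306⟩ (.node ⟨-50,285,114⟩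 (.leaf false ⟨⟨-54,13,-306⟩,⟨-51,306,22⟩,⟨302,54,-51⟩⟩ (1,[(1,1)]) (95,[(2,9538),(4,255),(0,102)]) (95,[(2,6897),(4,29590),(0,18)])) (.leaf false ⟨⟨-42,141,-274⟩,⟨66,-266,-147⟩,⟨301,78,-6⟩⟩ (153,[(4,972),(3,19792),(1,137)]) (38,[(4,58),(3,3857),(0,49)]) (19,[(4,5669),(3,1767),(0,1)]))) (.leaf false ⟨⟨6,274,-147⟩,⟨78,141,266⟩,⟨301,-42,-66⟩⟩ (9,[(1,1629),(0,1),(2,2479)]) (9,[(1,1584),(0,13),(2,1438)]) (54,[(1,95670),(0,301),(2,1645)])))) (.node ⟨0,0,1⟩ (.node ⟨-54,-306,13⟩ (.node ⟨-50,114,285⟩ (.leaf false ⟨⟨-54,-306,13⟩,⟨-51,22,306⟩,⟨302,-51,54⟩⟩ (1,[(1,1)]) (95,[(4,255),(3,9538),(0,102)]) (95,[(4,29590),(3,6897),(0,18)])) (.leaf false ⟨⟨-42,-274,141⟩,⟨66,-147,-266⟩,⟨301,-6,78⟩⟩ (153,[(2,19792),(4,972),(1,137)]) (38,[(2,3857),(4,58),(0,49)])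 (19,[(2,1767),(4,5669),(0,1)]))) (.leaf false ⟨⟨6,-147,274⟩,⟨78,266,141⟩,⟨301,-66,-42⟩⟩ (9,[(1,2479),(0,1),(2,1629)]) (9,[(1,1438),(0,13),(2,1584)]) (54,[(1,1645),(0,301),(2,95670)]))) (.node ⟨222,-99,194⟩ (.node ⟨-114,-211,-198⟩ (.node ⟨237,54,-194⟩ (.leaf false ⟨⟨-114,-211,-198⟩,⟨166,-222,141⟩,⟨237,54,-194⟩⟩ (1,[(1,1)]) (111,[(3,451),(2,83),(4,16425)]) (1,[(0,1)])) (.leaf false ⟨⟨-294,-99,-22⟩,⟨66,-238,189⟩,⟨77,-174,-246⟩⟩ (6,[(3,2266),(5,843),(0,11)]) (27,[(3,17983),(5,29985),(0,119)]) (9,[(3,7840),(5,7566),(0,29)]))) (.leaf false ⟨⟨22,-294,-99⟩,⟨189,-66,238⟩,⟨246,77,-174⟩⟩ (57,[(2,7821),(0,11),(3,19079)]) (38,[(2,3430),(0,63),(3,15801)]) (19,[(2,11424),(0,41),(3,7188)]))) (.node ⟨130,189,-210⟩ (.leaf false ⟨⟨-210,-90,-211⟩,⟨130,189,-210⟩,⟨189,-230,-90⟩⟩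 (194,[(4,6102),(3,38349),(1,211)]) (1,[(0,1)]) (7,[(4,933),(3,2177),(0,3)])) (.leaf false ⟨⟨-306,-51,-22⟩,⟨13,54,-306⟩,⟨54,-302,-51⟩⟩ (1323,[(4,1000),(0,1006),(1,1239)]) (294,[(4,242674),(0,367),(1,861)]) (2268,[(4,3621316),(0,9091),(1,10437)])))))) (.node ⟨0,1,0⟩ (.node ⟨0,0,1⟩ (.node ⟨-306,-54,13⟩ (.node ⟨114,-50,285⟩ (.leaf false ⟨⟨-306,-54,13⟩,⟨-51,302,54⟩,⟨22,-51,306⟩⟩ (1,[(1,1)]) (95,[(4,6897),(3,29590),(0,18)]) (95,[(4,9538),(3,255),(0,102)])) (.leaf false ⟨⟨-274,-42,141⟩,⟨-147,66,-266⟩,⟨-6,301,78⟩⟩ (153,[(2,19792),(1,137),(3,972)]) (38,[(2,3857),(0,49),(3,58)]) (19,[(2,1767),(0,1),(3,5669)]))) (.leaf false ⟨⟨-147,6,274⟩,⟨-66,301,-42⟩,⟨266,78,141⟩⟩ (9,[(1,2479),(3,1629),(0,1)]) (54,[(1,1645),(3,95670),(0,301)]) (9,[(1,1438),(3,1584),(0,13)])))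 (.node ⟨-99,222,194⟩ (.node ⟨-211,-114,-198⟩ (.node ⟨54,237,-194⟩ (.leaf false ⟨⟨-222,166,141⟩,⟨-211,-114,-198⟩,⟨54,237,-194⟩⟩ (111,[(3,451),(5,16425),(2,83)]) (1,[(1,1)]) (1,[(0,1)])) (.leaf false ⟨⟨-294,66,77⟩,⟨-99,-238,-174⟩,⟨-22,189,-246⟩⟩ (9,[(3,8813),(0,49),(4,12207)]) (6,[(3,3178),(0,11),(4,1179)]) (27,[(3,8776),(0,11),(4,7710)]))) (.leaf false ⟨⟨-294,22,-99⟩,⟨-66,189,238⟩,⟨77,246,-174⟩⟩ (57,[(2,7821),(4,19079),(0,11)]) (38,[(2,3430),(4,15801),(0,63)]) (19,[(2,11424),(4,7188),(0,41)]))) (.node ⟨189,130,-210⟩ (.leaf false ⟨⟨-274,6,-147⟩,⟨42,301,-66⟩,⟨141,-78,-266⟩⟩ (194,[(4,67709),(3,33798),(1,147)]) (35,[(4,609),(3,9105),(0,11)]) (898,[(4,40206),(0,549),(1,637)])) (.leaf false ⟨⟨-302,54,-51⟩,⟨-51,-306,-22⟩,⟨54,13,-306⟩⟩ (2268,[(3,3621316),(1,10437),(0,9091)])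 (1323,[(3,1000),(1,1239),(0,1006)]) (294,[(3,242674),(1,861),(0,367)]))))) (.node ⟨0,0,1⟩ (.node ⟨-99,194,222⟩ (.node ⟨-211,-198,-114⟩ (.node ⟨54,-194,237⟩ (.leaf false ⟨⟨-222,141,166⟩,⟨-211,-198,-114⟩,⟨54,-194,237⟩⟩ (111,[(2,83),(5,16425),(4,451)]) (1,[(1,1)]) (1,[(0,1)])) (.leaf false ⟨⟨-294,77,66⟩,⟨-99,-174,-238⟩,⟨-22,-246,189⟩⟩ (9,[(3,12207),(0,49),(4,8813)]) (6,[(3,1179),(0,11),(4,3178)]) (27,[(3,7710),(0,11),(4,8776)]))) (.leaf false ⟨⟨-294,-99,22⟩,⟨-66,238,189⟩,⟨77,-174,246⟩⟩ (57,[(4,19079),(3,7821),(0,11)]) (38,[(4,15801),(3,3430),(0,63)]) (19,[(4,7188),(3,11424),(0,41)]))) (.node ⟨189,-210,130⟩ (.leaf false ⟨⟨-274,-147,6⟩,⟨42,-66,301⟩,⟨141,-266,-78⟩⟩ (194,[(2,33798),(4,67709),(1,147)]) (35,[(2,9105),(4,609),(0,11)]) (898,[(4,40206),(1,637),(0,549)]))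 (.leaf false ⟨⟨-302,-51,54⟩,⟨-51,-22,-306⟩,⟨54,-306,13⟩⟩ (2268,[(2,3621316),(0,9091),(1,10437)]) (1323,[(2,1000),(0,1006),(1,1239)]) (294,[(2,242674),(0,367),(1,861)])))) (.leaf false ⟨⟨-311,0,0⟩,⟨0,-311,0⟩,⟨0,0,-311⟩⟩ (1,[(2,311)]) (1,[(1,311)]) (1,[(0,311)]))))
theorem h311_ok : h311.check (ok 311 4 ⟨3, 3, 3⟩) (fun _ r => r) [] = true := by decide +kernel

def h313 : T := .node ⟨1,0,0⟩ (.node ⟨0,1,0⟩ (.node ⟨0,0,1⟩ (.leaf false ⟨⟨0,0,313⟩,⟨0,313,0⟩,⟨313,0,0⟩⟩ (1,[(0,313)]) (1,[(1,313)]) (1,[(2,313)])) (.node ⟨0,312,25⟩ (.leaf false ⟨⟨0,25,-312⟩,⟨0,312,25⟩,⟨313,0,0⟩⟩ (312,[(1,97969),(0,25)]) (1,[(0,1)]) (1,[(3,313)])) (.node ⟨-92,-108,-279⟩ (.leaf false ⟨⟨-92,-108,-279⟩,⟨81,272,-132⟩,⟨288,-111,-52⟩⟩ (1,[(0,1)]) (93,[(4,11581),(3,30048),(0,44)])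 (25,[(1,52),(4,7200),(3,13449)])) (.leaf false ⟨⟨0,313,0⟩,⟨25,0,-312⟩,⟨312,0,25⟩⟩ (1,[(3,313)]) (2300,[(1,35679),(0,625),(3,11064348)]) (575,[(1,21187),(0,1950),(3,6399744)]))))) (.node ⟨0,0,1⟩ (.node ⟨0,25,312⟩ (.leaf false ⟨⟨0,-312,25⟩,⟨0,25,312⟩,⟨313,0,0⟩⟩ (312,[(0,25),(2,97969)]) (1,[(0,1)]) (1,[(3,313)])) (.node ⟨-92,-279,-108⟩ (.leaf false ⟨⟨-92,-279,-108⟩,⟨81,-132,272⟩,⟨288,-52,-111⟩⟩ (1,[(0,1)]) (93,[(2,30048),(4,11581),(0,44)]) (25,[(2,13449),(4,7200),(1,52)])) (.leaf false ⟨⟨0,0,313⟩,⟨25,-312,0⟩,⟨312,25,0⟩⟩ (1,[(2,313)]) (2300,[(2,11064348),(0,625),(1,35679)]) (575,[(2,6399744),(0,1950),(1,21187)])))) (.node ⟨-88,-300,-15⟩ (.node ⟨-15,88,-300⟩ (.leaf false ⟨⟨-88,-300,-15⟩,⟨-15,20,-312⟩,⟨300,-87,-20⟩⟩ (1,[(1,1)]) (25,[(4,15),(3,1788),(0,26)])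 (15,[(4,4515),(3,1393),(0,1)])) (.leaf false ⟨⟨-24,-263,-168⟩,⟨-7,-168,264⟩,⟨312,-24,-7⟩⟩ (300,[(2,46455),(4,15944),(1,263)]) (3805,[(4,21906),(0,3405),(1,1132)]) (11,[(2,977),(4,3387),(0,3)]))) (.node ⟨252,-87,164⟩ (.leaf false ⟨⟨48,57,-304⟩,⟨57,-304,-48⟩,⟨304,48,57⟩⟩ (11,[(2,3434),(1,6),(3,1173)]) (84,[(2,7148),(0,19),(3,23883)]) (3469,[(2,420693),(1,1606),(0,3624)])) (.leaf false ⟨⟨-252,-87,-164⟩,⟨56,228,-207⟩,⟨177,-196,-168⟩⟩ (1,[(3,174),(0,1)]) (2663,[(1,15337),(3,4408404),(0,4764)]) (10652,[(1,71364),(3,25014185),(0,17439)])))))) (.node ⟨0,1,0⟩ (.node ⟨0,0,1⟩ (.node ⟨25,0,312⟩ (.leaf false ⟨⟨-312,0,25⟩,⟨0,313,0⟩,⟨25,0,312⟩⟩ (312,[(3,97969),(0,25)]) (1,[(2,313)]) (1,[(0,1)])) (.node ⟨-279,-92,-108⟩ (.leaf false ⟨⟨-300,-15,88⟩,⟨-87,-20,-300⟩,⟨-20,312,-15⟩⟩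 (93,[(2,18984),(0,100),(3,7805)]) (7029,[(0,1637),(1,6192),(3,10024)]) (5,[(2,1173),(1,4),(3,1560)])) (.leaf false ⟨⟨-312,25,0⟩,⟨0,0,313⟩,⟨25,312,0⟩⟩ (2300,[(2,11064348),(1,35679),(0,625)]) (1,[(2,313)]) (575,[(2,6399744),(1,21187),(0,1950)])))) (.node ⟨-15,-88,-300⟩ (.node ⟨-300,-15,88⟩ (.leaf false ⟨⟨-312,-15,20⟩,⟨-20,300,-87⟩,⟨-15,-88,-300⟩⟩ (25,[(2,1788),(0,26),(3,15)]) (15,[(2,1393),(0,1),(3,4515)]) (1,[(1,1)])) (.leaf false ⟨⟨-300,-20,-87⟩,⟨-15,312,-20⟩,⟨88,-15,-300⟩⟩ (100,[(1,29),(4,29565),(3,552)]) (15,[(1,1),(4,210),(3,4768)]) (3061,[(1,1455),(4,1351307),(0,5475)]))) (.node ⟨164,252,-87⟩ (.leaf false ⟨⟨-304,48,57⟩,⟨-48,57,-304⟩,⟨57,304,48⟩⟩ (11,[(2,1173),(4,3434),(1,6)]) (84,[(2,23883),(4,7148),(0,19)]) (3469,[(4,420693),(1,1606),(0,3624)]))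 (.leaf false ⟨⟨-300,-87,20⟩,⟨-88,300,-15⟩,⟨-15,-20,-312⟩⟩ (10652,[(2,20369825),(0,25095),(1,61332)]) (2663,[(2,5659452),(0,3061),(1,17844)]) (2663,[(2,890541),(0,255),(1,125)]))))) (.node ⟨0,0,1⟩ (.node ⟨-15,-300,-88⟩ (.node ⟨-300,88,-15⟩ (.leaf false ⟨⟨-312,20,-15⟩,⟨-20,-87,300⟩,⟨-15,-300,-88⟩⟩ (25,[(2,15),(0,26),(3,1788)]) (15,[(2,4515),(0,1),(3,1393)]) (1,[(1,1)])) (.leaf false ⟨⟨-300,-87,-20⟩,⟨-15,-20,312⟩,⟨88,-300,-15⟩⟩ (100,[(2,552),(4,29565),(1,29)]) (15,[(2,4768),(4,210),(1,1)]) (22830,[(2,1351307),(1,20564),(0,7725)]))) (.node ⟨164,-87,252⟩ (.leaf false ⟨⟨-304,57,48⟩,⟨-48,-304,57⟩,⟨57,48,304⟩⟩ (11,[(4,3434),(3,1173),(1,6)]) (84,[(4,7148),(3,23883),(0,19)]) (3469,[(4,420693),(0,3624),(1,1606)])) (.leaf false ⟨⟨-300,20,-87⟩,⟨-88,-15,300⟩,⟨-15,-312,-20⟩⟩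 (10652,[(3,20369825),(1,61332),(0,25095)]) (2663,[(3,5659452),(1,17844),(0,3061)]) (2663,[(3,890541),(1,125),(0,255)])))) (.node ⟨-24,168,-263⟩ (.node ⟨-264,168,-7⟩ (.node ⟨24,-7,-312⟩ (.leaf false ⟨⟨-263,168,-24⟩,⟨-168,-264,-7⟩,⟨24,-7,-312⟩⟩ (256,[(2,17),(1,239),(5,3824)]) (263,[(2,7),(5,44016),(4,70608)]) (1,[(0,1)])) (.leaf false ⟨⟨-312,-7,24⟩,⟨-24,168,-263⟩,⟨-7,-264,-168⟩⟩ (1,[(3,4032),(0,13),(4,98)]) (1,[(2,1)]) (24,[(3,6216),(0,7),(4,6385)]))) (.leaf false ⟨⟨-272,-108,-111⟩,⟨81,92,-288⟩,⟨132,-279,-52⟩⟩ (3584,[(1,1617),(4,1971184),(0,3921)]) (10752,[(1,11935),(4,439056),(0,6047)]) (14336,[(1,3563),(4,5248080),(0,27371)]))) (.leaf false ⟨⟨-312,-7,-24⟩,⟨-7,-264,168⟩,⟨24,-168,-263⟩⟩ (24,[(1,839),(3,7512),(0,1)]) (7,[(1,1717),(3,313),(0,11)])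 (1,[(1,526),(0,1)])))))
theorem h313_ok : h313.check (ok 313 4 ⟨3, 3, 3⟩) (fun _ r => r) [] = true := by decide +kernel

def h317 : T := .node ⟨1,0,0⟩ (.node ⟨0,1,0⟩ (.node ⟨0,0,1⟩ (.leaf false ⟨⟨0,0,317⟩,⟨0,317,0⟩,⟨317,0,0⟩⟩ (1,[(0,317)]) (1,[(1,317)]) (1,[(2,317)])) (.node ⟨-75,0,-308⟩ (.leaf false ⟨⟨-75,0,-308⟩,⟨0,317,0⟩,⟨308,0,-75⟩⟩ (1,[(0,1)]) (1,[(2,317)]) (308,[(3,100489),(0,75)])) (.node ⟨252,-147,-124⟩ (.leaf false ⟨⟨21,308,-72⟩,⟨168,-72,-259⟩,⟨268,21,168⟩⟩ (12,[(2,740),(0,1),(3,3843)]) (3,[(2,529),(0,2),(3,78)]) (75,[(2,69944),(1,268),(3,1575)])) (.leaf false ⟨⟨-267,164,-48⟩,⟨92,213,216⟩,⟨144,168,-227⟩⟩ (3675,[(2,898244),(1,693),(0,4100)]) (147,[(2,270628),(1,896),(0,213)]) (175,[(2,374989),(1,1008),(0,200)]))))) (.node ⟨0,0,1⟩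 (.node ⟨-75,-308,0⟩ (.leaf false ⟨⟨-75,-308,0⟩,⟨0,0,317⟩,⟨308,-75,0⟩⟩ (1,[(0,1)]) (1,[(1,317)]) (308,[(3,100489),(0,75)])) (.node ⟨252,-124,-147⟩ (.leaf false ⟨⟨21,-72,308⟩,⟨168,-259,-72⟩,⟨268,168,21⟩⟩ (12,[(2,3843),(0,1),(3,740)]) (3,[(2,78),(0,2),(3,529)]) (75,[(2,1575),(1,268),(3,69944)])) (.leaf false ⟨⟨-267,-48,164⟩,⟨92,216,213⟩,⟨144,-227,168⟩⟩ (3675,[(1,693),(3,898244),(0,4100)]) (147,[(1,896),(3,270628),(0,213)]) (175,[(1,1008),(3,374989),(0,200)])))) (.node ⟨45,-300,92⟩ (.node ⟨45,92,-300⟩ (.node ⟨308,60,45⟩ (.leaf false ⟨⟨45,-300,92⟩,⟨60,-83,-300⟩,⟨308,60,45⟩⟩ (1,[(2,1)]) (77,[(3,23775),(0,15),(4,7291)]) (1,[(0,1)])) (.leaf false ⟨⟨-259,-168,-72⟩,⟨72,21,-308⟩,⟨168,-268,21⟩⟩ (1585,[(5,528439),(2,270),(0,3088)]) (2912,[(1,3231),(5,28854),(2,787)])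 (1568,[(1,353),(5,179634),(2,1509)]))) (.leaf false ⟨⟨-132,-276,-83⟩,⟨164,-147,228⟩,⟨237,-52,-204⟩⟩ (1,[(2,983),(4,3),(0,3)]) (92,[(2,23124),(4,21703),(0,147)]) (23,[(2,8592),(4,6036),(0,13)]))) (.leaf false ⟨⟨-132,-83,-276⟩,⟨164,228,-147⟩,⟨237,-204,-52⟩⟩ (1,[(3,3),(2,983),(0,3)]) (92,[(3,21703),(2,23124),(0,147)]) (23,[(3,6036),(2,8592),(0,13)]))))) (.node ⟨0,1,0⟩ (.node ⟨0,0,1⟩ (.node ⟨-308,-75,0⟩ (.leaf false ⟨⟨-308,-75,0⟩,⟨-75,308,0⟩,⟨0,0,317⟩⟩ (1,[(0,1)]) (308,[(0,75),(2,100489)]) (1,[(1,317)])) (.node ⟨-124,252,-147⟩ (.leaf false ⟨⟨-312,29,48⟩,⟨21,312,-52⟩,⟨52,48,309⟩⟩ (75,[(2,3600),(4,32332),(1,29)]) (735,[(4,624997),(0,260),(1,2184)]) (25,[(2,7725),(4,3628),(1,16)])) (.leaf false ⟨⟨-312,-43,36⟩,⟨-3,216,232⟩,⟨56,-228,213⟩⟩ (3675,[(4,1540636),(1,917),(0,900)])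 (3675,[(4,9992401),(1,30072),(0,5800)]) (245,[(4,168284),(1,448),(0,355)])))) (.node ⟨-300,45,92⟩ (.node ⟨92,45,-300⟩ (.node ⟨60,308,45⟩ (.leaf false ⟨⟨-300,45,92⟩,⟨-83,60,-300⟩,⟨60,308,45⟩⟩ (1,[(2,1)]) (77,[(3,23775),(5,7291),(0,15)]) (1,[(0,1)])) (.leaf false ⟨⟨-308,72,21⟩,⟨-72,-259,-168⟩,⟨21,168,-268⟩⟩ (2912,[(2,3231),(4,28854),(1,787)]) (1845,[(4,447599),(1,570),(0,3088)]) (1568,[(2,353),(4,179634),(1,1509)]))) (.leaf false ⟨⟨-300,-92,45⟩,⟨-83,300,60⟩,⟨-60,45,-308⟩⟩ (23,[(2,21465),(0,75),(3,1259)]) (92,[(2,19380),(0,83),(3,31335)]) (23,[(2,11584),(0,15),(3,1710)]))) (.leaf false ⟨⟨-308,45,-60⟩,⟨45,-92,-300⟩,⟨60,300,-83⟩⟩ (23,[(3,11584),(2,1710),(0,15)]) (23,[(3,21465),(2,1259),(0,75)]) (92,[(3,19380),(2,31335),(0,83)])))) (.node ⟨0,0,1⟩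 (.node ⟨92,-300,45⟩ (.node ⟨-300,92,45⟩ (.node ⟨45,60,308⟩ (.leaf false ⟨⟨-300,-83,60⟩,⟨45,60,308⟩,⟨92,-300,45⟩⟩ (77,[(5,23775),(4,7291),(0,15)]) (1,[(0,1)]) (1,[(2,1)])) (.leaf false ⟨⟨-308,21,72⟩,⟨-72,-168,-259⟩,⟨21,-268,168⟩⟩ (2912,[(3,28854),(1,3231),(2,787)]) (1585,[(3,528439),(0,3088),(2,270)]) (1568,[(3,179634),(1,353),(2,1509)]))) (.leaf false ⟨⟨-308,-60,45⟩,⟨45,-300,-92⟩,⟨60,-83,300⟩⟩ (23,[(2,1710),(4,11584),(0,15)]) (23,[(2,1259),(4,21465),(0,75)]) (92,[(2,31335),(4,19380),(0,83)]))) (.leaf false ⟨⟨-300,45,-92⟩,⟨-83,60,300⟩,⟨-60,-308,45⟩⟩ (23,[(1,1259),(0,75),(2,21465)]) (92,[(1,31335),(0,83),(2,19380)]) (23,[(1,1710),(0,15),(2,11584)]))) (.node ⟨-164,213,-168⟩ (.node ⟨-267,-92,144⟩ (.leaf false ⟨⟨-267,-92,144⟩,⟨-164,213,-168⟩,⟨-48,-216,-227⟩⟩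 (1,[(0,1)]) (1,[(1,1)]) (41,[(2,7291),(1,12),(3,11412)])) (.leaf false ⟨⟨-308,21,-72⟩,⟨21,-268,-168⟩,⟨72,168,-259⟩⟩ (2,[(4,883),(3,50),(0,1)]) (6,[(4,1743),(3,2252),(0,7)]) (15216,[(1,364),(4,6038533),(0,26943)]))) (.leaf false ⟨⟨-308,-72,21⟩,⟨21,-168,-268⟩,⟨72,-259,168⟩⟩ (71,[(1,2541),(3,25804),(0,24)]) (71,[(1,28436),(3,7693),(0,56)]) (213,[(1,7728),(3,27140),(0,259)])))))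
theorem h317_ok : h317.check (ok 317 4 ⟨3, 3, 3⟩) (fun _ r => r) [] = true := by decide +kernel

def h319 : T := .node ⟨1,0,0⟩ (.node ⟨0,1,0⟩ (.node ⟨0,0,1⟩ (.node ⟨-139,126,258⟩ (.node ⟨258,126,-139⟩ (.node ⟨-114,293,54⟩ (.leaf false ⟨⟨-114,293,54⟩,⟨149,6,282⟩,⟨258,126,-139⟩⟩ (1,[(0,1)]) (21,[(3,5664),(5,3268),(2,1)]) (1,[(1,1)])) (.leaf false ⟨⟨-114,54,293⟩,⟨149,282,6⟩,⟨258,-139,126⟩⟩ (21906,[(4,1065223),(2,27246),(0,11315)]) (1217,[(4,921410),(2,485),(0,2182)]) (1217,[(4,1001368),(2,1572),(0,4671)]))) (.leaf false ⟨⟨-267,-54,166⟩,⟨-14,309,78⟩,⟨174,-58,261⟩⟩ (139,[(4,5715),(3,13410),(0,166)]) (139,[(4,18178),(3,52779),(0,78)]) (139,[(4,91524),(3,24824),(0,261)]))) (.leaf false ⟨⟨6,126,293⟩,⟨149,258,-114⟩,⟨282,-139,54⟩⟩ (139,[(1,42275),(0,6),(2,18270)])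 (139,[(1,22596),(0,149),(2,54636)]) (139,[(1,80262),(0,282),(2,16211)]))) (.node ⟨-90,306,5⟩ (.node ⟨294,85,90⟩ (.leaf false ⟨⟨-90,306,5⟩,⟨85,30,-306⟩,⟨294,85,90⟩⟩ (1,[(1,1)]) (51,[(2,15631),(4,4785),(1,5)]) (1,[(0,1)])) (.leaf false ⟨⟨-282,-54,-139⟩,⟨6,293,-126⟩,⟨149,-114,-258⟩⟩ (27115,[(4,5405136),(1,6955),(0,42264)]) (27115,[(4,15266064),(1,37080),(0,40021)]) (27115,[(4,28133567),(1,11670),(0,78378)]))) (.node ⟨-54,-166,-267⟩ (.leaf false ⟨⟨-54,-166,-267⟩,⟨58,261,-174⟩,⟨309,-78,-14⟩⟩ (1,[(0,1)]) (89,[(4,8294),(3,32857),(0,58)]) (5,[(1,14),(4,285),(3,3894)])) (.leaf false ⟨⟨21,14,-318⟩,⟨122,294,21⟩,⟨294,-123,14⟩⟩ (30,[(2,9505),(1,7),(3,2562)]) (1215,[(1,1572),(0,125),(3,817492)]) (5244,[(2,3391162),(1,9241),(0,13149)]))))) (.node ⟨0,0,1⟩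 (.node ⟨-90,5,306⟩ (.node ⟨294,90,85⟩ (.leaf false ⟨⟨-90,5,306⟩,⟨85,-306,30⟩,⟨294,90,85⟩⟩ (1,[(1,1)]) (51,[(4,4785),(3,15631),(1,5)]) (1,[(0,1)])) (.leaf false ⟨⟨-282,-139,-54⟩,⟨6,-126,293⟩,⟨149,-258,-114⟩⟩ (27115,[(4,5405136),(0,42264),(1,6955)]) (27115,[(4,15266064),(0,40021),(1,37080)]) (27115,[(4,28133567),(0,78378),(1,11670)]))) (.node ⟨-54,-267,-166⟩ (.leaf false ⟨⟨-54,-267,-166⟩,⟨58,-174,261⟩,⟨309,-14,-78⟩⟩ (1,[(0,1)]) (89,[(2,32857),(4,8294),(0,58)]) (5,[(2,3894),(4,285),(1,14)])) (.leaf false ⟨⟨21,-318,14⟩,⟨122,21,294⟩,⟨294,14,-123⟩⟩ (30,[(2,2562),(1,7),(3,9505)]) (1215,[(2,817492),(0,125),(1,1572)]) (4050,[(2,3391162),(0,455),(1,12957)])))) (.node ⟨-75,-306,-50⟩ (.node ⟨-231,0,-220⟩ (.leaf false ⟨⟨-231,0,-220⟩,⟨0,-319,0⟩,⟨220,0,-231⟩⟩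 (1,[(0,1)]) (1,[(3,319)]) (20,[(4,9251),(0,21)])) (.node ⟨222,149,-174⟩ (.leaf false ⟨⟨6,-246,-203⟩,⟨222,149,-174⟩,⟨229,-138,174⟩⟩ (561,[(3,126753),(1,161),(2,451)]) (1,[(0,1)]) (3927,[(3,211112),(1,4468),(2,1771)])) (.leaf false ⟨⟨-246,-203,-6⟩,⟨138,-174,229⟩,⟨149,-174,-222⟩⟩ (11473,[(3,3405512),(1,2804),(0,15631)]) (11473,[(3,4044535),(1,19730),(0,13398)]) (34419,[(3,28017154),(1,60829),(0,40194)])))) (.leaf false ⟨⟨14,-174,-267⟩,⟨78,261,-166⟩,⟨309,-58,54⟩⟩ (75,[(1,20725),(0,14),(2,17334)]) (25,[(1,5450),(0,26),(2,1431)]) (25,[(1,3800),(0,103),(2,32968)]))))) (.node ⟨0,1,0⟩ (.node ⟨0,0,1⟩ (.node ⟨5,306,-90⟩ (.node ⟨90,85,294⟩ (.leaf false ⟨⟨-306,30,85⟩,⟨5,306,-90⟩,⟨90,85,294⟩⟩ (51,[(2,4785),(4,15631),(1,5)]) (1,[(1,1)]) (1,[(0,1)])) (.leaf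 false ⟨⟨-282,6,149⟩,⟨-139,-126,-258⟩,⟨-54,293,-114⟩⟩ (27115,[(2,31624703),(0,86322),(1,24510)]) (27115,[(2,5366856),(0,41904),(1,475)]) (27115,[(2,4984056),(0,17989),(1,30960)]))) (.node ⟨-267,-166,-54⟩ (.leaf false ⟨⟨-267,-166,-54⟩,⟨-174,261,58⟩,⟨-14,-78,309⟩⟩ (1,[(0,1)]) (89,[(2,8294),(0,58),(3,32857)]) (5,[(2,285),(1,14),(3,3894)])) (.leaf false ⟨⟨-318,14,21⟩,⟨14,-123,294⟩,⟨21,294,122⟩⟩ (30,[(1,7),(4,9505),(3,2562)]) (5244,[(1,9241),(4,3391162),(0,13149)]) (1215,[(1,1572),(3,817492),(0,125)])))) (.node ⟨-50,-75,-306⟩ (.node ⟨-220,-231,0⟩ (.leaf false ⟨⟨-231,220,0⟩,⟨-220,-231,0⟩,⟨0,0,-319⟩⟩ (20,[(0,21),(3,9251)]) (1,[(0,1)]) (1,[(2,319)])) (.node ⟨-174,222,149⟩ (.leaf false ⟨⟨-203,6,-246⟩,⟨-174,222,149⟩,⟨174,229,-138⟩⟩ (561,[(2,451),(5,126753),(1,161)])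 (1,[(0,1)]) (3927,[(2,1771),(5,211112),(1,4468)])) (.leaf false ⟨⟨-319,0,0⟩,⟨0,-231,-220⟩,⟨0,220,-231⟩⟩ (1,[(5,319)]) (1043,[(5,364100),(1,437),(0,1540)]) (3129,[(5,2525314),(1,7642),(0,4851)])))) (.leaf false ⟨⟨-318,21,14⟩,⟨14,294,-123⟩,⟨21,122,294⟩⟩ (25,[(1,1792),(3,8300),(0,7)]) (25,[(1,33063),(3,4550),(0,98)]) (75,[(1,15282),(3,4525),(0,122)])))) (.node ⟨0,0,1⟩ (.node ⟨-50,-306,-75⟩ (.node ⟨-220,0,-231⟩ (.leaf false ⟨⟨-231,0,220⟩,⟨-220,0,-231⟩,⟨0,-319,0⟩⟩ (20,[(2,9251),(0,21)]) (1,[(0,1)]) (1,[(3,319)])) (.node ⟨-174,149,222⟩ (.leaf false ⟨⟨-203,-246,6⟩,⟨-174,149,222⟩,⟨174,-138,229⟩⟩ (561,[(5,126753),(2,451),(1,161)]) (1,[(0,1)]) (3927,[(5,211112),(2,1771),(1,4468)])) (.leaf false ⟨⟨-319,0,0⟩,⟨0,-231,220⟩,⟨0,-220,-231⟩⟩ (1,[(5,319)])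 (3129,[(5,2525314),(0,4851),(1,7642)]) (1043,[(5,364100),(0,1540),(1,437)])))) (.leaf false ⟨⟨-318,14,21⟩,⟨14,-123,294⟩,⟨21,294,122⟩⟩ (25,[(3,8300),(2,1792),(0,7)]) (25,[(3,4550),(2,33063),(0,98)]) (75,[(3,4525),(2,15282),(0,122)]))) (.leaf false ⟨⟨-319,0,0⟩,⟨0,-319,0⟩,⟨0,0,-319⟩⟩ (1,[(2,319)]) (1,[(1,319)]) (1,[(0,319)]))))
theorem h319_ok : h319.check (ok 319 4 ⟨3, 3, 3⟩) (fun _ r => r) [] = true := by decide +kernel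

def h323 : T := .node ⟨1,0,0⟩ (.node ⟨0,1,0⟩ (.node ⟨0,0,1⟩ (.node ⟨-102,17,306⟩ (.node ⟨17,306,-102⟩ (.node ⟨-102,102,289⟩ (.leaf false ⟨⟨-102,102,289⟩,⟨17,306,-102⟩,⟨306,17,102⟩⟩ (1,[(0,1)]) (1,[(1,1)]) (6,[(3,323),(5,1938),(0,1)])) (.leaf false ⟨⟨-102,17,306⟩,⟨102,306,17⟩,⟨289,-102,102⟩⟩ (1,[(2,1)]) (1,[(1,36),(2,132),(0,127)]) (1,[(1,89),(2,336),(0,324)]))) (.leaf false ⟨⟨-102,17,306⟩,⟨102,306,17⟩,⟨289,-102,102⟩⟩ (1,[(1,1)]) (6,[(4,629),(3,2142),(0,1)]) (1,[(4,306),(3,204),(0,1)]))) (.node ⟨289,-138,-42⟩ (.leaf false ⟨⟨17,102,306⟩,⟨102,289,-102⟩,⟨306,-102,17⟩⟩ (6,[(2,2142),(1,1),(3,629)]) (1,[(2,204),(1,1),(3,306)]) (17,[(2,1045),(0,18),(3,750)])) (.leaf false ⟨⟨-270,145,102⟩,⟨10,198,-255⟩,⟨177,210,170⟩⟩ (9163,[(2,1927596),(1,4645),(0,10200)])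 (9163,[(2,14740275),(1,58602),(0,20366)]) (9163,[(2,26577188),(1,85116),(0,24429)])))) (.node ⟨-152,285,0⟩ (.leaf false ⟨⟨-152,285,0⟩,⟨0,0,-323⟩,⟨285,152,0⟩⟩ (1,[(0,1)]) (1,[(1,323)]) (15,[(3,5491),(0,8)])) (.leaf false ⟨⟨0,0,-323⟩,⟨152,285,0⟩,⟨285,-152,0⟩⟩ (1,[(1,323)]) (1,[(0,1),(2,570)]) (8,[(0,15),(2,3059)])))) (.node ⟨0,0,1⟩ (.node ⟨-152,0,285⟩ (.leaf false ⟨⟨-152,0,285⟩,⟨0,-323,0⟩,⟨285,0,152⟩⟩ (1,[(0,1)]) (1,[(2,323)]) (15,[(3,5491),(0,8)])) (.leaf false ⟨⟨0,-323,0⟩,⟨152,0,285⟩,⟨285,0,-152⟩⟩ (1,[(2,323)]) (1,[(1,570),(0,1)]) (8,[(1,3059),(0,15)]))) (.node ⟨46,102,-303⟩ (.node ⟨306,17,102⟩ (.leaf false ⟨⟨33,-318,-46⟩,⟨98,54,-303⟩,⟨306,17,102⟩⟩ (102,[(2,5814),(0,11),(3,32623)]) (16235,[(1,17119),(0,2626),(3,914090)]) (1,[(0,1)])) (.node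 ⟨154,-282,33⟩ (.leaf false ⟨⟨-222,-143,-186⟩,⟨154,-282,33⟩,⟨177,66,-262⟩⟩ (17,[(5,5712),(4,1904),(1,31)]) (1,[(0,1)]) (303,[(2,262),(5,41579),(4,6726)])) (.leaf false ⟨⟨-306,-63,-82⟩,⟨17,222,-234⟩,⟨102,-226,-207⟩⟩ (33,[(5,2530),(4,25203),(0,82)]) (11,[(5,12199),(4,19554),(0,78)]) (11,[(5,11748),(4,21944),(0,69)])))) (.leaf false ⟨⟨-126,-287,-78⟩,⟨118,-126,273⟩,⟨273,-78,-154⟩⟩ (102,[(1,94917),(3,350),(0,287)]) (17,[(1,1722),(3,2972),(0,21)]) (17,[(1,6557),(3,5239),(0,13)]))))) (.node ⟨0,1,0⟩ (.node ⟨0,0,1⟩ (.node ⟨0,-152,285⟩ (.leaf false ⟨⟨-323,0,0⟩,⟨0,-152,285⟩,⟨0,285,152⟩⟩ (1,[(3,323)]) (1,[(0,1)]) (15,[(0,8),(2,5491)])) (.leaf false ⟨⟨-323,0,0⟩,⟨0,152,285⟩,⟨0,285,-152⟩⟩ (1,[(3,323)]) (1,[(1,570),(0,1)]) (8,[(1,3059),(0,15)]))) (.node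 ⟨102,46,-303⟩ (.node ⟨17,306,102⟩ (.leaf false ⟨⟨-318,33,-46⟩,⟨17,306,102⟩,⟨54,98,-303⟩⟩ (102,[(2,5814),(4,32623),(0,11)]) (1,[(0,1)]) (16235,[(4,914090),(0,2626),(1,17119)])) (.node ⟨-282,154,33⟩ (.leaf false ⟨⟨-282,154,33⟩,⟨-143,-222,-186⟩,⟨66,177,-262⟩⟩ (1,[(0,1)]) (17,[(5,1904),(4,5712),(1,31)]) (303,[(5,6726),(4,41579),(2,262)])) (.leaf false ⟨⟨-318,17,-54⟩,⟨33,306,-98⟩,⟨46,-102,-303⟩⟩ (11,[(5,8574),(4,2959),(0,18)]) (33,[(5,26547),(4,25190),(0,98)]) (11,[(5,27976),(4,14432),(0,101)])))) (.leaf false ⟨⟨-303,-102,46⟩,⟨-98,306,33⟩,⟨-54,17,-318⟩⟩ (34,[(1,29039),(0,101),(2,1178)]) (51,[(1,13164),(0,49),(2,17860)]) (17,[(1,8133),(0,9),(2,703)])))) (.node ⟨0,0,1⟩ (.node ⟨102,-303,46⟩ (.node ⟨17,102,306⟩ (.leaf false ⟨⟨-318,-46,33⟩,⟨17,102,306⟩,⟨54,-303,98⟩⟩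 (102,[(4,32623),(3,5814),(0,11)]) (1,[(0,1)]) (16235,[(4,914090),(1,17119),(0,2626)])) (.node ⟨-282,33,154⟩ (.leaf false ⟨⟨-282,33,154⟩,⟨-143,-186,-222⟩,⟨66,-262,177⟩⟩ (1,[(0,1)]) (17,[(3,5712),(5,1904),(1,31)]) (303,[(3,41579),(5,6726),(2,262)])) (.leaf false ⟨⟨-318,-54,17⟩,⟨33,-98,306⟩,⟨46,-303,-102⟩⟩ (11,[(3,2959),(5,8574),(0,18)]) (33,[(3,25190),(5,26547),(0,98)]) (11,[(3,14432),(5,27976),(0,101)])))) (.leaf false ⟨⟨-303,46,-102⟩,⟨-98,33,306⟩,⟨-54,-318,17⟩⟩ (34,[(1,1178),(0,101),(2,29039)]) (51,[(1,17860),(0,49),(2,13164)]) (17,[(1,703),(0,9),(2,8133)]))) (.leaf false ⟨⟨-323,0,0⟩,⟨0,-323,0⟩,⟨0,0,-323⟩⟩ (1,[(2,323)]) (1,[(1,323)]) (1,[(0,323)]))))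
theorem h323_ok : h323.check (ok 323 4 ⟨3, 3, 3⟩) (fun _ r => r) [] = true := by decide +kernel

def h325 : T := .node ⟨1,0,0⟩ (.node ⟨0,1,0⟩ (.node ⟨0,0,1⟩ (.leaf false ⟨⟨0,0,325⟩,⟨0,325,0⟩,⟨325,0,0⟩⟩ (1,[(0,325)]) (1,[(1,325)]) (1,[(2,325)])) (.node ⟨-91,0,-312⟩ (.leaf false ⟨⟨-91,0,-312⟩,⟨0,325,0⟩,⟨312,0,-91⟩⟩ (1,[(0,1)]) (1,[(2,325)]) (24,[(3,8125),(0,7)])) (.leaf false ⟨⟨0,325,0⟩,⟨125,0,-300⟩,⟨300,0,125⟩⟩ (1,[(2,325)]) (91,[(1,66300),(0,125)]) (91,[(1,82225),(0,300)])))) (.node ⟨0,0,1⟩ (.node ⟨-91,-312,0⟩ (.leaf false ⟨⟨-91,-312,0⟩,⟨0,0,325⟩,⟨312,-91,0⟩⟩ (1,[(0,1)]) (1,[(1,325)]) (24,[(3,8125),(0,7)])) (.leaf false ⟨⟨0,0,325⟩,⟨125,-300,0⟩,⟨300,125,0⟩⟩ (1,[(1,325)]) (91,[(0,125),(2,66300)]) (91,[(0,300),(2,82225)]))) (.node ⟨0,36,-323⟩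 (.leaf false ⟨⟨0,-323,-36⟩,⟨0,36,-323⟩,⟨325,0,0⟩⟩ (323,[(0,36),(2,105625)]) (1,[(0,1)]) (1,[(3,325)])) (.leaf false ⟨⟨0,-323,36⟩,⟨0,-36,-323⟩,⟨325,0,0⟩⟩ (36,[(1,103033),(0,323)]) (1,[(1,646),(0,1)]) (1,[(3,325)]))))) (.node ⟨0,1,0⟩ (.node ⟨0,0,1⟩ (.node ⟨-312,-91,0⟩ (.leaf false ⟨⟨-312,-91,0⟩,⟨-91,312,0⟩,⟨0,0,325⟩⟩ (1,[(0,1)]) (24,[(0,7),(2,8125)]) (1,[(1,325)])) (.leaf false ⟨⟨-300,125,0⟩,⟨0,0,325⟩,⟨125,300,0⟩⟩ (91,[(3,66300),(0,125)]) (1,[(1,325)]) (91,[(3,82225),(0,300)]))) (.node ⟨36,0,-323⟩ (.leaf false ⟨⟨-323,0,-36⟩,⟨0,325,0⟩,⟨36,0,-323⟩⟩ (323,[(3,105625),(0,36)]) (1,[(2,325)]) (1,[(0,1)])) (.leaf false ⟨⟨-323,0,36⟩,⟨-36,0,-323⟩,⟨0,325,0⟩⟩ (36,[(1,103033),(0,323)]) (1,[(1,646),(0,1)]) (1,[(2,325)])))) (.node ⟨0,0,1⟩ (.node ⟨36,-323,0⟩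 (.leaf false ⟨⟨-323,-36,0⟩,⟨0,0,325⟩,⟨36,-323,0⟩⟩ (323,[(3,105625),(0,36)]) (1,[(1,325)]) (1,[(0,1)])) (.leaf false ⟨⟨-323,36,0⟩,⟨-36,-323,0⟩,⟨0,0,325⟩⟩ (36,[(0,323),(2,103033)]) (1,[(0,1),(2,646)]) (1,[(1,325)]))) (.node ⟨-120,168,-251⟩ (.node ⟨-208,-195,156⟩ (.node ⟨69,-240,-208⟩ (.leaf false ⟨⟨-240,100,-195⟩,⟨-208,-195,156⟩,⟨69,-240,-208⟩⟩ (42,[(3,1915),(2,25),(5,7080)]) (1,[(1,1)]) (1,[(0,1)])) (.leaf false ⟨⟨-315,-48,64⟩,⟨-80,189,-252⟩,⟨0,-260,-195⟩⟩ (23,[(3,20368),(0,105),(4,26304)]) (69,[(3,34028),(0,80),(4,6159)]) (1,[(3,195),(4,260)]))) (.leaf false ⟨⟨-315,-80,0⟩,⟨-48,189,-260⟩,⟨64,-252,-195⟩⟩ (1,[(4,315),(3,80)]) (3,[(4,1184),(3,408),(0,5)]) (4,[(4,784),(3,1983),(0,5)]))) (.leaf false ⟨⟨-315,-64,48⟩,⟨0,-195,-260⟩,⟨80,-252,189⟩⟩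 (21,[(1,1000),(3,7575),(0,8)]) (56,[(1,30875),(3,7800),(0,65)]) (2,[(1,375),(3,200),(0,3)])))))
theorem h325_ok : h325.check (ok 325 4 ⟨3, 3, 3⟩) (fun _ r => r) [] = true := by decide +kernel


end H34S
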