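import Pool.Agent.Lib.H34S.Cover

/-!
# H34S: certificates (generated), hexagonal numbers
-/

set_option autoImplicit false

namespace H34S

def h331 : T := .node ⟨1,0,0⟩ (.node ⟨0,1,0⟩ (.node ⟨0,0,1⟩ (.node ⟨-174,137,246⟩ (.node ⟨150,281,-90⟩ (.node ⟨270,-90,169⟩ (.leaf false ⟨⟨-119,150,270⟩,⟨150,281,-90⟩,⟨270,-90,169⟩⟩ (137,[(3,90),(5,9797),(2,150)]) (1,[(1,1)]) (1,[(0,1)])) (.leaf false ⟨⟨-306,105,70⟩,⟨70,294,-135⟩,⟨105,110,294⟩⟩ (6,[(3,1603),(5,54),(0,7)]) (15,[(3,6256),(5,14280),(0,49)]) (9,[(3,4505),(5,3915),(0,11)]))) (.leaf false ⟨⟨-279,-6,178⟩,⟨74,297,126⟩,⟨162,-146,249⟩⟩ (45,[(4,795),(3,24739),(0,89)]) (5,[(4,1420),(3,3452),(0,7)]) (30,[(4,17310),(3,18943),(0,83)]))) (.leaf false ⟨⟨57,326,6⟩,⟨214,-42,249⟩,⟨246,-39,-218⟩⟩ (58,[(1,5022),(0,19),(2,21511)])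 (87,[(1,47985),(0,107),(2,11005)]) (29,[(1,3764),(0,41),(2,4486)]))) (.node ⟨249,146,162⟩ (.node ⟨105,-110,-294⟩ (.node ⟨-70,294,-135⟩ (.leaf false ⟨⟨-70,294,-135⟩,⟨105,-110,-294⟩,⟨306,105,70⟩⟩ (1,[(0,1)]) (1,[(1,1)]) (81,[(5,16071),(2,35),(4,3395)])) (.leaf false ⟨⟨6,57,-326⟩,⟨218,-246,-39⟩,⟨249,214,42⟩⟩ (35,[(3,11815),(0,3),(4,2877)]) (35,[(3,16080),(0,109),(4,23436)]) (70,[(3,30675),(0,249),(4,88186)]))) (.leaf false ⟨⟨-162,246,-151⟩,⟨-66,137,294⟩,⟨281,174,-18⟩⟩ (55,[(2,44467),(4,4005),(0,123)]) (110,[(2,7938),(4,7125),(0,137)]) (55,[(2,26568),(4,24590),(0,87)]))) (.leaf false ⟨⟨-178,6,-279⟩,⟨126,297,-74⟩,⟨249,-146,-162⟩⟩ (18,[(3,4515),(2,4634),(0,31)]) (81,[(3,19419),(2,29459),(0,37)]) (1,[(3,498),(0,1)])))) (.node ⟨0,0,1⟩ (.node ⟨249,162,146⟩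 (.node ⟨105,-294,-110⟩ (.node ⟨-70,-135,294⟩ (.leaf false ⟨⟨-70,-135,294⟩,⟨105,-294,-110⟩,⟨306,70,105⟩⟩ (1,[(0,1)]) (1,[(1,1)]) (81,[(3,3395),(2,35),(5,16071)])) (.leaf false ⟨⟨6,-326,57⟩,⟨218,-39,-246⟩,⟨249,42,214⟩⟩ (35,[(3,2877),(0,3),(4,11815)]) (35,[(3,23436),(0,109),(4,16080)]) (70,[(3,88186),(0,249),(4,30675)]))) (.leaf false ⟨⟨-162,-151,246⟩,⟨-66,294,137⟩,⟨281,-18,174⟩⟩ (55,[(4,4005),(3,44467),(0,123)]) (110,[(4,7125),(3,7938),(0,137)]) (55,[(4,24590),(3,26568),(0,87)]))) (.leaf false ⟨⟨-178,-279,6⟩,⟨126,-74,297⟩,⟨249,-162,-146⟩⟩ (18,[(1,4634),(3,4515),(0,31)]) (81,[(1,29459),(3,19419),(0,37)]) (1,[(3,498),(0,1)]))) (.node ⟨-162,-246,-151⟩ (.node ⟨66,137,-294⟩ (.leaf false ⟨⟨-162,-246,-151⟩,⟨66,137,-294⟩,⟨281,-174,-18⟩⟩ (1,[(1,1)]) (1,[(0,1)])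 (49,[(4,13571),(3,8937),(0,3)])) (.leaf false ⟨⟨-150,-295,-6⟩,⟨25,-6,-330⟩,⟨294,-150,25⟩⟩ (331,[(2,170796),(0,605),(1,60)]) (41,[(2,13379),(4,1187),(1,1)]) (137,[(2,40675),(4,50178),(0,150)]))) (.leaf false ⟨⟨18,-294,-151⟩,⟨174,137,-246⟩,⟨281,-66,162⟩⟩ (9,[(1,1510),(0,1),(2,2892)]) (27,[(1,11021),(0,29),(2,3435)]) (162,[(1,16187),(0,281),(2,79818)]))))) (.node ⟨0,1,0⟩ (.node ⟨0,0,1⟩ (.node ⟨162,146,249⟩ (.node ⟨-294,-110,105⟩ (.node ⟨-135,294,-70⟩ (.leaf false ⟨⟨-294,-110,105⟩,⟨-135,294,-70⟩,⟨70,105,306⟩⟩ (1,[(1,1)]) (1,[(0,1)]) (81,[(3,16071),(4,3395),(2,35)])) (.leaf false ⟨⟨-330,6,25⟩,⟨6,-295,150⟩,⟨25,150,294⟩⟩ (14,[(5,5295),(4,1554),(0,5)]) (7,[(5,1983),(4,2345),(0,15)]) (5,[(5,2710),(4,6924),(0,21)]))) (.leaf false ⟨⟨-306,105,70⟩,⟨70,294,-135⟩,⟨105,110,294⟩⟩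 (22,[(2,3745),(4,12906),(0,21)]) (55,[(2,8010),(4,39368),(0,147)]) (1,[(2,399),(4,189),(0,1)]))) (.leaf false ⟨⟨-306,-119,42⟩,⟨-126,282,-119⟩,⟨-7,126,306⟩⟩ (9,[(1,4611),(0,17),(2,1411)]) (9,[(1,672),(0,7),(2,3560)]) (162,[(1,51315),(0,7),(2,21434)]))) (.node ⟨-151,-162,-246⟩ (.node ⟨-294,66,137⟩ (.leaf false ⟨⟨-294,66,137⟩,⟨-151,-162,-246⟩,⟨-18,281,-174⟩⟩ (1,[(0,1)]) (1,[(1,1)]) (49,[(2,8937),(0,3),(3,13571)])) (.leaf false ⟨⟨-330,25,-6⟩,⟨-6,-150,-295⟩,⟨25,294,-150⟩⟩ (41,[(1,1),(4,13379),(3,1187)]) (331,[(1,60),(4,170796),(0,605)]) (137,[(4,40675),(3,50178),(0,150)]))) (.leaf false ⟨⟨-330,25,6⟩,⟨6,150,-295⟩,⟨25,294,150⟩⟩ (162,[(1,5178),(3,57235),(0,25)]) (27,[(1,14115),(3,3613),(0,25)]) (27,[(1,8004),(3,6724),(0,49)])))) (.node ⟨0,0,1⟩ (.node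 ⟨-151,-246,-162⟩ (.node ⟨-294,137,66⟩ (.leaf false ⟨⟨-294,137,66⟩,⟨-151,-246,-162⟩,⟨-18,-174,281⟩⟩ (1,[(0,1)]) (1,[(1,1)]) (49,[(2,13571),(0,3),(3,8937)])) (.leaf false ⟨⟨-330,-6,25⟩,⟨-6,-295,-150⟩,⟨25,-150,294⟩⟩ (41,[(2,1187),(4,13379),(1,1)]) (331,[(4,170796),(1,60),(0,605)]) (137,[(2,50178),(4,40675),(0,150)]))) (.leaf false ⟨⟨-330,6,25⟩,⟨6,-295,150⟩,⟨25,150,294⟩⟩ (162,[(3,57235),(2,5178),(0,25)]) (27,[(3,3613),(2,14115),(0,25)]) (27,[(3,6724),(2,8004),(0,49)]))) (.leaf false ⟨⟨-331,0,0⟩,⟨0,-331,0⟩,⟨0,0,-331⟩⟩ (1,[(2,331)]) (1,[(1,331)]) (1,[(0,331)]))))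
theorem h331_ok : h331.check (ok 331 4 ⟨3, 3, 3⟩) (fun _ r => r) [] = true := by decide +kernel

def h337 : T := .node ⟨1,0,0⟩ (.node ⟨0,1,0⟩ (.node ⟨0,0,1⟩ (.leaf false ⟨⟨0,0,337⟩,⟨0,337,0⟩,⟨337,0,0⟩⟩ (1,[(0,337)]) (1,[(1,337)]) (1,[(2,337)])) (.node ⟨-175,0,-288⟩ (.leaf false ⟨⟨-175,0,-288⟩,⟨0,337,0⟩,⟨288,0,-175⟩⟩ (1,[(0,1)]) (1,[(2,337)]) (288,[(3,113569),(0,175)])) (.node ⟨144,-87,-292⟩ (.leaf false ⟨⟨12,336,-23⟩,⟨193,12,276⟩,⟨276,-23,-192⟩⟩ (175,[(2,7481),(1,12),(3,58800)]) (175,[(2,7284),(1,193),(3,2100)]) (609,[(2,308380),(0,161),(1,828)])) (.leaf false ⟨⟨-255,212,-60⟩,⟨12,105,320⟩,⟨220,240,-87⟩⟩ (15225,[(2,14149484),(1,8343),(0,37100)]) (5075,[(2,1716244),(1,5388),(0,6125)]) (203,[(2,387389),(1,716),(0,560)]))))) (.node ⟨0,0,1⟩ (.node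 ⟨-175,-288,0⟩ (.leaf false ⟨⟨-175,-288,0⟩,⟨0,0,337⟩,⟨288,-175,0⟩⟩ (1,[(0,1)]) (1,[(1,337)]) (288,[(3,113569),(0,175)])) (.node ⟨144,-292,-87⟩ (.leaf false ⟨⟨12,-23,336⟩,⟨193,276,12⟩,⟨276,-192,-23⟩⟩ (175,[(2,58800),(1,12),(3,7481)]) (175,[(2,2100),(1,193),(3,7284)]) (609,[(1,828),(0,161),(3,308380)])) (.leaf false ⟨⟨-255,-60,212⟩,⟨12,320,105⟩,⟨220,-87,240⟩⟩ (15225,[(1,8343),(3,14149484),(0,37100)]) (5075,[(1,5388),(3,1716244),(0,6125)]) (203,[(1,716),(3,387389),(0,560)])))) (.node ⟨72,108,-311⟩ (.node ⟨72,-311,108⟩ (.node ⟨329,-12,72⟩ (.leaf false ⟨⟨12,-319,-108⟩,⟨72,108,-311⟩,⟨329,-12,72⟩⟩ (6,[(3,756),(1,1),(4,1603)]) (1,[(2,1)]) (1,[(0,1)])) (.leaf false ⟨⟨-255,-212,-60⟩,⟨-12,105,-320⟩,⟨220,-240,-87⟩⟩ (1758,[(5,595133),(1,1332),(0,3463)]) (1348,[(2,1240),(5,103459),(0,635)])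 (7032,[(5,6917075),(1,6108),(0,17659)]))) (.leaf false ⟨⟨-144,-32,-303⟩,⟨177,264,-112⟩,⟨248,-207,-96⟩⟩ (36,[(4,2088),(3,32563),(0,101)]) (27,[(4,6795),(3,1580),(0,28)]) (9,[(4,2808),(3,4351),(0,8)]))) (.leaf false ⟨⟨-144,-303,-32⟩,⟨177,-112,264⟩,⟨248,-96,-207⟩⟩ (36,[(1,32563),(3,2088),(0,101)]) (27,[(1,1580),(3,6795),(0,28)]) (9,[(1,4351),(3,2808),(0,8)]))))) (.node ⟨0,1,0⟩ (.node ⟨0,0,1⟩ (.node ⟨-288,-175,0⟩ (.leaf false ⟨⟨-288,-175,0⟩,⟨-175,288,0⟩,⟨0,0,337⟩⟩ (1,[(0,1)]) (288,[(0,175),(2,113569)]) (1,[(1,337)])) (.node ⟨-292,144,-87⟩ (.leaf false ⟨⟨-292,144,-87⟩,⟨-63,68,324⟩,⟨156,297,-32⟩⟩ (1,[(0,1)]) (175,[(2,56700),(4,30609),(1,68)]) (2175,[(4,300604),(0,800),(1,3033)])) (.leaf false ⟨⟨-303,32,144⟩,⟨96,-207,248⟩,⟨112,264,177⟩⟩ (145,[(4,178527),(1,224),(0,240)])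 (2175,[(4,2329952),(1,2529),(0,6200)]) (5075,[(4,7098276),(1,16152),(0,10325)])))) (.node ⟨108,72,-311⟩ (.node ⟨-311,72,108⟩ (.node ⟨-12,329,72⟩ (.leaf false ⟨⟨-319,12,-108⟩,⟨-12,329,72⟩,⟨108,72,-311⟩⟩ (6,[(3,756),(5,1603),(1,1)]) (1,[(0,1)]) (1,[(2,1)])) (.leaf false ⟨⟨-320,105,12⟩,⟨-87,-240,-220⟩,⟨60,212,-255⟩⟩ (1758,[(1,1908),(4,892415),(0,2569)]) (2637,[(1,1113),(4,2487167),(0,9727)]) (337,[(4,307344),(2,105),(0,740)]))) (.leaf false ⟨⟨-319,-12,-108⟩,⟨12,329,-72⟩,⟨108,-72,-311⟩⟩ (1,[(4,630),(3,60),(0,1)]) (3,[(4,586),(3,1131),(0,2)]) (108,[(4,85057),(3,14616),(0,311)]))) (.leaf false ⟨⟨-319,12,108⟩,⟨-108,-72,-311⟩,⟨-12,329,-72⟩⟩ (108,[(1,87545),(0,319),(2,24264)]) (1,[(1,622),(0,1)]) (9,[(1,959),(0,1),(2,3033)])))) (.node ⟨0,0,1⟩ (.node ⟨108,-311,72⟩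 (.node ⟨-311,108,72⟩ (.node ⟨-12,72,329⟩ (.leaf false ⟨⟨-319,-108,12⟩,⟨-12,72,329⟩,⟨108,-311,72⟩⟩ (6,[(1,1),(5,1603),(4,756)]) (1,[(0,1)]) (1,[(2,1)])) (.leaf false ⟨⟨-320,12,105⟩,⟨-87,-220,-240⟩,⟨60,-255,212⟩⟩ (1758,[(3,892415),(1,1908),(0,2569)]) (2637,[(3,2487167),(1,1113),(0,9727)]) (337,[(3,307344),(0,740),(2,105)]))) (.leaf false ⟨⟨-319,-108,-12⟩,⟨12,-72,329⟩,⟨108,-311,-72⟩⟩ (1,[(2,60),(4,630),(0,1)]) (3,[(2,1131),(4,586),(0,2)]) (108,[(2,14616),(4,85057),(0,311)]))) (.leaf false ⟨⟨-319,108,12⟩,⟨-108,-311,-72⟩,⟨-12,-72,329⟩⟩ (108,[(1,24264),(0,319),(2,87545)]) (1,[(0,1),(2,622)]) (9,[(1,3033),(0,1),(2,959)]))) (.node ⟨-156,193,-228⟩ (.node ⟨-303,-112,96⟩ (.node ⟨32,-264,-207⟩ (.leaf false ⟨⟨-303,-112,96⟩,⟨-144,177,-248⟩,⟨32,-264,-207⟩⟩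 (1,[(1,1)]) (13,[(3,488),(2,12),(4,15)]) (1,[(0,1)])) (.leaf false ⟨⟨-324,-87,-32⟩,⟨-68,144,297⟩,⟨-63,292,-156⟩⟩ (8,[(3,17023),(0,81),(4,22080)]) (8,[(3,1143),(0,17),(4,3336)]) (32,[(3,18033),(0,63),(4,7288)]))) (.leaf false ⟨⟨-320,-87,-60⟩,⟨-12,220,-255⟩,⟨105,-240,-212⟩⟩ (8,[(4,4075),(3,1256),(0,5)]) (32,[(4,26139),(3,2480),(0,85)]) (24,[(4,13539),(3,11696),(0,53)]))) (.leaf false ⟨⟨-320,-87,60⟩,⟨12,-220,-255⟩,⟨105,-240,212⟩⟩ (193,[(1,8256),(3,75332),(0,87)]) (193,[(1,99375),(3,32004),(0,220)]) (193,[(1,13804),(3,17175),(0,240)])))))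
theorem h337_ok : h337.check (ok 337 4 ⟨3, 3, 3⟩) (fun _ r => r) [] = true := by decide +kernel

def h341 : T := .node ⟨1,0,0⟩ (.node ⟨0,1,0⟩ (.node ⟨0,0,1⟩ (.leaf false ⟨⟨0,0,341⟩,⟨0,341,0⟩,⟨341,0,0⟩⟩ (1,[(0,341)]) (1,[(1,341)]) (1,[(2,341)])) (.node ⟨-51,336,28⟩ (.node ⟨-28,24,-339⟩ (.leaf false ⟨⟨-51,336,28⟩,⟨-28,24,-339⟩,⟨336,53,-24⟩⟩ (1,[(1,1)]) (1,[(0,1)]) (336,[(2,9548),(4,115599),(1,53)])) (.leaf false ⟨⟨-51,336,-28⟩,⟨28,-24,-339⟩,⟨336,53,24⟩⟩ (1,[(2,56),(1,1)]) (1,[(2,678),(0,1)]) (24,[(2,115129),(0,339),(1,28)]))) (.node ⟨333,-36,64⟩ (.leaf false ⟨⟨24,-28,-339⟩,⟨53,336,-24⟩,⟨336,-51,28⟩⟩ (17,[(2,5539),(1,8),(3,2212)]) (333,[(2,11384),(0,53),(3,113796)]) (4076,[(2,142244),(1,181),(0,4085)])) (.leaf false ⟨⟨-316,-36,-123⟩,⟨69,228,-244⟩,⟨108,-251,-204⟩⟩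 (1876,[(1,561),(4,497453),(0,3360)]) (16,[(4,21417),(3,1452),(0,61)]) (804,[(1,836),(4,775797),(0,2197)]))))) (.node ⟨0,0,1⟩ (.node ⟨-51,28,336⟩ (.node ⟨-28,-339,24⟩ (.leaf false ⟨⟨-51,28,336⟩,⟨-28,-339,24⟩,⟨336,-24,53⟩⟩ (1,[(1,1)]) (1,[(0,1)]) (336,[(4,115599),(3,9548),(1,53)])) (.leaf false ⟨⟨-51,-28,336⟩,⟨28,-339,-24⟩,⟨336,24,53⟩⟩ (1,[(3,56),(1,1)]) (1,[(3,678),(0,1)]) (24,[(3,115129),(1,28),(0,339)]))) (.node ⟨333,64,-36⟩ (.leaf false ⟨⟨24,-339,-28⟩,⟨53,-24,336⟩,⟨336,28,-51⟩⟩ (17,[(2,2212),(1,8),(3,5539)]) (333,[(2,113796),(0,53),(3,11384)]) (4076,[(0,4085),(1,181),(3,142244)])) (.leaf false ⟨⟨-316,-123,-36⟩,⟨69,-244,228⟩,⟨108,-204,-251⟩⟩ (1876,[(4,497453),(1,561),(0,3360)]) (16,[(2,1452),(4,21417),(0,61)]) (804,[(4,775797),(1,836),(0,2197)]))))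 (.node ⟨-66,-330,-55⟩ (.node ⟨84,100,-315⟩ (.node ⟨325,-84,60⟩ (.leaf false ⟨⟨-60,-315,-116⟩,⟨84,100,-315⟩,⟨325,-84,60⟩⟩ (11,[(3,726),(4,165),(2,10)]) (1,[(1,1)]) (1,[(0,1)])) (.leaf false ⟨⟨-316,-36,-123⟩,⟨69,228,-244⟩,⟨108,-251,-204⟩⟩ (20,[(5,7005),(4,4164),(0,41)]) (15,[(5,20860),(4,1704),(0,61)]) (5,[(5,6065),(4,2683),(0,17)]))) (.leaf false ⟨⟨-186,-279,-62⟩,⟨186,-62,-279⟩,⟨217,-186,186⟩⟩ (100,[(2,94085),(4,4836),(0,279)]) (50,[(2,23715),(4,11904),(0,31)]) (50,[(2,19995),(4,18662),(0,93)]))) (.leaf false ⟨⟨8,-339,-36⟩,⟨144,36,-307⟩,⟨309,-8,144⟩⟩ (33,[(1,1408),(0,4),(2,12507)]) (11,[(1,4697),(0,24),(2,7524)]) (22,[(1,2497),(0,103),(2,34166)]))))) (.node ⟨0,1,0⟩ (.node ⟨0,0,1⟩ (.node ⟨28,-51,336⟩ (.node ⟨-339,-28,24⟩ (.leaf false ⟨⟨-339,-28,24⟩,⟨-24,336,53⟩,⟨28,-51,336⟩⟩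 (1,[(0,1)]) (336,[(4,9548),(3,115599),(1,53)]) (1,[(1,1)])) (.leaf false ⟨⟨-339,28,-24⟩,⟨-28,-51,336⟩,⟨24,336,53⟩⟩ (1,[(4,678),(0,1)]) (1,[(4,56),(1,1)]) (24,[(4,115129),(0,339),(1,28)]))) (.node ⟨64,333,-36⟩ (.leaf false ⟨⟨-339,24,-28⟩,⟨-24,53,336⟩,⟨28,336,-51⟩⟩ (17,[(2,2212),(4,5539),(1,8)]) (333,[(2,113796),(4,11384),(0,53)]) (4076,[(4,142244),(1,181),(0,4085)])) (.leaf false ⟨⟨-330,-55,66⟩,⟨-66,330,-55⟩,⟨-55,-66,-330⟩⟩ (938,[(0,4697),(1,319),(3,1496242)]) (14,[(2,10318),(1,33),(3,2937)]) (268,[(0,110),(1,275),(3,4917)])))) (.node ⟨-330,-66,-55⟩ (.node ⟨100,84,-315⟩ (.node ⟨-84,325,60⟩ (.leaf false ⟨⟨-315,-60,-116⟩,⟨-84,325,60⟩,⟨100,84,-315⟩⟩ (11,[(3,726),(2,10),(5,165)]) (1,[(0,1)]) (1,[(1,1)])) (.leaf false ⟨⟨-339,-8,-36⟩,⟨8,309,-144⟩,⟨36,-144,-307⟩⟩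 (5,[(5,1947),(4,935),(0,3)]) (5,[(5,968),(4,5445),(0,12)]) (60,[(5,23628),(4,91135),(0,307)]))) (.leaf false ⟨⟨-315,-84,100⟩,⟨-116,60,-315⟩,⟨-60,325,84⟩⟩ (20,[(2,17845),(0,63),(3,3612)]) (25,[(2,17010),(0,29),(3,3936)]) (5,[(2,525),(0,3),(3,1877)]))) (.leaf false ⟨⟨-339,8,-36⟩,⟨-8,309,144⟩,⟨36,144,-307⟩⟩ (33,[(1,1408),(3,12507),(0,4)]) (22,[(1,2497),(3,34166),(0,103)]) (11,[(1,4697),(3,7524),(0,24)])))) (.node ⟨0,0,1⟩ (.node ⟨-330,-55,-66⟩ (.node ⟨100,-315,84⟩ (.node ⟨-84,60,325⟩ (.leaf false ⟨⟨-315,-116,-60⟩,⟨-84,60,325⟩,⟨100,-315,84⟩⟩ (11,[(5,165),(2,10),(4,726)]) (1,[(0,1)]) (1,[(1,1)])) (.leaf false ⟨⟨-339,-36,-8⟩,⟨8,-144,309⟩,⟨36,-307,-144⟩⟩ (5,[(3,935),(5,1947),(0,3)]) (5,[(3,5445),(5,968),(0,12)]) (60,[(3,91135),(5,23628),(0,307)]))) (.leaf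 false ⟨⟨-315,100,-84⟩,⟨-116,-315,60⟩,⟨-60,84,325⟩⟩ (20,[(2,3612),(0,63),(3,17845)]) (25,[(2,3936),(0,29),(3,17010)]) (5,[(2,1877),(0,3),(3,525)]))) (.leaf false ⟨⟨-339,-36,8⟩,⟨-8,144,309⟩,⟨36,-307,144⟩⟩ (33,[(3,12507),(2,1408),(0,4)]) (22,[(3,34166),(2,2497),(0,103)]) (11,[(3,7524),(2,4697),(0,24)]))) (.node ⟨-24,53,-336⟩ (.node ⟨-336,53,24⟩ (.node ⟨-51,-336,28⟩ (.leaf false ⟨⟨-336,53,24⟩,⟨-51,-336,28⟩,⟨-28,-24,-339⟩⟩ (1,[(1,1)]) (1,[(0,1)]) (12,[(3,4092),(1,1),(4,341)])) (.leaf false ⟨⟨-339,-24,-28⟩,⟨24,53,-336⟩,⟨28,-336,-51⟩⟩ (341,[(1,455),(4,277915),(0,731)]) (341,[(1,686),(4,1590765),(0,4680)]) (8184,[(1,1817),(4,8378029),(0,16464)]))) (.leaf false ⟨⟨-336,-51,-28⟩,⟨24,28,-339⟩,⟨53,-336,-24⟩⟩ (12,[(1,1),(4,4008),(3,665)]) (1576,[(1,1574),(3,27369),(0,225)])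 (1,[(4,283),(3,283),(0,1)]))) (.leaf false ⟨⟨-339,-36,-8⟩,⟨8,-144,309⟩,⟨36,-307,-144⟩⟩ (53,[(1,12520),(3,18831),(0,36)]) (53,[(1,32007),(3,3032),(0,144)]) (53,[(1,110784),(3,5460),(0,307)])))))
theorem h341_ok : h341.check (ok 341 4 ⟨3, 3, 3⟩) (fun _ r => r) [] = true := by decide +kernel

def h343 : T := .node ⟨1,0,0⟩ (.node ⟨0,1,0⟩ (.node ⟨0,0,1⟩ (.node ⟨-78,-26,333⟩ (.leaf false ⟨⟨-78,-26,333⟩,⟨-3,342,26⟩,⟨334,-3,78⟩⟩ (1,[(0,1)]) (333,[(3,1029),(2,114562),(0,26)]) (111,[(3,39102),(2,343),(0,26)])) (.node ⟨-82,333,6⟩ (.leaf false ⟨⟨-82,333,6⟩,⟨234,62,-243⟩,⟨237,54,242⟩⟩ (1,[(0,1)]) (13,[(2,7164),(4,624),(1,31)]) (37,[(2,8918),(4,9261),(0,6)])) (.leaf false ⟨⟨18,190,285⟩,⟨190,-243,150⟩,⟨285,150,-118⟩⟩ (13,[(2,4704),(1,3),(3,2392)]) (41,[(2,6720),(0,95),(3,21672)])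 (26,[(2,28567),(1,95),(3,1430)])))) (.node ⟨-19,-18,-342⟩ (.node ⟨342,-19,-18⟩ (.leaf false ⟨⟨-19,-18,-342⟩,⟨18,342,-19⟩,⟨342,-19,-18⟩⟩ (1,[(1,1)]) (18,[(4,343),(3,6174),(1,1)]) (1,[(0,1)])) (.leaf false ⟨⟨-318,125,30⟩,⟨30,150,-307⟩,⟨125,282,150⟩⟩ (147,[(4,297724),(0,1005),(1,40)]) (882,[(4,2825977),(0,8118),(1,1219)]) (147,[(4,782726),(0,2232),(1,53)]))) (.node ⟨-82,333,6⟩ (.leaf false ⟨⟨-82,333,6⟩,⟨234,62,-243⟩,⟨237,54,242⟩⟩ (1,[(0,1)]) (9,[(2,12789),(4,1517),(1,31)]) (1,[(2,784),(4,180),(1,3)])) (.leaf false ⟨⟨10,282,-195⟩,⟨93,-190,-270⟩,⟨330,45,82⟩⟩ (19,[(2,7125),(1,10),(3,5178)]) (82,[(2,21582),(0,93),(3,15389)]) (867,[(2,4241556),(0,565),(1,12620)]))))) (.node ⟨0,0,1⟩ (.node ⟨-19,-342,-18⟩ (.node ⟨342,-18,-19⟩ (.leaf false ⟨⟨-19,-342,-18⟩,⟨18,-19,342⟩,⟨342,-18,-19⟩⟩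 (1,[(1,1)]) (18,[(2,6174),(4,343),(1,1)]) (1,[(0,1)])) (.leaf false ⟨⟨-318,30,125⟩,⟨30,-307,150⟩,⟨125,150,282⟩⟩ (147,[(4,297724),(1,40),(0,1005)]) (882,[(4,2825977),(1,1219),(0,8118)]) (147,[(4,782726),(1,53),(0,2232)]))) (.node ⟨-82,6,333⟩ (.leaf false ⟨⟨-82,6,333⟩,⟨234,-243,62⟩,⟨237,242,54⟩⟩ (1,[(0,1)]) (9,[(1,31),(4,1517),(3,12789)]) (1,[(1,3),(4,180),(3,784)])) (.leaf false ⟨⟨10,-195,282⟩,⟨93,-270,-190⟩,⟨330,82,45⟩⟩ (19,[(2,5178),(1,10),(3,7125)]) (82,[(2,15389),(0,93),(3,21582)]) (867,[(1,12620),(0,565),(3,4241556)])))) (.node ⟨333,-26,78⟩ (.node ⟨-78,-334,-3⟩ (.leaf false ⟨⟨-78,-334,-3⟩,⟨26,-3,-342⟩,⟨333,-78,26⟩⟩ (1,[(0,1)]) (334,[(2,114219),(4,8918),(0,3)]) (1005,[(4,236670),(1,343),(0,208)])) (.leaf false ⟨⟨6,-242,-243⟩,⟨82,237,-234⟩,⟨333,-54,62⟩⟩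 (13,[(2,3162),(0,1),(3,3480)]) (39,[(2,9249),(0,41),(3,4451)]) (1,[(2,16),(1,1),(3,28)]))) (.leaf false ⟨⟨-307,-102,-114⟩,⟨102,54,-323⟩,⟨114,-323,-18⟩⟩ (13,[(3,2336),(2,1820),(0,19)]) (78,[(3,115515),(2,4186),(0,323)]) (13,[(3,2481),(2,4277),(0,3)]))))) (.node ⟨0,1,0⟩ (.node ⟨0,0,1⟩ (.node ⟨-342,-19,-18⟩ (.node ⟨-18,342,-19⟩ (.leaf false ⟨⟨-342,-19,-18⟩,⟨-19,18,342⟩,⟨-18,342,-19⟩⟩ (1,[(1,1)]) (18,[(2,6174),(1,1),(3,343)]) (1,[(0,1)])) (.leaf false ⟨⟨-330,-10,93⟩,⟨45,282,190⟩,⟨82,-195,270⟩⟩ (1029,[(1,1324),(3,2166388),(0,6291)]) (686,[(1,285),(3,2637327),(0,7130)]) (3087,[(1,1651),(3,14967148),(0,45432)]))) (.node ⟨6,-82,333⟩ (.leaf false ⟨⟨-243,234,62⟩,⟨6,-82,333⟩,⟨242,237,54⟩⟩ (9,[(4,12789),(3,1517),(1,31)]) (1,[(0,1)]) (1,[(4,784),(3,180),(1,3)]))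 (.leaf false ⟨⟨-330,45,82⟩,⟨-10,282,-195⟩,⟨93,190,270⟩⟩ (19,[(2,748),(4,21660),(1,45)]) (2601,[(4,8890872),(0,2927),(1,25972)]) (1,[(2,90),(4,3327),(1,10)])))) (.node ⟨-26,333,78⟩ (.node ⟨-334,-78,-3⟩ (.leaf false ⟨⟨-342,-26,-3⟩,⟨-26,333,78⟩,⟨-3,78,-334⟩⟩ (4355,[(0,4459),(1,4),(3,233240)]) (1,[(1,1)]) (26,[(2,8918),(1,3),(3,1029)])) (.leaf false ⟨⟨-242,6,-243⟩,⟨-54,333,62⟩,⟨237,82,-234⟩⟩ (13,[(2,3162),(4,3480),(0,1)]) (1,[(2,16),(4,28),(1,1)]) (39,[(2,9249),(4,4451),(0,41)]))) (.leaf false ⟨⟨-342,26,-3⟩,⟨-3,-78,-334⟩,⟨26,333,-78⟩⟩ (26,[(3,8918),(2,1009),(0,1)]) (39,[(3,4459),(2,52569),(0,167)]) (1,[(2,666),(0,1)])))) (.node ⟨0,0,1⟩ (.node ⟨-26,78,333⟩ (.node ⟨-334,-3,-78⟩ (.leaf false ⟨⟨-342,-3,-26⟩,⟨-26,78,333⟩,⟨-3,-334,78⟩⟩ (4355,[(2,233240),(1,4),(0,4459)])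 (1,[(1,1)]) (26,[(2,1029),(1,3),(3,8918)])) (.leaf false ⟨⟨-242,-243,6⟩,⟨-54,62,333⟩,⟨237,-234,82⟩⟩ (13,[(4,3480),(3,3162),(0,1)]) (1,[(1,1),(4,28),(3,16)]) (39,[(4,4451),(3,9249),(0,41)]))) (.leaf false ⟨⟨-342,-3,26⟩,⟨-3,-334,-78⟩,⟨26,-78,333⟩⟩ (26,[(1,1009),(3,8918),(0,1)]) (39,[(1,52569),(3,4459),(0,167)]) (1,[(1,666),(0,1)]))) (.leaf false ⟨⟨-343,0,0⟩,⟨0,-343,0⟩,⟨0,0,-343⟩⟩ (1,[(2,343)]) (1,[(1,343)]) (1,[(0,343)]))))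
theorem h343_ok : h343.check (ok 343 4 ⟨3, 3, 3⟩) (fun _ r => r) [] = true := by decide +kernel

def h347 : T := .node ⟨1,0,0⟩ (.node ⟨0,1,0⟩ (.node ⟨0,0,1⟩ (.node ⟨-78,9,338⟩ (.node ⟨9,338,-78⟩ (.node ⟨-78,78,329⟩ (.leaf false ⟨⟨-78,78,329⟩,⟨9,338,-78⟩,⟨338,9,78⟩⟩ (1,[(0,1)]) (1,[(1,1)]) (26,[(3,1041),(5,9022),(0,3)])) (.leaf false ⟨⟨-78,9,338⟩,⟨78,338,9⟩,⟨329,-78,78⟩⟩ (1,[(2,1)]) (27,[(1,2028),(2,10036),(0,9829)]) (81,[(1,23241),(2,116584),(0,114244)]))) (.leaf false ⟨⟨-78,9,338⟩,⟨78,338,9⟩,⟨329,-78,78⟩⟩ (1,[(1,1)]) (26,[(4,2055),(3,9802),(0,3)]) (1,[(4,338),(3,260),(0,1)]))) (.leaf false ⟨⟨22,345,-30⟩,⟨105,22,330⟩,⟨330,-30,-103⟩⟩ (39,[(1,2548),(0,11),(2,13554)]) (26,[(1,20410),(0,35),(2,887)]) (13,[(1,17251),(0,55),(2,105)]))) (.node ⟨342,14,57⟩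 (.node ⟨-54,338,57⟩ (.leaf false ⟨⟨-23,342,54⟩,⟨54,57,-338⟩,⟨342,14,57⟩⟩ (169,[(2,621),(4,5347),(0,171)]) (338,[(2,117493),(4,21330),(0,57)]) (1,[(1,1)])) (.leaf false ⟨⟨9,58,-342⟩,⟨202,-279,-42⟩,⟨282,198,41⟩⟩ (6,[(2,1995),(0,1),(3,686)]) (3762,[(0,4313),(1,1541),(3,386622)]) (57,[(2,342),(1,47),(3,10628)]))) (.leaf false ⟨⟨-282,9,-202⟩,⟨41,342,-42⟩,⟨198,-58,-279⟩⟩ (57,[(3,53010),(2,3341),(0,202)]) (19,[(3,5567),(2,6694),(0,14)]) (19,[(3,35568),(2,200),(0,93)])))) (.node ⟨0,0,1⟩ (.node ⟨342,57,14⟩ (.node ⟨-54,57,338⟩ (.leaf false ⟨⟨-23,54,342⟩,⟨54,-338,57⟩,⟨342,57,14⟩⟩ (169,[(4,5347),(3,621),(0,171)]) (338,[(4,21330),(3,117493),(0,57)]) (1,[(1,1)])) (.leaf false ⟨⟨9,-342,58⟩,⟨202,-42,-279⟩,⟨282,41,198⟩⟩ (6,[(2,686),(0,1),(3,1995)]) (3762,[(2,386622),(1,1541),(0,4313)])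 (57,[(2,10628),(1,47),(3,342)]))) (.leaf false ⟨⟨-282,-202,9⟩,⟨41,-42,342⟩,⟨198,-279,-58⟩⟩ (57,[(1,3341),(3,53010),(0,202)]) (19,[(1,6694),(3,5567),(0,14)]) (19,[(1,200),(3,35568),(0,93)]))) (.node ⟨22,-330,105⟩ (.node ⟨329,78,78⟩ (.leaf false ⟨⟨22,-330,105⟩,⟨30,-103,-330⟩,⟨345,30,22⟩⟩ (1,[(1,1)]) (329,[(2,110910),(0,30),(3,36227)]) (329,[(2,19672),(0,345),(3,17040)])) (.node ⟨-202,-279,42⟩ (.leaf false ⟨⟨-202,-279,42⟩,⟨9,-58,-342⟩,⟨282,-198,41⟩⟩ (1,[(0,1)]) (39,[(3,11076),(5,9892),(1,29)]) (5,[(3,110),(5,1344),(2,3)])) (.leaf false ⟨⟨-327,-78,-86⟩,⟨-22,294,-183⟩,⟨114,-167,-282⟩⟩ (775527,[(2,219452),(1,979945),(0,316716)]) (258509,[(2,518757),(1,719452),(0,1087128)]) (775527,[(2,9745020),(1,8661668),(0,13483705)])))) (.leaf false ⟨⟨-58,198,-279⟩,⟨9,-282,-202⟩,⟨342,41,-42⟩⟩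 (35,[(3,16),(2,23760),(0,93)]) (105,[(3,5389),(2,96270),(0,202)]) (5,[(3,1754),(2,455),(0,2)]))))) (.node ⟨0,1,0⟩ (.node ⟨0,0,1⟩ (.node ⟨57,342,14⟩ (.node ⟨57,-54,338⟩ (.leaf false ⟨⟨-338,54,57⟩,⟨54,-23,342⟩,⟨57,342,14⟩⟩ (338,[(4,117493),(3,21330),(0,57)]) (169,[(4,621),(3,5347),(0,171)]) (1,[(1,1)])) (.leaf false ⟨⟨-342,9,58⟩,⟨-42,202,-279⟩,⟨41,282,198⟩⟩ (6,[(2,686),(4,1995),(0,1)]) (3762,[(2,386622),(0,4313),(1,1541)]) (57,[(2,10628),(4,342),(1,47)]))) (.leaf false ⟨⟨-279,198,-58⟩,⟨-202,-282,9⟩,⟨-42,41,342⟩⟩ (19,[(1,200),(0,93),(2,35568)]) (57,[(1,3341),(0,202),(2,53010)]) (19,[(1,6694),(0,14),(2,5567)]))) (.node ⟨-330,22,105⟩ (.node ⟨78,329,78⟩ (.leaf false ⟨⟨-338,78,9⟩,⟨9,78,-338⟩,⟨78,329,78⟩⟩ (329,[(2,3123),(4,117286),(0,78)]) (329,[(2,117286),(4,3123),(0,78)])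 (1,[(0,1)])) (.node ⟨-279,-202,42⟩ (.leaf false ⟨⟨-279,-202,42⟩,⟨-198,282,41⟩,⟨-58,9,-342⟩⟩ (1,[(0,1)]) (5,[(3,110),(2,3),(4,1344)]) (39,[(3,11076),(1,29),(4,9892)])) (.leaf false ⟨⟨-342,9,-58⟩,⟨41,282,-198⟩,⟨42,-202,-279⟩⟩ (775527,[(1,3977009),(2,4916560),(0,5976492)]) (775527,[(1,5953060),(2,6967704),(0,10019633)]) (258509,[(1,1807016),(2,1657109),(0,2504124)])))) (.leaf false ⟨⟨-282,9,-202⟩,⟨41,342,-42⟩,⟨198,-58,-279⟩⟩ (105,[(3,96270),(2,5389),(0,202)]) (5,[(3,455),(2,1754),(0,2)]) (35,[(3,23760),(2,16),(0,93)])))) (.node ⟨0,0,1⟩ (.node ⟨105,-330,22⟩ (.node ⟨78,78,329⟩ (.leaf false ⟨⟨-338,9,78⟩,⟨9,-338,78⟩,⟨78,78,329⟩⟩ (329,[(4,117286),(3,3123),(0,78)]) (329,[(4,3123),(3,117286),(0,78)]) (1,[(0,1)])) (.node ⟨42,-279,-202⟩ (.leaf false ⟨⟨-342,-58,9⟩,⟨41,-198,282⟩,⟨42,-279,-202⟩⟩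 (39,[(3,9892),(5,11076),(1,29)]) (5,[(3,1344),(5,110),(2,3)]) (1,[(0,1)])) (.leaf false ⟨⟨-342,42,41⟩,⟨-58,-279,-198⟩,⟨9,-202,282⟩⟩ (258509,[(1,2733347),(2,2865380),(0,4192236)]) (775527,[(1,2447180),(2,2567884),(0,2945913)]) (775527,[(1,2722852),(2,4116783),(0,5069048)])))) (.leaf false ⟨⟨-279,198,-58⟩,⟨-202,-282,9⟩,⟨-42,41,342⟩⟩ (35,[(1,16),(0,93),(2,23760)]) (105,[(1,5389),(0,202),(2,96270)]) (5,[(1,1754),(0,2),(2,455)]))) (.leaf false ⟨⟨-347,0,0⟩,⟨0,-347,0⟩,⟨0,0,-347⟩⟩ (1,[(2,347)]) (1,[(1,347)]) (1,[(0,347)]))))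
theorem h347_ok : h347.check (ok 347 4 ⟨3, 3, 3⟩) (fun _ r => r) [] = true := by decide +kernel

def h349 : T := .node ⟨1,0,0⟩ (.node ⟨0,1,0⟩ (.node ⟨0,0,1⟩ (.leaf false ⟨⟨0,0,349⟩,⟨0,349,0⟩,⟨349,0,0⟩⟩ (1,[(0,349)]) (1,[(1,349)]) (1,[(2,349)])) (.node ⟨-144,61,-312⟩ (.node ⟨61,336,72⟩ (.node ⟨336,-43,-84⟩ (.leaf false ⟨⟨-72,84,-331⟩,⟨61,336,72⟩,⟨336,-43,-84⟩⟩ (2,[(3,350),(4,107),(2,1)]) (1,[(1,1)]) (1,[(0,1)])) (.leaf false ⟨⟨-336,92,21⟩,⟨-16,21,-348⟩,⟨93,336,16⟩⟩ (43,[(3,6825),(5,16464),(0,92)]) (43,[(3,16728),(5,6368),(0,21)]) (43,[(3,27536),(5,116895),(0,336)]))) (.leaf false ⟨⟨-200,-75,-276⟩,⟨-24,340,-75⟩,⟨285,-24,-200⟩⟩ (6,[(4,203),(3,7278),(0,23)]) (24,[(4,949),(3,16560),(0,25)]) (9,[(4,4090),(3,8184),(0,25)]))) (.leaf false ⟨⟨24,340,-75⟩,⟨200,-75,-276⟩,⟨285,24,200⟩⟩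 (6,[(1,762),(0,1),(2,2101)]) (18,[(1,12768),(0,25),(2,175)]) (48,[(1,20040),(0,95),(2,6947)])))) (.node ⟨0,0,1⟩ (.node ⟨-144,-312,61⟩ (.node ⟨61,72,336⟩ (.node ⟨336,-84,-43⟩ (.leaf false ⟨⟨-72,-331,84⟩,⟨61,72,336⟩,⟨336,-84,-43⟩⟩ (2,[(3,107),(4,350),(2,1)]) (1,[(1,1)]) (1,[(0,1)])) (.leaf false ⟨⟨-336,-16,93⟩,⟨21,-348,16⟩,⟨92,21,336⟩⟩ (43,[(5,16800),(4,8500),(0,93)]) (43,[(5,6279),(4,16308),(0,16)]) (43,[(5,116852),(4,27321),(0,336)]))) (.leaf false ⟨⟨-200,-276,-75⟩,⟨-24,-75,340⟩,⟨285,-200,-24⟩⟩ (6,[(2,7278),(4,203),(0,23)]) (24,[(2,16560),(4,949),(0,25)]) (9,[(2,8184),(4,4090),(0,25)]))) (.leaf false ⟨⟨24,-75,340⟩,⟨200,-276,-75⟩,⟨285,200,24⟩⟩ (6,[(1,2101),(0,1),(2,762)]) (18,[(1,175),(0,25),(2,12768)]) (48,[(1,6947),(0,95),(2,20040)]))) (.node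 ⟨0,180,-299⟩ (.leaf false ⟨⟨0,-299,-180⟩,⟨0,180,-299⟩,⟨349,0,0⟩⟩ (299,[(0,180),(2,121801)]) (1,[(0,1)]) (1,[(3,349)])) (.leaf false ⟨⟨0,-299,180⟩,⟨0,-180,-299⟩,⟨349,0,0⟩⟩ (180,[(1,57001),(0,299)]) (1,[(1,598),(0,1)]) (1,[(3,349)]))))) (.node ⟨0,1,0⟩ (.node ⟨0,0,1⟩ (.node ⟨-312,-144,61⟩ (.node ⟨72,61,336⟩ (.node ⟨-84,336,-43⟩ (.leaf false ⟨⟨-331,-72,84⟩,⟨-84,336,-43⟩,⟨72,61,336⟩⟩ (2,[(3,107),(2,1),(5,350)]) (1,[(0,1)]) (1,[(1,1)])) (.leaf false ⟨⟨-348,-16,21⟩,⟨16,93,336⟩,⟨21,-336,92⟩⟩ (43,[(5,16728),(4,6368),(0,21)]) (43,[(5,27536),(4,116895),(0,336)]) (43,[(5,6825),(4,16464),(0,92)]))) (.leaf false ⟨⟨-340,-75,24⟩,⟨-75,276,-200⟩,⟨-24,200,285⟩⟩ (18,[(2,28992),(0,85),(3,3835)]) (24,[(2,3600),(0,25),(3,8149)]) (3,[(2,1191),(0,1),(3,661)]))) (.leaf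 false ⟨⟨-276,200,-75⟩,⟨-75,24,340⟩,⟨200,285,24⟩⟩ (18,[(1,175),(3,12768),(0,25)]) (6,[(1,2101),(3,762),(0,1)]) (48,[(1,6947),(3,20040),(0,95)]))) (.node ⟨180,0,-299⟩ (.leaf false ⟨⟨-299,0,-180⟩,⟨0,349,0⟩,⟨180,0,-299⟩⟩ (299,[(3,121801),(0,180)]) (1,[(2,349)]) (1,[(0,1)])) (.leaf false ⟨⟨-299,0,180⟩,⟨-180,0,-299⟩,⟨0,349,0⟩⟩ (180,[(1,57001),(0,299)]) (1,[(1,598),(0,1)]) (1,[(2,349)])))) (.node ⟨0,0,1⟩ (.node ⟨180,-299,0⟩ (.leaf false ⟨⟨-299,-180,0⟩,⟨0,0,349⟩,⟨180,-299,0⟩⟩ (299,[(3,121801),(0,180)]) (1,[(1,349)]) (1,[(0,1)])) (.leaf false ⟨⟨-299,180,0⟩,⟨-180,-299,0⟩,⟨0,0,349⟩⟩ (180,[(0,299),(2,57001)]) (1,[(0,1),(2,598)]) (1,[(1,349)]))) (.node ⟨-336,-43,84⟩ (.node ⟨84,-43,-336⟩ (.node ⟨84,-331,72⟩ (.leaf false ⟨⟨-336,-72,61⟩,⟨-43,-84,-336⟩,⟨84,-331,72⟩⟩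 (1367,[(3,42229),(2,1396),(0,116)]) (331,[(3,117264),(5,21289),(0,84)]) (1,[(0,1)])) (.leaf false ⟨⟨-264,-228,-11⟩,⟨-227,264,-24⟩,⟨24,-11,-348⟩⟩ (1260,[(2,1067),(4,228155),(1,308)]) (2604,[(2,1194),(4,9593),(0,2261)]) (26285,[(2,4203),(1,27577),(0,3255)]))) (.leaf false ⟨⟨-336,61,72⟩,⟨-84,-72,-331⟩,⟨-43,-336,84⟩⟩ (1,[(2,1272),(0,4),(3,111)]) (1,[(2,667),(0,1),(3,115)]) (84,[(2,7392),(0,43),(3,30073)]))) (.leaf false ⟨⟨-336,-43,-84⟩,⟨61,-336,-72⟩,⟨72,84,-331⟩⟩ (1,[(3,672),(2,86),(0,1)]) (7,[(3,1589),(2,2610),(0,6)]) (84,[(3,105168),(2,7177),(0,331)])))))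
theorem h349_ok : h349.check (ok 349 4 ⟨3, 3, 3⟩) (fun _ r => r) [] = true := by decide +kernel

def h353 : T := .node ⟨1,0,0⟩ (.node ⟨0,1,0⟩ (.node ⟨0,0,1⟩ (.leaf false ⟨⟨0,0,353⟩,⟨0,353,0⟩,⟨353,0,0⟩⟩ (1,[(0,353)]) (1,[(1,353)]) (1,[(2,353)])) (.node ⟨0,272,225⟩ (.leaf false ⟨⟨0,225,-272⟩,⟨0,272,225⟩,⟨353,0,0⟩⟩ (272,[(1,124609),(0,225)]) (1,[(0,1)]) (1,[(3,353)])) (.node ⟨-92,273,-204⟩ (.leaf false ⟨⟨-92,273,-204⟩,⟨57,-196,-288⟩,⟨336,108,-7⟩⟩ (1,[(0,1)]) (25,[(1,32),(4,1425),(3,3804)]) (204,[(4,69188),(3,20121),(0,7)])) (.leaf false ⟨⟨0,353,0⟩,⟨225,0,-272⟩,⟨272,0,225⟩⟩ (1,[(3,353)]) (20700,[(1,70924),(0,50625),(3,33111953)]) (1725,[(1,2899),(0,5100),(3,2180828)]))))) (.node ⟨0,0,1⟩ (.node ⟨0,225,272⟩ (.leaf false ⟨⟨0,-272,225⟩,⟨0,225,272⟩,⟨353,0,0⟩⟩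 (272,[(0,225),(2,124609)]) (1,[(0,1)]) (1,[(3,353)])) (.node ⟨-92,-204,273⟩ (.leaf false ⟨⟨-92,-204,273⟩,⟨57,-288,-196⟩,⟨336,-7,108⟩⟩ (1,[(0,1)]) (25,[(2,3804),(4,1425),(1,32)]) (204,[(2,20121),(4,69188),(0,7)])) (.leaf false ⟨⟨0,0,353⟩,⟨225,-272,0⟩,⟨272,225,0⟩⟩ (1,[(2,353)]) (20700,[(2,33111953),(0,50625),(1,70924)]) (1725,[(2,2180828),(0,5100),(1,2899)])))) (.node ⟨336,-48,97⟩ (.node ⟨-48,-336,97⟩ (.node ⟨-63,-88,-336⟩ (.leaf false ⟨⟨-63,-88,-336⟩,⟨-48,-336,97⟩,⟨344,-63,-48⟩⟩ (1,[(0,1)]) (1,[(1,1)]) (16,[(3,1059),(5,5648),(1,3)])) (.leaf false ⟨⟨-48,-344,-63⟩,⟨97,48,-336⟩,⟨336,-63,88⟩⟩ (706,[(3,120373),(0,16),(1,727)]) (2118,[(3,2050577),(0,3786),(1,689)]) (5648,[(3,13570379),(0,38640),(1,11179)]))) (.leaf false ⟨⟨16,-132,-327⟩,⟨57,324,-128⟩,⟨348,-47,36⟩⟩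 (3,[(2,884),(0,1),(3,732)]) (32,[(2,1186),(0,31),(1,1)]) (2400,[(2,152608),(0,19),(1,2483)]))) (.leaf false ⟨⟨-327,-16,-132⟩,⟨36,-348,-47⟩,⟨128,57,-324⟩⟩ (97,[(3,12633),(2,7888),(0,132)]) (97,[(3,19284),(2,36012),(0,47)]) (97,[(3,121280),(2,10023),(0,324)]))))) (.node ⟨0,1,0⟩ (.node ⟨0,0,1⟩ (.node ⟨225,0,272⟩ (.leaf false ⟨⟨-272,0,225⟩,⟨0,353,0⟩,⟨225,0,272⟩⟩ (272,[(3,124609),(0,225)]) (1,[(2,353)]) (1,[(0,1)])) (.node ⟨-204,-92,273⟩ (.leaf false ⟨⟨-288,57,-196⟩,⟨-204,-92,273⟩,⟨-7,336,108⟩⟩ (25,[(2,3804),(1,32),(3,1425)]) (1,[(0,1)]) (204,[(2,20121),(0,7),(3,69188)])) (.leaf false ⟨⟨-336,57,92⟩,⟨-7,288,-204⟩,⟨108,196,273⟩⟩ (1380,[(2,1131767),(1,2836),(0,855)]) (5175,[(2,7405828),(1,14849),(0,16200)]) (1725,[(2,2155288),(1,2504),(0,3675)])))) (.node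 ⟨-48,336,97⟩ (.node ⟨-336,-48,97⟩ (.node ⟨-88,-63,-336⟩ (.leaf false ⟨⟨-336,-48,97⟩,⟨-88,-63,-336⟩,⟨-63,344,-48⟩⟩ (1,[(1,1)]) (1,[(0,1)]) (16,[(3,1059),(1,3),(4,5648)])) (.leaf false ⟨⟨-344,-48,-63⟩,⟨-63,336,88⟩,⟨48,97,-336⟩⟩ (706,[(3,120373),(1,727),(0,16)]) (5648,[(3,13570379),(1,11179),(0,38640)]) (2118,[(3,2050577),(1,689),(0,3786)]))) (.leaf false ⟨⟨-303,20,-180⟩,⟨-20,345,72⟩,⟨180,72,-295⟩⟩ (12,[(2,1675),(4,5316),(0,5)]) (480,[(2,8702),(1,487),(0,41)]) (2,[(2,299),(4,648),(0,3)]))) (.leaf false ⟨⟨-348,-47,-36⟩,⟨16,132,-327⟩,⟨57,-324,-128⟩⟩ (97,[(3,35484),(2,7537),(0,36)]) (97,[(3,14144),(2,122676),(0,327)]) (97,[(3,615),(2,11580),(0,128)])))) (.node ⟨0,0,1⟩ (.node ⟨-48,97,336⟩ (.node ⟨-336,97,-48⟩ (.node ⟨-88,-336,-63⟩ (.leaf false ⟨⟨-336,97,-48⟩,⟨-88,-336,-63⟩,⟨-63,-48,344⟩⟩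 (1,[(1,1)]) (1,[(0,1)]) (16,[(3,5648),(1,3),(4,1059)])) (.leaf false ⟨⟨-344,-63,-48⟩,⟨-63,88,336⟩,⟨48,-336,97⟩⟩ (706,[(1,727),(4,120373),(0,16)]) (5648,[(1,11179),(4,13570379),(0,38640)]) (2118,[(1,689),(4,2050577),(0,3786)]))) (.leaf false ⟨⟨-303,-180,20⟩,⟨-20,72,345⟩,⟨180,-295,72⟩⟩ (12,[(4,5316),(3,1675),(0,5)]) (480,[(1,487),(3,8702),(0,41)]) (2,[(4,648),(3,299),(0,3)]))) (.leaf false ⟨⟨-348,-47,36⟩,⟨-16,-132,-327⟩,⟨57,-324,128⟩⟩ (97,[(1,19284),(3,36012),(0,47)]) (97,[(1,12633),(3,7888),(0,132)]) (97,[(1,121280),(3,10023),(0,324)]))) (.node ⟨-47,132,-324⟩ (.node ⟨-327,132,16⟩ (.node ⟨-128,-324,57⟩ (.leaf false ⟨⟨-327,132,16⟩,⟨-128,-324,57⟩,⟨-36,-47,-348⟩⟩ (1,[(1,1)]) (1,[(0,1)]) (47,[(3,4692),(2,36),(4,6961)])) (.leaf false ⟨⟨-348,-47,-36⟩,⟨16,132,-327⟩,⟨57,-324,-128⟩⟩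 (16591,[(1,24444),(4,9624545),(0,17340)]) (16591,[(1,40944),(4,37776648),(0,106673)]) (16591,[(1,13135),(4,20375160),(0,40944)]))) (.leaf false ⟨⟨-327,-128,-36⟩,⟨16,57,-348⟩,⟨132,-324,-47⟩⟩ (9,[(1,1),(4,2896),(3,1284)]) (5335,[(1,5677),(3,303105),(0,1077)]) (44,[(1,1),(4,29788),(0,109)]))) (.leaf false ⟨⟨-348,-47,36⟩,⟨-16,-132,-327⟩,⟨57,-324,128⟩⟩ (132,[(1,10476),(3,48145),(0,47)]) (1,[(1,651),(3,63),(0,1)]) (11,[(1,7340),(3,642),(0,27)])))))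
theorem h353_ok : h353.check (ok 353 4 ⟨3, 3, 3⟩) (fun _ r => r) [] = true := by decide +kernel

def h359 : T := .node ⟨1,0,0⟩ (.node ⟨0,1,0⟩ (.node ⟨0,0,1⟩ (.node ⟨-134,6,333⟩ (.node ⟨46,342,-99⟩ (.node ⟨333,-6,134⟩ (.leaf false ⟨⟨-126,109,318⟩,⟨46,342,-99⟩,⟨333,-6,134⟩⟩ (67,[(3,327),(4,6925),(2,63)]) (1,[(1,1)]) (1,[(0,1)])) (.leaf false ⟨⟨-350,66,45⟩,⟨45,330,-134⟩,⟨66,125,330⟩⟩ (1,[(3,1519),(5,3313),(0,11)]) (1,[(3,7236),(5,18360),(0,55)]) (6,[(3,18730),(5,42021),(0,125)]))) (.leaf false ⟨⟨-134,-99,318⟩,⟨6,342,109⟩,⟨333,-46,126⟩⟩ (33,[(4,454),(3,32985),(0,106)]) (99,[(4,5608),(3,71136),(0,109)]) (11,[(4,4307),(3,4282),(0,14)]))) (.node ⟨294,-163,126⟩ (.leaf false ⟨⟨45,350,66⟩,⟨134,45,-330⟩,⟨330,-66,125⟩⟩ (98,[(2,4578),(0,15),(3,36745)]) (1,[(2,3),(1,1),(3,51)])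 (10039,[(2,6547712),(0,3432),(1,17193)])) (.leaf false ⟨⟨-298,174,-99⟩,⟨66,253,246⟩,⟨189,186,-242⟩⟩ (10039,[(2,792306),(1,1291),(0,10764)]) (10039,[(2,18806178),(1,42570),(0,17149)]) (20078,[(2,26892935),(1,85491),(0,26058)])))) (.node ⟨330,45,134⟩ (.node ⟨-134,330,45⟩ (.leaf false ⟨⟨-134,330,45⟩,⟨45,66,-350⟩,⟨330,125,66⟩⟩ (1,[(0,1)]) (5,[(2,1795),(4,359),(0,1)]) (11493,[(2,1043972),(1,12565),(0,2640)])) (.leaf false ⟨⟨6,109,-342⟩,⟨134,-318,-99⟩,⟨333,126,46⟩⟩ (55,[(2,18944),(1,1),(3,5950)]) (1,[(2,54),(0,1),(3,12)]) (110,[(2,9814),(1,111),(3,8865)]))) (.leaf false ⟨⟨-270,109,-210⟩,⟨141,330,-10⟩,⟨190,-90,-291⟩⟩ (67,[(3,16560),(2,12028),(0,105)]) (67,[(3,11097),(2,22335),(0,5)]) (134,[(3,121490),(2,1035),(0,291)])))) (.node ⟨0,0,1⟩ (.node ⟨330,134,45⟩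 (.node ⟨-134,45,330⟩ (.leaf false ⟨⟨-134,45,330⟩,⟨45,-350,66⟩,⟨330,66,125⟩⟩ (1,[(0,1)]) (5,[(4,359),(3,1795),(0,1)]) (11493,[(1,12565),(3,1043972),(0,2640)])) (.leaf false ⟨⟨6,-342,109⟩,⟨134,-99,-318⟩,⟨333,46,126⟩⟩ (55,[(2,5950),(1,1),(3,18944)]) (1,[(2,12),(0,1),(3,54)]) (110,[(2,8865),(1,111),(3,9814)]))) (.leaf false ⟨⟨-270,-210,109⟩,⟨141,-10,330⟩,⟨190,-291,-90⟩⟩ (67,[(1,12028),(3,16560),(0,105)]) (67,[(1,22335),(3,11097),(0,5)]) (134,[(1,1035),(3,121490),(0,291)]))) (.node ⟨-134,-318,-99⟩ (.node ⟨234,190,-195⟩ (.node ⟨270,-195,134⟩ (.leaf false ⟨⟨-35,-234,-270⟩,⟨234,190,-195⟩,⟨270,-195,134⟩⟩ (53,[(3,10449),(5,3371),(2,39)]) (1,[(1,1)]) (1,[(0,1)])) (.leaf false ⟨⟨-314,-3,-174⟩,⟨102,-294,-179⟩,⟨141,206,-258⟩⟩ (67,[(5,2452),(4,17166),(0,87)])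 (134,[(5,61998),(4,74301),(0,179)]) (67,[(5,44277),(4,11353),(0,129)]))) (.leaf false ⟨⟨-210,-291,10⟩,⟨109,-90,-330⟩,⟨270,-190,141⟩⟩ (190,[(2,54845),(4,28194),(0,291)]) (19,[(2,8025),(4,4177),(0,9)]) (1,[(2,54),(4,504),(0,1)]))) (.leaf false ⟨⟨42,-206,-291⟩,⟨234,237,-134⟩,⟨269,-174,162⟩⟩ (67,[(1,21576),(0,21),(2,20480)]) (67,[(1,20561),(0,117),(2,21327)]) (134,[(1,4923),(0,269),(2,108858)]))))) (.node ⟨0,1,0⟩ (.node ⟨0,0,1⟩ (.node ⟨134,45,330⟩ (.node ⟨45,330,-134⟩ (.leaf false ⟨⟨-350,66,45⟩,⟨45,330,-134⟩,⟨66,125,330⟩⟩ (5,[(2,359),(4,1795),(0,1)]) (1,[(0,1)]) (11493,[(4,1043972),(0,2640),(1,12565)])) (.leaf false ⟨⟨-342,109,6⟩,⟨-99,-318,134⟩,⟨46,126,333⟩⟩ (55,[(4,18944),(3,5950),(1,1)]) (1,[(4,54),(3,12),(0,1)]) (110,[(4,9814),(3,8865),(1,111)])))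 (.leaf false ⟨⟨-291,-90,190⟩,⟨-210,109,-270⟩,⟨-10,330,141⟩⟩ (134,[(1,121490),(0,291),(2,1035)]) (67,[(1,16560),(0,105),(2,12028)]) (67,[(1,11097),(0,5),(2,22335)]))) (.node ⟨-99,-134,-318⟩ (.node ⟨-195,234,190⟩ (.node ⟨134,270,-195⟩ (.leaf false ⟨⟨-270,-35,-234⟩,⟨-195,234,190⟩,⟨134,270,-195⟩⟩ (53,[(2,39),(5,10449),(4,3371)]) (1,[(1,1)]) (1,[(0,1)])) (.leaf false ⟨⟨-342,-6,109⟩,⟨-99,-134,-318⟩,⟨-46,333,-126⟩⟩ (67,[(3,26042),(0,171),(4,45768)]) (134,[(3,61917),(0,99),(4,8774)]) (67,[(3,12927),(0,23),(4,28521)]))) (.leaf false ⟨⟨-342,-46,-99⟩,⟨-6,333,-134⟩,⟨109,-126,-318⟩⟩ (190,[(4,84285),(3,14426),(0,99)]) (95,[(4,13635),(3,47313),(0,67)]) (95,[(4,20650),(3,25236),(0,159)]))) (.leaf false ⟨⟨-330,109,90⟩,⟨-10,210,-291⟩,⟨141,270,190⟩⟩ (134,[(1,22602),(3,55011),(0,109)])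 (67,[(1,52887),(3,11065),(0,105)]) (67,[(1,30200),(3,3918),(0,135)])))) (.node ⟨0,0,1⟩ (.node ⟨-99,-318,-134⟩ (.node ⟨-195,190,234⟩ (.node ⟨134,-195,270⟩ (.leaf false ⟨⟨-270,-234,-35⟩,⟨-195,190,234⟩,⟨134,-195,270⟩⟩ (53,[(3,3371),(5,10449),(2,39)]) (1,[(1,1)]) (1,[(0,1)])) (.leaf false ⟨⟨-342,109,-6⟩,⟨-99,-318,-134⟩,⟨-46,-126,333⟩⟩ (67,[(3,45768),(0,171),(4,26042)]) (134,[(3,8774),(0,99),(4,61917)]) (67,[(3,28521),(0,23),(4,12927)]))) (.leaf false ⟨⟨-342,-99,-46⟩,⟨-6,-134,333⟩,⟨109,-318,-126⟩⟩ (190,[(2,14426),(4,84285),(0,99)]) (95,[(2,47313),(4,13635),(0,67)]) (95,[(2,25236),(4,20650),(0,159)]))) (.leaf false ⟨⟨-330,-10,141⟩,⟨90,-291,190⟩,⟨109,210,270⟩⟩ (134,[(3,58179),(2,46178),(0,141)]) (67,[(3,3375),(2,49707),(0,95)]) (67,[(3,6062),(2,28860),(0,135)])))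 (.leaf false ⟨⟨-359,0,0⟩,⟨0,-359,0⟩,⟨0,0,-359⟩⟩ (1,[(2,359)]) (1,[(1,359)]) (1,[(0,359)]))))
theorem h359_ok : h359.check (ok 359 4 ⟨3, 3, 3⟩) (fun _ r => r) [] = true := by decide +kernel

def h361 : T := .node ⟨1,0,0⟩ (.node ⟨0,1,0⟩ (.node ⟨0,0,1⟩ (.leaf false ⟨⟨0,0,361⟩,⟨0,361,0⟩,⟨361,0,0⟩⟩ (1,[(0,361)]) (1,[(1,361)]) (1,[(2,361)])) (.node ⟨-159,316,-72⟩ (.node ⟨161,-120,-300⟩ (.node ⟨300,180,89⟩ (.leaf false ⟨⟨-120,289,-180⟩,⟨161,-120,-300⟩,⟨300,180,89⟩⟩ (53,[(3,6660),(4,2677),(2,40)]) (1,[(1,1)]) (1,[(0,1)])) (.leaf false ⟨⟨-336,-63,-116⟩,⟨28,276,-231⟩,⟨129,-224,-252⟩⟩ (89,[(5,4896),(4,15273),(0,116)]) (89,[(5,71792),(4,66144),(0,231)]) (89,[(5,87081),(4,25424),(0,252)]))) (.leaf false ⟨⟨-279,208,-96⟩,⟨48,201,296⟩,⟨224,216,-183⟩⟩ (15,[(2,9240),(4,1),(0,26)])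 (40,[(2,8260),(4,12707),(0,67)]) (5,[(2,3615),(4,2569),(0,9)]))) (.leaf false ⟨⟨84,8,-351⟩,⟨153,324,44⟩,⟨316,-159,72⟩⟩ (53,[(1,20619),(0,28),(2,9272)]) (53,[(1,1340),(0,51),(2,33288)]) (159,[(1,11304),(0,316),(2,74575)])))) (.node ⟨0,0,1⟩ (.node ⟨-159,-72,316⟩ (.node ⟨161,-300,-120⟩ (.node ⟨300,89,180⟩ (.leaf false ⟨⟨-120,-180,289⟩,⟨161,-300,-120⟩,⟨300,89,180⟩⟩ (53,[(3,2677),(4,6660),(2,40)]) (1,[(1,1)]) (1,[(0,1)])) (.leaf false ⟨⟨-336,-116,-63⟩,⟨28,-231,276⟩,⟨129,-252,-224⟩⟩ (89,[(3,15273),(5,4896),(0,116)]) (89,[(3,66144),(5,71792),(0,231)]) (89,[(3,25424),(5,87081),(0,252)]))) (.leaf false ⟨⟨-279,-96,208⟩,⟨48,296,201⟩,⟨224,-183,216⟩⟩ (15,[(4,1),(3,9240),(0,26)]) (40,[(4,12707),(3,8260),(0,67)]) (5,[(4,2569),(3,3615),(0,9)]))) (.leaf false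 ⟨⟨84,-351,8⟩,⟨153,44,324⟩,⟨316,72,-159⟩⟩ (53,[(1,9272),(0,28),(2,20619)]) (53,[(1,33288),(0,51),(2,1340)]) (159,[(1,74575),(0,316),(2,11304)]))) (.node ⟨89,132,-324⟩ (.node ⟨89,-324,132⟩ (.node ⟨348,1,96⟩ (.leaf false ⟨⟨36,-336,-127⟩,⟨89,132,-324⟩,⟨348,1,96⟩⟩ (29,[(3,3971),(0,3),(4,9747)]) (1,[(2,1)]) (1,[(0,1)])) (.leaf false ⟨⟨-324,-8,-159⟩,⟨44,-351,-72⟩,⟨153,84,-316⟩⟩ (603592,[(2,142463),(1,71041),(0,616568)]) (75449,[(2,49613),(1,101859),(0,29199)]) (912,[(2,951),(5,41458),(1,151)]))) (.leaf false ⟨⟨-132,1,-336⟩,⟨89,-348,-36⟩,⟨324,96,-127⟩⟩ (11,[(4,1040),(3,9061),(0,28)]) (11,[(4,1246),(3,4800),(0,3)]) (132,[(4,54071),(3,28476),(0,127)]))) (.leaf false ⟨⟨-132,-336,1⟩,⟨89,-36,-348⟩,⟨324,-127,96⟩⟩ (11,[(1,9061),(3,1040),(0,28)]) (11,[(1,4800),(3,1246),(0,3)])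 (132,[(1,28476),(3,54071),(0,127)]))))) (.node ⟨0,1,0⟩ (.node ⟨0,0,1⟩ (.node ⟨-72,316,-159⟩ (.node ⟨-300,-120,161⟩ (.node ⟨89,180,300⟩ (.leaf false ⟨⟨-300,-120,161⟩,⟨-180,289,-120⟩,⟨89,180,300⟩⟩ (1,[(1,1)]) (53,[(5,6660),(2,40),(4,2677)]) (1,[(0,1)])) (.leaf false ⟨⟨-351,-84,-8⟩,⟨-72,316,-159⟩,⟨-44,153,324⟩⟩ (89,[(3,104588),(0,351),(4,55704)]) (89,[(3,7449),(0,72),(4,41084)]) (89,[(3,42036),(0,44),(4,21537)]))) (.leaf false ⟨⟨-351,44,72⟩,⟨8,324,-159⟩,⟨84,153,316⟩⟩ (30,[(2,3931),(4,13830),(0,11)]) (10,[(2,2757),(4,8020),(0,27)]) (40,[(2,20851),(4,11940),(0,51)]))) (.leaf false ⟨⟨-351,8,84⟩,⟨44,324,153⟩,⟨72,-159,316⟩⟩ (53,[(3,20619),(2,9272),(0,28)]) (53,[(3,1340),(2,33288),(0,51)]) (159,[(3,11304),(2,74575),(0,316)]))) (.node ⟨132,89,-324⟩ (.node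 ⟨-324,89,132⟩ (.node ⟨96,348,1⟩ (.leaf false ⟨⟨-324,89,132⟩,⟨-127,36,-336⟩,⟨96,348,1⟩⟩ (1,[(1,1)]) (29,[(3,9747),(5,3971),(0,3)]) (1,[(0,1)])) (.leaf false ⟨⟨-359,12,36⟩,⟨-36,-216,-287⟩,⟨-12,289,-216⟩⟩ (1810776,[(1,2080981),(2,644651),(0,634632)]) (150898,[(1,35293),(2,147611),(0,140438)]) (608,[(1,225),(4,111454),(2,497)]))) (.leaf false ⟨⟨-348,1,-96⟩,⟨36,336,-127⟩,⟨89,-132,-324⟩⟩ (11,[(4,6420),(3,723),(0,8)]) (132,[(4,36396),(3,55655),(0,127)]) (11,[(4,7769),(3,951),(0,27)]))) (.leaf false ⟨⟨-336,-132,1⟩,⟨-127,324,96⟩,⟨-36,89,-348⟩⟩ (11,[(1,9061),(0,28),(2,1040)]) (132,[(1,28476),(0,127),(2,54071)]) (11,[(1,4800),(0,3),(2,1246)])))) (.node ⟨0,0,1⟩ (.node ⟨132,-324,89⟩ (.node ⟨-324,132,89⟩ (.node ⟨1,96,348⟩ (.leaf false ⟨⟨-336,-127,36⟩,⟨1,96,348⟩,⟨132,-324,89⟩⟩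 (29,[(5,9747),(4,3971),(0,3)]) (1,[(0,1)]) (1,[(2,1)])) (.leaf false ⟨⟨-359,-36,-12⟩,⟨12,-216,289⟩,⟨36,-287,-216⟩⟩ (137,[(3,75049),(1,151),(0,259)]) (32,[(3,6222),(1,9),(2,25)]) (164616,[(1,28633),(0,139224),(2,116231)]))) (.leaf false ⟨⟨-348,-96,1⟩,⟨36,-127,336⟩,⟨89,-324,-132⟩⟩ (11,[(2,723),(4,6420),(0,8)]) (132,[(2,55655),(4,36396),(0,127)]) (11,[(2,951),(4,7769),(0,27)]))) (.leaf false ⟨⟨-336,1,-132⟩,⟨-127,96,324⟩,⟨-36,-348,89⟩⟩ (11,[(1,1040),(0,28),(2,9061)]) (132,[(1,54071),(0,127),(2,28476)]) (11,[(1,1246),(0,3),(2,4800)]))) (.node ⟨-19,114,-342⟩ (.node ⟨-342,-19,114⟩ (.node ⟨-114,114,-323⟩ (.leaf false ⟨⟨-342,-19,114⟩,⟨-114,114,-323⟩,⟨-19,-342,-114⟩⟩ (1,[(1,1)]) (1,[(0,1)]) (6,[(3,361),(0,1),(4,2166)])) (.leaf false ⟨⟨-359,-36,-12⟩,⟨12,-216,289⟩,⟨36,-287,-216⟩⟩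 (361,[(2,20501),(1,5790),(0,19650)]) (361,[(2,40698),(1,10914),(0,39563)]) (361,[(2,122094),(1,32381),(0,117606)]))) (.leaf false ⟨⟨-342,-114,-19⟩,⟨-19,114,-342⟩,⟨114,-323,-114⟩⟩ (6,[(4,2394),(3,703),(0,1)]) (1,[(1,1)]) (1,[(4,228),(3,342),(0,1)]))) (.leaf false ⟨⟨-359,-36,-12⟩,⟨12,-216,289⟩,⟨36,-287,-216⟩⟩ (19,[(1,2280),(3,6935),(0,6)]) (19,[(1,6821),(3,456),(0,36)]) (114,[(1,122778),(3,1349),(0,287)])))))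
theorem h361_ok : h361.check (ok 361 4 ⟨3, 3, 3⟩) (fun _ r => r) [] = true := by decide +kernel

def h367 : T := .node ⟨1,0,0⟩ (.node ⟨0,1,0⟩ (.node ⟨0,0,1⟩ (.node ⟨-182,78,309⟩ (.node ⟨-182,318,21⟩ (.node ⟨21,358,-78⟩ (.leaf false ⟨⟨-182,78,309⟩,⟨21,358,-78⟩,⟨318,21,182⟩⟩ (1,[(2,1)]) (1,[(0,1)]) (26,[(3,2569),(5,9542),(2,7)])) (.leaf false ⟨⟨-318,21,182⟩,⟨21,-358,78⟩,⟨182,78,309⟩⟩ (32322,[(5,3084247),(1,66794),(0,57435)]) (1,[(5,42),(0,1)]) (26,[(5,6895),(4,38902),(0,103)]))) (.leaf false ⟨⟨-155,42,330⟩,⟨210,-270,133⟩,⟨258,245,90⟩⟩ (17472,[(3,546384),(1,18935),(0,4055)]) (936,[(3,213360),(1,511),(0,1591)]) (2912,[(3,2316784),(1,1211),(0,5339)]))) (.leaf false ⟨⟨21,358,78⟩,⟨182,-78,309⟩,⟨318,21,-182⟩⟩ (26,[(1,2955),(0,3),(2,9542)]) (1,[(1,618),(0,1)])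 (91,[(1,32569),(0,159),(2,14313)]))) (.node ⟨-78,357,-34⟩ (.node ⟨69,-162,-322⟩ (.node ⟨358,69,42⟩ (.leaf false ⟨⟨-74,357,-42⟩,⟨42,-34,-363⟩,⟨357,78,34⟩⟩ (1,[(3,8),(5,4),(2,1)]) (23,[(3,3841),(1,14),(4,1486)]) (21,[(5,1411),(0,17),(4,465)])) (.leaf false ⟨⟨-363,-2,-54⟩,⟨2,366,-27⟩,⟨54,-27,-362⟩⟩ (7,[(5,681),(4,607),(0,9)]) (14,[(5,3250),(4,5745),(0,9)]) (21,[(5,65932),(4,11922),(0,181)]))) (.leaf false ⟨⟨-126,318,133⟩,⟨-43,126,-342⟩,⟨342,133,6⟩⟩ (27,[(2,13475),(4,255),(0,53)]) (9,[(2,5332),(4,96),(0,7)]) (162,[(2,41854),(4,64581),(0,133)]))) (.leaf false ⟨⟨34,-42,-363⟩,⟨78,357,-34⟩,⟨357,-74,42⟩⟩ (39,[(1,14735),(0,17),(2,4431)]) (1,[(1,68),(0,1),(2,714)]) (26,[(1,2954),(0,119),(2,40559)])))) (.node ⟨0,0,1⟩ (.node ⟨-78,-34,357⟩ (.node ⟨69,-322,-162⟩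 (.node ⟨358,42,69⟩ (.leaf false ⟨⟨-74,-42,357⟩,⟨42,-363,-34⟩,⟨357,34,78⟩⟩ (1,[(5,4),(4,8),(2,1)]) (23,[(3,1486),(1,14),(4,3841)]) (21,[(3,465),(0,17),(5,1411)])) (.leaf false ⟨⟨-363,-54,-2⟩,⟨2,-27,366⟩,⟨54,-362,-27⟩⟩ (7,[(3,607),(5,681),(0,9)]) (14,[(3,5745),(5,3250),(0,9)]) (21,[(3,11922),(5,65932),(0,181)]))) (.leaf false ⟨⟨-126,-43,342⟩,⟨133,-342,6⟩,⟨318,126,133⟩⟩ (9,[(4,177),(3,6505),(0,19)]) (27,[(4,3660),(3,9556),(0,1)]) (162,[(4,60693),(3,22414),(0,133)]))) (.leaf false ⟨⟨34,-363,-42⟩,⟨78,-34,357⟩,⟨357,42,-74⟩⟩ (39,[(1,4431),(0,17),(2,14735)]) (1,[(1,714),(0,1),(2,68)]) (26,[(1,40559),(0,119),(2,2954)]))) (.node ⟨362,-27,54⟩ (.node ⟨-27,-362,54⟩ (.leaf false ⟨⟨-27,-366,-2⟩,⟨54,-2,-363⟩,⟨362,-27,54⟩⟩ (181,[(2,10244),(4,54),(0,183)]) (27,[(2,9909),(4,734),(1,2)])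 (1,[(1,1)])) (.node ⟨78,357,-34⟩ (.leaf false ⟨⟨34,-42,-363⟩,⟨78,357,-34⟩,⟨357,-74,42⟩⟩ (27,[(3,7965),(1,34),(4,13442)]) (1,[(0,1)]) (362,[(3,4074),(2,357),(4,17149)])) (.leaf false ⟨⟨-331,-78,-138⟩,⟨78,198,-299⟩,⟨138,-299,-162⟩⟩ (200980,[(1,1667040),(2,64531),(0,1729419)]) (1607840,[(1,37431780),(2,5451951),(0,36651959)]) (40196,[(1,718756),(2,123987),(0,753111)])))) (.leaf false ⟨⟨-330,-75,-142⟩,⟨110,-342,-75⟩,⟨117,110,-330⟩⟩ (27,[(3,16792),(2,3942),(0,71)]) (18,[(3,11030),(2,6831),(0,25)]) (9,[(3,20963),(2,495),(0,55)]))))) (.node ⟨0,1,0⟩ (.node ⟨0,0,1⟩ (.node ⟨-34,357,-78⟩ (.node ⟨-322,-162,69⟩ (.node ⟨42,69,358⟩ (.leaf false ⟨⟨-363,-34,42⟩,⟨-42,357,-74⟩,⟨34,78,357⟩⟩ (23,[(1,14),(5,3841),(4,1486)]) (1,[(3,4),(5,8),(2,1)]) (21,[(3,1411),(4,465),(0,17)]))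 (.leaf false ⟨⟨-363,-42,-34⟩,⟨-42,74,357⟩,⟨-34,357,-78⟩⟩ (14,[(3,42842),(0,121),(4,7761)]) (1,[(3,715),(0,1),(4,143)]) (21,[(3,4448),(0,17),(4,8670)]))) (.leaf false ⟨⟨-363,42,34⟩,⟨34,357,-78⟩,⟨42,74,357⟩⟩ (27,[(2,1401),(4,12055),(0,7)]) (54,[(2,3999),(4,36482),(0,119)]) (81,[(2,31470),(4,8512),(0,37)]))) (.leaf false ⟨⟨-363,-42,34⟩,⟨-34,357,78⟩,⟨42,-74,357⟩⟩ (39,[(3,14735),(2,4431),(0,17)]) (1,[(3,68),(2,714),(0,1)]) (26,[(3,2954),(2,40559),(0,119)]))) (.node ⟨-27,362,54⟩ (.node ⟨-362,-27,54⟩ (.leaf false ⟨⟨-366,-27,-2⟩,⟨-27,362,54⟩,⟨-2,54,-363⟩⟩ (181,[(2,10244),(0,183),(3,54)]) (1,[(1,1)]) (27,[(2,9909),(1,2),(3,734)])) (.node ⟨357,78,-34⟩ (.leaf false ⟨⟨-74,357,42⟩,⟨-42,34,-363⟩,⟨357,78,-34⟩⟩ (362,[(3,4074),(5,17149),(2,357)]) (27,[(3,7965),(5,13442),(1,34)])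 (1,[(0,1)])) (.leaf false ⟨⟨-366,-27,-2⟩,⟨-27,362,54⟩,⟨-2,54,-363⟩⟩ (100490,[(2,65913),(1,363330),(0,466457)]) (1,[(2,1)]) (1607840,[(2,7133679),(1,48700900),(0,48852471)])))) (.leaf false ⟨⟨-363,-2,-54⟩,⟨2,366,-27⟩,⟨54,-27,-362⟩⟩ (1,[(3,390),(2,360),(0,1)]) (2,[(3,23),(2,1094),(0,1)]) (27,[(3,3429),(2,64793),(0,181)])))) (.node ⟨0,0,1⟩ (.node ⟨-27,54,362⟩ (.node ⟨-362,54,-27⟩ (.leaf false ⟨⟨-366,-2,-27⟩,⟨-27,54,362⟩,⟨-2,-363,54⟩⟩ (181,[(2,54),(0,183),(3,10244)]) (1,[(1,1)]) (27,[(2,734),(1,2),(3,9909)])) (.node ⟨357,-34,78⟩ (.leaf false ⟨⟨-74,42,357⟩,⟨-42,-363,34⟩,⟨357,-34,78⟩⟩ (362,[(2,357),(5,17149),(4,4074)]) (27,[(5,13442),(4,7965),(1,34)]) (1,[(0,1)])) (.leaf false ⟨⟨-366,-2,-27⟩,⟨-27,54,362⟩,⟨-2,-363,54⟩⟩ (100490,[(2,65913),(0,466457),(1,363330)])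 (1,[(2,1)]) (1607840,[(2,7133679),(0,48852471),(1,48700900)])))) (.leaf false ⟨⟨-363,-54,-2⟩,⟨2,-27,366⟩,⟨54,-362,-27⟩⟩ (1,[(1,360),(3,390),(0,1)]) (2,[(1,1094),(3,23),(0,1)]) (27,[(1,64793),(3,3429),(0,181)]))) (.leaf false ⟨⟨-367,0,0⟩,⟨0,-367,0⟩,⟨0,0,-367⟩⟩ (1,[(2,367)]) (1,[(1,367)]) (1,[(0,367)]))))
theorem h367_ok : h367.check (ok 367 4 ⟨3, 3, 3⟩) (fun _ r => r) [] = true := by decide +kernel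

def h373 : T := .node ⟨1,0,0⟩ (.node ⟨0,1,0⟩ (.node ⟨0,0,1⟩ (.leaf false ⟨⟨0,0,373⟩,⟨0,373,0⟩,⟨373,0,0⟩⟩ (1,[(0,373)]) (1,[(1,373)]) (1,[(2,373)])) (.node ⟨-108,356,-27⟩ (.node ⟨-275,0,-252⟩ (.leaf false ⟨⟨-275,0,-252⟩,⟨0,373,0⟩,⟨252,0,-275⟩⟩ (1,[(0,1)]) (1,[(3,373)]) (252,[(4,139129),(0,275)])) (.node ⟨365,-60,48⟩ (.leaf false ⟨⟨48,360,85⟩,⟨60,77,-360⟩,⟨365,-60,48⟩⟩ (2225,[(3,70669),(1,1272),(2,2250)]) (97900,[(3,42150627),(1,29676),(2,21175)]) (1,[(0,1)])) (.leaf false ⟨⟨-347,108,-84⟩,⟨36,293,228⟩,⟨132,204,-283⟩⟩ (55,[(3,15492),(1,62),(0,99)]) (3300,[(3,3972972),(1,21821),(0,16115)]) (275,[(3,378941),(1,1373),(0,935)])))) (.leaf false ⟨⟨60,365,-48⟩,⟨77,-60,-360⟩,⟨360,-48,85⟩⟩ (9,[(1,567),(0,5),(2,5065)]) (108,[(1,40959),(0,77),(2,20932)])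 (3,[(1,15),(0,10),(2,3416)])))) (.node ⟨0,0,1⟩ (.node ⟨-108,-27,356⟩ (.node ⟨-275,-252,0⟩ (.leaf false ⟨⟨-275,-252,0⟩,⟨0,0,373⟩,⟨252,-275,0⟩⟩ (1,[(0,1)]) (1,[(2,373)]) (252,[(4,139129),(0,275)])) (.node ⟨365,48,-60⟩ (.leaf false ⟨⟨48,85,360⟩,⟨60,-360,77⟩,⟨365,48,-60⟩⟩ (2225,[(4,70669),(2,2250),(1,1272)]) (97900,[(4,42150627),(2,21175),(1,29676)]) (1,[(0,1)])) (.leaf false ⟨⟨-347,-84,108⟩,⟨36,228,293⟩,⟨132,-283,204⟩⟩ (55,[(4,15492),(0,99),(1,62)]) (3300,[(4,3972972),(0,16115),(1,21821)]) (275,[(4,378941),(0,935),(1,1373)])))) (.leaf false ⟨⟨60,-48,365⟩,⟨77,-360,-60⟩,⟨360,85,-48⟩⟩ (9,[(1,5065),(0,5),(2,567)]) (108,[(1,20932),(0,77),(2,40959)]) (3,[(1,3416),(0,10),(2,15)]))) (.node ⟨0,252,-275⟩ (.leaf false ⟨⟨0,-275,-252⟩,⟨0,252,-275⟩,⟨373,0,0⟩⟩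 (275,[(0,252),(2,139129)]) (1,[(0,1)]) (1,[(3,373)])) (.leaf false ⟨⟨0,-275,252⟩,⟨0,-252,-275⟩,⟨373,0,0⟩⟩ (252,[(1,12121),(0,275)]) (1,[(1,550),(0,1)]) (1,[(3,373)]))))) (.node ⟨0,1,0⟩ (.node ⟨0,0,1⟩ (.node ⟨-27,356,-108⟩ (.node ⟨-252,0,-275⟩ (.leaf false ⟨⟨-275,0,252⟩,⟨-252,0,-275⟩,⟨0,373,0⟩⟩ (252,[(2,139129),(0,275)]) (1,[(0,1)]) (1,[(3,373)])) (.node ⟨48,-60,365⟩ (.leaf false ⟨⟨-360,77,60⟩,⟨48,-60,365⟩,⟨85,360,48⟩⟩ (97900,[(5,42150627),(2,21175),(1,29676)]) (1,[(0,1)]) (2225,[(5,70669),(2,2250),(1,1272)])) (.leaf false ⟨⟨-360,60,77⟩,⟨48,365,-60⟩,⟨85,48,360⟩⟩ (275,[(5,197184),(0,275),(1,442)]) (132,[(5,216444),(0,803),(1,1037)]) (275,[(5,130369),(0,220),(1,652)])))) (.leaf false ⟨⟨-360,-60,77⟩,⟨-48,365,60⟩,⟨85,-48,360⟩⟩ (108,[(3,40959),(2,20932),(0,77)])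 (9,[(3,567),(2,5065),(0,5)]) (3,[(3,15),(2,3416),(0,10)]))) (.node ⟨252,0,-275⟩ (.leaf false ⟨⟨-275,0,-252⟩,⟨0,373,0⟩,⟨252,0,-275⟩⟩ (275,[(3,139129),(0,252)]) (1,[(2,373)]) (1,[(0,1)])) (.leaf false ⟨⟨-275,0,252⟩,⟨-252,0,-275⟩,⟨0,373,0⟩⟩ (252,[(1,12121),(0,275)]) (1,[(1,550),(0,1)]) (1,[(2,373)])))) (.node ⟨0,0,1⟩ (.node ⟨252,-275,0⟩ (.leaf false ⟨⟨-275,-252,0⟩,⟨0,0,373⟩,⟨252,-275,0⟩⟩ (275,[(3,139129),(0,252)]) (1,[(1,373)]) (1,[(0,1)])) (.leaf false ⟨⟨-275,252,0⟩,⟨-252,-275,0⟩,⟨0,0,373⟩⟩ (252,[(0,275),(2,12121)]) (1,[(0,1),(2,550)]) (1,[(1,373)]))) (.node ⟨-339,-48,148⟩ (.node ⟨141,-328,-108⟩ (.node ⟨-148,48,-339⟩ (.leaf false ⟨⟨-312,-171,112⟩,⟨-148,48,-339⟩,⟨141,-328,-108⟩⟩ (37,[(5,2052),(2,28),(4,4983)]) (1,[(0,1)]) (1,[(1,1)])) (.leaf false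 ⟨⟨-372,-24,13⟩,⟨13,-312,-204⟩,⟨24,-203,312⟩⟩ (2,[(3,313),(5,892),(0,1)]) (2,[(3,4815),(5,1898),(0,13)]) (48,[(3,53841),(5,28892),(0,203)]))) (.leaf false ⟨⟨-336,-112,117⟩,⟨-147,324,-112⟩,⟨-68,-147,-336⟩⟩ (47,[(2,6597),(0,112),(3,42000)]) (47,[(2,10556),(0,49),(3,844)]) (141,[(2,54720),(0,68),(3,43031)]))) (.leaf false ⟨⟨-204,13,-312⟩,⟨13,-372,-24⟩,⟨312,24,-203⟩⟩ (37,[(3,33990),(2,3263),(0,78)]) (37,[(3,1553),(2,14052),(0,6)]) (148,[(3,22641),(2,6192),(0,203)])))))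
theorem h373_ok : h373.check (ok 373 4 ⟨3, 3, 3⟩) (fun _ r => r) [] = true := by decide +kernel

def h377 : T := .node ⟨1,0,0⟩ (.node ⟨0,1,0⟩ (.node ⟨0,0,1⟩ (.leaf false ⟨⟨0,0,377⟩,⟨0,377,0⟩,⟨377,0,0⟩⟩ (1,[(0,377)]) (1,[(1,377)]) (1,[(2,377)])) (.node ⟨-135,0,-352⟩ (.leaf false ⟨⟨-135,0,-352⟩,⟨0,377,0⟩,⟨352,0,-135⟩⟩ (1,[(0,1)]) (1,[(2,377)]) (352,[(3,142129),(0,135)])) (.leaf false ⟨⟨0,377,0⟩,⟨145,0,-348⟩,⟨348,0,145⟩⟩ (1,[(2,377)]) (27,[(1,19604),(0,29)]) (45,[(1,34307),(0,116)])))) (.node ⟨0,0,1⟩ (.node ⟨-135,-352,0⟩ (.leaf false ⟨⟨-135,-352,0⟩,⟨0,0,377⟩,⟨352,-135,0⟩⟩ (1,[(0,1)]) (1,[(1,377)]) (352,[(3,142129),(0,135)])) (.leaf false ⟨⟨0,0,377⟩,⟨145,-348,0⟩,⟨348,145,0⟩⟩ (1,[(1,377)]) (27,[(0,29),(2,19604)]) (45,[(0,116),(2,34307)]))) (.node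 ⟨273,-156,208⟩ (.node ⟨-108,-296,-207⟩ (.node ⟨233,108,-276⟩ (.leaf false ⟨⟨-108,-296,-207⟩,⟨233,108,-276⟩,⟨276,-207,152⟩⟩ (1,[(1,1)]) (1,[(0,1)]) (824,[(0,63),(2,841),(1,156)])) (.leaf false ⟨⟨-332,-156,-87⟩,⟨-24,-143,348⟩,⟨177,-312,-116⟩⟩ (9,[(3,4371),(5,41),(0,13)]) (108,[(3,1884),(5,30727),(0,143)]) (9,[(3,8220),(5,7651),(0,26)]))) (.leaf false ⟨⟨44,-312,-207⟩,⟨228,-143,264⟩,⟨297,156,-172⟩⟩ (27,[(2,7866),(0,11),(3,11680)]) (9,[(2,1557),(0,19),(3,6911)]) (4,[(2,2965),(0,11),(3,2632)]))) (.leaf false ⟨⟨-224,-12,-303⟩,⟨132,-343,-84⟩,⟨273,156,-208⟩⟩ (208,[(3,36127),(2,49764),(0,303)]) (52,[(3,12597),(2,21112),(0,21)]) (1,[(3,546),(0,1)]))))) (.node ⟨0,1,0⟩ (.node ⟨0,0,1⟩ (.node ⟨-352,-135,0⟩ (.leaf false ⟨⟨-352,-135,0⟩,⟨-135,352,0⟩,⟨0,0,377⟩⟩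 (1,[(0,1)]) (352,[(0,135),(2,142129)]) (1,[(1,377)])) (.leaf false ⟨⟨-348,145,0⟩,⟨0,0,377⟩,⟨145,348,0⟩⟩ (27,[(3,19604),(0,29)]) (1,[(1,377)]) (45,[(3,34307),(0,116)]))) (.node ⟨-156,273,208⟩ (.node ⟨-296,-108,-207⟩ (.node ⟨108,233,-276⟩ (.leaf false ⟨⟨-296,-108,-207⟩,⟨-207,276,152⟩,⟨108,233,-276⟩⟩ (1,[(1,1)]) (824,[(1,156),(2,841),(0,63)]) (1,[(0,1)])) (.leaf false ⟨⟨-348,-143,24⟩,⟨-116,312,177⟩,⟨-87,156,-332⟩⟩ (9,[(3,7788),(0,29),(4,5470)]) (27,[(3,3225),(0,29),(4,15181)]) (36,[(3,19956),(0,29),(4,12373)]))) (.leaf false ⟨⟨-348,100,105⟩,⟨0,273,-260⟩,⟨145,240,252⟩⟩ (27,[(2,2340),(4,16796),(0,25)]) (36,[(2,28197),(4,26936),(0,91)]) (9,[(2,1872),(4,4615),(0,20)]))) (.leaf false ⟨⟨-343,132,-84⟩,⟨-12,-224,-303⟩,⟨156,273,-208⟩⟩ (52,[(3,21112),(2,12597),(0,21)])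 (208,[(3,49764),(2,36127),(0,303)]) (1,[(2,546),(0,1)])))) (.node ⟨0,0,1⟩ (.node ⟨-156,208,273⟩ (.node ⟨-296,-207,-108⟩ (.node ⟨108,-276,233⟩ (.leaf false ⟨⟨-296,-207,-108⟩,⟨-207,152,276⟩,⟨108,-276,233⟩⟩ (1,[(1,1)]) (824,[(2,841),(1,156),(0,63)]) (1,[(0,1)])) (.leaf false ⟨⟨-348,24,-143⟩,⟨-116,177,312⟩,⟨-87,-332,156⟩⟩ (9,[(3,5470),(0,29),(4,7788)]) (27,[(3,15181),(0,29),(4,3225)]) (36,[(3,12373),(0,29),(4,19956)]))) (.leaf false ⟨⟨-348,-100,105⟩,⟨0,273,260⟩,⟨145,-240,252⟩⟩ (36,[(4,22888),(3,10845),(0,35)]) (27,[(4,19240),(3,6084),(0,65)]) (3,[(4,1637),(3,2169),(0,7)]))) (.leaf false ⟨⟨-343,-84,132⟩,⟨-12,-303,-224⟩,⟨156,-208,273⟩⟩ (52,[(1,12597),(3,21112),(0,21)]) (208,[(1,36127),(3,49764),(0,303)]) (1,[(1,546),(0,1)]))) (.node ⟨-116,192,-303⟩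 (.node ⟨-348,-87,116⟩ (.node ⟨172,-303,-144⟩ (.leaf false ⟨⟨-348,-87,116⟩,⟨-144,172,-303⟩,⟨17,-324,-192⟩⟩ (1,[(1,1)]) (1,[(2,1),(5,28),(4,20)]) (101,[(3,3840),(5,16859),(0,108)])) (.leaf false ⟨⟨-348,17,144⟩,⟨-116,192,-303⟩,⟨-87,-324,-172⟩⟩ (43,[(3,6336),(0,87),(4,25630)]) (43,[(3,17205),(0,29),(4,531)]) (172,[(3,42112),(0,87),(4,82089)]))) (.leaf false ⟨⟨-348,-116,-87⟩,⟨17,192,-324⟩,⟨144,-303,-172⟩⟩ (4,[(4,2436),(3,725),(0,3)]) (29,[(4,27695),(3,1479),(0,81)]) (29,[(4,10788),(3,12528),(0,43)]))) (.leaf false ⟨⟨-368,-39,-72⟩,⟨-39,-208,312⟩,⟨72,-312,-199⟩⟩ (64,[(1,8547),(3,25060),(0,13)]) (12,[(1,195),(3,1976),(0,13)]) (8,[(1,5531),(3,932),(0,13)])))))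
theorem h377_ok : h377.check (ok 377 4 ⟨3, 3, 3⟩) (fun _ r => r) [] = true := by decide +kernel

def h379 : T := .node ⟨1,0,0⟩ (.node ⟨0,1,0⟩ (.node ⟨0,0,1⟩ (.node ⟨-231,198,226⟩ (.node ⟨198,249,-206⟩ (.node ⟨-231,278,114⟩ (.leaf false ⟨⟨-231,278,114⟩,⟨198,249,-206⟩,⟨226,66,297⟩⟩ (1,[(0,1)]) (1,[(1,1)]) (3,[(3,665),(5,909),(2,1)])) (.leaf false ⟨⟨-231,198,226⟩,⟨114,-206,297⟩,⟨278,249,66⟩⟩ (1,[(2,1)]) (9328,[(1,4176),(2,33459),(0,34483)]) (1749,[(1,3109),(2,6179),(0,5619)]))) (.leaf false ⟨⟨-234,9,298⟩,⟨26,378,9⟩,⟨297,-26,234⟩⟩ (103,[(4,5400),(3,38028),(0,149)]) (206,[(4,7138),(3,80109),(0,9)]) (103,[(4,53757),(3,26455),(0,117)]))) (.leaf false ⟨⟨9,26,378⟩,⟨234,297,-26⟩,⟨298,-234,9⟩⟩ (77,[(1,29784),(0,3),(2,2596)]) (77,[(1,15626),(0,78),(2,38313)])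 (231,[(1,69427),(0,298),(2,4950)]))) (.node ⟨-114,114,-343⟩ (.node ⟨249,206,198⟩ (.node ⟨278,-114,-231⟩ (.leaf false ⟨⟨-66,297,-226⟩,⟨249,206,198⟩,⟨278,-114,-231⟩⟩ (19,[(3,521),(4,4389),(2,11)]) (1,[(1,1)]) (1,[(0,1)])) (.leaf false ⟨⟨-327,154,-114⟩,⟨46,282,249⟩,⟨186,201,-262⟩⟩ (57,[(3,24285),(5,2767),(0,77)]) (19,[(3,6126),(5,13940),(0,47)]) (38,[(3,25433),(5,25694),(0,67)]))) (.leaf false ⟨⟨-278,-114,-231⟩,⟨66,297,-226⟩,⟨249,-206,-198⟩⟩ (6,[(4,75),(3,758),(0,7)]) (99,[(4,34671),(3,52681),(0,113)]) (1,[(4,498),(0,1)]))) (.leaf false ⟨⟨9,206,-318⟩,⟨98,306,201⟩,⟨366,-87,-46⟩⟩ (38,[(1,13113),(0,3),(2,8170)]) (57,[(1,5350),(0,49),(2,23028)]) (19,[(1,21797),(0,61),(2,5301)])))) (.node ⟨0,0,1⟩ (.node ⟨-114,-343,114⟩ (.node ⟨249,198,206⟩ (.node ⟨278,-231,-114⟩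 (.leaf false ⟨⟨-66,-226,297⟩,⟨249,198,206⟩,⟨278,-231,-114⟩⟩ (19,[(3,4389),(4,521),(2,11)]) (1,[(1,1)]) (1,[(0,1)])) (.leaf false ⟨⟨-327,-114,154⟩,⟨46,249,282⟩,⟨186,-262,201⟩⟩ (57,[(5,2767),(4,24285),(0,77)]) (19,[(5,13940),(4,6126),(0,47)]) (38,[(5,25694),(4,25433),(0,67)]))) (.leaf false ⟨⟨-278,-231,-114⟩,⟨66,-226,297⟩,⟨249,-198,-206⟩⟩ (6,[(2,758),(4,75),(0,7)]) (99,[(2,52681),(4,34671),(0,113)]) (1,[(4,498),(0,1)]))) (.leaf false ⟨⟨9,-318,206⟩,⟨98,201,306⟩,⟨366,-46,-87⟩⟩ (38,[(1,8170),(0,3),(2,13113)]) (57,[(1,23028),(0,49),(2,5350)]) (19,[(1,5301),(0,61),(2,21797)]))) (.node ⟨-135,-350,-54⟩ (.node ⟨-135,-10,-354⟩ (.node ⟨10,54,-375⟩ (.leaf false ⟨⟨-135,-350,-54⟩,⟨10,54,-375⟩,⟨354,-135,-10⟩⟩ (1,[(2,1)]) (1,[(0,1)]) (27,[(5,10233),(4,1895),(2,5)]))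 (.leaf false ⟨⟨-318,-206,9⟩,⟨46,-87,-366⟩,⟨201,-306,98⟩⟩ (3811,[(5,636982),(0,12169),(1,12794)]) (18,[(3,17463),(5,1118),(0,29)]) (3,[(3,6081),(5,773),(0,17)]))) (.leaf false ⟨⟨-98,-366,9⟩,⟨201,-46,318⟩,⟨306,-87,-206⟩⟩ (4590,[(2,232062),(0,1511),(1,4843)]) (765,[(2,201036),(0,1276),(1,137)]) (1020,[(2,1127268),(0,2641),(1,329)]))) (.leaf false ⟨⟨26,9,-378⟩,⟨234,-298,9⟩,⟨297,234,26⟩⟩ (135,[(1,52434),(0,26),(2,7885)]) (15,[(1,1269),(0,26),(2,13570)]) (5,[(1,464),(0,11),(2,2680)]))))) (.node ⟨0,1,0⟩ (.node ⟨0,0,1⟩ (.node ⟨-343,-114,114⟩ (.node ⟨198,249,206⟩ (.node ⟨-231,278,-114⟩ (.leaf false ⟨⟨-231,278,-114⟩,⟨-226,-66,297⟩,⟨198,249,206⟩⟩ (1,[(0,1)]) (19,[(3,4389),(2,11),(5,521)]) (1,[(1,1)])) (.leaf false ⟨⟨-378,9,26⟩,⟨9,-298,234⟩,⟨26,234,297⟩⟩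 (57,[(5,24549),(4,4127),(0,13)]) (19,[(5,8838),(4,5180),(0,39)]) (38,[(5,21881),(4,36414),(0,99)]))) (.leaf false ⟨⟨-343,-114,-114⟩,⟨-114,-18,361⟩,⟨-114,361,-18⟩⟩ (198,[(2,48086),(0,343),(3,62835)]) (33,[(2,15827),(0,19),(3,4137)]) (33,[(2,3320),(0,19),(3,16644)]))) (.leaf false ⟨⟨-375,46,30⟩,⟨30,345,-154⟩,⟨46,150,345⟩⟩ (57,[(1,4332),(3,29264),(0,23)]) (38,[(1,7258),(3,38305),(0,115)]) (19,[(1,9405),(3,7701),(0,25)]))) (.node ⟨-54,-135,-350⟩ (.node ⟨-354,-135,-10⟩ (.node ⟨-375,10,54⟩ (.leaf false ⟨⟨-375,10,54⟩,⟨-54,-135,-350⟩,⟨-10,354,-135⟩⟩ (1,[(0,1)]) (1,[(2,1)]) (27,[(3,1895),(2,5),(4,10233)])) (.leaf false ⟨⟨-375,-10,-54⟩,⟨10,354,-135⟩,⟨54,-135,-350⟩⟩ (1,[(5,750),(0,1)]) (2,[(5,1855),(4,758),(0,5)]) (719,[(1,379),(5,1548258),(0,4590)])))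 (.leaf false ⟨⟨-354,73,-114⟩,⟨89,366,-42⟩,⟨102,-66,-359⟩⟩ (2295,[(1,806),(4,1493544),(0,2047)]) (1530,[(1,311),(4,1425522),(0,4459)]) (3060,[(1,3187),(4,114396),(0,1691)]))) (.leaf false ⟨⟨-378,26,9⟩,⟨9,234,-298⟩,⟨26,297,234⟩⟩ (135,[(1,7885),(3,52434),(0,26)]) (15,[(1,13570),(3,1269),(0,26)]) (5,[(1,2680),(3,464),(0,11)])))) (.node ⟨0,0,1⟩ (.node ⟨-54,-350,-135⟩ (.node ⟨-354,-10,-135⟩ (.node ⟨-375,54,10⟩ (.leaf false ⟨⟨-375,54,10⟩,⟨-54,-350,-135⟩,⟨-10,-135,354⟩⟩ (1,[(0,1)]) (1,[(2,1)]) (27,[(3,10233),(2,5),(4,1895)])) (.leaf false ⟨⟨-375,-54,-10⟩,⟨10,-135,354⟩,⟨54,-350,-135⟩⟩ (1,[(5,750),(0,1)]) (2,[(3,758),(5,1855),(0,5)]) (719,[(5,1548258),(1,379),(0,4590)]))) (.leaf false ⟨⟨-354,-114,73⟩,⟨89,-42,366⟩,⟨102,-359,-66⟩⟩ (2295,[(4,1493544),(1,806),(0,2047)])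 (1530,[(4,1425522),(1,311),(0,4459)]) (3060,[(4,114396),(1,3187),(0,1691)]))) (.leaf false ⟨⟨-378,9,26⟩,⟨9,-298,234⟩,⟨26,234,297⟩⟩ (135,[(3,52434),(2,7885),(0,26)]) (15,[(3,1269),(2,13570),(0,26)]) (5,[(3,464),(2,2680),(0,11)]))) (.leaf false ⟨⟨-379,0,0⟩,⟨0,-379,0⟩,⟨0,0,-379⟩⟩ (1,[(2,379)]) (1,[(1,379)]) (1,[(0,379)]))))
theorem h379_ok : h379.check (ok 379 4 ⟨3, 3, 3⟩) (fun _ r => r) [] = true := by decide +kernel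

def h383 : T := .node ⟨1,0,0⟩ (.node ⟨0,1,0⟩ (.node ⟨0,0,1⟩ (.node ⟨-203,138,294⟩ (.node ⟨66,357,-122⟩ (.leaf false ⟨⟨-203,138,294⟩,⟨66,357,-122⟩,⟨318,14,213⟩⟩ (1,[(1,1)]) (1,[(0,1)]) (51,[(2,11107),(4,16086),(0,2)])) (.leaf false ⟨⟨-203,66,318⟩,⟨138,357,14⟩,⟨294,-122,213⟩⟩ (20299,[(4,261972),(1,20263),(0,4080)]) (21,[(4,3101),(3,7359),(1,1)]) (122,[(4,49926),(3,61157),(0,213)]))) (.leaf false ⟨⟨14,138,357⟩,⟨213,294,-122⟩,⟨318,-203,66⟩⟩ (29,[(1,10941),(0,2),(2,4278)]) (203,[(1,37856),(0,213),(2,89076)]) (203,[(1,106890),(0,318),(2,2675)]))) (.node ⟨-59,18,-378⟩ (.node ⟨-59,378,18⟩ (.node ⟨378,58,21⟩ (.leaf false ⟨⟨-59,378,18⟩,⟨18,21,-382⟩,⟨378,58,21⟩⟩ (1,[(1,1)]) (18,[(3,6894),(5,383),(1,1)]) (1,[(0,1)])) (.leaf false ⟨⟨-374,78,-27⟩,⟨-27,-234,-302⟩,⟨78,293,-234⟩⟩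 (383,[(5,111070),(1,178),(0,645)]) (3447,[(5,21058106),(1,6301),(0,54972)]) (2298,[(5,12376645),(1,6575),(0,31242)]))) (.node ⟨-6,-347,-162⟩ (.leaf false ⟨⟨-27,162,-346⟩,⟨-6,-347,-162⟩,⟨382,6,-27⟩⟩ (189,[(5,5104),(4,27504),(2,173)]) (1,[(0,1)]) (2,[(5,587),(4,1146),(1,3)])) (.leaf false ⟨⟨-58,21,-378⟩,⟨21,382,18⟩,⟨378,-18,-59⟩⟩ (153491,[(2,155824),(1,4332),(0,5925)]) (153491,[(2,123274),(1,145279),(0,320836)]) (5525676,[(2,21953951),(1,51766055),(0,54965232)])))) (.leaf false ⟨⟨21,18,-382⟩,⟨58,378,21⟩,⟨378,-59,18⟩⟩ (59,[(1,30476),(0,21),(2,1440)]) (59,[(1,20685),(0,58),(2,23346)]) (59,[(1,141822),(0,378),(2,3323)])))) (.node ⟨0,0,1⟩ (.node ⟨-59,-378,18⟩ (.node ⟨-59,18,378⟩ (.node ⟨378,21,58⟩ (.leaf false ⟨⟨-59,18,378⟩,⟨18,-382,21⟩,⟨378,21,58⟩⟩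 (1,[(1,1)]) (18,[(5,383),(4,6894),(1,1)]) (1,[(0,1)])) (.leaf false ⟨⟨-374,-27,78⟩,⟨-27,-302,-234⟩,⟨78,-234,293⟩⟩ (383,[(5,111070),(0,645),(1,178)]) (3447,[(5,21058106),(0,54972),(1,6301)]) (2298,[(5,12376645),(0,31242),(1,6575)]))) (.node ⟨-6,-162,-347⟩ (.leaf false ⟨⟨-27,-346,162⟩,⟨-6,-162,-347⟩,⟨382,-27,6⟩⟩ (189,[(3,27504),(5,5104),(2,173)]) (1,[(0,1)]) (2,[(3,1146),(5,587),(1,3)])) (.leaf false ⟨⟨-58,-378,21⟩,⟨21,18,382⟩,⟨378,-59,-18⟩⟩ (153491,[(1,4332),(2,155824),(0,5925)]) (153491,[(1,145279),(2,123274),(0,320836)]) (5525676,[(1,51766055),(2,21953951),(0,54965232)])))) (.leaf false ⟨⟨21,-382,18⟩,⟨58,21,378⟩,⟨378,18,-59⟩⟩ (59,[(1,1440),(0,21),(2,30476)]) (59,[(1,23346),(0,58),(2,20685)]) (59,[(1,3323),(0,378),(2,141822)]))) (.node ⟨246,213,-202⟩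 (.node ⟨-102,-139,-342⟩ (.node ⟨202,-318,69⟩ (.leaf false ⟨⟨-102,-139,-342⟩,⟨202,-318,69⟩,⟨309,162,-158⟩⟩ (1,[(1,1)]) (1,[(0,1)]) (71,[(3,310),(2,54),(5,8655)])) (.leaf false ⟨⟨-342,85,-150⟩,⟨50,-270,-267⟩,⟨165,258,-230⟩⟩ (23,[(5,2234),(4,13945),(0,50)]) (23,[(5,19128),(4,34512),(0,89)]) (3,[(5,2515),(4,2406),(0,10)]))) (.leaf false ⟨⟨18,-274,-267⟩,⟨246,213,-202⟩,⟨293,-162,186⟩⟩ (17,[(2,5565),(0,3),(3,5075)]) (17,[(2,17456),(0,41),(3,2078)]) (102,[(2,81234),(0,293),(3,57251)]))) (.leaf false ⟨⟨-283,-258,6⟩,⟨78,-94,-363⟩,⟨246,-267,122⟩⟩ (71,[(1,16946),(3,1063),(0,86)]) (213,[(1,96307),(3,39738),(0,94)]) (71,[(1,9316),(3,39360),(0,89)]))))) (.node ⟨0,1,0⟩ (.node ⟨0,0,1⟩ (.node ⟨-378,-59,18⟩ (.node ⟨18,-59,378⟩ (.node ⟨21,378,58⟩ (.leaf false ⟨⟨-382,18,21⟩,⟨18,-59,378⟩,⟨21,378,58⟩⟩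 (18,[(5,6894),(4,383),(1,1)]) (1,[(1,1)]) (1,[(0,1)])) (.leaf false ⟨⟨-378,-58,21⟩,⟨-59,378,-18⟩,⟨18,21,382⟩⟩ (766,[(4,6119191),(1,2485),(0,15918)]) (3447,[(4,5546606),(1,1522),(0,10989)]) (1149,[(4,97282),(1,1163),(0,12)]))) (.node ⟨-162,-6,-347⟩ (.leaf false ⟨⟨-346,-27,162⟩,⟨-162,-6,-347⟩,⟨-27,382,6⟩⟩ (189,[(3,27504),(2,173),(4,5104)]) (1,[(0,1)]) (2,[(3,1146),(1,3),(4,587)])) (.leaf false ⟨⟨-382,-27,-6⟩,⟨-27,346,162⟩,⟨-6,162,-347⟩⟩ (1381419,[(2,1786084),(1,1049497),(0,1026720)]) (613964,[(2,2356271),(1,5347671),(0,5989824)]) (35421,[(2,36479),(1,123815),(0,97563)])))) (.leaf false ⟨⟨-382,21,18⟩,⟨18,378,-59⟩,⟨21,58,378⟩⟩ (59,[(1,1440),(3,30476),(0,21)]) (59,[(1,3323),(3,141822),(0,378)]) (59,[(1,23346),(3,20685),(0,58)]))) (.node ⟨213,246,-202⟩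 (.node ⟨-139,-102,-342⟩ (.node ⟨-318,202,69⟩ (.leaf false ⟨⟨-318,202,69⟩,⟨-139,-102,-342⟩,⟨162,309,-158⟩⟩ (1,[(0,1)]) (1,[(1,1)]) (71,[(3,310),(4,8655),(2,54)])) (.leaf false ⟨⟨-374,78,-27⟩,⟨-27,-234,-302⟩,⟨78,293,-234⟩⟩ (23,[(5,11464),(4,3612),(0,9)]) (69,[(5,97899),(4,44858),(0,302)]) (23,[(5,23010),(4,22495),(0,78)]))) (.leaf false ⟨⟨-342,85,150⟩,⟨-50,270,-267⟩,⟨165,258,230⟩⟩ (6,[(2,810),(4,2747),(0,5)]) (17,[(2,19929),(4,7105),(0,45)]) (17,[(2,10796),(4,3172),(0,43)]))) (.leaf false ⟨⟨-347,6,162⟩,⟨-162,-27,-346⟩,⟨-6,382,-27⟩⟩ (213,[(1,35588),(0,347),(2,86640)]) (71,[(1,35474),(0,54),(2,11367)]) (71,[(1,2321),(0,2),(2,27614)])))) (.node ⟨0,0,1⟩ (.node ⟨213,-202,246⟩ (.node ⟨-139,-342,-102⟩ (.node ⟨-318,69,202⟩ (.leaf false ⟨⟨-318,69,202⟩,⟨-139,-342,-102⟩,⟨162,-158,309⟩⟩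 (1,[(0,1)]) (1,[(1,1)]) (71,[(3,8655),(4,310),(2,54)])) (.leaf false ⟨⟨-374,-27,78⟩,⟨-27,-302,-234⟩,⟨78,-234,293⟩⟩ (23,[(3,3612),(5,11464),(0,9)]) (69,[(3,44858),(5,97899),(0,302)]) (23,[(3,22495),(5,23010),(0,78)]))) (.leaf false ⟨⟨-342,-50,165⟩,⟨85,270,258⟩,⟨150,-267,230⟩⟩ (34,[(4,19273),(3,20510),(0,55)]) (17,[(4,4532),(3,10116),(0,43)]) (51,[(4,8335),(3,52947),(0,115)]))) (.leaf false ⟨⟨-347,162,6⟩,⟨-162,-346,-27⟩,⟨-6,-27,382⟩⟩ (213,[(1,86640),(0,347),(2,35588)]) (71,[(1,11367),(0,54),(2,35474)]) (71,[(1,27614),(0,2),(2,2321)]))) (.leaf false ⟨⟨-383,0,0⟩,⟨0,-383,0⟩,⟨0,0,-383⟩⟩ (1,[(2,383)]) (1,[(1,383)]) (1,[(0,383)]))))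
theorem h383_ok : h383.check (ok 383 4 ⟨3, 3, 3⟩) (fun _ r => r) [] = true := by decide +kernel

def h389 : T := .node ⟨1,0,0⟩ (.node ⟨0,1,0⟩ (.node ⟨0,0,1⟩ (.leaf false ⟨⟨0,0,389⟩,⟨0,389,0⟩,⟨389,0,0⟩⟩ (1,[(0,389)]) (1,[(1,389)]) (1,[(2,389)])) (.node ⟨0,340,189⟩ (.leaf false ⟨⟨0,189,-340⟩,⟨0,340,189⟩,⟨389,0,0⟩⟩ (340,[(1,151321),(0,189)]) (1,[(0,1)]) (1,[(3,389)])) (.node ⟨-132,156,-331⟩ (.leaf false ⟨⟨-132,156,-331⟩,⟨196,-267,-204⟩,⟨309,236,-12⟩⟩ (1,[(0,1)]) (63,[(1,68),(4,12348),(3,6299)]) (63,[(1,4),(4,19467),(3,16228)])) (.leaf false ⟨⟨0,389,0⟩,⟨189,0,-340⟩,⟨340,0,189⟩⟩ (1,[(3,389)]) (8316,[(1,35813),(0,11907),(3,14033912)]) (6237,[(1,21898),(0,16065),(3,9951460)]))))) (.node ⟨0,0,1⟩ (.node ⟨0,189,340⟩ (.leaf false ⟨⟨0,-340,189⟩,⟨0,189,340⟩,⟨389,0,0⟩⟩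 (340,[(0,189),(2,151321)]) (1,[(0,1)]) (1,[(3,389)])) (.node ⟨-132,-331,156⟩ (.leaf false ⟨⟨-132,-331,156⟩,⟨196,-204,-267⟩,⟨309,-12,236⟩⟩ (1,[(0,1)]) (63,[(2,6299),(4,12348),(1,68)]) (63,[(2,16228),(4,19467),(1,4)])) (.leaf false ⟨⟨0,0,389⟩,⟨189,-340,0⟩,⟨340,189,0⟩⟩ (1,[(2,389)]) (8316,[(2,14033912),(0,11907),(1,35813)]) (6237,[(2,9951460),(0,16065),(1,21898)])))) (.node ⟨-99,-372,-56⟩ (.node ⟨-99,12,-376⟩ (.node ⟨372,61,-96⟩ (.leaf false ⟨⟨-99,12,-376⟩,⟨56,-384,-27⟩,⟨372,61,-96⟩⟩ (1,[(1,1)]) (56,[(5,5809),(4,11460),(2,27)]) (1,[(0,1)])) (.leaf false ⟨⟨-336,-196,-3⟩,⟨101,-168,-336⟩,⟨168,-291,196⟩⟩ (21784,[(5,21989781),(0,73732),(1,18999)]) (389,[(5,550435),(0,1200),(1,654)]) (5446,[(5,11267385),(0,26766),(1,3995)]))) (.leaf false ⟨⟨-75,-380,36⟩,⟨236,-75,-300⟩,⟨300,-36,245⟩⟩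 (528,[(2,1792),(0,135),(1,535)]) (124,[(2,35800),(4,31739),(1,25)]) (1,[(2,883),(4,3),(0,3)]))) (.leaf false ⟨⟨16,-36,-387⟩,⟨261,288,-16⟩,⟨288,-259,36⟩⟩ (99,[(1,39209),(0,16),(2,9516)]) (11,[(1,1800),(0,29),(2,7620)]) (11,[(1,1396),(0,32),(2,14753)]))))) (.node ⟨0,1,0⟩ (.node ⟨0,0,1⟩ (.node ⟨189,0,340⟩ (.leaf false ⟨⟨-340,0,189⟩,⟨0,389,0⟩,⟨189,0,340⟩⟩ (340,[(3,151321),(0,189)]) (1,[(2,389)]) (1,[(0,1)])) (.node ⟨-331,-132,156⟩ (.leaf false ⟨⟨-331,-132,156⟩,⟨-204,196,-267⟩,⟨-12,309,236⟩⟩ (1,[(0,1)]) (63,[(2,6299),(1,68),(3,12348)]) (63,[(2,16228),(1,4),(3,19467)])) (.leaf false ⟨⟨-387,16,-36⟩,⟨-16,261,288⟩,⟨36,288,-259⟩⟩ (6237,[(2,4685704),(1,14095),(0,756)]) (8316,[(2,14990456),(1,29501),(0,16443)]) (693,[(2,911825),(1,2516),(0,1512)])))) (.node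 ⟨-56,-99,-372⟩ (.node ⟨-376,-99,12⟩ (.node ⟨-96,372,61⟩ (.leaf false ⟨⟨-376,-99,12⟩,⟨-96,372,61⟩,⟨-27,56,-384⟩⟩ (1,[(1,1)]) (1,[(0,1)]) (56,[(3,11460),(2,27),(4,5809)])) (.leaf false ⟨⟨-387,-16,-36⟩,⟨16,261,-288⟩,⟨36,-288,-259⟩⟩ (21784,[(1,27063),(4,9093653),(0,18180)]) (2723,[(1,3334),(4,6067233),(0,13512)]) (5446,[(1,5667),(4,8009121),(0,24238)]))) (.leaf false ⟨⟨-372,56,-99⟩,⟨61,384,-12⟩,⟨96,-27,-376⟩⟩ (124,[(1,33),(4,44280),(3,10211)]) (1,[(4,315),(3,285),(0,1)]) (2196,[(1,2191),(3,69804),(0,887)]))) (.leaf false ⟨⟨-387,16,-36⟩,⟨-16,261,288⟩,⟨36,288,-259⟩⟩ (99,[(1,9516),(3,39209),(0,16)]) (11,[(1,7620),(3,1800),(0,29)]) (11,[(1,14753),(3,1396),(0,32)])))) (.node ⟨0,0,1⟩ (.node ⟨-56,-372,-99⟩ (.node ⟨-376,12,-99⟩ (.node ⟨-96,61,372⟩ (.leaf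 false ⟨⟨-376,12,-99⟩,⟨-96,61,372⟩,⟨-27,-384,56⟩⟩ (1,[(1,1)]) (1,[(0,1)]) (56,[(3,5809),(2,27),(4,11460)])) (.leaf false ⟨⟨-387,-36,-16⟩,⟨16,-288,261⟩,⟨36,-259,-288⟩⟩ (21784,[(3,9093653),(1,27063),(0,18180)]) (2723,[(3,6067233),(1,3334),(0,13512)]) (5446,[(3,8009121),(1,5667),(0,24238)]))) (.leaf false ⟨⟨-372,-99,56⟩,⟨61,-12,384⟩,⟨96,-376,-27⟩⟩ (124,[(2,10211),(4,44280),(1,33)]) (1,[(2,285),(4,315),(0,1)]) (2196,[(2,69804),(1,2191),(0,887)]))) (.leaf false ⟨⟨-387,-36,16⟩,⟨-16,288,261⟩,⟨36,-259,288⟩⟩ (99,[(3,39209),(2,9516),(0,16)]) (11,[(3,1800),(2,7620),(0,29)]) (11,[(3,1396),(2,14753),(0,32)]))) (.node ⟨-216,264,-187⟩ (.node ⟨216,-187,-264⟩ (.node ⟨-99,264,-268⟩ (.leaf false ⟨⟨-308,-216,-99⟩,⟨-99,264,-268⟩,⟨216,-187,-264⟩⟩ (8,[(5,3112),(4,1167),(1,3)])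 (1,[(0,1)]) (1,[(1,1)])) (.leaf false ⟨⟨-387,-36,-16⟩,⟨16,-288,261⟩,⟨36,-259,-288⟩⟩ (1210957,[(2,5556476),(0,4919827),(1,1131924)]) (10898613,[(2,12230549),(0,22040216),(1,2936088)]) (1210957,[(2,3171128),(0,2916980),(1,2036005)]))) (.leaf false ⟨⟨-308,-99,216⟩,⟨-216,264,-187⟩,⟨-99,-268,-264⟩⟩ (54,[(2,8664),(0,77),(3,19745)]) (1,[(1,1)]) (24,[(2,9240),(0,11),(3,8489)]))) (.leaf false ⟨⟨-336,-196,-3⟩,⟨101,-168,-336⟩,⟨168,-291,196⟩⟩ (66,[(1,9361),(3,32760),(0,49)]) (11,[(1,5005),(3,401),(0,7)]) (88,[(1,891),(3,6168),(0,97)])))))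
theorem h389_ok : h389.check (ok 389 4 ⟨3, 3, 3⟩) (fun _ r => r) [] = true := by decide +kernel

def h391 : T := .node ⟨1,0,0⟩ (.node ⟨0,1,0⟩ (.node ⟨0,0,1⟩ (.node ⟨-234,130,285⟩ (.node ⟨210,266,-195⟩ (.node ⟨285,-30,266⟩ (.leaf false ⟨⟨-166,285,210⟩,⟨210,266,-195⟩,⟨285,-30,266⟩⟩ (19,[(5,122),(4,3595),(2,14)]) (1,[(1,1)]) (1,[(0,1)])) (.leaf false ⟨⟨-387,54,14⟩,⟨14,189,-342⟩,⟨54,338,189⟩⟩ (5,[(3,2464),(5,630),(0,9)]) (10,[(3,13338),(5,18095),(0,63)]) (15,[(3,47789),(5,48975),(0,169)]))) (.leaf false ⟨⟨-246,-42,301⟩,⟨77,366,114⟩,⟨294,-131,222⟩⟩ (195,[(4,15240),(3,71876),(0,301)]) (65,[(4,12985),(3,33898),(0,38)]) (65,[(4,34650),(3,11169),(0,74)]))) (.leaf false ⟨⟨45,366,130⟩,⟨234,-130,285⟩,⟨310,45,-234⟩⟩ (26,[(1,4805),(0,5),(2,10166)]) (1,[(1,570),(0,1)])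 (117,[(1,16797),(0,155),(2,25415)]))) (.node ⟨-184,345,0⟩ (.leaf false ⟨⟨-184,345,0⟩,⟨0,0,-391⟩,⟨345,184,0⟩⟩ (1,[(0,1)]) (1,[(1,391)]) (15,[(3,6647),(0,8)])) (.leaf false ⟨⟨0,0,-391⟩,⟨184,345,0⟩,⟨345,-184,0⟩⟩ (1,[(1,391)]) (1,[(0,1),(2,690)]) (8,[(0,15),(2,3703)])))) (.node ⟨0,0,1⟩ (.node ⟨-184,0,345⟩ (.leaf false ⟨⟨-184,0,345⟩,⟨0,-391,0⟩,⟨345,0,184⟩⟩ (1,[(0,1)]) (1,[(2,391)]) (15,[(3,6647),(0,8)])) (.leaf false ⟨⟨0,-391,0⟩,⟨184,0,345⟩,⟨345,0,-184⟩⟩ (1,[(2,391)]) (1,[(1,690),(0,1)]) (8,[(1,3703),(0,15)]))) (.node ⟨-166,-339,-102⟩ (.node ⟨-3,114,-374⟩ (.leaf false ⟨⟨-166,-339,-102⟩,⟨-3,114,-374⟩,⟨354,-158,-51⟩⟩ (1,[(1,1)]) (1,[(0,1)]) (22,[(4,7797),(3,3818),(0,3)])) (.leaf false ⟨⟨-102,-374,-51⟩,⟨221,-102,306⟩,⟨306,-51,-238⟩⟩ (1173,[(2,588455),(0,1618),(1,750)])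 (19,[(2,544),(4,4148),(0,17)]) (38,[(2,15402),(4,11577),(0,17)]))) (.leaf false ⟨⟨0,0,-391⟩,⟨184,345,0⟩,⟨345,-184,0⟩⟩ (1,[(1,391)]) (83,[(1,9384),(0,92),(2,2553)]) (166,[(1,35190),(0,345),(2,147499)]))))) (.node ⟨0,1,0⟩ (.node ⟨0,0,1⟩ (.node ⟨0,-184,345⟩ (.leaf false ⟨⟨-391,0,0⟩,⟨0,-184,345⟩,⟨0,345,184⟩⟩ (1,[(3,391)]) (1,[(0,1)]) (15,[(0,8),(2,6647)])) (.leaf false ⟨⟨-391,0,0⟩,⟨0,184,345⟩,⟨0,345,-184⟩⟩ (1,[(3,391)]) (1,[(1,690),(0,1)]) (8,[(1,3703),(0,15)]))) (.node ⟨-102,-166,-339⟩ (.node ⟨-374,-3,114⟩ (.leaf false ⟨⟨-374,-3,114⟩,⟨-102,-166,-339⟩,⟨-51,354,-158⟩⟩ (1,[(0,1)]) (1,[(1,1)]) (22,[(2,3818),(0,3),(3,7797)])) (.leaf false ⟨⟨-354,-51,-158⟩,⟨-3,374,-114⟩,⟨166,-102,-339⟩⟩ (339,[(1,158),(4,103890),(3,8939)]) (1,[(4,377),(3,371),(0,1)]) (23069,[(1,17977),(3,585718),(0,15142)])))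 (.leaf false ⟨⟨-391,0,0⟩,⟨0,184,345⟩,⟨0,345,-184⟩⟩ (1,[(3,391)]) (83,[(1,2553),(3,9384),(0,92)]) (166,[(1,147499),(3,35190),(0,345)])))) (.node ⟨0,0,1⟩ (.node ⟨-102,-339,-166⟩ (.node ⟨-374,114,-3⟩ (.leaf false ⟨⟨-374,114,-3⟩,⟨-102,-339,-166⟩,⟨-51,-158,354⟩⟩ (1,[(0,1)]) (1,[(1,1)]) (22,[(2,7797),(0,3),(3,3818)])) (.leaf false ⟨⟨-354,-158,-51⟩,⟨-3,-114,374⟩,⟨166,-339,-102⟩⟩ (339,[(2,8939),(4,103890),(1,158)]) (1,[(2,371),(4,377),(0,1)]) (23069,[(2,585718),(1,17977),(0,15142)]))) (.leaf false ⟨⟨-391,0,0⟩,⟨0,-184,345⟩,⟨0,345,184⟩⟩ (1,[(3,391)]) (166,[(3,35190),(2,147499),(0,345)]) (83,[(3,9384),(2,2553),(0,92)]))) (.leaf false ⟨⟨-391,0,0⟩,⟨0,-391,0⟩,⟨0,0,-391⟩⟩ (1,[(2,391)]) (1,[(1,391)]) (1,[(0,391)]))))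
theorem h391_ok : h391.check (ok 391 4 ⟨3, 3, 3⟩) (fun _ r => r) [] = true := by decide +kernel

def h397 : T := .node ⟨1,0,0⟩ (.node ⟨0,1,0⟩ (.node ⟨0,0,1⟩ (.leaf false ⟨⟨0,0,397⟩,⟨0,397,0⟩,⟨397,0,0⟩⟩ (1,[(0,397)]) (1,[(1,397)]) (1,[(2,397)])) (.node ⟨-84,-28,-387⟩ (.leaf false ⟨⟨-84,-28,-387⟩,⟨-3,396,-28⟩,⟨388,-3,-84⟩⟩ (1,[(0,1)]) (387,[(3,1191),(2,154036),(0,28)]) (129,[(3,52404),(2,397),(0,28)])) (.node ⟨0,228,325⟩ (.leaf false ⟨⟨0,228,325⟩,⟨0,325,-228⟩,⟨397,0,0⟩⟩ (1,[(0,1)]) (228,[(2,157609),(0,325)]) (1,[(4,397)])) (.leaf false ⟨⟨0,397,0⟩,⟨228,0,325⟩,⟨325,0,-228⟩⟩ (1,[(3,397)]) (2275,[(0,5078),(1,6175),(3,984884)]) (27300,[(0,144927),(1,105625),(3,30085856)]))))) (.node ⟨0,0,1⟩ (.node ⟨-84,-387,-28⟩ (.leaf false ⟨⟨-84,-387,-28⟩,⟨-3,-28,396⟩,⟨388,-84,-3⟩⟩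 (1,[(0,1)]) (387,[(1,154036),(3,1191),(0,28)]) (129,[(1,397),(3,52404),(0,28)])) (.node ⟨0,325,228⟩ (.leaf false ⟨⟨0,-228,325⟩,⟨0,325,228⟩,⟨397,0,0⟩⟩ (228,[(0,325),(3,157609)]) (1,[(0,1)]) (1,[(4,397)])) (.leaf false ⟨⟨0,0,397⟩,⟨228,325,0⟩,⟨325,-228,0⟩⟩ (1,[(2,397)]) (2275,[(2,984884),(1,6175),(0,5078)]) (27300,[(2,30085856),(1,105625),(0,144927)])))) (.node ⟨48,-368,141⟩ (.node ⟨368,48,141⟩ (.node ⟨132,69,-368⟩ (.leaf false ⟨⟨69,-388,-48⟩,⟨132,69,-368⟩,⟨368,48,141⟩⟩ (16,[(3,1191),(1,3),(4,6352)]) (1,[(0,1)]) (1,[(1,1)])) (.leaf false ⟨⟨-315,-240,28⟩,⟨80,-147,-360⟩,⟨228,-280,165⟩⟩ (6352,[(3,9268759),(1,3315),(0,24400)]) (1588,[(3,2641241),(1,2077),(0,4828)]) (4764,[(3,11557861),(1,13173),(0,28496)]))) (.leaf false ⟨⟨-288,-108,-251⟩,⟨48,-379,108⟩,⟨269,-48,-288⟩⟩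 (2152,[(2,352340),(1,405),(0,1737)]) (8608,[(2,315084),(1,8861),(0,33)]) (1,[(2,147),(4,637),(0,1)]))) (.leaf false ⟨⟨-123,-64,-372⟩,⟨244,-312,-27⟩,⟨288,237,-136⟩⟩ (47,[(3,171),(2,48640),(0,124)]) (47,[(3,11900),(2,17976),(0,9)]) (141,[(3,47136),(2,16631),(0,136)]))))) (.node ⟨0,1,0⟩ (.node ⟨0,0,1⟩ (.node ⟨-387,-84,-28⟩ (.leaf false ⟨⟨-387,-84,-28⟩,⟨-84,388,-3⟩,⟨-28,-3,396⟩⟩ (1,[(0,1)]) (129,[(1,397),(0,28),(2,52404)]) (387,[(1,154036),(0,28),(2,1191)])) (.node ⟨325,0,228⟩ (.leaf false ⟨⟨-228,0,325⟩,⟨0,397,0⟩,⟨325,0,228⟩⟩ (228,[(4,157609),(0,325)]) (1,[(3,397)]) (1,[(0,1)])) (.leaf false ⟨⟨-388,48,69⟩,⟨-48,141,-368⟩,⟨69,368,132⟩⟩ (175,[(2,84059),(0,328),(1,100)]) (9100,[(2,677024),(0,19533),(1,15275)]) (1365,[(2,1570208),(0,6831),(1,5980)]))))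 (.node ⟨-368,48,141⟩ (.node ⟨48,368,141⟩ (.node ⟨69,132,-368⟩ (.leaf false ⟨⟨-388,69,-48⟩,⟨48,368,141⟩,⟨69,132,-368⟩⟩ (16,[(3,1191),(5,6352),(1,3)]) (1,[(1,1)]) (1,[(0,1)])) (.leaf false ⟨⟨-396,-27,8⟩,⟨-27,332,-216⟩,⟨-8,216,333⟩⟩ (6352,[(3,20035399),(0,48144),(1,16803)]) (794,[(3,723731),(0,1078),(1,1103)]) (2382,[(3,100441),(0,1664),(1,1995)]))) (.leaf false ⟨⟨-379,48,108⟩,⟨-108,-288,-251⟩,⟨-48,269,-288⟩⟩ (8608,[(2,315084),(0,33),(1,8861)]) (2152,[(2,352340),(0,1737),(1,405)]) (1,[(2,147),(0,1),(3,637)]))) (.leaf false ⟨⟨-312,244,-27⟩,⟨-64,-123,-372⟩,⟨237,288,-136⟩⟩ (47,[(3,17976),(2,11900),(0,9)]) (47,[(3,48640),(2,171),(0,124)]) (141,[(3,16631),(2,47136),(0,136)])))) (.node ⟨0,0,1⟩ (.node ⟨141,-368,48⟩ (.node ⟨141,48,368⟩ (.node ⟨-368,69,132⟩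 (.leaf false ⟨⟨-368,69,132⟩,⟨-48,-388,69⟩,⟨141,48,368⟩⟩ (1,[(0,1)]) (16,[(5,1191),(4,6352),(1,3)]) (1,[(1,1)])) (.leaf false ⟨⟨-379,-108,-48⟩,⟨48,-288,269⟩,⟨108,-251,-288⟩⟩ (397,[(5,469651),(0,780),(1,228)]) (6352,[(5,16938799),(0,39632),(1,18859)]) (4764,[(5,7178951),(0,19636),(1,3315)]))) (.leaf false ⟨⟨-288,-48,269⟩,⟨-251,-108,-288⟩,⟨108,-379,48⟩⟩ (1,[(2,637),(4,147),(0,1)]) (2152,[(4,352340),(0,1737),(1,405)]) (8608,[(4,315084),(0,33),(1,8861)]))) (.leaf false ⟨⟨-372,-64,-123⟩,⟨-136,237,288⟩,⟨-27,-312,244⟩⟩ (47,[(1,171),(0,124),(2,48640)]) (141,[(1,47136),(0,136),(2,16631)]) (47,[(1,11900),(0,9),(2,17976)]))) (.node ⟨-28,84,-387⟩ (.node ⟨-388,-3,84⟩ (.leaf false ⟨⟨-396,-3,28⟩,⟨-28,84,-387⟩,⟨-3,-388,-84⟩⟩ (2723,[(2,156418),(1,2),(0,2779)])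 (1,[(1,1)]) (28,[(2,1191),(1,3),(3,11116)])) (.leaf false ⟨⟨-388,-84,-3⟩,⟨-3,28,-396⟩,⟨84,-387,-28⟩⟩ (28,[(4,11252),(3,2355),(0,1)]) (1965,[(1,388),(4,2895719),(0,7476)]) (3,[(4,136),(3,1164),(0,1)]))) (.leaf false ⟨⟨-396,-3,-28⟩,⟨-3,-388,84⟩,⟨28,-84,-387⟩⟩ (28,[(1,1171),(3,11116),(0,1)]) (21,[(1,35775),(3,2779),(0,97)]) (1,[(1,774),(0,1)])))))
theorem h397_ok : h397.check (ok 397 4 ⟨3, 3, 3⟩) (fun _ r => r) [] = true := by decide +kernel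

def h401 : T := .node ⟨1,0,0⟩ (.node ⟨0,1,0⟩ (.node ⟨0,0,1⟩ (.leaf false ⟨⟨0,0,401⟩,⟨0,401,0⟩,⟨401,0,0⟩⟩ (1,[(0,401)]) (1,[(1,401)]) (1,[(2,401)])) (.node ⟨-84,84,-383⟩ (.node ⟨384,-111,-32⟩ (.node ⟨113,384,24⟩ (.leaf false ⟨⟨-24,32,-399⟩,⟨113,384,24⟩,⟨384,-111,-32⟩⟩ (7,[(3,2027),(4,56),(2,2)]) (1,[(0,1)]) (1,[(1,1)])) (.leaf false ⟨⟨-392,9,-84⟩,⟨9,-392,-84⟩,⟨84,84,-383⟩⟩ (2,[(5,7),(4,2706),(0,7)]) (2,[(5,809),(4,1904),(0,7)]) (24,[(5,45295),(4,149088),(0,383)]))) (.leaf false ⟨⟨-364,144,-87⟩,⟨108,41,-384⟩,⟨129,372,76⟩⟩ (37,[(2,4755),(4,4964),(0,48)]) (111,[(2,43936),(4,27732),(0,41)]) (37,[(2,1156),(4,52389),(0,124)]))) (.leaf false ⟨⟨9,168,-364⟩,⟨168,329,156⟩,⟨364,-156,-63⟩⟩ (28,[(1,11341),(0,3),(2,4956)]) (1,[(1,610),(0,2),(2,497)]) (3,[(1,5168),(0,13),(2,624)]))))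 (.node ⟨0,0,1⟩ (.node ⟨-84,-383,84⟩ (.node ⟨384,-32,-111⟩ (.node ⟨113,24,384⟩ (.leaf false ⟨⟨-24,-399,32⟩,⟨113,24,384⟩,⟨384,-32,-111⟩⟩ (7,[(3,56),(4,2027),(2,2)]) (1,[(0,1)]) (1,[(1,1)])) (.leaf false ⟨⟨-392,-84,9⟩,⟨9,-84,-392⟩,⟨84,-383,84⟩⟩ (2,[(3,2706),(5,7),(0,7)]) (2,[(3,1904),(5,809),(0,7)]) (24,[(3,149088),(5,45295),(0,383)]))) (.leaf false ⟨⟨-364,-87,144⟩,⟨108,-384,41⟩,⟨129,76,372⟩⟩ (37,[(4,4964),(3,4755),(0,48)]) (111,[(4,27732),(3,43936),(0,41)]) (37,[(4,52389),(3,1156),(0,124)]))) (.leaf false ⟨⟨9,-364,168⟩,⟨168,156,329⟩,⟨364,-63,-156⟩⟩ (28,[(1,4956),(0,3),(2,11341)]) (1,[(1,497),(0,2),(2,610)]) (3,[(1,624),(0,13),(2,5168)]))) (.node ⟨0,40,-399⟩ (.leaf false ⟨⟨0,-399,-40⟩,⟨0,40,-399⟩,⟨401,0,0⟩⟩ (399,[(0,40),(2,160801)]) (1,[(0,1)])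 (1,[(3,401)])) (.leaf false ⟨⟨0,-399,40⟩,⟨0,-40,-399⟩,⟨401,0,0⟩⟩ (40,[(1,157601),(0,399)]) (1,[(1,798),(0,1)]) (1,[(3,401)]))))) (.node ⟨0,1,0⟩ (.node ⟨0,0,1⟩ (.node ⟨-383,-84,84⟩ (.node ⟨-32,384,-111⟩ (.node ⟨24,113,384⟩ (.leaf false ⟨⟨-399,-24,32⟩,⟨-32,384,-111⟩,⟨24,113,384⟩⟩ (7,[(3,56),(2,2),(5,2027)]) (1,[(1,1)]) (1,[(0,1)])) (.leaf false ⟨⟨-399,0,40⟩,⟨-40,0,-399⟩,⟨0,401,0⟩⟩ (8,[(3,51392),(0,133),(4,15029)]) (3,[(3,723),(0,5),(4,565)]) (1,[(4,401)]))) (.leaf false ⟨⟨-399,-32,24⟩,⟨-24,384,113⟩,⟨32,-111,384⟩⟩ (37,[(4,15019),(3,1888),(0,8)]) (111,[(4,6280),(3,86016),(0,113)]) (37,[(4,2912),(3,45045),(0,128)]))) (.leaf false ⟨⟨-392,24,81⟩,⟨-24,337,-216⟩,⟨81,216,328⟩⟩ (7,[(1,735),(3,3510),(0,2)]) (84,[(1,10164),(3,131087),(0,337)]) (7,[(1,3808),(3,6327),(0,18)])))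 (.node ⟨40,0,-399⟩ (.leaf false ⟨⟨-399,0,-40⟩,⟨0,401,0⟩,⟨40,0,-399⟩⟩ (399,[(3,160801),(0,40)]) (1,[(2,401)]) (1,[(0,1)])) (.leaf false ⟨⟨-399,0,40⟩,⟨-40,0,-399⟩,⟨0,401,0⟩⟩ (40,[(1,157601),(0,399)]) (1,[(1,798),(0,1)]) (1,[(2,401)])))) (.node ⟨0,0,1⟩ (.node ⟨40,-399,0⟩ (.leaf false ⟨⟨-399,-40,0⟩,⟨0,0,401⟩,⟨40,-399,0⟩⟩ (399,[(3,160801),(0,40)]) (1,[(1,401)]) (1,[(0,1)])) (.leaf false ⟨⟨-399,40,0⟩,⟨-40,-399,0⟩,⟨0,0,401⟩⟩ (40,[(0,399),(2,157601)]) (1,[(0,1),(2,798)]) (1,[(1,401)]))) (.node ⟨-24,113,-384⟩ (.node ⟨-384,113,24⟩ (.node ⟨-383,84,84⟩ (.leaf false ⟨⟨-399,24,32⟩,⟨-32,-384,-111⟩,⟨-24,113,-384⟩⟩ (383,[(3,21260),(0,399),(4,24324)]) (12,[(3,1356),(1,1),(4,4721)]) (1,[(2,1)])) (.leaf false ⟨⟨-399,-24,-32⟩,⟨24,113,-384⟩,⟨32,-384,-111⟩⟩ (5766,[(1,11443),(4,972299),(0,5466)])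 (961,[(1,6044),(4,60299),(0,6120)]) (7688,[(1,13275),(4,3280299),(0,13952)]))) (.leaf false ⟨⟨-384,-111,-32⟩,⟨24,32,-399⟩,⟨113,-384,-24⟩⟩ (12,[(1,1),(4,4584),(3,1445)]) (2056,[(1,2120),(3,144275),(0,261)]) (1,[(4,271),(3,271),(0,1)]))) (.leaf false ⟨⟨-400,-15,-24⟩,⟨-15,-176,360⟩,⟨24,-360,-175⟩⟩ (113,[(1,8472),(3,45560),(0,15)]) (113,[(1,26904),(3,5919),(0,176)]) (113,[(1,158015),(3,5928),(0,360)])))))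
theorem h401_ok : h401.check (ok 401 4 ⟨3, 3, 3⟩) (fun _ r => r) [] = true := by decide +kernel

def h403 : T := .node ⟨1,0,0⟩ (.node ⟨0,1,0⟩ (.node ⟨0,0,1⟩ (.node ⟨-90,-47,390⟩ (.node ⟨385,-90,78⟩ (.leaf false ⟨⟨-90,-47,390⟩,⟨78,390,65⟩,⟨385,-90,78⟩⟩ (1,[(1,1)]) (6,[(4,558),(3,2387),(1,1)]) (1,[(0,1)])) (.leaf false ⟨⟨-390,78,65⟩,⟨65,390,-78⟩,⟨78,65,390⟩⟩ (2418,[(4,130975),(0,2575),(1,918)]) (403,[(4,785850),(0,1903),(1,300)]) (403,[(4,293384),(0,560),(1,515)]))) (.node ⟨394,-78,33⟩ (.leaf false ⟨⟨33,286,282⟩,⟨78,273,-286⟩,⟨394,-78,33⟩⟩ (30,[(2,12750),(1,11),(3,8063)]) (15,[(2,780),(1,13),(3,3484)]) (1,[(0,1)])) (.leaf false ⟨⟨-394,78,33⟩,⟨33,286,-282⟩,⟨78,273,286⟩⟩ (1,[(2,66),(0,1)]) (9623,[(4,12849047),(1,4186),(0,32762)]) (2,[(2,803),(4,2914),(0,7)]))))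 (.node ⟨321,162,182⟩ (.node ⟨-142,369,-78⟩ (.leaf false ⟨⟨-142,369,-78⟩,⟨198,2,-351⟩,⟨321,162,182⟩⟩ (1,[(0,1)]) (81,[(2,28613),(4,15717),(1,1)]) (1,[(1,1)])) (.leaf false ⟨⟨33,398,-54⟩,⟨174,-63,-358⟩,⟨362,-6,177⟩⟩ (107,[(2,7780),(1,11),(3,40804)]) (71,[(2,32204),(0,87),(3,27630)]) (71,[(2,1551),(0,181),(3,66363)]))) (.leaf false ⟨⟨-330,65,-222⟩,⟨97,390,-30⟩,⟨210,-78,-335⟩⟩ (91,[(3,5601),(2,23897),(0,111)]) (91,[(3,13642),(2,37920),(0,15)]) (182,[(3,145755),(2,40074),(0,335)])))) (.node ⟨0,0,1⟩ (.node ⟨321,182,162⟩ (.node ⟨-142,-78,369⟩ (.leaf false ⟨⟨-142,-78,369⟩,⟨198,-351,2⟩,⟨321,182,162⟩⟩ (1,[(0,1)]) (81,[(1,1),(4,15717),(3,28613)]) (1,[(1,1)])) (.leaf false ⟨⟨33,-54,398⟩,⟨174,-358,-63⟩,⟨362,177,-6⟩⟩ (107,[(2,40804),(1,11),(3,7780)]) (71,[(2,27630),(0,87),(3,32204)])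 (71,[(2,66363),(0,181),(3,1551)]))) (.leaf false ⟨⟨-330,-222,65⟩,⟨97,-30,390⟩,⟨210,-335,-78⟩⟩ (91,[(1,23897),(3,5601),(0,111)]) (91,[(1,37920),(3,13642),(0,15)]) (182,[(1,40074),(3,145755),(0,335)]))) (.node ⟨-155,-372,0⟩ (.leaf false ⟨⟨-155,-372,0⟩,⟨0,0,-403⟩,⟨372,-155,0⟩⟩ (1,[(0,1)]) (1,[(1,403)]) (12,[(3,5239),(0,5)])) (.node ⟨330,210,97⟩ (.leaf false ⟨⟨6,-63,-398⟩,⟨177,358,-54⟩,⟨362,-174,33⟩⟩ (55,[(2,21987),(0,1),(3,3675)]) (155,[(2,8370),(1,177),(3,10354)]) (165,[(2,12112),(0,181),(3,66720)])) (.leaf false ⟨⟨-366,-47,-162⟩,⟨97,258,-294⟩,⟨138,-306,-223⟩⟩ (15035,[(1,17958),(3,2113921),(0,25110)]) (15035,[(1,106429),(3,26142858),(0,45570)]) (15035,[(1,86976),(3,29697132),(0,34565)])))))) (.node ⟨0,1,0⟩ (.node ⟨0,0,1⟩ (.node ⟨182,162,321⟩ (.node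 ⟨-78,369,-142⟩ (.leaf false ⟨⟨-351,2,198⟩,⟨-78,369,-142⟩,⟨182,162,321⟩⟩ (81,[(2,15717),(4,28613),(1,1)]) (1,[(0,1)]) (1,[(1,1)])) (.leaf false ⟨⟨-394,33,78⟩,⟨33,-282,286⟩,⟨78,286,273⟩⟩ (71,[(4,31016),(3,16734),(0,39)]) (71,[(4,8811),(3,32745),(0,143)]) (107,[(4,8216),(3,15860),(1,91)]))) (.leaf false ⟨⟨-351,-198,2⟩,⟨-182,321,-162⟩,⟨-78,142,369⟩⟩ (14,[(1,8695),(0,27),(2,1602)]) (1,[(1,159),(0,1),(2,483)]) (7,[(1,3546),(0,3),(2,1480)]))) (.node ⟨0,-155,-372⟩ (.leaf false ⟨⟨-403,0,0⟩,⟨0,-155,-372⟩,⟨0,372,-155⟩⟩ (1,[(3,403)]) (1,[(0,1)]) (12,[(0,5),(2,5239)])) (.node ⟨97,330,210⟩ (.leaf false ⟨⟨-398,6,-63⟩,⟨-54,177,358⟩,⟨33,362,-174⟩⟩ (55,[(2,3675),(4,21987),(0,1)]) (155,[(2,10354),(4,8370),(1,177)]) (165,[(2,66720),(4,12112),(0,181)])) (.leaf false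 ⟨⟨-390,-78,65⟩,⟨-90,385,-78⟩,⟨-47,-90,-390⟩⟩ (15035,[(2,31390073),(0,60450),(1,121134)]) (3007,[(2,4636794),(0,2790),(1,13409)]) (3007,[(2,1371192),(0,1457),(1,1356)]))))) (.node ⟨0,0,1⟩ (.node ⟨0,-372,-155⟩ (.leaf false ⟨⟨-403,0,0⟩,⟨0,-372,-155⟩,⟨0,-155,372⟩⟩ (1,[(3,403)]) (1,[(0,1)]) (12,[(1,5239),(0,5)])) (.node ⟨97,210,330⟩ (.leaf false ⟨⟨-398,-63,6⟩,⟨-54,358,177⟩,⟨33,-174,362⟩⟩ (55,[(4,21987),(3,3675),(0,1)]) (155,[(1,177),(4,8370),(3,10354)]) (165,[(4,12112),(3,66720),(0,181)])) (.leaf false ⟨⟨-390,65,-78⟩,⟨-90,-78,385⟩,⟨-47,-390,-90⟩⟩ (15035,[(1,121134),(0,60450),(3,31390073)]) (3007,[(1,13409),(0,2790),(3,4636794)]) (3007,[(1,1356),(0,1457),(3,1371192)])))) (.leaf false ⟨⟨-403,0,0⟩,⟨0,-403,0⟩,⟨0,0,-403⟩⟩ (1,[(2,403)]) (1,[(1,403)]) (1,[(0,403)]))))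
theorem h403_ok : h403.check (ok 403 4 ⟨3, 3, 3⟩) (fun _ r => r) [] = true := by decide +kernel

def h409 : T := .node ⟨1,0,0⟩ (.node ⟨0,1,0⟩ (.node ⟨0,0,1⟩ (.leaf false ⟨⟨0,0,409⟩,⟨0,409,0⟩,⟨409,0,0⟩⟩ (1,[(0,409)]) (1,[(1,409)]) (1,[(2,409)])) (.node ⟨-216,320,-135⟩ (.node ⟨96,-72,-391⟩ (.node ⟨384,121,72⟩ (.leaf false ⟨⟨-103,384,-96⟩,⟨96,-72,-391⟩,⟨384,121,72⟩⟩ (45,[(5,2277),(4,7040),(2,32)]) (1,[(1,1)]) (1,[(0,1)])) (.leaf false ⟨⟨-392,36,-111⟩,⟨81,364,-168⟩,⟨84,-183,-356⟩⟩ (24,[(5,4800),(4,5341),(0,37)]) (3,[(5,2931),(4,1939),(0,7)]) (18,[(5,35688),(4,7475),(0,89)]))) (.leaf false ⟨⟨-264,264,-167⟩,⟨121,288,264⟩,⟨288,121,-264⟩⟩ (3,[(2,4802),(4,264),(0,11)]) (1,[(2,1300),(4,505),(0,4)]) (72,[(2,66319),(4,32352),(0,121)]))) (.leaf false ⟨⟨72,-96,-391⟩,⟨121,384,-72⟩,⟨384,-103,96⟩⟩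 (3,[(1,1308),(0,1),(2,32)]) (216,[(1,31887),(0,121),(2,121664)]) (9,[(1,1296),(0,16),(2,4193)])))) (.node ⟨0,0,1⟩ (.node ⟨-216,-135,320⟩ (.node ⟨96,-391,-72⟩ (.node ⟨384,72,121⟩ (.leaf false ⟨⟨-103,-96,384⟩,⟨96,-391,-72⟩,⟨384,72,121⟩⟩ (45,[(3,7040),(5,2277),(2,32)]) (1,[(1,1)]) (1,[(0,1)])) (.leaf false ⟨⟨-392,-111,36⟩,⟨81,-168,364⟩,⟨84,-356,-183⟩⟩ (24,[(3,5341),(5,4800),(0,37)]) (3,[(3,1939),(5,2931),(0,7)]) (18,[(3,7475),(5,35688),(0,89)]))) (.leaf false ⟨⟨-264,-167,264⟩,⟨121,264,288⟩,⟨288,-264,121⟩⟩ (3,[(4,264),(3,4802),(0,11)]) (1,[(4,505),(3,1300),(0,4)]) (72,[(4,32352),(3,66319),(0,121)]))) (.leaf false ⟨⟨72,-391,-96⟩,⟨121,-72,384⟩,⟨384,96,-103⟩⟩ (3,[(1,32),(0,1),(2,1308)]) (216,[(1,121664),(0,121),(2,31887)]) (9,[(1,4193),(0,16),(2,1296)])))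 (.node ⟨0,120,-391⟩ (.leaf false ⟨⟨0,-391,-120⟩,⟨0,120,-391⟩,⟨409,0,0⟩⟩ (391,[(0,120),(2,167281)]) (1,[(0,1)]) (1,[(3,409)])) (.leaf false ⟨⟨0,-391,120⟩,⟨0,-120,-391⟩,⟨409,0,0⟩⟩ (120,[(1,138481),(0,391)]) (1,[(1,782),(0,1)]) (1,[(3,409)]))))) (.node ⟨0,1,0⟩ (.node ⟨0,0,1⟩ (.node ⟨-135,320,-216⟩ (.node ⟨-391,-72,96⟩ (.node ⟨72,121,384⟩ (.leaf false ⟨⟨-391,-72,96⟩,⟨-96,384,-103⟩,⟨72,121,384⟩⟩ (1,[(1,1)]) (45,[(3,2277),(2,32),(4,7040)]) (1,[(0,1)])) (.leaf false ⟨⟨-391,0,120⟩,⟨-120,0,-391⟩,⟨0,409,0⟩⟩ (72,[(3,158784),(0,391),(4,47311)]) (3,[(3,747),(0,5),(4,605)]) (1,[(4,409)]))) (.leaf false ⟨⟨-391,72,-96⟩,⟨-72,121,384⟩,⟨96,384,-103⟩⟩ (1,[(4,782),(0,1)]) (72,[(2,39264),(4,52495),(0,121)]) (3,[(2,1227),(4,5968),(0,16)]))) (.leaf false ⟨⟨-391,-96,72⟩,⟨-72,384,121⟩,⟨96,-103,384⟩⟩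 (3,[(3,1308),(2,32),(0,1)]) (216,[(3,31887),(2,121664),(0,121)]) (9,[(3,1296),(2,4193),(0,16)]))) (.node ⟨120,0,-391⟩ (.leaf false ⟨⟨-391,0,-120⟩,⟨0,409,0⟩,⟨120,0,-391⟩⟩ (391,[(3,167281),(0,120)]) (1,[(2,409)]) (1,[(0,1)])) (.leaf false ⟨⟨-391,0,120⟩,⟨-120,0,-391⟩,⟨0,409,0⟩⟩ (120,[(1,138481),(0,391)]) (1,[(1,782),(0,1)]) (1,[(2,409)])))) (.node ⟨0,0,1⟩ (.node ⟨120,-391,0⟩ (.leaf false ⟨⟨-391,-120,0⟩,⟨0,0,409⟩,⟨120,-391,0⟩⟩ (391,[(3,167281),(0,120)]) (1,[(1,409)]) (1,[(0,1)])) (.leaf false ⟨⟨-391,120,0⟩,⟨-120,-391,0⟩,⟨0,0,409⟩⟩ (120,[(0,391),(2,138481)]) (1,[(0,1),(2,782)]) (1,[(1,409)]))) (.node ⟨-84,140,-375⟩ (.node ⟨-384,-15,140⟩ (.leaf false ⟨⟨-400,-15,84⟩,⟨-84,140,-375⟩,⟨-15,-384,-140⟩⟩ (2751,[(2,165236),(1,12),(0,2863)]) (1,[(1,1)]) (28,[(2,2045),(1,5),(3,11452)]))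 (.leaf false ⟨⟨-391,-72,-96⟩,⟨72,121,-384⟩,⟨96,-384,-103⟩⟩ (35,[(4,22901),(3,2880),(0,24)]) (5,[(1,4),(4,456),(0,3)]) (140,[(4,26112),(3,55305),(0,103)]))) (.leaf false ⟨⟨-400,-15,-84⟩,⟨-15,-384,140⟩,⟨84,-140,-375⟩⟩ (28,[(1,3477),(3,11452),(0,3)]) (35,[(1,31100),(3,8589),(0,96)]) (1,[(1,750),(0,1)])))))
theorem h409_ok : h409.check (ok 409 4 ⟨3, 3, 3⟩) (fun _ r => r) [] = true := by decide +kernel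


end H34S
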