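import Pool.Agent.Lib.H34S.Cover

/-!
# H34S: certificates (generated), hexagonal numbers
-/

set_option autoImplicit false

namespace H34S

def h419 : T := .node ⟨1,0,0⟩ (.node ⟨0,1,0⟩ (.node ⟨0,0,1⟩ (.node ⟨-198,49,366⟩ (.node ⟨81,390,-130⟩ (.node ⟨390,-31,150⟩ (.leaf false ⟨⟨-130,150,369⟩,⟨81,390,-130⟩,⟨390,-31,150⟩⟩ (122,[(5,8494),(4,12273),(2,123)]) (1,[(1,1)]) (1,[(0,1)])) (.leaf false ⟨⟨-410,81,30⟩,⟨30,270,-319⟩,⟨81,310,270⟩⟩ (31,[(3,13080),(5,18880),(0,81)]) (31,[(3,30611),(5,106230),(0,270)]) (1,[(3,1770),(5,3981),(0,10)]))) (.leaf false ⟨⟨-198,-14,369⟩,⟨49,414,42⟩,⟨366,-63,194⟩⟩ (130,[(4,4149),(3,142090),(0,369)]) (65,[(4,4886),(3,35100),(0,21)]) (65,[(4,31647),(3,33735),(0,97)]))) (.leaf false ⟨⟨49,414,-42⟩,⟨198,14,369⟩,⟨366,-63,-194⟩⟩ (198,[(1,9618),(0,49),(2,84373)])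 (1,[(1,735),(0,1),(2,63)]) (33,[(1,15924),(0,61),(2,910)]))) (.node ⟨-222,81,-346⟩ (.node ⟨129,366,158⟩ (.node ⟨382,-66,-159⟩ (.leaf false ⟨⟨-207,114,-346⟩,⟨86,402,81⟩,⟨354,-31,-222⟩⟩ (1,[(5,15),(4,33),(2,1)]) (3,[(3,73),(1,2),(4,474)]) (66,[(3,9723),(0,31),(5,11522)])) (.leaf false ⟨⟨-410,81,30⟩,⟨30,270,-319⟩,⟨81,310,270⟩⟩ (22,[(3,3633),(5,1294),(0,27)]) (11,[(3,10664),(5,17520),(0,45)]) (33,[(3,15735),(5,61883),(0,155)]))) (.leaf false ⟨⟨-234,138,-319⟩,⟨33,-374,-186⟩,⟨346,129,-198⟩⟩ (158,[(4,4179),(3,138558),(0,319)]) (79,[(4,14604),(3,4492),(0,93)]) (79,[(4,40105),(3,46425),(0,99)]))) (.node ⟨273,-174,-266⟩ (.leaf false ⟨⟨42,401,-114⟩,⟨266,-114,-303⟩,⟨321,42,266⟩⟩ (13,[(2,950),(0,2),(3,5561)]) (39,[(2,1709),(0,38),(3,2166)]) (74,[(2,17338),(1,107),(3,11775)]))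 (.leaf false ⟨⟨-338,234,81⟩,⟨81,234,-338⟩,⟨234,257,234⟩⟩ (1101,[(2,463475),(1,338),(0,1638)]) (1835,[(2,5347240),(1,8664),(0,6501)]) (5505,[(2,18239020),(1,36959),(0,25336)]))))) (.node ⟨0,0,1⟩ (.node ⟨-222,-346,81⟩ (.node ⟨129,158,366⟩ (.node ⟨382,-159,-66⟩ (.leaf false ⟨⟨-207,-346,114⟩,⟨86,81,402⟩,⟨354,-222,-31⟩⟩ (1,[(3,33),(5,15),(2,1)]) (3,[(3,474),(1,2),(4,73)]) (66,[(5,11522),(0,31),(4,9723)])) (.leaf false ⟨⟨-410,30,81⟩,⟨30,-319,270⟩,⟨81,270,310⟩⟩ (22,[(5,1294),(4,3633),(0,27)]) (11,[(5,17520),(4,10664),(0,45)]) (33,[(5,61883),(4,15735),(0,155)]))) (.leaf false ⟨⟨-234,-319,138⟩,⟨33,-186,-374⟩,⟨346,-198,129⟩⟩ (158,[(2,138558),(4,4179),(0,319)]) (79,[(2,4492),(4,14604),(0,93)]) (79,[(2,46425),(4,40105),(0,99)]))) (.node ⟨273,-266,-174⟩ (.leaf false ⟨⟨42,-114,401⟩,⟨266,-303,-114⟩,⟨321,266,42⟩⟩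 (13,[(2,5561),(0,2),(3,950)]) (39,[(2,2166),(0,38),(3,1709)]) (74,[(2,11775),(1,107),(3,17338)])) (.leaf false ⟨⟨-338,81,234⟩,⟨81,-338,234⟩,⟨234,234,257⟩⟩ (1101,[(1,338),(3,463475),(0,1638)]) (1835,[(1,8664),(3,5347240),(0,6501)]) (5505,[(1,36959),(3,18239020),(0,25336)])))) (.node ⟨66,-374,177⟩ (.node ⟨401,102,66⟩ (.leaf false ⟨⟨66,-374,177⟩,⟨102,-159,-374⟩,⟨401,102,66⟩⟩ (1,[(1,1)]) (401,[(2,156706),(0,102),(3,74163)]) (1,[(0,1)])) (.leaf false ⟨⟨-383,-126,-114⟩,⟨114,-399,58⟩,⟨126,-22,-399⟩⟩ (17,[(2,552),(4,1910),(0,21)]) (374,[(2,48931),(4,16302),(1,399)]) (17,[(2,6960),(4,2076),(1,1)]))) (.leaf false ⟨⟨-86,-207,-354⟩,⟨81,346,-222⟩,⟨402,-114,-31⟩⟩ (1,[(3,46),(2,955),(0,2)]) (59,[(3,9663),(2,7262),(0,74)]) (177,[(3,73200),(2,31772),(0,31)]))))) (.node ⟨0,1,0⟩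 (.node ⟨0,0,1⟩ (.node ⟨-346,-222,81⟩ (.node ⟨158,129,366⟩ (.node ⟨-159,382,-66⟩ (.leaf false ⟨⟨-354,-114,193⟩,⟨-159,382,-66⟩,⟨158,129,366⟩⟩ (37,[(3,5602),(2,19),(5,6524)]) (1,[(0,1)]) (1,[(1,1)])) (.leaf false ⟨⟨-410,30,81⟩,⟨30,-319,270⟩,⟨81,270,310⟩⟩ (22,[(5,13313),(4,10974),(0,27)]) (11,[(5,6825),(4,13681),(0,45)]) (33,[(5,21972),(4,68120),(0,155)]))) (.leaf false ⟨⟨-378,-174,49⟩,⟨-159,266,-282⟩,⟨-86,273,306⟩⟩ (79,[(2,73045),(0,189),(3,10635)]) (158,[(2,13638),(0,159),(3,62539)]) (79,[(2,39912),(0,43),(3,27114)]))) (.node ⟨-266,273,-174⟩ (.leaf false ⟨⟨-366,193,66⟩,⟨129,114,382⟩,⟨158,354,-159⟩⟩ (273,[(2,51600),(4,48580),(0,193)]) (37,[(2,15673),(4,1801),(1,19)]) (1835,[(4,213560),(0,736),(1,2021)])) (.leaf false ⟨⟨-410,30,81⟩,⟨30,-319,270⟩,⟨81,270,310⟩⟩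 (1835,[(4,2406440),(1,3037),(0,2268)]) (5505,[(4,4958000),(1,6068),(0,11367)]) (1101,[(4,4554859),(1,8774),(0,6046)])))) (.node ⟨-374,66,177⟩ (.node ⟨102,401,66⟩ (.leaf false ⟨⟨-374,66,177⟩,⟨-159,102,-374⟩,⟨102,401,66⟩⟩ (1,[(1,1)]) (401,[(2,156706),(4,74163),(0,102)]) (1,[(0,1)])) (.leaf false ⟨⟨-402,81,86⟩,⟨-114,-346,-207⟩,⟨-31,222,-354⟩⟩ (187,[(2,19495),(1,201),(3,1881)]) (17,[(2,2265),(0,19),(3,1737)]) (102,[(2,34062),(0,31),(3,35075)]))) (.leaf false ⟨⟨-207,-86,-354⟩,⟨-114,402,-31⟩,⟨346,81,-222⟩⟩ (1,[(3,955),(2,46),(0,2)]) (177,[(3,31772),(2,73200),(0,31)]) (59,[(3,7262),(2,9663),(0,74)])))) (.node ⟨0,0,1⟩ (.node ⟨177,-374,66⟩ (.node ⟨66,102,401⟩ (.leaf false ⟨⟨-374,-159,102⟩,⟨66,102,401⟩,⟨177,-374,66⟩⟩ (401,[(4,156706),(3,74163),(0,102)]) (1,[(0,1)])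 (1,[(1,1)])) (.leaf false ⟨⟨-414,-63,14⟩,⟨42,-194,369⟩,⟨49,-366,-198⟩⟩ (34,[(2,8897),(4,12690),(0,21)]) (187,[(2,62601),(4,9315),(1,97)]) (21369,[(2,4121284),(0,23228),(1,14577)]))) (.leaf false ⟨⟨-354,-207,-86⟩,⟨-222,346,81⟩,⟨-31,-114,402⟩⟩ (1,[(1,46),(0,2),(2,955)]) (59,[(1,9663),(0,74),(2,7262)]) (177,[(1,73200),(0,31),(2,31772)]))) (.leaf false ⟨⟨-419,0,0⟩,⟨0,-419,0⟩,⟨0,0,-419⟩⟩ (1,[(2,419)]) (1,[(1,419)]) (1,[(0,419)]))))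
theorem h419_ok : h419.check (ok 419 4 ⟨3, 3, 3⟩) (fun _ r => r) [] = true := by decide +kernel

def h421 : T := .node ⟨1,0,0⟩ (.node ⟨0,1,0⟩ (.node ⟨0,0,1⟩ (.leaf false ⟨⟨0,0,421⟩,⟨0,421,0⟩,⟨421,0,0⟩⟩ (1,[(0,421)]) (1,[(1,421)]) (1,[(2,421)])) (.node ⟨0,420,29⟩ (.leaf false ⟨⟨0,29,-420⟩,⟨0,420,29⟩,⟨421,0,0⟩⟩ (420,[(1,177241),(0,29)]) (1,[(0,1)]) (1,[(3,421)])) (.node ⟨-144,-227,-324⟩ (.leaf false ⟨⟨-164,24,-387⟩,⟨72,-411,-56⟩,⟨381,88,-156⟩⟩ (36,[(4,288),(3,10625),(0,43)]) (29,[(1,56),(4,2088),(3,11601)]) (27,[(4,12159),(3,5327),(0,13)])) (.leaf false ⟨⟨0,421,0⟩,⟨29,0,-420⟩,⟨420,0,29⟩⟩ (1,[(3,421)]) (4176,[(1,69876),(0,841),(3,29157013)]) (348,[(1,10992),(0,1015),(3,4386235)]))))) (.node ⟨0,0,1⟩ (.node ⟨0,29,420⟩ (.leaf false ⟨⟨0,-420,29⟩,⟨0,29,420⟩,⟨421,0,0⟩⟩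 (420,[(0,29),(2,177241)]) (1,[(0,1)]) (1,[(3,421)])) (.node ⟨-144,-324,-227⟩ (.leaf false ⟨⟨-164,-387,24⟩,⟨72,-56,-411⟩,⟨381,-156,88⟩⟩ (36,[(2,10625),(4,288),(0,43)]) (29,[(2,11601),(4,2088),(1,56)]) (27,[(2,5327),(4,12159),(0,13)])) (.leaf false ⟨⟨0,0,421⟩,⟨29,-420,0⟩,⟨420,29,0⟩⟩ (1,[(2,421)]) (4176,[(2,29157013),(0,841),(1,69876)]) (348,[(2,4386235),(0,1015),(1,10992)])))) (.node ⟨20,-420,21⟩ (.node ⟨381,164,-72⟩ (.node ⟨-72,-56,-411⟩ (.node ⟨164,-387,24⟩ (.leaf false ⟨⟨-72,-56,-411⟩,⟨164,-387,24⟩,⟨381,156,-88⟩⟩ (1,[(1,1)]) (1,[(0,1)]) (1,[(4,16),(2,1),(5,8)])) (.leaf false ⟨⟨-412,21,-84⟩,⟨21,-372,-196⟩,⟨84,196,-363⟩⟩ (31,[(6,67760),(3,508),(0,553)]) (651,[(6,4375687),(3,28260),(0,30044)]) (651,[(6,7258976),(3,45259),(0,49448)]))) (.leaf false ⟨⟨12,-291,-304⟩,⟨189,-268,264⟩,⟨376,144,-123⟩⟩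 (6,[(3,2235),(0,1),(4,1802)]) (8,[(3,6519),(0,21),(4,3320)]) (9,[(3,20424),(0,47),(4,1336)]))) (.leaf false ⟨⟨-372,-196,21⟩,⟨21,-84,-412⟩,⟨196,-363,84⟩⟩ (41,[(2,2667),(4,3417),(0,49)]) (41,[(2,18404),(4,8862),(0,21)]) (164,[(2,12360),(4,170447),(0,363)]))) (.leaf false ⟨⟨-276,-128,-291⟩,⟨93,336,-236⟩,⟨304,-219,-192⟩⟩ (7,[(3,8),(2,41636),(0,97)]) (21,[(3,6673),(2,92064),(0,236)]) (7,[(3,3408),(2,28413),(0,64)]))))) (.node ⟨0,1,0⟩ (.node ⟨0,0,1⟩ (.node ⟨29,0,420⟩ (.leaf false ⟨⟨-420,0,29⟩,⟨0,421,0⟩,⟨29,0,420⟩⟩ (420,[(3,177241),(0,29)]) (1,[(2,421)]) (1,[(0,1)])) (.node ⟨-324,-144,-227⟩ (.leaf false ⟨⟨-411,-88,24⟩,⟨-72,381,164⟩,⟨-56,156,-387⟩⟩ (108,[(2,33691),(0,137),(3,10224)]) (9,[(2,1930),(0,2),(3,3717)]) (29,[(2,12297),(1,56),(3,4524)])) (.leaf false ⟨⟨-420,20,21⟩,⟨-20,21,-420⟩,⟨21,420,20⟩⟩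 (1044,[(2,7019809),(1,16740),(0,145)]) (1392,[(2,725039),(1,3228),(0,203)]) (348,[(2,4433515),(1,11088),(0,1015)])))) (.node ⟨-420,20,21⟩ (.node ⟨164,381,-72⟩ (.node ⟨-56,-72,-411⟩ (.node ⟨-387,164,24⟩ (.leaf false ⟨⟨-387,164,24⟩,⟨-56,-72,-411⟩,⟨156,381,-88⟩⟩ (1,[(0,1)]) (1,[(1,1)]) (1,[(4,16),(6,8),(2,1)])) (.leaf false ⟨⟨-412,21,-84⟩,⟨21,-372,-196⟩,⟨84,196,-363⟩⟩ (651,[(3,14132),(5,2132647),(0,14644)]) (93,[(3,3588),(5,533080),(0,3899)]) (217,[(3,15385),(5,2480848),(0,16744)]))) (.leaf false ⟨⟨-420,20,21⟩,⟨-20,21,-420⟩,⟨21,420,20⟩⟩ (18,[(3,1677),(5,7840),(0,5)]) (24,[(3,12957),(5,872),(0,7)]) (6,[(3,14265),(5,1834),(0,35)]))) (.leaf false ⟨⟨-363,196,84⟩,⟨-196,-372,21⟩,⟨-84,21,-412⟩⟩ (164,[(2,12360),(0,363),(3,170447)]) (41,[(2,2667),(0,49),(3,3417)]) (41,[(2,18404),(0,21),(3,8862)])))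 (.leaf false ⟨⟨-411,72,-56⟩,⟨24,-164,-387⟩,⟨88,381,-156⟩⟩ (3,[(3,4593),(2,376),(0,8)]) (7,[(3,54012),(2,1432),(0,129)]) (7,[(3,21224),(2,3707),(0,52)])))) (.node ⟨0,0,1⟩ (.node ⟨20,21,420⟩ (.node ⟨21,-420,20⟩ (.leaf false ⟨⟨-420,-20,21⟩,⟨20,21,420⟩,⟨21,-420,20⟩⟩ (20,[(4,8420),(3,421),(1,1)]) (1,[(1,1)]) (1,[(0,1)])) (.leaf false ⟨⟨-411,24,-88⟩,⟨-72,164,381⟩,⟨-56,-387,156⟩⟩ (2105,[(3,17923233),(1,1593),(0,42715)]) (8420,[(3,14718581),(1,9441),(0,37860)]) (2105,[(3,3634914),(1,1099),(0,6660)]))) (.node ⟨56,-411,-72⟩ (.leaf false ⟨⟨-387,-24,-164⟩,⟨-156,-88,381⟩,⟨56,-411,-72⟩⟩ (7,[(2,2212),(4,2549),(1,8)]) (21,[(2,44961),(4,1516),(1,88)]) (1,[(0,1)])) (.leaf false ⟨⟨-411,-88,24⟩,⟨-72,381,164⟩,⟨-56,156,-387⟩⟩ (2080,[(0,14425),(1,2354),(3,6062281)]) (7,[(2,500),(0,9),(3,1032)])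 (783,[(2,171003),(0,358),(1,1190)])))) (.node ⟨-156,277,-276⟩ (.node ⟨-336,-219,128⟩ (.node ⟨128,-291,-276⟩ (.leaf false ⟨⟨-336,-236,93⟩,⟨-219,192,-304⟩,⟨128,-291,-276⟩⟩ (1,[(3,35),(1,1),(4,17)]) (69,[(2,76),(5,3255),(4,7804)]) (1,[(0,1)])) (.leaf false ⟨⟨-363,84,196⟩,⟨-196,21,-372⟩,⟨-84,-412,21⟩⟩ (128,[(3,75100),(0,363),(4,94881)]) (32,[(3,25428),(0,49),(4,13587)]) (32,[(3,5124),(0,21),(4,19295)]))) (.leaf false ⟨⟨-412,21,-84⟩,⟨21,-372,-196⟩,⟨84,196,-363⟩⟩ (32,[(4,20240),(3,3927),(0,21)]) (32,[(4,15792),(3,22635),(0,49)]) (128,[(4,111216),(3,54409),(0,363)]))) (.leaf false ⟨⟨-412,-84,21⟩,⟨21,-196,-372⟩,⟨84,-363,196⟩⟩ (277,[(1,17367),(3,127228),(0,84)]) (277,[(1,157140),(3,24759),(0,196)]) (277,[(1,45896),(3,33360),(0,363)])))))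
theorem h421_ok : h421.check (ok 421 4 ⟨3, 3, 3⟩) (fun _ r => r) [] = true := by decide +kernel

def h427 : T := .node ⟨1,0,0⟩ (.node ⟨0,1,0⟩ (.node ⟨0,0,1⟩ (.node ⟨-183,122,366⟩ (.node ⟨-54,393,-158⟩ (.leaf false ⟨⟨-183,122,366⟩,⟨-54,393,-158⟩,⟨382,114,153⟩⟩ (1,[(1,1)]) (1,[(0,1)]) (131,[(2,26047),(4,52094),(0,38)])) (.leaf false ⟨⟨-138,153,374⟩,⟨153,-346,198⟩,⟨374,198,57⟩⟩ (183,[(4,8967),(3,5185),(1,187)]) (79,[(4,6741),(3,11573),(0,99)]) (122,[(4,49105),(3,21838),(1,19)]))) (.leaf false ⟨⟨57,374,198⟩,⟨198,153,-346⟩,⟨374,-138,153⟩⟩ (61,[(1,19032),(0,19),(2,25132)]) (61,[(1,3050),(0,66),(2,17385)]) (183,[(1,164883),(0,374),(2,20374)]))) (.node ⟨-103,414,-18⟩ (.node ⟨-103,-18,-414⟩ (.node ⟨414,-23,-102⟩ (.leaf false ⟨⟨-103,-18,-414⟩,⟨18,426,-23⟩,⟨414,-23,-102⟩⟩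 (1,[(1,1)]) (18,[(5,427),(4,7686),(1,1)]) (1,[(0,1)])) (.leaf false ⟨⟨-423,22,-54⟩,⟨-22,306,297⟩,⟨54,297,-302⟩⟩ (183,[(5,30500),(0,240),(1,83)]) (122,[(5,834541),(0,1926),(1,387)]) (549,[(5,4100420),(0,9171),(1,2660)]))) (.leaf false ⟨⟨-66,418,57⟩,⟨57,66,-418⟩,⟨418,57,66⟩⟩ (9540,[(4,176644),(0,1729),(1,9557)]) (69,[(2,28644),(4,5066),(1,11)]) (6,[(2,7470),(4,551),(0,19)]))) (.node ⟨302,297,54⟩ (.leaf false ⟨⟨54,22,-423⟩,⟨297,-306,22⟩,⟨302,297,54⟩⟩ (103,[(2,44541),(1,54),(3,24622)]) (103,[(2,3080),(1,297),(3,91440)]) (1,[(0,1)])) (.leaf false ⟨⟨-402,41,-138⟩,⟨78,-282,-311⟩,⟨121,318,-258⟩⟩ (21,[(1,3328),(3,1724064),(0,1163)]) (126,[(1,98134),(3,50522733),(0,33437)]) (21,[(1,14075),(3,7256952),(0,4792)]))))) (.node ⟨0,0,1⟩ (.node ⟨-103,-18,414⟩ (.node ⟨-103,-414,-18⟩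 (.node ⟨414,-102,-23⟩ (.leaf false ⟨⟨-103,-414,-18⟩,⟨18,-23,426⟩,⟨414,-102,-23⟩⟩ (1,[(1,1)]) (18,[(3,7686),(5,427),(1,1)]) (1,[(0,1)])) (.leaf false ⟨⟨-423,-54,22⟩,⟨-22,297,306⟩,⟨54,-302,297⟩⟩ (183,[(5,30500),(1,83),(0,240)]) (122,[(5,834541),(1,387),(0,1926)]) (549,[(5,4100420),(1,2660),(0,9171)]))) (.leaf false ⟨⟨-66,57,418⟩,⟨57,-418,66⟩,⟨418,66,57⟩⟩ (9540,[(4,176644),(1,9557),(0,1729)]) (69,[(4,5066),(3,28644),(1,11)]) (6,[(4,551),(3,7470),(0,19)]))) (.node ⟨302,54,297⟩ (.leaf false ⟨⟨54,-423,22⟩,⟨297,22,-306⟩,⟨302,54,297⟩⟩ (103,[(2,24622),(1,54),(3,44541)]) (103,[(2,91440),(1,297),(3,3080)]) (1,[(0,1)])) (.leaf false ⟨⟨-402,-138,41⟩,⟨78,-311,-282⟩,⟨121,-258,318⟩⟩ (21,[(2,1724064),(1,3328),(0,1163)]) (126,[(2,50522733),(1,98134),(0,33437)]) (21,[(2,7256952),(1,14075),(0,4792)]))))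 (.node ⟨420,0,77⟩ (.leaf false ⟨⟨0,-427,0⟩,⟨77,0,-420⟩,⟨420,0,77⟩⟩ (1,[(2,427)]) (60,[(1,26047),(0,11)]) (1,[(0,1)])) (.node ⟨-87,202,-366⟩ (.leaf false ⟨⟨-392,-147,-84⟩,⟨21,168,-392⟩,⟨168,-364,-147⟩⟩ (11,[(4,728),(3,1617),(1,12)]) (183,[(4,20895),(3,8848),(0,196)]) (11,[(4,10668),(3,4004),(1,21)])) (.leaf false ⟨⟨-423,-50,-30⟩,⟨30,-375,202⟩,⟨50,-198,-375⟩⟩ (1111,[(4,236922),(0,275),(1,1740)]) (2222,[(4,5494545),(0,4125),(1,13778)]) (1111,[(4,4407347),(0,1089),(1,10587)])))))) (.node ⟨0,1,0⟩ (.node ⟨0,0,1⟩ (.node ⟨-18,414,-103⟩ (.node ⟨-414,-18,-103⟩ (.node ⟨-102,-23,414⟩ (.leaf false ⟨⟨-414,-18,-103⟩,⟨-102,-23,414⟩,⟨-23,426,18⟩⟩ (1,[(1,1)]) (1,[(0,1)]) (18,[(3,427),(1,1),(4,7686)])) (.leaf false ⟨⟨-427,0,0⟩,⟨0,77,-420⟩,⟨0,420,77⟩⟩ (18,[(3,9821),(1,23),(0,18)])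 (183,[(3,256627),(1,187),(0,759)]) (61,[(3,611037),(1,340),(0,1380)]))) (.leaf false ⟨⟨-418,66,57⟩,⟨57,418,-66⟩,⟨66,57,418⟩⟩ (69,[(2,5066),(4,28644),(1,11)]) (9540,[(2,176644),(1,9557),(0,1729)]) (6,[(2,551),(4,7470),(0,19)]))) (.node ⟨54,297,302⟩ (.leaf false ⟨⟨-423,22,54⟩,⟨22,-306,297⟩,⟨54,297,302⟩⟩ (103,[(4,44541),(3,24622),(1,54)]) (103,[(4,3080),(3,91440),(1,297)]) (1,[(0,1)])) (.leaf false ⟨⟨-427,0,0⟩,⟨0,-420,77⟩,⟨0,77,420⟩⟩ (18,[(3,9492759),(1,18422),(0,6283)]) (1,[(3,16509),(1,33),(0,11)]) (1,[(3,92417),(1,180),(0,60)])))) (.node ⟨0,420,77⟩ (.leaf false ⟨⟨-427,0,0⟩,⟨0,77,-420⟩,⟨0,420,77⟩⟩ (1,[(3,427)]) (60,[(1,26047),(0,11)]) (1,[(0,1)])) (.node ⟨202,-87,-366⟩ (.leaf false ⟨⟨-423,-30,-50⟩,⟨30,202,-375⟩,⟨50,-375,-198⟩⟩ (77,[(1,50),(4,32571),(3,18690)])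 (122,[(4,21590),(3,35519),(0,125)]) (49007,[(1,40008),(4,1204840),(0,18095)])) (.leaf false ⟨⟨-423,6,58⟩,⟨-58,-87,-414⟩,⟨-6,418,-87⟩⟩ (15554,[(1,143102),(0,32571),(3,57362487)]) (7777,[(1,52428),(0,2233),(3,21148890)]) (7777,[(1,9885),(0,231),(3,7382389)]))))) (.node ⟨0,0,1⟩ (.node ⟨0,77,420⟩ (.leaf false ⟨⟨-427,0,0⟩,⟨0,-420,77⟩,⟨0,77,420⟩⟩ (1,[(3,427)]) (60,[(0,11),(2,26047)]) (1,[(0,1)])) (.node ⟨202,-366,-87⟩ (.leaf false ⟨⟨-423,-58,-6⟩,⟨6,-87,418⟩,⟨58,-414,-87⟩⟩ (77,[(2,23898),(4,32571),(1,58)]) (122,[(2,53519),(4,5126),(0,29)]) (61,[(2,696),(4,10400),(0,69)])) (.leaf false ⟨⟨-423,50,30⟩,⟨-50,-198,-375⟩,⟨-30,-375,202⟩⟩ (2222,[(2,8344929),(0,4653),(1,20674)]) (1111,[(2,1308330),(0,275),(1,4164)]) (1111,[(2,2811967),(0,165),(1,6195)])))) (.leaf false ⟨⟨-427,0,0⟩,⟨0,-427,0⟩,⟨0,0,-427⟩⟩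 (1,[(2,427)]) (1,[(1,427)]) (1,[(0,427)]))))
theorem h427_ok : h427.check (ok 427 4 ⟨3, 3, 3⟩) (fun _ r => r) [] = true := by decide +kernel

def h431 : T := .node ⟨1,0,0⟩ (.node ⟨0,1,0⟩ (.node ⟨0,0,1⟩ (.node ⟨-206,21,378⟩ (.node ⟨62,366,-219⟩ (.node ⟨-206,357,-126⟩ (.leaf false ⟨⟨-206,21,378⟩,⟨-126,402,-91⟩,⟨357,154,186⟩⟩ (1,[(2,1)]) (119,[(3,6055),(5,12610),(0,134)]) (51,[(3,12258),(5,22739),(0,22)])) (.leaf false ⟨⟨-138,181,366⟩,⟨261,-258,226⟩,⟨314,294,-27⟩⟩ (2614332,[(1,2094792),(2,3404195),(0,1022375)]) (10457328,[(1,8255912),(2,5585453),(0,16349997)]) (871444,[(1,1996092),(2,638777),(0,1366329)]))) (.leaf false ⟨⟨-154,-186,357⟩,⟨21,378,206⟩,⟨402,-91,126⟩⟩ (15883,[(4,148360),(1,9992),(0,8645)]) (189,[(4,25187),(3,69279),(1,103)]) (73,[(4,31950),(3,8729),(0,42)])))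 (.node ⟨366,-219,62⟩ (.leaf false ⟨⟨26,414,117⟩,⟨261,78,-334⟩,⟨342,-91,246⟩⟩ (103,[(2,16965),(1,13),(3,42915)]) (206,[(2,29854),(1,261),(3,21549)]) (61,[(2,11472),(0,57),(3,6932)])) (.leaf false ⟨⟨-366,226,-27⟩,⟨138,261,314⟩,⟨181,258,-294⟩⟩ (18714,[(2,1183910),(1,1281),(0,19435)]) (3119,[(2,5233192),(1,10479),(0,4722)]) (12476,[(2,14401444),(1,44689),(0,18983)])))) (.node ⟨-107,54,-414⟩ (.node ⟨-107,414,54⟩ (.node ⟨414,98,69⟩ (.leaf false ⟨⟨-107,414,54⟩,⟨54,69,-422⟩,⟨414,98,69⟩⟩ (1,[(1,1)]) (6,[(3,2586),(5,431),(1,1)]) (1,[(0,1)])) (.leaf false ⟨⟨-426,21,-62⟩,⟨37,414,-114⟩,⟨54,-118,-411⟩⟩ (23274,[(5,1986479),(1,7525),(0,26802)]) (3879,[(5,5651272),(1,6623),(0,11592)]) (3879,[(5,12083516),(1,5356),(0,27297)]))) (.node ⟨69,422,54⟩ (.leaf false ⟨⟨-98,69,-414⟩,⟨69,422,54⟩,⟨414,-54,-107⟩⟩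 (1,[(5,9),(4,15),(2,1)]) (1,[(0,1)]) (54,[(5,10907),(4,41382),(1,107)])) (.leaf false ⟨⟨-315,-10,-294⟩,⟨206,-315,-210⟩,⟨210,294,-235⟩⟩ (9,[(5,546),(4,20588),(0,49)]) (9,[(5,4269),(4,11935),(0,35)]) (54,[(5,27555),(4,115046),(0,235)])))) (.leaf false ⟨⟨21,378,-206⟩,⟨154,186,357⟩,⟨402,-91,-126⟩⟩ (107,[(1,30736),(0,21),(2,41580)]) (107,[(1,25557),(0,154),(2,28218)]) (107,[(1,179910),(0,402),(2,11971)])))) (.node ⟨0,0,1⟩ (.node ⟨-107,-414,54⟩ (.node ⟨-107,54,414⟩ (.node ⟨414,69,98⟩ (.leaf false ⟨⟨-107,54,414⟩,⟨54,-422,69⟩,⟨414,69,98⟩⟩ (1,[(1,1)]) (6,[(5,431),(4,2586),(1,1)]) (1,[(0,1)])) (.leaf false ⟨⟨-426,-62,21⟩,⟨37,-114,414⟩,⟨54,-411,-118⟩⟩ (23274,[(5,1986479),(0,26802),(1,7525)]) (3879,[(5,5651272),(0,11592),(1,6623)]) (3879,[(5,12083516),(0,27297),(1,5356)])))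 (.node ⟨69,54,422⟩ (.leaf false ⟨⟨-98,-414,69⟩,⟨69,54,422⟩,⟨414,-107,-54⟩⟩ (1,[(3,15),(5,9),(2,1)]) (1,[(0,1)]) (54,[(3,41382),(5,10907),(1,107)])) (.leaf false ⟨⟨-315,-294,-10⟩,⟨206,-210,-315⟩,⟨210,-235,294⟩⟩ (9,[(3,20588),(5,546),(0,49)]) (9,[(3,11935),(5,4269),(0,35)]) (54,[(3,115046),(5,27555),(0,235)])))) (.leaf false ⟨⟨21,-206,378⟩,⟨154,357,186⟩,⟨402,-126,-91⟩⟩ (107,[(1,41580),(0,21),(2,30736)]) (107,[(1,28218),(0,154),(2,25557)]) (107,[(1,11971),(0,402),(2,179910)]))) (.node ⟨54,118,-411⟩ (.node ⟨414,21,118⟩ (.leaf false ⟨⟨37,-426,-54⟩,⟨114,62,-411⟩,⟨414,21,118⟩⟩ (414,[(2,26722),(0,37),(3,177141)]) (7953,[(2,1873126),(1,3879),(0,1684)]) (1,[(0,1)])) (.node ⟨181,-390,30⟩ (.leaf false ⟨⟨-330,-170,-219⟩,⟨181,-390,30⟩,⟨210,69,-370⟩⟩ (118,[(5,51726),(4,15461),(1,219)])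 (1,[(0,1)]) (411,[(2,370),(5,66330),(4,15301)])) (.leaf false ⟨⟨-414,-78,-91⟩,⟨26,261,-342⟩,⟨117,-334,-246⟩⟩ (30,[(5,4051),(4,37830),(0,91)]) (5,[(5,10447),(4,20925),(0,57)]) (5,[(5,8006),(4,17660),(0,41)])))) (.leaf false ⟨⟨-154,-402,21⟩,⟨186,-91,-378⟩,⟨357,-126,206⟩⟩ (59,[(1,81372),(3,1768),(0,201)]) (118,[(1,82005),(3,26862),(0,91)]) (59,[(1,13739),(3,24465),(0,63)]))))) (.node ⟨0,1,0⟩ (.node ⟨0,0,1⟩ (.node ⟨-414,-107,54⟩ (.node ⟨54,-107,414⟩ (.node ⟨69,414,98⟩ (.leaf false ⟨⟨-422,54,69⟩,⟨54,-107,414⟩,⟨69,414,98⟩⟩ (6,[(5,2586),(4,431),(1,1)]) (1,[(1,1)]) (1,[(0,1)])) (.leaf false ⟨⟨-426,62,21⟩,⟨-54,-411,118⟩,⟨37,114,414⟩⟩ (7758,[(4,26516413),(1,14399),(0,59166)]) (3879,[(4,627536),(1,2239),(0,4788)]) (11637,[(4,4117774),(1,12470),(0,3519)]))) (.node ⟨54,69,422⟩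 (.leaf false ⟨⟨-414,-98,69⟩,⟨-107,414,-54⟩,⟨54,69,422⟩⟩ (1,[(3,15),(2,1),(4,9)]) (54,[(3,41382),(1,107),(4,10907)]) (1,[(0,1)])) (.leaf false ⟨⟨-411,-118,54⟩,⟨-114,414,37⟩,⟨-62,21,-426⟩⟩ (18,[(3,58786),(0,137),(4,7329)]) (9,[(3,8351),(0,19),(4,5037)]) (27,[(3,1580),(0,31),(4,2706)])))) (.leaf false ⟨⟨-422,69,54⟩,⟨54,414,-107⟩,⟨69,98,414⟩⟩ (107,[(1,9504),(3,73720),(0,69)]) (107,[(1,10907),(3,165618),(0,414)]) (107,[(1,49590),(3,33189),(0,98)]))) (.node ⟨118,54,-411⟩ (.node ⟨21,414,118⟩ (.leaf false ⟨⟨-426,37,-54⟩,⟨21,414,118⟩,⟨62,114,-411⟩⟩ (414,[(2,26722),(4,177141),(0,37)]) (1,[(0,1)]) (7953,[(2,1873126),(0,1684),(1,3879)])) (.node ⟨-390,181,30⟩ (.leaf false ⟨⟨-390,181,30⟩,⟨-170,-330,-219⟩,⟨69,210,-370⟩⟩ (1,[(0,1)]) (118,[(5,15461),(4,51726),(1,219)]) (411,[(5,15301),(4,66330),(2,370)]))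 (.leaf false ⟨⟨-426,21,-62⟩,⟨37,414,-114⟩,⟨54,-118,-411⟩⟩ (15,[(5,18480),(4,5926),(0,31)]) (5,[(5,7225),(4,5509),(0,19)]) (10,[(5,52890),(4,23617),(0,137)])))) (.leaf false ⟨⟨-411,-118,54⟩,⟨-114,414,37⟩,⟨-62,21,-426⟩⟩ (118,[(1,162549),(0,411),(2,8270)]) (59,[(1,21244),(0,57),(2,27504)]) (59,[(1,37875),(0,31),(2,2913)])))) (.node ⟨0,0,1⟩ (.node ⟨118,-411,54⟩ (.node ⟨21,118,414⟩ (.leaf false ⟨⟨-426,-54,37⟩,⟨21,118,414⟩,⟨62,-411,114⟩⟩ (414,[(4,177141),(3,26722),(0,37)]) (1,[(0,1)]) (29421,[(4,1873126),(1,30601),(0,4110)])) (.node ⟨-390,30,181⟩ (.leaf false ⟨⟨-390,30,181⟩,⟨-170,-219,-330⟩,⟨69,-370,210⟩⟩ (1,[(0,1)]) (118,[(3,51726),(5,15461),(1,219)]) (411,[(3,66330),(5,15301),(2,370)])) (.leaf false ⟨⟨-426,-62,21⟩,⟨37,-114,414⟩,⟨54,-411,-118⟩⟩ (15,[(3,5926),(5,18480),(0,31)])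 (5,[(3,5509),(5,7225),(0,19)]) (10,[(3,23617),(5,52890),(0,137)])))) (.leaf false ⟨⟨-411,54,-118⟩,⟨-114,37,414⟩,⟨-62,-426,21⟩⟩ (118,[(1,8270),(0,411),(2,162549)]) (59,[(1,27504),(0,57),(2,21244)]) (59,[(1,2913),(0,31),(2,37875)]))) (.leaf false ⟨⟨-431,0,0⟩,⟨0,-431,0⟩,⟨0,0,-431⟩⟩ (1,[(2,431)]) (1,[(1,431)]) (1,[(0,431)]))))
theorem h431_ok : h431.check (ok 431 4 ⟨3, 3, 3⟩) (fun _ r => r) [] = true := by decide +kernel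

def h433 : T := .node ⟨1,0,0⟩ (.node ⟨0,1,0⟩ (.node ⟨0,0,1⟩ (.leaf false ⟨⟨0,0,433⟩,⟨0,433,0⟩,⟨433,0,0⟩⟩ (1,[(0,433)]) (1,[(1,433)]) (1,[(2,433)])) (.node ⟨0,408,145⟩ (.leaf false ⟨⟨0,145,-408⟩,⟨0,408,145⟩,⟨433,0,0⟩⟩ (408,[(1,187489),(0,145)]) (1,[(0,1)]) (1,[(3,433)])) (.node ⟨-172,33,-396⟩ (.leaf false ⟨⟨-172,33,-396⟩,⟨264,332,-87⟩,⟨297,-276,-152⟩⟩ (1,[(0,1)]) (5,[(1,3),(4,1320),(3,2884)]) (145,[(1,152),(4,43065),(3,21996)])) (.leaf false ⟨⟨0,433,0⟩,⟨145,0,-408⟩,⟨408,0,145⟩⟩ (1,[(3,433)]) (24940,[(1,127596),(0,21025),(3,52752993)]) (6235,[(1,34157),(0,14790),(3,14424126)]))))) (.node ⟨0,0,1⟩ (.node ⟨0,145,408⟩ (.leaf false ⟨⟨0,-408,145⟩,⟨0,145,408⟩,⟨433,0,0⟩⟩ (408,[(0,145),(2,187489)]) (1,[(0,1)]) (1,[(3,433)])) (.node ⟨-172,-396,33⟩ (.leaf false ⟨⟨-172,-396,33⟩,⟨264,-87,332⟩,⟨297,-152,-276⟩⟩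 (1,[(0,1)]) (5,[(2,2884),(4,1320),(1,3)]) (145,[(2,21996),(4,43065),(1,152)])) (.leaf false ⟨⟨0,0,433⟩,⟨145,-408,0⟩,⟨408,145,0⟩⟩ (1,[(2,433)]) (24940,[(2,52752993),(0,21025),(1,127596)]) (6235,[(2,14424126),(0,14790),(1,34157)])))) (.node ⟨100,105,-408⟩ (.node ⟨8,-420,105⟩ (.node ⟨420,105,8⟩ (.leaf false ⟨⟨33,-100,-420⟩,⟨100,-408,105⟩,⟨420,105,8⟩⟩ (100,[(3,28536),(2,33),(4,13465)]) (14770,[(3,66249),(0,3228),(1,15155)]) (1,[(0,1)])) (.leaf false ⟨⟨-352,-252,9⟩,⟨9,-28,-432⟩,⟨252,-351,28⟩⟩ (685,[(5,211352),(1,141),(0,1080)]) (30,[(2,31),(5,13550),(0,39)]) (4795,[(5,4706312),(1,1916),(0,8365)]))) (.node ⟨-100,192,-375⟩ (.leaf false ⟨⟨-100,192,-375⟩,⟨60,-375,-208⟩,⟨417,100,-60⟩⟩ (1,[(0,1)]) (105,[(5,7964),(4,126735),(1,208)]) (7,[(5,2951),(4,980),(1,4)])) (.leaf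 false ⟨⟨-12,-87,-424⟩,⟨116,408,-87⟩,⟨417,-116,12⟩⟩ (1875,[(4,4040289),(1,9475),(0,533)]) (625,[(4,1365984),(1,4350),(0,1073)]) (2500,[(4,19218404),(1,51725),(0,14563)])))) (.leaf false ⟨⟨-264,-343,12⟩,⟨233,-168,324⟩,⟨252,-204,-287⟩⟩ (15,[(1,19812),(3,940),(0,49)]) (5,[(1,1644),(3,1965),(0,8)]) (35,[(1,37789),(3,15620),(0,68)]))))) (.node ⟨0,1,0⟩ (.node ⟨0,0,1⟩ (.node ⟨145,0,408⟩ (.leaf false ⟨⟨-408,0,145⟩,⟨0,433,0⟩,⟨145,0,408⟩⟩ (408,[(3,187489),(0,145)]) (1,[(2,433)]) (1,[(0,1)])) (.node ⟨-396,-172,33⟩ (.leaf false ⟨⟨-424,-87,12⟩,⟨-87,408,-116⟩,⟨-12,116,417⟩⟩ (55451,[(0,58244),(1,3080),(3,5193731)]) (5,[(2,644),(1,3),(3,2040)]) (33,[(2,13728),(0,1),(3,4000)])) (.leaf false ⟨⟨-420,8,105⟩,⟨-100,105,-408⟩,⟨33,420,100⟩⟩ (6235,[(2,8355861),(1,18852),(0,290)]) (4988,[(2,2861829),(1,11756),(0,3045)])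 (6235,[(2,17511613),(1,40161),(0,15225)])))) (.node ⟨8,420,105⟩ (.node ⟨105,100,-408⟩ (.leaf false ⟨⟨-420,33,-100⟩,⟨8,420,105⟩,⟨105,100,-408⟩⟩ (140,[(2,15155),(4,58888),(1,11)]) (1,[(1,1)]) (1,[(0,1)])) (.leaf false ⟨⟨-408,-144,17⟩,⟨-143,408,24⟩,⟨-24,17,-432⟩⟩ (10825,[(2,17851291),(0,42552),(1,6420)]) (10825,[(2,7699173),(0,15831),(1,14285)]) (43300,[(2,23313153),(0,10216),(1,4185)]))) (.node ⟨-399,-152,72⟩ (.leaf false ⟨⟨-408,-144,17⟩,⟨-143,408,24⟩,⟨-24,17,-432⟩⟩ (133,[(2,7531),(0,136),(3,1520)]) (399,[(2,720),(0,143),(3,184528)]) (1,[(2,117),(1,3),(3,1277)])) (.leaf false ⟨⟨-432,9,-28⟩,⟨9,-352,-252⟩,⟨28,252,-351⟩⟩ (15,[(1,4),(4,6448),(3,1815)]) (1925,[(1,2652),(4,1106589),(0,2870)]) (1925,[(1,1467),(4,2825119),(0,7245)]))))) (.node ⟨0,0,1⟩ (.node ⟨8,105,420⟩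 (.node ⟨105,-408,100⟩ (.leaf false ⟨⟨-420,-100,33⟩,⟨8,105,420⟩,⟨105,-408,100⟩⟩ (140,[(4,58888),(3,15155),(1,11)]) (1,[(1,1)]) (1,[(0,1)])) (.leaf false ⟨⟨-408,-116,-87⟩,⟨-116,417,-12⟩,⟨-87,-12,424⟩⟩ (43300,[(3,77978537),(1,31665),(0,170664)]) (10825,[(3,717048),(1,2585),(0,12156)]) (10825,[(3,5599989),(1,13305),(0,9983)]))) (.node ⟨-399,72,-152⟩ (.leaf false ⟨⟨-408,17,-144⟩,⟨-143,24,408⟩,⟨-24,-432,17⟩⟩ (133,[(2,1520),(0,136),(3,7531)]) (399,[(2,184528),(0,143),(3,720)]) (1,[(2,1277),(1,3),(3,117)])) (.leaf false ⟨⟨-432,-28,9⟩,⟨9,-252,-352⟩,⟨28,-351,252⟩⟩ (15,[(2,1815),(4,6448),(1,4)]) (1925,[(4,1106589),(1,2652),(0,2870)]) (1925,[(4,2825119),(1,1467),(0,7245)])))) (.node ⟨-264,233,-252⟩ (.node ⟨204,-168,-343⟩ (.node ⟨-252,233,-264⟩ (.leaf false ⟨⟨-287,-324,-12⟩,⟨-252,233,-264⟩,⟨204,-168,-343⟩⟩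 (21,[(2,1),(5,5763),(4,7037)]) (1,[(0,1)]) (1,[(1,1)])) (.leaf false ⟨⟨-432,-28,9⟩,⟨9,-252,-352⟩,⟨28,-351,252⟩⟩ (119075,[(2,4797207),(0,4730035),(1,113007)]) (476300,[(2,12021379),(0,11930995),(1,839804)]) (357225,[(2,11113378),(0,11400865),(1,347628)]))) (.leaf false ⟨⟨-360,60,233⟩,⟨-215,108,-360⟩,⟨-108,-415,-60⟩⟩ (17,[(2,6329),(0,30),(3,4020)]) (264,[(2,40860),(1,215),(3,21583)]) (17,[(2,4107),(0,9),(3,8567)]))) (.leaf false ⟨⟨-432,-28,9⟩,⟨9,-252,-352⟩,⟨28,-351,252⟩⟩ (233,[(1,4959),(3,108048),(0,28)]) (233,[(1,145520),(3,64431),(0,252)]) (233,[(1,29736),(3,86140),(0,351)])))))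
theorem h433_ok : h433.check (ok 433 4 ⟨3, 3, 3⟩) (fun _ r => r) [] = true := by decide +kernel

def h437 : T := .node ⟨1,0,0⟩ (.node ⟨0,1,0⟩ (.node ⟨0,0,1⟩ (.leaf false ⟨⟨0,0,437⟩,⟨0,437,0⟩,⟨437,0,0⟩⟩ (1,[(0,437)]) (1,[(1,437)]) (1,[(2,437)])) (.node ⟨408,48,149⟩ (.node ⟨-120,420,13⟩ (.leaf false ⟨⟨-120,420,13⟩,⟨112,45,-420⟩,⟨405,112,120⟩⟩ (1,[(0,1)]) (28,[(2,11799),(4,3496),(0,3)]) (14760,[(2,536199),(1,15295),(0,2188)])) (.leaf false ⟨⟨13,264,-348⟩,⟨156,-328,-243⟩,⟨408,117,104⟩⟩ (120,[(2,41591),(0,13),(3,37140)]) (10,[(2,2261),(0,13),(3,2180)]) (1,[(2,45),(1,1),(3,69)]))) (.leaf false ⟨⟨-324,-27,-292⟩,⟨-12,436,-27⟩,⟨293,-12,-324⟩⟩ (149,[(3,70860),(2,9993),(0,292)]) (149,[(3,9228),(2,66260),(0,27)]) (149,[(3,175849),(2,13764),(0,324)])))) (.node ⟨0,0,1⟩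 (.node ⟨408,149,48⟩ (.node ⟨-120,13,420⟩ (.leaf false ⟨⟨-120,13,420⟩,⟨112,-420,45⟩,⟨405,120,112⟩⟩ (1,[(0,1)]) (28,[(4,3496),(3,11799),(0,3)]) (14760,[(1,15295),(3,536199),(0,2188)])) (.leaf false ⟨⟨13,-348,264⟩,⟨156,-243,-328⟩,⟨408,104,117⟩⟩ (120,[(2,37140),(0,13),(3,41591)]) (10,[(2,2180),(0,13),(3,2261)]) (1,[(2,69),(1,1),(3,45)]))) (.leaf false ⟨⟨-324,-292,-27⟩,⟨-12,-27,436⟩,⟨293,-324,-12⟩⟩ (149,[(1,9993),(3,70860),(0,292)]) (149,[(1,66260),(3,9228),(0,27)]) (149,[(1,13764),(3,175849),(0,324)]))) (.node ⟨-148,-408,-51⟩ (.node ⟨-51,148,-408⟩ (.leaf false ⟨⟨-148,-408,-51⟩,⟨-51,72,-428⟩,⟨408,-139,-72⟩⟩ (1,[(1,1)]) (102,[(4,255),(3,8492),(0,107)]) (17,[(4,7089),(3,2807),(0,3)])) (.leaf false ⟨⟨-27,-292,-324⟩,⟨-12,-324,293⟩,⟨436,-27,-12⟩⟩ (102,[(2,29325),(4,8050),(1,73)])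 (10678,[(2,1029733),(0,10764),(1,4575)]) (136,[(2,1173),(4,60628),(1,9)]))) (.leaf false ⟨⟨12,-40,-435⟩,⟨240,-363,40⟩,⟨365,240,-12⟩⟩ (37,[(1,16248),(0,3),(2,2704)]) (37,[(1,1580),(0,60),(2,37911)]) (148,[(1,20391),(0,365),(2,113400)]))))) (.node ⟨0,1,0⟩ (.node ⟨0,0,1⟩ (.node ⟨149,48,408⟩ (.node ⟨13,420,-120⟩ (.leaf false ⟨⟨-420,45,112⟩,⟨13,420,-120⟩,⟨120,112,405⟩⟩ (28,[(2,3496),(4,11799),(0,3)]) (1,[(0,1)]) (14760,[(4,536199),(0,2188),(1,15295)])) (.leaf false ⟨⟨-348,264,13⟩,⟨-243,-328,156⟩,⟨104,117,408⟩⟩ (120,[(4,41591),(3,37140),(0,13)]) (10,[(4,2261),(3,2180),(0,13)]) (1,[(4,45),(3,69),(1,1)]))) (.leaf false ⟨⟨-411,-132,68⟩,⟨-148,348,-219⟩,⟨-12,229,372⟩⟩ (149,[(1,177820),(0,411),(2,60)]) (149,[(1,27753),(0,148),(2,58956)]) (149,[(1,60324),(0,12),(2,34697)])))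 (.node ⟨-51,-148,-408⟩ (.node ⟨-408,-51,148⟩ (.leaf false ⟨⟨-428,-51,72⟩,⟨-72,408,-139⟩,⟨-51,-148,-408⟩⟩ (102,[(2,8492),(0,107),(3,255)]) (17,[(2,2807),(0,3),(3,7089)]) (1,[(1,1)])) (.leaf false ⟨⟨-324,-27,-292⟩,⟨-12,436,-27⟩,⟨293,-12,-324⟩⟩ (102,[(1,73),(4,29325),(3,8050)]) (136,[(1,9),(4,1173),(3,60628)]) (10678,[(1,4575),(4,1029733),(0,10764)]))) (.leaf false ⟨⟨-435,12,-40⟩,⟨-12,365,240⟩,⟨40,240,-363⟩⟩ (37,[(1,2704),(3,16248),(0,3)]) (148,[(1,113400),(3,20391),(0,365)]) (37,[(1,37911),(3,1580),(0,60)])))) (.node ⟨0,0,1⟩ (.node ⟨-51,-408,-148⟩ (.node ⟨-408,148,-51⟩ (.leaf false ⟨⟨-428,72,-51⟩,⟨-72,-139,408⟩,⟨-51,-408,-148⟩⟩ (102,[(2,255),(0,107),(3,8492)]) (17,[(2,7089),(0,3),(3,2807)]) (1,[(1,1)])) (.leaf false ⟨⟨-324,-292,-27⟩,⟨-12,-27,436⟩,⟨293,-324,-12⟩⟩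 (102,[(2,8050),(4,29325),(1,73)]) (136,[(2,60628),(4,1173),(1,9)]) (43503,[(2,1029733),(1,22207),(0,34017)]))) (.leaf false ⟨⟨-435,-40,12⟩,⟨-12,240,365⟩,⟨40,-363,240⟩⟩ (37,[(3,16248),(2,2704),(0,3)]) (148,[(3,20391),(2,113400),(0,365)]) (37,[(3,1580),(2,37911),(0,60)]))) (.node ⟨-23,138,-414⟩ (.node ⟨-414,-23,138⟩ (.node ⟨-138,138,-391⟩ (.leaf false ⟨⟨-414,-23,138⟩,⟨-138,138,-391⟩,⟨-23,-414,-138⟩⟩ (1,[(1,1)]) (1,[(0,1)]) (6,[(3,437),(0,1),(4,2622)])) (.leaf false ⟨⟨-435,-40,-12⟩,⟨12,-240,365⟩,⟨40,-363,-240⟩⟩ (437,[(2,23313),(1,6610),(0,22338)]) (437,[(2,40242),(1,10818),(0,39199)]) (437,[(2,150746),(1,39993),(0,145230)]))) (.leaf false ⟨⟨-414,-138,-23⟩,⟨-23,138,-414⟩,⟨138,-391,-138⟩⟩ (6,[(4,2898),(3,851),(0,1)]) (1,[(1,1)]) (1,[(4,276),(3,414),(0,1)]))) (.leaf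 false ⟨⟨-435,-40,-12⟩,⟨12,-240,365⟩,⟨40,-363,-240⟩⟩ (69,[(1,9108),(3,30475),(0,20)]) (23,[(1,8165),(3,644),(0,40)]) (46,[(1,61134),(3,943),(0,121)])))))
theorem h437_ok : h437.check (ok 437 4 ⟨3, 3, 3⟩) (fun _ r => r) [] = true := by decide +kernel

def h439 : T := .node ⟨1,0,0⟩ (.node ⟨0,1,0⟩ (.node ⟨0,0,1⟩ (.node ⟨-291,218,246⟩ (.node ⟨354,189,-178⟩ (.node ⟨214,-42,381⟩ (.leaf false ⟨⟨-147,394,126⟩,⟨214,-42,381⟩,⟨354,189,-178⟩⟩ (41,[(5,84),(4,11576),(2,21)]) (1,[(0,1)]) (1,[(1,1)])) (.leaf false ⟨⟨-414,141,-38⟩,⟨-3,106,426⟩,⟨146,402,-99⟩⟩ (14,[(3,17375),(5,4262),(0,47)]) (21,[(3,29139),(5,11279),(0,53)]) (7,[(3,24834),(5,15360),(0,67)]))) (.leaf false ⟨⟨-291,-218,246⟩,⟨-162,381,146⟩,⟨286,-6,333⟩⟩ (89,[(4,17643),(3,3845),(0,123)]) (89,[(4,11424),(3,47706),(0,73)])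 (178,[(4,168790),(3,61869),(0,333)]))) (.leaf false ⟨⟨102,29,426⟩,⟨246,354,-83⟩,⟨349,-258,-66⟩⟩ (97,[(1,49686),(0,34),(2,10225)]) (97,[(1,12121),(0,82),(2,52214)]) (291,[(1,66648),(0,349),(2,1004)]))) (.node ⟨-146,402,-99⟩ (.node ⟨402,-146,-99⟩ (.node ⟨-3,-106,-426⟩ (.leaf false ⟨⟨-146,402,-99⟩,⟨-3,-106,-426⟩,⟨414,141,-38⟩⟩ (1,[(2,1)]) (1,[(0,1)]) (99,[(1,38),(5,25710),(4,19507)])) (.leaf false ⟨⟨-126,394,-147⟩,⟨178,189,354⟩,⟨381,42,-214⟩⟩ (17536,[(3,760350),(1,859),(2,17499)]) (21892052,[(1,12714757),(0,23190812),(2,8795339)]) (1435,[(3,1203874),(1,1342),(0,2417)]))) (.leaf false ⟨⟨-403,174,6⟩,⟨6,29,-438⟩,⟨174,402,29⟩⟩ (73,[(2,8175),(4,5555),(0,87)]) (146,[(2,66819),(4,12534),(0,29)]) (73,[(2,17782),(4,93504),(0,201)]))) (.leaf false ⟨⟨29,6,-438⟩,⟨174,-403,6⟩,⟨402,174,29⟩⟩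 (146,[(1,66819),(0,29),(2,12534)]) (73,[(1,8175),(0,87),(2,5555)]) (73,[(1,17782),(0,201),(2,93504)])))) (.node ⟨0,0,1⟩ (.node ⟨-146,-99,402⟩ (.node ⟨402,-99,-146⟩ (.node ⟨-3,-426,-106⟩ (.leaf false ⟨⟨-146,-99,402⟩,⟨-3,-426,-106⟩,⟨414,-38,141⟩⟩ (1,[(2,1)]) (1,[(0,1)]) (99,[(3,19507),(5,25710),(1,38)])) (.leaf false ⟨⟨-126,-147,394⟩,⟨178,354,189⟩,⟨381,-214,42⟩⟩ (17536,[(1,859),(4,760350),(2,17499)]) (21892052,[(1,12714757),(2,8795339),(0,23190812)]) (1435,[(1,1342),(4,1203874),(0,2417)]))) (.leaf false ⟨⟨-403,6,174⟩,⟨6,-438,29⟩,⟨174,29,402⟩⟩ (73,[(4,5555),(3,8175),(0,87)]) (146,[(4,12534),(3,66819),(0,29)]) (73,[(4,93504),(3,17782),(0,201)]))) (.leaf false ⟨⟨29,-438,6⟩,⟨174,6,-403⟩,⟨402,29,174⟩⟩ (146,[(1,12534),(0,29),(2,66819)]) (73,[(1,5555),(0,87),(2,8175)])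 (73,[(1,93504),(0,201),(2,17782)]))) (.node ⟨-227,-294,-234⟩ (.node ⟨326,-258,141⟩ (.node ⟨237,106,-354⟩ (.leaf false ⟨⟨-174,-339,-218⟩,⟨237,106,-354⟩,⟨326,-258,141⟩⟩ (117,[(5,4385),(4,7617),(2,109)]) (1,[(0,1)]) (1,[(1,1)])) (.leaf false ⟨⟨-371,-234,-18⟩,⟨126,-227,354⟩,⟨198,-294,-259⟩⟩ (53,[(3,42372),(5,8066),(0,117)]) (106,[(3,42834),(5,67155),(0,227)]) (53,[(3,65765),(5,45333),(0,147)]))) (.leaf false ⟨⟨-371,-126,-198⟩,⟨18,354,-259⟩,⟨234,-227,-294⟩⟩ (47,[(4,4079),(3,22950),(0,66)]) (141,[(4,86972),(3,16908),(0,259)]) (47,[(4,42946),(3,35953),(0,98)]))) (.leaf false ⟨⟨29,-438,6⟩,⟨174,6,-403⟩,⟨402,29,174⟩⟩ (227,[(1,5424),(0,29),(2,107952)]) (227,[(1,132197),(0,174),(2,49794)]) (227,[(1,54570),(0,402),(2,111605)]))))) (.node ⟨0,1,0⟩ (.node ⟨0,0,1⟩ (.node ⟨-99,402,-146⟩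 (.node ⟨-99,-146,402⟩ (.node ⟨-426,-106,-3⟩ (.leaf false ⟨⟨-426,-106,-3⟩,⟨-99,402,-146⟩,⟨-38,141,414⟩⟩ (1,[(0,1)]) (1,[(2,1)]) (99,[(3,25710),(1,38),(4,19507)])) (.leaf false ⟨⟨-414,-3,146⟩,⟨-38,426,-99⟩,⟨141,106,402⟩⟩ (8610,[(1,3097),(5,4971309),(0,4022)]) (2345577,[(1,321787),(2,2485617),(0,443195)]) (1025,[(1,1007),(5,783294),(0,2412)]))) (.leaf false ⟨⟨-438,29,6⟩,⟨6,174,-403⟩,⟨29,402,174⟩⟩ (146,[(2,12534),(4,66819),(0,29)]) (73,[(2,5555),(4,8175),(0,87)]) (73,[(2,93504),(4,17782),(0,201)]))) (.leaf false ⟨⟨-438,6,29⟩,⟨6,-403,174⟩,⟨29,174,402⟩⟩ (146,[(3,66819),(2,12534),(0,29)]) (73,[(3,8175),(2,5555),(0,87)]) (73,[(3,17782),(2,93504),(0,201)]))) (.node ⟨-234,-227,-294⟩ (.node ⟨141,326,-258⟩ (.node ⟨-354,237,106⟩ (.leaf false ⟨⟨-354,237,106⟩,⟨-218,-174,-339⟩,⟨141,326,-258⟩⟩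 (1,[(0,1)]) (117,[(3,7617),(2,109),(4,4385)]) (1,[(1,1)])) (.leaf false ⟨⟨-438,29,-6⟩,⟨-6,-174,-403⟩,⟨29,402,-174⟩⟩ (53,[(5,24276),(4,2248),(0,3)]) (106,[(5,143298),(4,77067),(0,403)]) (53,[(5,29261),(4,41925),(0,87)]))) (.leaf false ⟨⟨-403,-174,-6⟩,⟨-174,402,29⟩,⟨-6,29,-438⟩⟩ (141,[(2,104820),(0,403),(3,106844)]) (47,[(2,13601),(0,58),(3,37802)]) (47,[(2,21102),(0,2),(3,2015)]))) (.leaf false ⟨⟨-438,29,6⟩,⟨6,174,-403⟩,⟨29,402,174⟩⟩ (227,[(1,7164),(3,106212),(0,29)]) (227,[(1,142637),(3,39354),(0,174)]) (227,[(1,78690),(3,87485),(0,402)])))) (.node ⟨0,0,1⟩ (.node ⟨-234,-294,-227⟩ (.node ⟨141,-258,326⟩ (.node ⟨-354,106,237⟩ (.leaf false ⟨⟨-354,106,237⟩,⟨-218,-339,-174⟩,⟨141,-258,326⟩⟩ (1,[(0,1)]) (117,[(3,4385),(2,109),(4,7617)]) (1,[(1,1)])) (.leaf false ⟨⟨-438,-6,29⟩,⟨-6,-403,-174⟩,⟨29,-174,402⟩⟩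 (53,[(3,2248),(5,24276),(0,3)]) (106,[(3,77067),(5,143298),(0,403)]) (53,[(3,41925),(5,29261),(0,87)]))) (.leaf false ⟨⟨-403,-6,-174⟩,⟨-174,29,402⟩,⟨-6,-438,29⟩⟩ (141,[(2,106844),(0,403),(3,104820)]) (47,[(2,37802),(0,58),(3,13601)]) (47,[(2,2015),(0,2),(3,21102)]))) (.leaf false ⟨⟨-438,6,29⟩,⟨6,-403,174⟩,⟨29,174,402⟩⟩ (227,[(3,106212),(2,7164),(0,29)]) (227,[(3,39354),(2,142637),(0,174)]) (227,[(3,87485),(2,78690),(0,402)]))) (.leaf false ⟨⟨-439,0,0⟩,⟨0,-439,0⟩,⟨0,0,-439⟩⟩ (1,[(2,439)]) (1,[(1,439)]) (1,[(0,439)]))))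
theorem h439_ok : h439.check (ok 439 4 ⟨3, 3, 3⟩) (fun _ r => r) [] = true := by decide +kernel

def h443 : T := .node ⟨1,0,0⟩ (.node ⟨0,1,0⟩ (.node ⟨0,0,1⟩ (.node ⟨-210,-7,390⟩ (.node ⟨345,-210,182⟩ (.leaf false ⟨⟨-210,-7,390⟩,⟨182,390,105⟩,⟨345,-210,182⟩⟩ (1,[(1,1)]) (26,[(4,6202),(3,10189),(1,7)]) (1,[(0,1)])) (.leaf false ⟨⟨-358,258,-39⟩,⟨78,169,402⟩,⟨249,318,-182⟩⟩ (6202,[(4,1068959),(0,7719),(1,2982)]) (40313,[(4,27092994),(0,34362),(1,57589)]) (3101,[(4,2559654),(0,4721),(1,756)]))) (.node ⟨-38,342,-279⟩ (.leaf false ⟨⟨-38,342,-279⟩,⟨18,281,342⟩,⟨441,18,-38⟩⟩ (1,[(0,1)]) (342,[(2,195363),(4,16834),(0,281)]) (72086,[(2,56541419),(1,151506),(0,693)])) (.leaf false ⟨⟨18,-38,441⟩,⟨281,342,18⟩,⟨342,-279,-38⟩⟩ (19,[(2,5868),(0,9),(3,2356)]) (210,[(2,113370),(1,281),(3,69853)])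 (36043,[(2,10863688),(0,30492),(1,53181)])))) (.node ⟨-42,42,-439⟩ (.node ⟨2,441,42⟩ (.leaf false ⟨⟨-42,42,-439⟩,⟨2,441,42⟩,⟨441,2,-42⟩⟩ (1,[(1,1)]) (1,[(0,1)]) (21,[(2,443),(4,9303),(1,1)])) (.leaf false ⟨⟨-34,-183,-402⟩,⟨57,398,-186⟩,⟨438,-66,-7⟩⟩ (65121,[(4,225044),(1,56532),(0,32407)]) (7,[(4,461),(3,16457),(0,31)]) (6,[(4,2630),(3,45),(0,1)]))) (.leaf false ⟨⟨2,441,-42⟩,⟨42,-42,-439⟩,⟨441,2,42⟩⟩ (21,[(1,1321),(0,1),(2,9303)]) (1,[(1,878),(0,1)]) (2,[(1,9135),(0,21),(2,886)])))) (.node ⟨0,0,1⟩ (.node ⟨-42,-439,42⟩ (.node ⟨2,42,441⟩ (.leaf false ⟨⟨-42,-439,42⟩,⟨2,42,441⟩,⟨441,-42,2⟩⟩ (1,[(1,1)]) (1,[(0,1)]) (21,[(4,9303),(3,443),(1,1)])) (.leaf false ⟨⟨-34,-402,-183⟩,⟨57,-186,398⟩,⟨438,-7,-66⟩⟩ (65121,[(4,225044),(0,32407),(1,56532)]) (7,[(2,16457),(4,461),(0,31)])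 (6,[(2,45),(4,2630),(0,1)]))) (.leaf false ⟨⟨2,-42,441⟩,⟨42,-439,-42⟩,⟨441,42,2⟩⟩ (21,[(1,9303),(0,1),(2,1321)]) (1,[(0,1),(2,878)]) (2,[(1,886),(0,21),(2,9135)]))) (.node ⟨398,-87,174⟩ (.node ⟨-106,-423,-78⟩ (.node ⟨153,38,-414⟩ (.leaf false ⟨⟨-106,-423,-78⟩,⟨153,38,-414⟩,⟨402,-126,137⟩⟩ (1,[(1,1)]) (1,[(0,1)]) (199,[(3,7711),(2,201),(4,7587)])) (.leaf false ⟨⟨-407,-174,-18⟩,⟨18,-87,434⟩,⟨174,-398,-87⟩⟩ (19,[(3,36360),(5,5578),(0,87)]) (38,[(3,19526),(5,13995),(0,87)]) (19,[(3,84039),(5,33753),(0,199)]))) (.leaf false ⟨⟨38,126,-423⟩,⟨153,-402,-106⟩,⟨414,137,78⟩⟩ (53,[(2,23901),(0,19),(3,1359)]) (106,[(2,23170),(0,153),(3,107331)]) (53,[(2,12012),(0,207),(3,80300)]))) (.leaf false ⟨⟨-402,34,-183⟩,⟨-7,-438,-66⟩,⟨186,57,-398⟩⟩ (58,[(3,962),(2,3335),(0,61)])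 (29,[(3,4175),(2,13659),(0,11)]) (87,[(3,95384),(2,12354),(0,199)]))))) (.node ⟨0,1,0⟩ (.node ⟨0,0,1⟩ (.node ⟨-439,-42,42⟩ (.node ⟨42,2,441⟩ (.leaf false ⟨⟨-439,-42,42⟩,⟨-42,441,2⟩,⟨42,2,441⟩⟩ (1,[(1,1)]) (21,[(1,1),(4,443),(3,9303)]) (1,[(0,1)])) (.leaf false ⟨⟨-402,-34,-183⟩,⟨-186,57,398⟩,⟨-7,438,-66⟩⟩ (65121,[(1,56532),(0,32407),(3,225044)]) (7,[(2,16457),(0,31),(3,461)]) (6,[(2,45),(0,1),(3,2630)]))) (.leaf false ⟨⟨-439,42,-42⟩,⟨-42,2,441⟩,⟨42,441,2⟩⟩ (1,[(3,878),(0,1)]) (21,[(1,9303),(3,1321),(0,1)]) (2,[(1,886),(3,9135),(0,21)]))) (.node ⟨-87,398,174⟩ (.node ⟨-423,-106,-78⟩ (.node ⟨38,153,-414⟩ (.leaf false ⟨⟨-423,-106,-78⟩,⟨-126,402,137⟩,⟨38,153,-414⟩⟩ (1,[(1,1)]) (199,[(3,7711),(5,7587),(2,201)]) (1,[(0,1)])) (.leaf false ⟨⟨-439,-42,-42⟩,⟨-42,-2,441⟩,⟨-42,441,-2⟩⟩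 (38,[(3,183342),(0,439),(4,65571)]) (19,[(3,315),(0,21),(4,3175)]) (19,[(3,8732),(0,21),(4,11592)]))) (.leaf false ⟨⟨-423,78,-106⟩,⟨38,414,153⟩,⟨126,137,-402⟩⟩ (53,[(2,8660),(4,38916),(0,39)]) (53,[(2,8037),(4,85547),(0,207)]) (106,[(2,53298),(4,44595),(0,137)]))) (.leaf false ⟨⟨-438,-7,-66⟩,⟨34,-402,-183⟩,⟨57,186,-398⟩⟩ (29,[(3,13659),(2,4175),(0,11)]) (58,[(3,3335),(2,962),(0,61)]) (87,[(3,12354),(2,95384),(0,199)])))) (.node ⟨0,0,1⟩ (.node ⟨-87,174,398⟩ (.node ⟨-423,-78,-106⟩ (.node ⟨38,-414,153⟩ (.leaf false ⟨⟨-423,-78,-106⟩,⟨-126,137,402⟩,⟨38,-414,153⟩⟩ (1,[(1,1)]) (199,[(2,201),(5,7587),(4,7711)]) (1,[(0,1)])) (.leaf false ⟨⟨-439,-42,-42⟩,⟨-42,-2,441⟩,⟨-42,441,-2⟩⟩ (38,[(3,65571),(0,439),(4,183342)]) (19,[(3,11592),(0,21),(4,8732)]) (19,[(3,3175),(0,21),(4,315)])))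 (.leaf false ⟨⟨-423,-106,78⟩,⟨38,153,414⟩,⟨126,-402,137⟩⟩ (53,[(4,38916),(3,8660),(0,39)]) (53,[(4,85547),(3,8037),(0,207)]) (106,[(4,44595),(3,53298),(0,137)]))) (.leaf false ⟨⟨-438,-66,-7⟩,⟨34,-183,-402⟩,⟨57,-398,186⟩⟩ (29,[(1,4175),(3,13659),(0,11)]) (58,[(1,962),(3,3335),(0,61)]) (87,[(1,95384),(3,12354),(0,199)]))) (.leaf false ⟨⟨-443,0,0⟩,⟨0,-443,0⟩,⟨0,0,-443⟩⟩ (1,[(2,443)]) (1,[(1,443)]) (1,[(0,443)]))))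
theorem h443_ok : h443.check (ok 443 4 ⟨3, 3, 3⟩) (fun _ r => r) [] = true := by decide +kernel

def h449 : T := .node ⟨1,0,0⟩ (.node ⟨0,1,0⟩ (.node ⟨0,0,1⟩ (.leaf false ⟨⟨0,0,449⟩,⟨0,449,0⟩,⟨449,0,0⟩⟩ (1,[(0,449)]) (1,[(1,449)]) (1,[(2,449)])) (.node ⟨-207,44,-396⟩ (.node ⟨161,384,168⟩ (.node ⟨384,-63,-224⟩ (.leaf false ⟨⟨-199,72,-396⟩,⟨72,441,44⟩,⟨396,-44,-207⟩⟩ (1,[(5,8),(4,28),(2,1)]) (42,[(5,1253),(1,11),(4,14298)]) (63,[(3,3185),(0,44),(5,8052)])) (.leaf false ⟨⟨-432,89,84⟩,⟨-39,192,-404⟩,⟨116,396,177⟩⟩ (63,[(3,14644),(5,6960),(0,89)]) (21,[(3,22820),(5,23757),(0,64)]) (7,[(3,8617),(5,17708),(0,44)]))) (.leaf false ⟨⟨-296,84,-327⟩,⟨228,-271,-276⟩,⟨249,348,-136⟩⟩ (56,[(4,973),(3,46560),(0,109)]) (14,[(4,6895),(3,5038),(0,23)]) (21,[(4,7966),(3,13836),(0,17)])))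 (.node ⟨345,-224,-180⟩ (.leaf false ⟨⟨60,424,-135⟩,⟨305,60,324⟩,⟨324,-135,-280⟩⟩ (23,[(2,2385),(0,4),(3,10648)]) (207,[(2,53712),(1,305),(3,25840)]) (115,[(2,12760),(0,108),(3,8667)])) (.leaf false ⟨⟨-359,252,-96⟩,⟨144,44,-423⟩,⟨228,369,116⟩⟩ (7797,[(2,3030948),(1,1631),(0,9092)]) (2599,[(2,2896425),(1,3953),(0,1287)]) (10396,[(2,27524728),(1,59459),(0,28805)]))))) (.node ⟨0,0,1⟩ (.node ⟨-207,-396,44⟩ (.node ⟨161,168,384⟩ (.node ⟨384,-224,-63⟩ (.leaf false ⟨⟨-199,-396,72⟩,⟨72,44,441⟩,⟨396,-207,-44⟩⟩ (1,[(3,28),(5,8),(2,1)]) (42,[(3,14298),(1,11),(5,1253)]) (63,[(5,8052),(0,44),(4,3185)])) (.leaf false ⟨⟨-432,-39,116⟩,⟨84,-404,177⟩,⟨89,192,396⟩⟩ (63,[(5,17328),(4,28441),(0,116)]) (21,[(5,24420),(4,21700),(0,59)]) (7,[(5,17519),(4,8512),(0,44)]))) (.leaf false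 ⟨⟨-296,-327,84⟩,⟨228,-276,-271⟩,⟨249,-136,348⟩⟩ (56,[(2,46560),(4,973),(0,109)]) (14,[(2,5038),(4,6895),(0,23)]) (21,[(2,13836),(4,7966),(0,17)]))) (.node ⟨345,-180,-224⟩ (.leaf false ⟨⟨60,-135,424⟩,⟨305,324,60⟩,⟨324,-280,-135⟩⟩ (23,[(2,10648),(0,4),(3,2385)]) (207,[(2,25840),(1,305),(3,53712)]) (115,[(2,8667),(0,108),(3,12760)])) (.leaf false ⟨⟨-359,-96,252⟩,⟨144,-423,44⟩,⟨228,116,369⟩⟩ (7797,[(1,1631),(3,3030948),(0,9092)]) (2599,[(1,3953),(3,2896425),(0,1287)]) (10396,[(1,59459),(3,27524728),(0,28805)])))) (.node ⟨0,280,-351⟩ (.leaf false ⟨⟨0,-351,-280⟩,⟨0,280,-351⟩,⟨449,0,0⟩⟩ (351,[(0,280),(2,201601)]) (1,[(0,1)]) (1,[(3,449)])) (.leaf false ⟨⟨0,-351,280⟩,⟨0,-280,-351⟩,⟨449,0,0⟩⟩ (280,[(1,44801),(0,351)]) (1,[(1,702),(0,1)]) (1,[(3,449)]))))) (.node ⟨0,1,0⟩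 (.node ⟨0,0,1⟩ (.node ⟨-396,-207,44⟩ (.node ⟨168,161,384⟩ (.node ⟨-224,384,-63⟩ (.leaf false ⟨⟨-396,-199,72⟩,⟨-207,396,-44⟩,⟨44,72,441⟩⟩ (1,[(3,28),(2,1),(4,8)]) (63,[(5,3185),(0,44),(4,8052)]) (42,[(3,14298),(4,1253),(1,11)])) (.leaf false ⟨⟨-432,-39,116⟩,⟨84,-404,177⟩,⟨89,192,396⟩⟩ (63,[(5,53200),(4,42087),(0,116)]) (21,[(5,11452),(4,14172),(0,59)]) (7,[(5,9233),(4,18240),(0,44)]))) (.leaf false ⟨⟨-404,-84,177⟩,⟨-192,89,-396⟩,⟨-39,432,116⟩⟩ (42,[(2,46218),(0,101),(3,12733)]) (7,[(2,300),(0,8),(3,1911)]) (56,[(2,11488),(0,13),(3,26285)]))) (.node ⟨-180,345,-224⟩ (.leaf false ⟨⟨-408,136,129⟩,⟨96,417,-136⟩,⟨161,96,408⟩⟩ (345,[(2,74969),(4,116280),(0,136)]) (966,[(2,75836),(0,807),(1,601)]) (69,[(2,29560),(4,1563),(1,32)])) (.leaf false ⟨⟨-424,33,144⟩,⟨72,-336,289⟩,⟨129,296,312⟩⟩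 (2599,[(4,3454252),(1,4756),(0,2605)]) (10396,[(4,5180040),(1,8147),(0,15013)]) (7797,[(4,19707003),(1,43486),(0,19402)])))) (.node ⟨280,0,-351⟩ (.leaf false ⟨⟨-351,0,-280⟩,⟨0,449,0⟩,⟨280,0,-351⟩⟩ (351,[(3,201601),(0,280)]) (1,[(2,449)]) (1,[(0,1)])) (.leaf false ⟨⟨-351,0,280⟩,⟨-280,0,-351⟩,⟨0,449,0⟩⟩ (280,[(1,44801),(0,351)]) (1,[(1,702),(0,1)]) (1,[(2,449)])))) (.node ⟨0,0,1⟩ (.node ⟨280,-351,0⟩ (.leaf false ⟨⟨-351,-280,0⟩,⟨0,0,449⟩,⟨280,-351,0⟩⟩ (351,[(3,201601),(0,280)]) (1,[(1,449)]) (1,[(0,1)])) (.leaf false ⟨⟨-351,280,0⟩,⟨-280,-351,0⟩,⟨0,0,449⟩⟩ (280,[(0,351),(2,44801)]) (1,[(0,1),(2,702)]) (1,[(1,449)]))) (.node ⟨-204,217,-336⟩ (.node ⟨-204,-336,217⟩ (.node ⟨-399,-84,188⟩ (.leaf false ⟨⟨-399,-84,188⟩,⟨-204,217,-336⟩,⟨-28,-384,-231⟩⟩ (1,[(0,1)]) (1,[(2,1)])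 (51,[(3,13300),(1,7),(4,17232)])) (.leaf false ⟨⟨-399,-204,-28⟩,⟨-84,217,-384⟩,⟨188,-336,-231⟩⟩ (9401,[(2,7668),(5,12087),(1,10660)]) (449,[(2,305),(5,123924),(0,372)]) (535,[(5,413896),(1,983),(0,1792)]))) (.leaf false ⟨⟨-423,-116,-96⟩,⟨-44,369,-252⟩,⟨144,-228,-359⟩⟩ (217,[(4,111375),(3,57428),(0,96)]) (31,[(4,8708),(3,657),(0,36)]) (217,[(4,41988),(3,170100),(0,359)]))) (.leaf false ⟨⟨-423,-96,-116⟩,⟨-44,-252,369⟩,⟨144,-359,-228⟩⟩ (217,[(1,57428),(3,111375),(0,96)]) (31,[(1,657),(3,8708),(0,36)]) (217,[(1,170100),(3,41988),(0,359)])))))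
theorem h449_ok : h449.check (ok 449 4 ⟨3, 3, 3⟩) (fun _ r => r) [] = true := by decide +kernel

def h451 : T := .node ⟨1,0,0⟩ (.node ⟨0,1,0⟩ (.node ⟨0,0,1⟩ (.node ⟨-30,1,450⟩ (.node ⟨-246,369,82⟩ (.node ⟨334,258,-159⟩ (.leaf false ⟨⟨-246,369,82⟩,⟨177,26,414⟩,⟨334,258,-159⟩⟩ (1,[(1,1)]) (129,[(3,55473),(5,18491),(0,13)]) (1,[(0,1)])) (.leaf false ⟨⟨-399,-42,206⟩,⟨118,321,294⟩,⟨174,-314,273⟩⟩ (159,[(5,5363),(4,46470),(0,206)]) (53,[(5,38986),(4,42297),(0,98)]) (53,[(5,39616),(4,6836),(0,91)]))) (.leaf false ⟨⟨-30,1,450⟩,⟨30,450,1⟩,⟨449,-30,30⟩⟩ (1,[(1,1)]) (40,[(3,19844),(1,1),(0,5)]) (120,[(3,79376),(1,49),(0,225)]))) (.node ⟨342,-114,-271⟩ (.leaf false ⟨⟨1,30,450⟩,⟨30,449,-30⟩,⟨450,-30,1⟩⟩ (30,[(2,13950),(1,1),(3,901)]) (1,[(2,420),(1,1),(3,450)]) (19,[(2,6794),(0,25),(3,2280)]))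 (.leaf false ⟨⟨-415,174,30⟩,⟨30,145,-426⟩,⟨174,390,145⟩⟩ (3078,[(2,4279285),(1,12198),(0,4805)]) (513,[(2,3559382),(1,8835),(0,730)]) (513,[(2,11029276),(1,25536),(0,1979)])))) (.node ⟨-126,42,-431⟩ (.node ⟨6,433,126⟩ (.leaf false ⟨⟨-126,42,-431⟩,⟨6,449,42⟩,⟨433,6,-126⟩⟩ (1,[(1,1)]) (9135,[(2,802780),(0,9471),(1,16)]) (7,[(2,451),(4,3157),(1,1)])) (.leaf false ⟨⟨-111,98,-426⟩,⟨162,-399,-134⟩,⟨406,186,-63⟩⟩ (431,[(4,5835),(3,24346),(1,426)]) (63,[(4,10608),(3,3874),(0,67)]) (2,[(4,818),(3,805),(0,1)]))) (.leaf false ⟨⟨6,449,-42⟩,⟨126,-42,-431⟩,⟨433,6,126⟩⟩ (21,[(1,1313),(0,1),(2,9471)]) (1,[(1,862),(0,1)]) (126,[(1,170747),(0,433),(2,18942)])))) (.node ⟨0,0,1⟩ (.node ⟨-126,-431,42⟩ (.node ⟨6,126,433⟩ (.leaf false ⟨⟨-126,-431,42⟩,⟨6,42,449⟩,⟨433,-126,6⟩⟩ (1,[(1,1)])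 (9135,[(3,802780),(1,16),(0,9471)]) (7,[(4,3157),(3,451),(1,1)])) (.leaf false ⟨⟨-111,-426,98⟩,⟨162,-134,-399⟩,⟨406,-63,186⟩⟩ (431,[(2,24346),(4,5835),(1,426)]) (63,[(2,3874),(4,10608),(0,67)]) (2,[(2,805),(4,818),(0,1)]))) (.leaf false ⟨⟨6,-42,449⟩,⟨126,-431,-42⟩,⟨433,126,6⟩⟩ (21,[(1,9471),(0,1),(2,1313)]) (1,[(0,1),(2,862)]) (126,[(1,18942),(0,433),(2,170747)]))) (.node ⟨-99,-440,0⟩ (.leaf false ⟨⟨-99,-440,0⟩,⟨0,0,-451⟩,⟨440,-99,0⟩⟩ (1,[(0,1)]) (1,[(1,451)]) (40,[(3,18491),(0,9)])) (.node ⟨370,-126,225⟩ (.leaf false ⟨⟨30,-450,1⟩,⟨30,1,-450⟩,⟨449,30,30⟩⟩ (37,[(2,638),(0,3),(3,16272)]) (33,[(2,14850),(1,10),(3,4367)]) (135,[(1,545),(0,18),(3,233482)])) (.leaf false ⟨⟨-378,1,-246⟩,⟨161,342,-246⟩,⟨186,-294,-287⟩⟩ (7425,[(1,1990),(3,1891043),(0,8118)]) (7425,[(1,42415),(3,17146118),(0,8118)])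 (22275,[(1,148040),(3,75266488),(0,28413)])))))) (.node ⟨0,1,0⟩ (.node ⟨0,0,1⟩ (.node ⟨-431,-126,42⟩ (.node ⟨126,6,433⟩ (.leaf false ⟨⟨-431,-126,42⟩,⟨-126,433,6⟩,⟨42,6,449⟩⟩ (1,[(1,1)]) (7,[(1,1),(4,451),(3,3157)]) (9135,[(1,16),(4,802780),(0,9471)])) (.leaf false ⟨⟨-431,-42,-126⟩,⟨-126,-6,433⟩,⟨-42,449,-6⟩⟩ (2215,[(2,2314690),(1,451),(0,6034)]) (1,[(2,866),(0,1)]) (3,[(2,415),(0,1),(3,1353)]))) (.leaf false ⟨⟨-431,126,-42⟩,⟨-42,6,449⟩,⟨126,433,6⟩⟩ (1,[(3,862),(0,1)]) (21,[(1,9471),(3,1313),(0,1)]) (126,[(1,18942),(3,170747),(0,433)]))) (.node ⟨0,-99,-440⟩ (.leaf false ⟨⟨-451,0,0⟩,⟨0,-99,-440⟩,⟨0,440,-99⟩⟩ (1,[(3,451)]) (1,[(0,1)]) (40,[(0,9),(2,18491)])) (.node ⟨225,370,-126⟩ (.leaf false ⟨⟨-450,30,1⟩,⟨1,30,-450⟩,⟨30,449,30⟩⟩ (33,[(2,4367),(4,14850),(1,10)])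 (37,[(2,16272),(4,638),(0,3)]) (135,[(2,233482),(1,545),(0,18)])) (.leaf false ⟨⟨-450,-26,-15⟩,⟨-26,225,390⟩,⟨-15,390,-226⟩⟩ (33,[(2,113531),(0,66),(1,238)]) (22275,[(2,18144874),(0,2574),(1,60245)]) (1485,[(2,3084884),(0,99),(1,6220)]))))) (.node ⟨0,0,1⟩ (.node ⟨0,-440,-99⟩ (.leaf false ⟨⟨-451,0,0⟩,⟨0,-440,-99⟩,⟨0,-99,440⟩⟩ (1,[(3,451)]) (1,[(0,1)]) (40,[(1,18491),(0,9)])) (.node ⟨225,-126,370⟩ (.leaf false ⟨⟨-450,1,30⟩,⟨1,-450,30⟩,⟨30,30,449⟩⟩ (33,[(1,10),(4,14850),(3,4367)]) (37,[(4,638),(3,16272),(0,3)]) (135,[(1,545),(3,233482),(0,18)])) (.leaf false ⟨⟨-450,-15,-26⟩,⟨-26,390,225⟩,⟨-15,-226,390⟩⟩ (33,[(1,238),(0,66),(3,113531)]) (22275,[(1,60245),(0,2574),(3,18144874)]) (1485,[(1,6220),(0,99),(3,3084884)])))) (.leaf false ⟨⟨-451,0,0⟩,⟨0,-451,0⟩,⟨0,0,-451⟩⟩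 (1,[(2,451)]) (1,[(1,451)]) (1,[(0,451)]))))
theorem h451_ok : h451.check (ok 451 4 ⟨3, 3, 3⟩) (fun _ r => r) [] = true := by decide +kernel

def h457 : T := .node ⟨1,0,0⟩ (.node ⟨0,1,0⟩ (.node ⟨0,0,1⟩ (.leaf false ⟨⟨0,0,457⟩,⟨0,457,0⟩,⟨457,0,0⟩⟩ (1,[(0,457)]) (1,[(1,457)]) (1,[(2,457)])) (.node ⟨444,57,92⟩ (.node ⟨-63,444,88⟩ (.leaf false ⟨⟨-63,444,88⟩,⟨24,92,-447⟩,⟨452,57,36⟩⟩ (1,[(0,1)]) (111,[(2,51641),(4,4113),(0,23)]) (1,[(2,56),(4,8),(1,1)])) (.leaf false ⟨⟨33,336,-308⟩,⟨84,-308,-327⟩,⟨448,33,84⟩⟩ (21,[(2,5500),(0,11),(3,11940)]) (3,[(2,629),(0,4),(3,852)]) (11217,[(0,980),(1,11179),(3,168078)]))) (.leaf false ⟨⟨-444,-7,-108⟩,⟨48,396,-223⟩,⟨97,-228,-384⟩⟩ (23,[(3,1776),(2,1378),(0,27)]) (92,[(3,103428),(2,49143),(0,223)]) (23,[(3,44855),(2,228),(0,96)]))))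 (.node ⟨0,0,1⟩ (.node ⟨444,92,57⟩ (.node ⟨-63,88,444⟩ (.leaf false ⟨⟨-63,24,452⟩,⟨88,-447,36⟩,⟨444,92,57⟩⟩ (111,[(4,126),(3,7280),(0,113)]) (37,[(4,3445),(3,16803),(0,3)]) (1,[(1,1)])) (.leaf false ⟨⟨33,-308,336⟩,⟨84,-327,-308⟩,⟨448,84,33⟩⟩ (21,[(2,11940),(0,11),(3,5500)]) (3,[(2,852),(0,4),(3,629)]) (11217,[(2,168078),(1,11179),(0,980)]))) (.leaf false ⟨⟨-444,-108,-7⟩,⟨48,-223,396⟩,⟨97,-384,-228⟩⟩ (23,[(1,1378),(3,1776),(0,27)]) (92,[(1,49143),(3,103428),(0,223)]) (23,[(1,228),(3,44855),(0,96)]))) (.node ⟨-223,-384,-108⟩ (.node ⟨200,168,-375⟩ (.node ⟨393,-200,120⟩ (.leaf false ⟨⟨-120,-375,-232⟩,⟨200,168,-375⟩,⟨393,-200,120⟩⟩ (128,[(3,16196),(5,12515),(2,125)]) (1,[(1,1)]) (1,[(0,1)])) (.leaf false ⟨⟨-340,-168,-255⟩,⟨57,340,-300⟩,⟨300,-255,-232⟩⟩ (8,[(5,3961),(4,4744),(0,17)])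 (2,[(5,2079),(4,320),(0,5)]) (15,[(5,15897),(4,9625),(0,29)]))) (.leaf false ⟨⟨-336,-308,33⟩,⟨33,-84,-448⟩,⟨308,-327,84⟩⟩ (6,[(2,3927),(4,184),(0,11)]) (2,[(2,1271),(4,266),(0,1)]) (56,[(2,36171),(4,39048),(0,109)]))) (.node ⟨308,-228,249⟩ (.leaf false ⟨⟨48,-183,-416⟩,⟨297,-304,168⟩,⟨344,288,-87⟩⟩ (77,[(2,35020),(0,12),(3,11355)]) (28,[(2,2019),(0,27),(3,2356)]) (223,[(2,56553),(1,344),(3,67872)])) (.leaf false ⟨⟨-351,52,-288⟩,⟨108,441,-52⟩,⟨272,-108,-351⟩⟩ (7421,[(1,435),(3,1781164),(0,8772)]) (22263,[(1,42908),(3,11961969),(0,23260)]) (7421,[(1,58612),(3,31489800),(0,35883)])))))) (.node ⟨0,1,0⟩ (.node ⟨0,0,1⟩ (.node ⟨92,57,444⟩ (.node ⟨88,444,-63⟩ (.leaf false ⟨⟨-447,36,88⟩,⟨24,452,-63⟩,⟨92,57,444⟩⟩ (37,[(2,3445),(4,16803),(0,3)]) (111,[(2,126),(4,7280),(0,113)])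 (1,[(1,1)])) (.leaf false ⟨⟨-327,-308,84⟩,⟨-308,336,33⟩,⟨84,33,448⟩⟩ (3,[(4,629),(3,852),(0,4)]) (21,[(4,5500),(3,11940),(0,11)]) (11217,[(3,168078),(1,11179),(0,980)]))) (.leaf false ⟨⟨-448,-87,24⟩,⟨-87,384,-232⟩,⟨-24,232,393⟩⟩ (23,[(1,50280),(0,112),(2,4383)]) (92,[(1,17284),(0,87),(2,40287)]) (23,[(1,11703),(0,6),(2,5678)]))) (.node ⟨-108,-223,-384⟩ (.node ⟨-375,200,168⟩ (.node ⟨120,393,-200⟩ (.leaf false ⟨⟨-375,200,168⟩,⟨-232,-120,-375⟩,⟨120,393,-200⟩⟩ (1,[(1,1)]) (128,[(2,125),(5,16196),(4,12515)]) (1,[(0,1)])) (.leaf false ⟨⟨-444,48,97⟩,⟨-108,-223,-384⟩,⟨-7,396,-228⟩⟩ (10,[(3,6430),(0,37),(4,15021)]) (10,[(3,5640),(0,9),(4,1307)]) (120,[(3,28760),(0,7),(4,50271)]))) (.leaf false ⟨⟨-448,33,-84⟩,⟨33,-336,-308⟩,⟨84,308,-327⟩⟩ (2,[(4,1271),(3,266),(0,1)])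 (6,[(4,3927),(3,184),(0,11)]) (56,[(4,36171),(3,39048),(0,109)]))) (.node ⟨249,308,-228⟩ (.leaf false ⟨⟨-416,48,-183⟩,⟨-87,344,288⟩,⟨168,297,-304⟩⟩ (77,[(2,11355),(4,35020),(0,12)]) (223,[(2,67872),(4,56553),(1,344)]) (28,[(2,2356),(4,2019),(0,27)])) (.leaf false ⟨⟨-448,-87,24⟩,⟨-87,384,-232⟩,⟨-24,232,393⟩⟩ (22263,[(2,64768776),(0,90508),(1,116321)]) (7421,[(2,22016756),(0,20291),(1,40804)]) (41,[(2,42735),(0,56),(1,120)]))))) (.node ⟨0,0,1⟩ (.node ⟨-108,-384,-223⟩ (.node ⟨-375,168,200⟩ (.node ⟨120,-200,393⟩ (.leaf false ⟨⟨-375,168,200⟩,⟨-232,-375,-120⟩,⟨120,-200,393⟩⟩ (1,[(1,1)]) (128,[(3,12515),(5,16196),(2,125)]) (1,[(0,1)])) (.leaf false ⟨⟨-444,97,48⟩,⟨-108,-384,-223⟩,⟨-7,-228,396⟩⟩ (10,[(3,15021),(0,37),(4,6430)]) (10,[(3,1307),(0,9),(4,5640)]) (120,[(3,50271),(0,7),(4,28760)])))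 (.leaf false ⟨⟨-448,-84,33⟩,⟨33,-308,-336⟩,⟨84,-327,308⟩⟩ (2,[(2,266),(4,1271),(0,1)]) (6,[(2,184),(4,3927),(0,11)]) (56,[(2,39048),(4,36171),(0,109)]))) (.node ⟨249,-228,308⟩ (.leaf false ⟨⟨-416,-183,48⟩,⟨-87,288,344⟩,⟨168,-304,297⟩⟩ (77,[(4,35020),(3,11355),(0,12)]) (223,[(4,56553),(3,67872),(1,344)]) (28,[(4,2019),(3,2356),(0,27)])) (.leaf false ⟨⟨-448,-87,-24⟩,⟨-87,384,232⟩,⟨24,-232,393⟩⟩ (22263,[(3,74815089),(1,132008),(0,97312)]) (7421,[(3,11353260),(1,28188),(0,14819)]) (7421,[(3,16120184),(1,30155),(0,12364)])))) (.node ⟨-24,-447,92⟩ (.node ⟨-444,57,92⟩ (.leaf false ⟨⟨-452,36,57⟩,⟨-63,-88,-444⟩,⟨-24,-447,92⟩⟩ (111,[(2,4069),(0,113),(3,2445)]) (148,[(2,67644),(0,21),(3,14221)]) (1,[(1,1)])) (.leaf false ⟨⟨-444,-63,-88⟩,⟨57,-452,36⟩,⟨92,-24,-447⟩⟩ (149,[(2,15044),(4,65652),(1,21)])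 (11592,[(4,1907052),(1,10909),(0,6373)]) (19,[(2,7757),(4,1804),(0,8)]))) (.leaf false ⟨⟨-448,33,-84⟩,⟨33,-336,-308⟩,⟨84,308,-327⟩⟩ (23,[(3,10808),(2,8628),(0,21)]) (23,[(3,1089),(2,42147),(0,77)]) (92,[(3,120),(2,117833),(0,327)])))))
theorem h457_ok : h457.check (ok 457 4 ⟨3, 3, 3⟩) (fun _ r => r) [] = true := by decide +kernel

def h461 : T := .node ⟨1,0,0⟩ (.node ⟨0,1,0⟩ (.node ⟨0,0,1⟩ (.leaf false ⟨⟨0,0,461⟩,⟨0,461,0⟩,⟨461,0,0⟩⟩ (1,[(0,461)]) (1,[(1,461)]) (1,[(2,461)])) (.node ⟨0,380,261⟩ (.leaf false ⟨⟨0,261,-380⟩,⟨0,380,261⟩,⟨461,0,0⟩⟩ (380,[(1,212521),(0,261)]) (1,[(0,1)]) (1,[(3,461)])) (.node ⟨-192,-51,-416⟩ (.leaf false ⟨⟨-192,-51,-416⟩,⟨156,416,-123⟩,⟨389,-192,-156⟩⟩ (1,[(0,1)]) (87,[(1,41),(4,13572),(3,51772)]) (87,[(1,52),(4,33843),(3,3056)]))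 (.leaf false ⟨⟨0,461,0⟩,⟨261,0,-380⟩,⟨380,0,261⟩⟩ (1,[(3,461)]) (16704,[(1,60512),(0,22707),(3,21836503)]) (12528,[(1,26992),(0,24795),(3,8992415)]))))) (.node ⟨0,0,1⟩ (.node ⟨0,261,380⟩ (.leaf false ⟨⟨0,-380,261⟩,⟨0,261,380⟩,⟨461,0,0⟩⟩ (380,[(0,261),(2,212521)]) (1,[(0,1)]) (1,[(3,461)])) (.node ⟨-192,-416,-51⟩ (.leaf false ⟨⟨-192,-416,-51⟩,⟨156,-123,416⟩,⟨389,-156,-192⟩⟩ (1,[(0,1)]) (87,[(2,51772),(4,13572),(1,41)]) (87,[(2,3056),(4,33843),(1,52)])) (.leaf false ⟨⟨0,0,461⟩,⟨261,-380,0⟩,⟨380,261,0⟩⟩ (1,[(2,461)]) (16704,[(2,21836503),(0,22707),(1,60512)]) (12528,[(2,8992415),(0,24795),(1,26992)])))) (.node ⟨-240,-315,-236⟩ (.node ⟨264,-340,165⟩ (.node ⟨360,165,-236⟩ (.leaf false ⟨⟨-115,-264,-360⟩,⟨264,-340,165⟩,⟨360,165,-236⟩⟩ (48,[(3,11852),(4,5427),(2,23)])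 (1,[(1,1)]) (1,[(0,1)])) (.leaf false ⟨⟨-372,-259,-84⟩,⟨189,-348,236⟩,⟨196,-156,-387⟩⟩ (165,[(3,74984),(5,31860),(0,259)]) (55,[(3,14396),(5,52155),(0,116)]) (55,[(3,33557),(5,29500),(0,52)]))) (.leaf false ⟨⟨-372,-84,-259⟩,⟨189,236,-348⟩,⟨196,-387,-156⟩⟩ (165,[(4,6996),(3,101920),(0,259)]) (55,[(4,41019),(3,26460),(0,116)]) (55,[(4,24508),(3,38965),(0,52)]))) (.leaf false ⟨⟨60,-411,-200⟩,⟨240,200,-339⟩,⟨389,-60,240⟩⟩ (4,[(1,1036),(0,1),(2,1959)]) (1,[(1,575),(0,1),(2,115)]) (240,[(1,34204),(0,389),(2,136935)]))))) (.node ⟨0,1,0⟩ (.node ⟨0,0,1⟩ (.node ⟨261,0,380⟩ (.leaf false ⟨⟨-380,0,261⟩,⟨0,461,0⟩,⟨261,0,380⟩⟩ (380,[(3,212521),(0,261)]) (1,[(2,461)]) (1,[(0,1)])) (.node ⟨-416,-192,-51⟩ (.leaf false ⟨⟨-416,-192,-51⟩,⟨-156,389,-192⟩,⟨-123,156,416⟩⟩ (1,[(0,1)])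 (87,[(2,3056),(1,52),(3,33843)]) (87,[(2,51772),(1,41),(3,13572)])) (.leaf false ⟨⟨-444,61,108⟩,⟨-3,396,-236⟩,⟨124,228,381⟩⟩ (50112,[(2,46637245),(1,110624),(0,15921)]) (1392,[(2,1270027),(1,4592),(0,2871)]) (4176,[(2,3587747),(1,5920),(0,4959)])))) (.node ⟨-336,205,240⟩ (.node ⟨165,360,-236⟩ (.node ⟨-264,-115,-360⟩ (.leaf false ⟨⟨-340,264,165⟩,⟨-264,-115,-360⟩,⟨165,360,-236⟩⟩ (16,[(5,1744),(2,11),(4,1969)]) (1,[(0,1)]) (1,[(1,1)])) (.leaf false ⟨⟨-444,61,108⟩,⟨-3,396,-236⟩,⟨124,228,381⟩⟩ (115,[(3,9540),(5,67164),(0,61)]) (115,[(3,169700),(5,104889),(0,396)]) (115,[(3,38265),(5,45932),(0,228)]))) (.leaf false ⟨⟨-411,60,200⟩,⟨-200,-240,-339⟩,⟨-60,389,-240⟩⟩ (55,[(2,21332),(0,137),(3,52620)]) (33,[(2,20627),(0,40),(3,6480)]) (11,[(2,3584),(0,4),(3,5719)])))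 (.leaf false ⟨⟨-411,-60,-200⟩,⟨60,389,-240⟩,⟨200,-240,-339⟩⟩ (6,[(3,4146),(2,665),(0,5)]) (1,[(3,276),(2,594),(0,1)]) (80,[(3,21968),(2,3965),(0,113)])))) (.node ⟨0,0,1⟩ (.node ⟨-336,240,205⟩ (.node ⟨165,-236,360⟩ (.node ⟨-264,-360,-115⟩ (.leaf false ⟨⟨-340,165,264⟩,⟨-264,-360,-115⟩,⟨165,-236,360⟩⟩ (16,[(3,1969),(2,11),(5,1744)]) (1,[(0,1)]) (1,[(1,1)])) (.leaf false ⟨⟨-444,-3,124⟩,⟨61,396,228⟩,⟨108,-236,381⟩⟩ (115,[(5,83796),(4,44985),(0,124)]) (115,[(5,53177),(4,36540),(0,228)]) (115,[(5,88164),(4,164300),(0,381)]))) (.leaf false ⟨⟨-411,200,60⟩,⟨-200,-339,-240⟩,⟨-60,-240,389⟩⟩ (55,[(2,52620),(0,137),(3,21332)]) (33,[(2,6480),(0,40),(3,20627)]) (11,[(2,5719),(0,4),(3,3584)]))) (.leaf false ⟨⟨-411,-200,-60⟩,⟨60,-240,389⟩,⟨200,-339,-240⟩⟩ (6,[(1,665),(3,4146),(0,5)])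 (1,[(1,594),(3,276),(0,1)]) (80,[(1,3965),(3,21968),(0,113)]))) (.node ⟨-448,-51,96⟩ (.node ⟨96,-51,-448⟩ (.node ⟨96,-443,84⟩ (.leaf false ⟨⟨-448,-84,69⟩,⟨-51,-96,-448⟩,⟨96,-443,84⟩⟩ (6355,[(3,219897),(2,6454),(0,462)]) (443,[(3,206528),(5,31809),(0,96)]) (1,[(0,1)])) (.node ⟨101,-324,-312⟩ (.leaf false ⟨⟨-444,-123,-16⟩,⟨-72,304,-339⟩,⟨101,-324,-312⟩⟩ (1496,[(3,1566),(5,84303),(2,389)]) (532,[(5,123221),(2,276),(1,675)]) (1,[(0,1)])) (.leaf false ⟨⟨-448,69,84⟩,⟨-96,-84,-443⟩,⟨-51,-448,96⟩⟩ (3824,[(5,13666011),(2,32823),(0,48160)]) (15296,[(5,25189083),(2,74695),(0,85536)]) (1912,[(5,1369045),(2,777),(0,1704)])))) (.leaf false ⟨⟨-448,69,84⟩,⟨-96,-84,-443⟩,⟨-51,-448,96⟩⟩ (3,[(2,6020),(0,14),(3,507)]) (1,[(2,891),(0,1),(3,135)]) (32,[(2,4544),(0,17),(3,15203)])))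 (.leaf false ⟨⟨-448,-51,-96⟩,⟨69,-448,-84⟩,⟨84,96,-443⟩⟩ (1,[(3,896),(2,102),(0,1)]) (8,[(3,2584),(2,3941),(0,7)]) (96,[(3,190400),(2,13377),(0,443)])))))
theorem h461_ok : h461.check (ok 461 4 ⟨3, 3, 3⟩) (fun _ r => r) [] = true := by decide +kernel

def h463 : T := .node ⟨1,0,0⟩ (.node ⟨0,1,0⟩ (.node ⟨0,0,1⟩ (.node ⟨-123,86,438⟩ (.node ⟨438,86,-123⟩ (.node ⟨-18,446,-123⟩ (.leaf false ⟨⟨-123,86,438⟩,⟨-18,453,-94⟩,⟨446,42,117⟩⟩ (1,[(2,1)]) (446,[(3,13795),(5,126),(0,453)]) (43,[(3,7614),(5,9980),(1,21)])) (.leaf false ⟨⟨-102,114,437⟩,⟨114,-427,138⟩,⟨437,138,66⟩⟩ (1071,[(1,55),(4,24140),(2,1084)]) (3116,[(1,641),(4,459444),(0,4137)]) (58905,[(1,66508),(4,39644),(2,27553)]))) (.leaf false ⟨⟨-438,-59,138⟩,⟨18,402,229⟩,⟨149,-222,378⟩⟩ (41,[(4,2190),(3,1537),(0,46)])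 (123,[(4,102516),(3,69140),(0,229)]) (41,[(4,61297),(3,1734),(0,126)]))) (.leaf false ⟨⟨5,30,462⟩,⟨150,437,-30⟩,⟨438,-150,5⟩⟩ (123,[(1,59016),(0,5),(2,4120)]) (41,[(1,20670),(0,50),(2,22217)]) (41,[(1,64153),(0,146),(2,6406)]))) (.node ⟨-22,462,21⟩ (.node ⟨462,21,22⟩ (.leaf false ⟨⟨-22,462,21⟩,⟨21,22,-462⟩,⟨462,21,22⟩⟩ (1,[(1,1)]) (21,[(2,9723),(4,463),(1,1)]) (1,[(0,1)])) (.leaf false ⟨⟨-446,18,-123⟩,⟨42,453,-86⟩,⟨117,-94,-438⟩⟩ (3241,[(4,7385776),(1,993),(0,19068)]) (3241,[(4,7806180),(1,3924),(0,16415)]) (9723,[(4,93870935),(1,7130),(0,200382)]))) (.node ⟨-27,-14,-462⟩ (.leaf false ⟨⟨-27,-14,-462⟩,⟨266,378,-27⟩,⟨378,-267,-14⟩⟩ (1,[(0,1)]) (7,[(1,9),(4,1664),(3,6804)]) (3,[(1,2),(4,1090),(3,123)])) (.leaf false ⟨⟨5,462,30⟩,⟨150,-30,437⟩,⟨438,5,-150⟩⟩ (27,[(2,1500),(0,5),(3,12404)])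 (6391,[(2,13032418),(1,1455),(0,34320)]) (3577,[(1,68802),(0,1966),(3,31776885)]))))) (.node ⟨0,0,1⟩ (.node ⟨-22,21,462⟩ (.node ⟨462,22,21⟩ (.leaf false ⟨⟨-22,21,462⟩,⟨21,-462,22⟩,⟨462,22,21⟩⟩ (1,[(1,1)]) (21,[(4,463),(3,9723),(1,1)]) (1,[(0,1)])) (.leaf false ⟨⟨-446,-123,18⟩,⟨42,-86,453⟩,⟨117,-438,-94⟩⟩ (3241,[(4,7385776),(0,19068),(1,993)]) (3241,[(4,7806180),(0,16415),(1,3924)]) (9723,[(4,93870935),(0,200382),(1,7130)]))) (.node ⟨-27,-462,-14⟩ (.leaf false ⟨⟨-27,-462,-14⟩,⟨266,-27,378⟩,⟨378,-14,-267⟩⟩ (1,[(0,1)]) (7,[(2,6804),(4,1664),(1,9)]) (3,[(2,123),(4,1090),(1,2)])) (.leaf false ⟨⟨5,30,462⟩,⟨150,437,-30⟩,⟨438,-150,5⟩⟩ (27,[(2,12404),(0,5),(3,1500)]) (6391,[(0,34320),(1,1455),(3,13032418)]) (3577,[(2,31776885),(0,1966),(1,68802)])))) (.node ⟨-203,-378,-174⟩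 (.node ⟨94,117,-438⟩ (.node ⟨453,-42,86⟩ (.leaf false ⟨⟨-18,-446,-123⟩,⟨94,117,-438⟩,⟨453,-42,86⟩⟩ (58,[(5,7279),(4,10370),(2,41)]) (1,[(1,1)]) (1,[(0,1)])) (.leaf false ⟨⟨-418,-171,-102⟩,⟨21,198,-418⟩,⟨198,-382,-171⟩⟩ (43,[(5,5129),(4,9495),(0,51)]) (43,[(5,95580),(4,264),(0,209)]) (86,[(5,94491),(4,40034),(0,171)]))) (.leaf false ⟨⟨-283,-366,18⟩,⟨234,-198,-347⟩,⟨282,-203,306⟩⟩ (39,[(2,52734),(4,431),(0,122)]) (13,[(2,14147),(4,5110),(0,22)]) (117,[(2,53112),(4,52076),(0,203)]))) (.leaf false ⟨⟨18,-459,-58⟩,⟨261,58,-378⟩,⟨382,-18,261⟩⟩ (203,[(1,14906),(0,18),(2,99981)]) (7,[(1,4212),(0,9),(2,2996)]) (203,[(1,13485),(0,382),(2,148050)]))))) (.node ⟨0,1,0⟩ (.node ⟨0,0,1⟩ (.node ⟨21,-22,462⟩ (.node ⟨22,462,21⟩ (.leaf false ⟨⟨-462,21,22⟩,⟨21,-22,462⟩,⟨22,462,21⟩⟩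 (21,[(4,9723),(3,463),(1,1)]) (1,[(1,1)]) (1,[(0,1)])) (.leaf false ⟨⟨-462,-14,-27⟩,⟨-27,378,266⟩,⟨-14,-267,378⟩⟩ (3241,[(3,32804476),(1,3036),(0,70959)]) (1389,[(3,1737176),(1,917),(0,2580)]) (463,[(3,202331),(1,410),(0,686)]))) (.node ⟨-462,-27,-14⟩ (.leaf false ⟨⟨-462,-27,-14⟩,⟨-27,266,378⟩,⟨-14,378,-267⟩⟩ (1,[(0,1)]) (7,[(2,6804),(1,9),(3,1664)]) (3,[(2,123),(1,2),(3,1090)])) (.leaf false ⟨⟨-462,22,21⟩,⟨21,462,-22⟩,⟨22,21,462⟩⟩ (1,[(2,483),(4,441),(1,1)]) (581,[(4,4453218),(1,321),(0,9680)]) (9,[(2,4060),(4,3036),(0,7)])))) (.node ⟨-174,-203,-378⟩ (.node ⟨-438,94,117⟩ (.node ⟨86,453,-42⟩ (.leaf false ⟨⟨-438,94,117⟩,⟨-123,-18,-446⟩,⟨86,453,-42⟩⟩ (1,[(1,1)]) (58,[(3,10370),(2,41),(4,7279)]) (1,[(0,1)])) (.leaf false ⟨⟨-438,-94,117⟩,⟨-123,18,-446⟩,⟨-86,453,42⟩⟩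 (43,[(3,4167),(0,219),(4,95165)]) (86,[(3,43522),(0,123),(4,57267)]) (1,[(0,1),(4,906)]))) (.leaf false ⟨⟨-446,18,-123⟩,⟨42,453,-86⟩,⟨117,-94,-438⟩⟩ (39,[(4,35352),(3,4556),(0,41)]) (117,[(4,32754),(3,61085),(0,86)]) (39,[(4,59385),(3,10058),(0,146)]))) (.leaf false ⟨⟨-462,30,5⟩,⟨5,150,-438⟩,⟨30,437,150⟩⟩ (203,[(1,10325),(3,99006),(0,30)]) (203,[(1,145614),(3,25085),(0,150)]) (203,[(1,134736),(3,69948),(0,437)])))) (.node ⟨0,0,1⟩ (.node ⟨-174,-378,-203⟩ (.node ⟨-438,117,94⟩ (.node ⟨86,-42,453⟩ (.leaf false ⟨⟨-438,117,94⟩,⟨-123,-446,-18⟩,⟨86,-42,453⟩⟩ (1,[(1,1)]) (58,[(3,7279),(2,41),(4,10370)]) (1,[(0,1)])) (.leaf false ⟨⟨-438,117,-94⟩,⟨-123,-446,18⟩,⟨-86,42,453⟩⟩ (43,[(3,95165),(0,219),(4,4167)]) (86,[(3,57267),(0,123),(4,43522)]) (1,[(3,906),(0,1)]))) (.leaf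 false ⟨⟨-446,-123,18⟩,⟨42,-86,453⟩,⟨117,-438,-94⟩⟩ (39,[(2,4556),(4,35352),(0,41)]) (117,[(2,61085),(4,32754),(0,86)]) (39,[(2,10058),(4,59385),(0,146)]))) (.leaf false ⟨⟨-462,5,30⟩,⟨5,-438,150⟩,⟨30,150,437⟩⟩ (203,[(3,99006),(2,10325),(0,30)]) (203,[(3,25085),(2,145614),(0,150)]) (203,[(3,69948),(2,134736),(0,437)]))) (.leaf false ⟨⟨-463,0,0⟩,⟨0,-463,0⟩,⟨0,0,-463⟩⟩ (1,[(2,463)]) (1,[(1,463)]) (1,[(0,463)]))))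
theorem h463_ok : h463.check (ok 463 4 ⟨3, 3, 3⟩) (fun _ r => r) [] = true := by decide +kernel

def h467 : T := .node ⟨1,0,0⟩ (.node ⟨0,1,0⟩ (.node ⟨0,0,1⟩ (.node ⟨-242,225,330⟩ (.node ⟨102,442,-111⟩ (.node ⟨442,-111,102⟩ (.leaf false ⟨⟨-78,102,449⟩,⟨129,442,-78⟩,⟨442,-111,102⟩⟩ (75,[(3,22455),(5,2378),(2,34)]) (1,[(3,33),(5,27),(1,1)]) (1,[(0,1)])) (.leaf false ⟨⟨-447,118,-66⟩,⟨-18,174,433⟩,⟨134,417,-162⟩⟩ (111,[(3,4710),(5,2539),(0,118)]) (37,[(3,21937),(5,24970),(0,58)]) (37,[(3,8184),(5,66396),(0,139)]))) (.leaf false ⟨⟨-287,-186,318⟩,⟨-42,417,206⟩,⟨366,-98,273⟩⟩ (37,[(4,193),(3,39970),(0,106)]) (111,[(4,16350),(3,137339),(0,206)]) (37,[(4,22824),(3,36596),(0,91)]))) (.leaf false ⟨⟨17,330,330⟩,⟨330,-242,225⟩,⟨330,225,-242⟩⟩ (242,[(1,85470),(0,17),(2,83685)])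 (11,[(1,7425),(0,15),(2,713)]) (11,[(1,2288),(0,15),(2,5850)]))) (.node ⟨-66,17,-462⟩ (.node ⟨298,273,234⟩ (.node ⟨458,-63,-66⟩ (.leaf false ⟨⟨-63,26,-462⟩,⟨66,462,17⟩,⟨458,-63,-66⟩⟩ (1,[(5,3),(4,9),(2,1)]) (149,[(3,5189),(1,33),(4,59829)]) (1,[(0,1)])) (.leaf false ⟨⟨-442,102,-111⟩,⟨78,449,102⟩,⟨129,78,-442⟩⟩ (21,[(3,4575),(5,6290),(0,34)]) (63,[(3,23208),(5,210556),(0,449)]) (21,[(3,10998),(5,14617),(0,26)]))) (.leaf false ⟨⟨-298,-207,-294⟩,⟨-63,406,-222⟩,⟨354,-102,-287⟩⟩ (39,[(4,2980),(3,5304),(0,49)]) (39,[(4,8569),(3,25935),(0,37)]) (234,[(4,168362),(3,54483),(0,287)]))) (.leaf false ⟨⟨1,342,-318⟩,⟨162,298,321⟩,⟨438,-111,-118⟩⟩ (66,[(1,21450),(0,1),(2,22589)]) (11,[(1,8943),(0,27),(2,3737)]) (11,[(1,35024),(0,73),(2,20)])))) (.node ⟨0,0,1⟩ (.node ⟨-66,-462,17⟩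 (.node ⟨298,234,273⟩ (.node ⟨458,-66,-63⟩ (.leaf false ⟨⟨-63,-462,26⟩,⟨66,17,462⟩,⟨458,-66,-63⟩⟩ (1,[(3,9),(5,3),(2,1)]) (149,[(3,59829),(1,33),(4,5189)]) (1,[(0,1)])) (.leaf false ⟨⟨-442,-111,102⟩,⟨78,102,449⟩,⟨129,-442,78⟩⟩ (21,[(5,6290),(4,4575),(0,34)]) (63,[(5,210556),(4,23208),(0,449)]) (21,[(5,14617),(4,10998),(0,26)]))) (.leaf false ⟨⟨-298,-294,-207⟩,⟨-63,-222,406⟩,⟨354,-287,-102⟩⟩ (39,[(2,5304),(4,2980),(0,49)]) (39,[(2,25935),(4,8569),(0,37)]) (234,[(2,54483),(4,168362),(0,287)]))) (.leaf false ⟨⟨1,-318,342⟩,⟨162,321,298⟩,⟨438,-118,-111⟩⟩ (66,[(1,22589),(0,1),(2,21450)]) (11,[(1,3737),(0,27),(2,8943)]) (11,[(1,20),(0,73),(2,35024)]))) (.node ⟨433,-90,150⟩ (.node ⟨-150,-442,-15⟩ (.leaf false ⟨⟨-150,-442,-15⟩,⟨90,-15,-458⟩,⟨433,-150,90⟩⟩ (1,[(0,1)])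 (6,[(2,2898),(4,107),(1,1)]) (2255,[(4,441782),(1,1401),(0,480)])) (.leaf false ⟨⟨18,-134,-447⟩,⟨174,417,-118⟩,⟨433,-162,66⟩⟩ (25,[(2,11220),(0,3),(3,4676)]) (25,[(2,3385),(0,29),(3,2393)]) (1,[(2,84),(1,1),(3,72)]))) (.leaf false ⟨⟨-378,-42,-271⟩,⟨81,-458,-42⟩,⟨262,81,-378⟩⟩ (150,[(3,60643),(2,30690),(0,271)]) (25,[(3,5056),(2,12080),(0,7)]) (25,[(3,33829),(2,3645),(0,63)]))))) (.node ⟨0,1,0⟩ (.node ⟨0,0,1⟩ (.node ⟨-462,-66,17⟩ (.node ⟨234,298,273⟩ (.node ⟨-66,458,-63⟩ (.leaf false ⟨⟨-462,-63,26⟩,⟨-66,458,-63⟩,⟨17,66,462⟩⟩ (1,[(3,9),(2,1),(4,3)]) (1,[(0,1)]) (149,[(3,59829),(5,5189),(1,33)])) (.leaf false ⟨⟨-462,-66,17⟩,⟨-63,458,66⟩,⟨26,-63,462⟩⟩ (63,[(5,30228),(4,3628),(0,17)]) (21,[(5,2775),(4,19694),(0,22)]) (3,[(5,1374),(4,9887),(0,22)]))) (.leaf false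 ⟨⟨-458,-66,-63⟩,⟨-66,17,462⟩,⟨-63,462,-26⟩⟩ (117,[(2,55146),(0,229),(3,60520)]) (39,[(2,21021),(0,11),(3,3941)]) (26,[(2,1235),(0,7),(3,14098)]))) (.leaf false ⟨⟨-415,210,-42⟩,⟨-42,10,465⟩,⟨210,417,10⟩⟩ (11,[(1,133),(3,20735),(0,35)]) (33,[(1,15430),(3,3696),(0,5)]) (22,[(1,2583),(3,59598),(0,139)]))) (.node ⟨-90,433,150⟩ (.node ⟨-442,-150,-15⟩ (.leaf false ⟨⟨-458,-90,-15⟩,⟨-90,433,150⟩,⟨-15,150,-442⟩⟩ (2255,[(0,2335),(1,8),(3,143836)]) (1,[(1,1)]) (6,[(2,2802),(1,1),(3,467)])) (.leaf false ⟨⟨-442,102,-111⟩,⟨78,449,102⟩,⟨129,78,-442⟩⟩ (25,[(2,3030),(4,18564),(0,17)]) (9313,[(2,374004),(1,8489),(0,3372)]) (25,[(2,11245),(4,2521),(0,13)]))) (.leaf false ⟨⟨-458,81,-42⟩,⟨-42,-378,-271⟩,⟨81,262,-378⟩⟩ (25,[(3,12080),(2,5056),(0,7)]) (150,[(3,30690),(2,60643),(0,271)])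 (25,[(3,3645),(2,33829),(0,63)])))) (.node ⟨0,0,1⟩ (.node ⟨-90,150,433⟩ (.node ⟨-442,-15,-150⟩ (.leaf false ⟨⟨-458,-15,-90⟩,⟨-90,150,433⟩,⟨-15,-442,150⟩⟩ (2255,[(2,143836),(1,8),(0,2335)]) (1,[(1,1)]) (6,[(2,467),(1,1),(3,2802)])) (.leaf false ⟨⟨-442,-111,102⟩,⟨78,102,449⟩,⟨129,-442,78⟩⟩ (25,[(4,18564),(3,3030),(0,17)]) (9313,[(1,8489),(3,374004),(0,3372)]) (25,[(4,2521),(3,11245),(0,13)]))) (.leaf false ⟨⟨-458,-42,81⟩,⟨-42,-271,-378⟩,⟨81,-378,262⟩⟩ (25,[(1,5056),(3,12080),(0,7)]) (150,[(1,60643),(3,30690),(0,271)]) (25,[(1,33829),(3,3645),(0,63)]))) (.leaf false ⟨⟨-467,0,0⟩,⟨0,-467,0⟩,⟨0,0,-467⟩⟩ (1,[(2,467)]) (1,[(1,467)]) (1,[(0,467)]))))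
theorem h467_ok : h467.check (ok 467 4 ⟨3, 3, 3⟩) (fun _ r => r) [] = true := by decide +kernel

def h471 : T := .node ⟨1,0,0⟩ (.node ⟨0,1,0⟩ (.node ⟨0,0,1⟩ (.node ⟨-154,10,445⟩ (.node ⟨50,454,-115⟩ (.node ⟨445,-10,154⟩ (.leaf false ⟨⟨-146,125,430⟩,⟨50,454,-115⟩,⟨445,-10,154⟩⟩ (77,[(3,625),(4,8895),(2,73)]) (1,[(1,1)]) (1,[(0,1)])) (.leaf false ⟨⟨-470,29,10⟩,⟨10,290,-371⟩,⟨29,370,290⟩⟩ (10,[(3,4566),(5,8205),(0,29)]) (1,[(3,4095),(5,12915),(0,29)]) (1,[(3,5988),(5,16494),(0,37)]))) (.leaf false ⟨⟨-179,38,434⟩,⟨302,349,94⟩,⟨314,-314,157⟩⟩ (115,[(4,1115),(3,201406),(0,434)]) (115,[(4,39430),(3,82811),(0,94)]) (115,[(4,43960),(3,35168),(0,157)]))) (.node ⟨302,-179,314⟩ (.leaf false ⟨⟨13,374,286⟩,⟨286,221,-302⟩,⟨374,-182,221⟩⟩ (154,[(2,49829),(1,13),(3,57726)])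 (7,[(2,3671),(1,13),(3,1677)]) (4091,[(2,521704),(0,4048),(1,1997)])) (.leaf false ⟨⟨-386,253,94⟩,⟨-22,134,-451⟩,⟨269,374,98⟩⟩ (12273,[(2,8291596),(1,3656),(0,17551)]) (12273,[(2,5798114),(1,18265),(0,10208)]) (24546,[(2,93024367),(1,161099),(0,60286)])))) (.node ⟨-39,-36,-468⟩ (.node ⟨468,-39,-36⟩ (.leaf false ⟨⟨-39,-36,-468⟩,⟨36,468,-39⟩,⟨468,-39,-36⟩⟩ (1,[(1,1)]) (12,[(4,471),(3,5652),(1,1)]) (1,[(0,1)])) (.leaf false ⟨⟨-454,50,-115⟩,⟨10,445,154⟩,⟨125,146,-430⟩⟩ (5652,[(4,1811937),(0,9180),(1,2095)]) (2826,[(4,15905199),(0,33786),(1,1669)]) (2826,[(4,7033443),(0,13968),(1,3671)]))) (.node ⟨461,-94,22⟩ (.leaf false ⟨⟨10,445,-154⟩,⟨125,146,430⟩,⟨454,-50,-115⟩⟩ (39,[(2,10686),(1,10),(3,16995)]) (39,[(2,41730),(1,125),(3,1194)]) (461,[(2,63003),(0,454),(3,19626)]))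 (.leaf false ⟨⟨-458,109,14⟩,⟨29,62,466⟩,⟨106,454,-67⟩⟩ (7464,[(4,438045),(1,619),(0,8418)]) (933,[(4,107913),(1,941),(0,255)]) (2488,[(4,5759151),(1,205),(0,11938)]))))) (.node ⟨0,0,1⟩ (.node ⟨-39,-468,-36⟩ (.node ⟨468,-36,-39⟩ (.leaf false ⟨⟨-39,-468,-36⟩,⟨36,-39,468⟩,⟨468,-36,-39⟩⟩ (1,[(1,1)]) (12,[(2,5652),(4,471),(1,1)]) (1,[(0,1)])) (.leaf false ⟨⟨-454,-115,50⟩,⟨10,154,445⟩,⟨125,-430,146⟩⟩ (5652,[(4,1811937),(1,2095),(0,9180)]) (2826,[(4,15905199),(1,1669),(0,33786)]) (2826,[(4,7033443),(1,3671),(0,13968)]))) (.node ⟨461,22,-94⟩ (.leaf false ⟨⟨10,-154,445⟩,⟨125,430,146⟩,⟨454,-115,-50⟩⟩ (39,[(2,16995),(1,10),(3,10686)]) (39,[(2,1194),(1,125),(3,41730)]) (461,[(2,19626),(0,454),(3,63003)])) (.leaf false ⟨⟨-458,14,109⟩,⟨29,466,62⟩,⟨106,-67,454⟩⟩ (7464,[(1,619),(4,438045),(0,8418)])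 (933,[(1,941),(4,107913),(0,255)]) (2488,[(1,205),(4,5759151),(0,11938)])))) (.node ⟨-255,-396,0⟩ (.leaf false ⟨⟨-255,-396,0⟩,⟨0,0,-471⟩,⟨396,-255,0⟩⟩ (1,[(0,1)]) (1,[(1,471)]) (132,[(3,73947),(0,85)])) (.node ⟨314,-314,157⟩ (.leaf false ⟨⟨29,-122,-454⟩,⟨274,374,-83⟩,⟨382,-259,94⟩⟩ (255,[(2,115770),(1,29),(3,42594)]) (255,[(2,21165),(1,274),(3,13134)]) (68138,[(2,4967951),(1,12874),(0,72439)])) (.leaf false ⟨⟨-410,29,-230⟩,⟨70,-430,-179⟩,⟨221,190,-370⟩⟩ (8007,[(1,1570),(3,4072737),(0,11730)]) (40035,[(1,67196),(3,58157196),(0,45645)]) (40035,[(1,150877),(3,81766542),(0,94350)])))))) (.node ⟨0,1,0⟩ (.node ⟨0,0,1⟩ (.node ⟨-468,-39,-36⟩ (.node ⟨-36,468,-39⟩ (.leaf false ⟨⟨-468,-39,-36⟩,⟨-39,36,468⟩,⟨-36,468,-39⟩⟩ (1,[(1,1)]) (12,[(2,5652),(1,1),(3,471)]) (1,[(0,1)]))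 (.leaf false ⟨⟨-470,10,29⟩,⟨10,-371,290⟩,⟨29,290,370⟩⟩ (2826,[(1,3229),(3,2532567),(0,5082)]) (2826,[(1,1675),(3,9574959),(0,22560)]) (5652,[(1,4063),(3,28647633),(0,57372)]))) (.node ⟨22,461,-94⟩ (.leaf false ⟨⟨-458,29,106⟩,⟨14,466,-67⟩,⟨109,62,454⟩⟩ (39,[(2,3090),(4,31434),(1,29)]) (461,[(2,12917),(4,3798),(0,466)]) (39,[(2,15474),(4,24765),(1,62)])) (.leaf false ⟨⟨-470,10,29⟩,⟨10,-371,290⟩,⟨29,290,370⟩⟩ (94,[(4,43542),(3,14309),(0,29)]) (1866,[(3,1895859),(1,305),(0,5640)]) (7464,[(3,15318177),(1,1811),(0,28686)])))) (.node ⟨0,-255,-396⟩ (.leaf false ⟨⟨-471,0,0⟩,⟨0,-255,-396⟩,⟨0,396,-255⟩⟩ (1,[(3,471)]) (1,[(0,1)]) (132,[(0,85),(2,73947)])) (.node ⟨157,314,-314⟩ (.leaf false ⟨⟨-470,29,10⟩,⟨10,290,-371⟩,⟨29,370,290⟩⟩ (255,[(2,8934),(4,119850),(1,29)]) (157,[(2,12717),(4,21195),(0,145)])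 (34069,[(4,910914),(1,34540),(0,12095)])) (.leaf false ⟨⟨-454,-10,125⟩,⟨-115,-154,-430⟩,⟨-50,445,-146⟩⟩ (40035,[(2,87177861),(0,115770),(1,140986)]) (40035,[(2,31148172),(0,29325),(1,11932)]) (8007,[(2,8746470),(0,2550),(1,17113)]))))) (.node ⟨0,0,1⟩ (.node ⟨0,-396,-255⟩ (.leaf false ⟨⟨-471,0,0⟩,⟨0,-396,-255⟩,⟨0,-255,396⟩⟩ (1,[(3,471)]) (1,[(0,1)]) (132,[(1,73947),(0,85)])) (.node ⟨157,-314,314⟩ (.leaf false ⟨⟨-470,10,29⟩,⟨10,-371,290⟩,⟨29,290,370⟩⟩ (255,[(1,29),(4,119850),(3,8934)]) (157,[(4,21195),(3,12717),(0,145)]) (34069,[(1,34540),(4,910914),(0,12095)])) (.leaf false ⟨⟨-454,125,-10⟩,⟨-115,-430,-154⟩,⟨-50,-146,445⟩⟩ (40035,[(1,140986),(0,115770),(3,87177861)]) (40035,[(1,11932),(0,29325),(3,31148172)]) (8007,[(1,17113),(0,2550),(3,8746470)])))) (.leaf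 false ⟨⟨-471,0,0⟩,⟨0,-471,0⟩,⟨0,0,-471⟩⟩ (1,[(2,471)]) (1,[(1,471)]) (1,[(0,471)]))))
theorem h471_ok : h471.check (ok 471 4 ⟨3, 3, 3⟩) (fun _ r => r) [] = true := by decide +kernel

def h479 : T := .node ⟨1,0,0⟩ (.node ⟨0,1,0⟩ (.node ⟨0,0,1⟩ (.node ⟨-210,90,421⟩ (.node ⟨-210,430,21⟩ (.node ⟨21,470,-90⟩ (.leaf false ⟨⟨-210,90,421⟩,⟨21,470,-90⟩,⟨430,21,210⟩⟩ (1,[(2,1)]) (1,[(0,1)]) (30,[(3,3353),(5,14370),(2,7)])) (.leaf false ⟨⟨-430,21,210⟩,⟨21,-470,90⟩,⟨210,90,421⟩⟩ (16190,[(5,708613),(1,33530),(0,29953)]) (1,[(5,42),(0,1)]) (90,[(5,27741),(4,205970),(0,421)]))) (.leaf false ⟨⟨-174,133,426⟩,⟨309,-294,218⟩,⟨322,354,21⟩⟩ (14000,[(3,1736340),(1,14301),(0,2701)]) (28000,[(3,15407820),(1,17423),(0,58623)]) (3000,[(3,3175660),(1,399),(0,4999)]))) (.leaf false ⟨⟨21,322,354⟩,⟨218,309,-294⟩,⟨426,-174,133⟩⟩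 (10,[(1,3961),(0,1),(2,3310)]) (105,[(1,15019),(0,109),(2,42255)]) (35,[(1,34546),(0,71),(2,300)]))) (.node ⟨-155,450,-54⟩ (.node ⟨-155,-54,-450⟩ (.node ⟨-54,-155,-450⟩ (.leaf false ⟨⟨-155,450,-54⟩,⟨-54,-75,-470⟩,⟨450,146,-75⟩⟩ (1,[(2,1)]) (45,[(5,108),(4,3910),(0,47)]) (6,[(5,2754),(4,1031),(0,1)])) (.leaf false ⟨⟨-315,330,-146⟩,⟨70,246,405⟩,⟨354,245,-210⟩⟩ (22725,[(5,1881832),(0,78192),(1,85565)]) (1010,[(5,129179),(0,1974),(1,1065)]) (1515,[(5,1055248),(0,4053),(1,4760)]))) (.leaf false ⟨⟨-54,474,-43⟩,⟨309,2,-366⟩,⟨362,69,306⟩⟩ (11412,[(4,1186712),(0,347),(1,11979)]) (27,[(2,10332),(4,8188),(0,1)]) (18,[(2,4842),(4,2951),(0,23)]))) (.leaf false ⟨⟨2,69,-474⟩,⟨309,362,54⟩,⟨366,-306,-43⟩⟩ (155,[(1,73578),(0,2),(2,11595)]) (155,[(1,8316),(0,309),(2,195160)])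 (155,[(1,26429),(0,366),(2,117270)])))) (.node ⟨0,0,1⟩ (.node ⟨-155,-54,450⟩ (.node ⟨-155,-450,-54⟩ (.node ⟨-54,-450,-155⟩ (.leaf false ⟨⟨-155,-54,450⟩,⟨-54,-470,-75⟩,⟨450,-75,146⟩⟩ (1,[(2,1)]) (45,[(3,3910),(5,108),(0,47)]) (6,[(3,1031),(5,2754),(0,1)])) (.leaf false ⟨⟨-315,-146,330⟩,⟨70,405,246⟩,⟨354,-210,245⟩⟩ (22725,[(5,1881832),(1,85565),(0,78192)]) (1010,[(5,129179),(1,1065),(0,1974)]) (1515,[(5,1055248),(1,4760),(0,4053)]))) (.leaf false ⟨⟨-54,-43,474⟩,⟨309,-366,2⟩,⟨362,306,69⟩⟩ (11412,[(4,1186712),(1,11979),(0,347)]) (27,[(4,8188),(3,10332),(0,1)]) (18,[(4,2951),(3,4842),(0,23)]))) (.leaf false ⟨⟨2,-474,69⟩,⟨309,54,362⟩,⟨366,-43,-306⟩⟩ (155,[(1,11595),(0,2),(2,73578)]) (155,[(1,195160),(0,309),(2,8316)]) (155,[(1,117270),(0,366),(2,26429)]))) (.node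 ⟨362,-174,261⟩ (.node ⟨-174,-443,-54⟩ (.leaf false ⟨⟨-174,-443,-54⟩,⟨261,-54,-398⟩,⟨362,-174,261⟩⟩ (1,[(0,1)]) (29,[(2,13891),(4,4311),(1,9)]) (1,[(1,1)])) (.leaf false ⟨⟨30,-54,-475⟩,⟨254,405,-30⟩,⟨405,-250,54⟩⟩ (29,[(2,14045),(0,5),(3,3781)]) (87,[(2,9468),(0,127),(3,21026)]) (58,[(2,4158),(0,135),(3,74305)]))) (.leaf false ⟨⟨-362,69,-306⟩,⟨-54,-474,-43⟩,⟨309,-2,-366⟩⟩ (29,[(3,1810),(2,3915),(0,34)]) (261,[(3,1472),(2,131196),(0,43)]) (87,[(3,71047),(2,21402),(0,122)]))))) (.node ⟨0,1,0⟩ (.node ⟨0,0,1⟩ (.node ⟨-54,450,-155⟩ (.node ⟨-450,-54,-155⟩ (.node ⟨-450,-155,-54⟩ (.leaf false ⟨⟨-470,-75,-54⟩,⟨-75,146,450⟩,⟨-54,450,-155⟩⟩ (45,[(3,108),(0,47),(4,3910)]) (6,[(3,2754),(0,1),(4,1031)]) (1,[(2,1)])) (.leaf false ⟨⟨-475,-54,-30⟩,⟨-54,250,405⟩,⟨-30,405,-254⟩⟩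 (1818,[(3,248359),(1,1973),(0,54)]) (2525,[(3,1717202),(1,6715),(0,6412)]) (1515,[(3,249874),(1,6230),(0,6129)]))) (.leaf false ⟨⟨-366,2,309⟩,⟨-43,474,-54⟩,⟨306,69,362⟩⟩ (27,[(2,8188),(4,10332),(0,1)]) (11412,[(2,1186712),(1,11979),(0,347)]) (18,[(2,2951),(4,4842),(0,23)]))) (.leaf false ⟨⟨-475,-54,30⟩,⟨-30,405,254⟩,⟨54,-250,405⟩⟩ (31,[(3,15049),(2,1026),(0,6)]) (155,[(3,18366),(2,177075),(0,254)]) (31,[(3,2700),(2,28700),(0,81)]))) (.node ⟨-174,362,261⟩ (.node ⟨-443,-174,-54⟩ (.leaf false ⟨⟨-443,-174,-54⟩,⟨-174,362,261⟩,⟨-54,261,-398⟩⟩ (1,[(0,1)]) (1,[(1,1)]) (29,[(2,13891),(1,9),(3,4311)])) (.leaf false ⟨⟨-470,90,21⟩,⟨21,210,-430⟩,⟨90,421,210⟩⟩ (29,[(2,201),(4,20275),(0,15)]) (29,[(2,14360),(4,14896),(0,35)]) (8622,[(4,3423413),(1,4602),(0,11287)]))) (.leaf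 false ⟨⟨-474,-54,-43⟩,⟨-2,309,-366⟩,⟨69,-362,-306⟩⟩ (261,[(3,131196),(2,1472),(0,43)]) (87,[(3,21402),(2,71047),(0,122)]) (29,[(3,3915),(2,1810),(0,34)])))) (.node ⟨0,0,1⟩ (.node ⟨-174,261,362⟩ (.node ⟨-443,-54,-174⟩ (.leaf false ⟨⟨-443,-54,-174⟩,⟨-174,261,362⟩,⟨-54,-398,261⟩⟩ (1,[(0,1)]) (1,[(1,1)]) (29,[(2,4311),(1,9),(3,13891)])) (.leaf false ⟨⟨-470,21,90⟩,⟨21,-430,210⟩,⟨90,210,421⟩⟩ (29,[(4,20275),(3,201),(0,15)]) (29,[(4,14896),(3,14360),(0,35)]) (8622,[(1,4602),(4,3423413),(0,11287)]))) (.leaf false ⟨⟨-474,-43,-54⟩,⟨-2,-366,309⟩,⟨69,-306,-362⟩⟩ (261,[(1,1472),(3,131196),(0,43)]) (87,[(1,71047),(3,21402),(0,122)]) (29,[(1,1810),(3,3915),(0,34)]))) (.leaf false ⟨⟨-479,0,0⟩,⟨0,-479,0⟩,⟨0,0,-479⟩⟩ (1,[(2,479)]) (1,[(1,479)]) (1,[(0,479)]))))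
theorem h479_ok : h479.check (ok 479 4 ⟨3, 3, 3⟩) (fun _ r => r) [] = true := by decide +kernel

def h487 : T := .node ⟨1,0,0⟩ (.node ⟨0,1,0⟩ (.node ⟨0,0,1⟩ (.node ⟨-243,82,414⟩ (.node ⟨118,462,-99⟩ (.node ⟨429,-62,222⟩ (.leaf false ⟨⟨-198,141,422⟩,⟨118,462,-99⟩,⟨429,-62,222⟩⟩ (27,[(3,2286),(4,2003),(2,22)]) (1,[(1,1)]) (1,[(0,1)])) (.leaf false ⟨⟨-467,78,114⟩,⟨6,413,-258⟩,⟨138,246,397⟩⟩ (31,[(3,12192),(5,2254),(0,39)]) (62,[(3,75690),(5,177549),(0,413)]) (31,[(3,39613),(5,57045),(0,123)]))) (.leaf false ⟨⟨-307,-222,306⟩,⟨-6,397,282⟩,⟨378,-174,253⟩⟩ (11,[(4,635),(3,13266),(0,34)]) (33,[(4,10894),(3,56529),(0,94)]) (9,[(4,6116),(3,9060),(0,23)]))) (.leaf false ⟨⟨98,477,6⟩,⟨237,-54,422⟩,⟨414,-82,-243⟩⟩ (243,[(1,42030),(0,98),(2,123947)]) (81,[(1,66888),(0,79),(2,2104)])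 (27,[(1,12483),(0,46),(2,1558)]))) (.node ⟨-147,46,-462⟩ (.node ⟨78,442,189⟩ (.node ⟨478,-51,-78⟩ (.leaf false ⟨⟨-51,198,-442⟩,⟨78,442,189⟩,⟨478,-51,-78⟩⟩ (49,[(3,13804),(4,8920),(2,17)]) (1,[(1,1)]) (1,[(0,1)])) (.leaf false ⟨⟨-483,62,6⟩,⟨6,93,-478⟩,⟨62,474,93⟩⟩ (51,[(3,4530),(5,5003),(0,62)]) (17,[(3,10544),(5,14920),(0,31)]) (17,[(3,10743),(5,76578),(0,158)]))) (.leaf false ⟨⟨-170,138,-435⟩,⟨237,-370,-210⟩,⟨390,285,-62⟩⟩ (63,[(4,600),(3,72784),(0,145)]) (9,[(4,2913),(3,1090),(0,10)]) (189,[(4,78546),(3,81269),(0,62)]))) (.leaf false ⟨⟨62,429,-222⟩,⟨141,198,422⟩,⟨462,-118,-99⟩⟩ (147,[(1,61278),(0,62),(2,65915)]) (49,[(1,1036),(0,47),(2,11864)]) (7,[(1,10857),(0,22),(2,186)])))) (.node ⟨0,0,1⟩ (.node ⟨-147,-462,46⟩ (.node ⟨78,189,442⟩ (.node ⟨478,-78,-51⟩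 (.leaf false ⟨⟨-51,-442,198⟩,⟨78,189,442⟩,⟨478,-78,-51⟩⟩ (49,[(3,8920),(4,13804),(2,17)]) (1,[(1,1)]) (1,[(0,1)])) (.leaf false ⟨⟨-483,6,62⟩,⟨6,-478,93⟩,⟨62,93,474⟩⟩ (51,[(5,5003),(4,4530),(0,62)]) (17,[(5,14920),(4,10544),(0,31)]) (17,[(5,76578),(4,10743),(0,158)]))) (.leaf false ⟨⟨-170,-435,138⟩,⟨237,-210,-370⟩,⟨390,-62,285⟩⟩ (63,[(2,72784),(4,600),(0,145)]) (9,[(2,1090),(4,2913),(0,10)]) (189,[(2,81269),(4,78546),(0,62)]))) (.leaf false ⟨⟨62,-222,429⟩,⟨141,422,198⟩,⟨462,-99,-118⟩⟩ (147,[(1,65915),(0,62),(2,61278)]) (49,[(1,11864),(0,47),(2,1036)]) (7,[(1,186),(0,22),(2,10857)]))) (.node ⟨474,-62,93⟩ (.node ⟨-210,-438,-35⟩ (.leaf false ⟨⟨-62,-483,-6⟩,⟨93,-6,-478⟩,⟨474,-62,93⟩⟩ (42904,[(4,83764),(1,14277),(0,45291)]) (31,[(2,15097),(4,1461),(1,3)]) (1,[(1,1)]))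 (.leaf false ⟨⟨6,-483,-62⟩,⟨93,62,-474⟩,⟨478,-6,93⟩⟩ (35,[(2,2205),(0,1),(3,17343)]) (70,[(2,34265),(0,31),(3,9238)]) (735,[(0,93),(1,700),(3,1744)]))) (.leaf false ⟨⟨-450,-90,-163⟩,⟨125,-462,-90⟩,⟨138,125,-450⟩⟩ (93,[(3,35412),(2,18476),(0,163)]) (31,[(3,18095),(2,16182),(0,30)]) (31,[(3,75378),(2,5425),(0,150)]))))) (.node ⟨0,1,0⟩ (.node ⟨0,0,1⟩ (.node ⟨-462,-147,46⟩ (.node ⟨189,78,442⟩ (.node ⟨-78,478,-51⟩ (.leaf false ⟨⟨-442,-51,198⟩,⟨-78,478,-51⟩,⟨189,78,442⟩⟩ (49,[(3,8920),(2,17),(5,13804)]) (1,[(0,1)]) (1,[(1,1)])) (.leaf false ⟨⟨-483,6,62⟩,⟨6,-478,93⟩,⟨62,93,474⟩⟩ (51,[(5,29469),(4,29942),(0,62)]) (17,[(5,2316),(4,6692),(0,31)]) (17,[(5,11270),(4,77105),(0,158)]))) (.leaf false ⟨⟨-467,-138,-6⟩,⟨-114,397,-258⟩,⟨-78,246,413⟩⟩ (189,[(2,205280),(0,467),(3,10344)])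 (63,[(2,542),(0,38),(3,27975)]) (63,[(2,37511),(0,26),(3,17526)]))) (.leaf false ⟨⟨-243,414,-82⟩,⟨6,98,477⟩,⟨422,237,-54⟩⟩ (49,[(1,2330),(3,75663),(0,138)]) (3,[(1,1523),(3,906),(0,2)]) (49,[(1,988),(3,15820),(0,79)]))) (.node ⟨-62,474,93⟩ (.node ⟨-438,-210,-35⟩ (.leaf false ⟨⟨-483,-62,-6⟩,⟨-62,474,93⟩,⟨-6,93,-478⟩⟩ (42904,[(0,45291),(1,14277),(3,83764)]) (1,[(1,1)]) (31,[(2,15097),(1,3),(3,1461)])) (.leaf false ⟨⟨-483,6,-62⟩,⟨-6,478,93⟩,⟨62,93,-474⟩⟩ (35,[(2,2205),(4,17343),(0,1)]) (735,[(4,1744),(1,700),(0,93)]) (70,[(2,34265),(4,9238),(0,31)]))) (.leaf false ⟨⟨-478,78,-51⟩,⟨-51,-442,-198⟩,⟨78,189,-442⟩⟩ (31,[(3,15872),(2,10476),(0,17)]) (31,[(3,5673),(2,17582),(0,66)]) (93,[(3,20150),(2,227085),(0,442)])))) (.node ⟨0,0,1⟩ (.node ⟨-62,93,474⟩ (.node ⟨-438,-35,-210⟩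 (.leaf false ⟨⟨-483,-6,-62⟩,⟨-62,93,474⟩,⟨-6,-478,93⟩⟩ (42904,[(2,83764),(1,14277),(0,45291)]) (1,[(1,1)]) (31,[(2,1461),(1,3),(3,15097)])) (.leaf false ⟨⟨-483,-62,6⟩,⟨-6,93,478⟩,⟨62,-474,93⟩⟩ (35,[(4,17343),(3,2205),(0,1)]) (735,[(1,700),(4,1744),(0,93)]) (70,[(4,9238),(3,34265),(0,31)]))) (.leaf false ⟨⟨-478,-51,78⟩,⟨-51,-198,-442⟩,⟨78,-442,189⟩⟩ (31,[(1,10476),(3,15872),(0,17)]) (31,[(1,17582),(3,5673),(0,66)]) (93,[(1,227085),(3,20150),(0,442)]))) (.leaf false ⟨⟨-487,0,0⟩,⟨0,-487,0⟩,⟨0,0,-487⟩⟩ (1,[(2,487)]) (1,[(1,487)]) (1,[(0,487)]))))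
theorem h487_ok : h487.check (ok 487 4 ⟨3, 3, 3⟩) (fun _ r => r) [] = true := by decide +kernel

def h491 : T := .node ⟨1,0,0⟩ (.node ⟨0,1,0⟩ (.node ⟨0,0,1⟩ (.node ⟨-270,30,409⟩ (.node ⟨-270,410,9⟩ (.node ⟨9,-30,490⟩ (.leaf false ⟨⟨-270,409,30⟩,⟨9,-30,490⟩,⟨410,270,9⟩⟩ (400,[(4,7580),(1,379),(2,21)]) (1,[(0,1)]) (409,[(5,170120),(4,110160),(2,9)])) (.leaf false ⟨⟨-462,114,121⟩,⟨9,374,-318⟩,⟨166,297,354⟩⟩ (435,[(3,221618),(0,940),(2,713)]) (15,[(3,86860),(5,1818),(0,187)]) (10,[(3,52050),(5,2551),(0,99)]))) (.leaf false ⟨⟨-198,86,441⟩,⟨186,-423,166⟩,⟨409,234,138⟩⟩ (1500,[(3,297020),(1,1629),(0,529)]) (18000,[(3,414620),(1,7749),(0,20149)]) (108000,[(3,107905580),(1,40941),(0,204541)]))) (.leaf false ⟨⟨9,490,30⟩,⟨270,-30,409⟩,⟨410,9,-270⟩⟩ (30,[(1,1309),(0,1),(2,14730)])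 (1,[(1,818),(0,1)]) (27,[(1,9479),(0,41),(2,1473)]))) (.node ⟨446,42,201⟩ (.node ⟨-94,474,-87⟩ (.node ⟨201,-42,-446⟩ (.leaf false ⟨⟨-94,474,-87⟩,⟨201,-42,-446⟩,⟨438,121,186⟩⟩ (1,[(1,1)]) (1,[(0,1)]) (67,[(5,1694),(2,62),(4,5503)])) (.leaf false ⟨⟨-462,114,121⟩,⟨9,374,-318⟩,⟨166,297,354⟩⟩ (7,[(3,7627),(5,585),(0,19)]) (21,[(3,90080),(5,37776),(0,187)]) (14,[(3,39198),(5,22223),(0,99)]))) (.leaf false ⟨⟨14,489,-42⟩,⟨294,-42,-391⟩,⟨393,14,294⟩⟩ (47,[(2,2583),(0,7),(3,26301)]) (47,[(2,31166),(0,147),(3,67704)]) (94,[(2,6555),(0,393),(3,187598)]))) (.leaf false ⟨⟨-294,-42,-391⟩,⟨-14,489,-42⟩,⟨393,-14,-294⟩⟩ (201,[(3,115292),(2,7980),(0,391)]) (67,[(3,5306),(2,33351),(0,14)]) (67,[(3,70039),(2,3178),(0,98)])))) (.node ⟨0,0,1⟩ (.node ⟨446,201,42⟩ (.node ⟨-94,-87,474⟩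 (.node ⟨201,-446,-42⟩ (.leaf false ⟨⟨-94,-87,474⟩,⟨201,-446,-42⟩,⟨438,186,121⟩⟩ (1,[(1,1)]) (1,[(0,1)]) (67,[(3,5503),(2,62),(5,1694)])) (.leaf false ⟨⟨-462,9,166⟩,⟨114,374,297⟩,⟨121,-318,354⟩⟩ (21,[(5,6981),(4,36829),(0,83)]) (14,[(5,21495),(4,38918),(0,99)]) (7,[(5,12706),(4,28540),(0,59)]))) (.leaf false ⟨⟨14,-42,489⟩,⟨294,-391,-42⟩,⟨393,294,14⟩⟩ (47,[(2,26301),(0,7),(3,2583)]) (47,[(2,67704),(0,147),(3,31166)]) (94,[(2,187598),(0,393),(3,6555)]))) (.leaf false ⟨⟨-294,-391,-42⟩,⟨-14,-42,489⟩,⟨393,-294,-14⟩⟩ (201,[(1,7980),(3,115292),(0,391)]) (67,[(1,33351),(3,5306),(0,14)]) (67,[(1,3178),(3,70039),(0,98)]))) (.node ⟨-126,-471,-58⟩ (.node ⟨-23,126,-474⟩ (.leaf false ⟨⟨-126,-471,-58⟩,⟨-23,66,-486⟩,⟨474,-122,-39⟩⟩ (1,[(1,1)]) (79,[(4,46),(3,4992),(0,81)])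 (158,[(4,75191),(3,20914),(0,13)])) (.leaf false ⟨⟨-42,-391,-294⟩,⟨-14,-294,393⟩,⟨489,-42,-14⟩⟩ (471,[(2,115796),(4,29484),(1,391)]) (307,[(2,39565),(0,350),(1,98)]) (3,[(2,516),(4,1444),(0,1)]))) (.leaf false ⟨⟨30,9,-490⟩,⟨270,-410,9⟩,⟨409,270,30⟩⟩ (21,[(1,10580),(0,5),(2,2166)]) (7,[(1,807),(0,15),(2,9935)]) (126,[(1,19942),(0,409),(2,158619)]))))) (.node ⟨0,1,0⟩ (.node ⟨0,0,1⟩ (.node ⟨201,42,446⟩ (.node ⟨-87,474,-94⟩ (.node ⟨-446,-42,201⟩ (.leaf false ⟨⟨-446,-42,201⟩,⟨-87,474,-94⟩,⟨186,121,438⟩⟩ (1,[(0,1)]) (1,[(1,1)]) (67,[(3,1694),(4,5503),(2,62)])) (.leaf false ⟨⟨-490,30,9⟩,⟨9,270,-410⟩,⟨30,409,270⟩⟩ (7,[(3,1068),(5,5660),(0,5)]) (7,[(3,6175),(5,20007),(0,45)]) (42,[(3,93549),(5,181154),(0,409)]))) (.leaf false ⟨⟨-490,9,30⟩,⟨9,-410,270⟩,⟨30,270,409⟩⟩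 (47,[(4,24335),(3,7533),(0,15)]) (47,[(4,11322),(3,44720),(0,135)]) (94,[(4,32763),(3,219246),(0,409)]))) (.leaf false ⟨⟨-391,-42,-294⟩,⟨-294,-14,393⟩,⟨-42,489,-14⟩⟩ (201,[(1,115292),(0,391),(2,7980)]) (67,[(1,70039),(0,98),(2,3178)]) (67,[(1,5306),(0,14),(2,33351)]))) (.node ⟨-58,-126,-471⟩ (.node ⟨-474,-23,126⟩ (.leaf false ⟨⟨-486,-23,66⟩,⟨-58,-126,-471⟩,⟨-39,474,-122⟩⟩ (79,[(2,4992),(0,81),(3,46)]) (1,[(1,1)]) (158,[(2,20914),(0,13),(3,75191)])) (.leaf false ⟨⟨-471,58,-126⟩,⟨66,486,-23⟩,⟨122,-39,-474⟩⟩ (1,[(4,945),(3,35),(0,1)]) (126,[(4,2586),(3,60707),(0,23)]) (38427,[(1,34884),(3,2571074),(0,14159)]))) (.leaf false ⟨⟨-490,30,9⟩,⟨9,270,-410⟩,⟨30,409,270⟩⟩ (21,[(1,2166),(3,10580),(0,5)]) (7,[(1,9935),(3,807),(0,15)]) (126,[(1,158619),(3,19942),(0,409)]))))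 (.node ⟨0,0,1⟩ (.node ⟨-58,-471,-126⟩ (.node ⟨-474,126,-23⟩ (.leaf false ⟨⟨-486,66,-23⟩,⟨-58,-471,-126⟩,⟨-39,-122,474⟩⟩ (79,[(2,46),(0,81),(3,4992)]) (1,[(1,1)]) (158,[(2,75191),(0,13),(3,20914)])) (.leaf false ⟨⟨-471,-126,58⟩,⟨66,-23,486⟩,⟨122,-474,-39⟩⟩ (1,[(2,35),(4,945),(0,1)]) (126,[(2,60707),(4,2586),(0,23)]) (38427,[(2,2571074),(1,34884),(0,14159)]))) (.leaf false ⟨⟨-490,9,30⟩,⟨9,-410,270⟩,⟨30,270,409⟩⟩ (21,[(3,10580),(2,2166),(0,5)]) (7,[(3,807),(2,9935),(0,15)]) (126,[(3,19942),(2,158619),(0,409)]))) (.leaf false ⟨⟨-491,0,0⟩,⟨0,-491,0⟩,⟨0,0,-491⟩⟩ (1,[(2,491)]) (1,[(1,491)]) (1,[(0,491)]))))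
theorem h491_ok : h491.check (ok 491 4 ⟨3, 3, 3⟩) (fun _ r => r) [] = true := by decide +kernel

def h493 : T := .node ⟨1,0,0⟩ (.node ⟨0,1,0⟩ (.node ⟨0,0,1⟩ (.leaf false ⟨⟨0,0,493⟩,⟨0,493,0⟩,⟨493,0,0⟩⟩ (1,[(0,493)]) (1,[(1,493)]) (1,[(2,493)])) (.node ⟨-155,0,-468⟩ (.leaf false ⟨⟨-155,0,-468⟩,⟨0,493,0⟩,⟨468,0,-155⟩⟩ (1,[(0,1)]) (1,[(2,493)]) (468,[(3,243049),(0,155)])) (.leaf false ⟨⟨0,493,0⟩,⟨340,0,357⟩,⟨357,0,-340⟩⟩ (1,[(2,493)]) (31,[(1,20757),(0,68)]) (155,[(1,219776),(0,357)])))) (.node ⟨0,0,1⟩ (.node ⟨-155,-468,0⟩ (.leaf false ⟨⟨-155,-468,0⟩,⟨0,0,493⟩,⟨468,-155,0⟩⟩ (1,[(0,1)]) (1,[(1,493)]) (468,[(3,243049),(0,155)])) (.leaf false ⟨⟨0,0,493⟩,⟨340,357,0⟩,⟨357,-340,0⟩⟩ (1,[(1,493)]) (31,[(0,68),(2,20757)]) (155,[(0,357),(2,219776)]))) (.node ⟨0,132,-475⟩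 (.leaf false ⟨⟨0,-475,-132⟩,⟨0,132,-475⟩,⟨493,0,0⟩⟩ (475,[(0,132),(2,243049)]) (1,[(0,1)]) (1,[(3,493)])) (.leaf false ⟨⟨0,-475,132⟩,⟨0,-132,-475⟩,⟨493,0,0⟩⟩ (132,[(1,208201),(0,475)]) (1,[(1,950),(0,1)]) (1,[(3,493)]))))) (.node ⟨0,1,0⟩ (.node ⟨0,0,1⟩ (.node ⟨-468,-155,0⟩ (.leaf false ⟨⟨-468,-155,0⟩,⟨-155,468,0⟩,⟨0,0,493⟩⟩ (1,[(0,1)]) (468,[(0,155),(2,243049)]) (1,[(1,493)])) (.leaf false ⟨⟨-340,357,0⟩,⟨0,0,493⟩,⟨357,340,0⟩⟩ (155,[(3,219776),(0,357)]) (1,[(1,493)]) (31,[(3,20757),(0,68)]))) (.node ⟨132,0,-475⟩ (.leaf false ⟨⟨-475,0,-132⟩,⟨0,493,0⟩,⟨132,0,-475⟩⟩ (475,[(3,243049),(0,132)]) (1,[(2,493)]) (1,[(0,1)])) (.leaf false ⟨⟨-475,0,132⟩,⟨-132,0,-475⟩,⟨0,493,0⟩⟩ (132,[(1,208201),(0,475)]) (1,[(1,950),(0,1)]) (1,[(2,493)])))) (.node ⟨0,0,1⟩ (.node ⟨132,-475,0⟩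 (.leaf false ⟨⟨-475,-132,0⟩,⟨0,0,493⟩,⟨132,-475,0⟩⟩ (475,[(3,243049),(0,132)]) (1,[(1,493)]) (1,[(0,1)])) (.leaf false ⟨⟨-475,132,0⟩,⟨-132,-475,0⟩,⟨0,0,493⟩⟩ (132,[(0,475),(2,208201)]) (1,[(0,1),(2,950)]) (1,[(1,493)]))) (.node ⟨-187,204,-408⟩ (.node ⟨-187,-408,204⟩ (.node ⟨-456,-72,173⟩ (.leaf false ⟨⟨-456,-72,173⟩,⟨-187,204,-408⟩,⟨-12,-443,-216⟩⟩ (1,[(0,1)]) (1,[(2,1)]) (38,[(3,8381),(0,1),(4,16762)])) (.leaf false ⟨⟨-456,-187,-12⟩,⟨-72,204,-443⟩,⟨173,-408,-216⟩⟩ (612,[(2,211),(5,167433),(1,386)]) (493,[(2,283),(5,253895),(0,595)]) (111911,[(2,85560),(1,181511),(0,151980)]))) (.leaf false ⟨⟨-488,-51,-48⟩,⟨12,272,-411⟩,⟨69,-408,-268⟩⟩ (17,[(4,9044),(3,2499),(0,4)]) (68,[(4,24803),(3,37400),(0,137)]) (51,[(4,9010),(3,48144),(0,67)]))) (.leaf false ⟨⟨-488,-51,48⟩,⟨-12,-272,-411⟩,⟨69,-408,268⟩⟩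 (4,[(1,216),(3,2139),(0,1)]) (3,[(1,2865),(3,784),(0,4)]) (1,[(1,548),(3,305),(0,2)])))))
theorem h493_ok : h493.check (ok 493 4 ⟨3, 3, 3⟩) (fun _ r => r) [] = true := by decide +kernel

def h499 : T := .node ⟨1,0,0⟩ (.node ⟨0,1,0⟩ (.node ⟨0,0,1⟩ (.node ⟨-210,49,450⟩ (.node ⟨49,450,-210⟩ (.node ⟨-210,210,401⟩ (.leaf false ⟨⟨-210,210,401⟩,⟨49,450,-210⟩,⟨450,49,210⟩⟩ (1,[(0,1)]) (1,[(1,1)]) (30,[(3,3493),(5,14970),(0,7)])) (.leaf false ⟨⟨-210,49,450⟩,⟨210,450,49⟩,⟨401,-210,210⟩⟩ (1,[(2,1)]) (343,[(1,6300),(2,18120),(0,16993)]) (2401,[(1,70049),(2,214260),(0,202500)]))) (.leaf false ⟨⟨-210,49,450⟩,⟨210,450,49⟩,⟨401,-210,210⟩⟩ (1,[(1,1)]) (30,[(4,6643),(3,16650),(0,7)]) (1,[(4,450),(3,240),(0,1)]))) (.leaf false ⟨⟨6,274,417⟩,⟨129,402,-266⟩,⟨482,-111,66⟩⟩ (35,[(1,15045),(0,1),(2,9639)])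 (70,[(1,730),(0,43),(2,30247)]) (105,[(1,115380),(0,241),(2,154)]))) (.node ⟨-255,210,-374⟩ (.node ⟨174,426,193⟩ (.node ⟨302,-186,-351⟩ (.leaf false ⟨⟨-239,258,-354⟩,⟨174,426,193⟩,⟨402,-31,-294⟩⟩ (187,[(5,442),(4,11076),(2,177)]) (1,[(1,1)]) (6,[(3,1413),(0,1),(5,2110)])) (.leaf false ⟨⟨-374,273,186⟩,⟨78,346,-351⟩,⟨321,234,302⟩⟩ (62,[(3,20409),(5,4294),(0,91)]) (93,[(3,93366),(5,59500),(0,173)]) (31,[(3,4327),(5,21729),(0,39)]))) (.leaf false ⟨⟨-294,-126,-383⟩,⟨-42,481,-126⟩,⟨401,-42,-294⟩⟩ (193,[(4,9900),(3,138840),(0,383)]) (193,[(4,13818),(3,146509),(0,126)]) (193,[(4,128549),(3,117138),(0,294)]))) (.leaf false ⟨⟨6,454,-207⟩,⟨321,-162,-346⟩,⟨382,129,294⟩⟩ (85,[(1,18343),(0,2),(2,39010)]) (85,[(1,69428),(0,107),(2,8700)]) (255,[(1,67898),(0,382),(2,113115)]))))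 (.node ⟨0,0,1⟩ (.node ⟨-255,-374,210⟩ (.node ⟨174,193,426⟩ (.node ⟨302,-351,-186⟩ (.leaf false ⟨⟨-239,-354,258⟩,⟨174,193,426⟩,⟨402,-294,-31⟩⟩ (187,[(3,11076),(5,442),(2,177)]) (1,[(1,1)]) (6,[(5,2110),(0,1),(4,1413)])) (.leaf false ⟨⟨-374,78,321⟩,⟨186,-351,302⟩,⟨273,346,234⟩⟩ (62,[(5,9126),(4,32721),(0,107)]) (93,[(5,62900),(4,85644),(0,151)]) (31,[(5,20241),(4,2963),(0,39)]))) (.leaf false ⟨⟨-294,-402,-31⟩,⟨193,-174,426⟩,⟨354,-239,-258⟩⟩ (193,[(2,165269),(4,13206),(0,402)]) (193,[(2,156342),(4,67525),(0,174)]) (193,[(2,52020),(4,109908),(0,239)]))) (.leaf false ⟨⟨6,-207,454⟩,⟨321,-346,-162⟩,⟨382,294,129⟩⟩ (85,[(1,39010),(0,2),(2,18343)]) (85,[(1,8700),(0,107),(2,69428)]) (255,[(1,113115),(0,382),(2,67898)]))) (.node ⟨462,-31,186⟩ (.node ⟨6,-463,186⟩ (.node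 ⟨-31,-498,-6⟩ (.leaf false ⟨⟨-31,-498,-6⟩,⟨186,-6,-463⟩,⟨462,-31,186⟩⟩ (1,[(0,1)]) (31,[(3,15469),(5,2994),(2,6)]) (1,[(2,1)])) (.leaf false ⟨⟨42,401,-294⟩,⟨126,-294,-383⟩,⟨481,42,126⟩⟩ (31,[(3,9366),(0,42),(4,8485)]) (31,[(3,12629),(0,126),(4,71862)]) (191,[(0,2957),(1,34),(4,1448822)]))) (.leaf false ⟨⟨-6,-239,-438⟩,⟨113,426,-234⟩,⟨486,-102,49⟩⟩ (1178,[(1,21),(3,1574976),(0,2795)]) (14136,[(1,3737),(3,3826440),(0,21521)]) (14136,[(1,15017),(3,6205004),(0,11293)]))) (.node ⟨342,174,-319⟩ (.leaf false ⟨⟨-438,6,-239⟩,⟨49,-486,-102⟩,⟨234,113,-426⟩⟩ (186,[(4,28950),(3,6293),(1,239)]) (31,[(4,9373),(3,15593),(1,17)]) (35165,[(3,3363170),(1,11841),(0,40056)])) (.leaf false ⟨⟨-486,-102,49⟩,⟨6,-239,-438⟩,⟨113,-426,234⟩⟩ (22475,[(4,6139620),(0,17453),(1,24012)]) (22475,[(4,90415080),(0,58032),(1,152453)])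 (22475,[(4,71129755),(0,71982),(1,95178)])))))) (.node ⟨0,1,0⟩ (.node ⟨0,0,1⟩ (.node ⟨-374,-255,210⟩ (.node ⟨193,174,426⟩ (.node ⟨-351,302,-186⟩ (.leaf false ⟨⟨-354,-239,258⟩,⟨-294,402,-31⟩,⟨193,174,426⟩⟩ (187,[(3,11076),(2,177),(4,442)]) (6,[(5,1413),(0,1),(4,2110)]) (1,[(1,1)])) (.leaf false ⟨⟨-486,-6,113⟩,⟨49,438,234⟩,⟨102,-239,426⟩⟩ (186,[(5,130059),(4,33010),(0,113)]) (31,[(5,12170),(4,25356),(0,39)]) (31,[(5,21759),(4,14033),(0,71)]))) (.leaf false ⟨⟨-454,-162,129⟩,⟨-207,346,-294⟩,⟨-6,321,382⟩⟩ (193,[(2,218301),(0,454),(3,47730)]) (193,[(2,31440),(0,207),(3,102796)]) (193,[(2,76282),(0,6),(3,62997)]))) (.leaf false ⟨⟨-486,49,102⟩,⟨-6,438,-239⟩,⟨113,234,426⟩⟩ (255,[(1,36300),(3,142256),(0,49)]) (85,[(1,10345),(3,55114),(0,146)]) (85,[(1,52590),(3,19567),(0,78)])))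 (.node ⟨-31,462,186⟩ (.node ⟨-463,6,186⟩ (.node ⟨-498,-31,-6⟩ (.leaf false ⟨⟨-498,-31,-6⟩,⟨-31,462,186⟩,⟨-6,186,-463⟩⟩ (1,[(0,1)]) (1,[(2,1)]) (31,[(3,15469),(2,6),(4,2994)])) (.leaf false ⟨⟨-486,49,102⟩,⟨-6,438,-239⟩,⟨113,234,426⟩⟩ (955,[(5,948482),(1,478),(0,1417)]) (31,[(3,10037),(5,218310),(0,438)]) (955,[(5,2381708),(1,1967),(0,6828)]))) (.leaf false ⟨⟨-294,126,-383⟩,⟨42,481,126⟩,⟨401,42,-294⟩⟩ (14136,[(4,19485836),(1,4289),(0,33397)]) (14136,[(4,1359720),(1,14785),(0,5209)]) (62,[(4,23536),(1,7),(0,105)]))) (.node ⟨174,342,-319⟩ (.leaf false ⟨⟨-486,49,-102⟩,⟨6,-438,-239⟩,⟨113,234,-426⟩⟩ (31,[(4,15593),(3,9373),(1,17)]) (186,[(4,6293),(3,28950),(1,239)]) (35165,[(4,3363170),(0,40056),(1,11841)])) (.leaf false ⟨⟨-498,-31,6⟩,⟨-31,462,-186⟩,⟨6,-186,-463⟩⟩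 (22475,[(3,103830355),(1,157818),(0,92442)]) (725,[(3,1091880),(1,1363),(0,372)]) (22475,[(3,36682080),(1,78648),(0,13237)]))))) (.node ⟨0,0,1⟩ (.node ⟨-31,186,462⟩ (.node ⟨-463,186,6⟩ (.node ⟨-498,-6,-31⟩ (.leaf false ⟨⟨-498,-6,-31⟩,⟨-31,186,462⟩,⟨-6,-463,186⟩⟩ (1,[(0,1)]) (1,[(2,1)]) (31,[(3,2994),(2,6),(4,15469)])) (.leaf false ⟨⟨-486,-6,113⟩,⟨49,438,234⟩,⟨102,-239,426⟩⟩ (31,[(5,71340),(4,864),(0,113)]) (955,[(1,2029),(5,2408146),(0,6816)]) (31,[(5,208986),(4,9965),(0,426)]))) (.leaf false ⟨⟨-294,-383,126⟩,⟨42,126,481⟩,⟨401,-294,42⟩⟩ (14136,[(1,4289),(4,19485836),(0,33397)]) (14136,[(1,14785),(4,1359720),(0,5209)]) (62,[(1,7),(4,23536),(0,105)]))) (.node ⟨174,-319,342⟩ (.leaf false ⟨⟨-486,-102,49⟩,⟨6,-239,-438⟩,⟨113,-426,234⟩⟩ (31,[(2,9373),(4,15593),(1,17)])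 (186,[(2,28950),(4,6293),(1,239)]) (35165,[(4,3363170),(1,11841),(0,40056)])) (.leaf false ⟨⟨-498,6,-31⟩,⟨-31,-186,462⟩,⟨6,-463,-186⟩⟩ (22475,[(2,103830355),(0,92442),(1,157818)]) (725,[(2,1091880),(0,372),(1,1363)]) (22475,[(2,36682080),(0,13237),(1,78648)])))) (.leaf false ⟨⟨-499,0,0⟩,⟨0,-499,0⟩,⟨0,0,-499⟩⟩ (1,[(2,499)]) (1,[(1,499)]) (1,[(0,499)]))))
theorem h499_ok : h499.check (ok 499 4 ⟨3, 3, 3⟩) (fun _ r => r) [] = true := by decide +kernel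


end H34S
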