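import Pool.Agent.Lib.H34S.Cover

/-!
# H34S: certificates (generated), hexagonal numbers
-/

set_option autoImplicit false

namespace H34S

def h503 : T := .node ⟨1,0,0⟩ (.node ⟨0,1,0⟩ (.node ⟨0,0,1⟩ (.node ⟨-270,150,397⟩ (.node ⟨45,478,-150⟩ (.leaf false ⟨⟨-270,150,397⟩,⟨45,478,-150⟩,⟨422,45,270⟩⟩ (1,[(1,1)]) (1,[(0,1)]) (10,[(2,1509),(4,5030),(1,3)])) (.leaf false ⟨⟨-270,45,422⟩,⟨150,478,45⟩,⟨397,-150,270⟩⟩ (503,[(3,22635),(1,478),(0,150)]) (10,[(4,1635),(3,6214),(0,3)]) (5,[(4,2390),(3,3552),(0,9)]))) (.leaf false ⟨⟨42,477,154⟩,⟨306,98,-387⟩,⟨397,-126,282⟩⟩ (45,[(1,9709),(0,7),(2,22515)]) (15,[(1,944),(0,17),(2,4020)]) (270,[(1,233749),(0,397),(2,25530)]))) (.node ⟨-242,381,-222⟩ (.node ⟨102,-198,-451⟩ (.leaf false ⟨⟨-242,381,-222⟩,⟨102,-198,-451⟩,⟨429,262,-18⟩⟩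 (1,[(1,1)]) (1,[(0,1)]) (37,[(4,16599),(3,8551),(1,3)])) (.leaf false ⟨⟨-262,429,-18⟩,⟨198,102,-451⟩,⟨381,242,222⟩⟩ (503,[(2,9054),(0,222),(1,451)]) (33,[(2,22550),(4,8268),(0,17)]) (9,[(2,2963),(4,4551),(0,11)]))) (.leaf false ⟨⟨18,222,-451⟩,⟨262,381,198⟩,⟨429,-242,-102⟩⟩ (121,[(1,56569),(0,9),(2,30291)]) (121,[(1,5124),(0,131),(2,96012)]) (22,[(1,10902),(0,39),(2,9535)])))) (.node ⟨0,0,1⟩ (.node ⟨-242,-222,381⟩ (.node ⟨102,-451,-198⟩ (.leaf false ⟨⟨-242,-222,381⟩,⟨102,-451,-198⟩,⟨429,-18,262⟩⟩ (1,[(1,1)]) (1,[(0,1)]) (37,[(2,8551),(4,16599),(1,3)])) (.leaf false ⟨⟨-262,-18,429⟩,⟨198,-451,102⟩,⟨381,222,242⟩⟩ (503,[(3,9054),(1,451),(0,222)]) (33,[(4,8268),(3,22550),(0,17)]) (9,[(4,4551),(3,2963),(0,11)]))) (.leaf false ⟨⟨18,-451,222⟩,⟨262,198,381⟩,⟨429,-102,-242⟩⟩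 (121,[(1,30291),(0,9),(2,56569)]) (121,[(1,96012),(0,131),(2,5124)]) (22,[(1,9535),(0,39),(2,10902)]))) (.node ⟨93,186,-458⟩ (.node ⟨413,-126,258⟩ (.node ⟨-54,-478,-147⟩ (.leaf false ⟨⟨-54,-478,-147⟩,⟨282,93,-406⟩,⟨413,-126,258⟩⟩ (1,[(0,1)]) (2,[(3,354),(2,1),(5,471)]) (1,[(1,1)])) (.leaf false ⟨⟨18,-467,-186⟩,⟨93,186,-458⟩,⟨494,-18,93⟩⟩ (3,[(3,705),(0,1),(4,1879)]) (18,[(3,12801),(0,31),(4,11470)]) (27,[(3,33798),(0,247),(4,118552)]))) (.leaf false ⟨⟨-350,-147,-330⟩,⟨222,-450,-35⟩,⟨285,170,-378⟩⟩ (43,[(4,7665),(3,13251),(0,55)]) (258,[(4,71731),(3,120510),(0,35)]) (43,[(4,38274),(3,628),(0,63)]))) (.leaf false ⟨⟨-222,-450,-35⟩,⟨285,-170,378⟩,⟨350,-147,-330⟩⟩ (31,[(1,35435),(3,93),(0,75)]) (93,[(1,3776),(3,34410),(0,85)]) (62,[(1,42902),(3,26257),(0,49)])))))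 (.node ⟨0,1,0⟩ (.node ⟨0,0,1⟩ (.node ⟨-222,381,-242⟩ (.node ⟨-451,-198,102⟩ (.leaf false ⟨⟨-451,-198,102⟩,⟨-222,381,-242⟩,⟨-18,262,429⟩⟩ (1,[(0,1)]) (1,[(1,1)]) (37,[(2,16599),(1,3),(3,8551)])) (.leaf false ⟨⟨-462,62,189⟩,⟨-19,462,-198⟩,⟨198,189,422⟩⟩ (99,[(2,21873),(4,59719),(0,31)]) (3,[(2,120),(4,3214),(0,7)]) (22,[(2,11426),(4,5115),(0,21)]))) (.leaf false ⟨⟨-478,45,150⟩,⟨45,-422,270⟩,⟨150,270,397⟩⟩ (121,[(3,74488),(2,34020),(0,75)]) (121,[(3,24525),(2,373),(0,135)]) (242,[(3,51834),(2,216597),(0,397)]))) (.node ⟨186,93,-458⟩ (.node ⟨-126,413,258⟩ (.node ⟨-478,-54,-147⟩ (.leaf false ⟨⟨-478,-54,-147⟩,⟨-126,413,258⟩,⟨93,282,-406⟩⟩ (1,[(0,1)]) (1,[(1,1)]) (2,[(3,354),(4,471),(2,1)])) (.leaf false ⟨⟨-494,93,18⟩,⟨18,186,-467⟩,⟨93,458,186⟩⟩ (18,[(3,4233),(5,23710),(0,31)])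 (9,[(3,8760),(5,14656),(0,31)]) (27,[(3,28641),(5,106951),(0,229)]))) (.leaf false ⟨⟨-483,-82,-114⟩,⟨-42,474,-163⟩,⟨134,-147,-462⟩⟩ (43,[(4,23163),(3,4321),(0,19)]) (258,[(4,31374),(3,189611),(0,163)]) (43,[(4,3940),(3,25480),(0,77)]))) (.leaf false ⟨⟨-474,-163,42⟩,⟨-147,462,134⟩,⟨-82,114,-483⟩⟩ (31,[(1,34880),(0,79),(2,2294)]) (62,[(1,14134),(0,49),(2,33201)]) (93,[(1,63697),(0,41),(2,14415)])))) (.node ⟨0,0,1⟩ (.node ⟨186,-458,93⟩ (.node ⟨-126,258,413⟩ (.node ⟨-478,-147,-54⟩ (.leaf false ⟨⟨-478,-147,-54⟩,⟨-126,258,413⟩,⟨93,-406,282⟩⟩ (1,[(0,1)]) (1,[(1,1)]) (2,[(3,471),(4,354),(2,1)])) (.leaf false ⟨⟨-494,18,93⟩,⟨18,-467,186⟩,⟨93,186,458⟩⟩ (18,[(5,23710),(4,4233),(0,31)]) (9,[(5,14656),(4,8760),(0,31)]) (27,[(5,106951),(4,28641),(0,229)]))) (.leaf false ⟨⟨-483,-114,-82⟩,⟨-42,-163,474⟩,⟨134,-462,-147⟩⟩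 (43,[(2,4321),(4,23163),(0,19)]) (258,[(2,189611),(4,31374),(0,163)]) (43,[(2,25480),(4,3940),(0,77)]))) (.leaf false ⟨⟨-474,42,-163⟩,⟨-147,134,462⟩,⟨-82,-483,114⟩⟩ (31,[(1,2294),(0,79),(2,34880)]) (62,[(1,33201),(0,49),(2,14134)]) (93,[(1,14415),(0,41),(2,63697)]))) (.leaf false ⟨⟨-503,0,0⟩,⟨0,-503,0⟩,⟨0,0,-503⟩⟩ (1,[(2,503)]) (1,[(1,503)]) (1,[(0,503)]))))
theorem h503_ok : h503.check (ok 503 4 ⟨3, 3, 3⟩) (fun _ r => r) [] = true := by decide +kernel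

def h509 : T := .node ⟨1,0,0⟩ (.node ⟨0,1,0⟩ (.node ⟨0,0,1⟩ (.leaf false ⟨⟨0,0,509⟩,⟨0,509,0⟩,⟨509,0,0⟩⟩ (1,[(0,509)]) (1,[(1,509)]) (1,[(2,509)])) (.node ⟨392,189,264⟩ (.node ⟨-176,396,-267⟩ (.node ⟨288,-139,-396⟩ (.leaf false ⟨⟨-176,396,-267⟩,⟨288,-139,-396⟩,⟨381,288,176⟩⟩ (1,[(1,1)]) (1,[(0,1)]) (3,[(5,359),(2,2),(4,486)])) (.leaf false ⟨⟨-427,264,-84⟩,⟨24,189,472⟩,⟨276,392,-171⟩⟩ (139,[(3,116220),(5,16679),(0,264)]) (139,[(3,9236),(5,57768),(0,189)]) (139,[(3,179001),(5,151260),(0,392)]))) (.leaf false ⟨⟨24,276,-427⟩,⟨189,392,264⟩,⟨472,-171,-84⟩⟩ (22,[(2,10195),(0,3),(3,7260)]) (176,[(2,3999),(0,189),(3,143836)]) (22,[(2,17601),(0,59),(3,19602)]))) (.leaf false ⟨⟨-392,-144,-291⟩,⟨21,444,-248⟩,⟨324,-203,-336⟩⟩ (88,[(3,3528),(2,5661),(0,97)]) (33,[(3,12845),(2,20511),(0,31)])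 (11,[(3,9052),(2,413),(0,14)])))) (.node ⟨0,0,1⟩ (.node ⟨392,264,189⟩ (.node ⟨-176,-267,396⟩ (.node ⟨288,-396,-139⟩ (.leaf false ⟨⟨-176,-267,396⟩,⟨288,-396,-139⟩,⟨381,176,288⟩⟩ (1,[(1,1)]) (1,[(0,1)]) (3,[(3,486),(2,2),(5,359)])) (.leaf false ⟨⟨-427,-84,264⟩,⟨24,472,189⟩,⟨276,-171,392⟩⟩ (139,[(5,16679),(4,116220),(0,264)]) (139,[(5,57768),(4,9236),(0,189)]) (139,[(5,151260),(4,179001),(0,392)]))) (.leaf false ⟨⟨24,-427,276⟩,⟨189,264,392⟩,⟨472,-84,-171⟩⟩ (22,[(2,7260),(0,3),(3,10195)]) (176,[(2,143836),(0,189),(3,3999)]) (22,[(2,19602),(0,59),(3,17601)]))) (.leaf false ⟨⟨-392,-291,-144⟩,⟨21,-248,444⟩,⟨324,-336,-203⟩⟩ (88,[(1,5661),(3,3528),(0,97)]) (33,[(1,20511),(3,12845),(0,31)]) (11,[(1,413),(3,9052),(0,14)]))) (.node ⟨0,220,-459⟩ (.leaf false ⟨⟨0,-459,-220⟩,⟨0,220,-459⟩,⟨509,0,0⟩⟩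 (459,[(0,220),(2,259081)]) (1,[(0,1)]) (1,[(3,509)])) (.leaf false ⟨⟨0,-459,220⟩,⟨0,-220,-459⟩,⟨509,0,0⟩⟩ (220,[(1,162281),(0,459)]) (1,[(1,918),(0,1)]) (1,[(3,509)]))))) (.node ⟨0,1,0⟩ (.node ⟨0,0,1⟩ (.node ⟨264,189,392⟩ (.node ⟨-267,396,-176⟩ (.node ⟨-396,-139,288⟩ (.leaf false ⟨⟨-396,-139,288⟩,⟨-267,396,-176⟩,⟨176,288,381⟩⟩ (1,[(0,1)]) (1,[(1,1)]) (3,[(3,359),(4,486),(2,2)])) (.leaf false ⟨⟨-491,60,-120⟩,⟨-60,309,400⟩,⟨120,400,-291⟩⟩ (139,[(3,600),(5,92009),(0,60)]) (139,[(3,144592),(5,130704),(0,309)]) (139,[(3,74751),(5,141720),(0,400)]))) (.leaf false ⟨⟨-491,-120,60⟩,⟨-60,400,309⟩,⟨120,-291,400⟩⟩ (44,[(4,25609),(3,660),(0,15)]) (176,[(4,93063),(3,192764),(0,309)]) (11,[(4,5355),(3,6699),(0,25)]))) (.leaf false ⟨⟨-468,-171,-104⟩,⟨-144,104,477⟩,⟨-139,468,-144⟩⟩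 (22,[(1,13000),(0,39),(2,3609)]) (11,[(1,7599),(0,6),(2,2278)]) (264,[(1,16472),(0,139),(2,149823)]))) (.node ⟨220,0,-459⟩ (.leaf false ⟨⟨-459,0,-220⟩,⟨0,509,0⟩,⟨220,0,-459⟩⟩ (459,[(3,259081),(0,220)]) (1,[(2,509)]) (1,[(0,1)])) (.leaf false ⟨⟨-459,0,220⟩,⟨-220,0,-459⟩,⟨0,509,0⟩⟩ (220,[(1,162281),(0,459)]) (1,[(1,918),(0,1)]) (1,[(2,509)])))) (.node ⟨0,0,1⟩ (.node ⟨220,-459,0⟩ (.leaf false ⟨⟨-459,-220,0⟩,⟨0,0,509⟩,⟨220,-459,0⟩⟩ (459,[(3,259081),(0,220)]) (1,[(1,509)]) (1,[(0,1)])) (.leaf false ⟨⟨-459,220,0⟩,⟨-220,-459,0⟩,⟨0,0,509⟩⟩ (220,[(0,459),(2,162281)]) (1,[(0,1),(2,918)]) (1,[(1,509)]))) (.node ⟨-171,276,-392⟩ (.node ⟨-419,-192,216⟩ (.node ⟨-472,-24,189⟩ (.leaf false ⟨⟨-472,-24,189⟩,⟨-171,276,-392⟩,⟨-84,-427,-264⟩⟩ (1,[(0,1)]) (1,[(2,1)]) (57,[(3,4072),(2,28),(4,32067)]))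 (.leaf false ⟨⟨-427,-264,-84⟩,⟨-24,189,-472⟩,⟨276,-392,-171⟩⟩ (432,[(5,361917),(1,721),(0,1016)]) (14252,[(2,8131),(5,7791263),(0,18728)]) (72,[(5,32673),(1,181),(0,272)]))) (.leaf false ⟨⟨-491,-60,-120⟩,⟨60,309,-400⟩,⟨120,-400,-291⟩⟩ (9,[(4,6514),(3,1500),(0,5)]) (27,[(4,19330),(3,1257),(0,50)]) (72,[(4,32003),(3,47424),(0,97)]))) (.leaf false ⟨⟨-491,-120,-60⟩,⟨60,-400,309⟩,⟨120,-291,-400⟩⟩ (23,[(1,5300),(3,13003),(0,10)]) (69,[(1,17879),(3,12960),(0,100)]) (92,[(1,74824),(3,5547),(0,97)])))))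
theorem h509_ok : h509.check (ok 509 4 ⟨3, 3, 3⟩) (fun _ r => r) [] = true := by decide +kernel

def h521 : T := .node ⟨1,0,0⟩ (.node ⟨0,1,0⟩ (.node ⟨0,0,1⟩ (.leaf false ⟨⟨0,0,521⟩,⟨0,521,0⟩,⟨521,0,0⟩⟩ (1,[(0,521)]) (1,[(1,521)]) (1,[(2,521)])) (.node ⟨-279,0,-440⟩ (.leaf false ⟨⟨-279,0,-440⟩,⟨0,521,0⟩,⟨440,0,-279⟩⟩ (1,[(0,1)]) (1,[(2,521)]) (440,[(3,271441),(0,279)])) (.node ⟨476,-204,57⟩ (.leaf false ⟨⟨129,168,-476⟩,⟨168,449,204⟩,⟨476,-204,57⟩⟩ (93,[(2,63188),(1,43),(3,15624)]) (93,[(2,5668),(1,56),(3,41757)]) (1,[(0,1)])) (.leaf false ⟨⟨-420,300,-71⟩,⟨129,280,420⟩,⟨280,321,-300⟩⟩ (4743,[(2,2033578),(1,4760),(0,6975)]) (14229,[(2,10466170),(1,39899),(0,19530)]) (6324,[(2,11592553),(1,23324),(0,9951)]))))) (.node ⟨0,0,1⟩ (.node ⟨-279,-440,0⟩ (.leaf false ⟨⟨-279,-440,0⟩,⟨0,0,521⟩,⟨440,-279,0⟩⟩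 (1,[(0,1)]) (1,[(1,521)]) (440,[(3,271441),(0,279)])) (.node ⟨476,57,-204⟩ (.leaf false ⟨⟨129,-476,168⟩,⟨168,204,449⟩,⟨476,57,-204⟩⟩ (93,[(2,15624),(1,43),(3,63188)]) (93,[(2,41757),(1,56),(3,5668)]) (1,[(0,1)])) (.leaf false ⟨⟨-420,-71,300⟩,⟨129,420,280⟩,⟨280,-300,321⟩⟩ (4743,[(1,4760),(3,2033578),(0,6975)]) (14229,[(1,39899),(3,10466170),(0,19530)]) (6324,[(1,23324),(3,11592553),(0,9951)])))) (.node ⟨-159,-496,-12⟩ (.node ⟨-159,64,-492⟩ (.leaf false ⟨⟨-159,-496,-12⟩,⟨-64,33,-516⟩,⟨492,-156,-71⟩⟩ (1,[(1,1)]) (41,[(4,4213),(3,1399),(0,43)]) (492,[(4,253353),(3,81296),(0,71)])) (.leaf false ⟨⟨-132,-504,1⟩,⟨244,-63,456⟩,⟨441,-116,-252⟩⟩ (3710,[(2,252610),(0,611),(1,3691)]) (64,[(2,1812),(4,5599),(0,63)]) (16,[(2,18300),(4,2445),(0,29)]))) (.node ⟨404,324,57⟩ (.leaf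 false ⟨⟨72,1,-516⟩,⟨321,-408,44⟩,⟨404,324,57⟩⟩ (53,[(2,27636),(1,24),(3,11851)]) (404,[(2,521),(0,321),(3,268836)]) (1,[(0,1)])) (.leaf false ⟨⟨-512,9,-96⟩,⟨9,-512,-96⟩,⟨96,96,-503⟩⟩ (281,[(1,640),(3,117919),(0,608)]) (1405,[(1,13099),(3,5556288),(0,5124)]) (4215,[(1,208684),(3,76816828),(0,81129)])))))) (.node ⟨0,1,0⟩ (.node ⟨0,0,1⟩ (.node ⟨-440,-279,0⟩ (.leaf false ⟨⟨-440,-279,0⟩,⟨-279,440,0⟩,⟨0,0,521⟩⟩ (1,[(0,1)]) (440,[(0,279),(2,271441)]) (1,[(1,521)])) (.node ⟨57,476,-204⟩ (.leaf false ⟨⟨-476,129,168⟩,⟨57,476,-204⟩,⟨204,168,449⟩⟩ (93,[(2,15624),(4,63188),(1,43)]) (1,[(0,1)]) (93,[(2,41757),(4,5668),(1,56)])) (.leaf false ⟨⟨-519,-36,28⟩,⟨-28,504,129⟩,⟨36,-127,504⟩⟩ (14229,[(4,7931770),(1,1496),(0,1953)]) (18972,[(4,23932987),(1,54740),(0,11997)]) (4743,[(4,7007846),(1,17833),(0,11718)]))))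 (.node ⟨-12,-159,-496⟩ (.node ⟨-492,-159,64⟩ (.leaf false ⟨⟨-516,-64,33⟩,⟨-71,492,-156⟩,⟨-12,-159,-496⟩⟩ (41,[(2,1399),(0,43),(3,4213)]) (492,[(2,81296),(0,71),(3,253353)]) (1,[(1,1)])) (.leaf false ⟨⟨-496,12,-159⟩,⟨33,516,-64⟩,⟨156,-71,-492⟩⟩ (496,[(1,159),(4,244108),(3,31233)]) (1,[(4,459),(3,357),(0,1)]) (1020,[(1,967),(3,26160),(0,347)]))) (.node ⟨57,404,324⟩ (.leaf false ⟨⟨-516,72,1⟩,⟨44,321,-408⟩,⟨57,404,324⟩⟩ (53,[(2,11851),(4,27636),(1,24)]) (404,[(2,268836),(4,521),(0,321)]) (1,[(0,1)])) (.leaf false ⟨⟨-519,-12,44⟩,⟨-44,264,-447⟩,⟨12,449,264⟩⟩ (1405,[(2,25594808),(0,27459),(1,69664)]) (4215,[(2,14871673),(0,10164),(1,32824)]) (281,[(2,536616),(0,232),(1,1383)]))))) (.node ⟨0,0,1⟩ (.node ⟨-12,-496,-159⟩ (.node ⟨-492,64,-159⟩ (.leaf false ⟨⟨-516,33,-64⟩,⟨-71,-156,492⟩,⟨-12,-496,-159⟩⟩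 (41,[(2,4213),(0,43),(3,1399)]) (492,[(2,253353),(0,71),(3,81296)]) (1,[(1,1)])) (.leaf false ⟨⟨-496,-159,12⟩,⟨33,-64,516⟩,⟨156,-492,-71⟩⟩ (496,[(2,31233),(4,244108),(1,159)]) (1,[(2,357),(4,459),(0,1)]) (1020,[(2,26160),(1,967),(0,347)]))) (.node ⟨57,324,404⟩ (.leaf false ⟨⟨-516,1,72⟩,⟨44,-408,321⟩,⟨57,324,404⟩⟩ (53,[(4,27636),(3,11851),(1,24)]) (404,[(4,521),(3,268836),(0,321)]) (1,[(0,1)])) (.leaf false ⟨⟨-519,-36,28⟩,⟨-28,504,129⟩,⟨36,-127,504⟩⟩ (1405,[(3,26032328),(1,70424),(0,27619)]) (843,[(3,1037896),(1,3733),(0,1200)]) (1405,[(3,2488531),(1,4728),(0,108)])))) (.node ⟨-28,129,-504⟩ (.node ⟨-503,96,96⟩ (.leaf false ⟨⟨-519,28,36⟩,⟨-36,-504,-127⟩,⟨-28,129,-504⟩⟩ (503,[(2,31716),(0,519),(3,35740)]) (503,[(2,67337),(0,36),(3,256968)]) (1,[(1,1)])) (.leaf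 false ⟨⟨-512,9,-96⟩,⟨9,-512,-96⟩,⟨96,96,-503⟩⟩ (21,[(1,4),(4,10640),(3,327)]) (1,[(4,494),(3,416),(0,1)]) (20256,[(1,19168),(4,285723),(0,5501)]))) (.leaf false ⟨⟨-519,-44,-12⟩,⟨12,-264,449⟩,⟨44,-447,-264⟩⟩ (129,[(1,23724),(3,68183),(0,44)]) (43,[(1,25045),(3,1948),(0,88)]) (43,[(1,86448),(3,2280),(0,149)])))))
theorem h521_ok : h521.check (ok 521 4 ⟨3, 3, 3⟩) (fun _ r => r) [] = true := by decide +kernel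

def h523 : T := .node ⟨1,0,0⟩ (.node ⟨0,1,0⟩ (.node ⟨0,0,1⟩ (.node ⟨-102,-55,510⟩ (.node ⟨505,-102,90⟩ (.leaf false ⟨⟨-102,-55,510⟩,⟨90,510,73⟩,⟨505,-102,90⟩⟩ (1,[(1,1)]) (510,[(4,53346),(3,264115),(1,73)]) (1,[(0,1)])) (.leaf false ⟨⟨-494,78,153⟩,⟨57,514,-78⟩,⟨162,57,494⟩⟩ (5230,[(4,377083),(0,5355),(1,2514)]) (2615,[(4,7600236),(0,14325),(1,2128)]) (23535,[(4,20844688),(0,28120),(1,27759)]))) (.node ⟨-134,498,-87⟩ (.leaf false ⟨⟨-134,498,-87⟩,⟨318,153,386⟩,⟨393,46,-342⟩⟩ (1,[(0,1)]) (166,[(2,68513),(4,59622),(0,51)]) (55,[(2,4650),(4,16923),(1,46)])) (.leaf false ⟨⟨18,-42,521⟩,⟨361,378,18⟩,⟨378,-359,-42⟩⟩ (67,[(2,34124),(0,9),(3,1668)]) (102,[(2,185946),(1,361),(3,18701)]) (12869,[(0,31416),(1,6419),(3,10672152)])))) (.node ⟨494,57,162⟩ (.node ⟨-162,494,57⟩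 (.leaf false ⟨⟨-162,494,57⟩,⟨57,78,-514⟩,⟨494,153,78⟩⟩ (1,[(0,1)]) (19,[(2,9937),(4,1569),(0,3)]) (25593,[(4,8832424),(1,9937),(0,6780)])) (.node ⟨-42,249,-458⟩ (.leaf false ⟨⟨-42,249,-458⟩,⟨278,-378,-231⟩,⟨441,262,102⟩⟩ (1,[(0,1)]) (81,[(3,10788),(1,139),(4,38048)]) (494,[(3,21054),(2,441),(4,104291)])) (.leaf false ⟨⟨18,521,-42⟩,⟨361,18,378⟩,⟨378,-42,-359⟩⟩ (7,[(3,1668),(0,3),(4,4394)]) (42,[(3,149462),(0,361),(4,90645)]) (1,[(3,4481),(0,9),(4,2199)])))) (.leaf false ⟨⟨-378,-42,-359⟩,⟨-18,521,-42⟩,⟨361,-18,-378⟩⟩ (162,[(3,116110),(2,13659),(0,359)]) (27,[(3,2972),(2,14466),(0,7)]) (3,[(3,4541),(2,345),(0,7)])))) (.node ⟨0,0,1⟩ (.node ⟨494,162,57⟩ (.node ⟨-162,57,494⟩ (.leaf false ⟨⟨-162,57,494⟩,⟨57,-514,78⟩,⟨494,78,153⟩⟩ (1,[(0,1)]) (19,[(4,1569),(3,9937),(0,3)])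 (25593,[(1,9937),(4,8832424),(0,6780)])) (.node ⟨-42,-458,249⟩ (.leaf false ⟨⟨-42,-458,249⟩,⟨278,-231,-378⟩,⟨441,102,262⟩⟩ (1,[(0,1)]) (81,[(3,38048),(1,139),(4,10788)]) (494,[(3,104291),(2,441),(4,21054)])) (.leaf false ⟨⟨18,-42,521⟩,⟨361,378,18⟩,⟨378,-359,-42⟩⟩ (7,[(3,4394),(0,3),(4,1668)]) (42,[(3,90645),(0,361),(4,149462)]) (1,[(3,2199),(0,9),(4,4481)])))) (.leaf false ⟨⟨-378,-359,-42⟩,⟨-18,-42,521⟩,⟨361,-378,-18⟩⟩ (162,[(1,13659),(3,116110),(0,359)]) (27,[(1,14466),(3,2972),(0,7)]) (3,[(1,345),(3,4541),(0,7)]))) (.node ⟨-102,-510,-55⟩ (.node ⟨438,217,-186⟩ (.node ⟨-242,-183,-426⟩ (.node ⟨246,-458,57⟩ (.leaf false ⟨⟨-242,-183,-426⟩,⟨246,-458,57⟩,⟨393,174,-298⟩⟩ (1,[(1,1)]) (1,[(0,1)]) (146,[(4,19142),(2,131),(5,3023)])) (.leaf false ⟨⟨-486,-62,-183⟩,⟨118,297,-414⟩,⟨153,-426,-262⟩⟩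 (19,[(6,5772),(5,29116),(0,61)]) (19,[(6,36190),(5,57561),(0,138)]) (57,[(6,73173),(5,144278),(0,262)]))) (.leaf false ⟨⟨-87,-514,-42⟩,⟨318,-87,406⟩,⟨406,-42,-327⟩⟩ (1326,[(3,23629),(0,102),(2,1373)]) (1343,[(3,333080),(0,2193),(2,1016)]) (17459,[(3,19940282),(0,35224),(2,14077)]))) (.leaf false ⟨⟨-426,-262,153⟩,⟨-62,-183,-486⟩,⟨297,-414,118⟩⟩ (217,[(2,15531),(4,22314),(0,262)]) (217,[(2,139500),(4,66700),(0,183)]) (217,[(2,51398),(4,245781),(0,414)]))) (.leaf false ⟨⟨42,-487,-186⟩,⟨217,186,-438⟩,⟨474,-42,217⟩⟩ (17,[(1,3547),(0,7),(2,11849)]) (102,[(1,56611),(0,217),(2,91698)]) (17,[(1,656),(0,79),(2,41004)]))))) (.node ⟨0,1,0⟩ (.node ⟨0,0,1⟩ (.node ⟨162,57,494⟩ (.node ⟨57,494,-162⟩ (.leaf false ⟨⟨-514,78,57⟩,⟨57,494,-162⟩,⟨78,153,494⟩⟩ (19,[(2,1569),(4,9937),(0,3)])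 (1,[(0,1)]) (25593,[(2,8832424),(0,6780),(1,9937)])) (.node ⟨-458,249,-42⟩ (.leaf false ⟨⟨-458,249,-42⟩,⟨-231,-378,278⟩,⟨102,262,441⟩⟩ (1,[(0,1)]) (81,[(5,10788),(4,38048),(1,139)]) (494,[(5,21054),(4,104291),(2,441)])) (.leaf false ⟨⟨-514,57,78⟩,⟨57,-162,494⟩,⟨78,494,153⟩⟩ (7,[(5,9552),(4,3636),(0,13)]) (21,[(5,111929),(4,58101),(0,247)]) (14,[(5,22266),(4,19615),(0,51)])))) (.leaf false ⟨⟨-406,-87,-318⟩,⟨-327,42,406⟩,⟨-42,514,-87⟩⟩ (81,[(1,74524),(0,203),(2,4524)]) (54,[(1,75770),(0,109),(2,8481)]) (27,[(1,1109),(0,7),(2,14277)]))) (.node ⟨-510,-102,-55⟩ (.node ⟨217,438,-186⟩ (.node ⟨-183,-242,-426⟩ (.node ⟨-458,246,57⟩ (.leaf false ⟨⟨-458,246,57⟩,⟨-183,-242,-426⟩,⟨174,393,-298⟩⟩ (1,[(0,1)]) (1,[(1,1)]) (146,[(4,19142),(6,3023),(2,131)])) (.leaf false ⟨⟨-519,-18,-62⟩,⟨18,442,-279⟩,⟨62,-279,-438⟩⟩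 (57,[(6,57979),(5,14226),(0,62)]) (19,[(6,42252),(5,31276),(0,93)]) (19,[(6,65690),(5,30615),(0,146)]))) (.leaf false ⟨⟨-514,-87,-42⟩,⟨-87,318,406⟩,⟨-42,406,-327⟩⟩ (1326,[(3,23629),(2,1373),(0,102)]) (1343,[(3,333080),(2,1016),(0,2193)]) (17459,[(3,19940282),(2,14077),(0,35224)]))) (.leaf false ⟨⟨-510,-90,73⟩,⟨-102,505,-90⟩,⟨-55,-102,-510⟩⟩ (217,[(2,79019),(0,510),(3,203850)]) (217,[(2,38502),(0,102),(3,154261)]) (217,[(2,120900),(0,55),(3,1956)]))) (.leaf false ⟨⟨-510,102,-55⟩,⟨73,90,-510⟩,⟨90,505,102⟩⟩ (1,[(1,110),(3,1020),(0,1)]) (17,[(1,9495),(3,6409),(0,15)]) (102,[(1,17371),(3,248370),(0,505)])))) (.node ⟨0,0,1⟩ (.node ⟨-510,-55,-102⟩ (.node ⟨217,-186,438⟩ (.node ⟨-183,-426,-242⟩ (.node ⟨-458,57,246⟩ (.leaf false ⟨⟨-458,57,246⟩,⟨-183,-426,-242⟩,⟨174,-298,393⟩⟩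 (1,[(0,1)]) (1,[(1,1)]) (146,[(6,3023),(5,19142),(2,131)])) (.leaf false ⟨⟨-519,-62,-18⟩,⟨18,-279,442⟩,⟨62,-438,-279⟩⟩ (57,[(4,14226),(6,57979),(0,62)]) (19,[(4,31276),(6,42252),(0,93)]) (19,[(4,30615),(6,65690),(0,146)]))) (.leaf false ⟨⟨-514,-42,-87⟩,⟨-87,406,318⟩,⟨-42,-327,406⟩⟩ (1326,[(2,1373),(4,23629),(0,102)]) (1343,[(2,1016),(4,333080),(0,2193)]) (17459,[(2,14077),(4,19940282),(0,35224)]))) (.leaf false ⟨⟨-510,73,-90⟩,⟨-102,-90,505⟩,⟨-55,-510,-102⟩⟩ (217,[(2,203850),(0,510),(3,79019)]) (217,[(2,154261),(0,102),(3,38502)]) (217,[(2,1956),(0,55),(3,120900)]))) (.leaf false ⟨⟨-510,-55,102⟩,⟨73,-510,90⟩,⟨90,102,505⟩⟩ (1,[(3,1020),(2,110),(0,1)]) (17,[(3,6409),(2,9495),(0,15)]) (102,[(3,248370),(2,17371),(0,505)]))) (.leaf false ⟨⟨-523,0,0⟩,⟨0,-523,0⟩,⟨0,0,-523⟩⟩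 (1,[(2,523)]) (1,[(1,523)]) (1,[(0,523)]))))
theorem h523_ok : h523.check (ok 523 4 ⟨3, 3, 3⟩) (fun _ r => r) [] = true := by decide +kernel

def h527 : T := .node ⟨1,0,0⟩ (.node ⟨0,1,0⟩ (.node ⟨0,0,1⟩ (.node ⟨-162,22,501⟩ (.node ⟨-162,498,-59⟩ (.leaf false ⟨⟨-162,22,501⟩,⟨-59,522,-42⟩,⟨498,69,158⟩⟩ (1,[(1,1)]) (83,[(2,1647),(4,9197),(0,87)]) (166,[(2,27585),(4,86394),(0,23)])) (.leaf false ⟨⟨-123,174,482⟩,⟨266,-402,213⟩,⟨438,293,6⟩⟩ (501,[(4,16461),(3,76570),(1,482)]) (62699,[(4,11666788),(1,20589),(0,51522)]) (59,[(4,24870),(3,20275),(0,6)]))) (.node ⟨454,-267,-18⟩ (.leaf false ⟨⟨6,438,293⟩,⟨213,266,-402⟩,⟨482,-123,174⟩⟩ (27,[(2,8412),(1,1),(3,11848)]) (54,[(2,13863),(1,71),(3,15926)]) (227,[(2,43836),(0,241),(3,36426)])) (.leaf false ⟨⟨-427,270,150⟩,⟨150,405,-302⟩,⟨270,202,405⟩⟩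 (33266,[(2,8665743),(1,8571),(0,34346)]) (16633,[(2,50448604),(1,111960),(0,34455)]) (16633,[(2,47419788),(1,81899),(0,19332)])))) (.node ⟨-248,465,0⟩ (.leaf false ⟨⟨-248,465,0⟩,⟨0,0,-527⟩,⟨465,248,0⟩⟩ (1,[(0,1)]) (1,[(1,527)]) (15,[(3,8959),(0,8)])) (.leaf false ⟨⟨0,0,-527⟩,⟨248,465,0⟩,⟨465,-248,0⟩⟩ (1,[(1,527)]) (1,[(0,1),(2,930)]) (8,[(0,15),(2,4991)])))) (.node ⟨0,0,1⟩ (.node ⟨-248,0,465⟩ (.leaf false ⟨⟨-248,0,465⟩,⟨0,-527,0⟩,⟨465,0,248⟩⟩ (1,[(0,1)]) (1,[(2,527)]) (15,[(3,8959),(0,8)])) (.leaf false ⟨⟨0,-527,0⟩,⟨248,0,465⟩,⟨465,0,-248⟩⟩ (1,[(2,527)]) (1,[(1,930),(0,1)]) (8,[(1,4991),(0,15)]))) (.node ⟨-162,-498,-59⟩ (.node ⟨102,238,-459⟩ (.node ⟨498,-171,22⟩ (.leaf false ⟨⟨-139,-438,-258⟩,⟨102,238,-459⟩,⟨498,-171,22⟩⟩ (83,[(3,17107),(5,289),(2,73)]) (1,[(1,1)])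 (1,[(0,1)])) (.leaf false ⟨⟨-522,-42,-59⟩,⟨-22,501,-162⟩,⟨69,-158,-498⟩⟩ (22,[(5,17898),(4,11013),(0,59)]) (11,[(5,40096),(4,8340),(0,81)]) (11,[(5,124761),(4,44317),(0,249)]))) (.leaf false ⟨⟨-171,-498,22⟩,⟨238,-102,-459⟩,⟨438,-139,258⟩⟩ (119,[(2,111673),(4,5049),(0,249)]) (7,[(2,4590),(4,1972),(0,3)]) (238,[(2,2397),(4,118422),(0,139)]))) (.leaf false ⟨⟨0,0,-527⟩,⟨248,465,0⟩,⟨465,-248,0⟩⟩ (1,[(1,527)]) (81,[(1,7316),(0,124),(2,24087)]) (54,[(1,9145),(0,155),(2,90582)]))))) (.node ⟨0,1,0⟩ (.node ⟨0,0,1⟩ (.node ⟨0,-248,465⟩ (.leaf false ⟨⟨-527,0,0⟩,⟨0,-248,465⟩,⟨0,465,248⟩⟩ (1,[(3,527)]) (1,[(0,1)]) (15,[(0,8),(2,8959)])) (.leaf false ⟨⟨-527,0,0⟩,⟨0,248,465⟩,⟨0,465,-248⟩⟩ (1,[(3,527)]) (1,[(1,930),(0,1)]) (8,[(1,4991),(0,15)]))) (.node ⟨-59,-162,-498⟩ (.node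 ⟨-459,102,238⟩ (.node ⟨22,498,-171⟩ (.leaf false ⟨⟨-459,102,238⟩,⟨-258,-139,-438⟩,⟨22,498,-171⟩⟩ (1,[(1,1)]) (83,[(2,73),(5,17107),(4,289)]) (1,[(0,1)])) (.leaf false ⟨⟨-522,-22,69⟩,⟨-59,-162,-498⟩,⟨-42,501,-158⟩⟩ (11,[(3,43872),(0,261),(4,129736)]) (22,[(3,21045),(0,59),(4,25818)]) (11,[(3,5329),(0,21),(4,15969)]))) (.leaf false ⟨⟨-459,-102,-238⟩,⟨-22,498,-171⟩,⟨258,-139,-438⟩⟩ (1,[(4,918),(0,1)]) (238,[(4,83725),(3,135966),(0,171)]) (119,[(4,69819),(3,5797),(0,219)]))) (.leaf false ⟨⟨-527,0,0⟩,⟨0,248,465⟩,⟨0,465,-248⟩⟩ (1,[(3,527)]) (81,[(1,24087),(3,7316),(0,124)]) (54,[(1,90582),(3,9145),(0,155)])))) (.node ⟨0,0,1⟩ (.node ⟨-59,-498,-162⟩ (.node ⟨-459,238,102⟩ (.node ⟨22,-171,498⟩ (.leaf false ⟨⟨-459,238,102⟩,⟨-258,-438,-139⟩,⟨22,-171,498⟩⟩ (1,[(1,1)]) (83,[(3,289),(5,17107),(2,73)])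 (1,[(0,1)])) (.leaf false ⟨⟨-522,69,-22⟩,⟨-59,-498,-162⟩,⟨-42,-158,501⟩⟩ (11,[(3,129736),(0,261),(4,43872)]) (22,[(3,25818),(0,59),(4,21045)]) (11,[(3,15969),(0,21),(4,5329)]))) (.leaf false ⟨⟨-459,-258,22⟩,⟨102,-139,498⟩,⟨238,-438,-171⟩⟩ (119,[(2,15776),(4,113832),(0,129)]) (238,[(2,132702),(4,39525),(0,139)]) (119,[(2,1989),(4,72199),(0,219)]))) (.leaf false ⟨⟨-527,0,0⟩,⟨0,-248,465⟩,⟨0,465,248⟩⟩ (1,[(3,527)]) (54,[(3,9145),(2,90582),(0,155)]) (81,[(3,7316),(2,24087),(0,124)]))) (.leaf false ⟨⟨-527,0,0⟩,⟨0,-527,0⟩,⟨0,0,-527⟩⟩ (1,[(2,527)]) (1,[(1,527)]) (1,[(0,527)]))))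
theorem h527_ok : h527.check (ok 527 4 ⟨3, 3, 3⟩) (fun _ r => r) [] = true := by decide +kernel

def h529 : T := .node ⟨1,0,0⟩ (.node ⟨0,1,0⟩ (.node ⟨0,0,1⟩ (.leaf false ⟨⟨0,0,529⟩,⟨0,529,0⟩,⟨529,0,0⟩⟩ (1,[(0,529)]) (1,[(1,529)]) (1,[(2,529)])) (.node ⟨-303,264,-344⟩ (.node ⟨457,216,156⟩ (.node ⟨216,-119,-468⟩ (.leaf false ⟨⟨-156,468,-191⟩,⟨216,-119,-468⟩,⟨457,216,156⟩⟩ (101,[(3,1403),(4,33540),(2,52)]) (1,[(0,1)]) (1,[(1,1)])) (.leaf false ⟨⟨-456,264,-47⟩,⟨168,209,-456⟩,⟨209,408,264⟩⟩ (119,[(3,129145),(5,2760),(0,264)]) (119,[(3,152076),(5,65136),(0,209)]) (7,[(3,9384),(5,6647),(0,24)]))) (.leaf false ⟨⟨-492,36,-191⟩,⟨96,-407,-324⟩,⟨169,336,-372⟩⟩ (156,[(4,10535),(3,46872),(0,191)]) (13,[(4,13587),(3,541),(0,27)]) (13,[(4,16364),(3,11064),(0,31)]))) (.leaf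 false ⟨⟨9,268,-456⟩,⟨372,321,196⟩,⟨376,-324,-183⟩⟩ (101,[(1,47088),(0,3),(2,27860)]) (101,[(1,22860),(0,124),(2,65157)]) (303,[(1,184793),(0,376),(2,1092)])))) (.node ⟨0,0,1⟩ (.node ⟨-303,-344,264⟩ (.node ⟨457,156,216⟩ (.node ⟨216,-468,-119⟩ (.leaf false ⟨⟨-156,-191,468⟩,⟨216,-468,-119⟩,⟨457,156,216⟩⟩ (101,[(3,33540),(4,1403),(2,52)]) (1,[(0,1)]) (1,[(1,1)])) (.leaf false ⟨⟨-456,-47,264⟩,⟨168,-456,209⟩,⟨209,264,408⟩⟩ (119,[(5,2760),(4,129145),(0,264)]) (119,[(5,65136),(4,152076),(0,209)]) (7,[(5,6647),(4,9384),(0,24)]))) (.leaf false ⟨⟨-492,-191,36⟩,⟨96,-324,-407⟩,⟨169,-372,336⟩⟩ (156,[(2,46872),(4,10535),(0,191)]) (13,[(2,541),(4,13587),(0,27)]) (13,[(2,11064),(4,16364),(0,31)]))) (.leaf false ⟨⟨9,-456,268⟩,⟨372,196,321⟩,⟨376,-183,-324⟩⟩ (101,[(1,27860),(0,3),(2,47088)])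 (101,[(1,65157),(0,124),(2,22860)]) (303,[(1,1092),(0,376),(2,184793)]))) (.node ⟨484,-63,204⟩ (.node ⟨-255,-420,-196⟩ (.node ⟨196,105,-480⟩ (.leaf false ⟨⟨-255,-420,-196⟩,⟨196,105,-480⟩,⟨420,-304,105⟩⟩ (1,[(1,1)]) (1,[(0,1)]) (68,[(5,11620),(2,35),(4,18467)])) (.leaf false ⟨⟨-420,-279,160⟩,⟨-20,-240,-471⟩,⟨321,-380,180⟩⟩ (35,[(3,39040),(5,3528),(0,93)]) (7,[(3,10977),(5,2996),(0,16)]) (21,[(3,32700),(5,21637),(0,76)]))) (.leaf false ⟨⟨20,-240,-471⟩,⟨321,380,-180⟩,⟨420,-279,160⟩⟩ (51,[(2,24805),(0,4),(3,13920)]) (85,[(2,36272),(0,107),(3,12640)]) (17,[(2,2768),(0,28),(3,16503)]))) (.leaf false ⟨⟨-264,-439,-132⟩,⟨36,132,-511⟩,⟨457,-264,-36⟩⟩ (17,[(3,836),(2,8156),(0,11)]) (204,[(3,254668),(2,5265),(0,511)]) (17,[(3,9221),(2,4677),(0,3)]))))) (.node ⟨0,1,0⟩ (.node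 ⟨0,0,1⟩ (.node ⟨-344,264,-303⟩ (.node ⟨156,216,457⟩ (.node ⟨-468,-119,216⟩ (.leaf false ⟨⟨-468,-119,216⟩,⟨-191,468,-156⟩,⟨156,216,457⟩⟩ (1,[(0,1)]) (101,[(5,1403),(2,52),(4,33540)]) (1,[(1,1)])) (.leaf false ⟨⟨-511,84,-108⟩,⟨-84,137,504⟩,⟨108,504,-119⟩⟩ (17,[(3,756),(5,14303),(0,12)]) (119,[(3,89568),(5,74112),(0,137)]) (17,[(3,13529),(5,31860),(0,72)]))) (.leaf false ⟨⟨-495,-160,-96⟩,⟨-160,504,-15⟩,⟨-96,-15,520⟩⟩ (52,[(2,70413),(0,165),(3,27320)]) (39,[(2,17695),(0,40),(3,28296)]) (13,[(2,10416),(0,8),(3,1533)]))) (.leaf false ⟨⟨-456,268,9⟩,⟨-183,-324,376⟩,⟨196,321,372⟩⟩ (101,[(3,47088),(2,27860),(0,3)]) (303,[(3,184793),(2,1092),(0,376)]) (101,[(3,22860),(2,65157),(0,124)]))) (.node ⟨-63,484,204⟩ (.node ⟨-420,-255,-196⟩ (.node ⟨105,196,-480⟩ (.leaf false ⟨⟨-420,-255,-196⟩,⟨-304,420,105⟩,⟨105,196,-480⟩⟩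 (1,[(1,1)]) (68,[(5,18467),(2,35),(4,11620)]) (1,[(0,1)])) (.leaf false ⟨⟨-524,-72,9⟩,⟨-63,484,204⟩,⟨-36,201,-488⟩⟩ (105,[(3,250575),(0,524),(4,95144)]) (5,[(3,420),(0,3),(4,3008)]) (35,[(3,22840),(0,12),(4,9387)]))) (.leaf false ⟨⟨-524,36,-63⟩,⟨9,488,204⟩,⟨72,201,-484⟩⟩ (85,[(2,7707),(4,49580),(0,12)]) (255,[(2,43628),(4,202665),(0,488)]) (85,[(2,54272),(4,22020),(0,67)]))) (.leaf false ⟨⟨-511,-36,-132⟩,⟨36,457,-264⟩,⟨132,-264,-439⟩⟩ (17,[(3,9380),(2,4712),(0,11)]) (17,[(3,774),(2,18417),(0,22)]) (204,[(3,729),(2,158620),(0,439)])))) (.node ⟨0,0,1⟩ (.node ⟨-63,204,484⟩ (.node ⟨-420,-196,-255⟩ (.node ⟨105,-480,196⟩ (.leaf false ⟨⟨-420,-196,-255⟩,⟨-304,105,420⟩,⟨105,-480,196⟩⟩ (1,[(1,1)]) (68,[(3,11620),(2,35),(5,18467)]) (1,[(0,1)])) (.leaf false ⟨⟨-524,9,-72⟩,⟨-63,204,484⟩,⟨-36,-488,201⟩⟩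 (105,[(3,95144),(0,524),(4,250575)]) (5,[(3,3008),(0,3),(4,420)]) (35,[(3,9387),(0,12),(4,22840)]))) (.leaf false ⟨⟨-524,-63,36⟩,⟨9,204,488⟩,⟨72,-484,201⟩⟩ (85,[(4,49580),(3,7707),(0,12)]) (255,[(4,202665),(3,43628),(0,488)]) (85,[(4,22020),(3,54272),(0,67)]))) (.leaf false ⟨⟨-511,-132,-36⟩,⟨36,-264,457⟩,⟨132,-439,-264⟩⟩ (17,[(1,4712),(3,9380),(0,11)]) (17,[(1,18417),(3,774),(0,22)]) (204,[(1,158620),(3,729),(0,439)]))) (.node ⟨-96,160,-495⟩ (.node ⟨-504,-15,160⟩ (.leaf false ⟨⟨-520,-15,96⟩,⟨-96,160,-495⟩,⟨-15,-504,-160⟩⟩ (1026,[(2,69299),(1,3),(0,1058)]) (1,[(1,1)]) (32,[(2,2645),(1,5),(3,16928)])) (.leaf false ⟨⟨-511,-84,-108⟩,⟨84,137,-504⟩,⟨108,-504,-119⟩⟩ (55,[(1,12),(4,26953),(3,6540)]) (22070,[(1,20048),(3,296545),(0,7497)]) (160,[(4,42696),(3,82425),(0,119)])))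 (.leaf false ⟨⟨-520,-15,-96⟩,⟨-15,-504,160⟩,⟨96,-160,-495⟩⟩ (32,[(1,4557),(3,16928),(0,3)]) (20,[(1,27985),(3,6348),(0,63)]) (1,[(1,990),(0,1)])))))
theorem h529_ok : h529.check (ok 529 4 ⟨3, 3, 3⟩) (fun _ r => r) [] = true := by decide +kernel

def h533 : T := .node ⟨1,0,0⟩ (.node ⟨0,1,0⟩ (.node ⟨0,0,1⟩ (.leaf false ⟨⟨0,0,533⟩,⟨0,533,0⟩,⟨533,0,0⟩⟩ (1,[(0,533)]) (1,[(1,533)]) (1,[(2,533)])) (.node ⟨0,520,117⟩ (.leaf false ⟨⟨0,117,-520⟩,⟨0,520,117⟩,⟨533,0,0⟩⟩ (40,[(1,21853),(0,9)]) (1,[(0,1)]) (1,[(3,533)])) (.leaf false ⟨⟨0,-435,-308⟩,⟨0,308,-435⟩,⟨533,0,0⟩⟩ (117,[(0,308),(2,109265)]) (39,[(0,145),(2,87412)]) (1,[(3,533)])))) (.node ⟨0,0,1⟩ (.node ⟨0,117,520⟩ (.leaf false ⟨⟨0,-520,117⟩,⟨0,117,520⟩,⟨533,0,0⟩⟩ (40,[(0,9),(2,21853)]) (1,[(0,1)]) (1,[(3,533)]))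 (.leaf false ⟨⟨0,-435,308⟩,⟨0,-308,-435⟩,⟨533,0,0⟩⟩ (39,[(1,87412),(0,145)]) (117,[(1,109265),(0,308)]) (1,[(3,533)]))) (.node ⟨0,308,-435⟩ (.leaf false ⟨⟨0,-435,-308⟩,⟨0,308,-435⟩,⟨533,0,0⟩⟩ (435,[(0,308),(2,284089)]) (1,[(0,1)]) (1,[(3,533)])) (.leaf false ⟨⟨0,-435,308⟩,⟨0,-308,-435⟩,⟨533,0,0⟩⟩ (308,[(1,94361),(0,435)]) (1,[(1,870),(0,1)]) (1,[(3,533)]))))) (.node ⟨0,1,0⟩ (.node ⟨0,0,1⟩ (.node ⟨117,0,520⟩ (.leaf false ⟨⟨-520,0,117⟩,⟨0,533,0⟩,⟨117,0,520⟩⟩ (40,[(3,21853),(0,9)]) (1,[(2,533)]) (1,[(0,1)])) (.leaf false ⟨⟨-435,0,308⟩,⟨-308,0,-435⟩,⟨0,533,0⟩⟩ (39,[(1,87412),(0,145)]) (117,[(1,109265),(0,308)]) (1,[(2,533)]))) (.node ⟨308,0,-435⟩ (.leaf false ⟨⟨-435,0,-308⟩,⟨0,533,0⟩,⟨308,0,-435⟩⟩ (435,[(3,284089),(0,308)]) (1,[(2,533)]) (1,[(0,1)])) (.leaf false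 ⟨⟨-435,0,308⟩,⟨-308,0,-435⟩,⟨0,533,0⟩⟩ (308,[(1,94361),(0,435)]) (1,[(1,870),(0,1)]) (1,[(2,533)])))) (.node ⟨0,0,1⟩ (.node ⟨308,-435,0⟩ (.leaf false ⟨⟨-435,-308,0⟩,⟨0,0,533⟩,⟨308,-435,0⟩⟩ (435,[(3,284089),(0,308)]) (1,[(1,533)]) (1,[(0,1)])) (.leaf false ⟨⟨-435,308,0⟩,⟨-308,-435,0⟩,⟨0,0,533⟩⟩ (308,[(0,435),(2,94361)]) (1,[(0,1),(2,870)]) (1,[(1,533)]))) (.node ⟨-123,164,-492⟩ (.node ⟨-403,-264,228⟩ (.node ⟨156,-448,-243⟩ (.leaf false ⟨⟨-403,-264,228⟩,⟨-312,117,-416⟩,⟨156,-448,-243⟩⟩ (1,[(1,1)]) (123,[(2,104),(5,25584),(4,2665)]) (1,[(0,1)])) (.leaf false ⟨⟨-516,12,133⟩,⟨-123,164,-492⟩,⟨-52,-507,-156⟩⟩ (13,[(3,8720),(0,43),(4,19108)]) (52,[(3,35547),(0,41),(4,9840)]) (3,[(3,711),(0,1),(4,1969)]))) (.leaf false ⟨⟨-516,-123,-52⟩,⟨12,164,-507⟩,⟨133,-492,-156⟩⟩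 (57,[(4,34651),(3,10443),(0,13)]) (76,[(4,67195),(3,32152),(0,169)]) (19,[(4,2712),(3,12780),(0,13)]))) (.leaf false ⟨⟨-516,-123,52⟩,⟨-12,-164,-507⟩,⟨133,-492,156⟩⟩ (4,[(1,1268),(3,2433),(0,3)]) (1,[(1,999),(3,135),(0,1)]) (1,[(1,1320),(3,236),(0,3)])))))
theorem h533_ok : h533.check (ok 533 4 ⟨3, 3, 3⟩) (fun _ r => r) [] = true := by decide +kernel

def h541 : T := .node ⟨1,0,0⟩ (.node ⟨0,1,0⟩ (.node ⟨0,0,1⟩ (.leaf false ⟨⟨0,0,541⟩,⟨0,541,0⟩,⟨541,0,0⟩⟩ (1,[(0,541)]) (1,[(1,541)]) (1,[(2,541)])) (.node ⟨0,420,341⟩ (.leaf false ⟨⟨0,341,-420⟩,⟨0,420,341⟩,⟨541,0,0⟩⟩ (420,[(1,292681),(0,341)]) (1,[(0,1)]) (1,[(3,541)])) (.node ⟨-260,120,-459⟩ (.leaf false ⟨⟨-260,120,-459⟩,⟨309,440,-60⟩,⟨360,-291,-280⟩⟩ (1,[(0,1)]) (153,[(4,52477),(3,64920),(0,20)]) (341,[(1,280),(4,122760),(3,18369)]))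 (.leaf false ⟨⟨0,541,0⟩,⟨341,0,-420⟩,⟨420,0,341⟩⟩ (1,[(3,541)]) (88660,[(1,265719),(0,116281),(3,125555700)]) (4433,[(1,5206),(0,7161),(3,3045840)]))))) (.node ⟨0,0,1⟩ (.node ⟨0,341,420⟩ (.leaf false ⟨⟨0,-420,341⟩,⟨0,341,420⟩,⟨541,0,0⟩⟩ (420,[(0,341),(2,292681)]) (1,[(0,1)]) (1,[(3,541)])) (.node ⟨-260,-459,120⟩ (.leaf false ⟨⟨-260,-459,120⟩,⟨309,-60,440⟩,⟨360,-280,-291⟩⟩ (1,[(0,1)]) (153,[(2,64920),(4,52477),(0,20)]) (341,[(2,18369),(4,122760),(1,280)])) (.leaf false ⟨⟨0,0,541⟩,⟨341,-420,0⟩,⟨420,341,0⟩⟩ (1,[(2,541)]) (88660,[(2,125555700),(0,116281),(1,265719)]) (4433,[(2,3045840),(0,7161),(1,5206)])))) (.node ⟨476,-144,213⟩ (.node ⟨-144,-512,-99⟩ (.node ⟨213,36,-496⟩ (.leaf false ⟨⟨-144,-512,-99⟩,⟨213,36,-496⟩,⟨476,-171,192⟩⟩ (1,[(1,1)]) (1,[(0,1)]) (1,[(3,21),(2,1),(4,27)]))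 (.leaf false ⟨⟨-532,-96,21⟩,⟨21,-224,-492⟩,⟨96,-483,224⟩⟩ (3,[(3,3905),(5,108),(0,8)]) (9,[(3,32204),(5,12117),(0,56)]) (12,[(3,77168),(5,35445),(0,161)]))) (.leaf false ⟨⟨8,-291,-456⟩,⟨204,424,-267⟩,⟨501,-168,116⟩⟩ (18,[(2,8307),(0,1),(3,5750)]) (12,[(2,4887),(0,17),(3,3616)]) (48,[(2,10965),(0,167),(3,93568)]))) (.leaf false ⟨⟨-492,21,-224⟩,⟨21,-532,-96⟩,⟨224,96,-483⟩⟩ (213,[(3,1828),(2,27783),(0,224)]) (71,[(3,16723),(2,42380),(0,32)]) (71,[(3,92540),(2,16368),(0,161)]))))) (.node ⟨0,1,0⟩ (.node ⟨0,0,1⟩ (.node ⟨341,0,420⟩ (.leaf false ⟨⟨-420,0,341⟩,⟨0,541,0⟩,⟨341,0,420⟩⟩ (420,[(3,292681),(0,341)]) (1,[(2,541)]) (1,[(0,1)])) (.node ⟨-459,-260,120⟩ (.leaf false ⟨⟨-459,-260,120⟩,⟨-280,360,-291⟩,⟨-60,309,440⟩⟩ (1,[(0,1)]) (341,[(2,18369),(1,280),(3,122760)])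 (153,[(2,64920),(0,20),(3,52477)])) (.leaf false ⟨⟨-496,132,-171⟩,⟨-3,424,336⟩,⟨216,309,-388⟩⟩ (22165,[(2,17462685),(1,47387),(0,11253)]) (22165,[(2,32301540),(1,48849),(0,36146)]) (88660,[(2,14226020),(1,85671),(0,105369)])))) (.node ⟨-144,476,213⟩ (.node ⟨-512,-144,-99⟩ (.node ⟨36,213,-496⟩ (.leaf false ⟨⟨-512,-144,-99⟩,⟨-171,476,192⟩,⟨36,213,-496⟩⟩ (1,[(1,1)]) (1,[(3,21),(5,27),(2,1)]) (1,[(0,1)])) (.leaf false ⟨⟨-532,-51,84⟩,⟨-84,476,-243⟩,⟨-51,-252,-476⟩⟩ (9,[(3,65212),(0,133),(4,27870)]) (3,[(3,4201),(0,7),(4,2919)]) (12,[(3,14144),(0,17),(4,597)]))) (.leaf false ⟨⟨-459,216,-188⟩,⟨136,477,216⟩,⟨252,136,-459⟩⟩ (2,[(2,673),(4,2454),(0,3)]) (16,[(2,1791),(4,24960),(0,53)]) (18,[(2,9945),(4,4168),(0,17)]))) (.leaf false ⟨⟨-532,-84,-51⟩,⟨-51,476,-252⟩,⟨84,-243,-476⟩⟩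 (71,[(3,40220),(2,2128),(0,17)]) (71,[(3,15717),(2,73780),(0,84)]) (213,[(3,50652),(2,174817),(0,476)])))) (.node ⟨0,0,1⟩ (.node ⟨-144,213,476⟩ (.node ⟨-512,-99,-144⟩ (.node ⟨36,-496,213⟩ (.leaf false ⟨⟨-512,-99,-144⟩,⟨-171,192,476⟩,⟨36,-496,213⟩⟩ (1,[(1,1)]) (1,[(2,1),(5,27),(4,21)]) (1,[(0,1)])) (.leaf false ⟨⟨-532,84,-51⟩,⟨-84,-243,476⟩,⟨-51,-476,-252⟩⟩ (9,[(3,27870),(0,133),(4,65212)]) (3,[(3,2919),(0,7),(4,4201)]) (12,[(3,597),(0,17),(4,14144)]))) (.leaf false ⟨⟨-459,-188,216⟩,⟨136,216,477⟩,⟨252,-459,136⟩⟩ (2,[(4,2454),(3,673),(0,3)]) (16,[(4,24960),(3,1791),(0,53)]) (18,[(4,4168),(3,9945),(0,17)]))) (.leaf false ⟨⟨-532,-96,21⟩,⟨21,-224,-492⟩,⟨96,-483,224⟩⟩ (71,[(1,16723),(3,42380),(0,32)]) (213,[(1,1828),(3,27783),(0,224)]) (71,[(1,92540),(3,16368),(0,161)])))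 (.node ⟨-260,309,-360⟩ (.node ⟨-235,-384,300⟩ (.node ⟨84,-360,-395⟩ (.leaf false ⟨⟨-480,125,-216⟩,⟨-235,-384,300⟩,⟨84,-360,-395⟩⟩ (5,[(2,3),(5,1620),(4,302)]) (1,[(1,1)]) (1,[(0,1)])) (.leaf false ⟨⟨-512,-171,36⟩,⟨-144,476,213⟩,⟨-99,192,-496⟩⟩ (21,[(3,49804),(0,128),(4,49671)]) (7,[(3,3249),(0,12),(4,988)]) (28,[(3,26923),(0,33),(4,6504)]))) (.leaf false ⟨⟨-532,21,-96⟩,⟨21,-492,-224⟩,⟨96,224,-483⟩⟩ (25,[(4,15180),(3,2547),(0,8)]) (75,[(4,11585),(3,58404),(0,56)]) (100,[(4,28235),(3,39424),(0,161)]))) (.leaf false ⟨⟨-532,-96,21⟩,⟨21,-224,-492⟩,⟨96,-483,224⟩⟩ (103,[(1,9357),(3,63116),(0,32)]) (309,[(1,232668),(3,51751),(0,224)]) (103,[(1,34888),(3,31972),(0,161)])))))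
theorem h541_ok : h541.check (ok 541 4 ⟨3, 3, 3⟩) (fun _ r => r) [] = true := by decide +kernel

def h547 : T := .node ⟨1,0,0⟩ (.node ⟨0,1,0⟩ (.node ⟨0,0,1⟩ (.node ⟨-207,142,486⟩ (.node ⟨-66,513,-178⟩ (.leaf false ⟨⟨-207,142,486⟩,⟨-66,513,-178⟩,⟨502,126,177⟩⟩ (1,[(1,1)]) (1,[(0,1)]) (57,[(2,12581),(4,29538),(0,14)])) (.leaf false ⟨⟨-150,65,522⟩,⟨353,-390,150⟩,⟨390,378,65⟩⟩ (1641,[(3,329294),(1,1456),(0,837)]) (89,[(4,26467),(3,3765),(0,75)]) (178,[(4,65130),(3,100629),(0,65)]))) (.leaf false ⟨⟨65,522,150⟩,⟨378,65,-390⟩,⟨390,-150,353⟩⟩ (207,[(1,62640),(0,65),(2,117284)]) (23,[(1,11442),(0,42),(2,7459)]) (69,[(1,87537),(0,130),(2,8110)]))) (.node ⟨-138,138,-511⟩ (.node ⟨282,402,241⟩ (.node ⟨462,-191,-222⟩ (.leaf false ⟨⟨-79,318,-438⟩,⟨282,402,241⟩,⟨462,-191,-222⟩⟩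 (7,[(5,275),(4,1398),(2,6)]) (1,[(1,1)]) (1,[(0,1)])) (.leaf false ⟨⟨-378,210,-335⟩,⟨90,497,210⟩,⟨385,90,-378⟩⟩ (191,[(3,110605),(5,24822),(0,210)]) (191,[(3,70224),(5,246804),(0,497)]) (191,[(3,92178),(5,115115),(0,90)]))) (.leaf false ⟨⟨-402,-54,-367⟩,⟨114,497,-198⟩,⟨353,-222,-354⟩⟩ (241,[(4,6612),(3,134520),(0,367)]) (241,[(4,83310),(3,199373),(0,198)]) (241,[(4,184901),(3,88806),(0,354)]))) (.leaf false ⟨⟨2,417,-354⟩,⟨273,306,362⟩,⟨474,-178,-207⟩⟩ (69,[(1,24937),(0,1),(2,28911)]) (46,[(1,29849),(0,91),(2,26634)]) (23,[(1,45130),(0,79),(2,6808)])))) (.node ⟨0,0,1⟩ (.node ⟨-138,-511,138⟩ (.node ⟨282,241,402⟩ (.node ⟨462,-222,-191⟩ (.leaf false ⟨⟨-79,-438,318⟩,⟨282,241,402⟩,⟨462,-222,-191⟩⟩ (7,[(3,1398),(5,275),(2,6)]) (1,[(1,1)]) (1,[(0,1)])) (.leaf false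 ⟨⟨-378,-335,210⟩,⟨90,210,497⟩,⟨385,-378,90⟩⟩ (191,[(5,24822),(4,110605),(0,210)]) (191,[(5,246804),(4,70224),(0,497)]) (191,[(5,115115),(4,92178),(0,90)]))) (.leaf false ⟨⟨-402,-367,-54⟩,⟨114,-198,497⟩,⟨353,-354,-222⟩⟩ (241,[(2,134520),(4,6612),(0,367)]) (241,[(2,199373),(4,83310),(0,198)]) (241,[(2,88806),(4,184901),(0,354)]))) (.leaf false ⟨⟨2,-354,417⟩,⟨273,362,306⟩,⟨474,-207,-178⟩⟩ (69,[(1,28911),(0,1),(2,24937)]) (46,[(1,26634),(0,91),(2,29849)]) (23,[(1,6808),(0,79),(2,45130)]))) (.node ⟨33,66,-542⟩ (.node ⟨542,33,66⟩ (.leaf false ⟨⟨2,-543,-66⟩,⟨33,66,-542⟩,⟨546,-2,33⟩⟩ (33,[(2,1094),(1,2),(3,18051)]) (1,[(1,1)]) (271,[(2,9075),(0,273),(3,9551)])) (.node ⟨542,33,-66⟩ (.leaf false ⟨⟨-66,-2,-543⟩,⟨33,-546,-2⟩,⟨542,33,-66⟩⟩ (22242,[(2,17787),(5,17956781),(1,36922)])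 (33,[(5,1631),(4,17985),(1,1)]) (1,[(0,1)])) (.leaf false ⟨⟨-522,-159,38⟩,⟨81,-362,-402⟩,⟨142,-378,369⟩⟩ (451,[(2,308),(5,1266052),(0,2789)]) (6765,[(2,18579),(5,60296314),(0,111368)]) (4510,[(2,4257),(5,33114247),(0,60174)])))) (.leaf false ⟨⟨-222,-462,-191⟩,⟨241,-282,402⟩,⟨438,-79,-318⟩⟩ (1,[(1,3985),(3,9),(0,7)]) (11,[(1,21052),(3,4202),(0,47)]) (66,[(1,63806),(3,31515),(0,79)]))))) (.node ⟨0,1,0⟩ (.node ⟨0,0,1⟩ (.node ⟨-511,-138,138⟩ (.node ⟨241,282,402⟩ (.node ⟨-222,462,-191⟩ (.leaf false ⟨⟨-438,-79,318⟩,⟨-222,462,-191⟩,⟨241,282,402⟩⟩ (7,[(3,1398),(2,6),(4,275)]) (1,[(0,1)]) (1,[(1,1)])) (.leaf false ⟨⟨-543,-54,38⟩,⟨-38,513,186⟩,⟨54,-182,513⟩⟩ (191,[(5,112149),(4,7242),(0,38)]) (191,[(5,48550),(4,183915),(0,186)]) (191,[(5,103572),(4,202244),(0,513)])))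 (.leaf false ⟨⟨-511,-138,-138⟩,⟨-138,-18,529⟩,⟨-138,529,-18⟩⟩ (241,[(2,172164),(0,511),(3,110844)]) (241,[(2,182965),(0,138),(3,34578)]) (241,[(2,51138),(0,138),(3,166405)]))) (.leaf false ⟨⟨-543,54,38⟩,⟨38,513,-186⟩,⟨54,182,513⟩⟩ (23,[(1,2116),(3,17088),(0,9)]) (46,[(1,15042),(3,85633),(0,171)]) (69,[(1,47955),(3,42775),(0,91)]))) (.node ⟨66,33,-542⟩ (.node ⟨33,542,66⟩ (.leaf false ⟨⟨-546,33,2⟩,⟨2,66,-543⟩,⟨33,542,66⟩⟩ (542,[(2,1094),(4,297021),(0,33)]) (271,[(2,149331),(4,547),(0,33)]) (1,[(0,1)])) (.node ⟨33,542,-66⟩ (.leaf false ⟨⟨-546,33,-2⟩,⟨-2,-66,-543⟩,⟨33,542,-66⟩⟩ (33,[(5,17985),(4,1631),(1,1)]) (295942,[(5,17956781),(2,289950),(1,53691)]) (1,[(0,1)])) (.leaf false ⟨⟨-543,-66,-2⟩,⟨-66,542,33⟩,⟨-2,33,-546⟩⟩ (2255,[(4,26251264),(2,5984),(0,49073)]) (410,[(4,770709),(2,99),(0,1018)])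 (1353,[(4,1996658),(2,1815),(0,3712)])))) (.leaf false ⟨⟨-543,-66,-2⟩,⟨-66,542,33⟩,⟨-2,33,-546⟩⟩ (22,[(1,98146),(0,181),(2,4521)]) (1,[(1,509),(0,1),(2,575)]) (33,[(1,18560),(0,1),(2,1122)])))) (.node ⟨0,0,1⟩ (.node ⟨66,-542,33⟩ (.node ⟨33,66,542⟩ (.leaf false ⟨⟨-546,2,33⟩,⟨2,-543,66⟩,⟨33,66,542⟩⟩ (542,[(4,297021),(3,1094),(0,33)]) (271,[(4,547),(3,149331),(0,33)]) (1,[(0,1)])) (.node ⟨33,-66,542⟩ (.leaf false ⟨⟨-546,-2,33⟩,⟨-2,-543,-66⟩,⟨33,-66,542⟩⟩ (33,[(3,1631),(5,17985),(1,1)]) (22242,[(3,17956781),(1,36922),(2,17787)]) (1,[(0,1)])) (.leaf false ⟨⟨-543,-2,-66⟩,⟨-66,33,542⟩,⟨-2,-546,33⟩⟩ (2255,[(3,26251264),(0,49073),(2,5984)]) (410,[(3,770709),(0,1018),(2,99)]) (1353,[(3,1996658),(0,3712),(2,1815)])))) (.leaf false ⟨⟨-543,-2,-66⟩,⟨-66,33,542⟩,⟨-2,-546,33⟩⟩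 (22,[(1,4521),(0,181),(2,98146)]) (1,[(1,575),(0,1),(2,509)]) (33,[(1,1122),(0,1),(2,18560)]))) (.leaf false ⟨⟨-547,0,0⟩,⟨0,-547,0⟩,⟨0,0,-547⟩⟩ (1,[(2,547)]) (1,[(1,547)]) (1,[(0,547)]))))
theorem h547_ok : h547.check (ok 547 4 ⟨3, 3, 3⟩) (fun _ r => r) [] = true := by decide +kernel

def h551 : T := .node ⟨1,0,0⟩ (.node ⟨0,1,0⟩ (.node ⟨0,0,1⟩ (.node ⟨-174,29,522⟩ (.node ⟨29,522,-174⟩ (.node ⟨-174,174,493⟩ (.leaf false ⟨⟨-174,174,493⟩,⟨29,522,-174⟩,⟨522,29,174⟩⟩ (1,[(0,1)]) (1,[(1,1)]) (6,[(3,551),(5,3306),(0,1)])) (.leaf false ⟨⟨-174,29,522⟩,⟨174,522,29⟩,⟨493,-174,174⟩⟩ (1,[(2,1)]) (1,[(1,36),(2,132),(0,127)]) (1,[(1,89),(2,336),(0,324)]))) (.leaf false ⟨⟨-174,29,522⟩,⟨174,522,29⟩,⟨493,-174,174⟩⟩ (1,[(1,1)]) (6,[(4,1073),(3,3654),(0,1)]) (1,[(4,522),(3,348),(0,1)])))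 (.node ⟨477,-174,-214⟩ (.leaf false ⟨⟨29,174,522⟩,⟨174,493,-174⟩,⟨522,-174,29⟩⟩ (6,[(2,3654),(1,1),(3,1073)]) (1,[(2,348),(1,1),(3,522)]) (53,[(2,13949),(0,58),(3,870)])) (.leaf false ⟨⟨-486,258,29⟩,⟨106,141,522⟩,⟨237,466,-174⟩⟩ (1827,[(2,1553791),(1,4278),(0,3422)]) (2349,[(2,6773008),(1,12243),(0,3944)]) (1827,[(2,12874840),(1,29280),(0,9773)])))) (.node ⟨466,141,258⟩ (.node ⟨-234,294,-403⟩ (.node ⟨381,-182,-354⟩ (.leaf false ⟨⟨-234,294,-403⟩,⟨322,429,126⟩,⟨381,-182,-354⟩⟩ (1,[(1,1)]) (43,[(5,4060),(2,21),(4,15486)]) (1,[(0,1)])) (.leaf false ⟨⟨-434,333,-66⟩,⟨189,326,402⟩,⟨282,294,-371⟩⟩ (182,[(3,129894),(5,47885),(0,333)]) (91,[(3,21120),(5,79302),(0,163)]) (13,[(3,12257),(5,11667),(0,21)]))) (.leaf false ⟨⟨6,493,-246⟩,⟨381,174,358⟩,⟨398,-174,-339⟩⟩ (39,[(2,9997),(0,1),(3,19521)])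 (78,[(2,23257),(0,127),(3,50910)]) (117,[(2,119860),(0,199),(3,38148)]))) (.leaf false ⟨⟨-435,74,-330⟩,⟨174,510,-115⟩,⟨290,-195,-426⟩⟩ (43,[(3,6925),(2,10937),(0,55)]) (258,[(3,98482),(2,147795),(0,115)]) (43,[(3,45556),(2,1626),(0,71)])))) (.node ⟨0,0,1⟩ (.node ⟨466,258,141⟩ (.node ⟨-234,-403,294⟩ (.node ⟨381,-354,-182⟩ (.leaf false ⟨⟨-234,-403,294⟩,⟨322,126,429⟩,⟨381,-354,-182⟩⟩ (1,[(1,1)]) (43,[(3,15486),(2,21),(5,4060)]) (1,[(0,1)])) (.leaf false ⟨⟨-434,-66,333⟩,⟨189,402,326⟩,⟨282,-371,294⟩⟩ (182,[(5,47885),(4,129894),(0,333)]) (91,[(5,79302),(4,21120),(0,163)]) (13,[(5,11667),(4,12257),(0,21)]))) (.leaf false ⟨⟨6,-246,493⟩,⟨381,358,174⟩,⟨398,-339,-174⟩⟩ (39,[(2,19521),(0,1),(3,9997)]) (78,[(2,50910),(0,127),(3,23257)]) (117,[(2,38148),(0,199),(3,119860)])))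 (.leaf false ⟨⟨-435,-330,74⟩,⟨174,-115,510⟩,⟨290,-426,-195⟩⟩ (43,[(1,10937),(3,6925),(0,55)]) (258,[(1,147795),(3,98482),(0,115)]) (43,[(1,1626),(3,45556),(0,71)]))) (.node ⟨-99,-538,-66⟩ (.node ⟨-399,0,-380⟩ (.leaf false ⟨⟨-399,0,-380⟩,⟨0,-551,0⟩,⟨380,0,-399⟩⟩ (1,[(0,1)]) (1,[(3,551)]) (20,[(4,15979),(0,21)])) (.node ⟨434,189,-282⟩ (.leaf false ⟨⟨-66,-402,-371⟩,⟨333,-326,294⟩,⟨434,189,-282⟩⟩ (35777,[(3,11780589),(1,715),(2,26733)]) (5111,[(3,205884),(1,5034),(2,3097)]) (1,[(0,1)])) (.leaf false ⟨⟨-486,-246,-83⟩,⟨141,-398,354⟩,⟨218,-291,-414⟩⟩ (3591,[(3,1885921),(1,710),(0,4674)]) (10773,[(3,13407350),(1,28483),(0,22686)]) (3591,[(3,6076732),(1,7976),(0,5529)])))) (.leaf false ⟨⟨57,304,-456⟩,⟨304,-399,-228⟩,⟨456,228,209⟩⟩ (33,[(1,16302),(0,19),(2,190)]) (99,[(1,42636),(0,304),(2,203053)])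 (33,[(1,3135),(0,152),(2,74252)]))))) (.node ⟨0,1,0⟩ (.node ⟨0,0,1⟩ (.node ⟨258,141,466⟩ (.node ⟨-403,294,-234⟩ (.node ⟨-354,-182,381⟩ (.leaf false ⟨⟨-403,294,-234⟩,⟨-354,-182,381⟩,⟨126,429,322⟩⟩ (1,[(1,1)]) (1,[(0,1)]) (43,[(3,4060),(4,15486),(2,21)])) (.leaf false ⟨⟨-546,61,-42⟩,⟨-3,294,466⟩,⟨74,462,-291⟩⟩ (182,[(3,15597),(5,120966),(0,61)]) (13,[(3,14059),(5,7473),(0,21)]) (13,[(3,8790),(5,10720),(0,33)]))) (.leaf false ⟨⟨-546,-42,61⟩,⟨-3,466,294⟩,⟨74,-291,462⟩⟩ (234,[(4,152347),(3,8106),(0,61)]) (39,[(4,19864),(3,32580),(0,49)]) (39,[(4,28145),(3,11289),(0,77)]))) (.leaf false ⟨⟨-515,-150,-126⟩,⟨-150,74,525⟩,⟨-126,525,-110⟩⟩ (258,[(1,207482),(0,515),(2,33915)]) (43,[(1,34225),(0,25),(2,6707)]) (43,[(1,5056),(0,21),(2,25536)]))) (.node ⟨-66,-99,-538⟩ (.node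 ⟨-380,-399,0⟩ (.leaf false ⟨⟨-399,380,0⟩,⟨-380,-399,0⟩,⟨0,0,-551⟩⟩ (20,[(0,21),(3,15979)]) (1,[(0,1)]) (1,[(2,551)])) (.node ⟨-282,434,189⟩ (.leaf false ⟨⟨-414,349,102⟩,⟨-146,-18,-531⟩,⟨333,426,-106⟩⟩ (3591,[(5,1332698),(0,1938),(1,1033)]) (214781,[(2,227052),(5,4279024),(0,42885)]) (35777,[(2,7049),(5,2800885),(1,39947)])) (.leaf false ⟨⟨-551,0,0⟩,⟨0,-399,-380⟩,⟨0,380,-399⟩⟩ (1,[(5,551)]) (567,[(5,577220),(1,673),(0,1140)]) (189,[(5,345838),(1,614),(0,399)])))) (.leaf false ⟨⟨-546,61,-42⟩,⟨-3,294,466⟩,⟨74,462,-291⟩⟩ (99,[(1,36976),(3,58080),(0,61)]) (33,[(1,37346),(3,6567),(0,98)]) (3,[(1,8405),(3,702),(0,14)])))) (.node ⟨0,0,1⟩ (.node ⟨-66,-538,-99⟩ (.node ⟨-380,0,-399⟩ (.leaf false ⟨⟨-399,0,380⟩,⟨-380,0,-399⟩,⟨0,-551,0⟩⟩ (20,[(2,15979),(0,21)]) (1,[(0,1)])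 (1,[(3,551)])) (.node ⟨-282,189,434⟩ (.leaf false ⟨⟨-414,102,349⟩,⟨-146,-531,-18⟩,⟨333,-106,426⟩⟩ (3591,[(5,1332698),(1,1033),(0,1938)]) (214781,[(5,4279024),(2,227052),(0,42885)]) (35777,[(5,2800885),(2,7049),(1,39947)])) (.leaf false ⟨⟨-551,0,0⟩,⟨0,-399,380⟩,⟨0,-380,-399⟩⟩ (1,[(5,551)]) (189,[(5,345838),(0,399),(1,614)]) (567,[(5,577220),(0,1140),(1,673)])))) (.leaf false ⟨⟨-546,-42,61⟩,⟨-3,466,294⟩,⟨74,-291,462⟩⟩ (99,[(3,58080),(2,36976),(0,61)]) (33,[(3,6567),(2,37346),(0,98)]) (3,[(3,702),(2,8405),(0,14)]))) (.leaf false ⟨⟨-551,0,0⟩,⟨0,-551,0⟩,⟨0,0,-551⟩⟩ (1,[(2,551)]) (1,[(1,551)]) (1,[(0,551)]))))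
theorem h551_ok : h551.check (ok 551 4 ⟨3, 3, 3⟩) (fun _ r => r) [] = true := by decide +kernel

def h557 : T := .node ⟨1,0,0⟩ (.node ⟨0,1,0⟩ (.node ⟨0,0,1⟩ (.leaf false ⟨⟨0,0,557⟩,⟨0,557,0⟩,⟨557,0,0⟩⟩ (1,[(0,557)]) (1,[(1,557)]) (1,[(2,557)])) (.node ⟨0,532,165⟩ (.leaf false ⟨⟨0,165,-532⟩,⟨0,532,165⟩,⟨557,0,0⟩⟩ (532,[(1,310249),(0,165)]) (1,[(0,1)]) (1,[(3,557)])) (.node ⟨-188,-204,-483⟩ (.leaf false ⟨⟨-188,-204,-483⟩,⟨93,492,-244⟩,⟨516,-163,-132⟩⟩ (1,[(0,1)]) (165,[(1,244),(4,15345),(3,210988)]) (5,[(1,4),(4,2580),(3,1313)])) (.leaf false ⟨⟨0,557,0⟩,⟨165,0,-532⟩,⟨532,0,165⟩⟩ (1,[(3,557)]) (31020,[(1,179711),(0,27225),(3,90052352)]) (2585,[(1,18828),(0,7315),(3,8524236)]))))) (.node ⟨0,0,1⟩ (.node ⟨0,165,532⟩ (.leaf false ⟨⟨0,-532,165⟩,⟨0,165,532⟩,⟨557,0,0⟩⟩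 (532,[(0,165),(2,310249)]) (1,[(0,1)]) (1,[(3,557)])) (.node ⟨-188,-483,-204⟩ (.leaf false ⟨⟨-188,-483,-204⟩,⟨93,-244,492⟩,⟨516,-132,-163⟩⟩ (1,[(0,1)]) (165,[(2,210988),(4,15345),(1,244)]) (5,[(2,1313),(4,2580),(1,4)])) (.leaf false ⟨⟨0,0,557⟩,⟨165,-532,0⟩,⟨532,165,0⟩⟩ (1,[(2,557)]) (31020,[(2,90052352),(0,27225),(1,179711)]) (2585,[(2,8524236),(0,7315),(1,18828)])))) (.node ⟨552,-19,72⟩ (.node ⟨-243,-496,-72⟩ (.node ⟨72,69,-548⟩ (.leaf false ⟨⟨-19,-552,-72⟩,⟨72,69,-548⟩,⟨552,-28,69⟩⟩ (1,[(5,224),(4,56),(1,1)]) (1,[(0,1)]) (1,[(3,3),(2,1),(4,9)])) (.leaf false ⟨⟨-379,-372,168⟩,⟨-12,-219,-512⟩,⟨408,-352,141⟩⟩ (23,[(3,64088),(5,211),(0,124)]) (23,[(3,51780),(5,4980),(0,73)]) (69,[(3,183167),(5,53496),(0,352)]))) (.leaf false ⟨⟨69,28,-552⟩,⟨72,-552,-19⟩,⟨548,69,72⟩⟩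 (81,[(2,46368),(0,23),(3,9140)]) (27,[(2,1089),(0,8),(3,18872)]) (243,[(2,21960),(0,548),(3,255041)]))) (.leaf false ⟨⟨-352,-411,-132⟩,⟨48,132,-539⟩,⟨429,-352,-48⟩⟩ (6,[(3,3960),(2,2675),(0,11)]) (72,[(3,300984),(2,737),(0,539)]) (3,[(3,2391),(2,1094),(0,2)]))))) (.node ⟨0,1,0⟩ (.node ⟨0,0,1⟩ (.node ⟨165,0,532⟩ (.leaf false ⟨⟨-532,0,165⟩,⟨0,557,0⟩,⟨165,0,532⟩⟩ (532,[(3,310249),(0,165)]) (1,[(2,557)]) (1,[(0,1)])) (.node ⟨-483,-188,-204⟩ (.leaf false ⟨⟨-548,-99,12⟩,⟨-99,532,-132⟩,⟨-12,132,541⟩⟩ (483,[(2,117588),(0,548),(3,55207)]) (5,[(2,936),(1,3),(3,2660)]) (55,[(2,31883),(1,4),(3,7260)])) (.leaf false ⟨⟨-552,69,28⟩,⟨-19,72,-552⟩,⟨72,548,69⟩⟩ (10340,[(2,23828272),(1,45701),(0,3795)]) (7755,[(2,213644),(1,9587),(0,2970)]) (2585,[(2,9775453),(1,20929),(0,7535)]))))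 (.node ⟨-19,552,72⟩ (.node ⟨-496,-243,-72⟩ (.node ⟨69,72,-548⟩ (.leaf false ⟨⟨-552,-19,-72⟩,⟨-28,552,69⟩,⟨69,72,-548⟩⟩ (1,[(1,1),(5,56),(4,224)]) (1,[(3,3),(5,9),(2,1)]) (1,[(0,1)])) (.leaf false ⟨⟨-552,-28,69⟩,⟨-72,69,-548⟩,⟨-19,552,72⟩⟩ (1,[(3,4315),(0,8),(4,548)]) (23,[(3,25756),(0,24),(4,3315)]) (69,[(3,5444),(0,19),(4,39456)]))) (.leaf false ⟨⟨-552,72,-19⟩,⟨28,69,-552⟩,⟨69,548,72⟩⟩ (27,[(2,1089),(4,18872),(0,8)]) (81,[(2,46368),(4,9140),(0,23)]) (243,[(2,21960),(4,255041),(0,548)]))) (.leaf false ⟨⟨-411,-352,-132⟩,⟨-352,429,-48⟩,⟨132,48,-539⟩⟩ (6,[(3,2675),(2,3960),(0,11)]) (3,[(3,1094),(2,2391),(0,2)]) (72,[(3,737),(2,300984),(0,539)])))) (.node ⟨0,0,1⟩ (.node ⟨-19,72,552⟩ (.node ⟨-496,-72,-243⟩ (.node ⟨69,-548,72⟩ (.leaf false ⟨⟨-552,-72,-19⟩,⟨-28,69,552⟩,⟨69,-548,72⟩⟩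 (1,[(3,224),(5,56),(1,1)]) (1,[(2,1),(5,9),(4,3)]) (1,[(0,1)])) (.leaf false ⟨⟨-552,69,-28⟩,⟨-72,-548,69⟩,⟨-19,72,552⟩⟩ (1,[(3,548),(0,8),(4,4315)]) (23,[(3,3315),(0,24),(4,25756)]) (69,[(3,39456),(0,19),(4,5444)]))) (.leaf false ⟨⟨-552,-19,72⟩,⟨28,-552,69⟩,⟨69,72,548⟩⟩ (27,[(4,18872),(3,1089),(0,8)]) (81,[(4,9140),(3,46368),(0,23)]) (243,[(4,255041),(3,21960),(0,548)]))) (.leaf false ⟨⟨-411,-132,-352⟩,⟨-352,-48,429⟩,⟨132,-539,48⟩⟩ (6,[(1,3960),(3,2675),(0,11)]) (3,[(1,2391),(3,1094),(0,2)]) (72,[(1,300984),(3,737),(0,539)]))) (.node ⟨-152,261,-468⟩ (.node ⟨-492,-163,204⟩ (.node ⟨93,-516,-188⟩ (.leaf false ⟨⟨-492,-163,204⟩,⟨-244,132,-483⟩,⟨93,-516,-188⟩⟩ (1,[(1,1)]) (87,[(3,21429),(2,44),(5,14540)]) (1,[(0,1)])) (.leaf false ⟨⟨-548,-27,96⟩,⟨-96,288,-467⟩,⟨-27,-476,-288⟩⟩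 (93,[(3,94096),(0,548),(4,285279)]) (31,[(3,20493),(0,32),(4,7584)]) (31,[(3,10620),(0,9),(4,19400)]))) (.leaf false ⟨⟨-548,-96,-27⟩,⟨-27,288,-476⟩,⟨96,-467,-288⟩⟩ (68,[(4,41692),(3,7995),(0,9)]) (3,[(4,3525),(3,277),(0,7)]) (17,[(4,10176),(3,11851),(0,24)]))) (.leaf false ⟨⟨-548,-27,-96⟩,⟨-27,-476,288⟩,⟨96,-288,-467⟩⟩ (29,[(1,4188),(3,16348),(0,3)]) (261,[(1,147600),(3,79399),(0,476)]) (29,[(1,28519),(3,2080),(0,32)])))))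
theorem h557_ok : h557.check (ok 557 4 ⟨3, 3, 3⟩) (fun _ r => r) [] = true := by decide +kernel

def h563 : T := .node ⟨1,0,0⟩ (.node ⟨0,1,0⟩ (.node ⟨0,0,1⟩ (.node ⟨-338,225,390⟩ (.node ⟨401,342,-198⟩ (.node ⟨321,-198,418⟩ (.leaf false ⟨⟨-198,401,342⟩,⟨321,-198,418⟩,⟨418,342,-159⟩⟩ (65,[(5,6396),(4,13240),(2,57)]) (1,[(0,1)]) (1,[(3,39),(5,17),(1,1)])) (.leaf false ⟨⟨-450,337,-30⟩,⟨-15,30,562⟩,⟨338,450,-15⟩⟩ (198,[(3,134926),(5,19077),(0,337)]) (33,[(3,20636),(5,1110),(0,5)]) (11,[(3,10285),(5,11743),(0,25)]))) (.leaf false ⟨⟨-498,-54,257⟩,⟨177,338,414⟩,⟨194,-447,282⟩⟩ (198,[(4,4453),(3,77202),(0,257)]) (11,[(4,11170),(3,11584),(0,23)]) (33,[(4,25249),(3,1323),(0,47)]))) (.leaf false ⟨⟨113,210,510⟩,⟨210,465,-238⟩,⟨510,-238,-15⟩⟩ (338,[(1,216450),(0,113),(2,96405)])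 (169,[(1,728),(0,105),(2,102210)]) (169,[(1,96915),(0,255),(2,17153)]))) (.node ⟨-122,546,-63⟩ (.node ⟨546,-122,-63⟩ (.node ⟨-63,-78,-554⟩ (.leaf false ⟨⟨-122,546,-63⟩,⟨-63,-78,-554⟩,⟨546,113,-78⟩⟩ (1,[(2,1)]) (1,[(0,1)]) (277,[(5,153699),(4,34343),(0,39)])) (.leaf false ⟨⟨-42,462,-319⟩,⟨22,321,462⟩,⟨561,22,-42⟩⟩ (7319,[(3,5081638),(0,5572),(2,5397)]) (14638,[(3,2298729),(0,17058),(2,6169)]) (8379,[(3,7335598),(1,7062),(0,13409)]))) (.leaf false ⟨⟨-527,198,6⟩,⟨6,33,-562⟩,⟨198,526,33⟩⟩ (61,[(2,5871),(4,21907),(0,99)]) (122,[(2,70643),(4,18750),(0,33)]) (61,[(2,14556),(4,155676),(0,263)]))) (.leaf false ⟨⟨30,513,-230⟩,⟨138,-230,-495⟩,⟨545,30,138⟩⟩ (61,[(1,14975),(0,15),(2,39483)]) (61,[(1,34542),(0,69),(2,23644)]) (122,[(1,17499),(0,545),(2,301230)])))) (.node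 ⟨0,0,1⟩ (.node ⟨-122,-63,546⟩ (.node ⟨546,-63,-122⟩ (.node ⟨-63,-554,-78⟩ (.leaf false ⟨⟨-122,-63,546⟩,⟨-63,-554,-78⟩,⟨546,-78,113⟩⟩ (1,[(2,1)]) (1,[(0,1)]) (277,[(3,34343),(5,153699),(0,39)])) (.leaf false ⟨⟨-42,-319,462⟩,⟨22,462,321⟩,⟨561,-42,22⟩⟩ (7319,[(4,5081638),(2,5397),(0,5572)]) (14638,[(4,2298729),(2,6169),(0,17058)]) (8379,[(1,7062),(4,7335598),(0,13409)]))) (.leaf false ⟨⟨-527,6,198⟩,⟨6,-562,33⟩,⟨198,33,526⟩⟩ (61,[(4,21907),(3,5871),(0,99)]) (122,[(4,18750),(3,70643),(0,33)]) (61,[(4,155676),(3,14556),(0,263)]))) (.leaf false ⟨⟨30,-230,513⟩,⟨138,-495,-230⟩,⟨545,138,30⟩⟩ (61,[(1,39483),(0,15),(2,14975)]) (61,[(1,23644),(0,69),(2,34542)]) (122,[(1,301230),(0,545),(2,17499)]))) (.node ⟨33,198,-526⟩ (.node ⟨526,198,33⟩ (.leaf false ⟨⟨6,-527,-198⟩,⟨33,198,-526⟩,⟨562,-6,33⟩⟩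 (11,[(2,1126),(1,2),(3,6193)]) (1,[(1,1)]) (263,[(2,594),(0,281),(3,57216)])) (.leaf false ⟨⟨-462,-175,-270⟩,⟨225,162,-490⟩,⟨230,-510,-63⟩⟩ (110682,[(1,47685),(4,23829571),(0,145510)]) (263,[(1,245),(4,51090),(3,5904)]) (11,[(4,13576),(3,1452),(0,21)]))) (.leaf false ⟨⟨-42,-319,-462⟩,⟨-22,-462,321⟩,⟨561,-42,-22⟩⟩ (18,[(1,23570),(3,201),(0,29)]) (3,[(1,2719),(3,165),(0,7)]) (33,[(1,4408),(3,18744),(0,7)]))))) (.node ⟨0,1,0⟩ (.node ⟨0,0,1⟩ (.node ⟨-63,546,-122⟩ (.node ⟨-63,-122,546⟩ (.node ⟨-554,-78,-63⟩ (.leaf false ⟨⟨-554,-78,-63⟩,⟨-78,113,546⟩,⟨-63,546,-122⟩⟩ (1,[(0,1)]) (277,[(3,153699),(0,39),(4,34343)]) (1,[(2,1)])) (.leaf false ⟨⟨-495,138,230⟩,⟨138,545,-30⟩,⟨230,-30,513⟩⟩ (17702,[(1,8901),(5,7794558),(2,6463)]) (43914,[(5,19390283),(2,36675),(0,50110)])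 (2793,[(1,2328),(5,633064),(0,2567)]))) (.leaf false ⟨⟨-562,33,6⟩,⟨6,198,-527⟩,⟨33,526,198⟩⟩ (122,[(2,18750),(4,70643),(0,33)]) (61,[(2,21907),(4,5871),(0,99)]) (61,[(2,155676),(4,14556),(0,263)]))) (.leaf false ⟨⟨-562,6,33⟩,⟨6,-527,198⟩,⟨33,198,526⟩⟩ (122,[(3,70643),(2,18750),(0,33)]) (61,[(3,5871),(2,21907),(0,99)]) (61,[(3,14556),(2,155676),(0,263)]))) (.node ⟨198,33,-526⟩ (.node ⟨198,526,33⟩ (.leaf false ⟨⟨-527,6,-198⟩,⟨-6,562,33⟩,⟨198,33,-526⟩⟩ (11,[(2,1126),(4,6193),(1,2)]) (263,[(2,594),(4,57216),(0,281)]) (1,[(1,1)])) (.leaf false ⟨⟨-562,33,-6⟩,⟨-6,-198,-527⟩,⟨33,526,-198⟩⟩ (11,[(4,5786),(3,1415),(0,2)]) (18447,[(3,5199022),(1,17358),(0,17917)]) (263,[(4,10923),(3,135071),(1,99)]))) (.leaf false ⟨⟨-462,-22,321⟩,⟨-319,-42,-462⟩,⟨-42,561,-22⟩⟩ (3,[(1,2719),(0,7),(2,165)])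 (18,[(1,23570),(0,29),(2,201)]) (33,[(1,4408),(0,7),(2,18744)])))) (.node ⟨0,0,1⟩ (.node ⟨198,-526,33⟩ (.node ⟨198,33,526⟩ (.leaf false ⟨⟨-527,-198,6⟩,⟨-6,33,562⟩,⟨198,-526,33⟩⟩ (11,[(4,6193),(3,1126),(1,2)]) (263,[(4,57216),(3,594),(0,281)]) (1,[(1,1)])) (.leaf false ⟨⟨-562,-6,33⟩,⟨-6,-527,-198⟩,⟨33,-198,526⟩⟩ (11,[(2,1415),(4,5786),(0,2)]) (18447,[(2,5199022),(0,17917),(1,17358)]) (263,[(2,135071),(4,10923),(1,99)]))) (.leaf false ⟨⟨-462,321,-22⟩,⟨-319,-462,-42⟩,⟨-42,-22,561⟩⟩ (3,[(1,165),(0,7),(2,2719)]) (18,[(1,201),(0,29),(2,23570)]) (33,[(1,18744),(0,7),(2,4408)]))) (.leaf false ⟨⟨-563,0,0⟩,⟨0,-563,0⟩,⟨0,0,-563⟩⟩ (1,[(2,563)]) (1,[(1,563)]) (1,[(0,563)]))))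
theorem h563_ok : h563.check (ok 563 4 ⟨3, 3, 3⟩) (fun _ r => r) [] = true := by decide +kernel

def h569 : T := .node ⟨1,0,0⟩ (.node ⟨0,1,0⟩ (.node ⟨0,0,1⟩ (.leaf false ⟨⟨0,0,569⟩,⟨0,569,0⟩,⟨569,0,0⟩⟩ (1,[(0,569)]) (1,[(1,569)]) (1,[(2,569)])) (.node ⟨-231,0,-520⟩ (.leaf false ⟨⟨-231,0,-520⟩,⟨0,569,0⟩,⟨520,0,-231⟩⟩ (1,[(0,1)]) (1,[(2,569)]) (520,[(3,323761),(0,231)])) (.node ⟨468,-304,-111⟩ (.leaf false ⟨⟨84,556,-87⟩,⟨192,-111,-524⟩,⟨529,-48,204⟩⟩ (11,[(2,3037),(1,4),(3,6116)]) (39,[(2,18660),(0,16),(3,535)]) (4389,[(2,3524161),(0,693),(1,8647)])) (.leaf false ⟨⟨-468,304,-111⟩,⟨169,396,372⟩,⟨276,273,-416⟩⟩ (1,[(2,222),(0,1)]) (17556,[(2,26779147),(1,59176),(0,22869)]) (23408,[(2,48760179),(1,70556),(0,21021)]))))) (.node ⟨0,0,1⟩ (.node ⟨-231,-520,0⟩ (.leaf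 false ⟨⟨-231,-520,0⟩,⟨0,0,569⟩,⟨520,-231,0⟩⟩ (1,[(0,1)]) (1,[(1,569)]) (520,[(3,323761),(0,231)])) (.node ⟨468,-111,-304⟩ (.leaf false ⟨⟨84,-87,556⟩,⟨192,-524,-111⟩,⟨529,204,-48⟩⟩ (11,[(2,6116),(1,4),(3,3037)]) (39,[(2,535),(0,16),(3,18660)]) (4389,[(1,8647),(0,693),(3,3524161)])) (.leaf false ⟨⟨-468,-111,304⟩,⟨169,372,396⟩,⟨276,-416,273⟩⟩ (1,[(3,222),(0,1)]) (17556,[(1,59176),(3,26779147),(0,22869)]) (23408,[(1,70556),(3,48760179),(0,21021)])))) (.node ⟨60,-540,169⟩ (.node ⟨540,60,169⟩ (.node ⟨160,81,-540⟩ (.leaf false ⟨⟨81,-560,-60⟩,⟨160,81,-540⟩,⟨540,60,169⟩⟩ (20,[(3,1707),(1,3),(4,11380)]) (1,[(0,1)]) (1,[(1,1)])) (.leaf false ⟨⟨-504,-263,24⟩,⟨88,-216,-519⟩,⟨249,-456,232⟩⟩ (8535,[(3,14938526),(1,314),(0,27945)]) (2845,[(3,7550061),(1,3474),(0,10160)]) (11380,[(3,49618507),(1,31043),(0,87060)])))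 (.leaf false ⟨⟨-335,-456,-60⟩,⟨120,-15,-556⟩,⟨444,-340,105⟩⟩ (4920,[(2,345562),(1,3769),(0,3471)]) (4,[(2,2055),(4,1020),(0,1)]) (27,[(2,38),(4,10968),(1,17)]))) (.leaf false ⟨⟨-111,-192,-524⟩,⟨48,529,-204⟩,⟨556,-84,-87⟩⟩ (169,[(3,12681),(2,315408),(0,524)]) (169,[(3,20352),(2,20759),(0,204)]) (169,[(3,99184),(2,61176),(0,87)]))))) (.node ⟨0,1,0⟩ (.node ⟨0,0,1⟩ (.node ⟨-520,-231,0⟩ (.leaf false ⟨⟨-520,-231,0⟩,⟨-231,520,0⟩,⟨0,0,569⟩⟩ (1,[(0,1)]) (520,[(0,231),(2,323761)]) (1,[(1,569)])) (.node ⟨-111,468,-304⟩ (.leaf false ⟨⟨-524,192,-111⟩,⟨-87,84,556⟩,⟨204,529,-48⟩⟩ (39,[(2,535),(4,18660),(0,16)]) (11,[(2,6116),(4,3037),(1,4)]) (4389,[(4,3524161),(0,693),(1,8647)])) (.leaf false ⟨⟨-524,-111,192⟩,⟨-87,556,84⟩,⟨204,-48,529⟩⟩ (209,[(4,211008),(1,167),(0,132)]) (17556,[(4,29149513),(1,52084),(0,4851)])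 (2128,[(4,3648121),(1,7060),(0,3703)])))) (.node ⟨-540,60,169⟩ (.node ⟨60,540,169⟩ (.node ⟨81,160,-540⟩ (.leaf false ⟨⟨-560,81,-60⟩,⟨60,540,169⟩,⟨81,160,-540⟩⟩ (20,[(3,1707),(5,11380),(1,3)]) (1,[(1,1)]) (1,[(0,1)])) (.leaf false ⟨⟨-556,-111,-48⟩,⟨-87,524,-204⟩,⟨-84,192,529⟩⟩ (34140,[(3,173686681),(0,293580),(1,79969)]) (2845,[(3,4903073),(0,6535),(1,4697)]) (2845,[(3,1462899),(0,4740),(1,2416)]))) (.leaf false ⟨⟨-556,60,105⟩,⟨-120,-335,-444⟩,⟨-15,456,-340⟩⟩ (615,[(2,42064),(0,2),(1,633)]) (1,[(2,106),(0,2),(3,745)]) (4,[(2,1191),(0,1),(3,2364)]))) (.leaf false ⟨⟨-407,-36,-396⟩,⟨36,561,-88⟩,⟨396,-88,-399⟩⟩ (169,[(3,282623),(2,17676),(0,396)]) (169,[(3,41436),(2,100089),(0,88)]) (169,[(3,148536),(2,9068),(0,399)])))) (.node ⟨0,0,1⟩ (.node ⟨169,-540,60⟩ (.node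 ⟨169,60,540⟩ (.node ⟨-540,81,160⟩ (.leaf false ⟨⟨-540,81,160⟩,⟨-60,-560,81⟩,⟨169,60,540⟩⟩ (1,[(0,1)]) (20,[(5,1707),(4,11380),(1,3)]) (1,[(1,1)])) (.leaf false ⟨⟨-556,-120,-15⟩,⟨60,-335,456⟩,⟨105,-444,-340⟩⟩ (2276,[(5,3768487),(0,4260),(1,1199)]) (8535,[(5,31428146),(0,52065),(1,22634)]) (569,[(5,2037020),(0,3656),(1,725)]))) (.leaf false ⟨⟨-556,-15,120⟩,⟨-60,-456,-335⟩,⟨105,-340,444⟩⟩ (4,[(2,1020),(4,2055),(0,1)]) (4920,[(4,345562),(0,3471),(1,3769)]) (27,[(2,10968),(4,38),(1,17)]))) (.leaf false ⟨⟨-524,-192,-111⟩,⟨-204,529,48⟩,⟨-87,-84,556⟩⟩ (169,[(1,12681),(0,524),(2,315408)]) (169,[(1,20352),(0,204),(2,20759)]) (169,[(1,99184),(0,87),(2,61176)]))) (.node ⟨-232,249,-456⟩ (.node ⟨-367,-336,276⟩ (.node ⟨204,-452,-279⟩ (.leaf false ⟨⟨-384,81,-412⟩,⟨-367,-336,276⟩,⟨204,-452,-279⟩⟩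 (114,[(2,103),(5,19880),(4,16413)]) (1,[(1,1)]) (1,[(0,1)])) (.leaf false ⟨⟨-519,-88,216⟩,⟨-232,249,-456⟩,⟨-24,-504,-263⟩⟩ (68,[(3,33579),(0,173),(4,84180)]) (51,[(3,39438),(0,58),(4,13517)]) (17,[(3,5029),(0,2),(4,9472)]))) (.leaf false ⟨⟨-519,-232,-24⟩,⟨-88,249,-504⟩,⟨216,-456,-263⟩⟩ (23,[(4,12671),(3,6008),(0,2)]) (23,[(4,17438),(3,8385),(0,42)]) (276,[(4,36905),(3,214224),(0,263)]))) (.leaf false ⟨⟨-556,-120,-15⟩,⟨60,-335,456⟩,⟨105,-444,-340⟩⟩ (83,[(1,19485),(3,55428),(0,40)]) (249,[(1,39216),(3,62780),(0,335)]) (83,[(1,95708),(3,25621),(0,148)])))))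
theorem h569_ok : h569.check (ok 569 4 ⟨3, 3, 3⟩) (fun _ r => r) [] = true := by decide +kernel

def h571 : T := .node ⟨1,0,0⟩ (.node ⟨0,1,0⟩ (.node ⟨0,0,1⟩ (.node ⟨-282,201,454⟩ (.node ⟨86,534,-183⟩ (.leaf false ⟨⟨-282,201,454⟩,⟨86,534,-183⟩,⟨489,22,294⟩⟩ (1,[(1,1)]) (1,[(0,1)]) (201,[(2,49106),(4,104493),(1,22)])) (.leaf false ⟨⟨-282,86,489⟩,⟨201,534,22⟩,⟨454,-183,294⟩⟩ (6281,[(3,2215480),(1,4776),(0,4935)]) (183,[(4,38675),(3,109470),(0,22)]) (61,[(4,36122),(3,41169),(0,98)]))) (.leaf false ⟨⟨22,201,534⟩,⟨294,454,-183⟩,⟨489,-282,86⟩⟩ (141,[(1,80288),(0,11),(2,30552)]) (47,[(1,13645),(0,49),(2,31187)]) (94,[(1,82086),(0,163),(2,6255)]))) (.node ⟨-167,114,-534⟩ (.node ⟨-167,546,6⟩ (.node ⟨534,162,121⟩ (.leaf false ⟨⟨-167,546,6⟩,⟨114,41,-558⟩,⟨534,162,121⟩⟩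 (1,[(1,1)]) (114,[(3,41718),(5,19843),(2,41)]) (1,[(0,1)])) (.leaf false ⟨⟨-554,9,-138⟩,⟨57,534,-194⟩,⟨126,-202,-519⟩⟩ (21698,[(5,2705969),(1,7815),(0,25134)]) (10849,[(5,13003954),(1,16007),(0,18188)]) (32547,[(5,84417782),(1,29818),(0,141081)]))) (.node ⟨-86,-222,-519⟩ (.leaf false ⟨⟨-86,-222,-519⟩,⟨174,489,-238⟩,⟨537,-194,-6⟩⟩ (1,[(0,1)]) (267,[(5,66331),(4,116997),(2,119)]) (1,[(5,370),(4,352),(1,1)])) (.leaf false ⟨⟨-174,489,-238⟩,⟨86,-222,-519⟩,⟨537,194,6⟩⟩ (2570184,[(2,4519751),(1,53663),(0,3472380)]) (11899,[(2,74863),(1,47171),(0,65673)]) (321273,[(2,6994460),(1,4294019),(0,7249968)])))) (.leaf false ⟨⟨41,114,-558⟩,⟨162,534,121⟩,⟨546,-167,6⟩⟩ (167,[(1,115080),(0,41),(2,23712)]) (167,[(1,66301),(0,162),(2,107646)]) (167,[(1,290562),(0,546),(2,34355)]))))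 (.node ⟨0,0,1⟩ (.node ⟨-167,-534,114⟩ (.node ⟨-167,6,546⟩ (.node ⟨534,121,162⟩ (.leaf false ⟨⟨-167,6,546⟩,⟨114,-558,41⟩,⟨534,121,162⟩⟩ (1,[(1,1)]) (114,[(5,19843),(4,41718),(2,41)]) (1,[(0,1)])) (.leaf false ⟨⟨-554,-138,9⟩,⟨57,-194,534⟩,⟨126,-519,-202⟩⟩ (21698,[(5,2705969),(0,25134),(1,7815)]) (10849,[(5,13003954),(0,18188),(1,16007)]) (32547,[(5,84417782),(0,141081),(1,29818)]))) (.node ⟨-86,-519,-222⟩ (.leaf false ⟨⟨-86,-519,-222⟩,⟨174,-238,489⟩,⟨537,-6,-194⟩⟩ (1,[(0,1)]) (267,[(3,116997),(5,66331),(2,119)]) (1,[(3,352),(5,370),(1,1)])) (.leaf false ⟨⟨-174,-238,489⟩,⟨86,-519,-222⟩,⟨537,6,194⟩⟩ (2570184,[(1,53663),(2,4519751),(0,3472380)]) (11899,[(1,47171),(2,74863),(0,65673)]) (321273,[(1,4294019),(2,6994460),(0,7249968)])))) (.leaf false ⟨⟨41,-558,114⟩,⟨162,121,534⟩,⟨546,6,-167⟩⟩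 (167,[(1,23712),(0,41),(2,115080)]) (167,[(1,107646),(0,162),(2,66301)]) (167,[(1,34355),(0,546),(2,290562)]))) (.node ⟨126,202,-519⟩ (.node ⟨126,-519,202⟩ (.node ⟨534,9,202⟩ (.leaf false ⟨⟨57,-554,-126⟩,⟨194,138,-519⟩,⟨534,9,202⟩⟩ (42,[(3,9130),(1,19),(4,13407)]) (53367,[(3,11229286),(2,35973),(0,10900)]) (1,[(0,1)])) (.leaf false ⟨⟨-446,-330,-135⟩,⟨90,105,-554⟩,⟨345,-454,-30⟩⟩ (35552,[(5,5732168),(1,21815),(0,45575)]) (11768162,[(2,12926040),(1,2620883),(0,1684977)]) (228557,[(2,107278),(5,34882701),(1,241686)]))) (.leaf false ⟨⟨-282,201,-454⟩,⟨-86,-534,-183⟩,⟨489,22,-294⟩⟩ (101,[(4,120),(3,97512),(0,227)]) (202,[(4,5686),(3,202845),(0,183)]) (101,[(4,67911),(3,74071),(0,147)]))) (.leaf false ⟨⟨-282,-454,201⟩,⟨-86,-183,-534⟩,⟨489,-294,22⟩⟩ (101,[(1,97512),(3,120),(0,227)])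 (202,[(1,202845),(3,5686),(0,183)]) (101,[(1,74071),(3,67911),(0,147)]))))) (.node ⟨0,1,0⟩ (.node ⟨0,0,1⟩ (.node ⟨-534,-167,114⟩ (.node ⟨6,-167,546⟩ (.node ⟨121,534,162⟩ (.leaf false ⟨⟨-558,114,41⟩,⟨6,-167,546⟩,⟨121,534,162⟩⟩ (114,[(2,41),(5,41718),(4,19843)]) (1,[(1,1)]) (1,[(0,1)])) (.leaf false ⟨⟨-546,-162,41⟩,⟨-167,534,-114⟩,⟨6,121,558⟩⟩ (65094,[(4,164380051),(1,93413),(0,298362)]) (10849,[(4,14216758),(1,2210),(0,15083)]) (10849,[(4,3171334),(1,11091),(0,12)]))) (.node ⟨-519,-86,-222⟩ (.leaf false ⟨⟨-519,-86,-222⟩,⟨-238,174,489⟩,⟨-6,537,-194⟩⟩ (1,[(0,1)]) (267,[(3,116997),(2,119),(4,66331)]) (1,[(3,352),(1,1),(4,370)])) (.leaf false ⟨⟨-558,41,114⟩,⟨6,546,-167⟩,⟨121,162,534⟩⟩ (107091,[(2,949889),(1,529022),(0,868320)]) (2570184,[(2,46310063),(1,29981831),(0,48024828)])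 (642546,[(2,6840175),(1,3739783),(0,7230906)])))) (.leaf false ⟨⟨-558,41,114⟩,⟨6,546,-167⟩,⟨121,162,534⟩⟩ (167,[(1,23712),(3,115080),(0,41)]) (167,[(1,34355),(3,290562),(0,546)]) (167,[(1,107646),(3,66301),(0,162)]))) (.node ⟨202,126,-519⟩ (.node ⟨-519,126,202⟩ (.node ⟨9,534,202⟩ (.leaf false ⟨⟨-554,57,-126⟩,⟨9,534,202⟩,⟨138,194,-519⟩⟩ (42,[(3,9130),(5,13407),(1,19)]) (1,[(0,1)]) (53367,[(3,11229286),(0,10900),(2,35973)])) (.leaf false ⟨⟨-567,-66,14⟩,⟨-66,518,-231⟩,⟨14,-231,-522⟩⟩ (8888,[(1,9555),(4,2982888),(0,8939)]) (3232,[(1,341),(4,3786968),(0,4037)]) (45475,[(4,40974051),(2,7526),(0,98178)]))) (.leaf false ⟨⟨-567,-14,-66⟩,⟨14,522,-231⟩,⟨66,-231,-518⟩⟩ (101,[(4,74394),(3,2744),(0,33)]) (202,[(4,117061),(3,134550),(0,231)]) (101,[(4,127755),(3,9303),(0,259)])))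 (.leaf false ⟨⟨-522,-231,-14⟩,⟨-231,518,66⟩,⟨-14,66,-567⟩⟩ (101,[(1,136873),(0,261),(2,9555)]) (202,[(1,106557),(0,231),(2,133742)]) (101,[(1,60900),(0,7),(2,7548)])))) (.node ⟨0,0,1⟩ (.node ⟨202,-519,126⟩ (.node ⟨-519,202,126⟩ (.node ⟨9,202,534⟩ (.leaf false ⟨⟨-554,-126,57⟩,⟨9,202,534⟩,⟨138,-519,194⟩⟩ (42,[(1,19),(5,13407),(4,9130)]) (1,[(0,1)]) (151299,[(5,11229286),(2,158167),(0,17646)])) (.leaf false ⟨⟨-567,-66,-14⟩,⟨14,-231,522⟩,⟨66,-518,-231⟩⟩ (8888,[(3,5300264),(1,9495),(0,12399)]) (32651,[(3,14227596),(1,5628),(2,16723)]) (45475,[(3,24812019),(0,70382),(2,17994)]))) (.leaf false ⟨⟨-567,-66,-14⟩,⟨14,-231,522⟩,⟨66,-518,-231⟩⟩ (101,[(2,2744),(4,74394),(0,33)]) (202,[(2,134550),(4,117061),(0,231)]) (101,[(2,9303),(4,127755),(0,259)]))) (.leaf false ⟨⟨-522,-14,-231⟩,⟨-231,66,518⟩,⟨-14,-567,66⟩⟩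 (101,[(1,9555),(0,261),(2,136873)]) (202,[(1,133742),(0,231),(2,106557)]) (101,[(1,7548),(0,7),(2,60900)]))) (.leaf false ⟨⟨-571,0,0⟩,⟨0,-571,0⟩,⟨0,0,-571⟩⟩ (1,[(2,571)]) (1,[(1,571)]) (1,[(0,571)]))))
theorem h571_ok : h571.check (ok 571 4 ⟨3, 3, 3⟩) (fun _ r => r) [] = true := by decide +kernel

def h577 : T := .node ⟨1,0,0⟩ (.node ⟨0,1,0⟩ (.node ⟨0,0,1⟩ (.leaf false ⟨⟨0,0,577⟩,⟨0,577,0⟩,⟨577,0,0⟩⟩ (1,[(0,577)]) (1,[(1,577)]) (1,[(2,577)])) (.node ⟨-231,132,-512⟩ (.node ⟨96,548,153⟩ (.node ⟨537,-36,-208⟩ (.leaf false ⟨⟨-188,177,-516⟩,⟨96,548,153⟩,⟨537,-36,-208⟩⟩ (128,[(5,5735),(4,5628),(2,129)]) (1,[(1,1)]) (1,[(0,1)])) (.leaf false ⟨⟨-552,161,48⟩,⟨1,168,-552⟩,⟨168,528,161⟩⟩ (36,[(3,31760),(5,66585),(0,161)]) (3,[(3,4568),(5,7521),(0,14)]) (3,[(3,8669),(5,24132),(0,44)])))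 (.leaf false ⟨⟨-288,153,-476⟩,⟨153,-496,-252⟩,⟨476,252,-207⟩⟩ (9,[(4,96),(3,16721),(0,28)]) (17,[(4,5289),(3,6912),(0,28)]) (17,[(4,10300),(3,16888),(0,23)]))) (.leaf false ⟨⟨8,33,-576⟩,⟨264,512,33⟩,⟨513,-264,-8⟩⟩ (231,[(1,137152),(0,8),(2,8679)]) (7,[(1,3865),(0,8),(2,4640)]) (77,[(1,88168),(0,171),(2,2244)])))) (.node ⟨0,0,1⟩ (.node ⟨-231,-512,132⟩ (.node ⟨96,153,548⟩ (.node ⟨537,-208,-36⟩ (.leaf false ⟨⟨-188,-516,177⟩,⟨96,153,548⟩,⟨537,-208,-36⟩⟩ (128,[(3,5628),(5,5735),(2,129)]) (1,[(1,1)]) (1,[(0,1)])) (.leaf false ⟨⟨-552,1,168⟩,⟨48,-552,161⟩,⟨161,168,528⟩⟩ (3,[(5,5862),(4,2909),(0,14)]) (36,[(5,88185),(4,53360),(0,161)]) (3,[(5,24111),(4,8648),(0,44)]))) (.leaf false ⟨⟨-288,-476,153⟩,⟨153,-252,-496⟩,⟨476,-207,252⟩⟩ (9,[(2,16721),(4,96),(0,28)]) (17,[(2,6912),(4,5289),(0,28)])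 (17,[(2,16888),(4,10300),(0,23)]))) (.leaf false ⟨⟨8,-576,33⟩,⟨264,33,512⟩,⟨513,-8,-264⟩⟩ (231,[(1,8679),(0,8),(2,137152)]) (7,[(1,4640),(0,8),(2,3865)]) (77,[(1,2244),(0,171),(2,88168)]))) (.node ⟨0,48,-575⟩ (.leaf false ⟨⟨0,-575,-48⟩,⟨0,48,-575⟩,⟨577,0,0⟩⟩ (575,[(0,48),(2,332929)]) (1,[(0,1)]) (1,[(3,577)])) (.leaf false ⟨⟨0,-575,48⟩,⟨0,-48,-575⟩,⟨577,0,0⟩⟩ (48,[(1,328321),(0,575)]) (1,[(1,1150),(0,1)]) (1,[(3,577)]))))) (.node ⟨0,1,0⟩ (.node ⟨0,0,1⟩ (.node ⟨-512,-231,132⟩ (.node ⟨153,96,548⟩ (.node ⟨-208,537,-36⟩ (.leaf false ⟨⟨-516,-188,177⟩,⟨-208,537,-36⟩,⟨153,96,548⟩⟩ (128,[(3,5628),(2,129),(4,5735)]) (1,[(0,1)]) (1,[(1,1)])) (.leaf false ⟨⟨-576,-8,33⟩,⟨8,513,264⟩,⟨33,-264,512⟩⟩ (12,[(5,9200),(4,5811),(0,11)]) (3,[(5,4552),(4,13353),(0,22)]) (9,[(5,26327),(4,66360),(0,128)])))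 (.leaf false ⟨⟨-528,-231,28⟩,⟨-231,512,-132⟩,⟨-28,132,561⟩⟩ (51,[(2,97876),(0,176),(3,5115)]) (51,[(2,35464),(0,77),(3,33504)]) (153,[(2,101177),(0,28),(3,22884)]))) (.leaf false ⟨⟨-576,8,33⟩,⟨-8,513,-264⟩,⟨33,264,512⟩⟩ (231,[(1,8679),(3,137152),(0,8)]) (77,[(1,2244),(3,88168),(0,171)]) (7,[(1,4640),(3,3865),(0,8)]))) (.node ⟨48,0,-575⟩ (.leaf false ⟨⟨-575,0,-48⟩,⟨0,577,0⟩,⟨48,0,-575⟩⟩ (575,[(3,332929),(0,48)]) (1,[(2,577)]) (1,[(0,1)])) (.leaf false ⟨⟨-575,0,48⟩,⟨-48,0,-575⟩,⟨0,577,0⟩⟩ (48,[(1,328321),(0,575)]) (1,[(1,1150),(0,1)]) (1,[(2,577)])))) (.node ⟨0,0,1⟩ (.node ⟨48,-575,0⟩ (.leaf false ⟨⟨-575,-48,0⟩,⟨0,0,577⟩,⟨48,-575,0⟩⟩ (575,[(3,332929),(0,48)]) (1,[(1,577)]) (1,[(0,1)])) (.leaf false ⟨⟨-575,48,0⟩,⟨-48,-575,0⟩,⟨0,0,577⟩⟩ (48,[(0,575),(2,328321)])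 (1,[(0,1),(2,1150)]) (1,[(1,577)]))) (.node ⟨-224,288,-447⟩ (.node ⟨-528,-63,224⟩ (.leaf false ⟨⟨-528,-63,224⟩,⟨-224,288,-447⟩,⟨-63,-496,-288⟩⟩ (1,[(0,1)]) (1,[(1,1)]) (32,[(2,5193),(1,9),(3,18464)])) (.leaf false ⟨⟨-528,-224,-63⟩,⟨-63,288,-496⟩,⟨224,-447,-288⟩⟩ (32,[(4,21648),(3,7735),(0,9)]) (577,[(1,528),(4,36351),(0,224)]) (7,[(4,3184),(3,3696),(0,9)]))) (.leaf false ⟨⟨-568,-96,33⟩,⟨33,-352,-456⟩,⟨96,-447,352⟩⟩ (3,[(1,348),(3,1928),(0,1)]) (9,[(1,9021),(3,2167),(0,11)]) (96,[(1,32811),(3,24160),(0,149)])))))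
theorem h577_ok : h577.check (ok 577 4 ⟨3, 3, 3⟩) (fun _ r => r) [] = true := by decide +kernel

def h587 : T := .node ⟨1,0,0⟩ (.node ⟨0,1,0⟩ (.node ⟨0,0,1⟩ (.node ⟨-102,9,578⟩ (.node ⟨322,393,-294⟩ (.node ⟨9,578,-102⟩ (.node ⟨-102,102,569⟩ (.leaf false ⟨⟨-102,102,569⟩,⟨9,578,-102⟩,⟨578,9,102⟩⟩ (1,[(0,1)]) (1,[(1,1)]) (34,[(4,1761),(6,19958),(0,3)])) (.leaf false ⟨⟨-102,9,578⟩,⟨102,578,9⟩,⟨569,-102,102⟩⟩ (1,[(3,1)]) (27,[(1,3468),(3,21692),(0,21413)]) (81,[(1,53673),(3,338368),(0,334084)]))) (.leaf false ⟨⟨-102,9,578⟩,⟨102,578,9⟩,⟨569,-102,102⟩⟩ (1,[(2,1)]) (10066,[(1,3495),(4,10780649),(0,10962)]) (5033,[(1,9826),(4,14904206),(0,33355)]))) (.leaf false ⟨⟨-423,-102,394⟩,⟨186,457,318⟩,⟨362,-354,297⟩⟩ (147,[(4,1253),(3,62427),(0,197)]) (49,[(4,26180),(3,43222),(0,53)])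 (98,[(4,67354),(3,4215),(0,99)]))) (.leaf false ⟨⟨30,585,-38⟩,⟨137,30,570⟩,⟨570,-38,-135⟩⟩ (17,[(1,2244),(0,5),(2,9990)]) (102,[(1,137326),(0,137),(2,4293)]) (17,[(1,52615),(0,95),(2,209)]))) (.node ⟨-222,522,-151⟩ (.node ⟨466,297,198⟩ (.node ⟨297,-142,-486⟩ (.leaf false ⟨⟨-198,486,-263⟩,⟨297,-142,-486⟩,⟨466,297,198⟩⟩ (29,[(3,3550),(5,252),(2,27)]) (1,[(0,1)]) (1,[(1,1)])) (.leaf false ⟨⟨-506,297,18⟩,⟨18,66,-583⟩,⟨297,502,66⟩⟩ (142,[(3,141786),(5,16357),(0,297)]) (71,[(3,57431),(5,11079),(0,33)]) (71,[(3,117300),(5,95634),(0,251)]))) (.leaf false ⟨⟨-486,-38,-327⟩,⟨102,537,-214⟩,⟨313,-234,-438⟩⟩ (66,[(4,18718),(3,29865),(0,109)]) (99,[(4,59960),(3,84942),(0,107)]) (33,[(4,44347),(3,13959),(0,73)]))) (.leaf false ⟨⟨42,489,-322⟩,⟨138,-322,-471⟩,⟨569,42,138⟩⟩ (37,[(1,12971),(0,7),(2,21747)])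 (37,[(1,20900),(0,23),(2,92)]) (222,[(1,55283),(0,569),(2,306342)])))) (.node ⟨0,0,1⟩ (.node ⟨-222,-151,522⟩ (.node ⟨466,198,297⟩ (.node ⟨297,-486,-142⟩ (.leaf false ⟨⟨-198,-263,486⟩,⟨297,-486,-142⟩,⟨466,198,297⟩⟩ (29,[(5,252),(4,3550),(2,27)]) (1,[(0,1)]) (1,[(1,1)])) (.leaf false ⟨⟨-506,18,297⟩,⟨18,-583,66⟩,⟨297,66,502⟩⟩ (142,[(5,16357),(4,141786),(0,297)]) (71,[(5,11079),(4,57431),(0,33)]) (71,[(5,95634),(4,117300),(0,251)]))) (.leaf false ⟨⟨-486,-327,-38⟩,⟨102,-214,537⟩,⟨313,-438,-234⟩⟩ (66,[(2,29865),(4,18718),(0,109)]) (99,[(2,84942),(4,59960),(0,107)]) (33,[(2,13959),(4,44347),(0,73)]))) (.leaf false ⟨⟨42,-322,489⟩,⟨138,-471,-322⟩,⟨569,138,42⟩⟩ (37,[(1,21747),(0,7),(2,12971)]) (37,[(1,92),(0,23),(2,20900)]) (222,[(1,306342),(0,569),(2,55283)]))) (.node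 ⟨30,-570,137⟩ (.node ⟨569,102,102⟩ (.leaf false ⟨⟨30,-570,137⟩,⟨38,-135,-570⟩,⟨585,38,30⟩⟩ (1,[(1,1)]) (569,[(2,328206),(0,38),(3,80691)]) (569,[(2,42600),(0,585),(3,38048)])) (.leaf false ⟨⟨-522,-222,-151⟩,⟨178,-39,-558⟩,⟨201,-542,102⟩⟩ (707,[(4,278614),(1,71),(0,1142)]) (34,[(2,17646),(4,13449),(0,13)]) (285,[(2,8057),(4,49155),(1,271)]))) (.leaf false ⟨⟨-102,-151,-558⟩,⟨201,522,-178⟩,⟨542,-222,-39⟩⟩ (137,[(3,2766),(2,338747),(0,558)]) (137,[(3,32877),(2,29946),(0,178)]) (137,[(3,75424),(2,52644),(0,39)]))))) (.node ⟨0,1,0⟩ (.node ⟨0,0,1⟩ (.node ⟨-151,522,-222⟩ (.node ⟨198,297,466⟩ (.node ⟨-486,-142,297⟩ (.leaf false ⟨⟨-486,-142,297⟩,⟨-263,486,-198⟩,⟨198,297,466⟩⟩ (1,[(0,1)]) (29,[(3,252),(5,3550),(2,27)]) (1,[(1,1)])) (.leaf false ⟨⟨-583,66,18⟩,⟨18,297,-506⟩,⟨66,502,297⟩⟩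 (71,[(3,11079),(5,57431),(0,33)]) (142,[(3,16357),(5,141786),(0,297)]) (71,[(3,95634),(5,117300),(0,251)]))) (.leaf false ⟨⟨-558,-178,-39⟩,⟨-151,522,-222⟩,⟨-102,201,542⟩⟩ (11,[(2,14017),(0,31),(3,7249)]) (198,[(2,26410),(0,151),(3,148203)]) (33,[(2,25808),(0,17),(3,11682)]))) (.leaf false ⟨⟨-583,18,66⟩,⟨18,-506,297⟩,⟨66,297,502⟩⟩ (37,[(3,23232),(2,6408),(0,11)]) (74,[(3,13617),(2,14234),(0,99)]) (111,[(3,30575),(2,163989),(0,251)]))) (.node ⟨-570,30,137⟩ (.node ⟨102,569,102⟩ (.leaf false ⟨⟨-578,102,9⟩,⟨9,102,-578⟩,⟨102,569,102⟩⟩ (569,[(2,5283),(4,339286),(0,102)]) (569,[(2,339286),(4,5283),(0,102)]) (1,[(0,1)])) (.leaf false ⟨⟨-542,201,102⟩,⟨-222,-522,-151⟩,⟨-39,178,-558⟩⟩ (285,[(2,8057),(1,271),(3,49155)]) (707,[(0,1142),(1,71),(3,278614)]) (34,[(2,17646),(0,13),(3,13449)])))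 (.leaf false ⟨⟨-254,-87,-522⟩,⟨-87,578,-54⟩,⟨522,54,-263⟩⟩ (137,[(3,332338),(2,3741),(0,522)]) (137,[(3,42699),(2,80806),(0,54)]) (137,[(3,78396),(2,15288),(0,263)])))) (.node ⟨0,0,1⟩ (.node ⟨137,-570,30⟩ (.node ⟨102,102,569⟩ (.leaf false ⟨⟨-578,9,102⟩,⟨9,-578,102⟩,⟨102,102,569⟩⟩ (569,[(4,339286),(3,5283),(0,102)]) (569,[(4,5283),(3,339286),(0,102)]) (1,[(0,1)])) (.leaf false ⟨⟨-558,-39,178⟩,⟨-151,-222,-522⟩,⟨102,-542,201⟩⟩ (34,[(2,13449),(4,17646),(0,13)]) (707,[(2,278614),(0,1142),(1,71)]) (285,[(2,49155),(4,8057),(1,271)]))) (.leaf false ⟨⟨-558,-151,-102⟩,⟨-178,522,201⟩,⟨-39,-222,542⟩⟩ (137,[(1,2766),(0,558),(2,338747)]) (137,[(1,32877),(0,178),(2,29946)]) (137,[(1,75424),(0,39),(2,52644)]))) (.leaf false ⟨⟨-587,0,0⟩,⟨0,-587,0⟩,⟨0,0,-587⟩⟩ (1,[(2,587)]) (1,[(1,587)])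 (1,[(0,587)]))))
theorem h587_ok : h587.check (ok 587 4 ⟨3, 3, 3⟩) (fun _ r => r) [] = true := by decide +kernel

def h589 : T := .node ⟨1,0,0⟩ (.node ⟨0,1,0⟩ (.node ⟨0,0,1⟩ (.leaf false ⟨⟨0,0,589⟩,⟨0,589,0⟩,⟨589,0,0⟩⟩ (1,[(0,589)]) (1,[(1,589)]) (1,[(2,589)])) (.node ⟨-108,96,-571⟩ (.node ⟨156,509,252⟩ (.node ⟨564,-108,-131⟩ (.leaf false ⟨⟨-96,108,-571⟩,⟨77,576,96⟩,⟨576,-59,-108⟩⟩ (1,[(5,12),(4,12),(2,1)]) (21,[(5,369),(1,8),(4,8024)]) (131,[(0,108),(5,14544),(4,3935)])) (.leaf false ⟨⟨-540,189,-140⟩,⟨140,540,189⟩,⟨189,140,-540⟩⟩ (4,[(3,1477),(5,1788),(0,7)]) (1,[(3,466),(5,2960),(0,5)]) (27,[(3,19165),(5,24843),(0,35)]))) (.leaf false ⟨⟨-276,-67,-516⟩,⟨108,564,-131⟩,⟨509,-156,-252⟩⟩ (21,[(4,912),(3,20480),(0,43)]) (252,[(4,47652),(3,208807),(0,131)]) (1,[(4,665),(3,353),(0,1)])))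 (.leaf false ⟨⟨40,165,-564⟩,⟨264,500,165⟩,⟨525,-264,-40⟩⟩ (27,[(1,20938),(0,10),(2,5415)]) (9,[(1,11077),(0,22),(2,6612)]) (36,[(1,101365),(0,175),(2,7296)])))) (.node ⟨0,0,1⟩ (.node ⟨-108,-571,96⟩ (.node ⟨156,252,509⟩ (.node ⟨564,-131,-108⟩ (.leaf false ⟨⟨-96,-571,108⟩,⟨77,96,576⟩,⟨576,-108,-59⟩⟩ (1,[(3,12),(5,12),(2,1)]) (21,[(3,8024),(1,8),(5,369)]) (131,[(3,3935),(5,14544),(0,108)])) (.leaf false ⟨⟨-540,-140,189⟩,⟨140,189,540⟩,⟨189,-540,140⟩⟩ (4,[(5,1788),(4,1477),(0,7)]) (1,[(5,2960),(4,466),(0,5)]) (27,[(5,24843),(4,19165),(0,35)]))) (.leaf false ⟨⟨-276,-516,-67⟩,⟨108,-131,564⟩,⟨509,-252,-156⟩⟩ (21,[(2,20480),(4,912),(0,43)]) (252,[(2,208807),(4,47652),(0,131)]) (1,[(2,353),(4,665),(0,1)]))) (.leaf false ⟨⟨40,-564,165⟩,⟨264,165,500⟩,⟨525,-40,-264⟩⟩ (27,[(1,5415),(0,10),(2,20938)])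 (9,[(1,6612),(0,22),(2,11077)]) (36,[(1,7296),(0,175),(2,101365)]))) (.node ⟨96,144,-563⟩ (.node ⟨96,-563,144⟩ (.node ⟨528,-51,256⟩ (.leaf false ⟨⟨4,-576,-123⟩,⟨261,112,-516⟩,⟨528,-51,256⟩⟩ (24,[(3,3096),(1,1),(4,13261)]) (35760,[(2,37696),(0,10823),(4,871131)]) (1,[(0,1)])) (.leaf false ⟨⟨-444,4,-387⟩,⟨68,-579,-84⟩,⟨381,108,-436⟩⟩ (4731244,[(2,1450236),(1,733687),(0,4375623)]) (34196,[(5,15913312),(1,38127),(0,32667)]) (247,[(2,164),(5,110043),(0,60)]))) (.leaf false ⟨⟨-312,-24,-499⟩,⟨229,516,-168⟩,⟨444,-283,-264⟩⟩ (144,[(4,2976),(3,284393),(0,499)]) (6,[(4,2046),(3,845),(0,7)]) (6,[(4,3720),(3,7891),(0,11)]))) (.leaf false ⟨⟨-312,-499,-24⟩,⟨229,-168,516⟩,⟨444,-264,-283⟩⟩ (144,[(1,284393),(3,2976),(0,499)]) (6,[(1,845),(3,2046),(0,7)]) (6,[(1,7891),(3,3720),(0,11)])))))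 (.node ⟨0,1,0⟩ (.node ⟨0,0,1⟩ (.node ⟨-571,-108,96⟩ (.node ⟨252,156,509⟩ (.node ⟨-131,564,-108⟩ (.leaf false ⟨⟨-571,-96,108⟩,⟨-108,576,-59⟩,⟨96,77,576⟩⟩ (1,[(3,12),(2,1),(4,12)]) (131,[(3,3935),(0,108),(4,14544)]) (21,[(3,8024),(4,369),(1,8)])) (.leaf false ⟨⟨-579,-4,108⟩,⟨68,444,381⟩,⟨84,-387,436⟩⟩ (1,[(5,710),(4,560),(0,1)]) (36,[(5,14189),(4,87612),(0,127)]) (27,[(5,12011),(4,51027),(0,109)]))) (.leaf false ⟨⟨-536,-243,-24⟩,⟨-219,504,-212⟩,⟨-108,184,549⟩⟩ (63,[(2,66694),(0,134),(3,5595)]) (84,[(2,19349),(0,73),(3,53724)]) (7,[(2,5370),(0,3),(3,1756)]))) (.leaf false ⟨⟨-579,68,84⟩,⟨-4,444,-387⟩,⟨108,381,436⟩⟩ (27,[(1,3900),(3,25340),(0,17)]) (9,[(1,69),(3,21163),(0,37)]) (36,[(1,27888),(3,68629),(0,127)]))) (.node ⟨144,96,-563⟩ (.node ⟨-563,96,144⟩ (.node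 ⟨-51,528,256⟩ (.leaf false ⟨⟨-576,4,-123⟩,⟨-51,528,256⟩,⟨112,261,-516⟩⟩ (24,[(3,3096),(5,13261),(1,1)]) (1,[(0,1)]) (35760,[(5,871131),(0,10823),(2,37696)])) (.leaf false ⟨⟨-579,-108,-4⟩,⟨-68,381,-444⟩,⟨84,-436,-387⟩⟩ (2027676,[(1,2211771),(2,192736),(0,851935)]) (34196,[(1,10013),(4,46356276),(0,64941)]) (143,[(4,12820),(2,31),(0,148)]))) (.leaf false ⟨⟨-571,-12,-144⟩,⟨12,581,-96⟩,⟨144,-96,-563⟩⟩ (1,[(4,1134),(3,84),(0,1)]) (3,[(4,1090),(3,1935),(0,2)]) (144,[(4,296233),(3,40224),(0,563)]))) (.leaf false ⟨⟨-576,-123,-4⟩,⟨-112,516,261⟩,⟨-51,256,-528⟩⟩ (1,[(1,2256),(0,4),(2,261)]) (9,[(1,1592),(0,7),(2,5316)]) (48,[(1,34915),(0,17),(2,13920)])))) (.node ⟨0,0,1⟩ (.node ⟨144,-563,96⟩ (.node ⟨-563,144,96⟩ (.node ⟨-51,256,528⟩ (.leaf false ⟨⟨-576,-123,4⟩,⟨-51,256,528⟩,⟨112,-516,261⟩⟩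 (24,[(1,1),(5,13261),(4,3096)]) (1,[(0,1)]) (35760,[(5,871131),(2,37696),(0,10823)])) (.leaf false ⟨⟨-579,-84,68⟩,⟨4,-387,-444⟩,⟨108,-436,381⟩⟩ (34196,[(3,15913312),(1,38127),(0,32667)]) (4731244,[(1,733687),(0,4375623),(2,1450236)]) (247,[(3,110043),(0,60),(2,164)]))) (.leaf false ⟨⟨-571,-144,-12⟩,⟨12,-96,581⟩,⟨144,-563,-96⟩⟩ (1,[(2,84),(4,1134),(0,1)]) (3,[(2,1935),(4,1090),(0,2)]) (144,[(2,40224),(4,296233),(0,563)]))) (.leaf false ⟨⟨-576,-51,-112⟩,⟨-123,256,516⟩,⟨-4,-528,261⟩⟩ (1,[(1,272),(0,4),(2,2303)]) (48,[(1,28704),(0,41),(2,10795)]) (36,[(1,9492),(0,1),(2,19571)]))) (.node ⟨-576,-59,108⟩ (.node ⟨108,-59,-576⟩ (.node ⟨96,-571,108⟩ (.leaf false ⟨⟨-576,-108,-59⟩,⟨77,-96,-576⟩,⟨96,-571,108⟩⟩ (571,[(3,45353),(5,339264),(0,108)]) (279264,[(2,18817),(0,15487),(1,285696)])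 (1,[(0,1)])) (.leaf false ⟨⟨-579,-68,84⟩,⟨-108,381,-436⟩,⟨-4,-444,-387⟩⟩ (2964,[(2,3004),(4,16587),(1,131)]) (1395,[(4,731561),(1,629),(0,2277)]) (372,[(4,293027),(1,204),(0,245)]))) (.leaf false ⟨⟨-579,84,-68⟩,⟨-108,-436,381⟩,⟨-4,-387,-444⟩⟩ (36,[(2,113616),(0,193),(3,8363)]) (1,[(2,195),(0,1),(3,495)]) (27,[(2,12564),(0,1),(3,10508)]))) (.leaf false ⟨⟨-576,-59,-108⟩,⟨77,-576,-96⟩,⟨96,108,-571⟩⟩ (1,[(3,1152),(2,118),(0,1)]) (9,[(3,3915),(2,5656),(0,8)]) (108,[(3,318528),(2,22025),(0,571)])))))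
theorem h589_ok : h589.check (ok 589 4 ⟨3, 3, 3⟩) (fun _ r => r) [] = true := by decide +kernel

def h593 : T := .node ⟨1,0,0⟩ (.node ⟨0,1,0⟩ (.node ⟨0,0,1⟩ (.leaf false ⟨⟨0,0,593⟩,⟨0,593,0⟩,⟨593,0,0⟩⟩ (1,[(0,593)]) (1,[(1,593)]) (1,[(2,593)])) (.node ⟨-172,24,-567⟩ (.node ⟨-63,564,172⟩ (.leaf false ⟨⟨-172,24,-567⟩,⟨-63,588,44⟩,⟨564,73,-168⟩⟩ (1,[(1,1)]) (47,[(2,6360),(4,126),(0,49)]) (564,[(2,107308),(4,322695),(0,73)])) (.leaf false ⟨⟨-127,132,-564⟩,⟨372,-424,-183⟩,⟨444,393,-8⟩⟩ (189,[(4,8333),(3,20436),(1,188)]) (172,[(4,52455),(3,30284),(0,183)]) (43,[(4,18966),(3,18027),(0,2)]))) (.leaf false ⟨⟨0,593,0⟩,⟨368,0,465⟩,⟨465,0,-368⟩⟩ (1,[(2,593)]) (43,[(1,32169),(0,92),(2,2208)]) (172,[(1,326951),(0,465),(2,11160)])))) (.node ⟨0,0,1⟩ (.node ⟨-172,-567,24⟩ (.node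 ⟨-63,172,564⟩ (.leaf false ⟨⟨-172,-567,24⟩,⟨-63,44,588⟩,⟨564,-168,73⟩⟩ (1,[(1,1)]) (47,[(4,126),(3,6360),(0,49)]) (564,[(4,322695),(3,107308),(0,73)])) (.leaf false ⟨⟨-127,-564,132⟩,⟨372,-183,-424⟩,⟨444,-8,393⟩⟩ (189,[(2,20436),(4,8333),(1,188)]) (172,[(2,30284),(4,52455),(0,183)]) (43,[(2,18027),(4,18966),(0,2)]))) (.leaf false ⟨⟨0,0,593⟩,⟨368,465,0⟩,⟨465,-368,0⟩⟩ (1,[(1,593)]) (43,[(1,2208),(0,92),(2,32169)]) (172,[(1,11160),(0,465),(2,326951)]))) (.node ⟨-192,-559,-48⟩ (.node ⟨17,216,-552⟩ (.leaf false ⟨⟨-192,-559,-48⟩,⟨8,48,-591⟩,⟨561,-192,-8⟩⟩ (1,[(1,1)]) (106312,[(4,5439589),(1,33720),(0,110891)]) (6,[(4,3558),(3,593),(1,1)])) (.leaf false ⟨⟨-108,-567,136⟩,⟨84,-152,-567⟩,⟨577,-84,108⟩⟩ (39867,[(4,2720341),(0,12905),(1,35451)]) (27,[(2,25797),(4,2591),(0,19)])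 (18,[(2,1920),(4,10505),(0,7)]))) (.leaf false ⟨⟨8,-48,-591⟩,⟨192,-559,48⟩,⟨561,192,-8⟩⟩ (24,[(1,14232),(0,1),(2,1711)]) (1,[(0,1),(2,1118)]) (64,[(1,9488),(0,187),(2,92245)]))))) (.node ⟨0,1,0⟩ (.node ⟨0,0,1⟩ (.node ⟨-567,-172,24⟩ (.node ⟨172,-63,564⟩ (.leaf false ⟨⟨-567,-172,24⟩,⟨-168,564,73⟩,⟨44,-63,588⟩⟩ (1,[(1,1)]) (564,[(4,107308),(3,322695),(0,73)]) (47,[(4,6360),(3,126),(0,49)])) (.leaf false ⟨⟨-564,-127,132⟩,⟨-183,372,-424⟩,⟨-8,444,393⟩⟩ (189,[(2,20436),(1,188),(3,8333)]) (172,[(2,30284),(0,183),(3,52455)]) (43,[(2,18027),(0,2),(3,18966)]))) (.leaf false ⟨⟨-368,465,0⟩,⟨0,0,593⟩,⟨465,368,0⟩⟩ (172,[(1,11160),(3,326951),(0,465)]) (1,[(1,593)]) (43,[(1,2208),(3,32169),(0,92)]))) (.node ⟨-48,-192,-559⟩ (.node ⟨-552,17,216⟩ (.leaf false ⟨⟨-591,8,48⟩,⟨-48,-192,-559⟩,⟨-8,561,-192⟩⟩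 (35600,[(2,5439589),(1,1877),(0,37952)]) (1,[(1,1)]) (6,[(2,593),(1,1),(3,3558)])) (.leaf false ⟨⟨-567,84,-152⟩,⟨108,577,-84⟩,⟨136,-108,-567⟩⟩ (27,[(4,25797),(3,2591),(0,19)]) (18,[(4,1920),(3,10505),(0,7)]) (39867,[(1,35451),(3,2720341),(0,12905)]))) (.leaf false ⟨⟨-591,8,-48⟩,⟨-8,561,192⟩,⟨48,192,-559⟩⟩ (24,[(1,1711),(3,14232),(0,1)]) (64,[(1,92245),(3,9488),(0,187)]) (1,[(1,1118),(0,1)])))) (.node ⟨0,0,1⟩ (.node ⟨-48,-559,-192⟩ (.node ⟨-552,216,17⟩ (.leaf false ⟨⟨-591,48,8⟩,⟨-48,-559,-192⟩,⟨-8,-192,561⟩⟩ (106312,[(2,5439589),(0,110891),(1,33720)]) (1,[(1,1)]) (6,[(2,3558),(1,1),(3,593)])) (.leaf false ⟨⟨-567,-152,84⟩,⟨108,-84,577⟩,⟨136,-567,-108⟩⟩ (27,[(2,2591),(4,25797),(0,19)]) (18,[(2,10505),(4,1920),(0,7)]) (39867,[(2,2720341),(1,35451),(0,12905)])))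 (.leaf false ⟨⟨-591,-48,8⟩,⟨-8,192,561⟩,⟨48,-559,192⟩⟩ (24,[(3,14232),(2,1711),(0,1)]) (64,[(3,9488),(2,92245),(0,187)]) (1,[(2,1118),(0,1)]))) (.node ⟨-63,172,-564⟩ (.node ⟨-567,24,172⟩ (.leaf false ⟨⟨-588,24,73⟩,⟨-63,172,-564⟩,⟨-44,-567,-168⟩⟩ (27,[(2,2845),(0,28),(3,24)]) (1,[(1,1)]) (567,[(2,102824),(0,44),(3,322545)])) (.leaf false ⟨⟨-567,-168,-44⟩,⟨24,73,-588⟩,⟨172,-564,-63⟩⟩ (43,[(4,30618),(3,6960),(0,11)]) (27552,[(1,27439),(3,2607052),(0,4215)]) (172,[(4,6137),(3,95496),(0,63)]))) (.leaf false ⟨⟨-591,-48,-8⟩,⟨8,-192,561⟩,⟨48,-559,-192⟩⟩ (43,[(1,7112),(3,26169),(0,12)]) (43,[(1,2949),(3,2680),(0,48)]) (4,[(1,8100),(3,627),(0,13)])))))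
theorem h593_ok : h593.check (ok 593 4 ⟨3, 3, 3⟩) (fun _ r => r) [] = true := by decide +kernel


end H34S
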