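import Pool.Agent.Lib.H34S.Cover

/-!
# H34S: certificates (generated), hexagonal numbers
-/

set_option autoImplicit false

namespace H34S

def h599 : T := .node ⟨1,0,0⟩ (.node ⟨0,1,0⟩ (.node ⟨0,0,1⟩ (.node ⟨-174,14,573⟩ (.node ⟨54,582,-131⟩ (.node ⟨573,-14,174⟩ (.leaf false ⟨⟨-166,141,558⟩,⟨54,582,-131⟩,⟨573,-14,174⟩⟩ (87,[(3,987),(4,11105),(2,83)]) (1,[(1,1)]) (1,[(0,1)])) (.leaf false ⟨⟨-594,58,-51⟩,⟨6,429,418⟩,⟨77,414,-426⟩⟩ (7,[(3,4689),(5,12459),(0,29)]) (14,[(3,80498),(5,245901),(0,429)]) (7,[(3,33036),(5,119150),(0,207)]))) (.leaf false ⟨⟨-202,141,546⟩,⟨366,474,13⟩,⟨429,-338,246⟩⟩ (131,[(4,3022),(3,336243),(0,546)]) (131,[(4,48648),(3,69660),(0,13)]) (131,[(4,69483),(3,98894),(0,246)]))) (.node ⟨546,-246,13⟩ (.leaf false ⟨⟨13,366,474⟩,⟨246,429,-338⟩,⟨546,-202,141⟩⟩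 (42,[(2,19895),(0,1),(3,15618)]) (29,[(2,13691),(1,41),(3,13015)]) (1,[(2,128),(0,1),(3,44)])) (.leaf false ⟨⟨-546,246,13⟩,⟨141,338,-474⟩,⟨202,429,366⟩⟩ (1,[(2,26),(0,1)]) (5860,[(2,18290910),(1,36539),(0,10131)]) (17580,[(2,88282660),(1,141963),(0,38737)])))) (.node ⟨-378,301,-354⟩ (.node ⟨274,498,189⟩ (.node ⟨474,-131,-342⟩ (.leaf false ⟨⟨-243,306,-454⟩,⟨274,498,189⟩,⟨474,-131,-342⟩⟩ (14,[(3,3170),(4,1575),(2,9)]) (1,[(1,1)]) (1,[(0,1)])) (.leaf false ⟨⟨-558,166,141⟩,⟨-131,54,-582⟩,⟨174,573,14⟩⟩ (131,[(3,38301),(5,5586),(0,166)]) (131,[(3,94710),(5,8435),(0,54)]) (131,[(3,194132),(5,294396),(0,573)]))) (.leaf false ⟨⟨-474,90,-355⟩,⟨230,525,-174⟩,⟨285,-274,-450⟩⟩ (189,[(4,7684),(3,193800),(0,355)]) (63,[(4,30382),(3,61959),(0,58)]) (21,[(4,19685),(3,19146),(0,50)])))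 (.leaf false ⟨⟨90,590,-51⟩,⟨301,-90,-510⟩,⟨510,-51,310⟩⟩ (21,[(1,2841),(0,5),(2,13895)]) (54,[(1,42762),(0,43),(2,8083)]) (63,[(1,10560),(0,85),(2,22372)])))) (.node ⟨0,0,1⟩ (.node ⟨-378,-354,301⟩ (.node ⟨274,189,498⟩ (.node ⟨474,-342,-131⟩ (.leaf false ⟨⟨-243,-454,306⟩,⟨274,189,498⟩,⟨474,-342,-131⟩⟩ (14,[(3,1575),(4,3170),(2,9)]) (1,[(1,1)]) (1,[(0,1)])) (.leaf false ⟨⟨-558,-131,174⟩,⟨141,-582,14⟩,⟨166,54,573⟩⟩ (131,[(5,9378),(4,76669),(0,174)]) (131,[(5,25107),(4,81030),(0,14)]) (131,[(5,293348),(4,188892),(0,573)]))) (.leaf false ⟨⟨-474,-355,90⟩,⟨230,-174,525⟩,⟨285,-450,-274⟩⟩ (189,[(2,193800),(4,7684),(0,355)]) (63,[(2,61959),(4,30382),(0,58)]) (21,[(2,19146),(4,19685),(0,50)]))) (.leaf false ⟨⟨90,-51,590⟩,⟨301,-510,-90⟩,⟨510,310,-51⟩⟩ (21,[(1,13895),(0,5),(2,2841)])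 (54,[(1,8083),(0,43),(2,42762)]) (63,[(1,22372),(0,85),(2,10560)]))) (.node ⟨-174,-558,-131⟩ (.node ⟨274,285,-450⟩ (.node ⟨525,-230,174⟩ (.leaf false ⟨⟨-90,-474,-355⟩,⟨274,285,-450⟩,⟨525,-230,174⟩⟩ (29,[(3,8330),(4,5376),(2,15)]) (1,[(1,1)]) (1,[(0,1)])) (.leaf false ⟨⟨-531,-166,-222⟩,⟨42,426,-419⟩,⟨274,-387,-366⟩⟩ (29,[(5,4026),(4,13324),(0,37)]) (174,[(5,227283),(4,22246),(0,419)]) (29,[(5,39971),(4,25253),(0,61)]))) (.leaf false ⟨⟨-387,-426,-166⟩,⟨274,-42,-531⟩,⟨366,-419,222⟩⟩ (95,[(2,79670),(4,2143),(0,142)]) (95,[(2,56745),(4,29866),(0,14)]) (285,[(2,125280),(4,219116),(0,419)]))) (.leaf false ⟨⟨54,-582,-131⟩,⟨166,141,-558⟩,⟨573,14,174⟩⟩ (29,[(1,4978),(0,9),(2,21900)]) (87,[(1,59419),(0,83),(2,34047)]) (58,[(1,14929),(0,191),(2,105766)]))))) (.node ⟨0,1,0⟩ (.node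 ⟨0,0,1⟩ (.node ⟨-354,301,-378⟩ (.node ⟨189,498,274⟩ (.node ⟨-342,-131,474⟩ (.leaf false ⟨⟨-454,306,-243⟩,⟨-342,-131,474⟩,⟨189,498,274⟩⟩ (14,[(5,3170),(2,9),(4,1575)]) (1,[(0,1)]) (1,[(1,1)])) (.leaf false ⟨⟨-594,6,77⟩,⟨-51,418,-426⟩,⟨58,429,414⟩⟩ (131,[(3,12931),(5,79866),(0,6)]) (131,[(3,142326),(5,149637),(0,418)]) (131,[(3,257580),(5,139120),(0,429)]))) (.leaf false ⟨⟨-558,54,-211⟩,⟨-194,-387,414⟩,⟨-99,454,378⟩⟩ (21,[(2,12557),(0,62),(3,32010)]) (189,[(2,131402),(0,194),(3,23469)]) (21,[(2,10952),(0,11),(3,15012)]))) (.leaf false ⟨⟨-546,77,234⟩,⟨158,546,189⟩,⟨189,-234,518⟩⟩ (21,[(3,16068),(2,5530),(0,13)]) (2,[(3,38),(2,1393),(0,1)]) (27,[(3,7995),(2,4819),(0,37)]))) (.node ⟨-131,-174,-558⟩ (.node ⟨-450,274,285⟩ (.node ⟨174,525,-230⟩ (.leaf false ⟨⟨-450,274,285⟩,⟨-355,-90,-474⟩,⟨174,525,-230⟩⟩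 (1,[(1,1)]) (29,[(3,5376),(2,15),(5,8330)]) (1,[(0,1)])) (.leaf false ⟨⟨-582,-14,141⟩,⟨-131,-174,-558⟩,⟨-54,573,-166⟩⟩ (29,[(3,18221),(0,97),(4,50519)]) (174,[(3,127222),(0,131),(4,38499)]) (29,[(3,6884),(0,9),(4,21342)]))) (.leaf false ⟨⟨-582,-54,-131⟩,⟨-14,573,-174⟩,⟨141,-166,-558⟩⟩ (285,[(4,224820),(3,20504),(0,131)]) (95,[(4,27430),(3,70327),(0,58)]) (95,[(4,70305),(3,35194),(0,186)]))) (.leaf false ⟨⟨-594,58,-51⟩,⟨6,429,418⟩,⟨77,414,-426⟩⟩ (3,[(1,711),(3,1913),(0,1)]) (58,[(1,55550),(3,18385),(0,143)]) (29,[(1,50856),(3,6806),(0,69)])))) (.node ⟨0,0,1⟩ (.node ⟨-131,-558,-174⟩ (.node ⟨-450,285,274⟩ (.node ⟨174,-230,525⟩ (.leaf false ⟨⟨-450,285,274⟩,⟨-355,-474,-90⟩,⟨174,-230,525⟩⟩ (1,[(1,1)]) (29,[(5,8330),(2,15),(4,5376)]) (1,[(0,1)])) (.leaf false ⟨⟨-582,141,-14⟩,⟨-131,-558,-174⟩,⟨-54,-166,573⟩⟩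 (29,[(3,50519),(0,97),(4,18221)]) (174,[(3,38499),(0,131),(4,127222)]) (29,[(3,21342),(0,9),(4,6884)]))) (.leaf false ⟨⟨-582,-131,-54⟩,⟨-14,-174,573⟩,⟨141,-558,-166⟩⟩ (285,[(2,20504),(4,224820),(0,131)]) (95,[(2,70327),(4,27430),(0,58)]) (95,[(2,35194),(4,70305),(0,186)]))) (.leaf false ⟨⟨-594,-51,58⟩,⟨6,418,429⟩,⟨77,-426,414⟩⟩ (3,[(3,1913),(2,711),(0,1)]) (58,[(3,18385),(2,55550),(0,143)]) (29,[(3,6806),(2,50856),(0,69)]))) (.leaf false ⟨⟨-599,0,0⟩,⟨0,-599,0⟩,⟨0,0,-599⟩⟩ (1,[(2,599)]) (1,[(1,599)]) (1,[(0,599)]))))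
theorem h599_ok : h599.check (ok 599 4 ⟨3, 3, 3⟩) (fun _ r => r) [] = true := by decide +kernel

def h601 : T := .node ⟨1,0,0⟩ (.node ⟨0,1,0⟩ (.node ⟨0,0,1⟩ (.leaf false ⟨⟨0,0,601⟩,⟨0,601,0⟩,⟨601,0,0⟩⟩ (1,[(0,601)]) (1,[(1,601)]) (1,[(2,601)])) (.node ⟨-207,556,-96⟩ (.node ⟨488,-264,-231⟩ (.node ⟨56,-231,-552⟩ (.node ⟨-264,488,-231⟩ (.leaf false ⟨⟨-264,488,-231⟩,⟨56,-231,-552⟩,⟨537,264,-56⟩⟩ (1,[(0,1)]) (1,[(1,1)]) (33,[(2,8),(6,13817),(5,10824)])) (.leaf false ⟨⟨-144,369,-452⟩,⟨177,-416,-396⟩,⟨556,228,9⟩⟩ (24641601,[(3,27285400),(1,17231001),(0,4298300)]) (8213867,[(3,1482667),(1,7738812),(0,5028004)]) (8213867,[(3,71771420),(1,16691620),(0,70033573)]))) (.leaf false ⟨⟨-192,564,-79⟩,⟨241,156,528⟩,⟨516,137,-276⟩⟩ (2383,[(3,801409),(0,1428),(2,1824)]) (32648,[(3,3516885),(1,21469),(0,46584)])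 (1925555,[(1,2765276),(0,471245),(2,1591684)]))) (.leaf false ⟨⟨-452,369,144⟩,⟨9,228,-556⟩,⟨396,416,177⟩⟩ (88,[(2,15741),(4,20248),(0,123)]) (22,[(2,16621),(4,9470),(0,19)]) (33,[(2,6171),(4,38444),(0,52)]))) (.leaf false ⟨⟨108,16,-591⟩,⟨201,564,52⟩,⟨556,-207,96⟩⟩ (23,[(1,14745),(0,12),(2,7040)]) (69,[(1,2844),(0,67),(2,76168)]) (207,[(1,33504),(0,556),(2,266287)])))) (.node ⟨0,0,1⟩ (.node ⟨-207,-96,556⟩ (.node ⟨488,-231,-264⟩ (.node ⟨56,-552,-231⟩ (.node ⟨-264,-231,488⟩ (.leaf false ⟨⟨-264,-231,488⟩,⟨56,-552,-231⟩,⟨537,-56,264⟩⟩ (1,[(0,1)]) (1,[(1,1)]) (33,[(4,10824),(6,13817),(2,8)])) (.leaf false ⟨⟨-144,-452,369⟩,⟨177,-396,-416⟩,⟨556,9,228⟩⟩ (24641601,[(1,17231001),(3,27285400),(0,4298300)]) (8213867,[(1,7738812),(3,1482667),(0,5028004)]) (8213867,[(1,16691620),(3,71771420),(0,70033573)])))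 (.leaf false ⟨⟨-192,-79,564⟩,⟨241,528,156⟩,⟨516,-276,137⟩⟩ (2383,[(4,801409),(2,1824),(0,1428)]) (32648,[(1,21469),(4,3516885),(0,46584)]) (1925555,[(1,2765276),(2,1591684),(0,471245)]))) (.leaf false ⟨⟨-452,9,396⟩,⟨144,-556,177⟩,⟨369,228,416⟩⟩ (2,[(4,560),(3,675),(0,3)]) (88,[(4,41464),(3,62557),(0,59)]) (33,[(4,37553),(3,4488),(0,52)]))) (.leaf false ⟨⟨108,-591,16⟩,⟨201,52,564⟩,⟨556,96,-207⟩⟩ (23,[(1,7040),(0,12),(2,14745)]) (69,[(1,76168),(0,67),(2,2844)]) (207,[(1,266287),(0,556),(2,33504)]))) (.node ⟨0,240,-551⟩ (.leaf false ⟨⟨0,-551,-240⟩,⟨0,240,-551⟩,⟨601,0,0⟩⟩ (551,[(0,240),(2,361201)]) (1,[(0,1)]) (1,[(3,601)])) (.leaf false ⟨⟨0,-551,240⟩,⟨0,-240,-551⟩,⟨601,0,0⟩⟩ (240,[(1,246001),(0,551)]) (1,[(1,1102),(0,1)]) (1,[(3,601)]))))) (.node ⟨0,1,0⟩ (.node ⟨0,0,1⟩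 (.node ⟨-96,556,-207⟩ (.node ⟨-231,-264,488⟩ (.node ⟨-552,-231,56⟩ (.node ⟨-231,488,-264⟩ (.leaf false ⟨⟨-552,-231,56⟩,⟨-231,488,-264⟩,⟨-56,264,537⟩⟩ (1,[(1,1)]) (1,[(0,1)]) (33,[(4,13817),(2,8),(5,10824)])) (.leaf false ⟨⟨-591,16,108⟩,⟨52,564,201⟩,⟨96,-207,556⟩⟩ (8213867,[(1,12073320),(3,19094972),(0,15771405)]) (24641601,[(1,26694024),(3,152606521),(0,132756236)]) (8213867,[(1,12105763),(3,47789116),(0,52202024)]))) (.leaf false ⟨⟨-504,-96,313⟩,⟨-168,569,-96⟩,⟨281,168,504⟩⟩ (4664,[(1,3187),(5,2555067),(0,1704)]) (8857553,[(1,2619008),(2,10233448),(0,179951)]) (583,[(1,749),(5,369718),(0,1280)]))) (.leaf false ⟨⟨-591,52,96⟩,⟨16,564,-207⟩,⟨108,201,556⟩⟩ (66,[(2,12680),(4,42009),(0,13)]) (22,[(2,18382),(4,10505),(0,47)]) (88,[(2,81624),(4,5973),(0,67)]))) (.leaf false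 ⟨⟨-591,16,108⟩,⟨52,564,201⟩,⟨96,-207,556⟩⟩ (23,[(3,14745),(2,7040),(0,12)]) (69,[(3,2844),(2,76168),(0,67)]) (207,[(3,33504),(2,266287),(0,556)]))) (.node ⟨240,0,-551⟩ (.leaf false ⟨⟨-551,0,-240⟩,⟨0,601,0⟩,⟨240,0,-551⟩⟩ (551,[(3,361201),(0,240)]) (1,[(2,601)]) (1,[(0,1)])) (.leaf false ⟨⟨-551,0,240⟩,⟨-240,0,-551⟩,⟨0,601,0⟩⟩ (240,[(1,246001),(0,551)]) (1,[(1,1102),(0,1)]) (1,[(2,601)])))) (.node ⟨0,0,1⟩ (.node ⟨240,-551,0⟩ (.leaf false ⟨⟨-551,-240,0⟩,⟨0,0,601⟩,⟨240,-551,0⟩⟩ (551,[(3,361201),(0,240)]) (1,[(1,601)]) (1,[(0,1)])) (.leaf false ⟨⟨-551,240,0⟩,⟨-240,-551,0⟩,⟨0,0,601⟩⟩ (240,[(0,551),(2,246001)]) (1,[(0,1),(2,1102)]) (1,[(1,601)]))) (.node ⟨52,-564,201⟩ (.node ⟨-591,-16,108⟩ (.leaf false ⟨⟨-591,-16,108⟩,⟨-96,-207,-556⟩,⟨52,-564,201⟩⟩ (1,[(0,1)]) (188,[(2,118397),(4,21636),(1,69)])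 (1,[(1,1)])) (.leaf false ⟨⟨-591,16,-108⟩,⟨-52,-564,201⟩,⟨96,-207,-556⟩⟩ (1,[(4,1182),(0,1)]) (1,[(4,104),(1,1)]) (96,[(4,342769),(1,52),(0,591)]))) (.node ⟨-564,201,52⟩ (.leaf false ⟨⟨-564,201,52⟩,⟨-207,-556,-96⟩,⟨-16,108,-591⟩⟩ (1,[(0,1)]) (188,[(2,21636),(0,69),(3,118397)]) (13,[(2,6879),(1,4),(3,852)])) (.leaf false ⟨⟨-592,-96,-39⟩,⟨-39,416,-432⟩,⟨96,-423,-416⟩⟩ (67,[(1,13),(4,38988),(3,13764)]) (69729,[(1,108464),(4,87337351),(0,160032)]) (29017,[(1,57408),(3,42595671),(0,10232)]))))))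
theorem h601_ok : h601.check (ok 601 4 ⟨3, 3, 3⟩) (fun _ r => r) [] = true := by decide +kernel

def h607 : T := .node ⟨1,0,0⟩ (.node ⟨0,1,0⟩ (.node ⟨0,0,1⟩ (.node ⟨-238,102,549⟩ (.node ⟨-238,558,21⟩ (.node ⟨21,-102,598⟩ (.leaf false ⟨⟨-238,549,102⟩,⟨21,-102,598⟩,⟨558,238,21⟩⟩ (176,[(4,10728),(1,149),(2,27)]) (1,[(0,1)]) (183,[(5,103780),(4,42840),(2,7)])) (.leaf false ⟨⟨-462,374,-123⟩,⟨166,357,462⟩,⟨357,318,-374⟩⟩ (93,[(3,3224),(0,176),(2,165)]) (2,[(3,5110),(5,479),(0,7)]) (17,[(3,25336),(5,7182),(0,53)]))) (.leaf false ⟨⟨-171,-22,582⟩,⟨302,-522,69⟩,⟨498,309,158⟩⟩ (41888,[(3,2793496),(1,44975),(0,14879)]) (10472,[(3,2813352),(1,1897),(0,15185)]) (62832,[(3,103734600),(1,24031),(0,155503)]))) (.leaf false ⟨⟨21,102,598⟩,⟨238,549,-102⟩,⟨558,-238,21⟩⟩ (34,[(1,21979),(0,3),(2,3774)])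 (1,[(1,447),(0,1),(2,651)]) (119,[(1,155670),(0,279),(2,136)]))) (.node ⟨-123,594,-22⟩ (.node ⟨-123,-22,-594⟩ (.node ⟨594,-27,-122⟩ (.leaf false ⟨⟨-123,-22,-594⟩,⟨22,606,-27⟩,⟨594,-27,-122⟩⟩ (1,[(1,1)]) (22,[(5,607),(4,13354),(1,1)]) (1,[(0,1)])) (.leaf false ⟨⟨-598,102,21⟩,⟨21,238,-558⟩,⟨102,549,238⟩⟩ (13354,[(5,29190023),(0,60126),(1,11877)]) (6677,[(5,48485946),(0,76824),(1,22051)]) (6677,[(5,99703392),(0,160435),(1,30276)]))) (.leaf false ⟨⟨-102,598,21⟩,⟨238,21,558⟩,⟨549,102,-238⟩⟩ (3212,[(4,40392),(0,233),(1,3225)]) (22,[(2,198),(4,2653),(0,21)]) (99,[(2,23188),(4,56442),(1,17)]))) (.node ⟨549,-22,258⟩ (.leaf false ⟨⟨102,21,-598⟩,⟨238,-558,21⟩,⟨549,238,102⟩⟩ (41,[(2,25266),(1,34),(3,21057)]) (123,[(2,2653),(1,238),(3,72738)]) (1,[(2,156),(0,1),(3,260)])) (.leaf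 false ⟨⟨-522,69,-302⟩,⟨22,-582,-171⟩,⟨309,158,-498⟩⟩ (36,[(1,57),(3,35308),(0,47)]) (19656,[(1,99555),(3,47222504),(0,21517)]) (1638,[(1,29427),(3,17613680),(0,5671)]))))) (.node ⟨0,0,1⟩ (.node ⟨-123,-22,594⟩ (.node ⟨-123,-594,-22⟩ (.node ⟨594,-122,-27⟩ (.leaf false ⟨⟨-123,-594,-22⟩,⟨22,-27,606⟩,⟨594,-122,-27⟩⟩ (1,[(1,1)]) (22,[(3,13354),(5,607),(1,1)]) (1,[(0,1)])) (.leaf false ⟨⟨-598,21,102⟩,⟨21,-558,238⟩,⟨102,238,549⟩⟩ (13354,[(5,29190023),(1,11877),(0,60126)]) (6677,[(5,48485946),(1,22051),(0,76824)]) (6677,[(5,99703392),(1,30276),(0,160435)]))) (.leaf false ⟨⟨-102,21,598⟩,⟨238,558,21⟩,⟨549,-238,102⟩⟩ (3212,[(4,40392),(1,3225),(0,233)]) (22,[(4,2653),(3,198),(0,21)]) (99,[(4,56442),(3,23188),(1,17)]))) (.node ⟨549,258,-22⟩ (.leaf false ⟨⟨102,-598,21⟩,⟨238,21,-558⟩,⟨549,102,238⟩⟩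 (41,[(2,21057),(1,34),(3,25266)]) (123,[(2,72738),(1,238),(3,2653)]) (1,[(2,260),(0,1),(3,156)])) (.leaf false ⟨⟨-522,-302,69⟩,⟨22,-171,-582⟩,⟨309,-498,158⟩⟩ (36,[(2,35308),(1,57),(0,47)]) (19656,[(2,47222504),(1,99555),(0,21517)]) (1638,[(2,17613680),(1,29427),(0,5671)])))) (.node ⟨-342,-363,-346⟩ (.node ⟨213,158,-546⟩ (.node ⟨518,-294,117⟩ (.leaf false ⟨⟨-234,-507,-238⟩,⟨213,158,-546⟩,⟨518,-294,117⟩⟩ (19,[(3,24),(4,4914),(2,13)]) (1,[(1,1)]) (1,[(0,1)])) (.leaf false ⟨⟨-582,22,-171⟩,⟨69,-522,-302⟩,⟨158,309,-498⟩⟩ (13,[(5,2276),(4,5300),(0,19)]) (117,[(5,164509),(4,149862),(0,302)]) (39,[(5,92150),(4,36753),(0,166)]))) (.leaf false ⟨⟨-462,-347,-186⟩,⟨126,-402,437⟩,⟨373,-294,-378⟩⟩ (158,[(2,218850),(4,915),(0,347)]) (79,[(2,75223),(4,52767),(0,201)]) (79,[(2,110124),(4,60778),(0,147)])))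 (.leaf false ⟨⟨102,-598,21⟩,⟨238,21,-558⟩,⟨549,102,238⟩⟩ (57,[(1,4685),(0,17),(2,40257)]) (171,[(1,136592),(0,119),(2,39606)]) (38,[(1,12062),(0,61),(2,18267)]))))) (.node ⟨0,1,0⟩ (.node ⟨0,0,1⟩ (.node ⟨-22,594,-123⟩ (.node ⟨-594,-22,-123⟩ (.node ⟨-122,-27,594⟩ (.leaf false ⟨⟨-594,-22,-123⟩,⟨-122,-27,594⟩,⟨-27,606,22⟩⟩ (1,[(1,1)]) (1,[(0,1)]) (22,[(3,607),(1,1),(4,13354)])) (.leaf false ⟨⟨-598,78,69⟩,⟨69,598,-78⟩,⟨78,69,598⟩⟩ (6677,[(3,19706862),(1,12831),(0,29744)]) (1214,[(3,19799733),(1,6463),(0,32154)]) (6677,[(3,16044224),(1,3156),(0,19635)]))) (.leaf false ⟨⟨-598,78,69⟩,⟨69,598,-78⟩,⟨78,69,598⟩⟩ (99,[(2,8430),(4,58916),(1,13)]) (16060,[(2,422088),(1,16077),(0,2461)]) (22,[(2,4669),(4,39270),(0,69)]))) (.node ⟨258,-22,549⟩ (.leaf false ⟨⟨-598,21,102⟩,⟨21,-558,238⟩,⟨102,238,549⟩⟩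 (41,[(4,25266),(3,21057),(1,34)]) (123,[(4,2653),(3,72738),(1,238)]) (1,[(4,156),(3,260),(0,1)])) (.leaf false ⟨⟨-606,-22,-27⟩,⟨-27,594,122⟩,⟨-22,-123,594⟩⟩ (21,[(3,204512),(1,348),(0,79)]) (19656,[(3,39045160),(1,46299),(0,6005)]) (3276,[(3,15906884),(1,27555),(0,2629)])))) (.node ⟨-346,-342,-363⟩ (.node ⟨-546,213,158⟩ (.node ⟨117,518,-294⟩ (.leaf false ⟨⟨-546,213,158⟩,⟨-238,-234,-507⟩,⟨117,518,-294⟩⟩ (1,[(1,1)]) (19,[(3,4914),(2,13),(5,24)]) (1,[(0,1)])) (.leaf false ⟨⟨-582,-59,162⟩,⟨-139,498,-318⟩,⟨-102,-342,-491⟩⟩ (39,[(3,50718),(0,194),(4,98191)]) (117,[(3,78072),(0,139),(4,130268)]) (39,[(3,29145),(0,34),(4,4274)]))) (.leaf false ⟨⟨-603,-22,-66⟩,⟨22,486,-363⟩,⟨66,-363,-482⟩⟩ (79,[(4,65655),(3,5291),(0,33)]) (158,[(4,194722),(3,154107),(0,363)]) (79,[(4,126372),(3,22656),(0,241)])))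 (.leaf false ⟨⟨-598,102,21⟩,⟨21,238,-558⟩,⟨102,549,238⟩⟩ (57,[(1,4974),(3,39968),(0,17)]) (171,[(1,138615),(3,37583),(0,119)]) (38,[(1,13099),(3,17230),(0,61)])))) (.node ⟨0,0,1⟩ (.node ⟨-346,-363,-342⟩ (.node ⟨-546,158,213⟩ (.node ⟨117,-294,518⟩ (.leaf false ⟨⟨-546,158,213⟩,⟨-238,-507,-234⟩,⟨117,-294,518⟩⟩ (1,[(1,1)]) (19,[(5,24),(2,13),(4,4914)]) (1,[(0,1)])) (.leaf false ⟨⟨-582,162,-59⟩,⟨-139,-318,498⟩,⟨-102,-491,-342⟩⟩ (39,[(3,98191),(0,194),(4,50718)]) (117,[(3,130268),(0,139),(4,78072)]) (39,[(3,4274),(0,34),(4,29145)]))) (.leaf false ⟨⟨-603,-66,-22⟩,⟨22,-363,486⟩,⟨66,-482,-363⟩⟩ (79,[(2,5291),(4,65655),(0,33)]) (158,[(2,154107),(4,194722),(0,363)]) (79,[(2,22656),(4,126372),(0,241)]))) (.leaf false ⟨⟨-598,21,102⟩,⟨21,-558,238⟩,⟨102,238,549⟩⟩ (57,[(3,39968),(2,4974),(0,17)])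 (171,[(3,37583),(2,138615),(0,119)]) (38,[(3,17230),(2,13099),(0,61)]))) (.leaf false ⟨⟨-607,0,0⟩,⟨0,-607,0⟩,⟨0,0,-607⟩⟩ (1,[(2,607)]) (1,[(1,607)]) (1,[(0,607)]))))
theorem h607_ok : h607.check (ok 607 4 ⟨3, 3, 3⟩) (fun _ r => r) [] = true := by decide +kernel

def h613 : T := .node ⟨1,0,0⟩ (.node ⟨0,1,0⟩ (.node ⟨0,0,1⟩ (.leaf false ⟨⟨0,0,613⟩,⟨0,613,0⟩,⟨613,0,0⟩⟩ (1,[(0,613)]) (1,[(1,613)]) (1,[(2,613)])) (.node ⟨-35,0,-612⟩ (.leaf false ⟨⟨-35,0,-612⟩,⟨0,613,0⟩,⟨612,0,-35⟩⟩ (1,[(0,1)]) (1,[(2,613)]) (612,[(3,375769),(0,35)])) (.node ⟨512,-315,-120⟩ (.leaf false ⟨⟨21,612,-28⟩,⟨172,21,588⟩,⟨588,-28,-171⟩⟩ (5,[(2,1976),(1,3),(3,3060)]) (35,[(2,84684),(1,172),(3,735)]) (128,[(2,4248),(0,147),(3,42721)])) (.leaf false ⟨⟨-512,336,-27⟩,⟨93,188,576⟩,⟨324,477,-208⟩⟩ (525,[(2,394719),(1,512),(0,560)])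 (11025,[(2,71276412),(1,125551),(0,6580)]) (1225,[(2,24024712),(1,38476),(0,1855)]))))) (.node ⟨0,0,1⟩ (.node ⟨-35,-612,0⟩ (.leaf false ⟨⟨-35,-612,0⟩,⟨0,0,613⟩,⟨612,-35,0⟩⟩ (1,[(0,1)]) (1,[(1,613)]) (612,[(3,375769),(0,35)])) (.node ⟨512,-120,-315⟩ (.leaf false ⟨⟨21,-28,612⟩,⟨172,588,21⟩,⟨588,-171,-28⟩⟩ (5,[(2,3060),(1,3),(3,1976)]) (35,[(2,735),(1,172),(3,84684)]) (128,[(2,42721),(0,147),(3,4248)])) (.leaf false ⟨⟨-512,-27,336⟩,⟨93,576,188⟩,⟨324,-208,477⟩⟩ (525,[(1,512),(3,394719),(0,560)]) (11025,[(1,125551),(3,71276412),(0,6580)]) (1225,[(1,38476),(3,24024712),(0,1855)])))) (.node ⟨120,125,-588⟩ (.node ⟨12,-600,125⟩ (.node ⟨552,253,-84⟩ (.node ⟨600,12,125⟩ (.leaf false ⟨⟨37,-600,-120⟩,⟨120,125,-588⟩,⟨600,12,125⟩⟩ (588,[(4,76625),(3,120),(2,613)]) (1,[(3,1)]) (1,[(0,1)]))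 (.leaf false ⟨⟨-568,-72,-219⟩,⟨132,-579,-152⟩,⟨189,188,-552⟩⟩ (2125,[(6,1130876),(2,177),(0,3900)]) (4490383,[(1,8949699),(2,7958909),(0,7405017)]) (32633,[(1,30124),(6,63857589),(0,123864)]))) (.leaf false ⟨⟨-420,-260,-363⟩,⟨188,-555,180⟩,⟨405,-12,-460⟩⟩ (46088,[(2,37893),(5,12574800),(0,66085)]) (5761,[(2,45),(5,8065988),(0,12660)]) (34566,[(2,29347),(5,19386318),(0,16139)]))) (.node ⟨-163,288,-516⟩ (.leaf false ⟨⟨-172,21,-588⟩,⟨21,-612,-28⟩,⟨588,28,-171⟩⟩ (43,[(5,591),(4,13209),(0,49)]) (129,[(5,3850),(4,80964),(0,7)]) (125,[(5,75552),(4,99100),(1,171)])) (.leaf false ⟨⟨-44,-363,-492⟩,⟨132,476,-363⟩,⟨597,-132,44⟩⟩ (14183,[(4,39527277),(1,57492),(0,404)]) (14183,[(4,63610964),(1,127281),(0,20856)]) (14183,[(4,161060220),(1,300880),(0,74097)])))) (.leaf false ⟨⟨-387,-440,180⟩,⟨120,-315,-512⟩,⟨460,-288,285⟩⟩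 (25,[(1,47244),(3,885),(0,88)]) (25,[(1,49844),(3,10560),(0,63)]) (125,[(1,133719),(3,92060),(0,288)]))))) (.node ⟨0,1,0⟩ (.node ⟨0,0,1⟩ (.node ⟨-612,-35,0⟩ (.leaf false ⟨⟨-612,-35,0⟩,⟨-35,612,0⟩,⟨0,0,613⟩⟩ (1,[(0,1)]) (612,[(0,35),(2,375769)]) (1,[(1,613)])) (.node ⟨-120,512,-315⟩ (.leaf false ⟨⟨-579,132,152⟩,⟨72,568,-219⟩,⟨188,189,552⟩⟩ (128,[(2,29851),(4,70152),(0,33)]) (13231,[(2,1631796),(0,14379),(1,4376)]) (5,[(2,2760),(4,15584),(1,27)])) (.leaf false ⟨⟨-604,-48,93⟩,⟨48,357,496⟩,⟨93,-496,348⟩⟩ (3675,[(4,8979084),(1,10832),(0,1085)]) (11025,[(4,225795084),(1,366407),(0,17360)]) (3675,[(4,4620369),(1,7312),(0,4060)])))) (.node ⟨12,600,125⟩ (.node ⟨125,120,-588⟩ (.leaf false ⟨⟨-600,37,-120⟩,⟨12,600,125⟩,⟨125,120,-588⟩⟩ (600,[(2,76625),(4,360444),(1,37)]) (1,[(1,1)])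 (1,[(0,1)])) (.leaf false ⟨⟨-588,-172,21⟩,⟨-171,588,28⟩,⟨-28,21,-612⟩⟩ (18390,[(2,52705127),(0,87684),(1,12265)]) (6130,[(2,6180879),(0,9138),(1,7835)]) (24520,[(2,18597807),(0,5684),(1,1995)]))) (.node ⟨-555,188,180⟩ (.leaf false ⟨⟨-611,12,48⟩,⟨-48,-288,-539⟩,⟨-12,541,-288⟩⟩ (41907,[(2,4549454),(1,13526),(0,45843)]) (1,[(2,39),(1,4),(3,2112)]) (1,[(2,163),(1,1),(3,1141)])) (.leaf false ⟨⟨-612,21,-28⟩,⟨21,-172,-588⟩,⟨28,588,-171⟩⟩ (45,[(4,31425),(3,2261),(0,7)]) (15,[(4,26880),(3,6632),(0,49)]) (20,[(4,9985),(3,15332),(0,19)]))))) (.node ⟨0,0,1⟩ (.node ⟨12,125,600⟩ (.node ⟨125,-588,120⟩ (.leaf false ⟨⟨-600,-120,37⟩,⟨12,125,600⟩,⟨125,-588,120⟩⟩ (600,[(4,360444),(3,76625),(1,37)]) (1,[(1,1)]) (1,[(0,1)])) (.leaf false ⟨⟨-588,21,-172⟩,⟨-171,28,588⟩,⟨-28,-612,21⟩⟩ (18390,[(3,52705127),(1,12265),(0,87684)])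 (6130,[(3,6180879),(1,7835),(0,9138)]) (24520,[(3,18597807),(1,1995),(0,5684)]))) (.node ⟨-555,180,188⟩ (.leaf false ⟨⟨-611,48,12⟩,⟨-48,-539,-288⟩,⟨-12,-288,541⟩⟩ (41907,[(0,45843),(1,13526),(3,4549454)]) (1,[(2,2112),(1,4),(3,39)]) (1,[(2,1141),(1,1),(3,163)])) (.leaf false ⟨⟨-612,-28,21⟩,⟨21,-588,-172⟩,⟨28,-171,588⟩⟩ (45,[(2,2261),(4,31425),(0,7)]) (15,[(2,6632),(4,26880),(0,49)]) (20,[(2,15332),(4,9985),(0,19)])))) (.node ⟨-288,352,-411⟩ (.node ⟨-579,-132,152⟩ (.node ⟨189,-552,-188⟩ (.leaf false ⟨⟨-579,-132,152⟩,⟨-188,189,-552⟩,⟨72,-568,-219⟩⟩ (1,[(1,1)]) (72,[(3,20427),(2,47),(4,2936)]) (21,[(3,3095),(4,7512),(0,8)])) (.leaf false ⟨⟨-568,189,132⟩,⟨-219,-552,-152⟩,⟨-72,188,-579⟩⟩ (189,[(3,81836),(0,568),(4,277815)]) (63,[(3,23300),(0,73),(4,75072)]) (21,[(3,13663),(0,8),(4,468)])))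 (.leaf false ⟨⟨-579,132,-152⟩,⟨-72,-568,-219⟩,⟨188,189,-552⟩⟩ (1,[(4,1158),(0,1)]) (152,[(4,137745),(3,115244),(0,219)]) (19,[(4,36379),(3,5517),(0,69)]))) (.leaf false ⟨⟨-579,-152,132⟩,⟨-72,-219,-568⟩,⟨188,-552,189⟩⟩ (44,[(1,2001),(3,30948),(0,19)]) (352,[(1,289945),(3,88416),(0,219)]) (44,[(1,20043),(3,11600),(0,69)])))))
theorem h613_ok : h613.check (ok 613 4 ⟨3, 3, 3⟩) (fun _ r => r) [] = true := by decide +kernel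

def h617 : T := .node ⟨1,0,0⟩ (.node ⟨0,1,0⟩ (.node ⟨0,0,1⟩ (.leaf false ⟨⟨0,0,617⟩,⟨0,617,0⟩,⟨617,0,0⟩⟩ (1,[(0,617)]) (1,[(1,617)]) (1,[(2,617)])) (.node ⟨0,608,105⟩ (.leaf false ⟨⟨0,105,-608⟩,⟨0,608,105⟩,⟨617,0,0⟩⟩ (608,[(1,380689),(0,105)]) (1,[(0,1)]) (1,[(3,617)])) (.node ⟨-228,-39,-572⟩ (.leaf false ⟨⟨-228,-39,-572⟩,⟨312,508,-159⟩,⟨481,-348,-168⟩⟩ (1,[(0,1)]) (35,[(1,53),(4,10920),(3,50004)]) (5,[(1,8),(4,2405),(3,3124)])) (.leaf false ⟨⟨0,617,0⟩,⟨105,0,-608⟩,⟨608,0,105⟩⟩ (1,[(3,617)]) (2660,[(1,22076),(0,1225),(3,13374433)]) (315,[(1,4261),(0,840),(3,2557928)]))))) (.node ⟨0,0,1⟩ (.node ⟨0,105,608⟩ (.leaf false ⟨⟨0,-608,105⟩,⟨0,105,608⟩,⟨617,0,0⟩⟩ (608,[(0,105),(2,380689)]) (1,[(0,1)]) (1,[(3,617)])) (.node ⟨-228,-572,-39⟩ (.leaf false ⟨⟨-228,-572,-39⟩,⟨312,-159,508⟩,⟨481,-168,-348⟩⟩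 (1,[(0,1)]) (35,[(2,50004),(4,10920),(1,53)]) (5,[(2,3124),(4,2405),(1,8)])) (.leaf false ⟨⟨0,0,617⟩,⟨105,-608,0⟩,⟨608,105,0⟩⟩ (1,[(2,617)]) (2660,[(2,13374433),(0,1225),(1,22076)]) (315,[(2,2557928),(0,840),(1,4261)])))) (.node ⟨-176,-588,-63⟩ (.node ⟨40,240,-567⟩ (.node ⟨-63,176,-588⟩ (.leaf false ⟨⟨-192,-535,-240⟩,⟨40,240,-567⟩,⟨585,-192,-40⟩⟩ (118944,[(5,351907),(2,118940),(0,35805)]) (1,[(1,1)]) (147,[(5,86625),(4,29984),(0,10)])) (.leaf false ⟨⟨-168,-567,-176⟩,⟨216,112,-567⟩,⟨553,-216,168⟩⟩ (28956060,[(2,30546703),(1,8451017),(0,2754936)]) (344715,[(2,176864),(1,1244011),(0,886128)]) (68943,[(2,76018),(1,493802),(0,504009)]))) (.leaf false ⟨⟨-159,-572,-168⟩,⟨312,-228,481⟩,⟨508,-39,-348⟩⟩ (147,[(2,15687),(4,1795),(1,143)]) (20,[(2,1153),(4,7000),(0,19)]) (80,[(2,35211),(4,41160),(0,13)])))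 (.leaf false ⟨⟨12,33,-616⟩,⟨396,472,33⟩,⟨473,-396,-12⟩⟩ (44,[(1,27293),(0,3),(2,312)]) (4,[(1,435),(0,9),(2,3404)]) (16,[(1,2901),(0,43),(2,31620)]))))) (.node ⟨0,1,0⟩ (.node ⟨0,0,1⟩ (.node ⟨105,0,608⟩ (.leaf false ⟨⟨-608,0,105⟩,⟨0,617,0⟩,⟨105,0,608⟩⟩ (608,[(3,380689),(0,105)]) (1,[(2,617)]) (1,[(0,1)])) (.node ⟨-572,-228,-39⟩ (.leaf false ⟨⟨-612,-72,-31⟩,⟨-68,609,-72⟩,⟨-39,68,612⟩⟩ (143,[(2,1534),(0,153),(3,24588)]) (105,[(2,33784),(1,68),(3,63945)]) (44,[(2,27045),(0,3),(3,3676)])) (.leaf false ⟨⟨-616,12,33⟩,⟨-12,473,-396⟩,⟨33,396,472⟩⟩ (665,[(2,2508516),(1,4092),(0,35)]) (23940,[(2,154744361),(1,273292),(0,49665)]) (95,[(2,566757),(1,869),(0,165)])))) (.node ⟨-63,-176,-588⟩ (.node ⟨-567,40,240⟩ (.node ⟨-588,-63,176⟩ (.leaf false ⟨⟨-608,-63,84⟩,⟨-84,588,-167⟩,⟨-63,-176,-588⟩⟩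 (147,[(3,14404),(0,152),(4,315)]) (7,[(3,1345),(0,1),(4,4179)]) (1,[(2,1)])) (.leaf false ⟨⟨-607,84,72⟩,⟨-24,292,-543⟩,⟨108,537,284⟩⟩ (1447803,[(2,632866),(1,3204833),(0,1663596)]) (9652020,[(2,14922493),(1,53288747),(0,52590456)]) (2413005,[(2,247951),(1,13000769),(0,13006227)]))) (.leaf false ⟨⟨-348,508,-39⟩,⟨-168,-159,-572⟩,⟨481,312,-228⟩⟩ (80,[(4,35211),(3,41160),(0,13)]) (147,[(1,143),(4,15687),(3,1795)]) (20,[(4,1153),(3,7000),(0,19)]))) (.leaf false ⟨⟨-616,12,33⟩,⟨-12,473,-396⟩,⟨33,396,472⟩⟩ (44,[(1,312),(3,27293),(0,3)]) (16,[(1,31620),(3,2901),(0,43)]) (4,[(1,3404),(3,435),(0,9)])))) (.node ⟨0,0,1⟩ (.node ⟨-63,-588,-176⟩ (.node ⟨-567,240,40⟩ (.node ⟨-588,176,-63⟩ (.leaf false ⟨⟨-608,84,-63⟩,⟨-84,-167,588⟩,⟨-63,-588,-176⟩⟩ (147,[(3,315),(0,152),(4,14404)]) (7,[(3,4179),(0,1),(4,1345)])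 (1,[(2,1)])) (.leaf false ⟨⟨-607,-24,108⟩,⟨72,-543,284⟩,⟨84,292,537⟩⟩ (7239015,[(1,20553613),(2,4834082),(0,12864564)]) (9604,[(1,49911),(2,14033),(0,50808)]) (114905,[(1,622403),(2,12037),(0,617879)]))) (.leaf false ⟨⟨-348,-39,508⟩,⟨-168,-572,-159⟩,⟨481,-228,312⟩⟩ (80,[(2,41160),(4,35211),(0,13)]) (147,[(2,1795),(4,15687),(1,143)]) (20,[(2,7000),(4,1153),(0,19)]))) (.leaf false ⟨⟨-616,-12,33⟩,⟨12,473,396⟩,⟨33,-396,472⟩⟩ (16,[(3,10045),(2,1956),(0,3)]) (4,[(3,519),(2,3400),(0,9)]) (22,[(3,2991),(2,43404),(0,59)]))) (.node ⟨-156,248,-543⟩ (.node ⟨-588,-103,156⟩ (.node ⟨228,-543,-184⟩ (.leaf false ⟨⟨-588,-103,156⟩,⟨-184,228,-543⟩,⟨33,-564,-248⟩⟩ (1,[(1,1)]) (1,[(2,1),(5,28),(4,20)]) (181,[(3,10296),(5,36891),(0,188)])) (.leaf false ⟨⟨-588,33,184⟩,⟨-156,248,-543⟩,⟨-103,-564,-228⟩⟩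 (19,[(3,5520),(0,49),(4,25980)]) (19,[(3,12709),(0,13),(4,2347)]) (228,[(3,70936),(0,103),(4,184521)]))) (.leaf false ⟨⟨-588,-156,-103⟩,⟨33,248,-564⟩,⟨184,-543,-228⟩⟩ (156,[(4,152292),(3,34945),(0,103)]) (13,[(4,27207),(3,1617),(0,47)]) (13,[(4,8780),(3,9016),(0,19)]))) (.leaf false ⟨⟨-607,-72,84⟩,⟨24,-543,-292⟩,⟨108,-284,537⟩⟩ (31,[(1,2283),(3,20221),(0,9)]) (248,[(1,367265),(3,78756),(0,543)]) (62,[(1,5259),(3,4380),(0,71)])))))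
theorem h617_ok : h617.check (ok 617 4 ⟨3, 3, 3⟩) (fun _ r => r) [] = true := by decide +kernel

def h619 : T := .node ⟨1,0,0⟩ (.node ⟨0,1,0⟩ (.node ⟨0,0,1⟩ (.node ⟨-330,306,425⟩ (.node ⟨306,450,-295⟩ (.node ⟨-330,425,306⟩ (.leaf false ⟨⟨-330,425,306⟩,⟨306,450,-295⟩,⟨425,6,450⟩⟩ (1,[(0,1)]) (1,[(1,1)]) (51,[(3,22525),(5,22005),(2,1)])) (.leaf false ⟨⟨-330,306,425⟩,⟨306,-295,450⟩,⟨425,450,6⟩⟩ (1,[(2,1)]) (119,[(1,119),(2,745),(0,745)]) (7548,[(1,12665),(2,26575),(0,24552)]))) (.leaf false ⟨⟨-434,-18,441⟩,⟨153,574,174⟩,⟨414,-231,398⟩⟩ (295,[(4,6916),(3,193140),(0,441)]) (295,[(4,98379),(3,247630),(0,174)]) (295,[(4,243918),(3,110955),(0,398)]))) (.leaf false ⟨⟨6,425,450⟩,⟨425,-330,306⟩,⟨450,306,-295⟩⟩ (55,[(1,25175),(0,1),(2,23681)]) (66,[(1,56321),(0,85),(2,4230)]) (11,[(1,3130),(0,15),(2,7956)])))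 (.node ⟨-174,582,-119⟩ (.node ⟨582,-174,-119⟩ (.node ⟨-135,-110,-594⟩ (.leaf false ⟨⟨-174,582,-119⟩,⟨-7,-126,-606⟩,⟨594,169,-42⟩⟩ (1,[(2,1)]) (45133,[(1,4092),(5,3407900),(0,45225)]) (17,[(1,6),(5,6606),(4,3917)])) (.leaf false ⟨⟨-119,606,-42⟩,⟨174,-7,-594⟩,⟨582,126,169⟩⟩ (48855,[(3,7152602),(0,18093),(2,47450)]) (29170,[(3,21718271),(1,6695),(0,8734)]) (1900549,[(1,1882464),(0,1072428),(2,771565)]))) (.leaf false ⟨⟨-551,246,138⟩,⟨6,313,-534⟩,⟨282,474,281⟩⟩ (29,[(2,877),(4,7883),(0,41)]) (174,[(2,130163),(4,183210),(0,313)]) (29,[(2,1252),(4,54156),(0,79)]))) (.leaf false ⟨⟨9,78,-614⟩,⟨398,-471,-54⟩,⟨474,394,57⟩⟩ (58,[(1,35969),(0,3),(2,6270)]) (87,[(1,28379),(0,199),(2,74841)]) (29,[(1,7748),(0,79),(2,57404)])))) (.node ⟨0,0,1⟩ (.node ⟨-174,-119,582⟩ (.node ⟨582,-119,-174⟩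 (.node ⟨-135,-594,-110⟩ (.leaf false ⟨⟨-174,-119,582⟩,⟨-7,-606,-126⟩,⟨594,-42,169⟩⟩ (1,[(2,1)]) (45133,[(5,3407900),(1,4092),(0,45225)]) (17,[(3,3917),(5,6606),(1,6)])) (.leaf false ⟨⟨-119,-42,606⟩,⟨174,-594,-7⟩,⟨582,169,126⟩⟩ (48855,[(4,7152602),(2,47450),(0,18093)]) (29170,[(1,6695),(4,21718271),(0,8734)]) (1900549,[(1,1882464),(2,771565),(0,1072428)]))) (.leaf false ⟨⟨-551,6,282⟩,⟨138,-534,281⟩,⟨246,313,474⟩⟩ (29,[(4,11375),(3,5419),(0,47)]) (174,[(4,187554),(3,126355),(0,281)]) (29,[(4,53112),(3,324),(0,79)]))) (.leaf false ⟨⟨9,-614,78⟩,⟨398,-54,-471⟩,⟨474,57,394⟩⟩ (58,[(1,6270),(0,3),(2,35969)]) (87,[(1,74841),(0,199),(2,28379)]) (29,[(1,57404),(0,79),(2,7748)]))) (.node ⟨606,-70,105⟩ (.node ⟨-70,-615,-6⟩ (.leaf false ⟨⟨-70,-615,-6⟩,⟨105,-6,-610⟩,⟨606,-70,105⟩⟩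 (1,[(0,1)]) (35,[(2,21665),(4,1857),(1,3)]) (1,[(1,1)])) (.leaf false ⟨⟨6,-615,-70⟩,⟨105,70,-606⟩,⟨610,-6,105⟩⟩ (35,[(2,2468),(0,3),(3,23370)]) (2,[(2,1230),(0,3),(3,1705)]) (619,[(0,70),(1,615),(3,3714)]))) (.leaf false ⟨⟨-606,42,-119⟩,⟨-7,-594,-174⟩,⟨126,169,-582⟩⟩ (15,[(3,1212),(2,560),(0,17)]) (35,[(3,34903),(2,24850),(0,58)]) (35,[(3,121974),(2,7665),(0,194)]))))) (.node ⟨0,1,0⟩ (.node ⟨0,0,1⟩ (.node ⟨-119,582,-174⟩ (.node ⟨-119,-174,582⟩ (.node ⟨-594,-135,-110⟩ (.leaf false ⟨⟨-606,-126,-7⟩,⟨-119,582,-174⟩,⟨-42,169,594⟩⟩ (99,[(3,10417),(0,101),(4,1161)]) (1,[(2,1)]) (17,[(3,6606),(1,6),(4,3917)])) (.leaf false ⟨⟨-594,-7,174⟩,⟨-42,606,-119⟩,⟨169,126,582⟩⟩ (51408,[(1,16675),(5,28032354),(2,4367)]) (29170,[(5,5108543),(2,27575),(0,12062)]) (3257,[(1,2157),(5,2649964),(0,5820)])))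 (.leaf false ⟨⟨-618,34,9⟩,⟨9,306,-538⟩,⟨34,537,306⟩⟩ (87,[(2,10677),(4,55789),(0,17)]) (29,[(2,14080),(4,5808),(0,51)]) (58,[(2,121926),(4,19329),(0,179)]))) (.leaf false ⟨⟨-618,9,34⟩,⟨9,-538,306⟩,⟨34,306,537⟩⟩ (87,[(3,55789),(2,10677),(0,17)]) (29,[(3,5808),(2,14080),(0,51)]) (58,[(3,19329),(2,121926),(0,179)]))) (.node ⟨-70,606,105⟩ (.node ⟨-615,-70,-6⟩ (.leaf false ⟨⟨-615,-70,-6⟩,⟨-70,606,105⟩,⟨-6,105,-610⟩⟩ (1,[(0,1)]) (1,[(1,1)]) (35,[(2,21665),(1,3),(3,1857)])) (.leaf false ⟨⟨-615,6,-70⟩,⟨-6,610,105⟩,⟨70,105,-606⟩⟩ (35,[(2,2468),(4,23370),(0,3)]) (619,[(4,3714),(1,615),(0,70)]) (2,[(2,1230),(4,1705),(0,3)]))) (.leaf false ⟨⟨-614,9,-78⟩,⟨54,-398,-471⟩,⟨57,474,-394⟩⟩ (35,[(3,23310),(2,16071),(0,26)]) (35,[(3,9100),(2,81212),(0,157)]) (105,[(3,21595),(2,288534),(0,394)]))))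 (.node ⟨0,0,1⟩ (.node ⟨-70,105,606⟩ (.node ⟨-615,-6,-70⟩ (.leaf false ⟨⟨-615,-6,-70⟩,⟨-70,105,606⟩,⟨-6,-610,105⟩⟩ (1,[(0,1)]) (1,[(1,1)]) (35,[(2,1857),(1,3),(3,21665)])) (.leaf false ⟨⟨-615,-70,6⟩,⟨-6,105,610⟩,⟨70,-606,105⟩⟩ (35,[(4,23370),(3,2468),(0,3)]) (619,[(1,615),(4,3714),(0,70)]) (2,[(4,1705),(3,1230),(0,3)]))) (.leaf false ⟨⟨-614,-78,9⟩,⟨54,-471,-398⟩,⟨57,-394,474⟩⟩ (35,[(1,16071),(3,23310),(0,26)]) (35,[(1,81212),(3,9100),(0,157)]) (105,[(1,288534),(3,21595),(0,394)]))) (.leaf false ⟨⟨-619,0,0⟩,⟨0,-619,0⟩,⟨0,0,-619⟩⟩ (1,[(2,619)]) (1,[(1,619)]) (1,[(0,619)]))))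
theorem h619_ok : h619.check (ok 619 4 ⟨3, 3, 3⟩) (fun _ r => r) [] = true := by decide +kernel

def h631 : T := .node ⟨1,0,0⟩ (.node ⟨0,1,0⟩ (.node ⟨0,0,1⟩ (.node ⟨-306,170,525⟩ (.node ⟨45,606,-170⟩ (.leaf false ⟨⟨-306,170,525⟩,⟨45,606,-170⟩,⟨550,45,306⟩⟩ (1,[(1,1)]) (1,[(0,1)]) (34,[(2,5679),(4,21454),(1,9)])) (.leaf false ⟨⟨-306,45,550⟩,⟨170,606,45⟩,⟨525,-170,306⟩⟩ (631,[(3,28395),(1,606),(0,170)]) (35,[(4,6868),(3,20700),(1,3)]) (5,[(4,3030),(3,4604),(0,9)]))) (.leaf false ⟨⟨45,494,390⟩,⟨390,285,-406⟩,⟨494,-270,285⟩⟩ (34,[(1,15885),(0,5),(2,17646)]) (51,[(1,13419),(0,65),(2,25585)]) (153,[(1,173280),(0,247),(2,680)]))) (.node ⟨-102,621,-46⟩ (.node ⟨621,-102,-46⟩ (.node ⟨-366,269,-438⟩ (.node ⟨102,621,46⟩ (.leaf false ⟨⟨-46,54,-627⟩,⟨102,621,46⟩,⟨621,-98,-54⟩⟩ (269,[(4,145011),(6,7390),(1,54)])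 (1,[(0,1)]) (51,[(4,500),(2,49),(6,1242)])) (.leaf false ⟨⟨-558,-46,-291⟩,⟨189,-534,-278⟩,⟨226,333,-486⟩⟩ (46,[(6,4014),(5,178595),(0,291)]) (23,[(6,18525),(5,74037),(0,139)]) (23,[(6,29984),(5,158562),(0,243)]))) (.leaf false ⟨⟨-46,558,-291⟩,⟨333,-226,-486⟩,⟨534,189,278⟩⟩ (99924,[(3,30873892),(0,14175),(2,95927)]) (66616,[(3,59096360),(0,61247),(2,2287)]) (16654,[(3,7361936),(0,29241),(2,17735)]))) (.leaf false ⟨⟨-550,306,45⟩,⟨45,170,-606⟩,⟨306,525,170⟩⟩ (1,[(2,93),(4,1313),(0,3)]) (3,[(2,2048),(4,3240),(0,5)]) (34,[(2,2270),(4,119079),(0,175)]))) (.leaf false ⟨⟨6,406,-483⟩,⟨189,-462,-386⟩,⟨602,141,126⟩⟩ (17,[(1,8257),(0,1),(2,7523)]) (34,[(1,16022),(0,63),(2,23415)]) (51,[(1,7420),(0,301),(2,194112)])))) (.node ⟨0,0,1⟩ (.node ⟨-102,-46,621⟩ (.node ⟨621,-46,-102⟩ (.node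 ⟨-366,-438,269⟩ (.node ⟨102,46,621⟩ (.leaf false ⟨⟨-46,-627,54⟩,⟨102,46,621⟩,⟨621,-54,-98⟩⟩ (269,[(6,7390),(5,145011),(1,54)]) (1,[(0,1)]) (51,[(6,1242),(2,49),(5,500)])) (.leaf false ⟨⟨-558,-291,-46⟩,⟨189,-278,-534⟩,⟨226,-486,333⟩⟩ (46,[(4,178595),(6,4014),(0,291)]) (23,[(4,74037),(6,18525),(0,139)]) (23,[(4,158562),(6,29984),(0,243)]))) (.leaf false ⟨⟨-46,-291,558⟩,⟨333,-486,-226⟩,⟨534,278,189⟩⟩ (99924,[(4,30873892),(2,95927),(0,14175)]) (66616,[(4,59096360),(2,2287),(0,61247)]) (16654,[(4,7361936),(2,17735),(0,29241)]))) (.leaf false ⟨⟨-550,45,306⟩,⟨45,-606,170⟩,⟨306,170,525⟩⟩ (1,[(4,1313),(3,93),(0,3)]) (3,[(4,3240),(3,2048),(0,5)]) (34,[(4,119079),(3,2270),(0,175)]))) (.leaf false ⟨⟨6,-483,406⟩,⟨189,-386,-462⟩,⟨602,126,141⟩⟩ (17,[(1,7523),(0,1),(2,8257)]) (34,[(1,23415),(0,63),(2,16022)])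 (51,[(1,194112),(0,301),(2,7420)]))) (.node ⟨594,-35,210⟩ (.node ⟨-35,-594,210⟩ (.leaf false ⟨⟨-35,-630,-6⟩,⟨210,-6,-595⟩,⟨594,-35,210⟩⟩ (33,[(2,7548),(4,70),(0,35)]) (35,[(2,22085),(4,3786),(1,6)]) (1,[(1,1)])) (.leaf false ⟨⟨26,-66,-627⟩,⟨429,-458,66⟩,⟨462,429,-26⟩⟩ (35,[(2,16485),(0,26),(3,17754)]) (18,[(2,1542),(1,13),(3,7789)]) (66045,[(0,56232),(1,48055),(3,3386578)]))) (.leaf false ⟨⟨-570,-19,-270⟩,⟨30,-630,-19⟩,⟨269,30,-570⟩⟩ (7,[(3,1356),(2,448),(0,9)]) (210,[(3,17586),(2,132965),(0,19)]) (7,[(3,13169),(2,455),(0,19)]))))) (.node ⟨0,1,0⟩ (.node ⟨0,0,1⟩ (.node ⟨-46,621,-102⟩ (.node ⟨-46,-102,621⟩ (.node ⟨-438,-366,269⟩ (.node ⟨46,102,621⟩ (.leaf false ⟨⟨-627,-46,54⟩,⟨-54,621,-98⟩,⟨46,102,621⟩⟩ (269,[(1,54),(6,145011),(5,7390)]) (51,[(6,500),(3,49),(5,1242)])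 (1,[(0,1)])) (.leaf false ⟨⟨-627,-54,-46⟩,⟨-54,98,621⟩,⟨-46,621,-102⟩⟩ (46,[(4,387251),(0,627),(5,61470)]) (23,[(4,31050),(0,27),(5,5008)]) (1,[(4,519),(0,1),(5,723)]))) (.leaf false ⟨⟨-627,54,46⟩,⟨46,621,-102⟩,⟨54,98,621⟩⟩ (33308,[(1,5227),(5,23434172),(0,6371)]) (66616,[(1,43239),(5,49731272),(0,125079)]) (24981,[(1,31706),(5,3992500),(0,15525)]))) (.leaf false ⟨⟨-627,26,-66⟩,⟨-26,462,429⟩,⟨66,429,-458⟩⟩ (51,[(2,4707),(4,32575),(0,13)]) (17,[(2,55110),(4,3984),(0,77)]) (34,[(2,73231),(4,4334),(0,143)]))) (.leaf false ⟨⟨-627,-66,26⟩,⟨-26,429,462⟩,⟨66,-458,429⟩⟩ (51,[(3,32575),(2,4707),(0,13)]) (17,[(3,3984),(2,55110),(0,77)]) (34,[(3,4334),(2,73231),(0,143)]))) (.node ⟨-35,594,210⟩ (.node ⟨-594,-35,210⟩ (.leaf false ⟨⟨-630,-35,-6⟩,⟨-35,594,210⟩,⟨-6,210,-595⟩⟩ (33,[(2,7548),(0,35),(3,70)])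 (1,[(1,1)]) (35,[(2,22085),(1,6),(3,3786)])) (.leaf false ⟨⟨-483,126,-386⟩,⟨6,602,189⟩,⟨406,141,-462⟩⟩ (33,[(2,14208),(4,15694),(1,7)]) (6290,[(4,140891),(1,6335),(0,674)]) (3145,[(4,3011896),(1,320),(0,7239)]))) (.leaf false ⟨⟨-630,30,-19⟩,⟨-19,-570,-270⟩,⟨30,269,-570⟩⟩ (210,[(3,132965),(2,17586),(0,19)]) (7,[(3,448),(2,1356),(0,9)]) (7,[(3,455),(2,13169),(0,19)])))) (.node ⟨0,0,1⟩ (.node ⟨-35,210,594⟩ (.node ⟨-594,210,-35⟩ (.leaf false ⟨⟨-630,-6,-35⟩,⟨-35,210,594⟩,⟨-6,-595,210⟩⟩ (33,[(2,70),(0,35),(3,7548)]) (1,[(1,1)]) (35,[(2,3786),(1,6),(3,22085)])) (.leaf false ⟨⟨-483,-386,126⟩,⟨6,189,602⟩,⟨406,-462,141⟩⟩ (33,[(1,7),(4,15694),(3,14208)]) (6290,[(1,6335),(4,140891),(0,674)]) (3145,[(1,320),(4,3011896),(0,7239)]))) (.leaf false ⟨⟨-630,-19,30⟩,⟨-19,-270,-570⟩,⟨30,-570,269⟩⟩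 (210,[(1,17586),(3,132965),(0,19)]) (7,[(1,1356),(3,448),(0,9)]) (7,[(1,13169),(3,455),(0,19)]))) (.leaf false ⟨⟨-631,0,0⟩,⟨0,-631,0⟩,⟨0,0,-631⟩⟩ (1,[(2,631)]) (1,[(1,631)]) (1,[(0,631)]))))
theorem h631_ok : h631.check (ok 631 4 ⟨3, 3, 3⟩) (fun _ r => r) [] = true := by decide +kernel

def h641 : T := .node ⟨1,0,0⟩ (.node ⟨0,1,0⟩ (.node ⟨0,0,1⟩ (.leaf false ⟨⟨0,0,641⟩,⟨0,641,0⟩,⟨641,0,0⟩⟩ (1,[(0,641)]) (1,[(1,641)]) (1,[(2,641)])) (.node ⟨588,56,249⟩ (.node ⟨-56,588,249⟩ (.node ⟨-84,241,-588⟩ (.leaf false ⟨⟨-84,241,-588⟩,⟨-56,588,249⟩,⟨633,84,-56⟩⟩ (1,[(0,1)]) (1,[(1,1)]) (7,[(3,641),(5,4487),(1,1)])) (.leaf false ⟨⟨-56,633,-84⟩,⟨249,-56,-588⟩,⟨588,84,241⟩⟩ (1282,[(3,513441),(0,90),(1,1417)]) (35896,[(3,119124081),(0,143276),(1,55305)]) (1282,[(3,8373383),(0,12516),(1,5313)])))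 (.leaf false ⟨⟨36,264,-583⟩,⟨308,-519,-216⟩,⟨561,268,156⟩⟩ (14,[(2,5921),(0,9),(3,8988)]) (2492,[(2,235239),(0,2303),(1,1086)]) (196,[(2,15987),(1,187),(3,42056)]))) (.leaf false ⟨⟨-376,-12,-519⟩,⟨57,636,-56⟩,⟨516,-79,-372⟩⟩ (83,[(3,70516),(2,8692),(0,173)]) (249,[(3,47121),(2,161500),(0,56)]) (83,[(3,115740),(2,387),(0,124)])))) (.node ⟨0,0,1⟩ (.node ⟨588,249,56⟩ (.node ⟨-56,249,588⟩ (.node ⟨-84,-588,241⟩ (.leaf false ⟨⟨-84,-588,241⟩,⟨-56,249,588⟩,⟨633,-56,84⟩⟩ (1,[(0,1)]) (1,[(1,1)]) (7,[(5,4487),(4,641),(1,1)])) (.leaf false ⟨⟨-56,-84,633⟩,⟨249,-588,-56⟩,⟨588,241,84⟩⟩ (1282,[(4,513441),(1,1417),(0,90)]) (35896,[(4,119124081),(1,55305),(0,143276)]) (1282,[(4,8373383),(1,5313),(0,12516)]))) (.leaf false ⟨⟨36,-583,264⟩,⟨308,-216,-519⟩,⟨561,156,268⟩⟩ (14,[(2,8988),(0,9),(3,5921)])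 (2492,[(1,1086),(0,2303),(3,235239)]) (196,[(2,42056),(1,187),(3,15987)]))) (.leaf false ⟨⟨-376,-519,-12⟩,⟨57,-56,636⟩,⟨516,-372,-79⟩⟩ (83,[(1,8692),(3,70516),(0,173)]) (249,[(1,161500),(3,47121),(0,56)]) (83,[(1,387),(3,115740),(0,124)]))) (.node ⟨384,-380,345⟩ (.node ⟨-268,-519,-264⟩ (.node ⟨156,216,-583⟩ (.leaf false ⟨⟨-268,-519,-264⟩,⟨156,216,-583⟩,⟨561,-308,36⟩⟩ (1,[(1,1)]) (1,[(0,1)]) (95,[(3,23145),(5,23727),(2,77)])) (.leaf false ⟨⟨-308,-519,216⟩,⟨36,-264,-583⟩,⟨561,-268,156⟩⟩ (72,[(3,85307),(5,4812),(0,173)]) (9,[(3,11660),(5,2040),(0,11)]) (54,[(3,30637),(5,40746),(0,67)]))) (.leaf false ⟨⟨16,-639,-48⟩,⟨384,48,-511⟩,⟨513,-16,384⟩⟩ (67,[(2,4272),(0,4),(3,44889)]) (67,[(2,59581),(0,96),(3,46608)]) (268,[(2,32520),(0,513),(3,270535)]))) (.leaf false ⟨⟨-447,-56,-456⟩,⟨264,-552,-191⟩,⟨376,321,-408⟩⟩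 (115,[(3,6963),(2,64200),(0,152)]) (345,[(3,164424),(2,263020),(0,191)]) (115,[(3,95464),(2,14765),(0,136)]))))) (.node ⟨0,1,0⟩ (.node ⟨0,0,1⟩ (.node ⟨249,56,588⟩ (.node ⟨249,588,-56⟩ (.node ⟨-588,241,-84⟩ (.leaf false ⟨⟨-588,241,-84⟩,⟨-56,84,633⟩,⟨249,588,-56⟩⟩ (1,[(0,1)]) (7,[(3,4487),(5,641),(1,1)]) (1,[(1,1)])) (.leaf false ⟨⟨-615,-84,160⟩,⟨16,540,345⟩,⟨180,-335,516⟩⟩ (4487,[(5,10309203),(1,3938),(0,11172)]) (35896,[(5,168486209),(1,128505),(0,233100)]) (4487,[(5,23108691),(1,12027),(0,35581)]))) (.leaf false ⟨⟨-600,-191,120⟩,⟨-159,600,160⟩,⟨160,-120,609⟩⟩ (7,[(4,465),(3,7483),(0,15)]) (147,[(4,33333),(3,85960),(1,40)]) (140,[(4,2251),(1,141),(0,42)]))) (.leaf false ⟨⟨-519,-12,-376⟩,⟨-372,-79,516⟩,⟨-56,636,57⟩⟩ (83,[(1,70516),(0,173),(2,8692)]) (83,[(1,115740),(0,124),(2,387)])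 (249,[(1,47121),(0,56),(2,161500)]))) (.node ⟨-380,384,345⟩ (.node ⟨-519,-268,-264⟩ (.node ⟨216,156,-583⟩ (.leaf false ⟨⟨-519,-268,-264⟩,⟨-308,561,36⟩,⟨216,156,-583⟩⟩ (1,[(1,1)]) (95,[(3,23145),(2,77),(4,23727)]) (1,[(0,1)])) (.leaf false ⟨⟨-576,-264,97⟩,⟨-232,321,-504⟩,⟨-159,488,384⟩⟩ (3,[(3,4373),(0,8),(4,456)]) (27,[(3,30515),(0,29),(4,13191)]) (72,[(3,3251),(0,53),(4,43404)]))) (.leaf false ⟨⟨-639,16,-48⟩,⟨-16,513,384⟩,⟨48,384,-511⟩⟩ (67,[(2,4272),(4,44889),(0,4)]) (268,[(2,32520),(4,270535),(0,513)]) (67,[(2,59581),(4,46608),(0,96)]))) (.leaf false ⟨⟨-639,-16,-48⟩,⟨16,513,-384⟩,⟨48,-384,-511⟩⟩ (115,[(3,79565),(2,4304),(0,16)]) (115,[(3,46800),(2,108147),(0,128)]) (345,[(3,177620),(2,63744),(0,511)])))) (.node ⟨0,0,1⟩ (.node ⟨-380,345,384⟩ (.node ⟨-519,-264,-268⟩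 (.node ⟨216,-583,156⟩ (.leaf false ⟨⟨-519,-264,-268⟩,⟨-308,36,561⟩,⟨216,-583,156⟩⟩ (1,[(1,1)]) (95,[(3,23727),(2,77),(4,23145)]) (1,[(0,1)])) (.leaf false ⟨⟨-576,97,-264⟩,⟨-232,-504,321⟩,⟨-159,384,488⟩⟩ (3,[(3,456),(0,8),(4,4373)]) (27,[(3,13191),(0,29),(4,30515)]) (72,[(3,43404),(0,53),(4,3251)]))) (.leaf false ⟨⟨-639,-48,16⟩,⟨-16,384,513⟩,⟨48,-511,384⟩⟩ (67,[(4,44889),(3,4272),(0,4)]) (268,[(4,270535),(3,32520),(0,513)]) (67,[(4,46608),(3,59581),(0,96)]))) (.leaf false ⟨⟨-639,-48,-16⟩,⟨16,-384,513⟩,⟨48,-511,-384⟩⟩ (115,[(1,4304),(3,79565),(0,16)]) (115,[(1,108147),(3,46800),(0,128)]) (345,[(1,63744),(3,177620),(0,511)]))) (.node ⟨-160,345,-516⟩ (.node ⟨-596,-156,177⟩ (.node ⟨48,-551,-324⟩ (.leaf false ⟨⟨-596,-156,177⟩,⟨-231,288,-524⟩,⟨48,-551,-324⟩⟩ (1,[(1,1)]) (129,[(2,131),(5,8839),(4,8043)])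 (1,[(0,1)])) (.leaf false ⟨⟨-615,-16,180⟩,⟨-160,345,-516⟩,⟨-84,-540,-335⟩⟩ (16,[(3,63540),(0,205),(4,113211)]) (3,[(3,4788),(0,10),(4,4475)]) (4,[(3,3608),(0,7),(4,6017)]))) (.leaf false ⟨⟨-636,-12,-79⟩,⟨56,-519,-372⟩,⟨57,376,-516⟩⟩ (177,[(4,159656),(3,14448),(0,79)]) (59,[(4,70600),(3,49965),(0,124)]) (59,[(4,99149),(3,4648),(0,172)]))) (.leaf false ⟨⟨-639,-48,-16⟩,⟨16,-384,513⟩,⟨48,-511,-384⟩⟩ (115,[(1,10096),(3,76045),(0,16)]) (115,[(1,7053),(3,18640),(0,128)]) (345,[(1,396156),(3,65200),(0,511)])))))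
theorem h641_ok : h641.check (ok 641 4 ⟨3, 3, 3⟩) (fun _ r => r) [] = true := by decide +kernel

def h643 : T := .node ⟨1,0,0⟩ (.node ⟨0,1,0⟩ (.node ⟨0,0,1⟩ (.node ⟨-374,102,513⟩ (.node ⟨266,513,-282⟩ (.node ⟨378,-198,481⟩ (.leaf false ⟨⟨-239,462,378⟩,⟨378,-198,481⟩,⟨462,401,-198⟩⟩ (19,[(5,695),(4,7350),(2,14)]) (1,[(0,1)]) (47,[(5,12936),(1,33),(4,1918)])) (.leaf false ⟨⟨-582,266,-63⟩,⟨14,177,618⟩,⟨273,558,-166⟩⟩ (261,[(3,70048),(0,295),(2,108)]) (66,[(3,69167),(5,23226),(0,59)]) (11,[(3,13085),(5,14721),(0,31)]))) (.leaf false ⟨⟨-418,150,465⟩,⟨150,-543,310⟩,⟨465,310,318⟩⟩ (94,[(4,1938),(3,93615),(0,155)]) (141,[(4,62380),(3,2952),(0,155)]) (47,[(4,35953),(3,41759),(0,53)]))) (.leaf false ⟨⟨33,634,102⟩,⟨374,-102,513⟩,⟨522,33,-374⟩⟩ (34,[(1,5007),(0,3),(2,21862)]) (1,[(1,1026),(0,1)])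 (187,[(1,63955),(0,261),(2,32793)]))) (.node ⟨-150,150,-607⟩ (.node ⟨150,570,257⟩ (.node ⟨618,-95,-150⟩ (.leaf false ⟨⟨-95,282,-570⟩,⟨150,570,257⟩,⟨618,-95,-150⟩⟩ (30,[(3,5567),(4,5610),(2,19)]) (1,[(1,1)]) (1,[(0,1)])) (.leaf false ⟨⟨-634,102,33⟩,⟨33,374,-522⟩,⟨102,513,374⟩⟩ (95,[(3,12165),(5,2806),(0,102)]) (95,[(3,105690),(5,234267),(0,374)]) (5,[(3,2180),(5,17196),(0,27)]))) (.leaf false ⟨⟨-319,-18,-558⟩,⟨18,642,-31⟩,⟨558,-31,-318⟩⟩ (257,[(4,1717),(3,313434),(0,558)]) (257,[(4,9276),(3,182664),(0,31)]) (257,[(4,191106),(3,173293),(0,318)]))) (.leaf false ⟨⟨14,177,-618⟩,⟨273,558,166⟩,⟨582,-266,-63⟩⟩ (75,[(1,50599),(0,7),(2,14325)]) (50,[(1,46937),(0,91),(2,41550)]) (25,[(1,60454),(0,97),(2,7900)])))) (.node ⟨0,0,1⟩ (.node ⟨-150,-607,150⟩ (.node ⟨150,257,570⟩ (.node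 ⟨618,-150,-95⟩ (.leaf false ⟨⟨-95,-570,282⟩,⟨150,257,570⟩,⟨618,-150,-95⟩⟩ (30,[(3,5610),(4,5567),(2,19)]) (1,[(1,1)]) (1,[(0,1)])) (.leaf false ⟨⟨-634,33,102⟩,⟨33,-522,374⟩,⟨102,374,513⟩⟩ (95,[(5,2806),(4,12165),(0,102)]) (95,[(5,234267),(4,105690),(0,374)]) (5,[(5,17196),(4,2180),(0,27)]))) (.leaf false ⟨⟨-319,-558,-18⟩,⟨18,-31,642⟩,⟨558,-318,-31⟩⟩ (257,[(2,313434),(4,1717),(0,558)]) (257,[(2,182664),(4,9276),(0,31)]) (257,[(2,173293),(4,191106),(0,318)]))) (.leaf false ⟨⟨14,-618,177⟩,⟨273,166,558⟩,⟨582,-63,-266⟩⟩ (75,[(1,14325),(0,7),(2,50599)]) (50,[(1,41550),(0,91),(2,46937)]) (25,[(1,7900),(0,97),(2,60454)]))) (.node ⟨582,-175,210⟩ (.node ⟨-198,-591,-158⟩ (.node ⟨129,198,-598⟩ (.leaf false ⟨⟨-198,-591,-158⟩,⟨129,122,-618⟩,⟨598,-222,81⟩⟩ (1,[(1,1)]) (1,[(3,20),(0,1),(4,76)])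 (70,[(5,26146),(2,27),(4,10815)])) (.leaf false ⟨⟨-319,-522,-198⟩,⟨198,-319,522⟩,⟨522,-198,-319⟩⟩ (11,[(3,19520),(5,232),(0,29)]) (18,[(3,7946),(5,7305),(0,29)]) (1,[(3,917),(5,651),(0,1)]))) (.leaf false ⟨⟨33,-234,-598⟩,⟨234,562,-207⟩,⟨598,-207,114⟩⟩ (6,[(2,3746),(0,1),(3,1995)]) (11,[(2,4331),(0,13),(3,1501)]) (99,[(2,35956),(0,299),(3,197202)]))) (.leaf false ⟨⟨-570,-95,-282⟩,⟨150,-618,-95⟩,⟨257,150,-570⟩⟩ (35,[(3,7404),(2,11550),(0,47)]) (42,[(3,17358),(2,29281),(0,19)]) (7,[(3,12857),(2,2275),(0,19)]))))) (.node ⟨0,1,0⟩ (.node ⟨0,0,1⟩ (.node ⟨-607,-150,150⟩ (.node ⟨257,150,570⟩ (.node ⟨-150,618,-95⟩ (.leaf false ⟨⟨-570,-95,282⟩,⟨-150,618,-95⟩,⟨257,150,570⟩⟩ (30,[(3,5610),(2,19),(5,5567)]) (1,[(0,1)]) (1,[(1,1)])) (.leaf false ⟨⟨-642,14,33⟩,⟨14,-447,462⟩,⟨33,462,446⟩⟩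 (95,[(5,65940),(4,21724),(0,33)]) (95,[(5,67970),(4,243051),(0,462)]) (95,[(5,63765),(4,319518),(0,446)]))) (.leaf false ⟨⟨-607,-150,-150⟩,⟨-150,-18,625⟩,⟨-150,625,-18⟩⟩ (257,[(2,307440),(0,607),(3,52500)]) (257,[(2,246125),(0,150),(3,17874)]) (257,[(2,80874),(0,150),(3,183125)]))) (.leaf false ⟨⟨-642,33,14⟩,⟨14,462,-447⟩,⟨33,446,462⟩⟩ (50,[(1,2350),(3,38777),(0,11)]) (25,[(1,375),(3,46389),(0,77)]) (75,[(1,68100),(3,132886),(0,223)]))) (.node ⟨-175,582,210⟩ (.node ⟨-591,-198,-158⟩ (.node ⟨198,129,-598⟩ (.leaf false ⟨⟨-591,-198,-158⟩,⟨-222,598,81⟩,⟨122,129,-618⟩⟩ (1,[(1,1)]) (70,[(5,10815),(2,27),(4,26146)]) (1,[(3,20),(5,76),(0,1)])) (.leaf false ⟨⟨-618,-175,-30⟩,⟨-175,582,210⟩,⟨-30,210,-607⟩⟩ (33,[(3,62584),(0,103),(4,7512)]) (198,[(3,63070),(0,175),(4,137811)]) (33,[(3,23021),(0,5),(4,7575)])))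 (.leaf false ⟨⟨-634,102,33⟩,⟨33,374,-522⟩,⟨102,513,374⟩⟩ (33,[(2,1597),(4,30969),(0,17)]) (9,[(2,7384),(4,9750),(0,17)]) (22,[(2,778),(4,31443),(0,57)]))) (.leaf false ⟨⟨-642,33,-14⟩,⟨-14,-462,-447⟩,⟨33,446,-462⟩⟩ (15,[(3,9805),(2,1077),(0,1)]) (70,[(3,27055),(2,54378),(0,149)]) (5,[(3,1760),(2,8632),(0,11)])))) (.node ⟨0,0,1⟩ (.node ⟨-175,210,582⟩ (.node ⟨-591,-158,-198⟩ (.node ⟨198,-598,129⟩ (.leaf false ⟨⟨-591,-222,-122⟩,⟨-158,81,618⟩,⟨198,-598,129⟩⟩ (1,[(3,76),(1,1),(4,64)]) (175,[(3,16194),(2,158),(4,19005)]) (1,[(0,1)])) (.leaf false ⟨⟨-618,-30,-175⟩,⟨-175,210,582⟩,⟨-30,-607,210⟩⟩ (33,[(3,7512),(0,103),(4,62584)]) (198,[(3,137811),(0,175),(4,63070)]) (33,[(3,7575),(0,5),(4,23021)]))) (.leaf false ⟨⟨-634,33,102⟩,⟨33,-522,374⟩,⟨102,374,513⟩⟩ (33,[(4,30969),(3,1597),(0,17)])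 (9,[(4,9750),(3,7384),(0,17)]) (22,[(4,31443),(3,778),(0,57)]))) (.leaf false ⟨⟨-642,-14,33⟩,⟨-14,-447,-462⟩,⟨33,-462,446⟩⟩ (15,[(1,1077),(3,9805),(0,1)]) (70,[(1,54378),(3,27055),(0,149)]) (5,[(1,8632),(3,1760),(0,11)]))) (.leaf false ⟨⟨-643,0,0⟩,⟨0,-643,0⟩,⟨0,0,-643⟩⟩ (1,[(2,643)]) (1,[(1,643)]) (1,[(0,643)]))))
theorem h643_ok : h643.check (ok 643 4 ⟨3, 3, 3⟩) (fun _ r => r) [] = true := by decide +kernel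

def h647 : T := .node ⟨1,0,0⟩ (.node ⟨0,1,0⟩ (.node ⟨0,0,1⟩ (.node ⟨-406,333,378⟩ (.node ⟨334,498,-243⟩ (.node ⟨334,-243,498⟩ (.leaf false ⟨⟨-282,397,426⟩,⟨334,498,-243⟩,⟨477,-114,422⟩⟩ (63,[(5,11060),(4,1368),(2,71)]) (1,[(1,1)]) (81,[(3,15258),(0,38),(5,25945)])) (.leaf false ⟨⟨-510,397,30⟩,⟨278,390,-435⟩,⟨285,330,478⟩⟩ (243,[(3,204996),(5,8668),(0,397)]) (81,[(3,29505),(5,65938),(0,130)]) (81,[(3,93498),(5,59825),(0,110)]))) (.leaf false ⟨⟨-510,30,397⟩,⟨278,-435,390⟩,⟨285,478,330⟩⟩ (243,[(4,8668),(3,204996),(0,397)]) (81,[(4,65938),(3,29505),(0,130)]) (81,[(4,59825),(3,93498),(0,110)]))) (.leaf false ⟨⟨78,125,630⟩,⟨370,510,-147⟩,⟨525,-378,10⟩⟩ (203,[(1,142632),(0,39),(2,38362)]) (203,[(1,40089),(0,185),(2,165135)]) (58,[(1,28930),(0,75),(2,3051)]))) (.node ⟨-162,138,-611⟩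 (.node ⟨118,621,138⟩ (.node ⟨621,-82,-162⟩ (.leaf false ⟨⟨-138,162,-611⟩,⟨118,621,138⟩,⟨621,-82,-162⟩⟩ (1,[(5,24),(4,24),(2,1)]) (1,[(1,1)]) (1,[(0,1)])) (.leaf false ⟨⟨-638,93,54⟩,⟨54,558,-323⟩,⟨93,314,558⟩⟩ (82,[(3,10638),(5,5437),(0,93)]) (41,[(3,58441),(5,175473),(0,279)]) (41,[(3,2556),(5,101310),(0,157)]))) (.leaf false ⟨⟨-402,154,-483⟩,⟨294,573,-62⟩,⟨413,-258,-426⟩⟩ (2,[(4,22),(3,4655),(0,7)]) (69,[(4,23944),(3,58788),(0,31)]) (23,[(4,17877),(3,38157),(0,71)]))) (.leaf false ⟨⟨6,237,-602⟩,⟨413,462,186⟩,⟨498,-386,-147⟩⟩ (27,[(1,16865),(0,1),(2,6537)]) (162,[(1,222211),(0,413),(2,131838)]) (27,[(1,54682),(0,83),(2,1032)])))) (.node ⟨0,0,1⟩ (.node ⟨-162,-611,138⟩ (.node ⟨118,138,621⟩ (.node ⟨621,-162,-82⟩ (.leaf false ⟨⟨-138,-611,162⟩,⟨118,138,621⟩,⟨621,-162,-82⟩⟩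 (1,[(3,24),(5,24),(2,1)]) (1,[(1,1)]) (1,[(0,1)])) (.leaf false ⟨⟨-638,54,93⟩,⟨54,-323,558⟩,⟨93,558,314⟩⟩ (82,[(5,5437),(4,10638),(0,93)]) (41,[(5,175473),(4,58441),(0,279)]) (41,[(5,101310),(4,2556),(0,157)]))) (.leaf false ⟨⟨-402,-483,154⟩,⟨294,-62,573⟩,⟨413,-426,-258⟩⟩ (2,[(2,4655),(4,22),(0,7)]) (69,[(2,58788),(4,23944),(0,31)]) (23,[(2,38157),(4,17877),(0,71)]))) (.leaf false ⟨⟨6,-602,237⟩,⟨413,186,462⟩,⟨498,-147,-386⟩⟩ (27,[(1,6537),(0,1),(2,16865)]) (162,[(1,131838),(0,413),(2,222211)]) (27,[(1,1032),(0,83),(2,54682)]))) (.node ⟨582,-126,253⟩ (.node ⟨-323,-378,-414⟩ (.node ⟨378,206,-483⟩ (.leaf false ⟨⟨-323,-378,-414⟩,⟨378,206,-483⟩,⟨414,-483,118⟩⟩ (1,[(1,1)]) (1,[(0,1)]) (97,[(3,6011),(2,69),(4,38157)])) (.leaf false ⟨⟨-558,-323,-54⟩,⟨93,-54,-638⟩,⟨314,-558,93⟩⟩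 (206,[(3,167133),(5,7146),(0,323)]) (103,[(3,78755),(5,19785),(0,27)]) (103,[(3,125178),(5,137804),(0,279)]))) (.leaf false ⟨⟨10,-630,-147⟩,⟨378,125,-510⟩,⟨525,-78,370⟩⟩ (323,[(2,51621),(0,10),(3,207270)]) (323,[(2,321222),(0,378),(3,102509)]) (323,[(2,97840),(0,525),(3,223644)]))) (.leaf false ⟨⟨-558,-54,-323⟩,⟨93,-638,-54⟩,⟨314,93,-558⟩⟩ (253,[(3,46812),(2,54360),(0,323)]) (253,[(3,54957),(2,168218),(0,54)]) (253,[(3,404198),(2,46779),(0,558)]))))) (.node ⟨0,1,0⟩ (.node ⟨0,0,1⟩ (.node ⟨-611,-162,138⟩ (.node ⟨138,118,621⟩ (.node ⟨-162,621,-82⟩ (.leaf false ⟨⟨-611,-138,162⟩,⟨-162,621,-82⟩,⟨138,118,621⟩⟩ (1,[(3,24),(2,1),(4,24)]) (1,[(0,1)]) (1,[(1,1)])) (.leaf false ⟨⟨-638,54,93⟩,⟨54,-323,558⟩,⟨93,558,314⟩⟩ (82,[(5,67382),(4,62181),(0,93)]) (41,[(5,42984),(4,160016),(0,279)])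 (41,[(5,21621),(4,120375),(0,157)]))) (.leaf false ⟨⟨-627,-98,126⟩,⟨-154,237,-582⟩,⟨-42,594,253⟩⟩ (46,[(2,135585),(0,209),(3,20154)]) (69,[(2,7659),(0,77),(3,25439)]) (23,[(2,10166),(0,7),(3,14488)]))) (.leaf false ⟨⟨-638,93,54⟩,⟨54,558,-323⟩,⟨93,314,558⟩⟩ (54,[(1,7194),(3,53393),(0,31)]) (9,[(1,1371),(3,18455),(0,31)]) (81,[(1,66864),(3,88394),(0,157)]))) (.node ⟨-126,582,253⟩ (.node ⟨-378,-323,-414⟩ (.node ⟨206,378,-483⟩ (.leaf false ⟨⟨-483,414,118⟩,⟨-378,-323,-414⟩,⟨206,378,-483⟩⟩ (97,[(3,6011),(5,38157),(2,69)]) (1,[(1,1)]) (1,[(0,1)])) (.leaf false ⟨⟨-627,-154,42⟩,⟨-126,582,253⟩,⟨-98,237,-594⟩⟩ (206,[(3,294189),(0,627),(4,205282)]) (103,[(3,4370),(0,63),(4,83760)]) (103,[(3,84849),(0,49),(4,42933)]))) (.leaf false ⟨⟨-630,10,-147⟩,⟨-78,525,370⟩,⟨125,378,-510⟩⟩ (323,[(2,51621),(4,207270),(0,10)])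 (323,[(2,97840),(4,223644),(0,525)]) (323,[(2,321222),(4,102509),(0,378)]))) (.leaf false ⟨⟨-642,-51,-62⟩,⟨-19,582,-282⟩,⟨78,-278,-579⟩⟩ (253,[(3,170238),(2,23181),(0,62)]) (253,[(3,40339),(2,311370),(0,282)]) (253,[(3,53220),(2,266644),(0,579)])))) (.node ⟨0,0,1⟩ (.node ⟨-126,253,582⟩ (.node ⟨-378,-414,-323⟩ (.node ⟨206,-483,378⟩ (.leaf false ⟨⟨-483,118,414⟩,⟨-378,-414,-323⟩,⟨206,-483,378⟩⟩ (97,[(2,69),(5,38157),(4,6011)]) (1,[(1,1)]) (1,[(0,1)])) (.leaf false ⟨⟨-627,42,-154⟩,⟨-126,253,582⟩,⟨-98,-594,237⟩⟩ (206,[(3,205282),(0,627),(4,294189)]) (103,[(3,83760),(0,63),(4,4370)]) (103,[(3,42933),(0,49),(4,84849)]))) (.leaf false ⟨⟨-630,-147,10⟩,⟨-78,370,525⟩,⟨125,-510,378⟩⟩ (323,[(4,207270),(3,51621),(0,10)]) (323,[(4,223644),(3,97840),(0,525)]) (323,[(4,102509),(3,321222),(0,378)])))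 (.leaf false ⟨⟨-642,-62,-51⟩,⟨-19,-282,582⟩,⟨78,-579,-278⟩⟩ (253,[(1,23181),(3,170238),(0,62)]) (253,[(1,311370),(3,40339),(0,282)]) (253,[(1,266644),(3,53220),(0,579)]))) (.leaf false ⟨⟨-647,0,0⟩,⟨0,-647,0⟩,⟨0,0,-647⟩⟩ (1,[(2,647)]) (1,[(1,647)]) (1,[(0,647)]))))
theorem h647_ok : h647.check (ok 647 4 ⟨3, 3, 3⟩) (fun _ r => r) [] = true := by decide +kernel

def h653 : T := .node ⟨1,0,0⟩ (.node ⟨0,1,0⟩ (.node ⟨0,0,1⟩ (.leaf false ⟨⟨0,0,653⟩,⟨0,653,0⟩,⟨653,0,0⟩⟩ (1,[(0,653)]) (1,[(1,653)]) (1,[(2,653)])) (.node ⟨-315,0,-572⟩ (.leaf false ⟨⟨-315,0,-572⟩,⟨0,653,0⟩,⟨572,0,-315⟩⟩ (1,[(0,1)]) (1,[(2,653)]) (572,[(3,426409),(0,315)])) (.node ⟨581,-228,192⟩ (.leaf false ⟨⟨112,621,168⟩,⟨261,112,-588⟩,⟨588,-168,229⟩⟩ (45,[(2,1592),(1,16),(3,27945)]) (35,[(2,37168),(1,29),(3,3920)])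 (855,[(2,173413),(0,630),(1,434)])) (.leaf false ⟨⟨-588,252,-131⟩,⟨189,572,252⟩,⟨212,189,-588⟩⟩ (285,[(2,4883),(1,49),(0,315)]) (2565,[(2,5787476),(1,13408),(0,6435)]) (4788,[(2,8083892),(1,10543),(0,3969)]))))) (.node ⟨0,0,1⟩ (.node ⟨-315,-572,0⟩ (.leaf false ⟨⟨-315,-572,0⟩,⟨0,0,653⟩,⟨572,-315,0⟩⟩ (1,[(0,1)]) (1,[(1,653)]) (572,[(3,426409),(0,315)])) (.node ⟨581,192,-228⟩ (.leaf false ⟨⟨112,168,621⟩,⟨261,-588,112⟩,⟨588,229,-168⟩⟩ (45,[(2,27945),(1,16),(3,1592)]) (35,[(2,3920),(1,29),(3,37168)]) (855,[(1,434),(0,630),(3,173413)])) (.leaf false ⟨⟨-588,-131,252⟩,⟨189,252,572⟩,⟨212,-588,189⟩⟩ (285,[(1,49),(3,4883),(0,315)]) (2565,[(1,13408),(3,5787476),(0,6435)]) (4788,[(1,10543),(3,8083892),(0,3969)])))) (.node ⟨648,-24,77⟩ (.node ⟨-24,-648,77⟩ (.node ⟨-27,-76,-648⟩ (.leaf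 false ⟨⟨-27,-76,-648⟩,⟨-24,-648,77⟩,⟨652,-27,-24⟩⟩ (1,[(0,1)]) (1,[(1,1)]) (24,[(3,653),(5,15672),(1,1)])) (.leaf false ⟨⟨-24,-652,-27⟩,⟨77,24,-648⟩,⟨648,-27,76⟩⟩ (1306,[(3,141701),(0,8),(1,1315)]) (3918,[(3,10628881),(0,12330),(1,1301)]) (5224,[(3,91724951),(0,140184),(1,16659)]))) (.node ⟨0,572,-315⟩ (.leaf false ⟨⟨0,-315,-572⟩,⟨0,572,-315⟩,⟨653,0,0⟩⟩ (315,[(0,572),(4,426409)]) (1,[(0,1)]) (672,[(1,653),(2,653),(4,407472)])) (.leaf false ⟨⟨24,588,-283⟩,⟨237,256,552⟩,⟨608,-123,-204⟩⟩ (143,[(3,34183),(1,143),(0,15)]) (1144,[(3,2368733),(1,11297),(0,12286)]) (1716,[(3,12632075),(1,43472),(0,49617)])))) (.leaf false ⟨⟨-528,-364,-123⟩,⟨13,192,-624⟩,⟨384,-507,-148⟩⟩ (77,[(3,39048),(2,30980),(0,123)]) (77,[(3,405353),(2,192),(0,624)]) (77,[(3,125472),(2,42591),(0,148)])))))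 (.node ⟨0,1,0⟩ (.node ⟨0,0,1⟩ (.node ⟨-572,-315,0⟩ (.leaf false ⟨⟨-572,-315,0⟩,⟨-315,572,0⟩,⟨0,0,653⟩⟩ (1,[(0,1)]) (572,[(0,315),(2,426409)]) (1,[(1,653)])) (.node ⟨192,581,-228⟩ (.leaf false ⟨⟨-608,141,192⟩,⟨69,608,-228⟩,⟨228,192,581⟩⟩ (105,[(2,20160),(4,90724),(1,47)]) (35,[(4,6021),(0,35),(1,3)]) (105,[(2,61005),(4,12668),(1,64)])) (.leaf false ⟨⟨-636,-67,132⟩,⟨-3,588,284⟩,⟨148,-276,573⟩⟩ (1995,[(4,2022892),(1,1706),(0,1155)]) (2565,[(4,5503787),(1,10681),(0,3195)]) (4788,[(4,7276468),(1,17999),(0,12033)])))) (.node ⟨-24,648,77⟩ (.node ⟨-648,-24,77⟩ (.node ⟨-76,-27,-648⟩ (.leaf false ⟨⟨-648,-24,77⟩,⟨-76,-27,-648⟩,⟨-27,652,-24⟩⟩ (1,[(1,1)]) (1,[(0,1)]) (24,[(3,653),(1,1),(4,15672)])) (.leaf false ⟨⟨-652,-24,-27⟩,⟨-27,648,76⟩,⟨24,77,-648⟩⟩ (1306,[(3,141701),(1,1315),(0,8)])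 (5224,[(3,91724951),(1,16659),(0,140184)]) (3918,[(3,10628881),(1,1301),(0,12330)]))) (.node ⟨572,0,-315⟩ (.leaf false ⟨⟨-315,0,-572⟩,⟨0,653,0⟩,⟨572,0,-315⟩⟩ (315,[(5,426409),(0,572)]) (672,[(5,407472),(2,653),(1,653)]) (1,[(0,1)])) (.leaf false ⟨⟨-636,132,-67⟩,⟨-3,284,588⟩,⟨148,573,-276⟩⟩ (286,[(3,559541),(0,2100),(1,1573)]) (1716,[(3,4676525),(0,23013),(1,20306)]) (104,[(3,715103),(0,2786),(1,2483)])))) (.leaf false ⟨⟨-648,-27,-76⟩,⟨-24,652,-27⟩,⟨77,-24,-648⟩⟩ (77,[(3,51720),(2,47169),(0,76)]) (77,[(3,2496),(2,67700),(0,27)]) (77,[(3,9623),(2,418056),(0,648)])))) (.node ⟨0,0,1⟩ (.node ⟨-24,77,648⟩ (.node ⟨-648,77,-24⟩ (.node ⟨-76,-648,-27⟩ (.leaf false ⟨⟨-648,77,-24⟩,⟨-76,-648,-27⟩,⟨-27,-24,652⟩⟩ (1,[(1,1)]) (1,[(0,1)]) (24,[(3,15672),(1,1),(4,653)])) (.leaf false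 ⟨⟨-652,-27,-24⟩,⟨-27,76,648⟩,⟨24,-648,77⟩⟩ (1306,[(1,1315),(4,141701),(0,8)]) (5224,[(1,16659),(4,91724951),(0,140184)]) (3918,[(1,1301),(4,10628881),(0,12330)]))) (.node ⟨572,-315,0⟩ (.leaf false ⟨⟨-315,-572,0⟩,⟨0,0,653⟩,⟨572,-315,0⟩⟩ (315,[(5,426409),(0,572)]) (672,[(2,653),(5,407472),(1,653)]) (1,[(0,1)])) (.leaf false ⟨⟨-636,-67,132⟩,⟨-3,588,284⟩,⟨148,-276,573⟩⟩ (286,[(4,559541),(1,1573),(0,2100)]) (1716,[(4,4676525),(1,20306),(0,23013)]) (104,[(4,715103),(1,2483),(0,2786)])))) (.leaf false ⟨⟨-648,-76,-27⟩,⟨-24,-27,652⟩,⟨77,-648,-24⟩⟩ (77,[(1,47169),(3,51720),(0,76)]) (77,[(1,67700),(3,2496),(0,27)]) (77,[(1,418056),(3,9623),(0,648)]))) (.node ⟨-36,108,-643⟩ (.node ⟨-644,-3,108⟩ (.leaf false ⟨⟨-652,-3,36⟩,⟨-36,108,-643⟩,⟨-3,-644,-108⟩⟩ (5805,[(2,424450),(1,2),(0,5877)])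 (1,[(1,1)]) (12,[(2,653),(1,1),(3,7836)])) (.leaf false ⟨⟨-644,-108,-3⟩,⟨-3,36,-652⟩,⟨108,-643,-36⟩⟩ (36,[(4,23828),(3,3891),(0,1)]) (3245,[(1,644),(4,10133415),(0,15756)]) (3,[(4,320),(3,1932),(0,1)]))) (.leaf false ⟨⟨-652,-3,-36⟩,⟨-3,-644,108⟩,⟨36,-108,-643⟩⟩ (36,[(1,1939),(3,23508),(0,1)]) (27,[(1,100607),(3,5877),(0,161)]) (1,[(1,1286),(0,1)])))))
theorem h653_ok : h653.check (ok 653 4 ⟨3, 3, 3⟩) (fun _ r => r) [] = true := by decide +kernel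

def h659 : T := .node ⟨1,0,0⟩ (.node ⟨0,1,0⟩ (.node ⟨0,0,1⟩ (.node ⟨-114,-63,646⟩ (.node ⟨641,-114,102⟩ (.leaf false ⟨⟨-114,-63,646⟩,⟨102,646,81⟩,⟨641,-114,102⟩⟩ (1,[(1,1)]) (646,[(4,75126),(3,422419),(1,81)]) (1,[(0,1)])) (.leaf false ⟨⟨-646,129,18⟩,⟨33,74,654⟩,⟨126,642,-79⟩⟩ (11203,[(4,2075850),(0,14078),(1,2535)]) (33609,[(4,34315448),(0,44503),(1,41052)]) (22406,[(4,92520305),(0,136585),(1,18826)]))) (.node ⟨-191,618,-126⟩ (.leaf false ⟨⟨-191,618,-126⟩,⟨354,214,513⟩,⟨522,81,-394⟩⟩ (1,[(0,1)]) (309,[(2,171999),(4,129823),(0,107)]) (7,[(2,3056),(4,2628),(1,9)])) (.leaf false ⟨⟨2,81,654⟩,⟨369,-542,66⟩,⟨546,366,-47⟩⟩ (57,[(2,37924),(1,1),(3,4554)]) (16497,[(2,15033904),(0,17007),(1,24904)]) (19,[(2,57893),(1,91),(3,1221)])))) (.node ⟨642,74,129⟩ (.node ⟨-18,646,129⟩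 (.node ⟨-79,126,-642⟩ (.leaf false ⟨⟨-79,126,-642⟩,⟨-18,646,129⟩,⟨654,33,-74⟩⟩ (1,[(0,1)]) (1,[(1,1)]) (74,[(3,9733),(5,27210),(2,33)])) (.leaf false ⟨⟨-18,654,-79⟩,⟨129,-74,-642⟩,⟨646,33,126⟩⟩ (24383,[(3,5158652),(0,72),(1,24699)]) (24383,[(3,42647844),(0,41001),(1,5204)]) (48766,[(3,272990091),(0,417910),(1,84003)]))) (.leaf false ⟨⟨18,-79,-654⟩,⟨129,642,-74⟩,⟨646,-126,33⟩⟩ (1,[(2,525),(0,1),(3,567)]) (214,[(2,21383),(1,43),(3,134206)]) (7095,[(0,5179),(1,6994),(3,1934108)]))) (.leaf false ⟨⟨-591,-110,-270⟩,⟨-30,630,-191⟩,⟨290,-159,-570⟩⟩ (43,[(3,32367),(2,1930),(0,90)]) (129,[(3,118752),(2,95404),(0,191)]) (43,[(3,134450),(2,7223),(0,190)])))) (.node ⟨0,0,1⟩ (.node ⟨642,129,74⟩ (.node ⟨-18,129,646⟩ (.node ⟨-79,-642,126⟩ (.leaf false ⟨⟨-79,-642,126⟩,⟨-18,129,646⟩,⟨654,-74,33⟩⟩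 (1,[(0,1)]) (1,[(1,1)]) (74,[(2,33),(5,27210),(4,9733)])) (.leaf false ⟨⟨-18,-79,654⟩,⟨129,-642,-74⟩,⟨646,126,33⟩⟩ (24383,[(4,5158652),(1,24699),(0,72)]) (24383,[(4,42647844),(1,5204),(0,41001)]) (48766,[(4,272990091),(1,84003),(0,417910)]))) (.leaf false ⟨⟨18,-654,-79⟩,⟨129,-74,642⟩,⟨646,33,-126⟩⟩ (1,[(2,567),(0,1),(3,525)]) (214,[(2,134206),(1,43),(3,21383)]) (7095,[(2,1934108),(1,6994),(0,5179)]))) (.leaf false ⟨⟨-591,-290,30⟩,⟨110,-159,630⟩,⟨270,-570,-191⟩⟩ (129,[(1,25330),(3,109941),(0,290)]) (43,[(1,31012),(3,38756),(0,53)]) (43,[(1,5847),(3,133590),(0,190)]))) (.node ⟨-114,-646,-63⟩ (.node ⟨570,290,-159⟩ (.node ⟨-159,-110,-630⟩ (.node ⟨290,-591,30⟩ (.leaf false ⟨⟨-159,-110,-630⟩,⟨290,-591,30⟩,⟨570,270,-191⟩⟩ (1,[(1,1)]) (1,[(0,1)]) (1,[(4,32),(2,1),(5,20)])) (.leaf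 false ⟨⟨-654,-18,-79⟩,⟨33,-646,-126⟩,⟨74,129,-642⟩⟩ (30,[(6,3290),(5,47229),(0,79)]) (5,[(6,6255),(5,15641),(0,21)]) (5,[(6,31400),(5,62592),(0,107)]))) (.leaf false ⟨⟨-2,-654,81⟩,⟨369,66,542⟩,⟨546,-47,-366⟩⟩ (45087,[(3,16157484),(0,36632),(2,51883)]) (791,[(3,830396),(0,2025),(2,264)]) (30058,[(3,84778575),(0,119358),(2,22511)]))) (.leaf false ⟨⟨-542,-366,81⟩,⟨-66,-47,-654⟩,⟨369,-546,2⟩⟩ (145,[(2,17352),(4,25720),(0,183)]) (290,[(2,197133),(4,7650),(0,47)]) (145,[(2,43117),(4,209115),(0,273)]))) (.leaf false ⟨⟨18,-79,-654⟩,⟨129,642,-74⟩,⟨646,-126,33⟩⟩ (19,[(1,12615),(0,3),(2,3439)]) (38,[(1,5521),(0,43),(2,3382)]) (3,[(1,972),(0,17),(2,11360)]))))) (.node ⟨0,1,0⟩ (.node ⟨0,0,1⟩ (.node ⟨129,74,642⟩ (.node ⟨129,646,-18⟩ (.node ⟨-642,126,-79⟩ (.leaf false ⟨⟨-642,126,-79⟩,⟨-74,33,654⟩,⟨129,646,-18⟩⟩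 (1,[(0,1)]) (74,[(3,27210),(5,9733),(2,33)]) (1,[(1,1)])) (.leaf false ⟨⟨-654,-47,66⟩,⟨-2,546,369⟩,⟨81,-366,542⟩⟩ (48766,[(5,59315931),(1,4603),(0,41790)]) (24383,[(5,85502614),(1,44814),(0,124101)]) (24383,[(5,110842482),(1,19689),(0,171772)]))) (.leaf false ⟨⟨-654,-79,18⟩,⟨-74,642,129⟩,⟨33,-126,646⟩⟩ (1,[(4,525),(3,567),(0,1)]) (214,[(4,21383),(3,134206),(1,43)]) (7095,[(3,1934108),(1,6994),(0,5179)]))) (.leaf false ⟨⟨-623,-174,-126⟩,⟨-174,182,609⟩,⟨-126,609,-218⟩⟩ (129,[(1,383712),(0,623),(2,23656)]) (43,[(1,63423),(0,58),(2,12118)]) (43,[(1,17590),(0,42),(2,29295)]))) (.node ⟨-646,-114,-63⟩ (.node ⟨290,570,-159⟩ (.node ⟨-110,-159,-630⟩ (.node ⟨-591,290,30⟩ (.leaf false ⟨⟨-591,290,30⟩,⟨-110,-159,-630⟩,⟨270,570,-191⟩⟩ (1,[(0,1)]) (1,[(1,1)]) (1,[(4,32),(6,20),(2,1)]))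 (.leaf false ⟨⟨-655,-30,-66⟩,⟨30,434,-495⟩,⟨66,-495,-430⟩⟩ (5,[(6,9776),(5,3040),(0,11)]) (2,[(6,19443),(5,10438),(0,33)]) (3,[(6,25215),(5,10985),(0,43)]))) (.leaf false ⟨⟨-654,-2,81⟩,⟨-47,546,-366⟩,⟨66,369,542⟩⟩ (45087,[(3,16157484),(2,51883),(0,36632)]) (30058,[(3,84778575),(2,22511),(0,119358)]) (791,[(3,830396),(2,264),(0,2025)]))) (.leaf false ⟨⟨-646,-102,81⟩,⟨-114,641,-102⟩,⟨-63,-114,-646⟩⟩ (145,[(2,39612),(0,323),(3,169320)]) (145,[(2,23853),(0,57),(3,125435)]) (290,[(2,197357),(0,63),(3,2850)]))) (.leaf false ⟨⟨-646,114,-63⟩,⟨81,102,-646⟩,⟨102,641,114⟩⟩ (1,[(1,126),(3,1292),(0,1)]) (19,[(1,13345),(3,9443),(0,17)]) (114,[(1,27387),(3,402458),(0,641)])))) (.node ⟨0,0,1⟩ (.node ⟨-646,-63,-114⟩ (.node ⟨290,-159,570⟩ (.node ⟨-110,-630,-159⟩ (.node ⟨-591,30,290⟩ (.leaf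 false ⟨⟨-591,30,290⟩,⟨-110,-630,-159⟩,⟨270,-191,570⟩⟩ (1,[(0,1)]) (1,[(1,1)]) (1,[(6,20),(5,32),(2,1)])) (.leaf false ⟨⟨-655,-66,-30⟩,⟨30,-495,434⟩,⟨66,-430,-495⟩⟩ (5,[(4,3040),(6,9776),(0,11)]) (2,[(4,10438),(6,19443),(0,33)]) (3,[(4,10985),(6,25215),(0,43)]))) (.leaf false ⟨⟨-654,-47,66⟩,⟨-2,546,369⟩,⟨81,-366,542⟩⟩ (15029,[(2,18541),(4,11843440),(0,19532)]) (2147,[(2,974),(4,2345406),(0,5681)]) (90174,[(2,46741),(4,244824741),(0,340898)]))) (.leaf false ⟨⟨-646,81,-102⟩,⟨-114,-102,641⟩,⟨-63,-646,-114⟩⟩ (145,[(2,169320),(0,323),(3,39612)]) (145,[(2,125435),(0,57),(3,23853)]) (290,[(2,2850),(0,63),(3,197357)]))) (.leaf false ⟨⟨-646,-63,114⟩,⟨81,-646,102⟩,⟨102,114,641⟩⟩ (1,[(3,1292),(2,126),(0,1)]) (19,[(3,9443),(2,13345),(0,17)]) (114,[(3,402458),(2,27387),(0,641)])))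 (.leaf false ⟨⟨-659,0,0⟩,⟨0,-659,0⟩,⟨0,0,-659⟩⟩ (1,[(2,659)]) (1,[(1,659)]) (1,[(0,659)]))))
theorem h659_ok : h659.check (ok 659 4 ⟨3, 3, 3⟩) (fun _ r => r) [] = true := by decide +kernel

def h661 : T := .node ⟨1,0,0⟩ (.node ⟨0,1,0⟩ (.node ⟨0,0,1⟩ (.leaf false ⟨⟨0,0,661⟩,⟨0,661,0⟩,⟨661,0,0⟩⟩ (1,[(0,661)]) (1,[(1,661)]) (1,[(2,661)])) (.node ⟨-147,636,-104⟩ (.node ⟨636,-147,-104⟩ (.node ⟨-24,-112,-651⟩ (.leaf false ⟨⟨-147,636,-104⟩,⟨-24,-112,-651⟩,⟨644,141,-48⟩⟩ (1,[(2,1)]) (1,[(0,1)]) (13,[(1,6),(5,4556),(4,2715)])) (.leaf false ⟨⟨-132,621,-184⟩,⟨184,216,597⟩,⟨621,68,-216⟩⟩ (261,[(3,20880),(1,5),(2,256)]) (9345,[(3,7600526),(1,1928),(0,20553)]) (4984,[(3,6444451),(1,4528),(0,8969)]))) (.leaf false ⟨⟨-624,168,-139⟩,⟨77,564,336⟩,⟨204,301,-552⟩⟩ (7,[(2,1805),(4,720),(0,8)])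 (49,[(2,3088),(4,123341),(0,188)]) (21,[(2,16064),(4,31632),(0,43)]))) (.leaf false ⟨⟨5,660,-36⟩,⟨180,-36,-635⟩,⟨636,5,180⟩⟩ (147,[(1,5812),(0,5),(2,100200)]) (49,[(1,37355),(0,60),(2,36396)]) (49,[(1,13228),(0,212),(2,135077)])))) (.node ⟨0,0,1⟩ (.node ⟨-147,-104,636⟩ (.node ⟨636,-104,-147⟩ (.node ⟨-112,-651,-24⟩ (.leaf false ⟨⟨-112,-651,-24⟩,⟨141,-48,644⟩,⟨636,-104,-147⟩⟩ (1,[(0,1)]) (13,[(3,4556),(5,2715),(2,6)]) (1,[(1,1)])) (.leaf false ⟨⟨-132,-184,621⟩,⟨184,597,216⟩,⟨621,-216,68⟩⟩ (261,[(1,5),(4,20880),(2,256)]) (3115,[(4,2090198),(2,824),(0,6199)]) (127629,[(1,134984),(4,8865648),(2,44845)]))) (.leaf false ⟨⟨-624,-139,168⟩,⟨77,336,564⟩,⟨204,-552,301⟩⟩ (7,[(4,720),(3,1805),(0,8)]) (49,[(4,123341),(3,3088),(0,188)]) (21,[(4,31632),(3,16064),(0,43)]))) (.leaf false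 ⟨⟨5,-36,660⟩,⟨180,-635,-36⟩,⟨636,180,5⟩⟩ (147,[(1,100200),(0,5),(2,5812)]) (49,[(1,36396),(0,60),(2,37355)]) (49,[(1,135077),(0,212),(2,13228)]))) (.node ⟨69,-644,132⟩ (.node ⟨69,132,-644⟩ (.node ⟨589,-84,288⟩ (.node ⟨652,84,69⟩ (.leaf false ⟨⟨69,-644,132⟩,⟨84,-123,-644⟩,⟨652,84,69⟩⟩ (1,[(3,1)]) (163,[(4,106421),(0,21),(5,21813)]) (1,[(0,1)])) (.leaf false ⟨⟨-644,-147,-24⟩,⟨48,-104,-651⟩,⟨141,-636,112⟩⟩ (476,[(6,76483),(1,129),(0,704)]) (15801,[(2,11877),(6,24862939),(0,38227)]) (2499,[(6,7177570),(1,4441),(0,14480)]))) (.leaf false ⟨⟨-499,-288,-324⟩,⟨288,149,-576⟩,⟨324,-576,13⟩⟩ (1211,[(5,351883),(2,765),(0,1713)]) (14532,[(5,21395549),(2,456),(0,29273)]) (43596,[(5,21245308),(2,41199),(0,16915)]))) (.leaf false ⟨⟨-275,-540,264⟩,⟨-36,-275,-600⟩,⟨600,-264,85⟩⟩ (11,[(2,26076),(4,80),(0,45)])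 (12,[(2,23300),(4,1293),(0,25)]) (1,[(2,1203),(4,738),(0,2)]))) (.leaf false ⟨⟨-275,264,-540⟩,⟨-36,-600,-275⟩,⟨600,85,-264⟩⟩ (11,[(3,80),(2,26076),(0,45)]) (12,[(3,1293),(2,23300),(0,25)]) (1,[(3,738),(2,1203),(0,2)]))))) (.node ⟨0,1,0⟩ (.node ⟨0,0,1⟩ (.node ⟨-104,636,-147⟩ (.node ⟨-104,-147,636⟩ (.node ⟨-651,-112,-24⟩ (.leaf false ⟨⟨-651,-112,-24⟩,⟨-104,636,-147⟩,⟨-48,141,644⟩⟩ (1,[(0,1)]) (1,[(2,1)]) (13,[(3,4556),(1,6),(4,2715)])) (.leaf false ⟨⟨-635,-36,180⟩,⟨-36,660,5⟩,⟨180,5,636⟩⟩ (4727,[(1,1348),(5,2856877),(2,44)]) (3966,[(5,8097911),(2,1910),(0,12525)]) (3115,[(1,2963),(5,1753376),(0,4028)]))) (.leaf false ⟨⟨-651,112,24⟩,⟨48,141,644⟩,⟨104,636,-147⟩⟩ (21,[(2,10680),(4,15335),(0,16)]) (49,[(2,61448),(4,2536),(0,47)]) (49,[(2,127629),(4,16952),(0,212)]))) (.leaf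 false ⟨⟨-651,24,112⟩,⟨48,644,141⟩,⟨104,-147,636⟩⟩ (21,[(3,15335),(2,10680),(0,16)]) (49,[(3,2536),(2,61448),(0,47)]) (49,[(3,16952),(2,127629),(0,212)]))) (.node ⟨-644,69,132⟩ (.node ⟨132,69,-644⟩ (.node ⟨-84,589,288⟩ (.node ⟨84,652,69⟩ (.leaf false ⟨⟨-644,69,132⟩,⟨-123,84,-644⟩,⟨84,652,69⟩⟩ (1,[(3,1)]) (163,[(4,106421),(6,21813),(0,21)]) (1,[(0,1)])) (.leaf false ⟨⟨-652,-51,96⟩,⟨-96,544,-363⟩,⟨-51,-372,-544⟩⟩ (366033,[(1,1955456),(2,620553),(0,1860812)]) (4148374,[(1,8690547),(2,5689917),(0,4991750)]) (21068,[(5,13937001),(2,14059),(0,34884)]))) (.leaf false ⟨⟨-652,-96,-51⟩,⟨-51,544,-372⟩,⟨96,-363,-544⟩⟩ (4844,[(2,5335),(4,1112328),(0,3303)]) (14532,[(2,3828),(4,19730501),(0,20525)]) (10899,[(2,1128),(4,8396087),(0,21104)]))) (.leaf false ⟨⟨-644,-132,69⟩,⟨-123,644,84⟩,⟨-84,69,-652⟩⟩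 (33,[(2,101407),(0,161),(3,6753)]) (44,[(2,22708),(0,41),(3,31165)]) (11,[(2,11680),(0,7),(3,1242)]))) (.leaf false ⟨⟨-652,69,-84⟩,⟨69,-132,-644⟩,⟨84,644,-123⟩⟩ (11,[(3,11680),(2,1242),(0,7)]) (33,[(3,101407),(2,6753),(0,161)]) (44,[(3,22708),(2,31165),(0,41)])))) (.node ⟨0,0,1⟩ (.node ⟨132,-644,69⟩ (.node ⟨-644,132,69⟩ (.node ⟨-84,288,589⟩ (.node ⟨84,69,652⟩ (.leaf false ⟨⟨-644,-123,84⟩,⟨69,84,652⟩,⟨132,-644,69⟩⟩ (163,[(6,106736),(5,21498),(0,21)]) (9809,[(1,652),(6,42891),(0,9220)]) (1,[(3,1)])) (.leaf false ⟨⟨-652,96,-51⟩,⟨-96,-363,544⟩,⟨-51,-544,-372⟩⟩ (366033,[(1,1955456),(0,1860812),(3,620553)]) (5267,[(4,8690547),(0,9145),(3,1989)]) (21068,[(4,13937001),(0,34884),(3,14059)]))) (.leaf false ⟨⟨-652,-51,-96⟩,⟨-51,-372,544⟩,⟨96,-544,-363⟩⟩ (4844,[(3,1112328),(1,5335),(0,3303)])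 (14532,[(3,19730501),(1,3828),(0,20525)]) (10899,[(3,8396087),(1,1128),(0,21104)]))) (.leaf false ⟨⟨-652,-84,69⟩,⟨69,-644,-132⟩,⟨84,-123,644⟩⟩ (11,[(2,1242),(4,11680),(0,7)]) (33,[(2,6753),(4,101407),(0,161)]) (44,[(2,31165),(4,22708),(0,41)]))) (.leaf false ⟨⟨-644,69,-132⟩,⟨-123,84,644⟩,⟨-84,-652,69⟩⟩ (33,[(1,6753),(0,161),(2,101407)]) (44,[(1,31165),(0,41),(2,22708)]) (11,[(1,1242),(0,7),(2,11680)]))) (.node ⟨48,-644,141⟩ (.node ⟨36,-635,180⟩ (.leaf false ⟨⟨-660,-36,5⟩,⟨5,-180,-636⟩,⟨36,-635,180⟩⟩ (161,[(2,464),(4,106692),(1,9)]) (127,[(2,87252),(4,661),(0,36)]) (1,[(0,1)])) (.leaf false ⟨⟨-660,5,-36⟩,⟨5,-636,-180⟩,⟨36,180,-635⟩⟩ (8795,[(4,5886312),(1,7320),(0,7493)]) (8795,[(4,1149353),(1,76260),(0,68532)]) (5277,[(4,608316),(1,74165),(0,76712)]))) (.node ⟨-652,-51,96⟩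 (.leaf false ⟨⟨-652,-51,96⟩,⟨-96,544,-363⟩,⟨-51,-372,-544⟩⟩ (1,[(0,1)]) (1,[(2,81),(1,2),(3,744)]) (16,[(2,6307),(1,17),(3,16900)])) (.leaf false ⟨⟨-660,5,-36⟩,⟨5,-636,-180⟩,⟨36,180,-635⟩⟩ (8,[(4,7236),(3,113),(0,3)]) (8,[(4,9740),(3,5853),(0,15)]) (96,[(4,410564),(3,15105),(0,635)]))))))
theorem h661_ok : h661.check (ok 661 4 ⟨3, 3, 3⟩) (fun _ r => r) [] = true := by decide +kernel

def h667 : T := .node ⟨1,0,0⟩ (.node ⟨0,1,0⟩ (.node ⟨0,0,1⟩ (.node ⟨-186,57,638⟩ (.node ⟨-186,633,-98⟩ (.leaf false ⟨⟨-186,57,638⟩,⟨-98,654,-87⟩,⟨633,118,174⟩⟩ (1,[(1,1)]) (211,[(2,3007),(4,19870),(0,218)]) (633,[(2,121706),(4,422637),(0,118)])) (.leaf false ⟨⟨-87,-174,638⟩,⟨98,633,186⟩,⟨654,-118,57⟩⟩ (68240,[(4,1485264),(1,64467),(0,24563)]) (319,[(4,48560),(3,196626),(1,93)]) (98,[(4,53490),(3,24517),(0,57)])))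 (.leaf false ⟨⟨30,665,-42⟩,⟨217,30,630⟩,⟨630,-42,-215⟩⟩ (31,[(1,1888),(0,5),(2,20900)]) (6,[(1,8246),(0,7),(2,579)]) (31,[(1,60325),(0,105),(2,4683)]))) (.node ⟨-183,638,-66⟩ (.node ⟨-66,-183,-638⟩ (.leaf false ⟨⟨-183,638,-66⟩,⟨-66,-87,-658⟩,⟨638,174,-87⟩⟩ (1,[(1,1)]) (319,[(4,660),(3,32454),(0,329)]) (22,[(4,14234),(3,4377),(0,3)])) (.leaf false ⟨⟨-162,633,-134⟩,⟨393,206,498⟩,⟨514,42,-423⟩⟩ (638,[(2,43714),(4,12483),(1,633)]) (183,[(2,40294),(4,58323),(0,206)]) (61,[(2,34735),(4,30430),(0,14)]))) (.leaf false ⟨⟨57,234,-622⟩,⟨298,-567,-186⟩,⟨594,262,153⟩⟩ (61,[(1,39196),(0,19),(2,26396)]) (183,[(1,53706),(0,298),(2,86363)]) (61,[(1,3735),(0,198),(2,142306)])))) (.node ⟨0,0,1⟩ (.node ⟨-183,-66,638⟩ (.node ⟨-66,-638,-183⟩ (.leaf false ⟨⟨-183,-66,638⟩,⟨-66,-658,-87⟩,⟨638,-87,174⟩⟩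 (1,[(1,1)]) (319,[(2,32454),(4,660),(0,329)]) (22,[(2,4377),(4,14234),(0,3)])) (.leaf false ⟨⟨-162,-134,633⟩,⟨393,498,206⟩,⟨514,-423,42⟩⟩ (638,[(4,12483),(3,43714),(1,633)]) (183,[(4,58323),(3,40294),(0,206)]) (61,[(4,30430),(3,34735),(0,14)]))) (.leaf false ⟨⟨57,-622,234⟩,⟨298,-186,-567⟩,⟨594,153,262⟩⟩ (61,[(1,26396),(0,19),(2,39196)]) (183,[(1,86363),(0,298),(2,53706)]) (61,[(1,142306),(0,198),(2,3735)]))) (.node ⟨633,-98,186⟩ (.node ⟨-483,0,-460⟩ (.leaf false ⟨⟨-483,0,-460⟩,⟨0,-667,0⟩,⟨460,0,-483⟩⟩ (1,[(0,1)]) (1,[(3,667)]) (20,[(4,19343),(0,21)])) (.node ⟨594,298,57⟩ (.leaf false ⟨⟨105,-658,30⟩,⟨350,30,-567⟩,⟨558,105,350⟩⟩ (23,[(3,1610),(1,5),(4,15134)]) (297,[(3,178374),(0,175),(4,43240)]) (2086,[(3,4555),(0,735),(1,1506)])) (.leaf false ⟨⟨-566,-342,-87⟩,⟨153,-386,522⟩,⟨318,-423,-406⟩⟩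 (71967,[(3,9483728),(1,17240),(0,82593)]) (23989,[(3,6780561),(1,45813),(0,31073)]) (47978,[(3,68654517),(1,115342),(0,68103)])))) (.leaf false ⟨⟨-594,-242,-183⟩,⟨62,297,-594⟩,⟨297,-546,-242⟩⟩ (62,[(3,1785),(2,20982),(0,61)]) (31,[(3,64589),(2,495),(0,99)]) (93,[(3,104214),(2,62636),(0,121)]))))) (.node ⟨0,1,0⟩ (.node ⟨0,0,1⟩ (.node ⟨-66,638,-183⟩ (.node ⟨-638,-183,-66⟩ (.leaf false ⟨⟨-658,-87,-66⟩,⟨-87,174,638⟩,⟨-66,638,-183⟩⟩ (319,[(2,660),(0,329),(3,32454)]) (22,[(2,14234),(0,3),(3,4377)]) (1,[(1,1)])) (.leaf false ⟨⟨-423,42,514⟩,⟨-134,633,-162⟩,⟨498,206,393⟩⟩ (61,[(2,30430),(4,34735),(0,14)]) (638,[(2,12483),(4,43714),(1,633)]) (183,[(2,58323),(4,40294),(0,206)]))) (.leaf false ⟨⟨-658,30,105⟩,⟨30,-567,350⟩,⟨105,350,558⟩⟩ (61,[(3,42448),(2,24160),(0,35)]) (183,[(3,17610),(2,119539),(0,350)])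 (61,[(3,5871),(2,140018),(0,186)]))) (.node ⟨-98,633,186⟩ (.node ⟨0,-483,-460⟩ (.leaf false ⟨⟨-667,0,0⟩,⟨0,-483,-460⟩,⟨0,460,-483⟩⟩ (1,[(4,667)]) (1,[(0,1)]) (20,[(0,21),(3,19343)])) (.node ⟨298,594,57⟩ (.leaf false ⟨⟨-658,105,30⟩,⟨30,350,-567⟩,⟨105,558,350⟩⟩ (23,[(3,1610),(5,15134),(1,5)]) (297,[(3,178374),(5,43240),(0,175)]) (2086,[(3,4555),(1,1506),(0,735)])) (.leaf false ⟨⟨-658,-102,-39⟩,⟨-102,489,442⟩,⟨-39,442,-498⟩⟩ (1043,[(3,1110926),(0,2303),(1,2612)]) (1043,[(3,206345),(0,357),(1,1495)]) (894,[(3,881063),(0,117),(1,962)])))) (.leaf false ⟨⟨-667,0,0⟩,⟨0,-483,-460⟩,⟨0,460,-483⟩⟩ (1,[(3,667)]) (93,[(3,22540),(2,100671),(0,230)]) (62,[(3,15778),(2,130433),(0,161)])))) (.node ⟨0,0,1⟩ (.node ⟨-98,186,633⟩ (.node ⟨0,-460,-483⟩ (.leaf false ⟨⟨-667,0,0⟩,⟨0,-483,460⟩,⟨0,-460,-483⟩⟩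 (1,[(4,667)]) (20,[(2,19343),(0,21)]) (1,[(0,1)])) (.node ⟨298,57,594⟩ (.leaf false ⟨⟨-658,30,105⟩,⟨30,-567,350⟩,⟨105,350,558⟩⟩ (23,[(1,5),(5,15134),(4,1610)]) (297,[(5,43240),(4,178374),(0,175)]) (2086,[(1,1506),(4,4555),(0,735)])) (.leaf false ⟨⟨-658,-39,-102⟩,⟨-102,442,489⟩,⟨-39,-498,442⟩⟩ (1043,[(1,2612),(0,2303),(4,1110926)]) (1043,[(1,1495),(0,357),(4,206345)]) (894,[(1,962),(0,117),(4,881063)])))) (.leaf false ⟨⟨-667,0,0⟩,⟨0,-483,460⟩,⟨0,-460,-483⟩⟩ (1,[(3,667)]) (62,[(1,130433),(3,15778),(0,161)]) (93,[(1,100671),(3,22540),(0,230)]))) (.leaf false ⟨⟨-667,0,0⟩,⟨0,-667,0⟩,⟨0,0,-667⟩⟩ (1,[(2,667)]) (1,[(1,667)]) (1,[(0,667)]))))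
theorem h667_ok : h667.check (ok 667 4 ⟨3, 3, 3⟩) (fun _ r => r) [] = true := by decide +kernel

def h671 : T := .node ⟨1,0,0⟩ (.node ⟨0,1,0⟩ (.node ⟨0,0,1⟩ (.node ⟨-219,102,626⟩ (.node ⟨-18,634,-219⟩ (.leaf false ⟨⟨-219,102,626⟩,⟨-18,661,-114⟩,⟨634,54,213⟩⟩ (1,[(1,1)]) (634,[(2,72483),(4,486),(0,661)]) (317,[(2,73434),(4,201464),(0,27)])) (.leaf false ⟨⟨-126,149,642⟩,⟨357,-534,194⟩,⟨554,378,21⟩⟩ (313,[(4,30861),(3,13895),(1,321)]) (219,[(4,74691),(3,6050),(0,194)]) (73,[(4,40316),(3,32032),(0,7)]))) (.leaf false ⟨⟨18,654,149⟩,⟨446,-123,486⟩,⟨501,86,-438⟩⟩ (73,[(1,14633),(0,6),(2,48354)]) (219,[(1,385630),(0,446),(2,18555)]) (73,[(1,72568),(0,167),(2,23312)]))) (.node ⟨-186,117,-634⟩ (.node ⟨366,437,354⟩ (.node ⟨549,-186,-338⟩ (.leaf false ⟨⟨-122,474,-459⟩,⟨366,437,354⟩,⟨549,-186,-338⟩⟩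 (93,[(3,4013),(4,36945),(2,61)]) (1,[(1,1)]) (1,[(0,1)])) (.leaf false ⟨⟨-618,229,126⟩,⟨-14,294,-603⟩,⟨261,558,266⟩⟩ (186,[(3,53966),(5,10773),(0,229)]) (31,[(3,35255),(5,26467),(0,49)]) (1,[(3,748),(5,1908),(0,3)]))) (.leaf false ⟨⟨-474,-122,-459⟩,⟨186,549,-338⟩,⟨437,-366,-354⟩⟩ (118,[(4,66),(3,52465),(0,153)]) (177,[(4,94776),(3,171026),(0,169)]) (1,[(4,803),(3,71),(0,1)]))) (.leaf false ⟨⟨21,670,30⟩,⟨230,21,-630⟩,⟨630,-30,229⟩⟩ (62,[(1,2578),(0,7),(2,42359)]) (93,[(1,131500),(0,115),(2,15408)]) (31,[(1,59471),(0,105),(2,11355)])))) (.node ⟨0,0,1⟩ (.node ⟨-186,-634,117⟩ (.node ⟨366,354,437⟩ (.node ⟨549,-338,-186⟩ (.leaf false ⟨⟨-122,-459,474⟩,⟨366,354,437⟩,⟨549,-338,-186⟩⟩ (93,[(3,36945),(4,4013),(2,61)]) (1,[(1,1)]) (1,[(0,1)])) (.leaf false ⟨⟨-618,-14,261⟩,⟨126,-603,266⟩,⟨229,294,558⟩⟩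 (62,[(5,9447),(4,30274),(0,87)]) (93,[(5,84735),(4,101033),(0,133)]) (1,[(5,1876),(4,720),(0,3)]))) (.leaf false ⟨⟨-474,-459,-122⟩,⟨186,-338,549⟩,⟨437,-354,-366⟩⟩ (118,[(2,52465),(4,66),(0,153)]) (177,[(2,171026),(4,94776),(0,169)]) (1,[(2,71),(4,803),(0,1)]))) (.leaf false ⟨⟨21,30,670⟩,⟨230,-630,21⟩,⟨630,229,-30⟩⟩ (62,[(1,42359),(0,7),(2,2578)]) (93,[(1,15408),(0,115),(2,131500)]) (31,[(1,11355),(0,105),(2,59471)]))) (.node ⟨660,0,121⟩ (.leaf false ⟨⟨0,-671,0⟩,⟨121,0,-660⟩,⟨660,0,121⟩⟩ (1,[(2,671)]) (60,[(1,40931),(0,11)]) (1,[(0,1)])) (.node ⟨-346,150,-555⟩ (.leaf false ⟨⟨-634,-171,-138⟩,⟨117,94,-654⟩,⟨186,-642,-59⟩⟩ (121,[(4,14366),(3,20691),(1,138)]) (185,[(4,97073),(3,15310),(0,218)]) (121,[(4,61446),(3,77682),(1,59)])) (.leaf false ⟨⟨-654,-138,-59⟩,⟨94,-171,-642⟩,⟨117,-634,186⟩⟩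 (3025,[(4,6457132),(0,2783),(1,14240)]) (6050,[(4,40247438),(0,6897),(1,63735)]) (9075,[(4,94700353),(0,38357),(1,161985)])))))) (.node ⟨0,1,0⟩ (.node ⟨0,0,1⟩ (.node ⟨-634,-186,117⟩ (.node ⟨354,366,437⟩ (.node ⟨-338,549,-186⟩ (.leaf false ⟨⟨-459,-122,474⟩,⟨-338,549,-186⟩,⟨354,366,437⟩⟩ (93,[(3,36945),(2,61),(5,4013)]) (1,[(0,1)]) (1,[(1,1)])) (.leaf false ⟨⟨-670,21,30⟩,⟨21,-230,630⟩,⟨30,630,229⟩⟩ (31,[(5,22460),(4,3396),(0,5)]) (31,[(5,34839),(4,50515),(0,105)]) (186,[(5,71822),(4,242901),(0,229)]))) (.leaf false ⟨⟨-642,-186,-59⟩,⟨-171,634,-138⟩,⟨-94,117,654⟩⟩ (59,[(2,43278),(0,107),(3,28188)]) (118,[(2,8625),(0,57),(3,95674)]) (177,[(2,136297),(0,47),(3,37911)]))) (.leaf false ⟨⟨-670,30,21⟩,⟨21,630,-230⟩,⟨30,229,630⟩⟩ (31,[(1,1236),(3,23940),(0,5)]) (31,[(1,5155),(3,65919),(0,105)])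 (186,[(1,143973),(3,139606),(0,229)]))) (.node ⟨0,660,121⟩ (.leaf false ⟨⟨-671,0,0⟩,⟨0,121,-660⟩,⟨0,660,121⟩⟩ (1,[(3,671)]) (60,[(1,40931),(0,11)]) (1,[(0,1)])) (.node ⟨150,-346,-555⟩ (.leaf false ⟨⟨-654,-75,-130⟩,⟨5,570,-354⟩,⟨150,-346,-555⟩⟩ (111,[(4,76494),(3,671),(0,26)]) (185,[(4,16775),(3,146278),(0,118)]) (1,[(0,1)])) (.leaf false ⟨⟨-654,5,150⟩,⟨-130,-354,-555⟩,⟨-75,570,-346⟩⟩ (3025,[(1,56745),(0,13189),(3,32903431)]) (1815,[(1,15540),(0,1573),(3,9069632)]) (242,[(1,1247),(0,121),(3,919094)]))))) (.node ⟨0,0,1⟩ (.node ⟨0,121,660⟩ (.leaf false ⟨⟨-671,0,0⟩,⟨0,-660,121⟩,⟨0,121,660⟩⟩ (1,[(3,671)]) (60,[(0,11),(2,40931)]) (1,[(0,1)])) (.node ⟨150,-555,-346⟩ (.leaf false ⟨⟨-654,-130,-75⟩,⟨5,-354,570⟩,⟨150,-555,-346⟩⟩ (111,[(2,671),(4,76494),(0,26)]) (185,[(2,146278),(4,16775),(0,118)])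 (1,[(0,1)])) (.leaf false ⟨⟨-654,94,117⟩,⟨-138,-171,-634⟩,⟨-59,-642,186⟩⟩ (3025,[(2,34166231),(0,13189),(1,58145)]) (3025,[(2,8365632),(0,2783),(1,17040)]) (18150,[(2,86075506),(0,7139),(1,129045)])))) (.leaf false ⟨⟨-671,0,0⟩,⟨0,-671,0⟩,⟨0,0,-671⟩⟩ (1,[(2,671)]) (1,[(1,671)]) (1,[(0,671)]))))
theorem h671_ok : h671.check (ok 671 4 ⟨3, 3, 3⟩) (fun _ r => r) [] = true := by decide +kernel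

def h673 : T := .node ⟨1,0,0⟩ (.node ⟨0,1,0⟩ (.node ⟨0,0,1⟩ (.leaf false ⟨⟨0,0,673⟩,⟨0,673,0⟩,⟨673,0,0⟩⟩ (1,[(0,673)]) (1,[(1,673)]) (1,[(2,673)])) (.node ⟨0,552,385⟩ (.leaf false ⟨⟨0,385,-552⟩,⟨0,552,385⟩,⟨673,0,0⟩⟩ (552,[(1,452929),(0,385)]) (1,[(0,1)]) (1,[(3,673)])) (.node ⟨-327,-16,-588⟩ (.leaf false ⟨⟨-327,-16,-588⟩,⟨192,633,-124⟩,⟨556,-228,-303⟩⟩ (1,[(0,1)]) (147,[(4,38361),(3,93547),(0,31)]) (385,[(1,303),(4,214060),(3,79476)])) (.leaf false ⟨⟨0,673,0⟩,⟨385,0,-552⟩,⟨552,0,385⟩⟩ (1,[(3,673)]) (125895,[(1,406884),(0,148225),(3,222228368)]) (5995,[(1,9461),(0,10120),(3,5060552)]))))) (.node ⟨0,0,1⟩ (.node ⟨0,385,552⟩ (.leaf false ⟨⟨0,-552,385⟩,⟨0,385,552⟩,⟨673,0,0⟩⟩ (552,[(0,385),(2,452929)]) (1,[(0,1)]) (1,[(3,673)])) (.node ⟨-327,-588,-16⟩ (.leaf false ⟨⟨-327,-588,-16⟩,⟨192,-124,633⟩,⟨556,-303,-228⟩⟩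 (1,[(0,1)]) (147,[(2,93547),(4,38361),(0,31)]) (385,[(2,79476),(4,214060),(1,303)])) (.leaf false ⟨⟨0,0,673⟩,⟨385,-552,0⟩,⟨552,385,0⟩⟩ (1,[(2,673)]) (125895,[(2,222228368),(0,148225),(1,406884)]) (5995,[(2,5060552),(0,10120),(1,9461)])))) (.node ⟨-231,-628,-72⟩ (.node ⟨-231,12,-632⟩ (.node ⟨96,313,-588⟩ (.leaf false ⟨⟨-263,-528,-324⟩,⟨96,313,-588⟩,⟨612,-276,-47⟩⟩ (24860,[(5,724460),(2,21099),(1,10341)]) (1,[(0,1)]) (588,[(5,355344),(4,176999),(0,47)])) (.leaf false ⟨⟨-452,-480,-135⟩,⟨180,-327,560⟩,⟨465,-340,-348⟩⟩ (38152,[(5,3602581),(0,60996),(1,64899)]) (47690,[(5,14364375),(0,49986),(1,4249)]) (47690,[(5,45268935),(0,54764),(1,77211)]))) (.leaf false ⟨⟨-192,-583,-276⟩,⟨313,-336,492⟩,⟨564,-12,-367⟩⟩ (628,[(2,131352),(4,14097),(1,583)]) (2260,[(4,541060),(0,1893),(1,1173)])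 (1,[(2,999),(4,333),(0,1)]))) (.leaf false ⟨⟨16,-327,-588⟩,⟨228,556,-303⟩,⟨633,-192,124⟩⟩ (231,[(1,136980),(0,16),(2,85585)]) (77,[(1,28803),(0,76),(2,4916)]) (77,[(1,5644),(0,211),(2,147292)]))))) (.node ⟨0,1,0⟩ (.node ⟨0,0,1⟩ (.node ⟨385,0,552⟩ (.leaf false ⟨⟨-552,0,385⟩,⟨0,673,0⟩,⟨385,0,552⟩⟩ (552,[(3,452929),(0,385)]) (1,[(2,673)]) (1,[(0,1)])) (.node ⟨-588,-327,-16⟩ (.leaf false ⟨⟨-639,-192,-88⟩,⟨-168,632,-159⟩,⟨-128,129,648⟩⟩ (19901,[(0,19928),(1,2595),(3,2695464)]) (55,[(2,4503),(1,24),(3,34760)]) (147,[(2,95768),(0,32),(3,29427)])) (.leaf false ⟨⟨-672,16,33⟩,⟨-16,417,-528⟩,⟨33,528,416⟩⟩ (1635,[(2,1695427),(1,2976),(0,80)]) (41965,[(2,23064992),(1,83476),(0,53515)]) (3815,[(2,6501192),(1,9081),(0,6160)])))) (.node ⟨-72,-231,-628⟩ (.node ⟨-632,-231,12⟩ (.node ⟨-588,96,313⟩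 (.leaf false ⟨⟨-668,-12,81⟩,⟨-72,-231,-628⟩,⟨-39,632,-228⟩⟩ (352605,[(2,128593),(1,34323),(0,347941)]) (1,[(2,1)]) (196,[(3,48757),(0,13),(4,122624)])) (.leaf false ⟨⟨-668,-39,-72⟩,⟨-12,632,-231⟩,⟨81,-228,-628⟩⟩ (9538,[(1,12571),(4,2788815),(0,2676)]) (23845,[(1,17448),(4,20854160),(0,18267)]) (190760,[(1,343911),(4,73958865),(0,395924)]))) (.leaf false ⟨⟨-628,72,-231⟩,⟨81,668,-12⟩,⟨228,-39,-632⟩⟩ (628,[(1,231),(4,377752),(3,98577)]) (1,[(4,551),(3,437),(0,1)]) (2464,[(1,2441),(4,542256),(0,2025)]))) (.leaf false ⟨⟨-672,16,33⟩,⟨-16,417,-528⟩,⟨33,528,416⟩⟩ (231,[(1,2425),(3,156384),(0,16)]) (77,[(1,127948),(3,11240),(0,139)]) (7,[(1,7136),(3,921),(0,16)])))) (.node ⟨0,0,1⟩ (.node ⟨-72,-628,-231⟩ (.node ⟨-632,12,-231⟩ (.node ⟨-588,313,96⟩ (.leaf false ⟨⟨-668,81,-12⟩,⟨-72,-628,-231⟩,⟨-39,-228,632⟩⟩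 (352605,[(0,347941),(1,34323),(2,128593)]) (1,[(2,1)]) (196,[(3,122624),(0,13),(4,48757)])) (.leaf false ⟨⟨-668,-72,-39⟩,⟨-12,-231,632⟩,⟨81,-628,-228⟩⟩ (9538,[(3,2788815),(1,12571),(0,2676)]) (23845,[(3,20854160),(1,17448),(0,18267)]) (190760,[(3,73958865),(1,343911),(0,395924)]))) (.leaf false ⟨⟨-628,-231,72⟩,⟨81,-12,668⟩,⟨228,-632,-39⟩⟩ (628,[(2,98577),(4,377752),(1,231)]) (1,[(2,437),(4,551),(0,1)]) (2464,[(4,542256),(1,2441),(0,2025)]))) (.leaf false ⟨⟨-672,-16,33⟩,⟨16,417,528⟩,⟨33,-528,416⟩⟩ (7,[(3,4776),(2,740),(0,1)]) (7,[(3,1040),(2,7129),(0,16)]) (231,[(3,22329),(2,383216),(0,416)]))) (.node ⟨-36,252,-623⟩ (.node ⟨-624,252,-7⟩ (.node ⟨36,-7,-672⟩ (.leaf false ⟨⟨-623,252,-36⟩,⟨-252,-624,-7⟩,⟨36,-7,-672⟩⟩ (616,[(2,29),(1,587),(5,16436)]) (89,[(2,1),(5,22392),(4,55788)])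 (1,[(0,1)])) (.leaf false ⟨⟨-672,-7,36⟩,⟨-36,252,-623⟩,⟨-7,-624,-252⟩⟩ (3,[(3,37524),(0,56),(4,413)]) (1,[(2,1)]) (36,[(3,13776),(0,7),(4,22513)]))) (.leaf false ⟨⟨-632,-168,-159⟩,⟨129,128,-648⟩,⟨192,-639,-88⟩⟩ (1848,[(1,491),(4,2225412),(0,1723)]) (693,[(1,725),(4,117255),(0,373)]) (2464,[(1,423),(4,3674388),(0,6671)]))) (.leaf false ⟨⟨-672,-7,-36⟩,⟨-7,-624,252⟩,⟨36,-252,-623⟩⟩ (36,[(1,1919),(3,24228),(0,1)]) (21,[(1,27104),(3,2019),(0,52)]) (1,[(1,1246),(0,1)])))))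
theorem h673_ok : h673.check (ok 673 4 ⟨3, 3, 3⟩) (fun _ r => r) [] = true := by decide +kernel

def h677 : T := .node ⟨1,0,0⟩ (.node ⟨0,1,0⟩ (.node ⟨0,0,1⟩ (.leaf false ⟨⟨0,0,677⟩,⟨0,677,0⟩,⟨677,0,0⟩⟩ (1,[(0,677)]) (1,[(1,677)]) (1,[(2,677)])) (.node ⟨-252,108,-619⟩ (.node ⟨549,288,272⟩ (.node ⟨-252,597,-196⟩ (.node ⟨277,-84,-612⟩ (.leaf false ⟨⟨-252,597,-196⟩,⟨277,-84,-612⟩,⟨564,308,213⟩⟩ (1,[(1,1)]) (1,[(0,1)]) (99,[(4,4106),(2,104),(3,5)])) (.leaf false ⟨⟨-612,196,213⟩,⟨84,597,-308⟩,⟨277,252,564⟩⟩ (3,[(4,3645),(6,103),(0,7)]) (28,[(4,130412),(6,57475),(0,199)]) (1,[(4,1272),(6,1108),(0,3)]))) (.leaf false ⟨⟨-195,-20,-648⟩,⟨340,573,-120⟩,⟨552,-360,-155⟩⟩ (35532,[(4,3262233),(2,41692),(0,14197)]) (26649,[(4,48578592),(2,24220),(0,60175)]) (8883,[(4,14419065),(2,12271),(0,31729)])))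 (.leaf false ⟨⟨-547,-276,-288⟩,⟨-108,573,-344⟩,⟨384,-232,-507⟩⟩ (17,[(4,583),(3,492),(0,18)]) (34,[(4,19935),(3,31866),(0,43)]) (272,[(4,382791),(3,82912),(0,507)]))) (.leaf false ⟨⟨21,668,-108⟩,⟨252,-108,-619⟩,⟨628,21,252⟩⟩ (12,[(1,1915),(0,1),(2,8124)]) (1,[(1,1238),(0,1)]) (63,[(1,81307),(0,157),(2,18279)])))) (.node ⟨0,0,1⟩ (.node ⟨-252,-619,108⟩ (.node ⟨549,272,288⟩ (.node ⟨-252,-196,597⟩ (.node ⟨277,-612,-84⟩ (.leaf false ⟨⟨-252,-196,597⟩,⟨277,-612,-84⟩,⟨564,213,308⟩⟩ (1,[(1,1)]) (1,[(0,1)]) (99,[(2,104),(5,4106),(3,5)])) (.leaf false ⟨⟨-612,-196,213⟩,⟨-84,597,308⟩,⟨277,-252,564⟩⟩ (28,[(6,2531),(5,48940),(0,71)]) (3,[(6,2795),(5,4941),(0,11)]) (7,[(6,14958),(5,30528),(0,47)]))) (.leaf false ⟨⟨-195,-648,-20⟩,⟨340,-120,573⟩,⟨552,-155,-360⟩⟩ (35532,[(3,3262233),(0,14197),(2,41692)])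 (26649,[(3,48578592),(0,60175),(2,24220)]) (8883,[(3,14419065),(0,31729),(2,12271)]))) (.leaf false ⟨⟨-547,-384,108⟩,⟨276,-232,573⟩,⟨288,-507,-344⟩⟩ (17,[(2,8748),(4,3877),(0,24)]) (34,[(2,27834),(4,25305),(0,29)]) (272,[(2,52448),(4,356679),(0,507)]))) (.leaf false ⟨⟨21,-108,668⟩,⟨252,-619,-108⟩,⟨628,252,21⟩⟩ (12,[(1,8124),(0,1),(2,1915)]) (1,[(0,1),(2,1238)]) (63,[(1,18279),(0,157),(2,81307)]))) (.node ⟨0,52,-675⟩ (.leaf false ⟨⟨0,-675,-52⟩,⟨0,52,-675⟩,⟨677,0,0⟩⟩ (675,[(0,52),(2,458329)]) (1,[(0,1)]) (1,[(3,677)])) (.leaf false ⟨⟨0,-675,52⟩,⟨0,-52,-675⟩,⟨677,0,0⟩⟩ (52,[(1,452921),(0,675)]) (1,[(1,1350),(0,1)]) (1,[(3,677)]))))) (.node ⟨0,1,0⟩ (.node ⟨0,0,1⟩ (.node ⟨-619,-252,108⟩ (.node ⟨272,549,288⟩ (.node ⟨-196,-252,597⟩ (.node ⟨-612,277,-84⟩ (.leaf false ⟨⟨-612,277,-84⟩,⟨-196,-252,597⟩,⟨213,564,308⟩⟩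 (1,[(0,1)]) (1,[(1,1)]) (99,[(3,5),(6,4106),(2,104)])) (.leaf false ⟨⟨-675,-48,20⟩,⟨-20,480,477⟩,⟨48,-475,480⟩⟩ (21,[(6,17235),(5,377),(0,5)]) (28,[(6,97868),(5,57483),(0,159)]) (7,[(6,24144),(5,7755),(0,40)]))) (.leaf false ⟨⟨-675,-20,48⟩,⟨-48,480,-475⟩,⟨20,477,480⟩⟩ (26649,[(3,20332002),(2,41545),(0,39430)]) (8883,[(3,10208487),(2,8848),(0,25768)]) (1316,[(3,2652795),(2,1092),(0,3583)]))) (.leaf false ⟨⟨-612,-288,29⟩,⟨-272,549,-288⟩,⟨-99,272,612⟩⟩ (4,[(2,2708),(0,9),(3,3789)]) (1,[(0,1),(3,1098)]) (272,[(2,194976),(0,99),(3,128335)]))) (.leaf false ⟨⟨-619,252,-108⟩,⟨-108,21,668⟩,⟨252,628,21⟩⟩ (1,[(3,1238),(0,1)]) (12,[(1,8124),(3,1915),(0,1)]) (63,[(1,18279),(3,81307),(0,157)]))) (.node ⟨52,0,-675⟩ (.leaf false ⟨⟨-675,0,-52⟩,⟨0,677,0⟩,⟨52,0,-675⟩⟩ (675,[(3,458329),(0,52)])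 (1,[(2,677)]) (1,[(0,1)])) (.leaf false ⟨⟨-675,0,52⟩,⟨-52,0,-675⟩,⟨0,677,0⟩⟩ (52,[(1,452921),(0,675)]) (1,[(1,1350),(0,1)]) (1,[(2,677)])))) (.node ⟨0,0,1⟩ (.node ⟨52,-675,0⟩ (.leaf false ⟨⟨-675,-52,0⟩,⟨0,0,677⟩,⟨52,-675,0⟩⟩ (675,[(3,458329),(0,52)]) (1,[(1,677)]) (1,[(0,1)])) (.leaf false ⟨⟨-675,52,0⟩,⟨-52,-675,0⟩,⟨0,0,677⟩⟩ (52,[(0,675),(2,452921)]) (1,[(0,1),(2,1350)]) (1,[(1,677)]))) (.node ⟨108,-619,252⟩ (.leaf false ⟨⟨-668,-108,21⟩,⟨21,-252,-628⟩,⟨108,-619,252⟩⟩ (619,[(1,14217),(3,425156),(0,108)]) (619,[(1,452236),(3,14217),(0,252)]) (1,[(0,1)])) (.node ⟨-547,-372,144⟩ (.node ⟨48,-304,-603⟩ (.leaf false ⟨⟨-547,-372,144⟩,⟨-396,477,-272⟩,⟨48,-304,-603⟩⟩ (1,[(1,1)]) (63,[(2,68),(5,17604),(4,12041)]) (1,[(0,1)])) (.leaf false ⟨⟨-664,-123,48⟩,⟨-132,624,-227⟩,⟨-3,-232,-636⟩⟩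 (6,[(3,49761),(0,83),(4,25970)]) (4,[(3,7541),(0,11),(4,848)]) (16,[(3,10779),(0,1),(4,4016)]))) (.leaf false ⟨⟨-675,-20,-48⟩,⟨20,477,-480⟩,⟨48,-480,-475⟩⟩ (3,[(4,2572),(3,432),(0,1)]) (3,[(4,5410),(3,2289),(0,10)]) (144,[(4,252913),(3,245820),(0,475)]))))))
theorem h677_ok : h677.check (ok 677 4 ⟨3, 3, 3⟩) (fun _ r => r) [] = true := by decide +kernel

def h683 : T := .node ⟨1,0,0⟩ (.node ⟨0,1,0⟩ (.node ⟨0,0,1⟩ (.node ⟨-231,162,622⟩ (.node ⟨-78,649,-198⟩ (.leaf false ⟨⟨-231,162,622⟩,⟨-78,649,-198⟩,⟨638,138,201⟩⟩ (1,[(1,1)]) (1,[(0,1)]) (649,[(2,157773),(4,424826),(0,138)])) (.leaf false ⟨⟨-150,217,630⟩,⟨105,-630,242⟩,⟨658,150,105⟩⟩ (311,[(4,26115),(3,16457),(1,315)]) (9,[(4,87),(3,1469),(0,11)]) (66,[(4,40698),(3,32615),(0,35)]))) (.leaf false ⟨⟨105,658,150⟩,⟨242,105,-630⟩,⟨630,-150,217⟩⟩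 (11,[(1,4760),(0,5),(2,8048)]) (21,[(1,454),(0,22),(2,5769)]) (11,[(1,21047),(0,30),(2,3210)]))) (.node ⟨-226,618,-183⟩ (.node ⟨618,-226,-183⟩ (.node ⟨57,-174,-658⟩ (.leaf false ⟨⟨-226,618,-183⟩,⟨57,-174,-658⟩,⟨642,233,-6⟩⟩ (1,[(2,1)]) (1,[(0,1)]) (61,[(1,2),(5,37926),(4,14665)])) (.leaf false ⟨⟨-231,638,-78⟩,⟨162,138,649⟩,⟨622,201,-198⟩⟩ (2049,[(3,280030),(0,715),(2,1914)]) (15775,[(3,2030306),(1,6009),(0,20316)]) (18930,[(3,34214033),(1,23937),(0,52958)]))) (.leaf false ⟨⟨-558,377,114⟩,⟨-26,162,-663⟩,⟨393,546,118⟩⟩ (226,[(2,43227),(4,106878),(0,377)]) (113,[(2,89742),(4,47120),(0,81)]) (113,[(2,36625),(4,213123),(0,273)]))) (.leaf false ⟨⟨6,658,-183⟩,⟨233,-174,-618⟩,⟨642,57,226⟩⟩ (113,[(1,21228),(0,3),(2,76208)]) (226,[(1,182307),(0,233),(2,104670)]) (113,[(1,33205),(0,321),(2,204819)]))))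 (.node ⟨0,0,1⟩ (.node ⟨-226,-183,618⟩ (.node ⟨618,-183,-226⟩ (.node ⟨57,-658,-174⟩ (.leaf false ⟨⟨-226,-183,618⟩,⟨57,-658,-174⟩,⟨642,-6,233⟩⟩ (1,[(2,1)]) (1,[(0,1)]) (61,[(3,14665),(5,37926),(1,2)])) (.leaf false ⟨⟨-231,-78,638⟩,⟨162,649,138⟩,⟨622,-198,201⟩⟩ (2049,[(4,280030),(2,1914),(0,715)]) (15775,[(1,6009),(4,2030306),(0,20316)]) (18930,[(1,23937),(4,34214033),(0,52958)]))) (.leaf false ⟨⟨-558,-26,393⟩,⟨114,-663,118⟩,⟨377,162,546⟩⟩ (226,[(4,116766),(3,77795),(0,393)]) (113,[(4,49344),(3,85716),(0,59)]) (113,[(4,211315),(3,31653),(0,273)]))) (.leaf false ⟨⟨6,-183,658⟩,⟨233,-618,-174⟩,⟨642,226,57⟩⟩ (113,[(1,76208),(0,3),(2,21228)]) (226,[(1,104670),(0,233),(2,182307)]) (113,[(1,204819),(0,321),(2,33205)]))) (.node ⟨558,-135,370⟩ (.node ⟨-135,-642,-190⟩ (.node ⟨370,90,-567⟩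 (.leaf false ⟨⟨-135,-642,-190⟩,⟨370,90,-567⟩,⟨558,-215,330⟩⟩ (1,[(1,1)]) (1,[(0,1)]) (1,[(3,40),(2,1),(4,80)])) (.leaf false ⟨⟨-658,-183,6⟩,⟨57,-226,-642⟩,⟨174,-618,233⟩⟩ (30,[(3,34407),(5,2830),(0,61)]) (45,[(3,92961),(5,44375),(0,113)]) (15,[(3,54906),(5,40720),(0,103)]))) (.leaf false ⟨⟨9,-82,-678⟩,⟨282,618,-71⟩,⟨622,-279,42⟩⟩ (15,[(2,10360),(0,1),(3,1872)]) (45,[(2,21055),(0,94),(3,32538)]) (135,[(2,112510),(0,622),(3,436989)]))) (.leaf false ⟨⟨-530,-183,-390⟩,⟨258,-630,-55⟩,⟨345,190,-558⟩⟩ (37,[(3,2152),(2,12036),(0,39)]) (74,[(3,25230),(2,48105),(0,11)]) (185,[(3,219507),(2,2515),(0,279)]))))) (.node ⟨0,1,0⟩ (.node ⟨0,0,1⟩ (.node ⟨-183,618,-226⟩ (.node ⟨-183,-226,618⟩ (.node ⟨-658,-174,57⟩ (.leaf false ⟨⟨-658,-174,57⟩,⟨-183,618,-226⟩,⟨-6,233,642⟩⟩ (1,[(0,1)]) (1,[(2,1)])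 (61,[(3,37926),(1,2),(4,14665)])) (.leaf false ⟨⟨-642,57,226⟩,⟨-6,658,-183⟩,⟨233,174,618⟩⟩ (165424,[(1,76275),(5,84347250),(2,43151)]) (15775,[(1,944),(5,39981596),(0,60881)]) (631,[(1,783),(5,794072),(0,1648)]))) (.leaf false ⟨⟨-663,26,162⟩,⟨-118,393,-546⟩,⟨114,558,377⟩⟩ (113,[(2,26340),(4,77298),(0,13)]) (226,[(2,119478),(4,98587),(0,393)]) (113,[(2,215023),(4,38175),(0,279)]))) (.leaf false ⟨⟨-663,-118,114⟩,⟨26,393,558⟩,⟨162,-546,377⟩⟩ (113,[(3,85350),(2,21892),(0,57)]) (113,[(3,48119),(2,216831),(0,279)]) (226,[(3,32379),(2,109590),(0,377)]))) (.node ⟨-135,558,370⟩ (.node ⟨-642,-135,-190⟩ (.node ⟨90,370,-567⟩ (.leaf false ⟨⟨-642,-135,-190⟩,⟨-215,558,330⟩,⟨90,370,-567⟩⟩ (1,[(1,1)]) (1,[(3,40),(5,80),(2,1)]) (1,[(0,1)])) (.leaf false ⟨⟨-663,-162,26⟩,⟨-118,546,393⟩,⟨-114,377,-558⟩⟩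 (30,[(3,124527),(0,221),(4,76910)]) (45,[(3,15768),(0,59),(4,46400)]) (15,[(3,19143),(0,19),(4,12685)]))) (.leaf false ⟨⟨-663,114,-118⟩,⟨26,558,393⟩,⟨162,377,-546⟩⟩ (45,[(2,12530),(4,54231),(0,38)]) (15,[(2,5885),(4,39414),(0,62)]) (135,[(2,145340),(4,220164),(0,377)]))) (.leaf false ⟨⟨-630,258,-55⟩,⟨-183,-530,-390⟩,⟨190,345,-558⟩⟩ (74,[(3,48105),(2,25230),(0,11)]) (37,[(3,12036),(2,2152),(0,39)]) (185,[(3,2515),(2,219507),(0,279)])))) (.node ⟨0,0,1⟩ (.node ⟨-135,370,558⟩ (.node ⟨-642,-190,-135⟩ (.node ⟨90,-567,370⟩ (.leaf false ⟨⟨-642,-190,-135⟩,⟨-215,330,558⟩,⟨90,-567,370⟩⟩ (1,[(1,1)]) (1,[(2,1),(5,80),(4,40)]) (1,[(0,1)])) (.leaf false ⟨⟨-663,26,-162⟩,⟨-118,393,546⟩,⟨-114,-558,377⟩⟩ (30,[(3,76910),(0,221),(4,124527)]) (45,[(3,46400),(0,59),(4,15768)]) (15,[(3,12685),(0,19),(4,19143)])))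 (.leaf false ⟨⟨-663,-118,114⟩,⟨26,393,558⟩,⟨162,-546,377⟩⟩ (45,[(4,54231),(3,12530),(0,38)]) (15,[(4,39414),(3,5885),(0,62)]) (135,[(4,220164),(3,145340),(0,377)]))) (.leaf false ⟨⟨-630,-55,258⟩,⟨-183,-390,-530⟩,⟨190,-558,345⟩⟩ (74,[(1,25230),(3,48105),(0,11)]) (37,[(1,2152),(3,12036),(0,39)]) (185,[(1,219507),(3,2515),(0,279)]))) (.leaf false ⟨⟨-683,0,0⟩,⟨0,-683,0⟩,⟨0,0,-683⟩⟩ (1,[(2,683)]) (1,[(1,683)]) (1,[(0,683)]))))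
theorem h683_ok : h683.check (ok 683 4 ⟨3, 3, 3⟩) (fun _ r => r) [] = true := by decide +kernel


end H34S
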