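import Pool.Agent.Lib.H63.ThreeSquares

/-!
# H34S: every `n ≡ 3 (mod 8)` is a sum of three odd squares, not all divisible by `3`
-/

set_option autoImplicit false

namespace H34S

open scoped NumberTheorySymbols in
/-- Every `n ≡ 3 (mod 8)` is a sum of three integer squares. -/
theorem three_squares (n : ℕ) (hn : n % 8 = 3) :
    ∃ x y z : ℤ, (n : ℤ) = x ^ 2 + y ^ 2 + z ^ 2 := by
  obtain ⟨e, he⟩ : ∃ e, 2 * e = n - 1 := ⟨(n - 1) / 2, by omega⟩
  have he2 : 2 * e + 1 = n := by omega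
  have hcop : e.Coprime (4 * n) := by
    have h1 : e.Coprime n := by
      rw [Nat.coprime_iff_gcd_eq_one]
      have hd1 : Nat.gcd e n ∣ n := Nat.gcd_dvd_right e n
      have hd2 : Nat.gcd e n ∣ 2 * e := (Nat.gcd_dvd_left e n).mul_left 2
      have hd3 : Nat.gcd e n ∣ 2 * e + 1 := by rw [he2]; exact hd1
      exact Nat.dvd_one.mp ((Nat.dvd_add_right hd2).mp hd3)
    have h2 : e.Coprime 4 := by
      have : Odd e := by rw [Nat.odd_iff]; omega
      have h3 : e.Coprime 2 := Nat.Coprime.symm (Nat.coprime_two_left.mpr this)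
      simpa using Nat.Coprime.pow_right 2 h3
    exact Nat.Coprime.mul_right h2 h1
  obtain ⟨p, hpgt, hpp, hpmod⟩ :=
    Nat.forall_exists_prime_gt_and_modEq (4 * n) (q := 4 * n) (by omega) hcop
  obtain ⟨j, hj⟩ : ∃ j, p = 4 * n * j + e := by
    have h1 : p % (4 * n) = e % (4 * n) := hpmod
    rw [Nat.mod_eq_of_lt (show e < 4 * n by omega)] at h1
    exact ⟨p / (4 * n), by rw [← h1]; exact (Nat.div_add_mod p (4 * n)).symm⟩
  set d := 8 * j + 1 with hd
  have hpd : 2 * (p : ℤ) = d * n - 1 := by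
    rw [hj, hd]; push_cast
    have : 2 * (e : ℤ) = n - 1 := by omega
    linear_combination this
  have : Fact p.Prime := ⟨hpp⟩
  have hpmod4 : p % 4 = 1 := by
    have h4 : 4 * n * j = 4 * (n * j) := by ring
    rw [hj, h4]; omega
  have hpodd : Odd p := by rw [Nat.odd_iff]; omega
  have hdodd : Odd d := by rw [Nat.odd_iff]; omega
  have f1 : J(-2 | d) = 1 := by
    rw [jacobiSym.at_neg_two hdodd]
    have : ((d : ℕ) : ZMod 8) = 1 := by
      rw [hd]; push_cast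
      have : (8 : ZMod 8) = 0 := by decide
      rw [this]; ring
    rw [this]; decide
  have f2 : J(-2 * (p : ℤ) | d) = 1 := by
    have : J(-2 * (p : ℤ) | d) = J(1 | d) := by
      apply jacobiSym.mod_left'
      have : -2 * (p : ℤ) = 1 + d * (-n) := by linear_combination (-1 : ℤ) * hpd
      rw [this, Int.add_mul_emod_self_left]
    rw [this, jacobiSym.one_left]
  have f3 : J((p : ℤ) | d) = 1 := by
    rw [jacobiSym.mul_left, f1, one_mul] at f2
    exact f2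
  have hsym : J(-(d : ℤ) | p) = 1 := by
    have e1 : J(-(d : ℤ) | p) = J(-1 | p) * J((d : ℤ) | p) := by
      rw [← jacobiSym.mul_left]; simp
    have e2 : J(-1 | p) = 1 := by
      rw [jacobiSym.at_neg_one hpodd, ZMod.χ₄_nat_one_mod_four hpmod4]
    have e3 : J((p : ℤ) | d) = J((d : ℤ) | p) :=
      jacobiSym.quadratic_reciprocity_one_mod_four hpmod4 hdodd
    rw [e1, e2, ← e3, f3]; norm_num
  have hsq : IsSquare ((-(d : ℤ) : ℤ) : ZMod p) := by
    rw [← jacobiSym.legendreSym.to_jacobiSym] at hsym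
    by_contra hcon
    rw [← legendreSym.eq_neg_one_iff p] at hcon
    rw [hcon] at hsym
    norm_num at hsym
  obtain ⟨r0, hr0⟩ := hsq
  obtain ⟨r, hr⟩ : ∃ r : ℤ, (r : ZMod p) = r0 := ⟨r0.val, by simp⟩
  have hdvd : (p : ℤ) ∣ r ^ 2 + d := by
    rw [← ZMod.intCast_zmod_eq_zero_iff_dvd]
    push_cast
    rw [hr]
    push_cast at hr0
    linear_combination (-1 : ZMod p) * hr0
  obtain ⟨r', hr'odd, hr'⟩ : ∃ r' : ℤ, r' % 2 = 1 ∧ (p : ℤ) ∣ r' ^ 2 + d := by
    rcases Int.emod_two_eq_zero_or_one r with h | h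
    · refine ⟨r + p, ?_, ?_⟩
      · have : (p : ℤ) % 2 = 1 := by
          have := Nat.odd_iff.mp hpodd; omega
        omega
      · have : (r + p) ^ 2 + (d : ℤ) = (r ^ 2 + d) + p * (2 * r + p) := by ring
        rw [this]
        exact dvd_add hdvd (dvd_mul_right _ _)
    · exact ⟨r, h, hdvd⟩
  have h2dvd : (2 : ℤ) ∣ r' ^ 2 + d := by
    obtain ⟨s, hs⟩ : ∃ s, r' = 2 * s + 1 := ⟨r' / 2, by omega⟩
    refine ⟨2 * s ^ 2 + 2 * s + 4 * j + 1, ?_⟩
    rw [hs, hd]; push_cast; ring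
  have h2p : (2 : ℤ) * p ∣ r' ^ 2 + d := by
    apply IsCoprime.mul_dvd _ h2dvd hr'
    rw [show (2 : ℤ) = ((2 : ℕ) : ℤ) by norm_num, Nat.isCoprime_iff_coprime]
    exact Nat.coprime_two_left.mpr hpodd
  obtain ⟨k, hk⟩ := h2p
  refine Pool.Agent.Lib.H63.ThreeSquares.three_squares_of_sq (n := n) (d' := d) (r := r') (k := k)
    (by omega) ?_ ?_
  · rw [← hpd]; have := hpp.pos; positivity
  · rw [← hpd, hk]; ring

/-- the squares modulo `8` -/
theorem sq_mod8 (x : ℤ) : (x % 2 = 1 ∧ x ^ 2 % 8 = 1) ∨ (x % 2 = 0 ∧ (x ^ 2 % 8 = 0 ∨ x ^ 2 % 8 = 4)) := by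
  have h : x % 8 = 0 ∨ x % 8 = 1 ∨ x % 8 = 2 ∨ x % 8 = 3 ∨ x % 8 = 4 ∨ x % 8 = 5 ∨ x % 8 = 6 ∨ x % 8 = 7 := by
    omega
  have e : x ^ 2 % 8 = (x % 8) ^ 2 % 8 := ((Int.mod_modEq x 8).pow 2).symm
  rcases h with h | h | h | h | h | h | h | h <;> rw [h] at e <;> norm_num at e <;> omega

/-- the squares modulo `3` -/
theorem sq_mod3 (x : ℤ) : (x % 3 = 0 ∧ x ^ 2 % 3 = 0) ∨ (x % 3 ≠ 0 ∧ x ^ 2 % 3 = 1) := by
  have h : x % 3 = 0 ∨ x % 3 = 1 ∨ x % 3 = 2 := by omega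
  have e : x ^ 2 % 3 = (x % 3) ^ 2 % 3 := ((Int.mod_modEq x 3).pow 2).symm
  rcases h with h | h | h <;> rw [h] at e <;> norm_num at e <;> omega

/-- in a sum of three squares congruent to `3` modulo `8` all terms are odd -/
theorem all_odd {m x y z : ℤ} (hm : m % 8 = 3) (h : m = x ^ 2 + y ^ 2 + z ^ 2) :
    x % 2 = 1 ∧ y % 2 = 1 ∧ z % 2 = 1 := by
  rcases sq_mod8 x with hx | hx <;> rcases sq_mod8 y with hy | hy <;> rcases sq_mod8 z with hz | hz <;> omega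

/-- `n ≡ 3 (mod 8)` is a sum of three odd squares, not all divisible by `3` -/
theorem prim3 (n : ℕ) : n % 8 = 3 → ∃ x y z : ℤ, (n : ℤ) = x ^ 2 + y ^ 2 + z ^ 2 ∧
    ¬ (x % 3 = 0 ∧ y % 3 = 0 ∧ z % 3 = 0) := by
  induction n using Nat.strong_induction_on with
  | _ n ih =>
    intro hn
    obtain ⟨x, y, z, h⟩ := three_squares n hn
    by_cases h3 : x % 3 = 0 ∧ y % 3 = 0 ∧ z % 3 = 0
    · obtain ⟨a, ha⟩ : ∃ a, x = 3 * a := ⟨x / 3, by omega⟩
      obtain ⟨b, hb⟩ : ∃ b, y = 3 * b := ⟨y / 3, by omega⟩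
      obtain ⟨c, hc⟩ : ∃ c, z = 3 * c := ⟨z / 3, by omega⟩
      have h9 : (n : ℤ) = 9 * (a ^ 2 + b ^ 2 + c ^ 2) := by rw [h, ha, hb, hc]; ring
      obtain ⟨m, hm⟩ : ∃ m : ℕ, n = 9 * m := ⟨n / 9, by omega⟩
      obtain ⟨u, v, w, h1, h2⟩ := ih m (by omega) (by omega)
      -- choice of the signs
      obtain ⟨u', v', w', h1', h2'⟩ : ∃ u' v' w' : ℤ, (m : ℤ) = u' ^ 2 + v' ^ 2 + w' ^ 2 ∧
          (u' + v' + w') % 3 ≠ 0 := by
        by_cases c1 : (u + v + w) % 3 = 0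
        · by_cases c2 : (u + v - w) % 3 = 0
          · by_cases c3 : (u - v + w) % 3 = 0
            · refine ⟨u, -v, -w, by rw [h1]; ring, ?_⟩
              intro c4
              exact h2 ⟨by omega, by omega, by omega⟩
            · exact ⟨u, -v, w, by rw [h1]; ring, by rwa [← sub_eq_add_neg]⟩
          · exact ⟨u, v, -w, by rw [h1]; ring, by rwa [← sub_eq_add_neg]⟩
        · exact ⟨u, v, w, h1, c1⟩
      refine ⟨3 * u' - 2 * (u' + v' + w'), 3 * v' - 2 * (u' + v' + w'), 3 * w' - 2 * (u' + v' + w'), ?_, ?_⟩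
      · rw [hm]; push_cast; rw [h1']; ring
      · intro hh; omega
    · exact ⟨x, y, z, h, h3⟩

end H34S
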