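import Pool.Agent.Lib.H34S.Cover
import Pool.Agent.Lib.H34S.Three

/-!
# H34S: from a covering to the theorem, hexagonal numbers
-/

set_option autoImplicit false

namespace H34S

/-- the integer `m` in `k² m = 8 n + 3` is `3` modulo `8` -/
theorem quot_mod8 {k m n : ℕ} (h : 8 * n + 3 = k ^ 2 * m) : m % 8 = 3 := by
  have h1 : (8 * n + 3 : ℤ) = (k : ℤ) ^ 2 * m := by exact_mod_cast h
  have h2 : (k : ℤ) ^ 2 = 8 * ((k : ℤ) ^ 2 / 8) + (k : ℤ) ^ 2 % 8 := (Int.mul_ediv_add_emod _ _).symm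
  rcases sq_mod8 k with ⟨-, h3⟩ | ⟨-, h3 | h3⟩
  · rw [h3] at h2
    rw [h2, show (8 * ((k : ℤ) ^ 2 / 8) + 1) * m = 8 * ((k : ℤ) ^ 2 / 8 * m) + m by ring] at h1
    omega
  · rw [h3] at h2
    rw [h2, show (8 * ((k : ℤ) ^ 2 / 8) + 0) * m = 8 * ((k : ℤ) ^ 2 / 8 * m) by ring] at h1
    omega
  · rw [h3] at h2
    rw [h2, show (8 * ((k : ℤ) ^ 2 / 8) + 4) * m = 8 * ((k : ℤ) ^ 2 / 8 * m) + 4 * m by ring] at h1
    omega

/-- choice of the sign modulo `4` -/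
theorem sign4 {x : ℤ} (h : x % 2 = 1) : ∃ y : ℤ, y ^ 2 = x ^ 2 ∧ y % 4 = 3 := by
  rcases (show x % 4 = 3 ∨ (-x) % 4 = 3 by omega) with h | h
  · exact ⟨x, rfl, h⟩
  · exact ⟨-x, by ring, h⟩

/-- the property of `k` -/
def HexOK (k : ℕ) : Prop := ∀ n : ℕ, k ^ 2 ∣ 8 * n + 3 → Good 4 (8 * n + 3)

theorem HexOK.of_dvd {k l : ℕ} (h : HexOK k) (hkl : k ∣ l) : HexOK l :=
  fun n hn => h n ((pow_dvd_pow_of_dvd hkl 2).trans hn)

theorem hex_of_check {k : ℕ} {t : T} (h : t.check (ok k 4 ⟨3, 3, 3⟩) (fun _ r => r) [] = true) : HexOK k := by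
  rintro n ⟨m, hm⟩
  have hm8 := quot_mod8 hm
  obtain ⟨x, y, z, hxyz⟩ := three_squares m hm8
  obtain ⟨hx, hy, hz⟩ := all_odd (by omega) hxyz
  obtain ⟨x', hx1, hx2⟩ := sign4 hx
  obtain ⟨y', hy1, hy2⟩ := sign4 hy
  obtain ⟨z', hz1, hz2⟩ := sign4 hz
  obtain ⟨-, f, hf, h1, h2, h3⟩ := T.sound (v := ⟨x', y', z'⟩) t [] h (by simp)
  have hg := good_of hf (v := ⟨x', y', z'⟩) ⟨by simpa using hx2, by simpa using hy2, by simpa using hz2⟩ h1 h2 h3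
  have e : (k : ℤ) ^ 2 * (x' ^ 2 + y' ^ 2 + z' ^ 2) = 8 * n + 3 := by
    rw [hx1, hy1, hz1, ← hxyz]; exact_mod_cast hm.symm
  rw [← e]
  exact hg

/-- from squares to hexagonal numbers -/
theorem hex_of_good {n : ℕ} (h : Good 4 (8 * n + 3)) : ∃ a b c : ℕ, 1 ≤ a ∧ 1 ≤ b ∧ 1 ≤ c ∧
    n = a * (2 * a - 1) + b * (2 * b - 1) + c * (2 * c - 1) := by
  obtain ⟨x, y, z, h⟩ := h
  refine ⟨x + 1, y + 1, z + 1, by omega, by omega, by omega, ?_⟩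
  rw [show 2 * (x + 1) - 1 = 2 * x + 1 by omega, show 2 * (y + 1) - 1 = 2 * y + 1 by omega,
    show 2 * (z + 1) - 1 = 2 * z + 1 by omega]
  have h1 : (8 : ℤ) * n = 8 * ((x + 1) * (2 * x + 1) + (y + 1) * (2 * y + 1) + (z + 1) * (2 * z + 1)) := by
    push_cast at h
    linear_combination h
  have h2 : (n : ℤ) = (x + 1) * (2 * x + 1) + (y + 1) * (2 * y + 1) + (z + 1) * (2 * z + 1) := by linarith
  exact_mod_cast h2

end H34S
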