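import Pool.Agent.Lib.H34S.Hex
import Pool.Agent.Lib.H34S.HD1
import Pool.Agent.Lib.H34S.HD2
import Pool.Agent.Lib.H34S.HD3
import Pool.Agent.Lib.H34S.HD4
import Pool.Agent.Lib.H34S.HD5
import Pool.Agent.Lib.H34S.HD6
import Pool.Agent.Lib.H34S.HD7
import Pool.Agent.Lib.H34S.HD8
import Pool.Agent.Lib.H34S.HD9
import Pool.Agent.Lib.H34S.HD10
import Pool.Agent.Lib.H34S.HD11
import Pool.Agent.Lib.H34S.HD12

/-!
# H34S: all certified moduli, hexagonal numbers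
-/

set_option autoImplicit false

namespace H34S

/-- moduli -/
def hexL1 : List ℕ := [
  21, 27, 33, 35, 37, 39, 43, 45, 47, 51, 53, 55, 57, 59, 67, 69, 71, 73, 75, 77]

theorem hexL1_ok : ∀ g ∈ hexL1, HexOK g :=
  List.forall_mem_cons.2 ⟨hex_of_check h21_ok,
  List.forall_mem_cons.2 ⟨hex_of_check h27_ok,
  List.forall_mem_cons.2 ⟨hex_of_check h33_ok,
  List.forall_mem_cons.2 ⟨hex_of_check h35_ok,
  List.forall_mem_cons.2 ⟨hex_of_check h37_ok,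
  List.forall_mem_cons.2 ⟨hex_of_check h39_ok,
  List.forall_mem_cons.2 ⟨hex_of_check h43_ok,
  List.forall_mem_cons.2 ⟨hex_of_check h45_ok,
  List.forall_mem_cons.2 ⟨hex_of_check h47_ok,
  List.forall_mem_cons.2 ⟨hex_of_check h51_ok,
  List.forall_mem_cons.2 ⟨hex_of_check h53_ok,
  List.forall_mem_cons.2 ⟨hex_of_check h55_ok,
  List.forall_mem_cons.2 ⟨hex_of_check h57_ok,
  List.forall_mem_cons.2 ⟨hex_of_check h59_ok,
  List.forall_mem_cons.2 ⟨hex_of_check h67_ok,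
  List.forall_mem_cons.2 ⟨hex_of_check h69_ok,
  List.forall_mem_cons.2 ⟨hex_of_check h71_ok,
  List.forall_mem_cons.2 ⟨hex_of_check h73_ok,
  List.forall_mem_cons.2 ⟨hex_of_check h75_ok,
  List.forall_mem_cons.2 ⟨hex_of_check h77_ok,
  fun _ h => absurd h List.not_mem_nil⟩⟩⟩⟩⟩⟩⟩⟩⟩⟩⟩⟩⟩⟩⟩⟩⟩⟩⟩⟩

/-- moduli -/
def hexL2 : List ℕ := [
  79, 83, 85, 87, 89, 91, 93, 95, 97, 101, 103, 107, 109, 113, 115, 119, 121, 123, 125]

theorem hexL2_ok : ∀ g ∈ hexL2, HexOK g :=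
  List.forall_mem_cons.2 ⟨hex_of_check h79_ok,
  List.forall_mem_cons.2 ⟨hex_of_check h83_ok,
  List.forall_mem_cons.2 ⟨hex_of_check h85_ok,
  List.forall_mem_cons.2 ⟨hex_of_check h87_ok,
  List.forall_mem_cons.2 ⟨hex_of_check h89_ok,
  List.forall_mem_cons.2 ⟨hex_of_check h91_ok,
  List.forall_mem_cons.2 ⟨hex_of_check h93_ok,
  List.forall_mem_cons.2 ⟨hex_of_check h95_ok,
  List.forall_mem_cons.2 ⟨hex_of_check h97_ok,
  List.forall_mem_cons.2 ⟨hex_of_check h101_ok,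
  List.forall_mem_cons.2 ⟨hex_of_check h103_ok,
  List.forall_mem_cons.2 ⟨hex_of_check h107_ok,
  List.forall_mem_cons.2 ⟨hex_of_check h109_ok,
  List.forall_mem_cons.2 ⟨hex_of_check h113_ok,
  List.forall_mem_cons.2 ⟨hex_of_check h115_ok,
  List.forall_mem_cons.2 ⟨hex_of_check h119_ok,
  List.forall_mem_cons.2 ⟨hex_of_check h121_ok,
  List.forall_mem_cons.2 ⟨hex_of_check h123_ok,
  List.forall_mem_cons.2 ⟨hex_of_check h125_ok,
  fun _ h => absurd h List.not_mem_nil⟩⟩⟩⟩⟩⟩⟩⟩⟩⟩⟩⟩⟩⟩⟩⟩⟩⟩⟩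

/-- moduli -/
def hexL3 : List ℕ := [
  127, 131, 133, 137, 139, 143, 145, 149, 151, 155, 161, 163, 167, 169, 173, 179, 181, 183, 187]

theorem hexL3_ok : ∀ g ∈ hexL3, HexOK g :=
  List.forall_mem_cons.2 ⟨hex_of_check h127_ok,
  List.forall_mem_cons.2 ⟨hex_of_check h131_ok,
  List.forall_mem_cons.2 ⟨hex_of_check h133_ok,
  List.forall_mem_cons.2 ⟨hex_of_check h137_ok,
  List.forall_mem_cons.2 ⟨hex_of_check h139_ok,
  List.forall_mem_cons.2 ⟨hex_of_check h143_ok,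
  List.forall_mem_cons.2 ⟨hex_of_check h145_ok,
  List.forall_mem_cons.2 ⟨hex_of_check h149_ok,
  List.forall_mem_cons.2 ⟨hex_of_check h151_ok,
  List.forall_mem_cons.2 ⟨hex_of_check h155_ok,
  List.forall_mem_cons.2 ⟨hex_of_check h161_ok,
  List.forall_mem_cons.2 ⟨hex_of_check h163_ok,
  List.forall_mem_cons.2 ⟨hex_of_check h167_ok,
  List.forall_mem_cons.2 ⟨hex_of_check h169_ok,
  List.forall_mem_cons.2 ⟨hex_of_check h173_ok,
  List.forall_mem_cons.2 ⟨hex_of_check h179_ok,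
  List.forall_mem_cons.2 ⟨hex_of_check h181_ok,
  List.forall_mem_cons.2 ⟨hex_of_check h183_ok,
  List.forall_mem_cons.2 ⟨hex_of_check h187_ok,
  fun _ h => absurd h List.not_mem_nil⟩⟩⟩⟩⟩⟩⟩⟩⟩⟩⟩⟩⟩⟩⟩⟩⟩⟩⟩

/-- moduli -/
def hexL4 : List ℕ := [
  191, 193, 197, 199, 203, 205, 209, 211, 217, 221, 223, 227, 229, 233, 239, 241, 247, 251]

theorem hexL4_ok : ∀ g ∈ hexL4, HexOK g :=
  List.forall_mem_cons.2 ⟨hex_of_check h191_ok,
  List.forall_mem_cons.2 ⟨hex_of_check h193_ok,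
  List.forall_mem_cons.2 ⟨hex_of_check h197_ok,
  List.forall_mem_cons.2 ⟨hex_of_check h199_ok,
  List.forall_mem_cons.2 ⟨hex_of_check h203_ok,
  List.forall_mem_cons.2 ⟨hex_of_check h205_ok,
  List.forall_mem_cons.2 ⟨hex_of_check h209_ok,
  List.forall_mem_cons.2 ⟨hex_of_check h211_ok,
  List.forall_mem_cons.2 ⟨hex_of_check h217_ok,
  List.forall_mem_cons.2 ⟨hex_of_check h221_ok,
  List.forall_mem_cons.2 ⟨hex_of_check h223_ok,
  List.forall_mem_cons.2 ⟨hex_of_check h227_ok,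
  List.forall_mem_cons.2 ⟨hex_of_check h229_ok,
  List.forall_mem_cons.2 ⟨hex_of_check h233_ok,
  List.forall_mem_cons.2 ⟨hex_of_check h239_ok,
  List.forall_mem_cons.2 ⟨hex_of_check h241_ok,
  List.forall_mem_cons.2 ⟨hex_of_check h247_ok,
  List.forall_mem_cons.2 ⟨hex_of_check h251_ok,
  fun _ h => absurd h List.not_mem_nil⟩⟩⟩⟩⟩⟩⟩⟩⟩⟩⟩⟩⟩⟩⟩⟩⟩⟩

/-- moduli -/
def hexL5 : List ℕ := [
  253, 257, 263, 269, 271, 277, 281, 283, 287, 289, 293, 299, 305, 307, 311, 313, 317, 319, 323, 325]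

theorem hexL5_ok : ∀ g ∈ hexL5, HexOK g :=
  List.forall_mem_cons.2 ⟨hex_of_check h253_ok,
  List.forall_mem_cons.2 ⟨hex_of_check h257_ok,
  List.forall_mem_cons.2 ⟨hex_of_check h263_ok,
  List.forall_mem_cons.2 ⟨hex_of_check h269_ok,
  List.forall_mem_cons.2 ⟨hex_of_check h271_ok,
  List.forall_mem_cons.2 ⟨hex_of_check h277_ok,
  List.forall_mem_cons.2 ⟨hex_of_check h281_ok,
  List.forall_mem_cons.2 ⟨hex_of_check h283_ok,
  List.forall_mem_cons.2 ⟨hex_of_check h287_ok,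
  List.forall_mem_cons.2 ⟨hex_of_check h289_ok,
  List.forall_mem_cons.2 ⟨hex_of_check h293_ok,
  List.forall_mem_cons.2 ⟨hex_of_check h299_ok,
  List.forall_mem_cons.2 ⟨hex_of_check h305_ok,
  List.forall_mem_cons.2 ⟨hex_of_check h307_ok,
  List.forall_mem_cons.2 ⟨hex_of_check h311_ok,
  List.forall_mem_cons.2 ⟨hex_of_check h313_ok,
  List.forall_mem_cons.2 ⟨hex_of_check h317_ok,
  List.forall_mem_cons.2 ⟨hex_of_check h319_ok,
  List.forall_mem_cons.2 ⟨hex_of_check h323_ok,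
  List.forall_mem_cons.2 ⟨hex_of_check h325_ok,
  fun _ h => absurd h List.not_mem_nil⟩⟩⟩⟩⟩⟩⟩⟩⟩⟩⟩⟩⟩⟩⟩⟩⟩⟩⟩⟩

/-- moduli -/
def hexL6 : List ℕ := [
  331, 337, 341, 343, 347, 349, 353, 359, 361, 367, 373, 377, 379, 383, 389, 391, 397, 401, 403, 409]

theorem hexL6_ok : ∀ g ∈ hexL6, HexOK g :=
  List.forall_mem_cons.2 ⟨hex_of_check h331_ok,
  List.forall_mem_cons.2 ⟨hex_of_check h337_ok,
  List.forall_mem_cons.2 ⟨hex_of_check h341_ok,
  List.forall_mem_cons.2 ⟨hex_of_check h343_ok,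
  List.forall_mem_cons.2 ⟨hex_of_check h347_ok,
  List.forall_mem_cons.2 ⟨hex_of_check h349_ok,
  List.forall_mem_cons.2 ⟨hex_of_check h353_ok,
  List.forall_mem_cons.2 ⟨hex_of_check h359_ok,
  List.forall_mem_cons.2 ⟨hex_of_check h361_ok,
  List.forall_mem_cons.2 ⟨hex_of_check h367_ok,
  List.forall_mem_cons.2 ⟨hex_of_check h373_ok,
  List.forall_mem_cons.2 ⟨hex_of_check h377_ok,
  List.forall_mem_cons.2 ⟨hex_of_check h379_ok,
  List.forall_mem_cons.2 ⟨hex_of_check h383_ok,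
  List.forall_mem_cons.2 ⟨hex_of_check h389_ok,
  List.forall_mem_cons.2 ⟨hex_of_check h391_ok,
  List.forall_mem_cons.2 ⟨hex_of_check h397_ok,
  List.forall_mem_cons.2 ⟨hex_of_check h401_ok,
  List.forall_mem_cons.2 ⟨hex_of_check h403_ok,
  List.forall_mem_cons.2 ⟨hex_of_check h409_ok,
  fun _ h => absurd h List.not_mem_nil⟩⟩⟩⟩⟩⟩⟩⟩⟩⟩⟩⟩⟩⟩⟩⟩⟩⟩⟩⟩

/-- moduli -/
def hexL7 : List ℕ := [
  419, 421, 427, 431, 433, 437, 439, 443, 449, 451, 457, 461, 463, 467, 471, 479, 487, 491, 493, 499]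

theorem hexL7_ok : ∀ g ∈ hexL7, HexOK g :=
  List.forall_mem_cons.2 ⟨hex_of_check h419_ok,
  List.forall_mem_cons.2 ⟨hex_of_check h421_ok,
  List.forall_mem_cons.2 ⟨hex_of_check h427_ok,
  List.forall_mem_cons.2 ⟨hex_of_check h431_ok,
  List.forall_mem_cons.2 ⟨hex_of_check h433_ok,
  List.forall_mem_cons.2 ⟨hex_of_check h437_ok,
  List.forall_mem_cons.2 ⟨hex_of_check h439_ok,
  List.forall_mem_cons.2 ⟨hex_of_check h443_ok,
  List.forall_mem_cons.2 ⟨hex_of_check h449_ok,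
  List.forall_mem_cons.2 ⟨hex_of_check h451_ok,
  List.forall_mem_cons.2 ⟨hex_of_check h457_ok,
  List.forall_mem_cons.2 ⟨hex_of_check h461_ok,
  List.forall_mem_cons.2 ⟨hex_of_check h463_ok,
  List.forall_mem_cons.2 ⟨hex_of_check h467_ok,
  List.forall_mem_cons.2 ⟨hex_of_check h471_ok,
  List.forall_mem_cons.2 ⟨hex_of_check h479_ok,
  List.forall_mem_cons.2 ⟨hex_of_check h487_ok,
  List.forall_mem_cons.2 ⟨hex_of_check h491_ok,
  List.forall_mem_cons.2 ⟨hex_of_check h493_ok,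
  List.forall_mem_cons.2 ⟨hex_of_check h499_ok,
  fun _ h => absurd h List.not_mem_nil⟩⟩⟩⟩⟩⟩⟩⟩⟩⟩⟩⟩⟩⟩⟩⟩⟩⟩⟩⟩

/-- moduli -/
def hexL8 : List ℕ := [
  503, 509, 521, 523, 527, 529, 533, 541, 547, 551, 557, 563, 569, 571, 577, 587, 589, 593]

theorem hexL8_ok : ∀ g ∈ hexL8, HexOK g :=
  List.forall_mem_cons.2 ⟨hex_of_check h503_ok,
  List.forall_mem_cons.2 ⟨hex_of_check h509_ok,
  List.forall_mem_cons.2 ⟨hex_of_check h521_ok,
  List.forall_mem_cons.2 ⟨hex_of_check h523_ok,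
  List.forall_mem_cons.2 ⟨hex_of_check h527_ok,
  List.forall_mem_cons.2 ⟨hex_of_check h529_ok,
  List.forall_mem_cons.2 ⟨hex_of_check h533_ok,
  List.forall_mem_cons.2 ⟨hex_of_check h541_ok,
  List.forall_mem_cons.2 ⟨hex_of_check h547_ok,
  List.forall_mem_cons.2 ⟨hex_of_check h551_ok,
  List.forall_mem_cons.2 ⟨hex_of_check h557_ok,
  List.forall_mem_cons.2 ⟨hex_of_check h563_ok,
  List.forall_mem_cons.2 ⟨hex_of_check h569_ok,
  List.forall_mem_cons.2 ⟨hex_of_check h571_ok,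
  List.forall_mem_cons.2 ⟨hex_of_check h577_ok,
  List.forall_mem_cons.2 ⟨hex_of_check h587_ok,
  List.forall_mem_cons.2 ⟨hex_of_check h589_ok,
  List.forall_mem_cons.2 ⟨hex_of_check h593_ok,
  fun _ h => absurd h List.not_mem_nil⟩⟩⟩⟩⟩⟩⟩⟩⟩⟩⟩⟩⟩⟩⟩⟩⟩⟩

/-- moduli -/
def hexL9 : List ℕ := [
  599, 601, 607, 613, 617, 619, 631, 641, 643, 647, 653, 659, 661, 667, 671, 673, 677, 683]

theorem hexL9_ok : ∀ g ∈ hexL9, HexOK g :=
  List.forall_mem_cons.2 ⟨hex_of_check h599_ok,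
  List.forall_mem_cons.2 ⟨hex_of_check h601_ok,
  List.forall_mem_cons.2 ⟨hex_of_check h607_ok,
  List.forall_mem_cons.2 ⟨hex_of_check h613_ok,
  List.forall_mem_cons.2 ⟨hex_of_check h617_ok,
  List.forall_mem_cons.2 ⟨hex_of_check h619_ok,
  List.forall_mem_cons.2 ⟨hex_of_check h631_ok,
  List.forall_mem_cons.2 ⟨hex_of_check h641_ok,
  List.forall_mem_cons.2 ⟨hex_of_check h643_ok,
  List.forall_mem_cons.2 ⟨hex_of_check h647_ok,
  List.forall_mem_cons.2 ⟨hex_of_check h653_ok,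
  List.forall_mem_cons.2 ⟨hex_of_check h659_ok,
  List.forall_mem_cons.2 ⟨hex_of_check h661_ok,
  List.forall_mem_cons.2 ⟨hex_of_check h667_ok,
  List.forall_mem_cons.2 ⟨hex_of_check h671_ok,
  List.forall_mem_cons.2 ⟨hex_of_check h673_ok,
  List.forall_mem_cons.2 ⟨hex_of_check h677_ok,
  List.forall_mem_cons.2 ⟨hex_of_check h683_ok,
  fun _ h => absurd h List.not_mem_nil⟩⟩⟩⟩⟩⟩⟩⟩⟩⟩⟩⟩⟩⟩⟩⟩⟩⟩

/-- moduli -/
def hexL10 : List ℕ := [
  691, 697, 701, 709, 713, 719, 727, 733, 739, 743, 751, 757, 761, 769, 773, 779, 785, 787]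

theorem hexL10_ok : ∀ g ∈ hexL10, HexOK g :=
  List.forall_mem_cons.2 ⟨hex_of_check h691_ok,
  List.forall_mem_cons.2 ⟨hex_of_check h697_ok,
  List.forall_mem_cons.2 ⟨hex_of_check h701_ok,
  List.forall_mem_cons.2 ⟨hex_of_check h709_ok,
  List.forall_mem_cons.2 ⟨hex_of_check h713_ok,
  List.forall_mem_cons.2 ⟨hex_of_check h719_ok,
  List.forall_mem_cons.2 ⟨hex_of_check h727_ok,
  List.forall_mem_cons.2 ⟨hex_of_check h733_ok,
  List.forall_mem_cons.2 ⟨hex_of_check h739_ok,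
  List.forall_mem_cons.2 ⟨hex_of_check h743_ok,
  List.forall_mem_cons.2 ⟨hex_of_check h751_ok,
  List.forall_mem_cons.2 ⟨hex_of_check h757_ok,
  List.forall_mem_cons.2 ⟨hex_of_check h761_ok,
  List.forall_mem_cons.2 ⟨hex_of_check h769_ok,
  List.forall_mem_cons.2 ⟨hex_of_check h773_ok,
  List.forall_mem_cons.2 ⟨hex_of_check h779_ok,
  List.forall_mem_cons.2 ⟨hex_of_check h785_ok,
  List.forall_mem_cons.2 ⟨hex_of_check h787_ok,
  fun _ h => absurd h List.not_mem_nil⟩⟩⟩⟩⟩⟩⟩⟩⟩⟩⟩⟩⟩⟩⟩⟩⟩⟩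

/-- moduli -/
def hexL11 : List ℕ := [
  793, 797, 809, 811, 821, 823, 827, 829, 839, 841, 853, 857, 859, 863, 877, 881, 883, 887]

theorem hexL11_ok : ∀ g ∈ hexL11, HexOK g :=
  List.forall_mem_cons.2 ⟨hex_of_check h793_ok,
  List.forall_mem_cons.2 ⟨hex_of_check h797_ok,
  List.forall_mem_cons.2 ⟨hex_of_check h809_ok,
  List.forall_mem_cons.2 ⟨hex_of_check h811_ok,
  List.forall_mem_cons.2 ⟨hex_of_check h821_ok,
  List.forall_mem_cons.2 ⟨hex_of_check h823_ok,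
  List.forall_mem_cons.2 ⟨hex_of_check h827_ok,
  List.forall_mem_cons.2 ⟨hex_of_check h829_ok,
  List.forall_mem_cons.2 ⟨hex_of_check h839_ok,
  List.forall_mem_cons.2 ⟨hex_of_check h841_ok,
  List.forall_mem_cons.2 ⟨hex_of_check h853_ok,
  List.forall_mem_cons.2 ⟨hex_of_check h857_ok,
  List.forall_mem_cons.2 ⟨hex_of_check h859_ok,
  List.forall_mem_cons.2 ⟨hex_of_check h863_ok,
  List.forall_mem_cons.2 ⟨hex_of_check h877_ok,
  List.forall_mem_cons.2 ⟨hex_of_check h881_ok,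
  List.forall_mem_cons.2 ⟨hex_of_check h883_ok,
  List.forall_mem_cons.2 ⟨hex_of_check h887_ok,
  fun _ h => absurd h List.not_mem_nil⟩⟩⟩⟩⟩⟩⟩⟩⟩⟩⟩⟩⟩⟩⟩⟩⟩⟩

/-- moduli -/
def hexL12 : List ℕ := [
  899, 907, 911, 919, 929, 937, 941, 943, 947, 953, 961, 967, 971, 977, 983, 991, 997]

theorem hexL12_ok : ∀ g ∈ hexL12, HexOK g :=
  List.forall_mem_cons.2 ⟨hex_of_check h899_ok,
  List.forall_mem_cons.2 ⟨hex_of_check h907_ok,
  List.forall_mem_cons.2 ⟨hex_of_check h911_ok,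
  List.forall_mem_cons.2 ⟨hex_of_check h919_ok,
  List.forall_mem_cons.2 ⟨hex_of_check h929_ok,
  List.forall_mem_cons.2 ⟨hex_of_check h937_ok,
  List.forall_mem_cons.2 ⟨hex_of_check h941_ok,
  List.forall_mem_cons.2 ⟨hex_of_check h943_ok,
  List.forall_mem_cons.2 ⟨hex_of_check h947_ok,
  List.forall_mem_cons.2 ⟨hex_of_check h953_ok,
  List.forall_mem_cons.2 ⟨hex_of_check h961_ok,
  List.forall_mem_cons.2 ⟨hex_of_check h967_ok,
  List.forall_mem_cons.2 ⟨hex_of_check h971_ok,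
  List.forall_mem_cons.2 ⟨hex_of_check h977_ok,
  List.forall_mem_cons.2 ⟨hex_of_check h983_ok,
  List.forall_mem_cons.2 ⟨hex_of_check h991_ok,
  List.forall_mem_cons.2 ⟨hex_of_check h997_ok,
  fun _ h => absurd h List.not_mem_nil⟩⟩⟩⟩⟩⟩⟩⟩⟩⟩⟩⟩⟩⟩⟩⟩⟩

/-- all certified moduli -/
def hexL : List ℕ := hexL1 ++ hexL2 ++ hexL3 ++ hexL4 ++ hexL5 ++ hexL6 ++ hexL7 ++ hexL8 ++ hexL9 ++ hexL10 ++ hexL11 ++ hexL12

theorem hexL_ok : ∀ g ∈ hexL, HexOK g := by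
  intro g hg
  simp only [hexL, List.mem_append] at hg
  rcases hg with ((((((((((hg | hg) | hg) | hg) | hg) | hg) | hg) | hg) | hg) | hg) | hg) | hg
  · exact hexL1_ok g hg
  · exact hexL2_ok g hg
  · exact hexL3_ok g hg
  · exact hexL4_ok g hg
  · exact hexL5_ok g hg
  · exact hexL6_ok g hg
  · exact hexL7_ok g hg
  · exact hexL8_ok g hg
  · exact hexL9_ok g hg
  · exact hexL10_ok g hg
  · exact hexL11_ok g hg
  · exact hexL12_ok g hg

/-- the certified moduli divide all moduli of the theorem -/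
theorem hex_cover : ((List.range 1000).all fun k =>
    (k % 2 == 0) || ((decide (k < 67) && !([21, 27, 33, 35, 37, 39, 43, 45, 47, 51, 53, 55, 57, 59].contains k)) ||
      ((k == 157) || (hexL.any fun g => k % g == 0)))) = true := by decide +kernel

theorem hex_all {k : ℕ} (h2 : k % 2 = 1) (h : k ∈ [21, 27, 33, 35, 37, 39, 43, 45, 47, 51, 53, 55, 57, 59] ∨
    (67 ≤ k ∧ k < 1000 ∧ k ≠ 157)) : HexOK k := by
  have hk : k < 1000 := by
    rcases h with h | h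
    · fin_cases h <;> omega
    · exact h.2.1
  have h1 := List.all_eq_true.mp hex_cover k (List.mem_range.mpr hk)
  simp only [Bool.or_eq_true, Bool.and_eq_true, Bool.not_eq_true', decide_eq_true_eq, beq_iff_eq, List.any_eq_true] at h1
  rcases h1 with h1 | ⟨h1, h3⟩ | h1 | ⟨g, hg, h1⟩
  · omega
  · rcases h with h | h
    · rw [List.contains_eq_mem, decide_eq_false_iff_not] at h3
      exact absurd h h3
    · omega
  · rcases h with h | h
    · rw [h1] at h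
      exact absurd h (by decide)
    · exact absurd h1 h.2.2
  · exact (hexL_ok g hg).of_dvd (Nat.dvd_of_mod_eq_zero h1)

end H34S
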