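import Pool.Agent.Lib.H34S.Arr

/-!
# H34S: all large moduli, pentagonal numbers
-/

set_option autoImplicit false

namespace H34S

/-- the quaternion of case A -/
theorem getA {κ : ℤ} (h4 : κ % 4 = 1 ∨ κ % 4 = 2 ∨ κ % 4 = 3) (hK : 400000000 ≤ κ) :
    ∃ p0 p1 p2 p3 : ℤ, (1 + 3 * p0) ^ 2 + (3 * p1) ^ 2 + (-1 + 3 * p2) ^ 2 + (1 + 3 * p3) ^ 2 = 3 * κ ∧
      684 * ((3 * p1) ^ 2 + (-1 + 3 * p2) ^ 2 + (1 + 3 * p3) ^ 2) < (1 + 3 * p0) ^ 2 := by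
  obtain ⟨r, hr, hr3⟩ : ∃ r : ℤ, (∀ s : ℤ, s % 6 = r % 6 → s % 3 = 1 ∧
      ((3 * κ - s ^ 2) % 4 = 1 ∨ (3 * κ - s ^ 2) % 4 = 2)) ∧ r % 3 = 1 := by
    rcases h4 with h | h | h
    · refine ⟨1, fun s hs => ?_, rfl⟩
      rcases sq_mod8 s with h8 | h8 <;> omega
    · refine ⟨1, fun s hs => ?_, rfl⟩
      rcases sq_mod8 s with h8 | h8 <;> omega
    · refine ⟨4, fun s hs => ?_, rfl⟩
      rcases sq_mod8 s with h8 | h8 <;> omega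
  obtain ⟨s, hs1, hs2, hs3⟩ := choose_s (3 * κ) 6 r (by norm_num) (by omega)
  obtain ⟨h3, h12⟩ := hr s hs1
  obtain ⟨x, y, z, hxyz, -⟩ := prim12' (n := 3 * κ - s ^ 2) (by omega) h12
  obtain ⟨a, b, c, habc, ha, hb, hc⟩ := arrA (W := 3 * κ - s ^ 2)
    (by rcases sq_mod3 s with h | h <;> omega) ⟨x, y, z, hxyz⟩
  obtain ⟨p0, rfl⟩ : ∃ p, s = 1 + 3 * p := ⟨(s - 1) / 3, by omega⟩
  obtain ⟨p1, rfl⟩ : ∃ p, a = 3 * p := ⟨a / 3, by omega⟩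
  obtain ⟨p2, rfl⟩ : ∃ p, b = -1 + 3 * p := ⟨(b + 1) / 3, by omega⟩
  obtain ⟨p3, rfl⟩ : ∃ p, c = 1 + 3 * p := ⟨(c - 1) / 3, by omega⟩
  exact ⟨p0, p1, p2, p3, by linarith, by linarith⟩

/-- the quaternion of case C -/
theorem getC {κ : ℤ} (h4 : κ % 4 = 1 ∨ κ % 4 = 2 ∨ κ % 4 = 3) (hK : 400000000 ≤ κ) :
    ∃ p0 p1 p2 p3 : ℤ, (3 * p0) ^ 2 + (1 + 3 * p1) ^ 2 + (1 + 3 * p2) ^ 2 + (1 + 3 * p3) ^ 2 = 3 * κ ∧
      684 * ((1 + 3 * p1) ^ 2 + (1 + 3 * p2) ^ 2 + (1 + 3 * p3) ^ 2) < (3 * p0) ^ 2 := by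
  obtain ⟨r, hr, hr3⟩ : ∃ r : ℤ, (∀ s : ℤ, s % 6 = r % 6 → s % 3 = 0 ∧
      ((3 * κ - s ^ 2) % 4 = 1 ∨ (3 * κ - s ^ 2) % 4 = 2)) ∧ r % 3 = 0 := by
    rcases h4 with h | h | h
    · refine ⟨3, fun s hs => ?_, rfl⟩
      rcases sq_mod8 s with h8 | h8 <;> omega
    · refine ⟨3, fun s hs => ?_, rfl⟩
      rcases sq_mod8 s with h8 | h8 <;> omega
    · refine ⟨0, fun s hs => ?_, rfl⟩
      rcases sq_mod8 s with h8 | h8 <;> omega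
  obtain ⟨s, hs1, hs2, hs3⟩ := choose_s (3 * κ) 6 r (by norm_num) (by omega)
  obtain ⟨h3, h12⟩ := hr s hs1
  obtain ⟨a, b, c, habc, ha, hb, hc⟩ := arrC (W := 3 * κ - s ^ 2)
    (by rcases sq_mod3 s with h | h <;> omega) (prim12' (by omega) h12)
  obtain ⟨p0, rfl⟩ : ∃ p, s = 3 * p := ⟨s / 3, by omega⟩
  obtain ⟨p1, rfl⟩ : ∃ p, a = 1 + 3 * p := ⟨(a - 1) / 3, by omega⟩
  obtain ⟨p2, rfl⟩ : ∃ p, b = 1 + 3 * p := ⟨(b - 1) / 3, by omega⟩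
  obtain ⟨p3, rfl⟩ : ∃ p, c = 1 + 3 * p := ⟨(c - 1) / 3, by omega⟩
  exact ⟨p0, p1, p2, p3, by linarith, by linarith⟩

/-- the choice of `s` in case B -/
theorem getB {κ : ℤ} (h4 : κ % 4 = 1 ∨ κ % 4 = 2 ∨ κ % 4 = 3) (h3 : κ % 3 ≠ 0) (hK : 400000000 ≤ κ) :
    ∃ s : ℤ, s % 3 = 1 ∧ s % 5 = 0 ∧ (5 * κ - s ^ 2) % 5 = 0 ∧
      ((5 * κ - s ^ 2) % 3 = 0 ∨ (5 * κ - s ^ 2) % 3 = 1) ∧ 684 * (5 * κ - s ^ 2) < s ^ 2 ∧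
      ∃ x y z : ℤ, 5 * κ - s ^ 2 = x ^ 2 + y ^ 2 + z ^ 2 ∧ ¬ (x % 3 = 0 ∧ y % 3 = 0 ∧ z % 3 = 0) := by
  obtain ⟨r, hr⟩ : ∃ r : ℤ, ∀ s : ℤ, s % 30 = r % 30 → s % 3 = 1 ∧ s % 5 = 0 ∧
      ((5 * κ - s ^ 2) % 4 = 1 ∨ (5 * κ - s ^ 2) % 4 = 2) := by
    rcases h4 with h | h | h
    · refine ⟨10, fun s hs => ?_⟩
      rcases sq_mod8 s with h8 | h8 <;> omega
    · refine ⟨10, fun s hs => ?_⟩
      rcases sq_mod8 s with h8 | h8 <;> omega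
    · refine ⟨25, fun s hs => ?_⟩
      rcases sq_mod8 s with h8 | h8 <;> omega
  obtain ⟨s, hs1, hs2, hs3⟩ := choose_s (5 * κ) 30 r (by norm_num) (by omega)
  obtain ⟨e3, e5, h12⟩ := hr s hs1
  have f5 : s ^ 2 % 5 = 0 := by rcases sq_mod5 s with h | h | h <;> omega
  have f3 : s ^ 2 % 3 = 1 := by rcases sq_mod3 s with h | h <;> omega
  exact ⟨s, e3, e5, by omega, by omega, hs3, prim12' (by omega) h12⟩

/-- case A -/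
theorem caseA {k m : ℕ} {x y z : ℤ} (hk : k % 2 = 1) (hK : 400000000 ≤ k)
    (h8 : ((k : ℤ) ^ 2 * m) % 8 = 3) (hm : (m : ℤ) = x ^ 2 + y ^ 2 + z ^ 2)
    (hx : x % 3 = 2) (hy : y % 3 = 2) (hz : z % 3 = 2)
    (h : (6 * y < x ∧ -x < 6 * y ∧ 6 * z < x ∧ -x < 6 * z) ∨ (6 * y < -x ∧ x < 6 * y ∧ 6 * z < -x ∧ x < 6 * z)) :
    Good 6 ((k : ℤ) ^ 2 * m) := by
  obtain ⟨t, ht⟩ : ∃ t, z = 3 * t - x - y := ⟨(x + y + z) / 3, by omega⟩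
  have row : ∀ p0 p1 p2 p3 : ℤ, Row (-1 - p0 + p2 - p3) (-p1 + p2 + p3) (-p0 - p1 - p2) (p0 - p1 - p3) := by
    intro p0 p1 p2 p3
    refine ⟨?_, ?_, ?_⟩
    · rw [show R1 (-1 - p0 + p2 - p3) (-p1 + p2 + p3) (-p0 - p1 - p2) (p0 - p1 - p3) 1 1 1 = 1 + 3 * (2 * p0 + p0 ^ 2
        + p1 ^ 2 - p2 ^ 2 - p3 ^ 2 - 2 * p1 * p2 + 2 * p0 * p3 - 2 * p1 * p3 - 2 * p0 * p2) by unfold R1; ring]
      exact Int.add_mul_emod_self_left _ _ _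
    · rw [show R2 (-1 - p0 + p2 - p3) (-p1 + p2 + p3) (-p0 - p1 - p2) (p0 - p1 - p3) 1 1 1 = 1 + 3 * (2 * p3 - p0 ^ 2
        + p1 ^ 2 - p2 ^ 2 + p3 ^ 2 + 2 * p1 * p2 + 2 * p0 * p3 - 2 * p2 * p3 + 2 * p0 * p1) by unfold R2; ring]
      exact Int.add_mul_emod_self_left _ _ _
    · rw [show R3 (-1 - p0 + p2 - p3) (-p1 + p2 + p3) (-p0 - p1 - p2) (p0 - p1 - p3) 1 1 1 = 1 + 3 * (-2 * p2 - p0 ^ 2
        + p1 ^ 2 + p2 ^ 2 - p3 ^ 2 + 2 * p1 * p3 - 2 * p0 * p2 - 2 * p2 * p3 - 2 * p0 * p1) by unfold R3; ring]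
      exact Int.add_mul_emod_self_left _ _ _
  have e1 : ∀ p0 p1 p2 p3 : ℤ, R1 (1 + 3 * p0) (3 * p1) (-1 + 3 * p2) (1 + 3 * p3) (2 * t - x) (y - 2 * t) (z - 2 * t)
      = 3 * R1 (-1 - p0 + p2 - p3) (-p1 + p2 + p3) (-p0 - p1 - p2) (p0 - p1 - p3) x y z := by
    intro p0 p1 p2 p3; rw [ht]; unfold R1; ring
  have e2 : ∀ p0 p1 p2 p3 : ℤ, R2 (1 + 3 * p0) (3 * p1) (-1 + 3 * p2) (1 + 3 * p3) (2 * t - x) (y - 2 * t) (z - 2 * t)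
      = 3 * R2 (-1 - p0 + p2 - p3) (-p1 + p2 + p3) (-p0 - p1 - p2) (p0 - p1 - p3) x y z := by
    intro p0 p1 p2 p3; rw [ht]; unfold R2; ring
  have e3 : ∀ p0 p1 p2 p3 : ℤ, R3 (1 + 3 * p0) (3 * p1) (-1 + 3 * p2) (1 + 3 * p3) (2 * t - x) (y - 2 * t) (z - 2 * t)
      = 3 * R3 (-1 - p0 + p2 - p3) (-p1 + p2 + p3) (-p0 - p1 - p2) (p0 - p1 - p3) x y z := by
    intro p0 p1 p2 p3; rw [ht]; unfold R3; ring
  have en : ∀ p0 p1 p2 p3 : ℤ, (1 + 3 * p0) ^ 2 + (3 * p1) ^ 2 + (-1 + 3 * p2) ^ 2 + (1 + 3 * p3) ^ 2 =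
      3 * ((-1 - p0 + p2 - p3) ^ 2 + (-p1 + p2 + p3) ^ 2 + (-p0 - p1 - p2) ^ 2 + (p0 - p1 - p3) ^ 2) := by
    intro p0 p1 p2 p3; ring
  rcases h with ⟨h1, h2, h3, h4⟩ | ⟨h1, h2, h3, h4⟩
  · obtain ⟨p0, p1, p2, p3, g1, g2⟩ := getA (κ := 2 * k) (by omega) (by omega)
    obtain ⟨n1, n2, n3⟩ := near_neg (x := 2 * t - x) (y := y - 2 * t) (z := z - 2 * t) (M := x) (by omega) (by omega)
      (by omega) (by omega) (by omega) (by omega) (by omega) g2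
    rw [e1] at n1
    rw [e2] at n2
    rw [e3] at n3
    rw [en] at g1
    obtain ⟨r1, r2, r3⟩ := row p0 p1 p2 p3
    exact fin_two (by omega) h8 hm hx hy hz r1 r2 r3 (by omega) (by omega) (by omega)
  · obtain ⟨p0, p1, p2, p3, g1, g2⟩ := getA (κ := k) (by omega) (by omega)
    obtain ⟨n1, n2, n3⟩ := near_pos (x := 2 * t - x) (y := y - 2 * t) (z := z - 2 * t) (M := -x) (by omega) (by omega)
      (by omega) (by omega) (by omega) (by omega) (by omega) g2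
    rw [e1] at n1
    rw [e2] at n2
    rw [e3] at n3
    rw [en] at g1
    obtain ⟨r1, r2, r3⟩ := row p0 p1 p2 p3
    exact fin_one (by omega) h8 hm hx hy hz r1 r2 r3 (by omega) (by omega) (by omega)

/-- case C -/
theorem caseC {k m : ℕ} {x y z : ℤ} (hk : k % 2 = 1) (hK : 400000000 ≤ k)
    (h8 : ((k : ℤ) ^ 2 * m) % 8 = 3) (hm : (m : ℤ) = x ^ 2 + y ^ 2 + z ^ 2)
    (hx : x % 3 = 2) (hy : y % 3 = 2) (hz : z % 3 = 2)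
    (h : (0 < x ∧ y ≤ x ∧ z ≤ y ∧ x < 2 * z) ∨ (x < 0 ∧ x ≤ y ∧ y ≤ z ∧ 2 * z < x)) :
    Good 6 ((k : ℤ) ^ 2 * m) := by
  obtain ⟨t, ht⟩ : ∃ t, z = 3 * t - x - y := ⟨(x + y + z) / 3, by omega⟩
  have row : ∀ p0 p1 p2 p3 : ℤ, Row (-1 - p1 - p2 - p3) (p0 + p2 - p3) (p0 - p1 + p3) (p0 + p1 - p2) := by
    intro p0 p1 p2 p3
    refine ⟨?_, ?_, ?_⟩
    · rw [show R1 (-1 - p1 - p2 - p3) (p0 + p2 - p3) (p0 - p1 + p3) (p0 + p1 - p2) 1 1 1 = 1 + 3 * (2 * p1 + p0 ^ 2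
        + p1 ^ 2 - p2 ^ 2 - p3 ^ 2 + 2 * p1 * p2 - 2 * p0 * p3 + 2 * p1 * p3 + 2 * p0 * p2) by unfold R1; ring]
      exact Int.add_mul_emod_self_left _ _ _
    · rw [show R2 (-1 - p1 - p2 - p3) (p0 + p2 - p3) (p0 - p1 + p3) (p0 + p1 - p2) 1 1 1 = 1 + 3 * (2 * p2 + p0 ^ 2
        - p1 ^ 2 + p2 ^ 2 - p3 ^ 2 + 2 * p1 * p2 + 2 * p0 * p3 + 2 * p2 * p3 - 2 * p0 * p1) by unfold R2; ring]
      exact Int.add_mul_emod_self_left _ _ _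
    · rw [show R3 (-1 - p1 - p2 - p3) (p0 + p2 - p3) (p0 - p1 + p3) (p0 + p1 - p2) 1 1 1 = 1 + 3 * (2 * p3 + p0 ^ 2
        - p1 ^ 2 - p2 ^ 2 + p3 ^ 2 + 2 * p1 * p3 - 2 * p0 * p2 + 2 * p2 * p3 + 2 * p0 * p1) by unfold R3; ring]
      exact Int.add_mul_emod_self_left _ _ _
  have e1 : ∀ p0 p1 p2 p3 : ℤ, R1 (3 * p0) (1 + 3 * p1) (1 + 3 * p2) (1 + 3 * p3) (2 * t - x) (2 * t - y) (2 * t - z)
      = 3 * R1 (-1 - p1 - p2 - p3) (p0 + p2 - p3) (p0 - p1 + p3) (p0 + p1 - p2) x y z := by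
    intro p0 p1 p2 p3; rw [ht]; unfold R1; ring
  have e2 : ∀ p0 p1 p2 p3 : ℤ, R2 (3 * p0) (1 + 3 * p1) (1 + 3 * p2) (1 + 3 * p3) (2 * t - x) (2 * t - y) (2 * t - z)
      = 3 * R2 (-1 - p1 - p2 - p3) (p0 + p2 - p3) (p0 - p1 + p3) (p0 + p1 - p2) x y z := by
    intro p0 p1 p2 p3; rw [ht]; unfold R2; ring
  have e3 : ∀ p0 p1 p2 p3 : ℤ, R3 (3 * p0) (1 + 3 * p1) (1 + 3 * p2) (1 + 3 * p3) (2 * t - x) (2 * t - y) (2 * t - z)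
      = 3 * R3 (-1 - p1 - p2 - p3) (p0 + p2 - p3) (p0 - p1 + p3) (p0 + p1 - p2) x y z := by
    intro p0 p1 p2 p3; rw [ht]; unfold R3; ring
  have en : ∀ p0 p1 p2 p3 : ℤ, (3 * p0) ^ 2 + (1 + 3 * p1) ^ 2 + (1 + 3 * p2) ^ 2 + (1 + 3 * p3) ^ 2 =
      3 * ((-1 - p1 - p2 - p3) ^ 2 + (p0 + p2 - p3) ^ 2 + (p0 - p1 + p3) ^ 2 + (p0 + p1 - p2) ^ 2) := by
    intro p0 p1 p2 p3; ring
  rcases h with ⟨h1, h2, h3, h4⟩ | ⟨h1, h2, h3, h4⟩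
  · obtain ⟨p0, p1, p2, p3, g1, g2⟩ := getC (κ := k) (by omega) (by omega)
    obtain ⟨n1, n2, n3⟩ := near_pos (x := 2 * t - x) (y := 2 * t - y) (z := 2 * t - z) (M := 2 * x) (by omega)
      (by omega) (by omega) (by omega) (by omega) (by omega) (by omega) g2
    rw [e1] at n1
    rw [e2] at n2
    rw [e3] at n3
    rw [en] at g1
    obtain ⟨r1, r2, r3⟩ := row p0 p1 p2 p3
    exact fin_one (by omega) h8 hm hx hy hz r1 r2 r3 (by omega) (by omega) (by omega)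
  · obtain ⟨p0, p1, p2, p3, g1, g2⟩ := getC (κ := 2 * k) (by omega) (by omega)
    obtain ⟨n1, n2, n3⟩ := near_neg (x := 2 * t - x) (y := 2 * t - y) (z := 2 * t - z) (M := -(2 * x)) (by omega)
      (by omega) (by omega) (by omega) (by omega) (by omega) (by omega) g2
    rw [e1] at n1
    rw [e2] at n2
    rw [e3] at n3
    rw [en] at g1
    obtain ⟨r1, r2, r3⟩ := row p0 p1 p2 p3
    exact fin_two (by omega) h8 hm hx hy hz r1 r2 r3 (by omega) (by omega) (by omega)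

/-- the quaternion of case B, first kind -/
theorem quatB1 {κ : ℤ} (h4 : κ % 4 = 1 ∨ κ % 4 = 2 ∨ κ % 4 = 3) (h3 : κ % 3 ≠ 0) (hK : 400000000 ≤ κ) :
    ∃ q0 q1 q2 q3 s a b c : ℤ, 5 * q0 = 2 * s + b ∧ 5 * q1 = 2 * a + c ∧ 5 * q2 = -s + 2 * b ∧
      5 * q3 = -a + 2 * c ∧ q0 ^ 2 + q1 ^ 2 + q2 ^ 2 + q3 ^ 2 = κ ∧ Row q0 q1 q2 q3 ∧
      684 * (a ^ 2 + b ^ 2 + c ^ 2) < s ^ 2 := by
  obtain ⟨s, e3, e5, w5, w3, hW, hrep⟩ := getB h4 h3 hK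
  obtain ⟨a, b, c, habc, hb, hc, hpat⟩ := arrB1 w5 w3 hrep
  obtain ⟨q0, hq0⟩ : ∃ q, 5 * q = 2 * s + b := ⟨(2 * s + b) / 5, by omega⟩
  obtain ⟨q1, hq1⟩ : ∃ q, 5 * q = 2 * a + c := ⟨(2 * a + c) / 5, by omega⟩
  obtain ⟨q2, hq2⟩ : ∃ q, 5 * q = -s + 2 * b := ⟨(-s + 2 * b) / 5, by omega⟩
  obtain ⟨q3, hq3⟩ : ∃ q, 5 * q = -a + 2 * c := ⟨(-a + 2 * c) / 5, by omega⟩
  refine ⟨q0, q1, q2, q3, s, a, b, c, hq0, hq1, hq2, hq3, ?_, ?_, by rw [← habc]; exact hW⟩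
  · have h1 : 25 * (q0 ^ 2 + q1 ^ 2 + q2 ^ 2 + q3 ^ 2) = 5 * (s ^ 2 + (a ^ 2 + b ^ 2 + c ^ 2)) := by
      linear_combination (5 * q0 + (2 * s + b)) * hq0 + (5 * q1 + (2 * a + c)) * hq1 + (5 * q2 + (-s + 2 * b)) * hq2
        + (5 * q3 + (-a + 2 * c)) * hq3
    rw [← habc] at h1
    linarith
  · rcases hpat with ⟨ha, hb', hc' | hc'⟩ | ⟨ha, hb', hc'⟩ | ⟨ha, hb', hc'⟩
    · exact row_of_mod (a' := 0) (b' := 1) (c' := 2) (d' := 0) (by omega) (by omega) (by omega) (by omega)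
        ⟨by norm_num [R1], by norm_num [R2], by norm_num [R3]⟩
    · exact row_of_mod (a' := 0) (b' := 0) (c' := 2) (d' := 1) (by omega) (by omega) (by omega) (by omega)
        ⟨by norm_num [R1], by norm_num [R2], by norm_num [R3]⟩
    · exact row_of_mod (a' := 1) (b' := 1) (c' := 1) (d' := 1) (by omega) (by omega) (by omega) (by omega)
        ⟨by norm_num [R1], by norm_num [R2], by norm_num [R3]⟩
    · exact row_of_mod (a' := 2) (b' := 0) (c' := 0) (d' := 0) (by omega) (by omega) (by omega) (by omega)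
        ⟨by norm_num [R1], by norm_num [R2], by norm_num [R3]⟩

/-- the quaternion of case B, second kind -/
theorem quatB2 {κ : ℤ} (h4 : κ % 4 = 1 ∨ κ % 4 = 2 ∨ κ % 4 = 3) (h3 : κ % 3 ≠ 0) (hK : 400000000 ≤ κ) :
    ∃ q0 q1 q2 q3 s a b c : ℤ, 5 * q0 = s - 2 * b ∧ 5 * q1 = a - 2 * c ∧ 5 * q2 = 2 * s + b ∧
      5 * q3 = 2 * a + c ∧ q0 ^ 2 + q1 ^ 2 + q2 ^ 2 + q3 ^ 2 = κ ∧ Row q0 q1 q2 q3 ∧
      684 * (a ^ 2 + b ^ 2 + c ^ 2) < s ^ 2 := by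
  obtain ⟨s, e3, e5, w5, w3, hW, hrep⟩ := getB h4 h3 hK
  obtain ⟨a, b, c, habc, hb, hc, hpat⟩ := arrB2 w5 w3 hrep
  obtain ⟨q0, hq0⟩ : ∃ q, 5 * q = s - 2 * b := ⟨(s - 2 * b) / 5, by omega⟩
  obtain ⟨q1, hq1⟩ : ∃ q, 5 * q = a - 2 * c := ⟨(a - 2 * c) / 5, by omega⟩
  obtain ⟨q2, hq2⟩ : ∃ q, 5 * q = 2 * s + b := ⟨(2 * s + b) / 5, by omega⟩
  obtain ⟨q3, hq3⟩ : ∃ q, 5 * q = 2 * a + c := ⟨(2 * a + c) / 5, by omega⟩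
  refine ⟨q0, q1, q2, q3, s, a, b, c, hq0, hq1, hq2, hq3, ?_, ?_, by rw [← habc]; exact hW⟩
  · have h1 : 25 * (q0 ^ 2 + q1 ^ 2 + q2 ^ 2 + q3 ^ 2) = 5 * (s ^ 2 + (a ^ 2 + b ^ 2 + c ^ 2)) := by
      linear_combination (5 * q0 + (s - 2 * b)) * hq0 + (5 * q1 + (a - 2 * c)) * hq1 + (5 * q2 + (2 * s + b)) * hq2
        + (5 * q3 + (2 * a + c)) * hq3
    rw [← habc] at h1
    linarith
  · rcases hpat with ⟨ha | ha, hb', hc'⟩ | ⟨ha, hb', hc'⟩ | ⟨ha, hb', hc'⟩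
    · exact row_of_mod (a' := 0) (b' := 1) (c' := 2) (d' := 0) (by omega) (by omega) (by omega) (by omega)
        ⟨by norm_num [R1], by norm_num [R2], by norm_num [R3]⟩
    · exact row_of_mod (a' := 0) (b' := 0) (c' := 2) (d' := 1) (by omega) (by omega) (by omega) (by omega)
        ⟨by norm_num [R1], by norm_num [R2], by norm_num [R3]⟩
    · exact row_of_mod (a' := 1) (b' := 0) (c' := 0) (d' := 0) (by omega) (by omega) (by omega) (by omega)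
        ⟨by norm_num [R1], by norm_num [R2], by norm_num [R3]⟩
    · exact row_of_mod (a' := 2) (b' := 1) (c' := 1) (d' := 1) (by omega) (by omega) (by omega) (by omega)
        ⟨by norm_num [R1], by norm_num [R2], by norm_num [R3]⟩

end H34S
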