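import Pool.Agent.Lib.H34S.Pent

/-!
# H34S: certificates (generated), pentagonal numbers
-/

set_option autoImplicit false

namespace H34S

def ps11 : T := .node ⟨1,0,0⟩ (.node ⟨0,1,0⟩ (.node ⟨0,0,1⟩ (.node ⟨-11,22,22⟩ (.node ⟨22,-11,22⟩ (.node ⟨22,22,-11⟩ (.leaf true ⟨⟨-11,0,0⟩,⟨0,-11,0⟩,⟨0,0,-11⟩⟩ (1,[(2,1)]) (1,[(1,1)]) (1,[(0,1)])) (.leaf false ⟨⟨-6,-6,7⟩,⟨-2,9,6⟩,⟨9,-2,6⟩⟩ (11,[(5,88),(4,88),(0,7)]) (11,[(5,110),(4,231),(0,6)]) (11,[(5,231),(4,110),(0,6)]))) (.leaf false ⟨⟨-6,7,-6⟩,⟨-2,6,9⟩,⟨9,6,-2⟩⟩ (11,[(2,88),(4,88),(0,7)]) (11,[(2,231),(4,110),(0,6)]) (11,[(2,110),(4,231),(0,6)]))) (.leaf false ⟨⟨6,-2,9⟩,⟨6,9,-2⟩,⟨7,-6,-6⟩⟩ (11,[(1,231),(0,6),(2,110)]) (11,[(1,110),(0,6),(2,231)])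 (11,[(1,88),(0,7),(2,88)]))) (.node ⟨-17,28,4⟩ (.node ⟨28,16,7⟩ (.leaf true ⟨⟨-9,6,-2⟩,⟨-2,-6,-9⟩,⟨6,7,-6⟩⟩ (1,[(1,1)]) (1,[(0,1)]) (4,[(2,132),(4,33),(1,1)])) (.leaf false ⟨⟨-9,6,-2⟩,⟨-2,-6,-9⟩,⟨6,7,-6⟩⟩ (66,[(4,1155),(1,37),(0,40)]) (22,[(4,1309),(1,17),(0,38)]) (132,[(4,8745),(1,145),(0,196)]))) (.node ⟨16,28,7⟩ (.node ⟨28,-17,4⟩ (.leaf true ⟨⟨-6,-2,-9⟩,⟨6,-9,-2⟩,⟨7,6,-6⟩⟩ (1,[(1,1)]) (1,[(0,1)]) (4,[(3,132),(0,1),(4,33)])) (.leaf false ⟨⟨-9,6,-2⟩,⟨-2,-6,-9⟩,⟨6,7,-6⟩⟩ (297,[(2,55),(1,30),(0,146)]) (297,[(2,550),(1,201),(0,470)]) (1485,[(2,2882),(1,1770),(0,2443)]))) (.leaf false ⟨⟨-6,-2,-9⟩,⟨6,-9,-2⟩,⟨7,6,-6⟩⟩ (7,[(4,102),(3,238),(0,9)]) (84,[(1,7),(4,705),(0,20)]) (7,[(4,145),(3,210),(0,6)])))))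 (.node ⟨0,0,1⟩ (.node ⟨-17,4,28⟩ (.node ⟨28,7,16⟩ (.leaf true ⟨⟨-9,-2,6⟩,⟨-2,-9,-6⟩,⟨6,-6,7⟩⟩ (1,[(1,1)]) (1,[(0,1)]) (4,[(4,33),(3,132),(1,1)])) (.leaf false ⟨⟨-9,-2,6⟩,⟨-2,-9,-6⟩,⟨6,-6,7⟩⟩ (66,[(4,1155),(0,40),(1,37)]) (22,[(4,1309),(0,38),(1,17)]) (132,[(4,8745),(0,196),(1,145)]))) (.node ⟨16,7,28⟩ (.node ⟨28,4,-17⟩ (.leaf true ⟨⟨-6,-9,-2⟩,⟨6,-2,-9⟩,⟨7,-6,6⟩⟩ (1,[(1,1)]) (1,[(0,1)]) (4,[(3,33),(0,1),(4,132)])) (.leaf false ⟨⟨-9,-2,6⟩,⟨-2,-9,-6⟩,⟨6,-6,7⟩⟩ (297,[(1,30),(2,55),(0,146)]) (297,[(1,201),(2,550),(0,470)]) (1485,[(1,1770),(2,2882),(0,2443)]))) (.leaf false ⟨⟨-6,-9,-2⟩,⟨6,-2,-9⟩,⟨7,-6,6⟩⟩ (7,[(2,238),(4,102),(0,9)]) (183,[(2,705),(1,74),(0,10)]) (7,[(2,210),(4,145),(0,6)]))))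 (.node ⟨-6,-9,-2⟩ (.node ⟨7,6,-6⟩ (.node ⟨-6,-2,-9⟩ (.leaf false ⟨⟨-6,-2,-9⟩,⟨6,-9,-2⟩,⟨7,6,-6⟩⟩ (1,[(0,1)]) (1,[(5,12),(2,1)]) (1,[(1,1)])) (.leaf false ⟨⟨-6,-9,-2⟩,⟨6,-2,-9⟩,⟨7,-6,6⟩⟩ (1,[(2,1)]) (49,[(1,84),(0,23),(2,72)]) (7,[(1,7),(0,12),(2,12)]))) (.leaf false ⟨⟨-6,-9,-2⟩,⟨6,-2,-9⟩,⟨7,-6,6⟩⟩ (2,[(2,22),(4,9),(0,3)]) (3,[(2,33),(4,25),(0,1)]) (1,[(4,14),(0,1)]))) (.node ⟨6,-2,9⟩ (.leaf false ⟨⟨6,-2,9⟩,⟨6,9,-2⟩,⟨7,-6,-6⟩⟩ (1,[(0,1)]) (1,[(2,4),(1,1)]) (6,[(2,50),(1,7),(3,99)])) (.leaf false ⟨⟨-6,-2,-9⟩,⟨6,-9,-2⟩,⟨7,6,-6⟩⟩ (1,[(3,4),(0,1)]) (7,[(1,11),(3,170),(0,4)]) (42,[(1,99),(3,739),(0,50)])))))) (.node ⟨0,1,0⟩ (.node ⟨0,0,1⟩ (.node ⟨4,28,-17⟩ (.node ⟨7,16,28⟩ (.leaf true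 ⟨⟨-9,-6,-2⟩,⟨-6,7,6⟩,⟨-2,6,-9⟩⟩ (1,[(0,1)]) (4,[(2,33),(4,132),(1,1)]) (1,[(1,1)])) (.leaf false ⟨⟨-9,-6,-2⟩,⟨-6,7,6⟩,⟨-2,6,-9⟩⟩ (22,[(2,1309),(0,38),(1,17)]) (132,[(2,8745),(0,196),(1,145)]) (66,[(2,1155),(0,40),(1,37)]))) (.node ⟨7,28,16⟩ (.node ⟨4,-17,28⟩ (.leaf true ⟨⟨-9,-2,-6⟩,⟨-6,6,7⟩,⟨-2,-9,6⟩⟩ (1,[(1,1)]) (4,[(5,132),(4,33),(0,1)]) (1,[(0,1)])) (.leaf false ⟨⟨-9,-6,-2⟩,⟨-6,7,6⟩,⟨-2,6,-9⟩⟩ (297,[(2,550),(0,470),(1,201)]) (1485,[(2,2882),(0,2443),(1,1770)]) (297,[(2,55),(0,146),(1,30)]))) (.leaf false ⟨⟨-9,-2,-6⟩,⟨-6,6,7⟩,⟨-2,-9,6⟩⟩ (7,[(2,102),(0,9),(3,238)]) (7,[(2,145),(0,6),(3,210)]) (84,[(2,705),(1,7),(0,20)])))) (.node ⟨-9,-6,-2⟩ (.node ⟨6,7,-6⟩ (.node ⟨-2,-6,-9⟩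 (.leaf false ⟨⟨-9,6,-2⟩,⟨-2,-6,-9⟩,⟨6,7,-6⟩⟩ (1,[(2,1),(4,12)]) (1,[(0,1)]) (1,[(1,1)])) (.leaf false ⟨⟨-9,-6,-2⟩,⟨-6,7,6⟩,⟨-2,6,-9⟩⟩ (1,[(2,1)]) (7,[(2,12),(0,12),(1,7)]) (49,[(2,72),(0,23),(1,84)]))) (.leaf false ⟨⟨-9,-6,-2⟩,⟨-6,7,6⟩,⟨-2,6,-9⟩⟩ (2,[(2,22),(0,3),(3,9)]) (1,[(0,1),(3,14)]) (3,[(2,33),(0,1),(3,25)]))) (.node ⟨-2,6,9⟩ (.leaf false ⟨⟨-6,7,-6⟩,⟨-2,6,9⟩,⟨9,6,-2⟩⟩ (6,[(2,99),(4,22),(0,7)]) (1,[(0,1)]) (1,[(2,4),(1,1)])) (.leaf false ⟨⟨-9,6,-2⟩,⟨-2,-6,-9⟩,⟨6,7,-6⟩⟩ (7,[(4,170),(1,11),(0,4)]) (1,[(4,4),(0,1)]) (42,[(4,739),(1,99),(0,50)]))))) (.node ⟨0,0,1⟩ (.node ⟨-9,-2,-6⟩ (.node ⟨6,-6,7⟩ (.node ⟨-2,-9,-6⟩ (.leaf false ⟨⟨-9,-2,6⟩,⟨-2,-9,-6⟩,⟨6,-6,7⟩⟩ (1,[(3,12),(2,1)])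 (1,[(0,1)]) (1,[(1,1)])) (.leaf false ⟨⟨-9,-2,-6⟩,⟨-6,6,7⟩,⟨-2,-9,6⟩⟩ (1,[(2,1)]) (7,[(2,12),(1,7),(0,12)]) (49,[(2,72),(1,84),(0,23)]))) (.leaf false ⟨⟨-9,-2,-6⟩,⟨-6,6,7⟩,⟨-2,-9,6⟩⟩ (2,[(2,9),(0,3),(3,22)]) (1,[(2,14),(0,1)]) (3,[(2,25),(0,1),(3,33)]))) (.node ⟨-2,9,6⟩ (.leaf false ⟨⟨-6,-6,7⟩,⟨-2,9,6⟩,⟨9,-2,6⟩⟩ (6,[(4,99),(3,50),(1,7)]) (1,[(0,1)]) (1,[(3,4),(1,1)])) (.leaf false ⟨⟨-9,-2,6⟩,⟨-2,-9,-6⟩,⟨6,-6,7⟩⟩ (7,[(4,170),(0,4),(1,11)]) (1,[(4,4),(0,1)]) (42,[(4,739),(0,50),(1,99)])))) (.leaf false ⟨⟨-11,0,0⟩,⟨0,-11,0⟩,⟨0,0,-11⟩⟩ (1,[(2,11)]) (1,[(1,11)]) (1,[(0,11)]))))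
theorem ps11_ok : ps11.check (ok 11 6 ⟨5, 5, 5⟩) tr6 [] = true := by decide +kernel

def pu11 : T := .node ⟨1,0,0⟩ (.node ⟨0,1,0⟩ (.node ⟨0,0,1⟩ (.node ⟨20,8,-25⟩ (.node ⟨-25,20,8⟩ (.node ⟨8,20,-25⟩ (.leaf true ⟨⟨-2,-6,9⟩,⟨6,7,6⟩,⟨9,-6,-2⟩⟩ (1,[(0,1)]) (20,[(3,825),(5,264),(0,17)]) (1,[(1,1)])) (.leaf false ⟨⟨-2,-6,9⟩,⟨6,7,6⟩,⟨9,-6,-2⟩⟩ (198,[(2,209),(1,104),(0,247)]) (396,[(2,3949),(1,1972),(0,3413)]) (198,[(2,209),(1,38),(0,181)]))) (.node ⟨20,-25,8⟩ (.leaf true ⟨⟨-6,-2,9⟩,⟨-6,9,-2⟩,⟨7,6,6⟩⟩ (1,[(2,1)]) (1,[(0,1)]) (20,[(3,264),(0,17),(4,825)])) (.leaf false ⟨⟨-2,9,-6⟩,⟨6,6,7⟩,⟨9,-2,-6⟩⟩ (45,[(3,234),(1,26),(0,37)]) (5,[(3,131),(1,6),(0,6)]) (45,[(3,234),(1,37),(0,26)]))))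 (.node ⟨8,-25,20⟩ (.node ⟨-25,8,20⟩ (.leaf true ⟨⟨-2,9,-6⟩,⟨6,6,7⟩,⟨9,-2,-6⟩⟩ (1,[(1,1)]) (20,[(5,825),(4,264),(0,17)]) (1,[(0,1)])) (.leaf false ⟨⟨-2,-6,9⟩,⟨6,7,6⟩,⟨9,-6,-2⟩⟩ (45,[(4,234),(2,37),(0,26)]) (5,[(4,131),(2,6),(0,6)]) (45,[(4,234),(2,26),(0,37)]))) (.leaf false ⟨⟨-6,-2,9⟩,⟨-6,9,-2⟩,⟨7,6,6⟩⟩ (465,[(4,1086),(0,22),(1,185)]) (465,[(4,1482),(0,209),(1,130)]) (155,[(4,3413),(0,66),(1,90)])))) (.node ⟨32,-1,8⟩ (.node ⟨-1,32,8⟩ (.leaf true ⟨⟨-6,-6,7⟩,⟨-2,9,6⟩,⟨9,-2,6⟩⟩ (31,[(2,1089),(1,8),(0,8)]) (1,[(1,1)]) (1,[(0,1)])) (.node ⟨17,20,20⟩ (.leaf true ⟨⟨-6,-2,9⟩,⟨-6,9,-2⟩,⟨7,6,6⟩⟩ (47,[(3,2079),(1,22),(0,54)]) (13,[(1,22),(0,14),(4,99)]) (1,[(0,1)])) (.leaf false ⟨⟨-6,-2,-9⟩,⟨6,-9,-2⟩,⟨7,6,-6⟩⟩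 (52,[(1,11),(4,628),(0,19)]) (132,[(1,56),(2,23),(4,627)]) (252,[(2,121),(4,4113),(0,124)])))) (.node ⟨-28,-7,-16⟩ (.leaf true ⟨⟨-9,-2,6⟩,⟨-2,-9,-6⟩,⟨6,-6,7⟩⟩ (4,[(4,264),(3,33),(0,7)]) (1,[(0,1)]) (8,[(4,192),(3,249),(1,7)])) (.leaf true ⟨⟨-2,-6,9⟩,⟨6,7,6⟩,⟨9,-6,-2⟩⟩ (7,[(2,351),(0,18),(1,14)]) (21,[(2,108),(0,47),(1,28)]) (3,[(4,81),(0,7),(1,11)]))))) (.node ⟨0,0,1⟩ (.node ⟨32,8,-1⟩ (.node ⟨-1,8,32⟩ (.leaf true ⟨⟨-6,7,-6⟩,⟨-2,6,9⟩,⟨9,6,-2⟩⟩ (31,[(1,8),(3,1089),(0,8)]) (1,[(1,1)]) (1,[(0,1)])) (.node ⟨17,20,20⟩ (.leaf true ⟨⟨-6,-2,9⟩,⟨-6,9,-2⟩,⟨7,6,6⟩⟩ (13,[(3,99),(0,14),(1,22)]) (47,[(0,54),(1,22),(4,2079)]) (1,[(0,1)])) (.leaf false ⟨⟨-6,-9,-2⟩,⟨6,-2,-9⟩,⟨7,-6,6⟩⟩ (52,[(3,628),(1,11),(0,19)])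 (132,[(3,627),(2,23),(1,56)]) (252,[(3,4113),(2,121),(0,124)])))) (.node ⟨-28,-16,-7⟩ (.leaf true ⟨⟨-9,6,-2⟩,⟨-2,-6,-9⟩,⟨6,7,-6⟩⟩ (4,[(2,33),(4,264),(0,7)]) (1,[(0,1)]) (8,[(2,249),(4,192),(1,7)])) (.leaf true ⟨⟨-2,9,-6⟩,⟨6,6,7⟩,⟨9,-2,-6⟩⟩ (7,[(3,351),(1,14),(0,18)]) (6,[(4,108),(1,11),(0,13)]) (3,[(4,81),(1,11),(0,7)])))) (.node ⟨-6,-9,-2⟩ (.node ⟨7,6,-6⟩ (.node ⟨-6,-2,-9⟩ (.leaf false ⟨⟨-6,-2,-9⟩,⟨6,-9,-2⟩,⟨7,6,-6⟩⟩ (1,[(0,1)]) (1,[(5,12),(2,1)]) (1,[(1,1)])) (.leaf false ⟨⟨-6,-9,-2⟩,⟨6,-2,-9⟩,⟨7,-6,6⟩⟩ (1,[(2,1)]) (49,[(1,84),(0,23),(2,72)]) (7,[(1,7),(0,12),(2,12)]))) (.leaf false ⟨⟨-6,-9,-2⟩,⟨6,-2,-9⟩,⟨7,-6,6⟩⟩ (2,[(2,22),(4,9),(0,3)]) (3,[(2,33),(4,25),(0,1)]) (1,[(4,14),(0,1)])))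 (.node ⟨6,-2,9⟩ (.leaf false ⟨⟨6,-2,9⟩,⟨6,9,-2⟩,⟨7,-6,-6⟩⟩ (1,[(0,1)]) (1,[(2,4),(1,1)]) (6,[(2,50),(1,7),(3,99)])) (.leaf false ⟨⟨-6,-2,-9⟩,⟨6,-9,-2⟩,⟨7,6,-6⟩⟩ (1,[(3,4),(0,1)]) (7,[(1,11),(3,170),(0,4)]) (42,[(1,99),(3,739),(0,50)])))))) (.node ⟨0,1,0⟩ (.node ⟨0,0,1⟩ (.node ⟨8,32,-1⟩ (.node ⟨8,-1,32⟩ (.leaf true ⟨⟨6,-2,9⟩,⟨6,9,-2⟩,⟨7,-6,-6⟩⟩ (1,[(1,1)]) (1,[(0,1)]) (31,[(4,1089),(1,8),(0,8)])) (.node ⟨20,17,20⟩ (.leaf true ⟨⟨-2,-6,9⟩,⟨6,7,6⟩,⟨9,-6,-2⟩⟩ (13,[(3,99),(1,22),(0,14)]) (1,[(0,1)]) (47,[(5,2079),(1,22),(0,54)])) (.leaf false ⟨⟨-9,-6,-2⟩,⟨-6,7,6⟩,⟨-2,6,-9⟩⟩ (52,[(3,628),(0,19),(1,11)]) (252,[(3,4113),(0,124),(2,121)]) (132,[(3,627),(1,56),(2,23)])))) (.node ⟨-16,-28,-7⟩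 (.leaf true ⟨⟨-6,-2,-9⟩,⟨6,-9,-2⟩,⟨7,6,-6⟩⟩ (1,[(0,1)]) (4,[(2,33),(0,7),(3,264)]) (8,[(2,249),(1,7),(3,192)])) (.leaf true ⟨⟨-2,9,-6⟩,⟨6,6,7⟩,⟨9,-2,-6⟩⟩ (3,[(1,11),(3,81),(0,7)]) (21,[(1,28),(4,108),(0,47)]) (7,[(1,14),(4,351),(0,18)])))) (.node ⟨-9,-6,-2⟩ (.node ⟨6,7,-6⟩ (.node ⟨-2,-6,-9⟩ (.leaf false ⟨⟨-9,6,-2⟩,⟨-2,-6,-9⟩,⟨6,7,-6⟩⟩ (1,[(2,1),(4,12)]) (1,[(0,1)]) (1,[(1,1)])) (.leaf false ⟨⟨-9,-6,-2⟩,⟨-6,7,6⟩,⟨-2,6,-9⟩⟩ (1,[(2,1)]) (7,[(2,12),(0,12),(1,7)]) (49,[(2,72),(0,23),(1,84)]))) (.leaf false ⟨⟨-9,-6,-2⟩,⟨-6,7,6⟩,⟨-2,6,-9⟩⟩ (2,[(2,22),(0,3),(3,9)]) (1,[(0,1),(3,14)]) (3,[(2,33),(0,1),(3,25)]))) (.node ⟨-2,6,9⟩ (.leaf false ⟨⟨-6,7,-6⟩,⟨-2,6,9⟩,⟨9,6,-2⟩⟩ (6,[(2,99),(4,22),(0,7)])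 (1,[(0,1)]) (1,[(2,4),(1,1)])) (.leaf false ⟨⟨-9,6,-2⟩,⟨-2,-6,-9⟩,⟨6,7,-6⟩⟩ (7,[(4,170),(1,11),(0,4)]) (1,[(4,4),(0,1)]) (42,[(4,739),(1,99),(0,50)]))))) (.node ⟨0,0,1⟩ (.node ⟨-9,-2,-6⟩ (.node ⟨6,-6,7⟩ (.node ⟨-2,-9,-6⟩ (.leaf false ⟨⟨-9,-2,6⟩,⟨-2,-9,-6⟩,⟨6,-6,7⟩⟩ (1,[(3,12),(2,1)]) (1,[(0,1)]) (1,[(1,1)])) (.leaf false ⟨⟨-9,-2,-6⟩,⟨-6,6,7⟩,⟨-2,-9,6⟩⟩ (1,[(2,1)]) (7,[(2,12),(1,7),(0,12)]) (49,[(2,72),(1,84),(0,23)]))) (.leaf false ⟨⟨-9,-2,-6⟩,⟨-6,6,7⟩,⟨-2,-9,6⟩⟩ (2,[(2,9),(0,3),(3,22)]) (1,[(2,14),(0,1)]) (3,[(2,25),(0,1),(3,33)]))) (.node ⟨-2,9,6⟩ (.leaf false ⟨⟨-6,-6,7⟩,⟨-2,9,6⟩,⟨9,-2,6⟩⟩ (6,[(4,99),(3,50),(1,7)]) (1,[(0,1)]) (1,[(3,4),(1,1)])) (.leaf false ⟨⟨-9,-2,6⟩,⟨-2,-9,-6⟩,⟨6,-6,7⟩⟩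 (7,[(4,170),(0,4),(1,11)]) (1,[(4,4),(0,1)]) (42,[(4,739),(0,50),(1,99)])))) (.leaf false ⟨⟨-11,0,0⟩,⟨0,-11,0⟩,⟨0,0,-11⟩⟩ (1,[(2,11)]) (1,[(1,11)]) (1,[(0,11)]))))
theorem pu11_ok : pu11.check (ok 11 6 ⟨5, 5, 5⟩) tr3 [] = true := by decide +kernel

def pa33 : T := .node ⟨1,0,0⟩ (.node ⟨0,1,0⟩ (.node ⟨0,0,1⟩ (.node ⟨-17,-4,28⟩ (.node ⟨28,-7,16⟩ (.leaf false ⟨⟨-17,-4,28⟩,⟨4,32,7⟩,⟨28,-7,16⟩⟩ (1,[(1,1)]) (4,[(4,33),(3,132),(1,1)]) (1,[(0,1)])) (.leaf false ⟨⟨-32,7,-4⟩,⟨4,28,17⟩,⟨7,16,-28⟩⟩ (11,[(4,187),(0,15),(1,7)]) (44,[(4,11341),(0,284),(1,189)]) (11,[(4,946),(0,28),(1,5)]))) (.node ⟨-4,28,-17⟩ (.node ⟨-7,16,28⟩ (.leaf false ⟨⟨-7,16,28⟩,⟨-4,28,-17⟩,⟨32,7,4⟩⟩ (1,[(0,1)]) (1,[(1,1)])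 (4,[(3,33),(5,132),(1,1)])) (.leaf false ⟨⟨7,-4,-32⟩,⟨16,-28,7⟩,⟨28,17,4⟩⟩ (11,[(3,187),(0,15),(1,7)]) (11,[(3,946),(0,28),(1,5)]) (44,[(3,11341),(0,284),(1,189)]))) (.leaf false ⟨⟨7,4,32⟩,⟨16,28,-7⟩,⟨28,-17,-4⟩⟩ (4,[(2,9),(0,7),(3,212)]) (17,[(2,329),(1,16),(3,412)]) (492,[(2,11263),(0,401),(1,716)])))) (.node ⟨-11,22,-22⟩ (.node ⟨22,-11,-22⟩ (.node ⟨22,22,11⟩ (.leaf false ⟨⟨-11,22,-22⟩,⟨22,-11,-22⟩,⟨22,22,11⟩⟩ (1,[(2,1)]) (1,[(1,1)]) (1,[(0,1)])) (.leaf false ⟨⟨-25,-8,-20⟩,⟨8,25,-20⟩,⟨20,-20,-17⟩⟩ (11,[(5,165),(4,352),(0,20)]) (11,[(5,528),(4,715),(0,20)]) (11,[(5,594),(4,154),(0,17)]))) (.leaf false ⟨⟨-28,16,7⟩,⟨-4,7,-32⟩,⟨17,28,4⟩⟩ (11,[(2,275),(4,44),(0,16)]) (11,[(2,506),(4,110),(0,7)])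 (11,[(2,572),(4,803),(0,28)]))) (.leaf false ⟨⟨7,-4,-32⟩,⟨16,-28,7⟩,⟨28,17,4⟩⟩ (11,[(1,506),(0,7),(2,110)]) (11,[(1,275),(0,16),(2,44)]) (11,[(1,572),(0,28),(2,803)])))) (.node ⟨0,0,1⟩ (.node ⟨-11,-22,22⟩ (.node ⟨22,-22,-11⟩ (.node ⟨22,11,22⟩ (.leaf false ⟨⟨-11,-22,22⟩,⟨22,-22,-11⟩,⟨22,11,22⟩⟩ (1,[(2,1)]) (1,[(1,1)]) (1,[(0,1)])) (.leaf false ⟨⟨-25,-20,-8⟩,⟨8,-20,25⟩,⟨20,-17,-20⟩⟩ (11,[(3,352),(5,165),(0,20)]) (11,[(3,715),(5,528),(0,20)]) (11,[(3,154),(5,594),(0,17)]))) (.leaf false ⟨⟨-28,7,16⟩,⟨-4,-32,7⟩,⟨17,4,28⟩⟩ (11,[(4,44),(3,275),(0,16)]) (11,[(4,110),(3,506),(0,7)]) (11,[(4,803),(3,572),(0,28)]))) (.leaf false ⟨⟨7,-32,-4⟩,⟨16,7,-28⟩,⟨28,4,17⟩⟩ (11,[(1,110),(0,7),(2,506)])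 (11,[(1,44),(0,16),(2,275)]) (11,[(1,803),(0,28),(2,572)]))) (.node ⟨-17,-28,4⟩ (.node ⟨28,-16,7⟩ (.leaf false ⟨⟨-17,-28,4⟩,⟨4,-7,-32⟩,⟨28,-16,7⟩⟩ (1,[(1,1)]) (4,[(2,132),(4,33),(1,1)]) (1,[(0,1)])) (.leaf false ⟨⟨-32,4,-7⟩,⟨4,-17,-28⟩,⟨7,28,-16⟩⟩ (11,[(4,187),(1,7),(0,15)]) (44,[(4,11341),(1,189),(0,284)]) (11,[(4,946),(1,5),(0,28)]))) (.node ⟨16,-28,7⟩ (.node ⟨28,17,4⟩ (.leaf false ⟨⟨7,-4,-32⟩,⟨16,-28,7⟩,⟨28,17,4⟩⟩ (4,[(3,132),(0,1),(4,33)]) (1,[(1,1)]) (1,[(0,1)])) (.leaf false ⟨⟨-25,-8,-20⟩,⟨8,25,-20⟩,⟨20,-20,-17⟩⟩ (1485,[(2,5467),(1,2280),(0,5948)]) (1485,[(2,6556),(1,2280),(0,4859)]) (1485,[(2,8404),(1,5205),(0,7016)]))) (.leaf false ⟨⟨-25,-8,-20⟩,⟨8,25,-20⟩,⟨20,-20,-17⟩⟩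 (7,[(4,145),(3,616),(0,20)]) (7,[(4,376),(3,385),(0,20)]) (7,[(4,412),(3,616),(0,17)])))))) (.node ⟨0,1,0⟩ (.node ⟨0,0,1⟩ (.node ⟨-22,-11,22⟩ (.node ⟨-22,22,-11⟩ (.node ⟨11,22,22⟩ (.leaf false ⟨⟨-22,-11,22⟩,⟨-22,22,-11⟩,⟨11,22,22⟩⟩ (1,[(2,1)]) (1,[(1,1)]) (1,[(0,1)])) (.leaf false ⟨⟨-20,-25,-8⟩,⟨-20,8,25⟩,⟨-17,20,-20⟩⟩ (11,[(3,352),(0,20),(4,165)]) (11,[(3,715),(0,20),(4,528)]) (11,[(3,154),(0,17),(4,594)]))) (.leaf false ⟨⟨-32,-4,7⟩,⟨4,17,28⟩,⟨7,-28,16⟩⟩ (11,[(4,506),(3,110),(0,7)]) (11,[(4,572),(3,803),(0,28)]) (11,[(4,275),(3,44),(0,16)]))) (.leaf false ⟨⟨-32,7,-4⟩,⟨4,28,17⟩,⟨7,16,-28⟩⟩ (11,[(1,110),(3,506),(0,7)]) (11,[(1,803),(3,572),(0,28)]) (11,[(1,44),(3,275),(0,16)])))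 (.node ⟨4,-17,-28⟩ (.node ⟨7,28,-16⟩ (.leaf false ⟨⟨-32,4,-7⟩,⟨4,-17,-28⟩,⟨7,28,-16⟩⟩ (4,[(4,132),(3,33),(1,1)]) (1,[(1,1)]) (1,[(0,1)])) (.leaf false ⟨⟨-32,8,1⟩,⟨-8,-31,-8⟩,⟨1,8,-32⟩⟩ (132,[(3,34617),(1,505),(0,892)]) (33,[(3,1551),(1,46),(0,64)]) (33,[(3,1848),(1,52),(0,25)]))) (.node ⟨7,16,-28⟩ (.node ⟨4,28,17⟩ (.leaf false ⟨⟨-32,7,-4⟩,⟨4,28,17⟩,⟨7,16,-28⟩⟩ (4,[(3,33),(5,132),(0,1)]) (1,[(0,1)]) (1,[(1,1)])) (.leaf false ⟨⟨-28,-17,4⟩,⟨-16,28,7⟩,⟨-7,4,-32⟩⟩ (1485,[(2,8371),(1,3360),(0,7904)]) (297,[(2,1496),(1,780),(0,1057)]) (297,[(2,836),(1,663),(0,844)]))) (.leaf false ⟨⟨-28,-17,4⟩,⟨-16,28,7⟩,⟨-7,4,-32⟩⟩ (1,[(2,108),(0,4),(3,47)]) (7,[(2,399),(0,16),(3,452)]) (1,[(2,60),(0,1),(3,20)])))))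 (.node ⟨0,0,1⟩ (.node ⟨4,-28,-17⟩ (.node ⟨7,-16,28⟩ (.leaf false ⟨⟨-32,-7,4⟩,⟨4,-28,-17⟩,⟨7,-16,28⟩⟩ (4,[(2,33),(4,132),(1,1)]) (1,[(1,1)]) (1,[(0,1)])) (.leaf false ⟨⟨-32,1,8⟩,⟨-8,-8,-31⟩,⟨1,-32,8⟩⟩ (132,[(2,34617),(0,892),(1,505)]) (33,[(2,1551),(0,64),(1,46)]) (33,[(2,1848),(0,25),(1,52)]))) (.node ⟨7,-28,16⟩ (.node ⟨4,17,28⟩ (.leaf false ⟨⟨-32,-4,7⟩,⟨4,17,28⟩,⟨7,-28,16⟩⟩ (4,[(5,132),(4,33),(0,1)]) (1,[(0,1)]) (1,[(1,1)])) (.leaf false ⟨⟨-28,4,-17⟩,⟨-16,7,28⟩,⟨-7,-32,4⟩⟩ (1485,[(2,8371),(0,7904),(1,3360)]) (297,[(2,1496),(0,1057),(1,780)]) (297,[(2,836),(0,844),(1,663)]))) (.leaf false ⟨⟨-28,4,-17⟩,⟨-16,7,28⟩,⟨-7,-32,4⟩⟩ (1,[(2,47),(0,4),(3,108)]) (7,[(2,452),(0,16),(3,399)])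 (1,[(2,20),(0,1),(3,60)])))) (.node ⟨-32,1,8⟩ (.node ⟨1,-32,8⟩ (.leaf false ⟨⟨-32,1,8⟩,⟨-8,-8,-31⟩,⟨1,-32,8⟩⟩ (1,[(1,1)]) (31,[(2,1089),(1,8),(0,8)]) (1,[(0,1)])) (.node ⟨1,8,-32⟩ (.leaf false ⟨⟨-32,8,1⟩,⟨-8,-31,-8⟩,⟨1,8,-32⟩⟩ (40,[(1,7),(2,40),(0,7)]) (33,[(1,40),(2,7),(4,2310)]) (1,[(0,1)])) (.leaf false ⟨⟨-28,-17,4⟩,⟨-16,28,7⟩,⟨-7,4,-32⟩⟩ (10,[(1,223),(0,57),(4,6850)]) (8,[(1,101),(0,27),(4,2792)]) (2,[(3,392),(1,3),(0,11)])))) (.node ⟨28,-16,7⟩ (.leaf false ⟨⟨-17,-28,4⟩,⟨4,-7,-32⟩,⟨28,-16,7⟩⟩ (4,[(2,33),(4,264),(0,7)]) (16,[(2,561),(4,132),(0,7)]) (1,[(0,1)])) (.leaf false ⟨⟨-20,20,-17⟩,⟨-8,-25,-20⟩,⟨25,8,-20⟩⟩ (28,[(3,123),(1,21),(0,44)]) (2,[(4,176),(3,45),(1,5)]) (45,[(4,907),(1,88),(0,28)]))))))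
theorem pa33_ok : pa33.check (ok 33 6 ⟨5, 5, 5⟩) (fun _ r => r) [] = true := by decide +kernel

def pb33 : T := .node ⟨1,0,0⟩ (.node ⟨0,1,0⟩ (.node ⟨0,0,1⟩ (.node ⟨-17,-4,28⟩ (.node ⟨28,-7,16⟩ (.leaf false ⟨⟨-17,-4,28⟩,⟨4,32,7⟩,⟨28,-7,16⟩⟩ (1,[(1,1)]) (4,[(4,33),(3,132),(1,1)]) (1,[(0,1)])) (.leaf false ⟨⟨-32,7,-4⟩,⟨4,28,17⟩,⟨7,16,-28⟩⟩ (11,[(4,187),(0,15),(1,7)]) (44,[(4,11341),(0,284),(1,189)]) (11,[(4,946),(0,28),(1,5)]))) (.node ⟨16,-7,28⟩ (.node ⟨28,-4,-17⟩ (.leaf false ⟨⟨7,32,4⟩,⟨16,-7,28⟩,⟨28,-4,-17⟩⟩ (4,[(3,33),(0,1),(4,132)]) (1,[(1,1)]) (1,[(0,1)])) (.leaf false ⟨⟨-20,17,-20⟩,⟨-8,20,25⟩,⟨25,20,-8⟩⟩ (55,[(1,15),(2,132),(0,128)]) (165,[(1,480),(2,836),(0,829)]) (55,[(1,160),(2,319),(0,236)])))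 (.leaf false ⟨⟨-20,17,-20⟩,⟨-8,20,25⟩,⟨25,20,-8⟩⟩ (7,[(2,336),(4,132),(0,17)]) (7,[(2,735),(4,264),(0,20)]) (7,[(2,504),(4,495),(0,20)])))) (.node ⟨-17,-4,-28⟩ (.node ⟨28,-7,-16⟩ (.leaf false ⟨⟨-17,-4,-28⟩,⟨4,32,-7⟩,⟨28,-7,-16⟩⟩ (1,[(1,1)]) (4,[(4,33),(3,132),(1,1)]) (1,[(0,1)])) (.leaf false ⟨⟨-32,7,-4⟩,⟨4,28,17⟩,⟨7,16,-28⟩⟩ (33,[(4,1023),(0,53),(1,35)]) (132,[(4,26169),(0,716),(1,329)]) (33,[(4,6072),(0,140),(1,113)]))) (.node ⟨16,-7,-28⟩ (.node ⟨28,-4,17⟩ (.leaf false ⟨⟨7,32,-4⟩,⟨16,-7,-28⟩,⟨28,-4,17⟩⟩ (4,[(3,33),(0,1),(4,132)]) (1,[(1,1)]) (1,[(0,1)])) (.leaf false ⟨⟨-20,17,-20⟩,⟨-8,20,25⟩,⟨25,20,-8⟩⟩ (135,[(1,255),(2,484),(0,536)]) (135,[(1,120),(2,484),(0,401)]) (135,[(1,480),(2,847),(0,668)])))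 (.leaf false ⟨⟨-20,17,-20⟩,⟨-8,20,25⟩,⟨25,20,-8⟩⟩ (7,[(2,616),(4,132),(0,17)]) (7,[(2,385),(4,264),(0,20)]) (7,[(2,616),(4,495),(0,20)]))))) (.node ⟨0,0,1⟩ (.node ⟨-17,-28,-4⟩ (.node ⟨28,-16,-7⟩ (.leaf false ⟨⟨-17,-28,-4⟩,⟨4,-7,32⟩,⟨28,-16,-7⟩⟩ (1,[(1,1)]) (4,[(2,132),(4,33),(1,1)]) (1,[(0,1)])) (.leaf false ⟨⟨-32,-4,7⟩,⟨4,17,28⟩,⟨7,-28,16⟩⟩ (33,[(4,1023),(1,35),(0,53)]) (132,[(4,26169),(1,329),(0,716)]) (33,[(4,6072),(1,113),(0,140)]))) (.node ⟨16,-28,-7⟩ (.node ⟨28,17,-4⟩ (.leaf false ⟨⟨7,-4,32⟩,⟨16,-28,-7⟩,⟨28,17,-4⟩⟩ (4,[(3,132),(0,1),(4,33)]) (1,[(1,1)]) (1,[(0,1)])) (.leaf false ⟨⟨-20,-20,17⟩,⟨-8,25,20⟩,⟨25,-8,20⟩⟩ (135,[(2,484),(1,255),(0,536)]) (135,[(2,484),(1,120),(0,401)])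 (135,[(2,847),(1,480),(0,668)]))) (.leaf false ⟨⟨-20,-20,17⟩,⟨-8,25,20⟩,⟨25,-8,20⟩⟩ (7,[(4,132),(3,616),(0,17)]) (7,[(4,264),(3,385),(0,20)]) (7,[(4,495),(3,616),(0,20)])))) (.node ⟨-17,-28,4⟩ (.node ⟨28,-16,7⟩ (.leaf false ⟨⟨-17,-28,4⟩,⟨4,-7,-32⟩,⟨28,-16,7⟩⟩ (1,[(1,1)]) (4,[(2,132),(4,33),(1,1)]) (1,[(0,1)])) (.leaf false ⟨⟨-32,-4,-7⟩,⟨4,17,-28⟩,⟨7,-28,-16⟩⟩ (33,[(4,1023),(1,35),(0,53)]) (132,[(4,26169),(1,329),(0,716)]) (33,[(4,6072),(1,113),(0,140)]))) (.node ⟨16,-28,7⟩ (.node ⟨28,17,4⟩ (.leaf false ⟨⟨7,-4,-32⟩,⟨16,-28,7⟩,⟨28,17,4⟩⟩ (4,[(3,132),(0,1),(4,33)]) (1,[(1,1)]) (1,[(0,1)])) (.leaf false ⟨⟨-20,-20,-17⟩,⟨-8,25,-20⟩,⟨25,-8,-20⟩⟩ (135,[(2,484),(1,255),(0,536)]) (135,[(2,484),(1,120),(0,401)])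 (135,[(2,847),(1,480),(0,668)]))) (.leaf false ⟨⟨-20,-20,-17⟩,⟨-8,25,-20⟩,⟨25,-8,-20⟩⟩ (7,[(4,132),(3,616),(0,17)]) (7,[(4,264),(3,385),(0,20)]) (7,[(4,495),(3,616),(0,20)])))))) (.node ⟨0,1,0⟩ (.node ⟨0,0,1⟩ (.node ⟨4,-17,28⟩ (.node ⟨7,28,16⟩ (.leaf false ⟨⟨-32,4,7⟩,⟨4,-17,28⟩,⟨7,28,16⟩⟩ (4,[(4,132),(3,33),(1,1)]) (1,[(1,1)]) (1,[(0,1)])) (.leaf false ⟨⟨-32,-8,-1⟩,⟨-8,31,8⟩,⟨1,-8,32⟩⟩ (132,[(3,32505),(1,505),(0,892)]) (33,[(3,3597),(1,46),(0,64)]) (33,[(3,1320),(1,52),(0,25)]))) (.node ⟨7,16,28⟩ (.node ⟨4,28,-17⟩ (.leaf false ⟨⟨-32,7,4⟩,⟨4,28,-17⟩,⟨7,16,28⟩⟩ (4,[(3,33),(5,132),(0,1)]) (1,[(0,1)]) (1,[(1,1)])) (.leaf false ⟨⟨-32,-8,-1⟩,⟨-8,31,8⟩,⟨1,-8,32⟩⟩ (1485,[(2,10604),(1,4740),(0,9571)])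 (297,[(2,1111),(1,732),(0,764)]) (297,[(2,88),(1,255),(0,284)]))) (.leaf false ⟨⟨-20,-25,-8⟩,⟨-20,8,25⟩,⟨-17,20,-20⟩⟩ (7,[(2,504),(0,20),(3,145)]) (7,[(2,735),(0,20),(3,376)]) (7,[(2,336),(0,17),(3,412)])))) (.node ⟨4,-17,-28⟩ (.node ⟨7,28,-16⟩ (.leaf false ⟨⟨-32,4,-7⟩,⟨4,-17,-28⟩,⟨7,28,-16⟩⟩ (4,[(4,132),(3,33),(1,1)]) (1,[(1,1)]) (1,[(0,1)])) (.leaf false ⟨⟨-32,-8,1⟩,⟨-8,31,-8⟩,⟨1,-8,-32⟩⟩ (132,[(3,32505),(1,505),(0,892)]) (33,[(3,3597),(1,46),(0,64)]) (33,[(3,1320),(1,52),(0,25)]))) (.node ⟨7,16,-28⟩ (.node ⟨4,28,17⟩ (.leaf false ⟨⟨-32,7,-4⟩,⟨4,28,17⟩,⟨7,16,-28⟩⟩ (4,[(3,33),(5,132),(0,1)]) (1,[(0,1)]) (1,[(1,1)])) (.leaf false ⟨⟨-32,-8,1⟩,⟨-8,31,-8⟩,⟨1,-8,-32⟩⟩ (1485,[(2,10604),(1,4740),(0,9571)])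 (297,[(2,1111),(1,732),(0,764)]) (297,[(2,88),(1,255),(0,284)]))) (.leaf false ⟨⟨-20,-25,-8⟩,⟨-20,8,25⟩,⟨-17,20,-20⟩⟩ (7,[(2,616),(0,20),(3,145)]) (7,[(2,385),(0,20),(3,376)]) (7,[(2,616),(0,17),(3,412)]))))) (.node ⟨0,0,1⟩ (.node ⟨4,-28,-17⟩ (.node ⟨7,-16,28⟩ (.leaf false ⟨⟨-32,-7,4⟩,⟨4,-28,-17⟩,⟨7,-16,28⟩⟩ (4,[(2,33),(4,132),(1,1)]) (1,[(1,1)]) (1,[(0,1)])) (.leaf false ⟨⟨-32,1,-8⟩,⟨-8,-8,31⟩,⟨1,-32,-8⟩⟩ (132,[(2,32505),(0,892),(1,505)]) (33,[(2,3597),(0,64),(1,46)]) (33,[(2,1320),(0,25),(1,52)]))) (.node ⟨7,-28,16⟩ (.node ⟨4,17,28⟩ (.leaf false ⟨⟨-32,-4,7⟩,⟨4,17,28⟩,⟨7,-28,16⟩⟩ (4,[(5,132),(4,33),(0,1)]) (1,[(0,1)]) (1,[(1,1)])) (.leaf false ⟨⟨-32,1,-8⟩,⟨-8,-8,31⟩,⟨1,-32,-8⟩⟩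 (1485,[(2,10604),(0,9571),(1,4740)]) (297,[(2,1111),(0,764),(1,732)]) (297,[(2,88),(0,284),(1,255)]))) (.leaf false ⟨⟨-20,-25,-8⟩,⟨-20,8,25⟩,⟨-17,20,-20⟩⟩ (7,[(2,264),(0,20),(3,735)]) (7,[(2,495),(0,20),(3,504)]) (7,[(2,132),(0,17),(3,336)])))) (.node ⟨4,-28,17⟩ (.node ⟨7,-16,-28⟩ (.leaf false ⟨⟨-32,-7,-4⟩,⟨4,-28,17⟩,⟨7,-16,-28⟩⟩ (4,[(2,33),(4,132),(1,1)]) (1,[(1,1)]) (1,[(0,1)])) (.leaf false ⟨⟨-32,1,-8⟩,⟨-8,-8,31⟩,⟨1,-32,-8⟩⟩ (132,[(2,34617),(0,892),(1,505)]) (33,[(2,1551),(0,64),(1,46)]) (33,[(2,1848),(0,25),(1,52)]))) (.node ⟨7,-28,-16⟩ (.node ⟨4,17,-28⟩ (.leaf false ⟨⟨-32,-4,-7⟩,⟨4,17,-28⟩,⟨7,-28,-16⟩⟩ (4,[(5,132),(4,33),(0,1)]) (1,[(0,1)]) (1,[(1,1)])) (.leaf false ⟨⟨-32,1,8⟩,⟨-8,-8,-31⟩,⟨1,-32,8⟩⟩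 (1485,[(2,10604),(0,9571),(1,4740)]) (297,[(2,1111),(0,764),(1,732)]) (297,[(2,88),(0,284),(1,255)]))) (.leaf false ⟨⟨-20,-25,-8⟩,⟨-20,8,25⟩,⟨-17,20,-20⟩⟩ (7,[(2,376),(0,20),(3,735)]) (7,[(2,145),(0,20),(3,504)]) (7,[(2,412),(0,17),(3,336)]))))))
theorem pb33_ok : pb33.check (ok 33 6 ⟨5, 3, 3⟩) (fun _ r => r) [] = true := by decide +kernel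

def pc33 : T := .node ⟨1,0,0⟩ (.node ⟨0,1,0⟩ (.node ⟨0,0,1⟩ (.node ⟨-25,8,20⟩ (.node ⟨8,20,-25⟩ (.node ⟨-25,20,8⟩ (.leaf false ⟨⟨-25,20,8⟩,⟨8,20,-25⟩,⟨20,17,20⟩⟩ (1,[(0,1)]) (1,[(1,1)]) (20,[(3,825),(5,264),(1,17)])) (.leaf false ⟨⟨-25,8,20⟩,⟨8,-25,20⟩,⟨20,20,17⟩⟩ (1,[(2,1)]) (4,[(1,4),(2,15),(0,15)]) (1,[(1,15),(2,30),(0,26)]))) (.node ⟨8,-25,20⟩ (.leaf false ⟨⟨-25,8,20⟩,⟨8,-25,20⟩,⟨20,20,17⟩⟩ (1,[(2,1)]) (1,[(0,1)]) (20,[(5,825),(4,264),(2,17)])) (.node ⟨-31,8,8⟩ (.leaf false ⟨⟨-31,8,8⟩,⟨8,-1,32⟩,⟨8,32,-1⟩⟩ (1,[(0,1)]) (15,[(6,864),(1,41),(2,52)]) (15,[(6,864),(1,52),(2,41)])) (.leaf false ⟨⟨-1,32,-8⟩,⟨8,8,31⟩,⟨32,-1,-8⟩⟩ (27,[(1,376),(2,352),(0,187)]) (135,[(1,3308),(2,3377),(0,1760)])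 (135,[(1,593),(2,572),(0,440)]))))) (.node ⟨-1,32,-8⟩ (.leaf false ⟨⟨-1,32,-8⟩,⟨8,8,31⟩,⟨32,-1,-8⟩⟩ (1,[(0,1)]) (3,[(2,121),(1,1),(0,1)]) (24,[(2,484),(1,31),(0,7)])) (.node ⟨17,20,-20⟩ (.leaf false ⟨⟨17,20,-20⟩,⟨20,-25,-8⟩,⟨20,8,25⟩⟩ (1,[(0,1)]) (13,[(1,22),(0,14),(4,99)]) (5,[(3,205),(2,4),(4,72)])) (.leaf false ⟨⟨-7,-28,16⟩,⟨-4,17,28⟩,⟨32,-4,7⟩⟩ (40,[(2,33),(4,444),(0,65)]) (40,[(2,99),(4,4572),(0,155)]) (160,[(2,759),(4,21732),(0,815)]))))) (.node ⟨-25,8,-20⟩ (.node ⟨8,20,25⟩ (.node ⟨-25,20,-8⟩ (.leaf false ⟨⟨-25,20,-8⟩,⟨8,20,25⟩,⟨20,17,-20⟩⟩ (1,[(0,1)]) (1,[(1,1)]) (20,[(3,825),(5,264),(1,17)])) (.leaf false ⟨⟨-25,8,-20⟩,⟨8,-25,-20⟩,⟨20,20,-17⟩⟩ (1,[(2,1)]) (4,[(1,4),(2,15),(0,15)])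 (1,[(1,15),(2,30),(0,26)]))) (.node ⟨8,-25,-20⟩ (.leaf false ⟨⟨-25,8,-20⟩,⟨8,-25,-20⟩,⟨20,20,-17⟩⟩ (1,[(2,1)]) (1,[(0,1)]) (20,[(5,825),(4,264),(2,17)])) (.node ⟨-31,8,-8⟩ (.leaf false ⟨⟨-31,8,-8⟩,⟨8,-1,-32⟩,⟨8,32,1⟩⟩ (1,[(0,1)]) (15,[(6,864),(1,41),(2,52)]) (15,[(6,864),(1,52),(2,41)])) (.leaf false ⟨⟨-1,32,8⟩,⟨8,8,-31⟩,⟨32,-1,8⟩⟩ (27,[(1,376),(2,352),(0,187)]) (135,[(1,3308),(2,3377),(0,1760)]) (135,[(1,593),(2,572),(0,440)]))))) (.node ⟨-1,32,8⟩ (.leaf false ⟨⟨-1,32,8⟩,⟨8,8,-31⟩,⟨32,-1,8⟩⟩ (1,[(0,1)]) (3,[(2,121),(1,1),(0,1)]) (24,[(2,484),(1,31),(0,7)])) (.node ⟨17,20,20⟩ (.leaf false ⟨⟨17,20,20⟩,⟨20,-25,8⟩,⟨20,8,-25⟩⟩ (1,[(0,1)]) (13,[(1,22),(0,14),(4,99)]) (5,[(3,205),(2,4),(4,72)]))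 (.leaf false ⟨⟨-7,-28,-16⟩,⟨-4,17,-28⟩,⟨32,-4,-7⟩⟩ (40,[(2,33),(4,444),(0,65)]) (40,[(2,99),(4,4572),(0,155)]) (160,[(2,759),(4,21732),(0,815)])))))) (.node ⟨0,0,1⟩ (.node ⟨-4,17,28⟩ (.node ⟨-7,-28,16⟩ (.leaf false ⟨⟨-7,-28,16⟩,⟨-4,17,28⟩,⟨32,-4,7⟩⟩ (1,[(0,1)]) (1,[(1,1)]) (4,[(4,132),(3,33),(1,1)])) (.leaf false ⟨⟨-1,8,32⟩,⟨8,-31,8⟩,⟨32,8,-1⟩⟩ (33,[(3,1320),(1,52),(0,25)]) (33,[(3,3597),(1,46),(0,64)]) (132,[(3,32505),(1,505),(0,892)]))) (.node ⟨-7,-16,28⟩ (.node ⟨-4,-28,-17⟩ (.leaf false ⟨⟨-7,-16,28⟩,⟨-4,-28,-17⟩,⟨32,-7,4⟩⟩ (1,[(1,1)]) (1,[(0,1)]) (4,[(3,33),(5,132),(0,1)])) (.leaf false ⟨⟨-1,8,32⟩,⟨8,-31,8⟩,⟨32,8,-1⟩⟩ (297,[(2,88),(1,255),(0,284)]) (297,[(2,1111),(1,732),(0,764)])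 (1485,[(2,10604),(1,4740),(0,9571)]))) (.leaf false ⟨⟨17,20,-20⟩,⟨20,-25,-8⟩,⟨20,8,25⟩⟩ (7,[(2,336),(0,17),(3,132)]) (7,[(2,504),(0,20),(3,495)]) (7,[(2,735),(0,20),(3,264)])))) (.node ⟨-4,17,-28⟩ (.node ⟨-7,-28,-16⟩ (.leaf false ⟨⟨-7,-28,-16⟩,⟨-4,17,-28⟩,⟨32,-4,-7⟩⟩ (1,[(0,1)]) (1,[(1,1)]) (4,[(4,132),(3,33),(1,1)])) (.leaf false ⟨⟨-1,8,-32⟩,⟨8,-31,-8⟩,⟨32,8,1⟩⟩ (33,[(3,1320),(1,52),(0,25)]) (33,[(3,3597),(1,46),(0,64)]) (132,[(3,32505),(1,505),(0,892)]))) (.node ⟨-7,-16,-28⟩ (.node ⟨-4,-28,17⟩ (.leaf false ⟨⟨-7,-16,-28⟩,⟨-4,-28,17⟩,⟨32,-7,-4⟩⟩ (1,[(1,1)]) (1,[(0,1)]) (4,[(3,33),(5,132),(0,1)])) (.leaf false ⟨⟨-1,8,-32⟩,⟨8,-31,-8⟩,⟨32,8,1⟩⟩ (297,[(2,88),(1,255),(0,284)]) (297,[(2,1111),(1,732),(0,764)])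 (1485,[(2,10604),(1,4740),(0,9571)]))) (.leaf false ⟨⟨17,20,-20⟩,⟨20,-25,-8⟩,⟨20,8,25⟩⟩ (7,[(2,616),(0,17),(3,132)]) (7,[(2,616),(0,20),(3,495)]) (7,[(2,385),(0,20),(3,264)])))))) (.node ⟨0,1,0⟩ (.node ⟨0,0,1⟩ (.node ⟨17,-4,28⟩ (.node ⟨-28,-7,16⟩ (.leaf false ⟨⟨-28,-7,16⟩,⟨-4,32,7⟩,⟨17,-4,28⟩⟩ (1,[(0,1)]) (4,[(4,33),(3,132),(1,1)]) (1,[(1,1)])) (.leaf false ⟨⟨-31,8,8⟩,⟨8,-1,32⟩,⟨8,32,-1⟩⟩ (33,[(4,3597),(0,64),(1,46)]) (33,[(4,1320),(0,25),(1,52)]) (132,[(4,32505),(0,892),(1,505)]))) (.node ⟨-16,-7,28⟩ (.node ⟨-28,-4,-17⟩ (.leaf false ⟨⟨-28,-4,-17⟩,⟨-16,-7,28⟩,⟨-7,32,4⟩⟩ (1,[(0,1)]) (1,[(1,1)]) (4,[(3,33),(0,1),(4,132)])) (.leaf false ⟨⟨-31,8,8⟩,⟨8,-1,32⟩,⟨8,32,-1⟩⟩ (297,[(1,732),(2,1111),(0,764)])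 (297,[(1,255),(2,88),(0,284)]) (1485,[(1,4740),(2,10604),(0,9571)]))) (.leaf false ⟨⟨-25,20,-8⟩,⟨8,20,25⟩,⟨20,17,-20⟩⟩ (7,[(2,504),(4,495),(0,20)]) (7,[(2,735),(4,264),(0,20)]) (7,[(2,336),(4,132),(0,17)])))) (.node ⟨17,-4,-28⟩ (.node ⟨-28,-7,-16⟩ (.leaf false ⟨⟨-28,-7,-16⟩,⟨-4,32,-7⟩,⟨17,-4,-28⟩⟩ (1,[(0,1)]) (4,[(4,33),(3,132),(1,1)]) (1,[(1,1)])) (.leaf false ⟨⟨-31,8,-8⟩,⟨8,-1,-32⟩,⟨8,32,1⟩⟩ (33,[(4,3597),(0,64),(1,46)]) (33,[(4,1320),(0,25),(1,52)]) (132,[(4,32505),(0,892),(1,505)]))) (.node ⟨-16,-7,-28⟩ (.node ⟨-28,-4,17⟩ (.leaf false ⟨⟨-28,-4,17⟩,⟨-16,-7,-28⟩,⟨-7,32,-4⟩⟩ (1,[(0,1)]) (1,[(1,1)]) (4,[(3,33),(0,1),(4,132)])) (.leaf false ⟨⟨-31,8,-8⟩,⟨8,-1,-32⟩,⟨8,32,1⟩⟩ (297,[(1,732),(2,1111),(0,764)])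 (297,[(1,255),(2,88),(0,284)]) (1485,[(1,4740),(2,10604),(0,9571)]))) (.leaf false ⟨⟨-25,20,-8⟩,⟨8,20,25⟩,⟨20,17,-20⟩⟩ (7,[(2,616),(4,495),(0,20)]) (7,[(2,385),(4,264),(0,20)]) (7,[(2,616),(4,132),(0,17)]))))) (.node ⟨0,0,1⟩ (.node ⟨17,-28,-4⟩ (.node ⟨-28,-16,-7⟩ (.leaf false ⟨⟨-28,-16,-7⟩,⟨-4,-7,32⟩,⟨17,-28,-4⟩⟩ (1,[(0,1)]) (4,[(2,132),(4,33),(1,1)]) (1,[(1,1)])) (.leaf false ⟨⟨-25,8,20⟩,⟨8,-25,20⟩,⟨20,20,17⟩⟩ (1,[(4,171),(1,2),(0,4)]) (4,[(4,783),(1,15),(0,20)]) (1,[(4,81),(1,1),(0,3)]))) (.node ⟨-16,-28,-7⟩ (.node ⟨-28,17,-4⟩ (.leaf false ⟨⟨-28,17,-4⟩,⟨-16,-28,-7⟩,⟨-7,-4,32⟩⟩ (1,[(0,1)]) (1,[(1,1)]) (4,[(3,132),(0,1),(4,33)])) (.leaf false ⟨⟨-25,8,20⟩,⟨8,-25,20⟩,⟨20,20,17⟩⟩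 (55,[(2,319),(1,160),(0,236)]) (165,[(2,836),(1,480),(0,829)]) (55,[(2,132),(1,15),(0,128)]))) (.leaf false ⟨⟨-28,-7,16⟩,⟨-4,32,7⟩,⟨17,-4,28⟩⟩ (7,[(4,452),(3,497),(0,16)]) (21,[(1,7),(4,237),(0,17)]) (1,[(4,47),(3,116),(0,4)])))) (.node ⟨17,-28,4⟩ (.node ⟨-28,-16,7⟩ (.leaf false ⟨⟨-28,-16,7⟩,⟨-4,-7,-32⟩,⟨17,-28,4⟩⟩ (1,[(0,1)]) (4,[(2,132),(4,33),(1,1)]) (1,[(1,1)])) (.leaf false ⟨⟨-25,8,-20⟩,⟨8,-25,-20⟩,⟨20,20,-17⟩⟩ (1,[(4,171),(1,2),(0,4)]) (4,[(4,783),(1,15),(0,20)]) (1,[(4,81),(1,1),(0,3)]))) (.node ⟨-16,-28,7⟩ (.node ⟨-28,17,4⟩ (.leaf false ⟨⟨-28,17,4⟩,⟨-16,-28,7⟩,⟨-7,-4,-32⟩⟩ (1,[(0,1)]) (1,[(1,1)]) (4,[(3,132),(0,1),(4,33)])) (.leaf false ⟨⟨-25,8,-20⟩,⟨8,-25,-20⟩,⟨20,20,-17⟩⟩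 (55,[(2,319),(1,160),(0,236)]) (165,[(2,836),(1,480),(0,829)]) (55,[(2,132),(1,15),(0,128)]))) (.leaf false ⟨⟨-28,-7,-16⟩,⟨-4,32,-7⟩,⟨17,-4,-28⟩⟩ (7,[(4,452),(3,497),(0,16)]) (21,[(1,7),(4,237),(0,17)]) (1,[(4,47),(3,116),(0,4)]))))))
theorem pc33_ok : pc33.check (ok 33 6 ⟨5, 5, 3⟩) (fun _ r => r) [] = true := by decide +kernel

def ps23 : T := .node ⟨1,0,0⟩ (.node ⟨0,1,0⟩ (.node ⟨0,0,1⟩ (.node ⟨-14,3,18⟩ (.node ⟨-3,22,-6⟩ (.leaf false ⟨⟨-14,3,18⟩,⟨-3,22,-6⟩,⟨18,6,13⟩⟩ (1,[(1,1)]) (1,[(0,1)]) (11,[(2,161),(4,207),(0,3)])) (.leaf false ⟨⟨-6,18,13⟩,⟨-3,-14,18⟩,⟨22,3,6⟩⟩ (18,[(4,74),(3,285),(1,13)]) (69,[(4,368),(1,52),(0,51)]) (1,[(4,19),(3,25),(0,1)]))) (.node ⟨13,-6,18⟩ (.leaf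 false ⟨⟨6,22,3⟩,⟨13,-6,18⟩,⟨18,-3,-14⟩⟩ (7,[(2,75),(1,3),(3,163)]) (1,[(0,1)]) (7,[(2,64),(1,9),(3,6)])) (.leaf false ⟨⟨-14,18,-3⟩,⟨3,6,22⟩,⟨18,13,-6⟩⟩ (3,[(2,423),(1,10),(0,14)]) (15,[(2,1464),(1,32),(0,31)]) (45,[(2,8964),(1,277),(0,236)])))) (.node ⟨-32,16,-59⟩ (.node ⟨4,67,16⟩ (.leaf true ⟨⟨-18,3,-14⟩,⟨6,22,-3⟩,⟨13,-6,-18⟩⟩ (1,[(0,1)]) (1,[(1,1)]) (4,[(2,69),(4,276),(1,1)])) (.leaf false ⟨⟨-6,13,-18⟩,⟨3,-18,-14⟩,⟨22,6,-3⟩⟩ (59,[(4,222),(3,479),(1,18)]) (8,[(4,52),(3,325),(0,7)]) (16,[(4,364),(3,297),(0,3)]))) (.leaf false ⟨⟨6,22,3⟩,⟨13,-6,18⟩,⟨18,-3,-14⟩⟩ (16,[(1,129),(0,3),(2,400)]) (32,[(1,191),(0,13),(2,16)]) (16,[(1,755),(0,9),(2,96)])))) (.node ⟨0,0,1⟩ (.node ⟨-32,-59,16⟩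 (.node ⟨4,16,67⟩ (.leaf true ⟨⟨-18,-14,3⟩,⟨6,-3,22⟩,⟨13,-18,-6⟩⟩ (1,[(0,1)]) (1,[(1,1)]) (4,[(4,276),(3,69),(1,1)])) (.leaf false ⟨⟨-6,-18,13⟩,⟨3,-14,-18⟩,⟨22,-3,6⟩⟩ (59,[(2,479),(4,222),(1,18)]) (8,[(2,325),(4,52),(0,7)]) (16,[(2,297),(4,364),(0,3)]))) (.leaf false ⟨⟨6,3,22⟩,⟨13,18,-6⟩,⟨18,-14,-3⟩⟩ (16,[(1,400),(0,3),(2,129)]) (32,[(1,16),(0,13),(2,191)]) (16,[(1,96),(0,9),(2,755)]))) (.node ⟨16,37,-56⟩ (.node ⟨61,16,28⟩ (.leaf true ⟨⟨-3,-18,-14⟩,⟨6,13,-18⟩,⟨22,-6,3⟩⟩ (1,[(0,1)]) (1,[(1,1)]) (61,[(2,2553),(0,28),(3,3864)])) (.node ⟨-11,-68,4⟩ (.leaf true ⟨⟨6,22,3⟩,⟨13,-6,18⟩,⟨18,-3,-14⟩⟩ (376,[(2,196),(0,9),(1,321)]) (1,[(0,1)]) (305,[(2,253),(5,13869),(0,187)])) (.leaf false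 ⟨⟨-18,3,-14⟩,⟨6,22,-3⟩,⟨13,-6,-18⟩⟩ (492,[(5,4632),(1,235),(0,77)]) (492,[(5,2895),(1,29),(0,166)]) (82,[(5,4183),(1,52),(0,5)])))) (.node ⟨22,-3,6⟩ (.leaf false ⟨⟨-6,-18,13⟩,⟨3,-14,-18⟩,⟨22,-3,6⟩⟩ (37,[(2,527),(4,66),(1,18)]) (37,[(2,1450),(4,335),(1,14)]) (1,[(0,1)])) (.leaf false ⟨⟨-3,-14,-18⟩,⟨6,-18,13⟩,⟨22,3,-6⟩⟩ (27,[(4,16973),(1,69),(0,725)]) (54,[(4,13022),(1,69),(0,527)]) (1,[(4,44),(0,1)])))))) (.node ⟨0,1,0⟩ (.node ⟨0,0,1⟩ (.node ⟨-59,16,-32⟩ (.node ⟨16,67,4⟩ (.leaf true ⟨⟨-18,-6,13⟩,⟨-14,3,-18⟩,⟨-3,22,6⟩⟩ (4,[(2,276),(4,69),(1,1)]) (1,[(0,1)]) (1,[(1,1)])) (.leaf false ⟨⟨-18,13,-6⟩,⟨-14,-18,3⟩,⟨-3,6,22⟩⟩ (59,[(2,222),(1,18),(3,479)]) (8,[(2,52),(0,7),(3,325)]) (16,[(2,364),(0,3),(3,297)])))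 (.leaf false ⟨⟨-14,-3,18⟩,⟨3,22,6⟩,⟨18,-6,13⟩⟩ (16,[(3,755),(2,96),(0,9)]) (16,[(3,129),(2,400),(0,3)]) (32,[(3,191),(2,16),(0,13)]))) (.node ⟨37,16,-56⟩ (.node ⟨16,61,28⟩ (.leaf true ⟨⟨-18,-3,-14⟩,⟨-6,22,3⟩,⟨13,6,-18⟩⟩ (1,[(0,1)]) (61,[(2,2553),(4,3864),(0,28)]) (1,[(1,1)])) (.node ⟨-68,-11,4⟩ (.leaf true ⟨⟨-6,13,18⟩,⟨-3,18,-14⟩,⟨22,6,3⟩⟩ (1,[(0,1)]) (305,[(4,13869),(2,253),(0,187)]) (376,[(2,196),(1,321),(0,9)])) (.leaf false ⟨⟨-18,3,-14⟩,⟨6,22,-3⟩,⟨13,-6,-18⟩⟩ (2,[(5,20),(4,67),(1,1)]) (4,[(5,180),(4,55),(0,3)]) (92,[(5,8752),(0,155),(1,37)])))) (.node ⟨-3,22,6⟩ (.leaf false ⟨⟨-18,-6,13⟩,⟨-14,3,-18⟩,⟨-3,22,6⟩⟩ (37,[(2,527),(1,18),(3,66)]) (37,[(2,1450),(1,14),(3,335)]) (1,[(0,1)]))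 (.leaf false ⟨⟨-18,6,13⟩,⟨-14,-3,-18⟩,⟨3,22,-6⟩⟩ (54,[(1,69),(3,13022),(0,527)]) (27,[(1,69),(3,16973),(0,725)]) (1,[(3,44),(0,1)]))))) (.node ⟨0,0,1⟩ (.node ⟨37,-56,16⟩ (.node ⟨16,28,61⟩ (.leaf true ⟨⟨-18,-14,-3⟩,⟨-6,3,22⟩,⟨13,-18,6⟩⟩ (1,[(0,1)]) (61,[(4,3864),(3,2553),(0,28)]) (1,[(1,1)])) (.node ⟨-68,4,-11⟩ (.leaf true ⟨⟨-6,18,13⟩,⟨-3,-14,18⟩,⟨22,3,6⟩⟩ (1,[(0,1)]) (305,[(3,13869),(0,187),(2,253)]) (376,[(0,9),(1,321),(2,196)])) (.leaf false ⟨⟨-18,-14,3⟩,⟨6,-3,22⟩,⟨13,-18,-6⟩⟩ (2,[(3,67),(5,20),(1,1)]) (4,[(3,55),(5,180),(0,3)]) (92,[(5,8752),(1,37),(0,155)])))) (.node ⟨-3,6,22⟩ (.leaf false ⟨⟨-18,13,-6⟩,⟨-14,-18,3⟩,⟨-3,6,22⟩⟩ (37,[(2,66),(1,18),(3,527)]) (37,[(2,335),(1,14),(3,1450)])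 (1,[(0,1)])) (.leaf false ⟨⟨-18,13,6⟩,⟨-14,-18,-3⟩,⟨3,-6,22⟩⟩ (54,[(2,13022),(1,69),(0,527)]) (27,[(2,16973),(1,69),(0,725)]) (1,[(2,44),(0,1)])))) (.leaf false ⟨⟨-23,0,0⟩,⟨0,-23,0⟩,⟨0,0,-23⟩⟩ (1,[(2,23)]) (1,[(1,23)]) (1,[(0,23)]))))
theorem ps23_ok : ps23.check (ok 23 6 ⟨5, 5, 5⟩) tr6 [] = true := by decide +kernel

def pu23 : T := .node ⟨1,0,0⟩ (.node ⟨0,1,0⟩ (.node ⟨0,0,1⟩ (.node ⟨-14,3,18⟩ (.node ⟨-3,22,-6⟩ (.leaf false ⟨⟨-14,3,18⟩,⟨-3,22,-6⟩,⟨18,6,13⟩⟩ (1,[(1,1)]) (1,[(0,1)]) (11,[(2,161),(4,207),(0,3)])) (.leaf false ⟨⟨-6,18,13⟩,⟨-3,-14,18⟩,⟨22,3,6⟩⟩ (18,[(4,74),(3,285),(1,13)]) (69,[(4,368),(1,52),(0,51)]) (1,[(4,19),(3,25),(0,1)]))) (.node ⟨56,-40,5⟩ (.leaf false ⟨⟨6,22,3⟩,⟨13,-6,18⟩,⟨18,-3,-14⟩⟩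 (7,[(2,75),(1,3),(3,163)]) (56,[(2,943),(0,13),(3,184)]) (7,[(2,64),(1,9),(3,6)])) (.leaf false ⟨⟨-14,18,-3⟩,⟨3,6,22⟩,⟨18,13,-6⟩⟩ (28,[(2,567),(1,32),(0,15)]) (392,[(2,17297),(1,456),(0,93)]) (98,[(2,6223),(1,362),(0,59)])))) (.node ⟨-37,56,-16⟩ (.node ⟨-16,-28,-61⟩ (.leaf true ⟨⟨-18,-14,-3⟩,⟨-6,3,22⟩,⟨13,-18,6⟩⟩ (1,[(0,1)]) (61,[(4,3864),(3,2553),(0,28)]) (1,[(1,1)])) (.node ⟨13,6,18⟩ (.leaf false ⟨⟨-6,22,-3⟩,⟨13,6,18⟩,⟨18,3,-14⟩⟩ (24,[(5,137),(0,4),(2,9)]) (1,[(0,1)]) (2,[(3,46),(5,23),(0,1)])) (.leaf false ⟨⟨-18,3,-14⟩,⟨6,22,-3⟩,⟨13,-6,-18⟩⟩ (6,[(5,121),(1,6),(0,25)]) (3,[(5,277),(1,9),(0,31)]) (1,[(5,26),(0,1)])))) (.node ⟨13,-6,18⟩ (.leaf false ⟨⟨6,22,3⟩,⟨13,-6,18⟩,⟨18,-3,-14⟩⟩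 (13,[(2,69),(0,6),(3,322)]) (1,[(0,1)]) (13,[(2,506),(0,18),(3,69)])) (.leaf false ⟨⟨-6,13,-18⟩,⟨3,-18,-14⟩,⟨22,6,-3⟩⟩ (229,[(1,63),(3,4795),(0,285)]) (229,[(1,118),(3,788),(0,283)]) (458,[(1,435),(3,24330),(0,463)]))))) (.node ⟨0,0,1⟩ (.node ⟨-37,-16,56⟩ (.node ⟨-16,-61,-28⟩ (.leaf true ⟨⟨-18,-3,-14⟩,⟨-6,22,3⟩,⟨13,6,-18⟩⟩ (1,[(0,1)]) (61,[(2,2553),(4,3864),(0,28)]) (1,[(1,1)])) (.node ⟨13,18,6⟩ (.leaf false ⟨⟨-6,-3,22⟩,⟨13,18,6⟩,⟨18,-14,3⟩⟩ (24,[(5,137),(2,9),(0,4)]) (1,[(0,1)]) (2,[(5,23),(4,46),(0,1)])) (.leaf false ⟨⟨-18,-14,3⟩,⟨6,-3,22⟩,⟨13,-18,-6⟩⟩ (6,[(5,121),(0,25),(1,6)]) (3,[(5,277),(0,31),(1,9)]) (1,[(5,26),(0,1)])))) (.node ⟨13,18,-6⟩ (.leaf false ⟨⟨6,3,22⟩,⟨13,18,-6⟩,⟨18,-14,-3⟩⟩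 (13,[(2,322),(0,6),(3,69)]) (1,[(0,1)]) (13,[(2,69),(0,18),(3,506)])) (.leaf false ⟨⟨-6,-18,13⟩,⟨3,-14,-18⟩,⟨22,-3,6⟩⟩ (229,[(2,4795),(1,63),(0,285)]) (229,[(2,788),(1,118),(0,283)]) (458,[(2,24330),(1,435),(0,463)])))) (.node ⟨59,-16,32⟩ (.node ⟨-16,-67,-4⟩ (.leaf true ⟨⟨-18,-6,13⟩,⟨-14,3,-18⟩,⟨-3,22,6⟩⟩ (4,[(2,276),(4,69),(1,1)]) (1,[(0,1)]) (1,[(1,1)])) (.node ⟨-3,-18,-14⟩ (.leaf false ⟨⟨-3,-18,-14⟩,⟨6,13,-18⟩,⟨22,-6,3⟩⟩ (1,[(0,1)]) (8,[(3,156),(1,3),(4,97)]) (498,[(1,86),(2,179),(0,327)])) (.leaf false ⟨⟨3,18,-14⟩,⟨6,13,18⟩,⟨22,-6,-3⟩⟩ (1,[(3,28),(0,1)]) (1,[(3,10),(0,2),(4,23)]) (3,[(3,317),(0,22),(4,414)])))) (.node ⟨59,32,-16⟩ (.leaf false ⟨⟨-6,13,-18⟩,⟨3,-18,-14⟩,⟨22,6,-3⟩⟩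 (48,[(4,597),(1,23),(0,8)]) (16,[(4,461),(3,400),(1,7)]) (16,[(4,175),(0,3)])) (.leaf true ⟨⟨-23,0,0⟩,⟨0,-23,0⟩,⟨0,0,-23⟩⟩ (8,[(4,2898),(0,23),(1,23)]) (16,[(4,621),(1,23)]) (16,[(4,621),(0,23)])))))) (.node ⟨0,1,0⟩ (.node ⟨0,0,1⟩ (.node ⟨-16,-37,56⟩ (.node ⟨-61,-16,-28⟩ (.leaf true ⟨⟨-3,-18,-14⟩,⟨6,13,-18⟩,⟨22,-6,3⟩⟩ (1,[(0,1)]) (1,[(1,1)]) (61,[(2,2553),(0,28),(3,3864)])) (.node ⟨18,13,6⟩ (.leaf false ⟨⟨-14,18,3⟩,⟨-3,-6,22⟩,⟨18,13,6⟩⟩ (2,[(5,46),(4,23),(0,1)]) (24,[(2,9),(4,137),(0,4)]) (1,[(0,1)])) (.leaf false ⟨⟨-18,13,-6⟩,⟨-14,-18,3⟩,⟨-3,6,22⟩⟩ (1,[(4,26),(0,1)]) (6,[(4,121),(1,6),(0,25)]) (3,[(4,277),(1,9),(0,31)])))) (.node ⟨18,13,-6⟩ (.leaf false ⟨⟨-14,18,-3⟩,⟨3,6,22⟩,⟨18,13,-6⟩⟩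 (13,[(2,69),(4,506),(0,18)]) (13,[(2,322),(4,69),(0,6)]) (1,[(0,1)])) (.leaf false ⟨⟨-18,-6,13⟩,⟨-14,3,-18⟩,⟨-3,22,6⟩⟩ (229,[(2,4795),(0,285),(1,63)]) (229,[(2,788),(0,283),(1,118)]) (458,[(2,24330),(0,463),(1,435)])))) (.node ⟨32,59,-16⟩ (.node ⟨-4,-16,-67⟩ (.leaf true ⟨⟨-18,-14,3⟩,⟨6,-3,22⟩,⟨13,-18,-6⟩⟩ (1,[(0,1)]) (1,[(1,1)]) (4,[(4,276),(3,69),(1,1)])) (.node ⟨-14,-3,-18⟩ (.leaf false ⟨⟨-18,6,13⟩,⟨-14,-3,-18⟩,⟨3,22,-6⟩⟩ (8,[(3,97),(5,156),(1,3)]) (1,[(0,1)]) (498,[(0,327),(1,86),(2,179)])) (.leaf false ⟨⟨-14,3,18⟩,⟨-3,22,-6⟩,⟨18,6,13⟩⟩ (1,[(5,28),(0,1)]) (3,[(3,414),(5,317),(0,22)]) (1,[(3,23),(5,10),(0,2)])))) (.node ⟨-16,59,32⟩ (.leaf false ⟨⟨-18,-6,13⟩,⟨-14,3,-18⟩,⟨-3,22,6⟩⟩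 (48,[(1,23),(0,8),(3,597)]) (16,[(2,400),(1,7),(3,461)]) (16,[(0,3),(3,175)])) (.leaf true ⟨⟨-23,0,0⟩,⟨0,-23,0⟩,⟨0,0,-23⟩⟩ (16,[(3,621),(0,23)]) (8,[(1,23),(3,2898),(0,23)]) (16,[(1,23),(3,621)]))))) (.node ⟨0,0,1⟩ (.node ⟨32,-16,59⟩ (.node ⟨-4,-67,-16⟩ (.leaf true ⟨⟨-18,3,-14⟩,⟨6,22,-3⟩,⟨13,-6,-18⟩⟩ (1,[(0,1)]) (1,[(1,1)]) (4,[(2,69),(4,276),(1,1)])) (.node ⟨-14,-18,-3⟩ (.leaf false ⟨⟨-18,13,6⟩,⟨-14,-18,-3⟩,⟨3,-6,22⟩⟩ (8,[(5,156),(4,97),(1,3)]) (1,[(0,1)]) (498,[(0,327),(2,179),(1,86)])) (.leaf false ⟨⟨-14,-3,18⟩,⟨3,22,6⟩,⟨18,-6,13⟩⟩ (1,[(5,98),(4,111),(0,6)]) (1,[(5,25),(4,14),(0,2)]) (3,[(5,128),(4,252),(0,13)])))) (.node ⟨-16,32,59⟩ (.leaf false ⟨⟨-18,13,-6⟩,⟨-14,-18,3⟩,⟨-3,6,22⟩⟩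 (48,[(2,597),(0,8),(1,23)]) (16,[(2,461),(1,7),(3,400)]) (16,[(2,175),(0,3)])) (.leaf true ⟨⟨-23,0,0⟩,⟨0,-23,0⟩,⟨0,0,-23⟩⟩ (16,[(2,621),(0,23)]) (16,[(2,621),(1,23)]) (8,[(2,2898),(1,23),(0,23)])))) (.leaf false ⟨⟨-23,0,0⟩,⟨0,-23,0⟩,⟨0,0,-23⟩⟩ (1,[(2,23)]) (1,[(1,23)]) (1,[(0,23)]))))
theorem pu23_ok : pu23.check (ok 23 6 ⟨5, 5, 5⟩) tr3 [] = true := by decide +kernel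

def pa69 : T := .node ⟨1,0,0⟩ (.node ⟨0,1,0⟩ (.node ⟨0,0,1⟩ (.node ⟨-32,16,59⟩ (.node ⟨4,67,-16⟩ (.leaf false ⟨⟨-32,16,59⟩,⟨4,67,-16⟩,⟨61,4,32⟩⟩ (1,[(1,1)]) (1,[(0,1)]) (4,[(2,69),(4,276),(1,1)])) (.leaf false ⟨⟨-28,16,61⟩,⟨29,-56,28⟩,⟨56,37,16⟩⟩ (23,[(3,1771),(1,17),(0,25)]) (4,[(4,144),(3,245),(0,7)]) (1,[(4,60),(3,104),(0,1)]))) (.node ⟨16,59,-32⟩ (.leaf false ⟨⟨4,32,61⟩,⟨16,59,-32⟩,⟨67,-16,4⟩⟩ (4,[(2,276),(0,1),(3,69)]) (1,[(0,1)]) (32,[(2,4081),(1,67),(3,560)])) (.leaf false ⟨⟨-28,16,61⟩,⟨29,-56,28⟩,⟨56,37,16⟩⟩ (4,[(1,4),(3,1013),(0,15)]) (80,[(1,1376),(3,171349),(0,2607)]) (10,[(1,256),(3,32609),(0,477)])))) (.node ⟨-37,16,-56⟩ (.node ⟨-16,61,28⟩ (.leaf false ⟨⟨-37,16,-56⟩,⟨-16,61,28⟩,⟨56,28,-29⟩⟩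 (1,[(1,1)]) (1,[(0,1)]) (61,[(2,2553),(4,3864),(0,28)])) (.node ⟨68,-11,4⟩ (.leaf false ⟨⟨-4,-44,-53⟩,⟨11,52,-44⟩,⟨68,-11,4⟩⟩ (376,[(2,196),(1,321),(0,9)]) (305,[(4,13869),(2,253),(0,187)]) (1,[(0,1)])) (.leaf false ⟨⟨-56,35,-20⟩,⟨-5,-40,-56⟩,⟨40,44,-35⟩⟩ (123,[(4,7338),(0,118),(1,71)]) (69,[(5,17619),(0,287),(1,97)]) (4,[(5,80),(4,481),(1,5)])))) (.node ⟨16,-37,-56⟩ (.leaf false ⟨⟨16,-37,-56⟩,⟨28,56,-29⟩,⟨61,-16,28⟩⟩ (1,[(0,1)]) (37,[(2,2641),(1,28),(3,2520)]) (37,[(2,2380),(1,61),(3,384)])) (.leaf false ⟨⟨-16,67,4⟩,⟨32,4,61⟩,⟨59,16,-32⟩⟩ (371,[(2,48972),(1,160),(0,741)]) (371,[(2,12985),(1,416),(0,220)]) (371,[(2,86072),(1,813),(0,512)]))))) (.node ⟨0,0,1⟩ (.node ⟨-37,-56,16⟩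 (.node ⟨-16,28,61⟩ (.leaf false ⟨⟨-37,-56,16⟩,⟨-16,28,61⟩,⟨56,-29,28⟩⟩ (1,[(1,1)]) (1,[(0,1)]) (61,[(4,3864),(3,2553),(0,28)])) (.node ⟨68,4,-11⟩ (.leaf false ⟨⟨-4,-53,-44⟩,⟨11,-44,52⟩,⟨68,4,-11⟩⟩ (376,[(0,9),(1,321),(2,196)]) (305,[(3,13869),(0,187),(2,253)]) (1,[(0,1)])) (.leaf false ⟨⟨-56,-20,35⟩,⟨-5,-56,-40⟩,⟨40,-35,44⟩⟩ (123,[(3,7338),(1,71),(0,118)]) (69,[(5,17619),(1,97),(0,287)]) (4,[(3,481),(5,80),(1,5)])))) (.node ⟨16,-56,-37⟩ (.leaf false ⟨⟨16,-56,-37⟩,⟨28,-29,56⟩,⟨61,28,-16⟩⟩ (1,[(0,1)]) (37,[(2,2520),(1,28),(3,2641)]) (37,[(2,384),(1,61),(3,2380)])) (.leaf false ⟨⟨-16,4,67⟩,⟨32,61,4⟩,⟨59,-32,16⟩⟩ (371,[(1,160),(3,48972),(0,741)]) (371,[(1,416),(3,12985),(0,220)])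 (371,[(1,813),(3,86072),(0,512)])))) (.node ⟨-32,-59,-16⟩ (.node ⟨4,16,-67⟩ (.leaf false ⟨⟨-32,-59,-16⟩,⟨4,16,-67⟩,⟨61,-32,-4⟩⟩ (1,[(1,1)]) (1,[(0,1)]) (4,[(4,276),(3,69),(1,1)])) (.node ⟨68,4,-11⟩ (.leaf false ⟨⟨-4,-53,-44⟩,⟨11,-44,52⟩,⟨68,4,-11⟩⟩ (971,[(3,24357),(0,365),(2,897)]) (4064,[(0,1871),(1,3959),(2,2084)]) (1,[(0,1)])) (.leaf false ⟨⟨-56,-28,-29⟩,⟨16,-61,28⟩,⟨37,-16,-56⟩⟩ (1,[(3,106),(5,420),(0,7)]) (16,[(3,3639),(5,500),(1,61)]) (1,[(3,123),(5,41),(1,1)])))) (.node ⟨56,-5,40⟩ (.leaf false ⟨⟨20,-56,-35⟩,⟨35,40,-44⟩,⟨56,-5,40⟩⟩ (8,[(2,360),(1,5),(3,743)]) (32,[(2,1968),(1,35),(3,785)]) (1,[(0,1)])) (.leaf false ⟨⟨-52,-11,-44⟩,⟨11,-68,4⟩,⟨44,4,-53⟩⟩ (2,[(1,2),(3,155),(0,3)])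 (16,[(1,9),(3,1629),(0,2)]) (16,[(1,197),(3,12059),(0,100)])))))) (.node ⟨0,1,0⟩ (.node ⟨0,0,1⟩ (.node ⟨-56,-37,16⟩ (.node ⟨28,-16,61⟩ (.leaf false ⟨⟨-56,-37,16⟩,⟨-29,56,28⟩,⟨28,-16,61⟩⟩ (1,[(1,1)]) (61,[(4,2553),(3,3864),(0,28)]) (1,[(0,1)])) (.node ⟨4,68,-11⟩ (.leaf false ⟨⟨-53,-4,-44⟩,⟨-44,11,52⟩,⟨4,68,-11⟩⟩ (376,[(2,196),(1,321),(0,9)]) (305,[(3,13869),(2,253),(0,187)]) (1,[(0,1)])) (.leaf false ⟨⟨-56,-5,-40⟩,⟨-35,40,44⟩,⟨-20,-56,35⟩⟩ (69,[(0,287),(1,97),(4,17619)]) (4,[(3,481),(1,5),(4,80)]) (123,[(3,7338),(0,118),(1,71)])))) (.node ⟨-56,16,-37⟩ (.leaf false ⟨⟨-56,16,-37⟩,⟨-29,28,56⟩,⟨28,61,-16⟩⟩ (1,[(0,1)]) (37,[(2,2520),(4,2641),(1,28)]) (37,[(2,384),(4,2380),(1,61)]))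 (.leaf false ⟨⟨-32,16,59⟩,⟨4,67,-16⟩,⟨61,4,32⟩⟩ (371,[(4,86072),(1,512),(0,813)]) (371,[(4,48972),(1,741),(0,160)]) (371,[(4,12985),(1,220),(0,416)])))) (.node ⟨-16,-32,-59⟩ (.node ⟨-67,4,16⟩ (.leaf false ⟨⟨-67,4,16⟩,⟨-16,-32,-59⟩,⟨-4,61,-32⟩⟩ (1,[(0,1)]) (1,[(1,1)]) (4,[(2,69),(1,1),(3,276)])) (.node ⟨-11,68,4⟩ (.leaf false ⟨⟨-44,-4,-53⟩,⟨-11,68,4⟩,⟨52,11,-44⟩⟩ (971,[(2,897),(5,24357),(0,365)]) (1,[(0,1)]) (4064,[(2,2084),(0,1871),(1,3959)])) (.leaf false ⟨⟨-59,-32,-16⟩,⟨-32,61,-4⟩,⟨16,4,-67⟩⟩ (1,[(5,103),(4,240),(0,4)]) (1,[(5,43),(4,129),(0,1)]) (16,[(5,4233),(4,332),(1,67)])))) (.node ⟨40,56,-5⟩ (.leaf false ⟨⟨-44,35,40⟩,⟨-35,20,-56⟩,⟨40,56,-5⟩⟩ (32,[(2,785),(4,1968),(1,35)])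 (8,[(2,743),(4,360),(1,5)]) (1,[(0,1)])) (.leaf false ⟨⟨-68,-4,-11⟩,⟨-11,44,52⟩,⟨4,53,-44⟩⟩ (2,[(2,1198),(0,11),(1,19)]) (16,[(2,5229),(0,44),(1,99)]) (16,[(2,5515),(0,30),(1,79)]))))) (.node ⟨0,0,1⟩ (.node ⟨-16,-59,-32⟩ (.node ⟨-67,16,4⟩ (.leaf false ⟨⟨-67,16,4⟩,⟨-16,-59,-32⟩,⟨-4,-32,61⟩⟩ (1,[(0,1)]) (1,[(1,1)]) (4,[(2,276),(1,1),(3,69)])) (.node ⟨-11,4,68⟩ (.leaf false ⟨⟨-44,-53,-4⟩,⟨-11,4,68⟩,⟨52,-44,11⟩⟩ (971,[(5,24357),(2,897),(0,365)]) (1,[(0,1)]) (4064,[(2,2084),(1,3959),(0,1871)])) (.leaf false ⟨⟨-59,-16,-32⟩,⟨-32,-4,61⟩,⟨16,-67,4⟩⟩ (1,[(3,240),(5,103),(0,4)]) (1,[(3,129),(5,43),(0,1)]) (16,[(3,332),(5,4233),(1,67)])))) (.node ⟨40,-5,56⟩ (.leaf false ⟨⟨-44,40,35⟩,⟨-35,-56,20⟩,⟨40,-5,56⟩⟩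 (32,[(4,1968),(3,785),(1,35)]) (8,[(4,360),(3,743),(1,5)]) (1,[(0,1)])) (.leaf false ⟨⟨-68,-11,-4⟩,⟨-11,52,44⟩,⟨4,-44,53⟩⟩ (2,[(3,1198),(1,19),(0,11)]) (16,[(3,5229),(1,99),(0,44)]) (16,[(3,5515),(1,79),(0,30)])))) (.node ⟨-16,37,-56⟩ (.node ⟨-61,16,28⟩ (.leaf false ⟨⟨-61,16,28⟩,⟨-28,-56,-29⟩,⟨-16,37,-56⟩⟩ (1,[(0,1)]) (61,[(2,2553),(0,28),(3,3864)]) (1,[(1,1)])) (.node ⟨61,-32,-4⟩ (.leaf false ⟨⟨-32,-59,-16⟩,⟨4,16,-67⟩,⟨61,-32,-4⟩⟩ (7,[(5,468),(4,349),(1,4)]) (1160,[(2,1357),(4,17825),(0,432)]) (1,[(0,1)])) (.leaf false ⟨⟨-56,37,-16⟩,⟨-29,-56,-28⟩,⟨28,16,-61⟩⟩ (61,[(4,335),(1,50),(0,106)]) (61,[(4,5560),(1,76),(0,105)]) (488,[(4,4272),(1,1203),(0,979)])))) (.node ⟨37,-16,-56⟩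 (.leaf false ⟨⟨-56,-28,-29⟩,⟨16,-61,28⟩,⟨37,-16,-56⟩⟩ (37,[(2,2641),(4,2520),(1,28)]) (37,[(2,2380),(4,384),(1,61)]) (1,[(0,1)])) (.leaf false ⟨⟨-68,4,11⟩,⟨-11,-44,-52⟩,⟨4,-53,44⟩⟩ (1113,[(2,177709),(0,2452),(1,940)]) (1113,[(2,221116),(0,1111),(1,1804)]) (159,[(2,13780),(0,100),(1,271)]))))))
theorem pa69_ok : pa69.check (ok 69 6 ⟨5, 5, 5⟩) (fun _ r => r) [] = true := by decide +kernel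

def pb69 : T := .node ⟨1,0,0⟩ (.node ⟨0,1,0⟩ (.node ⟨0,0,1⟩ (.node ⟨-32,16,59⟩ (.node ⟨46,-23,46⟩ (.node ⟨46,46,-23⟩ (.leaf false ⟨⟨-23,46,46⟩,⟨46,-23,46⟩,⟨46,46,-23⟩⟩ (59,[(5,115),(4,1978),(2,46)]) (1,[(1,1)]) (1,[(0,1)])) (.leaf false ⟨⟨-56,29,28⟩,⟨16,-28,61⟩,⟨37,56,16⟩⟩ (23,[(4,1955),(0,28)]) (23,[(5,3174),(4,2162),(0,61)]) (23,[(5,1587),(4,2024),(0,16)]))) (.leaf false ⟨⟨-56,28,29⟩,⟨16,61,-28⟩,⟨37,16,56⟩⟩ (23,[(2,1955),(0,28)]) (23,[(2,2162),(4,3174),(0,61)]) (23,[(2,2024),(4,1587),(0,16)]))) (.node ⟨16,56,-37⟩ (.leaf false ⟨⟨4,32,61⟩,⟨16,59,-32⟩,⟨67,-16,4⟩⟩ (4,[(2,281),(0,1),(3,72)]) (1,[(2,5),(0,1),(3,3)]) (32,[(2,4081),(1,67),(3,560)])) (.leaf false ⟨⟨4,-61,32⟩,⟨16,32,59⟩,⟨67,-4,-16⟩⟩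 (4,[(1,11),(3,1108),(0,21)]) (5,[(1,32),(3,3976),(0,59)]) (80,[(1,741),(3,75768),(0,1147)])))) (.node ⟨-32,16,-59⟩ (.node ⟨46,-23,-46⟩ (.node ⟨46,46,23⟩ (.leaf false ⟨⟨-23,46,-46⟩,⟨46,-23,-46⟩,⟨46,46,23⟩⟩ (59,[(5,115),(4,1978),(2,46)]) (1,[(1,1)]) (1,[(0,1)])) (.leaf false ⟨⟨-56,29,-28⟩,⟨16,-28,-61⟩,⟨37,56,-16⟩⟩ (23,[(4,1955),(0,28)]) (23,[(5,3174),(4,2162),(0,61)]) (23,[(5,1587),(4,2024),(0,16)]))) (.leaf false ⟨⟨-56,28,-29⟩,⟨16,61,28⟩,⟨37,16,-56⟩⟩ (23,[(2,1955),(0,28)]) (23,[(2,2162),(4,3174),(0,61)]) (23,[(2,2024),(4,1587),(0,16)]))) (.node ⟨16,56,37⟩ (.leaf false ⟨⟨4,32,-61⟩,⟨16,59,32⟩,⟨67,-16,-4⟩⟩ (4,[(2,281),(0,1),(3,72)]) (1,[(2,5),(0,1),(3,3)]) (32,[(2,4081),(1,67),(3,560)]))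 (.leaf false ⟨⟨4,-61,-32⟩,⟨16,32,-59⟩,⟨67,-4,16⟩⟩ (4,[(1,11),(3,1108),(0,21)]) (5,[(1,32),(3,3976),(0,59)]) (80,[(1,741),(3,75768),(0,1147)]))))) (.node ⟨0,0,1⟩ (.node ⟨-32,-59,16⟩ (.node ⟨46,-46,-23⟩ (.node ⟨46,23,46⟩ (.leaf false ⟨⟨-23,-46,46⟩,⟨46,-46,-23⟩,⟨46,23,46⟩⟩ (59,[(3,1978),(5,115),(2,46)]) (1,[(1,1)]) (1,[(0,1)])) (.leaf false ⟨⟨-56,-28,29⟩,⟨16,-61,-28⟩,⟨37,-16,56⟩⟩ (23,[(3,1955),(0,28)]) (23,[(3,2162),(5,3174),(0,61)]) (23,[(3,2024),(5,1587),(0,16)]))) (.leaf false ⟨⟨-56,-29,28⟩,⟨16,28,61⟩,⟨37,-56,16⟩⟩ (23,[(3,1955),(0,28)]) (23,[(4,3174),(3,2162),(0,61)]) (23,[(4,1587),(3,2024),(0,16)]))) (.node ⟨16,37,56⟩ (.leaf false ⟨⟨4,-61,32⟩,⟨16,32,59⟩,⟨67,-4,-16⟩⟩ (4,[(2,72),(0,1),(3,281)])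 (1,[(2,3),(0,1),(3,5)]) (32,[(2,560),(1,67),(3,4081)])) (.leaf false ⟨⟨4,-32,-61⟩,⟨16,-59,32⟩,⟨67,16,-4⟩⟩ (4,[(2,1108),(1,11),(0,21)]) (5,[(2,3976),(1,32),(0,59)]) (80,[(2,75768),(1,741),(0,1147)])))) (.node ⟨-32,-59,-16⟩ (.node ⟨46,-46,23⟩ (.node ⟨46,23,-46⟩ (.leaf false ⟨⟨-23,-46,-46⟩,⟨46,-46,23⟩,⟨46,23,-46⟩⟩ (59,[(3,1978),(5,115),(2,46)]) (1,[(1,1)]) (1,[(0,1)])) (.leaf false ⟨⟨-56,-28,-29⟩,⟨16,-61,28⟩,⟨37,-16,-56⟩⟩ (23,[(3,1955),(0,28)]) (23,[(3,2162),(5,3174),(0,61)]) (23,[(3,2024),(5,1587),(0,16)]))) (.leaf false ⟨⟨-56,-29,-28⟩,⟨16,28,-61⟩,⟨37,-56,-16⟩⟩ (23,[(3,1955),(0,28)]) (23,[(4,3174),(3,2162),(0,61)]) (23,[(4,1587),(3,2024),(0,16)]))) (.node ⟨16,37,-56⟩ (.leaf false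 ⟨⟨4,-61,-32⟩,⟨16,32,-59⟩,⟨67,-4,16⟩⟩ (4,[(2,72),(0,1),(3,281)]) (1,[(2,3),(0,1),(3,5)]) (32,[(2,560),(1,67),(3,4081)])) (.leaf false ⟨⟨4,-32,-61⟩,⟨16,-59,32⟩,⟨67,16,-4⟩⟩ (4,[(2,1596),(1,11),(0,21)]) (5,[(2,3656),(1,32),(0,59)]) (80,[(2,76408),(1,741),(0,1147)])))))) (.node ⟨0,1,0⟩ (.node ⟨0,0,1⟩ (.node ⟨-59,-32,16⟩ (.node ⟨16,4,67⟩ (.leaf false ⟨⟨-59,-32,16⟩,⟨-32,61,4⟩,⟨16,4,67⟩⟩ (1,[(1,1)]) (4,[(1,1),(4,69),(3,276)]) (1,[(0,1)])) (.node ⟨4,68,11⟩ (.leaf false ⟨⟨-53,-4,44⟩,⟨-44,11,-52⟩,⟨4,68,11⟩⟩ (971,[(3,24357),(2,897),(0,365)]) (4064,[(2,2084),(1,3959),(0,1871)]) (1,[(0,1)])) (.leaf false ⟨⟨-56,-40,-5⟩,⟨-35,44,40⟩,⟨-20,35,-56⟩⟩ (1,[(3,149),(0,14),(4,912)]) (4,[(3,545),(0,35),(4,2556)])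 (4,[(3,111),(1,5),(4,160)])))) (.node ⟨-5,56,-40⟩ (.leaf false ⟨⟨-56,20,35⟩,⟨-5,56,-40⟩,⟨40,35,44⟩⟩ (8,[(2,360),(4,743),(1,5)]) (1,[(0,1)]) (32,[(2,1968),(4,785),(1,35)])) (.leaf false ⟨⟨-68,11,-4⟩,⟨-11,-52,44⟩,⟨4,44,53⟩⟩ (16,[(4,1629),(1,9),(0,2)]) (2,[(4,155),(1,2),(0,3)]) (16,[(4,12059),(1,197),(0,100)])))) (.node ⟨-59,-32,-16⟩ (.node ⟨16,4,-67⟩ (.leaf false ⟨⟨-59,-32,-16⟩,⟨-32,61,-4⟩,⟨16,4,-67⟩⟩ (1,[(1,1)]) (4,[(1,1),(4,69),(3,276)]) (1,[(0,1)])) (.node ⟨4,68,-11⟩ (.leaf false ⟨⟨-53,-4,-44⟩,⟨-44,11,52⟩,⟨4,68,-11⟩⟩ (971,[(3,24357),(2,897),(0,365)]) (4064,[(2,2084),(1,3959),(0,1871)]) (1,[(0,1)])) (.leaf false ⟨⟨-56,-40,-5⟩,⟨-35,44,40⟩,⟨-20,35,-56⟩⟩ (1,[(3,159),(0,14),(4,912)])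 (16,[(3,1705),(1,35),(4,844)]) (1,[(3,111),(0,5),(4,375)])))) (.node ⟨-5,56,40⟩ (.leaf false ⟨⟨-56,20,-35⟩,⟨-5,56,40⟩,⟨40,35,-44⟩⟩ (8,[(2,360),(4,743),(1,5)]) (1,[(0,1)]) (32,[(2,1968),(4,785),(1,35)])) (.leaf false ⟨⟨-68,11,4⟩,⟨-11,-52,-44⟩,⟨4,44,-53⟩⟩ (16,[(4,1629),(1,9),(0,2)]) (2,[(4,155),(1,2),(0,3)]) (16,[(4,12059),(1,197),(0,100)]))))) (.node ⟨0,0,1⟩ (.node ⟨-59,-16,-32⟩ (.node ⟨16,-67,4⟩ (.leaf false ⟨⟨-59,-16,-32⟩,⟨-32,-4,61⟩,⟨16,-67,4⟩⟩ (1,[(1,1)]) (4,[(2,276),(4,69),(1,1)]) (1,[(0,1)])) (.node ⟨4,-11,68⟩ (.leaf false ⟨⟨-53,-44,-4⟩,⟨-44,52,11⟩,⟨4,-11,68⟩⟩ (971,[(2,897),(4,24357),(0,365)]) (4064,[(1,3959),(2,2084),(0,1871)]) (1,[(0,1)])) (.leaf false ⟨⟨-56,-40,-5⟩,⟨-35,44,40⟩,⟨-20,35,-56⟩⟩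 (2,[(3,18),(1,7),(4,549)]) (16,[(3,780),(1,35),(4,1641)]) (1,[(3,284),(0,5),(4,20)])))) (.node ⟨-5,40,56⟩ (.leaf false ⟨⟨-56,-35,20⟩,⟨-5,40,56⟩,⟨40,-44,35⟩⟩ (8,[(4,743),(3,360),(1,5)]) (1,[(0,1)]) (32,[(4,785),(3,1968),(1,35)])) (.leaf false ⟨⟨-68,4,11⟩,⟨-11,-44,-52⟩,⟨4,-53,44⟩⟩ (16,[(4,1629),(0,2),(1,9)]) (2,[(4,155),(0,3),(1,2)]) (16,[(4,12059),(0,100),(1,197)])))) (.node ⟨-59,-16,32⟩ (.node ⟨16,-67,-4⟩ (.leaf false ⟨⟨-59,-16,32⟩,⟨-32,-4,-61⟩,⟨16,-67,-4⟩⟩ (1,[(1,1)]) (4,[(2,276),(4,69),(1,1)]) (1,[(0,1)])) (.node ⟨4,-11,-68⟩ (.leaf false ⟨⟨-53,-44,4⟩,⟨-44,52,-11⟩,⟨4,-11,-68⟩⟩ (971,[(2,897),(4,24357),(0,365)]) (4064,[(1,3959),(2,2084),(0,1871)]) (1,[(0,1)])) (.leaf false ⟨⟨-56,-40,-5⟩,⟨-35,44,40⟩,⟨-20,35,-56⟩⟩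 (2,[(3,38),(1,7),(4,549)]) (4,[(3,2220),(0,35),(4,209)]) (4,[(3,244),(1,5),(4,195)])))) (.node ⟨-5,40,-56⟩ (.leaf false ⟨⟨-56,-35,-20⟩,⟨-5,40,-56⟩,⟨40,-44,-35⟩⟩ (8,[(4,743),(3,360),(1,5)]) (1,[(0,1)]) (32,[(4,785),(3,1968),(1,35)])) (.leaf false ⟨⟨-68,4,-11⟩,⟨-11,-44,52⟩,⟨4,-53,-44⟩⟩ (16,[(4,1629),(0,2),(1,9)]) (2,[(4,155),(0,3),(1,2)]) (16,[(4,12059),(0,100),(1,197)]))))))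
theorem pb69_ok : pb69.check (ok 69 6 ⟨5, 3, 3⟩) (fun _ r => r) [] = true := by decide +kernel

def pc69 : T := .node ⟨1,0,0⟩ (.node ⟨0,1,0⟩ (.node ⟨0,0,1⟩ (.node ⟨-40,5,56⟩ (.node ⟨5,56,-40⟩ (.leaf false ⟨⟨-40,35,44⟩,⟨5,56,-40⟩,⟨56,20,35⟩⟩ (151,[(2,828),(0,80),(1,161)]) (1,[(0,1)]) (14,[(2,690),(4,759),(0,5)])) (.leaf false ⟨⟨-40,5,56⟩,⟨35,56,20⟩,⟨44,-40,35⟩⟩ (1,[(1,1)]) (2,[(4,75),(3,168),(0,1)]) (8,[(4,387),(3,72),(0,7)]))) (.node ⟨56,-40,5⟩ (.leaf false ⟨⟨20,35,56⟩,⟨35,44,-40⟩,⟨56,-40,5⟩⟩ (2,[(2,168),(1,1),(3,75)]) (8,[(2,72),(1,7),(3,387)]) (1,[(0,1)])) (.leaf false ⟨⟨-40,35,44⟩,⟨5,56,-40⟩,⟨56,20,35⟩⟩ (11,[(2,702),(1,3),(0,10)]) (440,[(2,48447),(1,1112),(0,755)]) (11,[(2,1998),(1,28),(0,9)]))))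 (.node ⟨-40,5,-56⟩ (.node ⟨5,56,40⟩ (.leaf false ⟨⟨-40,35,-44⟩,⟨5,56,40⟩,⟨56,20,-35⟩⟩ (151,[(2,828),(0,80),(1,161)]) (1,[(0,1)]) (14,[(2,690),(4,759),(0,5)])) (.leaf false ⟨⟨-40,5,-56⟩,⟨35,56,-20⟩,⟨44,-40,-35⟩⟩ (1,[(1,1)]) (2,[(4,75),(3,168),(0,1)]) (8,[(4,387),(3,72),(0,7)]))) (.node ⟨56,-40,-5⟩ (.leaf false ⟨⟨20,35,-56⟩,⟨35,44,40⟩,⟨56,-40,-5⟩⟩ (2,[(2,168),(1,1),(3,75)]) (8,[(2,72),(1,7),(3,387)]) (1,[(0,1)])) (.leaf false ⟨⟨-40,35,-44⟩,⟨5,56,40⟩,⟨56,20,-35⟩⟩ (11,[(2,702),(1,3),(0,10)]) (440,[(2,48447),(1,1112),(0,755)]) (11,[(2,1998),(1,28),(0,9)]))))) (.node ⟨0,0,1⟩ (.node ⟨59,-16,-32⟩ (.node ⟨-16,-67,4⟩ (.leaf false ⟨⟨-16,-67,4⟩,⟨32,-4,61⟩,⟨59,-16,-32⟩⟩ (1,[(0,1)]) (4,[(2,276),(4,69),(1,1)])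 (1,[(1,1)])) (.node ⟨-4,11,68⟩ (.leaf false ⟨⟨-4,11,68⟩,⟨44,-52,11⟩,⟨53,44,-4⟩⟩ (1,[(0,1)]) (268,[(1,759),(4,65757),(0,88)]) (994,[(1,769),(2,706),(0,319)])) (.leaf false ⟨⟨20,35,-56⟩,⟨35,44,40⟩,⟨56,-40,-5⟩⟩ (67,[(1,71),(0,51),(4,1851)]) (16,[(3,780),(1,35),(4,1641)]) (2,[(3,18),(1,7),(4,549)])))) (.node ⟨59,32,16⟩ (.leaf false ⟨⟨-16,-4,67⟩,⟨32,-61,4⟩,⟨59,32,16⟩⟩ (32,[(4,3441),(3,1200),(1,67)]) (4,[(4,69),(3,276),(0,1)]) (1,[(0,1)])) (.leaf false ⟨⟨-61,-4,32⟩,⟨-4,-67,-16⟩,⟨32,-16,59⟩⟩ (12,[(4,861),(0,10),(1,17)]) (48,[(4,8835),(0,118),(1,35)]) (48,[(4,14811),(0,91),(1,134)])))) (.node ⟨59,-16,32⟩ (.node ⟨-16,-67,-4⟩ (.leaf false ⟨⟨-16,-67,-4⟩,⟨32,-4,-61⟩,⟨59,-16,32⟩⟩ (1,[(0,1)])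 (4,[(2,276),(4,69),(1,1)]) (1,[(1,1)])) (.node ⟨-4,11,-68⟩ (.leaf false ⟨⟨-4,11,-68⟩,⟨44,-52,-11⟩,⟨53,44,4⟩⟩ (1,[(0,1)]) (268,[(1,759),(4,65757),(0,88)]) (994,[(1,769),(2,706),(0,319)])) (.leaf false ⟨⟨20,35,-56⟩,⟨35,44,40⟩,⟨56,-40,-5⟩⟩ (4,[(3,244),(1,5),(4,195)]) (268,[(1,555),(0,125),(4,24018)]) (2,[(3,38),(1,7),(4,549)])))) (.node ⟨59,32,-16⟩ (.leaf false ⟨⟨-16,-4,-67⟩,⟨32,-61,-4⟩,⟨59,32,-16⟩⟩ (32,[(4,3441),(3,1200),(1,67)]) (4,[(4,69),(3,276),(0,1)]) (1,[(0,1)])) (.leaf false ⟨⟨-61,-4,-32⟩,⟨-4,-67,16⟩,⟨32,-16,-59⟩⟩ (12,[(4,861),(0,10),(1,17)]) (48,[(4,8835),(0,118),(1,35)]) (48,[(4,14811),(0,91),(1,134)])))))) (.node ⟨0,1,0⟩ (.node ⟨0,0,1⟩ (.node ⟨-16,59,-32⟩ (.node ⟨-67,-16,4⟩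 (.leaf false ⟨⟨-67,-16,4⟩,⟨-16,59,-32⟩,⟨-4,32,61⟩⟩ (1,[(0,1)]) (1,[(1,1)]) (4,[(2,276),(1,1),(3,69)])) (.node ⟨11,-4,68⟩ (.leaf false ⟨⟨-52,44,11⟩,⟨11,-4,68⟩,⟨44,53,-4⟩⟩ (268,[(5,65757),(1,759),(0,88)]) (1,[(0,1)]) (994,[(2,706),(1,769),(0,319)])) (.leaf false ⟨⟨-40,35,-44⟩,⟨5,56,40⟩,⟨56,20,-35⟩⟩ (268,[(5,46086),(0,141),(1,551)]) (2,[(3,108),(5,459),(1,7)]) (1,[(3,37),(0,1),(1,1)])))) (.node ⟨32,59,16⟩ (.leaf false ⟨⟨-61,32,4⟩,⟨-4,-16,67⟩,⟨32,59,16⟩⟩ (4,[(4,276),(3,69),(0,1)]) (32,[(4,1200),(3,3441),(1,67)]) (1,[(0,1)])) (.leaf false ⟨⟨-67,-4,-16⟩,⟨-16,32,59⟩,⟨-4,-61,32⟩⟩ (48,[(3,8835),(1,35),(0,118)]) (48,[(3,14811),(1,134),(0,91)]) (12,[(3,861),(1,17),(0,10)])))) (.node ⟨-16,59,32⟩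 (.node ⟨-67,-16,-4⟩ (.leaf false ⟨⟨-67,-16,-4⟩,⟨-16,59,32⟩,⟨-4,32,-61⟩⟩ (1,[(0,1)]) (1,[(1,1)]) (4,[(2,276),(1,1),(3,69)])) (.node ⟨11,-4,-68⟩ (.leaf false ⟨⟨-52,44,-11⟩,⟨11,-4,-68⟩,⟨44,53,4⟩⟩ (268,[(5,65757),(1,759),(0,88)]) (1,[(0,1)]) (994,[(2,706),(1,769),(0,319)])) (.leaf false ⟨⟨-40,35,-44⟩,⟨5,56,40⟩,⟨56,20,-35⟩⟩ (16,[(3,844),(5,2985),(1,35)]) (67,[(5,14655),(0,26),(1,228)]) (1,[(3,107),(0,1),(1,1)])))) (.node ⟨32,59,-16⟩ (.leaf false ⟨⟨-61,32,-4⟩,⟨-4,-16,-67⟩,⟨32,59,-16⟩⟩ (4,[(4,276),(3,69),(0,1)]) (32,[(4,1200),(3,3441),(1,67)]) (1,[(0,1)])) (.leaf false ⟨⟨-67,-4,16⟩,⟨-16,32,-59⟩,⟨-4,-61,-32⟩⟩ (48,[(3,8835),(1,35),(0,118)]) (48,[(3,14811),(1,134),(0,91)]) (12,[(3,861),(1,17),(0,10)])))))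 (.node ⟨0,0,1⟩ (.node ⟨-16,32,59⟩ (.node ⟨-46,-46,-23⟩ (.node ⟨23,-46,46⟩ (.leaf false ⟨⟨-46,-46,-23⟩,⟨-46,23,46⟩,⟨23,-46,46⟩⟩ (1,[(1,1)]) (59,[(2,46),(5,1978),(4,115)]) (1,[(0,1)])) (.leaf false ⟨⟨-67,-4,-16⟩,⟨-16,32,59⟩,⟨-4,-61,32⟩⟩ (23,[(3,2714),(0,67),(4,3174)]) (23,[(3,2093),(0,16)]) (23,[(3,920),(0,4),(4,1587)]))) (.node ⟨-37,56,16⟩ (.leaf false ⟨⟨-37,56,16⟩,⟨-16,-28,61⟩,⟨56,29,28⟩⟩ (1,[(0,1)]) (23,[(5,3174),(4,3450),(1,61)]) (23,[(4,621),(1,28)])) (.leaf false ⟨⟨-61,-4,32⟩,⟨-4,-67,-16⟩,⟨32,-16,59⟩⟩ (138,[(5,44229),(0,391),(1,464)]) (552,[(5,40089),(0,805),(1,176)]) (276,[(5,130065),(0,1541),(1,1780)])))) (.node ⟨32,-16,59⟩ (.leaf false ⟨⟨-61,-4,32⟩,⟨-4,-67,-16⟩,⟨32,-16,59⟩⟩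 (4,[(2,69),(4,276),(0,1)]) (32,[(2,3441),(4,1200),(1,67)]) (1,[(0,1)])) (.leaf false ⟨⟨-46,-46,-23⟩,⟨-46,23,46⟩,⟨23,-46,46⟩⟩ (8,[(2,2530),(0,23),(1,23)]) (16,[(2,2093),(0,23)]) (16,[(2,2093),(1,23)])))) (.node ⟨-16,32,-59⟩ (.node ⟨-46,-46,23⟩ (.node ⟨23,-46,-46⟩ (.leaf false ⟨⟨-46,-46,23⟩,⟨-46,23,-46⟩,⟨23,-46,-46⟩⟩ (1,[(1,1)]) (59,[(2,46),(5,1978),(4,115)]) (1,[(0,1)])) (.leaf false ⟨⟨-67,-4,16⟩,⟨-16,32,-59⟩,⟨-4,-61,-32⟩⟩ (23,[(3,2714),(0,67),(4,3174)]) (23,[(3,2093),(0,16)]) (23,[(3,920),(0,4),(4,1587)]))) (.node ⟨-37,56,-16⟩ (.leaf false ⟨⟨-37,56,-16⟩,⟨-16,-28,-61⟩,⟨56,29,-28⟩⟩ (1,[(0,1)]) (23,[(5,3174),(4,3450),(1,61)]) (23,[(4,621),(1,28)])) (.leaf false ⟨⟨-61,-4,-32⟩,⟨-4,-67,16⟩,⟨32,-16,-59⟩⟩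 (138,[(5,44229),(0,391),(1,464)]) (552,[(5,40089),(0,805),(1,176)]) (276,[(5,130065),(0,1541),(1,1780)])))) (.node ⟨32,-16,-59⟩ (.leaf false ⟨⟨-61,-4,-32⟩,⟨-4,-67,16⟩,⟨32,-16,-59⟩⟩ (4,[(2,69),(4,276),(0,1)]) (32,[(2,3441),(4,1200),(1,67)]) (1,[(0,1)])) (.leaf false ⟨⟨-46,-46,-23⟩,⟨-46,23,46⟩,⟨23,-46,46⟩⟩ (8,[(2,2898),(0,23),(1,23)]) (16,[(2,621),(0,23)]) (16,[(2,621),(1,23)]))))))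
theorem pc69_ok : pc69.check (ok 69 6 ⟨5, 5, 3⟩) (fun _ r => r) [] = true := by decide +kernel

def ps17 : T := .node ⟨1,0,0⟩ (.node ⟨0,1,0⟩ (.node ⟨0,0,1⟩ (.node ⟨-17,34,34⟩ (.node ⟨34,-17,34⟩ (.node ⟨34,34,-17⟩ (.leaf true ⟨⟨-17,0,0⟩,⟨0,-17,0⟩,⟨0,0,-17⟩⟩ (1,[(2,1)]) (1,[(1,1)]) (1,[(0,1)])) (.leaf true ⟨⟨-17,0,0⟩,⟨0,-15,-8⟩,⟨0,-8,15⟩⟩ (1,[(5,51),(4,102),(0,2)]) (17,[(5,1530),(4,765),(0,22)]) (17,[(5,816),(4,408),(0,31)]))) (.leaf true ⟨⟨-17,0,0⟩,⟨0,-8,-15⟩,⟨0,15,-8⟩⟩ (1,[(2,102),(4,51),(0,2)]) (17,[(2,765),(4,1530),(0,22)]) (17,[(2,408),(4,816),(0,31)]))) (.leaf true ⟨⟨-8,-15,0⟩,⟨0,0,-17⟩,⟨15,-8,0⟩⟩ (17,[(1,1530),(0,22),(2,765)]) (1,[(1,51),(0,2),(2,102)]) (17,[(1,816),(0,31),(2,408)])))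 (.node ⟨22,34,31⟩ (.node ⟨46,-17,-14⟩ (.leaf true ⟨⟨-12,-8,-9⟩,⟨1,12,-12⟩,⟨12,-9,-8⟩⟩ (1,[(1,1)]) (22,[(2,867),(1,1),(3,714)]) (1,[(0,1)])) (.node ⟨-12,1,-12⟩ (.leaf false ⟨⟨-12,1,-12⟩,⟨-8,12,9⟩,⟨9,12,-8⟩⟩ (1,[(0,1)]) (17,[(3,15),(5,416),(1,12)]) (17,[(3,322),(5,21),(2,6)])) (.leaf true ⟨⟨-17,0,0⟩,⟨0,-8,-15⟩,⟨0,15,-8⟩⟩ (158,[(3,15402),(0,1275),(1,391)]) (79,[(3,12855),(0,897),(1,155)]) (79,[(3,12636),(0,594),(1,179)])))) (.leaf true ⟨⟨-8,9,-12⟩,⟨9,-8,-12⟩,⟨12,12,1⟩⟩ (31,[(3,246),(2,1995),(0,14)]) (31,[(3,1827),(2,414),(0,14)]) (31,[(3,600),(2,1164),(0,47)])))) (.node ⟨0,0,1⟩ (.node ⟨22,31,34⟩ (.node ⟨46,-14,-17⟩ (.leaf true ⟨⟨-12,-9,-8⟩,⟨1,-12,12⟩,⟨12,-8,-9⟩⟩ (1,[(1,1)]) (22,[(2,714),(1,1),(3,867)])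 (1,[(0,1)])) (.node ⟨-12,-12,1⟩ (.leaf false ⟨⟨-12,-12,1⟩,⟨-8,9,12⟩,⟨9,-8,12⟩⟩ (1,[(0,1)]) (17,[(5,416),(4,15),(1,12)]) (17,[(2,6),(5,21),(4,322)])) (.leaf true ⟨⟨-17,0,0⟩,⟨0,-15,-8⟩,⟨0,-8,15⟩⟩ (158,[(4,15402),(1,391),(0,1275)]) (79,[(4,12855),(1,155),(0,897)]) (79,[(4,12636),(1,179),(0,594)])))) (.leaf true ⟨⟨-8,-12,9⟩,⟨9,-12,-8⟩,⟨12,1,12⟩⟩ (31,[(1,1995),(3,246),(0,14)]) (31,[(1,414),(3,1827),(0,14)]) (31,[(1,1164),(3,600),(0,47)]))) (.node ⟨-8,-15,0⟩ (.leaf false ⟨⟨-8,-15,0⟩,⟨0,0,-17⟩,⟨15,-8,0⟩⟩ (1,[(0,1)]) (1,[(1,17)]) (15,[(3,289),(0,8)])) (.node ⟨12,-8,9⟩ (.leaf false ⟨⟨1,-12,-12⟩,⟨12,-8,9⟩,⟨12,9,-8⟩⟩ (8,[(2,96),(1,1),(3,111)]) (1,[(0,1)]) (2,[(2,16),(1,3),(3,27)])) (.leaf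 false ⟨⟨-12,-8,-9⟩,⟨1,12,-12⟩,⟨12,-9,-8⟩⟩ (1,[(3,16),(0,1)]) (24,[(1,51),(3,733),(0,32)]) (18,[(1,51),(3,1055),(0,16)])))))) (.node ⟨0,1,0⟩ (.node ⟨0,0,1⟩ (.node ⟨31,22,34⟩ (.node ⟨-14,46,-17⟩ (.leaf true ⟨⟨-12,1,12⟩,⟨-9,-12,-8⟩,⟨-8,12,-9⟩⟩ (22,[(2,714),(4,867),(1,1)]) (1,[(1,1)]) (1,[(0,1)])) (.node ⟨-12,-12,1⟩ (.leaf false ⟨⟨-12,-12,1⟩,⟨-8,9,12⟩,⟨9,-8,12⟩⟩ (1,[(0,1)]) (17,[(5,322),(4,21),(2,6)]) (17,[(5,15),(4,416),(1,12)])) (.leaf true ⟨⟨-17,0,0⟩,⟨0,-15,-8⟩,⟨0,-8,15⟩⟩ (79,[(5,17289),(0,1071),(1,221)]) (158,[(5,8790),(0,1029),(1,265)]) (79,[(5,8124),(0,390),(1,167)])))) (.leaf true ⟨⟨-12,-8,9⟩,⟨-12,9,-8⟩,⟨1,12,12⟩⟩ (31,[(1,1995),(0,14),(2,246)]) (31,[(1,414),(0,14),(2,1827)])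 (31,[(1,1164),(0,47),(2,600)]))) (.node ⟨0,-8,-15⟩ (.leaf false ⟨⟨-17,0,0⟩,⟨0,-8,-15⟩,⟨0,15,-8⟩⟩ (1,[(3,17)]) (1,[(0,1)]) (15,[(0,8),(2,289)])) (.node ⟨9,12,-8⟩ (.leaf false ⟨⟨-12,1,-12⟩,⟨-8,12,9⟩,⟨9,12,-8⟩⟩ (8,[(2,111),(4,96),(1,1)]) (2,[(2,27),(4,16),(1,3)]) (1,[(0,1)])) (.leaf false ⟨⟨-15,-8,0⟩,⟨-8,15,0⟩,⟨0,0,-17⟩⟩ (6,[(2,215),(0,10),(1,9)]) (72,[(2,3977),(0,64),(1,231)]) (1,[(2,17)]))))) (.node ⟨0,0,1⟩ (.node ⟨0,-15,-8⟩ (.leaf false ⟨⟨-17,0,0⟩,⟨0,-15,-8⟩,⟨0,-8,15⟩⟩ (1,[(3,17)]) (1,[(0,1)]) (15,[(1,289),(0,8)])) (.node ⟨9,-8,12⟩ (.leaf false ⟨⟨-12,-12,1⟩,⟨-8,9,12⟩,⟨9,-8,12⟩⟩ (8,[(1,1),(4,96),(3,111)]) (2,[(1,3),(4,16),(3,27)]) (1,[(0,1)])) (.leaf false ⟨⟨-15,0,-8⟩,⟨-8,0,15⟩,⟨0,-17,0⟩⟩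 (6,[(1,9),(0,10),(3,215)]) (72,[(1,231),(0,64),(3,3977)]) (1,[(3,17)])))) (.leaf false ⟨⟨-17,0,0⟩,⟨0,-17,0⟩,⟨0,0,-17⟩⟩ (1,[(2,17)]) (1,[(1,17)]) (1,[(0,17)]))))
theorem ps17_ok : ps17.check (ok 17 6 ⟨5, 5, 5⟩) tr6 [] = true := by decide +kernel

def ps19 : T := .node ⟨1,0,0⟩ (.node ⟨0,1,0⟩ (.node ⟨0,0,1⟩ (.leaf false ⟨⟨0,0,19⟩,⟨0,19,0⟩,⟨19,0,0⟩⟩ (1,[(0,19)]) (1,[(1,19)]) (1,[(2,19)])) (.node ⟨-6,6,-17⟩ (.node ⟨1,18,6⟩ (.leaf false ⟨⟨-6,6,-17⟩,⟨1,18,6⟩,⟨18,1,-6⟩⟩ (1,[(1,1)]) (1,[(0,1)]) (6,[(2,19),(4,114),(1,1)])) (.node ⟨-23,28,-44⟩ (.leaf true ⟨⟨1,18,-6⟩,⟨6,-6,-17⟩,⟨18,1,6⟩⟩ (1,[(0,1)]) (6,[(5,329),(4,402),(1,17)]) (3,[(5,28),(4,147),(1,16)])) (.leaf false ⟨⟨1,18,-6⟩,⟨6,-6,-17⟩,⟨18,1,6⟩⟩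 (47,[(4,2652),(1,91),(0,6)]) (127,[(4,1020),(2,655),(0,204)]) (127,[(4,3763),(2,654),(0,270)])))) (.leaf false ⟨⟨1,18,-6⟩,⟨6,-6,-17⟩,⟨18,1,6⟩⟩ (6,[(1,53),(0,1),(2,114)]) (1,[(1,34),(0,1)]) (1,[(1,45),(0,3),(2,19)])))) (.node ⟨0,0,1⟩ (.node ⟨-6,-17,6⟩ (.node ⟨1,6,18⟩ (.leaf false ⟨⟨-6,-17,6⟩,⟨1,6,18⟩,⟨18,-6,1⟩⟩ (1,[(1,1)]) (1,[(0,1)]) (6,[(4,114),(3,19),(1,1)])) (.node ⟨-23,-44,28⟩ (.leaf true ⟨⟨1,-6,18⟩,⟨6,-17,-6⟩,⟨18,6,1⟩⟩ (1,[(0,1)]) (6,[(3,402),(5,329),(1,17)]) (3,[(3,147),(5,28),(1,16)])) (.leaf false ⟨⟨1,-6,18⟩,⟨6,-17,-6⟩,⟨18,6,1⟩⟩ (47,[(3,2652),(0,6),(1,91)]) (127,[(3,1020),(0,204),(2,655)]) (127,[(3,3763),(0,270),(2,654)])))) (.leaf false ⟨⟨1,-6,18⟩,⟨6,-17,-6⟩,⟨18,6,1⟩⟩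 (6,[(1,114),(0,1),(2,53)]) (1,[(0,1),(2,34)]) (1,[(1,19),(0,3),(2,45)]))) (.node ⟨16,-47,28⟩ (.node ⟨-17,-32,-44⟩ (.node ⟨52,4,-23⟩ (.leaf true ⟨⟨6,-15,10⟩,⟨10,-6,-15⟩,⟨15,10,6⟩⟩ (1,[(2,1)]) (1,[(0,1)]) (1,[(1,1)])) (.leaf false ⟨⟨-18,-6,1⟩,⟨1,-6,-18⟩,⟨6,-17,6⟩⟩ (2,[(3,67),(5,120),(0,3)]) (2,[(3,105),(5,158),(0,3)]) (4,[(3,367),(5,908),(0,17)]))) (.leaf false ⟨⟨6,-15,10⟩,⟨10,-6,-15⟩,⟨15,10,6⟩⟩ (17,[(2,94),(0,6),(3,447)]) (17,[(2,695),(0,10),(3,422)]) (17,[(2,558),(0,15),(3,310)]))) (.leaf true ⟨⟨1,18,-6⟩,⟨6,-6,-17⟩,⟨18,1,6⟩⟩ (7,[(3,15),(2,321),(0,11)]) (28,[(3,1728),(2,351),(0,17)]) (7,[(3,156),(2,705),(0,8)]))))) (.node ⟨0,1,0⟩ (.node ⟨0,0,1⟩ (.node ⟨-17,-6,6⟩ (.node ⟨6,1,18⟩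 (.leaf false ⟨⟨-17,-6,6⟩,⟨-6,18,1⟩,⟨6,1,18⟩⟩ (1,[(1,1)]) (6,[(1,1),(4,19),(3,114)]) (1,[(0,1)])) (.node ⟨-44,-23,28⟩ (.leaf true ⟨⟨-17,6,-6⟩,⟨-6,1,18⟩,⟨6,18,1⟩⟩ (6,[(3,402),(1,17),(4,329)]) (1,[(0,1)]) (3,[(3,147),(1,16),(4,28)])) (.leaf false ⟨⟨-17,6,-6⟩,⟨-6,1,18⟩,⟨6,18,1⟩⟩ (127,[(3,1020),(2,655),(0,204)]) (47,[(3,2652),(1,91),(0,6)]) (127,[(3,3763),(2,654),(0,270)])))) (.leaf false ⟨⟨-17,6,-6⟩,⟨-6,1,18⟩,⟨6,18,1⟩⟩ (1,[(3,34),(0,1)]) (6,[(1,114),(3,53),(0,1)]) (1,[(1,19),(3,45),(0,3)]))) (.node ⟨-47,16,28⟩ (.node ⟨-32,-17,-44⟩ (.node ⟨4,52,-23⟩ (.leaf true ⟨⟨-15,6,10⟩,⟨-6,10,-15⟩,⟨10,15,6⟩⟩ (1,[(2,1)]) (1,[(0,1)]) (1,[(1,1)])) (.leaf false ⟨⟨-17,6,6⟩,⟨-6,-18,1⟩,⟨-6,1,-18⟩⟩ (4,[(3,367),(0,17),(4,908)])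 (2,[(3,67),(0,3),(4,120)]) (2,[(3,105),(0,3),(4,158)]))) (.leaf false ⟨⟨-15,6,10⟩,⟨-6,10,-15⟩,⟨10,15,6⟩⟩ (17,[(2,94),(4,447),(0,6)]) (17,[(2,695),(4,422),(0,10)]) (17,[(2,558),(4,310),(0,15)]))) (.leaf true ⟨⟨-6,6,-17⟩,⟨1,18,6⟩,⟨18,1,-6⟩⟩ (28,[(3,351),(2,1728),(0,17)]) (7,[(3,705),(2,156),(0,8)]) (7,[(3,321),(2,15),(0,11)])))) (.node ⟨0,0,1⟩ (.node ⟨28,-47,16⟩ (.node ⟨-44,-32,-17⟩ (.node ⟨-23,4,52⟩ (.leaf true ⟨⟨-15,-6,10⟩,⟨6,10,15⟩,⟨10,-15,6⟩⟩ (1,[(0,1)]) (1,[(1,1)]) (1,[(2,1)])) (.leaf false ⟨⟨-18,-6,1⟩,⟨1,-6,-18⟩,⟨6,-17,6⟩⟩ (2,[(3,158),(5,105),(0,3)]) (2,[(3,120),(5,67),(0,3)]) (4,[(3,908),(5,367),(0,17)]))) (.leaf false ⟨⟨-15,-6,10⟩,⟨6,10,15⟩,⟨10,-15,6⟩⟩ (17,[(4,695),(3,422),(0,10)])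 (17,[(4,558),(3,310),(0,15)]) (17,[(4,94),(3,447),(0,6)]))) (.leaf true ⟨⟨-17,-6,6⟩,⟨-6,18,1⟩,⟨6,1,18⟩⟩ (28,[(1,1728),(0,17),(2,351)]) (7,[(1,15),(0,11),(2,321)]) (7,[(1,156),(0,8),(2,705)]))) (.node ⟨6,-17,6⟩ (.leaf false ⟨⟨-18,-6,1⟩,⟨1,-6,-18⟩,⟨6,-17,6⟩⟩ (17,[(1,19),(3,342),(0,6)]) (17,[(1,342),(3,19),(0,6)]) (1,[(0,1)])) (.node ⟨-17,6,6⟩ (.leaf false ⟨⟨-17,6,6⟩,⟨-6,-18,1⟩,⟨-6,1,-18⟩⟩ (1,[(0,1)]) (17,[(2,19),(0,6),(3,342)]) (1,[(2,12),(1,1),(3,16)])) (.leaf false ⟨⟨-18,1,-6⟩,⟨1,-18,-6⟩,⟨6,6,-17⟩⟩ (1,[(1,1),(4,12),(3,16)]) (1,[(4,16),(3,12),(0,1)]) (6,[(1,6),(4,115),(0,11)]))))))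
theorem ps19_ok : ps19.check (ok 19 6 ⟨5, 5, 5⟩) tr6 [] = true := by decide +kernel

def ps29 : T := .node ⟨1,0,0⟩ (.node ⟨0,1,0⟩ (.node ⟨0,0,1⟩ (.node ⟨-21,12,16⟩ (.node ⟨58,-29,58⟩ (.node ⟨58,58,-29⟩ (.leaf true ⟨⟨-29,0,0⟩,⟨0,-29,0⟩,⟨0,0,-29⟩⟩ (77,[(1,22),(0,34),(2,261)]) (1,[(1,1)]) (1,[(0,1)])) (.leaf false ⟨⟨-24,-11,12⟩,⟨-3,24,16⟩,⟨16,-12,21⟩⟩ (29,[(4,377),(0,12)]) (29,[(5,841),(4,1624),(0,16)]) (29,[(5,1682),(4,870),(0,21)]))) (.leaf false ⟨⟨-24,12,-11⟩,⟨-3,16,24⟩,⟨16,21,-12⟩⟩ (29,[(2,377),(0,12)]) (29,[(2,1624),(4,841),(0,16)]) (29,[(2,870),(4,1682),(0,21)]))) (.node ⟨16,12,-21⟩ (.leaf false ⟨⟨3,24,16⟩,⟨16,12,-21⟩,⟨24,-11,12⟩⟩ (7,[(2,128),(1,1),(3,180)]) (1,[(0,1)]) (7,[(2,212),(1,8),(3,19)]))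 (.leaf false ⟨⟨-12,-11,24⟩,⟨16,-24,-3⟩,⟨21,12,16⟩⟩ (185,[(1,132),(3,3293),(0,312)]) (185,[(1,288),(3,1332),(0,193)]) (185,[(1,697),(3,18648),(0,672)])))) (.node ⟨22,58,61⟩ (.node ⟨82,-29,-2⟩ (.leaf true ⟨⟨-24,-12,-11⟩,⟨3,16,-24⟩,⟨16,-21,-12⟩⟩ (1,[(1,1)]) (22,[(2,2523),(1,19),(3,174)]) (1,[(0,1)])) (.node ⟨-12,21,16⟩ (.leaf false ⟨⟨-12,21,16⟩,⟨-11,12,-24⟩,⟨24,16,-3⟩⟩ (1,[(0,1)]) (29,[(3,720),(5,665),(1,12)]) (29,[(3,575),(5,520),(2,8)])) (.leaf false ⟨⟨-12,24,-11⟩,⟨16,-3,-24⟩,⟨21,16,12⟩⟩ (29,[(2,6827),(1,5753),(0,26767)]) (87,[(2,17932),(1,15094),(0,70383)]) (174,[(2,12982),(1,10861),(0,50721)])))) (.node ⟨-38,70,-35⟩ (.node ⟨-35,-50,-62⟩ (.leaf true ⟨⟨-12,24,-11⟩,⟨16,-3,-24⟩,⟨21,16,12⟩⟩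 (1,[(1,1)]) (31,[(5,3045),(4,1653),(0,25)]) (1,[(0,1)])) (.leaf false ⟨⟨-12,24,-11⟩,⟨16,-3,-24⟩,⟨21,16,12⟩⟩ (10962,[(1,3697),(2,319),(0,456)]) (21924,[(1,9581),(2,66149),(0,62004)]) (1566,[(1,301),(2,2233),(0,2670)]))) (.leaf false ⟨⟨-3,16,-24⟩,⟨16,21,12⟩,⟨24,-12,-11⟩⟩ (516,[(3,31908),(1,269),(0,115)]) (387,[(3,22095),(1,26),(0,178)]) (774,[(3,86904),(1,629),(0,853)]))))) (.node ⟨0,0,1⟩ (.node ⟨22,61,58⟩ (.node ⟨82,-2,-29⟩ (.leaf true ⟨⟨-24,-11,-12⟩,⟨3,-24,16⟩,⟨16,-12,-21⟩⟩ (1,[(1,1)]) (22,[(2,174),(1,19),(3,2523)]) (1,[(0,1)])) (.node ⟨-12,16,21⟩ (.leaf false ⟨⟨-12,16,21⟩,⟨-11,-24,12⟩,⟨24,-3,16⟩⟩ (1,[(0,1)]) (29,[(5,665),(4,720),(1,12)]) (29,[(2,8),(5,520),(4,575)])) (.leaf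 false ⟨⟨-12,-11,24⟩,⟨16,-24,-3⟩,⟨21,12,16⟩⟩ (29,[(2,6827),(0,26767),(1,5753)]) (87,[(2,17932),(0,70383),(1,15094)]) (174,[(2,12982),(0,50721),(1,10861)])))) (.node ⟨-38,-35,70⟩ (.node ⟨-35,-62,-50⟩ (.leaf true ⟨⟨-12,-11,24⟩,⟨16,-24,-3⟩,⟨21,12,16⟩⟩ (1,[(1,1)]) (31,[(3,1653),(5,3045),(0,25)]) (1,[(0,1)])) (.leaf false ⟨⟨-12,-11,24⟩,⟨16,-24,-3⟩,⟨21,12,16⟩⟩ (10962,[(2,319),(1,3697),(0,456)]) (21924,[(2,66149),(1,9581),(0,62004)]) (1566,[(2,2233),(1,301),(0,2670)]))) (.leaf false ⟨⟨-3,-24,16⟩,⟨16,12,21⟩,⟨24,-11,-12⟩⟩ (516,[(2,31908),(0,115),(1,269)]) (387,[(2,22095),(0,178),(1,26)]) (774,[(2,86904),(0,853),(1,629)])))) (.node ⟨-20,-21,0⟩ (.leaf false ⟨⟨-20,-21,0⟩,⟨0,0,-29⟩,⟨21,-20,0⟩⟩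 (1,[(0,1)]) (1,[(1,29)]) (21,[(3,841),(0,20)])) (.node ⟨16,-3,24⟩ (.leaf false ⟨⟨12,-24,-11⟩,⟨16,-3,24⟩,⟨21,16,-12⟩⟩ (4,[(2,116),(0,3),(3,87)]) (1,[(0,1)]) (20,[(2,240),(1,21),(3,121)])) (.leaf true ⟨⟨12,-11,-24⟩,⟨16,24,-3⟩,⟨21,-12,16⟩⟩ (60,[(1,298),(3,5673),(0,65)]) (120,[(1,176),(3,5181),(0,415)]) (60,[(1,43),(3,6078),(0,5)])))))) (.node ⟨0,1,0⟩ (.node ⟨0,0,1⟩ (.node ⟨61,22,58⟩ (.node ⟨-2,82,-29⟩ (.leaf true ⟨⟨-24,3,16⟩,⟨-12,16,-21⟩,⟨-11,-24,-12⟩⟩ (22,[(2,174),(4,2523),(1,19)]) (1,[(0,1)]) (1,[(1,1)])) (.node ⟨16,-12,21⟩ (.leaf false ⟨⟨-24,-11,12⟩,⟨-3,24,16⟩,⟨16,-12,21⟩⟩ (29,[(5,720),(4,665),(1,12)]) (29,[(5,575),(4,520),(2,8)]) (1,[(0,1)])) (.leaf false ⟨⟨-24,-3,16⟩,⟨-11,24,-12⟩,⟨12,16,21⟩⟩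 (174,[(2,52318),(1,44077),(0,205233)]) (29,[(2,1631),(1,1367),(0,6409)]) (87,[(2,8656),(1,7258),(0,33843)])))) (.node ⟨-35,-38,70⟩ (.node ⟨-62,-35,-50⟩ (.leaf true ⟨⟨-24,16,-3⟩,⟨-11,-12,24⟩,⟨12,21,16⟩⟩ (31,[(3,1653),(0,25),(4,3045)]) (1,[(1,1)]) (1,[(0,1)])) (.leaf false ⟨⟨-24,-3,16⟩,⟨-11,24,-12⟩,⟨12,16,21⟩⟩ (10962,[(1,5503),(2,17371),(0,15954)]) (10962,[(1,2347),(2,30073),(0,28968)]) (21924,[(1,4589),(2,22997),(0,29460)]))) (.leaf false ⟨⟨-24,-3,16⟩,⟨-11,24,-12⟩,⟨12,16,21⟩⟩ (516,[(2,31908),(1,269),(0,115)]) (774,[(2,86904),(1,629),(0,853)]) (387,[(2,22095),(1,26),(0,178)])))) (.node ⟨0,-20,-21⟩ (.leaf false ⟨⟨-29,0,0⟩,⟨0,-20,-21⟩,⟨0,21,-20⟩⟩ (1,[(3,29)]) (1,[(0,1)]) (21,[(0,20),(2,841)]))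 (.node ⟨24,16,-3⟩ (.leaf false ⟨⟨-12,21,16⟩,⟨-11,12,-24⟩,⟨24,16,-3⟩⟩ (20,[(2,121),(4,240),(1,21)]) (4,[(2,87),(4,116),(0,3)]) (1,[(0,1)])) (.leaf true ⟨⟨-24,12,-11⟩,⟨-3,16,24⟩,⟨16,21,-12⟩⟩ (60,[(2,5673),(0,65),(1,298)]) (120,[(2,5181),(0,415),(1,176)]) (60,[(2,6078),(0,5),(1,43)]))))) (.node ⟨0,0,1⟩ (.node ⟨0,-21,-20⟩ (.leaf false ⟨⟨-29,0,0⟩,⟨0,-21,-20⟩,⟨0,-20,21⟩⟩ (1,[(3,29)]) (1,[(0,1)]) (21,[(1,841),(0,20)])) (.node ⟨24,-3,16⟩ (.leaf false ⟨⟨-12,16,21⟩,⟨-11,-24,12⟩,⟨24,-3,16⟩⟩ (20,[(1,21),(4,240),(3,121)]) (4,[(4,116),(3,87),(0,3)]) (1,[(0,1)])) (.leaf true ⟨⟨-24,-11,12⟩,⟨-3,24,16⟩,⟨16,-12,21⟩⟩ (60,[(1,298),(0,65),(3,5673)]) (120,[(1,176),(0,415),(3,5181)]) (60,[(1,43),(0,5),(3,6078)]))))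 (.leaf false ⟨⟨-29,0,0⟩,⟨0,-29,0⟩,⟨0,0,-29⟩⟩ (1,[(2,29)]) (1,[(1,29)]) (1,[(0,29)]))))
theorem ps29_ok : ps29.check (ok 29 6 ⟨5, 5, 5⟩) tr6 [] = true := by decide +kernel

def ps31 : T := .node ⟨1,0,0⟩ (.node ⟨0,1,0⟩ (.node ⟨0,0,1⟩ (.leaf false ⟨⟨0,0,31⟩,⟨0,31,0⟩,⟨31,0,0⟩⟩ (1,[(0,31)]) (1,[(1,31)]) (1,[(2,31)])) (.node ⟨-29,88,-8⟩ (.node ⟨-8,-11,-92⟩ (.leaf true ⟨⟨-21,18,-14⟩,⟨6,-14,-27⟩,⟨22,21,-6⟩⟩ (1,[(1,1)]) (92,[(4,8184),(3,2697),(0,11)]) (1,[(0,1)])) (.node ⟨-14,21,-18⟩ (.leaf false ⟨⟨-14,21,-18⟩,⟨6,22,21⟩,⟨27,6,-14⟩⟩ (1,[(0,1)]) (161,[(3,15593),(1,217),(0,55)]) (7,[(3,62),(5,217),(0,2)])) (.leaf false ⟨⟨6,27,-14⟩,⟨21,-14,-18⟩,⟨22,6,21⟩⟩ (623,[(3,28288),(0,1311),(2,504)])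 (46,[(3,4930),(0,49),(1,35)]) (623,[(3,20529),(0,2110),(2,546)])))) (.leaf true ⟨⟨-6,-14,-27⟩,⟨21,18,-14⟩,⟨22,-21,6⟩⟩ (29,[(1,231),(0,76),(2,8196)]) (29,[(1,2772),(0,13),(2,1260)]) (29,[(1,300),(0,52),(2,2343)])))) (.node ⟨0,0,1⟩ (.node ⟨-29,-8,88⟩ (.node ⟨-8,-92,-11⟩ (.leaf true ⟨⟨-21,-14,18⟩,⟨6,-27,-14⟩,⟨22,-6,21⟩⟩ (1,[(1,1)]) (92,[(2,2697),(4,8184),(0,11)]) (1,[(0,1)])) (.node ⟨-14,-18,21⟩ (.leaf false ⟨⟨-14,-18,21⟩,⟨6,21,22⟩,⟨27,-14,6⟩⟩ (1,[(0,1)]) (161,[(4,15593),(0,55),(1,217)]) (7,[(5,217),(4,62),(0,2)])) (.leaf false ⟨⟨6,-14,27⟩,⟨21,-18,-14⟩,⟨22,21,6⟩⟩ (623,[(4,28288),(2,504),(0,1311)]) (46,[(4,4930),(1,35),(0,49)]) (623,[(4,20529),(2,546),(0,2110)])))) (.leaf true ⟨⟨-6,-27,-14⟩,⟨21,-14,18⟩,⟨22,6,-21⟩⟩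 (29,[(1,8196),(0,76),(2,231)]) (29,[(1,1260),(0,13),(2,2772)]) (29,[(1,2343),(0,52),(2,300)]))) (.node ⟨-6,-30,-5⟩ (.node ⟨-5,6,-30⟩ (.leaf false ⟨⟨-6,-30,-5⟩,⟨-5,6,-30⟩,⟨30,-5,-6⟩⟩ (1,[(1,1)]) (1,[(0,1)]) (5,[(4,155),(3,31),(0,1)])) (.node ⟨28,-11,88⟩ (.leaf true ⟨⟨-14,-27,6⟩,⟨18,-14,-21⟩,⟨21,-6,22⟩⟩ (1,[(0,1)]) (3,[(3,207),(5,244),(1,4)]) (245,[(5,1209),(0,20),(2,744)])) (.leaf false ⟨⟨-21,-18,-14⟩,⟨-6,-14,27⟩,⟨22,-21,-6⟩⟩ (99,[(5,2312),(1,869),(0,312)]) (198,[(5,1361),(1,935),(0,258)]) (33,[(5,2239),(1,319),(0,111)])))) (.leaf true ⟨⟨-6,-27,-14⟩,⟨21,-14,18⟩,⟨22,6,-21⟩⟩ (3,[(1,34),(0,38),(2,1101)]) (6,[(1,41),(0,13),(2,942)]) (3,[(1,361),(0,26),(2,768)]))))) (.node ⟨0,1,0⟩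 (.node ⟨0,0,1⟩ (.node ⟨-8,88,-29⟩ (.node ⟨-92,-11,-8⟩ (.leaf true ⟨⟨-27,-14,6⟩,⟨-14,18,-21⟩,⟨-6,21,22⟩⟩ (92,[(2,8184),(0,11),(3,2697)]) (1,[(1,1)]) (1,[(0,1)])) (.node ⟨-18,21,-14⟩ (.leaf false ⟨⟨-18,21,-14⟩,⟨-14,6,27⟩,⟨21,22,6⟩⟩ (1,[(0,1)]) (7,[(3,217),(5,62),(0,2)]) (161,[(5,15593),(0,55),(1,217)])) (.leaf false ⟨⟨-18,-14,21⟩,⟨-14,27,6⟩,⟨21,6,22⟩⟩ (46,[(5,4930),(1,35),(0,49)]) (623,[(5,28288),(2,504),(0,1311)]) (623,[(5,20529),(2,546),(0,2110)])))) (.leaf true ⟨⟨-27,-14,-6⟩,⟨-14,18,21⟩,⟨6,-21,22⟩⟩ (29,[(3,231),(2,8196),(0,76)]) (29,[(3,2772),(2,1260),(0,13)]) (29,[(3,300),(2,2343),(0,52)]))) (.node ⟨-30,-6,-5⟩ (.node ⟨6,-5,-30⟩ (.leaf false ⟨⟨-30,-6,-5⟩,⟨-5,30,-6⟩,⟨6,-5,-30⟩⟩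 (1,[(1,1)]) (5,[(4,31),(3,155),(0,1)]) (1,[(0,1)])) (.node ⟨-11,28,88⟩ (.leaf true ⟨⟨-27,-14,6⟩,⟨-14,18,-21⟩,⟨-6,21,22⟩⟩ (1,[(0,1)]) (3,[(3,207),(1,4),(4,244)]) (245,[(2,744),(0,20),(4,1209)])) (.leaf false ⟨⟨-30,-5,6⟩,⟨-6,30,-5⟩,⟨-5,-6,-30⟩⟩ (11,[(1,143),(4,574),(0,48)]) (198,[(1,583),(4,8905),(0,210)]) (9,[(1,35),(4,191),(0,15)])))) (.leaf true ⟨⟨-27,-6,-14⟩,⟨-14,21,18⟩,⟨6,22,-21⟩⟩ (3,[(1,34),(3,1101),(0,38)]) (6,[(1,41),(3,942),(0,13)]) (3,[(1,361),(3,768),(0,26)])))) (.node ⟨0,0,1⟩ (.node ⟨-30,-5,-6⟩ (.node ⟨6,-30,-5⟩ (.leaf false ⟨⟨-30,-5,-6⟩,⟨-5,-6,30⟩,⟨6,-30,-5⟩⟩ (1,[(1,1)]) (5,[(2,155),(4,31),(0,1)]) (1,[(0,1)])) (.node ⟨-11,88,28⟩ (.leaf true ⟨⟨-27,6,-14⟩,⟨-14,-21,18⟩,⟨-6,22,21⟩⟩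 (1,[(0,1)]) (3,[(3,244),(1,4),(4,207)]) (245,[(3,1209),(0,20),(2,744)])) (.leaf false ⟨⟨-30,6,-5⟩,⟨-6,-5,30⟩,⟨-5,-30,-6⟩⟩ (11,[(3,574),(1,143),(0,48)]) (198,[(3,8905),(1,583),(0,210)]) (9,[(3,191),(1,35),(0,15)])))) (.leaf true ⟨⟨-27,-14,-6⟩,⟨-14,18,21⟩,⟨6,-21,22⟩⟩ (3,[(3,1101),(2,34),(0,38)]) (6,[(3,942),(2,41),(0,13)]) (3,[(3,768),(2,361),(0,26)]))) (.node ⟨-77,-44,28⟩ (.node ⟨-44,28,-77⟩ (.node ⟨28,-77,-44⟩ (.leaf true ⟨⟨-5,6,30⟩,⟨6,30,-5⟩,⟨30,-5,6⟩⟩ (1,[(2,1)]) (1,[(1,1)]) (1,[(0,1)])) (.leaf false ⟨⟨-21,-6,22⟩,⟨-18,-14,-21⟩,⟨-14,27,-6⟩⟩ (4,[(3,44),(0,3),(4,255)]) (14,[(3,690),(0,9),(4,889)]) (2,[(3,56),(0,1),(4,23)]))) (.leaf false ⟨⟨-21,-18,-14⟩,⟨-6,-14,27⟩,⟨22,-21,-6⟩⟩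 (14,[(2,889),(4,690),(0,9)]) (2,[(2,23),(4,56),(0,1)]) (4,[(2,255),(4,44),(0,3)]))) (.leaf false ⟨⟨-14,-21,-18⟩,⟨-6,22,-21⟩,⟨27,-6,-14⟩⟩ (14,[(3,889),(2,690),(0,9)]) (4,[(3,255),(2,44),(0,3)]) (2,[(3,23),(2,56),(0,1)])))))
theorem ps31_ok : ps31.check (ok 31 6 ⟨5, 5, 5⟩) tr6 [] = true := by decide +kernel

def ps35 : T := .node ⟨1,0,0⟩ (.node ⟨0,1,0⟩ (.node ⟨0,0,1⟩ (.node ⟨40,-80,55⟩ (.node ⟨-35,70,70⟩ (.node ⟨70,70,-35⟩ (.leaf true ⟨⟨-35,0,0⟩,⟨0,-35,0⟩,⟨0,0,-35⟩⟩ (1,[(1,1)]) (6,[(2,7),(0,3),(1,2)]) (1,[(0,1)])) (.leaf false ⟨⟨-30,10,15⟩,⟨10,-15,30⟩,⟨15,30,10⟩⟩ (7,[(4,280),(0,3)]) (7,[(5,490),(4,315),(0,6)]) (7,[(5,245),(4,350),(0,2)]))) (.leaf false ⟨⟨10,15,30⟩,⟨15,-30,10⟩,⟨30,10,-15⟩⟩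 (7,[(2,350),(0,2),(3,245)]) (7,[(2,280),(0,3)]) (7,[(2,315),(0,6),(3,490)]))) (.node ⟨40,55,-80⟩ (.leaf true ⟨⟨-33,10,-6⟩,⟨-6,-30,-17⟩,⟨10,15,-30⟩⟩ (10,[(2,1005),(4,30),(1,11)]) (5,[(2,330),(4,480),(1,1)]) (1,[(0,1)])) (.leaf false ⟨⟨-30,10,15⟩,⟨10,-15,30⟩,⟨15,30,10⟩⟩ (27,[(4,270),(1,13),(0,14)]) (15,[(4,510),(1,2),(0,7)]) (135,[(4,10665),(1,118),(0,98)])))) (.node ⟨-21,28,0⟩ (.leaf false ⟨⟨-21,28,0⟩,⟨0,0,-35⟩,⟨28,21,0⟩⟩ (1,[(0,1)]) (1,[(1,35)]) (4,[(3,175),(0,3)])) (.leaf false ⟨⟨0,0,-35⟩,⟨21,28,0⟩,⟨28,-21,0⟩⟩ (1,[(1,35)]) (1,[(0,1),(2,56)]) (3,[(0,4),(2,49)])))) (.node ⟨0,0,1⟩ (.node ⟨-21,0,28⟩ (.leaf false ⟨⟨-21,0,28⟩,⟨0,-35,0⟩,⟨28,0,21⟩⟩ (1,[(0,1)]) (1,[(2,35)]) (4,[(3,175),(0,3)]))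 (.leaf false ⟨⟨0,-35,0⟩,⟨21,0,28⟩,⟨28,0,-21⟩⟩ (1,[(2,35)]) (1,[(1,56),(0,1)]) (3,[(1,49),(0,4)]))) (.node ⟨70,-35,70⟩ (.node ⟨-35,-98,-14⟩ (.leaf true ⟨⟨0,-35,0⟩,⟨21,0,28⟩,⟨28,0,-21⟩⟩ (1,[(1,1)]) (1,[(0,1)]) (5,[(2,525),(4,210),(1,2)])) (.leaf false ⟨⟨0,0,-35⟩,⟨21,28,0⟩,⟨28,-21,0⟩⟩ (1,[(2,35)]) (5,[(2,42),(0,3),(3,154)]) (5,[(2,140),(1,2),(3,35)]))) (.node ⟨64,52,-65⟩ (.leaf true ⟨⟨10,6,-33⟩,⟨15,30,10⟩,⟨30,-17,6⟩⟩ (1,[(0,1)]) (7,[(4,105),(3,420),(1,8)]) (7,[(4,504),(3,693),(1,2)])) (.leaf false ⟨⟨-30,-17,-6⟩,⟨10,-6,-33⟩,⟨15,-30,10⟩⟩ (1365,[(4,147840),(0,1400),(1,1417)]) (455,[(4,87290),(0,525),(1,702)]) (273,[(4,46515),(0,350),(1,286)])))))) (.node ⟨0,1,0⟩ (.node ⟨0,0,1⟩ (.node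 ⟨0,-21,28⟩ (.leaf false ⟨⟨-35,0,0⟩,⟨0,-21,28⟩,⟨0,28,21⟩⟩ (1,[(3,35)]) (1,[(0,1)]) (4,[(0,3),(2,175)])) (.leaf false ⟨⟨-35,0,0⟩,⟨0,21,28⟩,⟨0,28,-21⟩⟩ (1,[(3,35)]) (1,[(1,56),(0,1)]) (3,[(1,49),(0,4)]))) (.node ⟨-35,70,70⟩ (.node ⟨-98,-35,-14⟩ (.leaf true ⟨⟨-35,0,0⟩,⟨0,21,28⟩,⟨0,28,-21⟩⟩ (1,[(1,1)]) (1,[(0,1)]) (7,[(2,525),(0,1),(3,525)])) (.leaf false ⟨⟨-30,10,-15⟩,⟨1,30,18⟩,⟨18,15,-26⟩⟩ (7,[(2,175),(4,175),(1,1)]) (7,[(4,350),(1,1),(0,4)]) (7,[(2,224),(4,168),(0,3)]))) (.node ⟨52,64,-65⟩ (.leaf true ⟨⟨-17,30,6⟩,⟨6,10,-33⟩,⟨30,15,10⟩⟩ (7,[(4,693),(3,504),(1,2)]) (1,[(0,1)]) (7,[(4,420),(3,105),(1,8)])) (.leaf false ⟨⟨-33,10,-6⟩,⟨-6,-30,-17⟩,⟨10,15,-30⟩⟩ (65,[(3,16520),(1,117),(0,120)])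 (195,[(3,16170),(1,182),(0,145)]) (39,[(3,3045),(1,26),(0,10)]))))) (.node ⟨0,0,1⟩ (.node ⟨-35,70,70⟩ (.node ⟨-98,-14,-35⟩ (.leaf true ⟨⟨-35,0,0⟩,⟨0,-21,28⟩,⟨0,28,21⟩⟩ (1,[(1,1)]) (5,[(2,210),(1,2),(3,525)]) (1,[(0,1)])) (.leaf false ⟨⟨-30,-15,10⟩,⟨1,18,30⟩,⟨18,-26,15⟩⟩ (7,[(1,1),(4,175),(3,175)]) (7,[(1,1),(4,350),(0,4)]) (7,[(4,168),(3,224),(0,3)]))) (.node ⟨52,-65,64⟩ (.leaf true ⟨⟨-17,6,30⟩,⟨6,-33,10⟩,⟨30,10,15⟩⟩ (7,[(2,504),(4,693),(1,2)]) (1,[(0,1)]) (7,[(2,105),(4,420),(1,8)])) (.leaf false ⟨⟨-33,-6,10⟩,⟨-6,-17,-30⟩,⟨10,-30,15⟩⟩ (65,[(2,16520),(0,120),(1,117)]) (195,[(2,16170),(0,145),(1,182)]) (39,[(2,3045),(0,10),(1,26)])))) (.leaf false ⟨⟨-35,0,0⟩,⟨0,-35,0⟩,⟨0,0,-35⟩⟩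 (1,[(2,35)]) (1,[(1,35)]) (1,[(0,35)]))))
theorem ps35_ok : ps35.check (ok 35 6 ⟨5, 5, 5⟩) tr6 [] = true := by decide +kernel

def ps37 : T := .node ⟨1,0,0⟩ (.node ⟨0,1,0⟩ (.node ⟨0,0,1⟩ (.leaf false ⟨⟨0,0,37⟩,⟨0,37,0⟩,⟨37,0,0⟩⟩ (1,[(0,37)]) (1,[(1,37)]) (1,[(2,37)])) (.node ⟨-62,91,-14⟩ (.node ⟨-14,-26,-107⟩ (.leaf true ⟨⟨-24,27,-8⟩,⟨3,-8,-36⟩,⟨28,24,-3⟩⟩ (1,[(1,1)]) (107,[(4,10101),(3,6882),(0,26)]) (1,[(0,1)])) (.leaf false ⟨⟨-8,24,-27⟩,⟨3,28,24⟩,⟨36,3,-8⟩⟩ (91,[(2,2121),(4,760),(1,24)]) (2886,[(2,141303),(0,2009),(1,314)]) (26,[(2,529),(4,894),(0,3)]))) (.node ⟨28,3,24⟩ (.leaf false ⟨⟨3,36,-8⟩,⟨24,-8,-27⟩,⟨28,3,24⟩⟩ (28,[(2,296),(0,3),(3,999)]) (31,[(2,1005),(1,12),(3,844)])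 (1,[(0,1)])) (.leaf false ⟨⟨-24,-8,-27⟩,⟨-3,36,-8⟩,⟨28,-3,-24⟩⟩ (548,[(1,90),(3,5813),(0,669)]) (548,[(1,76),(3,27325),(0,227)]) (137,[(1,168),(3,15582),(0,235)]))))) (.node ⟨0,0,1⟩ (.node ⟨-62,-14,91⟩ (.node ⟨-14,-107,-26⟩ (.leaf true ⟨⟨-24,-8,27⟩,⟨3,-36,-8⟩,⟨28,-3,24⟩⟩ (1,[(1,1)]) (107,[(2,6882),(4,10101),(0,26)]) (1,[(0,1)])) (.leaf false ⟨⟨-8,-27,24⟩,⟨3,24,28⟩,⟨36,-8,3⟩⟩ (91,[(4,760),(3,2121),(1,24)]) (10101,[(4,141303),(1,2372),(0,2576)]) (26,[(4,894),(3,529),(0,3)]))) (.node ⟨28,24,3⟩ (.leaf false ⟨⟨3,-8,36⟩,⟨24,-27,-8⟩,⟨28,24,3⟩⟩ (28,[(2,999),(0,3),(3,296)]) (31,[(2,844),(1,12),(3,1005)]) (1,[(0,1)])) (.leaf false ⟨⟨-24,-27,-8⟩,⟨-3,-8,36⟩,⟨28,-24,-3⟩⟩ (548,[(2,5813),(1,90),(0,669)])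 (548,[(2,27325),(1,76),(0,227)]) (137,[(2,15582),(1,168),(0,235)])))) (.node ⟨0,12,-35⟩ (.leaf false ⟨⟨0,-35,-12⟩,⟨0,12,-35⟩,⟨37,0,0⟩⟩ (35,[(0,12),(2,1369)]) (1,[(0,1)]) (1,[(3,37)])) (.leaf false ⟨⟨0,-35,12⟩,⟨0,-12,-35⟩,⟨37,0,0⟩⟩ (12,[(1,1081),(0,35)]) (1,[(1,70),(0,1)]) (1,[(3,37)]))))) (.node ⟨0,1,0⟩ (.node ⟨0,0,1⟩ (.node ⟨-14,91,-62⟩ (.node ⟨-107,-26,-14⟩ (.leaf true ⟨⟨-36,-8,3⟩,⟨-8,27,-24⟩,⟨-3,24,28⟩⟩ (107,[(2,10101),(0,26),(3,6882)]) (1,[(1,1)]) (1,[(0,1)])) (.leaf false ⟨⟨-27,24,-8⟩,⟨-8,3,36⟩,⟨24,28,3⟩⟩ (91,[(2,760),(4,2121),(1,24)]) (26,[(2,894),(4,529),(0,3)]) (10101,[(2,141303),(1,2372),(0,2576)]))) (.node ⟨24,3,28⟩ (.leaf false ⟨⟨-27,-8,24⟩,⟨-8,36,3⟩,⟨24,3,28⟩⟩ (31,[(4,1005),(3,844),(1,12)])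 (28,[(4,296),(3,999),(0,3)]) (1,[(0,1)])) (.leaf false ⟨⟨-36,-8,-3⟩,⟨-8,27,24⟩,⟨3,-24,28⟩⟩ (548,[(3,41489),(1,468),(0,1095)]) (137,[(3,13111),(1,100),(0,104)]) (548,[(3,13911),(1,294),(0,103)])))) (.node ⟨12,0,-35⟩ (.leaf false ⟨⟨-35,0,-12⟩,⟨0,37,0⟩,⟨12,0,-35⟩⟩ (35,[(3,1369),(0,12)]) (1,[(2,37)]) (1,[(0,1)])) (.leaf false ⟨⟨-35,0,12⟩,⟨-12,0,-35⟩,⟨0,37,0⟩⟩ (12,[(1,1081),(0,35)]) (1,[(1,70),(0,1)]) (1,[(2,37)])))) (.node ⟨0,0,1⟩ (.node ⟨12,-35,0⟩ (.leaf false ⟨⟨-35,-12,0⟩,⟨0,0,37⟩,⟨12,-35,0⟩⟩ (35,[(3,1369),(0,12)]) (1,[(1,37)]) (1,[(0,1)])) (.leaf false ⟨⟨-35,12,0⟩,⟨-12,-35,0⟩,⟨0,0,37⟩⟩ (12,[(0,35),(2,1081)]) (1,[(0,1),(2,70)]) (1,[(1,37)]))) (.node ⟨-110,-11,10⟩ (.node ⟨-11,10,-110⟩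 (.node ⟨10,-110,-11⟩ (.leaf true ⟨⟨-12,21,28⟩,⟨21,28,-12⟩,⟨28,-12,21⟩⟩ (1,[(2,1)]) (1,[(1,1)]) (1,[(0,1)])) (.leaf true ⟨⟨-27,24,-8⟩,⟨-8,3,36⟩,⟨24,28,3⟩⟩ (10,[(3,669),(0,59),(4,5550)]) (5,[(3,243),(0,43),(4,4995)]) (5,[(3,714),(0,19),(4,2220)]))) (.leaf true ⟨⟨-21,-12,28⟩,⟨12,28,21⟩,⟨28,-21,12⟩⟩ (5,[(2,960),(4,408),(0,13)]) (5,[(2,2385),(4,639),(0,19)]) (10,[(2,11130),(4,651),(0,101)]))) (.leaf true ⟨⟨3,36,-8⟩,⟨24,-8,-27⟩,⟨28,3,24⟩⟩ (5,[(3,4995),(2,243),(0,43)]) (10,[(3,5550),(2,669),(0,59)]) (5,[(3,2220),(2,714),(0,19)])))))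
theorem ps37_ok : ps37.check (ok 37 6 ⟨5, 5, 5⟩) tr6 [] = true := by decide +kernel

def ps47 : T := .node ⟨1,0,0⟩ (.node ⟨0,1,0⟩ (.node ⟨0,0,1⟩ (.node ⟨-47,94,94⟩ (.node ⟨94,-47,94⟩ (.node ⟨94,94,-47⟩ (.leaf true ⟨⟨-47,0,0⟩,⟨0,-47,0⟩,⟨0,0,-47⟩⟩ (1,[(2,1)]) (1,[(1,1)]) (1,[(0,1)])) (.leaf false ⟨⟨-38,-6,27⟩,⟨6,43,18⟩,⟨27,-18,34⟩⟩ (47,[(5,752),(4,2256),(0,27)]) (47,[(5,1974),(4,3713),(0,18)]) (47,[(5,4465),(4,2350),(0,34)]))) (.leaf false ⟨⟨-38,27,-6⟩,⟨6,18,43⟩,⟨27,34,-18⟩⟩ (47,[(2,2256),(4,752),(0,27)]) (47,[(2,3713),(4,1974),(0,18)]) (47,[(2,2350),(4,4465),(0,34)]))) (.leaf false ⟨⟨18,6,43⟩,⟨27,-38,-6⟩,⟨34,27,-18⟩⟩ (47,[(1,3713),(0,18),(2,1974)]) (47,[(1,2256),(0,27),(2,752)])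 (47,[(1,2350),(0,34),(2,4465)]))) (.node ⟨34,18,27⟩ (.node ⟨-18,43,-6⟩ (.leaf false ⟨⟨-18,43,-6⟩,⟨27,6,-38⟩,⟨34,18,27⟩⟩ (1,[(0,1)]) (3,[(2,141),(4,47),(1,1)]) (1,[(1,1)])) (.leaf true ⟨⟨-6,-27,-38⟩,⟨18,34,-27⟩,⟨43,-18,6⟩⟩ (9,[(2,120),(0,62),(3,3215)]) (9,[(2,1191),(0,2),(3,554)]) (18,[(2,1194),(0,67),(3,793)]))) (.leaf false ⟨⟨-27,6,-38⟩,⟨18,43,-6⟩,⟨34,-18,-27⟩⟩ (27,[(3,563),(2,846),(0,38)]) (9,[(3,230),(2,423),(0,2)]) (1,[(3,68),(0,1)])))) (.node ⟨0,0,1⟩ (.node ⟨34,27,18⟩ (.node ⟨-18,-6,43⟩ (.leaf false ⟨⟨-18,-6,43⟩,⟨27,-38,6⟩,⟨34,27,18⟩⟩ (1,[(0,1)]) (3,[(1,1),(4,47),(3,141)]) (1,[(1,1)])) (.leaf true ⟨⟨-6,-38,-27⟩,⟨18,-27,34⟩,⟨43,6,-18⟩⟩ (9,[(2,3215),(0,62),(3,120)]) (9,[(2,554),(0,2),(3,1191)])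 (18,[(2,793),(0,67),(3,1194)]))) (.leaf false ⟨⟨-27,-38,6⟩,⟨18,-6,43⟩,⟨34,-27,-18⟩⟩ (27,[(1,846),(3,563),(0,38)]) (9,[(1,423),(3,230),(0,2)]) (1,[(3,68),(0,1)]))) (.node ⟨-21,-38,-18⟩ (.node ⟨21,-38,18⟩ (.node ⟨42,18,-11⟩ (.leaf false ⟨⟨-2,-21,-42⟩,⟨21,-38,18⟩,⟨42,18,-11⟩⟩ (38,[(3,1218),(5,365),(2,21)]) (1,[(1,1)]) (1,[(0,1)])) (.leaf false ⟨⟨-21,-18,-38⟩,⟨-2,-42,21⟩,⟨42,-11,-18⟩⟩ (1,[(3,49),(5,21),(0,1)]) (3,[(3,14),(5,288),(0,7)]) (18,[(3,445),(5,1218),(0,11)]))) (.leaf false ⟨⟨-21,-38,-18⟩,⟨-2,21,-42⟩,⟨42,-18,-11⟩⟩ (1,[(3,76),(0,1)]) (3,[(4,141),(3,203),(0,7)]) (18,[(4,987),(3,742),(0,11)]))) (.leaf true ⟨⟨-2,-42,-21⟩,⟨21,18,-38⟩,⟨42,-11,18⟩⟩ (21,[(1,825),(0,124),(2,4628)])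 (21,[(1,3534),(0,61),(2,1226)]) (3,[(1,204),(0,4),(2,545)]))))) (.node ⟨0,1,0⟩ (.node ⟨0,0,1⟩ (.node ⟨27,18,34⟩ (.node ⟨-6,43,-18⟩ (.leaf false ⟨⟨-38,6,27⟩,⟨-6,43,-18⟩,⟨27,18,34⟩⟩ (3,[(2,47),(4,141),(1,1)]) (1,[(0,1)]) (1,[(1,1)])) (.leaf true ⟨⟨-38,-27,-6⟩,⟨-27,34,18⟩,⟨6,-18,43⟩⟩ (9,[(4,120),(3,3215),(0,62)]) (9,[(4,1191),(3,554),(0,2)]) (18,[(4,1194),(3,793),(0,67)]))) (.leaf false ⟨⟨-38,6,-27⟩,⟨-27,-18,34⟩,⟨-6,43,18⟩⟩ (27,[(1,563),(0,38),(2,846)]) (1,[(1,68),(0,1)]) (9,[(1,230),(0,2),(2,423)]))) (.node ⟨-42,-2,21⟩ (.node ⟨-18,-21,-38⟩ (.leaf false ⟨⟨-42,-2,21⟩,⟨-18,-21,-38⟩,⟨-11,42,-18⟩⟩ (1,[(1,1)]) (1,[(0,1)]) (42,[(2,987),(1,11),(3,1786)])) (.leaf false ⟨⟨-42,-2,-21⟩,⟨-11,42,18⟩,⟨18,21,-38⟩⟩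 (1,[(2,42),(1,1)]) (18,[(2,1561),(1,21),(0,38)]) (1,[(2,76),(0,1)]))) (.node ⟨61,124,28⟩ (.leaf true ⟨⟨-38,18,-21⟩,⟨18,-11,-42⟩,⟨21,42,-2⟩⟩ (31,[(2,363),(4,3066),(0,34)]) (4,[(4,69),(0,1),(1,12)]) (1,[(2,86),(4,143),(1,2)])) (.leaf false ⟨⟨-42,-11,-18⟩,⟨-2,42,-21⟩,⟨21,-18,-38⟩⟩ (14,[(4,39),(3,962),(0,9)]) (1,[(4,44),(3,40),(1,1)]) (1330,[(4,46591),(1,2104),(0,227)]))))) (.node ⟨0,0,1⟩ (.node ⟨-42,21,-2⟩ (.node ⟨-18,-38,-21⟩ (.leaf false ⟨⟨-42,21,-2⟩,⟨-18,-38,-21⟩,⟨-11,-18,42⟩⟩ (1,[(1,1)]) (1,[(0,1)]) (42,[(2,1786),(1,11),(3,987)])) (.leaf false ⟨⟨-42,-21,-2⟩,⟨-11,18,42⟩,⟨18,-38,21⟩⟩ (1,[(1,1),(3,42)]) (18,[(1,21),(3,1561),(0,38)]) (1,[(3,76),(0,1)]))) (.node ⟨61,28,124⟩ (.leaf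 true ⟨⟨-38,-21,18⟩,⟨18,-42,-11⟩,⟨21,-2,42⟩⟩ (31,[(4,3066),(3,363),(0,34)]) (4,[(4,69),(1,12),(0,1)]) (1,[(4,143),(3,86),(1,2)])) (.leaf false ⟨⟨-42,-18,-11⟩,⟨-2,-21,42⟩,⟨21,-38,-18⟩⟩ (14,[(2,962),(4,39),(0,9)]) (1,[(2,40),(4,44),(1,1)]) (1330,[(4,46591),(0,227),(1,2104)])))) (.leaf false ⟨⟨-47,0,0⟩,⟨0,-47,0⟩,⟨0,0,-47⟩⟩ (1,[(2,47)]) (1,[(1,47)]) (1,[(0,47)]))))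
theorem ps47_ok : ps47.check (ok 47 6 ⟨5, 5, 5⟩) tr6 [] = true := by decide +kernel

def ps53 : T := .node ⟨1,0,0⟩ (.node ⟨0,1,0⟩ (.node ⟨0,0,1⟩ (.node ⟨70,-110,91⟩ (.node ⟨-53,106,106⟩ (.node ⟨106,106,-53⟩ (.leaf true ⟨⟨-53,0,0⟩,⟨0,-53,0⟩,⟨0,0,-53⟩⟩ (1,[(1,1)]) (48,[(2,53),(0,19),(1,12)]) (1,[(0,1)])) (.leaf false ⟨⟨-44,-12,27⟩,⟨12,37,36⟩,⟨27,-36,28⟩⟩ (53,[(5,530),(4,2226),(0,27)]) (53,[(5,4452),(4,5777),(0,36)]) (53,[(5,4399),(4,1060),(0,28)]))) (.leaf false ⟨⟨27,-44,-12⟩,⟨28,27,-36⟩,⟨36,12,37⟩⟩ (53,[(2,2226),(0,27),(3,530)]) (53,[(2,1060),(0,28),(3,4399)]) (53,[(2,5777),(0,36),(3,4452)]))) (.node ⟨70,91,-110⟩ (.leaf true ⟨⟨-51,12,-8⟩,⟨-8,-48,-21⟩,⟨12,19,-48⟩⟩ (11,[(2,1953),(4,261),(1,13)])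 (11,[(2,1092),(4,1500),(1,1)]) (1,[(0,1)])) (.leaf true ⟨⟨-53,0,0⟩,⟨0,-53,0⟩,⟨0,0,-53⟩⟩ (19,[(4,13833),(1,106),(0,106)]) (1273,[(4,383508),(1,1272),(0,2279)]) (1273,[(4,383508),(1,2279),(0,1272)])))) (.node ⟨-38,154,-11⟩ (.node ⟨154,-38,-11⟩ (.node ⟨-11,-14,-158⟩ (.leaf true ⟨⟨-36,28,-27⟩,⟨12,-27,-44⟩,⟨37,36,-12⟩⟩ (1,[(2,1)]) (79,[(5,12243),(4,3021),(0,7)]) (1,[(0,1)])) (.node ⟨-8,21,-48⟩ (.leaf false ⟨⟨-8,21,-48⟩,⟨12,48,19⟩,⟨51,-8,-12⟩⟩ (1,[(0,1)]) (343,[(4,76691),(1,636),(0,360)]) (1287,[(4,66807),(2,401),(1,353)])) (.leaf false ⟨⟨-8,51,-12⟩,⟨21,-8,-48⟩,⟨48,12,19⟩⟩ (217,[(4,18228),(0,353),(3,120)]) (434,[(4,157325),(0,2930),(3,377)]) (217,[(4,178157),(0,3924),(3,552)])))) (.leaf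 false ⟨⟨-45,28,0⟩,⟨0,0,-53⟩,⟨28,45,0⟩⟩ (19,[(2,154),(4,1301),(0,14)]) (1,[(2,53)]) (38,[(2,495),(4,7994),(0,45)]))) (.leaf false ⟨⟨0,0,-53⟩,⟨28,-45,0⟩,⟨45,28,0⟩⟩ (1,[(1,53)]) (19,[(1,154),(0,14),(2,1301)]) (38,[(1,495),(0,45),(2,7994)])))) (.node ⟨0,0,1⟩ (.node ⟨-38,-11,154⟩ (.node ⟨154,-11,-38⟩ (.node ⟨-14,-158,-11⟩ (.leaf true ⟨⟨-27,-44,12⟩,⟨28,-27,-36⟩,⟨36,-12,37⟩⟩ (79,[(3,12243),(5,3021),(0,7)]) (1,[(1,1)]) (1,[(0,1)])) (.node ⟨21,-48,-8⟩ (.leaf false ⟨⟨-8,-12,51⟩,⟨21,-48,-8⟩,⟨48,19,12⟩⟩ (1287,[(5,66807),(3,401),(1,353)]) (1,[(0,1)]) (343,[(0,360),(5,76691),(1,636)])) (.leaf false ⟨⟨-48,-12,19⟩,⟨-8,51,12⟩,⟨21,-8,48⟩⟩ (434,[(2,15),(5,57939),(0,1102)]) (217,[(2,94),(5,24955),(0,772)])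 (31,[(2,84),(5,27404),(0,585)])))) (.leaf false ⟨⟨-45,0,28⟩,⟨0,-53,0⟩,⟨28,0,45⟩⟩ (19,[(4,1301),(3,154),(0,14)]) (1,[(3,53)]) (38,[(4,7994),(3,495),(0,45)]))) (.leaf false ⟨⟨0,-53,0⟩,⟨28,0,-45⟩,⟨45,0,28⟩⟩ (1,[(2,53)]) (19,[(1,1301),(0,14),(2,154)]) (38,[(1,7994),(0,45),(2,495)]))) (.node ⟨45,0,28⟩ (.leaf false ⟨⟨0,-53,0⟩,⟨28,0,-45⟩,⟨45,0,28⟩⟩ (1,[(2,53)]) (45,[(1,2809),(0,28)]) (1,[(0,1)])) (.node ⟨46,91,-122⟩ (.leaf true ⟨⟨12,27,-44⟩,⟨36,28,27⟩,⟨37,-36,-12⟩⟩ (1,[(0,1)]) (28,[(4,2473),(3,2744),(1,101)]) (2,[(4,311),(3,172),(1,1)])) (.leaf false ⟨⟨-48,-21,-8⟩,⟨12,-8,-51⟩,⟨19,-48,12⟩⟩ (182,[(4,3771),(0,42),(1,235)]) (2548,[(4,293645),(0,224),(1,5617)]) (637,[(4,81154),(0,336),(1,1191)]))))))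 (.node ⟨0,1,0⟩ (.node ⟨0,0,1⟩ (.node ⟨-11,154,-38⟩ (.node ⟨-11,-38,154⟩ (.node ⟨-158,-14,-11⟩ (.leaf true ⟨⟨-44,-27,12⟩,⟨-27,28,-36⟩,⟨-12,36,37⟩⟩ (79,[(3,12243),(0,7),(4,3021)]) (1,[(2,1)]) (1,[(0,1)])) (.node ⟨-48,21,-8⟩ (.leaf false ⟨⟨-48,21,-8⟩,⟨-12,-8,51⟩,⟨19,48,12⟩⟩ (1,[(0,1)]) (1287,[(2,401),(6,66807),(1,353)]) (343,[(6,76691),(0,360),(1,636)])) (.leaf false ⟨⟨-53,0,0⟩,⟨0,-45,28⟩,⟨0,28,45⟩⟩ (1,[(6,53)]) (217,[(6,61194),(3,114),(0,1301)]) (62,[(6,52979),(3,167),(0,1142)])))) (.leaf false ⟨⟨-53,0,0⟩,⟨0,28,-45⟩,⟨0,45,28⟩⟩ (1,[(4,53)]) (19,[(2,1301),(4,154),(0,14)]) (38,[(2,7994),(4,495),(0,45)]))) (.leaf false ⟨⟨-53,0,0⟩,⟨0,-45,28⟩,⟨0,28,45⟩⟩ (1,[(3,53)]) (19,[(3,154),(2,1301),(0,14)])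 (38,[(3,495),(2,7994),(0,45)]))) (.node ⟨0,45,28⟩ (.leaf false ⟨⟨-53,0,0⟩,⟨0,28,-45⟩,⟨0,45,28⟩⟩ (1,[(3,53)]) (45,[(1,2809),(0,28)]) (1,[(0,1)])) (.node ⟨91,46,-122⟩ (.leaf true ⟨⟨-36,37,-12⟩,⟨27,12,-44⟩,⟨28,36,27⟩⟩ (2,[(1,1),(4,172),(3,311)]) (1,[(0,1)]) (28,[(1,101),(4,2744),(3,2473)])) (.leaf false ⟨⟨-48,19,12⟩,⟨-21,-48,-8⟩,⟨-8,12,-51⟩⟩ (637,[(1,1191),(0,336),(3,81154)]) (182,[(1,235),(0,42),(3,3771)]) (2548,[(1,5617),(0,224),(3,293645)]))))) (.node ⟨0,0,1⟩ (.node ⟨0,28,45⟩ (.leaf false ⟨⟨-53,0,0⟩,⟨0,-45,28⟩,⟨0,28,45⟩⟩ (1,[(3,53)]) (45,[(0,28),(2,2809)]) (1,[(0,1)])) (.node ⟨91,-122,46⟩ (.leaf true ⟨⟨-36,-12,37⟩,⟨27,-44,12⟩,⟨28,27,36⟩⟩ (2,[(2,311),(4,172),(1,1)]) (1,[(0,1)])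 (28,[(2,2473),(4,2744),(1,101)])) (.leaf false ⟨⟨-48,12,19⟩,⟨-21,-8,-48⟩,⟨-8,-51,12⟩⟩ (637,[(2,81154),(0,336),(1,1191)]) (182,[(2,3771),(0,42),(1,235)]) (2548,[(2,293645),(0,224),(1,5617)])))) (.leaf false ⟨⟨-53,0,0⟩,⟨0,-53,0⟩,⟨0,0,-53⟩⟩ (1,[(2,53)]) (1,[(1,53)]) (1,[(0,53)]))))
theorem ps53_ok : ps53.check (ok 53 6 ⟨5, 5, 5⟩) tr6 [] = true := by decide +kernel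

def ps67 : T := .node ⟨1,0,0⟩ (.node ⟨0,1,0⟩ (.node ⟨0,0,1⟩ (.leaf false ⟨⟨0,0,67⟩,⟨0,67,0⟩,⟨67,0,0⟩⟩ (1,[(0,67)]) (1,[(1,67)]) (1,[(2,67)])) (.node ⟨-56,28,-191⟩ (.node ⟨4,199,28⟩ (.leaf true ⟨⟨-50,15,-42⟩,⟨30,58,-15⟩,⟨33,-30,-50⟩⟩ (1,[(0,1)]) (1,[(1,1)]) (7,[(2,201),(4,1407),(1,1)])) (.leaf true ⟨⟨6,58,-33⟩,⟨22,-33,-54⟩,⟨63,6,22⟩⟩ (67,[(3,16281),(1,49),(0,51)]) (7,[(4,1404),(3,1809),(0,8)]) (7,[(4,165),(3,4623),(0,29)]))) (.leaf true ⟨⟨-30,-50,-33⟩,⟨-15,42,-50⟩,⟨58,-15,-30⟩⟩ (7,[(1,2358),(0,17),(2,1008)]) (56,[(1,6015),(0,1),(2,9660)]) (14,[(1,8691),(0,37),(2,42)])))) (.node ⟨0,0,1⟩ (.node ⟨-56,-191,28⟩ (.node ⟨4,28,199⟩ (.leaf true ⟨⟨-50,-42,15⟩,⟨30,-15,58⟩,⟨33,-50,-30⟩⟩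 (1,[(0,1)]) (1,[(1,1)]) (7,[(4,1407),(3,201),(1,1)])) (.leaf true ⟨⟨6,-33,58⟩,⟨22,-54,-33⟩,⟨63,22,6⟩⟩ (67,[(2,16281),(0,51),(1,49)]) (7,[(2,1809),(4,1404),(0,8)]) (7,[(2,4623),(4,165),(0,29)]))) (.leaf true ⟨⟨-30,-33,-50⟩,⟨-15,-50,42⟩,⟨58,-30,-15⟩⟩ (7,[(1,1008),(0,17),(2,2358)]) (56,[(1,9660),(0,1),(2,6015)]) (14,[(1,42),(0,37),(2,8691)]))) (.node ⟨-95,-176,-20⟩ (.node ⟨160,76,-95⟩ (.node ⟨-95,-20,-176⟩ (.leaf true ⟨⟨22,-6,-63⟩,⟨33,58,6⟩,⟨54,-33,22⟩⟩ (1,[(1,1)]) (1,[(0,1)]) (1,[(5,171),(4,9),(2,1)])) (.leaf false ⟨⟨-15,-42,-50⟩,⟨30,-50,33⟩,⟨58,15,-30⟩⟩ (698,[(3,26905),(1,45),(2,186)]) (1482,[(3,116922),(0,1003),(2,535)]) (156780,[(1,60476),(0,7465),(2,13601)]))) (.leaf false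 ⟨⟨-30,-33,-50⟩,⟨-15,-50,42⟩,⟨58,-30,-15⟩⟩ (76,[(2,6935),(4,3000),(0,33)]) (38,[(2,779),(4,3430),(0,25)]) (38,[(2,1995),(4,4604),(0,15)]))) (.node ⟨169,64,88⟩ (.leaf false ⟨⟨22,-6,-63⟩,⟨33,58,6⟩,⟨54,-33,22⟩⟩ (95,[(2,6425),(1,22),(3,4442)]) (95,[(2,90),(1,33),(3,298)]) (169,[(2,1034),(0,54),(3,9033)])) (.leaf false ⟨⟨-50,-30,-33⟩,⟨-15,58,-30⟩,⟨42,-15,-50⟩⟩ (4980,[(1,1177),(3,219912),(0,2135)]) (166,[(1,125),(3,6932),(0,85)]) (2490,[(1,6073),(3,927318),(0,2795)])))))) (.node ⟨0,1,0⟩ (.node ⟨0,0,1⟩ (.node ⟨-191,28,-56⟩ (.node ⟨28,199,4⟩ (.leaf true ⟨⟨-50,-30,33⟩,⟨-42,15,-50⟩,⟨-15,58,30⟩⟩ (7,[(2,1407),(4,201),(1,1)]) (1,[(0,1)]) (1,[(1,1)])) (.leaf true ⟨⟨-54,-33,22⟩,⟨-33,58,6⟩,⟨22,6,63⟩⟩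 (7,[(2,1404),(0,8),(3,1809)]) (67,[(0,51),(1,49),(3,16281)]) (7,[(2,165),(0,29),(3,4623)]))) (.leaf true ⟨⟨-50,42,-15⟩,⟨-33,-50,-30⟩,⟨-30,-15,58⟩⟩ (56,[(3,6015),(2,9660),(0,1)]) (7,[(3,2358),(2,1008),(0,17)]) (14,[(3,8691),(2,42),(0,37)]))) (.node ⟨-176,-95,-20⟩ (.node ⟨76,160,-95⟩ (.node ⟨-20,-95,-176⟩ (.leaf true ⟨⟨-33,54,22⟩,⟨-6,22,-63⟩,⟨58,33,6⟩⟩ (1,[(2,1),(5,9),(4,171)]) (1,[(1,1)]) (1,[(0,1)])) (.leaf false ⟨⟨-63,22,-6⟩,⟨6,33,58⟩,⟨22,54,-33⟩⟩ (14820,[(3,1695252),(2,6425),(0,9857)]) (2470,[(3,10088),(2,15),(0,873)]) (2010,[(3,69747),(0,292),(1,505)]))) (.leaf false ⟨⟨-63,-14,18⟩,⟨-18,63,-14⟩,⟨-14,-18,-63⟩⟩ (76,[(2,4617),(0,63),(3,9016)]) (38,[(2,1387),(0,9),(3,3834)]) (38,[(2,3059),(0,7),(3,436)])))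 (.node ⟨64,169,88⟩ (.leaf false ⟨⟨-33,54,22⟩,⟨-6,22,-63⟩,⟨58,33,6⟩⟩ (169,[(2,1034),(4,9033),(0,54)]) (95,[(2,6425),(4,4442),(1,22)]) (95,[(2,90),(4,298),(1,33)])) (.leaf false ⟨⟨-63,-18,-14⟩,⟨-14,63,-18⟩,⟨18,-14,-63⟩⟩ (2490,[(4,194646),(1,391),(0,485)]) (830,[(4,231796),(1,1431),(0,495)]) (996,[(4,240456),(1,1883),(0,1141)]))))) (.node ⟨0,0,1⟩ (.node ⟨-176,-20,-95⟩ (.node ⟨76,-95,160⟩ (.node ⟨-20,-176,-95⟩ (.leaf true ⟨⟨-33,22,54⟩,⟨-6,-63,22⟩,⟨58,6,33⟩⟩ (1,[(3,171),(5,9),(2,1)]) (1,[(1,1)]) (1,[(0,1)])) (.leaf false ⟨⟨-63,-6,22⟩,⟨6,58,33⟩,⟨22,-33,54⟩⟩ (14820,[(2,6425),(4,1695252),(0,9857)]) (2470,[(2,15),(4,10088),(0,873)]) (2010,[(4,69747),(1,505),(0,292)]))) (.leaf false ⟨⟨-63,18,-14⟩,⟨-18,-14,63⟩,⟨-14,-63,-18⟩⟩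 (76,[(2,9016),(0,63),(3,4617)]) (38,[(2,3834),(0,9),(3,1387)]) (38,[(2,436),(0,7),(3,3059)]))) (.node ⟨64,88,169⟩ (.leaf false ⟨⟨-33,22,54⟩,⟨-6,-63,22⟩,⟨58,6,33⟩⟩ (169,[(4,9033),(3,1034),(0,54)]) (95,[(4,4442),(3,6425),(1,22)]) (95,[(4,298),(3,90),(1,33)])) (.leaf false ⟨⟨-63,-14,-18⟩,⟨-14,-18,63⟩,⟨18,-63,-14⟩⟩ (2490,[(4,194646),(0,485),(1,391)]) (830,[(4,231796),(0,495),(1,1431)]) (996,[(4,240456),(0,1141),(1,1883)])))) (.node ⟨-164,64,97⟩ (.leaf true ⟨⟨-54,22,33⟩,⟨22,63,-6⟩,⟨33,-6,58⟩⟩ (1,[(0,1)]) (41,[(1,9447),(0,23),(2,201)]) (164,[(1,6231),(0,71),(2,35376)])) (.node ⟨97,-164,64⟩ (.leaf true ⟨⟨-6,22,63⟩,⟨33,-54,22⟩,⟨58,33,-6⟩⟩ (41,[(2,201),(4,9447),(0,23)]) (1,[(0,1)]) (64,[(2,5145),(4,11388),(1,71)]))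 (.leaf true ⟨⟨-6,58,33⟩,⟨22,33,-54⟩,⟨63,-6,22⟩⟩ (64,[(4,5145),(3,11388),(0,71)]) (6668,[(4,60597),(1,6896),(0,6635)]) (97,[(4,12081),(3,11184),(1,92)]))))))
theorem ps67_ok : ps67.check (ok 67 6 ⟨5, 5, 5⟩) tr6 [] = true := by decide +kernel

def ps167 : T := .node ⟨1,0,0⟩ (.node ⟨0,1,0⟩ (.node ⟨0,0,1⟩ (.node ⟨-224,196,403⟩ (.node ⟨334,-167,334⟩ (.node ⟨334,334,-167⟩ (.leaf true ⟨⟨-167,0,0⟩,⟨0,-167,0⟩,⟨0,0,-167⟩⟩ (194,[(0,15),(4,27054),(2,167)]) (1,[(1,1)]) (1,[(0,1)])) (.leaf false ⟨⟨-138,-3,94⟩,⟨66,-122,93⟩,⟨67,114,102⟩⟩ (167,[(5,8350),(4,30895),(0,94)]) (167,[(5,42084),(4,10688),(0,93)]) (167,[(5,45257),(4,53106),(0,102)]))) (.leaf false ⟨⟨-138,94,-3⟩,⟨66,93,-122⟩,⟨67,102,114⟩⟩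 (167,[(2,30895),(4,8350),(0,94)]) (167,[(2,10688),(4,42084),(0,93)]) (167,[(2,53106),(4,45257),(0,102)]))) (.leaf true ⟨⟨-131,-102,-18⟩,⟨-18,51,-158⟩,⟨102,-122,-51⟩⟩ (224,[(1,144279),(0,109),(2,65268)]) (8,[(1,1029),(0,7),(2,4596)]) (1,[(1,795),(0,2),(2,168)]))) (.node ⟨157,18,54⟩ (.node ⟨-140,475,76⟩ (.leaf false ⟨⟨-18,166,-3⟩,⟨54,3,-158⟩,⟨157,18,54⟩⟩ (475,[(2,14041),(4,14690),(0,166)]) (6,[(2,1002),(4,167),(1,1)]) (1,[(1,1)])) (.leaf false ⟨⟨30,45,-158⟩,⟨67,-150,-30⟩,⟨150,58,45⟩⟩ (14,[(2,1984),(0,3),(3,2055)]) (4873,[(0,2082),(1,223),(3,253986)]) (157,[(2,1035),(1,150),(3,6406)]))) (.leaf false ⟨⟨-54,3,-158⟩,⟨18,166,-3⟩,⟨157,-18,-54⟩⟩ (27,[(3,10945),(2,1503),(0,79)]) (18,[(3,481),(2,3006),(0,1)])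 (1,[(3,314),(0,1)])))) (.node ⟨0,0,1⟩ (.node ⟨157,54,18⟩ (.node ⟨-140,76,475⟩ (.leaf false ⟨⟨-18,-3,166⟩,⟨54,-158,3⟩,⟨157,54,18⟩⟩ (475,[(4,14690),(3,14041),(0,166)]) (6,[(1,1),(4,167),(3,1002)]) (1,[(1,1)])) (.leaf false ⟨⟨30,-158,45⟩,⟨67,-30,-150⟩,⟨150,45,58⟩⟩ (14,[(2,2055),(0,3),(3,1984)]) (4873,[(2,253986),(1,223),(0,2082)]) (157,[(2,6406),(1,150),(3,1035)]))) (.leaf false ⟨⟨-54,-158,3⟩,⟨18,-3,166⟩,⟨157,-54,-18⟩⟩ (27,[(1,1503),(3,10945),(0,79)]) (18,[(1,3006),(3,481),(0,1)]) (1,[(3,314),(0,1)]))) (.node ⟨-155,-476,-20⟩ (.node ⟨-155,-20,-476⟩ (.node ⟨460,-155,124⟩ (.leaf true ⟨⟨58,-147,-54⟩,⟨93,-14,138⟩,⟨126,78,-77⟩⟩ (1,[(0,1)]) (1,[(2,1)]) (1,[(3,9),(5,279),(1,1)])) (.leaf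 false ⟨⟨-158,18,-51⟩,⟨18,-131,-102⟩,⟨51,102,-122⟩⟩ (124,[(5,3868),(4,5673),(0,51)]) (62,[(5,24576),(4,16027),(0,51)]) (62,[(5,31222),(4,3131),(0,61)]))) (.leaf true ⟨⟨54,-77,138⟩,⟨58,-126,-93⟩,⟨147,78,-14⟩⟩ (23560,[(2,1399464),(0,13029),(1,23365)]) (95,[(2,152019),(0,329),(1,25)]) (2945,[(2,2099196),(0,1591),(1,1230)]))) (.node ⟨150,58,45⟩ (.leaf false ⟨⟨30,45,-158⟩,⟨67,-150,-30⟩,⟨150,58,45⟩⟩ (31,[(2,5018),(1,6),(3,1461)]) (150,[(2,7515),(0,67),(3,26386)]) (1,[(0,1)])) (.leaf false ⟨⟨-147,-14,-78⟩,⟨54,-138,-77⟩,⟨58,93,-126⟩⟩ (265,[(1,339),(3,129694),(0,610)]) (795,[(1,2796),(3,1289632),(0,2603)]) (795,[(1,4302),(3,1733813),(0,4138)])))))) (.node ⟨0,1,0⟩ (.node ⟨0,0,1⟩ (.node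 ⟨54,18,157⟩ (.node ⟨76,475,-140⟩ (.leaf false ⟨⟨-158,3,54⟩,⟨-3,166,-18⟩,⟨54,18,157⟩⟩ (6,[(2,167),(4,1002),(1,1)]) (475,[(2,14690),(4,14041),(0,166)]) (1,[(1,1)])) (.leaf false ⟨⟨-158,45,30⟩,⟨-30,-150,67⟩,⟨45,58,150⟩⟩ (14,[(4,1984),(3,2055),(0,3)]) (4873,[(3,253986),(1,223),(0,2082)]) (157,[(4,1035),(3,6406),(1,150)]))) (.leaf false ⟨⟨-158,3,-54⟩,⟨-54,-18,157⟩,⟨-3,166,18⟩⟩ (27,[(1,10945),(0,79),(2,1503)]) (1,[(1,314),(0,1)]) (18,[(1,481),(0,1),(2,3006)]))) (.node ⟨-476,-155,-20⟩ (.node ⟨-20,-155,-476⟩ (.node ⟨-155,460,124⟩ (.leaf true ⟨⟨-147,58,-54⟩,⟨-14,93,138⟩,⟨78,126,-77⟩⟩ (1,[(0,1)]) (1,[(2,1)]) (1,[(3,9),(1,1),(4,279)])) (.leaf false ⟨⟨-158,-51,-18⟩,⟨-18,102,-131⟩,⟨51,-122,-102⟩⟩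 (62,[(5,11191),(4,978),(0,9)]) (124,[(5,22537),(4,72908),(0,131)]) (62,[(5,4743),(4,15896),(0,51)]))) (.leaf true ⟨⟨-147,58,-54⟩,⟨-14,93,138⟩,⟨78,126,-77⟩⟩ (4712,[(2,7082136),(1,2215),(0,16199)]) (1,[(1,1)]) (190,[(2,171342),(1,15),(0,167)]))) (.node ⟨58,150,45⟩ (.leaf false ⟨⟨-150,67,-30⟩,⟨45,30,-158⟩,⟨58,150,45⟩⟩ (150,[(2,7515),(4,26386),(0,67)]) (31,[(2,5018),(4,1461),(1,6)]) (1,[(0,1)])) (.leaf false ⟨⟨-158,-51,-18⟩,⟨-18,102,-131⟩,⟨51,-122,-102⟩⟩ (265,[(4,47878),(1,27),(0,118)]) (795,[(4,2062756),(1,4848),(0,4469)]) (795,[(4,738275),(1,1962),(0,2674)]))))) (.node ⟨0,0,1⟩ (.node ⟨-476,-20,-155⟩ (.node ⟨-20,-476,-155⟩ (.node ⟨-155,124,460⟩ (.leaf true ⟨⟨-147,-54,58⟩,⟨-14,138,93⟩,⟨78,-77,126⟩⟩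 (1,[(0,1)]) (1,[(2,1)]) (1,[(3,279),(1,1),(4,9)])) (.leaf false ⟨⟨-158,-51,18⟩,⟨18,-102,-131⟩,⟨51,-122,102⟩⟩ (124,[(3,25692),(5,27497),(0,51)]) (62,[(3,15338),(5,6789),(0,51)]) (62,[(3,34384),(5,6293),(0,61)]))) (.leaf true ⟨⟨-147,-54,58⟩,⟨-14,138,93⟩,⟨78,-77,126⟩⟩ (4712,[(1,2215),(3,7082136),(0,16199)]) (1,[(1,1)]) (190,[(1,15),(3,171342),(0,167)]))) (.node ⟨58,45,150⟩ (.leaf false ⟨⟨-150,-30,67⟩,⟨45,-158,30⟩,⟨58,45,150⟩⟩ (150,[(4,26386),(3,7515),(0,67)]) (31,[(4,1461),(3,5018),(1,6)]) (1,[(0,1)])) (.leaf false ⟨⟨-158,-51,18⟩,⟨18,-102,-131⟩,⟨51,-122,102⟩⟩ (265,[(4,278376),(0,551),(1,564)]) (795,[(4,728042),(0,2638),(1,1881)]) (795,[(4,1895563),(0,4190),(1,4578)])))) (.leaf false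 ⟨⟨-167,0,0⟩,⟨0,-167,0⟩,⟨0,0,-167⟩⟩ (1,[(2,167)]) (1,[(1,167)]) (1,[(0,167)]))))
theorem ps167_ok : ps167.check (ok 167 6 ⟨5, 5, 5⟩) tr6 [] = true := by decide +kernel


end H34S
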