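import Pool.Agent.Lib.H34S.Cover

/-!
# H34S: certificates (generated), pentagonal numbers
-/

set_option autoImplicit false

namespace H34S

def pf503 : T := .node ⟨1,0,0⟩ (.node ⟨0,1,0⟩ (.node ⟨0,0,1⟩ (.node ⟨-242,222,381⟩ (.node ⟨102,451,-198⟩ (.leaf false ⟨⟨-242,222,381⟩,⟨102,451,-198⟩,⟨429,18,262⟩⟩ (1,[(1,1)]) (1,[(0,1)]) (37,[(2,8551),(4,16599),(1,3)])) (.leaf false ⟨⟨-243,46,438⟩,⟨262,-387,186⟩,⟨354,318,163⟩⟩ (71929,[(4,1900837),(1,68882),(0,26570)]) (33,[(4,11808),(3,1210),(0,31)]) (198,[(4,86718),(3,136477),(0,163)]))) (.leaf false ⟨⟨18,222,451⟩,⟨262,381,-198⟩,⟨429,-242,102⟩⟩ (121,[(1,58000),(0,9),(2,28860)]) (121,[(1,25953),(0,131),(2,75183)]) (22,[(1,17103),(0,39),(2,3334)]))) (.node ⟨462,114,163⟩ (.node ⟨-147,462,-134⟩ (.node ⟨82,-114,-483⟩ (.leaf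 false ⟨⟨-147,462,-134⟩,⟨82,-114,-483⟩,⟨474,163,42⟩⟩ (1,[(1,1)]) (1,[(0,1)]) (77,[(3,9643),(2,79),(4,3545)])) (.leaf false ⟨⟨-269,402,-138⟩,⟨282,291,298⟩,⟨318,82,-381⟩⟩ (19,[(3,34983),(5,383),(0,67)]) (38,[(3,35527),(5,18670),(0,97)]) (57,[(3,41520),(5,21488),(0,41)]))) (.leaf false ⟨⟨42,154,-477⟩,⟨306,-387,-98⟩,⟨397,282,126⟩⟩ (7,[(2,3607),(0,2),(3,2002)]) (49,[(2,18470),(0,102),(3,28161)]) (147,[(2,34676),(0,397),(3,224868)]))) (.leaf false ⟨⟨-462,-62,-189⟩,⟨19,462,-198⟩,⟨198,-189,-422⟩⟩ (163,[(3,12012),(2,11440),(0,189)]) (163,[(3,94573),(2,97878),(0,198)]) (163,[(3,227238),(2,17301),(0,422)])))) (.node ⟨0,0,1⟩ (.node ⟨462,163,114⟩ (.node ⟨-147,-134,462⟩ (.node ⟨82,-483,-114⟩ (.leaf false ⟨⟨-147,-134,462⟩,⟨82,-483,-114⟩,⟨474,42,163⟩⟩ (1,[(1,1)]) (1,[(0,1)])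 (77,[(3,3545),(2,79),(4,9643)])) (.leaf false ⟨⟨-269,-138,402⟩,⟨282,298,291⟩,⟨318,-381,82⟩⟩ (19,[(5,383),(4,34983),(0,67)]) (38,[(5,18670),(4,35527),(0,97)]) (57,[(5,21488),(4,41520),(0,41)]))) (.leaf false ⟨⟨42,-477,154⟩,⟨306,-98,-387⟩,⟨397,126,282⟩⟩ (7,[(2,2002),(0,2),(3,3607)]) (49,[(2,28161),(0,102),(3,18470)]) (147,[(2,224868),(0,397),(3,34676)]))) (.leaf false ⟨⟨-462,-189,-62⟩,⟨19,-198,462⟩,⟨198,-422,-189⟩⟩ (163,[(1,11440),(3,12012),(0,189)]) (163,[(1,97878),(3,94573),(0,198)]) (163,[(1,17301),(3,227238),(0,422)]))) (.node ⟨198,189,-422⟩ (.node ⟨378,-243,226⟩ (.node ⟨-126,-422,-243⟩ (.leaf false ⟨⟨-126,-422,-243⟩,⟨307,126,-378⟩,⟨378,-243,226⟩⟩ (1,[(0,1)]) (3,[(3,290),(2,2),(5,525)]) (1,[(1,1)])) (.leaf false ⟨⟨19,-462,-198⟩,⟨198,189,-422⟩,⟨462,-62,189⟩⟩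 (126,[(3,29565),(0,19),(4,66230)]) (7,[(3,5627),(0,11),(4,3319)]) (3,[(3,2106),(0,11),(4,4828)]))) (.leaf false ⟨⟨-402,109,-282⟩,⟨51,-438,-242⟩,⟨298,222,-339⟩⟩ (113,[(4,7872),(3,21946),(0,141)]) (113,[(4,51501),(3,78897),(0,121)]) (2,[(4,1730),(3,285),(0,3)]))) (.leaf false ⟨⟨-222,-285,-350⟩,⟨-35,-378,330⟩,⟨450,-170,-147⟩⟩ (63,[(1,62140),(3,4824),(0,95)]) (1,[(1,514),(3,361),(0,2)]) (189,[(1,99523),(3,118710),(0,170)]))))) (.node ⟨0,1,0⟩ (.node ⟨0,0,1⟩ (.node ⟨163,114,462⟩ (.node ⟨-134,462,-147⟩ (.node ⟨-483,-114,82⟩ (.leaf false ⟨⟨-483,-114,82⟩,⟨-134,462,-147⟩,⟨42,163,474⟩⟩ (1,[(0,1)]) (1,[(1,1)]) (77,[(5,9643),(4,3545),(2,79)])) (.leaf false ⟨⟨-474,82,147⟩,⟨42,483,-134⟩,⟨163,114,462⟩⟩ (57,[(3,11741),(5,46821),(0,41)]) (38,[(3,8110),(5,76167),(0,161)]) (1,[(3,544),(5,320),(0,1)])))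 (.leaf false ⟨⟨-477,-98,126⟩,⟨42,306,397⟩,⟨154,-387,282⟩⟩ (7,[(4,4143),(3,2086),(0,6)]) (147,[(4,47024),(3,228396),(0,397)]) (49,[(4,5050),(3,24465),(0,94)]))) (.leaf false ⟨⟨-450,-170,147⟩,⟨-222,285,-350⟩,⟨-35,378,330⟩⟩ (163,[(1,231861),(0,450),(2,23590)]) (163,[(1,45514),(0,222),(2,71763)]) (163,[(1,69960),(0,35),(2,65604)]))) (.node ⟨-62,462,189⟩ (.node ⟨-126,-138,-467⟩ (.node ⟨126,138,-467⟩ (.leaf false ⟨⟨-483,-26,-138⟩,⟨-62,483,126⟩,⟨126,138,-467⟩⟩ (467,[(1,138),(5,208173),(4,6902)]) (3,[(5,62),(2,2),(4,525)]) (1,[(0,1)])) (.leaf false ⟨⟨-483,-26,138⟩,⟨-126,-138,-467⟩,⟨-62,483,-126⟩⟩ (6,[(3,9913),(0,23),(4,3018)]) (1,[(3,934),(0,1)]) (63,[(3,22415),(0,31),(4,34707)]))) (.leaf false ⟨⟨-483,42,-134⟩,⟨-114,163,462⟩,⟨82,474,-147⟩⟩ (23,[(2,6351),(4,11991),(0,7)])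 (138,[(2,12365),(4,36270),(0,163)]) (23,[(2,40274),(4,8068),(0,79)]))) (.leaf false ⟨⟨-483,-62,-126⟩,⟨-26,483,-138⟩,⟨138,-126,-467⟩⟩ (3,[(3,1573),(2,738),(0,2)]) (63,[(3,4490),(2,51681),(0,46)]) (189,[(3,2872),(2,191940),(0,467)])))) (.node ⟨0,0,1⟩ (.node ⟨-62,189,462⟩ (.node ⟨-126,-467,-138⟩ (.node ⟨126,-467,138⟩ (.leaf false ⟨⟨-483,-138,-26⟩,⟨-62,126,483⟩,⟨126,-467,138⟩⟩ (467,[(3,6902),(5,208173),(1,138)]) (3,[(3,525),(2,2),(5,62)]) (1,[(0,1)])) (.leaf false ⟨⟨-483,138,-26⟩,⟨-126,-467,-138⟩,⟨-62,-126,483⟩⟩ (6,[(3,3018),(0,23),(4,9913)]) (1,[(0,1),(4,934)]) (63,[(3,34707),(0,31),(4,22415)]))) (.leaf false ⟨⟨-483,-134,42⟩,⟨-114,462,163⟩,⟨82,-147,474⟩⟩ (23,[(4,11991),(3,6351),(0,7)]) (138,[(4,36270),(3,12365),(0,163)]) (23,[(4,8068),(3,40274),(0,79)]))) (.leaf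 false ⟨⟨-483,-126,-62⟩,⟨-26,-138,483⟩,⟨138,-467,-126⟩⟩ (3,[(1,738),(3,1573),(0,2)]) (63,[(1,51681),(3,4490),(0,46)]) (189,[(1,191940),(3,2872),(0,467)]))) (.leaf false ⟨⟨-503,0,0⟩,⟨0,-503,0⟩,⟨0,0,-503⟩⟩ (1,[(2,503)]) (1,[(1,503)]) (1,[(0,503)]))))
theorem pf503_ok : pf503.check (ok 503 6 ⟨5, 5, 5⟩) (fun _ r => r) [] = true := by decide +kernel

def pf509 : T := .node ⟨1,0,0⟩ (.node ⟨0,1,0⟩ (.node ⟨0,0,1⟩ (.node ⟨-68,21,504⟩ (.node ⟨-21,504,-68⟩ (.leaf false ⟨⟨-68,21,504⟩,⟨-21,508,-24⟩,⟨504,24,67⟩⟩ (1,[(1,1)]) (126,[(2,5612),(4,21),(0,127)]) (21,[(2,1475),(4,10605),(0,1)])) (.leaf false ⟨⟨-24,-21,508⟩,⟨67,504,24⟩,⟨504,-68,21⟩⟩ (3041,[(4,127811),(1,3031),(0,253)]) (21,[(4,1475),(3,10563),(1,1)]) (68,[(4,33831),(3,5960),(0,21)]))) (.leaf false ⟨⟨21,504,-68⟩,⟨24,67,504⟩,⟨508,-24,-21⟩⟩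 (68,[(1,5960),(0,21),(2,34713)]) (17,[(1,11592),(0,6),(2,1265)]) (17,[(1,63651),(0,127),(2,2259)]))) (.node ⟨-264,189,-392⟩ (.node ⟨144,468,139⟩ (.node ⟨477,-104,-144⟩ (.leaf false ⟨⟨-104,171,-468⟩,⟨144,468,139⟩,⟨477,-104,-144⟩⟩ (21,[(3,2380),(5,2832),(2,19)]) (1,[(1,1)]) (1,[(0,1)])) (.leaf false ⟨⟨-491,120,60⟩,⟨60,400,-309⟩,⟨120,291,400⟩⟩ (13,[(3,1380),(5,772),(0,15)]) (13,[(3,11217),(5,24630),(0,50)]) (104,[(3,304),(5,151287),(0,291)]))) (.leaf false ⟨⟨-356,24,-363⟩,⟨192,-419,-216⟩,⟨309,288,-284⟩⟩ (139,[(4,2788),(3,173220),(0,363)]) (139,[(4,57792),(3,42847),(0,216)]) (139,[(4,83847),(3,172944),(0,284)]))) (.leaf false ⟨⟨24,472,-189⟩,⟨276,-171,-392⟩,⟨427,84,264⟩⟩ (11,[(1,2471),(0,1),(2,5381)]) (22,[(1,17640),(0,23),(2,585)]) (264,[(1,97688),(0,427),(2,102879)]))))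 (.node ⟨0,0,1⟩ (.node ⟨-264,-392,189⟩ (.node ⟨144,139,468⟩ (.node ⟨477,-144,-104⟩ (.leaf false ⟨⟨-104,-468,171⟩,⟨144,139,468⟩,⟨477,-144,-104⟩⟩ (21,[(5,2832),(4,2380),(2,19)]) (1,[(1,1)]) (1,[(0,1)])) (.leaf false ⟨⟨-491,60,120⟩,⟨60,-309,400⟩,⟨120,400,291⟩⟩ (13,[(5,772),(4,1380),(0,15)]) (13,[(5,24630),(4,11217),(0,50)]) (104,[(5,151287),(4,304),(0,291)]))) (.leaf false ⟨⟨-356,-363,24⟩,⟨192,-216,-419⟩,⟨309,-284,288⟩⟩ (139,[(2,173220),(4,2788),(0,363)]) (139,[(2,42847),(4,57792),(0,216)]) (139,[(2,172944),(4,83847),(0,284)]))) (.leaf false ⟨⟨24,-189,472⟩,⟨276,-392,-171⟩,⟨427,264,84⟩⟩ (11,[(1,5381),(0,1),(2,2471)]) (22,[(1,585),(0,23),(2,17640)]) (264,[(1,102879),(0,427),(2,97688)]))) (.node ⟨459,0,220⟩ (.leaf false ⟨⟨0,-509,0⟩,⟨220,0,-459⟩,⟨459,0,220⟩⟩ (1,[(2,509)])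 (459,[(1,259081),(0,220)]) (1,[(0,1)])) (.node ⟨420,84,-275⟩ (.leaf false ⟨⟨-456,-48,-221⟩,⟨76,-501,-48⟩,⟨213,76,-456⟩⟩ (220,[(4,1119),(3,10560),(1,221)]) (55,[(4,9688),(3,27555),(1,12)]) (4620,[(4,1225569),(1,4351),(0,4180)])) (.leaf false ⟨⟨-500,-84,45⟩,⟨45,-420,-284⟩,⟨84,-275,420⟩⟩ (22,[(4,8797),(0,22),(1,23)]) (220,[(4,1233381),(0,1100),(1,1659)]) (3696,[(4,9096135),(0,12100),(1,8069)])))))) (.node ⟨0,1,0⟩ (.node ⟨0,0,1⟩ (.node ⟨-392,-264,189⟩ (.node ⟨139,144,468⟩ (.node ⟨-144,477,-104⟩ (.leaf false ⟨⟨-468,-104,171⟩,⟨-144,477,-104⟩,⟨139,144,468⟩⟩ (21,[(2,19),(5,2380),(4,2832)]) (1,[(0,1)]) (1,[(1,1)])) (.leaf false ⟨⟨-509,0,0⟩,⟨0,-459,220⟩,⟨0,220,459⟩⟩ (1,[(5,509)]) (26,[(5,7920),(4,14301),(0,55)]) (104,[(5,66096),(4,241823),(0,459)]))) (.leaf false ⟨⟨-477,-144,-104⟩,⟨-144,139,468⟩,⟨-104,468,-171⟩⟩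 (139,[(2,208780),(0,477),(3,48672)]) (139,[(2,132444),(0,144),(3,40057)]) (139,[(2,24903),(0,104),(3,80028)]))) (.leaf false ⟨⟨-501,76,48⟩,⟨48,456,-221⟩,⟨76,213,456⟩⟩ (66,[(1,6759),(3,40514),(0,19)]) (11,[(1,1160),(3,6920),(0,19)]) (88,[(1,53547),(3,21144),(0,71)]))) (.node ⟨0,459,220⟩ (.leaf false ⟨⟨-509,0,0⟩,⟨0,220,-459⟩,⟨0,459,220⟩⟩ (1,[(3,509)]) (459,[(1,259081),(0,220)]) (1,[(0,1)])) (.node ⟨84,420,-275⟩ (.leaf false ⟨⟨-501,76,-48⟩,⟨-48,-456,-221⟩,⟨76,213,-456⟩⟩ (55,[(1,12),(4,27555),(3,9688)]) (220,[(1,221),(4,10560),(3,1119)]) (4620,[(1,4351),(3,1225569),(0,4180)])) (.leaf false ⟨⟨-504,-24,67⟩,⟨-68,21,-504⟩,⟨-21,508,24⟩⟩ (220,[(1,1583),(0,1320),(3,1275717)]) (4620,[(1,15259),(0,3740),(3,8671701)]) (880,[(1,179),(0,220),(3,621601)]))))) (.node ⟨0,0,1⟩ (.node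 ⟨0,220,459⟩ (.leaf false ⟨⟨-509,0,0⟩,⟨0,-459,220⟩,⟨0,220,459⟩⟩ (1,[(3,509)]) (459,[(0,220),(2,259081)]) (1,[(0,1)])) (.node ⟨84,-275,420⟩ (.leaf false ⟨⟨-501,-48,76⟩,⟨-48,-221,-456⟩,⟨76,-456,213⟩⟩ (55,[(2,9688),(4,27555),(1,12)]) (220,[(2,1119),(4,10560),(1,221)]) (4620,[(2,1225569),(1,4351),(0,4180)])) (.leaf false ⟨⟨-504,67,-24⟩,⟨-68,-504,21⟩,⟨-21,24,508⟩⟩ (220,[(2,1275717),(0,1320),(1,1583)]) (4620,[(2,8671701),(0,3740),(1,15259)]) (880,[(2,621601),(0,220),(1,179)])))) (.leaf false ⟨⟨-509,0,0⟩,⟨0,-509,0⟩,⟨0,0,-509⟩⟩ (1,[(2,509)]) (1,[(1,509)]) (1,[(0,509)]))))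
theorem pf509_ok : pf509.check (ok 509 6 ⟨5, 5, 5⟩) (fun _ r => r) [] = true := by decide +kernel

def pf521 : T := .node ⟨1,0,0⟩ (.node ⟨0,1,0⟩ (.node ⟨0,0,1⟩ (.node ⟨-159,64,492⟩ (.node ⟨-12,496,-159⟩ (.leaf false ⟨⟨-159,64,492⟩,⟨-12,516,-71⟩,⟨496,33,156⟩⟩ (1,[(1,1)]) (124,[(2,11707),(4,60),(0,129)]) (496,[(2,82623),(4,246412),(0,33)])) (.leaf false ⟨⟨-120,-105,496⟩,⟨55,504,120⟩,⟨504,-80,105⟩⟩ (1485,[(3,236011),(1,1192),(0,944)]) (41,[(4,3845),(3,20024),(1,10)]) (53,[(4,26292),(3,13120),(0,35)]))) (.leaf false ⟨⟨33,64,516⟩,⟨156,492,-71⟩,⟨496,-159,-12⟩⟩ (53,[(1,32760),(0,11),(2,4096)]) (53,[(1,21821),(0,52),(2,29404)]) (159,[(1,242124),(0,496),(2,6463)]))) (.node ⟨504,28,129⟩ (.node ⟨-129,504,28⟩ (.leaf false ⟨⟨-129,504,28⟩,⟨28,36,-519⟩,⟨504,127,36⟩⟩ (1,[(0,1)])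 (14,[(2,7294),(4,521),(0,1)]) (85876,[(2,9001317),(1,90133),(0,16632)])) (.node ⟨1,-408,-324⟩ (.leaf false ⟨⟨1,-408,-324⟩,⟨72,321,-404⟩,⟨516,-44,57⟩⟩ (1,[(0,1)]) (7,[(3,2957),(2,1),(4,2219)]) (51415,[(3,890910),(0,9156),(2,52621)])) (.leaf false ⟨⟨1,252,-456⟩,⟨132,441,244⟩,⟨504,-116,-63⟩⟩ (4344,[(3,2870648),(1,55),(0,2751)]) (5792,[(3,2860840),(1,6033),(0,13713)]) (13032,[(3,18745616),(1,51379),(0,59763)])))) (.leaf false ⟨⟨-449,-12,-264⟩,⟨12,519,-44⟩,⟨264,-44,-447⟩⟩ (43,[(3,25045),(2,1948),(0,88)]) (129,[(3,23724),(2,68183),(0,44)]) (43,[(3,86448),(2,2280),(0,149)])))) (.node ⟨0,0,1⟩ (.node ⟨504,129,28⟩ (.node ⟨-129,28,504⟩ (.leaf false ⟨⟨-129,28,504⟩,⟨28,-519,36⟩,⟨504,36,127⟩⟩ (1,[(0,1)]) (14,[(4,521),(3,7294),(0,1)]) (85876,[(1,90133),(3,9001317),(0,16632)]))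 (.node ⟨1,-324,-408⟩ (.leaf false ⟨⟨1,-324,-408⟩,⟨72,-404,321⟩,⟨516,57,-44⟩⟩ (1,[(0,1)]) (7,[(3,2219),(2,1),(4,2957)]) (51415,[(2,52621),(0,9156),(4,890910)])) (.leaf false ⟨⟨1,-456,252⟩,⟨132,244,441⟩,⟨504,-63,-116⟩⟩ (4344,[(1,55),(4,2870648),(0,2751)]) (5792,[(1,6033),(4,2860840),(0,13713)]) (13032,[(1,51379),(4,18745616),(0,59763)])))) (.leaf false ⟨⟨-449,-264,-12⟩,⟨12,-44,519⟩,⟨264,-447,-44⟩⟩ (43,[(1,1948),(3,25045),(0,88)]) (129,[(1,68183),(3,23724),(0,44)]) (43,[(1,2280),(3,86448),(0,149)]))) (.node ⟨496,-12,159⟩ (.node ⟨-120,-504,55⟩ (.leaf false ⟨⟨-120,-504,55⟩,⟨105,-80,-504⟩,⟨496,-105,120⟩⟩ (1,[(0,1)]) (63,[(2,32302),(4,7815),(0,10)]) (10476,[(2,588209),(1,10941),(0,1922)])) (.leaf false ⟨⟨1,-72,-516⟩,⟨324,-404,57⟩,⟨408,321,-44⟩⟩ (120,[(2,61865),(0,1),(3,9144)])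 (124,[(2,5811),(1,81),(3,49124)]) (10476,[(2,1191971),(0,6838),(1,6963)]))) (.leaf false ⟨⟨-440,0,-279⟩,⟨0,-521,0⟩,⟨279,0,-440⟩⟩ (53,[(3,22808),(2,1116),(0,93)]) (1,[(2,521)]) (159,[(3,262601),(2,5280),(0,440)]))))) (.node ⟨0,1,0⟩ (.node ⟨0,0,1⟩ (.node ⟨129,28,504⟩ (.node ⟨28,504,-129⟩ (.leaf false ⟨⟨-519,36,28⟩,⟨28,504,-129⟩,⟨36,127,504⟩⟩ (14,[(2,521),(4,7294),(0,1)]) (1,[(0,1)]) (85876,[(4,9001317),(0,16632),(1,90133)])) (.node ⟨-324,-408,1⟩ (.leaf false ⟨⟨-404,321,72⟩,⟨-324,-408,1⟩,⟨57,-44,516⟩⟩ (7,[(5,2957),(4,2219),(2,1)]) (1,[(0,1)]) (51415,[(5,890910),(2,52621),(0,9156)])) (.leaf false ⟨⟨-519,28,36⟩,⟨28,-129,504⟩,⟨36,504,127⟩⟩ (13032,[(5,8422832),(0,5439),(1,3679)]) (17376,[(5,23231944),(0,79125),(1,68501)]) (543,[(5,400648),(0,1344),(1,545)])))) (.leaf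 false ⟨⟨-449,12,264⟩,⟨-264,-44,-447⟩,⟨-12,519,-44⟩⟩ (129,[(1,260352),(0,449),(2,14120)]) (43,[(1,25131),(0,88),(2,572)]) (43,[(1,124),(0,4),(2,22429)]))) (.node ⟨-12,496,159⟩ (.node ⟨-504,-120,55⟩ (.leaf false ⟨⟨-516,-33,64⟩,⟨-71,156,-492⟩,⟨-12,496,159⟩⟩ (20952,[(2,433993),(0,21361),(1,3774)]) (504,[(2,251873),(0,71),(3,87144)]) (1,[(1,1)])) (.leaf false ⟨⟨-404,324,57⟩,⟨-72,1,-516⟩,⟨321,408,-44⟩⟩ (124,[(2,5811),(4,49124),(1,81)]) (120,[(2,61865),(4,9144),(0,1)]) (10476,[(2,1191971),(1,6963),(0,6838)]))) (.leaf false ⟨⟨-521,0,0⟩,⟨0,-440,-279⟩,⟨0,279,-440⟩⟩ (1,[(3,521)]) (53,[(3,1116),(2,22808),(0,93)]) (159,[(3,5280),(2,262601),(0,440)])))) (.node ⟨0,0,1⟩ (.node ⟨-12,159,496⟩ (.node ⟨-504,55,-120⟩ (.leaf false ⟨⟨-516,64,-33⟩,⟨-71,-492,156⟩,⟨-12,159,496⟩⟩ (6623,[(2,433993),(1,323),(0,6773)])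 (504,[(2,87144),(0,71),(3,251873)]) (1,[(1,1)])) (.leaf false ⟨⟨-404,57,324⟩,⟨-72,-516,1⟩,⟨321,-44,408⟩⟩ (124,[(1,81),(4,49124),(3,5811)]) (120,[(4,9144),(3,61865),(0,1)]) (10476,[(1,6963),(3,1191971),(0,6838)]))) (.leaf false ⟨⟨-521,0,0⟩,⟨0,-440,279⟩,⟨0,-279,-440⟩⟩ (1,[(3,521)]) (159,[(1,262601),(3,5280),(0,440)]) (53,[(1,22808),(3,1116),(0,93)]))) (.leaf false ⟨⟨-521,0,0⟩,⟨0,-521,0⟩,⟨0,0,-521⟩⟩ (1,[(2,521)]) (1,[(1,521)]) (1,[(0,521)]))))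
theorem pf521_ok : pf521.check (ok 521 6 ⟨5, 5, 5⟩) (fun _ r => r) [] = true := by decide +kernel

def pf523 : T := .node ⟨1,0,0⟩ (.node ⟨0,1,0⟩ (.node ⟨0,0,1⟩ (.leaf false ⟨⟨0,0,523⟩,⟨0,523,0⟩,⟨523,0,0⟩⟩ (1,[(0,523)]) (1,[(1,523)]) (1,[(2,523)])) (.node ⟨-102,510,55⟩ (.node ⟨505,90,102⟩ (.leaf false ⟨⟨-102,510,55⟩,⟨90,73,-510⟩,⟨505,90,102⟩⟩ (1,[(1,1)]) (510,[(2,264115),(4,53346),(1,73)]) (1,[(0,1)])) (.leaf false ⟨⟨-494,-78,-153⟩,⟨-57,514,-78⟩,⟨162,-57,-494⟩⟩ (7845,[(4,2429858),(1,969),(0,12290)]) (23535,[(4,18872978),(1,29724),(0,34025)]) (5230,[(4,15245973),(1,4294),(0,27645)]))) (.node ⟨-62,18,-519⟩ (.leaf false ⟨⟨-62,18,-519⟩,⟨279,442,-18⟩,⟨438,-279,-62⟩⟩ (1,[(0,1)]) (55,[(1,18),(4,13509),(3,33490)]) (55,[(1,62),(4,17766),(3,16275)])) (.leaf false ⟨⟨18,-42,-521⟩,⟨361,378,-18⟩,⟨378,-359,42⟩⟩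 (17,[(2,8692),(1,3),(3,816)]) (62,[(2,188475),(0,361),(3,29934)]) (14892,[(2,39473590),(1,7727),(0,78081)]))))) (.node ⟨0,0,1⟩ (.node ⟨-102,55,510⟩ (.node ⟨505,102,90⟩ (.leaf false ⟨⟨-102,55,510⟩,⟨90,-510,73⟩,⟨505,102,90⟩⟩ (1,[(1,1)]) (510,[(4,53346),(3,264115),(1,73)]) (1,[(0,1)])) (.leaf false ⟨⟨-494,-162,57⟩,⟨78,-57,514⟩,⟨153,-494,-78⟩⟩ (15690,[(4,7377961),(0,28585),(1,6798)]) (23535,[(4,19249538),(0,28670),(1,28779)]) (7845,[(4,22664728),(0,41275),(1,6084)]))) (.node ⟨-62,-519,18⟩ (.leaf false ⟨⟨-62,-519,18⟩,⟨279,-18,442⟩,⟨438,-62,-279⟩⟩ (1,[(0,1)]) (55,[(2,33490),(4,13509),(1,18)]) (55,[(2,16275),(4,17766),(1,62)])) (.leaf false ⟨⟨18,-521,-42⟩,⟨361,-18,378⟩,⟨378,42,-359⟩⟩ (17,[(2,816),(1,3),(3,8692)]) (62,[(2,29934),(0,361),(3,188475)]) (28174,[(2,39473590),(0,12537),(1,96789)]))))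 (.node ⟨57,-494,162⟩ (.node ⟨426,262,-153⟩ (.node ⟨-62,-183,-486⟩ (.leaf false ⟨⟨-62,-183,-486⟩,⟨297,-414,118⟩,⟨426,262,-153⟩⟩ (1,[(0,1)]) (81,[(5,20694),(2,59),(4,4388)]) (1,[(1,1)])) (.leaf false ⟨⟨18,-521,-42⟩,⟨361,-18,378⟩,⟨378,42,-359⟩⟩ (31,[(3,5676),(0,9),(4,17798)]) (62,[(3,152010),(0,361),(4,67179)]) (31,[(3,102983),(0,189),(4,33285)]))) (.leaf false ⟨⟨-402,-330,55⟩,⟨55,-150,-498⟩,⟨330,-377,150⟩⟩ (131,[(2,18040),(4,17628),(0,165)]) (131,[(2,76713),(4,39155),(0,75)]) (262,[(2,18381),(4,247062),(0,377)]))) (.leaf false ⟨⟨-78,153,-494⟩,⟨57,-494,-162⟩,⟨514,78,-57⟩⟩ (81,[(3,7761),(2,109625),(0,247)]) (1,[(3,114),(2,988),(0,1)]) (54,[(3,28839),(2,5174),(0,19)]))))) (.node ⟨0,1,0⟩ (.node ⟨0,0,1⟩ (.node ⟨55,510,-102⟩ (.node ⟨102,90,505⟩ (.leaf false ⟨⟨-510,73,90⟩,⟨55,510,-102⟩,⟨102,90,505⟩⟩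 (510,[(2,53346),(4,264115),(1,73)]) (1,[(1,1)]) (1,[(0,1)])) (.leaf false ⟨⟨-521,-18,42⟩,⟨-42,378,-359⟩,⟨18,361,378⟩⟩ (7845,[(2,23376008),(0,44120),(1,7509)]) (2615,[(2,485344),(0,2345),(1,2352)]) (47070,[(2,26773939),(0,10675),(1,35202)]))) (.node ⟨-519,18,-62⟩ (.leaf false ⟨⟨-519,18,-62⟩,⟨-62,-279,438⟩,⟨-18,442,279⟩⟩ (1,[(0,1)]) (55,[(2,17766),(1,62),(3,16275)]) (55,[(2,13509),(1,18),(3,33490)])) (.leaf false ⟨⟨-521,-42,18⟩,⟨-18,378,361⟩,⟨42,-359,378⟩⟩ (17,[(1,3),(4,8692),(3,816)]) (62,[(4,188475),(3,29934),(0,361)]) (14892,[(1,7727),(4,39473590),(0,78081)])))) (.node ⟨-494,57,162⟩ (.node ⟨262,426,-153⟩ (.node ⟨-183,-62,-486⟩ (.leaf false ⟨⟨-414,297,118⟩,⟨-183,-62,-486⟩,⟨262,426,-153⟩⟩ (81,[(5,4388),(2,59),(4,20694)]) (1,[(0,1)]) (1,[(1,1)])) (.leaf false ⟨⟨-521,18,-42⟩,⟨-18,361,378⟩,⟨42,378,-359⟩⟩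 (31,[(3,5676),(5,17798),(0,9)]) (62,[(3,152010),(5,67179),(0,361)]) (31,[(3,102983),(5,33285),(0,189)]))) (.leaf false ⟨⟨-494,-57,162⟩,⟨-153,-78,-494⟩,⟨-78,514,-57⟩⟩ (131,[(2,16569),(0,247),(3,97755)]) (262,[(2,152837),(0,153),(3,44742)]) (131,[(2,13434),(0,39),(3,83948)]))) (.leaf false ⟨⟨-494,57,-162⟩,⟨78,514,-57⟩,⟨153,-78,-494⟩⟩ (1,[(3,988),(2,114),(0,1)]) (54,[(3,5174),(2,28839),(0,19)]) (81,[(3,109625),(2,7761),(0,247)])))) (.node ⟨0,0,1⟩ (.node ⟨162,-494,57⟩ (.node ⟨-153,262,426⟩ (.node ⟨-486,-183,-62⟩ (.leaf false ⟨⟨-486,-183,-62⟩,⟨-153,262,426⟩,⟨118,-414,297⟩⟩ (1,[(0,1)]) (1,[(1,1)]) (81,[(3,20694),(4,4388),(2,59)])) (.leaf false ⟨⟨-521,-42,18⟩,⟨-18,378,361⟩,⟨42,-359,378⟩⟩ (31,[(5,20525),(4,2949),(0,9)]) (62,[(5,176562),(4,42627),(0,361)]) (31,[(5,90552),(4,45716),(0,189)])))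 (.leaf false ⟨⟨-521,-42,-18⟩,⟨18,-378,361⟩,⟨42,-359,-378⟩⟩ (131,[(2,6588),(4,71464),(0,21)]) (131,[(2,127805),(4,26559),(0,189)]) (262,[(2,53898),(4,43923),(0,359)]))) (.leaf false ⟨⟨-494,153,-78⟩,⟨-162,-494,57⟩,⟨-57,78,514⟩⟩ (81,[(1,7761),(0,247),(2,109625)]) (1,[(1,114),(0,1),(2,988)]) (54,[(1,28839),(0,19),(2,5174)]))) (.node ⟨-249,262,-378⟩ (.node ⟨-249,-378,262⟩ (.node ⟨-458,-102,231⟩ (.leaf false ⟨⟨-458,-102,231⟩,⟨-249,262,-378⟩,⟨-42,-441,-278⟩⟩ (1,[(0,1)]) (1,[(2,1)]) (83,[(3,26742),(1,14),(4,31311)])) (.leaf false ⟨⟨-458,-249,-42⟩,⟨-102,262,-441⟩,⟨231,-378,-278⟩⟩ (20198,[(5,16504439),(1,20601),(0,27038)]) (523,[(2,370),(5,141210),(0,393)]) (1363984,[(2,1267173),(1,3063211),(0,3042240)]))) (.leaf false ⟨⟨-521,-18,-42⟩,⟨18,361,-378⟩,⟨42,-378,-359⟩⟩ (131,[(4,73480),(3,10296),(0,21)])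 (131,[(4,44703),(3,24151),(0,189)]) (262,[(4,78387),(3,234738),(0,359)]))) (.leaf false ⟨⟨-521,-42,-18⟩,⟨18,-378,361⟩,⟨42,-359,-378⟩⟩ (131,[(1,10296),(3,73480),(0,21)]) (131,[(1,24151),(3,44703),(0,189)]) (262,[(1,234738),(3,78387),(0,359)])))))
theorem pf523_ok : pf523.check (ok 523 6 ⟨5, 5, 5⟩) (fun _ r => r) [] = true := by decide +kernel

def pf527 : T := .node ⟨1,0,0⟩ (.node ⟨0,1,0⟩ (.node ⟨0,0,1⟩ (.node ⟨-165,102,490⟩ (.node ⟨85,498,-150⟩ (.node ⟨498,-150,85⟩ (.leaf false ⟨⟨-150,123,490⟩,⟨85,510,-102⟩,⟨498,-50,165⟩⟩ (1,[(5,15),(4,21),(2,1)]) (1,[(3,48),(1,1),(4,12)]) (1,[(3,80),(0,1),(4,100)])) (.leaf false ⟨⟨-459,258,22⟩,⟨102,139,498⟩,⟨238,438,-171⟩⟩ (25,[(3,4205),(5,9939),(0,43)]) (150,[(3,86515),(5,84522),(0,139)]) (25,[(3,1930),(5,42304),(0,73)])))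 (.leaf false ⟨⟨-203,-18,486⟩,⟨18,526,27⟩,⟨486,-27,202⟩⟩ (25,[(4,1810),(3,39888),(0,81)]) (50,[(4,1665),(3,30782),(0,9)]) (75,[(4,45035),(3,48273),(0,101)]))) (.leaf false ⟨⟨22,459,258⟩,⟨171,238,-438⟩,⟨498,-102,139⟩⟩ (15,[(1,4850),(0,2),(2,7089)]) (55,[(1,3840),(0,57),(2,18904)]) (55,[(1,88985),(0,166),(2,11322)]))) (.node ⟨-162,22,-501⟩ (.node ⟨-158,501,42⟩ (.leaf false ⟨⟨-162,22,-501⟩,⟨-59,522,42⟩,⟨498,69,-158⟩⟩ (1,[(1,1)]) (167,[(2,294),(4,17639),(0,174)]) (167,[(2,27352),(4,86800),(0,23)])) (.leaf false ⟨⟨-102,315,-410⟩,⟨85,-402,-330⟩,⟨510,130,-27⟩⟩ (501,[(4,15318),(3,148795),(1,410)]) (83975,[(4,4164427),(1,49482),(0,69554)]) (14,[(4,5718),(3,6329),(0,9)]))) (.leaf false ⟨⟨27,526,18⟩,⟨202,-27,486⟩,⟨486,-18,-203⟩⟩ (6,[(1,393),(0,1),(2,3178)]) (81,[(1,11235),(0,101),(2,35)])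 (1,[(1,1706),(0,3),(2,48)])))) (.node ⟨0,0,1⟩ (.node ⟨-162,-501,22⟩ (.node ⟨-158,42,501⟩ (.leaf false ⟨⟨-162,-501,22⟩,⟨-59,42,522⟩,⟨498,-158,69⟩⟩ (1,[(1,1)]) (167,[(4,17639),(3,294),(0,174)]) (167,[(4,86800),(3,27352),(0,23)])) (.leaf false ⟨⟨-102,-410,315⟩,⟨85,-330,-402⟩,⟨510,-27,130⟩⟩ (501,[(2,148795),(4,15318),(1,410)]) (28654,[(2,4164427),(0,32015),(1,16190)]) (14,[(2,6329),(4,5718),(0,9)]))) (.leaf false ⟨⟨27,18,526⟩,⟨202,486,-27⟩,⟨486,-203,-18⟩⟩ (6,[(1,3178),(0,1),(2,393)]) (81,[(1,35),(0,101),(2,11235)]) (1,[(1,48),(0,3),(2,1706)]))) (.node ⟨-248,-465,0⟩ (.leaf false ⟨⟨-248,-465,0⟩,⟨0,0,-527⟩,⟨465,-248,0⟩⟩ (1,[(0,1)]) (1,[(1,527)]) (15,[(3,8959),(0,8)])) (.node ⟨459,202,162⟩ (.leaf false ⟨⟨102,85,-510⟩,⟨165,-498,-50⟩,⟨490,150,123⟩⟩ (124,[(2,63240),(1,51),(3,13175)])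 (153,[(2,16560),(0,55),(3,87304)]) (459,[(2,22923),(0,490),(3,30130)])) (.leaf false ⟨⟨-453,-42,-266⟩,⟨126,427,-282⟩,⟨238,-306,-357⟩⟩ (10044,[(1,12177),(3,2752769),(0,16492)]) (6696,[(1,24975),(3,6399671),(0,11656)]) (13392,[(1,67473),(3,29511473),(0,29512)])))))) (.node ⟨0,1,0⟩ (.node ⟨0,0,1⟩ (.node ⟨-501,-162,22⟩ (.node ⟨42,-158,501⟩ (.leaf false ⟨⟨-522,-69,22⟩,⟨-59,498,162⟩,⟨42,-158,501⟩⟩ (1,[(1,1),(4,21),(3,93)]) (167,[(4,12121),(3,91698),(0,54)]) (1,[(0,1)])) (.leaf false ⟨⟨-498,-69,-158⟩,⟨-162,22,501⟩,⟨-59,522,-42⟩⟩ (28654,[(2,2574269),(1,27194),(0,15369)]) (167,[(2,82479),(1,54),(3,12422)]) (42,[(2,27795),(0,59),(3,12602)]))) (.leaf false ⟨⟨-203,486,-18⟩,⟨18,27,526⟩,⟨486,202,-27⟩⟩ (1,[(1,48),(3,1706),(0,3)]) (6,[(1,3178),(3,393),(0,1)]) (81,[(1,35),(3,11235),(0,101)])))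 (.node ⟨0,-248,-465⟩ (.leaf false ⟨⟨-527,0,0⟩,⟨0,-248,-465⟩,⟨0,465,-248⟩⟩ (1,[(3,527)]) (1,[(0,1)]) (15,[(0,8),(2,8959)])) (.node ⟨162,459,202⟩ (.leaf false ⟨⟨-510,102,85⟩,⟨-50,165,-498⟩,⟨123,490,150⟩⟩ (124,[(2,13175),(4,63240),(1,51)]) (153,[(2,87304),(4,16560),(0,55)]) (459,[(2,30130),(4,22923),(0,490)])) (.leaf false ⟨⟨-498,-150,85⟩,⟨-165,490,-102⟩,⟨-50,-123,-510⟩⟩ (6696,[(2,11104727),(0,20584),(1,34047)]) (13392,[(2,22653529),(0,13640),(1,51705)]) (2511,[(2,1211945),(0,775),(1,189)]))))) (.node ⟨0,0,1⟩ (.node ⟨0,-465,-248⟩ (.leaf false ⟨⟨-527,0,0⟩,⟨0,-465,-248⟩,⟨0,-248,465⟩⟩ (1,[(3,527)]) (1,[(0,1)]) (15,[(1,8959),(0,8)])) (.node ⟨162,202,459⟩ (.leaf false ⟨⟨-510,-27,130⟩,⟨85,330,402⟩,⟨102,-410,315⟩⟩ (124,[(1,65),(4,63240),(3,33573)]) (163339,[(1,70266),(4,3140765),(0,105090)])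 (51,[(4,468),(3,27980),(0,35)])) (.leaf false ⟨⟨-498,-162,-59⟩,⟨-158,501,-42⟩,⟨-69,22,522⟩⟩ (837,[(1,4563),(0,2573),(3,1737643)]) (20088,[(1,32859),(0,19592),(3,1257763)]) (13392,[(1,38745),(0,5704),(3,16569593)])))) (.leaf false ⟨⟨-527,0,0⟩,⟨0,-527,0⟩,⟨0,0,-527⟩⟩ (1,[(2,527)]) (1,[(1,527)]) (1,[(0,527)]))))
theorem pf527_ok : pf527.check (ok 527 6 ⟨5, 5, 5⟩) (fun _ r => r) [] = true := by decide +kernel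

def pf541 : T := .node ⟨1,0,0⟩ (.node ⟨0,1,0⟩ (.node ⟨0,0,1⟩ (.leaf false ⟨⟨0,0,541⟩,⟨0,541,0⟩,⟨541,0,0⟩⟩ (1,[(0,541)]) (1,[(1,541)]) (1,[(2,541)])) (.node ⟨-341,0,-420⟩ (.leaf false ⟨⟨-341,0,-420⟩,⟨0,541,0⟩,⟨420,0,-341⟩⟩ (1,[(0,1)]) (1,[(2,541)]) (420,[(3,292681),(0,341)])) (.node ⟨459,-260,-120⟩ (.leaf false ⟨⟨60,309,-440⟩,⟨280,360,291⟩,⟨459,-260,-120⟩⟩ (153,[(2,64920),(0,20),(3,52477)]) (341,[(2,18369),(1,280),(3,122760)]) (1,[(0,1)])) (.leaf false ⟨⟨-456,267,-116⟩,⟨-8,204,501⟩,⟨291,424,-168⟩⟩ (8060,[(2,2080660),(1,363),(0,8277)]) (22165,[(2,595635),(1,22889),(0,17391)]) (22165,[(2,36440220),(1,67569),(0,36146)]))))) (.node ⟨0,0,1⟩ (.node ⟨-341,-420,0⟩ (.leaf false ⟨⟨-341,-420,0⟩,⟨0,0,541⟩,⟨420,-341,0⟩⟩ (1,[(0,1)]) (1,[(1,541)]) (420,[(3,292681),(0,341)]))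 (.node ⟨459,-120,-260⟩ (.leaf false ⟨⟨60,-440,309⟩,⟨280,291,360⟩,⟨459,-120,-260⟩⟩ (153,[(2,52477),(0,20),(3,64920)]) (341,[(2,122760),(1,280),(3,18369)]) (1,[(0,1)])) (.leaf false ⟨⟨-456,-116,267⟩,⟨-8,501,204⟩,⟨291,-168,424⟩⟩ (8060,[(1,363),(3,2080660),(0,8277)]) (22165,[(1,22889),(3,595635),(0,17391)]) (22165,[(1,67569),(3,36440220),(0,36146)])))) (.node ⟨84,-525,100⟩ (.node ⟨0,420,-341⟩ (.leaf false ⟨⟨0,-341,-420⟩,⟨0,420,-341⟩,⟨541,0,0⟩⟩ (341,[(0,420),(3,292681)]) (1,[(0,1)]) (1,[(4,541)])) (.node ⟨-84,-243,-476⟩ (.node ⟨532,51,-84⟩ (.leaf false ⟨⟨-51,-252,-476⟩,⟨84,-476,243⟩,⟨532,51,-84⟩⟩ (784,[(4,213103),(2,195),(1,476)]) (15,[(4,2152),(6,1260),(2,17)]) (1,[(0,1)])) (.leaf false ⟨⟨-528,-116,-21⟩,⟨64,-363,396⟩,⟨99,-384,-368⟩⟩ (51,[(4,10815),(6,34784),(0,116)])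 (17,[(4,3432),(6,65460),(0,121)]) (17,[(4,17008),(6,69779),(0,128)]))) (.leaf false ⟨⟨36,-512,171⟩,⟨213,-144,-476⟩,⟨496,99,192⟩⟩ (2940,[(3,1567753),(0,1260),(1,4313)]) (784,[(3,1803351),(0,1988),(1,1419)]) (2940,[(3,10887571),(0,17360),(1,9351)])))) (.leaf false ⟨⟨-309,-8,-444⟩,⟨312,381,-224⟩,⟨316,-384,-213⟩⟩ (25,[(3,1599),(2,58475),(0,111)]) (25,[(3,12504),(2,19875),(0,56)]) (100,[(3,49492),(2,150225),(0,213)]))))) (.node ⟨0,1,0⟩ (.node ⟨0,0,1⟩ (.node ⟨-420,-341,0⟩ (.leaf false ⟨⟨-420,-341,0⟩,⟨-341,420,0⟩,⟨0,0,541⟩⟩ (1,[(0,1)]) (420,[(0,341),(2,292681)]) (1,[(1,541)])) (.node ⟨-120,459,-260⟩ (.leaf false ⟨⟨-440,60,309⟩,⟨-120,459,-260⟩,⟨291,280,360⟩⟩ (153,[(2,52477),(4,64920),(0,20)]) (1,[(0,1)]) (341,[(2,122760),(4,18369),(1,280)])) (.leaf false ⟨⟨-501,-116,168⟩,⟨-8,456,291⟩,⟨204,-267,424⟩⟩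 (22165,[(4,17753265),(1,11738),(0,14322)]) (88660,[(4,118511180),(1,252129),(0,99231)]) (22165,[(4,12961440),(1,31299),(0,36146)])))) (.node ⟨-525,84,100⟩ (.node ⟨420,0,-341⟩ (.leaf false ⟨⟨-341,0,-420⟩,⟨0,541,0⟩,⟨420,0,-341⟩⟩ (341,[(4,292681),(0,420)]) (1,[(3,541)]) (1,[(0,1)])) (.node ⟨-243,-84,-476⟩ (.node ⟨51,532,-84⟩ (.leaf false ⟨⟨-476,84,243⟩,⟨-252,-51,-476⟩,⟨51,532,-84⟩⟩ (15,[(4,2152),(2,17),(5,1260)]) (784,[(4,213103),(1,476),(2,195)]) (1,[(0,1)])) (.leaf false ⟨⟨-528,64,99⟩,⟨-116,-363,-384⟩,⟨-21,396,-368⟩⟩ (17,[(4,13101),(0,176),(5,94720)]) (51,[(4,29328),(0,116),(5,43199)]) (17,[(4,6844),(0,7),(5,10456)]))) (.leaf false ⟨⟨-525,84,100⟩,⟨-84,100,-525⟩,⟨100,525,84⟩⟩ (35,[(3,34984),(1,64),(0,35)]) (2940,[(3,4100533),(1,2613),(0,3500)]) (336,[(3,1358411),(1,1135),(0,2100)]))))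 (.leaf false ⟨⟨-512,-99,-144⟩,⟨-36,496,-213⟩,⟨171,-192,-476⟩⟩ (25,[(3,31700),(2,549),(0,36)]) (100,[(3,115425),(2,67492),(0,213)]) (25,[(3,58200),(2,5196),(0,119)])))) (.node ⟨0,0,1⟩ (.node ⟨84,100,525⟩ (.node ⟨100,-525,84⟩ (.leaf false ⟨⟨-525,-84,100⟩,⟨84,100,525⟩,⟨100,-525,84⟩⟩ (21,[(4,11361),(3,2164),(1,4)]) (1,[(1,1)]) (1,[(0,1)])) (.leaf false ⟨⟨-525,60,-116⟩,⟨-116,-435,300⟩,⟨-60,316,435⟩⟩ (45444,[(3,140110885),(1,32500),(0,265881)]) (3787,[(3,5745420),(1,3312),(0,7175)]) (3787,[(3,2184558),(1,4045),(0,5670)]))) (.node ⟨99,-528,64⟩ (.leaf false ⟨⟨-384,-116,-363⟩,⟨-368,-21,396⟩,⟨99,-528,64⟩⟩ (25,[(2,6150),(4,7164),(1,29)]) (100,[(2,50625),(4,35036),(1,21)]) (1,[(0,1)])) (.leaf false ⟨⟨-528,99,64⟩,⟨-116,-384,-363⟩,⟨-21,-368,396⟩⟩ (3,[(2,1216),(0,16),(3,8151)])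 (21,[(2,7602),(1,29),(3,5164)]) (4,[(2,2109),(1,1),(3,1372)])))) (.node ⟨-260,309,-360⟩ (.node ⟨-260,-360,309⟩ (.node ⟨-459,-60,280⟩ (.leaf false ⟨⟨-459,-60,280⟩,⟨-260,309,-360⟩,⟨-120,-440,-291⟩⟩ (1,[(0,1)]) (1,[(2,1)]) (13,[(3,5637),(1,6),(4,3560)])) (.leaf false ⟨⟨-440,-291,-120⟩,⟨-60,280,-459⟩,⟨309,-360,-260⟩⟩ (27420,[(5,24746407),(1,29560),(0,44373)]) (64920,[(2,50860),(5,9504829),(0,41031)]) (1371,[(5,638987),(1,1940),(0,3414)]))) (.leaf false ⟨⟨-528,-21,-116⟩,⟨64,396,-363⟩,⟨99,-368,-384⟩⟩ (309,[(4,193312),(3,48249),(0,116)]) (103,[(4,24868),(3,2772),(0,121)]) (103,[(4,23083),(3,83984),(0,128)]))) (.leaf false ⟨⟨-528,-116,-21⟩,⟨64,-363,396⟩,⟨99,-384,-368⟩⟩ (309,[(1,48249),(3,193312),(0,116)]) (103,[(1,2772),(3,24868),(0,121)]) (103,[(1,83984),(3,23083),(0,128)])))))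
theorem pf541_ok : pf541.check (ok 541 6 ⟨5, 5, 5⟩) (fun _ r => r) [] = true := by decide +kernel

def pf547 : T := .node ⟨1,0,0⟩ (.node ⟨0,1,0⟩ (.node ⟨0,0,1⟩ (.leaf false ⟨⟨0,0,547⟩,⟨0,547,0⟩,⟨547,0,0⟩⟩ (1,[(0,547)]) (1,[(1,547)]) (1,[(2,547)])) (.node ⟨-66,-33,-542⟩ (.leaf false ⟨⟨-66,-33,-542⟩,⟨-2,546,-33⟩,⟨543,-2,-66⟩⟩ (1,[(0,1)]) (542,[(3,1094),(2,297021),(0,33)]) (271,[(3,149331),(2,547),(0,33)])) (.node ⟨-126,513,142⟩ (.leaf false ⟨⟨-126,513,142⟩,⟨177,178,-486⟩,⟨502,66,207⟩⟩ (1,[(0,1)]) (513,[(2,274594),(4,113229),(0,178)]) (1,[(2,877),(4,370),(1,2)])) (.leaf false ⟨⟨18,529,138⟩,⟨138,-138,511⟩,⟨529,18,-138⟩⟩ (11,[(2,108),(1,3),(3,5720)]) (704,[(2,140368),(0,253),(1,989)]) (12672,[(2,50417200),(0,5423),(1,91215)]))))) (.node ⟨0,0,1⟩ (.node ⟨-66,-542,-33⟩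 (.leaf false ⟨⟨-66,-542,-33⟩,⟨-2,-33,546⟩,⟨543,-66,-2⟩⟩ (1,[(0,1)]) (542,[(1,297021),(3,1094),(0,33)]) (271,[(1,547),(3,149331),(0,33)])) (.node ⟨-126,142,513⟩ (.leaf false ⟨⟨-126,142,513⟩,⟨177,-486,178⟩,⟨502,207,66⟩⟩ (1,[(0,1)]) (513,[(4,113229),(3,274594),(0,178)]) (1,[(1,2),(4,370),(3,877)])) (.leaf false ⟨⟨18,138,529⟩,⟨138,511,-138⟩,⟨529,-138,18⟩⟩ (11,[(2,5720),(1,3),(3,108)]) (704,[(1,989),(0,253),(3,140368)]) (12672,[(1,91215),(0,5423),(3,50417200)])))) (.node ⟨-198,-506,-63⟩ (.node ⟨466,198,-207⟩ (.node ⟨-182,54,-513⟩ (.leaf false ⟨⟨-198,-63,-506⟩,⟨207,-506,-18⟩,⟨466,198,-207⟩⟩ (45054,[(4,2807734),(2,4741),(0,43857)]) (7,[(5,1845),(4,2530),(2,2)]) (1,[(1,1)])) (.leaf false ⟨⟨-198,-506,-63⟩,⟨207,-18,-506⟩,⟨466,-207,198⟩⟩ (1,[(2,1)]) (3400,[(3,3036686),(1,439),(0,2743)])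 (3499544,[(1,3356939),(0,3003030),(2,2424735)]))) (.leaf false ⟨⟨-497,-222,54⟩,⟨114,-353,-402⟩,⟨198,-354,367⟩⟩ (33,[(2,5877),(4,841),(0,37)]) (198,[(2,152667),(4,187070),(0,353)]) (33,[(2,102),(4,34028),(0,59)]))) (.node ⟨378,-335,210⟩ (.leaf false ⟨⟨70,-303,-450⟩,⟨222,430,-255⟩,⟨495,-150,178⟩⟩ (27,[(2,13200),(0,5),(3,6506)]) (33,[(2,10746),(1,37),(3,4532)]) (28622,[(2,2206459),(1,12125),(0,31130)])) (.leaf false ⟨⟨-474,-2,-273⟩,⟨178,-417,-306⟩,⟨207,354,-362⟩⟩ (141,[(1,29),(3,79276),(0,192)]) (2961,[(1,25508),(3,18150730),(0,11967)]) (1974,[(1,20034),(3,12591763),(0,9413)])))))) (.node ⟨0,1,0⟩ (.node ⟨0,0,1⟩ (.node ⟨-542,-66,-33⟩ (.leaf false ⟨⟨-542,-66,-33⟩,⟨-66,543,-2⟩,⟨-33,-2,546⟩⟩ (1,[(0,1)]) (271,[(1,547),(0,33),(2,149331)]) (542,[(1,297021),(0,33),(2,1094)]))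 (.node ⟨142,-126,513⟩ (.leaf false ⟨⟨-486,177,178⟩,⟨142,-126,513⟩,⟨207,502,66⟩⟩ (513,[(4,274594),(3,113229),(0,178)]) (1,[(0,1)]) (1,[(4,877),(3,370),(1,2)])) (.leaf false ⟨⟨-513,126,142⟩,⟨66,502,-207⟩,⟨178,177,486⟩⟩ (1,[(2,655),(4,371),(0,1)]) (4854,[(2,7415076),(0,16733),(1,4975)]) (22,[(2,8745),(4,28062),(1,59)])))) (.node ⟨-506,-198,-63⟩ (.node ⟨198,466,-207⟩ (.node ⟨54,-182,-513⟩ (.leaf false ⟨⟨-543,-54,-38⟩,⟨-38,513,-186⟩,⟨54,-182,-513⟩⟩ (63,[(2,38),(5,14981),(4,4122)]) (69,[(5,14898),(4,6505),(1,62)]) (1,[(0,1)])) (.leaf false ⟨⟨-513,-38,186⟩,⟨-182,-54,-513⟩,⟨-54,543,-38⟩⟩ (51392,[(3,8557170),(2,47709),(0,41173)]) (12848,[(3,6865866),(2,4505),(0,1089)]) (3400,[(3,3686342),(0,7371),(1,1083)]))) (.leaf false ⟨⟨-522,81,142⟩,⟨-159,-362,-378⟩,⟨-38,402,-369⟩⟩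 (11,[(2,4441),(0,29),(3,14405)]) (66,[(2,35919),(0,53),(3,806)]) (99,[(2,40464),(0,19),(3,48652)]))) (.node ⟨-335,378,210⟩ (.leaf false ⟨⟨-506,198,63⟩,⟨18,207,-506⟩,⟨207,466,198⟩⟩ (1,[(4,1012),(1,1)]) (22,[(2,12581),(4,11242),(1,23)]) (2961,[(4,778354),(0,1641),(1,3836)])) (.leaf false ⟨⟨-543,-54,-38⟩,⟨-38,513,-186⟩,⟨54,-182,-513⟩⟩ (987,[(4,697664),(1,168),(0,229)]) (658,[(4,4219503),(1,6594),(0,2561)]) (2961,[(4,18001330),(1,25949),(0,15018)]))))) (.node ⟨0,0,1⟩ (.node ⟨-506,-63,-198⟩ (.node ⟨198,-207,466⟩ (.node ⟨54,-513,-182⟩ (.leaf false ⟨⟨-543,-38,-54⟩,⟨-38,-186,513⟩,⟨54,-513,-182⟩⟩ (63,[(3,4122),(5,14981),(2,38)]) (69,[(3,6505),(5,14898),(1,62)]) (1,[(0,1)])) (.leaf false ⟨⟨-513,-126,142⟩,⟨-66,502,207⟩,⟨178,-177,486⟩⟩ (3499544,[(2,4514193),(1,2681093),(0,776682)])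 (51392,[(2,417),(4,4393210),(0,58905)]) (765,[(4,68832),(1,733),(0,166)]))) (.leaf false ⟨⟨-522,142,81⟩,⟨-159,-378,-362⟩,⟨-38,-369,402⟩⟩ (11,[(2,14405),(0,29),(3,4441)]) (66,[(2,806),(0,53),(3,35919)]) (99,[(2,48652),(0,19),(3,40464)]))) (.node ⟨-335,210,378⟩ (.leaf false ⟨⟨-506,18,207⟩,⟨63,-506,198⟩,⟨198,207,466⟩⟩ (42,[(4,13547),(3,4074),(0,23)]) (1,[(4,443),(3,569),(1,1)]) (2961,[(4,418606),(1,3269),(0,1938)])) (.leaf false ⟨⟨-543,-38,-54⟩,⟨-38,-186,513⟩,⟨54,-513,-182⟩⟩ (987,[(4,697664),(0,229),(1,168)]) (658,[(4,4219503),(0,2561),(1,6594)]) (2961,[(4,18001330),(0,15018),(1,25949)])))) (.node ⟨-33,66,-542⟩ (.node ⟨-542,-33,66⟩ (.node ⟨33,-546,-2⟩ (.leaf false ⟨⟨-542,-33,66⟩,⟨-66,-2,-543⟩,⟨33,-546,-2⟩⟩ (1,[(1,1)]) (33,[(3,18051),(5,1094),(1,2)]) (1,[(0,1)]))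 (.leaf false ⟨⟨-546,-2,33⟩,⟨-33,66,-542⟩,⟨-2,-543,-66⟩⟩ (11,[(3,1),(0,182),(4,99394)]) (1,[(3,544),(0,1),(4,480)]) (33,[(3,2182),(0,2),(4,19011)]))) (.leaf false ⟨⟨-546,-33,-2⟩,⟨-2,66,-543⟩,⟨33,-542,-66⟩⟩ (33,[(4,18560),(3,1122),(0,1)]) (22,[(4,98146),(3,4521),(0,181)]) (1,[(4,509),(3,575),(0,1)]))) (.leaf false ⟨⟨-546,-2,-33⟩,⟨-2,-543,66⟩,⟨33,-66,-542⟩⟩ (33,[(1,1631),(3,18051),(0,1)]) (22,[(1,96650),(3,6017),(0,181)]) (1,[(1,1084),(0,1)])))))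
theorem pf547_ok : pf547.check (ok 547 6 ⟨5, 5, 5⟩) (fun _ r => r) [] = true := by decide +kernel

def pf551 : T := .node ⟨1,0,0⟩ (.node ⟨0,1,0⟩ (.node ⟨0,0,1⟩ (.node ⟨-258,141,466⟩ (.node ⟨294,403,-234⟩ (.node ⟨429,-126,322⟩ (.leaf false ⟨⟨-182,354,381⟩,⟨294,403,-234⟩,⟨429,-126,322⟩⟩ (129,[(3,6743),(4,32835),(2,91)]) (1,[(1,1)]) (1,[(0,1)])) (.leaf false ⟨⟨-522,174,-29⟩,⟨106,237,-486⟩,⟨141,466,258⟩⟩ (21,[(3,8729),(5,1479),(0,29)]) (42,[(3,5026),(5,38343),(0,79)]) (63,[(3,91280),(5,108840),(0,233)]))) (.leaf false ⟨⟨-426,18,349⟩,⟨106,531,102⟩,⟨333,-146,414⟩⟩ (234,[(4,2922),(3,144859),(0,349)]) (39,[(4,9132),(3,27560),(0,17)]) (13,[(4,11091),(3,7371),(0,23)]))) (.leaf false ⟨⟨42,546,61⟩,⟨291,-74,462⟩,⟨466,-3,-294⟩⟩ (43,[(1,5885),(0,7),(2,24465)]) (86,[(1,84934),(0,97),(2,7313)])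 (129,[(1,70652),(0,233),(2,32466)]))) (.node ⟨538,66,99⟩ (.node ⟨-66,538,99⟩ (.leaf false ⟨⟨-66,538,99⟩,⟨-6,99,-542⟩,⟨547,66,6⟩⟩ (1,[(0,1)]) (538,[(2,301397),(4,3306),(0,99)]) (1,[(2,93),(4,9),(1,1)])) (.node ⟨538,-66,99⟩ (.leaf false ⟨⟨66,547,6⟩,⟨99,-6,-542⟩,⟨538,-66,99⟩⟩ (269,[(3,1653),(0,33),(4,149321)]) (2,[(3,787),(1,3),(4,1602)]) (1,[(0,1)])) (.leaf false ⟨⟨-531,-18,-146⟩,⟨102,349,-414⟩,⟨106,-426,-333⟩⟩ (1973268,[(1,857307),(2,2198711),(0,4251476)]) (73084,[(1,284570),(2,1342541),(0,1363595)]) (18271,[(1,57948),(2,175462),(0,178971)])))) (.leaf false ⟨⟨-515,126,-150⟩,⟨126,-110,-525⟩,⟨150,525,-74⟩⟩ (33,[(3,9905),(2,7458),(0,50)]) (33,[(3,98308),(2,7920),(0,175)]) (99,[(3,54662),(2,56859),(0,74)])))) (.node ⟨0,0,1⟩ (.node ⟨538,99,66⟩ (.node ⟨-66,99,538⟩ (.leaf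 false ⟨⟨-66,-6,547⟩,⟨99,-542,6⟩,⟨538,99,66⟩⟩ (538,[(4,594),(3,57381),(0,547)]) (11,[(1,1),(4,551),(3,6061)]) (1,[(1,1)])) (.node ⟨538,99,-66⟩ (.leaf false ⟨⟨66,6,547⟩,⟨99,-542,-6⟩,⟨538,99,-66⟩⟩ (269,[(3,149321),(0,33),(4,1653)]) (2,[(3,1602),(1,3),(4,787)]) (1,[(0,1)])) (.leaf false ⟨⟨-531,-146,-18⟩,⟨102,-414,349⟩,⟨106,-333,-426⟩⟩ (1973268,[(2,2198711),(1,857307),(0,4251476)]) (73084,[(2,1342541),(1,284570),(0,1363595)]) (18271,[(2,175462),(1,57948),(0,178971)])))) (.leaf false ⟨⟨-515,-150,126⟩,⟨126,-525,-110⟩,⟨150,-74,525⟩⟩ (33,[(1,7458),(3,9905),(0,50)]) (33,[(1,7920),(3,98308),(0,175)]) (99,[(1,56859),(3,54662),(0,74)]))) (.node ⟨-380,-399,0⟩ (.leaf false ⟨⟨-380,-399,0⟩,⟨0,0,-551⟩,⟨399,-380,0⟩⟩ (1,[(0,1)]) (1,[(1,551)]) (21,[(3,15979),(0,20)])) (.node ⟨466,258,141⟩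 (.node ⟨-3,-74,-546⟩ (.leaf false ⟨⟨-3,-74,-546⟩,⟨294,-462,61⟩,⟨466,291,-42⟩⟩ (1,[(0,1)]) (233,[(3,6514),(1,147),(4,145572)]) (190,[(3,7980),(2,233),(4,37677)])) (.leaf false ⟨⟨3,-74,546⟩,⟨294,462,61⟩,⟨466,-291,-42⟩⟩ (1,[(0,1),(4,148)]) (1,[(3,53447),(0,98),(4,6790)]) (3,[(3,254562),(0,466),(4,35357)]))) (.leaf false ⟨⟨-477,-146,-234⟩,⟨174,-522,-29⟩,⟨214,99,-498⟩⟩ (17860,[(1,13929),(3,518111),(0,29640)]) (13395,[(1,9512),(3,10076688),(0,2755)]) (8930,[(1,43707),(3,8417703),(0,31540)])))))) (.node ⟨0,1,0⟩ (.node ⟨0,0,1⟩ (.node ⟨99,66,538⟩ (.node ⟨99,538,-66⟩ (.leaf false ⟨⟨-542,6,99⟩,⟨-6,547,-66⟩,⟨99,66,538⟩⟩ (11,[(2,551),(4,6061),(1,1)]) (538,[(2,594),(4,57381),(0,547)]) (1,[(1,1)])) (.node ⟨99,-66,538⟩ (.leaf false ⟨⟨-542,-6,99⟩,⟨6,547,66⟩,⟨99,-66,538⟩⟩ (2,[(5,787),(4,1602),(1,3)])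 (269,[(5,1653),(4,149321),(0,33)]) (1,[(0,1)])) (.leaf false ⟨⟨-546,61,-42⟩,⟨-74,-462,291⟩,⟨-3,294,466⟩⟩ (657756,[(2,13066181),(1,3185490),(0,13508315)]) (1973268,[(2,2717849),(1,2264493),(0,1928324)]) (164439,[(2,964588),(1,131307),(0,838264)])))) (.leaf false ⟨⟨-542,-99,6⟩,⟨-99,538,-66⟩,⟨-6,66,547⟩⟩ (99,[(1,292190),(0,542),(2,25971)]) (1,[(1,472),(0,1),(2,604)]) (33,[(1,19127),(0,2),(2,2310)]))) (.node ⟨0,-380,-399⟩ (.leaf false ⟨⟨-551,0,0⟩,⟨0,-380,-399⟩,⟨0,399,-380⟩⟩ (1,[(3,551)]) (1,[(0,1)]) (21,[(0,20),(2,15979)])) (.node ⟨141,466,258⟩ (.node ⟨-546,-3,-74⟩ (.leaf false ⟨⟨-546,-3,-74⟩,⟨-42,466,291⟩,⟨61,294,-462⟩⟩ (1,[(0,1)]) (190,[(3,37677),(5,7980),(2,233)]) (233,[(3,145572),(5,6514),(1,147)])) (.leaf false ⟨⟨-542,6,99⟩,⟨-6,547,-66⟩,⟨99,66,538⟩⟩ (1,[(3,49),(5,1634),(0,2)])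 (3,[(3,40676),(5,298680),(0,547)]) (1,[(3,1090),(5,11913),(0,22)]))) (.leaf false ⟨⟨-546,-42,61⟩,⟨-74,291,-462⟩,⟨-3,466,294⟩⟩ (8930,[(2,7059811),(0,34580),(1,41419)]) (10716,[(2,9525897),(0,5624),(1,15103)]) (4465,[(2,893988),(0,95),(1,5592)]))))) (.node ⟨0,0,1⟩ (.node ⟨0,-399,-380⟩ (.leaf false ⟨⟨-551,0,0⟩,⟨0,-399,-380⟩,⟨0,-380,399⟩⟩ (1,[(3,551)]) (1,[(0,1)]) (21,[(1,15979),(0,20)])) (.node ⟨141,258,466⟩ (.node ⟨-546,-74,-3⟩ (.leaf false ⟨⟨-546,-74,-3⟩,⟨-42,291,466⟩,⟨61,-462,294⟩⟩ (1,[(0,1)]) (190,[(2,233),(5,7980),(4,37677)]) (233,[(5,6514),(4,145572),(1,147)])) (.leaf false ⟨⟨-542,-6,99⟩,⟨6,547,66⟩,⟨99,-66,538⟩⟩ (1,[(5,18560),(4,2448),(0,33)]) (1,[(5,12006),(4,1081),(0,22)]) (3,[(5,293451),(4,40010),(0,538)]))) (.leaf false ⟨⟨-546,61,-42⟩,⟨-74,-462,291⟩,⟨-3,294,466⟩⟩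 (8930,[(1,41419),(0,34580),(3,7059811)]) (10716,[(1,15103),(0,5624),(3,9525897)]) (4465,[(1,5592),(0,95),(3,893988)])))) (.leaf false ⟨⟨-551,0,0⟩,⟨0,-551,0⟩,⟨0,0,-551⟩⟩ (1,[(2,551)]) (1,[(1,551)]) (1,[(0,551)]))))
theorem pf551_ok : pf551.check (ok 551 6 ⟨5, 5, 5⟩) (fun _ r => r) [] = true := by decide +kernel

def pf557 : T := .node ⟨1,0,0⟩ (.node ⟨0,1,0⟩ (.node ⟨0,0,1⟩ (.node ⟨-243,208,456⟩ (.node ⟨456,208,-243⟩ (.node ⟨453,-188,264⟩ (.node ⟨-288,397,264⟩ (.leaf false ⟨⟨-288,397,264⟩,⟨316,-72,453⟩,⟨357,384,-188⟩⟩ (1,[(0,1)]) (47,[(4,16539),(1,18),(6,6698)]) (152,[(4,341),(2,119),(5,33616)])) (.leaf false ⟨⟨-219,208,468⟩,⟨208,-429,288⟩,⟨468,288,91⟩⟩ (1866,[(5,96269),(3,2138),(0,385)]) (2799,[(5,331073),(3,5744),(0,6868)]) (7464,[(5,9077605),(3,16640),(0,26169)])))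 (.leaf false ⟨⟨-512,219,12⟩,⟨141,352,-408⟩,⟨168,372,379⟩⟩ (188,[(3,60072),(5,2951),(0,219)]) (47,[(3,4056),(5,46491),(0,88)]) (47,[(3,42365),(5,50025),(0,93)]))) (.leaf false ⟨⟨-468,91,288⟩,⟨208,-288,429⟩,⟨219,468,208⟩⟩ (27,[(4,1956),(3,9113),(0,32)]) (81,[(4,82056),(3,6416),(0,143)]) (243,[(4,148065),(3,156988),(0,208)]))) (.leaf false ⟨⟨27,208,516⟩,⟨252,456,-197⟩,⟨496,-243,72⟩⟩ (9,[(1,5100),(0,1),(2,2080)]) (27,[(1,7449),(0,28),(2,18136)]) (243,[(1,243672),(0,496),(2,44119)]))) (.node ⟨-165,532,0⟩ (.leaf false ⟨⟨-165,532,0⟩,⟨0,0,-557⟩,⟨532,165,0⟩⟩ (1,[(0,1)]) (1,[(1,557)]) (532,[(3,310249),(0,165)])) (.leaf false ⟨⟨0,0,-557⟩,⟨165,532,0⟩,⟨532,-165,0⟩⟩ (1,[(1,557)]) (1,[(0,1),(2,1064)]) (165,[(0,532),(2,255799)])))) (.node ⟨0,0,1⟩ (.node ⟨-165,0,532⟩ (.leaf false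 ⟨⟨-165,0,532⟩,⟨0,-557,0⟩,⟨532,0,165⟩⟩ (1,[(0,1)]) (1,[(2,557)]) (532,[(3,310249),(0,165)])) (.leaf false ⟨⟨0,-557,0⟩,⟨165,0,532⟩,⟨532,0,-165⟩⟩ (1,[(2,557)]) (1,[(1,1064),(0,1)]) (165,[(1,255799),(0,532)]))) (.node ⟨69,72,-548⟩ (.node ⟨19,-552,72⟩ (.node ⟨483,252,-116⟩ (.node ⟨-69,-72,-548⟩ (.leaf false ⟨⟨-69,-72,-548⟩,⟨28,-552,69⟩,⟨552,19,-72⟩⟩ (1,[(0,1)]) (24,[(6,235),(2,23),(5,552)]) (29,[(1,18),(6,7314),(5,3985)])) (.leaf false ⟨⟨0,-557,0⟩,⟨165,0,532⟩,⟨532,0,-165⟩⟩ (1,[(5,557)]) (23,[(4,17904),(0,55),(5,3960)]) (69,[(4,302921),(0,532),(5,38304)]))) (.leaf false ⟨⟨-476,-288,27⟩,⟨27,-96,-548⟩,⟨288,-467,96⟩⟩ (3604,[(2,739),(5,324895),(0,4330)]) (2703,[(2,3109),(5,784854),(0,1918)]) (32436,[(2,7495),(5,38891646),(0,62251)]))) (.leaf false ⟨⟨-132,-48,-539⟩,⟨352,-429,-48⟩,⟨411,352,-132⟩⟩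 (72,[(4,737),(3,300984),(0,539)]) (3,[(4,1094),(3,2391),(0,2)]) (6,[(4,2675),(3,3960),(0,11)]))) (.leaf false ⟨⟨-324,-408,-197⟩,⟨-8,-237,504⟩,⟨453,-296,-132⟩⟩ (3,[(1,9907),(3,201),(0,17)]) (24,[(1,31196),(3,5259),(0,79)]) (9,[(1,21464),(3,6630),(0,37)]))))) (.node ⟨0,1,0⟩ (.node ⟨0,0,1⟩ (.node ⟨0,-165,532⟩ (.leaf false ⟨⟨-557,0,0⟩,⟨0,-165,532⟩,⟨0,532,165⟩⟩ (1,[(3,557)]) (1,[(0,1)]) (532,[(0,165),(2,310249)])) (.leaf false ⟨⟨-557,0,0⟩,⟨0,165,532⟩,⟨0,532,-165⟩⟩ (1,[(3,557)]) (1,[(1,1064),(0,1)]) (165,[(1,255799),(0,532)]))) (.node ⟨19,552,72⟩ (.node ⟨72,69,-548⟩ (.leaf false ⟨⟨-552,28,-69⟩,⟨19,552,72⟩,⟨72,69,-548⟩⟩ (138,[(2,10026),(4,76309),(1,7)]) (1,[(1,1)]) (1,[(0,1)])) (.leaf false ⟨⟨-552,28,69⟩,⟨-72,-69,-548⟩,⟨19,552,-72⟩⟩ (69,[(2,300727),(0,548),(1,72)])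 (1,[(2,1096),(0,1)]) (1,[(2,144),(1,1)]))) (.node ⟨-540,-93,100⟩ (.leaf false ⟨⟨-548,-36,93⟩,⟨-93,372,-404⟩,⟨-36,-413,-372⟩⟩ (135,[(2,1145),(0,137),(3,7881)]) (19,[(2,980),(1,93),(3,58404)]) (19,[(2,4476),(1,36),(3,12025)])) (.leaf false ⟨⟨-552,19,-72⟩,⟨28,552,-69⟩,⟨69,-72,-548⟩⟩ (1,[(1,1),(4,533),(3,571)]) (100,[(4,34460),(3,48783),(0,69)]) (2039,[(1,14451),(3,7758627),(0,769)]))))) (.node ⟨0,0,1⟩ (.node ⟨19,72,552⟩ (.node ⟨72,-548,69⟩ (.leaf false ⟨⟨-552,-69,28⟩,⟨19,72,552⟩,⟨72,-548,69⟩⟩ (138,[(4,76309),(3,10026),(1,7)]) (1,[(1,1)]) (1,[(0,1)])) (.leaf false ⟨⟨-552,69,28⟩,⟨-72,-548,-69⟩,⟨19,-72,552⟩⟩ (69,[(3,300727),(1,72),(0,548)]) (1,[(3,1096),(0,1)]) (1,[(3,144),(1,1)]))) (.node ⟨-540,100,-93⟩ (.leaf false ⟨⟨-548,93,-36⟩,⟨-93,-404,372⟩,⟨-36,-372,-413⟩⟩ (135,[(2,7881),(0,137),(3,1145)])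 (19,[(2,58404),(1,93),(3,980)]) (19,[(2,12025),(1,36),(3,4476)])) (.leaf false ⟨⟨-552,-72,19⟩,⟨28,-69,552⟩,⟨69,-548,-72⟩⟩ (1,[(2,571),(4,533),(1,1)]) (100,[(2,48783),(4,34460),(0,69)]) (2039,[(2,7758627),(1,14451),(0,769)])))) (.leaf false ⟨⟨-557,0,0⟩,⟨0,-557,0⟩,⟨0,0,-557⟩⟩ (1,[(2,557)]) (1,[(1,557)]) (1,[(0,557)]))))
theorem pf557_ok : pf557.check (ok 557 6 ⟨5, 5, 5⟩) (fun _ r => r) [] = true := by decide +kernel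

def pf563 : T := .node ⟨1,0,0⟩ (.node ⟨0,1,0⟩ (.node ⟨0,0,1⟩ (.node ⟨-270,175,462⟩ (.node ⟨342,337,-294⟩ (.node ⟨447,-246,238⟩ (.leaf false ⟨⟨-14,378,417⟩,⟨342,337,-294⟩,⟨447,-246,238⟩⟩ (154,[(5,35374),(4,33887),(2,139)]) (1,[(1,1)]) (1,[(0,1)])) (.leaf false ⟨⟨-462,321,22⟩,⟨42,22,561⟩,⟨319,462,-42⟩⟩ (82,[(3,27270),(5,9945),(0,107)]) (123,[(3,71621),(5,10083),(0,11)]) (41,[(3,16604),(5,47498),(0,77)]))) (.leaf false ⟨⟨-342,337,294⟩,⟨-14,-378,417⟩,⟨447,246,238⟩⟩ (1,[(3,674),(0,1)]) (98,[(4,46166),(3,9799),(0,139)]) (21,[(4,15201),(3,10895),(0,17)]))) (.leaf false ⟨⟨22,561,42⟩,⟨321,22,-462⟩,⟨462,-42,319⟩⟩ (135,[(1,10752),(0,11),(2,77660)]) (90,[(1,7854),(0,107),(2,20705)]) (45,[(1,49929),(0,77),(2,11585)]))) (.node ⟨526,33,198⟩ (.node ⟨-33,526,198⟩ (.leaf false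 ⟨⟨-33,526,198⟩,⟨-6,198,-527⟩,⟨562,33,6⟩⟩ (1,[(0,1)]) (263,[(2,158203),(4,1689),(0,99)]) (1,[(2,192),(4,36),(1,1)])) (.leaf false ⟨⟨42,22,-561⟩,⟨319,462,42⟩,⟨462,-321,22⟩⟩ (11,[(2,3399),(0,14),(3,7606)]) (526,[(2,41070),(1,319),(3,232485)]) (5031,[(0,3632),(1,4191),(3,157178)]))) (.leaf false ⟨⟨-450,15,-338⟩,⟨30,562,-15⟩,⟨337,-30,-450⟩⟩ (99,[(3,44344),(2,7062),(0,169)]) (66,[(3,4610),(2,37257),(0,5)]) (11,[(3,16857),(2,495),(0,25)])))) (.node ⟨0,0,1⟩ (.node ⟨526,198,33⟩ (.node ⟨-33,198,526⟩ (.leaf false ⟨⟨-33,-6,562⟩,⟨198,-527,6⟩,⟨526,198,33⟩⟩ (263,[(4,594),(3,57216),(0,281)]) (11,[(1,2),(4,1126),(3,6193)]) (1,[(1,1)])) (.leaf false ⟨⟨42,-561,22⟩,⟨319,42,462⟩,⟨462,22,-321⟩⟩ (11,[(2,7606),(0,14),(3,3399)]) (526,[(2,232485),(1,319),(3,41070)]) (5031,[(2,157178),(1,4191),(0,3632)])))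 (.leaf false ⟨⟨-450,-338,15⟩,⟨30,-15,562⟩,⟨337,-450,-30⟩⟩ (99,[(1,7062),(3,44344),(0,169)]) (66,[(1,37257),(3,4610),(0,5)]) (11,[(1,495),(3,16857),(0,25)]))) (.node ⟨-122,-546,-63⟩ (.node ⟨-122,63,-546⟩ (.node ⟨546,78,-113⟩ (.leaf false ⟨⟨-122,63,-546⟩,⟨63,-554,-78⟩,⟨546,78,-113⟩⟩ (1,[(1,1)]) (7,[(5,563),(4,3941),(1,1)]) (1,[(0,1)])) (.leaf false ⟨⟨-510,-113,-210⟩,⟨15,-510,238⟩,⟨238,-210,-465⟩⟩ (35469,[(5,26377676),(0,74928),(1,29149)]) (11823,[(5,49716841),(0,87822),(1,13022)]) (11823,[(5,31453684),(0,47985),(1,20000)]))) (.node ⟨-30,-450,337⟩ (.leaf false ⟨⟨-30,-450,337⟩,⟨15,-338,-450⟩,⟨562,-15,30⟩⟩ (1,[(0,1)]) (21,[(3,8631),(5,1901),(2,13)]) (21,[(3,2100),(5,11192),(1,5)])) (.leaf false ⟨⟨-122,-546,-63⟩,⟨-63,78,-554⟩,⟨546,-113,-78⟩⟩ (1,[(2,1)]) (2528092,[(1,1535864),(2,4278527),(0,5844503)])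 (1896069,[(1,30952051),(2,33371629),(0,44348073)])))) (.leaf false ⟨⟨42,22,-561⟩,⟨319,462,42⟩,⟨462,-321,22⟩⟩ (61,[(1,35544),(0,21),(2,10124)]) (122,[(1,14973),(0,319),(2,117810)]) (61,[(1,13211),(0,231),(2,145707)]))))) (.node ⟨0,1,0⟩ (.node ⟨0,0,1⟩ (.node ⟨198,33,526⟩ (.node ⟨198,526,-33⟩ (.leaf false ⟨⟨-527,6,198⟩,⟨-6,562,-33⟩,⟨198,33,526⟩⟩ (11,[(2,1126),(4,6193),(1,2)]) (263,[(2,594),(4,57216),(0,281)]) (1,[(1,1)])) (.leaf false ⟨⟨-561,22,42⟩,⟨22,-321,462⟩,⟨42,462,319⟩⟩ (11,[(4,3399),(3,7606),(0,14)]) (5031,[(3,157178),(1,4191),(0,3632)]) (526,[(4,41070),(3,232485),(1,319)]))) (.leaf false ⟨⟨-527,6,-198⟩,⟨-198,-33,526⟩,⟨-6,562,33⟩⟩ (198,[(1,237998),(0,527),(2,18579)]) (1,[(1,1052),(0,1)]) (33,[(1,1615),(0,1),(2,18579)]))) (.node ⟨-63,-122,-546⟩ (.node ⟨-546,-122,63⟩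 (.node ⟨-113,546,78⟩ (.leaf false ⟨⟨-546,-122,63⟩,⟨-113,546,78⟩,⟨-78,63,-554⟩⟩ (1,[(1,1)]) (1,[(0,1)]) (7,[(3,3941),(1,1),(4,563)])) (.leaf false ⟨⟨-561,-42,22⟩,⟨-42,319,-462⟩,⟨22,-462,-321⟩⟩ (5067,[(1,5896),(4,2326316),(0,3333)]) (1689,[(1,2642),(4,7488463),(0,12138)]) (11823,[(1,11519),(4,27589252),(0,57960)]))) (.node ⟨337,-30,-450⟩ (.leaf false ⟨⟨-450,15,-338⟩,⟨30,562,-15⟩,⟨337,-30,-450⟩⟩ (21,[(2,13),(5,8631),(4,1901)]) (21,[(5,2100),(4,11192),(1,5)]) (1,[(0,1)])) (.leaf false ⟨⟨-561,42,22⟩,⟨22,462,-321⟩,⟨42,319,462⟩⟩ (1896069,[(2,10005505),(0,13268094),(1,7395604)]) (632023,[(2,10075906),(0,13070330),(1,9255289)]) (361156,[(2,2031343),(0,3143847),(1,2202600)])))) (.leaf false ⟨⟨-561,42,22⟩,⟨22,462,-321⟩,⟨42,319,462⟩⟩ (61,[(1,10124),(3,35544),(0,21)]) (61,[(1,145707),(3,13211),(0,231)])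 (122,[(1,117810),(3,14973),(0,319)])))) (.node ⟨0,0,1⟩ (.node ⟨-63,-546,-122⟩ (.node ⟨-546,63,-122⟩ (.node ⟨-113,78,546⟩ (.leaf false ⟨⟨-546,63,-122⟩,⟨-113,78,546⟩,⟨-78,-554,63⟩⟩ (1,[(1,1)]) (1,[(0,1)]) (7,[(3,563),(1,1),(4,3941)])) (.leaf false ⟨⟨-561,22,-42⟩,⟨-42,-462,319⟩,⟨22,-321,-462⟩⟩ (5067,[(3,2326316),(1,5896),(0,3333)]) (1689,[(3,7488463),(1,2642),(0,12138)]) (11823,[(3,27589252),(1,11519),(0,57960)]))) (.node ⟨337,-450,-30⟩ (.leaf false ⟨⟨-450,-338,15⟩,⟨30,-15,562⟩,⟨337,-450,-30⟩⟩ (21,[(3,1901),(5,8631),(2,13)]) (21,[(3,11192),(5,2100),(1,5)]) (1,[(0,1)])) (.leaf false ⟨⟨-561,22,42⟩,⟨22,-321,462⟩,⟨42,462,319⟩⟩ (1896069,[(2,10005505),(1,7395604),(0,13268094)]) (632023,[(2,10075906),(1,9255289),(0,13070330)]) (361156,[(2,2031343),(1,2202600),(0,3143847)]))))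 (.leaf false ⟨⟨-561,22,42⟩,⟨22,-321,462⟩,⟨42,462,319⟩⟩ (61,[(3,35544),(2,10124),(0,21)]) (61,[(3,13211),(2,145707),(0,231)]) (122,[(3,14973),(2,117810),(0,319)]))) (.leaf false ⟨⟨-563,0,0⟩,⟨0,-563,0⟩,⟨0,0,-563⟩⟩ (1,[(2,563)]) (1,[(1,563)]) (1,[(0,563)]))))
theorem pf563_ok : pf563.check (ok 563 6 ⟨5, 5, 5⟩) (fun _ r => r) [] = true := by decide +kernel

def pf569 : T := .node ⟨1,0,0⟩ (.node ⟨0,1,0⟩ (.node ⟨0,0,1⟩ (.node ⟨-297,196,444⟩ (.node ⟨207,504,-164⟩ (.node ⟨468,-164,279⟩ (.leaf false ⟨⟨-216,207,484⟩,⟨241,504,-108⟩,⟨468,-164,279⟩⟩ (11,[(3,1772),(4,709),(2,8)]) (1,[(3,56),(5,34),(1,1)]) (1,[(0,1)])) (.leaf false ⟨⟨-524,192,-111⟩,⟨-87,84,556⟩,⟨204,529,-48⟩⟩ (41,[(3,8841),(5,980),(0,48)]) (41,[(3,28655),(5,6261),(0,21)]) (164,[(3,139719),(5,281028),(0,529)])))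 (.leaf false ⟨⟨-416,-111,372⟩,⟨273,304,396⟩,⟨276,-468,169⟩⟩ (41,[(4,2195),(3,42321),(0,93)]) (41,[(4,31686),(3,62360),(0,99)]) (164,[(4,80247),(3,8424),(0,169)]))) (.leaf false ⟨⟨15,556,120⟩,⟨340,-105,444⟩,⟨456,60,-335⟩⟩ (99,[(1,14100),(0,5),(2,56024)]) (297,[(1,282828),(0,340),(2,35455)]) (99,[(1,34323),(0,152),(2,35732)]))) (.node ⟨-231,520,0⟩ (.leaf false ⟨⟨-231,520,0⟩,⟨0,0,-569⟩,⟨520,231,0⟩⟩ (1,[(0,1)]) (1,[(1,569)]) (520,[(3,323761),(0,231)])) (.leaf false ⟨⟨0,0,-569⟩,⟨231,520,0⟩,⟨520,-231,0⟩⟩ (1,[(1,569)]) (1,[(0,1),(2,1040)]) (231,[(0,520),(2,217039)])))) (.node ⟨0,0,1⟩ (.node ⟨-231,0,520⟩ (.leaf false ⟨⟨-231,0,520⟩,⟨0,-569,0⟩,⟨520,0,231⟩⟩ (1,[(0,1)]) (1,[(2,569)]) (520,[(3,323761),(0,231)])) (.leaf false ⟨⟨0,-569,0⟩,⟨231,0,520⟩,⟨520,0,-231⟩⟩ (1,[(2,569)])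 (1,[(1,1040),(0,1)]) (231,[(1,217039),(0,520)]))) (.node ⟨540,-60,169⟩ (.node ⟨-60,-560,-81⟩ (.node ⟨169,60,-540⟩ (.leaf false ⟨⟨-60,-560,-81⟩,⟨169,60,-540⟩,⟨540,-81,160⟩⟩ (1,[(1,1)]) (1,[(0,1)]) (1,[(3,9),(2,1),(4,21)])) (.leaf false ⟨⟨-528,-209,-36⟩,⟨81,-288,484⟩,⟨196,-444,-297⟩⟩ (60,[(3,115020),(5,3641),(0,209)]) (5,[(3,10540),(5,4461),(0,24)]) (5,[(3,21465),(5,7233),(0,37)]))) (.leaf false ⟨⟨0,0,-569⟩,⟨231,520,0⟩,⟨520,-231,0⟩⟩ (1,[(2,569)]) (20,[(2,6237),(0,77),(3,32720)]) (3,[(2,2106),(0,26),(3,15253)]))) (.leaf false ⟨⟨-396,-36,-407⟩,⟨88,-561,-36⟩,⟨399,88,-396⟩⟩ (169,[(3,152856),(2,30504),(0,407)]) (169,[(3,34312),(2,96969),(0,36)]) (169,[(3,281271),(2,8888),(0,396)]))))) (.node ⟨0,1,0⟩ (.node ⟨0,0,1⟩ (.node ⟨0,-231,520⟩ (.leaf false ⟨⟨-569,0,0⟩,⟨0,-231,520⟩,⟨0,520,231⟩⟩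 (1,[(3,569)]) (1,[(0,1)]) (520,[(0,231),(2,323761)])) (.leaf false ⟨⟨-569,0,0⟩,⟨0,231,520⟩,⟨0,520,-231⟩⟩ (1,[(3,569)]) (1,[(1,1040),(0,1)]) (231,[(1,217039),(0,520)]))) (.node ⟨-60,540,169⟩ (.node ⟨-560,-60,-81⟩ (.node ⟨60,169,-540⟩ (.leaf false ⟨⟨-560,-60,-81⟩,⟨-81,540,160⟩,⟨60,169,-540⟩⟩ (1,[(1,1)]) (1,[(3,9),(5,21),(2,1)]) (1,[(0,1)])) (.leaf false ⟨⟨-561,-92,-24⟩,⟨-92,489,276⟩,⟨-24,276,-497⟩⟩ (20,[(3,101460),(0,187),(4,29763)]) (15,[(3,8280),(0,23),(4,11222)]) (5,[(3,3565),(0,2),(4,1718)]))) (.leaf false ⟨⟨-561,88,36⟩,⟨36,396,-407⟩,⟨88,399,396⟩⟩ (15,[(2,1242),(4,20735),(0,22)]) (5,[(2,4708),(4,18300),(0,33)]) (20,[(2,2853),(4,72720),(0,133)]))) (.leaf false ⟨⟨-561,88,-36⟩,⟨-36,-396,-407⟩,⟨88,399,-396⟩⟩ (169,[(3,96969),(2,34312),(0,36)]) (169,[(3,30504),(2,152856),(0,407)])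 (169,[(3,8888),(2,281271),(0,396)])))) (.node ⟨0,0,1⟩ (.node ⟨-60,169,540⟩ (.node ⟨-560,-81,-60⟩ (.node ⟨60,-540,169⟩ (.leaf false ⟨⟨-560,-81,-60⟩,⟨-81,160,540⟩,⟨60,-540,169⟩⟩ (1,[(1,1)]) (1,[(2,1),(5,21),(4,9)]) (1,[(0,1)])) (.leaf false ⟨⟨-561,-24,-92⟩,⟨-92,276,489⟩,⟨-24,-497,276⟩⟩ (20,[(3,29763),(0,187),(4,101460)]) (15,[(3,11222),(0,23),(4,8280)]) (5,[(3,1718),(0,2),(4,3565)]))) (.leaf false ⟨⟨-561,36,88⟩,⟨36,-407,396⟩,⟨88,396,399⟩⟩ (15,[(4,20735),(3,1242),(0,22)]) (5,[(4,18300),(3,4708),(0,33)]) (20,[(4,72720),(3,2853),(0,133)]))) (.leaf false ⟨⟨-561,-36,88⟩,⟨-36,-407,-396⟩,⟨88,-396,399⟩⟩ (169,[(1,34312),(3,96969),(0,36)]) (169,[(1,152856),(3,30504),(0,407)]) (169,[(1,281271),(3,8888),(0,396)]))) (.leaf false ⟨⟨-569,0,0⟩,⟨0,-569,0⟩,⟨0,0,-569⟩⟩ (1,[(2,569)])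 (1,[(1,569)]) (1,[(0,569)]))))
theorem pf569_ok : pf569.check (ok 569 6 ⟨5, 5, 5⟩) (fun _ r => r) [] = true := by decide +kernel

def pf571 : T := .node ⟨1,0,0⟩ (.node ⟨0,1,0⟩ (.node ⟨0,0,1⟩ (.leaf false ⟨⟨0,0,571⟩,⟨0,571,0⟩,⟨571,0,0⟩⟩ (1,[(0,571)]) (1,[(1,571)]) (1,[(2,571)])) (.node ⟨454,201,282⟩ (.node ⟨327,-194,-426⟩ (.node ⟨-114,471,-302⟩ (.leaf false ⟨⟨-114,471,-302⟩,⟨327,-194,-426⟩,⟨454,258,231⟩⟩ (1,[(0,1)]) (1,[(1,1)]) (1,[(3,51),(2,1),(4,57)])) (.leaf false ⟨⟨6,537,-194⟩,⟨238,174,489⟩,⟨519,-86,-222⟩⟩ (19,[(3,3988),(0,1),(4,10674)]) (57,[(3,8065),(0,119),(4,65967)]) (38,[(3,60682),(0,173),(4,78215)]))) (.leaf false ⟨⟨-471,310,-90⟩,⟨90,279,490⟩,⟨310,390,-279⟩⟩ (97,[(2,74760),(4,4998),(0,155)]) (194,[(2,23794),(4,108693),(0,279)]) (97,[(2,110133),(4,93835),(0,195)])))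 (.leaf false ⟨⟨-482,9,-306⟩,⟨126,526,-183⟩,⟨279,-222,-446⟩⟩ (47,[(3,500),(2,10674),(0,51)]) (94,[(3,39538),(2,61705),(0,61)]) (141,[(3,140581),(2,13521),(0,223)])))) (.node ⟨0,0,1⟩ (.node ⟨454,282,201⟩ (.node ⟨327,-426,-194⟩ (.node ⟨-114,-302,471⟩ (.leaf false ⟨⟨-114,-302,471⟩,⟨327,-426,-194⟩,⟨454,231,258⟩⟩ (1,[(0,1)]) (1,[(1,1)]) (1,[(3,57),(2,1),(4,51)])) (.leaf false ⟨⟨6,-194,537⟩,⟨238,489,174⟩,⟨519,-222,-86⟩⟩ (19,[(3,10674),(0,1),(4,3988)]) (57,[(3,65967),(0,119),(4,8065)]) (38,[(3,78215),(0,173),(4,60682)]))) (.leaf false ⟨⟨-471,-90,310⟩,⟨90,490,279⟩,⟨310,-279,390⟩⟩ (97,[(4,4998),(3,74760),(0,155)]) (194,[(4,108693),(3,23794),(0,279)]) (97,[(4,93835),(3,110133),(0,195)]))) (.leaf false ⟨⟨-482,-306,9⟩,⟨126,-183,526⟩,⟨279,-446,-222⟩⟩ (47,[(1,10674),(3,500),(0,51)])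 (94,[(1,61705),(3,39538),(0,61)]) (141,[(1,13521),(3,140581),(0,223)]))) (.node ⟨-167,-534,-114⟩ (.node ⟨-167,6,-546⟩ (.node ⟨534,121,-162⟩ (.leaf false ⟨⟨-167,6,-546⟩,⟨114,-558,-41⟩,⟨534,121,-162⟩⟩ (1,[(1,1)]) (114,[(5,19843),(4,41718),(2,41)]) (1,[(0,1)])) (.leaf false ⟨⟨-554,-138,-9⟩,⟨57,-194,-534⟩,⟨126,-519,202⟩⟩ (21698,[(5,2705969),(0,25134),(1,7815)]) (10849,[(5,13003954),(0,18188),(1,16007)]) (32547,[(5,84417782),(0,141081),(1,29818)]))) (.leaf false ⟨⟨-126,-462,-311⟩,⟨66,-329,462⟩,⟨553,-66,-126⟩⟩ (89,[(2,18901),(4,1645),(1,77)]) (48708,[(4,226764),(0,47369),(1,29477)]) (89,[(2,9960),(4,51054),(1,11)]))) (.leaf false ⟨⟨9,-138,-554⟩,⟨202,519,-126⟩,⟨534,-194,57⟩⟩ (167,[(1,93544),(0,9),(2,27852)]) (167,[(1,44070),(0,202),(2,21195)]) (167,[(1,51357),(0,534),(2,317554)])))))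 (.node ⟨0,1,0⟩ (.node ⟨0,0,1⟩ (.node ⟨282,201,454⟩ (.node ⟨-426,-194,327⟩ (.node ⟨-302,471,-114⟩ (.leaf false ⟨⟨-426,-194,327⟩,⟨-302,471,-114⟩,⟨231,258,454⟩⟩ (1,[(1,1)]) (1,[(0,1)]) (1,[(5,51),(4,57),(2,1)])) (.leaf false ⟨⟨-554,-90,105⟩,⟨30,345,454⟩,⟨135,-446,330⟩⟩ (38,[(5,31622),(4,13065),(0,35)]) (57,[(5,66844),(4,126582),(0,227)]) (19,[(5,14045),(4,17431),(0,55)]))) (.leaf false ⟨⟨-554,30,135⟩,⟨-90,345,-446⟩,⟨105,454,330⟩⟩ (97,[(2,18000),(4,60128),(0,15)]) (194,[(2,26291),(4,164430),(0,345)]) (97,[(2,106239),(4,86517),(0,227)]))) (.leaf false ⟨⟨-534,-201,22⟩,⟨-183,454,-294⟩,⟨-86,282,489⟩⟩ (47,[(1,41440),(0,89),(2,8442)]) (94,[(1,58),(0,61),(2,54937)]) (141,[(1,88471),(0,43),(2,48405)]))) (.node ⟨-114,-167,-534⟩ (.node ⟨-546,-167,6⟩ (.node ⟨-162,534,121⟩ (.leaf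 false ⟨⟨-546,-167,6⟩,⟨-162,534,121⟩,⟨-41,114,-558⟩⟩ (1,[(1,1)]) (1,[(0,1)]) (114,[(3,41718),(2,41),(4,19843)])) (.leaf false ⟨⟨-567,-66,-14⟩,⟨-14,231,-522⟩,⟨66,-518,-231⟩⟩ (21698,[(1,23625),(4,4479495),(0,3682)]) (32547,[(1,43129),(4,90841532),(0,142548)]) (10849,[(1,4906),(4,6389490),(0,20955)]))) (.leaf false ⟨⟨-534,114,-167⟩,⟨121,558,-6⟩,⟨162,-41,-546⟩⟩ (534,[(1,167),(4,266118),(3,88765)]) (1,[(4,425),(3,391),(0,1)]) (4059,[(1,4127),(3,177768),(0,2066)]))) (.leaf false ⟨⟨-554,9,-138⟩,⟨-126,202,519⟩,⟨57,534,-194⟩⟩ (167,[(1,27852),(3,93544),(0,9)]) (167,[(1,21195),(3,44070),(0,202)]) (167,[(1,317554),(3,51357),(0,534)])))) (.node ⟨0,0,1⟩ (.node ⟨-114,-534,-167⟩ (.node ⟨-546,6,-167⟩ (.node ⟨-162,121,534⟩ (.leaf false ⟨⟨-546,6,-167⟩,⟨-162,121,534⟩,⟨-41,-558,114⟩⟩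 (1,[(1,1)]) (1,[(0,1)]) (114,[(3,19843),(2,41),(4,41718)])) (.leaf false ⟨⟨-567,-14,-66⟩,⟨-14,-522,231⟩,⟨66,-231,-518⟩⟩ (21698,[(3,4479495),(1,23625),(0,3682)]) (32547,[(3,90841532),(1,43129),(0,142548)]) (10849,[(3,6389490),(1,4906),(0,20955)]))) (.leaf false ⟨⟨-534,-167,114⟩,⟨121,-6,558⟩,⟨162,-546,-41⟩⟩ (534,[(2,88765),(4,266118),(1,167)]) (1,[(2,391),(4,425),(0,1)]) (4059,[(2,177768),(1,4127),(0,2066)]))) (.leaf false ⟨⟨-554,-138,9⟩,⟨-126,519,202⟩,⟨57,-194,534⟩⟩ (167,[(3,93544),(2,27852),(0,9)]) (167,[(3,44070),(2,21195),(0,202)]) (167,[(3,51357),(2,317554),(0,534)]))) (.node ⟨-126,202,-519⟩ (.node ⟨-126,-519,202⟩ (.node ⟨-534,9,202⟩ (.leaf false ⟨⟨-554,9,138⟩,⟨-126,202,-519⟩,⟨-57,-534,-194⟩⟩ (267,[(3,19108),(0,277),(4,90)]) (1,[(2,1)]) (42,[(3,11986),(1,19),(4,12567)]))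 (.leaf false ⟨⟨-534,-194,-57⟩,⟨9,138,-554⟩,⟨202,-519,-126⟩⟩ (106656,[(5,88804968),(1,38675),(0,68771)]) (45475,[(2,32862),(5,16962837),(0,40286)]) (4444,[(5,2345528),(1,4321),(0,7093)]))) (.leaf false ⟨⟨-567,-66,-14⟩,⟨-14,231,-522⟩,⟨66,-518,-231⟩⟩ (101,[(4,58149),(3,10299),(0,7)]) (101,[(4,34300),(3,112128),(0,261)]) (202,[(4,15774),(3,224525),(0,231)]))) (.leaf false ⟨⟨-567,-14,-66⟩,⟨-14,-522,231⟩,⟨66,-231,-518⟩⟩ (101,[(1,10299),(3,58149),(0,7)]) (101,[(1,112128),(3,34300),(0,261)]) (202,[(1,224525),(3,15774),(0,231)])))))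
theorem pf571_ok : pf571.check (ok 571 6 ⟨5, 5, 5⟩) (fun _ r => r) [] = true := by decide +kernel

def pf577 : T := .node ⟨1,0,0⟩ (.node ⟨0,1,0⟩ (.node ⟨0,0,1⟩ (.leaf false ⟨⟨0,0,577⟩,⟨0,577,0⟩,⟨577,0,0⟩⟩ (1,[(0,577)]) (1,[(1,577)]) (1,[(2,577)])) (.node ⟨-231,132,-512⟩ (.node ⟨28,528,231⟩ (.leaf false ⟨⟨-231,132,-512⟩,⟨28,561,132⟩,⟨528,28,-231⟩⟩ (1,[(1,1)]) (544,[(2,59431),(0,577),(1,4)]) (33,[(2,4039),(4,19041),(1,7)])) (.leaf false ⟨⟨-224,63,-528⟩,⟨288,496,-63⟩,⟨447,-288,-224⟩⟩ (1115,[(3,40677),(1,1056),(0,208)]) (11,[(4,3252),(3,7040),(0,3)]) (33,[(4,15647),(3,7392),(0,32)]))) (.leaf false ⟨⟨28,561,-132⟩,⟨231,-132,-512⟩,⟨528,28,231⟩⟩ (33,[(1,6404),(0,4),(2,19041)]) (1,[(1,1024),(0,1)]) (7,[(1,6575),(0,16),(2,2308)])))) (.node ⟨0,0,1⟩ (.node ⟨-231,-512,132⟩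 (.node ⟨28,231,528⟩ (.leaf false ⟨⟨-231,-512,132⟩,⟨28,132,561⟩,⟨528,-231,28⟩⟩ (1,[(1,1)]) (544,[(3,59431),(1,4),(0,577)]) (33,[(4,19041),(3,4039),(1,7)])) (.leaf false ⟨⟨-224,-528,63⟩,⟨288,-63,496⟩,⟨447,-224,-288⟩⟩ (1115,[(2,40677),(0,208),(1,1056)]) (11,[(2,7040),(4,3252),(0,3)]) (33,[(2,7392),(4,15647),(0,32)]))) (.leaf false ⟨⟨28,-132,561⟩,⟨231,-512,-132⟩,⟨528,231,28⟩⟩ (33,[(1,19041),(0,4),(2,6404)]) (1,[(0,1),(2,1024)]) (7,[(1,2308),(0,16),(2,6575)]))) (.node ⟨0,48,-575⟩ (.leaf false ⟨⟨0,-575,-48⟩,⟨0,48,-575⟩,⟨577,0,0⟩⟩ (575,[(0,48),(2,332929)]) (1,[(0,1)]) (1,[(3,577)])) (.leaf false ⟨⟨0,-575,48⟩,⟨0,-48,-575⟩,⟨577,0,0⟩⟩ (48,[(1,328321),(0,575)]) (1,[(1,1150),(0,1)]) (1,[(3,577)]))))) (.node ⟨0,1,0⟩ (.node ⟨0,0,1⟩ (.node ⟨-512,-231,132⟩ (.node ⟨231,28,528⟩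 (.leaf false ⟨⟨-512,-231,132⟩,⟨-231,528,28⟩,⟨132,28,561⟩⟩ (1,[(1,1)]) (33,[(1,7),(4,4039),(3,19041)]) (544,[(1,4),(4,59431),(0,577)])) (.leaf false ⟨⟨-528,-224,63⟩,⟨-224,447,-288⟩,⟨-63,288,496⟩⟩ (1115,[(2,40677),(1,1056),(0,208)]) (33,[(2,7392),(0,32),(3,15647)]) (11,[(2,7040),(0,3),(3,3252)]))) (.leaf false ⟨⟨-512,231,-132⟩,⟨-132,28,561⟩,⟨231,528,28⟩⟩ (1,[(3,1024),(0,1)]) (33,[(1,19041),(3,6404),(0,4)]) (7,[(1,2308),(3,6575),(0,16)]))) (.node ⟨48,0,-575⟩ (.leaf false ⟨⟨-575,0,-48⟩,⟨0,577,0⟩,⟨48,0,-575⟩⟩ (575,[(3,332929),(0,48)]) (1,[(2,577)]) (1,[(0,1)])) (.leaf false ⟨⟨-575,0,48⟩,⟨-48,0,-575⟩,⟨0,577,0⟩⟩ (48,[(1,328321),(0,575)]) (1,[(1,1150),(0,1)]) (1,[(2,577)])))) (.node ⟨0,0,1⟩ (.node ⟨48,-575,0⟩ (.leaf false ⟨⟨-575,-48,0⟩,⟨0,0,577⟩,⟨48,-575,0⟩⟩ (575,[(3,332929),(0,48)])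 (1,[(1,577)]) (1,[(0,1)])) (.leaf false ⟨⟨-575,48,0⟩,⟨-48,-575,0⟩,⟨0,0,577⟩⟩ (48,[(0,575),(2,328321)]) (1,[(0,1),(2,1150)]) (1,[(1,577)]))) (.node ⟨-153,208,-516⟩ (.node ⟨-153,-516,208⟩ (.node ⟨-548,177,36⟩ (.leaf false ⟨⟨-548,177,36⟩,⟨-153,-516,208⟩,⟨-96,-188,-537⟩⟩ (1,[(0,1)]) (1,[(1,1)]) (51,[(3,10875),(2,32),(4,16244)])) (.leaf false ⟨⟨-537,-96,-188⟩,⟨36,-548,177⟩,⟨208,-153,-516⟩⟩ (4941,[(2,1491),(5,4853930),(0,4432)]) (55392,[(5,2607463),(1,51057),(0,22652)]) (8235,[(2,7152),(5,5699468),(0,15523)]))) (.leaf false ⟨⟨-576,-33,-8⟩,⟨-8,264,-513⟩,⟨33,-512,-264⟩⟩ (26,[(4,15129),(3,1374),(0,1)]) (208,[(4,80153),(3,209796),(0,513)]) (26,[(4,4191),(3,30340),(0,33)]))) (.leaf false ⟨⟨-576,-8,-33⟩,⟨-8,-513,264⟩,⟨33,-264,-512⟩⟩ (26,[(1,1374),(3,15129),(0,1)]) (208,[(1,209796),(3,80153),(0,513)])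 (26,[(1,30340),(3,4191),(0,33)])))))
theorem pf577_ok : pf577.check (ok 577 6 ⟨5, 5, 5⟩) (fun _ r => r) [] = true := by decide +kernel

def pf587 : T := .node ⟨1,0,0⟩ (.node ⟨0,1,0⟩ (.node ⟨0,0,1⟩ (.node ⟨-146,42,567⟩ (.node ⟨-146,567,-42⟩ (.node ⟨567,142,-54⟩ (.leaf false ⟨⟨-146,567,-42⟩,⟨42,54,583⟩,⟨567,142,-54⟩⟩ (1,[(1,1)]) (21,[(3,12327),(5,1174),(1,2)]) (1,[(0,1)])) (.leaf false ⟨⟨-569,42,138⟩,⟨42,-489,322⟩,⟨138,322,471⟩⟩ (4109,[(5,5754948),(1,3644),(0,13335)]) (12327,[(5,47865154),(1,9659),(0,81018)]) (8218,[(5,58265033),(1,28090),(0,93527)]))) (.leaf false ⟨⟨-54,-42,583⟩,⟨142,567,54⟩,⟨567,-146,42⟩⟩ (15393,[(4,1118900),(1,15657),(0,2300)]) (21,[(4,3274),(3,11823),(1,2)]) (1,[(4,421),(3,421),(0,1)]))) (.leaf false ⟨⟨42,567,-146⟩,⟨54,142,567⟩,⟨583,-54,-42⟩⟩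 (73,[(1,1249),(0,21),(2,42273)]) (73,[(1,56700),(0,27),(2,11500)]) (146,[(1,324429),(0,583),(2,16602)]))) (.node ⟨-137,570,-30⟩ (.node ⟨-137,-30,-570⟩ (.node ⟨570,-38,-135⟩ (.leaf false ⟨⟨-137,-30,-570⟩,⟨30,585,-38⟩,⟨570,-38,-135⟩⟩ (1,[(1,1)]) (15,[(5,587),(4,8805),(1,1)]) (1,[(0,1)])) (.leaf false ⟨⟨-569,42,-138⟩,⟨-42,489,322⟩,⟨138,322,-471⟩⟩ (2935,[(5,1246788),(0,4680),(1,1819)]) (17610,[(5,159998003),(0,269070),(1,53779)]) (2935,[(5,20584916),(0,32945),(1,10228)]))) (.leaf false ⟨⟨-110,570,-87⟩,⟨375,138,430⟩,⟨438,25,-390⟩⟩ (1,[(2,57),(4,27),(1,1)]) (2715,[(4,808652),(0,2077),(1,548)]) (6,[(2,5190),(4,1943),(0,5)]))) (.leaf false ⟨⟨39,222,-542⟩,⟨178,-522,-201⟩,⟨558,151,102⟩⟩ (137,[(1,75424),(0,39),(2,52644)]) (137,[(1,32877),(0,178),(2,29946)]) (137,[(1,2766),(0,558),(2,338747)]))))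 (.node ⟨0,0,1⟩ (.node ⟨-137,-30,570⟩ (.node ⟨-137,-570,-30⟩ (.node ⟨570,-135,-38⟩ (.leaf false ⟨⟨-137,-570,-30⟩,⟨30,-38,585⟩,⟨570,-135,-38⟩⟩ (1,[(1,1)]) (15,[(3,8805),(5,587),(1,1)]) (1,[(0,1)])) (.leaf false ⟨⟨-569,-138,42⟩,⟨-42,322,489⟩,⟨138,-471,322⟩⟩ (2935,[(5,1246788),(1,1819),(0,4680)]) (17610,[(5,159998003),(1,53779),(0,269070)]) (2935,[(5,20584916),(1,10228),(0,32945)]))) (.leaf false ⟨⟨-110,-87,570⟩,⟨375,430,138⟩,⟨438,-390,25⟩⟩ (1,[(4,27),(3,57),(1,1)]) (2715,[(4,808652),(1,548),(0,2077)]) (6,[(4,1943),(3,5190),(0,5)]))) (.leaf false ⟨⟨39,-542,222⟩,⟨178,-201,-522⟩,⟨558,102,151⟩⟩ (137,[(1,52644),(0,39),(2,75424)]) (137,[(1,29946),(0,178),(2,32877)]) (137,[(1,338747),(0,558),(2,2766)]))) (.node ⟨-54,-567,142⟩ (.node ⟨583,-42,54⟩ (.leaf false ⟨⟨-54,-567,142⟩,⟨42,-146,-567⟩,⟨583,-42,54⟩⟩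 (1,[(1,1)]) (567,[(2,342221),(4,31698),(1,146)]) (1,[(0,1)])) (.leaf false ⟨⟨-578,-9,-102⟩,⟨-9,-578,102⟩,⟨102,-102,-569⟩⟩ (4109,[(4,3411644),(1,795),(0,9852)]) (12327,[(4,7682656),(1,13464),(0,12121)]) (8218,[(4,66878671),(1,9802),(0,112369)]))) (.node ⟨-119,-138,-558⟩ (.leaf false ⟨⟨-119,-138,-558⟩,⟨342,441,-182⟩,⟨462,-362,-9⟩⟩ (1,[(0,1)]) (71,[(1,91),(4,19368),(3,20286)]) (62,[(4,28763),(3,22306),(0,1)])) (.leaf false ⟨⟨39,222,-542⟩,⟨178,-522,-201⟩,⟨558,151,102⟩⟩ (18,[(2,7910),(1,13),(3,3375)]) (119,[(2,123243),(0,178),(3,86682)]) (119,[(2,299226),(0,558),(3,59035)])))))) (.node ⟨0,1,0⟩ (.node ⟨0,0,1⟩ (.node ⟨-30,570,-137⟩ (.node ⟨-570,-30,-137⟩ (.node ⟨-135,-38,570⟩ (.leaf false ⟨⟨-570,-30,-137⟩,⟨-135,-38,570⟩,⟨-38,585,30⟩⟩ (1,[(1,1)]) (1,[(0,1)]) (15,[(3,587),(1,1),(4,8805)]))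 (.leaf false ⟨⟨-569,42,-138⟩,⟨-42,489,322⟩,⟨138,322,-471⟩⟩ (8805,[(3,12342262),(1,13646),(0,20505)]) (5870,[(3,58175809),(1,22537),(0,93330)]) (2935,[(3,16533442),(1,6371),(0,29900)]))) (.leaf false ⟨⟨-506,18,297⟩,⟨-18,583,-66⟩,⟨297,66,502⟩⟩ (5,[(2,1074),(4,4240),(0,3)]) (10860,[(2,770238),(1,11095),(0,241)]) (5,[(2,1003),(4,4785),(0,11)]))) (.leaf false ⟨⟨-542,222,39⟩,⟨-201,-522,178⟩,⟨102,151,558⟩⟩ (137,[(3,75424),(2,52644),(0,39)]) (137,[(3,32877),(2,29946),(0,178)]) (137,[(3,2766),(2,338747),(0,558)]))) (.node ⟨-567,-54,142⟩ (.node ⟨-42,583,54⟩ (.leaf false ⟨⟨-567,-54,142⟩,⟨-146,42,-567⟩,⟨-42,583,54⟩⟩ (1,[(1,1)]) (567,[(2,342221),(1,146),(3,31698)]) (1,[(0,1)])) (.leaf false ⟨⟨-585,-38,30⟩,⟨-38,135,-570⟩,⟨30,-570,-137⟩⟩ (4109,[(1,5055),(3,6535658),(0,11010)])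 (12327,[(1,12996),(3,98148748),(0,164293)]) (8218,[(1,1378),(3,9657911),(0,24473)]))) (.node ⟨-138,-119,-558⟩ (.leaf false ⟨⟨-567,42,-146⟩,⟨54,583,-42⟩,⟨142,-54,-567⟩⟩ (279,[(4,148119),(3,20405),(0,73)]) (71,[(4,8073),(3,40259),(1,21)]) (47030,[(4,9210619),(1,37341),(0,38286)])) (.leaf false ⟨⟨-569,42,-138⟩,⟨-42,489,322⟩,⟨138,322,-471⟩⟩ (9,[(2,248),(4,9090),(1,7)]) (119,[(2,234544),(4,72480),(0,489)]) (17,[(2,33675),(4,4002),(0,46)]))))) (.node ⟨0,0,1⟩ (.node ⟨142,-567,-54⟩ (.node ⟨54,-42,583⟩ (.leaf false ⟨⟨-567,-146,42⟩,⟨54,-42,583⟩,⟨142,-567,-54⟩⟩ (567,[(2,31698),(4,342221),(1,146)]) (1,[(0,1)]) (1,[(1,1)])) (.leaf false ⟨⟨-578,-54,-87⟩,⟨-54,-263,522⟩,⟨87,-522,-254⟩⟩ (4109,[(2,32476362),(0,55899),(1,4532)]) (12327,[(2,26690890),(0,33982),(1,8235)]) (8218,[(2,3172735),(0,8265),(1,8178)])))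 (.node ⟨-558,-138,-119⟩ (.leaf false ⟨⟨-567,142,-54⟩,⟨-146,-567,42⟩,⟨-42,54,583⟩⟩ (335982,[(2,9210619),(1,157482),(0,301325)]) (279,[(2,20405),(0,73),(3,148119)]) (71,[(2,40259),(1,21),(3,8073)])) (.leaf false ⟨⟨-569,-138,42⟩,⟨-42,322,489⟩,⟨138,-471,322⟩⟩ (9,[(1,7),(4,4127),(3,5211)]) (119,[(4,277860),(3,29164),(0,489)]) (17,[(4,23322),(3,14355),(0,46)])))) (.leaf false ⟨⟨-587,0,0⟩,⟨0,-587,0⟩,⟨0,0,-587⟩⟩ (1,[(2,587)]) (1,[(1,587)]) (1,[(0,587)]))))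
theorem pf587_ok : pf587.check (ok 587 6 ⟨5, 5, 5⟩) (fun _ r => r) [] = true := by decide +kernel

def pf589 : T := .node ⟨1,0,0⟩ (.node ⟨0,1,0⟩ (.node ⟨0,0,1⟩ (.leaf false ⟨⟨0,0,589⟩,⟨0,589,0⟩,⟨589,0,0⟩⟩ (1,[(0,589)]) (1,[(1,589)]) (1,[(2,589)])) (.node ⟨-108,-59,-576⟩ (.node ⟨571,-108,-96⟩ (.leaf false ⟨⟨-108,-59,-576⟩,⟨96,576,-77⟩,⟨571,-108,-96⟩⟩ (1,[(1,1)]) (576,[(4,63612),(3,336319),(1,77)]) (1,[(0,1)])) (.leaf false ⟨⟨-576,112,51⟩,⟨4,261,-528⟩,⟨123,516,256⟩⟩ (992,[(4,54653),(0,1079),(1,92)]) (62,[(4,123597),(0,199),(1,90)]) (93,[(4,280271),(0,464),(1,36)]))) (.node ⟨579,-84,-68⟩ (.leaf false ⟨⟨4,387,-444⟩,⟨108,436,381⟩,⟨579,-84,-68⟩⟩ (27,[(2,12564),(1,1),(3,10390)]) (1,[(2,195),(1,1),(3,377)]) (1,[(0,1)])) (.leaf false ⟨⟨-579,84,-68⟩,⟨4,387,444⟩,⟨108,436,-381⟩⟩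 (1,[(2,136),(0,1)]) (11093,[(4,28222553),(1,2745),(0,49179)]) (21,[(2,15413),(4,65379),(0,109)]))))) (.node ⟨0,0,1⟩ (.node ⟨-108,-576,-59⟩ (.node ⟨571,-96,-108⟩ (.leaf false ⟨⟨-108,-576,-59⟩,⟨96,-77,576⟩,⟨571,-96,-108⟩⟩ (1,[(1,1)]) (576,[(2,336319),(4,63612),(1,77)]) (1,[(0,1)])) (.leaf false ⟨⟨-576,4,123⟩,⟨51,-528,256⟩,⟨112,261,516⟩⟩ (14136,[(4,2244679),(1,2844),(0,17653)]) (1178,[(4,2368369),(1,1700),(0,3721)]) (18848,[(4,56518673),(1,7116),(0,93939)]))) (.node ⟨579,-68,-84⟩ (.leaf false ⟨⟨4,-444,387⟩,⟨108,381,436⟩,⟨579,-68,-84⟩⟩ (27,[(2,10390),(1,1),(3,12564)]) (1,[(2,377),(1,1),(3,195)]) (1,[(0,1)])) (.leaf false ⟨⟨-579,-68,84⟩,⟨4,444,387⟩,⟨108,-381,436⟩⟩ (1,[(3,136),(0,1)]) (11093,[(1,2745),(4,28222553),(0,49179)]) (21,[(4,65379),(3,15413),(0,109)])))) (.node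 ⟨-144,-563,-96⟩ (.node ⟨123,256,-516⟩ (.node ⟨571,-12,144⟩ (.leaf false ⟨⟨4,-528,-261⟩,⟨123,256,-516⟩,⟨576,-51,112⟩⟩ (123,[(3,30039),(1,4),(4,65968)]) (1,[(1,1)]) (571,[(3,18992),(0,576),(4,22209)])) (.leaf false ⟨⟨-558,31,-186⟩,⟨31,-558,-186⟩,⟨186,186,-527⟩⟩ (2556,[(1,186),(5,55459),(0,2635)]) (24,[(5,18445),(4,13764),(0,31)]) (516,[(1,527),(5,31155),(4,38936)]))) (.leaf false ⟨⟨-156,-509,-252⟩,⟨67,-276,516⟩,⟨564,-108,-131⟩⟩ (256,[(2,327156),(4,22671),(0,509)]) (64,[(2,2580),(4,12775),(0,69)]) (64,[(2,22316),(4,39417),(0,27)]))) (.leaf false ⟨⟨4,-576,-123⟩,⟨261,112,-516⟩,⟨528,-51,256⟩⟩ (36,[(1,4524),(0,1),(2,21299)]) (16,[(1,11040),(0,29),(2,14535)]) (3,[(1,288),(0,11),(2,6346)]))))) (.node ⟨0,1,0⟩ (.node ⟨0,0,1⟩ (.node ⟨-576,-108,-59⟩ (.node ⟨-96,571,-108⟩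 (.leaf false ⟨⟨-576,-108,-59⟩,⟨-96,571,-108⟩,⟨-77,96,576⟩⟩ (1,[(1,1)]) (1,[(0,1)]) (576,[(2,336319),(1,77),(3,63612)])) (.leaf false ⟨⟨-581,-96,12⟩,⟨-12,144,571⟩,⟨96,-563,144⟩⟩ (56544,[(1,63900),(3,24993037),(0,41191)]) (4712,[(1,4676),(3,16867193),(0,27467)]) (589,[(1,36),(3,131936),(0,805)]))) (.node ⟨-68,579,-84⟩ (.leaf false ⟨⟨-444,4,387⟩,⟨-68,579,-84⟩,⟨381,108,436⟩⟩ (27,[(2,10390),(4,12564),(1,1)]) (1,[(0,1)]) (1,[(2,377),(4,195),(1,1)])) (.leaf false ⟨⟨-581,-84,48⟩,⟨-48,504,301⟩,⟨84,-293,504⟩⟩ (7,[(4,4339),(3,1728),(0,4)]) (12,[(4,3500),(3,30945),(0,43)]) (1,[(4,324),(3,3181),(0,6)])))) (.node ⟨-96,-144,-563⟩ (.node ⟨-516,123,256⟩ (.node ⟨144,571,-12⟩ (.leaf false ⟨⟨-563,144,96⟩,⟨-96,12,-581⟩,⟨144,571,-12⟩⟩ (36913,[(5,14389859),(1,14136),(0,6264)]) (41,[(3,24845),(5,1872),(1,4)])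 (1,[(0,1)])) (.leaf false ⟨⟨-581,12,96⟩,⟨-96,-144,-563⟩,⟨-12,571,-144⟩⟩ (7668,[(0,24800),(1,1713),(4,14042117)]) (3,[(3,1713),(0,2),(4,710)]) (12,[(3,1740),(0,1),(4,7423)]))) (.leaf false ⟨⟨-581,-12,-96⟩,⟨12,571,-144⟩,⟨96,-144,-563⟩⟩ (8,[(4,6196),(3,273),(0,3)]) (16,[(4,4452),(3,10243),(0,9)]) (256,[(4,265932),(3,32385),(0,563)]))) (.leaf false ⟨⟨-581,12,-96⟩,⟨-12,571,144⟩,⟨96,144,-563⟩⟩ (12,[(1,1715),(3,7068),(0,1)]) (144,[(1,300737),(3,56544),(0,571)]) (1,[(1,1126),(0,1)])))) (.node ⟨0,0,1⟩ (.node ⟨-96,-563,-144⟩ (.node ⟨-516,256,123⟩ (.node ⟨144,-12,571⟩ (.leaf false ⟨⟨-563,96,144⟩,⟨-96,-581,12⟩,⟨144,-12,571⟩⟩ (36913,[(1,14136),(5,14389859),(0,6264)]) (41,[(1,4),(5,1872),(4,24845)]) (1,[(0,1)])) (.leaf false ⟨⟨-581,96,12⟩,⟨-96,-563,-144⟩,⟨-12,-144,571⟩⟩ (7668,[(3,14042117),(1,1713),(0,24800)])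 (3,[(3,710),(0,2),(4,1713)]) (12,[(3,7423),(0,1),(4,1740)]))) (.leaf false ⟨⟨-581,-96,-12⟩,⟨12,-144,571⟩,⟨96,-563,-144⟩⟩ (8,[(2,273),(4,6196),(0,3)]) (16,[(2,10243),(4,4452),(0,9)]) (256,[(2,32385),(4,265932),(0,563)]))) (.leaf false ⟨⟨-581,-96,12⟩,⟨-12,144,571⟩,⟨96,-563,144⟩⟩ (12,[(3,7068),(2,1715),(0,1)]) (144,[(3,56544),(2,300737),(0,571)]) (1,[(2,1126),(0,1)]))) (.node ⟨-108,276,-509⟩ (.node ⟨-549,-108,184⟩ (.node ⟨24,-536,-243⟩ (.leaf false ⟨⟨-549,-108,184⟩,⟨-212,219,-504⟩,⟨24,-536,-243⟩⟩ (1,[(1,1)]) (92,[(3,9211),(2,73),(5,11620)]) (1,[(0,1)])) (.leaf false ⟨⟨-581,48,84⟩,⟨-84,-504,-293⟩,⟨-48,301,-504⟩⟩ (24,[(3,139167),(0,581),(4,310264)]) (2,[(3,2287),(0,7),(4,4760)]) (1,[(3,990),(0,2),(4,771)]))) (.leaf false ⟨⟨-564,-108,-131⟩,⟨67,276,-516⟩,⟨156,-509,-252⟩⟩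 (184,[(4,175695),(3,34020),(0,131)]) (46,[(4,67739),(3,1236),(0,129)]) (46,[(4,27411),(3,30218),(0,63)]))) (.leaf false ⟨⟨-581,-84,-48⟩,⟨48,-504,301⟩,⟨84,-293,-504⟩⟩ (23,[(1,4667),(3,14119),(0,7)]) (23,[(1,14455),(3,3432),(0,42)]) (276,[(1,288241),(3,8460),(0,293)])))))
theorem pf589_ok : pf589.check (ok 589 6 ⟨5, 5, 5⟩) (fun _ r => r) [] = true := by decide +kernel

def pf593 : T := .node ⟨1,0,0⟩ (.node ⟨0,1,0⟩ (.node ⟨0,0,1⟩ (.node ⟨-152,84,567⟩ (.node ⟨567,84,-152⟩ (.node ⟨-152,567,-84⟩ (.leaf false ⟨⟨-152,567,-84⟩,⟨84,108,577⟩,⟨567,136,-108⟩⟩ (1,[(0,1)]) (21,[(3,12453),(5,2372),(0,4)]) (19782,[(5,4596343),(1,12453),(0,2900)])) (.leaf false ⟨⟨-132,127,564⟩,⟨393,444,-8⟩,⟨424,-372,183⟩⟩ (8246,[(4,883799),(2,8068),(0,907)]) (17683,[(1,8557),(4,14957064),(0,13800)])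 (61145917,[(1,38642688),(2,22802333),(0,49219864)]))) (.leaf false ⟨⟨-567,-44,168⟩,⟨-24,588,73⟩,⟨172,-63,564⟩⟩ (19,[(4,1134),(3,928),(0,21)]) (152,[(4,37743),(3,95508),(0,73)]) (38,[(4,86483),(3,9450),(0,141)]))) (.leaf false ⟨⟨24,588,73⟩,⟨172,63,-564⟩,⟨567,-44,168⟩⟩ (19,[(1,3088),(0,3),(2,11424)]) (38,[(1,2949),(0,43),(2,6006)]) (152,[(1,347025),(0,567),(2,40940)]))) (.node ⟨567,24,172⟩ (.node ⟨-63,564,172⟩ (.leaf false ⟨⟨-44,567,168⟩,⟨63,172,-564⟩,⟨588,24,73⟩⟩ (188,[(2,924),(4,3635),(0,189)]) (141,[(2,86920),(4,11592),(0,43)]) (1,[(2,99),(4,21),(1,1)])) (.leaf false ⟨⟨63,-44,-588⟩,⟨172,567,-24⟩,⟨564,-168,73⟩⟩ (1,[(2,416),(0,1),(3,520)]) (567,[(2,43192),(1,172),(3,317361)]) (8925,[(2,297915),(0,3022),(1,8542)]))) (.node ⟨-168,-228,-521⟩ (.leaf false ⟨⟨-552,-17,-216⟩,⟨64,552,-207⟩,⟨207,-216,-512⟩⟩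 (43,[(4,6882),(3,565),(1,54)]) (172,[(4,128377),(3,99912),(1,207)]) (159,[(4,71952),(1,25),(0,148)])) (.leaf false ⟨⟨-564,132,127⟩,⟨-8,393,-444⟩,⟨183,424,372⟩⟩ (53,[(4,8349),(0,39),(1,79)]) (8904,[(4,53377821),(0,26084),(1,101995)]) (3339,[(4,8912274),(0,8000),(1,17011)]))))) (.node ⟨0,0,1⟩ (.node ⟨567,172,24⟩ (.node ⟨-63,172,564⟩ (.leaf false ⟨⟨-44,63,588⟩,⟨168,-564,73⟩,⟨567,172,24⟩⟩ (47,[(4,1019),(3,5467),(0,49)]) (564,[(4,99351),(3,330652),(0,73)]) (1,[(1,1)])) (.leaf false ⟨⟨63,-588,-44⟩,⟨172,-24,567⟩,⟨564,73,-168⟩⟩ (1,[(2,520),(0,1),(3,416)]) (567,[(2,317361),(1,172),(3,43192)]) (8925,[(1,8542),(0,3022),(3,297915)]))) (.node ⟨-168,-521,-228⟩ (.leaf false ⟨⟨-552,-216,-17⟩,⟨64,-207,552⟩,⟨207,-512,-216⟩⟩ (43,[(2,565),(4,6882),(1,54)]) (172,[(2,99912),(4,128377),(1,207)])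 (159,[(4,71952),(0,148),(1,25)])) (.leaf false ⟨⟨-564,-8,183⟩,⟨127,-444,372⟩,⟨132,393,424⟩⟩ (1272,[(4,1652757),(1,4627),(0,1508)]) (2226,[(4,13178571),(1,24587),(0,6220)]) (6678,[(4,16826439),(1,32825),(0,15874)])))) (.node ⟨-368,-465,0⟩ (.leaf false ⟨⟨-368,-465,0⟩,⟨0,0,-593⟩,⟨465,-368,0⟩⟩ (1,[(0,1)]) (1,[(1,593)]) (465,[(3,351649),(0,368)])) (.node ⟨552,-17,216⟩ (.leaf false ⟨⟨64,-552,-207⟩,⟨207,216,-512⟩,⟨552,-17,216⟩⟩ (23,[(2,4761),(1,4),(3,14556)]) (16,[(2,8192),(1,9),(3,729)]) (1,[(0,1)])) (.leaf false ⟨⟨-552,-17,-216⟩,⟨64,552,-207⟩,⟨207,-216,-512⟩⟩ (1,[(3,34),(0,1)]) (1104,[(1,1779),(3,235813),(0,1058)]) (432,[(1,1779),(3,937955),(0,1024)])))))) (.node ⟨0,1,0⟩ (.node ⟨0,0,1⟩ (.node ⟨172,24,567⟩ (.node ⟨172,564,-63⟩ (.leaf false ⟨⟨-564,73,168⟩,⟨63,588,-44⟩,⟨172,24,567⟩⟩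 (564,[(2,99351),(4,330652),(0,73)]) (47,[(2,1019),(4,5467),(0,49)]) (1,[(1,1)])) (.leaf false ⟨⟨-588,-44,63⟩,⟨-24,567,172⟩,⟨73,-168,564⟩⟩ (1,[(4,416),(3,520),(0,1)]) (567,[(4,43192),(3,317361),(1,172)]) (8925,[(4,297915),(1,8542),(0,3022)]))) (.node ⟨-521,-228,-168⟩ (.leaf false ⟨⟨-521,-228,-168⟩,⟨-228,129,532⟩,⟨-168,532,-201⟩⟩ (1,[(0,1)]) (43,[(2,55195),(1,57),(3,6915)]) (43,[(2,15171),(1,42),(3,23884)])) (.leaf false ⟨⟨-591,-48,-8⟩,⟨-48,559,192⟩,⟨-8,192,-561⟩⟩ (2226,[(2,5084415),(1,9145),(0,494)]) (3816,[(2,22874295),(1,43169),(0,13900)]) (1113,[(2,1549443),(1,4244),(0,1384)])))) (.node ⟨0,-368,-465⟩ (.leaf false ⟨⟨-593,0,0⟩,⟨0,-368,-465⟩,⟨0,465,-368⟩⟩ (1,[(3,593)]) (1,[(0,1)]) (465,[(0,368),(2,351649)])) (.node ⟨216,552,-17⟩ (.leaf false ⟨⟨-512,207,216⟩,⟨-207,64,-552⟩,⟨216,552,-17⟩⟩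 (16,[(2,729),(4,8192),(1,9)]) (23,[(2,14556),(4,4761),(1,4)]) (1,[(0,1)])) (.leaf false ⟨⟨-591,-48,-8⟩,⟨-48,559,192⟩,⟨-8,192,-561⟩⟩ (3312,[(2,6300415),(0,9062),(1,13161)]) (3312,[(2,2229383),(0,736),(1,6135)]) (1242,[(2,1030949),(0,46),(1,717)]))))) (.node ⟨0,0,1⟩ (.node ⟨0,-465,-368⟩ (.leaf false ⟨⟨-593,0,0⟩,⟨0,-465,-368⟩,⟨0,-368,465⟩⟩ (1,[(3,593)]) (1,[(0,1)]) (465,[(1,351649),(0,368)])) (.node ⟨216,-17,552⟩ (.leaf false ⟨⟨-512,216,207⟩,⟨-207,-552,64⟩,⟨216,-17,552⟩⟩ (16,[(1,9),(4,8192),(3,729)]) (23,[(1,4),(4,4761),(3,14556)]) (1,[(0,1)])) (.leaf false ⟨⟨-591,-8,-48⟩,⟨-48,192,559⟩,⟨-8,-561,192⟩⟩ (3312,[(1,13161),(0,9062),(3,6300415)]) (3312,[(1,6135),(0,736),(3,2229383)]) (1242,[(1,717),(0,46),(3,1030949)])))) (.leaf false ⟨⟨-593,0,0⟩,⟨0,-593,0⟩,⟨0,0,-593⟩⟩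 (1,[(2,593)]) (1,[(1,593)]) (1,[(0,593)]))))
theorem pf593_ok : pf593.check (ok 593 6 ⟨5, 5, 5⟩) (fun _ r => r) [] = true := by decide +kernel

def pf599 : T := .node ⟨1,0,0⟩ (.node ⟨0,1,0⟩ (.node ⟨0,0,1⟩ (.node ⟨-378,211,414⟩ (.node ⟨274,498,-189⟩ (.node ⟨454,-189,342⟩ (.leaf false ⟨⟨-243,274,474⟩,⟨306,498,-131⟩,⟨454,-189,342⟩⟩ (14,[(3,2910),(4,1937),(2,9)]) (1,[(3,58),(5,32),(1,1)]) (1,[(0,1)])) (.leaf false ⟨⟨-531,274,-42⟩,⟨166,387,426⟩,⟨222,366,-419⟩⟩ (189,[(3,85770),(5,24037),(0,274)]) (21,[(3,23652),(5,23008),(0,43)]) (63,[(3,15327),(5,69374),(0,122)]))) (.leaf false ⟨⟨-474,-131,342⟩,⟨243,306,454⟩,⟨274,-498,189⟩⟩ (21,[(4,458),(3,16173),(0,38)]) (189,[(4,170323),(3,283926),(0,454)]) (1,[(4,548),(0,1)]))) (.leaf false ⟨⟨51,594,58⟩,⟨418,6,-429⟩,⟨426,-77,414⟩⟩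 (126,[(1,14346),(0,17),(2,78431)]) (189,[(1,5445),(0,209),(2,45233)]) (63,[(1,55476),(0,71),(2,10130)]))) (.node ⟨-174,558,-131⟩ (.node ⟨558,-174,-131⟩ (.node ⟨-14,-141,-582⟩ (.leaf false ⟨⟨-174,558,-131⟩,⟨-14,-141,-582⟩,⟨573,166,-54⟩⟩ (1,[(2,1)]) (1,[(0,1)]) (131,[(1,54),(5,44931),(4,31142)])) (.leaf false ⟨⟨-131,582,-54⟩,⟨174,-14,-573⟩,⟨558,141,166⟩⟩ (10782,[(3,4884845),(0,9390),(2,8873)]) (1464,[(3,758962),(1,493),(2,117)]) (13519,[(3,13130832),(1,12784),(0,29295)]))) (.leaf false ⟨⟨-510,301,90⟩,⟨-51,90,-590⟩,⟨310,510,51⟩⟩ (174,[(2,23771),(4,79218),(0,301)]) (29,[(2,19075),(4,6891),(0,15)]) (29,[(2,9656),(4,56420),(0,85)]))) (.leaf false ⟨⟨13,246,-546⟩,⟨366,429,202⟩,⟨474,-338,-141⟩⟩ (174,[(1,96707),(0,13),(2,50058)]) (29,[(1,2133),(0,61),(2,46479)]) (29,[(1,14438),(0,79),(2,34280)]))))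 (.node ⟨0,0,1⟩ (.node ⟨-174,-131,558⟩ (.node ⟨558,-131,-174⟩ (.node ⟨-14,-582,-141⟩ (.leaf false ⟨⟨-174,-131,558⟩,⟨-14,-582,-141⟩,⟨573,-54,166⟩⟩ (1,[(2,1)]) (1,[(0,1)]) (131,[(3,31142),(5,44931),(1,54)])) (.leaf false ⟨⟨-131,-54,582⟩,⟨174,-573,-14⟩,⟨558,166,141⟩⟩ (10782,[(4,4884845),(2,8873),(0,9390)]) (1464,[(1,493),(4,758962),(2,117)]) (13519,[(1,12784),(4,13130832),(0,29295)]))) (.leaf false ⟨⟨-510,-51,310⟩,⟨90,-590,51⟩,⟨301,90,510⟩⟩ (87,[(4,42120),(3,24742),(0,155)]) (58,[(4,14706),(3,36447),(0,17)]) (29,[(4,56159),(3,8525),(0,85)]))) (.leaf false ⟨⟨13,-546,246⟩,⟨366,202,429⟩,⟨474,-141,-338⟩⟩ (174,[(1,50058),(0,13),(2,96707)]) (29,[(1,46479),(0,61),(2,2133)]) (29,[(1,34280),(0,79),(2,14438)]))) (.node ⟨301,-354,378⟩ (.node ⟨-194,-306,-477⟩ (.node ⟨531,78,-266⟩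 (.leaf false ⟨⟨-194,-306,-477⟩,⟨198,-509,246⟩,⟨531,78,-266⟩⟩ (1,[(1,1)]) (63,[(5,133),(2,41),(4,17553)]) (1,[(0,1)])) (.leaf false ⟨⟨-582,-131,54⟩,⟨-14,-174,-573⟩,⟨141,-558,166⟩⟩ (78,[(3,30634),(5,24165),(0,131)]) (13,[(3,15163),(5,15217),(0,29)]) (13,[(3,22580),(5,51216),(0,93)]))) (.leaf false ⟨⟨6,-594,-77⟩,⟨418,-51,426⟩,⟨429,58,-414⟩⟩ (97,[(2,8900),(0,3),(3,58536)]) (97,[(2,58371),(0,209),(3,68901)]) (194,[(2,284949),(0,429),(3,120022)]))) (.leaf false ⟨⟨-285,310,-426⟩,⟨30,-474,-365⟩,⟨526,195,-210⟩⟩ (63,[(3,3416),(2,5604),(0,71)]) (378,[(3,121205),(2,308382),(0,365)]) (9,[(3,6239),(2,15),(0,5)]))))) (.node ⟨0,1,0⟩ (.node ⟨0,0,1⟩ (.node ⟨-131,558,-174⟩ (.node ⟨-131,-174,558⟩ (.node ⟨-582,-14,-141⟩ (.leaf false ⟨⟨-582,-14,-141⟩,⟨-131,-174,558⟩,⟨-54,573,166⟩⟩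 (1,[(0,1)]) (1,[(1,1)]) (131,[(3,31142),(2,54),(4,44931)])) (.leaf false ⟨⟨-573,-14,174⟩,⟨-54,582,-131⟩,⟨166,141,558⟩⟩ (1464,[(1,493),(5,758962),(2,117)]) (40557,[(5,4892360),(2,41948),(0,14085)]) (59485492,[(1,60148891),(2,32836581),(0,37896372)]))) (.leaf false ⟨⟨-590,30,99⟩,⟨-30,499,-330⟩,⟨99,330,490⟩⟩ (29,[(2,5661),(4,17765),(0,5)]) (174,[(2,221022),(4,70589),(0,499)]) (29,[(2,44900),(4,4334),(0,55)]))) (.leaf false ⟨⟨-590,-51,90⟩,⟨51,310,510⟩,⟨90,-510,301⟩⟩ (29,[(3,19075),(2,6891),(0,15)]) (29,[(3,9656),(2,56420),(0,85)]) (174,[(3,23771),(2,79218),(0,301)]))) (.node ⟨-354,301,378⟩ (.node ⟨-306,-194,-477⟩ (.node ⟨78,531,-266⟩ (.leaf false ⟨⟨-509,198,246⟩,⟨-306,-194,-477⟩,⟨78,531,-266⟩⟩ (63,[(5,17553),(2,41),(4,133)]) (1,[(1,1)]) (1,[(0,1)])) (.leaf false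 ⟨⟨-594,51,58⟩,⟨-77,-426,-414⟩,⟨-6,418,-429⟩⟩ (13,[(3,25580),(0,99),(4,53232)]) (78,[(3,52774),(0,77),(4,7659)]) (13,[(3,5843),(0,1),(4,5965)]))) (.leaf false ⟨⟨-594,6,-77⟩,⟨-51,418,426⟩,⟨58,429,-414⟩⟩ (97,[(2,8900),(4,58536),(0,3)]) (97,[(2,58371),(4,68901),(0,209)]) (194,[(2,284949),(4,120022),(0,429)]))) (.leaf false ⟨⟨-474,30,-365⟩,⟨195,526,-210⟩,⟨310,-285,-426⟩⟩ (378,[(3,308382),(2,121205),(0,365)]) (9,[(3,15),(2,6239),(0,5)]) (63,[(3,5604),(2,3416),(0,71)])))) (.node ⟨0,0,1⟩ (.node ⟨-354,378,301⟩ (.node ⟨-306,-477,-194⟩ (.node ⟨78,-266,531⟩ (.leaf false ⟨⟨-509,246,198⟩,⟨-306,-477,-194⟩,⟨78,-266,531⟩⟩ (63,[(3,133),(2,41),(5,17553)]) (1,[(1,1)]) (1,[(0,1)])) (.leaf false ⟨⟨-594,58,51⟩,⟨-77,-414,-426⟩,⟨-6,-429,418⟩⟩ (13,[(3,53232),(0,99),(4,25580)]) (78,[(3,7659),(0,77),(4,52774)])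 (13,[(3,5965),(0,1),(4,5843)]))) (.leaf false ⟨⟨-594,-77,6⟩,⟨-51,426,418⟩,⟨58,-414,429⟩⟩ (97,[(4,58536),(3,8900),(0,3)]) (97,[(4,68901),(3,58371),(0,209)]) (194,[(4,120022),(3,284949),(0,429)]))) (.leaf false ⟨⟨-474,-365,30⟩,⟨195,-210,526⟩,⟨310,-426,-285⟩⟩ (378,[(1,121205),(3,308382),(0,365)]) (9,[(1,6239),(3,15),(0,5)]) (63,[(1,3416),(3,5604),(0,71)]))) (.leaf false ⟨⟨-599,0,0⟩,⟨0,-599,0⟩,⟨0,0,-599⟩⟩ (1,[(2,599)]) (1,[(1,599)]) (1,[(0,599)]))))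
theorem pf599_ok : pf599.check (ok 599 6 ⟨5, 5, 5⟩) (fun _ r => r) [] = true := by decide +kernel

def pf601 : T := .node ⟨1,0,0⟩ (.node ⟨0,1,0⟩ (.node ⟨0,0,1⟩ (.leaf false ⟨⟨0,0,601⟩,⟨0,601,0⟩,⟨601,0,0⟩⟩ (1,[(0,601)]) (1,[(1,601)]) (1,[(2,601)])) (.node ⟨556,96,207⟩ (.node ⟨-281,504,-168⟩ (.node ⟨168,-96,-569⟩ (.leaf false ⟨⟨-281,504,-168⟩,⟨168,-96,-569⟩,⟨504,313,96⟩⟩ (1,[(1,1)]) (1,[(0,1)]) (69,[(5,16984),(2,32),(4,18525)])) (.leaf false ⟨⟨-504,327,16⟩,⟨231,376,-408⟩,⟨232,336,441⟩⟩ (32,[(3,61509),(5,2184),(0,109)]) (12,[(3,31639),(5,10668),(0,47)]) (2,[(3,3101),(5,1640),(0,7)]))) (.leaf false ⟨⟨52,96,-591⟩,⟨201,556,108⟩,⟨564,-207,16⟩⟩ (281,[(2,174807),(0,52),(3,53184)]) (281,[(2,3420),(0,201),(3,257540)]) (281,[(2,90256),(0,564),(3,226089)]))) (.leaf false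 ⟨⟨-551,0,-240⟩,⟨0,601,0⟩,⟨240,0,-551⟩⟩ (69,[(3,6461),(2,7680),(0,80)]) (1,[(2,601)]) (207,[(3,356036),(2,52896),(0,551)])))) (.node ⟨0,0,1⟩ (.node ⟨556,207,96⟩ (.node ⟨-281,-168,504⟩ (.node ⟨168,-569,-96⟩ (.leaf false ⟨⟨-281,-168,504⟩,⟨168,-569,-96⟩,⟨504,96,313⟩⟩ (1,[(1,1)]) (1,[(0,1)]) (69,[(3,18525),(2,32),(5,16984)])) (.leaf false ⟨⟨-504,16,327⟩,⟨231,-408,376⟩,⟨232,441,336⟩⟩ (32,[(5,2184),(4,61509),(0,109)]) (12,[(5,10668),(4,31639),(0,47)]) (2,[(5,1640),(4,3101),(0,7)]))) (.leaf false ⟨⟨52,-591,96⟩,⟨201,108,556⟩,⟨564,16,-207⟩⟩ (281,[(2,53184),(0,52),(3,174807)]) (281,[(2,257540),(0,201),(3,3420)]) (281,[(2,226089),(0,564),(3,90256)]))) (.leaf false ⟨⟨-551,-240,0⟩,⟨0,0,601⟩,⟨240,-551,0⟩⟩ (69,[(1,7680),(3,6461),(0,80)]) (1,[(1,601)]) (207,[(1,52896),(3,356036),(0,551)])))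 (.node ⟨0,240,-551⟩ (.leaf false ⟨⟨0,-551,-240⟩,⟨0,240,-551⟩,⟨601,0,0⟩⟩ (551,[(0,240),(2,361201)]) (1,[(0,1)]) (1,[(3,601)])) (.leaf false ⟨⟨0,-551,240⟩,⟨0,-240,-551⟩,⟨601,0,0⟩⟩ (240,[(1,246001),(0,551)]) (1,[(1,1102),(0,1)]) (1,[(3,601)]))))) (.node ⟨0,1,0⟩ (.node ⟨0,0,1⟩ (.node ⟨207,96,556⟩ (.node ⟨-168,504,-281⟩ (.node ⟨-569,-96,168⟩ (.leaf false ⟨⟨-569,-96,168⟩,⟨-168,504,-281⟩,⟨96,313,504⟩⟩ (1,[(0,1)]) (1,[(1,1)]) (69,[(3,16984),(4,18525),(2,32)])) (.leaf false ⟨⟨-591,52,96⟩,⟨16,564,-207⟩,⟨108,201,556⟩⟩ (24,[(3,4488),(5,21581),(0,13)]) (8,[(3,6240),(5,26615),(0,47)]) (32,[(3,29048),(5,34667),(0,67)]))) (.leaf false ⟨⟨-591,16,108⟩,⟨52,564,201⟩,⟨96,-207,556⟩⟩ (281,[(4,184215),(3,58928),(0,108)]) (281,[(4,19156),(3,259788),(0,201)]) (281,[(4,66432),(3,222057),(0,556)])))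 (.leaf false ⟨⟨-551,0,240⟩,⟨-240,0,-551⟩,⟨0,601,0⟩⟩ (207,[(1,356036),(0,551),(2,52896)]) (69,[(1,6461),(0,80),(2,7680)]) (1,[(2,601)]))) (.node ⟨240,0,-551⟩ (.leaf false ⟨⟨-551,0,-240⟩,⟨0,601,0⟩,⟨240,0,-551⟩⟩ (551,[(3,361201),(0,240)]) (1,[(2,601)]) (1,[(0,1)])) (.leaf false ⟨⟨-551,0,240⟩,⟨-240,0,-551⟩,⟨0,601,0⟩⟩ (240,[(1,246001),(0,551)]) (1,[(1,1102),(0,1)]) (1,[(2,601)])))) (.node ⟨0,0,1⟩ (.node ⟨240,-551,0⟩ (.leaf false ⟨⟨-551,-240,0⟩,⟨0,0,601⟩,⟨240,-551,0⟩⟩ (551,[(3,361201),(0,240)]) (1,[(1,601)]) (1,[(0,1)])) (.leaf false ⟨⟨-551,240,0⟩,⟨-240,-551,0⟩,⟨0,0,601⟩⟩ (240,[(0,551),(2,246001)]) (1,[(0,1),(2,1102)]) (1,[(1,601)]))) (.node ⟨-231,264,-488⟩ (.node ⟨-399,-380,240⟩ (.node ⟨160,-420,-399⟩ (.leaf false ⟨⟨-420,201,-380⟩,⟨-399,-380,240⟩,⟨160,-420,-399⟩⟩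 (88,[(3,744),(2,67),(5,21483)]) (1,[(1,1)]) (1,[(0,1)])) (.leaf false ⟨⟨-552,-56,231⟩,⟨-231,264,-488⟩,⟨-56,-537,-264⟩⟩ (20,[(3,22911),(0,69),(4,30100)]) (160,[(3,170249),(0,231),(4,54780)]) (20,[(3,8073),(0,7),(4,13680)]))) (.leaf false ⟨⟨-588,-36,-119⟩,⟨79,336,-492⟩,⟨96,-497,-324⟩⟩ (240,[(4,188601),(3,53860),(0,119)]) (20,[(4,14779),(3,8860),(0,41)]) (20,[(4,8853),(3,20200),(0,27)]))) (.leaf false ⟨⟨-588,-119,-36⟩,⟨79,-492,336⟩,⟨96,-324,-497⟩⟩ (264,[(1,67576),(3,182721),(0,119)]) (22,[(1,12616),(3,7733),(0,41)]) (22,[(1,24110),(3,4125),(0,27)])))))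
theorem pf601_ok : pf601.check (ok 601 6 ⟨5, 5, 5⟩) (fun _ r => r) [] = true := by decide +kernel


end H34S
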