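import Pool.Agent.Lib.H34S.Cover

/-!
# H34S: certificates (generated), pentagonal numbers
-/

set_option autoImplicit false

namespace H34S

def pf607 : T := .node ⟨1,0,0⟩ (.node ⟨0,1,0⟩ (.node ⟨0,0,1⟩ (.leaf false ⟨⟨0,0,607⟩,⟨0,607,0⟩,⟨607,0,0⟩⟩ (1,[(0,607)]) (1,[(1,607)]) (1,[(2,607)])) (.node ⟨549,102,238⟩ (.node ⟨21,558,238⟩ (.node ⟨598,-102,-21⟩ (.leaf false ⟨⟨21,238,-558⟩,⟨102,549,238⟩,⟨598,-102,-21⟩⟩ (183,[(3,103780),(2,7),(4,42840)]) (176,[(2,27),(1,149),(4,10728)]) (1,[(0,1)])) (.leaf false ⟨⟨-518,165,-270⟩,⟨-30,490,357⟩,⟨315,318,-410⟩⟩ (34,[(3,10335),(5,15278),(0,55)]) (1581,[(5,2354078),(2,1866),(0,5729)]) (17,[(3,8083),(5,37049),(0,53)]))) (.leaf false ⟨⟨-30,315,-518⟩,⟨357,-410,-270⟩,⟨490,318,165⟩⟩ (2992,[(1,89),(3,4616760),(0,6601)]) (10472,[(1,7553),(3,5779688),(0,19433)])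 (125664,[(1,113155),(3,42946872),(0,26035)]))) (.leaf false ⟨⟨-522,-69,-302⟩,⟨22,582,-171⟩,⟨309,-158,-498⟩⟩ (119,[(3,20781),(2,7191),(0,151)]) (238,[(3,99115),(2,155958),(0,171)]) (119,[(3,173472),(2,6596),(0,249)])))) (.node ⟨0,0,1⟩ (.node ⟨549,238,102⟩ (.node ⟨21,238,558⟩ (.node ⟨598,-21,-102⟩ (.leaf false ⟨⟨21,-558,238⟩,⟨102,238,549⟩,⟨598,-21,-102⟩⟩ (183,[(3,42840),(2,7),(4,103780)]) (176,[(3,10728),(1,149),(2,27)]) (1,[(0,1)])) (.leaf false ⟨⟨-518,-270,165⟩,⟨-30,357,490⟩,⟨315,-410,318⟩⟩ (34,[(5,15278),(4,10335),(0,55)]) (1581,[(2,1866),(5,2354078),(0,5729)]) (17,[(5,37049),(4,8083),(0,53)]))) (.leaf false ⟨⟨-30,-518,315⟩,⟨357,-270,-410⟩,⟨490,165,318⟩⟩ (2992,[(2,4616760),(1,89),(0,6601)]) (10472,[(2,5779688),(1,7553),(0,19433)]) (125664,[(2,42946872),(1,113155),(0,26035)])))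 (.leaf false ⟨⟨-522,-302,-69⟩,⟨22,-171,582⟩,⟨309,-498,-158⟩⟩ (119,[(1,7191),(3,20781),(0,151)]) (238,[(1,155958),(3,99115),(0,171)]) (119,[(1,6596),(3,173472),(0,249)]))) (.node ⟨22,-594,123⟩ (.node ⟨490,-165,318⟩ (.node ⟨606,27,22⟩ (.leaf false ⟨⟨22,-594,123⟩,⟨27,-122,-594⟩,⟨606,27,22⟩⟩ (1,[(2,1)]) (202,[(3,120186),(0,9),(4,24887)]) (1,[(0,1)])) (.leaf false ⟨⟨-603,-66,22⟩,⟨22,-363,-486⟩,⟨66,-482,363⟩⟩ (444,[(3,8432),(1,93),(0,517)]) (9,[(3,1712),(5,73524),(0,121)]) (56610,[(3,23698346),(1,146937),(0,112645)]))) (.leaf false ⟨⟨-518,-117,-294⟩,⟨213,-546,-158⟩,⟨234,238,-507⟩⟩ (18733,[(4,378248),(1,9524),(0,21003)]) (56199,[(4,36804235),(1,66566),(0,53670)]) (56199,[(4,57499832),(1,2657),(0,90628)]))) (.node ⟨-203,126,-558⟩ (.leaf false ⟨⟨-203,126,-558⟩,⟨234,-522,-203⟩,⟨522,283,-126⟩⟩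 (1,[(0,1)]) (123,[(4,33248),(3,184788),(1,203)]) (41,[(4,22326),(3,13345),(1,42)])) (.leaf false ⟨⟨-59,498,-342⟩,⟨162,-318,-491⟩,⟨582,139,102⟩⟩ (4231,[(3,5109540),(1,12168),(0,89)]) (12693,[(3,113065632),(1,190069),(0,30728)]) (4231,[(3,56701427),(1,101350),(0,23114)])))))) (.node ⟨0,1,0⟩ (.node ⟨0,0,1⟩ (.node ⟨238,102,549⟩ (.node ⟨238,558,21⟩ (.node ⟨-21,-102,598⟩ (.leaf false ⟨⟨-558,238,21⟩,⟨-21,-102,598⟩,⟨238,549,102⟩⟩ (183,[(5,103780),(4,42840),(2,7)]) (1,[(0,1)]) (176,[(4,10728),(1,149),(2,27)])) (.leaf false ⟨⟨-558,21,238⟩,⟨-21,598,-102⟩,⟨238,102,549⟩⟩ (34,[(3,12278),(5,19119),(0,7)]) (51,[(3,173600),(5,7350),(0,299)]) (1,[(2,1)]))) (.leaf false ⟨⟨-518,315,-30⟩,⟨-270,-410,357⟩,⟨165,318,490⟩⟩ (2992,[(3,4616760),(1,89),(0,6601)]) (10472,[(3,5779688),(1,7553),(0,19433)])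 (125664,[(3,42946872),(1,113155),(0,26035)]))) (.leaf false ⟨⟨-498,-158,309⟩,⟨-302,-69,-522⟩,⟨-171,582,22⟩⟩ (119,[(1,173472),(0,249),(2,6596)]) (119,[(1,20781),(0,151),(2,7191)]) (238,[(1,99115),(0,171),(2,155958)]))) (.node ⟨-594,22,123⟩ (.node ⟨-165,490,318⟩ (.node ⟨27,606,22⟩ (.leaf false ⟨⟨-594,22,123⟩,⟨-122,27,-594⟩,⟨27,606,22⟩⟩ (1,[(2,1)]) (202,[(3,120186),(5,24887),(0,9)]) (1,[(0,1)])) (.leaf false ⟨⟨-594,-123,22⟩,⟨-122,594,27⟩,⟨-27,22,-606⟩⟩ (20,[(3,18384),(0,55),(1,63)]) (165,[(3,34341),(1,122),(4,38230)]) (1,[(3,584),(0,1),(4,628)]))) (.leaf false ⟨⟨-606,22,-27⟩,⟨22,-123,-594⟩,⟨27,594,-122⟩⟩ (18733,[(1,21907),(3,4861532),(0,10064)]) (5109,[(1,2758),(3,4509817),(0,10610)]) (4323,[(1,296),(3,3430120),(0,1773)]))) (.node ⟨126,-203,-558⟩ (.leaf false ⟨⟨-606,22,-27⟩,⟨22,-123,-594⟩,⟨27,594,-122⟩⟩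 (41,[(4,30192),(3,1100),(1,9)]) (31,[(4,3476),(3,2886),(0,33)]) (123,[(4,69147),(3,75746),(1,122)])) (.leaf false ⟨⟨-594,27,-122⟩,⟨22,606,27⟩,⟨123,22,-594⟩⟩ (12693,[(4,30443220),(0,6005),(1,39832)]) (4231,[(4,62669336),(0,24648),(1,110889)]) (4231,[(4,25122963),(0,5258),(1,44286)]))))) (.node ⟨0,0,1⟩ (.node ⟨123,-594,22⟩ (.node ⟨318,-165,490⟩ (.node ⟨22,27,606⟩ (.leaf false ⟨⟨-594,-122,27⟩,⟨22,27,606⟩,⟨123,-594,22⟩⟩ (202,[(5,120186),(4,24887),(0,9)]) (1,[(0,1)]) (1,[(2,1)])) (.leaf false ⟨⟨-606,-27,22⟩,⟨22,-594,-123⟩,⟨27,-122,594⟩⟩ (1,[(3,628),(5,584),(0,1)]) (20,[(5,18384),(0,55),(1,63)]) (165,[(3,38230),(5,34341),(1,122)]))) (.leaf false ⟨⟨-606,22,27⟩,⟨-27,-594,-122⟩,⟨22,-123,594⟩⟩ (5109,[(2,5380687),(0,10826),(1,2818)]) (1703,[(2,190268),(0,900),(1,1953)]) (56199,[(2,33458620),(0,687),(1,11828)])))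 (.node ⟨-558,126,-203⟩ (.leaf false ⟨⟨-594,22,-123⟩,⟨-122,27,594⟩,⟨-27,-606,22⟩⟩ (31,[(2,2886),(0,33),(3,3476)]) (123,[(2,75746),(1,122),(3,69147)]) (41,[(2,1100),(1,9),(3,30192)])) (.leaf false ⟨⟨-594,123,22⟩,⟨-122,-594,27⟩,⟨27,22,606⟩⟩ (4231,[(1,44286),(3,25122963),(0,5258)]) (12693,[(1,39832),(3,30443220),(0,6005)]) (4231,[(1,110889),(3,62669336),(0,24648)])))) (.node ⟨-165,330,-482⟩ (.node ⟨-374,-357,318⟩ (.node ⟨123,-462,-374⟩ (.leaf false ⟨⟨-462,166,-357⟩,⟨-374,-357,318⟩,⟨123,-462,-374⟩⟩ (165,[(3,18899),(2,83),(5,62535)]) (1,[(1,1)]) (1,[(0,1)])) (.leaf false ⟨⟨-582,-50,165⟩,⟨-165,330,-482⟩,⟨-50,-507,-330⟩⟩ (41,[(3,65791),(0,194),(4,91678)]) (41,[(3,40332),(0,55),(4,11880)]) (123,[(3,59290),(0,50),(4,85461)]))) (.leaf false ⟨⟨-603,22,-66⟩,⟨22,-486,-363⟩,⟨66,363,-482⟩⟩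 (53,[(4,36073),(3,2761),(0,11)]) (106,[(4,42922),(3,94713),(0,121)]) (159,[(4,79640),(3,28320),(0,241)]))) (.leaf false ⟨⟨-603,-66,22⟩,⟨22,-363,-486⟩,⟨66,-482,363⟩⟩ (5,[(1,372),(3,3180),(0,1)]) (10,[(1,10162),(3,1595),(0,11)]) (165,[(1,56267),(3,28875),(0,241)])))))
theorem pf607_ok : pf607.check (ok 607 6 ⟨5, 5, 5⟩) (fun _ r => r) [] = true := by decide +kernel

def pf611 : T := .node ⟨1,0,0⟩ (.node ⟨0,1,0⟩ (.node ⟨0,0,1⟩ (.node ⟨-246,18,559⟩ (.node ⟨78,591,-134⟩ (.node ⟨559,-18,246⟩ (.leaf false ⟨⟨-234,154,543⟩,⟨78,591,-134⟩,⟨559,-18,246⟩⟩ (41,[(3,462),(4,5612),(2,39)]) (1,[(1,1)]) (1,[(0,1)])) (.leaf false ⟨⟨-609,46,18⟩,⟨18,414,-449⟩,⟨46,447,414⟩⟩ (9,[(3,5820),(5,7376),(0,23)]) (1,[(3,5209),(5,12875),(0,23)]) (6,[(3,39138),(5,83567),(0,149)]))) (.leaf false ⟨⟨-294,154,513⟩,⟨271,-462,294⟩,⟨462,369,154⟩⟩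 (134,[(4,618),(3,323819),(0,513)]) (67,[(4,29623),(3,55923),(0,147)]) (67,[(4,36960),(3,70230),(0,77)]))) (.node ⟨462,-294,271⟩ (.leaf false ⟨⟨78,514,321⟩,⟨234,273,-494⟩,⟨559,-186,162⟩⟩ (41,[(2,20428),(1,13),(3,21308)]) (41,[(2,1547),(1,39),(3,11895)]) (10668,[(2,7421608),(0,5949),(1,13069)])) (.leaf false ⟨⟨-494,321,162⟩,⟨234,78,559⟩,⟨273,514,-186⟩⟩ (10668,[(2,5178874),(1,511),(0,11679)]) (889,[(2,1398930),(1,1456),(0,325)]) (10668,[(2,33550600),(1,52955),(0,21893)])))) (.node ⟨-242,546,-129⟩ (.node ⟨561,190,150⟩ (.node ⟨190,-111,-570⟩ (.leaf false ⟨⟨-150,570,-161⟩,⟨190,-111,-570⟩,⟨561,190,150⟩⟩ (91,[(3,2396),(5,9340),(2,95)]) (1,[(0,1)]) (1,[(1,1)])) (.leaf false ⟨⟨-494,351,-78⟩,⟨78,234,559⟩,⟨351,442,-234⟩⟩ (37,[(3,69576),(5,3952),(0,117)]) (37,[(3,23777),(5,17706),(0,78)])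 (111,[(3,277914),(5,122941),(0,442)]))) (.leaf false ⟨⟨-575,90,-186⟩,⟨90,-386,-465⟩,⟨186,465,-350⟩⟩ (25,[(4,3016),(3,8140),(0,31)]) (10,[(4,18291),(3,2030),(0,31)]) (3,[(4,4485),(3,2725),(0,7)]))) (.leaf false ⟨⟨1,78,-606⟩,⟨354,-494,-63⟩,⟨498,351,46⟩⟩ (242,[(1,146781),(0,1),(2,19422)]) (121,[(1,30456),(0,177),(2,36868)]) (121,[(1,26555),(0,249),(2,178425)])))) (.node ⟨0,0,1⟩ (.node ⟨-242,-129,546⟩ (.node ⟨561,150,190⟩ (.node ⟨190,-570,-111⟩ (.leaf false ⟨⟨-150,-161,570⟩,⟨190,-570,-111⟩,⟨561,150,190⟩⟩ (91,[(5,9340),(4,2396),(2,95)]) (1,[(0,1)]) (1,[(1,1)])) (.leaf false ⟨⟨-494,-78,351⟩,⟨78,559,234⟩,⟨351,-234,442⟩⟩ (37,[(5,3952),(4,69576),(0,117)]) (37,[(5,17706),(4,23777),(0,78)]) (111,[(5,122941),(4,277914),(0,442)]))) (.leaf false ⟨⟨-575,-186,90⟩,⟨90,-465,-386⟩,⟨186,-350,465⟩⟩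 (25,[(2,8140),(4,3016),(0,31)]) (10,[(2,2030),(4,18291),(0,31)]) (3,[(2,2725),(4,4485),(0,7)]))) (.leaf false ⟨⟨1,-606,78⟩,⟨354,-63,-494⟩,⟨498,46,351⟩⟩ (242,[(1,19422),(0,1),(2,146781)]) (121,[(1,36868),(0,177),(2,30456)]) (121,[(1,178425),(0,249),(2,26555)]))) (.node ⟨564,0,235⟩ (.leaf false ⟨⟨0,-611,0⟩,⟨235,0,-564⟩,⟨564,0,235⟩⟩ (1,[(2,611)]) (12,[(1,7943),(0,5)]) (1,[(0,1)])) (.node ⟨-354,63,-494⟩ (.leaf false ⟨⟨-546,-26,-273⟩,⟨42,-609,-26⟩,⟨271,42,-546⟩⟩ (235,[(4,25662),(3,6110),(1,273)]) (19,[(4,1152),(3,11634),(0,1)]) (19,[(4,12583),(3,525),(0,21)])) (.leaf false ⟨⟨-606,-78,1⟩,⟨46,-351,498⟩,⟨63,-494,-354⟩⟩ (4935,[(4,2078622),(0,6110),(1,12823)]) (329,[(4,1146236),(0,1833),(1,3156)]) (14805,[(4,110051487),(0,116090),(1,266338)])))))) (.node ⟨0,1,0⟩ (.node ⟨0,0,1⟩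 (.node ⟨-129,546,-242⟩ (.node ⟨150,190,561⟩ (.node ⟨-570,-111,190⟩ (.leaf false ⟨⟨-570,-111,190⟩,⟨-161,570,-150⟩,⟨150,190,561⟩⟩ (1,[(0,1)]) (91,[(3,9340),(5,2396),(2,95)]) (1,[(1,1)])) (.leaf false ⟨⟨-609,46,18⟩,⟨18,414,-449⟩,⟨46,447,414⟩⟩ (111,[(3,10738),(5,93819),(0,46)]) (37,[(3,9607),(5,77994),(0,138)]) (37,[(3,43628),(5,83228),(0,149)]))) (.leaf false ⟨⟨-594,-143,-6⟩,⟨-129,546,-242⟩,⟨-62,234,561⟩⟩ (25,[(2,55389),(0,99),(3,15235)]) (50,[(2,12023),(0,43),(3,35470)]) (75,[(2,59466),(0,31),(3,23440)]))) (.leaf false ⟨⟨-609,18,46⟩,⟨18,-449,414⟩,⟨46,414,447⟩⟩ (121,[(3,76656),(2,14736),(0,23)]) (121,[(3,24525),(2,58693),(0,207)]) (242,[(3,46531),(2,344250),(0,447)]))) (.node ⟨0,564,235⟩ (.leaf false ⟨⟨-611,0,0⟩,⟨0,235,-564⟩,⟨0,564,235⟩⟩ (1,[(3,611)]) (12,[(1,7943),(0,5)])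 (1,[(0,1)])) (.node ⟨63,-354,-494⟩ (.leaf false ⟨⟨-609,42,-26⟩,⟨-26,-546,-273⟩,⟨42,271,-546⟩⟩ (19,[(4,11634),(3,1152),(0,1)]) (235,[(1,273),(4,6110),(3,25662)]) (19,[(4,525),(3,12583),(0,21)])) (.leaf false ⟨⟨-602,-81,66⟩,⟨-81,118,-594⟩,⟨-66,594,127⟩⟩ (423,[(1,8378),(0,4042),(3,3260061)]) (1645,[(1,8604),(0,2115),(3,4298056)]) (4935,[(1,8201),(0,5170),(3,5726574)]))))) (.node ⟨0,0,1⟩ (.node ⟨0,235,564⟩ (.leaf false ⟨⟨-611,0,0⟩,⟨0,-564,235⟩,⟨0,235,564⟩⟩ (1,[(3,611)]) (12,[(0,5),(2,7943)]) (1,[(0,1)])) (.node ⟨63,-494,-354⟩ (.leaf false ⟨⟨-609,-26,42⟩,⟨-26,-273,-546⟩,⟨42,-546,271⟩⟩ (19,[(2,1152),(4,11634),(0,1)]) (235,[(2,25662),(4,6110),(1,273)]) (19,[(2,12583),(4,525),(0,21)])) (.leaf false ⟨⟨-602,66,-81⟩,⟨-81,-594,118⟩,⟨-66,127,594⟩⟩ (423,[(2,3260061),(0,4042),(1,8378)])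 (1645,[(2,4298056),(0,2115),(1,8604)]) (4935,[(2,5726574),(0,5170),(1,8201)])))) (.leaf false ⟨⟨-611,0,0⟩,⟨0,-611,0⟩,⟨0,0,-611⟩⟩ (1,[(2,611)]) (1,[(1,611)]) (1,[(0,611)]))))
theorem pf611_ok : pf611.check (ok 611 6 ⟨5, 5, 5⟩) (fun _ r => r) [] = true := by decide +kernel

def pf613 : T := .node ⟨1,0,0⟩ (.node ⟨0,1,0⟩ (.node ⟨0,0,1⟩ (.leaf false ⟨⟨0,0,613⟩,⟨0,613,0⟩,⟨613,0,0⟩⟩ (1,[(0,613)]) (1,[(1,613)]) (1,[(2,613)])) (.node ⟨-35,0,-612⟩ (.leaf false ⟨⟨-35,0,-612⟩,⟨0,613,0⟩,⟨612,0,-35⟩⟩ (1,[(0,1)]) (1,[(2,613)]) (612,[(3,375769),(0,35)])) (.node ⟨496,-93,-348⟩ (.leaf false ⟨⟨48,496,-357⟩,⟨93,348,496⟩,⟨604,-93,-48⟩⟩ (31,[(2,10023),(0,3),(3,15655)]) (35,[(2,39556),(1,93),(3,12180)]) (35,[(2,55596),(0,35),(1,108)])) (.leaf false ⟨⟨-588,171,28⟩,⟨-21,28,-612⟩,⟨172,588,21⟩⟩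 (1085,[(2,6810808),(1,10044),(0,1995)]) (93,[(2,275352),(1,341),(0,28)]) (1085,[(2,65123871),(1,102548),(0,6860)]))))) (.node ⟨0,0,1⟩ (.node ⟨-35,-612,0⟩ (.leaf false ⟨⟨-35,-612,0⟩,⟨0,0,613⟩,⟨612,-35,0⟩⟩ (1,[(0,1)]) (1,[(1,613)]) (612,[(3,375769),(0,35)])) (.node ⟨496,-348,-93⟩ (.leaf false ⟨⟨48,-357,496⟩,⟨93,496,348⟩,⟨604,-48,-93⟩⟩ (31,[(2,15655),(0,3),(3,10023)]) (35,[(2,12180),(1,93),(3,39556)]) (35,[(1,108),(0,35),(3,55596)])) (.leaf false ⟨⟨-588,-21,172⟩,⟨28,-612,21⟩,⟨171,28,588⟩⟩ (3255,[(1,30628),(3,20907651),(0,6020)]) (31,[(1,124),(3,97296),(0,7)]) (1085,[(1,102517),(3,65097304),(0,6860)])))) (.node ⟨-125,-600,-12⟩ (.node ⟨-125,120,-588⟩ (.leaf false ⟨⟨-125,-600,-12⟩,⟨-120,37,-600⟩,⟨588,-120,-125⟩⟩ (1,[(1,1)]) (49,[(4,370),(3,4187),(0,50)]) (588,[(4,361369),(3,85560),(0,125)]))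 (.node ⟨-132,-579,-152⟩ (.leaf false ⟨⟨-132,-579,-152⟩,⟨189,-188,552⟩,⟨568,-72,-219⟩⟩ (1,[(0,1)]) (1263,[(5,106049),(1,1226),(0,156)]) (5,[(3,2859),(5,2465),(1,3)])) (.leaf false ⟨⟨-120,-588,-125⟩,⟨37,120,-600⟩,⟨600,-125,12⟩⟩ (2275,[(3,327831),(0,500),(2,2712)]) (2275,[(3,1707468),(0,2400),(2,1861)]) (273,[(3,2105852),(0,15025),(2,14556)])))) (.leaf false ⟨⟨21,28,-612⟩,⟨172,-588,-21⟩,⟨588,171,28⟩⟩ (125,[(1,76752),(0,21),(2,9100)]) (125,[(1,4689),(0,172),(2,176700)]) (125,[(1,3556),(0,588),(2,331425)]))))) (.node ⟨0,1,0⟩ (.node ⟨0,0,1⟩ (.node ⟨-612,-35,0⟩ (.leaf false ⟨⟨-612,-35,0⟩,⟨-35,612,0⟩,⟨0,0,613⟩⟩ (1,[(0,1)]) (612,[(0,35),(2,375769)]) (1,[(1,613)])) (.node ⟨-348,496,-93⟩ (.leaf false ⟨⟨-357,48,496⟩,⟨-48,604,-93⟩,⟨496,93,348⟩⟩ (31,[(2,15655),(4,10023),(0,3)])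 (35,[(4,55596),(0,35),(1,108)]) (35,[(2,12180),(4,39556),(1,93)])) (.leaf false ⟨⟨-612,-21,28⟩,⟨21,172,588⟩,⟨28,-588,171⟩⟩ (93,[(4,275352),(1,341),(0,28)]) (1085,[(4,65123871),(1,102548),(0,6860)]) (1085,[(4,6810808),(1,10044),(0,1995)])))) (.node ⟨-600,-125,-12⟩ (.node ⟨120,-125,-588⟩ (.leaf false ⟨⟨-600,-125,-12⟩,⟨-120,588,-125⟩,⟨37,-120,-600⟩⟩ (1,[(1,1)]) (588,[(4,85560),(3,361369),(0,125)]) (49,[(4,4187),(3,370),(0,50)])) (.node ⟨-579,-132,-152⟩ (.leaf false ⟨⟨-579,-132,-152⟩,⟨-188,189,552⟩,⟨-72,568,-219⟩⟩ (1,[(0,1)]) (1263,[(0,156),(1,1226),(4,106049)]) (5,[(3,2859),(1,3),(4,2465)])) (.leaf false ⟨⟨-612,21,28⟩,⟨-21,172,-588⟩,⟨28,588,171⟩⟩ (2275,[(3,4078928),(2,30981),(0,29700)]) (455,[(3,1258012),(2,6824),(0,7055)]) (975,[(3,6840779),(2,48108),(0,49900)])))) (.leaf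 false ⟨⟨-588,172,-21⟩,⟨28,21,-612⟩,⟨171,588,28⟩⟩ (125,[(1,4689),(3,176700),(0,172)]) (125,[(1,76752),(3,9100),(0,21)]) (125,[(1,3556),(3,331425),(0,588)])))) (.node ⟨0,0,1⟩ (.node ⟨-600,-12,-125⟩ (.node ⟨120,-588,-125⟩ (.leaf false ⟨⟨-600,-12,-125⟩,⟨-120,-125,588⟩,⟨37,-600,-120⟩⟩ (1,[(1,1)]) (588,[(2,361369),(4,85560),(0,125)]) (49,[(2,370),(4,4187),(0,50)])) (.node ⟨-579,-152,-132⟩ (.leaf false ⟨⟨-579,-152,-132⟩,⟨-188,552,189⟩,⟨-72,-219,568⟩⟩ (1,[(0,1)]) (1263,[(3,106049),(1,1226),(0,156)]) (5,[(3,2465),(1,3),(4,2859)])) (.leaf false ⟨⟨-612,-21,28⟩,⟨21,172,588⟩,⟨28,-588,171⟩⟩ (2275,[(2,32332),(4,4386991),(0,31100)]) (65,[(2,3216),(4,457148),(0,3335)]) (6825,[(2,95313),(4,17932544),(0,99100)])))) (.leaf false ⟨⟨-588,-21,172⟩,⟨28,-612,21⟩,⟨171,28,588⟩⟩ (125,[(3,176700),(2,4689),(0,172)])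 (125,[(3,9100),(2,76752),(0,21)]) (125,[(3,331425),(2,3556),(0,588)]))) (.node ⟨-188,336,-477⟩ (.node ⟨-576,-27,208⟩ (.leaf false ⟨⟨-576,-27,208⟩,⟨-188,336,-477⟩,⟨-93,-512,-324⟩⟩ (1,[(0,1)]) (1,[(1,1)]) (192,[(2,68656),(0,31),(3,97467)])) (.leaf false ⟨⟨-540,163,-240⟩,⟨-35,-540,-288⟩,⟨288,240,-485⟩⟩ (159,[(1,80),(4,70820),(3,963)]) (13,[(4,10823),(3,7506),(0,18)]) (78464,[(1,54864),(3,1145697),(0,57139)]))) (.leaf false ⟨⟨-597,-44,-132⟩,⟨-44,-492,363⟩,⟨132,-363,-476⟩⟩ (84,[(1,16335),(3,52216),(0,11)]) (28,[(1,9393),(3,8940),(0,41)]) (112,[(1,111029),(3,7964),(0,121)])))))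
theorem pf613_ok : pf613.check (ok 613 6 ⟨5, 5, 5⟩) (fun _ r => r) [] = true := by decide +kernel

def pf617 : T := .node ⟨1,0,0⟩ (.node ⟨0,1,0⟩ (.node ⟨0,0,1⟩ (.node ⟨-240,192,535⟩ (.node ⟨535,192,-240⟩ (.node ⟨-192,585,40⟩ (.leaf false ⟨⟨-192,585,40⟩,⟨240,40,567⟩,⟨535,192,-240⟩⟩ (1,[(0,1)]) (24,[(3,10933),(5,6960),(2,5)]) (1,[(1,1)])) (.leaf false ⟨⟨-212,63,576⟩,⟨396,-432,193⟩,⟨423,436,108⟩⟩ (23280,[(4,195189),(2,25528),(0,6205)]) (7760,[(4,8387619),(2,4408),(0,21515)]) (155,[(1,171),(4,14012),(2,108)]))) (.leaf false ⟨⟨-536,-72,297⟩,⟨72,553,264⟩,⟨297,-264,472⟩⟩ (80,[(4,10085),(3,13248),(0,99)]) (10,[(4,6605),(3,7642),(0,11)]) (30,[(4,40475),(3,3408),(0,59)]))) (.leaf false ⟨⟨33,616,12⟩,⟨396,-12,-473⟩,⟨472,-33,396⟩⟩ (80,[(1,6845),(0,11),(2,51392)]) (20,[(1,8195),(0,33),(2,6096)])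 (30,[(1,43445),(0,59),(2,10338)]))) (.node ⟨-72,31,-612⟩ (.node ⟨472,264,297⟩ (.node ⟨-264,553,-72⟩ (.leaf false ⟨⟨-264,553,-72⟩,⟨297,72,-536⟩,⟨472,264,297⟩⟩ (1,[(0,1)]) (11,[(3,6787),(5,1851),(1,3)]) (1,[(1,1)])) (.leaf false ⟨⟨-68,39,-612⟩,⟨72,612,31⟩,⟨609,-68,-72⟩⟩ (1086,[(4,18027),(2,1088),(0,17)]) (5553,[(1,375),(4,3766168),(0,844)]) (1448,[(4,1818441),(2,582),(0,3499)]))) (.leaf false ⟨⟨-513,112,-324⟩,⟨228,-324,-473⟩,⟨256,513,-228⟩⟩ (11,[(4,21),(3,4400),(0,12)]) (27,[(4,26452),(3,2604),(0,43)]) (99,[(4,61216),(3,70851),(0,76)]))) (.leaf false ⟨⟨24,607,-108⟩,⟨292,84,537⟩,⟨543,-72,-284⟩⟩ (3,[(1,936),(0,1),(2,1852)]) (18,[(1,35010),(0,73),(2,3775)]) (24,[(1,117588),(0,181),(2,3883)])))) (.node ⟨0,0,1⟩ (.node ⟨-72,-612,31⟩ (.node ⟨472,297,264⟩ (.node ⟨-264,-72,553⟩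 (.leaf false ⟨⟨-264,-72,553⟩,⟨297,-536,72⟩,⟨472,297,264⟩⟩ (1,[(0,1)]) (11,[(1,3),(5,1851),(4,6787)]) (1,[(1,1)])) (.leaf false ⟨⟨-68,-612,39⟩,⟨72,31,612⟩,⟨609,-72,-68⟩⟩ (1086,[(3,18027),(0,17),(2,1088)]) (5553,[(3,3766168),(1,375),(0,844)]) (1448,[(3,1818441),(0,3499),(2,582)]))) (.leaf false ⟨⟨-513,-324,112⟩,⟨228,-473,-324⟩,⟨256,-228,513⟩⟩ (11,[(2,4400),(4,21),(0,12)]) (27,[(2,2604),(4,26452),(0,43)]) (99,[(2,70851),(4,61216),(0,76)]))) (.leaf false ⟨⟨24,-108,607⟩,⟨292,537,84⟩,⟨543,-284,-72⟩⟩ (3,[(1,1852),(0,1),(2,936)]) (18,[(1,3775),(0,73),(2,35010)]) (24,[(1,3883),(0,181),(2,117588)]))) (.node ⟨-176,-588,-63⟩ (.node ⟨-176,63,-588⟩ (.node ⟨588,84,-167⟩ (.leaf false ⟨⟨-176,63,-588⟩,⟨63,-608,-84⟩,⟨588,84,-167⟩⟩ (1,[(1,1)]) (7,[(5,617),(4,4319),(1,1)]) (1,[(0,1)]))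 (.leaf false ⟨⟨-608,-105,0⟩,⟨0,0,-617⟩,⟨105,-608,0⟩⟩ (1851,[(5,750272),(0,2940),(1,835)]) (3,[(5,2468),(0,3),(1,4)]) (38871,[(5,232164143),(0,357504),(1,101536)]))) (.leaf false ⟨⟨-159,-572,-168⟩,⟨312,-228,481⟩,⟨508,-39,-348⟩⟩ (147,[(2,15687),(4,1795),(1,143)]) (273,[(4,58600),(0,232),(1,81)]) (21,[(2,14952),(4,8380),(0,13)]))) (.leaf false ⟨⟨33,-248,-564⟩,⟨184,543,-228⟩,⟨588,-156,103⟩⟩ (16,[(1,9213),(0,3),(2,5732)]) (22,[(1,6465),(0,23),(2,1578)]) (44,[(1,4729),(0,147),(2,93300)]))))) (.node ⟨0,1,0⟩ (.node ⟨0,0,1⟩ (.node ⟨-612,-72,31⟩ (.node ⟨297,472,264⟩ (.node ⟨-72,-264,553⟩ (.leaf false ⟨⟨-612,-72,31⟩,⟨-68,609,72⟩,⟨39,-68,612⟩⟩ (1,[(2,1)]) (11,[(5,1639),(4,5283),(1,3)]) (1980,[(2,19),(1,744),(0,1835)])) (.leaf false ⟨⟨-612,-68,39⟩,⟨-72,609,-68⟩,⟨31,72,612⟩⟩ (1086,[(3,18027),(2,1088),(0,17)])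 (1448,[(3,1818441),(2,582),(0,3499)]) (5553,[(3,3766168),(0,844),(1,375)]))) (.leaf false ⟨⟨-609,-72,-68⟩,⟨-72,31,612⟩,⟨-68,612,-39⟩⟩ (99,[(2,46860),(0,203),(3,88688)]) (33,[(2,22308),(0,8),(3,4799)]) (297,[(2,6369),(0,68),(3,213860)]))) (.leaf false ⟨⟨-473,396,-12⟩,⟨12,33,616⟩,⟨396,472,-33⟩⟩ (2,[(1,317),(3,7678),(0,11)]) (24,[(1,15125),(3,6444),(0,11)]) (9,[(1,1532),(3,32544),(0,59)]))) (.node ⟨-63,-176,-588⟩ (.node ⟨-588,-176,63⟩ (.node ⟨-167,588,84⟩ (.leaf false ⟨⟨-588,-176,63⟩,⟨-167,588,84⟩,⟨-84,63,-608⟩⟩ (1,[(1,1)]) (1,[(0,1)]) (7,[(3,4319),(1,1),(4,617)])) (.leaf false ⟨⟨-617,0,0⟩,⟨0,-608,-105⟩,⟨0,105,-608⟩⟩ (3,[(1,4),(4,2468),(0,3)]) (1851,[(1,835),(4,750272),(0,2940)]) (38871,[(1,101536),(4,232164143),(0,357504)]))) (.leaf false ⟨⟨-500,345,-108⟩,⟨33,-140,-600⟩,⟨360,492,-95⟩⟩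 (7,[(4,10556),(3,303),(0,12)]) (5551,[(1,5567),(3,42844),(0,908)]) (63,[(4,33180),(3,14276),(0,95)]))) (.leaf false ⟨⟨-572,39,-228⟩,⟨-168,348,481⟩,⟨159,508,-312⟩⟩ (176,[(1,63060),(3,103129),(0,39)]) (44,[(1,29992),(3,12873),(0,87)]) (44,[(1,88404),(3,1005),(0,127)])))) (.node ⟨0,0,1⟩ (.node ⟨-63,-588,-176⟩ (.node ⟨-588,63,-176⟩ (.node ⟨-167,84,588⟩ (.leaf false ⟨⟨-588,63,-176⟩,⟨-167,84,588⟩,⟨-84,-608,63⟩⟩ (1,[(1,1)]) (1,[(0,1)]) (7,[(3,617),(1,1),(4,4319)])) (.leaf false ⟨⟨-617,0,0⟩,⟨0,-608,105⟩,⟨0,-105,-608⟩⟩ (3,[(3,2468),(1,4),(0,3)]) (38871,[(3,232164143),(1,101536),(0,357504)]) (1851,[(3,750272),(1,835),(0,2940)]))) (.leaf false ⟨⟨-500,-108,345⟩,⟨33,-600,-140⟩,⟨360,-95,492⟩⟩ (7,[(2,303),(4,10556),(0,12)]) (5551,[(2,42844),(1,5567),(0,908)]) (63,[(2,14276),(4,33180),(0,95)])))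 (.leaf false ⟨⟨-572,-228,39⟩,⟨-168,481,348⟩,⟨159,-312,508⟩⟩ (176,[(3,103129),(2,63060),(0,39)]) (44,[(3,12873),(2,29992),(0,87)]) (44,[(3,1005),(2,88404),(0,127)]))) (.leaf false ⟨⟨-617,0,0⟩,⟨0,-617,0⟩,⟨0,0,-617⟩⟩ (1,[(2,617)]) (1,[(1,617)]) (1,[(0,617)]))))
theorem pf617_ok : pf617.check (ok 617 6 ⟨5, 5, 5⟩) (fun _ r => r) [] = true := by decide +kernel

def pf619 : T := .node ⟨1,0,0⟩ (.node ⟨0,1,0⟩ (.node ⟨0,0,1⟩ (.leaf false ⟨⟨0,0,619⟩,⟨0,619,0⟩,⟨619,0,0⟩⟩ (1,[(0,619)]) (1,[(1,619)]) (1,[(2,619)])) (.node ⟨-105,70,-606⟩ (.node ⟨-105,606,70⟩ (.leaf false ⟨⟨-105,70,-606⟩,⟨6,615,70⟩,⟨610,6,-105⟩⟩ (1,[(1,1)]) (202,[(2,210),(4,22737),(0,205)]) (35,[(2,1857),(4,21665),(1,3)])) (.leaf false ⟨⟨-78,-9,-614⟩,⟨394,474,-57⟩,⟨471,-398,-54⟩⟩ (11830,[(3,815082),(1,11655),(0,2867)])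 (70,[(4,21595),(3,67722),(0,57)]) (35,[(4,13650),(3,2432),(0,27)]))) (.leaf false ⟨⟨6,70,-615⟩,⟨105,606,70⟩,⟨610,-105,-6⟩⟩ (35,[(1,22737),(0,2),(2,2590)]) (1,[(1,536),(0,1),(2,676)]) (21,[(1,74058),(0,122),(2,6335)])))) (.node ⟨0,0,1⟩ (.node ⟨-105,-606,70⟩ (.node ⟨-105,70,606⟩ (.leaf false ⟨⟨-105,-606,70⟩,⟨6,70,615⟩,⟨610,-105,6⟩⟩ (1,[(1,1)]) (202,[(4,22737),(3,210),(0,205)]) (35,[(4,21665),(3,1857),(1,3)])) (.leaf false ⟨⟨-78,-614,-9⟩,⟨394,-57,474⟩,⟨471,-54,-398⟩⟩ (11830,[(2,815082),(0,2867),(1,11655)]) (70,[(2,67722),(4,21595),(0,57)]) (35,[(2,2432),(4,13650),(0,27)]))) (.leaf false ⟨⟨6,-615,70⟩,⟨105,70,606⟩,⟨610,-6,-105⟩⟩ (35,[(1,2590),(0,2),(2,22737)]) (1,[(1,676),(0,1),(2,536)]) (21,[(1,6335),(0,122),(2,74058)]))) (.node ⟨582,-119,174⟩ (.node ⟨-110,-594,135⟩ (.node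 ⟨-135,-110,-594⟩ (.leaf false ⟨⟨-135,-110,-594⟩,⟨-110,-594,135⟩,⟨594,-135,-110⟩⟩ (1,[(0,1)]) (1,[(1,1)]) (22,[(3,3095),(5,13618),(1,5)])) (.leaf false ⟨⟨-78,-614,-9⟩,⟨394,-57,474⟩,⟨471,-54,-398⟩⟩ (34045,[(3,11621106),(0,10604),(1,37155)]) (68090,[(3,117356829),(0,240306),(1,51035)]) (34045,[(3,102396218),(0,142857),(1,29550)]))) (.leaf false ⟨⟨78,-281,-546⟩,⟨126,546,-263⟩,⟨601,-78,126⟩⟩ (55,[(2,24765),(0,39),(3,38621)]) (55,[(2,5960),(0,63),(3,7392)]) (32570,[(0,10414),(1,31665),(3,4958241)]))) (.leaf false ⟨⟨-551,6,-282⟩,⟨138,-534,-281⟩,⟨246,313,-474⟩⟩ (29,[(3,11375),(2,5419),(0,47)]) (174,[(3,187554),(2,126355),(0,281)]) (29,[(3,53112),(2,324),(0,79)]))))) (.node ⟨0,1,0⟩ (.node ⟨0,0,1⟩ (.node ⟨-606,-105,70⟩ (.node ⟨70,-105,606⟩ (.leaf false ⟨⟨-615,-6,70⟩,⟨6,610,105⟩,⟨70,-105,606⟩⟩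 (1,[(1,1),(4,9),(3,99)]) (202,[(4,1238),(3,126895),(0,35)]) (1,[(0,1)])) (.leaf false ⟨⟨-614,-78,-9⟩,⟨-57,394,474⟩,⟨-54,471,-398⟩⟩ (11830,[(2,815082),(1,11655),(0,2867)]) (70,[(2,67722),(0,57),(3,21595)]) (35,[(2,2432),(0,27),(3,13650)]))) (.leaf false ⟨⟨-618,9,34⟩,⟨-9,538,-306⟩,⟨34,306,537⟩⟩ (35,[(1,1400),(3,23448),(0,3)]) (105,[(1,5530),(3,326973),(0,538)]) (35,[(1,25935),(3,60622),(0,102)]))) (.node ⟨-119,582,174⟩ (.node ⟨-594,-110,135⟩ (.node ⟨-110,-135,-594⟩ (.leaf false ⟨⟨-606,-126,7⟩,⟨-119,582,174⟩,⟨-42,169,-594⟩⟩ (342633,[(0,73832),(1,334641),(2,6196)]) (1,[(2,1)]) (55,[(3,20196),(0,21),(4,12130)])) (.leaf false ⟨⟨-618,9,34⟩,⟨-9,538,-306⟩,⟨34,306,537⟩⟩ (34045,[(3,26318642),(1,42210),(0,36663)]) (68090,[(3,219402693),(1,60395),(0,320562)]) (34045,[(3,36553188),(1,14535),(0,89012)])))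 (.leaf false ⟨⟨-281,78,-546⟩,⟨-78,601,126⟩,⟨546,126,-263⟩⟩ (55,[(2,24765),(4,38621),(0,39)]) (32570,[(4,4958241),(1,31665),(0,10414)]) (55,[(2,5960),(4,7392),(0,63)]))) (.leaf false ⟨⟨-614,57,-54⟩,⟨-9,-474,-398⟩,⟨78,394,-471⟩⟩ (29,[(3,18877),(2,6891),(0,9)]) (87,[(3,24464),(2,74580),(0,199)]) (58,[(3,14159),(2,114226),(0,157)])))) (.node ⟨0,0,1⟩ (.node ⟨-119,174,582⟩ (.node ⟨-594,135,-110⟩ (.node ⟨-110,-594,-135⟩ (.leaf false ⟨⟨-606,7,-126⟩,⟨-119,174,582⟩,⟨-42,-594,169⟩⟩ (342633,[(2,6196),(1,334641),(0,73832)]) (1,[(2,1)]) (55,[(3,12130),(0,21),(4,20196)])) (.leaf false ⟨⟨-618,-9,34⟩,⟨9,538,306⟩,⟨34,-306,537⟩⟩ (34045,[(1,43585),(4,32378652),(0,44088)]) (68090,[(1,32445),(4,75127411),(0,180774)]) (34045,[(1,27240),(4,107720856),(0,157619)]))) (.leaf false ⟨⟨-281,-546,78⟩,⟨-78,126,601⟩,⟨546,-263,126⟩⟩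 (55,[(4,38621),(3,24765),(0,39)]) (32570,[(1,31665),(4,4958241),(0,10414)]) (55,[(4,7392),(3,5960),(0,63)]))) (.leaf false ⟨⟨-614,-54,57⟩,⟨-9,-398,-474⟩,⟨78,-471,394⟩⟩ (29,[(1,6891),(3,18877),(0,9)]) (87,[(1,74580),(3,24464),(0,199)]) (58,[(1,114226),(3,14159),(0,157)]))) (.node ⟨-306,330,-425⟩ (.node ⟨-534,-254,183⟩ (.node ⟨183,-506,-306⟩ (.leaf false ⟨⟨-534,-279,142⟩,⟨-254,222,-519⟩,⟨183,-506,-306⟩⟩ (1,[(3,41),(1,1),(4,25)]) (55,[(3,12820),(2,37),(5,2648)]) (1,[(0,1)])) (.leaf false ⟨⟨-570,-119,210⟩,⟨-210,510,-281⟩,⟨-119,-330,-510⟩⟩ (61,[(3,45330),(0,190),(4,103399)]) (61,[(3,38561),(0,70),(4,4310)]) (183,[(3,129744),(0,119),(4,120604)]))) (.leaf false ⟨⟨-614,57,-54⟩,⟨-9,-474,-398⟩,⟨78,394,-471⟩⟩ (61,[(4,47066),(3,1095),(0,18)]) (183,[(4,214179),(3,187834),(0,398)])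 (61,[(4,79080),(3,15844),(0,157)]))) (.leaf false ⟨⟨-614,-54,57⟩,⟨-9,-398,-474⟩,⟨78,-471,394⟩⟩ (55,[(1,690),(3,36524),(0,9)]) (165,[(1,162785),(3,62379),(0,199)]) (110,[(1,23385),(3,39462),(0,157)])))))
theorem pf619_ok : pf619.check (ok 619 6 ⟨5, 5, 5⟩) (fun _ r => r) [] = true := by decide +kernel

def pf629 : T := .node ⟨1,0,0⟩ (.node ⟨0,1,0⟩ (.node ⟨0,0,1⟩ (.node ⟨-296,180,525⟩ (.node ⟨0,595,-204⟩ (.leaf false ⟨⟨-296,180,525⟩,⟨0,595,-204⟩,⟨555,96,280⟩⟩ (1,[(1,1)]) (1,[(0,1)]) (15,[(4,10693),(1,8)])) (.leaf false ⟨⟨-276,37,564⟩,⟨388,-444,219⟩,⟨411,444,172⟩⟩ (5032,[(3,434639),(1,4692),(0,1837)]) (68,[(4,26384),(3,13243),(0,73)]) (51,[(4,20961),(3,48229),(0,43)]))) (.leaf false ⟨⟨28,621,96⟩,⟨336,-96,523⟩,⟨531,28,-336⟩⟩ (74,[(1,10779),(0,7),(2,47214)]) (37,[(1,41401),(0,42),(2,4008)])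 (296,[(1,179319),(0,531),(2,103868)]))) (.node ⟨-204,595,0⟩ (.leaf false ⟨⟨-204,595,0⟩,⟨0,0,-629⟩,⟨595,204,0⟩⟩ (1,[(0,1)]) (1,[(1,629)]) (35,[(3,23273),(0,12)])) (.leaf false ⟨⟨0,0,-629⟩,⟨204,595,0⟩,⟨595,-204,0⟩⟩ (1,[(1,629)]) (1,[(0,1),(2,1190)]) (12,[(0,35),(2,18377)])))) (.node ⟨0,0,1⟩ (.node ⟨-204,0,595⟩ (.leaf false ⟨⟨-204,0,595⟩,⟨0,-629,0⟩,⟨595,0,204⟩⟩ (1,[(0,1)]) (1,[(2,629)]) (35,[(3,23273),(0,12)])) (.leaf false ⟨⟨0,-629,0⟩,⟨204,0,595⟩,⟨595,0,-204⟩⟩ (1,[(2,629)]) (1,[(1,1190),(0,1)]) (12,[(1,18377),(0,35)]))) (.node ⟨621,0,100⟩ (.leaf false ⟨⟨0,-629,0⟩,⟨100,0,-621⟩,⟨621,0,100⟩⟩ (1,[(2,629)]) (621,[(1,395641),(0,100)]) (1,[(0,1)])) (.leaf false ⟨⟨-296,0,-555⟩,⟨0,-629,0⟩,⟨555,0,-296⟩⟩ (20,[(3,63011),(0,111)]) (1,[(2,629)]) (25,[(3,59829),(0,74)]))))) (.node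 ⟨0,1,0⟩ (.node ⟨0,0,1⟩ (.node ⟨0,-204,595⟩ (.leaf false ⟨⟨-629,0,0⟩,⟨0,-204,595⟩,⟨0,595,204⟩⟩ (1,[(3,629)]) (1,[(0,1)]) (35,[(0,12),(2,23273)])) (.leaf false ⟨⟨-629,0,0⟩,⟨0,204,595⟩,⟨0,595,-204⟩⟩ (1,[(3,629)]) (1,[(1,1190),(0,1)]) (12,[(1,18377),(0,35)]))) (.node ⟨0,621,100⟩ (.leaf false ⟨⟨-629,0,0⟩,⟨0,100,-621⟩,⟨0,621,100⟩⟩ (1,[(3,629)]) (621,[(1,395641),(0,100)]) (1,[(0,1)])) (.leaf false ⟨⟨-629,0,0⟩,⟨0,-296,-555⟩,⟨0,555,-296⟩⟩ (1,[(3,629)]) (20,[(0,111),(2,63011)]) (25,[(0,74),(2,59829)])))) (.node ⟨0,0,1⟩ (.node ⟨0,100,621⟩ (.leaf false ⟨⟨-629,0,0⟩,⟨0,-621,100⟩,⟨0,100,621⟩⟩ (1,[(3,629)]) (621,[(0,100),(2,395641)]) (1,[(0,1)])) (.leaf false ⟨⟨-629,0,0⟩,⟨0,-555,-296⟩,⟨0,-296,555⟩⟩ (1,[(3,629)]) (20,[(1,63011),(0,111)]) (25,[(1,59829),(0,74)]))) (.leaf false ⟨⟨-629,0,0⟩,⟨0,-629,0⟩,⟨0,0,-629⟩⟩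 (1,[(2,629)]) (1,[(1,629)]) (1,[(0,629)]))))
theorem pf629_ok : pf629.check (ok 629 6 ⟨5, 5, 5⟩) (fun _ r => r) [] = true := by decide +kernel

def pf631 : T := .node ⟨1,0,0⟩ (.node ⟨0,1,0⟩ (.node ⟨0,0,1⟩ (.leaf false ⟨⟨0,0,631⟩,⟨0,631,0⟩,⟨631,0,0⟩⟩ (1,[(0,631)]) (1,[(1,631)]) (1,[(2,631)])) (.node ⟨-210,594,-35⟩ (.node ⟨-210,-35,-594⟩ (.leaf false ⟨⟨-210,-35,-594⟩,⟨-6,630,-35⟩,⟨595,-6,-210⟩⟩ (1,[(0,1)]) (1,[(4,204),(3,36),(1,1)]) (99,[(4,66255),(3,631),(0,35)])) (.leaf false ⟨⟨-138,514,-339⟩,⟨189,366,478⟩,⟨586,3,-234⟩⟩ (297,[(2,91688),(4,12984),(1,257)]) (6290,[(2,2225869),(0,9006),(1,3345)]) (35,[(2,9972),(4,19880),(0,3)]))) (.node ⟨534,-294,163⟩ (.leaf false ⟨⟨109,-138,-606⟩,⟨318,541,-66⟩,⟨534,-294,163⟩⟩ (210,[(2,131075),(1,109),(3,35766)]) (35,[(2,4165),(1,53),(3,50417)])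 (1,[(0,1)])) (.leaf false ⟨⟨-582,154,-189⟩,⟨154,-147,-594⟩,⟨189,594,-98⟩⟩ (259,[(1,101),(3,5212),(0,322)]) (7770,[(1,171149),(3,81391206),(0,65065)]) (20,[(1,107),(3,65148),(0,35)]))))) (.node ⟨0,0,1⟩ (.node ⟨-210,-35,594⟩ (.node ⟨-210,-594,-35⟩ (.leaf false ⟨⟨-210,-594,-35⟩,⟨-6,-35,630⟩,⟨595,-210,-6⟩⟩ (1,[(0,1)]) (1,[(2,36),(4,204),(1,1)]) (99,[(2,631),(4,66255),(0,35)])) (.leaf false ⟨⟨-138,-339,514⟩,⟨189,478,366⟩,⟨586,-234,3⟩⟩ (297,[(4,12984),(3,91688),(1,257)]) (6290,[(3,2225869),(1,3345),(0,9006)]) (35,[(4,19880),(3,9972),(0,3)]))) (.node ⟨534,163,-294⟩ (.leaf false ⟨⟨109,-618,66⟩,⟨402,19,-486⟩,⟨474,126,397⟩⟩ (210,[(2,78606),(1,109),(3,133595)]) (35,[(2,22788),(1,67),(3,1680)]) (89,[(2,58559),(0,79),(3,1663)])) (.leaf false ⟨⟨-582,-189,154⟩,⟨154,-594,-147⟩,⟨189,-98,594⟩⟩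 (259,[(2,5212),(1,101),(0,322)]) (7770,[(2,81391206),(1,171149),(0,65065)]) (20,[(2,65148),(1,107),(0,35)])))) (.node ⟨46,-621,102⟩ (.node ⟨46,102,-621⟩ (.node ⟨582,189,154⟩ (.leaf false ⟨⟨46,-621,102⟩,⟨54,-98,-621⟩,⟨627,54,46⟩⟩ (1,[(2,1)]) (97,[(3,61623),(0,9),(4,11207)]) (194,[(3,23262),(0,209),(4,29025)])) (.leaf false ⟨⟨-269,-570,-30⟩,⟨30,19,-630⟩,⟨570,-270,19⟩⟩ (19152,[(5,1665292),(2,13685),(0,12795)]) (133077,[(1,121996),(5,28912796),(0,52461)]) (4256,[(5,2688268),(2,1673),(0,583)]))) (.leaf false ⟨⟨-198,-494,-339⟩,⟨154,-387,474⟩,⟨579,-66,-242⟩⟩ (51,[(2,170676),(4,1264),(0,247)]) (34,[(2,63993),(4,11170),(0,129)]) (17,[(2,10945),(4,10349),(0,11)]))) (.leaf false ⟨⟨-198,-339,-494⟩,⟨154,474,-387⟩,⟨579,-242,-66⟩⟩ (51,[(3,1264),(2,170676),(0,247)]) (34,[(3,11170),(2,63993),(0,129)])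 (17,[(3,10349),(2,10945),(0,11)]))))) (.node ⟨0,1,0⟩ (.node ⟨0,0,1⟩ (.node ⟨-35,594,-210⟩ (.node ⟨-594,-35,-210⟩ (.leaf false ⟨⟨-630,-35,6⟩,⟨-35,594,-210⟩,⟨-6,210,595⟩⟩ (33,[(2,7548),(0,35),(3,70)]) (1,[(1,1)]) (35,[(2,22085),(1,6),(3,3786)])) (.leaf false ⟨⟨-594,210,-35⟩,⟨-35,6,630⟩,⟨210,595,6⟩⟩ (99,[(2,3885),(4,57581),(1,35)]) (35,[(2,20790),(4,4789),(0,6)]) (22015,[(4,7372086),(1,20790),(0,21419)]))) (.node ⟨163,-294,534⟩ (.leaf false ⟨⟨-618,19,126⟩,⟨66,-486,397⟩,⟨109,402,474⟩⟩ (5,[(4,3195),(3,1877),(1,3)]) (210,[(4,35),(3,133758),(1,397)]) (89,[(4,3176),(3,59004),(0,79)])) (.leaf false ⟨⟨-630,-35,-6⟩,⟨-35,594,210⟩,⟨6,-210,595⟩⟩ (70,[(3,720154),(1,1511),(0,595)]) (37,[(3,86532),(1,126),(0,35)]) (15540,[(3,46690404),(1,93781),(0,19565)])))) (.node ⟨-621,46,102⟩ (.node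 ⟨102,46,-621⟩ (.node ⟨189,582,154⟩ (.leaf false ⟨⟨-621,46,102⟩,⟨-98,54,-621⟩,⟨54,627,46⟩⟩ (1,[(2,1)]) (97,[(3,61623),(5,11207),(0,9)]) (194,[(3,23262),(5,29025),(0,209)])) (.leaf false ⟨⟨-630,30,19⟩,⟨-30,-269,-570⟩,⟨19,570,-270⟩⟩ (12768,[(2,11179),(4,3261284),(0,5829)]) (44359,[(4,1379789),(1,34370),(0,25590)]) (125079,[(2,5247),(4,68512444),(1,55244)]))) (.leaf false ⟨⟨-621,-102,46⟩,⟨-98,621,54⟩,⟨-54,46,-627⟩⟩ (34,[(2,126983),(0,207),(3,6054)]) (51,[(2,27675),(0,49),(3,33925)]) (17,[(2,16248),(0,9),(3,1196)]))) (.leaf false ⟨⟨-627,46,-54⟩,⟨46,-102,-621⟩,⟨54,621,-98⟩⟩ (17,[(3,16248),(2,1196),(0,9)]) (34,[(3,126983),(2,6054),(0,207)]) (51,[(3,27675),(2,33925),(0,49)])))) (.node ⟨0,0,1⟩ (.node ⟨102,-621,46⟩ (.node ⟨-621,102,46⟩ (.node ⟨154,189,582⟩ (.leaf false ⟨⟨-621,-98,54⟩,⟨46,54,627⟩,⟨102,-621,46⟩⟩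 (97,[(5,61623),(4,11207),(0,9)]) (194,[(5,23262),(4,29025),(0,209)]) (1,[(2,1)])) (.leaf false ⟨⟨-630,19,30⟩,⟨-30,-570,-269⟩,⟨19,-270,570⟩⟩ (133077,[(3,28912796),(1,121996),(0,52461)]) (19152,[(3,1665292),(0,12795),(2,13685)]) (4256,[(3,2688268),(0,583),(2,1673)]))) (.leaf false ⟨⟨-627,-54,46⟩,⟨46,-621,-102⟩,⟨54,-98,621⟩⟩ (17,[(2,1196),(4,16248),(0,9)]) (34,[(2,6054),(4,126983),(0,207)]) (51,[(2,33925),(4,27675),(0,49)]))) (.leaf false ⟨⟨-621,46,-102⟩,⟨-98,54,621⟩,⟨-54,-627,46⟩⟩ (34,[(1,6054),(0,207),(2,126983)]) (51,[(1,33925),(0,49),(2,27675)]) (17,[(1,1196),(0,9),(2,16248)]))) (.node ⟨-285,406,-390⟩ (.node ⟨-579,-198,154⟩ (.node ⟨66,-494,-387⟩ (.leaf false ⟨⟨-579,-198,154⟩,⟨-242,339,-474⟩,⟨66,-494,-387⟩⟩ (1,[(1,1)]) (285,[(3,40710),(2,242),(4,1637)]) (1,[(0,1)]))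 (.leaf false ⟨⟨-627,-26,66⟩,⟨-66,429,-458⟩,⟨-26,-462,-429⟩⟩ (2,[(3,7221),(0,19),(4,9438)]) (1,[(3,845),(0,1),(4,65)]) (33,[(3,19188),(0,13),(4,21668)]))) (.leaf false ⟨⟨-627,-66,-26⟩,⟨-26,429,-462⟩,⟨66,-458,-429⟩⟩ (77,[(4,55806),(3,7656),(0,13)]) (1,[(4,1763),(3,165),(0,3)]) (14,[(4,21657),(3,14134),(0,39)]))) (.leaf false ⟨⟨-627,-26,-66⟩,⟨-26,-462,429⟩,⟨66,-429,-458⟩⟩ (203,[(1,18468),(3,130986),(0,13)]) (29,[(1,429),(3,10159),(0,33)]) (406,[(1,353258),(3,95469),(0,429)])))))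
theorem pf631_ok : pf631.check (ok 631 6 ⟨5, 5, 5⟩) (fun _ r => r) [] = true := by decide +kernel

def pf641 : T := .node ⟨1,0,0⟩ (.node ⟨0,1,0⟩ (.node ⟨0,0,1⟩ (.node ⟨-308,216,519⟩ (.node ⟨369,412,-324⟩ (.node ⟨516,-216,313⟩ (.leaf false ⟨⟨-92,441,456⟩,⟨369,412,-324⟩,⟨516,-216,313⟩⟩ (77,[(3,23175),(4,28989),(2,23)]) (1,[(1,1)]) (1,[(0,1)])) (.leaf false ⟨⟨-569,264,132⟩,⟨132,484,-399⟩,⟨264,327,484⟩⟩ (9,[(3,4631),(5,555),(0,11)]) (54,[(3,16327),(5,69564),(0,121)]) (72,[(3,68965),(5,75252),(0,109)]))) (.leaf false ⟨⟨-441,-92,456⟩,⟨216,516,313⟩,⟨412,-369,324⟩⟩ (27,[(4,2115),(3,13172),(0,38)]) (324,[(4,185481),(3,296140),(0,313)]) (1,[(4,781),(3,43),(0,1)]))) (.leaf false ⟨⟨12,636,79⟩,⟨376,57,-516⟩,⟨519,-56,372⟩⟩ (77,[(1,7640),(0,3),(2,49620)]) (77,[(1,9054),(0,94),(2,24693)])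 (308,[(1,383937),(0,519),(2,94856)]))) (.node ⟨-249,588,-56⟩ (.node ⟨-345,16,-540⟩ (.node ⟨-56,-84,-633⟩ (.leaf false ⟨⟨-249,588,-56⟩,⟨-56,-84,-633⟩,⟨588,241,-84⟩⟩ (1,[(2,1)]) (1,[(0,1)]) (45,[(5,28875),(4,10733),(1,7)])) (.leaf false ⟨⟨-576,232,-159⟩,⟨97,504,384⟩,⟨264,321,-488⟩⟩ (4624,[(5,1369903),(0,10228),(1,13351)]) (2312,[(5,3697293),(0,11596),(1,11949)]) (28,[(3,81395),(5,1400),(0,107)]))) (.leaf false ⟨⟨-231,592,-84⟩,⟨396,84,-497⟩,⟨448,231,396⟩⟩ (16573,[(2,977360),(0,965),(1,16712)]) (16573,[(2,19491353),(0,21147),(1,2943)]) (198876,[(2,89689996),(0,320943),(1,86863)]))) (.leaf false ⟨⟨48,16,-639⟩,⟨384,-513,16⟩,⟨511,384,48⟩⟩ (83,[(1,53933),(0,16),(2,10736)]) (83,[(1,5840),(0,128),(2,32685)]) (249,[(1,16664),(0,511),(2,396084)])))) (.node ⟨0,0,1⟩ (.node ⟨-249,-56,588⟩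 (.node ⟨-345,-540,16⟩ (.node ⟨-56,-633,-84⟩ (.leaf false ⟨⟨-249,-56,588⟩,⟨-56,-633,-84⟩,⟨588,-84,241⟩⟩ (1,[(2,1)]) (1,[(0,1)]) (45,[(3,10733),(5,28875),(1,7)])) (.leaf false ⟨⟨-576,-159,232⟩,⟨97,384,504⟩,⟨264,-488,321⟩⟩ (4624,[(5,1369903),(1,13351),(0,10228)]) (2312,[(5,3697293),(1,11949),(0,11596)]) (28,[(5,1400),(4,81395),(0,107)]))) (.leaf false ⟨⟨-231,-84,592⟩,⟨396,-497,84⟩,⟨448,396,231⟩⟩ (16573,[(3,977360),(1,16712),(0,965)]) (16573,[(3,19491353),(1,2943),(0,21147)]) (198876,[(3,89689996),(1,86863),(0,320943)]))) (.leaf false ⟨⟨48,-639,16⟩,⟨384,16,-513⟩,⟨511,48,384⟩⟩ (83,[(1,10736),(0,16),(2,53933)]) (83,[(1,32685),(0,128),(2,5840)]) (249,[(1,396084),(0,511),(2,16664)]))) (.node ⟨-200,-609,0⟩ (.leaf false ⟨⟨-200,-609,0⟩,⟨0,0,-641⟩,⟨609,-200,0⟩⟩ (1,[(0,1)]) (1,[(1,641)])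 (609,[(3,410881),(0,200)])) (.node ⟨484,-327,264⟩ (.leaf false ⟨⟨7,-396,-504⟩,⟨396,399,-308⟩,⟨504,-308,249⟩⟩ (200,[(2,100800),(1,7),(3,83463)]) (50,[(2,15400),(1,99),(3,40341)]) (880,[(1,209),(0,830),(3,126911)])) (.leaf false ⟨⟨-561,36,-308⟩,⟨156,583,-216⟩,⟨268,-264,-519⟩⟩ (600,[(1,11),(3,213999),(0,700)]) (275,[(1,759),(3,375481),(0,225)]) (4400,[(1,26829),(3,20329011),(0,8650)])))))) (.node ⟨0,1,0⟩ (.node ⟨0,0,1⟩ (.node ⟨-56,588,-249⟩ (.node ⟨-540,16,-345⟩ (.node ⟨-633,-84,-56⟩ (.leaf false ⟨⟨-633,-84,-56⟩,⟨-84,241,588⟩,⟨-56,588,-249⟩⟩ (1,[(0,1)]) (45,[(3,28875),(1,7),(4,10733)]) (1,[(2,1)])) (.leaf false ⟨⟨-639,48,16⟩,⟨16,384,-513⟩,⟨48,511,384⟩⟩ (4624,[(3,2417461),(1,7005),(0,1308)]) (867,[(3,676630),(1,3777),(0,3244)]) (12,[(3,520),(5,45633),(0,73)]))) (.leaf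 false ⟨⟨-588,241,-84⟩,⟨-56,84,633⟩,⟨249,588,-56⟩⟩ (66292,[(4,39363804),(1,27267),(0,3539)]) (16573,[(4,18435984),(1,3259),(0,32760)]) (49719,[(4,112813),(1,50491),(0,28371)]))) (.leaf false ⟨⟨-639,16,48⟩,⟨16,-513,384⟩,⟨48,384,511⟩⟩ (83,[(3,53933),(2,10736),(0,16)]) (83,[(3,5840),(2,32685),(0,128)]) (249,[(3,16664),(2,396084),(0,511)]))) (.node ⟨0,-200,-609⟩ (.leaf false ⟨⟨-641,0,0⟩,⟨0,-200,-609⟩,⟨0,609,-200⟩⟩ (1,[(3,641)]) (1,[(0,1)]) (609,[(0,200),(2,410881)])) (.node ⟨264,484,-327⟩ (.leaf false ⟨⟨-639,48,16⟩,⟨16,384,-513⟩,⟨48,511,384⟩⟩ (25,[(2,3254),(4,15975),(1,6)]) (121,[(2,30681),(4,23408),(0,96)]) (2200,[(2,1858077),(1,4653),(0,400)])) (.leaf false ⟨⟨-633,-84,-56⟩,⟨-84,241,588⟩,⟨-56,588,-249⟩⟩ (4400,[(2,18119197),(0,10550),(1,23683)]) (440,[(2,316281),(0,140),(1,869)])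 (825,[(2,1997691),(0,175),(1,2849)]))))) (.node ⟨0,0,1⟩ (.node ⟨0,-609,-200⟩ (.leaf false ⟨⟨-641,0,0⟩,⟨0,-609,-200⟩,⟨0,-200,609⟩⟩ (1,[(3,641)]) (1,[(0,1)]) (609,[(1,410881),(0,200)])) (.node ⟨264,-327,484⟩ (.leaf false ⟨⟨-639,16,48⟩,⟨16,-513,384⟩,⟨48,384,511⟩⟩ (25,[(1,6),(4,15975),(3,3254)]) (121,[(4,23408),(3,30681),(0,96)]) (2200,[(1,4653),(3,1858077),(0,400)])) (.leaf false ⟨⟨-633,-56,-84⟩,⟨-84,588,241⟩,⟨-56,-249,588⟩⟩ (4400,[(1,23683),(0,10550),(3,18119197)]) (440,[(1,869),(0,140),(3,316281)]) (825,[(1,2849),(0,175),(3,1997691)])))) (.leaf false ⟨⟨-641,0,0⟩,⟨0,-641,0⟩,⟨0,0,-641⟩⟩ (1,[(2,641)]) (1,[(1,641)]) (1,[(0,641)]))))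
theorem pf641_ok : pf641.check (ok 641 6 ⟨5, 5, 5⟩) (fun _ r => r) [] = true := by decide +kernel

def pf643 : T := .node ⟨1,0,0⟩ (.node ⟨0,1,0⟩ (.node ⟨0,0,1⟩ (.leaf false ⟨⟨0,0,643⟩,⟨0,643,0⟩,⟨643,0,0⟩⟩ (1,[(0,643)]) (1,[(1,643)]) (1,[(2,643)])) (.node ⟨-210,175,-582⟩ (.node ⟨129,598,198⟩ (.node ⟨618,-81,-158⟩ (.leaf false ⟨⟨-122,222,-591⟩,⟨129,598,198⟩,⟨618,-81,-158⟩⟩ (194,[(5,17702),(4,8593),(2,197)]) (1,[(1,1)]) (1,[(0,1)])) (.leaf false ⟨⟨-609,198,58⟩,⟨-42,58,-639⟩,⟨202,609,42⟩⟩ (9,[(3,2954),(5,8115),(0,22)]) (81,[(3,60923),(5,32442),(0,58)]) (27,[(3,30940),(5,130908),(0,203)]))) (.leaf false ⟨⟨-255,18,-590⟩,⟨382,495,-150⟩,⟨450,-410,-207⟩⟩ (99,[(4,12810),(3,178192),(0,295)]) (33,[(4,15831),(3,31285),(0,25)]) (22,[(4,12867),(3,4734),(0,23)]))) (.leaf false ⟨⟨30,175,-618⟩,⟨210,582,175⟩,⟨607,-210,-30⟩⟩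 (7,[(1,4908),(0,1),(2,1400)]) (1,[(1,407),(0,1),(2,757)]) (210,[(1,359574),(0,607),(2,62125)])))) (.node ⟨0,0,1⟩ (.node ⟨-210,-582,175⟩ (.node ⟨129,198,598⟩ (.node ⟨618,-158,-81⟩ (.leaf false ⟨⟨-122,-591,222⟩,⟨129,198,598⟩,⟨618,-158,-81⟩⟩ (194,[(3,8593),(5,17702),(2,197)]) (1,[(1,1)]) (1,[(0,1)])) (.leaf false ⟨⟨-609,-42,202⟩,⟨58,-639,42⟩,⟨198,58,609⟩⟩ (81,[(5,75507),(4,35318),(0,202)]) (27,[(5,10218),(4,19465),(0,14)]) (27,[(5,130800),(4,30508),(0,203)]))) (.leaf false ⟨⟨-255,-590,18⟩,⟨382,-150,495⟩,⟨450,-207,-410⟩⟩ (99,[(2,178192),(4,12810),(0,295)]) (33,[(2,31285),(4,15831),(0,25)]) (22,[(2,4734),(4,12867),(0,23)]))) (.leaf false ⟨⟨30,-618,175⟩,⟨210,175,582⟩,⟨607,-30,-210⟩⟩ (7,[(1,1400),(0,1),(2,4908)]) (1,[(1,757),(0,1),(2,407)]) (210,[(1,62125),(0,607),(2,359574)])))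 (.node ⟨-266,-558,-177⟩ (.node ⟨186,318,-527⟩ (.node ⟨607,-186,102⟩ (.leaf false ⟨⟨-102,-527,-354⟩,⟨186,318,-527⟩,⟨607,-186,102⟩⟩ (18,[(3,3363),(5,2686),(2,17)]) (1,[(1,1)]) (1,[(0,1)])) (.leaf false ⟨⟨-590,150,-207⟩,⟨18,-495,-410⟩,⟨255,382,-450⟩⟩ (34,[(5,21823),(4,7734),(0,69)]) (51,[(5,125353),(4,63375),(0,205)]) (17,[(5,49860),(4,7456),(0,75)]))) (.leaf false ⟨⟨-306,-543,-158⟩,⟨382,-66,-513⟩,⟨417,-338,354⟩⟩ (106,[(2,112135),(4,1230),(0,181)]) (53,[(2,32986),(4,22292),(0,11)]) (159,[(2,32777),(4,97737),(0,169)]))) (.leaf false ⟨⟨18,31,-642⟩,⟨319,-558,-18⟩,⟨558,318,31⟩⟩ (133,[(1,86979),(0,9),(2,899)]) (266,[(1,61251),(0,319),(2,326430)]) (133,[(1,45260),(0,279),(2,113388)]))))) (.node ⟨0,1,0⟩ (.node ⟨0,0,1⟩ (.node ⟨-582,-210,175⟩ (.node ⟨198,129,598⟩ (.node ⟨-158,618,-81⟩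 (.leaf false ⟨⟨-591,-122,222⟩,⟨-158,618,-81⟩,⟨198,129,598⟩⟩ (194,[(3,8593),(2,197),(4,17702)]) (1,[(0,1)]) (1,[(1,1)])) (.leaf false ⟨⟨-642,-18,31⟩,⟨18,319,558⟩,⟨31,-558,318⟩⟩ (81,[(5,56900),(4,17700),(0,31)]) (9,[(5,9634),(4,41187),(0,62)]) (27,[(5,15911),(4,50442),(0,106)]))) (.leaf false ⟨⟨-618,-158,-81⟩,⟨-129,198,598⟩,⟨-122,591,-222⟩⟩ (33,[(2,58921),(0,103),(3,8073)]) (66,[(2,65182),(0,43),(3,18615)]) (99,[(2,14500),(0,61),(3,66378)]))) (.leaf false ⟨⟨-618,30,175⟩,⟨-30,607,-210⟩,⟨175,210,582⟩⟩ (7,[(1,1400),(3,4908),(0,1)]) (210,[(1,62125),(3,359574),(0,607)]) (1,[(1,757),(3,407),(0,1)]))) (.node ⟨-177,-266,-558⟩ (.node ⟨-527,186,318⟩ (.node ⟨102,607,-186⟩ (.leaf false ⟨⟨-527,186,318⟩,⟨-354,-102,-527⟩,⟨102,607,-186⟩⟩ (1,[(1,1)]) (18,[(2,17),(5,3363),(4,2686)]) (1,[(0,1)]))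 (.leaf false ⟨⟨-618,-95,150⟩,⟨-150,570,-257⟩,⟨-95,-282,-570⟩⟩ (17,[(3,16608),(0,103),(4,60906)]) (17,[(3,9019),(0,25),(4,24865)]) (102,[(3,75810),(0,95),(4,28901)]))) (.leaf false ⟨⟨-618,-14,-177⟩,⟨63,582,-266⟩,⟨166,-273,-558⟩⟩ (106,[(4,96601),(3,9490),(0,59)]) (159,[(4,60074),(3,117276),(0,133)]) (53,[(4,40213),(3,2829),(0,93)]))) (.leaf false ⟨⟨-642,18,31⟩,⟨-18,319,-558⟩,⟨31,558,318⟩⟩ (133,[(1,899),(3,86979),(0,9)]) (266,[(1,326430),(3,61251),(0,319)]) (133,[(1,113388),(3,45260),(0,279)])))) (.node ⟨0,0,1⟩ (.node ⟨-177,-558,-266⟩ (.node ⟨-527,318,186⟩ (.node ⟨102,-186,607⟩ (.leaf false ⟨⟨-527,318,186⟩,⟨-354,-527,-102⟩,⟨102,-186,607⟩⟩ (1,[(1,1)]) (18,[(3,2686),(5,3363),(2,17)]) (1,[(0,1)])) (.leaf false ⟨⟨-618,150,-95⟩,⟨-150,-257,570⟩,⟨-95,-570,-282⟩⟩ (17,[(3,60906),(0,103),(4,16608)])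 (17,[(3,24865),(0,25),(4,9019)]) (102,[(3,28901),(0,95),(4,75810)]))) (.leaf false ⟨⟨-618,-177,-14⟩,⟨63,-266,582⟩,⟨166,-558,-273⟩⟩ (106,[(2,9490),(4,96601),(0,59)]) (159,[(2,117276),(4,60074),(0,133)]) (53,[(2,2829),(4,40213),(0,93)]))) (.leaf false ⟨⟨-642,-18,31⟩,⟨18,319,558⟩,⟨31,-558,318⟩⟩ (266,[(3,176259),(2,22086),(0,31)]) (133,[(3,46989),(2,113255),(0,279)]) (133,[(3,24020),(2,162936),(0,159)]))) (.node ⟨-255,382,-450⟩ (.node ⟨-590,-150,207⟩ (.leaf false ⟨⟨-590,-150,207⟩,⟨-255,382,-450⟩,⟨-18,-495,-410⟩⟩ (1,[(0,1)]) (1,[(1,1)]) (85,[(2,32150),(1,6),(3,44367)])) (.leaf false ⟨⟨-590,-255,-18⟩,⟨-150,382,-495⟩,⟨207,-450,-410⟩⟩ (25,[(1,1),(4,14495),(3,6757)]) (7073,[(1,7180),(3,236624),(0,1305)]) (207,[(4,199051),(3,154650),(0,410)]))) (.leaf false ⟨⟨-642,-14,-33⟩,⟨-14,-447,462⟩,⟨33,-462,-446⟩⟩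 (191,[(1,9453),(3,124407),(0,7)]) (382,[(1,24666),(3,119333),(0,447)]) (191,[(1,189136),(3,52602),(0,231)])))))
theorem pf643_ok : pf643.check (ok 643 6 ⟨5, 5, 5⟩) (fun _ r => r) [] = true := by decide +kernel

def pf647 : T := .node ⟨1,0,0⟩ (.node ⟨0,1,0⟩ (.node ⟨0,0,1⟩ (.node ⟨-467,258,366⟩ (.node ⟨307,-162,546⟩ (.node ⟨390,435,-278⟩ (.leaf false ⟨⟨-378,333,406⟩,⟨307,546,-162⟩,⟨426,-98,477⟩⟩ (183,[(5,25627),(4,8565),(2,203)]) (139,[(5,11083),(0,81),(4,40659)]) (81,[(3,11883),(1,49),(5,19463)])) (.leaf false ⟨⟨-498,114,397⟩,⟨243,-422,426⟩,⟨334,477,282⟩⟩ (278,[(5,16386),(4,204387),(0,397)]) (139,[(5,116847),(4,33997),(0,213)]) (139,[(5,101416),(4,127638),(0,141)]))) (.leaf false ⟨⟨-558,307,114⟩,⟨226,198,573⟩,⟨237,534,-278⟩⟩ (162,[(2,186090),(4,3853),(0,307)]) (9,[(2,11163),(4,5411),(0,11)])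 (27,[(2,41088),(4,33722),(0,89)]))) (.node ⟨426,138,-467⟩ (.leaf false ⟨⟨93,586,258⟩,⟨426,138,-467⟩,⟨478,-237,366⟩⟩ (142,[(2,51113),(0,31),(3,78934)]) (1,[(0,1)]) (467,[(2,345870),(1,478),(3,12645)])) (.leaf false ⟨⟨-429,-78,478⟩,⟨198,-611,78⟩,⟨442,198,429⟩⟩ (62173,[(1,3285),(3,5135292),(0,66212)]) (62173,[(1,125694),(3,9468721),(0,108894)]) (62173,[(1,389168),(3,162687468),(0,362115)])))) (.node ⟨594,42,253⟩ (.node ⟨-126,627,-98⟩ (.node ⟨253,-42,-594⟩ (.leaf false ⟨⟨-126,627,-98⟩,⟨253,-42,-594⟩,⟨582,154,237⟩⟩ (1,[(1,1)]) (1,[(0,1)]) (99,[(3,1078),(2,97),(4,11172)])) (.leaf false ⟨⟨-627,126,-98⟩,⟨-42,253,594⟩,⟨154,582,-237⟩⟩ (1,[(3,1880),(5,132),(0,3)]) (42,[(3,125334),(5,62245),(0,253)]) (7,[(3,59277),(5,25619),(0,97)]))) (.leaf false ⟨⟨10,630,-147⟩,⟨378,-125,-510⟩,⟨525,78,370⟩⟩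 (63,[(2,9751),(0,5),(3,42825)]) (1,[(2,804),(0,3),(3,1756)]) (6,[(2,230),(0,25),(3,16143)]))) (.leaf false ⟨⟨-278,-78,-579⟩,⟨-51,642,-62⟩,⟨582,19,-282⟩⟩ (253,[(3,273592),(2,4584),(0,579)]) (253,[(3,23925),(2,165030),(0,62)]) (253,[(3,314754),(2,16651),(0,282)])))) (.node ⟨0,0,1⟩ (.node ⟨594,253,42⟩ (.node ⟨-126,-98,627⟩ (.node ⟨253,-594,-42⟩ (.leaf false ⟨⟨-126,-98,627⟩,⟨253,-594,-42⟩,⟨582,237,154⟩⟩ (1,[(1,1)]) (1,[(0,1)]) (99,[(3,11172),(2,97),(4,1078)])) (.leaf false ⟨⟨-627,-98,126⟩,⟨-42,594,253⟩,⟨154,-237,582⟩⟩ (1,[(5,132),(4,1880),(0,3)]) (42,[(5,62245),(4,125334),(0,253)]) (7,[(5,25619),(4,59277),(0,97)]))) (.leaf false ⟨⟨10,-147,630⟩,⟨378,-510,-125⟩,⟨525,370,78⟩⟩ (63,[(2,42825),(0,5),(3,9751)]) (1,[(2,1756),(0,3),(3,804)]) (6,[(2,16143),(0,25),(3,230)]))) (.leaf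 false ⟨⟨-278,-579,-78⟩,⟨-51,-62,642⟩,⟨582,-282,19⟩⟩ (253,[(1,4584),(3,273592),(0,579)]) (253,[(1,165030),(3,23925),(0,62)]) (253,[(1,16651),(3,314754),(0,282)]))) (.node ⟨138,162,-611⟩ (.node ⟨-138,-611,-162⟩ (.node ⟨621,-162,82⟩ (.leaf false ⟨⟨-138,-611,-162⟩,⟨118,138,-621⟩,⟨621,-162,82⟩⟩ (1,[(1,1)]) (27,[(3,2714),(2,23),(5,12)]) (1,[(0,1)])) (.leaf false ⟨⟨-638,54,-93⟩,⟨54,-323,-558⟩,⟨93,558,-314⟩⟩ (82,[(5,5437),(4,10638),(0,93)]) (41,[(5,175473),(4,58441),(0,279)]) (41,[(5,101310),(4,2556),(0,157)]))) (.leaf false ⟨⟨19,-78,-642⟩,⟨282,579,-62⟩,⟨582,-278,51⟩⟩ (138,[(2,91674),(0,19),(3,22373)]) (23,[(2,9040),(0,47),(3,15400)]) (23,[(2,14541),(0,97),(3,65661)]))) (.leaf false ⟨⟨-413,-498,-6⟩,⟨186,-147,-602⟩,⟨462,-386,237⟩⟩ (27,[(1,50875),(3,303),(0,83)]) (54,[(1,62447),(3,16806),(0,49)])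 (81,[(1,98726),(3,64056),(0,193)]))))) (.node ⟨0,1,0⟩ (.node ⟨0,0,1⟩ (.node ⟨253,42,594⟩ (.node ⟨-98,627,-126⟩ (.node ⟨-594,-42,253⟩ (.leaf false ⟨⟨-594,-42,253⟩,⟨-98,627,-126⟩,⟨237,154,582⟩⟩ (1,[(0,1)]) (1,[(1,1)]) (99,[(5,1078),(4,11172),(2,97)])) (.leaf false ⟨⟨-642,19,-78⟩,⟨-62,282,579⟩,⟨51,582,-278⟩⟩ (42,[(3,1531),(5,38250),(0,19)]) (7,[(3,15944),(5,28352),(0,47)]) (7,[(3,22595),(5,57261),(0,97)]))) (.leaf false ⟨⟨-642,-78,19⟩,⟨-62,579,282⟩,⟨51,-278,582⟩⟩ (126,[(4,82754),(3,2085),(0,19)]) (21,[(4,5908),(3,41628),(0,47)]) (21,[(4,8435),(3,54981),(0,97)]))) (.leaf false ⟨⟨-579,-78,-278⟩,⟨-282,19,582⟩,⟨-62,642,-51⟩⟩ (253,[(1,273592),(0,579),(2,4584)]) (253,[(1,314754),(0,282),(2,16651)]) (253,[(1,23925),(0,62),(2,165030)]))) (.node ⟨82,621,162⟩ (.node ⟨162,138,-611⟩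 (.leaf false ⟨⟨-621,118,-138⟩,⟨82,621,162⟩,⟨162,138,-611⟩⟩ (621,[(2,104814),(4,395317),(1,118)]) (1,[(1,1)]) (1,[(0,1)])) (.leaf false ⟨⟨-638,-99,42⟩,⟨-99,442,-462⟩,⟨-42,462,451⟩⟩ (14881,[(2,40838640),(0,64680),(1,12001)]) (89286,[(2,114771977),(0,97723),(1,85266)]) (14881,[(2,1979820),(0,10661),(1,13440)]))) (.node ⟨-638,-54,93⟩ (.leaf false ⟨⟨-638,-54,93⟩,⟨-93,558,-314⟩,⟨-54,-323,-558⟩⟩ (1,[(0,1)]) (82,[(2,10682),(1,93),(3,103509)]) (41,[(2,18504),(1,27),(3,3524)])) (.leaf false ⟨⟨-642,-62,-51⟩,⟨19,282,-582⟩,⟨78,-579,-278⟩⟩ (54,[(1,17),(4,33274),(3,7209)]) (7389,[(1,578),(4,28671505),(0,45234)]) (7389,[(1,7651),(4,4385156),(0,8760)]))))) (.node ⟨0,0,1⟩ (.node ⟨82,162,621⟩ (.node ⟨162,-611,138⟩ (.leaf false ⟨⟨-621,-138,118⟩,⟨82,162,621⟩,⟨162,-611,138⟩⟩ (621,[(4,395317),(3,104814),(1,118)])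 (1,[(1,1)]) (1,[(0,1)])) (.leaf false ⟨⟨-638,-99,-42⟩,⟨-99,442,462⟩,⟨42,-462,451⟩⟩ (14881,[(3,43662148),(1,13540),(0,65459)]) (29762,[(3,11861451),(1,29502),(0,33121)]) (44643,[(3,29403562),(1,33633),(0,5450)]))) (.node ⟨-638,93,-54⟩ (.leaf false ⟨⟨-638,93,-54⟩,⟨-93,-314,558⟩,⟨-54,-558,-323⟩⟩ (1,[(0,1)]) (82,[(2,103509),(1,93),(3,10682)]) (41,[(2,3524),(1,27),(3,18504)])) (.leaf false ⟨⟨-642,-51,-62⟩,⟨19,-582,282⟩,⟨78,-278,-579⟩⟩ (54,[(2,7209),(4,33274),(1,17)]) (7389,[(4,28671505),(1,578),(0,45234)]) (7389,[(4,4385156),(1,7651),(0,8760)])))) (.leaf false ⟨⟨-647,0,0⟩,⟨0,-647,0⟩,⟨0,0,-647⟩⟩ (1,[(2,647)]) (1,[(1,647)]) (1,[(0,647)]))))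
theorem pf647_ok : pf647.check (ok 647 6 ⟨5, 5, 5⟩) (fun _ r => r) [] = true := by decide +kernel

def pf653 : T := .node ⟨1,0,0⟩ (.node ⟨0,1,0⟩ (.node ⟨0,0,1⟩ (.node ⟨-77,24,648⟩ (.node ⟨-24,648,-77⟩ (.leaf false ⟨⟨-77,24,648⟩,⟨-24,652,-27⟩,⟨648,27,76⟩⟩ (1,[(1,1)]) (162,[(2,8177),(4,24),(0,163)]) (24,[(2,1901),(4,15576),(0,1)])) (.leaf false ⟨⟨-27,-24,652⟩,⟨76,648,27⟩,⟨648,-77,24⟩⟩ (17573,[(4,843908),(1,17527),(0,1300)]) (24,[(4,1901),(3,15528),(1,1)]) (77,[(4,49320),(3,9623),(0,24)]))) (.leaf false ⟨⟨13,528,384⟩,⟨192,364,-507⟩,⟨624,-123,148⟩⟩ (77,[(1,37992),(0,13),(2,40968)]) (77,[(1,85377),(0,192),(2,32636)]) (77,[(1,415748),(0,624),(2,5505)]))) (.node ⟨643,36,108⟩ (.node ⟨-36,643,108⟩ (.leaf false ⟨⟨-36,643,108⟩,⟨-3,108,-644⟩,⟨652,36,3⟩⟩ (1,[(0,1)]) (643,[(2,425756),(4,1959),(0,108)])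 (1,[(2,105),(4,9),(1,1)])) (.node ⟨3,-284,-588⟩ (.leaf false ⟨⟨3,-284,-588⟩,⟨148,573,-276⟩,⟨636,-132,67⟩⟩ (1,[(0,1)]) (643,[(3,193452),(2,148),(4,363111)]) (414745,[(3,4225877),(1,107772),(2,404196)])) (.leaf false ⟨⟨-3,420,-500⟩,⟨300,445,372⟩,⟨580,-228,-195⟩⟩ (2765,[(3,3953248),(1,136),(0,4397)]) (553,[(3,7360896),(1,5769),(0,13928)]) (8295,[(3,198364053),(1,164036),(0,364732)])))) (.leaf false ⟨⟨-552,256,-237⟩,⟨204,-123,-608⟩,⟨283,588,-24⟩⟩ (36,[(3,30925),(2,12060),(0,79)]) (27,[(3,103244),(2,2151),(0,152)]) (9,[(3,3833),(2,5364),(0,2)])))) (.node ⟨0,0,1⟩ (.node ⟨643,108,36⟩ (.node ⟨-36,108,643⟩ (.leaf false ⟨⟨-36,-3,652⟩,⟨108,-644,3⟩,⟨643,108,36⟩⟩ (643,[(4,324),(3,72345),(0,652)]) (12,[(1,1),(4,653),(3,7836)]) (1,[(1,1)])) (.node ⟨3,-588,-284⟩ (.leaf false ⟨⟨3,-588,-284⟩,⟨148,-276,573⟩,⟨636,67,-132⟩⟩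 (1,[(0,1)]) (643,[(3,363111),(2,148),(4,193452)]) (73332,[(3,4225877),(2,71100),(1,25607)])) (.leaf false ⟨⟨-3,-500,420⟩,⟨300,372,445⟩,⟨580,-195,-228⟩⟩ (2765,[(1,136),(4,3953248),(0,4397)]) (553,[(1,5769),(4,7360896),(0,13928)]) (8295,[(1,164036),(4,198364053),(0,364732)])))) (.leaf false ⟨⟨-552,-237,256⟩,⟨204,-608,-123⟩,⟨283,-24,588⟩⟩ (36,[(1,12060),(3,30925),(0,79)]) (27,[(1,2151),(3,103244),(0,152)]) (9,[(1,5364),(3,3833),(0,2)]))) (.node ⟨-27,-648,76⟩ (.node ⟨652,-24,27⟩ (.leaf false ⟨⟨-27,-648,76⟩,⟨24,-77,-648⟩,⟨652,-24,27⟩⟩ (1,[(1,1)]) (648,[(2,425756),(4,17631),(1,77)]) (1,[(0,1)])) (.leaf false ⟨⟨-636,67,-132⟩,⟨-3,-588,-284⟩,⟨148,276,-573⟩⟩ (15672,[(4,42518789),(1,1359),(0,80444)]) (1306,[(4,12474259),(1,1891),(0,19060)]) (1306,[(4,19241951),(1,525),(0,29194)])))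 (.node ⟨-144,112,-627⟩ (.leaf false ⟨⟨-144,112,-627⟩,⟨372,-507,-176⟩,⟨517,396,-48⟩⟩ (1,[(0,1)]) (57,[(4,23508),(3,30691),(0,16)]) (19,[(1,12),(4,9499),(3,252)])) (.leaf false ⟨⟨3,-588,-284⟩,⟨148,-276,573⟩,⟨636,67,-132⟩⟩ (9,[(2,2480),(1,1),(3,5940)]) (36,[(2,2571),(0,37),(3,5792)]) (32112,[(2,87946495),(1,26960),(0,136773)])))))) (.node ⟨0,1,0⟩ (.node ⟨0,0,1⟩ (.node ⟨108,36,643⟩ (.node ⟨108,643,-36⟩ (.leaf false ⟨⟨-644,3,108⟩,⟨-3,652,-36⟩,⟨108,36,643⟩⟩ (12,[(2,653),(4,7836),(1,1)]) (643,[(2,324),(4,72345),(0,652)]) (1,[(1,1)])) (.node ⟨-588,-284,3⟩ (.leaf false ⟨⟨-588,-284,3⟩,⟨-276,573,148⟩,⟨67,-132,636⟩⟩ (1,[(0,1)]) (643,[(5,193452),(4,363111),(2,148)]) (414745,[(5,4225877),(2,404196),(1,107772)])) (.leaf false ⟨⟨-644,-3,108⟩,⟨3,652,36⟩,⟨108,-36,643⟩⟩ (2765,[(5,14266648),(0,23112),(1,10221)])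 (79,[(5,248307),(0,444),(1,116)]) (1185,[(5,31677096),(0,58879),(1,26072)])))) (.leaf false ⟨⟨-644,-108,3⟩,⟨-108,643,-36⟩,⟨-3,36,652⟩⟩ (27,[(1,103604),(0,161),(2,2880)]) (1,[(1,607),(0,1),(2,679)]) (36,[(1,24115),(0,1),(2,1332)]))) (.node ⟨-648,-27,76⟩ (.node ⟨-24,652,27⟩ (.leaf false ⟨⟨-648,-27,76⟩,⟨-77,24,-648⟩,⟨-24,652,27⟩⟩ (1,[(1,1)]) (648,[(2,425756),(1,77),(3,17631)]) (1,[(0,1)])) (.leaf false ⟨⟨-653,0,0⟩,⟨0,-572,-315⟩,⟨0,315,-572⟩⟩ (24,[(1,27),(3,50281),(0,76)]) (653,[(1,315),(3,5180249),(0,8505)]) (653,[(1,572),(3,10290627),(0,15444)]))) (.node ⟨112,-144,-627⟩ (.leaf false ⟨⟨-648,24,-77⟩,⟨27,652,-24⟩,⟨76,-27,-648⟩⟩ (57,[(4,37720),(3,2376),(0,7)]) (19,[(4,3375),(3,12226),(1,6)]) (209,[(4,8308),(3,25461),(0,216)])) (.leaf false ⟨⟨-636,67,132⟩,⟨3,588,-284⟩,⟨148,276,573⟩⟩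 (144,[(2,23001),(4,84080),(0,67)]) (32112,[(2,87057599),(0,126981),(1,22096)]) (8028,[(2,4205221),(0,14571),(1,4352)]))))) (.node ⟨0,0,1⟩ (.node ⟨76,-648,-27⟩ (.node ⟨27,-24,652⟩ (.leaf false ⟨⟨-648,-77,24⟩,⟨27,-24,652⟩,⟨76,-648,-27⟩⟩ (648,[(2,17631),(4,425756),(1,77)]) (1,[(0,1)]) (1,[(1,1)])) (.leaf false ⟨⟨-653,0,0⟩,⟨0,-572,315⟩,⟨0,-315,-572⟩⟩ (1,[(2,17631),(0,27),(1,1)]) (3918,[(2,8424353),(0,10868),(1,3861)]) (5224,[(2,2291377),(0,7980),(1,2835)]))) (.node ⟨-627,112,-144⟩ (.leaf false ⟨⟨-648,76,-27⟩,⟨-77,-648,24⟩,⟨-24,27,652⟩⟩ (209,[(2,25461),(0,216),(3,8308)]) (57,[(2,2376),(0,7),(3,37720)]) (19,[(2,12226),(1,6),(3,3375)])) (.leaf false ⟨⟨-636,3,148⟩,⟨67,588,276⟩,⟨132,-284,573⟩⟩ (27,[(1,148),(4,5924),(3,95823)]) (8028,[(1,9632),(4,7245379),(0,13581)]) (8028,[(1,1940),(4,18594151),(0,31581)]))))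 (.leaf false ⟨⟨-653,0,0⟩,⟨0,-653,0⟩,⟨0,0,-653⟩⟩ (1,[(2,653)]) (1,[(1,653)]) (1,[(0,653)]))))
theorem pf653_ok : pf653.check (ok 653 6 ⟨5, 5, 5⟩) (fun _ r => r) [] = true := by decide +kernel

def pf659 : T := .node ⟨1,0,0⟩ (.node ⟨0,1,0⟩ (.node ⟨0,0,1⟩ (.node ⟨-129,18,646⟩ (.node ⟨-129,642,-74⟩ (.leaf false ⟨⟨-129,18,646⟩,⟨-74,654,-33⟩,⟨642,79,126⟩⟩ (1,[(1,1)]) (107,[(2,4535),(4,6143),(0,109)]) (642,[(2,86738),(4,422355),(0,79)])) (.leaf false ⟨⟨-33,-74,654⟩,⟨126,642,79⟩,⟨646,-129,18⟩⟩ (4728,[(4,364104),(1,4709),(0,677)]) (646,[(4,91587),(3,413310),(1,79)]) (37,[(4,22741),(3,1005),(0,9)]))) (.node ⟨574,-303,114⟩ (.leaf false ⟨⟨66,655,30⟩,⟨430,-66,495⟩,⟨495,-30,-434⟩⟩ (43,[(2,15502),(1,22),(3,28561)]) (287,[(2,117555),(0,215),(3,46203)]) (43,[(2,87928),(1,165),(3,1680)]))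 (.leaf false ⟨⟨-561,322,126⟩,⟨126,414,-497⟩,⟨322,399,414⟩⟩ (5751,[(2,3359432),(1,2969),(0,6288)]) (3195,[(2,18914605),(1,30646),(0,6186)]) (355,[(2,2832240),(1,4032),(0,707)])))) (.node ⟨-114,102,-641⟩ (.node ⟨646,63,114⟩ (.node ⟨81,646,102⟩ (.node ⟨646,-63,-114⟩ (.leaf false ⟨⟨-102,114,-641⟩,⟨81,646,102⟩,⟨646,-63,-114⟩⟩ (19,[(4,1282),(5,432),(3,17)]) (1,[(1,1)]) (1,[(0,1)])) (.leaf false ⟨⟨-642,126,79⟩,⟨-74,33,-654⟩,⟨129,646,18⟩⟩ (1,[(4,149),(6,650),(0,2)]) (21,[(4,14988),(6,5552),(0,11)]) (63,[(4,72510),(6,425443),(0,646)]))) (.leaf false ⟨⟨-378,79,-534⟩,⟨369,-438,-326⟩,⟨394,486,-207⟩⟩ (9443,[(1,783),(4,33198220),(0,50312)]) (28329,[(1,32022),(4,67184338),(0,126331)]) (18886,[(1,18985),(4,46449257),(0,59546)]))) (.leaf false ⟨⟨-623,126,-174⟩,⟨126,-218,-609⟩,⟨174,609,-182⟩⟩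 (19,[(4,6897),(3,4221),(0,29)]) (38,[(4,135926),(3,4505),(0,203)]) (57,[(4,68704),(3,40446),(0,91)]))) (.leaf false ⟨⟨42,574,-321⟩,⟨414,-273,-434⟩,⟨511,174,378⟩⟩ (19,[(1,10586),(0,7),(2,11620)]) (19,[(1,52475),(0,69),(2,1851)]) (114,[(1,284459),(0,511),(2,71958)])))) (.node ⟨0,0,1⟩ (.node ⟨-114,-641,102⟩ (.node ⟨646,114,63⟩ (.node ⟨81,102,646⟩ (.node ⟨646,-114,-63⟩ (.leaf false ⟨⟨-102,-641,114⟩,⟨81,102,646⟩,⟨646,-114,-63⟩⟩ (19,[(4,432),(5,1282),(3,17)]) (1,[(1,1)]) (1,[(0,1)])) (.leaf false ⟨⟨-642,-74,129⟩,⟨79,-654,18⟩,⟨126,33,646⟩⟩ (21,[(6,14296),(5,6456),(0,43)]) (7,[(6,1845),(5,4806),(0,2)]) (63,[(6,425254),(5,71565),(0,646)]))) (.leaf false ⟨⟨-378,-534,79⟩,⟨369,-326,-438⟩,⟨394,-207,486⟩⟩ (9443,[(3,33198220),(1,783),(0,50312)]) (28329,[(3,67184338),(1,32022),(0,126331)])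 (18886,[(3,46449257),(1,18985),(0,59546)]))) (.leaf false ⟨⟨-623,-174,126⟩,⟨126,-609,-218⟩,⟨174,-182,609⟩⟩ (19,[(2,4221),(4,6897),(0,29)]) (38,[(2,4505),(4,135926),(0,203)]) (57,[(2,40446),(4,68704),(0,91)]))) (.leaf false ⟨⟨42,-321,574⟩,⟨414,-434,-273⟩,⟨511,378,174⟩⟩ (19,[(1,11620),(0,7),(2,10586)]) (19,[(1,1851),(0,69),(2,52475)]) (114,[(1,71958),(0,511),(2,284459)]))) (.node ⟨-129,-642,-74⟩ (.node ⟨-126,79,-642⟩ (.leaf false ⟨⟨-129,-642,-74⟩,⟨-18,79,-654⟩,⟨646,-126,-33⟩⟩ (1,[(1,1)]) (107,[(4,11808),(3,158),(0,109)]) (214,[(4,139630),(3,27833),(0,11)])) (.leaf false ⟨⟨-110,-630,-159⟩,⟨270,-191,570⟩,⟨591,-30,-290⟩⟩ (107,[(2,9243),(4,1775),(1,105)]) (30361,[(2,24994248),(0,65993),(1,912)]) (79,[(2,42170),(4,42909),(0,30)]))) (.leaf false ⟨⟨18,79,-654⟩,⟨129,-642,-74⟩,⟨646,126,33⟩⟩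 (43,[(1,28566),(0,6),(2,455)]) (1,[(1,148),(0,1),(2,1284)]) (129,[(1,43547),(0,646),(2,398478)]))))) (.node ⟨0,1,0⟩ (.node ⟨0,0,1⟩ (.node ⟨-641,-114,102⟩ (.node ⟨114,646,63⟩ (.node ⟨102,81,646⟩ (.node ⟨-114,646,-63⟩ (.leaf false ⟨⟨-641,-102,114⟩,⟨-114,646,-63⟩,⟨102,81,646⟩⟩ (19,[(4,432),(3,17),(6,1282)]) (1,[(0,1)]) (1,[(1,1)])) (.leaf false ⟨⟨-654,-74,33⟩,⟨18,129,646⟩,⟨79,-642,126⟩⟩ (21,[(6,14988),(5,5552),(0,11)]) (63,[(6,72510),(5,425443),(0,646)]) (1,[(6,149),(5,650),(0,2)]))) (.leaf false ⟨⟨-654,-47,66⟩,⟨-81,366,-542⟩,⟨-2,546,369⟩⟩ (9443,[(3,45027914),(0,69521),(1,8030)]) (18886,[(3,9094135),(0,31350),(1,14631)]) (28329,[(3,29216128),(0,31768),(1,27927)]))) (.leaf false ⟨⟨-641,-102,-114⟩,⟨-114,646,63⟩,⟨-102,-81,646⟩⟩ (114,[(2,27387),(0,641),(3,402458)]) (1,[(2,126),(0,1),(3,1292)])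 (19,[(2,13345),(0,17),(3,9443)]))) (.leaf false ⟨⟨-641,114,102⟩,⟨102,646,-81⟩,⟨114,63,646⟩⟩ (1,[(1,204),(3,1282),(0,1)]) (3,[(1,1491),(3,10591),(0,17)]) (38,[(1,26690),(3,9129),(0,21)]))) (.node ⟨-74,-129,-642⟩ (.node ⟨-642,-126,79⟩ (.leaf false ⟨⟨-654,-18,79⟩,⟨-74,-129,-642⟩,⟨-33,646,-126⟩⟩ (107,[(2,158),(0,109),(3,11808)]) (1,[(1,1)]) (214,[(2,27833),(0,11),(3,139630)])) (.leaf false ⟨⟨-290,591,-30⟩,⟨-159,-110,-630⟩,⟨570,270,-191⟩⟩ (79,[(4,42170),(3,42909),(0,30)]) (107,[(1,105),(4,9243),(3,1775)]) (30361,[(1,912),(4,24994248),(0,65993)]))) (.leaf false ⟨⟨-654,18,79⟩,⟨-74,129,-642⟩,⟨33,646,126⟩⟩ (43,[(1,455),(3,28566),(0,6)]) (1,[(1,1284),(3,148),(0,1)]) (129,[(1,398478),(3,43547),(0,646)])))) (.node ⟨0,0,1⟩ (.node ⟨-74,-642,-129⟩ (.node ⟨-642,79,-126⟩ (.leaf false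 ⟨⟨-654,79,-18⟩,⟨-74,-642,-129⟩,⟨-33,-126,646⟩⟩ (107,[(2,11808),(0,109),(3,158)]) (1,[(1,1)]) (214,[(2,139630),(0,11),(3,27833)])) (.leaf false ⟨⟨-290,-30,591⟩,⟨-159,-630,-110⟩,⟨570,-191,270⟩⟩ (79,[(2,42909),(4,42170),(0,30)]) (107,[(2,1775),(4,9243),(1,105)]) (30361,[(4,24994248),(1,912),(0,65993)]))) (.leaf false ⟨⟨-654,79,18⟩,⟨-74,-642,129⟩,⟨33,126,646⟩⟩ (43,[(3,28566),(2,455),(0,6)]) (1,[(3,148),(2,1284),(0,1)]) (129,[(3,43547),(2,398478),(0,646)]))) (.leaf false ⟨⟨-659,0,0⟩,⟨0,-659,0⟩,⟨0,0,-659⟩⟩ (1,[(2,659)]) (1,[(1,659)]) (1,[(0,659)]))))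
theorem pf659_ok : pf659.check (ok 659 6 ⟨5, 5, 5⟩) (fun _ r => r) [] = true := by decide +kernel

def pf661 : T := .node ⟨1,0,0⟩ (.node ⟨0,1,0⟩ (.node ⟨0,0,1⟩ (.leaf false ⟨⟨0,0,661⟩,⟨0,661,0⟩,⟨661,0,0⟩⟩ (1,[(0,661)]) (1,[(1,661)]) (1,[(2,661)])) (.node ⟨-147,24,-644⟩ (.node ⟨-104,636,147⟩ (.leaf false ⟨⟨-147,24,-644⟩,⟨-104,651,48⟩,⟨636,112,-141⟩⟩ (1,[(1,1)]) (212,[(2,21723),(4,520),(0,217)]) (159,[(2,26535),(4,104036),(0,28)])) (.leaf false ⟨⟨-140,36,-645⟩,⟨315,580,-36⟩,⟨564,-315,-140⟩⟩ (644,[(4,4655),(3,7704),(1,645)]) (49,[(4,14187),(3,36052),(0,12)]) (21,[(4,9764),(3,6105),(0,20)]))) (.leaf false ⟨⟨0,661,0⟩,⟨300,0,589⟩,⟨589,0,-300⟩⟩ (1,[(2,661)]) (49,[(1,35539),(0,100),(2,2400)]) (147,[(1,423416),(0,589),(2,14136)])))) (.node ⟨0,0,1⟩ (.node ⟨-147,-644,24⟩ (.node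 ⟨-104,147,636⟩ (.leaf false ⟨⟨-147,-644,24⟩,⟨-104,48,651⟩,⟨636,-141,112⟩⟩ (1,[(1,1)]) (212,[(4,520),(3,21723),(0,217)]) (159,[(4,104036),(3,26535),(0,28)])) (.leaf false ⟨⟨-140,-645,36⟩,⟨315,-36,580⟩,⟨564,-140,-315⟩⟩ (644,[(2,7704),(4,4655),(1,645)]) (49,[(2,36052),(4,14187),(0,12)]) (21,[(2,6105),(4,9764),(0,20)]))) (.leaf false ⟨⟨0,0,661⟩,⟨300,589,0⟩,⟨589,-300,0⟩⟩ (1,[(1,661)]) (49,[(1,2400),(0,100),(2,35539)]) (147,[(1,14136),(0,589),(2,423416)]))) (.node ⟨69,-644,132⟩ (.node ⟨69,132,-644⟩ (.node ⟨-69,-644,-132⟩ (.node ⟨652,-84,69⟩ (.leaf false ⟨⟨-69,-644,-132⟩,⟨84,123,-644⟩,⟨652,-84,69⟩⟩ (1,[(1,1)]) (44,[(4,1932),(2,41),(6,867)]) (1,[(0,1)])) (.leaf false ⟨⟨-653,-36,-96⟩,⟨36,499,-432⟩,⟨96,-432,-491⟩⟩ (2779,[(6,1741958),(3,879),(0,5548)]) (11116,[(6,46506025),(3,619),(0,70780)])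 (8337,[(6,60410869),(3,17763),(0,93307)]))) (.leaf false ⟨⟨24,-147,-644⟩,⟨112,636,-141⟩,⟨651,-104,48⟩⟩ (23,[(3,15868),(0,8),(4,8533)]) (69,[(3,24513),(0,112),(4,28244)]) (23,[(3,27540),(0,217),(4,142140)]))) (.leaf false ⟨⟨-275,-540,264⟩,⟨-36,-275,-600⟩,⟨600,-264,85⟩⟩ (11,[(2,26076),(4,80),(0,45)]) (12,[(2,23300),(4,1293),(0,25)]) (1,[(2,1203),(4,738),(0,2)]))) (.leaf false ⟨⟨-275,264,-540⟩,⟨-36,-600,-275⟩,⟨600,85,-264⟩⟩ (11,[(3,80),(2,26076),(0,45)]) (12,[(3,1293),(2,23300),(0,25)]) (1,[(3,738),(2,1203),(0,2)]))))) (.node ⟨0,1,0⟩ (.node ⟨0,0,1⟩ (.node ⟨-644,-147,24⟩ (.node ⟨147,-104,636⟩ (.leaf false ⟨⟨-644,-147,24⟩,⟨-141,636,112⟩,⟨48,-104,651⟩⟩ (1,[(1,1)]) (159,[(4,26535),(3,104036),(0,28)]) (212,[(4,21723),(3,520),(0,217)])) (.leaf false ⟨⟨-645,-140,36⟩,⟨-140,564,-315⟩,⟨-36,315,580⟩⟩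 (644,[(2,7704),(1,645),(3,4655)]) (21,[(2,6105),(0,20),(3,9764)]) (49,[(2,36052),(0,12),(3,14187)]))) (.leaf false ⟨⟨-300,589,0⟩,⟨0,0,661⟩,⟨589,300,0⟩⟩ (147,[(1,14136),(3,423416),(0,589)]) (1,[(1,661)]) (49,[(1,2400),(3,35539),(0,100)]))) (.node ⟨-644,69,132⟩ (.node ⟨132,69,-644⟩ (.node ⟨-644,-69,-132⟩ (.node ⟨-84,652,69⟩ (.leaf false ⟨⟨-644,-69,-132⟩,⟨-84,652,69⟩,⟨123,84,-644⟩⟩ (1,[(1,1)]) (1,[(0,1)]) (44,[(4,1932),(5,867),(2,41)])) (.leaf false ⟨⟨-660,-36,-5⟩,⟨-5,180,-636⟩,⟨36,-635,-180⟩⟩ (8337,[(3,11490),(5,13632478),(0,22585)]) (11116,[(3,17923),(5,89923889),(0,136748)]) (2779,[(3,1053),(5,4202806),(0,9264)]))) (.leaf false ⟨⟨-653,36,-96⟩,⟨-36,499,432⟩,⟨96,432,-491⟩⟩ (23,[(3,3792),(5,22747),(0,12)]) (69,[(3,36060),(5,323840),(0,499)]) (23,[(3,30301),(5,90528),(0,144)])))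 (.leaf false ⟨⟨-644,-84,123⟩,⟨-132,69,-644⟩,⟨-69,652,84⟩⟩ (33,[(2,99625),(0,161),(3,8337)]) (1,[(2,1288),(0,1),(3,138)]) (44,[(2,11116),(0,23),(3,30275)]))) (.leaf false ⟨⟨-644,69,-132⟩,⟨84,652,-69⟩,⟨123,-84,-644⟩⟩ (1,[(3,1288),(2,138),(0,1)]) (44,[(3,11116),(2,30275),(0,23)]) (33,[(3,99625),(2,8337),(0,161)])))) (.node ⟨0,0,1⟩ (.node ⟨132,-644,69⟩ (.node ⟨-644,132,69⟩ (.node ⟨-644,-132,-69⟩ (.node ⟨-84,69,652⟩ (.leaf false ⟨⟨-644,-132,-69⟩,⟨-84,69,652⟩,⟨123,-644,84⟩⟩ (1,[(1,1)]) (1,[(0,1)]) (44,[(4,867),(5,1932),(3,41)])) (.leaf false ⟨⟨-660,-5,-36⟩,⟨-5,-636,180⟩,⟨36,-180,-635⟩⟩ (8337,[(4,13632478),(2,11490),(0,22585)]) (11116,[(4,89923889),(2,17923),(0,136748)]) (2779,[(4,4202806),(2,1053),(0,9264)]))) (.leaf false ⟨⟨-653,-96,36⟩,⟨-36,432,499⟩,⟨96,-491,432⟩⟩ (23,[(5,22747),(4,3792),(0,12)])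 (69,[(5,323840),(4,36060),(0,499)]) (23,[(5,90528),(4,30301),(0,144)]))) (.leaf false ⟨⟨-644,-132,69⟩,⟨84,-69,652⟩,⟨123,-644,-84⟩⟩ (1,[(2,138),(4,1288),(0,1)]) (44,[(2,30275),(4,11116),(0,23)]) (33,[(2,8337),(4,99625),(0,161)]))) (.leaf false ⟨⟨-644,123,-84⟩,⟨-132,-644,69⟩,⟨-69,84,652⟩⟩ (33,[(1,8337),(0,161),(2,99625)]) (1,[(1,138),(0,1),(2,1288)]) (44,[(1,30275),(0,23),(2,11116)]))) (.node ⟨-104,147,-636⟩ (.node ⟨-104,-636,147⟩ (.node ⟨-644,24,147⟩ (.leaf false ⟨⟨-651,24,112⟩,⟨-104,147,-636⟩,⟨-48,-644,-141⟩⟩ (92,[(3,3367),(0,93),(4,24)]) (1,[(2,1)]) (13,[(3,2715),(1,6),(4,4556)])) (.leaf false ⟨⟨-644,-141,-48⟩,⟨24,112,-651⟩,⟨147,-636,-104⟩⟩ (2156,[(5,2076740),(1,435),(0,1139)]) (12291,[(2,10696),(5,3844452),(0,8155)]) (8085,[(5,6590005),(1,7583),(0,13303)]))) (.leaf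 false ⟨⟨-660,-36,-5⟩,⟨-5,180,-636⟩,⟨36,-635,-180⟩⟩ (147,[(4,97540),(3,8472),(0,5)]) (49,[(4,22293),(3,126012),(0,212)]) (49,[(4,4476),(3,69275),(0,60)]))) (.leaf false ⟨⟨-660,-5,-36⟩,⟨-5,-636,180⟩,⟨36,-180,-635⟩⟩ (147,[(1,8472),(3,97540),(0,5)]) (49,[(1,126012),(3,22293),(0,212)]) (49,[(1,69275),(3,4476),(0,60)])))))
theorem pf661_ok : pf661.check (ok 661 6 ⟨5, 5, 5⟩) (fun _ r => r) [] = true := by decide +kernel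

def pf673 : T := .node ⟨1,0,0⟩ (.node ⟨0,1,0⟩ (.node ⟨0,0,1⟩ (.leaf false ⟨⟨0,0,673⟩,⟨0,673,0⟩,⟨673,0,0⟩⟩ (1,[(0,673)]) (1,[(1,673)]) (1,[(2,673)])) (.node ⟨0,552,385⟩ (.leaf false ⟨⟨0,385,-552⟩,⟨0,552,385⟩,⟨673,0,0⟩⟩ (552,[(1,452929),(0,385)]) (1,[(0,1)]) (1,[(3,673)])) (.node ⟨-159,-168,-632⟩ (.leaf false ⟨⟨-159,-168,-632⟩,⟨88,639,-192⟩,⟨648,-128,-129⟩⟩ (1,[(0,1)]) (79,[(4,10768),(3,54513),(0,24)]) (385,[(1,129),(4,249480),(3,21928)])) (.leaf false ⟨⟨0,673,0⟩,⟨385,0,-552⟩,⟨552,0,385⟩⟩ (1,[(3,673)]) (61215,[(1,331088),(0,148225),(3,157858776)]) (20405,[(1,95883),(0,70840),(3,41026296)]))))) (.node ⟨0,0,1⟩ (.node ⟨0,385,552⟩ (.leaf false ⟨⟨0,-552,385⟩,⟨0,385,552⟩,⟨673,0,0⟩⟩ (552,[(0,385),(2,452929)]) (1,[(0,1)]) (1,[(3,673)])) (.node ⟨-159,-632,-168⟩ (.leaf false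 ⟨⟨-159,-632,-168⟩,⟨88,-192,639⟩,⟨648,-129,-128⟩⟩ (1,[(0,1)]) (79,[(2,54513),(4,10768),(0,24)]) (385,[(2,21928),(4,249480),(1,129)])) (.leaf false ⟨⟨0,0,673⟩,⟨385,-552,0⟩,⟨552,385,0⟩⟩ (1,[(2,673)]) (61215,[(2,157858776),(0,148225),(1,331088)]) (20405,[(2,41026296),(0,70840),(1,95883)])))) (.node ⟨628,-72,231⟩ (.node ⟨-231,-632,12⟩ (.leaf false ⟨⟨-231,-632,12⟩,⟨72,-39,-668⟩,⟨628,-228,81⟩⟩ (1,[(0,1)]) (632,[(2,422644),(4,54513),(0,39)]) (12094,[(4,5960761),(1,4038),(0,3903)])) (.leaf false ⟨⟨16,-327,-588⟩,⟨228,556,-303⟩,⟨633,-192,124⟩⟩ (157,[(2,93240),(1,4),(3,51051)]) (77,[(2,22419),(0,76),(3,5220)]) (628,[(2,68351),(1,633),(3,75000)]))) (.leaf false ⟨⟨-624,7,-252⟩,⟨7,-672,-36⟩,⟨252,36,-623⟩⟩ (11,[(3,672),(2,787),(0,12)]) (77,[(3,8075),(2,52608),(0,12)]) (33,[(3,64208),(2,5220),(0,89)])))))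 (.node ⟨0,1,0⟩ (.node ⟨0,0,1⟩ (.node ⟨385,0,552⟩ (.leaf false ⟨⟨-552,0,385⟩,⟨0,673,0⟩,⟨385,0,552⟩⟩ (552,[(3,452929),(0,385)]) (1,[(2,673)]) (1,[(0,1)])) (.node ⟨-632,-159,-168⟩ (.leaf false ⟨⟨-632,-159,-168⟩,⟨-192,88,639⟩,⟨-129,648,-128⟩⟩ (1,[(0,1)]) (79,[(2,54513),(0,24),(3,10768)]) (385,[(2,21928),(1,129),(3,249480)])) (.leaf false ⟨⟨-668,72,39⟩,⟨-12,231,-632⟩,⟨81,628,228⟩⟩ (20405,[(2,27159219),(1,50572),(0,9240)]) (4081,[(2,1867456),(1,9860),(0,5929)]) (61215,[(2,185315364),(1,384017),(0,241780)])))) (.node ⟨-72,628,231⟩ (.node ⟨-632,-231,12⟩ (.leaf false ⟨⟨-668,-81,12⟩,⟨-72,628,231⟩,⟨-39,228,-632⟩⟩ (158,[(2,108),(0,167),(3,25779)]) (1,[(1,1)]) (632,[(2,399892),(0,39),(3,153105)])) (.leaf false ⟨⟨-632,228,39⟩,⟨-12,81,-668⟩,⟨231,628,72⟩⟩ (157,[(2,7044),(4,95120),(1,57)])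 (77,[(2,51112),(4,17988),(0,27)]) (383,[(4,297479),(1,152),(0,628)]))) (.leaf false ⟨⟨-672,7,-36⟩,⟨7,-624,-252⟩,⟨36,252,-623⟩⟩ (77,[(3,52608),(2,8075),(0,12)]) (11,[(3,787),(2,672),(0,12)]) (33,[(3,5220),(2,64208),(0,89)])))) (.node ⟨0,0,1⟩ (.node ⟨-72,231,628⟩ (.node ⟨-632,12,-231⟩ (.leaf false ⟨⟨-668,12,-81⟩,⟨-72,231,628⟩,⟨-39,-632,228⟩⟩ (158,[(2,25779),(0,167),(3,108)]) (1,[(1,1)]) (632,[(2,153105),(0,39),(3,399892)])) (.leaf false ⟨⟨-632,-12,231⟩,⟨39,-668,72⟩,⟨228,81,628⟩⟩ (1,[(4,1264),(0,1)]) (77,[(4,12165),(3,51148),(0,24)]) (103382,[(1,86057),(3,10940025),(0,47100)]))) (.leaf false ⟨⟨-672,-36,7⟩,⟨7,-252,-624⟩,⟨36,-623,252⟩⟩ (77,[(1,8075),(3,52608),(0,12)]) (11,[(1,672),(3,787),(0,12)]) (33,[(1,64208),(3,5220),(0,89)]))) (.node ⟨-129,192,-632⟩ (.node ⟨-639,-128,168⟩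 (.node ⟨168,-639,-128⟩ (.leaf false ⟨⟨-648,-159,88⟩,⟨-128,168,-639⟩,⟨129,-632,-192⟩⟩ (71,[(3,5848),(1,72),(4,2073)]) (8,[(3,688),(2,7),(5,121)]) (56,[(3,5248),(4,7915),(0,43)])) (.leaf false ⟨⟨-648,88,159⟩,⟨-129,192,-632⟩,⟨-128,-639,-168⟩⟩ (7,[(3,2343),(0,27),(4,16637)]) (56,[(3,40896),(0,43),(4,16725)]) (21,[(3,5576),(0,16),(4,23643)]))) (.leaf false ⟨⟨-672,7,-36⟩,⟨7,-624,-252⟩,⟨36,252,-623⟩⟩ (14,[(4,11325),(3,286),(0,3)]) (2,[(4,1903),(3,1632),(0,3)]) (24,[(4,56007),(3,5344),(0,89)]))) (.leaf false ⟨⟨-672,-36,7⟩,⟨7,-252,-624⟩,⟨36,-623,252⟩⟩ (16,[(1,1784),(3,11139),(0,3)]) (16,[(1,23256),(3,2597),(0,21)]) (192,[(1,345352),(3,73455),(0,623)])))))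
theorem pf673_ok : pf673.check (ok 673 6 ⟨5, 5, 5⟩) (fun _ r => r) [] = true := by decide +kernel

def pf677 : T := .node ⟨1,0,0⟩ (.node ⟨0,1,0⟩ (.node ⟨0,0,1⟩ (.node ⟨-372,304,477⟩ (.node ⟨420,480,-227⟩ (.node ⟨420,-227,480⟩ (.leaf false ⟨⟨-285,420,448⟩,⟨420,-227,480⟩,⟨448,480,-165⟩⟩ (44,[(3,517),(1,10),(2,45)]) (1,[(0,1)]) (1,[(3,62),(5,28),(1,1)])) (.leaf false ⟨⟨-573,340,-120⟩,⟨-20,195,648⟩,⟨360,552,-155⟩⟩ (227,[(3,135960),(5,12729),(0,340)]) (227,[(3,240696),(5,77360),(0,195)]) (227,[(3,229775),(5,313560),(0,552)]))) (.leaf false ⟨⟨-573,-120,340⟩,⟨-20,648,195⟩,⟨360,-155,552⟩⟩ (227,[(4,12729),(3,135960),(0,340)]) (227,[(4,77360),(3,240696),(0,195)]) (227,[(4,313560),(3,229775),(0,552)]))) (.leaf false ⟨⟨48,304,603⟩,⟨396,477,-272⟩,⟨547,-372,144⟩⟩ (31,[(1,20601),(0,4),(2,10640)])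 (31,[(1,7309),(0,33),(2,24819)]) (372,[(1,314487),(0,547),(2,27904)]))) (.node ⟨-252,619,-108⟩ (.node ⟨196,-252,-597⟩ (.node ⟨612,277,84⟩ (.leaf false ⟨⟨-213,564,-308⟩,⟨196,-252,-597⟩,⟨612,277,84⟩⟩ (84,[(3,18204),(4,3427),(2,71)]) (1,[(1,1)]) (1,[(0,1)])) (.leaf false ⟨⟨-648,120,-155⟩,⟨-20,-573,-360⟩,⟨195,340,-552⟩⟩ (84,[(5,40428),(4,53015),(0,155)]) (7,[(5,18220),(4,4299),(0,30)]) (7,[(5,29517),(4,15122),(0,46)]))) (.leaf false ⟨⟨-384,547,-108⟩,⟨232,276,573⟩,⟨507,288,-344⟩⟩ (252,[(2,353775),(4,10444),(0,547)]) (21,[(2,1698),(4,9380),(0,23)]) (7,[(2,7184),(4,5117),(0,8)]))) (.leaf false ⟨⟨21,108,-668⟩,⟨252,619,108⟩,⟨628,-252,-21⟩⟩ (12,[(1,8124),(0,1),(2,1915)]) (1,[(0,1),(2,1238)]) (63,[(1,18279),(0,157),(2,81307)])))) (.node ⟨0,0,1⟩ (.node ⟨-252,-108,619⟩ (.node ⟨196,-597,-252⟩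 (.node ⟨612,84,277⟩ (.leaf false ⟨⟨-213,-308,564⟩,⟨196,-597,-252⟩,⟨612,84,277⟩⟩ (84,[(3,3427),(4,18204),(2,71)]) (1,[(1,1)]) (1,[(0,1)])) (.leaf false ⟨⟨-648,-155,120⟩,⟨-20,-360,-573⟩,⟨195,-552,340⟩⟩ (84,[(3,53015),(5,40428),(0,155)]) (7,[(3,4299),(5,18220),(0,30)]) (7,[(3,15122),(5,29517),(0,46)]))) (.leaf false ⟨⟨-384,-108,547⟩,⟨232,573,276⟩,⟨507,-344,288⟩⟩ (252,[(4,10444),(3,353775),(0,547)]) (21,[(4,9380),(3,1698),(0,23)]) (7,[(4,5117),(3,7184),(0,8)]))) (.leaf false ⟨⟨21,-668,108⟩,⟨252,108,619⟩,⟨628,-21,-252⟩⟩ (12,[(1,1915),(0,1),(2,8124)]) (1,[(1,1238),(0,1)]) (63,[(1,81307),(0,157),(2,18279)]))) (.node ⟨675,0,52⟩ (.leaf false ⟨⟨0,-677,0⟩,⟨52,0,-675⟩,⟨675,0,52⟩⟩ (1,[(2,677)]) (675,[(1,458329),(0,52)]) (1,[(0,1)])) (.node ⟨252,285,-560⟩ (.leaf false ⟨⟨-612,-272,-99⟩,⟨-29,288,-612⟩,⟨288,-549,-272⟩⟩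 (52,[(4,35001),(3,14144),(1,99)]) (1235,[(4,388814),(1,1095),(0,1248)]) (35,[(4,5796),(3,24060),(0,17)])) (.leaf false ⟨⟨-648,-155,120⟩,⟨-20,-360,-573⟩,⟨195,-552,340⟩⟩ (741,[(4,1396638),(0,403),(1,2630)]) (988,[(4,16715461),(0,1248),(1,24327)]) (1235,[(4,12780984),(0,2392),(1,17685)])))))) (.node ⟨0,1,0⟩ (.node ⟨0,0,1⟩ (.node ⟨-108,619,-252⟩ (.node ⟨-597,-252,196⟩ (.node ⟨84,277,612⟩ (.leaf false ⟨⟨-597,-252,196⟩,⟨-308,564,-213⟩,⟨84,277,612⟩⟩ (1,[(1,1)]) (84,[(5,18204),(2,71),(4,3427)]) (1,[(0,1)])) (.leaf false ⟨⟨-668,-108,21⟩,⟨-108,619,-252⟩,⟨-21,252,628⟩⟩ (21,[(3,102645),(0,167),(4,43991)]) (7,[(3,3744),(0,9),(4,6826)]) (4,[(3,3124),(0,1),(4,1285)]))) (.leaf false ⟨⟨-668,21,108⟩,⟨-21,628,-252⟩,⟨108,252,619⟩⟩ (12,[(2,1492),(4,8613),(0,1)]) (63,[(2,14896),(4,95052),(0,157)])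 (1,[(2,815),(4,489),(0,1)]))) (.leaf false ⟨⟨-668,-48,99⟩,⟨48,421,528⟩,⟨99,-528,412⟩⟩ (28,[(3,19892),(2,5465),(0,11)]) (21,[(3,3744),(2,36077),(0,44)]) (63,[(3,4887),(2,30493),(0,103)]))) (.node ⟨0,675,52⟩ (.leaf false ⟨⟨-677,0,0⟩,⟨0,52,-675⟩,⟨0,675,52⟩⟩ (1,[(3,677)]) (675,[(1,458329),(0,52)]) (1,[(0,1)])) (.node ⟨285,252,-560⟩ (.leaf false ⟨⟨-675,48,-20⟩,⟨-20,-480,-477⟩,⟨48,475,-480⟩⟩ (13,[(1,5),(4,8775),(3,3999)]) (52,[(1,477),(4,1040),(3,297015)]) (7,[(4,1374),(3,1813),(0,6)])) (.leaf false ⟨⟨-648,-189,52⟩,⟨-168,628,189⟩,⟨-101,168,-648⟩⟩ (1235,[(1,29005),(0,2808),(3,20052576)]) (4940,[(1,13405),(0,2912),(3,12884519)]) (3705,[(1,60310),(0,1313),(3,41662566)]))))) (.node ⟨0,0,1⟩ (.node ⟨0,52,675⟩ (.leaf false ⟨⟨-677,0,0⟩,⟨0,-675,52⟩,⟨0,52,675⟩⟩ (1,[(3,677)]) (675,[(0,52),(2,458329)])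 (1,[(0,1)])) (.node ⟨285,-560,252⟩ (.leaf false ⟨⟨-675,-20,48⟩,⟨-20,-477,-480⟩,⟨48,-480,475⟩⟩ (13,[(2,3999),(4,8775),(1,5)]) (52,[(2,297015),(4,1040),(1,477)]) (7,[(2,1813),(4,1374),(0,6)])) (.leaf false ⟨⟨-648,52,-189⟩,⟨-168,189,628⟩,⟨-101,-648,168⟩⟩ (1235,[(2,20052576),(0,2808),(1,29005)]) (4940,[(2,12884519),(0,2912),(1,13405)]) (3705,[(2,41662566),(0,1313),(1,60310)])))) (.leaf false ⟨⟨-677,0,0⟩,⟨0,-677,0⟩,⟨0,0,-677⟩⟩ (1,[(2,677)]) (1,[(1,677)]) (1,[(0,677)]))))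
theorem pf677_ok : pf677.check (ok 677 6 ⟨5, 5, 5⟩) (fun _ r => r) [] = true := by decide +kernel

def pf683 : T := .node ⟨1,0,0⟩ (.node ⟨0,1,0⟩ (.node ⟨0,0,1⟩ (.node ⟨-233,174,618⟩ (.node ⟨618,174,-233⟩ (.node ⟨-233,642,6⟩ (.leaf false ⟨⟨-233,642,6⟩,⟨174,57,658⟩,⟨618,226,-183⟩⟩ (1,[(0,1)]) (58,[(3,26422),(5,14519),(2,19)]) (218649,[(3,12247556),(1,224707),(0,16068)])) (.leaf false ⟨⟨-222,138,631⟩,⟨442,519,42⟩,⟨471,-422,258⟩⟩ (142596,[(4,636948),(2,145691),(0,9827)]) (29785,[(1,25722),(4,8943159),(2,11722)]) (11883,[(4,12861516),(2,5245),(0,29266)]))) (.leaf false ⟨⟨-567,90,370⟩,⟨190,642,135⟩,⟨330,-215,558⟩⟩ (233,[(4,96549),(3,85350),(0,370)]) (233,[(4,127700),(3,173076),(0,135)]) (233,[(4,421734),(3,46997),(0,558)]))) (.leaf false ⟨⟨42,442,519⟩,⟨258,471,-422⟩,⟨631,-222,138⟩⟩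 (233,[(1,146883),(0,42),(2,110294)]) (233,[(1,61118),(0,258),(2,154635)]) (233,[(1,422112),(0,631),(2,58068)]))) (.node ⟨622,162,231⟩ (.node ⟨-330,558,-215⟩ (.node ⟨138,-201,-638⟩ (.leaf false ⟨⟨-330,558,-215⟩,⟨190,-135,-642⟩,⟨567,370,90⟩⟩ (1,[(1,1)]) (67,[(3,14304),(0,45),(5,6520)]) (77,[(5,24999),(2,30),(4,23630)])) (.leaf false ⟨⟨-327,498,334⟩,⟨82,414,-537⟩,⟨594,217,258⟩⟩ (67,[(3,83530),(5,999),(0,166)]) (67,[(3,124023),(5,24538),(0,138)]) (201,[(3,86588),(5,149340),(0,217)]))) (.leaf false ⟨⟨55,258,-630⟩,⟨390,-530,-183⟩,⟨558,345,190⟩⟩ (6,[(2,3995),(0,1),(3,2106)]) (11,[(2,4808),(0,13),(3,1424)]) (55,[(2,9545),(0,93),(3,70869)]))) (.leaf false ⟨⟨-630,105,-242⟩,⟨150,658,-105⟩,⟨217,-150,-630⟩⟩ (21,[(3,454),(2,5769),(0,22)]) (11,[(3,4760),(2,8048),(0,5)]) (11,[(3,21047),(2,3210),(0,30)]))))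 (.node ⟨0,0,1⟩ (.node ⟨622,231,162⟩ (.node ⟨-330,-215,558⟩ (.node ⟨138,-638,-201⟩ (.leaf false ⟨⟨-330,-215,558⟩,⟨190,-642,-135⟩,⟨567,90,370⟩⟩ (1,[(1,1)]) (67,[(5,6520),(0,45),(4,14304)]) (77,[(3,23630),(2,30),(5,24999)])) (.leaf false ⟨⟨-327,82,594⟩,⟨334,-537,258⟩,⟨498,414,217⟩⟩ (67,[(5,5415),(4,120830),(0,198)]) (67,[(5,34246),(4,90847),(0,86)]) (201,[(5,130044),(4,55232),(0,217)]))) (.leaf false ⟨⟨55,-630,258⟩,⟨390,-183,-530⟩,⟨558,190,345⟩⟩ (6,[(2,2106),(0,1),(3,3995)]) (11,[(2,1424),(0,13),(3,4808)]) (55,[(2,70869),(0,93),(3,9545)]))) (.leaf false ⟨⟨-630,-242,105⟩,⟨150,-105,658⟩,⟨217,-630,-150⟩⟩ (21,[(1,5769),(3,454),(0,22)]) (11,[(1,8048),(3,4760),(0,5)]) (11,[(1,3210),(3,21047),(0,30)]))) (.node ⟨183,226,-618⟩ (.node ⟨183,-618,226⟩ (.node ⟨658,-57,174⟩ (.leaf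 false ⟨⟨6,-642,-233⟩,⟨183,226,-618⟩,⟨658,-57,174⟩⟩ (61,[(3,14665),(1,2),(4,37926)]) (1,[(2,1)]) (1,[(0,1)])) (.leaf false ⟨⟨-558,-330,-215⟩,⟨135,190,-642⟩,⟨370,-567,-90⟩⟩ (1262,[(5,945825),(1,929),(0,2766)]) (58942217,[(2,61235489),(1,4852032),(0,6286956)]) (165424,[(2,91881),(5,10469398),(1,185373)]))) (.leaf false ⟨⟨-422,-57,-534⟩,⟨327,-566,-198⟩,⟨426,378,-377⟩⟩ (113,[(4,1175),(3,171447),(0,267)]) (113,[(4,55068),(3,125140),(0,99)]) (226,[(4,165267),(3,147558),(0,377)]))) (.leaf false ⟨⟨-422,-537,-6⟩,⟨366,-282,-503⟩,⟨393,-314,462⟩⟩ (226,[(1,333222),(3,2899),(0,537)]) (113,[(1,143977),(3,67161),(0,141)]) (113,[(1,44820),(3,73140),(0,157)]))))) (.node ⟨0,1,0⟩ (.node ⟨0,0,1⟩ (.node ⟨231,162,622⟩ (.node ⟨-215,558,-330⟩ (.node ⟨-638,-201,138⟩ (.leaf false ⟨⟨-642,-135,190⟩,⟨-215,558,-330⟩,⟨90,370,567⟩⟩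 (67,[(3,6520),(0,45),(5,14304)]) (1,[(1,1)]) (77,[(3,24999),(4,23630),(2,30)])) (.leaf false ⟨⟨-638,138,201⟩,⟨78,649,-198⟩,⟨231,162,622⟩⟩ (67,[(3,19815),(5,72094),(0,46)]) (201,[(3,49764),(5,398384),(0,649)]) (67,[(3,49126),(5,18975),(0,54)]))) (.leaf false ⟨⟨-663,-114,118⟩,⟨-26,558,393⟩,⟨162,-377,546⟩⟩ (165,[(4,122080),(3,14112),(0,59)]) (110,[(4,31025),(3,134478),(0,131)]) (55,[(4,10655),(3,30043),(0,91)]))) (.leaf false ⟨⟨-638,-231,-78⟩,⟨-201,622,-198⟩,⟨-138,162,649⟩⟩ (21,[(1,34438),(0,58),(2,4545)]) (77,[(1,26428),(0,67),(2,58748)]) (77,[(1,78585),(0,46),(2,19926)]))) (.node ⟨226,183,-618⟩ (.node ⟨-618,183,226⟩ (.node ⟨-57,658,174⟩ (.leaf false ⟨⟨-642,6,-233⟩,⟨-57,658,174⟩,⟨226,183,-618⟩⟩ (61,[(3,14665),(5,37926),(1,2)]) (1,[(0,1)]) (1,[(2,1)])) (.leaf false ⟨⟨-678,-42,-71⟩,⟨-9,622,-282⟩,⟨82,-279,-618⟩⟩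 (31550,[(1,40673),(4,34463657),(0,65702)]) (3155,[(1,588),(4,5721872),(0,5877)]) (58942217,[(1,15312177),(2,52217318),(0,43773216)]))) (.leaf false ⟨⟨-678,-42,-71⟩,⟨-9,622,-282⟩,⟨82,-279,-618⟩⟩ (226,[(4,197106),(3,3501),(0,71)]) (113,[(4,88155),(3,96089),(0,141)]) (113,[(4,181696),(3,25020),(0,309)]))) (.leaf false ⟨⟨-642,57,226⟩,⟨-233,-174,-618⟩,⟨-6,658,-183⟩⟩ (113,[(1,172840),(0,321),(2,65184)]) (226,[(1,283662),(0,233),(2,3315)]) (113,[(1,22533),(0,3),(2,74903)])))) (.node ⟨0,0,1⟩ (.node ⟨226,-618,183⟩ (.node ⟨-618,226,183⟩ (.node ⟨-57,174,658⟩ (.leaf false ⟨⟨-642,-233,6⟩,⟨-57,174,658⟩,⟨226,-618,183⟩⟩ (61,[(1,2),(5,37926),(4,14665)]) (1,[(0,1)]) (1,[(2,1)])) (.leaf false ⟨⟨-678,-71,-42⟩,⟨-9,-282,622⟩,⟨82,-618,-279⟩⟩ (31550,[(3,34463657),(1,40673),(0,65702)]) (3155,[(3,5721872),(1,588),(0,5877)])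 (58942217,[(1,15312177),(0,43773216),(2,52217318)]))) (.leaf false ⟨⟨-678,-71,-42⟩,⟨-9,-282,622⟩,⟨82,-618,-279⟩⟩ (226,[(2,3501),(4,197106),(0,71)]) (113,[(2,96089),(4,88155),(0,141)]) (113,[(2,25020),(4,181696),(0,309)]))) (.leaf false ⟨⟨-642,226,57⟩,⟨-233,-618,-174⟩,⟨-6,-183,658⟩⟩ (113,[(1,65184),(0,321),(2,172840)]) (226,[(1,3315),(0,233),(2,283662)]) (113,[(1,74903),(0,3),(2,22533)]))) (.leaf false ⟨⟨-683,0,0⟩,⟨0,-683,0⟩,⟨0,0,-683⟩⟩ (1,[(2,683)]) (1,[(1,683)]) (1,[(0,683)]))))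
theorem pf683_ok : pf683.check (ok 683 6 ⟨5, 5, 5⟩) (fun _ r => r) [] = true := by decide +kernel

def pf689 : T := .node ⟨1,0,0⟩ (.node ⟨0,1,0⟩ (.node ⟨0,0,1⟩ (.node ⟨-288,49,624⟩ (.node ⟨159,652,-156⟩ (.node ⟨636,-96,247⟩ (.leaf false ⟨⟨-212,201,624⟩,⟨159,652,-156⟩,⟨636,-96,247⟩⟩ (1,[(5,76),(4,152),(2,1)]) (1,[(1,1)]) (1,[(0,1)])) (.leaf false ⟨⟨-671,132,84⟩,⟨84,616,-297⟩,⟨132,279,616⟩⟩ (8,[(3,3389),(5,1628),(0,11)]) (12,[(3,15455),(5,49980),(0,77)]) (32,[(3,42683),(5,63372),(0,93)]))) (.leaf false ⟨⟨-468,-156,481⟩,⟨351,-572,156⟩,⟨364,351,468⟩⟩ (12,[(4,267),(3,22252),(0,37)]) (1,[(4,510),(3,80),(0,1)]) (1,[(4,841),(3,2307),(0,3)]))) (.leaf false ⟨⟨36,688,9⟩,⟨324,-9,-608⟩,⟨607,-36,324⟩⟩ (8,[(1,696),(0,1),(2,5553)]) (8,[(1,752),(0,9),(2,369)]) (288,[(1,472080),(0,607),(2,19375)])))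 (.node ⟨684,33,76⟩ (.node ⟨-72,681,76⟩ (.leaf false ⟨⟨-41,684,72⟩,⟨72,76,-681⟩,⟨684,33,76⟩⟩ (227,[(2,984),(4,7109),(0,228)]) (681,[(2,469537),(4,54504),(0,76)]) (1,[(1,1)])) (.node ⟨400,-561,0⟩ (.leaf false ⟨⟨0,0,-689⟩,⟨400,-561,0⟩,⟨561,400,0⟩⟩ (1,[(3,689)]) (1,[(0,1)]) (228,[(3,14212),(2,187),(4,85029)])) (.leaf false ⟨⟨-671,-12,-156⟩,⟨12,681,-104⟩,⟨156,-104,-663⟩⟩ (38684,[(1,101687),(2,22283),(0,121300)]) (87039,[(1,433987),(2,314881),(0,613953)]) (3133404,[(1,66662557),(2,39327730),(0,78027651)])))) (.leaf false ⟨⟨-671,-12,-156⟩,⟨12,681,-104⟩,⟨156,-104,-663⟩⟩ (19,[(3,13927),(2,1059),(0,39)]) (19,[(3,18012),(2,13797),(0,26)]) (76,[(3,465348),(2,13975),(0,663)])))) (.node ⟨0,0,1⟩ (.node ⟨684,76,33⟩ (.node ⟨-72,76,681⟩ (.leaf false ⟨⟨-41,72,684⟩,⟨72,-681,76⟩,⟨684,76,33⟩⟩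 (227,[(4,7109),(3,984),(0,228)]) (681,[(4,54504),(3,469537),(0,76)]) (1,[(1,1)])) (.node ⟨400,0,-561⟩ (.leaf false ⟨⟨0,-689,0⟩,⟨400,0,-561⟩,⟨561,0,400⟩⟩ (1,[(4,689)]) (1,[(0,1)]) (228,[(3,85029),(2,187),(4,14212)])) (.leaf false ⟨⟨-671,-156,-12⟩,⟨12,-104,681⟩,⟨156,-663,-104⟩⟩ (38684,[(2,22283),(1,101687),(0,121300)]) (87039,[(2,314881),(1,433987),(0,613953)]) (3133404,[(2,39327730),(1,66662557),(0,78027651)])))) (.leaf false ⟨⟨-671,-156,-12⟩,⟨12,-104,681⟩,⟨156,-663,-104⟩⟩ (19,[(1,1059),(3,13927),(0,39)]) (19,[(1,13797),(3,18012),(0,26)]) (76,[(1,13975),(3,465348),(0,663)]))) (.node ⟨636,0,265⟩ (.leaf false ⟨⟨0,-689,0⟩,⟨265,0,-636⟩,⟨636,0,265⟩⟩ (1,[(2,689)]) (12,[(1,8957),(0,5)]) (1,[(0,1)])) (.node ⟨-156,247,-624⟩ (.leaf false ⟨⟨-624,-104,-273⟩,⟨156,-663,-104⟩,⟨247,156,-624⟩⟩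 (265,[(4,8268),(3,27560),(1,273)]) (6,[(4,1092),(3,4225),(0,1)]) (1,[(4,403),(3,91),(0,1)])) (.leaf false ⟨⟨-663,-104,-156⟩,⟨-36,-492,481⟩,⟨184,-471,-468⟩⟩ (5035,[(4,1391091),(0,2120),(1,7956)]) (65455,[(4,97000176),(0,130380),(1,188201)]) (13091,[(4,50602916),(0,24963),(1,81900)])))))) (.node ⟨0,1,0⟩ (.node ⟨0,0,1⟩ (.node ⟨76,684,33⟩ (.node ⟨76,-72,681⟩ (.leaf false ⟨⟨-681,72,76⟩,⟨72,-41,684⟩,⟨76,684,33⟩⟩ (681,[(4,469537),(3,54504),(0,76)]) (227,[(4,984),(3,7109),(0,228)]) (1,[(1,1)])) (.node ⟨0,400,-561⟩ (.leaf false ⟨⟨-689,0,0⟩,⟨0,400,-561⟩,⟨0,561,400⟩⟩ (1,[(5,689)]) (1,[(0,1)]) (228,[(3,85029),(5,14212),(2,187)])) (.leaf false ⟨⟨-684,76,-33⟩,⟨-41,-72,684⟩,⟨72,681,76⟩⟩ (13743,[(1,300146),(2,176459),(0,353160)]) (1044468,[(1,2833141),(2,2269678),(0,4579119)]) (3133404,[(1,691747),(2,3660235),(0,1048896)]))))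 (.leaf false ⟨⟨-672,49,-144⟩,⟨-111,288,616⟩,⟨-104,-624,273⟩⟩ (19,[(1,2808),(0,168),(2,115843)]) (76,[(1,50479),(0,111),(2,97812)]) (19,[(1,6045),(0,26),(2,5928)]))) (.node ⟨0,636,265⟩ (.leaf false ⟨⟨-689,0,0⟩,⟨0,265,-636⟩,⟨0,636,265⟩⟩ (1,[(3,689)]) (12,[(1,8957),(0,5)]) (1,[(0,1)])) (.node ⟨247,-156,-624⟩ (.leaf false ⟨⟨-680,36,-105⟩,⟨36,-545,-420⟩,⟨105,420,-536⟩⟩ (53,[(1,21),(4,36040),(3,15264)]) (355524,[(1,274560),(4,17506801),(0,122695)]) (78,[(4,8359),(3,43212),(0,67)])) (.leaf false ⟨⟨-681,-104,-12⟩,⟨-104,663,156⟩,⟨-12,156,-671⟩⟩ (65455,[(1,427908),(0,180465),(3,237189628)]) (5035,[(1,2028),(0,2120),(3,4297293)]) (13091,[(1,34645),(0,636),(3,23977200)]))))) (.node ⟨0,0,1⟩ (.node ⟨0,265,636⟩ (.leaf false ⟨⟨-689,0,0⟩,⟨0,-636,265⟩,⟨0,265,636⟩⟩ (1,[(3,689)]) (12,[(0,5),(2,8957)])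 (1,[(0,1)])) (.node ⟨247,-624,-156⟩ (.leaf false ⟨⟨-680,-105,36⟩,⟨36,-420,-545⟩,⟨105,-536,420⟩⟩ (53,[(2,15264),(4,36040),(1,21)]) (65455,[(2,17506801),(1,81276),(0,9540)]) (78,[(2,43212),(4,8359),(0,67)])) (.leaf false ⟨⟨-681,-12,-104⟩,⟨-104,156,663⟩,⟨-12,-671,156⟩⟩ (65455,[(2,237189628),(0,180465),(1,427908)]) (5035,[(2,4297293),(0,2120),(1,2028)]) (13091,[(2,23977200),(0,636),(1,34645)])))) (.leaf false ⟨⟨-689,0,0⟩,⟨0,-689,0⟩,⟨0,0,-689⟩⟩ (1,[(2,689)]) (1,[(1,689)]) (1,[(0,689)]))))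
theorem pf689_ok : pf689.check (ok 689 6 ⟨5, 5, 5⟩) (fun _ r => r) [] = true := by decide +kernel

def pf691 : T := .node ⟨1,0,0⟩ (.node ⟨0,1,0⟩ (.node ⟨0,0,1⟩ (.leaf false ⟨⟨0,0,691⟩,⟨0,691,0⟩,⟨691,0,0⟩⟩ (1,[(0,691)]) (1,[(1,691)]) (1,[(2,691)])) (.node ⟨-111,678,-74⟩ (.node ⟨-74,-111,-678⟩ (.leaf false ⟨⟨-111,678,-74⟩,⟨6,-74,-687⟩,⟨682,111,-6⟩⟩ (1,[(1,1)]) (226,[(4,18302),(3,8695),(0,229)]) (37,[(4,25567),(3,2073),(1,3)])) (.leaf false ⟨⟨-66,561,-398⟩,⟨34,402,561⟩,⟨687,34,-66⟩⟩ (226,[(2,76110),(4,5841),(1,187)]) (20831,[(2,2967441),(0,22558),(1,8658)]) (111,[(2,30378),(4,73741),(0,34)]))) (.leaf false ⟨⟨6,687,-74⟩,⟨111,-74,-678⟩,⟨682,6,111⟩⟩ (37,[(1,2886),(0,2),(2,26775)]) (1,[(1,752),(0,1),(2,604)]) (111,[(1,38147),(0,682),(2,463062)])))) (.node ⟨0,0,1⟩ (.node ⟨-111,-74,678⟩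 (.node ⟨-74,-678,-111⟩ (.leaf false ⟨⟨-111,-74,678⟩,⟨6,-687,-74⟩,⟨682,-6,111⟩⟩ (1,[(1,1)]) (226,[(2,8695),(4,18302),(0,229)]) (37,[(2,2073),(4,25567),(1,3)])) (.leaf false ⟨⟨-66,-398,561⟩,⟨34,561,402⟩,⟨687,-66,34⟩⟩ (226,[(4,5841),(3,76110),(1,187)]) (155966,[(4,2967441),(1,70095),(0,136702)]) (111,[(4,73741),(3,30378),(0,34)]))) (.leaf false ⟨⟨6,-74,687⟩,⟨111,-678,-74⟩,⟨682,111,6⟩⟩ (37,[(1,26775),(0,2),(2,2886)]) (1,[(1,604),(0,1),(2,752)]) (111,[(1,463062),(0,682),(2,38147)]))) (.node ⟨-225,-650,-66⟩ (.node ⟨610,225,-234⟩ (.node ⟨-225,-66,-650⟩ (.leaf false ⟨⟨-225,-66,-650⟩,⟨234,-650,-15⟩,⟨610,225,-234⟩⟩ (1,[(0,1)]) (22,[(5,6273),(4,11050),(2,5)]) (1,[(1,1)])) (.leaf false ⟨⟨-225,-650,-66⟩,⟨234,-15,-650⟩,⟨610,-234,225⟩⟩ (1,[(2,1)]) (13835,[(3,7374352),(1,6219),(2,2472)])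 (584,[(1,584),(0,459),(2,459)]))) (.leaf false ⟨⟨-641,-258,6⟩,⟨78,-209,-654⟩,⟨246,-606,223⟩⟩ (75,[(2,19674),(4,4385),(0,86)]) (225,[(2,196056),(4,145040),(0,209)]) (75,[(2,30543),(4,141670),(0,202)]))) (.leaf false ⟨⟨15,34,-690⟩,⟨466,-510,-15⟩,⟨510,465,34⟩⟩ (15,[(1,10416),(0,1),(2,140)]) (225,[(1,34131),(0,466),(2,417650)]) (15,[(1,1734),(0,34),(2,15125)]))))) (.node ⟨0,1,0⟩ (.node ⟨0,0,1⟩ (.node ⟨-74,678,-111⟩ (.node ⟨-678,-111,-74⟩ (.leaf false ⟨⟨-687,-74,6⟩,⟨-74,678,-111⟩,⟨-6,111,682⟩⟩ (226,[(2,18302),(0,229),(3,8695)]) (1,[(1,1)]) (37,[(2,25567),(1,3),(3,2073)])) (.leaf false ⟨⟨-398,561,-66⟩,⟨-66,34,687⟩,⟨561,402,34⟩⟩ (226,[(2,5841),(4,76110),(1,187)]) (111,[(2,73741),(4,30378),(0,34)]) (155966,[(2,2967441),(1,70095),(0,136702)]))) (.leaf false ⟨⟨-690,-15,34⟩,⟨15,466,510⟩,⟨34,-510,465⟩⟩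 (111,[(3,79106),(2,21387),(0,34)]) (37,[(3,12025),(2,132502),(0,170)]) (37,[(3,10212),(2,86220),(0,155)]))) (.node ⟨-650,-225,-66⟩ (.node ⟨225,610,-234⟩ (.node ⟨-66,-225,-650⟩ (.leaf false ⟨⟨-650,234,-15⟩,⟨-66,-225,-650⟩,⟨225,610,-234⟩⟩ (22,[(2,5),(5,11050),(4,6273)]) (1,[(0,1)]) (1,[(1,1)])) (.leaf false ⟨⟨-690,15,34⟩,⟨-15,466,-510⟩,⟨34,510,465⟩⟩ (1095,[(3,770588),(2,1302),(0,1375)]) (13835,[(3,3888156),(2,4560),(1,12251)]) (4380,[(3,4922828),(2,867),(0,10795)]))) (.leaf false ⟨⟨-650,-234,-15⟩,⟨-225,610,234⟩,⟨-66,225,-650⟩⟩ (9,[(2,6219),(0,26),(3,13754)]) (1,[(0,1),(3,1220)]) (75,[(2,53898),(0,22),(3,30295)]))) (.leaf false ⟨⟨-510,465,34⟩,⟨-15,34,-690⟩,⟨466,510,15⟩⟩ (15,[(1,1536),(3,27800),(0,31)]) (225,[(1,157494),(3,25475),(0,34)]) (15,[(1,2019),(3,15110),(0,34)]))))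 (.node ⟨0,0,1⟩ (.node ⟨-650,-66,-225⟩ (.node ⟨225,-234,610⟩ (.node ⟨-66,-650,-225⟩ (.leaf false ⟨⟨-650,-15,234⟩,⟨-66,-650,-225⟩,⟨225,-234,610⟩⟩ (22,[(3,6273),(5,11050),(2,5)]) (1,[(0,1)]) (1,[(1,1)])) (.leaf false ⟨⟨-690,-15,34⟩,⟨15,466,510⟩,⟨34,-510,465⟩⟩ (65700,[(2,78747),(4,53426948),(0,88675)]) (6406261,[(2,1772415),(1,3751251),(0,6123215)]) (1095,[(2,192),(4,2141528),(0,2455)]))) (.leaf false ⟨⟨-650,-66,-225⟩,⟨-234,225,610⟩,⟨-15,-650,234⟩⟩ (9,[(2,13835),(0,26),(3,6678)]) (25,[(2,31110),(0,26),(3,459)]) (15,[(2,4120),(0,1),(3,9984)]))) (.leaf false ⟨⟨-510,-15,466⟩,⟨34,-690,15⟩,⟨465,34,510⟩⟩ (225,[(3,417650),(2,34131),(0,466)]) (15,[(3,140),(2,10416),(0,1)]) (15,[(3,15125),(2,1734),(0,34)]))) (.node ⟨-209,258,-606⟩ (.node ⟨-209,-606,258⟩ (.node ⟨-654,-6,223⟩ (.leaf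 false ⟨⟨-654,-6,223⟩,⟨-209,258,-606⟩,⟨-78,-641,-246⟩⟩ (1,[(0,1)]) (1,[(2,1)]) (109,[(3,29713),(0,13),(4,69791)])) (.leaf false ⟨⟨-641,-246,-78⟩,⟨-6,223,-654⟩,⟨258,-606,-209⟩⟩ (2088,[(2,769),(5,932112),(1,1175)]) (53898,[(2,45805),(5,12720619),(0,33594)]) (9826020,[(2,5087965),(1,12084899),(0,9364284)]))) (.leaf false ⟨⟨-687,34,-66⟩,⟨34,-402,-561⟩,⟨66,561,-398⟩⟩ (43,[(4,31840),(3,5204),(0,11)]) (86,[(4,36159),(3,147894),(0,187)]) (129,[(4,33077),(3,48225),(0,199)]))) (.leaf false ⟨⟨-687,-66,34⟩,⟨34,-561,-402⟩,⟨66,-398,561⟩⟩ (43,[(1,5204),(3,31840),(0,11)]) (86,[(1,147894),(3,36159),(0,187)]) (129,[(1,48225),(3,33077),(0,199)])))))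
theorem pf691_ok : pf691.check (ok 691 6 ⟨5, 5, 5⟩) (fun _ r => r) [] = true := by decide +kernel


end H34S
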