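import Pool.Agent.Lib.H34S.Cover

/-!
# H34S: certificates (generated), pentagonal numbers
-/

set_option autoImplicit false

namespace H34S

def pf701 : T := .node ⟨1,0,0⟩ (.node ⟨0,1,0⟩ (.node ⟨0,0,1⟩ (.node ⟨-276,235,600⟩ (.node ⟨600,235,-276⟩ (.node ⟨75,660,-224⟩ (.leaf false ⟨⟨-276,235,600⟩,⟨75,660,-224⟩,⟨640,24,285⟩⟩ (1,[(2,1)]) (1,[(0,1)]) (55,[(3,16123),(5,35050),(0,2)])) (.leaf false ⟨⟨-276,75,640⟩,⟨235,660,24⟩,⟨600,-224,285⟩⟩ (701,[(4,220815),(2,576),(0,460)]) (5685,[(1,2722),(4,5728010),(0,3963)]) (1516,[(1,2077),(4,2134401),(0,4488)]))) (.leaf false ⟨⟨-620,-45,324⟩,⟨45,676,180⟩,⟨324,-180,595⟩⟩ (23,[(4,1940),(3,5310),(0,27)]) (23,[(4,10035),(3,19073),(0,15)]) (276,[(4,446424),(3,90145),(0,595)]))) (.leaf false ⟨⟨21,532,456⟩,⟨456,336,-413⟩,⟨532,-309,336⟩⟩ (92,[(1,46152),(0,7),(2,50589)])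 (23,[(1,13301),(0,38),(2,16658)]) (69,[(1,102984),(0,133),(2,9934)]))) (.node ⟨672,64,189⟩ (.node ⟨-189,672,64⟩ (.leaf false ⟨⟨-189,672,64⟩,⟨64,84,-693⟩,⟨672,181,84⟩⟩ (1,[(0,1)]) (8,[(2,5608),(4,701),(0,1)]) (7360,[(2,919011),(1,7711),(0,1248)])) (.leaf false ⟨⟨28,324,-621⟩,⟨324,-557,-276⟩,⟨621,276,172⟩⟩ (24,[(2,15093),(1,1),(3,7712)]) (7,[(2,1164),(0,12),(3,4165)]) (224,[(2,595),(1,207),(3,48576)]))) (.leaf false ⟨⟨-312,-144,-611⟩,⟨-171,676,-72⟩,⟨604,117,-336⟩⟩ (189,[(3,351624),(2,11888),(0,611)]) (21,[(3,1785),(2,14708),(0,8)]) (9,[(3,16188),(2,2077),(0,16)])))) (.node ⟨0,0,1⟩ (.node ⟨672,189,64⟩ (.node ⟨-189,64,672⟩ (.leaf false ⟨⟨-189,64,672⟩,⟨64,-693,84⟩,⟨672,84,181⟩⟩ (1,[(0,1)]) (8,[(4,701),(3,5608),(0,1)]) (7360,[(1,7711),(3,919011),(0,1248)])) (.leaf false ⟨⟨28,-621,324⟩,⟨324,-276,-557⟩,⟨621,172,276⟩⟩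 (24,[(2,7712),(1,1),(3,15093)]) (7,[(2,4165),(0,12),(3,1164)]) (224,[(2,48576),(1,207),(3,595)]))) (.leaf false ⟨⟨-312,-611,-144⟩,⟨-171,-72,676⟩,⟨604,-336,117⟩⟩ (189,[(1,11888),(3,351624),(0,611)]) (21,[(1,14708),(3,1785),(0,8)]) (9,[(1,2077),(3,16188),(0,16)]))) (.node ⟨-260,-651,0⟩ (.leaf false ⟨⟨-260,-651,0⟩,⟨0,0,-701⟩,⟨651,-260,0⟩⟩ (1,[(0,1)]) (1,[(1,701)]) (651,[(3,491401),(0,260)])) (.node ⟨604,324,147⟩ (.leaf false ⟨⟨108,109,-684⟩,⟨339,-612,-44⟩,⟨604,324,147⟩⟩ (65,[(2,44460),(1,27),(3,10492)]) (260,[(2,11440),(1,339),(3,379809)]) (1,[(0,1)])) (.leaf false ⟨⟨-660,-75,-224⟩,⟨24,640,-285⟩,⟨235,-276,-600⟩⟩ (1365,[(1,1367),(3,318372),(0,2080)]) (3185,[(1,14639),(3,5490889),(0,6175)]) (2548,[(1,26463),(3,14561061),(0,10400)])))))) (.node ⟨0,1,0⟩ (.node ⟨0,0,1⟩ (.node ⟨189,64,672⟩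 (.node ⟨64,672,-189⟩ (.leaf false ⟨⟨-693,84,64⟩,⟨64,672,-189⟩,⟨84,181,672⟩⟩ (8,[(2,701),(4,5608),(0,1)]) (1,[(0,1)]) (7360,[(4,919011),(0,1248),(1,7711)])) (.leaf false ⟨⟨-684,109,108⟩,⟨-44,-612,339⟩,⟨147,324,604⟩⟩ (7,[(4,4532),(3,3451),(0,4)]) (7728,[(4,231449),(1,1869),(0,7216)]) (168,[(4,3843),(3,44768),(1,151)]))) (.leaf false ⟨⟨-684,-152,-21⟩,⟨-144,669,-152⟩,⟨-53,144,684⟩⟩ (21,[(1,50631),(0,76),(2,1672)]) (21,[(1,7560),(0,16),(2,15073)]) (189,[(1,164892),(0,53),(2,30608)]))) (.node ⟨0,-260,-651⟩ (.leaf false ⟨⟨-701,0,0⟩,⟨0,-260,-651⟩,⟨0,651,-260⟩⟩ (1,[(3,701)]) (1,[(0,1)]) (651,[(0,260),(2,491401)])) (.node ⟨147,604,324⟩ (.leaf false ⟨⟨-684,108,109⟩,⟨-44,339,-612⟩,⟨147,604,324⟩⟩ (65,[(2,10492),(4,44460),(1,27)]) (260,[(2,379809),(4,11440),(1,339)]) (1,[(0,1)])) (.leaf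 false ⟨⟨-693,-96,-44⟩,⟨-96,451,528⟩,⟨-44,528,-459⟩⟩ (91,[(2,491921),(0,429),(1,963)]) (12740,[(2,17546577),(0,8320),(1,41427)]) (9555,[(2,20416353),(0,2860),(1,26048)]))))) (.node ⟨0,0,1⟩ (.node ⟨0,-651,-260⟩ (.leaf false ⟨⟨-701,0,0⟩,⟨0,-651,-260⟩,⟨0,-260,651⟩⟩ (1,[(3,701)]) (1,[(0,1)]) (651,[(1,491401),(0,260)])) (.node ⟨147,324,604⟩ (.leaf false ⟨⟨-684,109,108⟩,⟨-44,-612,339⟩,⟨147,324,604⟩⟩ (65,[(1,27),(4,44460),(3,10492)]) (260,[(1,339),(4,11440),(3,379809)]) (1,[(0,1)])) (.leaf false ⟨⟨-693,-44,-96⟩,⟨-96,528,451⟩,⟨-44,-459,528⟩⟩ (91,[(1,963),(0,429),(3,491921)]) (12740,[(1,41427),(0,8320),(3,17546577)]) (9555,[(1,26048),(0,2860),(3,20416353)])))) (.leaf false ⟨⟨-701,0,0⟩,⟨0,-701,0⟩,⟨0,0,-701⟩⟩ (1,[(2,701)]) (1,[(1,701)]) (1,[(0,701)]))))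
theorem pf701_ok : pf701.check (ok 701 6 ⟨5, 5, 5⟩) (fun _ r => r) [] = true := by decide +kernel

def pf703 : T := .node ⟨1,0,0⟩ (.node ⟨0,1,0⟩ (.node ⟨0,0,1⟩ (.leaf false ⟨⟨0,0,703⟩,⟨0,703,0⟩,⟨703,0,0⟩⟩ (1,[(0,703)]) (1,[(1,703)]) (1,[(2,703)])) (.node ⟨-222,37,-666⟩ (.node ⟨37,666,222⟩ (.leaf false ⟨⟨-222,37,-666⟩,⟨6,702,37⟩,⟨667,6,-222⟩⟩ (1,[(1,1)]) (4033,[(2,391571),(0,4218),(1,594)]) (37,[(2,4218),(4,26011),(1,6)])) (.leaf false ⟨⟨-222,37,-666⟩,⟨414,558,-107⟩,⟨523,-426,-198⟩⟩ (1,[(1,1)]) (222,[(4,95867),(3,195138),(0,107)]) (37,[(4,20572),(3,6216),(0,33)]))) (.leaf false ⟨⟨42,699,-62⟩,⟨262,42,651⟩,⟨651,-62,-258⟩⟩ (37,[(1,6956),(0,7),(2,26122)]) (111,[(1,14985),(0,131),(2,9509)]) (74,[(1,163614),(0,217),(2,3441)])))) (.node ⟨0,0,1⟩ (.node ⟨-222,-666,37⟩ (.node ⟨37,222,666⟩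 (.leaf false ⟨⟨-222,-666,37⟩,⟨6,37,702⟩,⟨667,-222,6⟩⟩ (1,[(1,1)]) (12210,[(4,391571),(1,3546),(0,12673)]) (37,[(4,26011),(3,4218),(1,6)])) (.leaf false ⟨⟨-222,-666,37⟩,⟨414,-107,558⟩,⟨523,-198,-426⟩⟩ (1,[(1,1)]) (222,[(2,195138),(4,95867),(0,107)]) (37,[(2,6216),(4,20572),(0,33)]))) (.leaf false ⟨⟨42,-62,699⟩,⟨262,651,42⟩,⟨651,-258,-62⟩⟩ (37,[(1,26122),(0,7),(2,6956)]) (111,[(1,9509),(0,131),(2,14985)]) (74,[(1,3441),(0,217),(2,163614)]))) (.node ⟨0,228,-665⟩ (.leaf false ⟨⟨0,-665,-228⟩,⟨0,228,-665⟩,⟨703,0,0⟩⟩ (35,[(0,12),(2,26011)]) (1,[(0,1)]) (1,[(3,703)])) (.leaf false ⟨⟨0,-665,228⟩,⟨0,-228,-665⟩,⟨703,0,0⟩⟩ (12,[(1,20539),(0,35)]) (1,[(1,1330),(0,1)]) (1,[(3,703)]))))) (.node ⟨0,1,0⟩ (.node ⟨0,0,1⟩ (.node ⟨-666,-222,37⟩ (.node ⟨222,37,666⟩ (.leaf false ⟨⟨-666,-222,37⟩,⟨-222,667,6⟩,⟨37,6,702⟩⟩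 (1,[(1,1)]) (37,[(1,6),(4,4218),(3,26011)]) (4033,[(1,594),(4,391571),(0,4218)])) (.leaf false ⟨⟨-684,-152,57⟩,⟨-152,513,-456⟩,⟨-57,456,532⟩⟩ (37,[(2,703),(1,38),(3,2812)]) (111,[(0,76),(3,59755)]) (74,[(2,52022),(0,19),(3,34447)]))) (.leaf false ⟨⟨-258,651,-62⟩,⟨-62,42,699⟩,⟨651,262,42⟩⟩ (74,[(1,3441),(3,163614),(0,217)]) (37,[(1,26122),(3,6956),(0,7)]) (111,[(1,9509),(3,14985),(0,131)]))) (.node ⟨228,0,-665⟩ (.leaf false ⟨⟨-665,0,-228⟩,⟨0,703,0⟩,⟨228,0,-665⟩⟩ (35,[(3,26011),(0,12)]) (1,[(2,703)]) (1,[(0,1)])) (.leaf false ⟨⟨-665,0,228⟩,⟨-228,0,-665⟩,⟨0,703,0⟩⟩ (12,[(1,20539),(0,35)]) (1,[(1,1330),(0,1)]) (1,[(2,703)])))) (.node ⟨0,0,1⟩ (.node ⟨228,-665,0⟩ (.leaf false ⟨⟨-665,-228,0⟩,⟨0,0,703⟩,⟨228,-665,0⟩⟩ (35,[(3,26011),(0,12)]) (1,[(1,703)]) (1,[(0,1)])) (.leaf false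 ⟨⟨-665,228,0⟩,⟨-228,-665,0⟩,⟨0,0,703⟩⟩ (12,[(0,35),(2,20539)]) (1,[(0,1),(2,1330)]) (1,[(1,703)]))) (.node ⟨-162,334,-597⟩ (.node ⟨-642,-222,181⟩ (.node ⟨181,-618,-282⟩ (.leaf false ⟨⟨-642,-251,138⟩,⟨-222,222,-629⟩,⟨181,-618,-282⟩⟩ (1,[(3,43),(1,1),(4,29)]) (167,[(3,38776),(2,111),(5,19092)]) (1,[(0,1)])) (.leaf false ⟨⟨-674,27,198⟩,⟨-162,334,-597⟩,⟨-117,-618,-314⟩⟩ (181,[(3,154230),(0,674),(4,411645)]) (181,[(3,153741),(0,162),(4,39662)]) (181,[(3,89828),(0,117),(4,184164)]))) (.leaf false ⟨⟨-693,-98,-66⟩,⟨6,363,-602⟩,⟨118,-594,-357⟩⟩ (181,[(4,167805),(3,32390),(0,66)]) (181,[(4,385398),(3,67941),(0,602)]) (181,[(4,207836),(3,186768),(0,357)]))) (.leaf false ⟨⟨-693,-98,66⟩,⟨-6,-363,-602⟩,⟨118,-594,357⟩⟩ (167,[(1,18231),(3,123669),(0,49)]) (334,[(1,417779),(3,60810),(0,363)])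 (167,[(1,117690),(3,28408),(0,297)])))))
theorem pf703_ok : pf703.check (ok 703 6 ⟨5, 5, 5⟩) (fun _ r => r) [] = true := by decide +kernel

def pf709 : T := .node ⟨1,0,0⟩ (.node ⟨0,1,0⟩ (.node ⟨0,0,1⟩ (.leaf false ⟨⟨0,0,709⟩,⟨0,709,0⟩,⟨709,0,0⟩⟩ (1,[(0,709)]) (1,[(1,709)]) (1,[(2,709)])) (.node ⟨0,660,259⟩ (.leaf false ⟨⟨0,259,-660⟩,⟨0,660,259⟩,⟨709,0,0⟩⟩ (660,[(1,502681),(0,259)]) (1,[(0,1)]) (1,[(3,709)])) (.node ⟨-189,448,-516⟩ (.leaf false ⟨⟨-189,124,-672⟩,⟨448,-504,-219⟩,⟨516,483,-56⟩⟩ (259,[(1,156),(3,19044),(0,259)]) (259,[(1,219),(4,116032),(3,14004)]) (37,[(1,8),(4,19092),(3,23151)])) (.leaf false ⟨⟨0,709,0⟩,⟨259,0,-660⟩,⟨660,0,259⟩⟩ (1,[(3,709)]) (6993,[(1,36912),(0,9583),(3,28655104)]) (16317,[(1,97203),(0,56980),(3,89681020)]))))) (.node ⟨0,0,1⟩ (.node ⟨0,259,660⟩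 (.leaf false ⟨⟨0,-660,259⟩,⟨0,259,660⟩,⟨709,0,0⟩⟩ (660,[(0,259),(2,502681)]) (1,[(0,1)]) (1,[(3,709)])) (.node ⟨-189,-516,448⟩ (.leaf false ⟨⟨-189,-672,124⟩,⟨448,-219,-504⟩,⟨516,-56,483⟩⟩ (259,[(2,19044),(1,156),(0,259)]) (259,[(2,14004),(4,116032),(1,219)]) (37,[(2,23151),(4,19092),(1,8)])) (.leaf false ⟨⟨0,0,709⟩,⟨259,-660,0⟩,⟨660,259,0⟩⟩ (1,[(2,709)]) (6993,[(2,28655104),(0,9583),(1,36912)]) (16317,[(2,89681020),(0,56980),(1,97203)])))) (.node ⟨696,-24,133⟩ (.node ⟨-24,-696,133⟩ (.node ⟨-29,-132,-696⟩ (.leaf false ⟨⟨-29,-132,-696⟩,⟨-24,-696,133⟩,⟨708,-29,-24⟩⟩ (1,[(0,1)]) (1,[(1,1)]) (24,[(3,709),(5,17016),(1,1)])) (.leaf false ⟨⟨-24,-708,-29⟩,⟨133,24,-696⟩,⟨696,-29,132⟩⟩ (1418,[(3,250277),(0,24),(1,1447)]) (1418,[(3,6509329),(0,7666),(1,1405)]) (17016,[(3,347722669),(0,485112),(1,92713)])))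 (.node ⟨592,381,84⟩ (.leaf false ⟨⟨69,48,-704⟩,⟨384,-596,-3⟩,⟨592,381,84⟩⟩ (8,[(3,2573),(1,23),(4,15624)]) (29,[(3,2215),(2,16),(4,16900)]) (1,[(0,1)])) (.leaf false ⟨⟨-675,-84,-200⟩,⟨-20,675,-216⟩,⟨216,-200,-645⟩⟩ (8104432,[(1,7338191),(2,4564431),(0,14904480)]) (2026108,[(1,3800797),(2,2527789),(0,3194396)]) (1519581,[(1,12227369),(2,18724172),(0,21954816)])))) (.leaf false ⟨⟨-587,36,-396⟩,⟨-36,-708,-11⟩,⟨396,-11,-588⟩⟩ (133,[(3,197545),(2,4716),(0,396)]) (133,[(3,2868),(2,94428),(0,11)]) (19,[(3,65988),(2,2225),(0,84)]))))) (.node ⟨0,1,0⟩ (.node ⟨0,0,1⟩ (.node ⟨259,0,660⟩ (.leaf false ⟨⟨-660,0,259⟩,⟨0,709,0⟩,⟨259,0,660⟩⟩ (660,[(3,502681),(0,259)]) (1,[(2,709)]) (1,[(0,1)])) (.node ⟨-516,-189,448⟩ (.leaf false ⟨⟨-696,-123,-56⟩,⟨-99,664,-228⟩,⟨-92,216,669⟩⟩ (57074,[(0,55607),(1,42588),(3,3489621)])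 (259,[(2,6288),(1,99),(3,171976)]) (129,[(2,75997),(0,23),(3,32211)])) (.leaf false ⟨⟨-704,69,48⟩,⟨-3,384,-596⟩,⟨84,592,381⟩⟩ (16317,[(2,40557152),(1,56220),(0,5957)]) (16317,[(2,48843584),(1,66237),(0,33152)]) (48951,[(2,278474635),(1,289596),(0,153328)])))) (.node ⟨-24,696,133⟩ (.node ⟨-696,-24,133⟩ (.node ⟨-132,-29,-696⟩ (.leaf false ⟨⟨-696,-24,133⟩,⟨-132,-29,-696⟩,⟨-29,708,-24⟩⟩ (1,[(1,1)]) (1,[(0,1)]) (24,[(3,709),(1,1),(4,17016)])) (.leaf false ⟨⟨-708,-24,-29⟩,⟨-29,696,132⟩,⟨24,133,-696⟩⟩ (1418,[(3,250277),(1,1447),(0,24)]) (17016,[(3,347722669),(1,92713),(0,485112)]) (1418,[(3,6509329),(1,1405),(0,7666)]))) (.node ⟨381,592,84⟩ (.leaf false ⟨⟨-651,124,-252⟩,⟨84,693,124⟩,⟨268,84,-651⟩⟩ (148,[(3,39900),(5,108159),(0,31)]) (13304,[(3,7953),(2,10205),(0,3576)]) (2,[(3,371),(5,4336),(1,7)]))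 (.leaf false ⟨⟨-708,-36,-11⟩,⟨-11,396,-588⟩,⟨36,-587,-396⟩⟩ (2026108,[(2,4806271),(1,1294083),(0,5826288)]) (868332,[(2,10035881),(1,6620201),(0,11486484)]) (8104432,[(2,30857719),(1,26325943),(0,45381920)])))) (.leaf false ⟨⟨-708,-36,-11⟩,⟨-11,396,-588⟩,⟨36,-587,-396⟩⟩ (133,[(3,94428),(2,2868),(0,11)]) (19,[(3,2225),(2,65988),(0,84)]) (133,[(3,4716),(2,197545),(0,396)])))) (.node ⟨0,0,1⟩ (.node ⟨-24,133,696⟩ (.node ⟨-696,133,-24⟩ (.node ⟨-132,-696,-29⟩ (.leaf false ⟨⟨-696,133,-24⟩,⟨-132,-696,-29⟩,⟨-29,-24,708⟩⟩ (1,[(1,1)]) (1,[(0,1)]) (24,[(3,17016),(1,1),(4,709)])) (.leaf false ⟨⟨-708,-29,-24⟩,⟨-29,132,696⟩,⟨24,-696,133⟩⟩ (1418,[(1,1447),(4,250277),(0,24)]) (17016,[(1,92713),(4,347722669),(0,485112)]) (1418,[(1,1405),(4,6509329),(0,7666)]))) (.node ⟨381,84,592⟩ (.leaf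 false ⟨⟨-651,-252,124⟩,⟨84,124,693⟩,⟨268,-651,84⟩⟩ (148,[(5,108159),(4,39900),(0,31)]) (13304,[(2,10205),(4,7953),(0,3576)]) (2,[(5,4336),(4,371),(1,7)])) (.leaf false ⟨⟨-708,-29,-24⟩,⟨-29,132,696⟩,⟨24,-696,133⟩⟩ (506527,[(2,1379935),(0,1660788),(1,441462)]) (3039162,[(2,3139993),(0,120474),(1,47593)]) (8104432,[(2,97662407),(0,115714400),(1,66990791)])))) (.leaf false ⟨⟨-708,-11,-36⟩,⟨-11,-588,396⟩,⟨36,-396,-587⟩⟩ (133,[(1,2868),(3,94428),(0,11)]) (19,[(1,65988),(3,2225),(0,84)]) (133,[(1,197545),(3,4716),(0,396)]))) (.node ⟨-228,309,-596⟩ (.node ⟨-636,-164,267⟩ (.node ⟨52,-651,-276⟩ (.leaf false ⟨⟨-636,-164,267⟩,⟨-309,228,-596⟩,⟨52,-651,-276⟩⟩ (1,[(1,1)]) (1,[(2,1),(5,81),(4,81)]) (1,[(0,1)])) (.leaf false ⟨⟨-708,-11,36⟩,⟨-36,396,-587⟩,⟨-11,-588,-396⟩⟩ (13,[(3,48384),(0,177),(4,115370)])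 (13,[(3,10115),(0,9),(4,711)]) (52,[(3,23628),(0,11),(4,37737)]))) (.leaf false ⟨⟨-651,-228,-164⟩,⟨52,309,-636⟩,⟨276,-596,-267⟩⟩ (267,[(4,278121),(3,87772),(0,164)]) (89,[(4,130204),(3,7267),(0,212)]) (1,[(4,360),(3,760),(0,1)]))) (.leaf false ⟨⟨-708,-11,-36⟩,⟨-11,-588,396⟩,⟨36,-396,-587⟩⟩ (309,[(1,17680),(3,221280),(0,11)]) (103,[(1,76028),(3,45821),(0,196)]) (103,[(1,139133),(3,26388),(0,132)])))))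
theorem pf709_ok : pf709.check (ok 709 6 ⟨5, 5, 5⟩) (fun _ r => r) [] = true := by decide +kernel

def pf719 : T := .node ⟨1,0,0⟩ (.node ⟨0,1,0⟩ (.node ⟨0,0,1⟩ (.node ⟨-386,171,582⟩ (.node ⟨186,666,-197⟩ (.node ⟨622,-69,354⟩ (.leaf false ⟨⟨-309,262,594⟩,⟨186,666,-197⟩,⟨622,-69,354⟩⟩ (97,[(5,8241),(4,8485),(2,99)]) (1,[(1,1)]) (1,[(0,1)])) (.leaf false ⟨⟨-710,90,-69⟩,⟨69,690,190⟩,⟨90,181,-690⟩⟩ (23,[(3,9033),(5,2330),(0,30)]) (1,[(3,3730),(5,6289),(0,10)]) (69,[(3,16464),(5,118792),(0,181)]))) (.leaf false ⟨⟨-395,-90,594⟩,⟨90,694,165⟩,⟨594,-165,370⟩⟩ (197,[(4,32669),(3,377874),(0,594)]) (197,[(4,48420),(3,246608),(0,165)]) (197,[(4,185838),(3,213915),(0,370)]))) (.leaf false ⟨⟨186,694,-27⟩,⟨379,-78,606⟩,⟨582,-171,-386⟩⟩ (193,[(1,48915),(0,93),(2,149845)]) (386,[(1,454494),(0,379),(2,34701)])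 (193,[(1,94864),(0,291),(2,16758)]))) (.node ⟨-267,46,-666⟩ (.node ⟨379,498,354⟩ (.node ⟨-357,514,-354⟩ (.node ⟨474,-42,-539⟩ (.leaf false ⟨⟨-357,514,-354⟩,⟨406,501,318⟩,⟨474,-42,-539⟩⟩ (1,[(1,1)]) (59,[(6,3867),(2,53),(5,3165)]) (1,[(0,1)])) (.leaf false ⟨⟨-714,66,-53⟩,⟨-21,298,654⟩,⟨82,651,-294⟩⟩ (7,[(4,6300),(6,216),(0,11)]) (21,[(4,66577),(6,70185),(0,149)]) (2,[(4,17297),(6,14858),(0,31)]))) (.leaf false ⟨⟨-251,102,-666⟩,⟨162,699,46⟩,⟨654,-134,-267⟩⟩ (11937,[(4,1103192),(2,12409),(0,888)]) (23874,[(4,24564750),(2,6821),(0,15935)]) (15916,[(4,25143704),(2,36315),(0,56317)]))) (.leaf false ⟨⟨-498,-134,-501⟩,⟨181,606,-342⟩,⟨486,-363,-386⟩⟩ (118,[(4,4529),(3,67354),(0,167)]) (59,[(4,32282),(3,64140),(0,57)]) (177,[(4,159169),(3,31863),(0,193)]))) (.node ⟨606,-350,165⟩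 (.leaf false ⟨⟨69,622,-354⟩,⟨262,309,594⟩,⟨666,-186,-197⟩⟩ (89,[(2,46824),(1,23),(3,56416)]) (267,[(2,15894),(1,262),(3,94555)]) (101,[(2,38212),(0,111),(3,20064)])) (.leaf false ⟨⟨-594,354,-197⟩,⟨262,69,-666⟩,⟨309,622,186⟩⟩ (3643,[(2,346814),(1,368),(0,3733)]) (65574,[(2,127564233),(1,133514),(0,30475)]) (3643,[(2,15617796),(1,26949),(0,10016)]))))) (.node ⟨0,0,1⟩ (.node ⟨-267,-666,46⟩ (.node ⟨379,354,498⟩ (.node ⟨-357,-354,514⟩ (.node ⟨474,-539,-42⟩ (.leaf false ⟨⟨-357,-354,514⟩,⟨406,318,501⟩,⟨474,-539,-42⟩⟩ (1,[(1,1)]) (59,[(4,3165),(2,53),(6,3867)]) (1,[(0,1)])) (.leaf false ⟨⟨-714,-53,66⟩,⟨-21,654,298⟩,⟨82,-294,651⟩⟩ (7,[(6,216),(5,6300),(0,11)]) (21,[(6,70185),(5,66577),(0,149)]) (2,[(6,14858),(5,17297),(0,31)]))) (.leaf false ⟨⟨-251,-666,102⟩,⟨162,46,699⟩,⟨654,-267,-134⟩⟩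 (11937,[(3,1103192),(0,888),(2,12409)]) (23874,[(3,24564750),(0,15935),(2,6821)]) (15916,[(3,25143704),(0,56317),(2,36315)]))) (.leaf false ⟨⟨-498,-501,-134⟩,⟨181,-342,606⟩,⟨486,-386,-363⟩⟩ (118,[(2,67354),(4,4529),(0,167)]) (59,[(2,64140),(4,32282),(0,57)]) (177,[(2,31863),(4,159169),(0,193)]))) (.node ⟨606,165,-350⟩ (.leaf false ⟨⟨69,-354,622⟩,⟨262,594,309⟩,⟨666,-197,-186⟩⟩ (89,[(2,56416),(1,23),(3,46824)]) (267,[(2,94555),(1,262),(3,15894)]) (101,[(2,20064),(0,111),(3,38212)])) (.leaf false ⟨⟨-594,-197,354⟩,⟨262,-666,69⟩,⟨309,186,622⟩⟩ (3643,[(1,368),(3,346814),(0,3733)]) (65574,[(1,133514),(3,127564233),(0,30475)]) (3643,[(1,26949),(3,15617796),(0,10016)])))) (.node ⟨690,-69,190⟩ (.node ⟨-242,-651,-186⟩ (.node ⟨186,126,-683⟩ (.leaf false ⟨⟨-242,-651,-186⟩,⟨186,126,-683⟩,⟨651,-278,126⟩⟩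 (1,[(1,1)]) (1,[(0,1)]) (95,[(5,18375),(2,63),(4,22063)])) (.leaf false ⟨⟨-594,-405,10⟩,⟨235,-330,594⟩,⟨330,-494,-405⟩⟩ (14,[(3,30595),(5,54),(0,45)]) (21,[(3,25091),(5,15165),(0,55)]) (63,[(3,194216),(5,66732),(0,247)]))) (.leaf false ⟨⟨27,-606,-386⟩,⟨186,379,-582⟩,⟨694,-78,171⟩⟩ (242,[(2,98434),(0,27),(3,164229)]) (121,[(2,87720),(0,93),(3,14684)]) (121,[(2,43851),(0,347),(3,235335)]))) (.leaf false ⟨⟨-651,82,-294⟩,⟨-66,-714,-53⟩,⟨298,21,-654⟩⟩ (95,[(3,39585),(2,2353),(0,147)]) (190,[(3,24030),(2,139317),(0,53)]) (95,[(3,253940),(2,20568),(0,327)]))))) (.node ⟨0,1,0⟩ (.node ⟨0,0,1⟩ (.node ⟨-666,-267,46⟩ (.node ⟨354,379,498⟩ (.node ⟨-354,-357,514⟩ (.node ⟨-539,474,-42⟩ (.leaf false ⟨⟨-539,474,-42⟩,⟨-354,-357,514⟩,⟨318,406,501⟩⟩ (1,[(0,1)]) (1,[(1,1)]) (59,[(4,3165),(5,3867),(2,53)]))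 (.leaf false ⟨⟨-714,-53,66⟩,⟨-21,654,298⟩,⟨82,-294,651⟩⟩ (7,[(6,10927),(5,4843),(0,11)]) (21,[(6,80752),(5,84360),(0,149)]) (2,[(6,16545),(5,14106),(0,31)]))) (.leaf false ⟨⟨-714,-21,82⟩,⟨-53,654,-294⟩,⟨66,298,651⟩⟩ (3979,[(3,2532272),(2,6874),(0,4907)]) (47748,[(3,59173224),(2,83479),(0,149905)]) (23874,[(3,30406318),(2,13655),(0,30141)]))) (.leaf false ⟨⟨-654,-267,-134⟩,⟨-251,666,-102⟩,⟨-162,46,699⟩⟩ (59,[(2,46376),(0,109),(3,25558)]) (354,[(2,88890),(0,251),(3,330893)]) (59,[(2,54687),(0,27),(3,12947)]))) (.node ⟨165,606,-350⟩ (.leaf false ⟨⟨-654,294,-53⟩,⟨-21,82,714⟩,⟨298,651,-66⟩⟩ (101,[(2,11797),(4,74139),(0,49)]) (267,[(2,194410),(4,60219),(1,82)]) (89,[(2,4108),(4,118000),(1,217)])) (.leaf false ⟨⟨-714,-53,66⟩,⟨-21,654,298⟩,⟨82,-294,651⟩⟩ (32787,[(4,29298756),(1,10723),(0,7592)])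 (10929,[(4,42667302),(1,68248),(0,18275)]) (21858,[(4,54128061),(1,97202),(0,53431)])))) (.node ⟨-69,690,190⟩ (.node ⟨-651,-242,-186⟩ (.node ⟨126,186,-683⟩ (.leaf false ⟨⟨-710,-69,-90⟩,⟨-90,690,181⟩,⟨69,190,-690⟩⟩ (31,[(1,15),(5,12245),(4,1491)]) (1,[(3,9),(5,21),(2,1)]) (42,[(3,13271),(4,3702),(0,23)])) (.leaf false ⟨⟨-710,-90,69⟩,⟨-90,181,-690⟩,⟨-69,690,190⟩⟩ (63,[(3,238118),(0,355),(4,60360)]) (7,[(3,8245),(0,5),(4,2197)]) (42,[(3,7729),(0,23),(4,33258)]))) (.leaf false ⟨⟨-710,90,-69⟩,⟨69,690,190⟩,⟨90,181,-690⟩⟩ (121,[(2,16719),(4,115205),(0,45)]) (121,[(2,41180),(4,216246),(0,345)]) (242,[(2,200646),(4,96051),(0,181)]))) (.leaf false ⟨⟨-714,-66,-53⟩,⟨21,298,-654⟩,⟨82,-651,-294⟩⟩ (190,[(3,139317),(2,24030),(0,53)]) (95,[(3,20568),(2,253940),(0,327)]) (95,[(3,2353),(2,39585),(0,147)]))))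 (.node ⟨0,0,1⟩ (.node ⟨-69,190,690⟩ (.node ⟨-651,-186,-242⟩ (.node ⟨126,-683,186⟩ (.leaf false ⟨⟨-710,-90,-69⟩,⟨-90,181,690⟩,⟨69,-690,190⟩⟩ (31,[(3,1491),(5,12245),(1,15)]) (1,[(2,1),(5,21),(4,9)]) (42,[(3,3702),(4,13271),(0,23)])) (.leaf false ⟨⟨-710,69,-90⟩,⟨-90,-690,181⟩,⟨-69,190,690⟩⟩ (63,[(3,60360),(0,355),(4,238118)]) (7,[(3,2197),(0,5),(4,8245)]) (42,[(3,33258),(0,23),(4,7729)]))) (.leaf false ⟨⟨-710,-69,90⟩,⟨69,190,690⟩,⟨90,-690,181⟩⟩ (121,[(4,115205),(3,16719),(0,45)]) (121,[(4,216246),(3,41180),(0,345)]) (242,[(4,96051),(3,200646),(0,181)]))) (.leaf false ⟨⟨-714,-53,-66⟩,⟨21,-654,298⟩,⟨82,-294,-651⟩⟩ (190,[(1,24030),(3,139317),(0,53)]) (95,[(1,253940),(3,20568),(0,327)]) (95,[(1,39585),(3,2353),(0,147)]))) (.leaf false ⟨⟨-719,0,0⟩,⟨0,-719,0⟩,⟨0,0,-719⟩⟩ (1,[(2,719)])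 (1,[(1,719)]) (1,[(0,719)]))))
theorem pf719_ok : pf719.check (ok 719 6 ⟨5, 5, 5⟩) (fun _ r => r) [] = true := by decide +kernel

def pf727 : T := .node ⟨1,0,0⟩ (.node ⟨0,1,0⟩ (.node ⟨0,0,1⟩ (.leaf false ⟨⟨0,0,727⟩,⟨0,727,0⟩,⟨727,0,0⟩⟩ (1,[(0,727)]) (1,[(1,727)]) (1,[(2,727)])) (.node ⟨-114,717,-38⟩ (.node ⟨-38,-114,-717⟩ (.leaf false ⟨⟨-114,717,-38⟩,⟨3,-38,-726⟩,⟨718,114,-3⟩⟩ (1,[(1,1)]) (239,[(4,9913),(3,18506),(0,242)]) (38,[(4,27626),(3,2181),(1,3)])) (.leaf false ⟨⟨-93,682,-234⟩,⟨66,243,682⟩,⟨718,66,-93⟩⟩ (717,[(2,141862),(4,11067),(1,682)]) (6707,[(2,4380364),(0,12504),(1,285)]) (19,[(2,9654),(4,13224),(0,11)]))) (.leaf false ⟨⟨3,726,-38⟩,⟨114,-38,-717⟩,⟨718,3,114⟩⟩ (38,[(1,1482),(0,1),(2,28305)]) (1,[(1,755),(0,1),(2,679)]) (57,[(1,7144),(0,359),(2,257574)])))) (.node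 ⟨0,0,1⟩ (.node ⟨-114,-38,717⟩ (.node ⟨-38,-717,-114⟩ (.leaf false ⟨⟨-114,-38,717⟩,⟨3,-726,-38⟩,⟨718,-3,114⟩⟩ (1,[(1,1)]) (239,[(2,18506),(4,9913),(0,242)]) (38,[(2,2181),(4,27626),(1,3)])) (.leaf false ⟨⟨-93,-234,682⟩,⟨66,682,243⟩,⟨718,-93,66⟩⟩ (717,[(4,11067),(3,141862),(1,682)]) (6707,[(3,4380364),(1,285),(0,12504)]) (19,[(4,13224),(3,9654),(0,11)]))) (.leaf false ⟨⟨3,-38,726⟩,⟨114,-717,-38⟩,⟨718,114,3⟩⟩ (38,[(1,28305),(0,1),(2,1482)]) (1,[(1,679),(0,1),(2,755)]) (57,[(1,257574),(0,359),(2,7144)]))) (.node ⟨-189,-678,-182⟩ (.node ⟨574,378,-237⟩ (.node ⟨-222,-93,-686⟩ (.leaf false ⟨⟨-222,-93,-686⟩,⟨387,-614,-42⟩,⟨574,378,-237⟩⟩ (1,[(0,1)]) (13,[(5,5598),(4,5948),(2,3)]) (1,[(1,1)])) (.leaf false ⟨⟨-102,-605,-390⟩,⟨205,-402,570⟩,⟨690,30,-227⟩⟩ (44313,[(3,20042632),(0,15063),(2,41608)])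 (44313,[(3,17326860),(0,71656),(2,36103)]) (14771,[(3,37416137),(0,51350),(2,6390)]))) (.leaf false ⟨⟨-578,-381,-222⟩,⟨282,-38,-669⟩,⟨339,-618,178⟩⟩ (126,[(2,58071),(4,70),(0,127)]) (189,[(2,130944),(4,64204),(0,19)]) (63,[(2,13197),(4,80479),(0,103)]))) (.leaf false ⟨⟨30,70,-723⟩,⟨502,-525,-30⟩,⟨525,498,70⟩⟩ (63,[(1,47369),(0,10),(2,2370)]) (189,[(1,97034),(0,502),(2,439581)]) (9,[(1,3920),(0,25),(2,12468)]))))) (.node ⟨0,1,0⟩ (.node ⟨0,0,1⟩ (.node ⟨-38,717,-114⟩ (.node ⟨-717,-114,-38⟩ (.leaf false ⟨⟨-726,-38,3⟩,⟨-38,717,-114⟩,⟨-3,114,718⟩⟩ (239,[(2,9913),(0,242),(3,18506)]) (1,[(1,1)]) (38,[(2,27626),(1,3),(3,2181)])) (.leaf false ⟨⟨-234,682,-93⟩,⟨-93,66,718⟩,⟨682,243,66⟩⟩ (717,[(2,11067),(4,141862),(1,682)]) (19,[(2,13224),(4,9654),(0,11)]) (6707,[(4,4380364),(1,285),(0,12504)])))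 (.leaf false ⟨⟨-723,-30,70⟩,⟨30,502,525⟩,⟨70,-525,498⟩⟩ (57,[(3,42541),(2,23385),(0,35)]) (38,[(3,5510),(2,144551),(0,175)]) (19,[(3,1824),(2,49536),(0,83)]))) (.node ⟨-702,-2,189⟩ (.node ⟨-182,-189,-678⟩ (.leaf false ⟨⟨-702,-2,189⟩,⟨-182,-189,-678⟩,⟨-51,702,-182⟩⟩ (1,[(1,1)]) (1,[(0,1)]) (234,[(2,45801),(1,17),(3,164302)])) (.leaf false ⟨⟨-723,30,70⟩,⟨-30,502,-525⟩,⟨70,525,498⟩⟩ (132314,[(2,32855311),(1,142107),(0,22506)]) (9451,[(2,23341062),(1,6931),(0,25176)]) (9451,[(2,14246292),(1,5880),(0,26315)]))) (.node ⟨51,718,102⟩ (.leaf false ⟨⟨-578,102,-429⟩,⟨51,718,102⟩,⟨438,51,-578⟩⟩ (359,[(2,159213),(4,210103),(0,51)]) (1,[(0,1)]) (167978,[(2,78630139),(0,11642),(1,103961)])) (.leaf false ⟨⟨-723,-66,-38⟩,⟨-38,627,-366⟩,⟨66,-362,-627⟩⟩ (51,[(4,35904),(3,10276),(0,19)]) (63,[(4,88038),(3,39257),(1,122)])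 (9027,[(3,30842984),(1,4301),(0,47520)]))))) (.node ⟨0,0,1⟩ (.node ⟨-702,189,-2⟩ (.node ⟨-182,-678,-189⟩ (.leaf false ⟨⟨-702,189,-2⟩,⟨-182,-678,-189⟩,⟨-51,-182,702⟩⟩ (1,[(1,1)]) (1,[(0,1)]) (234,[(2,164302),(1,17),(3,45801)])) (.leaf false ⟨⟨-723,-30,70⟩,⟨30,502,525⟩,⟨70,-525,498⟩⟩ (132314,[(1,149387),(3,66500871),(0,50586)]) (66157,[(1,44940),(3,100200956),(0,184245)]) (66157,[(1,38703),(3,160512876),(0,174728)]))) (.node ⟨51,102,718⟩ (.leaf false ⟨⟨-578,-429,102⟩,⟨51,102,718⟩,⟨438,-578,51⟩⟩ (359,[(4,210103),(3,159213),(0,51)]) (1,[(0,1)]) (167978,[(3,78630139),(1,103961),(0,11642)])) (.leaf false ⟨⟨-723,-38,-66⟩,⟨-38,-366,627⟩,⟨66,-627,-362⟩⟩ (51,[(2,10276),(4,35904),(0,19)]) (63,[(2,39257),(4,88038),(1,122)]) (9027,[(2,30842984),(0,47520),(1,4301)])))) (.node ⟨-227,390,-570⟩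 (.node ⟨-506,-462,243⟩ (.node ⟨243,-462,-506⟩ (.leaf false ⟨⟨-506,-483,198⟩,⟨-462,286,-483⟩,⟨243,-462,-506⟩⟩ (1,[(3,45),(1,1),(4,21)]) (15,[(3,975),(2,11),(5,4433)]) (1,[(0,1)])) (.leaf false ⟨⟨-690,-102,205⟩,⟨-227,390,-570⟩,⟨-30,-605,-402⟩⟩ (81,[(3,99775),(0,230),(4,114522)]) (243,[(3,253372),(0,227),(4,10104)]) (81,[(3,37622),(0,10),(4,53625)]))) (.leaf false ⟨⟨-723,-66,-38⟩,⟨-38,627,-366⟩,⟨66,-362,-627⟩⟩ (243,[(4,194917),(3,33594),(0,38)]) (81,[(4,64810),(3,5577),(0,122)]) (81,[(4,100408),(3,125880),(0,209)]))) (.leaf false ⟨⟨-690,-227,30⟩,⟨102,-390,-605⟩,⟨205,-570,402⟩⟩ (390,[(1,117690),(3,320629),(0,227)]) (1,[(1,1175),(3,125),(0,1)]) (13,[(1,5604),(3,1648),(0,19)])))))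
theorem pf727_ok : pf727.check (ok 727 6 ⟨5, 5, 5⟩) (fun _ r => r) [] = true := by decide +kernel

def pf733 : T := .node ⟨1,0,0⟩ (.node ⟨0,1,0⟩ (.node ⟨0,0,1⟩ (.leaf false ⟨⟨0,0,733⟩,⟨0,733,0⟩,⟨733,0,0⟩⟩ (1,[(0,733)]) (1,[(1,733)]) (1,[(2,733)])) (.node ⟨-120,720,67⟩ (.node ⟨715,108,120⟩ (.leaf false ⟨⟨-120,720,67⟩,⟨108,85,-720⟩,⟨715,108,120⟩⟩ (1,[(1,1)]) (144,[(2,104819),(4,17592),(1,17)]) (1,[(0,1)])) (.leaf false ⟨⟨-717,76,-132⟩,⟨76,-372,-627⟩,⟨132,627,-356⟩⟩ (19791,[(4,4409728),(1,5844),(0,25033)]) (6597,[(4,26145377),(1,1923),(0,35543)]) (26388,[(4,79132481),(1,37896),(0,99443)]))) (.node ⟨0,-725,-108⟩ (.leaf false ⟨⟨0,-725,-108⟩,⟨0,108,-725⟩,⟨733,0,0⟩⟩ (1,[(0,1)]) (108,[(0,725),(3,537289)]) (1,[(4,733)])) (.leaf false ⟨⟨36,148,-717⟩,⟨333,636,148⟩,⟨652,-333,-36⟩⟩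 (1450,[(2,1089129),(1,435),(0,728)]) (5800,[(2,339011),(1,16095),(0,21072)]) (4350,[(2,892247),(1,23635),(0,21474)]))))) (.node ⟨0,0,1⟩ (.node ⟨-120,67,720⟩ (.node ⟨715,120,108⟩ (.leaf false ⟨⟨-120,67,720⟩,⟨108,-720,85⟩,⟨715,120,108⟩⟩ (1,[(1,1)]) (144,[(4,17592),(3,104819),(1,17)]) (1,[(0,1)])) (.leaf false ⟨⟨-717,-132,76⟩,⟨76,-627,-372⟩,⟨132,-356,627⟩⟩ (19791,[(4,4409728),(0,25033),(1,5844)]) (6597,[(4,26145377),(0,35543),(1,1923)]) (26388,[(4,79132481),(0,99443),(1,37896)]))) (.node ⟨0,-108,-725⟩ (.leaf false ⟨⟨0,-725,108⟩,⟨0,-108,-725⟩,⟨733,0,0⟩⟩ (108,[(2,537289),(0,725)]) (1,[(0,1)]) (1,[(4,733)])) (.leaf false ⟨⟨36,-717,148⟩,⟨333,148,636⟩,⟨652,-36,-333⟩⟩ (1450,[(0,728),(1,435),(3,1089129)]) (5800,[(0,21072),(1,16095),(3,339011)]) (4350,[(0,21474),(1,23635),(3,892247)]))))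 (.node ⟨0,108,-725⟩ (.leaf false ⟨⟨0,-725,-108⟩,⟨0,108,-725⟩,⟨733,0,0⟩⟩ (725,[(0,108),(2,537289)]) (1,[(0,1)]) (1,[(3,733)])) (.leaf false ⟨⟨0,-725,108⟩,⟨0,-108,-725⟩,⟨733,0,0⟩⟩ (108,[(1,513961),(0,725)]) (1,[(1,1450),(0,1)]) (1,[(3,733)]))))) (.node ⟨0,1,0⟩ (.node ⟨0,0,1⟩ (.node ⟨67,720,-120⟩ (.node ⟨120,108,715⟩ (.leaf false ⟨⟨-720,85,108⟩,⟨67,720,-120⟩,⟨120,108,715⟩⟩ (144,[(2,17592),(4,104819),(1,17)]) (1,[(1,1)]) (1,[(0,1)])) (.leaf false ⟨⟨-720,85,-108⟩,⟨-120,-108,715⟩,⟨67,720,120⟩⟩ (108,[(2,513961),(0,715),(1,120)]) (1,[(2,1430),(0,1)]) (1,[(2,240),(1,1)]))) (.node ⟨-108,-725,0⟩ (.leaf false ⟨⟨-725,108,0⟩,⟨-108,-725,0⟩,⟨0,0,733⟩⟩ (108,[(0,725),(3,537289)]) (1,[(0,1)]) (1,[(2,733)])) (.leaf false ⟨⟨-720,-120,67⟩,⟨-108,715,120⟩,⟨85,-108,720⟩⟩ (17400,[(1,9715),(4,12608039),(0,6768)])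 (145,[(1,145),(4,36941),(0,287)]) (725,[(1,4350),(4,101821),(0,4212)])))) (.node ⟨108,0,-725⟩ (.leaf false ⟨⟨-725,0,-108⟩,⟨0,733,0⟩,⟨108,0,-725⟩⟩ (725,[(3,537289),(0,108)]) (1,[(2,733)]) (1,[(0,1)])) (.leaf false ⟨⟨-725,0,108⟩,⟨-108,0,-725⟩,⟨0,733,0⟩⟩ (108,[(1,513961),(0,725)]) (1,[(1,1450),(0,1)]) (1,[(2,733)])))) (.node ⟨0,0,1⟩ (.node ⟨108,-725,0⟩ (.leaf false ⟨⟨-725,-108,0⟩,⟨0,0,733⟩,⟨108,-725,0⟩⟩ (725,[(3,537289),(0,108)]) (1,[(1,733)]) (1,[(0,1)])) (.leaf false ⟨⟨-725,108,0⟩,⟨-108,-725,0⟩,⟨0,0,733⟩⟩ (108,[(0,725),(2,513961)]) (1,[(0,1),(2,1450)]) (1,[(1,733)]))) (.node ⟨-252,396,-563⟩ (.node ⟨-500,-420,333⟩ (.node ⟨108,-525,-500⟩ (.leaf false ⟨⟨-525,292,-420⟩,⟨-500,-420,333⟩,⟨108,-525,-500⟩⟩ (99,[(3,481),(2,73),(5,33579)]) (1,[(1,1)]) (1,[(0,1)])) (.leaf false ⟨⟨-707,-96,168⟩,⟨-192,427,-564⟩,⟨-24,-588,-437⟩⟩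 (108,[(3,335356),(0,707),(4,381543)]) (9,[(3,13076),(0,16),(4,4557)]) (9,[(3,4933),(0,2),(4,6342)]))) (.leaf false ⟨⟨-732,13,-36⟩,⟨13,-564,-468⟩,⟨36,468,-563⟩⟩ (37,[(4,29084),(3,1199),(0,4)]) (37,[(4,25519),(3,42708),(0,52)]) (333,[(4,269512),(3,80616),(0,563)]))) (.leaf false ⟨⟨-732,-36,13⟩,⟨13,-468,-564⟩,⟨36,-563,468⟩⟩ (11,[(1,420),(3,8304),(0,1)]) (11,[(1,13523),(3,3133),(0,13)]) (396,[(1,131641),(3,127620),(0,563)])))))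
theorem pf733_ok : pf733.check (ok 733 6 ⟨5, 5, 5⟩) (fun _ r => r) [] = true := by decide +kernel

def pf739 : T := .node ⟨1,0,0⟩ (.node ⟨0,1,0⟩ (.node ⟨0,0,1⟩ (.leaf false ⟨⟨0,0,739⟩,⟨0,739,0⟩,⟨739,0,0⟩⟩ (1,[(0,739)]) (1,[(1,739)]) (1,[(2,739)])) (.node ⟨705,114,190⟩ (.node ⟨15,714,190⟩ (.node ⟨730,-114,-15⟩ (.leaf false ⟨⟨15,190,-714⟩,⟨114,705,190⟩,⟨730,-114,-15⟩⟩ (47,[(3,33748),(2,1),(4,8816)]) (230,[(2,33),(1,197),(4,17730)]) (1,[(0,1)])) (.leaf false ⟨⟨-726,138,1⟩,⟨54,289,-678⟩,⟨127,666,294⟩⟩ (19,[(3,326),(5,2996),(0,23)]) (114,[(3,81627),(5,217126),(0,289)]) (27265,[(3,8975890),(2,83443),(0,75842)]))) (.leaf false ⟨⟨-54,127,-726⟩,⟨289,-666,-138⟩,⟨678,294,1⟩⟩ (4370,[(1,21),(3,12489962),(0,16719)]) (6555,[(1,2849),(3,743124),(0,7610)]) (8740,[(1,8587),(3,7688916),(0,8541)])))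 (.leaf false ⟨⟨-602,351,-246⟩,⟨111,-282,-674⟩,⟨414,586,-177⟩⟩ (95,[(3,29525),(2,47367),(0,123)]) (95,[(3,248130),(2,11628),(0,337)]) (190,[(3,203445),(2,131518),(0,177)])))) (.node ⟨0,0,1⟩ (.node ⟨705,190,114⟩ (.node ⟨15,190,714⟩ (.node ⟨730,-15,-114⟩ (.leaf false ⟨⟨15,-714,190⟩,⟨114,190,705⟩,⟨730,-15,-114⟩⟩ (47,[(3,8816),(2,1),(4,33748)]) (230,[(3,17730),(1,197),(2,33)]) (1,[(0,1)])) (.leaf false ⟨⟨-726,1,138⟩,⟨54,-678,289⟩,⟨127,294,666⟩⟩ (19,[(5,2996),(4,326),(0,23)]) (114,[(5,217126),(4,81627),(0,289)]) (3325,[(2,3921),(5,8975890),(0,15504)]))) (.leaf false ⟨⟨-54,-726,127⟩,⟨289,-138,-666⟩,⟨678,1,294⟩⟩ (4370,[(2,12489962),(1,21),(0,16719)]) (6555,[(2,743124),(1,2849),(0,7610)]) (8740,[(2,7688916),(1,8587),(0,8541)]))) (.leaf false ⟨⟨-602,-246,351⟩,⟨111,-674,-282⟩,⟨414,-177,586⟩⟩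 (95,[(1,47367),(3,29525),(0,123)]) (95,[(1,11628),(3,248130),(0,337)]) (190,[(1,131518),(3,203445),(0,177)]))) (.node ⟨-162,-719,-54⟩ (.node ⟨-162,54,-719⟩ (.leaf false ⟨⟨-162,-719,-54⟩,⟨6,54,-737⟩,⟨721,-162,-6⟩⟩ (1,[(1,1)]) (719,[(4,123708),(3,972),(0,737)]) (9,[(4,6651),(3,739),(1,1)])) (.leaf false ⟨⟨-111,-566,-462⟩,⟨82,-474,561⟩,⟨726,-33,-134⟩⟩ (719,[(2,301614),(4,11883),(1,566)]) (62613,[(2,11721074),(0,67873),(1,36180)]) (18,[(2,10321),(4,11286),(0,11)]))) (.leaf false ⟨⟨1,-678,-294⟩,⟨138,289,-666⟩,⟨726,-54,127⟩⟩ (162,[(1,47682),(0,1),(2,110555)]) (27,[(1,19224),(0,23),(2,8734)]) (27,[(1,3105),(0,121),(2,88457)]))))) (.node ⟨0,1,0⟩ (.node ⟨0,0,1⟩ (.node ⟨190,114,705⟩ (.node ⟨190,714,15⟩ (.node ⟨-15,-114,730⟩ (.leaf false ⟨⟨-714,190,15⟩,⟨-15,-114,730⟩,⟨190,705,114⟩⟩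 (47,[(5,33748),(4,8816),(2,1)]) (1,[(0,1)]) (230,[(4,17730),(1,197),(2,33)])) (.leaf false ⟨⟨-726,127,54⟩,⟨1,294,-678⟩,⟨138,666,289⟩⟩ (114,[(3,98866),(5,84669),(0,127)]) (19,[(3,22888),(5,716),(0,49)]) (3325,[(3,13767880),(0,18468),(2,957)]))) (.leaf false ⟨⟨-726,127,-54⟩,⟨-138,-666,289⟩,⟨1,294,678⟩⟩ (4370,[(3,12489962),(1,21),(0,16719)]) (6555,[(3,743124),(1,2849),(0,7610)]) (8740,[(3,7688916),(1,8587),(0,8541)]))) (.leaf false ⟨⟨-714,-161,-102⟩,⟨-143,714,-126⟩,⟨-126,102,721⟩⟩ (95,[(1,241995),(0,357),(2,25403)]) (190,[(1,76875),(0,143),(2,151962)]) (95,[(1,112910),(0,63),(2,16872)]))) (.node ⟨-54,-162,-719⟩ (.node ⟨-719,-162,54⟩ (.leaf false ⟨⟨-737,6,54⟩,⟨-54,-162,-719⟩,⟨-6,721,-162⟩⟩ (719,[(2,972),(0,737),(3,123708)]) (1,[(1,1)]) (9,[(2,739),(1,1),(3,6651)])) (.leaf false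 ⟨⟨-462,-111,-566⟩,⟨-134,726,-33⟩,⟨561,82,-474⟩⟩ (719,[(1,566),(4,301614),(3,11883)]) (18,[(4,10321),(3,11286),(0,11)]) (62613,[(1,36180),(4,11721074),(0,67873)]))) (.leaf false ⟨⟨-737,6,-54⟩,⟨-6,721,162⟩,⟨54,162,-719⟩⟩ (27,[(1,2177),(3,19953),(0,1)]) (162,[(1,492155),(3,39906),(0,721)]) (1,[(1,1438),(0,1)])))) (.node ⟨0,0,1⟩ (.node ⟨-54,-719,-162⟩ (.node ⟨-719,54,-162⟩ (.leaf false ⟨⟨-737,54,6⟩,⟨-54,-719,-162⟩,⟨-6,-162,721⟩⟩ (719,[(2,123708),(0,737),(3,972)]) (1,[(1,1)]) (9,[(2,6651),(1,1),(3,739)])) (.leaf false ⟨⟨-462,-566,-111⟩,⟨-134,-33,726⟩,⟨561,-474,82⟩⟩ (719,[(2,11883),(4,301614),(1,566)]) (18,[(2,11286),(4,10321),(0,11)]) (62613,[(4,11721074),(1,36180),(0,67873)]))) (.leaf false ⟨⟨-737,-54,6⟩,⟨-6,162,721⟩,⟨54,-719,162⟩⟩ (27,[(3,19953),(2,2177),(0,1)]) (162,[(3,39906),(2,492155),(0,721)])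 (1,[(2,1438),(0,1)]))) (.node ⟨-314,369,-558⟩ (.node ⟨-399,-494,378⟩ (.node ⟨298,-546,-399⟩ (.leaf false ⟨⟨-546,63,-494⟩,⟨-399,-494,378⟩,⟨298,-546,-399⟩⟩ (41,[(3,16348),(2,7),(5,20188)]) (1,[(1,1)]) (1,[(0,1)])) (.leaf false ⟨⟨-657,-54,334⟩,⟨-314,369,-558⟩,⟨-126,-638,-351⟩⟩ (298,[(3,162611),(0,657),(4,374814)]) (149,[(3,145785),(0,157),(4,30741)]) (149,[(3,77436),(0,63),(4,129460)]))) (.leaf false ⟨⟨-726,-33,-134⟩,⟨82,474,-561⟩,⟨111,-566,-462⟩⟩ (189,[(4,163947),(3,39335),(0,67)]) (126,[(4,64281),(3,32654),(0,187)]) (9,[(4,3390),(3,10528),(0,11)]))) (.leaf false ⟨⟨-726,-134,-33⟩,⟨82,-561,474⟩,⟨111,-462,-566⟩⟩ (369,[(1,86949),(3,309970),(0,134)]) (123,[(1,46044),(3,48632),(0,187)]) (123,[(1,155550),(3,34703),(0,154)])))))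
theorem pf739_ok : pf739.check (ok 739 6 ⟨5, 5, 5⟩) (fun _ r => r) [] = true := by decide +kernel

def pf743 : T := .node ⟨1,0,0⟩ (.node ⟨0,1,0⟩ (.node ⟨0,0,1⟩ (.node ⟨-158,-66,723⟩ (.node ⟨-114,733,42⟩ (.leaf false ⟨⟨-158,-66,723⟩,⟨-114,733,42⟩,⟨717,102,166⟩⟩ (1,[(1,1)]) (1,[(0,1)]) (723,[(4,544619),(3,84702),(1,166)])) (.leaf false ⟨⟨-158,66,723⟩,⟨114,733,-42⟩,⟨717,-102,166⟩⟩ (1,[(3,132),(1,1)]) (1,[(3,1466),(0,1)]) (102,[(3,531241),(1,66),(0,733)]))) (.node ⟨-86,738,3⟩ (.leaf false ⟨⟨-86,738,3⟩,⟨483,54,562⟩,⟨558,67,-486⟩⟩ (1,[(0,1)]) (11,[(2,12689),(4,3891),(1,9)]) (66,[(2,16365),(4,26242),(1,67)])) (.leaf false ⟨⟨42,-114,733⟩,⟨166,717,102⟩,⟨723,-158,-66⟩⟩ (43,[(2,31582),(0,21),(3,10596)]) (79,[(2,68067),(1,83),(3,51165)]) (20568,[(0,170767),(1,1169),(3,122699148)]))))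 (.node ⟨-194,147,-702⟩ (.node ⟨-194,717,18⟩ (.node ⟨702,186,157⟩ (.leaf false ⟨⟨-194,717,18⟩,⟨147,58,-726⟩,⟨702,186,157⟩⟩ (1,[(1,1)]) (147,[(3,66006),(5,32861),(2,58)]) (1,[(0,1)])) (.leaf false ⟨⟨-723,-66,-158⟩,⟨-42,733,-114⟩,⟨166,-102,-717⟩⟩ (5201,[(5,162717),(1,906),(0,5338)]) (109221,[(5,88494272),(1,136285),(0,94932)]) (5201,[(5,19071324),(1,5588),(0,24393)]))) (.leaf false ⟨⟨-158,3,-726⟩,⟨366,642,-77⟩,⟨627,-374,-138⟩⟩ (14055,[(4,20980),(1,14461),(0,2906)]) (702,[(4,271870),(3,439365),(1,77)]) (28110,[(4,15570510),(1,5123),(0,15713)]))) (.leaf false ⟨⟨45,618,-410⟩,⟨318,355,570⟩,⟨670,-210,-243⟩⟩ (194,[(1,111130),(0,45),(2,126507)]) (97,[(1,56328),(0,159),(2,57808)]) (97,[(1,258741),(0,335),(2,28875)])))) (.node ⟨0,0,1⟩ (.node ⟨-194,-702,147⟩ (.node ⟨-194,18,717⟩ (.node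 ⟨702,157,186⟩ (.leaf false ⟨⟨-194,18,717⟩,⟨147,-726,58⟩,⟨702,157,186⟩⟩ (1,[(1,1)]) (147,[(5,32861),(4,66006),(2,58)]) (1,[(0,1)])) (.leaf false ⟨⟨-723,-158,-66⟩,⟨-42,-114,733⟩,⟨166,-717,-102⟩⟩ (5201,[(5,162717),(0,5338),(1,906)]) (109221,[(5,88494272),(0,94932),(1,136285)]) (5201,[(5,19071324),(0,24393),(1,5588)]))) (.leaf false ⟨⟨-158,-726,3⟩,⟨366,-77,642⟩,⟨627,-138,-374⟩⟩ (14055,[(4,20980),(0,2906),(1,14461)]) (702,[(2,439365),(4,271870),(1,77)]) (28110,[(4,15570510),(0,15713),(1,5123)]))) (.leaf false ⟨⟨45,-410,618⟩,⟨318,570,355⟩,⟨670,-243,-210⟩⟩ (194,[(1,126507),(0,45),(2,111130)]) (97,[(1,57808),(0,159),(2,56328)]) (97,[(1,28875),(0,335),(2,258741)]))) (.node ⟨102,166,-717⟩ (.node ⟨102,-717,166⟩ (.node ⟨702,-14,243⟩ (.node ⟨234,243,-662⟩ (.leaf false ⟨⟨67,-702,-234⟩,⟨234,243,-662⟩,⟨702,-14,243⟩⟩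 (102,[(4,34990),(2,67),(5,23565)]) (1,[(0,1)]) (1,[(1,1)])) (.leaf false ⟨⟨-618,-410,45⟩,⟨210,-243,670⟩,⟨355,-570,-318⟩⟩ (326920,[(3,1327741),(1,5379),(0,1458300)]) (3596120,[(3,1725989),(1,2371171),(0,4638580)]) (43153440,[(3,370264391),(1,84455569),(0,349296180)]))) (.leaf false ⟨⟨-630,-282,-275⟩,⟨243,130,-690⟩,⟨310,-675,-18⟩⟩ (15090470,[(2,2316463),(1,6761660),(0,14861773)]) (1010,[(2,731),(5,669990),(0,711)]) (486533,[(2,124956),(5,88409492),(1,486963)]))) (.leaf false ⟨⟨-354,-18,-653⟩,⟨333,634,-198⟩,⟨562,-387,-294⟩⟩ (166,[(4,7842),(3,471189),(0,653)]) (83,[(4,37737),(3,18361),(0,99)]) (83,[(4,61640),(3,137520),(0,147)]))) (.leaf false ⟨⟨-354,-653,-18⟩,⟨333,-198,634⟩,⟨562,-294,-387⟩⟩ (166,[(1,471189),(3,7842),(0,653)]) (83,[(1,18361),(3,37737),(0,99)]) (83,[(1,137520),(3,61640),(0,147)])))))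 (.node ⟨0,1,0⟩ (.node ⟨0,0,1⟩ (.node ⟨-702,-194,147⟩ (.node ⟨18,-194,717⟩ (.node ⟨157,702,186⟩ (.leaf false ⟨⟨-726,147,58⟩,⟨18,-194,717⟩,⟨157,702,186⟩⟩ (147,[(2,58),(5,66006),(4,32861)]) (1,[(1,1)]) (1,[(0,1)])) (.leaf false ⟨⟨-738,67,-54⟩,⟨-86,-558,483⟩,⟨3,486,562⟩⟩ (36407,[(4,134360405),(1,42930),(0,176058)]) (36407,[(4,2086344),(1,30609),(0,23452)]) (109221,[(4,75681980),(1,87676),(0,7965)]))) (.leaf false ⟨⟨-726,-158,3⟩,⟨-138,627,-374⟩,⟨-77,366,642⟩⟩ (14055,[(1,14461),(0,2906),(3,20980)]) (28110,[(1,5123),(0,15713),(3,15570510)]) (702,[(2,439365),(1,77),(3,271870)]))) (.leaf false ⟨⟨-726,58,147⟩,⟨18,717,-194⟩,⟨157,186,702⟩⟩ (97,[(1,18522),(3,90780),(0,29)]) (194,[(1,67763),(3,499842),(0,717)]) (97,[(1,81765),(3,50057),(0,93)]))) (.node ⟨166,102,-717⟩ (.node ⟨-717,102,166⟩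 (.node ⟨-14,702,243⟩ (.node ⟨243,234,-662⟩ (.leaf false ⟨⟨-702,67,-234⟩,⟨-14,702,243⟩,⟨243,234,-662⟩⟩ (102,[(4,34990),(6,23565),(2,67)]) (1,[(1,1)]) (1,[(0,1)])) (.leaf false ⟨⟨-723,-42,166⟩,⟨-158,-114,-717⟩,⟨-66,733,-102⟩⟩ (449515,[(1,702581),(3,3605779),(0,3760175)]) (899030,[(1,387189),(3,4195721),(0,3428460)]) (43153440,[(1,55211167),(3,88648073),(0,69097740)]))) (.leaf false ⟨⟨-738,-3,-86⟩,⟨54,562,-483⟩,⟨67,-486,-558⟩⟩ (171907,[(1,180538),(4,110356743),(0,184170)]) (505,[(4,758080),(2,106),(0,691)]) (10100,[(4,5237280),(2,2823),(0,14863)]))) (.leaf false ⟨⟨-723,-66,-158⟩,⟨-42,733,-114⟩,⟨166,-102,-717⟩⟩ (83,[(4,116652),(3,2580),(0,79)]) (83,[(4,44355),(3,66653),(0,57)]) (166,[(4,486533),(3,56202),(0,717)]))) (.leaf false ⟨⟨-717,-102,166⟩,⟨-158,-66,-723⟩,⟨-114,733,-42⟩⟩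 (166,[(1,486533),(0,717),(2,56202)]) (83,[(1,116652),(0,79),(2,2580)]) (83,[(1,44355),(0,57),(2,66653)])))) (.node ⟨0,0,1⟩ (.node ⟨166,-717,102⟩ (.node ⟨-717,166,102⟩ (.node ⟨-14,243,702⟩ (.node ⟨243,-662,234⟩ (.leaf false ⟨⟨-702,-234,67⟩,⟨-14,243,702⟩,⟨243,-662,234⟩⟩ (102,[(2,67),(6,23565),(5,34990)]) (1,[(1,1)]) (1,[(0,1)])) (.leaf false ⟨⟨-723,166,-42⟩,⟨-158,-717,-114⟩,⟨-66,-102,733⟩⟩ (449515,[(3,3605779),(1,702581),(0,3760175)]) (899030,[(3,4195721),(1,387189),(0,3428460)]) (43153440,[(3,88648073),(1,55211167),(0,69097740)]))) (.leaf false ⟨⟨-738,-86,-3⟩,⟨54,-483,562⟩,⟨67,-558,-486⟩⟩ (171907,[(3,110356743),(1,180538),(0,184170)]) (505,[(3,758080),(0,691),(2,106)]) (10100,[(3,5237280),(0,14863),(2,2823)]))) (.leaf false ⟨⟨-723,-158,-66⟩,⟨-42,-114,733⟩,⟨166,-717,-102⟩⟩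 (83,[(2,2580),(4,116652),(0,79)]) (83,[(2,66653),(4,44355),(0,57)]) (166,[(2,56202),(4,486533),(0,717)]))) (.leaf false ⟨⟨-717,166,-102⟩,⟨-158,-723,-66⟩,⟨-114,-42,733⟩⟩ (166,[(1,56202),(0,717),(2,486533)]) (83,[(1,2580),(0,79),(2,116652)]) (83,[(1,66653),(0,57),(2,44355)]))) (.leaf false ⟨⟨-743,0,0⟩,⟨0,-743,0⟩,⟨0,0,-743⟩⟩ (1,[(2,743)]) (1,[(1,743)]) (1,[(0,743)]))))
theorem pf743_ok : pf743.check (ok 743 6 ⟨5, 5, 5⟩) (fun _ r => r) [] = true := by decide +kernel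

def pf751 : T := .node ⟨1,0,0⟩ (.node ⟨0,1,0⟩ (.node ⟨0,0,1⟩ (.leaf false ⟨⟨0,0,751⟩,⟨0,751,0⟩,⟨751,0,0⟩⟩ (1,[(0,751)]) (1,[(1,751)]) (1,[(2,751)])) (.node ⟨-266,114,-693⟩ (.node ⟨549,346,378⟩ (.node ⟨-302,666,-171⟩ (.leaf false ⟨⟨-302,666,-171⟩,⟨414,27,-626⟩,⟨549,346,378⟩⟩ (1,[(0,1)]) (38,[(3,17551),(5,18126),(2,9)]) (1,[(1,1)])) (.leaf false ⟨⟨-213,94,-714⟩,⟨274,-678,-171⟩,⟨666,309,-158⟩⟩ (840,[(4,118716),(2,919),(0,217)]) (2275,[(4,478752),(2,1368),(0,3269)]) (11700,[(4,26254752),(2,11543),(0,35969)]))) (.leaf false ⟨⟨-549,-50,-510⟩,⟨150,699,-230⟩,⟨490,-270,-501⟩⟩ (63,[(4,12078),(3,26260),(0,85)]) (189,[(4,91485),(3,171901),(0,115)]) (126,[(4,153423),(3,23762),(0,167)]))) (.leaf false ⟨⟨42,474,-581⟩,⟨229,546,462⟩,⟨714,-203,-114⟩⟩ (19,[(1,13118),(0,3),(2,9348)]) (266,[(1,35805),(0,229),(2,171342)])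 (19,[(1,37509),(0,51),(2,1957)])))) (.node ⟨0,0,1⟩ (.node ⟨-266,-693,114⟩ (.node ⟨549,378,346⟩ (.node ⟨-302,-171,666⟩ (.leaf false ⟨⟨-302,-171,666⟩,⟨414,-626,27⟩,⟨549,378,346⟩⟩ (1,[(0,1)]) (38,[(5,18126),(4,17551),(2,9)]) (1,[(1,1)])) (.leaf false ⟨⟨-213,-714,94⟩,⟨274,-171,-678⟩,⟨666,-158,309⟩⟩ (840,[(3,118716),(0,217),(2,919)]) (2275,[(3,478752),(0,3269),(2,1368)]) (11700,[(3,26254752),(0,35969),(2,11543)]))) (.leaf false ⟨⟨-549,-510,-50⟩,⟨150,-230,699⟩,⟨490,-501,-270⟩⟩ (63,[(2,26260),(4,12078),(0,85)]) (189,[(2,171901),(4,91485),(0,115)]) (126,[(2,23762),(4,153423),(0,167)]))) (.leaf false ⟨⟨42,-581,474⟩,⟨229,462,546⟩,⟨714,-114,-203⟩⟩ (19,[(1,9348),(0,3),(2,13118)]) (266,[(1,171342),(0,229),(2,35805)]) (19,[(1,1957),(0,51),(2,37509)]))) (.node ⟨-363,-554,-354⟩ (.node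 ⟨174,309,-662⟩ (.leaf false ⟨⟨-363,-554,-354⟩,⟨174,309,-662⟩,⟨634,-402,-21⟩⟩ (1,[(1,1)]) (1,[(0,1)]) (118,[(4,77353),(3,43558),(1,7)])) (.leaf false ⟨⟨-374,-651,-18⟩,⟨246,-122,-699⟩,⟨603,-354,274⟩⟩ (238067,[(4,9373982),(0,110241),(1,218262)]) (277,[(2,172029),(4,90285),(1,61)]) (103,[(2,49894),(4,82641),(0,118)]))) (.leaf false ⟨⟨18,-651,-374⟩,⟨274,354,-603⟩,⟨699,-122,246⟩⟩ (121,[(1,47378),(0,6),(2,82095)]) (363,[(1,315885),(0,274),(2,23294)]) (121,[(1,52716),(0,233),(2,143844)]))))) (.node ⟨0,1,0⟩ (.node ⟨0,0,1⟩ (.node ⟨-693,-266,114⟩ (.node ⟨378,549,346⟩ (.node ⟨-171,-302,666⟩ (.leaf false ⟨⟨-626,414,27⟩,⟨-171,-302,666⟩,⟨378,549,346⟩⟩ (38,[(2,9),(5,17551),(4,18126)]) (1,[(0,1)]) (1,[(1,1)])) (.leaf false ⟨⟨-714,-213,94⟩,⟨-171,274,-678⟩,⟨-158,666,309⟩⟩ (840,[(3,118716),(2,919),(0,217)])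 (2275,[(3,478752),(2,1368),(0,3269)]) (11700,[(3,26254752),(2,11543),(0,35969)]))) (.leaf false ⟨⟨-702,-266,21⟩,⟨-266,693,-114⟩,⟨-21,114,742⟩⟩ (7,[(2,4645),(0,13),(3,5275)]) (27,[(2,3496),(0,19),(3,29142)]) (18,[(2,13702),(0,1),(3,2601)]))) (.leaf false ⟨⟨-654,202,309⟩,⟨94,699,-258⟩,⟨357,186,634⟩⟩ (133,[(1,52611),(3,156975),(0,101)]) (266,[(1,11058),(3,459403),(0,699)]) (133,[(1,94924),(3,16968),(0,93)]))) (.node ⟨-354,-363,-554⟩ (.node ⟨-662,174,309⟩ (.leaf false ⟨⟨-662,174,309⟩,⟨-354,-363,-554⟩,⟨-21,634,-402⟩⟩ (1,[(0,1)]) (1,[(1,1)]) (118,[(2,43558),(1,7),(3,77353)])) (.leaf false ⟨⟨-738,-59,-126⟩,⟨6,666,-347⟩,⟨139,-342,-654⟩⟩ (103,[(4,103818),(3,1231),(0,42)]) (309,[(4,227860),(3,266172),(0,347)]) (103,[(4,129999),(3,2706),(0,218)]))) (.leaf false ⟨⟨-725,150,126⟩,⟨-90,174,-725⟩,⟨174,715,150⟩⟩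 (121,[(1,12454),(3,105425),(0,50)]) (121,[(1,119857),(3,31422),(0,58)]) (33,[(1,31060),(3,17268),(0,65)])))) (.node ⟨0,0,1⟩ (.node ⟨-354,-554,-363⟩ (.node ⟨-662,309,174⟩ (.leaf false ⟨⟨-662,309,174⟩,⟨-354,-554,-363⟩,⟨-21,-402,634⟩⟩ (1,[(0,1)]) (1,[(1,1)]) (118,[(2,77353),(1,7),(3,43558)])) (.leaf false ⟨⟨-738,-126,-59⟩,⟨6,-347,666⟩,⟨139,-654,-342⟩⟩ (103,[(2,1231),(4,103818),(0,42)]) (309,[(2,266172),(4,227860),(0,347)]) (103,[(2,2706),(4,129999),(0,218)]))) (.leaf false ⟨⟨-725,-90,174⟩,⟨126,-725,150⟩,⟨150,174,715⟩⟩ (121,[(3,108257),(2,43022),(0,58)]) (121,[(3,2454),(2,115425),(0,50)]) (33,[(3,18060),(2,30268),(0,65)]))) (.node ⟨-302,414,-549⟩ (.node ⟨-645,-270,274⟩ (.node ⟨90,-626,-405⟩ (.leaf false ⟨⟨-645,-270,274⟩,⟨-374,315,-570⟩,⟨90,-626,-405⟩⟩ (1,[(1,1)]) (46,[(3,7005),(2,35),(5,6634)])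 (1,[(0,1)])) (.leaf false ⟨⟨-741,-78,94⟩,⟨-122,501,-546⟩,⟨-6,-554,-507⟩⟩ (30,[(3,97215),(0,247),(4,156962)]) (45,[(3,49275),(0,61),(4,15641)]) (15,[(3,8010),(0,1),(4,8936)]))) (.leaf false ⟨⟨-741,-122,-6⟩,⟨-78,501,-554⟩,⟨94,-546,-507⟩⟩ (137,[(4,103452),(3,17524),(0,3)]) (137,[(4,189351),(3,6153),(0,277)]) (274,[(4,301259),(3,286494),(0,507)]))) (.leaf false ⟨⟨-741,-122,6⟩,⟨78,-501,-554⟩,⟨94,-546,507⟩⟩ (207,[(1,32247),(3,171809),(0,61)]) (138,[(1,168135),(3,39670),(0,167)]) (69,[(1,14976),(3,20996),(0,91)])))))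
theorem pf751_ok : pf751.check (ok 751 6 ⟨5, 5, 5⟩) (fun _ r => r) [] = true := by decide +kernel

def pf757 : T := .node ⟨1,0,0⟩ (.node ⟨0,1,0⟩ (.node ⟨0,0,1⟩ (.leaf false ⟨⟨0,0,757⟩,⟨0,757,0⟩,⟨757,0,0⟩⟩ (1,[(0,757)]) (1,[(1,757)]) (1,[(2,757)])) (.node ⟨-333,612,-296⟩ (.node ⟨388,-348,-549⟩ (.node ⟨612,411,172⟩ (.leaf false ⟨⟨-219,532,-492⟩,⟨388,-348,-549⟩,⟨612,411,172⟩⟩ (111,[(3,33004),(4,14376),(2,73)]) (1,[(1,1)]) (1,[(0,1)])) (.leaf false ⟨⟨-708,91,-252⟩,⟨91,-588,-468⟩,⟨252,468,-539⟩⟩ (43,[(5,8112),(4,29806),(0,63)]) (43,[(5,75517),(4,22803),(0,117)]) (172,[(5,373212),(4,302025),(0,539)]))) (.leaf false ⟨⟨-525,532,-120⟩,⟨280,120,-693⟩,⟨468,525,280⟩⟩ (87,[(2,83457),(4,5929),(0,133)]) (29,[(2,25587),(4,12000),(0,10)]) (116,[(2,63595),(4,122188),(0,175)]))) (.leaf false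 ⟨⟨12,37,-756⟩,⟨444,612,37⟩,⟨613,-444,-12⟩⟩ (111,[(1,85100),(0,4),(2,6555)]) (3,[(1,1073),(0,4),(2,4284)]) (333,[(1,185444),(0,613),(2,227304)])))) (.node ⟨0,0,1⟩ (.node ⟨-333,-296,612⟩ (.node ⟨388,-549,-348⟩ (.node ⟨612,172,411⟩ (.leaf false ⟨⟨-219,-492,532⟩,⟨388,-549,-348⟩,⟨612,172,411⟩⟩ (111,[(3,14376),(4,33004),(2,73)]) (1,[(1,1)]) (1,[(0,1)])) (.leaf false ⟨⟨-708,-252,91⟩,⟨91,-468,-588⟩,⟨252,-539,468⟩⟩ (43,[(3,29806),(5,8112),(0,63)]) (43,[(3,22803),(5,75517),(0,117)]) (172,[(3,302025),(5,373212),(0,539)]))) (.leaf false ⟨⟨-525,-120,532⟩,⟨280,-693,120⟩,⟨468,280,525⟩⟩ (87,[(4,5929),(3,83457),(0,133)]) (29,[(4,12000),(3,25587),(0,10)]) (116,[(4,122188),(3,63595),(0,175)]))) (.leaf false ⟨⟨12,-756,37⟩,⟨444,37,612⟩,⟨613,-12,-444⟩⟩ (111,[(1,6555),(0,4),(2,85100)]) (3,[(1,4284),(0,4),(2,1073)])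 (333,[(1,227304),(0,613),(2,185444)]))) (.node ⟨27,-756,28⟩ (.node ⟨597,408,-224⟩ (.node ⟨-192,-116,-723⟩ (.leaf false ⟨⟨-192,-116,-723⟩,⟨424,-627,-12⟩,⟨597,408,-224⟩⟩ (1,[(0,1)]) (56,[(1,3),(5,21953),(4,36336)]) (1,[(1,1)])) (.leaf false ⟨⟨12,-756,37⟩,⟨444,37,612⟩,⟨613,-12,-444⟩⟩ (16,[(3,131),(0,1),(4,12212)]) (16,[(3,16959),(0,37),(4,3700)]) (597,[(3,127756),(1,613),(4,257268)]))) (.leaf false ⟨⟨-588,-468,91⟩,⟨91,-252,-708⟩,⟨468,-539,252⟩⟩ (34,[(2,5642),(4,3291),(0,39)]) (34,[(2,28776),(4,15631),(0,21)]) (408,[(2,17920),(4,512727),(0,539)]))) (.leaf false ⟨⟨-501,208,-528⟩,⟨208,-588,-429⟩,⟨528,429,-332⟩⟩ (7,[(3,57),(2,98336),(0,132)]) (28,[(3,17407),(2,340788),(0,429)]) (7,[(3,5937),(2,59745),(0,83)]))))) (.node ⟨0,1,0⟩ (.node ⟨0,0,1⟩ (.node ⟨-296,612,-333⟩ (.node ⟨-549,-348,388⟩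 (.node ⟨172,411,612⟩ (.leaf false ⟨⟨-549,-348,388⟩,⟨-492,532,-219⟩,⟨172,411,612⟩⟩ (1,[(1,1)]) (111,[(5,33004),(2,73),(4,14376)]) (1,[(0,1)])) (.leaf false ⟨⟨-708,-224,147⟩,⟨-224,267,-672⟩,⟨-147,672,316⟩⟩ (43,[(3,114645),(0,177),(4,63115)]) (43,[(3,5376),(0,56),(4,34497)]) (172,[(3,144316),(0,147),(4,176001)]))) (.leaf false ⟨⟨-756,12,37⟩,⟨-12,613,-444⟩,⟨37,444,612⟩⟩ (29,[(2,1461),(4,22473),(0,1)]) (348,[(2,83332),(4,340713),(0,613)]) (29,[(2,32104),(4,19240),(0,37)]))) (.leaf false ⟨⟨-756,-12,37⟩,⟨12,613,444⟩,⟨37,-444,612⟩⟩ (9,[(3,7100),(2,504),(0,1)]) (3,[(3,1148),(2,4287),(0,4)]) (37,[(3,18759),(2,25188),(0,68)]))) (.node ⟨-756,27,28⟩ (.node ⟨408,597,-224⟩ (.node ⟨-116,-192,-723⟩ (.leaf false ⟨⟨-627,424,-12⟩,⟨-116,-192,-723⟩,⟨408,597,-224⟩⟩ (56,[(5,36336),(4,21953),(1,3)])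 (1,[(0,1)]) (1,[(1,1)])) (.leaf false ⟨⟨-756,12,37⟩,⟨-12,613,-444⟩,⟨37,444,612⟩⟩ (16,[(3,131),(5,12212),(0,1)]) (597,[(3,127756),(5,257268),(1,613)]) (16,[(3,16959),(5,3700),(0,37)]))) (.leaf false ⟨⟨-672,-147,316⟩,⟨-267,-224,-672⟩,⟨-224,708,-147⟩⟩ (17,[(2,900),(0,28),(3,14217)]) (136,[(2,111328),(0,89),(3,22669)]) (51,[(2,13769),(0,28),(3,52824)]))) (.leaf false ⟨⟨-732,-72,-179⟩,⟨19,672,-348⟩,⟨192,-341,-648⟩⟩ (28,[(3,155820),(2,2817),(0,179)]) (7,[(3,65639),(2,7053),(0,87)]) (7,[(3,121128),(2,1987),(0,162)])))) (.node ⟨0,0,1⟩ (.node ⟨27,28,756⟩ (.node ⟨28,-756,27⟩ (.leaf false ⟨⟨-756,-27,28⟩,⟨27,28,756⟩,⟨28,-756,27⟩⟩ (27,[(4,20439),(3,757),(1,1)]) (1,[(1,1)]) (1,[(0,1)])) (.leaf false ⟨⟨-723,-116,-192⟩,⟨-224,408,597⟩,⟨-12,-627,424⟩⟩ (6813,[(3,137356136),(1,4715),(0,180468)])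 (6813,[(3,44169436),(1,7588),(0,61821)]) (20439,[(3,28669861),(1,12196),(0,20520)]))) (.node ⟨192,-732,19⟩ (.leaf false ⟨⟨-648,-179,-348⟩,⟨-341,-72,672⟩,⟨192,-732,19⟩⟩ (28,[(2,125580),(4,13311),(1,179)]) (7,[(2,18312),(4,1901),(1,18)]) (1,[(0,1)])) (.leaf false ⟨⟨-732,192,19⟩,⟨-179,-648,-348⟩,⟨-72,-341,672⟩⟩ (16,[(2,1463),(0,61),(3,41580)]) (27,[(2,125928),(1,179),(3,12484)]) (8,[(2,5433),(0,3),(3,4924)])))) (.node ⟨-357,468,-476⟩ (.node ⟨-683,-264,192⟩ (.node ⟨96,-588,-467⟩ (.leaf false ⟨⟨-683,-264,192⟩,⟨-312,397,-564⟩,⟨96,-588,-467⟩⟩ (1,[(1,1)]) (119,[(3,17612),(2,104),(4,1429)]) (1,[(0,1)])) (.leaf false ⟨⟨-723,-224,-12⟩,⟨-192,597,424⟩,⟨-116,408,-627⟩⟩ (32,[(3,112931),(0,241),(4,148876)]) (1,[(3,510),(0,2),(4,579)]) (24,[(3,28591),(0,29),(4,7260)]))) (.leaf false ⟨⟨-708,91,-252⟩,⟨91,-588,-468⟩,⟨252,468,-539⟩⟩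 (16,[(4,25671),(3,4088),(0,21)]) (16,[(4,25181),(3,19704),(0,39)]) (192,[(4,319753),(3,52440),(0,539)]))) (.leaf false ⟨⟨-708,-252,91⟩,⟨91,-468,-588⟩,⟨252,-539,468⟩⟩ (13,[(1,2149),(3,11703),(0,7)]) (1,[(1,1064),(3,266),(0,1)]) (468,[(1,37540),(3,74487),(0,539)])))))
theorem pf757_ok : pf757.check (ok 757 6 ⟨5, 5, 5⟩) (fun _ r => r) [] = true := by decide +kernel

def pf761 : T := .node ⟨1,0,0⟩ (.node ⟨0,1,0⟩ (.node ⟨0,0,1⟩ (.node ⟨-444,399,472⟩ (.node ⟨399,516,-392⟩ (.node ⟨276,591,-392⟩ (.node ⟨-444,472,399⟩ (.leaf false ⟨⟨-444,472,399⟩,⟨276,591,-392⟩,⟨553,84,516⟩⟩ (1,[(0,1)]) (1,[(1,1)]) (19,[(4,7916),(6,12283),(3,4)])) (.leaf false ⟨⟨-444,399,472⟩,⟨276,-392,591⟩,⟨553,516,84⟩⟩ (1,[(3,1)]) (73,[(1,73),(3,983),(0,983)]) (31536,[(1,71759),(3,392497),(0,387168)]))) (.leaf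 false ⟨⟨-489,60,580⟩,⟨220,720,111⟩,⟨540,-239,480⟩⟩ (608,[(4,80580),(2,439),(0,371)]) (48216,[(1,116876),(4,51550143),(0,130529)]) (2009,[(1,14340),(4,2049209),(0,16800)]))) (.leaf false ⟨⟨-536,-15,540⟩,⟨15,760,36⟩,⟨540,-36,535⟩⟩ (98,[(4,1337),(3,68190),(0,135)]) (98,[(4,5061),(3,79124),(0,9)]) (392,[(4,425145),(3,261948),(0,535)]))) (.leaf false ⟨⟨36,760,15⟩,⟨535,-36,540⟩,⟨540,-15,-536⟩⟩ (37,[(1,1971),(0,3),(2,29317)]) (444,[(1,492280),(0,535),(2,197481)]) (37,[(1,1408),(0,45),(2,17400)]))) (.node ⟨-39,760,0⟩ (.leaf false ⟨⟨-39,760,0⟩,⟨0,0,-761⟩,⟨760,39,0⟩⟩ (1,[(0,1)]) (1,[(1,761)]) (760,[(3,579121),(0,39)])) (.leaf false ⟨⟨0,0,-761⟩,⟨39,760,0⟩,⟨760,-39,0⟩⟩ (1,[(1,761)]) (1,[(0,1),(2,1520)]) (39,[(0,760),(2,576079)])))) (.node ⟨0,0,1⟩ (.node ⟨-39,0,760⟩ (.leaf false ⟨⟨-39,0,760⟩,⟨0,-761,0⟩,⟨760,0,39⟩⟩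 (1,[(0,1)]) (1,[(2,761)]) (760,[(3,579121),(0,39)])) (.leaf false ⟨⟨0,-761,0⟩,⟨39,0,760⟩,⟨760,0,-39⟩⟩ (1,[(2,761)]) (1,[(1,1520),(0,1)]) (39,[(1,576079),(0,760)]))) (.node ⟨-84,-752,-81⟩ (.node ⟨756,84,-23⟩ (.node ⟨-216,-32,-729⟩ (.node ⟨84,-752,81⟩ (.leaf false ⟨⟨-23,-84,-756⟩,⟨84,-752,81⟩,⟨756,81,-32⟩⟩ (156,[(4,109269),(3,17),(1,10)]) (1,[(0,1)]) (28,[(4,275),(2,27),(6,756)])) (.leaf false ⟨⟨-528,-176,-519⟩,⟨384,-633,-176⟩,⟨391,384,-528⟩⟩ (27,[(6,276),(5,134848),(0,173)]) (81,[(6,45888),(5,183625),(0,176)]) (27,[(6,25341),(5,121984),(0,176)]))) (.leaf false ⟨⟨-32,-756,81⟩,⟨81,-84,-752⟩,⟨756,-23,84⟩⟩ (9984,[(3,166779),(0,2465),(2,10142)]) (416,[(3,437491),(0,177),(2,54)]) (13312,[(3,33339435),(0,47537),(2,2430)]))) (.leaf false ⟨⟨-687,-276,-176⟩,⟨204,-41,-732⟩,⟨256,-708,111⟩⟩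 (7,[(2,1761),(4,12579),(0,23)]) (84,[(2,62431),(4,48132),(0,41)]) (7,[(2,580),(4,46396),(0,59)]))) (.leaf false ⟨⟨4,-384,-657⟩,⟨279,612,-356⟩,⟨708,-239,144⟩⟩ (21,[(1,13878),(0,1),(2,8816)]) (28,[(1,17501),(0,93),(2,52800)]) (7,[(1,3771),(0,59),(2,46041)]))))) (.node ⟨0,1,0⟩ (.node ⟨0,0,1⟩ (.node ⟨0,-39,760⟩ (.leaf false ⟨⟨-761,0,0⟩,⟨0,-39,760⟩,⟨0,760,39⟩⟩ (1,[(3,761)]) (1,[(0,1)]) (760,[(0,39),(2,579121)])) (.leaf false ⟨⟨-761,0,0⟩,⟨0,39,760⟩,⟨0,760,-39⟩⟩ (1,[(3,761)]) (1,[(1,1520),(0,1)]) (39,[(1,576079),(0,760)]))) (.node ⟨-756,-23,84⟩ (.node ⟨-81,-84,-752⟩ (.leaf false ⟨⟨-756,-23,84⟩,⟨-81,-84,-752⟩,⟨-32,756,-81⟩⟩ (1,[(1,1)]) (1,[(0,1)]) (189,[(2,15981),(1,8),(3,143068)])) (.leaf false ⟨⟨-756,-23,-84⟩,⟨-32,756,81⟩,⟨81,84,-752⟩⟩ (1,[(2,168),(1,1)]) (81,[(2,565999),(1,84),(0,752)])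 (1,[(2,1504),(0,1)]))) (.node ⟨-239,708,144⟩ (.leaf false ⟨⟨-648,49,-396⟩,⟨4,756,87⟩,⟨399,72,-644⟩⟩ (23,[(2,4992),(4,51948),(1,49)]) (20928,[(4,6609259),(0,21835),(1,15756)]) (23,[(2,8764),(4,45255),(1,72)])) (.leaf false ⟨⟨-756,-32,-81⟩,⟨-23,756,-84⟩,⟨84,-81,-752⟩⟩ (16,[(4,14247),(3,5860),(0,9)]) (1,[(4,779),(3,733),(1,1)]) (9,[(4,10477),(3,32547),(0,47)]))))) (.node ⟨0,0,1⟩ (.node ⟨-756,84,-23⟩ (.node ⟨-81,-752,-84⟩ (.leaf false ⟨⟨-756,84,-23⟩,⟨-81,-752,-84⟩,⟨-32,-81,756⟩⟩ (1,[(1,1)]) (1,[(0,1)]) (189,[(2,143068),(1,8),(3,15981)])) (.leaf false ⟨⟨-756,-84,-23⟩,⟨-32,81,756⟩,⟨81,-752,84⟩⟩ (1,[(1,1),(3,168)]) (81,[(1,84),(3,565999),(0,752)]) (1,[(3,1504),(0,1)]))) (.node ⟨-239,144,708⟩ (.leaf false ⟨⟨-648,-396,49⟩,⟨4,87,756⟩,⟨399,-644,72⟩⟩ (23,[(4,51948),(3,4992),(1,49)])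 (20928,[(4,6609259),(1,15756),(0,21835)]) (23,[(4,45255),(3,8764),(1,72)])) (.leaf false ⟨⟨-756,-87,4⟩,⟨49,-396,648⟩,⟨72,-644,-399⟩⟩ (48,[(2,20724),(4,43219),(0,29)]) (4,[(2,10380),(4,2433),(0,11)]) (36,[(2,99624),(4,35887),(0,161)])))) (.leaf false ⟨⟨-761,0,0⟩,⟨0,-761,0⟩,⟨0,0,-761⟩⟩ (1,[(2,761)]) (1,[(1,761)]) (1,[(0,761)]))))
theorem pf761_ok : pf761.check (ok 761 6 ⟨5, 5, 5⟩) (fun _ r => r) [] = true := by decide +kernel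

def pf769 : T := .node ⟨1,0,0⟩ (.node ⟨0,1,0⟩ (.node ⟨0,0,1⟩ (.leaf false ⟨⟨0,0,769⟩,⟨0,769,0⟩,⟨769,0,0⟩⟩ (1,[(0,769)]) (1,[(1,769)]) (1,[(2,769)])) (.node ⟨0,600,481⟩ (.leaf false ⟨⟨0,481,-600⟩,⟨0,600,481⟩,⟨769,0,0⟩⟩ (600,[(1,591361),(0,481)]) (1,[(0,1)]) (1,[(3,769)])) (.node ⟨-284,-72,-711⟩ (.leaf false ⟨⟨-284,-72,-711⟩,⟨207,724,-156⟩,⟨684,-249,-248⟩⟩ (1,[(0,1)]) (37,[(1,12),(4,7659),(3,33988)]) (481,[(1,248),(4,329004),(3,29031)])) (.leaf false ⟨⟨0,769,0⟩,⟨481,0,-600⟩,⟨600,0,481⟩⟩ (1,[(3,769)]) (136604,[(1,512391),(0,231361),(3,290776608)]) (34151,[(1,72499),(0,72150),(3,38304600)]))))) (.node ⟨0,0,1⟩ (.node ⟨0,481,600⟩ (.leaf false ⟨⟨0,-600,481⟩,⟨0,481,600⟩,⟨769,0,0⟩⟩ (600,[(0,481),(2,591361)]) (1,[(0,1)]) (1,[(3,769)])) (.node ⟨-284,-711,-72⟩ (.leaf false ⟨⟨-284,-711,-72⟩,⟨207,-156,724⟩,⟨684,-248,-249⟩⟩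 (1,[(0,1)]) (37,[(2,33988),(4,7659),(1,12)]) (481,[(2,29031),(4,329004),(1,248)])) (.leaf false ⟨⟨0,0,769⟩,⟨481,-600,0⟩,⟨600,481,0⟩⟩ (1,[(2,769)]) (136604,[(2,290776608),(0,231361),(1,512391)]) (34151,[(2,38304600),(0,72150),(1,72499)])))) (.node ⟨-140,-756,-15⟩ (.node ⟨-140,135,-744⟩ (.leaf false ⟨⟨-140,-756,-15⟩,⟨-135,40,-756⟩,⟨744,-135,-140⟩⟩ (1,[(1,1)]) (62,[(4,450),(3,6025),(0,63)]) (186,[(4,143284),(3,29835),(0,35)])) (.node ⟨625,60,-444⟩ (.leaf false ⟨⟨-60,-744,-185⟩,⟨444,-185,600⟩,⟨625,60,-444⟩⟩ (63,[(3,10725),(5,4900),(2,62)]) (27,[(3,11328),(5,6808),(1,37)]) (1,[(0,1)])) (.leaf false ⟨⟨-761,-108,-24⟩,⟨24,-324,697⟩,⟨108,-689,-324⟩⟩ (5,[(3,4116),(5,1820),(0,9)]) (5,[(3,8503),(5,16995),(0,27)]) (60,[(3,325356),(5,437105),(0,689)])))) (.leaf false ⟨⟨24,31,-768⟩,⟨193,-744,-24⟩,⟨744,192,31⟩⟩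 (35,[(1,26970),(0,6),(2,3451)]) (140,[(1,6255),(0,193),(2,250068)]) (35,[(1,1705),(0,186),(2,133896)]))))) (.node ⟨0,1,0⟩ (.node ⟨0,0,1⟩ (.node ⟨481,0,600⟩ (.leaf false ⟨⟨-600,0,481⟩,⟨0,769,0⟩,⟨481,0,600⟩⟩ (600,[(3,591361),(0,481)]) (1,[(2,769)]) (1,[(0,1)])) (.node ⟨-711,-284,-72⟩ (.leaf false ⟨⟨-711,-284,-72⟩,⟨-248,684,-249⟩,⟨-156,207,724⟩⟩ (1,[(0,1)]) (481,[(2,29031),(1,248),(3,329004)]) (37,[(2,33988),(1,12),(3,7659)])) (.leaf false ⟨⟨-761,24,-108⟩,⟨-24,697,324⟩,⟨108,324,-689⟩⟩ (34151,[(2,31082100),(1,58297),(0,2886)]) (136604,[(2,321550992),(1,502383),(0,335257)]) (34151,[(2,3618569),(1,49923),(0,38961)])))) (.node ⟨-756,-140,-15⟩ (.node ⟨135,-140,-744⟩ (.leaf false ⟨⟨-756,-140,-15⟩,⟨-135,744,-140⟩,⟨40,-135,-756⟩⟩ (1,[(1,1)]) (186,[(4,29835),(3,143284),(0,35)]) (62,[(4,6025),(3,450),(0,63)]))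 (.node ⟨60,625,-444⟩ (.leaf false ⟨⟨-744,-60,-185⟩,⟨-185,444,600⟩,⟨60,625,-444⟩⟩ (63,[(3,10725),(2,62),(4,4900)]) (27,[(3,11328),(1,37),(4,6808)]) (1,[(0,1)])) (.leaf false ⟨⟨-761,24,108⟩,⟨-108,-324,-689⟩,⟨-24,697,-324⟩⟩ (60,[(3,331404),(0,761),(4,477065)]) (5,[(3,7441),(0,9),(4,4005)]) (5,[(3,2508),(0,2),(4,4735)])))) (.leaf false ⟨⟨-744,193,-24⟩,⟨31,24,-768⟩,⟨192,744,31⟩⟩ (140,[(1,6255),(3,250068),(0,193)]) (35,[(1,26970),(3,3451),(0,6)]) (35,[(1,1705),(3,133896),(0,186)])))) (.node ⟨0,0,1⟩ (.node ⟨-756,-15,-140⟩ (.node ⟨135,-744,-140⟩ (.leaf false ⟨⟨-756,-15,-140⟩,⟨-135,-140,744⟩,⟨40,-756,-135⟩⟩ (1,[(1,1)]) (186,[(2,143284),(4,29835),(0,35)]) (62,[(2,450),(4,6025),(0,63)])) (.node ⟨60,-444,625⟩ (.leaf false ⟨⟨-744,-185,-60⟩,⟨-185,600,444⟩,⟨60,-444,625⟩⟩ (63,[(3,4900),(2,62),(4,10725)])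 (27,[(3,6808),(1,37),(4,11328)]) (1,[(0,1)])) (.leaf false ⟨⟨-761,84,72⟩,⟨-84,-113,-756⟩,⟨-72,-756,121⟩⟩ (60,[(3,479945),(0,761),(4,332844)]) (5,[(3,595),(0,7),(4,3673)]) (5,[(3,4355),(0,6),(4,6444)])))) (.leaf false ⟨⟨-744,-24,193⟩,⟨31,-768,24⟩,⟨192,31,744⟩⟩ (140,[(3,250068),(2,6255),(0,193)]) (35,[(3,3451),(2,26970),(0,6)]) (35,[(3,133896),(2,1705),(0,186)]))) (.node ⟨-72,121,-756⟩ (.node ⟨-752,39,156⟩ (.leaf false ⟨⟨-752,39,156⟩,⟨-156,4,-753⟩,⟨-39,-768,4⟩⟩ (1,[(0,1)]) (188,[(2,147648),(0,39),(3,769)]) (752,[(2,3076),(0,39),(3,579057)])) (.leaf false ⟨⟨-756,-113,-84⟩,⟨72,84,-761⟩,⟨121,-756,-72⟩⟩ (9,[(1,1),(4,6732),(3,1138)]) (72468,[(1,70130),(3,1865951),(0,13653)]) (13,[(4,2939),(3,9594),(0,6)]))) (.leaf false ⟨⟨-768,-39,4⟩,⟨4,-156,-753⟩,⟨39,-752,156⟩⟩ (121,[(1,29000),(3,95736),(0,39)])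 (121,[(1,209049),(3,10748),(0,156)]) (121,[(1,549636),(3,49425),(0,752)])))))
theorem pf769_ok : pf769.check (ok 769 6 ⟨5, 5, 5⟩) (fun _ r => r) [] = true := by decide +kernel

def pf773 : T := .node ⟨1,0,0⟩ (.node ⟨0,1,0⟩ (.node ⟨0,0,1⟩ (.node ⟨-332,84,693⟩ (.node ⟨-468,588,181⟩ (.node ⟨-84,757,-132⟩ (.leaf false ⟨⟨-332,84,693⟩,⟨-84,757,-132⟩,⟨693,132,316⟩⟩ (1,[(2,1)]) (1,[(0,1)]) (49,[(3,13493),(5,39105),(1,11)])) (.leaf false ⟨⟨-611,72,468⟩,⟨72,-741,208⟩,⟨468,208,579⟩⟩ (214633,[(5,17087509),(1,363780),(0,262152)]) (6415,[(4,1818939),(1,664),(0,9198)]) (44,[(5,4380),(4,155253),(0,193)]))) (.leaf false ⟨⟨-288,264,667⟩,⟨387,-548,384⟩,⟨604,477,72⟩⟩ (66058,[(3,15192144),(1,65007),(0,5465)]) (264232,[(3,66880360),(1,249759),(0,395679)]) (66058,[(3,93550218),(1,35755),(0,110619)])))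 (.leaf false ⟨⟨28,771,48⟩,⟨381,28,-672⟩,⟨672,-48,379⟩⟩ (83,[(1,8835),(0,7),(2,64581)]) (332,[(1,40929),(0,381),(2,41300)]) (83,[(1,147881),(0,168),(2,10128)]))) (.node ⟨-195,748,0⟩ (.leaf false ⟨⟨-195,748,0⟩,⟨0,0,-773⟩,⟨748,195,0⟩⟩ (1,[(0,1)]) (1,[(1,773)]) (748,[(3,597529),(0,195)])) (.leaf false ⟨⟨0,0,-773⟩,⟨195,748,0⟩,⟨748,-195,0⟩⟩ (1,[(1,773)]) (1,[(0,1),(2,1496)]) (195,[(0,748),(2,521479)])))) (.node ⟨0,0,1⟩ (.node ⟨-195,0,748⟩ (.leaf false ⟨⟨-195,0,748⟩,⟨0,-773,0⟩,⟨748,0,195⟩⟩ (1,[(0,1)]) (1,[(2,773)]) (748,[(3,597529),(0,195)])) (.leaf false ⟨⟨0,-773,0⟩,⟨195,0,748⟩,⟨748,0,-195⟩⟩ (1,[(2,773)]) (1,[(1,1496),(0,1)]) (195,[(1,521479),(0,748)]))) (.node ⟨-197,-744,-72⟩ (.node ⟨-197,72,-744⟩ (.node ⟨744,93,-188⟩ (.leaf false ⟨⟨-197,72,-744⟩,⟨72,-764,-93⟩,⟨744,93,-188⟩⟩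 (1,[(1,1)]) (8,[(5,773),(4,6184),(1,1)]) (1,[(0,1)])) (.leaf false ⟨⟨-744,-132,163⟩,⟨27,-656,-408⟩,⟨208,-387,636⟩⟩ (6184,[(5,2758837),(0,9608),(1,1073)]) (6957,[(5,52281082),(0,64680),(1,20159)]) (773,[(5,2700089),(0,3363),(1,189)]))) (.node ⟨-132,-693,316⟩ (.leaf false ⟨⟨-132,-693,316⟩,⟨84,-332,-693⟩,⟨757,-84,132⟩⟩ (1,[(0,1)]) (186,[(3,122922),(5,31975),(2,83)]) (6,[(3,4416),(5,3163),(1,7)])) (.leaf false ⟨⟨-204,-672,-323⟩,⟨483,136,-588⟩,⟨568,-357,384⟩⟩ (10935520,[(1,818377),(2,18151945),(0,8968688)]) (8201640,[(1,37606057),(2,75520465),(0,86594928)]) (546776,[(1,2879745),(2,4685729),(0,5048088)])))) (.leaf false ⟨⟨48,-552,-539⟩,⟨189,532,-528⟩,⟨748,-99,168⟩⟩ (197,[(1,109639),(0,48),(2,144456)]) (197,[(1,117624),(0,189),(2,35812)]) (197,[(1,20760),(0,748),(2,576015)])))))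 (.node ⟨0,1,0⟩ (.node ⟨0,0,1⟩ (.node ⟨0,-195,748⟩ (.leaf false ⟨⟨-773,0,0⟩,⟨0,-195,748⟩,⟨0,748,195⟩⟩ (1,[(3,773)]) (1,[(0,1)]) (748,[(0,195),(2,597529)])) (.leaf false ⟨⟨-773,0,0⟩,⟨0,195,748⟩,⟨0,748,-195⟩⟩ (1,[(3,773)]) (1,[(1,1496),(0,1)]) (195,[(1,521479),(0,748)]))) (.node ⟨-72,-197,-744⟩ (.node ⟨-744,-197,72⟩ (.node ⟨-188,744,93⟩ (.leaf false ⟨⟨-744,-197,72⟩,⟨-188,744,93⟩,⟨-93,72,-764⟩⟩ (1,[(1,1)]) (1,[(0,1)]) (8,[(3,6184),(1,1),(4,773)])) (.leaf false ⟨⟨-771,-48,28⟩,⟨-48,379,-672⟩,⟨28,-672,-381⟩⟩ (55656,[(1,66439),(4,36218915),(0,34680)]) (2319,[(1,5450),(4,17558695),(0,20976)]) (2319,[(1,2876),(4,7733092),(0,11727)]))) (.node ⟨316,-132,-693⟩ (.leaf false ⟨⟨-693,84,-332⟩,⟨132,757,-84⟩,⟨316,-132,-693⟩⟩ (186,[(2,83),(5,122922),(4,31975)]) (6,[(5,4416),(4,3163),(1,7)])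 (1,[(0,1)])) (.leaf false ⟨⟨-771,48,28⟩,⟨28,672,-381⟩,⟨48,379,672⟩⟩ (6561312,[(2,26349743),(0,29410320),(1,8242031)]) (341735,[(2,4044115),(0,4389553),(1,2268607)]) (1366940,[(2,2997835),(0,4794864),(1,2414831)])))) (.leaf false ⟨⟨-771,48,28⟩,⟨28,672,-381⟩,⟨48,379,672⟩⟩ (197,[(1,30196),(3,155343),(0,48)]) (197,[(1,575025),(3,42868),(0,672)]) (197,[(1,149592),(3,17832),(0,379)])))) (.node ⟨0,0,1⟩ (.node ⟨-72,-744,-197⟩ (.node ⟨-744,72,-197⟩ (.node ⟨-188,93,744⟩ (.leaf false ⟨⟨-744,72,-197⟩,⟨-188,93,744⟩,⟨-93,-764,72⟩⟩ (1,[(1,1)]) (1,[(0,1)]) (8,[(3,773),(1,1),(4,6184)])) (.leaf false ⟨⟨-771,28,-48⟩,⟨-48,-672,379⟩,⟨28,-381,-672⟩⟩ (55656,[(3,36218915),(1,66439),(0,34680)]) (2319,[(3,17558695),(1,5450),(0,20976)]) (2319,[(3,7733092),(1,2876),(0,11727)]))) (.node ⟨316,-693,-132⟩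 (.leaf false ⟨⟨-693,-332,84⟩,⟨132,-84,757⟩,⟨316,-693,-132⟩⟩ (186,[(3,31975),(5,122922),(2,83)]) (6,[(3,3163),(5,4416),(1,7)]) (1,[(0,1)])) (.leaf false ⟨⟨-771,28,48⟩,⟨28,-381,672⟩,⟨48,672,379⟩⟩ (6561312,[(2,26349743),(1,8242031),(0,29410320)]) (341735,[(2,4044115),(1,2268607),(0,4389553)]) (1366940,[(2,2997835),(1,2414831),(0,4794864)])))) (.leaf false ⟨⟨-771,28,48⟩,⟨28,-381,672⟩,⟨48,672,379⟩⟩ (197,[(3,155343),(2,30196),(0,48)]) (197,[(3,42868),(2,575025),(0,672)]) (197,[(3,17832),(2,149592),(0,379)]))) (.leaf false ⟨⟨-773,0,0⟩,⟨0,-773,0⟩,⟨0,0,-773⟩⟩ (1,[(2,773)]) (1,[(1,773)]) (1,[(0,773)]))))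
theorem pf773_ok : pf773.check (ok 773 6 ⟨5, 5, 5⟩) (fun _ r => r) [] = true := by decide +kernel

def pf787 : T := .node ⟨1,0,0⟩ (.node ⟨0,1,0⟩ (.node ⟨0,0,1⟩ (.leaf false ⟨⟨0,0,787⟩,⟨0,787,0⟩,⟨787,0,0⟩⟩ (1,[(0,787)]) (1,[(1,787)]) (1,[(2,787)])) (.node ⟨-342,657,-266⟩ (.node ⟨657,-342,-266⟩ (.node ⟨63,-266,-738⟩ (.leaf false ⟨⟨-342,657,-266⟩,⟨63,-266,-738⟩,⟨706,342,-63⟩⟩ (1,[(2,1)]) (1,[(0,1)]) (38,[(1,9),(5,20915),(4,16074)])) (.leaf false ⟨⟨-338,705,-90⟩,⟨495,162,-590⟩,⟨510,310,513⟩⟩ (49581,[(3,6415624),(0,19044),(2,45493)]) (105,[(3,3696),(1,127),(2,92)]) (25536,[(3,26525012),(1,25865),(0,63015)]))) (.leaf false ⟨⟨-630,438,175⟩,⟨-90,175,-762⟩,⟨463,630,90⟩⟩ (57,[(2,9443),(4,12051),(0,73)]) (342,[(2,307154),(4,84195),(0,175)]) (19,[(2,7600),(4,31792),(0,35)]))) (.leaf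 false ⟨⟨22,609,-498⟩,⟨399,-438,-518⟩,⟨678,238,321⟩⟩ (171,[(1,88084),(0,11),(2,111366)]) (6,[(1,4970),(0,7),(2,1971)]) (57,[(1,11761),(0,113),(2,87807)])))) (.node ⟨0,0,1⟩ (.node ⟨-342,-266,657⟩ (.node ⟨657,-266,-342⟩ (.node ⟨63,-738,-266⟩ (.leaf false ⟨⟨-342,-266,657⟩,⟨63,-738,-266⟩,⟨706,-63,342⟩⟩ (1,[(2,1)]) (1,[(0,1)]) (38,[(3,16074),(5,20915),(1,9)])) (.leaf false ⟨⟨-338,-90,705⟩,⟨495,-590,162⟩,⟨510,513,310⟩⟩ (49581,[(4,6415624),(2,45493),(0,19044)]) (105,[(1,127),(4,3696),(2,92)]) (25536,[(1,25865),(4,26525012),(0,63015)]))) (.leaf false ⟨⟨-630,-90,463⟩,⟨175,-762,90⟩,⟨438,175,630⟩⟩ (342,[(4,88731),(3,153938),(0,463)]) (19,[(4,6610),(3,15808),(0,5)]) (19,[(4,31317),(3,5985),(0,35)]))) (.leaf false ⟨⟨22,-498,609⟩,⟨399,-518,-438⟩,⟨678,321,238⟩⟩ (171,[(1,111366),(0,11),(2,88084)])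 (6,[(1,1971),(0,7),(2,4970)]) (57,[(1,87807),(0,113),(2,11761)]))) (.node ⟨54,-783,58⟩ (.node ⟨783,54,58⟩ (.node ⟨54,58,-783⟩ (.leaf false ⟨⟨54,58,-783⟩,⟨58,-783,-54⟩,⟨783,54,58⟩⟩ (1,[(0,1)]) (27,[(3,1574),(1,2),(4,21249)]) (1,[(1,1)])) (.leaf false ⟨⟨-527,-582,-54⟩,⟨342,-366,607⟩,⟨474,-383,-498⟩⟩ (21249,[(3,168440036),(1,431),(0,213624)]) (2361,[(3,11963974),(1,2200),(0,16947)]) (14166,[(3,92937617),(1,16058),(0,108495)]))) (.node ⟨150,-770,63⟩ (.leaf false ⟨⟨-735,-162,-230⟩,⟨150,-770,63⟩,⟨238,-15,-750⟩⟩ (1,[(3,56),(5,1614),(1,3)]) (1,[(0,1)]) (18,[(3,13210),(5,8199),(1,5)])) (.leaf false ⟨⟨-770,-150,-63⟩,⟨15,238,-750⟩,⟨162,-735,-230⟩⟩ (203,[(5,86060),(2,2520),(0,2523)]) (4669,[(5,55711611),(2,562506),(0,573446)]) (4669,[(5,22100508),(2,223405),(0,222720)])))) (.leaf false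 ⟨⟨-527,-54,-582⟩,⟨342,607,-366⟩,⟨474,-498,-383⟩⟩ (29,[(3,431),(2,229419),(0,291)]) (29,[(3,19800),(2,125686),(0,183)]) (58,[(3,48174),(2,328773),(0,383)]))))) (.node ⟨0,1,0⟩ (.node ⟨0,0,1⟩ (.node ⟨-266,657,-342⟩ (.node ⟨-266,-342,657⟩ (.node ⟨-738,63,-266⟩ (.leaf false ⟨⟨-738,63,-266⟩,⟨-266,-342,657⟩,⟨-63,706,342⟩⟩ (1,[(0,1)]) (1,[(1,1)]) (38,[(3,16074),(2,9),(4,20915)])) (.leaf false ⟨⟨-770,-63,150⟩,⟨-15,750,238⟩,⟨162,-230,735⟩⟩ (5509,[(1,812),(5,4838476),(0,1101)]) (25536,[(5,41656324),(2,35749),(0,68811)]) (49581,[(1,14875),(5,62003008),(0,100260)]))) (.leaf false ⟨⟨-770,150,-63⟩,⟨-15,238,750⟩,⟨162,735,-230⟩⟩ (57,[(2,12834),(4,50540),(0,25)]) (171,[(2,206433),(4,34219),(0,119)]) (114,[(2,134745),(4,46702),(0,245)]))) (.leaf false ⟨⟨-770,-63,150⟩,⟨-15,750,238⟩,⟨162,-230,735⟩⟩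 (57,[(3,50540),(2,12834),(0,25)]) (171,[(3,34219),(2,206433),(0,119)]) (114,[(3,46702),(2,134745),(0,245)]))) (.node ⟨-783,54,58⟩ (.node ⟨54,783,58⟩ (.node ⟨58,54,-783⟩ (.leaf false ⟨⟨-783,58,-54⟩,⟨54,783,58⟩,⟨58,54,-783⟩⟩ (27,[(3,1574),(5,21249),(1,2)]) (1,[(1,1)]) (1,[(0,1)])) (.leaf false ⟨⟨-762,-194,-33⟩,⟨-177,618,454⟩,⟨-86,447,-642⟩⟩ (21249,[(3,231053756),(0,293085),(1,14948)]) (14166,[(3,39328751),(0,57321),(1,15134)]) (7083,[(3,16780414),(0,15246),(1,5095)]))) (.node ⟨-770,150,63⟩ (.leaf false ⟨⟨-770,150,63⟩,⟨-162,-735,-230⟩,⟨-15,238,-750⟩⟩ (1,[(0,1)]) (1,[(3,56),(1,3),(4,1614)]) (18,[(3,13210),(1,5),(4,8199)])) (.leaf false ⟨⟨-786,22,-33⟩,⟨22,-303,-726⟩,⟨33,726,-302⟩⟩ (4669,[(2,74928),(4,6770656),(0,71427)]) (667,[(2,79662),(4,7650051),(0,81026)]) (4669,[(2,230461),(4,26127600),(0,234552)]))))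 (.leaf false ⟨⟨-786,22,-33⟩,⟨22,-303,-726⟩,⟨33,726,-302⟩⟩ (58,[(3,71427),(2,3058),(0,33)]) (29,[(3,283591),(2,10815),(0,363)]) (29,[(3,117276),(2,29208),(0,151)])))) (.node ⟨0,0,1⟩ (.node ⟨54,58,783⟩ (.node ⟨58,-783,54⟩ (.leaf false ⟨⟨-783,-54,58⟩,⟨54,58,783⟩,⟨58,-783,54⟩⟩ (27,[(4,21249),(3,1574),(1,2)]) (1,[(1,1)]) (1,[(0,1)])) (.leaf false ⟨⟨-762,-86,-177⟩,⟨-194,447,618⟩,⟨-33,-642,454⟩⟩ (7083,[(3,77522648),(1,5147),(0,97848)]) (7083,[(3,21459916),(1,7720),(0,30879)]) (42498,[(3,68342293),(1,28114),(0,50355)]))) (.node ⟨-705,310,-162⟩ (.leaf false ⟨⟨-770,63,150⟩,⟨-162,-230,-735⟩,⟨-15,-750,238⟩⟩ (141,[(2,46098),(0,154),(3,38857)]) (1,[(2,1614),(1,3),(3,56)]) (18,[(2,8199),(1,5),(3,13210)])) (.leaf false ⟨⟨-786,-33,22⟩,⟨22,-726,-303⟩,⟨33,-302,726⟩⟩ (58,[(2,27115),(4,43806),(1,33)])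 (5763,[(2,37140318),(1,50501),(0,4048)]) (155,[(2,88068),(4,101340),(0,151)])))) (.node ⟨-150,238,-735⟩ (.node ⟨-150,-735,238⟩ (.node ⟨-750,15,238⟩ (.leaf false ⟨⟨-770,15,162⟩,⟨-150,238,-735⟩,⟨-63,-750,-230⟩⟩ (75,[(3,6176),(0,77),(4,30)]) (1,[(2,1)]) (50,[(3,16498),(1,21),(4,22065)])) (.leaf false ⟨⟨-750,-230,-63⟩,⟨15,162,-770⟩,⟨238,-735,-150⟩⟩ (5100,[(5,5759700),(1,1537),(0,2887)]) (3805820,[(2,3813180),(1,377253),(0,914203)]) (2975,[(5,2425000),(1,2878),(0,4753)]))) (.leaf false ⟨⟨-786,22,-33⟩,⟨22,-303,-726⟩,⟨33,726,-302⟩⟩ (238,[(4,192018),(3,19019),(0,33)]) (119,[(4,51832),(3,302862),(0,363)]) (119,[(4,18723),(3,24591),(0,151)]))) (.leaf false ⟨⟨-786,-33,22⟩,⟨22,-726,-303⟩,⟨33,-302,726⟩⟩ (238,[(1,19019),(3,192018),(0,33)]) (119,[(1,302862),(3,51832),(0,363)]) (119,[(1,24591),(3,18723),(0,151)])))))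
theorem pf787_ok : pf787.check (ok 787 6 ⟨5, 5, 5⟩) (fun _ r => r) [] = true := by decide +kernel

def pf797 : T := .node ⟨1,0,0⟩ (.node ⟨0,1,0⟩ (.node ⟨0,0,1⟩ (.node ⟨-492,373,504⟩ (.node ⟨117,684,-392⟩ (.leaf false ⟨⟨-492,373,504⟩,⟨117,684,-392⟩,⟨616,168,477⟩⟩ (1,[(1,1)]) (1,[(0,1)]) (57,[(2,32677),(4,33474),(0,14)])) (.leaf false ⟨⟨-492,117,616⟩,⟨373,684,168⟩,⟨504,-392,477⟩⟩ (797,[(3,49414),(1,719),(0,328)]) (3,[(4,1611),(3,1679),(1,1)]) (392,[(4,253377),(3,172604),(0,477)]))) (.leaf false ⟨⟨108,-32,789⟩,⟨432,669,-32⟩,⟨661,-432,-108⟩⟩ (41,[(1,36885),(0,9),(2,2045)]) (41,[(1,16832),(0,36),(2,40857)]) (492,[(1,280008),(0,661),(2,34009)]))) (.node ⟨-387,576,-392⟩ (.node ⟨285,-320,-672⟩ (.node ⟨672,420,85⟩ (.leaf false ⟨⟨-320,597,-420⟩,⟨285,-320,-672⟩,⟨672,420,85⟩⟩ (192,[(3,2632),(5,15573),(2,199)])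 (1,[(1,1)]) (1,[(0,1)])) (.leaf false ⟨⟨-756,-68,-243⟩,⟨13,756,-252⟩,⟨252,-243,-716⟩⟩ (85,[(5,99036),(4,96280),(0,243)]) (85,[(5,170449),(4,170100),(0,252)]) (85,[(5,502572),(4,280065),(0,716)]))) (.leaf false ⟨⟨-528,597,4⟩,⟨157,144,-768⟩,⟨576,508,213⟩⟩ (320,[(2,399904),(4,1185),(0,597)]) (20,[(2,21408),(4,5705),(0,9)]) (80,[(2,68304),(4,82275),(0,127)]))) (.leaf false ⟨⟨24,117,-788⟩,⟨312,724,117⟩,⟨733,-312,-24⟩⟩ (129,[(1,104788),(0,8),(2,19701)]) (129,[(1,25675),(0,104),(2,153300)]) (387,[(1,296624),(0,733),(2,301464)])))) (.node ⟨0,0,1⟩ (.node ⟨-387,-392,576⟩ (.node ⟨285,-672,-320⟩ (.node ⟨672,85,420⟩ (.leaf false ⟨⟨-320,-420,597⟩,⟨285,-672,-320⟩,⟨672,85,420⟩⟩ (192,[(5,15573),(4,2632),(2,199)]) (1,[(1,1)]) (1,[(0,1)])) (.leaf false ⟨⟨-756,-243,-68⟩,⟨13,-252,756⟩,⟨252,-716,-243⟩⟩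 (85,[(3,96280),(5,99036),(0,243)]) (85,[(3,170100),(5,170449),(0,252)]) (85,[(3,280065),(5,502572),(0,716)]))) (.leaf false ⟨⟨-528,4,597⟩,⟨157,-768,144⟩,⟨576,213,508⟩⟩ (320,[(4,1185),(3,399904),(0,597)]) (20,[(4,5705),(3,21408),(0,9)]) (80,[(4,82275),(3,68304),(0,127)]))) (.leaf false ⟨⟨24,-788,117⟩,⟨312,117,724⟩,⟨733,-24,-312⟩⟩ (129,[(1,19701),(0,8),(2,104788)]) (129,[(1,153300),(0,104),(2,25675)]) (387,[(1,301464),(0,733),(2,296624)]))) (.node ⟨112,168,-771⟩ (.node ⟨112,-771,168⟩ (.node ⟨771,112,168⟩ (.leaf false ⟨⟨12,-779,-168⟩,⟨112,168,-771⟩,⟨789,-12,112⟩⟩ (28,[(3,5208),(1,3),(4,19499)]) (1,[(2,1)]) (257,[(3,15400),(0,263),(4,32540)])) (.leaf false ⟨⟨-572,-444,-333⟩,⟨333,108,-716⟩,⟨444,-653,108⟩⟩ (49448,[(5,55476455),(1,12432),(0,110445)]) (28644,[(2,24584),(5,13920649),(0,9255)])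 (12362,[(5,6050441),(1,10150),(0,2203)]))) (.leaf false ⟨⟨-432,-32,-669⟩,⟨108,-789,-32⟩,⟨661,108,-432⟩⟩ (56,[(4,784),(3,173725),(0,223)]) (21,[(4,2716),(3,19653),(0,4)]) (7,[(4,6643),(3,13122),(0,18)]))) (.leaf false ⟨⟨-432,-669,-32⟩,⟨108,-32,-789⟩,⟨661,-432,108⟩⟩ (56,[(1,173725),(3,784),(0,223)]) (21,[(1,19653),(3,2716),(0,4)]) (7,[(1,13122),(3,6643),(0,18)]))))) (.node ⟨0,1,0⟩ (.node ⟨0,0,1⟩ (.node ⟨-117,724,-312⟩ (.node ⟨-693,-348,184⟩ (.node ⟨228,75,760⟩ (.leaf false ⟨⟨-725,-228,240⟩,⟨-240,760,-3⟩,⟨228,75,760⟩⟩ (11595,[(1,7970),(5,3278061),(0,1732)]) (104,[(5,24843),(2,1),(4,78316)]) (1,[(0,1)])) (.leaf false ⟨⟨-788,-117,24⟩,⟨-117,724,-312⟩,⟨-24,312,733⟩⟩ (57,[(3,151088),(0,197),(4,8106)]) (76,[(3,5928),(0,39),(4,57949)]) (19,[(3,15447),(0,2),(4,6078)]))) (.leaf false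 ⟨⟨-788,24,117⟩,⟨-24,733,-312⟩,⟨117,312,724⟩⟩ (29,[(2,3761),(4,24238),(0,2)]) (348,[(2,26296),(4,516321),(0,733)]) (29,[(2,25780),(4,14625),(0,26)]))) (.leaf false ⟨⟨-788,-51,108⟩,⟨51,508,612⟩,⟨108,-612,499⟩⟩ (26,[(3,21541),(2,5190),(0,9)]) (26,[(3,4641),(2,50132),(0,51)]) (312,[(3,24687),(2,170332),(0,499)]))) (.node ⟨168,112,-771⟩ (.node ⟨-771,112,168⟩ (.node ⟨112,771,168⟩ (.leaf false ⟨⟨-789,112,12⟩,⟨12,168,-779⟩,⟨112,771,168⟩⟩ (1,[(3,156),(5,18),(1,1)]) (257,[(3,209611),(5,3188),(0,56)]) (1,[(0,1)])) (.leaf false ⟨⟨-716,333,108⟩,⟨-333,-572,-444⟩,⟨108,444,-653⟩⟩ (12362,[(1,11032),(4,5259497),(0,3085)]) (12362,[(1,518),(4,18459639),(0,33189)]) (28644,[(4,15257635),(2,22820),(0,6609)]))) (.leaf false ⟨⟨-789,108,-32⟩,⟨-32,-432,-669⟩,⟨108,661,-432⟩⟩ (21,[(4,19653),(3,2716),(0,4)])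 (56,[(4,173725),(3,784),(0,223)]) (7,[(4,13122),(3,6643),(0,18)]))) (.leaf false ⟨⟨-789,-108,-32⟩,⟨-108,661,432⟩,⟨-32,432,-669⟩⟩ (56,[(1,204565),(0,263),(2,23408)]) (14,[(1,891),(0,9),(2,10262)]) (21,[(1,17133),(0,4),(2,9520)])))) (.node ⟨0,0,1⟩ (.node ⟨168,-771,112⟩ (.node ⟨-771,168,112⟩ (.node ⟨112,168,771⟩ (.leaf false ⟨⟨-789,12,112⟩,⟨12,-779,168⟩,⟨112,168,771⟩⟩ (1,[(1,1),(5,18),(4,156)]) (257,[(5,3188),(4,209611),(0,56)]) (1,[(0,1)])) (.leaf false ⟨⟨-716,108,333⟩,⟨-333,-444,-572⟩,⟨108,-653,444⟩⟩ (12362,[(3,5259497),(1,11032),(0,3085)]) (12362,[(3,18459639),(1,518),(0,33189)]) (28644,[(3,15257635),(0,6609),(2,22820)]))) (.leaf false ⟨⟨-789,-32,108⟩,⟨-32,-669,-432⟩,⟨108,-432,661⟩⟩ (21,[(2,2716),(4,19653),(0,4)]) (56,[(2,784),(4,173725),(0,223)]) (7,[(2,6643),(4,13122),(0,18)])))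 (.leaf false ⟨⟨-789,-32,-108⟩,⟨-108,432,661⟩,⟨-32,-669,432⟩⟩ (56,[(1,23408),(0,263),(2,204565)]) (14,[(1,10262),(0,9),(2,891)]) (21,[(1,9520),(0,4),(2,17133)]))) (.leaf false ⟨⟨-797,0,0⟩,⟨0,-797,0⟩,⟨0,0,-797⟩⟩ (1,[(2,797)]) (1,[(1,797)]) (1,[(0,797)]))))
theorem pf797_ok : pf797.check (ok 797 6 ⟨5, 5, 5⟩) (fun _ r => r) [] = true := by decide +kernel

def pf799 : T := .node ⟨1,0,0⟩ (.node ⟨0,1,0⟩ (.node ⟨0,0,1⟩ (.leaf false ⟨⟨0,0,799⟩,⟨0,799,0⟩,⟨799,0,0⟩⟩ (1,[(0,799)]) (1,[(1,799)]) (1,[(2,799)])) (.node ⟨0,705,376⟩ (.leaf false ⟨⟨0,376,-705⟩,⟨0,705,376⟩,⟨799,0,0⟩⟩ (15,[(1,13583),(0,8)]) (1,[(0,1)]) (1,[(3,799)])) (.node ⟨-126,646,-453⟩ (.leaf false ⟨⟨-126,646,-453⟩,⟨-2,-459,-654⟩,⟨789,102,-74⟩⟩ (1,[(0,1)]) (504,[(1,867),(3,374731),(0,8)]) (188,[(1,37),(4,148332),(3,45261)]))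 (.leaf false ⟨⟨0,799,0⟩,⟨376,0,-705⟩,⟨705,0,376⟩⟩ (1,[(3,799)]) (504,[(1,2757),(0,1504),(3,2915269)]) (336,[(1,1929),(0,1880),(3,2574425)]))))) (.node ⟨0,0,1⟩ (.node ⟨0,376,705⟩ (.leaf false ⟨⟨0,-705,376⟩,⟨0,376,705⟩,⟨799,0,0⟩⟩ (15,[(0,8),(2,13583)]) (1,[(0,1)]) (1,[(3,799)])) (.node ⟨-126,-453,646⟩ (.leaf false ⟨⟨-126,-453,646⟩,⟨-2,-654,-459⟩,⟨789,-74,102⟩⟩ (1,[(0,1)]) (504,[(2,374731),(1,867),(0,8)]) (188,[(2,45261),(4,148332),(1,37)])) (.leaf false ⟨⟨0,0,799⟩,⟨376,-705,0⟩,⟨705,376,0⟩⟩ (1,[(2,799)]) (504,[(2,2915269),(0,1504),(1,2757)]) (336,[(2,2574425),(0,1880),(1,1929)])))) (.node ⟨-299,-714,-198⟩ (.node ⟨709,294,-222⟩ (.node ⟨354,-677,234⟩ (.leaf false ⟨⟨-102,-306,-731⟩,⟨354,-677,234⟩,⟨709,294,-222⟩⟩ (7,[(3,4523),(5,183),(2,3)]) (1,[(0,1)]) (1,[(1,1)])) (.leaf false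 ⟨⟨-651,162,-434⟩,⟨294,-434,-603⟩,⟨358,651,-294⟩⟩ (117,[(5,651),(4,127955),(0,217)]) (26,[(5,31362),(4,56643),(0,67)]) (39,[(5,31308),(4,7784),(0,49)]))) (.leaf false ⟨⟨-731,-318,-54⟩,⟨102,-101,-786⟩,⟨306,-726,133⟩⟩ (49,[(2,14412),(4,1758),(0,53)]) (294,[(2,253506),(4,101597),(0,101)]) (49,[(2,20345),(4,100783),(0,121)]))) (.leaf false ⟨⟨21,34,-798⟩,⟨358,-714,-21⟩,⟨714,357,34⟩⟩ (299,[(1,242760),(0,21),(2,4828)]) (299,[(1,77163),(0,358),(2,469098)]) (299,[(1,131206),(0,714),(2,403053)]))))) (.node ⟨0,1,0⟩ (.node ⟨0,0,1⟩ (.node ⟨376,0,705⟩ (.leaf false ⟨⟨-705,0,376⟩,⟨0,799,0⟩,⟨376,0,705⟩⟩ (15,[(3,13583),(0,8)]) (1,[(2,799)]) (1,[(0,1)])) (.node ⟨-453,-126,646⟩ (.leaf false ⟨⟨-654,-2,-459⟩,⟨-453,-126,646⟩,⟨-74,789,102⟩⟩ (504,[(2,374731),(0,8),(1,867)]) (1,[(0,1)]) (188,[(2,45261),(1,37),(3,148332)]))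 (.leaf false ⟨⟨-798,21,34⟩,⟨-21,358,-714⟩,⟨34,714,357⟩⟩ (2256,[(2,4014505),(1,5241),(0,376)]) (11844,[(2,42332101),(1,41205),(0,33652)]) (1128,[(2,9889223),(1,7599),(0,6392)])))) (.node ⟨-198,-299,-714⟩ (.node ⟨-222,709,294⟩ (.node ⟨234,354,-677⟩ (.leaf false ⟨⟨-731,-102,-306⟩,⟨-222,709,294⟩,⟨234,354,-677⟩⟩ (7,[(2,3),(5,4523),(4,183)]) (1,[(1,1)]) (1,[(0,1)])) (.leaf false ⟨⟨-774,66,187⟩,⟨-198,-299,-714⟩,⟨-11,738,-306⟩⟩ (13,[(3,26680),(0,43),(4,16080)]) (13,[(3,16729),(0,11),(4,7)]) (234,[(3,79051),(0,11),(4,176586)]))) (.leaf false ⟨⟨-786,-101,-102⟩,⟨54,318,-731⟩,⟨133,-726,-306⟩⟩ (49,[(4,42288),(3,7104),(0,17)]) (294,[(4,146406),(3,611771),(0,731)]) (49,[(4,4805),(3,585),(0,51)]))) (.leaf false ⟨⟨-798,21,34⟩,⟨-21,358,-714⟩,⟨34,714,357⟩⟩ (299,[(1,4828),(3,242760),(0,21)])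 (299,[(1,469098),(3,77163),(0,358)]) (299,[(1,403053),(3,131206),(0,714)])))) (.node ⟨0,0,1⟩ (.node ⟨-198,-714,-299⟩ (.node ⟨-222,294,709⟩ (.node ⟨234,-677,354⟩ (.leaf false ⟨⟨-731,-306,-102⟩,⟨-222,294,709⟩,⟨234,-677,354⟩⟩ (7,[(3,183),(5,4523),(2,3)]) (1,[(1,1)]) (1,[(0,1)])) (.leaf false ⟨⟨-774,187,66⟩,⟨-198,-714,-299⟩,⟨-11,-306,738⟩⟩ (13,[(3,16080),(0,43),(4,26680)]) (13,[(3,7),(0,11),(4,16729)]) (234,[(3,176586),(0,11),(4,79051)]))) (.leaf false ⟨⟨-786,-123,-74⟩,⟨21,-506,618⟩,⟨142,-606,-501⟩⟩ (98,[(2,21817),(4,86130),(0,41)]) (147,[(2,270223),(4,53079),(0,253)]) (49,[(2,47060),(4,15464),(0,101)]))) (.leaf false ⟨⟨-798,-21,34⟩,⟨21,358,714⟩,⟨34,-714,357⟩⟩ (299,[(3,245334),(2,30555),(0,34)]) (299,[(3,135093),(2,402754),(0,714)]) (299,[(3,60520),(2,468384),(0,357)]))) (.node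 ⟨-101,318,-726⟩ (.node ⟨-758,-186,171⟩ (.node ⟨126,-747,-254⟩ (.leaf false ⟨⟨-758,-186,171⟩,⟨-219,214,-738⟩,⟨126,-747,-254⟩⟩ (1,[(1,1)]) (121,[(2,123),(5,14076),(4,13220)]) (1,[(0,1)])) (.leaf false ⟨⟨-786,54,133⟩,⟨-102,-731,-306⟩,⟨-101,318,-726⟩⟩ (21,[(3,30481),(0,131),(4,96723)]) (21,[(3,10744),(0,17),(4,28050)]) (126,[(3,117130),(0,101),(4,35379)]))) (.leaf false ⟨⟨-786,-101,-102⟩,⟨54,318,-731⟩,⟨133,-726,-306⟩⟩ (57,[(4,70574),(3,12081),(0,34)]) (171,[(4,544864),(3,81588),(0,731)]) (19,[(4,23245),(3,20118),(0,34)]))) (.leaf false ⟨⟨-786,-123,-74⟩,⟨21,-506,618⟩,⟨142,-606,-501⟩⟩ (106,[(1,37610),(3,87457),(0,41)]) (159,[(1,85416),(3,22214),(0,253)]) (53,[(1,99879),(3,2675),(0,101)])))))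
theorem pf799_ok : pf799.check (ok 799 6 ⟨5, 5, 5⟩) (fun _ r => r) [] = true := by decide +kernel

def pf809 : T := .node ⟨1,0,0⟩ (.node ⟨0,1,0⟩ (.node ⟨0,0,1⟩ (.node ⟨-432,216,649⟩ (.node ⟨264,712,-279⟩ (.node ⟨64,777,-216⟩ (.leaf false ⟨⟨-432,216,649⟩,⟨64,777,-216⟩,⟨681,64,432⟩⟩ (1,[(2,1)]) (1,[(0,1)]) (27,[(3,6472),(5,21843),(2,8)])) (.leaf false ⟨⟨-432,64,681⟩,⟨216,777,64⟩,⟨649,-216,432⟩⟩ (809,[(4,51776),(2,777),(0,216)]) (4896,[(1,6344),(4,6781429),(0,9645)]) (4352,[(1,18648),(4,11261199),(0,32791)]))) (.leaf false ⟨⟨-537,-36,604⟩,⟨316,672,321⟩,⟨516,-449,432⟩⟩ (279,[(4,9633),(3,420004),(0,604)]) (93,[(4,57636),(3,138680),(0,107)]) (31,[(4,28668),(3,20257),(0,48)]))) (.leaf false ⟨⟨9,568,576⟩,⟨384,504,-503⟩,⟨712,-279,264⟩⟩ (48,[(1,28297),(0,1),(2,27480)]) (9,[(1,665),(0,8),(2,6264)])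 (54,[(1,72017),(0,89),(2,4158)]))) (.node ⟨-161,792,-36⟩ (.node ⟨-161,-36,-792⟩ (.node ⟨36,-351,-728⟩ (.leaf false ⟨⟨-161,-36,-792⟩,⟨36,807,-44⟩,⟨792,-44,-159⟩⟩ (1,[(1,1)]) (18,[(5,809),(4,14562),(1,1)]) (728,[(5,570852),(4,23777),(0,159)])) (.leaf false ⟨⟨-408,604,-351⟩,⟨289,516,552⟩,⟨636,153,-476⟩⟩ (251784,[(5,5577265),(0,491004),(1,562913)]) (10491,[(5,4835318),(0,16200),(1,7579)]) (6994,[(5,5831831),(0,3842),(1,7735)]))) (.leaf false ⟨⟨-156,793,-36⟩,⟨351,36,-728⟩,⟨712,156,351⟩⟩ (17460,[(4,90681),(0,1),(1,17482)]) (1,[(2,1520),(4,190),(0,1)]) (3,[(2,9243),(4,43),(0,13)]))) (.leaf false ⟨⟨0,0,-809⟩,⟨280,-759,0⟩,⟨759,280,0⟩⟩ (1,[(1,809)]) (23,[(1,1440),(0,40),(2,14223)]) (7,[(1,1188),(0,33),(2,28096)])))) (.node ⟨0,0,1⟩ (.node ⟨-161,-36,792⟩ (.node ⟨-161,-792,-36⟩ (.node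 ⟨36,-728,-351⟩ (.leaf false ⟨⟨-161,-792,-36⟩,⟨36,-44,807⟩,⟨792,-159,-44⟩⟩ (1,[(1,1)]) (18,[(3,14562),(5,809),(1,1)]) (728,[(3,23777),(5,570852),(0,159)])) (.leaf false ⟨⟨-408,-351,604⟩,⟨289,552,516⟩,⟨636,-476,153⟩⟩ (251784,[(5,5577265),(1,562913),(0,491004)]) (10491,[(5,4835318),(1,7579),(0,16200)]) (6994,[(5,5831831),(1,7735),(0,3842)]))) (.leaf false ⟨⟨-156,-36,793⟩,⟨351,-728,36⟩,⟨712,351,156⟩⟩ (17460,[(4,90681),(1,17482),(0,1)]) (1,[(4,190),(3,1520),(0,1)]) (3,[(4,43),(3,9243),(0,13)]))) (.leaf false ⟨⟨0,-809,0⟩,⟨280,0,-759⟩,⟨759,0,280⟩⟩ (1,[(2,809)]) (23,[(1,14223),(0,40),(2,1440)]) (7,[(1,28096),(0,33),(2,1188)]))) (.node ⟨759,0,280⟩ (.leaf false ⟨⟨0,-809,0⟩,⟨280,0,-759⟩,⟨759,0,280⟩⟩ (1,[(2,809)]) (759,[(1,654481),(0,280)]) (1,[(0,1)])) (.node ⟨-216,279,-728⟩ (.leaf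 false ⟨⟨-639,64,-492⟩,⟨-12,-804,-89⟩,⟨496,63,-636⟩⟩ (41006,[(3,1897927),(1,29910),(0,16209)]) (280,[(4,64191),(3,225120),(1,89)]) (182,[(4,124616),(3,32895),(0,159)])) (.leaf false ⟨⟨-756,-288,1⟩,⟨153,-404,-684⟩,⟨244,-639,432⟩⟩ (1736,[(4,1832139),(0,1792),(1,4653)]) (19530,[(4,88898493),(0,28280),(1,121237)]) (1085,[(4,3361313),(0,2485),(1,4787)])))))) (.node ⟨0,1,0⟩ (.node ⟨0,0,1⟩ (.node ⟨-36,792,-161⟩ (.node ⟨-792,-36,-161⟩ (.node ⟨-728,-351,36⟩ (.leaf false ⟨⟨-807,-44,-36⟩,⟨-44,159,792⟩,⟨-36,792,-161⟩⟩ (29144,[(0,20283),(1,11052),(4,6234869)]) (18,[(3,14417),(1,1),(4,2898)]) (1,[(2,1)])) (.leaf false ⟨⟨-756,1,288⟩,⟨-153,684,-404⟩,⟨244,432,639⟩⟩ (62946,[(3,29090401),(1,66521),(0,7002)]) (27976,[(3,755135),(1,61295),(0,60804)]) (6994,[(3,5826003),(1,6357),(0,9260)])))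 (.leaf false ⟨⟨-728,36,351⟩,⟨-36,793,-156⟩,⟨351,156,712⟩⟩ (1,[(2,190),(4,1520),(0,1)]) (17460,[(2,90681),(1,17482),(0,1)]) (3,[(2,43),(4,9243),(0,13)]))) (.leaf false ⟨⟨-809,0,0⟩,⟨0,-759,280⟩,⟨0,280,759⟩⟩ (1,[(3,809)]) (23,[(3,1440),(2,14223),(0,40)]) (7,[(3,1188),(2,28096),(0,33)]))) (.node ⟨0,759,280⟩ (.leaf false ⟨⟨-809,0,0⟩,⟨0,280,-759⟩,⟨0,759,280⟩⟩ (1,[(3,809)]) (759,[(1,654481),(0,280)]) (1,[(0,1)])) (.node ⟨279,-216,-728⟩ (.leaf false ⟨⟨-804,-12,-89⟩,⟨63,496,-636⟩,⟨64,-639,-492⟩⟩ (280,[(1,89),(4,225120),(3,64191)]) (182,[(4,32895),(3,124616),(0,159)]) (41006,[(1,29910),(4,1897927),(0,16209)])) (.leaf false ⟨⟨-804,63,64⟩,⟨-89,-636,-492⟩,⟨-12,496,-639⟩⟩ (3255,[(1,23644),(0,9380),(3,16124781)]) (3906,[(1,10103),(0,1246),(3,4914825)]) (26040,[(1,62339),(0,1120),(3,59989221)])))))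 (.node ⟨0,0,1⟩ (.node ⟨0,280,759⟩ (.leaf false ⟨⟨-809,0,0⟩,⟨0,-759,280⟩,⟨0,280,759⟩⟩ (1,[(3,809)]) (759,[(0,280),(2,654481)]) (1,[(0,1)])) (.node ⟨279,-728,-216⟩ (.leaf false ⟨⟨-804,-89,-12⟩,⟨63,-636,496⟩,⟨64,-492,-639⟩⟩ (280,[(2,64191),(4,225120),(1,89)]) (182,[(2,124616),(4,32895),(0,159)]) (41006,[(4,1897927),(1,29910),(0,16209)])) (.leaf false ⟨⟨-804,64,63⟩,⟨-89,-492,-636⟩,⟨-12,-639,496⟩⟩ (3255,[(2,16124781),(0,9380),(1,23644)]) (3906,[(2,4914825),(0,1246),(1,10103)]) (26040,[(2,59989221),(0,1120),(1,62339)])))) (.leaf false ⟨⟨-809,0,0⟩,⟨0,-809,0⟩,⟨0,0,-809⟩⟩ (1,[(2,809)]) (1,[(1,809)]) (1,[(0,809)]))))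
theorem pf809_ok : pf809.check (ok 809 6 ⟨5, 5, 5⟩) (fun _ r => r) [] = true := by decide +kernel

def pf811 : T := .node ⟨1,0,0⟩ (.node ⟨0,1,0⟩ (.node ⟨0,0,1⟩ (.leaf false ⟨⟨0,0,811⟩,⟨0,811,0⟩,⟨811,0,0⟩⟩ (1,[(0,811)]) (1,[(1,811)]) (1,[(2,811)])) (.node ⟨-126,-71,-798⟩ (.node ⟨793,-126,-114⟩ (.leaf false ⟨⟨-126,-71,-798⟩,⟨114,798,-89⟩,⟨793,-126,-114⟩⟩ (1,[(1,1)]) (798,[(4,102186),(3,643123),(1,89)]) (1,[(0,1)])) (.leaf false ⟨⟨-786,186,73⟩,⟨18,361,-726⟩,⟨199,702,354⟩⟩ (92454,[(4,42437197),(0,143245),(1,12006)]) (15409,[(4,47949564),(0,56604),(1,22105)]) (15409,[(4,74527656),(0,89177),(1,5904)]))) (.node ⟨-174,777,154⟩ (.leaf false ⟨⟨-174,777,154⟩,⟨441,226,-642⟩,⟨658,54,471⟩⟩ (1,[(0,1)]) (71,[(2,225930),(4,2835),(1,226)]) (71,[(2,9651),(4,39914),(1,54)])) (.leaf false ⟨⟨9,406,-702⟩,⟨474,567,334⟩,⟨658,-414,-231⟩⟩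 (14,[(2,10626),(1,1),(3,5613)]) (21,[(2,56028),(1,79),(3,6298)]) (11304,[(0,39585),(1,4367),(3,25767632)]))))) (.node ⟨0,0,1⟩ (.node ⟨-126,-798,-71⟩ (.node ⟨793,-114,-126⟩ (.leaf false ⟨⟨-126,-798,-71⟩,⟨114,-89,798⟩,⟨793,-114,-126⟩⟩ (1,[(1,1)]) (798,[(2,643123),(4,102186),(1,89)]) (1,[(0,1)])) (.leaf false ⟨⟨-786,18,199⟩,⟨73,-726,354⟩,⟨186,361,702⟩⟩ (15409,[(4,9136726),(1,3403),(0,26254)]) (15409,[(4,48042018),(1,21972),(0,55673)]) (4866,[(4,23445199),(1,1818),(0,28135)]))) (.node ⟨-174,154,777⟩ (.leaf false ⟨⟨-174,154,777⟩,⟨441,-642,226⟩,⟨658,471,54⟩⟩ (1,[(0,1)]) (71,[(1,226),(4,2835),(3,225930)]) (71,[(1,54),(4,39914),(3,9651)])) (.leaf false ⟨⟨9,-702,406⟩,⟨474,334,567⟩,⟨658,-231,-414⟩⟩ (14,[(2,5613),(1,1),(3,10626)]) (21,[(2,6298),(1,79),(3,56028)]) (11304,[(2,25767632),(1,4367),(0,39585)]))))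 (.node ⟨186,361,-702⟩ (.node ⟨726,361,-18⟩ (.node ⟨786,-18,199⟩ (.leaf false ⟨⟨73,-726,-354⟩,⟨186,361,-702⟩,⟨786,-18,199⟩⟩ (186,[(3,14598),(2,73),(4,161389)]) (1,[(2,1)]) (1,[(0,1)])) (.leaf false ⟨⟨-774,9,-242⟩,⟨87,-746,-306⟩,⟨226,318,-711⟩⟩ (199,[(5,36186),(4,2565),(0,242)]) (199,[(5,257829),(4,153962),(0,306)]) (79311,[(1,301910),(4,88377674),(0,256059)]))) (.leaf false ⟨⟨-711,-306,-242⟩,⟨226,87,-774⟩,⟨318,-746,9⟩⟩ (123462,[(1,46435),(4,13270770),(0,151087)]) (6859,[(1,7718),(4,4517776),(0,6065)]) (27436,[(1,1131),(4,50496684),(0,57827)]))) (.leaf false ⟨⟨-327,-726,154⟩,⟨154,-231,-762⟩,⟨726,-278,231⟩⟩ (361,[(1,454058),(3,16989),(0,726)]) (361,[(1,437244),(3,98560),(0,231)]) (361,[(1,111765),(3,313794),(0,278)]))))) (.node ⟨0,1,0⟩ (.node ⟨0,0,1⟩ (.node ⟨-798,-126,-71⟩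 (.node ⟨-114,793,-126⟩ (.leaf false ⟨⟨-798,-126,-71⟩,⟨-114,793,-126⟩,⟨-89,114,798⟩⟩ (1,[(1,1)]) (1,[(0,1)]) (798,[(2,643123),(1,89),(3,102186)])) (.leaf false ⟨⟨-809,-54,18⟩,⟨-18,486,649⟩,⟨54,-647,486⟩⟩ (92454,[(1,103986),(3,65049499),(0,71803)]) (15409,[(1,12709),(3,77708398),(0,86530)]) (15409,[(1,8100),(3,41802184),(0,63999)]))) (.node ⟨154,-174,777⟩ (.leaf false ⟨⟨-710,-39,390⟩,⟨-39,810,10⟩,⟨390,10,711⟩⟩ (259,[(4,203910),(3,12519),(0,130)]) (71,[(4,10749),(3,56250),(1,10)]) (76139,[(3,9451412),(1,24192),(0,67461)])) (.leaf false ⟨⟨-809,18,-54⟩,⟨-18,649,486⟩,⟨54,486,-647⟩⟩ (29,[(2,765),(4,22999),(0,3)]) (126,[(2,15157),(4,520170),(1,649)]) (1099,[(2,1303354),(0,2646),(1,585)])))) (.node ⟨361,186,-702⟩ (.node ⟨361,726,-18⟩ (.node ⟨-18,786,199⟩ (.leaf false ⟨⟨-726,73,-354⟩,⟨-18,786,199⟩,⟨361,186,-702⟩⟩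 (186,[(3,14598),(5,161389),(2,73)]) (1,[(0,1)]) (1,[(2,1)])) (.leaf false ⟨⟨-810,10,-39⟩,⟨10,-711,-390⟩,⟨39,390,-710⟩⟩ (199,[(5,161892),(4,32644),(0,39)]) (199,[(5,5030),(4,165051),(0,390)]) (199,[(5,5019),(4,635670),(0,710)]))) (.leaf false ⟨⟨-807,46,-66⟩,⟨46,-282,-759⟩,⟨66,759,-278⟩⟩ (20577,[(3,36067656),(1,3196),(0,49195)]) (82308,[(3,18345636),(1,91057),(0,80569)]) (123462,[(3,104096286),(1,49585),(0,27013)]))) (.leaf false ⟨⟨-759,-282,46⟩,⟨-278,759,66⟩,⟨-66,46,-807⟩⟩ (361,[(1,516212),(0,759),(2,39372)]) (361,[(1,171330),(0,278),(2,325707)]) (361,[(1,337659),(0,66),(2,28882)])))) (.node ⟨0,0,1⟩ (.node ⟨361,-702,186⟩ (.node ⟨361,-18,726⟩ (.node ⟨-18,199,786⟩ (.leaf false ⟨⟨-726,-354,73⟩,⟨-18,199,786⟩,⟨361,-702,186⟩⟩ (186,[(5,161389),(4,14598),(2,73)]) (1,[(0,1)]) (1,[(2,1)]))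 (.leaf false ⟨⟨-810,-39,10⟩,⟨10,-390,-711⟩,⟨39,-710,390⟩⟩ (199,[(3,32644),(5,161892),(0,39)]) (199,[(3,165051),(5,5030),(0,390)]) (199,[(3,635670),(5,5019),(0,710)]))) (.leaf false ⟨⟨-807,-66,46⟩,⟨46,-759,-282⟩,⟨66,-278,759⟩⟩ (20577,[(2,36067656),(0,49195),(1,3196)]) (82308,[(2,18345636),(0,80569),(1,91057)]) (123462,[(2,104096286),(0,27013),(1,49585)]))) (.leaf false ⟨⟨-759,46,-282⟩,⟨-278,66,759⟩,⟨-66,-807,46⟩⟩ (361,[(1,39372),(0,759),(2,516212)]) (361,[(1,325707),(0,278),(2,171330)]) (361,[(1,28882),(0,66),(2,337659)]))) (.node ⟨-242,306,-711⟩ (.node ⟨-242,-711,306⟩ (.node ⟨-746,-87,306⟩ (.leaf false ⟨⟨-774,-87,226⟩,⟨-242,306,-711⟩,⟨-9,-746,-318⟩⟩ (41555,[(3,3472702),(2,406),(0,42983)]) (1,[(2,1)]) (242,[(3,79710),(1,9),(4,174133)])) (.leaf false ⟨⟨-774,-242,-9⟩,⟨-87,306,-746⟩,⟨226,-711,-318⟩⟩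 (21216,[(5,21077448),(1,8315),(0,8939)]) (10593,[(2,9578),(5,1266935),(0,3570)]) (102,[(5,122048),(1,131),(0,237)]))) (.leaf false ⟨⟨-810,10,-39⟩,⟨10,-711,-390⟩,⟨39,390,-710⟩⟩ (102,[(4,85766),(3,8223),(0,13)]) (51,[(4,15220),(3,82476),(0,65)]) (153,[(4,79943),(3,192735),(0,355)]))) (.leaf false ⟨⟨-810,-39,10⟩,⟨10,-390,-711⟩,⟨39,-710,390⟩⟩ (102,[(1,8223),(3,85766),(0,13)]) (51,[(1,82476),(3,15220),(0,65)]) (153,[(1,192735),(3,79943),(0,355)])))))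
theorem pf811_ok : pf811.check (ok 811 6 ⟨5, 5, 5⟩) (fun _ r => r) [] = true := by decide +kernel


end H34S
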