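import Pool.Agent.Lib.H34S.Cover

/-!
# H34S: certificates (generated), pentagonal numbers
-/

set_option autoImplicit false

namespace H34S

def pf821 : T := .node ⟨1,0,0⟩ (.node ⟨0,1,0⟩ (.node ⟨0,0,1⟩ (.node ⟨-144,21,808⟩ (.node ⟨-144,804,-83⟩ (.leaf false ⟨⟨-144,21,808⟩,⟨-83,816,-36⟩,⟨804,88,141⟩⟩ (1,[(1,1)]) (67,[(2,3232),(4,4231),(0,68)]) (201,[(2,30167),(4,164772),(0,22)])) (.leaf false ⟨⟨-132,216,781⟩,⟨339,-704,252⟩,⟨736,363,24⟩⟩ (808,[(4,5808),(3,158127),(1,781)]) (3888,[(3,4815261),(1,247),(0,9400)]) (83,[(4,57632),(3,49425),(0,24)]))) (.node ⟨672,-336,331⟩ (.leaf false ⟨⟨24,736,363⟩,⟨252,339,-704⟩,⟨781,-132,216⟩⟩ (6,[(2,2986),(1,1),(3,4437)]) (4,[(2,2840),(1,7),(3,1503)]) (11424,[(2,48966377),(0,869),(1,57904)])) (.leaf false ⟨⟨-731,372,-36⟩,⟨252,549,556⟩,⟨276,484,-603⟩⟩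 (11424,[(2,4981793),(1,1456),(0,12739)]) (952,[(2,11485645),(1,12600),(0,2343)]) (2856,[(2,28504409),(1,34832),(0,6291)])))) (.node ⟨-429,700,0⟩ (.leaf false ⟨⟨-429,700,0⟩,⟨0,0,-821⟩,⟨700,429,0⟩⟩ (1,[(0,1)]) (1,[(1,821)]) (700,[(3,674041),(0,429)])) (.leaf false ⟨⟨0,0,-821⟩,⟨429,700,0⟩,⟨700,-429,0⟩⟩ (1,[(1,821)]) (1,[(0,1),(2,1400)]) (429,[(0,700),(2,305959)])))) (.node ⟨0,0,1⟩ (.node ⟨-429,0,700⟩ (.leaf false ⟨⟨-429,0,700⟩,⟨0,-821,0⟩,⟨700,0,429⟩⟩ (1,[(0,1)]) (1,[(2,821)]) (700,[(3,674041),(0,429)])) (.leaf false ⟨⟨0,-821,0⟩,⟨429,0,700⟩,⟨700,0,-429⟩⟩ (1,[(2,821)]) (1,[(1,1400),(0,1)]) (429,[(1,305959),(0,700)]))) (.node ⟨-144,-804,-83⟩ (.node ⟨-141,88,-804⟩ (.leaf false ⟨⟨-144,-804,-83⟩,⟨-21,88,-816⟩,⟨808,-141,-36⟩⟩ (1,[(1,1)]) (67,[(4,8181),(3,88),(0,68)]) (67,[(4,54559),(3,9711),(0,3)]))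 (.leaf false ⟨⟨-141,-792,-164⟩,⟨484,-216,627⟩,⟨648,-11,-504⟩⟩ (67,[(2,5510),(4,57),(1,66)]) (11,[(2,14811),(4,1517),(0,27)]) (8,[(2,4836),(4,5043),(0,1)]))) (.leaf false ⟨⟨0,0,-821⟩,⟨429,700,0⟩,⟨700,-429,0⟩⟩ (1,[(1,821)]) (48,[(1,11869),(0,143),(2,81372)]) (36,[(1,14525),(0,175),(2,156144)]))))) (.node ⟨0,1,0⟩ (.node ⟨0,0,1⟩ (.node ⟨0,-429,700⟩ (.leaf false ⟨⟨-821,0,0⟩,⟨0,-429,700⟩,⟨0,700,429⟩⟩ (1,[(3,821)]) (1,[(0,1)]) (700,[(0,429),(2,674041)])) (.leaf false ⟨⟨-821,0,0⟩,⟨0,429,700⟩,⟨0,700,-429⟩⟩ (1,[(3,821)]) (1,[(1,1400),(0,1)]) (429,[(1,305959),(0,700)]))) (.node ⟨-83,-144,-804⟩ (.node ⟨-804,-141,88⟩ (.leaf false ⟨⟨-816,-21,88⟩,⟨-83,-144,-804⟩,⟨-36,808,-141⟩⟩ (67,[(2,88),(0,68),(3,8181)]) (1,[(1,1)]) (67,[(2,9711),(0,3),(3,54559)])) (.leaf false ⟨⟨-749,336,-12⟩,⟨-12,-56,-819⟩,⟨336,747,-56⟩⟩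 (22,[(4,18890),(3,6969),(0,3)]) (126036,[(1,120407),(4,50139899),(0,72912)]) (11,[(4,1932),(3,7230),(0,7)]))) (.leaf false ⟨⟨-821,0,0⟩,⟨0,429,700⟩,⟨0,700,-429⟩⟩ (1,[(3,821)]) (48,[(1,81372),(3,11869),(0,143)]) (36,[(1,156144),(3,14525),(0,175)])))) (.node ⟨0,0,1⟩ (.node ⟨-83,-804,-144⟩ (.node ⟨-804,88,-141⟩ (.leaf false ⟨⟨-816,88,-21⟩,⟨-83,-804,-144⟩,⟨-36,-141,808⟩⟩ (67,[(2,8181),(0,68),(3,88)]) (1,[(1,1)]) (67,[(2,54559),(0,3),(3,9711)])) (.leaf false ⟨⟨-749,-12,336⟩,⟨-12,-819,-56⟩,⟨336,-56,747⟩⟩ (22,[(2,6969),(4,18890),(0,3)]) (653720,[(2,50139899),(1,659532),(0,58329)]) (11,[(2,7230),(4,1932),(0,7)]))) (.leaf false ⟨⟨-821,0,0⟩,⟨0,-429,700⟩,⟨0,700,429⟩⟩ (1,[(3,821)]) (36,[(3,14525),(2,156144),(0,175)]) (48,[(3,11869),(2,81372),(0,143)]))) (.leaf false ⟨⟨-821,0,0⟩,⟨0,-821,0⟩,⟨0,0,-821⟩⟩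 (1,[(2,821)]) (1,[(1,821)]) (1,[(0,821)]))))
theorem pf821_ok : pf821.check (ok 821 6 ⟨5, 5, 5⟩) (fun _ r => r) [] = true := by decide +kernel

def pf823 : T := .node ⟨1,0,0⟩ (.node ⟨0,1,0⟩ (.node ⟨0,0,1⟩ (.leaf false ⟨⟨0,0,823⟩,⟨0,823,0⟩,⟨823,0,0⟩⟩ (1,[(0,823)]) (1,[(1,823)]) (1,[(2,823)])) (.node ⟨778,114,243⟩ (.node ⟨-243,786,22⟩ (.leaf false ⟨⟨-243,786,22⟩,⟨114,58,-813⟩,⟨778,237,126⟩⟩ (1,[(0,1)]) (393,[(2,320147),(4,51849),(0,29)]) (213070,[(2,28051955),(1,223033),(0,31898)])) (.leaf false ⟨⟨126,-402,-707⟩,⟨157,714,-378⟩,⟨798,-77,186⟩⟩ (27,[(2,18781),(0,14),(3,150)]) (243,[(2,88400),(0,157),(3,296904)]) (49170,[(2,1973635),(0,11606),(1,46809)]))) (.leaf false ⟨⟨-653,282,-414⟩,⟨342,-246,-707⟩,⟨366,733,-78⟩⟩ (27,[(3,18157),(2,12858),(0,46)]) (243,[(3,633152),(2,20820),(0,707)])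 (81,[(3,49874),(2,62337),(0,26)])))) (.node ⟨0,0,1⟩ (.node ⟨778,243,114⟩ (.node ⟨-243,22,786⟩ (.leaf false ⟨⟨-243,22,786⟩,⟨114,-813,58⟩,⟨778,126,237⟩⟩ (1,[(0,1)]) (393,[(4,51849),(3,320147),(0,29)]) (62830,[(1,31274),(4,28051955),(0,14409)])) (.leaf false ⟨⟨126,-813,22⟩,⟨237,58,786⟩,⟨778,114,-243⟩⟩ (27,[(2,11598),(0,14),(3,21643)]) (778,[(2,584490),(1,237),(3,12467)]) (213070,[(1,184153),(0,92582),(3,18422395)]))) (.leaf false ⟨⟨-653,-414,282⟩,⟨342,-707,-246⟩,⟨366,-78,733⟩⟩ (27,[(1,12858),(3,18157),(0,46)]) (243,[(1,20820),(3,633152),(0,707)]) (81,[(1,62337),(3,49874),(0,26)]))) (.node ⟨78,-806,147⟩ (.node ⟨78,147,-806⟩ (.node ⟨-78,-806,-147⟩ (.node ⟨814,-93,78⟩ (.leaf false ⟨⟨-78,-806,-147⟩,⟨93,138,-806⟩,⟨814,-93,78⟩⟩ (1,[(1,1)]) (49,[(4,2418),(2,46),(6,969)]) (1,[(0,1)]))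 (.leaf false ⟨⟨-819,22,-78⟩,⟨22,-702,-429⟩,⟨78,429,-698⟩⟩ (16399,[(6,2605923),(3,1846),(0,19878)]) (16399,[(6,119719784),(3,31551),(0,149656)]) (49197,[(6,407997460),(3,31452),(0,499525)]))) (.leaf false ⟨⟨22,-243,-786⟩,⟨126,778,-237⟩,⟨813,-114,58⟩⟩ (39,[(3,32271),(0,11),(4,18343)]) (13,[(3,6168),(0,21),(4,6812)]) (26,[(3,38329),(0,271),(4,221390)]))) (.leaf false ⟨⟨-330,-698,-285⟩,⟨490,-435,498⟩,⟨573,-30,-590⟩⟩ (147,[(2,604483),(4,5934),(0,698)]) (49,[(2,92468),(4,35320),(0,145)]) (49,[(2,36970),(4,28857),(0,10)]))) (.leaf false ⟨⟨-330,-285,-698⟩,⟨490,498,-435⟩,⟨573,-590,-30⟩⟩ (147,[(3,5934),(2,604483),(0,698)]) (49,[(3,35320),(2,92468),(0,145)]) (49,[(3,28857),(2,36970),(0,10)]))))) (.node ⟨0,1,0⟩ (.node ⟨0,0,1⟩ (.node ⟨243,114,778⟩ (.node ⟨22,786,-243⟩ (.leaf false ⟨⟨-813,58,114⟩,⟨22,786,-243⟩,⟨126,237,778⟩⟩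 (393,[(2,51849),(4,320147),(0,29)]) (1,[(0,1)]) (62830,[(2,28051955),(0,14409),(1,31274)])) (.leaf false ⟨⟨-813,22,126⟩,⟨58,786,237⟩,⟨114,-243,778⟩⟩ (27,[(4,21643),(3,11598),(0,14)]) (778,[(4,12467),(3,584490),(1,237)]) (213070,[(4,18422395),(1,184153),(0,92582)]))) (.leaf false ⟨⟨-765,-302,-30⟩,⟨-230,630,-477⟩,⟨-198,435,670⟩⟩ (27,[(1,65320),(0,85),(2,1536)]) (243,[(1,63029),(0,230),(2,179310)]) (27,[(1,35206),(0,22),(2,14253)]))) (.node ⟨-806,78,147⟩ (.node ⟨147,78,-806⟩ (.node ⟨-806,-78,-147⟩ (.node ⟨-93,814,78⟩ (.leaf false ⟨⟨-806,-78,-147⟩,⟨-93,814,78⟩,⟨138,93,-806⟩⟩ (1,[(1,1)]) (1,[(0,1)]) (49,[(4,2418),(5,969),(2,46)])) (.leaf false ⟨⟨-819,22,-78⟩,⟨22,-702,-429⟩,⟨78,429,-698⟩⟩ (16399,[(3,23712),(5,48236060),(0,61087)]) (16399,[(3,12727),(5,80437716),(0,114180)]) (49197,[(3,58830),(5,465130081),(0,551122)])))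 (.leaf false ⟨⟨-806,78,147⟩,⟨-138,93,-806⟩,⟨93,814,78⟩⟩ (1,[(5,1612),(0,1)]) (26,[(3,25513),(5,28574),(0,31)]) (39,[(3,56787),(5,324415),(0,407)]))) (.leaf false ⟨⟨-806,-93,138⟩,⟨-147,78,-806⟩,⟨-78,814,93⟩⟩ (147,[(2,629350),(0,806),(3,49197)]) (1,[(2,1612),(0,1),(3,156)]) (49,[(2,16399),(0,26),(3,41914)]))) (.leaf false ⟨⟨-806,78,-147⟩,⟨93,814,-78⟩,⟨138,-93,-806⟩⟩ (1,[(3,1612),(2,156),(0,1)]) (49,[(3,16399),(2,41914),(0,26)]) (147,[(3,629350),(2,49197),(0,806)])))) (.node ⟨0,0,1⟩ (.node ⟨147,-806,78⟩ (.node ⟨-806,147,78⟩ (.node ⟨-806,-147,-78⟩ (.node ⟨-93,78,814⟩ (.leaf false ⟨⟨-806,-147,-78⟩,⟨-93,78,814⟩,⟨138,-806,93⟩⟩ (1,[(1,1)]) (1,[(0,1)]) (49,[(4,969),(5,2418),(3,46)])) (.leaf false ⟨⟨-819,-78,22⟩,⟨22,-429,-702⟩,⟨78,-698,429⟩⟩ (16399,[(4,48236060),(2,23712),(0,61087)])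 (16399,[(4,80437716),(2,12727),(0,114180)]) (49197,[(4,465130081),(2,58830),(0,551122)]))) (.leaf false ⟨⟨-806,-138,93⟩,⟨78,93,814⟩,⟨147,-806,78⟩⟩ (26,[(5,45942),(4,8145),(0,31)]) (39,[(5,325000),(4,56202),(0,407)]) (1,[(5,659),(4,953),(0,1)]))) (.leaf false ⟨⟨-806,-147,78⟩,⟨93,-78,814⟩,⟨138,-806,-93⟩⟩ (1,[(2,156),(4,1612),(0,1)]) (49,[(2,41914),(4,16399),(0,26)]) (147,[(2,49197),(4,629350),(0,806)]))) (.leaf false ⟨⟨-806,138,-93⟩,⟨-147,-806,78⟩,⟨-78,93,814⟩⟩ (147,[(1,49197),(0,806),(2,629350)]) (1,[(1,156),(0,1),(2,1612)]) (49,[(1,41914),(0,26),(2,16399)]))) (.node ⟨-195,390,-698⟩ (.node ⟨-723,390,-50⟩ (.node ⟨195,-50,-798⟩ (.leaf false ⟨⟨-698,390,-195⟩,⟨-390,-723,-50⟩,⟨195,-50,-798⟩⟩ (648,[(2,145),(1,503),(5,60360)]) (349,[(2,25),(5,131235),(4,262077)]) (1,[(0,1)])) (.leaf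 false ⟨⟨-798,-50,195⟩,⟨-195,390,-698⟩,⟨-50,-723,-390⟩⟩ (65,[(3,199593),(0,266),(4,16550)]) (1,[(2,1)]) (39,[(3,23190),(0,10),(4,28697)]))) (.leaf false ⟨⟨-723,-390,-50⟩,⟨-50,195,-798⟩,⟨390,-698,-195⟩⟩ (162,[(1,25),(4,247452),(0,187)]) (648,[(1,773),(4,206292),(0,449)]) (126360,[(1,55475),(4,143518296),(0,281627)]))) (.leaf false ⟨⟨-819,-78,22⟩,⟨22,-429,-702⟩,⟨78,-698,429⟩⟩ (5,[(1,588),(3,4290),(0,1)]) (10,[(1,14698),(3,1925),(0,11)]) (195,[(1,159947),(3,52845),(0,349)])))))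
theorem pf823_ok : pf823.check (ok 823 6 ⟨5, 5, 5⟩) (fun _ r => r) [] = true := by decide +kernel

def pf827 : T := .node ⟨1,0,0⟩ (.node ⟨0,1,0⟩ (.node ⟨0,0,1⟩ (.node ⟨-201,82,798⟩ (.node ⟨-18,802,-201⟩ (.leaf false ⟨⟨-201,82,798⟩,⟨-18,822,-89⟩,⟨802,39,198⟩⟩ (1,[(1,1)]) (401,[(2,46922),(4,180),(0,411)]) (802,[(2,166635),(4,643906),(0,39)])) (.leaf false ⟨⟨-150,-135,802⟩,⟨73,810,150⟩,⟨810,-98,135⟩⟩ (18255,[(3,7411759),(1,14862),(0,13834)]) (67,[(4,3991),(3,94370),(0,50)]) (67,[(4,53460),(3,29524),(0,45)]))) (.leaf false ⟨⟨39,82,822⟩,⟨198,798,-89⟩,⟨802,-201,-18⟩⟩ (67,[(1,65448),(0,13),(2,6560)]) (67,[(1,46705),(0,66),(2,58878)]) (201,[(1,636378),(0,802),(2,25363)]))) (.node ⟨-282,73,-774⟩ (.node ⟨210,730,327⟩ (.node ⟨775,-102,-270⟩ (.leaf false ⟨⟨-278,87,-774⟩,⟨54,822,73⟩,⟨777,-26,-282⟩⟩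 (1,[(5,4),(4,14),(2,1)]) (35,[(3,388),(1,9),(4,22200)]) (51,[(3,10872),(0,13),(5,29552)])) (.leaf false ⟨⟨-798,154,153⟩,⟨-6,567,-602⟩,⟨217,582,546⟩⟩ (51,[(3,12987),(5,18977),(0,77)]) (34,[(3,71498),(5,146271),(0,189)]) (17,[(3,16908),(5,78864),(0,97)]))) (.leaf false ⟨⟨-422,-18,-711⟩,⟨441,642,-278⟩,⟨558,-521,-318⟩⟩ (109,[(4,3772),(3,171048),(0,237)]) (327,[(4,202587),(3,412874),(0,278)]) (109,[(4,83082),(3,20591),(0,106)]))) (.node ⟨654,-423,-278⟩ (.leaf false ⟨⟨82,681,-462⟩,⟨318,402,649⟩,⟨759,-242,-222⟩⟩ (141,[(2,96876),(1,41),(3,99014)]) (47,[(2,10519),(1,53),(3,22763)]) (2168,[(2,4191296),(0,389),(1,4933)])) (.leaf false ⟨⟨-665,450,198⟩,⟨198,550,-585⟩,⟨450,423,550⟩⟩ (71544,[(2,17682848),(1,13005),(0,78355)]) (1084,[(2,6548828),(1,6719),(0,2569)]) (2981,[(2,15183184),(1,19458),(0,6339)])))))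 (.node ⟨0,0,1⟩ (.node ⟨-282,-774,73⟩ (.node ⟨210,327,730⟩ (.node ⟨775,-270,-102⟩ (.leaf false ⟨⟨-278,-774,87⟩,⟨54,73,822⟩,⟨777,-282,-26⟩⟩ (1,[(3,14),(5,4),(2,1)]) (35,[(3,22200),(1,9),(4,388)]) (51,[(5,29552),(0,13),(4,10872)])) (.leaf false ⟨⟨-798,-6,217⟩,⟨153,-602,546⟩,⟨154,567,582⟩⟩ (102,[(5,86779),(4,59202),(0,217)]) (17,[(5,73126),(4,34804),(0,91)]) (17,[(5,77793),(4,16551),(0,97)]))) (.leaf false ⟨⟨-422,-711,-18⟩,⟨441,-278,642⟩,⟨558,-318,-521⟩⟩ (109,[(2,171048),(4,3772),(0,237)]) (327,[(2,412874),(4,202587),(0,278)]) (109,[(2,20591),(4,83082),(0,106)]))) (.node ⟨654,-278,-423⟩ (.leaf false ⟨⟨82,-462,681⟩,⟨318,649,402⟩,⟨759,-222,-242⟩⟩ (141,[(2,99014),(1,41),(3,96876)]) (47,[(2,22763),(1,53),(3,10519)]) (2168,[(1,4933),(0,389),(3,4191296)])) (.leaf false ⟨⟨-665,198,450⟩,⟨198,-585,550⟩,⟨450,550,423⟩⟩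 (71544,[(1,13005),(3,17682848),(0,78355)]) (1084,[(1,6719),(3,6548828),(0,2569)]) (2981,[(1,19458),(3,15183184),(0,6339)])))) (.node ⟨802,-18,201⟩ (.node ⟨-150,-810,73⟩ (.leaf false ⟨⟨-150,-810,73⟩,⟨135,-98,-810⟩,⟨802,-135,150⟩⟩ (1,[(0,1)]) (405,[(2,331627),(4,62025),(0,49)]) (36240,[(2,2424764),(1,37215),(0,5213)])) (.leaf false ⟨⟨18,-663,-494⟩,⟨234,478,-633⟩,⟨793,-126,198⟩⟩ (25,[(2,12131),(0,3),(3,19005)]) (25,[(2,12978),(0,39),(3,19640)]) (802,[(2,597),(1,793),(3,86778)]))) (.node ⟨582,217,-546⟩ (.leaf false ⟨⟨-782,-102,-249⟩,⟨138,-809,-102⟩,⟨231,138,-782⟩⟩ (67,[(4,14172),(3,8328),(1,83)]) (67,[(4,36514),(3,54815),(1,34)]) (33789,[(4,75519467),(1,94346),(0,13662)])) (.leaf false ⟨⟨-822,-87,-26⟩,⟨54,-278,-777⟩,⟨73,-774,282⟩⟩ (4827,[(4,3613820),(0,2565),(1,7592)]) (11263,[(4,99814616),(0,23288),(1,106799)])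 (11263,[(4,126635751),(0,50166),(1,120470)])))))) (.node ⟨0,1,0⟩ (.node ⟨0,0,1⟩ (.node ⟨-774,-282,73⟩ (.node ⟨327,210,730⟩ (.node ⟨-270,775,-102⟩ (.leaf false ⟨⟨-774,-278,87⟩,⟨-282,777,-26⟩,⟨73,54,822⟩⟩ (1,[(3,14),(2,1),(4,4)]) (51,[(5,10872),(0,13),(4,29552)]) (35,[(3,22200),(5,388),(1,9)])) (.leaf false ⟨⟨-822,-54,73⟩,⟨-26,777,282⟩,⟨87,-278,774⟩⟩ (102,[(5,103554),(4,51067),(0,73)]) (17,[(5,13132),(4,49634),(0,47)]) (17,[(5,33351),(4,95249),(0,129)]))) (.leaf false ⟨⟨-777,-282,-26⟩,⟨-278,774,-87⟩,⟨-54,73,822⟩⟩ (109,[(2,186236),(0,259),(3,23652)]) (327,[(2,174491),(0,278),(3,311478)]) (109,[(2,102738),(0,18),(3,11737)]))) (.node ⟨-278,654,-423⟩ (.leaf false ⟨⟨-798,105,190⟩,⟨55,798,-210⟩,⟨210,190,777⟩⟩ (94,[(2,20415),(4,102102),(1,35)]) (97432,[(2,25127028),(0,100357),(1,42969)])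 (141,[(2,116492),(4,43920),(1,95)])) (.leaf false ⟨⟨-822,-54,73⟩,⟨-26,777,282⟩,⟨87,-278,774⟩⟩ (5962,[(4,6892400),(1,2075),(0,1387)]) (23848,[(4,145624960),(1,171033),(0,45415)]) (35772,[(4,174795196),(1,194301),(0,98987)])))) (.node ⟨-18,802,201⟩ (.node ⟨-810,-150,73⟩ (.leaf false ⟨⟨-822,-39,82⟩,⟨-89,198,-798⟩,⟨-18,802,201⟩⟩ (108720,[(2,2186588),(0,109991),(1,15285)]) (810,[(2,652877),(0,89),(3,173730)]) (1,[(1,1)])) (.leaf false ⟨⟨-663,18,-494⟩,⟨-126,793,198⟩,⟨478,234,-633⟩⟩ (25,[(2,12131),(4,19005),(0,3)]) (802,[(2,597),(4,86778),(1,793)]) (25,[(2,12978),(4,19640),(0,39)]))) (.node ⟨217,582,-546⟩ (.leaf false ⟨⟨-822,18,-89⟩,⟨39,802,-198⟩,⟨82,-201,-798⟩⟩ (201,[(4,166824),(3,74996),(1,89)]) (91,[(4,3612),(3,53776),(0,33)]) (184958,[(4,31649241),(0,199865),(1,191394)])) (.leaf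 false ⟨⟨-822,39,82⟩,⟨-89,-198,-798⟩,⟨18,802,-201⟩⟩ (33789,[(3,442294379),(1,431018),(0,163746)]) (11263,[(3,63310848),(1,73920),(0,10751)]) (1,[(3,1604),(1,1)]))))) (.node ⟨0,0,1⟩ (.node ⟨-18,201,802⟩ (.node ⟨-810,73,-150⟩ (.leaf false ⟨⟨-822,82,-39⟩,⟨-89,-798,198⟩,⟨-18,201,802⟩⟩ (26916,[(2,2186588),(1,1069),(0,27291)]) (810,[(2,173730),(0,89),(3,652877)]) (1,[(1,1)])) (.leaf false ⟨⟨-663,-494,18⟩,⟨-126,198,793⟩,⟨478,-633,234⟩⟩ (25,[(4,19005),(3,12131),(0,3)]) (802,[(1,793),(4,86778),(3,597)]) (25,[(4,19640),(3,12978),(0,39)]))) (.node ⟨217,-546,582⟩ (.leaf false ⟨⟨-822,-89,18⟩,⟨39,-198,802⟩,⟨82,-798,-201⟩⟩ (201,[(2,74996),(4,166824),(1,89)]) (91,[(2,53776),(4,3612),(0,33)]) (11263,[(2,31649241),(1,42798),(0,706)])) (.leaf false ⟨⟨-822,54,73⟩,⟨-87,-278,-774⟩,⟨-26,-777,282⟩⟩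 (11263,[(2,149536495),(0,54750),(1,145698)]) (4827,[(2,10487876),(0,3213),(1,15404)]) (11263,[(2,55773164),(0,6404),(1,60935)])))) (.leaf false ⟨⟨-827,0,0⟩,⟨0,-827,0⟩,⟨0,0,-827⟩⟩ (1,[(2,827)]) (1,[(1,827)]) (1,[(0,827)]))))
theorem pf827_ok : pf827.check (ok 827 6 ⟨5, 5, 5⟩) (fun _ r => r) [] = true := by decide +kernel

def pf829 : T := .node ⟨1,0,0⟩ (.node ⟨0,1,0⟩ (.node ⟨0,0,1⟩ (.leaf false ⟨⟨0,0,829⟩,⟨0,829,0⟩,⟨829,0,0⟩⟩ (1,[(0,829)]) (1,[(1,829)]) (1,[(2,829)])) (.node ⟨771,120,280⟩ (.node ⟨21,780,280⟩ (.node ⟨820,-120,-21⟩ (.leaf false ⟨⟨21,280,-780⟩,⟨120,771,280⟩,⟨820,-120,-21⟩⟩ (257,[(3,202420),(2,7),(4,71120)]) (250,[(2,33),(1,217),(4,19530)]) (1,[(0,1)])) (.leaf false ⟨⟨-692,456,-21⟩,⟨309,496,588⟩,⟨336,483,-584⟩⟩ (5,[(3,504),(5,12120),(0,19)]) (555,[(5,343841),(2,1074),(0,1220)])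 (40,[(3,26741),(5,145460),(0,161)]))) (.leaf false ⟨⟨-44,309,-768⟩,⟨363,-684,-296⟩,⟨744,352,99⟩⟩ (13125,[(1,238),(3,32292705),(0,36238)]) (4375,[(1,2247),(3,2098020),(0,6872)]) (70000,[(1,68747),(3,50708020),(0,43997)]))) (.leaf false ⟨⟨-747,204,-296⟩,⟨244,789,-72⟩,⟨264,-152,-771⟩⟩ (35,[(3,2382),(2,11580),(0,37)]) (35,[(3,15479),(2,28695),(0,9)]) (280,[(3,668361),(2,49960),(0,771)])))) (.node ⟨0,0,1⟩ (.node ⟨771,280,120⟩ (.node ⟨21,280,780⟩ (.node ⟨820,-21,-120⟩ (.leaf false ⟨⟨21,-780,280⟩,⟨120,280,771⟩,⟨820,-21,-120⟩⟩ (257,[(3,71120),(2,7),(4,202420)]) (250,[(3,19530),(1,217),(2,33)]) (1,[(0,1)])) (.leaf false ⟨⟨-692,-21,456⟩,⟨309,588,496⟩,⟨336,-584,483⟩⟩ (5,[(5,12120),(4,504),(0,19)]) (555,[(2,1074),(5,343841),(0,1220)]) (40,[(5,145460),(4,26741),(0,161)]))) (.leaf false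 ⟨⟨-44,-768,309⟩,⟨363,-296,-684⟩,⟨744,99,352⟩⟩ (13125,[(2,32292705),(1,238),(0,36238)]) (4375,[(2,2098020),(1,2247),(0,6872)]) (70000,[(2,50708020),(1,68747),(0,43997)]))) (.leaf false ⟨⟨-747,-296,204⟩,⟨244,-72,789⟩,⟨264,-771,-152⟩⟩ (35,[(1,11580),(3,2382),(0,37)]) (35,[(1,28695),(3,15479),(0,9)]) (280,[(1,49960),(3,668361),(0,771)]))) (.node ⟨0,540,-629⟩ (.leaf false ⟨⟨0,-629,-540⟩,⟨0,540,-629⟩,⟨829,0,0⟩⟩ (629,[(0,540),(2,687241)]) (1,[(0,1)]) (1,[(3,829)])) (.leaf false ⟨⟨0,-629,540⟩,⟨0,-540,-629⟩,⟨829,0,0⟩⟩ (540,[(1,104041),(0,629)]) (1,[(1,1258),(0,1)]) (1,[(3,829)]))))) (.node ⟨0,1,0⟩ (.node ⟨0,0,1⟩ (.node ⟨280,120,771⟩ (.node ⟨280,780,21⟩ (.node ⟨-21,-120,820⟩ (.leaf false ⟨⟨-780,280,21⟩,⟨-21,-120,820⟩,⟨280,771,120⟩⟩ (257,[(5,202420),(4,71120),(2,7)]) (1,[(0,1)]) (250,[(4,19530),(1,217),(2,33)]))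 (.leaf false ⟨⟨-780,21,280⟩,⟨-21,820,-120⟩,⟨280,120,771⟩⟩ (40,[(3,16940),(5,31347),(0,7)]) (6,[(3,32900),(5,987),(0,41)]) (1,[(2,1)]))) (.leaf false ⟨⟨-768,309,-44⟩,⟨-296,-684,363⟩,⟨99,352,744⟩⟩ (13125,[(3,32292705),(1,238),(0,36238)]) (4375,[(3,2098020),(1,2247),(0,6872)]) (70000,[(3,50708020),(1,68747),(0,43997)]))) (.leaf false ⟨⟨-771,-152,264⟩,⟨-296,204,-747⟩,⟨-72,789,244⟩⟩ (280,[(1,668361),(0,771),(2,49960)]) (35,[(1,2382),(0,37),(2,11580)]) (35,[(1,15479),(0,9),(2,28695)]))) (.node ⟨540,0,-629⟩ (.leaf false ⟨⟨-629,0,-540⟩,⟨0,829,0⟩,⟨540,0,-629⟩⟩ (629,[(3,687241),(0,540)]) (1,[(2,829)]) (1,[(0,1)])) (.leaf false ⟨⟨-629,0,540⟩,⟨-540,0,-629⟩,⟨0,829,0⟩⟩ (540,[(1,104041),(0,629)]) (1,[(1,1258),(0,1)]) (1,[(2,829)])))) (.node ⟨0,0,1⟩ (.node ⟨540,-629,0⟩ (.leaf false ⟨⟨-629,-540,0⟩,⟨0,0,829⟩,⟨540,-629,0⟩⟩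 (629,[(3,687241),(0,540)]) (1,[(1,829)]) (1,[(0,1)])) (.leaf false ⟨⟨-629,540,0⟩,⟨-540,-629,0⟩,⟨0,0,829⟩⟩ (540,[(0,629),(2,104041)]) (1,[(0,1),(2,1258)]) (1,[(1,829)]))) (.node ⟨-224,396,-693⟩ (.node ⟨-792,-21,244⟩ (.leaf false ⟨⟨-792,-21,244⟩,⟨-224,396,-693⟩,⟨-99,-728,-384⟩⟩ (1,[(0,1)]) (1,[(1,1)]) (8,[(2,3316),(0,1),(3,5803)])) (.leaf false ⟨⟨-728,-384,-99⟩,⟨-21,244,-792⟩,⟨396,-693,-224⟩⟩ (7,[(1,1),(4,4872),(3,3084)]) (82071,[(1,42904),(4,106588675),(0,144540)]) (61,[(4,20196),(3,43449),(0,56)]))) (.leaf false ⟨⟨-828,-36,19⟩,⟨19,-684,-468⟩,⟨36,-467,684⟩⟩ (11,[(1,484),(3,9332),(0,1)]) (11,[(1,18315),(3,4047),(0,19)]) (396,[(1,52767),(3,90352),(0,467)])))))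
theorem pf829_ok : pf829.check (ok 829 6 ⟨5, 5, 5⟩) (fun _ r => r) [] = true := by decide +kernel

def pf835 : T := .node ⟨1,0,0⟩ (.node ⟨0,1,0⟩ (.node ⟨0,0,1⟩ (.leaf false ⟨⟨0,0,835⟩,⟨0,835,0⟩,⟨835,0,0⟩⟩ (1,[(0,835)]) (1,[(1,835)]) (1,[(2,835)])) (.node ⟨-390,273,-686⟩ (.node ⟨150,790,225⟩ (.node ⟨801,-90,-218⟩ (.leaf false ⟨⟨-182,255,-774⟩,⟨150,790,225⟩,⟨801,-90,-218⟩⟩ (15,[(3,6808),(4,1914),(2,7)]) (1,[(1,1)]) (1,[(0,1)])) (.leaf false ⟨⟨-794,255,42⟩,⟨-15,90,-830⟩,⟨258,790,81⟩⟩ (6,[(3,3454),(5,8853),(0,17)]) (1,[(3,1048),(5,786),(0,1)]) (9,[(3,16493),(5,65601),(0,79)]))) (.leaf false ⟨⟨-390,70,-735⟩,⟨385,-690,-270⟩,⟨630,465,-290⟩⟩ (15,[(4,1500),(3,39760),(0,49)]) (5,[(4,2825),(3,1290),(0,6)]) (45,[(4,37050),(3,66745),(0,58)]))) (.leaf false ⟨⟨15,790,-270⟩,⟨426,225,682⟩,⟨718,-150,-399⟩⟩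 (26,[(1,7706),(0,1),(2,20813)]) (65,[(1,4376),(0,71),(2,34008)]) (195,[(1,324079),(0,359),(2,68757)])))) (.node ⟨0,0,1⟩ (.node ⟨-390,-686,273⟩ (.node ⟨150,225,790⟩ (.node ⟨801,-218,-90⟩ (.leaf false ⟨⟨-182,-774,255⟩,⟨150,225,790⟩,⟨801,-218,-90⟩⟩ (15,[(3,1914),(4,6808),(2,7)]) (1,[(1,1)]) (1,[(0,1)])) (.leaf false ⟨⟨-794,-15,258⟩,⟨42,-830,81⟩,⟨255,90,790⟩⟩ (15,[(5,22533),(4,9599),(0,43)]) (10,[(5,7629),(4,10262),(0,9)]) (9,[(5,65574),(4,16412),(0,79)]))) (.leaf false ⟨⟨-390,-735,70⟩,⟨385,-270,-690⟩,⟨630,-290,465⟩⟩ (15,[(2,39760),(4,1500),(0,49)]) (5,[(2,1290),(4,2825),(0,6)]) (45,[(2,66745),(4,37050),(0,58)]))) (.leaf false ⟨⟨15,-270,790⟩,⟨426,682,225⟩,⟨718,-399,-150⟩⟩ (26,[(1,20813),(0,1),(2,7706)]) (65,[(1,34008),(0,71),(2,4376)]) (195,[(1,68757),(0,359),(2,324079)]))) (.node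 ⟨0,501,-668⟩ (.leaf false ⟨⟨0,-668,-501⟩,⟨0,501,-668⟩,⟨835,0,0⟩⟩ (4,[(0,3),(2,4175)]) (1,[(0,1)]) (1,[(3,835)])) (.leaf false ⟨⟨0,-668,501⟩,⟨0,-501,-668⟩,⟨835,0,0⟩⟩ (3,[(1,1169),(0,4)]) (1,[(1,1336),(0,1)]) (1,[(3,835)]))))) (.node ⟨0,1,0⟩ (.node ⟨0,0,1⟩ (.node ⟨-686,-390,273⟩ (.node ⟨225,150,790⟩ (.node ⟨-218,801,-90⟩ (.leaf false ⟨⟨-774,-182,255⟩,⟨-218,801,-90⟩,⟨225,150,790⟩⟩ (15,[(3,1914),(2,7),(5,6808)]) (1,[(0,1)]) (1,[(1,1)])) (.leaf false ⟨⟨-831,-42,70⟩,⟨42,394,735⟩,⟨70,-735,390⟩⟩ (9,[(5,9005),(4,5229),(0,7)]) (6,[(5,10430),(4,41613),(0,49)]) (3,[(5,2624),(4,8208),(0,13)]))) (.leaf false ⟨⟨-801,-218,-90⟩,⟨-182,774,-255⟩,⟨-150,225,790⟩⟩ (25,[(2,68060),(0,89),(3,7900)]) (225,[(2,86405),(0,182),(3,201450)]) (3,[(2,3950),(0,2),(3,975)]))) (.leaf false ⟨⟨-830,63,66⟩,⟨15,690,-470⟩,⟨90,466,687⟩⟩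 (130,[(1,14313),(3,122306),(0,21)]) (13,[(1,169),(3,15583),(0,23)]) (195,[(1,197574),(3,142288),(0,233)]))) (.node ⟨501,0,-668⟩ (.leaf false ⟨⟨-668,0,-501⟩,⟨0,835,0⟩,⟨501,0,-668⟩⟩ (4,[(3,4175),(0,3)]) (1,[(2,835)]) (1,[(0,1)])) (.leaf false ⟨⟨-668,0,501⟩,⟨-501,0,-668⟩,⟨0,835,0⟩⟩ (3,[(1,1169),(0,4)]) (1,[(1,1336),(0,1)]) (1,[(2,835)])))) (.node ⟨0,0,1⟩ (.node ⟨501,-668,0⟩ (.leaf false ⟨⟨-668,-501,0⟩,⟨0,0,835⟩,⟨501,-668,0⟩⟩ (4,[(3,4175),(0,3)]) (1,[(1,835)]) (1,[(0,1)])) (.leaf false ⟨⟨-668,501,0⟩,⟨-501,-668,0⟩,⟨0,0,835⟩⟩ (3,[(0,4),(2,1169)]) (1,[(0,1),(2,1336)]) (1,[(1,835)]))) (.node ⟨-510,465,-470⟩ (.node ⟨225,-290,-750⟩ (.node ⟨-321,-722,270⟩ (.leaf false ⟨⟨-750,225,-290⟩,⟨-321,-722,270⟩,⟨178,-354,-735⟩⟩ (31,[(3,1940),(2,15),(5,15600)]) (1,[(0,1)]) (50,[(5,2125),(4,3490),(1,49)]))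 (.leaf false ⟨⟨-830,63,-66⟩,⟨-15,-690,-470⟩,⟨90,466,-687⟩⟩ (45,[(5,40881),(4,5107),(0,11)]) (27,[(5,15492),(4,52564),(0,47)]) (90,[(5,65409),(4,123398),(0,229)]))) (.leaf false ⟨⟨-794,15,-258⟩,⟨-255,90,790⟩,⟨-42,-830,81⟩⟩ (225,[(2,653550),(0,794),(3,226885)]) (15,[(2,900),(0,17),(3,3580)]) (75,[(2,4425),(0,14),(3,66310)]))) (.leaf false ⟨⟨-830,-66,63⟩,⟨-15,-470,-690⟩,⟨90,-687,466⟩⟩ (155,[(1,575),(3,139870),(0,22)]) (93,[(1,108350),(3,49335),(0,94)]) (155,[(1,35400),(3,102840),(0,229)])))))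
theorem pf835_ok : pf835.check (ok 835 6 ⟨5, 5, 5⟩) (fun _ r => r) [] = true := by decide +kernel

def pf839 : T := .node ⟨1,0,0⟩ (.node ⟨0,1,0⟩ (.node ⟨0,0,1⟩ (.node ⟨-210,61,810⟩ (.node ⟨-210,790,-189⟩ (.leaf false ⟨⟨-210,61,810⟩,⟨-189,810,-110⟩,⟨790,210,189⟩⟩ (1,[(1,1)]) (79,[(2,6619),(4,2079),(0,81)]) (79,[(2,18900),(4,66820),(0,21)])) (.leaf false ⟨⟨-182,6,819⟩,⟨534,637,114⟩,⟨621,-546,142⟩⟩ (555,[(3,21374),(1,546),(0,65)]) (63,[(4,25662),(3,70151),(0,38)]) (189,[(4,87549),(3,8986),(0,142)]))) (.leaf false ⟨⟨42,826,141⟩,⟨474,93,-686⟩,⟨691,-114,462⟩⟩ (5,[(1,1515),(0,1),(2,4191)]) (35,[(1,39980),(0,79),(2,8074)]) (210,[(1,656730),(0,691),(2,18211)]))) (.node ⟨-290,186,-765⟩ (.node ⟨115,810,186⟩ (.node ⟨786,-45,-290⟩ (.leaf false ⟨⟨-270,214,-765⟩,⟨115,810,186⟩,⟨786,-45,-290⟩⟩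 (1,[(5,20),(4,28),(2,1)]) (1,[(1,1)]) (1,[(0,1)])) (.leaf false ⟨⟨-810,115,186⟩,⟨45,786,-290⟩,⟨214,270,765⟩⟩ (9,[(3,4996),(5,10788),(0,23)]) (15,[(3,80330),(5,206607),(0,262)]) (1,[(3,975),(5,4930),(0,6)]))) (.leaf false ⟨⟨-398,189,-714⟩,⟨189,-758,-306⟩,⟨714,306,-317⟩⟩ (31,[(4,1347),(3,102249),(0,119)]) (31,[(4,11724),(3,17812),(0,51)]) (186,[(4,169259),(3,313686),(0,317)]))) (.leaf false ⟨⟨18,669,-506⟩,⟨306,466,627⟩,⟨781,-198,-234⟩⟩ (145,[(1,80255),(0,9),(2,98679)]) (145,[(1,26130),(0,153),(2,96028)]) (290,[(1,665325),(0,781),(2,87846)])))) (.node ⟨0,0,1⟩ (.node ⟨-290,-765,186⟩ (.node ⟨115,186,810⟩ (.node ⟨786,-290,-45⟩ (.leaf false ⟨⟨-270,-765,214⟩,⟨115,186,810⟩,⟨786,-290,-45⟩⟩ (1,[(3,28),(5,20),(2,1)]) (1,[(1,1)]) (1,[(0,1)])) (.leaf false ⟨⟨-810,45,214⟩,⟨115,786,270⟩,⟨186,-290,765⟩⟩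 (45,[(5,131754),(4,60035),(0,214)]) (1,[(5,4831),(4,954),(0,6)]) (1,[(5,13548),(4,5220),(0,17)]))) (.leaf false ⟨⟨-398,-714,189⟩,⟨189,-306,-758⟩,⟨714,-317,306⟩⟩ (31,[(2,102249),(4,1347),(0,119)]) (31,[(2,17812),(4,11724),(0,51)]) (186,[(2,313686),(4,169259),(0,317)]))) (.leaf false ⟨⟨18,-506,669⟩,⟨306,627,466⟩,⟨781,-234,-198⟩⟩ (145,[(1,98679),(0,9),(2,80255)]) (145,[(1,96028),(0,153),(2,26130)]) (290,[(1,87846),(0,781),(2,665325)]))) (.node ⟨138,259,-786⟩ (.node ⟨138,-786,259⟩ (.node ⟨486,-474,493⟩ (.node ⟨-189,-642,-506⟩ (.node ⟨582,259,-546⟩ (.leaf false ⟨⟨-189,-642,-506⟩,⟨574,-474,387⟩,⟨582,259,-546⟩⟩ (1,[(1,1)]) (1,[(5,106),(7,88),(2,1)]) (1,[(0,1)])) (.leaf false ⟨⟨-819,-182,-6⟩,⟨114,-534,637⟩,⟨142,-621,-546⟩⟩ (1480,[(4,2403),(7,460092),(0,3443)]) (62160,[(4,126581),(7,137877324),(0,254741)])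 (259,[(4,2002),(7,1287088),(0,2623)]))) (.leaf false ⟨⟨6,-819,-182⟩,⟨546,142,-621⟩,⟨637,-114,534⟩⟩ (63,[(4,12478),(0,2),(5,52881)]) (9,[(4,18745),(0,26),(5,15414)]) (27,[(4,31628),(0,91),(5,61500)]))) (.leaf false ⟨⟨-614,-306,-483⟩,⟨378,-749,-6⟩,⟨429,222,-686⟩⟩ (22061,[(5,671972),(1,31650),(0,38241)]) (264732,[(5,145290360),(1,372101),(0,198707)]) (44122,[(5,52984362),(1,35953),(0,80283)]))) (.leaf false ⟨⟨-306,466,-627⟩,⟨18,-669,-506⟩,⟨781,198,-234⟩⟩ (259,[(4,7272),(3,372128),(0,627)]) (259,[(4,74490),(3,570987),(0,506)]) (259,[(4,234571),(3,132642),(0,234)]))) (.leaf false ⟨⟨-306,-627,466⟩,⟨18,-506,-669⟩,⟨781,-234,198⟩⟩ (259,[(1,372128),(3,7272),(0,627)]) (259,[(1,570987),(3,74490),(0,506)]) (259,[(1,132642),(3,234571),(0,234)]))))) (.node ⟨0,1,0⟩ (.node ⟨0,0,1⟩ (.node ⟨-765,-290,186⟩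 (.node ⟨186,115,810⟩ (.node ⟨-290,786,-45⟩ (.leaf false ⟨⟨-765,-270,214⟩,⟨-290,786,-45⟩,⟨186,115,810⟩⟩ (1,[(3,28),(2,1),(4,20)]) (1,[(0,1)]) (1,[(1,1)])) (.leaf false ⟨⟨-810,45,214⟩,⟨115,786,270⟩,⟨186,-290,765⟩⟩ (45,[(5,98510),(4,170229),(0,214)]) (1,[(5,1625),(4,5502),(0,6)]) (1,[(5,4744),(4,13072),(0,17)]))) (.leaf false ⟨⟨-803,-234,66⟩,⟨-234,682,-429⟩,⟨-66,429,718⟩⟩ (186,[(2,662706),(0,803),(3,48821)]) (31,[(2,18291),(0,39),(3,25627)]) (31,[(2,31168),(0,11),(3,14564)]))) (.leaf false ⟨⟨-810,115,186⟩,⟨45,786,-290⟩,⟨214,270,765⟩⟩ (58,[(1,15066),(3,64575),(0,23)]) (145,[(1,31048),(3,294120),(0,393)]) (29,[(1,27207),(3,14449),(0,27)]))) (.node ⟨259,138,-786⟩ (.node ⟨-786,138,259⟩ (.node ⟨-474,486,493⟩ (.node ⟨-642,-189,-506⟩ (.node ⟨259,582,-546⟩ (.leaf false ⟨⟨-642,-189,-506⟩,⟨-474,574,387⟩,⟨259,582,-546⟩⟩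 (1,[(1,1)]) (1,[(5,106),(2,1),(6,88)]) (1,[(0,1)])) (.leaf false ⟨⟨-830,-45,114⟩,⟨-114,570,-605⟩,⟨-45,-614,-570⟩⟩ (10360,[(6,50206596),(4,70609),(0,103809)]) (62160,[(6,148563636),(4,218939),(0,246299)]) (518,[(6,371468),(4,1435),(0,1525)]))) (.leaf false ⟨⟨-819,6,-182⟩,⟨-114,637,534⟩,⟨142,546,-621⟩⟩ (63,[(4,12478),(6,52881),(0,2)]) (27,[(4,31628),(6,61500),(0,91)]) (9,[(4,18745),(6,15414),(0,26)]))) (.leaf false ⟨⟨-830,-114,-45⟩,⟨-45,570,-614⟩,⟨114,-605,-570⟩⟩ (66183,[(1,107630),(4,8018508),(0,62585)]) (88244,[(1,104407),(4,115960872),(0,164753)]) (44122,[(1,35663),(4,2282710),(0,69749)]))) (.leaf false ⟨⟨-810,189,-110⟩,⟨61,-210,-810⟩,⟨210,790,-189⟩⟩ (259,[(4,296250),(3,64131),(0,110)]) (259,[(4,620861),(3,57390),(0,810)]) (37,[(4,13452),(3,32956),(0,27)]))) (.leaf false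 ⟨⟨-810,-210,61⟩,⟨-189,790,210⟩,⟨-110,189,-810⟩⟩ (259,[(1,620861),(0,810),(2,57390)]) (37,[(1,13452),(0,27),(2,32956)]) (259,[(1,296250),(0,110),(2,64131)])))) (.node ⟨0,0,1⟩ (.node ⟨259,-786,138⟩ (.node ⟨-786,259,138⟩ (.node ⟨493,-474,486⟩ (.node ⟨-506,-642,-189⟩ (.node ⟨-546,259,582⟩ (.leaf false ⟨⟨-546,259,582⟩,⟨-506,-642,-189⟩,⟨387,-474,574⟩⟩ (1,[(0,1)]) (1,[(1,1)]) (1,[(5,88),(7,106),(2,1)])) (.leaf false ⟨⟨-830,-114,45⟩,⟨45,-570,-614⟩,⟨114,-605,570⟩⟩ (31080,[(5,70901868),(3,138607),(0,152287)]) (4144,[(5,11630548),(3,19971),(0,29091)]) (5180,[(5,21124548),(3,25067),(0,37167)]))) (.leaf false ⟨⟨-819,-182,6⟩,⟨-114,534,637⟩,⟨142,-621,546⟩⟩ (63,[(6,52609),(5,12750),(0,2)]) (27,[(6,49124),(5,44004),(0,91)]) (9,[(6,11878),(5,22281),(0,26)]))) (.leaf false ⟨⟨-810,-110,-189⟩,⟨-210,189,790⟩,⟨61,-810,210⟩⟩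 (132366,[(3,106380546),(0,332575),(2,219085)]) (88244,[(3,88229720),(0,38703),(2,2121)]) (22061,[(3,6927708),(0,13487),(2,30868)]))) (.leaf false ⟨⟨-810,-110,189⟩,⟨61,-810,-210⟩,⟨210,-189,790⟩⟩ (259,[(2,64131),(4,296250),(0,110)]) (259,[(2,57390),(4,620861),(0,810)]) (37,[(2,32956),(4,13452),(0,27)]))) (.leaf false ⟨⟨-810,61,-210⟩,⟨-189,210,790⟩,⟨-110,-810,189⟩⟩ (259,[(1,57390),(0,810),(2,620861)]) (37,[(1,32956),(0,27),(2,13452)]) (259,[(1,64131),(0,110),(2,296250)]))) (.leaf false ⟨⟨-839,0,0⟩,⟨0,-839,0⟩,⟨0,0,-839⟩⟩ (1,[(2,839)]) (1,[(1,839)]) (1,[(0,839)]))))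
theorem pf839_ok : pf839.check (ok 839 6 ⟨5, 5, 5⟩) (fun _ r => r) [] = true := by decide +kernel

def pf841 : T := .node ⟨1,0,0⟩ (.node ⟨0,1,0⟩ (.node ⟨0,0,1⟩ (.leaf false ⟨⟨0,0,841⟩,⟨0,841,0⟩,⟨841,0,0⟩⟩ (1,[(0,841)]) (1,[(1,841)]) (1,[(2,841)])) (.node ⟨-41,0,-840⟩ (.leaf false ⟨⟨-41,0,-840⟩,⟨0,841,0⟩,⟨840,0,-41⟩⟩ (1,[(0,1)]) (1,[(2,841)]) (840,[(3,707281),(0,41)])) (.leaf false ⟨⟨0,841,0⟩,⟨580,0,-609⟩,⟨609,0,580⟩⟩ (1,[(2,841)]) (41,[(1,512169),(0,580)]) (41,[(1,487780),(0,609)])))) (.node ⟨0,0,1⟩ (.node ⟨-41,-840,0⟩ (.leaf false ⟨⟨-41,-840,0⟩,⟨0,0,841⟩,⟨840,-41,0⟩⟩ (1,[(0,1)]) (1,[(1,841)]) (840,[(3,707281),(0,41)])) (.leaf false ⟨⟨0,0,841⟩,⟨580,-609,0⟩,⟨609,580,0⟩⟩ (1,[(1,841)]) (41,[(0,580),(2,512169)]) (41,[(0,609),(2,487780)]))) (.node ⟨-264,-788,-129⟩ (.node ⟨264,184,-777⟩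 (.node ⟨759,-312,184⟩ (.leaf false ⟨⟨-248,-759,-264⟩,⟨264,184,-777⟩,⟨759,-312,184⟩⟩ (33,[(3,4713),(4,619),(2,31)]) (1,[(1,1)]) (1,[(0,1)])) (.leaf false ⟨⟨-816,-32,-201⟩,⟨87,696,-464⟩,⟨184,-471,-672⟩⟩ (184,[(5,2415),(4,68600),(0,201)]) (23,[(5,46023),(4,2088),(0,58)]) (23,[(5,67988),(4,37041),(0,84)]))) (.leaf false ⟨⟨-648,-536,9⟩,⟨256,-297,744⟩,⟨471,-576,-392⟩⟩ (23,[(2,51852),(4,2784),(0,67)]) (184,[(2,93873),(4,125512),(0,297)]) (23,[(2,64960),(4,29841),(0,72)]))) (.leaf false ⟨⟨12,-441,-716⟩,⟨256,684,-417⟩,⟨801,-212,144⟩⟩ (22,[(1,15881),(0,1),(2,10490)]) (33,[(1,17889),(0,32),(2,2644)]) (88,[(1,21771),(0,267),(2,229052)]))))) (.node ⟨0,1,0⟩ (.node ⟨0,0,1⟩ (.node ⟨-840,-41,0⟩ (.leaf false ⟨⟨-840,-41,0⟩,⟨-41,840,0⟩,⟨0,0,841⟩⟩ (1,[(0,1)]) (840,[(0,41),(2,707281)]) (1,[(1,841)]))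 (.leaf false ⟨⟨-609,580,0⟩,⟨0,0,841⟩,⟨580,609,0⟩⟩ (41,[(3,512169),(0,580)]) (1,[(1,841)]) (41,[(3,487780),(0,609)]))) (.node ⟨-129,-264,-788⟩ (.node ⟨-777,264,184⟩ (.node ⟨184,759,-312⟩ (.leaf false ⟨⟨-777,264,184⟩,⟨-264,-248,-759⟩,⟨184,759,-312⟩⟩ (1,[(1,1)]) (33,[(3,619),(2,31),(5,4713)]) (1,[(0,1)])) (.leaf false ⟨⟨-824,-63,156⟩,⟨-129,-264,-788⟩,⟨-108,796,-249⟩⟩ (23,[(3,28548),(0,103),(4,76728)]) (184,[(3,185240),(0,129),(4,49335)]) (46,[(3,19878),(0,27),(4,57109)]))) (.leaf false ⟨⟨-824,-108,-129⟩,⟨-63,796,-264⟩,⟨156,-249,-788⟩⟩ (184,[(4,251849),(3,14184),(0,129)]) (23,[(4,27090),(3,27020),(0,33)]) (46,[(4,145893),(3,40554),(0,197)]))) (.leaf false ⟨⟨-840,40,-9⟩,⟨9,360,760⟩,⟨40,759,-360⟩⟩ (33,[(1,4237),(3,28365),(0,5)]) (11,[(1,3460),(3,1836),(0,15)]) (8,[(1,21004),(3,2647),(0,23)]))))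 (.node ⟨0,0,1⟩ (.node ⟨-129,-788,-264⟩ (.node ⟨-777,184,264⟩ (.node ⟨184,-312,759⟩ (.leaf false ⟨⟨-777,184,264⟩,⟨-264,-759,-248⟩,⟨184,-312,759⟩⟩ (1,[(1,1)]) (33,[(5,4713),(2,31),(4,619)]) (1,[(0,1)])) (.leaf false ⟨⟨-824,156,-63⟩,⟨-129,-788,-264⟩,⟨-108,-249,796⟩⟩ (23,[(3,76728),(0,103),(4,28548)]) (184,[(3,49335),(0,129),(4,185240)]) (46,[(3,57109),(0,27),(4,19878)]))) (.leaf false ⟨⟨-824,-156,63⟩,⟨108,-249,796⟩,⟨129,-788,-264⟩⟩ (46,[(2,13194),(4,68207),(0,39)]) (184,[(2,212200),(4,173601),(0,249)]) (46,[(2,39864),(4,147135),(0,197)]))) (.leaf false ⟨⟨-840,-9,40⟩,⟨9,760,360⟩,⟨40,-360,759⟩⟩ (33,[(3,28365),(2,4237),(0,5)]) (11,[(3,1836),(2,3460),(0,15)]) (8,[(3,2647),(2,21004),(0,23)]))) (.node ⟨-212,441,-684⟩ (.node ⟨-761,-228,276⟩ (.node ⟨84,-744,-383⟩ (.leaf false ⟨⟨-761,-228,276⟩,⟨-348,319,-696⟩,⟨84,-744,-383⟩⟩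 (1,[(1,1)]) (57,[(2,58),(5,7540),(4,7395)]) (1,[(0,1)])) (.leaf false ⟨⟨-824,-63,156⟩,⟨-129,-264,-788⟩,⟨-108,796,-249⟩⟩ (21,[(3,75622),(0,206),(4,154587)]) (28,[(3,38533),(0,43),(4,39384)]) (7,[(3,5190),(0,9),(4,1124)]))) (.leaf false ⟨⟨-824,-144,-87⟩,⟨-9,472,-696⟩,⟨168,-681,-464⟩⟩ (92,[(4,97877),(3,19860),(0,29)]) (23,[(4,44345),(3,2368),(0,58)]) (69,[(4,76684),(3,73437),(0,116)]))) (.leaf false ⟨⟨-824,-168,9⟩,⟨87,-464,-696⟩,⟨144,-681,472⟩⟩ (21,[(1,5283),(3,19000),(0,8)]) (441,[(1,624312),(3,60001),(0,464)]) (147,[(1,85884),(3,26956),(0,227)])))))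
theorem pf841_ok : pf841.check (ok 841 6 ⟨5, 5, 5⟩) (fun _ r => r) [] = true := by decide +kernel

def pf853 : T := .node ⟨1,0,0⟩ (.node ⟨0,1,0⟩ (.node ⟨0,0,1⟩ (.leaf false ⟨⟨0,0,853⟩,⟨0,853,0⟩,⟨853,0,0⟩⟩ (1,[(0,853)]) (1,[(1,853)]) (1,[(2,853)])) (.node ⟨0,828,205⟩ (.leaf false ⟨⟨0,205,-828⟩,⟨0,828,205⟩,⟨853,0,0⟩⟩ (828,[(1,727609),(0,205)]) (1,[(0,1)]) (1,[(3,853)])) (.node ⟨-243,592,-564⟩ (.leaf false ⟨⟨-243,-96,-812⟩,⟨448,693,-216⟩,⟨684,-488,-147⟩⟩ (205,[(1,248),(3,64304),(0,205)]) (47,[(4,25430),(3,21915),(0,18)]) (205,[(1,147),(4,140220),(3,21676)])) (.leaf false ⟨⟨0,853,0⟩,⟨205,0,-828⟩,⟨828,0,205⟩⟩ (1,[(3,853)]) (49815,[(1,316824),(0,42025),(3,287209072)]) (5535,[(1,46353),(0,18860),(3,49545404)]))))) (.node ⟨0,0,1⟩ (.node ⟨0,205,828⟩ (.leaf false ⟨⟨0,-828,205⟩,⟨0,205,828⟩,⟨853,0,0⟩⟩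 (828,[(0,205),(2,727609)]) (1,[(0,1)]) (1,[(3,853)])) (.node ⟨-243,-564,592⟩ (.leaf false ⟨⟨-243,-816,52⟩,⟨564,-128,627⟩,⟨592,-213,-576⟩⟩ (205,[(2,97956),(1,252),(0,205)]) (141,[(2,69463),(4,87300),(0,32)]) (205,[(2,58284),(4,121360),(1,213)])) (.leaf false ⟨⟨0,0,853⟩,⟨205,-828,0⟩,⟨828,205,0⟩⟩ (1,[(2,853)]) (49815,[(2,287209072),(0,42025),(1,316824)]) (5535,[(2,49545404),(0,18860),(1,46353)])))) (.node ⟨-252,-812,-69⟩ (.node ⟨772,252,-261⟩ (.node ⟨-252,-69,-812⟩ (.leaf false ⟨⟨-252,-69,-812⟩,⟨261,-812,-12⟩,⟨772,252,-261⟩⟩ (1,[(0,1)]) (23,[(5,7011),(4,15428),(2,4)]) (1,[(1,1)])) (.leaf false ⟨⟨-252,-812,-69⟩,⟨261,-12,-812⟩,⟨772,-261,252⟩⟩ (1,[(2,1)]) (20804,[(3,36125403),(0,23884),(2,2337)]) (743,[(1,743),(0,513),(2,513)]))) (.leaf false ⟨⟨-789,-312,88⟩,⟨88,-429,-732⟩,⟨312,-668,429⟩⟩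 (21,[(2,4938),(4,3503),(0,26)]) (84,[(2,98811),(4,117788),(0,143)]) (63,[(2,16560),(4,148580),(0,167)]))) (.leaf false ⟨⟨108,124,-837⟩,⟨124,-837,-108⟩,⟨837,108,124⟩⟩ (7,[(1,6066),(0,3),(2,1568)]) (63,[(1,8943),(0,31),(2,77903)]) (28,[(1,2945),(0,93),(2,72492)]))))) (.node ⟨0,1,0⟩ (.node ⟨0,0,1⟩ (.node ⟨205,0,828⟩ (.leaf false ⟨⟨-828,0,205⟩,⟨0,853,0⟩,⟨205,0,828⟩⟩ (828,[(3,727609),(0,205)]) (1,[(2,853)]) (1,[(0,1)])) (.node ⟨-564,-243,592⟩ (.leaf false ⟨⟨-837,-164,12⟩,⟨-164,828,-123⟩,⟨-12,123,844⟩⟩ (73544,[(0,86937),(1,61092),(3,9064475)]) (5,[(2,2697),(1,4),(3,4140)]) (47,[(2,39076),(0,1),(3,6024)])) (.leaf false ⟨⟨-840,75,-128⟩,⟨-20,672,525⟩,⟨147,520,-660⟩⟩ (3321,[(2,13784096),(1,16428),(0,1025)]) (16605,[(2,141849833),(1,127956),(0,45920)]) (49815,[(2,243488152),(1,257559),(0,106600)]))))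 (.node ⟨-812,-252,-69⟩ (.node ⟨252,772,-261⟩ (.node ⟨-69,-252,-812⟩ (.leaf false ⟨⟨-812,261,-12⟩,⟨-69,-252,-812⟩,⟨252,772,-261⟩⟩ (23,[(2,4),(5,15428),(4,7011)]) (1,[(0,1)]) (1,[(1,1)])) (.leaf false ⟨⟨-840,-147,-20⟩,⟨-128,660,525⟩,⟨-75,520,-672⟩⟩ (8916,[(3,3085679),(2,9597),(0,4396)]) (15603,[(3,29807674),(2,6483),(0,47348)]) (28168,[(3,12520176),(2,9447),(1,22057)]))) (.leaf false ⟨⟨-812,-261,-12⟩,⟨-252,772,261⟩,⟨-69,252,-812⟩⟩ (9,[(2,7677),(0,29),(3,20039)]) (1,[(0,1),(3,1544)]) (84,[(2,74211),(0,23),(3,38924)]))) (.leaf false ⟨⟨-837,124,-108⟩,⟨108,837,124⟩,⟨124,108,-837⟩⟩ (63,[(1,8943),(3,77903),(0,31)]) (28,[(1,2945),(3,72492),(0,93)]) (7,[(1,6066),(3,1568),(0,3)])))) (.node ⟨0,0,1⟩ (.node ⟨-812,-69,-252⟩ (.node ⟨252,-261,772⟩ (.node ⟨-69,-812,-252⟩ (.leaf false ⟨⟨-812,-12,261⟩,⟨-69,-812,-252⟩,⟨252,-261,772⟩⟩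 (23,[(3,7011),(5,15428),(2,4)]) (1,[(0,1)]) (1,[(1,1)])) (.leaf false ⟨⟨-840,-128,75⟩,⟨-20,525,672⟩,⟨147,-660,520⟩⟩ (62412,[(2,72285),(4,76779391),(0,90860)]) (2229,[(2,612),(4,4111019),(0,6556)]) (853,[(4,1725619),(1,97),(0,1463)]))) (.leaf false ⟨⟨-812,-69,-252⟩,⟨-261,252,772⟩,⟨-12,-812,261⟩⟩ (9,[(2,20120),(0,29),(3,8190)]) (28,[(2,44004),(0,29),(3,513)]) (21,[(2,6253),(0,1),(3,17313)]))) (.leaf false ⟨⟨-837,-108,124⟩,⟨108,124,837⟩,⟨124,-837,108⟩⟩ (63,[(3,77903),(2,8943),(0,31)]) (28,[(3,72492),(2,2945),(0,93)]) (7,[(3,1568),(2,6066),(0,3)]))) (.node ⟨-371,372,-672⟩ (.node ⟨-768,-168,331⟩ (.leaf false ⟨⟨-768,-168,331⟩,⟨-371,372,-672⟩,⟨-12,-749,-408⟩⟩ (1,[(0,1)]) (1,[(1,1)]) (64,[(2,26443),(0,1),(3,47768)])) (.leaf false ⟨⟨-768,-371,-12⟩,⟨-168,372,-749⟩,⟨331,-672,-408⟩⟩ (56,[(1,1),(4,42637),(3,21148)])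 (331,[(4,630840),(3,2700),(0,749)]) (331,[(4,203783),(3,290976),(0,408)]))) (.leaf false ⟨⟨-843,-128,24⟩,⟨88,-444,723⟩,⟨96,-717,-452⟩⟩ (93,[(1,19272),(3,90271),(0,32)]) (31,[(1,2451),(3,10999),(0,37)]) (124,[(1,216656),(3,76765),(0,239)])))))
theorem pf853_ok : pf853.check (ok 853 6 ⟨5, 5, 5⟩) (fun _ r => r) [] = true := by decide +kernel

def pf857 : T := .node ⟨1,0,0⟩ (.node ⟨0,1,0⟩ (.node ⟨0,0,1⟩ (.node ⟨-324,183,772⟩ (.node ⟨124,828,-183⟩ (.node ⟨772,-303,216⟩ (.leaf false ⟨⟨-303,216,772⟩,⟨124,828,-183⟩,⟨792,-47,324⟩⟩ (1,[(5,21),(4,33),(2,1)]) (1,[(1,1)]) (193,[(3,19764),(0,198),(4,50923)])) (.leaf false ⟨⟨-792,313,-96⟩,⟨16,288,807⟩,⟨327,744,-272⟩⟩ (303,[(3,38520),(5,1660),(0,313)]) (101,[(3,102243),(5,75728),(0,96)]) (101,[(3,26096),(5,224483),(0,248)]))) (.leaf false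 ⟨⟨-465,168,700⟩,⟨168,-785,300⟩,⟨700,300,393⟩⟩ (183,[(4,1705),(3,610344),(0,700)]) (61,[(4,22648),(3,34915),(0,100)]) (61,[(4,58944),(3,126768),(0,131)]))) (.leaf false ⟨⟨48,79,852⟩,⟨369,768,-92⟩,⟨772,-372,-9⟩⟩ (27,[(1,26092),(0,4),(2,2865)]) (36,[(1,28340),(0,41),(2,35151)]) (81,[(1,148267),(0,193),(2,5187)]))) (.node ⟨-209,828,-72⟩ (.node ⟨-72,-209,-828⟩ (.leaf false ⟨⟨-209,828,-72⟩,⟨-72,-92,-849⟩,⟨828,201,-92⟩⟩ (1,[(1,1)]) (276,[(4,504),(3,33755),(0,283)]) (9,[(4,7524),(3,2018),(0,1)])) (.leaf false ⟨⟨-168,825,160⟩,⟨25,168,-840⟩,⟨840,160,57⟩⟩ (175158,[(4,1064351),(0,47970),(1,162415)]) (69,[(2,56952),(4,4651),(1,14)]) (209,[(2,120567),(4,164040),(0,160)]))) (.leaf false ⟨⟨0,0,-857⟩,⟨232,-825,0⟩,⟨825,232,0⟩⟩ (1,[(1,857)]) (209,[(1,16704),(0,232),(2,19671)]) (19,[(1,5400),(0,75),(2,66508)]))))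 (.node ⟨0,0,1⟩ (.node ⟨-209,-72,828⟩ (.node ⟨-72,-828,-209⟩ (.leaf false ⟨⟨-209,-72,828⟩,⟨-72,-849,-92⟩,⟨828,-92,201⟩⟩ (1,[(1,1)]) (276,[(2,33755),(4,504),(0,283)]) (9,[(2,2018),(4,7524),(0,1)])) (.leaf false ⟨⟨-168,25,840⟩,⟨160,-840,57⟩,⟨825,168,160⟩⟩ (700632,[(4,20720519),(1,690295),(0,81180)]) (11,[(4,1544),(3,11724),(0,3)]) (209,[(4,160905),(3,97368),(0,160)]))) (.leaf false ⟨⟨0,-857,0⟩,⟨232,0,-825⟩,⟨825,0,232⟩⟩ (1,[(2,857)]) (209,[(1,19671),(0,232),(2,16704)]) (19,[(1,66508),(0,75),(2,5400)]))) (.node ⟨825,0,232⟩ (.leaf false ⟨⟨0,-857,0⟩,⟨232,0,-825⟩,⟨825,0,232⟩⟩ (1,[(2,857)]) (825,[(1,734449),(0,232)]) (1,[(0,1)])) (.node ⟨348,376,-687⟩ (.leaf false ⟨⟨-792,16,-327⟩,⟨96,-807,-272⟩,⟨313,288,-744⟩⟩ (10904,[(4,2748435),(1,13995),(0,464)]) (29,[(4,30834),(3,23403),(1,34)])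 (2726,[(4,2237789),(1,2559),(0,2088)])) (.leaf false ⟨⟨-812,-273,-24⟩,⟨183,-596,588⟩,⟨204,-552,-623⟩⟩ (87232,[(4,113382919),(0,63336),(1,196575)]) (21808,[(4,54870603),(0,34568),(1,47091)]) (2726,[(4,17764875),(0,4002),(1,19171)])))))) (.node ⟨0,1,0⟩ (.node ⟨0,0,1⟩ (.node ⟨-72,828,-209⟩ (.node ⟨-828,-209,-72⟩ (.leaf false ⟨⟨-849,-92,-72⟩,⟨-92,201,828⟩,⟨-72,828,-209⟩⟩ (276,[(2,504),(0,283),(3,33755)]) (9,[(2,7524),(0,1),(3,2018)]) (1,[(1,1)])) (.leaf false ⟨⟨-840,57,160⟩,⟨25,840,-168⟩,⟨168,160,825⟩⟩ (11,[(2,1544),(4,11724),(0,3)]) (700632,[(2,20720519),(1,690295),(0,81180)]) (209,[(2,160905),(4,97368),(0,160)]))) (.leaf false ⟨⟨-857,0,0⟩,⟨0,-825,232⟩,⟨0,232,825⟩⟩ (1,[(3,857)]) (209,[(3,16704),(2,19671),(0,232)]) (19,[(3,5400),(2,66508),(0,75)]))) (.node ⟨0,825,232⟩ (.leaf false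 ⟨⟨-857,0,0⟩,⟨0,232,-825⟩,⟨0,825,232⟩⟩ (1,[(3,857)]) (825,[(1,734449),(0,232)]) (1,[(0,1)])) (.node ⟨376,348,-687⟩ (.leaf false ⟨⟨-852,9,-92⟩,⟨48,772,-369⟩,⟨79,-372,-768⟩⟩ (58,[(1,23),(4,49416),(3,19497)]) (229,[(4,35256),(3,133984),(0,123)]) (215837,[(1,174276),(4,51543309),(0,182432)])) (.leaf false ⟨⟨-828,-183,124⟩,⟨-216,772,-303⟩,⟨-47,-324,-792⟩⟩ (21808,[(1,130553),(0,48024),(3,120427713)]) (5452,[(1,16395),(0,3132),(3,18824755)]) (1856,[(1,7023),(0,232),(3,5273367)]))))) (.node ⟨0,0,1⟩ (.node ⟨0,232,825⟩ (.leaf false ⟨⟨-857,0,0⟩,⟨0,-825,232⟩,⟨0,232,825⟩⟩ (1,[(3,857)]) (825,[(0,232),(2,734449)]) (1,[(0,1)])) (.node ⟨376,-687,348⟩ (.leaf false ⟨⟨-852,-92,9⟩,⟨48,-369,772⟩,⟨79,-768,-372⟩⟩ (58,[(2,19497),(4,49416),(1,23)]) (229,[(2,133984),(4,35256),(0,123)]) (215837,[(4,51543309),(1,174276),(0,182432)]))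 (.leaf false ⟨⟨-828,124,-183⟩,⟨-216,-303,772⟩,⟨-47,-792,-324⟩⟩ (21808,[(2,120427713),(0,48024),(1,130553)]) (5452,[(2,18824755),(0,3132),(1,16395)]) (1856,[(2,5273367),(0,232),(1,7023)])))) (.leaf false ⟨⟨-857,0,0⟩,⟨0,-857,0⟩,⟨0,0,-857⟩⟩ (1,[(2,857)]) (1,[(1,857)]) (1,[(0,857)]))))
theorem pf857_ok : pf857.check (ok 857 6 ⟨5, 5, 5⟩) (fun _ r => r) [] = true := by decide +kernel

def pf859 : T := .node ⟨1,0,0⟩ (.node ⟨0,1,0⟩ (.node ⟨0,0,1⟩ (.leaf false ⟨⟨0,0,859⟩,⟨0,859,0⟩,⟨859,0,0⟩⟩ (1,[(0,859)]) (1,[(1,859)]) (1,[(2,859)])) (.node ⟨-354,742,-249⟩ (.node ⟨246,-354,-743⟩ (.node ⟨762,391,66⟩ (.leaf false ⟨⟨-311,678,-426⟩,⟨246,-354,-743⟩,⟨762,391,66⟩⟩ (354,[(3,73365),(4,9250),(2,311)]) (1,[(1,1)]) (1,[(0,1)])) (.leaf false ⟨⟨-825,-66,-230⟩,⟨-50,855,-66⟩,⟨234,-50,-825⟩⟩ (33,[(5,60405),(4,42787),(0,115)])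 (1,[(5,712),(4,1246),(0,1)]) (2,[(5,19518),(4,9675),(0,25)]))) (.leaf false ⟨⟨-489,706,-18⟩,⟨382,246,-729⟩,⟨594,423,454⟩⟩ (177,[(2,265465),(4,285),(0,353)]) (59,[(2,73474),(4,32624),(0,41)]) (118,[(2,51191),(4,104778),(0,141)]))) (.leaf false ⟨⟨6,858,-41⟩,⟨246,-41,-822⟩,⟨823,6,246⟩⟩ (59,[(1,2668),(0,1),(2,51364)]) (59,[(1,58707),(0,41),(2,28003)]) (354,[(1,117843),(0,823),(2,612790)])))) (.node ⟨0,0,1⟩ (.node ⟨-354,-249,742⟩ (.node ⟨246,-743,-354⟩ (.node ⟨762,66,391⟩ (.leaf false ⟨⟨-311,-426,678⟩,⟨246,-743,-354⟩,⟨762,66,391⟩⟩ (354,[(3,9250),(4,73365),(2,311)]) (1,[(1,1)]) (1,[(0,1)])) (.leaf false ⟨⟨-825,-230,-66⟩,⟨-50,-66,855⟩,⟨234,-825,-50⟩⟩ (33,[(3,42787),(5,60405),(0,115)]) (1,[(3,1246),(5,712),(0,1)]) (2,[(3,9675),(5,19518),(0,25)]))) (.leaf false ⟨⟨-489,-18,706⟩,⟨382,-729,246⟩,⟨594,454,423⟩⟩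 (177,[(4,285),(3,265465),(0,353)]) (59,[(4,32624),(3,73474),(0,41)]) (118,[(4,104778),(3,51191),(0,141)]))) (.leaf false ⟨⟨6,-41,858⟩,⟨246,-822,-41⟩,⟨823,246,6⟩⟩ (59,[(1,51364),(0,1),(2,2668)]) (59,[(1,28003),(0,41),(2,58707)]) (354,[(1,612790),(0,823),(2,117843)]))) (.node ⟨-234,-825,-50⟩ (.node ⟨-50,234,-825⟩ (.leaf false ⟨⟨-234,-825,-50⟩,⟨-50,66,-855⟩,⟨825,-230,-66⟩⟩ (1,[(1,1)]) (55,[(4,100),(3,9708),(0,57)]) (25,[(4,20725),(3,6218),(0,2)])) (.leaf false ⟨⟨-162,-594,-599⟩,⟨66,-617,594⟩,⟨841,-66,-162⟩⟩ (25,[(2,14075),(4,162),(1,18)]) (48003,[(2,53117618),(0,99414),(1,7703)]) (25,[(2,3950),(4,21493),(1,2)]))) (.node ⟨654,526,183⟩ (.leaf false ⟨⟨94,-678,-519⟩,⟨183,526,-654⟩,⟨834,-39,202⟩⟩ (117,[(2,63073),(1,47),(3,118101)]) (78,[(2,54062),(1,61),(3,9297)]) (109,[(2,3419),(0,139),(3,77365)]))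 (.leaf false ⟨⟨-806,162,-249⟩,⟨6,-711,-482⟩,⟨297,454,-666⟩⟩ (5061,[(1,7674),(3,786110),(0,8983)]) (1687,[(1,52721),(3,34780234),(0,18848)]) (3374,[(1,163305),(3,103266481),(0,56898)])))))) (.node ⟨0,1,0⟩ (.node ⟨0,0,1⟩ (.node ⟨-249,742,-354⟩ (.node ⟨-743,-354,246⟩ (.node ⟨66,391,762⟩ (.leaf false ⟨⟨-743,-354,246⟩,⟨-426,678,-311⟩,⟨66,391,762⟩⟩ (1,[(1,1)]) (354,[(5,73365),(2,311),(4,9250)]) (1,[(0,1)])) (.leaf false ⟨⟨-858,-41,6⟩,⟨-41,822,-246⟩,⟨-6,246,823⟩⟩ (1,[(3,9912),(0,13),(4,5042)]) (66,[(3,15006),(0,41),(4,70283)]) (11,[(3,9815),(0,1),(4,3097)]))) (.leaf false ⟨⟨-822,94,231⟩,⟨-14,777,-366⟩,⟨249,354,742⟩⟩ (177,[(2,52449),(4,180415),(0,47)]) (118,[(2,20526),(4,194089),(0,259)]) (1,[(2,988),(4,494),(0,1)]))) (.leaf false ⟨⟨-834,-183,94⟩,⟨-39,526,678⟩,⟨202,-654,519⟩⟩ (177,[(3,159321),(2,2483),(0,47)])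 (59,[(3,30438),(2,114880),(0,113)]) (118,[(3,19241),(2,51194),(0,173)]))) (.node ⟨-50,-234,-825⟩ (.node ⟨-825,-50,234⟩ (.leaf false ⟨⟨-855,-50,66⟩,⟨-66,825,-230⟩,⟨-50,-234,-825⟩⟩ (55,[(2,9708),(0,57),(3,100)]) (25,[(2,6218),(0,2),(3,20725)]) (1,[(1,1)])) (.leaf false ⟨⟨-770,66,-375⟩,⟨105,850,-66⟩,⟨366,-105,-770⟩⟩ (11,[(1,5),(4,8220),(3,1896)]) (39,[(4,4980),(3,32600),(0,11)]) (96006,[(1,63070),(4,38891179),(0,93555)]))) (.node ⟨183,654,526⟩ (.leaf false ⟨⟨-834,202,39⟩,⟨94,519,-678⟩,⟨183,654,526⟩⟩ (117,[(2,78762),(4,102628),(1,101)]) (78,[(2,195609),(4,1318),(1,173)]) (1,[(0,1)])) (.leaf false ⟨⟨-858,-41,6⟩,⟨-41,822,-246⟩,⟨-6,246,823⟩⟩ (10122,[(2,352155421),(0,198722),(1,553629)]) (241,[(2,2905904),(0,1207),(1,4220)]) (1687,[(2,4139740),(0,2284),(1,8157)]))))) (.node ⟨0,0,1⟩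 (.node ⟨-50,-825,-234⟩ (.node ⟨-825,234,-50⟩ (.leaf false ⟨⟨-855,66,-50⟩,⟨-66,-230,825⟩,⟨-50,-825,-234⟩⟩ (55,[(2,100),(0,57),(3,9708)]) (25,[(2,20725),(0,2),(3,6218)]) (1,[(1,1)])) (.leaf false ⟨⟨-770,-375,66⟩,⟨105,-66,850⟩,⟨366,-770,-105⟩⟩ (11,[(2,1896),(4,8220),(1,5)]) (39,[(2,32600),(4,4980),(0,11)]) (692325,[(2,38891179),(1,549606),(0,340450)]))) (.node ⟨183,526,654⟩ (.leaf false ⟨⟨-834,39,202⟩,⟨94,-678,519⟩,⟨183,526,654⟩⟩ (117,[(4,102628),(3,78762),(1,101)]) (78,[(4,1318),(3,195609),(1,173)]) (1,[(0,1)])) (.leaf false ⟨⟨-858,-41,-6⟩,⟨-41,822,246⟩,⟨6,-246,823⟩⟩ (1687,[(3,59499130),(1,93339),(0,33412)]) (1687,[(3,6570812),(1,11972),(0,3649)]) (1446,[(3,14656963),(1,20955),(0,5678)])))) (.node ⟨-297,454,-666⟩ (.node ⟨-806,-162,249⟩ (.leaf false ⟨⟨-806,-162,249⟩,⟨-297,454,-666⟩,⟨-6,-711,-482⟩⟩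 (1,[(0,1)]) (1,[(1,1)]) (99,[(2,46386),(1,2),(3,71297)])) (.leaf false ⟨⟨-806,-297,-6⟩,⟨-162,454,-711⟩,⟨249,-666,-482⟩⟩ (83,[(4,68510),(3,24975),(0,2)]) (83,[(4,204468),(3,712),(0,237)]) (249,[(4,326491),(3,243918),(0,482)]))) (.leaf false ⟨⟨-858,-14,-39⟩,⟨-14,-663,546⟩,⟨39,-546,-662⟩⟩ (227,[(1,13515),(3,196845),(0,7)]) (454,[(1,193674),(3,203267),(0,663)]) (227,[(1,332092),(3,72228),(0,273)])))))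
theorem pf859_ok : pf859.check (ok 859 6 ⟨5, 5, 5⟩) (fun _ r => r) [] = true := by decide +kernel

def pf863 : T := .node ⟨1,0,0⟩ (.node ⟨0,1,0⟩ (.node ⟨0,0,1⟩ (.node ⟨-309,262,762⟩ (.node ⟨762,262,-309⟩ (.node ⟨-309,802,78⟩ (.leaf false ⟨⟨-309,802,78⟩,⟨262,21,822⟩,⟨762,318,-251⟩⟩ (1,[(0,1)]) (262,[(3,199362),(5,75133),(2,21)]) (115347,[(3,7026546),(1,118231),(0,7112)])) (.leaf false ⟨⟨-267,174,802⟩,⟨438,-683,294⟩,⟨694,498,123⟩⟩ (17613,[(4,1073664),(2,18916),(0,3697)]) (3914,[(4,3026334),(2,2315),(0,7863)]) (161721,[(1,188945),(4,4119780),(2,102724)]))) (.leaf false ⟨⟨-741,-62,438⟩,⟨-18,858,91⟩,⟨442,-69,738⟩⟩ (103,[(4,34929),(3,31866),(0,146)]) (309,[(4,63780),(3,288964),(0,91)]) (103,[(4,232978),(3,57345),(0,246)]))) (.leaf false ⟨⟨18,414,757⟩,⟨514,603,-342⟩,⟨693,-458,234⟩⟩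 (103,[(1,82543),(0,6),(2,44214)]) (309,[(1,285990),(0,514),(2,320995)]) (103,[(1,200124),(0,231),(2,13348)]))) (.node ⟨-213,154,-822⟩ (.node ⟨267,694,438⟩ (.node ⟨802,-123,-294⟩ (.leaf false ⟨⟨-197,174,-822⟩,⟨102,843,154⟩,⟨834,-62,-213⟩⟩ (1,[(5,16),(4,20),(2,1)]) (89,[(3,1186),(1,34),(4,51431)]) (98,[(0,71),(5,24790),(4,2657)])) (.leaf false ⟨⟨-846,162,-53⟩,⟨118,363,-774⟩,⟨123,766,378⟩⟩ (41,[(3,18049),(5,8622),(0,54)]) (41,[(3,67308),(5,101880),(0,121)]) (123,[(3,178710),(5,629461),(0,766)]))) (.leaf false ⟨⟨-405,10,-762⟩,⟨190,837,-90⟩,⟨738,-210,-395⟩⟩ (73,[(4,4344),(3,88868),(0,127)]) (73,[(4,17875),(3,71511),(0,15)]) (438,[(4,428709),(3,182150),(0,395)]))) (.leaf false ⟨⟨10,210,-837⟩,⟨405,738,190⟩,⟨762,-395,-90⟩⟩ (213,[(1,186501),(0,10),(2,46270)]) (71,[(1,97480),(0,135),(2,73188)])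 (71,[(1,215178),(0,254),(2,11071)])))) (.node ⟨0,0,1⟩ (.node ⟨-213,-822,154⟩ (.node ⟨267,438,694⟩ (.node ⟨802,-294,-123⟩ (.leaf false ⟨⟨-197,-822,174⟩,⟨102,154,843⟩,⟨834,-213,-62⟩⟩ (1,[(3,20),(5,16),(2,1)]) (89,[(3,51431),(1,34),(4,1186)]) (98,[(3,2657),(5,24790),(0,71)])) (.leaf false ⟨⟨-846,-53,162⟩,⟨118,-774,363⟩,⟨123,378,766⟩⟩ (41,[(5,8622),(4,18049),(0,54)]) (41,[(5,101880),(4,67308),(0,121)]) (123,[(5,629461),(4,178710),(0,766)]))) (.leaf false ⟨⟨-405,-762,10⟩,⟨190,-90,837⟩,⟨738,-395,-210⟩⟩ (73,[(2,88868),(4,4344),(0,127)]) (73,[(2,71511),(4,17875),(0,15)]) (438,[(2,182150),(4,428709),(0,395)]))) (.leaf false ⟨⟨10,-837,210⟩,⟨405,190,738⟩,⟨762,-90,-395⟩⟩ (213,[(1,46270),(0,10),(2,186501)]) (71,[(1,73188),(0,135),(2,97480)]) (71,[(1,11071),(0,254),(2,215178)]))) (.node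 ⟨-318,-762,-251⟩ (.node ⟨370,363,-690⟩ (.node ⟨837,-134,162⟩ (.leaf false ⟨⟨-98,-837,-186⟩,⟨186,162,-827⟩,⟨837,-134,162⟩⟩ (251,[(5,34550),(4,68355),(2,186)]) (121,[(3,62807),(1,54),(5,2526)]) (1,[(0,1)])) (.leaf false ⟨⟨-843,-62,-174⟩,⟨102,-834,-197⟩,⟨154,213,-822⟩⟩ (27,[(5,1512),(4,5560),(0,29)]) (162,[(5,181413),(4,161506),(0,197)]) (27,[(5,118827),(4,12607),(0,137)]))) (.leaf false ⟨⟨-606,-603,118⟩,⟨42,-206,-837⟩,⟨613,-582,174⟩⟩ (121,[(2,124412),(4,1044),(0,201)]) (363,[(2,445971),(4,91466),(0,206)]) (121,[(2,112806),(4,145953),(0,194)]))) (.leaf false ⟨⟨21,-618,-602⟩,⟨558,469,-462⟩,⟨658,-378,411⟩⟩ (106,[(1,65569),(0,7),(2,70842)]) (53,[(1,47829),(0,93),(2,46009)]) (159,[(1,17230),(0,329),(2,310800)]))))) (.node ⟨0,1,0⟩ (.node ⟨0,0,1⟩ (.node ⟨-822,-213,154⟩ (.node ⟨438,267,694⟩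 (.node ⟨-294,802,-123⟩ (.leaf false ⟨⟨-822,-197,174⟩,⟨-213,834,-62⟩,⟨154,102,843⟩⟩ (1,[(3,20),(2,1),(4,16)]) (98,[(3,2657),(0,71),(4,24790)]) (89,[(3,51431),(5,1186),(1,34)])) (.leaf false ⟨⟨-858,-62,69⟩,⟨-18,741,442⟩,⟨91,-438,738⟩⟩ (41,[(5,41940),(4,15904),(0,23)]) (123,[(5,132162),(4,445627),(0,442)]) (1,[(5,1673),(4,4374),(0,6)]))) (.leaf false ⟨⟨-834,-213,-62⟩,⟨-197,822,-174⟩,⟨-102,154,843⟩⟩ (73,[(2,91940),(0,139),(3,21564)]) (438,[(2,60506),(0,197),(3,412635)]) (73,[(2,73337),(0,17),(3,15781)]))) (.leaf false ⟨⟨-843,154,-102⟩,⟨-62,213,834⟩,⟨174,822,-197⟩⟩ (213,[(1,1990),(3,306147),(0,154)]) (1,[(1,988),(3,884),(0,1)]) (71,[(1,28209),(3,212874),(0,274)]))) (.node ⟨-251,-318,-762⟩ (.node ⟨-690,370,363⟩ (.node ⟨162,837,-134⟩ (.leaf false ⟨⟨-827,186,162⟩,⟨-186,-98,-837⟩,⟨162,837,-134⟩⟩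 (121,[(5,62807),(1,54),(4,2526)]) (251,[(3,68355),(2,186),(4,34550)]) (1,[(0,1)])) (.leaf false ⟨⟨-843,154,102⟩,⟨-174,-822,-197⟩,⟨-62,213,-834⟩⟩ (54,[(3,32146),(0,281),(4,243513)]) (27,[(3,9205),(0,29),(4,2079)]) (81,[(3,71708),(0,31),(4,43200)]))) (.leaf false ⟨⟨-837,-134,-162⟩,⟨-98,837,-186⟩,⟨186,-162,-827⟩⟩ (121,[(4,138537),(3,3766),(0,54)]) (121,[(4,54638),(3,124217),(0,62)]) (363,[(4,503112),(3,247184),(0,827)]))) (.leaf false ⟨⟨-858,69,-62⟩,⟨-18,442,741⟩,⟨91,738,-438⟩⟩ (106,[(1,24098),(3,96721),(0,23)]) (159,[(1,50583),(3,58333),(0,221)]) (53,[(1,116940),(3,26050),(0,123)])))) (.node ⟨0,0,1⟩ (.node ⟨-251,-762,-318⟩ (.node ⟨-690,363,370⟩ (.node ⟨162,-134,837⟩ (.leaf false ⟨⟨-827,162,186⟩,⟨-186,-837,-98⟩,⟨162,-134,837⟩⟩ (121,[(3,2526),(1,54),(5,62807)]) (251,[(3,34550),(2,186),(4,68355)])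 (1,[(0,1)])) (.leaf false ⟨⟨-843,102,154⟩,⟨-174,-197,-822⟩,⟨-62,-834,213⟩⟩ (54,[(3,243513),(0,281),(4,32146)]) (27,[(3,2079),(0,29),(4,9205)]) (81,[(3,43200),(0,31),(4,71708)]))) (.leaf false ⟨⟨-837,-206,42⟩,⟨118,-603,-606⟩,⟨174,-582,613⟩⟩ (363,[(2,91466),(4,445971),(0,206)]) (121,[(2,1044),(4,124412),(0,201)]) (121,[(2,145953),(4,112806),(0,194)]))) (.leaf false ⟨⟨-858,-62,69⟩,⟨-18,741,442⟩,⟨91,-438,738⟩⟩ (106,[(3,96721),(2,24098),(0,23)]) (159,[(3,58333),(2,50583),(0,221)]) (53,[(3,26050),(2,116940),(0,123)]))) (.leaf false ⟨⟨-863,0,0⟩,⟨0,-863,0⟩,⟨0,0,-863⟩⟩ (1,[(2,863)]) (1,[(1,863)]) (1,[(0,863)]))))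
theorem pf863_ok : pf863.check (ok 863 6 ⟨5, 5, 5⟩) (fun _ r => r) [] = true := by decide +kernel

def pf871 : T := .node ⟨1,0,0⟩ (.node ⟨0,1,0⟩ (.node ⟨0,0,1⟩ (.leaf false ⟨⟨0,0,871⟩,⟨0,871,0⟩,⟨871,0,0⟩⟩ (1,[(0,871)]) (1,[(1,871)]) (1,[(2,871)])) (.node ⟨-335,0,-804⟩ (.leaf false ⟨⟨-335,0,-804⟩,⟨0,871,0⟩,⟨804,0,-335⟩⟩ (1,[(0,1)]) (1,[(2,871)]) (12,[(3,11323),(0,5)])) (.node ⟨546,-195,-650⟩ (.leaf false ⟨⟨51,862,-114⟩,⟨582,51,646⟩,⟨646,-114,-573⟩⟩ (182,[(2,9698),(0,17),(3,160199)]) (335,[(2,251518),(1,582),(3,17085)]) (21775,[(2,21281143),(0,12730),(1,21242)])) (.leaf false ⟨⟨-819,294,-38⟩,⟨78,106,-861⟩,⟨286,813,126⟩⟩ (21775,[(2,22386442),(1,273),(0,32830)]) (65325,[(2,138087469),(1,73086),(0,35510)]) (21775,[(2,190177624),(1,166556),(0,90785)]))))) (.node ⟨0,0,1⟩ (.node ⟨-335,-804,0⟩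 (.leaf false ⟨⟨-335,-804,0⟩,⟨0,0,871⟩,⟨804,-335,0⟩⟩ (1,[(0,1)]) (1,[(1,871)]) (12,[(3,11323),(0,5)])) (.node ⟨546,-650,-195⟩ (.leaf false ⟨⟨51,-114,862⟩,⟨582,646,51⟩,⟨646,-573,-114⟩⟩ (182,[(2,160199),(0,17),(3,9698)]) (335,[(2,17085),(1,582),(3,251518)]) (21775,[(1,21242),(0,12730),(3,21281143)])) (.leaf false ⟨⟨-819,-38,294⟩,⟨78,-861,106⟩,⟨286,126,813⟩⟩ (21775,[(1,273),(3,22386442),(0,32830)]) (65325,[(1,73086),(3,138087469),(0,35510)]) (21775,[(1,166556),(3,190177624),(0,90785)])))) (.node ⟨-30,-870,-29⟩ (.node ⟨819,294,-38⟩ (.node ⟨-78,286,-819⟩ (.leaf false ⟨⟨-78,106,-861⟩,⟨286,-813,-126⟩,⟨819,294,-38⟩⟩ (39,[(5,156),(4,7592),(0,41)]) (13,[(5,3874),(4,11141),(0,2)]) (1,[(1,1)])) (.leaf false ⟨⟨70,-546,675⟩,⟨195,-650,-546⟩,⟨846,195,70⟩⟩ (1365,[(3,197158),(0,1380),(2,403)])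 (3297,[(3,7989332),(1,65),(0,7560)]) (26,[(3,4563),(1,26),(0,9)]))) (.leaf false ⟨⟨-30,-29,-870⟩,⟨-29,-870,30⟩,⟨870,-30,-29⟩⟩ (294,[(2,256882),(4,14931),(0,29)]) (49,[(2,4040),(4,117334),(0,145)]) (49,[(2,1611),(4,46725),(0,5)]))) (.leaf false ⟨⟨30,205,-846⟩,⟨246,810,205⟩,⟨835,-246,-30⟩⟩ (1,[(1,875),(0,1),(2,665)]) (5,[(1,164),(0,41),(2,31620)]) (6,[(1,5023),(0,167),(2,146766)]))))) (.node ⟨0,1,0⟩ (.node ⟨0,0,1⟩ (.node ⟨-804,-335,0⟩ (.leaf false ⟨⟨-804,-335,0⟩,⟨-335,804,0⟩,⟨0,0,871⟩⟩ (1,[(0,1)]) (12,[(0,5),(2,11323)]) (1,[(1,871)])) (.node ⟨-650,546,-195⟩ (.leaf false ⟨⟨-650,546,-195⟩,⟨-195,70,846⟩,⟨546,675,70⟩⟩ (1,[(0,1)]) (39,[(2,33969),(4,4355),(0,5)]) (67,[(2,4690),(4,71958),(1,135)])) (.leaf false ⟨⟨-866,-6,93⟩,⟨51,-758,426⟩,⟨78,429,754⟩⟩ (21775,[(4,38902344),(1,16536),(0,10385)])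 (21775,[(4,52532623),(1,28262),(0,47570)]) (5025,[(4,42872362),(1,38103),(0,19430)])))) (.node ⟨-870,-30,-29⟩ (.node ⟨294,819,-38⟩ (.node ⟨286,-78,-819⟩ (.leaf false ⟨⟨-870,-30,-29⟩,⟨-29,870,-30⟩,⟨30,-29,-870⟩⟩ (1,[(2,1)]) (19,[(5,4961),(4,4245),(1,15)]) (273,[(5,74750),(4,14703),(0,290)])) (.leaf false ⟨⟨-866,78,51⟩,⟨-6,429,-758⟩,⟨93,754,426⟩⟩ (637,[(3,597038),(2,377),(0,782)]) (3297,[(3,3815500),(0,1680),(1,1567)]) (19782,[(3,88387),(0,11193),(1,17146)]))) (.leaf false ⟨⟨-870,-29,30⟩,⟨-30,870,-29⟩,⟨-29,-30,-870⟩⟩ (49,[(2,4040),(0,145),(3,117334)]) (49,[(2,1611),(0,5),(3,46725)]) (294,[(2,256882),(0,29),(3,14931)]))) (.leaf false ⟨⟨-866,78,51⟩,⟨-6,429,-758⟩,⟨93,754,426⟩⟩ (5,[(1,122),(3,15640),(0,13)]) (10,[(1,11727),(3,124470),(0,143)]) (15,[(1,4543),(3,326595),(0,377)]))))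 (.node ⟨0,0,1⟩ (.node ⟨-870,-29,-30⟩ (.node ⟨294,-38,819⟩ (.node ⟨286,-819,-78⟩ (.leaf false ⟨⟨-870,-29,-30⟩,⟨-29,-30,870⟩,⟨30,-870,-29⟩⟩ (1,[(2,1)]) (19,[(3,4245),(5,4961),(1,15)]) (273,[(3,14703),(5,74750),(0,290)])) (.leaf false ⟨⟨-866,-6,93⟩,⟨51,-758,426⟩,⟨78,429,754⟩⟩ (364,[(2,195),(4,413400),(0,509)]) (15638,[(2,1855),(4,11488133),(1,8202)]) (9891,[(4,403208),(1,8528),(0,6069)]))) (.leaf false ⟨⟨-870,30,-29⟩,⟨-30,-29,870⟩,⟨-29,-870,-30⟩⟩ (49,[(2,117334),(0,145),(3,4040)]) (49,[(2,46725),(0,5),(3,1611)]) (294,[(2,14931),(0,29),(3,256882)]))) (.leaf false ⟨⟨-866,-6,93⟩,⟨51,-758,426⟩,⟨78,429,754⟩⟩ (10,[(3,35630),(2,959),(0,31)]) (5,[(3,61515),(2,5849),(0,71)]) (15,[(3,326820),(2,4498),(0,377)]))) (.node ⟨-390,429,-650⟩ (.node ⟨342,-506,-621⟩ (.node ⟨-546,-525,430⟩ (.leaf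 false ⟨⟨-650,246,-525⟩,⟨-546,-525,430⟩,⟨195,-650,-546⟩⟩ (12,[(2,13),(0,5)]) (1,[(0,1)]) (114,[(3,21879),(4,41210),(1,65)])) (.leaf false ⟨⟨-846,-114,-173⟩,⟨61,558,-666⟩,⟨198,-659,-534⟩⟩ (430,[(5,458238),(4,139845),(0,173)]) (215,[(5,168703),(4,54855),(0,333)]) (215,[(5,103212),(4,281860),(0,267)]))) (.leaf false ⟨⟨-771,-110,390⟩,⟨-390,429,-650⟩,⟨-110,-750,-429⟩⟩ (114,[(2,115137),(0,257),(3,142582)]) (57,[(2,77415),(0,65),(3,8437)]) (171,[(2,107514),(0,55),(3,156080)]))) (.leaf false ⟨⟨-846,-195,70⟩,⟨70,-546,-675⟩,⟨195,-650,546⟩⟩ (11,[(1,2480),(3,11256),(0,5)]) (11,[(1,16525),(3,4690),(0,14)]) (33,[(1,14482),(3,13065),(0,50)])))))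
theorem pf871_ok : pf871.check (ok 871 6 ⟨5, 5, 5⟩) (fun _ r => r) [] = true := by decide +kernel

def pf877 : T := .node ⟨1,0,0⟩ (.node ⟨0,1,0⟩ (.node ⟨0,0,1⟩ (.leaf false ⟨⟨0,0,877⟩,⟨0,877,0⟩,⟨877,0,0⟩⟩ (1,[(0,877)]) (1,[(1,877)]) (1,[(2,877)])) (.node ⟨804,123,328⟩ (.node ⟨24,813,328⟩ (.node ⟨-123,868,-24⟩ (.leaf false ⟨⟨-123,868,-24⟩,⟨328,24,-813⟩,⟨804,123,328⟩⟩ (1,[(0,1)]) (41,[(3,35957),(5,7016),(2,8)]) (1,[(2,1)])) (.leaf false ⟨⟨0,877,0⟩,⟨348,0,805⟩,⟨805,0,-348⟩⟩ (1,[(4,877)]) (40277,[(3,2866071),(0,94308),(1,100688)]) (123,[(3,62124),(0,805),(4,698740)]))) (.leaf false ⟨⟨-48,108,-869⟩,⟨589,648,48⟩,⟨648,-581,-108⟩⟩ (21320,[(1,426),(3,48518805),(0,56911)]) (6396,[(1,4801),(3,6696330),(0,3865)]) (5330,[(1,4482),(3,1422665),(0,6237)]))) (.leaf false ⟨⟨-788,27,-384⟩,⟨144,832,-237⟩,⟨357,-276,-752⟩⟩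 (41,[(3,6284),(2,7011),(0,48)]) (328,[(3,237780),(2,302047),(0,237)]) (41,[(3,90213),(2,246),(0,94)])))) (.node ⟨0,0,1⟩ (.node ⟨804,328,123⟩ (.node ⟨24,328,813⟩ (.node ⟨-123,-24,868⟩ (.leaf false ⟨⟨-123,-24,868⟩,⟨328,-813,24⟩,⟨804,328,123⟩⟩ (1,[(0,1)]) (41,[(2,8),(5,7016),(4,35957)]) (1,[(2,1)])) (.leaf false ⟨⟨0,0,877⟩,⟨348,805,0⟩,⟨805,-348,0⟩⟩ (1,[(3,877)]) (13256,[(3,2866071),(1,30221),(0,31608)]) (123,[(3,698740),(0,805),(4,62124)]))) (.leaf false ⟨⟨-48,-869,108⟩,⟨589,48,648⟩,⟨648,-108,-581⟩⟩ (21320,[(2,48518805),(1,426),(0,56911)]) (6396,[(2,6696330),(1,4801),(0,3865)]) (5330,[(2,1422665),(1,4482),(0,6237)]))) (.leaf false ⟨⟨-788,-384,27⟩,⟨144,-237,832⟩,⟨357,-752,-276⟩⟩ (41,[(1,7011),(3,6284),(0,48)]) (328,[(1,302047),(3,237780),(0,237)]) (41,[(1,246),(3,90213),(0,94)])))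 (.node ⟨864,-27,148⟩ (.node ⟨-27,-864,148⟩ (.node ⟨-32,-147,-864⟩ (.leaf false ⟨⟨-32,-147,-864⟩,⟨-27,-864,148⟩,⟨876,-32,-27⟩⟩ (1,[(0,1)]) (1,[(1,1)]) (27,[(3,877),(5,23679),(1,1)])) (.leaf false ⟨⟨-27,-876,-32⟩,⟨148,27,-864⟩,⟨864,-32,147⟩⟩ (7893,[(3,1532996),(0,108),(1,8021)]) (7893,[(3,44467408),(0,42381),(1,6964)]) (23679,[(3,661186963),(0,747360),(1,128032)]))) (.leaf false ⟨⟨4,-483,-732⟩,⟨132,724,-477⟩,⟨867,-108,76⟩⟩ (27,[(2,19172),(0,4),(3,16497)]) (1107,[(2,410823),(0,932),(1,140)]) (288,[(2,20884),(1,289),(3,23301)]))) (.leaf false ⟨⟨-248,-837,-84⟩,⟨-216,148,-837⟩,⟨813,-216,-248⟩⟩ (37,[(3,8968),(2,31536),(0,21)]) (148,[(3,691200),(2,695),(0,837)]) (37,[(3,83649),(2,9666),(0,62)]))))) (.node ⟨0,1,0⟩ (.node ⟨0,0,1⟩ (.node ⟨328,123,804⟩ (.node ⟨328,813,24⟩ (.node ⟨-24,868,-123⟩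 (.leaf false ⟨⟨-813,24,328⟩,⟨-24,868,-123⟩,⟨328,123,804⟩⟩ (41,[(3,7016),(5,35957),(2,8)]) (1,[(0,1)]) (1,[(2,1)])) (.leaf false ⟨⟨-869,-108,48⟩,⟨-48,648,589⟩,⟨108,-581,648⟩⟩ (41,[(5,36013),(4,9460),(0,16)]) (123,[(5,20040),(4,590956),(0,589)]) (41,[(5,756),(4,163667),(0,216)]))) (.leaf false ⟨⟨-869,108,-48⟩,⟨-108,-581,648⟩,⟨48,648,589⟩⟩ (21320,[(3,48518805),(1,426),(0,56911)]) (5330,[(3,1422665),(1,4482),(0,6237)]) (6396,[(3,6696330),(1,4801),(0,3865)]))) (.leaf false ⟨⟨-840,-252,-5⟩,⟨-240,805,-252⟩,⟨-77,240,840⟩⟩ (41,[(1,84215),(0,105),(2,2583)]) (41,[(1,13788),(0,30),(2,36695)]) (328,[(1,337428),(0,77),(2,88191)]))) (.node ⟨-27,864,148⟩ (.node ⟨-864,-27,148⟩ (.node ⟨-147,-32,-864⟩ (.leaf false ⟨⟨-864,-27,148⟩,⟨-147,-32,-864⟩,⟨-32,876,-27⟩⟩ (1,[(1,1)]) (1,[(0,1)]) (27,[(3,877),(1,1),(4,23679)]))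 (.leaf false ⟨⟨-876,-27,-32⟩,⟨-32,864,147⟩,⟨27,148,-864⟩⟩ (7893,[(3,1532996),(1,8021),(0,108)]) (23679,[(3,661186963),(1,128032),(0,747360)]) (7893,[(3,44467408),(1,6964),(0,42381)]))) (.leaf false ⟨⟨-581,648,108⟩,⟨-108,48,-869⟩,⟨648,589,-48⟩⟩ (4,[(2,12),(4,2243),(1,3)]) (9,[(2,5453),(4,14796),(0,16)]) (1107,[(2,34636),(1,728),(0,853)]))) (.leaf false ⟨⟨-864,-32,-147⟩,⟨-27,876,-32⟩,⟨148,-27,-864⟩⟩ (148,[(3,131841),(2,122272),(0,147)]) (37,[(3,1215),(2,39324),(0,8)]) (37,[(3,356),(2,185625),(0,216)])))) (.node ⟨0,0,1⟩ (.node ⟨-27,148,864⟩ (.node ⟨-864,148,-27⟩ (.node ⟨-147,-864,-32⟩ (.leaf false ⟨⟨-864,148,-27⟩,⟨-147,-864,-32⟩,⟨-32,-27,876⟩⟩ (1,[(1,1)]) (1,[(0,1)]) (27,[(3,23679),(1,1),(4,877)])) (.leaf false ⟨⟨-876,-32,-27⟩,⟨-32,147,864⟩,⟨27,-864,148⟩⟩ (7893,[(1,8021),(4,1532996),(0,108)])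 (23679,[(1,128032),(4,661186963),(0,747360)]) (7893,[(1,6964),(4,44467408),(0,42381)]))) (.leaf false ⟨⟨-581,108,648⟩,⟨-108,-869,48⟩,⟨648,-48,589⟩⟩ (4,[(1,3),(4,2243),(3,12)]) (9,[(4,14796),(3,5453),(0,16)]) (1107,[(1,728),(3,34636),(0,853)]))) (.leaf false ⟨⟨-864,-147,-32⟩,⟨-27,-32,876⟩,⟨148,-864,-27⟩⟩ (148,[(1,122272),(3,131841),(0,147)]) (37,[(1,39324),(3,1215),(0,8)]) (37,[(1,185625),(3,356),(0,216)]))) (.node ⟨-312,507,-644⟩ (.node ⟨-588,-483,436⟩ (.node ⟨93,-644,-588⟩ (.leaf false ⟨⟨-644,348,-483⟩,⟨-588,-483,436⟩,⟨93,-644,-588⟩⟩ (4,[(2,3),(5,1640),(4,129)]) (1,[(1,1)]) (1,[(0,1)])) (.leaf false ⟨⟨-860,-48,165⟩,⟨-123,760,-420⟩,⟨-120,-435,-752⟩⟩ (93,[(3,490335),(0,860),(4,558304)]) (31,[(3,37128),(0,41),(4,2844)]) (31,[(3,46832),(0,40),(4,39245)]))) (.leaf false ⟨⟨-869,-48,-108⟩,⟨48,589,-648⟩,⟨108,-648,-581⟩⟩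 (109,[(4,110597),(3,18273),(0,27)]) (109,[(4,90024),(3,14045),(0,162)]) (436,[(4,294540),(3,563151),(0,581)]))) (.leaf false ⟨⟨-869,-108,-48⟩,⟨48,-648,589⟩,⟨108,-581,-648⟩⟩ (169,[(1,31296),(3,158093),(0,36)]) (169,[(1,39563),(3,59280),(0,216)]) (507,[(1,702700),(3,126516),(0,581)])))))
theorem pf877_ok : pf877.check (ok 877 6 ⟨5, 5, 5⟩) (fun _ r => r) [] = true := by decide +kernel

def pf881 : T := .node ⟨1,0,0⟩ (.node ⟨0,1,0⟩ (.node ⟨0,0,1⟩ (.node ⟨-431,192,744⟩ (.node ⟨201,828,-224⟩ (.node ⟨784,-84,393⟩ (.leaf false ⟨⟨-348,289,756⟩,⟨201,828,-224⟩,⟨784,-84,393⟩⟩ (62,[(5,5577),(4,5822),(2,63)]) (1,[(1,1)]) (1,[(0,1)])) (.leaf false ⟨⟨-864,172,9⟩,⟨73,324,816⟩,⟨156,801,-332⟩⟩ (21,[(3,17088),(5,15568),(0,43)]) (7,[(3,16323),(5,21679),(0,27)]) (28,[(3,95635),(5,213696),(0,267)])))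 (.leaf false ⟨⟨-564,136,663⟩,⟨289,-732,396⟩,⟨612,471,424⟩⟩ (224,[(4,6927),(3,579428),(0,663)]) (56,[(4,36083),(3,40980),(0,99)]) (28,[(4,27789),(3,57072),(0,53)]))) (.leaf false ⟨⟨48,721,504⟩,⟨399,432,-656⟩,⟨784,-264,303⟩⟩ (431,[(1,252936),(0,48),(2,319967)]) (431,[(1,14120),(0,399),(2,262800)]) (431,[(1,713889),(0,784),(2,36744)]))) (.node ⟨-332,156,-801⟩ (.node ⟨244,735,420⟩ (.node ⟨783,-224,-336⟩ (.leaf false ⟨⟨-224,369,-768⟩,⟨336,768,271⟩,⟨783,-224,-336⟩⟩ (83,[(3,18888),(4,21891),(2,56)]) (245,[(3,41125),(5,19856),(1,256)]) (1,[(0,1)])) (.leaf false ⟨⟨-836,276,33⟩,⟨192,649,-564⟩,⟨201,528,676⟩⟩ (56,[(3,21336),(5,7211),(0,69)]) (224,[(3,344400),(5,551175),(0,649)]) (14,[(3,1624),(5,28653),(0,33)]))) (.leaf false ⟨⟨-404,192,-759⟩,⟨543,684,-116⟩,⟨564,-521,-432⟩⟩ (140,[(4,5172),(3,212835),(0,253)])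 (105,[(4,64091),(3,93135),(0,29)]) (35,[(4,28524),(3,8225),(0,36)]))) (.leaf false ⟨⟨73,156,-864⟩,⟨324,801,172⟩,⟨816,-332,9⟩⟩ (332,[(1,345321),(0,73),(2,63180)]) (83,[(1,50605),(0,81),(2,79119)]) (83,[(1,162657),(0,204),(2,4268)])))) (.node ⟨0,0,1⟩ (.node ⟨-332,-801,156⟩ (.node ⟨244,420,735⟩ (.node ⟨783,-336,-224⟩ (.leaf false ⟨⟨-224,-768,369⟩,⟨336,271,768⟩,⟨783,-336,-224⟩⟩ (83,[(3,21891),(4,18888),(2,56)]) (245,[(1,256),(5,19856),(4,41125)]) (1,[(0,1)])) (.leaf false ⟨⟨-836,33,276⟩,⟨192,-564,649⟩,⟨201,676,528⟩⟩ (56,[(5,7211),(4,21336),(0,69)]) (224,[(5,551175),(4,344400),(0,649)]) (14,[(5,28653),(4,1624),(0,33)]))) (.leaf false ⟨⟨-404,-759,192⟩,⟨543,-116,684⟩,⟨564,-432,-521⟩⟩ (140,[(2,212835),(4,5172),(0,253)]) (105,[(2,93135),(4,64091),(0,29)]) (35,[(2,8225),(4,28524),(0,36)])))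 (.leaf false ⟨⟨73,-864,156⟩,⟨324,172,801⟩,⟨816,9,-332⟩⟩ (332,[(1,63180),(0,73),(2,345321)]) (83,[(1,79119),(0,81),(2,50605)]) (83,[(1,4268),(0,204),(2,162657)]))) (.node ⟨-152,-864,-81⟩ (.node ⟨-152,81,-864⟩ (.node ⟨24,348,-809⟩ (.leaf false ⟨⟨-152,-864,-81⟩,⟨-81,96,-872⟩,⟨864,-143,-96⟩⟩ (1,[(2,1)]) (6248,[(4,651231),(1,3759),(0,2720)]) (9,[(5,7928),(4,1368),(1,1)])) (.leaf false ⟨⟨-432,-564,-521⟩,⟨-116,-543,684⟩,⟨759,-404,-192⟩⟩ (78381,[(5,2679640),(0,176499),(1,212528)]) (78381,[(5,4414708),(0,137916),(1,67085)]) (235143,[(5,247059233),(0,364608),(1,393652)]))) (.leaf false ⟨⟨-116,-873,-24⟩,⟨348,-24,-809⟩,⟨801,-116,348⟩⟩ (9297,[(4,246836),(0,617),(1,9336)]) (27,[(2,28755),(4,8180),(0,8)]) (81,[(2,72036),(4,47249),(0,116)]))) (.leaf false ⟨⟨9,-332,-816⟩,⟨172,801,-324⟩,⟨864,-156,73⟩⟩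 (152,[(1,124761),(0,9),(2,58240)]) (38,[(1,15795),(0,43),(2,6714)]) (19,[(1,7361),(0,108),(2,96276)]))))) (.node ⟨0,1,0⟩ (.node ⟨0,0,1⟩ (.node ⟨-801,-332,156⟩ (.node ⟨420,244,735⟩ (.node ⟨-336,783,-224⟩ (.leaf false ⟨⟨-768,-224,369⟩,⟨-336,783,-224⟩,⟨271,336,768⟩⟩ (83,[(3,21891),(2,56),(5,18888)]) (1,[(0,1)]) (245,[(5,41125),(4,19856),(1,256)])) (.leaf false ⟨⟨-864,9,172⟩,⟨73,816,324⟩,⟨156,-332,801⟩⟩ (56,[(5,62832),(4,34173),(0,43)]) (56,[(5,23128),(4,109119),(0,81)]) (224,[(5,234192),(4,552815),(0,801)]))) (.leaf false ⟨⟨-783,-336,-224⟩,⟨-336,271,768⟩,⟨-224,768,-369⟩⟩ (140,[(2,160475),(0,261),(3,16644)]) (5,[(2,6780),(0,4),(3,2331)]) (15,[(2,345),(0,8),(3,13472)]))) (.leaf false ⟨⟨-864,73,156⟩,⟨9,816,-332⟩,⟨172,324,801⟩⟩ (332,[(1,63180),(3,345321),(0,73)]) (83,[(1,4268),(3,162657),(0,204)])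 (83,[(1,79119),(3,50605),(0,81)]))) (.node ⟨-81,-152,-864⟩ (.node ⟨-864,-152,81⟩ (.node ⟨-809,24,348⟩ (.leaf false ⟨⟨-872,-81,96⟩,⟨-96,864,-143⟩,⟨-81,-152,-864⟩⟩ (6248,[(3,651231),(1,3759),(0,2720)]) (9,[(3,1368),(1,1),(4,7928)]) (1,[(2,1)])) (.leaf false ⟨⟨-873,-116,24⟩,⟨-116,801,-348⟩,⟨24,-348,-809⟩⟩ (78381,[(1,94796),(4,5716612),(0,16659)]) (78381,[(1,107300),(4,81573325),(0,103356)]) (235143,[(1,646129),(4,33110612),(0,697032)]))) (.leaf false ⟨⟨-809,348,-24⟩,⟨-24,-116,-873⟩,⟨348,801,-116⟩⟩ (27,[(4,28755),(3,8180),(0,8)]) (9297,[(1,9336),(3,246836),(0,617)]) (81,[(4,72036),(3,47249),(0,116)]))) (.leaf false ⟨⟨-864,73,156⟩,⟨9,816,-332⟩,⟨172,324,801⟩⟩ (152,[(1,39360),(3,137241),(0,73)]) (19,[(1,94436),(3,8091),(0,102)]) (38,[(1,39546),(3,25),(0,81)])))) (.node ⟨0,0,1⟩ (.node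 ⟨-81,-864,-152⟩ (.node ⟨-864,81,-152⟩ (.node ⟨-809,348,24⟩ (.leaf false ⟨⟨-872,96,-81⟩,⟨-96,-143,864⟩,⟨-81,-864,-152⟩⟩ (6248,[(0,2720),(1,3759),(4,651231)]) (9,[(3,7928),(1,1),(4,1368)]) (1,[(2,1)])) (.leaf false ⟨⟨-873,24,-116⟩,⟨-116,-348,801⟩,⟨24,-809,-348⟩⟩ (78381,[(3,5716612),(1,94796),(0,16659)]) (78381,[(3,81573325),(1,107300),(0,103356)]) (235143,[(3,33110612),(1,646129),(0,697032)]))) (.leaf false ⟨⟨-809,-24,348⟩,⟨-24,-873,-116⟩,⟨348,-116,801⟩⟩ (27,[(2,8180),(4,28755),(0,8)]) (9297,[(2,246836),(1,9336),(0,617)]) (81,[(2,47249),(4,72036),(0,116)]))) (.leaf false ⟨⟨-864,9,172⟩,⟨73,816,324⟩,⟨156,-332,801⟩⟩ (38,[(3,36315),(2,36810),(0,43)]) (38,[(3,3787),(2,38976),(0,81)]) (152,[(3,41169),(2,742528),(0,801)]))) (.leaf false ⟨⟨-881,0,0⟩,⟨0,-881,0⟩,⟨0,0,-881⟩⟩ (1,[(2,881)])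 (1,[(1,881)]) (1,[(0,881)]))))
theorem pf881_ok : pf881.check (ok 881 6 ⟨5, 5, 5⟩) (fun _ r => r) [] = true := by decide +kernel

def pf883 : T := .node ⟨1,0,0⟩ (.node ⟨0,1,0⟩ (.node ⟨0,0,1⟩ (.leaf false ⟨⟨0,0,883⟩,⟨0,883,0⟩,⟨883,0,0⟩⟩ (1,[(0,883)]) (1,[(1,883)]) (1,[(2,883)])) (.node ⟨-42,42,-881⟩ (.node ⟨402,577,534⟩ (.node ⟨786,-282,-287⟩ (.leaf false ⟨⟨-17,606,-642⟩,⟨402,577,534⟩,⟨786,-282,-287⟩⟩ (42,[(3,11987),(4,24738),(2,17)]) (1,[(1,1)]) (1,[(0,1)])) (.leaf false ⟨⟨-783,378,154⟩,⟨42,406,-783⟩,⟨406,687,378⟩⟩ (47,[(3,10843),(5,12717),(0,63)]) (141,[(3,168664),(5,165480),(0,203)]) (94,[(3,30191),(5,218158),(0,229)]))) (.leaf false ⟨⟨-458,-207,-726⟩,⟨54,838,-273⟩,⟨753,-186,-422⟩⟩ (89,[(4,7880),(3,51394),(0,121)]) (178,[(4,46194),(3,201671),(0,91)]) (267,[(4,285873),(3,72085),(0,211)])))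 (.leaf false ⟨⟨1,378,-798⟩,⟨378,721,342⟩,⟨798,-342,-161⟩⟩ (42,[(1,34397),(0,1),(2,15918)]) (1,[(1,7587),(0,9),(2,1099)]) (1,[(1,16900),(0,19),(2,456)])))) (.node ⟨0,0,1⟩ (.node ⟨-42,-881,42⟩ (.node ⟨402,534,577⟩ (.node ⟨786,-287,-282⟩ (.leaf false ⟨⟨-17,-642,606⟩,⟨402,534,577⟩,⟨786,-287,-282⟩⟩ (42,[(3,24738),(4,11987),(2,17)]) (1,[(1,1)]) (1,[(0,1)])) (.leaf false ⟨⟨-783,42,406⟩,⟨154,-783,378⟩,⟨378,406,687⟩⟩ (141,[(5,49155),(4,52339),(0,203)]) (47,[(5,56756),(4,54882),(0,63)]) (94,[(5,215526),(4,27559),(0,229)]))) (.leaf false ⟨⟨-458,-753,-54⟩,⟨207,-186,838⟩,⟨726,-422,-273⟩⟩ (178,[(2,135215),(4,19378),(0,251)]) (89,[(2,92469),(4,30885),(0,31)]) (267,[(2,48856),(4,278664),(0,211)]))) (.leaf false ⟨⟨1,-798,378⟩,⟨378,342,721⟩,⟨798,-161,-342⟩⟩ (42,[(1,15918),(0,1),(2,34397)])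 (1,[(1,1099),(0,9),(2,7587)]) (1,[(1,456),(0,19),(2,16900)]))) (.node ⟨870,-17,150⟩ (.node ⟨-462,-638,-399⟩ (.node ⟨-26,-858,207⟩ (.leaf false ⟨⟨-42,-870,145⟩,⟨145,-150,-858⟩,⟨870,-17,150⟩⟩ (47476,[(3,2153708),(0,46893),(1,1677)]) (143,[(3,127869),(5,21385),(0,25)]) (1,[(2,1)])) (.leaf false ⟨⟨-530,-417,-570⟩,⟨-42,730,-495⟩,⟨705,-270,-458⟩⟩ (2524,[(4,220468),(1,2965),(0,1235)]) (8834,[(4,7557832),(1,1797),(0,17661)]) (183990,[(2,134027),(4,480011021),(0,504210)]))) (.leaf false ⟨⟨138,-854,-177⟩,⟨417,222,-746⟩,⟨766,33,438⟩⟩ (77,[(2,22806),(0,23),(3,80432)]) (154,[(2,170345),(0,139),(3,54494)]) (231,[(2,51639),(0,383),(3,236731)]))) (.leaf false ⟨⟨-206,33,-858⟩,⟨-33,-882,-26⟩,⟨858,-26,-207⟩⟩ (25,[(3,119260),(2,1606),(0,143)]) (75,[(3,8835),(2,66371),(0,13)]) (50,[(3,102930),(2,2473),(0,69)])))))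 (.node ⟨0,1,0⟩ (.node ⟨0,0,1⟩ (.node ⟨-881,-42,42⟩ (.node ⟨534,402,577⟩ (.node ⟨-287,786,-282⟩ (.leaf false ⟨⟨-642,-17,606⟩,⟨-287,786,-282⟩,⟨534,402,577⟩⟩ (42,[(3,24738),(2,17),(5,11987)]) (1,[(0,1)]) (1,[(1,1)])) (.leaf false ⟨⟨-881,-42,42⟩,⟨-42,882,1⟩,⟨42,1,882⟩⟩ (47,[(5,43416),(4,3528),(0,7)]) (282,[(5,12131),(4,249510),(0,1)]) (47,[(5,40215),(4,115589),(0,147)]))) (.leaf false ⟨⟨-834,-287,42⟩,⟨-287,798,-246⟩,⟨-42,246,847⟩⟩ (89,[(2,83941),(0,139),(3,30335)]) (534,[(2,34235),(0,287),(3,541506)]) (89,[(2,79422),(0,7),(3,24708)]))) (.leaf false ⟨⟨-881,42,-42⟩,⟨-42,1,882⟩,⟨42,882,1⟩⟩ (1,[(3,1762),(0,1)]) (42,[(1,37086),(3,2645),(0,1)]) (1,[(1,883),(3,18459),(0,21)]))) (.node ⟨-17,870,150⟩ (.node ⟨-638,-462,-399⟩ (.node ⟨-858,-26,207⟩ (.leaf false ⟨⟨-870,-42,145⟩,⟨-150,145,-858⟩,⟨-17,870,150⟩⟩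 (47476,[(3,2153708),(1,1677),(0,46893)]) (143,[(3,127869),(0,25),(4,21385)]) (1,[(2,1)])) (.leaf false ⟨⟨-870,-17,-150⟩,⟨-42,870,145⟩,⟨145,150,-858⟩⟩ (35336,[(1,2473),(5,47044408),(0,20839)]) (9261,[(1,145),(5,137706),(2,9338)]) (9932386,[(1,17581681),(2,10601814),(0,14962167)]))) (.leaf false ⟨⟨-870,145,42⟩,⟨-17,150,-870⟩,⟨150,858,145⟩⟩ (462,[(2,38451),(4,494450),(0,145)]) (77,[(2,76965),(4,17259),(0,25)]) (7,[(2,4172),(4,7244),(0,13)]))) (.leaf false ⟨⟨-882,-33,-26⟩,⟨-26,858,-207⟩,⟨33,-206,-858⟩⟩ (75,[(3,66371),(2,8835),(0,13)]) (50,[(3,2473),(2,102930),(0,69)]) (25,[(3,1606),(2,119260),(0,143)])))) (.node ⟨0,0,1⟩ (.node ⟨-17,150,870⟩ (.node ⟨-638,-399,-462⟩ (.node ⟨-858,207,-26⟩ (.leaf false ⟨⟨-870,145,-42⟩,⟨-150,-858,145⟩,⟨-17,150,870⟩⟩ (59301,[(3,2153708),(0,54955),(1,6960)])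 (143,[(3,21385),(0,25),(4,127869)]) (1,[(2,1)])) (.leaf false ⟨⟨-870,-150,-17⟩,⟨-42,145,870⟩,⟨145,-858,150⟩⟩ (35336,[(5,47044408),(1,2473),(0,20839)]) (9261,[(2,9338),(5,137706),(1,145)]) (9932386,[(2,10601814),(1,17581681),(0,14962167)]))) (.leaf false ⟨⟨-870,-17,150⟩,⟨42,-870,145⟩,⟨145,150,858⟩⟩ (77,[(4,82940),(3,11284),(0,25)]) (462,[(4,73106),(3,459795),(0,145)]) (7,[(4,7279),(3,4137),(0,13)]))) (.leaf false ⟨⟨-882,-26,-33⟩,⟨-26,-207,858⟩,⟨33,-858,-206⟩⟩ (75,[(1,8835),(3,66371),(0,13)]) (50,[(1,102930),(3,2473),(0,69)]) (25,[(1,119260),(3,1606),(0,143)]))) (.node ⟨42,-881,42⟩ (.leaf false ⟨⟨-882,-42,1⟩,⟨1,-42,-882⟩,⟨42,-881,42⟩⟩ (881,[(1,883),(3,778806),(0,42)]) (881,[(1,778806),(3,883),(0,42)]) (1,[(0,1)])) (.node ⟨-834,-98,273⟩ (.leaf false ⟨⟨-881,42,42⟩,⟨-42,-882,1⟩,⟨-42,1,-882⟩⟩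 (2214,[(1,9785),(0,1846),(3,8346689)]) (139,[(2,1772),(0,7),(3,121912)]) (1,[(2,840),(1,1),(3,880)])) (.leaf false ⟨⟨-882,-33,-26⟩,⟨-26,858,-207⟩,⟨33,-206,-858⟩⟩ (21,[(1,13),(4,17976),(3,12146)]) (7749,[(1,29956),(3,19866760),(0,1267)]) (7,[(4,18117),(3,3598),(0,22)]))))))
theorem pf883_ok : pf883.check (ok 883 6 ⟨5, 5, 5⟩) (fun _ r => r) [] = true := by decide +kernel

def pf887 : T := .node ⟨1,0,0⟩ (.node ⟨0,1,0⟩ (.node ⟨0,0,1⟩ (.node ⟨-387,294,742⟩ (.node ⟨157,822,-294⟩ (.node ⟨750,-410,237⟩ (.leaf false ⟨⟨-354,333,742⟩,⟨157,822,-294⟩,⟨798,-14,387⟩⟩ (1,[(5,33),(4,39),(2,1)]) (1,[(1,1)]) (125,[(3,16854),(0,133),(4,52780)])) (.leaf false ⟨⟨-762,454,3⟩,⟨157,258,834⟩,⟨426,717,-302⟩⟩ (205,[(3,54414),(5,14040),(0,227)]) (205,[(3,201543),(5,128935),(0,129)]) (410,[(3,46109),(5,712410),(0,717)])))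 (.leaf false ⟨⟨-402,-141,778⟩,⟨211,822,258⟩,⟨762,-302,339⟩⟩ (147,[(4,1979),(3,299031),(0,389)]) (49,[(4,17090),(3,75624),(0,43)]) (98,[(4,92417),(3,63290),(0,113)]))) (.leaf false ⟨⟨78,606,643⟩,⟨346,573,-582⟩,⟨813,-302,186⟩⟩ (129,[(1,102239),(0,26),(2,85818)]) (387,[(1,31498),(0,346),(2,323475)]) (129,[(1,225076),(0,271),(2,40716)]))) (.node ⟨877,42,126⟩ (.node ⟨-42,877,126⟩ (.leaf false ⟨⟨-42,877,126⟩,⟨-3,126,-878⟩,⟨886,42,3⟩⟩ (1,[(0,1)]) (877,[(2,785882),(4,2661),(0,126)]) (1,[(2,123),(4,9),(1,1)])) (.leaf false ⟨⟨3,94,-882⟩,⟨486,-738,-77⟩,⟨742,483,54⟩⟩ (14,[(2,12222),(0,1),(3,2193)]) (16542,[(0,18395),(1,8286),(3,3576407)]) (877,[(2,46134),(1,742),(3,392427)]))) (.leaf false ⟨⟨-813,22,-354⟩,⟨94,867,-162⟩,⟨342,-186,-797⟩⟩ (21,[(3,34670),(2,2940),(0,59)]) (7,[(3,8551),(2,6447),(0,9)])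 (126,[(3,742061),(2,10038),(0,797)])))) (.node ⟨0,0,1⟩ (.node ⟨877,126,42⟩ (.node ⟨-42,126,877⟩ (.leaf false ⟨⟨-42,-3,886⟩,⟨126,-878,3⟩,⟨877,126,42⟩⟩ (877,[(4,378),(3,114267),(0,886)]) (14,[(1,1),(4,887),(3,12418)]) (1,[(1,1)])) (.leaf false ⟨⟨3,-882,94⟩,⟨486,-77,-738⟩,⟨742,54,483⟩⟩ (14,[(2,2193),(0,1),(3,12222)]) (16542,[(2,3576407),(1,8286),(0,18395)]) (877,[(2,392427),(1,742),(3,46134)]))) (.leaf false ⟨⟨-813,-354,22⟩,⟨94,-162,867⟩,⟨342,-797,-186⟩⟩ (21,[(1,2940),(3,34670),(0,59)]) (7,[(1,6447),(3,8551),(0,9)]) (126,[(1,10038),(3,742061),(0,797)]))) (.node ⟨858,-78,211⟩ (.node ⟨-482,-666,-333⟩ (.node ⟨258,211,-822⟩ (.leaf false ⟨⟨-482,-666,-333⟩,⟨333,162,-806⟩,⟨666,-563,162⟩⟩ (1,[(1,1)]) (411,[(0,403),(5,32889),(4,18451)]) (143,[(3,255),(2,111),(4,71851)])) (.leaf false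 ⟨⟨-666,-573,-122⟩,⟨67,-258,846⟩,⟨582,-626,-237⟩⟩ (211,[(3,496748),(5,7308),(0,573)]) (211,[(3,33570),(5,80701),(0,258)]) (211,[(3,564579),(5,284310),(0,626)]))) (.leaf false ⟨⟨45,-770,-438⟩,⟨490,387,-630⟩,⟨738,-210,445⟩⟩ (482,[(2,226101),(0,45),(3,401110)]) (241,[(2,233415),(0,245),(3,69903)]) (241,[(2,15632),(0,369),(3,296364)]))) (.leaf false ⟨⟨-762,157,-426⟩,⟨-3,-834,-302⟩,⟨454,258,-717⟩⟩ (211,[(3,204726),(2,101),(0,426)]) (211,[(3,258483),(2,199530),(0,302)]) (211,[(3,710980),(2,1488),(0,717)]))))) (.node ⟨0,1,0⟩ (.node ⟨0,0,1⟩ (.node ⟨126,42,877⟩ (.node ⟨126,877,-42⟩ (.leaf false ⟨⟨-878,3,126⟩,⟨-3,886,-42⟩,⟨126,42,877⟩⟩ (14,[(2,887),(4,12418),(1,1)]) (877,[(2,378),(4,114267),(0,886)]) (1,[(1,1)])) (.leaf false ⟨⟨-882,94,3⟩,⟨-77,-738,486⟩,⟨54,483,742⟩⟩ (14,[(4,12222),(3,2193),(0,1)])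 (16542,[(3,3576407),(1,8286),(0,18395)]) (877,[(4,46134),(3,392427),(1,742)]))) (.leaf false ⟨⟨-878,-126,3⟩,⟨-126,877,-42⟩,⟨-3,42,886⟩⟩ (63,[(1,385192),(0,439),(2,10500)]) (1,[(1,835),(0,1),(2,919)]) (42,[(1,38089),(0,1),(2,1806)]))) (.node ⟨-78,858,211⟩ (.node ⟨-666,-482,-333⟩ (.node ⟨211,258,-822⟩ (.leaf false ⟨⟨-878,-78,-99⟩,⟨-99,858,202⟩,⟨78,211,-858⟩⟩ (37,[(1,11),(5,25160),(4,2416)]) (1,[(3,9),(5,21),(2,1)]) (258,[(3,47922),(5,24397),(0,211)])) (.leaf false ⟨⟨-878,-99,78⟩,⟨-99,202,-858⟩,⟨-78,858,211⟩⟩ (211,[(3,705258),(0,878),(4,205635)]) (211,[(3,262416),(0,99),(4,68164)]) (211,[(3,19595),(0,78),(4,201162)]))) (.leaf false ⟨⟨-882,54,-77⟩,⟨3,742,486⟩,⟨94,483,-738⟩⟩ (241,[(2,27548),(4,230544),(0,27)]) (241,[(2,6417),(4,246363),(0,371)]) (482,[(2,516555),(4,276370),(0,483)])))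 (.leaf false ⟨⟨-882,-54,-77⟩,⟨-3,742,-486⟩,⟨94,-483,-738⟩⟩ (211,[(3,192108),(2,54672),(0,77)]) (211,[(3,38541),(2,573550),(0,486)]) (211,[(3,37730),(2,531291),(0,738)])))) (.node ⟨0,0,1⟩ (.node ⟨-78,211,858⟩ (.node ⟨-666,-333,-482⟩ (.node ⟨211,-822,258⟩ (.leaf false ⟨⟨-878,-99,-78⟩,⟨-99,202,858⟩,⟨78,-858,211⟩⟩ (37,[(3,2416),(5,25160),(1,11)]) (1,[(2,1),(5,21),(4,9)]) (258,[(5,24397),(4,47922),(0,211)])) (.leaf false ⟨⟨-878,78,-99⟩,⟨-99,-858,202⟩,⟨-78,211,858⟩⟩ (211,[(3,205635),(0,878),(4,705258)]) (211,[(3,68164),(0,99),(4,262416)]) (211,[(3,201162),(0,78),(4,19595)]))) (.leaf false ⟨⟨-882,-77,54⟩,⟨3,486,742⟩,⟨94,-738,483⟩⟩ (241,[(4,230544),(3,27548),(0,27)]) (241,[(4,246363),(3,6417),(0,371)]) (482,[(4,276370),(3,516555),(0,483)]))) (.leaf false ⟨⟨-882,-93,-14⟩,⟨66,-518,-717⟩,⟨67,-714,522⟩⟩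 (211,[(1,76840),(3,193356),(0,93)]) (211,[(1,293157),(3,26478),(0,518)]) (211,[(1,722754),(3,41555),(0,714)]))) (.leaf false ⟨⟨-887,0,0⟩,⟨0,-887,0⟩,⟨0,0,-887⟩⟩ (1,[(2,887)]) (1,[(1,887)]) (1,[(0,887)]))))
theorem pf887_ok : pf887.check (ok 887 6 ⟨5, 5, 5⟩) (fun _ r => r) [] = true := by decide +kernel

def pf893 : T := .node ⟨1,0,0⟩ (.node ⟨0,1,0⟩ (.node ⟨0,0,1⟩ (.node ⟨-540,432,565⟩ (.node ⟨160,765,-432⟩ (.leaf false ⟨⟨-540,432,565⟩,⟨160,765,-432⟩,⟨693,160,540⟩⟩ (1,[(1,1)]) (1,[(0,1)]) (27,[(2,8930),(4,24111),(1,10)])) (.leaf false ⟨⟨-540,160,693⟩,⟨432,765,160⟩,⟨565,-432,540⟩⟩ (893,[(3,142880),(1,765),(0,432)]) (27,[(4,13264),(3,28305),(0,10)]) (4,[(4,3060),(3,2097),(0,5)]))) (.leaf false ⟨⟨160,432,765⟩,⟨540,565,-432⟩,⟨693,-540,160⟩⟩ (27,[(1,25175),(0,8),(2,15120)]) (1,[(1,133),(0,1),(2,997)])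 (60,[(1,53105),(0,77),(2,864)]))) (.node ⟨-132,120,-875⟩ (.node ⟨880,75,132⟩ (.node ⟨-93,880,120⟩ (.leaf false ⟨⟨-93,880,120⟩,⟨120,132,-875⟩,⟨880,75,132⟩⟩ (1,[(0,1)]) (20,[(3,17860),(5,2679),(0,3)]) (1,[(1,1)])) (.leaf false ⟨⟨-117,48,-884⟩,⟨624,637,-48⟩,⟨628,-624,-117⟩⟩ (32405,[(4,1903840),(2,32084),(0,4771)]) (9823,[(1,5868),(4,14955071),(0,10384)]) (39292,[(1,21493),(4,28387577),(0,61952)]))) (.leaf false ⟨⟨-852,16,-267⟩,⟨43,888,-84⟩,⟨264,-93,-848⟩⟩ (44,[(4,40832),(3,7379),(0,89)]) (11,[(4,6633),(3,10293),(0,7)]) (33,[(4,195272),(3,12831),(0,212)]))) (.leaf false ⟨⟨12,853,-264⟩,⟨597,-204,-632⟩,⟨664,168,573⟩⟩ (11,[(1,3779),(0,1),(2,9503)]) (44,[(1,201933),(0,199),(2,14904)]) (33,[(1,126341),(0,166),(2,25464)])))) (.node ⟨0,0,1⟩ (.node ⟨-132,-875,120⟩ (.node ⟨880,132,75⟩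 (.node ⟨-93,120,880⟩ (.leaf false ⟨⟨-93,120,880⟩,⟨120,-875,132⟩,⟨880,132,75⟩⟩ (1,[(0,1)]) (20,[(5,2679),(4,17860),(0,3)]) (1,[(1,1)])) (.leaf false ⟨⟨-117,-884,48⟩,⟨624,-48,637⟩,⟨628,-117,-624⟩⟩ (32405,[(3,1903840),(0,4771),(2,32084)]) (9823,[(3,14955071),(1,5868),(0,10384)]) (39292,[(3,28387577),(1,21493),(0,61952)]))) (.leaf false ⟨⟨-852,-267,16⟩,⟨43,-84,888⟩,⟨264,-848,-93⟩⟩ (44,[(2,7379),(4,40832),(0,89)]) (11,[(2,10293),(4,6633),(0,7)]) (33,[(2,12831),(4,195272),(0,212)]))) (.leaf false ⟨⟨12,-264,853⟩,⟨597,-632,-204⟩,⟨664,573,168⟩⟩ (11,[(1,9503),(0,1),(2,3779)]) (44,[(1,14904),(0,199),(2,201933)]) (33,[(1,25464),(0,166),(2,126341)]))) (.node ⟨232,348,-789⟩ (.node ⟨747,-264,412⟩ (.node ⟨-264,-792,-317⟩ (.leaf false ⟨⟨-264,-792,-317⟩,⟨363,196,-792⟩,⟨772,-363,264⟩⟩ (1,[(0,1)])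 (87,[(3,30243),(2,49),(5,20213)]) (103,[(5,30214),(1,66),(4,19965)])) (.leaf false ⟨⟨21,-92,-888⟩,⟨412,789,-72⟩,⟨792,-408,61⟩⟩ (88,[(3,80363),(0,7),(4,13640)]) (66,[(3,37403),(0,103),(4,29502)]) (1,[(3,890),(0,3),(4,2784)]))) (.leaf false ⟨⟨-756,-83,-468⟩,⟨237,-828,-236⟩,⟨412,324,-723⟩⟩ (103,[(4,9531),(3,39437),(0,117)]) (103,[(4,68484),(3,100860),(0,59)]) (412,[(4,709825),(3,57384),(0,723)]))) (.leaf false ⟨⟨-492,-744,43⟩,⟨117,-128,-876⟩,⟨736,-477,168⟩⟩ (29,[(1,47671),(3,116),(0,62)]) (87,[(1,101460),(3,17603),(0,32)]) (116,[(1,105963),(3,122264),(0,159)]))))) (.node ⟨0,1,0⟩ (.node ⟨0,0,1⟩ (.node ⟨-875,-132,120⟩ (.node ⟨132,880,75⟩ (.node ⟨120,-93,880⟩ (.leaf false ⟨⟨-875,120,132⟩,⟨120,-93,880⟩,⟨132,880,75⟩⟩ (20,[(5,17860),(4,2679),(0,3)]) (1,[(0,1)]) (1,[(1,1)])) (.leaf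 false ⟨⟨-888,-72,61⟩,⟨-92,789,-408⟩,⟨21,412,792⟩⟩ (32405,[(3,14231105),(2,30408),(0,18072)]) (13953125,[(2,2211068),(0,7794957),(1,12018120)]) (23518,[(3,17653191),(2,1122),(1,11179)]))) (.leaf false ⟨⟨-884,48,-117⟩,⟨-117,-624,628⟩,⟨-48,637,624⟩⟩ (33,[(2,12714),(0,221),(3,196064)]) (44,[(2,30557),(0,39),(3,6864)]) (11,[(2,7164),(0,4),(3,10527)]))) (.leaf false ⟨⟨-875,132,120⟩,⟨120,880,-93⟩,⟨132,75,880⟩⟩ (1,[(1,240),(3,1750),(0,1)]) (3,[(1,2121),(3,17140),(0,20)]) (44,[(1,41720),(3,16067),(0,25)]))) (.node ⟨348,232,-789⟩ (.node ⟨-264,747,412⟩ (.node ⟨-792,-264,-317⟩ (.leaf false ⟨⟨-803,-72,-384⟩,⟨-264,747,412⟩,⟨288,484,-693⟩⟩ (11,[(3,3273),(0,3),(5,6457)]) (1,[(1,1)]) (29,[(3,1161),(4,8468),(2,24)])) (.leaf false ⟨⟨-888,43,-84⟩,⟨16,852,267⟩,⟨93,264,-848⟩⟩ (264,[(3,35807),(5,268488),(0,43)])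 (22,[(3,16633),(5,55880),(0,71)]) (1,[(3,1165),(5,699),(0,1)]))) (.leaf false ⟨⟨-888,16,-93⟩,⟨43,852,-264⟩,⟨84,-267,-848⟩⟩ (412,[(4,390408),(3,76063),(0,93)]) (103,[(4,12995),(3,137058),(0,66)]) (103,[(4,47316),(3,130863),(0,212)]))) (.leaf false ⟨⟨-848,-267,84⟩,⟨-264,852,43⟩,⟨-93,16,-888⟩⟩ (87,[(1,159960),(0,212),(2,25955)]) (29,[(1,16111),(0,22),(2,29812)]) (116,[(1,127467),(0,31),(2,9048)])))) (.node ⟨0,0,1⟩ (.node ⟨348,-789,232⟩ (.node ⟨-264,412,747⟩ (.node ⟨-792,-317,-264⟩ (.leaf false ⟨⟨-803,-384,-72⟩,⟨-264,412,747⟩,⟨288,-693,484⟩⟩ (11,[(5,6457),(0,3),(4,3273)]) (1,[(1,1)]) (29,[(3,8468),(4,1161),(2,24)])) (.leaf false ⟨⟨-888,-84,43⟩,⟨16,267,852⟩,⟨93,-848,264⟩⟩ (264,[(5,268488),(4,35807),(0,43)]) (22,[(5,55880),(4,16633),(0,71)]) (1,[(5,699),(4,1165),(0,1)]))) (.leaf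 false ⟨⟨-888,-93,16⟩,⟨43,-264,852⟩,⟨84,-848,-267⟩⟩ (412,[(2,76063),(4,390408),(0,93)]) (103,[(2,137058),(4,12995),(0,66)]) (103,[(2,130863),(4,47316),(0,212)]))) (.leaf false ⟨⟨-848,84,-267⟩,⟨-264,43,852⟩,⟨-93,-888,16⟩⟩ (87,[(1,25955),(0,212),(2,159960)]) (29,[(1,29812),(0,22),(2,16111)]) (116,[(1,9048),(0,31),(2,127467)]))) (.leaf false ⟨⟨-893,0,0⟩,⟨0,-893,0⟩,⟨0,0,-893⟩⟩ (1,[(2,893)]) (1,[(1,893)]) (1,[(0,893)]))))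
theorem pf893_ok : pf893.check (ok 893 6 ⟨5, 5, 5⟩) (fun _ r => r) [] = true := by decide +kernel

def pf899 : T := .node ⟨1,0,0⟩ (.node ⟨0,1,0⟩ (.node ⟨0,0,1⟩ (.node ⟨-422,321,726⟩ (.node ⟨111,838,-306⟩ (.leaf false ⟨⟨-422,321,726⟩,⟨111,838,-306⟩,⟨786,54,433⟩⟩ (1,[(1,1)]) (1,[(0,1)]) (107,[(2,33263),(4,91698),(1,18)])) (.leaf false ⟨⟨-422,111,786⟩,⟨321,838,54⟩,⟨726,-306,433⟩⟩ (117769,[(4,2193560),(1,115439),(0,28620)]) (17,[(4,5790),(3,16760),(0,3)]) (306,[(4,270219),(3,269218),(0,433)]))) (.leaf false ⟨⟨54,321,838⟩,⟨433,726,-306⟩,⟨786,-422,111⟩⟩ (211,[(1,196420),(0,27),(2,76398)]) (422,[(1,185226),(0,433),(2,445365)]) (211,[(1,308739),(0,393),(2,37111)]))) (.node ⟨-210,865,-126⟩ (.node ⟨874,-177,-114⟩ (.node ⟨-342,-26,-831⟩ (.node ⟨786,-303,-314⟩ (.leaf false ⟨⟨-342,-26,-831⟩,⟨271,846,-138⟩,⟨786,-303,-314⟩⟩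 (1,[(1,1)]) (277,[(6,90799),(5,235538),(1,46)]) (1,[(0,1)])) (.leaf false ⟨⟨-834,334,33⟩,⟨198,561,-674⟩,⟨271,618,594⟩⟩ (3302027,[(2,1669443),(0,4737789),(1,1430063)]) (23114189,[(2,139631781),(0,128493862),(1,48144420)]) (13208108,[(2,66050429),(0,66078051),(1,6465876)]))) (.leaf false ⟨⟨-170,810,-351⟩,⟨351,390,730⟩,⟨810,1,-390⟩⟩ (30129,[(3,8944590),(0,2305),(2,28144)]) (2479512,[(1,327279),(0,2391808),(2,1113007)]) (179710,[(3,45568704),(1,175215),(2,36061)]))) (.leaf false ⟨⟨-801,406,42⟩,⟨42,174,-881⟩,⟨406,783,174⟩⟩ (177,[(2,38850),(4,213067),(0,406)]) (59,[(2,58591),(4,53170),(0,58)]) (59,[(2,19488),(4,252068),(0,261)]))) (.leaf false ⟨⟨15,126,-890⟩,⟨210,865,126⟩,⟨874,-210,-15⟩⟩ (14,[(1,12586),(0,1),(2,2629)]) (1,[(0,1),(2,1730)]) (105,[(1,56637),(0,437),(2,355955)]))))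 (.node ⟨0,0,1⟩ (.node ⟨-210,-126,865⟩ (.node ⟨874,-114,-177⟩ (.node ⟨-342,-831,-26⟩ (.node ⟨786,-314,-303⟩ (.leaf false ⟨⟨-342,-831,-26⟩,⟨271,-138,846⟩,⟨786,-314,-303⟩⟩ (1,[(1,1)]) (277,[(4,235538),(6,90799),(1,46)]) (1,[(0,1)])) (.leaf false ⟨⟨-834,33,334⟩,⟨198,-674,561⟩,⟨271,594,618⟩⟩ (3302027,[(2,1669443),(1,1430063),(0,4737789)]) (23114189,[(2,139631781),(1,48144420),(0,128493862)]) (13208108,[(2,66050429),(1,6465876),(0,66078051)]))) (.leaf false ⟨⟨-170,-351,810⟩,⟨351,730,390⟩,⟨810,-390,1⟩⟩ (30129,[(4,8944590),(2,28144),(0,2305)]) (2479512,[(1,327279),(2,1113007),(0,2391808)]) (179710,[(1,175215),(4,45568704),(2,36061)]))) (.leaf false ⟨⟨-801,42,406⟩,⟨42,-881,174⟩,⟨406,174,783⟩⟩ (177,[(4,213067),(3,38850),(0,406)]) (59,[(4,53170),(3,58591),(0,58)]) (59,[(4,252068),(3,19488),(0,261)])))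 (.leaf false ⟨⟨15,-890,126⟩,⟨210,126,865⟩,⟨874,-15,-210⟩⟩ (14,[(1,2629),(0,1),(2,12586)]) (1,[(1,1730),(0,1)]) (105,[(1,355955),(0,437),(2,56637)]))) (.node ⟨-620,-651,0⟩ (.leaf false ⟨⟨-620,-651,0⟩,⟨0,0,-899⟩,⟨651,-620,0⟩⟩ (1,[(0,1)]) (1,[(1,899)]) (21,[(3,26071),(0,20)])) (.node ⟨406,-783,174⟩ (.leaf false ⟨⟨42,-174,-881⟩,⟨406,-783,174⟩,⟨801,406,-42⟩⟩ (29,[(2,26071),(0,3),(3,2697)]) (1,[(0,1)]) (620,[(2,26040),(1,801),(3,269731)])) (.leaf false ⟨⟨-818,54,-369⟩,⟨54,-863,-246⟩,⟨369,246,-782⟩⟩ (17980,[(1,1247),(3,29696667),(0,38130)]) (4495,[(1,4553),(3,11819153),(0,6355)]) (53940,[(1,190849),(3,300788319),(0,242420)])))))) (.node ⟨0,1,0⟩ (.node ⟨0,0,1⟩ (.node ⟨-126,865,-210⟩ (.node ⟨-114,-177,874⟩ (.node ⟨-831,-26,-342⟩ (.node ⟨-314,-303,786⟩ (.leaf false ⟨⟨-890,-126,15⟩,⟨-126,865,-210⟩,⟨-15,210,874⟩⟩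 (230756,[(0,97301),(1,209348),(3,6763)]) (1,[(3,1)]) (38,[(4,28842),(2,5),(5,8865)])) (.leaf false ⟨⟨-897,-54,-26⟩,⟨-54,559,702⟩,⟨-26,702,-561⟩⟩ (23114189,[(2,15969836),(1,25556259),(0,7402500)]) (23114189,[(2,150719148),(1,31219040),(0,133365729)]) (92456756,[(2,400458651),(1,121219068),(0,458539669)]))) (.leaf false ⟨⟨-783,154,414⟩,⟨174,882,1⟩,⟨406,-81,798⟩⟩ (50215,[(5,92515686),(2,6984),(0,65075)]) (301290,[(5,64208307),(2,301618),(0,186085)]) (2191,[(1,1275),(5,505778),(0,1854)]))) (.leaf false ⟨⟨-890,15,126⟩,⟨-15,874,-210⟩,⟨126,210,865⟩⟩ (59,[(2,11804),(4,53080),(0,5)]) (177,[(2,726706),(4,102291),(0,874)]) (59,[(2,112215),(4,546),(0,70)]))) (.leaf false ⟨⟨-890,-15,126⟩,⟨15,874,210⟩,⟨126,-210,865⟩⟩ (5,[(3,4828),(2,2520),(0,3)]) (1,[(3,111),(2,1739),(0,1)]) (42,[(3,16506),(2,140825),(0,173)])))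 (.node ⟨0,-620,-651⟩ (.leaf false ⟨⟨-899,0,0⟩,⟨0,-620,-651⟩,⟨0,651,-620⟩⟩ (1,[(3,899)]) (1,[(0,1)]) (21,[(0,20),(2,26071)])) (.node ⟨174,406,-783⟩ (.leaf false ⟨⟨-881,42,-174⟩,⟨-42,801,406⟩,⟨174,406,-783⟩⟩ (29,[(2,2697),(4,26071),(0,3)]) (620,[(2,269731),(4,26040),(1,801)]) (1,[(0,1)])) (.leaf false ⟨⟨-897,-54,-26⟩,⟨-54,559,702⟩,⟨-26,702,-561⟩⟩ (17980,[(2,111538031),(0,92690),(1,59131)]) (3596,[(2,935859),(0,1116),(1,3973)]) (13485,[(2,19941618),(0,2015),(1,16588)]))))) (.node ⟨0,0,1⟩ (.node ⟨0,-651,-620⟩ (.leaf false ⟨⟨-899,0,0⟩,⟨0,-651,-620⟩,⟨0,-620,651⟩⟩ (1,[(3,899)]) (1,[(0,1)]) (21,[(1,26071),(0,20)])) (.node ⟨174,-783,406⟩ (.leaf false ⟨⟨-881,-174,42⟩,⟨-42,406,801⟩,⟨174,-783,406⟩⟩ (29,[(4,26071),(3,2697),(0,3)]) (620,[(1,801),(4,26040),(3,269731)]) (1,[(0,1)])) (.leaf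 false ⟨⟨-897,-26,-54⟩,⟨-54,702,559⟩,⟨-26,-561,702⟩⟩ (17980,[(1,59131),(0,92690),(3,111538031)]) (3596,[(1,3973),(0,1116),(3,935859)]) (13485,[(1,16588),(0,2015),(3,19941618)])))) (.leaf false ⟨⟨-899,0,0⟩,⟨0,-899,0⟩,⟨0,0,-899⟩⟩ (1,[(2,899)]) (1,[(1,899)]) (1,[(0,899)]))))
theorem pf899_ok : pf899.check (ok 899 6 ⟨5, 5, 5⟩) (fun _ r => r) [] = true := by decide +kernel


end H34S
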