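import Pool.Agent.Lib.H34S.Cover

/-!
# H34S: certificates (generated), pentagonal numbers
-/

set_option autoImplicit false

namespace H34S

def pf901 : T := .node ⟨1,0,0⟩ (.node ⟨0,1,0⟩ (.node ⟨0,0,1⟩ (.leaf false ⟨⟨0,0,901⟩,⟨0,901,0⟩,⟨901,0,0⟩⟩ (1,[(0,901)]) (1,[(1,901)]) (1,[(2,901)])) (.node ⟨0,795,424⟩ (.leaf false ⟨⟨0,424,-795⟩,⟨0,795,424⟩,⟨901,0,0⟩⟩ (15,[(1,15317),(0,8)]) (1,[(0,1)]) (1,[(3,901)])) (.leaf false ⟨⟨0,-476,-765⟩,⟨0,765,-476⟩,⟨901,0,0⟩⟩ (424,[(0,765),(2,406351)]) (106,[(0,119),(2,175695)]) (1,[(3,901)])))) (.node ⟨0,0,1⟩ (.node ⟨0,424,795⟩ (.leaf false ⟨⟨0,-795,424⟩,⟨0,424,795⟩,⟨901,0,0⟩⟩ (15,[(0,8),(2,15317)]) (1,[(0,1)]) (1,[(3,901)])) (.leaf false ⟨⟨0,-765,-476⟩,⟨0,-476,765⟩,⟨901,0,0⟩⟩ (424,[(1,406351),(0,765)]) (106,[(1,175695),(0,119)]) (1,[(3,901)])))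 (.node ⟨0,60,-899⟩ (.leaf false ⟨⟨0,-899,-60⟩,⟨0,60,-899⟩,⟨901,0,0⟩⟩ (899,[(0,60),(2,811801)]) (1,[(0,1)]) (1,[(3,901)])) (.leaf false ⟨⟨0,-899,60⟩,⟨0,-60,-899⟩,⟨901,0,0⟩⟩ (60,[(1,804601),(0,899)]) (1,[(1,1798),(0,1)]) (1,[(3,901)]))))) (.node ⟨0,1,0⟩ (.node ⟨0,0,1⟩ (.node ⟨424,0,795⟩ (.leaf false ⟨⟨-795,0,424⟩,⟨0,901,0⟩,⟨424,0,795⟩⟩ (15,[(3,15317),(0,8)]) (1,[(2,901)]) (1,[(0,1)])) (.leaf false ⟨⟨-765,0,-476⟩,⟨-476,0,765⟩,⟨0,901,0⟩⟩ (424,[(1,406351),(0,765)]) (106,[(1,175695),(0,119)]) (1,[(2,901)]))) (.node ⟨60,0,-899⟩ (.leaf false ⟨⟨-899,0,-60⟩,⟨0,901,0⟩,⟨60,0,-899⟩⟩ (899,[(3,811801),(0,60)]) (1,[(2,901)]) (1,[(0,1)])) (.leaf false ⟨⟨-899,0,60⟩,⟨-60,0,-899⟩,⟨0,901,0⟩⟩ (60,[(1,804601),(0,899)]) (1,[(1,1798),(0,1)]) (1,[(2,901)])))) (.node ⟨0,0,1⟩ (.node ⟨60,-899,0⟩ (.leaf false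 ⟨⟨-899,-60,0⟩,⟨0,0,901⟩,⟨60,-899,0⟩⟩ (899,[(3,811801),(0,60)]) (1,[(1,901)]) (1,[(0,1)])) (.leaf false ⟨⟨-899,60,0⟩,⟨-60,-899,0⟩,⟨0,0,901⟩⟩ (60,[(0,899),(2,804601)]) (1,[(0,1),(2,1798)]) (1,[(1,901)]))) (.node ⟨-116,216,-867⟩ (.node ⟨-872,69,216⟩ (.leaf false ⟨⟨-888,69,136⟩,⟨-116,216,-867⟩,⟨-99,-872,-204⟩⟩ (109,[(2,9152),(0,111),(3,138)]) (1,[(1,1)]) (872,[(2,199272),(0,99),(3,767215)])) (.leaf false ⟨⟨-872,-204,-99⟩,⟨69,136,-888⟩,⟨216,-867,-116⟩⟩ (24,[(4,30520),(3,4137),(0,11)]) (35493,[(1,30216),(4,15525031),(0,24632)]) (54,[(4,13624),(3,44817),(0,29)]))) (.leaf false ⟨⟨-899,-48,-36⟩,⟨36,-864,253⟩,⟨48,-251,-864⟩⟩ (9,[(1,2058),(3,8323),(0,2)]) (1,[(1,3215),(3,428),(0,4)]) (216,[(1,404241),(3,18748),(0,251)])))))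
theorem pf901_ok : pf901.check (ok 901 6 ⟨5, 5, 5⟩) (fun _ r => r) [] = true := by decide +kernel

def pf907 : T := .node ⟨1,0,0⟩ (.node ⟨0,1,0⟩ (.node ⟨0,0,1⟩ (.leaf false ⟨⟨0,0,907⟩,⟨0,907,0⟩,⟨907,0,0⟩⟩ (1,[(0,907)]) (1,[(1,907)]) (1,[(2,907)])) (.node ⟨-210,210,-857⟩ (.node ⟨282,790,345⟩ (.node ⟨855,-210,-218⟩ (.leaf false ⟨⟨-110,393,-810⟩,⟨282,790,345⟩,⟨855,-210,-218⟩⟩ (21,[(3,7583),(4,5943),(2,11)]) (1,[(1,1)]) (1,[(0,1)])) (.leaf false ⟨⟨-846,322,57⟩,⟨-2,153,-894⟩,⟨327,834,142⟩⟩ (15,[(3,4159),(5,6975),(0,23)]) (70,[(3,73698),(5,43465),(0,51)]) (35,[(3,25332),(5,130290),(0,139)]))) (.leaf false ⟨⟨-569,-78,-702⟩,⟨78,889,-162⟩,⟨702,-162,-551⟩⟩ (115,[(4,553),(3,175890),(0,234)]) (115,[(4,24198),(3,144895),(0,54)]) (345,[(4,397572),(3,379400),(0,551)]))) (.leaf false ⟨⟨7,906,-42⟩,⟨294,-42,-857⟩,⟨858,7,294⟩⟩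 (30,[(1,2117),(0,1),(2,27390)]) (5,[(1,10284),(0,7),(2,1260)]) (35,[(1,112261),(0,143),(2,30275)])))) (.node ⟨0,0,1⟩ (.node ⟨-210,-857,210⟩ (.node ⟨282,345,790⟩ (.node ⟨855,-218,-210⟩ (.leaf false ⟨⟨-110,-810,393⟩,⟨282,345,790⟩,⟨855,-218,-210⟩⟩ (21,[(3,5943),(4,7583),(2,11)]) (1,[(1,1)]) (1,[(0,1)])) (.leaf false ⟨⟨-846,-2,327⟩,⟨57,-894,142⟩,⟨322,153,834⟩⟩ (70,[(5,33975),(4,23902),(0,109)]) (105,[(5,66690),(4,109348),(0,71)]) (35,[(5,130115),(4,24947),(0,139)]))) (.leaf false ⟨⟨-569,-702,-78⟩,⟨78,-162,889⟩,⟨702,-551,-162⟩⟩ (115,[(2,175890),(4,553),(0,234)]) (115,[(2,144895),(4,24198),(0,54)]) (345,[(2,379400),(4,397572),(0,551)]))) (.leaf false ⟨⟨7,-42,906⟩,⟨294,-857,-42⟩,⟨858,294,7⟩⟩ (30,[(1,27390),(0,1),(2,2117)]) (5,[(1,1260),(0,7),(2,10284)]) (35,[(1,30275),(0,143),(2,112261)])))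 (.node ⟨-414,-777,-218⟩ (.node ⟨330,250,-807⟩ (.node ⟨825,-282,250⟩ (.leaf false ⟨⟨-182,-825,-330⟩,⟨330,250,-807⟩,⟨825,-282,250⟩⟩ (259,[(3,25520),(5,66712),(2,275)]) (1,[(1,1)]) (1,[(0,1)])) (.leaf false ⟨⟨-858,7,-294⟩,⟨7,-906,-42⟩,⟨294,42,-857⟩⟩ (125,[(5,14025),(4,40579),(0,147)]) (125,[(5,18200),(4,119172),(0,21)]) (250,[(5,780525),(4,231174),(0,857)]))) (.leaf false ⟨⟨-678,-569,198⟩,⟨42,-342,-839⟩,⟨601,-618,282⟩⟩ (250,[(2,409683),(4,18270),(0,569)]) (125,[(2,242872),(4,61680),(0,171)]) (125,[(2,214113),(4,177095),(0,309)]))) (.leaf false ⟨⟨142,-894,57⟩,⟨327,-2,-846⟩,⟨834,153,322⟩⟩ (207,[(1,3679),(0,71),(2,240225)]) (138,[(1,140510),(0,109),(2,84969)]) (69,[(1,8084),(0,139),(2,97446)]))))) (.node ⟨0,1,0⟩ (.node ⟨0,0,1⟩ (.node ⟨-857,-210,210⟩ (.node ⟨345,282,790⟩ (.node ⟨-218,855,-210⟩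 (.leaf false ⟨⟨-810,-110,393⟩,⟨-218,855,-210⟩,⟨345,282,790⟩⟩ (21,[(3,5943),(2,11),(5,7583)]) (1,[(0,1)]) (1,[(1,1)])) (.leaf false ⟨⟨-894,-2,153⟩,⟨57,-846,322⟩,⟨142,327,834⟩⟩ (70,[(5,73698),(4,43465),(0,51)]) (15,[(5,4159),(4,6975),(0,23)]) (35,[(5,25332),(4,130290),(0,139)]))) (.leaf false ⟨⟨-866,-222,-153⟩,⟨-198,873,-146⟩,⟨-183,106,882⟩⟩ (345,[(2,631355),(0,866),(3,167622)]) (115,[(2,35350),(0,66),(3,119007)]) (115,[(2,149620),(0,61),(3,29392)]))) (.leaf false ⟨⟨-866,183,198⟩,⟨153,882,-146⟩,⟨222,106,873⟩⟩ (70,[(1,26670),(3,112897),(0,61)]) (5,[(1,3680),(3,17232),(0,21)]) (105,[(1,102795),(3,22111),(0,53)]))) (.node ⟨-218,-414,-777⟩ (.node ⟨-807,330,250⟩ (.node ⟨250,825,-282⟩ (.leaf false ⟨⟨-807,330,250⟩,⟨-330,-182,-825⟩,⟨250,825,-282⟩⟩ (1,[(1,1)]) (259,[(2,275),(5,25520),(4,66712)])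 (1,[(0,1)])) (.leaf false ⟨⟨-873,-2,246⟩,⟨-218,-414,-777⟩,⟨-114,807,-398⟩⟩ (250,[(3,184686),(0,873),(4,719725)]) (125,[(3,127863),(0,109),(4,38175)]) (125,[(3,65824),(0,57),(4,147900)]))) (.leaf false ⟨⟨-903,34,-78⟩,⟨34,-618,-663⟩,⟨78,663,-614⟩⟩ (125,[(4,144348),(3,17120),(0,39)]) (250,[(4,526541),(3,64290),(0,663)]) (125,[(4,237999),(3,184185),(0,307)]))) (.leaf false ⟨⟨-894,142,57⟩,⟨-2,327,-846⟩,⟨153,834,322⟩⟩ (207,[(1,43368),(3,200536),(0,71)]) (138,[(1,201441),(3,24038),(0,109)]) (69,[(1,85785),(3,19745),(0,139)])))) (.node ⟨0,0,1⟩ (.node ⟨-218,-777,-414⟩ (.node ⟨-807,250,330⟩ (.node ⟨250,-282,825⟩ (.leaf false ⟨⟨-807,250,330⟩,⟨-330,-825,-182⟩,⟨250,-282,825⟩⟩ (1,[(1,1)]) (259,[(3,66712),(5,25520),(2,275)]) (1,[(0,1)])) (.leaf false ⟨⟨-873,246,-2⟩,⟨-218,-777,-414⟩,⟨-114,-398,807⟩⟩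 (250,[(3,719725),(0,873),(4,184686)]) (125,[(3,38175),(0,109),(4,127863)]) (125,[(3,147900),(0,57),(4,65824)]))) (.leaf false ⟨⟨-903,-78,34⟩,⟨34,-663,-618⟩,⟨78,-614,663⟩⟩ (125,[(2,17120),(4,144348),(0,39)]) (250,[(2,64290),(4,526541),(0,663)]) (125,[(2,184185),(4,237999),(0,307)]))) (.leaf false ⟨⟨-894,-2,153⟩,⟨57,-846,322⟩,⟨142,327,834⟩⟩ (46,[(3,44830),(2,13301),(0,17)]) (9,[(3,1013),(2,13053),(0,7)]) (69,[(3,20504),(2,85440),(0,139)]))) (.node ⟨-153,222,-866⟩ (.node ⟨-866,-183,198⟩ (.node ⟨198,-873,-146⟩ (.leaf false ⟨⟨-882,-183,106⟩,⟨-146,198,-873⟩,⟨153,-866,-222⟩⟩ (1,[(3,92),(5,16),(1,1)]) (37,[(3,3723),(2,33),(5,353)]) (22,[(3,2402),(4,4211),(0,17)])) (.leaf false ⟨⟨-882,106,183⟩,⟨-153,222,-866⟩,⟨-146,-873,-198⟩⟩ (11,[(3,5141),(0,49),(4,41611)]) (22,[(3,21534),(0,17),(4,9957)])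 (99,[(3,30260),(0,73),(4,150156)]))) (.leaf false ⟨⟨-906,7,-42⟩,⟨7,-858,-294⟩,⟨42,294,-857⟩⟩ (33,[(4,35960),(3,1050),(0,7)]) (33,[(4,42203),(3,37281),(0,49)]) (198,[(4,733846),(3,98619),(0,857)]))) (.leaf false ⟨⟨-906,-42,7⟩,⟨7,-294,-858⟩,⟨42,-857,294⟩⟩ (37,[(1,5803),(3,34593),(0,7)]) (37,[(1,74180),(3,7238),(0,49)]) (222,[(1,676894),(3,121797),(0,857)])))))
theorem pf907_ok : pf907.check (ok 907 6 ⟨5, 5, 5⟩) (fun _ r => r) [] = true := by decide +kernel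

def pf911 : T := .node ⟨1,0,0⟩ (.node ⟨0,1,0⟩ (.node ⟨0,0,1⟩ (.node ⟨-182,54,891⟩ (.node ⟨-54,891,-182⟩ (.leaf false ⟨⟨-182,54,891⟩,⟨-54,907,-66⟩,⟨891,66,178⟩⟩ (1,[(1,1)]) (891,[(2,106268),(4,864),(0,907)]) (27,[(2,5170),(4,24165),(0,2)])) (.leaf false ⟨⟨-171,-38,894⟩,⟨534,726,133⟩,⟨718,-549,114⟩⟩ (803709,[(4,1844641),(1,789638),(0,82134)]) (26,[(4,12858),(3,35805),(0,19)]) (91,[(4,62260),(3,828),(0,57)]))) (.leaf false ⟨⟨54,891,-182⟩,⟨66,178,891⟩,⟨907,-66,-54⟩⟩ (91,[(1,7495),(0,27),(2,82539)]) (91,[(1,110484),(0,33),(2,17980)]) (182,[(1,798309),(0,907),(2,36966)]))) (.node ⟨-294,853,-126⟩ (.node ⟨186,-443,-774⟩ (.node ⟨891,126,142⟩ (.leaf false ⟨⟨-38,786,-459⟩,⟨186,-443,-774⟩,⟨891,126,142⟩⟩ (147,[(3,65079),(4,99335),(2,19)]) (1,[(1,1)]) (1,[(0,1)])) (.leaf false ⟨⟨-891,54,-182⟩,⟨66,907,-54⟩,⟨178,-66,-891⟩⟩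 (71,[(5,17820),(4,15300),(0,91)]) (71,[(5,28743),(4,67799),(0,27)]) (142,[(5,819157),(4,102894),(0,891)]))) (.leaf false ⟨⟨-299,726,-462⟩,⟨66,507,754⟩,⟨858,214,-219⟩⟩ (443,[(2,766590),(4,2579),(0,726)]) (443,[(2,58396),(4,123540),(0,507)]) (443,[(2,262653),(4,419898),(0,214)]))) (.leaf false ⟨⟨21,126,-902⟩,⟨294,853,126⟩,⟨862,-294,-21⟩⟩ (14,[(1,12754),(0,1),(2,2617)]) (1,[(0,1),(2,1706)]) (147,[(1,57393),(0,431),(2,324425)])))) (.node ⟨0,0,1⟩ (.node ⟨-294,-126,853⟩ (.node ⟨186,-774,-443⟩ (.node ⟨891,142,126⟩ (.leaf false ⟨⟨-38,-459,786⟩,⟨186,-774,-443⟩,⟨891,142,126⟩⟩ (147,[(3,99335),(4,65079),(2,19)]) (1,[(1,1)]) (1,[(0,1)])) (.leaf false ⟨⟨-891,-182,54⟩,⟨66,-54,907⟩,⟨178,-891,-66⟩⟩ (71,[(3,15300),(5,17820),(0,91)]) (71,[(3,67799),(5,28743),(0,27)]) (142,[(3,102894),(5,819157),(0,891)])))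 (.leaf false ⟨⟨-299,-462,726⟩,⟨66,754,507⟩,⟨858,-219,214⟩⟩ (443,[(4,2579),(3,766590),(0,726)]) (443,[(4,123540),(3,58396),(0,507)]) (443,[(4,419898),(3,262653),(0,214)]))) (.leaf false ⟨⟨21,-902,126⟩,⟨294,126,853⟩,⟨862,-21,-294⟩⟩ (14,[(1,2617),(0,1),(2,12754)]) (1,[(1,1706),(0,1)]) (147,[(1,324425),(0,431),(2,57393)]))) (.node ⟨-261,-830,-270⟩ (.node ⟨66,178,-891⟩ (.node ⟨907,-66,54⟩ (.leaf false ⟨⟨-54,-891,-182⟩,⟨66,178,-891⟩,⟨907,-66,54⟩⟩ (29,[(3,3658),(4,20859),(2,6)]) (1,[(1,1)]) (1,[(0,1)])) (.leaf false ⟨⟨-891,-38,-186⟩,⟨126,-786,-443⟩,⟨142,459,-774⟩⟩ (9,[(5,20098),(4,2388),(0,31)]) (54,[(5,408605),(4,71682),(0,443)]) (3,[(5,39427),(4,1461),(0,43)]))) (.leaf false ⟨⟨-282,-866,-21⟩,⟨606,-213,646⟩,⟨619,-186,-642⟩⟩ (89,[(2,387672),(4,3480),(0,433)]) (178,[(2,74795),(4,121926),(0,213)])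 (89,[(2,140001),(4,61229),(0,93)]))) (.leaf false ⟨⟨21,-866,-282⟩,⟨642,-186,619⟩,⟨646,213,-606⟩⟩ (87,[(1,26424),(0,7),(2,81152)]) (87,[(1,3927),(0,214),(2,193802)]) (261,[(1,332586),(0,646),(2,480587)]))))) (.node ⟨0,1,0⟩ (.node ⟨0,0,1⟩ (.node ⟨-126,853,-294⟩ (.node ⟨-774,-443,186⟩ (.node ⟨142,126,891⟩ (.leaf false ⟨⟨-774,-443,186⟩,⟨-459,786,-38⟩,⟨142,126,891⟩⟩ (1,[(1,1)]) (147,[(5,65079),(2,19),(4,99335)]) (1,[(0,1)])) (.leaf false ⟨⟨-902,-126,21⟩,⟨-126,853,-294⟩,⟨-21,294,862⟩⟩ (71,[(3,403332),(0,451),(4,47880)]) (71,[(3,35259),(0,63),(4,68501)]) (142,[(3,141115),(0,21),(4,44394)]))) (.leaf false ⟨⟨-902,21,126⟩,⟨-21,862,-294⟩,⟨126,294,853⟩⟩ (443,[(2,59724),(4,415840),(0,21)]) (443,[(2,30090),(4,676491),(0,862)]) (443,[(2,432563),(4,171738),(0,294)]))) (.leaf false ⟨⟨-902,-21,126⟩,⟨21,862,294⟩,⟨126,-294,853⟩⟩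 (7,[(3,6692),(2,2412),(0,3)]) (1,[(3,105),(2,1715),(0,1)]) (294,[(3,70434),(2,641173),(0,853)]))) (.node ⟨-870,70,261⟩ (.node ⟨270,870,-11⟩ (.node ⟨-830,261,270⟩ (.leaf false ⟨⟨-830,261,270⟩,⟨-261,70,-870⟩,⟨270,870,-11⟩⟩ (1,[(0,1)]) (87,[(3,75613),(5,24597),(1,7)]) (1,[(1,1)])) (.leaf false ⟨⟨-894,-171,-38⟩,⟨-114,718,-549⟩,⟨133,-534,-726⟩⟩ (1115975,[(2,57945066),(1,11825066),(0,55688865)]) (1115975,[(2,127003421),(1,27873396),(0,123903540)]) (4463900,[(2,509729097),(1,106369647),(0,500407480)]))) (.leaf false ⟨⟨-870,70,261⟩,⟨-270,-261,-830⟩,⟨-11,870,-270⟩⟩ (1,[(1,1)]) (1,[(2,841),(0,1),(3,609)]) (270,[(2,73021),(0,11),(3,244470)]))) (.leaf false ⟨⟨-891,54,-182⟩,⟨66,907,-54⟩,⟨178,-66,-891⟩⟩ (261,[(3,390891),(2,26834),(0,182)]) (29,[(3,3306),(2,26723),(0,6)]) (29,[(3,80968),(2,5016),(0,99)]))))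 (.node ⟨0,0,1⟩ (.node ⟨-870,261,70⟩ (.node ⟨270,-11,870⟩ (.node ⟨-830,270,261⟩ (.leaf false ⟨⟨-830,270,261⟩,⟨-261,-870,70⟩,⟨270,-11,870⟩⟩ (1,[(0,1)]) (87,[(5,24597),(4,75613),(1,7)]) (1,[(1,1)])) (.leaf false ⟨⟨-894,-38,-171⟩,⟨-114,-549,718⟩,⟨133,-726,-534⟩⟩ (1115975,[(2,57945066),(0,55688865),(1,11825066)]) (1115975,[(2,127003421),(0,123903540),(1,27873396)]) (4463900,[(2,509729097),(0,500407480),(1,106369647)]))) (.leaf false ⟨⟨-870,214,165⟩,⟨-245,-390,-786⟩,⟨-114,-795,430⟩⟩ (1,[(2,95),(1,1),(3,47)]) (54,[(2,186),(0,49),(3,21599)]) (45,[(2,35880),(0,19),(3,35984)]))) (.leaf false ⟨⟨-891,-182,54⟩,⟨66,-54,907⟩,⟨178,-891,-66⟩⟩ (261,[(1,26834),(3,390891),(0,182)]) (29,[(1,26723),(3,3306),(0,6)]) (29,[(1,5016),(3,80968),(0,99)]))) (.leaf false ⟨⟨-911,0,0⟩,⟨0,-911,0⟩,⟨0,0,-911⟩⟩ (1,[(2,911)])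 (1,[(1,911)]) (1,[(0,911)]))))
theorem pf911_ok : pf911.check (ok 911 6 ⟨5, 5, 5⟩) (fun _ r => r) [] = true := by decide +kernel

def pf919 : T := .node ⟨1,0,0⟩ (.node ⟨0,1,0⟩ (.node ⟨0,0,1⟩ (.leaf false ⟨⟨0,0,919⟩,⟨0,919,0⟩,⟨919,0,0⟩⟩ (1,[(0,919)]) (1,[(1,919)]) (1,[(2,919)])) (.node ⟨846,118,339⟩ (.node ⟨-98,861,306⟩ (.node ⟨-189,282,-854⟩ (.leaf false ⟨⟨-189,282,-854⟩,⟨-98,861,306⟩,⟨894,154,-147⟩⟩ (1,[(0,1)]) (1,[(1,1)]) (123,[(3,24813),(5,112118),(1,22)])) (.leaf false ⟨⟨-98,861,-306⟩,⟨189,-282,-854⟩,⟨894,154,147⟩⟩ (1,[(3,612),(1,1)]) (1,[(3,1708),(0,1)]) (147,[(3,801343),(0,854),(1,306)]))) (.leaf false ⟨⟨46,426,-813⟩,⟨318,-771,-386⟩,⟨861,262,186⟩⟩ (49,[(2,32799),(0,23),(3,40677)]) (73997,[(2,14175604),(0,68979),(1,19824)]) (282,[(2,44841),(1,287),(3,40018)]))) (.leaf false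 ⟨⟨-846,109,-342⟩,⟨186,882,-179⟩,⟨307,-234,-834⟩⟩ (113,[(3,846),(2,25769),(0,114)]) (339,[(3,214488),(2,320120),(0,179)]) (113,[(3,269879),(2,6362),(0,278)])))) (.node ⟨0,0,1⟩ (.node ⟨846,339,118⟩ (.node ⟨-98,306,861⟩ (.node ⟨-189,-854,282⟩ (.leaf false ⟨⟨-189,-854,282⟩,⟨-98,306,861⟩,⟨894,-147,154⟩⟩ (1,[(0,1)]) (1,[(1,1)]) (123,[(5,112118),(4,24813),(1,22)])) (.leaf false ⟨⟨-98,-306,861⟩,⟨189,-854,-282⟩,⟨894,147,154⟩⟩ (1,[(4,612),(1,1)]) (1,[(4,1708),(0,1)]) (147,[(4,801343),(1,306),(0,854)]))) (.leaf false ⟨⟨46,-813,426⟩,⟨318,-386,-771⟩,⟨861,186,262⟩⟩ (49,[(2,40677),(0,23),(3,32799)]) (73997,[(1,19824),(0,68979),(3,14175604)]) (282,[(2,40018),(1,287),(3,44841)]))) (.leaf false ⟨⟨-846,-342,109⟩,⟨186,-179,882⟩,⟨307,-834,-234⟩⟩ (113,[(1,25769),(3,846),(0,114)]) (339,[(1,320120),(3,214488),(0,179)])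 (113,[(1,6362),(3,269879),(0,278)]))) (.node ⟨-186,-899,42⟩ (.node ⟨883,-174,186⟩ (.leaf false ⟨⟨-186,-899,42⟩,⟨174,-78,-899⟩,⟨883,-174,186⟩⟩ (1,[(1,1)]) (899,[(2,811477),(4,170934),(1,78)]) (1,[(0,1)])) (.leaf false ⟨⟨-894,-98,-189⟩,⟨147,306,-854⟩,⟨154,-861,-282⟩⟩ (53302,[(4,6739027),(1,17038),(0,58009)]) (79953,[(4,353565032),(1,45840),(0,377447)]) (26651,[(4,53221128),(1,34869),(0,48280)]))) (.node ⟨-125,-90,-906⟩ (.leaf false ⟨⟨-125,-90,-906⟩,⟨594,685,-150⟩,⟨690,-606,-35⟩⟩ (1,[(0,1)]) (136379,[(1,105685),(4,63561716),(0,17680)]) (6,[(1,5),(4,3210),(3,8131)])) (.leaf false ⟨⟨3,-834,-386⟩,⟨154,381,-822⟩,⟨906,-62,141⟩⟩ (62,[(2,23890),(1,1),(3,52607)]) (93,[(2,73212),(1,77),(3,33790)]) (125,[(2,803211),(0,906),(3,89290)])))))) (.node ⟨0,1,0⟩ (.node ⟨0,0,1⟩ (.node ⟨339,118,846⟩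 (.node ⟨306,861,-98⟩ (.node ⟨-854,282,-189⟩ (.leaf false ⟨⟨-854,66,333⟩,⟨18,909,-134⟩,⟨339,118,846⟩⟩ (47,[(3,17730),(5,30744),(0,11)]) (724663,[(0,237132),(1,684991),(2,17544)]) (1,[(2,1)])) (.leaf false ⟨⟨-906,-125,90⟩,⟨-35,690,606⟩,⟨150,-594,685⟩⟩ (135093,[(5,178646248),(1,1755),(0,65240)]) (45031,[(5,200087437),(1,100434),(0,196462)]) (45031,[(5,152818672),(1,26968),(0,177191)]))) (.leaf false ⟨⟨-906,99,118⟩,⟨46,-498,771⟩,⟨147,766,486⟩⟩ (49,[(4,26340),(3,55650),(0,59)]) (739970,[(4,17696017),(1,615027),(0,512286)]) (47,[(4,2244),(3,32816),(1,27)]))) (.leaf false ⟨⟨-845,-294,-210⟩,⟨-294,870,-35⟩,⟨-210,-35,894⟩⟩ (339,[(1,643680),(0,845),(2,44)]) (113,[(1,78953),(0,98),(2,109874)]) (113,[(1,160242),(0,70),(2,4305)]))) (.node ⟨-899,-186,42⟩ (.node ⟨-174,883,186⟩ (.leaf false ⟨⟨-899,-186,42⟩,⟨-174,883,186⟩,⟨-78,174,-899⟩⟩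 (1,[(1,1)]) (1,[(0,1)]) (899,[(2,811477),(1,78),(3,170934)])) (.leaf false ⟨⟨-909,-134,18⟩,⟨-66,333,-854⟩,⟨118,-846,-339⟩⟩ (26651,[(1,27657),(3,4810046),(0,3666)]) (79953,[(1,80436),(3,381769142),(0,385259)]) (53302,[(1,12346),(3,45445469),(0,99935)]))) (.node ⟨-90,-125,-906⟩ (.leaf false ⟨⟨-606,690,-35⟩,⟨-90,-125,-906⟩,⟨685,594,-150⟩⟩ (6,[(4,8131),(3,3210),(1,5)]) (1,[(0,1)]) (28961,[(4,63561716),(1,92819),(0,492)])) (.leaf false ⟨⟨-906,46,-147⟩,⟨-99,498,766⟩,⟨118,771,-486⟩⟩ (93,[(2,12705),(4,104935),(1,23)]) (125,[(2,355438),(4,57195),(0,498)]) (62,[(2,19338),(4,223727),(1,257)]))))) (.node ⟨0,0,1⟩ (.node ⟨42,-899,-186⟩ (.node ⟨186,-174,883⟩ (.leaf false ⟨⟨-899,-78,174⟩,⟨42,-899,-186⟩,⟨186,-174,883⟩⟩ (899,[(2,170934),(4,811477),(1,78)]) (1,[(1,1)]) (1,[(0,1)])) (.leaf false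 ⟨⟨-906,154,3⟩,⟨-141,-822,-386⟩,⟨-62,-381,834⟩⟩ (26651,[(2,122993446),(0,134671),(1,21500)]) (53302,[(2,37896803),(0,53761),(1,59142)]) (79953,[(2,105947834),(0,35870),(1,40827)]))) (.node ⟨-906,-90,-125⟩ (.leaf false ⟨⟨-906,-90,-125⟩,⟨-150,685,594⟩,⟨-35,-606,690⟩⟩ (1,[(0,1)]) (136379,[(2,63561716),(1,105685),(0,17680)]) (6,[(2,3210),(1,5),(3,8131)])) (.leaf false ⟨⟨-906,-147,46⟩,⟨-99,766,498⟩,⟨118,-486,771⟩⟩ (93,[(1,23),(4,83292),(3,34348)]) (57922,[(1,154521),(3,94621187),(0,834)]) (125,[(4,683776),(3,130140),(0,771)])))) (.node ⟨-210,294,-845⟩ (.node ⟨-210,-845,294⟩ (.node ⟨-870,294,-35⟩ (.leaf false ⟨⟨-894,210,-35⟩,⟨-210,-845,294⟩,⟨-35,-294,-870⟩⟩ (6265,[(0,6433),(1,20),(4,558752)]) (1,[(1,1)]) (6,[(3,4375),(2,1),(4,2058)])) (.leaf false ⟨⟨-870,-294,-35⟩,⟨-35,210,-894⟩,⟨294,-845,-210⟩⟩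 (81,[(2,7),(5,145560),(0,88)]) (5670,[(2,6083),(5,689730),(0,2033)]) (25331360,[(2,15540609),(1,24405260),(0,18202359)]))) (.leaf false ⟨⟨-909,-18,-134⟩,⟨66,-854,-333⟩,⟨118,339,-846⟩⟩ (147,[(4,147693),(3,59261),(0,67)]) (98,[(4,16842),(3,177487),(0,111)]) (49,[(4,23828),(3,102534),(0,141)]))) (.leaf false ⟨⟨-909,-134,-18⟩,⟨66,-333,-854⟩,⟨118,-846,339⟩⟩ (147,[(1,59261),(3,147693),(0,67)]) (98,[(1,177487),(3,16842),(0,111)]) (49,[(1,102534),(3,23828),(0,141)])))))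
theorem pf919_ok : pf919.check (ok 919 6 ⟨5, 5, 5⟩) (fun _ r => r) [] = true := by decide +kernel

def pf929 : T := .node ⟨1,0,0⟩ (.node ⟨0,1,0⟩ (.node ⟨0,0,1⟩ (.node ⟨-465,396,700⟩ (.node ⟨144,903,-164⟩ (.node ⟨879,-228,196⟩ (.leaf false ⟨⟨-228,196,879⟩,⟨144,903,-164⟩,⟨889,-96,252⟩⟩ (99,[(3,52721),(5,213),(2,49)]) (1,[(1,1)]) (19,[(3,3220),(0,8),(5,9859)])) (.leaf false ⟨⟨-884,231,-168⟩,⟨-84,312,871⟩,⟨273,844,-276⟩⟩ (76,[(3,2324),(5,499),(0,77)]) (19,[(3,21645),(5,21258),(0,26)]) (57,[(3,25624),(5,201030),(0,211)]))) (.leaf false ⟨⟨-596,-153,696⟩,⟨-81,916,132⟩,⟨708,-24,601⟩⟩ (41,[(4,620),(3,150849),(0,174)]) (41,[(4,1431),(3,67355),(0,33)]) (164,[(4,202656),(3,538767),(0,601)]))) (.leaf false ⟨⟨24,153,916⟩,⟨601,696,-132⟩,⟨708,-596,81⟩⟩ (155,[(1,147580),(0,8),(2,26883)]) (465,[(1,359320),(0,601),(2,561636)])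 (155,[(1,177755),(0,236),(2,1076)]))) (.node ⟨924,39,88⟩ (.node ⟨-84,921,88⟩ (.leaf false ⟨⟨-47,924,84⟩,⟨84,88,-921⟩,⟨924,39,88⟩⟩ (307,[(2,1316),(4,11443),(0,308)]) (921,[(2,855985),(4,84756),(0,88)]) (1,[(1,1)])) (.leaf false ⟨⟨7,96,-924⟩,⟨444,-812,-81⟩,⟨816,441,52⟩⟩ (12,[(2,11000),(0,1),(3,2073)]) (71190,[(2,2635878),(0,63967),(1,28393)]) (77,[(2,1980),(1,68),(3,31305)]))) (.leaf false ⟨⟨-816,7,-444⟩,⟨52,924,-81⟩,⟨441,-96,-812⟩⟩ (22,[(3,84612),(2,4483),(0,111)]) (88,[(3,79420),(2,84471),(0,81)]) (22,[(3,197274),(2,5805),(0,203)])))) (.node ⟨0,0,1⟩ (.node ⟨924,88,39⟩ (.node ⟨-84,88,921⟩ (.leaf false ⟨⟨-47,84,924⟩,⟨84,-921,88⟩,⟨924,88,39⟩⟩ (307,[(4,11443),(3,1316),(0,308)]) (921,[(4,84756),(3,855985),(0,88)]) (1,[(1,1)])) (.leaf false ⟨⟨7,-924,96⟩,⟨444,-81,-812⟩,⟨816,52,441⟩⟩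 (12,[(2,2073),(0,1),(3,11000)]) (7392,[(2,2635878),(1,2689),(0,9493)]) (77,[(2,31305),(1,68),(3,1980)]))) (.leaf false ⟨⟨-816,-444,7⟩,⟨52,-81,924⟩,⟨441,-812,-96⟩⟩ (22,[(1,4483),(3,84612),(0,111)]) (88,[(1,84471),(3,79420),(0,81)]) (22,[(1,5805),(3,197274),(0,203)]))) (.node ⟨871,-120,300⟩ (.node ⟨-300,-879,-20⟩ (.leaf false ⟨⟨-300,-879,-20⟩,⟨120,-20,-921⟩,⟨871,-300,120⟩⟩ (1,[(0,1)]) (879,[(2,809159),(4,111480),(0,20)]) (4435,[(4,2622567),(1,1858),(0,1260)])) (.leaf false ⟨⟨52,-81,-924⟩,⟨441,-812,96⟩,⟨816,444,7⟩⟩ (67,[(2,63108),(1,4),(3,4947)]) (871,[(2,48684),(1,441),(3,654332)]) (25,[(2,1185),(0,68),(3,48672)]))) (.leaf false ⟨⟨-756,-56,-537⟩,⟨108,-921,-56⟩,⟨529,108,-756⟩⟩ (100,[(3,80309),(2,27080),(0,179)]) (75,[(3,20294),(2,70755),(0,14)]) (25,[(3,68098),(2,4860),(0,63)])))))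 (.node ⟨0,1,0⟩ (.node ⟨0,0,1⟩ (.node ⟨88,924,39⟩ (.node ⟨88,-84,921⟩ (.leaf false ⟨⟨-921,84,88⟩,⟨84,-47,924⟩,⟨88,924,39⟩⟩ (921,[(4,855985),(3,84756),(0,88)]) (307,[(4,1316),(3,11443),(0,308)]) (1,[(1,1)])) (.leaf false ⟨⟨-924,7,96⟩,⟨-81,444,-812⟩,⟨52,816,441⟩⟩ (12,[(2,2073),(4,11000),(0,1)]) (7392,[(2,2635878),(0,9493),(1,2689)]) (77,[(2,31305),(4,1980),(1,68)]))) (.leaf false ⟨⟨-921,-56,-108⟩,⟨-108,756,529⟩,⟨-56,-537,756⟩⟩ (88,[(1,26415),(0,921),(2,846076)]) (22,[(1,12691),(0,27),(2,41580)]) (11,[(1,8589),(0,7),(2,561)]))) (.node ⟨-120,871,300⟩ (.node ⟨-879,-300,-20⟩ (.leaf false ⟨⟨-921,-120,-20⟩,⟨-120,871,300⟩,⟨-20,300,-879⟩⟩ (4435,[(0,4645),(1,14),(3,849106)]) (1,[(1,1)]) (6,[(2,5574),(1,1),(3,929)])) (.leaf false ⟨⟨-903,144,-164⟩,⟨96,889,252⟩,⟨196,228,-879⟩⟩ (25,[(2,4340),(4,33123),(0,12)])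 (18145,[(4,6897438),(1,14455),(0,11802)]) (25,[(2,22355),(4,11801),(0,19)]))) (.leaf false ⟨⟨-924,7,-96⟩,⟨52,816,-441⟩,⟨81,-444,-812⟩⟩ (25,[(3,24060),(2,7143),(0,8)]) (100,[(3,12440),(2,209637),(0,147)]) (75,[(3,18285),(2,143513),(0,203)])))) (.node ⟨0,0,1⟩ (.node ⟨-120,300,871⟩ (.node ⟨-879,-20,-300⟩ (.leaf false ⟨⟨-921,-20,-120⟩,⟨-120,300,871⟩,⟨-20,-879,300⟩⟩ (4435,[(2,849106),(1,14),(0,4645)]) (1,[(1,1)]) (6,[(2,929),(1,1),(3,5574)])) (.leaf false ⟨⟨-903,-164,144⟩,⟨96,252,889⟩,⟨196,-879,228⟩⟩ (25,[(4,33123),(3,4340),(0,12)]) (18145,[(1,14455),(4,6897438),(0,11802)]) (25,[(4,11801),(3,22355),(0,19)]))) (.leaf false ⟨⟨-924,-96,7⟩,⟨52,-441,816⟩,⟨81,-812,-444⟩⟩ (25,[(1,7143),(3,24060),(0,8)]) (100,[(1,209637),(3,12440),(0,147)]) (75,[(1,143513),(3,18285),(0,203)]))) (.leaf false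 ⟨⟨-929,0,0⟩,⟨0,-929,0⟩,⟨0,0,-929⟩⟩ (1,[(2,929)]) (1,[(1,929)]) (1,[(0,929)]))))
theorem pf929_ok : pf929.check (ok 929 6 ⟨5, 5, 5⟩) (fun _ r => r) [] = true := by decide +kernel

def pf937 : T := .node ⟨1,0,0⟩ (.node ⟨0,1,0⟩ (.node ⟨0,0,1⟩ (.leaf false ⟨⟨0,0,937⟩,⟨0,937,0⟩,⟨937,0,0⟩⟩ (1,[(0,937)]) (1,[(1,937)]) (1,[(2,937)])) (.node ⟨-215,0,-912⟩ (.leaf false ⟨⟨-215,0,-912⟩,⟨0,937,0⟩,⟨912,0,-215⟩⟩ (1,[(0,1)]) (1,[(2,937)]) (912,[(3,877969),(0,215)])) (.node ⟨793,-444,-228⟩ (.leaf false ⟨⟨12,172,-921⟩,⟨129,912,172⟩,⟨928,-129,-12⟩⟩ (215,[(2,208959),(1,12),(3,36980)]) (5,[(2,1876),(1,3),(3,4560)]) (21451,[(0,23581),(1,5613),(3,7702785)])) (.leaf false ⟨⟨-800,480,-87⟩,⟨312,375,-800⟩,⟨375,712,480⟩⟩ (1591,[(2,917265),(1,424),(0,1720)]) (31820,[(2,164098012),(1,145301),(0,26875)]) (23865,[(2,163964808),(1,182779),(0,38270)])))))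 (.node ⟨0,0,1⟩ (.node ⟨-215,-912,0⟩ (.leaf false ⟨⟨-215,-912,0⟩,⟨0,0,937⟩,⟨912,-215,0⟩⟩ (1,[(0,1)]) (1,[(1,937)]) (912,[(3,877969),(0,215)])) (.node ⟨793,-228,-444⟩ (.leaf false ⟨⟨12,-921,172⟩,⟨129,172,912⟩,⟨928,-12,-129⟩⟩ (215,[(2,36980),(1,12),(3,208959)]) (5,[(2,4560),(1,3),(3,1876)]) (21451,[(2,7702785),(1,5613),(0,23581)])) (.leaf false ⟨⟨-800,-87,480⟩,⟨312,-800,375⟩,⟨375,480,712⟩⟩ (1591,[(1,424),(3,917265),(0,1720)]) (31820,[(1,145301),(3,164098012),(0,26875)]) (23865,[(1,182779),(3,163964808),(0,38270)])))) (.node ⟨28,-924,153⟩ (.node ⟨865,360,-12⟩ (.leaf false ⟨⟨12,-60,-935⟩,⟨360,-863,60⟩,⟨865,360,-12⟩⟩ (865,[(2,808631),(0,12),(3,56220)]) (44227,[(0,17800),(1,18740),(3,27260141)]) (1,[(0,1)])) (.leaf false ⟨⟨-836,-423,-12⟩,⟨72,-116,-927⟩,⟨417,-828,136⟩⟩ (40,[(2,1044),(4,7215),(0,47)])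 (90,[(2,83778),(4,31565),(0,29)]) (77,[(2,85),(4,30177),(1,69)]))) (.leaf false ⟨⟨-153,28,-924⟩,⟨28,-936,-33⟩,⟨924,33,-152⟩⟩ (51,[(3,821),(2,283164),(0,308)]) (51,[(3,1736),(2,57900),(0,11)]) (153,[(3,145628),(2,135399),(0,152)]))))) (.node ⟨0,1,0⟩ (.node ⟨0,0,1⟩ (.node ⟨-912,-215,0⟩ (.leaf false ⟨⟨-912,-215,0⟩,⟨-215,912,0⟩,⟨0,0,937⟩⟩ (1,[(0,1)]) (912,[(0,215),(2,877969)]) (1,[(1,937)])) (.node ⟨-228,793,-444⟩ (.leaf false ⟨⟨-921,12,172⟩,⟨-12,928,-129⟩,⟨172,129,912⟩⟩ (215,[(2,36980),(4,208959),(1,12)]) (21451,[(2,7702785),(0,23581),(1,5613)]) (5,[(2,4560),(4,1876),(1,3)])) (.leaf false ⟨⟨-921,-12,172⟩,⟨12,928,129⟩,⟨172,-129,912⟩⟩ (23865,[(4,53971029),(1,32767),(0,9245)]) (31820,[(4,158082036),(1,171443),(0,9245)]) (1591,[(4,10593740),(1,11099),(0,3268)])))) (.node ⟨-924,28,153⟩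 (.node ⟨360,865,-12⟩ (.leaf false ⟨⟨-924,28,153⟩,⟨-152,33,-924⟩,⟨33,936,28⟩⟩ (1,[(1,1)]) (865,[(2,798864),(4,143360),(0,33)]) (269780,[(2,4712173),(1,102805),(0,288596)])) (.leaf false ⟨⟨-863,-360,60⟩,⟨-360,865,12⟩,⟨-60,-12,-935⟩⟩ (14664,[(0,25533),(1,3748),(3,16702061)]) (1,[(0,1),(3,1730)]) (6,[(2,5622),(0,1),(3,793)]))) (.leaf false ⟨⟨-936,28,-33⟩,⟨28,-153,-924⟩,⟨33,924,-152⟩⟩ (51,[(3,57900),(2,1736),(0,11)]) (51,[(3,283164),(2,821),(0,308)]) (153,[(3,135399),(2,145628),(0,152)])))) (.node ⟨0,0,1⟩ (.node ⟨153,-924,28⟩ (.node ⟨-12,360,865⟩ (.leaf false ⟨⟨-935,-60,12⟩,⟨-12,360,865⟩,⟨60,-863,360⟩⟩ (865,[(4,808631),(3,56220),(0,12)]) (1,[(0,1)]) (44227,[(3,27260141),(1,18740),(0,17800)])) (.leaf false ⟨⟨-935,-60,-12⟩,⟨12,-360,865⟩,⟨60,-863,-360⟩⟩ (6,[(2,793),(4,5622),(0,1)]) (1,[(2,1730),(0,1)])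 (14664,[(2,16702061),(0,25533),(1,3748)]))) (.leaf false ⟨⟨-924,28,-153⟩,⟨-152,33,924⟩,⟨-33,-936,28⟩⟩ (51,[(1,821),(0,308),(2,283164)]) (153,[(1,145628),(0,152),(2,135399)]) (51,[(1,1736),(0,11),(2,57900)]))) (.node ⟨-192,388,-831⟩ (.node ⟨-876,-252,217⟩ (.node ⟨168,-863,-324⟩ (.leaf false ⟨⟨-876,-252,217⟩,⟨-287,264,-852⟩,⟨168,-863,-324⟩⟩ (1,[(1,1)]) (97,[(3,27798),(2,66),(5,15167)]) (1,[(0,1)])) (.leaf false ⟨⟨-927,12,136⟩,⟨-116,423,-828⟩,⟨-72,-836,-417⟩⟩ (56,[(3,92500),(0,309),(4,265995)]) (42,[(3,44172),(0,29),(4,7261)]) (7,[(3,3891),(0,3),(4,8441)]))) (.leaf false ⟨⟨-927,-116,-72⟩,⟨12,423,-836⟩,⟨136,-828,-417⟩⟩ (217,[(4,264231),(3,43316),(0,72)]) (217,[(4,729732),(3,118881),(0,836)]) (217,[(4,335780),(3,284760),(0,417)]))) (.leaf false ⟨⟨-927,-116,72⟩,⟨-12,-423,-836⟩,⟨136,-828,417⟩⟩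 (97,[(1,17115),(3,95487),(0,29)]) (388,[(1,675881),(3,85872),(0,423)]) (97,[(1,131568),(3,26552),(0,207)])))))
theorem pf937_ok : pf937.check (ok 937 6 ⟨5, 5, 5⟩) (fun _ r => r) [] = true := by decide +kernel

def pf941 : T := .node ⟨1,0,0⟩ (.node ⟨0,1,0⟩ (.node ⟨0,0,1⟩ (.node ⟨-300,240,859⟩ (.node ⟨859,240,-300⟩ (.node ⟨-300,891,40⟩ (.leaf false ⟨⟨-300,891,40⟩,⟨240,40,909⟩,⟨859,300,-240⟩⟩ (1,[(0,1)]) (6,[(3,4595),(5,1740),(2,1)]) (4615,[(5,893009),(1,3764),(0,540)])) (.leaf false ⟨⟨-240,40,909⟩,⟨300,891,40⟩,⟨859,-300,240⟩⟩ (4095,[(4,99519),(2,4385),(0,1109)]) (819,[(4,1511538),(2,80),(0,899)]) (216527857,[(1,207455857),(2,140711220),(0,166687380)]))) (.leaf false ⟨⟨-840,-59,420⟩,⟨141,840,400⟩,⟨400,-420,741⟩⟩ (5,[(4,1813),(3,1385),(0,7)]) (3,[(4,3859),(3,3480),(0,4)]) (100,[(4,252173),(3,17280),(0,247)])))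 (.leaf false ⟨⟨40,240,909⟩,⟨300,859,-240⟩,⟨891,-300,40⟩⟩ (15,[(1,15353),(0,2),(2,4080)]) (1,[(1,619),(0,1),(2,1099)]) (100,[(1,259123),(0,297),(2,41280)]))) (.node ⟨912,76,219⟩ (.node ⟨-219,912,76⟩ (.leaf false ⟨⟨-219,912,76⟩,⟨76,96,-933⟩,⟨912,211,96⟩⟩ (1,[(0,1)]) (19,[(2,17879),(4,1882),(0,2)]) (282796,[(2,40061193),(1,292651),(0,41040)])) (.leaf false ⟨⟨0,0,-941⟩,⟨580,-741,0⟩,⟨741,580,0⟩⟩ (1,[(2,941)]) (44652,[(2,1346993),(0,37888),(1,19299)]) (16,[(2,2847),(1,13),(3,8292)]))) (.leaf false ⟨⟨-867,-84,-356⟩,⟨-36,931,-132⟩,⟨364,-108,-861⟩⟩ (219,[(3,134799),(2,8660),(0,356)]) (73,[(3,37500),(2,71307),(0,44)]) (73,[(3,288316),(2,13928),(0,287)])))) (.node ⟨0,0,1⟩ (.node ⟨912,219,76⟩ (.node ⟨-219,76,912⟩ (.leaf false ⟨⟨-219,76,912⟩,⟨76,-933,96⟩,⟨912,96,211⟩⟩ (1,[(0,1)]) (19,[(4,1882),(3,17879),(0,2)])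 (282796,[(1,292651),(3,40061193),(0,41040)])) (.leaf false ⟨⟨0,-941,0⟩,⟨580,0,-741⟩,⟨741,0,580⟩⟩ (1,[(3,941)]) (44652,[(1,19299),(0,37888),(3,1346993)]) (16,[(2,8292),(1,13),(3,2847)]))) (.leaf false ⟨⟨-867,-356,-84⟩,⟨-36,-132,931⟩,⟨364,-861,-108⟩⟩ (219,[(1,8660),(3,134799),(0,356)]) (73,[(1,71307),(3,37500),(0,44)]) (73,[(1,13928),(3,288316),(0,287)]))) (.node ⟨741,0,580⟩ (.leaf false ⟨⟨0,-941,0⟩,⟨580,0,-741⟩,⟨741,0,580⟩⟩ (1,[(2,941)]) (741,[(1,885481),(0,580)]) (1,[(0,1)])) (.node ⟨99,436,-828⟩ (.leaf false ⟨⟨-492,-684,-419⟩,⟨99,436,-828⟩,⟨796,-477,-156⟩⟩ (580,[(4,25119),(3,396720),(1,419)]) (1,[(0,1)]) (69,[(4,53637),(3,38581),(0,13)])) (.leaf false ⟨⟨-869,-348,-96⟩,⟨96,-464,813⟩,⟨348,-741,-464⟩⟩ (3161,[(4,559493),(0,2523),(1,4125)]) (63220,[(4,18236211),(0,67280),(1,7431)])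 (63220,[(4,183774198),(0,107445),(1,203963)])))))) (.node ⟨0,1,0⟩ (.node ⟨0,0,1⟩ (.node ⟨219,76,912⟩ (.node ⟨76,912,-219⟩ (.leaf false ⟨⟨-933,96,76⟩,⟨76,912,-219⟩,⟨96,211,912⟩⟩ (19,[(2,1882),(4,17879),(0,2)]) (1,[(0,1)]) (282796,[(4,40061193),(0,41040),(1,292651)])) (.leaf false ⟨⟨-941,0,0⟩,⟨0,-741,580⟩,⟨0,580,741⟩⟩ (1,[(4,941)]) (44652,[(4,1346993),(1,19299),(0,37888)]) (16,[(4,2847),(3,8292),(1,13)]))) (.leaf false ⟨⟨-924,-176,-27⟩,⟨-168,909,-176⟩,⟨-59,168,924⟩⟩ (73,[(1,278925),(0,308),(2,10560)]) (73,[(1,38224),(0,56),(2,70613)]) (219,[(1,256164),(0,59),(2,41276)]))) (.node ⟨0,741,580⟩ (.leaf false ⟨⟨-941,0,0⟩,⟨0,580,-741⟩,⟨0,741,580⟩⟩ (1,[(3,941)]) (741,[(1,885481),(0,580)]) (1,[(0,1)])) (.node ⟨436,99,-828⟩ (.leaf false ⟨⟨-867,-84,-356⟩,⟨-36,931,-132⟩,⟨364,-108,-861⟩⟩ (145,[(1,89),(4,125715),(3,53769)])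 (69,[(4,7280),(3,63150),(0,11)]) (74552,[(1,19407),(4,736116),(0,63929)])) (.leaf false ⟨⟨-936,13,96⟩,⟨-69,-744,-572⟩,⟨-68,576,-741⟩⟩ (15805,[(1,45822),(0,33930),(3,37518637)]) (63220,[(1,76631),(0,10005),(3,10738386)]) (12644,[(1,18969),(0,1972),(3,21534201)]))))) (.node ⟨0,0,1⟩ (.node ⟨0,580,741⟩ (.leaf false ⟨⟨-941,0,0⟩,⟨0,-741,580⟩,⟨0,580,741⟩⟩ (1,[(3,941)]) (741,[(0,580),(2,885481)]) (1,[(0,1)])) (.node ⟨436,-828,99⟩ (.leaf false ⟨⟨-867,-356,-84⟩,⟨-36,-132,931⟩,⟨364,-861,-108⟩⟩ (145,[(2,53769),(4,125715),(1,89)]) (69,[(2,63150),(4,7280),(0,11)]) (74552,[(4,736116),(1,19407),(0,63929)])) (.leaf false ⟨⟨-936,96,13⟩,⟨-69,-572,-744⟩,⟨-68,-741,576⟩⟩ (15805,[(2,37518637),(0,33930),(1,45822)]) (63220,[(2,10738386),(0,10005),(1,76631)]) (12644,[(2,21534201),(0,1972),(1,18969)]))))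 (.leaf false ⟨⟨-941,0,0⟩,⟨0,-941,0⟩,⟨0,0,-941⟩⟩ (1,[(2,941)]) (1,[(1,941)]) (1,[(0,941)]))))
theorem pf941_ok : pf941.check (ok 941 6 ⟨5, 5, 5⟩) (fun _ r => r) [] = true := by decide +kernel

def pf947 : T := .node ⟨1,0,0⟩ (.node ⟨0,1,0⟩ (.node ⟨0,0,1⟩ (.node ⟨-522,385,690⟩ (.node ⟨367,822,-294⟩ (.node ⟨762,-146,543⟩ (.leaf false ⟨⟨-426,447,718⟩,⟨367,822,-294⟩,⟨762,-146,543⟩⟩ (87,[(3,13476),(4,11554),(2,71)]) (1,[(1,1)]) (1,[(0,1)])) (.leaf false ⟨⟨-918,223,66⟩,⟨106,162,927⟩,⟨207,906,-182⟩⟩ (146,[(3,130725),(5,35898),(0,223)]) (73,[(3,111654),(5,69460),(0,81)]) (73,[(3,232693),(5,360297),(0,453)]))) (.leaf false ⟨⟨-678,90,655⟩,⟨255,-830,378⟩,⟨610,447,570⟩⟩ (294,[(4,41053),(3,564870),(0,655)]) (7,[(4,5088),(3,1588),(0,9)]) (49,[(4,64755),(3,99993),(0,95)]))) (.leaf false ⟨⟨6,942,97⟩,⟨657,-74,678⟩,⟨682,63,-654⟩⟩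 (87,[(1,9129),(0,1),(2,82339)]) (58,[(1,89694),(0,73),(2,23813)]) (261,[(1,64596),(0,341),(2,147728)]))) (.node ⟨906,162,223⟩ (.node ⟨-207,906,-182⟩ (.node ⟨106,-162,-927⟩ (.leaf false ⟨⟨-207,906,-182⟩,⟨106,-162,-927⟩,⟨918,223,66⟩⟩ (1,[(1,1)]) (1,[(0,1)]) (151,[(3,24153),(2,153),(4,8887)])) (.leaf false ⟨⟨-470,822,-15⟩,⟨447,270,790⟩,⟨690,385,-522⟩⟩ (27,[(3,127404),(5,1832),(0,137)]) (3,[(3,2265),(5,1871),(0,5)]) (162,[(3,441459),(5,152590),(0,385)]))) (.leaf false ⟨⟨15,750,-578⟩,⟨178,-570,-735⟩,⟨930,97,150⟩⟩ (69,[(2,40792),(0,5),(3,56280)]) (207,[(2,184541),(0,178),(3,43278)]) (69,[(2,46070),(0,310),(3,287553)]))) (.leaf false ⟨⟨-906,-38,-273⟩,⟨97,834,-438⟩,⟨258,-447,-794⟩⟩ (223,[(3,45300),(2,35752),(0,273)]) (223,[(3,418459),(2,256938),(0,438)]) (223,[(3,776898),(2,28947),(0,794)]))))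 (.node ⟨0,0,1⟩ (.node ⟨906,223,162⟩ (.node ⟨-207,-182,906⟩ (.node ⟨106,-927,-162⟩ (.leaf false ⟨⟨-207,-182,906⟩,⟨106,-927,-162⟩,⟨918,66,223⟩⟩ (1,[(1,1)]) (1,[(0,1)]) (151,[(3,8887),(2,153),(4,24153)])) (.leaf false ⟨⟨-470,-15,822⟩,⟨447,790,270⟩,⟨690,-522,385⟩⟩ (27,[(5,1832),(4,127404),(0,137)]) (3,[(5,1871),(4,2265),(0,5)]) (162,[(5,152590),(4,441459),(0,385)]))) (.leaf false ⟨⟨15,-578,750⟩,⟨178,-735,-570⟩,⟨930,150,97⟩⟩ (69,[(2,56280),(0,5),(3,40792)]) (207,[(2,43278),(0,178),(3,184541)]) (69,[(2,287553),(0,310),(3,46070)]))) (.leaf false ⟨⟨-906,-273,-38⟩,⟨97,-438,834⟩,⟨258,-794,-447⟩⟩ (223,[(1,35752),(3,45300),(0,273)]) (223,[(1,256938),(3,418459),(0,438)]) (223,[(1,28947),(3,776898),(0,794)]))) (.node ⟨-218,-918,-81⟩ (.node ⟨-218,81,-918⟩ (.node ⟨97,438,-834⟩ (.leaf false ⟨⟨-258,-794,-447⟩,⟨97,438,-834⟩,⟨906,-273,-38⟩⟩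 (31455,[(5,855964),(2,28337),(1,12816)]) (1,[(0,1)]) (417,[(5,375959),(4,122163),(0,19)])) (.leaf false ⟨⟨-578,-678,-321⟩,⟨462,-641,522⟩,⟨591,-162,-722⟩⟩ (2478,[(5,173747),(0,4803),(1,5230)]) (55755,[(5,45704806),(0,91026),(1,50993)]) (55755,[(5,52699738),(0,34533),(1,75224)]))) (.node ⟨-290,-522,-735⟩ (.leaf false ⟨⟨-290,-522,-735⟩,⟨90,-785,522⟩,⟨897,-90,-290⟩⟩ (1,[(0,1)]) (31455,[(5,3925528),(1,20103),(2,25124)]) (9,[(3,11790),(5,5893),(1,10)])) (.leaf false ⟨⟨-209,-918,-102⟩,⟨102,81,-938⟩,⟨918,-218,81⟩⟩ (8468,[(3,494052),(0,459),(2,8729)]) (8468,[(3,10911526),(0,4221),(2,1653)]) (19053,[(3,74756280),(0,111281),(2,67802)])))) (.leaf false ⟨⟨33,126,-938⟩,⟨462,817,126⟩,⟨826,-462,-33⟩⟩ (218,[(1,207157),(0,33),(2,2826)]) (109,[(1,4977),(0,231),(2,123005)]) (109,[(1,37050),(0,413),(2,429492)])))))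 (.node ⟨0,1,0⟩ (.node ⟨0,0,1⟩ (.node ⟨223,162,906⟩ (.node ⟨-182,906,-207⟩ (.node ⟨-927,-162,106⟩ (.leaf false ⟨⟨-927,-162,106⟩,⟨-182,906,-207⟩,⟨66,223,918⟩⟩ (1,[(0,1)]) (1,[(1,1)]) (151,[(5,24153),(4,8887),(2,153)])) (.leaf false ⟨⟨-938,33,126⟩,⟨-33,826,-462⟩,⟨126,462,817⟩⟩ (54,[(3,7970),(5,60849),(0,11)]) (81,[(3,6356),(5,385524),(0,413)]) (27,[(3,30221),(5,67977),(0,77)]))) (.leaf false ⟨⟨-942,-74,63⟩,⟨-6,657,682⟩,⟨97,-678,654⟩⟩ (23,[(4,22940),(3,4640),(0,7)]) (207,[(4,125366),(3,753891),(0,682)]) (69,[(4,32983),(3,150726),(0,218)]))) (.leaf false ⟨⟨-938,-126,33⟩,⟨-126,817,-462⟩,⟨-33,462,826⟩⟩ (223,[(1,857187),(0,938),(2,123858)]) (223,[(1,11130),(0,126),(2,202603)]) (223,[(1,214096),(0,33),(2,108372)]))) (.node ⟨-81,-218,-918⟩ (.node ⟨-918,-218,81⟩ (.node ⟨-834,97,438⟩ (.leaf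 false ⟨⟨-938,-81,102⟩,⟨-102,918,-209⟩,⟨-81,-218,-918⟩⟩ (55755,[(1,54296),(0,2943),(4,7034902)]) (9,[(3,1962),(1,1),(4,8480)]) (1,[(2,1)])) (.leaf false ⟨⟨-938,-114,-63⟩,⟨-63,798,-506⟩,⟨114,-497,-798⟩⟩ (135,[(1,187),(4,30614),(0,54)]) (111510,[(1,149866),(4,136839857),(0,156537)]) (413,[(1,760),(4,47040),(0,893)]))) (.node ⟨-735,-290,-522⟩ (.leaf false ⟨⟨-735,-290,-522⟩,⟨-290,897,-90⟩,⟨522,90,-785⟩⟩ (1,[(0,1)]) (9,[(5,11790),(4,5893),(1,10)]) (31455,[(2,25124),(4,3925528),(1,20103)])) (.leaf false ⟨⟨-942,63,-74⟩,⟨-6,682,657⟩,⟨97,654,-678⟩⟩ (76212,[(2,27173),(5,96773196),(0,36983)]) (292,[(2,317),(5,655950),(0,925)]) (6351,[(2,22417),(5,20481066),(0,31174)])))) (.leaf false ⟨⟨-942,63,-74⟩,⟨-6,682,657⟩,⟨97,654,-678⟩⟩ (218,[(1,73966),(3,210459),(0,63)]) (109,[(1,241425),(3,28275),(0,341)])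 (1,[(1,3432),(3,146),(0,3)])))) (.node ⟨0,0,1⟩ (.node ⟨-81,-918,-218⟩ (.node ⟨-918,81,-218⟩ (.node ⟨-834,438,97⟩ (.leaf false ⟨⟨-938,102,-81⟩,⟨-102,-209,918⟩,⟨-81,-918,-218⟩⟩ (55755,[(3,7034902),(0,2943),(1,54296)]) (9,[(3,8480),(1,1),(4,1962)]) (1,[(2,1)])) (.leaf false ⟨⟨-938,-114,63⟩,⟨63,-798,-506⟩,⟨114,-497,798⟩⟩ (11151,[(3,4962902),(1,16864),(0,6021)]) (5310,[(3,640667),(1,10126),(0,11547)]) (55755,[(3,64965082),(1,60761),(0,74502)]))) (.node ⟨-735,-522,-290⟩ (.leaf false ⟨⟨-735,-522,-290⟩,⟨-290,-90,897⟩,⟨522,-785,90⟩⟩ (1,[(0,1)]) (9,[(3,5893),(5,11790),(1,10)]) (31455,[(3,3925528),(2,25124),(1,20103)])) (.leaf false ⟨⟨-942,-74,63⟩,⟨-6,657,682⟩,⟨97,-678,654⟩⟩ (76212,[(5,96773196),(2,27173),(0,36983)]) (292,[(5,655950),(2,317),(0,925)]) (6351,[(5,20481066),(2,22417),(0,31174)]))))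 (.leaf false ⟨⟨-942,-74,63⟩,⟨-6,657,682⟩,⟨97,-678,654⟩⟩ (218,[(3,210459),(2,73966),(0,63)]) (109,[(3,28275),(2,241425),(0,341)]) (1,[(3,146),(2,3432),(0,3)]))) (.leaf false ⟨⟨-947,0,0⟩,⟨0,-947,0⟩,⟨0,0,-947⟩⟩ (1,[(2,947)]) (1,[(1,947)]) (1,[(0,947)]))))
theorem pf947_ok : pf947.check (ok 947 6 ⟨5, 5, 5⟩) (fun _ r => r) [] = true := by decide +kernel

def pf953 : T := .node ⟨1,0,0⟩ (.node ⟨0,1,0⟩ (.node ⟨0,0,1⟩ (.node ⟨-368,228,849⟩ (.node ⟨399,712,-492⟩ (.node ⟨852,-228,361⟩ (.leaf false ⟨⟨-152,591,732⟩,⟨399,712,-492⟩,⟨852,-228,361⟩⟩ (46,[(3,17541),(4,22854),(2,19)]) (1,[(1,1)]) (1,[(0,1)])) (.leaf false ⟨⟨-903,280,120⟩,⟨120,672,-665⟩,⟨280,615,672⟩⟩ (57,[(3,32110),(5,8169),(0,70)]) (19,[(3,7581),(5,49992),(0,56)]) (76,[(3,125077),(5,195940),(0,205)]))) (.leaf false ⟨⟨-593,144,732⟩,⟨324,892,87⟩,⟨672,-303,604⟩⟩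 (41,[(4,26),(3,49336),(0,61)]) (164,[(4,64707),(3,166936),(0,29)]) (123,[(4,142905),(3,70243),(0,151)]))) (.leaf false ⟨⟨28,120,945⟩,⟨420,847,-120⟩,⟨855,-420,28⟩⟩ (92,[(1,92883),(0,7),(2,12636)]) (92,[(1,78105),(0,105),(2,101864)]) (368,[(1,736199),(0,855),(2,40380)]))) (.node ⟨-305,72,-900⟩ (.node ⟨-305,900,72⟩ (.node ⟨900,297,100⟩ (.leaf false ⟨⟨-305,900,72⟩,⟨72,100,-945⟩,⟨900,297,100⟩⟩ (1,[(1,1)]) (9,[(3,8577),(5,953),(1,1)]) (1,[(0,1)])) (.leaf false ⟨⟨-948,-44,-87⟩,⟨-17,912,-276⟩,⟨96,-273,-908⟩⟩ (68616,[(5,9109727),(1,21439),(0,75132)]) (5718,[(5,27859049),(1,14431),(0,26172)]) (2859,[(5,33262559),(1,10099),(0,33231)]))) (.leaf false ⟨⟨-296,72,-903⟩,⟨633,696,-152⟩,⟨648,-647,-264⟩⟩ (7548,[(4,74947),(1,7573),(0,2)]) (225,[(4,154015),(3,153864),(1,38)]) (22644,[(4,11197227),(1,5306),(0,16703)])))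 (.leaf false ⟨⟨28,936,-177⟩,⟨663,108,676⟩,⟨684,-143,-648⟩⟩ (305,[(1,79185),(0,28),(2,287496)]) (305,[(1,390520),(0,663),(2,80676)]) (305,[(1,813240),(0,684),(2,5633)])))) (.node ⟨0,0,1⟩ (.node ⟨-305,-900,72⟩ (.node ⟨-305,72,900⟩ (.node ⟨900,100,297⟩ (.leaf false ⟨⟨-305,72,900⟩,⟨72,-945,100⟩,⟨900,100,297⟩⟩ (1,[(1,1)]) (9,[(5,953),(4,8577),(1,1)]) (1,[(0,1)])) (.leaf false ⟨⟨-948,-87,-44⟩,⟨-17,-276,912⟩,⟨96,-908,-273⟩⟩ (68616,[(5,9109727),(0,75132),(1,21439)]) (5718,[(5,27859049),(0,26172),(1,14431)]) (2859,[(5,33262559),(0,33231),(1,10099)]))) (.leaf false ⟨⟨-296,-903,72⟩,⟨633,-152,696⟩,⟨648,-264,-647⟩⟩ (7548,[(4,74947),(0,2),(1,7573)]) (225,[(2,153864),(4,154015),(1,38)]) (22644,[(4,11197227),(0,16703),(1,5306)]))) (.leaf false ⟨⟨28,-177,936⟩,⟨663,676,108⟩,⟨684,-648,-143⟩⟩ (305,[(1,287496),(0,28),(2,79185)])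 (305,[(1,80676),(0,663),(2,390520)]) (305,[(1,5633),(0,684),(2,813240)]))) (.node ⟨-276,-908,-87⟩ (.node ⟨-728,0,-615⟩ (.leaf false ⟨⟨-728,0,-615⟩,⟨0,-953,0⟩,⟨615,0,-728⟩⟩ (1,[(0,1)]) (1,[(3,953)]) (615,[(4,908209),(0,728)])) (.leaf false ⟨⟨-44,-948,87⟩,⟨273,-96,-908⟩,⟨912,-17,276⟩⟩ (20657,[(2,587232),(0,6928),(1,21567)]) (165256,[(2,190718309),(0,68595),(1,17472)]) (165256,[(2,82161321),(0,208197),(1,3094)]))) (.leaf false ⟨⟨120,-665,-672⟩,⟨280,672,-615⟩,⟨903,-120,280⟩⟩ (23,[(1,16326),(0,10),(2,24375)]) (69,[(1,48525),(0,70),(2,17192)]) (92,[(1,427),(0,301),(2,284348)]))))) (.node ⟨0,1,0⟩ (.node ⟨0,0,1⟩ (.node ⟨-900,-305,72⟩ (.node ⟨72,-305,900⟩ (.node ⟨100,900,297⟩ (.leaf false ⟨⟨-945,72,100⟩,⟨72,-305,900⟩,⟨100,900,297⟩⟩ (9,[(5,8577),(4,953),(1,1)]) (1,[(1,1)]) (1,[(0,1)]))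 (.leaf false ⟨⟨-948,87,-44⟩,⟨-96,-908,273⟩,⟨-17,276,912⟩⟩ (17154,[(4,213882743),(1,69289),(0,212508)]) (5718,[(4,4180811),(1,4651),(0,8838)]) (22872,[(4,40387187),(1,32083),(0,26988)]))) (.leaf false ⟨⟨-936,-177,28⟩,⟨-143,648,-684⟩,⟨-108,676,663⟩⟩ (5661,[(1,5864),(0,293),(3,697158)]) (72,[(2,79452),(0,143),(3,3041)]) (2,[(2,4026),(0,3),(3,437)]))) (.leaf false ⟨⟨-663,676,-108⟩,⟨28,177,936⟩,⟨684,648,-143⟩⟩ (305,[(1,15732),(3,810615),(0,676)]) (305,[(1,298224),(3,150760),(0,177)]) (305,[(1,3041),(3,374580),(0,648)]))) (.node ⟨-87,-276,-908⟩ (.node ⟨-615,-728,0⟩ (.leaf false ⟨⟨-728,615,0⟩,⟨-615,-728,0⟩,⟨0,0,-953⟩⟩ (615,[(0,728),(3,908209)]) (1,[(0,1)]) (1,[(2,953)])) (.leaf false ⟨⟨-908,273,-96⟩,⟨87,-44,-948⟩,⟨276,912,-17⟩⟩ (165256,[(1,17472),(4,190718309),(0,68595)]) (20657,[(1,21567),(4,587232),(0,6928)])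 (165256,[(1,3094),(4,82161321),(0,208197)]))) (.leaf false ⟨⟨-945,120,28⟩,⟨28,420,-855⟩,⟨120,847,420⟩⟩ (23,[(1,8436),(3,22605),(0,10)]) (23,[(1,51445),(3,2401),(0,35)]) (276,[(1,653156),(3,40569),(0,847)])))) (.node ⟨0,0,1⟩ (.node ⟨-87,-908,-276⟩ (.node ⟨-615,0,-728⟩ (.leaf false ⟨⟨-728,0,615⟩,⟨-615,0,-728⟩,⟨0,-953,0⟩⟩ (615,[(2,908209),(0,728)]) (1,[(0,1)]) (1,[(3,953)])) (.leaf false ⟨⟨-908,-96,273⟩,⟨87,-948,-44⟩,⟨276,-17,912⟩⟩ (165256,[(4,190718309),(1,17472),(0,68595)]) (20657,[(4,587232),(1,21567),(0,6928)]) (165256,[(4,82161321),(1,3094),(0,208197)]))) (.leaf false ⟨⟨-945,28,120⟩,⟨28,-855,420⟩,⟨120,420,847⟩⟩ (23,[(3,22605),(2,8436),(0,10)]) (23,[(3,2401),(2,51445),(0,35)]) (276,[(3,40569),(2,653156),(0,847)]))) (.leaf false ⟨⟨-953,0,0⟩,⟨0,-953,0⟩,⟨0,0,-953⟩⟩ (1,[(2,953)])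 (1,[(1,953)]) (1,[(0,953)]))))
theorem pf953_ok : pf953.check (ok 953 6 ⟨5, 5, 5⟩) (fun _ r => r) [] = true := by decide +kernel

def pf961 : T := .node ⟨1,0,0⟩ (.node ⟨0,1,0⟩ (.node ⟨0,0,1⟩ (.leaf false ⟨⟨0,0,961⟩,⟨0,961,0⟩,⟨961,0,0⟩⟩ (1,[(0,961)]) (1,[(1,961)]) (1,[(2,961)])) (.node ⟨-344,129,-888⟩ (.node ⟨196,852,399⟩ (.node ⟨903,-56,-324⟩ (.leaf false ⟨⟨-264,441,-812⟩,⟨196,852,399⟩,⟨903,-56,-324⟩⟩ (43,[(3,5612),(4,14706),(2,33)]) (1,[(1,1)]) (1,[(0,1)])) (.leaf false ⟨⟨-924,79,252⟩,⟨7,924,-264⟩,⟨264,252,889⟩⟩ (56,[(3,11484),(5,19593),(0,79)]) (2,[(3,11220),(5,29813),(0,33)]) (2,[(3,1138),(5,8655),(0,9)]))) (.leaf false ⟨⟨-417,-56,-864⟩,⟨456,801,-272⟩,⟨736,-528,-321⟩⟩ (133,[(4,987),(3,237928),(0,288)]) (399,[(4,235256),(3,551343),(0,272)]) (133,[(4,118860),(3,20940),(0,107)])))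 (.leaf false ⟨⟨60,945,-164⟩,⟨615,-164,-720⟩,⟨736,60,615⟩⟩ (86,[(1,27424),(0,15),(2,83205)]) (344,[(1,793800),(0,615),(2,22919)]) (43,[(1,55251),(0,92),(2,14448)])))) (.node ⟨0,0,1⟩ (.node ⟨-344,-888,129⟩ (.node ⟨196,399,852⟩ (.node ⟨903,-324,-56⟩ (.leaf false ⟨⟨-264,-812,441⟩,⟨196,399,852⟩,⟨903,-324,-56⟩⟩ (43,[(3,14706),(4,5612),(2,33)]) (1,[(1,1)]) (1,[(0,1)])) (.leaf false ⟨⟨-924,-164,207⟩,⟨88,519,804⟩,⟨249,-792,484⟩⟩ (56,[(5,135177),(4,76252),(0,207)]) (14,[(5,182735),(4,57858),(0,201)]) (14,[(5,112749),(4,50292),(0,121)]))) (.leaf false ⟨⟨-417,-864,-56⟩,⟨456,-272,801⟩,⟨736,-321,-528⟩⟩ (133,[(2,237928),(4,987),(0,288)]) (399,[(2,551343),(4,235256),(0,272)]) (133,[(2,20940),(4,118860),(0,107)]))) (.leaf false ⟨⟨60,-164,945⟩,⟨615,-720,-164⟩,⟨736,615,60⟩⟩ (86,[(1,83205),(0,15),(2,27424)])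 (344,[(1,22919),(0,615),(2,793800)]) (43,[(1,14448),(0,92),(2,55251)]))) (.node ⟨-360,-839,-300⟩ (.node ⟨231,196,-912⟩ (.node ⟨924,-177,196⟩ (.leaf false ⟨⟨-128,-924,-231⟩,⟨231,196,-912⟩,⟨924,-177,196⟩⟩ (100,[(5,14920),(4,27797),(2,77)]) (1,[(1,1)]) (1,[(0,1)])) (.leaf false ⟨⟨-924,24,-263⟩,⟨108,-839,-456⟩,⟨241,468,-804⟩⟩ (196,[(5,61908),(4,41847),(0,263)]) (49,[(5,110628),(4,61289),(0,114)]) (49,[(5,197533),(4,12645),(0,201)]))) (.leaf false ⟨⟨-704,-636,153⟩,⟨231,-452,-816⟩,⟨612,-561,484⟩⟩ (49,[(2,137511),(4,2233),(0,159)]) (49,[(2,143040),(4,37422),(0,113)]) (196,[(2,416768),(4,249543),(0,561)]))) (.leaf false ⟨⟨25,-636,-720⟩,⟨420,655,-564⟩,⟨864,-300,295⟩⟩ (72,[(1,53340),(0,5),(2,49987)]) (6,[(1,5484),(0,7),(2,1943)]) (5,[(1,2125),(0,12),(2,11568)]))))) (.node ⟨0,1,0⟩ (.node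 ⟨0,0,1⟩ (.node ⟨-888,-344,129⟩ (.node ⟨399,196,852⟩ (.node ⟨-324,903,-56⟩ (.leaf false ⟨⟨-812,-264,441⟩,⟨-324,903,-56⟩,⟨399,196,852⟩⟩ (43,[(3,14706),(2,33),(5,5612)]) (1,[(0,1)]) (1,[(1,1)])) (.leaf false ⟨⟨-924,-164,207⟩,⟨88,519,804⟩,⟨249,-792,484⟩⟩ (56,[(5,118812),(4,177737),(0,207)]) (14,[(5,63892),(4,188769),(0,201)]) (14,[(5,35718),(4,98175),(0,121)]))) (.leaf false ⟨⟨-897,-344,24⟩,⟨-344,888,-129⟩,⟨-24,129,952⟩⟩ (133,[(2,257940),(0,299),(3,12852)]) (399,[(2,241617),(0,344),(3,421736)]) (133,[(2,133432),(0,8),(3,18725)]))) (.leaf false ⟨⟨-924,79,252⟩,⟨7,924,-264⟩,⟨264,252,889⟩⟩ (344,[(1,96879),(3,388008),(0,79)]) (86,[(1,7095),(3,204526),(0,231)]) (86,[(1,84581),(3,33240),(0,63)]))) (.node ⟨-300,-360,-839⟩ (.node ⟨-912,231,196⟩ (.node ⟨196,924,-177⟩ (.leaf false ⟨⟨-912,231,196⟩,⟨-231,-128,-924⟩,⟨196,924,-177⟩⟩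 (1,[(1,1)]) (100,[(3,27797),(2,77),(4,14920)]) (1,[(0,1)])) (.leaf false ⟨⟨-930,-155,186⟩,⟨-186,930,-155⟩,⟨-155,-186,-930⟩⟩ (98,[(3,64077),(0,465),(4,414470)]) (98,[(3,31651),(0,93),(4,177072)]) (196,[(3,209715),(0,155),(4,106764)]))) (.leaf false ⟨⟨-960,25,-36⟩,⟨25,-336,-900⟩,⟨36,900,-335⟩⟩ (49,[(4,55248),(3,3304),(0,9)]) (49,[(4,203975),(3,35511),(0,225)]) (196,[(4,298464),(3,253785),(0,335)]))) (.leaf false ⟨⟨-924,196,177⟩,⟨-128,231,-924⟩,⟨231,912,196⟩⟩ (90,[(1,25181),(3,97860),(0,49)]) (120,[(1,175483),(3,38460),(0,77)]) (15,[(1,28942),(3,7935),(0,38)])))) (.node ⟨0,0,1⟩ (.node ⟨-300,-839,-360⟩ (.node ⟨-912,196,231⟩ (.node ⟨196,-177,924⟩ (.leaf false ⟨⟨-912,196,231⟩,⟨-231,-924,-128⟩,⟨196,-177,924⟩⟩ (1,[(1,1)]) (100,[(3,14920),(2,77),(4,27797)]) (1,[(0,1)])) (.leaf false ⟨⟨-930,186,-155⟩,⟨-186,-155,930⟩,⟨-155,-930,-186⟩⟩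 (98,[(3,414470),(0,465),(4,64077)]) (98,[(3,177072),(0,93),(4,31651)]) (196,[(3,106764),(0,155),(4,209715)]))) (.leaf false ⟨⟨-960,-36,25⟩,⟨25,-900,-336⟩,⟨36,-335,900⟩⟩ (49,[(2,3304),(4,55248),(0,9)]) (49,[(2,35511),(4,203975),(0,225)]) (196,[(2,253785),(4,298464),(0,335)]))) (.leaf false ⟨⟨-924,-164,207⟩,⟨88,519,804⟩,⟨249,-792,484⟩⟩ (40,[(3,43860),(2,25857),(0,23)]) (30,[(3,17460),(2,40643),(0,67)]) (90,[(3,13890),(2,172799),(0,121)]))) (.node ⟨-263,456,-804⟩ (.node ⟨-839,456,-108⟩ (.node ⟨241,-108,-924⟩ (.leaf false ⟨⟨-804,456,-263⟩,⟨-468,-839,-24⟩,⟨241,-108,-924⟩⟩ (696,[(2,155),(1,541),(5,64920)]) (9,[(1,2),(5,2534),(4,8463)]) (1,[(0,1)])) (.leaf false ⟨⟨-924,-108,241⟩,⟨-263,456,-804⟩,⟨-24,-839,-468⟩⟩ (241,[(3,795695),(0,924),(4,125820)]) (1,[(2,1)]) (241,[(3,134964),(0,24),(4,204791)])))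 (.leaf false ⟨⟨-839,-468,-24⟩,⟨-108,241,-924⟩,⟨456,-804,-263⟩⟩ (2204,[(1,427),(4,3992926),(0,2689)]) (26448,[(1,32943),(4,10104010),(0,18965)]) (13224,[(1,8615),(4,18494220),(0,31931)]))) (.leaf false ⟨⟨-960,-20,-39⟩,⟨-20,-561,780⟩,⟨39,-780,-560⟩⟩ (114,[(1,8466),(3,110755),(0,5)]) (152,[(1,31788),(3,52221),(0,187)]) (38,[(1,73540),(3,15613),(0,65)])))))
theorem pf961_ok : pf961.check (ok 961 6 ⟨5, 5, 5⟩) (fun _ r => r) [] = true := by decide +kernel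

def pf967 : T := .node ⟨1,0,0⟩ (.node ⟨0,1,0⟩ (.node ⟨0,0,1⟩ (.leaf false ⟨⟨0,0,967⟩,⟨0,967,0⟩,⟨967,0,0⟩⟩ (1,[(0,967)]) (1,[(1,967)]) (1,[(2,967)])) (.node ⟨882,258,301⟩ (.node ⟨-338,822,-381⟩ (.node ⟨282,-291,-878⟩ (.leaf false ⟨⟨-338,822,-381⟩,⟨282,-291,-878⟩,⟨861,418,138⟩⟩ (1,[(1,1)]) (1,[(0,1)]) (42,[(3,6545),(2,41),(4,6978)])) (.leaf false ⟨⟨-630,733,-30⟩,⟨355,270,-858⟩,⟨642,570,445⟩⟩ (291,[(3,652304),(5,23376),(0,733)]) (97,[(3,162246),(5,59815),(0,90)]) (97,[(3,123655),(5,115854),(0,190)]))) (.leaf false ⟨⟨13,966,-42⟩,⟨546,-42,-797⟩,⟨798,13,546⟩⟩ (26,[(2,1473),(0,1),(3,25938)]) (13,[(2,18362),(0,21),(3,16716)]) (169,[(2,59745),(0,399),(3,330175)]))) (.leaf false ⟨⟨-906,3,-338⟩,⟨58,954,-147⟩,⟨333,-158,-894⟩⟩ (301,[(3,25410),(2,88107),(0,338)]) (43,[(3,21016),(2,46440),(0,21)])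 (301,[(3,888741),(2,183094),(0,894)])))) (.node ⟨0,0,1⟩ (.node ⟨882,301,258⟩ (.node ⟨-338,-381,822⟩ (.node ⟨282,-878,-291⟩ (.leaf false ⟨⟨-338,-381,822⟩,⟨282,-878,-291⟩,⟨861,138,418⟩⟩ (1,[(1,1)]) (1,[(0,1)]) (42,[(3,6978),(2,41),(4,6545)])) (.leaf false ⟨⟨-630,-30,733⟩,⟨355,-858,270⟩,⟨642,445,570⟩⟩ (291,[(5,23376),(4,652304),(0,733)]) (97,[(5,59815),(4,162246),(0,90)]) (97,[(5,115854),(4,123655),(0,190)]))) (.leaf false ⟨⟨13,-42,966⟩,⟨546,-797,-42⟩,⟨798,546,13⟩⟩ (26,[(2,25938),(0,1),(3,1473)]) (13,[(2,16716),(0,21),(3,18362)]) (169,[(2,330175),(0,399),(3,59745)]))) (.leaf false ⟨⟨-906,-338,3⟩,⟨58,-147,954⟩,⟨333,-894,-158⟩⟩ (301,[(1,88107),(3,25410),(0,338)]) (43,[(1,46440),(3,21016),(0,21)]) (301,[(1,183094),(3,888741),(0,894)]))) (.node ⟨58,-957,126⟩ (.node ⟨58,126,-957⟩ (.node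 ⟨918,238,189⟩ (.leaf false ⟨⟨58,-957,126⟩,⟨66,-122,-957⟩,⟨963,66,58⟩⟩ (1,[(2,1)]) (153,[(3,148500),(0,11),(4,21284)]) (102,[(3,14307),(0,107),(4,18734)])) (.leaf false ⟨⟨-798,-509,-198⟩,⟨222,18,-941⟩,⟨499,-822,102⟩⟩ (23429,[(5,6856624),(2,5453),(0,28180)]) (12579,[(1,11368),(5,6784700),(0,5067)]) (70287,[(5,33423437),(2,59878),(0,1986)]))) (.leaf false ⟨⟨-338,-894,147⟩,⟨3,-158,-954⟩,⟨906,-333,58⟩⟩ (21,[(2,139506),(4,1544),(0,149)]) (63,[(2,135705),(4,4771),(0,79)]) (14,[(2,34597),(4,14830),(0,37)]))) (.leaf false ⟨⟨-338,147,-894⟩,⟨3,-954,-158⟩,⟨906,58,-333⟩⟩ (21,[(3,1544),(2,139506),(0,149)]) (63,[(3,4771),(2,135705),(0,79)]) (14,[(3,14830),(2,34597),(0,37)]))))) (.node ⟨0,1,0⟩ (.node ⟨0,0,1⟩ (.node ⟨301,258,882⟩ (.node ⟨-381,822,-338⟩ (.node ⟨-878,-291,282⟩ (.leaf false ⟨⟨-878,-291,282⟩,⟨-381,822,-338⟩,⟨138,418,861⟩⟩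 (1,[(0,1)]) (1,[(1,1)]) (42,[(5,6545),(4,6978),(2,41)])) (.leaf false ⟨⟨-941,102,198⟩,⟨-18,822,-509⟩,⟨222,499,798⟩⟩ (97,[(3,28794),(5,121129),(0,34)]) (97,[(3,27895),(5,242318),(0,274)]) (291,[(3,372936),(5,373520),(0,499)]))) (.leaf false ⟨⟨-957,-14,138⟩,⟨94,642,717⟩,⟨102,-723,634⟩⟩ (169,[(4,188022),(3,54352),(0,69)]) (338,[(4,241405),(3,806370),(0,717)]) (169,[(4,103539),(3,138387),(0,317)]))) (.leaf false ⟨⟨-941,-222,18⟩,⟨-198,798,-509⟩,⟨-102,499,822⟩⟩ (301,[(1,835380),(0,941),(2,175956)]) (301,[(1,21427),(0,198),(2,291282)]) (301,[(1,337386),(0,102),(2,176515)]))) (.node ⟨-957,58,126⟩ (.node ⟨126,58,-957⟩ (.node ⟨238,918,189⟩ (.leaf false ⟨⟨-957,58,126⟩,⟨-122,66,-957⟩,⟨66,963,58⟩⟩ (1,[(2,1)]) (153,[(3,148500),(5,21284),(0,11)]) (102,[(3,14307),(5,18734),(0,107)])) (.leaf false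 ⟨⟨-954,-147,58⟩,⟨-158,894,-333⟩,⟨-3,-338,-906⟩⟩ (210861,[(2,194110),(4,17137817),(0,64698)]) (20965,[(4,33281028),(1,4116),(0,16097)]) (83860,[(4,3307736),(1,71687),(0,39009)]))) (.leaf false ⟨⟨-957,-126,58⟩,⟨-122,957,66⟩,⟨-66,58,-963⟩⟩ (42,[(2,302847),(0,319),(3,13210)]) (63,[(2,54219),(0,61),(3,63829)]) (21,[(2,30750),(0,11),(3,1856)]))) (.leaf false ⟨⟨-963,58,-66⟩,⟨58,-126,-957⟩,⟨66,957,-122⟩⟩ (21,[(3,30750),(2,1856),(0,11)]) (42,[(3,302847),(2,13210),(0,319)]) (63,[(3,54219),(2,63829),(0,61)])))) (.node ⟨0,0,1⟩ (.node ⟨126,-957,58⟩ (.node ⟨-957,126,58⟩ (.node ⟨189,238,918⟩ (.leaf false ⟨⟨-957,-122,66⟩,⟨58,66,963⟩,⟨126,-957,58⟩⟩ (153,[(5,148500),(4,21284),(0,11)]) (102,[(5,14307),(4,18734),(0,107)]) (1,[(2,1)])) (.leaf false ⟨⟨-954,58,-147⟩,⟨-158,-333,894⟩,⟨-3,-906,-338⟩⟩ (41930,[(3,1434282),(1,39669),(0,10783)])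 (299991,[(3,257911396),(1,64388),(2,112863)]) (70287,[(3,8756536),(0,39009),(2,56840)]))) (.leaf false ⟨⟨-963,-66,58⟩,⟨58,-957,-126⟩,⟨66,-122,957⟩⟩ (21,[(2,1856),(4,30750),(0,11)]) (42,[(2,13210),(4,302847),(0,319)]) (63,[(2,63829),(4,54219),(0,61)]))) (.leaf false ⟨⟨-957,58,-126⟩,⟨-122,66,957⟩,⟨-66,-963,58⟩⟩ (42,[(1,13210),(0,319),(2,302847)]) (63,[(1,63829),(0,61),(2,54219)]) (21,[(1,1856),(0,11),(2,30750)]))) (.node ⟨-294,462,-797⟩ (.node ⟨-918,-77,294⟩ (.leaf false ⟨⟨-918,-77,294⟩,⟨-294,462,-797⟩,⟨-77,-846,-462⟩⟩ (1,[(0,1)]) (1,[(1,1)]) (42,[(2,10637),(1,11),(3,40614)])) (.leaf false ⟨⟨-918,-294,-77⟩,⟨-77,462,-846⟩,⟨294,-797,-462⟩⟩ (42,[(4,48654),(3,13195),(0,11)]) (967,[(1,918),(4,74459),(0,294)]) (7,[(4,8040),(3,6426),(0,11)]))) (.leaf false ⟨⟨-966,-42,13⟩,⟨13,-546,-798⟩,⟨42,-797,546⟩⟩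 (11,[(1,654),(3,10920),(0,1)]) (11,[(1,19139),(3,3679),(0,13)]) (462,[(1,382957),(3,214914),(0,797)])))))
theorem pf967_ok : pf967.check (ok 967 6 ⟨5, 5, 5⟩) (fun _ r => r) [] = true := by decide +kernel

def pf971 : T := .node ⟨1,0,0⟩ (.node ⟨0,1,0⟩ (.node ⟨0,0,1⟩ (.node ⟨-654,505,510⟩ (.node ⟨370,825,-354⟩ (.node ⟨-654,510,505⟩ (.leaf false ⟨⟨-654,510,505⟩,⟨370,825,-354⟩,⟨615,46,750⟩⟩ (1,[(0,1)]) (1,[(1,1)]) (255,[(3,179635),(5,171867),(0,23)])) (.leaf false ⟨⟨-654,505,510⟩,⟨370,-354,825⟩,⟨615,750,46⟩⟩ (1,[(2,1)]) (5,[(1,5),(2,1179),(0,1179)]) (704,[(1,1179),(2,89445),(0,89440)]))) (.leaf false ⟨⟨-714,9,658⟩,⟨73,966,66⟩,⟨654,-98,711⟩⟩ (2676,[(3,3143704),(1,581),(0,4137)]) (59,[(4,8377),(3,66069),(0,11)]) (118,[(4,164862),(3,183961),(0,237)]))) (.node ⟨489,-494,678⟩ (.leaf false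 ⟨⟨342,834,361⟩,⟨489,-494,678⟩,⟨766,-57,-594⟩⟩ (109,[(2,68419),(1,57),(3,119691)]) (1,[(0,1)]) (327,[(2,1092),(1,383),(3,174776)])) (.leaf false ⟨⟨-678,694,-39⟩,⟨199,246,918⟩,⟨666,633,-314⟩⟩ (25377,[(2,24959913),(1,1478),(0,37162)]) (76131,[(2,358589220),(1,218600),(0,261379)]) (8459,[(2,90051368),(1,70949),(0,83368)])))) (.node ⟨-89,42,-966⟩ (.node ⟨882,199,354⟩ (.node ⟨-354,903,46⟩ (.leaf false ⟨⟨-354,903,46⟩,⟨199,126,-942⟩,⟨882,334,231⟩⟩ (1,[(0,1)]) (43,[(3,40782),(5,10681),(0,6)]) (144482,[(3,21503766),(1,152447),(0,19845)])) (.leaf false ⟨⟨-66,73,-966⟩,⟨658,714,9⟩,⟨711,-654,-98⟩⟩ (7523,[(4,670328),(2,7500),(0,483)]) (273502,[(1,211609),(4,150020321),(2,74998)]) (173029,[(4,200837250),(2,993),(0,347774)]))) (.leaf false ⟨⟨-738,-279,-566⟩,⟨-6,874,-423⟩,⟨631,-318,-666⟩⟩ (177,[(4,118980),(3,6934),(0,283)])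 (118,[(4,123654),(3,131191),(0,141)]) (59,[(4,135131),(3,3327),(0,111)]))) (.leaf false ⟨⟨6,874,-423⟩,⟨631,318,666⟩,⟨738,-279,-566⟩⟩ (89,[(1,43443),(0,6),(2,78038)]) (89,[(1,550272),(0,631),(2,54804)]) (89,[(1,763282),(0,738),(2,6165)])))) (.node ⟨0,0,1⟩ (.node ⟨-89,-966,42⟩ (.node ⟨882,354,199⟩ (.node ⟨-354,46,903⟩ (.leaf false ⟨⟨-354,46,903⟩,⟨199,-942,126⟩,⟨882,231,334⟩⟩ (1,[(0,1)]) (43,[(5,10681),(4,40782),(0,6)]) (144482,[(1,152447),(4,21503766),(0,19845)])) (.leaf false ⟨⟨-66,-966,73⟩,⟨658,9,714⟩,⟨711,-98,-654⟩⟩ (7523,[(3,670328),(0,483),(2,7500)]) (273502,[(3,150020321),(1,211609),(2,74998)]) (173029,[(3,200837250),(0,347774),(2,993)]))) (.leaf false ⟨⟨-738,-566,-279⟩,⟨-6,-423,874⟩,⟨631,-666,-318⟩⟩ (177,[(2,6934),(4,118980),(0,283)]) (118,[(2,131191),(4,123654),(0,141)])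 (59,[(2,3327),(4,135131),(0,111)]))) (.leaf false ⟨⟨6,-423,874⟩,⟨631,666,318⟩,⟨738,-566,-279⟩⟩ (89,[(1,78038),(0,6),(2,43443)]) (89,[(1,54804),(0,631),(2,550272)]) (89,[(1,6165),(0,738),(2,763282)]))) (.node ⟨951,-62,186⟩ (.node ⟨-423,-854,-186⟩ (.node ⟨6,186,-953⟩ (.leaf false ⟨⟨-62,-951,-186⟩,⟨6,186,-953⟩,⟨969,-62,-6⟩⟩ (1,[(5,361),(4,97),(1,1)]) (1,[(0,1)]) (31,[(5,30462),(4,1068),(1,1)])) (.leaf false ⟨⟨-423,-854,-186⟩,⟨406,-9,-882⟩,⟨774,-462,361⟩⟩ (1,[(1,1)]) (62,[(3,57543),(5,25190),(0,3)]) (31,[(3,62190),(5,24456),(0,77)]))) (.leaf false ⟨⟨9,-854,-462⟩,⟨406,423,-774⟩,⟨882,-186,361⟩⟩ (47,[(2,21900),(0,1),(3,40992)]) (423,[(2,402918),(0,406),(3,167795)]) (47,[(2,1261),(0,98),(3,92434)]))) (.leaf false ⟨⟨-714,73,-654⟩,⟨-9,-966,-98⟩,⟨658,66,-711⟩⟩ (31,[(3,81525),(2,4495),(0,109)])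 (93,[(3,45762),(2,92876),(0,49)]) (62,[(3,266183),(2,10602),(0,237)]))))) (.node ⟨0,1,0⟩ (.node ⟨0,0,1⟩ (.node ⟨-966,-89,42⟩ (.node ⟨354,882,199⟩ (.node ⟨46,-354,903⟩ (.leaf false ⟨⟨-969,42,46⟩,⟨42,-89,966⟩,⟨46,966,87⟩⟩ (903,[(5,877123),(4,54210),(0,46)]) (43,[(5,310),(4,12457),(0,46)]) (199,[(5,21644),(4,115500),(1,87)])) (.leaf false ⟨⟨-966,-66,73⟩,⟨-98,711,-654⟩,⟨9,658,714⟩⟩ (7523,[(3,670328),(2,7500),(0,483)]) (173029,[(3,200837250),(2,993),(0,347774)]) (273502,[(3,150020321),(2,74998),(1,211609)]))) (.leaf false ⟨⟨-918,199,-246⟩,⟨-314,-666,633⟩,⟨-39,678,694⟩⟩ (59,[(2,15933),(0,153),(3,146687)]) (177,[(2,143284),(0,157),(3,20592)]) (118,[(2,84479),(0,13),(3,91470)]))) (.leaf false ⟨⟨-969,46,42⟩,⟨42,966,-89⟩,⟨46,87,966⟩⟩ (89,[(1,5670),(3,130677),(0,46)]) (89,[(1,32651),(3,929418),(0,966)])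 (89,[(1,89628),(3,79948),(0,87)]))) (.node ⟨-62,951,186⟩ (.node ⟨-854,-423,-186⟩ (.node ⟨186,6,-953⟩ (.leaf false ⟨⟨-951,-62,-186⟩,⟨-62,969,-6⟩,⟨186,6,-953⟩⟩ (1,[(1,1),(5,97),(4,361)]) (31,[(1,1),(5,1068),(4,30462)]) (1,[(0,1)])) (.leaf false ⟨⟨-969,-62,-6⟩,⟨-62,951,186⟩,⟨-6,186,-953⟩⟩ (65266,[(1,71121),(0,13470),(4,26118511)]) (3,[(3,395),(0,1),(4,2859)]) (31,[(3,30496),(0,1),(4,5772)]))) (.leaf false ⟨⟨-930,10,-279⟩,⟨-71,930,270⟩,⟨270,279,-890⟩⟩ (423,[(2,119877),(4,401930),(0,10)]) (141,[(2,19590),(4,274751),(0,310)]) (47,[(2,47596),(4,13784),(0,31)]))) (.leaf false ⟨⟨-966,-9,-98⟩,⟨66,658,-711⟩,⟨73,-714,-654⟩⟩ (93,[(3,92876),(2,45762),(0,49)]) (62,[(3,10602),(2,266183),(0,237)]) (31,[(3,4495),(2,81525),(0,109)])))) (.node ⟨0,0,1⟩ (.node ⟨-62,186,951⟩ (.node ⟨-854,-186,-423⟩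 (.node ⟨186,-953,6⟩ (.leaf false ⟨⟨-951,-186,-62⟩,⟨-62,-6,969⟩,⟨186,-953,6⟩⟩ (1,[(3,361),(5,97),(1,1)]) (31,[(3,30462),(5,1068),(1,1)]) (1,[(0,1)])) (.leaf false ⟨⟨-969,-6,-62⟩,⟨-62,186,951⟩,⟨-6,-953,186⟩⟩ (65266,[(3,26118511),(0,13470),(1,71121)]) (3,[(3,2859),(0,1),(4,395)]) (31,[(3,5772),(0,1),(4,30496)]))) (.leaf false ⟨⟨-930,-279,10⟩,⟨-71,270,930⟩,⟨270,-890,279⟩⟩ (423,[(4,401930),(3,119877),(0,10)]) (141,[(4,274751),(3,19590),(0,310)]) (47,[(4,13784),(3,47596),(0,31)]))) (.leaf false ⟨⟨-966,-98,-9⟩,⟨66,-711,658⟩,⟨73,-654,-714⟩⟩ (93,[(1,45762),(3,92876),(0,49)]) (62,[(1,266183),(3,10602),(0,237)]) (31,[(1,81525),(3,4495),(0,109)]))) (.leaf false ⟨⟨-971,0,0⟩,⟨0,-971,0⟩,⟨0,0,-971⟩⟩ (1,[(2,971)]) (1,[(1,971)]) (1,[(0,971)]))))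
theorem pf971_ok : pf971.check (ok 971 6 ⟨5, 5, 5⟩) (fun _ r => r) [] = true := by decide +kernel

def pf977 : T := .node ⟨1,0,0⟩ (.node ⟨0,1,0⟩ (.node ⟨0,0,1⟩ (.node ⟨-516,513,652⟩ (.node ⟨300,895,-252⟩ (.node ⟨855,-320,348⟩ (.leaf false ⟨⟨-320,348,855⟩,⟨300,895,-252⟩,⟨873,-180,400⟩⟩ (129,[(3,58135),(4,3852),(2,80)]) (1,[(1,1)]) (16,[(3,3268),(0,9),(5,6273)])) (.leaf false ⟨⟨-888,364,183⟩,⟨247,132,936⟩,⟨324,897,-212⟩⟩ (80,[(3,46308),(5,6765),(0,91)]) (80,[(3,86364),(5,47975),(0,33)]) (320,[(3,244316),(5,870615),(0,897)]))) (.leaf false ⟨⟨-720,-23,660⟩,⟨105,960,148⟩,⟨652,-180,705⟩⟩ (21,[(4,1380),(3,48742),(0,55)]) (63,[(4,17715),(3,93595),(0,37)]) (84,[(4,125268),(3,195205),(0,235)]))) (.leaf false ⟨⟨76,513,828⟩,⟨567,652,-456⟩,⟨792,-516,247⟩⟩ (129,[(1,119200),(0,19),(2,75924)])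 (172,[(1,44796),(0,189),(2,209101)]) (43,[(1,53653),(0,66),(2,11670)]))) (.node ⟨960,40,177⟩ (.node ⟨-177,960,40⟩ (.leaf false ⟨⟨-177,960,40⟩,⟨40,48,-975⟩,⟨960,175,48⟩⟩ (1,[(0,1)]) (20,[(2,19540),(4,977),(0,1)]) (61912,[(2,8614209),(1,63505),(0,8640)])) (.leaf false ⟨⟨76,-63,-972⟩,⟨432,876,-23⟩,⟨873,-428,96⟩⟩ (177,[(2,169004),(0,76),(3,61809)]) (20,[(2,2053),(1,9),(3,17160)]) (77390,[(2,2328839),(0,37150),(1,63527)]))) (.leaf false ⟨⟨-831,468,-212⟩,⟨148,-168,-951⟩,⟨492,841,-72⟩⟩ (177,[(3,56433),(2,91316),(0,212)]) (59,[(3,313052),(2,2768),(0,317)]) (59,[(3,52068),(2,50579),(0,24)])))) (.node ⟨0,0,1⟩ (.node ⟨960,177,40⟩ (.node ⟨-177,40,960⟩ (.leaf false ⟨⟨-177,40,960⟩,⟨40,-975,48⟩,⟨960,48,175⟩⟩ (1,[(0,1)]) (20,[(4,977),(3,19540),(0,1)]) (61912,[(1,63505),(3,8614209),(0,8640)]))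 (.leaf false ⟨⟨76,-972,-63⟩,⟨432,-23,876⟩,⟨873,96,-428⟩⟩ (177,[(2,61809),(0,76),(3,169004)]) (20,[(2,17160),(1,9),(3,2053)]) (77390,[(1,63527),(0,37150),(3,2328839)]))) (.leaf false ⟨⟨-831,-212,468⟩,⟨148,-951,-168⟩,⟨492,-72,841⟩⟩ (177,[(1,91316),(3,56433),(0,212)]) (59,[(1,2768),(3,313052),(0,317)]) (59,[(1,50579),(3,52068),(0,24)]))) (.node ⟨-248,-945,0⟩ (.leaf false ⟨⟨-248,-945,0⟩,⟨0,0,-977⟩,⟨945,-248,0⟩⟩ (1,[(0,1)]) (1,[(1,977)]) (945,[(3,954529),(0,248)])) (.node ⟨792,-336,463⟩ (.leaf false ⟨⟨36,-408,-887⟩,⟨447,796,-348⟩,⟨868,-393,216⟩⟩ (22,[(2,19977),(0,1),(3,8640)]) (248,[(2,86304),(1,447),(3,225007)]) (198,[(2,57703),(0,217),(3,4902)])) (.leaf false ⟨⟨-824,183,-492⟩,⟨348,876,-257⟩,⟨393,-392,-804⟩⟩ (14353,[(1,1019),(3,3461028),(0,15252)]) (28706,[(1,91167),(3,66360183),(0,15934)])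 (114824,[(1,818727),(3,885703735),(0,199392)])))))) (.node ⟨0,1,0⟩ (.node ⟨0,0,1⟩ (.node ⟨177,40,960⟩ (.node ⟨40,960,-177⟩ (.leaf false ⟨⟨-975,48,40⟩,⟨40,960,-177⟩,⟨48,175,960⟩⟩ (20,[(2,977),(4,19540),(0,1)]) (1,[(0,1)]) (61912,[(4,8614209),(0,8640),(1,63505)])) (.leaf false ⟨⟨-972,-63,76⟩,⟨-23,876,432⟩,⟨96,-428,873⟩⟩ (177,[(4,169004),(3,61809),(0,76)]) (20,[(4,2053),(3,17160),(1,9)]) (77390,[(4,2328839),(1,63527),(0,37150)]))) (.leaf false ⟨⟨-951,-168,148⟩,⟨-212,468,-831⟩,⟨-72,841,492⟩⟩ (59,[(1,313052),(0,317),(2,2768)]) (177,[(1,56433),(0,212),(2,91316)]) (59,[(1,52068),(0,24),(2,50579)]))) (.node ⟨0,-248,-945⟩ (.leaf false ⟨⟨-977,0,0⟩,⟨0,-248,-945⟩,⟨0,945,-248⟩⟩ (1,[(3,977)]) (1,[(0,1)]) (945,[(0,248),(2,954529)])) (.node ⟨463,792,-336⟩ (.leaf false ⟨⟨-972,76,-63⟩,⟨-23,432,876⟩,⟨96,873,-428⟩⟩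 (62,[(2,21861),(4,60264),(1,19)]) (31,[(2,23874),(4,713),(1,54)]) (88,[(2,5072),(4,36463),(0,97)])) (.leaf false ⟨⟨-951,-168,148⟩,⟨-212,468,-831⟩,⟨-72,841,492⟩⟩ (14353,[(2,87563942),(0,29481),(1,84426)]) (28706,[(2,119129985),(0,13144),(1,96147)]) (114824,[(2,371360823),(0,17856),(1,446407)]))))) (.node ⟨0,0,1⟩ (.node ⟨0,-945,-248⟩ (.leaf false ⟨⟨-977,0,0⟩,⟨0,-945,-248⟩,⟨0,-248,945⟩⟩ (1,[(3,977)]) (1,[(0,1)]) (945,[(1,954529),(0,248)])) (.node ⟨463,-336,792⟩ (.leaf false ⟨⟨-972,-63,76⟩,⟨-23,876,432⟩,⟨96,-428,873⟩⟩ (62,[(1,19),(4,60264),(3,21861)]) (31,[(1,54),(4,713),(3,23874)]) (88,[(4,36463),(3,5072),(0,97)])) (.leaf false ⟨⟨-951,148,-168⟩,⟨-212,-831,468⟩,⟨-72,492,841⟩⟩ (14353,[(1,84426),(0,29481),(3,87563942)]) (28706,[(1,96147),(0,13144),(3,119129985)]) (114824,[(1,446407),(0,17856),(3,371360823)]))))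 (.leaf false ⟨⟨-977,0,0⟩,⟨0,-977,0⟩,⟨0,0,-977⟩⟩ (1,[(2,977)]) (1,[(1,977)]) (1,[(0,977)]))))
theorem pf977_ok : pf977.check (ok 977 6 ⟨5, 5, 5⟩) (fun _ r => r) [] = true := by decide +kernel

def pf983 : T := .node ⟨1,0,0⟩ (.node ⟨0,1,0⟩ (.node ⟨0,0,1⟩ (.node ⟨-450,258,835⟩ (.node ⟨498,786,-317⟩ (.node ⟨754,-243,582⟩ (.leaf false ⟨⟨-387,538,726⟩,⟨498,786,-317⟩,⟨754,-243,582⟩⟩ (50,[(3,395),(4,15806),(2,43)]) (1,[(1,1)]) (1,[(0,1)])) (.leaf false ⟨⟨-915,342,-110⟩,⟨250,390,-867⟩,⟨258,835,450⟩⟩ (27,[(3,19146),(5,3947),(0,38)]) (81,[(3,5433),(5,118270),(0,130)]) (243,[(3,595320),(5,692284),(0,835)]))) (.leaf false ⟨⟨-798,34,573⟩,⟨294,867,358⟩,⟨493,-462,714⟩⟩ (317,[(4,32388),(3,461156),(0,573)]) (317,[(4,271482),(3,556227),(0,358)]) (317,[(4,511853),(3,414750),(0,714)]))) (.leaf false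 ⟨⟨34,798,573⟩,⟨462,493,-714⟩,⟨867,-294,358⟩⟩ (225,[(1,143120),(0,17),(2,183936)]) (75,[(1,10745),(0,77),(2,56841)]) (150,[(1,295015),(0,289),(2,30462)]))) (.node ⟨-222,34,-957⟩ (.node ⟨-30,915,358⟩ (.leaf false ⟨⟨-222,34,-957⟩,⟨-83,978,54⟩,⟨954,93,-218⟩⟩ (1,[(1,1)]) (202110,[(2,21202327),(0,214294),(1,46605)]) (305,[(2,77588),(4,291900),(0,31)])) (.leaf false ⟨⟨-99,618,-758⟩,⟨-2,-762,-621⟩,⟨978,61,-78⟩⟩ (957,[(4,73533),(3,565654),(1,758)]) (54093,[(3,20648462),(1,9673),(0,67974)]) (179,[(4,173892),(3,46604),(0,39)]))) (.leaf false ⟨⟨78,979,42⟩,⟨538,-78,819⟩,⟨819,-42,-542⟩⟩ (37,[(1,10887),(0,13),(2,36665)]) (111,[(1,166524),(0,269),(2,488)]) (74,[(1,301369),(0,273),(2,6174)])))) (.node ⟨0,0,1⟩ (.node ⟨-222,-957,34⟩ (.node ⟨-30,358,915⟩ (.leaf false ⟨⟨-222,-957,34⟩,⟨-83,54,978⟩,⟨954,-218,93⟩⟩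 (1,[(1,1)]) (887827,[(4,21202327),(1,300714),(0,937782)]) (305,[(4,291900),(3,77588),(0,31)])) (.leaf false ⟨⟨-99,-758,618⟩,⟨-2,-621,-762⟩,⟨978,-78,61⟩⟩ (957,[(2,565654),(4,73533),(1,758)]) (54093,[(2,20648462),(0,67974),(1,9673)]) (179,[(2,46604),(4,173892),(0,39)]))) (.leaf false ⟨⟨78,42,979⟩,⟨538,819,-78⟩,⟨819,-542,-42⟩⟩ (37,[(1,36665),(0,13),(2,10887)]) (111,[(1,488),(0,269),(2,166524)]) (74,[(1,6174),(0,273),(2,301369)]))) (.node ⟨174,198,-947⟩ (.node ⟨882,-291,322⟩ (.node ⟨-258,-938,-141⟩ (.leaf false ⟨⟨-258,-938,-141⟩,⟨349,42,-918⟩,⟨882,-291,322⟩⟩ (1,[(0,1)]) (33,[(3,23665),(2,7),(5,10299)]) (1,[(1,1)])) (.leaf false ⟨⟨30,-317,-930⟩,⟨358,870,-285⟩,⟨915,-330,142⟩⟩ (43,[(3,40695),(0,5),(4,18321)]) (129,[(3,62004),(0,179),(4,55672)]) (86,[(3,30793),(0,305),(4,314470)]))) (.leaf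 false ⟨⟨-902,54,-387⟩,⟨54,-947,-258⟩,⟨387,258,-866⟩⟩ (322,[(4,50890),(3,95229),(0,387)]) (161,[(4,122472),(3,190006),(0,129)]) (161,[(4,444213),(3,84465),(0,433)]))) (.leaf false ⟨⟨-621,-758,78⟩,⟨-2,-99,-978⟩,⟨762,-618,61⟩⟩ (99,[(1,351191),(3,4467),(0,379)]) (2,[(1,2903),(3,170),(0,1)]) (33,[(1,95528),(3,43068),(0,103)]))))) (.node ⟨0,1,0⟩ (.node ⟨0,0,1⟩ (.node ⟨-957,-222,34⟩ (.node ⟨358,-30,915⟩ (.leaf false ⟨⟨-957,-222,34⟩,⟨-218,954,93⟩,⟨54,-83,978⟩⟩ (1,[(1,1)]) (305,[(4,77588),(3,291900),(0,31)]) (202110,[(1,46605),(4,21202327),(0,214294)])) (.leaf false ⟨⟨-954,-93,-218⟩,⟨-222,34,957⟩,⟨-83,978,-54⟩⟩ (36062,[(2,28886827),(1,20638),(0,40929)]) (179,[(2,272868),(0,111),(3,2756)]) (358,[(2,56613),(0,83),(3,347634)]))) (.leaf false ⟨⟨-542,819,-42⟩,⟨42,78,979⟩,⟨819,538,-78⟩⟩ (74,[(1,6174),(3,301369),(0,273)])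 (37,[(1,36665),(3,10887),(0,13)]) (111,[(1,488),(3,166524),(0,269)]))) (.node ⟨106,957,198⟩ (.node ⟨198,174,-947⟩ (.leaf false ⟨⟨-957,142,-174⟩,⟨106,957,198⟩,⟨198,174,-947⟩⟩ (957,[(2,194634),(4,930901),(1,142)]) (1,[(1,1)]) (1,[(0,1)])) (.leaf false ⟨⟨-966,-83,-162⟩,⟨-182,426,867⟩,⟨-3,882,-434⟩⟩ (85521,[(2,462434656),(0,457832),(1,75825)]) (28507,[(2,13730544),(0,36555),(1,19336)]) (57014,[(2,66723091),(0,32121),(1,58386)]))) (.node ⟨-978,61,78⟩ (.leaf false ⟨⟨-978,61,78⟩,⟨-99,-618,-758⟩,⟨-2,762,-621⟩⟩ (1,[(0,1)]) (106,[(2,60746),(1,99),(3,29235)]) (53,[(2,32715),(1,1),(3,41343)])) (.leaf false ⟨⟨-978,-83,-54⟩,⟨34,222,-957⟩,⟨93,-954,-218⟩⟩ (11,[(1,3),(4,10440),(3,1958)]) (26,[(4,311098),(3,25231),(0,319)]) (31284,[(1,30557),(4,3501472),(0,9867)]))))) (.node ⟨0,0,1⟩ (.node ⟨106,198,957⟩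 (.node ⟨198,-947,174⟩ (.leaf false ⟨⟨-957,-174,142⟩,⟨106,198,957⟩,⟨198,-947,174⟩⟩ (957,[(4,930901),(3,194634),(1,142)]) (1,[(1,1)]) (1,[(0,1)])) (.leaf false ⟨⟨-966,-162,-83⟩,⟨-182,867,426⟩,⟨-3,-434,882⟩⟩ (85521,[(3,462434656),(1,75825),(0,457832)]) (28507,[(3,13730544),(1,19336),(0,36555)]) (57014,[(3,66723091),(1,58386),(0,32121)]))) (.node ⟨-978,78,61⟩ (.leaf false ⟨⟨-978,78,61⟩,⟨-99,-758,-618⟩,⟨-2,-621,762⟩⟩ (1,[(0,1)]) (106,[(2,29235),(1,99),(3,60746)]) (53,[(2,41343),(1,1),(3,32715)])) (.leaf false ⟨⟨-978,-99,-2⟩,⟨61,-618,762⟩,⟨78,-758,-621⟩⟩ (2,[(2,953),(4,1850),(1,1)]) (13,[(2,16189),(4,99941),(0,103)]) (711,[(4,6637280),(1,25),(0,6846)])))) (.leaf false ⟨⟨-983,0,0⟩,⟨0,-983,0⟩,⟨0,0,-983⟩⟩ (1,[(2,983)]) (1,[(1,983)]) (1,[(0,983)]))))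
theorem pf983_ok : pf983.check (ok 983 6 ⟨5, 5, 5⟩) (fun _ r => r) [] = true := by decide +kernel

def pf991 : T := .node ⟨1,0,0⟩ (.node ⟨0,1,0⟩ (.node ⟨0,0,1⟩ (.leaf false ⟨⟨0,0,991⟩,⟨0,991,0⟩,⟨991,0,0⟩⟩ (1,[(0,991)]) (1,[(1,991)]) (1,[(2,991)])) (.node ⟨-267,946,-126⟩ (.node ⟨226,-363,-894⟩ (.node ⟨939,294,118⟩ (.leaf false ⟨⟨-222,874,-411⟩,⟨226,-363,-894⟩,⟨939,294,118⟩⟩ (89,[(3,27255),(4,7782),(2,74)]) (1,[(1,1)]) (1,[(0,1)])) (.leaf false ⟨⟨-981,42,-134⟩,⟨82,939,-306⟩,⟨114,-314,-933⟩⟩ (59,[(5,5034),(4,22176),(0,67)]) (59,[(5,148505),(4,100383),(0,153)]) (118,[(5,889539),(4,237250),(0,933)]))) (.leaf false ⟨⟨-422,789,426⟩,⟨69,498,-854⟩,⟨894,334,267⟩⟩ (121,[(2,183576),(4,8376),(0,263)]) (121,[(2,251738),(4,45865),(0,166)]) (363,[(2,201675),(4,400006),(0,334)]))) (.leaf false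 ⟨⟨6,334,-933⟩,⟨658,-699,-246⟩,⟨741,618,226⟩⟩ (89,[(1,83289),(0,2),(2,31618)]) (267,[(1,148590),(0,658),(2,435835)]) (89,[(1,11008),(0,247),(2,288664)])))) (.node ⟨0,0,1⟩ (.node ⟨-267,-126,946⟩ (.node ⟨226,-894,-363⟩ (.node ⟨939,118,294⟩ (.leaf false ⟨⟨-222,-411,874⟩,⟨226,-894,-363⟩,⟨939,118,294⟩⟩ (89,[(3,7782),(4,27255),(2,74)]) (1,[(1,1)]) (1,[(0,1)])) (.leaf false ⟨⟨-981,-134,42⟩,⟨82,-306,939⟩,⟨114,-933,-314⟩⟩ (59,[(3,22176),(5,5034),(0,67)]) (59,[(3,100383),(5,148505),(0,153)]) (118,[(3,237250),(5,889539),(0,933)]))) (.leaf false ⟨⟨-422,69,894⟩,⟨426,-854,267⟩,⟨789,498,334⟩⟩ (121,[(4,16286),(3,258063),(0,298)]) (121,[(4,71660),(3,182900),(0,89)]) (363,[(4,361891),(3,117822),(0,334)]))) (.leaf false ⟨⟨6,-933,334⟩,⟨658,-246,-699⟩,⟨741,226,618⟩⟩ (89,[(1,31618),(0,2),(2,83289)])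 (267,[(1,435835),(0,658),(2,148590)]) (89,[(1,288664),(0,247),(2,11008)]))) (.node ⟨-330,-870,-341⟩ (.node ⟨246,379,-882⟩ (.node ⟨894,-198,379⟩ (.leaf false ⟨⟨-107,-954,-246⟩,⟨414,181,-882⟩,⟨894,-198,379⟩⟩ (341,[(5,44693),(4,111294),(2,246)]) (1,[(1,1),(5,168),(4,198)]) (1,[(0,1)])) (.leaf false ⟨⟨-822,-126,-539⟩,⟨294,-917,-234⟩,⟨469,354,-798⟩⟩ (379,[(5,170328),(4,154476),(0,539)]) (379,[(5,320622),(4,393875),(0,234)]) (379,[(5,891163),(4,23838),(0,798)]))) (.leaf false ⟨⟨-530,-834,-75⟩,⟨534,-405,730⟩,⟨645,-350,-666⟩⟩ (379,[(2,764013),(4,4294),(0,834)]) (379,[(2,80540),(4,302016),(0,405)]) (379,[(2,561114),(4,330555),(0,350)]))) (.leaf false ⟨⟨27,-674,-726⟩,⟨294,699,-638⟩,⟨946,-198,219⟩⟩ (110,[(1,82929),(0,9),(2,81970)]) (55,[(1,51799),(0,49),(2,4185)]) (15,[(1,11378),(0,43),(2,40380)])))))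 (.node ⟨0,1,0⟩ (.node ⟨0,0,1⟩ (.node ⟨-126,946,-267⟩ (.node ⟨-894,-363,226⟩ (.node ⟨118,294,939⟩ (.leaf false ⟨⟨-894,-363,226⟩,⟨-411,874,-222⟩,⟨118,294,939⟩⟩ (1,[(1,1)]) (89,[(5,27255),(2,74),(4,7782)]) (1,[(0,1)])) (.leaf false ⟨⟨-981,-138,-26⟩,⟨-126,946,-267⟩,⟨-62,261,954⟩⟩ (118,[(3,918091),(0,981),(4,272130)]) (59,[(3,43404),(0,63),(4,74336)]) (59,[(3,85395),(0,31),(4,24513)]))) (.leaf false ⟨⟨-981,126,-62⟩,⟨-26,267,954⟩,⟨138,946,-261⟩⟩ (121,[(2,1990),(4,156249),(0,42)]) (121,[(2,135548),(4,82712),(0,89)]) (33,[(2,10823),(4,72330),(0,86)]))) (.leaf false ⟨⟨-981,-62,126⟩,⟨-26,954,267⟩,⟨138,-261,946⟩⟩ (89,[(3,92601),(2,34214),(0,42)]) (1,[(3,152),(2,1900),(0,1)]) (267,[(3,82350),(2,825229),(0,946)]))) (.node ⟨-930,91,330⟩ (.node ⟨379,894,-198⟩ (.node ⟨-246,-107,-954⟩ (.leaf false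 ⟨⟨-882,414,181⟩,⟨-246,-107,-954⟩,⟨379,894,-198⟩⟩ (155,[(3,20455),(2,147),(4,50793)]) (1,[(0,1)]) (1,[(1,1)])) (.leaf false ⟨⟨-981,126,-62⟩,⟨-26,267,954⟩,⟨138,946,-261⟩⟩ (107,[(3,126838),(5,135963),(0,126)]) (107,[(3,152640),(5,68464),(0,267)]) (107,[(3,930411),(5,217950),(0,946)]))) (.leaf false ⟨⟨-933,-314,114⟩,⟨-306,939,82⟩,⟨-134,42,-981⟩⟩ (379,[(2,141528),(0,933),(3,715096)]) (379,[(2,29510),(0,306),(3,629445)]) (379,[(2,398331),(0,134),(3,135714)]))) (.leaf false ⟨⟨-939,42,-314⟩,⟨82,981,-114⟩,⟨306,-134,-933⟩⟩ (165,[(3,300945),(2,21217),(0,157)]) (55,[(3,13160),(2,55684),(0,19)]) (110,[(3,255570),(2,13561),(0,311)])))) (.node ⟨0,0,1⟩ (.node ⟨-930,330,91⟩ (.node ⟨379,-198,894⟩ (.node ⟨-246,-954,-107⟩ (.leaf false ⟨⟨-882,181,414⟩,⟨-246,-954,-107⟩,⟨379,-198,894⟩⟩ (155,[(3,50793),(2,147),(4,20455)])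 (1,[(0,1)]) (1,[(1,1)])) (.leaf false ⟨⟨-981,-62,126⟩,⟨-26,954,267⟩,⟨138,-261,946⟩⟩ (107,[(5,135963),(4,126838),(0,126)]) (107,[(5,68464),(4,152640),(0,267)]) (107,[(5,217950),(4,930411),(0,946)]))) (.leaf false ⟨⟨-933,114,-314⟩,⟨-306,82,939⟩,⟨-134,-981,42⟩⟩ (379,[(2,715096),(0,933),(3,141528)]) (379,[(2,629445),(0,306),(3,29510)]) (379,[(2,135714),(0,134),(3,398331)]))) (.leaf false ⟨⟨-939,-314,42⟩,⟨82,-114,981⟩,⟨306,-933,-134⟩⟩ (165,[(1,21217),(3,300945),(0,157)]) (55,[(1,55684),(3,13160),(0,19)]) (110,[(1,13561),(3,255570),(0,311)]))) (.node ⟨-594,582,-539⟩ (.node ⟨426,-422,-789⟩ (.node ⟨-267,-894,334⟩ (.leaf false ⟨⟨-854,69,-498⟩,⟨-267,-894,334⟩,⟨426,-422,-789⟩⟩ (870,[(3,92163),(2,991),(0,578)]) (1,[(0,1)]) (1,[(1,1)])) (.leaf false ⟨⟨-971,-198,-6⟩,⟨-162,811,-546⟩,⟨114,-534,-827⟩⟩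 (167,[(5,162958),(4,35748),(0,3)]) (167,[(5,99945),(4,108625),(0,273)]) (334,[(5,182733),(4,917694),(0,827)]))) (.leaf false ⟨⟨-854,357,-354⟩,⟨-501,-546,658⟩,⟨-42,-746,-651⟩⟩ (213,[(2,412305),(0,427),(3,104153)]) (142,[(2,38327),(0,167),(3,148006)]) (71,[(2,51744),(0,7),(3,55920)]))) (.leaf false ⟨⟨-942,-294,91⟩,⟨91,-546,-822⟩,⟨294,-773,546⟩⟩ (97,[(1,17584),(3,120480),(0,49)]) (97,[(1,128783),(3,45227),(0,91)]) (582,[(1,98875),(3,288054),(0,773)])))))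
theorem pf991_ok : pf991.check (ok 991 6 ⟨5, 5, 5⟩) (fun _ r => r) [] = true := by decide +kernel

def pf997 : T := .node ⟨1,0,0⟩ (.node ⟨0,1,0⟩ (.node ⟨0,0,1⟩ (.leaf false ⟨⟨0,0,997⟩,⟨0,997,0⟩,⟨997,0,0⟩⟩ (1,[(0,997)]) (1,[(1,997)]) (1,[(2,997)])) (.node ⟨-308,132,-939⟩ (.node ⟨189,888,412⟩ (.node ⟨867,-308,-384⟩ (.leaf false ⟨⟨-228,448,-861⟩,⟨189,888,412⟩,⟨952,-69,-288⟩⟩ (77,[(3,12774),(4,26972),(2,57)]) (1,[(1,1)]) (4,[(0,3),(5,1207),(4,648)])) (.leaf false ⟨⟨-888,372,259⟩,⟨-168,259,-948⟩,⟨421,888,168⟩⟩ (77,[(3,15769),(5,12255),(0,93)]) (44,[(3,55920),(5,24687),(0,37)]) (77,[(3,72312),(5,224891),(0,222)]))) (.leaf false ⟨⟨-387,-344,-852⟩,⟨-72,933,-344⟩,⟨916,-72,-387⟩⟩ (103,[(4,396),(3,153712),(0,213)]) (103,[(4,8838),(3,172467),(0,86)]) (412,[(4,450535),(3,313992),(0,387)])))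 (.leaf false ⟨⟨0,997,0⟩,⟨372,0,925⟩,⟨925,0,-372⟩⟩ (1,[(2,997)]) (77,[(1,16102),(0,93),(2,12276)]) (308,[(1,983151),(0,925),(2,122100)])))) (.node ⟨0,0,1⟩ (.node ⟨-308,-939,132⟩ (.node ⟨189,412,888⟩ (.node ⟨867,-384,-308⟩ (.leaf false ⟨⟨-228,-861,448⟩,⟨189,412,888⟩,⟨952,-288,-69⟩⟩ (77,[(3,26972),(4,12774),(2,57)]) (1,[(1,1)]) (4,[(3,648),(5,1207),(0,3)])) (.leaf false ⟨⟨-888,-168,421⟩,⟨259,-948,168⟩,⟨372,259,888⟩⟩ (308,[(5,91503),(4,213408),(0,421)]) (11,[(5,8051),(4,12732),(0,6)]) (77,[(5,221118),(4,65305),(0,222)]))) (.leaf false ⟨⟨-387,-852,-344⟩,⟨-72,-344,933⟩,⟨916,-387,-72⟩⟩ (103,[(2,153712),(4,396),(0,213)]) (103,[(2,172467),(4,8838),(0,86)]) (412,[(2,313992),(4,450535),(0,387)]))) (.leaf false ⟨⟨0,0,997⟩,⟨372,925,0⟩,⟨925,-372,0⟩⟩ (1,[(1,997)]) (77,[(1,12276),(0,93),(2,16102)])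 (308,[(1,122100),(0,925),(2,983151)]))) (.node ⟨-96,-992,27⟩ (.node ⟨988,-93,96⟩ (.leaf false ⟨⟨-96,-992,27⟩,⟨93,-36,-992⟩,⟨988,-93,96⟩⟩ (1,[(1,1)]) (248,[(2,246259),(4,23928),(1,9)]) (1,[(0,1)])) (.leaf false ⟨⟨-963,-56,-252⟩,⟨168,603,-776⟩,⟨196,-792,-573⟩⟩ (30907,[(4,53984559),(1,9604),(0,83832)]) (92721,[(4,761416876),(1,14280),(0,753511)]) (30907,[(4,204436844),(1,43107),(0,196600)]))) (.node ⟨963,-56,252⟩ (.leaf false ⟨⟨12,43,-996⟩,⟨516,852,43⟩,⟨853,-516,-12⟩⟩ (8,[(2,7941),(1,1),(3,648)]) (80056,[(2,3678185),(1,70781),(0,35840)]) (39,[(1,176),(0,17),(3,193764)])) (.leaf false ⟨⟨-963,-56,-252⟩,⟨168,603,-776⟩,⟨196,-792,-573⟩⟩ (1,[(3,112),(0,1)]) (1521,[(1,23928),(3,22938133),(0,2120)]) (84,[(4,200397),(3,77224),(0,191)])))))) (.node ⟨0,1,0⟩ (.node ⟨0,0,1⟩ (.node ⟨-939,-308,132⟩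 (.node ⟨412,189,888⟩ (.node ⟨-384,867,-308⟩ (.leaf false ⟨⟨-861,-228,448⟩,⟨-288,952,-69⟩,⟨412,189,888⟩⟩ (77,[(3,26972),(2,57),(5,12774)]) (4,[(3,648),(0,3),(4,1207)]) (1,[(1,1)])) (.leaf false ⟨⟨-996,-12,43⟩,⟨12,853,516⟩,⟨43,-516,852⟩⟩ (308,[(5,323280),(4,33585),(0,43)]) (77,[(5,48612),(4,177524),(0,129)]) (77,[(5,78481),(4,144939),(0,213)]))) (.leaf false ⟨⟨-948,-308,21⟩,⟨-308,939,-132⟩,⟨-21,132,988⟩⟩ (103,[(2,212619),(0,237),(3,13069)]) (103,[(2,54780),(0,77),(3,111270)]) (412,[(2,425704),(0,21),(3,58353)]))) (.leaf false ⟨⟨-888,189,412⟩,⟨69,952,-288⟩,⟨448,228,861⟩⟩ (44,[(1,21692),(3,64425),(0,27)]) (11,[(1,1320),(3,31167),(0,34)]) (77,[(1,73821),(3,19027),(0,57)]))) (.node ⟨-992,-96,27⟩ (.node ⟨-93,988,96⟩ (.leaf false ⟨⟨-992,-96,27⟩,⟨-93,988,96⟩,⟨-36,93,-992⟩⟩ (1,[(1,1)])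 (1,[(0,1)]) (248,[(2,246259),(1,9),(3,23928)])) (.leaf false ⟨⟨-992,-99,12⟩,⟨-72,628,-771⟩,⟨69,-768,-632⟩⟩ (997,[(1,1012),(3,156529),(0,160)]) (30907,[(1,26205),(3,274450172),(0,255592)]) (92721,[(1,52152),(3,551376892),(0,625081)]))) (.node ⟨-56,963,252⟩ (.leaf false ⟨⟨-992,96,-27⟩,⟨36,93,-992⟩,⟨93,988,96⟩⟩ (1,[(4,1984),(1,1)]) (32,[(2,30907),(4,29600),(1,31)]) (5577,[(4,16510875),(0,3988),(1,17392)])) (.leaf false ⟨⟨-992,-96,-27⟩,⟨-93,988,-96⟩,⟨36,-93,-992⟩⟩ (28,[(4,27944),(3,201),(0,3)]) (21,[(4,2401),(3,28452),(0,8)]) (63,[(4,11620),(3,232965),(0,248)]))))) (.node ⟨0,0,1⟩ (.node ⟨27,-992,-96⟩ (.node ⟨96,-93,988⟩ (.leaf false ⟨⟨-992,-36,93⟩,⟨27,-992,-96⟩,⟨96,-93,988⟩⟩ (248,[(2,23928),(4,246259),(1,9)]) (1,[(1,1)]) (1,[(0,1)])) (.leaf false ⟨⟨-992,-36,-93⟩,⟨-96,93,988⟩,⟨27,-992,96⟩⟩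 (93,[(2,976711),(0,988),(1,96)]) (1,[(2,1976),(0,1)]) (1,[(2,192),(1,1)]))) (.node ⟨252,-56,963⟩ (.leaf false ⟨⟨-996,-12,43⟩,⟨12,853,516⟩,⟨43,-516,852⟩⟩ (96,[(1,43),(4,94455),(3,43808)]) (5577,[(1,13164),(3,8207651),(0,1676)]) (321,[(4,57765),(3,149732),(0,284)])) (.leaf false ⟨⟨-992,-69,-72⟩,⟨-99,768,628⟩,⟨-12,-632,771⟩⟩ (63,[(2,234288),(0,248),(3,18235)]) (3,[(2,828),(1,11),(3,8608)]) (9,[(2,6555),(1,4),(3,9656)])))) (.node ⟨-387,492,-776⟩ (.node ⟨-236,-867,432⟩ (.node ⟨387,-492,-776⟩ (.leaf false ⟨⟨-888,16,-453⟩,⟨-236,-867,432⟩,⟨387,-492,-776⟩⟩ (776,[(2,453),(5,513777),(4,210460)]) (1,[(1,1)]) (1,[(0,1)])) (.leaf false ⟨⟨-888,16,453⟩,⟨-387,492,-776⟩,⟨-236,-867,-432⟩⟩ (129,[(3,171259),(0,296),(4,143568)]) (1,[(3,1552),(0,1)]) (387,[(3,350320),(0,236),(4,451641)]))) (.leaf false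 ⟨⟨-992,72,-69⟩,⟨-12,-771,-632⟩,⟨99,628,-768⟩⟩ (144,[(4,148276),(3,9573),(0,23)]) (54,[(4,19292),(3,110127),(0,79)]) (9,[(4,2885),(3,8220),(0,16)]))) (.leaf false ⟨⟨-992,-69,72⟩,⟨-12,-632,-771⟩,⟨99,-768,628⟩⟩ (164,[(1,6040),(3,171589),(0,23)]) (123,[(1,217441),(3,62622),(0,158)]) (41,[(1,23916),(3,20709),(0,64)])))))
theorem pf997_ok : pf997.check (ok 997 6 ⟨5, 5, 5⟩) (fun _ r => r) [] = true := by decide +kernel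


end H34S
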