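import Pool.Agent.Lib.H34S.Cover

/-!
# H34S: certificates (generated), pentagonal numbers
-/

set_option autoImplicit false

namespace H34S

def pf25 : T := .node ⟨1,0,0⟩ (.node ⟨0,1,0⟩ (.node ⟨0,0,1⟩ (.leaf false ⟨⟨0,0,25⟩,⟨0,25,0⟩,⟨25,0,0⟩⟩ (1,[(0,25)]) (1,[(1,25)]) (1,[(2,25)])) (.node ⟨0,24,7⟩ (.leaf false ⟨⟨0,7,-24⟩,⟨0,24,7⟩,⟨25,0,0⟩⟩ (24,[(1,625),(0,7)]) (1,[(0,1)]) (1,[(3,25)])) (.leaf false ⟨⟨0,-20,-15⟩,⟨0,15,-20⟩,⟨25,0,0⟩⟩ (7,[(0,15),(2,220)]) (7,[(0,20),(2,585)]) (1,[(3,25)])))) (.node ⟨0,0,1⟩ (.node ⟨0,7,24⟩ (.leaf false ⟨⟨0,-24,7⟩,⟨0,7,24⟩,⟨25,0,0⟩⟩ (24,[(0,7),(2,625)]) (1,[(0,1)]) (1,[(3,25)])) (.leaf false ⟨⟨0,-20,15⟩,⟨0,-15,-20⟩,⟨25,0,0⟩⟩ (7,[(1,585),(0,20)]) (7,[(1,220),(0,15)])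 (1,[(3,25)]))) (.node ⟨0,15,-20⟩ (.leaf false ⟨⟨0,-20,-15⟩,⟨0,15,-20⟩,⟨25,0,0⟩⟩ (4,[(0,3),(2,125)]) (1,[(0,1)]) (1,[(3,25)])) (.leaf false ⟨⟨0,-20,15⟩,⟨0,-15,-20⟩,⟨25,0,0⟩⟩ (3,[(1,35),(0,4)]) (1,[(1,40),(0,1)]) (1,[(3,25)]))))) (.node ⟨0,1,0⟩ (.node ⟨0,0,1⟩ (.node ⟨7,0,24⟩ (.leaf false ⟨⟨-24,0,7⟩,⟨0,25,0⟩,⟨7,0,24⟩⟩ (24,[(3,625),(0,7)]) (1,[(2,25)]) (1,[(0,1)])) (.leaf false ⟨⟨-20,0,15⟩,⟨-15,0,-20⟩,⟨0,25,0⟩⟩ (7,[(1,585),(0,20)]) (7,[(1,220),(0,15)]) (1,[(2,25)]))) (.node ⟨15,0,-20⟩ (.leaf false ⟨⟨-20,0,-15⟩,⟨0,25,0⟩,⟨15,0,-20⟩⟩ (4,[(3,125),(0,3)]) (1,[(2,25)]) (1,[(0,1)])) (.leaf false ⟨⟨-20,0,15⟩,⟨-15,0,-20⟩,⟨0,25,0⟩⟩ (3,[(1,35),(0,4)]) (1,[(1,40),(0,1)]) (1,[(2,25)])))) (.node ⟨0,0,1⟩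 (.node ⟨15,-20,0⟩ (.leaf false ⟨⟨-20,-15,0⟩,⟨0,0,25⟩,⟨15,-20,0⟩⟩ (4,[(3,125),(0,3)]) (1,[(1,25)]) (1,[(0,1)])) (.leaf false ⟨⟨-20,15,0⟩,⟨-15,-20,0⟩,⟨0,0,25⟩⟩ (3,[(0,4),(2,35)]) (1,[(0,1),(2,40)]) (1,[(1,25)]))) (.node ⟨-12,16,-15⟩ (.node ⟨9,-12,-20⟩ (.leaf false ⟨⟨-20,-15,0⟩,⟨-12,16,-15⟩,⟨9,-12,-20⟩⟩ (1,[(4,20),(3,15)]) (1,[(1,1)]) (1,[(0,1)])) (.leaf false ⟨⟨-20,-15,0⟩,⟨-12,16,15⟩,⟨-9,12,-20⟩⟩ (9,[(2,400),(0,20),(3,375)]) (3,[(2,35),(0,4)]) (1,[(2,40),(0,1)]))) (.node ⟨-12,-15,16⟩ (.leaf false ⟨⟨-20,0,-15⟩,⟨-12,-15,16⟩,⟨9,-20,-12⟩⟩ (1,[(2,15),(4,20)]) (1,[(0,1)]) (4,[(2,123),(4,24),(1,5)])) (.leaf false ⟨⟨-15,-20,0⟩,⟨-12,9,-20⟩,⟨16,-12,-15⟩⟩ (31,[(4,7905),(1,320),(0,300)]) (31,[(4,4464),(1,156),(0,185)])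 (31,[(4,9548),(1,417),(0,420)]))))))
theorem pf25_ok : pf25.check (ok 25 6 ⟨5, 5, 5⟩) (fun _ r => r) [] = true := by decide +kernel

def pf41 : T := .node ⟨1,0,0⟩ (.node ⟨0,1,0⟩ (.node ⟨0,0,1⟩ (.node ⟨-24,12,31⟩ (.node ⟨4,39,-12⟩ (.leaf false ⟨⟨-24,12,31⟩,⟨4,39,-12⟩,⟨33,4,24⟩⟩ (1,[(1,1)]) (1,[(0,1)]) (3,[(2,41),(4,123),(1,1)])) (.leaf false ⟨⟨-24,4,33⟩,⟨12,39,4⟩,⟨31,-12,24⟩⟩ (41,[(3,164),(1,39),(0,12)]) (3,[(4,40),(3,156),(0,1)]) (1,[(4,39),(3,66),(0,2)]))) (.leaf false ⟨⟨4,39,12⟩,⟨24,-12,31⟩,⟨33,4,-24⟩⟩ (6,[(1,103),(0,1),(2,246)]) (1,[(1,62),(0,1)]) (8,[(1,149),(0,11),(2,164)]))) (.node ⟨-9,40,0⟩ (.leaf false ⟨⟨-9,40,0⟩,⟨0,0,-41⟩,⟨40,9,0⟩⟩ (1,[(0,1)]) (1,[(1,41)]) (40,[(3,1681),(0,9)]))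 (.leaf false ⟨⟨0,0,-41⟩,⟨9,40,0⟩,⟨40,-9,0⟩⟩ (1,[(1,41)]) (1,[(0,1),(2,80)]) (9,[(0,40),(2,1519)])))) (.node ⟨0,0,1⟩ (.node ⟨-9,0,40⟩ (.leaf false ⟨⟨-9,0,40⟩,⟨0,-41,0⟩,⟨40,0,9⟩⟩ (1,[(0,1)]) (1,[(2,41)]) (40,[(3,1681),(0,9)])) (.leaf false ⟨⟨0,-41,0⟩,⟨9,0,40⟩,⟨40,0,-9⟩⟩ (1,[(2,41)]) (1,[(1,80),(0,1)]) (9,[(1,1519),(0,40)]))) (.node ⟨-23,-24,-24⟩ (.node ⟨24,-32,9⟩ (.node ⟨24,9,-32⟩ (.leaf false ⟨⟨-23,-24,-24⟩,⟨24,-32,9⟩,⟨24,9,-32⟩⟩ (1,[(2,1)]) (1,[(1,1)]) (1,[(0,1)])) (.leaf false ⟨⟨-32,-24,9⟩,⟨9,-24,-32⟩,⟨24,-23,24⟩⟩ (3,[(3,229),(5,96),(0,8)]) (3,[(3,352),(5,219),(0,8)]) (9,[(3,520),(5,768),(0,23)]))) (.leaf false ⟨⟨-32,9,-24⟩,⟨9,-32,-24⟩,⟨24,24,-23⟩⟩ (3,[(4,96),(3,229),(0,8)]) (3,[(4,219),(3,352),(0,8)])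 (9,[(4,768),(3,520),(0,23)]))) (.leaf false ⟨⟨12,-39,4⟩,⟨24,4,-33⟩,⟨31,12,24⟩⟩ (23,[(1,196),(0,12),(2,1185)]) (23,[(1,1335),(0,24),(2,484)]) (23,[(1,192),(0,31),(2,468)]))))) (.node ⟨0,1,0⟩ (.node ⟨0,0,1⟩ (.node ⟨0,-9,40⟩ (.leaf false ⟨⟨-41,0,0⟩,⟨0,-9,40⟩,⟨0,40,9⟩⟩ (1,[(3,41)]) (1,[(0,1)]) (40,[(0,9),(2,1681)])) (.leaf false ⟨⟨-41,0,0⟩,⟨0,9,40⟩,⟨0,40,-9⟩⟩ (1,[(3,41)]) (1,[(1,80),(0,1)]) (9,[(1,1519),(0,40)]))) (.node ⟨-24,-23,-24⟩ (.node ⟨-32,24,9⟩ (.node ⟨9,24,-32⟩ (.leaf false ⟨⟨-32,24,9⟩,⟨-24,-23,-24⟩,⟨9,24,-32⟩⟩ (1,[(1,1)]) (1,[(2,1)]) (1,[(0,1)])) (.leaf false ⟨⟨-32,24,-9⟩,⟨-24,-23,24⟩,⟨-9,-24,-32⟩⟩ (9,[(3,1105),(0,32),(4,984)]) (3,[(3,184),(0,8),(4,123)]) (1,[(3,64),(0,1)]))) (.leaf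 false ⟨⟨-32,-24,-9⟩,⟨-9,24,-32⟩,⟨24,-23,-24⟩⟩ (1,[(4,64),(0,1)]) (9,[(4,1105),(3,984),(0,32)]) (3,[(4,184),(3,123),(0,8)]))) (.leaf false ⟨⟨-39,12,4⟩,⟨4,24,-33⟩,⟨12,31,24⟩⟩ (23,[(1,196),(3,1185),(0,12)]) (23,[(1,1335),(3,484),(0,24)]) (23,[(1,192),(3,468),(0,31)])))) (.node ⟨0,0,1⟩ (.node ⟨-24,-24,-23⟩ (.node ⟨-32,9,24⟩ (.node ⟨9,-32,24⟩ (.leaf false ⟨⟨-32,9,24⟩,⟨-24,-24,-23⟩,⟨9,-32,24⟩⟩ (1,[(1,1)]) (1,[(2,1)]) (1,[(0,1)])) (.leaf false ⟨⟨-32,-9,24⟩,⟨-24,24,-23⟩,⟨-9,-32,-24⟩⟩ (9,[(3,984),(0,32),(4,1105)]) (3,[(3,123),(0,8),(4,184)]) (1,[(0,1),(4,64)]))) (.leaf false ⟨⟨-32,-24,9⟩,⟨9,-24,-32⟩,⟨24,-23,24⟩⟩ (3,[(2,219),(4,352),(0,8)]) (3,[(2,96),(4,229),(0,8)]) (9,[(2,768),(4,520),(0,23)])))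 (.leaf false ⟨⟨-39,4,12⟩,⟨4,-33,24⟩,⟨12,24,31⟩⟩ (23,[(3,1185),(2,196),(0,12)]) (23,[(3,484),(2,1335),(0,24)]) (23,[(3,468),(2,192),(0,31)]))) (.leaf false ⟨⟨-41,0,0⟩,⟨0,-41,0⟩,⟨0,0,-41⟩⟩ (1,[(2,41)]) (1,[(1,41)]) (1,[(0,41)]))))
theorem pf41_ok : pf41.check (ok 41 6 ⟨5, 5, 5⟩) (fun _ r => r) [] = true := by decide +kernel

def pf43 : T := .node ⟨1,0,0⟩ (.node ⟨0,1,0⟩ (.node ⟨0,0,1⟩ (.leaf false ⟨⟨0,0,43⟩,⟨0,43,0⟩,⟨43,0,0⟩⟩ (1,[(0,43)]) (1,[(1,43)]) (1,[(2,43)])) (.node ⟨-18,-9,-38⟩ (.leaf false ⟨⟨-18,-9,-38⟩,⟨-2,42,-9⟩,⟨39,-2,-18⟩⟩ (1,[(0,1)]) (38,[(3,86),(2,1677),(0,9)]) (19,[(3,903),(2,43),(0,9)])) (.node ⟨-2,39,18⟩ (.node ⟨42,-2,9⟩ (.leaf false ⟨⟨-2,39,18⟩,⟨9,18,-38⟩,⟨42,-2,9⟩⟩ (1,[(1,1)])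 (38,[(3,1849),(0,9),(1,18)]) (1,[(0,1)])) (.leaf false ⟨⟨-42,7,-6⟩,⟨6,42,7⟩,⟨7,6,-42⟩⟩ (69,[(3,988),(2,35),(0,84)]) (69,[(3,9712),(2,296),(0,117)]) (1,[(3,15),(5,133),(0,3)]))) (.leaf false ⟨⟨7,-30,-30⟩,⟨30,-18,25⟩,⟨30,25,-18⟩⟩ (240,[(2,6280),(0,201),(1,71)]) (40,[(2,800),(0,33),(1,63)]) (3,[(2,244),(1,5),(3,30)]))))) (.node ⟨0,0,1⟩ (.node ⟨-18,-38,-9⟩ (.leaf false ⟨⟨-18,-38,-9⟩,⟨-2,-9,42⟩,⟨39,-18,-2⟩⟩ (1,[(0,1)]) (38,[(1,1677),(3,86),(0,9)]) (19,[(1,43),(3,903),(0,9)])) (.node ⟨-2,18,39⟩ (.node ⟨42,9,-2⟩ (.leaf false ⟨⟨-2,18,39⟩,⟨9,-38,18⟩,⟨42,9,-2⟩⟩ (1,[(1,1)]) (38,[(0,9),(4,1849),(1,18)]) (1,[(0,1)])) (.leaf false ⟨⟨-42,-6,7⟩,⟨6,7,42⟩,⟨7,-42,6⟩⟩ (69,[(2,35),(4,988),(0,84)]) (69,[(2,296),(4,9712),(0,117)])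 (1,[(5,133),(4,15),(0,3)]))) (.leaf false ⟨⟨7,-30,-30⟩,⟨30,-18,25⟩,⟨30,25,-18⟩⟩ (240,[(1,71),(0,201),(3,6280)]) (3,[(2,30),(1,5),(3,244)]) (40,[(1,63),(0,33),(3,800)])))) (.node ⟨6,-42,7⟩ (.node ⟨42,6,7⟩ (.node ⟨6,7,-42⟩ (.leaf false ⟨⟨6,7,-42⟩,⟨7,-42,-6⟩,⟨42,6,7⟩⟩ (1,[(0,1)]) (6,[(3,43),(1,1),(4,258)]) (1,[(1,1)])) (.leaf false ⟨⟨-18,-38,-9⟩,⟨-2,-9,42⟩,⟨39,-18,-2⟩⟩ (43,[(3,10922),(1,17),(0,248)]) (129,[(3,2408),(1,20),(0,183)]) (86,[(3,14921),(1,127),(0,330)]))) (.node ⟨-38,-18,9⟩ (.leaf false ⟨⟨-38,-18,9⟩,⟨-9,-2,-42⟩,⟨18,-39,-2⟩⟩ (1,[(0,1)]) (3,[(3,119),(5,15),(1,1)]) (6,[(3,129),(5,602),(0,13)])) (.node ⟨-38,9,-18⟩ (.leaf false ⟨⟨-38,9,-18⟩,⟨-9,-42,-2⟩,⟨18,-2,-39⟩⟩ (1,[(0,1)]) (77,[(6,387),(3,86),(0,42)])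 (9,[(6,1256),(2,36),(1,11)])) (.leaf false ⟨⟨-39,-18,-2⟩,⟨-2,9,-42⟩,⟨18,-38,-9⟩⟩ (1044,[(2,3681),(1,1121),(0,1876)]) (87,[(2,927),(1,575),(0,445)]) (783,[(2,13149),(1,6788),(0,8116)]))))) (.leaf false ⟨⟨-18,-9,-38⟩,⟨-2,42,-9⟩,⟨39,-2,-18⟩⟩ (7,[(3,102),(2,1659),(0,38)]) (7,[(3,40),(2,84),(0,9)]) (7,[(3,381),(2,770),(0,18)]))))) (.node ⟨0,1,0⟩ (.node ⟨0,0,1⟩ (.node ⟨-38,-18,-9⟩ (.leaf false ⟨⟨-38,-18,-9⟩,⟨-18,39,-2⟩,⟨-9,-2,42⟩⟩ (1,[(0,1)]) (19,[(1,43),(0,9),(2,903)]) (38,[(1,1677),(0,9),(2,86)])) (.node ⟨18,-2,39⟩ (.node ⟨9,42,-2⟩ (.leaf false ⟨⟨-38,9,18⟩,⟨9,42,-2⟩,⟨18,-2,39⟩⟩ (38,[(5,1849),(0,9),(1,18)]) (1,[(0,1)]) (1,[(1,1)])) (.leaf false ⟨⟨-42,7,6⟩,⟨-6,-42,7⟩,⟨7,6,42⟩⟩ (1,[(5,15),(4,133),(0,3)])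 (69,[(5,988),(2,35),(0,84)]) (69,[(5,9712),(2,296),(0,117)]))) (.leaf false ⟨⟨-30,7,-30⟩,⟨-18,30,25⟩,⟨25,30,-18⟩⟩ (240,[(4,6280),(0,201),(1,71)]) (3,[(2,30),(4,244),(1,5)]) (40,[(4,800),(0,33),(1,63)])))) (.node ⟨-42,6,7⟩ (.node ⟨6,42,7⟩ (.node ⟨7,6,-42⟩ (.leaf false ⟨⟨-42,7,-6⟩,⟨6,42,7⟩,⟨7,6,-42⟩⟩ (6,[(3,43),(5,258),(1,1)]) (1,[(1,1)]) (1,[(0,1)])) (.leaf false ⟨⟨-38,-18,-9⟩,⟨-18,39,-2⟩,⟨-9,-2,42⟩⟩ (43,[(3,10922),(0,248),(1,17)]) (86,[(3,14921),(0,330),(1,127)]) (129,[(3,2408),(0,183),(1,20)]))) (.node ⟨-18,-38,9⟩ (.leaf false ⟨⟨-39,18,-2⟩,⟨-18,-38,9⟩,⟨-2,-9,-42⟩⟩ (6,[(3,129),(0,13),(4,602)]) (1,[(0,1)]) (3,[(3,119),(1,1),(4,15)])) (.node ⟨9,-38,-18⟩ (.leaf false ⟨⟨-42,-9,-2⟩,⟨-2,18,-39⟩,⟨9,-38,-18⟩⟩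 (77,[(3,86),(5,387),(0,42)]) (9,[(2,36),(5,1256),(1,11)]) (1,[(0,1)])) (.leaf false ⟨⟨-42,-2,9⟩,⟨-9,18,-38⟩,⟨-2,-39,-18⟩⟩ (261,[(2,2781),(0,1828),(1,1232)]) (261,[(2,4383),(0,2425),(1,2543)]) (3132,[(2,11043),(0,3772),(1,5219)]))))) (.leaf false ⟨⟨-18,-9,-38⟩,⟨-2,42,-9⟩,⟨39,-2,-18⟩⟩ (7,[(3,1722),(2,165),(0,38)]) (7,[(3,392),(2,348),(0,9)]) (7,[(3,483),(2,94),(0,18)])))) (.node ⟨0,0,1⟩ (.node ⟨6,7,42⟩ (.node ⟨7,-42,6⟩ (.leaf false ⟨⟨-42,-6,7⟩,⟨6,7,42⟩,⟨7,-42,6⟩⟩ (6,[(4,258),(3,43),(1,1)]) (1,[(1,1)]) (1,[(0,1)])) (.leaf false ⟨⟨-38,-18,-9⟩,⟨-18,39,-2⟩,⟨-9,-2,42⟩⟩ (86,[(3,23521),(1,55),(0,514)]) (129,[(3,10922),(1,47),(0,372)]) (43,[(3,4902),(1,58),(0,105)]))) (.node ⟨-18,9,-38⟩ (.leaf false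 ⟨⟨-39,-2,18⟩,⟨-18,9,-38⟩,⟨-2,-42,-9⟩⟩ (6,[(2,602),(0,13),(3,129)]) (1,[(0,1)]) (3,[(2,15),(1,1),(3,119)])) (.node ⟨9,-18,-38⟩ (.leaf false ⟨⟨-42,-2,-9⟩,⟨-2,-39,18⟩,⟨9,-18,-38⟩⟩ (7,[(3,21),(5,282),(2,2)]) (6,[(3,602),(5,129),(0,13)]) (1,[(0,1)])) (.leaf false ⟨⟨-42,9,-2⟩,⟨-9,-38,18⟩,⟨-2,-18,-39⟩⟩ (261,[(2,2781),(1,1232),(0,1828)]) (261,[(2,4383),(1,2543),(0,2425)]) (3132,[(2,11043),(1,5219),(0,3772)]))))) (.node ⟨-9,18,-38⟩ (.node ⟨-39,18,-2⟩ (.node ⟨9,-2,-42⟩ (.leaf false ⟨⟨-38,18,-9⟩,⟨-18,-39,-2⟩,⟨9,-2,-42⟩⟩ (36,[(2,7),(1,29),(5,174)]) (19,[(2,1),(5,333),(4,759)]) (1,[(0,1)])) (.leaf false ⟨⟨-42,-2,9⟩,⟨-9,18,-38⟩,⟨-2,-39,-18⟩⟩ (3,[(3,561),(0,14),(4,34)]) (1,[(2,1)]) (9,[(3,246),(0,2),(4,355)])))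 (.leaf false ⟨⟨-39,-18,-2⟩,⟨-2,9,-42⟩,⟨18,-38,-9⟩⟩ (9,[(1,1),(4,732),(0,10)]) (36,[(1,41),(4,600),(0,23)]) (324,[(1,119),(4,24414),(0,803)]))) (.leaf false ⟨⟨-42,-2,-9⟩,⟨-2,-39,18⟩,⟨9,-18,-38⟩⟩ (9,[(1,119),(3,387),(0,1)]) (6,[(1,386),(3,129),(0,13)]) (1,[(1,76),(0,1)])))))
theorem pf43_ok : pf43.check (ok 43 6 ⟨5, 5, 5⟩) (fun _ r => r) [] = true := by decide +kernel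

def pf49 : T := .node ⟨1,0,0⟩ (.node ⟨0,1,0⟩ (.node ⟨0,0,1⟩ (.leaf false ⟨⟨0,0,49⟩,⟨0,49,0⟩,⟨49,0,0⟩⟩ (1,[(0,49)]) (1,[(1,49)]) (1,[(2,49)])) (.node ⟨-36,9,-32⟩ (.node ⟨4,48,9⟩ (.leaf false ⟨⟨-36,9,-32⟩,⟨4,48,9⟩,⟨33,4,-36⟩⟩ (1,[(1,1)]) (1,[(0,1)]) (12,[(2,441),(4,392),(0,1)])) (.leaf false ⟨⟨-33,4,-36⟩,⟨4,-48,-9⟩,⟨36,9,-32⟩⟩ (33,[(4,223),(1,36),(0,4)]) (1,[(4,8),(0,1)]) (1,[(4,72),(1,1)]))) (.node ⟨33,4,36⟩ (.leaf false ⟨⟨4,48,-9⟩,⟨33,4,36⟩,⟨36,-9,-32⟩⟩ (9,[(2,113),(1,1),(3,441)]) (1,[(0,1)]) (1,[(2,64),(1,1)])) (.leaf false ⟨⟨-12,24,-41⟩,⟨31,36,12⟩,⟨36,-23,-24⟩⟩ (80,[(1,307),(3,6139),(0,364)]) (3,[(1,9),(3,217),(0,7)]) (10,[(1,87),(3,889),(0,84)]))))) (.node ⟨0,0,1⟩ (.node ⟨-36,-32,9⟩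 (.node ⟨4,9,48⟩ (.leaf false ⟨⟨-36,-32,9⟩,⟨4,9,48⟩,⟨33,-36,4⟩⟩ (1,[(1,1)]) (1,[(0,1)]) (9,[(4,441),(3,196),(1,4)])) (.leaf false ⟨⟨-33,-36,4⟩,⟨4,-9,-48⟩,⟨36,-32,9⟩⟩ (33,[(4,223),(0,4),(1,36)]) (1,[(4,8),(0,1)]) (1,[(4,72),(1,1)]))) (.node ⟨33,36,4⟩ (.leaf false ⟨⟨4,-9,48⟩,⟨33,36,4⟩,⟨36,-32,-9⟩⟩ (9,[(2,441),(1,1),(3,113)]) (1,[(0,1)]) (1,[(1,1),(3,64)])) (.leaf false ⟨⟨-12,-41,24⟩,⟨31,12,36⟩,⟨36,-24,-23⟩⟩ (80,[(2,6139),(1,307),(0,364)]) (3,[(2,217),(1,9),(0,7)]) (10,[(2,889),(1,87),(0,84)])))) (.node ⟨-36,-24,-23⟩ (.node ⟨12,24,-41⟩ (.node ⟨-14,21,-42⟩ (.leaf false ⟨⟨-21,-42,-14⟩,⟨-14,21,-42⟩,⟨42,-14,-21⟩⟩ (23,[(5,21),(4,630),(2,14)]) (1,[(0,1)]) (2,[(5,98),(4,49),(0,1)])) (.leaf false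 ⟨⟨-36,-24,-23⟩,⟨12,-41,24⟩,⟨31,-12,-36⟩⟩ (1,[(2,1)]) (348,[(2,325),(1,413),(0,780)]) (232,[(2,263),(1,679),(0,608)]))) (.leaf false ⟨⟨-36,-24,-23⟩,⟨12,-41,24⟩,⟨31,-12,-36⟩⟩ (1,[(1,1)]) (24,[(2,1105),(4,780),(0,41)]) (2,[(2,49),(4,98),(1,1)]))) (.node ⟨31,-12,36⟩ (.leaf false ⟨⟨12,-41,-24⟩,⟨31,-12,36⟩,⟨36,24,-23⟩⟩ (3,[(2,95),(1,1),(3,147)]) (1,[(0,1)]) (1,[(2,46),(1,1)])) (.leaf false ⟨⟨-12,24,-41⟩,⟨31,36,12⟩,⟨36,-23,-24⟩⟩ (583,[(1,839),(3,20544),(0,1200)]) (583,[(1,744),(3,240),(0,281)]) (583,[(1,2040),(3,82673),(0,1692)])))))) (.node ⟨0,1,0⟩ (.node ⟨0,0,1⟩ (.node ⟨-32,9,-36⟩ (.node ⟨9,48,4⟩ (.leaf false ⟨⟨-36,4,33⟩,⟨-32,9,-36⟩,⟨9,48,4⟩⟩ (9,[(2,441),(4,196),(1,4)]) (1,[(1,1)]) (1,[(0,1)]))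 (.leaf false ⟨⟨-36,4,-33⟩,⟨-32,9,36⟩,⟨-9,-48,4⟩⟩ (33,[(2,223),(0,4),(1,36)]) (1,[(2,72),(1,1)]) (1,[(2,8),(0,1)]))) (.node ⟨36,4,33⟩ (.leaf false ⟨⟨-32,-9,36⟩,⟨-9,48,4⟩,⟨36,4,33⟩⟩ (1,[(4,64),(1,1)]) (9,[(4,113),(3,441),(1,1)]) (1,[(0,1)])) (.leaf false ⟨⟨-41,-24,12⟩,⟨-12,36,31⟩,⟨24,-23,36⟩⟩ (16,[(3,1183),(1,119),(0,124)]) (30,[(3,3493),(1,189),(0,178)]) (10,[(3,7),(1,21),(0,12)])))) (.node ⟨-24,-36,-23⟩ (.node ⟨24,12,-41⟩ (.node ⟨21,-14,-42⟩ (.leaf false ⟨⟨-42,-21,-14⟩,⟨-14,42,-21⟩,⟨21,-14,-42⟩⟩ (23,[(2,14),(5,630),(4,21)]) (2,[(5,49),(4,98),(0,1)]) (1,[(0,1)])) (.leaf false ⟨⟨-42,-14,21⟩,⟨-21,42,-14⟩,⟨-14,-21,-42⟩⟩ (116,[(2,105),(0,136),(1,21)]) (58,[(2,63),(0,186),(1,175)]) (696,[(2,749),(0,336),(1,637)])))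 (.leaf false ⟨⟨-42,-14,21⟩,⟨-21,42,-14⟩,⟨-14,-21,-42⟩⟩ (4,[(2,203),(0,7),(3,28)]) (8,[(2,399),(0,7),(3,420)]) (12,[(2,343),(1,7)]))) (.node ⟨-12,31,36⟩ (.leaf false ⟨⟨-41,12,-24⟩,⟨-12,31,36⟩,⟨24,36,-23⟩⟩ (3,[(2,95),(4,147),(1,1)]) (1,[(0,1)]) (1,[(2,46),(1,1)])) (.leaf false ⟨⟨-36,9,-32⟩,⟨4,48,9⟩,⟨33,4,-36⟩⟩ (583,[(4,68880),(1,1316),(0,1359)]) (583,[(4,41804),(1,1449),(0,780)]) (583,[(4,27657),(1,1260),(0,1388)]))))) (.node ⟨0,0,1⟩ (.node ⟨-24,-23,-36⟩ (.node ⟨24,-41,12⟩ (.node ⟨21,-42,-14⟩ (.leaf false ⟨⟨-42,-14,-21⟩,⟨-14,-21,42⟩,⟨21,-42,-14⟩⟩ (23,[(3,21),(5,630),(2,14)]) (2,[(3,98),(5,49),(0,1)]) (1,[(0,1)])) (.leaf false ⟨⟨-42,21,-14⟩,⟨-21,-14,42⟩,⟨-14,-42,-21⟩⟩ (116,[(2,105),(1,21),(0,136)])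 (58,[(2,63),(1,175),(0,186)]) (696,[(2,749),(1,637),(0,336)]))) (.leaf false ⟨⟨-42,21,-14⟩,⟨-21,-14,42⟩,⟨-14,-42,-21⟩⟩ (4,[(2,28),(0,7),(3,203)]) (8,[(2,420),(0,7),(3,399)]) (12,[(1,7),(3,343)]))) (.node ⟨-12,36,31⟩ (.leaf false ⟨⟨-41,-24,12⟩,⟨-12,36,31⟩,⟨24,-23,36⟩⟩ (3,[(4,147),(3,95),(1,1)]) (1,[(0,1)]) (1,[(3,46),(1,1)])) (.leaf false ⟨⟨-36,-32,9⟩,⟨4,9,48⟩,⟨33,-36,4⟩⟩ (583,[(4,68880),(0,1359),(1,1316)]) (583,[(4,41804),(0,780),(1,1449)]) (583,[(4,27657),(0,1388),(1,1260)])))) (.node ⟨-12,31,-36⟩ (.node ⟨-41,12,24⟩ (.leaf false ⟨⟨-41,12,24⟩,⟨-24,-36,-23⟩,⟨-12,31,-36⟩⟩ (1,[(0,1)]) (41,[(2,1519),(0,24),(3,1764)]) (1,[(1,1)])) (.node ⟨12,31,-36⟩ (.leaf false ⟨⟨-41,-12,-24⟩,⟨12,31,-36⟩,⟨24,-36,-23⟩⟩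 (1,[(5,82),(1,1)]) (1,[(0,1)]) (24,[(5,367),(4,588),(1,23)])) (.leaf false ⟨⟨-36,-24,-23⟩,⟨12,-41,24⟩,⟨31,-12,-36⟩⟩ (28224,[(2,103393),(0,110593),(1,37848)]) (2352,[(2,53),(0,2597),(1,1464)]) (2352,[(2,2395),(0,2107),(1,3096)])))) (.leaf false ⟨⟨-48,-9,4⟩,⟨4,-36,-33⟩,⟨9,-32,36⟩⟩ (31,[(1,200),(3,1596),(0,9)]) (31,[(1,2319),(3,308),(0,36)]) (31,[(1,36),(3,105),(0,32)])))))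
theorem pf49_ok : pf49.check (ok 49 6 ⟨5, 5, 5⟩) (fun _ r => r) [] = true := by decide +kernel

def pf59 : T := .node ⟨1,0,0⟩ (.node ⟨0,1,0⟩ (.node ⟨0,0,1⟩ (.node ⟨-23,6,54⟩ (.node ⟨-23,54,-6⟩ (.node ⟨54,22,-9⟩ (.leaf false ⟨⟨-23,54,-6⟩,⟨6,9,58⟩,⟨54,22,-9⟩⟩ (1,[(1,1)]) (6,[(3,354),(5,59),(1,1)]) (1,[(0,1)])) (.leaf false ⟨⟨-23,-6,54⟩,⟨6,58,9⟩,⟨54,-9,22⟩⟩ (59,[(5,28910),(1,189),(0,480)]) (59,[(5,10620),(1,120),(0,139)]) (354,[(5,89621),(1,403),(0,1134)]))) (.leaf false ⟨⟨-9,-6,58⟩,⟨22,54,9⟩,⟨54,-23,6⟩⟩ (123,[(4,1216),(1,129),(0,28)]) (6,[(4,155),(3,318),(1,1)]) (1,[(4,31),(3,31),(0,1)]))) (.node ⟨22,-9,54⟩ (.leaf false ⟨⟨9,58,6⟩,⟨22,-9,54⟩,⟨54,-6,-23⟩⟩ (23,[(2,624),(1,9),(3,1388)]) (1,[(0,1)])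 (23,[(2,2387),(1,54),(3,186)])) (.leaf false ⟨⟨-23,54,-6⟩,⟨6,9,58⟩,⟨54,22,-9⟩⟩ (25,[(2,37380),(1,327),(0,368)]) (25,[(2,10360),(1,84),(0,81)]) (15,[(2,19305),(1,194),(0,166)])))) (.node ⟨-41,42,-6⟩ (.node ⟨-6,-14,-57⟩ (.leaf false ⟨⟨-41,42,-6⟩,⟨-6,-14,-57⟩,⟨42,39,-14⟩⟩ (1,[(1,1)]) (1,[(0,1)]) (57,[(4,2478),(3,2419),(0,14)])) (.node ⟨22,9,54⟩ (.leaf false ⟨⟨-9,58,-6⟩,⟨22,9,54⟩,⟨54,6,-23⟩⟩ (387,[(5,17936),(0,16),(2,531)]) (1,[(0,1)]) (3,[(3,177),(5,118),(0,2)])) (.leaf false ⟨⟨-9,22,54⟩,⟨-6,54,-23⟩,⟨58,9,6⟩⟩ (81,[(5,1519),(1,234),(0,166)]) (243,[(5,54604),(1,3123),(0,3400)]) (81,[(5,6980),(1,144),(0,143)])))) (.node ⟨-14,-6,-57⟩ (.leaf false ⟨⟨-14,-6,-57⟩,⟨39,42,-14⟩,⟨42,-41,-6⟩⟩ (1,[(0,1)])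 (2253,[(1,2419),(3,201072),(0,808)]) (751,[(1,826),(3,4897),(0,166)])) (.node ⟨22,-9,54⟩ (.leaf false ⟨⟨9,58,6⟩,⟨22,-9,54⟩,⟨54,-6,-23⟩⟩ (14,[(3,429),(1,9),(4,758)]) (1,[(0,1)]) (11,[(3,1711),(0,27),(4,177)])) (.leaf false ⟨⟨-9,58,-6⟩,⟨22,9,54⟩,⟨54,6,-23⟩⟩ (3951,[(2,7633),(1,34720),(0,37936)]) (439,[(2,332),(1,1388),(0,1063)]) (3951,[(2,18040),(1,48271),(0,54640)])))))) (.node ⟨0,0,1⟩ (.node ⟨-41,-6,42⟩ (.node ⟨-6,-57,-14⟩ (.leaf false ⟨⟨-41,-6,42⟩,⟨-6,-57,-14⟩,⟨42,-14,39⟩⟩ (1,[(1,1)]) (1,[(0,1)]) (57,[(2,2419),(4,2478),(0,14)])) (.node ⟨22,54,9⟩ (.leaf false ⟨⟨-9,-6,58⟩,⟨22,54,9⟩,⟨54,-23,6⟩⟩ (387,[(5,17936),(2,531),(0,16)]) (1,[(0,1)]) (3,[(5,118),(4,177),(0,2)])) (.leaf false ⟨⟨-9,54,22⟩,⟨-6,-23,54⟩,⟨58,6,9⟩⟩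 (81,[(5,1519),(0,166),(1,234)]) (243,[(5,54604),(0,3400),(1,3123)]) (81,[(5,6980),(0,143),(1,144)])))) (.node ⟨-14,-57,-6⟩ (.leaf false ⟨⟨-14,-57,-6⟩,⟨39,-14,42⟩,⟨42,-6,-41⟩⟩ (1,[(0,1)]) (2253,[(2,201072),(1,2419),(0,808)]) (751,[(2,4897),(1,826),(0,166)])) (.node ⟨22,54,-9⟩ (.leaf false ⟨⟨9,6,58⟩,⟨22,54,-9⟩,⟨54,-23,-6⟩⟩ (14,[(3,758),(1,9),(4,429)]) (1,[(0,1)]) (11,[(3,177),(0,27),(4,1711)])) (.leaf false ⟨⟨-9,-6,58⟩,⟨22,54,9⟩,⟨54,-23,6⟩⟩ (3951,[(1,34720),(2,7633),(0,37936)]) (439,[(1,1388),(2,332),(0,1063)]) (3951,[(1,48271),(2,18040),(0,54640)]))))) (.node ⟨-9,-54,22⟩ (.node ⟨58,-6,9⟩ (.leaf false ⟨⟨-9,-54,22⟩,⟨6,-23,-54⟩,⟨58,-6,9⟩⟩ (1,[(1,1)]) (54,[(2,3422),(4,531),(1,23)]) (1,[(0,1)]))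 (.leaf false ⟨⟨-50,-30,-9⟩,⟨-9,30,-50⟩,⟨30,-41,-30⟩⟩ (59,[(4,8614),(1,54),(0,191)]) (59,[(4,19234),(1,5),(0,340)]) (354,[(4,161837),(1,549),(0,2522)]))) (.node ⟨-9,22,-54⟩ (.leaf false ⟨⟨-9,22,-54⟩,⟨6,-54,-23⟩,⟨58,9,-6⟩⟩ (1,[(0,1)]) (54,[(4,531),(3,3422),(0,23)]) (11,[(1,3),(4,611),(3,63)])) (.node ⟨-6,-54,-23⟩ (.leaf false ⟨⟨-6,-54,-23⟩,⟨9,22,-54⟩,⟨58,-9,6⟩⟩ (1,[(0,1)]) (19,[(3,1216),(2,11),(1,8)]) (684,[(3,143108),(2,1195),(1,3213)])) (.leaf false ⟨⟨9,58,6⟩,⟨22,-9,54⟩,⟨54,-6,-23⟩⟩ (2,[(3,57),(0,3),(4,46)]) (3,[(3,91),(0,11),(4,621)]) (1,[(3,230),(0,9),(4,492)]))))))) (.node ⟨0,1,0⟩ (.node ⟨0,0,1⟩ (.node ⟨-6,42,-41⟩ (.node ⟨-57,-14,-6⟩ (.leaf false ⟨⟨-57,-14,-6⟩,⟨-14,39,42⟩,⟨-6,42,-41⟩⟩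 (1,[(0,1)]) (57,[(2,2478),(0,14),(3,2419)]) (1,[(1,1)])) (.node ⟨54,9,22⟩ (.leaf false ⟨⟨-23,6,54⟩,⟨-6,58,-9⟩,⟨54,9,22⟩⟩ (3,[(3,118),(5,177),(0,2)]) (387,[(3,17936),(2,531),(0,16)]) (1,[(0,1)])) (.leaf false ⟨⟨-23,54,-6⟩,⟨6,9,58⟩,⟨54,22,-9⟩⟩ (243,[(3,54604),(0,3400),(1,3123)]) (81,[(3,6980),(0,143),(1,144)]) (81,[(3,1519),(0,166),(1,234)])))) (.node ⟨-57,-6,-14⟩ (.leaf false ⟨⟨-57,-6,-14⟩,⟨-14,42,39⟩,⟨-6,-41,42⟩⟩ (1,[(0,1)]) (2253,[(3,201072),(1,2419),(0,808)]) (751,[(3,4897),(1,826),(0,166)])) (.node ⟨54,-9,22⟩ (.leaf false ⟨⟨-23,-6,54⟩,⟨6,58,9⟩,⟨54,-9,22⟩⟩ (11,[(5,1711),(4,177),(0,27)]) (14,[(5,429),(4,758),(1,9)]) (1,[(0,1)])) (.leaf false ⟨⟨-23,6,54⟩,⟨-6,58,-9⟩,⟨54,9,22⟩⟩ (3951,[(1,48271),(2,18040),(0,54640)])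 (3951,[(1,34720),(2,7633),(0,37936)]) (439,[(1,1388),(2,332),(0,1063)]))))) (.node ⟨-54,-9,22⟩ (.node ⟨-6,58,9⟩ (.leaf false ⟨⟨-54,-9,22⟩,⟨-23,6,-54⟩,⟨-6,58,9⟩⟩ (1,[(1,1)]) (54,[(2,3422),(1,23),(3,531)]) (1,[(0,1)])) (.leaf false ⟨⟨-57,-14,6⟩,⟨-14,39,-42⟩,⟨6,-42,-41⟩⟩ (118,[(1,159),(3,17759),(0,310)]) (177,[(1,189),(3,83308),(0,1288)]) (59,[(1,32),(3,17936),(0,347)]))) (.node ⟨22,-9,-54⟩ (.leaf false ⟨⟨-54,6,-23⟩,⟨9,58,-6⟩,⟨22,-9,-54⟩⟩ (54,[(4,3422),(3,531),(0,23)]) (11,[(4,63),(3,611),(1,3)]) (1,[(0,1)])) (.node ⟨-54,-6,-23⟩ (.leaf false ⟨⟨-54,-6,-23⟩,⟨-9,58,6⟩,⟨22,9,-54⟩⟩ (1,[(0,1)]) (684,[(3,143108),(1,3213),(2,1195)]) (19,[(3,1216),(1,8),(2,11)])) (.leaf false ⟨⟨-9,22,54⟩,⟨-6,54,-23⟩,⟨58,9,6⟩⟩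 (3,[(3,91),(5,621),(0,11)]) (1,[(3,230),(5,492),(0,9)]) (2,[(3,57),(5,46),(0,3)])))))) (.node ⟨0,0,1⟩ (.node ⟨22,-54,-9⟩ (.node ⟨9,-6,58⟩ (.leaf false ⟨⟨-54,-23,6⟩,⟨9,-6,58⟩,⟨22,-54,-9⟩⟩ (54,[(2,531),(4,3422),(1,23)]) (1,[(0,1)]) (1,[(1,1)])) (.leaf false ⟨⟨-57,6,-14⟩,⟨-14,-42,39⟩,⟨6,-41,-42⟩⟩ (59,[(2,28084),(0,491),(1,48)]) (59,[(2,19234),(0,280),(1,77)]) (354,[(2,21653),(0,578),(1,333)]))) (.node ⟨-54,22,-9⟩ (.leaf false ⟨⟨-54,22,-9⟩,⟨-23,-54,6⟩,⟨-6,9,58⟩⟩ (1,[(0,1)]) (54,[(2,531),(0,23),(3,3422)]) (11,[(2,611),(1,3),(3,63)])) (.node ⟨-54,-23,-6⟩ (.leaf false ⟨⟨-54,-23,-6⟩,⟨-9,6,58⟩,⟨22,-54,9⟩⟩ (1,[(0,1)]) (684,[(2,3213),(4,143108),(1,1195)]) (19,[(2,8),(4,1216),(1,11)])) (.leaf false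 ⟨⟨-9,54,22⟩,⟨-6,-23,54⟩,⟨58,6,9⟩⟩ (3,[(5,621),(4,91),(0,11)]) (1,[(5,492),(4,230),(0,9)]) (2,[(5,46),(4,57),(0,3)]))))) (.leaf false ⟨⟨-59,0,0⟩,⟨0,-59,0⟩,⟨0,0,-59⟩⟩ (1,[(2,59)]) (1,[(1,59)]) (1,[(0,59)]))))
theorem pf59_ok : pf59.check (ok 59 6 ⟨5, 5, 5⟩) (fun _ r => r) [] = true := by decide +kernel

def pf61 : T := .node ⟨1,0,0⟩ (.node ⟨0,1,0⟩ (.node ⟨0,0,1⟩ (.leaf false ⟨⟨0,0,61⟩,⟨0,61,0⟩,⟨61,0,0⟩⟩ (1,[(0,61)]) (1,[(1,61)]) (1,[(2,61)])) (.node ⟨-11,0,-60⟩ (.leaf false ⟨⟨-11,0,-60⟩,⟨0,61,0⟩,⟨60,0,-11⟩⟩ (1,[(0,1)]) (1,[(2,61)]) (60,[(3,3721),(0,11)])) (.node ⟨24,-29,-48⟩ (.leaf false ⟨⟨24,-29,-48⟩,⟨36,48,-11⟩,⟨43,-24,36⟩⟩ (1,[(0,1)]) (11,[(2,2281),(1,36),(3,528)]) (82,[(0,91),(1,122),(3,671)]))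 (.node ⟨36,-11,-48⟩ (.leaf false ⟨⟨-24,48,-29⟩,⟨36,-11,-48⟩,⟨43,36,24⟩⟩ (65,[(3,5917),(0,38),(1,122)]) (1,[(0,1)]) (4692,[(0,11501),(2,2928),(1,10187)])) (.leaf false ⟨⟨-56,21,12⟩,⟨-3,24,-56⟩,⟨24,52,21⟩⟩ (121,[(3,18036),(2,140),(0,231)]) (121,[(3,69308),(2,831),(0,264)]) (121,[(3,153075),(2,2136),(0,572)])))))) (.node ⟨0,0,1⟩ (.node ⟨-11,-60,0⟩ (.leaf false ⟨⟨-11,-60,0⟩,⟨0,0,61⟩,⟨60,-11,0⟩⟩ (1,[(0,1)]) (1,[(1,61)]) (60,[(3,3721),(0,11)])) (.node ⟨24,-48,-29⟩ (.leaf false ⟨⟨24,-48,-29⟩,⟨36,-11,48⟩,⟨43,36,-24⟩⟩ (1,[(0,1)]) (11,[(2,528),(1,36),(3,2281)]) (82,[(2,671),(1,122),(0,91)])) (.node ⟨36,-48,-11⟩ (.leaf false ⟨⟨-24,-29,48⟩,⟨36,-48,-11⟩,⟨43,24,36⟩⟩ (65,[(0,38),(4,5917),(1,122)]) (1,[(0,1)])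 (4692,[(2,2928),(0,11501),(1,10187)])) (.leaf false ⟨⟨-56,-3,24⟩,⟨12,-56,21⟩,⟨21,24,52⟩⟩ (121,[(2,248),(4,27915),(0,264)]) (121,[(2,888),(4,71144),(0,231)]) (121,[(2,2103),(4,150732),(0,572)]))))) (.node ⟨-24,-56,3⟩ (.node ⟨52,-21,24⟩ (.leaf false ⟨⟨-24,-56,3⟩,⟨21,-12,-56⟩,⟨52,-21,24⟩⟩ (1,[(1,1)]) (14,[(2,793),(4,366),(1,3)]) (1,[(0,1)])) (.leaf false ⟨⟨-36,-45,-20⟩,⟨-20,36,-45⟩,⟨45,-20,-36⟩⟩ (1281,[(4,55144),(1,1500),(0,1255)]) (427,[(4,33916),(1,27),(0,804)]) (427,[(4,65087),(1,412),(0,692)]))) (.node ⟨-24,3,-56⟩ (.leaf false ⟨⟨-24,3,-56⟩,⟨21,-56,-12⟩,⟨52,24,-21⟩⟩ (1,[(0,1)]) (14,[(4,366),(3,793),(0,3)]) (354,[(1,854),(3,39589),(0,87)])) (.leaf false ⟨⟨21,-56,12⟩,⟨24,-3,-56⟩,⟨52,24,21⟩⟩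 (8,[(2,296),(0,7),(3,427)]) (1,[(2,53),(1,1),(3,59)]) (354,[(2,24721),(1,183),(0,584)])))))) (.node ⟨0,1,0⟩ (.node ⟨0,0,1⟩ (.node ⟨-60,-11,0⟩ (.leaf false ⟨⟨-60,-11,0⟩,⟨-11,60,0⟩,⟨0,0,61⟩⟩ (1,[(0,1)]) (60,[(0,11),(2,3721)]) (1,[(1,61)])) (.node ⟨-48,24,-29⟩ (.leaf false ⟨⟨-48,24,-29⟩,⟨-11,36,48⟩,⟨36,43,-24⟩⟩ (1,[(0,1)]) (11,[(2,528),(4,2281),(1,36)]) (82,[(2,671),(0,91),(1,122)])) (.node ⟨-48,36,-11⟩ (.leaf false ⟨⟨-48,36,-11⟩,⟨-29,-24,48⟩,⟨24,43,36⟩⟩ (1,[(0,1)]) (65,[(5,5917),(0,38),(1,122)]) (4692,[(0,11501),(2,2928),(1,10187)])) (.leaf false ⟨⟨-56,-3,24⟩,⟨12,-56,21⟩,⟨21,24,52⟩⟩ (121,[(5,69308),(2,831),(0,264)]) (121,[(5,18036),(2,140),(0,231)]) (121,[(5,153075),(2,2136),(0,572)])))))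 (.node ⟨-56,-24,3⟩ (.node ⟨-21,52,24⟩ (.leaf false ⟨⟨-56,-24,3⟩,⟨-21,52,24⟩,⟨-12,21,-56⟩⟩ (1,[(1,1)]) (1,[(0,1)]) (14,[(2,793),(1,3),(3,366)])) (.leaf false ⟨⟨-56,-24,-3⟩,⟨-21,52,-24⟩,⟨12,-21,-56⟩⟩ (61,[(1,67),(3,976),(0,16)]) (61,[(1,48),(3,7808),(0,67)]) (1281,[(1,888),(3,155611),(0,3100)]))) (.node ⟨3,-24,-56⟩ (.leaf false ⟨⟨-56,21,-12⟩,⟨3,-24,-56⟩,⟨24,52,-21⟩⟩ (14,[(4,793),(3,366),(0,3)]) (1,[(0,1)]) (354,[(4,39589),(1,854),(0,87)])) (.leaf false ⟨⟨-56,21,12⟩,⟨-3,24,-56⟩,⟨24,52,21⟩⟩ (8,[(2,296),(4,427),(0,7)]) (1,[(2,53),(4,59),(1,1)]) (354,[(2,24721),(0,584),(1,183)]))))) (.node ⟨0,0,1⟩ (.node ⟨3,-56,-24⟩ (.node ⟨24,-21,52⟩ (.leaf false ⟨⟨-56,-12,21⟩,⟨3,-56,-24⟩,⟨24,-21,52⟩⟩ (14,[(2,366),(4,793),(1,3)])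 (1,[(1,1)]) (1,[(0,1)])) (.leaf false ⟨⟨-56,-12,-21⟩,⟨-24,21,52⟩,⟨3,-56,24⟩⟩ (21,[(2,2839),(0,52),(1,24)]) (1,[(2,104),(0,1)]) (1,[(2,48),(1,1)]))) (.node ⟨-56,3,-24⟩ (.leaf false ⟨⟨-56,3,-24⟩,⟨-21,24,52⟩,⟨-12,-56,21⟩⟩ (1,[(0,1)]) (354,[(1,854),(0,87),(3,39589)]) (14,[(2,366),(0,3),(3,793)])) (.leaf false ⟨⟨-56,-3,24⟩,⟨12,-56,21⟩,⟨21,24,52⟩⟩ (1,[(1,1),(4,53),(3,59)]) (8,[(4,296),(3,427),(0,7)]) (354,[(1,183),(4,24721),(0,584)])))) (.node ⟨-20,45,-36⟩ (.node ⟨-45,-20,36⟩ (.node ⟨-36,45,-20⟩ (.leaf false ⟨⟨-45,-20,36⟩,⟨-36,45,-20⟩,⟨-20,-36,-45⟩⟩ (1,[(1,1)]) (1,[(0,1)]) (1,[(3,9),(2,1),(4,81)])) (.leaf false ⟨⟨-45,-36,-20⟩,⟨-20,45,-36⟩,⟨36,-20,-45⟩⟩ (50,[(2,387),(1,162),(0,355)]) (1,[(2,1)])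 (16,[(2,81),(1,16),(0,81)]))) (.leaf false ⟨⟨-45,-36,-20⟩,⟨-20,45,-36⟩,⟨36,-20,-45⟩⟩ (9,[(1,5),(4,305),(3,549)]) (1,[(1,1)]) (4,[(4,81),(3,180),(0,5)]))) (.node ⟨45,-36,-20⟩ (.leaf false ⟨⟨-36,-20,-45⟩,⟨-20,-45,36⟩,⟨45,-36,-20⟩⟩ (9,[(2,549),(4,404),(1,4)]) (1,[(4,40),(1,1)]) (1,[(0,1)])) (.leaf false ⟨⟨-56,-3,-24⟩,⟨-21,-24,52⟩,⟨12,-56,-21⟩⟩ (435,[(2,53452),(0,860),(1,717)]) (435,[(2,8912),(0,475),(1,612)]) (45,[(2,3937),(0,20),(1,72)]))))))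
theorem pf61_ok : pf61.check (ok 61 6 ⟨5, 5, 5⟩) (fun _ r => r) [] = true := by decide +kernel

def pf65 : T := .node ⟨1,0,0⟩ (.node ⟨0,1,0⟩ (.node ⟨0,0,1⟩ (.node ⟨-36,25,48⟩ (.node ⟨15,60,-20⟩ (.leaf false ⟨⟨-36,25,48⟩,⟨15,60,-20⟩,⟨52,0,39⟩⟩ (1,[(1,1)]) (1,[(0,1)]) (1,[(2,39),(4,52)])) (.leaf false ⟨⟨-36,15,52⟩,⟨25,60,0⟩,⟨48,-20,39⟩⟩ (5,[(4,15),(3,855),(0,13)]) (1,[(4,25),(3,60)]) (20,[(4,1545),(3,1940),(0,39)]))) (.leaf false ⟨⟨0,25,60⟩,⟨39,48,-20⟩,⟨52,-36,15⟩⟩ (1,[(1,60),(2,25)]) (12,[(1,384),(0,13),(2,901)]) (9,[(1,759),(0,13),(2,1)]))) (.node ⟨-39,52,0⟩ (.leaf false ⟨⟨-39,52,0⟩,⟨0,0,-65⟩,⟨52,39,0⟩⟩ (1,[(0,1)]) (1,[(1,65)]) (4,[(3,325),(0,3)])) (.leaf false ⟨⟨0,0,-65⟩,⟨39,52,0⟩,⟨52,-39,0⟩⟩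 (1,[(1,65)]) (1,[(0,1),(2,104)]) (3,[(0,4),(2,91)])))) (.node ⟨0,0,1⟩ (.node ⟨-39,0,52⟩ (.leaf false ⟨⟨-39,0,52⟩,⟨0,-65,0⟩,⟨52,0,39⟩⟩ (1,[(0,1)]) (1,[(2,65)]) (4,[(3,325),(0,3)])) (.leaf false ⟨⟨0,-65,0⟩,⟨39,0,52⟩,⟨52,0,-39⟩⟩ (1,[(2,65)]) (1,[(1,104),(0,1)]) (3,[(1,91),(0,4)]))) (.node ⟨63,0,16⟩ (.leaf false ⟨⟨0,-65,0⟩,⟨16,0,-63⟩,⟨63,0,16⟩⟩ (1,[(2,65)]) (63,[(1,4225),(0,16)]) (1,[(0,1)])) (.leaf false ⟨⟨-56,0,-33⟩,⟨0,-65,0⟩,⟨33,0,-56⟩⟩ (16,[(3,1183),(0,33)]) (1,[(2,65)]) (2,[(3,507),(0,7)]))))) (.node ⟨0,1,0⟩ (.node ⟨0,0,1⟩ (.node ⟨0,-39,52⟩ (.leaf false ⟨⟨-65,0,0⟩,⟨0,-39,52⟩,⟨0,52,39⟩⟩ (1,[(3,65)]) (1,[(0,1)]) (4,[(0,3),(2,325)])) (.leaf false ⟨⟨-65,0,0⟩,⟨0,39,52⟩,⟨0,52,-39⟩⟩ (1,[(3,65)])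 (1,[(1,104),(0,1)]) (3,[(1,91),(0,4)]))) (.node ⟨0,63,16⟩ (.leaf false ⟨⟨-65,0,0⟩,⟨0,16,-63⟩,⟨0,63,16⟩⟩ (1,[(3,65)]) (63,[(1,4225),(0,16)]) (1,[(0,1)])) (.leaf false ⟨⟨-65,0,0⟩,⟨0,-56,-33⟩,⟨0,33,-56⟩⟩ (1,[(3,65)]) (16,[(0,33),(2,1183)]) (2,[(0,7),(2,507)])))) (.node ⟨0,0,1⟩ (.node ⟨0,16,63⟩ (.leaf false ⟨⟨-65,0,0⟩,⟨0,-63,16⟩,⟨0,16,63⟩⟩ (1,[(3,65)]) (63,[(0,16),(2,4225)]) (1,[(0,1)])) (.leaf false ⟨⟨-65,0,0⟩,⟨0,-56,33⟩,⟨0,-33,-56⟩⟩ (1,[(3,65)]) (2,[(1,507),(0,7)]) (16,[(1,1183),(0,33)]))) (.leaf false ⟨⟨-65,0,0⟩,⟨0,-65,0⟩,⟨0,0,-65⟩⟩ (1,[(2,65)]) (1,[(1,65)]) (1,[(0,65)]))))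
theorem pf65_ok : pf65.check (ok 65 6 ⟨5, 5, 5⟩) (fun _ r => r) [] = true := by decide +kernel

def pf71 : T := .node ⟨1,0,0⟩ (.node ⟨0,1,0⟩ (.node ⟨0,0,1⟩ (.node ⟨-54,19,42⟩ (.node ⟨3,66,-26⟩ (.leaf false ⟨⟨-54,19,42⟩,⟨3,66,-26⟩,⟨46,18,51⟩⟩ (1,[(1,1)]) (1,[(0,1)]) (11,[(2,639),(4,497),(0,3)])) (.leaf false ⟨⟨-35,54,30⟩,⟨-30,-45,46⟩,⟨54,10,45⟩⟩ (7,[(4,25),(3,283),(1,5)]) (213,[(3,1846),(1,107),(0,204)]) (26,[(4,1539),(3,3230),(0,45)]))) (.node ⟨46,-54,3⟩ (.leaf false ⟨⟨18,19,66⟩,⟨46,-54,3⟩,⟨51,42,-26⟩⟩ (3,[(2,240),(1,1),(3,76)]) (1,[(0,1)]) (18,[(2,246),(1,17),(3,1079)])) (.leaf false ⟨⟨-26,66,3⟩,⟨42,19,-54⟩,⟨51,18,46⟩⟩ (1021,[(2,41940),(1,816),(0,1535)]) (1021,[(2,13584),(1,1571),(0,912)])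 (2042,[(2,250199),(1,3582),(0,1941)])))) (.node ⟨30,45,46⟩ (.node ⟨54,-35,-30⟩ (.node ⟨45,30,46⟩ (.leaf false ⟨⟨10,54,-45⟩,⟨45,30,46⟩,⟨54,-35,-30⟩⟩ (3,[(3,181),(2,1),(4,117)]) (1,[(0,1)]) (1,[(1,1)])) (.leaf false ⟨⟨-54,30,-35⟩,⟨10,-45,-54⟩,⟨45,46,-30⟩⟩ (3124,[(1,1521),(2,12567),(0,13952)]) (2343,[(1,1830),(2,355),(0,1912)]) (3905,[(1,8045),(2,25347),(0,22647)]))) (.leaf false ⟨⟨-35,54,-30⟩,⟨30,45,46⟩,⟨54,10,-45⟩⟩ (35,[(2,2670),(4,1691),(0,54)]) (1,[(1,1)]) (7,[(2,375),(4,486),(0,2)]))) (.node ⟨-54,30,-35⟩ (.leaf false ⟨⟨-54,30,-35⟩,⟨10,-45,-54⟩,⟨45,46,-30⟩⟩ (1,[(0,1)]) (23,[(4,1040),(3,180),(1,27)]) (7,[(4,639),(3,142),(0,6)])) (.leaf false ⟨⟨-30,-35,-54⟩,⟨45,-54,10⟩,⟨46,30,-45⟩⟩ (239,[(3,6830),(1,311),(0,40)])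 (478,[(3,7413),(1,345),(0,590)]) (717,[(3,164400),(1,2020),(0,1733)]))))) (.node ⟨0,0,1⟩ (.node ⟨30,46,45⟩ (.node ⟨54,-30,-35⟩ (.node ⟨45,46,30⟩ (.leaf false ⟨⟨10,-45,54⟩,⟨45,46,30⟩,⟨54,-30,-35⟩⟩ (3,[(3,117),(2,1),(4,181)]) (1,[(0,1)]) (1,[(1,1)])) (.leaf false ⟨⟨-54,-35,30⟩,⟨10,-54,-45⟩,⟨45,-30,46⟩⟩ (3124,[(2,12567),(1,1521),(0,13952)]) (2343,[(2,355),(1,1830),(0,1912)]) (3905,[(2,25347),(1,8045),(0,22647)]))) (.leaf false ⟨⟨-35,-30,54⟩,⟨30,46,45⟩,⟨54,-45,10⟩⟩ (35,[(4,1691),(3,2670),(0,54)]) (1,[(1,1)]) (7,[(4,486),(3,375),(0,2)]))) (.node ⟨-54,-35,30⟩ (.leaf false ⟨⟨-54,-35,30⟩,⟨10,-54,-45⟩,⟨45,-30,46⟩⟩ (1,[(0,1)]) (23,[(2,180),(4,1040),(1,27)]) (7,[(2,142),(4,639),(0,6)])) (.leaf false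 ⟨⟨-30,-54,-35⟩,⟨45,10,-54⟩,⟨46,-45,30⟩⟩ (239,[(2,6830),(0,40),(1,311)]) (478,[(2,7413),(0,590),(1,345)]) (717,[(2,164400),(0,1733),(1,2020)])))) (.node ⟨-51,-42,-26⟩ (.node ⟨46,30,-45⟩ (.node ⟨45,-54,10⟩ (.leaf false ⟨⟨-30,-35,-54⟩,⟨45,-54,10⟩,⟨46,30,-45⟩⟩ (6,[(3,194),(5,75),(2,5)]) (1,[(0,1)]) (1,[(1,1)])) (.leaf false ⟨⟨-66,-3,-26⟩,⟨18,46,-51⟩,⟨19,-54,-42⟩⟩ (5,[(5,255),(4,717),(0,13)]) (10,[(5,2475),(4,2294),(0,51)]) (5,[(5,1040),(4,1404),(0,21)]))) (.leaf false ⟨⟨-54,-42,19⟩,⟨-3,-26,-66⟩,⟨46,-51,18⟩⟩ (5,[(2,220),(4,52),(0,7)]) (15,[(2,1575),(4,553),(0,13)]) (10,[(2,585),(4,1242),(0,17)]))) (.node ⟨46,51,-18⟩ (.leaf false ⟨⟨3,-26,-66⟩,⟨46,51,-18⟩,⟨54,-42,19⟩⟩ (17,[(2,1148),(1,1),(3,484)])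 (1,[(0,1)]) (17,[(2,145),(1,18),(3,1470)])) (.leaf false ⟨⟨-45,-54,10⟩,⟨30,-35,-54⟩,⟨46,-30,45⟩⟩ (223,[(2,4592),(1,63),(0,288)]) (669,[(2,172576),(1,3140),(0,3045)]) (223,[(2,43029),(1,1242),(0,1154)])))))) (.node ⟨0,1,0⟩ (.node ⟨0,0,1⟩ (.node ⟨46,45,30⟩ (.node ⟨-30,-35,54⟩ (.node ⟨46,30,45⟩ (.leaf false ⟨⟨-45,54,10⟩,⟨-30,-35,54⟩,⟨46,30,45⟩⟩ (3,[(5,181),(4,117),(2,1)]) (1,[(1,1)]) (1,[(0,1)])) (.leaf false ⟨⟨-66,-18,19⟩,⟨-26,51,-42⟩,⟨3,46,54⟩⟩ (11715,[(2,38837),(1,18735),(0,43427)]) (3905,[(2,20732),(1,2955),(0,21012)]) (15620,[(2,68373),(1,21875),(0,53088)]))) (.leaf false ⟨⟨-51,42,-26⟩,⟨-18,19,66⟩,⟨46,54,-3⟩⟩ (5,[(2,194),(4,435),(0,6)]) (45,[(2,2400),(4,1684),(1,19)]) (35,[(2,2811),(4,10),(0,54)])))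 (.node ⟨-35,30,-54⟩ (.leaf false ⟨⟨-54,-45,10⟩,⟨-35,30,-54⟩,⟨-30,46,45⟩⟩ (23,[(2,1040),(1,27),(3,180)]) (1,[(0,1)]) (7,[(2,639),(0,6),(3,142)])) (.leaf false ⟨⟨-66,-26,3⟩,⟨-18,51,46⟩,⟨19,-42,54⟩⟩ (478,[(1,1223),(3,63787),(0,706)]) (717,[(1,1291),(3,134502),(0,1328)]) (239,[(1,144),(3,6012),(0,319)])))) (.node ⟨-26,-51,-42⟩ (.node ⟨-45,46,30⟩ (.node ⟨10,45,-54⟩ (.leaf false ⟨⟨-54,-30,-35⟩,⟨-45,46,30⟩,⟨10,45,-54⟩⟩ (6,[(2,5),(5,194),(4,75)]) (1,[(1,1)]) (1,[(0,1)])) (.leaf false ⟨⟨-66,18,19⟩,⟨-26,-51,-42⟩,⟨-3,46,-54⟩⟩ (5,[(3,1687),(0,33),(4,1575)]) (5,[(3,912),(0,13),(4,330)]) (10,[(3,702),(0,3),(4,595)]))) (.leaf false ⟨⟨-66,-3,-26⟩,⟨18,46,-51⟩,⟨19,-54,-42⟩⟩ (15,[(4,1575),(3,553),(0,13)])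 (10,[(4,585),(3,1242),(0,17)]) (5,[(4,220),(3,52),(0,7)]))) (.node ⟨-18,46,51⟩ (.leaf false ⟨⟨-66,3,-26⟩,⟨-18,46,51⟩,⟨19,54,-42⟩⟩ (17,[(2,484),(4,1148),(1,1)]) (1,[(0,1)]) (17,[(2,1470),(4,145),(1,18)])) (.leaf false ⟨⟨-54,-30,-35⟩,⟨-45,46,30⟩,⟨10,45,-54⟩⟩ (669,[(4,47656),(1,80),(0,525)]) (223,[(4,20819),(1,322),(0,134)]) (223,[(4,67052),(1,1593),(0,1548)]))))) (.node ⟨0,0,1⟩ (.node ⟨-26,-42,-51⟩ (.node ⟨-45,30,46⟩ (.node ⟨10,-54,45⟩ (.leaf false ⟨⟨-54,-35,-30⟩,⟨-45,30,46⟩,⟨10,-54,45⟩⟩ (6,[(3,75),(5,194),(2,5)]) (1,[(1,1)]) (1,[(0,1)])) (.leaf false ⟨⟨-66,19,18⟩,⟨-26,-42,-51⟩,⟨-3,-54,46⟩⟩ (5,[(3,1575),(0,33),(4,1687)]) (5,[(3,330),(0,13),(4,912)]) (10,[(3,595),(0,3),(4,702)]))) (.leaf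 false ⟨⟨-66,-26,-3⟩,⟨18,-51,46⟩,⟨19,-42,-54⟩⟩ (15,[(2,553),(4,1575),(0,13)]) (10,[(2,1242),(4,585),(0,17)]) (5,[(2,52),(4,220),(0,7)]))) (.node ⟨-18,51,46⟩ (.leaf false ⟨⟨-66,-26,3⟩,⟨-18,51,46⟩,⟨19,-42,54⟩⟩ (17,[(4,1148),(3,484),(1,1)]) (1,[(0,1)]) (17,[(4,145),(3,1470),(1,18)])) (.leaf false ⟨⟨-54,-35,-30⟩,⟨-45,30,46⟩,⟨10,-54,45⟩⟩ (669,[(4,47656),(0,525),(1,80)]) (223,[(4,20819),(0,134),(1,322)]) (223,[(4,67052),(0,1548),(1,1593)])))) (.leaf false ⟨⟨-71,0,0⟩,⟨0,-71,0⟩,⟨0,0,-71⟩⟩ (1,[(2,71)]) (1,[(1,71)]) (1,[(0,71)]))))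
theorem pf71_ok : pf71.check (ok 71 6 ⟨5, 5, 5⟩) (fun _ r => r) [] = true := by decide +kernel

def pf73 : T := .node ⟨1,0,0⟩ (.node ⟨0,1,0⟩ (.node ⟨0,0,1⟩ (.leaf false ⟨⟨0,0,73⟩,⟨0,73,0⟩,⟨73,0,0⟩⟩ (1,[(0,73)]) (1,[(1,73)]) (1,[(2,73)])) (.node ⟨-12,12,-71⟩ (.node ⟨48,0,55⟩ (.leaf false ⟨⟨0,73,0⟩,⟨48,0,55⟩,⟨55,0,-48⟩⟩ (1,[(3,73)]) (1,[(0,1)]) (48,[(2,5329),(0,55)])) (.node ⟨48,-33,-44⟩ (.leaf false ⟨⟨-44,12,-57⟩,⟨33,64,-12⟩,⟨48,-33,-44⟩⟩ (55,[(5,316),(4,660),(1,57)]) (11,[(5,219),(4,803),(0,3)]) (1,[(0,1)])) (.leaf false ⟨⟨-63,36,-8⟩,⟨24,28,-63⟩,⟨28,57,36⟩⟩ (55,[(5,2103),(0,60),(1,56)]) (165,[(5,25128),(0,140),(1,301)]) (11,[(5,1604),(0,19),(1,8)])))) (.leaf false ⟨⟨0,73,0⟩,⟨48,0,55⟩,⟨55,0,-48⟩⟩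 (1,[(2,73)]) (1,[(1,229),(0,4),(2,48)]) (12,[(1,4481),(0,55),(2,660)])))) (.node ⟨0,0,1⟩ (.node ⟨-12,-71,12⟩ (.node ⟨48,55,0⟩ (.leaf false ⟨⟨0,0,73⟩,⟨48,55,0⟩,⟨55,-48,0⟩⟩ (1,[(2,73)]) (1,[(0,1)]) (48,[(0,55),(3,5329)])) (.node ⟨48,-44,-33⟩ (.leaf false ⟨⟨-44,-57,12⟩,⟨33,-12,64⟩,⟨48,-44,-33⟩⟩ (55,[(3,660),(5,316),(1,57)]) (11,[(3,803),(5,219),(0,3)]) (1,[(0,1)])) (.leaf false ⟨⟨-63,-8,36⟩,⟨24,-63,28⟩,⟨28,36,57⟩⟩ (55,[(5,2103),(1,56),(0,60)]) (165,[(5,25128),(1,301),(0,140)]) (11,[(5,1604),(1,8),(0,19)])))) (.leaf false ⟨⟨0,0,73⟩,⟨48,55,0⟩,⟨55,-48,0⟩⟩ (1,[(1,73)]) (1,[(1,48),(0,4),(2,229)]) (12,[(1,660),(0,55),(2,4481)]))) (.node ⟨-9,-72,-8⟩ (.node ⟨-8,9,-72⟩ (.leaf false ⟨⟨-9,-72,-8⟩,⟨-8,9,-72⟩,⟨72,-8,-9⟩⟩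 (1,[(1,1)]) (1,[(0,1)]) (8,[(4,584),(3,73),(0,1)])) (.node ⟨-24,-63,28⟩ (.leaf false ⟨⟨-24,-63,28⟩,⟨28,-36,-57⟩,⟨63,-8,36⟩⟩ (1,[(0,1)]) (7,[(3,511),(5,292),(0,4)]) (9,[(3,252),(5,503),(1,8)])) (.leaf false ⟨⟨12,-44,57⟩,⟨33,-48,-44⟩,⟨64,33,12⟩⟩ (657,[(3,51319),(1,1260),(2,244)]) (8979,[(0,19199),(1,4449),(2,22229)]) (6,[(3,1676),(0,7),(1,27)])))) (.leaf false ⟨⟨12,57,-44⟩,⟨33,-44,-48⟩,⟨64,12,33⟩⟩ (3,[(1,164),(0,4),(2,117)]) (3,[(1,232),(0,11),(2,924)]) (9,[(1,215),(0,64),(2,4500)]))))) (.node ⟨0,1,0⟩ (.node ⟨0,0,1⟩ (.node ⟨-71,-12,12⟩ (.node ⟨55,48,0⟩ (.leaf false ⟨⟨-48,55,0⟩,⟨0,0,73⟩,⟨55,48,0⟩⟩ (48,[(4,5329),(0,55)]) (1,[(2,73)]) (1,[(0,1)])) (.node ⟨-44,48,-33⟩ (.leaf false ⟨⟨-57,-44,12⟩,⟨-44,48,-33⟩,⟨-12,33,64⟩⟩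 (55,[(3,660),(1,57),(4,316)]) (1,[(0,1)]) (11,[(3,803),(0,3),(4,219)])) (.leaf false ⟨⟨-71,-12,12⟩,⟨-12,72,1⟩,⟨12,1,72⟩⟩ (55,[(1,87),(4,4476),(0,20)]) (33,[(1,8),(4,2808),(0,1)]) (55,[(1,84),(4,9847),(0,120)])))) (.leaf false ⟨⟨-71,12,-12⟩,⟨-12,1,72⟩,⟨12,72,1⟩⟩ (1,[(3,142),(0,1)]) (12,[(1,876),(3,215),(0,1)]) (1,[(1,73),(3,414),(0,6)]))) (.node ⟨-72,-9,-8⟩ (.node ⟨9,-8,-72⟩ (.leaf false ⟨⟨-72,-9,-8⟩,⟨-8,72,-9⟩,⟨9,-8,-72⟩⟩ (1,[(1,1)]) (8,[(4,73),(3,584),(0,1)]) (1,[(0,1)])) (.node ⟨-63,-24,28⟩ (.leaf false ⟨⟨-63,-24,28⟩,⟨-36,28,-57⟩,⟨-8,63,36⟩⟩ (1,[(0,1)]) (7,[(3,511),(0,4),(4,292)]) (9,[(3,252),(1,8),(4,503)])) (.leaf false ⟨⟨-63,28,24⟩,⟨-8,36,-63⟩,⟨36,57,28⟩⟩ (2993,[(2,6268),(1,3511),(0,4672)])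 (36,[(3,10760),(1,123),(0,13)]) (2993,[(2,4271),(1,4449),(0,7227)])))) (.leaf false ⟨⟨-63,28,24⟩,⟨-8,36,-63⟩,⟨36,57,28⟩⟩ (9,[(1,8),(3,2583),(0,28)]) (1,[(1,95),(3,296),(0,4)]) (3,[(1,68),(3,1260),(0,19)])))) (.node ⟨0,0,1⟩ (.node ⟨-72,-8,-9⟩ (.node ⟨9,-72,-8⟩ (.leaf false ⟨⟨-72,-8,-9⟩,⟨-8,-9,72⟩,⟨9,-72,-8⟩⟩ (1,[(1,1)]) (8,[(2,584),(4,73),(0,1)]) (1,[(0,1)])) (.node ⟨-63,28,-24⟩ (.leaf false ⟨⟨-63,28,-24⟩,⟨-36,-57,28⟩,⟨-8,36,63⟩⟩ (1,[(0,1)]) (7,[(3,292),(0,4),(4,511)]) (9,[(3,503),(1,8),(4,252)])) (.leaf false ⟨⟨-63,-8,36⟩,⟨24,-63,28⟩,⟨28,36,57⟩⟩ (2993,[(1,3039),(2,7860),(0,6424)]) (129,[(2,132),(4,1471),(0,200)]) (26937,[(1,43251),(2,40903),(0,64897)])))) (.leaf false ⟨⟨-63,-8,36⟩,⟨24,-63,28⟩,⟨28,36,57⟩⟩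 (1,[(3,351),(2,40),(0,4)]) (9,[(3,1800),(2,791),(0,28)]) (3,[(3,1284),(2,44),(0,19)]))) (.node ⟨12,-71,12⟩ (.leaf false ⟨⟨-72,-12,1⟩,⟨1,-12,-72⟩,⟨12,-71,12⟩⟩ (71,[(1,73),(3,5256),(0,12)]) (71,[(1,5256),(3,73),(0,12)]) (1,[(0,1)])) (.node ⟨12,12,-71⟩ (.leaf false ⟨⟨-72,1,-12⟩,⟨1,-72,-12⟩,⟨12,12,-71⟩⟩ (1,[(1,1),(4,60),(3,70)]) (71,[(4,73),(3,5256),(0,12)]) (1,[(0,1)])) (.leaf false ⟨⟨-71,12,12⟩,⟨-12,-72,1⟩,⟨-12,1,-72⟩⟩ (12,[(2,3901),(1,12),(0,59)]) (1,[(2,70),(0,1),(3,60)]) (1,[(2,60),(1,1),(3,70)]))))))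
theorem pf73_ok : pf73.check (ok 73 6 ⟨5, 5, 5⟩) (fun _ r => r) [] = true := by decide +kernel

def pf79 : T := .node ⟨1,0,0⟩ (.node ⟨0,1,0⟩ (.node ⟨0,0,1⟩ (.leaf false ⟨⟨0,0,79⟩,⟨0,79,0⟩,⟨79,0,0⟩⟩ (1,[(0,79)]) (1,[(1,79)]) (1,[(2,79)])) (.node ⟨-38,66,-21⟩ (.node ⟨-6,-27,-74⟩ (.leaf false ⟨⟨-38,66,-21⟩,⟨-6,-27,-74⟩,⟨69,34,-18⟩⟩ (1,[(1,1)]) (1,[(0,1)]) (37,[(4,2607),(3,1501),(0,9)])) (.leaf false ⟨⟨-30,70,-21⟩,⟨21,30,70⟩,⟨70,21,-30⟩⟩ (711,[(2,27176),(0,340),(1,615)]) (9,[(2,110),(4,129),(0,10)]) (9,[(2,788),(4,588),(0,7)]))) (.leaf false ⟨⟨27,6,-74⟩,⟨34,69,18⟩,⟨66,-38,21⟩⟩ (38,[(1,3379),(0,27),(2,2010)]) (19,[(1,15),(0,17),(2,2433)]) (19,[(1,294),(0,33),(2,1456)])))) (.node ⟨0,0,1⟩ (.node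 ⟨-38,-21,66⟩ (.node ⟨-6,-74,-27⟩ (.leaf false ⟨⟨-38,-21,66⟩,⟨-6,-74,-27⟩,⟨69,-18,34⟩⟩ (1,[(1,1)]) (1,[(0,1)]) (37,[(2,1501),(4,2607),(0,9)])) (.leaf false ⟨⟨-30,-21,70⟩,⟨21,70,30⟩,⟨70,-30,21⟩⟩ (711,[(3,27176),(1,615),(0,340)]) (9,[(4,129),(3,110),(0,10)]) (9,[(4,588),(3,788),(0,7)]))) (.leaf false ⟨⟨27,-74,6⟩,⟨34,18,69⟩,⟨66,21,-38⟩⟩ (38,[(1,2010),(0,27),(2,3379)]) (19,[(1,2433),(0,17),(2,15)]) (19,[(1,1456),(0,33),(2,294)]))) (.node ⟨66,-6,43⟩ (.node ⟨-6,-78,-11⟩ (.node ⟨43,6,-66⟩ (.leaf false ⟨⟨-6,-78,-11⟩,⟨43,6,-66⟩,⟨66,-11,42⟩⟩ (1,[(1,1)]) (1,[(0,1)]) (1,[(3,1),(2,1),(4,5)])) (.leaf false ⟨⟨-74,-21,18⟩,⟨-6,-38,-69⟩,⟨27,-66,34⟩⟩ (2,[(3,426),(5,153),(0,7)]) (3,[(3,1461),(5,799),(0,19)])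 (1,[(3,692),(5,500),(0,11)]))) (.leaf false ⟨⟨6,78,-11⟩,⟨43,6,66⟩,⟨66,-11,-42⟩⟩ (1,[(2,22),(0,1)]) (6,[(2,77),(0,43),(3,3318)]) (1,[(2,163),(0,11),(3,869)]))) (.node ⟨-6,43,-66⟩ (.leaf false ⟨⟨-11,-66,-42⟩,⟨-6,43,-66⟩,⟨78,-6,-11⟩⟩ (43,[(4,2299),(3,3090),(1,42)]) (1,[(0,1)]) (6,[(4,474),(3,79),(0,1)])) (.leaf false ⟨⟨-69,-38,-6⟩,⟨18,-21,-74⟩,⟨34,-66,27⟩⟩ (1453,[(4,72279),(0,1670),(1,2766)]) (1453,[(4,319560),(0,1347),(1,4568)]) (1453,[(4,244216),(0,2676),(1,3195)])))))) (.node ⟨0,1,0⟩ (.node ⟨0,0,1⟩ (.node ⟨-21,66,-38⟩ (.node ⟨-74,-27,-6⟩ (.leaf false ⟨⟨-74,-27,-6⟩,⟨-21,66,-38⟩,⟨-18,34,69⟩⟩ (1,[(0,1)]) (1,[(1,1)]) (37,[(2,2607),(0,9),(3,1501)])) (.leaf false ⟨⟨-42,66,-11⟩,⟨-11,6,78⟩,⟨66,43,6⟩⟩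 (1,[(2,27),(4,21),(1,1)]) (9,[(2,690),(4,247),(0,2)]) (711,[(4,27176),(1,48),(0,1015)]))) (.leaf false ⟨⟨-74,6,27⟩,⟨18,69,34⟩,⟨21,-38,66⟩⟩ (38,[(3,3379),(2,2010),(0,27)]) (19,[(3,15),(2,2433),(0,17)]) (19,[(3,294),(2,1456),(0,33)]))) (.node ⟨-6,66,43⟩ (.node ⟨-78,-6,-11⟩ (.node ⟨6,43,-66⟩ (.leaf false ⟨⟨-78,-6,-11⟩,⟨-11,66,42⟩,⟨6,43,-66⟩⟩ (1,[(1,1)]) (1,[(3,1),(5,5),(2,1)]) (1,[(0,1)])) (.leaf false ⟨⟨-78,-11,6⟩,⟨-11,42,-66⟩,⟨-6,66,43⟩⟩ (1,[(3,852),(0,13),(4,548)]) (6,[(3,1122),(0,11),(4,725)]) (1,[(3,23),(0,1),(4,109)]))) (.leaf false ⟨⟨-38,66,21⟩,⟨6,27,-74⟩,⟨69,34,18⟩⟩ (1,[(2,100),(4,896),(0,11)]) (2,[(2,247),(4,690),(0,9)]) (3,[(2,133),(4,1119),(0,17)]))) (.node ⟨43,-6,-66⟩ (.leaf false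 ⟨⟨-66,-11,-42⟩,⟨-6,78,-11⟩,⟨43,-6,-66⟩⟩ (43,[(4,3090),(3,2299),(1,42)]) (6,[(4,79),(3,474),(0,1)]) (1,[(0,1)])) (.leaf false ⟨⟨-69,34,-18⟩,⟨-38,-66,21⟩,⟨6,-27,-74⟩⟩ (1453,[(3,382600),(1,5328),(0,3075)]) (1453,[(3,984),(1,1605),(0,1508)]) (1453,[(3,143529),(1,2786),(0,186)]))))) (.node ⟨0,0,1⟩ (.node ⟨-6,43,66⟩ (.node ⟨-78,-11,-6⟩ (.node ⟨6,-66,43⟩ (.leaf false ⟨⟨-78,-11,-6⟩,⟨-11,42,66⟩,⟨6,-66,43⟩⟩ (1,[(1,1)]) (1,[(2,1),(5,5),(4,1)]) (1,[(0,1)])) (.leaf false ⟨⟨-78,-11,6⟩,⟨-11,42,-66⟩,⟨-6,66,43⟩⟩ (1,[(3,565),(0,13),(4,869)]) (6,[(3,77),(0,11),(4,474)]) (1,[(3,86),(0,1)]))) (.leaf false ⟨⟨-38,6,69⟩,⟨21,-74,18⟩,⟨66,27,34⟩⟩ (2,[(4,1870),(3,241),(0,23)]) (1,[(4,213),(3,107),(0,3)]) (3,[(4,1128),(3,106),(0,17)])))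 (.node ⟨43,-66,-6⟩ (.leaf false ⟨⟨-66,-42,-11⟩,⟨-6,-11,78⟩,⟨43,-66,-6⟩⟩ (43,[(2,2299),(4,3090),(1,42)]) (6,[(2,474),(4,79),(0,1)]) (1,[(0,1)])) (.leaf false ⟨⟨-69,-18,34⟩,⟨-38,21,-66⟩,⟨6,-74,-27⟩⟩ (1453,[(2,382600),(0,3075),(1,5328)]) (1453,[(2,984),(0,1508),(1,1605)]) (1453,[(2,143529),(0,186),(1,2786)])))) (.node ⟨18,-69,34⟩ (.node ⟨-74,-6,27⟩ (.leaf false ⟨⟨-74,-6,27⟩,⟨-21,-38,-66⟩,⟨18,-69,34⟩⟩ (1,[(0,1)]) (69,[(2,5846),(4,2133),(1,38)]) (1,[(1,1)])) (.leaf false ⟨⟨-74,6,-27⟩,⟨-18,-69,34⟩,⟨21,-38,-66⟩⟩ (1,[(4,148),(0,1)]) (1,[(4,36),(1,1)]) (21,[(4,5359),(1,18),(0,74)]))) (.node ⟨-38,-66,21⟩ (.node ⟨6,-27,-74⟩ (.leaf false ⟨⟨-69,34,-18⟩,⟨-38,-66,21⟩,⟨6,-27,-74⟩⟩ (17,[(2,9),(5,1011),(4,43)])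 (1,[(1,1)]) (1,[(0,1)])) (.leaf false ⟨⟨-74,-27,-6⟩,⟨-21,66,-38⟩,⟨-18,34,69⟩⟩ (3,[(3,2756),(0,37),(4,1080)]) (2,[(3,594),(0,7),(4,57)]) (1,[(3,153),(0,3),(4,47)]))) (.leaf false ⟨⟨-74,18,-21⟩,⟨-6,-69,-38⟩,⟨27,34,-66⟩⟩ (1,[(4,112),(3,48),(0,1)]) (21,[(4,1570),(3,3957),(0,38)]) (7,[(4,647),(3,1214),(0,22)]))))))
theorem pf79_ok : pf79.check (ok 79 6 ⟨5, 5, 5⟩) (fun _ r => r) [] = true := by decide +kernel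

def pf83 : T := .node ⟨1,0,0⟩ (.node ⟨0,1,0⟩ (.node ⟨0,0,1⟩ (.node ⟨-18,-18,79⟩ (.leaf false ⟨⟨-18,-18,79⟩,⟨-2,81,18⟩,⟨81,-2,18⟩⟩ (1,[(0,1)]) (79,[(3,166),(2,6723),(0,18)]) (79,[(3,6723),(2,166),(0,18)])) (.node ⟨-33,70,30⟩ (.leaf false ⟨⟨-33,70,30⟩,⟨30,42,-65⟩,⟨70,15,42⟩⟩ (1,[(0,1)]) (309,[(2,24734),(1,581),(0,36)]) (6,[(2,647),(4,330),(1,5)])) (.leaf false ⟨⟨15,42,70⟩,⟨42,-65,30⟩,⟨70,30,-33⟩⟩ (6,[(2,815),(1,5),(3,162)]) (11,[(2,750),(0,14),(3,265)]) (33,[(2,1011),(0,70),(3,5890)])))) (.node ⟨-42,30,-65⟩ (.node ⟨33,70,30⟩ (.node ⟨70,-15,-42⟩ (.leaf false ⟨⟨-30,42,-65⟩,⟨33,70,30⟩,⟨70,-15,-42⟩⟩ (1,[(5,12),(4,12),(2,1)]) (1,[(1,1)]) (1,[(0,1)])) (.leaf false ⟨⟨-65,30,-42⟩,⟨-30,33,70⟩,⟨42,70,-15⟩⟩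 (1,[(3,126),(5,75),(0,2)]) (5,[(3,112),(5,620),(0,11)]) (3,[(3,633),(5,1106),(0,14)]))) (.leaf false ⟨⟨-47,18,-66⟩,⟨18,-74,-33⟩,⟨66,33,-38⟩⟩ (5,[(4,128),(3,860),(0,11)]) (10,[(4,543),(3,30),(0,11)]) (15,[(4,1617),(3,1825),(0,19)]))) (.node ⟨30,-42,-65⟩ (.leaf false ⟨⟨30,-42,-65⟩,⟨33,70,-30⟩,⟨70,-15,42⟩⟩ (1,[(0,1)]) (14,[(2,1135),(1,11),(3,1310)]) (3,[(2,199),(1,5),(3,105)])) (.leaf false ⟨⟨-33,70,30⟩,⟨30,42,-65⟩,⟨70,15,42⟩⟩ (144,[(2,24540),(1,119),(0,325)]) (12,[(2,5460),(1,35),(0,37)]) (144,[(2,60252),(1,565),(0,455)]))))) (.node ⟨0,0,1⟩ (.node ⟨-42,-65,30⟩ (.node ⟨33,30,70⟩ (.node ⟨70,-42,-15⟩ (.leaf false ⟨⟨-30,-65,42⟩,⟨33,30,70⟩,⟨70,-42,-15⟩⟩ (1,[(3,12),(5,12),(2,1)]) (1,[(1,1)]) (1,[(0,1)]))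 (.leaf false ⟨⟨-65,-42,30⟩,⟨-30,70,33⟩,⟨42,-15,70⟩⟩ (1,[(5,75),(4,126),(0,2)]) (5,[(5,620),(4,112),(0,11)]) (3,[(5,1106),(4,633),(0,14)]))) (.leaf false ⟨⟨-47,-66,18⟩,⟨18,-33,-74⟩,⟨66,-38,33⟩⟩ (5,[(2,860),(4,128),(0,11)]) (10,[(2,30),(4,543),(0,11)]) (15,[(2,1825),(4,1617),(0,19)]))) (.node ⟨30,-65,-42⟩ (.leaf false ⟨⟨30,-65,-42⟩,⟨33,-30,70⟩,⟨70,42,-15⟩⟩ (1,[(0,1)]) (14,[(2,1310),(1,11),(3,1135)]) (3,[(2,105),(1,5),(3,199)])) (.leaf false ⟨⟨-33,30,70⟩,⟨30,-65,42⟩,⟨70,42,15⟩⟩ (144,[(1,119),(3,24540),(0,325)]) (12,[(1,35),(3,5460),(0,37)]) (144,[(1,565),(3,60252),(0,455)])))) (.node ⟨-18,-81,-2⟩ (.node ⟨34,42,-63⟩ (.node ⟨-42,-47,-54⟩ (.leaf false ⟨⟨-42,-47,-54⟩,⟨34,42,-63⟩,⟨63,-54,-2⟩⟩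 (1,[(0,1)]) (1,[(1,1)]) (27,[(5,1743),(4,1411),(0,1)])) (.leaf false ⟨⟨-18,-81,-2⟩,⟨18,-2,-81⟩,⟨79,-18,18⟩⟩ (1,[(2,1)]) (999,[(3,33034),(1,747),(2,412)]) (3244,[(1,3712),(0,5631),(2,5913)]))) (.leaf false ⟨⟨-47,-66,18⟩,⟨18,-33,-74⟩,⟨66,-38,33⟩⟩ (7,[(2,567),(4,45),(0,11)]) (14,[(2,1729),(4,626),(0,11)]) (21,[(2,504),(4,2032),(0,19)]))) (.node ⟨70,-15,42⟩ (.leaf false ⟨⟨30,-42,-65⟩,⟨33,70,-30⟩,⟨70,-15,42⟩⟩ (3,[(2,205),(1,5),(3,531)]) (6,[(2,202),(1,11),(3,471)]) (1,[(0,1)])) (.leaf false ⟨⟨-63,-2,-54⟩,⟨34,63,-42⟩,⟨42,-54,-47⟩⟩ (308,[(1,567),(3,52888),(0,423)]) (77,[(1,546),(3,40920),(0,103)]) (308,[(1,2527),(3,228294),(0,465)])))))) (.node ⟨0,1,0⟩ (.node ⟨0,0,1⟩ (.node ⟨-65,-42,30⟩ (.node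 ⟨30,33,70⟩ (.node ⟨-42,70,-15⟩ (.leaf false ⟨⟨-65,-30,42⟩,⟨-42,70,-15⟩,⟨30,33,70⟩⟩ (1,[(3,12),(2,1),(4,12)]) (1,[(0,1)]) (1,[(1,1)])) (.leaf false ⟨⟨-65,-42,30⟩,⟨-30,70,33⟩,⟨42,-15,70⟩⟩ (1,[(5,149),(4,98),(0,2)]) (5,[(5,612),(4,1120),(0,11)]) (3,[(5,462),(4,935),(0,14)]))) (.leaf false ⟨⟨-66,-47,18⟩,⟨-38,66,33⟩,⟨-33,18,-74⟩⟩ (5,[(2,860),(0,11),(3,128)]) (15,[(2,1825),(0,19),(3,1617)]) (10,[(2,30),(0,11),(3,543)]))) (.node ⟨-65,30,-42⟩ (.leaf false ⟨⟨-65,30,-42⟩,⟨-30,33,70⟩,⟨42,70,-15⟩⟩ (1,[(0,1)]) (14,[(2,1310),(4,1135),(1,11)]) (3,[(2,105),(4,199),(1,5)])) (.leaf false ⟨⟨-65,-30,42⟩,⟨-42,70,-15⟩,⟨30,33,70⟩⟩ (1,[(4,130),(0,1)]) (144,[(4,48948),(1,415),(0,245)]) (144,[(4,76020),(1,581),(0,655)]))))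 (.node ⟨-81,-18,-2⟩ (.node ⟨42,34,-63⟩ (.node ⟨-47,-42,-54⟩ (.leaf false ⟨⟨-54,63,-2⟩,⟨-47,-42,-54⟩,⟨42,34,-63⟩⟩ (27,[(5,1411),(4,1743),(0,1)]) (1,[(0,1)]) (1,[(1,1)])) (.leaf false ⟨⟨-81,-18,-2⟩,⟨-18,79,18⟩,⟨-2,18,-81⟩⟩ (1,[(2,1)]) (3244,[(2,5913),(0,5631),(1,3712)]) (999,[(3,33034),(2,412),(1,747)]))) (.leaf false ⟨⟨-81,-18,-2⟩,⟨-18,79,18⟩,⟨-2,18,-81⟩⟩ (14,[(2,1729),(0,27),(3,666)]) (7,[(2,63),(0,3),(3,655)]) (21,[(2,1764),(0,1),(3,412)]))) (.node ⟨-15,70,42⟩ (.leaf false ⟨⟨-42,30,-65⟩,⟨-15,70,42⟩,⟨70,33,-30⟩⟩ (3,[(2,205),(4,531),(1,5)]) (1,[(0,1)]) (6,[(2,202),(4,471),(1,11)])) (.leaf false ⟨⟨-81,18,-2⟩,⟨-2,-18,-81⟩,⟨18,79,-18⟩⟩ (77,[(4,15444),(1,112),(0,9)]) (308,[(4,210298),(1,2457),(0,711)])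 (308,[(4,183480),(1,2289),(0,241)]))))) (.node ⟨0,0,1⟩ (.node ⟨-81,-2,-18⟩ (.node ⟨42,-63,34⟩ (.node ⟨-47,-54,-42⟩ (.leaf false ⟨⟨-54,-2,63⟩,⟨-47,-54,-42⟩,⟨42,-63,34⟩⟩ (27,[(3,1743),(5,1411),(0,1)]) (1,[(0,1)]) (1,[(1,1)])) (.leaf false ⟨⟨-81,-2,-18⟩,⟨-18,18,79⟩,⟨-2,-81,18⟩⟩ (1,[(2,1)]) (3244,[(2,5913),(1,3712),(0,5631)]) (999,[(2,412),(4,33034),(1,747)]))) (.leaf false ⟨⟨-81,-2,-18⟩,⟨-18,18,79⟩,⟨-2,-81,18⟩⟩ (14,[(2,666),(0,27),(3,1729)]) (7,[(2,655),(0,3),(3,63)]) (21,[(2,412),(0,1),(3,1764)]))) (.node ⟨-15,42,70⟩ (.leaf false ⟨⟨-42,-65,30⟩,⟨-15,42,70⟩,⟨70,-30,33⟩⟩ (3,[(4,531),(3,205),(1,5)]) (1,[(0,1)]) (6,[(4,471),(3,202),(1,11)])) (.leaf false ⟨⟨-81,-2,18⟩,⟨-2,-81,-18⟩,⟨18,-18,79⟩⟩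 (77,[(4,15444),(0,9),(1,112)]) (308,[(4,210298),(0,711),(1,2457)]) (308,[(4,183480),(0,241),(1,2289)])))) (.leaf false ⟨⟨-83,0,0⟩,⟨0,-83,0⟩,⟨0,0,-83⟩⟩ (1,[(2,83)]) (1,[(1,83)]) (1,[(0,83)]))))
theorem pf83_ok : pf83.check (ok 83 6 ⟨5, 5, 5⟩) (fun _ r => r) [] = true := by decide +kernel

def pf85 : T := .node ⟨1,0,0⟩ (.node ⟨0,1,0⟩ (.node ⟨0,0,1⟩ (.leaf false ⟨⟨0,0,85⟩,⟨0,85,0⟩,⟨85,0,0⟩⟩ (1,[(0,85)]) (1,[(1,85)]) (1,[(2,85)])) (.node ⟨0,84,13⟩ (.leaf false ⟨⟨0,13,-84⟩,⟨0,84,13⟩,⟨85,0,0⟩⟩ (84,[(1,7225),(0,13)]) (1,[(0,1)]) (1,[(3,85)])) (.leaf false ⟨⟨0,-77,-36⟩,⟨0,36,-77⟩,⟨85,0,0⟩⟩ (13,[(0,36),(2,2023)]) (13,[(0,77),(2,6936)]) (1,[(3,85)])))) (.node ⟨0,0,1⟩ (.node ⟨0,13,84⟩ (.leaf false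 ⟨⟨0,-84,13⟩,⟨0,13,84⟩,⟨85,0,0⟩⟩ (84,[(0,13),(2,7225)]) (1,[(0,1)]) (1,[(3,85)])) (.leaf false ⟨⟨0,-77,36⟩,⟨0,-36,-77⟩,⟨85,0,0⟩⟩ (13,[(1,6936),(0,77)]) (13,[(1,2023),(0,36)]) (1,[(3,85)]))) (.node ⟨0,36,-77⟩ (.leaf false ⟨⟨0,-77,-36⟩,⟨0,36,-77⟩,⟨85,0,0⟩⟩ (77,[(0,36),(2,7225)]) (1,[(0,1)]) (1,[(3,85)])) (.leaf false ⟨⟨0,-77,36⟩,⟨0,-36,-77⟩,⟨85,0,0⟩⟩ (36,[(1,4633),(0,77)]) (1,[(1,154),(0,1)]) (1,[(3,85)]))))) (.node ⟨0,1,0⟩ (.node ⟨0,0,1⟩ (.node ⟨13,0,84⟩ (.leaf false ⟨⟨-84,0,13⟩,⟨0,85,0⟩,⟨13,0,84⟩⟩ (84,[(3,7225),(0,13)]) (1,[(2,85)]) (1,[(0,1)])) (.leaf false ⟨⟨-77,0,36⟩,⟨-36,0,-77⟩,⟨0,85,0⟩⟩ (13,[(1,6936),(0,77)]) (13,[(1,2023),(0,36)]) (1,[(2,85)]))) (.node ⟨36,0,-77⟩ (.leaf false ⟨⟨-77,0,-36⟩,⟨0,85,0⟩,⟨36,0,-77⟩⟩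 (77,[(3,7225),(0,36)]) (1,[(2,85)]) (1,[(0,1)])) (.leaf false ⟨⟨-77,0,36⟩,⟨-36,0,-77⟩,⟨0,85,0⟩⟩ (36,[(1,4633),(0,77)]) (1,[(1,154),(0,1)]) (1,[(2,85)])))) (.node ⟨0,0,1⟩ (.node ⟨36,-77,0⟩ (.leaf false ⟨⟨-77,-36,0⟩,⟨0,0,85⟩,⟨36,-77,0⟩⟩ (77,[(3,7225),(0,36)]) (1,[(1,85)]) (1,[(0,1)])) (.leaf false ⟨⟨-77,36,0⟩,⟨-36,-77,0⟩,⟨0,0,85⟩⟩ (36,[(0,77),(2,4633)]) (1,[(0,1),(2,154)]) (1,[(1,85)]))) (.node ⟨-32,51,-60⟩ (.node ⟨-75,0,40⟩ (.leaf false ⟨⟨-75,0,40⟩,⟨-32,51,-60⟩,⟨-24,-68,-45⟩⟩ (1,[(0,1)]) (1,[(1,1)]) (4,[(1,3),(3,425)])) (.leaf false ⟨⟨-68,-45,-24⟩,⟨0,40,-75⟩,⟨51,-60,-32⟩⟩ (5,[(1,2),(4,276),(3,327)]) (408,[(1,320),(4,11135),(0,285)]) (5,[(4,45),(3,300),(0,4)]))) (.leaf false ⟨⟨-84,-5,-12⟩,⟨-5,-60,60⟩,⟨12,-60,-59⟩⟩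 (51,[(1,912),(3,4444),(0,5)]) (17,[(1,180),(3,725),(0,20)]) (17,[(1,2203),(3,436),(0,20)])))))
theorem pf85_ok : pf85.check (ok 85 6 ⟨5, 5, 5⟩) (fun _ r => r) [] = true := by decide +kernel

def pf89 : T := .node ⟨1,0,0⟩ (.node ⟨0,1,0⟩ (.node ⟨0,0,1⟩ (.node ⟨-71,24,48⟩ (.node ⟨-36,73,-36⟩ (.leaf false ⟨⟨-36,73,-36⟩,⟨-8,36,81⟩,⟨81,36,-8⟩⟩ (1,[(0,1)]) (2,[(2,18),(4,197),(1,3)]) (73,[(2,712),(4,7209),(0,36)])) (.leaf false ⟨⟨-71,24,48⟩,⟨24,-57,64⟩,⟨48,64,39⟩⟩ (1,[(1,1)]) (1092,[(4,34265),(1,655),(0,1068)]) (16,[(4,1691),(3,712),(1,13)]))) (.node ⟨73,-36,-36⟩ (.leaf false ⟨⟨36,-8,81⟩,⟨36,81,-8⟩,⟨73,-36,-36⟩⟩ (73,[(2,7209),(0,36),(3,712)]) (71,[(2,1160),(1,36),(3,6615)]) (1,[(0,1)])) (.leaf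 false ⟨⟨-71,48,24⟩,⟨24,64,-57⟩,⟨48,39,64⟩⟩ (67,[(2,288),(1,79),(0,142)]) (201,[(2,8895),(1,1384),(0,1280)]) (268,[(2,43300),(1,1525),(0,1307)])))) (.node ⟨84,9,28⟩ (.node ⟨-24,84,-17⟩ (.node ⟨28,-9,-84⟩ (.leaf false ⟨⟨-24,84,-17⟩,⟨28,-9,-84⟩,⟨81,28,24⟩⟩ (1,[(1,1)]) (1,[(0,1)]) (7,[(5,63),(2,6),(4,142)])) (.leaf false ⟨⟨-81,28,24⟩,⟨24,84,-17⟩,⟨28,9,84⟩⟩ (9,[(3,2136),(5,55),(0,28)]) (3,[(3,2403),(5,856),(0,28)]) (1,[(5,56),(0,1)]))) (.leaf false ⟨⟨15,36,-80⟩,⟨60,55,36⟩,⟨64,-60,-15⟩⟩ (8,[(2,725),(0,5),(3,708)]) (2,[(2,13),(0,5),(3,530)]) (3,[(2,181),(0,8),(3,492)]))) (.node ⟨15,-36,-80⟩ (.leaf false ⟨⟨-60,55,-36⟩,⟨15,-36,-80⟩,⟨64,60,-15⟩⟩ (7,[(4,336),(3,466),(1,9)]) (1,[(0,1)]) (16,[(4,979),(3,1068),(0,3)]))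 (.leaf false ⟨⟨-80,36,-15⟩,⟨15,60,64⟩,⟨36,55,-60⟩⟩ (32,[(4,31265),(0,127),(1,380)]) (6,[(4,4803),(0,23),(1,52)]) (9,[(4,18519),(0,65),(1,205)]))))) (.node ⟨0,0,1⟩ (.node ⟨84,28,9⟩ (.node ⟨-24,-17,84⟩ (.node ⟨28,-84,-9⟩ (.leaf false ⟨⟨-24,-17,84⟩,⟨28,-84,-9⟩,⟨81,24,28⟩⟩ (1,[(1,1)]) (1,[(0,1)]) (7,[(3,142),(2,6),(5,63)])) (.leaf false ⟨⟨-81,24,28⟩,⟨24,-17,84⟩,⟨28,84,9⟩⟩ (9,[(5,55),(4,2136),(0,28)]) (3,[(5,856),(4,2403),(0,28)]) (1,[(5,56),(0,1)]))) (.leaf false ⟨⟨15,-80,36⟩,⟨60,36,55⟩,⟨64,-15,-60⟩⟩ (8,[(2,708),(0,5),(3,725)]) (2,[(2,530),(0,5),(3,13)]) (3,[(2,492),(0,8),(3,181)]))) (.node ⟨15,-80,-36⟩ (.leaf false ⟨⟨-60,-36,55⟩,⟨15,-80,-36⟩,⟨64,-15,60⟩⟩ (7,[(2,466),(4,336),(1,9)]) (1,[(0,1)])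 (16,[(2,1068),(4,979),(0,3)])) (.leaf false ⟨⟨-80,-15,36⟩,⟨15,64,60⟩,⟨36,-60,55⟩⟩ (32,[(4,31265),(1,380),(0,127)]) (6,[(4,4803),(1,52),(0,23)]) (9,[(4,18519),(1,205),(0,65)])))) (.node ⟨-36,-81,-8⟩ (.node ⟨73,36,-36⟩ (.node ⟨-36,-8,-81⟩ (.leaf false ⟨⟨-36,-8,-81⟩,⟨36,-81,-8⟩,⟨73,36,-36⟩⟩ (1,[(0,1)]) (1,[(5,72),(2,1)]) (1,[(1,1)])) (.leaf false ⟨⟨-36,-81,-8⟩,⟨36,-8,-81⟩,⟨73,-36,36⟩⟩ (1,[(2,1)]) (73,[(3,12994),(0,89),(2,16)]) (73,[(1,73),(0,72),(2,72)]))) (.leaf false ⟨⟨-36,-81,-8⟩,⟨36,-8,-81⟩,⟨73,-36,36⟩⟩ (4,[(2,356),(4,513),(0,9)]) (9,[(2,801),(4,470),(0,2)]) (1,[(4,146),(0,1)]))) (.node ⟨64,-39,48⟩ (.leaf false ⟨⟨24,-48,-71⟩,⟨57,64,-24⟩,⟨64,-39,48⟩⟩ (3,[(2,229),(1,2),(3,306)]) (12,[(2,440),(1,19),(3,771)])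 (1,[(0,1)])) (.leaf false ⟨⟨-48,-24,-71⟩,⟨39,64,-48⟩,⟨64,-57,-24⟩⟩ (304,[(1,560),(3,73833),(0,543)]) (152,[(1,618),(3,50275),(0,255)]) (38,[(1,144),(3,15507),(0,43)])))))) (.node ⟨0,1,0⟩ (.node ⟨0,0,1⟩ (.node ⟨28,84,9⟩ (.node ⟨-17,-24,84⟩ (.node ⟨-84,28,-9⟩ (.leaf false ⟨⟨-84,28,-9⟩,⟨-17,-24,84⟩,⟨24,81,28⟩⟩ (1,[(0,1)]) (1,[(1,1)]) (7,[(3,142),(4,63),(2,6)])) (.leaf false ⟨⟨-84,-17,24⟩,⟨-9,84,28⟩,⟨28,-24,81⟩⟩ (3,[(5,924),(4,173),(0,8)]) (9,[(5,2433),(4,1540),(0,28)]) (1,[(5,728),(4,228),(0,9)]))) (.leaf false ⟨⟨-84,24,-17⟩,⟨-9,28,84⟩,⟨28,81,-24⟩⟩ (1,[(2,67),(4,101),(0,1)]) (6,[(2,1092),(4,173),(0,7)]) (8,[(2,2076),(4,235),(0,27)]))) (.node ⟨-80,15,-36⟩ (.leaf false ⟨⟨-80,15,-36⟩,⟨-36,-60,55⟩,⟨-15,64,60⟩⟩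 (1,[(0,1)]) (7,[(2,466),(1,9),(3,336)]) (16,[(2,1068),(0,3),(3,979)])) (.leaf false ⟨⟨-84,-17,24⟩,⟨-9,84,28⟩,⟨28,-24,81⟩⟩ (24,[(1,412),(3,35985),(0,119)]) (288,[(1,2564),(3,252543),(0,865)]) (1,[(1,19),(3,1677),(0,7)])))) (.node ⟨-81,-36,-8⟩ (.node ⟨36,73,-36⟩ (.node ⟨-8,-36,-81⟩ (.leaf false ⟨⟨-81,36,-8⟩,⟨-8,-36,-81⟩,⟨36,73,-36⟩⟩ (1,[(2,1),(4,72)]) (1,[(0,1)]) (1,[(1,1)])) (.leaf false ⟨⟨-81,-36,-8⟩,⟨-36,73,36⟩,⟨-8,36,-81⟩⟩ (1,[(2,1)]) (73,[(2,72),(0,72),(1,73)]) (73,[(3,12994),(2,16),(0,89)]))) (.leaf false ⟨⟨-81,-36,-8⟩,⟨-36,73,36⟩,⟨-8,36,-81⟩⟩ (4,[(2,356),(0,9),(3,513)]) (1,[(0,1),(3,146)]) (9,[(2,801),(0,2),(3,470)]))) (.node ⟨-39,64,48⟩ (.leaf false ⟨⟨-60,55,36⟩,⟨-15,36,-80⟩,⟨64,60,15⟩⟩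 (64,[(2,336),(4,1695),(0,55)]) (1,[(2,88),(4,96),(1,1)]) (1647,[(2,18839),(0,639),(1,1609)])) (.leaf false ⟨⟨-81,36,-8⟩,⟨-8,-36,-81⟩,⟨36,73,-36⟩⟩ (19,[(4,4725),(1,35),(0,9)]) (304,[(4,98039),(1,864),(0,657)]) (152,[(4,62499),(1,726),(0,235)]))))) (.node ⟨0,0,1⟩ (.node ⟨-81,-8,-36⟩ (.node ⟨36,-36,73⟩ (.node ⟨-8,-81,-36⟩ (.leaf false ⟨⟨-81,-8,36⟩,⟨-8,-81,-36⟩,⟨36,-36,73⟩⟩ (1,[(3,72),(2,1)]) (1,[(0,1)]) (1,[(1,1)])) (.leaf false ⟨⟨-81,-8,-36⟩,⟨-36,36,73⟩,⟨-8,-81,36⟩⟩ (1,[(2,1)]) (73,[(2,72),(1,73),(0,72)]) (73,[(2,16),(4,12994),(0,89)]))) (.leaf false ⟨⟨-81,-8,-36⟩,⟨-36,36,73⟩,⟨-8,-81,36⟩⟩ (4,[(2,513),(0,9),(3,356)]) (1,[(2,146),(0,1)]) (9,[(2,470),(0,2),(3,801)]))) (.node ⟨-39,48,64⟩ (.leaf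 false ⟨⟨-60,36,55⟩,⟨-15,-80,36⟩,⟨64,15,60⟩⟩ (64,[(4,1695),(3,336),(0,55)]) (1,[(4,96),(3,88),(1,1)]) (304,[(4,18839),(1,480),(0,15)])) (.leaf false ⟨⟨-81,-8,36⟩,⟨-8,-81,-36⟩,⟨36,-36,73⟩⟩ (19,[(4,4725),(0,9),(1,35)]) (304,[(4,98039),(0,657),(1,864)]) (152,[(4,62499),(0,235),(1,726)])))) (.leaf false ⟨⟨-89,0,0⟩,⟨0,-89,0⟩,⟨0,0,-89⟩⟩ (1,[(2,89)]) (1,[(1,89)]) (1,[(0,89)]))))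
theorem pf89_ok : pf89.check (ok 89 6 ⟨5, 5, 5⟩) (fun _ r => r) [] = true := by decide +kernel

def pf91 : T := .node ⟨1,0,0⟩ (.node ⟨0,1,0⟩ (.node ⟨0,0,1⟩ (.leaf false ⟨⟨0,0,91⟩,⟨0,91,0⟩,⟨91,0,0⟩⟩ (1,[(0,91)]) (1,[(1,91)]) (1,[(2,91)])) (.node ⟨-35,0,-84⟩ (.leaf false ⟨⟨-35,0,-84⟩,⟨0,91,0⟩,⟨84,0,-35⟩⟩ (1,[(0,1)]) (1,[(2,91)]) (12,[(3,1183),(0,5)])) (.node ⟨39,-26,-78⟩ (.leaf false ⟨⟨6,87,-26⟩,⟨39,-26,-78⟩,⟨82,6,39⟩⟩ (13,[(2,182),(0,2),(3,1183)]) (1,[(0,1)]) (35,[(2,5523),(1,82),(3,210)])) (.leaf false ⟨⟨-66,55,-30⟩,⟨30,66,55⟩,⟨55,30,-66⟩⟩ (910,[(2,213486),(1,429),(0,1925)]) (455,[(2,205933),(1,1677),(0,1155)]) (91,[(2,36036),(1,260),(0,105)]))))) (.node ⟨0,0,1⟩ (.node ⟨-35,-84,0⟩ (.leaf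 false ⟨⟨-35,-84,0⟩,⟨0,0,91⟩,⟨84,-35,0⟩⟩ (1,[(0,1)]) (1,[(1,91)]) (12,[(3,1183),(0,5)])) (.node ⟨39,-78,-26⟩ (.leaf false ⟨⟨6,-26,87⟩,⟨39,-78,-26⟩,⟨82,39,6⟩⟩ (13,[(2,1183),(0,2),(3,182)]) (1,[(0,1)]) (35,[(2,210),(1,82),(3,5523)])) (.leaf false ⟨⟨-66,-30,55⟩,⟨30,55,66⟩,⟨55,-66,30⟩⟩ (910,[(1,429),(3,213486),(0,1925)]) (455,[(1,1677),(3,205933),(0,1155)]) (91,[(1,260),(3,36036),(0,105)])))) (.node ⟨9,-90,10⟩ (.node ⟨90,9,10⟩ (.node ⟨9,10,-90⟩ (.leaf false ⟨⟨9,10,-90⟩,⟨10,-90,-9⟩,⟨90,9,10⟩⟩ (1,[(0,1)]) (9,[(3,91),(1,1),(4,819)]) (1,[(1,1)])) (.leaf false ⟨⟨-57,-66,-26⟩,⟨46,-9,-78⟩,⟨54,-62,39⟩⟩ (273,[(3,169988),(1,8),(0,1809)]) (819,[(3,179452),(1,541),(0,1224)]) (91,[(3,58331),(1,122),(0,674)])))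 (.node ⟨6,18,-89⟩ (.leaf false ⟨⟨-54,-71,-18⟩,⟨6,18,-89⟩,⟨73,-54,-6⟩⟩ (495,[(5,75654),(2,274),(1,1165)]) (1,[(0,1)]) (55,[(5,9172),(2,27),(1,60)])) (.leaf false ⟨⟨-89,-18,-6⟩,⟨6,-54,73⟩,⟨18,-71,-54⟩⟩ (174,[(3,7483),(0,91),(1,166)]) (1,[(3,194),(5,24),(0,3)]) (18,[(3,7291),(5,750),(0,71)])))) (.leaf false ⟨⟨-57,-26,-66⟩,⟨46,-78,-9⟩,⟨54,39,-62⟩⟩ (5,[(3,12),(2,3100),(0,33)]) (10,[(3,541),(2,1590),(0,9)]) (5,[(3,549),(2,2595),(0,31)]))))) (.node ⟨0,1,0⟩ (.node ⟨0,0,1⟩ (.node ⟨-84,-35,0⟩ (.leaf false ⟨⟨-84,-35,0⟩,⟨-35,84,0⟩,⟨0,0,91⟩⟩ (1,[(0,1)]) (12,[(0,5),(2,1183)]) (1,[(1,91)])) (.node ⟨-78,39,-26⟩ (.leaf false ⟨⟨-78,39,-26⟩,⟨-26,6,87⟩,⟨39,82,6⟩⟩ (1,[(0,1)]) (13,[(2,1183),(4,182),(0,2)])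 (35,[(2,210),(4,5523),(1,82)])) (.leaf false ⟨⟨-78,-26,39⟩,⟨-26,87,6⟩,⟨39,6,82⟩⟩ (14,[(4,3822),(1,13),(0,21)]) (455,[(4,124852),(1,1248),(0,105)]) (455,[(4,235053),(1,1677),(0,1435)])))) (.node ⟨-90,9,10⟩ (.node ⟨9,90,10⟩ (.node ⟨10,9,-90⟩ (.leaf false ⟨⟨-90,10,-9⟩,⟨9,90,10⟩,⟨10,9,-90⟩⟩ (9,[(3,91),(5,819),(1,1)]) (1,[(1,1)]) (1,[(0,1)])) (.leaf false ⟨⟨-87,-26,6⟩,⟨-26,78,-39⟩,⟨-6,39,82⟩⟩ (819,[(3,683956),(0,7596),(1,523)]) (21,[(3,8099),(0,78),(1,26)]) (273,[(3,5824),(0,297),(1,148)]))) (.node ⟨18,6,-89⟩ (.leaf false ⟨⟨-71,-54,-18⟩,⟨-54,73,-6⟩,⟨18,6,-89⟩⟩ (495,[(1,1165),(2,274),(4,75654)]) (55,[(1,60),(2,27),(4,9172)]) (1,[(0,1)])) (.leaf false ⟨⟨-89,6,18⟩,⟨-18,-54,-71⟩,⟨-6,73,-54⟩⟩ (18,[(3,7597),(0,89),(4,642)])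 (1,[(3,51),(1,2),(4,126)]) (3,[(3,251),(0,1),(4,225)])))) (.leaf false ⟨⟨-89,-6,-18⟩,⟨6,73,-54⟩,⟨18,-54,-71⟩⟩ (5,[(3,1255),(2,51),(0,9)]) (5,[(3,2400),(2,608),(0,27)]) (10,[(3,6210),(2,99),(0,71)])))) (.node ⟨0,0,1⟩ (.node ⟨9,10,90⟩ (.node ⟨10,-90,9⟩ (.leaf false ⟨⟨-90,-9,10⟩,⟨9,10,90⟩,⟨10,-90,9⟩⟩ (9,[(4,819),(3,91),(1,1)]) (1,[(1,1)]) (1,[(0,1)])) (.leaf false ⟨⟨-87,-26,-6⟩,⟨-26,78,39⟩,⟨6,-39,82⟩⟩ (273,[(3,242788),(1,241),(0,2592)]) (21,[(3,4732),(1,16),(0,69)]) (819,[(3,57421),(1,766),(0,198)]))) (.node ⟨18,-89,6⟩ (.leaf false ⟨⟨-71,-18,-54⟩,⟨-54,-6,73⟩,⟨18,-89,6⟩⟩ (5,[(2,540),(4,274),(1,9)]) (5,[(2,635),(4,243),(1,3)]) (1,[(0,1)])) (.leaf false ⟨⟨-89,18,6⟩,⟨-18,-71,-54⟩,⟨-6,-54,73⟩⟩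 (18,[(2,642),(0,89),(3,7597)]) (1,[(2,126),(1,2),(3,51)]) (3,[(2,225),(0,1),(3,251)])))) (.node ⟨-26,66,-57⟩ (.node ⟨-78,9,46⟩ (.leaf false ⟨⟨-78,9,46⟩,⟨-39,-62,-54⟩,⟨-26,66,-57⟩⟩ (1,[(0,1)]) (2,[(2,154),(0,1),(3,133)]) (1,[(1,1)])) (.leaf false ⟨⟨-57,46,-54⟩,⟨-26,-78,-39⟩,⟨66,9,-62⟩⟩ (19,[(1,18),(4,615),(3,314)]) (19,[(1,13),(4,156),(3,2340)]) (1183,[(1,324),(4,6552),(0,1193)]))) (.node ⟨66,-62,9⟩ (.leaf false ⟨⟨-57,-54,46⟩,⟨-26,-39,-78⟩,⟨66,-62,9⟩⟩ (11,[(2,7),(4,861),(1,9)]) (22,[(2,2457),(4,910),(1,13)]) (1,[(0,1)])) (.leaf false ⟨⟨-89,18,6⟩,⟨-18,-71,-54⟩,⟨-6,-54,73⟩⟩ (1372,[(2,90846),(0,2703),(1,2165)]) (1372,[(2,225792),(0,1517),(1,2901)]) (343,[(2,980),(0,225),(1,492)]))))))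
theorem pf91_ok : pf91.check (ok 91 6 ⟨5, 5, 5⟩) (fun _ r => r) [] = true := by decide +kernel

def pf95 : T := .node ⟨1,0,0⟩ (.node ⟨0,1,0⟩ (.node ⟨0,0,1⟩ (.node ⟨-30,-30,85⟩ (.leaf false ⟨⟨-30,-30,85⟩,⟨-5,90,30⟩,⟨90,-5,30⟩⟩ (1,[(0,1)]) (17,[(3,95),(2,1710),(0,6)]) (17,[(3,1710),(2,95),(0,6)])) (.node ⟨-30,85,-30⟩ (.leaf false ⟨⟨-30,85,-30⟩,⟨-5,30,90⟩,⟨90,30,-5⟩⟩ (1,[(0,1)]) (17,[(2,1710),(4,95),(0,6)]) (1,[(2,80),(4,60),(1,1)])) (.leaf false ⟨⟨30,-30,85⟩,⟨58,75,6⟩,⟨69,-50,-42⟩⟩ (1,[(2,55),(0,1),(3,55)]) (15,[(2,2555),(1,29),(3,255)]) (230,[(2,7935),(0,238),(1,291)])))) (.node ⟨-57,76,0⟩ (.leaf false ⟨⟨-57,76,0⟩,⟨0,0,-95⟩,⟨76,57,0⟩⟩ (1,[(0,1)]) (1,[(1,95)]) (4,[(3,475),(0,3)])) (.leaf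 false ⟨⟨0,0,-95⟩,⟨57,76,0⟩,⟨76,-57,0⟩⟩ (1,[(1,95)]) (1,[(0,1),(2,152)]) (3,[(0,4),(2,133)])))) (.node ⟨0,0,1⟩ (.node ⟨-57,0,76⟩ (.leaf false ⟨⟨-57,0,76⟩,⟨0,-95,0⟩,⟨76,0,57⟩⟩ (1,[(0,1)]) (1,[(2,95)]) (4,[(3,475),(0,3)])) (.leaf false ⟨⟨0,-95,0⟩,⟨57,0,76⟩,⟨76,0,-57⟩⟩ (1,[(2,95)]) (1,[(1,152),(0,1)]) (3,[(1,133),(0,4)]))) (.node ⟨-30,-90,-5⟩ (.node ⟨-5,30,-90⟩ (.leaf false ⟨⟨-30,-86,-27⟩,⟨-5,30,-90⟩,⟨90,-27,-14⟩⟩ (165,[(4,380),(1,171),(0,40)]) (1,[(0,1)]) (45,[(4,4085),(3,1425),(0,7)])) (.leaf false ⟨⟨-30,-90,-5⟩,⟨30,-5,-90⟩,⟨85,-30,30⟩⟩ (1,[(1,1)]) (6,[(2,630),(4,175),(0,1)]) (1,[(2,60),(4,80),(0,1)]))) (.leaf false ⟨⟨0,0,-95⟩,⟨57,76,0⟩,⟨76,-57,0⟩⟩ (1,[(1,95)]) (10,[(1,95),(0,19),(2,950)])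 (15,[(1,190),(0,38),(2,4275)]))))) (.node ⟨0,1,0⟩ (.node ⟨0,0,1⟩ (.node ⟨0,-57,76⟩ (.leaf false ⟨⟨-95,0,0⟩,⟨0,-57,76⟩,⟨0,76,57⟩⟩ (1,[(3,95)]) (1,[(0,1)]) (4,[(0,3),(2,475)])) (.leaf false ⟨⟨-95,0,0⟩,⟨0,57,76⟩,⟨0,76,-57⟩⟩ (1,[(3,95)]) (1,[(1,152),(0,1)]) (3,[(1,133),(0,4)]))) (.node ⟨-90,-30,-5⟩ (.node ⟨30,-5,-90⟩ (.leaf false ⟨⟨-86,-30,-27⟩,⟨-27,90,-14⟩,⟨30,-5,-90⟩⟩ (165,[(1,171),(3,380),(0,40)]) (45,[(4,1425),(3,4085),(0,7)]) (1,[(0,1)])) (.leaf false ⟨⟨-90,-30,-5⟩,⟨-30,85,30⟩,⟨-5,30,-90⟩⟩ (1,[(1,1)]) (1,[(2,60),(0,1),(3,80)]) (6,[(2,630),(0,1),(3,175)]))) (.leaf false ⟨⟨-57,76,0⟩,⟨0,0,-95⟩,⟨76,57,0⟩⟩ (15,[(1,190),(3,4275),(0,38)]) (1,[(1,95)]) (10,[(1,95),(3,950),(0,19)])))) (.node ⟨0,0,1⟩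 (.node ⟨-90,-5,-30⟩ (.node ⟨30,-90,-5⟩ (.leaf false ⟨⟨-86,-27,-30⟩,⟨-27,-14,90⟩,⟨30,-90,-5⟩⟩ (165,[(2,380),(1,171),(0,40)]) (45,[(2,4085),(4,1425),(0,7)]) (1,[(0,1)])) (.leaf false ⟨⟨-90,-5,-30⟩,⟨-30,30,85⟩,⟨-5,-90,30⟩⟩ (1,[(1,1)]) (1,[(2,80),(0,1),(3,60)]) (6,[(2,175),(0,1),(3,630)]))) (.leaf false ⟨⟨-57,0,76⟩,⟨0,-95,0⟩,⟨76,0,57⟩⟩ (15,[(3,4275),(2,190),(0,38)]) (1,[(2,95)]) (10,[(3,950),(2,95),(0,19)]))) (.leaf false ⟨⟨-95,0,0⟩,⟨0,-95,0⟩,⟨0,0,-95⟩⟩ (1,[(2,95)]) (1,[(1,95)]) (1,[(0,95)]))))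
theorem pf95_ok : pf95.check (ok 95 6 ⟨5, 5, 5⟩) (fun _ r => r) [] = true := by decide +kernel

def pf97 : T := .node ⟨1,0,0⟩ (.node ⟨0,1,0⟩ (.node ⟨0,0,1⟩ (.leaf false ⟨⟨0,0,97⟩,⟨0,97,0⟩,⟨97,0,0⟩⟩ (1,[(0,97)]) (1,[(1,97)]) (1,[(2,97)])) (.node ⟨-65,0,-72⟩ (.leaf false ⟨⟨-65,0,-72⟩,⟨0,97,0⟩,⟨72,0,-65⟩⟩ (1,[(0,1)]) (1,[(2,97)]) (72,[(3,9409),(0,65)])) (.node ⟨52,-39,-72⟩ (.leaf false ⟨⟨12,88,-39⟩,⟨52,-39,-72⟩,⟨81,12,52⟩⟩ (13,[(2,291),(0,3),(3,1261)]) (1,[(0,1)]) (65,[(2,2452),(1,81),(3,780)])) (.leaf false ⟨⟨-60,60,-47⟩,⟨25,72,60⟩,⟨72,25,-60⟩⟩ (13,[(2,2339),(1,4),(0,20)]) (65,[(2,13452),(1,121),(0,120)]) (195,[(2,43452),(1,316),(0,125)]))))) (.node ⟨0,0,1⟩ (.node ⟨-65,-72,0⟩ (.leaf false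 ⟨⟨-65,-72,0⟩,⟨0,0,97⟩,⟨72,-65,0⟩⟩ (1,[(0,1)]) (1,[(1,97)]) (72,[(3,9409),(0,65)])) (.node ⟨52,-72,-39⟩ (.leaf false ⟨⟨12,-39,88⟩,⟨52,-72,-39⟩,⟨81,52,12⟩⟩ (13,[(2,1261),(0,3),(3,291)]) (1,[(0,1)]) (65,[(2,780),(1,81),(3,2452)])) (.leaf false ⟨⟨-60,-47,60⟩,⟨25,60,72⟩,⟨72,-60,25⟩⟩ (13,[(1,4),(3,2339),(0,20)]) (65,[(1,121),(3,13452),(0,120)]) (195,[(1,316),(3,43452),(0,125)])))) (.node ⟨7,-84,48⟩ (.node ⟨96,12,7⟩ (.leaf false ⟨⟨7,-84,48⟩,⟨12,-47,-84⟩,⟨96,12,7⟩⟩ (1,[(1,1)]) (8,[(2,679),(0,1),(3,388)]) (1,[(0,1)])) (.leaf false ⟨⟨-48,-84,7⟩,⟨7,-12,-96⟩,⟨84,-47,12⟩⟩ (679,[(2,22504),(1,624),(0,385)]) (1,[(2,89),(4,103),(0,1)]) (84,[(2,1248),(4,6727),(1,47)]))) (.leaf false ⟨⟨0,-65,-72⟩,⟨0,72,-65⟩,⟨97,0,0⟩⟩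 (2,[(3,21),(2,382),(0,3)]) (48,[(3,455),(2,2004),(0,65)]) (1,[(3,97)]))))) (.node ⟨0,1,0⟩ (.node ⟨0,0,1⟩ (.node ⟨-72,-65,0⟩ (.leaf false ⟨⟨-72,-65,0⟩,⟨-65,72,0⟩,⟨0,0,97⟩⟩ (1,[(0,1)]) (72,[(0,65),(2,9409)]) (1,[(1,97)])) (.node ⟨-72,52,-39⟩ (.leaf false ⟨⟨-72,52,-39⟩,⟨-39,12,88⟩,⟨52,81,12⟩⟩ (1,[(0,1)]) (13,[(2,1261),(4,291),(0,3)]) (65,[(2,780),(4,2452),(1,81)])) (.leaf false ⟨⟨-81,-12,52⟩,⟨12,88,39⟩,⟨52,-39,72⟩⟩ (195,[(4,46899),(1,172),(0,260)]) (13,[(4,2796),(1,28),(0,13)]) (65,[(4,9364),(1,57),(0,120)])))) (.node ⟨-84,7,48⟩ (.node ⟨12,96,7⟩ (.leaf false ⟨⟨-84,7,48⟩,⟨-47,12,-84⟩,⟨12,96,7⟩⟩ (1,[(1,1)]) (8,[(2,679),(4,388),(0,1)]) (1,[(0,1)])) (.leaf false ⟨⟨-84,-48,7⟩,⟨-47,84,12⟩,⟨-12,7,-96⟩⟩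 (679,[(2,22504),(0,385),(1,624)]) (84,[(2,1248),(1,47),(3,6727)]) (1,[(2,89),(0,1),(3,103)]))) (.leaf false ⟨⟨-65,0,-72⟩,⟨0,97,0⟩,⟨72,0,-65⟩⟩ (2,[(3,382),(2,21),(0,3)]) (1,[(2,97)]) (48,[(3,2004),(2,455),(0,65)])))) (.node ⟨0,0,1⟩ (.node ⟨48,-84,7⟩ (.node ⟨7,12,96⟩ (.leaf false ⟨⟨-84,-47,12⟩,⟨7,12,96⟩,⟨48,-84,7⟩⟩ (8,[(4,679),(3,388),(0,1)]) (1,[(0,1)]) (1,[(1,1)])) (.leaf false ⟨⟨-96,-12,7⟩,⟨7,-84,-48⟩,⟨12,-47,84⟩⟩ (1,[(2,103),(4,89),(0,1)]) (97,[(2,22504),(0,287),(1,56)]) (84,[(2,6727),(4,1248),(1,47)]))) (.leaf false ⟨⟨-72,-65,0⟩,⟨-65,72,0⟩,⟨0,0,97⟩⟩ (2,[(1,21),(0,3),(2,382)]) (48,[(1,455),(0,65),(2,2004)]) (1,[(1,97)]))) (.node ⟨-56,48,-63⟩ (.node ⟨33,-56,-72⟩ (.node ⟨-63,-56,48⟩ (.leaf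 false ⟨⟨-72,-63,16⟩,⟨-56,48,-63⟩,⟨33,-56,-72⟩⟩ (3,[(5,153),(0,1),(4,133)]) (1,[(2,1)]) (1,[(1,1)])) (.leaf false ⟨⟨-72,-33,-56⟩,⟨16,72,-63⟩,⟨63,-56,-48⟩⟩ (6,[(5,873),(4,590),(0,7)]) (16,[(5,1067),(4,24),(0,21)]) (1,[(4,112),(0,1)]))) (.leaf false ⟨⟨-84,7,-48⟩,⟨-47,12,84⟩,⟨-12,-96,7⟩⟩ (11,[(2,2544),(0,28),(3,1491)]) (33,[(2,612),(0,47),(3,2236)]) (11,[(2,211),(0,4),(3,1280)]))) (.leaf false ⟨⟨-56,-48,63⟩,⟨-33,-56,-72⟩,⟨72,-63,16⟩⟩ (1,[(3,112),(0,1)]) (6,[(1,873),(3,590),(0,7)]) (16,[(1,1067),(3,24),(0,21)])))))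
theorem pf97_ok : pf97.check (ok 97 6 ⟨5, 5, 5⟩) (fun _ r => r) [] = true := by decide +kernel

def pf101 : T := .node ⟨1,0,0⟩ (.node ⟨0,1,0⟩ (.node ⟨0,0,1⟩ (.node ⟨-72,36,61⟩ (.node ⟨16,93,-36⟩ (.leaf false ⟨⟨-72,36,61⟩,⟨16,93,-36⟩,⟨69,16,72⟩⟩ (1,[(1,1)]) (1,[(0,1)]) (9,[(2,404),(4,909),(1,4)])) (.leaf false ⟨⟨-72,16,69⟩,⟨36,93,16⟩,⟨61,-36,72⟩⟩ (101,[(3,1616),(1,93),(0,36)]) (9,[(4,388),(3,1209),(0,4)]) (1,[(4,93),(3,150),(0,2)]))) (.node ⟨69,16,-72⟩ (.leaf false ⟨⟨16,93,36⟩,⟨69,16,-72⟩,⟨72,-36,61⟩⟩ (9,[(2,446),(1,2),(3,909)]) (1,[(0,1)]) (1,[(2,122),(1,1)])) (.leaf false ⟨⟨-69,16,72⟩,⟨16,-93,36⟩,⟨72,36,61⟩⟩ (1,[(3,32),(0,1)]) (975,[(1,3636),(3,97309),(0,3568)]) (325,[(1,3131),(3,171264),(0,2928)]))))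 (.node ⟨-29,12,-96⟩ (.node ⟨-29,96,12⟩ (.node ⟨96,27,16⟩ (.leaf false ⟨⟨-29,96,12⟩,⟨12,16,-99⟩,⟨96,27,16⟩⟩ (1,[(1,1)]) (6,[(3,606),(5,101),(1,1)]) (1,[(0,1)])) (.leaf false ⟨⟨-84,43,-36⟩,⟨21,-36,-92⟩,⟨52,84,-21⟩⟩ (303,[(5,81911),(1,415),(0,993)]) (101,[(5,73932),(1,159),(0,700)]) (404,[(5,136249),(1,637),(0,1008)]))) (.node ⟨16,99,12⟩ (.leaf false ⟨⟨-27,16,-96⟩,⟨16,99,12⟩,⟨96,-12,-29⟩⟩ (1,[(5,2),(4,4),(2,1)]) (1,[(0,1)]) (12,[(5,311),(4,2640),(1,29)])) (.leaf false ⟨⟨-56,-48,-69⟩,⟨-3,84,-56⟩,⟨84,-29,-48⟩⟩ (4,[(5,144),(4,2085),(0,23)]) (3,[(5,215),(4,1638),(0,14)]) (1,[(5,148),(4,367),(0,4)])))) (.leaf false ⟨⟨16,12,-99⟩,⟨27,96,16⟩,⟨96,-29,12⟩⟩ (29,[(1,4407),(0,16),(2,540)]) (29,[(1,2128),(0,27),(2,3108)])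 (29,[(1,8868),(0,96),(2,311)])))) (.node ⟨0,0,1⟩ (.node ⟨-29,-96,12⟩ (.node ⟨-29,12,96⟩ (.node ⟨96,16,27⟩ (.leaf false ⟨⟨-29,12,96⟩,⟨12,-99,16⟩,⟨96,16,27⟩⟩ (1,[(1,1)]) (6,[(5,101),(4,606),(1,1)]) (1,[(0,1)])) (.leaf false ⟨⟨-84,-36,43⟩,⟨21,-92,-36⟩,⟨52,-21,84⟩⟩ (303,[(5,81911),(0,993),(1,415)]) (101,[(5,73932),(0,700),(1,159)]) (404,[(5,136249),(0,1008),(1,637)]))) (.node ⟨16,12,99⟩ (.leaf false ⟨⟨-27,-96,16⟩,⟨16,12,99⟩,⟨96,-29,-12⟩⟩ (1,[(3,4),(5,2),(2,1)]) (1,[(0,1)]) (12,[(3,2640),(5,311),(1,29)])) (.leaf false ⟨⟨-56,-84,3⟩,⟨48,-29,84⟩,⟨69,-48,-56⟩⟩ (1,[(3,696),(5,56),(0,7)]) (12,[(3,3879),(5,1040),(0,29)]) (1,[(3,340),(5,133),(0,4)])))) (.leaf false ⟨⟨16,-99,12⟩,⟨27,16,96⟩,⟨96,12,-29⟩⟩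 (29,[(1,540),(0,16),(2,4407)]) (29,[(1,3108),(0,27),(2,2128)]) (29,[(1,311),(0,96),(2,8868)]))) (.node ⟨-20,-99,0⟩ (.leaf false ⟨⟨-20,-99,0⟩,⟨0,0,-101⟩,⟨99,-20,0⟩⟩ (1,[(0,1)]) (1,[(1,101)]) (99,[(3,10201),(0,20)])) (.node ⟨84,43,36⟩ (.leaf false ⟨⟨21,36,-92⟩,⟨52,-84,-21⟩,⟨84,43,36⟩⟩ (20,[(2,1840),(1,21),(3,1359)]) (5,[(2,105),(1,13),(3,1707)]) (1,[(0,1)])) (.leaf false ⟨⟨-56,-48,-69⟩,⟨-3,84,-56⟩,⟨84,-29,-48⟩⟩ (12,[(1,63),(3,5824),(0,23)]) (180,[(1,1149),(3,86591),(0,280)]) (15,[(1,147),(3,14128),(0,20)])))))) (.node ⟨0,1,0⟩ (.node ⟨0,0,1⟩ (.node ⟨-96,-29,12⟩ (.node ⟨12,-29,96⟩ (.node ⟨16,96,27⟩ (.leaf false ⟨⟨-99,12,16⟩,⟨12,-29,96⟩,⟨16,96,27⟩⟩ (6,[(5,606),(4,101),(1,1)]) (1,[(1,1)]) (1,[(0,1)]))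 (.leaf false ⟨⟨-96,-27,16⟩,⟨-29,96,-12⟩,⟨12,16,99⟩⟩ (303,[(4,238259),(1,712),(0,2352)]) (404,[(4,128977),(1,197),(0,880)]) (101,[(4,4949),(1,105),(0,3)]))) (.node ⟨12,16,99⟩ (.leaf false ⟨⟨-96,-27,16⟩,⟨-29,96,-12⟩,⟨12,16,99⟩⟩ (1,[(3,4),(2,1),(4,2)]) (12,[(3,2640),(1,29),(4,311)]) (1,[(0,1)])) (.leaf false ⟨⟨-92,-36,21⟩,⟨-36,43,-84⟩,⟨-21,84,52⟩⟩ (3,[(3,2340),(0,23),(4,260)]) (1,[(3,213),(0,3),(4,91)]) (4,[(3,901),(0,7),(4,448)])))) (.leaf false ⟨⟨-99,16,12⟩,⟨12,96,-29⟩,⟨16,27,96⟩⟩ (29,[(1,540),(3,4407),(0,16)]) (29,[(1,311),(3,8868),(0,96)]) (29,[(1,3108),(3,2128),(0,27)]))) (.node ⟨0,-20,-99⟩ (.leaf false ⟨⟨-101,0,0⟩,⟨0,-20,-99⟩,⟨0,99,-20⟩⟩ (1,[(3,101)]) (1,[(0,1)]) (99,[(0,20),(2,10201)]))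 (.node ⟨36,84,43⟩ (.leaf false ⟨⟨-92,21,36⟩,⟨-21,52,-84⟩,⟨36,84,43⟩⟩ (20,[(2,1359),(4,1840),(1,21)]) (5,[(2,1707),(4,105),(1,13)]) (1,[(0,1)])) (.leaf false ⟨⟨-99,-20,0⟩,⟨-20,99,0⟩,⟨0,0,-101⟩⟩ (20,[(2,18524),(0,55),(1,211)]) (180,[(2,125489),(0,100),(1,1311)]) (1,[(2,101)]))))) (.node ⟨0,0,1⟩ (.node ⟨0,-99,-20⟩ (.leaf false ⟨⟨-101,0,0⟩,⟨0,-99,-20⟩,⟨0,-20,99⟩⟩ (1,[(3,101)]) (1,[(0,1)]) (99,[(1,10201),(0,20)])) (.node ⟨36,43,84⟩ (.leaf false ⟨⟨-92,36,21⟩,⟨-21,-84,52⟩,⟨36,43,84⟩⟩ (20,[(1,21),(4,1840),(3,1359)]) (5,[(1,13),(4,105),(3,1707)]) (1,[(0,1)])) (.leaf false ⟨⟨-99,0,-20⟩,⟨-20,0,99⟩,⟨0,-101,0⟩⟩ (20,[(1,211),(0,55),(3,18524)]) (180,[(1,1311),(0,100),(3,125489)]) (1,[(3,101)])))) (.leaf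 false ⟨⟨-101,0,0⟩,⟨0,-101,0⟩,⟨0,0,-101⟩⟩ (1,[(2,101)]) (1,[(1,101)]) (1,[(0,101)]))))
theorem pf101_ok : pf101.check (ok 101 6 ⟨5, 5, 5⟩) (fun _ r => r) [] = true := by decide +kernel

def pf103 : T := .node ⟨1,0,0⟩ (.node ⟨0,1,0⟩ (.node ⟨0,0,1⟩ (.leaf false ⟨⟨0,0,103⟩,⟨0,103,0⟩,⟨103,0,0⟩⟩ (1,[(0,103)]) (1,[(1,103)]) (1,[(2,103)])) (.node ⟨-42,93,-14⟩ (.node ⟨-42,-14,-93⟩ (.leaf false ⟨⟨-42,-14,-93⟩,⟨-3,102,-14⟩,⟨94,-3,-42⟩⟩ (1,[(0,1)]) (1,[(4,39),(3,9),(1,1)]) (31,[(4,3502),(3,103),(0,14)])) (.leaf false ⟨⟨-14,42,-93⟩,⟨3,94,42⟩,⟨102,3,-14⟩⟩ (31,[(2,2687),(4,154),(1,14)]) (1498,[(2,49893),(0,1409),(1,1302)]) (14,[(2,475),(4,1302),(0,3)]))) (.leaf false ⟨⟨6,13,-102⟩,⟨67,-78,-6⟩,⟨78,66,13⟩⟩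 (7,[(1,728),(0,1),(2,184)]) (42,[(1,1190),(0,67),(2,2955)]) (7,[(1,91),(0,13),(2,1671)])))) (.node ⟨0,0,1⟩ (.node ⟨-42,-14,93⟩ (.node ⟨-42,-93,-14⟩ (.leaf false ⟨⟨-42,-93,-14⟩,⟨-3,-14,102⟩,⟨94,-42,-3⟩⟩ (1,[(0,1)]) (1,[(2,9),(4,39),(1,1)]) (31,[(2,103),(4,3502),(0,14)])) (.leaf false ⟨⟨-14,-93,42⟩,⟨3,42,94⟩,⟨102,-14,3⟩⟩ (31,[(4,154),(3,2687),(1,14)]) (1498,[(3,49893),(1,1302),(0,1409)]) (14,[(4,1302),(3,475),(0,3)]))) (.leaf false ⟨⟨6,-102,13⟩,⟨67,-6,-78⟩,⟨78,13,66⟩⟩ (7,[(1,184),(0,1),(2,728)]) (42,[(1,2955),(0,67),(2,1190)]) (7,[(1,1671),(0,13),(2,91)]))) (.node ⟨-45,-78,-50⟩ (.node ⟨67,-66,42⟩ (.node ⟨66,18,-77⟩ (.leaf false ⟨⟨-42,-77,-54⟩,⟨66,18,-77⟩,⟨67,-66,42⟩⟩ (15,[(3,110),(4,63),(2,14)])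 (1,[(0,1)]) (1,[(1,1)])) (.leaf false ⟨⟨-90,-50,-3⟩,⟨22,-45,90⟩,⟨45,-78,-50⟩⟩ (9,[(3,1952),(5,840),(0,25)]) (2,[(3,205),(5,374),(0,5)]) (3,[(3,1151),(5,993),(0,13)]))) (.leaf false ⟨⟨-66,18,-77⟩,⟨42,-77,-54⟩,⟨67,66,-42⟩⟩ (6,[(4,341),(3,618),(0,11)]) (7,[(4,897),(3,1133),(0,9)]) (1,[(4,134),(0,1)]))) (.leaf false ⟨⟨13,-102,-6⟩,⟨66,13,-78⟩,⟨78,6,67⟩⟩ (45,[(1,920),(0,13),(2,5604)]) (15,[(1,2270),(0,22),(2,1521)]) (15,[(1,295),(0,26),(2,1938)]))))) (.node ⟨0,1,0⟩ (.node ⟨0,0,1⟩ (.node ⟨-14,93,-42⟩ (.node ⟨-93,-14,-42⟩ (.leaf false ⟨⟨-102,-14,3⟩,⟨-14,93,-42⟩,⟨-3,42,94⟩⟩ (31,[(2,1521),(0,34),(3,42)]) (1,[(1,1)]) (14,[(2,1442),(1,3),(3,309)])) (.leaf false ⟨⟨-93,42,-14⟩,⟨-14,3,102⟩,⟨42,94,3⟩⟩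 (31,[(2,154),(4,2687),(1,14)]) (14,[(2,1302),(4,475),(0,3)]) (1498,[(4,49893),(1,1302),(0,1409)]))) (.leaf false ⟨⟨-102,-6,13⟩,⟨6,67,78⟩,⟨13,-78,66⟩⟩ (42,[(3,4466),(2,957),(0,13)]) (7,[(3,140),(2,1678),(0,13)]) (7,[(3,63),(2,477),(0,11)]))) (.node ⟨-90,22,45⟩ (.node ⟨18,99,22⟩ (.node ⟨22,99,18⟩ (.leaf false ⟨⟨-99,18,22⟩,⟨-18,22,-99⟩,⟨22,99,18⟩⟩ (11,[(3,163),(5,279),(2,9)]) (9,[(3,927),(5,206),(0,2)]) (1,[(0,1)])) (.leaf false ⟨⟨-90,22,45⟩,⟨-50,-45,-78⟩,⟨-3,90,-50⟩⟩ (18,[(3,970),(0,423),(1,427)]) (11,[(3,1208),(0,115),(1,110)]) (44,[(3,3932),(0,213),(1,253)]))) (.leaf false ⟨⟨-90,22,45⟩,⟨-50,-45,-78⟩,⟨-3,90,-50⟩⟩ (1,[(1,1)]) (9,[(2,152),(0,25),(3,2070)]) (6,[(2,278),(0,1),(3,639)]))) (.node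 ⟨45,-50,-78⟩ (.leaf false ⟨⟨-90,-3,-50⟩,⟨22,90,-45⟩,⟨45,-50,-78⟩⟩ (9,[(4,1710),(3,193),(1,10)]) (1,[(4,68),(3,112),(1,1)]) (1,[(0,1)])) (.leaf false ⟨⟨-102,13,-6⟩,⟨6,78,67⟩,⟨13,66,-78⟩⟩ (178,[(4,46821),(0,239),(1,438)]) (267,[(4,75618),(0,1018),(1,1367)]) (89,[(4,99418),(0,781),(1,1508)]))))) (.node ⟨0,0,1⟩ (.node ⟨-90,45,22⟩ (.node ⟨18,22,99⟩ (.node ⟨22,18,99⟩ (.leaf false ⟨⟨-99,22,18⟩,⟨-18,-99,22⟩,⟨22,18,99⟩⟩ (11,[(2,9),(5,279),(4,163)]) (9,[(5,206),(4,927),(0,2)]) (1,[(0,1)])) (.leaf false ⟨⟨-90,45,22⟩,⟨-50,-78,-45⟩,⟨-3,-50,90⟩⟩ (18,[(4,970),(1,427),(0,423)]) (11,[(4,1208),(1,110),(0,115)]) (44,[(4,3932),(1,253),(0,213)]))) (.leaf false ⟨⟨-90,45,22⟩,⟨-50,-78,-45⟩,⟨-3,-50,90⟩⟩ (1,[(1,1)])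 (9,[(2,2070),(0,25),(3,152)]) (6,[(2,639),(0,1),(3,278)]))) (.node ⟨45,-78,-50⟩ (.leaf false ⟨⟨-90,-50,-3⟩,⟨22,-45,90⟩,⟨45,-78,-50⟩⟩ (9,[(2,193),(4,1710),(1,10)]) (1,[(2,112),(4,68),(1,1)]) (1,[(0,1)])) (.leaf false ⟨⟨-102,-6,13⟩,⟨6,67,78⟩,⟨13,-78,66⟩⟩ (178,[(4,46821),(1,438),(0,239)]) (267,[(4,75618),(1,1367),(0,1018)]) (89,[(4,99418),(1,1508),(0,781)])))) (.node ⟨-42,67,-66⟩ (.node ⟨-77,-42,54⟩ (.node ⟨-66,67,-42⟩ (.leaf false ⟨⟨-77,-42,54⟩,⟨-66,67,-42⟩,⟨-18,-66,-77⟩⟩ (1,[(1,1)]) (1,[(0,1)]) (7,[(3,341),(2,3),(4,663)])) (.leaf false ⟨⟨-77,-66,-18⟩,⟨-42,67,-66⟩,⟨54,-42,-77⟩⟩ (59,[(2,297),(1,131),(0,273)]) (1,[(2,1)]) (24,[(2,131),(1,24),(0,131)]))) (.leaf false ⟨⟨-77,-66,-18⟩,⟨-42,67,-66⟩,⟨54,-42,-77⟩⟩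 (3,[(4,308),(3,240),(0,1)]) (1,[(1,1)]) (54,[(4,3013),(3,5502),(0,77)]))) (.node ⟨67,-66,-42⟩ (.leaf false ⟨⟨-66,-18,-77⟩,⟨-42,-77,54⟩,⟨67,-66,-42⟩⟩ (11,[(2,721),(4,927),(0,3)]) (67,[(2,1464),(4,6048),(1,77)]) (1,[(0,1)])) (.leaf false ⟨⟨-90,3,-50⟩,⟨-45,-50,78⟩,⟨22,-90,-45⟩⟩ (1717,[(2,712592),(0,5904),(1,5739)]) (1717,[(2,498024),(0,5115),(1,6320)]) (1717,[(2,476265),(0,2306),(1,4578)]))))))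
theorem pf103_ok : pf103.check (ok 103 6 ⟨5, 5, 5⟩) (fun _ r => r) [] = true := by decide +kernel

def pf107 : T := .node ⟨1,0,0⟩ (.node ⟨0,1,0⟩ (.node ⟨0,0,1⟩ (.node ⟨-78,46,57⟩ (.node ⟨57,66,-62⟩ (.node ⟨6,87,-62⟩ (.leaf false ⟨⟨-78,46,57⟩,⟨6,87,-62⟩,⟨73,42,66⟩⟩ (1,[(2,1)]) (1,[(0,1)]) (11,[(3,1160),(5,404),(1,7)])) (.leaf false ⟨⟨-62,6,87⟩,⟨57,-78,46⟩,⟨66,73,42⟩⟩ (303987,[(1,157076),(2,335229),(0,275444)]) (101329,[(1,139849),(2,12492),(0,203544)]) (101329,[(1,380064),(2,169468),(0,292905)]))) (.leaf false ⟨⟨-78,6,73⟩,⟨46,87,42⟩,⟨57,-62,66⟩⟩ (529,[(3,20280),(1,225),(0,416)]) (19,[(4,1966),(3,1009),(1,14)]) (31,[(4,3648),(3,256),(0,33)]))) (.node ⟨46,-78,57⟩ (.leaf false ⟨⟨42,73,66⟩,⟨46,-78,57⟩,⟨87,6,-62⟩⟩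 (13,[(2,1257),(1,7),(3,1271)]) (1,[(0,1)]) (26,[(2,41),(1,29),(3,1490)])) (.leaf false ⟨⟨-18,90,55⟩,⟨10,57,-90⟩,⟨105,10,18⟩⟩ (248,[(2,45446),(1,171),(0,387)]) (1984,[(2,58218),(1,1701),(0,2453)]) (1984,[(2,442122),(1,4325),(0,2805)])))) (.node ⟨90,10,57⟩ (.node ⟨-18,105,10⟩ (.leaf false ⟨⟨-18,105,10⟩,⟨55,18,-90⟩,⟨90,10,57⟩⟩ (1,[(0,1)]) (35,[(2,3210),(4,2033),(0,6)]) (1,[(1,1)])) (.leaf false ⟨⟨18,10,-105⟩,⟨55,90,18⟩,⟨90,-57,10⟩⟩ (1,[(2,95),(0,1),(3,115)]) (18,[(2,303),(1,11),(3,1510)]) (535,[(2,17976),(0,335),(1,468)]))) (.node ⟨46,-78,-57⟩ (.leaf false ⟨⟨-87,-6,-62⟩,⟨42,73,-66⟩,⟨46,-78,-57⟩⟩ (57,[(4,621),(3,278),(1,62)]) (19,[(4,2778),(3,1607),(1,22)]) (1,[(0,1)])) (.leaf false ⟨⟨-62,6,-87⟩,⟨-57,78,46⟩,⟨66,73,-42⟩⟩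 (323,[(4,38080),(0,101),(1,594)]) (1938,[(4,19822),(0,1993),(1,429)]) (1292,[(4,378624),(0,1527),(1,2479)]))))) (.node ⟨0,0,1⟩ (.node ⟨90,57,10⟩ (.node ⟨-18,10,105⟩ (.leaf false ⟨⟨-18,10,105⟩,⟨55,-90,18⟩,⟨90,57,10⟩⟩ (1,[(0,1)]) (35,[(4,2033),(3,3210),(0,6)]) (1,[(1,1)])) (.leaf false ⟨⟨18,-105,10⟩,⟨55,18,90⟩,⟨90,10,-57⟩⟩ (1,[(2,115),(0,1),(3,95)]) (18,[(2,1510),(1,11),(3,303)]) (107,[(2,17976),(1,60),(0,235)]))) (.node ⟨46,-57,-78⟩ (.leaf false ⟨⟨-87,-62,-6⟩,⟨42,-66,73⟩,⟨46,-57,-78⟩⟩ (57,[(2,278),(4,621),(1,62)]) (19,[(2,1607),(4,2778),(1,22)]) (1,[(0,1)])) (.leaf false ⟨⟨-62,-87,6⟩,⟨-57,46,78⟩,⟨66,-42,73⟩⟩ (323,[(4,38080),(1,594),(0,101)]) (1938,[(4,19822),(1,429),(0,1993)]) (1292,[(4,378624),(1,2479),(0,1527)]))))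 (.node ⟨-66,-62,-57⟩ (.node ⟨42,46,-87⟩ (.node ⟨-66,-57,-62⟩ (.leaf false ⟨⟨-66,-57,-62⟩,⟨42,46,-87⟩,⟨73,-78,-6⟩⟩ (1,[(0,1)]) (1,[(1,1)]) (19,[(5,1519),(4,1358),(2,2)])) (.leaf false ⟨⟨-66,-62,-57⟩,⟨42,-87,46⟩,⟨73,-6,-78⟩⟩ (1,[(2,1)]) (5,[(2,133),(1,5),(0,133)]) (72,[(2,1253),(1,133),(0,1248)]))) (.leaf false ⟨⟨-71,-78,18⟩,⟨18,-39,-98⟩,⟨78,-62,39⟩⟩ (23,[(2,2979),(4,5),(0,39)]) (62,[(2,3853),(4,3690),(1,39)]) (23,[(2,1800),(4,3096),(0,31)]))) (.leaf false ⟨⟨6,-62,-87⟩,⟨73,66,-42⟩,⟨78,-57,46⟩⟩ (11,[(1,1014),(0,1),(2,744)]) (66,[(1,6933),(0,73),(2,170)]) (11,[(1,235),(0,13),(2,1433)]))))) (.node ⟨0,1,0⟩ (.node ⟨0,0,1⟩ (.node ⟨57,10,90⟩ (.node ⟨10,105,-18⟩ (.leaf false ⟨⟨-90,18,55⟩,⟨10,105,-18⟩,⟨57,10,90⟩⟩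 (35,[(2,2033),(4,3210),(0,6)]) (1,[(0,1)]) (1,[(1,1)])) (.leaf false ⟨⟨-105,10,18⟩,⟨10,-57,90⟩,⟨18,90,55⟩⟩ (1,[(4,95),(3,115),(0,1)]) (535,[(4,17976),(1,468),(0,335)]) (18,[(4,303),(3,1510),(1,11)]))) (.node ⟨-57,-78,46⟩ (.leaf false ⟨⟨-66,73,42⟩,⟨-62,-6,-87⟩,⟨-57,-78,46⟩⟩ (19,[(2,2778),(1,22),(3,1607)]) (57,[(2,621),(1,62),(3,278)]) (1,[(0,1)])) (.leaf false ⟨⟨-105,18,10⟩,⟨10,90,-57⟩,⟨18,55,90⟩⟩ (323,[(2,80308),(1,768),(0,173)]) (1938,[(2,200974),(1,2175),(0,2515)]) (1292,[(2,213520),(1,577),(0,985)])))) (.node ⟨-62,-66,-57⟩ (.node ⟨46,42,-87⟩ (.node ⟨-57,-66,-62⟩ (.leaf false ⟨⟨-78,73,-6⟩,⟨-57,-66,-62⟩,⟨46,42,-87⟩⟩ (19,[(2,2),(5,1358),(4,1519)]) (1,[(0,1)]) (1,[(1,1)])) (.leaf false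 ⟨⟨-87,6,-62⟩,⟨-42,73,66⟩,⟨46,78,-57⟩⟩ (1070,[(2,22577),(0,21742),(1,1465)]) (38520,[(2,878363),(0,898368),(1,35515)]) (535,[(2,3638),(0,3828),(1,695)]))) (.leaf false ⟨⟨-87,42,46⟩,⟨-62,-66,-57⟩,⟨-6,73,-78⟩⟩ (46,[(2,5453),(0,87),(3,5586)]) (1,[(1,1)]) (23,[(2,2055),(0,3),(3,1805)]))) (.leaf false ⟨⟨-62,6,-87⟩,⟨-57,78,46⟩,⟨66,73,-42⟩⟩ (11,[(1,1014),(3,744),(0,1)]) (11,[(1,235),(3,1433),(0,13)]) (66,[(1,6933),(3,170),(0,73)])))) (.node ⟨0,0,1⟩ (.node ⟨-62,-57,-66⟩ (.node ⟨46,-87,42⟩ (.node ⟨-57,-62,-66⟩ (.leaf false ⟨⟨-78,-6,73⟩,⟨-57,-62,-66⟩,⟨46,-87,42⟩⟩ (19,[(3,1519),(5,1358),(2,2)]) (1,[(0,1)]) (1,[(1,1)])) (.leaf false ⟨⟨-87,-62,6⟩,⟨-42,66,73⟩,⟨46,-57,78⟩⟩ (1070,[(2,22577),(1,1465),(0,21742)])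 (38520,[(2,878363),(1,35515),(0,898368)]) (535,[(2,3638),(1,695),(0,3828)]))) (.leaf false ⟨⟨-87,46,42⟩,⟨-62,-57,-66⟩,⟨-6,-78,73⟩⟩ (46,[(2,5586),(0,87),(3,5453)]) (1,[(1,1)]) (23,[(2,1805),(0,3),(3,2055)]))) (.leaf false ⟨⟨-62,-87,6⟩,⟨-57,46,78⟩,⟨66,-42,73⟩⟩ (11,[(3,744),(2,1014),(0,1)]) (11,[(3,1433),(2,235),(0,13)]) (66,[(3,170),(2,6933),(0,73)]))) (.leaf false ⟨⟨-107,0,0⟩,⟨0,-107,0⟩,⟨0,0,-107⟩⟩ (1,[(2,107)]) (1,[(1,107)]) (1,[(0,107)]))))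
theorem pf107_ok : pf107.check (ok 107 6 ⟨5, 5, 5⟩) (fun _ r => r) [] = true := by decide +kernel

def pf109 : T := .node ⟨1,0,0⟩ (.node ⟨0,1,0⟩ (.node ⟨0,0,1⟩ (.leaf false ⟨⟨0,0,109⟩,⟨0,109,0⟩,⟨109,0,0⟩⟩ (1,[(0,109)]) (1,[(1,109)]) (1,[(2,109)])) (.node ⟨-48,96,19⟩ (.node ⟨91,36,48⟩ (.leaf false ⟨⟨-48,96,19⟩,⟨36,37,-96⟩,⟨91,36,48⟩⟩ (1,[(1,1)]) (96,[(2,9919),(4,5232),(1,37)]) (1,[(0,1)])) (.leaf false ⟨⟨-99,12,-44⟩,⟨28,99,-36⟩,⟨36,-44,-93⟩⟩ (327,[(4,10028),(1,180),(0,371)]) (436,[(4,98427),(1,672),(0,593)]) (981,[(4,234241),(1,309),(0,2023)]))) (.node ⟨-51,-8,-96⟩ (.leaf false ⟨⟨-51,-8,-96⟩,⟨64,-84,-27⟩,⟨72,69,-44⟩⟩ (1,[(0,1)]) (2266,[(1,1962),(4,63547),(0,249)]) (24,[(4,2289),(3,1744),(0,11)]))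 (.leaf false ⟨⟨0,109,0⟩,⟨60,0,91⟩,⟨91,0,-60⟩⟩ (1,[(3,109)]) (11,[(2,132),(1,1),(0,12)]) (48,[(2,1151),(1,91),(3,8736)]))))) (.node ⟨0,0,1⟩ (.node ⟨-48,19,96⟩ (.node ⟨91,48,36⟩ (.leaf false ⟨⟨-48,19,96⟩,⟨36,-96,37⟩,⟨91,48,36⟩⟩ (1,[(1,1)]) (96,[(4,5232),(3,9919),(1,37)]) (1,[(0,1)])) (.leaf false ⟨⟨-99,-44,12⟩,⟨28,-36,99⟩,⟨36,-93,-44⟩⟩ (327,[(4,10028),(0,371),(1,180)]) (436,[(4,98427),(0,593),(1,672)]) (981,[(4,234241),(0,2023),(1,309)]))) (.node ⟨-51,-96,-8⟩ (.leaf false ⟨⟨-51,-96,-8⟩,⟨64,-27,-84⟩,⟨72,-44,69⟩⟩ (1,[(0,1)]) (2266,[(4,63547),(1,1962),(0,249)]) (24,[(2,1744),(4,2289),(0,11)])) (.leaf false ⟨⟨0,0,109⟩,⟨60,91,0⟩,⟨91,-60,0⟩⟩ (1,[(2,109)]) (11,[(0,12),(1,1),(3,132)]) (48,[(2,8736),(1,91),(3,1151)]))))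 (.node ⟨72,-51,64⟩ (.node ⟨-44,-96,-27⟩ (.leaf false ⟨⟨-44,-96,-27⟩,⟨69,-8,-84⟩,⟨72,-51,64⟩⟩ (1,[(0,1)]) (12,[(2,981),(4,872),(0,1)]) (1,[(1,1)])) (.leaf false ⟨⟨19,-48,-96⟩,⟨48,91,-36⟩,⟨96,-36,37⟩⟩ (44,[(2,4737),(0,19),(3,3936)]) (11,[(2,720),(0,12),(3,151)]) (11,[(2,241),(0,24),(3,2700)]))) (.leaf false ⟨⟨-44,-72,-69⟩,⟨27,64,-84⟩,⟨96,-51,-8⟩⟩ (64,[(3,2152),(2,8127),(0,69)]) (16,[(3,1944),(2,47),(0,21)]) (8,[(3,840),(2,459),(0,1)]))))) (.node ⟨0,1,0⟩ (.node ⟨0,0,1⟩ (.node ⟨19,-48,96⟩ (.node ⟨48,91,36⟩ (.leaf false ⟨⟨-96,36,37⟩,⟨19,-48,96⟩,⟨48,91,36⟩⟩ (96,[(4,9919),(3,5232),(1,37)]) (1,[(1,1)]) (1,[(0,1)])) (.leaf false ⟨⟨-96,-36,37⟩,⟨-48,91,-36⟩,⟨19,48,96⟩⟩ (36,[(3,9289),(1,48),(0,91)])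 (1,[(3,182),(0,1)]) (1,[(3,96),(1,1)]))) (.node ⟨-96,-51,-8⟩ (.leaf false ⟨⟨-96,-51,-8⟩,⟨-44,72,69⟩,⟨-27,64,-84⟩⟩ (1,[(0,1)]) (24,[(2,1744),(0,11),(3,2289)]) (2266,[(0,249),(1,1962),(3,63547)])) (.leaf false ⟨⟨-96,37,36⟩,⟨19,96,-48⟩,⟨48,36,91⟩⟩ (48,[(2,5280),(4,3905),(1,37)]) (110,[(4,10461),(1,67),(0,144)]) (17,[(2,1451),(4,336),(0,12)])))) (.node ⟨-51,72,64⟩ (.node ⟨-96,-44,-27⟩ (.leaf false ⟨⟨-96,-44,-27⟩,⟨-51,72,64⟩,⟨-8,69,-84⟩⟩ (1,[(0,1)]) (1,[(1,1)]) (12,[(2,981),(0,1),(3,872)])) (.leaf false ⟨⟨-96,27,-44⟩,⟨-8,84,69⟩,⟨51,64,-72⟩⟩ (8,[(2,544),(4,615),(1,3)]) (109,[(4,872),(1,96),(0,51)]) (11,[(2,1224),(4,975),(0,16)]))) (.leaf false ⟨⟨-99,12,-44⟩,⟨28,99,-36⟩,⟨36,-44,-93⟩⟩ (16,[(3,2145),(2,984),(0,11)])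 (16,[(3,11),(2,2232),(0,9)]) (64,[(3,2439),(2,3880),(0,93)])))) (.node ⟨0,0,1⟩ (.node ⟨-51,64,72⟩ (.node ⟨-96,-27,-44⟩ (.leaf false ⟨⟨-96,-27,-44⟩,⟨-51,64,72⟩,⟨-8,-84,69⟩⟩ (1,[(0,1)]) (1,[(1,1)]) (12,[(2,872),(0,1),(3,981)])) (.leaf false ⟨⟨-96,-44,27⟩,⟨-8,69,84⟩,⟨51,-72,64⟩⟩ (8,[(1,3),(4,615),(3,544)]) (109,[(1,96),(4,872),(0,51)]) (11,[(4,975),(3,1224),(0,16)]))) (.leaf false ⟨⟨-99,-44,12⟩,⟨28,-36,99⟩,⟨36,-93,-44⟩⟩ (16,[(1,984),(3,2145),(0,11)]) (16,[(1,2232),(3,11),(0,9)]) (64,[(1,3880),(3,2439),(0,93)]))) (.node ⟨-35,84,-60⟩ (.node ⟨-84,-35,60⟩ (.node ⟨-60,84,-35⟩ (.leaf false ⟨⟨-84,-35,60⟩,⟨-60,84,-35⟩,⟨-35,-60,-84⟩⟩ (1,[(1,1)]) (1,[(0,1)]) (1,[(3,24),(2,1),(4,144)])) (.leaf false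 ⟨⟨-84,-60,-35⟩,⟨-35,84,-60⟩,⟨60,-35,-84⟩⟩ (245,[(2,1896),(1,720),(0,1771)]) (1,[(2,1)]) (25,[(2,144),(1,25),(0,144)]))) (.leaf false ⟨⟨-84,-60,-35⟩,⟨-35,84,-60⟩,⟨60,-35,-84⟩⟩ (12,[(1,7),(4,763),(3,1308)]) (1,[(1,1)]) (5,[(4,288),(3,420),(0,7)]))) (.node ⟨84,-60,-35⟩ (.leaf false ⟨⟨-60,-35,-84⟩,⟨-35,-84,60⟩,⟨84,-60,-35⟩⟩ (12,[(2,1308),(4,895),(1,5)]) (1,[(4,70),(1,1)]) (1,[(0,1)])) (.leaf false ⟨⟨-99,-12,-44⟩,⟨-36,-44,93⟩,⟨28,-99,-36⟩⟩ (413,[(2,78392),(0,728),(1,579)]) (1239,[(2,12548),(0,1141),(1,1464)]) (236,[(2,29311),(0,53),(1,316)]))))))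
theorem pf109_ok : pf109.check (ok 109 6 ⟨5, 5, 5⟩) (fun _ r => r) [] = true := by decide +kernel

def pf113 : T := .node ⟨1,0,0⟩ (.node ⟨0,1,0⟩ (.node ⟨0,0,1⟩ (.node ⟨-32,9,108⟩ (.node ⟨-32,108,-9⟩ (.node ⟨108,31,-12⟩ (.leaf false ⟨⟨-32,108,-9⟩,⟨9,12,112⟩,⟨108,31,-12⟩⟩ (1,[(1,1)]) (9,[(3,1017),(5,113),(1,1)]) (1,[(0,1)])) (.leaf false ⟨⟨-105,12,40⟩,⟨12,-95,60⟩,⟨40,60,87⟩⟩ (1017,[(5,415727),(1,1384),(0,4428)]) (113,[(5,71416),(1,80),(0,625)]) (339,[(5,407704),(1,1139),(0,3312)]))) (.leaf false ⟨⟨-12,-9,112⟩,⟨31,108,12⟩,⟨108,-32,9⟩⟩ (72,[(3,3465),(1,71),(0,44)]) (9,[(4,311),(3,963),(1,1)]) (1,[(4,76),(3,76),(0,1)]))) (.node ⟨31,-12,108⟩ (.leaf false ⟨⟨12,9,112⟩,⟨31,108,-12⟩,⟨108,-32,-9⟩⟩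 (8,[(2,1220),(1,3),(3,99)]) (32,[(2,2964),(1,31),(3,3735)]) (756,[(0,1264),(1,1327),(3,2919)])) (.leaf false ⟨⟨-95,60,12⟩,⟨12,40,-105⟩,⟨60,87,40⟩⟩ (7,[(2,12936),(1,48),(0,71)]) (105,[(2,288351),(1,1384),(0,1388)]) (35,[(2,244076),(1,1139),(0,1108)])))) (.node ⟨-15,112,0⟩ (.leaf false ⟨⟨-15,112,0⟩,⟨0,0,-113⟩,⟨112,15,0⟩⟩ (1,[(0,1)]) (1,[(1,113)]) (112,[(3,12769),(0,15)])) (.leaf false ⟨⟨0,0,-113⟩,⟨15,112,0⟩,⟨112,-15,0⟩⟩ (1,[(1,113)]) (1,[(0,1),(2,224)]) (15,[(0,112),(2,12319)])))) (.node ⟨0,0,1⟩ (.node ⟨-15,0,112⟩ (.leaf false ⟨⟨-15,0,112⟩,⟨0,-113,0⟩,⟨112,0,15⟩⟩ (1,[(0,1)]) (1,[(2,113)]) (112,[(3,12769),(0,15)])) (.leaf false ⟨⟨0,-113,0⟩,⟨15,0,112⟩,⟨112,0,-15⟩⟩ (1,[(2,113)]) (1,[(1,224),(0,1)])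 (15,[(1,12319),(0,112)]))) (.node ⟨40,60,-87⟩ (.node ⟨105,-12,40⟩ (.leaf false ⟨⟨12,-95,-60⟩,⟨40,60,-87⟩,⟨105,-12,40⟩⟩ (10,[(2,339),(1,3),(3,1130)]) (1,[(1,1)]) (1,[(0,1)])) (.leaf false ⟨⟨-60,-12,-95⟩,⟨40,-105,-12⟩,⟨87,40,-60⟩⟩ (8,[(4,1515),(3,324),(0,19)]) (10,[(4,715),(3,1086),(0,3)]) (29,[(1,20),(4,1723),(3,40)]))) (.leaf false ⟨⟨-60,-95,-12⟩,⟨40,-12,-105⟩,⟨87,-60,40⟩⟩ (12,[(1,1797),(3,40),(0,19)]) (5,[(1,612),(3,240),(0,1)]) (1,[(1,47),(3,127),(0,1)]))))) (.node ⟨0,1,0⟩ (.node ⟨0,0,1⟩ (.node ⟨0,-15,112⟩ (.leaf false ⟨⟨-113,0,0⟩,⟨0,-15,112⟩,⟨0,112,15⟩⟩ (1,[(3,113)]) (1,[(0,1)]) (112,[(0,15),(2,12769)])) (.leaf false ⟨⟨-113,0,0⟩,⟨0,15,112⟩,⟨0,112,-15⟩⟩ (1,[(3,113)]) (1,[(1,224),(0,1)])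 (15,[(1,12319),(0,112)]))) (.node ⟨60,40,-87⟩ (.node ⟨-12,105,40⟩ (.leaf false ⟨⟨-95,12,-60⟩,⟨-12,105,40⟩,⟨60,40,-87⟩⟩ (10,[(2,339),(4,1130),(1,3)]) (1,[(0,1)]) (1,[(1,1)])) (.leaf false ⟨⟨-105,40,-12⟩,⟨-12,-60,-95⟩,⟨40,87,-60⟩⟩ (10,[(4,1086),(3,715),(0,3)]) (8,[(4,324),(3,1515),(0,19)]) (29,[(4,40),(3,1723),(1,20)]))) (.leaf false ⟨⟨-108,-12,31⟩,⟨-32,9,-108⟩,⟨-9,112,12⟩⟩ (5,[(1,628),(0,9),(2,300)]) (15,[(1,2316),(0,8),(2,455)]) (20,[(1,21),(0,3),(2,2360)])))) (.node ⟨0,0,1⟩ (.node ⟨60,-87,40⟩ (.node ⟨-12,40,105⟩ (.leaf false ⟨⟨-95,-60,12⟩,⟨-12,40,105⟩,⟨60,-87,40⟩⟩ (10,[(4,1130),(3,339),(1,3)]) (1,[(0,1)]) (1,[(1,1)])) (.leaf false ⟨⟨-105,-12,40⟩,⟨-12,-95,-60⟩,⟨40,-60,87⟩⟩ (10,[(2,715),(4,1086),(0,3)])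 (8,[(2,1515),(4,324),(0,19)]) (29,[(2,1723),(4,40),(1,20)]))) (.leaf false ⟨⟨-108,31,-12⟩,⟨-32,-108,9⟩,⟨-9,12,112⟩⟩ (5,[(1,300),(0,9),(2,628)]) (15,[(1,455),(0,8),(2,2316)]) (20,[(1,2360),(0,3),(2,21)]))) (.leaf false ⟨⟨-113,0,0⟩,⟨0,-113,0⟩,⟨0,0,-113⟩⟩ (1,[(2,113)]) (1,[(1,113)]) (1,[(0,113)]))))
theorem pf113_ok : pf113.check (ok 113 6 ⟨5, 5, 5⟩) (fun _ r => r) [] = true := by decide +kernel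

def pf119 : T := .node ⟨1,0,0⟩ (.node ⟨0,1,0⟩ (.node ⟨0,0,1⟩ (.node ⟨-54,3,106⟩ (.node ⟨18,114,-29⟩ (.node ⟨106,-3,54⟩ (.leaf false ⟨⟨-51,34,102⟩,⟨18,114,-29⟩,⟨106,-3,54⟩⟩ (18,[(3,34),(4,561),(2,17)]) (1,[(1,1)]) (1,[(0,1)])) (.leaf false ⟨⟨-114,18,-29⟩,⟨3,106,54⟩,⟨34,51,-102⟩⟩ (1,[(3,295),(5,522),(0,6)]) (3,[(3,5886),(5,11245),(0,106)]) (1,[(3,816),(5,1836),(0,17)]))) (.leaf false ⟨⟨-54,-29,102⟩,⟨3,114,34⟩,⟨106,-18,51⟩⟩ (29,[(4,270),(3,10787),(0,102)]) (29,[(4,699),(3,7182),(0,34)]) (29,[(4,3992),(3,5292),(0,51)]))) (.node ⟨102,-29,-54⟩ (.node ⟨3,106,-54⟩ (.leaf false ⟨⟨3,106,-54⟩,⟨34,51,102⟩,⟨114,-18,-29⟩⟩ (1,[(0,1)]) (3,[(3,360),(1,1),(4,182)]) (17,[(3,533),(1,19),(4,245)])) (.leaf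 false ⟨⟨-3,34,114⟩,⟨54,102,-29⟩,⟨106,-51,18⟩⟩ (433,[(2,30),(4,117950),(0,973)]) (866,[(2,943),(4,238077),(0,1386)]) (1299,[(2,2889),(4,589442),(0,6104)]))) (.leaf false ⟨⟨-110,45,-6⟩,⟨6,30,115⟩,⟨45,106,-30⟩⟩ (9,[(2,196),(1,10),(0,15)]) (30,[(2,9506),(1,77),(0,39)]) (60,[(2,44296),(1,577),(0,279)])))) (.node ⟨106,30,45⟩ (.node ⟨-30,115,-6⟩ (.leaf false ⟨⟨-30,115,-6⟩,⟨45,6,-110⟩,⟨106,30,45⟩⟩ (1,[(0,1)]) (5,[(2,595),(4,119),(1,1)]) (1,[(1,1)])) (.leaf false ⟨⟨3,34,-114⟩,⟨54,-102,-29⟩,⟨106,51,18⟩⟩ (10,[(2,1146),(0,1),(3,455)]) (5,[(2,199),(0,9),(3,525)]) (1,[(2,27),(1,1),(3,21)]))) (.leaf false ⟨⟨-83,54,-66⟩,⟨54,-38,-99⟩,⟨66,99,-2⟩⟩ (15,[(3,1087),(2,1470),(0,22)]) (5,[(3,1436),(2,140),(0,11)])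 (45,[(3,3182),(2,4515),(0,2)])))) (.node ⟨0,0,1⟩ (.node ⟨106,45,30⟩ (.node ⟨-30,-6,115⟩ (.leaf false ⟨⟨-30,-6,115⟩,⟨45,-110,6⟩,⟨106,45,30⟩⟩ (1,[(0,1)]) (5,[(1,1),(4,119),(3,595)]) (1,[(1,1)])) (.leaf false ⟨⟨3,-114,34⟩,⟨54,-29,-102⟩,⟨106,18,51⟩⟩ (10,[(2,455),(0,1),(3,1146)]) (5,[(2,525),(0,9),(3,199)]) (1,[(2,21),(1,1),(3,27)]))) (.leaf false ⟨⟨-83,-66,54⟩,⟨54,-99,-38⟩,⟨66,-2,99⟩⟩ (15,[(1,1470),(3,1087),(0,22)]) (5,[(1,140),(3,1436),(0,11)]) (45,[(1,4515),(3,3182),(0,2)]))) (.node ⟨-56,-105,0⟩ (.leaf false ⟨⟨-56,-105,0⟩,⟨0,0,-119⟩,⟨105,-56,0⟩⟩ (1,[(0,1)]) (1,[(1,119)]) (15,[(3,2023),(0,8)])) (.node ⟨84,-56,63⟩ (.leaf false ⟨⟨7,-84,-84⟩,⟨84,-56,63⟩,⟨84,63,-56⟩⟩ (8,[(2,672),(1,1),(3,777)])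 (1,[(0,1)]) (2,[(2,112),(1,3),(3,189)])) (.leaf false ⟨⟨-93,6,-74⟩,⟨34,-102,-51⟩,⟨66,61,-78⟩⟩ (504,[(1,51),(3,35483),(0,592)]) (84,[(1,153),(3,28441),(0,68)]) (84,[(1,255),(3,27475),(0,104)])))))) (.node ⟨0,1,0⟩ (.node ⟨0,0,1⟩ (.node ⟨45,30,106⟩ (.node ⟨-6,115,-30⟩ (.leaf false ⟨⟨-110,6,45⟩,⟨-6,115,-30⟩,⟨45,30,106⟩⟩ (5,[(2,119),(4,595),(1,1)]) (1,[(0,1)]) (1,[(1,1)])) (.leaf false ⟨⟨-114,34,3⟩,⟨-29,-102,54⟩,⟨18,51,106⟩⟩ (10,[(4,1146),(3,455),(0,1)]) (5,[(4,199),(3,525),(0,9)]) (1,[(4,27),(3,21),(1,1)]))) (.leaf false ⟨⟨-110,-45,6⟩,⟨-45,106,-30⟩,⟨-6,30,115⟩⟩ (9,[(1,2386),(0,22),(2,255)]) (1,[(1,76),(0,1),(2,136)]) (15,[(1,1937),(0,2),(2,510)]))) (.node ⟨0,-56,-105⟩ (.leaf false ⟨⟨-119,0,0⟩,⟨0,-56,-105⟩,⟨0,105,-56⟩⟩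 (1,[(3,119)]) (1,[(0,1)]) (15,[(0,8),(2,2023)])) (.node ⟨63,84,-56⟩ (.leaf false ⟨⟨-114,18,-29⟩,⟨3,106,54⟩,⟨34,51,-102⟩⟩ (14,[(2,238),(4,1785),(0,3)]) (84,[(2,11305),(1,153),(0,4)]) (28,[(2,1904),(4,119),(0,17)])) (.leaf false ⟨⟨-105,-56,0⟩,⟨-56,105,0⟩,⟨0,0,-119⟩⟩ (6,[(2,1505),(0,10),(1,9)]) (72,[(2,27839),(0,64),(1,231)]) (1,[(2,119)]))))) (.node ⟨0,0,1⟩ (.node ⟨0,-105,-56⟩ (.leaf false ⟨⟨-119,0,0⟩,⟨0,-105,-56⟩,⟨0,-56,105⟩⟩ (1,[(3,119)]) (1,[(0,1)]) (15,[(1,2023),(0,8)])) (.node ⟨63,-56,84⟩ (.leaf false ⟨⟨-114,-29,18⟩,⟨3,54,106⟩,⟨34,-102,51⟩⟩ (14,[(4,1785),(3,238),(0,3)]) (84,[(1,153),(3,11305),(0,4)]) (28,[(4,119),(3,1904),(0,17)])) (.leaf false ⟨⟨-105,0,-56⟩,⟨-56,0,105⟩,⟨0,-119,0⟩⟩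 (6,[(1,9),(0,10),(3,1505)]) (72,[(1,231),(0,64),(3,27839)]) (1,[(3,119)])))) (.leaf false ⟨⟨-119,0,0⟩,⟨0,-119,0⟩,⟨0,0,-119⟩⟩ (1,[(2,119)]) (1,[(1,119)]) (1,[(0,119)]))))
theorem pf119_ok : pf119.check (ok 119 6 ⟨5, 5, 5⟩) (fun _ r => r) [] = true := by decide +kernel


end H34S
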