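import Pool.Agent.Lib.H34S.Cover

/-!
# H34S: certificates (generated), pentagonal numbers
-/

set_option autoImplicit false

namespace H34S

def pf127 : T := .node ⟨1,0,0⟩ (.node ⟨0,1,0⟩ (.node ⟨0,0,1⟩ (.leaf false ⟨⟨0,0,127⟩,⟨0,127,0⟩,⟨127,0,0⟩⟩ (1,[(0,127)]) (1,[(1,127)]) (1,[(2,127)])) (.node ⟨-75,30,-98⟩ (.node ⟨10,123,30⟩ (.leaf false ⟨⟨-75,30,-98⟩,⟨10,123,30⟩,⟨102,10,-75⟩⟩ (1,[(1,1)]) (1,[(0,1)]) (3,[(2,127),(4,381),(1,1)])) (.leaf false ⟨⟨-66,-18,-107⟩,⟨37,114,-42⟩,⟨102,-53,-54⟩⟩ (4318,[(4,47117),(1,4207),(0,1658)]) (7,[(4,484),(3,708),(1,3)]) (5,[(4,600),(3,842),(0,9)]))) (.leaf false ⟨⟨10,123,-30⟩,⟨75,-30,-98⟩,⟨102,10,75⟩⟩ (15,[(1,646),(0,2),(2,1905)]) (1,[(1,196),(0,1)]) (25,[(1,1457),(0,34),(2,1270)])))) (.node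 ⟨0,0,1⟩ (.node ⟨-75,-98,30⟩ (.node ⟨10,30,123⟩ (.leaf false ⟨⟨-75,-98,30⟩,⟨10,30,123⟩,⟨102,-75,10⟩⟩ (1,[(1,1)]) (1,[(0,1)]) (3,[(4,381),(3,127),(1,1)])) (.leaf false ⟨⟨-66,-107,-18⟩,⟨37,-42,114⟩,⟨102,-54,-53⟩⟩ (4318,[(4,47117),(0,1658),(1,4207)]) (7,[(2,708),(4,484),(1,3)]) (5,[(2,842),(4,600),(0,9)]))) (.leaf false ⟨⟨10,-30,123⟩,⟨75,-98,-30⟩,⟨102,75,10⟩⟩ (15,[(1,1905),(0,2),(2,646)]) (1,[(0,1),(2,196)]) (25,[(1,1270),(0,34),(2,1457)]))) (.node ⟨117,-18,46⟩ (.node ⟨-18,-123,-26⟩ (.node ⟨46,18,-117⟩ (.leaf false ⟨⟨-18,-123,-26⟩,⟨46,18,-117⟩,⟨117,-26,42⟩⟩ (1,[(1,1)]) (1,[(0,1)]) (1,[(3,4),(2,1),(4,8)])) (.leaf false ⟨⟨-114,-53,-18⟩,⟨37,-102,66⟩,⟨42,-54,-107⟩⟩ (18,[(3,6525),(5,386),(0,53)]) (3,[(3,1791),(5,893),(0,17)])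 (1,[(3,458),(5,180),(0,3)]))) (.leaf false ⟨⟨21,78,-98⟩,⟨42,-98,-69⟩,⟨118,21,42⟩⟩ (6,[(2,770),(0,7),(3,393)]) (3,[(2,389),(0,7),(3,1155)]) (9,[(2,1156),(0,59),(3,7068)]))) (.leaf false ⟨⟨-102,-54,-53⟩,⟨37,42,-114⟩,⟨66,-107,-18⟩⟩ (46,[(3,1509),(2,3438),(0,53)]) (23,[(3,7520),(2,60),(0,57)]) (23,[(3,2571),(2,2623),(0,9)]))))) (.node ⟨0,1,0⟩ (.node ⟨0,0,1⟩ (.node ⟨-98,-75,30⟩ (.node ⟨30,10,123⟩ (.leaf false ⟨⟨-98,-75,30⟩,⟨-75,102,10⟩,⟨30,10,123⟩⟩ (1,[(1,1)]) (3,[(1,1),(4,127),(3,381)]) (1,[(0,1)])) (.leaf false ⟨⟨-107,-66,-18⟩,⟨-54,102,-53⟩,⟨-42,37,114⟩⟩ (4318,[(1,4207),(0,1658),(3,47117)]) (5,[(2,842),(0,9),(3,600)]) (7,[(2,708),(1,3),(3,484)]))) (.leaf false ⟨⟨-98,75,-30⟩,⟨-30,10,123⟩,⟨75,102,10⟩⟩ (1,[(3,196),(0,1)]) (15,[(1,1905),(3,646),(0,2)])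 (25,[(1,1270),(3,1457),(0,34)]))) (.node ⟨-18,117,46⟩ (.node ⟨-123,-18,-26⟩ (.node ⟨18,46,-117⟩ (.leaf false ⟨⟨-123,-18,-26⟩,⟨-26,117,42⟩,⟨18,46,-117⟩⟩ (1,[(1,1)]) (1,[(3,4),(5,8),(2,1)]) (1,[(0,1)])) (.leaf false ⟨⟨-123,-26,18⟩,⟨-26,42,-117⟩,⟨-18,117,46⟩⟩ (6,[(3,4689),(0,41),(4,1730)]) (9,[(3,2574),(0,13),(4,976)]) (1,[(3,71),(0,1),(4,163)]))) (.leaf false ⟨⟨-98,42,-69⟩,⟨21,118,42⟩,⟨78,21,-98⟩⟩ (3,[(2,389),(4,1155),(0,7)]) (9,[(2,1156),(4,7068),(0,59)]) (6,[(2,770),(4,393),(0,7)]))) (.leaf false ⟨⟨-123,10,-30⟩,⟨10,-102,-75⟩,⟨30,75,-98⟩⟩ (23,[(3,3099),(2,1985),(0,15)]) (46,[(3,890),(2,4083),(0,75)]) (23,[(3,192),(2,7458),(0,49)])))) (.node ⟨0,0,1⟩ (.node ⟨-18,46,117⟩ (.node ⟨-123,-26,-18⟩ (.node ⟨18,-117,46⟩ (.leaf false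 ⟨⟨-123,-26,-18⟩,⟨-26,42,117⟩,⟨18,-117,46⟩⟩ (1,[(1,1)]) (1,[(2,1),(5,8),(4,4)]) (1,[(0,1)])) (.leaf false ⟨⟨-123,18,-26⟩,⟨-26,-117,42⟩,⟨-18,46,117⟩⟩ (6,[(3,1730),(0,41),(4,4689)]) (9,[(3,976),(0,13),(4,2574)]) (1,[(3,163),(0,1),(4,71)]))) (.leaf false ⟨⟨-98,-69,42⟩,⟨21,42,118⟩,⟨78,-98,21⟩⟩ (3,[(4,1155),(3,389),(0,7)]) (9,[(4,7068),(3,1156),(0,59)]) (6,[(4,393),(3,770),(0,7)]))) (.leaf false ⟨⟨-123,-30,10⟩,⟨10,-75,-102⟩,⟨30,-98,75⟩⟩ (23,[(1,1985),(3,3099),(0,15)]) (46,[(1,4083),(3,890),(0,75)]) (23,[(1,7458),(3,192),(0,49)]))) (.node ⟨-18,66,-107⟩ (.node ⟨-114,-42,37⟩ (.node ⟨18,-107,-66⟩ (.leaf false ⟨⟨-114,-42,37⟩,⟨-53,54,-102⟩,⟨18,-107,-66⟩⟩ (1,[(1,1)]) (11,[(3,159),(2,9),(5,421)]) (1,[(0,1)])) (.leaf false ⟨⟨-117,-18,46⟩,⟨-42,-26,-117⟩,⟨-26,123,-18⟩⟩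 (2,[(3,766),(0,13),(4,1427)]) (3,[(3,813),(0,7),(4,827)]) (9,[(3,1020),(0,13),(4,284)]))) (.leaf false ⟨⟨-123,10,-30⟩,⟨10,-102,-75⟩,⟨30,75,-98⟩⟩ (37,[(4,7971),(3,890),(0,30)]) (37,[(4,8180),(3,6924),(0,75)]) (37,[(4,10062),(3,1341),(0,98)]))) (.node ⟨30,-98,75⟩ (.leaf false ⟨⟨-123,-30,10⟩,⟨10,-75,-102⟩,⟨30,-98,75⟩⟩ (11,[(2,425),(4,1443),(1,5)]) (22,[(2,4919),(4,230),(1,25)]) (1,[(0,1)])) (.leaf false ⟨⟨-123,-26,-18⟩,⟨-26,42,117⟩,⟨18,-117,46⟩⟩ (12,[(2,40732),(0,477),(1,713)]) (27,[(2,5068),(0,120),(1,161)]) (12,[(2,6002),(0,51),(1,97)]))))))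
theorem pf127_ok : pf127.check (ok 127 6 ⟨5, 5, 5⟩) (fun _ r => r) [] = true := by decide +kernel

def pf131 : T := .node ⟨1,0,0⟩ (.node ⟨0,1,0⟩ (.node ⟨0,0,1⟩ (.node ⟨-81,42,94⟩ (.node ⟨49,114,-42⟩ (.node ⟨102,-14,81⟩ (.leaf false ⟨⟨-66,63,94⟩,⟨49,114,-42⟩,⟨102,-14,81⟩⟩ (1,[(5,15),(4,21),(2,1)]) (1,[(1,1)]) (1,[(0,1)])) (.leaf false ⟨⟨-129,22,6⟩,⟨6,66,-113⟩,⟨22,111,66⟩⟩ (7,[(3,933),(5,219),(0,11)]) (7,[(3,1882),(5,3408),(0,33)]) (14,[(3,9915),(5,11630),(0,111)]))) (.leaf false ⟨⟨-95,-6,90⟩,⟨6,130,15⟩,⟨90,-15,94⟩⟩ (7,[(4,70),(3,1668),(0,15)]) (14,[(4,329),(3,2390),(0,5)]) (21,[(4,4193),(3,5043),(0,47)]))) (.leaf false ⟨⟨15,130,6⟩,⟨90,-6,-95⟩,⟨94,-15,90⟩⟩ (27,[(1,632),(0,5),(2,3720)]) (9,[(1,85),(0,10),(2,366)]) (81,[(1,16126),(0,94),(2,2733)])))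 (.node ⟨-33,126,-14⟩ (.node ⟨126,-33,-14⟩ (.node ⟨-14,-18,-129⟩ (.leaf false ⟨⟨-33,126,-14⟩,⟨-14,-18,-129⟩,⟨126,31,-18⟩⟩ (1,[(2,1)]) (1,[(0,1)]) (43,[(5,5502),(4,1441),(0,6)])) (.leaf false ⟨⟨-15,130,-6⟩,⟨90,6,-95⟩,⟨94,15,90⟩⟩ (1179,[(3,147244),(0,1200),(2,1045)]) (455,[(3,119750),(1,256),(0,621)]) (35,[(3,4840),(1,19),(0,64)]))) (.leaf false ⟨⟨-113,66,6⟩,⟨6,22,-129⟩,⟨66,111,22⟩⟩ (1,[(2,22),(4,139),(0,2)]) (3,[(2,415),(4,270),(0,2)]) (11,[(2,276),(4,5388),(0,37)]))) (.leaf false ⟨⟨18,129,-14⟩,⟨31,-18,-126⟩,⟨126,-14,33⟩⟩ (11,[(1,238),(0,6),(2,2175)]) (33,[(1,4592),(0,31),(2,3312)]) (11,[(1,225),(0,42),(2,5138)])))) (.node ⟨0,0,1⟩ (.node ⟨-33,-14,126⟩ (.node ⟨126,-14,-33⟩ (.node ⟨-14,-129,-18⟩ (.leaf false ⟨⟨-33,-14,126⟩,⟨-14,-129,-18⟩,⟨126,-18,31⟩⟩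 (1,[(2,1)]) (1,[(0,1)]) (43,[(3,1441),(5,5502),(0,6)])) (.leaf false ⟨⟨-15,-6,130⟩,⟨90,-95,6⟩,⟨94,90,15⟩⟩ (1179,[(4,147244),(2,1045),(0,1200)]) (455,[(1,256),(4,119750),(0,621)]) (35,[(1,19),(4,4840),(0,64)]))) (.leaf false ⟨⟨-113,6,66⟩,⟨6,-129,22⟩,⟨66,22,111⟩⟩ (1,[(4,139),(3,22),(0,2)]) (3,[(4,270),(3,415),(0,2)]) (11,[(4,5388),(3,276),(0,37)]))) (.leaf false ⟨⟨18,-14,129⟩,⟨31,-126,-18⟩,⟨126,33,-14⟩⟩ (11,[(1,2175),(0,6),(2,238)]) (33,[(1,3312),(0,31),(2,4592)]) (11,[(1,5138),(0,42),(2,225)]))) (.node ⟨22,66,-111⟩ (.node ⟨129,-6,22⟩ (.leaf false ⟨⟨6,-113,-66⟩,⟨22,66,-111⟩,⟨129,-6,22⟩⟩ (11,[(2,393),(1,3),(3,1441)]) (1,[(1,1)]) (1,[(0,1)])) (.leaf false ⟨⟨-126,-14,-33⟩,⟨18,-129,-14⟩,⟨31,18,-126⟩⟩ (2,[(4,135),(3,46),(0,3)])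 (11,[(4,1101),(3,1461),(0,7)]) (37,[(1,42),(4,223),(3,2106)]))) (.node ⟨130,-6,15⟩ (.leaf false ⟨⟨-15,-90,94⟩,⟨6,-95,-90⟩,⟨130,-6,15⟩⟩ (11,[(2,631),(4,165),(1,15)]) (66,[(2,16485),(4,2486),(1,95)]) (1,[(0,1)])) (.leaf false ⟨⟨-129,-14,18⟩,⟨-14,-33,-126⟩,⟨18,-126,31⟩⟩ (54,[(4,1338),(1,17),(0,61)]) (36,[(4,175584),(1,139),(0,1331)]) (27,[(4,132960),(1,142),(0,995)])))))) (.node ⟨0,1,0⟩ (.node ⟨0,0,1⟩ (.node ⟨-14,126,-33⟩ (.node ⟨-14,-33,126⟩ (.node ⟨-129,-18,-14⟩ (.leaf false ⟨⟨-129,-18,-14⟩,⟨-18,31,126⟩,⟨-14,126,-33⟩⟩ (1,[(0,1)]) (43,[(3,5502),(0,6),(4,1441)]) (1,[(2,1)])) (.leaf false ⟨⟨-95,6,90⟩,⟨-6,130,-15⟩,⟨90,15,94⟩⟩ (455,[(1,256),(5,119750),(0,621)]) (1179,[(5,147244),(2,1045),(0,1200)]) (35,[(1,19),(5,4840),(0,64)])))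 (.leaf false ⟨⟨-129,22,6⟩,⟨6,66,-113⟩,⟨22,111,66⟩⟩ (3,[(2,270),(4,415),(0,2)]) (1,[(2,139),(4,22),(0,2)]) (11,[(2,5388),(4,276),(0,37)]))) (.leaf false ⟨⟨-129,6,22⟩,⟨6,-113,66⟩,⟨22,66,111⟩⟩ (3,[(3,415),(2,270),(0,2)]) (1,[(3,22),(2,139),(0,2)]) (11,[(3,276),(2,5388),(0,37)]))) (.node ⟨66,22,-111⟩ (.node ⟨-6,129,22⟩ (.leaf false ⟨⟨-113,6,-66⟩,⟨-6,129,22⟩,⟨66,22,-111⟩⟩ (11,[(2,393),(4,1441),(1,3)]) (1,[(0,1)]) (1,[(1,1)])) (.leaf false ⟨⟨-129,18,-14⟩,⟨-14,-126,-33⟩,⟨18,31,-126⟩⟩ (11,[(4,1461),(3,1101),(0,7)]) (2,[(4,46),(3,135),(0,3)]) (37,[(4,2106),(3,223),(1,42)]))) (.node ⟨-6,130,15⟩ (.leaf false ⟨⟨-95,6,-90⟩,⟨-90,-15,94⟩,⟨-6,130,15⟩⟩ (66,[(2,16485),(1,95),(3,2486)]) (11,[(2,631),(1,15),(3,165)]) (1,[(0,1)])) (.leaf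 false ⟨⟨-129,18,-14⟩,⟨-14,-126,-33⟩,⟨18,31,-126⟩⟩ (108,[(1,673),(3,677280),(0,5081)]) (27,[(1,34),(3,37776),(0,311)]) (2,[(1,3),(3,5198),(0,39)]))))) (.node ⟨0,0,1⟩ (.node ⟨66,-111,22⟩ (.node ⟨-6,22,129⟩ (.leaf false ⟨⟨-113,-66,6⟩,⟨-6,22,129⟩,⟨66,-111,22⟩⟩ (11,[(4,1441),(3,393),(1,3)]) (1,[(0,1)]) (1,[(1,1)])) (.leaf false ⟨⟨-129,-14,18⟩,⟨-14,-33,-126⟩,⟨18,-126,31⟩⟩ (11,[(2,1101),(4,1461),(0,7)]) (2,[(2,135),(4,46),(0,3)]) (37,[(2,223),(4,2106),(1,42)]))) (.node ⟨-6,15,130⟩ (.leaf false ⟨⟨-95,-90,6⟩,⟨-90,94,-15⟩,⟨-6,15,130⟩⟩ (66,[(2,2486),(1,95),(3,16485)]) (11,[(2,165),(1,15),(3,631)]) (1,[(0,1)])) (.leaf false ⟨⟨-129,-14,18⟩,⟨-14,-33,-126⟩,⟨18,-126,31⟩⟩ (108,[(2,677280),(1,673),(0,5081)]) (27,[(2,37776),(1,34),(0,311)])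 (2,[(2,5198),(1,3),(0,39)])))) (.leaf false ⟨⟨-131,0,0⟩,⟨0,-131,0⟩,⟨0,0,-131⟩⟩ (1,[(2,131)]) (1,[(1,131)]) (1,[(0,131)]))))
theorem pf131_ok : pf131.check (ok 131 6 ⟨5, 5, 5⟩) (fun _ r => r) [] = true := by decide +kernel

def pf133 : T := .node ⟨1,0,0⟩ (.node ⟨0,1,0⟩ (.node ⟨0,0,1⟩ (.leaf false ⟨⟨0,0,133⟩,⟨0,133,0⟩,⟨133,0,0⟩⟩ (1,[(0,133)]) (1,[(1,133)]) (1,[(2,133)])) (.node ⟨-48,16,-123⟩ (.node ⟨7,126,42⟩ (.leaf false ⟨⟨-48,16,-123⟩,⟨3,132,16⟩,⟨124,3,-48⟩⟩ (1,[(1,1)]) (440,[(2,7315),(0,456),(1,39)]) (16,[(2,399),(4,2128),(1,3)])) (.node ⟨93,-92,-24⟩ (.leaf false ⟨⟨-36,-3,-128⟩,⟨88,96,-27⟩,⟨93,-92,-24⟩⟩ (105,[(4,18445),(2,56),(1,156)]) (14,[(5,1295),(4,2478),(1,9)]) (1,[(0,1)])) (.leaf false ⟨⟨-128,27,-24⟩,⟨-3,-96,-92⟩,⟨36,88,-93⟩⟩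 (20,[(5,7123),(0,99),(1,68)]) (3,[(5,2656),(0,27),(1,22)]) (20,[(5,36629),(0,367),(1,254)])))) (.node ⟨96,-92,3⟩ (.leaf false ⟨⟨3,16,-132⟩,⟨48,123,16⟩,⟨124,-48,-3⟩⟩ (16,[(2,2235),(1,1),(3,272)]) (1,[(2,107),(1,1),(3,139)]) (24,[(2,165),(0,31),(3,1700)])) (.leaf false ⟨⟨-92,96,3⟩,⟨24,27,-128⟩,⟨93,88,36⟩⟩ (180,[(2,4653),(1,47),(0,196)]) (12,[(2,3975),(1,20),(0,7)]) (240,[(2,164223),(1,1417),(0,476)]))))) (.node ⟨0,0,1⟩ (.node ⟨-48,-123,16⟩ (.node ⟨7,42,126⟩ (.leaf false ⟨⟨-48,-123,16⟩,⟨3,16,132⟩,⟨124,-48,3⟩⟩ (1,[(1,1)]) (1155,[(4,7315),(1,252),(0,1178)]) (16,[(4,2128),(3,399),(1,3)])) (.node ⟨93,-24,-92⟩ (.leaf false ⟨⟨-36,-128,-3⟩,⟨88,-27,96⟩,⟨93,-24,-92⟩⟩ (105,[(3,18445),(1,156),(2,56)]) (14,[(3,2478),(5,1295),(1,9)])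 (1,[(0,1)])) (.leaf false ⟨⟨-128,-24,27⟩,⟨-3,-92,-96⟩,⟨36,-93,88⟩⟩ (20,[(5,7123),(1,68),(0,99)]) (3,[(5,2656),(1,22),(0,27)]) (20,[(5,36629),(1,254),(0,367)])))) (.node ⟨96,3,-92⟩ (.leaf false ⟨⟨3,-132,16⟩,⟨48,16,123⟩,⟨124,-3,-48⟩⟩ (16,[(2,272),(1,1),(3,2235)]) (1,[(2,139),(1,1),(3,107)]) (24,[(2,1700),(0,31),(3,165)])) (.leaf false ⟨⟨-92,3,96⟩,⟨24,-128,27⟩,⟨93,36,88⟩⟩ (180,[(1,47),(3,4653),(0,196)]) (12,[(1,20),(3,3975),(0,7)]) (240,[(1,1417),(3,164223),(0,476)])))) (.node ⟨-12,-132,-11⟩ (.node ⟨-11,12,-132⟩ (.leaf false ⟨⟨-12,-132,-11⟩,⟨-11,12,-132⟩,⟨132,-11,-12⟩⟩ (1,[(1,1)]) (1,[(0,1)]) (11,[(4,1463),(3,133),(0,1)])) (.node ⟨-27,-128,-24⟩ (.leaf false ⟨⟨-27,-128,-24⟩,⟨88,-36,93⟩,⟨96,-3,-92⟩⟩ (1,[(0,1)]) (1,[(3,303),(5,55),(1,3)])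 (4,[(3,500),(5,373),(1,1)])) (.leaf false ⟨⟨3,-132,16⟩,⟨48,16,123⟩,⟨124,-3,-48⟩⟩ (133,[(3,18354),(1,165),(2,118)]) (433,[(3,139749),(0,188),(1,1428)]) (2028,[(3,315557),(0,16404),(2,15953)])))) (.leaf false ⟨⟨3,16,-132⟩,⟨48,123,16⟩,⟨124,-48,-3⟩⟩ (4,[(1,539),(0,1),(2,68)]) (1,[(1,28),(0,4),(2,405)]) (3,[(1,350),(0,31),(2,4236)]))))) (.node ⟨0,1,0⟩ (.node ⟨0,0,1⟩ (.node ⟨-123,-48,16⟩ (.node ⟨42,7,126⟩ (.leaf false ⟨⟨-123,-48,16⟩,⟨-48,124,3⟩,⟨16,3,132⟩⟩ (1,[(1,1)]) (16,[(1,3),(4,399),(3,2128)]) (440,[(1,39),(4,7315),(0,456)])) (.node ⟨-24,93,-92⟩ (.leaf false ⟨⟨-128,-36,-3⟩,⟨-27,88,96⟩,⟨-24,93,-92⟩⟩ (105,[(3,18445),(2,56),(1,156)]) (14,[(3,2478),(1,9),(4,1295)]) (1,[(0,1)])) (.leaf false ⟨⟨-132,-3,16⟩,⟨3,124,48⟩,⟨16,-48,123⟩⟩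 (35,[(1,522),(4,70602),(0,721)]) (140,[(1,146),(4,43771),(0,273)]) (84,[(1,148),(4,26299),(0,315)])))) (.node ⟨3,96,-92⟩ (.leaf false ⟨⟨-132,3,16⟩,⟨-3,124,-48⟩,⟨16,48,123⟩⟩ (16,[(2,272),(4,2235),(1,1)]) (24,[(2,1700),(4,165),(0,31)]) (1,[(2,139),(4,107),(1,1)])) (.leaf false ⟨⟨-132,-3,16⟩,⟨3,124,48⟩,⟨16,-48,123⟩⟩ (16,[(4,2961),(1,7),(0,4)]) (180,[(4,121779),(1,1001),(0,268)]) (60,[(4,17661),(1,154),(0,107)])))) (.node ⟨-132,-12,-11⟩ (.node ⟨12,-11,-132⟩ (.leaf false ⟨⟨-132,-12,-11⟩,⟨-11,132,-12⟩,⟨12,-11,-132⟩⟩ (1,[(1,1)]) (11,[(4,133),(3,1463),(0,1)]) (1,[(0,1)])) (.node ⟨-128,-27,-24⟩ (.leaf false ⟨⟨-128,-27,-24⟩,⟨-36,88,93⟩,⟨-3,96,-92⟩⟩ (1,[(0,1)]) (1,[(3,303),(1,3),(4,55)]) (4,[(3,500),(1,1),(4,373)])) (.leaf false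 ⟨⟨-132,3,16⟩,⟨-3,124,-48⟩,⟨16,48,123⟩⟩ (133,[(3,18354),(2,118),(1,165)]) (2028,[(3,315557),(2,15953),(0,16404)]) (433,[(3,139749),(1,1428),(0,188)])))) (.leaf false ⟨⟨-117,52,-36⟩,⟨36,117,52⟩,⟨52,36,-117⟩⟩ (3,[(1,251),(3,2067),(0,13)]) (4,[(1,221),(3,5004),(0,39)]) (1,[(1,150),(3,344),(0,3)])))) (.node ⟨0,0,1⟩ (.node ⟨-132,-11,-12⟩ (.node ⟨12,-132,-11⟩ (.leaf false ⟨⟨-132,-11,-12⟩,⟨-11,-12,132⟩,⟨12,-132,-11⟩⟩ (1,[(1,1)]) (11,[(2,1463),(4,133),(0,1)]) (1,[(0,1)])) (.node ⟨-128,-24,-27⟩ (.leaf false ⟨⟨-128,-24,-27⟩,⟨-36,93,88⟩,⟨-3,-92,96⟩⟩ (1,[(0,1)]) (1,[(3,55),(1,3),(4,303)]) (4,[(3,373),(1,1),(4,500)])) (.leaf false ⟨⟨-132,-3,16⟩,⟨3,124,48⟩,⟨16,-48,123⟩⟩ (19,[(1,44),(2,15),(4,5700)]) (1732,[(1,6063),(4,600164),(0,609)])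 (169,[(2,1276),(4,26164),(0,1337)])))) (.leaf false ⟨⟨-117,-36,52⟩,⟨36,52,117⟩,⟨52,-117,36⟩⟩ (3,[(3,2067),(2,251),(0,13)]) (4,[(3,5004),(2,221),(0,39)]) (1,[(3,344),(2,150),(0,3)]))) (.node ⟨-60,75,-92⟩ (.node ⟨-117,-20,60⟩ (.leaf false ⟨⟨-117,-20,60⟩,⟨-60,75,-92⟩,⟨-20,-108,-75⟩⟩ (1,[(0,1)]) (1,[(1,1)]) (3,[(2,133),(1,1),(3,399)])) (.leaf false ⟨⟨-126,7,-42⟩,⟨7,-126,-42⟩,⟨42,42,-119⟩⟩ (10,[(4,2079),(3,70),(0,7)]) (10,[(4,749),(3,1400),(0,7)]) (684,[(1,543),(3,22477),(0,524)]))) (.leaf false ⟨⟨-128,-24,27⟩,⟨-3,-92,-96⟩,⟨36,-93,88⟩⟩ (25,[(1,61),(3,3680),(0,8)]) (75,[(1,15664),(3,5745),(0,92)]) (25,[(1,652),(3,960),(0,31)])))))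
theorem pf133_ok : pf133.check (ok 133 6 ⟨5, 5, 5⟩) (fun _ r => r) [] = true := by decide +kernel

def pf137 : T := .node ⟨1,0,0⟩ (.node ⟨0,1,0⟩ (.node ⟨0,0,1⟩ (.node ⟨-92,57,84⟩ (.node ⟨33,124,-48⟩ (.leaf false ⟨⟨-92,57,84⟩,⟨33,124,-48⟩,⟨96,12,97⟩⟩ (1,[(1,1)]) (1,[(0,1)]) (19,[(2,1507),(4,2192),(1,4)])) (.leaf false ⟨⟨-92,33,96⟩,⟨57,124,12⟩,⟨84,-48,97⟩⟩ (1096,[(4,10001),(1,1124),(0,225)]) (4,[(4,261),(3,620),(0,1)]) (48,[(4,7233),(3,9724),(0,97)]))) (.node ⟨96,33,-92⟩ (.leaf false ⟨⟨12,124,57⟩,⟨96,33,-92⟩,⟨97,-48,84⟩⟩ (8,[(2,548),(0,1),(3,959)]) (1,[(0,1)]) (92,[(2,15876),(1,97),(3,1113)])) (.leaf false ⟨⟨-92,33,96⟩,⟨57,124,12⟩,⟨84,-48,97⟩⟩ (25,[(1,47),(3,5781),(0,69)]) (100,[(1,1599),(3,152152),(0,1473)]) (20,[(1,852),(3,73971),(0,799)]))))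 (.node ⟨-65,120,-12⟩ (.node ⟨-65,-12,-120⟩ (.node ⟨120,-20,-63⟩ (.leaf false ⟨⟨-65,-12,-120⟩,⟨12,135,-20⟩,⟨120,-20,-63⟩⟩ (1,[(1,1)]) (6,[(5,137),(4,822),(1,1)]) (1,[(0,1)])) (.leaf false ⟨⟨-132,16,-33⟩,⟨7,132,36⟩,⟨36,33,-128⟩⟩ (137,[(5,14111),(0,193),(1,139)]) (137,[(5,196184),(0,1284),(1,633)]) (1644,[(5,1020239),(0,5496),(1,4639)]))) (.leaf false ⟨⟨-56,108,-63⟩,⟨63,84,88⟩,⟨108,7,-84⟩⟩ (10,[(2,522),(4,25),(1,9)]) (303,[(4,15644),(0,241),(1,188)]) (12,[(2,1848),(4,841),(0,7)]))) (.leaf false ⟨⟨0,0,-137⟩,⟨88,-105,0⟩,⟨105,88,0⟩⟩ (1,[(1,137)]) (65,[(1,1056),(0,88),(2,3735)]) (13,[(1,252),(0,21),(2,3664)])))) (.node ⟨0,0,1⟩ (.node ⟨-65,-12,120⟩ (.node ⟨-65,-120,-12⟩ (.node ⟨120,-63,-20⟩ (.leaf false ⟨⟨-65,-120,-12⟩,⟨12,-20,135⟩,⟨120,-63,-20⟩⟩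 (1,[(1,1)]) (6,[(3,822),(5,137),(1,1)]) (1,[(0,1)])) (.leaf false ⟨⟨-132,-33,16⟩,⟨7,36,132⟩,⟨36,-128,33⟩⟩ (137,[(5,14111),(1,139),(0,193)]) (137,[(5,196184),(1,633),(0,1284)]) (1644,[(5,1020239),(1,4639),(0,5496)]))) (.leaf false ⟨⟨-56,-63,108⟩,⟨63,88,84⟩,⟨108,-84,7⟩⟩ (10,[(4,25),(3,522),(1,9)]) (303,[(4,15644),(1,188),(0,241)]) (12,[(4,841),(3,1848),(0,7)]))) (.leaf false ⟨⟨0,-137,0⟩,⟨88,0,-105⟩,⟨105,0,88⟩⟩ (1,[(2,137)]) (65,[(1,3735),(0,88),(2,1056)]) (13,[(1,3664),(0,21),(2,252)]))) (.node ⟨105,0,88⟩ (.leaf false ⟨⟨0,-137,0⟩,⟨88,0,-105⟩,⟨105,0,88⟩⟩ (1,[(2,137)]) (105,[(1,18769),(0,88)]) (1,[(0,1)])) (.node ⟨-36,33,-128⟩ (.node ⟨132,-36,7⟩ (.leaf false ⟨⟨-33,-128,-36⟩,⟨16,33,-132⟩,⟨132,-36,7⟩⟩ (22,[(5,219),(4,2816),(2,9)])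 (22,[(5,1249),(2,1),(1,22)]) (1,[(0,1)])) (.leaf false ⟨⟨-132,7,-36⟩,⟨16,132,-33⟩,⟨33,-36,-128⟩⟩ (7,[(5,3828),(4,1247),(0,36)]) (7,[(5,4468),(4,264),(0,33)]) (7,[(5,17127),(4,4860),(0,128)]))) (.leaf false ⟨⟨-128,-48,9⟩,⟨9,-48,-128⟩,⟨48,-119,48⟩⟩ (968,[(4,30053),(0,1408),(1,1949)]) (121,[(4,40113),(0,176),(1,432)]) (363,[(4,149430),(0,1309),(1,1706)])))))) (.node ⟨0,1,0⟩ (.node ⟨0,0,1⟩ (.node ⟨-12,120,-65⟩ (.node ⟨-120,-12,-65⟩ (.node ⟨-63,-20,120⟩ (.leaf false ⟨⟨-120,-12,-65⟩,⟨-63,-20,120⟩,⟨-20,135,12⟩⟩ (1,[(1,1)]) (1,[(0,1)]) (6,[(3,137),(1,1),(4,822)])) (.leaf false ⟨⟨-137,0,0⟩,⟨0,88,-105⟩,⟨0,105,88⟩⟩ (3,[(3,685),(1,5),(0,3)]) (137,[(3,121245),(1,462),(0,880)]) (548,[(3,695549),(1,2205),(0,4200)]))) (.leaf false ⟨⟨-84,7,108⟩,⟨-63,108,-56⟩,⟨88,84,63⟩⟩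 (12,[(2,841),(4,1848),(0,7)]) (10,[(2,25),(4,522),(1,9)]) (303,[(2,15644),(1,188),(0,241)]))) (.leaf false ⟨⟨-137,0,0⟩,⟨0,-105,88⟩,⟨0,88,105⟩⟩ (1,[(3,137)]) (65,[(3,1056),(2,3735),(0,88)]) (13,[(3,252),(2,3664),(0,21)]))) (.node ⟨0,105,88⟩ (.leaf false ⟨⟨-137,0,0⟩,⟨0,88,-105⟩,⟨0,105,88⟩⟩ (1,[(3,137)]) (105,[(1,18769),(0,88)]) (1,[(0,1)])) (.node ⟨33,-36,-128⟩ (.node ⟨-36,132,7⟩ (.leaf false ⟨⟨-128,-33,-36⟩,⟨-36,132,7⟩,⟨33,16,-132⟩⟩ (22,[(2,9),(5,2816),(4,219)]) (1,[(0,1)]) (22,[(2,1),(4,1249),(1,22)])) (.leaf false ⟨⟨-132,7,-36⟩,⟨16,132,-33⟩,⟨33,-36,-128⟩⟩ (7,[(5,2220),(4,4801),(0,36)]) (7,[(5,1076),(4,5280),(0,33)]) (7,[(5,4377),(4,16644),(0,128)]))) (.leaf false ⟨⟨-128,-36,33⟩,⟨-36,7,-132⟩,⟨-33,132,16⟩⟩ (2904,[(1,15295),(0,11264),(3,1095927)])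 (242,[(1,747),(0,264),(3,70625)]) (11,[(1,14),(0,11),(3,2526)]))))) (.node ⟨0,0,1⟩ (.node ⟨0,88,105⟩ (.leaf false ⟨⟨-137,0,0⟩,⟨0,-105,88⟩,⟨0,88,105⟩⟩ (1,[(3,137)]) (105,[(0,88),(2,18769)]) (1,[(0,1)])) (.node ⟨33,-128,-36⟩ (.node ⟨-36,7,132⟩ (.leaf false ⟨⟨-128,-36,-33⟩,⟨-36,7,132⟩,⟨33,-132,16⟩⟩ (22,[(3,219),(5,2816),(2,9)]) (1,[(0,1)]) (22,[(3,1249),(2,1),(1,22)])) (.leaf false ⟨⟨-132,-36,7⟩,⟨16,-33,132⟩,⟨33,-128,-36⟩⟩ (7,[(3,4801),(5,2220),(0,36)]) (7,[(3,5280),(5,1076),(0,33)]) (7,[(3,16644),(5,4377),(0,128)]))) (.leaf false ⟨⟨-128,33,-36⟩,⟨-36,-132,7⟩,⟨-33,16,132⟩⟩ (2904,[(2,1095927),(0,11264),(1,15295)]) (242,[(2,70625),(0,264),(1,747)]) (11,[(2,2526),(0,11),(1,14)])))) (.leaf false ⟨⟨-137,0,0⟩,⟨0,-137,0⟩,⟨0,0,-137⟩⟩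 (1,[(2,137)]) (1,[(1,137)]) (1,[(0,137)]))))
theorem pf137_ok : pf137.check (ok 137 6 ⟨5, 5, 5⟩) (fun _ r => r) [] = true := by decide +kernel

def pf139 : T := .node ⟨1,0,0⟩ (.node ⟨0,1,0⟩ (.node ⟨0,0,1⟩ (.leaf false ⟨⟨0,0,139⟩,⟨0,139,0⟩,⟨139,0,0⟩⟩ (1,[(0,139)]) (1,[(1,139)]) (1,[(2,139)])) (.node ⟨-86,87,-66⟩ (.node ⟨121,54,42⟩ (.node ⟨54,-23,-126⟩ (.leaf false ⟨⟨-42,126,-41⟩,⟨54,-23,-126⟩,⟨121,54,42⟩⟩ (43,[(3,377),(4,3591),(2,21)]) (1,[(0,1)]) (1,[(1,1)])) (.leaf false ⟨⟨-122,54,-39⟩,⟨9,94,102⟩,⟨66,87,-86⟩⟩ (23,[(3,7701),(5,110),(0,54)]) (23,[(3,9498),(5,5283),(0,94)]) (23,[(3,12940),(5,6216),(0,87)]))) (.leaf false ⟨⟨-126,-14,-57⟩,⟨-9,138,-14⟩,⟨58,-9,-126⟩⟩ (14,[(4,535),(3,830),(0,19)]) (3,[(4,94),(3,468),(0,1)])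 (1,[(4,421),(3,153),(0,3)]))) (.leaf false ⟨⟨9,66,-122⟩,⟨94,87,54⟩,⟨102,-86,-39⟩⟩ (86,[(1,11086),(0,9),(2,6459)]) (43,[(1,780),(0,47),(2,7830)]) (43,[(1,5043),(0,51),(2,739)])))) (.node ⟨0,0,1⟩ (.node ⟨-86,-66,87⟩ (.node ⟨121,42,54⟩ (.node ⟨54,-126,-23⟩ (.leaf false ⟨⟨-42,-41,126⟩,⟨54,-126,-23⟩,⟨121,42,54⟩⟩ (43,[(3,3591),(4,377),(2,21)]) (1,[(0,1)]) (1,[(1,1)])) (.leaf false ⟨⟨-122,-39,54⟩,⟨9,102,94⟩,⟨66,-86,87⟩⟩ (23,[(5,110),(4,7701),(0,54)]) (23,[(5,5283),(4,9498),(0,94)]) (23,[(5,6216),(4,12940),(0,87)]))) (.leaf false ⟨⟨-126,-57,-14⟩,⟨-9,-14,138⟩,⟨58,-126,-9⟩⟩ (14,[(2,830),(4,535),(0,19)]) (3,[(2,468),(4,94),(0,1)]) (1,[(2,153),(4,421),(0,3)]))) (.leaf false ⟨⟨9,-122,66⟩,⟨94,54,87⟩,⟨102,-39,-86⟩⟩ (86,[(1,6459),(0,9),(2,11086)])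 (43,[(1,7830),(0,47),(2,780)]) (43,[(1,739),(0,51),(2,5043)]))) (.node ⟨126,-9,58⟩ (.node ⟨-9,-126,58⟩ (.node ⟨-14,-57,-126⟩ (.leaf false ⟨⟨-14,-57,-126⟩,⟨-9,-126,58⟩,⟨138,-14,-9⟩⟩ (1,[(0,1)]) (1,[(1,1)]) (9,[(3,139),(5,1251),(1,1)])) (.leaf false ⟨⟨-9,-138,-14⟩,⟨58,9,-126⟩,⟨126,-14,57⟩⟩ (417,[(3,37808),(0,36),(1,473)]) (417,[(3,417556),(0,2409),(1,1060)]) (1251,[(3,2372869),(0,16002),(1,7378)]))) (.node ⟨54,126,-23⟩ (.leaf false ⟨⟨42,-41,-126⟩,⟨54,126,-23⟩,⟨121,-42,54⟩⟩ (3,[(3,436),(2,1),(4,114)]) (1,[(0,1)]) (126,[(3,214),(2,121),(4,4203)])) (.leaf false ⟨⟨-102,-86,-39⟩,⟨-9,66,-122⟩,⟨94,-87,-54⟩⟩ (28125,[(1,48044),(2,2540),(0,67059)]) (375,[(1,2273),(2,680),(0,2028)]) (28125,[(1,230628),(2,108355),(0,242308)])))) (.node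 ⟨-86,30,-105⟩ (.leaf false ⟨⟨-86,30,-105⟩,⟨-30,-135,-14⟩,⟨105,-14,-90⟩⟩ (1,[(0,1)]) (29,[(4,12),(3,3978),(1,7)]) (7,[(4,1251),(3,278),(0,6)])) (.leaf false ⟨⟨-135,-14,-30⟩,⟨-14,-90,105⟩,⟨30,-105,-86⟩⟩ (795,[(4,98243),(0,1082),(1,2370)]) (53,[(4,27668),(0,285),(1,420)]) (265,[(4,382592),(0,2288),(1,4535)])))))) (.node ⟨0,1,0⟩ (.node ⟨0,0,1⟩ (.node ⟨-66,87,-86⟩ (.node ⟨42,54,121⟩ (.node ⟨-126,-23,54⟩ (.leaf false ⟨⟨-126,-23,54⟩,⟨-41,126,-42⟩,⟨42,54,121⟩⟩ (1,[(0,1)]) (43,[(5,377),(2,21),(4,3591)]) (1,[(1,1)])) (.leaf false ⟨⟨-126,42,-41⟩,⟨-23,54,126⟩,⟨54,121,-42⟩⟩ (23,[(3,1325),(5,8190),(0,42)]) (23,[(3,5814),(5,7333),(0,54)]) (23,[(3,5568),(5,14004),(0,121)]))) (.leaf false ⟨⟨-126,-54,-23⟩,⟨-42,121,-54⟩,⟨-41,42,126⟩⟩ (1,[(2,340),(0,3),(3,108)])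 (1,[(2,67),(0,1),(3,175)]) (42,[(2,10253),(0,41),(3,3978)]))) (.leaf false ⟨⟨-126,-41,42⟩,⟨-23,126,54⟩,⟨54,-42,121⟩⟩ (43,[(3,6804),(2,64),(0,21)]) (43,[(3,2771),(2,7767),(0,27)]) (86,[(3,3342),(2,6915),(0,121)]))) (.node ⟨-9,126,58⟩ (.node ⟨-126,-9,58⟩ (.node ⟨-57,-14,-126⟩ (.leaf false ⟨⟨-126,-9,58⟩,⟨-57,-14,-126⟩,⟨-14,138,-9⟩⟩ (1,[(1,1)]) (1,[(0,1)]) (9,[(3,139),(1,1),(4,1251)])) (.leaf false ⟨⟨-138,-9,-14⟩,⟨-14,126,57⟩,⟨9,58,-126⟩⟩ (417,[(3,37808),(1,473),(0,36)]) (1251,[(3,2372869),(1,7378),(0,16002)]) (417,[(3,417556),(1,1060),(0,2409)]))) (.node ⟨126,54,-23⟩ (.leaf false ⟨⟨-42,121,54⟩,⟨-41,42,-126⟩,⟨126,54,-23⟩⟩ (126,[(3,214),(5,4203),(2,121)]) (3,[(3,436),(5,114),(2,1)]) (1,[(0,1)])) (.leaf false ⟨⟨-138,-14,9⟩,⟨-14,57,-126⟩,⟨-9,126,58⟩⟩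 (28125,[(2,32320),(1,65052),(0,93547)]) (28125,[(2,111860),(1,283421),(0,278556)]) (1,[(2,1)])))) (.node ⟨30,-86,-105⟩ (.leaf false ⟨⟨-135,-30,-14⟩,⟨-14,105,-90⟩,⟨30,-86,-105⟩⟩ (29,[(4,3978),(3,12),(1,7)]) (7,[(4,278),(3,1251),(0,6)]) (1,[(0,1)])) (.leaf false ⟨⟨-135,-14,30⟩,⟨-30,105,-86⟩,⟨-14,-90,-105⟩⟩ (53,[(3,67424),(1,885),(0,504)]) (265,[(3,196417),(1,1910),(0,838)]) (795,[(3,359468),(1,4620),(0,1757)]))))) (.node ⟨0,0,1⟩ (.node ⟨-9,58,126⟩ (.node ⟨-126,58,-9⟩ (.node ⟨-57,-126,-14⟩ (.leaf false ⟨⟨-126,58,-9⟩,⟨-57,-126,-14⟩,⟨-14,-9,138⟩⟩ (1,[(1,1)]) (1,[(0,1)]) (9,[(3,1251),(1,1),(4,139)])) (.leaf false ⟨⟨-138,-14,-9⟩,⟨-14,57,126⟩,⟨9,-126,58⟩⟩ (417,[(1,473),(4,37808),(0,36)]) (1251,[(1,7378),(4,2372869),(0,16002)])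 (417,[(1,1060),(4,417556),(0,2409)]))) (.node ⟨126,-23,54⟩ (.leaf false ⟨⟨-42,54,121⟩,⟨-41,-126,42⟩,⟨126,-23,54⟩⟩ (126,[(2,121),(5,4203),(4,214)]) (3,[(2,1),(5,114),(4,436)]) (1,[(0,1)])) (.leaf false ⟨⟨-138,-14,-9⟩,⟨-14,57,126⟩,⟨9,-126,58⟩⟩ (9375,[(2,16420),(0,46032),(1,36937)]) (28125,[(2,30380),(0,6123),(1,5168)]) (1125,[(2,4195),(0,10372),(1,10752)])))) (.node ⟨30,-105,-86⟩ (.leaf false ⟨⟨-135,-14,-30⟩,⟨-14,-90,105⟩,⟨30,-105,-86⟩⟩ (29,[(2,12),(4,3978),(1,7)]) (7,[(2,1251),(4,278),(0,6)]) (1,[(0,1)])) (.leaf false ⟨⟨-135,30,-14⟩,⟨-30,-86,105⟩,⟨-14,-105,-90⟩⟩ (53,[(2,67424),(0,504),(1,885)]) (265,[(2,196417),(0,838),(1,1910)]) (795,[(2,359468),(0,1757),(1,4620)])))) (.node ⟨-54,94,-87⟩ (.node ⟨-122,-9,66⟩ (.leaf false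 ⟨⟨-122,-9,66⟩,⟨-54,94,-87⟩,⟨-39,-102,-86⟩⟩ (1,[(0,1)]) (1,[(1,1)]) (18,[(2,417),(1,13),(3,3058)])) (.leaf false ⟨⟨-102,-86,-39⟩,⟨-9,66,-122⟩,⟨94,-87,-54⟩⟩ (29,[(1,13),(4,2256),(3,3716)]) (5421,[(1,3258),(4,571429),(0,5726)]) (11,[(4,64),(3,1038),(0,9)]))) (.node ⟨66,-86,-87⟩ (.leaf false ⟨⟨-122,-39,-54⟩,⟨-9,-102,94⟩,⟨66,-86,-87⟩⟩ (86,[(2,1251),(4,13066),(0,39)]) (47,[(2,19),(4,3177),(1,51)]) (1,[(0,1)])) (.leaf false ⟨⟨-135,-14,-30⟩,⟨-14,-90,105⟩,⟨30,-105,-86⟩⟩ (260,[(2,384510),(0,2241),(1,2089)]) (195,[(2,124380),(0,772),(1,893)]) (52,[(2,25352),(0,95),(1,145)]))))))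
theorem pf139_ok : pf139.check (ok 139 6 ⟨5, 5, 5⟩) (fun _ r => r) [] = true := by decide +kernel

def pf145 : T := .node ⟨1,0,0⟩ (.node ⟨0,1,0⟩ (.node ⟨0,0,1⟩ (.leaf false ⟨⟨0,0,145⟩,⟨0,145,0⟩,⟨145,0,0⟩⟩ (1,[(0,145)]) (1,[(1,145)]) (1,[(2,145)])) (.node ⟨-17,0,-144⟩ (.leaf false ⟨⟨-17,0,-144⟩,⟨0,145,0⟩,⟨144,0,-17⟩⟩ (1,[(0,1)]) (1,[(2,145)]) (144,[(3,21025),(0,17)])) (.leaf false ⟨⟨0,145,0⟩,⟨100,0,-105⟩,⟨105,0,100⟩⟩ (1,[(2,145)]) (17,[(1,16185),(0,100)]) (17,[(1,13420),(0,105)])))) (.node ⟨0,0,1⟩ (.node ⟨-17,-144,0⟩ (.leaf false ⟨⟨-17,-144,0⟩,⟨0,0,145⟩,⟨144,-17,0⟩⟩ (1,[(0,1)]) (1,[(1,145)]) (144,[(3,21025),(0,17)])) (.leaf false ⟨⟨0,0,145⟩,⟨100,-105,0⟩,⟨105,100,0⟩⟩ (1,[(1,145)]) (17,[(0,100),(2,16185)]) (17,[(0,105),(2,13420)])))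 (.node ⟨0,24,-143⟩ (.leaf false ⟨⟨0,-143,-24⟩,⟨0,24,-143⟩,⟨145,0,0⟩⟩ (143,[(0,24),(2,21025)]) (1,[(0,1)]) (1,[(3,145)])) (.leaf false ⟨⟨0,-143,24⟩,⟨0,-24,-143⟩,⟨145,0,0⟩⟩ (24,[(1,19873),(0,143)]) (1,[(1,286),(0,1)]) (1,[(3,145)]))))) (.node ⟨0,1,0⟩ (.node ⟨0,0,1⟩ (.node ⟨-144,-17,0⟩ (.leaf false ⟨⟨-144,-17,0⟩,⟨-17,144,0⟩,⟨0,0,145⟩⟩ (1,[(0,1)]) (144,[(0,17),(2,21025)]) (1,[(1,145)])) (.leaf false ⟨⟨-105,100,0⟩,⟨0,0,145⟩,⟨100,105,0⟩⟩ (17,[(3,16185),(0,100)]) (1,[(1,145)]) (17,[(3,13420),(0,105)]))) (.node ⟨24,0,-143⟩ (.leaf false ⟨⟨-143,0,-24⟩,⟨0,145,0⟩,⟨24,0,-143⟩⟩ (143,[(3,21025),(0,24)]) (1,[(2,145)]) (1,[(0,1)])) (.leaf false ⟨⟨-143,0,24⟩,⟨-24,0,-143⟩,⟨0,145,0⟩⟩ (24,[(1,19873),(0,143)]) (1,[(1,286),(0,1)]) (1,[(2,145)]))))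 (.node ⟨0,0,1⟩ (.node ⟨24,-143,0⟩ (.leaf false ⟨⟨-143,-24,0⟩,⟨0,0,145⟩,⟨24,-143,0⟩⟩ (143,[(3,21025),(0,24)]) (1,[(1,145)]) (1,[(0,1)])) (.leaf false ⟨⟨-143,24,0⟩,⟨-24,-143,0⟩,⟨0,0,145⟩⟩ (24,[(0,143),(2,19873)]) (1,[(0,1),(2,286)]) (1,[(1,145)]))) (.node ⟨-60,105,-80⟩ (.node ⟨-120,-60,55⟩ (.node ⟨-80,105,-60⟩ (.leaf false ⟨⟨-120,-60,55⟩,⟨-80,105,-60⟩,⟨-15,-80,-120⟩⟩ (1,[(1,1)]) (1,[(0,1)]) (4,[(3,400),(2,1),(4,425)])) (.leaf false ⟨⟨-120,-80,-15⟩,⟨-60,105,-80⟩,⟨55,-60,-120⟩⟩ (21,[(2,100),(1,35),(0,96)]) (1,[(2,1)]) (4,[(2,35),(1,4),(0,35)]))) (.leaf false ⟨⟨-120,-80,-15⟩,⟨-60,105,-80⟩,⟨55,-60,-120⟩⟩ (11,[(4,1680),(3,1060),(0,3)]) (1,[(1,1)]) (11,[(4,2275),(3,2100),(0,24)]))) (.node ⟨-60,-80,105⟩ (.leaf false ⟨⟨-120,-15,-80⟩,⟨-60,-80,105⟩,⟨55,-120,-60⟩⟩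 (7,[(2,640),(4,900),(1,1)]) (1,[(0,1)]) (7,[(2,1060),(4,95),(1,8)])) (.leaf false ⟨⟨-105,-80,-60⟩,⟨0,87,-116⟩,⟨100,-84,-63⟩⟩ (185,[(4,81585),(1,528),(0,508)]) (925,[(4,64380),(1,29),(0,1044)]) (925,[(4,233840),(1,2772),(0,2667)]))))))
theorem pf145_ok : pf145.check (ok 145 6 ⟨5, 5, 5⟩) (fun _ r => r) [] = true := by decide +kernel

def pf149 : T := .node ⟨1,0,0⟩ (.node ⟨0,1,0⟩ (.node ⟨0,0,1⟩ (.node ⟨-48,24,139⟩ (.node ⟨4,141,-48⟩ (.leaf false ⟨⟨-48,24,139⟩,⟨4,147,-24⟩,⟨141,4,48⟩⟩ (1,[(1,1)]) (286,[(2,7301),(0,298),(1,1)]) (6,[(2,149),(4,894),(1,1)])) (.leaf false ⟨⟨-24,4,147⟩,⟨48,141,4⟩,⟨139,-48,24⟩⟩ (437,[(3,129494),(1,141),(0,930)]) (12,[(4,580),(3,1833),(0,1)]) (2,[(4,282),(3,45),(0,1)]))) (.leaf false ⟨⟨4,24,147⟩,⟨48,139,-24⟩,⟨141,-48,4⟩⟩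 (12,[(1,1903),(0,1),(2,312)]) (1,[(1,115),(0,1),(2,163)]) (16,[(1,6597),(0,47),(2,360)]))) (.node ⟨108,69,76⟩ (.node ⟨-32,21,-144⟩ (.node ⟨141,-32,-36⟩ (.leaf false ⟨⟨-32,21,-144⟩,⟨36,144,13⟩,⟨141,-32,-36⟩⟩ (1,[(1,1)]) (3,[(3,37),(2,1),(4,363)]) (1,[(0,1)])) (.leaf false ⟨⟨-141,48,4⟩,⟨4,24,-147⟩,⟨48,139,24⟩⟩ (2,[(3,100),(5,141),(0,3)]) (4,[(3,696),(5,439),(0,3)]) (32,[(3,4236),(5,21135),(0,139)]))) (.leaf false ⟨⟨4,84,-123⟩,⟨69,108,76⟩,⟨132,-59,-36⟩⟩ (8,[(2,1128),(0,1),(3,693)]) (32,[(2,7504),(0,69),(3,4905)]) (8,[(2,5040),(0,33),(3,221)]))) (.leaf false ⟨⟨-36,-32,-141⟩,⟨13,144,-36⟩,⟨144,-21,-32⟩⟩ (76,[(3,12492),(2,7297),(0,141)]) (19,[(3,1219),(2,3357),(0,9)]) (19,[(3,3600),(2,153),(0,8)])))) (.node ⟨0,0,1⟩ (.node ⟨108,76,69⟩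 (.node ⟨-32,-144,21⟩ (.node ⟨141,-36,-32⟩ (.leaf false ⟨⟨-32,-144,21⟩,⟨36,13,144⟩,⟨141,-36,-32⟩⟩ (1,[(1,1)]) (3,[(3,363),(2,1),(4,37)]) (1,[(0,1)])) (.leaf false ⟨⟨-141,4,48⟩,⟨4,-147,24⟩,⟨48,24,139⟩⟩ (2,[(5,141),(4,100),(0,3)]) (4,[(5,439),(4,696),(0,3)]) (32,[(5,21135),(4,4236),(0,139)]))) (.leaf false ⟨⟨4,-123,84⟩,⟨69,76,108⟩,⟨132,-36,-59⟩⟩ (8,[(2,693),(0,1),(3,1128)]) (32,[(2,4905),(0,69),(3,7504)]) (8,[(2,221),(0,33),(3,5040)]))) (.leaf false ⟨⟨-36,-141,-32⟩,⟨13,-36,144⟩,⟨144,-32,-21⟩⟩ (76,[(1,7297),(3,12492),(0,141)]) (19,[(1,3357),(3,1219),(0,9)]) (19,[(1,153),(3,3600),(0,8)]))) (.node ⟨139,24,48⟩ (.leaf false ⟨⟨24,-147,4⟩,⟨48,4,-141⟩,⟨139,24,48⟩⟩ (139,[(1,596),(0,24),(2,21009)]) (139,[(1,21903),(0,48),(2,596)])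 (1,[(0,1)])) (.node ⟨-140,-51,0⟩ (.leaf false ⟨⟨-140,-51,0⟩,⟨0,0,-149⟩,⟨51,-140,0⟩⟩ (1,[(0,1)]) (1,[(2,149)]) (51,[(4,22201),(0,140)])) (.node ⟨69,-132,4⟩ (.leaf false ⟨⟨-108,-59,-84⟩,⟨69,-132,4⟩,⟨76,36,-123⟩⟩ (560,[(4,37111),(2,980),(1,541)]) (1,[(0,1)]) (448,[(4,26853),(2,1148),(1,1383)])) (.leaf false ⟨⟨-144,-32,-21⟩,⟨13,36,-144⟩,⟨36,-141,-32⟩⟩ (560,[(4,450523),(0,2940),(1,873)]) (140,[(4,787587),(0,5040),(1,2497)]) (5,[(4,7056),(0,40),(1,21)]))))))) (.node ⟨0,1,0⟩ (.node ⟨0,0,1⟩ (.node ⟨76,69,108⟩ (.node ⟨-144,21,-32⟩ (.node ⟨-36,-32,141⟩ (.leaf false ⟨⟨-144,21,-32⟩,⟨-36,-32,141⟩,⟨13,144,36⟩⟩ (1,[(1,1)]) (1,[(0,1)]) (3,[(5,37),(4,363),(2,1)])) (.leaf false ⟨⟨-147,24,4⟩,⟨4,48,-141⟩,⟨24,139,48⟩⟩ (4,[(3,439),(5,696),(0,3)])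 (2,[(3,141),(5,100),(0,3)]) (32,[(3,21135),(5,4236),(0,139)]))) (.leaf false ⟨⟨-123,-36,76⟩,⟨4,132,69⟩,⟨84,-59,108⟩⟩ (8,[(4,3720),(3,111),(0,19)]) (32,[(4,9808),(3,5673),(0,69)]) (8,[(4,3216),(3,95),(0,27)]))) (.leaf false ⟨⟨-141,-36,-32⟩,⟨-36,13,144⟩,⟨-32,144,-21⟩⟩ (76,[(1,12796),(0,141),(2,6993)]) (19,[(1,3708),(0,9),(2,868)]) (19,[(1,465),(0,8),(2,3288)]))) (.node ⟨24,139,48⟩ (.leaf false ⟨⟨-147,24,4⟩,⟨4,48,-141⟩,⟨24,139,48⟩⟩ (139,[(1,596),(3,21009),(0,24)]) (139,[(1,21903),(3,596),(0,48)]) (1,[(0,1)])) (.node ⟨-51,-140,0⟩ (.leaf false ⟨⟨-140,51,0⟩,⟨-51,-140,0⟩,⟨0,0,-149⟩⟩ (51,[(0,140),(3,22201)]) (1,[(0,1)]) (1,[(2,149)])) (.node ⟨-132,69,4⟩ (.leaf false ⟨⟨-132,69,4⟩,⟨-59,-108,-84⟩,⟨36,76,-123⟩⟩ (1,[(0,1)]) (560,[(2,980),(5,37111),(1,541)])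 (448,[(2,1148),(5,26853),(1,1383)])) (.leaf false ⟨⟨-149,0,0⟩,⟨0,-140,-51⟩,⟨0,51,-140⟩⟩ (1,[(5,149)]) (560,[(5,1093389),(1,2959),(0,7140)]) (70,[(5,386283),(1,1233),(0,2450)])))))) (.node ⟨0,0,1⟩ (.node ⟨24,48,139⟩ (.leaf false ⟨⟨-147,4,24⟩,⟨4,-141,48⟩,⟨24,48,139⟩⟩ (139,[(3,21009),(2,596),(0,24)]) (139,[(3,596),(2,21903),(0,48)]) (1,[(0,1)])) (.node ⟨-51,0,-140⟩ (.leaf false ⟨⟨-140,0,51⟩,⟨-51,0,-140⟩,⟨0,-149,0⟩⟩ (51,[(2,22201),(0,140)]) (1,[(0,1)]) (1,[(3,149)])) (.node ⟨-132,4,69⟩ (.leaf false ⟨⟨-132,4,69⟩,⟨-59,-84,-108⟩,⟨36,-123,76⟩⟩ (1,[(0,1)]) (560,[(5,37111),(2,980),(1,541)]) (448,[(5,26853),(2,1148),(1,1383)])) (.leaf false ⟨⟨-149,0,0⟩,⟨0,-140,51⟩,⟨0,-51,-140⟩⟩ (1,[(5,149)]) (70,[(5,386283),(0,2450),(1,1233)]) (560,[(5,1093389),(0,7140),(1,2959)])))))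 (.leaf false ⟨⟨-149,0,0⟩,⟨0,-149,0⟩,⟨0,0,-149⟩⟩ (1,[(2,149)]) (1,[(1,149)]) (1,[(0,149)]))))
theorem pf149_ok : pf149.check (ok 149 6 ⟨5, 5, 5⟩) (fun _ r => r) [] = true := by decide +kernel

def pf151 : T := .node ⟨1,0,0⟩ (.node ⟨0,1,0⟩ (.node ⟨0,0,1⟩ (.leaf false ⟨⟨0,0,151⟩,⟨0,151,0⟩,⟨151,0,0⟩⟩ (1,[(0,151)]) (1,[(1,151)]) (1,[(2,151)])) (.node ⟨-51,34,-138⟩ (.node ⟨-51,142,-6⟩ (.node ⟨6,147,34⟩ (.leaf false ⟨⟨-51,34,-138⟩,⟨6,147,34⟩,⟨142,6,-51⟩⟩ (1,[(2,1)]) (1,[(0,1)]) (17,[(3,453),(5,2567),(2,3)])) (.leaf false ⟨⟨-99,-30,-110⟩,⟨70,99,-90⟩,⟨90,-110,-51⟩⟩ (571,[(5,30216),(1,1515),(0,1580)]) (17,[(5,1460),(4,8298),(0,45)]) (2,[(5,198),(4,221),(0,3)]))) (.leaf false ⟨⟨-42,34,-141⟩,⟨99,114,-2⟩,⟨106,-93,-54⟩⟩ (748,[(3,21228),(1,771),(0,155)])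 (561,[(3,224856),(1,58),(0,1147)]) (1122,[(3,287818),(1,565),(0,2897)]))) (.leaf false ⟨⟨6,34,-147⟩,⟨51,138,34⟩,⟨142,-51,-6⟩⟩ (17,[(1,2775),(0,2),(2,646)]) (1,[(1,104),(0,1),(2,172)]) (51,[(1,19902),(0,142),(2,2227)])))) (.node ⟨0,0,1⟩ (.node ⟨-51,-138,34⟩ (.node ⟨-51,-6,142⟩ (.node ⟨6,34,147⟩ (.leaf false ⟨⟨-51,-138,34⟩,⟨6,34,147⟩,⟨142,-51,6⟩⟩ (1,[(2,1)]) (1,[(0,1)]) (17,[(5,2567),(4,453),(2,3)])) (.leaf false ⟨⟨-99,-110,-30⟩,⟨70,-90,99⟩,⟨90,-51,-110⟩⟩ (571,[(5,30216),(0,1580),(1,1515)]) (17,[(3,8298),(5,1460),(0,45)]) (2,[(3,221),(5,198),(0,3)]))) (.leaf false ⟨⟨-42,-141,34⟩,⟨99,-2,114⟩,⟨106,-54,-93⟩⟩ (748,[(2,21228),(0,155),(1,771)]) (561,[(2,224856),(0,1147),(1,58)]) (1122,[(2,287818),(0,2897),(1,565)]))) (.leaf false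 ⟨⟨6,-147,34⟩,⟨51,34,138⟩,⟨142,-6,-51⟩⟩ (17,[(1,646),(0,2),(2,2775)]) (1,[(1,172),(0,1),(2,104)]) (51,[(1,2227),(0,142),(2,19902)]))) (.node ⟨61,78,-114⟩ (.node ⟨138,-29,54⟩ (.leaf false ⟨⟨6,-126,-83⟩,⟨61,78,-114⟩,⟨138,-29,54⟩⟩ (23,[(2,1963),(0,1),(3,2869)]) (1,[(1,1)]) (1,[(0,1)])) (.leaf false ⟨⟨-83,-114,-54⟩,⟨6,61,-138⟩,⟨126,-78,-29⟩⟩ (1,[(4,55),(3,143),(0,1)]) (9,[(4,3228),(3,118),(0,23)]) (54,[(4,10806),(3,5053),(0,29)]))) (.leaf false ⟨⟨-83,-126,-6⟩,⟨54,-29,-138⟩,⟨114,-78,61⟩⟩ (13,[(1,2472),(3,202),(0,21)]) (78,[(1,14070),(3,5981),(0,29)]) (1,[(1,53),(3,175),(0,1)]))))) (.node ⟨0,1,0⟩ (.node ⟨0,0,1⟩ (.node ⟨-138,-51,34⟩ (.node ⟨-6,-51,142⟩ (.node ⟨34,6,147⟩ (.leaf false ⟨⟨-138,-51,34⟩,⟨-51,142,6⟩,⟨34,6,147⟩⟩ (1,[(2,1)])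 (17,[(2,3),(5,453),(4,2567)]) (1,[(0,1)])) (.leaf false ⟨⟨-141,-42,34⟩,⟨-54,106,-93⟩,⟨-2,99,114⟩⟩ (566,[(3,331707),(1,194),(0,2313)]) (17,[(3,2388),(0,27),(4,1964)]) (3,[(3,200),(1,1),(4,348)]))) (.leaf false ⟨⟨-141,-42,34⟩,⟨-54,106,-93⟩,⟨-2,99,114⟩⟩ (748,[(2,21228),(1,771),(0,155)]) (1122,[(2,287818),(1,565),(0,2897)]) (561,[(2,224856),(1,58),(0,1147)]))) (.leaf false ⟨⟨-147,6,34⟩,⟨-6,142,-51⟩,⟨34,51,138⟩⟩ (17,[(1,646),(3,2775),(0,2)]) (51,[(1,2227),(3,19902),(0,142)]) (1,[(1,172),(3,104),(0,1)]))) (.node ⟨78,61,-114⟩ (.node ⟨-29,138,54⟩ (.leaf false ⟨⟨-126,6,-83⟩,⟨-29,138,54⟩,⟨78,61,-114⟩⟩ (23,[(2,1963),(4,2869),(0,1)]) (1,[(0,1)]) (1,[(1,1)])) (.leaf false ⟨⟨-138,-29,-54⟩,⟨6,126,-83⟩,⟨61,-78,-114⟩⟩ (1,[(4,167),(3,109),(0,1)])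 (114,[(4,5790),(3,9301),(1,83)]) (9,[(4,2),(3,1920),(0,19)]))) (.leaf false ⟨⟨-126,-83,-6⟩,⟨-78,114,61⟩,⟨-29,54,-138⟩⟩ (13,[(1,2472),(0,21),(2,202)]) (1,[(1,53),(0,1),(2,175)]) (78,[(1,14070),(0,29),(2,5981)])))) (.node ⟨0,0,1⟩ (.node ⟨78,-114,61⟩ (.node ⟨-29,54,138⟩ (.leaf false ⟨⟨-126,-83,6⟩,⟨-29,54,138⟩,⟨78,-114,61⟩⟩ (23,[(4,2869),(3,1963),(0,1)]) (1,[(0,1)]) (1,[(1,1)])) (.leaf false ⟨⟨-138,-54,-29⟩,⟨6,-83,126⟩,⟨61,-114,-78⟩⟩ (1,[(2,109),(4,167),(0,1)]) (114,[(2,9301),(4,5790),(1,83)]) (9,[(2,1920),(4,2),(0,19)]))) (.leaf false ⟨⟨-126,-29,-78⟩,⟨-83,54,114⟩,⟨-6,-138,61⟩⟩ (13,[(1,267),(0,21),(2,2771)]) (78,[(1,13955),(0,83),(2,5250)]) (13,[(1,854),(0,1),(2,1908)]))) (.node ⟨-90,70,-99⟩ (.node ⟨-99,-90,70⟩ (.node ⟨30,-110,-99⟩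 (.leaf false ⟨⟨-110,51,-90⟩,⟨-99,-90,70⟩,⟨30,-110,-99⟩⟩ (11,[(2,10),(5,310),(4,139)]) (1,[(1,1)]) (1,[(0,1)])) (.leaf false ⟨⟨-126,-83,-6⟩,⟨-78,114,61⟩,⟨-29,54,-138⟩⟩ (5,[(3,2109),(0,21),(4,2725)]) (5,[(3,982),(0,13),(4,860)]) (30,[(3,7011),(0,29),(4,1570)]))) (.node ⟨126,6,-83⟩ (.leaf false ⟨⟨-78,61,-114⟩,⟨-29,-138,-54⟩,⟨126,6,-83⟩⟩ (35,[(5,8373),(4,2995),(1,57)]) (35,[(5,3688),(4,7260),(1,27)]) (1,[(0,1)])) (.leaf false ⟨⟨-138,-29,-54⟩,⟨6,126,-83⟩,⟨61,-78,-114⟩⟩ (201,[(4,523557),(1,6086),(0,5002)]) (201,[(4,257880),(1,3320),(0,2599)]) (603,[(4,842028),(1,9301),(0,7016)])))) (.node ⟨6,-83,126⟩ (.leaf false ⟨⟨-138,-54,-29⟩,⟨6,-83,126⟩,⟨61,-114,-78⟩⟩ (35,[(2,3688),(4,7260),(1,27)]) (1,[(0,1)]) (35,[(2,8373),(4,2995),(1,57)]))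 (.leaf false ⟨⟨-110,30,-99⟩,⟨-90,-99,70⟩,⟨51,-110,-90⟩⟩ (67,[(4,49100),(1,493),(0,440)]) (603,[(4,624624),(1,6664),(0,4901)]) (67,[(4,198423),(1,2370),(0,1910)]))))))
theorem pf151_ok : pf151.check (ok 151 6 ⟨5, 5, 5⟩) (fun _ r => r) [] = true := by decide +kernel

def pf155 : T := .node ⟨1,0,0⟩ (.node ⟨0,1,0⟩ (.node ⟨0,0,1⟩ (.node ⟨-74,18,135⟩ (.node ⟨-105,90,70⟩ (.node ⟨-18,151,-30⟩ (.leaf false ⟨⟨-74,18,135⟩,⟨-18,151,-30⟩,⟨135,30,70⟩⟩ (1,[(2,1)]) (1,[(0,1)]) (3,[(3,140),(5,510),(1,1)])) (.leaf false ⟨⟨-110,30,105⟩,⟨30,-135,70⟩,⟨105,70,90⟩⟩ (2654,[(5,33455),(1,3351),(0,1470)]) (49,[(4,8880),(1,4),(0,105)]) (1,[(5,51),(4,523),(0,3)]))) (.leaf false ⟨⟨-57,70,126⟩,⟨70,-105,90⟩,⟨126,90,7⟩⟩ (8995,[(3,609940),(1,9240),(0,1629)])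 (1799,[(3,49425),(1,2870),(0,3222)]) (1285,[(3,316440),(1,1365),(0,2504)]))) (.node ⟨70,-30,135⟩ (.leaf false ⟨⟨30,151,18⟩,⟨70,-30,135⟩,⟨135,-18,-74⟩⟩ (37,[(2,2691),(1,15),(3,5857)]) (1,[(0,1)]) (74,[(2,12749),(1,135),(3,1098)])) (.leaf false ⟨⟨-138,70,9⟩,⟨25,30,150⟩,⟨66,135,-38⟩⟩ (120,[(2,59400),(1,95),(0,337)]) (32,[(2,29640),(1,95),(0,89)]) (160,[(2,502600),(1,1905),(0,1863)])))) (.node ⟨-93,124,0⟩ (.leaf false ⟨⟨-93,124,0⟩,⟨0,0,-155⟩,⟨124,93,0⟩⟩ (1,[(0,1)]) (1,[(1,155)]) (4,[(3,775),(0,3)])) (.leaf false ⟨⟨0,0,-155⟩,⟨93,124,0⟩,⟨124,-93,0⟩⟩ (1,[(1,155)]) (1,[(0,1),(2,248)]) (3,[(0,4),(2,217)])))) (.node ⟨0,0,1⟩ (.node ⟨-93,0,124⟩ (.leaf false ⟨⟨-93,0,124⟩,⟨0,-155,0⟩,⟨124,0,93⟩⟩ (1,[(0,1)]) (1,[(2,155)]) (4,[(3,775),(0,3)]))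 (.leaf false ⟨⟨0,-155,0⟩,⟨93,0,124⟩,⟨124,0,-93⟩⟩ (1,[(2,155)]) (1,[(1,248),(0,1)]) (3,[(1,217),(0,4)]))) (.node ⟨70,105,-90⟩ (.node ⟨93,124,0⟩ (.leaf false ⟨⟨0,0,-155⟩,⟨93,124,0⟩,⟨124,-93,0⟩⟩ (1,[(2,155)]) (1,[(0,1)]) (3,[(0,4),(3,775)])) (.node ⟨-105,-30,-110⟩ (.leaf false ⟨⟨-110,-87,-66⟩,⟨30,66,-137⟩,⟨105,-110,-30⟩⟩ (620,[(5,2945),(1,345),(0,372)]) (950,[(2,758),(5,34555),(0,563)]) (372,[(2,124),(5,70835),(1,435)])) (.leaf false ⟨⟨-42,-119,-90⟩,⟨105,-90,70⟩,⟨106,42,-105⟩⟩ (80135,[(2,156519),(0,62496),(1,224560)]) (16027,[(2,32736),(0,36983),(1,48300)]) (160270,[(2,418066),(0,189069),(1,345465)])))) (.node ⟨-105,-110,-30⟩ (.leaf false ⟨⟨-105,-110,-30⟩,⟨70,-30,-135⟩,⟨90,-105,70⟩⟩ (1,[(0,1)]) (7,[(2,1125),(4,630),(1,2)])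 (1,[(2,20),(4,160),(1,1)])) (.leaf false ⟨⟨-42,-119,-90⟩,⟨105,-90,70⟩,⟨106,42,-105⟩⟩ (95,[(2,32160),(0,112),(1,225)]) (19,[(2,12440),(0,99),(1,120)]) (665,[(2,249465),(0,1638),(1,1450)])))))) (.node ⟨0,1,0⟩ (.node ⟨0,0,1⟩ (.node ⟨0,-93,124⟩ (.leaf false ⟨⟨-155,0,0⟩,⟨0,-93,124⟩,⟨0,124,93⟩⟩ (1,[(3,155)]) (1,[(0,1)]) (4,[(0,3),(2,775)])) (.leaf false ⟨⟨-155,0,0⟩,⟨0,93,124⟩,⟨0,124,-93⟩⟩ (1,[(3,155)]) (1,[(1,248),(0,1)]) (3,[(1,217),(0,4)]))) (.node ⟨105,70,-90⟩ (.node ⟨124,93,0⟩ (.leaf false ⟨⟨-93,124,0⟩,⟨0,0,-155⟩,⟨124,93,0⟩⟩ (3,[(4,775),(0,4)]) (1,[(2,155)]) (1,[(0,1)])) (.node ⟨-30,-105,-110⟩ (.leaf false ⟨⟨-135,70,-30⟩,⟨-30,-105,-110⟩,⟨70,90,-105⟩⟩ (44,[(4,8525),(0,12),(1,45)]) (1,[(0,1)]) (744,[(4,35495),(2,868),(1,315)]))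 (.leaf false ⟨⟨-155,0,0⟩,⟨0,93,124⟩,⟨0,124,-93⟩⟩ (517,[(2,1023),(1,1715),(0,837)]) (55,[(1,15),(0,62)]) (5170,[(2,17050),(1,16755),(0,9579)])))) (.node ⟨-110,-105,-30⟩ (.leaf false ⟨⟨-110,-105,-30⟩,⟨-105,90,70⟩,⟨-30,70,-135⟩⟩ (1,[(0,1)]) (1,[(2,20),(1,1),(3,160)]) (7,[(2,1125),(1,2),(3,630)])) (.leaf false ⟨⟨-155,0,0⟩,⟨0,93,124⟩,⟨0,124,-93⟩⟩ (19,[(2,10230),(1,93),(0,62)]) (665,[(2,160270),(1,2046),(0,1953)]) (665,[(2,385485),(1,2728),(0,2604)]))))) (.node ⟨0,0,1⟩ (.node ⟨105,-90,70⟩ (.node ⟨124,0,93⟩ (.leaf false ⟨⟨-93,0,124⟩,⟨0,-155,0⟩,⟨124,0,93⟩⟩ (3,[(4,775),(0,4)]) (1,[(3,155)]) (1,[(0,1)])) (.node ⟨-30,-110,-105⟩ (.leaf false ⟨⟨-135,-30,70⟩,⟨-30,-110,-105⟩,⟨70,-105,90⟩⟩ (44,[(3,8525),(1,45),(0,12)]) (1,[(0,1)]) (744,[(3,35495),(1,315),(2,868)]))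 (.leaf false ⟨⟨-155,0,0⟩,⟨0,-93,124⟩,⟨0,124,93⟩⟩ (517,[(1,1715),(2,1023),(0,837)]) (5170,[(1,16755),(2,17050),(0,9579)]) (55,[(1,15),(0,62)])))) (.node ⟨-110,-30,-105⟩ (.leaf false ⟨⟨-110,-30,-105⟩,⟨-105,70,90⟩,⟨-30,-135,70⟩⟩ (1,[(0,1)]) (1,[(2,160),(1,1),(3,20)]) (7,[(2,630),(1,2),(3,1125)])) (.leaf false ⟨⟨-155,0,0⟩,⟨0,-93,124⟩,⟨0,124,93⟩⟩ (19,[(1,93),(3,10230),(0,62)]) (665,[(1,2728),(3,385485),(0,2604)]) (665,[(1,2046),(3,160270),(0,1953)])))) (.leaf false ⟨⟨-155,0,0⟩,⟨0,-155,0⟩,⟨0,0,-155⟩⟩ (1,[(2,155)]) (1,[(1,155)]) (1,[(0,155)]))))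
theorem pf155_ok : pf155.check (ok 155 6 ⟨5, 5, 5⟩) (fun _ r => r) [] = true := by decide +kernel

def pf157 : T := .node ⟨1,0,0⟩ (.node ⟨0,1,0⟩ (.node ⟨0,0,1⟩ (.leaf false ⟨⟨0,0,157⟩,⟨0,157,0⟩,⟨157,0,0⟩⟩ (1,[(0,157)]) (1,[(1,157)]) (1,[(2,157)])) (.node ⟨0,132,85⟩ (.leaf false ⟨⟨0,85,-132⟩,⟨0,132,85⟩,⟨157,0,0⟩⟩ (132,[(1,24649),(0,85)]) (1,[(0,1)]) (1,[(3,157)])) (.node ⟨-51,-68,-132⟩ (.leaf false ⟨⟨-51,-68,-132⟩,⟨-12,141,-68⟩,⟨148,-12,-51⟩⟩ (1,[(0,1)]) (33,[(4,471),(3,5809),(0,17)]) (5,[(1,3),(4,740),(3,336)])) (.leaf false ⟨⟨0,157,0⟩,⟨85,0,-132⟩,⟨132,0,85⟩⟩ (1,[(3,157)]) (255,[(1,1056),(0,425),(3,110492)]) (1445,[(1,4363),(0,3740),(3,321596)]))))) (.node ⟨0,0,1⟩ (.node ⟨0,85,132⟩ (.leaf false ⟨⟨0,-132,85⟩,⟨0,85,132⟩,⟨157,0,0⟩⟩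 (132,[(0,85),(2,24649)]) (1,[(0,1)]) (1,[(3,157)])) (.node ⟨-51,-132,-68⟩ (.leaf false ⟨⟨-51,-132,-68⟩,⟨-12,-68,141⟩,⟨148,-51,-12⟩⟩ (1,[(0,1)]) (33,[(2,5809),(4,471),(0,17)]) (5,[(2,336),(4,740),(1,3)])) (.leaf false ⟨⟨0,0,157⟩,⟨85,-132,0⟩,⟨132,85,0⟩⟩ (1,[(2,157)]) (255,[(2,110492),(0,425),(1,1056)]) (1445,[(2,321596),(0,3740),(1,4363)])))) (.node ⟨12,-156,13⟩ (.node ⟨156,12,13⟩ (.node ⟨12,13,-156⟩ (.leaf false ⟨⟨12,13,-156⟩,⟨13,-156,-12⟩,⟨156,12,13⟩⟩ (1,[(0,1)]) (12,[(3,157),(1,1),(4,1884)]) (1,[(1,1)])) (.leaf false ⟨⟨-93,-120,40⟩,⟨40,-75,-132⟩,⟨120,-68,75⟩⟩ (628,[(3,891289),(1,77),(0,5868)]) (471,[(3,541807),(1,355),(0,3045)]) (157,[(3,147423),(1,198),(0,1004)]))) (.node ⟨12,48,-149⟩ (.leaf false ⟨⟨-72,-131,-48⟩,⟨12,48,-149⟩,⟨139,-72,-12⟩⟩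 (49776,[(2,45059),(1,27789),(0,17542)]) (1,[(0,1)]) (91,[(5,30505),(2,33),(1,117)])) (.leaf false ⟨⟨-149,-48,-12⟩,⟨12,-72,139⟩,⟨48,-131,-72⟩⟩ (612,[(3,70995),(0,475),(1,548)]) (2,[(3,169),(5,60),(0,3)]) (48,[(3,22975),(5,3876),(0,131)])))) (.leaf false ⟨⟨-93,40,-120⟩,⟨40,-132,-75⟩,⟨120,75,-68⟩⟩ (13,[(3,231),(2,18200),(0,120)]) (13,[(3,1420),(2,13416),(0,75)]) (13,[(3,2376),(2,9633),(0,68)]))))) (.node ⟨0,1,0⟩ (.node ⟨0,0,1⟩ (.node ⟨85,0,132⟩ (.leaf false ⟨⟨-132,0,85⟩,⟨0,157,0⟩,⟨85,0,132⟩⟩ (132,[(3,24649),(0,85)]) (1,[(2,157)]) (1,[(0,1)])) (.node ⟨-132,-51,-68⟩ (.leaf false ⟨⟨-132,-51,-68⟩,⟨-68,-12,141⟩,⟨-51,148,-12⟩⟩ (1,[(0,1)]) (33,[(2,5809),(0,17),(3,471)]) (5,[(2,336),(1,3),(3,740)])) (.leaf false ⟨⟨-132,51,-68⟩,⟨-68,12,141⟩,⟨51,148,12⟩⟩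 (85,[(2,23288),(1,264),(0,85)]) (1445,[(2,402913),(1,1684),(0,340)]) (867,[(2,286400),(1,3387),(0,2516)])))) (.node ⟨-156,12,13⟩ (.node ⟨12,156,13⟩ (.node ⟨13,12,-156⟩ (.leaf false ⟨⟨-156,13,-12⟩,⟨12,156,13⟩,⟨13,12,-156⟩⟩ (12,[(3,157),(5,1884),(1,1)]) (1,[(1,1)]) (1,[(0,1)])) (.leaf false ⟨⟨-141,-68,12⟩,⟨-68,132,-51⟩,⟨-12,51,148⟩⟩ (471,[(3,822994),(0,5295),(1,202)]) (157,[(3,169246),(0,1016),(1,211)]) (628,[(3,39721),(0,828),(1,269)]))) (.node ⟨48,12,-149⟩ (.leaf false ⟨⟨-131,-72,-48⟩,⟨-72,139,-12⟩,⟨48,12,-149⟩⟩ (49776,[(1,27789),(2,45059),(0,17542)]) (91,[(1,117),(2,33),(4,30505)]) (1,[(0,1)])) (.leaf false ⟨⟨-149,12,48⟩,⟨-48,-72,-131⟩,⟨-12,139,-72⟩⟩ (48,[(3,19897),(0,149),(4,2364)]) (1,[(3,79),(1,4),(4,552)]) (1,[(3,59),(1,1),(4,295)]))))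 (.leaf false ⟨⟨-149,-12,-48⟩,⟨12,139,-72⟩,⟨48,-72,-131⟩⟩ (13,[(3,9425),(2,420),(0,48)]) (13,[(3,11076),(2,2671),(0,72)]) (13,[(3,19812),(2,636),(0,131)])))) (.node ⟨0,0,1⟩ (.node ⟨12,13,156⟩ (.node ⟨13,-156,12⟩ (.leaf false ⟨⟨-156,-12,13⟩,⟨12,13,156⟩,⟨13,-156,12⟩⟩ (12,[(4,1884),(3,157),(1,1)]) (1,[(1,1)]) (1,[(0,1)])) (.leaf false ⟨⟨-141,-68,12⟩,⟨-68,132,-51⟩,⟨-12,51,148⟩⟩ (157,[(3,300498),(1,154),(0,1845)]) (628,[(3,437559),(1,51),(0,3332)]) (471,[(3,124972),(1,517),(0,912)]))) (.node ⟨48,-149,12⟩ (.leaf false ⟨⟨-131,-48,-72⟩,⟨-72,-12,139⟩,⟨48,-149,12⟩⟩ (13,[(2,6552),(4,1127),(1,48)]) (13,[(2,3679),(4,792),(1,12)]) (1,[(0,1)])) (.leaf false ⟨⟨-149,48,12⟩,⟨-48,-131,-72⟩,⟨-12,-72,139⟩⟩ (48,[(2,2364),(0,149),(3,19897)])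 (1,[(2,552),(1,4),(3,79)]) (1,[(2,295),(1,1),(3,59)])))) (.node ⟨-72,93,-104⟩ (.node ⟨-117,-72,76⟩ (.node ⟨-104,93,-72⟩ (.leaf false ⟨⟨-117,-72,76⟩,⟨-104,93,-72⟩,⟨-12,-104,-117⟩⟩ (1,[(1,1)]) (1,[(0,1)]) (6,[(3,598),(2,1),(4,717)])) (.leaf false ⟨⟨-117,-104,-12⟩,⟨-72,93,-104⟩,⟨76,-72,-117⟩⟩ (420,[(2,1703),(1,772),(0,1575)]) (1,[(2,1)]) (32,[(2,193),(1,32),(0,193)]))) (.leaf false ⟨⟨-117,-104,-12⟩,⟨-72,93,-104⟩,⟨76,-72,-117⟩⟩ (19,[(4,2574),(3,2192),(0,3)]) (19,[(4,4410),(3,105),(0,26)]) (76,[(4,7913),(3,13896),(0,117)]))) (.leaf false ⟨⟨-117,-12,-104⟩,⟨-72,-104,93⟩,⟨76,-117,-72⟩⟩ (31,[(1,3640),(3,3915),(0,4)]) (93,[(1,2167),(3,14184),(0,104)]) (31,[(1,6288),(3,452),(0,39)])))))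
theorem pf157_ok : pf157.check (ok 157 6 ⟨5, 5, 5⟩) (fun _ r => r) [] = true := by decide +kernel

def pf163 : T := .node ⟨1,0,0⟩ (.node ⟨0,1,0⟩ (.node ⟨0,0,1⟩ (.leaf false ⟨⟨0,0,163⟩,⟨0,163,0⟩,⟨163,0,0⟩⟩ (1,[(0,163)]) (1,[(1,163)]) (1,[(2,163)])) (.node ⟨-18,18,-161⟩ (.node ⟨1,162,18⟩ (.leaf false ⟨⟨-18,18,-161⟩,⟨1,162,18⟩,⟨162,1,-18⟩⟩ (1,[(1,1)]) (1,[(0,1)]) (18,[(2,163),(4,2934),(1,1)])) (.leaf false ⟨⟨-17,6,-162⟩,⟨102,127,-6⟩,⟨126,-102,-17⟩⟩ (4401,[(4,4564),(1,4392),(0,325)]) (3,[(4,307),(3,543),(0,1)]) (18,[(4,2285),(3,918),(0,17)]))) (.leaf false ⟨⟨1,162,-18⟩,⟨18,-18,-161⟩,⟨162,1,18⟩⟩ (18,[(1,485),(0,1),(2,2934)]) (1,[(1,322),(0,1)]) (1,[(1,1431),(0,9),(2,163)])))) (.node ⟨0,0,1⟩ (.node ⟨-18,-161,18⟩ (.node ⟨1,18,162⟩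 (.leaf false ⟨⟨-18,-161,18⟩,⟨1,18,162⟩,⟨162,-18,1⟩⟩ (1,[(1,1)]) (1,[(0,1)]) (18,[(4,2934),(3,163),(1,1)])) (.leaf false ⟨⟨-17,-162,6⟩,⟨102,-6,127⟩,⟨126,-17,-102⟩⟩ (4401,[(4,4564),(0,325),(1,4392)]) (3,[(2,543),(4,307),(0,1)]) (18,[(2,918),(4,2285),(0,17)]))) (.leaf false ⟨⟨1,-18,162⟩,⟨18,-161,-18⟩,⟨162,18,1⟩⟩ (18,[(1,2934),(0,1),(2,485)]) (1,[(0,1),(2,322)]) (1,[(1,163),(0,9),(2,1431)]))) (.node ⟨10,-150,63⟩ (.node ⟨118,78,-81⟩ (.node ⟨111,-62,102⟩ (.leaf false ⟨⟨10,-150,63⟩,⟨15,-62,-150⟩,⟨162,15,10⟩⟩ (1,[(2,1)]) (37,[(3,6060),(0,5),(4,1984)]) (13356,[(1,9791),(0,9084),(2,1)])) (.leaf false ⟨⟨-98,-126,-33⟩,⟨-63,82,-126⟩,⟨114,-63,-98⟩⟩ (1899,[(5,27496),(2,2483),(0,2148)]) (3423,[(1,1277),(2,163),(0,3315)]) (2177028,[(1,3246155),(2,3224629),(0,1505508)])))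 (.leaf false ⟨⟨-63,-150,10⟩,⟨10,-15,-162⟩,⟨150,-62,15⟩⟩ (13,[(2,1895),(4,2131),(0,25)]) (26,[(2,4617),(4,850),(0,5)]) (39,[(2,1926),(4,9508),(0,31)]))) (.leaf false ⟨⟨-17,-102,-126⟩,⟨-6,127,-102⟩,⟨162,-6,-17⟩⟩ (1,[(3,3),(2,402),(0,2)]) (21,[(3,214),(2,2433),(0,34)]) (63,[(3,10376),(2,2928),(0,17)]))))) (.node ⟨0,1,0⟩ (.node ⟨0,0,1⟩ (.node ⟨-161,-18,18⟩ (.node ⟨18,1,162⟩ (.leaf false ⟨⟨-161,-18,18⟩,⟨-18,162,1⟩,⟨18,1,162⟩⟩ (1,[(1,1)]) (18,[(1,1),(4,163),(3,2934)]) (1,[(0,1)])) (.leaf false ⟨⟨-162,-17,6⟩,⟨-17,126,-102⟩,⟨-6,102,127⟩⟩ (4401,[(1,4392),(0,325),(3,4564)]) (18,[(2,918),(0,17),(3,2285)]) (3,[(2,543),(0,1),(3,307)]))) (.leaf false ⟨⟨-161,18,-18⟩,⟨-18,1,162⟩,⟨18,162,1⟩⟩ (1,[(3,322),(0,1)]) (18,[(1,2934),(3,485),(0,1)])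 (1,[(1,163),(3,1431),(0,9)]))) (.node ⟨-150,10,63⟩ (.node ⟨78,118,-81⟩ (.node ⟨-62,111,102⟩ (.leaf false ⟨⟨-150,10,63⟩,⟨-62,15,-150⟩,⟨15,162,10⟩⟩ (1,[(2,1)]) (37,[(3,6060),(5,1984),(0,5)]) (13356,[(2,1),(0,9084),(1,9791)])) (.leaf false ⟨⟨-162,10,-15⟩,⟨10,-63,-150⟩,⟨15,150,-62⟩⟩ (1899,[(2,2909),(4,220336),(0,2076)]) (60473,[(2,55583),(1,45193),(0,87373)]) (2412,[(2,1207),(4,21100),(1,2785)]))) (.leaf false ⟨⟨-150,-63,10⟩,⟨-62,150,15⟩,⟨-15,10,-162⟩⟩ (13,[(2,1895),(0,25),(3,2131)]) (39,[(2,1926),(0,31),(3,9508)]) (26,[(2,4617),(0,5),(3,850)]))) (.leaf false ⟨⟨-102,-17,-126⟩,⟨-6,162,-17⟩,⟨127,-6,-102⟩⟩ (1,[(3,402),(2,3),(0,2)]) (63,[(3,2928),(2,10376),(0,17)]) (21,[(3,2433),(2,214),(0,34)])))) (.node ⟨0,0,1⟩ (.node ⟨63,-150,10⟩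 (.node ⟨-81,78,118⟩ (.node ⟨102,-62,111⟩ (.leaf false ⟨⟨-150,-62,15⟩,⟨10,15,162⟩,⟨63,-150,10⟩⟩ (37,[(5,6060),(4,1984),(0,5)]) (13356,[(1,9791),(2,1),(0,9084)]) (1,[(2,1)])) (.leaf false ⟨⟨-162,-15,10⟩,⟨10,-150,-63⟩,⟨15,-62,150⟩⟩ (1266,[(3,311155),(0,2805),(2,1286)]) (5697,[(3,8914),(0,3975),(2,7340)]) (201,[(3,23652),(1,46),(2,107)]))) (.leaf false ⟨⟨-162,-15,10⟩,⟨10,-150,-63⟩,⟨15,-62,150⟩⟩ (26,[(2,850),(4,4617),(0,5)]) (13,[(2,2131),(4,1895),(0,25)]) (39,[(2,9508),(4,1926),(0,31)]))) (.leaf false ⟨⟨-126,-102,-17⟩,⟨-102,127,-6⟩,⟨-17,-6,162⟩⟩ (1,[(1,3),(0,2),(2,402)]) (21,[(1,214),(0,34),(2,2433)]) (63,[(1,10376),(0,17),(2,2928)]))) (.node ⟨18,-161,18⟩ (.leaf false ⟨⟨-162,-18,1⟩,⟨1,-18,-162⟩,⟨18,-161,18⟩⟩ (161,[(1,163),(3,26406),(0,18)])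 (161,[(1,26406),(3,163),(0,18)]) (1,[(0,1)])) (.node ⟨42,-66,-143⟩ (.leaf false ⟨⟨-162,1,-18⟩,⟨1,-162,-18⟩,⟨18,18,-161⟩⟩ (1,[(1,1),(4,144),(3,160)]) (143,[(4,613),(3,21978),(0,18)]) (2201,[(1,1200),(4,36516),(0,2327)])) (.leaf false ⟨⟨-161,18,18⟩,⟨-18,-162,1⟩,⟨-18,1,-162⟩⟩ (6,[(2,3181),(0,23),(3,1410)]) (7,[(2,422),(0,3),(3,1332)]) (1,[(2,144),(1,1),(3,160)]))))))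
theorem pf163_ok : pf163.check (ok 163 6 ⟨5, 5, 5⟩) (fun _ r => r) [] = true := by decide +kernel

def pf169 : T := .node ⟨1,0,0⟩ (.node ⟨0,1,0⟩ (.node ⟨0,0,1⟩ (.leaf false ⟨⟨0,0,169⟩,⟨0,169,0⟩,⟨169,0,0⟩⟩ (1,[(0,169)]) (1,[(1,169)]) (1,[(2,169)])) (.node ⟨-65,0,-156⟩ (.leaf false ⟨⟨-65,0,-156⟩,⟨0,169,0⟩,⟨156,0,-65⟩⟩ (1,[(0,1)]) (1,[(2,169)]) (12,[(3,2197),(0,5)])) (.node ⟨156,-56,33⟩ (.leaf false ⟨⟨24,33,-164⟩,⟨52,156,39⟩,⟨159,-56,12⟩⟩ (13,[(2,2198),(0,2),(3,541)]) (5,[(2,429),(1,4),(3,780)]) (52,[(2,1125),(0,53),(3,56)])) (.leaf false ⟨⟨-144,87,16⟩,⟨-9,16,-168⟩,⟨88,144,9⟩⟩ (3640,[(2,614393),(1,5508),(0,5655)]) (455,[(2,110994),(1,249),(0,130)]) (455,[(2,491439),(1,3424),(0,1170)]))))) (.node ⟨0,0,1⟩ (.node ⟨-65,-156,0⟩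 (.leaf false ⟨⟨-65,-156,0⟩,⟨0,0,169⟩,⟨156,-65,0⟩⟩ (1,[(0,1)]) (1,[(1,169)]) (12,[(3,2197),(0,5)])) (.node ⟨156,33,-56⟩ (.leaf false ⟨⟨24,-164,33⟩,⟨52,39,156⟩,⟨159,12,-56⟩⟩ (13,[(2,541),(0,2),(3,2198)]) (5,[(2,780),(1,4),(3,429)]) (52,[(2,56),(0,53),(3,1125)])) (.leaf false ⟨⟨-144,-9,88⟩,⟨16,-168,9⟩,⟨87,16,144⟩⟩ (455,[(1,708),(3,90948),(0,715)]) (728,[(1,460),(3,190203),(0,117)]) (455,[(1,3417),(3,487162),(0,1170)])))) (.node ⟨-60,-144,-65⟩ (.node ⟨25,60,-156⟩ (.leaf false ⟨⟨-60,-144,-65⟩,⟨25,60,-156⟩,⟨156,-65,0⟩⟩ (1,[(1,1)]) (1,[(0,1)]) (1,[(4,156),(3,65)])) (.leaf false ⟨⟨0,-156,-65⟩,⟨0,-65,156⟩,⟨169,0,0⟩⟩ (5,[(2,2353),(4,325),(0,13)]) (12,[(2,156),(4,325),(0,13)]) (1,[(4,169)]))) (.leaf false ⟨⟨9,16,-168⟩,⟨88,-144,-9⟩,⟨144,87,16⟩⟩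 (20,[(1,3555),(0,3),(2,112)]) (15,[(1,1565),(0,22),(2,5328)]) (5,[(1,700),(0,12),(2,1293)]))))) (.node ⟨0,1,0⟩ (.node ⟨0,0,1⟩ (.node ⟨-156,-65,0⟩ (.leaf false ⟨⟨-156,-65,0⟩,⟨-65,156,0⟩,⟨0,0,169⟩⟩ (1,[(0,1)]) (12,[(0,5),(2,2197)]) (1,[(1,169)])) (.node ⟨33,156,-56⟩ (.leaf false ⟨⟨-164,24,33⟩,⟨12,159,-56⟩,⟨39,52,156⟩⟩ (13,[(2,541),(4,2198),(0,2)]) (52,[(2,56),(4,1125),(0,53)]) (5,[(2,780),(4,429),(1,4)])) (.leaf false ⟨⟨-168,-9,16⟩,⟨9,88,144⟩,⟨16,-144,87⟩⟩ (455,[(4,110994),(1,249),(0,130)]) (455,[(4,491439),(1,3424),(0,1170)]) (3640,[(4,614393),(1,5508),(0,5655)])))) (.node ⟨-156,25,60⟩ (.node ⟨-65,-60,-144⟩ (.leaf false ⟨⟨-156,25,60⟩,⟨-65,-60,-144⟩,⟨0,156,-65⟩⟩ (1,[(1,1)]) (1,[(0,1)]) (1,[(2,65),(3,156)])) (.leaf false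 ⟨⟨-168,9,16⟩,⟨-9,88,-144⟩,⟨16,144,87⟩⟩ (20,[(2,112),(4,3555),(0,3)]) (15,[(2,5328),(4,1565),(0,22)]) (5,[(2,1293),(4,700),(0,12)]))) (.leaf false ⟨⟨-119,0,-120⟩,⟨0,169,0⟩,⟨120,0,-119⟩⟩ (1,[(3,431),(2,50),(0,2)]) (1,[(2,169)]) (60,[(3,11364),(2,2975),(0,119)])))) (.node ⟨0,0,1⟩ (.node ⟨-156,60,25⟩ (.node ⟨-65,-144,-60⟩ (.leaf false ⟨⟨-156,60,25⟩,⟨-65,-144,-60⟩,⟨0,-65,156⟩⟩ (1,[(1,1)]) (1,[(0,1)]) (1,[(2,156),(3,65)])) (.leaf false ⟨⟨-168,-9,16⟩,⟨9,88,144⟩,⟨16,-144,87⟩⟩ (15,[(4,2780),(3,711),(0,4)]) (5,[(4,735),(3,1288),(0,12)]) (20,[(4,1565),(3,7056),(0,29)]))) (.leaf false ⟨⟨-119,-120,0⟩,⟨0,0,169⟩,⟨120,-119,0⟩⟩ (1,[(1,50),(3,431),(0,2)]) (1,[(1,169)]) (60,[(1,2975),(3,11364),(0,119)]))) (.node ⟨24,-159,52⟩ (.node ⟨-164,-12,39⟩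 (.leaf false ⟨⟨-164,-12,39⟩,⟨-33,-56,-156⟩,⟨24,-159,52⟩⟩ (1,[(0,1)]) (12,[(2,2197),(0,3),(1,4)]) (1,[(1,1)])) (.leaf false ⟨⟨-164,12,-39⟩,⟨-24,-159,52⟩,⟨33,-56,-156⟩⟩ (1,[(4,328),(0,1)]) (1,[(4,48),(1,1)]) (33,[(4,26383),(1,24),(0,164)]))) (.node ⟨-159,52,24⟩ (.leaf false ⟨⟨-159,52,24⟩,⟨-56,-156,-33⟩,⟨-12,39,-164⟩⟩ (1,[(0,1)]) (159,[(2,6591),(0,56),(3,27716)]) (2,[(2,276),(1,1),(3,81)])) (.leaf false ⟨⟨-164,24,-33⟩,⟨-12,-159,-56⟩,⟨39,52,-156⟩⟩ (52,[(1,33),(4,7736),(3,3999)]) (3,[(4,1149),(3,113),(0,7)]) (326,[(1,468),(4,151749),(0,1105)]))))))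
theorem pf169_ok : pf169.check (ok 169 6 ⟨5, 5, 5⟩) (fun _ r => r) [] = true := by decide +kernel

def pf173 : T := .node ⟨1,0,0⟩ (.node ⟨0,1,0⟩ (.node ⟨0,0,1⟩ (.node ⟨-108,24,133⟩ (.node ⟨72,147,-56⟩ (.node ⟨133,-24,108⟩ (.leaf false ⟨⟨-84,88,123⟩,⟨72,147,-56⟩,⟨133,-24,108⟩⟩ (9,[(3,176),(4,624),(2,7)]) (1,[(1,1)]) (1,[(0,1)])) (.leaf false ⟨⟨-155,48,-60⟩,⟨-48,45,160⟩,⟨60,160,-27⟩⟩ (1,[(3,156),(5,111),(0,2)]) (8,[(3,2900),(5,1611),(0,15)]) (3,[(3,2079),(5,2840),(0,20)]))) (.leaf false ⟨⟨-120,-48,115⟩,⟨-20,165,48⟩,⟨123,-20,120⟩⟩ (56,[(4,1560),(3,14217),(0,115)]) (7,[(4,292),(3,2037),(0,6)]) (7,[(4,1941),(3,2065),(0,15)]))) (.node ⟨84,-72,133⟩ (.node ⟨-24,147,88⟩ (.leaf false ⟨⟨-24,147,88⟩,⟨108,-56,123⟩,⟨133,72,-84⟩⟩ (1,[(0,1)])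 (15,[(3,1712),(1,9),(2,8)]) (108,[(3,8617),(2,133),(4,10968)])) (.leaf false ⟨⟨24,-147,88⟩,⟨108,-56,-123⟩,⟨133,72,84⟩⟩ (1,[(3,176),(0,1)]) (2,[(3,546),(0,9),(4,1211)]) (24,[(3,13720),(0,133),(4,21279)]))) (.leaf false ⟨⟨-123,108,-56⟩,⟨84,133,72⟩,⟨88,24,-147⟩⟩ (80,[(2,12012),(1,3),(0,121)]) (96,[(2,81392),(1,287),(0,273)]) (60,[(2,9268),(1,87),(0,49)])))) (.node ⟨-60,48,-155⟩ (.node ⟨45,160,48⟩ (.node ⟨160,-27,-60⟩ (.leaf false ⟨⟨-48,60,-155⟩,⟨45,160,48⟩,⟨160,-27,-60⟩⟩ (1,[(5,12),(4,12),(2,1)]) (1,[(1,1)]) (1,[(0,1)])) (.leaf false ⟨⟨-165,52,0⟩,⟨0,0,-173⟩,⟨52,165,0⟩⟩ (27,[(3,3120),(5,3865),(0,52)]) (1,[(3,173)]) (9,[(3,3300),(5,9268),(0,55)]))) (.leaf false ⟨⟨-60,-48,-155⟩,⟨27,160,-60⟩,⟨160,-45,-48⟩⟩ (48,[(4,4095),(3,22496),(0,155)])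 (4,[(4,333),(3,1440),(0,5)]) (1,[(4,205),(3,115),(0,1)]))) (.leaf false ⟨⟨24,133,-108⟩,⟨88,84,123⟩,⟨147,-72,-56⟩⟩ (5,[(1,850),(0,2),(2,761)]) (15,[(1,1565),(0,22),(2,2316)]) (20,[(1,8715),(0,49),(2,912)])))) (.node ⟨0,0,1⟩ (.node ⟨-60,-155,48⟩ (.node ⟨45,48,160⟩ (.node ⟨160,-60,-27⟩ (.leaf false ⟨⟨-48,-155,60⟩,⟨45,48,160⟩,⟨160,-60,-27⟩⟩ (1,[(3,12),(5,12),(2,1)]) (1,[(1,1)]) (1,[(0,1)])) (.leaf false ⟨⟨-165,0,52⟩,⟨0,-173,0⟩,⟨52,0,165⟩⟩ (27,[(5,3865),(4,3120),(0,52)]) (1,[(4,173)]) (9,[(5,9268),(4,3300),(0,55)]))) (.leaf false ⟨⟨-60,-155,-48⟩,⟨27,-60,160⟩,⟨160,-48,-45⟩⟩ (48,[(2,22496),(4,4095),(0,155)]) (4,[(2,1440),(4,333),(0,5)]) (1,[(2,115),(4,205),(0,1)]))) (.leaf false ⟨⟨24,-108,133⟩,⟨88,123,84⟩,⟨147,-56,-72⟩⟩ (5,[(1,761),(0,2),(2,850)])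 (15,[(1,2316),(0,22),(2,1565)]) (20,[(1,912),(0,49),(2,8715)]))) (.node ⟨165,0,52⟩ (.leaf false ⟨⟨0,-173,0⟩,⟨52,0,-165⟩,⟨165,0,52⟩⟩ (1,[(2,173)]) (165,[(1,29929),(0,52)]) (1,[(0,1)])) (.node ⟨115,48,-120⟩ (.leaf false ⟨⟨-120,-20,-123⟩,⟨48,-165,-20⟩,⟨115,48,-120⟩⟩ (52,[(4,14055),(3,1040),(1,123)]) (6,[(4,173),(3,1038),(0,1)]) (1,[(0,1)])) (.leaf false ⟨⟨-164,-48,27⟩,⟨27,-144,-92⟩,⟨48,-83,144⟩⟩ (52,[(4,12797),(0,52),(1,93)]) (13,[(4,23481),(0,39),(1,113)]) (624,[(4,279767),(0,1079),(1,762)])))))) (.node ⟨0,1,0⟩ (.node ⟨0,0,1⟩ (.node ⟨-155,-60,48⟩ (.node ⟨48,45,160⟩ (.node ⟨-60,160,-27⟩ (.leaf false ⟨⟨-155,-48,60⟩,⟨-60,160,-27⟩,⟨48,45,160⟩⟩ (1,[(3,12),(2,1),(4,12)]) (1,[(0,1)]) (1,[(1,1)])) (.leaf false ⟨⟨-173,0,0⟩,⟨0,-165,52⟩,⟨0,52,165⟩⟩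 (1,[(5,173)]) (27,[(5,3120),(4,3865),(0,52)]) (9,[(5,3300),(4,9268),(0,55)]))) (.leaf false ⟨⟨-155,-60,-48⟩,⟨-60,27,160⟩,⟨-48,160,-45⟩⟩ (48,[(2,22496),(0,155),(3,4095)]) (4,[(2,1440),(0,5),(3,333)]) (1,[(2,115),(0,1),(3,205)]))) (.leaf false ⟨⟨-155,60,48⟩,⟨48,160,-45⟩,⟨60,27,160⟩⟩ (1,[(1,96),(3,310),(0,1)]) (3,[(1,249),(3,1096),(0,8)]) (20,[(1,3632),(3,195),(0,9)]))) (.node ⟨0,165,52⟩ (.leaf false ⟨⟨-173,0,0⟩,⟨0,52,-165⟩,⟨0,165,52⟩⟩ (1,[(3,173)]) (165,[(1,29929),(0,52)]) (1,[(0,1)])) (.node ⟨48,115,-120⟩ (.leaf false ⟨⟨-165,48,-20⟩,⟨-20,-120,-123⟩,⟨48,115,-120⟩⟩ (6,[(4,1038),(3,173),(0,1)]) (52,[(1,123),(4,1040),(3,14055)]) (1,[(0,1)])) (.leaf false ⟨⟨-165,-48,-20⟩,⟨-48,115,120⟩,⟨-20,120,-123⟩⟩ (208,[(1,1730),(0,715),(3,357691)])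 (1,[(0,1),(3,230)]) (156,[(1,519),(0,65),(3,111830)]))))) (.node ⟨0,0,1⟩ (.node ⟨0,52,165⟩ (.leaf false ⟨⟨-173,0,0⟩,⟨0,-165,52⟩,⟨0,52,165⟩⟩ (1,[(3,173)]) (165,[(0,52),(2,29929)]) (1,[(0,1)])) (.node ⟨48,-120,115⟩ (.leaf false ⟨⟨-165,-20,48⟩,⟨-20,-123,-120⟩,⟨48,-120,115⟩⟩ (6,[(2,173),(4,1038),(0,1)]) (52,[(2,14055),(4,1040),(1,123)]) (1,[(0,1)])) (.leaf false ⟨⟨-165,-20,-48⟩,⟨-48,120,115⟩,⟨-20,-123,120⟩⟩ (208,[(2,357691),(0,715),(1,1730)]) (1,[(2,230),(0,1)]) (156,[(2,111830),(0,65),(1,519)])))) (.leaf false ⟨⟨-173,0,0⟩,⟨0,-173,0⟩,⟨0,0,-173⟩⟩ (1,[(2,173)]) (1,[(1,173)]) (1,[(0,173)]))))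
theorem pf173_ok : pf173.check (ok 173 6 ⟨5, 5, 5⟩) (fun _ r => r) [] = true := by decide +kernel

def pf179 : T := .node ⟨1,0,0⟩ (.node ⟨0,1,0⟩ (.node ⟨0,0,1⟩ (.node ⟨-114,82,111⟩ (.node ⟨54,159,-62⟩ (.leaf false ⟨⟨-114,82,111⟩,⟨54,159,-62⟩,⟨127,6,126⟩⟩ (1,[(1,1)]) (1,[(0,1)]) (41,[(2,4833),(4,5549),(1,3)])) (.leaf false ⟨⟨-114,54,127⟩,⟨82,159,6⟩,⟨111,-62,126⟩⟩ (179,[(3,55132),(1,35),(0,304)]) (31,[(4,2704),(3,5406),(0,3)]) (31,[(4,6843),(3,8095),(0,63)]))) (.leaf false ⟨⟨6,159,82⟩,⟨126,-62,111⟩,⟨127,54,-114⟩⟩ (19,[(1,1669),(0,1),(2,3103)]) (19,[(1,4440),(0,21),(2,544)]) (114,[(1,1101),(0,127),(2,16570)]))) (.node ⟨-98,81,-126⟩ (.node ⟨154,-63,-66⟩ (.node ⟨81,154,42⟩ (.leaf false ⟨⟨-42,66,-161⟩,⟨81,154,42⟩,⟨154,-63,-66⟩⟩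 (7,[(3,749),(4,219),(2,3)]) (1,[(0,1)]) (1,[(1,1)])) (.leaf false ⟨⟨-138,-26,-111⟩,⟨1,174,-42⟩,⟨114,-33,-134⟩⟩ (14,[(5,1065),(4,5334),(0,37)]) (1,[(5,82),(4,328),(0,1)]) (21,[(5,7821),(4,9625),(0,67)]))) (.leaf false ⟨⟨-111,114,82⟩,⟨-62,54,-159⟩,⟨126,127,-6⟩⟩ (21,[(2,786),(4,3521),(0,38)]) (7,[(2,1509),(4,490),(0,6)]) (63,[(2,8760),(4,27496),(0,127)]))) (.leaf false ⟨⟨15,54,-170⟩,⟨90,145,54⟩,⟨154,-90,-15⟩⟩ (98,[(1,18550),(0,15),(2,6507)]) (49,[(1,3024),(0,45),(2,10750)]) (7,[(1,1491),(0,11),(2,261)])))) (.node ⟨0,0,1⟩ (.node ⟨-98,-126,81⟩ (.node ⟨154,-66,-63⟩ (.node ⟨81,42,154⟩ (.leaf false ⟨⟨-42,-161,66⟩,⟨81,42,154⟩,⟨154,-66,-63⟩⟩ (7,[(3,219),(4,749),(2,3)]) (1,[(0,1)]) (1,[(1,1)])) (.leaf false ⟨⟨-138,-111,-26⟩,⟨1,-42,174⟩,⟨114,-134,-33⟩⟩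 (14,[(3,5334),(5,1065),(0,37)]) (1,[(3,328),(5,82),(0,1)]) (21,[(3,9625),(5,7821),(0,67)]))) (.leaf false ⟨⟨-111,82,114⟩,⟨-62,-159,54⟩,⟨126,-6,127⟩⟩ (21,[(4,3521),(3,786),(0,38)]) (7,[(4,490),(3,1509),(0,6)]) (63,[(4,27496),(3,8760),(0,127)]))) (.leaf false ⟨⟨15,-170,54⟩,⟨90,54,145⟩,⟨154,-15,-90⟩⟩ (98,[(1,6507),(0,15),(2,18550)]) (49,[(1,10750),(0,45),(2,3024)]) (7,[(1,261),(0,11),(2,1491)]))) (.node ⟨159,-26,78⟩ (.node ⟨6,-161,78⟩ (.node ⟨-26,-177,-6⟩ (.leaf false ⟨⟨-26,-177,-6⟩,⟨78,-6,-161⟩,⟨159,-26,78⟩⟩ (1,[(0,1)]) (13,[(3,2327),(5,537),(2,3)]) (1,[(2,1)])) (.leaf false ⟨⟨1,-174,-42⟩,⟨114,33,-134⟩,⟨138,-26,111⟩⟩ (6,[(3,330),(1,1),(4,883)]) (13,[(3,2084),(0,57),(4,9660)]) (332,[(0,1683),(1,343),(4,251300)]))) (.leaf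 false ⟨⟨1,-138,-114⟩,⟨42,111,-134⟩,⟨174,-26,33⟩⟩ (1989,[(1,127),(3,759654),(0,3034)]) (117,[(1,40),(3,24774),(0,241)]) (1326,[(1,1486),(3,144765),(0,925)]))) (.leaf false ⟨⟨-111,42,-134⟩,⟨-26,-174,-33⟩,⟨138,1,-114⟩⟩ (39,[(3,6324),(2,104),(0,67)]) (26,[(3,1073),(2,4810),(0,11)]) (13,[(3,4815),(2,481),(0,19)]))))) (.node ⟨0,1,0⟩ (.node ⟨0,0,1⟩ (.node ⟨-54,145,-90⟩ (.node ⟨-161,-42,66⟩ (.node ⟨42,81,154⟩ (.leaf false ⟨⟨-161,-42,66⟩,⟨-66,154,-63⟩,⟨42,81,154⟩⟩ (1,[(1,1)]) (10,[(5,282),(2,7),(4,525)]) (1,[(0,1)])) (.leaf false ⟨⟨-170,-54,15⟩,⟨-54,145,-90⟩,⟨-15,90,154⟩⟩ (21,[(3,13405),(0,85),(4,5751)]) (7,[(3,756),(0,9),(4,1744)]) (14,[(3,2926),(0,5),(4,1665)]))) (.leaf false ⟨⟨-170,15,54⟩,⟨-15,154,-90⟩,⟨54,90,145⟩⟩ (14,[(2,1086),(4,3185),(0,5)])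 (3,[(2,456),(4,1816),(0,11)]) (7,[(2,2005),(4,2037),(0,15)]))) (.leaf false ⟨⟨-170,-15,54⟩,⟨15,154,90⟩,⟨54,-90,145⟩⟩ (5,[(3,1012),(2,360),(0,3)]) (1,[(3,39),(2,299),(0,1)]) (18,[(3,594),(2,2585),(0,29)]))) (.node ⟨-26,159,78⟩ (.node ⟨-161,6,78⟩ (.node ⟨-177,-26,-6⟩ (.leaf false ⟨⟨-177,-26,-6⟩,⟨-26,159,78⟩,⟨-6,78,-161⟩⟩ (1,[(0,1)]) (1,[(2,1)]) (13,[(3,2327),(2,3),(4,537)])) (.leaf false ⟨⟨-174,1,-42⟩,⟨-26,138,111⟩,⟨33,114,-134⟩⟩ (6,[(3,330),(5,883),(1,1)]) (332,[(5,251300),(1,343),(0,1683)]) (13,[(3,2084),(5,9660),(0,57)]))) (.leaf false ⟨⟨-138,1,-114⟩,⟨-26,174,33⟩,⟨111,42,-134⟩⟩ (1989,[(4,759654),(1,127),(0,3034)]) (1326,[(4,144765),(1,1486),(0,925)]) (117,[(4,24774),(1,40),(0,241)]))) (.leaf false ⟨⟨-174,-26,-33⟩,⟨1,138,-114⟩,⟨42,-111,-134⟩⟩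 (26,[(3,4810),(2,1073),(0,11)]) (13,[(3,481),(2,4815),(0,19)]) (39,[(3,104),(2,6324),(0,67)])))) (.node ⟨0,0,1⟩ (.node ⟨-26,78,159⟩ (.node ⟨-161,78,6⟩ (.node ⟨-177,-6,-26⟩ (.leaf false ⟨⟨-177,-6,-26⟩,⟨-26,78,159⟩,⟨-6,-161,78⟩⟩ (1,[(0,1)]) (1,[(2,1)]) (13,[(3,537),(2,3),(4,2327)])) (.leaf false ⟨⟨-174,-42,1⟩,⟨-26,111,138⟩,⟨33,-134,114⟩⟩ (6,[(1,1),(5,883),(4,330)]) (332,[(1,343),(5,251300),(0,1683)]) (13,[(5,9660),(4,2084),(0,57)]))) (.leaf false ⟨⟨-138,-114,1⟩,⟨-26,33,174⟩,⟨111,-134,42⟩⟩ (1989,[(1,127),(4,759654),(0,3034)]) (1326,[(1,1486),(4,144765),(0,925)]) (117,[(1,40),(4,24774),(0,241)]))) (.leaf false ⟨⟨-174,-33,-26⟩,⟨1,-114,138⟩,⟨42,-134,-111⟩⟩ (26,[(1,1073),(3,4810),(0,11)]) (13,[(1,4815),(3,481),(0,19)]) (39,[(1,6324),(3,104),(0,67)])))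 (.leaf false ⟨⟨-179,0,0⟩,⟨0,-179,0⟩,⟨0,0,-179⟩⟩ (1,[(2,179)]) (1,[(1,179)]) (1,[(0,179)]))))
theorem pf179_ok : pf179.check (ok 179 6 ⟨5, 5, 5⟩) (fun _ r => r) [] = true := by decide +kernel

def pf181 : T := .node ⟨1,0,0⟩ (.node ⟨0,1,0⟩ (.node ⟨0,0,1⟩ (.leaf false ⟨⟨0,0,181⟩,⟨0,181,0⟩,⟨181,0,0⟩⟩ (1,[(0,181)]) (1,[(1,181)]) (1,[(2,181)])) (.node ⟨0,180,19⟩ (.leaf false ⟨⟨0,19,-180⟩,⟨0,180,19⟩,⟨181,0,0⟩⟩ (180,[(1,32761),(0,19)]) (1,[(0,1)]) (1,[(3,181)])) (.node ⟨-80,45,-156⟩ (.leaf false ⟨⟨-80,45,-156⟩,⟨75,-144,-80⟩,⟨144,100,-45⟩⟩ (1,[(0,1)]) (19,[(1,80),(4,1425),(3,11664)]) (52,[(4,8688),(3,4525),(0,15)])) (.leaf false ⟨⟨0,181,0⟩,⟨19,0,-180⟩,⟨180,0,19⟩⟩ (1,[(3,181)]) (1520,[(1,17364),(0,361),(3,3141765)]) (76,[(1,1328),(0,171),(3,246735)])))))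 (.node ⟨0,0,1⟩ (.node ⟨0,19,180⟩ (.leaf false ⟨⟨0,-180,19⟩,⟨0,19,180⟩,⟨181,0,0⟩⟩ (180,[(0,19),(2,32761)]) (1,[(0,1)]) (1,[(3,181)])) (.node ⟨-80,-156,45⟩ (.leaf false ⟨⟨-80,-156,45⟩,⟨75,-80,-144⟩,⟨144,-45,100⟩⟩ (1,[(0,1)]) (19,[(2,11664),(4,1425),(1,80)]) (52,[(2,4525),(4,8688),(0,15)])) (.leaf false ⟨⟨0,0,181⟩,⟨19,-180,0⟩,⟨180,19,0⟩⟩ (1,[(2,181)]) (1520,[(2,3141765),(0,361),(1,17364)]) (76,[(2,246735),(0,171),(1,1328)])))) (.node ⟨84,91,-132⟩ (.node ⟨144,-80,75⟩ (.node ⟨-45,-156,-80⟩ (.leaf false ⟨⟨-45,-156,-80⟩,⟨100,45,-144⟩,⟨144,-80,75⟩⟩ (1,[(0,1)]) (11,[(2,12),(5,92),(4,597)]) (1,[(1,1)])) (.leaf false ⟨⟨12,-179,-24⟩,⟨109,-12,144⟩,⟨144,24,-107⟩⟩ (15,[(3,680),(0,4),(4,3309)]) (45,[(3,2240),(0,109),(4,17544)]) (5,[(3,1815),(0,16),(4,2376)])))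 (.leaf false ⟨⟨-152,-21,-96⟩,⟨51,-168,-44⟩,⟨84,64,-147⟩⟩ (25,[(4,808),(3,3085),(0,32)]) (75,[(4,10161),(3,16120),(0,44)]) (25,[(4,9156),(3,2320),(0,49)]))) (.node ⟨-80,-75,-144⟩ (.leaf false ⟨⟨-80,-75,-144⟩,⟨-45,-144,100⟩,⟨156,-80,-45⟩⟩ (1,[(0,1)]) (91,[(2,9908),(4,8001),(1,144)]) (91,[(2,14655),(4,20916),(1,80)])) (.leaf false ⟨⟨-108,-144,19⟩,⟨96,-53,144⟩,⟨109,-96,-108⟩⟩ (245,[(2,189853),(0,567),(1,855)]) (245,[(2,817008),(0,3297),(1,2860)]) (140,[(2,684036),(0,2569),(1,2265)])))))) (.node ⟨0,1,0⟩ (.node ⟨0,0,1⟩ (.node ⟨19,0,180⟩ (.leaf false ⟨⟨-180,0,19⟩,⟨0,181,0⟩,⟨19,0,180⟩⟩ (180,[(3,32761),(0,19)]) (1,[(2,181)]) (1,[(0,1)])) (.node ⟨-156,-80,45⟩ (.leaf false ⟨⟨-156,-80,45⟩,⟨-80,75,-144⟩,⟨-45,144,100⟩⟩ (1,[(0,1)])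 (19,[(2,11664),(1,80),(3,1425)]) (52,[(2,4525),(0,15),(3,8688)])) (.leaf false ⟨⟨-180,19,0⟩,⟨0,0,181⟩,⟨19,180,0⟩⟩ (1520,[(2,3141765),(1,17364),(0,361)]) (1,[(2,181)]) (76,[(2,246735),(1,1328),(0,171)])))) (.node ⟨-12,156,91⟩ (.node ⟨-165,-44,60⟩ (.node ⟨-44,-60,-165⟩ (.leaf false ⟨⟨-165,-44,60⟩,⟨-60,165,-44⟩,⟨-44,-60,-165⟩⟩ (1,[(1,1)]) (11,[(3,724),(1,4),(4,1991)]) (1,[(0,1)])) (.leaf false ⟨⟨-179,-12,24⟩,⟨-24,144,-107⟩,⟨12,109,144⟩⟩ (1991,[(3,348606),(1,2553),(0,1474)]) (1991,[(3,1353337),(1,1944),(0,6204)]) (7964,[(3,1978149),(1,4076),(0,17457)]))) (.leaf false ⟨⟨-156,37,-84⟩,⟨-12,156,91⟩,⟨91,84,-132⟩⟩ (44,[(2,1476),(4,12969),(0,37)]) (1,[(1,1)]) (11,[(2,192),(4,2464),(0,21)]))) (.node ⟨60,-44,-165⟩ (.leaf false ⟨⟨-168,64,-21⟩,⟨-44,-147,-96⟩,⟨51,84,-152⟩⟩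 (13,[(4,2220),(3,1300),(1,3)]) (91,[(4,5156),(3,1599),(1,96)]) (165,[(4,705),(3,20548),(0,152)])) (.leaf false ⟨⟨-179,12,24⟩,⟨-24,-144,-107⟩,⟨-12,109,-144⟩⟩ (3480,[(3,3720536),(1,28095),(0,16001)]) (290,[(3,80464),(1,865),(0,289)]) (58,[(3,31866),(1,177),(0,47)]))))) (.node ⟨0,0,1⟩ (.node ⟨-12,91,156⟩ (.node ⟨-165,60,-44⟩ (.node ⟨-44,-165,-60⟩ (.leaf false ⟨⟨-165,60,-44⟩,⟨-60,-44,165⟩,⟨-44,-165,-60⟩⟩ (1,[(1,1)]) (11,[(3,1991),(1,4),(4,724)]) (1,[(0,1)])) (.leaf false ⟨⟨-179,-24,12⟩,⟨-12,144,109⟩,⟨24,-107,144⟩⟩ (1991,[(1,2817),(4,623364),(0,2464)]) (7964,[(1,5516),(4,2238789),(0,18513)]) (1991,[(1,1224),(4,1223017),(0,5676)]))) (.leaf false ⟨⟨-156,-84,37⟩,⟨-12,91,156⟩,⟨91,-132,84⟩⟩ (44,[(4,12969),(3,1476),(0,37)]) (1,[(1,1)])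 (11,[(4,2464),(3,192),(0,21)]))) (.node ⟨60,-165,-44⟩ (.leaf false ⟨⟨-168,-21,64⟩,⟨-44,-96,-147⟩,⟨51,-152,84⟩⟩ (13,[(2,1300),(4,2220),(1,3)]) (91,[(2,1599),(4,5156),(1,96)]) (165,[(2,20548),(4,705),(0,152)])) (.leaf false ⟨⟨-179,24,12⟩,⟨-24,-107,-144⟩,⟨-12,-144,109⟩⟩ (3480,[(2,3720536),(0,16001),(1,28095)]) (290,[(2,80464),(0,289),(1,865)]) (58,[(2,31866),(0,47),(1,177)])))) (.node ⟨-44,96,-147⟩ (.node ⟨-168,21,64⟩ (.leaf false ⟨⟨-168,21,64⟩,⟨-51,-152,-84⟩,⟨-44,96,-147⟩⟩ (1,[(0,1)]) (56,[(2,5792),(0,17),(3,8869)]) (1,[(1,1)])) (.leaf false ⟨⟨-152,-84,-51⟩,⟨21,64,-168⟩,⟨96,-147,-44⟩⟩ (49,[(1,17),(4,6700),(3,5748)]) (9231,[(1,7624),(4,599653),(0,6720)]) (16,[(4,312),(3,2121),(0,11)]))) (.leaf false ⟨⟨-179,-24,-12⟩,⟨12,-144,109⟩,⟨24,-107,-144⟩⟩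 (4,[(1,195),(3,760),(0,1)]) (2,[(1,223),(3,108),(0,3)]) (96,[(1,29553),(3,2404),(0,107)])))))
theorem pf181_ok : pf181.check (ok 181 6 ⟨5, 5, 5⟩) (fun _ r => r) [] = true := by decide +kernel

def pf185 : T := .node ⟨1,0,0⟩ (.node ⟨0,1,0⟩ (.node ⟨0,0,1⟩ (.node ⟨-41,12,180⟩ (.node ⟨-12,180,-41⟩ (.leaf false ⟨⟨-41,12,180⟩,⟨-12,184,-15⟩,⟨180,15,40⟩⟩ (1,[(1,1)]) (45,[(2,1211),(4,12),(0,46)]) (12,[(2,521),(4,2172),(0,1)])) (.leaf false ⟨⟨-36,48,175⟩,⟨105,-140,60⟩,⟨148,111,0⟩⟩ (36,[(4,139),(3,1308),(1,35)]) (41,[(4,3585),(3,5060),(0,60)]) (1,[(4,148),(3,111)]))) (.leaf false ⟨⟨0,148,111⟩,⟨60,105,-140⟩,⟨175,-36,48⟩⟩ (1,[(1,111),(2,148)]) (41,[(1,5060),(0,60),(2,5025)]) (41,[(1,33468),(0,175),(2,624)]))) (.node ⟨-60,175,0⟩ (.leaf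 false ⟨⟨-60,175,0⟩,⟨0,0,-185⟩,⟨175,60,0⟩⟩ (1,[(0,1)]) (1,[(1,185)]) (35,[(3,6845),(0,12)])) (.leaf false ⟨⟨0,0,-185⟩,⟨60,175,0⟩,⟨175,-60,0⟩⟩ (1,[(1,185)]) (1,[(0,1),(2,350)]) (12,[(0,35),(2,5405)])))) (.node ⟨0,0,1⟩ (.node ⟨-60,0,175⟩ (.leaf false ⟨⟨-60,0,175⟩,⟨0,-185,0⟩,⟨175,0,60⟩⟩ (1,[(0,1)]) (1,[(2,185)]) (35,[(3,6845),(0,12)])) (.leaf false ⟨⟨0,-185,0⟩,⟨60,0,175⟩,⟨175,0,-60⟩⟩ (1,[(2,185)]) (1,[(1,350),(0,1)]) (12,[(1,5405),(0,35)]))) (.node ⟨-104,-153,0⟩ (.leaf false ⟨⟨-104,-153,0⟩,⟨0,0,-185⟩,⟨153,-104,0⟩⟩ (1,[(0,1)]) (1,[(1,185)]) (153,[(3,34225),(0,104)])) (.leaf false ⟨⟨0,0,-185⟩,⟨111,148,0⟩,⟨148,-111,0⟩⟩ (1,[(1,185)]) (104,[(0,111),(2,1591)]) (26,[(0,37),(2,8547)]))))) (.node ⟨0,1,0⟩ (.node ⟨0,0,1⟩ (.node ⟨0,-60,175⟩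 (.leaf false ⟨⟨-185,0,0⟩,⟨0,-60,175⟩,⟨0,175,60⟩⟩ (1,[(3,185)]) (1,[(0,1)]) (35,[(0,12),(2,6845)])) (.leaf false ⟨⟨-185,0,0⟩,⟨0,60,175⟩,⟨0,175,-60⟩⟩ (1,[(3,185)]) (1,[(1,350),(0,1)]) (12,[(1,5405),(0,35)]))) (.node ⟨0,-104,-153⟩ (.leaf false ⟨⟨-185,0,0⟩,⟨0,-104,-153⟩,⟨0,153,-104⟩⟩ (1,[(3,185)]) (1,[(0,1)]) (153,[(0,104),(2,34225)])) (.leaf false ⟨⟨-185,0,0⟩,⟨0,111,148⟩,⟨0,148,-111⟩⟩ (1,[(3,185)]) (104,[(1,1591),(0,111)]) (26,[(1,8547),(0,37)])))) (.node ⟨0,0,1⟩ (.node ⟨0,-153,-104⟩ (.leaf false ⟨⟨-185,0,0⟩,⟨0,-153,-104⟩,⟨0,-104,153⟩⟩ (1,[(3,185)]) (1,[(0,1)]) (153,[(1,34225),(0,104)])) (.leaf false ⟨⟨-185,0,0⟩,⟨0,-111,148⟩,⟨0,148,111⟩⟩ (1,[(3,185)]) (26,[(0,37),(2,8547)]) (104,[(0,111),(2,1591)]))) (.leaf false ⟨⟨-185,0,0⟩,⟨0,-185,0⟩,⟨0,0,-185⟩⟩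 (1,[(2,185)]) (1,[(1,185)]) (1,[(0,185)]))))
theorem pf185_ok : pf185.check (ok 185 6 ⟨5, 5, 5⟩) (fun _ r => r) [] = true := by decide +kernel

def pf191 : T := .node ⟨1,0,0⟩ (.node ⟨0,1,0⟩ (.node ⟨0,0,1⟩ (.node ⟨-69,6,178⟩ (.node ⟨21,186,-38⟩ (.node ⟨178,-6,69⟩ (.leaf false ⟨⟨-66,43,174⟩,⟨21,186,-38⟩,⟨178,-6,69⟩⟩ (23,[(3,86),(4,857),(2,22)]) (1,[(1,1)]) (1,[(0,1)])) (.leaf false ⟨⟨-186,21,-38⟩,⟨6,178,69⟩,⟨43,66,-174⟩⟩ (2,[(3,407),(5,874),(0,7)]) (3,[(3,6348),(5,15860),(0,89)]) (1,[(3,585),(5,2001),(0,11)]))) (.leaf false ⟨⟨-69,-38,174⟩,⟨6,186,43⟩,⟨178,-21,66⟩⟩ (19,[(4,516),(3,15460),(0,87)]) (38,[(4,1131),(3,15066),(0,43)]) (19,[(4,4075),(3,5739),(0,33)]))) (.node ⟨174,-38,-69⟩ (.node ⟨6,178,-69⟩ (.leaf false ⟨⟨6,178,-69⟩,⟨43,66,174⟩,⟨186,-21,-38⟩⟩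 (1,[(0,1)]) (69,[(3,19660),(2,43),(4,4812)]) (29,[(3,1037),(1,31),(4,569)])) (.leaf false ⟨⟨-6,43,186⟩,⟨69,174,-38⟩,⟨178,-66,21⟩⟩ (1231,[(2,234),(4,752453),(0,3922)]) (1231,[(2,1511),(4,796420),(0,3220)]) (3693,[(2,12408),(4,5728384),(0,33133)]))) (.leaf false ⟨⟨-182,54,-21⟩,⟨21,126,142⟩,⟨54,133,-126⟩⟩ (789,[(2,113278),(1,1240),(0,1317)]) (263,[(2,610002),(1,3787),(0,1470)]) (526,[(2,1210045),(1,8398),(0,3167)])))) (.node ⟨-78,34,-171⟩ (.node ⟨27,186,34⟩ (.node ⟨174,-11,-78⟩ (.leaf false ⟨⟨-74,42,-171⟩,⟨27,186,34⟩,⟨174,-11,-78⟩⟩ (1,[(5,4),(4,8),(2,1)]) (1,[(1,1)]) (1,[(0,1)])) (.leaf false ⟨⟨-186,21,-38⟩,⟨6,178,69⟩,⟨43,66,-174⟩⟩ (11,[(3,2056),(5,1608),(0,21)]) (11,[(3,13125),(5,31038),(0,178)]) (1,[(3,642),(5,1087),(0,6)])))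 (.leaf false ⟨⟨-101,6,-162⟩,⟨102,-146,-69⟩,⟨126,123,-74⟩⟩ (17,[(4,470),(3,15168),(0,81)]) (34,[(4,5331),(3,7870),(0,69)]) (17,[(4,3141),(3,8973),(0,37)]))) (.node ⟨142,-126,-21⟩ (.leaf false ⟨⟨21,54,-182⟩,⟨126,133,54⟩,⟨142,-126,-21⟩⟩ (26,[(2,5929),(1,7),(3,1642)]) (13,[(2,2889),(1,21),(3,2443)]) (1,[(0,1)])) (.leaf false ⟨⟨-126,133,54⟩,⟨-21,54,-182⟩,⟨142,126,21⟩⟩ (500,[(2,37260),(1,301),(0,609)]) (2500,[(2,921110),(1,2511),(0,1749)]) (625,[(2,790230),(1,4473),(0,1832)]))))) (.node ⟨0,0,1⟩ (.node ⟨-78,-171,34⟩ (.node ⟨27,34,186⟩ (.node ⟨174,-78,-11⟩ (.leaf false ⟨⟨-74,-171,42⟩,⟨27,34,186⟩,⟨174,-78,-11⟩⟩ (1,[(3,8),(5,4),(2,1)]) (1,[(1,1)]) (1,[(0,1)])) (.leaf false ⟨⟨-186,-38,21⟩,⟨6,69,178⟩,⟨43,-174,66⟩⟩ (11,[(5,1608),(4,2056),(0,21)])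 (11,[(5,31038),(4,13125),(0,178)]) (1,[(5,1087),(4,642),(0,6)]))) (.leaf false ⟨⟨-101,-162,6⟩,⟨102,-69,-146⟩,⟨126,-74,123⟩⟩ (17,[(2,15168),(4,470),(0,81)]) (34,[(2,7870),(4,5331),(0,69)]) (17,[(2,8973),(4,3141),(0,37)]))) (.node ⟨142,-21,-126⟩ (.leaf false ⟨⟨21,-182,54⟩,⟨126,54,133⟩,⟨142,-21,-126⟩⟩ (26,[(2,1642),(1,7),(3,5929)]) (13,[(2,2443),(1,21),(3,2889)]) (1,[(0,1)])) (.leaf false ⟨⟨-126,-21,142⟩,⟨54,-182,21⟩,⟨133,54,126⟩⟩ (625,[(1,536),(3,122610),(0,849)]) (2500,[(1,4893),(3,1328180),(0,1737)]) (100,[(1,693),(3,119130),(0,287)])))) (.node ⟨-69,-174,-38⟩ (.node ⟨-6,43,-186⟩ (.leaf false ⟨⟨-69,-174,-38⟩,⟨-6,43,-186⟩,⟨178,-66,-21⟩⟩ (1,[(1,1)]) (1,[(0,1)]) (62,[(4,11078),(3,4393),(0,7)])) (.leaf false ⟨⟨-27,-174,-74⟩,⟨34,-78,171⟩,⟨186,-11,-42⟩⟩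 (1,[(2,36),(4,42),(1,1)]) (43,[(2,7155),(4,994),(0,78)]) (43,[(2,3852),(4,7932),(0,11)]))) (.leaf false ⟨⟨21,-186,-38⟩,⟨66,43,-174⟩,⟨178,6,69⟩⟩ (23,[(1,1140),(0,7),(2,5496)]) (23,[(1,4838),(0,22),(2,2839)]) (69,[(1,2003),(0,178),(2,30558)]))))) (.node ⟨0,1,0⟩ (.node ⟨0,0,1⟩ (.node ⟨-171,-78,34⟩ (.node ⟨34,27,186⟩ (.node ⟨-78,174,-11⟩ (.leaf false ⟨⟨-171,-74,42⟩,⟨-78,174,-11⟩,⟨34,27,186⟩⟩ (1,[(3,8),(2,1),(4,4)]) (1,[(0,1)]) (1,[(1,1)])) (.leaf false ⟨⟨-186,-38,21⟩,⟨6,69,178⟩,⟨43,-174,66⟩⟩ (11,[(5,3684),(4,3236),(0,21)]) (11,[(5,13818),(4,31731),(0,178)]) (1,[(5,425),(4,870),(0,6)]))) (.leaf false ⟨⟨-182,-54,21⟩,⟨-54,133,-126⟩,⟨-21,126,142⟩⟩ (17,[(2,17283),(0,91),(3,1539)]) (17,[(2,2880),(0,27),(3,2990)]) (34,[(2,8734),(0,21),(3,4851)])))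 (.node ⟨-21,142,-126⟩ (.leaf false ⟨⟨-186,34,-27⟩,⟨-11,78,174⟩,⟨42,171,-74⟩⟩ (71,[(2,225),(4,12849),(0,17)]) (1,[(2,208),(4,182),(1,1)]) (26,[(2,14),(4,8655),(1,57)])) (.leaf false ⟨⟨-186,-27,34⟩,⟨-11,174,78⟩,⟨42,-74,171⟩⟩ (2500,[(4,605130),(1,713),(0,867)]) (5,[(4,5950),(1,33),(0,12)]) (2500,[(4,1287540),(1,7479),(0,5411)])))) (.node ⟨-38,-69,-174⟩ (.node ⟨-186,-6,43⟩ (.leaf false ⟨⟨-186,-6,43⟩,⟨-38,-69,-174⟩,⟨-21,178,-66⟩⟩ (1,[(0,1)]) (1,[(1,1)]) (62,[(2,4393),(0,7),(3,11078)])) (.leaf false ⟨⟨-74,-27,-174⟩,⟨-42,186,-11⟩,⟨171,34,-78⟩⟩ (1,[(1,1),(4,36),(3,42)]) (43,[(4,3852),(3,7932),(0,11)]) (43,[(4,7155),(3,994),(0,78)]))) (.leaf false ⟨⟨-186,34,-27⟩,⟨-11,78,174⟩,⟨42,171,-74⟩⟩ (69,[(1,7779),(3,14126),(0,34)]) (23,[(1,522),(3,1241),(0,26)])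 (23,[(1,11620),(3,1200),(0,57)])))) (.node ⟨0,0,1⟩ (.node ⟨-38,-174,-69⟩ (.node ⟨-186,43,-6⟩ (.leaf false ⟨⟨-186,43,-6⟩,⟨-38,-174,-69⟩,⟨-21,-66,178⟩⟩ (1,[(0,1)]) (1,[(1,1)]) (62,[(2,11078),(0,7),(3,4393)])) (.leaf false ⟨⟨-74,-174,-27⟩,⟨-42,-11,186⟩,⟨171,-78,34⟩⟩ (1,[(2,42),(4,36),(1,1)]) (43,[(2,7932),(4,3852),(0,11)]) (43,[(2,994),(4,7155),(0,78)]))) (.leaf false ⟨⟨-186,-27,34⟩,⟨-11,174,78⟩,⟨42,-74,171⟩⟩ (69,[(3,14126),(2,7779),(0,34)]) (23,[(3,1241),(2,522),(0,26)]) (23,[(3,1200),(2,11620),(0,57)]))) (.leaf false ⟨⟨-191,0,0⟩,⟨0,-191,0⟩,⟨0,0,-191⟩⟩ (1,[(2,191)]) (1,[(1,191)]) (1,[(0,191)]))))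
theorem pf191_ok : pf191.check (ok 191 6 ⟨5, 5, 5⟩) (fun _ r => r) [] = true := by decide +kernel

def pf193 : T := .node ⟨1,0,0⟩ (.node ⟨0,1,0⟩ (.node ⟨0,0,1⟩ (.leaf false ⟨⟨0,0,193⟩,⟨0,193,0⟩,⟨193,0,0⟩⟩ (1,[(0,193)]) (1,[(1,193)]) (1,[(2,193)])) (.node ⟨-95,0,-168⟩ (.leaf false ⟨⟨-95,0,-168⟩,⟨0,193,0⟩,⟨168,0,-95⟩⟩ (1,[(0,1)]) (1,[(2,193)]) (168,[(3,37249),(0,95)])) (.node ⟨168,-57,76⟩ (.leaf false ⟨⟨12,76,-177⟩,⟨57,168,76⟩,⟨184,-57,-12⟩⟩ (14,[(2,2554),(0,1),(3,1121)]) (5,[(2,124),(1,3),(3,840)]) (21,[(2,2000),(0,23),(3,114)])) (.leaf false ⟨⟨-167,96,-12⟩,⟨48,103,156⟩,⟨84,132,-113⟩⟩ (1805,[(2,160724),(1,2203),(0,3040)]) (1083,[(2,355664),(1,4008),(0,1957)]) (1805,[(2,1396269),(1,8988),(0,4180)]))))) (.node ⟨0,0,1⟩ (.node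 ⟨-95,-168,0⟩ (.leaf false ⟨⟨-95,-168,0⟩,⟨0,0,193⟩,⟨168,-95,0⟩⟩ (1,[(0,1)]) (1,[(1,193)]) (168,[(3,37249),(0,95)])) (.node ⟨168,76,-57⟩ (.leaf false ⟨⟨12,-177,76⟩,⟨57,76,168⟩,⟨184,-12,-57⟩⟩ (14,[(2,1121),(0,1),(3,2554)]) (5,[(2,840),(1,3),(3,124)]) (21,[(2,114),(0,23),(3,2000)])) (.leaf false ⟨⟨-167,-12,96⟩,⟨48,156,103⟩,⟨84,-113,132⟩⟩ (1805,[(1,2203),(3,160724),(0,3040)]) (1083,[(1,4008),(3,355664),(0,1957)]) (1805,[(1,8988),(3,1396269),(0,4180)])))) (.node ⟨33,-176,72⟩ (.node ⟨153,96,-68⟩ (.node ⟨-36,-68,-177⟩ (.leaf false ⟨⟨-36,-68,-177⟩,⟨112,-153,36⟩,⟨153,96,-68⟩⟩ (1,[(0,1)]) (2,[(5,191),(2,1),(4,130)]) (1,[(1,1)])) (.leaf false ⟨⟨33,-176,72⟩,⟨48,-63,-176⟩,⟨184,48,33⟩⟩ (12,[(3,1083),(0,11),(4,2860)]) (3,[(3,1236),(0,4),(4,461)])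 (9,[(3,7845),(0,46),(4,2696)]))) (.leaf false ⟨⟨-140,-120,57⟩,⟨-15,-68,-180⟩,⟨132,-135,40⟩⟩ (4,[(2,112),(4,205),(0,5)]) (24,[(2,5476),(4,2241),(0,17)]) (32,[(2,1780),(4,11109),(0,45)]))) (.leaf false ⟨⟨-57,-120,-140⟩,⟨40,135,-132⟩,⟨180,-68,-15⟩⟩ (18,[(3,129),(2,8320),(0,35)]) (6,[(3,603),(2,1126),(0,11)]) (24,[(3,4485),(2,2512),(0,5)]))))) (.node ⟨0,1,0⟩ (.node ⟨0,0,1⟩ (.node ⟨-168,-95,0⟩ (.leaf false ⟨⟨-168,-95,0⟩,⟨-95,168,0⟩,⟨0,0,193⟩⟩ (1,[(0,1)]) (168,[(0,95),(2,37249)]) (1,[(1,193)])) (.node ⟨76,168,-57⟩ (.leaf false ⟨⟨-177,12,76⟩,⟨-12,184,-57⟩,⟨76,57,168⟩⟩ (14,[(2,1121),(4,2554),(0,1)]) (21,[(2,114),(4,2000),(0,23)]) (5,[(2,840),(4,124),(1,3)])) (.leaf false ⟨⟨-177,-12,76⟩,⟨12,184,57⟩,⟨76,-57,168⟩⟩ (285,[(4,128413),(1,636),(0,380)])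 (95,[(4,50776),(1,352),(0,95)]) (361,[(4,171420),(1,1665),(0,1064)])))) (.node ⟨-176,33,72⟩ (.node ⟨96,153,-68⟩ (.node ⟨-68,-36,-177⟩ (.leaf false ⟨⟨-176,48,63⟩,⟨-72,-33,-176⟩,⟨33,184,-48⟩⟩ (1,[(3,9),(2,1),(4,15)]) (12,[(3,165),(0,11),(5,116)]) (17,[(5,591),(4,1292),(1,12)])) (.leaf false ⟨⟨-177,76,-12⟩,⟨12,57,184⟩,⟨76,168,-57⟩⟩ (9,[(3,3471),(5,2885),(0,19)]) (12,[(3,1155),(5,1148),(0,19)]) (3,[(3,2649),(5,724),(0,14)]))) (.leaf false ⟨⟨-176,-33,72⟩,⟨-63,-48,-176⟩,⟨-48,184,-33⟩⟩ (6,[(2,316),(0,11),(3,1485)]) (32,[(2,7060),(0,21),(3,1677)]) (2,[(2,134),(0,1),(3,521)]))) (.leaf false ⟨⟨-176,33,-72⟩,⟨48,184,-33⟩,⟨63,-48,-176⟩⟩ (1,[(3,352),(2,66),(0,1)]) (24,[(3,784),(2,4779),(0,11)]) (9,[(3,3305),(2,294),(0,22)])))) (.node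 ⟨0,0,1⟩ (.node ⟨72,-176,33⟩ (.node ⟨-68,96,153⟩ (.node ⟨-177,-68,-36⟩ (.leaf false ⟨⟨-177,-68,-36⟩,⟨-68,96,153⟩,⟨36,-153,112⟩⟩ (1,[(0,1)]) (1,[(1,1)]) (2,[(3,191),(4,130),(2,1)])) (.leaf false ⟨⟨-176,-63,48⟩,⟨33,48,184⟩,⟨72,-176,33⟩⟩ (3,[(5,1236),(4,461),(0,4)]) (9,[(5,7845),(4,2696),(0,46)]) (12,[(5,1083),(4,2860),(0,11)]))) (.leaf false ⟨⟨-180,-68,-15⟩,⟨40,-135,132⟩,⟨57,-120,-140⟩⟩ (24,[(2,2241),(4,5476),(0,17)]) (32,[(2,11109),(4,1780),(0,45)]) (4,[(2,205),(4,112),(0,5)]))) (.leaf false ⟨⟨-176,63,-48⟩,⟨-72,-176,33⟩,⟨-33,48,184⟩⟩ (9,[(1,294),(0,22),(2,3305)]) (1,[(1,66),(0,1),(2,352)]) (24,[(1,4779),(0,11),(2,784)]))) (.node ⟨-96,103,-132⟩ (.node ⟨-167,-48,84⟩ (.leaf false ⟨⟨-167,-48,84⟩,⟨-96,103,-132⟩,⟨-12,-156,-113⟩⟩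 (1,[(0,1)]) (1,[(1,1)]) (8,[(2,772),(1,1),(3,1351)])) (.leaf false ⟨⟨-167,-96,-12⟩,⟨-48,103,-156⟩,⟨84,-132,-113⟩⟩ (7,[(4,1336),(3,720),(0,1)]) (193,[(1,97),(4,34354),(0,206)]) (84,[(4,11815),(3,16512),(0,113)]))) (.leaf false ⟨⟨-180,-68,-15⟩,⟨40,-135,132⟩,⟨57,-120,-140⟩⟩ (103,[(1,10521),(3,25068),(0,68)]) (103,[(1,4224),(3,8840),(0,135)]) (103,[(1,30260),(3,5649),(0,120)])))))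
theorem pf193_ok : pf193.check (ok 193 6 ⟨5, 5, 5⟩) (fun _ r => r) [] = true := by decide +kernel

def pf197 : T := .node ⟨1,0,0⟩ (.node ⟨0,1,0⟩ (.node ⟨0,0,1⟩ (.node ⟨-96,37,168⟩ (.node ⟨-96,172,-3⟩ (.node ⟨168,93,-44⟩ (.leaf false ⟨⟨-96,172,-3⟩,⟨37,24,192⟩,⟨168,93,-44⟩⟩ (1,[(1,1)]) (37,[(3,3072),(5,3673),(2,24)]) (1,[(0,1)])) (.leaf false ⟨⟨-189,28,48⟩,⟨28,-99,168⟩,⟨48,168,91⟩⟩ (7289,[(5,570315),(1,5696),(0,8340)]) (7289,[(5,6090452),(1,11268),(0,28599)]) (7289,[(5,4586160),(1,15855),(0,16156)]))) (.leaf false ⟨⟨-48,28,189⟩,⟨91,-168,48⟩,⟨168,99,28⟩⟩ (114,[(3,10533),(1,127),(0,70)]) (9669,[(4,167943),(1,2584),(0,10000)]) (6,[(4,1104),(3,557),(1,1)]))) (.leaf false ⟨⟨28,189,48⟩,⟨99,28,-168⟩,⟨168,-48,91⟩⟩ (24,[(1,2328),(0,7),(2,4795)])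 (32,[(1,168),(0,33),(2,2117)]) (4,[(1,1540),(0,7),(2,67)]))) (.node ⟨-80,-3,-180⟩ (.node ⟨165,-80,-72⟩ (.leaf false ⟨⟨-80,-3,-180⟩,⟨72,180,-35⟩,⟨165,-80,-72⟩⟩ (1,[(1,1)]) (36,[(4,3152),(3,6501),(1,7)]) (1,[(0,1)])) (.leaf false ⟨⟨-168,96,37⟩,⟨-44,-3,-192⟩,⟨93,172,-24⟩⟩ (14184,[(4,766133),(0,17169),(1,3952)]) (1182,[(4,49447),(0,3),(1,1262)]) (591,[(4,315988),(0,1293),(1,596)]))) (.node ⟨-48,189,28⟩ (.leaf false ⟨⟨-48,189,28⟩,⟨91,48,-168⟩,⟨168,28,99⟩⟩ (1,[(0,1)]) (63,[(2,11032),(4,6501),(0,16)]) (1908,[(2,561844),(1,4137),(0,217)])) (.leaf false ⟨⟨3,192,-44⟩,⟨96,37,168⟩,⟨172,-24,-93⟩⟩ (16,[(2,676),(0,1),(3,3261)]) (5,[(2,240),(1,6),(3,167)]) (340,[(0,1200),(1,11),(3,218607)]))))) (.node ⟨0,0,1⟩ (.node ⟨-80,-180,-3⟩ (.node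 ⟨165,-72,-80⟩ (.leaf false ⟨⟨-80,-180,-3⟩,⟨72,-35,180⟩,⟨165,-72,-80⟩⟩ (1,[(1,1)]) (36,[(2,6501),(4,3152),(1,7)]) (1,[(0,1)])) (.leaf false ⟨⟨-168,37,96⟩,⟨-44,-192,-3⟩,⟨93,-24,172⟩⟩ (14184,[(4,766133),(1,3952),(0,17169)]) (1182,[(4,49447),(1,1262),(0,3)]) (591,[(4,315988),(1,596),(0,1293)]))) (.node ⟨-48,28,189⟩ (.leaf false ⟨⟨-48,28,189⟩,⟨91,-168,48⟩,⟨168,99,28⟩⟩ (1,[(0,1)]) (63,[(4,6501),(3,11032),(0,16)]) (1908,[(1,4137),(3,561844),(0,217)])) (.leaf false ⟨⟨3,-44,192⟩,⟨96,168,37⟩,⟨172,-93,-24⟩⟩ (16,[(2,3261),(0,1),(3,676)]) (5,[(2,167),(1,6),(3,240)]) (340,[(2,218607),(1,11),(0,1200)])))) (.node ⟨195,0,28⟩ (.leaf false ⟨⟨0,-197,0⟩,⟨28,0,-195⟩,⟨195,0,28⟩⟩ (1,[(2,197)]) (195,[(1,38809),(0,28)]) (1,[(0,1)])) (.node ⟨28,117,-156⟩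 (.leaf false ⟨⟨-117,-116,-108⟩,⟨28,117,-156⟩,⟨156,-108,-53⟩⟩ (7,[(4,4446),(3,812),(1,27)]) (1,[(0,1)]) (28,[(4,14703),(3,3024),(1,53)])) (.leaf false ⟨⟨-156,-108,-53⟩,⟨28,-117,156⟩,⟨117,-116,-108⟩⟩ (364,[(4,452019),(0,336),(1,2561)]) (1,[(4,56),(0,1)]) (819,[(4,1616744),(0,812),(1,7683)])))))) (.node ⟨0,1,0⟩ (.node ⟨0,0,1⟩ (.node ⟨-180,-80,-3⟩ (.node ⟨-72,165,-80⟩ (.leaf false ⟨⟨-180,-80,-3⟩,⟨-72,165,-80⟩,⟨-35,72,180⟩⟩ (1,[(1,1)]) (1,[(0,1)]) (36,[(2,6501),(1,7),(3,3152)])) (.leaf false ⟨⟨-192,-44,-3⟩,⟨-24,93,172⟩,⟨37,-168,96⟩⟩ (1182,[(1,1262),(3,49447),(0,3)]) (591,[(1,596),(3,315988),(0,1293)]) (14184,[(1,3952),(3,766133),(0,17169)]))) (.node ⟨28,-48,189⟩ (.leaf false ⟨⟨-168,91,48⟩,⟨28,-48,189⟩,⟨99,168,28⟩⟩ (63,[(4,11032),(3,6501),(0,16)])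 (1,[(0,1)]) (1908,[(4,561844),(1,4137),(0,217)])) (.leaf false ⟨⟨-189,48,28⟩,⟨28,168,-99⟩,⟨48,91,168⟩⟩ (1,[(2,217),(4,161),(0,1)]) (212,[(4,58288),(0,117),(1,375)]) (80,[(2,13167),(4,12540),(1,91)])))) (.node ⟨0,195,28⟩ (.leaf false ⟨⟨-197,0,0⟩,⟨0,28,-195⟩,⟨0,195,28⟩⟩ (1,[(3,197)]) (195,[(1,38809),(0,28)]) (1,[(0,1)])) (.node ⟨117,28,-156⟩ (.leaf false ⟨⟨-192,3,-44⟩,⟨24,172,-93⟩,⟨37,-96,-168⟩⟩ (7,[(1,11),(4,1344),(3,2166)]) (52,[(4,2379),(3,8076),(0,31)]) (7801,[(1,4920),(4,590969),(0,7518)])) (.leaf false ⟨⟨-180,-75,28⟩,⟨-60,172,75⟩,⟨-53,60,-180⟩⟩ (91,[(1,689),(0,140),(3,131450)]) (1092,[(1,195),(0,560),(3,241529)]) (819,[(1,7332),(0,371),(3,1489268)]))))) (.node ⟨0,0,1⟩ (.node ⟨0,28,195⟩ (.leaf false ⟨⟨-197,0,0⟩,⟨0,-195,28⟩,⟨0,28,195⟩⟩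 (1,[(3,197)]) (195,[(0,28),(2,38809)]) (1,[(0,1)])) (.node ⟨117,-156,28⟩ (.leaf false ⟨⟨-192,-44,3⟩,⟨24,-93,172⟩,⟨37,-168,-96⟩⟩ (7,[(2,2166),(4,1344),(1,11)]) (52,[(2,8076),(4,2379),(0,31)]) (819,[(2,590969),(1,3471),(0,259)])) (.leaf false ⟨⟨-180,28,-75⟩,⟨-60,75,172⟩,⟨-53,-180,60⟩⟩ (91,[(2,131450),(0,140),(1,689)]) (1092,[(2,241529),(0,560),(1,195)]) (819,[(2,1489268),(0,371),(1,7332)])))) (.leaf false ⟨⟨-197,0,0⟩,⟨0,-197,0⟩,⟨0,0,-197⟩⟩ (1,[(2,197)]) (1,[(1,197)]) (1,[(0,197)]))))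
theorem pf197_ok : pf197.check (ok 197 6 ⟨5, 5, 5⟩) (fun _ r => r) [] = true := by decide +kernel

def pf199 : T := .node ⟨1,0,0⟩ (.node ⟨0,1,0⟩ (.node ⟨0,0,1⟩ (.leaf false ⟨⟨0,0,199⟩,⟨0,199,0⟩,⟨199,0,0⟩⟩ (1,[(0,199)]) (1,[(1,199)]) (1,[(2,199)])) (.node ⟨-114,19,-162⟩ (.node ⟨-114,163,-6⟩ (.node ⟨6,198,19⟩ (.leaf false ⟨⟨-114,19,-162⟩,⟨6,198,19⟩,⟨163,6,-114⟩⟩ (1,[(2,1)]) (1,[(0,1)]) (19,[(3,1194),(5,3781),(2,6)])) (.leaf false ⟨⟨-189,6,-62⟩,⟨42,-134,-141⟩,⟨46,147,-126⟩⟩ (857,[(5,132603),(1,2478),(0,2014)]) (19,[(5,1644),(4,25372),(0,141)]) (19,[(5,1630),(4,27741),(0,126)]))) (.node ⟨198,6,19⟩ (.leaf false ⟨⟨6,163,-114⟩,⟨19,-114,-162⟩,⟨198,6,19⟩⟩ (247,[(4,68444),(2,181),(1,194)]) (156,[(4,9926),(2,163),(1,189)]) (1,[(0,1)]))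 (.leaf false ⟨⟨-195,-30,-26⟩,⟨-26,195,-30⟩,⟨30,-26,-195⟩⟩ (326,[(4,72211),(0,598),(1,481)]) (489,[(4,548996),(0,1632),(1,2723)]) (163,[(4,1082562),(0,3735),(1,6530)])))) (.node ⟨114,-93,-134⟩ (.leaf false ⟨⟨82,174,-51⟩,⟨114,-93,-134⟩,⟨141,-26,138⟩⟩ (57,[(2,9549),(1,41),(3,10697)]) (1,[(0,1)]) (5624,[(0,1185),(1,5771),(3,73630)])) (.leaf false ⟨⟨-134,114,-93⟩,⟨-51,82,174⟩,⟨138,141,-26⟩⟩ (4218,[(2,1135678),(1,267),(0,5225)]) (2812,[(2,133644),(1,1535),(0,2793)]) (703,[(2,617308),(1,2409),(0,1558)]))))) (.node ⟨0,0,1⟩ (.node ⟨-114,-162,19⟩ (.node ⟨-114,-6,163⟩ (.node ⟨6,19,198⟩ (.leaf false ⟨⟨-114,-162,19⟩,⟨6,19,198⟩,⟨163,-114,6⟩⟩ (1,[(2,1)]) (1,[(0,1)]) (19,[(5,3781),(4,1194),(2,6)])) (.leaf false ⟨⟨-189,-62,6⟩,⟨42,-141,-134⟩,⟨46,-126,147⟩⟩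 (857,[(5,132603),(0,2014),(1,2478)]) (19,[(3,25372),(5,1644),(0,141)]) (19,[(3,27741),(5,1630),(0,126)]))) (.node ⟨198,19,6⟩ (.leaf false ⟨⟨6,-114,163⟩,⟨19,-162,-114⟩,⟨198,19,6⟩⟩ (247,[(3,68444),(1,194),(2,181)]) (156,[(3,9926),(1,189),(2,163)]) (1,[(0,1)])) (.leaf false ⟨⟨-195,-26,-30⟩,⟨-26,-30,195⟩,⟨30,-195,-26⟩⟩ (326,[(3,72211),(1,481),(0,598)]) (489,[(3,548996),(1,2723),(0,1632)]) (163,[(3,1082562),(1,6530),(0,3735)])))) (.node ⟨114,-134,-93⟩ (.leaf false ⟨⟨82,-51,174⟩,⟨114,-134,-93⟩,⟨141,138,-26⟩⟩ (57,[(2,10697),(1,41),(3,9549)]) (1,[(0,1)]) (5624,[(2,73630),(1,5771),(0,1185)])) (.leaf false ⟨⟨-134,-93,114⟩,⟨-51,174,82⟩,⟨138,-26,141⟩⟩ (4218,[(1,267),(3,1135678),(0,5225)]) (2812,[(1,1535),(3,133644),(0,2793)]) (703,[(1,2409),(3,617308),(0,1558)]))))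 (.node ⟨-30,-195,-26⟩ (.node ⟨-26,30,-195⟩ (.leaf false ⟨⟨-30,-195,-26⟩,⟨-26,30,-195⟩,⟨195,-26,-30⟩⟩ (1,[(1,1)]) (1,[(0,1)]) (13,[(4,2587),(3,398),(0,2)])) (.node ⟨-51,-170,90⟩ (.leaf false ⟨⟨-51,-170,90⟩,⟨30,-99,-170⟩,⟨190,-30,51⟩⟩ (1,[(0,1)]) (170,[(3,37810),(5,10149),(0,99)]) (1,[(3,144),(5,164),(1,1)])) (.leaf false ⟨⟨6,-198,19⟩,⟨114,19,162⟩,⟨163,-6,-114⟩⟩ (995,[(3,190642),(1,1185),(2,828)]) (5950,[(3,2273985),(0,3914),(1,18411)]) (2975,[(3,2857680),(0,2367),(1,14008)])))) (.leaf false ⟨⟨6,19,-198⟩,⟨114,162,19⟩,⟨163,-114,-6⟩⟩ (5,[(1,1016),(0,1),(2,100)]) (5,[(1,399),(0,19),(2,2895)]) (30,[(1,4418),(0,163),(2,35205)]))))) (.node ⟨0,1,0⟩ (.node ⟨0,0,1⟩ (.node ⟨-162,-114,19⟩ (.node ⟨-6,-114,163⟩ (.node ⟨19,6,198⟩ (.leaf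 false ⟨⟨-162,-114,19⟩,⟨-114,163,6⟩,⟨19,6,198⟩⟩ (1,[(2,1)]) (19,[(2,6),(5,1194),(4,3781)]) (1,[(0,1)])) (.leaf false ⟨⟨-195,-26,30⟩,⟨-30,195,-26⟩,⟨-26,-30,-195⟩⟩ (19,[(3,39180),(0,195),(4,676)]) (19,[(3,5446),(0,30),(4,3885)]) (355,[(3,11400),(1,69),(0,464)]))) (.node ⟨19,198,6⟩ (.leaf false ⟨⟨-162,19,-114⟩,⟨-114,6,163⟩,⟨19,198,6⟩⟩ (156,[(3,9926),(2,163),(1,189)]) (247,[(3,68444),(2,181),(1,194)]) (1,[(0,1)])) (.leaf false ⟨⟨-195,-26,30⟩,⟨-30,195,-26⟩,⟨-26,-30,-195⟩⟩ (489,[(3,3187346),(0,11037),(1,19058)]) (326,[(3,524749),(0,1530),(1,3215)]) (163,[(3,95368),(0,464),(1,763)])))) (.node ⟨-134,114,-93⟩ (.leaf false ⟨⟨-134,114,-93⟩,⟨-51,82,174⟩,⟨138,141,-26⟩⟩ (1,[(0,1)]) (57,[(2,10697),(4,9549),(1,41)]) (5624,[(2,73630),(0,1185),(1,5771)]))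 (.leaf false ⟨⟨-198,-6,19⟩,⟨6,163,114⟩,⟨19,-114,162⟩⟩ (703,[(4,183816),(1,134),(0,171)]) (8436,[(4,6666956),(1,28155),(0,16093)]) (74,[(4,28934),(1,69),(0,143)])))) (.node ⟨-195,-30,-26⟩ (.node ⟨30,-26,-195⟩ (.leaf false ⟨⟨-195,-30,-26⟩,⟨-26,195,-30⟩,⟨30,-26,-195⟩⟩ (1,[(1,1)]) (13,[(4,398),(3,2587),(0,2)]) (1,[(0,1)])) (.node ⟨-170,-51,90⟩ (.leaf false ⟨⟨-170,-51,90⟩,⟨-99,30,-170⟩,⟨-30,190,51⟩⟩ (1,[(0,1)]) (170,[(3,37810),(0,99),(4,10149)]) (1,[(3,144),(1,1),(4,164)])) (.leaf false ⟨⟨-198,6,19⟩,⟨-6,163,-114⟩,⟨19,114,162⟩⟩ (995,[(3,190642),(2,828),(1,1185)]) (2975,[(3,2857680),(1,14008),(0,2367)]) (5950,[(3,2273985),(1,18411),(0,3914)])))) (.leaf false ⟨⟨-170,51,-90⟩,⟨30,190,51⟩,⟨99,30,-170⟩⟩ (10,[(1,1342),(3,5015),(0,17)])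 (3,[(1,341),(3,3615),(0,19)]) (1,[(1,196),(3,96),(0,1)])))) (.node ⟨0,0,1⟩ (.node ⟨-195,-26,-30⟩ (.node ⟨30,-195,-26⟩ (.leaf false ⟨⟨-195,-26,-30⟩,⟨-26,-30,195⟩,⟨30,-195,-26⟩⟩ (1,[(1,1)]) (13,[(2,2587),(4,398),(0,2)]) (1,[(0,1)])) (.node ⟨-170,90,-51⟩ (.leaf false ⟨⟨-170,90,-51⟩,⟨-99,-170,30⟩,⟨-30,51,190⟩⟩ (1,[(0,1)]) (170,[(3,10149),(0,99),(4,37810)]) (1,[(3,164),(1,1),(4,144)])) (.leaf false ⟨⟨-198,-6,19⟩,⟨6,163,114⟩,⟨19,-114,162⟩⟩ (1990,[(1,3215),(2,1526),(4,599189)]) (2975,[(1,9537),(4,1213870),(0,1788)]) (5950,[(1,26571),(4,5377785),(0,5354)])))) (.leaf false ⟨⟨-170,-90,51⟩,⟨30,51,190⟩,⟨99,-170,30⟩⟩ (10,[(3,5015),(2,1342),(0,17)]) (3,[(3,3615),(2,341),(0,19)]) (1,[(3,96),(2,196),(0,1)]))) (.node ⟨-90,126,-125⟩ (.node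 ⟨-174,-35,90⟩ (.leaf false ⟨⟨-174,-35,90⟩,⟨-90,126,-125⟩,⟨-35,-150,-126⟩⟩ (1,[(0,1)]) (1,[(1,1)]) (18,[(2,1393),(1,7),(3,3582)])) (.leaf false ⟨⟨-174,-90,-35⟩,⟨-35,126,-150⟩,⟨90,-125,-126⟩⟩ (25,[(1,7),(4,3720),(3,3132)]) (199,[(1,174),(4,6965),(0,90)]) (5,[(4,768),(3,870),(0,7)]))) (.leaf false ⟨⟨-174,-35,-90⟩,⟨-35,-150,126⟩,⟨90,-126,-125⟩⟩ (18,[(1,2245),(3,3582),(0,5)]) (21,[(1,479),(3,2985),(0,25)]) (1,[(1,250),(0,1)])))))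
theorem pf199_ok : pf199.check (ok 199 6 ⟨5, 5, 5⟩) (fun _ r => r) [] = true := by decide +kernel


end H34S
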