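import Pool.Agent.Lib.H34S.Cover

/-!
# H34S: certificates (generated), pentagonal numbers
-/

set_option autoImplicit false

namespace H34S

def pa45 : T := .node ⟨1,0,0⟩ (.node ⟨0,1,0⟩ (.node ⟨0,0,1⟩ (.node ⟨-20,5,40⟩ (.node ⟨-5,44,-8⟩ (.leaf false ⟨⟨-20,5,40⟩,⟨-5,44,-8⟩,⟨40,8,19⟩⟩ (1,[(1,1)]) (1,[(0,1)]) (8,[(4,405),(0,1),(1,4)])) (.leaf false ⟨⟨-20,5,40⟩,⟨16,-40,13⟩,⟨37,20,16⟩⟩ (1,[(1,1)]) (8,[(4,63),(3,252),(0,13)]) (1,[(4,27),(3,108),(0,2)]))) (.node ⟨35,-20,-20⟩ (.leaf false ⟨⟨20,-5,40⟩,⟨20,40,-5⟩,⟨35,-20,-20⟩⟩ (1,[(2,80),(1,1)]) (1,[(2,35),(1,1),(3,45)]) (1,[(0,1)])) (.leaf false ⟨⟨-20,35,-20⟩,⟨-5,20,40⟩,⟨40,20,-5⟩⟩ (3,[(2,220),(1,11),(0,8)]) (3,[(2,340),(1,8),(0,5)]) (3,[(2,625),(1,20),(0,8)])))) (.node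 ⟨-20,-5,-40⟩ (.node ⟨37,-20,-16⟩ (.leaf false ⟨⟨-20,-5,-40⟩,⟨16,40,-13⟩,⟨37,-20,-16⟩⟩ (1,[(1,1)]) (8,[(3,405),(1,1),(0,4)]) (1,[(0,1)])) (.leaf false ⟨⟨-35,20,-20⟩,⟨4,35,28⟩,⟨28,20,-29⟩⟩ (4,[(4,125),(0,5),(1,4)]) (4,[(4,275),(0,7)]) (16,[(4,1625),(0,21),(1,20)]))) (.node ⟨-20,40,5⟩ (.leaf false ⟨⟨-20,40,5⟩,⟨16,13,-40⟩,⟨37,16,20⟩⟩ (1,[(0,1)]) (5,[(2,405),(1,5),(0,1)]) (20,[(2,1215),(1,40),(0,3)])) (.leaf false ⟨⟨13,16,-40⟩,⟨16,37,20⟩,⟨40,-20,5⟩⟩ (20,[(2,735),(0,13),(3,840)]) (5,[(2,60),(1,4),(3,165)]) (3,[(2,135),(0,2),(1,4)]))))) (.node ⟨0,0,1⟩ (.node ⟨-20,-40,-5⟩ (.node ⟨37,-16,-20⟩ (.leaf false ⟨⟨-20,-40,-5⟩,⟨16,-13,40⟩,⟨37,-16,-20⟩⟩ (1,[(1,1)]) (8,[(2,405),(0,4),(1,1)]) (1,[(0,1)])) (.leaf false ⟨⟨-35,-20,20⟩,⟨4,28,35⟩,⟨28,-29,20⟩⟩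 (4,[(4,125),(1,4),(0,5)]) (4,[(4,275),(0,7)]) (16,[(4,1625),(1,20),(0,21)]))) (.node ⟨-20,5,40⟩ (.leaf false ⟨⟨-20,5,40⟩,⟨16,-40,13⟩,⟨37,20,16⟩⟩ (1,[(0,1)]) (5,[(1,5),(3,405),(0,1)]) (35,[(1,16),(4,1215),(0,12)])) (.leaf false ⟨⟨13,-40,16⟩,⟨16,20,37⟩,⟨40,5,-20⟩⟩ (20,[(2,840),(0,13),(3,735)]) (5,[(2,165),(1,4),(3,60)]) (3,[(2,135),(1,1),(0,5)])))) (.node ⟨-20,-40,-5⟩ (.node ⟨-5,8,-44⟩ (.leaf false ⟨⟨-20,-40,-5⟩,⟨-5,8,-44⟩,⟨40,-19,-8⟩⟩ (1,[(1,1)]) (1,[(0,1)]) (8,[(4,405),(1,4),(0,1)])) (.leaf false ⟨⟨-20,-40,-5⟩,⟨16,-13,40⟩,⟨37,-16,-20⟩⟩ (1,[(1,1)]) (8,[(2,252),(4,63),(0,13)]) (1,[(2,108),(4,27),(0,2)]))) (.node ⟨35,4,28⟩ (.leaf false ⟨⟨20,-35,-20⟩,⟨20,28,-29⟩,⟨35,4,28⟩⟩ (1,[(2,25),(1,1),(3,75)]) (1,[(2,34),(1,1),(3,12)])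 (1,[(0,1)])) (.leaf false ⟨⟨-28,4,-35⟩,⟨20,-35,-20⟩,⟨29,28,-20⟩⟩ (55,[(1,63),(3,1980),(0,80)]) (77,[(1,252),(3,12375),(0,100)]) (385,[(1,1512),(3,47520),(0,545)])))))) (.node ⟨0,1,0⟩ (.node ⟨0,0,1⟩ (.node ⟨-40,-20,-5⟩ (.node ⟨-16,37,-20⟩ (.leaf false ⟨⟨-40,-20,-5⟩,⟨-16,37,-20⟩,⟨-13,16,40⟩⟩ (1,[(1,1)]) (1,[(0,1)]) (8,[(2,405),(1,1),(0,4)])) (.leaf false ⟨⟨-37,-20,16⟩,⟨-16,40,13⟩,⟨20,-5,40⟩⟩ (240,[(1,332),(3,12015),(0,275)]) (30,[(1,22),(3,2565),(0,25)]) (12,[(1,4),(3,945),(0,25)]))) (.node ⟨5,-20,40⟩ (.leaf false ⟨⟨-40,16,13⟩,⟨5,-20,40⟩,⟨20,37,16⟩⟩ (5,[(4,405),(1,5),(0,1)]) (1,[(0,1)]) (20,[(4,1215),(1,40),(0,3)])) (.leaf false ⟨⟨-40,13,16⟩,⟨5,40,-20⟩,⟨20,16,37⟩⟩ (20,[(2,840),(4,735),(0,13)]) (3,[(2,135),(0,5),(1,1)])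 (5,[(2,165),(4,60),(1,4)])))) (.node ⟨-5,40,20⟩ (.node ⟨-44,-8,5⟩ (.leaf false ⟨⟨-44,-8,5⟩,⟨-8,19,-40⟩,⟨-5,40,20⟩⟩ (1,[(0,1)]) (8,[(2,405),(0,1),(1,4)]) (1,[(1,1)])) (.leaf false ⟨⟨-20,16,-37⟩,⟨-5,40,20⟩,⟨40,13,-16⟩⟩ (1,[(2,27),(4,108),(0,2)]) (1,[(1,1)]) (8,[(2,63),(4,252),(0,13)]))) (.node ⟨20,-20,-35⟩ (.leaf false ⟨⟨-40,-5,-20⟩,⟨5,40,-20⟩,⟨20,-20,-35⟩⟩ (1,[(4,45),(3,35),(1,1)]) (1,[(3,80),(1,1)]) (1,[(0,1)])) (.leaf false ⟨⟨-44,-5,8⟩,⟨-8,40,-19⟩,⟨-5,-20,-40⟩⟩ (15,[(3,2485),(1,92),(0,56)]) (15,[(3,2020),(1,44),(0,17)]) (3,[(3,380),(1,13),(0,4)]))))) (.node ⟨0,0,1⟩ (.node ⟨-5,20,40⟩ (.node ⟨-44,5,-8⟩ (.leaf false ⟨⟨-44,5,-8⟩,⟨-8,-40,19⟩,⟨-5,20,40⟩⟩ (1,[(0,1)]) (8,[(1,4),(0,1),(3,405)]) (1,[(1,1)])) (.leaf false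 ⟨⟨-20,-37,16⟩,⟨-5,20,40⟩,⟨40,-16,13⟩⟩ (1,[(4,108),(3,27),(0,2)]) (1,[(1,1)]) (8,[(4,252),(3,63),(0,13)]))) (.node ⟨20,-35,-20⟩ (.leaf false ⟨⟨-40,-20,-5⟩,⟨5,-20,40⟩,⟨20,-35,-20⟩⟩ (1,[(2,35),(4,45),(1,1)]) (1,[(2,80),(1,1)]) (1,[(0,1)])) (.leaf false ⟨⟨-44,8,-5⟩,⟨-8,-19,40⟩,⟨-5,-40,-20⟩⟩ (15,[(2,2485),(0,56),(1,92)]) (15,[(2,2020),(0,17),(1,44)]) (3,[(2,380),(0,4),(1,13)])))) (.node ⟨-20,35,-20⟩ (.node ⟨-35,-4,28⟩ (.leaf false ⟨⟨-35,-4,28⟩,⟨-20,-28,-29⟩,⟨-20,35,-20⟩⟩ (1,[(0,1)]) (1,[(2,9),(1,1),(3,63)]) (1,[(1,1)])) (.leaf false ⟨⟨-29,-28,-20⟩,⟨-20,35,-20⟩,⟨28,-4,-35⟩⟩ (1,[(1,1),(4,9),(3,63)]) (1,[(1,1)]) (4,[(4,63),(3,36),(0,5)]))) (.node ⟨5,-20,40⟩ (.leaf false ⟨⟨-40,-20,-5⟩,⟨5,-20,40⟩,⟨20,-35,-20⟩⟩ (1,[(2,45),(4,45),(0,1)])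 (1,[(0,1)]) (1,[(2,40),(1,1)])) (.node ⟨40,-19,-8⟩ (.leaf false ⟨⟨-20,-40,-5⟩,⟨-5,8,-44⟩,⟨40,-19,-8⟩⟩ (40,[(5,1965),(2,68),(1,39)]) (50,[(5,465),(2,28),(1,69)]) (1,[(0,1)])) (.node ⟨35,-20,-20⟩ (.leaf false ⟨⟨-28,-20,-29⟩,⟨-4,-35,28⟩,⟨35,-20,-20⟩⟩ (1100,[(3,843),(0,4484),(1,5115)]) (275,[(3,381),(0,128),(1,330)]) (1,[(0,1)])) (.leaf false ⟨⟨-35,28,-4⟩,⟨-20,-29,-28⟩,⟨-20,-20,35⟩⟩ (165,[(3,24),(2,110),(0,163)]) (165,[(3,843),(2,770),(0,466)]) (12,[(3,24),(2,11),(0,19)]))))))))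
theorem pa45_ok : pa45.check (ok 45 6 ⟨5, 5, 5⟩) (fun _ r => r) [] = true := by decide +kernel

def pb45 : T := .node ⟨1,0,0⟩ (.node ⟨0,1,0⟩ (.node ⟨0,0,1⟩ (.node ⟨-20,5,40⟩ (.node ⟨-5,44,-8⟩ (.leaf false ⟨⟨-20,5,40⟩,⟨-5,44,-8⟩,⟨40,8,19⟩⟩ (1,[(1,1)]) (1,[(0,1)]) (8,[(4,405),(0,1),(1,4)])) (.leaf false ⟨⟨-20,5,40⟩,⟨16,-40,13⟩,⟨37,20,16⟩⟩ (1,[(1,1)]) (8,[(4,63),(3,252),(0,13)]) (1,[(4,27),(3,108),(0,2)]))) (.node ⟨40,-20,-5⟩ (.leaf false ⟨⟨13,16,40⟩,⟨16,37,-20⟩,⟨40,-20,-5⟩⟩ (20,[(2,1320),(1,13),(3,385)]) (5,[(2,60),(1,4),(3,205)]) (1,[(0,1)])) (.leaf false ⟨⟨-35,20,20⟩,⟨4,35,-28⟩,⟨28,20,29⟩⟩ (8,[(2,275),(1,4),(0,9)]) (5,[(2,1250),(1,37),(0,18)]) (10,[(2,2875),(1,68),(0,27)])))) (.node ⟨-20,5,-40⟩ (.node ⟨-5,44,8⟩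 (.leaf false ⟨⟨-20,5,-40⟩,⟨-5,44,8⟩,⟨40,8,-19⟩⟩ (1,[(1,1)]) (1,[(0,1)]) (8,[(4,405),(0,1),(1,4)])) (.leaf false ⟨⟨-20,5,-40⟩,⟨16,-40,-13⟩,⟨37,20,-16⟩⟩ (1,[(1,1)]) (8,[(4,63),(3,252),(0,13)]) (1,[(4,27),(3,108),(0,2)]))) (.node ⟨40,-20,5⟩ (.leaf false ⟨⟨13,16,-40⟩,⟨16,37,20⟩,⟨40,-20,5⟩⟩ (20,[(2,1320),(1,13),(3,385)]) (5,[(2,60),(1,4),(3,205)]) (1,[(0,1)])) (.leaf false ⟨⟨-35,20,-20⟩,⟨4,35,28⟩,⟨28,20,-29⟩⟩ (8,[(2,275),(1,4),(0,9)]) (5,[(2,1250),(1,37),(0,18)]) (10,[(2,2875),(1,68),(0,27)]))))) (.node ⟨0,0,1⟩ (.node ⟨-20,-40,5⟩ (.node ⟨-5,8,44⟩ (.leaf false ⟨⟨-20,-40,5⟩,⟨-5,8,44⟩,⟨40,-19,8⟩⟩ (1,[(1,1)]) (1,[(0,1)]) (8,[(4,405),(1,4),(0,1)])) (.leaf false ⟨⟨-20,-40,5⟩,⟨16,-13,-40⟩,⟨37,-16,20⟩⟩ (1,[(1,1)]) (8,[(2,252),(4,63),(0,13)])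 (1,[(2,108),(4,27),(0,2)]))) (.node ⟨40,5,-20⟩ (.leaf false ⟨⟨13,-40,16⟩,⟨16,20,37⟩,⟨40,5,-20⟩⟩ (20,[(2,385),(1,13),(3,1320)]) (5,[(2,205),(1,4),(3,60)]) (1,[(0,1)])) (.leaf false ⟨⟨-35,-20,20⟩,⟨4,28,35⟩,⟨28,-29,20⟩⟩ (8,[(1,4),(3,275),(0,9)]) (5,[(1,37),(3,1250),(0,18)]) (10,[(1,68),(3,2875),(0,27)])))) (.node ⟨-20,-40,-5⟩ (.node ⟨-5,8,-44⟩ (.leaf false ⟨⟨-20,-40,-5⟩,⟨-5,8,-44⟩,⟨40,-19,-8⟩⟩ (1,[(1,1)]) (1,[(0,1)]) (8,[(4,405),(1,4),(0,1)])) (.leaf false ⟨⟨-20,-40,-5⟩,⟨16,-13,40⟩,⟨37,-16,-20⟩⟩ (1,[(1,1)]) (8,[(2,252),(4,63),(0,13)]) (1,[(2,108),(4,27),(0,2)]))) (.node ⟨40,5,20⟩ (.leaf false ⟨⟨13,-40,-16⟩,⟨16,20,-37⟩,⟨40,5,20⟩⟩ (20,[(2,385),(1,13),(3,1320)]) (5,[(2,205),(1,4),(3,60)]) (1,[(0,1)])) (.leaf false ⟨⟨-35,-20,-20⟩,⟨4,28,-35⟩,⟨28,-29,-20⟩⟩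 (8,[(1,4),(3,275),(0,9)]) (5,[(1,37),(3,1250),(0,18)]) (10,[(1,68),(3,2875),(0,27)])))))) (.node ⟨0,1,0⟩ (.node ⟨0,0,1⟩ (.node ⟨-5,40,-20⟩ (.node ⟨-44,-8,-5⟩ (.leaf false ⟨⟨-44,-8,-5⟩,⟨-8,19,40⟩,⟨-5,40,-20⟩⟩ (1,[(0,1)]) (8,[(2,405),(0,1),(1,4)]) (1,[(1,1)])) (.leaf false ⟨⟨-20,5,40⟩,⟨-5,44,-8⟩,⟨40,8,19⟩⟩ (8,[(2,340),(4,155),(1,1)]) (450,[(2,6255),(1,494),(0,5)]) (1,[(2,14),(4,4),(0,1)]))) (.node ⟨28,4,35⟩ (.leaf false ⟨⟨-29,28,20⟩,⟨-20,-35,20⟩,⟨28,4,35⟩⟩ (1,[(4,34),(3,68),(1,1)]) (1,[(4,25),(3,5),(1,1)]) (1,[(0,1)])) (.leaf false ⟨⟨-44,-5,-8⟩,⟨-8,40,19⟩,⟨-5,-20,40⟩⟩ (55,[(3,7725),(1,188),(0,120)]) (385,[(3,48900),(1,812),(0,255)]) (77,[(3,9060),(1,259),(0,60)])))) (.node ⟨-5,40,20⟩ (.node ⟨-44,-8,5⟩ (.leaf false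 ⟨⟨-44,-8,5⟩,⟨-8,19,-40⟩,⟨-5,40,20⟩⟩ (1,[(0,1)]) (8,[(2,405),(0,1),(1,4)]) (1,[(1,1)])) (.leaf false ⟨⟨-20,5,-40⟩,⟨-5,44,8⟩,⟨40,8,-19⟩⟩ (8,[(2,340),(4,155),(1,1)]) (450,[(2,6255),(1,494),(0,5)]) (1,[(2,14),(4,4),(0,1)]))) (.node ⟨28,4,-35⟩ (.leaf false ⟨⟨-29,28,-20⟩,⟨-20,-35,-20⟩,⟨28,4,-35⟩⟩ (1,[(4,34),(3,68),(1,1)]) (1,[(4,25),(3,5),(1,1)]) (1,[(0,1)])) (.leaf false ⟨⟨-44,-5,8⟩,⟨-8,40,-19⟩,⟨-5,-20,-40⟩⟩ (55,[(3,7725),(1,188),(0,120)]) (385,[(3,48900),(1,812),(0,255)]) (77,[(3,9060),(1,259),(0,60)]))))) (.node ⟨0,0,1⟩ (.node ⟨-5,20,40⟩ (.node ⟨-44,5,-8⟩ (.leaf false ⟨⟨-44,5,-8⟩,⟨-8,-40,19⟩,⟨-5,20,40⟩⟩ (1,[(0,1)]) (8,[(1,4),(0,1),(3,405)]) (1,[(1,1)])) (.leaf false ⟨⟨-20,-40,5⟩,⟨-5,8,44⟩,⟨40,-19,8⟩⟩ (8,[(1,1),(4,155),(3,340)])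 (90,[(1,71),(4,6255),(0,140)]) (1,[(4,4),(3,14),(0,1)]))) (.node ⟨28,-35,4⟩ (.leaf false ⟨⟨-29,-20,28⟩,⟨-20,-20,-35⟩,⟨28,-35,4⟩⟩ (1,[(2,68),(4,34),(1,1)]) (1,[(2,5),(4,25),(1,1)]) (1,[(0,1)])) (.leaf false ⟨⟨-44,8,-5⟩,⟨-8,-19,40⟩,⟨-5,-40,-20⟩⟩ (55,[(2,7725),(0,120),(1,188)]) (385,[(2,48900),(0,255),(1,812)]) (77,[(2,9060),(0,60),(1,259)])))) (.node ⟨-5,20,-40⟩ (.node ⟨-44,5,8⟩ (.leaf false ⟨⟨-44,5,8⟩,⟨-8,-40,-19⟩,⟨-5,20,-40⟩⟩ (1,[(0,1)]) (8,[(1,4),(0,1),(3,405)]) (1,[(1,1)])) (.leaf false ⟨⟨-20,-40,-5⟩,⟨-5,8,-44⟩,⟨40,-19,-8⟩⟩ (8,[(1,1),(4,155),(3,340)]) (90,[(1,71),(4,6255),(0,140)]) (1,[(4,4),(3,14),(0,1)]))) (.node ⟨28,-35,-4⟩ (.leaf false ⟨⟨-29,-20,-28⟩,⟨-20,-20,35⟩,⟨28,-35,-4⟩⟩ (1,[(2,68),(4,34),(1,1)]) (1,[(2,5),(4,25),(1,1)])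 (1,[(0,1)])) (.leaf false ⟨⟨-44,8,-5⟩,⟨-8,-19,40⟩,⟨-5,-40,-20⟩⟩ (55,[(2,8275),(0,120),(1,188)]) (385,[(2,18100),(0,255),(1,812)]) (77,[(2,12140),(0,60),(1,259)]))))))
theorem pb45_ok : pb45.check (ok 45 6 ⟨5, 3, 3⟩) (fun _ r => r) [] = true := by decide +kernel

def pc45 : T := .node ⟨1,0,0⟩ (.node ⟨0,1,0⟩ (.node ⟨0,0,1⟩ (.node ⟨20,20,-35⟩ (.node ⟨-28,35,4⟩ (.leaf false ⟨⟨-28,35,4⟩,⟨20,20,-35⟩,⟨29,20,28⟩⟩ (1,[(0,1)]) (1,[(1,1)]) (1,[(2,63),(4,9),(1,1)])) (.leaf false ⟨⟨20,20,-35⟩,⟨20,29,28⟩,⟨35,-28,4⟩⟩ (1,[(1,1)]) (1,[(2,63),(1,1),(3,9)]) (4,[(2,36),(0,5),(3,63)]))) (.node ⟨29,-28,20⟩ (.node ⟨-28,-4,35⟩ (.leaf false ⟨⟨-28,-4,35⟩,⟨20,35,20⟩,⟨29,-28,20⟩⟩ (1,[(0,1)]) (7,[(5,252),(4,261),(0,4)]) (1,[(1,1)])) (.leaf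 false ⟨⟨5,20,40⟩,⟨8,-40,19⟩,⟨44,5,-8⟩⟩ (56,[(4,5520),(2,259),(0,195)]) (70,[(4,600),(2,203),(0,165)]) (70,[(4,5550),(2,329),(0,345)]))) (.leaf false ⟨⟨-40,8,19⟩,⟨5,44,-8⟩,⟨20,5,40⟩⟩ (145,[(4,2445),(0,165),(1,173)]) (145,[(4,14010),(0,345),(1,164)]) (116,[(4,12855),(0,195),(1,244)])))) (.node ⟨20,20,35⟩ (.node ⟨-28,35,-4⟩ (.leaf false ⟨⟨-28,35,-4⟩,⟨20,20,35⟩,⟨29,20,-28⟩⟩ (1,[(0,1)]) (1,[(1,1)]) (1,[(2,63),(4,9),(1,1)])) (.leaf false ⟨⟨20,20,-35⟩,⟨20,29,28⟩,⟨35,-28,4⟩⟩ (1,[(2,70),(1,1)]) (1,[(2,7),(1,1),(3,9)]) (4,[(2,4),(0,5),(3,63)]))) (.node ⟨29,-28,-20⟩ (.node ⟨-28,-4,-35⟩ (.leaf false ⟨⟨-28,-4,-35⟩,⟨20,35,-20⟩,⟨29,-28,-20⟩⟩ (1,[(0,1)]) (7,[(5,252),(4,261),(0,4)]) (1,[(1,1)])) (.leaf false ⟨⟨5,20,-40⟩,⟨8,-40,-19⟩,⟨44,5,8⟩⟩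 (56,[(4,5520),(2,259),(0,195)]) (70,[(4,600),(2,203),(0,165)]) (70,[(4,5550),(2,329),(0,345)]))) (.leaf false ⟨⟨-40,8,-19⟩,⟨5,44,8⟩,⟨20,5,-40⟩⟩ (145,[(4,2445),(0,165),(1,173)]) (145,[(4,14010),(0,345),(1,164)]) (116,[(4,12855),(0,195),(1,244)]))))) (.node ⟨0,0,1⟩ (.node ⟨5,-40,-20⟩ (.node ⟨44,8,-5⟩ (.leaf false ⟨⟨5,-40,-20⟩,⟨8,-19,40⟩,⟨44,8,-5⟩⟩ (1,[(1,1)]) (8,[(2,405),(0,1),(1,4)]) (1,[(0,1)])) (.leaf false ⟨⟨-40,-13,16⟩,⟨5,-40,-20⟩,⟨20,-16,37⟩⟩ (8,[(2,63),(4,252),(0,13)]) (1,[(1,1)]) (1,[(2,27),(4,108),(0,2)]))) (.node ⟨-28,-4,35⟩ (.leaf false ⟨⟨-28,-4,35⟩,⟨20,35,20⟩,⟨29,-28,20⟩⟩ (1,[(0,1)]) (1,[(4,25),(3,5),(1,1)]) (1,[(4,34),(3,68),(1,1)])) (.leaf false ⟨⟨5,20,40⟩,⟨8,-40,19⟩,⟨44,5,-8⟩⟩ (77,[(3,9060),(1,259),(0,60)])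 (385,[(3,48900),(1,812),(0,255)]) (55,[(3,7725),(1,188),(0,120)])))) (.node ⟨5,-40,20⟩ (.node ⟨44,8,5⟩ (.leaf false ⟨⟨5,-40,20⟩,⟨8,-19,-40⟩,⟨44,8,5⟩⟩ (1,[(1,1)]) (8,[(2,405),(0,1),(1,4)]) (1,[(0,1)])) (.leaf false ⟨⟨-40,-13,-16⟩,⟨5,-40,20⟩,⟨20,-16,-37⟩⟩ (8,[(2,63),(4,252),(0,13)]) (1,[(1,1)]) (1,[(2,27),(4,108),(0,2)]))) (.node ⟨-28,-4,-35⟩ (.leaf false ⟨⟨-28,-4,-35⟩,⟨20,35,-20⟩,⟨29,-28,-20⟩⟩ (1,[(0,1)]) (1,[(4,25),(3,5),(1,1)]) (1,[(4,34),(3,68),(1,1)])) (.leaf false ⟨⟨5,20,-40⟩,⟨8,-40,-19⟩,⟨44,5,8⟩⟩ (77,[(3,9060),(1,259),(0,60)]) (385,[(3,48900),(1,812),(0,255)]) (55,[(3,7725),(1,188),(0,120)])))))) (.node ⟨0,1,0⟩ (.node ⟨0,0,1⟩ (.node ⟨-40,5,-20⟩ (.node ⟨8,44,-5⟩ (.leaf false ⟨⟨-40,5,-20⟩,⟨-19,8,40⟩,⟨8,44,-5⟩⟩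 (1,[(1,1)]) (8,[(2,405),(1,4),(0,1)]) (1,[(0,1)])) (.leaf false ⟨⟨-40,5,-20⟩,⟨-16,20,37⟩,⟨-13,-40,16⟩⟩ (1,[(1,1)]) (1,[(2,27),(0,2),(3,108)]) (8,[(2,63),(0,13),(3,252)]))) (.node ⟨-4,-28,35⟩ (.leaf false ⟨⟨-28,29,20⟩,⟨-4,-28,35⟩,⟨35,20,20⟩⟩ (1,[(4,68),(3,34),(1,1)]) (1,[(0,1)]) (1,[(4,5),(3,25),(1,1)])) (.leaf false ⟨⟨-40,8,19⟩,⟨5,44,-8⟩,⟨20,5,40⟩⟩ (385,[(4,48900),(0,255),(1,812)]) (55,[(4,7725),(0,120),(1,188)]) (77,[(4,9060),(0,60),(1,259)])))) (.node ⟨-40,5,20⟩ (.node ⟨8,44,5⟩ (.leaf false ⟨⟨-40,5,20⟩,⟨-19,8,-40⟩,⟨8,44,5⟩⟩ (1,[(1,1)]) (8,[(2,405),(1,4),(0,1)]) (1,[(0,1)])) (.leaf false ⟨⟨-40,5,20⟩,⟨-16,20,-37⟩,⟨-13,-40,-16⟩⟩ (1,[(1,1)]) (1,[(2,27),(0,2),(3,108)]) (8,[(2,63),(0,13),(3,252)]))) (.node ⟨-4,-28,-35⟩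 (.leaf false ⟨⟨-28,29,-20⟩,⟨-4,-28,-35⟩,⟨35,20,-20⟩⟩ (1,[(4,68),(3,34),(1,1)]) (1,[(0,1)]) (1,[(4,5),(3,25),(1,1)])) (.leaf false ⟨⟨-40,8,-19⟩,⟨5,44,8⟩,⟨20,5,-40⟩⟩ (385,[(4,48900),(0,255),(1,812)]) (55,[(4,7725),(0,120),(1,188)]) (77,[(4,9060),(0,60),(1,259)]))))) (.node ⟨0,0,1⟩ (.node ⟨20,-40,5⟩ (.node ⟨5,8,44⟩ (.leaf false ⟨⟨-40,-19,8⟩,⟨5,8,44⟩,⟨20,-40,5⟩⟩ (8,[(4,405),(1,4),(0,1)]) (1,[(0,1)]) (1,[(1,1)])) (.leaf false ⟨⟨-37,-16,20⟩,⟨-16,-13,-40⟩,⟨20,-40,5⟩⟩ (1,[(2,108),(4,27),(0,2)]) (8,[(2,252),(4,63),(0,13)]) (1,[(1,1)]))) (.node ⟨-40,5,-20⟩ (.leaf false ⟨⟨-40,5,-20⟩,⟨-16,20,37⟩,⟨-13,-40,16⟩⟩ (1,[(0,1)]) (5,[(2,205),(1,4),(3,60)]) (20,[(2,385),(1,13),(3,1320)])) (.leaf false ⟨⟨-40,-16,13⟩,⟨5,20,40⟩,⟨20,-37,16⟩⟩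 (10,[(1,66),(3,2685),(0,23)]) (8,[(1,60),(3,2085),(0,31)]) (10,[(1,12),(3,795),(0,11)])))) (.node ⟨20,-40,-5⟩ (.node ⟨5,8,-44⟩ (.leaf false ⟨⟨-40,-19,-8⟩,⟨5,8,-44⟩,⟨20,-40,-5⟩⟩ (8,[(4,405),(1,4),(0,1)]) (1,[(0,1)]) (1,[(1,1)])) (.leaf false ⟨⟨-37,-16,-20⟩,⟨-16,-13,40⟩,⟨20,-40,-5⟩⟩ (1,[(2,108),(4,27),(0,2)]) (8,[(2,252),(4,63),(0,13)]) (1,[(1,1)]))) (.node ⟨-40,5,20⟩ (.leaf false ⟨⟨-40,5,20⟩,⟨-16,20,-37⟩,⟨-13,-40,-16⟩⟩ (1,[(0,1)]) (5,[(2,205),(1,4),(3,60)]) (20,[(2,385),(1,13),(3,1320)])) (.leaf false ⟨⟨-40,-16,-13⟩,⟨5,20,-40⟩,⟨20,-37,-16⟩⟩ (10,[(1,66),(3,2685),(0,23)]) (8,[(1,60),(3,2085),(0,31)]) (10,[(1,12),(3,795),(0,11)]))))))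
theorem pc45_ok : pc45.check (ok 45 6 ⟨5, 5, 3⟩) (fun _ r => r) [] = true := by decide +kernel

def pa63 : T := .node ⟨1,0,0⟩ (.node ⟨0,1,0⟩ (.node ⟨0,0,1⟩ (.node ⟨-38,26,43⟩ (.node ⟨37,-22,46⟩ (.node ⟨34,53,-2⟩ (.leaf false ⟨⟨-38,26,43⟩,⟨34,53,-2⟩,⟨37,-22,46⟩⟩ (1,[(2,1)]) (1,[(0,1)]) (1,[(1,1)])) (.leaf false ⟨⟨-62,10,5⟩,⟨-5,-50,38⟩,⟨10,37,50⟩⟩ (2,[(5,46),(4,285),(0,5)]) (1,[(5,641),(4,957),(0,19)]) (1,[(5,860),(4,1362),(0,25)]))) (.leaf false ⟨⟨-38,37,-34⟩,⟨-26,22,53⟩,⟨43,46,2⟩⟩ (22,[(2,954),(4,533),(0,37)]) (1,[(2,99),(4,11),(0,1)]) (11,[(2,1080),(4,1324),(0,23)]))) (.node ⟨-2,53,34⟩ (.leaf false ⟨⟨-2,53,34⟩,⟨43,26,-38⟩,⟨46,-22,37⟩⟩ (1,[(0,1)]) (38,[(2,405),(1,43),(3,2106)]) (19,[(2,1692),(1,23),(3,180)]))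 (.leaf false ⟨⟨5,-62,10⟩,⟨38,-5,-50⟩,⟨50,10,37⟩⟩ (2,[(2,190),(0,5),(3,141)]) (1,[(2,596),(0,19),(3,1002)]) (1,[(2,887),(0,25),(3,1335)])))) (.node ⟨-22,58,-11⟩ (.node ⟨58,-22,-11⟩ (.node ⟨2,-11,-62⟩ (.leaf false ⟨⟨-22,58,-11⟩,⟨2,-11,-62⟩,⟨59,22,-2⟩⟩ (1,[(2,1)]) (1,[(0,1)]) (11,[(1,2),(5,533),(4,286)])) (.leaf false ⟨⟨-11,62,-2⟩,⟨22,2,-59⟩,⟨58,11,22⟩⟩ (198,[(3,69701),(1,1),(0,1118)]) (24,[(3,1240),(1,11),(2,5)]) (9,[(3,1490),(1,10),(0,29)]))) (.leaf false ⟨⟨-50,38,-5⟩,⟨10,5,-62⟩,⟨37,50,10⟩⟩ (11,[(2,264),(4,552),(0,19)]) (22,[(2,1419),(4,510),(0,5)]) (11,[(2,165),(4,1857),(0,25)]))) (.leaf false ⟨⟨5,10,-62⟩,⟨38,-50,-5⟩,⟨50,37,10⟩⟩ (22,[(1,1419),(0,5),(2,510)]) (11,[(1,264),(0,19),(2,552)]) (11,[(1,165),(0,25),(2,1857)]))))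 (.node ⟨0,0,1⟩ (.node ⟨-22,-11,58⟩ (.node ⟨58,-11,-22⟩ (.node ⟨2,-62,-11⟩ (.leaf false ⟨⟨-22,-11,58⟩,⟨2,-62,-11⟩,⟨59,-2,22⟩⟩ (1,[(2,1)]) (1,[(0,1)]) (11,[(3,286),(5,533),(1,2)])) (.leaf false ⟨⟨-11,-2,62⟩,⟨22,-59,2⟩,⟨58,22,11⟩⟩ (198,[(1,1),(4,69701),(0,1118)]) (24,[(1,11),(4,1240),(2,5)]) (9,[(1,10),(4,1490),(0,29)]))) (.leaf false ⟨⟨-50,-5,38⟩,⟨10,-62,5⟩,⟨37,10,50⟩⟩ (11,[(4,552),(3,264),(0,19)]) (22,[(4,510),(3,1419),(0,5)]) (11,[(4,1857),(3,165),(0,25)]))) (.leaf false ⟨⟨5,-62,10⟩,⟨38,-5,-50⟩,⟨50,10,37⟩⟩ (22,[(1,510),(0,5),(2,1419)]) (11,[(1,552),(0,19),(2,264)]) (11,[(1,1857),(0,25),(2,165)]))) (.node ⟨-37,-50,10⟩ (.node ⟨-10,-5,-62⟩ (.leaf false ⟨⟨-37,-50,10⟩,⟨-10,-5,-62⟩,⟨50,-38,-5⟩⟩ (1,[(1,1)]) (1,[(0,1)])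 (25,[(2,315),(4,1953),(1,19)])) (.leaf false ⟨⟨-11,-62,2⟩,⟨22,-2,59⟩,⟨58,-11,-22⟩⟩ (315,[(2,113148),(0,1744),(1,565)]) (315,[(2,55503),(0,1174),(1,130)]) (315,[(2,215964),(0,3307),(1,400)]))) (.node ⟨-10,37,-50⟩ (.leaf false ⟨⟨-10,37,-50⟩,⟨5,-50,-38⟩,⟨62,10,-5⟩⟩ (1,[(0,1)]) (25,[(4,315),(3,1953),(0,19)]) (2,[(1,1),(4,87),(3,30)])) (.leaf false ⟨⟨5,-62,10⟩,⟨38,-5,-50⟩,⟨50,10,37⟩⟩ (2,[(2,30),(0,1),(3,87)]) (37,[(2,1470),(1,38),(3,2085)]) (623,[(2,5949),(1,650),(0,710)])))))) (.node ⟨0,1,0⟩ (.node ⟨0,0,1⟩ (.node ⟨-11,58,-22⟩ (.node ⟨-11,-22,58⟩ (.node ⟨-62,2,-11⟩ (.leaf false ⟨⟨-62,2,-11⟩,⟨-11,-22,58⟩,⟨-2,59,22⟩⟩ (1,[(0,1)]) (1,[(1,1)]) (11,[(3,286),(2,2),(4,533)])) (.leaf false ⟨⟨-59,2,22⟩,⟨-2,62,-11⟩,⟨22,11,58⟩⟩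 (24,[(1,11),(5,1240),(2,5)]) (9,[(5,590),(2,10),(0,11)]) (62160,[(1,69299),(2,39501),(0,41360)]))) (.leaf false ⟨⟨-62,5,10⟩,⟨-5,38,-50⟩,⟨10,50,37⟩⟩ (22,[(2,510),(4,1419),(0,5)]) (11,[(2,552),(4,264),(0,19)]) (11,[(2,1857),(4,165),(0,25)]))) (.leaf false ⟨⟨-62,10,5⟩,⟨-5,-50,38⟩,⟨10,37,50⟩⟩ (22,[(3,1419),(2,510),(0,5)]) (11,[(3,264),(2,552),(0,19)]) (11,[(3,165),(2,1857),(0,25)]))) (.node ⟨10,-37,-50⟩ (.node ⟨-62,-10,-5⟩ (.leaf false ⟨⟨-62,-10,-5⟩,⟨-5,50,-38⟩,⟨10,-37,-50⟩⟩ (1,[(0,1)]) (25,[(4,315),(3,1953),(1,19)]) (1,[(1,1)])) (.leaf false ⟨⟨-50,5,-38⟩,⟨10,62,-5⟩,⟨37,-10,-50⟩⟩ (35,[(4,13608),(0,184),(1,45)]) (7,[(4,4536),(0,73),(1,8)]) (7,[(4,1701),(0,30),(1,10)]))) (.node ⟨-50,-10,37⟩ (.leaf false ⟨⟨-50,-10,37⟩,⟨-38,5,-50⟩,⟨-5,62,10⟩⟩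 (1,[(0,1)]) (25,[(2,1953),(0,19),(3,315)]) (2,[(2,30),(1,1),(3,87)])) (.leaf false ⟨⟨-50,38,-5⟩,⟨10,5,-62⟩,⟨37,50,10⟩⟩ (37,[(2,2085),(4,1470),(1,38)]) (2,[(2,87),(4,30),(0,1)]) (650,[(2,5949),(1,710),(0,623)]))))) (.node ⟨0,0,1⟩ (.node ⟨10,-50,-37⟩ (.node ⟨-62,-5,-10⟩ (.leaf false ⟨⟨-62,-5,-10⟩,⟨-5,-38,50⟩,⟨10,-50,-37⟩⟩ (1,[(0,1)]) (25,[(2,1953),(4,315),(1,19)]) (1,[(1,1)])) (.leaf false ⟨⟨-50,-38,5⟩,⟨10,-5,62⟩,⟨37,-50,-10⟩⟩ (35,[(4,13608),(1,45),(0,184)]) (7,[(4,4536),(1,8),(0,73)]) (7,[(4,1701),(1,10),(0,30)]))) (.node ⟨-50,37,-10⟩ (.leaf false ⟨⟨-50,37,-10⟩,⟨-38,-50,5⟩,⟨-5,10,62⟩⟩ (1,[(0,1)]) (25,[(2,315),(0,19),(3,1953)]) (2,[(2,87),(1,1),(3,30)])) (.leaf false ⟨⟨-50,-5,38⟩,⟨10,-62,5⟩,⟨37,10,50⟩⟩ (37,[(1,38),(4,1470),(3,2085)])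 (2,[(4,30),(3,87),(0,1)]) (623,[(1,650),(4,5949),(0,710)])))) (.node ⟨-11,22,-58⟩ (.node ⟨-11,-58,22⟩ (.node ⟨-62,-2,11⟩ (.leaf false ⟨⟨-62,-2,11⟩,⟨-11,22,-58⟩,⟨-2,-59,-22⟩⟩ (1,[(0,1)]) (1,[(2,1)]) (11,[(3,286),(1,2),(4,533)])) (.leaf false ⟨⟨-59,-22,-2⟩,⟨-2,11,-62⟩,⟨22,-58,-11⟩⟩ (24,[(2,5),(5,1240),(1,11)]) (62160,[(2,69701),(1,15099),(0,13040)]) (9,[(5,1490),(1,10),(0,29)]))) (.leaf false ⟨⟨-62,-10,-5⟩,⟨-5,50,-38⟩,⟨10,-37,-50⟩⟩ (22,[(4,1419),(3,510),(0,5)]) (11,[(4,264),(3,552),(0,19)]) (11,[(4,165),(3,1857),(0,25)]))) (.leaf false ⟨⟨-62,-5,-10⟩,⟨-5,-38,50⟩,⟨10,-50,-37⟩⟩ (22,[(1,510),(3,1419),(0,5)]) (11,[(1,552),(3,264),(0,19)]) (11,[(1,1857),(3,165),(0,25)])))))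
theorem pa63_ok : pa63.check (ok 63 6 ⟨5, 5, 5⟩) (fun _ r => r) [] = true := by decide +kernel

def pb63 : T := .node ⟨1,0,0⟩ (.node ⟨0,1,0⟩ (.node ⟨0,0,1⟩ (.node ⟨58,-22,11⟩ (.node ⟨-11,2,62⟩ (.leaf false ⟨⟨-11,2,62⟩,⟨22,59,2⟩,⟨58,-22,11⟩⟩ (1,[(0,1)]) (11,[(1,2),(4,126),(3,693)]) (1,[(1,1)])) (.node ⟨-11,62,2⟩ (.leaf false ⟨⟨-11,62,2⟩,⟨22,2,59⟩,⟨58,11,-22⟩⟩ (1,[(0,1)]) (10,[(3,1890),(1,21),(0,1)]) (20,[(2,20),(1,11),(0,11)])) (.leaf false ⟨⟨22,-53,-26⟩,⟨37,34,-38⟩,⟨46,-2,43⟩⟩ (30,[(0,49),(1,11),(4,1470)]) (11,[(3,1876),(1,37),(4,448)]) (11,[(3,565),(0,46),(4,2830)])))) (.leaf false ⟨⟨-50,38,5⟩,⟨10,5,62⟩,⟨37,50,-10⟩⟩ (11,[(1,264),(3,552),(0,19)]) (22,[(1,1419),(3,510),(0,5)]) (11,[(1,165),(3,1857),(0,25)]))) (.node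 ⟨58,-22,-11⟩ (.node ⟨-11,2,-62⟩ (.leaf false ⟨⟨-11,2,-62⟩,⟨22,59,-2⟩,⟨58,-22,-11⟩⟩ (1,[(0,1)]) (11,[(1,2),(4,126),(3,693)]) (1,[(1,1)])) (.node ⟨-11,62,-2⟩ (.leaf false ⟨⟨-11,62,-2⟩,⟨22,2,-59⟩,⟨58,11,22⟩⟩ (1,[(0,1)]) (10,[(3,1890),(1,21),(0,1)]) (20,[(2,20),(1,11),(0,11)])) (.leaf false ⟨⟨22,-53,-26⟩,⟨37,34,-38⟩,⟨46,-2,43⟩⟩ (1,[(3,30),(0,2),(4,71)]) (11,[(3,492),(0,37),(4,2668)]) (11,[(3,2379),(1,46),(4,70)])))) (.leaf false ⟨⟨-50,38,-5⟩,⟨10,5,-62⟩,⟨37,50,10⟩⟩ (11,[(1,264),(3,552),(0,19)]) (22,[(1,1419),(3,510),(0,5)]) (11,[(1,165),(3,1857),(0,25)])))) (.node ⟨0,0,1⟩ (.node ⟨58,-11,-22⟩ (.node ⟨-11,-62,2⟩ (.leaf false ⟨⟨-11,-62,2⟩,⟨22,-2,59⟩,⟨58,-11,-22⟩⟩ (1,[(0,1)]) (11,[(2,693),(4,126),(1,2)]) (1,[(1,1)])) (.node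 ⟨-11,-2,62⟩ (.leaf false ⟨⟨-11,-2,62⟩,⟨22,-59,2⟩,⟨58,22,11⟩⟩ (1,[(0,1)]) (10,[(1,21),(4,1890),(0,1)]) (20,[(1,11),(2,20),(0,11)])) (.leaf false ⟨⟨22,-53,-26⟩,⟨37,34,-38⟩,⟨46,-2,43⟩⟩ (1,[(3,98),(0,2),(4,57)]) (11,[(3,1576),(1,5),(0,32)]) (11,[(3,565),(1,46),(4,2874)])))) (.leaf false ⟨⟨-50,-5,38⟩,⟨10,-62,5⟩,⟨37,10,50⟩⟩ (11,[(3,552),(2,264),(0,19)]) (22,[(3,510),(2,1419),(0,5)]) (11,[(3,1857),(2,165),(0,25)]))) (.node ⟨58,-11,22⟩ (.node ⟨-11,-62,-2⟩ (.leaf false ⟨⟨-11,-62,-2⟩,⟨22,-2,-59⟩,⟨58,-11,22⟩⟩ (1,[(0,1)]) (11,[(2,693),(4,126),(1,2)]) (1,[(1,1)])) (.node ⟨-11,-2,-62⟩ (.leaf false ⟨⟨-11,-2,-62⟩,⟨22,-59,-2⟩,⟨58,22,-11⟩⟩ (1,[(0,1)]) (10,[(1,21),(4,1890),(0,1)]) (20,[(1,11),(2,20),(0,11)])) (.leaf false ⟨⟨22,-53,-26⟩,⟨37,34,-38⟩,⟨46,-2,43⟩⟩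 (1,[(3,150),(0,2),(4,57)]) (11,[(3,492),(1,37),(4,1920)]) (11,[(3,2379),(0,46),(4,114)])))) (.leaf false ⟨⟨-50,-5,-38⟩,⟨10,-62,-5⟩,⟨37,10,-50⟩⟩ (11,[(3,552),(2,264),(0,19)]) (22,[(3,510),(2,1419),(0,5)]) (11,[(3,1857),(2,165),(0,25)]))))) (.node ⟨0,1,0⟩ (.node ⟨0,0,1⟩ (.node ⟨-11,58,-22⟩ (.node ⟨-11,-22,58⟩ (.node ⟨-62,2,-11⟩ (.leaf false ⟨⟨-62,2,-11⟩,⟨-11,-22,58⟩,⟨-2,59,22⟩⟩ (1,[(0,1)]) (1,[(1,1)]) (11,[(3,286),(2,2),(4,533)])) (.leaf false ⟨⟨-59,2,22⟩,⟨-2,62,-11⟩,⟨22,11,58⟩⟩ (24,[(1,11),(5,1240),(2,5)]) (9,[(5,590),(2,10),(0,11)]) (62160,[(1,69299),(2,39501),(0,41360)]))) (.leaf false ⟨⟨-62,5,-10⟩,⟨-5,38,50⟩,⟨10,50,-37⟩⟩ (22,[(2,70),(4,1419),(0,5)]) (11,[(2,1652),(4,264),(0,19)]) (11,[(2,1043),(4,165),(0,25)])))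 (.leaf false ⟨⟨-62,-10,5⟩,⟨-5,50,38⟩,⟨10,-37,50⟩⟩ (22,[(3,1419),(2,70),(0,5)]) (11,[(3,264),(2,1652),(0,19)]) (11,[(3,165),(2,1043),(0,25)]))) (.node ⟨-11,58,22⟩ (.node ⟨-11,-22,-58⟩ (.node ⟨-62,2,11⟩ (.leaf false ⟨⟨-62,2,11⟩,⟨-11,-22,-58⟩,⟨-2,59,-22⟩⟩ (1,[(0,1)]) (1,[(1,1)]) (11,[(3,286),(2,2),(4,533)])) (.leaf false ⟨⟨-59,2,-22⟩,⟨-2,62,11⟩,⟨22,11,-58⟩⟩ (24,[(1,11),(5,1240),(2,5)]) (9,[(5,590),(2,10),(0,11)]) (62160,[(1,69299),(2,39501),(0,41360)]))) (.leaf false ⟨⟨-62,5,-10⟩,⟨-5,38,50⟩,⟨10,50,-37⟩⟩ (22,[(2,510),(4,1419),(0,5)]) (11,[(2,552),(4,264),(0,19)]) (11,[(2,1857),(4,165),(0,25)]))) (.leaf false ⟨⟨-62,-10,-5⟩,⟨-5,50,-38⟩,⟨10,-37,-50⟩⟩ (22,[(3,1419),(2,70),(0,5)]) (11,[(3,264),(2,1652),(0,19)]) (11,[(3,165),(2,1043),(0,25)]))))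 (.node ⟨0,0,1⟩ (.node ⟨-11,22,58⟩ (.node ⟨-11,-58,-22⟩ (.node ⟨-62,-2,-11⟩ (.leaf false ⟨⟨-62,-2,-11⟩,⟨-11,22,58⟩,⟨-2,-59,22⟩⟩ (1,[(0,1)]) (1,[(2,1)]) (11,[(3,286),(1,2),(4,533)])) (.leaf false ⟨⟨-59,-22,2⟩,⟨-2,11,62⟩,⟨22,-58,11⟩⟩ (24,[(2,5),(5,1240),(1,11)]) (62160,[(2,69701),(1,15099),(0,13040)]) (9,[(5,1490),(1,10),(0,29)]))) (.leaf false ⟨⟨-62,-10,5⟩,⟨-5,50,38⟩,⟨10,-37,50⟩⟩ (22,[(4,1419),(3,510),(0,5)]) (11,[(4,264),(3,552),(0,19)]) (11,[(4,165),(3,1857),(0,25)]))) (.leaf false ⟨⟨-62,-5,-10⟩,⟨-5,-38,50⟩,⟨10,-50,-37⟩⟩ (22,[(1,70),(3,1419),(0,5)]) (11,[(1,1652),(3,264),(0,19)]) (11,[(1,1043),(3,165),(0,25)]))) (.node ⟨-11,22,-58⟩ (.node ⟨-11,-58,22⟩ (.node ⟨-62,-2,11⟩ (.leaf false ⟨⟨-62,-2,11⟩,⟨-11,22,-58⟩,⟨-2,-59,-22⟩⟩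 (1,[(0,1)]) (1,[(2,1)]) (11,[(3,286),(1,2),(4,533)])) (.leaf false ⟨⟨-59,-22,-2⟩,⟨-2,11,-62⟩,⟨22,-58,-11⟩⟩ (24,[(2,5),(5,1240),(1,11)]) (62160,[(2,69701),(1,15099),(0,13040)]) (9,[(5,1490),(1,10),(0,29)]))) (.leaf false ⟨⟨-62,-10,-5⟩,⟨-5,50,-38⟩,⟨10,-37,-50⟩⟩ (22,[(4,1419),(3,510),(0,5)]) (11,[(4,264),(3,552),(0,19)]) (11,[(4,165),(3,1857),(0,25)]))) (.leaf false ⟨⟨-62,-5,-10⟩,⟨-5,-38,50⟩,⟨10,-50,-37⟩⟩ (22,[(1,510),(3,1419),(0,5)]) (11,[(1,552),(3,264),(0,19)]) (11,[(1,1857),(3,165),(0,25)])))))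
theorem pb63_ok : pb63.check (ok 63 6 ⟨5, 3, 3⟩) (fun _ r => r) [] = true := by decide +kernel

def pc63 : T := .node ⟨1,0,0⟩ (.node ⟨0,1,0⟩ (.node ⟨0,0,1⟩ (.node ⟨-22,11,58⟩ (.node ⟨2,62,-11⟩ (.leaf false ⟨⟨-22,11,58⟩,⟨2,62,-11⟩,⟨59,2,22⟩⟩ (1,[(1,1)]) (1,[(0,1)]) (11,[(2,126),(4,693),(1,2)])) (.leaf false ⟨⟨-10,-37,50⟩,⟨5,50,38⟩,⟨62,-10,5⟩⟩ (63,[(3,13734),(1,5),(0,260)]) (29,[(4,563),(3,1241),(1,19)]) (11,[(4,692),(3,200),(0,5)]))) (.leaf false ⟨⟨5,62,-10⟩,⟨38,5,50⟩,⟨50,-10,-37⟩⟩ (22,[(1,70),(0,5),(2,1419)]) (11,[(1,1652),(0,19),(2,264)]) (11,[(1,1043),(0,25),(2,165)]))) (.node ⟨-22,11,-58⟩ (.node ⟨2,62,11⟩ (.leaf false ⟨⟨-22,11,-58⟩,⟨2,62,11⟩,⟨59,2,-22⟩⟩ (1,[(1,1)]) (1,[(0,1)]) (11,[(2,126),(4,693),(1,2)]))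 (.leaf false ⟨⟨-10,-37,-50⟩,⟨5,50,-38⟩,⟨62,-10,-5⟩⟩ (63,[(3,13734),(1,5),(0,260)]) (29,[(4,563),(3,1241),(1,19)]) (11,[(4,692),(3,200),(0,5)]))) (.leaf false ⟨⟨5,62,-10⟩,⟨38,5,50⟩,⟨50,-10,-37⟩⟩ (22,[(1,510),(0,5),(2,1419)]) (11,[(1,552),(0,19),(2,264)]) (11,[(1,1857),(0,25),(2,165)])))) (.node ⟨0,0,1⟩ (.node ⟨-22,-58,11⟩ (.node ⟨2,11,62⟩ (.leaf false ⟨⟨-22,-58,11⟩,⟨2,11,62⟩,⟨59,-22,2⟩⟩ (1,[(1,1)]) (1,[(0,1)]) (11,[(4,693),(3,126),(1,2)])) (.node ⟨62,11,2⟩ (.leaf false ⟨⟨2,-22,59⟩,⟨11,-58,-22⟩,⟨62,11,2⟩⟩ (10,[(3,1890),(0,1),(1,21)]) (20,[(0,11),(1,11),(2,20)]) (1,[(0,1)])) (.leaf false ⟨⟨-43,-46,-2⟩,⟨26,-22,-53⟩,⟨38,-37,34⟩⟩ (11,[(3,70),(5,2379),(0,46)]) (1,[(3,71),(5,30),(1,2)]) (11,[(3,2668),(5,492),(1,37)]))))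 (.leaf false ⟨⟨5,-10,62⟩,⟨38,50,5⟩,⟨50,-37,-10⟩⟩ (22,[(1,1419),(0,5),(2,510)]) (11,[(1,264),(0,19),(2,552)]) (11,[(1,165),(0,25),(2,1857)]))) (.node ⟨-22,-58,-11⟩ (.node ⟨2,11,-62⟩ (.leaf false ⟨⟨-22,-58,-11⟩,⟨2,11,-62⟩,⟨59,-22,-2⟩⟩ (1,[(1,1)]) (1,[(0,1)]) (11,[(4,693),(3,126),(1,2)])) (.node ⟨62,11,-2⟩ (.leaf false ⟨⟨2,-22,-59⟩,⟨11,-58,22⟩,⟨62,11,-2⟩⟩ (10,[(3,1890),(0,1),(1,21)]) (20,[(0,11),(1,11),(2,20)]) (1,[(0,1)])) (.leaf false ⟨⟨-43,-46,-2⟩,⟨26,-22,-53⟩,⟨38,-37,34⟩⟩ (11,[(3,114),(5,2379),(0,46)]) (1,[(3,57),(5,150),(0,2)]) (11,[(3,1920),(5,492),(1,37)])))) (.leaf false ⟨⟨5,-10,-62⟩,⟨38,50,-5⟩,⟨50,-37,10⟩⟩ (22,[(1,1419),(0,5),(2,510)]) (11,[(1,264),(0,19),(2,552)]) (11,[(1,165),(0,25),(2,1857)]))))) (.node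 ⟨0,1,0⟩ (.node ⟨0,0,1⟩ (.node ⟨-58,-22,11⟩ (.node ⟨11,2,62⟩ (.leaf false ⟨⟨-58,-22,11⟩,⟨-22,59,2⟩,⟨11,2,62⟩⟩ (1,[(1,1)]) (11,[(1,2),(4,126),(3,693)]) (1,[(0,1)])) (.node ⟨11,62,2⟩ (.leaf false ⟨⟨-58,11,-22⟩,⟨-22,2,59⟩,⟨11,62,2⟩⟩ (20,[(2,20),(1,11),(0,11)]) (10,[(3,1890),(1,21),(0,1)]) (1,[(0,1)])) (.leaf false ⟨⟨-49,-28,-28⟩,⟨-28,-7,56⟩,⟨-28,56,-7⟩⟩ (22,[(3,5040),(0,7),(1,91)]) (11,[(3,672),(0,28),(4,1659)]) (11,[(3,1659),(1,28),(4,672)])))) (.leaf false ⟨⟨-37,50,-10⟩,⟨-10,5,62⟩,⟨50,38,5⟩⟩ (11,[(1,165),(3,1857),(0,25)]) (22,[(1,1419),(3,510),(0,5)]) (11,[(1,264),(3,552),(0,19)]))) (.node ⟨-58,-22,-11⟩ (.node ⟨11,2,-62⟩ (.leaf false ⟨⟨-58,-22,-11⟩,⟨-22,59,-2⟩,⟨11,2,-62⟩⟩ (1,[(1,1)]) (11,[(1,2),(4,126),(3,693)])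 (1,[(0,1)])) (.node ⟨11,62,-2⟩ (.leaf false ⟨⟨-58,11,22⟩,⟨-22,2,-59⟩,⟨11,62,-2⟩⟩ (20,[(2,20),(1,11),(0,11)]) (10,[(3,1890),(1,21),(0,1)]) (1,[(0,1)])) (.leaf false ⟨⟨-49,-28,-28⟩,⟨-28,-7,56⟩,⟨-28,56,-7⟩⟩ (11,[(3,406),(0,49),(4,2730)]) (33,[(0,56),(1,28),(4,3297)]) (11,[(3,1813),(1,28),(4,672)])))) (.leaf false ⟨⟨-37,50,10⟩,⟨-10,5,-62⟩,⟨50,38,-5⟩⟩ (11,[(1,165),(3,1857),(0,25)]) (22,[(1,1419),(3,510),(0,5)]) (11,[(1,264),(3,552),(0,19)])))) (.node ⟨0,0,1⟩ (.node ⟨-43,38,26⟩ (.node ⟨-46,-37,-22⟩ (.node ⟨2,-34,53⟩ (.leaf false ⟨⟨-46,-37,-22⟩,⟨-43,38,26⟩,⟨2,-34,53⟩⟩ (1,[(1,1)]) (1,[(2,1)]) (1,[(0,1)])) (.leaf false ⟨⟨-49,-28,-28⟩,⟨-28,-7,56⟩,⟨-28,56,-7⟩⟩ (2,[(3,2541),(0,49),(4,1722)]) (1,[(3,798),(0,14),(4,483)]) (1,[(3,735),(0,14),(4,420)])))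 (.node ⟨-7,56,28⟩ (.leaf false ⟨⟨-28,-28,49⟩,⟨-7,56,28⟩,⟨56,-7,28⟩⟩ (4,[(5,63),(4,504),(0,7)]) (1,[(0,1)]) (11,[(5,28),(4,595),(1,14)])) (.leaf false ⟨⟨-37,-46,-22⟩,⟨-34,2,53⟩,⟨38,-43,26⟩⟩ (98,[(5,5607),(0,99),(1,28)]) (196,[(5,154035),(0,1917),(1,2912)]) (49,[(5,32067),(0,477),(1,665)])))) (.node ⟨-34,2,53⟩ (.leaf false ⟨⟨-37,-46,-22⟩,⟨-34,2,53⟩,⟨38,-43,26⟩⟩ (19,[(2,180),(4,1692),(1,23)]) (1,[(0,1)]) (38,[(2,2106),(4,405),(1,43)])) (.leaf false ⟨⟨-43,-46,-2⟩,⟨26,-22,-53⟩,⟨38,-37,34⟩⟩ (1,[(2,1217),(4,825),(0,23)]) (1,[(2,530),(4,348),(0,11)]) (2,[(2,2029),(4,1182),(0,37)])))) (.node ⟨-43,38,-26⟩ (.node ⟨-46,-37,22⟩ (.node ⟨2,-34,-53⟩ (.leaf false ⟨⟨-46,-37,22⟩,⟨-43,38,-26⟩,⟨2,-34,-53⟩⟩ (1,[(1,1)]) (1,[(2,1)])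 (1,[(0,1)])) (.leaf false ⟨⟨-49,-28,-28⟩,⟨-28,-7,56⟩,⟨-28,56,-7⟩⟩ (2,[(3,2653),(0,49),(4,1722)]) (1,[(3,686),(0,14),(4,483)]) (1,[(3,749),(0,14),(4,420)]))) (.node ⟨-7,56,-28⟩ (.leaf false ⟨⟨-28,-28,-49⟩,⟨-7,56,-28⟩,⟨56,-7,-28⟩⟩ (4,[(5,63),(4,504),(0,7)]) (1,[(0,1)]) (11,[(5,28),(4,595),(1,14)])) (.leaf false ⟨⟨-37,-46,22⟩,⟨-34,2,-53⟩,⟨38,-43,-26⟩⟩ (98,[(5,5607),(0,99),(1,28)]) (196,[(5,154035),(0,1917),(1,2912)]) (49,[(5,32067),(0,477),(1,665)])))) (.node ⟨-34,2,-53⟩ (.leaf false ⟨⟨-37,-46,22⟩,⟨-34,2,-53⟩,⟨38,-43,-26⟩⟩ (19,[(2,180),(4,1692),(1,23)]) (1,[(0,1)]) (38,[(2,2106),(4,405),(1,43)])) (.leaf false ⟨⟨-43,-46,-2⟩,⟨26,-22,-53⟩,⟨38,-37,34⟩⟩ (1,[(2,1221),(4,825),(0,23)]) (1,[(2,636),(4,348),(0,11)]) (2,[(2,1893),(4,1182),(0,37)]))))))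
theorem pc63_ok : pc63.check (ok 63 6 ⟨5, 5, 3⟩) (fun _ r => r) [] = true := by decide +kernel

def pa87 : T := .node ⟨1,0,0⟩ (.node ⟨0,1,0⟩ (.node ⟨0,0,1⟩ (.node ⟨-61,22,58⟩ (.node ⟨2,82,-29⟩ (.leaf false ⟨⟨-61,22,58⟩,⟨2,82,-29⟩,⟨62,19,58⟩⟩ (1,[(1,1)]) (1,[(0,1)]) (22,[(2,174),(4,2523),(1,19)])) (.leaf false ⟨⟨-29,-58,58⟩,⟨-2,62,61⟩,⟨82,-19,22⟩⟩ (93,[(4,696),(1,53),(0,80)]) (58,[(4,3605),(3,2254),(1,61)]) (29,[(4,2422),(3,1253),(0,22)]))) (.node ⟨35,-38,70⟩ (.node ⟨22,58,-61⟩ (.leaf false ⟨⟨19,58,62⟩,⟨22,58,-61⟩,⟨82,-29,2⟩⟩ (22,[(3,2523),(0,19),(4,174)]) (1,[(0,1)]) (61,[(3,4878),(2,82),(4,35)])) (.leaf false ⟨⟨-29,2,82⟩,⟨58,-61,22⟩,⟨58,62,19⟩⟩ (489,[(2,7),(4,39644),(0,664)]) (2445,[(2,4022),(4,212287),(0,4706)])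 (2445,[(2,3956),(4,500956),(0,4523)]))) (.leaf false ⟨⟨-50,62,-35⟩,⟨13,50,70⟩,⟨70,35,-38⟩⟩ (86,[(2,8290),(1,15),(0,149)]) (129,[(2,39336),(1,187),(0,278)]) (516,[(2,141252),(1,1295),(0,1225)])))) (.node ⟨-26,2,-83⟩ (.node ⟨-26,83,-2⟩ (.node ⟨2,-26,-83⟩ (.leaf false ⟨⟨-13,82,-26⟩,⟨2,-26,-83⟩,⟨86,13,-2⟩⟩ (162,[(4,10611),(1,31),(2,50)]) (1,[(0,1)]) (83,[(5,7134),(4,1131),(0,2)])) (.leaf false ⟨⟨-50,62,-35⟩,⟨13,50,70⟩,⟨70,35,-38⟩⟩ (4,[(3,306),(0,9),(2,7)]) (13,[(3,1165),(5,219),(0,25)]) (26,[(3,3893),(5,1890),(0,35)]))) (.leaf false ⟨⟨-26,2,-83⟩,⟨13,86,-2⟩,⟨82,-13,-26⟩⟩ (1,[(1,1)]) (54,[(3,7047),(1,2),(0,29)]) (351,[(3,98658),(1,140),(0,1247)]))) (.node ⟨58,-29,-58⟩ (.leaf false ⟨⟨2,13,-86⟩,⟨26,82,13⟩,⟨83,-26,-2⟩⟩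 (13,[(2,1201),(1,1),(3,171)]) (1,[(2,70),(1,1),(3,84)]) (638,[(2,46313),(0,510),(1,899)])) (.leaf false ⟨⟨-62,61,2⟩,⟨19,22,-82⟩,⟨58,58,29⟩⟩ (319,[(2,113970),(1,870),(0,731)]) (638,[(2,239337),(1,1827),(0,610)]) (11,[(2,8526),(1,87),(0,28)]))))) (.node ⟨0,0,1⟩ (.node ⟨-26,-83,2⟩ (.node ⟨-26,-2,83⟩ (.node ⟨2,-83,-26⟩ (.leaf false ⟨⟨-13,-26,82⟩,⟨2,-83,-26⟩,⟨86,-2,13⟩⟩ (162,[(3,10611),(2,50),(1,31)]) (1,[(0,1)]) (83,[(3,1131),(5,7134),(0,2)])) (.leaf false ⟨⟨-50,-35,62⟩,⟨13,70,50⟩,⟨70,-38,35⟩⟩ (4,[(4,306),(2,7),(0,9)]) (13,[(5,219),(4,1165),(0,25)]) (26,[(5,1890),(4,3893),(0,35)]))) (.leaf false ⟨⟨-26,-83,2⟩,⟨13,-2,86⟩,⟨82,-26,-13⟩⟩ (1,[(1,1)]) (54,[(2,7047),(0,29),(1,2)]) (351,[(2,98658),(0,1247),(1,140)]))) (.node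 ⟨58,-58,-29⟩ (.leaf false ⟨⟨2,-86,13⟩,⟨26,13,82⟩,⟨83,-2,-26⟩⟩ (13,[(2,171),(1,1),(3,1201)]) (1,[(2,84),(1,1),(3,70)]) (6322,[(2,46313),(1,4698),(0,6941)])) (.leaf false ⟨⟨-62,2,61⟩,⟨19,-82,22⟩,⟨58,29,58⟩⟩ (319,[(1,870),(3,113970),(0,731)]) (638,[(1,1827),(3,239337),(0,610)]) (11,[(1,87),(3,8526),(0,28)])))) (.node ⟨-34,-77,22⟩ (.node ⟨-22,-14,-83⟩ (.leaf false ⟨⟨-34,-77,22⟩,⟨-22,-14,-83⟩,⟨77,-38,-14⟩⟩ (1,[(1,1)]) (1,[(0,1)]) (77,[(2,1914),(4,7221),(1,38)])) (.leaf false ⟨⟨-29,-82,-2⟩,⟨58,-22,61⟩,⟨58,-19,-62⟩⟩ (406,[(2,26419),(0,185),(1,466)]) (203,[(2,64496),(0,869),(1,216)]) (203,[(2,87812),(0,852),(1,205)]))) (.node ⟨-29,-2,-82⟩ (.leaf false ⟨⟨-29,-2,-82⟩,⟨58,-62,-19⟩,⟨58,61,-22⟩⟩ (1,[(0,1)]) (22,[(1,19),(4,630),(3,2827)])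 (1,[(1,1),(4,24),(3,16)])) (.leaf false ⟨⟨14,-83,22⟩,⟨38,-14,-77⟩,⟨77,22,34⟩⟩ (29,[(2,510),(0,14),(3,2435)]) (17,[(2,891),(1,19),(3,1701)]) (571,[(1,888),(0,475),(3,56764)])))))) (.node ⟨0,1,0⟩ (.node ⟨0,0,1⟩ (.node ⟨-2,83,-26⟩ (.node ⟨-83,2,-26⟩ (.node ⟨-83,-26,2⟩ (.leaf false ⟨⟨-83,-26,2⟩,⟨-26,82,-13⟩,⟨-2,13,86⟩⟩ (1,[(0,1)]) (162,[(1,50),(2,31),(4,10611)]) (83,[(3,7134),(0,2),(4,1131)])) (.leaf false ⟨⟨-86,2,13⟩,⟨-2,83,-26⟩,⟨13,26,82⟩⟩ (1,[(3,39),(5,3),(1,1)]) (112,[(5,22302),(1,85),(0,351)]) (1,[(3,84),(5,70),(0,1)]))) (.leaf false ⟨⟨-86,2,13⟩,⟨-2,83,-26⟩,⟨13,26,82⟩⟩ (54,[(4,7047),(1,2),(0,29)]) (1,[(1,1)]) (351,[(4,98658),(1,140),(0,1247)]))) (.node ⟨29,58,58⟩ (.leaf false ⟨⟨-86,13,2⟩,⟨-2,-26,83⟩,⟨13,82,26⟩⟩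 (13,[(4,1120),(3,252),(1,1)]) (58,[(4,1885),(0,57),(1,58)]) (29,[(3,1624),(0,13)])) (.leaf false ⟨⟨-83,-26,2⟩,⟨-26,82,-13⟩,⟨-2,13,86⟩⟩ (319,[(3,256592),(1,2436),(0,1081)]) (638,[(3,183889),(1,1131),(0,650)]) (319,[(3,118958),(1,1305),(0,112)])))) (.node ⟨22,-34,-77⟩ (.node ⟨-83,-22,-14⟩ (.leaf false ⟨⟨-83,-22,-14⟩,⟨-14,77,-38⟩,⟨22,-34,-77⟩⟩ (1,[(0,1)]) (77,[(4,1914),(3,7221),(1,38)]) (1,[(1,1)])) (.leaf false ⟨⟨-77,14,-38⟩,⟨22,83,-14⟩,⟨34,-22,-77⟩⟩ (203,[(4,52200),(0,395),(1,172)]) (58,[(4,27405),(0,327),(1,70)]) (29,[(4,1566),(0,22),(1,33)]))) (.node ⟨-82,-29,-2⟩ (.leaf false ⟨⟨-82,-29,-2⟩,⟨-22,58,61⟩,⟨-19,58,-62⟩⟩ (1,[(0,1)]) (1,[(2,16),(1,1),(3,24)]) (22,[(2,2827),(1,19),(3,630)])) (.leaf false ⟨⟨-83,14,22⟩,⟨-14,38,-77⟩,⟨22,77,34⟩⟩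 (17,[(2,165),(4,1257),(1,7)]) (29,[(2,2309),(4,3522),(0,38)]) (571,[(2,54242),(1,946),(0,407)]))))) (.node ⟨0,0,1⟩ (.node ⟨22,-77,-34⟩ (.node ⟨-83,-14,-22⟩ (.leaf false ⟨⟨-83,-14,-22⟩,⟨-14,-38,77⟩,⟨22,-77,-34⟩⟩ (1,[(0,1)]) (77,[(2,7221),(4,1914),(1,38)]) (1,[(1,1)])) (.leaf false ⟨⟨-77,-38,14⟩,⟨22,-14,83⟩,⟨34,-77,-22⟩⟩ (203,[(4,52200),(1,172),(0,395)]) (58,[(4,27405),(1,70),(0,327)]) (29,[(4,1566),(1,33),(0,22)]))) (.node ⟨-82,-2,-29⟩ (.leaf false ⟨⟨-82,-2,-29⟩,⟨-22,61,58⟩,⟨-19,-62,58⟩⟩ (1,[(0,1)]) (1,[(2,24),(1,1),(3,16)]) (22,[(2,630),(1,19),(3,2827)])) (.leaf false ⟨⟨-83,22,14⟩,⟨-14,-77,38⟩,⟨22,34,77⟩⟩ (17,[(1,7),(4,1257),(3,165)]) (29,[(4,3522),(3,2309),(0,38)]) (571,[(1,946),(3,54242),(0,407)])))) (.node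 ⟨-2,26,-83⟩ (.node ⟨-83,26,-2⟩ (.node ⟨-83,-2,26⟩ (.leaf false ⟨⟨-83,-2,26⟩,⟨-26,13,-82⟩,⟨-2,-86,-13⟩⟩ (1,[(0,1)]) (162,[(3,10611),(2,31),(1,50)]) (83,[(3,1131),(0,2),(4,7134)])) (.leaf false ⟨⟨-86,-13,-2⟩,⟨-2,26,-83⟩,⟨13,-82,-26⟩⟩ (1,[(1,1),(5,3),(4,39)]) (112,[(1,85),(5,22302),(0,351)]) (1,[(5,70),(4,84),(0,1)]))) (.leaf false ⟨⟨-86,-13,-2⟩,⟨-2,26,-83⟩,⟨13,-82,-26⟩⟩ (54,[(1,2),(4,7047),(0,29)]) (1,[(1,1)]) (351,[(1,140),(4,98658),(0,1247)]))) (.node ⟨50,-62,-35⟩ (.leaf false ⟨⟨-86,-2,-13⟩,⟨-2,-83,26⟩,⟨13,-26,-82⟩⟩ (13,[(2,252),(4,1120),(1,1)]) (26,[(2,6213),(4,218),(1,83)]) (31,[(2,2087),(4,247),(0,13)])) (.leaf false ⟨⟨-83,-2,26⟩,⟨-26,13,-82⟩,⟨-2,-86,-13⟩⟩ (588,[(2,240256),(0,1081),(1,2623)]) (588,[(2,99514),(0,325),(1,481)])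 (21,[(2,6970),(0,4),(1,79)]))))))
theorem pa87_ok : pa87.check (ok 87 6 ⟨5, 5, 5⟩) (fun _ r => r) [] = true := by decide +kernel

def pb87 : T := .node ⟨1,0,0⟩ (.node ⟨0,1,0⟩ (.node ⟨0,0,1⟩ (.node ⟨-26,2,83⟩ (.node ⟨-26,83,2⟩ (.node ⟨82,-13,26⟩ (.leaf false ⟨⟨-26,2,83⟩,⟨13,86,2⟩,⟨82,-13,26⟩⟩ (1,[(2,1)]) (1,[(5,39),(4,3),(1,1)]) (1,[(0,1)])) (.leaf false ⟨⟨-83,14,-22⟩,⟨-14,38,77⟩,⟨22,77,-34⟩⟩ (13,[(3,78),(5,69),(0,14)]) (13,[(3,1989),(5,2934),(0,38)]) (13,[(3,1560),(5,6600),(0,77)]))) (.leaf false ⟨⟨-26,2,83⟩,⟨13,86,2⟩,⟨82,-13,26⟩⟩ (1,[(1,1)]) (54,[(3,7047),(1,2),(0,29)]) (351,[(3,98658),(1,140),(0,1247)]))) (.node ⟨58,-29,58⟩ (.leaf false ⟨⟨19,58,62⟩,⟨22,58,-61⟩,⟨82,-29,2⟩⟩ (26,[(2,3189),(1,19),(3,1546)]) (13,[(2,120),(1,11),(3,776)])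 (319,[(2,12412),(0,295),(1,348)])) (.leaf false ⟨⟨-62,61,-2⟩,⟨19,22,82⟩,⟨58,58,-29⟩⟩ (319,[(2,113970),(1,870),(0,731)]) (638,[(2,239337),(1,1827),(0,610)]) (11,[(2,8526),(1,87),(0,28)])))) (.node ⟨-26,2,-83⟩ (.node ⟨-26,83,-2⟩ (.node ⟨82,-13,-26⟩ (.leaf false ⟨⟨-26,2,-83⟩,⟨13,86,-2⟩,⟨82,-13,-26⟩⟩ (1,[(2,1)]) (1,[(5,39),(4,3),(1,1)]) (1,[(0,1)])) (.leaf false ⟨⟨-83,14,22⟩,⟨-14,38,-77⟩,⟨22,77,34⟩⟩ (13,[(3,78),(5,69),(0,14)]) (13,[(3,1989),(5,2934),(0,38)]) (13,[(3,1560),(5,6600),(0,77)]))) (.leaf false ⟨⟨-26,2,-83⟩,⟨13,86,-2⟩,⟨82,-13,-26⟩⟩ (1,[(1,1)]) (54,[(3,7047),(1,2),(0,29)]) (351,[(3,98658),(1,140),(0,1247)]))) (.node ⟨58,-29,-58⟩ (.leaf false ⟨⟨19,58,-62⟩,⟨22,58,61⟩,⟨82,-29,-2⟩⟩ (26,[(2,3189),(1,19),(3,1546)])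 (13,[(2,120),(1,11),(3,776)]) (319,[(2,12412),(0,295),(1,348)])) (.leaf false ⟨⟨-62,61,-2⟩,⟨19,22,82⟩,⟨58,58,-29⟩⟩ (319,[(2,115246),(1,870),(0,731)]) (638,[(2,134705),(1,1827),(0,610)]) (11,[(2,9164),(1,87),(0,28)]))))) (.node ⟨0,0,1⟩ (.node ⟨-26,-83,2⟩ (.node ⟨-26,-2,83⟩ (.node ⟨82,-26,-13⟩ (.leaf false ⟨⟨-26,-83,2⟩,⟨13,-2,86⟩,⟨82,-26,-13⟩⟩ (1,[(2,1)]) (1,[(3,3),(5,39),(1,1)]) (1,[(0,1)])) (.leaf false ⟨⟨-83,22,14⟩,⟨-14,-77,38⟩,⟨22,34,77⟩⟩ (13,[(5,69),(4,78),(0,14)]) (13,[(5,2934),(4,1989),(0,38)]) (13,[(5,6600),(4,1560),(0,77)]))) (.leaf false ⟨⟨-26,-83,2⟩,⟨13,-2,86⟩,⟨82,-26,-13⟩⟩ (1,[(1,1)]) (54,[(2,7047),(0,29),(1,2)]) (351,[(2,98658),(0,1247),(1,140)]))) (.node ⟨58,-58,-29⟩ (.leaf false ⟨⟨19,-62,58⟩,⟨22,61,58⟩,⟨82,-2,-29⟩⟩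 (26,[(2,1546),(1,19),(3,3189)]) (13,[(2,776),(1,11),(3,120)]) (3161,[(2,12412),(1,2320),(0,3429)])) (.leaf false ⟨⟨-62,-2,61⟩,⟨19,82,22⟩,⟨58,-29,58⟩⟩ (319,[(1,870),(3,115246),(0,731)]) (638,[(1,1827),(3,134705),(0,610)]) (11,[(1,87),(3,9164),(0,28)])))) (.node ⟨-26,-83,-2⟩ (.node ⟨-26,-2,-83⟩ (.node ⟨82,-26,13⟩ (.leaf false ⟨⟨-26,-83,-2⟩,⟨13,-2,-86⟩,⟨82,-26,13⟩⟩ (1,[(2,1)]) (1,[(3,3),(5,39),(1,1)]) (1,[(0,1)])) (.leaf false ⟨⟨-83,22,-14⟩,⟨-14,-77,-38⟩,⟨22,34,-77⟩⟩ (13,[(5,69),(4,78),(0,14)]) (13,[(5,2934),(4,1989),(0,38)]) (13,[(5,6600),(4,1560),(0,77)]))) (.leaf false ⟨⟨-26,-83,-2⟩,⟨13,-2,-86⟩,⟨82,-26,13⟩⟩ (1,[(1,1)]) (54,[(2,7047),(0,29),(1,2)]) (351,[(2,98658),(0,1247),(1,140)]))) (.node ⟨58,-58,29⟩ (.leaf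 false ⟨⟨19,-62,-58⟩,⟨22,61,-58⟩,⟨82,-2,29⟩⟩ (26,[(2,1546),(1,19),(3,3189)]) (13,[(2,776),(1,11),(3,120)]) (3161,[(2,12412),(1,2320),(0,3429)])) (.leaf false ⟨⟨-62,-2,-61⟩,⟨19,82,-22⟩,⟨58,-29,-58⟩⟩ (319,[(1,870),(3,115246),(0,731)]) (638,[(1,1827),(3,134705),(0,610)]) (11,[(1,87),(3,9164),(0,28)])))))) (.node ⟨0,1,0⟩ (.node ⟨0,0,1⟩ (.node ⟨-2,83,-26⟩ (.node ⟨-83,2,-26⟩ (.node ⟨-83,-26,2⟩ (.leaf false ⟨⟨-83,-26,2⟩,⟨-26,82,-13⟩,⟨-2,13,86⟩⟩ (1,[(0,1)]) (162,[(1,50),(2,31),(4,10611)]) (83,[(3,7134),(0,2),(4,1131)])) (.leaf false ⟨⟨-86,2,13⟩,⟨-2,83,-26⟩,⟨13,26,82⟩⟩ (1,[(3,39),(5,3),(1,1)]) (112,[(5,22302),(1,85),(0,351)]) (1,[(3,84),(5,70),(0,1)]))) (.leaf false ⟨⟨-86,2,13⟩,⟨-2,83,-26⟩,⟨13,26,82⟩⟩ (54,[(4,7047),(1,2),(0,29)])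 (1,[(1,1)]) (351,[(4,98658),(1,140),(0,1247)]))) (.node ⟨22,-34,77⟩ (.leaf false ⟨⟨-83,-22,14⟩,⟨-14,77,38⟩,⟨22,-34,77⟩⟩ (13,[(4,1093),(3,295),(1,7)]) (13,[(4,220),(3,2578),(1,19)]) (1,[(0,1)])) (.leaf false ⟨⟨-83,-26,2⟩,⟨-26,82,-13⟩,⟨-2,13,86⟩⟩ (418,[(3,449729),(1,6435),(0,2162)]) (209,[(3,77302),(1,858),(0,325)]) (209,[(3,83818),(1,1023),(0,112)])))) (.node ⟨-2,83,26⟩ (.node ⟨-83,2,26⟩ (.node ⟨-83,-26,-2⟩ (.leaf false ⟨⟨-83,-26,-2⟩,⟨-26,82,13⟩,⟨-2,13,-86⟩⟩ (1,[(0,1)]) (162,[(1,50),(2,31),(4,10611)]) (83,[(3,7134),(0,2),(4,1131)])) (.leaf false ⟨⟨-86,2,-13⟩,⟨-2,83,26⟩,⟨13,26,-82⟩⟩ (1,[(3,39),(5,3),(1,1)]) (112,[(5,22302),(1,85),(0,351)]) (1,[(3,84),(5,70),(0,1)]))) (.leaf false ⟨⟨-86,2,-13⟩,⟨-2,83,26⟩,⟨13,26,-82⟩⟩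 (54,[(4,7047),(1,2),(0,29)]) (1,[(1,1)]) (351,[(4,98658),(1,140),(0,1247)]))) (.node ⟨22,-34,-77⟩ (.leaf false ⟨⟨-83,-22,-14⟩,⟨-14,77,-38⟩,⟨22,-34,-77⟩⟩ (13,[(4,1093),(3,295),(1,7)]) (13,[(4,220),(3,2578),(1,19)]) (1,[(0,1)])) (.leaf false ⟨⟨-83,-26,-2⟩,⟨-26,82,13⟩,⟨-2,13,-86⟩⟩ (418,[(3,449729),(1,6435),(0,2162)]) (209,[(3,77302),(1,858),(0,325)]) (209,[(3,83818),(1,1023),(0,112)]))))) (.node ⟨0,0,1⟩ (.node ⟨-2,26,83⟩ (.node ⟨-83,26,2⟩ (.node ⟨-83,-2,-26⟩ (.leaf false ⟨⟨-83,-2,-26⟩,⟨-26,13,82⟩,⟨-2,-86,13⟩⟩ (1,[(0,1)]) (162,[(3,10611),(2,31),(1,50)]) (83,[(3,1131),(0,2),(4,7134)])) (.leaf false ⟨⟨-86,-13,2⟩,⟨-2,26,83⟩,⟨13,-82,26⟩⟩ (1,[(1,1),(5,3),(4,39)]) (112,[(1,85),(5,22302),(0,351)]) (1,[(5,70),(4,84),(0,1)])))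 (.leaf false ⟨⟨-86,-13,2⟩,⟨-2,26,83⟩,⟨13,-82,26⟩⟩ (54,[(1,2),(4,7047),(0,29)]) (1,[(1,1)]) (351,[(1,140),(4,98658),(0,1247)]))) (.node ⟨22,-77,-34⟩ (.leaf false ⟨⟨-83,-14,-22⟩,⟨-14,-38,77⟩,⟨22,-77,-34⟩⟩ (13,[(2,295),(4,1093),(1,7)]) (13,[(2,2578),(4,220),(1,19)]) (1,[(0,1)])) (.leaf false ⟨⟨-83,-2,-26⟩,⟨-26,13,82⟩,⟨-2,-86,13⟩⟩ (418,[(2,449729),(0,2162),(1,6435)]) (209,[(2,77302),(0,325),(1,858)]) (209,[(2,83818),(0,112),(1,1023)])))) (.node ⟨-2,26,-83⟩ (.node ⟨-83,26,-2⟩ (.node ⟨-83,-2,26⟩ (.leaf false ⟨⟨-83,-2,26⟩,⟨-26,13,-82⟩,⟨-2,-86,-13⟩⟩ (1,[(0,1)]) (162,[(3,10611),(2,31),(1,50)]) (83,[(3,1131),(0,2),(4,7134)])) (.leaf false ⟨⟨-86,-13,-2⟩,⟨-2,26,-83⟩,⟨13,-82,-26⟩⟩ (1,[(1,1),(5,3),(4,39)]) (112,[(1,85),(5,22302),(0,351)])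 (1,[(5,70),(4,84),(0,1)]))) (.leaf false ⟨⟨-86,-13,-2⟩,⟨-2,26,-83⟩,⟨13,-82,-26⟩⟩ (54,[(1,2),(4,7047),(0,29)]) (1,[(1,1)]) (351,[(1,140),(4,98658),(0,1247)]))) (.node ⟨22,-77,34⟩ (.leaf false ⟨⟨-83,-14,-22⟩,⟨-14,-38,77⟩,⟨22,-77,-34⟩⟩ (11,[(2,310),(4,957),(0,2)]) (13,[(2,576),(4,220),(1,19)]) (1,[(2,68),(0,1)])) (.leaf false ⟨⟨-83,-2,-26⟩,⟨-26,13,82⟩,⟨-2,-86,13⟩⟩ (418,[(2,471465),(0,2162),(1,6435)]) (209,[(2,43026),(0,325),(1,858)]) (209,[(2,78384),(0,112),(1,1023)]))))))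
theorem pb87_ok : pb87.check (ok 87 6 ⟨5, 3, 3⟩) (fun _ r => r) [] = true := by decide +kernel

def pc87 : T := .node ⟨1,0,0⟩ (.node ⟨0,1,0⟩ (.node ⟨0,0,1⟩ (.node ⟨2,83,-26⟩ (.node ⟨83,2,-26⟩ (.node ⟨-13,26,82⟩ (.leaf false ⟨⟨-13,26,82⟩,⟨2,83,-26⟩,⟨86,2,13⟩⟩ (1,[(0,1)]) (1,[(2,1)]) (1,[(3,39),(5,3),(1,1)])) (.leaf false ⟨⟨2,86,-13⟩,⟨26,-13,-82⟩,⟨83,2,26⟩⟩ (1,[(3,13),(2,1),(4,3)]) (1,[(3,82),(0,2),(4,39)]) (13,[(3,7144),(0,83),(4,2184)]))) (.leaf false ⟨⟨-13,26,82⟩,⟨2,83,-26⟩,⟨86,2,13⟩⟩ (351,[(4,98658),(1,140),(0,1247)]) (1,[(1,1)]) (54,[(4,7047),(1,2),(0,29)]))) (.node ⟨-22,-34,77⟩ (.leaf false ⟨⟨-22,-34,77⟩,⟨14,77,38⟩,⟨83,-22,14⟩⟩ (1,[(0,1)]) (13,[(4,220),(3,2578),(1,19)]) (13,[(4,1093),(3,295),(1,7)])) (.leaf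 false ⟨⟨2,-13,86⟩,⟨26,-82,-13⟩,⟨83,26,2⟩⟩ (209,[(3,78384),(1,1023),(0,112)]) (209,[(3,43026),(1,858),(0,325)]) (418,[(3,471465),(1,6435),(0,2162)])))) (.node ⟨2,83,26⟩ (.node ⟨83,2,26⟩ (.node ⟨-13,26,-82⟩ (.leaf false ⟨⟨-13,26,-82⟩,⟨2,83,26⟩,⟨86,2,-13⟩⟩ (1,[(0,1)]) (1,[(2,1)]) (1,[(3,39),(5,3),(1,1)])) (.leaf false ⟨⟨2,86,-13⟩,⟨26,-13,-82⟩,⟨83,2,26⟩⟩ (1,[(3,39),(2,1),(4,3)]) (1,[(3,246),(0,2),(4,39)]) (13,[(3,6468),(0,83),(4,2184)]))) (.leaf false ⟨⟨-13,26,-82⟩,⟨2,83,26⟩,⟨86,2,-13⟩⟩ (351,[(4,98658),(1,140),(0,1247)]) (1,[(1,1)]) (54,[(4,7047),(1,2),(0,29)]))) (.node ⟨-22,-34,-77⟩ (.leaf false ⟨⟨-22,-34,-77⟩,⟨14,77,-38⟩,⟨83,-22,-14⟩⟩ (1,[(0,1)]) (13,[(4,220),(3,2578),(1,19)]) (13,[(4,1093),(3,295),(1,7)])) (.leaf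 false ⟨⟨2,-13,-86⟩,⟨26,-82,13⟩,⟨83,26,-2⟩⟩ (209,[(3,78384),(1,1023),(0,112)]) (209,[(3,43026),(1,858),(0,325)]) (418,[(3,471465),(1,6435),(0,2162)]))))) (.node ⟨0,0,1⟩ (.node ⟨2,26,83⟩ (.node ⟨83,26,2⟩ (.node ⟨-13,-82,26⟩ (.leaf false ⟨⟨-13,-82,26⟩,⟨2,26,83⟩,⟨86,-13,2⟩⟩ (1,[(0,1)]) (1,[(2,1)]) (1,[(1,1),(5,3),(4,39)])) (.leaf false ⟨⟨2,-13,86⟩,⟨26,-82,-13⟩,⟨83,26,2⟩⟩ (1,[(3,3),(2,1),(4,39)]) (1,[(3,39),(0,2),(4,246)]) (13,[(3,2184),(0,83),(4,6468)]))) (.leaf false ⟨⟨-13,-82,26⟩,⟨2,26,83⟩,⟨86,-13,2⟩⟩ (351,[(1,140),(4,98658),(0,1247)]) (1,[(1,1)]) (54,[(1,2),(4,7047),(0,29)]))) (.node ⟨-58,-58,-29⟩ (.leaf false ⟨⟨-58,-58,-29⟩,⟨-19,-22,82⟩,⟨62,-61,-2⟩⟩ (1,[(0,1)]) (29,[(2,2697),(4,87),(0,11)]) (26,[(2,5011),(4,1734),(1,61)]))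 (.leaf false ⟨⟨2,-13,86⟩,⟨26,-82,-13⟩,⟨83,26,2⟩⟩ (232,[(2,31610),(0,13),(1,145)]) (58,[(2,19894),(0,35),(1,261)]) (232,[(2,36018),(0,351),(1,551)])))) (.node ⟨2,26,-83⟩ (.node ⟨83,26,-2⟩ (.node ⟨-13,-82,-26⟩ (.leaf false ⟨⟨-13,-82,-26⟩,⟨2,26,-83⟩,⟨86,-13,-2⟩⟩ (1,[(0,1)]) (1,[(2,1)]) (1,[(1,1),(5,3),(4,39)])) (.leaf false ⟨⟨2,-13,-86⟩,⟨26,-82,13⟩,⟨83,26,-2⟩⟩ (1,[(3,3),(2,1),(4,39)]) (1,[(3,39),(0,2),(4,246)]) (13,[(3,2184),(0,83),(4,6468)]))) (.leaf false ⟨⟨-13,-82,-26⟩,⟨2,26,-83⟩,⟨86,-13,-2⟩⟩ (351,[(1,140),(4,98658),(0,1247)]) (1,[(1,1)]) (54,[(1,2),(4,7047),(0,29)]))) (.node ⟨-58,-58,29⟩ (.leaf false ⟨⟨-58,-58,29⟩,⟨-19,-22,-82⟩,⟨62,-61,2⟩⟩ (1,[(0,1)]) (29,[(2,2697),(4,87),(0,11)]) (26,[(2,5011),(4,1734),(1,61)]))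 (.leaf false ⟨⟨2,-13,-86⟩,⟨26,-82,13⟩,⟨83,26,-2⟩⟩ (232,[(2,31610),(0,13),(1,145)]) (58,[(2,19894),(0,35),(1,261)]) (232,[(2,36018),(0,351),(1,551)])))))) (.node ⟨0,1,0⟩ (.node ⟨0,0,1⟩ (.node ⟨26,2,83⟩ (.node ⟨26,83,2⟩ (.node ⟨-82,-13,26⟩ (.leaf false ⟨⟨-82,-13,26⟩,⟨-13,86,2⟩,⟨26,2,83⟩⟩ (1,[(0,1)]) (1,[(5,39),(4,3),(1,1)]) (1,[(2,1)])) (.leaf false ⟨⟨-82,26,-13⟩,⟨-13,2,86⟩,⟨26,83,2⟩⟩ (1,[(3,39),(5,246),(0,2)]) (1,[(3,3),(5,39),(2,1)]) (13,[(3,2184),(5,6468),(0,83)]))) (.leaf false ⟨⟨-82,-13,26⟩,⟨-13,86,2⟩,⟨26,2,83⟩⟩ (351,[(3,98658),(1,140),(0,1247)]) (54,[(3,7047),(1,2),(0,29)]) (1,[(1,1)]))) (.node ⟨-58,-58,-29⟩ (.leaf false ⟨⟨-61,62,-2⟩,⟨-58,-58,-29⟩,⟨-22,-19,82⟩⟩ (26,[(2,5011),(1,61),(3,1734)]) (1,[(0,1)]) (29,[(2,2697),(0,11),(3,87)]))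 (.leaf false ⟨⟨-82,26,-13⟩,⟨-13,2,86⟩,⟨26,83,2⟩⟩ (58,[(2,19894),(1,261),(0,35)]) (232,[(2,31610),(1,145),(0,13)]) (232,[(2,36018),(1,551),(0,351)])))) (.node ⟨26,2,-83⟩ (.node ⟨26,83,-2⟩ (.node ⟨-82,-13,-26⟩ (.leaf false ⟨⟨-82,-13,-26⟩,⟨-13,86,-2⟩,⟨26,2,-83⟩⟩ (1,[(0,1)]) (1,[(5,39),(4,3),(1,1)]) (1,[(2,1)])) (.leaf false ⟨⟨-82,26,13⟩,⟨-13,2,-86⟩,⟨26,83,-2⟩⟩ (1,[(3,39),(5,246),(0,2)]) (1,[(3,3),(5,39),(2,1)]) (13,[(3,2184),(5,6468),(0,83)]))) (.leaf false ⟨⟨-82,-13,-26⟩,⟨-13,86,-2⟩,⟨26,2,-83⟩⟩ (351,[(3,98658),(1,140),(0,1247)]) (54,[(3,7047),(1,2),(0,29)]) (1,[(1,1)]))) (.node ⟨-58,-58,29⟩ (.leaf false ⟨⟨-61,62,2⟩,⟨-58,-58,29⟩,⟨-22,-19,-82⟩⟩ (26,[(2,5011),(1,61),(3,1734)]) (1,[(0,1)]) (29,[(2,2697),(0,11),(3,87)]))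 (.leaf false ⟨⟨-82,26,13⟩,⟨-13,2,-86⟩,⟨26,83,-2⟩⟩ (58,[(2,19894),(1,261),(0,35)]) (232,[(2,31610),(1,145),(0,13)]) (232,[(2,36018),(1,551),(0,351)]))))) (.node ⟨0,0,1⟩ (.node ⟨-22,-58,-61⟩ (.node ⟨-82,29,2⟩ (.leaf false ⟨⟨-82,29,2⟩,⟨-22,-58,-61⟩,⟨-19,-58,62⟩⟩ (1,[(0,1)]) (1,[(1,1)]) (22,[(2,2523),(1,19),(3,174)])) (.leaf false ⟨⟨-58,-58,-29⟩,⟨-19,-22,82⟩,⟨62,-61,-2⟩⟩ (1,[(2,32),(4,36),(1,1)]) (29,[(2,2422),(4,2355),(0,22)]) (29,[(2,64),(4,3204),(0,61)]))) (.node ⟨62,2,61⟩ (.leaf false ⟨⟨-58,29,58⟩,⟨-19,-82,22⟩,⟨62,2,61⟩⟩ (61,[(4,4814),(3,1595),(1,58)]) (61,[(4,2523),(3,5046),(0,22)]) (1,[(0,1)])) (.leaf false ⟨⟨-82,2,-29⟩,⟨-22,-61,58⟩,⟨-19,62,58⟩⟩ (610,[(3,43056),(1,801),(0,1091)]) (1220,[(3,215004),(1,2469),(0,1309)])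 (488,[(3,23928),(1,951),(0,487)])))) (.node ⟨-22,-58,61⟩ (.node ⟨-82,29,-2⟩ (.leaf false ⟨⟨-82,29,-2⟩,⟨-22,-58,61⟩,⟨-19,-58,-62⟩⟩ (1,[(0,1)]) (1,[(1,1)]) (22,[(2,2523),(1,19),(3,174)])) (.leaf false ⟨⟨-58,-58,29⟩,⟨-19,-22,-82⟩,⟨62,-61,2⟩⟩ (1,[(2,32),(4,36),(1,1)]) (29,[(2,2422),(4,2355),(0,22)]) (29,[(2,64),(4,3204),(0,61)]))) (.node ⟨62,2,-61⟩ (.leaf false ⟨⟨-58,29,-58⟩,⟨-19,-82,-22⟩,⟨62,2,-61⟩⟩ (61,[(4,4814),(3,1595),(1,58)]) (61,[(4,2523),(3,5046),(0,22)]) (1,[(0,1)])) (.leaf false ⟨⟨-82,2,29⟩,⟨-22,-61,-58⟩,⟨-19,62,-58⟩⟩ (610,[(3,43056),(1,801),(0,1091)]) (1220,[(3,215004),(1,2469),(0,1309)]) (488,[(3,23928),(1,951),(0,487)]))))))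
theorem pc87_ok : pc87.check (ok 87 6 ⟨5, 5, 3⟩) (fun _ r => r) [] = true := by decide +kernel

def pa93 : T := .node ⟨1,0,0⟩ (.node ⟨0,1,0⟩ (.node ⟨0,0,1⟩ (.node ⟨-29,8,88⟩ (.node ⟨-8,92,-11⟩ (.leaf false ⟨⟨-29,8,88⟩,⟨-8,92,-11⟩,⟨88,11,28⟩⟩ (1,[(1,1)]) (1,[(0,1)]) (92,[(2,2697),(4,8184),(0,11)])) (.leaf false ⟨⟨-13,52,76⟩,⟨-4,-77,52⟩,⟨92,4,13⟩⟩ (22,[(4,265),(3,992),(1,19)]) (264,[(4,771),(1,127),(0,232)]) (11,[(4,908),(3,1240),(0,13)]))) (.leaf false ⟨⟨13,92,4⟩,⟨52,-4,-77⟩,⟨76,-13,52⟩⟩ (29,[(1,1260),(0,13),(2,2772)]) (29,[(1,2343),(0,52),(2,300)]) (29,[(1,8196),(0,76),(2,231)]))) (.node ⟨-43,-20,-80⟩ (.node ⟨80,-32,-35⟩ (.leaf false ⟨⟨-43,-20,-80⟩,⟨20,85,-32⟩,⟨80,-32,-35⟩⟩ (1,[(1,1)]) (5,[(4,186),(3,465),(1,2)])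 (1,[(0,1)])) (.leaf false ⟨⟨-88,28,-11⟩,⟨8,-11,-92⟩,⟨29,88,-8⟩⟩ (155,[(4,7533),(0,205),(1,111)]) (620,[(4,67239),(0,320),(1,853)]) (155,[(4,64449),(0,600),(1,278)]))) (.node ⟨-13,76,52⟩ (.leaf false ⟨⟨-13,76,52⟩,⟨-4,52,-77⟩,⟨92,13,4⟩⟩ (1,[(0,1)]) (19,[(2,2139),(4,93),(0,13)]) (20,[(2,960),(4,1281),(1,13)])) (.leaf false ⟨⟨13,-4,-92⟩,⟨52,77,4⟩,⟨76,-52,13⟩⟩ (1,[(2,40),(0,1),(3,72)]) (43,[(2,3988),(1,52),(3,2271)]) (294,[(2,13902),(0,313),(1,425)]))))) (.node ⟨0,0,1⟩ (.node ⟨-43,-80,-20⟩ (.node ⟨80,-35,-32⟩ (.leaf false ⟨⟨-43,-80,-20⟩,⟨20,-32,85⟩,⟨80,-35,-32⟩⟩ (1,[(1,1)]) (5,[(2,465),(4,186),(1,2)]) (1,[(0,1)])) (.leaf false ⟨⟨-88,-11,28⟩,⟨8,-92,-11⟩,⟨29,-8,88⟩⟩ (155,[(4,7533),(1,111),(0,205)]) (620,[(4,67239),(1,853),(0,320)])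 (155,[(4,64449),(1,278),(0,600)]))) (.node ⟨-13,52,76⟩ (.leaf false ⟨⟨-13,52,76⟩,⟨-4,-77,52⟩,⟨92,4,13⟩⟩ (1,[(0,1)]) (19,[(4,93),(3,2139),(0,13)]) (20,[(1,13),(4,1281),(3,960)])) (.leaf false ⟨⟨13,-92,-4⟩,⟨52,4,77⟩,⟨76,13,-52⟩⟩ (1,[(2,72),(0,1),(3,40)]) (43,[(2,2271),(1,52),(3,3988)]) (294,[(1,425),(0,313),(3,13902)])))) (.node ⟨-29,-88,-8⟩ (.node ⟨-8,11,-92⟩ (.leaf false ⟨⟨-29,-88,-8⟩,⟨-8,11,-92⟩,⟨88,-28,-11⟩⟩ (1,[(1,1)]) (1,[(0,1)]) (92,[(4,8184),(3,2697),(0,11)])) (.leaf false ⟨⟨-11,-92,8⟩,⟨28,-11,-88⟩,⟨88,-8,29⟩⟩ (341,[(4,5890),(0,60),(1,349)]) (1,[(2,180),(4,20),(0,1)]) (11,[(2,417),(4,904),(0,8)]))) (.leaf false ⟨⟨13,-4,-92⟩,⟨52,77,4⟩,⟨76,-52,13⟩⟩ (29,[(1,2772),(0,13),(2,1260)]) (29,[(1,300),(0,52),(2,2343)])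 (29,[(1,231),(0,76),(2,8196)]))))) (.node ⟨0,1,0⟩ (.node ⟨0,0,1⟩ (.node ⟨-80,-43,-20⟩ (.node ⟨-35,80,-32⟩ (.leaf false ⟨⟨-80,-43,-20⟩,⟨-35,80,-32⟩,⟨-32,20,85⟩⟩ (1,[(1,1)]) (1,[(0,1)]) (5,[(2,465),(1,2),(3,186)])) (.leaf false ⟨⟨-92,-4,13⟩,⟨4,77,52⟩,⟨13,-52,76⟩⟩ (620,[(1,1133),(3,123039),(0,960)]) (155,[(1,141),(3,45198),(0,340)]) (155,[(1,187),(3,38781),(0,485)]))) (.node ⟨52,-13,76⟩ (.leaf false ⟨⟨-77,-4,52⟩,⟨4,92,13⟩,⟨52,-13,76⟩⟩ (19,[(4,2139),(3,93),(0,13)]) (20,[(4,960),(3,1281),(1,13)]) (1,[(0,1)])) (.leaf false ⟨⟨-92,13,-4⟩,⟨4,52,77⟩,⟨13,76,-52⟩⟩ (1,[(2,72),(4,40),(0,1)]) (43,[(2,2271),(4,3988),(1,52)]) (294,[(4,13902),(0,313),(1,425)])))) (.node ⟨-8,88,29⟩ (.node ⟨-92,-11,8⟩ (.leaf false ⟨⟨-92,-11,8⟩,⟨-11,28,-88⟩,⟨-8,88,29⟩⟩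 (1,[(0,1)]) (92,[(2,8184),(0,11),(3,2697)]) (1,[(1,1)])) (.leaf false ⟨⟨-52,76,13⟩,⟨-4,13,-92⟩,⟨77,52,4⟩⟩ (22,[(2,265),(4,992),(1,19)]) (11,[(2,908),(4,1240),(0,13)]) (264,[(2,771),(1,127),(0,232)]))) (.leaf false ⟨⟨-92,4,-13⟩,⟨4,-77,-52⟩,⟨13,52,-76⟩⟩ (29,[(3,2772),(2,1260),(0,13)]) (29,[(3,300),(2,2343),(0,52)]) (29,[(3,231),(2,8196),(0,76)])))) (.node ⟨0,0,1⟩ (.node ⟨-8,29,88⟩ (.node ⟨-92,8,-11⟩ (.leaf false ⟨⟨-92,8,-11⟩,⟨-11,-88,28⟩,⟨-8,29,88⟩⟩ (1,[(0,1)]) (92,[(2,2697),(0,11),(3,8184)]) (1,[(1,1)])) (.leaf false ⟨⟨-52,13,76⟩,⟨-4,-92,13⟩,⟨77,4,52⟩⟩ (22,[(1,19),(4,992),(3,265)]) (11,[(4,1240),(3,908),(0,13)]) (264,[(1,127),(3,771),(0,232)]))) (.leaf false ⟨⟨-92,-13,4⟩,⟨4,-52,-77⟩,⟨13,-76,52⟩⟩ (29,[(1,1260),(3,2772),(0,13)])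 (29,[(1,2343),(3,300),(0,52)]) (29,[(1,8196),(3,231),(0,76)]))) (.node ⟨20,-80,43⟩ (.node ⟨32,-35,-80⟩ (.leaf false ⟨⟨-85,-32,-20⟩,⟨20,-80,43⟩,⟨32,-35,-80⟩⟩ (5,[(2,186),(4,465),(1,2)]) (1,[(1,1)]) (1,[(0,1)])) (.leaf false ⟨⟨-92,-13,4⟩,⟨4,-52,-77⟩,⟨13,-76,52⟩⟩ (155,[(2,63209),(0,635),(1,303)]) (155,[(2,22196),(0,60),(1,127)]) (620,[(2,8897),(0,160),(1,659)]))) (.node ⟨-76,52,13⟩ (.leaf false ⟨⟨-76,52,13⟩,⟨-52,-77,4⟩,⟨-13,4,-92⟩⟩ (1,[(0,1)]) (19,[(2,93),(0,13),(3,2139)]) (20,[(2,1281),(1,13),(3,960)])) (.leaf false ⟨⟨-92,4,-13⟩,⟨4,-77,-52⟩,⟨13,52,-76⟩⟩ (43,[(1,13),(4,3696),(3,868)]) (294,[(1,325),(3,43386),(0,101)]) (56,[(1,89),(3,2492),(0,33)]))))))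
theorem pa93_ok : pa93.check (ok 93 6 ⟨5, 5, 5⟩) (fun _ r => r) [] = true := by decide +kernel

def pb93 : T := .node ⟨1,0,0⟩ (.node ⟨0,1,0⟩ (.node ⟨0,0,1⟩ (.node ⟨-29,8,88⟩ (.node ⟨-8,92,-11⟩ (.leaf false ⟨⟨-29,8,88⟩,⟨-8,92,-11⟩,⟨88,11,28⟩⟩ (1,[(1,1)]) (1,[(0,1)]) (92,[(2,2697),(4,8184),(0,11)])) (.leaf false ⟨⟨-11,-8,92⟩,⟨28,88,11⟩,⟨88,-29,8⟩⟩ (341,[(4,5890),(1,349),(0,60)]) (1,[(4,20),(3,180),(0,1)]) (11,[(4,904),(3,417),(0,8)]))) (.leaf false ⟨⟨13,92,-4⟩,⟨52,-4,77⟩,⟨76,-13,-52⟩⟩ (29,[(1,1028),(0,13),(2,2772)]) (29,[(1,6809),(0,52),(2,300)]) (29,[(1,5180),(0,76),(2,231)]))) (.node ⟨-29,8,-88⟩ (.node ⟨-8,92,11⟩ (.leaf false ⟨⟨-29,8,-88⟩,⟨-8,92,11⟩,⟨88,11,-28⟩⟩ (1,[(1,1)]) (1,[(0,1)]) (92,[(2,2697),(4,8184),(0,11)]))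 (.leaf false ⟨⟨-11,-8,-92⟩,⟨28,88,-11⟩,⟨88,-29,-8⟩⟩ (341,[(4,5890),(1,349),(0,60)]) (1,[(4,20),(3,180),(0,1)]) (11,[(4,904),(3,417),(0,8)]))) (.leaf false ⟨⟨13,92,-4⟩,⟨52,-4,77⟩,⟨76,-13,-52⟩⟩ (29,[(1,1260),(0,13),(2,2772)]) (29,[(1,2343),(0,52),(2,300)]) (29,[(1,8196),(0,76),(2,231)])))) (.node ⟨0,0,1⟩ (.node ⟨-29,-88,8⟩ (.node ⟨-8,11,92⟩ (.leaf false ⟨⟨-29,-88,8⟩,⟨-8,11,92⟩,⟨88,-28,11⟩⟩ (1,[(1,1)]) (1,[(0,1)]) (92,[(4,8184),(3,2697),(0,11)])) (.leaf false ⟨⟨-11,-92,-8⟩,⟨28,-11,88⟩,⟨88,-8,-29⟩⟩ (341,[(4,5890),(0,60),(1,349)]) (1,[(2,180),(4,20),(0,1)]) (11,[(2,417),(4,904),(0,8)]))) (.leaf false ⟨⟨13,-4,92⟩,⟨52,77,-4⟩,⟨76,-52,-13⟩⟩ (29,[(1,2772),(0,13),(2,1260)]) (29,[(1,300),(0,52),(2,2343)]) (29,[(1,231),(0,76),(2,8196)])))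 (.node ⟨-29,-88,-8⟩ (.node ⟨-8,11,-92⟩ (.leaf false ⟨⟨-29,-88,-8⟩,⟨-8,11,-92⟩,⟨88,-28,-11⟩⟩ (1,[(1,1)]) (1,[(0,1)]) (92,[(4,8184),(3,2697),(0,11)])) (.leaf false ⟨⟨-11,-92,-8⟩,⟨28,-11,88⟩,⟨88,-8,-29⟩⟩ (1023,[(4,19716),(0,4),(1,1069)]) (1,[(2,4),(4,20),(0,1)]) (11,[(2,311),(4,997),(1,1)]))) (.leaf false ⟨⟨13,-4,-92⟩,⟨52,77,4⟩,⟨76,-52,13⟩⟩ (29,[(1,2772),(0,13),(2,1260)]) (29,[(1,300),(0,52),(2,2343)]) (29,[(1,231),(0,76),(2,8196)]))))) (.node ⟨0,1,0⟩ (.node ⟨0,0,1⟩ (.node ⟨-8,88,-29⟩ (.node ⟨-92,-11,-8⟩ (.leaf false ⟨⟨-92,-11,-8⟩,⟨-11,28,88⟩,⟨-8,88,-29⟩⟩ (1,[(0,1)]) (92,[(2,8184),(0,11),(3,2697)]) (1,[(1,1)])) (.leaf false ⟨⟨-77,52,-4⟩,⟨4,13,92⟩,⟨52,76,-13⟩⟩ (22,[(2,289),(4,1590),(1,13)]) (11,[(2,908),(4,1152),(0,13)])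 (682,[(2,3193),(1,535),(0,432)]))) (.leaf false ⟨⟨-92,-4,13⟩,⟨4,77,52⟩,⟨13,-52,76⟩⟩ (29,[(3,2772),(2,1028),(0,13)]) (29,[(3,300),(2,6809),(0,52)]) (29,[(3,231),(2,5180),(0,76)]))) (.node ⟨-8,88,29⟩ (.node ⟨-92,-11,8⟩ (.leaf false ⟨⟨-92,-11,8⟩,⟨-11,28,-88⟩,⟨-8,88,29⟩⟩ (1,[(0,1)]) (92,[(2,8184),(0,11),(3,2697)]) (1,[(1,1)])) (.leaf false ⟨⟨-77,52,4⟩,⟨4,13,-92⟩,⟨52,76,13⟩⟩ (22,[(2,289),(4,1590),(1,13)]) (11,[(2,908),(4,1152),(0,13)]) (682,[(2,3193),(1,535),(0,432)]))) (.leaf false ⟨⟨-92,-4,-13⟩,⟨4,77,-52⟩,⟨13,-52,-76⟩⟩ (29,[(3,2772),(2,1028),(0,13)]) (29,[(3,300),(2,6809),(0,52)]) (29,[(3,231),(2,5180),(0,76)])))) (.node ⟨0,0,1⟩ (.node ⟨-8,29,88⟩ (.node ⟨-92,8,-11⟩ (.leaf false ⟨⟨-92,8,-11⟩,⟨-11,-88,28⟩,⟨-8,29,88⟩⟩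 (1,[(0,1)]) (92,[(2,2697),(0,11),(3,8184)]) (1,[(1,1)])) (.leaf false ⟨⟨-77,4,52⟩,⟨4,-92,13⟩,⟨52,13,76⟩⟩ (22,[(1,13),(4,1590),(3,289)]) (11,[(4,1152),(3,908),(0,13)]) (682,[(1,535),(3,3193),(0,432)]))) (.leaf false ⟨⟨-92,-13,-4⟩,⟨4,-52,77⟩,⟨13,-76,-52⟩⟩ (29,[(1,1028),(3,2772),(0,13)]) (29,[(1,6809),(3,300),(0,52)]) (29,[(1,5180),(3,231),(0,76)]))) (.node ⟨-8,29,-88⟩ (.node ⟨-92,8,11⟩ (.leaf false ⟨⟨-92,8,11⟩,⟨-11,-88,-28⟩,⟨-8,29,-88⟩⟩ (1,[(0,1)]) (92,[(2,2697),(0,11),(3,8184)]) (1,[(1,1)])) (.leaf false ⟨⟨-77,4,-52⟩,⟨4,-92,-13⟩,⟨52,13,-76⟩⟩ (22,[(1,13),(4,1590),(3,289)]) (11,[(4,1152),(3,908),(0,13)]) (682,[(1,535),(3,3193),(0,432)]))) (.leaf false ⟨⟨-92,-13,-4⟩,⟨4,-52,77⟩,⟨13,-76,-52⟩⟩ (29,[(1,1260),(3,2772),(0,13)])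 (29,[(1,2343),(3,300),(0,52)]) (29,[(1,8196),(3,231),(0,76)])))))
theorem pb93_ok : pb93.check (ok 93 6 ⟨5, 3, 3⟩) (fun _ r => r) [] = true := by decide +kernel

def pc93 : T := .node ⟨1,0,0⟩ (.node ⟨0,1,0⟩ (.node ⟨0,0,1⟩ (.node ⟨-43,80,-20⟩ (.node ⟨80,35,-32⟩ (.leaf false ⟨⟨-43,80,-20⟩,⟨20,32,85⟩,⟨80,35,-32⟩⟩ (1,[(1,1)]) (5,[(2,465),(4,186),(1,2)]) (1,[(0,1)])) (.leaf false ⟨⟨-88,11,28⟩,⟨8,92,-11⟩,⟨29,8,88⟩⟩ (155,[(4,7533),(1,111),(0,205)]) (620,[(4,67239),(1,853),(0,320)]) (155,[(4,64449),(1,278),(0,600)]))) (.node ⟨-13,-52,76⟩ (.leaf false ⟨⟨-13,-52,76⟩,⟨-4,77,52⟩,⟨92,-4,13⟩⟩ (1,[(0,1)]) (19,[(4,93),(3,2139),(0,13)]) (20,[(1,13),(4,1281),(3,960)])) (.leaf false ⟨⟨32,20,85⟩,⟨35,80,-32⟩,⟨80,-43,-20⟩⟩ (43,[(2,3015),(1,32),(3,3420)])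 (21,[(2,2268),(1,5),(0,40)]) (294,[(1,485),(0,205),(3,15498)])))) (.node ⟨-43,80,20⟩ (.node ⟨80,35,32⟩ (.leaf false ⟨⟨-43,80,20⟩,⟨20,32,-85⟩,⟨80,35,32⟩⟩ (1,[(1,1)]) (5,[(2,465),(4,186),(1,2)]) (1,[(0,1)])) (.leaf false ⟨⟨-88,11,-28⟩,⟨8,92,11⟩,⟨29,8,-88⟩⟩ (155,[(4,7533),(1,111),(0,205)]) (620,[(4,67239),(1,853),(0,320)]) (155,[(4,64449),(1,278),(0,600)]))) (.node ⟨-13,-52,-76⟩ (.leaf false ⟨⟨-13,-52,-76⟩,⟨-4,77,-52⟩,⟨92,-4,-13⟩⟩ (1,[(0,1)]) (19,[(4,93),(3,2139),(0,13)]) (20,[(1,13),(4,1281),(3,960)])) (.leaf false ⟨⟨32,20,-85⟩,⟨35,80,32⟩,⟨80,-43,20⟩⟩ (43,[(2,3015),(1,32),(3,3420)]) (21,[(2,2268),(1,5),(0,40)]) (294,[(1,485),(0,205),(3,15498)]))))) (.node ⟨0,0,1⟩ (.node ⟨8,-88,-29⟩ (.node ⟨92,11,-8⟩ (.leaf false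 ⟨⟨8,-88,-29⟩,⟨11,-28,88⟩,⟨92,11,-8⟩⟩ (1,[(1,1)]) (92,[(2,8184),(0,11),(3,2697)]) (1,[(0,1)])) (.leaf false ⟨⟨-52,-76,-13⟩,⟨-4,-13,92⟩,⟨77,-52,-4⟩⟩ (682,[(2,3193),(1,535),(0,432)]) (11,[(2,908),(4,1152),(0,13)]) (22,[(2,289),(4,1590),(1,13)]))) (.leaf false ⟨⟨-13,-52,76⟩,⟨-4,77,52⟩,⟨92,-4,13⟩⟩ (29,[(3,231),(2,8196),(0,76)]) (29,[(3,300),(2,2343),(0,52)]) (29,[(3,2772),(2,1260),(0,13)]))) (.node ⟨8,-88,29⟩ (.node ⟨92,11,8⟩ (.leaf false ⟨⟨8,-88,29⟩,⟨11,-28,-88⟩,⟨92,11,8⟩⟩ (1,[(1,1)]) (92,[(2,8184),(0,11),(3,2697)]) (1,[(0,1)])) (.leaf false ⟨⟨-52,-76,13⟩,⟨-4,-13,-92⟩,⟨77,-52,4⟩⟩ (682,[(2,3193),(1,535),(0,432)]) (11,[(2,908),(4,1152),(0,13)]) (22,[(2,289),(4,1590),(1,13)]))) (.leaf false ⟨⟨-13,-52,-76⟩,⟨-4,77,-52⟩,⟨92,-4,-13⟩⟩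 (29,[(3,231),(2,8196),(0,76)]) (29,[(3,300),(2,2343),(0,52)]) (29,[(3,2772),(2,1260),(0,13)]))))) (.node ⟨0,1,0⟩ (.node ⟨0,0,1⟩ (.node ⟨-88,8,-29⟩ (.node ⟨11,92,-8⟩ (.leaf false ⟨⟨-88,8,-29⟩,⟨-28,11,88⟩,⟨11,92,-8⟩⟩ (1,[(1,1)]) (92,[(2,8184),(4,2697),(0,11)]) (1,[(0,1)])) (.leaf false ⟨⟨-76,-52,-13⟩,⟨-52,77,-4⟩,⟨-13,-4,92⟩⟩ (682,[(2,3193),(0,432),(1,535)]) (22,[(2,289),(1,13),(3,1590)]) (11,[(2,908),(0,13),(3,1152)]))) (.leaf false ⟨⟨-52,-13,76⟩,⟨-4,92,13⟩,⟨77,-4,52⟩⟩ (29,[(3,8196),(2,231),(0,76)]) (29,[(3,1260),(2,2772),(0,13)]) (29,[(3,2343),(2,300),(0,52)]))) (.node ⟨-88,8,29⟩ (.node ⟨11,92,8⟩ (.leaf false ⟨⟨-88,8,29⟩,⟨-28,11,-88⟩,⟨11,92,8⟩⟩ (1,[(1,1)]) (92,[(2,8184),(4,2697),(0,11)]) (1,[(0,1)])) (.leaf false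 ⟨⟨-76,-52,13⟩,⟨-52,77,4⟩,⟨-13,-4,-92⟩⟩ (682,[(2,3193),(0,432),(1,535)]) (22,[(2,289),(1,13),(3,1590)]) (11,[(2,908),(0,13),(3,1152)]))) (.leaf false ⟨⟨-52,-13,-76⟩,⟨-4,92,-13⟩,⟨77,-4,-52⟩⟩ (29,[(3,8196),(2,231),(0,76)]) (29,[(3,1260),(2,2772),(0,13)]) (29,[(3,2343),(2,300),(0,52)])))) (.node ⟨0,0,1⟩ (.node ⟨29,-88,8⟩ (.node ⟨8,11,92⟩ (.leaf false ⟨⟨-88,-28,11⟩,⟨8,11,92⟩,⟨29,-88,8⟩⟩ (92,[(4,8184),(3,2697),(0,11)]) (1,[(0,1)]) (1,[(1,1)])) (.node ⟨-67,32,56⟩ (.leaf false ⟨⟨-67,32,56⟩,⟨-64,-43,-52⟩,⟨8,-76,53⟩⟩ (1,[(0,1)]) (26,[(0,29),(1,34),(2,19)]) (414,[(3,11718),(0,125),(2,403)])) (.leaf false ⟨⟨-76,-43,-32⟩,⟨8,-64,67⟩,⟨53,-52,-56⟩⟩ (11,[(3,3604),(5,492),(1,43)]) (1,[(3,179),(5,126),(0,2)]) (8,[(3,280),(5,447),(0,13)]))))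 (.leaf false ⟨⟨-76,-52,-13⟩,⟨-52,77,-4⟩,⟨-13,-4,92⟩⟩ (29,[(1,231),(0,76),(2,8196)]) (29,[(1,300),(0,52),(2,2343)]) (29,[(1,2772),(0,13),(2,1260)]))) (.node ⟨29,-88,-8⟩ (.node ⟨8,11,-92⟩ (.leaf false ⟨⟨-88,-28,-11⟩,⟨8,11,-92⟩,⟨29,-88,-8⟩⟩ (92,[(4,8184),(3,2697),(0,11)]) (1,[(0,1)]) (1,[(1,1)])) (.node ⟨-67,32,-56⟩ (.leaf false ⟨⟨-67,32,-56⟩,⟨-64,-43,52⟩,⟨8,-76,-53⟩⟩ (1,[(0,1)]) (26,[(0,29),(1,34),(2,19)]) (414,[(3,11718),(0,125),(2,403)])) (.leaf false ⟨⟨-76,-43,-32⟩,⟨8,-64,67⟩,⟨53,-52,-56⟩⟩ (11,[(3,4308),(5,492),(1,43)]) (1,[(3,45),(5,126),(0,2)]) (8,[(3,1176),(5,447),(0,13)])))) (.leaf false ⟨⟨-76,-52,13⟩,⟨-52,77,4⟩,⟨-13,-4,-92⟩⟩ (29,[(1,231),(0,76),(2,8196)]) (29,[(1,300),(0,52),(2,2343)]) (29,[(1,2772),(0,13),(2,1260)])))))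
theorem pc93_ok : pc93.check (ok 93 6 ⟨5, 5, 3⟩) (fun _ r => r) [] = true := by decide +kernel

def pa105 : T := .node ⟨1,0,0⟩ (.node ⟨0,1,0⟩ (.node ⟨0,0,1⟩ (.node ⟨-40,4,97⟩ (.node ⟨-40,97,4⟩ (.node ⟨95,40,-20⟩ (.leaf false ⟨⟨-40,97,4⟩,⟨20,4,103⟩,⟨95,40,-20⟩⟩ (1,[(1,1)]) (1,[(3,6),(5,60),(2,1)]) (1,[(0,1)])) (.leaf false ⟨⟨-95,40,20⟩,⟨-20,-80,65⟩,⟨40,55,80⟩⟩ (1,[(4,80),(0,1)]) (4,[(5,1155),(4,200),(0,13)]) (1,[(5,420),(4,215),(0,4)]))) (.leaf false ⟨⟨-40,4,97⟩,⟨20,103,4⟩,⟨95,-20,40⟩⟩ (1,[(1,1)]) (62,[(3,9765),(1,4),(0,35)]) (248,[(3,64449),(1,132),(0,721)]))) (.node ⟨65,-32,76⟩ (.leaf false ⟨⟨8,100,31⟩,⟨44,25,-92⟩,⟨95,-20,40⟩⟩ (5,[(2,252),(1,1),(3,504)]) (10,[(2,147),(1,11),(3,294)]) (89,[(0,103),(1,44),(3,1692)]))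 (.leaf false ⟨⟨-80,40,-55⟩,⟨-23,64,80⟩,⟨64,73,-40⟩⟩ (51,[(2,2253),(1,2),(0,64)]) (255,[(2,150324),(1,856),(0,617)]) (1020,[(2,859497),(1,6793),(0,3176)])))) (.node ⟨-70,70,-35⟩ (.node ⟨70,-35,-70⟩ (.node ⟨70,70,35⟩ (.leaf false ⟨⟨-35,70,-70⟩,⟨70,-35,-70⟩,⟨70,70,35⟩⟩ (8,[(1,4),(0,1),(2,9)]) (1,[(1,1)]) (1,[(0,1)])) (.leaf false ⟨⟨-80,-23,-64⟩,⟨40,64,-73⟩,⟨55,-80,-40⟩⟩ (35,[(5,1680),(4,3675),(0,64)]) (35,[(5,6510),(4,7350),(0,73)]) (7,[(5,945),(0,8)]))) (.leaf false ⟨⟨-80,40,-55⟩,⟨-23,64,80⟩,⟨64,73,-40⟩⟩ (7,[(2,945),(0,8)]) (35,[(2,1680),(4,3675),(0,64)]) (35,[(2,6510),(4,7350),(0,73)]))) (.node ⟨65,64,52⟩ (.leaf false ⟨⟨20,52,-89⟩,⟨65,64,52⟩,⟨80,-65,-20⟩⟩ (7,[(2,693),(1,2),(3,504)]) (1,[(0,1)]) (7,[(2,420),(1,8),(3,105)]))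 (.leaf false ⟨⟨-80,-23,-64⟩,⟨40,64,-73⟩,⟨55,-80,-40⟩⟩ (13,[(3,725),(0,16)]) (13,[(1,65),(3,9350),(0,62)]) (13,[(1,52),(3,5480),(0,45)]))))) (.node ⟨0,0,1⟩ (.node ⟨-70,-35,70⟩ (.node ⟨70,-70,-35⟩ (.node ⟨70,35,70⟩ (.leaf false ⟨⟨-35,-70,70⟩,⟨70,-70,-35⟩,⟨70,35,70⟩⟩ (8,[(0,1),(1,4),(2,9)]) (1,[(1,1)]) (1,[(0,1)])) (.leaf false ⟨⟨-80,-65,20⟩,⟨40,-20,95⟩,⟨55,-80,-40⟩⟩ (7,[(3,1050),(5,350),(0,13)]) (7,[(3,945),(5,560),(0,4)]) (7,[(3,840),(5,1505),(0,16)]))) (.leaf false ⟨⟨-80,-55,40⟩,⟨-23,80,64⟩,⟨64,-40,73⟩⟩ (7,[(3,945),(0,8)]) (35,[(4,3675),(3,1680),(0,64)]) (35,[(4,7350),(3,6510),(0,73)]))) (.node ⟨65,52,64⟩ (.leaf false ⟨⟨20,-89,52⟩,⟨65,52,64⟩,⟨80,-20,-65⟩⟩ (7,[(2,504),(1,2),(3,693)]) (1,[(0,1)]) (7,[(2,105),(1,8),(3,420)]))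 (.leaf false ⟨⟨-80,-65,20⟩,⟨40,-20,95⟩,⟨55,-80,-40⟩⟩ (273,[(2,28770),(1,13),(0,350)]) (273,[(2,109095),(1,676),(0,560)]) (273,[(2,198240),(1,1612),(0,1505)])))) (.node ⟨4,40,-97⟩ (.node ⟨97,40,-4⟩ (.node ⟨-20,-95,-40⟩ (.leaf false ⟨⟨-20,-95,-40⟩,⟨4,40,-97⟩,⟨103,-20,-4⟩⟩ (1,[(0,1)]) (1,[(2,1)]) (1,[(1,1),(5,6),(4,60)])) (.leaf false ⟨⟨4,-103,-20⟩,⟨40,20,-95⟩,⟨97,-4,40⟩⟩ (5,[(3,140),(0,1),(4,610)]) (1,[(3,175),(0,2),(4,170)]) (20,[(3,3080),(0,97),(4,9295)]))) (.leaf false ⟨⟨-92,-25,-44⟩,⟨31,-100,-8⟩,⟨40,20,-95⟩⟩ (8,[(1,4),(4,121),(0,9)]) (62,[(1,12),(4,18073),(0,167)]) (2,[(1,2),(4,169),(0,1)]))) (.node ⟨-32,-65,-76⟩ (.leaf false ⟨⟨-32,-65,-76⟩,⟨1,-80,68⟩,⟨100,-20,-25⟩⟩ (1,[(0,1)]) (1,[(2,126),(4,9),(1,2)]) (2,[(2,147),(4,204),(1,1)]))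 (.leaf false ⟨⟨-8,-95,44⟩,⟨31,40,92⟩,⟨100,-20,-25⟩⟩ (17,[(2,3402),(0,1),(1,42)]) (68,[(2,3969),(0,72),(1,49)]) (1,[(2,1008),(0,4),(1,7)])))))) (.node ⟨0,1,0⟩ (.node ⟨0,0,1⟩ (.node ⟨-35,70,-70⟩ (.node ⟨-70,-35,70⟩ (.node ⟨35,70,70⟩ (.leaf false ⟨⟨-70,-35,70⟩,⟨-70,70,-35⟩,⟨35,70,70⟩⟩ (1,[(1,1)]) (8,[(1,4),(2,9),(0,1)]) (1,[(0,1)])) (.leaf false ⟨⟨-98,-35,14⟩,⟨-35,70,-70⟩,⟨-14,70,77⟩⟩ (5,[(3,1050),(0,14),(4,805)]) (1,[(0,1),(4,140)]) (5,[(3,525),(0,2),(4,490)]))) (.leaf false ⟨⟨-95,20,40⟩,⟨-20,65,-80⟩,⟨40,80,55⟩⟩ (7,[(2,560),(4,945),(0,4)]) (7,[(2,350),(4,1050),(0,13)]) (7,[(2,1505),(4,840),(0,16)]))) (.node ⟨52,64,65⟩ (.leaf false ⟨⟨-89,52,20⟩,⟨-20,-65,80⟩,⟨52,64,65⟩⟩ (7,[(4,693),(3,504),(1,2)]) (7,[(4,420),(3,105),(1,8)])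 (1,[(0,1)])) (.leaf false ⟨⟨-100,-20,25⟩,⟨-25,100,-20⟩,⟨20,25,100⟩⟩ (91,[(3,68180),(1,520),(0,525)]) (91,[(3,16310),(1,39),(0,70)]) (91,[(3,29435),(1,260),(0,140)])))) (.node ⟨-4,97,40⟩ (.node ⟨-97,4,40⟩ (.node ⟨20,40,-95⟩ (.leaf false ⟨⟨-103,4,-20⟩,⟨-4,97,40⟩,⟨20,40,-95⟩⟩ (1,[(3,60),(5,6),(1,1)]) (1,[(2,1)]) (1,[(0,1)])) (.leaf false ⟨⟨-98,-35,14⟩,⟨-35,70,-70⟩,⟨-14,70,77⟩⟩ (10,[(3,4515),(0,49),(4,1610)]) (4,[(3,945),(0,7),(4,560)]) (10,[(0,6),(2,5),(4,455)]))) (.leaf false ⟨⟨-103,4,-20⟩,⟨-4,97,40⟩,⟨20,40,-95⟩⟩ (62,[(4,9765),(1,4),(0,35)]) (1,[(1,1)]) (248,[(4,64449),(1,132),(0,721)]))) (.node ⟨32,76,-65⟩ (.leaf false ⟨⟨-100,25,-20⟩,⟨-1,-68,-80⟩,⟨32,76,-65⟩⟩ (2,[(4,204),(3,147),(1,1)]) (1,[(4,9),(3,126),(1,2)])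 (1,[(0,1)])) (.leaf false ⟨⟨-100,25,-20⟩,⟨-31,-92,40⟩,⟨8,-44,-95⟩⟩ (1,[(3,1008),(1,7),(0,4)]) (68,[(3,3969),(1,49),(0,72)]) (17,[(3,3402),(1,42),(0,1)]))))) (.node ⟨0,0,1⟩ (.node ⟨-4,40,97⟩ (.node ⟨-97,40,4⟩ (.node ⟨20,-95,40⟩ (.leaf false ⟨⟨-103,-20,4⟩,⟨-4,40,97⟩,⟨20,-95,40⟩⟩ (1,[(1,1),(5,6),(4,60)]) (1,[(2,1)]) (1,[(0,1)])) (.leaf false ⟨⟨-98,-35,14⟩,⟨-35,70,-70⟩,⟨-14,70,77⟩⟩ (2,[(2,4),(0,9),(4,1085)]) (4,[(0,7),(4,385)]) (2,[(2,2),(0,1),(4,35)]))) (.leaf false ⟨⟨-103,-20,4⟩,⟨-4,40,97⟩,⟨20,-95,40⟩⟩ (62,[(1,4),(4,9765),(0,35)]) (1,[(1,1)]) (248,[(1,132),(4,64449),(0,721)]))) (.node ⟨32,-65,76⟩ (.leaf false ⟨⟨-100,-20,25⟩,⟨-1,-80,-68⟩,⟨32,-65,76⟩⟩ (2,[(2,147),(4,204),(1,1)]) (1,[(2,126),(4,9),(1,2)]) (1,[(0,1)]))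 (.leaf false ⟨⟨-100,-20,25⟩,⟨-31,40,-92⟩,⟨8,-95,-44⟩⟩ (1,[(2,1008),(0,4),(1,7)]) (68,[(2,3969),(0,72),(1,49)]) (17,[(2,3402),(0,1),(1,42)])))) (.node ⟨20,-95,40⟩ (.node ⟨-100,-8,31⟩ (.leaf false ⟨⟨-100,-8,31⟩,⟨-25,-44,-92⟩,⟨20,-95,40⟩⟩ (1,[(0,1)]) (95,[(2,10500),(4,3255),(1,44)]) (1,[(1,1)])) (.leaf false ⟨⟨-95,-44,8⟩,⟨-20,25,-100⟩,⟨40,-92,-31⟩⟩ (105,[(4,15015),(1,52),(0,40)]) (105,[(4,36120),(1,1),(0,340)]) (105,[(4,24780),(1,124),(0,265)]))) (.node ⟨-98,-14,35⟩ (.leaf false ⟨⟨-98,-14,35⟩,⟨-35,70,-70⟩,⟨-14,-77,-70⟩⟩ (1,[(0,1)]) (4,[(1,7),(3,385)]) (7,[(2,525),(0,1),(3,525)])) (.leaf false ⟨⟨-100,25,-20⟩,⟨-1,-68,-80⟩,⟨32,76,-65⟩⟩ (2,[(1,1),(4,180),(3,45)]) (7,[(4,1575),(3,700),(0,16)]) (154,[(1,175),(3,6125),(0,86)]))))))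
theorem pa105_ok : pa105.check (ok 105 6 ⟨5, 5, 5⟩) (fun _ r => r) [] = true := by decide +kernel

def pb105 : T := .node ⟨1,0,0⟩ (.node ⟨0,1,0⟩ (.node ⟨0,0,1⟩ (.node ⟨4,97,-40⟩ (.node ⟨97,4,-40⟩ (.node ⟨-20,40,95⟩ (.leaf false ⟨⟨-20,40,95⟩,⟨4,97,-40⟩,⟨103,4,20⟩⟩ (1,[(0,1)]) (1,[(2,1)]) (1,[(3,60),(5,6),(1,1)])) (.leaf false ⟨⟨4,20,103⟩,⟨40,95,-20⟩,⟨97,-40,4⟩⟩ (5,[(3,610),(0,1),(4,140)]) (1,[(3,170),(0,2),(4,175)]) (20,[(3,9295),(0,97),(4,3080)]))) (.leaf false ⟨⟨-92,44,25⟩,⟨31,8,100⟩,⟨40,95,-20⟩⟩ (8,[(4,121),(1,4),(0,9)]) (62,[(4,18073),(1,12),(0,167)]) (2,[(4,169),(1,2),(0,1)]))) (.node ⟨-32,76,65⟩ (.leaf false ⟨⟨-35,14,98⟩,⟨70,-70,35⟩,⟨70,77,14⟩⟩ (1335,[(4,3027),(0,1438),(1,934)]) (8,[(4,588),(3,119),(1,7)])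 (20,[(4,1428),(3,2219),(1,7)])) (.leaf false ⟨⟨-8,-44,95⟩,⟨31,-92,-40⟩,⟨100,25,20⟩⟩ (17,[(3,3402),(1,42),(0,1)]) (68,[(3,3969),(1,49),(0,72)]) (1,[(3,1008),(1,7),(0,4)])))) (.node ⟨4,97,40⟩ (.node ⟨97,4,40⟩ (.node ⟨-20,40,-95⟩ (.leaf false ⟨⟨-20,40,-95⟩,⟨4,97,40⟩,⟨103,4,-20⟩⟩ (1,[(0,1)]) (1,[(2,1)]) (1,[(3,60),(5,6),(1,1)])) (.leaf false ⟨⟨4,20,-103⟩,⟨40,95,20⟩,⟨97,-40,-4⟩⟩ (5,[(3,610),(0,1),(4,140)]) (1,[(3,170),(0,2),(4,175)]) (20,[(3,9295),(0,97),(4,3080)]))) (.leaf false ⟨⟨-92,44,-25⟩,⟨31,8,-100⟩,⟨40,95,20⟩⟩ (8,[(4,121),(1,4),(0,9)]) (62,[(4,18073),(1,12),(0,167)]) (2,[(4,169),(1,2),(0,1)]))) (.node ⟨-32,76,-65⟩ (.leaf false ⟨⟨-35,14,-98⟩,⟨70,-70,-35⟩,⟨70,77,-14⟩⟩ (1335,[(4,3027),(0,1438),(1,934)]) (8,[(4,588),(3,119),(1,7)])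 (20,[(4,1428),(3,2219),(1,7)])) (.leaf false ⟨⟨-8,-44,-95⟩,⟨31,-92,40⟩,⟨100,25,-20⟩⟩ (17,[(3,3402),(1,42),(0,1)]) (68,[(3,3969),(1,49),(0,72)]) (1,[(3,1008),(1,7),(0,4)]))))) (.node ⟨0,0,1⟩ (.node ⟨4,40,97⟩ (.node ⟨97,40,4⟩ (.node ⟨-20,-95,40⟩ (.leaf false ⟨⟨-20,-95,40⟩,⟨4,40,97⟩,⟨103,-20,4⟩⟩ (1,[(0,1)]) (1,[(2,1)]) (1,[(1,1),(5,6),(4,60)])) (.leaf false ⟨⟨4,-103,20⟩,⟨40,20,95⟩,⟨97,-4,-40⟩⟩ (5,[(3,140),(0,1),(4,610)]) (1,[(3,175),(0,2),(4,170)]) (20,[(3,3080),(0,97),(4,9295)]))) (.leaf false ⟨⟨-92,-25,44⟩,⟨31,-100,8⟩,⟨40,20,95⟩⟩ (8,[(1,4),(4,121),(0,9)]) (62,[(1,12),(4,18073),(0,167)]) (2,[(1,2),(4,169),(0,1)]))) (.node ⟨-32,-65,76⟩ (.leaf false ⟨⟨-35,-98,14⟩,⟨70,-35,-70⟩,⟨70,-14,77⟩⟩ (1335,[(4,3027),(1,934),(0,1438)])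 (8,[(2,119),(4,588),(1,7)]) (20,[(2,2219),(4,1428),(1,7)])) (.leaf false ⟨⟨-8,-95,-44⟩,⟨31,40,-92⟩,⟨100,-20,25⟩⟩ (17,[(2,3402),(0,1),(1,42)]) (68,[(2,3969),(0,72),(1,49)]) (1,[(2,1008),(0,4),(1,7)])))) (.node ⟨4,40,-97⟩ (.node ⟨97,40,-4⟩ (.node ⟨-20,-95,-40⟩ (.leaf false ⟨⟨-20,-95,-40⟩,⟨4,40,-97⟩,⟨103,-20,-4⟩⟩ (1,[(0,1)]) (1,[(2,1)]) (1,[(1,1),(5,6),(4,60)])) (.leaf false ⟨⟨4,-103,-20⟩,⟨40,20,-95⟩,⟨97,-4,40⟩⟩ (5,[(3,140),(0,1),(4,610)]) (1,[(3,175),(0,2),(4,170)]) (20,[(3,3080),(0,97),(4,9295)]))) (.leaf false ⟨⟨-92,-25,-44⟩,⟨31,-100,-8⟩,⟨40,20,-95⟩⟩ (8,[(1,4),(4,121),(0,9)]) (62,[(1,12),(4,18073),(0,167)]) (2,[(1,2),(4,169),(0,1)]))) (.node ⟨-32,-65,-76⟩ (.leaf false ⟨⟨-35,-98,-14⟩,⟨70,-35,70⟩,⟨70,-14,-77⟩⟩ (1335,[(4,3027),(1,934),(0,1438)])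 (8,[(2,119),(4,588),(1,7)]) (20,[(2,2219),(4,1428),(1,7)])) (.leaf false ⟨⟨-8,-95,-44⟩,⟨31,40,-92⟩,⟨100,-20,25⟩⟩ (17,[(2,4898),(0,1),(1,42)]) (68,[(2,16481),(0,72),(1,49)]) (1,[(2,958),(0,4),(1,7)])))))) (.node ⟨0,1,0⟩ (.node ⟨0,0,1⟩ (.node ⟨40,4,97⟩ (.node ⟨40,97,4⟩ (.node ⟨-95,40,-20⟩ (.leaf false ⟨⟨-95,40,-20⟩,⟨-20,4,103⟩,⟨40,97,4⟩⟩ (1,[(0,1)]) (1,[(3,6),(5,60),(2,1)]) (1,[(1,1)])) (.leaf false ⟨⟨-95,-40,20⟩,⟨-20,80,65⟩,⟨40,-55,80⟩⟩ (1,[(5,190),(0,1)]) (4,[(5,1315),(4,840),(0,13)]) (1,[(5,340),(4,105),(0,4)]))) (.leaf false ⟨⟨-95,-20,40⟩,⟨-20,103,4⟩,⟨40,4,97⟩⟩ (248,[(3,64449),(1,132),(0,721)]) (62,[(3,9765),(1,4),(0,35)]) (1,[(1,1)]))) (.node ⟨-65,-32,76⟩ (.leaf false ⟨⟨-98,-35,14⟩,⟨-35,70,-70⟩,⟨-14,70,77⟩⟩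 (1335,[(0,1438),(1,934),(3,3027)]) (8,[(2,119),(1,7),(3,588)]) (20,[(2,2219),(1,7),(3,1428)])) (.leaf false ⟨⟨-95,-8,-44⟩,⟨-20,100,25⟩,⟨40,31,-92⟩⟩ (17,[(2,3402),(1,42),(0,1)]) (1,[(2,1008),(1,7),(0,4)]) (68,[(2,3969),(1,49),(0,72)])))) (.node ⟨40,4,-97⟩ (.node ⟨40,97,-4⟩ (.node ⟨-95,40,20⟩ (.leaf false ⟨⟨-95,40,20⟩,⟨-20,4,-103⟩,⟨40,97,-4⟩⟩ (1,[(0,1)]) (1,[(3,6),(5,60),(2,1)]) (1,[(1,1)])) (.leaf false ⟨⟨-95,-40,-20⟩,⟨-20,80,-65⟩,⟨40,-55,-80⟩⟩ (1,[(5,190),(0,1)]) (4,[(5,1315),(4,840),(0,13)]) (1,[(5,340),(4,105),(0,4)]))) (.leaf false ⟨⟨-95,-20,-40⟩,⟨-20,103,-4⟩,⟨40,4,-97⟩⟩ (248,[(3,64449),(1,132),(0,721)]) (62,[(3,9765),(1,4),(0,35)]) (1,[(1,1)]))) (.node ⟨-65,-32,-76⟩ (.leaf false ⟨⟨-98,-35,-14⟩,⟨-35,70,70⟩,⟨-14,70,-77⟩⟩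 (1335,[(0,1438),(1,934),(3,3027)]) (8,[(2,119),(1,7),(3,588)]) (20,[(2,2219),(1,7),(3,1428)])) (.leaf false ⟨⟨-95,-8,-44⟩,⟨-20,100,25⟩,⟨40,31,-92⟩⟩ (17,[(2,4898),(1,42),(0,1)]) (1,[(2,958),(1,7),(0,4)]) (68,[(2,16481),(1,49),(0,72)]))))) (.node ⟨0,0,1⟩ (.node ⟨40,-97,4⟩ (.node ⟨40,-4,97⟩ (.node ⟨-95,-40,-20⟩ (.leaf false ⟨⟨-95,-40,-20⟩,⟨-20,-4,103⟩,⟨40,-97,4⟩⟩ (1,[(0,1)]) (1,[(3,6),(5,60),(1,1)]) (1,[(2,1)])) (.leaf false ⟨⟨-95,-40,20⟩,⟨-20,80,65⟩,⟨40,-55,80⟩⟩ (1,[(5,190),(4,80),(0,1)]) (4,[(5,1315),(4,200),(0,13)]) (1,[(5,340),(4,215),(0,4)]))) (.leaf false ⟨⟨-95,-40,-20⟩,⟨-20,-4,103⟩,⟨40,-97,4⟩⟩ (248,[(2,64449),(0,721),(1,132)]) (62,[(2,9765),(0,35),(1,4)]) (1,[(1,1)]))) (.node ⟨-65,-76,-32⟩ (.leaf false ⟨⟨-98,-14,-35⟩,⟨-35,70,70⟩,⟨-14,-77,70⟩⟩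 (1335,[(2,3027),(1,934),(0,1438)]) (8,[(2,588),(1,7),(3,119)]) (20,[(2,1428),(1,7),(3,2219)])) (.leaf false ⟨⟨-95,-44,-8⟩,⟨-20,25,100⟩,⟨40,-92,31⟩⟩ (17,[(1,42),(3,4898),(0,1)]) (1,[(1,7),(3,958),(0,4)]) (68,[(1,49),(3,16481),(0,72)])))) (.node ⟨40,-97,-4⟩ (.node ⟨40,-4,-97⟩ (.node ⟨-95,-40,20⟩ (.leaf false ⟨⟨-95,-40,20⟩,⟨-20,-4,-103⟩,⟨40,-97,-4⟩⟩ (1,[(0,1)]) (1,[(3,6),(5,60),(1,1)]) (1,[(2,1)])) (.leaf false ⟨⟨-95,-40,-20⟩,⟨-20,80,-65⟩,⟨40,-55,-80⟩⟩ (1,[(5,190),(4,80),(0,1)]) (4,[(5,1315),(4,200),(0,13)]) (1,[(5,340),(4,215),(0,4)]))) (.leaf false ⟨⟨-95,-40,20⟩,⟨-20,-4,-103⟩,⟨40,-97,-4⟩⟩ (248,[(2,64449),(0,721),(1,132)]) (62,[(2,9765),(0,35),(1,4)]) (1,[(1,1)]))) (.node ⟨-65,-76,32⟩ (.leaf false ⟨⟨-98,-14,35⟩,⟨-35,70,-70⟩,⟨-14,-77,-70⟩⟩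 (1335,[(2,3027),(1,934),(0,1438)]) (8,[(2,588),(1,7),(3,119)]) (20,[(2,1428),(1,7),(3,2219)])) (.leaf false ⟨⟨-95,-44,8⟩,⟨-20,25,-100⟩,⟨40,-92,-31⟩⟩ (17,[(1,42),(3,4898),(0,1)]) (1,[(1,7),(3,958),(0,4)]) (68,[(1,49),(3,16481),(0,72)]))))))
theorem pb105_ok : pb105.check (ok 105 6 ⟨5, 3, 3⟩) (fun _ r => r) [] = true := by decide +kernel

def pc105 : T := .node ⟨1,0,0⟩ (.node ⟨0,1,0⟩ (.node ⟨0,0,1⟩ (.node ⟨-70,35,70⟩ (.node ⟨14,98,-35⟩ (.leaf false ⟨⟨-70,35,70⟩,⟨14,98,-35⟩,⟨77,14,70⟩⟩ (1,[(1,1)]) (1,[(0,1)]) (7,[(2,525),(4,525),(0,1)])) (.leaf false ⟨⟨-40,-55,80⟩,⟨20,80,65⟩,⟨95,-40,20⟩⟩ (21,[(3,2625),(1,4),(0,40)]) (14,[(4,1190),(3,665),(1,13)]) (7,[(4,721),(3,112),(0,4)]))) (.node ⟨65,-52,64⟩ (.leaf false ⟨⟨20,89,52⟩,⟨65,-52,64⟩,⟨80,20,-65⟩⟩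 (7,[(2,504),(1,2),(3,693)]) (1,[(0,1)]) (7,[(2,105),(1,8),(3,420)])) (.leaf false ⟨⟨-76,65,-32⟩,⟨-25,20,100⟩,⟨68,80,1⟩⟩ (65,[(2,4590),(1,13),(0,90)]) (13,[(2,1620),(0,5)]) (65,[(2,53505),(1,416),(0,380)])))) (.node ⟨-70,35,-70⟩ (.node ⟨14,98,35⟩ (.leaf false ⟨⟨-70,35,-70⟩,⟨14,98,35⟩,⟨77,14,-70⟩⟩ (1,[(1,1)]) (1,[(0,1)]) (7,[(2,525),(4,525),(0,1)])) (.leaf false ⟨⟨-40,-55,-80⟩,⟨20,80,-65⟩,⟨95,-40,-20⟩⟩ (21,[(3,2625),(1,4),(0,40)]) (14,[(4,1190),(3,665),(1,13)]) (7,[(4,721),(3,112),(0,4)]))) (.node ⟨65,-52,-64⟩ (.leaf false ⟨⟨20,89,-52⟩,⟨65,-52,-64⟩,⟨80,20,65⟩⟩ (7,[(2,504),(1,2),(3,693)]) (1,[(0,1)]) (7,[(2,105),(1,8),(3,420)])) (.leaf false ⟨⟨-76,65,32⟩,⟨-25,20,-100⟩,⟨68,80,-1⟩⟩ (65,[(2,4590),(1,13),(0,90)]) (13,[(2,1620),(0,5)])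 (65,[(2,53505),(1,416),(0,380)]))))) (.node ⟨0,0,1⟩ (.node ⟨-40,-97,4⟩ (.node ⟨-40,-4,97⟩ (.node ⟨95,-40,-20⟩ (.leaf false ⟨⟨-40,-97,4⟩,⟨20,-4,103⟩,⟨95,-40,-20⟩⟩ (1,[(2,1)]) (1,[(3,6),(5,60),(1,1)]) (1,[(0,1)])) (.leaf false ⟨⟨-100,-25,20⟩,⟨-1,68,80⟩,⟨32,-76,65⟩⟩ (105,[(5,840),(2,65),(0,92)]) (1,[(5,379),(4,92),(0,4)]) (4,[(5,1363),(4,824),(0,13)]))) (.leaf false ⟨⟨-40,-97,4⟩,⟨20,-4,103⟩,⟨95,-40,-20⟩⟩ (1,[(1,1)]) (62,[(2,9765),(0,35),(1,4)]) (248,[(2,64449),(0,721),(1,132)]))) (.node ⟨65,-76,-32⟩ (.leaf false ⟨⟨8,-31,100⟩,⟨44,92,25⟩,⟨95,-40,-20⟩⟩ (5,[(2,504),(1,1),(3,252)]) (10,[(2,294),(1,11),(3,147)]) (89,[(2,1692),(1,44),(0,103)])) (.leaf false ⟨⟨-76,-25,68⟩,⟨32,-100,-1⟩,⟨65,20,80⟩⟩ (255,[(1,497),(3,100488),(0,604)])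 (1020,[(1,959),(3,201711),(0,88)]) (51,[(1,364),(3,47436),(0,173)])))) (.node ⟨-40,-97,-4⟩ (.node ⟨-40,-4,-97⟩ (.node ⟨95,-40,20⟩ (.leaf false ⟨⟨-40,-97,-4⟩,⟨20,-4,-103⟩,⟨95,-40,20⟩⟩ (1,[(2,1)]) (1,[(3,6),(5,60),(1,1)]) (1,[(0,1)])) (.leaf false ⟨⟨-100,-25,-20⟩,⟨-1,68,-80⟩,⟨32,-76,-65⟩⟩ (105,[(5,840),(2,65),(0,92)]) (1,[(5,379),(4,92),(0,4)]) (4,[(5,1363),(4,824),(0,13)]))) (.leaf false ⟨⟨-40,-97,-4⟩,⟨20,-4,-103⟩,⟨95,-40,20⟩⟩ (1,[(1,1)]) (62,[(2,9765),(0,35),(1,4)]) (248,[(2,64449),(0,721),(1,132)]))) (.node ⟨65,-76,32⟩ (.leaf false ⟨⟨8,-31,-100⟩,⟨44,92,-25⟩,⟨95,-40,20⟩⟩ (5,[(2,504),(1,1),(3,252)]) (10,[(2,294),(1,11),(3,147)]) (89,[(2,1692),(1,44),(0,103)])) (.leaf false ⟨⟨-76,-25,-68⟩,⟨32,-100,1⟩,⟨65,20,-80⟩⟩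 (255,[(1,497),(3,100488),(0,604)]) (1020,[(1,959),(3,201711),(0,88)]) (51,[(1,364),(3,47436),(0,173)])))))) (.node ⟨0,1,0⟩ (.node ⟨0,0,1⟩ (.node ⟨-4,-40,97⟩ (.node ⟨-97,-40,4⟩ (.node ⟨20,95,40⟩ (.leaf false ⟨⟨-103,20,4⟩,⟨-4,-40,97⟩,⟨20,95,40⟩⟩ (1,[(1,1),(5,6),(4,60)]) (1,[(2,1)]) (1,[(0,1)])) (.leaf false ⟨⟨-97,-40,4⟩,⟨-40,95,-20⟩,⟨-4,20,103⟩⟩ (20,[(3,3960),(0,97),(4,8415)]) (1,[(3,60),(0,2),(4,285)]) (1,[(3,6),(2,1),(4,60)]))) (.leaf false ⟨⟨-103,20,4⟩,⟨-4,-40,97⟩,⟨20,95,40⟩⟩ (62,[(1,4),(4,9765),(0,35)]) (1,[(1,1)]) (248,[(1,132),(4,64449),(0,721)]))) (.node ⟨32,65,76⟩ (.leaf false ⟨⟨-100,8,31⟩,⟨-25,44,-92⟩,⟨20,95,40⟩⟩ (5,[(2,252),(4,504),(1,1)]) (10,[(2,147),(4,294),(1,11)]) (89,[(4,1692),(1,44),(0,103)])) (.leaf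 false ⟨⟨-100,20,-25⟩,⟨-31,-40,92⟩,⟨8,95,44⟩⟩ (1,[(2,958),(0,4),(1,7)]) (68,[(2,16481),(0,72),(1,49)]) (17,[(2,4898),(0,1),(1,42)])))) (.node ⟨-4,-40,-97⟩ (.node ⟨-97,-40,-4⟩ (.node ⟨20,95,-40⟩ (.leaf false ⟨⟨-103,20,-4⟩,⟨-4,-40,-97⟩,⟨20,95,-40⟩⟩ (1,[(1,1),(5,6),(4,60)]) (1,[(2,1)]) (1,[(0,1)])) (.leaf false ⟨⟨-97,-40,-4⟩,⟨-40,95,20⟩,⟨-4,20,-103⟩⟩ (20,[(3,3960),(0,97),(4,8415)]) (1,[(3,60),(0,2),(4,285)]) (1,[(3,6),(2,1),(4,60)]))) (.leaf false ⟨⟨-103,20,-4⟩,⟨-4,-40,-97⟩,⟨20,95,-40⟩⟩ (62,[(1,4),(4,9765),(0,35)]) (1,[(1,1)]) (248,[(1,132),(4,64449),(0,721)]))) (.node ⟨32,65,-76⟩ (.leaf false ⟨⟨-100,8,-31⟩,⟨-25,44,92⟩,⟨20,95,-40⟩⟩ (5,[(2,252),(4,504),(1,1)]) (10,[(2,147),(4,294),(1,11)]) (89,[(4,1692),(1,44),(0,103)]))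 (.leaf false ⟨⟨-100,20,-25⟩,⟨-31,-40,92⟩,⟨8,95,44⟩⟩ (1,[(2,1008),(0,4),(1,7)]) (68,[(2,3969),(0,72),(1,49)]) (17,[(2,3402),(0,1),(1,42)]))))) (.node ⟨0,0,1⟩ (.node ⟨-4,-97,-40⟩ (.node ⟨-97,-4,-40⟩ (.node ⟨20,-40,95⟩ (.leaf false ⟨⟨-103,-4,20⟩,⟨-4,-97,-40⟩,⟨20,-40,95⟩⟩ (1,[(3,60),(5,6),(1,1)]) (1,[(2,1)]) (1,[(0,1)])) (.leaf false ⟨⟨-97,-4,-40⟩,⟨-40,20,95⟩,⟨-4,-103,20⟩⟩ (20,[(3,8415),(0,97),(4,3960)]) (1,[(3,285),(0,2),(4,60)]) (1,[(3,60),(2,1),(4,6)]))) (.leaf false ⟨⟨-103,-4,20⟩,⟨-4,-97,-40⟩,⟨20,-40,95⟩⟩ (62,[(4,9765),(1,4),(0,35)]) (1,[(1,1)]) (248,[(4,64449),(1,132),(0,721)]))) (.node ⟨32,-76,65⟩ (.leaf false ⟨⟨-100,-31,8⟩,⟨-25,92,44⟩,⟨20,-40,95⟩⟩ (5,[(4,504),(3,252),(1,1)]) (10,[(4,294),(3,147),(1,11)]) (89,[(4,1692),(0,103),(1,44)]))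 (.leaf false ⟨⟨-100,-25,20⟩,⟨-31,92,-40⟩,⟨8,44,95⟩⟩ (1,[(3,1008),(1,7),(0,4)]) (68,[(3,3969),(1,49),(0,72)]) (17,[(3,3402),(1,42),(0,1)])))) (.node ⟨-4,-97,40⟩ (.node ⟨-97,-4,40⟩ (.node ⟨20,-40,-95⟩ (.leaf false ⟨⟨-103,-4,-20⟩,⟨-4,-97,40⟩,⟨20,-40,-95⟩⟩ (1,[(3,60),(5,6),(1,1)]) (1,[(2,1)]) (1,[(0,1)])) (.leaf false ⟨⟨-97,-4,-40⟩,⟨-40,20,95⟩,⟨-4,-103,20⟩⟩ (20,[(3,10015),(0,97),(4,3960)]) (1,[(3,95),(0,2),(4,60)]) (1,[(3,20),(2,1),(4,6)]))) (.leaf false ⟨⟨-103,-4,-20⟩,⟨-4,-97,40⟩,⟨20,-40,-95⟩⟩ (62,[(4,9765),(1,4),(0,35)]) (1,[(1,1)]) (248,[(4,64449),(1,132),(0,721)]))) (.node ⟨32,-76,-65⟩ (.leaf false ⟨⟨-100,-31,-8⟩,⟨-25,92,-44⟩,⟨20,-40,-95⟩⟩ (5,[(4,504),(3,252),(1,1)]) (10,[(4,294),(3,147),(1,11)]) (89,[(4,1692),(0,103),(1,44)]))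 (.leaf false ⟨⟨-100,-25,-20⟩,⟨-31,92,40⟩,⟨8,44,-95⟩⟩ (1,[(3,1008),(1,7),(0,4)]) (68,[(3,3969),(1,49),(0,72)]) (17,[(3,3402),(1,42),(0,1)]))))))
theorem pc105_ok : pc105.check (ok 105 6 ⟨5, 5, 3⟩) (fun _ r => r) [] = true := by decide +kernel

def pa141 : T := .node ⟨1,0,0⟩ (.node ⟨0,1,0⟩ (.node ⟨0,0,1⟩ (.node ⟨-59,4,128⟩ (.node ⟨-88,109,16⟩ (.node ⟨-32,136,-19⟩ (.leaf false ⟨⟨-59,4,128⟩,⟨-32,136,-19⟩,⟨124,37,56⟩⟩ (1,[(2,1)]) (1,[(0,1)]) (109,[(3,5512),(5,16772),(1,37)])) (.leaf false ⟨⟨-116,44,67⟩,⟨52,131,4⟩,⟨61,-28,124⟩⟩ (546,[(4,42901),(1,1087),(0,1010)]) (4,[(5,296),(4,415),(1,1)]) (4247,[(5,1249435),(1,16332),(0,13964)]))) (.leaf false ⟨⟨-56,19,128⟩,⟨37,136,-4⟩,⟨124,-32,59⟩⟩ (215,[(3,4093),(1,216),(0,8)])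 (172,[(3,31551),(1,4),(0,75)]) (3440,[(3,583511),(1,2392),(0,6451)]))) (.node ⟨88,-44,101⟩ (.leaf false ⟨⟨4,131,52⟩,⟨67,44,-116⟩,⟨124,-28,61⟩⟩ (22,[(2,1043),(0,1),(3,2926)]) (59,[(2,1732),(1,67),(3,2864)]) (33,[(2,5928),(0,17),(1,44)])) (.leaf false ⟨⟨-116,61,-52⟩,⟨-44,28,131⟩,⟨67,124,-4⟩⟩ (68,[(2,7083),(1,8),(0,95)]) (187,[(2,42552),(1,44),(0,123)]) (187,[(2,210924),(1,1155),(0,632)])))) (.node ⟨-67,124,4⟩ (.node ⟨116,61,52⟩ (.leaf false ⟨⟨-67,124,4⟩,⟨44,28,-131⟩,⟨116,61,52⟩⟩ (1,[(1,1)]) (31,[(2,4089),(4,1833),(1,7)]) (1,[(0,1)])) (.leaf false ⟨⟨-124,-32,-59⟩,⟨-37,136,4⟩,⟨56,19,-128⟩⟩ (2068,[(4,64719),(1,645),(0,2396)]) (517,[(4,19458),(1,569),(0,4)]) (517,[(4,232227),(1,733),(0,1329)]))) (.node ⟨5,-80,-116⟩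 (.node ⟨80,115,16⟩ (.leaf false ⟨⟨5,16,-140⟩,⟨80,115,16⟩,⟨116,-80,-5⟩⟩ (1,[(3,24),(1,1),(4,96)]) (1,[(0,1)]) (125,[(3,1089),(2,140),(0,64)])) (.leaf false ⟨⟨-131,-44,-28⟩,⟨4,67,-124⟩,⟨52,-116,-61⟩⟩ (4,[(5,36),(4,629),(0,7)]) (4,[(5,2496),(4,3833),(0,31)]) (16,[(5,5712),(4,5159),(0,61)]))) (.leaf false ⟨⟨4,128,-59⟩,⟨37,56,124⟩,⟨136,-19,-32⟩⟩ (395,[(2,110681),(1,80),(0,756)]) (79,[(2,6112),(1,54),(0,139)]) (1580,[(2,639032),(1,3595),(0,5197)]))))) (.node ⟨0,0,1⟩ (.node ⟨-67,4,124⟩ (.node ⟨116,52,61⟩ (.leaf false ⟨⟨-67,4,124⟩,⟨44,-131,28⟩,⟨116,52,61⟩⟩ (1,[(1,1)]) (31,[(4,1833),(3,4089),(1,7)]) (1,[(0,1)])) (.leaf false ⟨⟨-124,-59,-32⟩,⟨-37,4,136⟩,⟨56,-128,19⟩⟩ (2068,[(4,64719),(0,2396),(1,645)]) (517,[(4,19458),(0,4),(1,569)])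 (517,[(4,232227),(0,1329),(1,733)]))) (.node ⟨5,-116,-80⟩ (.node ⟨80,16,115⟩ (.leaf false ⟨⟨5,-140,16⟩,⟨80,16,115⟩,⟨116,-5,-80⟩⟩ (1,[(3,96),(1,1),(4,24)]) (1,[(0,1)]) (125,[(0,64),(2,140),(4,1089)])) (.leaf false ⟨⟨-131,-28,-44⟩,⟨4,-124,67⟩,⟨52,-61,-116⟩⟩ (4,[(3,629),(5,36),(0,7)]) (4,[(3,3833),(5,2496),(0,31)]) (16,[(3,5159),(5,5712),(0,61)]))) (.leaf false ⟨⟨4,-59,128⟩,⟨37,124,56⟩,⟨136,-32,-19⟩⟩ (395,[(1,80),(3,110681),(0,756)]) (79,[(1,54),(3,6112),(0,139)]) (1580,[(1,3595),(3,639032),(0,5197)])))) (.node ⟨-59,-128,-4⟩ (.node ⟨-32,19,-136⟩ (.leaf false ⟨⟨-59,-128,-4⟩,⟨-32,19,-136⟩,⟨124,-56,-37⟩⟩ (1,[(1,1)]) (1,[(0,1)]) (136,[(4,18048),(3,8319),(0,37)])) (.node ⟨-44,-88,-101⟩ (.leaf false ⟨⟨-44,-88,-101⟩,⟨16,-109,88⟩,⟨133,-16,-44⟩⟩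 (1,[(0,1)]) (913,[(3,50196),(1,1551),(0,796)]) (8,[(3,348),(5,1123),(2,1)])) (.leaf false ⟨⟨-56,-128,-19⟩,⟨37,4,-136⟩,⟨124,-59,32⟩⟩ (55,[(3,5541),(0,48),(2,88)]) (22,[(3,25101),(0,225),(2,154)]) (440,[(3,1886541),(0,19353),(2,13508)])))) (.node ⟨88,-101,44⟩ (.leaf false ⟨⟨4,-52,-131⟩,⟨67,116,-44⟩,⟨124,-61,28⟩⟩ (22,[(2,2926),(0,1),(3,1043)]) (59,[(2,2864),(1,67),(3,1732)]) (33,[(1,44),(0,17),(3,5928)])) (.leaf false ⟨⟨-116,-44,-67⟩,⟨52,-131,-4⟩,⟨61,28,-124⟩⟩ (748,[(1,264),(3,184167),(0,1163)]) (187,[(1,220),(3,56394),(0,37)]) (187,[(1,1133),(3,203418),(0,630)])))))) (.node ⟨0,1,0⟩ (.node ⟨0,0,1⟩ (.node ⟨4,124,-67⟩ (.node ⟨52,61,116⟩ (.leaf false ⟨⟨-131,28,44⟩,⟨4,124,-67⟩,⟨52,61,116⟩⟩ (31,[(2,1833),(4,4089),(1,7)])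 (1,[(1,1)]) (1,[(0,1)])) (.leaf false ⟨⟨-128,19,56⟩,⟨-59,-32,-124⟩,⟨4,136,-37⟩⟩ (517,[(2,232227),(0,1329),(1,733)]) (2068,[(2,64719),(0,2396),(1,645)]) (517,[(2,19458),(0,4),(1,569)]))) (.node ⟨-116,-80,5⟩ (.node ⟨16,115,80⟩ (.leaf false ⟨⟨-140,16,5⟩,⟨-5,-80,116⟩,⟨16,115,80⟩⟩ (1,[(1,1),(5,24),(4,96)]) (125,[(2,140),(5,1089),(0,64)]) (1,[(0,1)])) (.leaf false ⟨⟨-124,4,67⟩,⟨-61,52,-116⟩,⟨-28,-131,-44⟩⟩ (4,[(3,2748),(0,31),(4,3581)]) (16,[(3,3024),(0,61),(4,7847)]) (4,[(3,384),(0,7),(4,281)]))) (.leaf false ⟨⟨-140,16,5⟩,⟨-5,-80,116⟩,⟨16,115,80⟩⟩ (395,[(1,40),(4,71496),(0,141)]) (395,[(1,740),(4,86247),(0,752)]) (316,[(1,465),(4,129384),(0,1175)])))) (.node ⟨-4,-59,-128⟩ (.node ⟨-136,-32,19⟩ (.leaf false ⟨⟨-136,-32,19⟩,⟨-37,124,-56⟩,⟨-4,-59,-128⟩⟩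 (1,[(0,1)]) (136,[(2,8319),(0,37),(3,18048)]) (1,[(1,1)])) (.node ⟨-101,-44,-88⟩ (.leaf false ⟨⟨-101,-44,-88⟩,⟨-44,133,-16⟩,⟨88,16,-109⟩⟩ (1,[(0,1)]) (8,[(2,1),(5,348),(4,1123)]) (913,[(0,796),(5,50196),(1,1551)])) (.leaf false ⟨⟨-136,37,4⟩,⟨-19,-56,-128⟩,⟨32,124,-59⟩⟩ (22,[(2,154),(5,25101),(0,225)]) (55,[(2,88),(5,5541),(0,48)]) (440,[(2,13508),(5,1886541),(0,19353)])))) (.node ⟨44,88,-101⟩ (.leaf false ⟨⟨-133,16,-44⟩,⟨-16,109,88⟩,⟨44,88,-101⟩⟩ (11,[(2,282),(4,1551),(0,2)]) (59,[(2,8760),(4,1380),(1,109)]) (1,[(0,1)])) (.leaf false ⟨⟨-128,19,56⟩,⟨-59,-32,-124⟩,⟨4,136,-37⟩⟩ (561,[(2,548391),(0,1907),(1,3025)]) (2244,[(2,1101261),(0,3353),(1,3784)]) (51,[(2,18978),(0,7),(1,128)]))))) (.node ⟨0,0,1⟩ (.node ⟨-4,-128,-59⟩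 (.node ⟨-136,19,-32⟩ (.leaf false ⟨⟨-136,19,-32⟩,⟨-37,-56,124⟩,⟨-4,-128,-59⟩⟩ (1,[(0,1)]) (136,[(2,18048),(0,37),(3,8319)]) (1,[(1,1)])) (.node ⟨-101,-88,-44⟩ (.leaf false ⟨⟨-101,-88,-44⟩,⟨-44,-16,133⟩,⟨88,-109,16⟩⟩ (1,[(0,1)]) (8,[(3,1123),(5,348),(2,1)]) (913,[(5,50196),(0,796),(1,1551)])) (.leaf false ⟨⟨-136,4,37⟩,⟨-19,-128,-56⟩,⟨32,-59,124⟩⟩ (22,[(5,25101),(2,154),(0,225)]) (55,[(5,5541),(2,88),(0,48)]) (440,[(5,1886541),(2,13508),(0,19353)])))) (.node ⟨44,-101,88⟩ (.leaf false ⟨⟨-133,-44,16⟩,⟨-16,88,109⟩,⟨44,-101,88⟩⟩ (11,[(4,1551),(3,282),(0,2)]) (59,[(4,1380),(3,8760),(1,109)]) (1,[(0,1)])) (.leaf false ⟨⟨-128,56,19⟩,⟨-59,-124,-32⟩,⟨4,-37,136⟩⟩ (561,[(3,548391),(1,3025),(0,1907)]) (2244,[(3,1101261),(1,3784),(0,3353)])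 (51,[(3,18978),(1,128),(0,7)])))) (.node ⟨4,67,-124⟩ (.node ⟨52,-116,-61⟩ (.leaf false ⟨⟨-131,-44,-28⟩,⟨4,67,-124⟩,⟨52,-116,-61⟩⟩ (31,[(4,4089),(3,1833),(1,7)]) (1,[(1,1)]) (1,[(0,1)])) (.leaf false ⟨⟨-136,-32,19⟩,⟨-37,124,-56⟩,⟨-4,-59,-128⟩⟩ (517,[(3,219631),(1,609),(0,1399)]) (2068,[(3,45073),(1,1723),(0,1604)]) (517,[(3,78772),(1,575),(0,84)]))) (.node ⟨-116,-5,80⟩ (.node ⟨16,-80,-115⟩ (.leaf false ⟨⟨-140,-5,-16⟩,⟨-5,-116,80⟩,⟨16,-80,-115⟩⟩ (1,[(3,96),(5,24),(1,1)]) (125,[(5,1089),(2,140),(0,64)]) (1,[(0,1)])) (.leaf false ⟨⟨-136,-32,19⟩,⟨-37,124,-56⟩,⟨-4,-59,-128⟩⟩ (2,[(3,1917),(0,17),(4,1424)]) (16,[(3,5151),(0,37),(4,976)]) (4,[(3,627),(0,1),(4,316)]))) (.leaf false ⟨⟨-140,-5,-16⟩,⟨-5,-116,80⟩,⟨16,-80,-115⟩⟩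 (395,[(4,71496),(1,40),(0,141)]) (395,[(4,86247),(1,740),(0,752)]) (316,[(4,129384),(1,465),(0,1175)]))))))
theorem pa141_ok : pa141.check (ok 141 6 ⟨5, 5, 5⟩) (fun _ r => r) [] = true := by decide +kernel

def pb141 : T := .node ⟨1,0,0⟩ (.node ⟨0,1,0⟩ (.node ⟨0,0,1⟩ (.node ⟨-59,4,128⟩ (.node ⟨-80,116,5⟩ (.node ⟨-32,136,-19⟩ (.leaf false ⟨⟨-59,4,128⟩,⟨-32,136,-19⟩,⟨124,37,56⟩⟩ (1,[(2,1)]) (1,[(0,1)]) (116,[(3,6311),(5,17344),(1,37)])) (.leaf false ⟨⟨-116,-52,61⟩,⟨-44,131,28⟩,⟨67,-4,124⟩⟩ (103,[(5,548),(1,261),(0,262)]) (420,[(4,73472),(1,433),(0,505)]) (48,[(4,30724),(1,77),(0,293)]))) (.node ⟨136,-32,-19⟩ (.leaf false ⟨⟨-56,19,128⟩,⟨37,136,-4⟩,⟨124,-32,59⟩⟩ (3315,[(4,64553),(2,3320),(1,128)]) (280,[(4,45668),(1,53),(0,45)])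 (5429,[(4,18864),(2,3460),(0,6451)])) (.leaf false ⟨⟨-131,-44,28⟩,⟨4,67,124⟩,⟨52,-116,61⟩⟩ (840,[(4,65324),(0,1585),(1,1319)]) (6,[(4,12166),(0,71),(1,121)]) (210,[(4,203756),(0,1285),(1,2321)])))) (.node ⟨88,-44,101⟩ (.leaf false ⟨⟨4,131,52⟩,⟨67,44,-116⟩,⟨124,-28,61⟩⟩ (22,[(2,1043),(0,1),(3,2926)]) (59,[(2,1732),(1,67),(3,2864)]) (33,[(2,5928),(0,17),(1,44)])) (.leaf false ⟨⟨-116,61,-52⟩,⟨-44,28,131⟩,⟨67,124,-4⟩⟩ (68,[(2,7083),(1,8),(0,95)]) (187,[(2,42552),(1,44),(0,123)]) (187,[(2,210924),(1,1155),(0,632)])))) (.node ⟨-59,4,-128⟩ (.node ⟨-80,116,-5⟩ (.node ⟨-32,136,19⟩ (.leaf false ⟨⟨-59,4,-128⟩,⟨-32,136,19⟩,⟨124,37,-56⟩⟩ (1,[(2,1)]) (1,[(0,1)]) (116,[(3,6311),(5,17344),(1,37)])) (.leaf false ⟨⟨-116,-52,-61⟩,⟨-44,131,-28⟩,⟨67,-4,-124⟩⟩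 (103,[(5,548),(1,261),(0,262)]) (420,[(4,73472),(1,433),(0,505)]) (48,[(4,30724),(1,77),(0,293)]))) (.node ⟨136,-32,19⟩ (.leaf false ⟨⟨-56,19,-128⟩,⟨37,136,4⟩,⟨124,-32,-59⟩⟩ (3315,[(4,64553),(2,3320),(1,128)]) (280,[(4,45668),(1,53),(0,45)]) (5429,[(4,18864),(2,3460),(0,6451)])) (.leaf false ⟨⟨-131,-44,-28⟩,⟨4,67,-124⟩,⟨52,-116,-61⟩⟩ (840,[(4,65324),(0,1585),(1,1319)]) (6,[(4,12166),(0,71),(1,121)]) (210,[(4,203756),(0,1285),(1,2321)])))) (.node ⟨88,-44,-101⟩ (.leaf false ⟨⟨4,131,-52⟩,⟨67,44,116⟩,⟨124,-28,-61⟩⟩ (22,[(2,1043),(0,1),(3,2926)]) (59,[(2,1732),(1,67),(3,2864)]) (33,[(2,5928),(0,17),(1,44)])) (.leaf false ⟨⟨-116,61,52⟩,⟨-44,28,-131⟩,⟨67,124,4⟩⟩ (68,[(2,7083),(1,8),(0,95)]) (187,[(2,42552),(1,44),(0,123)])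 (187,[(2,210924),(1,1155),(0,632)]))))) (.node ⟨0,0,1⟩ (.node ⟨-59,-128,4⟩ (.node ⟨-80,-5,116⟩ (.node ⟨-32,19,136⟩ (.leaf false ⟨⟨-59,-128,4⟩,⟨-32,19,136⟩,⟨124,-56,37⟩⟩ (1,[(2,1)]) (1,[(0,1)]) (116,[(5,17344),(4,6311),(1,37)])) (.leaf false ⟨⟨-116,-67,44⟩,⟨52,-4,131⟩,⟨61,-124,-28⟩⟩ (420,[(3,54908),(0,1195),(1,1087)]) (5,[(3,191),(5,580),(1,4)]) (721,[(5,254429),(0,3631),(1,4083)]))) (.node ⟨136,19,-32⟩ (.leaf false ⟨⟨-56,-128,19⟩,⟨37,4,136⟩,⟨124,-59,-32⟩⟩ (3315,[(3,64553),(1,128),(2,3320)]) (280,[(3,45668),(0,45),(1,53)]) (5429,[(3,18864),(0,6451),(2,3460)])) (.leaf false ⟨⟨-131,-28,-44⟩,⟨4,-124,67⟩,⟨52,-61,-116⟩⟩ (840,[(3,65324),(1,1319),(0,1585)]) (6,[(3,12166),(1,121),(0,71)]) (210,[(3,203756),(1,2321),(0,1285)]))))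 (.node ⟨88,-101,-44⟩ (.leaf false ⟨⟨4,-52,131⟩,⟨67,116,44⟩,⟨124,-61,-28⟩⟩ (22,[(2,2926),(0,1),(3,1043)]) (59,[(2,2864),(1,67),(3,1732)]) (33,[(1,44),(0,17),(3,5928)])) (.leaf false ⟨⟨-116,-44,67⟩,⟨52,-131,4⟩,⟨61,28,124⟩⟩ (748,[(1,264),(3,184167),(0,1163)]) (187,[(1,220),(3,56394),(0,37)]) (187,[(1,1133),(3,203418),(0,630)])))) (.node ⟨-59,-128,-4⟩ (.node ⟨-80,-5,-116⟩ (.node ⟨-32,19,-136⟩ (.leaf false ⟨⟨-59,-128,-4⟩,⟨-32,19,-136⟩,⟨124,-56,-37⟩⟩ (1,[(2,1)]) (1,[(0,1)]) (116,[(5,17344),(4,6311),(1,37)])) (.leaf false ⟨⟨-116,-67,-44⟩,⟨52,-4,-131⟩,⟨61,-124,28⟩⟩ (420,[(3,54908),(0,1195),(1,1087)]) (5,[(3,191),(5,580),(1,4)]) (721,[(5,254429),(0,3631),(1,4083)]))) (.node ⟨136,19,32⟩ (.leaf false ⟨⟨-56,-128,-19⟩,⟨37,4,-136⟩,⟨124,-59,32⟩⟩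 (3315,[(3,64553),(1,128),(2,3320)]) (280,[(3,45668),(0,45),(1,53)]) (5429,[(3,18864),(0,6451),(2,3460)])) (.leaf false ⟨⟨-131,-28,-44⟩,⟨4,-124,67⟩,⟨52,-61,-116⟩⟩ (840,[(3,139244),(1,1319),(0,1585)]) (6,[(3,11362),(1,121),(0,71)]) (210,[(3,252476),(1,2321),(0,1285)])))) (.node ⟨88,-101,44⟩ (.leaf false ⟨⟨4,-52,-131⟩,⟨67,116,-44⟩,⟨124,-61,28⟩⟩ (22,[(2,2926),(0,1),(3,1043)]) (59,[(2,2864),(1,67),(3,1732)]) (33,[(1,44),(0,17),(3,5928)])) (.leaf false ⟨⟨-116,-44,-67⟩,⟨52,-131,-4⟩,⟨61,28,-124⟩⟩ (748,[(1,264),(3,184167),(0,1163)]) (187,[(1,220),(3,56394),(0,37)]) (187,[(1,1133),(3,203418),(0,630)])))))) (.node ⟨0,1,0⟩ (.node ⟨0,0,1⟩ (.node ⟨-128,-59,4⟩ (.node ⟨4,-67,124⟩ (.node ⟨67,-4,124⟩ (.leaf false ⟨⟨-128,-59,4⟩,⟨-56,124,37⟩,⟨19,-32,136⟩⟩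 (1,[(2,1)]) (124,[(5,9423),(4,15524),(0,37)]) (2730,[(2,1029),(0,2726),(1,235)])) (.leaf false ⟨⟨-128,-56,19⟩,⟨-59,124,-32⟩,⟨4,37,136⟩⟩ (868,[(4,71939),(1,1905),(0,1772)]) (651,[(4,107205),(1,431),(0,599)]) (651,[(4,72177),(1,718),(0,4)]))) (.leaf false ⟨⟨-116,5,-80⟩,⟨-80,-16,115⟩,⟨-5,140,16⟩⟩ (331,[(1,293),(0,223),(3,4001)]) (8,[(2,900),(1,5),(3,167)]) (4,[(2,684),(0,5),(3,225)]))) (.node ⟨-101,88,-44⟩ (.leaf false ⟨⟨-101,88,-44⟩,⟨-44,16,133⟩,⟨88,109,16⟩⟩ (1,[(0,1)]) (11,[(2,1551),(4,282),(0,2)]) (59,[(2,1380),(4,8760),(1,109)])) (.leaf false ⟨⟨-140,16,5⟩,⟨-5,-80,116⟩,⟨16,115,80⟩⟩ (2244,[(4,496851),(1,1144),(0,359)]) (561,[(4,381552),(1,1672),(0,1631)]) (561,[(4,509019),(1,3025),(0,1295)])))) (.node ⟨-128,-59,-4⟩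 (.node ⟨4,-67,-124⟩ (.node ⟨67,-4,-124⟩ (.leaf false ⟨⟨-128,-59,-4⟩,⟨-56,124,-37⟩,⟨19,-32,-136⟩⟩ (1,[(2,1)]) (124,[(5,9423),(4,15524),(0,37)]) (2730,[(2,1029),(0,2726),(1,235)])) (.leaf false ⟨⟨-128,-56,-19⟩,⟨-59,124,32⟩,⟨4,37,-136⟩⟩ (868,[(4,71939),(1,1905),(0,1772)]) (651,[(4,107205),(1,431),(0,599)]) (651,[(4,72177),(1,718),(0,4)]))) (.leaf false ⟨⟨-116,5,80⟩,⟨-80,-16,-115⟩,⟨-5,140,-16⟩⟩ (331,[(1,293),(0,223),(3,4001)]) (8,[(2,900),(1,5),(3,167)]) (4,[(2,684),(0,5),(3,225)]))) (.node ⟨-101,88,44⟩ (.leaf false ⟨⟨-101,88,44⟩,⟨-44,16,-133⟩,⟨88,109,-16⟩⟩ (1,[(0,1)]) (11,[(2,1551),(4,282),(0,2)]) (59,[(2,1380),(4,8760),(1,109)])) (.leaf false ⟨⟨-140,16,-5⟩,⟨-5,-80,-116⟩,⟨16,115,-80⟩⟩ (2244,[(4,496851),(1,1144),(0,359)])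 (561,[(4,381552),(1,1672),(0,1631)]) (561,[(4,509019),(1,3025),(0,1295)]))))) (.node ⟨0,0,1⟩ (.node ⟨-128,-4,-59⟩ (.node ⟨4,-124,-67⟩ (.node ⟨67,-124,-4⟩ (.leaf false ⟨⟨-128,-4,-59⟩,⟨-56,-37,124⟩,⟨19,-136,-32⟩⟩ (1,[(2,1)]) (124,[(3,15524),(5,9423),(0,37)]) (2730,[(2,1029),(1,235),(0,2726)])) (.leaf false ⟨⟨-128,-19,-56⟩,⟨-59,32,124⟩,⟨4,-136,37⟩⟩ (868,[(3,71939),(0,1772),(1,1905)]) (651,[(3,107205),(0,599),(1,431)]) (651,[(3,72177),(0,4),(1,718)]))) (.leaf false ⟨⟨-116,80,5⟩,⟨-80,-115,-16⟩,⟨-5,-16,140⟩⟩ (331,[(2,4001),(0,223),(1,293)]) (8,[(2,167),(1,5),(3,900)]) (4,[(2,225),(0,5),(3,684)]))) (.node ⟨-101,44,88⟩ (.leaf false ⟨⟨-101,44,88⟩,⟨-44,-133,16⟩,⟨88,-16,109⟩⟩ (1,[(0,1)]) (11,[(4,282),(3,1551),(0,2)]) (59,[(4,8760),(3,1380),(1,109)]))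 (.leaf false ⟨⟨-140,-5,16⟩,⟨-5,-116,-80⟩,⟨16,-80,115⟩⟩ (2244,[(4,496851),(0,359),(1,1144)]) (561,[(4,381552),(0,1631),(1,1672)]) (561,[(4,509019),(0,1295),(1,3025)])))) (.node ⟨-128,-4,59⟩ (.node ⟨4,-124,67⟩ (.node ⟨67,-124,4⟩ (.leaf false ⟨⟨-128,-4,59⟩,⟨-56,-37,-124⟩,⟨19,-136,32⟩⟩ (1,[(2,1)]) (124,[(3,15524),(5,9423),(0,37)]) (2730,[(2,1029),(1,235),(0,2726)])) (.leaf false ⟨⟨-128,-19,56⟩,⟨-59,32,-124⟩,⟨4,-136,-37⟩⟩ (868,[(3,71939),(0,1772),(1,1905)]) (651,[(3,107205),(0,599),(1,431)]) (651,[(3,72177),(0,4),(1,718)]))) (.leaf false ⟨⟨-116,80,-5⟩,⟨-80,-115,16⟩,⟨-5,-16,-140⟩⟩ (331,[(2,4001),(0,223),(1,293)]) (8,[(2,167),(1,5),(3,900)]) (4,[(2,225),(0,5),(3,684)]))) (.node ⟨-101,44,-88⟩ (.leaf false ⟨⟨-101,44,-88⟩,⟨-44,-133,-16⟩,⟨88,-16,-109⟩⟩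 (1,[(0,1)]) (11,[(4,282),(3,1551),(0,2)]) (59,[(4,8760),(3,1380),(1,109)])) (.leaf false ⟨⟨-140,-5,-16⟩,⟨-5,-116,80⟩,⟨16,-80,-115⟩⟩ (2244,[(4,496851),(0,359),(1,1144)]) (561,[(4,381552),(0,1631),(1,1672)]) (561,[(4,509019),(0,1295),(1,3025)]))))))
theorem pb141_ok : pb141.check (ok 141 6 ⟨5, 3, 3⟩) (fun _ r => r) [] = true := by decide +kernel

def pc141 : T := .node ⟨1,0,0⟩ (.node ⟨0,1,0⟩ (.node ⟨0,0,1⟩ (.node ⟨-67,-4,124⟩ (.node ⟨116,-52,61⟩ (.leaf false ⟨⟨-67,-4,124⟩,⟨44,131,28⟩,⟨116,-52,61⟩⟩ (1,[(1,1)]) (31,[(4,1833),(3,4089),(1,7)]) (1,[(0,1)])) (.leaf false ⟨⟨-124,59,-32⟩,⟨-37,-4,136⟩,⟨56,128,19⟩⟩ (2068,[(4,64719),(0,2396),(1,645)]) (517,[(4,19458),(0,4),(1,569)]) (517,[(4,232227),(0,1329),(1,733)]))) (.node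 ⟨5,116,-80⟩ (.node ⟨80,-16,115⟩ (.leaf false ⟨⟨5,140,16⟩,⟨80,-16,115⟩,⟨116,5,-80⟩⟩ (1,[(3,96),(1,1),(4,24)]) (1,[(0,1)]) (125,[(0,64),(2,140),(4,1089)])) (.leaf false ⟨⟨-115,80,-16⟩,⟨-16,5,140⟩,⟨80,116,5⟩⟩ (1,[(3,559),(5,285),(0,5)]) (16,[(3,2815),(5,144),(0,5)]) (4,[(3,3355),(5,2640),(0,29)]))) (.leaf false ⟨⟨5,-16,140⟩,⟨80,-115,-16⟩,⟨116,80,5⟩⟩ (237,[(1,55),(3,53988),(0,500)]) (15,[(1,20),(3,1443),(0,28)]) (4740,[(1,9305),(3,2049384),(0,14719)])))) (.node ⟨-67,-4,-124⟩ (.node ⟨116,-52,-61⟩ (.leaf false ⟨⟨-67,-4,-124⟩,⟨44,131,-28⟩,⟨116,-52,-61⟩⟩ (1,[(1,1)]) (31,[(4,1833),(3,4089),(1,7)]) (1,[(0,1)])) (.leaf false ⟨⟨-124,59,32⟩,⟨-37,-4,-136⟩,⟨56,128,-19⟩⟩ (2068,[(4,64719),(0,2396),(1,645)]) (517,[(4,19458),(0,4),(1,569)])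 (517,[(4,232227),(0,1329),(1,733)]))) (.node ⟨5,116,80⟩ (.node ⟨80,-16,-115⟩ (.leaf false ⟨⟨5,140,-16⟩,⟨80,-16,-115⟩,⟨116,5,80⟩⟩ (1,[(3,96),(1,1),(4,24)]) (1,[(0,1)]) (125,[(0,64),(2,140),(4,1089)])) (.leaf false ⟨⟨-115,80,16⟩,⟨-16,5,-140⟩,⟨80,116,-5⟩⟩ (1,[(3,559),(5,285),(0,5)]) (16,[(3,2815),(5,144),(0,5)]) (4,[(3,3355),(5,2640),(0,29)]))) (.leaf false ⟨⟨5,-16,-140⟩,⟨80,-115,16⟩,⟨116,80,-5⟩⟩ (237,[(1,55),(3,53988),(0,500)]) (15,[(1,20),(3,1443),(0,28)]) (4740,[(1,9305),(3,2049384),(0,14719)]))))) (.node ⟨0,0,1⟩ (.node ⟨128,-4,-59⟩ (.node ⟨-4,-124,-67⟩ (.node ⟨-67,-124,-4⟩ (.leaf false ⟨⟨-67,-124,-4⟩,⟨44,-28,131⟩,⟨116,-61,-52⟩⟩ (1,[(0,1)]) (31,[(3,4089),(5,1833),(0,7)]) (1324,[(3,44077),(2,1219),(1,612)])) (.leaf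 false ⟨⟨-4,-136,37⟩,⟨59,32,124⟩,⟨128,-19,-56⟩⟩ (651,[(3,72177),(0,4),(1,718)]) (651,[(3,107205),(0,599),(1,431)]) (868,[(3,71939),(0,1772),(1,1905)]))) (.leaf false ⟨⟨5,-16,140⟩,⟨80,-115,-16⟩,⟨116,80,5⟩⟩ (4,[(2,225),(0,5),(3,684)]) (8,[(2,167),(1,5),(3,900)]) (331,[(2,4001),(0,223),(1,293)]))) (.node ⟨101,44,88⟩ (.leaf false ⟨⟨-88,-16,109⟩,⟨44,-133,16⟩,⟨101,44,88⟩⟩ (59,[(4,8760),(3,1380),(1,109)]) (11,[(4,282),(3,1551),(0,2)]) (1,[(0,1)])) (.leaf false ⟨⟨-133,-16,44⟩,⟨-16,-109,-88⟩,⟨44,-88,101⟩⟩ (561,[(4,60675),(0,280),(1,836)]) (2244,[(4,1310235),(0,6079),(1,5720)]) (561,[(4,555999),(0,1399),(1,3047)])))) (.node ⟨128,-4,59⟩ (.node ⟨-4,-124,67⟩ (.node ⟨-67,-124,4⟩ (.leaf false ⟨⟨-67,-124,4⟩,⟨44,-28,-131⟩,⟨116,-61,52⟩⟩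 (1,[(0,1)]) (31,[(3,4089),(5,1833),(0,7)]) (1324,[(3,44077),(2,1219),(1,612)])) (.leaf false ⟨⟨-4,-136,-37⟩,⟨59,32,-124⟩,⟨128,-19,56⟩⟩ (651,[(3,72177),(0,4),(1,718)]) (651,[(3,107205),(0,599),(1,431)]) (868,[(3,71939),(0,1772),(1,1905)]))) (.leaf false ⟨⟨5,-16,-140⟩,⟨80,-115,16⟩,⟨116,80,-5⟩⟩ (4,[(2,225),(0,5),(3,684)]) (8,[(2,167),(1,5),(3,900)]) (331,[(2,4001),(0,223),(1,293)]))) (.node ⟨101,44,-88⟩ (.leaf false ⟨⟨-88,-16,-109⟩,⟨44,-133,-16⟩,⟨101,44,-88⟩⟩ (59,[(4,8760),(3,1380),(1,109)]) (11,[(4,282),(3,1551),(0,2)]) (1,[(0,1)])) (.leaf false ⟨⟨-133,-16,-44⟩,⟨-16,-109,88⟩,⟨44,-88,-101⟩⟩ (561,[(4,60675),(0,280),(1,836)]) (2244,[(4,1310235),(0,6079),(1,5720)]) (561,[(4,555999),(0,1399),(1,3047)])))))) (.node ⟨0,1,0⟩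 (.node ⟨0,0,1⟩ (.node ⟨-4,128,-59⟩ (.node ⟨-124,-4,-67⟩ (.node ⟨-124,-67,-4⟩ (.leaf false ⟨⟨-136,-19,-32⟩,⟨-37,56,124⟩,⟨-4,128,-59⟩⟩ (2730,[(0,2726),(1,235),(2,1029)]) (124,[(3,15524),(0,37),(4,9423)]) (1,[(2,1)])) (.leaf false ⟨⟨-136,-4,37⟩,⟨-19,128,-56⟩,⟨32,59,124⟩⟩ (651,[(3,72177),(1,718),(0,4)]) (868,[(3,71939),(1,1905),(0,1772)]) (651,[(3,107205),(1,431),(0,599)]))) (.leaf false ⟨⟨-115,80,-16⟩,⟨-16,5,140⟩,⟨80,116,5⟩⟩ (8,[(2,167),(4,900),(1,5)]) (4,[(2,225),(4,684),(0,5)]) (331,[(2,4001),(1,293),(0,223)]))) (.node ⟨44,101,88⟩ (.leaf false ⟨⟨-133,44,16⟩,⟨-16,-88,109⟩,⟨44,101,88⟩⟩ (11,[(4,1551),(3,282),(0,2)]) (59,[(4,1380),(3,8760),(1,109)]) (1,[(0,1)])) (.leaf false ⟨⟨-136,32,-19⟩,⟨-37,-124,56⟩,⟨-4,59,128⟩⟩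 (561,[(3,574863),(1,2783),(0,1987)]) (2244,[(3,697011),(1,5720),(0,2407)]) (3,[(3,1302),(1,8),(0,1)])))) (.node ⟨-4,128,59⟩ (.node ⟨-124,-4,67⟩ (.node ⟨-124,-67,4⟩ (.leaf false ⟨⟨-136,-19,32⟩,⟨-37,56,-124⟩,⟨-4,128,59⟩⟩ (2730,[(0,2726),(1,235),(2,1029)]) (124,[(3,15524),(0,37),(4,9423)]) (1,[(2,1)])) (.leaf false ⟨⟨-136,-4,-37⟩,⟨-19,128,56⟩,⟨32,59,-124⟩⟩ (651,[(3,72177),(1,718),(0,4)]) (868,[(3,71939),(1,1905),(0,1772)]) (651,[(3,107205),(1,431),(0,599)]))) (.leaf false ⟨⟨-115,80,16⟩,⟨-16,5,-140⟩,⟨80,116,-5⟩⟩ (8,[(2,167),(4,900),(1,5)]) (4,[(2,225),(4,684),(0,5)]) (331,[(2,4001),(1,293),(0,223)]))) (.node ⟨44,101,-88⟩ (.leaf false ⟨⟨-133,44,-16⟩,⟨-16,-88,-109⟩,⟨44,101,-88⟩⟩ (11,[(4,1551),(3,282),(0,2)]) (59,[(4,1380),(3,8760),(1,109)])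 (1,[(0,1)])) (.leaf false ⟨⟨-136,32,19⟩,⟨-37,-124,-56⟩,⟨-4,59,-128⟩⟩ (561,[(3,574863),(1,2783),(0,1987)]) (2244,[(3,697011),(1,5720),(0,2407)]) (3,[(3,1302),(1,8),(0,1)]))))) (.node ⟨0,0,1⟩ (.node ⟨-4,59,128⟩ (.node ⟨-136,32,-19⟩ (.leaf false ⟨⟨-136,32,-19⟩,⟨-37,-124,56⟩,⟨-4,59,128⟩⟩ (1,[(0,1)]) (136,[(2,8319),(0,37),(3,18048)]) (1,[(1,1)])) (.node ⟨-136,-37,-4⟩ (.leaf false ⟨⟨-136,-37,-4⟩,⟨-19,56,128⟩,⟨32,-124,59⟩⟩ (1,[(0,1)]) (1,[(2,1),(5,15),(4,3)]) (29,[(2,6),(0,54),(1,61)])) (.leaf false ⟨⟨-133,44,16⟩,⟨-16,-88,109⟩,⟨44,101,88⟩⟩ (1,[(5,677),(4,104),(0,4)]) (4,[(5,14888),(4,4385),(0,109)]) (1,[(5,2948),(4,713),(0,22)])))) (.node ⟨44,-88,101⟩ (.leaf false ⟨⟨-133,-16,44⟩,⟨-16,-109,-88⟩,⟨44,-88,101⟩⟩ (11,[(2,282),(4,1551),(0,2)])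 (59,[(2,8760),(4,1380),(1,109)]) (1,[(0,1)])) (.leaf false ⟨⟨-124,-67,-4⟩,⟨-61,116,-52⟩,⟨-28,44,131⟩⟩ (187,[(2,210924),(0,632),(1,1155)]) (68,[(2,7083),(0,95),(1,8)]) (187,[(2,42552),(0,123),(1,44)])))) (.node ⟨-4,59,-128⟩ (.node ⟨-136,32,19⟩ (.leaf false ⟨⟨-136,32,19⟩,⟨-37,-124,-56⟩,⟨-4,59,-128⟩⟩ (1,[(0,1)]) (136,[(2,8319),(0,37),(3,18048)]) (1,[(1,1)])) (.node ⟨-136,-37,4⟩ (.leaf false ⟨⟨-136,-37,4⟩,⟨-19,56,-128⟩,⟨32,-124,-59⟩⟩ (1,[(0,1)]) (1,[(2,1),(5,15),(4,3)]) (29,[(2,6),(0,54),(1,61)])) (.leaf false ⟨⟨-133,44,-16⟩,⟨-16,-88,-109⟩,⟨44,101,-88⟩⟩ (1,[(5,677),(4,104),(0,4)]) (4,[(5,14888),(4,4385),(0,109)]) (1,[(5,2948),(4,713),(0,22)])))) (.node ⟨44,-88,-101⟩ (.leaf false ⟨⟨-133,-16,-44⟩,⟨-16,-109,88⟩,⟨44,-88,-101⟩⟩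 (11,[(2,282),(4,1551),(0,2)]) (59,[(2,8760),(4,1380),(1,109)]) (1,[(0,1)])) (.leaf false ⟨⟨-124,-67,4⟩,⟨-61,116,52⟩,⟨-28,44,-131⟩⟩ (187,[(2,210924),(0,632),(1,1155)]) (68,[(2,7083),(0,95),(1,8)]) (187,[(2,42552),(0,123),(1,44)]))))))
theorem pc141_ok : pc141.check (ok 141 6 ⟨5, 5, 3⟩) (fun _ r => r) [] = true := by decide +kernel

def pa153 : T := .node ⟨1,0,0⟩ (.node ⟨0,1,0⟩ (.node ⟨0,0,1⟩ (.node ⟨-88,-17,124⟩ (.node ⟨116,-68,73⟩ (.leaf false ⟨⟨-88,-17,124⟩,⟨47,136,52⟩,⟨116,-68,73⟩⟩ (1,[(1,1)]) (8,[(3,1377),(1,1),(0,4)]) (1,[(0,1)])) (.leaf false ⟨⟨-140,40,47⟩,⟨28,145,-40⟩,⟨55,28,140⟩⟩ (7191,[(4,199512),(0,5759),(1,6116)]) (7191,[(4,2900268),(0,17300),(1,7865)]) (7191,[(4,2091969),(0,5852),(1,11564)]))) (.node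 ⟨-7,112,-104⟩ (.node ⟨-16,103,112⟩ (.leaf false ⟨⟨-16,103,112⟩,⟨-7,112,-104⟩,⟨152,16,7⟩⟩ (1,[(0,1)]) (1,[(1,1)]) (7,[(3,153),(5,1071),(1,1)])) (.leaf false ⟨⟨16,-7,-152⟩,⟨103,-112,16⟩,⟨112,104,7⟩⟩ (357,[(3,64056),(0,581),(1,512)]) (357,[(3,712776),(0,3584),(1,2939)]) (357,[(3,955587),(0,4424),(1,4400)]))) (.leaf false ⟨⟨16,7,152⟩,⟨103,112,-16⟩,⟨112,-104,-7⟩⟩ (11,[(2,1920),(1,2),(3,43)]) (88,[(2,11364),(1,103),(3,8105)]) (3340,[(0,4424),(1,3899),(3,81845)])))) (.node ⟨-55,28,-140⟩ (.node ⟨140,28,55⟩ (.node ⟨88,88,89⟩ (.node ⟨121,-32,-88⟩ (.leaf false ⟨⟨-32,121,-88⟩,⟨88,88,89⟩,⟨121,-32,-88⟩⟩ (35,[(6,90),(5,3619),(3,22)]) (1,[(1,1)]) (1,[(0,1)])) (.leaf false ⟨⟨-137,44,52⟩,⟨-44,32,-143⟩,⟨52,143,16⟩⟩ (8,[(4,552),(6,235),(0,11)])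 (1,[(4,231),(6,77),(0,1)]) (32,[(4,12072),(6,18967),(0,143)]))) (.leaf false ⟨⟨-92,-28,-119⟩,⟨49,128,-68⟩,⟨112,-79,-68⟩⟩ (1905,[(1,571),(4,185872),(0,2900)]) (1524,[(1,2069),(4,352124),(0,2443)]) (1905,[(1,3988),(4,82801),(0,3920)]))) (.node ⟨-28,-92,-119⟩ (.leaf false ⟨⟨-136,-17,-68⟩,⟨17,136,-68⟩,⟨68,-68,-119⟩⟩ (55,[(5,2040),(4,969),(1,68)]) (7,[(5,231),(4,1320),(0,4)]) (1,[(5,96),(4,24),(0,1)])) (.leaf false ⟨⟨-152,16,-7⟩,⟨7,112,104⟩,⟨16,103,-112⟩⟩ (432,[(5,15984),(0,269),(1,637)]) (108,[(5,27972),(0,203),(1,235)]) (1728,[(5,2939760),(0,8801),(1,22561)])))) (.leaf false ⟨⟨16,152,7⟩,⟨103,-16,112⟩,⟨112,-7,-104⟩⟩ (55,[(1,1855),(0,16),(2,8808)]) (55,[(1,8260),(0,103),(2,2004)]) (55,[(1,21400),(0,112),(2,2751)]))))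 (.node ⟨0,0,1⟩ (.node ⟨-55,-140,28⟩ (.node ⟨140,55,28⟩ (.node ⟨-89,-88,88⟩ (.node ⟨88,-121,-32⟩ (.leaf false ⟨⟨-89,-88,88⟩,⟨88,-121,-32⟩,⟨88,32,121⟩⟩ (1,[(1,1)]) (1,[(0,1)]) (35,[(4,3619),(2,22),(5,90)])) (.leaf false ⟨⟨-136,-47,52⟩,⟨17,88,124⟩,⟨68,-116,73⟩⟩ (8,[(6,56),(5,1949),(0,13)]) (8,[(6,2864),(5,3047),(0,31)]) (32,[(6,8600),(5,12545),(0,73)]))) (.leaf false ⟨⟨-32,-121,88⟩,⟨88,-88,-89⟩,⟨121,32,88⟩⟩ (2540,[(3,213092),(0,725),(2,2651)]) (635,[(3,32981),(0,1430),(2,1298)]) (127,[(3,29800),(0,253),(2,130)]))) (.node ⟨-28,-119,-92⟩ (.leaf false ⟨⟨-136,-68,-17⟩,⟨17,-68,136⟩,⟨68,-119,-68⟩⟩ (55,[(3,969),(5,2040),(1,68)]) (7,[(3,1320),(5,231),(0,4)]) (1,[(3,24),(5,96),(0,1)])) (.leaf false ⟨⟨-152,-7,16⟩,⟨7,104,112⟩,⟨16,-112,103⟩⟩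 (432,[(5,15984),(1,637),(0,269)]) (108,[(5,27972),(1,235),(0,203)]) (1728,[(5,2939760),(1,22561),(0,8801)])))) (.leaf false ⟨⟨16,7,152⟩,⟨103,112,-16⟩,⟨112,-104,-7⟩⟩ (55,[(1,8808),(0,16),(2,1855)]) (55,[(1,2004),(0,103),(2,8260)]) (55,[(1,2751),(0,112),(2,21400)]))) (.node ⟨-52,-143,16⟩ (.node ⟨137,-44,52⟩ (.leaf false ⟨⟨-52,-143,16⟩,⟨44,-32,-143⟩,⟨137,-44,52⟩⟩ (1,[(1,1)]) (143,[(2,20961),(4,7956),(1,32)]) (1,[(0,1)])) (.leaf false ⟨⟨-140,-47,-40⟩,⟨28,40,-145⟩,⟨55,-140,-28⟩⟩ (1683,[(4,40698),(1,1051),(0,1618)]) (6732,[(4,3165111),(1,4300),(0,20095)]) (1683,[(4,417078),(1,2128),(0,1561)]))) (.node ⟨-52,16,-143⟩ (.leaf false ⟨⟨-52,16,-143⟩,⟨44,-143,-32⟩,⟨137,52,-44⟩⟩ (1,[(0,1)]) (143,[(4,7956),(3,20961),(0,32)])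 (6731,[(1,2244),(4,900099),(0,1820)])) (.leaf false ⟨⟨16,-152,-7⟩,⟨103,16,-112⟩,⟨112,7,104⟩⟩ (13,[(2,663),(0,4),(3,1912)]) (52,[(2,4176),(1,103),(3,13897)]) (689,[(1,884),(0,600),(3,111989)])))))) (.node ⟨0,1,0⟩ (.node ⟨0,0,1⟩ (.node ⟨-140,-55,28⟩ (.node ⟨55,140,28⟩ (.node ⟨-88,-89,88⟩ (.node ⟨-121,88,-32⟩ (.leaf false ⟨⟨-121,88,-32⟩,⟨-88,-89,88⟩,⟨32,88,121⟩⟩ (1,[(0,1)]) (1,[(1,1)]) (35,[(4,3619),(6,90),(2,22)])) (.leaf false ⟨⟨-152,-7,16⟩,⟨7,104,112⟩,⟨16,-112,103⟩⟩ (2,[(6,425),(5,74),(0,1)]) (2,[(6,833),(5,824),(0,7)]) (32,[(6,11951),(5,5480),(0,103)]))) (.leaf false ⟨⟨-152,-4,-17⟩,⟨-17,68,136⟩,⟨4,137,-68⟩⟩ (635,[(3,15661),(2,1098),(0,650)]) (2540,[(3,582148),(2,2499),(0,3485)]) (127,[(3,13712),(2,195),(0,316)])))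 (.node ⟨-119,-28,-92⟩ (.leaf false ⟨⟨-119,-28,-92⟩,⟨-68,-79,112⟩,⟨-68,128,49⟩⟩ (1,[(0,1)]) (55,[(3,8064),(1,68),(4,5175)]) (7,[(3,711),(0,4),(4,1008)])) (.leaf false ⟨⟨-152,-17,-4⟩,⟨-17,136,68⟩,⟨4,-68,137⟩⟩ (432,[(1,3377),(4,437184),(0,1009)]) (216,[(1,1207),(4,183600),(0,527)]) (1728,[(1,15935),(4,1905552),(0,7423)])))) (.leaf false ⟨⟨-140,40,47⟩,⟨28,145,-40⟩,⟨55,28,140⟩⟩ (11,[(1,741),(3,2660),(0,8)]) (11,[(1,372),(3,3752),(0,29)]) (55,[(1,8484),(3,895),(0,28)]))) (.node ⟨-143,-52,16⟩ (.node ⟨-44,137,52⟩ (.leaf false ⟨⟨-143,-52,16⟩,⟨-44,137,52⟩,⟨-32,44,-143⟩⟩ (1,[(1,1)]) (1,[(0,1)]) (143,[(2,20961),(1,32),(3,7956)])) (.leaf false ⟨⟨-152,7,-16⟩,⟨7,-104,-112⟩,⟨16,112,-103⟩⟩ (1683,[(1,2152),(3,285345),(0,1180)])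 (1683,[(1,1141),(3,429012),(0,3976)]) (6732,[(1,3700),(3,2929185),(0,14473)]))) (.node ⟨16,-52,-143⟩ (.leaf false ⟨⟨-143,44,-32⟩,⟨16,-52,-143⟩,⟨52,137,-44⟩⟩ (143,[(4,20961),(3,7956),(0,32)]) (1,[(0,1)]) (2756,[(4,900099),(1,7293),(0,32)])) (.leaf false ⟨⟨-152,16,-7⟩,⟨7,112,104⟩,⟨16,103,-112⟩⟩ (13,[(2,663),(4,1912),(0,4)]) (689,[(4,111989),(0,600),(1,884)]) (52,[(2,4176),(4,13897),(1,103)]))))) (.node ⟨0,0,1⟩ (.node ⟨16,52,143⟩ (.node ⟨52,-137,44⟩ (.leaf false ⟨⟨-143,-44,32⟩,⟨16,52,143⟩,⟨52,-137,44⟩⟩ (143,[(4,20961),(3,7956),(1,32)]) (1,[(1,1)]) (1,[(0,1)])) (.leaf false ⟨⟨-143,16,-52⟩,⟨-44,52,137⟩,⟨-32,-143,44⟩⟩ (2244,[(3,922131),(1,1196),(0,6539)]) (561,[(3,106947),(1,755),(0,707)]) (51,[(3,14229),(1,28),(0,40)])))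 (.node ⟨-143,52,-16⟩ (.leaf false ⟨⟨-145,40,28⟩,⟨-40,-47,-140⟩,⟨-28,-140,55⟩⟩ (143,[(2,6324),(0,145),(3,1820)]) (6731,[(0,1160),(1,6460),(3,40757)]) (4,[(2,1221),(1,7),(3,196)])) (.leaf false ⟨⟨-152,-16,7⟩,⟨7,-112,-104⟩,⟨16,-103,112⟩⟩ (13,[(2,663),(4,1912),(1,4)]) (689,[(4,111989),(1,600),(0,884)]) (52,[(2,4176),(4,13897),(0,103)])))) (.node ⟨-28,55,-140⟩ (.node ⟨-28,-140,55⟩ (.node ⟨-145,28,40⟩ (.leaf false ⟨⟨-145,28,40⟩,⟨-40,-140,-47⟩,⟨-28,55,-140⟩⟩ (1,[(0,1)]) (29,[(3,1683),(0,8),(4,4284)]) (1,[(2,1)])) (.leaf false ⟨⟨-140,-47,-40⟩,⟨28,40,-145⟩,⟨55,-140,-28⟩⟩ (3315,[(2,1637),(5,369096),(1,1756)]) (1224,[(2,1132),(5,2907),(0,475)]) (255,[(5,41334),(1,172),(0,415)]))) (.leaf false ⟨⟨-152,7,-16⟩,⟨7,-104,-112⟩,⟨16,112,-103⟩⟩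 (55,[(4,8808),(3,1855),(0,16)]) (55,[(4,2751),(3,21400),(0,112)]) (55,[(4,2004),(3,8260),(0,103)]))) (.leaf false ⟨⟨-152,-16,7⟩,⟨7,-112,-104⟩,⟨16,-103,112⟩⟩ (55,[(1,1855),(3,8808),(0,16)]) (55,[(1,21400),(3,2751),(0,112)]) (55,[(1,8260),(3,2004),(0,103)])))))
theorem pa153_ok : pa153.check (ok 153 6 ⟨5, 5, 5⟩) (fun _ r => r) [] = true := by decide +kernel

def pb153 : T := .node ⟨1,0,0⟩ (.node ⟨0,1,0⟩ (.node ⟨0,0,1⟩ (.node ⟨28,-55,140⟩ (.node ⟨28,140,-55⟩ (.node ⟨88,88,-89⟩ (.node ⟨-32,121,88⟩ (.leaf false ⟨⟨-32,121,88⟩,⟨88,88,-89⟩,⟨121,-32,88⟩⟩ (1,[(0,1)]) (1,[(1,1)]) (35,[(3,22),(6,3619),(5,90)])) (.leaf false ⟨⟨16,-7,152⟩,⟨103,-112,-16⟩,⟨112,104,-7⟩⟩ (2,[(4,392),(0,1),(5,107)]) (32,[(4,8552),(0,103),(5,8879)])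 (2,[(4,602),(0,7),(5,1055)]))) (.leaf false ⟨⟨-104,-7,112⟩,⟨7,152,16⟩,⟨112,-16,103⟩⟩ (7620,[(5,294956),(1,9233),(0,15295)]) (1905,[(5,141983),(1,3734),(0,2650)]) (381,[(5,91552),(1,382),(0,677)]))) (.node ⟨-68,-68,119⟩ (.leaf false ⟨⟨-68,-68,119⟩,⟨-17,136,68⟩,⟨136,-17,68⟩⟩ (1,[(0,1)]) (7,[(5,153),(4,1224),(0,4)]) (7,[(5,1224),(4,153),(0,4)])) (.leaf false ⟨⟨-47,-88,116⟩,⟨52,-124,-73⟩,⟨136,17,68⟩⟩ (8,[(4,4712),(1,45),(0,13)]) (1,[(4,160),(1,3),(0,2)]) (1,[(4,5593),(1,51),(0,23)])))) (.node ⟨-68,119,-68⟩ (.leaf false ⟨⟨-68,119,-68⟩,⟨-17,68,136⟩,⟨136,68,-17⟩⟩ (1,[(0,1)]) (7,[(2,1224),(4,153),(0,4)]) (7,[(2,153),(4,1224),(0,4)])) (.leaf false ⟨⟨-47,116,-88⟩,⟨52,-73,-124⟩,⟨136,68,17⟩⟩ (8,[(2,4712),(0,13),(1,45)]) (1,[(2,160),(0,2),(1,3)])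 (1,[(2,5593),(0,23),(1,51)])))) (.node ⟨28,-55,-140⟩ (.node ⟨28,140,55⟩ (.node ⟨88,88,89⟩ (.node ⟨-32,121,-88⟩ (.leaf false ⟨⟨-32,121,-88⟩,⟨88,88,89⟩,⟨121,-32,-88⟩⟩ (1,[(0,1)]) (1,[(1,1)]) (35,[(3,22),(6,3619),(5,90)])) (.leaf false ⟨⟨16,-7,-152⟩,⟨103,-112,16⟩,⟨112,104,7⟩⟩ (2,[(4,392),(0,1),(5,107)]) (32,[(4,8552),(0,103),(5,8879)]) (2,[(4,602),(0,7),(5,1055)]))) (.leaf false ⟨⟨-104,-7,-112⟩,⟨7,152,-16⟩,⟨112,-16,-103⟩⟩ (7620,[(5,294956),(1,9233),(0,15295)]) (1905,[(5,141983),(1,3734),(0,2650)]) (381,[(5,91552),(1,382),(0,677)]))) (.node ⟨-68,-68,-119⟩ (.leaf false ⟨⟨-68,-68,-119⟩,⟨-17,136,-68⟩,⟨136,-17,-68⟩⟩ (1,[(0,1)]) (7,[(5,153),(4,1224),(0,4)]) (7,[(5,1224),(4,153),(0,4)])) (.leaf false ⟨⟨-47,-88,-116⟩,⟨52,-124,73⟩,⟨136,17,-68⟩⟩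 (8,[(4,4712),(1,45),(0,13)]) (1,[(4,160),(1,3),(0,2)]) (1,[(4,5593),(1,51),(0,23)])))) (.node ⟨-68,119,68⟩ (.leaf false ⟨⟨-68,119,-68⟩,⟨-17,68,136⟩,⟨136,68,-17⟩⟩ (1,[(2,136),(0,1)]) (19,[(4,357),(1,17),(0,3)]) (7,[(2,391),(4,1224),(0,4)])) (.leaf false ⟨⟨-47,116,-88⟩,⟨52,-73,-124⟩,⟨136,68,17⟩⟩ (8,[(2,6120),(0,13),(1,45)]) (1,[(2,408),(0,2),(1,3)]) (1,[(2,5559),(0,23),(1,51)]))))) (.node ⟨0,0,1⟩ (.node ⟨28,-140,-55⟩ (.node ⟨28,55,140⟩ (.node ⟨88,-88,-89⟩ (.node ⟨-32,-121,88⟩ (.leaf false ⟨⟨-32,-121,88⟩,⟨88,-88,-89⟩,⟨121,32,88⟩⟩ (1,[(0,1)]) (1,[(1,1)]) (35,[(2,22),(6,3619),(5,90)])) (.leaf false ⟨⟨16,-152,-7⟩,⟨103,16,-112⟩,⟨112,7,104⟩⟩ (2,[(4,74),(0,1),(5,425)]) (32,[(4,5480),(0,103),(5,11951)]) (2,[(4,824),(0,7),(5,833)])))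 (.leaf false ⟨⟨-104,7,112⟩,⟨7,-152,16⟩,⟨112,16,103⟩⟩ (7620,[(5,294956),(2,9233),(0,15295)]) (1905,[(5,141983),(2,3734),(0,2650)]) (381,[(5,91552),(2,382),(0,677)]))) (.node ⟨-68,-119,-68⟩ (.leaf false ⟨⟨-68,-119,-68⟩,⟨-17,-68,136⟩,⟨136,-68,-17⟩⟩ (1,[(0,1)]) (7,[(3,1224),(5,153),(0,4)]) (7,[(3,153),(5,1224),(0,4)])) (.leaf false ⟨⟨-47,-116,-88⟩,⟨52,73,-124⟩,⟨136,-68,17⟩⟩ (8,[(3,4712),(0,13),(1,45)]) (1,[(3,160),(0,2),(1,3)]) (1,[(3,5593),(0,23),(1,51)])))) (.node ⟨-68,68,119⟩ (.leaf false ⟨⟨-68,-68,119⟩,⟨-17,136,68⟩,⟨136,-17,68⟩⟩ (1,[(3,136),(0,1)]) (19,[(4,357),(0,3),(1,17)]) (7,[(4,1224),(3,391),(0,4)])) (.leaf false ⟨⟨-47,-88,116⟩,⟨52,-124,-73⟩,⟨136,17,68⟩⟩ (8,[(3,6120),(1,45),(0,13)]) (1,[(3,408),(1,3),(0,2)])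 (1,[(3,5559),(1,51),(0,23)])))) (.node ⟨28,-140,55⟩ (.node ⟨28,55,-140⟩ (.node ⟨88,-88,89⟩ (.node ⟨-32,-121,-88⟩ (.leaf false ⟨⟨-32,-121,-88⟩,⟨88,-88,89⟩,⟨121,32,-88⟩⟩ (1,[(0,1)]) (1,[(1,1)]) (35,[(2,22),(6,3619),(5,90)])) (.leaf false ⟨⟨16,-152,-7⟩,⟨103,16,-112⟩,⟨112,7,104⟩⟩ (2,[(4,102),(0,1),(5,425)]) (32,[(4,12648),(0,103),(5,11951)]) (2,[(4,408),(0,7),(5,833)]))) (.leaf false ⟨⟨-104,7,-112⟩,⟨7,-152,-16⟩,⟨112,16,-103⟩⟩ (7620,[(5,294956),(2,9233),(0,15295)]) (1905,[(5,141983),(2,3734),(0,2650)]) (381,[(5,91552),(2,382),(0,677)]))) (.node ⟨-68,-119,68⟩ (.leaf false ⟨⟨-68,-119,-68⟩,⟨-17,-68,136⟩,⟨136,-68,-17⟩⟩ (1,[(3,136),(0,1)]) (19,[(5,357),(1,17),(0,3)]) (7,[(3,391),(5,1224),(0,4)])) (.leaf false ⟨⟨-47,-116,-88⟩,⟨52,73,-124⟩,⟨136,-68,17⟩⟩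 (8,[(3,6120),(0,13),(1,45)]) (1,[(3,408),(0,2),(1,3)]) (1,[(3,5559),(0,23),(1,51)])))) (.node ⟨-68,68,-119⟩ (.leaf false ⟨⟨-68,-68,-119⟩,⟨-17,136,-68⟩,⟨136,-17,-68⟩⟩ (1,[(3,136),(0,1)]) (19,[(4,357),(0,3),(1,17)]) (7,[(4,1224),(3,391),(0,4)])) (.leaf false ⟨⟨-47,-88,-116⟩,⟨52,-124,73⟩,⟨136,17,-68⟩⟩ (8,[(3,6120),(1,45),(0,13)]) (1,[(3,408),(1,3),(0,2)]) (1,[(3,5559),(1,51),(0,23)])))))) (.node ⟨0,1,0⟩ (.node ⟨0,0,1⟩ (.node ⟨-140,-55,28⟩ (.node ⟨52,-16,143⟩ (.leaf false ⟨⟨-137,-52,44⟩,⟨-44,143,32⟩,⟨52,-16,143⟩⟩ (7417,[(1,6732),(4,123777),(0,964)]) (143,[(4,7956),(3,20961),(0,32)]) (1,[(0,1)])) (.node ⟨-143,-52,-16⟩ (.leaf false ⟨⟨-143,-52,-16⟩,⟨-44,137,-52⟩,⟨-32,44,143⟩⟩ (1,[(0,1)]) (13,[(3,897),(1,11),(4,1605)])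 (13,[(3,3003),(1,8),(4,444)])) (.leaf false ⟨⟨-152,-4,-17⟩,⟨-17,68,136⟩,⟨4,137,-68⟩⟩ (45907,[(2,335284),(1,106717),(0,318260)]) (45907,[(2,714544),(1,181288),(0,760019)]) (45907,[(2,772435),(1,268768),(0,855248)])))) (.leaf false ⟨⟨-143,32,44⟩,⟨16,143,-52⟩,⟨52,44,137⟩⟩ (55,[(1,3316),(3,12345),(0,32)]) (5,[(1,104),(3,1740),(0,13)]) (5,[(1,797),(3,300),(0,4)]))) (.node ⟨-140,-55,-28⟩ (.node ⟨52,-16,-143⟩ (.leaf false ⟨⟨-137,-52,-44⟩,⟨-44,143,-32⟩,⟨52,-16,-143⟩⟩ (7417,[(1,6732),(4,123777),(0,964)]) (143,[(4,7956),(3,20961),(0,32)]) (1,[(0,1)])) (.node ⟨-143,-52,16⟩ (.leaf false ⟨⟨-143,-52,16⟩,⟨-44,137,52⟩,⟨-32,44,-143⟩⟩ (1,[(0,1)]) (13,[(3,897),(1,11),(4,1605)]) (13,[(3,3003),(1,8),(4,444)])) (.leaf false ⟨⟨-152,-4,-17⟩,⟨-17,68,136⟩,⟨4,137,-68⟩⟩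 (45907,[(2,391860),(1,113347),(0,376060)]) (45907,[(2,261936),(1,128248),(0,297619)]) (45907,[(2,998739),(1,295288),(0,1086448)])))) (.leaf false ⟨⟨-143,32,-44⟩,⟨16,143,52⟩,⟨52,44,-137⟩⟩ (55,[(1,3316),(3,12345),(0,32)]) (5,[(1,104),(3,1740),(0,13)]) (5,[(1,797),(3,300),(0,4)])))) (.node ⟨0,0,1⟩ (.node ⟨55,-140,28⟩ (.node ⟨16,52,143⟩ (.leaf false ⟨⟨-143,-44,32⟩,⟨16,52,143⟩,⟨52,-137,44⟩⟩ (143,[(4,20961),(3,7956),(0,32)]) (1,[(0,1)]) (21476,[(4,123777),(1,21879),(0,2324)])) (.leaf false ⟨⟨-152,-16,7⟩,⟨7,-112,-104⟩,⟨16,-103,112⟩⟩ (13,[(2,663),(4,1912),(0,4)]) (1275,[(2,37493),(0,1295),(1,539)]) (140,[(2,12796),(4,3425),(1,103)]))) (.leaf false ⟨⟨-143,16,-52⟩,⟨-44,52,137⟩,⟨-32,-143,44⟩⟩ (5,[(1,104),(0,13),(2,1740)])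 (5,[(1,797),(0,4),(2,300)]) (55,[(1,3316),(0,32),(2,12345)]))) (.node ⟨55,-140,-28⟩ (.node ⟨16,52,-143⟩ (.leaf false ⟨⟨-143,-44,-32⟩,⟨16,52,-143⟩,⟨52,-137,-44⟩⟩ (143,[(4,20961),(3,7956),(0,32)]) (1,[(0,1)]) (21476,[(4,123777),(1,21879),(0,2324)])) (.leaf false ⟨⟨-152,-16,-7⟩,⟨7,-112,104⟩,⟨16,-103,-112⟩⟩ (13,[(2,663),(4,1912),(0,4)]) (1275,[(2,37493),(0,1295),(1,539)]) (140,[(2,12796),(4,3425),(1,103)]))) (.leaf false ⟨⟨-143,16,52⟩,⟨-44,52,-137⟩,⟨-32,-143,-44⟩⟩ (5,[(1,104),(0,13),(2,1740)]) (5,[(1,797),(0,4),(2,300)]) (55,[(1,3316),(0,32),(2,12345)])))))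
theorem pb153_ok : pb153.check (ok 153 6 ⟨5, 3, 3⟩) (fun _ r => r) [] = true := by decide +kernel

def pc153 : T := .node ⟨1,0,0⟩ (.node ⟨0,1,0⟩ (.node ⟨0,0,1⟩ (.node ⟨-55,140,28⟩ (.node ⟨-16,-52,143⟩ (.leaf false ⟨⟨-52,137,44⟩,⟨-16,-52,143⟩,⟨143,44,32⟩⟩ (21476,[(4,123777),(1,21879),(0,2324)]) (1,[(0,1)]) (143,[(4,20961),(3,7956),(0,32)])) (.node ⟨-52,143,-16⟩ (.leaf false ⟨⟨-52,143,-16⟩,⟨44,32,143⟩,⟨137,44,-52⟩⟩ (1,[(0,1)]) (13,[(3,3003),(5,444),(1,8)]) (13,[(3,897),(5,1605),(1,11)])) (.leaf false ⟨⟨-52,143,16⟩,⟨44,32,-143⟩,⟨137,44,52⟩⟩ (45907,[(1,6240),(2,53248),(0,8493)]) (45907,[(1,88611),(2,131812),(0,150996)]) (45907,[(1,329544),(2,1095187),(0,1177920)])))) (.leaf false ⟨⟨32,143,44⟩,⟨44,-52,137⟩,⟨143,-16,-52⟩⟩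 (55,[(1,3316),(0,32),(2,12345)]) (5,[(1,797),(0,4),(2,300)]) (5,[(1,104),(0,13),(2,1740)]))) (.node ⟨-55,140,-28⟩ (.node ⟨-16,-52,-143⟩ (.leaf false ⟨⟨-52,137,-44⟩,⟨-16,-52,-143⟩,⟨143,44,-32⟩⟩ (21476,[(4,123777),(1,21879),(0,2324)]) (1,[(0,1)]) (143,[(4,20961),(3,7956),(0,32)])) (.node ⟨-52,143,16⟩ (.leaf false ⟨⟨-52,143,16⟩,⟨44,32,-143⟩,⟨137,44,52⟩⟩ (1,[(0,1)]) (13,[(3,3003),(5,444),(1,8)]) (13,[(3,897),(5,1605),(1,11)])) (.leaf false ⟨⟨-52,143,-16⟩,⟨44,32,143⟩,⟨137,44,-52⟩⟩ (45907,[(1,6240),(2,53248),(0,8493)]) (45907,[(1,88611),(2,131812),(0,150996)]) (45907,[(1,329544),(2,1095187),(0,1177920)])))) (.leaf false ⟨⟨32,143,-44⟩,⟨44,-52,-137⟩,⟨143,-16,52⟩⟩ (55,[(1,3316),(0,32),(2,12345)]) (5,[(1,797),(0,4),(2,300)])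 (5,[(1,104),(0,13),(2,1740)])))) (.node ⟨0,0,1⟩ (.node ⟨-55,-28,140⟩ (.node ⟨140,-28,-55⟩ (.node ⟨-28,-145,-40⟩ (.leaf false ⟨⟨-55,-28,140⟩,⟨-28,-145,-40⟩,⟨140,-40,47⟩⟩ (1,[(2,1)]) (1,[(0,1)]) (29,[(3,1683),(5,4284),(0,8)])) (.leaf false ⟨⟨-40,-28,145⟩,⟨47,140,40⟩,⟨140,-55,28⟩⟩ (1224,[(4,71451),(2,1132),(0,475)]) (14229,[(1,2244),(2,851),(0,14336)]) (255,[(1,172),(4,69384),(0,415)]))) (.node ⟨-28,92,119⟩ (.leaf false ⟨⟨-136,17,68⟩,⟨17,-136,68⟩,⟨68,68,119⟩⟩ (55,[(5,2040),(4,969),(1,68)]) (7,[(5,231),(4,1320),(0,4)]) (1,[(5,96),(4,24),(0,1)])) (.leaf false ⟨⟨-136,-52,47⟩,⟨17,-124,-88⟩,⟨68,-73,116⟩⟩ (12,[(5,7776),(0,29),(1,73)]) (48,[(5,23328),(0,121),(1,185)]) (64,[(5,97200),(0,269),(1,717)])))) (.node ⟨119,68,-68⟩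 (.leaf false ⟨⟨68,-136,-17⟩,⟨68,17,136⟩,⟨119,68,-68⟩⟩ (7,[(2,153),(0,4),(3,1224)]) (7,[(2,1224),(0,4),(3,153)]) (1,[(0,1)])) (.leaf false ⟨⟨-112,-103,-16⟩,⟨-7,-16,152⟩,⟨104,-112,-7⟩⟩ (136,[(2,157080),(1,1547),(0,843)]) (34,[(2,17952),(1,119),(0,57)]) (17,[(2,93177),(1,850),(0,378)])))) (.node ⟨-55,-28,-140⟩ (.node ⟨140,-28,55⟩ (.node ⟨-28,-145,40⟩ (.leaf false ⟨⟨-55,-28,-140⟩,⟨-28,-145,40⟩,⟨140,-40,-47⟩⟩ (1,[(2,1)]) (1,[(0,1)]) (29,[(3,1683),(5,4284),(0,8)])) (.leaf false ⟨⟨-40,-28,-145⟩,⟨47,140,-40⟩,⟨140,-55,-28⟩⟩ (1224,[(4,71451),(2,1132),(0,475)]) (14229,[(1,2244),(2,851),(0,14336)]) (255,[(1,172),(4,69384),(0,415)]))) (.node ⟨-28,92,-119⟩ (.leaf false ⟨⟨-136,17,-68⟩,⟨17,-136,-68⟩,⟨68,68,-119⟩⟩ (55,[(5,2040),(4,969),(1,68)])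 (7,[(5,231),(4,1320),(0,4)]) (1,[(5,96),(4,24),(0,1)])) (.leaf false ⟨⟨-136,-52,-47⟩,⟨17,-124,88⟩,⟨68,-73,-116⟩⟩ (12,[(5,7776),(0,29),(1,73)]) (48,[(5,23328),(0,121),(1,185)]) (64,[(5,97200),(0,269),(1,717)])))) (.node ⟨119,68,68⟩ (.leaf false ⟨⟨68,-136,-17⟩,⟨68,17,136⟩,⟨119,68,-68⟩⟩ (7,[(2,391),(0,4),(3,1224)]) (19,[(0,3),(1,17),(3,357)]) (1,[(2,136),(0,1)])) (.leaf false ⟨⟨-112,-103,-16⟩,⟨-7,-16,152⟩,⟨104,-112,-7⟩⟩ (136,[(2,161432),(1,1547),(0,843)]) (34,[(2,7616),(1,119),(0,57)]) (17,[(2,93415),(1,850),(0,378)])))))) (.node ⟨0,1,0⟩ (.node ⟨0,0,1⟩ (.node ⟨-28,140,-55⟩ (.node ⟨-28,-55,140⟩ (.node ⟨-145,-28,-40⟩ (.leaf false ⟨⟨-145,-28,-40⟩,⟨-40,140,47⟩,⟨-28,-55,140⟩⟩ (1,[(0,1)]) (29,[(3,1683),(0,8),(4,4284)])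 (1,[(1,1)])) (.leaf false ⟨⟨-136,17,68⟩,⟨17,152,-4⟩,⟨68,-4,137⟩⟩ (5,[(1,1),(5,1377),(0,5)]) (34255,[(1,10324),(2,38556),(0,13455)]) (2635,[(1,2256),(2,459),(0,1760)]))) (.node ⟨68,119,-68⟩ (.leaf false ⟨⟨-136,68,-17⟩,⟨17,68,136⟩,⟨68,119,-68⟩⟩ (7,[(3,153),(5,1224),(0,4)]) (7,[(3,1224),(5,153),(0,4)]) (1,[(0,1)])) (.leaf false ⟨⟨-145,-40,-28⟩,⟨-40,47,140⟩,⟨-28,140,-55⟩⟩ (136,[(3,519112),(0,2285),(1,4845)]) (34,[(3,77656),(0,293),(1,663)]) (34,[(3,117130),(0,455),(1,1071)])))) (.node ⟨92,-28,119⟩ (.leaf false ⟨⟨-136,17,68⟩,⟨17,-136,68⟩,⟨68,68,119⟩⟩ (7,[(4,1320),(3,231),(0,4)]) (55,[(4,969),(3,2040),(1,68)]) (1,[(4,24),(3,96),(0,1)])) (.leaf false ⟨⟨-145,-28,-40⟩,⟨-40,140,47⟩,⟨-28,-55,140⟩⟩ (576,[(3,553392),(1,4525),(0,2285)])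 (144,[(3,117936),(1,757),(0,293)]) (144,[(3,168480),(1,1351),(0,455)])))) (.node ⟨-28,140,55⟩ (.node ⟨-28,-55,-140⟩ (.node ⟨-145,-28,40⟩ (.leaf false ⟨⟨-145,-28,40⟩,⟨-40,140,-47⟩,⟨-28,-55,-140⟩⟩ (1,[(0,1)]) (29,[(3,1683),(0,8),(4,4284)]) (1,[(1,1)])) (.leaf false ⟨⟨-136,17,-68⟩,⟨17,152,4⟩,⟨68,-4,-137⟩⟩ (5,[(1,1),(5,1377),(0,5)]) (34255,[(1,10324),(2,38556),(0,13455)]) (2635,[(1,2256),(2,459),(0,1760)]))) (.node ⟨68,119,68⟩ (.leaf false ⟨⟨-136,68,-17⟩,⟨17,68,136⟩,⟨68,119,-68⟩⟩ (7,[(3,391),(5,1224),(0,4)]) (19,[(5,357),(1,17),(0,3)]) (1,[(3,136),(0,1)])) (.leaf false ⟨⟨-145,-40,-28⟩,⟨-40,47,140⟩,⟨-28,140,-55⟩⟩ (136,[(3,526728),(0,2285),(1,4845)]) (34,[(3,68136),(0,293),(1,663)]) (34,[(3,120870),(0,455),(1,1071)]))))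 (.node ⟨92,-28,-119⟩ (.leaf false ⟨⟨-136,17,-68⟩,⟨17,-136,-68⟩,⟨68,68,-119⟩⟩ (7,[(4,1320),(3,231),(0,4)]) (55,[(4,969),(3,2040),(1,68)]) (1,[(4,24),(3,96),(0,1)])) (.leaf false ⟨⟨-145,-28,40⟩,⟨-40,140,-47⟩,⟨-28,-55,-140⟩⟩ (576,[(3,553392),(1,4525),(0,2285)]) (144,[(3,117936),(1,757),(0,293)]) (144,[(3,168480),(1,1351),(0,455)]))))) (.node ⟨0,0,1⟩ (.node ⟨17,-124,-88⟩ (.node ⟨68,-73,116⟩ (.leaf false ⟨⟨-136,-52,47⟩,⟨17,-124,-88⟩,⟨68,-73,116⟩⟩ (8,[(4,1377),(1,1),(0,4)]) (1,[(1,1)]) (1,[(0,1)])) (.leaf false ⟨⟨-124,-52,-73⟩,⟨-88,47,116⟩,⟨17,-136,68⟩⟩ (2397,[(2,822987),(0,5420),(1,4196)]) (2397,[(2,763776),(0,3371),(1,1076)]) (141,[(2,23868),(0,4),(1,157)]))) (.node ⟨-112,104,-7⟩ (.node ⟨-103,-112,-16⟩ (.leaf false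 ⟨⟨-112,104,-7⟩,⟨-103,-112,-16⟩,⟨-16,-7,152⟩⟩ (1,[(1,1)]) (1,[(0,1)]) (7,[(3,1071),(1,1),(4,153)])) (.leaf false ⟨⟨-136,17,68⟩,⟨17,-136,68⟩,⟨68,68,119⟩⟩ (7,[(1,60),(4,12393),(0,56)]) (7,[(1,44),(4,11016),(0,49)]) (7,[(1,73),(4,16524),(0,84)]))) (.leaf false ⟨⟨-136,17,68⟩,⟨17,-136,68⟩,⟨68,68,119⟩⟩ (22,[(1,17),(4,2703),(3,1734)]) (167,[(1,102),(4,33507),(0,340)]) (835,[(1,1071),(4,6885),(0,731)])))) (.node ⟨17,-124,88⟩ (.node ⟨68,-73,-116⟩ (.leaf false ⟨⟨-136,-52,-47⟩,⟨17,-124,88⟩,⟨68,-73,-116⟩⟩ (8,[(4,1377),(1,1),(0,4)]) (1,[(1,1)]) (1,[(0,1)])) (.leaf false ⟨⟨-124,-52,-73⟩,⟨-88,47,116⟩,⟨17,-136,68⟩⟩ (2397,[(2,1172949),(0,5420),(1,4196)]) (2397,[(2,207672),(0,3371),(1,1076)]) (141,[(2,4692),(0,4),(1,157)]))) (.node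 ⟨-112,104,7⟩ (.node ⟨-103,-112,16⟩ (.leaf false ⟨⟨-112,104,7⟩,⟨-103,-112,16⟩,⟨-16,-7,-152⟩⟩ (1,[(1,1)]) (1,[(0,1)]) (7,[(3,1071),(1,1),(4,153)])) (.leaf false ⟨⟨-136,17,-68⟩,⟨17,-136,-68⟩,⟨68,68,-119⟩⟩ (7,[(1,60),(4,12393),(0,56)]) (7,[(1,44),(4,11016),(0,49)]) (7,[(1,73),(4,16524),(0,84)]))) (.leaf false ⟨⟨-136,17,-68⟩,⟨17,-136,-68⟩,⟨68,68,-119⟩⟩ (22,[(1,17),(4,2703),(3,1734)]) (167,[(1,102),(4,33507),(0,340)]) (835,[(1,1071),(4,6885),(0,731)]))))))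
theorem pc153_ok : pc153.check (ok 153 6 ⟨5, 5, 3⟩) (fun _ r => r) [] = true := by decide +kernel

def pa159 : T := .node ⟨1,0,0⟩ (.node ⟨0,1,0⟩ (.node ⟨0,0,1⟩ (.node ⟨-38,11,154⟩ (.node ⟨154,11,-38⟩ (.node ⟨-14,158,-11⟩ (.leaf false ⟨⟨-14,158,-11⟩,⟨37,14,154⟩,⟨154,11,-38⟩⟩ (1,[(0,1)]) (79,[(3,12243),(5,3021),(0,7)]) (1,[(1,1)])) (.leaf false ⟨⟨-14,-11,158⟩,⟨37,154,14⟩,⟨154,-38,11⟩⟩ (99,[(4,21294),(2,91),(0,148)]) (2226,[(1,211),(4,903279),(0,3562)]) (159,[(1,110),(4,77910),(0,539)]))) (.leaf false ⟨⟨-134,-10,85⟩,⟨10,155,34⟩,⟨85,-34,130⟩⟩ (38,[(4,7998),(3,555),(0,85)]) (19,[(4,2808),(3,3132),(0,17)]) (19,[(4,11625),(3,69),(0,65)]))) (.leaf false ⟨⟨11,154,-38⟩,⟨14,37,154⟩,⟨158,-14,-11⟩⟩ (38,[(1,250),(0,11),(2,5973)])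 (19,[(1,4004),(0,7),(2,780)]) (19,[(1,11957),(0,79),(2,603)]))) (.node ⟨-91,46,-122⟩ (.node ⟨46,146,43⟩ (.node ⟨139,-22,-74⟩ (.leaf false ⟨⟨-62,59,-134⟩,⟨46,146,43⟩,⟨139,-22,-74⟩⟩ (61,[(5,2315),(4,517),(2,67)]) (1,[(1,1)]) (1,[(0,1)])) (.leaf false ⟨⟨-155,34,-10⟩,⟨10,85,134⟩,⟨34,130,-85⟩⟩ (11,[(3,1368),(5,658),(0,17)]) (22,[(3,3342),(5,12035),(0,85)]) (11,[(3,5745),(5,9409),(0,65)]))) (.leaf false ⟨⟨-91,-86,-98⟩,⟨-46,133,-74⟩,⟨122,-14,-101⟩⟩ (43,[(4,595),(3,10610),(0,98)]) (43,[(4,1426),(3,16523),(0,74)]) (43,[(4,9892),(3,14144),(0,101)]))) (.leaf false ⟨⟨10,130,-91⟩,⟨91,70,110⟩,⟨130,-59,-70⟩⟩ (91,[(1,9501),(0,10),(2,12290)]) (1,[(1,12),(0,1),(2,116)]) (7,[(1,1710),(0,10),(2,47)])))) (.node ⟨0,0,1⟩ (.node ⟨-91,-122,46⟩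 (.node ⟨46,43,146⟩ (.node ⟨139,-74,-22⟩ (.leaf false ⟨⟨-62,-134,59⟩,⟨46,43,146⟩,⟨139,-74,-22⟩⟩ (61,[(3,517),(5,2315),(2,67)]) (1,[(1,1)]) (1,[(0,1)])) (.leaf false ⟨⟨-155,-10,34⟩,⟨10,134,85⟩,⟨34,-85,130⟩⟩ (11,[(5,658),(4,1368),(0,17)]) (22,[(5,12035),(4,3342),(0,85)]) (11,[(5,9409),(4,5745),(0,65)]))) (.leaf false ⟨⟨-91,-122,46⟩,⟨86,-14,133⟩,⟨98,-101,-74⟩⟩ (43,[(2,19790),(4,1699),(0,122)]) (43,[(2,7763),(4,4342),(0,14)]) (43,[(2,11564),(4,8860),(0,101)]))) (.leaf false ⟨⟨10,-91,130⟩,⟨91,110,70⟩,⟨130,-70,-59⟩⟩ (91,[(1,12290),(0,10),(2,9501)]) (1,[(1,116),(0,1),(2,12)]) (7,[(1,47),(0,10),(2,1710)]))) (.node ⟨-38,-154,-11⟩ (.node ⟨154,38,-11⟩ (.node ⟨-11,14,-158⟩ (.leaf false ⟨⟨-38,-154,-11⟩,⟨-11,14,-158⟩,⟨154,-37,-14⟩⟩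 (1,[(2,1)]) (1,[(0,1)]) (79,[(5,12243),(4,3021),(0,7)])) (.leaf false ⟨⟨-14,-158,11⟩,⟨37,-14,-154⟩,⟨154,-11,38⟩⟩ (5724,[(1,901),(0,880),(2,6015)]) (99,[(3,36738),(1,14),(0,137)]) (234,[(3,97461),(1,185),(0,686)]))) (.leaf false ⟨⟨-134,-85,10⟩,⟨10,-34,-155⟩,⟨85,-130,34⟩⟩ (38,[(2,555),(4,7998),(0,85)]) (19,[(2,3132),(4,2808),(0,17)]) (19,[(2,69),(4,11625),(0,65)]))) (.leaf false ⟨⟨34,-10,-155⟩,⟨85,134,10⟩,⟨130,-85,34⟩⟩ (19,[(1,3132),(0,17),(2,2808)]) (38,[(1,555),(0,85),(2,7998)]) (19,[(1,69),(0,65),(2,11625)]))))) (.node ⟨0,1,0⟩ (.node ⟨0,0,1⟩ (.node ⟨-122,-91,46⟩ (.node ⟨43,46,146⟩ (.node ⟨-74,139,-22⟩ (.leaf false ⟨⟨-134,-62,59⟩,⟨-74,139,-22⟩,⟨43,46,146⟩⟩ (61,[(3,517),(2,67),(4,2315)]) (1,[(0,1)]) (1,[(1,1)]))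 (.leaf false ⟨⟨-155,-10,34⟩,⟨10,134,85⟩,⟨34,-85,130⟩⟩ (11,[(5,2963),(4,2253),(0,17)]) (22,[(5,6070),(4,14763),(0,85)]) (11,[(5,4436),(4,8100),(0,65)]))) (.leaf false ⟨⟨-134,-74,-43⟩,⟨-62,139,-46⟩,⟨-59,22,146⟩⟩ (43,[(2,17715),(0,134),(3,2982)]) (43,[(2,7074),(0,62),(3,8829)]) (43,[(2,14892),(0,59),(3,3660)]))) (.leaf false ⟨⟨-134,85,-10⟩,⟨10,34,155⟩,⟨85,130,-34⟩⟩ (91,[(1,3000),(3,22564),(0,85)]) (91,[(1,15669),(3,3238),(0,34)]) (7,[(1,222),(3,625),(0,10)]))) (.node ⟨-11,154,38⟩ (.node ⟨-11,-38,-154⟩ (.node ⟨-158,-14,11⟩ (.leaf false ⟨⟨-158,-14,11⟩,⟨-14,37,-154⟩,⟨-11,154,38⟩⟩ (1,[(0,1)]) (79,[(3,12243),(0,7),(4,3021)]) (1,[(2,1)])) (.leaf false ⟨⟨-154,37,-14⟩,⟨11,-14,-158⟩,⟨38,154,-11⟩⟩ (2226,[(5,903279),(2,211),(0,3562)])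 (99,[(1,91),(5,21294),(0,148)]) (159,[(5,77910),(2,110),(0,539)]))) (.leaf false ⟨⟨-155,34,-10⟩,⟨10,85,134⟩,⟨34,130,-85⟩⟩ (19,[(2,2808),(4,3132),(0,17)]) (38,[(2,7998),(4,555),(0,85)]) (19,[(2,11625),(4,69),(0,65)]))) (.leaf false ⟨⟨-155,10,-34⟩,⟨10,-134,-85⟩,⟨34,85,-130⟩⟩ (19,[(3,3132),(2,2808),(0,17)]) (38,[(3,555),(2,7998),(0,85)]) (19,[(3,69),(2,11625),(0,65)])))) (.node ⟨0,0,1⟩ (.node ⟨-11,38,154⟩ (.node ⟨-11,-154,-38⟩ (.node ⟨-158,11,-14⟩ (.leaf false ⟨⟨-158,11,-14⟩,⟨-14,-154,37⟩,⟨-11,38,154⟩⟩ (1,[(0,1)]) (79,[(3,3021),(0,7),(4,12243)]) (1,[(2,1)])) (.leaf false ⟨⟨-154,-14,37⟩,⟨11,-158,-14⟩,⟨38,-11,154⟩⟩ (2226,[(2,211),(5,903279),(0,3562)]) (99,[(5,21294),(1,91),(0,148)]) (159,[(2,110),(5,77910),(0,539)])))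 (.leaf false ⟨⟨-155,-10,34⟩,⟨10,134,85⟩,⟨34,-85,130⟩⟩ (19,[(4,3132),(3,2808),(0,17)]) (38,[(4,555),(3,7998),(0,85)]) (19,[(4,69),(3,11625),(0,65)]))) (.leaf false ⟨⟨-155,-34,10⟩,⟨10,-85,-134⟩,⟨34,-130,85⟩⟩ (19,[(1,2808),(3,3132),(0,17)]) (38,[(1,7998),(3,555),(0,85)]) (19,[(1,11625),(3,69),(0,65)]))) (.node ⟨-46,91,-122⟩ (.node ⟨-146,-46,43⟩ (.node ⟨22,-139,-74⟩ (.leaf false ⟨⟨-146,-46,43⟩,⟨-59,62,-134⟩,⟨22,-139,-74⟩⟩ (1,[(1,1)]) (61,[(2,67),(5,517),(4,2315)]) (1,[(0,1)])) (.leaf false ⟨⟨-134,-74,-43⟩,⟨-62,139,-46⟩,⟨-59,22,146⟩⟩ (11,[(3,5431),(0,67),(4,10127)]) (11,[(3,2800),(0,31),(4,2780)]) (22,[(3,1154),(0,59),(4,7717)]))) (.leaf false ⟨⟨-155,10,-34⟩,⟨10,-134,-85⟩,⟨34,85,-130⟩⟩ (43,[(4,11629),(3,1134),(0,34)])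 (43,[(4,11980),(3,9672),(0,85)]) (43,[(4,17518),(3,2325),(0,130)]))) (.leaf false ⟨⟨-155,-34,10⟩,⟨10,-85,-134⟩,⟨34,-130,85⟩⟩ (91,[(1,3238),(3,15669),(0,34)]) (91,[(1,22564),(3,3000),(0,85)]) (7,[(1,625),(3,222),(0,10)])))))
theorem pa159_ok : pa159.check (ok 159 6 ⟨5, 5, 5⟩) (fun _ r => r) [] = true := by decide +kernel

def pb159 : T := .node ⟨1,0,0⟩ (.node ⟨0,1,0⟩ (.node ⟨0,0,1⟩ (.node ⟨-38,11,154⟩ (.node ⟨46,122,-91⟩ (.node ⟨-74,101,98⟩ (.leaf false ⟨⟨-74,101,98⟩,⟨46,122,-91⟩,⟨133,14,86⟩⟩ (1,[(0,1)]) (1,[(1,1)]) (61,[(3,5883),(5,7791),(1,7)])) (.leaf false ⟨⟨-14,-11,158⟩,⟨37,154,14⟩,⟨154,-38,11⟩⟩ (959,[(4,23842),(2,1290),(0,481)]) (548,[(4,125674),(2,333),(0,445)]) (165837,[(1,246379),(2,415308),(0,405232)])))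 (.leaf false ⟨⟨-59,70,130⟩,⟨70,-110,91⟩,⟨130,91,10⟩⟩ (7,[(4,47),(3,1710),(0,10)]) (1,[(4,116),(3,12),(0,1)]) (91,[(4,12290),(3,9501),(0,10)]))) (.leaf false ⟨⟨34,155,-10⟩,⟨85,-10,134⟩,⟨130,-34,-85⟩⟩ (19,[(1,2428),(0,17),(2,3132)]) (38,[(1,18182),(0,85),(2,555)]) (19,[(1,8395),(0,65),(2,69)]))) (.node ⟨-38,11,-154⟩ (.node ⟨46,122,91⟩ (.node ⟨-74,101,-98⟩ (.leaf false ⟨⟨-74,101,-98⟩,⟨46,122,91⟩,⟨133,14,-86⟩⟩ (1,[(0,1)]) (1,[(1,1)]) (61,[(3,5883),(5,7791),(1,7)])) (.leaf false ⟨⟨-14,-11,-158⟩,⟨37,154,-14⟩,⟨154,-38,-11⟩⟩ (959,[(4,23842),(2,1290),(0,481)]) (548,[(4,125674),(2,333),(0,445)]) (165837,[(1,246379),(2,415308),(0,405232)]))) (.leaf false ⟨⟨-59,70,-130⟩,⟨70,-110,-91⟩,⟨130,91,-10⟩⟩ (7,[(4,47),(3,1710),(0,10)])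 (1,[(4,116),(3,12),(0,1)]) (91,[(4,12290),(3,9501),(0,10)]))) (.leaf false ⟨⟨34,155,-10⟩,⟨85,-10,134⟩,⟨130,-34,-85⟩⟩ (19,[(1,2808),(0,17),(2,3132)]) (38,[(1,7998),(0,85),(2,555)]) (19,[(1,11625),(0,65),(2,69)])))) (.node ⟨0,0,1⟩ (.node ⟨-38,-154,11⟩ (.node ⟨46,91,122⟩ (.node ⟨-74,-98,101⟩ (.leaf false ⟨⟨-74,-98,101⟩,⟨46,91,122⟩,⟨133,-86,14⟩⟩ (1,[(0,1)]) (1,[(1,1)]) (61,[(1,7),(5,7791),(4,5883)])) (.leaf false ⟨⟨-14,-158,-11⟩,⟨37,-14,154⟩,⟨154,-11,-38⟩⟩ (959,[(3,23842),(0,481),(2,1290)]) (548,[(3,125674),(0,445),(2,333)]) (165837,[(1,246379),(0,405232),(2,415308)]))) (.leaf false ⟨⟨-59,-130,70⟩,⟨70,-91,-110⟩,⟨130,-10,91⟩⟩ (7,[(2,1710),(4,47),(0,10)]) (1,[(2,12),(4,116),(0,1)]) (91,[(2,9501),(4,12290),(0,10)])))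 (.leaf false ⟨⟨34,-10,155⟩,⟨85,134,-10⟩,⟨130,-85,-34⟩⟩ (19,[(1,3132),(0,17),(2,2808)]) (38,[(1,555),(0,85),(2,7998)]) (19,[(1,69),(0,65),(2,11625)]))) (.node ⟨-38,-154,-11⟩ (.node ⟨46,91,-122⟩ (.node ⟨-74,-98,-101⟩ (.leaf false ⟨⟨-74,-98,-101⟩,⟨46,91,-122⟩,⟨133,-86,-14⟩⟩ (1,[(0,1)]) (1,[(1,1)]) (61,[(1,7),(5,7791),(4,5883)])) (.leaf false ⟨⟨-14,-158,11⟩,⟨37,-14,-154⟩,⟨154,-11,38⟩⟩ (959,[(3,23842),(0,481),(2,1290)]) (548,[(3,125674),(0,445),(2,333)]) (165837,[(1,246379),(0,405232),(2,415308)]))) (.leaf false ⟨⟨-59,-130,-70⟩,⟨70,-91,110⟩,⟨130,-10,-91⟩⟩ (7,[(2,1710),(4,47),(0,10)]) (1,[(2,12),(4,116),(0,1)]) (91,[(2,9501),(4,12290),(0,10)]))) (.leaf false ⟨⟨34,-10,-155⟩,⟨85,134,10⟩,⟨130,-85,34⟩⟩ (19,[(1,3132),(0,17),(2,2808)])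 (38,[(1,555),(0,85),(2,7998)]) (19,[(1,69),(0,65),(2,11625)]))))) (.node ⟨0,1,0⟩ (.node ⟨0,0,1⟩ (.node ⟨-11,154,-38⟩ (.node ⟨-122,-91,46⟩ (.node ⟨43,46,146⟩ (.leaf false ⟨⟨-134,-62,59⟩,⟨-74,139,-22⟩,⟨43,46,146⟩⟩ (91,[(3,2517),(1,62),(5,4630)]) (154,[(3,1894),(5,9867),(2,139)]) (1,[(0,1)])) (.leaf false ⟨⟨-158,-14,-11⟩,⟨-14,37,154⟩,⟨-11,154,-38⟩⟩ (43,[(3,22595),(0,158),(4,6666)]) (43,[(3,8666),(0,14),(4,2235)]) (1,[(2,1)]))) (.leaf false ⟨⟨-134,85,-10⟩,⟨10,34,155⟩,⟨85,130,-34⟩⟩ (91,[(2,3000),(4,22564),(0,85)]) (91,[(2,15669),(4,3238),(0,34)]) (7,[(2,222),(4,625),(0,10)]))) (.leaf false ⟨⟨-155,-10,34⟩,⟨10,134,85⟩,⟨34,-85,130⟩⟩ (19,[(3,3132),(2,2428),(0,17)]) (38,[(3,555),(2,18182),(0,85)]) (19,[(3,69),(2,8395),(0,65)])))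 (.node ⟨-11,154,38⟩ (.node ⟨-122,-91,-46⟩ (.node ⟨43,46,-146⟩ (.leaf false ⟨⟨-134,-62,-59⟩,⟨-74,139,22⟩,⟨43,46,-146⟩⟩ (91,[(3,2517),(1,62),(5,4630)]) (154,[(3,1894),(5,9867),(2,139)]) (1,[(0,1)])) (.leaf false ⟨⟨-158,-14,11⟩,⟨-14,37,-154⟩,⟨-11,154,38⟩⟩ (43,[(3,22595),(0,158),(4,6666)]) (43,[(3,8666),(0,14),(4,2235)]) (1,[(2,1)]))) (.leaf false ⟨⟨-134,85,10⟩,⟨10,34,-155⟩,⟨85,130,34⟩⟩ (91,[(2,3000),(4,22564),(0,85)]) (91,[(2,15669),(4,3238),(0,34)]) (7,[(2,222),(4,625),(0,10)]))) (.leaf false ⟨⟨-155,-10,-34⟩,⟨10,134,-85⟩,⟨34,-85,-130⟩⟩ (19,[(3,3132),(2,2428),(0,17)]) (38,[(3,555),(2,18182),(0,85)]) (19,[(3,69),(2,8395),(0,65)])))) (.node ⟨0,0,1⟩ (.node ⟨-11,38,154⟩ (.node ⟨-122,-46,-91⟩ (.node ⟨43,-146,46⟩ (.leaf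 false ⟨⟨-134,-59,-62⟩,⟨-74,22,139⟩,⟨43,-146,46⟩⟩ (91,[(5,4630),(1,62),(4,2517)]) (154,[(2,139),(5,9867),(4,1894)]) (1,[(0,1)])) (.leaf false ⟨⟨-158,11,-14⟩,⟨-14,-154,37⟩,⟨-11,38,154⟩⟩ (43,[(3,6666),(0,158),(4,22595)]) (43,[(3,2235),(0,14),(4,8666)]) (1,[(2,1)]))) (.leaf false ⟨⟨-134,10,85⟩,⟨10,-155,34⟩,⟨85,34,130⟩⟩ (91,[(4,22564),(3,3000),(0,85)]) (91,[(4,3238),(3,15669),(0,34)]) (7,[(4,625),(3,222),(0,10)]))) (.leaf false ⟨⟨-155,-34,-10⟩,⟨10,-85,134⟩,⟨34,-130,-85⟩⟩ (19,[(1,2428),(3,3132),(0,17)]) (38,[(1,18182),(3,555),(0,85)]) (19,[(1,8395),(3,69),(0,65)]))) (.node ⟨-11,38,-154⟩ (.node ⟨-122,-46,91⟩ (.node ⟨43,-146,-46⟩ (.leaf false ⟨⟨-134,-59,62⟩,⟨-74,22,-139⟩,⟨43,-146,-46⟩⟩ (91,[(5,4630),(1,62),(4,2517)])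 (154,[(2,139),(5,9867),(4,1894)]) (1,[(0,1)])) (.leaf false ⟨⟨-158,11,14⟩,⟨-14,-154,-37⟩,⟨-11,38,-154⟩⟩ (43,[(3,6666),(0,158),(4,22595)]) (43,[(3,2235),(0,14),(4,8666)]) (1,[(2,1)]))) (.leaf false ⟨⟨-134,10,-85⟩,⟨10,-155,-34⟩,⟨85,34,-130⟩⟩ (91,[(4,22564),(3,3000),(0,85)]) (91,[(4,3238),(3,15669),(0,34)]) (7,[(4,625),(3,222),(0,10)]))) (.leaf false ⟨⟨-155,-34,-10⟩,⟨10,-85,134⟩,⟨34,-130,-85⟩⟩ (19,[(1,2808),(3,3132),(0,17)]) (38,[(1,7998),(3,555),(0,85)]) (19,[(1,11625),(3,69),(0,65)])))))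
theorem pb159_ok : pb159.check (ok 159 6 ⟨5, 3, 3⟩) (fun _ r => r) [] = true := by decide +kernel

def pc159 : T := .node ⟨1,0,0⟩ (.node ⟨0,1,0⟩ (.node ⟨0,0,1⟩ (.node ⟨-91,122,46⟩ (.node ⟨134,59,-62⟩ (.node ⟨74,-22,139⟩ (.leaf false ⟨⟨-43,146,46⟩,⟨74,-22,139⟩,⟨134,59,-62⟩⟩ (1,[(5,48),(4,24),(2,1)]) (1,[(0,1)]) (1,[(1,1)])) (.leaf false ⟨⟨-139,62,-46⟩,⟨-22,59,146⟩,⟨74,134,-43⟩⟩ (11,[(3,3803),(5,765),(0,31)]) (22,[(3,11413),(5,3882),(0,59)]) (11,[(3,8840),(5,5772),(0,67)]))) (.leaf false ⟨⟨-133,-46,74⟩,⟨14,122,101⟩,⟨86,-91,98⟩⟩ (31,[(4,835),(3,757),(0,37)]) (62,[(4,14402),(3,13523),(0,101)]) (31,[(4,9232),(3,70),(0,49)]))) (.node ⟨134,-43,-74⟩ (.leaf false ⟨⟨59,146,22⟩,⟨62,-46,139⟩,⟨134,-43,-74⟩⟩ (91,[(2,4716),(1,59),(3,20484)])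 (91,[(2,15501),(1,62),(3,3378)]) (1,[(0,1)])) (.leaf false ⟨⟨-106,53,106⟩,⟨62,146,-11⟩,⟨101,-34,118⟩⟩ (19,[(1,212),(3,20034),(0,159)]) (190,[(1,1038),(3,127845),(0,617)]) (95,[(1,3881),(3,360000),(0,2564)])))) (.node ⟨-91,122,-46⟩ (.node ⟨134,59,62⟩ (.node ⟨74,-22,-139⟩ (.leaf false ⟨⟨-43,146,-46⟩,⟨74,-22,-139⟩,⟨134,59,62⟩⟩ (1,[(5,48),(4,24),(2,1)]) (1,[(0,1)]) (1,[(1,1)])) (.leaf false ⟨⟨-139,62,-46⟩,⟨-22,59,146⟩,⟨74,134,-43⟩⟩ (11,[(3,4815),(5,765),(0,31)]) (22,[(3,4989),(5,3882),(0,59)]) (11,[(3,9786),(5,5772),(0,67)]))) (.leaf false ⟨⟨-133,-46,-74⟩,⟨14,122,-101⟩,⟨86,-91,-98⟩⟩ (31,[(4,835),(3,757),(0,37)]) (62,[(4,14402),(3,13523),(0,101)]) (31,[(4,9232),(3,70),(0,49)]))) (.node ⟨134,-43,74⟩ (.leaf false ⟨⟨59,146,-22⟩,⟨62,-46,-139⟩,⟨134,-43,74⟩⟩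 (91,[(2,4716),(1,59),(3,20484)]) (91,[(2,15501),(1,62),(3,3378)]) (1,[(0,1)])) (.leaf false ⟨⟨-106,53,-106⟩,⟨62,146,11⟩,⟨101,-34,-118⟩⟩ (19,[(1,212),(3,20034),(0,159)]) (190,[(1,1038),(3,127845),(0,617)]) (95,[(1,3881),(3,360000),(0,2564)]))))) (.node ⟨0,0,1⟩ (.node ⟨11,-154,-38⟩ (.node ⟨122,-46,-91⟩ (.node ⟨158,14,-11⟩ (.leaf false ⟨⟨11,-154,-38⟩,⟨14,-37,154⟩,⟨158,14,-11⟩⟩ (1,[(2,1)]) (61,[(3,10031),(1,7),(4,1935)]) (1,[(0,1)])) (.leaf false ⟨⟨-91,-10,130⟩,⟨-70,-130,-59⟩,⟨110,-91,70⟩⟩ (7,[(3,855),(5,153),(0,5)]) (374,[(3,43354),(1,815),(0,795)]) (1496,[(3,335066),(1,2653),(0,1007)]))) (.node ⟨98,74,101⟩ (.leaf false ⟨⟨-91,-46,122⟩,⟨86,-133,14⟩,⟨98,74,101⟩⟩ (115815,[(2,101601),(1,138436),(0,53392)]) (12742,[(5,230073),(2,14469),(0,7210)])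 (1,[(0,1)])) (.leaf false ⟨⟨-154,-37,14⟩,⟨11,14,158⟩,⟨38,-154,11⟩⟩ (696,[(5,217944),(0,1337),(1,1591)]) (116,[(5,103572),(0,333),(1,571)]) (87,[(5,145800),(0,605),(1,682)])))) (.leaf false ⟨⟨-34,-85,130⟩,⟨-10,134,85⟩,⟨155,-10,34⟩⟩ (19,[(3,69),(2,11625),(0,65)]) (38,[(3,555),(2,7998),(0,85)]) (19,[(3,3132),(2,2808),(0,17)]))) (.node ⟨11,-154,38⟩ (.node ⟨122,-46,91⟩ (.node ⟨158,14,11⟩ (.leaf false ⟨⟨11,-154,38⟩,⟨14,-37,-154⟩,⟨158,14,11⟩⟩ (1,[(2,1)]) (61,[(3,10031),(1,7),(4,1935)]) (1,[(0,1)])) (.leaf false ⟨⟨-91,-10,-130⟩,⟨-70,-130,59⟩,⟨110,-91,-70⟩⟩ (7,[(3,855),(5,153),(0,5)]) (374,[(3,43354),(1,815),(0,795)]) (1496,[(3,335066),(1,2653),(0,1007)]))) (.node ⟨98,74,-101⟩ (.leaf false ⟨⟨-91,-46,-122⟩,⟨86,-133,-14⟩,⟨98,74,-101⟩⟩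 (115815,[(2,101601),(1,138436),(0,53392)]) (12742,[(5,230073),(2,14469),(0,7210)]) (1,[(0,1)])) (.leaf false ⟨⟨-154,-37,-14⟩,⟨11,14,-158⟩,⟨38,-154,-11⟩⟩ (696,[(5,217944),(0,1337),(1,1591)]) (116,[(5,103572),(0,333),(1,571)]) (87,[(5,145800),(0,605),(1,682)])))) (.leaf false ⟨⟨-34,-85,-130⟩,⟨-10,134,-85⟩,⟨155,-10,-34⟩⟩ (19,[(3,69),(2,11625),(0,65)]) (38,[(3,555),(2,7998),(0,85)]) (19,[(3,3132),(2,2808),(0,17)]))))) (.node ⟨0,1,0⟩ (.node ⟨0,0,1⟩ (.node ⟨-154,11,-38⟩ (.node ⟨-46,122,-91⟩ (.node ⟨14,158,-11⟩ (.leaf false ⟨⟨-154,11,-38⟩,⟨-37,14,154⟩,⟨14,158,-11⟩⟩ (1,[(2,1)]) (61,[(3,10031),(5,1935),(1,7)]) (1,[(0,1)])) (.leaf false ⟨⟨-130,-85,-34⟩,⟨-85,134,-10⟩,⟨-34,-10,155⟩⟩ (1496,[(3,206366),(0,3295),(1,3225)]) (1496,[(3,209470),(0,701),(1,2551)])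 (7,[(3,898),(0,17),(4,2616)]))) (.node ⟨74,98,101⟩ (.leaf false ⟨⟨-139,-46,62⟩,⟨-22,146,59⟩,⟨74,-43,134⟩⟩ (12266,[(2,15501),(4,1074513),(1,14830)]) (6371,[(2,3294),(4,407754),(0,4961)]) (23163,[(2,1269),(0,13778),(1,19346)])) (.leaf false ⟨⟨-154,38,11⟩,⟨-37,-154,14⟩,⟨14,11,158⟩⟩ (87,[(4,145800),(1,682),(0,605)]) (696,[(4,217944),(1,1591),(0,1337)]) (116,[(4,103572),(1,571),(0,333)])))) (.leaf false ⟨⟨-85,-34,130⟩,⟨-10,155,34⟩,⟨134,-10,85⟩⟩ (19,[(3,11625),(2,69),(0,65)]) (19,[(3,2808),(2,3132),(0,17)]) (38,[(3,7998),(2,555),(0,85)]))) (.node ⟨-154,11,38⟩ (.node ⟨-46,122,91⟩ (.node ⟨14,158,11⟩ (.leaf false ⟨⟨-154,11,38⟩,⟨-37,14,-154⟩,⟨14,158,11⟩⟩ (1,[(2,1)]) (61,[(3,10031),(5,1935),(1,7)]) (1,[(0,1)])) (.leaf false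 ⟨⟨-130,-85,34⟩,⟨-85,134,10⟩,⟨-34,-10,-155⟩⟩ (1496,[(3,206366),(0,3295),(1,3225)]) (1496,[(3,209470),(0,701),(1,2551)]) (7,[(3,898),(0,17),(4,2616)]))) (.node ⟨74,98,-101⟩ (.leaf false ⟨⟨-139,-46,-62⟩,⟨-22,146,-59⟩,⟨74,-43,-134⟩⟩ (12266,[(2,15501),(4,1074513),(1,14830)]) (6371,[(2,3294),(4,407754),(0,4961)]) (23163,[(2,1269),(0,13778),(1,19346)])) (.leaf false ⟨⟨-154,38,-11⟩,⟨-37,-154,-14⟩,⟨14,11,-158⟩⟩ (87,[(4,145800),(1,682),(0,605)]) (696,[(4,217944),(1,1591),(0,1337)]) (116,[(4,103572),(1,571),(0,333)])))) (.leaf false ⟨⟨-85,-34,-130⟩,⟨-10,155,-34⟩,⟨134,-10,-85⟩⟩ (19,[(3,11625),(2,69),(0,65)]) (19,[(3,2808),(2,3132),(0,17)]) (38,[(3,7998),(2,555),(0,85)])))) (.node ⟨0,0,1⟩ (.node ⟨38,-154,11⟩ (.node ⟨-154,38,11⟩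 (.node ⟨-70,110,91⟩ (.node ⟨14,11,158⟩ (.leaf false ⟨⟨-154,-37,14⟩,⟨11,14,158⟩,⟨38,-154,11⟩⟩ (13,[(1,2),(6,1862),(5,701)]) (12334,[(1,474),(5,12135),(0,12061)]) (1,[(3,1)])) (.leaf false ⟨⟨-130,-70,-59⟩,⟨-91,110,70⟩,⟨-10,-91,130⟩⟩ (8349,[(1,22029),(0,17080),(3,18310)]) (10,[(4,1279),(1,11),(0,10)]) (1100,[(4,53502),(1,833),(3,1245)]))) (.node ⟨-70,-91,-110⟩ (.leaf false ⟨⟨-130,-10,91⟩,⟨-70,-91,-110⟩,⟨59,-130,70⟩⟩ (119,[(4,14368),(2,125),(1,54)]) (1,[(0,1)]) (2380,[(4,431448),(2,435),(1,2963)])) (.leaf false ⟨⟨-154,-37,14⟩,⟨11,14,158⟩,⟨38,-154,11⟩⟩ (2479,[(2,15544),(1,16408),(0,12335)]) (69412,[(2,661357),(1,783861),(0,682032)]) (17353,[(2,181369),(1,232496),(0,175936)])))) (.leaf false ⟨⟨-85,-130,-34⟩,⟨-10,-34,155⟩,⟨134,-85,-10⟩⟩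 (19,[(2,69),(4,11625),(0,65)]) (19,[(2,3132),(4,2808),(0,17)]) (38,[(2,555),(4,7998),(0,85)]))) (.leaf false ⟨⟨-130,-85,-34⟩,⟨-85,134,-10⟩,⟨-34,-10,155⟩⟩ (19,[(1,69),(0,65),(2,11625)]) (38,[(1,555),(0,85),(2,7998)]) (19,[(1,3132),(0,17),(2,2808)]))) (.node ⟨38,-154,-11⟩ (.node ⟨-154,38,-11⟩ (.node ⟨-70,110,-91⟩ (.node ⟨14,11,-158⟩ (.leaf false ⟨⟨-154,-37,-14⟩,⟨11,14,-158⟩,⟨38,-154,-11⟩⟩ (13,[(1,2),(6,1862),(5,701)]) (12334,[(1,474),(5,12135),(0,12061)]) (1,[(3,1)])) (.leaf false ⟨⟨-130,-70,59⟩,⟨-91,110,-70⟩,⟨-10,-91,-130⟩⟩ (8349,[(1,22029),(0,17080),(3,18310)]) (10,[(4,1279),(1,11),(0,10)]) (1100,[(4,53502),(1,833),(3,1245)]))) (.node ⟨-70,-91,110⟩ (.leaf false ⟨⟨-130,-10,-91⟩,⟨-70,-91,110⟩,⟨59,-130,-70⟩⟩ (119,[(4,14368),(2,125),(1,54)])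 (1,[(0,1)]) (2380,[(4,431448),(2,435),(1,2963)])) (.leaf false ⟨⟨-154,-37,-14⟩,⟨11,14,-158⟩,⟨38,-154,-11⟩⟩ (2479,[(2,15544),(1,16408),(0,12335)]) (69412,[(2,661357),(1,783861),(0,682032)]) (17353,[(2,181369),(1,232496),(0,175936)])))) (.leaf false ⟨⟨-85,-130,34⟩,⟨-10,-34,-155⟩,⟨134,-85,10⟩⟩ (19,[(2,69),(4,11625),(0,65)]) (19,[(2,3132),(4,2808),(0,17)]) (38,[(2,555),(4,7998),(0,85)]))) (.leaf false ⟨⟨-130,-85,34⟩,⟨-85,134,10⟩,⟨-34,-10,-155⟩⟩ (19,[(1,69),(0,65),(2,11625)]) (38,[(1,555),(0,85),(2,7998)]) (19,[(1,3132),(0,17),(2,2808)])))))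
theorem pc159_ok : pc159.check (ok 159 6 ⟨5, 5, 3⟩) (fun _ r => r) [] = true := by decide +kernel

def pa171 : T := .node ⟨1,0,0⟩ (.node ⟨0,1,0⟩ (.node ⟨0,0,1⟩ (.node ⟨-26,-26,167⟩ (.leaf false ⟨⟨-26,-26,167⟩,⟨-2,169,26⟩,⟨169,-2,26⟩⟩ (1,[(0,1)]) (167,[(3,342),(2,28899),(0,26)]) (167,[(3,28899),(2,342),(0,26)])) (.node ⟨-50,154,-55⟩ (.leaf false ⟨⟨-50,154,-55⟩,⟨55,70,146⟩,⟨154,25,-70⟩⟩ (1,[(0,1)]) (11,[(2,1881),(4,855),(0,5)]) (26,[(2,2355),(4,3354),(1,25)])) (.leaf false ⟨⟨23,34,166⟩,⟨86,142,-41⟩,⟨146,-89,-2⟩⟩ (50,[(2,7035),(0,23),(3,5242)]) (13,[(2,6648),(1,43),(3,728)]) (326,[(0,811),(1,271),(3,88834)])))) (.node ⟨-106,7,-134⟩ (.node ⟨-119,122,-14⟩ (.node ⟨118,119,34⟩ (.leaf false ⟨⟨-119,122,-14⟩,⟨34,14,-167⟩,⟨118,119,34⟩⟩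 (1,[(1,1)]) (17,[(3,2907),(5,342),(0,2)]) (1,[(0,1)])) (.leaf false ⟨⟨-154,-62,-41⟩,⟨-7,106,-134⟩,⟨74,-119,-98⟩⟩ (5814,[(5,127053),(1,2771),(0,5870)]) (17,[(5,7787),(4,9775),(0,67)]) (17,[(5,7040),(4,3808),(0,49)]))) (.leaf false ⟨⟨-106,7,-134⟩,⟨62,154,-41⟩,⟨119,-74,-98⟩⟩ (1,[(1,1)]) (14462,[(3,3730707),(1,5747),(0,12654)]) (1033,[(3,146376),(1,952),(0,1881)]))) (.node ⟨98,-74,-119⟩ (.leaf false ⟨⟨41,154,-62⟩,⟨98,-74,-119⟩,⟨134,7,106⟩⟩ (106,[(2,12066),(1,41),(3,16611)]) (1,[(0,1)]) (53,[(2,3360),(1,67),(3,840)])) (.leaf false ⟨⟨-119,122,-14⟩,⟨34,14,-167⟩,⟨118,119,34⟩⟩ (2386,[(2,654031),(1,1050),(0,4033)]) (1193,[(2,320216),(1,648),(0,287)]) (1193,[(2,681464),(1,3399),(0,2240)]))))) (.node ⟨0,0,1⟩ (.node ⟨-106,-134,7⟩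 (.node ⟨-119,-14,122⟩ (.node ⟨118,34,119⟩ (.leaf false ⟨⟨-119,-14,122⟩,⟨34,-167,14⟩,⟨118,34,119⟩⟩ (1,[(1,1)]) (17,[(5,342),(4,2907),(0,2)]) (1,[(0,1)])) (.leaf false ⟨⟨-154,-74,7⟩,⟨41,-98,-134⟩,⟨62,-119,106⟩⟩ (17,[(3,4522),(5,1748),(0,37)]) (17,[(3,3553),(5,6479),(0,49)]) (2,[(3,1045),(5,950),(0,7)]))) (.leaf false ⟨⟨-106,-134,7⟩,⟨62,-41,154⟩,⟨119,-98,-74⟩⟩ (1,[(1,1)]) (14462,[(2,3730707),(0,12654),(1,5747)]) (1033,[(2,146376),(0,1881),(1,952)]))) (.node ⟨98,-119,-74⟩ (.leaf false ⟨⟨41,-62,154⟩,⟨98,-119,-74⟩,⟨134,106,7⟩⟩ (106,[(2,16611),(1,41),(3,12066)]) (1,[(0,1)]) (53,[(2,840),(1,67),(3,3360)])) (.leaf false ⟨⟨-119,-14,122⟩,⟨34,-167,14⟩,⟨118,34,119⟩⟩ (2386,[(1,1050),(3,654031),(0,4033)]) (1193,[(1,648),(3,320216),(0,287)])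 (1193,[(1,3399),(3,681464),(0,2240)])))) (.node ⟨-26,-167,26⟩ (.leaf false ⟨⟨-26,-167,26⟩,⟨-2,-26,-169⟩,⟨169,-26,2⟩⟩ (1,[(0,1)]) (167,[(1,28899),(3,342),(0,26)]) (167,[(1,342),(3,28899),(0,26)])) (.node ⟨-50,55,-154⟩ (.leaf false ⟨⟨-50,55,-154⟩,⟨55,-146,-70⟩,⟨154,70,-25⟩⟩ (1,[(0,1)]) (11,[(4,855),(3,1881),(0,5)]) (26,[(1,25),(4,3354),(3,2355)])) (.leaf false ⟨⟨14,-167,34⟩,⟨119,34,118⟩,⟨122,-14,-119⟩⟩ (25,[(2,228),(0,7),(3,3790)]) (884,[(1,2071),(0,1027),(3,259316)]) (884,[(1,4123),(0,13),(3,700202)])))))) (.node ⟨0,1,0⟩ (.node ⟨0,0,1⟩ (.node ⟨-134,-106,7⟩ (.node ⟨-14,-119,122⟩ (.node ⟨34,118,119⟩ (.leaf false ⟨⟨-167,34,14⟩,⟨-14,-119,122⟩,⟨34,118,119⟩⟩ (17,[(5,2907),(4,342),(0,2)]) (1,[(1,1)]) (1,[(0,1)])) (.leaf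 false ⟨⟨-154,-50,55⟩,⟨-70,55,-146⟩,⟨-25,154,70⟩⟩ (17,[(3,10098),(0,77),(4,8236)]) (17,[(3,1683),(0,35),(4,5065)]) (34,[(3,5355),(0,25),(4,8186)]))) (.leaf false ⟨⟨-154,22,-71⟩,⟨-73,-14,154⟩,⟨14,169,22⟩⟩ (7231,[(2,596972),(1,9317),(0,9636)]) (14462,[(2,2882875),(1,8491),(0,5862)]) (7231,[(2,1447514),(1,350),(0,10581)]))) (.node ⟨-119,98,-74⟩ (.leaf false ⟨⟨-119,98,-74⟩,⟨-62,41,154⟩,⟨106,134,7⟩⟩ (1,[(0,1)]) (106,[(2,16611),(4,12066),(1,41)]) (53,[(2,840),(4,3360),(1,67)])) (.leaf false ⟨⟨-167,34,14⟩,⟨-14,-119,122⟩,⟨34,118,119⟩⟩ (1193,[(4,320216),(1,648),(0,287)]) (2386,[(4,654031),(1,1050),(0,4033)]) (1193,[(4,681464),(1,3399),(0,2240)])))) (.node ⟨26,-26,-167⟩ (.leaf false ⟨⟨-169,-2,-26⟩,⟨2,169,-26⟩,⟨26,-26,-167⟩⟩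 (167,[(3,28899),(2,342),(0,26)]) (167,[(3,342),(2,28899),(0,26)]) (1,[(0,1)])) (.node ⟨-154,-50,55⟩ (.leaf false ⟨⟨-167,-26,26⟩,⟨-26,-2,-169⟩,⟨-26,169,2⟩⟩ (154,[(2,5181),(0,167),(3,4346)]) (77,[(2,13728),(0,13),(3,496)]) (1,[(2,165),(1,1),(3,143)])) (.leaf false ⟨⟨-167,14,34⟩,⟨-14,122,-119⟩,⟨34,119,118⟩⟩ (13,[(2,727),(4,1989),(1,7)]) (221,[(2,155468),(1,812),(0,117)]) (52,[(2,18940),(1,163),(0,39)]))))) (.node ⟨0,0,1⟩ (.node ⟨26,-167,-26⟩ (.leaf false ⟨⟨-169,-26,-2⟩,⟨2,-26,169⟩,⟨26,-167,-26⟩⟩ (167,[(1,342),(3,28899),(0,26)]) (167,[(1,28899),(3,342),(0,26)]) (1,[(0,1)])) (.node ⟨-154,55,-50⟩ (.leaf false ⟨⟨-167,26,-26⟩,⟨-26,-169,-2⟩,⟨-26,2,169⟩⟩ (154,[(2,4346),(0,167),(3,5181)]) (77,[(2,496),(0,13),(3,13728)])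 (1,[(2,143),(1,1),(3,165)])) (.leaf false ⟨⟨-167,34,14⟩,⟨-14,-119,122⟩,⟨34,118,119⟩⟩ (13,[(1,7),(4,1989),(3,727)]) (221,[(1,812),(3,155468),(0,117)]) (52,[(1,163),(3,18940),(0,39)])))) (.node ⟨-7,106,-134⟩ (.node ⟨-134,106,-7⟩ (.node ⟨74,-119,-98⟩ (.leaf false ⟨⟨-154,-62,-41⟩,⟨-7,106,-134⟩,⟨74,-119,-98⟩⟩ (98,[(5,18126),(4,1197),(0,41)]) (1,[(2,1)]) (1,[(0,1)])) (.leaf false ⟨⟨-146,-89,2⟩,⟨-86,142,41⟩,⟨-23,34,-166⟩⟩ (37,[(3,7080),(0,73),(4,11980)]) (114,[(2,58),(0,127),(4,5073)]) (74,[(3,14538),(0,23),(4,221)]))) (.leaf false ⟨⟨-154,-62,-41⟩,⟨-7,106,-134⟩,⟨74,-119,-98⟩⟩ (6731,[(1,2390),(4,1867662),(0,6327)]) (1,[(1,1)]) (13462,[(1,11221),(4,2454021),(0,26334)]))) (.node ⟨74,-98,-119⟩ (.leaf false ⟨⟨-167,-14,-34⟩,⟨-14,-122,119⟩,⟨34,-119,-118⟩⟩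 (7,[(2,119),(4,1243),(0,1)]) (53,[(2,1867),(4,1169),(1,61)]) (7158,[(2,1248411),(1,5474),(0,2771)])) (.leaf false ⟨⟨-146,2,-89⟩,⟨-86,41,142⟩,⟨-23,-166,34⟩⟩ (1193,[(2,729080),(0,2577),(1,2360)]) (2386,[(2,252337),(0,2943),(1,1798)]) (1193,[(2,355520),(0,600),(1,2423)]))))))
theorem pa171_ok : pa171.check (ok 171 6 ⟨5, 5, 5⟩) (fun _ r => r) [] = true := by decide +kernel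

def pb171 : T := .node ⟨1,0,0⟩ (.node ⟨0,1,0⟩ (.node ⟨0,0,1⟩ (.node ⟨-26,-26,167⟩ (.leaf false ⟨⟨-26,-26,167⟩,⟨-2,169,26⟩,⟨169,-2,26⟩⟩ (1,[(0,1)]) (167,[(3,342),(2,28899),(0,26)]) (167,[(3,28899),(2,342),(0,26)])) (.node ⟨-50,154,55⟩ (.leaf false ⟨⟨-50,154,55⟩,⟨55,70,-146⟩,⟨154,25,70⟩⟩ (1,[(0,1)]) (884,[(2,200526),(1,1995),(0,65)]) (26,[(2,5995),(4,3354),(1,25)])) (.leaf false ⟨⟨25,-70,154⟩,⟨70,146,55⟩,⟨154,-55,-50⟩⟩ (2,[(2,363),(0,1),(3,14)]) (5,[(2,660),(0,7),(3,1808)]) (25,[(2,2985),(0,77),(3,10483)])))) (.node ⟨-26,-26,-167⟩ (.leaf false ⟨⟨-26,-26,-167⟩,⟨-2,169,-26⟩,⟨169,-2,-26⟩⟩ (1,[(0,1)]) (167,[(3,342),(2,28899),(0,26)]) (167,[(3,28899),(2,342),(0,26)])) (.node ⟨-50,154,-55⟩ (.leaf false ⟨⟨-50,154,-55⟩,⟨55,70,146⟩,⟨154,25,-70⟩⟩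 (1,[(0,1)]) (884,[(2,200526),(1,1995),(0,65)]) (26,[(2,5995),(4,3354),(1,25)])) (.leaf false ⟨⟨25,-70,-154⟩,⟨70,146,-55⟩,⟨154,-55,50⟩⟩ (2,[(2,363),(0,1),(3,14)]) (5,[(2,660),(0,7),(3,1808)]) (25,[(2,2985),(0,77),(3,10483)]))))) (.node ⟨0,0,1⟩ (.node ⟨-26,-167,-26⟩ (.leaf false ⟨⟨-26,-167,-26⟩,⟨-2,-26,169⟩,⟨169,-26,-2⟩⟩ (1,[(0,1)]) (167,[(1,28899),(3,342),(0,26)]) (167,[(1,342),(3,28899),(0,26)])) (.node ⟨-50,-55,154⟩ (.leaf false ⟨⟨-50,-55,154⟩,⟨55,146,70⟩,⟨154,-70,25⟩⟩ (1,[(0,1)]) (884,[(1,1995),(3,200526),(0,65)]) (26,[(1,25),(4,3354),(3,5995)])) (.leaf false ⟨⟨25,-154,-70⟩,⟨70,-55,146⟩,⟨154,50,-55⟩⟩ (2,[(2,14),(0,1),(3,363)]) (5,[(2,1808),(0,7),(3,660)]) (25,[(2,10483),(0,77),(3,2985)])))) (.node ⟨-26,-167,26⟩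 (.leaf false ⟨⟨-26,-167,26⟩,⟨-2,-26,-169⟩,⟨169,-26,2⟩⟩ (1,[(0,1)]) (167,[(1,28899),(3,342),(0,26)]) (167,[(1,342),(3,28899),(0,26)])) (.node ⟨-50,-55,-154⟩ (.leaf false ⟨⟨-50,-55,-154⟩,⟨55,146,-70⟩,⟨154,-70,-25⟩⟩ (1,[(0,1)]) (884,[(1,1995),(3,200526),(0,65)]) (26,[(1,25),(4,3354),(3,5995)])) (.leaf false ⟨⟨25,-154,-70⟩,⟨70,-55,146⟩,⟨154,50,-55⟩⟩ (2,[(2,294),(0,1),(3,363)]) (5,[(2,348),(0,7),(3,660)]) (25,[(2,13233),(0,77),(3,2985)])))))) (.node ⟨0,1,0⟩ (.node ⟨0,0,1⟩ (.node ⟨-167,-26,-26⟩ (.leaf false ⟨⟨-167,-26,-26⟩,⟨-26,-2,169⟩,⟨-26,169,-2⟩⟩ (1,[(0,1)]) (167,[(1,28899),(0,26),(2,342)]) (167,[(1,342),(0,26),(2,28899)])) (.node ⟨-86,-23,146⟩ (.leaf false ⟨⟨-86,-23,146⟩,⟨-41,166,2⟩,⟨142,34,89⟩⟩ (1,[(0,1)]) (13,[(4,700),(3,2132),(1,1)])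 (4394,[(4,423909),(1,7011),(0,1430)])) (.leaf false ⟨⟨-167,14,-34⟩,⟨-14,122,119⟩,⟨34,119,-118⟩⟩ (23,[(2,1262),(4,5045),(0,14)]) (23,[(2,20549),(4,10814),(0,122)]) (23,[(2,14660),(4,9452),(0,119)])))) (.node ⟨-167,-26,26⟩ (.leaf false ⟨⟨-167,-26,26⟩,⟨-26,-2,-169⟩,⟨-26,169,2⟩⟩ (1,[(0,1)]) (167,[(1,28899),(0,26),(2,342)]) (167,[(1,342),(0,26),(2,28899)])) (.node ⟨-86,-23,-146⟩ (.leaf false ⟨⟨-86,-23,-146⟩,⟨-41,166,-2⟩,⟨142,34,-89⟩⟩ (1,[(0,1)]) (13,[(4,700),(3,2132),(1,1)]) (4394,[(4,423909),(1,7011),(0,1430)])) (.leaf false ⟨⟨-167,14,-34⟩,⟨-14,122,119⟩,⟨34,119,-118⟩⟩ (13,[(2,260),(4,3340),(1,7)]) (23,[(2,15075),(4,10814),(0,122)]) (23,[(2,20088),(4,9452),(0,119)]))))) (.node ⟨0,0,1⟩ (.node ⟨-167,26,-26⟩ (.leaf false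 ⟨⟨-167,26,-26⟩,⟨-26,-169,-2⟩,⟨-26,2,169⟩⟩ (1,[(0,1)]) (167,[(1,342),(0,26),(2,28899)]) (167,[(1,28899),(0,26),(2,342)])) (.node ⟨-86,-146,-23⟩ (.leaf false ⟨⟨-86,-146,-23⟩,⟨-41,-2,166⟩,⟨142,-89,34⟩⟩ (1,[(0,1)]) (13,[(2,2132),(4,700),(1,1)]) (26618,[(2,423909),(0,11171),(1,28386)])) (.leaf false ⟨⟨-167,-34,14⟩,⟨-14,119,122⟩,⟨34,-118,119⟩⟩ (13,[(4,3340),(3,260),(1,7)]) (23,[(4,10814),(3,15075),(0,122)]) (23,[(4,9452),(3,20088),(0,119)])))) (.node ⟨-167,26,26⟩ (.leaf false ⟨⟨-167,26,26⟩,⟨-26,-169,2⟩,⟨-26,2,-169⟩⟩ (1,[(0,1)]) (167,[(1,342),(0,26),(2,28899)]) (167,[(1,28899),(0,26),(2,342)])) (.node ⟨-86,-146,23⟩ (.leaf false ⟨⟨-86,-146,23⟩,⟨-41,-2,-166⟩,⟨142,-89,-34⟩⟩ (1,[(0,1)]) (13,[(2,2132),(4,700),(1,1)]) (26618,[(2,423909),(0,11171),(1,28386)]))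 (.leaf false ⟨⟨-167,-34,-14⟩,⟨-14,119,-122⟩,⟨34,-118,-119⟩⟩ (13,[(4,3340),(3,260),(1,7)]) (23,[(4,10814),(3,15075),(0,122)]) (23,[(4,9452),(3,20088),(0,119)]))))))
theorem pb171_ok : pb171.check (ok 171 6 ⟨5, 3, 3⟩) (fun _ r => r) [] = true := by decide +kernel

def pc171 : T := .node ⟨1,0,0⟩ (.node ⟨0,1,0⟩ (.node ⟨0,0,1⟩ (.node ⟨-121,50,110⟩ (.node ⟨119,98,-74⟩ (.node ⟨-106,134,7⟩ (.leaf false ⟨⟨-106,134,7⟩,⟨62,41,154⟩,⟨119,98,-74⟩⟩ (1,[(0,1)]) (50,[(3,3190),(5,8061),(2,41)]) (1,[(1,1)])) (.leaf false ⟨⟨-121,50,110⟩,⟨50,-121,110⟩,⟨110,110,71⟩⟩ (1,[(2,1)]) (11488,[(1,3577),(2,15079),(0,18616)]) (1436,[(1,2593),(2,2783),(0,1756)]))) (.leaf false ⟨⟨-121,50,110⟩,⟨50,-121,110⟩,⟨110,110,71⟩⟩ (37,[(4,2068),(3,7240),(0,55)])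 (37,[(4,8395),(3,913),(0,55)]) (74,[(4,16589),(3,15098),(0,71)]))) (.node ⟨134,-106,7⟩ (.leaf false ⟨⟨41,62,154⟩,⟨98,119,-74⟩,⟨134,-106,7⟩⟩ (134,[(2,20349),(0,41),(3,12654)]) (121,[(2,1826),(1,98),(3,19299)]) (1,[(0,1)])) (.leaf false ⟨⟨-121,110,50⟩,⟨50,110,-121⟩,⟨110,71,110⟩⟩ (1021,[(2,94610),(1,319),(0,1210)]) (1021,[(2,262304),(1,3340),(0,2635)]) (2042,[(2,1033879),(1,7058),(0,4697)])))) (.node ⟨-121,50,-110⟩ (.node ⟨119,98,74⟩ (.node ⟨-106,134,-7⟩ (.leaf false ⟨⟨-106,134,-7⟩,⟨62,41,-154⟩,⟨119,98,74⟩⟩ (1,[(0,1)]) (50,[(3,3190),(5,8061),(2,41)]) (1,[(1,1)])) (.leaf false ⟨⟨-121,50,-110⟩,⟨50,-121,-110⟩,⟨110,110,-71⟩⟩ (1,[(2,1)]) (11488,[(1,3577),(2,15079),(0,18616)]) (1436,[(1,2593),(2,2783),(0,1756)]))) (.leaf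 false ⟨⟨-121,50,-110⟩,⟨50,-121,-110⟩,⟨110,110,-71⟩⟩ (37,[(4,2068),(3,7240),(0,55)]) (37,[(4,8395),(3,913),(0,55)]) (74,[(4,16589),(3,15098),(0,71)]))) (.node ⟨134,-106,-7⟩ (.leaf false ⟨⟨41,62,-154⟩,⟨98,119,74⟩,⟨134,-106,-7⟩⟩ (134,[(2,20349),(0,41),(3,12654)]) (121,[(2,1826),(1,98),(3,19299)]) (1,[(0,1)])) (.leaf false ⟨⟨-121,110,-50⟩,⟨50,110,121⟩,⟨110,71,-110⟩⟩ (1021,[(2,94610),(1,319),(0,1210)]) (1021,[(2,262304),(1,3340),(0,2635)]) (2042,[(2,1033879),(1,7058),(0,4697)]))))) (.node ⟨0,0,1⟩ (.node ⟨167,26,-26⟩ (.leaf false ⟨⟨26,-169,-2⟩,⟨26,2,169⟩,⟨167,26,-26⟩⟩ (167,[(1,342),(0,26),(2,28899)]) (167,[(1,28899),(0,26),(2,342)]) (1,[(0,1)])) (.node ⟨86,23,146⟩ (.leaf false ⟨⟨-142,-34,89⟩,⟨41,-166,2⟩,⟨86,23,146⟩⟩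 (4394,[(4,423909),(1,7011),(0,1430)]) (13,[(4,700),(3,2132),(1,1)]) (1,[(0,1)])) (.leaf false ⟨⟨-154,-25,70⟩,⟨-55,-70,-146⟩,⟨50,-154,55⟩⟩ (26,[(2,1170),(4,171),(1,25)]) (23,[(2,6862),(4,4755),(0,70)]) (23,[(2,23749),(4,14394),(0,154)])))) (.node ⟨167,26,26⟩ (.leaf false ⟨⟨26,-169,2⟩,⟨26,2,-169⟩,⟨167,26,26⟩⟩ (167,[(1,342),(0,26),(2,28899)]) (167,[(1,28899),(0,26),(2,342)]) (1,[(0,1)])) (.node ⟨86,23,-146⟩ (.leaf false ⟨⟨-142,-34,-89⟩,⟨41,-166,-2⟩,⟨86,23,-146⟩⟩ (4394,[(4,423909),(1,7011),(0,1430)]) (13,[(4,700),(3,2132),(1,1)]) (1,[(0,1)])) (.leaf false ⟨⟨-154,-25,-70⟩,⟨-55,-70,146⟩,⟨50,-154,-55⟩⟩ (26,[(2,1170),(4,171),(1,25)]) (23,[(2,6862),(4,4755),(0,70)]) (23,[(2,23749),(4,14394),(0,154)])))))) (.node ⟨0,1,0⟩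 (.node ⟨0,0,1⟩ (.node ⟨26,167,-26⟩ (.leaf false ⟨⟨-169,26,-2⟩,⟨2,26,169⟩,⟨26,167,-26⟩⟩ (167,[(1,342),(3,28899),(0,26)]) (167,[(1,28899),(3,342),(0,26)]) (1,[(0,1)])) (.node ⟨23,86,146⟩ (.leaf false ⟨⟨-166,41,2⟩,⟨-34,-142,89⟩,⟨23,86,146⟩⟩ (13,[(1,1),(4,2132),(3,700)]) (26618,[(1,28386),(4,423909),(0,11171)]) (1,[(0,1)])) (.leaf false ⟨⟨-154,-55,-50⟩,⟨-70,146,55⟩,⟨-25,-70,154⟩⟩ (23,[(2,21334),(0,154),(3,11979)]) (23,[(2,11485),(0,70),(3,9378)]) (26,[(2,3354),(1,25),(3,2355)])))) (.node ⟨26,167,26⟩ (.leaf false ⟨⟨-169,26,2⟩,⟨2,26,-169⟩,⟨26,167,26⟩⟩ (167,[(1,342),(3,28899),(0,26)]) (167,[(1,28899),(3,342),(0,26)]) (1,[(0,1)])) (.node ⟨23,86,-146⟩ (.leaf false ⟨⟨-166,41,-2⟩,⟨-34,-142,-89⟩,⟨23,86,-146⟩⟩ (13,[(1,1),(4,2132),(3,700)])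 (26618,[(1,28386),(4,423909),(0,11171)]) (1,[(0,1)])) (.leaf false ⟨⟨-154,-55,-50⟩,⟨-70,146,55⟩,⟨-25,-70,154⟩⟩ (23,[(2,23634),(0,154),(3,11979)]) (23,[(2,8955),(0,70),(3,9378)]) (23,[(2,108),(0,25),(3,540)]))))) (.node ⟨0,0,1⟩ (.node ⟨26,26,167⟩ (.leaf false ⟨⟨-169,2,26⟩,⟨2,-169,26⟩,⟨26,26,167⟩⟩ (167,[(3,28899),(2,342),(0,26)]) (167,[(3,342),(2,28899),(0,26)]) (1,[(0,1)])) (.node ⟨50,-154,55⟩ (.leaf false ⟨⟨-154,-25,70⟩,⟨-55,-70,-146⟩,⟨50,-154,55⟩⟩ (26,[(2,5995),(4,3354),(1,25)]) (884,[(2,200526),(1,1995),(0,65)]) (1,[(0,1)])) (.leaf false ⟨⟨-154,-55,-50⟩,⟨-70,146,55⟩,⟨-25,-70,154⟩⟩ (25,[(2,2985),(0,77),(3,13233)]) (5,[(2,660),(0,7),(3,348)]) (2,[(2,363),(0,1),(3,294)])))) (.node ⟨26,26,-167⟩ (.leaf false ⟨⟨-169,2,-26⟩,⟨2,-169,-26⟩,⟨26,26,-167⟩⟩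 (167,[(3,28899),(2,342),(0,26)]) (167,[(3,342),(2,28899),(0,26)]) (1,[(0,1)])) (.node ⟨50,-154,-55⟩ (.leaf false ⟨⟨-154,-25,-70⟩,⟨-55,-70,146⟩,⟨50,-154,-55⟩⟩ (26,[(2,5995),(4,3354),(1,25)]) (884,[(2,200526),(1,1995),(0,65)]) (1,[(0,1)])) (.leaf false ⟨⟨-154,-55,-50⟩,⟨-70,146,55⟩,⟨-25,-70,154⟩⟩ (25,[(2,5485),(0,77),(3,13233)]) (5,[(2,110),(0,7),(3,348)]) (26,[(2,171),(1,25),(3,1170)]))))))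
theorem pc171_ok : pc171.check (ok 171 6 ⟨5, 5, 3⟩) (fun _ r => r) [] = true := by decide +kernel

def pa201 : T := .node ⟨1,0,0⟩ (.node ⟨0,1,0⟩ (.node ⟨0,0,1⟩ (.node ⟨-56,28,191⟩ (.node ⟨191,28,-56⟩ (.node ⟨-28,199,4⟩ (.leaf false ⟨⟨-28,199,4⟩,⟨56,4,193⟩,⟨191,28,-56⟩⟩ (1,[(0,1)]) (7,[(3,1160),(5,448),(2,1)]) (1,[(1,1)])) (.leaf false ⟨⟨-44,112,161⟩,⟨7,-164,116⟩,⟨196,31,32⟩⟩ (427,[(4,47865),(2,361),(0,51)]) (244,[(4,29843),(2,156),(0,373)]) (61,[(4,94264),(2,20),(0,467)]))) (.leaf false ⟨⟨-164,7,116⟩,⟨31,196,32⟩,⟨112,-44,161⟩⟩ (14,[(4,3243),(3,910),(0,29)]) (7,[(4,981),(3,1484),(0,4)]) (8,[(4,5289),(3,292),(0,23)]))) (.leaf false ⟨⟨1,172,104⟩,⟨136,76,-127⟩,⟨148,-71,116⟩⟩ (56,[(1,6015),(0,1),(2,9660)]) (7,[(1,2358),(0,17),(2,1008)])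 (14,[(1,8691),(0,37),(2,42)]))) (.node ⟨-95,20,-176⟩ (.node ⟨160,95,76⟩ (.node ⟨-95,176,-20⟩ (.leaf false ⟨⟨-95,176,-20⟩,⟨76,20,-185⟩,⟨160,95,76⟩⟩ (1,[(0,1)]) (1,[(3,9),(5,171),(2,1)]) (1,[(1,1)])) (.leaf false ⟨⟨-95,20,-176⟩,⟨76,185,-20⟩,⟨160,-76,-95⟩⟩ (1,[(2,1)]) (65,[(4,23517),(2,15),(0,67)]) (52,[(1,52),(2,57),(0,57)]))) (.leaf false ⟨⟨-176,-31,-92⟩,⟨4,188,-71⟩,⟨97,-64,-164⟩⟩ (19,[(4,336),(3,1596),(0,23)]) (76,[(4,11664),(3,21033),(0,71)]) (19,[(4,8403),(3,2679),(0,41)]))) (.node ⟨161,-44,112⟩ (.leaf false ⟨⟨32,196,31⟩,⟨116,7,-164⟩,⟨161,-44,112⟩⟩ (95,[(2,2687),(1,32),(3,19260)]) (95,[(2,35996),(1,116),(3,2985)]) (1,[(0,1)])) (.leaf false ⟨⟨-188,71,4⟩,⟨31,92,-176⟩,⟨64,164,97⟩⟩ (320,[(2,72608),(1,1053),(0,995)])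 (20,[(2,40992),(1,337),(0,195)]) (16,[(2,52688),(1,487),(0,281)]))))) (.node ⟨0,0,1⟩ (.node ⟨-95,-176,20⟩ (.node ⟨160,76,95⟩ (.node ⟨-95,-20,176⟩ (.leaf false ⟨⟨-95,-20,176⟩,⟨76,-185,20⟩,⟨160,76,95⟩⟩ (1,[(0,1)]) (1,[(5,171),(4,9),(2,1)]) (1,[(1,1)])) (.leaf false ⟨⟨-95,-176,20⟩,⟨76,-20,185⟩,⟨160,-95,-76⟩⟩ (1,[(2,1)]) (65,[(3,23517),(0,67),(2,15)]) (52,[(1,52),(0,57),(2,57)]))) (.leaf false ⟨⟨-176,-92,-31⟩,⟨4,-71,188⟩,⟨97,-164,-64⟩⟩ (19,[(2,1596),(4,336),(0,23)]) (76,[(2,21033),(4,11664),(0,71)]) (19,[(2,2679),(4,8403),(0,41)]))) (.node ⟨161,112,-44⟩ (.leaf false ⟨⟨32,31,196⟩,⟨116,-164,7⟩,⟨161,112,-44⟩⟩ (95,[(2,19260),(1,32),(3,2687)]) (95,[(2,2985),(1,116),(3,35996)]) (1,[(0,1)])) (.leaf false ⟨⟨-188,4,71⟩,⟨31,-176,92⟩,⟨64,97,164⟩⟩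 (320,[(1,1053),(3,72608),(0,995)]) (20,[(1,337),(3,40992),(0,195)]) (16,[(1,487),(3,52688),(0,281)])))) (.node ⟨-56,-191,-28⟩ (.node ⟨28,56,-191⟩ (.node ⟨199,-4,28⟩ (.leaf false ⟨⟨4,-193,-56⟩,⟨28,56,-191⟩,⟨199,-4,28⟩⟩ (7,[(3,201),(1,1),(4,1407)]) (1,[(1,1)]) (1,[(0,1)])) (.leaf false ⟨⟨-164,-7,-116⟩,⟨31,-196,-32⟩,⟨112,44,-161⟩⟩ (7,[(5,4623),(4,165),(0,29)]) (7,[(5,1809),(4,1404),(0,8)]) (67,[(1,49),(5,16281),(0,51)]))) (.leaf false ⟨⟨-71,-148,-116⟩,⟨76,-136,127⟩,⟨172,-1,-104⟩⟩ (14,[(2,8691),(4,42),(0,37)]) (7,[(2,2358),(4,1008),(0,17)]) (56,[(2,6015),(4,9660),(0,1)]))) (.leaf false ⟨⟨1,-104,-172⟩,⟨136,127,-76⟩,⟨148,-116,71⟩⟩ (56,[(1,9660),(0,1),(2,6015)]) (7,[(1,1008),(0,17),(2,2358)]) (14,[(1,42),(0,37),(2,8691)])))))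 (.node ⟨0,1,0⟩ (.node ⟨0,0,1⟩ (.node ⟨-20,176,-95⟩ (.node ⟨-95,-76,160⟩ (.node ⟨-176,20,-95⟩ (.leaf false ⟨⟨-176,20,-95⟩,⟨-95,-76,160⟩,⟨-20,185,76⟩⟩ (1,[(0,1)]) (1,[(1,1)]) (1,[(3,171),(2,1),(4,9)])) (.leaf false ⟨⟨-185,20,76⟩,⟨-20,176,-95⟩,⟨76,95,160⟩⟩ (65,[(5,23517),(2,15),(0,67)]) (1,[(2,1)]) (52,[(1,52),(2,57),(0,57)]))) (.leaf false ⟨⟨-188,71,4⟩,⟨31,92,-176⟩,⟨64,164,97⟩⟩ (76,[(2,11664),(4,21033),(0,71)]) (19,[(2,336),(4,1596),(0,23)]) (19,[(2,8403),(4,2679),(0,41)]))) (.node ⟨88,-64,169⟩ (.leaf false ⟨⟨-176,-73,64⟩,⟨-41,176,88⟩,⟨88,-64,169⟩⟩ (95,[(4,18000),(3,4329),(1,64)]) (95,[(4,5655),(3,32208),(1,88)]) (1,[(0,1)])) (.leaf false ⟨⟨-200,-20,-1⟩,⟨-20,199,20⟩,⟨1,-20,200⟩⟩ (1245,[(3,1154748),(1,8428),(0,4745)])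 (249,[(3,87423),(1,257),(0,115)]) (4980,[(3,2718336),(1,17431),(0,3905)])))) (.node ⟨-28,-56,-191⟩ (.node ⟨-191,28,56⟩ (.node ⟨28,199,-4⟩ (.leaf false ⟨⟨-191,28,56⟩,⟨-56,4,-193⟩,⟨28,199,-4⟩⟩ (1,[(1,1)]) (7,[(3,1407),(5,201),(1,1)]) (1,[(0,1)])) (.leaf false ⟨⟨-199,4,28⟩,⟨-28,-56,-191⟩,⟨-4,193,-56⟩⟩ (28,[(3,12),(0,199),(4,39713)]) (1,[(3,195),(0,1),(4,143)]) (7,[(3,396),(0,1),(4,1550)]))) (.leaf false ⟨⟨-176,-31,-92⟩,⟨4,188,-71⟩,⟨97,-64,-164⟩⟩ (14,[(4,6857),(3,210),(0,23)]) (56,[(4,13337),(3,12516),(0,71)]) (14,[(4,6473),(3,252),(0,41)]))) (.leaf false ⟨⟨-191,28,56⟩,⟨-56,4,-193⟩,⟨28,199,-4⟩⟩ (2,[(1,79),(3,410),(0,1)]) (14,[(1,2893),(3,812),(0,1)]) (56,[(1,38233),(3,4004),(0,199)])))) (.node ⟨0,0,1⟩ (.node ⟨-28,-191,-56⟩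 (.node ⟨-191,56,28⟩ (.node ⟨28,-4,199⟩ (.leaf false ⟨⟨-191,56,28⟩,⟨-56,-193,4⟩,⟨28,-4,199⟩⟩ (1,[(1,1)]) (7,[(1,1),(5,201),(4,1407)]) (1,[(0,1)])) (.leaf false ⟨⟨-199,28,4⟩,⟨-28,-191,-56⟩,⟨-4,-56,193⟩⟩ (28,[(3,39713),(0,199),(4,12)]) (1,[(3,143),(0,1),(4,195)]) (7,[(3,1550),(0,1),(4,396)]))) (.leaf false ⟨⟨-176,-92,-31⟩,⟨4,-71,188⟩,⟨97,-164,-64⟩⟩ (14,[(2,210),(4,6857),(0,23)]) (56,[(2,12516),(4,13337),(0,71)]) (14,[(2,252),(4,6473),(0,41)]))) (.leaf false ⟨⟨-191,56,28⟩,⟨-56,-193,4⟩,⟨28,-4,199⟩⟩ (2,[(3,410),(2,79),(0,1)]) (14,[(3,812),(2,2893),(0,1)]) (56,[(3,4004),(2,38233),(0,199)]))) (.node ⟨-20,95,-176⟩ (.node ⟨-95,-160,76⟩ (.node ⟨-176,95,-20⟩ (.leaf false ⟨⟨-176,95,-20⟩,⟨-95,-160,76⟩,⟨-20,-76,-185⟩⟩ (1,[(0,1)])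 (1,[(1,1)]) (1,[(3,9),(2,1),(4,171)])) (.leaf false ⟨⟨-199,-20,-20⟩,⟨20,-200,1⟩,⟨20,1,-200⟩⟩ (1047,[(2,236),(5,177888),(1,271)]) (344916,[(2,195841),(1,386932),(0,270305)]) (285,[(2,365),(5,50712),(0,362)]))) (.leaf false ⟨⟨-196,31,-32⟩,⟨-7,-164,-116⟩,⟨44,112,-161⟩⟩ (19,[(4,4484),(3,691),(0,8)]) (19,[(4,2888),(3,7756),(0,29)]) (76,[(4,11951),(3,17248),(0,161)]))) (.node ⟨44,-161,112⟩ (.leaf false ⟨⟨-196,-32,31⟩,⟨-7,-116,-164⟩,⟨44,-161,112⟩⟩ (95,[(2,2687),(4,19260),(1,32)]) (95,[(2,35996),(4,2985),(1,116)]) (1,[(0,1)])) (.leaf false ⟨⟨-200,1,20⟩,⟨-20,-20,-199⟩,⟨1,-200,20⟩⟩ (240,[(2,878624),(0,4745),(1,8039)]) (48,[(2,32752),(0,115),(1,205)]) (960,[(2,1063904),(0,3905),(1,8639)]))))))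
theorem pa201_ok : pa201.check (ok 201 6 ⟨5, 5, 5⟩) (fun _ r => r) [] = true := by decide +kernel

def pb201 : T := .node ⟨1,0,0⟩ (.node ⟨0,1,0⟩ (.node ⟨0,0,1⟩ (.node ⟨-56,28,191⟩ (.node ⟨28,191,-56⟩ (.node ⟨199,-28,4⟩ (.leaf false ⟨⟨4,56,193⟩,⟨28,191,-56⟩,⟨199,-28,4⟩⟩ (7,[(3,1407),(1,1),(4,201)]) (1,[(1,1)]) (1,[(0,1)])) (.leaf false ⟨⟨-164,116,7⟩,⟨31,32,196⟩,⟨112,161,-44⟩⟩ (7,[(3,165),(5,4623),(0,29)]) (7,[(3,1404),(5,1809),(0,8)]) (67,[(5,16281),(1,49),(0,51)]))) (.leaf false ⟨⟨-71,116,148⟩,⟨76,-127,136⟩,⟨172,104,1⟩⟩ (14,[(4,42),(3,8691),(0,37)]) (7,[(4,1008),(3,2358),(0,17)]) (56,[(4,9660),(3,6015),(0,1)]))) (.leaf false ⟨⟨1,172,104⟩,⟨136,76,-127⟩,⟨148,-71,116⟩⟩ (56,[(1,6015),(0,1),(2,9660)]) (7,[(1,2358),(0,17),(2,1008)])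 (14,[(1,8691),(0,37),(2,42)]))) (.node ⟨-56,28,-191⟩ (.node ⟨28,191,56⟩ (.node ⟨199,-28,-4⟩ (.leaf false ⟨⟨4,56,-193⟩,⟨28,191,56⟩,⟨199,-28,-4⟩⟩ (7,[(3,1407),(1,1),(4,201)]) (1,[(1,1)]) (1,[(0,1)])) (.leaf false ⟨⟨-164,116,-7⟩,⟨31,32,-196⟩,⟨112,161,44⟩⟩ (7,[(3,165),(5,4623),(0,29)]) (7,[(3,1404),(5,1809),(0,8)]) (67,[(5,16281),(1,49),(0,51)]))) (.leaf false ⟨⟨-71,116,-148⟩,⟨76,-127,-136⟩,⟨172,104,-1⟩⟩ (14,[(4,42),(3,8691),(0,37)]) (7,[(4,1008),(3,2358),(0,17)]) (56,[(4,9660),(3,6015),(0,1)]))) (.leaf false ⟨⟨1,172,-104⟩,⟨136,76,127⟩,⟨148,-71,-116⟩⟩ (56,[(1,6015),(0,1),(2,9660)]) (7,[(1,2358),(0,17),(2,1008)]) (14,[(1,8691),(0,37),(2,42)])))) (.node ⟨0,0,1⟩ (.node ⟨-56,-191,28⟩ (.node ⟨28,56,191⟩ (.node ⟨199,-4,-28⟩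 (.leaf false ⟨⟨4,-193,56⟩,⟨28,56,191⟩,⟨199,-4,-28⟩⟩ (7,[(3,201),(1,1),(4,1407)]) (1,[(1,1)]) (1,[(0,1)])) (.leaf false ⟨⟨-164,-7,116⟩,⟨31,-196,32⟩,⟨112,44,161⟩⟩ (7,[(5,4623),(4,165),(0,29)]) (7,[(5,1809),(4,1404),(0,8)]) (67,[(1,49),(5,16281),(0,51)]))) (.leaf false ⟨⟨-71,-148,116⟩,⟨76,-136,-127⟩,⟨172,-1,104⟩⟩ (14,[(2,8691),(4,42),(0,37)]) (7,[(2,2358),(4,1008),(0,17)]) (56,[(2,6015),(4,9660),(0,1)]))) (.leaf false ⟨⟨1,-104,172⟩,⟨136,127,76⟩,⟨148,-116,-71⟩⟩ (56,[(1,9660),(0,1),(2,6015)]) (7,[(1,1008),(0,17),(2,2358)]) (14,[(1,42),(0,37),(2,8691)]))) (.node ⟨-56,-191,-28⟩ (.node ⟨28,56,-191⟩ (.node ⟨199,-4,28⟩ (.leaf false ⟨⟨4,-193,-56⟩,⟨28,56,-191⟩,⟨199,-4,28⟩⟩ (7,[(3,201),(1,1),(4,1407)]) (1,[(1,1)]) (1,[(0,1)]))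 (.leaf false ⟨⟨-164,-7,-116⟩,⟨31,-196,-32⟩,⟨112,44,-161⟩⟩ (7,[(5,4623),(4,165),(0,29)]) (7,[(5,1809),(4,1404),(0,8)]) (67,[(1,49),(5,16281),(0,51)]))) (.leaf false ⟨⟨-71,-148,-116⟩,⟨76,-136,127⟩,⟨172,-1,-104⟩⟩ (14,[(2,8691),(4,42),(0,37)]) (7,[(2,2358),(4,1008),(0,17)]) (56,[(2,6015),(4,9660),(0,1)]))) (.leaf false ⟨⟨1,-104,-172⟩,⟨136,127,-76⟩,⟨148,-116,71⟩⟩ (56,[(1,9660),(0,1),(2,6015)]) (7,[(1,1008),(0,17),(2,2358)]) (14,[(1,42),(0,37),(2,8691)]))))) (.node ⟨0,1,0⟩ (.node ⟨0,0,1⟩ (.node ⟨-191,-56,28⟩ (.node ⟨-20,-95,176⟩ (.node ⟨28,4,199⟩ (.leaf false ⟨⟨-191,-56,28⟩,⟨-56,193,4⟩,⟨28,4,199⟩⟩ (1,[(2,1)]) (7,[(2,1),(5,201),(4,1407)]) (1,[(0,1)])) (.leaf false ⟨⟨-176,-95,20⟩,⟨-95,160,-76⟩,⟨-20,76,185⟩⟩ (215,[(3,221377),(1,163),(0,1235)])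 (28,[(3,16777),(0,95),(4,4860)]) (1,[(3,9),(1,1),(4,171)]))) (.leaf false ⟨⟨-200,-1,-20⟩,⟨-20,20,199⟩,⟨1,200,-20⟩⟩ (17025,[(2,1065644),(1,18980),(0,11009)]) (3405,[(2,838603),(1,460),(0,988)]) (17025,[(2,6263504),(1,3905),(0,38144)]))) (.leaf false ⟨⟨-176,92,-31⟩,⟨4,71,188⟩,⟨97,164,-64⟩⟩ (14,[(1,210),(3,6857),(0,23)]) (56,[(1,12516),(3,13337),(0,71)]) (14,[(1,252),(3,6473),(0,41)]))) (.node ⟨-191,-56,-28⟩ (.node ⟨-20,-95,-176⟩ (.node ⟨28,4,-199⟩ (.leaf false ⟨⟨-191,-56,-28⟩,⟨-56,193,-4⟩,⟨28,4,-199⟩⟩ (1,[(2,1)]) (7,[(2,1),(5,201),(4,1407)]) (1,[(0,1)])) (.leaf false ⟨⟨-176,-95,-20⟩,⟨-95,160,76⟩,⟨-20,76,-185⟩⟩ (215,[(3,221377),(1,163),(0,1235)]) (28,[(3,16777),(0,95),(4,4860)]) (1,[(3,9),(1,1),(4,171)]))) (.leaf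 false ⟨⟨-200,-1,20⟩,⟨-20,20,-199⟩,⟨1,200,20⟩⟩ (17025,[(2,1065644),(1,18980),(0,11009)]) (3405,[(2,838603),(1,460),(0,988)]) (17025,[(2,6263504),(1,3905),(0,38144)]))) (.leaf false ⟨⟨-176,92,31⟩,⟨4,71,-188⟩,⟨97,164,64⟩⟩ (14,[(1,210),(3,6857),(0,23)]) (56,[(1,12516),(3,13337),(0,71)]) (14,[(1,252),(3,6473),(0,41)])))) (.node ⟨0,0,1⟩ (.node ⟨-191,-28,-56⟩ (.node ⟨-20,-176,-95⟩ (.node ⟨28,-199,4⟩ (.leaf false ⟨⟨-191,-28,-56⟩,⟨-56,-4,193⟩,⟨28,-199,4⟩⟩ (1,[(2,1)]) (7,[(3,1407),(5,201),(2,1)]) (1,[(0,1)])) (.leaf false ⟨⟨-176,-95,20⟩,⟨-95,160,-76⟩,⟨-20,76,185⟩⟩ (7,[(3,316),(0,44),(4,9421)]) (8908,[(3,773047),(0,19920),(1,14425)]) (7,[(3,1315),(0,5),(4,463)]))) (.leaf false ⟨⟨-200,20,-1⟩,⟨-20,-199,20⟩,⟨1,20,200⟩⟩ (17025,[(1,18980),(3,1065644),(0,11009)])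 (3405,[(1,460),(3,838603),(0,988)]) (17025,[(1,3905),(3,6263504),(0,38144)]))) (.leaf false ⟨⟨-176,31,92⟩,⟨4,-188,71⟩,⟨97,64,164⟩⟩ (14,[(3,6857),(2,210),(0,23)]) (56,[(3,13337),(2,12516),(0,71)]) (14,[(3,6473),(2,252),(0,41)]))) (.node ⟨-191,-28,56⟩ (.node ⟨-20,-176,95⟩ (.node ⟨28,-199,-4⟩ (.leaf false ⟨⟨-191,-28,56⟩,⟨-56,-4,-193⟩,⟨28,-199,-4⟩⟩ (1,[(2,1)]) (7,[(3,1407),(5,201),(2,1)]) (1,[(0,1)])) (.leaf false ⟨⟨-176,-95,-20⟩,⟨-95,160,76⟩,⟨-20,76,-185⟩⟩ (7,[(3,316),(0,44),(4,9421)]) (8908,[(3,773047),(0,19920),(1,14425)]) (7,[(3,1315),(0,5),(4,463)]))) (.leaf false ⟨⟨-200,20,1⟩,⟨-20,-199,-20⟩,⟨1,20,-200⟩⟩ (17025,[(1,18980),(3,1065644),(0,11009)]) (3405,[(1,460),(3,838603),(0,988)]) (17025,[(1,3905),(3,6263504),(0,38144)])))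 (.leaf false ⟨⟨-176,31,-92⟩,⟨4,-188,-71⟩,⟨97,64,-164⟩⟩ (14,[(3,6857),(2,210),(0,23)]) (56,[(3,13337),(2,12516),(0,71)]) (14,[(3,6473),(2,252),(0,41)])))))
theorem pb201_ok : pb201.check (ok 201 6 ⟨5, 3, 3⟩) (fun _ r => r) [] = true := by decide +kernel

def pc201 : T := .node ⟨1,0,0⟩ (.node ⟨0,1,0⟩ (.node ⟨0,0,1⟩ (.node ⟨20,176,-95⟩ (.node ⟨95,-76,160⟩ (.node ⟨176,20,-95⟩ (.leaf false ⟨⟨20,185,76⟩,⟨95,-76,160⟩,⟨176,20,-95⟩⟩ (1,[(3,171),(2,1),(4,9)]) (1,[(1,1)]) (1,[(0,1)])) (.leaf false ⟨⟨-112,164,31⟩,⟨44,-7,196⟩,⟨161,116,-32⟩⟩ (47905,[(1,15912),(2,56682),(0,45515)]) (191620,[(1,242268),(2,107803),(0,95115)]) (1745,[(1,449),(5,211410),(2,1344)]))) (.leaf false ⟨⟨-136,119,88⟩,⟨56,152,-119⟩,⟨137,56,136⟩⟩ (76,[(2,25728),(4,969),(0,119)])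 (1,[(2,201),(4,246),(0,2)]) (19,[(2,4824),(4,3933),(0,14)]))) (.node ⟨-88,-64,169⟩ (.leaf false ⟨⟨-88,-64,169⟩,⟨41,176,88⟩,⟨176,-73,64⟩⟩ (1,[(0,1)]) (95,[(4,5655),(3,32208),(1,88)]) (95,[(4,18000),(3,4329),(1,64)])) (.leaf false ⟨⟨-31,-64,188⟩,⟨92,164,71⟩,⟨176,-97,-4⟩⟩ (996,[(3,323760),(1,2261),(0,163)]) (1245,[(3,1000644),(1,5449),(0,2540)]) (1245,[(3,906243),(1,7348),(0,4160)])))) (.node ⟨20,176,95⟩ (.node ⟨95,-76,-160⟩ (.node ⟨176,20,95⟩ (.leaf false ⟨⟨20,185,-76⟩,⟨95,-76,-160⟩,⟨176,20,95⟩⟩ (1,[(3,171),(2,1),(4,9)]) (1,[(1,1)]) (1,[(0,1)])) (.leaf false ⟨⟨-112,164,-31⟩,⟨44,-7,-196⟩,⟨161,116,32⟩⟩ (47905,[(1,15912),(2,56682),(0,45515)]) (191620,[(1,242268),(2,107803),(0,95115)]) (1745,[(1,449),(5,211410),(2,1344)])))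 (.leaf false ⟨⟨-136,119,-88⟩,⟨56,152,119⟩,⟨137,56,-136⟩⟩ (76,[(2,25728),(4,969),(0,119)]) (1,[(2,201),(4,246),(0,2)]) (19,[(2,4824),(4,3933),(0,14)]))) (.node ⟨-88,-64,-169⟩ (.leaf false ⟨⟨-88,-64,-169⟩,⟨41,176,-88⟩,⟨176,-73,-64⟩⟩ (1,[(0,1)]) (95,[(4,5655),(3,32208),(1,88)]) (95,[(4,18000),(3,4329),(1,64)])) (.leaf false ⟨⟨-31,-64,-188⟩,⟨92,164,-71⟩,⟨176,-97,4⟩⟩ (996,[(3,323760),(1,2261),(0,163)]) (1245,[(3,1000644),(1,5449),(0,2540)]) (1245,[(3,906243),(1,7348),(0,4160)]))))) (.node ⟨0,0,1⟩ (.node ⟨191,-28,-56⟩ (.node ⟨-28,-199,4⟩ (.leaf false ⟨⟨-28,-199,4⟩,⟨56,-4,193⟩,⟨191,-28,-56⟩⟩ (1,[(0,1)]) (7,[(2,1407),(4,201),(1,1)]) (1,[(1,1)])) (.leaf false ⟨⟨32,-31,196⟩,⟨116,164,7⟩,⟨161,-112,-44⟩⟩ (7,[(2,1404),(0,8),(3,1809)])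 (7,[(2,165),(0,29),(3,4623)]) (67,[(0,51),(1,49),(3,16281)]))) (.leaf false ⟨⟨-127,-76,136⟩,⟨104,-172,1⟩,⟨116,71,148⟩⟩ (7,[(3,2358),(2,1008),(0,17)]) (56,[(3,6015),(2,9660),(0,1)]) (14,[(3,8691),(2,42),(0,37)]))) (.node ⟨191,-28,56⟩ (.node ⟨-28,-199,-4⟩ (.leaf false ⟨⟨-28,-199,-4⟩,⟨56,-4,-193⟩,⟨191,-28,56⟩⟩ (1,[(0,1)]) (7,[(2,1407),(4,201),(1,1)]) (1,[(1,1)])) (.leaf false ⟨⟨32,-31,-196⟩,⟨116,164,-7⟩,⟨161,-112,44⟩⟩ (7,[(2,1404),(0,8),(3,1809)]) (7,[(2,165),(0,29),(3,4623)]) (67,[(0,51),(1,49),(3,16281)]))) (.leaf false ⟨⟨-127,-76,-136⟩,⟨104,-172,-1⟩,⟨116,71,-148⟩⟩ (7,[(3,2358),(2,1008),(0,17)]) (56,[(3,6015),(2,9660),(0,1)]) (14,[(3,8691),(2,42),(0,37)]))))) (.node ⟨0,1,0⟩ (.node ⟨0,0,1⟩ (.node ⟨-28,191,-56⟩ (.node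 ⟨-199,-28,4⟩ (.leaf false ⟨⟨-199,-28,4⟩,⟨-28,191,-56⟩,⟨-4,56,193⟩⟩ (1,[(0,1)]) (1,[(1,1)]) (7,[(2,1407),(1,1),(3,201)])) (.leaf false ⟨⟨-112,161,-44⟩,⟨-31,32,196⟩,⟨164,116,7⟩⟩ (67,[(4,16281),(1,49),(0,51)]) (7,[(2,1404),(4,1809),(0,8)]) (7,[(2,165),(4,4623),(0,29)]))) (.leaf false ⟨⟨-196,-31,32⟩,⟨-7,164,116⟩,⟨44,-112,161⟩⟩ (7,[(3,1484),(2,547),(0,4)]) (14,[(3,910),(2,7835),(0,29)]) (8,[(3,292),(2,3497),(0,23)]))) (.node ⟨-28,191,56⟩ (.node ⟨-199,-28,-4⟩ (.leaf false ⟨⟨-199,-28,-4⟩,⟨-28,191,56⟩,⟨-4,56,-193⟩⟩ (1,[(0,1)]) (1,[(1,1)]) (7,[(2,1407),(1,1),(3,201)])) (.leaf false ⟨⟨-112,161,44⟩,⟨-31,32,-196⟩,⟨164,116,-7⟩⟩ (67,[(4,16281),(1,49),(0,51)]) (7,[(2,1404),(4,1809),(0,8)]) (7,[(2,165),(4,4623),(0,29)]))) (.leaf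 false ⟨⟨-196,-31,-32⟩,⟨-7,164,-116⟩,⟨44,-112,-161⟩⟩ (7,[(3,1484),(2,547),(0,4)]) (14,[(3,910),(2,7835),(0,29)]) (8,[(3,292),(2,3497),(0,23)])))) (.node ⟨0,0,1⟩ (.node ⟨-28,56,191⟩ (.node ⟨-199,-4,-28⟩ (.leaf false ⟨⟨-199,-4,-28⟩,⟨-28,56,191⟩,⟨-4,-193,56⟩⟩ (1,[(0,1)]) (1,[(1,1)]) (7,[(2,201),(1,1),(3,1407)])) (.leaf false ⟨⟨-112,44,161⟩,⟨-31,-196,32⟩,⟨164,-7,116⟩⟩ (67,[(1,49),(4,16281),(0,51)]) (7,[(4,1809),(3,1404),(0,8)]) (7,[(4,4623),(3,165),(0,29)]))) (.leaf false ⟨⟨-172,-1,104⟩,⟨-76,-136,-127⟩,⟨71,-148,116⟩⟩ (56,[(1,6015),(3,9660),(0,1)]) (7,[(1,2358),(3,1008),(0,17)]) (14,[(1,8691),(3,42),(0,37)]))) (.node ⟨-28,56,-191⟩ (.node ⟨-199,-4,28⟩ (.leaf false ⟨⟨-199,-4,28⟩,⟨-28,56,-191⟩,⟨-4,-193,-56⟩⟩ (1,[(0,1)])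 (1,[(1,1)]) (7,[(2,201),(1,1),(3,1407)])) (.leaf false ⟨⟨-112,44,-161⟩,⟨-31,-196,-32⟩,⟨164,-7,-116⟩⟩ (67,[(1,49),(4,16281),(0,51)]) (7,[(4,1809),(3,1404),(0,8)]) (7,[(4,4623),(3,165),(0,29)]))) (.leaf false ⟨⟨-172,-1,-104⟩,⟨-76,-136,127⟩,⟨71,-148,-116⟩⟩ (56,[(1,6015),(3,9660),(0,1)]) (7,[(1,2358),(3,1008),(0,17)]) (14,[(1,8691),(3,42),(0,37)])))))
theorem pc201_ok : pc201.check (ok 201 6 ⟨5, 5, 3⟩) (fun _ r => r) [] = true := by decide +kernel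


end H34S
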