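import Pool.Agent.Lib.H34S.Cover

/-!
# H34S: certificates (generated), pentagonal numbers
-/

set_option autoImplicit false

namespace H34S

def pf203 : T := .node ⟨1,0,0⟩ (.node ⟨0,1,0⟩ (.node ⟨0,0,1⟩ (.node ⟨-102,57,166⟩ (.node ⟨58,186,-57⟩ (.node ⟨174,-23,102⟩ (.leaf false ⟨⟨-87,78,166⟩,⟨58,186,-57⟩,⟨174,-23,102⟩⟩ (1,[(5,15),(4,21),(2,1)]) (1,[(1,1)]) (1,[(0,1)])) (.leaf false ⟨⟨-186,57,58⟩,⟨-23,102,-174⟩,⟨78,166,87⟩⟩ (23,[(3,7148),(5,5640),(0,57)]) (23,[(3,6402),(5,17219),(0,102)]) (23,[(3,18933),(5,30678),(0,166)]))) (.leaf false ⟨⟨-122,-9,162⟩,⟨9,202,18⟩,⟨162,-18,121⟩⟩ (19,[(4,814),(3,9873),(0,54)]) (19,[(4,519),(3,4954),(0,6)]) (57,[(4,16252),(3,21480),(0,121)]))) (.leaf false ⟨⟨18,202,9⟩,⟨121,-18,162⟩,⟨162,-9,-122⟩⟩ (17,[(1,651),(0,3),(2,3605)])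 (102,[(1,36610),(0,121),(2,5061)]) (17,[(1,2408),(0,27),(2,1386)]))) (.node ⟨-41,18,-198⟩ (.node ⟨-41,198,18⟩ (.node ⟨198,39,22⟩ (.leaf false ⟨⟨-41,198,18⟩,⟨18,22,-201⟩,⟨198,39,22⟩⟩ (1,[(1,1)]) (9,[(3,1827),(5,203),(1,1)]) (1,[(0,1)])) (.leaf false ⟨⟨-194,18,-57⟩,⟨18,-167,-114⟩,⟨57,114,-158⟩⟩ (406,[(5,188587),(1,291),(0,1290)]) (1827,[(5,1985746),(1,386),(0,9783)]) (609,[(5,1194046),(1,1445),(0,5556)]))) (.node ⟨9,-162,-122⟩ (.leaf false ⟨⟨-18,121,-162⟩,⟨9,-162,-122⟩,⟨202,18,-9⟩⟩ (11,[(5,171),(4,1169),(2,9)]) (1,[(0,1)]) (2,[(5,363),(4,234),(1,1)])) (.leaf false ⟨⟨-41,18,-198⟩,⟨-18,201,22⟩,⟨198,22,-39⟩⟩ (1,[(2,1)]) (120,[(2,325),(1,406),(0,609)]) (44640,[(2,1125385),(1,1796956),(0,2077299)])))) (.leaf false ⟨⟨18,202,9⟩,⟨121,-18,162⟩,⟨162,-9,-122⟩⟩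 (41,[(1,3195),(0,18),(2,8606)]) (41,[(1,17316),(0,121),(2,1440)]) (41,[(1,37078),(0,162),(2,2547)])))) (.node ⟨0,0,1⟩ (.node ⟨-41,-198,18⟩ (.node ⟨-41,18,198⟩ (.node ⟨198,22,39⟩ (.leaf false ⟨⟨-41,18,198⟩,⟨18,-201,22⟩,⟨198,22,39⟩⟩ (1,[(1,1)]) (9,[(5,203),(4,1827),(1,1)]) (1,[(0,1)])) (.leaf false ⟨⟨-194,-57,18⟩,⟨18,-114,-167⟩,⟨57,-158,114⟩⟩ (406,[(5,188587),(0,1290),(1,291)]) (1827,[(5,1985746),(0,9783),(1,386)]) (609,[(5,1194046),(0,5556),(1,1445)]))) (.node ⟨9,-122,-162⟩ (.leaf false ⟨⟨-18,-162,121⟩,⟨9,-122,-162⟩,⟨202,-9,18⟩⟩ (11,[(3,1169),(5,171),(2,9)]) (1,[(0,1)]) (2,[(3,234),(5,363),(1,1)])) (.leaf false ⟨⟨-41,-198,18⟩,⟨-18,22,201⟩,⟨198,-39,22⟩⟩ (1,[(2,1)]) (120,[(1,406),(2,325),(0,609)]) (44640,[(1,1796956),(2,1125385),(0,2077299)]))))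 (.leaf false ⟨⟨18,9,202⟩,⟨121,162,-18⟩,⟨162,-122,-9⟩⟩ (41,[(1,8606),(0,18),(2,3195)]) (41,[(1,1440),(0,121),(2,17316)]) (41,[(1,2547),(0,162),(2,37078)]))) (.node ⟨-140,-147,0⟩ (.leaf false ⟨⟨-140,-147,0⟩,⟨0,0,-203⟩,⟨147,-140,0⟩⟩ (1,[(0,1)]) (1,[(1,203)]) (21,[(3,5887),(0,20)])) (.node ⟨130,-135,78⟩ (.leaf false ⟨⟨30,-78,-185⟩,⟨130,-135,78⟩,⟨153,130,-30⟩⟩ (14,[(2,2590),(1,3),(3,1533)]) (1,[(0,1)]) (140,[(2,4200),(1,153),(3,4291)])) (.leaf false ⟨⟨-167,18,-114⟩,⟨18,-194,-57⟩,⟨114,57,-158⟩⟩ (1820,[(1,299),(3,370293),(0,2660)]) (1820,[(1,1469),(3,748573),(0,1330)]) (1365,[(1,3679),(3,836283),(0,2765)])))))) (.node ⟨0,1,0⟩ (.node ⟨0,0,1⟩ (.node ⟨-198,-41,18⟩ (.node ⟨18,-41,198⟩ (.node ⟨22,198,39⟩ (.leaf false ⟨⟨-201,18,22⟩,⟨18,-41,198⟩,⟨22,198,39⟩⟩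 (9,[(5,1827),(4,203),(1,1)]) (1,[(1,1)]) (1,[(0,1)])) (.leaf false ⟨⟨-198,-39,22⟩,⟨-41,198,-18⟩,⟨18,22,201⟩⟩ (1827,[(4,4017370),(1,4103),(0,19800)]) (1218,[(4,772009),(1,401),(0,2598)]) (609,[(4,40600),(1,620),(0,9)]))) (.node ⟨-122,9,-162⟩ (.leaf false ⟨⟨-162,-18,121⟩,⟨-122,9,-162⟩,⟨-9,202,18⟩⟩ (11,[(3,1169),(2,9),(4,171)]) (1,[(0,1)]) (2,[(3,234),(1,1),(4,363)])) (.leaf false ⟨⟨-201,22,18⟩,⟨18,198,-41⟩,⟨22,39,198⟩⟩ (4960,[(2,42535),(1,60516),(0,69789)]) (11160,[(2,244975),(1,399442),(0,458163)]) (248,[(2,2333),(1,3524),(0,4351)])))) (.leaf false ⟨⟨-201,22,18⟩,⟨18,198,-41⟩,⟨22,39,198⟩⟩ (41,[(1,1134),(3,12597),(0,22)]) (41,[(1,1883),(3,38466),(0,198)]) (41,[(1,8820),(3,6820),(0,39)]))) (.node ⟨0,-140,-147⟩ (.leaf false ⟨⟨-203,0,0⟩,⟨0,-140,-147⟩,⟨0,147,-140⟩⟩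 (1,[(3,203)]) (1,[(0,1)]) (21,[(0,20),(2,5887)])) (.node ⟨78,130,-135⟩ (.leaf false ⟨⟨-185,30,-78⟩,⟨-30,153,130⟩,⟨78,130,-135⟩⟩ (14,[(2,1533),(4,2590),(1,3)]) (140,[(2,4291),(4,4200),(1,153)]) (1,[(0,1)])) (.leaf false ⟨⟨-185,-78,-30⟩,⟨-78,135,130⟩,⟨-30,130,-153⟩⟩ (5460,[(2,3232551),(0,12950),(1,8983)]) (28,[(2,7931),(0,28),(1,53)]) (91,[(2,35847),(0,35),(1,117)]))))) (.node ⟨0,0,1⟩ (.node ⟨0,-147,-140⟩ (.leaf false ⟨⟨-203,0,0⟩,⟨0,-147,-140⟩,⟨0,-140,147⟩⟩ (1,[(3,203)]) (1,[(0,1)]) (21,[(1,5887),(0,20)])) (.node ⟨78,-135,130⟩ (.leaf false ⟨⟨-185,-78,30⟩,⟨-30,130,153⟩,⟨78,-135,130⟩⟩ (14,[(1,3),(4,2590),(3,1533)]) (140,[(1,153),(4,4200),(3,4291)]) (1,[(0,1)])) (.leaf false ⟨⟨-185,-30,-78⟩,⟨-78,130,135⟩,⟨-30,-153,130⟩⟩ (5460,[(1,8983),(0,12950),(3,3232551)])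 (28,[(1,53),(0,28),(3,7931)]) (91,[(1,117),(0,35),(3,35847)])))) (.leaf false ⟨⟨-203,0,0⟩,⟨0,-203,0⟩,⟨0,0,-203⟩⟩ (1,[(2,203)]) (1,[(1,203)]) (1,[(0,203)]))))
theorem pf203_ok : pf203.check (ok 203 6 ⟨5, 5, 5⟩) (fun _ r => r) [] = true := by decide +kernel

def pf211 : T := .node ⟨1,0,0⟩ (.node ⟨0,1,0⟩ (.node ⟨0,0,1⟩ (.leaf false ⟨⟨0,0,211⟩,⟨0,211,0⟩,⟨211,0,0⟩⟩ (1,[(0,211)]) (1,[(1,211)]) (1,[(2,211)])) (.node ⟨-114,150,-95⟩ (.node ⟨49,-54,-198⟩ (.node ⟨198,66,31⟩ (.leaf false ⟨⟨-54,193,-66⟩,⟨49,-54,-198⟩,⟨198,66,31⟩⟩ (19,[(3,399),(4,2317),(2,9)]) (1,[(1,1)]) (1,[(0,1)])) (.leaf false ⟨⟨-194,-63,-54⟩,⟨-18,166,-129⟩,⟨81,-114,-158⟩⟩ (31,[(5,4678),(4,1611),(0,54)]) (31,[(5,24984),(4,13660),(0,129)]) (31,[(5,33795),(4,6894),(0,158)])))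 (.leaf false ⟨⟨-126,159,58⟩,⟨33,94,-186⟩,⟨166,102,81⟩⟩ (18,[(2,9450),(4,329),(0,53)]) (27,[(2,14328),(4,3194),(0,47)]) (9,[(2,2637),(4,2327),(0,17)]))) (.leaf false ⟨⟨18,81,-194⟩,⟨129,-158,-54⟩,⟨166,114,63⟩⟩ (19,[(1,3971),(0,3),(2,1989)]) (38,[(1,6137),(0,43),(2,446)]) (57,[(1,4294),(0,83),(2,18948)])))) (.node ⟨0,0,1⟩ (.node ⟨-114,-95,150⟩ (.node ⟨49,-198,-54⟩ (.node ⟨198,31,66⟩ (.leaf false ⟨⟨-54,-66,193⟩,⟨49,-198,-54⟩,⟨198,31,66⟩⟩ (19,[(3,2317),(4,399),(2,9)]) (1,[(1,1)]) (1,[(0,1)])) (.leaf false ⟨⟨-194,-81,18⟩,⟨54,-158,-129⟩,⟨63,-114,166⟩⟩ (31,[(3,5904),(5,10024),(0,81)]) (31,[(3,6429),(5,32958),(0,158)]) (31,[(3,12670),(5,24525),(0,114)]))) (.leaf false ⟨⟨-126,33,166⟩,⟨58,-186,81⟩,⟨159,94,102⟩⟩ (27,[(4,665),(3,15543),(0,83)])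 (2,[(4,263),(3,966),(0,3)]) (9,[(4,2264),(3,2520),(0,17)]))) (.leaf false ⟨⟨18,-194,81⟩,⟨129,-54,-158⟩,⟨166,63,114⟩⟩ (19,[(1,1989),(0,3),(2,3971)]) (38,[(1,446),(0,43),(2,6137)]) (57,[(1,18948),(0,83),(2,4294)]))) (.node ⟨-15,-210,-14⟩ (.node ⟨-14,15,-210⟩ (.leaf false ⟨⟨-15,-210,-14⟩,⟨-14,15,-210⟩,⟨210,-14,-15⟩⟩ (1,[(1,1)]) (1,[(0,1)]) (14,[(4,2954),(3,211),(0,1)])) (.node ⟨-63,-194,54⟩ (.leaf false ⟨⟨-63,-194,54⟩,⟨114,-81,-158⟩,⟨166,-18,129⟩⟩ (1,[(0,1)]) (5,[(3,6460),(5,192),(1,27)]) (5,[(3,615),(5,746),(1,6)])) (.leaf false ⟨⟨18,-194,81⟩,⟨129,-54,-158⟩,⟨166,63,114⟩⟩ (3165,[(3,1114291),(1,6690),(2,2446)]) (597341,[(0,1593894),(1,68508),(2,1621163)]) (597341,[(0,1702137),(1,850795),(2,1332477)])))) (.leaf false ⟨⟨18,81,-194⟩,⟨129,-158,-54⟩,⟨166,114,63⟩⟩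 (5,[(1,1054),(0,6),(2,855)]) (5,[(1,872),(0,43),(2,9820)]) (15,[(1,1379),(0,166),(2,33150)]))))) (.node ⟨0,1,0⟩ (.node ⟨0,0,1⟩ (.node ⟨-95,150,-114⟩ (.node ⟨-198,-54,49⟩ (.node ⟨31,66,198⟩ (.leaf false ⟨⟨-198,-54,49⟩,⟨-66,193,-54⟩,⟨31,66,198⟩⟩ (1,[(1,1)]) (19,[(5,399),(2,9),(4,2317)]) (1,[(0,1)])) (.leaf false ⟨⟨-194,-63,54⟩,⟨-81,114,-158⟩,⟨-18,166,129⟩⟩ (31,[(3,40086),(0,194),(4,10851)]) (31,[(3,11140),(0,81),(4,8880)]) (31,[(3,7563),(0,18),(4,6334)]))) (.leaf false ⟨⟨-198,49,54⟩,⟨31,198,-66⟩,⟨66,54,193⟩⟩ (54,[(2,5317),(4,20394),(0,49)]) (3,[(2,341),(4,2085),(0,11)]) (1,[(2,242),(4,132),(0,1)]))) (.leaf false ⟨⟨-194,81,18⟩,⟨-54,-158,129⟩,⟨63,114,166⟩⟩ (19,[(3,3971),(2,1989),(0,3)]) (38,[(3,6137),(2,446),(0,43)]) (57,[(3,4294),(2,18948),(0,83)])))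 (.node ⟨-210,-15,-14⟩ (.node ⟨15,-14,-210⟩ (.leaf false ⟨⟨-210,-15,-14⟩,⟨-14,210,-15⟩,⟨15,-14,-210⟩⟩ (1,[(1,1)]) (14,[(4,211),(3,2954),(0,1)]) (1,[(0,1)])) (.node ⟨-194,-63,54⟩ (.leaf false ⟨⟨-194,-63,54⟩,⟨-81,114,-158⟩,⟨-18,166,129⟩⟩ (1,[(0,1)]) (5,[(3,6460),(1,27),(4,192)]) (5,[(3,615),(1,6),(4,746)])) (.leaf false ⟨⟨-198,31,-66⟩,⟨-54,66,193⟩,⟨49,198,-54⟩⟩ (1055,[(3,722464),(2,769),(1,3160)]) (3661,[(3,2684051),(1,16206),(0,234)]) (597341,[(2,1854630),(1,535725),(0,2199886)])))) (.leaf false ⟨⟨-194,63,-54⟩,⟨18,166,129⟩,⟨81,114,-158⟩⟩ (5,[(1,564),(3,5380),(0,21)]) (15,[(1,389),(3,34590),(0,166)]) (5,[(1,1322),(3,7575),(0,38)])))) (.node ⟨0,0,1⟩ (.node ⟨-210,-14,-15⟩ (.node ⟨15,-210,-14⟩ (.leaf false ⟨⟨-210,-14,-15⟩,⟨-14,-15,210⟩,⟨15,-210,-14⟩⟩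 (1,[(1,1)]) (14,[(2,2954),(4,211),(0,1)]) (1,[(0,1)])) (.node ⟨-194,54,-63⟩ (.leaf false ⟨⟨-194,54,-63⟩,⟨-81,-158,114⟩,⟨-18,129,166⟩⟩ (1,[(0,1)]) (5,[(3,192),(1,27),(4,6460)]) (5,[(3,746),(1,6),(4,615)])) (.leaf false ⟨⟨-198,-66,31⟩,⟨-54,193,66⟩,⟨49,-54,198⟩⟩ (1055,[(1,3160),(2,769),(4,722464)]) (3661,[(1,16206),(4,2684051),(0,234)]) (597341,[(1,535725),(2,1854630),(0,2199886)])))) (.leaf false ⟨⟨-194,-54,63⟩,⟨18,129,166⟩,⟨81,-158,114⟩⟩ (5,[(3,5380),(2,564),(0,21)]) (15,[(3,34590),(2,389),(0,166)]) (5,[(3,7575),(2,1322),(0,38)]))) (.node ⟨-63,166,-114⟩ (.node ⟨-194,-18,81⟩ (.leaf false ⟨⟨-194,-18,81⟩,⟨-63,166,-114⟩,⟨-54,-129,-158⟩⟩ (1,[(0,1)]) (1,[(1,1)]) (7,[(2,422),(1,6),(3,1899)])) (.leaf false ⟨⟨-138,94,-129⟩,⟨-14,-177,-114⟩,⟨159,66,-122⟩⟩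 (38,[(1,43),(4,2535),(3,3566)]) (27,[(4,7750),(3,5463),(0,38)]) (5697,[(1,1575),(4,229568),(0,6364)]))) (.node ⟨166,-129,-18⟩ (.leaf false ⟨⟨-114,-158,81⟩,⟨-63,-54,-194⟩,⟨166,-129,-18⟩⟩ (83,[(2,2283),(4,14439),(1,79)]) (43,[(2,8018),(4,5697),(0,18)]) (1,[(0,1)])) (.leaf false ⟨⟨-194,81,-18⟩,⟨-63,-114,166⟩,⟨-54,-158,-129⟩⟩ (19429,[(2,2157660),(0,27101),(1,11580)]) (19429,[(2,176120),(0,17640),(1,27051)]) (19429,[(2,6630981),(0,18918),(1,33194)]))))))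
theorem pf211_ok : pf211.check (ok 211 6 ⟨5, 5, 5⟩) (fun _ r => r) [] = true := by decide +kernel

def pf217 : T := .node ⟨1,0,0⟩ (.node ⟨0,1,0⟩ (.node ⟨0,0,1⟩ (.leaf false ⟨⟨0,0,217⟩,⟨0,217,0⟩,⟨217,0,0⟩⟩ (1,[(0,217)]) (1,[(1,217)]) (1,[(2,217)])) (.node ⟨183,60,100⟩ (.node ⟨-60,208,-15⟩ (.leaf false ⟨⟨-60,208,-15⟩,⟨100,15,-192⟩,⟨183,60,100⟩⟩ (1,[(0,1)]) (4,[(2,868),(4,217),(1,1)]) (1,[(1,1)])) (.leaf false ⟨⟨9,108,-188⟩,⟨132,-152,-81⟩,⟨172,111,72⟩⟩ (20,[(2,3805),(0,3),(3,2784)]) (5,[(2,570),(0,11),(3,1528)]) (183,[(2,4024),(1,172),(3,9993)]))) (.leaf false ⟨⟨-177,48,-116⟩,⟨64,207,-12⟩,⟨108,-44,-183⟩⟩ (25,[(3,882),(2,2940),(0,29)]) (25,[(3,2149),(2,5355),(0,3)]) (100,[(3,44289),(2,6580),(0,183)])))) (.node ⟨0,0,1⟩ (.node ⟨183,100,60⟩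 (.node ⟨-60,-15,208⟩ (.leaf false ⟨⟨-60,-15,208⟩,⟨100,-192,15⟩,⟨183,100,60⟩⟩ (1,[(0,1)]) (4,[(1,1),(4,217),(3,868)]) (1,[(1,1)])) (.leaf false ⟨⟨9,-188,108⟩,⟨132,-81,-152⟩,⟨172,72,111⟩⟩ (20,[(2,2784),(0,3),(3,3805)]) (5,[(2,1528),(0,11),(3,570)]) (183,[(2,9993),(1,172),(3,4024)]))) (.leaf false ⟨⟨-177,-116,48⟩,⟨64,-12,207⟩,⟨108,-183,-44⟩⟩ (25,[(1,2940),(3,882),(0,29)]) (25,[(1,5355),(3,2149),(0,3)]) (100,[(1,6580),(3,44289),(0,183)]))) (.node ⟨204,-12,73⟩ (.node ⟨-12,-204,73⟩ (.node ⟨-17,-72,-204⟩ (.leaf false ⟨⟨-17,-72,-204⟩,⟨-12,-204,73⟩,⟨216,-17,-12⟩⟩ (1,[(0,1)]) (1,[(1,1)]) (12,[(3,217),(5,2604),(1,1)])) (.leaf false ⟨⟨-12,-216,-17⟩,⟨73,12,-204⟩,⟨204,-17,72⟩⟩ (217,[(3,23219),(0,12),(1,234)]) (217,[(3,325717),(0,1229),(1,421)])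 (2604,[(3,9437113),(0,41820),(1,14977)]))) (.leaf false ⟨⟨24,153,-152⟩,⟨57,-152,-144⟩,⟨208,24,57⟩⟩ (1,[(2,6),(0,2),(3,255)]) (68,[(2,11179),(1,19),(3,10108)]) (435,[(2,1631),(0,77),(1,439)]))) (.node ⟨-62,93,-186⟩ (.leaf false ⟨⟨-116,-177,-48⟩,⟨-12,64,-207⟩,⟨183,-108,-44⟩⟩ (73,[(4,1324),(3,13497),(1,48)]) (62,[(4,3534),(3,2449),(0,69)]) (93,[(4,18383),(3,12090),(0,22)])) (.leaf false ⟨⟨-207,-48,-44⟩,⟨-12,-116,183⟩,⟨64,-177,-108⟩⟩ (217,[(4,69657),(0,192),(1,620)]) (93,[(4,9920),(0,128),(1,93)]) (217,[(4,389298),(0,677),(1,2046)])))))) (.node ⟨0,1,0⟩ (.node ⟨0,0,1⟩ (.node ⟨100,60,183⟩ (.node ⟨-15,208,-60⟩ (.leaf false ⟨⟨-192,15,100⟩,⟨-15,208,-60⟩,⟨100,60,183⟩⟩ (4,[(2,217),(4,868),(1,1)]) (1,[(0,1)]) (1,[(1,1)])) (.leaf false ⟨⟨-192,-89,48⟩,⟨-71,192,72⟩,⟨72,-48,199⟩⟩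 (5,[(4,1020),(3,387),(0,4)]) (5,[(4,445),(3,2208),(0,6)]) (10416,[(4,290563),(1,9628),(0,5181)]))) (.leaf false ⟨⟨-192,-89,-48⟩,⟨-72,48,199⟩,⟨-71,192,-72⟩⟩ (25,[(1,7584),(0,48),(2,655)]) (25,[(1,8269),(0,18),(2,2280)]) (100,[(1,5793),(0,71),(2,23460)]))) (.node ⟨-12,204,73⟩ (.node ⟨-204,-12,73⟩ (.node ⟨-72,-17,-204⟩ (.leaf false ⟨⟨-204,-12,73⟩,⟨-72,-17,-204⟩,⟨-17,216,-12⟩⟩ (1,[(1,1)]) (1,[(0,1)]) (12,[(3,217),(1,1),(4,2604)])) (.leaf false ⟨⟨-216,-12,-17⟩,⟨-17,204,72⟩,⟨12,73,-204⟩⟩ (217,[(3,23219),(1,234),(0,12)]) (2604,[(3,9437113),(1,14977),(0,41820)]) (217,[(3,325717),(1,421),(0,1229)]))) (.leaf false ⟨⟨-152,57,-144⟩,⟨24,208,57⟩,⟨153,24,-152⟩⟩ (68,[(2,11179),(4,10108),(1,19)]) (435,[(2,1631),(1,439),(0,77)]) (1,[(2,6),(4,255),(0,2)])))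 (.node ⟨93,-62,-186⟩ (.leaf false ⟨⟨-210,-42,-35⟩,⟨-35,210,-42⟩,⟨42,-35,-210⟩⟩ (73,[(4,15750),(3,4074),(1,35)]) (31,[(4,1736),(3,6944),(0,7)]) (31,[(4,1953),(3,1085),(0,35)])) (.leaf false ⟨⟨-210,-35,42⟩,⟨-42,210,-35⟩,⟨-35,-42,-210⟩⟩ (217,[(3,290129),(1,1674),(0,706)]) (217,[(3,142786),(1,527),(0,166)]) (651,[(3,686588),(1,3720),(0,725)]))))) (.node ⟨0,0,1⟩ (.node ⟨-12,73,204⟩ (.node ⟨-204,73,-12⟩ (.node ⟨-72,-204,-17⟩ (.leaf false ⟨⟨-204,73,-12⟩,⟨-72,-204,-17⟩,⟨-17,-12,216⟩⟩ (1,[(1,1)]) (1,[(0,1)]) (12,[(3,2604),(1,1),(4,217)])) (.leaf false ⟨⟨-216,-17,-12⟩,⟨-17,72,204⟩,⟨12,-204,73⟩⟩ (217,[(1,234),(4,23219),(0,12)]) (2604,[(1,14977),(4,9437113),(0,41820)]) (217,[(1,421),(4,325717),(0,1229)]))) (.leaf false ⟨⟨-152,-144,57⟩,⟨24,57,208⟩,⟨153,-152,24⟩⟩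 (68,[(1,19),(4,10108),(3,11179)]) (435,[(1,439),(3,1631),(0,77)]) (1,[(4,255),(3,6),(0,2)]))) (.node ⟨93,-186,-62⟩ (.leaf false ⟨⟨-210,-35,-42⟩,⟨-35,-42,210⟩,⟨42,-210,-35⟩⟩ (73,[(2,4074),(4,15750),(1,35)]) (31,[(2,6944),(4,1736),(0,7)]) (31,[(2,1085),(4,1953),(0,35)])) (.leaf false ⟨⟨-210,42,-35⟩,⟨-42,-35,210⟩,⟨-35,-210,-42⟩⟩ (217,[(2,290129),(0,706),(1,1674)]) (217,[(2,142786),(0,166),(1,527)]) (651,[(2,686588),(0,725),(1,3720)])))) (.node ⟨-72,172,-111⟩ (.node ⟨-156,-132,73⟩ (.node ⟨48,-143,-156⟩ (.leaf false ⟨⟨-156,-132,73⟩,⟨-143,96,-132⟩,⟨48,-143,-156⟩⟩ (1,[(1,1)]) (37,[(2,44),(5,2123),(4,4016)]) (1,[(0,1)])) (.leaf false ⟨⟨-192,-89,-48⟩,⟨-72,48,199⟩,⟨-71,192,-72⟩⟩ (1,[(3,672),(0,4),(4,661)]) (2,[(3,70),(0,3),(4,333)]) (48,[(3,14532),(0,71),(4,937)])))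 (.leaf false ⟨⟨-207,-44,-48⟩,⟨-12,183,-116⟩,⟨64,-108,-177⟩⟩ (73,[(4,22599),(3,9548),(0,48)]) (73,[(4,18972),(3,1953),(0,116)]) (73,[(4,22940),(3,31248),(0,177)]))) (.node ⟨-12,-116,183⟩ (.leaf false ⟨⟨-207,-48,-44⟩,⟨-12,-116,183⟩,⟨64,-177,-108⟩⟩ (29,[(2,3472),(4,5859),(0,12)]) (1,[(0,1)]) (12,[(2,2883),(0,2),(1,11)])) (.leaf false ⟨⟨-143,-156,48⟩,⟨-132,73,-156⟩,⟨96,-132,-143⟩⟩ (310,[(4,73718),(1,383),(0,151)]) (6200,[(4,1007004),(1,1579),(0,6243)]) (2325,[(4,202368),(1,5093),(0,4906)]))))))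
theorem pf217_ok : pf217.check (ok 217 6 ⟨5, 5, 5⟩) (fun _ r => r) [] = true := by decide +kernel

def pf221 : T := .node ⟨1,0,0⟩ (.node ⟨0,1,0⟩ (.node ⟨0,0,1⟩ (.node ⟨-156,13,156⟩ (.node ⟨-51,204,-68⟩ (.leaf false ⟨⟨-156,13,156⟩,⟨-51,204,-68⟩,⟨148,84,141⟩⟩ (1,[(1,1)]) (1,[(0,1)]) (17,[(2,2873),(4,2873),(0,7)])) (.leaf false ⟨⟨-68,156,141⟩,⟨-51,-156,148⟩,⟨204,13,84⟩⟩ (52,[(4,3796),(3,7501),(1,47)]) (1547,[(3,3978),(1,918),(0,1261)]) (13,[(4,3744),(3,78),(1,7)]))) (.node ⟨72,-99,184⟩ (.node ⟨-36,184,117⟩ (.leaf false ⟨⟨-36,184,117⟩,⟨139,-72,156⟩,⟨168,99,-104⟩⟩ (1,[(0,1)]) (9984,[(1,11505),(2,3586),(4,466765)]) (13,[(3,832),(2,14),(4,1469)])) (.leaf false ⟨⟨36,-168,139⟩,⟨117,-104,-156⟩,⟨184,99,72⟩⟩ (1,[(3,256),(0,1),(4,16)]) (4,[(3,897),(0,13),(4,1976)])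 (9,[(3,6030),(0,46),(4,9355)]))) (.leaf false ⟨⟨-104,180,75⟩,⟨0,85,-204⟩,⟨195,96,40⟩⟩ (3627,[(2,1605409),(1,666),(0,6682)]) (1209,[(2,36244),(1,510),(0,1105)]) (4836,[(2,2630732),(1,8739),(0,5837)])))) (.node ⟨-21,220,0⟩ (.leaf false ⟨⟨-21,220,0⟩,⟨0,0,-221⟩,⟨220,21,0⟩⟩ (1,[(0,1)]) (1,[(1,221)]) (220,[(3,48841),(0,21)])) (.leaf false ⟨⟨0,0,-221⟩,⟨21,220,0⟩,⟨220,-21,0⟩⟩ (1,[(1,221)]) (1,[(0,1),(2,440)]) (21,[(0,220),(2,47959)])))) (.node ⟨0,0,1⟩ (.node ⟨-21,0,220⟩ (.leaf false ⟨⟨-21,0,220⟩,⟨0,-221,0⟩,⟨220,0,21⟩⟩ (1,[(0,1)]) (1,[(2,221)]) (220,[(3,48841),(0,21)])) (.leaf false ⟨⟨0,-221,0⟩,⟨21,0,220⟩,⟨220,0,-21⟩⟩ (1,[(2,221)]) (1,[(1,440),(0,1)]) (21,[(1,47959),(0,220)]))) (.node ⟨204,0,85⟩ (.leaf false ⟨⟨0,-221,0⟩,⟨85,0,-204⟩,⟨204,0,85⟩⟩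 (1,[(2,221)]) (12,[(1,2873),(0,5)]) (1,[(0,1)])) (.leaf false ⟨⟨-140,0,-171⟩,⟨0,-221,0⟩,⟨171,0,-140⟩⟩ (85,[(3,22984),(0,171)]) (1,[(2,221)]) (17,[(3,8619),(0,28)]))))) (.node ⟨0,1,0⟩ (.node ⟨0,0,1⟩ (.node ⟨0,-21,220⟩ (.leaf false ⟨⟨-221,0,0⟩,⟨0,-21,220⟩,⟨0,220,21⟩⟩ (1,[(3,221)]) (1,[(0,1)]) (220,[(0,21),(2,48841)])) (.leaf false ⟨⟨-221,0,0⟩,⟨0,21,220⟩,⟨0,220,-21⟩⟩ (1,[(3,221)]) (1,[(1,440),(0,1)]) (21,[(1,47959),(0,220)]))) (.node ⟨0,204,85⟩ (.leaf false ⟨⟨-221,0,0⟩,⟨0,85,-204⟩,⟨0,204,85⟩⟩ (1,[(3,221)]) (12,[(1,2873),(0,5)]) (1,[(0,1)])) (.leaf false ⟨⟨-221,0,0⟩,⟨0,-140,-171⟩,⟨0,171,-140⟩⟩ (1,[(3,221)]) (85,[(0,171),(2,22984)]) (17,[(0,28),(2,8619)])))) (.node ⟨0,0,1⟩ (.node ⟨0,85,204⟩ (.leaf false ⟨⟨-221,0,0⟩,⟨0,-204,85⟩,⟨0,85,204⟩⟩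 (1,[(3,221)]) (12,[(0,5),(2,2873)]) (1,[(0,1)])) (.leaf false ⟨⟨-221,0,0⟩,⟨0,-195,-104⟩,⟨0,-104,195⟩⟩ (1,[(3,221)]) (17,[(1,6188),(0,39)]) (85,[(1,37791),(0,104)]))) (.leaf false ⟨⟨-221,0,0⟩,⟨0,-221,0⟩,⟨0,0,-221⟩⟩ (1,[(2,221)]) (1,[(1,221)]) (1,[(0,221)]))))
theorem pf221_ok : pf221.check (ok 221 6 ⟨5, 5, 5⟩) (fun _ r => r) [] = true := by decide +kernel

def pf223 : T := .node ⟨1,0,0⟩ (.node ⟨0,1,0⟩ (.node ⟨0,0,1⟩ (.leaf false ⟨⟨0,0,223⟩,⟨0,223,0⟩,⟨223,0,0⟩⟩ (1,[(0,223)]) (1,[(1,223)]) (1,[(2,223)])) (.node ⟨-42,-21,-218⟩ (.leaf false ⟨⟨-42,-21,-218⟩,⟨-2,222,-21⟩,⟨219,-2,-42⟩⟩ (1,[(0,1)]) (218,[(3,446),(2,48837),(0,21)]) (109,[(3,24753),(2,223),(0,21)])) (.node ⟨-38,171,-138⟩ (.node ⟨18,142,171⟩ (.leaf false ⟨⟨-38,171,-138⟩,⟨18,142,171⟩,⟨219,18,-38⟩⟩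 (1,[(1,1)]) (1,[(0,1)]) (7,[(3,1574),(5,1281),(2,6)])) (.leaf false ⟨⟨-38,18,-219⟩,⟨138,-171,-38⟩,⟨171,142,-18⟩⟩ (72029,[(2,18063),(1,60527),(0,66429)]) (72029,[(2,1593781),(1,857880),(0,1355520)]) (288116,[(2,9073647),(1,5242599),(0,7367032)]))) (.leaf false ⟨⟨18,219,-38⟩,⟨142,18,171⟩,⟨171,-38,-138⟩⟩ (7,[(2,920),(1,3),(3,1470)]) (19,[(2,6549),(0,71),(3,12483)]) (2,[(2,1518),(0,9),(3,1463)]))))) (.node ⟨0,0,1⟩ (.node ⟨-42,-218,-21⟩ (.leaf false ⟨⟨-42,-218,-21⟩,⟨-2,-21,222⟩,⟨219,-42,-2⟩⟩ (1,[(0,1)]) (218,[(1,48837),(3,446),(0,21)]) (109,[(1,223),(3,24753),(0,21)])) (.node ⟨-38,-138,171⟩ (.node ⟨18,171,142⟩ (.leaf false ⟨⟨-38,-138,171⟩,⟨18,171,142⟩,⟨219,-38,18⟩⟩ (1,[(1,1)]) (1,[(0,1)]) (7,[(2,6),(5,1281),(4,1574)])) (.leaf false ⟨⟨-38,-219,18⟩,⟨138,-38,-171⟩,⟨171,-18,142⟩⟩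 (72029,[(2,18063),(0,66429),(1,60527)]) (72029,[(2,1593781),(0,1355520),(1,857880)]) (288116,[(2,9073647),(0,7367032),(1,5242599)]))) (.leaf false ⟨⟨18,-38,219⟩,⟨142,171,18⟩,⟨171,-138,-38⟩⟩ (7,[(2,1470),(1,3),(3,920)]) (19,[(2,12483),(0,71),(3,6549)]) (2,[(2,1463),(0,9),(3,1518)])))) (.node ⟨-117,-182,-54⟩ (.node ⟨142,117,-126⟩ (.node ⟨-117,-54,-182⟩ (.leaf false ⟨⟨-117,-54,-182⟩,⟨126,-182,-27⟩,⟨142,117,-126⟩⟩ (1,[(0,1)]) (2,[(5,369),(4,182),(2,1)]) (1,[(1,1)])) (.leaf false ⟨⟨-117,-182,-54⟩,⟨126,-27,-182⟩,⟨142,-126,117⟩⟩ (1,[(2,1)]) (2480,[(1,3888),(0,1165),(2,3213)]) (128,[(1,128),(0,243),(2,243)]))) (.leaf false ⟨⟨-126,-182,-27⟩,⟨117,-54,-182⟩,⟨142,-117,126⟩⟩ (9,[(2,2007),(4,854),(0,14)]) (13,[(2,3122),(4,2373),(0,6)]) (1,[(4,284),(0,1)])))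 (.leaf false ⟨⟨54,-38,-213⟩,⟨123,186,-2⟩,⟨178,-117,66⟩⟩ (13,[(1,3093),(0,6),(2,1586)]) (39,[(1,2292),(0,41),(2,208)]) (117,[(1,1890),(0,178),(2,46085)]))))) (.node ⟨0,1,0⟩ (.node ⟨0,0,1⟩ (.node ⟨-218,-42,-21⟩ (.leaf false ⟨⟨-218,-42,-21⟩,⟨-42,219,-2⟩,⟨-21,-2,222⟩⟩ (1,[(0,1)]) (109,[(1,223),(0,21),(2,24753)]) (218,[(1,48837),(0,21),(2,446)])) (.node ⟨-138,-38,171⟩ (.node ⟨171,18,142⟩ (.leaf false ⟨⟨-138,-38,171⟩,⟨-38,219,18⟩,⟨171,18,142⟩⟩ (1,[(1,1)]) (7,[(5,1574),(4,1281),(2,6)]) (1,[(0,1)])) (.leaf false ⟨⟨-219,-38,18⟩,⟨-38,138,-171⟩,⟨-18,171,142⟩⟩ (72029,[(2,18063),(1,60527),(0,66429)]) (72029,[(2,1593781),(1,857880),(0,1355520)]) (288116,[(2,9073647),(1,5242599),(0,7367032)]))) (.leaf false ⟨⟨-213,54,-38⟩,⟨-2,123,186⟩,⟨66,178,-117⟩⟩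 (19,[(2,3895),(4,7773),(0,27)]) (14,[(2,1743),(4,8966),(1,41)]) (19,[(2,12996),(4,11028),(0,89)])))) (.node ⟨-182,-117,-54⟩ (.node ⟨117,142,-126⟩ (.node ⟨-54,-117,-182⟩ (.leaf false ⟨⟨-182,126,-27⟩,⟨-54,-117,-182⟩,⟨117,142,-126⟩⟩ (2,[(2,1),(5,182),(4,369)]) (1,[(0,1)]) (1,[(1,1)])) (.leaf false ⟨⟨-219,-38,18⟩,⟨-38,138,-171⟩,⟨-18,171,142⟩⟩ (553040,[(2,964029),(0,501885),(1,232784)]) (2496,[(3,1216448),(2,1983),(0,4927)]) (416,[(3,91904),(2,315),(0,923)]))) (.leaf false ⟨⟨-198,-11,102⟩,⟨-101,-18,-198⟩,⟨-18,222,-11⟩⟩ (13,[(2,1446),(0,22),(3,2981)]) (117,[(2,35892),(0,101),(3,12236)]) (13,[(2,395),(0,2),(3,3170)]))) (.leaf false ⟨⟨-210,70,27⟩,⟨-2,75,-210⟩,⟨75,198,70⟩⟩ (117,[(1,621),(3,37310),(0,70)]) (39,[(1,9540),(3,4628),(0,25)]) (13,[(1,278),(3,3029),(0,22)]))))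 (.node ⟨0,0,1⟩ (.node ⟨-182,-54,-117⟩ (.node ⟨117,-126,142⟩ (.node ⟨-54,-182,-117⟩ (.leaf false ⟨⟨-182,-27,126⟩,⟨-54,-182,-117⟩,⟨117,-126,142⟩⟩ (2,[(3,369),(5,182),(2,1)]) (1,[(0,1)]) (1,[(1,1)])) (.leaf false ⟨⟨-219,-38,-18⟩,⟨-38,138,171⟩,⟨18,-171,142⟩⟩ (1664,[(2,2739),(4,367232),(0,2483)]) (104,[(2,95),(4,25472),(0,247)]) (7488,[(2,2781),(4,3290432),(0,11869)]))) (.leaf false ⟨⟨-198,102,-11⟩,⟨-101,-198,-18⟩,⟨-18,-11,222⟩⟩ (13,[(2,2981),(0,22),(3,1446)]) (117,[(2,12236),(0,101),(3,35892)]) (13,[(2,3170),(0,2),(3,395)]))) (.leaf false ⟨⟨-210,-2,75⟩,⟨27,-210,70⟩,⟨70,75,198⟩⟩ (39,[(3,12740),(2,1428),(0,25)]) (117,[(3,9581),(2,28350),(0,70)]) (13,[(3,3094),(2,213),(0,22)]))) (.node ⟨-21,42,-218⟩ (.node ⟨-219,-2,42⟩ (.leaf false ⟨⟨-222,-2,21⟩,⟨-21,42,-218⟩,⟨-2,-219,-42⟩⟩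 (1540,[(2,33004),(1,1),(0,1561)]) (1,[(1,1)]) (21,[(2,446),(1,2),(3,4683)])) (.leaf false ⟨⟨-219,-42,-2⟩,⟨-2,21,-222⟩,⟨42,-218,-21⟩⟩ (21,[(4,4818),(3,884),(0,1)]) (664,[(1,219),(4,516416),(0,2373)]) (2,[(4,135),(3,438),(0,1)]))) (.leaf false ⟨⟨-222,-11,-18⟩,⟨-11,-102,198⟩,⟨18,-198,-101⟩⟩ (42,[(1,3154),(3,9555),(0,11)]) (7,[(1,2320),(3,434),(0,17)]) (7,[(1,7901),(3,567),(0,33)])))))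
theorem pf223_ok : pf223.check (ok 223 6 ⟨5, 5, 5⟩) (fun _ r => r) [] = true := by decide +kernel

def pf227 : T := .node ⟨1,0,0⟩ (.node ⟨0,1,0⟩ (.node ⟨0,0,1⟩ (.node ⟨-30,-30,223⟩ (.leaf false ⟨⟨-30,-30,223⟩,⟨-2,225,30⟩,⟨225,-2,30⟩⟩ (1,[(0,1)]) (223,[(3,454),(2,51075),(0,30)]) (223,[(3,51075),(2,454),(0,30)])) (.node ⟨-47,222,6⟩ (.leaf false ⟨⟨-47,222,6⟩,⟨138,34,-177⟩,⟨174,33,142⟩⟩ (1,[(0,1)]) (15,[(2,1136),(4,1560),(1,17)]) (10,[(2,3873),(4,1410),(1,11)])) (.leaf false ⟨⟨30,-2,225⟩,⟨30,225,-2⟩,⟨223,-30,-30⟩⟩ (47,[(2,10755),(0,30),(3,6566)]) (1,[(2,221),(1,1),(3,195)]) (1345,[(2,1754808),(0,1265),(1,8016)])))) (.node ⟨214,42,63⟩ (.node ⟨-63,6,-218⟩ (.node ⟨-42,214,63⟩ (.leaf false ⟨⟨-42,214,63⟩,⟨-6,63,-218⟩,⟨223,42,6⟩⟩ (1,[(0,1)])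 (214,[(3,50621),(5,1362),(0,63)]) (1,[(3,57),(5,9),(2,1)])) (.leaf false ⟨⟨-63,6,-218⟩,⟨42,223,-6⟩,⟨214,-42,-63⟩⟩ (1,[(1,1)]) (2688,[(2,399),(4,722836),(0,655)]) (64,[(2,43),(4,18404),(0,107)]))) (.node ⟨138,-47,-174⟩ (.leaf false ⟨⟨6,63,-218⟩,⟨42,214,63⟩,⟨223,-42,-6⟩⟩ (23,[(3,4840),(0,1),(4,1496)]) (3,[(3,247),(1,2),(4,654)]) (20523,[(0,24496),(1,18987),(4,403268)])) (.leaf false ⟨⟨-198,78,79⟩,⟨-2,159,-162⟩,⟨111,142,138⟩⟩ (79,[(3,29543),(1,54),(0,138)]) (2133,[(3,6849280),(1,21848),(0,10005)]) (79,[(3,251384),(1,919),(0,356)])))) (.leaf false ⟨⟨-110,177,-90⟩,⟨-15,-110,-198⟩,⟨198,90,-65⟩⟩ (7,[(3,1370),(2,1659),(0,10)]) (7,[(3,4603),(2,154),(0,22)]) (63,[(3,26384),(2,8400),(0,65)])))) (.node ⟨0,0,1⟩ (.node ⟨214,63,42⟩ (.node ⟨-63,-218,6⟩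 (.node ⟨-42,63,214⟩ (.leaf false ⟨⟨-42,-6,223⟩,⟨63,-218,6⟩,⟨214,63,42⟩⟩ (214,[(5,378),(4,15333),(0,223)]) (1,[(5,126),(1,1)]) (1,[(2,1)])) (.leaf false ⟨⟨-63,-218,6⟩,⟨42,-6,223⟩,⟨214,-63,-42⟩⟩ (1,[(1,1)]) (2688,[(3,722836),(2,399),(0,655)]) (64,[(3,18404),(2,43),(0,107)]))) (.node ⟨138,-174,-47⟩ (.leaf false ⟨⟨6,-218,63⟩,⟨42,63,214⟩,⟨223,-6,-42⟩⟩ (23,[(3,1496),(0,1),(4,4840)]) (3,[(3,654),(1,2),(4,247)]) (20523,[(3,403268),(1,18987),(0,24496)])) (.leaf false ⟨⟨-198,-33,106⟩,⟨54,-218,33⟩,⟨97,54,198⟩⟩ (711,[(1,1774),(4,728615),(0,1830)]) (237,[(1,788),(4,269908),(0,267)]) (2133,[(1,31883),(4,9107056),(0,13056)])))) (.leaf false ⟨⟨-110,-90,177⟩,⟨-15,-198,-110⟩,⟨198,-65,90⟩⟩ (7,[(1,1659),(3,1370),(0,10)]) (7,[(1,154),(3,4603),(0,22)])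 (63,[(1,8400),(3,26384),(0,65)]))) (.node ⟨-30,-225,-2⟩ (.node ⟨223,30,-30⟩ (.node ⟨-30,-2,-225⟩ (.leaf false ⟨⟨-30,-2,-225⟩,⟨30,-225,-2⟩,⟨223,30,-30⟩⟩ (1,[(0,1)]) (1,[(5,60),(2,1)]) (1,[(1,1)])) (.leaf false ⟨⟨-30,-225,-2⟩,⟨30,-2,-225⟩,⟨223,-30,30⟩⟩ (1,[(2,1)]) (223,[(3,101242),(0,227),(2,4)]) (223,[(1,223),(0,60),(2,60)]))) (.leaf false ⟨⟨-222,-47,-6⟩,⟨33,-174,142⟩,⟨34,-138,-177⟩⟩ (30,[(2,1590),(4,3821),(0,47)]) (5,[(2,160),(4,6632),(0,29)]) (5,[(2,1575),(4,5299),(0,23)]))) (.node ⟨198,97,54⟩ (.leaf false ⟨⟨6,-47,-222⟩,⟨142,174,-33⟩,⟨177,-138,34⟩⟩ (5,[(2,1112),(1,1),(3,460)]) (15,[(2,637),(1,71),(3,13365)]) (66,[(2,942),(0,59),(3,14831)])) (.leaf false ⟨⟨-209,-42,-78⟩,⟨42,129,-182⟩,⟨78,-182,-111⟩⟩ (612,[(1,2079),(3,400262),(0,961)])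 (17,[(1,532),(3,110038),(0,77)]) (204,[(1,4365),(3,962896),(0,581)])))))) (.node ⟨0,1,0⟩ (.node ⟨0,0,1⟩ (.node ⟨63,42,214⟩ (.node ⟨-218,6,-63⟩ (.node ⟨63,214,-42⟩ (.leaf false ⟨⟨-218,6,63⟩,⟨-6,223,-42⟩,⟨63,42,214⟩⟩ (1,[(3,126),(1,1)]) (214,[(3,378),(5,15333),(0,223)]) (1,[(2,1)])) (.leaf false ⟨⟨-222,34,-33⟩,⟨-47,-138,174⟩,⟨6,177,142⟩⟩ (4375,[(1,3801),(4,610440),(0,2264)]) (4032,[(4,473780),(2,2247),(0,5255)]) (2688,[(4,684668),(2,1533),(0,1277)]))) (.node ⟨-174,-47,138⟩ (.leaf false ⟨⟨-218,-6,63⟩,⟨6,223,42⟩,⟨63,-42,214⟩⟩ (1,[(5,436),(1,1)]) (3,[(5,418),(4,681),(1,2)]) (2133,[(5,557749),(1,4262),(0,1362)])) (.leaf false ⟨⟨-218,6,63⟩,⟨-6,223,-42⟩,⟨63,42,214⟩⟩ (237,[(5,158060),(0,84),(1,421)]) (237,[(5,965764),(0,1533),(1,3200)]) (2133,[(5,4005613),(0,3930),(1,15854)]))))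 (.leaf false ⟨⟨-218,-63,6⟩,⟨-63,214,-42⟩,⟨-6,42,223⟩⟩ (63,[(1,47030),(0,218),(2,5187)]) (1,[(1,172),(0,1),(2,256)]) (21,[(1,5111),(0,2),(2,966)]))) (.node ⟨-225,-30,-2⟩ (.node ⟨30,223,-30⟩ (.node ⟨-2,-30,-225⟩ (.leaf false ⟨⟨-225,30,-2⟩,⟨-2,-30,-225⟩,⟨30,223,-30⟩⟩ (1,[(2,1),(4,60)]) (1,[(0,1)]) (1,[(1,1)])) (.leaf false ⟨⟨-225,-30,-2⟩,⟨-30,223,30⟩,⟨-2,30,-225⟩⟩ (1,[(2,1)]) (223,[(2,60),(0,60),(1,223)]) (223,[(3,101242),(2,4),(0,227)]))) (.leaf false ⟨⟨-225,-30,-2⟩,⟨-30,223,30⟩,⟨-2,30,-225⟩⟩ (2,[(2,454),(0,15),(3,3285)]) (1,[(0,1),(3,446)]) (15,[(2,3405),(0,1),(3,673)]))) (.node ⟨97,198,54⟩ (.leaf false ⟨⟨-198,106,-33⟩,⟨54,33,-218⟩,⟨97,198,54⟩⟩ (15,[(2,601),(4,14895),(1,53)]) (10,[(2,2202),(4,1935),(1,11)]) (1,[(0,1)])) (.leaf false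 ⟨⟨-225,30,-2⟩,⟨-2,-30,-225⟩,⟨30,223,-30⟩⟩ (51,[(4,29890),(1,84),(0,5)]) (204,[(4,1502128),(1,7155),(0,1115)]) (612,[(4,1939334),(1,8991),(0,673)]))))) (.node ⟨0,0,1⟩ (.node ⟨-225,-2,-30⟩ (.node ⟨30,-30,223⟩ (.node ⟨-2,-225,-30⟩ (.leaf false ⟨⟨-225,-2,30⟩,⟨-2,-225,-30⟩,⟨30,-30,223⟩⟩ (1,[(3,60),(2,1)]) (1,[(0,1)]) (1,[(1,1)])) (.leaf false ⟨⟨-225,-2,-30⟩,⟨-30,30,223⟩,⟨-2,-225,30⟩⟩ (1,[(2,1)]) (223,[(2,60),(1,223),(0,60)]) (223,[(2,4),(4,101242),(0,227)]))) (.leaf false ⟨⟨-225,-2,-30⟩,⟨-30,30,223⟩,⟨-2,-225,30⟩⟩ (2,[(2,3285),(0,15),(3,454)]) (1,[(2,446),(0,1)]) (15,[(2,673),(0,1),(3,3405)]))) (.node ⟨97,54,198⟩ (.leaf false ⟨⟨-198,-33,106⟩,⟨54,-218,33⟩,⟨97,54,198⟩⟩ (15,[(4,14895),(3,601),(1,53)]) (10,[(4,1935),(3,2202),(1,11)]) (1,[(0,1)]))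 (.leaf false ⟨⟨-225,-2,30⟩,⟨-2,-225,-30⟩,⟨30,-30,223⟩⟩ (51,[(4,29890),(0,5),(1,84)]) (204,[(4,1502128),(0,1115),(1,7155)]) (612,[(4,1939334),(0,673),(1,8991)])))) (.leaf false ⟨⟨-227,0,0⟩,⟨0,-227,0⟩,⟨0,0,-227⟩⟩ (1,[(2,227)]) (1,[(1,227)]) (1,[(0,227)]))))
theorem pf227_ok : pf227.check (ok 227 6 ⟨5, 5, 5⟩) (fun _ r => r) [] = true := by decide +kernel

def pf229 : T := .node ⟨1,0,0⟩ (.node ⟨0,1,0⟩ (.node ⟨0,0,1⟩ (.leaf false ⟨⟨0,0,229⟩,⟨0,229,0⟩,⟨229,0,0⟩⟩ (1,[(0,229)]) (1,[(1,229)]) (1,[(2,229)])) (.node ⟨-84,21,-212⟩ (.node ⟨4,213,84⟩ (.leaf false ⟨⟨-84,21,-212⟩,⟨4,228,21⟩,⟨213,4,-84⟩⟩ (1,[(1,1)]) (1498,[(2,102134),(0,1603),(1,5)]) (21,[(2,916),(4,4809),(1,4)])) (.node ⟨-60,171,-140⟩ (.leaf false ⟨⟨-60,171,-140⟩,⟨21,-140,-180⟩,⟨220,60,-21⟩⟩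 (1,[(0,1)]) (7,[(5,207),(4,2215),(1,15)]) (4,[(5,884),(4,453),(1,1)])) (.leaf false ⟨⟨-60,-140,-171⟩,⟨-21,180,-140⟩,⟨220,-21,-60⟩⟩ (80,[(4,8972),(2,155),(0,137)]) (80,[(4,108984),(2,455),(0,609)]) (6,[(4,50592),(2,215),(0,323)])))) (.leaf false ⟨⟨4,228,-21⟩,⟨84,-21,-212⟩,⟨213,4,84⟩⟩ (21,[(1,653),(0,1),(2,4809)]) (1,[(1,424),(0,1)]) (28,[(1,12700),(0,71),(2,1603)])))) (.node ⟨0,0,1⟩ (.node ⟨-84,-212,21⟩ (.node ⟨4,84,213⟩ (.leaf false ⟨⟨-84,-212,21⟩,⟨4,21,228⟩,⟨213,-84,4⟩⟩ (1,[(1,1)]) (1498,[(3,102134),(1,5),(0,1603)]) (21,[(4,4809),(3,916),(1,4)])) (.node ⟨-60,-140,171⟩ (.leaf false ⟨⟨-60,-140,171⟩,⟨21,-180,-140⟩,⟨220,-21,60⟩⟩ (1,[(0,1)]) (7,[(3,2215),(5,207),(1,15)]) (4,[(3,453),(5,884),(1,1)])) (.leaf false ⟨⟨-60,-171,-140⟩,⟨-21,-140,180⟩,⟨220,-60,-21⟩⟩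 (80,[(3,8972),(0,137),(2,155)]) (80,[(3,108984),(0,609),(2,455)]) (6,[(3,50592),(0,323),(2,215)])))) (.leaf false ⟨⟨4,-21,228⟩,⟨84,-212,-21⟩,⟨213,84,4⟩⟩ (21,[(1,4809),(0,1),(2,653)]) (1,[(0,1),(2,424)]) (28,[(1,1603),(0,71),(2,12700)]))) (.node ⟨0,60,-221⟩ (.leaf false ⟨⟨0,-221,-60⟩,⟨0,60,-221⟩,⟨229,0,0⟩⟩ (221,[(0,60),(2,52441)]) (1,[(0,1)]) (1,[(3,229)])) (.leaf false ⟨⟨0,-221,60⟩,⟨0,-60,-221⟩,⟨229,0,0⟩⟩ (60,[(1,45241),(0,221)]) (1,[(1,442),(0,1)]) (1,[(3,229)]))))) (.node ⟨0,1,0⟩ (.node ⟨0,0,1⟩ (.node ⟨-212,-84,21⟩ (.node ⟨84,4,213⟩ (.leaf false ⟨⟨-212,-84,21⟩,⟨-84,213,4⟩,⟨21,4,228⟩⟩ (1,[(1,1)]) (21,[(1,4),(4,916),(3,4809)]) (1498,[(1,5),(4,102134),(0,1603)])) (.node ⟨-140,-60,171⟩ (.leaf false ⟨⟨-180,21,-140⟩,⟨-140,-60,171⟩,⟨-21,220,60⟩⟩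 (7,[(3,2215),(1,15),(4,207)]) (1,[(0,1)]) (4,[(3,453),(1,1),(4,884)])) (.leaf false ⟨⟨-221,-36,48⟩,⟨-48,216,-59⟩,⟨36,67,216⟩⟩ (80,[(3,145236),(2,685),(0,911)]) (10,[(3,80914),(2,345),(0,519)]) (48,[(3,98376),(2,361),(0,559)])))) (.leaf false ⟨⟨-212,84,-21⟩,⟨-21,4,228⟩,⟨84,213,4⟩⟩ (1,[(3,424),(0,1)]) (21,[(1,4809),(3,653),(0,1)]) (28,[(1,1603),(3,12700),(0,71)]))) (.node ⟨60,0,-221⟩ (.leaf false ⟨⟨-221,0,-60⟩,⟨0,229,0⟩,⟨60,0,-221⟩⟩ (221,[(3,52441),(0,60)]) (1,[(2,229)]) (1,[(0,1)])) (.leaf false ⟨⟨-221,0,60⟩,⟨-60,0,-221⟩,⟨0,229,0⟩⟩ (60,[(1,45241),(0,221)]) (1,[(1,442),(0,1)]) (1,[(2,229)])))) (.node ⟨0,0,1⟩ (.node ⟨60,-221,0⟩ (.leaf false ⟨⟨-221,-60,0⟩,⟨0,0,229⟩,⟨60,-221,0⟩⟩ (221,[(3,52441),(0,60)]) (1,[(1,229)]) (1,[(0,1)])) (.leaf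 false ⟨⟨-221,60,0⟩,⟨-60,-221,0⟩,⟨0,0,229⟩⟩ (60,[(0,221),(2,45241)]) (1,[(0,1),(2,442)]) (1,[(1,229)]))) (.node ⟨-36,67,-216⟩ (.node ⟨-36,-216,67⟩ (.node ⟨-216,36,67⟩ (.leaf false ⟨⟨-221,36,48⟩,⟨-48,-216,-59⟩,⟨-36,67,-216⟩⟩ (216,[(3,4439),(0,221),(4,180)]) (9,[(3,665),(0,2),(4,2016)]) (1,[(2,1)])) (.leaf false ⟨⟨-216,-59,-48⟩,⟨36,48,-221⟩,⟨67,-216,-36⟩⟩ (16884,[(5,6660180),(1,2225),(0,14321)]) (12265,[(2,11172),(5,115092),(0,4439)]) (469,[(5,88889),(1,366),(0,618)]))) (.leaf false ⟨⟨-228,4,-21⟩,⟨4,-213,-84⟩,⟨21,84,-212⟩⟩ (67,[(4,16032),(3,4268),(0,21)]) (67,[(4,2756),(3,32415),(0,84)]) (67,[(4,6225),(3,40164),(0,212)]))) (.leaf false ⟨⟨-228,-21,4⟩,⟨4,-84,-213⟩,⟨21,-212,84⟩⟩ (67,[(1,4268),(3,16032),(0,21)]) (67,[(1,32415),(3,2756),(0,84)])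 (67,[(1,40164),(3,6225),(0,212)])))))
theorem pf229_ok : pf229.check (ok 229 6 ⟨5, 5, 5⟩) (fun _ r => r) [] = true := by decide +kernel

def pf233 : T := .node ⟨1,0,0⟩ (.node ⟨0,1,0⟩ (.node ⟨0,0,1⟩ (.node ⟨-144,127,132⟩ (.node ⟨63,192,-116⟩ (.leaf false ⟨⟨-144,127,132⟩,⟨63,192,-116⟩,⟨172,36,153⟩⟩ (1,[(1,1)]) (1,[(0,1)]) (16,[(2,2796),(4,2563),(0,3)])) (.leaf false ⟨⟨-144,63,172⟩,⟨127,192,36⟩,⟨132,-116,153⟩⟩ (233,[(3,24698),(1,163),(0,160)]) (11,[(4,1829),(3,1731),(1,3)]) (116,[(4,24951),(3,15920),(0,153)]))) (.leaf false ⟨⟨36,127,192⟩,⟨153,132,-116⟩,⟨172,-144,63⟩⟩ (4,[(1,900),(0,1),(2,635)]) (16,[(1,388),(0,17),(2,4271)]) (36,[(1,7944),(0,43),(2,277)]))) (.node ⟨-105,208,0⟩ (.leaf false ⟨⟨-105,208,0⟩,⟨0,0,-233⟩,⟨208,105,0⟩⟩ (1,[(0,1)])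 (1,[(1,233)]) (208,[(3,54289),(0,105)])) (.leaf false ⟨⟨0,0,-233⟩,⟨105,208,0⟩,⟨208,-105,0⟩⟩ (1,[(1,233)]) (1,[(0,1),(2,416)]) (105,[(0,208),(2,32239)])))) (.node ⟨0,0,1⟩ (.node ⟨-105,0,208⟩ (.leaf false ⟨⟨-105,0,208⟩,⟨0,-233,0⟩,⟨208,0,105⟩⟩ (1,[(0,1)]) (1,[(2,233)]) (208,[(3,54289),(0,105)])) (.leaf false ⟨⟨0,-233,0⟩,⟨105,0,208⟩,⟨208,0,-105⟩⟩ (1,[(2,233)]) (1,[(1,416),(0,1)]) (105,[(1,32239),(0,208)]))) (.node ⟨-60,-225,-8⟩ (.node ⟨217,60,-60⟩ (.node ⟨-60,-8,-225⟩ (.leaf false ⟨⟨-60,-8,-225⟩,⟨60,-225,-8⟩,⟨217,60,-60⟩⟩ (1,[(0,1)]) (1,[(5,120),(2,1)]) (1,[(1,1)])) (.leaf false ⟨⟨-60,-225,-8⟩,⟨60,-8,-225⟩,⟨217,-60,60⟩⟩ (1,[(2,1)]) (217,[(3,101122),(0,233),(2,16)]) (217,[(1,217),(0,120),(2,120)]))) (.leaf false ⟨⟨-192,-105,-80⟩,⟨55,-192,120⟩,⟨120,-80,-183⟩⟩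 (4,[(2,740),(4,751),(0,7)]) (5,[(2,360),(4,3747),(0,16)]) (3,[(2,789),(4,1228),(0,4)]))) (.leaf false ⟨⟨0,0,-233⟩,⟨105,208,0⟩,⟨208,-105,0⟩⟩ (1,[(1,233)]) (4,[(1,56),(0,7),(2,743)]) (15,[(1,416),(0,52),(2,13275)]))))) (.node ⟨0,1,0⟩ (.node ⟨0,0,1⟩ (.node ⟨0,-105,208⟩ (.leaf false ⟨⟨-233,0,0⟩,⟨0,-105,208⟩,⟨0,208,105⟩⟩ (1,[(3,233)]) (1,[(0,1)]) (208,[(0,105),(2,54289)])) (.leaf false ⟨⟨-233,0,0⟩,⟨0,105,208⟩,⟨0,208,-105⟩⟩ (1,[(3,233)]) (1,[(1,416),(0,1)]) (105,[(1,32239),(0,208)]))) (.node ⟨-225,-60,-8⟩ (.node ⟨60,217,-60⟩ (.node ⟨-8,-60,-225⟩ (.leaf false ⟨⟨-225,60,-8⟩,⟨-8,-60,-225⟩,⟨60,217,-60⟩⟩ (1,[(2,1),(4,120)]) (1,[(0,1)]) (1,[(1,1)])) (.leaf false ⟨⟨-233,0,0⟩,⟨0,105,208⟩,⟨0,208,-105⟩⟩ (217,[(3,50561),(2,233),(0,233)]) (124,[(3,24769),(2,8),(0,225)])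 (3015,[(3,122719),(2,832),(1,3120)]))) (.leaf false ⟨⟨-225,-60,-8⟩,⟨-60,217,60⟩,⟨-8,60,-225⟩⟩ (4,[(2,932),(0,15),(3,3015)]) (1,[(0,1),(3,434)]) (15,[(2,3495),(0,2),(3,1334)]))) (.leaf false ⟨⟨-105,208,0⟩,⟨0,0,-233⟩,⟨208,105,0⟩⟩ (15,[(1,416),(3,13275),(0,52)]) (1,[(1,233)]) (4,[(1,56),(3,743),(0,7)])))) (.node ⟨0,0,1⟩ (.node ⟨-225,-8,-60⟩ (.node ⟨60,-60,217⟩ (.node ⟨-8,-225,-60⟩ (.leaf false ⟨⟨-225,-8,60⟩,⟨-8,-225,-60⟩,⟨60,-60,217⟩⟩ (1,[(3,120),(2,1)]) (1,[(0,1)]) (1,[(1,1)])) (.leaf false ⟨⟨-233,0,0⟩,⟨0,-105,208⟩,⟨0,208,105⟩⟩ (217,[(2,233),(4,50561),(0,233)]) (3015,[(2,832),(4,122719),(1,3120)]) (124,[(2,8),(4,24769),(0,225)]))) (.leaf false ⟨⟨-225,-8,-60⟩,⟨-60,60,217⟩,⟨-8,-225,60⟩⟩ (4,[(2,3015),(0,15),(3,932)]) (1,[(2,434),(0,1)])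 (15,[(2,1334),(0,2),(3,3495)]))) (.leaf false ⟨⟨-105,0,208⟩,⟨0,-233,0⟩,⟨208,0,105⟩⟩ (15,[(3,13275),(2,416),(0,52)]) (1,[(2,233)]) (4,[(3,743),(2,56),(0,7)]))) (.leaf false ⟨⟨-233,0,0⟩,⟨0,-233,0⟩,⟨0,0,-233⟩⟩ (1,[(2,233)]) (1,[(1,233)]) (1,[(0,233)]))))
theorem pf233_ok : pf233.check (ok 233 6 ⟨5, 5, 5⟩) (fun _ r => r) [] = true := by decide +kernel

def pf235 : T := .node ⟨1,0,0⟩ (.node ⟨0,1,0⟩ (.node ⟨0,0,1⟩ (.leaf false ⟨⟨0,0,235⟩,⟨0,235,0⟩,⟨235,0,0⟩⟩ (1,[(0,235)]) (1,[(1,235)]) (1,[(2,235)])) (.node ⟨-105,42,-206⟩ (.node ⟨10,210,105⟩ (.leaf false ⟨⟨-105,42,-206⟩,⟨10,231,42⟩,⟨210,10,-105⟩⟩ (1,[(1,1)]) (214,[(2,15275),(0,235),(1,2)]) (21,[(2,2310),(4,4400),(0,1)])) (.leaf false ⟨⟨-90,-30,-215⟩,⟨55,222,-54⟩,⟨210,-71,-78⟩⟩ (1589,[(4,9060),(1,1400),(0,507)])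 (35,[(4,2105),(3,11550),(0,18)]) (35,[(4,7610),(3,2975),(0,26)]))) (.leaf false ⟨⟨10,231,-42⟩,⟨105,-42,-206⟩,⟨210,10,105⟩⟩ (21,[(1,1294),(0,2),(2,4935)]) (1,[(1,412),(0,1)]) (1,[(1,307),(0,2),(2,94)])))) (.node ⟨0,0,1⟩ (.node ⟨-105,-206,42⟩ (.node ⟨10,105,210⟩ (.leaf false ⟨⟨-105,-206,42⟩,⟨10,42,231⟩,⟨210,-105,10⟩⟩ (1,[(1,1)]) (454,[(4,15275),(1,147),(0,470)]) (21,[(4,4400),(3,2310),(0,1)])) (.leaf false ⟨⟨-90,-215,-30⟩,⟨55,-54,222⟩,⟨210,-78,-71⟩⟩ (1589,[(4,9060),(0,507),(1,1400)]) (35,[(2,11550),(4,2105),(0,18)]) (35,[(2,2975),(4,7610),(0,26)]))) (.leaf false ⟨⟨10,-42,231⟩,⟨105,-206,-42⟩,⟨210,105,10⟩⟩ (21,[(1,4935),(0,2),(2,1294)]) (1,[(0,1),(2,412)]) (1,[(1,94),(0,2),(2,307)]))) (.node ⟨0,141,-188⟩ (.leaf false ⟨⟨0,-188,-141⟩,⟨0,141,-188⟩,⟨235,0,0⟩⟩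 (4,[(0,3),(2,1175)]) (1,[(0,1)]) (1,[(3,235)])) (.leaf false ⟨⟨0,-188,141⟩,⟨0,-141,-188⟩,⟨235,0,0⟩⟩ (3,[(1,329),(0,4)]) (1,[(1,376),(0,1)]) (1,[(3,235)]))))) (.node ⟨0,1,0⟩ (.node ⟨0,0,1⟩ (.node ⟨-206,-105,42⟩ (.node ⟨105,10,210⟩ (.leaf false ⟨⟨-206,-105,42⟩,⟨-105,210,10⟩,⟨42,10,231⟩⟩ (1,[(1,1)]) (21,[(4,2310),(3,4400),(0,1)]) (214,[(1,2),(4,15275),(0,235)])) (.leaf false ⟨⟨-215,-90,-30⟩,⟨-78,210,-71⟩,⟨-54,55,222⟩⟩ (1589,[(1,1400),(0,507),(3,9060)]) (35,[(2,2975),(0,26),(3,7610)]) (35,[(2,11550),(0,18),(3,2105)]))) (.leaf false ⟨⟨-215,54,78⟩,⟨30,222,-71⟩,⟨90,55,210⟩⟩ (35,[(1,3486),(3,11233),(0,18)]) (35,[(1,623),(3,14194),(0,74)]) (21,[(1,4872),(3,376),(0,11)]))) (.node ⟨141,0,-188⟩ (.leaf false ⟨⟨-188,0,-141⟩,⟨0,235,0⟩,⟨141,0,-188⟩⟩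 (4,[(3,1175),(0,3)]) (1,[(2,235)]) (1,[(0,1)])) (.leaf false ⟨⟨-188,0,141⟩,⟨-141,0,-188⟩,⟨0,235,0⟩⟩ (3,[(1,329),(0,4)]) (1,[(1,376),(0,1)]) (1,[(2,235)])))) (.node ⟨0,0,1⟩ (.node ⟨141,-188,0⟩ (.leaf false ⟨⟨-188,-141,0⟩,⟨0,0,235⟩,⟨141,-188,0⟩⟩ (4,[(3,1175),(0,3)]) (1,[(1,235)]) (1,[(0,1)])) (.leaf false ⟨⟨-188,141,0⟩,⟨-141,-188,0⟩,⟨0,0,235⟩⟩ (3,[(0,4),(2,329)]) (1,[(0,1),(2,376)]) (1,[(1,235)]))) (.node ⟨-30,-215,90⟩ (.node ⟨-222,55,-54⟩ (.node ⟨30,-90,-215⟩ (.leaf false ⟨⟨-222,55,-54⟩,⟨-71,-210,78⟩,⟨30,-90,-215⟩⟩ (1,[(1,1)]) (48,[(1,9),(2,47),(4,470)]) (1,[(0,1)])) (.leaf false ⟨⟨-222,54,55⟩,⟨-71,-78,-210⟩,⟨-30,-215,90⟩⟩ (5,[(3,7680),(0,37),(4,3060)]) (30,[(3,21565),(0,71),(4,8730)]) (1,[(3,125),(0,1),(4,305)]))) (.leaf false ⟨⟨-231,-42,10⟩,⟨10,-105,-210⟩,⟨42,-206,105⟩⟩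 (55,[(2,1718),(4,22029),(0,42)]) (11,[(2,3444),(4,4552),(0,21)]) (55,[(2,5349),(4,43422),(0,206)]))) (.leaf false ⟨⟨-231,10,-42⟩,⟨10,-210,-105⟩,⟨42,105,-206⟩⟩ (15,[(3,3675),(2,1355),(0,7)]) (6,[(3,150),(2,2765),(0,7)]) (45,[(3,1200),(2,17420),(0,103)])))))
theorem pf235_ok : pf235.check (ok 235 6 ⟨5, 5, 5⟩) (fun _ r => r) [] = true := by decide +kernel

def pf239 : T := .node ⟨1,0,0⟩ (.node ⟨0,1,0⟩ (.node ⟨0,0,1⟩ (.node ⟨-86,-42,219⟩ (.node ⟨-66,229,18⟩ (.leaf false ⟨⟨-86,-42,219⟩,⟨-66,229,18⟩,⟨213,54,94⟩⟩ (1,[(1,1)]) (1,[(0,1)]) (219,[(4,54731),(3,15774),(1,94)])) (.leaf false ⟨⟨-86,42,219⟩,⟨66,229,-18⟩,⟨213,-54,94⟩⟩ (1,[(3,84),(1,1)]) (1,[(3,458),(0,1)]) (54,[(3,51289),(1,42),(0,229)]))) (.node ⟨-42,219,-86⟩ (.leaf false ⟨⟨-42,219,-86⟩,⟨54,94,213⟩,⟨229,18,-66⟩⟩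 (1,[(0,1)]) (219,[(2,54731),(4,15774),(0,94)]) (7,[(2,195),(4,1345),(1,3)])) (.leaf false ⟨⟨18,-66,229⟩,⟨94,213,54⟩,⟨219,-86,-42⟩⟩ (7,[(2,1345),(0,3),(3,195)]) (43,[(2,12615),(1,47),(3,7185)]) (20598,[(2,7420231),(0,16594),(1,44349)])))) (.node ⟨-138,126,-149⟩ (.node ⟨94,-117,-186⟩ (.leaf false ⟨⟨-138,126,-149⟩,⟨94,-117,-186⟩,⟨171,166,-18⟩⟩ (1,[(1,1)]) (1,[(0,1)]) (31,[(4,5019),(3,5497),(0,3)])) (.leaf false ⟨⟨-149,186,-18⟩,⟨126,117,166⟩,⟨138,94,-171⟩⟩ (39,[(2,12234),(4,17),(0,62)]) (1,[(2,20),(4,220),(0,1)]) (63,[(2,3770),(4,15180),(1,47)]))) (.leaf false ⟨⟨18,186,-149⟩,⟨166,-117,-126⟩,⟨171,94,138⟩⟩ (23,[(1,3874),(0,3),(2,4656)]) (69,[(1,21061),(0,83),(2,2385)]) (46,[(1,2145),(0,57),(2,11506)])))) (.node ⟨0,0,1⟩ (.node ⟨-138,-149,126⟩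 (.node ⟨94,-186,-117⟩ (.leaf false ⟨⟨-138,-149,126⟩,⟨94,-186,-117⟩,⟨171,-18,166⟩⟩ (1,[(1,1)]) (1,[(0,1)]) (31,[(2,5497),(4,5019),(0,3)])) (.leaf false ⟨⟨-149,-18,186⟩,⟨126,166,117⟩,⟨138,-171,94⟩⟩ (39,[(4,17),(3,12234),(0,62)]) (1,[(4,220),(3,20),(0,1)]) (63,[(4,15180),(3,3770),(1,47)]))) (.leaf false ⟨⟨18,-149,186⟩,⟨166,-126,-117⟩,⟨171,138,94⟩⟩ (23,[(1,4656),(0,3),(2,3874)]) (69,[(1,2385),(0,83),(2,21061)]) (46,[(1,11506),(0,57),(2,2145)]))) (.node ⟨54,94,-213⟩ (.node ⟨186,-86,123⟩ (.node ⟨-59,-222,-66⟩ (.leaf false ⟨⟨-59,-222,-66⟩,⟨138,21,-194⟩,⟨186,-86,123⟩⟩ (1,[(0,1)]) (94,[(3,13763),(2,21),(5,11838)]) (1,[(1,1)])) (.leaf false ⟨⟨42,-219,-86⟩,⟨54,94,-213⟩,⟨229,18,66⟩⟩ (59,[(3,7846),(0,42),(4,22245)]) (59,[(3,16131),(0,54),(4,6442)])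 (59,[(3,11220),(0,229),(4,49776)]))) (.leaf false ⟨⟨-186,-5,-150⟩,⟨75,-210,-86⟩,⟨130,114,-165⟩⟩ (41,[(4,1674),(3,4505),(0,50)]) (123,[(4,25221),(3,33226),(0,86)]) (41,[(4,15560),(3,56),(0,55)]))) (.leaf false ⟨⟨-86,-186,123⟩,⟨21,-138,-194⟩,⟨222,-59,66⟩⟩ (47,[(1,14028),(3,980),(0,93)]) (47,[(1,23815),(3,4713),(0,69)]) (94,[(1,6363),(3,24054),(0,59)]))))) (.node ⟨0,1,0⟩ (.node ⟨0,0,1⟩ (.node ⟨-149,126,-138⟩ (.node ⟨-186,-117,94⟩ (.leaf false ⟨⟨-186,-117,94⟩,⟨-149,126,-138⟩,⟨-18,166,171⟩⟩ (1,[(0,1)]) (1,[(1,1)]) (31,[(2,5019),(0,3),(3,5497)])) (.leaf false ⟨⟨-203,126,-6⟩,⟨6,21,238⟩,⟨126,202,-21⟩⟩ (1,[(2,132),(4,54),(1,1)]) (39,[(2,9940),(4,1068),(0,7)]) (117,[(2,16531),(4,22830),(0,202)]))) (.leaf false ⟨⟨-203,-6,126⟩,⟨6,238,21⟩,⟨126,-21,202⟩⟩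 (23,[(3,7798),(2,2508),(0,21)]) (46,[(3,767),(2,11830),(0,7)]) (69,[(3,6355),(2,11277),(0,101)]))) (.node ⟨94,54,-213⟩ (.node ⟨-86,186,123⟩ (.node ⟨-222,-59,-66⟩ (.leaf false ⟨⟨-222,-59,-66⟩,⟨-86,186,123⟩,⟨21,138,-194⟩⟩ (1,[(0,1)]) (1,[(1,1)]) (94,[(3,13763),(4,11838),(2,21)])) (.leaf false ⟨⟨-219,42,-86⟩,⟨18,229,66⟩,⟨94,54,-213⟩⟩ (59,[(3,7846),(5,22245),(0,42)]) (59,[(3,11220),(5,49776),(0,229)]) (59,[(3,16131),(5,6442),(0,54)]))) (.leaf false ⟨⟨-219,-42,-86⟩,⟨-18,229,-66⟩,⟨94,-54,-213⟩⟩ (123,[(4,34333),(3,10830),(0,86)]) (41,[(4,2630),(3,13481),(0,22)]) (41,[(4,2252),(3,10992),(0,71)]))) (.leaf false ⟨⟨-213,-54,94⟩,⟨-86,-42,-219⟩,⟨-66,229,-18⟩⟩ (94,[(1,36533),(0,213),(2,6426)]) (47,[(1,19452),(0,43),(2,348)]) (47,[(1,7875),(0,33),(2,12545)]))))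 (.node ⟨0,0,1⟩ (.node ⟨94,-213,54⟩ (.node ⟨-86,123,186⟩ (.node ⟨-222,-66,-59⟩ (.leaf false ⟨⟨-222,-66,-59⟩,⟨-86,123,186⟩,⟨21,-194,138⟩⟩ (1,[(0,1)]) (1,[(1,1)]) (94,[(3,11838),(4,13763),(2,21)])) (.leaf false ⟨⟨-219,-86,42⟩,⟨18,66,229⟩,⟨94,-213,54⟩⟩ (59,[(5,22245),(4,7846),(0,42)]) (59,[(5,49776),(4,11220),(0,229)]) (59,[(5,6442),(4,16131),(0,54)]))) (.leaf false ⟨⟨-219,-86,-42⟩,⟨-18,-66,229⟩,⟨94,-213,-54⟩⟩ (123,[(2,10830),(4,34333),(0,86)]) (41,[(2,13481),(4,2630),(0,22)]) (41,[(2,10992),(4,2252),(0,71)]))) (.leaf false ⟨⟨-213,94,-54⟩,⟨-86,-219,-42⟩,⟨-66,-18,229⟩⟩ (94,[(1,6426),(0,213),(2,36533)]) (47,[(1,348),(0,43),(2,19452)]) (47,[(1,12545),(0,33),(2,7875)]))) (.leaf false ⟨⟨-239,0,0⟩,⟨0,-239,0⟩,⟨0,0,-239⟩⟩ (1,[(2,239)]) (1,[(1,239)])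 (1,[(0,239)]))))
theorem pf239_ok : pf239.check (ok 239 6 ⟨5, 5, 5⟩) (fun _ r => r) [] = true := by decide +kernel

def pf241 : T := .node ⟨1,0,0⟩ (.node ⟨0,1,0⟩ (.node ⟨0,0,1⟩ (.leaf false ⟨⟨0,0,241⟩,⟨0,241,0⟩,⟨241,0,0⟩⟩ (1,[(0,241)]) (1,[(1,241)]) (1,[(2,241)])) (.node ⟨-128,201,-36⟩ (.node ⟨-209,0,-120⟩ (.leaf false ⟨⟨-209,0,-120⟩,⟨0,241,0⟩,⟨120,0,-209⟩⟩ (1,[(0,1)]) (1,[(3,241)]) (120,[(4,58081),(0,209)])) (.node ⟨124,132,159⟩ (.leaf false ⟨⟨-96,201,-92⟩,⟨124,132,159⟩,⟨183,16,-156⟩⟩ (209,[(3,15544),(1,32),(2,209)]) (1,[(0,1)]) (6897,[(3,1874016),(1,5543),(0,836)])) (.leaf false ⟨⟨-183,16,-156⟩,⟨96,201,-92⟩,⟨124,-132,-159⟩⟩ (884733,[(1,20005),(2,566208),(0,754940)]) (884733,[(1,3521728),(2,2582429),(0,2585128)]) (294911,[(1,1011592),(2,436480),(0,959551)]))))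 (.leaf false ⟨⟨48,9,-236⟩,⟨124,204,33⟩,⟨201,-128,36⟩⟩ (8,[(1,1996),(0,3),(2,675)]) (32,[(1,60),(0,31),(2,12759)]) (128,[(1,2628),(0,201),(2,24017)])))) (.node ⟨0,0,1⟩ (.node ⟨-128,-36,201⟩ (.node ⟨-209,-120,0⟩ (.leaf false ⟨⟨-209,-120,0⟩,⟨0,0,241⟩,⟨120,-209,0⟩⟩ (1,[(0,1)]) (1,[(2,241)]) (120,[(4,58081),(0,209)])) (.node ⟨124,159,132⟩ (.leaf false ⟨⟨-96,-92,201⟩,⟨124,159,132⟩,⟨183,-156,16⟩⟩ (209,[(4,15544),(2,209),(1,32)]) (1,[(0,1)]) (6897,[(4,1874016),(0,836),(1,5543)])) (.leaf false ⟨⟨-183,-156,16⟩,⟨96,-92,201⟩,⟨124,-159,-132⟩⟩ (884733,[(2,566208),(1,20005),(0,754940)]) (884733,[(2,2582429),(1,3521728),(0,2585128)]) (294911,[(2,436480),(1,1011592),(0,959551)])))) (.leaf false ⟨⟨48,-236,9⟩,⟨124,33,204⟩,⟨201,36,-128⟩⟩ (8,[(1,675),(0,3),(2,1996)])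 (32,[(1,12759),(0,31),(2,60)]) (128,[(1,24017),(0,201),(2,2628)]))) (.node ⟨0,120,-209⟩ (.leaf false ⟨⟨0,-209,-120⟩,⟨0,120,-209⟩,⟨241,0,0⟩⟩ (209,[(0,120),(2,58081)]) (1,[(0,1)]) (1,[(3,241)])) (.leaf false ⟨⟨0,-209,120⟩,⟨0,-120,-209⟩,⟨241,0,0⟩⟩ (120,[(1,29281),(0,209)]) (1,[(1,418),(0,1)]) (1,[(3,241)]))))) (.node ⟨0,1,0⟩ (.node ⟨0,0,1⟩ (.node ⟨-36,201,-128⟩ (.node ⟨-120,0,-209⟩ (.leaf false ⟨⟨-209,0,120⟩,⟨-120,0,-209⟩,⟨0,241,0⟩⟩ (120,[(2,58081),(0,209)]) (1,[(0,1)]) (1,[(3,241)])) (.node ⟨159,132,124⟩ (.leaf false ⟨⟨-156,16,183⟩,⟨-92,201,-96⟩,⟨159,132,124⟩⟩ (6897,[(5,1874016),(0,836),(1,5543)]) (209,[(5,15544),(2,209),(1,32)]) (1,[(0,1)])) (.leaf false ⟨⟨-236,-48,-9⟩,⟨-36,201,-128⟩,⟨-33,124,204⟩⟩ (884733,[(2,1829120),(1,2925499),(0,3106972)])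 (1,[(2,1)]) (884733,[(2,2139096),(1,3613072),(0,2426147)])))) (.leaf false ⟨⟨-236,9,48⟩,⟨33,204,124⟩,⟨36,-128,201⟩⟩ (8,[(3,1996),(2,675),(0,3)]) (32,[(3,60),(2,12759),(0,31)]) (128,[(3,2628),(2,24017),(0,201)]))) (.node ⟨120,0,-209⟩ (.leaf false ⟨⟨-209,0,-120⟩,⟨0,241,0⟩,⟨120,0,-209⟩⟩ (209,[(3,58081),(0,120)]) (1,[(2,241)]) (1,[(0,1)])) (.leaf false ⟨⟨-209,0,120⟩,⟨-120,0,-209⟩,⟨0,241,0⟩⟩ (120,[(1,29281),(0,209)]) (1,[(1,418),(0,1)]) (1,[(2,241)])))) (.node ⟨0,0,1⟩ (.node ⟨120,-209,0⟩ (.leaf false ⟨⟨-209,-120,0⟩,⟨0,0,241⟩,⟨120,-209,0⟩⟩ (209,[(3,58081),(0,120)]) (1,[(1,241)]) (1,[(0,1)])) (.leaf false ⟨⟨-209,120,0⟩,⟨-120,-209,0⟩,⟨0,0,241⟩⟩ (120,[(0,209),(2,29281)]) (1,[(0,1),(2,418)]) (1,[(1,241)]))) (.node ⟨-84,105,-200⟩ (.node ⟨-84,-200,105⟩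 (.node ⟨-225,-20,84⟩ (.leaf false ⟨⟨-225,-20,84⟩,⟨-84,105,-200⟩,⟨-20,-216,-105⟩⟩ (1,[(0,1)]) (1,[(2,1)]) (21,[(3,2730),(1,5),(4,3536)])) (.leaf false ⟨⟨-225,-84,-20⟩,⟨-20,105,-216⟩,⟨84,-200,-105⟩⟩ (5795,[(2,2564),(5,770979),(1,3780)]) (241,[(2,225),(5,4820),(0,84)]) (7,[(5,3156),(1,9),(0,20)]))) (.leaf false ⟨⟨-236,33,-36⟩,⟨-9,-204,-128⟩,⟨48,124,-201⟩⟩ (35,[(4,9268),(3,1245),(0,12)]) (105,[(4,11697),(3,47020),(0,128)]) (35,[(4,3948),(3,9060),(0,67)]))) (.leaf false ⟨⟨-236,-36,33⟩,⟨-9,-128,-204⟩,⟨48,-201,124⟩⟩ (35,[(1,1245),(3,9268),(0,12)]) (105,[(1,47020),(3,11697),(0,128)]) (35,[(1,9060),(3,3948),(0,67)])))))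
theorem pf241_ok : pf241.check (ok 241 6 ⟨5, 5, 5⟩) (fun _ r => r) [] = true := by decide +kernel

def pf247 : T := .node ⟨1,0,0⟩ (.node ⟨0,1,0⟩ (.node ⟨0,0,1⟩ (.leaf false ⟨⟨0,0,247⟩,⟨0,247,0⟩,⟨247,0,0⟩⟩ (1,[(0,247)]) (1,[(1,247)]) (1,[(2,247)])) (.node ⟨-95,0,-228⟩ (.leaf false ⟨⟨-95,0,-228⟩,⟨0,247,0⟩,⟨228,0,-95⟩⟩ (1,[(0,1)]) (1,[(2,247)]) (12,[(3,3211),(0,5)])) (.node ⟨195,-122,90⟩ (.leaf false ⟨⟨3,22,-246⟩,⟨66,237,22⟩,⟨238,-66,-3⟩⟩ (65,[(2,16080),(0,1),(3,1552)]) (65,[(2,550),(0,22),(3,18089)]) (195,[(2,22005),(0,238),(3,16166)])) (.leaf false ⟨⟨-195,130,-78⟩,⟨78,195,130⟩,⟨130,78,-195⟩⟩ (1159,[(2,14820),(1,156),(0,1235)]) (11590,[(2,7665398),(1,47541),(0,18525)]) (1159,[(2,867711),(1,3107),(0,741)]))))) (.node ⟨0,0,1⟩ (.node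 ⟨-95,-228,0⟩ (.leaf false ⟨⟨-95,-228,0⟩,⟨0,0,247⟩,⟨228,-95,0⟩⟩ (1,[(0,1)]) (1,[(1,247)]) (12,[(3,3211),(0,5)])) (.node ⟨195,90,-122⟩ (.leaf false ⟨⟨3,-246,22⟩,⟨66,22,237⟩,⟨238,-3,-66⟩⟩ (65,[(2,1552),(0,1),(3,16080)]) (65,[(2,18089),(0,22),(3,550)]) (195,[(2,16166),(0,238),(3,22005)])) (.leaf false ⟨⟨-195,-78,130⟩,⟨78,130,195⟩,⟨130,-195,78⟩⟩ (1159,[(1,156),(3,14820),(0,1235)]) (11590,[(1,47541),(3,7665398),(0,18525)]) (1159,[(1,3107),(3,867711),(0,741)])))) (.node ⟨13,-234,78⟩ (.node ⟨195,130,-78⟩ (.node ⟨150,-147,130⟩ (.leaf false ⟨⟨13,-234,78⟩,⟨18,-77,-234⟩,⟨246,18,13⟩⟩ (1,[(2,1)]) (25,[(3,6240),(0,3),(4,1484)]) (950,[(1,770),(0,557),(4,1121)])) (.leaf false ⟨⟨-198,-14,-147⟩,⟨-14,-243,42⟩,⟨147,-42,-194⟩⟩ (383344,[(1,97387),(2,501771),(0,676104)])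 (23959,[(1,3717),(2,33193),(0,9945)]) (95836,[(1,185487),(2,224979),(0,166712)]))) (.leaf false ⟨⟨-78,-234,13⟩,⟨13,-18,-246⟩,⟨234,-77,18⟩⟩ (5,[(2,637),(4,1365),(0,9)]) (65,[(2,16692),(4,2600),(0,9)]) (130,[(2,3666),(4,45435),(0,77)]))) (.leaf false ⟨⟨0,-95,-228⟩,⟨0,228,-95⟩,⟨247,0,0⟩⟩ (13,[(3,494),(2,10127),(0,38)]) (78,[(3,1235),(2,4446),(0,95)]) (1,[(3,247)]))))) (.node ⟨0,1,0⟩ (.node ⟨0,0,1⟩ (.node ⟨-228,-95,0⟩ (.leaf false ⟨⟨-228,-95,0⟩,⟨-95,228,0⟩,⟨0,0,247⟩⟩ (1,[(0,1)]) (12,[(0,5),(2,3211)]) (1,[(1,247)])) (.node ⟨90,195,-122⟩ (.leaf false ⟨⟨-246,3,22⟩,⟨-3,238,-66⟩,⟨22,66,237⟩⟩ (65,[(2,1552),(4,16080),(0,1)]) (195,[(2,16166),(4,22005),(0,238)]) (65,[(2,18089),(4,550),(0,22)])) (.leaf false ⟨⟨-246,-3,22⟩,⟨3,238,66⟩,⟨22,-66,237⟩⟩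 (5795,[(4,1778856),(1,1962),(0,1045)]) (5795,[(4,4477749),(1,20953),(0,3135)]) (11590,[(4,6419834),(1,38163),(0,22515)])))) (.node ⟨-234,13,78⟩ (.node ⟨130,195,-78⟩ (.node ⟨-147,150,130⟩ (.leaf false ⟨⟨-234,13,78⟩,⟨-77,18,-234⟩,⟨18,246,13⟩⟩ (1,[(2,1)]) (25,[(3,6240),(5,1484),(0,3)]) (950,[(5,1121),(0,557),(1,770)])) (.leaf false ⟨⟨-246,13,-18⟩,⟨13,-78,-234⟩,⟨18,234,-77⟩⟩ (47918,[(2,96653),(1,31791),(0,45552)]) (7372,[(2,15333),(1,9109),(0,17004)]) (383344,[(2,331797),(1,523893),(0,111800)]))) (.leaf false ⟨⟨-234,-78,13⟩,⟨-77,234,18⟩,⟨-18,13,-246⟩⟩ (5,[(2,637),(0,9),(3,1365)]) (130,[(2,3666),(0,77),(3,45435)]) (65,[(2,16692),(0,9),(3,2600)]))) (.leaf false ⟨⟨-95,0,-228⟩,⟨0,247,0⟩,⟨228,0,-95⟩⟩ (13,[(3,10127),(2,494),(0,38)]) (1,[(2,247)])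 (78,[(3,4446),(2,1235),(0,95)])))) (.node ⟨0,0,1⟩ (.node ⟨78,-234,13⟩ (.node ⟨-78,130,195⟩ (.node ⟨130,-147,150⟩ (.leaf false ⟨⟨-234,-77,18⟩,⟨13,18,246⟩,⟨78,-234,13⟩⟩ (25,[(5,6240),(4,1484),(0,3)]) (950,[(1,770),(4,1121),(0,557)]) (1,[(2,1)])) (.leaf false ⟨⟨-246,-18,13⟩,⟨13,-234,-78⟩,⟨18,-77,234⟩⟩ (351,[(3,159094),(0,1092),(2,713)]) (486,[(3,11089),(0,390),(2,731)]) (104,[(3,19240),(1,23),(2,47)]))) (.leaf false ⟨⟨-246,-18,13⟩,⟨13,-234,-78⟩,⟨18,-77,234⟩⟩ (65,[(2,2600),(4,16692),(0,9)]) (5,[(2,1365),(4,637),(0,9)]) (130,[(2,45435),(4,3666),(0,77)]))) (.leaf false ⟨⟨-228,-95,0⟩,⟨-95,228,0⟩,⟨0,0,247⟩⟩ (13,[(1,494),(0,38),(2,10127)]) (78,[(1,1235),(0,95),(2,4446)]) (1,[(1,247)]))) (.node ⟨-78,130,-195⟩ (.node ⟨-230,-3,90⟩ (.leaf false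 ⟨⟨-230,-3,90⟩,⟨-78,130,-195⟩,⟨-45,-210,-122⟩⟩ (1,[(0,1)]) (1,[(1,1)]) (26,[(2,247),(1,15),(3,7410)])) (.leaf false ⟨⟨-234,13,-78⟩,⟨13,-234,-78⟩,⟨78,78,-221⟩⟩ (5,[(1,2),(4,1014),(3,195)]) (15,[(4,2795),(3,3549),(0,13)]) (1995,[(1,1685),(3,67184),(0,1248)]))) (.leaf false ⟨⟨-243,-14,-42⟩,⟨-14,-198,147⟩,⟨42,-147,-194⟩⟩ (65,[(1,4095),(3,16341),(0,7)]) (65,[(1,9750),(3,8632),(0,99)]) (130,[(1,53885),(3,6006),(0,147)])))))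
theorem pf247_ok : pf247.check (ok 247 6 ⟨5, 5, 5⟩) (fun _ r => r) [] = true := by decide +kernel

def pf251 : T := .node ⟨1,0,0⟩ (.node ⟨0,1,0⟩ (.node ⟨0,0,1⟩ (.node ⟨-126,82,201⟩ (.node ⟨-6,231,-98⟩ (.leaf false ⟨⟨-126,82,201⟩,⟨-6,231,-98⟩,⟨217,54,114⟩⟩ (1,[(1,1)]) (1,[(0,1)]) (77,[(2,10542),(4,16817),(0,18)])) (.leaf false ⟨⟨-102,114,199⟩,⟨39,-206,138⟩,⟨226,87,66⟩⟩ (201,[(4,4572),(3,6596),(1,199)]) (49,[(4,1497),(3,5845),(0,69)]) (49,[(4,10876),(3,11886),(0,33)]))) (.leaf false ⟨⟨10,249,30⟩,⟨150,-30,199⟩,⟨201,10,-150⟩⟩ (63,[(1,2895),(0,5),(2,16097)]) (21,[(1,9204),(0,25),(2,1420)]) (42,[(1,7167),(0,67),(2,5914)]))) (.node ⟨-89,234,-18⟩ (.node ⟨-89,-18,-234⟩ (.node ⟨234,-26,-87⟩ (.leaf false ⟨⟨-89,-18,-234⟩,⟨18,249,-26⟩,⟨234,-26,-87⟩⟩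 (1,[(1,1)]) (9,[(5,251),(4,2259),(1,1)]) (1,[(0,1)])) (.leaf false ⟨⟨-249,30,10⟩,⟨10,150,-201⟩,⟨30,199,150⟩⟩ (2259,[(5,342364),(0,3420),(1,1175)]) (753,[(5,1788626),(0,6453),(1,3046)]) (1506,[(5,3864647),(0,14622),(1,4471)]))) (.leaf false ⟨⟨-54,217,-114⟩,⟨82,126,201⟩,⟨231,6,-98⟩⟩ (234,[(2,22770),(4,6677),(1,217)]) (1020,[(4,45014),(0,913),(1,479)]) (3,[(2,528),(4,604),(0,1)]))) (.leaf false ⟨⟨30,10,-249⟩,⟨150,-201,10⟩,⟨199,150,30⟩⟩ (89,[(1,22701),(0,30),(2,7910)]) (89,[(1,1810),(0,150),(2,17211)]) (89,[(1,912),(0,199),(2,59916)])))) (.node ⟨0,0,1⟩ (.node ⟨-89,-18,234⟩ (.node ⟨-89,-234,-18⟩ (.node ⟨234,-87,-26⟩ (.leaf false ⟨⟨-89,-234,-18⟩,⟨18,-26,249⟩,⟨234,-87,-26⟩⟩ (1,[(1,1)]) (9,[(3,2259),(5,251),(1,1)]) (1,[(0,1)])) (.leaf false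 ⟨⟨-249,10,30⟩,⟨10,-201,150⟩,⟨30,150,199⟩⟩ (2259,[(5,342364),(1,1175),(0,3420)]) (753,[(5,1788626),(1,3046),(0,6453)]) (1506,[(5,3864647),(1,4471),(0,14622)]))) (.leaf false ⟨⟨-54,-114,217⟩,⟨82,201,126⟩,⟨231,-98,6⟩⟩ (234,[(4,6677),(3,22770),(1,217)]) (1020,[(4,45014),(1,479),(0,913)]) (3,[(4,604),(3,528),(0,1)]))) (.leaf false ⟨⟨30,-249,10⟩,⟨150,10,-201⟩,⟨199,30,150⟩⟩ (89,[(1,7910),(0,30),(2,22701)]) (89,[(1,17211),(0,150),(2,1810)]) (89,[(1,59916),(0,199),(2,912)]))) (.node ⟨234,-39,82⟩ (.node ⟨-39,-242,-54⟩ (.node ⟨82,39,-234⟩ (.leaf false ⟨⟨-39,-242,-54⟩,⟨82,39,-234⟩,⟨234,-54,73⟩⟩ (1,[(1,1)]) (1,[(0,1)]) (1,[(3,9),(2,1),(4,15)])) (.leaf false ⟨⟨-210,-135,-26⟩,⟨55,-126,210⟩,⟨126,-170,-135⟩⟩ (13,[(3,10868),(5,960),(0,45)]) (13,[(3,7098),(5,4159),(0,42)])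 (39,[(3,45045),(5,18854),(0,170)]))) (.leaf false ⟨⟨30,-249,10⟩,⟨150,10,-201⟩,⟨199,30,150⟩⟩ (13,[(2,410),(0,10),(3,5657)]) (13,[(2,5313),(0,50),(3,11970)]) (39,[(2,4896),(0,199),(3,46988)]))) (.leaf false ⟨⟨-126,82,-201⟩,⟨6,-231,-98⟩,⟨217,54,-114⟩⟩ (82,[(3,36702),(2,1115),(0,201)]) (41,[(3,11712),(2,11382),(0,49)]) (41,[(3,22235),(2,9),(0,57)]))))) (.node ⟨0,1,0⟩ (.node ⟨0,0,1⟩ (.node ⟨-18,234,-89⟩ (.node ⟨-234,-18,-89⟩ (.node ⟨-87,-26,234⟩ (.leaf false ⟨⟨-234,-18,-89⟩,⟨-87,-26,234⟩,⟨-26,249,18⟩⟩ (1,[(1,1)]) (1,[(0,1)]) (9,[(3,251),(1,1),(4,2259)])) (.leaf false ⟨⟨-249,30,10⟩,⟨10,150,-201⟩,⟨30,199,150⟩⟩ (753,[(3,590854),(1,1514),(0,1917)]) (2259,[(3,4200736),(1,6395),(0,17460)]) (502,[(3,1435469),(1,1837),(0,5114)]))) (.leaf false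 ⟨⟨-114,217,-54⟩,⟨-98,6,231⟩,⟨201,126,82⟩⟩ (234,[(2,6677),(4,22770),(1,217)]) (3,[(2,604),(4,528),(0,1)]) (1020,[(2,45014),(1,479),(0,913)]))) (.leaf false ⟨⟨-249,10,30⟩,⟨10,-201,150⟩,⟨30,150,199⟩⟩ (89,[(3,22701),(2,7910),(0,30)]) (89,[(3,1810),(2,17211),(0,150)]) (89,[(3,912),(2,59916),(0,199)]))) (.node ⟨-39,234,82⟩ (.node ⟨-242,-39,-54⟩ (.node ⟨39,82,-234⟩ (.leaf false ⟨⟨-242,-39,-54⟩,⟨-54,234,73⟩,⟨39,82,-234⟩⟩ (1,[(1,1)]) (1,[(3,9),(5,15),(2,1)]) (1,[(0,1)])) (.leaf false ⟨⟨-242,-54,39⟩,⟨-54,73,-234⟩,⟨-39,234,82⟩⟩ (39,[(3,55107),(0,242),(4,17738)]) (13,[(3,7254),(0,18),(4,2425)]) (1,[(3,152),(0,1),(4,316)]))) (.leaf false ⟨⟨-249,30,10⟩,⟨10,150,-201⟩,⟨30,199,150⟩⟩ (13,[(2,410),(4,5657),(0,10)]) (13,[(2,5313),(4,11970),(0,50)])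 (39,[(2,4896),(4,46988),(0,199)]))) (.leaf false ⟨⟨-231,6,-98⟩,⟨54,217,-114⟩,⟨82,-126,-201⟩⟩ (41,[(3,11382),(2,11712),(0,49)]) (41,[(3,9),(2,22235),(0,57)]) (82,[(3,1115),(2,36702),(0,201)])))) (.node ⟨0,0,1⟩ (.node ⟨-39,82,234⟩ (.node ⟨-242,-54,-39⟩ (.node ⟨39,-234,82⟩ (.leaf false ⟨⟨-242,-54,-39⟩,⟨-54,73,234⟩,⟨39,-234,82⟩⟩ (1,[(1,1)]) (1,[(2,1),(5,15),(4,9)]) (1,[(0,1)])) (.leaf false ⟨⟨-242,39,-54⟩,⟨-54,-234,73⟩,⟨-39,82,234⟩⟩ (39,[(3,17738),(0,242),(4,55107)]) (13,[(3,2425),(0,18),(4,7254)]) (1,[(3,316),(0,1),(4,152)]))) (.leaf false ⟨⟨-249,10,30⟩,⟨10,-201,150⟩,⟨30,150,199⟩⟩ (13,[(4,5657),(3,410),(0,10)]) (13,[(4,11970),(3,5313),(0,50)]) (39,[(4,46988),(3,4896),(0,199)]))) (.leaf false ⟨⟨-231,-98,6⟩,⟨54,-114,217⟩,⟨82,-201,-126⟩⟩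 (41,[(1,11712),(3,11382),(0,49)]) (41,[(1,22235),(3,9),(0,57)]) (82,[(1,36702),(3,1115),(0,201)]))) (.leaf false ⟨⟨-251,0,0⟩,⟨0,-251,0⟩,⟨0,0,-251⟩⟩ (1,[(2,251)]) (1,[(1,251)]) (1,[(0,251)]))))
theorem pf251_ok : pf251.check (ok 251 6 ⟨5, 5, 5⟩) (fun _ r => r) [] = true := by decide +kernel

def pf257 : T := .node ⟨1,0,0⟩ (.node ⟨0,1,0⟩ (.node ⟨0,0,1⟩ (.node ⟨-159,112,168⟩ (.node ⟨112,192,-129⟩ (.node ⟨-159,168,112⟩ (.leaf false ⟨⟨-159,168,112⟩,⟨112,192,-129⟩,⟨168,31,192⟩⟩ (1,[(0,1)]) (1,[(1,1)]) (112,[(3,16296),(5,23745),(2,31)])) (.leaf false ⟨⟨-159,112,168⟩,⟨112,-129,192⟩,⟨168,192,31⟩⟩ (1,[(2,1)]) (56,[(1,56),(2,321),(0,321)]) (1127,[(1,2247),(2,5016),(0,4624)]))) (.leaf false ⟨⟨-168,31,192⟩,⟨112,-192,129⟩,⟨159,168,112⟩⟩ (15568,[(4,158699),(1,13621),(0,5432)])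 (1,[(4,224),(0,1)]) (3,[(4,795),(3,280),(1,2)]))) (.leaf false ⟨⟨31,192,168⟩,⟨168,112,-159⟩,⟨192,-129,112⟩⟩ (159,[(1,31920),(0,31),(2,34000)]) (53,[(1,981),(0,56),(2,12208)]) (53,[(1,16688),(0,64),(2,331)]))) (.node ⟨-120,132,-185⟩ (.node ⟨57,220,120⟩ (.leaf false ⟨⟨-120,132,-185⟩,⟨57,220,120⟩,⟨220,15,-132⟩⟩ (1,[(1,1)]) (1,[(0,1)]) (44,[(2,6168),(4,9509),(0,3)])) (.leaf false ⟨⟨-113,108,-204⟩,⟨108,-176,-153⟩,⟨204,153,-32⟩⟩ (14135,[(4,236954),(1,14460),(0,1737)]) (40,[(4,7227),(3,4180),(0,51)]) (15,[(4,3288),(3,3175),(0,4)]))) (.leaf false ⟨⟨15,220,-132⟩,⟨132,-120,-185⟩,⟨220,57,120⟩⟩ (8,[(1,1241),(0,1),(2,1892)]) (10,[(1,3885),(0,11),(2,252)]) (6,[(1,1315),(0,11),(2,1794)])))) (.node ⟨0,0,1⟩ (.node ⟨-120,-185,132⟩ (.node ⟨57,120,220⟩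 (.leaf false ⟨⟨-120,-185,132⟩,⟨57,120,220⟩,⟨220,-132,15⟩⟩ (1,[(1,1)]) (1,[(0,1)]) (44,[(4,9509),(3,6168),(0,3)])) (.leaf false ⟨⟨-113,-204,108⟩,⟨108,-153,-176⟩,⟨204,-32,153⟩⟩ (14135,[(4,236954),(0,1737),(1,14460)]) (40,[(2,4180),(4,7227),(0,51)]) (15,[(2,3175),(4,3288),(0,4)]))) (.leaf false ⟨⟨15,-132,220⟩,⟨132,-185,-120⟩,⟨220,120,57⟩⟩ (8,[(1,1892),(0,1),(2,1241)]) (10,[(1,252),(0,11),(2,3885)]) (6,[(1,1794),(0,11),(2,1315)]))) (.node ⟨-32,-255,0⟩ (.leaf false ⟨⟨-32,-255,0⟩,⟨0,0,-257⟩,⟨255,-32,0⟩⟩ (1,[(0,1)]) (1,[(1,257)]) (255,[(3,66049),(0,32)])) (.node ⟨184,-168,63⟩ (.leaf false ⟨⟨39,-32,-252⟩,⟨112,231,-12⟩,⟨228,-108,49⟩⟩ (32,[(2,8064),(1,39),(3,10969)]) (2,[(2,24),(1,7),(3,1323)]) (72,[(1,191),(0,56),(3,47073)])) (.leaf false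 ⟨⟨-228,49,-108⟩,⟨-39,-252,-32⟩,⟨112,12,-231⟩⟩ (56,[(1,153),(3,52399),(0,96)]) (2016,[(1,3431),(3,1554969),(0,1024)]) (12,[(1,295),(3,82473),(0,44)])))))) (.node ⟨0,1,0⟩ (.node ⟨0,0,1⟩ (.node ⟨-185,-120,132⟩ (.node ⟨120,57,220⟩ (.leaf false ⟨⟨-185,-120,132⟩,⟨-132,220,15⟩,⟨120,57,220⟩⟩ (1,[(1,1)]) (44,[(4,6168),(3,9509),(0,3)]) (1,[(0,1)])) (.leaf false ⟨⟨-204,-113,108⟩,⟨-153,108,-176⟩,⟨-32,204,153⟩⟩ (14135,[(1,14460),(0,1737),(3,236954)]) (40,[(2,4180),(0,51),(3,7227)]) (15,[(2,3175),(0,4),(3,3288)]))) (.leaf false ⟨⟨-252,39,-32⟩,⟨-12,112,231⟩,⟨49,228,-108⟩⟩ (40,[(1,436),(3,12485),(0,13)]) (15,[(1,5313),(3,2770),(0,14)]) (10,[(1,1428),(3,3025),(0,19)]))) (.node ⟨0,-32,-255⟩ (.leaf false ⟨⟨-257,0,0⟩,⟨0,-32,-255⟩,⟨0,255,-32⟩⟩ (1,[(3,257)])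 (1,[(0,1)]) (255,[(0,32),(2,66049)])) (.node ⟨63,184,-168⟩ (.leaf false ⟨⟨-252,39,-32⟩,⟨-12,112,231⟩,⟨49,228,-108⟩⟩ (32,[(2,10969),(4,8064),(1,39)]) (2,[(2,1323),(4,24),(1,7)]) (72,[(2,47073),(1,191),(0,56)])) (.leaf false ⟨⟨-255,-32,0⟩,⟨-32,255,0⟩,⟨0,0,-257⟩⟩ (84,[(2,534225),(0,340),(1,1871)]) (2016,[(2,5770047),(0,1024),(1,21953)]) (1,[(2,257)]))))) (.node ⟨0,0,1⟩ (.node ⟨0,-255,-32⟩ (.leaf false ⟨⟨-257,0,0⟩,⟨0,-255,-32⟩,⟨0,-32,255⟩⟩ (1,[(3,257)]) (1,[(0,1)]) (255,[(1,66049),(0,32)])) (.node ⟨63,-168,184⟩ (.leaf false ⟨⟨-252,-32,39⟩,⟨-12,231,112⟩,⟨49,-108,228⟩⟩ (32,[(1,39),(4,8064),(3,10969)]) (2,[(1,7),(4,24),(3,1323)]) (72,[(1,191),(3,47073),(0,56)])) (.leaf false ⟨⟨-255,0,-32⟩,⟨-32,0,255⟩,⟨0,-257,0⟩⟩ (84,[(1,1871),(0,340),(3,534225)])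 (2016,[(1,21953),(0,1024),(3,5770047)]) (1,[(3,257)])))) (.leaf false ⟨⟨-257,0,0⟩,⟨0,-257,0⟩,⟨0,0,-257⟩⟩ (1,[(2,257)]) (1,[(1,257)]) (1,[(0,257)]))))
theorem pf257_ok : pf257.check (ok 257 6 ⟨5, 5, 5⟩) (fun _ r => r) [] = true := by decide +kernel

def pf259 : T := .node ⟨1,0,0⟩ (.node ⟨0,1,0⟩ (.node ⟨0,0,1⟩ (.leaf false ⟨⟨0,0,259⟩,⟨0,259,0⟩,⟨259,0,0⟩⟩ (1,[(0,259)]) (1,[(1,259)]) (1,[(2,259)])) (.node ⟨-110,66,-225⟩ (.node ⟨78,234,79⟩ (.node ⟨241,-54,-78⟩ (.leaf false ⟨⟨-54,97,-234⟩,⟨78,234,79⟩,⟨241,-54,-78⟩⟩ (25,[(5,1510),(4,709),(2,26)]) (1,[(1,1)]) (1,[(0,1)])) (.leaf false ⟨⟨-222,106,81⟩,⟨-74,33,-246⟩,⟨111,234,-2⟩⟩ (27,[(3,1947),(5,6779),(0,53)]) (18,[(3,5286),(5,1319),(0,11)]) (3,[(3,1020),(5,3466),(0,13)]))) (.leaf false ⟨⟨-168,-56,-189⟩,⟨-21,252,-56⟩,⟨196,-21,-168⟩⟩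 (79,[(4,1470),(3,39802),(0,189)]) (79,[(4,2709),(3,33012),(0,56)]) (79,[(4,28588),(3,37653),(0,168)]))) (.leaf false ⟨⟨21,252,-56⟩,⟨168,-56,-189⟩,⟨196,21,168⟩⟩ (110,[(1,10885),(0,21),(2,29106)]) (55,[(1,29295),(0,84),(2,2464)]) (55,[(1,12810),(0,98),(2,7623)])))) (.node ⟨0,0,1⟩ (.node ⟨-110,-225,66⟩ (.node ⟨78,79,234⟩ (.node ⟨241,-78,-54⟩ (.leaf false ⟨⟨-54,-234,97⟩,⟨78,79,234⟩,⟨241,-78,-54⟩⟩ (25,[(3,709),(5,1510),(2,26)]) (1,[(1,1)]) (1,[(0,1)])) (.leaf false ⟨⟨-222,-74,111⟩,⟨34,177,186⟩,⟨129,-174,142⟩⟩ (18,[(5,4921),(4,4218),(0,37)]) (9,[(5,7777),(4,825),(0,31)]) (27,[(5,20594),(4,10236),(0,71)]))) (.leaf false ⟨⟨-168,-189,-56⟩,⟨-21,-56,252⟩,⟨196,-168,-21⟩⟩ (79,[(2,39802),(4,1470),(0,189)]) (79,[(2,33012),(4,2709),(0,56)]) (79,[(2,37653),(4,28588),(0,168)])))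 (.leaf false ⟨⟨21,-56,252⟩,⟨168,-189,-56⟩,⟨196,168,21⟩⟩ (110,[(1,29106),(0,21),(2,10885)]) (55,[(1,2464),(0,84),(2,29295)]) (55,[(1,7623),(0,98),(2,12810)]))) (.node ⟨0,84,-245⟩ (.leaf false ⟨⟨0,-245,-84⟩,⟨0,84,-245⟩,⟨259,0,0⟩⟩ (35,[(0,12),(2,9583)]) (1,[(0,1)]) (1,[(3,259)])) (.leaf false ⟨⟨0,-245,84⟩,⟨0,-84,-245⟩,⟨259,0,0⟩⟩ (12,[(1,7567),(0,35)]) (1,[(1,490),(0,1)]) (1,[(3,259)]))))) (.node ⟨0,1,0⟩ (.node ⟨0,0,1⟩ (.node ⟨-225,-110,66⟩ (.node ⟨79,78,234⟩ (.node ⟨-78,241,-54⟩ (.leaf false ⟨⟨-234,-54,97⟩,⟨-78,241,-54⟩,⟨79,78,234⟩⟩ (25,[(3,709),(2,26),(4,1510)]) (1,[(0,1)]) (1,[(1,1)])) (.leaf false ⟨⟨-246,-74,33⟩,⟨-2,111,234⟩,⟨81,-222,106⟩⟩ (18,[(5,5286),(4,1319),(0,11)]) (3,[(5,1020),(4,3466),(0,13)]) (27,[(5,1947),(4,6779),(0,53)])))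 (.leaf false ⟨⟨-245,0,84⟩,⟨-84,0,-245⟩,⟨0,259,0⟩⟩ (79,[(2,63966),(0,245),(3,19110)]) (79,[(2,301),(0,84),(3,6552)]) (1,[(3,259)]))) (.leaf false ⟨⟨-234,78,79⟩,⟨54,241,-78⟩,⟨97,54,234⟩⟩ (55,[(1,6919),(3,21645),(0,39)]) (110,[(1,7326),(3,48285),(0,241)]) (55,[(1,14652),(3,740),(0,27)]))) (.node ⟨84,0,-245⟩ (.leaf false ⟨⟨-245,0,-84⟩,⟨0,259,0⟩,⟨84,0,-245⟩⟩ (35,[(3,9583),(0,12)]) (1,[(2,259)]) (1,[(0,1)])) (.leaf false ⟨⟨-245,0,84⟩,⟨-84,0,-245⟩,⟨0,259,0⟩⟩ (12,[(1,7567),(0,35)]) (1,[(1,490),(0,1)]) (1,[(2,259)])))) (.node ⟨0,0,1⟩ (.node ⟨84,-245,0⟩ (.leaf false ⟨⟨-245,-84,0⟩,⟨0,0,259⟩,⟨84,-245,0⟩⟩ (35,[(3,9583),(0,12)]) (1,[(1,259)]) (1,[(0,1)])) (.leaf false ⟨⟨-245,84,0⟩,⟨-84,-245,0⟩,⟨0,0,259⟩⟩ (12,[(0,35),(2,7567)]) (1,[(0,1),(2,490)])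 (1,[(1,259)]))) (.node ⟨-47,174,-186⟩ (.node ⟨-218,-114,81⟩ (.node ⟨54,-207,-146⟩ (.leaf false ⟨⟨-218,-114,81⟩,⟨-129,106,-198⟩,⟨54,-207,-146⟩⟩ (1,[(1,1)]) (31,[(2,33),(5,2448),(4,2456)]) (1,[(0,1)])) (.leaf false ⟨⟨-246,-81,-2⟩,⟨-74,222,111⟩,⟨-33,106,-234⟩⟩ (9,[(3,6004),(0,41),(4,9216)]) (27,[(3,2405),(0,37),(4,1665)]) (18,[(3,5818),(0,11),(4,369)]))) (.leaf false ⟨⟨-246,-47,-66⟩,⟨18,174,-191⟩,⟨79,-186,-162⟩⟩ (27,[(4,11438),(3,3777),(0,22)]) (81,[(4,40180),(3,7680),(0,191)]) (1,[(4,357),(3,414),(0,2)]))) (.node ⟨79,-162,-186⟩ (.leaf false ⟨⟨-246,-66,-47⟩,⟨18,-191,174⟩,⟨79,-162,-186⟩⟩ (29,[(2,3409),(4,7651),(1,11)]) (174,[(2,5250),(4,5845),(1,191)]) (1,[(0,1)])) (.leaf false ⟨⟨-246,-33,-74⟩,⟨-81,106,222⟩,⟨-2,-234,111⟩⟩ (2044,[(2,5533724),(0,14785),(1,14153)])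 (1533,[(2,304164),(0,2278),(1,1187)]) (1022,[(2,821394),(0,1891),(1,3135)]))))))
theorem pf259_ok : pf259.check (ok 259 6 ⟨5, 5, 5⟩) (fun _ r => r) [] = true := by decide +kernel

def pf263 : T := .node ⟨1,0,0⟩ (.node ⟨0,1,0⟩ (.node ⟨0,0,1⟩ (.node ⟨-162,70,195⟩ (.node ⟨-30,237,-110⟩ (.leaf false ⟨⟨-162,70,195⟩,⟨-30,237,-110⟩,⟨205,90,138⟩⟩ (1,[(1,1)]) (1,[(0,1)]) (79,[(2,14202),(4,17095),(0,30)])) (.leaf false ⟨⟨-110,195,138⟩,⟨-30,-162,205⟩,⟨237,70,90⟩⟩ (65,[(4,302),(3,9455),(1,46)]) (263,[(3,22092),(1,105),(0,304)]) (11,[(4,2337),(3,2903),(0,9)]))) (.leaf false ⟨⟨42,259,18⟩,⟨178,-42,189⟩,⟨189,-18,-182⟩⟩ (27,[(1,1851),(0,7),(2,7483)]) (81,[(1,32664),(0,89),(2,2828)]) (6,[(1,273),(0,7),(2,382)]))) (.node ⟨-114,222,-83⟩ (.node ⟨-2,-93,-246⟩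 (.leaf false ⟨⟨-114,222,-83⟩,⟨-2,-93,-246⟩,⟨237,106,-42⟩⟩ (1,[(1,1)]) (1,[(0,1)]) (41,[(4,9731),(3,4997),(0,7)])) (.leaf false ⟨⟨-110,237,-30⟩,⟨138,90,205⟩,⟨195,70,-162⟩⟩ (1841,[(2,13676),(0,433),(1,1784)]) (31,[(2,1025),(4,4218),(0,30)]) (111,[(2,15077),(4,25635),(1,35)]))) (.leaf false ⟨⟨42,246,-83⟩,⟨106,-93,-222⟩,⟨237,-2,114⟩⟩ (19,[(1,2158),(0,7),(2,6228)]) (57,[(1,17053),(0,53),(2,6465)]) (38,[(1,2225),(0,79),(2,17462)])))) (.node ⟨0,0,1⟩ (.node ⟨-114,-83,222⟩ (.node ⟨-2,-246,-93⟩ (.leaf false ⟨⟨-114,-83,222⟩,⟨-2,-246,-93⟩,⟨237,-42,106⟩⟩ (1,[(1,1)]) (1,[(0,1)]) (41,[(2,4997),(4,9731),(0,7)])) (.leaf false ⟨⟨-110,-30,237⟩,⟨138,205,90⟩,⟨195,-162,70⟩⟩ (1841,[(3,13676),(1,1784),(0,433)]) (31,[(4,4218),(3,1025),(0,30)]) (111,[(4,25635),(3,15077),(1,35)])))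 (.leaf false ⟨⟨42,-83,246⟩,⟨106,-222,-93⟩,⟨237,114,-2⟩⟩ (19,[(1,6228),(0,7),(2,2158)]) (57,[(1,6465),(0,53),(2,17053)]) (38,[(1,17462),(0,79),(2,2225)]))) (.node ⟨-146,-162,-147⟩ (.node ⟨142,99,-198⟩ (.node ⟨142,-198,99⟩ (.leaf false ⟨⟨-99,-182,-162⟩,⟨142,99,-198⟩,⟨198,-162,61⟩⟩ (49,[(5,3033),(4,170),(2,54)]) (1,[(1,1)]) (11,[(3,220),(5,900),(0,9)])) (.leaf false ⟨⟨-198,61,-162⟩,⟨99,-162,-182⟩,⟨142,198,-99⟩⟩ (11,[(5,378),(4,2893),(0,18)]) (99,[(5,35645),(4,52074),(0,182)]) (1,[(5,284),(0,1)]))) (.leaf false ⟨⟨-198,-162,61⟩,⟨99,-182,-162⟩,⟨142,-99,198⟩⟩ (11,[(2,2893),(4,378),(0,18)]) (99,[(2,52074),(4,35645),(0,182)]) (1,[(4,284),(0,1)]))) (.node ⟨99,162,-182⟩ (.leaf false ⟨⟨99,162,-182⟩,⟨142,-198,-99⟩,⟨198,61,162⟩⟩ (1,[(0,1)]) (73,[(2,17664),(1,71),(3,25956)])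 (73,[(2,2727),(1,99),(3,11585)])) (.leaf false ⟨⟨-126,-227,42⟩,⟨147,-42,214⟩,⟨178,-126,-147⟩⟩ (7614,[(2,2300039),(1,2061),(0,12730)]) (1269,[(2,1322110),(1,4662),(0,4991)]) (423,[(2,877114),(1,2295),(0,2624)])))))) (.node ⟨0,1,0⟩ (.node ⟨0,0,1⟩ (.node ⟨-83,222,-114⟩ (.node ⟨-246,-93,-2⟩ (.leaf false ⟨⟨-246,-93,-2⟩,⟨-83,222,-114⟩,⟨-42,106,237⟩⟩ (1,[(0,1)]) (1,[(1,1)]) (41,[(2,9731),(0,7),(3,4997)])) (.leaf false ⟨⟨-182,189,-18⟩,⟨18,42,259⟩,⟨189,178,-42⟩⟩ (74,[(2,5850),(4,8239),(1,63)]) (31,[(2,8001),(4,2886),(0,14)]) (5523,[(4,128344),(1,2131),(0,5484)]))) (.leaf false ⟨⟨-237,-42,106⟩,⟨-2,246,93⟩,⟨114,-83,222⟩⟩ (57,[(3,17908),(2,9372),(0,53)]) (38,[(3,2649),(2,16230),(0,31)]) (19,[(3,905),(2,6637),(0,37)]))) (.node ⟨-147,-146,-162⟩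 (.node ⟨-198,142,99⟩ (.node ⟨99,142,-198⟩ (.leaf false ⟨⟨-198,142,99⟩,⟨-162,-99,-182⟩,⟨61,198,-162⟩⟩ (1,[(1,1)]) (49,[(3,170),(2,54),(4,3033)]) (11,[(5,220),(4,900),(0,9)])) (.leaf false ⟨⟨-222,-2,141⟩,⟨-138,-51,-218⟩,⟨-29,258,-42⟩⟩ (33,[(3,9999),(0,74),(4,10442)]) (33,[(3,16302),(0,46),(4,4849)]) (99,[(3,9900),(0,29),(4,29660)]))) (.leaf false ⟨⟨-258,-29,-42⟩,⟨-2,222,-141⟩,⟨51,-138,-218⟩⟩ (33,[(4,11286),(3,1031),(0,14)]) (33,[(4,9372),(3,14000),(0,47)]) (99,[(4,38115),(3,17294),(0,218)]))) (.node ⟨-182,99,162⟩ (.leaf false ⟨⟨-182,99,162⟩,⟨-99,142,-198⟩,⟨162,198,61⟩⟩ (1,[(0,1)]) (73,[(2,25956),(4,17664),(1,71)]) (73,[(2,11585),(4,2727),(1,99)])) (.leaf false ⟨⟨-258,-2,-51⟩,⟨-29,222,138⟩,⟨42,141,-218⟩⟩ (2538,[(4,1318397),(1,1575),(0,2374)])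 (1269,[(4,1062952),(1,3717),(0,2636)]) (3807,[(4,8080240),(1,22212),(0,27335)]))))) (.node ⟨0,0,1⟩ (.node ⟨-147,-162,-146⟩ (.node ⟨-198,99,142⟩ (.node ⟨99,-198,142⟩ (.leaf false ⟨⟨-198,99,142⟩,⟨-162,-182,-99⟩,⟨61,-162,198⟩⟩ (1,[(1,1)]) (49,[(3,3033),(2,54),(4,170)]) (11,[(3,900),(5,220),(0,9)])) (.leaf false ⟨⟨-222,141,-2⟩,⟨-138,-218,-51⟩,⟨-29,-42,258⟩⟩ (33,[(3,10442),(0,74),(4,9999)]) (33,[(3,4849),(0,46),(4,16302)]) (99,[(3,29660),(0,29),(4,9900)]))) (.leaf false ⟨⟨-258,-42,-29⟩,⟨-2,-141,222⟩,⟨51,-218,-138⟩⟩ (33,[(2,1031),(4,11286),(0,14)]) (33,[(2,14000),(4,9372),(0,47)]) (99,[(2,17294),(4,38115),(0,218)]))) (.node ⟨-182,162,99⟩ (.leaf false ⟨⟨-182,162,99⟩,⟨-99,-198,142⟩,⟨162,61,198⟩⟩ (1,[(0,1)]) (73,[(4,17664),(3,25956),(1,71)])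 (73,[(4,2727),(3,11585),(1,99)])) (.leaf false ⟨⟨-258,-51,-2⟩,⟨-29,138,222⟩,⟨42,-218,141⟩⟩ (2538,[(4,1318397),(0,2374),(1,1575)]) (1269,[(4,1062952),(0,2636),(1,3717)]) (3807,[(4,8080240),(0,27335),(1,22212)])))) (.leaf false ⟨⟨-263,0,0⟩,⟨0,-263,0⟩,⟨0,0,-263⟩⟩ (1,[(2,263)]) (1,[(1,263)]) (1,[(0,263)]))))
theorem pf263_ok : pf263.check (ok 263 6 ⟨5, 5, 5⟩) (fun _ r => r) [] = true := by decide +kernel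

def pf265 : T := .node ⟨1,0,0⟩ (.node ⟨0,1,0⟩ (.node ⟨0,0,1⟩ (.leaf false ⟨⟨0,0,265⟩,⟨0,265,0⟩,⟨265,0,0⟩⟩ (1,[(0,265)]) (1,[(1,265)]) (1,[(2,265)])) (.node ⟨-23,0,-264⟩ (.leaf false ⟨⟨-23,0,-264⟩,⟨0,265,0⟩,⟨264,0,-23⟩⟩ (1,[(0,1)]) (1,[(2,265)]) (264,[(3,70225),(0,23)])) (.leaf false ⟨⟨0,265,0⟩,⟨96,0,247⟩,⟨247,0,-96⟩⟩ (1,[(2,265)]) (23,[(1,19663),(0,96)]) (23,[(1,67416),(0,247)])))) (.node ⟨0,0,1⟩ (.node ⟨-23,-264,0⟩ (.leaf false ⟨⟨-23,-264,0⟩,⟨0,0,265⟩,⟨264,-23,0⟩⟩ (1,[(0,1)]) (1,[(1,265)]) (264,[(3,70225),(0,23)])) (.leaf false ⟨⟨0,0,265⟩,⟨96,247,0⟩,⟨247,-96,0⟩⟩ (1,[(1,265)]) (23,[(0,96),(2,19663)]) (23,[(0,247),(2,67416)]))) (.node ⟨0,159,-212⟩ (.leaf false ⟨⟨0,-212,-159⟩,⟨0,159,-212⟩,⟨265,0,0⟩⟩ (4,[(0,3),(2,1325)]) (1,[(0,1)])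 (1,[(3,265)])) (.leaf false ⟨⟨0,-212,159⟩,⟨0,-159,-212⟩,⟨265,0,0⟩⟩ (3,[(1,371),(0,4)]) (1,[(1,424),(0,1)]) (1,[(3,265)]))))) (.node ⟨0,1,0⟩ (.node ⟨0,0,1⟩ (.node ⟨-264,-23,0⟩ (.leaf false ⟨⟨-264,-23,0⟩,⟨-23,264,0⟩,⟨0,0,265⟩⟩ (1,[(0,1)]) (264,[(0,23),(2,70225)]) (1,[(1,265)])) (.leaf false ⟨⟨-96,247,0⟩,⟨0,0,265⟩,⟨247,96,0⟩⟩ (23,[(3,67416),(0,247)]) (1,[(1,265)]) (23,[(3,19663),(0,96)]))) (.node ⟨159,0,-212⟩ (.leaf false ⟨⟨-212,0,-159⟩,⟨0,265,0⟩,⟨159,0,-212⟩⟩ (4,[(3,1325),(0,3)]) (1,[(2,265)]) (1,[(0,1)])) (.leaf false ⟨⟨-212,0,159⟩,⟨-159,0,-212⟩,⟨0,265,0⟩⟩ (3,[(1,371),(0,4)]) (1,[(1,424),(0,1)]) (1,[(2,265)])))) (.node ⟨0,0,1⟩ (.node ⟨159,-212,0⟩ (.leaf false ⟨⟨-212,-159,0⟩,⟨0,0,265⟩,⟨159,-212,0⟩⟩ (4,[(3,1325),(0,3)]) (1,[(1,265)])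 (1,[(0,1)])) (.leaf false ⟨⟨-212,159,0⟩,⟨-159,-212,0⟩,⟨0,0,265⟩⟩ (3,[(0,4),(2,371)]) (1,[(0,1),(2,424)]) (1,[(1,265)]))) (.node ⟨-140,135,-180⟩ (.node ⟨-225,-84,112⟩ (.leaf false ⟨⟨-225,-84,112⟩,⟨-140,135,-180⟩,⟨0,-212,-159⟩⟩ (1,[(0,1)]) (1,[(1,1)]) (1,[(2,159),(3,212)])) (.leaf false ⟨⟨-225,-140,0⟩,⟨-84,135,-212⟩,⟨112,-180,-159⟩⟩ (1,[(4,225),(3,140)]) (28,[(4,14277),(3,672),(0,53)]) (112,[(4,23231),(3,33516),(0,159)]))) (.leaf false ⟨⟨-257,-60,-24⟩,⟨24,-180,193⟩,⟨60,-185,-180⟩⟩ (9,[(1,936),(3,2873),(0,4)]) (3,[(1,141),(3,488),(0,4)]) (27,[(1,11520),(3,3560),(0,37)])))))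
theorem pf265_ok : pf265.check (ok 265 6 ⟨5, 5, 5⟩) (fun _ r => r) [] = true := by decide +kernel


end H34S
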