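import Pool.Agent.Lib.H34S.Cover

/-!
# H34S: certificates (generated), pentagonal numbers
-/

set_option autoImplicit false

namespace H34S

def pf269 : T := .node ⟨1,0,0⟩ (.node ⟨0,1,0⟩ (.node ⟨0,0,1⟩ (.node ⟨-197,96,156⟩ (.node ⟨96,208,-141⟩ (.node ⟨-197,156,96⟩ (.leaf false ⟨⟨-197,156,96⟩,⟨96,208,-141⟩,⟨156,69,208⟩⟩ (1,[(0,1)]) (1,[(1,1)]) (32,[(3,3068),(5,9523),(2,23)])) (.leaf false ⟨⟨-197,96,156⟩,⟨96,-141,208⟩,⟨156,208,69⟩⟩ (1,[(2,1)]) (60,[(1,60),(2,349),(0,349)]) (139,[(1,349),(2,884),(0,824)]))) (.leaf false ⟨⟨-197,96,156⟩,⟨96,-141,208⟩,⟨156,208,69⟩⟩ (1,[(1,1)]) (141,[(4,33504),(3,23383),(0,208)]) (52,[(4,12643),(3,8608),(1,23)]))) (.node ⟨156,-197,96⟩ (.leaf false ⟨⟨69,156,208⟩,⟨156,-197,96⟩,⟨208,96,-141⟩⟩ (52,[(2,8608),(0,23),(3,12643)])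 (1,[(0,1)]) (197,[(2,4671),(1,208),(3,38880)])) (.leaf false ⟨⟨-141,208,96⟩,⟨96,156,-197⟩,⟨208,69,156⟩⟩ (23833,[(2,5650884),(1,4671),(0,27440)]) (23833,[(2,5886595),(1,43248),(0,39948)]) (23833,[(2,15011244),(1,51740),(0,33561)])))) (.node ⟨-48,19,-264⟩ (.node ⟨261,-44,-48⟩ (.node ⟨48,264,19⟩ (.leaf false ⟨⟨-44,27,-264⟩,⟨48,264,19⟩,⟨261,-44,-48⟩⟩ (1,[(5,4),(4,8),(2,1)]) (1,[(0,1)]) (1,[(1,1)])) (.leaf false ⟨⟨-224,-48,-141⟩,⟨84,-251,-48⟩,⟨123,84,-224⟩⟩ (19,[(5,2512),(4,36312),(0,141)]) (19,[(5,3900),(4,7903),(0,48)]) (19,[(5,13089),(4,60732),(0,224)]))) (.leaf false ⟨⟨-261,64,12⟩,⟨12,96,-251⟩,⟨64,243,96⟩⟩ (11,[(2,636),(4,1305),(0,16)]) (11,[(2,3913),(4,6396),(0,24)]) (44,[(2,7440),(4,66239),(0,243)]))) (.leaf false ⟨⟨36,189,-188⟩,⟨84,172,189⟩,⟨253,-84,-36⟩⟩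 (4,[(1,1544),(0,3),(2,813)]) (4,[(1,1092),(0,7),(2,821)]) (48,[(1,68520),(0,253),(2,775)])))) (.node ⟨0,0,1⟩ (.node ⟨-48,-264,19⟩ (.node ⟨261,-48,-44⟩ (.node ⟨48,19,264⟩ (.leaf false ⟨⟨-44,-264,27⟩,⟨48,19,264⟩,⟨261,-48,-44⟩⟩ (1,[(3,8),(5,4),(2,1)]) (1,[(0,1)]) (1,[(1,1)])) (.leaf false ⟨⟨-224,-141,-48⟩,⟨84,-48,-251⟩,⟨123,-224,84⟩⟩ (19,[(3,36312),(5,2512),(0,141)]) (19,[(3,7903),(5,3900),(0,48)]) (19,[(3,60732),(5,13089),(0,224)]))) (.leaf false ⟨⟨-261,12,64⟩,⟨12,-251,96⟩,⟨64,96,243⟩⟩ (11,[(4,1305),(3,636),(0,16)]) (11,[(4,6396),(3,3913),(0,24)]) (44,[(4,66239),(3,7440),(0,243)]))) (.leaf false ⟨⟨36,-188,189⟩,⟨84,189,172⟩,⟨253,-36,-84⟩⟩ (4,[(1,813),(0,3),(2,1544)]) (4,[(1,821),(0,7),(2,1092)]) (48,[(1,775),(0,253),(2,68520)]))) (.node ⟨64,96,-243⟩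 (.node ⟨64,-243,96⟩ (.node ⟨261,-12,64⟩ (.leaf false ⟨⟨12,-251,-96⟩,⟨64,96,-243⟩,⟨261,-12,64⟩⟩ (16,[(3,1824),(1,3),(4,3287)]) (1,[(2,1)]) (1,[(0,1)])) (.leaf false ⟨⟨-260,0,-69⟩,⟨0,-269,0⟩,⟨69,0,-260⟩⟩ (1600,[(5,64355),(1,92),(0,1863)]) (52545,[(2,20960),(1,67519),(0,21696)]) (240,[(5,288065),(1,52),(0,1053)]))) (.leaf false ⟨⟨-147,24,-224⟩,⟨64,-252,-69⟩,⟨216,91,-132⟩⟩ (3,[(4,7),(3,1629),(0,7)]) (32,[(4,3520),(3,13653),(0,23)]) (8,[(4,2432),(3,1945),(0,11)]))) (.leaf false ⟨⟨-147,-224,24⟩,⟨64,-69,-252⟩,⟨216,-132,91⟩⟩ (3,[(1,1629),(3,7),(0,7)]) (32,[(1,13653),(3,3520),(0,23)]) (8,[(1,1945),(3,2432),(0,11)]))))) (.node ⟨0,1,0⟩ (.node ⟨0,0,1⟩ (.node ⟨-264,-48,19⟩ (.node ⟨-48,261,-44⟩ (.node ⟨19,48,264⟩ (.leaf false ⟨⟨-264,-44,27⟩,⟨-48,261,-44⟩,⟨19,48,264⟩⟩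 (1,[(3,8),(2,1),(4,4)]) (1,[(1,1)]) (1,[(0,1)])) (.leaf false ⟨⟨-261,-48,-44⟩,⟨-48,19,264⟩,⟨-44,264,-27⟩⟩ (19,[(3,68068),(0,261),(4,11616)]) (19,[(3,17688),(0,48),(4,2665)]) (19,[(3,11103),(0,44),(4,7128)]))) (.leaf false ⟨⟨-264,-48,19⟩,⟨-44,261,48⟩,⟨27,-44,264⟩⟩ (44,[(4,12528),(3,2847),(0,19)]) (11,[(4,1060),(3,6003),(0,12)]) (1,[(4,261),(3,1522),(0,6)]))) (.leaf false ⟨⟨-188,36,189⟩,⟨-36,253,-84⟩,⟨189,84,172⟩⟩ (4,[(1,813),(3,1544),(0,3)]) (48,[(1,775),(3,68520),(0,253)]) (4,[(1,821),(3,1092),(0,7)]))) (.node ⟨96,64,-243⟩ (.node ⟨-243,64,96⟩ (.node ⟨-12,261,64⟩ (.leaf false ⟨⟨-251,12,-96⟩,⟨-12,261,64⟩,⟨96,64,-243⟩⟩ (16,[(3,1824),(5,3287),(1,3)]) (1,[(0,1)]) (1,[(2,1)])) (.leaf false ⟨⟨-269,0,0⟩,⟨0,-260,-69⟩,⟨0,69,-260⟩⟩ (52545,[(1,67519),(2,20960),(0,21696)])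 (1600,[(1,92),(4,64355),(0,1863)]) (240,[(1,52),(4,288065),(0,1053)]))) (.leaf false ⟨⟨-261,64,-12⟩,⟨-12,-96,-251⟩,⟨64,243,-96⟩⟩ (8,[(4,2331),(3,576),(0,1)]) (96,[(4,62145),(3,6848),(0,251)]) (1,[(4,179),(3,307),(0,1)]))) (.leaf false ⟨⟨-251,-96,-12⟩,⟨-96,243,64⟩,⟨-12,64,-261⟩⟩ (96,[(1,62145),(0,251),(2,6848)]) (1,[(1,179),(0,1),(2,307)]) (8,[(1,2331),(0,1),(2,576)])))) (.node ⟨0,0,1⟩ (.node ⟨96,-243,64⟩ (.node ⟨-243,96,64⟩ (.node ⟨-12,64,261⟩ (.leaf false ⟨⟨-251,-96,12⟩,⟨-12,64,261⟩,⟨96,-243,64⟩⟩ (16,[(1,3),(5,3287),(4,1824)]) (1,[(0,1)]) (1,[(2,1)])) (.leaf false ⟨⟨-269,0,0⟩,⟨0,-260,69⟩,⟨0,-69,-260⟩⟩ (52545,[(1,67519),(0,21696),(2,20960)]) (240,[(3,288065),(1,52),(0,1053)]) (1600,[(3,64355),(1,92),(0,1863)]))) (.leaf false ⟨⟨-261,-12,64⟩,⟨-12,-251,-96⟩,⟨64,-96,243⟩⟩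 (8,[(2,576),(4,2331),(0,1)]) (96,[(2,6848),(4,62145),(0,251)]) (1,[(2,307),(4,179),(0,1)]))) (.leaf false ⟨⟨-251,-12,-96⟩,⟨-96,64,243⟩,⟨-12,-261,64⟩⟩ (96,[(1,6848),(0,251),(2,62145)]) (1,[(1,307),(0,1),(2,179)]) (8,[(1,576),(0,1),(2,2331)]))) (.leaf false ⟨⟨-269,0,0⟩,⟨0,-269,0⟩,⟨0,0,-269⟩⟩ (1,[(2,269)]) (1,[(1,269)]) (1,[(0,269)]))))
theorem pf269_ok : pf269.check (ok 269 6 ⟨5, 5, 5⟩) (fun _ r => r) [] = true := by decide +kernel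

def pf271 : T := .node ⟨1,0,0⟩ (.node ⟨0,1,0⟩ (.node ⟨0,0,1⟩ (.leaf false ⟨⟨0,0,271⟩,⟨0,271,0⟩,⟨271,0,0⟩⟩ (1,[(0,271)]) (1,[(1,271)]) (1,[(2,271)])) (.node ⟨-69,46,-258⟩ (.node ⟨-69,262,-6⟩ (.node ⟨6,267,46⟩ (.leaf false ⟨⟨-69,46,-258⟩,⟨6,267,46⟩,⟨262,6,-69⟩⟩ (1,[(2,1)]) (1,[(0,1)]) (23,[(3,813),(5,6233),(2,3)])) (.leaf false ⟨⟨-206,-42,-171⟩,⟨123,154,-186⟩,⟨126,-219,-98⟩⟩ (13654,[(5,474625),(1,43725),(0,45054)]) (23,[(5,3387),(4,28373),(0,93)]) (23,[(5,3192),(4,8046),(0,49)]))) (.leaf false ⟨⟨10,171,-210⟩,⟨21,-210,-170⟩,⟨270,10,21⟩⟩ (2898,[(3,1129398),(1,2425),(0,2845)]) (1449,[(3,24660),(1,988),(0,1429)]) (1932,[(3,2004144),(1,19),(0,7579)]))) (.leaf false ⟨⟨6,46,-267⟩,⟨69,258,46⟩,⟨262,-69,-6⟩⟩ (23,[(1,6657),(0,2),(2,1150)]) (1,[(1,212),(0,1),(2,304)])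 (69,[(1,68010),(0,262),(2,7291)])))) (.node ⟨0,0,1⟩ (.node ⟨-69,-258,46⟩ (.node ⟨-69,-6,262⟩ (.node ⟨6,46,267⟩ (.leaf false ⟨⟨-69,-258,46⟩,⟨6,46,267⟩,⟨262,-69,6⟩⟩ (1,[(2,1)]) (1,[(0,1)]) (23,[(5,6233),(4,813),(2,3)])) (.leaf false ⟨⟨-206,-171,-42⟩,⟨123,-186,154⟩,⟨126,-98,-219⟩⟩ (3138,[(3,474625),(0,10563),(1,8450)]) (23,[(3,28373),(5,3387),(0,93)]) (23,[(3,8046),(5,3192),(0,49)]))) (.leaf false ⟨⟨10,-210,171⟩,⟨21,-170,-210⟩,⟨270,21,10⟩⟩ (2898,[(2,1129398),(0,2845),(1,2425)]) (1449,[(2,24660),(0,1429),(1,988)]) (1932,[(2,2004144),(0,7579),(1,19)]))) (.leaf false ⟨⟨6,-267,46⟩,⟨69,46,258⟩,⟨262,-6,-69⟩⟩ (23,[(1,1150),(0,2),(2,6657)]) (1,[(1,304),(0,1),(2,212)]) (69,[(1,7291),(0,262),(2,68010)]))) (.node ⟨165,154,-150⟩ (.node ⟨234,-102,91⟩ (.node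 ⟨-53,-234,-126⟩ (.leaf false ⟨⟨-53,-234,-126⟩,⟨126,91,-222⟩,⟨234,-102,91⟩⟩ (1,[(0,1)]) (22,[(3,2934),(2,13),(5,627)]) (1,[(1,1)])) (.leaf false ⟨⟨42,-206,-171⟩,⟨154,-123,186⟩,⟨219,126,-98⟩⟩ (53,[(3,14355),(0,42),(4,20746)]) (53,[(3,9546),(0,154),(4,42555)]) (53,[(3,32788),(0,219),(4,44568)]))) (.leaf false ⟨⟨-234,27,-134⟩,⟨69,-206,-162⟩,⟨118,174,-171⟩⟩ (91,[(4,10062),(3,11211),(0,134)]) (91,[(4,44187),(3,35270),(0,162)]) (91,[(4,50752),(3,1608),(0,171)]))) (.leaf false ⟨⟨-186,-197,-6⟩,⟨78,-66,-251⟩,⟨181,-174,102⟩⟩ (154,[(1,30474),(3,3861),(0,197)]) (7,[(1,2207),(3,1041),(0,3)]) (77,[(1,5196),(3,28292),(0,87)]))))) (.node ⟨0,1,0⟩ (.node ⟨0,0,1⟩ (.node ⟨-258,-69,46⟩ (.node ⟨-6,-69,262⟩ (.node ⟨46,6,267⟩ (.leaf false ⟨⟨-258,-69,46⟩,⟨-69,262,6⟩,⟨46,6,267⟩⟩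 (1,[(2,1)]) (23,[(2,3),(5,813),(4,6233)]) (1,[(0,1)])) (.leaf false ⟨⟨-251,-102,-6⟩,⟨-78,181,186⟩,⟨-66,174,-197⟩⟩ (1046,[(3,1202403),(1,1062),(0,5569)]) (23,[(3,14691),(0,39),(4,4397)]) (23,[(3,4280),(0,33),(4,4200)]))) (.leaf false ⟨⟨-210,10,171⟩,⟨-170,21,-210⟩,⟨21,270,10⟩⟩ (2898,[(2,1129398),(1,2425),(0,2845)]) (1449,[(2,24660),(1,988),(0,1429)]) (1932,[(2,2004144),(1,19),(0,7579)]))) (.leaf false ⟨⟨-267,6,46⟩,⟨-6,262,-69⟩,⟨46,69,258⟩⟩ (23,[(1,1150),(3,6657),(0,2)]) (69,[(1,7291),(3,68010),(0,262)]) (1,[(1,304),(3,212),(0,1)]))) (.node ⟨-75,210,154⟩ (.node ⟨91,126,-222⟩ (.node ⟨-234,-53,-126⟩ (.leaf false ⟨⟨-234,-53,-126⟩,⟨-102,234,91⟩,⟨91,126,-222⟩⟩ (1,[(0,1)]) (22,[(5,1269),(2,13),(4,2418)]) (1,[(1,1)])) (.leaf false ⟨⟨-251,78,66⟩,⟨6,186,-197⟩,⟨102,181,174⟩⟩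 (53,[(3,6330),(5,31555),(0,78)]) (53,[(3,33877),(5,43206),(0,186)]) (53,[(3,13584),(5,36948),(0,181)]))) (.leaf false ⟨⟨-251,-102,-6⟩,⟨-78,181,186⟩,⟨-66,174,-197⟩⟩ (91,[(2,56268),(0,251),(3,22344)]) (7,[(2,30),(0,6),(3,2023)]) (91,[(2,32579),(0,66),(3,24150)]))) (.leaf false ⟨⟨-270,10,-21⟩,⟨10,-171,-210⟩,⟨21,210,-170⟩⟩ (22,[(3,6165),(2,850),(0,3)]) (11,[(3,1015),(2,1269),(0,15)]) (77,[(3,4758),(2,34020),(0,85)])))) (.node ⟨0,0,1⟩ (.node ⟨-75,154,210⟩ (.node ⟨91,-222,126⟩ (.node ⟨-234,-126,-53⟩ (.leaf false ⟨⟨-234,-126,-53⟩,⟨-102,91,234⟩,⟨91,-222,126⟩⟩ (1,[(0,1)]) (22,[(3,2418),(2,13),(5,1269)]) (1,[(1,1)])) (.leaf false ⟨⟨-251,6,102⟩,⟨66,-197,174⟩,⟨78,186,181⟩⟩ (53,[(5,37171),(4,12534),(0,102)]) (53,[(5,37218),(4,32365),(0,174)]) (53,[(5,38220),(4,12948),(0,181)])))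 (.leaf false ⟨⟨-251,-66,-78⟩,⟨-102,174,181⟩,⟨-6,-197,186⟩⟩ (91,[(2,24528),(0,251),(3,61728)]) (91,[(2,29323),(0,102),(3,6810)]) (91,[(2,17682),(0,6),(3,19259)]))) (.leaf false ⟨⟨-270,-21,10⟩,⟨10,-210,-171⟩,⟨21,-170,210⟩⟩ (22,[(1,850),(3,6165),(0,3)]) (11,[(1,1269),(3,1015),(0,15)]) (77,[(1,34020),(3,4758),(0,85)]))) (.node ⟨-134,162,-171⟩ (.node ⟨-234,-69,118⟩ (.leaf false ⟨⟨-234,-69,118⟩,⟨-134,162,-171⟩,⟨-27,-206,-174⟩⟩ (1,[(0,1)]) (1,[(1,1)]) (26,[(2,4878),(0,3),(3,5149)])) (.leaf false ⟨⟨-234,-134,-27⟩,⟨-69,162,-206⟩,⟨118,-171,-174⟩⟩ (19,[(1,3),(4,4044),(3,3032)]) (2439,[(1,1634),(4,391595),(0,1890)]) (59,[(4,13396),(3,16092),(0,87)]))) (.leaf false ⟨⟨-234,-134,27⟩,⟨69,-162,-206⟩,⟨118,-171,174⟩⟩ (81,[(1,9270),(3,27932),(0,67)]) (1,[(1,377),(3,65),(0,1)])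 (18,[(1,117),(3,422),(0,19)])))))
theorem pf271_ok : pf271.check (ok 271 6 ⟨5, 5, 5⟩) (fun _ r => r) [] = true := by decide +kernel

def pf277 : T := .node ⟨1,0,0⟩ (.node ⟨0,1,0⟩ (.node ⟨0,0,1⟩ (.leaf false ⟨⟨0,0,277⟩,⟨0,277,0⟩,⟨277,0,0⟩⟩ (1,[(0,277)]) (1,[(1,277)]) (1,[(2,277)])) (.node ⟨0,252,115⟩ (.leaf false ⟨⟨0,115,-252⟩,⟨0,252,115⟩,⟨277,0,0⟩⟩ (252,[(1,76729),(0,115)]) (1,[(0,1)]) (1,[(3,277)])) (.node ⟨-128,-36,-243⟩ (.leaf false ⟨⟨-128,-36,-243⟩,⟨117,232,-96⟩,⟨216,-147,-92⟩⟩ (1,[(0,1)]) (81,[(4,13573),(3,19944),(0,32)]) (5,[(1,4),(4,1080),(3,273)])) (.leaf false ⟨⟨0,277,0⟩,⟨115,0,-252⟩,⟨252,0,115⟩⟩ (1,[(3,277)]) (14720,[(1,60201),(0,13225),(3,14694552)]) (3680,[(1,11629),(0,7245),(3,2669688)]))))) (.node ⟨0,0,1⟩ (.node ⟨0,115,252⟩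 (.leaf false ⟨⟨0,-252,115⟩,⟨0,115,252⟩,⟨277,0,0⟩⟩ (252,[(0,115),(2,76729)]) (1,[(0,1)]) (1,[(3,277)])) (.node ⟨-128,-243,-36⟩ (.leaf false ⟨⟨-128,-243,-36⟩,⟨117,-96,232⟩,⟨216,-92,-147⟩⟩ (1,[(0,1)]) (81,[(2,19944),(4,13573),(0,32)]) (5,[(2,273),(4,1080),(1,4)])) (.leaf false ⟨⟨0,0,277⟩,⟨115,-252,0⟩,⟨252,115,0⟩⟩ (1,[(2,277)]) (14720,[(2,14694552),(0,13225),(1,60201)]) (3680,[(2,2669688),(0,7245),(1,11629)])))) (.node ⟨-51,-272,12⟩ (.node ⟨268,-48,51⟩ (.leaf false ⟨⟨-51,-272,12⟩,⟨48,-21,-272⟩,⟨268,-48,51⟩⟩ (1,[(1,1)]) (272,[(2,74236),(4,14127),(1,21)]) (1,[(0,1)])) (.leaf false ⟨⟨-228,-147,-56⟩,⟨-56,168,-213⟩,⟨147,-164,-168⟩⟩ (13296,[(4,2042875),(1,10185),(0,16996)]) (554,[(4,596935),(1,69),(0,2330)]) (1108,[(4,1297191),(1,1369),(0,3972)])))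 (.node ⟨-72,16,-267⟩ (.leaf false ⟨⟨-72,16,-267⟩,⟨124,-243,-48⟩,⟨237,132,-56⟩⟩ (1,[(0,1)]) (89,[(4,12188),(3,21883),(0,16)]) (18108,[(1,8587),(4,4099323),(0,3412)])) (.leaf false ⟨⟨16,72,-267⟩,⟨132,-237,-56⟩,⟨243,124,48⟩⟩ (30,[(2,8181),(1,8),(0,1)]) (6,[(2,3273),(0,11),(3,1246)]) (1700,[(2,1235511),(1,1068),(0,4981)])))))) (.node ⟨0,1,0⟩ (.node ⟨0,0,1⟩ (.node ⟨115,0,252⟩ (.leaf false ⟨⟨-252,0,115⟩,⟨0,277,0⟩,⟨115,0,252⟩⟩ (252,[(3,76729),(0,115)]) (1,[(2,277)]) (1,[(0,1)])) (.node ⟨-243,-128,-36⟩ (.leaf false ⟨⟨-261,-92,12⟩,⟨-92,252,-69⟩,⟨-12,69,268⟩⟩ (27,[(2,1368),(0,29),(3,1228)]) (5,[(2,663),(1,4),(3,1260)]) (81,[(2,21852),(0,4),(3,6101)])) (.leaf false ⟨⟨-267,16,72⟩,⟨-56,132,-237⟩,⟨48,243,124⟩⟩ (920,[(2,661608),(1,2379),(0,115)]) (3680,[(2,1463592),(1,9811),(0,3795)])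 (2944,[(2,2830264),(1,10581),(0,5589)])))) (.node ⟨-272,-51,12⟩ (.node ⟨-48,268,51⟩ (.leaf false ⟨⟨-272,-51,12⟩,⟨-48,268,51⟩,⟨-21,48,-272⟩⟩ (1,[(1,1)]) (1,[(0,1)]) (272,[(2,74236),(1,21),(3,14127)])) (.leaf false ⟨⟨-272,-51,-12⟩,⟨-48,268,-51⟩,⟨21,-48,-272⟩⟩ (277,[(1,301),(3,37672),(0,136)]) (277,[(1,102),(3,160106),(0,301)]) (13296,[(1,11985),(3,19733203),(0,73732)]))) (.node ⟨16,-72,-267⟩ (.leaf false ⟨⟨-272,48,-21⟩,⟨12,-51,-272⟩,⟨51,268,-48⟩⟩ (89,[(4,24320),(3,4776),(0,7)]) (267,[(4,1148),(3,5967),(0,272)]) (1,[(4,1037),(3,64),(1,4)])) (.leaf false ⟨⟨-272,48,21⟩,⟨-12,51,-272⟩,⟨51,268,48⟩⟩ (3,[(2,471),(4,784),(0,2)]) (1,[(2,260),(4,284),(1,1)]) (4080,[(2,3538809),(0,14059),(1,1592)]))))) (.node ⟨0,0,1⟩ (.node ⟨12,-272,-51⟩ (.node ⟨51,-48,268⟩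 (.leaf false ⟨⟨-272,-21,48⟩,⟨12,-272,-51⟩,⟨51,-48,268⟩⟩ (272,[(2,14127),(4,74236),(1,21)]) (1,[(1,1)]) (1,[(0,1)])) (.leaf false ⟨⟨-272,-21,-48⟩,⟨-51,48,268⟩,⟨12,-272,51⟩⟩ (48,[(2,72121),(0,268),(1,51)]) (1,[(2,536),(0,1)]) (1,[(2,102),(1,1)]))) (.node ⟨-267,16,-72⟩ (.leaf false ⟨⟨-272,12,-51⟩,⟨-48,51,268⟩,⟨-21,-272,48⟩⟩ (267,[(2,5967),(0,272),(3,1148)]) (1,[(2,64),(1,4),(3,1037)]) (89,[(2,4776),(0,7),(3,24320)])) (.leaf false ⟨⟨-272,-12,51⟩,⟨21,-272,48⟩,⟨48,51,268⟩⟩ (1,[(1,1),(4,260),(3,284)]) (3,[(4,471),(3,784),(0,2)]) (4080,[(1,1592),(4,3538809),(0,14059)])))) (.node ⟨-147,168,-164⟩ (.node ⟨-168,-164,147⟩ (.node ⟨-228,-56,147⟩ (.leaf false ⟨⟨-228,-56,147⟩,⟨-147,168,-164⟩,⟨-56,-213,-168⟩⟩ (1,[(0,1)]) (1,[(2,1)]) (3,[(3,651),(1,1),(4,475)]))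 (.leaf false ⟨⟨-228,-147,-56⟩,⟨-56,168,-213⟩,⟨147,-164,-168⟩⟩ (2268,[(5,926196),(1,3535),(0,4399)]) (277,[(2,228),(5,15512),(0,147)]) (63,[(5,15135),(1,133),(0,205)]))) (.leaf false ⟨⟨-228,-147,-56⟩,⟨-56,168,-213⟩,⟨147,-164,-168⟩⟩ (21,[(4,6132),(3,4399),(0,8)]) (49,[(4,14672),(3,3412),(0,71)]) (7,[(4,315),(3,2460),(0,8)]))) (.leaf false ⟨⟨-228,-56,-147⟩,⟨-56,-213,168⟩,⟨147,-168,-164⟩⟩ (3,[(1,605),(3,831),(0,1)]) (56,[(1,2236),(3,13573),(0,71)]) (1,[(1,328),(0,1)])))))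
theorem pf277_ok : pf277.check (ok 277 6 ⟨5, 5, 5⟩) (fun _ r => r) [] = true := by decide +kernel

def pf281 : T := .node ⟨1,0,0⟩ (.node ⟨0,1,0⟩ (.node ⟨0,0,1⟩ (.node ⟨-84,9,268⟩ (.node ⟨-84,264,-47⟩ (.leaf false ⟨⟨-84,9,268⟩,⟨-47,276,-24⟩,⟨264,52,81⟩⟩ (1,[(1,1)]) (22,[(2,553),(4,898),(0,23)]) (66,[(2,5957),(4,18516),(0,13)])) (.leaf false ⟨⟨-47,-84,264⟩,⟨-24,268,81⟩,⟨276,9,52⟩⟩ (5292,[(3,17403),(1,4877),(0,1916)]) (268,[(4,372),(3,71095),(1,81)]) (47,[(4,8604),(3,14151),(0,52)]))) (.node ⟨9,268,-84⟩ (.leaf false ⟨⟨9,268,-84⟩,⟨52,81,264⟩,⟨276,-24,-47⟩⟩ (1,[(0,1)]) (21,[(2,9028),(1,13),(3,1818)]) (7,[(2,5835),(1,23),(3,39)])) (.leaf false ⟨⟨-24,-47,276⟩,⟨81,264,52⟩,⟨268,-84,9⟩⟩ (387,[(1,39),(3,356290),(0,1396)]) (387,[(1,606),(3,689986),(0,2173)])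 (4644,[(1,22593),(3,19264681),(0,72580)])))) (.node ⟨-119,252,-36⟩ (.node ⟨79,-144,-228⟩ (.node ⟨252,124,9⟩ (.leaf false ⟨⟨-96,207,-164⟩,⟨79,-144,-228⟩,⟨252,124,9⟩⟩ (28,[(3,3764),(5,49),(2,23)]) (1,[(1,1)]) (1,[(0,1)])) (.leaf false ⟨⟨-276,-24,-47⟩,⟨-9,268,-84⟩,⟨52,-81,-264⟩⟩ (9,[(5,9360),(4,5612),(0,47)]) (3,[(5,7029),(4,4276),(0,28)]) (3,[(5,22332),(4,10669),(0,88)]))) (.leaf false ⟨⟨-108,201,-164⟩,⟨96,196,177⟩,⟨241,12,-144⟩⟩ (48,[(2,23148),(4,109),(0,67)]) (36,[(2,4800),(4,7327),(0,49)]) (12,[(2,1956),(4,2971),(0,1)]))) (.leaf false ⟨⟨0,0,-281⟩,⟨160,-231,0⟩,⟨231,160,0⟩⟩ (1,[(1,281)]) (119,[(1,5760),(0,160),(2,12831)]) (17,[(1,1188),(0,33),(2,11036)])))) (.node ⟨0,0,1⟩ (.node ⟨-119,-36,252⟩ (.node ⟨79,-228,-144⟩ (.node ⟨252,9,124⟩ (.leaf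 false ⟨⟨-96,-164,207⟩,⟨79,-228,-144⟩,⟨252,9,124⟩⟩ (28,[(5,49),(4,3764),(2,23)]) (1,[(1,1)]) (1,[(0,1)])) (.leaf false ⟨⟨-276,-47,-24⟩,⟨-9,-84,268⟩,⟨52,-264,-81⟩⟩ (9,[(3,5612),(5,9360),(0,47)]) (3,[(3,4276),(5,7029),(0,28)]) (3,[(3,10669),(5,22332),(0,88)]))) (.leaf false ⟨⟨-108,-164,201⟩,⟨96,177,196⟩,⟨241,-144,12⟩⟩ (48,[(4,109),(3,23148),(0,67)]) (36,[(4,7327),(3,4800),(0,49)]) (12,[(4,2971),(3,1956),(0,1)]))) (.leaf false ⟨⟨0,-281,0⟩,⟨160,0,-231⟩,⟨231,0,160⟩⟩ (1,[(2,281)]) (119,[(1,12831),(0,160),(2,5760)]) (17,[(1,11036),(0,33),(2,1188)]))) (.node ⟨231,0,160⟩ (.leaf false ⟨⟨0,-281,0⟩,⟨160,0,-231⟩,⟨231,0,160⟩⟩ (1,[(2,281)]) (231,[(1,78961),(0,160)]) (1,[(0,1)])) (.node ⟨-81,52,-264⟩ (.leaf false ⟨⟨-81,52,-264⟩,⟨-24,-276,-47⟩,⟨268,-9,-84⟩⟩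 (1,[(0,1)]) (160,[(4,7017),(3,44160),(1,47)]) (22,[(4,6463),(3,562),(0,7)])) (.leaf false ⟨⟨-276,-47,-24⟩,⟨-9,-84,268⟩,⟨52,-264,-81⟩⟩ (1040,[(4,31137),(0,940),(1,1707)]) (104,[(4,9249),(0,168),(1,103)]) (2080,[(4,3520987),(0,10560),(1,18477)])))))) (.node ⟨0,1,0⟩ (.node ⟨0,0,1⟩ (.node ⟨-36,252,-119⟩ (.node ⟨-228,-144,79⟩ (.node ⟨9,124,252⟩ (.leaf false ⟨⟨-228,-144,79⟩,⟨-164,207,-96⟩,⟨9,124,252⟩⟩ (1,[(1,1)]) (28,[(3,49),(5,3764),(2,23)]) (1,[(0,1)])) (.leaf false ⟨⟨-276,-9,52⟩,⟨-47,-84,-264⟩,⟨-24,268,-81⟩⟩ (3,[(3,23340),(0,92),(4,11381)]) (9,[(3,9468),(0,47),(4,5072)]) (3,[(3,1773),(0,8),(4,1796)]))) (.leaf false ⟨⟨-264,39,88⟩,⟨7,264,-96⟩,⟨96,88,249⟩⟩ (48,[(2,5251),(4,15636),(0,13)]) (6,[(2,293),(4,2466),(0,11)]) (18,[(2,5351),(4,780),(0,11)])))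 (.leaf false ⟨⟨-281,0,0⟩,⟨0,-231,160⟩,⟨0,160,231⟩⟩ (1,[(3,281)]) (119,[(3,5760),(2,12831),(0,160)]) (17,[(3,1188),(2,11036),(0,33)]))) (.node ⟨0,231,160⟩ (.leaf false ⟨⟨-281,0,0⟩,⟨0,160,-231⟩,⟨0,231,160⟩⟩ (1,[(3,281)]) (231,[(1,78961),(0,160)]) (1,[(0,1)])) (.node ⟨52,-81,-264⟩ (.leaf false ⟨⟨-276,-24,-47⟩,⟨-9,268,-84⟩,⟨52,-81,-264⟩⟩ (160,[(1,47),(4,44160),(3,7017)]) (22,[(4,562),(3,6463),(0,7)]) (1,[(0,1)])) (.leaf false ⟨⟨-276,-9,52⟩,⟨-47,-84,-264⟩,⟨-24,268,-81⟩⟩ (104,[(1,877),(0,552),(3,156939)]) (1040,[(1,3267),(0,940),(3,591177)]) (2080,[(1,2637),(0,960),(3,1088827)]))))) (.node ⟨0,0,1⟩ (.node ⟨0,160,231⟩ (.leaf false ⟨⟨-281,0,0⟩,⟨0,-231,160⟩,⟨0,160,231⟩⟩ (1,[(3,281)]) (231,[(0,160),(2,78961)]) (1,[(0,1)])) (.node ⟨52,-264,-81⟩ (.leaf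 false ⟨⟨-276,-47,-24⟩,⟨-9,-84,268⟩,⟨52,-264,-81⟩⟩ (160,[(2,7017),(4,44160),(1,47)]) (22,[(2,6463),(4,562),(0,7)]) (1,[(0,1)])) (.leaf false ⟨⟨-276,52,-9⟩,⟨-47,-264,-84⟩,⟨-24,-81,268⟩⟩ (104,[(2,156939),(0,552),(1,877)]) (1040,[(2,591177),(0,940),(1,3267)]) (2080,[(2,1088827),(0,960),(1,2637)])))) (.leaf false ⟨⟨-281,0,0⟩,⟨0,-281,0⟩,⟨0,0,-281⟩⟩ (1,[(2,281)]) (1,[(1,281)]) (1,[(0,281)]))))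
theorem pf281_ok : pf281.check (ok 281 6 ⟨5, 5, 5⟩) (fun _ r => r) [] = true := by decide +kernel

def pf283 : T := .node ⟨1,0,0⟩ (.node ⟨0,1,0⟩ (.node ⟨0,0,1⟩ (.leaf false ⟨⟨0,0,283⟩,⟨0,283,0⟩,⟨283,0,0⟩⟩ (1,[(0,283)]) (1,[(1,283)]) (1,[(2,283)])) (.node ⟨-162,121,-198⟩ (.node ⟨183,-86,-198⟩ (.node ⟨166,222,57⟩ (.leaf false ⟨⟨-138,153,-194⟩,⟨166,222,57⟩,⟨183,-86,-198⟩⟩ (27,[(3,684),(4,1348),(2,23)]) (1,[(0,1)]) (1,[(1,1)])) (.leaf false ⟨⟨-258,-23,-114⟩,⟨54,222,-167⟩,⟨103,-174,-198⟩⟩ (1,[(5,74),(4,421),(0,2)]) (57,[(5,30800),(4,49728),(0,167)]) (19,[(5,12913),(4,11346),(0,66)]))) (.leaf false ⟨⟨-198,121,162⟩,⟨-41,198,-198⟩,⟨198,162,121⟩⟩ (86,[(2,10026),(4,5115),(0,121)]) (43,[(2,28116),(4,16354),(0,99)]) (43,[(2,10835),(4,23337),(0,81)])))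 (.leaf false ⟨⟨6,282,-23⟩,⟨138,-23,-246⟩,⟨247,6,138⟩⟩ (27,[(1,819),(0,1),(2,7735)]) (27,[(1,11196),(0,23),(2,2162)]) (162,[(1,26550),(0,247),(2,30859)])))) (.node ⟨0,0,1⟩ (.node ⟨-162,-198,121⟩ (.node ⟨183,-198,-86⟩ (.node ⟨166,57,222⟩ (.leaf false ⟨⟨-138,-194,153⟩,⟨166,57,222⟩,⟨183,-198,-86⟩⟩ (27,[(3,1348),(4,684),(2,23)]) (1,[(0,1)]) (1,[(1,1)])) (.leaf false ⟨⟨-258,-114,-23⟩,⟨54,-167,222⟩,⟨103,-198,-174⟩⟩ (1,[(3,421),(5,74),(0,2)]) (57,[(3,49728),(5,30800),(0,167)]) (19,[(3,11346),(5,12913),(0,66)]))) (.leaf false ⟨⟨-198,-41,198⟩,⟨121,198,162⟩,⟨162,-198,121⟩⟩ (43,[(4,9603),(3,21365),(0,99)]) (43,[(4,20026),(3,7524),(0,81)]) (86,[(4,36075),(3,40986),(0,121)]))) (.leaf false ⟨⟨6,-23,282⟩,⟨138,-246,-23⟩,⟨247,138,6⟩⟩ (27,[(1,7735),(0,1),(2,819)])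 (27,[(1,2162),(0,23),(2,11196)]) (162,[(1,30859),(0,247),(2,26550)]))) (.node ⟨42,-266,87⟩ (.node ⟨-42,-87,-266⟩ (.node ⟨274,42,-57⟩ (.leaf false ⟨⟨-42,-87,-266⟩,⟨57,-266,78⟩,⟨274,42,-57⟩⟩ (1,[(1,1)]) (1,[(3,9),(5,15),(2,1)]) (1,[(0,1)])) (.leaf false ⟨⟨-258,-114,-23⟩,⟨54,-167,222⟩,⟨103,-198,-174⟩⟩ (7,[(3,1244),(5,3400),(0,19)]) (42,[(3,195),(5,48026),(0,167)]) (7,[(3,3099),(5,9763),(0,33)]))) (.leaf false ⟨⟨9,-282,22⟩,⟨198,22,201⟩,⟨202,-9,-198⟩⟩ (14,[(2,490),(0,3),(3,4209)]) (7,[(2,7371),(0,33),(3,2717)]) (21,[(2,31024),(0,101),(3,8976)]))) (.leaf false ⟨⟨-90,-167,-210⟩,⟨42,210,-185⟩,⟨265,-90,-42⟩⟩ (29,[(3,330),(2,23463),(0,70)]) (87,[(3,11424),(2,30940),(0,185)]) (29,[(3,8273),(2,6334),(0,14)]))))) (.node ⟨0,1,0⟩ (.node ⟨0,0,1⟩ (.node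 ⟨-198,-162,121⟩ (.node ⟨-198,183,-86⟩ (.node ⟨57,166,222⟩ (.leaf false ⟨⟨-198,183,-86⟩,⟨-194,-138,153⟩,⟨57,166,222⟩⟩ (1,[(1,1)]) (27,[(3,1348),(2,23),(5,684)]) (1,[(0,1)])) (.leaf false ⟨⟨-266,-57,78⟩,⟨-87,42,-266⟩,⟨-42,274,57⟩⟩ (3,[(3,3342),(0,14),(4,2153)]) (19,[(3,1384),(0,29),(4,5612)]) (19,[(3,4191),(0,14),(4,7530)]))) (.leaf false ⟨⟨-282,-9,22⟩,⟨9,202,198⟩,⟨22,-198,201⟩⟩ (43,[(4,14304),(3,1626),(0,11)]) (43,[(4,19215),(3,26803),(0,99)]) (86,[(4,37906),(3,19755),(0,201)]))) (.leaf false ⟨⟨-246,138,-23⟩,⟨-23,6,282⟩,⟨138,247,6⟩⟩ (27,[(1,2162),(3,11196),(0,23)]) (27,[(1,7735),(3,819),(0,1)]) (162,[(1,30859),(3,26550),(0,247)]))) (.node ⟨-266,42,87⟩ (.node ⟨-87,-42,-266⟩ (.node ⟨42,274,-57⟩ (.leaf false ⟨⟨-266,57,78⟩,⟨-87,-42,-266⟩,⟨42,274,-57⟩⟩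 (1,[(3,9),(2,1),(4,15)]) (1,[(1,1)]) (1,[(0,1)])) (.leaf false ⟨⟨-266,-57,78⟩,⟨-87,42,-266⟩,⟨-42,274,57⟩⟩ (3,[(3,849),(0,19),(4,5035)]) (14,[(3,5377),(0,29),(4,8534)]) (1,[(0,1),(4,548)]))) (.leaf false ⟨⟨-282,9,22⟩,⟨-9,202,-198⟩,⟨22,198,201⟩⟩ (14,[(2,490),(4,4209),(0,3)]) (21,[(2,31024),(4,8976),(0,101)]) (7,[(2,7371),(4,2717),(0,33)]))) (.leaf false ⟨⟨-266,42,-87⟩,⟨57,274,-42⟩,⟨78,-57,-266⟩⟩ (1,[(3,532),(2,84),(0,1)]) (29,[(3,2071),(2,8534),(0,14)]) (87,[(3,63970),(2,6213),(0,266)])))) (.node ⟨0,0,1⟩ (.node ⟨87,-266,42⟩ (.node ⟨-266,-87,-42⟩ (.node ⟨-57,42,274⟩ (.leaf false ⟨⟨-266,-87,-42⟩,⟨-57,42,274⟩,⟨78,-266,57⟩⟩ (1,[(1,1)]) (1,[(0,1)]) (1,[(3,15),(5,9),(2,1)])) (.leaf false ⟨⟨-279,-42,22⟩,⟨22,-231,-162⟩,⟨42,-158,231⟩⟩ (1,[(3,296),(5,336),(0,1)])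 (2,[(3,2690),(5,583),(0,11)]) (21,[(3,26497),(5,3621),(0,79)]))) (.leaf false ⟨⟨-282,-9,22⟩,⟨9,202,198⟩,⟨22,-198,201⟩⟩ (21,[(4,8848),(3,1146),(0,11)]) (7,[(4,8715),(3,1457),(0,33)]) (14,[(4,17514),(3,8601),(0,67)]))) (.leaf false ⟨⟨-266,78,-57⟩,⟨-87,-266,42⟩,⟨-42,57,274⟩⟩ (87,[(1,6213),(0,266),(2,63970)]) (1,[(1,84),(0,1),(2,532)]) (29,[(1,8534),(0,14),(2,2071)]))) (.node ⟨-105,210,-158⟩ (.node ⟨-258,-50,105⟩ (.leaf false ⟨⟨-258,-50,105⟩,⟨-105,210,-158⟩,⟨-50,-183,-210⟩⟩ (1,[(0,1)]) (1,[(1,1)]) (21,[(2,2830),(1,10),(3,5943)])) (.leaf false ⟨⟨-258,-105,-50⟩,⟨-50,210,-183⟩,⟨105,-158,-210⟩⟩ (21,[(4,7998),(3,2705),(0,10)]) (283,[(1,258),(4,14150),(0,105)]) (1,[(4,411),(3,258),(0,2)]))) (.node ⟨-50,-183,210⟩ (.leaf false ⟨⟨-258,-50,-105⟩,⟨-50,-183,210⟩,⟨105,-210,-158⟩⟩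 (21,[(2,2995),(4,5943),(1,5)]) (1,[(0,1)]) (1,[(2,316),(1,1)])) (.leaf false ⟨⟨-194,-153,-138⟩,⟨57,-222,166⟩,⟨198,-86,-183⟩⟩ (2531,[(4,1938184),(1,9564),(0,8859)]) (2531,[(4,141768),(1,2707),(0,36)]) (15186,[(4,5006717),(1,51549),(0,52018)]))))))
theorem pf283_ok : pf283.check (ok 283 6 ⟨5, 5, 5⟩) (fun _ r => r) [] = true := by decide +kernel

def pf289 : T := .node ⟨1,0,0⟩ (.node ⟨0,1,0⟩ (.node ⟨0,0,1⟩ (.leaf false ⟨⟨0,0,289⟩,⟨0,289,0⟩,⟨289,0,0⟩⟩ (1,[(0,289)]) (1,[(1,289)]) (1,[(2,289)])) (.node ⟨0,255,136⟩ (.leaf false ⟨⟨0,136,-255⟩,⟨0,255,136⟩,⟨289,0,0⟩⟩ (15,[(1,4913),(0,8)]) (1,[(0,1)]) (1,[(3,289)])) (.leaf false ⟨⟨0,-161,-240⟩,⟨0,240,-161⟩,⟨289,0,0⟩⟩ (17,[(0,30),(2,4913)]) (136,[(0,161),(2,73695)]) (1,[(3,289)])))) (.node ⟨0,0,1⟩ (.node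 ⟨0,136,255⟩ (.leaf false ⟨⟨0,-255,136⟩,⟨0,136,255⟩,⟨289,0,0⟩⟩ (15,[(0,8),(2,4913)]) (1,[(0,1)]) (1,[(3,289)])) (.leaf false ⟨⟨0,-240,-161⟩,⟨0,-161,240⟩,⟨289,0,0⟩⟩ (17,[(1,4913),(0,30)]) (136,[(1,73695),(0,161)]) (1,[(3,289)]))) (.node ⟨39,-260,120⟩ (.node ⟨-39,-120,-260⟩ (.node ⟨280,39,-60⟩ (.leaf false ⟨⟨-39,-120,-260⟩,⟨60,-260,111⟩,⟨280,39,-60⟩⟩ (1,[(1,1)]) (1,[(3,9),(5,21),(2,1)]) (1,[(0,1)])) (.leaf false ⟨⟨-273,-44,-84⟩,⟨-44,-168,231⟩,⟨84,-231,-152⟩⟩ (39,[(3,5916),(5,1673),(0,44)]) (13,[(3,357),(5,15108),(0,56)]) (13,[(3,6596),(5,22652),(0,77)]))) (.leaf false ⟨⟨28,-276,-81⟩,⟨144,-57,244⟩,⟨249,64,-132⟩⟩ (39,[(2,10439),(0,28),(3,14124)]) (13,[(2,9308),(0,48),(3,6501)]) (13,[(2,23296),(0,83),(3,9128)]))) (.leaf false ⟨⟨-60,111,-260⟩,⟨39,-260,-120⟩,⟨280,60,-39⟩⟩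 (6,[(3,147),(2,2714),(0,13)]) (1,[(3,78),(2,520),(0,1)]) (40,[(3,11707),(2,980),(0,13)]))))) (.node ⟨0,1,0⟩ (.node ⟨0,0,1⟩ (.node ⟨136,0,255⟩ (.leaf false ⟨⟨-255,0,136⟩,⟨0,289,0⟩,⟨136,0,255⟩⟩ (15,[(3,4913),(0,8)]) (1,[(2,289)]) (1,[(0,1)])) (.leaf false ⟨⟨-240,0,-161⟩,⟨-161,0,240⟩,⟨0,289,0⟩⟩ (17,[(1,4913),(0,30)]) (136,[(1,73695),(0,161)]) (1,[(2,289)]))) (.node ⟨-260,39,120⟩ (.node ⟨-120,-39,-260⟩ (.node ⟨39,280,-60⟩ (.leaf false ⟨⟨-260,60,111⟩,⟨-120,-39,-260⟩,⟨39,280,-60⟩⟩ (1,[(3,9),(2,1),(4,21)]) (1,[(1,1)]) (1,[(0,1)])) (.leaf false ⟨⟨-273,-44,84⟩,⟨-84,231,-152⟩,⟨-44,-168,-231⟩⟩ (1,[(3,336),(0,7),(4,1916)]) (13,[(3,3656),(0,28),(4,10843)]) (39,[(3,11649),(0,44),(4,5768)]))) (.leaf false ⟨⟨-276,28,-81⟩,⟨-57,144,244⟩,⟨64,249,-132⟩⟩ (39,[(2,10439),(4,14124),(0,28)])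 (13,[(2,9308),(4,6501),(0,48)]) (13,[(2,23296),(4,9128),(0,83)]))) (.leaf false ⟨⟨-260,39,-120⟩,⟨60,280,-39⟩,⟨111,-60,-260⟩⟩ (1,[(3,520),(2,78),(0,1)]) (40,[(3,980),(2,11707),(0,13)]) (6,[(3,2714),(2,147),(0,13)])))) (.node ⟨0,0,1⟩ (.node ⟨120,-260,39⟩ (.node ⟨-260,-120,-39⟩ (.node ⟨-60,39,280⟩ (.leaf false ⟨⟨-260,-120,-39⟩,⟨-60,39,280⟩,⟨111,-260,60⟩⟩ (1,[(1,1)]) (1,[(0,1)]) (1,[(3,21),(5,9),(2,1)])) (.leaf false ⟨⟨-273,-44,-84⟩,⟨-44,-168,231⟩,⟨84,-231,-152⟩⟩ (39,[(3,9044),(5,13287),(0,44)]) (13,[(3,18683),(5,3932),(0,56)]) (13,[(3,19584),(5,3528),(0,77)]))) (.leaf false ⟨⟨-276,-81,28⟩,⟨-57,244,144⟩,⟨64,-132,249⟩⟩ (39,[(4,18044),(3,6519),(0,28)]) (13,[(4,13221),(3,2588),(0,48)]) (13,[(4,20748),(3,11676),(0,83)]))) (.leaf false ⟨⟨-260,111,-60⟩,⟨-120,-260,39⟩,⟨-39,60,280⟩⟩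 (6,[(1,147),(0,13),(2,2714)]) (1,[(1,78),(0,1),(2,520)]) (40,[(1,11707),(0,13),(2,980)]))) (.node ⟨24,-287,24⟩ (.leaf false ⟨⟨-288,-24,1⟩,⟨1,-24,-288⟩,⟨24,-287,24⟩⟩ (287,[(1,289),(3,83232),(0,24)]) (287,[(1,83232),(3,289),(0,24)]) (1,[(0,1)])) (.node ⟨-273,-44,84⟩ (.leaf false ⟨⟨-287,24,24⟩,⟨-24,-288,1⟩,⟨-24,1,-288⟩⟩ (714,[(1,1463),(0,622),(3,375377)]) (91,[(2,581),(0,8),(3,25856)]) (1,[(2,264),(1,1),(3,286)])) (.leaf false ⟨⟨-288,1,-24⟩,⟨1,-288,-24⟩,⟨24,24,-287⟩⟩ (1,[(1,1),(4,264),(3,286)]) (7,[(4,539),(3,2104),(0,2)]) (12,[(4,10905),(3,1516),(0,41)]))))))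
theorem pf289_ok : pf289.check (ok 289 6 ⟨5, 5, 5⟩) (fun _ r => r) [] = true := by decide +kernel

def pf293 : T := .node ⟨1,0,0⟩ (.node ⟨0,1,0⟩ (.node ⟨0,0,1⟩ (.node ⟨-123,72,256⟩ (.node ⟨67,264,-108⟩ (.node ⟨276,-32,93⟩ (.leaf false ⟨⟨-72,123,256⟩,⟨67,264,-108⟩,⟨276,-32,93⟩⟩ (1,[(5,51),(4,51),(2,1)]) (1,[(1,1)]) (1,[(0,1)])) (.leaf false ⟨⟨-284,72,-3⟩,⟨3,24,292⟩,⟨72,283,-24⟩⟩ (4,[(3,825),(5,1348),(0,9)]) (4,[(3,1447),(5,840),(0,3)]) (32,[(3,25551),(5,80412),(0,283)]))) (.leaf false ⟨⟨-149,-12,252⟩,⟨12,292,21⟩,⟨252,-21,148⟩⟩ (3,[(4,22),(3,1812),(0,7)]) (36,[(4,901),(3,12360),(0,7)]) (27,[(4,9283),(3,9201),(0,37)]))) (.leaf false ⟨⟨21,292,12⟩,⟨148,-21,252⟩,⟨252,-12,-149⟩⟩ (41,[(1,2284),(0,7),(2,12476)]) (123,[(1,68884),(0,148),(2,8073)])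 (41,[(1,15395),(0,84),(2,5556)]))) (.node ⟨283,24,72⟩ (.node ⟨-24,283,72⟩ (.leaf false ⟨⟨-24,283,72⟩,⟨-3,72,-284⟩,⟨292,24,3⟩⟩ (1,[(0,1)]) (283,[(2,85556),(4,879),(0,72)]) (1,[(2,69),(4,9),(1,1)])) (.node ⟨283,-24,72⟩ (.leaf false ⟨⟨24,292,3⟩,⟨72,-3,-284⟩,⟨283,-24,72⟩⟩ (283,[(3,879),(0,24),(4,83212)]) (1,[(3,68),(1,3),(4,846)]) (1,[(0,1)])) (.leaf false ⟨⟨-261,112,-72⟩,⟨-72,-252,-131⟩,⟨112,99,-252⟩⟩ (7368,[(1,528),(2,16885),(0,23725)]) (1060992,[(1,1530672),(2,3254507),(0,3654251)]) (9824,[(1,35280),(2,228715),(0,227819)])))) (.leaf false ⟨⟨-252,12,-149⟩,⟨21,292,-12⟩,⟨148,-21,-252⟩⟩ (72,[(3,24023),(2,4440),(0,149)]) (6,[(3,409),(2,1776),(0,1)]) (2,[(3,2277),(2,126),(0,7)])))) (.node ⟨0,0,1⟩ (.node ⟨283,72,24⟩ (.node ⟨-24,72,283⟩ (.leaf false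 ⟨⟨-24,-3,292⟩,⟨72,-284,3⟩,⟨283,72,24⟩⟩ (283,[(4,216),(3,21873),(0,292)]) (8,[(1,1),(4,293),(3,2344)]) (1,[(1,1)])) (.node ⟨283,72,-24⟩ (.leaf false ⟨⟨24,3,292⟩,⟨72,-284,-3⟩,⟨283,72,-24⟩⟩ (283,[(3,83212),(0,24),(4,879)]) (1,[(3,846),(1,3),(4,68)]) (1,[(0,1)])) (.leaf false ⟨⟨-261,-72,112⟩,⟨-72,-131,-252⟩,⟨112,-252,99⟩⟩ (7368,[(2,16885),(1,528),(0,23725)]) (1060992,[(2,3254507),(1,1530672),(0,3654251)]) (9824,[(2,228715),(1,35280),(0,227819)])))) (.leaf false ⟨⟨-252,-149,12⟩,⟨21,-12,292⟩,⟨148,-252,-21⟩⟩ (72,[(1,4440),(3,24023),(0,149)]) (6,[(1,1776),(3,409),(0,1)]) (2,[(1,126),(3,2277),(0,7)]))) (.node ⟨-68,-285,0⟩ (.leaf false ⟨⟨-68,-285,0⟩,⟨0,0,-293⟩,⟨285,-68,0⟩⟩ (1,[(0,1)]) (1,[(1,293)]) (285,[(3,85849),(0,68)])) (.node ⟨256,108,93⟩ (.leaf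 false ⟨⟨72,67,-276⟩,⟨123,-264,-32⟩,⟨256,108,93⟩⟩ (17,[(2,4692),(1,18),(3,3991)]) (68,[(2,2176),(1,123),(3,53007)]) (1,[(0,1)])) (.leaf false ⟨⟨-252,-72,-131⟩,⟨99,112,-252⟩,⟨112,-261,-72⟩⟩ (1581,[(1,2525),(3,592941),(0,2227)]) (2108,[(1,24573),(3,6150313),(0,5712)]) (527,[(1,2404),(3,778623),(0,408)])))))) (.node ⟨0,1,0⟩ (.node ⟨0,0,1⟩ (.node ⟨72,24,283⟩ (.node ⟨72,283,-24⟩ (.leaf false ⟨⟨-284,3,72⟩,⟨-3,292,-24⟩,⟨72,24,283⟩⟩ (8,[(2,293),(4,2344),(1,1)]) (283,[(2,216),(4,21873),(0,292)]) (1,[(1,1)])) (.node ⟨72,-24,283⟩ (.leaf false ⟨⟨-284,-3,72⟩,⟨3,292,24⟩,⟨72,-24,283⟩⟩ (1,[(5,68),(4,846),(1,3)]) (283,[(5,879),(4,83212),(0,24)]) (1,[(0,1)])) (.leaf false ⟨⟨-285,-32,-60⟩,⟨-60,240,157⟩,⟨-32,-165,240⟩⟩ (353664,[(2,6875879),(1,1221360),(0,7054439)])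 (88416,[(2,1128839),(1,113136),(0,1089383)]) (132624,[(2,525277),(1,158016),(0,426205)])))) (.leaf false ⟨⟨-284,-72,3⟩,⟨-72,283,-24⟩,⟨-3,24,292⟩⟩ (18,[(1,20147),(0,71),(2,408)]) (1,[(1,259),(0,1),(2,307)]) (24,[(1,7291),(0,1),(2,600)]))) (.node ⟨0,-68,-285⟩ (.leaf false ⟨⟨-293,0,0⟩,⟨0,-68,-285⟩,⟨0,285,-68⟩⟩ (1,[(3,293)]) (1,[(0,1)]) (285,[(0,68),(2,85849)])) (.node ⟨93,256,108⟩ (.leaf false ⟨⟨-276,72,67⟩,⟨-32,123,-264⟩,⟨93,256,108⟩⟩ (17,[(2,3991),(4,4692),(1,18)]) (68,[(2,53007),(4,2176),(1,123)]) (1,[(0,1)])) (.leaf false ⟨⟨-291,-32,-12⟩,⟨-32,219,192⟩,⟨-12,192,-221⟩⟩ (527,[(2,1526832),(0,1649),(1,5960)]) (6324,[(2,6690099),(0,2176),(1,28559)]) (527,[(2,606163),(0,68),(1,1744)]))))) (.node ⟨0,0,1⟩ (.node ⟨0,-285,-68⟩ (.leaf false ⟨⟨-293,0,0⟩,⟨0,-285,-68⟩,⟨0,-68,285⟩⟩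 (1,[(3,293)]) (1,[(0,1)]) (285,[(1,85849),(0,68)])) (.node ⟨93,108,256⟩ (.leaf false ⟨⟨-276,67,72⟩,⟨-32,-264,123⟩,⟨93,108,256⟩⟩ (17,[(1,18),(4,4692),(3,3991)]) (68,[(1,123),(4,2176),(3,53007)]) (1,[(0,1)])) (.leaf false ⟨⟨-291,-12,-32⟩,⟨-32,192,219⟩,⟨-12,-221,192⟩⟩ (527,[(1,5960),(0,1649),(3,1526832)]) (6324,[(1,28559),(0,2176),(3,6690099)]) (527,[(1,1744),(0,68),(3,606163)])))) (.leaf false ⟨⟨-293,0,0⟩,⟨0,-293,0⟩,⟨0,0,-293⟩⟩ (1,[(2,293)]) (1,[(1,293)]) (1,[(0,293)]))))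
theorem pf293_ok : pf293.check (ok 293 6 ⟨5, 5, 5⟩) (fun _ r => r) [] = true := by decide +kernel

def pf307 : T := .node ⟨1,0,0⟩ (.node ⟨0,1,0⟩ (.node ⟨0,0,1⟩ (.leaf false ⟨⟨0,0,307⟩,⟨0,307,0⟩,⟨307,0,0⟩⟩ (1,[(0,307)]) (1,[(1,307)]) (1,[(2,307)])) (.node ⟨-161,138,-222⟩ (.node ⟨42,271,138⟩ (.leaf false ⟨⟨-161,138,-222⟩,⟨42,271,138⟩,⟨258,42,-161⟩⟩ (1,[(1,1)]) (1,[(0,1)]) (23,[(2,2149),(4,7061),(1,7)])) (.leaf false ⟨⟨-161,42,-258⟩,⟨138,271,-42⟩,⟨222,-138,-161⟩⟩ (307,[(3,12894),(1,271),(0,138)]) (23,[(4,3468),(3,8130),(0,7)]) (6,[(4,1626),(3,1069),(0,7)]))) (.leaf false ⟨⟨82,294,-33⟩,⟨114,-63,-278⟩,⟨273,-62,126⟩⟩ (161,[(1,23517),(0,82),(2,58650)]) (161,[(1,70066),(0,114),(2,5589)]) (23,[(1,5760),(0,39),(2,3956)])))) (.node ⟨0,0,1⟩ (.node ⟨-161,-222,138⟩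 (.node ⟨42,138,271⟩ (.leaf false ⟨⟨-161,-222,138⟩,⟨42,138,271⟩,⟨258,-161,42⟩⟩ (1,[(1,1)]) (1,[(0,1)]) (23,[(4,7061),(3,2149),(1,7)])) (.leaf false ⟨⟨-161,-258,42⟩,⟨138,-42,271⟩,⟨222,-161,-138⟩⟩ (307,[(2,12894),(0,138),(1,271)]) (23,[(2,8130),(4,3468),(0,7)]) (6,[(2,1069),(4,1626),(0,7)]))) (.leaf false ⟨⟨82,-33,294⟩,⟨114,-278,-63⟩,⟨273,126,-62⟩⟩ (161,[(1,58650),(0,82),(2,23517)]) (161,[(1,5589),(0,114),(2,70066)]) (23,[(1,3956),(0,39),(2,5760)]))) (.node ⟨-18,-306,-17⟩ (.node ⟨-17,18,-306⟩ (.leaf false ⟨⟨-18,-306,-17⟩,⟨-17,18,-306⟩,⟨306,-17,-18⟩⟩ (1,[(1,1)]) (1,[(0,1)]) (17,[(4,5219),(3,307),(0,1)])) (.node ⟨298,66,33⟩ (.leaf false ⟨⟨18,-305,-30⟩,⟨145,-18,270⟩,⟨270,30,-143⟩⟩ (45000,[(3,748804),(0,5499),(2,46039)]) (1081,[(3,482436),(0,384),(1,2489)])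 (375,[(3,64282),(0,342),(2,37)])) (.leaf false ⟨⟨-278,-129,18⟩,⟨81,-138,262⟩,⟨102,-242,-159⟩⟩ (462,[(5,128767),(1,121),(0,870)]) (1081,[(3,2081864),(1,7745),(0,148)]) (3,[(3,114),(5,3584),(0,11)])))) (.leaf false ⟨⟨18,-30,-305⟩,⟨145,270,-18⟩,⟨270,-143,30⟩⟩ (1,[(1,322),(0,1),(2,336)]) (18,[(1,2789),(0,145),(2,39510)]) (1,[(1,225),(0,15),(2,4733)]))))) (.node ⟨0,1,0⟩ (.node ⟨0,0,1⟩ (.node ⟨-222,-161,138⟩ (.node ⟨138,42,271⟩ (.leaf false ⟨⟨-222,-161,138⟩,⟨-161,258,42⟩,⟨138,42,271⟩⟩ (1,[(1,1)]) (23,[(1,7),(4,2149),(3,7061)]) (1,[(0,1)])) (.leaf false ⟨⟨-278,-81,102⟩,⟨-129,138,-242⟩,⟨-18,262,159⟩⟩ (69,[(2,44707),(0,139),(3,249)]) (46,[(2,521),(0,43),(3,8154)]) (23,[(2,4470),(0,3),(3,6152)]))) (.leaf false ⟨⟨-278,114,-63⟩,⟨-33,82,294⟩,⟨126,273,-62⟩⟩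 (161,[(1,5589),(3,70066),(0,114)]) (161,[(1,58650),(3,23517),(0,82)]) (23,[(1,3956),(3,5760),(0,39)]))) (.node ⟨-306,-18,-17⟩ (.node ⟨18,-17,-306⟩ (.leaf false ⟨⟨-306,-18,-17⟩,⟨-17,306,-18⟩,⟨18,-17,-306⟩⟩ (1,[(1,1)]) (17,[(4,307),(3,5219),(0,1)]) (1,[(0,1)])) (.node ⟨66,298,33⟩ (.leaf false ⟨⟨-305,18,-30⟩,⟨-18,145,270⟩,⟨30,270,-143⟩⟩ (45000,[(3,748804),(2,46039),(0,5499)]) (1081,[(3,482436),(1,2489),(0,384)]) (375,[(3,64282),(2,37),(0,342)])) (.leaf false ⟨⟨-306,-17,18⟩,⟨-18,306,-17⟩,⟨-17,-18,-306⟩⟩ (385,[(0,1728),(1,209),(4,504846)]) (1,[(3,323),(1,1),(4,289)]) (66,[(3,19635),(0,17),(4,3878)])))) (.leaf false ⟨⟨-278,81,-102⟩,⟨18,262,159⟩,⟨129,138,-242⟩⟩ (2,[(1,357),(3,3310),(0,9)]) (9,[(1,796),(3,39924),(0,131)]) (3,[(1,1117),(3,6651),(0,23)]))))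 (.node ⟨0,0,1⟩ (.node ⟨-306,-17,-18⟩ (.node ⟨18,-306,-17⟩ (.leaf false ⟨⟨-306,-17,-18⟩,⟨-17,-18,306⟩,⟨18,-306,-17⟩⟩ (1,[(1,1)]) (17,[(2,5219),(4,307),(0,1)]) (1,[(0,1)])) (.node ⟨66,33,298⟩ (.leaf false ⟨⟨-305,-30,18⟩,⟨-18,270,145⟩,⟨30,-143,270⟩⟩ (45000,[(2,46039),(4,748804),(0,5499)]) (1081,[(1,2489),(4,482436),(0,384)]) (375,[(2,37),(4,64282),(0,342)])) (.leaf false ⟨⟨-306,18,-17⟩,⟨-18,-17,306⟩,⟨-17,-306,-18⟩⟩ (385,[(3,504846),(1,209),(0,1728)]) (1,[(3,289),(1,1),(4,323)]) (66,[(3,3878),(0,17),(4,19635)])))) (.leaf false ⟨⟨-278,-102,81⟩,⟨18,159,262⟩,⟨129,-242,138⟩⟩ (2,[(3,3310),(2,357),(0,9)]) (9,[(3,39924),(2,796),(0,131)]) (3,[(3,6651),(2,1117),(0,23)]))) (.node ⟨-62,126,-273⟩ (.node ⟨-294,33,82⟩ (.leaf false ⟨⟨-294,33,82⟩,⟨-63,-278,-114⟩,⟨-62,126,-273⟩⟩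 (1,[(0,1)]) (14,[(2,1842),(0,3),(3,3991)]) (1,[(1,1)])) (.leaf false ⟨⟨-278,-114,-63⟩,⟨33,82,-294⟩,⟨126,-273,-62⟩⟩ (13,[(1,3),(4,3428),(3,1860)]) (19341,[(1,16426),(4,2652787),(0,14658)]) (41,[(4,3948),(3,10170),(0,31)]))) (.leaf false ⟨⟨-305,-30,-18⟩,⟨18,-270,145⟩,⟨30,-143,-270⟩⟩ (21,[(1,1743),(3,6715),(0,5)]) (7,[(1,3080),(3,804),(0,15)]) (126,[(1,73059),(3,5086),(0,143)])))))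
theorem pf307_ok : pf307.check (ok 307 6 ⟨5, 5, 5⟩) (fun _ r => r) [] = true := by decide +kernel

def pf311 : T := .node ⟨1,0,0⟩ (.node ⟨0,1,0⟩ (.node ⟨0,0,1⟩ (.node ⟨-222,141,166⟩ (.node ⟨246,166,-93⟩ (.node ⟨246,-93,166⟩ (.leaf false ⟨⟨-131,114,258⟩,⟨138,274,-51⟩,⟨246,-93,166⟩⟩ (47,[(3,5818),(5,2279),(2,38)]) (31,[(5,96),(1,17),(4,5672)]) (1,[(0,1)])) (.leaf false ⟨⟨-266,141,-78⟩,⟨-66,42,301⟩,⟨147,274,-6⟩⟩ (31,[(3,5384),(5,3316),(0,47)]) (31,[(3,11655),(5,1398),(0,14)]) (93,[(3,44926),(5,81075),(0,274)]))) (.leaf false ⟨⟨-266,-78,141⟩,⟨-66,301,42⟩,⟨147,-6,274⟩⟩ (31,[(4,3316),(3,5384),(0,47)]) (31,[(4,1398),(3,11655),(0,14)]) (93,[(4,81075),(3,44926),(0,274)]))) (.node ⟨93,-114,274⟩ (.leaf false ⟨⟨93,-114,274⟩,⟨166,258,51⟩,⟨246,-131,-138⟩⟩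 (1,[(0,1)]) (111,[(2,19439),(1,83),(3,40341)]) (37,[(2,1700),(1,41),(3,934)])) (.leaf false ⟨⟨-189,238,-66⟩,⟨22,99,294⟩,⟨246,174,-77⟩⟩ (4065,[(2,2155992),(1,196),(0,8729)]) (813,[(2,826796),(1,781),(0,1672)]) (1355,[(2,2943393),(1,4914),(0,8146)])))) (.node ⟨-147,66,-266⟩ (.node ⟨42,301,66⟩ (.node ⟨274,-6,-147⟩ (.leaf false ⟨⟨-141,78,-266⟩,⟨42,301,66⟩,⟨274,-6,-147⟩⟩ (1,[(5,6),(4,12),(2,1)]) (1,[(1,1)]) (1,[(0,1)])) (.leaf false ⟨⟨-306,13,54⟩,⟨-51,54,-302⟩,⟨22,306,51⟩⟩ (6,[(3,1587),(5,1726),(0,13)]) (1,[(3,1625),(5,2415),(0,9)]) (1,[(3,7446),(5,13996),(0,51)]))) (.leaf false ⟨⟨-147,-66,-266⟩,⟨6,301,-78⟩,⟨274,-42,-141⟩⟩ (33,[(4,735),(3,37855),(0,133)]) (11,[(4,612),(3,7224),(0,13)]) (22,[(4,8002),(3,13223),(0,47)]))) (.leaf false ⟨⟨22,294,-99⟩,⟨189,66,238⟩,⟨246,-77,-174⟩⟩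 (147,[(1,20405),(0,22),(2,44670)]) (7,[(1,728),(0,9),(2,1056)]) (49,[(1,30338),(0,82),(2,1639)])))) (.node ⟨0,0,1⟩ (.node ⟨-147,-266,66⟩ (.node ⟨42,66,301⟩ (.node ⟨274,-147,-6⟩ (.leaf false ⟨⟨-141,-266,78⟩,⟨42,66,301⟩,⟨274,-147,-6⟩⟩ (1,[(3,12),(5,6),(2,1)]) (1,[(1,1)]) (1,[(0,1)])) (.leaf false ⟨⟨-306,-51,22⟩,⟨13,54,306⟩,⟨54,-302,51⟩⟩ (3,[(5,2096),(4,1770),(0,11)]) (1,[(5,13987),(4,7443),(0,51)]) (2,[(5,4766),(4,3103),(0,17)]))) (.leaf false ⟨⟨-147,-266,-66⟩,⟨6,-78,301⟩,⟨274,-141,-42⟩⟩ (33,[(2,37855),(4,735),(0,133)]) (11,[(2,7224),(4,612),(0,13)]) (22,[(2,13223),(4,8002),(0,47)]))) (.leaf false ⟨⟨22,-99,294⟩,⟨189,238,66⟩,⟨246,-174,-77⟩⟩ (147,[(1,44670),(0,22),(2,20405)]) (7,[(1,1056),(0,9),(2,728)]) (49,[(1,1639),(0,82),(2,30338)]))) (.node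 ⟨51,54,-302⟩ (.node ⟨13,-306,54⟩ (.node ⟨306,54,13⟩ (.leaf false ⟨⟨22,-51,-306⟩,⟨51,-302,54⟩,⟨306,54,13⟩⟩ (51,[(3,8962),(2,22),(4,3789)]) (47169,[(3,98276),(0,5840),(1,47583)]) (1,[(0,1)])) (.node ⟨238,66,-189⟩ (.leaf false ⟨⟨-174,-77,-246⟩,⟨99,-294,22⟩,⟨238,66,-189⟩⟩ (11064,[(0,12283),(6,4572944),(1,30789)]) (3729,[(3,381),(6,302290),(2,3650)]) (1,[(0,1)])) (.leaf false ⟨⟨-294,-77,66⟩,⟨22,-246,-189⟩,⟨99,-174,238⟩⟩ (9726,[(3,10197),(6,1306729),(0,19690)]) (1621,[(3,9828),(6,2886188),(0,14083)]) (1621,[(3,2863),(6,1589074),(0,6616)])))) (.leaf false ⟨⟨-54,51,-302⟩,⟨13,-306,-54⟩,⟨306,22,-51⟩⟩ (27,[(4,505),(3,44829),(0,151)]) (1,[(4,26),(3,612),(0,1)]) (18,[(4,5729),(3,4806),(0,17)]))) (.leaf false ⟨⟨-194,-243,-6⟩,⟨99,-86,282⟩,⟨222,-174,-131⟩⟩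 (2,[(1,2730),(3,71),(0,9)]) (27,[(1,5372),(3,4866),(0,43)]) (9,[(1,9937),(3,3477),(0,29)]))))) (.node ⟨0,1,0⟩ (.node ⟨0,0,1⟩ (.node ⟨-266,-147,66⟩ (.node ⟨66,42,301⟩ (.node ⟨-147,274,-6⟩ (.leaf false ⟨⟨-266,-141,78⟩,⟨-147,274,-6⟩,⟨66,42,301⟩⟩ (1,[(3,12),(2,1),(4,6)]) (1,[(0,1)]) (1,[(1,1)])) (.leaf false ⟨⟨-306,-51,22⟩,⟨13,54,306⟩,⟨54,-302,51⟩⟩ (3,[(5,2535),(4,2861),(0,11)]) (1,[(5,7484),(4,14028),(0,51)]) (2,[(5,2391),(4,4054),(0,17)]))) (.leaf false ⟨⟨-294,-99,22⟩,⟨-77,174,-246⟩,⟨-66,238,189⟩⟩ (11,[(2,14991),(0,49),(3,969)]) (6,[(2,631),(0,7),(3,1338)]) (1,[(2,490),(0,1),(3,280)]))) (.leaf false ⟨⟨-189,238,-66⟩,⟨22,99,294⟩,⟨246,174,-77⟩⟩ (21,[(1,858),(3,13013),(0,34)]) (49,[(1,16584),(3,7700),(0,33)]) (49,[(1,55),(3,3374),(0,58)]))) (.node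 ⟨13,306,54⟩ (.node ⟨54,51,-302⟩ (.leaf false ⟨⟨-306,22,-51⟩,⟨13,306,54⟩,⟨54,51,-302⟩⟩ (153,[(2,8397),(4,46961),(1,11)]) (1,[(1,1)]) (1,[(0,1)])) (.leaf false ⟨⟨-306,22,51⟩,⟨-54,-51,-302⟩,⟨13,306,-54⟩⟩ (51,[(2,91519),(0,302),(1,54)]) (1,[(2,604),(0,1)]) (1,[(2,108),(1,1)]))) (.node ⟨-285,-50,114⟩ (.leaf false ⟨⟨-285,-50,114⟩,⟨-90,-114,-275⟩,⟨-86,285,-90⟩⟩ (1,[(0,1)]) (43280,[(2,12631576),(1,13995),(0,13029)]) (285,[(2,35454),(0,86),(3,85525)])) (.leaf false ⟨⟨-306,13,-54⟩,⟨22,306,-51⟩,⟨51,-54,-302⟩⟩ (1,[(1,1),(4,293),(3,319)]) (38,[(4,4009),(3,10778),(0,17)]) (4698,[(1,2657),(4,2914156),(0,11187)]))))) (.node ⟨0,0,1⟩ (.node ⟨13,54,306⟩ (.node ⟨54,-302,51⟩ (.leaf false ⟨⟨-306,-51,22⟩,⟨13,54,306⟩,⟨54,-302,51⟩⟩ (153,[(4,46961),(3,8397),(1,11)])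 (1,[(1,1)]) (1,[(0,1)])) (.leaf false ⟨⟨-306,51,22⟩,⟨-54,-302,-51⟩,⟨13,-54,306⟩⟩ (51,[(3,91519),(1,54),(0,302)]) (1,[(3,604),(0,1)]) (1,[(3,108),(1,1)]))) (.node ⟨-285,114,-50⟩ (.leaf false ⟨⟨-285,114,-50⟩,⟨-90,-275,-114⟩,⟨-86,-90,285⟩⟩ (1,[(0,1)]) (43280,[(0,13029),(1,13995),(3,12631576)]) (285,[(2,85525),(0,86),(3,35454)])) (.leaf false ⟨⟨-306,-54,13⟩,⟨22,-51,306⟩,⟨51,-302,-54⟩⟩ (1,[(2,319),(4,293),(1,1)]) (38,[(2,10778),(4,4009),(0,17)]) (2109,[(2,2914156),(1,10032),(0,835)])))) (.leaf false ⟨⟨-311,0,0⟩,⟨0,-311,0⟩,⟨0,0,-311⟩⟩ (1,[(2,311)]) (1,[(1,311)]) (1,[(0,311)]))))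
theorem pf311_ok : pf311.check (ok 311 6 ⟨5, 5, 5⟩) (fun _ r => r) [] = true := by decide +kernel

def pf313 : T := .node ⟨1,0,0⟩ (.node ⟨0,1,0⟩ (.node ⟨0,0,1⟩ (.leaf false ⟨⟨0,0,313⟩,⟨0,313,0⟩,⟨313,0,0⟩⟩ (1,[(0,313)]) (1,[(1,313)]) (1,[(2,313)])) (.node ⟨0,312,25⟩ (.leaf false ⟨⟨0,25,-312⟩,⟨0,312,25⟩,⟨313,0,0⟩⟩ (312,[(1,97969),(0,25)]) (1,[(0,1)]) (1,[(3,313)])) (.node ⟨-111,-108,-272⟩ (.leaf false ⟨⟨-111,-108,-272⟩,⟨52,279,-132⟩,⟨288,-92,-81⟩⟩ (1,[(0,1)]) (68,[(4,7199),(3,22536),(0,33)]) (25,[(1,81),(4,7200),(3,22972)])) (.leaf false ⟨⟨0,313,0⟩,⟨25,0,-312⟩,⟨312,0,25⟩⟩ (1,[(3,313)]) (2775,[(1,41432),(0,625),(3,12859284)]) (925,[(1,27363),(0,2600),(3,8256456)]))))) (.node ⟨0,0,1⟩ (.node ⟨0,25,312⟩ (.leaf false ⟨⟨0,-312,25⟩,⟨0,25,312⟩,⟨313,0,0⟩⟩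 (312,[(0,25),(2,97969)]) (1,[(0,1)]) (1,[(3,313)])) (.node ⟨-111,-272,-108⟩ (.leaf false ⟨⟨-111,-272,-108⟩,⟨52,-132,279⟩,⟨288,-81,-92⟩⟩ (1,[(0,1)]) (68,[(2,22536),(4,7199),(0,33)]) (25,[(2,22972),(4,7200),(1,81)])) (.leaf false ⟨⟨0,0,313⟩,⟨25,-312,0⟩,⟨312,25,0⟩⟩ (1,[(2,313)]) (2775,[(2,12859284),(0,625),(1,41432)]) (925,[(2,8256456),(0,2600),(1,27363)])))) (.node ⟨300,-15,88⟩ (.node ⟨-15,-300,88⟩ (.node ⟨-20,-87,-300⟩ (.leaf false ⟨⟨-20,-87,-300⟩,⟨-15,-300,88⟩,⟨312,-20,-15⟩⟩ (1,[(0,1)]) (1,[(1,1)]) (15,[(3,313),(5,4695),(1,1)])) (.leaf false ⟨⟨-15,-312,-20⟩,⟨88,15,-300⟩,⟨300,-20,87⟩⟩ (313,[(3,38812),(0,12),(1,329)]) (1565,[(3,3302776),(0,8725),(1,2452)]) (939,[(3,5802707),(0,18060),(1,5300)]))) (.node ⟨297,52,84⟩ (.leaf false ⟨⟨52,144,-273⟩,⟨84,-273,-128⟩,⟨297,52,84⟩⟩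 (690,[(3,169646),(1,313),(0,105)]) (25,[(3,3816),(2,7),(4,6720)]) (1,[(0,1)])) (.leaf false ⟨⟨-288,-81,-92⟩,⟨52,132,-279⟩,⟨111,-272,-108⟩⟩ (130965,[(1,20009),(2,147419),(0,276915)]) (314316,[(1,1155053),(2,4514672),(0,4563579)]) (130965,[(1,255694),(2,1691284),(0,1672335)])))) (.leaf false ⟨⟨-264,7,-168⟩,⟨7,-312,-24⟩,⟨168,24,-263⟩⟩ (11,[(3,3396),(2,238),(0,21)]) (11,[(3,977),(2,3477),(0,3)]) (88,[(3,93684),(2,1833),(0,263)]))))) (.node ⟨0,1,0⟩ (.node ⟨0,0,1⟩ (.node ⟨25,0,312⟩ (.leaf false ⟨⟨-312,0,25⟩,⟨0,313,0⟩,⟨25,0,312⟩⟩ (312,[(3,97969),(0,25)]) (1,[(2,313)]) (1,[(0,1)])) (.node ⟨-272,-111,-108⟩ (.leaf false ⟨⟨-300,-15,88⟩,⟨-87,-20,-300⟩,⟨-20,312,-15⟩⟩ (68,[(2,14084),(0,75),(3,7305)]) (6847,[(0,1637),(1,6017),(3,44767)]) (5,[(2,1173),(1,4),(3,1560)]))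 (.leaf false ⟨⟨-312,25,0⟩,⟨0,0,313⟩,⟨25,312,0⟩⟩ (2775,[(2,12859284),(1,41432),(0,625)]) (1,[(2,313)]) (925,[(2,8256456),(1,27363),(0,2600)])))) (.node ⟨-15,300,88⟩ (.node ⟨-300,-15,88⟩ (.node ⟨-87,-20,-300⟩ (.leaf false ⟨⟨-300,-15,88⟩,⟨-87,-20,-300⟩,⟨-20,312,-15⟩⟩ (1,[(1,1)]) (1,[(0,1)]) (15,[(3,313),(1,1),(4,4695)])) (.leaf false ⟨⟨-312,-15,-20⟩,⟨-20,300,87⟩,⟨15,88,-300⟩⟩ (313,[(3,38812),(1,329),(0,12)]) (939,[(3,5802707),(1,5300),(0,18060)]) (1565,[(3,3302776),(1,2452),(0,8725)]))) (.node ⟨52,297,84⟩ (.leaf false ⟨⟨-273,84,-128⟩,⟨52,297,84⟩,⟨144,52,-273⟩⟩ (25,[(3,3816),(5,6720),(2,7)]) (1,[(0,1)]) (690,[(3,169646),(0,105),(1,313)])) (.leaf false ⟨⟨-312,-15,-20⟩,⟨-20,300,87⟩,⟨15,88,-300⟩⟩ (43655,[(2,274092),(1,16822),(0,279915)]) (104772,[(2,119792),(1,1649),(0,15255)])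 (392895,[(2,7176337),(1,1629007),(0,7214685)])))) (.leaf false ⟨⟨-312,7,-24⟩,⟨7,-264,-168⟩,⟨24,168,-263⟩⟩ (11,[(3,3477),(2,977),(0,3)]) (11,[(3,238),(2,3396),(0,21)]) (88,[(3,1833),(2,93684),(0,263)])))) (.node ⟨0,0,1⟩ (.node ⟨-15,88,300⟩ (.node ⟨-300,88,-15⟩ (.node ⟨-87,-300,-20⟩ (.leaf false ⟨⟨-300,88,-15⟩,⟨-87,-300,-20⟩,⟨-20,-15,312⟩⟩ (1,[(1,1)]) (1,[(0,1)]) (15,[(3,4695),(1,1),(4,313)])) (.leaf false ⟨⟨-312,-20,-15⟩,⟨-20,87,300⟩,⟨15,-300,88⟩⟩ (313,[(1,329),(4,38812),(0,12)]) (939,[(1,5300),(4,5802707),(0,18060)]) (1565,[(1,2452),(4,3302776),(0,8725)]))) (.node ⟨52,84,297⟩ (.leaf false ⟨⟨-273,-128,84⟩,⟨52,84,297⟩,⟨144,-273,52⟩⟩ (25,[(2,7),(5,6720),(4,3816)]) (1,[(0,1)]) (690,[(4,169646),(1,313),(0,105)])) (.leaf false ⟨⟨-312,-24,7⟩,⟨7,-168,-264⟩,⟨24,-263,168⟩⟩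 (392895,[(2,2718916),(0,2747400),(1,203551)]) (130965,[(2,565427),(0,695220),(1,151832)]) (523860,[(2,9191008),(0,9092445),(1,2077483)])))) (.leaf false ⟨⟨-312,-24,7⟩,⟨7,-168,-264⟩,⟨24,-263,168⟩⟩ (11,[(1,977),(3,3477),(0,3)]) (11,[(1,3396),(3,238),(0,21)]) (88,[(1,93684),(3,1833),(0,263)]))) (.node ⟨-132,192,-209⟩ (.node ⟨-288,-92,81⟩ (.node ⟨81,-272,-132⟩ (.leaf false ⟨⟨-288,-111,52⟩,⟨-92,108,-279⟩,⟨81,-272,-132⟩⟩ (1,[(3,29),(1,1),(4,19)]) (16,[(3,2583),(2,9),(5,284)]) (1,[(0,1)])) (.leaf false ⟨⟨-288,52,111⟩,⟨-92,-279,-108⟩,⟨-81,132,-272⟩⟩ (9,[(3,3225),(0,32),(4,8236)]) (81,[(3,20892),(0,92),(4,47623)]) (1,[(3,404),(0,1),(4,140)]))) (.leaf false ⟨⟨-312,7,-24⟩,⟨7,-264,-168⟩,⟨24,168,-263⟩⟩ (27,[(4,10728),(3,547),(0,8)]) (27,[(4,15939),(3,12280),(0,56)])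 (81,[(4,73800),(3,10588),(0,263)]))) (.leaf false ⟨⟨-312,-24,7⟩,⟨7,-168,-264⟩,⟨24,-263,168⟩⟩ (8,[(1,153),(3,2628),(0,1)]) (8,[(1,3575),(3,868),(0,7)]) (192,[(1,22711),(3,30108),(0,263)])))))
theorem pf313_ok : pf313.check (ok 313 6 ⟨5, 5, 5⟩) (fun _ r => r) [] = true := by decide +kernel

def pf317 : T := .node ⟨1,0,0⟩ (.node ⟨0,1,0⟩ (.node ⟨0,0,1⟩ (.node ⟨-192,99,232⟩ (.node ⟨88,288,-99⟩ (.node ⟨252,-11,192⟩ (.leaf false ⟨⟨-171,132,232⟩,⟨88,288,-99⟩,⟨252,-11,192⟩⟩ (1,[(5,21),(4,33),(2,1)]) (1,[(1,1)]) (1,[(0,1)])) (.leaf false ⟨⟨-312,48,-29⟩,⟨-21,52,312⟩,⟨52,309,-48⟩⟩ (11,[(3,8897),(5,8664),(0,48)]) (11,[(3,13416),(5,12873),(0,52)]) (11,[(3,58800),(5,78440),(0,309)]))) (.leaf false ⟨⟨-192,-11,252⟩,⟨99,288,88⟩,⟨232,-132,171⟩⟩ (11,[(4,352),(3,7943),(0,28)])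 (9,[(4,1595),(3,4896),(0,8)]) (11,[(4,4224),(3,4020),(0,19)]))) (.leaf false ⟨⟨36,312,43⟩,⟨213,-56,228⟩,⟨232,3,-216⟩⟩ (16,[(1,1384),(0,3),(2,5289)]) (64,[(1,31064),(0,71),(2,3445)]) (24,[(1,1544),(0,29),(2,2943)]))) (.node ⟨312,21,52⟩ (.node ⟨-48,309,52⟩ (.leaf false ⟨⟨-29,312,48⟩,⟨48,52,-309⟩,⟨312,21,52⟩⟩ (103,[(2,464),(4,2005),(0,104)]) (309,[(2,98185),(4,17328),(0,52)]) (1,[(1,1)])) (.node ⟨168,259,72⟩ (.leaf false ⟨⟨21,72,-308⟩,⟨168,259,72⟩,⟨268,-168,-21⟩⟩ (8,[(3,2536),(0,1),(4,317)]) (1,[(0,1)]) (1524,[(1,2853),(0,1616),(4,207001)])) (.leaf false ⟨⟨-276,-83,-132⟩,⟨52,204,-237⟩,⟨147,-228,-164⟩⟩ (286,[(2,48),(4,120035),(0,559)]) (156,[(2,495),(4,247018),(0,871)]) (1144,[(2,3178),(4,941789),(0,4901)])))) (.leaf false ⟨⟨-308,45,-60⟩,⟨45,-92,-300⟩,⟨60,300,-83⟩⟩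 (13,[(3,676),(2,900),(0,15)]) (13,[(3,23985),(2,379),(0,75)]) (52,[(3,29016),(2,17343),(0,83)])))) (.node ⟨0,0,1⟩ (.node ⟨312,52,21⟩ (.node ⟨-48,52,309⟩ (.leaf false ⟨⟨-29,48,312⟩,⟨48,-309,52⟩,⟨312,52,21⟩⟩ (103,[(4,2005),(3,464),(0,104)]) (309,[(4,17328),(3,98185),(0,52)]) (1,[(1,1)])) (.node ⟨168,72,259⟩ (.leaf false ⟨⟨21,-308,72⟩,⟨168,72,259⟩,⟨268,-21,-168⟩⟩ (8,[(3,317),(0,1),(4,2536)]) (1,[(0,1)]) (1524,[(3,207001),(0,1616),(1,2853)])) (.leaf false ⟨⟨-276,-132,-83⟩,⟨52,-237,204⟩,⟨147,-164,-228⟩⟩ (286,[(3,120035),(2,48),(0,559)]) (156,[(3,247018),(2,495),(0,871)]) (1144,[(3,941789),(2,3178),(0,4901)])))) (.leaf false ⟨⟨-308,-60,45⟩,⟨45,-300,-92⟩,⟨60,-83,300⟩⟩ (13,[(1,900),(3,676),(0,15)]) (13,[(1,379),(3,23985),(0,75)]) (52,[(1,17343),(3,29016),(0,83)])))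 (.node ⟨-92,-300,-45⟩ (.node ⟨60,45,-308⟩ (.node ⟨300,-92,45⟩ (.leaf false ⟨⟨-83,-300,-60⟩,⟨60,45,-308⟩,⟨300,-92,45⟩⟩ (1,[(3,15),(5,9),(2,1)]) (1,[(1,1)]) (1,[(0,1)])) (.leaf false ⟨⟨-312,-3,-56⟩,⟨36,232,-213⟩,⟨43,-216,-228⟩⟩ (45,[(5,2760),(4,5287),(0,56)]) (15,[(5,21840),(4,3052),(0,71)]) (15,[(5,23445),(4,10232),(0,76)]))) (.leaf false ⟨⟨-227,-216,48⟩,⟨144,-92,267⟩,⟨168,-213,-164⟩⟩ (5,[(2,7152),(4,305),(0,24)]) (45,[(2,16321),(4,12000),(0,92)]) (15,[(2,24328),(4,6780),(0,71)]))) (.leaf false ⟨⟨3,-56,-312⟩,⟨216,-228,43⟩,⟨232,213,-36⟩⟩ (92,[(1,28839),(0,3),(2,6052)]) (23,[(1,1441),(0,54),(2,21444)]) (23,[(1,3438),(0,58),(2,12501)]))))) (.node ⟨0,1,0⟩ (.node ⟨0,0,1⟩ (.node ⟨52,312,21⟩ (.node ⟨52,-48,309⟩ (.leaf false ⟨⟨-309,48,52⟩,⟨48,-29,312⟩,⟨52,312,21⟩⟩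 (309,[(4,98185),(3,17328),(0,52)]) (103,[(4,464),(3,2005),(0,104)]) (1,[(1,1)])) (.node ⟨72,168,259⟩ (.leaf false ⟨⟨-308,21,72⟩,⟨-21,268,-168⟩,⟨72,168,259⟩⟩ (8,[(3,317),(5,2536),(0,1)]) (1524,[(3,207001),(1,2853),(0,1616)]) (1,[(0,1)])) (.leaf false ⟨⟨-312,-36,43⟩,⟨-56,213,-228⟩,⟨3,232,216⟩⟩ (286,[(3,505651),(0,1989),(2,1038)]) (1144,[(3,312027),(0,2379),(2,2062)]) (1716,[(3,688400),(0,1391),(2,2025)])))) (.leaf false ⟨⟨-308,21,-72⟩,⟨-72,-168,259⟩,⟨-21,268,168⟩⟩ (13,[(1,681),(0,77),(2,24297)]) (13,[(1,3745),(0,18),(2,3432)]) (52,[(1,9177),(0,21),(2,20488)]))) (.node ⟨-45,-92,-300⟩ (.node ⟨-308,60,45⟩ (.node ⟨45,300,-92⟩ (.leaf false ⟨⟨-308,60,45⟩,⟨-60,-83,-300⟩,⟨45,300,-92⟩⟩ (1,[(1,1)]) (1,[(2,1),(5,15),(4,9)]) (1,[(0,1)])) (.leaf false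 ⟨⟨-312,36,43⟩,⟨-56,-213,-228⟩,⟨-3,232,-216⟩⟩ (15,[(3,8923),(0,104),(4,31740)]) (45,[(3,15412),(0,56),(4,7215)]) (15,[(3,3332),(0,1),(4,3780)]))) (.leaf false ⟨⟨-312,-3,-56⟩,⟨36,232,-213⟩,⟨43,-216,-228⟩⟩ (45,[(4,31288),(3,3225),(0,56)]) (15,[(4,21328),(3,7740),(0,71)]) (15,[(4,22763),(3,1320),(0,76)]))) (.leaf false ⟨⟨-312,3,-56⟩,⟨-36,232,213⟩,⟨43,216,-228⟩⟩ (92,[(1,6052),(3,28839),(0,3)]) (23,[(1,12501),(3,3438),(0,58)]) (23,[(1,21444),(3,1441),(0,54)])))) (.node ⟨0,0,1⟩ (.node ⟨-45,-300,-92⟩ (.node ⟨-308,45,60⟩ (.node ⟨45,-92,300⟩ (.leaf false ⟨⟨-308,45,60⟩,⟨-60,-300,-83⟩,⟨45,-92,300⟩⟩ (1,[(1,1)]) (1,[(3,9),(5,15),(2,1)]) (1,[(0,1)])) (.leaf false ⟨⟨-312,21,52⟩,⟨-48,52,-309⟩,⟨-29,-312,-48⟩⟩ (15,[(3,31980),(0,104),(4,9253)]) (15,[(3,165),(0,16),(4,692)])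 (45,[(3,6540),(0,29),(4,16708)]))) (.leaf false ⟨⟨-312,-56,-3⟩,⟨36,-213,232⟩,⟨43,-228,-216⟩⟩ (45,[(2,3225),(4,31288),(0,56)]) (15,[(2,7740),(4,21328),(0,71)]) (15,[(2,1320),(4,22763),(0,76)]))) (.leaf false ⟨⟨-312,-56,3⟩,⟨-36,213,232⟩,⟨43,-228,216⟩⟩ (92,[(3,28839),(2,6052),(0,3)]) (23,[(3,3438),(2,12501),(0,58)]) (23,[(3,1441),(2,21444),(0,54)]))) (.leaf false ⟨⟨-317,0,0⟩,⟨0,-317,0⟩,⟨0,0,-317⟩⟩ (1,[(2,317)]) (1,[(1,317)]) (1,[(0,317)]))))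
theorem pf317_ok : pf317.check (ok 317 6 ⟨5, 5, 5⟩) (fun _ r => r) [] = true := by decide +kernel

def pf323 : T := .node ⟨1,0,0⟩ (.node ⟨0,1,0⟩ (.node ⟨0,0,1⟩ (.node ⟨-177,154,222⟩ (.node ⟨66,282,-143⟩ (.leaf false ⟨⟨-177,154,222⟩,⟨66,282,-143⟩,⟨262,33,186⟩⟩ (1,[(1,1)]) (1,[(0,1)]) (14,[(2,1938),(4,4199),(1,3)])) (.leaf false ⟨⟨-177,66,262⟩,⟨154,282,33⟩,⟨222,-143,186⟩⟩ (3553,[(3,488376),(1,2673),(0,2360)]) (13,[(4,2200),(3,4512),(0,3)]) (143,[(4,44022),(3,32003),(0,186)]))) (.leaf false ⟨⟨33,154,282⟩,⟨186,222,-143⟩,⟨262,-177,66⟩⟩ (59,[(1,19080),(0,11),(2,10780)]) (59,[(1,5327),(0,62),(2,22646)]) (177,[(1,69846),(0,262),(2,9019)]))) (.node ⟨-102,46,-303⟩ (.node ⟨210,198,145⟩ (.node ⟨225,-98,-210⟩ (.node ⟨-98,225,-210⟩ (.leaf false ⟨⟨-98,225,-210⟩,⟨210,210,127⟩,⟨225,-98,-210⟩⟩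 (1,[(0,1)]) (1,[(4,18),(2,1),(5,12)]) (1,[(1,1)])) (.leaf false ⟨⟨-98,54,-303⟩,⟨33,318,46⟩,⟨306,-17,-102⟩⟩ (1379,[(5,50042),(3,1519),(0,202)]) (8274,[(5,3713795),(3,2422),(0,5307)]) (1379,[(5,3274336),(3,12376),(0,17187)]))) (.leaf false ⟨⟨-287,126,-78⟩,⟨78,273,154⟩,⟨126,118,-273⟩⟩ (7,[(3,2436),(5,16),(0,9)]) (14,[(3,6034),(5,9867),(0,39)]) (49,[(3,25767),(5,19449),(0,59)]))) (.leaf false ⟨⟨-242,81,-198⟩,⟨81,-242,-198⟩,⟨198,198,-161⟩⟩ (145,[(4,6490),(3,50949),(0,198)]) (145,[(4,53325),(3,4114),(0,198)]) (145,[(4,62520),(3,60588),(0,161)]))) (.leaf false ⟨⟨63,226,-222⟩,⟨82,207,234⟩,⟨306,-102,-17⟩⟩ (34,[(1,13911),(0,21),(2,8650)]) (51,[(1,489),(0,41),(2,12443)]) (1,[(1,926),(0,3),(2,36)])))) (.node ⟨0,0,1⟩ (.node ⟨-102,-303,46⟩ (.node ⟨210,145,198⟩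 (.node ⟨225,-210,-98⟩ (.node ⟨-98,-210,225⟩ (.leaf false ⟨⟨-98,-210,225⟩,⟨210,127,210⟩,⟨225,-210,-98⟩⟩ (1,[(0,1)]) (1,[(4,12),(2,1),(5,18)]) (1,[(1,1)])) (.leaf false ⟨⟨-98,-303,54⟩,⟨33,46,318⟩,⟨306,-102,-17⟩⟩ (1379,[(4,50042),(0,202),(3,1519)]) (8274,[(4,3713795),(0,5307),(3,2422)]) (1379,[(4,3274336),(0,17187),(3,12376)]))) (.leaf false ⟨⟨-287,-78,126⟩,⟨78,154,273⟩,⟨126,-273,118⟩⟩ (7,[(5,16),(4,2436),(0,9)]) (14,[(5,9867),(4,6034),(0,39)]) (49,[(5,19449),(4,25767),(0,59)]))) (.leaf false ⟨⟨-242,-198,81⟩,⟨81,-198,-242⟩,⟨198,-161,198⟩⟩ (145,[(2,50949),(4,6490),(0,198)]) (145,[(2,4114),(4,53325),(0,198)]) (145,[(2,60588),(4,62520),(0,161)]))) (.leaf false ⟨⟨63,-222,226⟩,⟨82,234,207⟩,⟨306,-17,-102⟩⟩ (34,[(1,8650),(0,21),(2,13911)]) (51,[(1,12443),(0,41),(2,489)])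 (1,[(1,36),(0,3),(2,926)]))) (.node ⟨-152,-285,0⟩ (.leaf false ⟨⟨-152,-285,0⟩,⟨0,0,-323⟩,⟨285,-152,0⟩⟩ (1,[(0,1)]) (1,[(1,323)]) (15,[(3,5491),(0,8)])) (.node ⟨294,118,63⟩ (.leaf false ⟨⟨42,63,-314⟩,⟨127,-294,-42⟩,⟨294,118,63⟩⟩ (76,[(2,23864),(1,21),(3,1197)]) (152,[(2,6384),(1,127),(3,80883)]) (1,[(0,1)])) (.leaf false ⟨⟨-306,33,-98⟩,⟨-17,-318,-54⟩,⟨102,46,-303⟩⟩ (684,[(1,681),(3,45961),(0,1064)]) (1064,[(1,1645),(3,699561),(0,912)]) (798,[(1,7959),(3,1778723),(0,3838)])))))) (.node ⟨0,1,0⟩ (.node ⟨0,0,1⟩ (.node ⟨-303,-102,46⟩ (.node ⟨145,210,198⟩ (.node ⟨-210,225,-98⟩ (.node ⟨-210,-98,225⟩ (.leaf false ⟨⟨-210,-98,225⟩,⟨-210,225,-98⟩,⟨127,210,210⟩⟩ (1,[(0,1)]) (1,[(1,1)]) (1,[(4,12),(6,18),(2,1)])) (.leaf false ⟨⟨-318,-17,54⟩,⟨-33,306,-98⟩,⟨46,102,303⟩⟩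 (2758,[(4,1772199),(3,9198),(0,9095)]) (1379,[(4,2950554),(3,11249),(0,16014)]) (4137,[(4,3813610),(3,8456),(0,13107)]))) (.leaf false ⟨⟨-318,-33,46⟩,⟨-17,306,102⟩,⟨54,-98,303⟩⟩ (49,[(5,20412),(4,3558),(0,23)]) (49,[(5,11543),(4,26469),(0,51)]) (98,[(5,58338),(4,58571),(0,303)]))) (.leaf false ⟨⟨-306,-102,-17⟩,⟨-98,303,-54⟩,⟨-33,46,318⟩⟩ (145,[(2,58123),(0,306),(3,49470)]) (145,[(2,11574),(0,98),(3,64515)]) (145,[(2,52644),(0,33),(3,13600)]))) (.leaf false ⟨⟨-222,63,226⟩,⟨-17,306,-102⟩,⟨234,82,207⟩⟩ (34,[(1,8650),(3,13911),(0,21)]) (1,[(1,36),(3,926),(0,3)]) (51,[(1,12443),(3,489),(0,41)]))) (.node ⟨0,-152,-285⟩ (.leaf false ⟨⟨-323,0,0⟩,⟨0,-152,-285⟩,⟨0,285,-152⟩⟩ (1,[(3,323)]) (1,[(0,1)]) (15,[(0,8),(2,5491)])) (.node ⟨63,294,118⟩ (.leaf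 false ⟨⟨-314,42,63⟩,⟨-42,127,-294⟩,⟨63,294,118⟩⟩ (76,[(2,1197),(4,23864),(1,21)]) (152,[(2,80883),(4,6384),(1,127)]) (1,[(0,1)])) (.leaf false ⟨⟨-314,-63,42⟩,⟨-63,118,-294⟩,⟨-42,294,127⟩⟩ (9576,[(2,19144799),(0,47728),(1,88347)]) (38,[(2,36043),(0,38),(1,103)]) (228,[(2,162583),(0,152),(1,735)]))))) (.node ⟨0,0,1⟩ (.node ⟨0,-285,-152⟩ (.leaf false ⟨⟨-323,0,0⟩,⟨0,-285,-152⟩,⟨0,-152,285⟩⟩ (1,[(3,323)]) (1,[(0,1)]) (15,[(1,5491),(0,8)])) (.node ⟨63,118,294⟩ (.leaf false ⟨⟨-314,63,42⟩,⟨-42,-294,127⟩,⟨63,118,294⟩⟩ (76,[(1,21),(4,23864),(3,1197)]) (152,[(1,127),(4,6384),(3,80883)]) (1,[(0,1)])) (.leaf false ⟨⟨-314,42,-63⟩,⟨-63,-294,118⟩,⟨-42,127,294⟩⟩ (9576,[(1,88347),(0,47728),(3,19144799)]) (38,[(1,103),(0,38),(3,36043)]) (228,[(1,735),(0,152),(3,162583)]))))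 (.leaf false ⟨⟨-323,0,0⟩,⟨0,-323,0⟩,⟨0,0,-323⟩⟩ (1,[(2,323)]) (1,[(1,323)]) (1,[(0,323)]))))
theorem pf323_ok : pf323.check (ok 323 6 ⟨5, 5, 5⟩) (fun _ r => r) [] = true := by decide +kernel

def pf329 : T := .node ⟨1,0,0⟩ (.node ⟨0,1,0⟩ (.node ⟨0,0,1⟩ (.node ⟨-72,36,319⟩ (.node ⟨4,321,-72⟩ (.leaf false ⟨⟨-72,36,319⟩,⟨4,327,-36⟩,⟨321,4,72⟩⟩ (1,[(1,1)]) (969,[(2,35861),(0,987),(1,1)]) (9,[(2,329),(4,2961),(1,1)])) (.leaf false ⟨⟨-60,121,300⟩,⟨40,-300,129⟩,⟨321,60,40⟩⟩ (319,[(4,2460),(3,27799),(1,300)]) (24,[(4,1132),(3,6603),(0,43)]) (9,[(4,2909),(3,2145),(0,5)]))) (.leaf false ⟨⟨4,36,327⟩,⟨72,319,-36⟩,⟨321,-72,4⟩⟩ (18,[(1,6205),(0,1),(2,684)]) (1,[(1,283),(0,1),(2,355)]) (24,[(1,34229),(0,107),(2,2124)]))) (.node ⟨300,40,129⟩ (.node ⟨-183,256,-96⟩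 (.node ⟨96,-48,-311⟩ (.leaf false ⟨⟨-183,256,-96⟩,⟨96,-48,-311⟩,⟨256,201,48⟩⟩ (1,[(1,1)]) (1,[(0,1)]) (43,[(5,6208),(2,16),(4,8003)])) (.leaf false ⟨⟨-284,156,57⟩,⟨-48,31,-324⟩,⟨159,288,4⟩⟩ (4,[(3,3815),(5,112),(0,13)]) (48,[(3,25193),(5,672),(0,31)]) (1,[(3,1862),(5,735),(0,6)]))) (.leaf false ⟨⟨60,40,-321⟩,⟨121,300,60⟩,⟨300,-129,40⟩⟩ (61,[(2,21501),(0,20),(3,7560)]) (183,[(2,636),(0,121),(3,85876)]) (61,[(2,7160),(0,100),(3,17731)]))) (.leaf false ⟨⟨-288,4,-159⟩,⟨31,324,-48⟩,⟨156,-57,-284⟩⟩ (43,[(3,3516),(2,2292),(0,53)]) (43,[(3,6133),(2,14572),(0,16)]) (129,[(3,105324),(2,4007),(0,284)])))) (.node ⟨0,0,1⟩ (.node ⟨300,129,40⟩ (.node ⟨-183,-96,256⟩ (.node ⟨96,-311,-48⟩ (.leaf false ⟨⟨-183,-96,256⟩,⟨96,-311,-48⟩,⟨256,48,201⟩⟩ (1,[(1,1)])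 (1,[(0,1)]) (43,[(3,8003),(2,16),(5,6208)])) (.leaf false ⟨⟨-284,-48,159⟩,⟨57,-324,4⟩,⟨156,31,288⟩⟩ (16,[(5,544),(4,17251),(0,53)]) (12,[(5,780),(4,4199),(0,1)]) (1,[(5,732),(4,1835),(0,6)]))) (.leaf false ⟨⟨60,-321,40⟩,⟨121,60,300⟩,⟨300,40,-129⟩⟩ (61,[(2,7560),(0,20),(3,21501)]) (183,[(2,85876),(0,121),(3,636)]) (61,[(2,17731),(0,100),(3,7160)]))) (.leaf false ⟨⟨-288,-159,4⟩,⟨31,-48,324⟩,⟨156,-284,-57⟩⟩ (43,[(1,2292),(3,3516),(0,53)]) (43,[(1,14572),(3,6133),(0,16)]) (129,[(1,4007),(3,105324),(0,284)]))) (.node ⟨319,36,72⟩ (.leaf false ⟨⟨36,-327,4⟩,⟨72,4,-321⟩,⟨319,36,72⟩⟩ (319,[(1,1316),(0,36),(2,105609)]) (319,[(1,107583),(0,72),(2,1316)]) (1,[(0,1)])) (.node ⟨-159,-284,48⟩ (.node ⟨288,-156,31⟩ (.leaf false ⟨⟨-159,-284,48⟩,⟨4,-57,-324⟩,⟨288,-156,31⟩⟩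 (1,[(1,1)]) (12,[(3,2520),(5,6109),(2,19)]) (1,[(0,1)])) (.leaf false ⟨⟨-324,4,-57⟩,⟨31,288,-156⟩,⟨48,-159,-284⟩⟩ (329,[(5,1393644),(1,2192),(0,3999)]) (329,[(5,2817227),(1,3852),(0,7620)]) (1316,[(5,33318159),(1,49233),(0,88288)]))) (.leaf false ⟨⟨-294,-77,-126⟩,⟨-14,294,-147⟩,⟨147,-126,-266⟩⟩ (4,[(4,1057),(3,56),(1,7)]) (264,[(4,51170),(1,329),(0,315)]) (396,[(4,521564),(1,1457),(0,9)])))))) (.node ⟨0,1,0⟩ (.node ⟨0,0,1⟩ (.node ⟨129,40,300⟩ (.node ⟨-96,256,-183⟩ (.node ⟨-311,-48,96⟩ (.leaf false ⟨⟨-311,-48,96⟩,⟨-96,256,-183⟩,⟨48,201,256⟩⟩ (1,[(0,1)]) (1,[(1,1)]) (43,[(3,6208),(4,8003),(2,16)])) (.leaf false ⟨⟨-324,4,57⟩,⟨-48,159,-284⟩,⟨31,288,156⟩⟩ (12,[(3,780),(5,4199),(0,1)]) (16,[(3,544),(5,17251),(0,53)]) (1,[(3,732),(5,1835),(0,6)])))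 (.leaf false ⟨⟨-321,40,60⟩,⟨40,-129,300⟩,⟨60,300,121⟩⟩ (61,[(4,21501),(3,7560),(0,20)]) (61,[(4,7160),(3,17731),(0,100)]) (183,[(4,636),(3,85876),(0,121)]))) (.leaf false ⟨⟨-294,-77,126⟩,⟨-147,126,-266⟩,⟨-14,294,147⟩⟩ (43,[(1,34818),(0,98),(2,609)]) (43,[(1,3262),(0,49),(2,7378)]) (129,[(1,23163),(0,14),(2,38486)]))) (.node ⟨36,319,72⟩ (.leaf false ⟨⟨-327,36,4⟩,⟨4,72,-321⟩,⟨36,319,72⟩⟩ (319,[(1,1316),(3,105609),(0,36)]) (319,[(1,107583),(3,1316),(0,72)]) (1,[(0,1)])) (.node ⟨-284,-159,48⟩ (.node ⟨-156,288,31⟩ (.leaf false ⟨⟨-284,-159,48⟩,⟨-156,288,31⟩,⟨-57,4,-324⟩⟩ (1,[(1,1)]) (1,[(0,1)]) (12,[(3,2520),(2,19),(4,6109)])) (.leaf false ⟨⟨-327,-36,4⟩,⟨-36,319,-72⟩,⟨4,-72,-321⟩⟩ (188,[(1,1359),(4,808353),(0,2080)]) (47,[(1,441),(4,313208),(0,792)])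 (47,[(1,1784),(4,1215984),(0,3249)]))) (.leaf false ⟨⟨-324,4,-57⟩,⟨31,288,-156⟩,⟨48,-159,-284⟩⟩ (24,[(1,19),(4,7092),(3,6157)]) (446,[(1,183),(4,313286),(0,1175)]) (1386,[(1,4897),(3,1205824),(0,855)]))))) (.node ⟨0,0,1⟩ (.node ⟨36,72,319⟩ (.leaf false ⟨⟨-327,4,36⟩,⟨4,-321,72⟩,⟨36,72,319⟩⟩ (319,[(3,105609),(2,1316),(0,36)]) (319,[(3,1316),(2,107583),(0,72)]) (1,[(0,1)])) (.node ⟨-284,48,-159⟩ (.node ⟨-156,31,288⟩ (.leaf false ⟨⟨-284,48,-159⟩,⟨-156,31,288⟩,⟨-57,-324,4⟩⟩ (1,[(1,1)]) (1,[(0,1)]) (12,[(3,6109),(2,19),(4,2520)])) (.leaf false ⟨⟨-327,4,-36⟩,⟨-36,-72,319⟩,⟨4,-321,-72⟩⟩ (188,[(3,808353),(1,1359),(0,2080)]) (47,[(3,313208),(1,441),(0,792)]) (47,[(3,1215984),(1,1784),(0,3249)]))) (.leaf false ⟨⟨-324,-57,4⟩,⟨31,-156,288⟩,⟨48,-284,-159⟩⟩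 (24,[(2,6157),(4,7092),(1,19)]) (446,[(4,313286),(1,183),(0,1175)]) (1386,[(2,1205824),(1,4897),(0,855)])))) (.leaf false ⟨⟨-329,0,0⟩,⟨0,-329,0⟩,⟨0,0,-329⟩⟩ (1,[(2,329)]) (1,[(1,329)]) (1,[(0,329)]))))
theorem pf329_ok : pf329.check (ok 329 6 ⟨5, 5, 5⟩) (fun _ r => r) [] = true := by decide +kernel

def pf331 : T := .node ⟨1,0,0⟩ (.node ⟨0,1,0⟩ (.node ⟨0,0,1⟩ (.leaf false ⟨⟨0,0,331⟩,⟨0,331,0⟩,⟨331,0,0⟩⟩ (1,[(0,331)]) (1,[(1,331)]) (1,[(2,331)])) (.node ⟨246,151,162⟩ (.node ⟨-119,270,-150⟩ (.node ⟨150,-90,-281⟩ (.leaf false ⟨⟨-119,270,-150⟩,⟨150,-90,-281⟩,⟨270,169,90⟩⟩ (1,[(1,1)]) (1,[(0,1)]) (9,[(5,1200),(2,5),(4,766)])) (.leaf false ⟨⟨-234,169,162⟩,⟨7,234,-234⟩,⟨234,162,169⟩⟩ (90,[(3,32909),(5,4290),(0,169)]) (5,[(3,4823),(5,1985),(0,13)])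 (5,[(3,1684),(5,2520),(0,9)]))) (.leaf false ⟨⟨6,25,-330⟩,⟨150,294,25⟩,⟨295,-150,-6⟩⟩ (119,[(2,40170),(0,6),(3,4595)]) (119,[(2,19525),(0,150),(3,75486)]) (119,[(2,44964),(0,295),(3,61800)]))) (.leaf false ⟨⟨-162,66,-281⟩,⟨151,294,-18⟩,⟨246,-137,-174⟩⟩ (162,[(3,42882),(2,53123),(0,281)]) (9,[(3,1605),(2,2797),(0,1)]) (27,[(3,13776),(2,680),(0,29)])))) (.node ⟨0,0,1⟩ (.node ⟨246,162,151⟩ (.node ⟨-119,-150,270⟩ (.node ⟨150,-281,-90⟩ (.leaf false ⟨⟨-119,-150,270⟩,⟨150,-281,-90⟩,⟨270,90,169⟩⟩ (1,[(1,1)]) (1,[(0,1)]) (9,[(3,766),(2,5),(5,1200)])) (.leaf false ⟨⟨-234,-146,183⟩,⟨-38,279,174⟩,⟨231,-102,214⟩⟩ (30,[(5,2130),(4,21521),(0,61)]) (15,[(5,3780),(4,3964),(0,29)]) (45,[(5,26445),(4,34657),(0,107)]))) (.leaf false ⟨⟨6,-330,25⟩,⟨150,25,294⟩,⟨295,-6,-150⟩⟩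 (119,[(2,4595),(0,6),(3,40170)]) (119,[(2,75486),(0,150),(3,19525)]) (119,[(2,61800),(0,295),(3,44964)]))) (.leaf false ⟨⟨-162,-281,66⟩,⟨151,-18,294⟩,⟨246,-174,-137⟩⟩ (162,[(1,53123),(3,42882),(0,281)]) (9,[(1,2797),(3,1605),(0,1)]) (27,[(1,680),(3,13776),(0,29)]))) (.node ⟨249,-146,162⟩ (.node ⟨-110,-294,-105⟩ (.node ⟨105,70,-306⟩ (.leaf false ⟨⟨-110,-294,-105⟩,⟨105,70,-306⟩,⟨294,-135,70⟩⟩ (1,[(1,1)]) (1,[(0,1)]) (146,[(3,11650),(5,9309),(2,135)])) (.leaf false ⟨⟨-249,-218,-6⟩,⟨42,-39,-326⟩,⟨214,-246,57⟩⟩ (35,[(3,33564),(5,2730),(0,109)]) (70,[(3,34754),(5,7035),(0,39)]) (35,[(3,35643),(5,20405),(0,123)]))) (.leaf false ⟨⟨6,-297,-146⟩,⟨178,126,-249⟩,⟨279,-74,162⟩⟩ (55,[(2,8345),(0,3),(3,17217)]) (55,[(2,23040),(0,89),(3,19236)]) (110,[(2,11475),(0,279),(3,90166)])))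 (.leaf false ⟨⟨-249,-6,-218⟩,⟨42,-326,-39⟩,⟨214,57,-246⟩⟩ (81,[(3,6972),(2,16400),(0,109)]) (54,[(3,5505),(2,19502),(0,13)]) (27,[(3,15987),(2,4447),(0,41)]))))) (.node ⟨0,1,0⟩ (.node ⟨0,0,1⟩ (.node ⟨162,151,246⟩ (.node ⟨-150,270,-119⟩ (.node ⟨-281,-90,150⟩ (.leaf false ⟨⟨-281,-90,150⟩,⟨-150,270,-119⟩,⟨90,169,270⟩⟩ (1,[(0,1)]) (1,[(1,1)]) (9,[(3,1200),(4,766),(2,5)])) (.leaf false ⟨⟨-330,6,25⟩,⟨-6,295,-150⟩,⟨25,150,294⟩⟩ (15,[(3,525),(5,5231),(0,1)]) (18,[(3,6150),(5,16687),(0,59)]) (3,[(3,1632),(5,1330),(0,5)]))) (.leaf false ⟨⟨-330,-6,25⟩,⟨6,295,150⟩,⟨25,-150,294⟩⟩ (119,[(4,43020),(3,6036),(0,25)]) (119,[(4,21786),(3,75605),(0,150)]) (17,[(4,5875),(3,8790),(0,42)]))) (.leaf false ⟨⟨-281,-162,66⟩,⟨-174,246,-137⟩,⟨-18,151,294⟩⟩ (162,[(1,79818),(0,281),(2,16187)])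 (27,[(1,3435),(0,29),(2,11021)]) (9,[(1,2892),(0,1),(2,1510)]))) (.node ⟨-146,249,162⟩ (.node ⟨-294,-110,-105⟩ (.node ⟨70,105,-306⟩ (.leaf false ⟨⟨-294,-110,-105⟩,⟨-135,294,70⟩,⟨70,105,-306⟩⟩ (1,[(1,1)]) (146,[(3,11650),(2,135),(4,9309)]) (1,[(0,1)])) (.leaf false ⟨⟨-326,-42,-39⟩,⟨-57,214,246⟩,⟨-6,249,-218⟩⟩ (35,[(3,51243),(0,163),(4,15645)]) (70,[(3,222),(0,57),(4,20965)]) (35,[(3,8548),(0,3),(4,9030)]))) (.leaf false ⟨⟨-297,6,-146⟩,⟨-74,279,162⟩,⟨126,178,-249⟩⟩ (55,[(2,8345),(4,17217),(0,3)]) (110,[(2,11475),(4,90166),(0,279)]) (55,[(2,23040),(4,19236),(0,89)]))) (.leaf false ⟨⟨-326,42,-39⟩,⟨-6,-249,-218⟩,⟨57,214,-246⟩⟩ (54,[(3,19502),(2,5505),(0,13)]) (81,[(3,16400),(2,6972),(0,109)]) (27,[(3,4447),(2,15987),(0,41)])))) (.node ⟨0,0,1⟩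 (.node ⟨-146,162,249⟩ (.node ⟨-294,-105,-110⟩ (.node ⟨70,-306,105⟩ (.leaf false ⟨⟨-294,-105,-110⟩,⟨-135,70,294⟩,⟨70,-306,105⟩⟩ (1,[(1,1)]) (146,[(3,9309),(2,135),(4,11650)]) (1,[(0,1)])) (.leaf false ⟨⟨-326,-39,-42⟩,⟨-57,246,214⟩,⟨-6,-218,249⟩⟩ (35,[(3,15645),(0,163),(4,51243)]) (70,[(3,20965),(0,57),(4,222)]) (35,[(3,9030),(0,3),(4,8548)]))) (.leaf false ⟨⟨-297,-146,6⟩,⟨-74,162,279⟩,⟨126,-249,178⟩⟩ (55,[(4,17217),(3,8345),(0,3)]) (110,[(4,90166),(3,11475),(0,279)]) (55,[(4,19236),(3,23040),(0,89)]))) (.leaf false ⟨⟨-326,-39,42⟩,⟨-6,-218,-249⟩,⟨57,-246,214⟩⟩ (54,[(1,5505),(3,19502),(0,13)]) (81,[(1,6972),(3,16400),(0,109)]) (27,[(1,15987),(3,4447),(0,41)]))) (.node ⟨-137,174,-246⟩ (.node ⟨-137,-246,174⟩ (.node ⟨-294,-18,151⟩ (.leaf false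 ⟨⟨-294,-18,151⟩,⟨-137,174,-246⟩,⟨-66,-281,-162⟩⟩ (1,[(0,1)]) (1,[(2,1)]) (49,[(3,9599),(0,11),(4,13571)])) (.leaf false ⟨⟨-281,-162,-66⟩,⟨-18,151,-294⟩,⟨174,-246,-137⟩⟩ (39389,[(2,45487),(1,58918),(0,11004)]) (21846,[(2,17509),(5,2113435),(0,14010)]) (5669,[(5,1857914),(1,6602),(0,12751)]))) (.leaf false ⟨⟨-326,42,-39⟩,⟨-6,-249,-218⟩,⟨57,214,-246⟩⟩ (58,[(4,20689),(3,762),(0,13)]) (87,[(4,15455),(3,48477),(0,109)]) (29,[(4,3964),(3,3880),(0,41)]))) (.leaf false ⟨⟨-326,-39,42⟩,⟨-6,-218,-249⟩,⟨57,-246,214⟩⟩ (58,[(1,762),(3,20689),(0,13)]) (87,[(1,48477),(3,15455),(0,109)]) (29,[(1,3880),(3,3964),(0,41)])))))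
theorem pf331_ok : pf331.check (ok 331 6 ⟨5, 5, 5⟩) (fun _ r => r) [] = true := by decide +kernel

def pf335 : T := .node ⟨1,0,0⟩ (.node ⟨0,1,0⟩ (.node ⟨0,0,1⟩ (.node ⟨-110,30,315⟩ (.node ⟨-110,315,-30⟩ (.node ⟨315,106,-42⟩ (.leaf false ⟨⟨-110,315,-30⟩,⟨30,42,331⟩,⟨315,106,-42⟩⟩ (1,[(1,1)]) (15,[(3,5025),(5,670),(1,2)]) (1,[(0,1)])) (.leaf false ⟨⟨-315,-90,70⟩,⟨-2,210,261⟩,⟨114,-245,198⟩⟩ (1005,[(5,332990),(1,364),(0,1935)]) (3350,[(5,10625195),(1,12162),(0,29505)]) (1675,[(5,3275630),(1,1783),(0,9170)]))) (.leaf false ⟨⟨-110,30,315⟩,⟨117,-306,70⟩,⟨294,133,90⟩⟩ (1,[(1,1)]) (6675,[(4,153095),(1,858),(0,6566)]) (7,[(4,2278),(3,871),(1,2)]))) (.leaf false ⟨⟨21,250,222⟩,⟨90,210,-245⟩,⟨322,-75,54⟩⟩ (110,[(1,31035),(0,21),(2,28130)]) (11,[(1,140),(0,9),(2,2580)])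 (55,[(1,53685),(0,161),(2,705)]))) (.node ⟨-201,268,0⟩ (.leaf false ⟨⟨-201,268,0⟩,⟨0,0,-335⟩,⟨268,201,0⟩⟩ (1,[(0,1)]) (1,[(1,335)]) (4,[(3,1675),(0,3)])) (.leaf false ⟨⟨0,0,-335⟩,⟨201,268,0⟩,⟨268,-201,0⟩⟩ (1,[(1,335)]) (1,[(0,1),(2,536)]) (3,[(0,4),(2,469)])))) (.node ⟨0,0,1⟩ (.node ⟨-201,0,268⟩ (.leaf false ⟨⟨-201,0,268⟩,⟨0,-335,0⟩,⟨268,0,201⟩⟩ (1,[(0,1)]) (1,[(2,335)]) (4,[(3,1675),(0,3)])) (.leaf false ⟨⟨0,-335,0⟩,⟨201,0,268⟩,⟨268,0,-201⟩⟩ (1,[(2,335)]) (1,[(1,536),(0,1)]) (3,[(1,469),(0,4)]))) (.node ⟨-165,-270,-110⟩ (.node ⟨214,165,-198⟩ (.node ⟨210,-245,90⟩ (.node ⟨-155,-210,-210⟩ (.leaf false ⟨⟨-155,-210,-210⟩,⟨210,-245,90⟩,⟨210,90,-245⟩⟩ (1,[(0,1)]) (1,[(1,1)]) (11,[(4,1507),(2,6),(6,1026)])) (.leaf false ⟨⟨-165,-270,-110⟩,⟨198,-11,-270⟩,⟨214,-198,165⟩⟩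 (1,[(3,1)]) (1440,[(4,1758080),(0,11055),(3,8657)]) (240,[(4,316240),(0,3015),(3,2521)]))) (.leaf false ⟨⟨-299,18,-150⟩,⟨18,-326,-75⟩,⟨150,75,-290⟩⟩ (3,[(5,153),(4,1171),(0,5)]) (6,[(5,1158),(4,3181),(0,5)]) (9,[(5,7440),(4,6430),(0,29)]))) (.leaf false ⟨⟨-219,-210,142⟩,⟨-42,-155,-294⟩,⟨250,-210,75⟩⟩ (11,[(2,1210),(4,587),(0,14)]) (33,[(2,15840),(4,5248),(0,31)]) (11,[(2,1947),(4,5746),(0,14)]))) (.leaf false ⟨⟨0,0,-335⟩,⟨201,268,0⟩,⟨268,-201,0⟩⟩ (1,[(1,335)]) (55,[(1,7370),(0,67),(2,3350)]) (165,[(1,29480),(0,268),(2,105525)]))))) (.node ⟨0,1,0⟩ (.node ⟨0,0,1⟩ (.node ⟨0,-201,268⟩ (.leaf false ⟨⟨-335,0,0⟩,⟨0,-201,268⟩,⟨0,268,201⟩⟩ (1,[(3,335)]) (1,[(0,1)]) (4,[(0,3),(2,1675)])) (.leaf false ⟨⟨-335,0,0⟩,⟨0,201,268⟩,⟨0,268,-201⟩⟩ (1,[(3,335)])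 (1,[(1,536),(0,1)]) (3,[(1,469),(0,4)]))) (.node ⟨-110,270,165⟩ (.node ⟨-210,-155,-210⟩ (.node ⟨90,210,-245⟩ (.leaf false ⟨⟨-245,210,90⟩,⟨-210,-155,-210⟩,⟨90,210,-245⟩⟩ (9,[(3,345),(5,1435),(2,7)]) (1,[(1,1)]) (1,[(0,1)])) (.leaf false ⟨⟨-318,-101,30⟩,⟨-75,150,-290⟩,⟨-74,282,165⟩⟩ (15,[(3,12535),(0,53),(4,9615)]) (6,[(3,2965),(0,5),(4,1950)]) (45,[(3,1640),(0,37),(4,20460)]))) (.leaf false ⟨⟨-335,0,0⟩,⟨0,201,268⟩,⟨0,268,-201⟩⟩ (1,[(4,335)]) (155,[(2,670),(4,42210),(0,201)]) (155,[(2,87435),(4,56280),(0,268)]))) (.leaf false ⟨⟨-315,-2,-114⟩,⟨70,261,-198⟩,⟨90,-210,-245⟩⟩ (55,[(3,21505),(2,10150),(0,38)]) (5,[(3,310),(2,2925),(0,6)]) (33,[(3,2420),(2,6300),(0,49)])))) (.node ⟨0,0,1⟩ (.node ⟨-110,165,270⟩ (.node ⟨-210,-210,-155⟩ (.node ⟨90,-245,210⟩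 (.leaf false ⟨⟨-245,90,210⟩,⟨-210,-210,-155⟩,⟨90,-245,210⟩⟩ (9,[(2,7),(5,1435),(4,345)]) (1,[(1,1)]) (1,[(0,1)])) (.leaf false ⟨⟨-318,30,-101⟩,⟨-75,-290,150⟩,⟨-74,165,282⟩⟩ (15,[(3,9615),(0,53),(4,12535)]) (6,[(3,1950),(0,5),(4,2965)]) (45,[(3,20460),(0,37),(4,1640)]))) (.leaf false ⟨⟨-335,0,0⟩,⟨0,-201,268⟩,⟨0,268,201⟩⟩ (1,[(4,335)]) (155,[(4,56280),(3,87435),(0,268)]) (155,[(4,42210),(3,670),(0,201)]))) (.leaf false ⟨⟨-315,-114,-2⟩,⟨70,-198,261⟩,⟨90,-245,-210⟩⟩ (55,[(1,10150),(3,21505),(0,38)]) (5,[(1,2925),(3,310),(0,6)]) (33,[(1,6300),(3,2420),(0,49)]))) (.leaf false ⟨⟨-335,0,0⟩,⟨0,-335,0⟩,⟨0,0,-335⟩⟩ (1,[(2,335)]) (1,[(1,335)]) (1,[(0,335)]))))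
theorem pf335_ok : pf335.check (ok 335 6 ⟨5, 5, 5⟩) (fun _ r => r) [] = true := by decide +kernel

def pf337 : T := .node ⟨1,0,0⟩ (.node ⟨0,1,0⟩ (.node ⟨0,0,1⟩ (.leaf false ⟨⟨0,0,337⟩,⟨0,337,0⟩,⟨337,0,0⟩⟩ (1,[(0,337)]) (1,[(1,337)]) (1,[(2,337)])) (.node ⟨0,288,175⟩ (.leaf false ⟨⟨0,175,-288⟩,⟨0,288,175⟩,⟨337,0,0⟩⟩ (288,[(1,113569),(0,175)]) (1,[(0,1)]) (1,[(3,337)])) (.node ⟨-156,-32,-297⟩ (.leaf false ⟨⟨-156,-32,-297⟩,⟨63,324,-68⟩,⟨292,-87,-144⟩⟩ (1,[(0,1)]) (175,[(1,68),(4,11025),(3,76284)]) (175,[(1,144),(4,51100),(3,26247)])) (.leaf false ⟨⟨0,337,0⟩,⟨175,0,-288⟩,⟨288,0,175⟩⟩ (1,[(3,337)]) (27300,[(1,96903),(0,30625),(3,26928064)]) (2275,[(1,4853),(0,4200),(3,1263264)]))))) (.node ⟨0,0,1⟩ (.node ⟨0,175,288⟩ (.leaf false ⟨⟨0,-288,175⟩,⟨0,175,288⟩,⟨337,0,0⟩⟩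 (288,[(0,175),(2,113569)]) (1,[(0,1)]) (1,[(3,337)])) (.node ⟨-156,-297,-32⟩ (.leaf false ⟨⟨-156,-297,-32⟩,⟨63,-68,324⟩,⟨292,-144,-87⟩⟩ (1,[(0,1)]) (175,[(2,76284),(4,11025),(1,68)]) (175,[(2,26247),(4,51100),(1,144)])) (.leaf false ⟨⟨0,0,337⟩,⟨175,-288,0⟩,⟨288,175,0⟩⟩ (1,[(2,337)]) (27300,[(2,26928064),(0,30625),(1,96903)]) (2275,[(2,1263264),(0,4200),(1,4853)])))) (.node ⟨-108,-311,-72⟩ (.node ⟨12,72,-329⟩ (.leaf false ⟨⟨-108,-311,-72⟩,⟨12,72,-329⟩,⟨319,-108,-12⟩⟩ (1,[(1,1)]) (1,[(0,1)]) (6,[(4,2022),(3,337),(1,1)])) (.leaf false ⟨⟨-87,-324,-32⟩,⟨144,-68,297⟩,⟨292,-63,-156⟩⟩ (9773,[(4,233541),(0,1216),(1,9900)]) (18,[(2,247),(4,2796),(0,17)]) (8,[(2,3551),(4,2420),(0,7)]))) (.leaf false ⟨⟨9,-248,-228⟩,⟨168,201,-212⟩,⟨292,-108,129⟩⟩ (12,[(1,2808),(0,1),(2,3287)])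 (9,[(1,2916),(0,14),(2,2545)]) (27,[(1,1773),(0,73),(2,25619)]))))) (.node ⟨0,1,0⟩ (.node ⟨0,0,1⟩ (.node ⟨175,0,288⟩ (.leaf false ⟨⟨-288,0,175⟩,⟨0,337,0⟩,⟨175,0,288⟩⟩ (288,[(3,113569),(0,175)]) (1,[(2,337)]) (1,[(0,1)])) (.node ⟨-297,-156,-32⟩ (.leaf false ⟨⟨-297,-156,-32⟩,⟨-144,292,-87⟩,⟨-68,63,324⟩⟩ (1,[(0,1)]) (175,[(2,26247),(1,144),(3,51100)]) (175,[(2,76284),(1,68),(3,11025)])) (.leaf false ⟨⟨-324,63,-68⟩,⟨-32,156,297⟩,⟨87,292,-144⟩⟩ (1820,[(2,1182416),(1,4617),(0,735)]) (25,[(2,20161),(1,47),(0,25)]) (6825,[(2,3875344),(1,18288),(0,12775)])))) (.node ⟨-72,-108,-311⟩ (.node ⟨-329,12,72⟩ (.leaf false ⟨⟨-329,12,72⟩,⟨-72,-108,-311⟩,⟨-12,319,-108⟩⟩ (1,[(0,1)]) (1,[(1,1)]) (6,[(2,337),(1,1),(3,2022)])) (.leaf false ⟨⟨-276,-23,-192⟩,⟨-12,336,-23⟩,⟨193,-12,-276⟩⟩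 (3,[(4,3460),(3,27),(0,8)]) (72,[(4,8431),(3,24468),(0,23)]) (6,[(4,6409),(3,204),(0,23)]))) (.leaf false ⟨⟨-329,12,-72⟩,⟨-12,319,108⟩,⟨72,108,-311⟩⟩ (9,[(1,959),(3,3033),(0,1)]) (108,[(1,87545),(3,24264),(0,319)]) (1,[(1,622),(0,1)])))) (.node ⟨0,0,1⟩ (.node ⟨-72,-311,-108⟩ (.node ⟨-329,72,12⟩ (.leaf false ⟨⟨-329,72,12⟩,⟨-72,-311,-108⟩,⟨-12,-108,319⟩⟩ (1,[(0,1)]) (1,[(1,1)]) (6,[(2,2022),(1,1),(3,337)])) (.leaf false ⟨⟨-276,-192,-23⟩,⟨-12,-23,336⟩,⟨193,-276,-12⟩⟩ (3,[(2,27),(4,3460),(0,8)]) (72,[(2,24468),(4,8431),(0,23)]) (6,[(2,204),(4,6409),(0,23)]))) (.leaf false ⟨⟨-329,-72,12⟩,⟨-12,108,319⟩,⟨72,-311,108⟩⟩ (9,[(3,3033),(2,959),(0,1)]) (108,[(3,24264),(2,87545),(0,319)]) (1,[(2,622),(0,1)]))) (.node ⟨-87,220,-240⟩ (.node ⟨-320,-12,105⟩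 (.leaf false ⟨⟨-320,-12,105⟩,⟨-87,220,-240⟩,⟨-60,-255,-212⟩⟩ (1,[(0,1)]) (1,[(1,1)]) (16,[(2,3707),(0,3),(3,4044)])) (.leaf false ⟨⟨-264,-32,-207⟩,⟨112,-303,-96⟩,⟨177,144,-248⟩⟩ (80,[(1,69),(4,15117),(3,17740)]) (35,[(4,6320),(3,10989),(0,32)]) (5055,[(1,3575),(3,103796),(0,3768)]))) (.leaf false ⟨⟨-320,-105,12⟩,⟨60,-212,-255⟩,⟨87,-240,220⟩⟩ (44,[(1,4512),(3,15907),(0,21)]) (55,[(1,26745),(3,1311),(0,53)]) (11,[(1,460),(3,87),(0,12)])))))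
theorem pf337_ok : pf337.check (ok 337 6 ⟨5, 5, 5⟩) (fun _ r => r) [] = true := by decide +kernel

def pf347 : T := .node ⟨1,0,0⟩ (.node ⟨0,1,0⟩ (.node ⟨0,0,1⟩ (.node ⟨-198,201,202⟩ (.node ⟨121,282,-162⟩ (.leaf false ⟨⟨-198,201,202⟩,⟨121,282,-162⟩,⟨258,22,231⟩⟩ (1,[(1,1)]) (1,[(0,1)]) (141,[(2,34353),(4,35047),(0,11)])) (.leaf false ⟨⟨-231,22,258⟩,⟨162,282,121⟩,⟨202,-201,198⟩⟩ (347,[(3,7634),(1,282),(0,201)]) (202,[(4,56682),(3,32643),(1,121)]) (9,[(4,3149),(3,1293),(0,11)]))) (.leaf false ⟨⟨22,201,282⟩,⟨231,202,-162⟩,⟨258,-198,121⟩⟩ (9,[(1,2740),(0,1),(2,2010)]) (6,[(1,442),(0,7),(2,2619)]) (33,[(1,12679),(0,43),(2,2109)]))) (.node ⟨330,22,105⟩ (.node ⟨-105,330,22⟩ (.leaf false ⟨⟨-105,330,22⟩,⟨22,30,-345⟩,⟨330,103,30⟩⟩ (1,[(0,1)]) (11,[(2,3817),(4,347),(0,1)])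 (7414,[(2,654789),(1,7981),(0,1782)])) (.leaf false ⟨⟨30,22,-345⟩,⟨103,330,30⟩,⟨330,-105,22⟩⟩ (7,[(2,2371),(0,2),(3,814)]) (330,[(2,915),(1,103),(3,106634)]) (7414,[(2,460549),(0,2794),(1,6525)]))) (.node ⟨-167,-114,-282⟩ (.leaf false ⟨⟨-167,-114,-282⟩,⟨-78,327,-86⟩,⟨294,22,-183⟩⟩ (1,[(0,1)]) (105,[(4,20190),(3,36227),(1,86)]) (35,[(4,30420),(3,2112),(1,61)])) (.leaf false ⟨⟨-342,42,-41⟩,⟨-9,202,282⟩,⟨58,279,-198⟩⟩ (2883,[(4,1295932),(0,2656),(1,8259)]) (961,[(4,938564),(0,2501),(1,4136)]) (1922,[(4,9375737),(0,11217),(1,33750)]))))) (.node ⟨0,0,1⟩ (.node ⟨330,105,22⟩ (.node ⟨-105,22,330⟩ (.leaf false ⟨⟨-105,22,330⟩,⟨22,-345,30⟩,⟨330,30,103⟩⟩ (1,[(0,1)]) (11,[(4,347),(3,3817),(0,1)]) (7414,[(1,7981),(3,654789),(0,1782)])) (.leaf false ⟨⟨30,-345,22⟩,⟨103,30,330⟩,⟨330,22,-105⟩⟩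 (7,[(2,814),(0,2),(3,2371)]) (330,[(2,106634),(1,103),(3,915)]) (1219,[(2,460549),(1,638),(0,1826)]))) (.node ⟨-167,-282,-114⟩ (.leaf false ⟨⟨-167,-282,-114⟩,⟨-78,-86,327⟩,⟨294,-183,22⟩⟩ (1,[(0,1)]) (105,[(2,36227),(4,20190),(1,86)]) (35,[(2,2112),(4,30420),(1,61)])) (.leaf false ⟨⟨-342,-41,42⟩,⟨-9,282,202⟩,⟨58,-198,279⟩⟩ (2883,[(4,1295932),(1,8259),(0,2656)]) (961,[(4,938564),(1,4136),(0,2501)]) (1922,[(4,9375737),(1,33750),(0,11217)])))) (.node ⟨-57,-338,-54⟩ (.node ⟨342,57,-14⟩ (.node ⟨-23,54,-342⟩ (.leaf false ⟨⟨-23,54,-342⟩,⟨54,-338,-57⟩,⟨342,57,-14⟩⟩ (1,[(0,1)]) (6,[(5,347),(4,2082),(0,1)]) (1,[(1,1)])) (.leaf false ⟨⟨-23,-342,54⟩,⟨54,-57,-338⟩,⟨342,-14,57⟩⟩ (2713,[(3,732600),(0,2930),(2,2277)]) (12483,[(3,4050376),(1,2389),(2,2508)])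 (19779,[(3,6922997),(1,18146),(0,24282)]))) (.leaf false ⟨⟨-338,-78,9⟩,⟨9,-78,-338⟩,⟨78,-329,78⟩⟩ (19,[(2,193),(4,2470),(0,26)]) (19,[(2,6786),(4,9063),(0,26)]) (57,[(2,160),(4,116964),(0,329)]))) (.leaf false ⟨⟨22,-183,-294⟩,⟨114,282,-167⟩,⟨327,-86,78⟩⟩ (57,[(1,17946),(0,22),(2,17867)]) (1,[(1,275),(0,2),(2,394)]) (19,[(1,4404),(0,109),(2,38476)]))))) (.node ⟨0,1,0⟩ (.node ⟨0,0,1⟩ (.node ⟨105,22,330⟩ (.node ⟨22,330,-105⟩ (.leaf false ⟨⟨-345,30,22⟩,⟨22,330,-105⟩,⟨30,103,330⟩⟩ (11,[(2,347),(4,3817),(0,1)]) (1,[(0,1)]) (7414,[(4,654789),(0,1782),(1,7981)])) (.leaf false ⟨⟨-345,22,30⟩,⟨22,-105,330⟩,⟨30,330,103⟩⟩ (7,[(4,2371),(3,814),(0,2)]) (7414,[(4,460549),(1,6525),(0,2794)]) (330,[(4,915),(3,106634),(1,103)]))) (.node ⟨-282,-114,-167⟩ (.leaf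 false ⟨⟨-282,-114,-167⟩,⟨-183,22,294⟩,⟨-86,327,-78⟩⟩ (1,[(0,1)]) (35,[(2,30420),(1,61),(3,2112)]) (105,[(2,20190),(1,86),(3,36227)])) (.leaf false ⟨⟨-345,30,22⟩,⟨22,330,-105⟩,⟨30,103,330⟩⟩ (961,[(2,2350662),(1,7965),(0,1790)]) (2883,[(2,11785504),(1,45276),(0,17083)]) (1922,[(2,2887825),(1,8542),(0,3385)])))) (.node ⟨-342,-14,57⟩ (.node ⟨-54,-57,-338⟩ (.leaf false ⟨⟨-342,-14,57⟩,⟨-54,-57,-338⟩,⟨-23,342,-54⟩⟩ (1,[(1,1)]) (1,[(0,1)]) (342,[(2,19779),(1,23),(3,117286)])) (.leaf false ⟨⟨-345,30,22⟩,⟨22,330,-105⟩,⟨30,103,330⟩⟩ (6246,[(2,1967143),(1,7095),(0,5030)]) (9369,[(2,20477164),(1,8283),(0,56276)]) (3123,[(2,966742),(1,642),(0,5801)]))) (.node ⟨-86,327,78⟩ (.leaf false ⟨⟨-183,22,-294⟩,⟨-86,327,78⟩,⟨282,114,-167⟩⟩ (7,[(2,1431),(4,5043),(1,11)])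 (1,[(0,1)]) (56519,[(2,7897720),(0,17520),(1,51009)])) (.leaf false ⟨⟨-342,-42,-41⟩,⟨9,202,-282⟩,⟨58,-279,-198⟩⟩ (78,[(4,30202),(3,10131),(0,41)]) (13,[(4,3925),(3,17995),(0,47)]) (13,[(4,2084),(3,7164),(0,33)]))))) (.node ⟨0,0,1⟩ (.node ⟨-342,57,-14⟩ (.node ⟨-54,-338,-57⟩ (.leaf false ⟨⟨-342,57,-14⟩,⟨-54,-338,-57⟩,⟨-23,-54,342⟩⟩ (1,[(1,1)]) (1,[(0,1)]) (342,[(2,117286),(1,23),(3,19779)])) (.leaf false ⟨⟨-345,22,30⟩,⟨22,-105,330⟩,⟨30,330,103⟩⟩ (6246,[(1,7095),(3,1967143),(0,5030)]) (9369,[(1,8283),(3,20477164),(0,56276)]) (3123,[(1,642),(3,966742),(0,5801)]))) (.node ⟨-86,78,327⟩ (.leaf false ⟨⟨-183,-294,22⟩,⟨-86,78,327⟩,⟨282,-167,114⟩⟩ (7,[(4,5043),(3,1431),(1,11)]) (1,[(0,1)]) (56519,[(3,7897720),(1,51009),(0,17520)])) (.leaf false ⟨⟨-342,-54,-23⟩,⟨-14,-57,342⟩,⟨57,-338,-54⟩⟩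 (13,[(2,2644),(4,5220),(0,9)]) (1,[(2,328),(4,356),(1,1)]) (3,[(2,4089),(4,947),(0,13)])))) (.leaf false ⟨⟨-347,0,0⟩,⟨0,-347,0⟩,⟨0,0,-347⟩⟩ (1,[(2,347)]) (1,[(1,347)]) (1,[(0,347)]))))
theorem pf347_ok : pf347.check (ok 347 6 ⟨5, 5, 5⟩) (fun _ r => r) [] = true := by decide +kernel


end H34S
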