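import Pool.Agent.Lib.H34S.Cover

/-!
# H34S: certificates (generated), pentagonal numbers
-/

set_option autoImplicit false

namespace H34S

def pf349 : T := .node ⟨1,0,0⟩ (.node ⟨0,1,0⟩ (.node ⟨0,0,1⟩ (.leaf false ⟨⟨0,0,349⟩,⟨0,349,0⟩,⟨349,0,0⟩⟩ (1,[(0,349)]) (1,[(1,349)]) (1,[(2,349)])) (.node ⟨-144,61,-312⟩ (.node ⟨-72,336,61⟩ (.leaf false ⟨⟨-84,43,-336⟩,⟨-72,336,61⟩,⟨331,84,-72⟩⟩ (61,[(2,7080),(4,1068),(1,43)]) (1,[(0,1)]) (4,[(2,349),(4,1396),(0,1)])) (.leaf false ⟨⟨-144,61,-312⟩,⟨156,312,-11⟩,⟨277,-144,-156⟩⟩ (1,[(1,1)]) (61,[(4,8724),(3,22728),(0,11)]) (61,[(4,5665),(3,43632),(0,156)]))) (.leaf false ⟨⟨12,304,-171⟩,⟨171,144,268⟩,⟨304,-93,-144⟩⟩ (12,[(1,2364),(0,1),(2,3709)]) (16,[(1,1640),(0,19),(2,3463)]) (9,[(1,7224),(0,19),(2,322)]))))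 (.node ⟨0,0,1⟩ (.node ⟨-144,-312,61⟩ (.node ⟨-72,61,336⟩ (.leaf false ⟨⟨-84,-336,43⟩,⟨-72,61,336⟩,⟨331,-72,84⟩⟩ (61,[(4,1068),(3,7080),(1,43)]) (1,[(0,1)]) (4,[(4,1396),(3,349),(0,1)])) (.leaf false ⟨⟨-144,-312,61⟩,⟨156,-11,312⟩,⟨277,-156,-144⟩⟩ (1,[(1,1)]) (61,[(2,22728),(4,8724),(0,11)]) (61,[(2,43632),(4,5665),(0,156)]))) (.leaf false ⟨⟨12,-171,304⟩,⟨171,268,144⟩,⟨304,-144,-93⟩⟩ (12,[(1,3709),(0,1),(2,2364)]) (16,[(1,3463),(0,19),(2,1640)]) (9,[(1,322),(0,19),(2,7224)]))) (.node ⟨0,180,-299⟩ (.leaf false ⟨⟨0,-299,-180⟩,⟨0,180,-299⟩,⟨349,0,0⟩⟩ (299,[(0,180),(2,121801)]) (1,[(0,1)]) (1,[(3,349)])) (.leaf false ⟨⟨0,-299,180⟩,⟨0,-180,-299⟩,⟨349,0,0⟩⟩ (180,[(1,57001),(0,299)]) (1,[(1,598),(0,1)]) (1,[(3,349)]))))) (.node ⟨0,1,0⟩ (.node ⟨0,0,1⟩ (.node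 ⟨-312,-144,61⟩ (.node ⟨61,-72,336⟩ (.leaf false ⟨⟨-336,-84,43⟩,⟨-72,331,84⟩,⟨61,-72,336⟩⟩ (61,[(1,43),(4,7080),(3,1068)]) (4,[(4,349),(3,1396),(0,1)]) (1,[(0,1)])) (.leaf false ⟨⟨-312,-144,61⟩,⟨-156,277,-144⟩,⟨-11,156,312⟩⟩ (1,[(1,1)]) (61,[(2,43632),(0,156),(3,5665)]) (61,[(2,22728),(0,11),(3,8724)]))) (.leaf false ⟨⟨-336,61,72⟩,⟨43,336,-84⟩,⟨84,72,331⟩⟩ (144,[(1,14089),(3,67416),(0,61)]) (3,[(1,175),(3,2055),(0,7)]) (2,[(1,723),(3,144),(0,1)]))) (.node ⟨180,0,-299⟩ (.leaf false ⟨⟨-299,0,-180⟩,⟨0,349,0⟩,⟨180,0,-299⟩⟩ (299,[(3,121801),(0,180)]) (1,[(2,349)]) (1,[(0,1)])) (.leaf false ⟨⟨-299,0,180⟩,⟨-180,0,-299⟩,⟨0,349,0⟩⟩ (180,[(1,57001),(0,299)]) (1,[(1,598),(0,1)]) (1,[(2,349)])))) (.node ⟨0,0,1⟩ (.node ⟨180,-299,0⟩ (.leaf false ⟨⟨-299,-180,0⟩,⟨0,0,349⟩,⟨180,-299,0⟩⟩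 (299,[(3,121801),(0,180)]) (1,[(1,349)]) (1,[(0,1)])) (.leaf false ⟨⟨-299,180,0⟩,⟨-180,-299,0⟩,⟨0,0,349⟩⟩ (180,[(0,299),(2,57001)]) (1,[(0,1),(2,598)]) (1,[(1,349)]))) (.node ⟨-144,213,-236⟩ (.node ⟨-308,-141,84⟩ (.node ⟨144,-236,-213⟩ (.leaf false ⟨⟨-308,-156,51⟩,⟨-141,196,-252⟩,⟨84,-243,-236⟩⟩ (1,[(3,33),(1,1),(4,15)]) (48,[(3,1004),(2,47),(4,603)]) (12,[(3,1341),(4,1264),(0,7)])) (.leaf false ⟨⟨-291,16,192⟩,⟨-144,213,-236⟩,⟨-128,-276,-171⟩⟩ (48,[(3,11445),(0,97),(4,22124)]) (1,[(3,449),(0,1),(4,23)]) (9,[(3,3243),(0,8),(4,4372)]))) (.leaf false ⟨⟨-348,-24,-11⟩,⟨-11,264,-228⟩,⟨24,-227,-264⟩⟩ (84,[(4,32620),(3,3567),(0,11)]) (7,[(4,5929),(3,831),(0,19)]) (7,[(4,6608),(3,4691),(0,22)]))) (.node ⟨192,-171,-236⟩ (.leaf false ⟨⟨-291,-128,-144⟩,⟨16,-276,213⟩,⟨192,-171,-236⟩⟩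 (213,[(2,60880),(4,80415),(1,128)]) (71,[(2,6589),(4,12112),(1,92)]) (1,[(0,1)])) (.leaf false ⟨⟨-348,-11,-24⟩,⟨-11,-228,264⟩,⟨24,-264,-227⟩⟩ (1356,[(2,2733328),(0,6309),(1,5135)]) (5424,[(2,4926848),(0,11725),(1,15219)]) (226,[(2,311846),(0,457),(1,647)]))))))
theorem pf349_ok : pf349.check (ok 349 6 ⟨5, 5, 5⟩) (fun _ r => r) [] = true := by decide +kernel

def pf353 : T := .node ⟨1,0,0⟩ (.node ⟨0,1,0⟩ (.node ⟨0,0,1⟩ (.node ⟨-156,48,313⟩ (.node ⟨96,327,-92⟩ (.node ⟨313,-48,156⟩ (.leaf false ⟨⟨-132,124,303⟩,⟨96,327,-92⟩,⟨313,-48,156⟩⟩ (13,[(3,496),(4,1084),(2,11)]) (1,[(1,1)]) (1,[(0,1)])) (.leaf false ⟨⟨-344,72,-33⟩,⟨33,264,232⟩,⟨72,223,-264⟩⟩ (2,[(3,402),(5,251),(0,3)]) (2,[(3,2180),(5,3509),(0,11)]) (48,[(3,22116),(5,73255),(0,223)]))) (.leaf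 false ⟨⟨-231,-132,232⟩,⟨88,252,231⟩,⟨252,-209,132⟩⟩ (23,[(4,255),(3,15930),(0,58)]) (92,[(4,30272),(3,98721),(0,231)]) (23,[(4,8964),(3,5984),(0,33)]))) (.leaf false ⟨⟨72,345,-20⟩,⟨180,-20,303⟩,⟨295,-72,-180⟩⟩ (13,[(1,1618),(0,6),(2,4773)]) (13,[(1,8634),(0,15),(2,460)]) (156,[(1,64255),(0,295),(2,2928)]))) (.node ⟨-132,16,-327⟩ (.node ⟨-128,327,36⟩ (.leaf false ⟨⟨-132,16,-327⟩,⟨-47,348,36⟩,⟨324,57,-128⟩⟩ (1,[(1,1)]) (109,[(2,252),(4,9725),(0,116)]) (109,[(2,14636),(4,37748),(0,19)])) (.leaf false ⟨⟨-108,7,-336⟩,⟨196,288,-57⟩,⟨273,-204,-92⟩⟩ (3884,[(3,210891),(1,3908),(0,753)]) (109,[(4,23872),(3,31088),(1,19)]) (21501,[(4,4724701),(1,4548),(0,13636)]))) (.node ⟨304,-168,-63⟩ (.leaf false ⟨⟨7,204,-288⟩,⟨108,273,196⟩,⟨336,-92,-57⟩⟩ (132,[(2,40305),(1,7),(3,27040)])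 (11,[(2,787),(1,9),(3,3147)]) (1082,[(2,617085),(0,423),(1,1780)])) (.leaf false ⟨⟨-288,196,-57⟩,⟨7,108,336⟩,⟨204,273,-92⟩⟩ (1082,[(2,374301),(1,700),(0,1329)]) (2164,[(2,776121),(1,4251),(0,1796)]) (4328,[(2,10603483),(1,29316),(0,9825)]))))) (.node ⟨0,0,1⟩ (.node ⟨-132,-327,16⟩ (.node ⟨-128,36,327⟩ (.leaf false ⟨⟨-132,-327,16⟩,⟨-47,36,348⟩,⟨324,-128,57⟩⟩ (1,[(1,1)]) (109,[(4,9725),(3,252),(0,116)]) (109,[(4,37748),(3,14636),(0,19)])) (.leaf false ⟨⟨-108,-336,7⟩,⟨196,-57,288⟩,⟨273,-92,-204⟩⟩ (3884,[(2,210891),(0,753),(1,3908)]) (109,[(2,31088),(4,23872),(1,19)]) (21501,[(4,4724701),(0,13636),(1,4548)]))) (.node ⟨304,-63,-168⟩ (.leaf false ⟨⟨7,-288,204⟩,⟨108,196,273⟩,⟨336,-57,-92⟩⟩ (132,[(2,27040),(1,7),(3,40305)]) (11,[(2,3147),(1,9),(3,787)])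 (1082,[(1,1780),(0,423),(3,617085)])) (.leaf false ⟨⟨-288,-57,196⟩,⟨7,336,108⟩,⟨204,-92,273⟩⟩ (1082,[(1,700),(3,374301),(0,1329)]) (2164,[(1,4251),(3,776121),(0,1796)]) (4328,[(1,29316),(3,10603483),(0,9825)])))) (.node ⟨336,-48,97⟩ (.node ⟨-48,-344,-63⟩ (.node ⟨97,48,-336⟩ (.leaf false ⟨⟨-48,-344,-63⟩,⟨97,48,-336⟩,⟨336,-63,88⟩⟩ (1,[(1,1)]) (1,[(0,1)]) (1,[(3,9),(2,1),(4,15)])) (.leaf false ⟨⟨-308,-168,-39⟩,⟨111,-132,-308⟩,⟨132,-281,168⟩⟩ (2,[(3,2430),(5,63),(0,7)]) (4,[(3,4928),(5,1511),(0,11)]) (48,[(3,86352),(5,33593),(0,281)]))) (.leaf false ⟨⟨16,-132,-327⟩,⟨57,324,-128⟩,⟨348,-47,36⟩⟩ (3,[(2,1044),(0,1),(3,740)]) (16,[(2,3245),(0,19),(3,1352)]) (4,[(2,1683),(0,29),(3,10164)]))) (.leaf false ⟨⟨-324,57,-128⟩,⟨-47,-348,-36⟩,⟨132,16,-327⟩⟩ (97,[(3,11580),(2,615),(0,128)])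 (97,[(3,7537),(2,35484),(0,36)]) (97,[(3,122676),(2,14144),(0,327)]))))) (.node ⟨0,1,0⟩ (.node ⟨0,0,1⟩ (.node ⟨-327,-132,16⟩ (.node ⟨36,-128,327⟩ (.leaf false ⟨⟨-348,-57,16⟩,⟨-47,324,132⟩,⟨36,-128,327⟩⟩ (1,[(1,1),(4,21),(3,75)]) (109,[(4,6707),(3,40948),(0,44)]) (1,[(0,1)])) (.leaf false ⟨⟨-344,-72,33⟩,⟨-72,223,-264⟩,⟨-33,264,232⟩⟩ (327,[(2,5287),(1,344),(3,21864)]) (2389,[(1,312),(0,1944),(3,325099)]) (12,[(2,6381),(0,11),(3,1760)]))) (.node ⟨-63,304,-168⟩ (.leaf false ⟨⟨-288,7,204⟩,⟨-57,336,-92⟩,⟨196,108,273⟩⟩ (132,[(2,27040),(4,40305),(1,7)]) (1082,[(4,617085),(0,423),(1,1780)]) (11,[(2,3147),(4,787),(1,9)])) (.leaf false ⟨⟨-344,-33,72⟩,⟨33,232,264⟩,⟨72,-264,223⟩⟩ (2164,[(4,1483163),(1,2043),(0,1122)]) (541,[(4,1276464),(1,3726),(0,1205)]) (4328,[(4,2001693),(1,5860),(0,6303)]))))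 (.node ⟨-48,336,97⟩ (.node ⟨-344,-48,-63⟩ (.node ⟨48,97,-336⟩ (.leaf false ⟨⟨-344,-48,-63⟩,⟨-63,336,88⟩,⟨48,97,-336⟩⟩ (1,[(1,1)]) (1,[(3,9),(5,15),(2,1)]) (1,[(0,1)])) (.leaf false ⟨⟨-345,-72,-20⟩,⟨-72,295,180⟩,⟨-20,180,-303⟩⟩ (16,[(3,38960),(0,115),(4,10003)]) (2,[(3,648),(0,3),(4,881)]) (12,[(3,5316),(0,5),(4,2645)]))) (.leaf false ⟨⟨-344,48,63⟩,⟨-48,97,-336⟩,⟨63,336,88⟩⟩ (1,[(4,688),(0,1)]) (48,[(2,22239),(4,35672),(0,97)]) (1,[(2,353),(4,2345),(0,7)]))) (.leaf false ⟨⟨-353,0,0⟩,⟨0,-272,-225⟩,⟨0,225,-272⟩⟩ (1,[(3,353)]) (97,[(3,10800),(2,49216),(0,225)]) (97,[(3,13056),(2,113217),(0,272)])))) (.node ⟨0,0,1⟩ (.node ⟨-48,97,336⟩ (.node ⟨-344,-63,-48⟩ (.node ⟨48,-336,97⟩ (.leaf false ⟨⟨-344,-63,-48⟩,⟨-63,88,336⟩,⟨48,-336,97⟩⟩ (1,[(1,1)]) (1,[(2,1),(5,15),(4,9)])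 (1,[(0,1)])) (.leaf false ⟨⟨-345,-20,-72⟩,⟨-72,180,295⟩,⟨-20,-303,180⟩⟩ (16,[(3,10003),(0,115),(4,38960)]) (2,[(3,881),(0,3),(4,648)]) (12,[(3,2645),(0,5),(4,5316)]))) (.leaf false ⟨⟨-344,-48,63⟩,⟨48,97,336⟩,⟨63,-336,88⟩⟩ (16,[(4,12728),(3,2091),(0,21)]) (1,[(4,2360),(3,344),(0,7)]) (6,[(4,3406),(3,2709),(0,11)]))) (.leaf false ⟨⟨-353,0,0⟩,⟨0,-272,225⟩,⟨0,-225,-272⟩⟩ (1,[(3,353)]) (97,[(1,113217),(3,13056),(0,272)]) (97,[(1,49216),(3,10800),(0,225)]))) (.leaf false ⟨⟨-353,0,0⟩,⟨0,-353,0⟩,⟨0,0,-353⟩⟩ (1,[(2,353)]) (1,[(1,353)]) (1,[(0,353)]))))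
theorem pf353_ok : pf353.check (ok 353 6 ⟨5, 5, 5⟩) (fun _ r => r) [] = true := by decide +kernel

def pf359 : T := .node ⟨1,0,0⟩ (.node ⟨0,1,0⟩ (.node ⟨0,0,1⟩ (.node ⟨-242,186,189⟩ (.node ⟨99,298,-174⟩ (.node ⟨-242,189,186⟩ (.leaf false ⟨⟨-242,189,186⟩,⟨99,298,-174⟩,⟨246,66,253⟩⟩ (1,[(0,1)]) (1,[(1,1)]) (31,[(3,5764),(5,10288),(2,11)])) (.leaf false ⟨⟨-242,186,189⟩,⟨99,-174,298⟩,⟨246,253,66⟩⟩ (1,[(2,1)]) (3,[(1,3),(2,472),(0,472)]) (187,[(1,472),(2,31304),(0,31301)]))) (.leaf false ⟨⟨-242,99,246⟩,⟨186,-174,253⟩,⟨189,298,66⟩⟩ (709,[(3,94687),(1,538),(0,418)]) (174,[(4,57411),(3,45118),(0,253)]) (29,[(4,6570),(3,11920),(0,11)]))) (.leaf false ⟨⟨118,6,339⟩,⟨174,307,-66⟩,⟨291,-186,-98⟩⟩ (121,[(1,52170),(0,59),(2,11700)]) (121,[(1,8457),(0,87),(2,53329)])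 (242,[(1,31283),(0,291),(2,9114)]))) (.node ⟨-134,99,-318⟩ (.node ⟨174,253,186⟩ (.node ⟨298,-66,-189⟩ (.leaf false ⟨⟨-99,246,-242⟩,⟨174,253,186⟩,⟨298,-66,-189⟩⟩ (134,[(3,946),(4,23163),(2,99)]) (1,[(1,1)]) (1,[(0,1)])) (.leaf false ⟨⟨-342,109,6⟩,⟨46,126,333⟩,⟨99,318,-134⟩⟩ (66,[(3,20205),(5,9910),(0,109)]) (11,[(3,306),(5,6764),(0,21)]) (11,[(3,11491),(5,16883),(0,53)]))) (.leaf false ⟨⟨-206,174,-237⟩,⟨42,-269,-234⟩,⟨291,162,-134⟩⟩ (62,[(4,974),(3,30775),(0,79)]) (31,[(4,8088),(3,1528),(0,39)]) (93,[(4,38721),(3,32017),(0,67)]))) (.leaf false ⟨⟨46,99,-342⟩,⟨126,318,109⟩,⟨333,-134,6⟩⟩ (67,[(1,30228),(0,23),(2,8910)]) (67,[(1,12731),(0,63),(2,27543)]) (134,[(1,105090),(0,333),(2,15011)])))) (.node ⟨0,0,1⟩ (.node ⟨-134,-318,99⟩ (.node ⟨174,186,253⟩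 (.node ⟨298,-189,-66⟩ (.leaf false ⟨⟨-99,-242,246⟩,⟨174,186,253⟩,⟨298,-189,-66⟩⟩ (134,[(3,23163),(4,946),(2,99)]) (1,[(1,1)]) (1,[(0,1)])) (.leaf false ⟨⟨-342,6,109⟩,⟨46,333,126⟩,⟨99,-134,318⟩⟩ (66,[(5,9910),(4,20205),(0,109)]) (11,[(5,6764),(4,306),(0,21)]) (11,[(5,16883),(4,11491),(0,53)]))) (.leaf false ⟨⟨-206,-237,174⟩,⟨42,-234,-269⟩,⟨291,-134,162⟩⟩ (62,[(2,30775),(4,974),(0,79)]) (31,[(2,1528),(4,8088),(0,39)]) (93,[(2,32017),(4,38721),(0,67)]))) (.leaf false ⟨⟨46,-342,99⟩,⟨126,109,318⟩,⟨333,6,-134⟩⟩ (67,[(1,8910),(0,23),(2,30228)]) (67,[(1,27543),(0,63),(2,12731)]) (134,[(1,15011),(0,333),(2,105090)]))) (.node ⟨-134,-330,-45⟩ (.node ⟨66,45,-350⟩ (.node ⟨330,-134,45⟩ (.leaf false ⟨⟨-125,-330,-66⟩,⟨66,45,-350⟩,⟨330,-134,45⟩⟩ (1,[(3,21),(5,9),(2,1)])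 (1,[(1,1)]) (1,[(0,1)])) (.leaf false ⟨⟨-350,45,-66⟩,⟨45,-134,-330⟩,⟨66,330,-125⟩⟩ (15,[(5,2010),(4,2273),(0,22)]) (3,[(5,7395),(4,3350),(0,22)]) (9,[(5,8844),(4,380),(0,25)]))) (.leaf false ⟨⟨-269,-234,42⟩,⟨162,-134,291⟩,⟨174,-237,-206⟩⟩ (5,[(2,8890),(4,371),(0,26)]) (45,[(2,33805),(4,16134),(0,134)]) (15,[(2,30740),(4,7824),(0,79)]))) (.node ⟨298,-66,189⟩ (.leaf false ⟨⟨66,-339,-98⟩,⟨174,118,-291⟩,⟨307,6,186⟩⟩ (67,[(2,8051),(1,33),(3,33603)]) (67,[(2,23412),(1,87),(3,20804)]) (2552,[(2,1230),(1,525),(0,2393)])) (.leaf false ⟨⟨-294,82,-189⟩,⟨126,-189,-278⟩,⟨163,294,-126⟩⟩ (331,[(1,21),(3,1964),(0,336)]) (5958,[(1,53329),(3,20141058),(0,21461)]) (1324,[(1,7595),(3,2294700),(0,2691)])))))) (.node ⟨0,1,0⟩ (.node ⟨0,0,1⟩ (.node ⟨-318,-134,99⟩ (.node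 ⟨186,174,253⟩ (.node ⟨-189,298,-66⟩ (.leaf false ⟨⟨-242,-99,246⟩,⟨-189,298,-66⟩,⟨186,174,253⟩⟩ (134,[(3,23163),(2,99),(5,946)]) (1,[(0,1)]) (1,[(1,1)])) (.leaf false ⟨⟨-342,6,109⟩,⟨46,333,126⟩,⟨99,-134,318⟩⟩ (66,[(5,43173),(4,32878),(0,109)]) (11,[(5,3463),(4,9921),(0,21)]) (11,[(5,8928),(4,14320),(0,53)]))) (.leaf false ⟨⟨-242,-99,-246⟩,⟨-189,298,66⟩,⟨-186,-174,253⟩⟩ (93,[(2,7735),(0,121),(3,11847)]) (62,[(2,20031),(0,63),(3,29438)]) (1,[(2,506),(0,1)]))) (.leaf false ⟨⟨-342,46,99⟩,⟨6,333,-134⟩,⟨109,126,318⟩⟩ (67,[(1,8910),(3,30228),(0,23)]) (134,[(1,15011),(3,105090),(0,333)]) (67,[(1,27543),(3,12731),(0,63)]))) (.node ⟨-45,-134,-330⟩ (.node ⟨-350,66,45⟩ (.node ⟨45,330,-134⟩ (.leaf false ⟨⟨-350,66,45⟩,⟨-66,-125,-330⟩,⟨45,330,-134⟩⟩ (1,[(1,1)])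 (1,[(2,1),(5,21),(4,9)]) (1,[(0,1)])) (.leaf false ⟨⟨-350,-45,66⟩,⟨-66,330,-125⟩,⟨-45,-134,-330⟩⟩ (9,[(3,8786),(0,70),(4,22695)]) (15,[(3,4823),(0,22),(4,12210)]) (1,[(3,464),(0,1),(4,196)]))) (.leaf false ⟨⟨-350,-66,-45⟩,⟨-45,330,-134⟩,⟨66,-125,-330⟩⟩ (1,[(4,700),(0,1)]) (45,[(4,48925),(3,23694),(0,134)]) (3,[(4,7502),(3,1077),(0,22)]))) (.node ⟨189,298,-66⟩ (.leaf false ⟨⟨-294,82,189⟩,⟨-126,189,-278⟩,⟨163,294,126⟩⟩ (67,[(2,867),(4,21543),(1,41)]) (298,[(2,70370),(4,73269),(0,189)]) (638,[(4,1414),(1,339),(0,477)])) (.leaf false ⟨⟨-339,6,118⟩,⟨-98,186,-291⟩,⟨66,307,174⟩⟩ (993,[(2,2943444),(0,3808),(1,8513)]) (5958,[(2,13062414),(0,10751),(1,32179)]) (3972,[(2,3637284),(0,1657),(1,12785)]))))) (.node ⟨0,0,1⟩ (.node ⟨-45,-330,-134⟩ (.node ⟨-350,45,66⟩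 (.node ⟨45,-134,330⟩ (.leaf false ⟨⟨-350,45,66⟩,⟨-66,-330,-125⟩,⟨45,-134,330⟩⟩ (1,[(1,1)]) (1,[(3,9),(5,21),(2,1)]) (1,[(0,1)])) (.leaf false ⟨⟨-350,66,-45⟩,⟨-66,-125,330⟩,⟨-45,-330,-134⟩⟩ (9,[(3,22695),(0,70),(4,8786)]) (15,[(3,12210),(0,22),(4,4823)]) (1,[(3,196),(0,1),(4,464)]))) (.leaf false ⟨⟨-350,-66,45⟩,⟨45,-330,-134⟩,⟨66,-125,330⟩⟩ (15,[(2,2127),(4,12950),(0,22)]) (3,[(2,1050),(4,7565),(0,22)]) (9,[(2,4620),(4,8156),(0,25)]))) (.node ⟨189,-66,298⟩ (.leaf false ⟨⟨-294,189,82⟩,⟨-126,-278,189⟩,⟨163,126,294⟩⟩ (67,[(4,21543),(3,867),(1,41)]) (298,[(4,73269),(3,70370),(0,189)]) (638,[(4,1414),(0,477),(1,339)])) (.leaf false ⟨⟨-339,118,6⟩,⟨-98,-291,186⟩,⟨66,174,307⟩⟩ (993,[(3,2943444),(1,8513),(0,3808)]) (5958,[(3,13062414),(1,32179),(0,10751)])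 (3972,[(3,3637284),(1,12785),(0,1657)])))) (.leaf false ⟨⟨-359,0,0⟩,⟨0,-359,0⟩,⟨0,0,-359⟩⟩ (1,[(2,359)]) (1,[(1,359)]) (1,[(0,359)]))))
theorem pf359_ok : pf359.check (ok 359 6 ⟨5, 5, 5⟩) (fun _ r => r) [] = true := by decide +kernel

def pf361 : T := .node ⟨1,0,0⟩ (.node ⟨0,1,0⟩ (.node ⟨0,0,1⟩ (.leaf false ⟨⟨0,0,361⟩,⟨0,361,0⟩,⟨361,0,0⟩⟩ (1,[(0,361)]) (1,[(1,361)]) (1,[(2,361)])) (.node ⟨-114,114,-323⟩ (.node ⟨180,289,120⟩ (.node ⟨300,-120,-161⟩ (.leaf false ⟨⟨-89,180,-300⟩,⟨180,289,120⟩,⟨300,-120,-161⟩⟩ (114,[(3,5453),(4,10374),(2,89)]) (1,[(1,1)]) (1,[(0,1)])) (.leaf false ⟨⟨-324,132,-89⟩,⟨96,1,-348⟩,⟨127,336,36⟩⟩ (10,[(3,2661),(5,60),(0,11)]) (120,[(3,41921),(5,11820),(0,1)]) (5,[(3,2074),(5,4835),(0,14)]))) (.leaf false ⟨⟨-296,-33,-204⟩,⟨132,244,-231⟩,⟨159,-264,-188⟩⟩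 (10,[(4,100),(3,4583),(0,17)]) (40,[(4,19140),(3,32013),(0,77)]) (30,[(4,13230),(3,5663),(0,47)]))) (.leaf false ⟨⟨19,342,-114⟩,⟨114,-114,-323⟩,⟨342,19,114⟩⟩ (6,[(1,1007),(0,1),(2,2166)]) (1,[(1,646),(0,1)]) (1,[(1,855),(0,3),(2,361)])))) (.node ⟨0,0,1⟩ (.node ⟨-114,-323,114⟩ (.node ⟨180,120,289⟩ (.node ⟨300,-161,-120⟩ (.leaf false ⟨⟨-89,-300,180⟩,⟨180,120,289⟩,⟨300,-161,-120⟩⟩ (114,[(3,10374),(4,5453),(2,89)]) (1,[(1,1)]) (1,[(0,1)])) (.leaf false ⟨⟨-324,-89,132⟩,⟨96,-348,1⟩,⟨127,36,336⟩⟩ (10,[(5,60),(4,2661),(0,11)]) (120,[(5,11820),(4,41921),(0,1)]) (5,[(5,4835),(4,2074),(0,14)]))) (.leaf false ⟨⟨-296,-204,-33⟩,⟨132,-231,244⟩,⟨159,-188,-264⟩⟩ (10,[(2,4583),(4,100),(0,17)]) (40,[(2,32013),(4,19140),(0,77)]) (30,[(2,5663),(4,13230),(0,47)])))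 (.leaf false ⟨⟨19,-114,342⟩,⟨114,-323,-114⟩,⟨342,114,19⟩⟩ (6,[(1,2166),(0,1),(2,1007)]) (1,[(0,1),(2,646)]) (1,[(1,361),(0,3),(2,855)]))) (.node ⟨324,-89,132⟩ (.node ⟨-96,-348,1⟩ (.leaf false ⟨⟨-96,-348,1⟩,⟨127,-36,-336⟩,⟨324,-89,132⟩⟩ (1,[(0,1)]) (29,[(2,9747),(4,3971),(0,3)]) (1,[(1,1)])) (.leaf false ⟨⟨12,-36,-359⟩,⟨216,-287,36⟩,⟨289,216,-12⟩⟩ (8,[(2,2871),(0,1),(3,636)]) (3,[(2,156),(1,2),(3,683)]) (96,[(2,863),(0,289),(3,79836)]))) (.leaf false ⟨⟨-240,55,-264⟩,⟨55,-336,-120⟩,⟨264,120,-215⟩⟩ (1,[(3,408),(2,123),(0,2)]) (11,[(3,3845),(2,4586),(0,10)]) (132,[(3,104508),(2,3295),(0,215)]))))) (.node ⟨0,1,0⟩ (.node ⟨0,0,1⟩ (.node ⟨-323,-114,114⟩ (.node ⟨-161,300,-120⟩ (.node ⟨120,180,289⟩ (.leaf false ⟨⟨-300,-89,180⟩,⟨-161,300,-120⟩,⟨120,180,289⟩⟩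 (114,[(3,10374),(2,89),(5,5453)]) (1,[(1,1)]) (1,[(0,1)])) (.leaf false ⟨⟨-351,-84,-8⟩,⟨-72,316,-159⟩,⟨-44,153,324⟩⟩ (40,[(3,33493),(0,117),(4,17700)]) (5,[(3,72),(0,3),(4,2120)]) (30,[(3,12899),(0,11),(4,6570)]))) (.leaf false ⟨⟨-351,-44,72⟩,⟨-8,324,159⟩,⟨84,-153,316⟩⟩ (5,[(4,2238),(3,680),(0,3)]) (40,[(4,8853),(3,28860),(0,53)]) (30,[(4,10199),(3,19110),(0,79)]))) (.leaf false ⟨⟨-351,72,-44⟩,⟨-8,159,324⟩,⟨84,316,-153⟩⟩ (19,[(1,532),(3,10545),(0,12)]) (38,[(1,18354),(3,17423),(0,53)]) (57,[(1,9291),(3,46246),(0,158)]))) (.node ⟨-89,324,132⟩ (.node ⟨-348,-96,1⟩ (.leaf false ⟨⟨-348,-96,1⟩,⟨-89,324,132⟩,⟨-36,127,-336⟩⟩ (1,[(0,1)]) (1,[(1,1)]) (29,[(2,9747),(0,3),(3,3971)])) (.leaf false ⟨⟨-287,216,36⟩,⟨-36,12,-359⟩,⟨216,289,-12⟩⟩ (3,[(2,156),(4,683),(1,2)])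 (8,[(2,2871),(4,636),(0,1)]) (96,[(2,863),(4,79836),(0,289)]))) (.leaf false ⟨⟨-359,-12,-36⟩,⟨12,289,-216⟩,⟨36,-216,-287⟩⟩ (11,[(3,4216),(2,840),(0,3)]) (11,[(3,1470),(2,9011),(0,18)]) (132,[(3,20791),(2,64476),(0,287)])))) (.node ⟨0,0,1⟩ (.node ⟨-89,132,324⟩ (.node ⟨-348,1,-96⟩ (.leaf false ⟨⟨-348,1,-96⟩,⟨-89,132,324⟩,⟨-36,-336,127⟩⟩ (1,[(0,1)]) (1,[(1,1)]) (29,[(2,3971),(0,3),(3,9747)])) (.leaf false ⟨⟨-287,36,216⟩,⟨-36,-359,12⟩,⟨216,-12,289⟩⟩ (3,[(1,2),(4,683),(3,156)]) (8,[(4,636),(3,2871),(0,1)]) (96,[(4,79836),(3,863),(0,289)]))) (.leaf false ⟨⟨-359,-36,-12⟩,⟨12,-216,289⟩,⟨36,-287,-216⟩⟩ (11,[(1,840),(3,4216),(0,3)]) (11,[(1,9011),(3,1470),(0,18)]) (132,[(1,64476),(3,20791),(0,287)]))) (.node ⟨-201,208,-216⟩ (.node ⟨-224,-216,183⟩ (.node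 ⟨-296,-96,183⟩ (.leaf false ⟨⟨-296,-96,183⟩,⟨-201,208,-216⟩,⟨-48,-279,-224⟩⟩ (1,[(0,1)]) (1,[(2,1)]) (14,[(3,3685),(1,3),(4,3258)])) (.leaf false ⟨⟨-342,19,-114⟩,⟨19,-342,-114⟩,⟨114,114,-323⟩⟩ (190152,[(2,212232),(1,232123),(0,100075)]) (10564,[(2,8700),(1,42237),(0,38549)]) (285228,[(2,255264),(1,333203),(0,535343)]))) (.leaf false ⟨⟨-342,19,-114⟩,⟨19,-342,-114⟩,⟨114,114,-323⟩⟩ (61,[(4,29374),(3,7049),(0,38)]) (61,[(4,7353),(3,29070),(0,38)]) (183,[(4,51490),(3,48906),(0,323)]))) (.leaf false ⟨⟨-342,-114,19⟩,⟨19,-114,-342⟩,⟨114,-323,114⟩⟩ (104,[(1,10336),(3,47025),(0,57)]) (104,[(1,47880),(3,9481),(0,57)]) (208,[(1,46056),(3,41211),(0,323)])))))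
theorem pf361_ok : pf361.check (ok 361 6 ⟨5, 5, 5⟩) (fun _ r => r) [] = true := by decide +kernel

def pf367 : T := .node ⟨1,0,0⟩ (.node ⟨0,1,0⟩ (.node ⟨0,0,1⟩ (.leaf false ⟨⟨0,0,367⟩,⟨0,367,0⟩,⟨367,0,0⟩⟩ (1,[(0,367)]) (1,[(1,367)]) (1,[(2,367)])) (.node ⟨-54,-27,-362⟩ (.leaf false ⟨⟨-54,-27,-362⟩,⟨-2,366,-27⟩,⟨363,-2,-54⟩⟩ (1,[(0,1)]) (362,[(3,734),(2,133221),(0,27)]) (181,[(3,67161),(2,367),(0,27)])) (.node ⟨-75,358,-30⟩ (.leaf false ⟨⟨-75,358,-30⟩,⟨250,30,-267⟩,⟨258,75,250⟩⟩ (1,[(0,1)]) (9,[(2,6023),(4,1710),(1,10)]) (9,[(2,6800),(4,972),(1,25)])) (.leaf false ⟨⟨21,318,-182⟩,⟨78,-182,-309⟩,⟨358,21,78⟩⟩ (18,[(2,5810),(1,7),(3,5535)]) (25,[(2,8505),(0,26),(3,4758)]) (75,[(2,4890),(0,358),(3,129739)]))))) (.node ⟨0,0,1⟩ (.node ⟨-54,-362,-27⟩ (.leaf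 false ⟨⟨-54,-362,-27⟩,⟨-2,-27,366⟩,⟨363,-54,-2⟩⟩ (1,[(0,1)]) (362,[(1,133221),(3,734),(0,27)]) (181,[(1,367),(3,67161),(0,27)])) (.node ⟨-75,-30,358⟩ (.leaf false ⟨⟨-75,-30,358⟩,⟨250,-267,30⟩,⟨258,250,75⟩⟩ (1,[(0,1)]) (9,[(1,10),(4,1710),(3,6023)]) (9,[(1,25),(4,972),(3,6800)])) (.leaf false ⟨⟨21,-182,318⟩,⟨78,-309,-182⟩,⟨358,78,21⟩⟩ (18,[(2,5535),(1,7),(3,5810)]) (25,[(2,4758),(0,26),(3,8505)]) (75,[(2,129739),(0,358),(3,4890)])))) (.node ⟨34,-357,78⟩ (.node ⟨126,133,-318⟩ (.node ⟨342,133,-6⟩ (.node ⟨126,-318,133⟩ (.leaf false ⟨⟨43,-126,-342⟩,⟨126,-318,133⟩,⟨342,133,-6⟩⟩ (126,[(4,29418),(2,43),(5,21595)]) (1,[(0,1)]) (1,[(1,1)])) (.leaf false ⟨⟨-258,-2,-261⟩,⟨142,-309,-138⟩,⟨219,198,-218⟩⟩ (1813714,[(1,769579),(3,7195035),(0,7744170)]) (1813714,[(1,2393787),(3,8462653),(0,6736968)])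 (7254856,[(1,11364735),(3,21662175),(0,24082856)]))) (.leaf false ⟨⟨-210,-258,-155⟩,⟨133,90,-330⟩,⟨270,-245,42⟩⟩ (943152,[(1,620795),(2,590067),(0,866504)]) (6916,[(1,7225),(5,879868),(0,2545)]) (2,[(5,848),(2,1),(0,1)]))) (.leaf false ⟨⟨-218,-267,-126⟩,⟨27,-174,322⟩,⟨294,-182,-123⟩⟩ (133,[(2,101664),(4,4648),(0,267)]) (133,[(2,12506),(4,25515),(0,174)]) (19,[(2,10605),(4,8862),(0,26)]))) (.leaf false ⟨⟨-123,-182,-294⟩,⟨126,267,-218⟩,⟨322,-174,-27⟩⟩ (13,[(3,67),(2,19859),(0,49)]) (39,[(3,8620),(2,28500),(0,109)]) (26,[(3,8678),(2,7737),(0,9)]))))) (.node ⟨0,1,0⟩ (.node ⟨0,0,1⟩ (.node ⟨-362,-54,-27⟩ (.leaf false ⟨⟨-362,-54,-27⟩,⟨-54,363,-2⟩,⟨-27,-2,366⟩⟩ (1,[(0,1)]) (181,[(1,367),(0,27),(2,67161)]) (362,[(1,133221),(0,27),(2,734)])) (.node ⟨-30,-75,358⟩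 (.leaf false ⟨⟨-267,250,30⟩,⟨-30,-75,358⟩,⟨250,258,75⟩⟩ (9,[(4,6023),(3,1710),(1,10)]) (1,[(0,1)]) (9,[(4,6800),(3,972),(1,25)])) (.leaf false ⟨⟨-342,43,-126⟩,⟨-6,342,133⟩,⟨133,126,-318⟩⟩ (75,[(2,5944),(4,26940),(0,43)]) (25,[(2,44137),(4,3570),(0,114)]) (1702,[(2,364809),(0,2562),(1,413)])))) (.node ⟨-357,34,78⟩ (.node ⟨133,126,-318⟩ (.node ⟨133,342,-6⟩ (.node ⟨-318,126,133⟩ (.leaf false ⟨⟨-318,126,133⟩,⟨-126,43,-342⟩,⟨133,342,-6⟩⟩ (1,[(0,1)]) (126,[(4,29418),(6,21595),(2,43)]) (1,[(1,1)])) (.leaf false ⟨⟨-363,34,-42⟩,⟨34,-78,-357⟩,⟨42,357,-74⟩⟩ (1813714,[(3,5648497),(1,1033059),(0,3838800)]) (906857,[(3,5250669),(1,1281185),(0,5455737)]) (7254856,[(3,12979689),(1,10401417),(0,11179448)]))) (.leaf false ⟨⟨-258,-210,-155⟩,⟨-245,270,42⟩,⟨90,133,-330⟩⟩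 (943152,[(2,590067),(1,620795),(0,866504)]) (2,[(2,1),(4,848),(0,1)]) (6916,[(4,879868),(1,7225),(0,2545)]))) (.leaf false ⟨⟨-357,-78,34⟩,⟨-74,357,42⟩,⟨-42,34,-363⟩⟩ (19,[(2,15572),(0,51),(3,4944)]) (133,[(2,17946),(0,74),(3,56805)]) (19,[(2,8805),(0,6),(3,1402)]))) (.leaf false ⟨⟨-363,34,-42⟩,⟨34,-78,-357⟩,⟨42,357,-74⟩⟩ (13,[(3,7218),(2,680),(0,7)]) (26,[(3,41599),(2,2018),(0,119)]) (39,[(3,11571),(2,15181),(0,37)])))) (.node ⟨0,0,1⟩ (.node ⟨78,-357,34⟩ (.node ⟨-318,133,126⟩ (.node ⟨-6,133,342⟩ (.node ⟨133,-318,126⟩ (.leaf false ⟨⟨-342,-126,43⟩,⟨-6,133,342⟩,⟨133,-318,126⟩⟩ (126,[(2,43),(6,29418),(5,21595)]) (1,[(1,1)]) (1,[(0,1)])) (.leaf false ⟨⟨-363,34,42⟩,⟨-42,-357,-74⟩,⟨34,-78,357⟩⟩ (1813714,[(3,11163039),(1,3293935),(0,11348358)]) (1813714,[(3,5153047),(1,412821),(0,3576216)])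 (7254856,[(3,4973217),(1,7347777),(0,730520)]))) (.leaf false ⟨⟨-330,90,133⟩,⟨-155,-258,-210⟩,⟨42,-245,270⟩⟩ (6916,[(3,879868),(1,7225),(0,2545)]) (943152,[(1,620795),(0,866504),(2,590067)]) (2,[(3,848),(0,1),(2,1)]))) (.leaf false ⟨⟨-363,-42,34⟩,⟨34,-357,-78⟩,⟨42,-74,357⟩⟩ (19,[(2,1402),(4,8805),(0,6)]) (19,[(2,4944),(4,15572),(0,51)]) (133,[(2,56805),(4,17946),(0,74)]))) (.leaf false ⟨⟨-357,34,-78⟩,⟨-74,42,357⟩,⟨-42,-363,34⟩⟩ (26,[(1,2018),(0,119),(2,41599)]) (39,[(1,15181),(0,37),(2,11571)]) (13,[(1,680),(0,7),(2,7218)]))) (.node ⟨-27,54,-362⟩ (.node ⟨-27,-362,54⟩ (.node ⟨-363,-2,54⟩ (.leaf false ⟨⟨-366,-2,27⟩,⟨-27,54,-362⟩,⟨-2,-363,-54⟩⟩ (3276,[(3,89548),(2,1),(0,3303)]) (1,[(2,1)]) (27,[(3,1566),(1,2),(4,9077)])) (.leaf false ⟨⟨-363,-54,-2⟩,⟨-2,27,-366⟩,⟨54,-362,-27⟩⟩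 (176,[(2,5),(5,63024),(1,27)]) (1096,[(2,363),(5,1805576),(0,4995)]) (120,[(5,55956),(1,121),(0,181)]))) (.leaf false ⟨⟨-366,-27,-2⟩,⟨-2,54,-363⟩,⟨27,-362,-54⟩⟩ (27,[(4,9909),(3,1091),(0,1)]) (18,[(4,3303),(3,42830),(0,121)]) (1,[(3,724),(0,1)]))) (.leaf false ⟨⟨-366,-2,-27⟩,⟨-2,-363,54⟩,⟨27,-54,-362⟩⟩ (27,[(1,1091),(3,9909),(0,1)]) (18,[(1,42830),(3,3303),(0,121)]) (1,[(1,724),(0,1)])))))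
theorem pf367_ok : pf367.check (ok 367 6 ⟨5, 5, 5⟩) (fun _ r => r) [] = true := by decide +kernel

def pf371 : T := .node ⟨1,0,0⟩ (.node ⟨0,1,0⟩ (.node ⟨0,0,1⟩ (.node ⟨-254,174,207⟩ (.node ⟨198,286,-129⟩ (.node ⟨198,-129,286⟩ (.leaf false ⟨⟨-209,198,234⟩,⟨198,-129,286⟩,⟨234,286,-33⟩⟩ (23,[(5,1797),(4,30),(2,26)]) (1,[(0,1)]) (1,[(3,96),(5,36),(1,1)])) (.leaf false ⟨⟨-303,214,-6⟩,⟨106,159,318⟩,⟨186,258,-191⟩⟩ (129,[(3,60430),(5,3285),(0,214)]) (43,[(3,28832),(5,15052),(0,53)]) (1,[(3,381),(5,582),(0,2)]))) (.leaf false ⟨⟨-303,-6,214⟩,⟨106,318,159⟩,⟨186,-191,258⟩⟩ (129,[(4,3285),(3,60430),(0,214)]) (43,[(4,15052),(3,28832),(0,53)]) (1,[(4,582),(3,381),(0,2)]))) (.node ⟨207,-254,174⟩ (.leaf false ⟨⟨114,258,241⟩,⟨207,-254,174⟩,⟨286,81,-222⟩⟩ (69,[(2,10017),(0,38),(3,27454)])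 (1,[(0,1)]) (127,[(2,1407),(1,143),(3,35169)])) (.leaf false ⟨⟨-222,286,81⟩,⟨174,207,-254⟩,⟨241,114,258⟩⟩ (14249,[(2,4404810),(1,1407),(0,17008)]) (28498,[(2,25196419),(1,87045),(0,82854)]) (14249,[(2,18621714),(1,42406),(0,35445)])))) (.node ⟨358,54,81⟩ (.node ⟨-54,358,81⟩ (.leaf false ⟨⟨-54,358,81⟩,⟨-6,81,-362⟩,⟨367,54,6⟩⟩ (1,[(0,1)]) (358,[(2,136157),(4,2226),(0,81)]) (1,[(2,75),(4,9),(1,1)])) (.leaf false ⟨⟨33,174,-326⟩,⟨106,-318,-159⟩,⟨354,79,78⟩⟩ (18,[(2,4977),(0,11),(3,7070)]) (27,[(0,53),(3,10388)]) (179,[(2,375),(1,177),(3,4583)]))) (.leaf false ⟨⟨-353,-6,-114⟩,⟨6,369,-38⟩,⟨114,-38,-351⟩⟩ (27,[(3,4073),(2,1890),(0,38)]) (81,[(3,14090),(2,31941),(0,38)]) (3,[(3,4996),(2,588),(0,13)])))) (.node ⟨0,0,1⟩ (.node ⟨358,81,54⟩ (.node ⟨-54,81,358⟩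 (.leaf false ⟨⟨-54,-6,367⟩,⟨81,-362,6⟩,⟨358,81,54⟩⟩ (358,[(4,486),(3,31875),(0,367)]) (9,[(1,1),(4,371),(3,3339)]) (1,[(1,1)])) (.leaf false ⟨⟨33,-326,174⟩,⟨106,-159,-318⟩,⟨354,78,79⟩⟩ (18,[(2,7070),(0,11),(3,4977)]) (27,[(2,10388),(0,53)]) (179,[(2,4583),(1,177),(3,375)]))) (.leaf false ⟨⟨-353,-114,-6⟩,⟨6,-38,369⟩,⟨114,-351,-38⟩⟩ (27,[(1,1890),(3,4073),(0,38)]) (81,[(1,31941),(3,14090),(0,38)]) (3,[(1,588),(3,4996),(0,13)]))) (.node ⟨315,0,196⟩ (.leaf false ⟨⟨0,-371,0⟩,⟨196,0,-315⟩,⟨315,0,196⟩⟩ (1,[(2,371)]) (45,[(1,19663),(0,28)]) (1,[(0,1)])) (.node ⟨318,106,-159⟩ (.leaf false ⟨⟨-306,-18,-209⟩,⟨34,-369,-18⟩,⟨207,34,-306⟩⟩ (196,[(4,5859),(3,3528),(1,209)]) (98,[(4,6167),(3,36162),(1,9)]) (37471,[(3,3565310),(1,21465),(0,45654)])) (.leaf false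 ⟨⟨-336,-147,-56⟩,⟨84,-56,-357⟩,⟨133,-336,84⟩⟩ (2968,[(4,1630545),(0,4116),(1,4187)]) (212,[(4,203679),(0,112),(1,477)]) (371,[(4,673736),(0,1176),(1,795)])))))) (.node ⟨0,1,0⟩ (.node ⟨0,0,1⟩ (.node ⟨81,54,358⟩ (.node ⟨81,358,-54⟩ (.leaf false ⟨⟨-362,6,81⟩,⟨-6,367,-54⟩,⟨81,54,358⟩⟩ (9,[(2,371),(4,3339),(1,1)]) (358,[(2,486),(4,31875),(0,367)]) (1,[(1,1)])) (.leaf false ⟨⟨-326,174,33⟩,⟨-159,-318,106⟩,⟨78,79,354⟩⟩ (18,[(4,4977),(3,7070),(0,11)]) (27,[(3,10388),(0,53)]) (179,[(4,375),(3,4583),(1,177)]))) (.leaf false ⟨⟨-362,-81,6⟩,⟨-81,358,-54⟩,⟨-6,54,367⟩⟩ (81,[(1,130082),(0,362),(2,12987)]) (1,[(1,304),(0,1),(2,412)]) (27,[(1,10625),(0,2),(2,1566)]))) (.node ⟨0,315,196⟩ (.leaf false ⟨⟨-371,0,0⟩,⟨0,196,-315⟩,⟨0,315,196⟩⟩ (1,[(3,371)]) (45,[(1,19663),(0,28)])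 (1,[(0,1)])) (.node ⟨106,318,-159⟩ (.leaf false ⟨⟨-369,34,-18⟩,⟨-18,-306,-209⟩,⟨34,207,-306⟩⟩ (98,[(1,9),(4,36162),(3,6167)]) (196,[(1,209),(4,3528),(3,5859)]) (37471,[(1,21465),(4,3565310),(0,45654)])) (.leaf false ⟨⟨-354,-65,90⟩,⟨-110,246,-255⟩,⟨-15,-270,-254⟩⟩ (212,[(1,477),(0,708),(3,361619)]) (371,[(1,795),(0,385),(3,464121)]) (2968,[(1,4187),(0,420),(3,651105)]))))) (.node ⟨0,0,1⟩ (.node ⟨0,196,315⟩ (.leaf false ⟨⟨-371,0,0⟩,⟨0,-315,196⟩,⟨0,196,315⟩⟩ (1,[(3,371)]) (45,[(0,28),(2,19663)]) (1,[(0,1)])) (.node ⟨106,-159,318⟩ (.leaf false ⟨⟨-369,-18,34⟩,⟨-18,-209,-306⟩,⟨34,-306,207⟩⟩ (98,[(2,6167),(4,36162),(1,9)]) (196,[(2,5859),(4,3528),(1,209)]) (37471,[(4,3565310),(1,21465),(0,45654)])) (.leaf false ⟨⟨-354,90,-65⟩,⟨-110,-255,246⟩,⟨-15,-254,-270⟩⟩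 (212,[(2,361619),(0,708),(1,477)]) (371,[(2,464121),(0,385),(1,795)]) (2968,[(2,651105),(0,420),(1,4187)])))) (.leaf false ⟨⟨-371,0,0⟩,⟨0,-371,0⟩,⟨0,0,-371⟩⟩ (1,[(2,371)]) (1,[(1,371)]) (1,[(0,371)]))))
theorem pf371_ok : pf371.check (ok 371 6 ⟨5, 5, 5⟩) (fun _ r => r) [] = true := by decide +kernel

def pf373 : T := .node ⟨1,0,0⟩ (.node ⟨0,1,0⟩ (.node ⟨0,0,1⟩ (.leaf false ⟨⟨0,0,373⟩,⟨0,373,0⟩,⟨373,0,0⟩⟩ (1,[(0,373)]) (1,[(1,373)]) (1,[(2,373)])) (.node ⟨-108,27,-356⟩ (.node ⟨-77,360,60⟩ (.leaf false ⟨⟨-108,27,-356⟩,⟨4,372,27⟩,⟨357,4,-108⟩⟩ (1,[(1,1)]) (30,[(2,1050),(4,2507),(0,31)]) (27,[(2,1492),(4,10071),(1,4)])) (.node ⟨0,-275,-252⟩ (.leaf false ⟨⟨0,-275,-252⟩,⟨0,252,-275⟩,⟨373,0,0⟩⟩ (1,[(0,1)]) (356,[(5,29700),(4,82287),(2,275)]) (1,[(5,373)]))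 (.leaf false ⟨⟨-117,112,-336⟩,⟨112,-324,-147⟩,⟨336,147,-68⟩⟩ (11612,[(2,151077),(1,194256),(0,244195)]) (46448,[(2,5138469),(1,7274764),(0,8964099)]) (2903,[(2,1826888),(1,2575056),(0,3193167)])))) (.leaf false ⟨⟨4,372,-27⟩,⟨108,-27,-356⟩,⟨357,4,108⟩⟩ (27,[(1,1085),(0,1),(2,10071)]) (1,[(1,712),(0,1)]) (36,[(1,38476),(0,119),(2,3357)])))) (.node ⟨0,0,1⟩ (.node ⟨-108,-356,27⟩ (.node ⟨-77,60,360⟩ (.leaf false ⟨⟨-108,-356,27⟩,⟨4,27,372⟩,⟨357,-108,4⟩⟩ (1,[(1,1)]) (30,[(4,2507),(3,1050),(0,31)]) (27,[(4,10071),(3,1492),(1,4)])) (.node ⟨0,-252,-275⟩ (.leaf false ⟨⟨0,-275,252⟩,⟨0,-252,-275⟩,⟨373,0,0⟩⟩ (356,[(3,82287),(5,29700),(2,275)]) (1,[(0,1)]) (1,[(5,373)])) (.leaf false ⟨⟨-117,-336,112⟩,⟨112,-147,-324⟩,⟨336,-68,147⟩⟩ (11612,[(1,194256),(2,151077),(0,244195)])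 (46448,[(1,7274764),(2,5138469),(0,8964099)]) (2903,[(1,2575056),(2,1826888),(0,3193167)])))) (.leaf false ⟨⟨4,-27,372⟩,⟨108,-356,-27⟩,⟨357,108,4⟩⟩ (27,[(1,10071),(0,1),(2,1085)]) (1,[(0,1),(2,712)]) (36,[(1,3357),(0,119),(2,38476)]))) (.node ⟨0,252,-275⟩ (.leaf false ⟨⟨0,-275,-252⟩,⟨0,252,-275⟩,⟨373,0,0⟩⟩ (275,[(0,252),(2,139129)]) (1,[(0,1)]) (1,[(3,373)])) (.leaf false ⟨⟨0,-275,252⟩,⟨0,-252,-275⟩,⟨373,0,0⟩⟩ (252,[(1,12121),(0,275)]) (1,[(1,550),(0,1)]) (1,[(3,373)]))))) (.node ⟨0,1,0⟩ (.node ⟨0,0,1⟩ (.node ⟨-356,-108,27⟩ (.node ⟨60,-77,360⟩ (.leaf false ⟨⟨-365,-60,48⟩,⟨-48,360,85⟩,⟨60,-77,360⟩⟩ (12267,[(1,5968),(4,2424127),(0,1188)]) (72,[(4,4476),(3,27229),(0,17)]) (1,[(0,1)])) (.node ⟨-252,0,-275⟩ (.leaf false ⟨⟨-275,0,252⟩,⟨-252,0,-275⟩,⟨0,373,0⟩⟩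 (356,[(3,82287),(2,275),(4,29700)]) (1,[(0,1)]) (1,[(4,373)])) (.leaf false ⟨⟨-365,-48,60⟩,⟨-60,360,-77⟩,⟨48,85,360⟩⟩ (46448,[(2,5330555),(1,7447668),(0,9236445)]) (5806,[(2,3311949),(1,4672476),(0,5789897)]) (11612,[(2,3069435),(1,4318000),(0,5366493)])))) (.leaf false ⟨⟨-356,108,-27⟩,⟨-27,4,372⟩,⟨108,357,4⟩⟩ (1,[(3,712),(0,1)]) (27,[(1,10071),(3,1085),(0,1)]) (36,[(1,3357),(3,38476),(0,119)]))) (.node ⟨252,0,-275⟩ (.leaf false ⟨⟨-275,0,-252⟩,⟨0,373,0⟩,⟨252,0,-275⟩⟩ (275,[(3,139129),(0,252)]) (1,[(2,373)]) (1,[(0,1)])) (.leaf false ⟨⟨-275,0,252⟩,⟨-252,0,-275⟩,⟨0,373,0⟩⟩ (252,[(1,12121),(0,275)]) (1,[(1,550),(0,1)]) (1,[(2,373)])))) (.node ⟨0,0,1⟩ (.node ⟨252,-275,0⟩ (.leaf false ⟨⟨-275,-252,0⟩,⟨0,0,373⟩,⟨252,-275,0⟩⟩ (275,[(3,139129),(0,252)])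 (1,[(1,373)]) (1,[(0,1)])) (.leaf false ⟨⟨-275,252,0⟩,⟨-252,-275,0⟩,⟨0,0,373⟩⟩ (252,[(0,275),(2,12121)]) (1,[(0,1),(2,550)]) (1,[(1,373)]))) (.node ⟨-48,85,-360⟩ (.node ⟨-48,-360,85⟩ (.node ⟨-360,85,48⟩ (.leaf false ⟨⟨-365,60,48⟩,⟨-60,-77,-360⟩,⟨-48,-360,85⟩⟩ (72,[(3,48),(0,73),(4,1885)]) (6,[(3,2208),(0,1),(4,547)]) (1,[(1,1)])) (.leaf false ⟨⟨-360,-77,-60⟩,⟨48,60,-365⟩,⟨85,-360,-48⟩⟩ (2890,[(2,117),(5,2019384),(0,2735)]) (6936,[(2,6781),(5,20184),(0,1885)]) (4901,[(5,2904055),(1,2640),(0,9576)]))) (.leaf false ⟨⟨-372,4,-27⟩,⟨4,-357,-108⟩,⟨27,108,-356⟩⟩ (85,[(4,32916),(3,9380),(0,27)]) (85,[(4,4844),(3,69225),(0,108)]) (85,[(4,14793),(3,118980),(0,356)]))) (.leaf false ⟨⟨-372,-27,4⟩,⟨4,-108,-357⟩,⟨27,-356,108⟩⟩ (85,[(1,9380),(3,32916),(0,27)])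 (85,[(1,69225),(3,4844),(0,108)]) (85,[(1,118980),(3,14793),(0,356)])))))
theorem pf373_ok : pf373.check (ok 373 6 ⟨5, 5, 5⟩) (fun _ r => r) [] = true := by decide +kernel

def pf377 : T := .node ⟨1,0,0⟩ (.node ⟨0,1,0⟩ (.node ⟨0,0,1⟩ (.node ⟨-215,180,252⟩ (.node ⟨180,280,-177⟩ (.node ⟨-215,252,180⟩ (.leaf false ⟨⟨-215,252,180⟩,⟨180,280,-177⟩,⟨252,15,280⟩⟩ (1,[(0,1)]) (1,[(1,1)]) (12,[(3,3108),(5,3239),(2,1)])) (.leaf false ⟨⟨-215,180,252⟩,⟨180,-177,280⟩,⟨252,280,15⟩⟩ (1,[(2,1)]) (72,[(1,72),(2,457),(0,457)]) (795,[(1,1371),(2,2996),(0,2780)]))) (.leaf false ⟨⟨-252,28,279⟩,⟨72,369,28⟩,⟨271,-72,252⟩⟩ (59,[(4,1872),(3,27692),(0,93)]) (177,[(4,17784),(3,73153),(0,28)]) (59,[(4,31109),(3,19272),(0,84)]))) (.leaf false ⟨⟨15,280,252⟩,⟨252,180,-215⟩,⟨280,-177,180⟩⟩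 (43,[(1,11592),(0,3),(2,12580)]) (215,[(1,17279),(0,252),(2,84060)]) (43,[(1,21852),(0,56),(2,2469)]))) (.node ⟨-135,352,0⟩ (.leaf false ⟨⟨-135,352,0⟩,⟨0,0,-377⟩,⟨352,135,0⟩⟩ (1,[(0,1)]) (1,[(1,377)]) (352,[(3,142129),(0,135)])) (.leaf false ⟨⟨0,0,-377⟩,⟨135,352,0⟩,⟨352,-135,0⟩⟩ (1,[(1,377)]) (1,[(0,1),(2,704)]) (135,[(0,352),(2,105679)])))) (.node ⟨0,0,1⟩ (.node ⟨-135,0,352⟩ (.leaf false ⟨⟨-135,0,352⟩,⟨0,-377,0⟩,⟨352,0,135⟩⟩ (1,[(0,1)]) (1,[(2,377)]) (352,[(3,142129),(0,135)])) (.leaf false ⟨⟨0,-377,0⟩,⟨135,0,352⟩,⟨352,0,-135⟩⟩ (1,[(2,377)]) (1,[(1,704),(0,1)]) (135,[(1,105679),(0,352)]))) (.node ⟨348,0,145⟩ (.leaf false ⟨⟨0,-377,0⟩,⟨145,0,-348⟩,⟨348,0,145⟩⟩ (1,[(2,377)]) (12,[(1,4901),(0,5)]) (1,[(0,1)])) (.leaf false ⟨⟨-260,0,-273⟩,⟨0,-377,0⟩,⟨273,0,-260⟩⟩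 (145,[(3,57304),(0,273)]) (1,[(2,377)]) (29,[(3,26013),(0,52)]))))) (.node ⟨0,1,0⟩ (.node ⟨0,0,1⟩ (.node ⟨0,-135,352⟩ (.leaf false ⟨⟨-377,0,0⟩,⟨0,-135,352⟩,⟨0,352,135⟩⟩ (1,[(3,377)]) (1,[(0,1)]) (352,[(0,135),(2,142129)])) (.leaf false ⟨⟨-377,0,0⟩,⟨0,135,352⟩,⟨0,352,-135⟩⟩ (1,[(3,377)]) (1,[(1,704),(0,1)]) (135,[(1,105679),(0,352)]))) (.node ⟨0,348,145⟩ (.leaf false ⟨⟨-377,0,0⟩,⟨0,145,-348⟩,⟨0,348,145⟩⟩ (1,[(3,377)]) (12,[(1,4901),(0,5)]) (1,[(0,1)])) (.leaf false ⟨⟨-377,0,0⟩,⟨0,-260,-273⟩,⟨0,273,-260⟩⟩ (1,[(3,377)]) (145,[(0,273),(2,57304)]) (29,[(0,52),(2,26013)])))) (.node ⟨0,0,1⟩ (.node ⟨0,145,348⟩ (.leaf false ⟨⟨-377,0,0⟩,⟨0,-348,145⟩,⟨0,145,348⟩⟩ (1,[(3,377)]) (12,[(0,5),(2,4901)]) (1,[(0,1)])) (.leaf false ⟨⟨-377,0,0⟩,⟨0,-345,-152⟩,⟨0,-152,345⟩⟩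 (1,[(3,377)]) (29,[(1,19604),(0,69)]) (145,[(1,102921),(0,152)]))) (.leaf false ⟨⟨-377,0,0⟩,⟨0,-377,0⟩,⟨0,0,-377⟩⟩ (1,[(2,377)]) (1,[(1,377)]) (1,[(0,377)]))))
theorem pf377_ok : pf377.check (ok 377 6 ⟨5, 5, 5⟩) (fun _ r => r) [] = true := by decide +kernel

def pf379 : T := .node ⟨1,0,0⟩ (.node ⟨0,1,0⟩ (.node ⟨0,0,1⟩ (.leaf false ⟨⟨0,0,379⟩,⟨0,379,0⟩,⟨379,0,0⟩⟩ (1,[(0,379)]) (1,[(1,379)]) (1,[(2,379)])) (.node ⟨-135,54,-350⟩ (.node ⟨10,354,135⟩ (.leaf false ⟨⟨-135,54,-350⟩,⟨10,375,54⟩,⟨354,10,-135⟩⟩ (1,[(1,1)]) (3222,[(2,281597),(0,3411),(1,14)]) (27,[(2,1895),(4,10233),(1,5)])) (.leaf false ⟨⟨-114,-42,-359⟩,⟨73,366,-66⟩,⟨354,-89,-102⟩⟩ (21865,[(4,296060),(1,20236),(0,5681)]) (45,[(4,3505),(3,24258),(0,22)]) (45,[(4,16270),(3,8031),(0,34)])))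 (.leaf false ⟨⟨9,378,-26⟩,⟨234,-26,-297⟩,⟨298,9,234⟩⟩ (15,[(1,740),(0,1),(2,5724)]) (15,[(1,13555),(0,26),(2,1014)]) (135,[(1,72710),(0,298),(2,17307)])))) (.node ⟨0,0,1⟩ (.node ⟨-135,-350,54⟩ (.node ⟨10,135,354⟩ (.leaf false ⟨⟨-135,-350,54⟩,⟨10,54,375⟩,⟨354,-135,10⟩⟩ (1,[(1,1)]) (3222,[(3,281597),(1,14),(0,3411)]) (27,[(4,10233),(3,1895),(1,5)])) (.leaf false ⟨⟨-114,-359,-42⟩,⟨73,-66,366⟩,⟨354,-102,-89⟩⟩ (21865,[(4,296060),(0,5681),(1,20236)]) (45,[(2,24258),(4,3505),(0,22)]) (45,[(2,8031),(4,16270),(0,34)]))) (.leaf false ⟨⟨9,-26,378⟩,⟨234,-297,-26⟩,⟨298,234,9⟩⟩ (15,[(1,5724),(0,1),(2,740)]) (15,[(1,1014),(0,26),(2,13555)]) (135,[(1,17307),(0,298),(2,72710)]))) (.node ⟨30,-345,154⟩ (.node ⟨345,30,154⟩ (.node ⟨150,46,-345⟩ (.leaf false ⟨⟨46,-375,-30⟩,⟨150,46,-345⟩,⟨345,30,154⟩⟩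 (15,[(3,758),(1,2),(4,5685)]) (1,[(0,1)]) (1,[(1,1)])) (.leaf false ⟨⟨-354,-135,10⟩,⟨10,-54,-375⟩,⟨135,-350,54⟩⟩ (3790,[(3,4300513),(1,1322),(0,11985)]) (1137,[(3,1211284),(1,856),(0,1893)]) (379,[(3,1716112),(1,1957),(0,4160)]))) (.leaf false ⟨⟨-201,-98,-306⟩,⟨46,-366,87⟩,⟨318,-9,-206⟩⟩ (7995,[(2,1989552),(1,1852),(0,4819)]) (115,[(2,8783),(4,1630),(1,122)]) (10,[(2,1598),(4,4215),(0,3)]))) (.leaf false ⟨⟨-26,-234,-297⟩,⟨-9,298,-234⟩,⟨378,-9,-26⟩⟩ (14,[(3,446),(2,12591),(0,27)]) (77,[(3,2817),(2,17419),(0,117)]) (77,[(3,29496),(2,5178),(0,13)]))))) (.node ⟨0,1,0⟩ (.node ⟨0,0,1⟩ (.node ⟨-350,-135,54⟩ (.node ⟨135,10,354⟩ (.leaf false ⟨⟨-350,-135,54⟩,⟨-135,354,10⟩,⟨54,10,375⟩⟩ (1,[(1,1)]) (27,[(1,5),(4,1895),(3,10233)]) (3222,[(1,14),(4,281597),(0,3411)]))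 (.leaf false ⟨⟨-359,-114,-42⟩,⟨-102,354,-89⟩,⟨-66,73,366⟩⟩ (21865,[(1,20236),(0,5681),(3,296060)]) (45,[(2,8031),(0,34),(3,16270)]) (45,[(2,24258),(0,22),(3,3505)]))) (.leaf false ⟨⟨-359,66,102⟩,⟨42,366,-89⟩,⟨114,73,354⟩⟩ (45,[(1,5778),(3,23855),(0,22)]) (45,[(1,2583),(3,40810),(0,122)]) (135,[(1,51732),(3,10160),(0,73)]))) (.node ⟨-345,30,154⟩ (.node ⟨30,345,154⟩ (.node ⟨46,150,-345⟩ (.leaf false ⟨⟨-375,46,-30⟩,⟨30,345,154⟩,⟨46,150,-345⟩⟩ (15,[(3,758),(5,5685),(1,2)]) (1,[(1,1)]) (1,[(0,1)])) (.leaf false ⟨⟨-378,-26,9⟩,⟨-26,297,-234⟩,⟨-9,234,298⟩⟩ (5685,[(3,26583818),(0,64815),(1,27752)]) (1895,[(3,1922288),(0,2980),(1,2927)]) (3790,[(3,656807),(0,3375),(1,4038)]))) (.leaf false ⟨⟨-366,46,87⟩,⟨-98,-201,-306⟩,⟨-9,318,-206⟩⟩ (115,[(2,8783),(1,122),(3,1630)])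 (7995,[(2,1989552),(0,4819),(1,1852)]) (10,[(2,1598),(0,3),(3,4215)]))) (.leaf false ⟨⟨-234,-26,-297⟩,⟨-9,378,-26⟩,⟨298,-9,-234⟩⟩ (14,[(3,12591),(2,446),(0,27)]) (77,[(3,5178),(2,29496),(0,13)]) (77,[(3,17419),(2,2817),(0,117)])))) (.node ⟨0,0,1⟩ (.node ⟨154,-345,30⟩ (.node ⟨154,30,345⟩ (.node ⟨-345,46,150⟩ (.leaf false ⟨⟨-345,46,150⟩,⟨-30,-375,46⟩,⟨154,30,345⟩⟩ (1,[(0,1)]) (15,[(5,758),(4,5685),(1,2)]) (1,[(1,1)])) (.leaf false ⟨⟨-375,-54,10⟩,⟨10,-135,-354⟩,⟨54,-350,135⟩⟩ (1137,[(5,1211284),(0,1893),(1,856)]) (3790,[(5,4300513),(0,11985),(1,1322)]) (379,[(5,1716112),(0,4160),(1,1957)]))) (.leaf false ⟨⟨-306,-98,-201⟩,⟨-206,-9,318⟩,⟨87,-366,46⟩⟩ (7995,[(4,1989552),(0,4819),(1,1852)]) (10,[(2,4215),(4,1598),(0,3)]) (115,[(2,1630),(4,8783),(1,122)])))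 (.leaf false ⟨⟨-297,-234,-26⟩,⟨-234,298,-9⟩,⟨-26,-9,378⟩⟩ (14,[(1,446),(0,27),(2,12591)]) (77,[(1,2817),(0,117),(2,17419)]) (77,[(1,29496),(0,13),(2,5178)]))) (.node ⟨-42,-359,114⟩ (.node ⟨-359,102,-66⟩ (.node ⟨42,-89,-366⟩ (.leaf false ⟨⟨-359,102,-66⟩,⟨-114,-354,73⟩,⟨42,-89,-366⟩⟩ (1,[(1,1)]) (114,[(5,9930),(2,73),(4,14149)]) (1,[(0,1)])) (.leaf false ⟨⟨-366,66,73⟩,⟨-89,-102,-354⟩,⟨-42,-359,114⟩⟩ (7,[(3,21815),(0,61),(4,4967)]) (42,[(3,47442),(0,89),(4,12205)]) (1,[(3,252),(0,1),(4,448)]))) (.leaf false ⟨⟨-375,-54,10⟩,⟨10,-135,-354⟩,⟨54,-350,135⟩⟩ (17,[(2,424),(4,9606),(0,9)]) (34,[(2,15006),(4,15815),(0,45)]) (51,[(2,4665),(4,60071),(0,175)]))) (.leaf false ⟨⟨-375,10,-54⟩,⟨10,-354,-135⟩,⟨54,135,-350⟩⟩ (19,[(3,7503),(2,3041),(0,9)]) (38,[(3,1510),(2,29607),(0,45)])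 (57,[(3,4272),(2,55130),(0,175)])))))
theorem pf379_ok : pf379.check (ok 379 6 ⟨5, 5, 5⟩) (fun _ r => r) [] = true := by decide +kernel

def pf383 : T := .node ⟨1,0,0⟩ (.node ⟨0,1,0⟩ (.node ⟨0,0,1⟩ (.node ⟨-59,18,378⟩ (.node ⟨-18,378,-59⟩ (.leaf false ⟨⟨-59,18,378⟩,⟨-18,382,-21⟩,⟨378,21,58⟩⟩ (1,[(1,1)]) (189,[(2,7300),(4,36),(0,191)]) (18,[(2,1103),(4,6822),(0,1)])) (.leaf false ⟨⟨-21,-18,382⟩,⟨58,378,21⟩,⟨378,-59,18⟩⟩ (7997,[(4,288200),(1,7963),(0,760)]) (18,[(4,1103),(3,6786),(1,1)]) (59,[(4,21978),(3,3323),(0,18)]))) (.leaf false ⟨⟨18,378,-59⟩,⟨21,58,378⟩,⟨382,-21,-18⟩⟩ (59,[(1,3323),(0,18),(2,22626)]) (59,[(1,30240),(0,21),(2,3800)]) (59,[(1,143334),(0,382),(2,5637)]))) (.node ⟨-213,202,-246⟩ (.node ⟨202,267,186⟩ (.node ⟨309,-162,-158⟩ (.leaf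 false ⟨⟨-102,139,-342⟩,⟨202,318,69⟩,⟨309,-162,-158⟩⟩ (71,[(3,15918),(4,3001),(2,34)]) (1,[(3,117),(1,1),(4,51)]) (1,[(0,1)])) (.leaf false ⟨⟨-267,202,186⟩,⟨-18,246,-293⟩,⟨274,213,162⟩⟩ (81,[(3,892),(5,9582),(0,101)]) (27,[(3,14389),(5,12183),(0,41)]) (54,[(3,2470),(5,36735),(0,71)]))) (.leaf false ⟨⟨-270,-50,-267⟩,⟨85,342,-150⟩,⟨258,-165,-230⟩⟩ (62,[(4,1238),(3,20663),(0,89)]) (31,[(4,7685),(3,17277),(0,25)]) (93,[(4,47224),(3,15360),(0,115)]))) (.leaf false ⟨⟨18,246,-293⟩,⟨267,202,186⟩,⟨274,-213,-162⟩⟩ (71,[(1,22279),(0,6),(2,18678)]) (71,[(1,8688),(0,89),(2,32320)]) (213,[(1,101910),(0,274),(2,9979)])))) (.node ⟨0,0,1⟩ (.node ⟨-213,-246,202⟩ (.node ⟨202,186,267⟩ (.node ⟨309,-158,-162⟩ (.leaf false ⟨⟨-102,-342,139⟩,⟨202,69,318⟩,⟨309,-158,-162⟩⟩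 (71,[(3,3001),(4,15918),(2,34)]) (1,[(3,51),(1,1),(4,117)]) (1,[(0,1)])) (.leaf false ⟨⟨-267,186,202⟩,⟨-18,-293,246⟩,⟨274,162,213⟩⟩ (81,[(5,9582),(4,892),(0,101)]) (27,[(5,12183),(4,14389),(0,41)]) (54,[(5,36735),(4,2470),(0,71)]))) (.leaf false ⟨⟨-270,-267,-50⟩,⟨85,-150,342⟩,⟨258,-230,-165⟩⟩ (62,[(2,20663),(4,1238),(0,89)]) (31,[(2,17277),(4,7685),(0,25)]) (93,[(2,15360),(4,47224),(0,115)]))) (.leaf false ⟨⟨18,-293,246⟩,⟨267,186,202⟩,⟨274,-162,-213⟩⟩ (71,[(1,18678),(0,6),(2,22279)]) (71,[(1,32320),(0,89),(2,8688)]) (213,[(1,9979),(0,274),(2,101910)]))) (.node ⟨-21,-378,58⟩ (.node ⟨382,-18,21⟩ (.leaf false ⟨⟨-21,-378,58⟩,⟨18,-59,-378⟩,⟨382,-18,21⟩⟩ (1,[(1,1)]) (378,[(2,146306),(4,8043),(1,59)]) (1,[(0,1)])) (.leaf false ⟨⟨-374,-78,-27⟩,⟨-27,234,-302⟩,⟨78,-293,-234⟩⟩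 (1149,[(4,515518),(1,354),(0,2455)]) (383,[(4,2124884),(1,29),(0,5588)]) (6894,[(4,41035769),(1,10365),(0,105446)]))) (.node ⟨357,102,94⟩ (.leaf false ⟨⟨58,126,-357⟩,⟨126,-347,-102⟩,⟨357,102,94⟩⟩ (21,[(2,4133),(1,58),(3,19278)]) (17,[(2,2298),(0,6),(3,6511)]) (1,[(0,1)])) (.leaf false ⟨⟨-363,-6,-122⟩,⟨78,283,-246⟩,⟨94,-258,-267⟩⟩ (157,[(1,45),(4,4896),(0,176)]) (3780,[(1,15859),(3,4914048),(0,107)]) (6908,[(1,497),(4,7534370),(0,19315)])))))) (.node ⟨0,1,0⟩ (.node ⟨0,0,1⟩ (.node ⟨-246,202,-213⟩ (.node ⟨186,267,202⟩ (.node ⟨-158,-162,309⟩ (.leaf false ⟨⟨-342,139,-102⟩,⟨-158,-162,309⟩,⟨69,318,202⟩⟩ (71,[(5,15918),(2,34),(4,3001)]) (1,[(0,1)]) (1,[(5,117),(4,51),(1,1)])) (.leaf false ⟨⟨-347,162,-6⟩,⟨6,27,382⟩,⟨162,346,-27⟩⟩ (1,[(3,303),(5,505),(0,1)])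 (6,[(3,2601),(5,122),(0,1)]) (81,[(3,51270),(5,14212),(0,173)]))) (.leaf false ⟨⟨-347,-162,6⟩,⟨-162,346,-27⟩,⟨-6,27,382⟩⟩ (186,[(2,71210),(0,347),(3,62517)]) (31,[(2,4617),(0,27),(3,17935)]) (31,[(2,12044),(0,1),(3,1104)]))) (.leaf false ⟨⟨-347,-6,162⟩,⟨6,382,27⟩,⟨162,-27,346⟩⟩ (71,[(3,37921),(2,10482),(0,54)]) (71,[(3,1788),(2,28940),(0,9)]) (213,[(3,50610),(2,64141),(0,346)]))) (.node ⟨-378,-21,58⟩ (.node ⟨-18,382,21⟩ (.leaf false ⟨⟨-378,-21,58⟩,⟨-59,18,-378⟩,⟨-18,382,21⟩⟩ (1,[(1,1)]) (378,[(2,146306),(1,59),(3,8043)]) (1,[(0,1)])) (.leaf false ⟨⟨-378,21,58⟩,⟨-59,-18,-378⟩,⟨18,382,-21⟩⟩ (1,[(1,1),(3,42)]) (18,[(1,21),(3,146041),(0,382)]) (1,[(3,764),(0,1)]))) (.node ⟨102,357,94⟩ (.leaf false ⟨⟨-347,126,-102⟩,⟨102,357,94⟩,⟨126,58,-357⟩⟩ (17,[(2,2298),(4,6511),(0,6)])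 (1,[(0,1)]) (21,[(2,4133),(4,19278),(1,58)])) (.leaf false ⟨⟨-378,18,-59⟩,⟨21,382,-18⟩,⟨58,-21,-378⟩⟩ (94,[(4,29514),(3,22755),(0,59)]) (29,[(4,2793),(3,10889),(1,9)]) (270,[(4,571596),(1,1583),(0,109)]))))) (.node ⟨0,0,1⟩ (.node ⟨58,-378,-21⟩ (.node ⟨21,-18,382⟩ (.leaf false ⟨⟨-378,-59,18⟩,⟨21,-18,382⟩,⟨58,-378,-21⟩⟩ (378,[(2,8043),(4,146306),(1,59)]) (1,[(0,1)]) (1,[(1,1)])) (.leaf false ⟨⟨-378,-59,-18⟩,⟨-21,18,382⟩,⟨58,-378,21⟩⟩ (18,[(2,146041),(0,382),(1,21)]) (1,[(2,764),(0,1)]) (1,[(2,42),(1,1)]))) (.node ⟨94,102,357⟩ (.leaf false ⟨⟨-357,126,58⟩,⟨-102,-347,126⟩,⟨94,102,357⟩⟩ (21,[(1,58),(4,4133),(3,19278)]) (17,[(4,2298),(3,6511),(0,6)]) (1,[(0,1)])) (.leaf false ⟨⟨-378,58,-21⟩,⟨-59,-378,18⟩,⟨-18,21,382⟩⟩ (270,[(1,1583),(0,109),(3,571596)])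 (94,[(2,22755),(0,59),(3,29514)]) (29,[(2,10889),(1,9),(3,2793)])))) (.leaf false ⟨⟨-383,0,0⟩,⟨0,-383,0⟩,⟨0,0,-383⟩⟩ (1,[(2,383)]) (1,[(1,383)]) (1,[(0,383)]))))
theorem pf383_ok : pf383.check (ok 383 6 ⟨5, 5, 5⟩) (fun _ r => r) [] = true := by decide +kernel

def pf389 : T := .node ⟨1,0,0⟩ (.node ⟨0,1,0⟩ (.node ⟨0,0,1⟩ (.node ⟨-99,12,376⟩ (.node ⟨-99,372,-56⟩ (.leaf false ⟨⟨-99,12,376⟩,⟨-56,384,-27⟩,⟨372,61,96⟩⟩ (1,[(1,1)]) (31,[(2,955),(4,1432),(0,32)]) (372,[(2,39128),(4,144423),(0,61)])) (.leaf false ⟨⟨-72,69,376⟩,⟨156,-344,93⟩,⟨349,168,36⟩⟩ (1,[(4,27),(3,57),(1,1)]) (35136,[(4,2631798),(1,3833),(0,32615)]) (14,[(4,3995),(3,5700),(0,9)]))) (.node ⟨331,-204,-12⟩ (.leaf false ⟨⟨3,336,196⟩,⟨196,168,-291⟩,⟨336,-101,168⟩⟩ (33,[(2,6844),(1,1),(3,11100)])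 (99,[(2,44887),(1,196),(3,18984)]) (331,[(2,59640),(0,336),(3,35113)])) (.leaf false ⟨⟨-308,216,-99⟩,⟨99,264,268⟩,⟨216,187,-264⟩⟩ (676,[(2,59968),(1,361),(0,737)]) (1352,[(2,3705852),(1,8965),(0,2277)]) (16224,[(2,35304940),(1,105961),(0,21105)])))) (.node ⟨-189,340,0⟩ (.leaf false ⟨⟨-189,340,0⟩,⟨0,0,-389⟩,⟨340,189,0⟩⟩ (1,[(0,1)]) (1,[(1,389)]) (340,[(3,151321),(0,189)])) (.leaf false ⟨⟨0,0,-389⟩,⟨189,340,0⟩,⟨340,-189,0⟩⟩ (1,[(1,389)]) (1,[(0,1),(2,680)]) (189,[(0,340),(2,79879)])))) (.node ⟨0,0,1⟩ (.node ⟨-189,0,340⟩ (.leaf false ⟨⟨-189,0,340⟩,⟨0,-389,0⟩,⟨340,0,189⟩⟩ (1,[(0,1)]) (1,[(2,389)]) (340,[(3,151321),(0,189)])) (.leaf false ⟨⟨0,-389,0⟩,⟨189,0,340⟩,⟨340,0,-189⟩⟩ (1,[(2,389)]) (1,[(1,680),(0,1)]) (189,[(1,79879),(0,340)]))) (.node ⟨-99,-372,-56⟩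 (.node ⟨-96,61,-372⟩ (.leaf false ⟨⟨-99,-372,-56⟩,⟨-12,61,-384⟩,⟨376,-96,-27⟩⟩ (1,[(1,1)]) (31,[(4,2700),(3,61),(0,32)]) (124,[(4,47488),(3,12453),(0,9)])) (.node ⟨189,0,340⟩ (.leaf false ⟨⟨0,-389,0⟩,⟨189,0,340⟩,⟨340,0,-189⟩⟩ (7812,[(3,997396),(0,4279),(2,8169)]) (1,[(0,1)]) (189,[(3,151321),(0,340)])) (.leaf false ⟨⟨-317,-204,-96⟩,⟨96,-272,261⟩,⟨204,-189,-272⟩⟩ (5185,[(5,554119),(1,17340),(0,20436)]) (20740,[(5,9227667),(1,92480),(0,85263)]) (1037,[(5,724305),(1,3213),(0,4345)])))) (.leaf false ⟨⟨0,0,-389⟩,⟨189,340,0⟩,⟨340,-189,0⟩⟩ (1,[(1,389)]) (11,[(1,1176),(0,21),(2,4072)]) (99,[(1,19040),(0,340),(2,145191)]))))) (.node ⟨0,1,0⟩ (.node ⟨0,0,1⟩ (.node ⟨0,-189,340⟩ (.leaf false ⟨⟨-389,0,0⟩,⟨0,-189,340⟩,⟨0,340,189⟩⟩ (1,[(3,389)]) (1,[(0,1)]) (340,[(0,189),(2,151321)]))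 (.leaf false ⟨⟨-389,0,0⟩,⟨0,189,340⟩,⟨0,340,-189⟩⟩ (1,[(3,389)]) (1,[(1,680),(0,1)]) (189,[(1,79879),(0,340)]))) (.node ⟨-56,-99,-372⟩ (.node ⟨-372,-96,61⟩ (.leaf false ⟨⟨-384,-12,61⟩,⟨-56,-99,-372⟩,⟨-27,376,-96⟩⟩ (31,[(2,61),(0,32),(3,2700)]) (1,[(1,1)]) (124,[(2,12453),(0,9),(3,47488)])) (.node ⟨340,189,0⟩ (.leaf false ⟨⟨-189,340,0⟩,⟨0,0,-389⟩,⟨340,189,0⟩⟩ (189,[(5,151321),(0,340)]) (7812,[(2,8169),(5,997396),(0,4279)]) (1,[(0,1)])) (.leaf false ⟨⟨-384,-27,-56⟩,⟨-12,376,-99⟩,⟨61,-96,-372⟩⟩ (5185,[(4,1494141),(1,4760),(0,11064)]) (1037,[(4,583286),(1,1683),(0,1878)]) (20740,[(4,11318187),(1,126480),(0,134663)])))) (.leaf false ⟨⟨-389,0,0⟩,⟨0,189,340⟩,⟨0,340,-189⟩⟩ (1,[(3,389)]) (11,[(1,4072),(3,1176),(0,21)]) (99,[(1,145191),(3,19040),(0,340)]))))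 (.node ⟨0,0,1⟩ (.node ⟨-56,-372,-99⟩ (.node ⟨-372,61,-96⟩ (.leaf false ⟨⟨-384,61,-12⟩,⟨-56,-372,-99⟩,⟨-27,-96,376⟩⟩ (31,[(2,2700),(0,32),(3,61)]) (1,[(1,1)]) (124,[(2,47488),(0,9),(3,12453)])) (.node ⟨340,0,189⟩ (.leaf false ⟨⟨-189,0,340⟩,⟨0,-389,0⟩,⟨340,0,189⟩⟩ (189,[(5,151321),(0,340)]) (7812,[(5,997396),(2,8169),(0,4279)]) (1,[(0,1)])) (.leaf false ⟨⟨-384,-56,-27⟩,⟨-12,-99,376⟩,⟨61,-372,-96⟩⟩ (5185,[(3,1494141),(0,11064),(1,4760)]) (1037,[(3,583286),(0,1878),(1,1683)]) (20740,[(3,11318187),(0,134663),(1,126480)])))) (.leaf false ⟨⟨-389,0,0⟩,⟨0,-189,340⟩,⟨0,340,189⟩⟩ (1,[(3,389)]) (99,[(3,19040),(2,145191),(0,340)]) (11,[(3,1176),(2,4072),(0,21)]))) (.leaf false ⟨⟨-389,0,0⟩,⟨0,-389,0⟩,⟨0,0,-389⟩⟩ (1,[(2,389)]) (1,[(1,389)]) (1,[(0,389)]))))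
theorem pf389_ok : pf389.check (ok 389 6 ⟨5, 5, 5⟩) (fun _ r => r) [] = true := by decide +kernel

def pf397 : T := .node ⟨1,0,0⟩ (.node ⟨0,1,0⟩ (.node ⟨0,0,1⟩ (.leaf false ⟨⟨0,0,397⟩,⟨0,397,0⟩,⟨397,0,0⟩⟩ (1,[(0,397)]) (1,[(1,397)]) (1,[(2,397)])) (.node ⟨-84,28,-387⟩ (.node ⟨-84,387,28⟩ (.leaf false ⟨⟨-84,28,-387⟩,⟨3,396,28⟩,⟨388,3,-84⟩⟩ (1,[(1,1)]) (43,[(2,28),(4,3825),(0,44)]) (28,[(2,1191),(4,11116),(1,3)])) (.node ⟨-27,-216,-332⟩ (.leaf false ⟨⟨-27,-216,-332⟩,⟨-8,333,-216⟩,⟨396,-8,-27⟩⟩ (1,[(0,1)]) (43,[(5,1672),(4,13647),(2,24)]) (28,[(5,8820),(4,10225),(1,27)])) (.leaf false ⟨⟨-84,28,-387⟩,⟨3,396,28⟩,⟨388,3,-84⟩⟩ (1,[(2,1)]) (527633,[(2,3636576),(1,2218436),(0,4470617)]) (1582899,[(2,49992912),(1,37680461),(0,61052248)])))) (.leaf false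 ⟨⟨0,397,0⟩,⟨228,0,325⟩,⟨325,0,-228⟩⟩ (1,[(2,397)]) (7,[(1,5078),(0,19),(2,532)]) (84,[(1,144927),(0,325),(2,9100)])))) (.node ⟨0,0,1⟩ (.node ⟨-84,-387,28⟩ (.node ⟨-84,28,387⟩ (.leaf false ⟨⟨-84,-387,28⟩,⟨3,28,396⟩,⟨388,-84,3⟩⟩ (1,[(1,1)]) (43,[(4,3825),(3,28),(0,44)]) (28,[(4,11116),(3,1191),(1,3)])) (.node ⟨-27,-332,-216⟩ (.leaf false ⟨⟨-27,-332,-216⟩,⟨-8,-216,333⟩,⟨396,-27,-8⟩⟩ (1,[(0,1)]) (43,[(3,13647),(5,1672),(2,24)]) (28,[(3,10225),(5,8820),(1,27)])) (.leaf false ⟨⟨-84,-387,28⟩,⟨3,28,396⟩,⟨388,-84,3⟩⟩ (1,[(2,1)]) (527633,[(1,2218436),(2,3636576),(0,4470617)]) (1582899,[(1,37680461),(2,49992912),(0,61052248)])))) (.leaf false ⟨⟨0,0,397⟩,⟨228,325,0⟩,⟨325,-228,0⟩⟩ (1,[(1,397)]) (7,[(1,532),(0,19),(2,5078)]) (84,[(1,9100),(0,325),(2,144927)])))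 (.node ⟨48,-368,141⟩ (.node ⟨-48,-141,-368⟩ (.node ⟨388,48,-69⟩ (.leaf false ⟨⟨-48,-141,-368⟩,⟨69,-368,132⟩,⟨388,48,-69⟩⟩ (1,[(1,1)]) (1,[(3,9),(5,21),(2,1)]) (1,[(0,1)])) (.leaf false ⟨⟨-381,-108,28⟩,⟨28,-189,-348⟩,⟨108,-332,189⟩⟩ (4,[(3,509),(5,1968),(0,9)]) (16,[(3,9915),(5,24892),(0,63)]) (12,[(3,3459),(5,33500),(0,83)]))) (.leaf false ⟨⟨24,-368,-147⟩,⟨172,-123,336⟩,⟨357,84,-152⟩⟩ (2,[(2,662),(0,1),(3,877)]) (12,[(2,11792),(0,43),(3,7539)]) (16,[(2,46224),(0,119),(3,15435)]))) (.leaf false ⟨⟨-69,132,-368⟩,⟨48,-368,-141⟩,⟨388,69,-48⟩⟩ (141,[(3,7935),(2,116812),(0,368)]) (1,[(3,96),(2,736),(0,1)]) (47,[(3,19004),(2,2645),(0,16)]))))) (.node ⟨0,1,0⟩ (.node ⟨0,0,1⟩ (.node ⟨-387,-84,28⟩ (.node ⟨28,-84,387⟩ (.leaf false ⟨⟨-396,-3,28⟩,⟨3,388,84⟩,⟨28,-84,387⟩⟩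 (1,[(1,1),(4,9),(3,81)]) (129,[(4,397),(3,52404),(0,28)]) (1,[(0,1)])) (.node ⟨-332,-27,-216⟩ (.leaf false ⟨⟨-332,-27,-216⟩,⟨-216,-8,333⟩,⟨-27,396,-8⟩⟩ (1,[(0,1)]) (43,[(3,13647),(2,24),(4,1672)]) (28,[(3,10225),(1,27),(4,8820)])) (.leaf false ⟨⟨-396,3,28⟩,⟨-3,388,-84⟩,⟨28,84,387⟩⟩ (527633,[(2,4164056),(1,2750452),(0,4456505)]) (1582899,[(2,45184851),(1,34632368),(0,55576792)]) (527633,[(2,6856416),(1,4674095),(0,8430968)])))) (.leaf false ⟨⟨-396,3,28⟩,⟨-3,388,-84⟩,⟨28,84,387⟩⟩ (28,[(1,812),(3,11475),(0,1)]) (21,[(1,952),(3,37602),(0,97)]) (1,[(1,415),(3,359),(0,1)]))) (.node ⟨-368,48,141⟩ (.node ⟨-141,-48,-368⟩ (.node ⟨48,388,-69⟩ (.leaf false ⟨⟨-368,69,132⟩,⟨-141,-48,-368⟩,⟨48,388,-69⟩⟩ (1,[(3,9),(2,1),(4,21)]) (1,[(1,1)]) (1,[(0,1)])) (.leaf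 false ⟨⟨-368,-69,132⟩,⟨-141,48,-368⟩,⟨-48,388,69⟩⟩ (3,[(3,1191),(0,23),(4,8717)]) (16,[(3,9131),(0,47),(4,19004)]) (1,[(0,1),(4,776)]))) (.leaf false ⟨⟨-396,28,-3⟩,⟨3,84,388⟩,⟨28,387,-84⟩⟩ (12,[(2,2612),(4,5739),(0,7)]) (4,[(2,1024),(4,975),(0,7)]) (16,[(2,48816),(4,17741),(0,129)]))) (.leaf false ⟨⟨-368,48,-141⟩,⟨69,388,-48⟩,⟨132,-69,-368⟩⟩ (1,[(3,736),(2,96),(0,1)]) (47,[(3,2645),(2,19004),(0,16)]) (141,[(3,116812),(2,7935),(0,368)])))) (.node ⟨0,0,1⟩ (.node ⟨141,-368,48⟩ (.node ⟨-368,-141,-48⟩ (.node ⟨-69,48,388⟩ (.leaf false ⟨⟨-368,-141,-48⟩,⟨-69,48,388⟩,⟨132,-368,69⟩⟩ (1,[(1,1)]) (1,[(0,1)]) (1,[(3,21),(5,9),(2,1)])) (.leaf false ⟨⟨-396,-8,-27⟩,⟨-8,-333,216⟩,⟨27,-216,-332⟩⟩ (6,[(3,226),(5,2445),(0,1)]) (16,[(3,46524),(5,7787),(0,111)]) (2,[(3,2828),(5,567),(0,9)])))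 (.leaf false ⟨⟨-372,-123,64⟩,⟨-27,244,312⟩,⟨136,-288,237⟩⟩ (3,[(4,2588),(3,933),(0,4)]) (2,[(4,4838),(3,1345),(0,13)]) (16,[(4,26896),(3,15747),(0,79)]))) (.leaf false ⟨⟨-368,132,-69⟩,⟨-141,-368,48⟩,⟨-48,69,388⟩⟩ (141,[(1,7935),(0,368),(2,116812)]) (1,[(1,96),(0,1),(2,736)]) (47,[(1,19004),(0,16),(2,2645)]))) (.node ⟨-195,228,-260⟩ (.node ⟨-300,-195,172⟩ (.node ⟨172,-195,-300⟩ (.leaf false ⟨⟨-300,-260,-3⟩,⟨-195,228,-260⟩,⟨172,-195,-300⟩⟩ (100,[(5,30172),(4,25805),(0,1)]) (1,[(2,1)]) (1,[(0,1)])) (.leaf false ⟨⟨-368,147,24⟩,⟨-123,-336,172⟩,⟨-84,-152,-357⟩⟩ (43,[(3,26568),(0,92),(4,11619)]) (172,[(3,7316),(0,123),(4,81777)]) (65,[(3,15925),(2,28),(4,16264)]))) (.leaf false ⟨⟨-396,-27,-8⟩,⟨-8,216,-333⟩,⟨27,-332,-216⟩⟩ (43,[(4,17628),(3,1551),(0,2)])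 (172,[(4,101276),(3,27783),(0,333)]) (43,[(4,15039),(3,24806),(0,54)]))) (.leaf false ⟨⟨-396,-8,-27⟩,⟨-8,-333,216⟩,⟨27,-216,-332⟩⟩ (57,[(1,2059),(3,22962),(0,2)]) (76,[(1,12444),(3,22253),(0,111)]) (19,[(1,10988),(3,2997),(0,18)])))))
theorem pf397_ok : pf397.check (ok 397 6 ⟨5, 5, 5⟩) (fun _ r => r) [] = true := by decide +kernel

def pf401 : T := .node ⟨1,0,0⟩ (.node ⟨0,1,0⟩ (.node ⟨0,0,1⟩ (.node ⟨-144,87,364⟩ (.node ⟨76,372,-129⟩ (.node ⟨384,-41,108⟩ (.leaf false ⟨⟨-87,144,364⟩,⟨76,372,-129⟩,⟨384,-41,108⟩⟩ (1,[(5,57),(4,57),(2,1)]) (1,[(1,1)]) (1,[(0,1)])) (.leaf false ⟨⟨-393,76,24⟩,⟨24,228,-329⟩,⟨76,321,228⟩⟩ (41,[(3,9192),(5,13071),(0,76)]) (41,[(3,11135),(5,88536),(0,228)]) (41,[(3,44016),(5,126380),(0,321)]))) (.leaf false ⟨⟨-176,-15,360⟩,⟨15,400,24⟩,⟨360,-24,175⟩⟩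 (43,[(4,1552),(3,43995),(0,120)]) (43,[(4,1253),(3,20176),(0,8)]) (129,[(4,59740),(3,62004),(0,175)]))) (.leaf false ⟨⟨24,15,400⟩,⟨175,360,-24⟩,⟨360,-176,-15⟩⟩ (6,[(1,2764),(0,1),(2,177)]) (144,[(1,60244),(0,175),(2,67065)]) (2,[(1,1790),(0,5),(2,83)]))) (.node ⟨-113,384,-24⟩ (.node ⟨-113,-24,-384⟩ (.node ⟨384,-32,-111⟩ (.leaf false ⟨⟨-113,-24,-384⟩,⟨24,399,-32⟩,⟨384,-32,-111⟩⟩ (1,[(1,1)]) (12,[(5,401),(4,4812),(1,1)]) (1,[(0,1)])) (.leaf false ⟨⟨-399,40,0⟩,⟨0,0,-401⟩,⟨40,399,0⟩⟩ (401,[(5,106666),(0,640),(1,185)]) (3,[(5,1604),(0,3),(1,4)]) (3208,[(5,21408187),(0,51072),(1,14763)]))) (.leaf false ⟨⟨-108,384,-41⟩,⟨129,76,372⟩,⟨364,87,-144⟩⟩ (1,[(2,17),(4,5),(1,1)]) (1542,[(4,52470),(0,1507),(1,211)]) (128,[(2,17736),(4,49869),(1,29)]))) (.node ⟨328,-216,81⟩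 (.leaf false ⟨⟨76,24,-393⟩,⟨228,-329,24⟩,⟨321,228,76⟩⟩ (82,[(2,33765),(0,19),(3,6072)]) (113,[(2,2760),(1,228),(3,50375)]) (328,[(2,1073),(0,321),(3,144120)])) (.leaf false ⟨⟨-375,24,-140⟩,⟨76,-300,-255⟩,⟨120,265,-276⟩⟩ (1281,[(1,15545),(3,4526904),(0,6820)]) (61,[(1,4276),(3,1308540),(0,1459)]) (427,[(1,33416),(3,10492003),(0,11356)]))))) (.node ⟨0,0,1⟩ (.node ⟨-113,-24,384⟩ (.node ⟨-113,-384,-24⟩ (.node ⟨384,-111,-32⟩ (.leaf false ⟨⟨-113,-384,-24⟩,⟨24,-32,399⟩,⟨384,-111,-32⟩⟩ (1,[(1,1)]) (12,[(3,4812),(5,401),(1,1)]) (1,[(0,1)])) (.leaf false ⟨⟨-399,0,40⟩,⟨0,-401,0⟩,⟨40,0,399⟩⟩ (401,[(5,106666),(1,185),(0,640)]) (3,[(5,1604),(1,4),(0,3)]) (3208,[(5,21408187),(1,14763),(0,51072)]))) (.leaf false ⟨⟨-108,-41,384⟩,⟨129,372,76⟩,⟨364,-144,87⟩⟩ (1,[(4,5),(3,17),(1,1)])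 (1542,[(4,52470),(1,211),(0,1507)]) (128,[(4,49869),(3,17736),(1,29)]))) (.node ⟨328,81,-216⟩ (.leaf false ⟨⟨76,-393,24⟩,⟨228,24,-329⟩,⟨321,76,228⟩⟩ (82,[(2,6072),(0,19),(3,33765)]) (113,[(2,50375),(1,228),(3,2760)]) (328,[(2,144120),(0,321),(3,1073)])) (.leaf false ⟨⟨-375,-140,24⟩,⟨76,-255,-300⟩,⟨120,-276,265⟩⟩ (1281,[(2,4526904),(1,15545),(0,6820)]) (61,[(2,1308540),(1,4276),(0,1459)]) (427,[(2,10492003),(1,33416),(0,11356)])))) (.node ⟨399,0,40⟩ (.leaf false ⟨⟨0,-401,0⟩,⟨40,0,-399⟩,⟨399,0,40⟩⟩ (1,[(2,401)]) (399,[(1,160801),(0,40)]) (1,[(0,1)])) (.node ⟨-276,63,-284⟩ (.leaf false ⟨⟨-392,9,-84⟩,⟨9,-392,-84⟩,⟨84,84,-383⟩⟩ (35,[(4,2822),(1,38),(0,5)]) (10,[(4,8469),(3,3920),(1,21)]) (120,[(4,59427),(1,13),(0,160)])) (.leaf false ⟨⟨-396,-48,-41⟩,⟨4,-279,288⟩,⟨63,-284,-276⟩⟩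 (168,[(4,329463),(0,128),(1,1081)]) (70,[(4,591823),(0,310),(1,1697)]) (630,[(4,9035739),(0,2840),(1,24511)])))))) (.node ⟨0,1,0⟩ (.node ⟨0,0,1⟩ (.node ⟨-24,384,-113⟩ (.node ⟨-384,-24,-113⟩ (.node ⟨-111,-32,384⟩ (.leaf false ⟨⟨-384,-24,-113⟩,⟨-111,-32,384⟩,⟨-32,399,24⟩⟩ (1,[(1,1)]) (1,[(0,1)]) (12,[(3,401),(1,1),(4,4812)])) (.leaf false ⟨⟨-401,0,0⟩,⟨0,40,-399⟩,⟨0,399,40⟩⟩ (3,[(3,1604),(1,4),(0,3)]) (401,[(3,106666),(1,185),(0,640)]) (3208,[(3,21408187),(1,14763),(0,51072)]))) (.leaf false ⟨⟨-176,15,360⟩,⟨-15,400,-24⟩,⟨360,24,175⟩⟩ (8,[(2,2315),(4,3328),(0,5)]) (6168,[(2,558783),(1,6415),(0,160)]) (1,[(2,62),(4,24),(0,1)]))) (.node ⟨81,-216,328⟩ (.leaf false ⟨⟨-393,24,76⟩,⟨24,-329,228⟩,⟨76,228,321⟩⟩ (82,[(4,33765),(3,6072),(0,19)]) (113,[(4,2760),(3,50375),(1,228)])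 (328,[(4,1073),(3,144120),(0,321)])) (.leaf false ⟨⟨-401,0,0⟩,⟨0,-399,40⟩,⟨0,40,399⟩⟩ (1281,[(3,40719144),(1,131528),(0,45313)]) (427,[(3,175227),(1,1080),(0,320)]) (61,[(3,494920),(1,1539),(0,456)])))) (.node ⟨0,399,40⟩ (.leaf false ⟨⟨-401,0,0⟩,⟨0,40,-399⟩,⟨0,399,40⟩⟩ (1,[(3,401)]) (399,[(1,160801),(0,40)]) (1,[(0,1)])) (.node ⟨63,-276,-284⟩ (.leaf false ⟨⟨-396,-41,-48⟩,⟨4,288,-279⟩,⟨63,-276,-284⟩⟩ (5,[(1,6),(4,1980),(3,2189)]) (284,[(4,16441),(3,158796),(0,279)]) (1,[(0,1)])) (.leaf false ⟨⟨-396,4,63⟩,⟨-48,-279,-284⟩,⟨-41,288,-276⟩⟩ (56,[(1,2411),(0,352),(3,865061)]) (210,[(1,2627),(0,160),(3,945423)]) (315,[(1,3629),(0,205),(3,1482111)]))))) (.node ⟨0,0,1⟩ (.node ⟨0,40,399⟩ (.leaf false ⟨⟨-401,0,0⟩,⟨0,-399,40⟩,⟨0,40,399⟩⟩ (1,[(3,401)]) (399,[(0,40),(2,160801)])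 (1,[(0,1)])) (.node ⟨63,-284,-276⟩ (.leaf false ⟨⟨-396,-48,-41⟩,⟨4,-279,288⟩,⟨63,-284,-276⟩⟩ (5,[(2,2189),(4,1980),(1,6)]) (284,[(2,158796),(4,16441),(0,279)]) (1,[(0,1)])) (.leaf false ⟨⟨-396,63,4⟩,⟨-48,-284,-279⟩,⟨-41,-276,288⟩⟩ (56,[(2,865061),(0,352),(1,2411)]) (210,[(2,945423),(0,160),(1,2627)]) (315,[(2,1482111),(0,205),(1,3629)])))) (.leaf false ⟨⟨-401,0,0⟩,⟨0,-401,0⟩,⟨0,0,-401⟩⟩ (1,[(2,401)]) (1,[(1,401)]) (1,[(0,401)]))))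
theorem pf401_ok : pf401.check (ok 401 6 ⟨5, 5, 5⟩) (fun _ r => r) [] = true := by decide +kernel

def pf403 : T := .node ⟨1,0,0⟩ (.node ⟨0,1,0⟩ (.node ⟨0,0,1⟩ (.leaf false ⟨⟨0,0,403⟩,⟨0,403,0⟩,⟨403,0,0⟩⟩ (1,[(0,403)]) (1,[(1,403)]) (1,[(2,403)])) (.node ⟨-155,0,-372⟩ (.leaf false ⟨⟨-155,0,-372⟩,⟨0,403,0⟩,⟨372,0,-155⟩⟩ (1,[(0,1)]) (1,[(2,403)]) (12,[(3,5239),(0,5)])) (.node ⟨286,-78,-273⟩ (.leaf false ⟨⟨33,394,-78⟩,⟨282,33,286⟩,⟨286,-78,-273⟩⟩ (26,[(2,1209),(0,3),(3,10478)]) (155,[(2,60574),(1,282),(3,5115)]) (1,[(0,1)])) (.leaf false ⟨⟨-372,124,-93⟩,⟨93,372,124⟩,⟨124,93,-372⟩⟩ (195,[(2,141453),(1,104),(0,310)]) (65,[(2,303862),(1,611),(0,310)]) (26,[(2,47151),(1,78),(0,31)]))))) (.node ⟨0,0,1⟩ (.node ⟨-155,-372,0⟩ (.leaf false ⟨⟨-155,-372,0⟩,⟨0,0,403⟩,⟨372,-155,0⟩⟩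 (1,[(0,1)]) (1,[(1,403)]) (12,[(3,5239),(0,5)])) (.node ⟨286,-273,-78⟩ (.leaf false ⟨⟨33,-78,394⟩,⟨282,286,33⟩,⟨286,-273,-78⟩⟩ (26,[(2,10478),(0,3),(3,1209)]) (155,[(2,5115),(1,282),(3,60574)]) (1,[(0,1)])) (.leaf false ⟨⟨-372,-93,124⟩,⟨93,124,372⟩,⟨124,-372,93⟩⟩ (195,[(1,104),(3,141453),(0,310)]) (65,[(1,611),(3,303862),(0,310)]) (26,[(1,78),(3,47151),(0,31)])))) (.node ⟨-42,-399,-38⟩ (.node ⟨358,177,-54⟩ (.node ⟨-54,-33,-398⟩ (.node ⟨177,-362,6⟩ (.leaf false ⟨⟨-54,-33,-398⟩,⟨177,-362,6⟩,⟨358,174,-63⟩⟩ (1,[(1,1)]) (1,[(0,1)]) (1,[(4,9),(2,1),(5,3)])) (.leaf false ⟨⟨-399,-42,-38⟩,⟨-38,399,-42⟩,⟨42,-38,-399⟩⟩ (3,[(6,2166),(5,7004),(0,19)]) (1,[(6,1201),(5,2135),(0,7)]) (2,[(6,23625),(5,48222),(0,133)]))) (.leaf false ⟨⟨-2,-351,198⟩,⟨162,-182,-321⟩,⟨369,78,142⟩⟩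 (840,[(3,35012),(0,581),(2,787)]) (3360,[(3,5777164),(0,12047),(2,2529)]) (448,[(3,1202860),(0,3199),(2,177)]))) (.leaf false ⟨⟨-335,-222,-30⟩,⟨78,-65,-390⟩,⟨210,-330,97⟩⟩ (59,[(2,5766),(4,6727),(0,74)]) (177,[(2,72540),(4,37076),(0,65)]) (59,[(2,217),(4,51770),(0,110)]))) (.leaf false ⟨⟨30,-222,-335⟩,⟨97,330,-210⟩,⟨390,-65,78⟩⟩ (7,[(1,2535),(0,5),(2,3549)]) (42,[(1,12506),(0,97),(2,24843)]) (7,[(1,1924),(0,65),(2,26390)]))))) (.node ⟨0,1,0⟩ (.node ⟨0,0,1⟩ (.node ⟨-372,-155,0⟩ (.leaf false ⟨⟨-372,-155,0⟩,⟨-155,372,0⟩,⟨0,0,403⟩⟩ (1,[(0,1)]) (12,[(0,5),(2,5239)]) (1,[(1,403)])) (.node ⟨-273,286,-78⟩ (.leaf false ⟨⟨-273,286,-78⟩,⟨-78,33,394⟩,⟨286,282,33⟩⟩ (1,[(0,1)]) (26,[(2,10478),(4,1209),(0,3)]) (155,[(2,5115),(4,60574),(1,282)])) (.leaf false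 ⟨⟨-398,-6,63⟩,⟨33,-362,174⟩,⟨54,177,358⟩⟩ (806,[(4,933751),(1,1170),(0,651)]) (2015,[(4,2495376),(1,3588),(0,4495)]) (6045,[(4,28860039),(1,58097),(0,27745)])))) (.node ⟨-399,-42,-38⟩ (.node ⟨177,358,-54⟩ (.node ⟨-33,-54,-398⟩ (.node ⟨-362,177,6⟩ (.leaf false ⟨⟨-362,177,6⟩,⟨-33,-54,-398⟩,⟨174,358,-63⟩⟩ (1,[(0,1)]) (1,[(1,1)]) (1,[(4,9),(6,3),(2,1)])) (.leaf false ⟨⟨-399,-42,-38⟩,⟨-38,399,-42⟩,⟨42,-38,-399⟩⟩ (3,[(6,8075),(5,3237),(0,19)]) (1,[(6,2572),(5,1638),(0,7)]) (2,[(6,48062),(5,23465),(0,133)]))) (.leaf false ⟨⟨-398,54,33⟩,⟨-6,177,-362⟩,⟨63,358,174⟩⟩ (3360,[(3,2279764),(2,3879),(0,6377)]) (448,[(3,783820),(2,137),(0,1575)]) (1680,[(3,4330876),(2,701),(0,11683)]))) (.leaf false ⟨⟨-399,-38,42⟩,⟨-42,399,-38⟩,⟨-38,-42,-399⟩⟩ (59,[(2,4704),(0,133),(3,45372)])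 (59,[(2,2998),(0,14),(3,28553)]) (177,[(2,72675),(0,38),(3,6170)]))) (.leaf false ⟨⟨-398,54,33⟩,⟨-6,177,-362⟩,⟨63,358,174⟩⟩ (7,[(1,111),(3,6377),(0,9)]) (14,[(1,7310),(3,23625),(0,59)]) (21,[(1,3148),(3,70098),(0,179)])))) (.node ⟨0,0,1⟩ (.node ⟨-399,-38,-42⟩ (.node ⟨177,-54,358⟩ (.node ⟨-33,-398,-54⟩ (.node ⟨-362,6,177⟩ (.leaf false ⟨⟨-362,6,177⟩,⟨-33,-398,-54⟩,⟨174,-63,358⟩⟩ (1,[(0,1)]) (1,[(1,1)]) (1,[(6,3),(5,9),(2,1)])) (.leaf false ⟨⟨-399,-38,-42⟩,⟨-38,-42,399⟩,⟨42,-399,-38⟩⟩ (3,[(4,3237),(6,8075),(0,19)]) (1,[(4,1638),(6,2572),(0,7)]) (2,[(4,23465),(6,48062),(0,133)]))) (.leaf false ⟨⟨-398,-6,63⟩,⟨33,-362,174⟩,⟨54,177,358⟩⟩ (6720,[(2,7857),(4,5294252),(0,13951)]) (56,[(2,11),(4,95076),(0,189)]) (3360,[(2,1483),(4,8673668),(0,23429)]))) (.leaf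 false ⟨⟨-399,42,-38⟩,⟨-42,-38,399⟩,⟨-38,-399,-42⟩⟩ (59,[(2,45372),(0,133),(3,4704)]) (59,[(2,28553),(0,14),(3,2998)]) (177,[(2,6170),(0,38),(3,72675)]))) (.leaf false ⟨⟨-398,-6,63⟩,⟨33,-362,174⟩,⟨54,177,358⟩⟩ (2,[(3,1993),(2,126),(0,3)]) (7,[(3,11340),(2,3636),(0,29)]) (21,[(3,70287),(2,3085),(0,179)]))) (.node ⟨-182,234,-273⟩ (.node ⟨-362,-138,111⟩ (.node ⟨111,-342,-182⟩ (.leaf false ⟨⟨-362,-159,78⟩,⟨-138,142,-351⟩,⟨111,-342,-182⟩⟩ (1,[(3,33),(1,1),(4,21)]) (45,[(3,3692),(2,39),(0,8)]) (1,[(0,1)])) (.leaf false ⟨⟨-362,-177,6⟩,⟨-174,358,63⟩,⟨-33,54,-398⟩⟩ (111,[(3,65218),(0,362),(4,143451)]) (37,[(3,8225),(0,58),(4,6590)]) (37,[(3,16728),(0,11),(4,1764)]))) (.leaf false ⟨⟨-390,-65,-78⟩,⟨30,222,-335⟩,⟨97,-330,-210⟩⟩ (37,[(4,23842),(3,5993),(0,26)])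 (111,[(4,117940),(3,21588),(0,335)]) (37,[(4,21751),(3,21870),(0,70)]))) (.leaf false ⟨⟨-390,-78,-65⟩,⟨30,-335,222⟩,⟨97,-210,-330⟩⟩ (3,[(1,468),(3,1352),(0,1)]) (234,[(1,39507),(3,53950),(0,335)]) (39,[(1,22425),(3,2587),(0,35)])))))
theorem pf403_ok : pf403.check (ok 403 6 ⟨5, 5, 5⟩) (fun _ r => r) [] = true := by decide +kernel

def pf409 : T := .node ⟨1,0,0⟩ (.node ⟨0,1,0⟩ (.node ⟨0,0,1⟩ (.leaf false ⟨⟨0,0,409⟩,⟨0,409,0⟩,⟨409,0,0⟩⟩ (1,[(0,409)]) (1,[(1,409)]) (1,[(2,409)])) (.node ⟨-140,84,-375⟩ (.node ⟨96,384,103⟩ (.node ⟨391,-72,-96⟩ (.leaf false ⟨⟨-72,121,-384⟩,⟨96,384,103⟩,⟨391,-72,-96⟩⟩ (35,[(3,6690),(4,2723),(2,18)]) (1,[(1,1)]) (1,[(0,1)])) (.leaf false ⟨⟨-399,76,48⟩,⟨-32,84,-399⟩,⟨84,393,76⟩⟩ (18,[(3,960),(5,247),(0,19)]) (6,[(3,3066),(5,2545),(0,7)])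 (24,[(3,10752),(5,53237),(0,131)]))) (.leaf false ⟨⟨-228,-84,-329⟩,⟨49,384,-132⟩,⟨336,-113,-204⟩⟩ (103,[(4,8100),(3,117684),(0,329)]) (103,[(4,17719),(3,90240),(0,132)]) (103,[(4,54192),(3,66697),(0,204)]))) (.leaf false ⟨⟨72,384,121⟩,⟨96,103,-384⟩,⟨391,-96,72⟩⟩ (35,[(1,2515),(0,18),(2,14952)]) (35,[(1,22440),(0,24),(2,5621)]) (140,[(1,136545),(0,391),(2,19404)])))) (.node ⟨0,0,1⟩ (.node ⟨-140,-375,84⟩ (.node ⟨96,103,384⟩ (.node ⟨391,-96,-72⟩ (.leaf false ⟨⟨-72,-384,121⟩,⟨96,103,384⟩,⟨391,-96,-72⟩⟩ (35,[(3,2723),(4,6690),(2,18)]) (1,[(1,1)]) (1,[(0,1)])) (.leaf false ⟨⟨-399,-32,84⟩,⟨48,-399,76⟩,⟨76,84,393⟩⟩ (6,[(5,343),(4,864),(0,7)]) (18,[(5,8293),(4,9006),(0,19)]) (24,[(5,53045),(4,10560),(0,131)]))) (.leaf false ⟨⟨-228,-329,-84⟩,⟨49,-132,384⟩,⟨336,-204,-113⟩⟩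 (103,[(2,117684),(4,8100),(0,329)]) (103,[(2,90240),(4,17719),(0,132)]) (103,[(2,66697),(4,54192),(0,204)]))) (.leaf false ⟨⟨72,96,391⟩,⟨121,-384,72⟩,⟨384,103,-96⟩⟩ (35,[(1,15197),(0,18),(2,3390)]) (140,[(1,20244),(0,121),(2,99135)]) (35,[(1,4704),(0,96),(2,32395)]))) (.node ⟨399,-32,84⟩ (.node ⟨84,76,-393⟩ (.node ⟨-32,-399,-84⟩ (.leaf false ⟨⟨-32,-399,-84⟩,⟨84,76,-393⟩,⟨399,-48,76⟩⟩ (1,[(0,1)]) (1,[(1,1)]) (1,[(3,8),(2,1),(4,16)])) (.leaf false ⟨⟨36,-401,-72⟩,⟨247,-36,324⟩,⟨324,72,-239⟩⟩ (8,[(3,1332),(0,9),(4,6799)]) (32,[(3,10380),(0,247),(4,99705)]) (8,[(3,8716),(0,81),(4,31743)]))) (.leaf false ⟨⟨-288,-264,121⟩,⟨121,-264,-288⟩,⟨264,-167,264⟩⟩ (19,[(2,23639),(4,72),(0,66)]) (19,[(2,31410),(4,7843),(0,66)]) (76,[(2,45567),(4,34092),(0,167)])))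 (.leaf false ⟨⟨-336,-204,-113⟩,⟨49,132,-384⟩,⟨228,-329,-84⟩⟩ (84,[(3,16863),(2,20752),(0,113)]) (7,[(3,13111),(2,100),(0,32)]) (1,[(3,627),(2,361),(0,1)]))))) (.node ⟨0,1,0⟩ (.node ⟨0,0,1⟩ (.node ⟨-375,-140,84⟩ (.node ⟨103,96,384⟩ (.node ⟨-96,391,-72⟩ (.leaf false ⟨⟨-384,-72,121⟩,⟨-96,391,-72⟩,⟨103,96,384⟩⟩ (35,[(3,2723),(2,18),(5,6690)]) (1,[(0,1)]) (1,[(1,1)])) (.leaf false ⟨⟨-401,-72,36⟩,⟨-36,324,247⟩,⟨72,-239,324⟩⟩ (2,[(5,898),(4,247),(0,1)]) (72,[(5,26304),(4,119905),(0,247)]) (2,[(5,720),(4,3041),(0,9)]))) (.leaf false ⟨⟨-392,-81,84⟩,⟨-111,168,-356⟩,⟨-36,364,183⟩⟩ (103,[(2,159180),(0,392),(3,29289)]) (103,[(2,5956),(0,111),(3,27960)]) (103,[(2,32673),(0,36),(3,40948)]))) (.leaf false ⟨⟨-384,96,103⟩,⟨72,391,-96⟩,⟨121,72,384⟩⟩ (35,[(1,5621),(3,22440),(0,24)])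 (140,[(1,19404),(3,136545),(0,391)]) (35,[(1,14952),(3,2515),(0,18)]))) (.node ⟨-32,399,84⟩ (.node ⟨76,84,-393⟩ (.node ⟨-399,-32,-84⟩ (.leaf false ⟨⟨-399,-32,-84⟩,⟨-48,399,76⟩,⟨76,84,-393⟩⟩ (1,[(0,1)]) (1,[(3,8),(5,16),(2,1)]) (1,[(1,1)])) (.leaf false ⟨⟨-401,36,-72⟩,⟨-36,247,324⟩,⟨72,324,-239⟩⟩ (8,[(3,1332),(5,6799),(0,9)]) (32,[(3,10380),(5,99705),(0,247)]) (8,[(3,8716),(5,31743),(0,81)]))) (.leaf false ⟨⟨-399,-48,76⟩,⟨-84,76,-393⟩,⟨-32,399,84⟩⟩ (4,[(2,7949),(0,21),(3,1572)]) (19,[(2,15720),(0,21),(3,3208)]) (19,[(2,1548),(0,8),(3,8253)]))) (.leaf false ⟨⟨-401,-36,-72⟩,⟨36,247,-324⟩,⟨72,-324,-239⟩⟩ (7,[(3,2999),(2,2142),(0,6)]) (7,[(3,612),(2,12502),(0,27)]) (84,[(3,1600),(2,68145),(0,239)])))) (.node ⟨0,0,1⟩ (.node ⟨-32,84,399⟩ (.node ⟨76,-393,84⟩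 (.node ⟨-399,-84,-32⟩ (.leaf false ⟨⟨-399,-84,-32⟩,⟨-48,76,399⟩,⟨76,-393,84⟩⟩ (1,[(0,1)]) (1,[(2,1),(5,16),(4,8)]) (1,[(1,1)])) (.leaf false ⟨⟨-401,-72,36⟩,⟨-36,324,247⟩,⟨72,-239,324⟩⟩ (8,[(5,6799),(4,1332),(0,9)]) (32,[(5,99705),(4,10380),(0,247)]) (8,[(5,31743),(4,8716),(0,81)]))) (.leaf false ⟨⟨-399,76,-48⟩,⟨-84,-393,76⟩,⟨-32,84,399⟩⟩ (4,[(2,1572),(0,21),(3,7949)]) (19,[(2,3208),(0,21),(3,15720)]) (19,[(2,8253),(0,8),(3,1548)]))) (.leaf false ⟨⟨-401,-72,-36⟩,⟨36,-324,247⟩,⟨72,-239,-324⟩⟩ (7,[(1,2142),(3,2999),(0,6)]) (7,[(1,12502),(3,612),(0,27)]) (84,[(1,68145),(3,1600),(0,239)]))) (.node ⟨-84,228,-329⟩ (.node ⟨-384,-113,84⟩ (.node ⟨49,-336,-228⟩ (.leaf false ⟨⟨-384,-113,84⟩,⟨-132,204,-329⟩,⟨49,-336,-228⟩⟩ (1,[(1,1)]) (1,[(2,1),(5,48),(4,24)])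 (1,[(0,1)])) (.leaf false ⟨⟨-392,-36,111⟩,⟨-84,-183,-356⟩,⟨-81,364,-168⟩⟩ (1,[(3,1713),(0,8),(4,2724)]) (7,[(3,5228),(0,12),(4,5313)]) (49,[(3,26700),(0,81),(4,9380)]))) (.leaf false ⟨⟨-401,-36,-72⟩,⟨36,247,-324⟩,⟨72,-324,-239⟩⟩ (7,[(4,5111),(3,930),(0,6)]) (7,[(4,10116),(3,1322),(0,27)]) (84,[(4,85728),(3,54223),(0,239)]))) (.leaf false ⟨⟨-401,-72,-36⟩,⟨36,-324,247⟩,⟨72,-239,-324⟩⟩ (19,[(1,2658),(3,8123),(0,6)]) (19,[(1,4190),(3,1584),(0,27)]) (228,[(1,152503),(3,3660),(0,239)])))))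
theorem pf409_ok : pf409.check (ok 409 6 ⟨5, 5, 5⟩) (fun _ r => r) [] = true := by decide +kernel

def pf419 : T := .node ⟨1,0,0⟩ (.node ⟨0,1,0⟩ (.node ⟨0,0,1⟩ (.node ⟨-222,31,354⟩ (.node ⟨-81,402,-86⟩ (.leaf false ⟨⟨-222,31,354⟩,⟨-81,402,-86⟩,⟨346,114,207⟩⟩ (1,[(1,1)]) (1,[(0,1)]) (67,[(2,15503),(4,24721),(0,19)])) (.leaf false ⟨⟨-159,-158,354⟩,⟨66,366,193⟩,⟨382,-129,114⟩⟩ (7961,[(3,17598),(1,7058),(0,3717)]) (354,[(4,66210),(3,123581),(1,193)]) (43,[(4,11809),(3,17367),(0,57)]))) (.node ⟨207,-86,354⟩ (.node ⟨31,354,-222⟩ (.leaf false ⟨⟨31,354,-222⟩,⟨114,207,346⟩,⟨402,-86,-81⟩⟩ (1,[(0,1)]) (69,[(3,10422),(1,38),(4,17551)]) (65,[(3,13143),(1,34),(2,86)])) (.leaf false ⟨⟨31,-222,354⟩,⟨114,346,207⟩,⟨402,-81,-86⟩⟩ (6385,[(2,2976),(4,3958944),(0,14927)])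 (2554,[(2,2115),(4,2986165),(0,5754)]) (19155,[(2,43289),(4,21599636),(0,61608)]))) (.leaf false ⟨⟨-374,186,33⟩,⟨129,198,346⟩,⟨138,319,-234⟩⟩ (12675,[(2,13175019),(1,6338),(0,29698)]) (845,[(2,2653196),(1,3472),(0,3197)]) (4225,[(2,17064996),(1,25967),(0,25032)])))) (.node ⟨-198,49,-366⟩ (.node ⟨369,130,150⟩ (.node ⟨42,414,49⟩ (.node ⟨369,-14,-198⟩ (.leaf false ⟨⟨-194,63,-366⟩,⟨42,414,49⟩,⟨369,-14,-198⟩⟩ (1,[(6,4),(5,14),(3,1)]) (1,[(1,1)]) (1,[(0,1)])) (.leaf false ⟨⟨-414,49,-42⟩,⟨-14,198,369⟩,⟨63,366,-194⟩⟩ (2,[(4,1470),(6,1755),(0,7)]) (7,[(4,17019),(6,36433),(0,99)]) (7,[(4,37592),(6,67968),(0,183)]))) (.leaf false ⟨⟨-266,-42,-321⟩,⟨114,-401,-42⟩,⟨303,114,-266⟩⟩ (11781,[(1,448),(4,31966244),(0,78549)]) (3927,[(1,2450),(4,2605297),(0,10866)])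 (1309,[(1,2891),(4,6379180),(0,15956)]))) (.leaf false ⟨⟨-366,-129,-158⟩,⟨-66,382,-159⟩,⟨193,-114,-354⟩⟩ (75,[(4,1701),(3,595),(0,79)]) (50,[(4,16257),(3,25990),(0,53)]) (25,[(4,26596),(3,4820),(0,59)]))) (.leaf false ⟨⟨31,402,-114⟩,⟨222,81,346⟩,⟨354,-86,-207⟩⟩ (198,[(1,33918),(0,31),(2,81115)]) (33,[(1,2124),(0,37),(2,4486)]) (33,[(1,28425),(0,59),(2,53)])))) (.node ⟨0,0,1⟩ (.node ⟨-198,-366,49⟩ (.node ⟨369,150,130⟩ (.node ⟨42,49,414⟩ (.node ⟨369,-198,-14⟩ (.leaf false ⟨⟨-194,-366,63⟩,⟨42,49,414⟩,⟨369,-198,-14⟩⟩ (1,[(4,14),(6,4),(3,1)]) (1,[(1,1)]) (1,[(0,1)])) (.leaf false ⟨⟨-414,-42,49⟩,⟨-14,369,198⟩,⟨63,-194,366⟩⟩ (2,[(6,1755),(5,1470),(0,7)]) (7,[(6,36433),(5,17019),(0,99)]) (7,[(6,67968),(5,37592),(0,183)]))) (.leaf false ⟨⟨-266,-321,-42⟩,⟨114,-42,-401⟩,⟨303,-266,114⟩⟩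 (11781,[(3,31966244),(1,448),(0,78549)]) (3927,[(3,2605297),(1,2450),(0,10866)]) (1309,[(3,6379180),(1,2891),(0,15956)]))) (.leaf false ⟨⟨-366,-158,-129⟩,⟨-66,-159,382⟩,⟨193,-354,-114⟩⟩ (75,[(2,595),(4,1701),(0,79)]) (50,[(2,25990),(4,16257),(0,53)]) (25,[(2,4820),(4,26596),(0,59)]))) (.leaf false ⟨⟨31,-114,402⟩,⟨222,346,81⟩,⟨354,-207,-86⟩⟩ (198,[(1,81115),(0,31),(2,33918)]) (33,[(1,4486),(0,37),(2,2124)]) (33,[(1,53),(0,59),(2,28425)]))) (.node ⟨114,126,-383⟩ (.node ⟨346,-114,207⟩ (.node ⟨-81,-402,-86⟩ (.leaf false ⟨⟨-81,-402,-86⟩,⟨222,31,-354⟩,⟨346,-114,207⟩⟩ (1,[(0,1)]) (126,[(3,32731),(2,31),(5,24438)]) (1,[(1,1)])) (.leaf false ⟨⟨30,81,-410⟩,⟨270,310,81⟩,⟨319,-270,-30⟩⟩ (27,[(3,11930),(0,10),(4,1833)]) (3,[(3,617),(0,10),(4,3090)]) (81,[(3,29864),(0,319),(4,150108)])))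 (.leaf false ⟨⟨-266,-42,-321⟩,⟨114,-401,-42⟩,⟨303,114,-266⟩⟩ (69,[(4,18668),(3,15096),(0,107)]) (69,[(4,12710),(3,29265),(0,14)]) (207,[(4,154757),(3,6726),(0,266)]))) (.leaf false ⟨⟨-266,-321,-42⟩,⟨114,-42,-401⟩,⟨303,-266,114⟩⟩ (42,[(1,42745),(3,1026),(0,107)]) (3,[(1,1586),(3,456),(0,1)]) (9,[(1,6251),(3,4893),(0,19)]))))) (.node ⟨0,1,0⟩ (.node ⟨0,0,1⟩ (.node ⟨-366,-198,49⟩ (.node ⟨150,369,130⟩ (.node ⟨49,42,414⟩ (.node ⟨-198,369,-14⟩ (.leaf false ⟨⟨-366,-194,63⟩,⟨-198,369,-14⟩,⟨49,42,414⟩⟩ (1,[(4,14),(3,1),(5,4)]) (1,[(0,1)]) (1,[(1,1)])) (.leaf false ⟨⟨-414,-42,49⟩,⟨-14,369,198⟩,⟨63,-194,366⟩⟩ (2,[(6,2214),(5,2499),(0,7)]) (7,[(6,19700),(5,39114),(0,99)]) (7,[(6,35793),(5,66169),(0,183)]))) (.leaf false ⟨⟨-414,-14,63⟩,⟨-42,369,-194⟩,⟨49,198,366⟩⟩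 (11781,[(3,60946667),(0,150666),(1,16702)]) (1309,[(3,2718412),(0,7872),(1,2205)]) (3927,[(3,2709464),(0,3873),(1,2548)]))) (.leaf false ⟨⟨-374,-33,-186⟩,⟨-138,-234,319⟩,⟨-129,346,198⟩⟩ (75,[(2,10360),(0,187),(3,66528)]) (25,[(2,10965),(0,23),(3,2637)]) (50,[(2,15490),(0,43),(3,33167)]))) (.leaf false ⟨⟨-207,354,-86⟩,⟨-114,31,402⟩,⟨346,222,81⟩⟩ (33,[(1,53),(3,28425),(0,59)]) (198,[(1,81115),(3,33918),(0,31)]) (33,[(1,4486),(3,2124),(0,37)]))) (.node ⟨22,399,126⟩ (.node ⟨126,114,-383⟩ (.leaf false ⟨⟨-399,58,-114⟩,⟨22,399,126⟩,⟨126,114,-383⟩⟩ (399,[(2,52794),(4,160477),(1,58)]) (1,[(1,1)]) (1,[(0,1)])) (.leaf false ⟨⟨-402,-114,31⟩,⟨-86,207,-354⟩,⟨-81,346,222⟩⟩ (419,[(2,552242),(0,1385),(1,276)]) (7961,[(2,6052874),(0,6478),(1,5981)]) (47766,[(2,11346101),(0,39931),(1,52830)])))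 (.node ⟨-401,42,114⟩ (.leaf false ⟨⟨-414,49,42⟩,⟨-63,-366,-194⟩,⟨-14,198,-369⟩⟩ (401,[(2,30354),(0,414),(3,2261)]) (53641,[(2,4780280),(1,49804),(0,5695)]) (11,[(2,3177),(1,7),(3,4971)])) (.leaf false ⟨⟨-414,-14,-63⟩,⟨42,-369,-194⟩,⟨49,198,-366⟩⟩ (2,[(1,1),(4,806),(3,371)]) (6699,[(1,5653),(4,1660228),(0,5152)]) (19,[(4,23530),(3,6324),(0,61)]))))) (.node ⟨0,0,1⟩ (.node ⟨22,126,399⟩ (.node ⟨126,-383,114⟩ (.leaf false ⟨⟨-399,-114,58⟩,⟨22,126,399⟩,⟨126,-383,114⟩⟩ (399,[(4,160477),(3,52794),(1,58)]) (1,[(1,1)]) (1,[(0,1)])) (.leaf false ⟨⟨-402,31,-114⟩,⟨-86,-354,207⟩,⟨-81,222,346⟩⟩ (419,[(3,552242),(1,276),(0,1385)]) (7961,[(3,6052874),(1,5981),(0,6478)]) (47766,[(3,11346101),(1,52830),(0,39931)]))) (.node ⟨-401,114,42⟩ (.leaf false ⟨⟨-414,42,49⟩,⟨-63,-194,-366⟩,⟨-14,-369,198⟩⟩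 (401,[(2,2261),(0,414),(3,30354)]) (53641,[(0,5695),(1,49804),(3,4780280)]) (11,[(2,4971),(1,7),(3,3177)])) (.leaf false ⟨⟨-414,-63,-14⟩,⟨42,-194,-369⟩,⟨49,-366,198⟩⟩ (2,[(2,371),(4,806),(1,1)]) (6699,[(4,1660228),(1,5653),(0,5152)]) (19,[(2,6324),(4,23530),(0,61)])))) (.leaf false ⟨⟨-419,0,0⟩,⟨0,-419,0⟩,⟨0,0,-419⟩⟩ (1,[(2,419)]) (1,[(1,419)]) (1,[(0,419)]))))
theorem pf419_ok : pf419.check (ok 419 6 ⟨5, 5, 5⟩) (fun _ r => r) [] = true := by decide +kernel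

def pf421 : T := .node ⟨1,0,0⟩ (.node ⟨0,1,0⟩ (.node ⟨0,0,1⟩ (.leaf false ⟨⟨0,0,421⟩,⟨0,421,0⟩,⟨421,0,0⟩⟩ (1,[(0,421)]) (1,[(1,421)]) (1,[(2,421)])) (.node ⟨-29,0,-420⟩ (.leaf false ⟨⟨-29,0,-420⟩,⟨0,421,0⟩,⟨420,0,-29⟩⟩ (1,[(0,1)]) (1,[(2,421)]) (420,[(3,177241),(0,29)])) (.node ⟨312,-101,264⟩ (.leaf false ⟨⟨21,196,-372⟩,⟨84,363,196⟩,⟨412,-84,-21⟩⟩ (29,[(2,19608),(1,21),(3,5684)]) (29,[(2,29596),(1,84),(3,10527)]) (78,[(2,28830),(0,103),(3,3851)])) (.leaf false ⟨⟨-380,171,60⟩,⟨21,180,-380⟩,⟨180,340,171⟩⟩ (2929,[(2,4803324),(1,14972),(0,4959)]) (2929,[(2,24212960),(1,58281),(0,5220)]) (2929,[(2,49085301),(1,124260),(0,9860)]))))) (.node ⟨0,0,1⟩ (.node ⟨-29,-420,0⟩ (.leaf false ⟨⟨-29,-420,0⟩,⟨0,0,421⟩,⟨420,-29,0⟩⟩ (1,[(0,1)]) (1,[(1,421)]) (420,[(3,177241),(0,29)]))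 (.node ⟨312,264,-101⟩ (.leaf false ⟨⟨21,-372,196⟩,⟨84,196,363⟩,⟨412,-21,-84⟩⟩ (29,[(2,5684),(1,21),(3,19608)]) (29,[(2,10527),(1,84),(3,29596)]) (78,[(2,3851),(0,103),(3,28830)])) (.leaf false ⟨⟨-380,21,180⟩,⟨60,-380,171⟩,⟨171,180,340⟩⟩ (2929,[(1,17780),(3,6028011),(0,5220)]) (2929,[(1,59412),(3,24756884),(0,4959)]) (2929,[(1,123351),(3,48677160),(0,9860)])))) (.node ⟨-21,-420,-20⟩ (.node ⟨-20,21,-420⟩ (.leaf false ⟨⟨-21,-420,-20⟩,⟨-20,21,-420⟩,⟨420,-20,-21⟩⟩ (1,[(1,1)]) (1,[(0,1)]) (20,[(4,8420),(3,421),(0,1)])) (.node ⟨0,-29,420⟩ (.leaf false ⟨⟨0,-420,-29⟩,⟨0,-29,420⟩,⟨421,0,0⟩⟩ (1,[(3,9),(5,21),(2,1)]) (1,[(0,1)]) (1,[(5,421)])) (.leaf false ⟨⟨72,-389,-144⟩,⟨259,-72,324⟩,⟨324,144,-227⟩⟩ (867260,[(1,4065309),(2,898260),(0,4319881)]) (433630,[(1,5784443),(2,160890),(0,5442267)])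 (3469040,[(1,56209683),(2,10700),(0,58084107)])))) (.leaf false ⟨⟨21,412,-84⟩,⟨196,-84,-363⟩,⟨372,21,196⟩⟩ (1,[(1,104),(0,1),(2,8)]) (3,[(1,1649),(0,28),(2,12012)]) (7,[(1,1108),(0,124),(2,51933)]))))) (.node ⟨0,1,0⟩ (.node ⟨0,0,1⟩ (.node ⟨-420,-29,0⟩ (.leaf false ⟨⟨-420,-29,0⟩,⟨-29,420,0⟩,⟨0,0,421⟩⟩ (1,[(0,1)]) (420,[(0,29),(2,177241)]) (1,[(1,421)])) (.node ⟨264,312,-101⟩ (.leaf false ⟨⟨-372,21,196⟩,⟨-21,412,-84⟩,⟨196,84,363⟩⟩ (29,[(2,5684),(4,19608),(1,21)]) (78,[(2,3851),(4,28830),(0,103)]) (29,[(2,10527),(4,29596),(1,84)])) (.leaf false ⟨⟨-389,-144,72⟩,⟨-72,324,259⟩,⟨144,-227,324⟩⟩ (2929,[(4,3914549),(1,7920),(0,2088)]) (2929,[(4,45911424),(1,113532),(0,7511)]) (2929,[(4,29925300),(1,78161),(0,9396)])))) (.node ⟨-420,-21,-20⟩ (.node ⟨21,-20,-420⟩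 (.leaf false ⟨⟨-420,-21,-20⟩,⟨-20,420,-21⟩,⟨21,-20,-420⟩⟩ (1,[(1,1)]) (20,[(4,421),(3,8420),(0,1)]) (1,[(0,1)])) (.node ⟨-29,0,420⟩ (.leaf false ⟨⟨-420,0,-29⟩,⟨-29,0,420⟩,⟨0,421,0⟩⟩ (1,[(3,9),(2,1),(4,21)]) (1,[(0,1)]) (1,[(4,421)])) (.leaf false ⟨⟨-389,72,-144⟩,⟨-72,259,324⟩,⟨144,324,-227⟩⟩ (867260,[(2,898260),(1,4065309),(0,4319881)]) (433630,[(2,160890),(1,5784443),(0,5442267)]) (3469040,[(2,10700),(1,56209683),(0,58084107)])))) (.leaf false ⟨⟨-380,171,60⟩,⟨21,180,-380⟩,⟨180,340,171⟩⟩ (7,[(1,720),(3,26600),(0,57)]) (7,[(1,3860),(3,25053),(0,60)]) (21,[(1,3209),(3,139020),(0,340)])))) (.node ⟨0,0,1⟩ (.node ⟨-420,-20,-21⟩ (.node ⟨21,-420,-20⟩ (.leaf false ⟨⟨-420,-20,-21⟩,⟨-20,-21,420⟩,⟨21,-420,-20⟩⟩ (1,[(1,1)]) (20,[(2,8420),(4,421),(0,1)]) (1,[(0,1)]))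 (.node ⟨-29,420,0⟩ (.leaf false ⟨⟨-420,-29,0⟩,⟨-29,420,0⟩,⟨0,0,421⟩⟩ (1,[(3,21),(2,1),(4,9)]) (1,[(0,1)]) (1,[(3,421)])) (.leaf false ⟨⟨-389,-144,72⟩,⟨-72,324,259⟩,⟨144,-227,324⟩⟩ (867260,[(1,4065309),(2,898260),(0,4319881)]) (433630,[(1,5784443),(2,160890),(0,5442267)]) (3469040,[(1,56209683),(2,10700),(0,58084107)])))) (.leaf false ⟨⟨-380,21,180⟩,⟨60,-380,171⟩,⟨171,180,340⟩⟩ (7,[(3,27860),(2,1053),(0,60)]) (7,[(3,23520),(2,3800),(0,57)]) (21,[(3,139209),(2,3020),(0,340)]))) (.node ⟨-189,216,-308⟩ (.node ⟨-189,-308,216⟩ (.node ⟨-372,-56,189⟩ (.leaf false ⟨⟨-372,-56,189⟩,⟨-189,216,-308⟩,⟨-56,-357,-216⟩⟩ (1,[(0,1)]) (1,[(2,1)]) (27,[(3,7560),(1,8),(4,7175)])) (.leaf false ⟨⟨-372,-189,-56⟩,⟨-56,216,-357⟩,⟨189,-308,-216⟩⟩ (108,[(5,73569),(1,91),(0,136)])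 (421,[(2,372),(5,23576),(0,189)]) (61,[(5,36366),(1,93),(0,176)]))) (.leaf false ⟨⟨-408,-24,-101⟩,⟨61,276,-312⟩,⟨84,-317,-264⟩⟩ (216,[(4,107217),(3,36292),(0,101)]) (9,[(4,1908),(3,1520),(0,13)]) (9,[(4,1323),(3,6241),(0,11)]))) (.leaf false ⟨⟨-408,-101,-24⟩,⟨61,-312,276⟩,⟨84,-264,-317⟩⟩ (216,[(1,36292),(3,107217),(0,101)]) (9,[(1,1520),(3,1908),(0,13)]) (9,[(1,6241),(3,1323),(0,11)])))))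
theorem pf421_ok : pf421.check (ok 421 6 ⟨5, 5, 5⟩) (fun _ r => r) [] = true := by decide +kernel


end H34S
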