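import Pool.Agent.Lib.H34S.Cover

/-!
# H34S: certificates (generated), pentagonal numbers
-/

set_option autoImplicit false

namespace H34S

def pf431 : T := .node ⟨1,0,0⟩ (.node ⟨0,1,0⟩ (.node ⟨0,0,1⟩ (.node ⟨-210,181,330⟩ (.node ⟨69,390,-170⟩ (.leaf false ⟨⟨-210,181,330⟩,⟨69,390,-170⟩,⟨370,30,219⟩⟩ (1,[(1,1)]) (1,[(0,1)]) (13,[(2,3017),(4,4741),(0,1)])) (.leaf false ⟨⟨-210,69,370⟩,⟨181,390,30⟩,⟨330,-170,219⟩⟩ (431,[(3,77580),(1,339),(0,280)]) (11,[(4,2201),(3,4109),(1,1)]) (170,[(4,71211),(3,56510),(0,219)]))) (.leaf false ⟨⟨30,181,390⟩,⟨219,330,-170⟩,⟨370,-210,69⟩⟩ (7,[(1,3060),(0,1),(2,1448)]) (70,[(1,12190),(0,73),(2,36313)]) (21,[(1,13659),(0,37),(2,2287)]))) (.node ⟨411,54,118⟩ (.node ⟨-21,414,118⟩ (.node ⟨-62,114,-411⟩ (.leaf false ⟨⟨-62,114,-411⟩,⟨-21,414,118⟩,⟨426,37,-54⟩⟩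 (1,[(0,1)]) (1,[(1,1)]) (54,[(3,7282),(5,7797),(2,37)])) (.leaf false ⟨⟨-21,426,-62⟩,⟨118,-54,-411⟩,⟨414,37,114⟩⟩ (3879,[(3,730114),(0,42),(1,4003)]) (3879,[(3,5061664),(0,7953),(1,1684)]) (23274,[(3,73949687),(0,172173),(1,49490)]))) (.leaf false ⟨⟨21,-62,-426⟩,⟨118,411,-54⟩,⟨414,-114,37⟩⟩ (1,[(2,308),(0,1),(3,352)]) (411,[(2,36118),(1,118),(3,162549)]) (9516,[(2,302100),(0,3845),(1,9389)]))) (.node ⟨246,-197,-294⟩ (.leaf false ⟨⟨-390,-69,-170⟩,⟨30,370,-219⟩,⟨181,-210,-330⟩⟩ (59,[(4,11925),(3,519),(1,85)]) (118,[(4,93549),(3,55486),(1,219)]) (737,[(4,96578),(1,327),(0,696)])) (.leaf false ⟨⟨-422,54,-69⟩,⟨54,-107,-414⟩,⟨69,414,-98⟩⟩ (670,[(4,1044157),(0,918),(1,2679)]) (737,[(4,2338266),(0,973),(1,5010)]) (3685,[(4,35893998),(0,27072),(1,70511)]))))) (.node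 ⟨0,0,1⟩ (.node ⟨411,118,54⟩ (.node ⟨-21,118,414⟩ (.node ⟨-62,-411,114⟩ (.leaf false ⟨⟨-62,-411,114⟩,⟨-21,118,414⟩,⟨426,-54,37⟩⟩ (1,[(0,1)]) (1,[(1,1)]) (54,[(2,37),(5,7797),(4,7282)])) (.leaf false ⟨⟨-21,-62,426⟩,⟨118,-411,-54⟩,⟨414,114,37⟩⟩ (3879,[(4,730114),(1,4003),(0,42)]) (3879,[(4,5061664),(1,1684),(0,7953)]) (23274,[(4,73949687),(1,49490),(0,172173)]))) (.leaf false ⟨⟨21,-426,-62⟩,⟨118,-54,411⟩,⟨414,37,-114⟩⟩ (1,[(2,352),(0,1),(3,308)]) (411,[(2,162549),(1,118),(3,36118)]) (9516,[(1,9389),(0,3845),(3,302100)]))) (.node ⟨246,-294,-197⟩ (.leaf false ⟨⟨-390,-170,-69⟩,⟨30,-219,370⟩,⟨181,-330,-210⟩⟩ (59,[(2,519),(4,11925),(1,85)]) (118,[(2,55486),(4,93549),(1,219)]) (737,[(4,96578),(0,696),(1,327)])) (.leaf false ⟨⟨-422,-69,54⟩,⟨54,-414,-107⟩,⟨69,-98,414⟩⟩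 (670,[(4,1044157),(1,2679),(0,918)]) (737,[(4,2338266),(1,5010),(0,973)]) (3685,[(4,35893998),(1,70511),(0,27072)])))) (.node ⟨-107,-414,-54⟩ (.node ⟨-107,54,-414⟩ (.node ⟨414,69,-98⟩ (.leaf false ⟨⟨-107,54,-414⟩,⟨54,-422,-69⟩,⟨414,69,-98⟩⟩ (1,[(1,1)]) (6,[(5,431),(4,2586),(1,1)]) (1,[(0,1)])) (.leaf false ⟨⟨-426,-62,-21⟩,⟨37,-114,-414⟩,⟨54,-411,118⟩⟩ (23274,[(5,1986479),(0,26802),(1,7525)]) (3879,[(5,5651272),(0,11592),(1,6623)]) (3879,[(5,12083516),(0,27297),(1,5356)]))) (.node ⟨-107,-414,54⟩ (.leaf false ⟨⟨-107,-414,54⟩,⟨54,-69,-422⟩,⟨414,-98,69⟩⟩ (1,[(0,1)]) (6,[(3,2586),(5,431),(0,1)]) (27,[(3,18423),(5,5935),(1,49)])) (.leaf false ⟨⟨-98,-414,-69⟩,⟨69,54,-422⟩,⟨414,-107,54⟩⟩ (50076,[(0,21481),(1,3726),(2,71071)]) (37557,[(0,215830),(1,17091),(2,208702)])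 (11556,[(0,157228),(1,42195),(2,154711)])))) (.leaf false ⟨⟨21,-206,-378⟩,⟨154,357,-186⟩,⟨402,-126,91⟩⟩ (107,[(1,41580),(0,21),(2,30736)]) (107,[(1,28218),(0,154),(2,25557)]) (107,[(1,11971),(0,402),(2,179910)]))))) (.node ⟨0,1,0⟩ (.node ⟨0,0,1⟩ (.node ⟨118,54,411⟩ (.node ⟨118,414,-21⟩ (.node ⟨-411,114,-62⟩ (.leaf false ⟨⟨-411,114,-62⟩,⟨-54,37,426⟩,⟨118,414,-21⟩⟩ (1,[(0,1)]) (54,[(3,7797),(5,7282),(2,37)]) (1,[(1,1)])) (.leaf false ⟨⟨-414,-26,117⟩,⟨78,261,334⟩,⟨91,-342,246⟩⟩ (11637,[(5,15351358),(1,5863),(0,23946)]) (7758,[(5,21223733),(1,18086),(0,47919)]) (1293,[(5,2088626),(1,380),(0,5259)]))) (.leaf false ⟨⟨-426,-62,21⟩,⟨-54,411,118⟩,⟨37,-114,414⟩⟩ (1,[(4,308),(3,352),(0,1)]) (411,[(4,36118),(3,162549),(1,118)]) (9516,[(4,302100),(1,9389),(0,3845)]))) (.node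 ⟨-294,-197,246⟩ (.leaf false ⟨⟨-366,-197,114⟩,⟨-219,246,-278⟩,⟨-62,294,309⟩⟩ (24977,[(0,27313),(1,9420),(3,968872)]) (118,[(2,57205),(1,219),(3,40854)]) (59,[(2,30972),(1,31),(3,19020)])) (.leaf false ⟨⟨-426,-54,37⟩,⟨-62,411,-114⟩,⟨21,118,414⟩⟩ (335,[(2,1469594),(1,3093),(0,756)]) (3685,[(2,33298332),(1,66524),(0,25923)]) (1474,[(2,3751125),(1,6111),(0,2558)])))) (.node ⟨-54,-107,-414⟩ (.node ⟨-414,-107,54⟩ (.node ⟨-98,414,69⟩ (.leaf false ⟨⟨-414,-107,54⟩,⟨-98,414,69⟩,⟨-69,54,-422⟩⟩ (1,[(1,1)]) (1,[(0,1)]) (6,[(3,2586),(1,1),(4,431)])) (.leaf false ⟨⟨-426,-21,-62⟩,⟨37,-414,-114⟩,⟨54,118,-411⟩⟩ (11637,[(1,17735),(4,11728372),(0,24336)]) (7758,[(1,2873),(4,3332923),(0,15066)]) (3879,[(1,6092),(4,12648988),(0,27873)]))) (.node ⟨54,-107,-414⟩ (.leaf false ⟨⟨-422,54,-69⟩,⟨54,-107,-414⟩,⟨69,414,-98⟩⟩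 (6,[(5,2586),(4,431),(0,1)]) (1,[(0,1)]) (27,[(5,18423),(4,5935),(1,49)])) (.leaf false ⟨⟨-426,21,-62⟩,⟨-54,118,411⟩,⟨37,414,-114⟩⟩ (37557,[(2,194272),(0,190147),(1,11496)]) (3852,[(2,1427),(0,5300),(1,375)]) (150228,[(2,2044627),(0,2075101),(1,550782)])))) (.leaf false ⟨⟨-426,21,-62⟩,⟨-54,118,411⟩,⟨37,414,-114⟩⟩ (107,[(1,15328),(3,46716),(0,21)]) (107,[(1,4875),(3,12150),(0,118)]) (107,[(1,183594),(3,18397),(0,414)])))) (.node ⟨0,0,1⟩ (.node ⟨-54,-414,-107⟩ (.node ⟨-414,54,-107⟩ (.node ⟨-98,69,414⟩ (.leaf false ⟨⟨-414,54,-107⟩,⟨-98,69,414⟩,⟨-69,-422,54⟩⟩ (1,[(1,1)]) (1,[(0,1)]) (6,[(3,431),(1,1),(4,2586)])) (.leaf false ⟨⟨-426,-62,-21⟩,⟨37,-114,-414⟩,⟨54,-411,118⟩⟩ (11637,[(3,11728372),(1,17735),(0,24336)]) (7758,[(3,3332923),(1,2873),(0,15066)]) (3879,[(3,12648988),(1,6092),(0,27873)])))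 (.node ⟨54,-414,-107⟩ (.leaf false ⟨⟨-422,-69,54⟩,⟨54,-414,-107⟩,⟨69,-98,414⟩⟩ (6,[(3,431),(5,2586),(0,1)]) (1,[(0,1)]) (27,[(3,5935),(5,18423),(1,49)])) (.leaf false ⟨⟨-426,-62,21⟩,⟨-54,411,118⟩,⟨37,-114,414⟩⟩ (37557,[(2,194272),(1,11496),(0,190147)]) (3852,[(2,1427),(1,375),(0,5300)]) (150228,[(2,2044627),(1,550782),(0,2075101)])))) (.leaf false ⟨⟨-426,-62,21⟩,⟨-54,411,118⟩,⟨37,-114,414⟩⟩ (107,[(3,46716),(2,15328),(0,21)]) (107,[(3,12150),(2,4875),(0,118)]) (107,[(3,18397),(2,183594),(0,414)]))) (.leaf false ⟨⟨-431,0,0⟩,⟨0,-431,0⟩,⟨0,0,-431⟩⟩ (1,[(2,431)]) (1,[(1,431)]) (1,[(0,431)]))))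
theorem pf431_ok : pf431.check (ok 431 6 ⟨5, 5, 5⟩) (fun _ r => r) [] = true := by decide +kernel

def pf433 : T := .node ⟨1,0,0⟩ (.node ⟨0,1,0⟩ (.node ⟨0,0,1⟩ (.leaf false ⟨⟨0,0,433⟩,⟨0,433,0⟩,⟨433,0,0⟩⟩ (1,[(0,433)]) (1,[(1,433)]) (1,[(2,433)])) (.node ⟨0,408,145⟩ (.leaf false ⟨⟨0,145,-408⟩,⟨0,408,145⟩,⟨433,0,0⟩⟩ (408,[(1,187489),(0,145)]) (1,[(0,1)]) (1,[(3,433)])) (.node ⟨-108,-215,-360⟩ (.leaf false ⟨⟨-116,-87,-408⟩,⟨-12,424,-87⟩,⟨417,-12,-116⟩⟩ (15,[(4,96),(3,2350),(0,17)]) (120,[(4,1692),(3,57115),(0,29)]) (5,[(1,4),(4,2085),(3,1572)])) (.leaf false ⟨⟨0,433,0⟩,⟨145,0,-408⟩,⟨408,0,145⟩⟩ (1,[(3,433)]) (15660,[(1,96264),(0,21025),(3,34755337)]) (261,[(1,2187),(0,986),(3,680306)]))))) (.node ⟨0,0,1⟩ (.node ⟨0,145,408⟩ (.leaf false ⟨⟨0,-408,145⟩,⟨0,145,408⟩,⟨433,0,0⟩⟩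 (408,[(0,145),(2,187489)]) (1,[(0,1)]) (1,[(3,433)])) (.node ⟨-108,-360,-215⟩ (.leaf false ⟨⟨-116,-417,12⟩,⟨87,-12,424⟩,⟨408,-116,-87⟩⟩ (120,[(2,31325),(4,1092),(0,139)]) (30,[(2,12935),(4,2718),(0,1)]) (5,[(2,1197),(4,2040),(1,4)])) (.leaf false ⟨⟨0,0,433⟩,⟨145,-408,0⟩,⟨408,145,0⟩⟩ (1,[(2,433)]) (15660,[(2,34755337),(0,21025),(1,96264)]) (261,[(2,680306),(0,986),(1,2187)])))) (.node ⟨420,-8,105⟩ (.node ⟨-17,-408,144⟩ (.node ⟨-24,-143,-408⟩ (.leaf false ⟨⟨-24,-143,-408⟩,⟨-17,-408,144⟩,⟨432,-24,-17⟩⟩ (1,[(0,1)]) (1,[(1,1)]) (17,[(3,433),(5,7361),(1,1)])) (.leaf false ⟨⟨-12,-417,-116⟩,⟨87,-116,408⟩,⟨424,12,-87⟩⟩ (7361,[(3,2942668),(0,2193),(1,8292)]) (7361,[(3,14476056),(0,37468),(1,15225)]) (7361,[(3,79827447),(0,172788),(1,60344)]))) (.node ⟨417,60,100⟩ (.leaf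 false ⟨⟨60,208,-375⟩,⟨100,-375,-192⟩,⟨417,60,100⟩⟩ (4151,[(1,10920),(2,151),(4,3590744)]) (21,[(3,4557),(2,5),(4,7835)]) (1,[(0,1)])) (.leaf false ⟨⟨-399,-72,-152⟩,⟨-8,399,-168⟩,⟨168,-152,-369⟩⟩ (875401,[(1,408273),(2,2606232),(0,3479240)]) (3501604,[(1,4025033),(2,3378516),(0,3634089)]) (875401,[(1,2998476),(2,20023855),(0,19937472)])))) (.leaf false ⟨⟨-143,24,-408⟩,⟨-24,-432,-17⟩,⟨408,-17,-144⟩⟩ (35,[(3,52115),(2,248),(0,136)]) (105,[(3,4620),(2,45496),(0,17)]) (35,[(3,34440),(2,979),(0,48)]))))) (.node ⟨0,1,0⟩ (.node ⟨0,0,1⟩ (.node ⟨145,0,408⟩ (.leaf false ⟨⟨-408,0,145⟩,⟨0,433,0⟩,⟨145,0,408⟩⟩ (408,[(3,187489),(0,145)]) (1,[(2,433)]) (1,[(0,1)])) (.node ⟨-360,-108,-215⟩ (.leaf false ⟨⟨-417,-116,12⟩,⟨-116,408,-87⟩,⟨-12,87,424⟩⟩ (120,[(2,31325),(0,139),(3,1092)])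 (5,[(2,1197),(1,4),(3,2040)]) (30,[(2,12935),(0,1),(3,2718)])) (.leaf false ⟨⟨-432,9,28⟩,⟨-9,352,-252⟩,⟨28,252,351⟩⟩ (1740,[(2,2279497),(1,5544),(0,145)]) (3915,[(2,9294604),(1,31923),(0,12760)]) (15,[(2,32012),(1,84),(0,35)])))) (.node ⟨-8,420,105⟩ (.node ⟨-408,-17,144⟩ (.node ⟨-143,-24,-408⟩ (.leaf false ⟨⟨-408,-17,144⟩,⟨-143,-24,-408⟩,⟨-24,432,-17⟩⟩ (1,[(1,1)]) (1,[(0,1)]) (17,[(3,433),(1,1),(4,7361)])) (.leaf false ⟨⟨-432,9,28⟩,⟨-9,352,-252⟩,⟨28,252,351⟩⟩ (7361,[(3,5966740),(1,11655),(0,11016)]) (7361,[(3,67792212),(1,50552),(0,143769)]) (7361,[(3,44263425),(1,35364),(0,102340)]))) (.node ⟨60,417,100⟩ (.leaf false ⟨⟨-375,100,-192⟩,⟨60,417,100⟩,⟨208,60,-375⟩⟩ (21,[(3,4557),(5,7835),(2,5)]) (1,[(0,1)]) (4151,[(5,3590744),(2,151),(1,10920)])) (.leaf false ⟨⟨-432,-24,-17⟩,⟨-17,408,-144⟩,⟨24,-143,-408⟩⟩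 (875401,[(2,7090887),(1,271458),(0,7203350)]) (3501604,[(2,45573940),(1,7036329),(0,42762633)]) (875401,[(2,15111864),(1,2646137),(0,15628656)])))) (.leaf false ⟨⟨-432,-24,-17⟩,⟨-17,408,-144⟩,⟨24,-143,-408⟩⟩ (105,[(3,45496),(2,4620),(0,17)]) (35,[(3,979),(2,34440),(0,48)]) (35,[(3,248),(2,52115),(0,136)])))) (.node ⟨0,0,1⟩ (.node ⟨-8,105,420⟩ (.node ⟨-408,144,-17⟩ (.node ⟨-143,-408,-24⟩ (.leaf false ⟨⟨-408,144,-17⟩,⟨-143,-408,-24⟩,⟨-24,-17,432⟩⟩ (1,[(1,1)]) (1,[(0,1)]) (17,[(3,7361),(1,1),(4,433)])) (.leaf false ⟨⟨-432,-9,28⟩,⟨9,352,252⟩,⟨28,-252,351⟩⟩ (7361,[(1,14372),(4,9793161),(0,18768)]) (7361,[(1,35820),(4,44453512),(0,102663)]) (433,[(1,2913),(4,3954156),(0,8396)]))) (.node ⟨60,100,417⟩ (.leaf false ⟨⟨-375,-192,100⟩,⟨60,100,417⟩,⟨208,-375,60⟩⟩ (21,[(2,5),(5,7835),(4,4557)])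 (1,[(0,1)]) (4151,[(2,151),(5,3590744),(1,10920)])) (.leaf false ⟨⟨-432,-17,-24⟩,⟨-17,-144,408⟩,⟨24,-408,-143⟩⟩ (875401,[(2,7090887),(0,7203350),(1,271458)]) (3501604,[(2,45573940),(0,42762633),(1,7036329)]) (875401,[(2,15111864),(0,15628656),(1,2646137)])))) (.leaf false ⟨⟨-432,-17,-24⟩,⟨-17,-144,408⟩,⟨24,-408,-143⟩⟩ (105,[(1,4620),(3,45496),(0,17)]) (35,[(1,34440),(3,979),(0,48)]) (35,[(1,52115),(3,248),(0,136)]))) (.node ⟨-152,276,-297⟩ (.node ⟨-396,-33,172⟩ (.leaf false ⟨⟨-396,-33,172⟩,⟨-152,276,-297⟩,⟨-87,-332,-264⟩⟩ (1,[(0,1)]) (1,[(1,1)]) (132,[(2,39836),(0,29),(3,42867)])) (.leaf false ⟨⟨-332,-264,-87⟩,⟨-33,172,-396⟩,⟨276,-297,-152⟩⟩ (99,[(1,29),(4,28460),(3,34140)]) (37671,[(1,16516),(4,21784663),(0,58212)]) (43,[(4,3180),(3,14025),(0,38)]))) (.leaf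 false ⟨⟨-417,-44,-108⟩,⟨-44,-312,297⟩,⟨108,-297,-296⟩⟩ (69,[(1,10719),(3,30445),(0,11)]) (23,[(1,891),(3,4964),(0,26)]) (92,[(1,56635),(3,5112),(0,99)])))))
theorem pf433_ok : pf433.check (ok 433 6 ⟨5, 5, 5⟩) (fun _ r => r) [] = true := by decide +kernel

def pf439 : T := .node ⟨1,0,0⟩ (.node ⟨0,1,0⟩ (.node ⟨0,0,1⟩ (.leaf false ⟨⟨0,0,439⟩,⟨0,439,0⟩,⟨439,0,0⟩⟩ (1,[(0,439)]) (1,[(1,439)]) (1,[(2,439)])) (.node ⟨-227,294,-234⟩ (.node ⟨189,354,178⟩ (.node ⟨394,-147,-126⟩ (.leaf false ⟨⟨-42,214,-381⟩,⟨189,354,178⟩,⟨394,-147,-126⟩⟩ (147,[(3,30969),(5,18115),(2,107)]) (1,[(1,1)]) (1,[(0,1)])) (.leaf false ⟨⟨-326,291,42⟩,⟨3,66,-434⟩,⟨294,322,51⟩⟩ (49,[(3,10164),(5,22244),(0,97)]) (49,[(3,24038),(5,8815),(0,22)]) (21,[(3,4725),(5,24298),(0,46)]))) (.leaf false ⟨⟨-258,-141,-326⟩,⟨106,354,-237⟩,⟨339,-218,-174⟩⟩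 (89,[(4,7845),(3,45153),(0,163)]) (178,[(4,63661),(3,146910),(0,237)]) (89,[(4,46614),(3,11396),(0,87)]))) (.leaf false ⟨⟨6,381,-218⟩,⟨286,162,291⟩,⟨333,-146,-246⟩⟩ (227,[(1,50890),(0,6),(2,88251)]) (227,[(1,867),(0,286),(2,120858)]) (227,[(1,133764),(0,333),(2,64760)])))) (.node ⟨0,0,1⟩ (.node ⟨-227,-234,294⟩ (.node ⟨189,178,354⟩ (.node ⟨394,-126,-147⟩ (.leaf false ⟨⟨-42,-381,214⟩,⟨189,178,354⟩,⟨394,-126,-147⟩⟩ (147,[(5,18115),(4,30969),(2,107)]) (1,[(1,1)]) (1,[(0,1)])) (.leaf false ⟨⟨-326,3,294⟩,⟨42,-434,51⟩,⟨291,66,322⟩⟩ (1,[(5,462),(4,249),(0,2)]) (49,[(5,8756),(4,23408),(0,17)]) (21,[(5,24235),(4,4410),(0,46)]))) (.leaf false ⟨⟨-258,-354,-29⟩,⟨66,-83,426⟩,⟨349,-246,-102⟩⟩ (89,[(2,60077),(4,10491),(0,177)]) (178,[(2,105210),(4,27435),(0,83)]) (89,[(2,34464),(4,54308),(0,123)])))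 (.leaf false ⟨⟨6,-218,381⟩,⟨286,291,162⟩,⟨333,-246,-146⟩⟩ (227,[(1,88251),(0,6),(2,50890)]) (227,[(1,120858),(0,286),(2,867)]) (227,[(1,64760),(0,333),(2,133764)]))) (.node ⟨-146,-402,-99⟩ (.node ⟨-146,3,-414⟩ (.node ⟨402,106,-141⟩ (.leaf false ⟨⟨-146,3,-414⟩,⟨99,-426,-38⟩,⟨402,106,-141⟩⟩ (1,[(1,1)]) (99,[(5,15349),(4,26898),(2,38)]) (1,[(0,1)])) (.leaf false ⟨⟨-390,-189,70⟩,⟨70,-270,-339⟩,⟨189,-290,270⟩⟩ (43461,[(5,17228116),(0,78036),(1,19229)]) (14487,[(5,19730416),(0,37599),(1,24668)]) (14487,[(5,19314683),(0,39750),(1,4090)]))) (.leaf false ⟨⟨-102,-426,-29⟩,⟨246,-83,354⟩,⟨349,-66,-258⟩⟩ (9855,[(2,716760),(0,3532),(1,10417)]) (741,[(4,106220),(0,669),(1,148)]) (67,[(2,16197),(4,24989),(1,11)]))) (.leaf false ⟨⟨51,42,-434⟩,⟨294,-326,3⟩,⟨322,291,66⟩⟩ (146,[(1,68413),(0,51),(2,14370)])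 (73,[(1,14334),(0,147),(2,82892)]) (73,[(1,11121),(0,161),(2,43479)]))))) (.node ⟨0,1,0⟩ (.node ⟨0,0,1⟩ (.node ⟨-234,294,-227⟩ (.node ⟨178,354,189⟩ (.node ⟨-126,-147,394⟩ (.leaf false ⟨⟨-381,214,-42⟩,⟨-126,-147,394⟩,⟨178,354,189⟩⟩ (147,[(3,18115),(5,30969),(2,107)]) (1,[(0,1)]) (1,[(1,1)])) (.leaf false ⟨⟨-434,51,42⟩,⟨3,294,-326⟩,⟨66,322,291⟩⟩ (49,[(3,8756),(5,23408),(0,17)]) (1,[(3,462),(5,249),(0,2)]) (21,[(3,24235),(5,4410),(0,46)]))) (.leaf false ⟨⟨-402,-174,-29⟩,⟨-174,403,-6⟩,⟨-29,-6,438⟩⟩ (89,[(2,35408),(0,201),(3,55668)]) (89,[(2,15909),(0,87),(3,66665)]) (178,[(2,83445),(0,29),(3,9198)]))) (.leaf false ⟨⟨-434,3,66⟩,⟨42,-326,291⟩,⟨51,294,322⟩⟩ (227,[(3,113962),(2,20085),(0,66)]) (227,[(3,58560),(2,11552),(0,291)]) (227,[(3,63771),(2,161406),(0,322)])))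 (.node ⟨-99,-146,-402⟩ (.node ⟨-414,-146,3⟩ (.node ⟨-141,402,106⟩ (.leaf false ⟨⟨-414,-146,3⟩,⟨-141,402,106⟩,⟨-38,99,-426⟩⟩ (1,[(1,1)]) (1,[(0,1)]) (99,[(3,26898),(2,38),(4,15349)])) (.leaf false ⟨⟨-434,-66,3⟩,⟨-51,322,-294⟩,⟨42,-291,-326⟩⟩ (43461,[(1,45581),(4,3810520),(0,60)]) (1317,[(1,1420),(4,2115980),(0,3693)]) (1317,[(1,1258),(4,1442993),(0,4086)]))) (.leaf false ⟨⟨-402,99,-146⟩,⟨106,426,-3⟩,⟨141,-38,-414⟩⟩ (201,[(1,73),(4,73575),(3,30557)]) (1,[(4,308),(3,280),(0,1)]) (18525,[(1,18997),(3,485220),(0,10852)]))) (.leaf false ⟨⟨-434,51,42⟩,⟨3,294,-326⟩,⟨66,322,291⟩⟩ (146,[(1,14370),(3,68413),(0,51)]) (73,[(1,82892),(3,14334),(0,147)]) (73,[(1,43479),(3,11121),(0,161)])))) (.node ⟨0,0,1⟩ (.node ⟨-99,-402,-146⟩ (.node ⟨-414,3,-146⟩ (.node ⟨-141,106,402⟩ (.leaf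 false ⟨⟨-414,3,-146⟩,⟨-141,106,402⟩,⟨-38,-426,99⟩⟩ (1,[(1,1)]) (1,[(0,1)]) (99,[(3,15349),(2,38),(4,26898)])) (.leaf false ⟨⟨-434,-42,51⟩,⟨-3,-326,-294⟩,⟨66,-291,322⟩⟩ (43461,[(3,17311087),(1,51926),(0,18690)]) (14487,[(3,16079692),(1,15428),(0,44991)]) (14487,[(3,22438168),(1,11345),(0,40092)]))) (.leaf false ⟨⟨-402,-146,99⟩,⟨106,-3,426⟩,⟨141,-414,-38⟩⟩ (201,[(2,30557),(4,73575),(1,73)]) (1,[(2,280),(4,308),(0,1)]) (18525,[(2,485220),(1,18997),(0,10852)]))) (.leaf false ⟨⟨-434,3,66⟩,⟨42,-326,291⟩,⟨51,294,322⟩⟩ (73,[(3,34949),(2,13047),(0,33)]) (146,[(3,22677),(2,164578),(0,291)]) (73,[(3,12216),(2,43260),(0,161)]))) (.node ⟨-198,259,-294⟩ (.node ⟨-354,-218,141⟩ (.node ⟨141,-326,-258⟩ (.leaf false ⟨⟨-354,-237,106⟩,⟨-218,174,-339⟩,⟨141,-326,-258⟩⟩ (1,[(3,35),(1,1),(4,19)])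 (99,[(3,1515),(2,109),(4,11005)]) (1,[(0,1)])) (.leaf false ⟨⟨-381,-218,6⟩,⟨-162,291,286⟩,⟨-146,246,-333⟩⟩ (47,[(3,32484),(0,127),(4,51648)]) (47,[(3,490),(0,54),(4,3927)]) (141,[(3,84621),(0,146),(4,12910)]))) (.leaf false ⟨⟨-434,51,-42⟩,⟨-3,-294,-326⟩,⟨66,322,-291⟩⟩ (47,[(4,25354),(3,655),(0,14)]) (141,[(4,115827),(3,112522),(0,326)]) (47,[(4,31236),(3,6012),(0,97)]))) (.leaf false ⟨⟨-390,-189,70⟩,⟨70,-270,-339⟩,⟨189,-290,270⟩⟩ (37,[(1,5348),(3,19776),(0,27)]) (259,[(1,167181),(3,35330),(0,270)]) (259,[(1,15330),(3,8469),(0,290)])))))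
theorem pf439_ok : pf439.check (ok 439 6 ⟨5, 5, 5⟩) (fun _ r => r) [] = true := by decide +kernel

def pf443 : T := .node ⟨1,0,0⟩ (.node ⟨0,1,0⟩ (.node ⟨0,0,1⟩ (.node ⟨-42,-42,439⟩ (.leaf false ⟨⟨-42,-42,439⟩,⟨-2,441,42⟩,⟨441,-2,42⟩⟩ (1,[(0,1)]) (439,[(3,886),(2,195363),(0,42)]) (439,[(3,195363),(2,886),(0,42)])) (.node ⟨-90,430,57⟩ (.leaf false ⟨⟨-90,430,57⟩,⟨295,18,330⟩,⟨318,105,-290⟩⟩ (1,[(0,1)]) (7,[(2,3627),(4,1939),(1,3)]) (2,[(2,1615),(4,426),(1,5)])) (.leaf false ⟨⟨18,105,430⟩,⟨295,318,-90⟩,⟨330,-290,57⟩⟩ (5,[(2,2207),(0,1),(3,955)]) (18,[(2,1743),(0,59),(3,31094)]) (3,[(2,798),(0,11),(3,3860)])))) (.node ⟨-153,106,-402⟩ (.node ⟨78,423,106⟩ (.node ⟨414,-38,-153⟩ (.leaf false ⟨⟨-137,126,-402⟩,⟨78,423,106⟩,⟨414,-38,-153⟩⟩ (1,[(5,16),(4,20),(2,1)]) (1,[(1,1)])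 (1,[(0,1)])) (.leaf false ⟨⟨-423,106,-78⟩,⟨-38,153,414⟩,⟨126,402,-137⟩⟩ (19,[(3,9591),(5,13905),(0,53)]) (38,[(3,7677),(5,61898),(0,153)]) (19,[(3,33356),(5,85608),(0,201)]))) (.leaf false ⟨⟨-231,-2,-378⟩,⟨198,-378,-119⟩,⟨322,231,-198⟩⟩ (53,[(4,2499),(3,79841),(0,189)]) (106,[(4,30270),(3,10269),(0,119)]) (53,[(4,24788),(3,54120),(0,99)]))) (.leaf false ⟨⟨87,358,-246⟩,⟨214,183,342⟩,⟨378,-186,-137⟩⟩ (51,[(1,24204),(0,29),(2,21332)]) (153,[(1,33702),(0,214),(2,50683)]) (17,[(1,19213),(0,42),(2,1290)])))) (.node ⟨0,0,1⟩ (.node ⟨-153,-402,106⟩ (.node ⟨78,106,423⟩ (.node ⟨414,-153,-38⟩ (.leaf false ⟨⟨-137,-402,126⟩,⟨78,106,423⟩,⟨414,-153,-38⟩⟩ (1,[(3,20),(5,16),(2,1)]) (1,[(1,1)]) (1,[(0,1)])) (.leaf false ⟨⟨-423,-78,106⟩,⟨-38,414,153⟩,⟨126,-137,402⟩⟩ (19,[(5,13905),(4,9591),(0,53)])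 (38,[(5,61898),(4,7677),(0,153)]) (19,[(5,85608),(4,33356),(0,201)]))) (.leaf false ⟨⟨-231,-378,-2⟩,⟨198,-119,-378⟩,⟨322,-198,231⟩⟩ (53,[(2,79841),(4,2499),(0,189)]) (106,[(2,10269),(4,30270),(0,119)]) (53,[(2,54120),(4,24788),(0,99)]))) (.leaf false ⟨⟨87,-246,358⟩,⟨214,342,183⟩,⟨378,-137,-186⟩⟩ (51,[(1,21332),(0,29),(2,24204)]) (153,[(1,50683),(0,214),(2,33702)]) (17,[(1,1290),(0,42),(2,19213)]))) (.node ⟨-42,-441,-2⟩ (.node ⟨322,198,-231⟩ (.node ⟨-198,-119,-378⟩ (.leaf false ⟨⟨-198,-119,-378⟩,⟨231,-378,-2⟩,⟨322,198,-231⟩⟩ (1,[(0,1)]) (189,[(5,43857),(4,71323),(0,1)]) (1,[(1,1)])) (.leaf false ⟨⟨-42,-441,-2⟩,⟨42,-2,-441⟩,⟨439,-42,42⟩⟩ (1,[(2,1)]) (9549,[(3,3902830),(1,1329),(2,640)]) (157000,[(1,158620),(0,114999),(2,117201)]))) (.leaf false ⟨⟨-263,-258,-246⟩,⟨42,-326,297⟩,⟨354,-153,-218⟩⟩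 (33,[(2,18051),(4,5167),(0,43)]) (99,[(2,8250),(4,56644),(0,163)]) (22,[(2,8723),(4,13262),(0,17)]))) (.node ⟨358,183,186⟩ (.leaf false ⟨⟨7,-210,-390⟩,⟨210,345,-182⟩,⟨390,-182,105⟩⟩ (6,[(2,2342),(1,1),(3,1701)]) (1,[(2,192),(1,5),(3,1860)]) (179,[(2,17475),(0,195),(3,68263)])) (.leaf false ⟨⟨-330,-57,-290⟩,⟨18,430,-105⟩,⟨295,-90,-318⟩⟩ (887,[(1,5305),(3,2126544),(0,1440)]) (3548,[(1,20469),(3,7094380),(0,2223)]) (3548,[(1,84357),(3,36244698),(0,6973)])))))) (.node ⟨0,1,0⟩ (.node ⟨0,0,1⟩ (.node ⟨-402,-153,106⟩ (.node ⟨106,78,423⟩ (.node ⟨-153,414,-38⟩ (.leaf false ⟨⟨-402,-137,126⟩,⟨-153,414,-38⟩,⟨106,78,423⟩⟩ (1,[(3,20),(2,1),(4,16)]) (1,[(0,1)]) (1,[(1,1)])) (.leaf false ⟨⟨-438,-57,34⟩,⟨7,186,402⟩,⟨66,-398,183⟩⟩ (19,[(5,10923),(4,5955),(0,17)]) (19,[(5,30620),(4,86748),(0,201)])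 (38,[(5,25491),(4,60638),(0,183)]))) (.leaf false ⟨⟨-414,-153,-38⟩,⟨-137,402,-126⟩,⟨-78,106,423⟩⟩ (53,[(2,85547),(0,207),(3,8037)]) (106,[(2,44595),(0,137),(3,53298)]) (53,[(2,38916),(0,39),(3,8660)]))) (.leaf false ⟨⟨-290,318,-105⟩,⟨-57,90,430⟩,⟨330,295,-18⟩⟩ (51,[(1,5881),(3,57402),(0,106)]) (17,[(1,8370),(3,4989),(0,10)]) (153,[(1,28516),(3,68100),(0,295)]))) (.node ⟨-441,-42,-2⟩ (.node ⟨198,322,-231⟩ (.node ⟨-119,-198,-378⟩ (.leaf false ⟨⟨-378,231,-2⟩,⟨-119,-198,-378⟩,⟨198,322,-231⟩⟩ (189,[(5,71323),(4,43857),(0,1)]) (1,[(0,1)]) (1,[(1,1)])) (.leaf false ⟨⟨-441,-42,-2⟩,⟨-42,439,42⟩,⟨-2,42,-441⟩⟩ (1,[(2,1)]) (157000,[(2,117201),(0,114999),(1,158620)]) (9549,[(3,3902830),(2,640),(1,1329)]))) (.leaf false ⟨⟨-441,-42,-2⟩,⟨-42,439,42⟩,⟨-2,42,-441⟩⟩ (22,[(2,11363),(0,49),(3,14854)])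 (33,[(2,231),(0,7),(3,16741)]) (99,[(2,43890),(0,1),(3,4480)]))) (.node ⟨183,358,186⟩ (.leaf false ⟨⟨-438,34,-57⟩,⟨7,402,186⟩,⟨66,183,-398⟩⟩ (21,[(2,1231),(4,16695),(1,17)]) (179,[(2,4092),(4,35530),(0,201)]) (14,[(2,5694),(4,25977),(1,61)])) (.leaf false ⟨⟨-441,42,-2⟩,⟨-2,-42,-441⟩,⟨42,439,-42⟩⟩ (887,[(4,857430),(1,1066),(0,21)]) (3548,[(4,31409572),(1,75033),(0,9219)]) (3548,[(4,20929386),(1,48345),(0,1321)]))))) (.node ⟨0,0,1⟩ (.node ⟨-441,-2,-42⟩ (.node ⟨198,-231,322⟩ (.node ⟨-119,-378,-198⟩ (.leaf false ⟨⟨-378,-2,231⟩,⟨-119,-378,-198⟩,⟨198,-231,322⟩⟩ (189,[(3,43857),(5,71323),(0,1)]) (1,[(0,1)]) (1,[(1,1)])) (.leaf false ⟨⟨-441,-18,-38⟩,⟨-38,342,279⟩,⟨-18,-281,342⟩⟩ (2940,[(2,2957),(4,70820),(0,63)]) (5488,[(2,2715),(4,1258476),(0,8309)]) (7427,[(2,4084),(4,133568),(1,8421)])))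 (.leaf false ⟨⟨-441,-2,-42⟩,⟨-42,42,439⟩,⟨-2,-441,42⟩⟩ (22,[(2,14854),(0,49),(3,11363)]) (33,[(2,16741),(0,7),(3,231)]) (99,[(2,4480),(0,1),(3,43890)]))) (.node ⟨183,186,358⟩ (.leaf false ⟨⟨-438,-57,34⟩,⟨7,186,402⟩,⟨66,-398,183⟩⟩ (21,[(4,16695),(3,1231),(1,17)]) (179,[(4,35530),(3,4092),(0,201)]) (14,[(4,25977),(3,5694),(1,61)])) (.leaf false ⟨⟨-441,-2,42⟩,⟨-2,-441,-42⟩,⟨42,-42,439⟩⟩ (887,[(4,857430),(0,21),(1,1066)]) (3548,[(4,31409572),(0,9219),(1,75033)]) (3548,[(4,20929386),(0,1321),(1,48345)])))) (.leaf false ⟨⟨-443,0,0⟩,⟨0,-443,0⟩,⟨0,0,-443⟩⟩ (1,[(2,443)]) (1,[(1,443)]) (1,[(0,443)]))))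
theorem pf443_ok : pf443.check (ok 443 6 ⟨5, 5, 5⟩) (fun _ r => r) [] = true := by decide +kernel

def pf449 : T := .node ⟨1,0,0⟩ (.node ⟨0,1,0⟩ (.node ⟨0,0,1⟩ (.node ⟨-84,-84,433⟩ (.leaf false ⟨⟨-84,-84,433⟩,⟨-8,441,84⟩,⟨441,-8,84⟩⟩ (1,[(0,1)]) (433,[(3,3592),(2,198009),(0,84)]) (433,[(3,198009),(2,3592),(0,84)])) (.node ⟨-144,424,33⟩ (.leaf false ⟨⟨-144,424,33⟩,⟨289,72,336⟩,⟨312,129,-296⟩⟩ (1,[(0,1)]) (7,[(2,4950),(4,1519),(1,6)]) (28,[(2,10331),(4,5124),(1,43)])) (.leaf false ⟨⟨60,324,-305⟩,⟨135,280,324⟩,⟨424,-135,-60⟩⟩ (7,[(2,30),(1,5),(3,1848)]) (16,[(2,5679),(0,15),(3,10840)]) (18,[(2,669),(0,53),(3,20042)])))) (.node ⟨336,204,217⟩ (.node ⟨136,-129,-408⟩ (.node ⟨-96,408,-161⟩ (.leaf false ⟨⟨-96,408,-161⟩,⟨136,-129,-408⟩,⟨417,136,96⟩⟩ (1,[(0,1)]) (1,[(1,1)])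 (3,[(3,146),(5,579),(2,2)])) (.leaf false ⟨⟨0,0,-449⟩,⟨280,-351,0⟩,⟨351,280,0⟩⟩ (1,[(3,449)]) (12,[(3,5635),(0,35),(4,10068)]) (32,[(3,18837),(0,117),(4,56696)]))) (.leaf false ⟨⟨-305,324,-60⟩,⟨60,135,424⟩,⟨324,280,-135⟩⟩ (43,[(2,46644),(4,1573),(0,108)]) (43,[(2,128),(4,8700),(0,45)]) (129,[(2,131655),(4,79876),(0,280)]))) (.leaf false ⟨⟨-359,96,-252⟩,⟨144,423,-44⟩,⟨228,-116,-369⟩⟩ (31,[(3,967),(2,10320),(0,36)]) (217,[(3,46032),(2,100767),(0,44)]) (217,[(3,173460),(2,50104),(0,369)])))) (.node ⟨0,0,1⟩ (.node ⟨336,217,204⟩ (.node ⟨136,-408,-129⟩ (.node ⟨-96,-161,408⟩ (.leaf false ⟨⟨-96,-161,408⟩,⟨136,-408,-129⟩,⟨417,96,136⟩⟩ (1,[(0,1)]) (1,[(1,1)]) (3,[(2,2),(5,579),(4,146)])) (.leaf false ⟨⟨0,-449,0⟩,⟨280,0,-351⟩,⟨351,0,280⟩⟩ (1,[(4,449)]) (12,[(3,10068),(0,35),(4,5635)])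 (32,[(3,56696),(0,117),(4,18837)]))) (.leaf false ⟨⟨-305,-60,324⟩,⟨60,424,135⟩,⟨324,-135,280⟩⟩ (43,[(4,1573),(3,46644),(0,108)]) (43,[(4,8700),(3,128),(0,45)]) (129,[(4,79876),(3,131655),(0,280)]))) (.leaf false ⟨⟨-359,-252,96⟩,⟨144,-44,423⟩,⟨228,-369,-116⟩⟩ (31,[(1,10320),(3,967),(0,36)]) (217,[(1,100767),(3,46032),(0,44)]) (217,[(1,50104),(3,173460),(0,369)]))) (.node ⟨351,0,280⟩ (.leaf false ⟨⟨0,-449,0⟩,⟨280,0,-351⟩,⟨351,0,280⟩⟩ (1,[(2,449)]) (351,[(1,201601),(0,280)]) (1,[(0,1)])) (.node ⟨-39,192,-404⟩ (.leaf false ⟨⟨-116,-396,-177⟩,⟨-39,192,-404⟩,⟨432,-89,-84⟩⟩ (280,[(4,29647),(3,110880),(1,177)]) (1,[(0,1)]) (10,[(4,5373),(3,890),(1,3)])) (.leaf false ⟨⟨-408,-161,-96⟩,⟨129,-408,136⟩,⟨136,-96,-417⟩⟩ (13440,[(4,1401969),(0,11270),(1,20869)]) (112,[(4,106605),(0,238),(1,289)])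 (280,[(4,249889),(0,140),(1,619)])))))) (.node ⟨0,1,0⟩ (.node ⟨0,0,1⟩ (.node ⟨217,204,336⟩ (.node ⟨-408,-129,136⟩ (.node ⟨-161,408,-96⟩ (.leaf false ⟨⟨-408,-129,136⟩,⟨-161,408,-96⟩,⟨96,136,417⟩⟩ (1,[(1,1)]) (1,[(0,1)]) (3,[(3,579),(5,146),(2,2)])) (.leaf false ⟨⟨-449,0,0⟩,⟨0,-351,280⟩,⟨0,280,351⟩⟩ (1,[(5,449)]) (12,[(5,5635),(4,10068),(0,35)]) (32,[(5,18837),(4,56696),(0,117)]))) (.leaf false ⟨⟨-417,136,96⟩,⟨96,408,-161⟩,⟨136,129,408⟩⟩ (129,[(2,30880),(4,109281),(0,136)]) (43,[(2,11573),(4,51360),(0,136)]) (1,[(2,544),(4,272),(0,1)]))) (.leaf false ⟨⟨-399,-204,28⟩,⟨-188,336,-231⟩,⟨-84,217,384⟩⟩ (31,[(1,20020),(0,57),(2,5304)]) (217,[(1,13041),(0,188),(2,111264)]) (31,[(1,15936),(0,12),(2,9175)]))) (.node ⟨0,351,280⟩ (.leaf false ⟨⟨-449,0,0⟩,⟨0,280,-351⟩,⟨0,351,280⟩⟩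 (1,[(3,449)]) (351,[(1,201601),(0,280)]) (1,[(0,1)])) (.node ⟨192,-39,-404⟩ (.leaf false ⟨⟨-396,-116,-177⟩,⟨-89,432,-84⟩,⟨192,-39,-404⟩⟩ (280,[(1,177),(4,110880),(3,29647)]) (10,[(1,3),(4,890),(3,5373)]) (1,[(0,1)])) (.leaf false ⟨⟨-441,-84,-8⟩,⟨-84,433,84⟩,⟨-8,84,-441⟩⟩ (896,[(1,2995),(0,2058),(3,895719)]) (160,[(1,53),(0,70),(3,85153)]) (1680,[(1,2747),(0,70),(3,1102587)]))))) (.node ⟨0,0,1⟩ (.node ⟨0,280,351⟩ (.leaf false ⟨⟨-449,0,0⟩,⟨0,-351,280⟩,⟨0,280,351⟩⟩ (1,[(3,449)]) (351,[(0,280),(2,201601)]) (1,[(0,1)])) (.node ⟨192,-404,-39⟩ (.leaf false ⟨⟨-396,-177,-116⟩,⟨-89,-84,432⟩,⟨192,-404,-39⟩⟩ (280,[(2,29647),(4,110880),(1,177)]) (10,[(2,5373),(4,890),(1,3)]) (1,[(0,1)])) (.leaf false ⟨⟨-441,-8,-84⟩,⟨-84,84,433⟩,⟨-8,-441,84⟩⟩ (896,[(2,895719),(0,2058),(1,2995)])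 (160,[(2,85153),(0,70),(1,53)]) (1680,[(2,1102587),(0,70),(1,2747)])))) (.leaf false ⟨⟨-449,0,0⟩,⟨0,-449,0⟩,⟨0,0,-449⟩⟩ (1,[(2,449)]) (1,[(1,449)]) (1,[(0,449)]))))
theorem pf449_ok : pf449.check (ok 449 6 ⟨5, 5, 5⟩) (fun _ r => r) [] = true := by decide +kernel

def pf457 : T := .node ⟨1,0,0⟩ (.node ⟨0,1,0⟩ (.node ⟨0,0,1⟩ (.leaf false ⟨⟨0,0,457⟩,⟨0,457,0⟩,⟨457,0,0⟩⟩ (1,[(0,457)]) (1,[(1,457)]) (1,[(2,457)])) (.node ⟨-92,444,-57⟩ (.node ⟨444,-92,-57⟩ (.node ⟨-180,7,-420⟩ (.node ⟨385,-180,-168⟩ (.leaf false ⟨⟨-180,7,-420⟩,⟨168,420,-65⟩,⟨385,-180,-168⟩⟩ (1,[(1,1)]) (84,[(6,16452),(5,35189),(1,13)]) (1,[(0,1)])) (.leaf false ⟨⟨-416,183,48⟩,⟨87,288,-344⟩,⟨168,304,297⟩⟩ (6041083,[(2,586788),(0,6372500),(1,1778955)]) (18123249,[(2,72176752),(0,64685001),(1,30922388)])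 (6041083,[(2,20808581),(0,20790756),(1,1220372)]))) (.leaf false ⟨⟨-24,448,87⟩,⟨232,87,-384⟩,⟨393,-24,232⟩⟩ (19819,[(3,337821),(0,7640),(2,20118)]) (4288,[(3,1425090),(1,2523),(2,1363)]) (4484,[(3,2499901),(1,523),(0,8500)]))) (.leaf false ⟨⟨-444,97,48⟩,⟨7,228,-396⟩,⟨108,384,223⟩⟩ (92,[(2,1113),(4,2220),(0,97)]) (23,[(2,12357),(4,25469),(0,57)]) (23,[(2,343),(4,45108),(0,96)]))) (.leaf false ⟨⟨24,448,-87⟩,⟨232,-87,-384⟩,⟨393,24,232⟩⟩ (23,[(1,2343),(0,6),(2,12968)]) (23,[(1,12138),(0,58),(2,23751)]) (92,[(1,1057),(0,393),(2,176700)])))) (.node ⟨0,0,1⟩ (.node ⟨-92,-57,444⟩ (.node ⟨444,-57,-92⟩ (.node ⟨7,-420,-180⟩ (.node ⟨-180,-168,385⟩ (.leaf false ⟨⟨-180,-168,385⟩,⟨7,-420,-180⟩,⟨420,-65,168⟩⟩ (1,[(0,1)]) (1,[(1,1)]) (84,[(4,16452),(6,35189),(1,13)])) (.leaf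 false ⟨⟨-57,-300,340⟩,⟨300,232,255⟩,⟨340,-255,-168⟩⟩ (6041083,[(1,4038587),(3,8024920),(0,2031560)]) (18123249,[(1,6795080),(3,70268320),(0,65856081)]) (6041083,[(1,9458184),(3,19978669),(0,21254436)]))) (.leaf false ⟨⟨-87,-24,448⟩,⟨232,-393,24⟩,⟨384,232,87⟩⟩ (3363,[(4,173985),(2,3131),(0,647)]) (737,[(1,411),(4,259089),(2,125)]) (79276,[(1,69729),(4,8694935),(0,73956)]))) (.leaf false ⟨⟨-444,7,108⟩,⟨48,-396,223⟩,⟨97,228,384⟩⟩ (23,[(4,1776),(3,1378),(0,27)]) (92,[(4,103428),(3,49143),(0,223)]) (23,[(4,44855),(3,228),(0,96)]))) (.leaf false ⟨⟨24,-87,448⟩,⟨232,-384,-87⟩,⟨393,232,24⟩⟩ (23,[(1,12968),(0,6),(2,2343)]) (23,[(1,23751),(0,58),(2,12138)]) (92,[(1,176700),(0,393),(2,1057)]))) (.node ⟨0,168,-425⟩ (.leaf false ⟨⟨0,-425,-168⟩,⟨0,168,-425⟩,⟨457,0,0⟩⟩ (425,[(0,168),(2,208849)])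 (1,[(0,1)]) (1,[(3,457)])) (.leaf false ⟨⟨0,-425,168⟩,⟨0,-168,-425⟩,⟨457,0,0⟩⟩ (168,[(1,152401),(0,425)]) (1,[(1,850),(0,1)]) (1,[(3,457)]))))) (.node ⟨0,1,0⟩ (.node ⟨0,0,1⟩ (.node ⟨-57,444,-92⟩ (.node ⟨-57,-92,444⟩ (.node ⟨-420,7,-180⟩ (.node ⟨-168,-180,385⟩ (.leaf false ⟨⟨-452,-24,-63⟩,⟨-57,-92,444⟩,⟨-36,447,88⟩⟩ (39657,[(2,8716),(0,2409),(1,40532)]) (1,[(2,1)]) (19,[(4,2776),(3,12),(5,3165)])) (.leaf false ⟨⟨-452,36,57⟩,⟨24,447,-92⟩,⟨63,88,444⟩⟩ (18123249,[(2,24712732),(1,22305464),(0,15388167)]) (6041083,[(2,26006956),(1,7329059),(0,28009448)]) (6041083,[(2,16369283),(1,1378820),(0,11266320)]))) (.leaf false ⟨⟨-393,232,24⟩,⟨-24,-87,448⟩,⟨232,384,87⟩⟩ (737,[(1,125),(5,259089),(2,411)]) (3363,[(1,3131),(5,173985),(0,647)]) (79276,[(5,8694935),(2,69729),(0,73956)])))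 (.leaf false ⟨⟨-452,63,24⟩,⟨36,88,447⟩,⟨57,444,-92⟩⟩ (92,[(2,30180),(4,45175),(0,63)]) (23,[(2,20049),(4,426),(0,22)]) (23,[(2,47168),(4,5016),(0,111)]))) (.leaf false ⟨⟨-452,24,63⟩,⟨36,447,88⟩,⟨57,-92,444⟩⟩ (92,[(3,45175),(2,30180),(0,63)]) (23,[(3,426),(2,20049),(0,22)]) (23,[(3,5016),(2,47168),(0,111)]))) (.node ⟨168,0,-425⟩ (.leaf false ⟨⟨-425,0,-168⟩,⟨0,457,0⟩,⟨168,0,-425⟩⟩ (425,[(3,208849),(0,168)]) (1,[(2,457)]) (1,[(0,1)])) (.leaf false ⟨⟨-425,0,168⟩,⟨-168,0,-425⟩,⟨0,457,0⟩⟩ (168,[(1,152401),(0,425)]) (1,[(1,850),(0,1)]) (1,[(2,457)])))) (.node ⟨0,0,1⟩ (.node ⟨168,-425,0⟩ (.leaf false ⟨⟨-425,-168,0⟩,⟨0,0,457⟩,⟨168,-425,0⟩⟩ (425,[(3,208849),(0,168)]) (1,[(1,457)]) (1,[(0,1)])) (.leaf false ⟨⟨-425,168,0⟩,⟨-168,-425,0⟩,⟨0,0,457⟩⟩ (168,[(0,425),(2,152401)])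 (1,[(0,1),(2,850)]) (1,[(1,457)]))) (.node ⟨36,-447,88⟩ (.node ⟨-452,-24,63⟩ (.leaf false ⟨⟨-452,-24,63⟩,⟨-57,-92,-444⟩,⟨36,-447,88⟩⟩ (1,[(0,1)]) (447,[(2,206564),(4,28791),(1,92)]) (1,[(1,1)])) (.leaf false ⟨⟨-452,24,-63⟩,⟨-36,-447,88⟩,⟨57,-92,-444⟩⟩ (1,[(4,904),(0,1)]) (1,[(4,72),(1,1)]) (57,[(4,202351),(1,36),(0,452)]))) (.node ⟨-408,-119,168⟩ (.leaf false ⟨⟨-447,88,36⟩,⟨-92,-444,-57⟩,⟨-24,63,-452⟩⟩ (1748,[(1,2517),(0,1693),(3,769808)]) (102,[(2,9678),(0,23),(3,42551)]) (3,[(2,1180),(1,2),(3,705)])) (.leaf false ⟨⟨-452,36,-57⟩,⟨-24,-447,-92⟩,⟨63,88,-444⟩⟩ (56,[(4,33064),(3,245),(0,19)]) (42,[(4,10392),(3,21511),(0,23)]) (14,[(4,14214),(3,3171),(0,37)]))))))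
theorem pf457_ok : pf457.check (ok 457 6 ⟨5, 5, 5⟩) (fun _ r => r) [] = true := by decide +kernel

def pf461 : T := .node ⟨1,0,0⟩ (.node ⟨0,1,0⟩ (.node ⟨0,0,1⟩ (.node ⟨-168,84,421⟩ (.node ⟨16,429,-168⟩ (.leaf false ⟨⟨-168,84,421⟩,⟨16,453,-84⟩,⟨429,16,168⟩⟩ (1,[(1,1)]) (3059,[(2,278444),(0,3227),(1,16)]) (21,[(2,1844),(4,9681),(1,4)])) (.leaf false ⟨⟨-144,187,396⟩,⟨88,-396,219⟩,⟨429,144,88⟩⟩ (421,[(4,5904),(3,45463),(1,396)]) (56,[(4,6096),(3,9141),(0,73)]) (21,[(4,9185),(3,7743),(0,11)]))) (.leaf false ⟨⟨16,84,453⟩,⟨168,421,-84⟩,⟨429,-168,16⟩⟩ (21,[(1,10355),(0,2),(2,1932)]) (1,[(1,337),(0,1),(2,505)]) (56,[(1,61099),(0,143),(2,2604)]))) (.node ⟨-96,84,-443⟩ (.node ⟨448,51,96⟩ (.node ⟨69,448,84⟩ (.node ⟨448,-51,-96⟩ (.leaf false ⟨⟨-84,96,-443⟩,⟨69,448,84⟩,⟨448,-51,-96⟩⟩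 (8,[(4,443),(5,180),(3,7)]) (1,[(1,1)]) (1,[(0,1)])) (.leaf false ⟨⟨-453,84,16⟩,⟨16,168,-429⟩,⟨84,421,168⟩⟩ (17,[(4,2416),(6,4843),(0,28)]) (17,[(4,12669),(6,25360),(0,56)]) (51,[(4,31848),(6,192892),(0,421)]))) (.leaf false ⟨⟨-264,72,-371⟩,⟨124,-411,-168⟩,⟨357,196,-216⟩⟩ (31008,[(1,3423),(4,65165075),(0,140864)]) (1292,[(1,917),(4,1049357),(0,3632)]) (2584,[(1,3741),(4,5207833),(0,10920)]))) (.leaf false ⟨⟨-420,-20,-189⟩,⟨61,420,-180⟩,⟨180,-189,-380⟩⟩ (32,[(4,14784),(3,2573),(0,63)]) (8,[(4,7208),(3,4125),(0,15)]) (24,[(4,46880),(3,309),(0,95)]))) (.leaf false ⟨⟨16,312,-339⟩,⟨123,324,304⟩,⟨444,-101,-72⟩⟩ (6,[(1,2477),(0,1),(2,1956)]) (32,[(1,8435),(0,41),(2,13812)]) (8,[(1,16967),(0,37),(2,2300)])))) (.node ⟨0,0,1⟩ (.node ⟨-96,-443,84⟩ (.node ⟨448,96,51⟩ (.node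 ⟨69,84,448⟩ (.node ⟨448,-96,-51⟩ (.leaf false ⟨⟨-84,-443,96⟩,⟨69,84,448⟩,⟨448,-96,-51⟩⟩ (8,[(4,180),(5,443),(3,7)]) (1,[(1,1)]) (1,[(0,1)])) (.leaf false ⟨⟨-453,16,84⟩,⟨16,-429,168⟩,⟨84,168,421⟩⟩ (17,[(6,4843),(5,2416),(0,28)]) (17,[(6,25360),(5,12669),(0,56)]) (51,[(6,192892),(5,31848),(0,421)]))) (.leaf false ⟨⟨-264,-371,72⟩,⟨124,-168,-411⟩,⟨357,-216,196⟩⟩ (31008,[(3,65165075),(1,3423),(0,140864)]) (1292,[(3,1049357),(1,917),(0,3632)]) (2584,[(3,5207833),(1,3741),(0,10920)]))) (.leaf false ⟨⟨-420,-189,-20⟩,⟨61,-180,420⟩,⟨180,-380,-189⟩⟩ (32,[(2,2573),(4,14784),(0,63)]) (8,[(2,4125),(4,7208),(0,15)]) (24,[(2,309),(4,46880),(0,95)]))) (.leaf false ⟨⟨16,-339,312⟩,⟨123,304,324⟩,⟨444,-72,-101⟩⟩ (6,[(1,1956),(0,1),(2,2477)]) (32,[(1,13812),(0,41),(2,8435)]) (8,[(1,2300),(0,37),(2,16967)])))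 (.node ⟨-240,-315,-236⟩ (.node ⟨340,165,-264⟩ (.node ⟨340,-264,165⟩ (.leaf false ⟨⟨-165,-360,-236⟩,⟨264,115,-360⟩,⟨340,-264,165⟩⟩ (1,[(5,75),(4,45),(2,1)]) (33,[(3,5808),(1,23),(5,892)]) (1,[(0,1)])) (.leaf false ⟨⟨-396,3,-236⟩,⟨61,-444,-108⟩,⟨228,124,-381⟩⟩ (165,[(5,14900),(4,61809),(0,236)]) (55,[(5,15595),(4,33924),(0,36)]) (55,[(5,55720),(4,26708),(0,127)]))) (.leaf false ⟨⟨-396,-236,3⟩,⟨61,-108,-444⟩,⟨228,-381,124⟩⟩ (165,[(2,61809),(4,14900),(0,236)]) (55,[(2,33924),(4,15595),(0,36)]) (55,[(2,26708),(4,55720),(0,127)]))) (.leaf false ⟨⟨61,-420,-180⟩,⟨180,189,-380⟩,⟨420,-20,189⟩⟩ (240,[(1,57596),(0,61),(2,120015)]) (4,[(1,2228),(0,3),(2,189)]) (4,[(1,896),(0,7),(2,2285)]))))) (.node ⟨0,1,0⟩ (.node ⟨0,0,1⟩ (.node ⟨-443,-96,84⟩ (.node ⟨96,448,51⟩ (.node ⟨84,69,448⟩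 (.node ⟨-96,448,-51⟩ (.leaf false ⟨⟨-443,-84,96⟩,⟨-96,448,-51⟩,⟨84,69,448⟩⟩ (8,[(4,180),(3,7),(6,443)]) (1,[(0,1)]) (1,[(1,1)])) (.leaf false ⟨⟨-453,16,84⟩,⟨16,-429,168⟩,⟨84,168,421⟩⟩ (17,[(6,10389),(5,12816),(0,28)]) (17,[(6,5104),(5,17795),(0,56)]) (51,[(6,36132),(5,197176),(0,421)]))) (.leaf false ⟨⟨-444,-123,16⟩,⟨-101,324,-312⟩,⟨-72,304,339⟩⟩ (646,[(3,1735067),(0,3898),(1,423)]) (31008,[(3,22787765),(0,76352),(1,34185)]) (1292,[(3,1520047),(0,2560),(1,1271)]))) (.leaf false ⟨⟨-444,16,-123⟩,⟨-101,-312,324⟩,⟨-72,339,304⟩⟩ (8,[(2,903),(0,37),(3,16704)]) (96,[(2,36255),(0,101),(3,15296)]) (4,[(2,1369),(0,3),(3,2700)]))) (.leaf false ⟨⟨-444,61,108⟩,⟨-3,396,-236⟩,⟨124,228,381⟩⟩ (96,[(1,15492),(3,69647),(0,61)]) (8,[(1,884),(3,14643),(0,33)]) (8,[(1,4644),(3,7425),(0,19)])))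 (.node ⟨-420,61,180⟩ (.node ⟨189,420,-20⟩ (.node ⟨84,421,168⟩ (.leaf false ⟨⟨-453,84,16⟩,⟨16,168,-429⟩,⟨84,421,168⟩⟩ (421,[(3,7376),(5,197769),(0,84)]) (5,[(3,2105),(5,298),(1,2)]) (1,[(0,1)])) (.leaf false ⟨⟨-453,-84,16⟩,⟨-84,421,-168⟩,⟨16,-168,-429⟩⟩ (2269911,[(2,2688419),(1,1631481),(0,2470043)]) (324273,[(2,335116),(1,858840),(0,581083)]) (27238932,[(2,12119725),(1,62611224),(0,75088261)]))) (.leaf false ⟨⟨-420,61,180⟩,⟨-189,-180,-380⟩,⟨-20,420,-189⟩⟩ (1,[(1,1)]) (1,[(2,400),(0,1),(3,240)]) (21,[(2,4149),(1,1),(3,8759)]))) (.node ⟨-96,-228,-389⟩ (.leaf false ⟨⟨-420,-20,-189⟩,⟨61,420,-180⟩,⟨180,-189,-380⟩⟩ (20,[(4,17220),(3,881),(1,21)]) (1,[(4,359),(3,481),(1,1)]) (3011,[(3,22556),(1,1775),(0,2120)])) (.leaf false ⟨⟨-453,84,16⟩,⟨16,168,-429⟩,⟨84,421,168⟩⟩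 (17311,[(4,21391467),(0,14144),(1,29028)]) (17311,[(4,73667168),(0,56409),(1,163164)]) (17311,[(4,57532248),(0,65532),(1,125465)]))))) (.node ⟨0,0,1⟩ (.node ⟨-420,180,61⟩ (.node ⟨189,-20,420⟩ (.node ⟨84,168,421⟩ (.leaf false ⟨⟨-453,16,84⟩,⟨16,-429,168⟩,⟨84,168,421⟩⟩ (421,[(5,197769),(4,7376),(0,84)]) (5,[(5,298),(4,2105),(1,2)]) (1,[(0,1)])) (.leaf false ⟨⟨-453,16,-84⟩,⟨-84,-168,421⟩,⟨16,-429,-168⟩⟩ (2269911,[(2,2688419),(0,2470043),(1,1631481)]) (324273,[(2,335116),(0,581083),(1,858840)]) (27238932,[(2,12119725),(0,75088261),(1,62611224)]))) (.leaf false ⟨⟨-420,180,61⟩,⟨-189,-380,-180⟩,⟨-20,-189,420⟩⟩ (1,[(1,1)]) (1,[(2,240),(0,1),(3,400)]) (21,[(2,8759),(1,1),(3,4149)]))) (.node ⟨-96,-389,-228⟩ (.leaf false ⟨⟨-420,-189,-20⟩,⟨61,-180,420⟩,⟨180,-380,-189⟩⟩ (20,[(2,881),(4,17220),(1,21)])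 (1,[(2,481),(4,359),(1,1)]) (3011,[(2,22556),(0,2120),(1,1775)])) (.leaf false ⟨⟨-453,16,84⟩,⟨16,-429,168⟩,⟨84,168,421⟩⟩ (17311,[(4,21391467),(1,29028),(0,14144)]) (17311,[(4,73667168),(1,163164),(0,56409)]) (17311,[(4,57532248),(1,125465),(0,65532)])))) (.leaf false ⟨⟨-461,0,0⟩,⟨0,-461,0⟩,⟨0,0,-461⟩⟩ (1,[(2,461)]) (1,[(1,461)]) (1,[(0,461)]))))
theorem pf461_ok : pf461.check (ok 461 6 ⟨5, 5, 5⟩) (fun _ r => r) [] = true := by decide +kernel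

def pf463 : T := .node ⟨1,0,0⟩ (.node ⟨0,1,0⟩ (.node ⟨0,0,1⟩ (.leaf false ⟨⟨0,0,463⟩,⟨0,463,0⟩,⟨463,0,0⟩⟩ (1,[(0,463)]) (1,[(1,463)]) (1,[(2,463)])) (.node ⟨-123,18,-446⟩ (.node ⟨-86,438,123⟩ (.leaf false ⟨⟨-123,18,-446⟩,⟨-86,453,42⟩,⟨438,94,-117⟩⟩ (1,[(1,1)]) (146,[(2,12441),(4,430),(0,151)]) (219,[(2,31404),(4,99964),(0,47)])) (.leaf false ⟨⟨-30,-150,-437⟩,⟨-5,438,-150⟩,⟨462,-5,-30⟩⟩ (32927,[(4,1486142),(1,28826),(0,12461)]) (223,[(4,8110),(3,96324),(1,75)]) (41,[(4,18082),(3,4175),(0,10)]))) (.node ⟨418,-102,-171⟩ (.leaf false ⟨⟨21,418,-198⟩,⟨198,171,382⟩,⟨418,-102,-171⟩⟩ (41,[(2,11240),(1,7),(3,17264)]) (41,[(2,13774),(1,66),(3,8199)]) (1,[(0,1)])) (.leaf false ⟨⟨-446,117,-42⟩,⟨-18,94,453⟩,⟨123,438,-86⟩⟩ (1674,[(2,940547),(1,1138),(0,2121)]) (2511,[(2,8176054),(1,18728),(0,5619)])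 (837,[(2,16212320),(1,32605),(0,9348)]))))) (.node ⟨0,0,1⟩ (.node ⟨-123,-446,18⟩ (.node ⟨-86,123,438⟩ (.leaf false ⟨⟨-123,-446,18⟩,⟨-86,42,453⟩,⟨438,-117,94⟩⟩ (1,[(1,1)]) (146,[(4,430),(3,12441),(0,151)]) (219,[(4,99964),(3,31404),(0,47)])) (.leaf false ⟨⟨-30,-437,-150⟩,⟨-5,-150,438⟩,⟨462,-30,-5⟩⟩ (32927,[(4,1486142),(0,12461),(1,28826)]) (223,[(2,96324),(4,8110),(1,75)]) (41,[(2,4175),(4,18082),(0,10)]))) (.node ⟨418,-171,-102⟩ (.leaf false ⟨⟨21,-198,418⟩,⟨198,382,171⟩,⟨418,-171,-102⟩⟩ (41,[(2,17264),(1,7),(3,11240)]) (41,[(2,8199),(1,66),(3,13774)]) (1,[(0,1)])) (.leaf false ⟨⟨-446,-42,117⟩,⟨-18,453,94⟩,⟨123,-86,438⟩⟩ (1674,[(1,1138),(3,940547),(0,2121)]) (2511,[(1,18728),(3,8176054),(0,5619)]) (837,[(1,32605),(3,16212320),(0,9348)])))) (.node ⟨21,-462,22⟩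 (.node ⟨378,222,-149⟩ (.node ⟨-138,-59,-438⟩ (.leaf false ⟨⟨-138,-59,-438⟩,⟨229,-402,-18⟩,⟨378,222,-149⟩⟩ (1,[(0,1)]) (73,[(5,17131),(4,29169),(0,3)]) (1,[(1,1)])) (.leaf false ⟨⟨18,-347,-306⟩,⟨283,-234,282⟩,⟨366,198,-203⟩⟩ (21,[(3,6277),(1,1),(4,7509)]) (138,[(3,85038),(0,283),(4,48989)]) (63,[(3,3700),(1,61),(4,1068)]))) (.leaf false ⟨⟨-282,-306,-203⟩,⟨234,-347,198⟩,⟨283,-18,-366⟩⟩ (37,[(2,15110),(4,8844),(0,51)]) (222,[(2,7747),(4,183114),(0,347)]) (37,[(2,13989),(4,11605),(0,3)]))) (.leaf false ⟨⟨-315,30,-338⟩,⟨138,-410,-165⟩,⟨310,213,-270⟩⟩ (11,[(3,84),(2,77748),(0,169)]) (2,[(3,591),(2,7750),(0,15)]) (11,[(3,6245),(2,60027),(0,135)]))))) (.node ⟨0,1,0⟩ (.node ⟨0,0,1⟩ (.node ⟨-446,-123,18⟩ (.node ⟨123,-86,438⟩ (.leaf false ⟨⟨-446,-123,18⟩,⟨-117,438,94⟩,⟨42,-86,453⟩⟩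 (1,[(1,1)]) (219,[(4,31404),(3,99964),(0,47)]) (146,[(4,12441),(3,430),(0,151)])) (.leaf false ⟨⟨-437,-30,-150⟩,⟨-150,-5,438⟩,⟨-30,462,-5⟩⟩ (32927,[(1,28826),(0,12461),(3,1486142)]) (223,[(2,96324),(1,75),(3,8110)]) (41,[(2,4175),(0,10),(3,18082)]))) (.node ⟨-171,418,-102⟩ (.leaf false ⟨⟨-198,21,418⟩,⟨-171,418,-102⟩,⟨382,198,171⟩⟩ (41,[(2,17264),(4,11240),(1,7)]) (1,[(0,1)]) (41,[(2,8199),(4,13774),(1,66)])) (.leaf false ⟨⟨-459,-18,58⟩,⟨18,382,261⟩,⟨58,-261,378⟩⟩ (2511,[(4,6731788),(1,11204),(0,3405)]) (1674,[(4,24203555),(1,49354),(0,12993)]) (31,[(4,404026),(1,811),(0,258)])))) (.node ⟨-462,21,22⟩ (.node ⟨222,378,-149⟩ (.node ⟨-59,-138,-438⟩ (.leaf false ⟨⟨-402,229,-18⟩,⟨-59,-138,-438⟩,⟨222,378,-149⟩⟩ (73,[(5,29169),(4,17131),(0,3)]) (1,[(0,1)]) (1,[(1,1)]))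 (.leaf false ⟨⟨-462,21,22⟩,⟨-21,22,-462⟩,⟨22,462,21⟩⟩ (46,[(3,2054),(5,21665),(0,7)]) (69,[(3,36696),(5,2098),(0,11)]) (23,[(3,33243),(5,4037),(0,77)]))) (.leaf false ⟨⟨-402,18,229⟩,⟨-222,-149,-378⟩,⟨-59,438,-138⟩⟩ (37,[(2,1510),(0,67),(3,25992)]) (1,[(2,527),(0,1),(3,229)]) (222,[(2,39427),(0,59),(3,119538)]))) (.leaf false ⟨⟨-437,114,-102⟩,⟨66,-138,-437⟩,⟨138,427,-114⟩⟩ (11,[(3,28369),(2,2325),(0,51)]) (22,[(3,200442),(2,6141),(0,437)]) (11,[(3,24816),(2,5894),(0,57)])))) (.node ⟨0,0,1⟩ (.node ⟨21,22,462⟩ (.node ⟨22,-462,21⟩ (.leaf false ⟨⟨-462,-21,22⟩,⟨21,22,462⟩,⟨22,-462,21⟩⟩ (21,[(4,9723),(3,463),(1,1)]) (1,[(1,1)]) (1,[(0,1)])) (.leaf false ⟨⟨-438,-59,-138⟩,⟨-149,222,378⟩,⟨-18,-402,229⟩⟩ (3241,[(3,30952939),(1,2054),(0,66486)]) (463,[(3,1598276),(1,545),(0,3656)])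 (9723,[(3,10091548),(1,5416),(0,13125)]))) (.node ⟨27,-462,-14⟩ (.leaf false ⟨⟨-378,-14,-267⟩,⟨-266,-27,378⟩,⟨27,-462,-14⟩⟩ (11,[(2,297),(4,4011),(1,7)]) (22,[(2,20790),(4,5285),(1,27)]) (1,[(0,1)])) (.leaf false ⟨⟨-462,27,-14⟩,⟨-27,-266,378⟩,⟨-14,-378,-267⟩⟩ (304,[(0,5075),(1,163),(3,2332856)]) (1,[(2,364),(0,1),(3,728)]) (3,[(2,123),(1,2),(3,1090)])))) (.node ⟨-86,123,-438⟩ (.node ⟨-86,-438,123⟩ (.node ⟨-446,18,123⟩ (.leaf false ⟨⟨-453,18,94⟩,⟨-86,123,-438⟩,⟨-42,-446,-117⟩⟩ (446,[(3,13795),(0,453),(4,126)]) (1,[(2,1)]) (43,[(3,7614),(1,21),(4,9980)])) (.leaf false ⟨⟨-446,-117,-42⟩,⟨18,94,-453⟩,⟨123,-438,-86⟩⟩ (6232,[(5,4273960),(1,1515),(0,3643)]) (7671,[(2,6572),(5,1459384),(0,4849)]) (492,[(5,258148),(1,459),(0,803)]))) (.leaf false ⟨⟨-462,-30,-5⟩,⟨-5,150,-438⟩,⟨30,-437,-150⟩⟩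 (123,[(4,57256),(3,5880),(0,5)]) (41,[(4,12761),(3,57798),(0,146)]) (41,[(4,3070),(3,39817),(0,50)]))) (.leaf false ⟨⟨-462,-14,-27⟩,⟨-14,-267,378⟩,⟨27,-378,-266⟩⟩ (123,[(1,9453),(3,58030),(0,14)]) (41,[(1,23484),(3,8228),(0,89)]) (41,[(1,66094),(3,9729),(0,126)])))))
theorem pf463_ok : pf463.check (ok 463 6 ⟨5, 5, 5⟩) (fun _ r => r) [] = true := by decide +kernel

def pf467 : T := .node ⟨1,0,0⟩ (.node ⟨0,1,0⟩ (.node ⟨0,0,1⟩ (.node ⟨-174,118,417⟩ (.node ⟨417,118,-174⟩ (.node ⟨-174,433,-18⟩ (.leaf false ⟨⟨-174,433,-18⟩,⟨118,66,447⟩,⟨417,162,-134⟩⟩ (1,[(0,1)]) (59,[(3,12612),(5,12704),(2,33)]) (67031,[(3,3235376),(1,69583),(0,6116)])) (.leaf false ⟨⟨-111,118,438⟩,⟨298,-321,162⟩,⟨342,318,1⟩⟩ (1682,[(4,281337),(2,1738),(0,665)]) (12615,[(4,6503810),(2,3804),(0,25409)])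 (47871,[(1,47596),(4,7249600),(2,19975)]))) (.leaf false ⟨⟨-342,1,318⟩,⟨111,438,118⟩,⟨298,-162,321⟩⟩ (29,[(4,12183),(3,6283),(0,53)]) (87,[(4,34260),(3,45068),(0,59)]) (58,[(4,61903),(3,3230),(0,107)]))) (.leaf false ⟨⟨1,342,318⟩,⟨162,298,-321⟩,⟨438,-111,118⟩⟩ (174,[(1,55749),(0,1),(2,59626)]) (29,[(1,1950),(0,27),(2,11828)]) (29,[(1,33863),(0,73),(2,5395)]))) (.node ⟨-150,433,-90⟩ (.node ⟨102,-78,-449⟩ (.node ⟨442,129,78⟩ (.leaf false ⟨⟨-111,442,-102⟩,⟨102,-78,-449⟩,⟨442,129,78⟩⟩ (50,[(3,1770),(4,6079),(2,37)]) (1,[(1,1)]) (1,[(0,1)])) (.leaf false ⟨⟨-447,18,-134⟩,⟨66,433,-162⟩,⟨118,-174,-417⟩⟩ (39,[(5,12181),(4,9345),(0,67)]) (13,[(5,12792),(4,9112),(0,27)]) (26,[(5,64506),(4,13407),(0,139)]))) (.leaf false ⟨⟨-351,298,-78⟩,⟨162,78,-431⟩,⟨262,351,162⟩⟩ (39,[(2,69943),(4,1509),(0,149)])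 (1,[(2,880),(4,264),(0,1)]) (2,[(2,3717),(4,1442),(0,9)]))) (.leaf false ⟨⟨15,90,-458⟩,⟨150,433,90⟩,⟨442,-150,-15⟩⟩ (10,[(1,4670),(0,1),(2,1333)]) (1,[(0,1),(2,866)]) (75,[(1,21015),(0,221),(2,84443)])))) (.node ⟨0,0,1⟩ (.node ⟨-150,-90,433⟩ (.node ⟨102,-449,-78⟩ (.node ⟨442,78,129⟩ (.leaf false ⟨⟨-111,-102,442⟩,⟨102,-449,-78⟩,⟨442,78,129⟩⟩ (50,[(3,6079),(4,1770),(2,37)]) (1,[(1,1)]) (1,[(0,1)])) (.leaf false ⟨⟨-447,-134,18⟩,⟨66,-162,433⟩,⟨118,-417,-174⟩⟩ (39,[(3,9345),(5,12181),(0,67)]) (13,[(3,9112),(5,12792),(0,27)]) (26,[(3,13407),(5,64506),(0,139)]))) (.leaf false ⟨⟨-351,-78,298⟩,⟨162,-431,78⟩,⟨262,162,351⟩⟩ (39,[(4,1509),(3,69943),(0,149)]) (1,[(4,264),(3,880),(0,1)]) (2,[(4,1442),(3,3717),(0,9)]))) (.leaf false ⟨⟨15,-458,90⟩,⟨150,90,433⟩,⟨442,-15,-150⟩⟩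 (10,[(1,1333),(0,1),(2,4670)]) (1,[(1,866),(0,1)]) (75,[(1,84443),(0,221),(2,21015)]))) (.node ⟨-66,-458,-63⟩ (.node ⟨462,66,-17⟩ (.node ⟨-26,63,-462⟩ (.leaf false ⟨⟨-26,63,-462⟩,⟨63,-458,-66⟩,⟨462,66,-17⟩⟩ (1,[(0,1)]) (7,[(5,467),(4,3269),(0,1)]) (1,[(1,1)])) (.leaf false ⟨⟨-26,-462,63⟩,⟨63,-66,-458⟩,⟨462,-17,66⟩⟩ (8033,[(3,3356850),(0,9292),(2,6825)]) (6908,[(3,3072280),(1,1107),(2,1155)]) (15411,[(3,7597156),(1,14332),(0,19173)]))) (.leaf false ⟨⟨-66,-63,-458⟩,⟨-17,-462,66⟩,⟨462,-26,-63⟩⟩ (22,[(2,10433),(4,8250),(0,21)]) (1,[(2,53),(4,3217),(0,7)]) (33,[(2,2300),(4,21252),(0,13)]))) (.leaf false ⟨⟨15,90,-458⟩,⟨150,433,90⟩,⟨442,-150,-15⟩⟩ (22,[(1,10391),(0,5),(2,310)]) (11,[(1,585),(0,25),(2,6687)]) (33,[(1,14418),(0,221),(2,106168)]))))) (.node ⟨0,1,0⟩ (.node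 ⟨0,0,1⟩ (.node ⟨-90,433,-150⟩ (.node ⟨-449,-78,102⟩ (.node ⟨78,129,442⟩ (.leaf false ⟨⟨-449,-78,102⟩,⟨-102,442,-111⟩,⟨78,129,442⟩⟩ (1,[(1,1)]) (50,[(5,1770),(2,37),(4,6079)]) (1,[(0,1)])) (.leaf false ⟨⟨-458,-90,15⟩,⟨-90,433,-150⟩,⟨-15,150,442⟩⟩ (39,[(3,101803),(0,229),(4,26031)]) (13,[(3,4680),(0,15),(4,7564)]) (26,[(3,13702),(0,5),(4,4545)]))) (.leaf false ⟨⟨-458,15,90⟩,⟨-15,442,-150⟩,⟨90,150,433⟩⟩ (26,[(2,2850),(4,14153),(0,5)]) (3,[(2,1284),(4,7678),(0,17)]) (13,[(2,8179),(4,10055),(0,25)]))) (.leaf false ⟨⟨-465,10,42⟩,⟨10,-417,210⟩,⟨42,210,415⟩⟩ (25,[(3,12255),(2,3281),(0,7)]) (5,[(3,580),(2,946),(0,7)]) (30,[(3,6210),(2,42239),(0,83)]))) (.node ⟨-462,-17,66⟩ (.node ⟨-63,-66,-458⟩ (.leaf false ⟨⟨-462,-17,66⟩,⟨-63,-66,-458⟩,⟨-26,462,-63⟩⟩ (1,[(1,1)]) (1,[(0,1)])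 (231,[(2,15411),(1,13),(3,106943)])) (.leaf false ⟨⟨-465,42,10⟩,⟨10,210,-417⟩,⟨42,415,210⟩⟩ (9807,[(2,4804496),(1,11112),(0,9103)]) (29421,[(2,57455477),(1,12570),(0,96850)]) (467,[(2,1315072),(1,371),(0,3032)]))) (.node ⟨42,-81,-458⟩ (.leaf false ⟨⟨-458,63,-66⟩,⟨63,-26,-462⟩,⟨66,462,-17⟩⟩ (1,[(4,920),(3,46),(1,1)]) (4972,[(3,270526),(1,225),(0,4983)]) (66,[(4,3498),(3,30203),(1,17)])) (.leaf false ⟨⟨-465,42,10⟩,⟨10,210,-417⟩,⟨42,415,210⟩⟩ (27,[(2,6142),(4,11967),(0,14)]) (19068,[(2,29812216),(0,48425),(1,4815)]) (227,[(2,464892),(0,1137),(1,124)]))))) (.node ⟨0,0,1⟩ (.node ⟨-462,66,-17⟩ (.node ⟨-63,-458,-66⟩ (.leaf false ⟨⟨-462,66,-17⟩,⟨-63,-458,-66⟩,⟨-26,-63,462⟩⟩ (1,[(1,1)]) (1,[(0,1)]) (231,[(2,106943),(1,13),(3,15411)])) (.leaf false ⟨⟨-465,10,42⟩,⟨10,-417,210⟩,⟨42,210,415⟩⟩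 (9807,[(1,11112),(3,4804496),(0,9103)]) (29421,[(1,12570),(3,57455477),(0,96850)]) (467,[(1,371),(3,1315072),(0,3032)]))) (.node ⟨42,-458,-81⟩ (.leaf false ⟨⟨-458,-66,63⟩,⟨63,-462,-26⟩,⟨66,-17,462⟩⟩ (1,[(2,46),(4,920),(1,1)]) (4972,[(2,270526),(0,4983),(1,225)]) (66,[(2,30203),(4,3498),(1,17)])) (.leaf false ⟨⟨-465,10,42⟩,⟨10,-417,210⟩,⟨42,210,415⟩⟩ (27,[(4,11967),(3,6142),(0,14)]) (19068,[(3,29812216),(1,4815),(0,48425)]) (227,[(3,464892),(1,124),(0,1137)])))) (.leaf false ⟨⟨-467,0,0⟩,⟨0,-467,0⟩,⟨0,0,-467⟩⟩ (1,[(2,467)]) (1,[(1,467)]) (1,[(0,467)]))))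
theorem pf467_ok : pf467.check (ok 467 6 ⟨5, 5, 5⟩) (fun _ r => r) [] = true := by decide +kernel

def pf469 : T := .node ⟨1,0,0⟩ (.node ⟨0,1,0⟩ (.node ⟨0,0,1⟩ (.leaf false ⟨⟨0,0,469⟩,⟨0,469,0⟩,⟨469,0,0⟩⟩ (1,[(0,469)]) (1,[(1,469)]) (1,[(2,469)])) (.node ⟨-240,300,-269⟩ (.node ⟨288,-144,-341⟩ (.node ⟨324,307,144⟩ (.leaf false ⟨⟨-179,324,-288⟩,⟨288,-144,-341⟩,⟨324,307,144⟩⟩ (269,[(5,20969),(4,756),(2,288)]) (1,[(1,1)]) (1,[(0,1)])) (.leaf false ⟨⟨-404,-141,-192⟩,⟨24,352,-309⟩,⟨237,-276,-296⟩⟩ (3,[(5,84),(4,805),(0,4)]) (48,[(5,34524),(4,48517),(0,103)]) (18,[(5,16254),(4,6391),(0,37)]))) (.leaf false ⟨⟨-404,228,-69⟩,⟨123,316,324⟩,⟨204,261,-332⟩⟩ (12,[(2,7307),(4,624),(0,19)]) (36,[(2,15275),(4,27180),(0,79)]) (16,[(2,15201),(4,11616),(0,29)]))) (.leaf false ⟨⟨19,360,-300⟩,⟨300,-240,-269⟩,⟨360,181,240⟩⟩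 (240,[(1,77111),(0,19),(2,92100)]) (4,[(1,2421),(0,5),(2,540)]) (2,[(1,327),(0,3),(2,1262)])))) (.node ⟨0,0,1⟩ (.node ⟨-240,-269,300⟩ (.node ⟨288,-341,-144⟩ (.node ⟨324,144,307⟩ (.leaf false ⟨⟨-179,-288,324⟩,⟨288,-341,-144⟩,⟨324,144,307⟩⟩ (269,[(3,756),(5,20969),(2,288)]) (1,[(1,1)]) (1,[(0,1)])) (.leaf false ⟨⟨-404,-237,-24⟩,⟨141,-276,352⟩,⟨192,-296,-309⟩⟩ (48,[(3,23101),(5,6204),(0,79)]) (12,[(3,11285),(5,9144),(0,23)]) (18,[(3,5797),(5,15444),(0,37)]))) (.leaf false ⟨⟨-404,-69,228⟩,⟨123,324,316⟩,⟨204,-332,261⟩⟩ (12,[(4,624),(3,7307),(0,19)]) (36,[(4,27180),(3,15275),(0,79)]) (16,[(4,11616),(3,15201),(0,29)]))) (.leaf false ⟨⟨19,-300,360⟩,⟨300,-269,-240⟩,⟨360,240,181⟩⟩ (240,[(1,92100),(0,19),(2,77111)]) (4,[(1,540),(0,5),(2,2421)]) (2,[(1,1262),(0,3),(2,327)])))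 (.node ⟨19,-456,108⟩ (.node ⟨352,-141,276⟩ (.node ⟨468,24,19⟩ (.leaf false ⟨⟨19,-456,108⟩,⟨24,-107,-456⟩,⟨468,24,19⟩⟩ (1,[(2,1)]) (39,[(3,17822),(0,2),(4,4221)]) (1,[(0,1)])) (.leaf false ⟨⟨-467,-36,-24⟩,⟨24,-432,181⟩,⟨36,-179,-432⟩⟩ (24812,[(3,617081),(1,1880),(0,26173)]) (6203,[(3,3305143),(1,16896),(0,12390)]) (24,[(3,6967),(5,84636),(0,179)]))) (.leaf false ⟨⟨-276,-296,-237⟩,⟨141,192,-404⟩,⟨352,-309,-24⟩⟩ (36876,[(4,5524535),(1,38371),(0,46680)]) (9219,[(4,6089238),(1,331),(0,13624)]) (3073,[(4,1468211),(1,2463),(0,1231)]))) (.node ⟨-171,208,-384⟩ (.leaf false ⟨⟨-171,64,-432⟩,⟨208,-396,-141⟩,⟨384,243,-116⟩⟩ (8,[(4,171),(3,1360),(0,9)]) (36,[(4,8381),(3,35688),(1,47)]) (27,[(4,10919),(3,6663),(1,29)])) (.leaf false ⟨⟨-72,64,-459⟩,⟨316,-333,-96⟩,⟨339,324,-8⟩⟩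 (532,[(3,1060568),(1,2421),(0,45)]) (133,[(3,703105),(1,1640),(0,428)]) (399,[(3,1739908),(1,4698),(0,1313)])))))) (.node ⟨0,1,0⟩ (.node ⟨0,0,1⟩ (.node ⟨-440,-156,45⟩ (.node ⟨240,181,360⟩ (.node ⟨-156,435,-80⟩ (.leaf false ⟨⟨-440,-144,75⟩,⟨-156,435,-80⟩,⟨45,100,456⟩⟩ (1,[(3,30),(2,1),(4,12)]) (1,[(0,1)]) (16,[(3,6216),(4,1057),(1,3)])) (.leaf false ⟨⟨-467,-36,24⟩,⟨-24,432,181⟩,⟨36,-179,432⟩⟩ (10,[(5,5138),(4,945),(0,3)]) (80,[(5,30156),(4,113295),(0,181)]) (5,[(5,4032),(4,10850),(0,27)]))) (.leaf false ⟨⟨-396,-251,-12⟩,⟨-197,324,-276⟩,⟨-156,228,379⟩⟩ (20,[(2,11640),(0,33),(3,953)]) (240,[(2,4680),(0,197),(3,113417)]) (20,[(2,12260),(0,13),(3,6913)]))) (.leaf false ⟨⟨-269,372,-96⟩,⟨-12,109,456⟩,⟨384,264,-53⟩⟩ (13,[(1,147),(3,17137),(0,31)]) (156,[(1,76041),(3,49832),(0,109)])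 (13,[(1,301),(3,4688),(0,22)]))) (.node ⟨-456,19,108⟩ (.node ⟨-141,352,276⟩ (.node ⟨24,468,19⟩ (.leaf false ⟨⟨-456,19,108⟩,⟨-107,24,-456⟩,⟨24,468,19⟩⟩ (1,[(2,1)]) (39,[(3,17822),(5,4221),(0,2)]) (1,[(0,1)])) (.leaf false ⟨⟨-467,24,36⟩,⟨-36,-432,-179⟩,⟨-24,181,-432⟩⟩ (1329,[(0,17688),(1,1391),(4,7820248)]) (2,[(3,301),(0,3),(4,540)]) (1,[(3,413),(0,1),(4,649)]))) (.leaf false ⟨⟨-468,19,-24⟩,⟨19,-108,-456⟩,⟨24,456,-107⟩⟩ (439,[(1,526),(3,84235),(0,244)]) (1317,[(1,703),(3,707159),(0,2451)]) (5268,[(1,403),(3,3168951),(0,2200)]))) (.node ⟨208,-171,-384⟩ (.leaf false ⟨⟨-468,19,-24⟩,⟨19,-108,-456⟩,⟨24,456,-107⟩⟩ (9,[(4,5124),(3,209),(1,2)]) (16,[(4,3648),(3,1521),(0,19)]) (108,[(4,46200),(3,51281),(1,107)])) (.leaf false ⟨⟨-459,-8,-96⟩,⟨-72,339,316⟩,⟨64,324,-333⟩⟩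 (931,[(4,917761),(0,80),(1,1112)]) (2793,[(4,7289440),(0,7652),(1,19035)]) (3724,[(4,24463448),(0,13773),(1,60453)]))))) (.node ⟨0,0,1⟩ (.node ⟨108,-456,19⟩ (.node ⟨276,-141,352⟩ (.node ⟨19,24,468⟩ (.leaf false ⟨⟨-456,-107,24⟩,⟨19,24,468⟩,⟨108,-456,19⟩⟩ (39,[(5,17822),(4,4221),(0,2)]) (1,[(0,1)]) (1,[(2,1)])) (.leaf false ⟨⟨-468,-24,19⟩,⟨19,-456,-108⟩,⟨24,-107,456⟩⟩ (1,[(3,487),(5,449),(0,1)]) (6203,[(5,4452656),(0,14645),(1,17568)]) (141,[(3,26632),(5,26148),(1,107)]))) (.leaf false ⟨⟨-468,19,24⟩,⟨-24,-456,-107⟩,⟨19,-108,456⟩⟩ (9219,[(2,6324854),(0,17613),(1,5062)]) (3073,[(2,191523),(0,1672),(1,3590)]) (36876,[(2,16995639),(0,1000),(1,9043)]))) (.node ⟨-384,208,-171⟩ (.leaf false ⟨⟨-456,19,-108⟩,⟨-107,24,456⟩,⟨-24,-468,19⟩⟩ (16,[(2,1521),(0,19),(3,3648)])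 (108,[(2,51281),(1,107),(3,46200)]) (9,[(2,209),(1,2),(3,5124)])) (.leaf false ⟨⟨-467,-36,24⟩,⟨-24,432,181⟩,⟨36,-179,432⟩⟩ (11172,[(1,89073),(3,38634760),(0,11465)]) (931,[(1,6134),(3,2048176),(0,1667)]) (931,[(1,13311),(3,5439617),(0,3831)])))) (.node ⟨-80,156,-435⟩ (.node ⟨-440,45,156⟩ (.leaf false ⟨⟨-456,45,100⟩,⟨-80,156,-435⟩,⟨-75,-440,-144⟩⟩ (55,[(2,3392),(0,57),(3,90)]) (1,[(1,1)]) (88,[(2,15012),(0,15),(3,39395)])) (.leaf false ⟨⟨-440,-144,-75⟩,⟨45,100,-456⟩,⟨156,-435,-80⟩⟩ (29,[(1,5),(4,12360),(3,4956)]) (2091,[(1,1720),(4,347345),(0,1316)]) (39,[(4,2716),(3,16065),(0,20)]))) (.leaf false ⟨⟨-467,-36,-24⟩,⟨24,-432,181⟩,⟨36,-179,-432⟩⟩ (13,[(1,1617),(3,6311),(0,3)]) (13,[(1,13307),(3,2568),(0,36)]) (156,[(1,145257),(3,8704),(0,179)])))))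
theorem pf469_ok : pf469.check (ok 469 6 ⟨5, 5, 5⟩) (fun _ r => r) [] = true := by decide +kernel

def pf479 : T := .node ⟨1,0,0⟩ (.node ⟨0,1,0⟩ (.node ⟨0,0,1⟩ (.node ⟨-222,106,411⟩ (.node ⟨219,342,-254⟩ (.node ⟨394,-54,267⟩ (.leaf false ⟨⟨-162,331,306⟩,⟨219,342,-254⟩,⟨394,-54,267⟩⟩ (37,[(3,225),(4,9385),(2,27)]) (1,[(1,1)]) (1,[(0,1)])) (.leaf false ⟨⟨-470,90,-21⟩,⟨21,210,430⟩,⟨90,421,-210⟩⟩ (3,[(3,1272),(5,560),(0,5)]) (9,[(3,13215),(5,13979),(0,35)]) (54,[(3,101067),(5,170734),(0,421)]))) (.leaf false ⟨⟨-299,78,366⟩,⟨246,394,117⟩,⟨282,-261,286⟩⟩ (127,[(4,2104),(3,72492),(0,183)]) (254,[(4,88107),(3,140090),(0,117)]) (127,[(4,67131),(3,15759),(0,143)]))) (.leaf false ⟨⟨54,475,30⟩,⟨250,-54,405⟩,⟨405,-30,-254⟩⟩ (37,[(1,4809),(0,9),(2,18529)]) (111,[(1,96330),(0,125),(2,7256)])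 (74,[(1,36689),(0,135),(2,12090)]))) (.node ⟨-210,421,-90⟩ (.node ⟨210,-245,-354⟩ (.node ⟨405,246,70⟩ (.leaf false ⟨⟨-146,330,-315⟩,⟨210,-245,-354⟩,⟨405,246,70⟩⟩ (105,[(3,26505),(4,3917),(2,73)]) (1,[(1,1)]) (1,[(0,1)])) (.leaf false ⟨⟨-453,54,-146⟩,⟨106,-222,-411⟩,⟨114,421,-198⟩⟩ (35,[(5,13710),(4,19848),(0,73)]) (70,[(5,173875),(4,85566),(0,411)]) (35,[(5,44085),(4,39089),(0,99)]))) (.leaf false ⟨⟨-294,363,106⟩,⟨-11,126,-462⟩,⟨378,286,69⟩⟩ (245,[(2,102532),(4,4200),(0,363)]) (35,[(2,22542),(4,3395),(0,18)]) (245,[(2,84339),(4,152670),(0,286)]))) (.leaf false ⟨⟨21,90,-470⟩,⟨210,421,90⟩,⟨430,-210,-21⟩⟩ (10,[(1,4790),(0,1),(2,1321)]) (1,[(0,1),(2,842)]) (21,[(1,4311),(0,43),(2,13693)])))) (.node ⟨0,0,1⟩ (.node ⟨-210,-90,421⟩ (.node ⟨210,-354,-245⟩ (.node ⟨405,70,246⟩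 (.leaf false ⟨⟨-146,-315,330⟩,⟨210,-354,-245⟩,⟨405,70,246⟩⟩ (105,[(3,3917),(4,26505),(2,73)]) (1,[(1,1)]) (1,[(0,1)])) (.leaf false ⟨⟨-453,-146,54⟩,⟨106,-411,-222⟩,⟨114,-198,421⟩⟩ (35,[(3,19848),(5,13710),(0,73)]) (70,[(3,85566),(5,173875),(0,411)]) (35,[(3,39089),(5,44085),(0,99)]))) (.leaf false ⟨⟨-294,-11,378⟩,⟨106,-462,69⟩,⟨363,126,286⟩⟩ (35,[(4,1050),(3,19501),(0,54)]) (245,[(4,40460),(3,137616),(0,69)]) (245,[(4,148995),(3,70374),(0,286)]))) (.leaf false ⟨⟨21,-470,90⟩,⟨210,90,421⟩,⟨430,-21,-210⟩⟩ (10,[(1,1321),(0,1),(2,4790)]) (1,[(1,842),(0,1)]) (21,[(1,13693),(0,43),(2,4311)]))) (.node ⟨-155,-450,-54⟩ (.node ⟨-155,54,-450⟩ (.node ⟨450,75,-146⟩ (.leaf false ⟨⟨-155,54,-450⟩,⟨54,-470,-75⟩,⟨450,75,-146⟩⟩ (1,[(1,1)]) (6,[(5,479),(4,2874),(1,1)]) (1,[(0,1)]))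 (.leaf false ⟨⟨-474,-69,-2⟩,⟨43,-306,366⟩,⟨54,-362,-309⟩⟩ (1437,[(5,185852),(0,1731),(1,568)]) (479,[(5,1052842),(0,2184),(1,319)]) (25866,[(5,93994649),(0,179586),(1,76027)]))) (.leaf false ⟨⟨-114,-411,-218⟩,⟨187,-246,366⟩,⟨426,-2,-219⟩⟩ (150,[(2,25302),(4,4135),(1,137)]) (951,[(4,115372),(0,824),(1,421)]) (27,[(2,6363),(4,11347),(0,1)]))) (.leaf false ⟨⟨43,-54,-474⟩,⟨306,-362,69⟩,⟨366,309,-2⟩⟩ (155,[(1,75792),(0,43),(2,27720)]) (155,[(1,5829),(0,306),(2,193810)]) (155,[(1,20074),(0,366),(2,116805)]))))) (.node ⟨0,1,0⟩ (.node ⟨0,0,1⟩ (.node ⟨-90,421,-210⟩ (.node ⟨-354,-245,210⟩ (.node ⟨70,246,405⟩ (.leaf false ⟨⟨-354,-245,210⟩,⟨-315,330,-146⟩,⟨70,246,405⟩⟩ (1,[(1,1)]) (105,[(5,26505),(2,73),(4,3917)]) (1,[(0,1)])) (.leaf false ⟨⟨-470,-90,21⟩,⟨-90,421,-210⟩,⟨-21,210,430⟩⟩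 (7,[(3,19182),(0,47),(4,10932)]) (7,[(3,2175),(0,9),(4,5161)]) (10,[(3,5515),(0,3),(4,2838)]))) (.leaf false ⟨⟨-470,21,90⟩,⟨-21,430,-210⟩,⟨90,210,421⟩⟩ (35,[(2,3780),(4,17512),(0,3)]) (49,[(2,7770),(4,31473),(0,86)]) (7,[(2,4207),(4,1494),(0,6)]))) (.leaf false ⟨⟨-474,-54,43⟩,⟨-2,309,366⟩,⟨69,-362,306⟩⟩ (210,[(3,103410),(2,6763),(0,43)]) (35,[(3,5560),(2,36496),(0,61)]) (35,[(3,2175),(2,8801),(0,51)]))) (.node ⟨-54,-155,-450⟩ (.node ⟨-450,-155,54⟩ (.node ⟨-146,450,75⟩ (.leaf false ⟨⟨-450,-155,54⟩,⟨-146,450,75⟩,⟨-75,54,-470⟩⟩ (1,[(1,1)]) (1,[(0,1)]) (6,[(3,2874),(1,1),(4,479)])) (.leaf false ⟨⟨-474,-2,-69⟩,⟨43,366,-306⟩,⟨54,-309,-362⟩⟩ (4311,[(1,7604),(4,5418448),(0,9441)]) (8622,[(1,13817),(4,25603987),(0,45126)]) (12933,[(1,24401),(4,35782258),(0,79992)])))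 (.leaf false ⟨⟨-362,-54,-309⟩,⟨-69,474,-2⟩,⟨306,43,-366⟩⟩ (150,[(1,103),(4,48738),(3,7865)]) (27,[(4,2313),(3,12643),(0,1)]) (951,[(1,686),(3,34228),(0,729)]))) (.leaf false ⟨⟨-474,43,-54⟩,⟨-2,366,309⟩,⟨69,306,-362⟩⟩ (155,[(1,27720),(3,75792),(0,43)]) (155,[(1,116805),(3,20074),(0,366)]) (155,[(1,193810),(3,5829),(0,306)])))) (.node ⟨0,0,1⟩ (.node ⟨-54,-450,-155⟩ (.node ⟨-450,54,-155⟩ (.node ⟨-146,75,450⟩ (.leaf false ⟨⟨-450,54,-155⟩,⟨-146,75,450⟩,⟨-75,-470,54⟩⟩ (1,[(1,1)]) (1,[(0,1)]) (6,[(3,479),(1,1),(4,2874)])) (.leaf false ⟨⟨-474,-69,-2⟩,⟨43,-306,366⟩,⟨54,-362,-309⟩⟩ (4311,[(3,5418448),(1,7604),(0,9441)]) (8622,[(3,25603987),(1,13817),(0,45126)]) (12933,[(3,35782258),(1,24401),(0,79992)]))) (.leaf false ⟨⟨-362,-309,-54⟩,⟨-69,-2,474⟩,⟨306,-366,43⟩⟩ (150,[(2,7865),(4,48738),(1,103)])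 (27,[(2,12643),(4,2313),(0,1)]) (951,[(2,34228),(1,686),(0,729)]))) (.leaf false ⟨⟨-474,-54,43⟩,⟨-2,309,366⟩,⟨69,-362,306⟩⟩ (155,[(3,75792),(2,27720),(0,43)]) (155,[(3,20074),(2,116805),(0,366)]) (155,[(3,5829),(2,193810),(0,306)]))) (.leaf false ⟨⟨-479,0,0⟩,⟨0,-479,0⟩,⟨0,0,-479⟩⟩ (1,[(2,479)]) (1,[(1,479)]) (1,[(0,479)]))))
theorem pf479_ok : pf479.check (ok 479 6 ⟨5, 5, 5⟩) (fun _ r => r) [] = true := by decide +kernel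

def pf481 : T := .node ⟨1,0,0⟩ (.node ⟨0,1,0⟩ (.node ⟨0,0,1⟩ (.leaf false ⟨⟨0,0,481⟩,⟨0,481,0⟩,⟨481,0,0⟩⟩ (1,[(0,481)]) (1,[(1,481)]) (1,[(2,481)])) (.node ⟨0,480,31⟩ (.leaf false ⟨⟨0,31,-480⟩,⟨0,480,31⟩,⟨481,0,0⟩⟩ (480,[(1,231361),(0,31)]) (1,[(0,1)]) (1,[(3,481)])) (.leaf false ⟨⟨0,-455,-156⟩,⟨0,156,-455⟩,⟨481,0,0⟩⟩ (31,[(0,156),(2,60775)]) (31,[(0,455),(2,223236)]) (1,[(3,481)])))) (.node ⟨0,0,1⟩ (.node ⟨0,31,480⟩ (.leaf false ⟨⟨0,-480,31⟩,⟨0,31,480⟩,⟨481,0,0⟩⟩ (480,[(0,31),(2,231361)]) (1,[(0,1)]) (1,[(3,481)])) (.leaf false ⟨⟨0,-455,156⟩,⟨0,-156,-455⟩,⟨481,0,0⟩⟩ (31,[(1,223236),(0,455)]) (31,[(1,60775),(0,156)]) (1,[(3,481)]))) (.node ⟨0,156,-455⟩ (.leaf false ⟨⟨0,-455,-156⟩,⟨0,156,-455⟩,⟨481,0,0⟩⟩ (35,[(0,12),(2,17797)]) (1,[(0,1)]) (1,[(3,481)])) (.leaf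 false ⟨⟨0,-455,156⟩,⟨0,-156,-455⟩,⟨481,0,0⟩⟩ (12,[(1,14053),(0,35)]) (1,[(1,910),(0,1)]) (1,[(3,481)]))))) (.node ⟨0,1,0⟩ (.node ⟨0,0,1⟩ (.node ⟨31,0,480⟩ (.leaf false ⟨⟨-480,0,31⟩,⟨0,481,0⟩,⟨31,0,480⟩⟩ (480,[(3,231361),(0,31)]) (1,[(2,481)]) (1,[(0,1)])) (.leaf false ⟨⟨-455,0,156⟩,⟨-156,0,-455⟩,⟨0,481,0⟩⟩ (31,[(1,223236),(0,455)]) (31,[(1,60775),(0,156)]) (1,[(2,481)]))) (.node ⟨156,0,-455⟩ (.leaf false ⟨⟨-455,0,-156⟩,⟨0,481,0⟩,⟨156,0,-455⟩⟩ (35,[(3,17797),(0,12)]) (1,[(2,481)]) (1,[(0,1)])) (.leaf false ⟨⟨-455,0,156⟩,⟨-156,0,-455⟩,⟨0,481,0⟩⟩ (12,[(1,14053),(0,35)]) (1,[(1,910),(0,1)]) (1,[(2,481)])))) (.node ⟨0,0,1⟩ (.node ⟨156,-455,0⟩ (.leaf false ⟨⟨-455,-156,0⟩,⟨0,0,481⟩,⟨156,-455,0⟩⟩ (35,[(3,17797),(0,12)]) (1,[(1,481)]) (1,[(0,1)])) (.leaf false ⟨⟨-455,156,0⟩,⟨-156,-455,0⟩,⟨0,0,481⟩⟩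 (12,[(0,35),(2,14053)]) (1,[(0,1),(2,910)]) (1,[(1,481)]))) (.node ⟨-156,175,-420⟩ (.node ⟨-455,-60,144⟩ (.leaf false ⟨⟨-455,-60,144⟩,⟨-156,175,-420⟩,⟨0,-444,-185⟩⟩ (1,[(0,1)]) (1,[(1,1)]) (1,[(2,185),(3,444)])) (.leaf false ⟨⟨-455,-156,0⟩,⟨-60,175,-444⟩,⟨144,-420,-185⟩⟩ (1,[(4,455),(3,156)]) (12,[(4,17555),(3,120),(0,37)]) (144,[(4,63439),(3,71580),(0,185)]))) (.leaf false ⟨⟨-473,-84,-24⟩,⟨24,-252,409⟩,⟨84,-401,-252⟩⟩ (25,[(1,5640),(3,13697),(0,12)]) (25,[(1,4895),(3,5016),(0,36)]) (175,[(1,212520),(3,47856),(0,401)])))))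
theorem pf481_ok : pf481.check (ok 481 6 ⟨5, 5, 5⟩) (fun _ r => r) [] = true := by decide +kernel

def pf487 : T := .node ⟨1,0,0⟩ (.node ⟨0,1,0⟩ (.node ⟨0,0,1⟩ (.leaf false ⟨⟨0,0,487⟩,⟨0,487,0⟩,⟨487,0,0⟩⟩ (1,[(0,487)]) (1,[(1,487)]) (1,[(2,487)])) (.node ⟨-93,474,-62⟩ (.node ⟨474,-93,-62⟩ (.node ⟨-93,-62,-474⟩ (.leaf false ⟨⟨-93,-62,-474⟩,⟨-6,483,-62⟩,⟨478,-6,-93⟩⟩ (1,[(0,1)]) (1,[(5,87),(4,9),(2,1)]) (158,[(5,78407),(4,974),(0,31)])) (.leaf false ⟨⟨-78,478,-51⟩,⟨189,78,442⟩,⟨442,51,-198⟩⟩ (8308,[(3,505456),(0,1247),(2,8215)]) (12679,[(3,2922368),(1,1488),(0,18183)]) (72009,[(3,8480808),(1,71417),(2,21760)]))) (.leaf false ⟨⟨-467,138,-6⟩,⟨78,246,-413⟩,⟨114,397,258⟩⟩ (31,[(2,3038),(4,7327),(0,46)]) (31,[(2,17887),(4,41286),(0,82)]) (93,[(2,620),(4,198780),(0,397)])))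 (.leaf false ⟨⟨6,483,-62⟩,⟨93,-62,-474⟩,⟨478,6,93⟩⟩ (31,[(1,2046),(0,2),(2,15921)]) (1,[(1,536),(0,1),(2,412)]) (93,[(1,20987),(0,478),(2,227130)])))) (.node ⟨0,0,1⟩ (.node ⟨-93,-62,474⟩ (.node ⟨474,-62,-93⟩ (.node ⟨-93,-474,-62⟩ (.leaf false ⟨⟨-93,-474,-62⟩,⟨-6,-62,483⟩,⟨478,-93,-6⟩⟩ (1,[(0,1)]) (1,[(3,9),(5,87),(2,1)]) (158,[(3,974),(5,78407),(0,31)])) (.leaf false ⟨⟨-78,-51,478⟩,⟨189,442,78⟩,⟨442,-198,51⟩⟩ (8308,[(4,505456),(2,8215),(0,1247)]) (12679,[(1,1488),(4,2922368),(0,18183)]) (72009,[(1,71417),(4,8480808),(2,21760)]))) (.leaf false ⟨⟨-467,-6,138⟩,⟨78,-413,246⟩,⟨114,258,397⟩⟩ (31,[(4,7327),(3,3038),(0,46)]) (31,[(4,41286),(3,17887),(0,82)]) (93,[(4,198780),(3,620),(0,397)]))) (.leaf false ⟨⟨6,-62,483⟩,⟨93,-474,-62⟩,⟨478,93,6⟩⟩ (31,[(1,15921),(0,2),(2,2046)])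 (1,[(1,412),(0,1),(2,536)]) (93,[(1,227130),(0,478),(2,20987)]))) (.node ⟨42,-483,46⟩ (.node ⟨483,42,46⟩ (.node ⟨42,46,-483⟩ (.leaf false ⟨⟨42,46,-483⟩,⟨46,-483,-42⟩,⟨483,42,46⟩⟩ (1,[(0,1)]) (21,[(3,974),(1,2),(4,10227)]) (1,[(1,1)])) (.leaf false ⟨⟨-285,-390,-62⟩,⟨138,-170,435⟩,⟨370,-237,-210⟩⟩ (3409,[(3,14436628),(1,545),(0,29400)]) (3409,[(3,5696926),(1,2248),(0,14651)]) (20454,[(3,68331457),(1,26974),(0,130011)]))) (.node ⟨-114,78,-467⟩ (.leaf false ⟨⟨-414,-237,-98⟩,⟨82,54,-477⟩,⟨243,-422,-6⟩⟩ (4025,[(5,2974146),(2,1131),(1,9706)]) (1289,[(5,569990),(1,666),(0,1251)]) (2415,[(5,1583946),(2,1916),(1,2231)])) (.leaf false ⟨⟨-477,-98,-6⟩,⟨54,-237,-422⟩,⟨82,-414,243⟩⟩ (7077,[(3,1796414),(0,4550),(1,8063)]) (14,[(3,2274),(5,38913),(1,79)]) (1289,[(5,4599752),(0,1625),(1,9688)]))))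 (.leaf false ⟨⟨-285,-62,-390⟩,⟨138,435,-170⟩,⟨370,-210,-237⟩⟩ (23,[(3,1635),(2,95611),(0,195)]) (23,[(3,6744),(2,31050),(0,85)]) (46,[(3,26974),(2,124131),(0,237)]))))) (.node ⟨0,1,0⟩ (.node ⟨0,0,1⟩ (.node ⟨-62,474,-93⟩ (.node ⟨-62,-93,474⟩ (.node ⟨-474,-93,-62⟩ (.leaf false ⟨⟨-483,-62,6⟩,⟨-62,474,-93⟩,⟨-6,93,478⟩⟩ (158,[(3,10930),(0,161),(4,5177)]) (1,[(2,1)]) (31,[(3,13396),(1,3),(4,3162)])) (.leaf false ⟨⟨-413,210,150⟩,⟨150,-35,462⟩,⟨210,438,-35⟩⟩ (24003,[(1,10070),(5,8507079),(2,12610)]) (6231,[(1,5642),(5,278324),(0,3297)]) (12679,[(5,523668),(2,10137),(0,8048)]))) (.leaf false ⟨⟨-474,93,-62⟩,⟨-62,6,483⟩,⟨93,478,6⟩⟩ (1,[(2,412),(4,536),(0,1)]) (31,[(2,15921),(4,2046),(0,2)]) (93,[(2,227130),(4,20987),(0,478)]))) (.leaf false ⟨⟨-474,-62,93⟩,⟨-62,483,6⟩,⟨93,6,478⟩⟩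 (1,[(3,536),(2,412),(0,1)]) (31,[(3,2046),(2,15921),(0,2)]) (93,[(3,20987),(2,227130),(0,478)]))) (.node ⟨-483,42,46⟩ (.node ⟨42,483,46⟩ (.node ⟨46,42,-483⟩ (.leaf false ⟨⟨-483,46,-42⟩,⟨42,483,46⟩,⟨46,42,-483⟩⟩ (21,[(3,974),(5,10227),(1,2)]) (1,[(1,1)]) (1,[(0,1)])) (.leaf false ⟨⟨-483,-6,-62⟩,⟨-62,93,474⟩,⟨6,478,-93⟩⟩ (6818,[(3,38248493),(0,77679),(1,6670)]) (3409,[(3,1161982),(0,5642),(1,1147)]) (10227,[(3,5599526),(0,8589),(1,10868)]))) (.node ⟨78,-114,-467⟩ (.leaf false ⟨⟨-422,243,-6⟩,⟨-237,-414,-98⟩,⟨54,82,-477⟩⟩ (2415,[(1,2231),(2,1916),(4,1583946)]) (4025,[(1,9706),(2,1131),(4,2974146)]) (1289,[(1,666),(4,569990),(0,1251)])) (.leaf false ⟨⟨-477,82,54⟩,⟨-98,-414,-237⟩,⟨-6,243,-422⟩⟩ (2578,[(1,24283),(0,2690),(4,11633425)]) (3,[(3,389),(1,7),(4,2139)])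 (7,[(3,2908),(1,1),(4,2184)])))) (.leaf false ⟨⟨-467,114,-78⟩,⟨6,-258,-413⟩,⟨138,397,-246⟩⟩ (23,[(3,29578),(2,4260),(0,39)]) (46,[(3,199203),(2,5478),(0,413)]) (23,[(3,56235),(2,14297),(0,123)])))) (.node ⟨0,0,1⟩ (.node ⟨42,46,483⟩ (.node ⟨46,-483,42⟩ (.leaf false ⟨⟨-483,-42,46⟩,⟨42,46,483⟩,⟨46,-483,42⟩⟩ (21,[(4,10227),(3,974),(1,2)]) (1,[(1,1)]) (1,[(0,1)])) (.leaf false ⟨⟨-483,-62,-6⟩,⟨-62,474,93⟩,⟨6,-93,478⟩⟩ (6818,[(3,38248493),(1,6670),(0,77679)]) (3409,[(3,1161982),(1,1147),(0,5642)]) (10227,[(3,5599526),(1,10868),(0,8589)]))) (.node ⟨118,-462,99⟩ (.leaf false ⟨⟨-429,-62,222⟩,⟨-198,-141,-422⟩,⟨118,-462,99⟩⟩ (23,[(2,20079),(4,8565),(1,31)]) (46,[(2,48691),(4,3186),(1,141)]) (1,[(0,1)])) (.leaf false ⟨⟨-477,54,82⟩,⟨-98,-237,-414⟩,⟨-6,-422,243⟩⟩ (118,[(2,56899),(0,477),(3,214002)])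 (3,[(2,2139),(1,7),(3,389)]) (7,[(2,2184),(1,1),(3,2908)])))) (.node ⟨-150,210,-413⟩ (.node ⟨-306,-323,198⟩ (.node ⟨163,-342,-306⟩ (.leaf false ⟨⟨-342,126,-323⟩,⟨-306,-323,198⟩,⟨163,-342,-306⟩⟩ (5,[(3,376),(2,3),(5,1260)]) (1,[(1,1)]) (1,[(0,1)])) (.leaf false ⟨⟨-462,-35,150⟩,⟨-150,210,-413⟩,⟨-35,-438,-210⟩⟩ (163,[(3,116922),(0,462),(4,163709)]) (163,[(3,113219),(0,150),(4,17070)]) (163,[(3,44940),(0,35),(4,83364)]))) (.leaf false ⟨⟨-477,-6,-98⟩,⟨54,-422,-237⟩,⟨82,243,-414⟩⟩ (99,[(4,62217),(3,16421),(0,49)]) (66,[(4,20610),(3,53369),(0,79)]) (11,[(4,6136),(3,4756),(0,23)]))) (.leaf false ⟨⟨-477,-98,-6⟩,⟨54,-237,-422⟩,⟨82,-414,243⟩⟩ (15,[(1,2981),(3,8205),(0,7)]) (70,[(1,62167),(3,8070),(0,79)]) (35,[(1,19992),(3,7480),(0,69)])))))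
theorem pf487_ok : pf487.check (ok 487 6 ⟨5, 5, 5⟩) (fun _ r => r) [] = true := by decide +kernel

def pf491 : T := .node ⟨1,0,0⟩ (.node ⟨0,1,0⟩ (.node ⟨0,0,1⟩ (.node ⟨-234,138,409⟩ (.node ⟨166,423,-186⟩ (.node ⟨441,-86,198⟩ (.leaf false ⟨⟨-138,234,409⟩,⟨166,423,-186⟩,⟨441,-86,198⟩⟩ (1,[(5,96),(4,96),(2,1)]) (1,[(1,1)]) (1,[(0,1)])) (.leaf false ⟨⟨-474,94,87⟩,⟨-42,201,-446⟩,⟨121,438,186⟩⟩ (43,[(3,13047),(5,345),(0,47)]) (86,[(3,1442),(5,85029),(0,201)]) (43,[(3,51360),(5,101782),(0,219)]))) (.leaf false ⟨⟨-306,-39,382⟩,⟨247,354,234⟩,⟨294,-338,201⟩⟩ (93,[(4,3248),(3,77166),(0,191)]) (31,[(4,14131),(3,27471),(0,39)]) (62,[(4,29350),(3,7385),(0,67)]))) (.leaf false ⟨⟨30,490,9⟩,⟨270,-9,-410⟩,⟨409,-30,270⟩⟩ (39,[(1,2396),(0,5),(2,19800)]) (13,[(1,805),(0,15),(2,1953)])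 (234,[(1,230461),(0,409),(2,49422)]))) (.node ⟨-126,58,-471⟩ (.node ⟨-122,471,66⟩ (.leaf false ⟨⟨-126,58,-471⟩,⟨-23,486,66⟩,⟨474,39,-122⟩⟩ (1,[(1,1)]) (157,[(2,330),(4,16153),(0,162)]) (157,[(2,20012),(4,76004),(0,13)])) (.leaf false ⟨⟨-87,186,-446⟩,⟨94,-438,-201⟩,⟨474,121,-42⟩⟩ (471,[(4,15219),(3,61738),(1,446)]) (10963,[(3,484732),(1,3053),(0,11600)]) (11,[(4,4360),(3,4628),(0,7)]))) (.leaf false ⟨⟨30,490,9⟩,⟨270,-9,-410⟩,⟨409,-30,270⟩⟩ (21,[(1,2166),(0,5),(2,10580)]) (7,[(1,9935),(0,15),(2,807)]) (126,[(1,158619),(0,409),(2,19942)])))) (.node ⟨0,0,1⟩ (.node ⟨-126,-471,58⟩ (.node ⟨-122,66,471⟩ (.leaf false ⟨⟨-126,-471,58⟩,⟨-23,66,486⟩,⟨474,-122,39⟩⟩ (1,[(1,1)]) (157,[(4,16153),(3,330),(0,162)]) (157,[(4,76004),(3,20012),(0,13)])) (.leaf false ⟨⟨-87,-446,186⟩,⟨94,-201,-438⟩,⟨474,-42,121⟩⟩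 (471,[(2,61738),(4,15219),(1,446)]) (10963,[(2,484732),(0,11600),(1,3053)]) (11,[(2,4628),(4,4360),(0,7)]))) (.leaf false ⟨⟨30,9,490⟩,⟨270,-410,-9⟩,⟨409,270,-30⟩⟩ (21,[(1,10580),(0,5),(2,2166)]) (7,[(1,807),(0,15),(2,9935)]) (126,[(1,19942),(0,409),(2,158619)]))) (.node ⟨94,201,-438⟩ (.node ⟨474,-87,94⟩ (.node ⟨-42,-446,-201⟩ (.leaf false ⟨⟨-42,-446,-201⟩,⟨121,186,-438⟩,⟨474,-87,94⟩⟩ (1,[(0,1)]) (1,[(2,1),(5,27),(4,15)]) (1,[(1,1)])) (.leaf false ⟨⟨39,354,-338⟩,⟨306,247,294⟩,⟨382,-234,-201⟩⟩ (14,[(3,7345),(0,13),(4,842)]) (7,[(3,8193),(0,51),(4,21017)]) (21,[(3,42612),(0,191),(4,90100)]))) (.leaf false ⟨⟨-474,39,-122⟩,⟨-23,-486,-66⟩,⟨126,58,-471⟩⟩ (47,[(4,6636),(3,3474),(0,61)]) (47,[(4,14561),(3,25713),(0,33)]) (94,[(4,235098),(3,35525),(0,471)]))) (.leaf false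 ⟨⟨-201,-446,42⟩,⟨94,-87,-474⟩,⟨438,-186,121⟩⟩ (201,[(1,186906),(3,1523),(0,446)]) (67,[(1,44460),(3,9024),(0,29)]) (67,[(1,19049),(3,35174),(0,62)]))))) (.node ⟨0,1,0⟩ (.node ⟨0,0,1⟩ (.node ⟨-471,-126,58⟩ (.node ⟨66,-122,471⟩ (.leaf false ⟨⟨-486,-39,58⟩,⟨-23,474,126⟩,⟨66,-122,471⟩⟩ (1,[(1,1),(4,15),(3,87)]) (157,[(4,6383),(3,79542),(0,42)]) (1,[(0,1)])) (.leaf false ⟨⟨-474,-39,-122⟩,⟨-126,58,471⟩,⟨-23,486,-66⟩⟩ (21926,[(2,2649991),(1,20134),(0,13785)]) (157,[(2,71511),(1,42),(3,14398)]) (66,[(2,6477),(0,23),(3,29270)]))) (.leaf false ⟨⟨-410,270,-9⟩,⟨9,30,490⟩,⟨270,409,-30⟩⟩ (7,[(1,807),(3,9935),(0,15)]) (21,[(1,10580),(3,2166),(0,5)]) (126,[(1,19942),(3,158619),(0,409)]))) (.node ⟨201,94,-438⟩ (.node ⟨-87,474,94⟩ (.node ⟨-446,-42,-201⟩ (.leaf false ⟨⟨-446,-42,-201⟩,⟨-87,474,94⟩,⟨186,121,-438⟩⟩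 (1,[(0,1)]) (1,[(1,1)]) (1,[(5,15),(4,27),(2,1)])) (.leaf false ⟨⟨-486,58,-39⟩,⟨-23,126,474⟩,⟨66,471,-122⟩⟩ (21,[(3,6648),(5,23140),(0,29)]) (1,[(3,129),(5,1361),(0,3)]) (14,[(3,33265),(5,69098),(0,157)]))) (.leaf false ⟨⟨-489,42,-14⟩,⟨-14,-294,-393⟩,⟨42,391,-294⟩⟩ (47,[(4,23592),(3,5292),(0,7)]) (94,[(4,35507),(3,158646),(0,393)]) (47,[(4,10815),(3,88055),(0,147)]))) (.leaf false ⟨⟨-446,-201,42⟩,⟨-186,438,121⟩,⟨-87,94,-474⟩⟩ (201,[(1,186906),(0,446),(2,1523)]) (67,[(1,19049),(0,62),(2,35174)]) (67,[(1,44460),(0,29),(2,9024)])))) (.node ⟨0,0,1⟩ (.node ⟨201,-438,94⟩ (.node ⟨-87,94,474⟩ (.node ⟨-446,-201,-42⟩ (.leaf false ⟨⟨-446,-201,-42⟩,⟨-87,94,474⟩,⟨186,-438,121⟩⟩ (1,[(0,1)]) (1,[(1,1)]) (1,[(3,27),(5,15),(2,1)])) (.leaf false ⟨⟨-486,-39,58⟩,⟨-23,474,126⟩,⟨66,-122,471⟩⟩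 (21,[(5,23140),(4,6648),(0,29)]) (1,[(5,1361),(4,129),(0,3)]) (14,[(5,69098),(4,33265),(0,157)]))) (.leaf false ⟨⟨-489,-14,42⟩,⟨-14,-393,-294⟩,⟨42,-294,391⟩⟩ (47,[(2,5292),(4,23592),(0,7)]) (94,[(2,158646),(4,35507),(0,393)]) (47,[(2,88055),(4,10815),(0,147)]))) (.leaf false ⟨⟨-446,42,-201⟩,⟨-186,121,438⟩,⟨-87,-474,94⟩⟩ (201,[(1,1523),(0,446),(2,186906)]) (67,[(1,35174),(0,62),(2,19049)]) (67,[(1,9024),(0,29),(2,44460)]))) (.leaf false ⟨⟨-491,0,0⟩,⟨0,-491,0⟩,⟨0,0,-491⟩⟩ (1,[(2,491)]) (1,[(1,491)]) (1,[(0,491)]))))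
theorem pf491_ok : pf491.check (ok 491 6 ⟨5, 5, 5⟩) (fun _ r => r) [] = true := by decide +kernel

def pf493 : T := .node ⟨1,0,0⟩ (.node ⟨0,1,0⟩ (.node ⟨0,0,1⟩ (.leaf false ⟨⟨0,0,493⟩,⟨0,493,0⟩,⟨493,0,0⟩⟩ (1,[(0,493)]) (1,[(1,493)]) (1,[(2,493)])) (.node ⟨-155,0,-468⟩ (.leaf false ⟨⟨-155,0,-468⟩,⟨0,493,0⟩,⟨468,0,-155⟩⟩ (1,[(0,1)]) (1,[(2,493)]) (468,[(3,243049),(0,155)])) (.leaf false ⟨⟨0,493,0⟩,⟨232,0,-435⟩,⟨435,0,232⟩⟩ (1,[(2,493)]) (155,[(1,176001),(0,232)]) (31,[(1,33524),(0,87)])))) (.node ⟨0,0,1⟩ (.node ⟨-155,-468,0⟩ (.leaf false ⟨⟨-155,-468,0⟩,⟨0,0,493⟩,⟨468,-155,0⟩⟩ (1,[(0,1)]) (1,[(1,493)]) (468,[(3,243049),(0,155)])) (.leaf false ⟨⟨0,0,493⟩,⟨232,-435,0⟩,⟨435,232,0⟩⟩ (1,[(1,493)]) (155,[(0,232),(2,176001)]) (31,[(0,87),(2,33524)]))) (.node ⟨-92,-483,-36⟩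 (.node ⟨-92,84,-477⟩ (.leaf false ⟨⟨-92,-483,-36⟩,⟨-84,52,-483⟩,⟨477,-84,-92⟩⟩ (1,[(1,1)]) (159,[(4,1456),(3,5256),(0,161)]) (477,[(4,235993),(3,47796),(0,92)])) (.node ⟨-12,-348,349⟩ (.leaf false ⟨⟨-29,-348,-348⟩,⟨-12,-348,349⟩,⟨492,-29,-12⟩⟩ (161,[(3,51852),(5,6003),(2,116)]) (1,[(0,1)]) (12,[(3,493),(5,5916),(0,1)])) (.leaf false ⟨⟨-99,-372,-308⟩,⟨252,-308,291⟩,⟨412,99,-252⟩⟩ (2295720,[(1,750745),(2,3571192),(0,2683737)]) (860895,[(1,6003530),(2,4560704),(0,7017129)]) (57393,[(1,649976),(2,507407),(0,877464)])))) (.leaf false ⟨⟨27,-308,-384⟩,⟨204,357,-272⟩,⟨448,-144,147⟩⟩ (92,[(1,36300),(0,27),(2,41377)]) (23,[(1,8092),(0,51),(2,16422)]) (23,[(1,651),(0,112),(2,57408)]))))) (.node ⟨0,1,0⟩ (.node ⟨0,0,1⟩ (.node ⟨-468,-155,0⟩ (.leaf false ⟨⟨-468,-155,0⟩,⟨-155,468,0⟩,⟨0,0,493⟩⟩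 (1,[(0,1)]) (468,[(0,155),(2,243049)]) (1,[(1,493)])) (.leaf false ⟨⟨-435,232,0⟩,⟨0,0,493⟩,⟨232,435,0⟩⟩ (155,[(3,176001),(0,232)]) (1,[(1,493)]) (31,[(3,33524),(0,87)]))) (.node ⟨-483,-92,-36⟩ (.node ⟨84,-92,-477⟩ (.leaf false ⟨⟨-483,-92,-36⟩,⟨-84,477,-92⟩,⟨52,-84,-483⟩⟩ (1,[(1,1)]) (477,[(4,47796),(3,235993),(0,92)]) (159,[(4,5256),(3,1456),(0,161)])) (.node ⟨-348,-12,349⟩ (.leaf false ⟨⟨-348,-29,-348⟩,⟨-348,-12,349⟩,⟨-29,492,-12⟩⟩ (161,[(3,51852),(2,116),(4,6003)]) (1,[(0,1)]) (12,[(3,493),(0,1),(4,5916)])) (.leaf false ⟨⟨-492,-29,12⟩,⟨-29,348,-348⟩,⟨-12,348,349⟩⟩ (765240,[(2,1583704),(1,1160365),(0,1396269)]) (172179,[(2,1503853),(1,1827232),(0,2513952)]) (286965,[(2,1520552),(1,2260865),(0,2646252)])))) (.leaf false ⟨⟨-456,168,-83⟩,⟨132,133,-456⟩,⟨133,444,168⟩⟩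 (23,[(1,3421),(3,30774),(0,42)]) (92,[(1,46740),(3,52095),(0,133)]) (23,[(1,132),(3,50554),(0,111)])))) (.node ⟨0,0,1⟩ (.node ⟨-483,-36,-92⟩ (.node ⟨84,-477,-92⟩ (.leaf false ⟨⟨-483,-36,-92⟩,⟨-84,-92,477⟩,⟨52,-483,-84⟩⟩ (1,[(1,1)]) (477,[(2,235993),(4,47796),(0,92)]) (159,[(2,1456),(4,5256),(0,161)])) (.node ⟨-348,349,-12⟩ (.leaf false ⟨⟨-348,-348,-29⟩,⟨-348,349,-12⟩,⟨-29,-12,492⟩⟩ (161,[(3,6003),(2,116),(4,51852)]) (1,[(0,1)]) (12,[(3,5916),(0,1),(4,493)])) (.leaf false ⟨⟨-492,-29,-12⟩,⟨-29,348,348⟩,⟨12,-348,349⟩⟩ (19131,[(1,40547),(2,49808),(0,51870)]) (860895,[(1,6855020),(2,4646177),(0,8031492)]) (36440,[(1,380615),(2,310792),(0,524487)])))) (.leaf false ⟨⟨-456,-83,168⟩,⟨132,-456,133⟩,⟨133,168,444⟩⟩ (23,[(3,30774),(2,3421),(0,42)]) (92,[(3,52095),(2,46740),(0,133)])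 (23,[(3,50554),(2,132),(0,111)]))) (.node ⟨-173,216,-408⟩ (.node ⟨-272,-336,237⟩ (.node ⟨204,-357,-272⟩ (.leaf false ⟨⟨-357,52,-336⟩,⟨-272,-336,237⟩,⟨204,-357,-272⟩⟩ (17,[(2,14),(5,3647),(4,2140)]) (1,[(1,1)]) (1,[(0,1)])) (.leaf false ⟨⟨-456,-12,187⟩,⟨-173,216,-408⟩,⟨-72,-443,-204⟩⟩ (17,[(3,7157),(0,38),(4,13770)]) (204,[(3,130288),(0,173),(4,17697)]) (17,[(3,5100),(0,6),(4,9673)]))) (.leaf false ⟨⟨-488,48,-51⟩,⟨-12,-411,-272⟩,⟨69,268,-408⟩⟩ (79,[(4,43176),(3,1920),(0,17)]) (237,[(4,76828),(3,188799),(0,272)]) (79,[(4,31541),(3,24524),(0,136)]))) (.leaf false ⟨⟨-492,-27,16⟩,⟨16,-432,-237⟩,⟨27,-236,432⟩⟩ (8,[(1,280),(3,4109),(0,1)]) (1,[(1,1053),(3,330),(0,2)]) (54,[(1,744),(3,8749),(0,59)])))))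
theorem pf493_ok : pf493.check (ok 493 6 ⟨5, 5, 5⟩) (fun _ r => r) [] = true := by decide +kernel

def pf499 : T := .node ⟨1,0,0⟩ (.node ⟨0,1,0⟩ (.node ⟨0,0,1⟩ (.leaf false ⟨⟨0,0,499⟩,⟨0,499,0⟩,⟨499,0,0⟩⟩ (1,[(0,499)]) (1,[(1,499)]) (1,[(2,499)])) (.node ⟨-186,31,-462⟩ (.node ⟨-186,463,-6⟩ (.node ⟨6,498,31⟩ (.leaf false ⟨⟨-186,31,-462⟩,⟨6,498,31⟩,⟨463,6,-186⟩⟩ (1,[(2,1)]) (1,[(0,1)]) (31,[(3,2994),(5,15469),(2,6)])) (.leaf false ⟨⟨-486,-6,-113⟩,⟨49,438,-234⟩,⟨102,-239,-426⟩⟩ (955,[(4,386462),(1,2398),(0,3017)]) (31,[(5,2923),(4,130110),(0,234)]) (31,[(5,5718),(4,204739),(0,426)]))) (.leaf false ⟨⟨-111,66,-482⟩,⟨274,417,-6⟩,⟨402,-266,-129⟩⟩ (14136,[(3,3434100),(1,14831),(0,6395)]) (3534,[(3,3933736),(1,115),(0,5321)]) (4712,[(3,4095544),(1,1467),(0,11651)])))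 (.node ⟨319,-174,-342⟩ (.leaf false ⟨⟨6,31,-498⟩,⟨186,462,31⟩,⟨463,-186,-6⟩⟩ (31,[(2,15900),(1,1),(3,992)]) (1,[(2,431),(1,1),(3,493)]) (35165,[(0,35837),(1,26072),(3,503180)])) (.leaf false ⟨⟨-410,225,-174⟩,⟨-126,130,465⟩,⟨255,426,-50⟩⟩ (4495,[(2,2815500),(1,87),(0,5828)]) (22475,[(2,5513085),(1,19546),(0,20274)]) (22475,[(2,114207940),(1,180264),(0,87141)]))))) (.node ⟨0,0,1⟩ (.node ⟨-186,-462,31⟩ (.node ⟨-186,-6,463⟩ (.node ⟨6,31,498⟩ (.leaf false ⟨⟨-186,-462,31⟩,⟨6,31,498⟩,⟨463,-186,6⟩⟩ (1,[(2,1)]) (1,[(0,1)]) (31,[(5,15469),(4,2994),(2,6)])) (.leaf false ⟨⟨-486,-113,-6⟩,⟨49,-234,438⟩,⟨102,-426,-239⟩⟩ (955,[(3,386462),(0,3017),(1,2398)]) (31,[(3,130110),(5,2923),(0,234)]) (31,[(3,204739),(5,5718),(0,426)]))) (.leaf false ⟨⟨-111,-482,66⟩,⟨274,-6,417⟩,⟨402,-129,-266⟩⟩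 (14136,[(2,3434100),(0,6395),(1,14831)]) (3534,[(2,3933736),(0,5321),(1,115)]) (4712,[(2,4095544),(0,11651),(1,1467)]))) (.node ⟨319,-342,-174⟩ (.leaf false ⟨⟨6,-498,31⟩,⟨186,31,462⟩,⟨463,-6,-186⟩⟩ (31,[(2,992),(1,1),(3,15900)]) (1,[(2,493),(1,1),(3,431)]) (35165,[(2,503180),(1,26072),(0,35837)])) (.leaf false ⟨⟨-410,-174,225⟩,⟨-126,465,130⟩,⟨255,-50,426⟩⟩ (4495,[(1,87),(3,2815500),(0,5828)]) (22475,[(1,19546),(3,5513085),(0,20274)]) (22475,[(1,180264),(3,114207940),(0,87141)])))) (.node ⟨-255,-374,-210⟩ (.node ⟨270,130,-399⟩ (.node ⟨351,-330,130⟩ (.leaf false ⟨⟨-230,-351,-270⟩,⟨270,130,-399⟩,⟨351,-330,130⟩⟩ (51,[(3,4110),(4,697),(2,46)]) (1,[(1,1)]) (1,[(0,1)])) (.leaf false ⟨⟨-465,-50,-174⟩,⟨126,255,-410⟩,⟨130,-426,-225⟩⟩ (65,[(5,312),(4,31960),(0,87)]) (13,[(5,16029),(4,10215),(0,41)])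 (26,[(5,19175),(4,25926),(0,45)]))) (.leaf false ⟨⟨-426,-258,31⟩,⟨174,-239,402⟩,⟨193,-354,-294⟩⟩ (65,[(2,49456),(4,7140),(0,129)]) (130,[(2,43101),(4,87150),(0,239)]) (65,[(2,89733),(4,60335),(0,177)]))) (.leaf false ⟨⟨22,-111,-486⟩,⟨351,-342,94⟩,⟨354,346,-63⟩⟩ (255,[(1,128550),(0,22),(2,36533)]) (85,[(1,16580),(0,117),(2,72828)]) (85,[(1,30135),(0,118),(2,14722)]))))) (.node ⟨0,1,0⟩ (.node ⟨0,0,1⟩ (.node ⟨-462,-186,31⟩ (.node ⟨-6,-186,463⟩ (.node ⟨31,6,498⟩ (.leaf false ⟨⟨-462,-186,31⟩,⟨-186,463,6⟩,⟨31,6,498⟩⟩ (1,[(2,1)]) (31,[(2,6),(5,2994),(4,15469)]) (1,[(0,1)])) (.leaf false ⟨⟨-482,-111,66⟩,⟨-129,402,-266⟩,⟨-6,274,417⟩⟩ (1910,[(3,14813007),(1,183),(0,29662)]) (31,[(3,55996),(0,129),(4,13236)]) (31,[(3,15915),(0,6),(4,8530)]))) (.leaf false ⟨⟨-482,-111,66⟩,⟨-129,402,-266⟩,⟨-6,274,417⟩⟩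 (14136,[(2,3434100),(1,14831),(0,6395)]) (4712,[(2,4095544),(1,1467),(0,11651)]) (3534,[(2,3933736),(1,115),(0,5321)]))) (.node ⟨-342,319,-174⟩ (.leaf false ⟨⟨-498,6,31⟩,⟨-6,463,-186⟩,⟨31,186,462⟩⟩ (31,[(2,992),(4,15900),(1,1)]) (35165,[(2,503180),(0,35837),(1,26072)]) (1,[(2,493),(4,431),(1,1)])) (.leaf false ⟨⟨-498,-6,31⟩,⟨6,463,186⟩,⟨31,-186,462⟩⟩ (4495,[(4,3437460),(1,1769),(0,1116)]) (22475,[(4,81237660),(1,139896),(0,48949)]) (22475,[(4,79856515),(1,115014),(0,80166)])))) (.node ⟨-374,-255,-210⟩ (.node ⟨-330,351,130⟩ (.node ⟨193,174,-426⟩ (.leaf false ⟨⟨-354,-239,-258⟩,⟨-294,402,31⟩,⟨193,174,-426⟩⟩ (187,[(3,11076),(2,177),(4,442)]) (55,[(3,4665),(1,49),(4,4911)]) (1,[(0,1)])) (.leaf false ⟨⟨-438,49,234⟩,⟨-239,-102,-426⟩,⟨-6,486,-113⟩⟩ (193,[(3,141426),(0,438),(4,85669)])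 (193,[(3,184032),(0,239),(4,21900)]) (193,[(3,24365),(0,6),(4,94842)]))) (.leaf false ⟨⟨-486,-6,-113⟩,⟨49,438,-234⟩,⟨102,-239,-426⟩⟩ (130,[(4,100470),(3,38883),(0,113)]) (5,[(4,2725),(3,5349),(0,9)]) (65,[(4,63660),(3,59228),(0,213)]))) (.leaf false ⟨⟨-450,175,-126⟩,⟨126,450,175⟩,⟨175,126,-450⟩⟩ (51,[(1,13776),(3,36040),(0,35)]) (17,[(1,3325),(3,9078),(0,30)]) (85,[(1,47070),(3,833),(0,42)])))) (.node ⟨0,0,1⟩ (.node ⟨-374,-210,-255⟩ (.node ⟨-330,130,351⟩ (.node ⟨193,-426,174⟩ (.leaf false ⟨⟨-354,-258,-239⟩,⟨-294,31,402⟩,⟨193,-426,174⟩⟩ (187,[(3,442),(2,177),(4,11076)]) (55,[(3,4911),(1,49),(4,4665)]) (1,[(0,1)])) (.leaf false ⟨⟨-438,234,49⟩,⟨-239,-426,-102⟩,⟨-6,-113,486⟩⟩ (193,[(3,85669),(0,438),(4,141426)]) (193,[(3,21900),(0,239),(4,184032)]) (193,[(3,94842),(0,6),(4,24365)])))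 (.leaf false ⟨⟨-486,-113,-6⟩,⟨49,-234,438⟩,⟨102,-426,-239⟩⟩ (130,[(2,38883),(4,100470),(0,113)]) (5,[(2,5349),(4,2725),(0,9)]) (65,[(2,59228),(4,63660),(0,213)]))) (.leaf false ⟨⟨-450,-126,175⟩,⟨126,175,450⟩,⟨175,-450,126⟩⟩ (51,[(3,36040),(2,13776),(0,35)]) (17,[(3,9078),(2,3325),(0,30)]) (85,[(3,833),(2,47070),(0,42)]))) (.node ⟨-111,274,-402⟩ (.node ⟨-482,-6,129⟩ (.leaf false ⟨⟨-482,-6,129⟩,⟨-111,274,-402⟩,⟨-66,-417,-266⟩⟩ (1,[(0,1)]) (1,[(1,1)]) (37,[(2,998),(1,22),(3,21457)])) (.leaf false ⟨⟨-450,49,-210⟩,⟨49,-450,-210⟩,⟨210,210,-401⟩⟩ (67,[(1,35),(4,26265),(3,6307)]) (43,[(4,31633),(3,19770),(0,70)]) (1497,[(1,1122),(4,118762),(0,1157)]))) (.leaf false ⟨⟨-482,-129,6⟩,⟨66,-266,-417⟩,⟨111,-402,274⟩⟩ (274,[(1,50214),(3,146387),(0,129)]) (137,[(1,110595),(3,5721),(0,133)])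 (137,[(1,43264),(3,7104),(0,201)])))))
theorem pf499_ok : pf499.check (ok 499 6 ⟨5, 5, 5⟩) (fun _ r => r) [] = true := by decide +kernel


end H34S
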