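import Pool.Agent.Lib.H34S.Cover

/-!
# H34S: certificates (generated), pentagonal numbers
-/

set_option autoImplicit false

namespace H34S

def pa243 : T := .node ⟨1,0,0⟩ (.node ⟨0,1,0⟩ (.node ⟨0,0,1⟩ (.node ⟨-47,14,238⟩ (.node ⟨238,14,-47⟩ (.node ⟨-134,202,17⟩ (.node ⟨17,202,-134⟩ (.leaf false ⟨⟨-134,202,17⟩,⟨97,46,218⟩,⟨178,127,-106⟩⟩ (1,[(1,1)]) (101,[(4,21627),(6,12879),(1,23)]) (586,[(6,17999),(2,338),(0,345)])) (.leaf false ⟨⟨-182,95,130⟩,⟨70,-130,193⟩,⟨145,182,70⟩⟩ (6073220,[(2,92261),(1,7786299),(0,4936476)]) (1518305,[(2,1431329),(1,1430976),(0,2507304)]) (1518305,[(2,2443331),(1,2528049),(0,1329411)]))) (.leaf false ⟨⟨-17,-14,242⟩,⟨46,238,17⟩,⟨238,-47,14⟩⟩ (31093,[(4,595008),(2,32139),(0,7328)]) (1829,[(4,572364),(2,180),(0,691)]) (152836,[(1,133743),(2,38796),(0,47519)])))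 (.leaf false ⟨⟨-202,97,94⟩,⟨74,-62,223⟩,⟨113,214,22⟩⟩ (1,[(4,274),(3,125),(0,2)]) (47,[(4,56552),(3,208),(0,223)]) (47,[(4,10547),(3,10366),(0,22)]))) (.leaf false ⟨⟨2,238,49⟩,⟨161,-38,178⟩,⟨182,31,-158⟩⟩ (47,[(1,2779),(0,2),(2,11214)]) (47,[(1,46684),(0,161),(2,468)]) (47,[(1,35890),(0,182),(2,4005)]))) (.node ⟨-22,241,22⟩ (.leaf false ⟨⟨-22,241,22⟩,⟨-1,22,-242⟩,⟨242,22,1⟩⟩ (1,[(0,1)]) (241,[(1,58806),(3,243),(0,22)]) (241,[(1,243),(3,58806),(0,22)])) (.node ⟨223,-74,62⟩ (.leaf false ⟨⟨22,-113,-214⟩,⟨94,202,-97⟩,⟨223,-74,62⟩⟩ (1,[(2,192),(1,1),(3,128)]) (11,[(2,33),(1,47),(3,13549)]) (1,[(0,1)])) (.leaf false ⟨⟨-218,-17,-106⟩,⟨46,202,-127⟩,⟨97,-134,-178⟩⟩ (1045,[(1,1687),(3,300890),(0,1188)]) (62,[(4,31173),(3,3126),(0,127)]) (1657,[(1,2148),(4,1004358),(0,3995)])))))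 (.node ⟨0,0,1⟩ (.node ⟨-22,22,241⟩ (.leaf false ⟨⟨-22,22,241⟩,⟨-1,-242,22⟩,⟨242,1,22⟩⟩ (1,[(0,1)]) (241,[(3,243),(2,58806),(0,22)]) (241,[(3,58806),(2,243),(0,22)])) (.node ⟨-62,-223,-74⟩ (.leaf false ⟨⟨-62,-223,-74⟩,⟨97,-94,202⟩,⟨214,-22,-113⟩⟩ (1,[(0,1)]) (11,[(2,13549),(4,33),(1,47)]) (1,[(2,128),(4,192),(1,1)])) (.leaf false ⟨⟨22,-242,-1⟩,⟨22,1,242⟩,⟨241,22,-22⟩⟩ (1,[(2,240),(1,1),(3,220)]) (31,[(2,6688),(0,11),(3,2422)]) (6270,[(2,12057235),(0,5786),(1,52379)])))) (.node ⟨-47,-238,-14⟩ (.node ⟨38,118,-209⟩ (.node ⟨239,-38,22⟩ (.leaf false ⟨⟨-22,-209,-122⟩,⟨38,118,-209⟩,⟨239,-38,22⟩⟩ (47,[(3,5426),(4,4587),(2,22)]) (1,[(1,1)]) (1,[(0,1)])) (.leaf false ⟨⟨-218,-17,-106⟩,⟨46,202,-127⟩,⟨97,-134,-178⟩⟩ (11,[(5,10269),(4,2201),(0,53)]) (22,[(5,31365),(4,382),(0,127)])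 (11,[(5,22338),(4,4856),(0,89)]))) (.leaf false ⟨⟨-38,-161,-178⟩,⟨31,-182,158⟩,⟨238,-2,-49⟩⟩ (118,[(2,54653),(4,1634),(0,161)]) (59,[(2,9697),(4,5287),(0,91)]) (59,[(2,3100),(4,14080),(0,1)]))) (.leaf false ⟨⟨22,-113,-214⟩,⟨94,202,-97⟩,⟨223,-74,62⟩⟩ (47,[(1,10366),(0,22),(2,10547)]) (1,[(1,125),(0,2),(2,274)]) (47,[(1,208),(0,223),(2,56552)]))))) (.node ⟨0,1,0⟩ (.node ⟨0,0,1⟩ (.node ⟨22,-22,241⟩ (.leaf false ⟨⟨-242,-1,22⟩,⟨1,242,22⟩,⟨22,-22,241⟩⟩ (241,[(3,58806),(2,243),(0,22)]) (241,[(3,243),(2,58806),(0,22)]) (1,[(0,1)])) (.node ⟨-223,-62,-74⟩ (.leaf false ⟨⟨-223,-62,-74⟩,⟨-94,97,202⟩,⟨-22,214,-113⟩⟩ (1,[(0,1)]) (11,[(2,13549),(1,47),(3,33)]) (1,[(2,128),(1,1),(3,192)])) (.leaf false ⟨⟨-242,22,-1⟩,⟨1,22,242⟩,⟨22,241,-22⟩⟩ (1,[(2,240),(4,220),(1,1)]) (31,[(2,6688),(4,2422),(0,11)])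 (6270,[(2,12057235),(1,52379),(0,5786)])))) (.node ⟨-14,238,47⟩ (.node ⟨-209,-118,-38⟩ (.node ⟨22,38,-239⟩ (.leaf false ⟨⟨-209,-118,-38⟩,⟨-122,209,22⟩,⟨22,38,-239⟩⟩ (1,[(1,1)]) (47,[(5,5426),(2,22),(4,4587)]) (1,[(0,1)])) (.leaf false ⟨⟨-242,-17,14⟩,⟨-17,46,-238⟩,⟨-14,238,47⟩⟩ (1,[(3,2615),(0,11),(4,401)]) (22,[(3,9299),(0,17),(4,1658)]) (11,[(3,1156),(0,7),(4,2884)]))) (.node ⟨-17,202,134⟩ (.leaf false ⟨⟨-218,46,-97⟩,⟨-17,202,134⟩,⟨106,127,-178⟩⟩ (59,[(3,6597),(5,17669),(1,23)]) (1,[(0,1)]) (118,[(3,25830),(5,14035),(1,127)])) (.leaf false ⟨⟨-238,46,-17⟩,⟨14,-17,-242⟩,⟨47,238,-14⟩⟩ (4068,[(5,2003084),(1,4799),(0,1877)]) (4068,[(5,5050610),(1,23303),(0,13955)]) (1017,[(5,881990),(1,4340),(0,1337)])))) (.leaf false ⟨⟨-238,-47,-14⟩,⟨-46,238,-17⟩,⟨17,-14,-242⟩⟩ (47,[(3,11382),(2,1123),(0,14)])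 (47,[(3,2400),(2,15232),(0,17)]) (47,[(3,2589),(2,56938),(0,242)])))) (.node ⟨0,0,1⟩ (.node ⟨-14,47,238⟩ (.node ⟨-209,-38,-118⟩ (.node ⟨22,-239,38⟩ (.leaf false ⟨⟨-209,-38,-118⟩,⟨-122,22,209⟩,⟨22,-239,38⟩⟩ (1,[(1,1)]) (47,[(3,4587),(2,22),(5,5426)]) (1,[(0,1)])) (.leaf false ⟨⟨-242,14,-17⟩,⟨-17,-238,46⟩,⟨-14,47,238⟩⟩ (1,[(3,401),(0,11),(4,2615)]) (22,[(3,1658),(0,17),(4,9299)]) (11,[(3,2884),(0,7),(4,1156)]))) (.node ⟨-17,134,202⟩ (.leaf false ⟨⟨-218,-97,46⟩,⟨-17,134,202⟩,⟨106,-178,127⟩⟩ (59,[(5,17669),(4,6597),(1,23)]) (1,[(0,1)]) (118,[(5,14035),(4,25830),(1,127)])) (.leaf false ⟨⟨-238,-17,46⟩,⟨14,-242,-17⟩,⟨47,-14,238⟩⟩ (4068,[(5,2003084),(0,1877),(1,4799)]) (4068,[(5,5050610),(0,13955),(1,23303)]) (1017,[(5,881990),(0,1337),(1,4340)])))) (.leaf false ⟨⟨-238,-14,-47⟩,⟨-46,-17,238⟩,⟨17,-242,-14⟩⟩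 (47,[(1,1123),(3,11382),(0,14)]) (47,[(1,15232),(3,2400),(0,17)]) (47,[(1,56938),(3,2589),(0,242)]))) (.node ⟨22,-241,22⟩ (.leaf false ⟨⟨-242,-22,1⟩,⟨1,-22,-242⟩,⟨22,-241,22⟩⟩ (241,[(1,243),(3,58806),(0,22)]) (241,[(1,58806),(3,243),(0,22)]) (1,[(0,1)])) (.node ⟨-218,-50,95⟩ (.leaf false ⟨⟨-241,22,22⟩,⟨-22,-242,1⟩,⟨-22,1,-242⟩⟩ (53638,[(2,3921067),(1,16846),(0,57597)]) (109,[(2,936),(0,11),(3,25828)]) (1,[(2,220),(1,1),(3,240)])) (.leaf false ⟨⟨-242,1,-22⟩,⟨1,-242,-22⟩,⟨22,22,-241⟩⟩ (1,[(1,1),(4,220),(3,240)]) (95,[(4,4701),(3,24090),(0,22)]) (95,[(4,50448),(3,9960),(0,241)]))))))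
theorem pa243_ok : pa243.check (ok 243 6 ⟨5, 5, 5⟩) (fun _ r => r) [] = true := by decide +kernel

def pb243 : T := .node ⟨1,0,0⟩ (.node ⟨0,1,0⟩ (.node ⟨0,0,1⟩ (.node ⟨-47,14,238⟩ (.node ⟨238,14,-47⟩ (.node ⟨-134,202,17⟩ (.node ⟨178,127,-106⟩ (.leaf false ⟨⟨-134,202,17⟩,⟨97,46,218⟩,⟨178,127,-106⟩⟩ (1,[(1,1)]) (101,[(4,21627),(6,12879),(1,23)]) (1,[(0,1)])) (.leaf false ⟨⟨-218,-17,106⟩,⟨46,202,127⟩,⟨97,-134,178⟩⟩ (819153,[(2,71685),(1,418855),(0,783763)]) (819153,[(2,2517480),(1,1783663),(0,1811620)]) (3276612,[(2,10217907),(1,3112189),(0,9533692)]))) (.leaf false ⟨⟨-17,-14,242⟩,⟨46,238,17⟩,⟨238,-47,14⟩⟩ (31093,[(4,595008),(2,32139),(0,7328)]) (1829,[(4,572364),(2,180),(0,691)]) (152836,[(1,133743),(2,38796),(0,47519)]))) (.leaf false ⟨⟨-158,31,182⟩,⟨49,238,2⟩,⟨178,-38,161⟩⟩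 (47,[(4,35890),(3,4005),(0,182)]) (47,[(4,2779),(3,11214),(0,2)]) (47,[(4,46684),(3,468),(0,161)]))) (.leaf false ⟨⟨22,-1,242⟩,⟨22,242,-1⟩,⟨241,-22,-22⟩⟩ (47,[(1,16610),(0,22),(2,261)]) (47,[(1,5189),(0,22),(2,11682)]) (47,[(1,56324),(0,241),(2,2340)]))) (.node ⟨-47,14,-238⟩ (.node ⟨238,14,47⟩ (.node ⟨-134,202,-17⟩ (.node ⟨178,127,106⟩ (.leaf false ⟨⟨-134,202,-17⟩,⟨97,46,-218⟩,⟨178,127,106⟩⟩ (1,[(1,1)]) (101,[(4,21627),(6,12879),(1,23)]) (1,[(0,1)])) (.leaf false ⟨⟨-218,-17,-106⟩,⟨46,202,-127⟩,⟨97,-134,-178⟩⟩ (819153,[(2,71685),(1,418855),(0,783763)]) (819153,[(2,2517480),(1,1783663),(0,1811620)]) (3276612,[(2,10217907),(1,3112189),(0,9533692)]))) (.leaf false ⟨⟨-17,-14,-242⟩,⟨46,238,-17⟩,⟨238,-47,-14⟩⟩ (31093,[(4,595008),(2,32139),(0,7328)]) (1829,[(4,572364),(2,180),(0,691)])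 (152836,[(1,133743),(2,38796),(0,47519)]))) (.leaf false ⟨⟨-158,31,-182⟩,⟨49,238,-2⟩,⟨178,-38,-161⟩⟩ (47,[(4,35890),(3,4005),(0,182)]) (47,[(4,2779),(3,11214),(0,2)]) (47,[(4,46684),(3,468),(0,161)]))) (.leaf false ⟨⟨22,-1,-242⟩,⟨22,242,1⟩,⟨241,-22,22⟩⟩ (47,[(1,16610),(0,22),(2,261)]) (47,[(1,5189),(0,22),(2,11682)]) (47,[(1,56324),(0,241),(2,2340)])))) (.node ⟨0,0,1⟩ (.node ⟨-47,-238,14⟩ (.node ⟨238,47,14⟩ (.node ⟨-134,-17,202⟩ (.node ⟨178,106,127⟩ (.leaf false ⟨⟨-134,-17,202⟩,⟨97,-218,46⟩,⟨178,106,127⟩⟩ (1,[(1,1)]) (101,[(6,12879),(5,21627),(1,23)]) (1,[(0,1)])) (.leaf false ⟨⟨-218,-106,-17⟩,⟨46,-127,202⟩,⟨97,-178,-134⟩⟩ (819153,[(2,71685),(0,783763),(1,418855)]) (819153,[(2,2517480),(0,1811620),(1,1783663)]) (3276612,[(2,10217907),(0,9533692),(1,3112189)]))) (.leaf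 false ⟨⟨-17,-242,-14⟩,⟨46,-17,238⟩,⟨238,-14,-47⟩⟩ (31093,[(3,595008),(0,7328),(2,32139)]) (1829,[(3,572364),(0,691),(2,180)]) (152836,[(1,133743),(0,47519),(2,38796)]))) (.leaf false ⟨⟨-158,-182,31⟩,⟨49,-2,238⟩,⟨178,-161,-38⟩⟩ (47,[(2,4005),(4,35890),(0,182)]) (47,[(2,11214),(4,2779),(0,2)]) (47,[(2,468),(4,46684),(0,161)]))) (.leaf false ⟨⟨22,-242,-1⟩,⟨22,1,242⟩,⟨241,22,-22⟩⟩ (47,[(1,261),(0,22),(2,16610)]) (47,[(1,11682),(0,22),(2,5189)]) (47,[(1,2340),(0,241),(2,56324)]))) (.node ⟨-47,-238,-14⟩ (.node ⟨238,47,-14⟩ (.node ⟨-134,-17,-202⟩ (.node ⟨178,106,-127⟩ (.leaf false ⟨⟨-134,-17,-202⟩,⟨97,-218,-46⟩,⟨178,106,-127⟩⟩ (1,[(1,1)]) (101,[(6,12879),(5,21627),(1,23)]) (1,[(0,1)])) (.leaf false ⟨⟨-218,-106,-17⟩,⟨46,-127,202⟩,⟨97,-178,-134⟩⟩ (273051,[(2,55566),(0,267635),(1,187394)])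 (273051,[(2,462834),(0,528056),(1,26867)]) (1092204,[(2,4404537),(0,3379076),(1,2543735)]))) (.leaf false ⟨⟨-17,-242,14⟩,⟨46,-17,-238⟩,⟨238,-14,47⟩⟩ (31093,[(3,595008),(0,7328),(2,32139)]) (1829,[(3,572364),(0,691),(2,180)]) (152836,[(1,133743),(0,47519),(2,38796)]))) (.leaf false ⟨⟨-158,-182,-31⟩,⟨49,-2,-238⟩,⟨178,-161,38⟩⟩ (47,[(2,4005),(4,35890),(0,182)]) (47,[(2,11214),(4,2779),(0,2)]) (47,[(2,468),(4,46684),(0,161)]))) (.leaf false ⟨⟨22,-242,1⟩,⟨22,1,-242⟩,⟨241,22,22⟩⟩ (47,[(1,261),(0,22),(2,16610)]) (47,[(1,11682),(0,22),(2,5189)]) (47,[(1,2340),(0,241),(2,56324)]))))) (.node ⟨0,1,0⟩ (.node ⟨0,0,1⟩ (.node ⟨-14,238,-47⟩ (.node ⟨-209,-118,38⟩ (.node ⟨22,38,239⟩ (.leaf false ⟨⟨-209,-118,38⟩,⟨-122,209,-22⟩,⟨22,38,239⟩⟩ (1,[(1,1)]) (47,[(5,5426),(2,22),(4,4587)])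 (1,[(0,1)])) (.leaf false ⟨⟨-242,-17,-14⟩,⟨-17,46,238⟩,⟨-14,238,-47⟩⟩ (1,[(3,2615),(0,11),(4,401)]) (22,[(3,9299),(0,17),(4,1658)]) (11,[(3,1156),(0,7),(4,2884)]))) (.leaf false ⟨⟨-242,22,-1⟩,⟨1,22,242⟩,⟨22,241,-22⟩⟩ (59,[(2,359),(4,16577),(0,11)]) (59,[(2,14696),(4,2240),(0,11)]) (118,[(2,6562),(4,47773),(0,241)]))) (.leaf false ⟨⟨-242,-1,22⟩,⟨1,242,22⟩,⟨22,-22,241⟩⟩ (47,[(3,11682),(2,5189),(0,22)]) (47,[(3,261),(2,16610),(0,22)]) (47,[(3,2340),(2,56324),(0,241)]))) (.node ⟨-14,238,47⟩ (.node ⟨-209,-118,-38⟩ (.node ⟨22,38,-239⟩ (.leaf false ⟨⟨-209,-118,-38⟩,⟨-122,209,22⟩,⟨22,38,-239⟩⟩ (1,[(1,1)]) (47,[(5,5426),(2,22),(4,4587)]) (1,[(0,1)])) (.leaf false ⟨⟨-242,-17,14⟩,⟨-17,46,-238⟩,⟨-14,238,47⟩⟩ (1,[(3,2615),(0,11),(4,401)]) (22,[(3,9299),(0,17),(4,1658)]) (11,[(3,1156),(0,7),(4,2884)])))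 (.leaf false ⟨⟨-242,22,1⟩,⟨1,22,-242⟩,⟨22,241,22⟩⟩ (59,[(2,359),(4,16577),(0,11)]) (59,[(2,14696),(4,2240),(0,11)]) (118,[(2,6562),(4,47773),(0,241)]))) (.leaf false ⟨⟨-242,-1,-22⟩,⟨1,242,-22⟩,⟨22,-22,-241⟩⟩ (47,[(3,11682),(2,5189),(0,22)]) (47,[(3,261),(2,16610),(0,22)]) (47,[(3,2340),(2,56324),(0,241)])))) (.node ⟨0,0,1⟩ (.node ⟨-14,47,238⟩ (.node ⟨-209,-38,-118⟩ (.node ⟨22,-239,38⟩ (.leaf false ⟨⟨-209,-38,-118⟩,⟨-122,22,209⟩,⟨22,-239,38⟩⟩ (1,[(1,1)]) (47,[(3,4587),(2,22),(5,5426)]) (1,[(0,1)])) (.leaf false ⟨⟨-242,14,-17⟩,⟨-17,-238,46⟩,⟨-14,47,238⟩⟩ (1,[(3,401),(0,11),(4,2615)]) (22,[(3,1658),(0,17),(4,9299)]) (11,[(3,2884),(0,7),(4,1156)]))) (.leaf false ⟨⟨-242,1,22⟩,⟨1,-242,22⟩,⟨22,22,241⟩⟩ (59,[(4,16577),(3,359),(0,11)]) (59,[(4,2240),(3,14696),(0,11)]) (118,[(4,47773),(3,6562),(0,241)])))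 (.leaf false ⟨⟨-242,-22,-1⟩,⟨1,-22,242⟩,⟨22,-241,-22⟩⟩ (47,[(1,5189),(3,11682),(0,22)]) (47,[(1,16610),(3,261),(0,22)]) (47,[(1,56324),(3,2340),(0,241)]))) (.node ⟨-14,47,-238⟩ (.node ⟨-209,-38,118⟩ (.node ⟨22,-239,-38⟩ (.leaf false ⟨⟨-209,-38,118⟩,⟨-122,22,-209⟩,⟨22,-239,-38⟩⟩ (1,[(1,1)]) (47,[(3,4587),(2,22),(5,5426)]) (1,[(0,1)])) (.leaf false ⟨⟨-242,14,17⟩,⟨-17,-238,-46⟩,⟨-14,47,-238⟩⟩ (1,[(3,401),(0,11),(4,2615)]) (22,[(3,1658),(0,17),(4,9299)]) (11,[(3,2884),(0,7),(4,1156)]))) (.leaf false ⟨⟨-242,1,-22⟩,⟨1,-242,-22⟩,⟨22,22,-241⟩⟩ (59,[(4,16577),(3,359),(0,11)]) (59,[(4,2240),(3,14696),(0,11)]) (118,[(4,47773),(3,6562),(0,241)]))) (.leaf false ⟨⟨-242,-22,1⟩,⟨1,-22,-242⟩,⟨22,-241,22⟩⟩ (47,[(1,5189),(3,11682),(0,22)]) (47,[(1,16610),(3,261),(0,22)]) (47,[(1,56324),(3,2340),(0,241)])))))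
theorem pb243_ok : pb243.check (ok 243 6 ⟨5, 3, 3⟩) (fun _ r => r) [] = true := by decide +kernel

def pc243 : T := .node ⟨1,0,0⟩ (.node ⟨0,1,0⟩ (.node ⟨0,0,1⟩ (.node ⟨-22,-22,241⟩ (.leaf false ⟨⟨-22,-22,241⟩,⟨-1,242,22⟩,⟨242,-1,22⟩⟩ (1,[(0,1)]) (241,[(3,243),(2,58806),(0,22)]) (241,[(3,58806),(2,243),(0,22)])) (.node ⟨-127,206,22⟩ (.leaf false ⟨⟨-127,206,22⟩,⟨134,62,193⟩,⟨158,113,-146⟩⟩ (1,[(0,1)]) (11,[(2,9594),(4,792),(1,31)]) (22,[(2,24021),(4,990),(1,113)])) (.leaf false ⟨⟨62,134,-193⟩,⟨113,158,146⟩,⟨206,-127,-22⟩⟩ (11,[(2,5348),(1,31),(3,792)]) (22,[(2,30445),(1,113),(3,990)]) (22,[(2,19039),(0,22),(1,79)])))) (.node ⟨-22,-22,-241⟩ (.leaf false ⟨⟨-22,-22,-241⟩,⟨-1,242,-22⟩,⟨242,-1,-22⟩⟩ (1,[(0,1)]) (241,[(3,243),(2,58806),(0,22)]) (241,[(3,58806),(2,243),(0,22)]))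 (.node ⟨-127,206,-22⟩ (.leaf false ⟨⟨-127,206,-22⟩,⟨134,62,-193⟩,⟨158,113,146⟩⟩ (1,[(0,1)]) (11,[(2,9594),(4,792),(1,31)]) (22,[(2,24021),(4,990),(1,113)])) (.leaf false ⟨⟨62,134,-193⟩,⟨113,158,146⟩,⟨206,-127,-22⟩⟩ (11,[(2,9594),(1,31),(3,792)]) (22,[(2,24021),(1,113),(3,990)]) (22,[(2,20007),(0,22),(1,79)]))))) (.node ⟨0,0,1⟩ (.node ⟨14,-238,-47⟩ (.node ⟨14,47,238⟩ (.node ⟨206,-22,-127⟩ (.node ⟨113,146,158⟩ (.leaf false ⟨⟨14,-238,-47⟩,⟨17,-46,238⟩,⟨242,17,-14⟩⟩ (1,[(3,1)]) (113,[(4,24208),(0,17),(5,7680)]) (40504,[(0,25712),(1,32809),(3,9847)])) (.leaf false ⟨⟨-130,-193,-70⟩,⟨95,-130,182⟩,⟨182,-70,-145⟩⟩ (1918809,[(2,1604529),(1,327692),(0,3003656)]) (1918809,[(2,4484808),(1,2132948),(0,2830865)]) (1918809,[(2,434484),(1,2075543),(0,747092)]))) (.leaf false ⟨⟨-178,-49,158⟩,⟨38,-238,-31⟩,⟨161,2,182⟩⟩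 (48469,[(1,12037),(2,16406),(0,43814)]) (3649,[(5,185016),(2,3693),(0,476)]) (14596,[(5,6775572),(2,1875),(0,21611)]))) (.leaf false ⟨⟨-22,-241,-22⟩,⟨-1,-22,242⟩,⟨242,-22,-1⟩⟩ (47,[(2,56324),(4,2340),(0,241)]) (47,[(2,16610),(4,261),(0,22)]) (47,[(2,5189),(4,11682),(0,22)]))) (.node ⟨-130,-70,193⟩ (.leaf false ⟨⟨-130,-70,193⟩,⟨95,182,130⟩,⟨182,-145,70⟩⟩ (1,[(0,1)]) (47,[(4,6285),(3,22386),(1,130)]) (47,[(4,9534),(3,23475),(1,70)])) (.leaf false ⟨⟨-31,38,238⟩,⟨158,-178,49⟩,⟨182,161,-2⟩⟩ (1136,[(3,1980504),(1,8319),(0,625)]) (71,[(3,207252),(1,768),(0,169)]) (568,[(3,1391040),(1,5811),(0,1421)])))) (.node ⟨14,-238,47⟩ (.node ⟨14,47,-238⟩ (.node ⟨206,-22,127⟩ (.node ⟨113,146,-158⟩ (.leaf false ⟨⟨14,-238,47⟩,⟨17,-46,-238⟩,⟨242,17,14⟩⟩ (1,[(3,1)]) (113,[(4,24208),(0,17),(5,7680)])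 (40504,[(0,25712),(1,32809),(3,9847)])) (.leaf false ⟨⟨-130,-193,-70⟩,⟨95,-130,182⟩,⟨182,-70,-145⟩⟩ (1918809,[(2,3124089),(1,480152),(0,3469856)]) (1918809,[(2,533952),(1,1736552),(0,1618745)]) (1918809,[(2,3582144),(1,2391353),(0,1712792)]))) (.leaf false ⟨⟨-178,-49,-158⟩,⟨38,-238,31⟩,⟨161,2,-182⟩⟩ (48469,[(1,12037),(2,16406),(0,43814)]) (3649,[(5,185016),(2,3693),(0,476)]) (14596,[(5,6775572),(2,1875),(0,21611)]))) (.leaf false ⟨⟨-22,-241,22⟩,⟨-1,-22,-242⟩,⟨242,-22,1⟩⟩ (47,[(2,56324),(4,2340),(0,241)]) (47,[(2,16610),(4,261),(0,22)]) (47,[(2,5189),(4,11682),(0,22)]))) (.node ⟨-130,-70,-193⟩ (.leaf false ⟨⟨-130,-70,-193⟩,⟨95,182,-130⟩,⟨182,-145,-70⟩⟩ (1,[(0,1)]) (47,[(4,6285),(3,22386),(1,130)]) (47,[(4,9534),(3,23475),(1,70)])) (.leaf false ⟨⟨-31,38,-238⟩,⟨158,-178,-49⟩,⟨182,161,2⟩⟩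 (1136,[(3,1980504),(1,8319),(0,625)]) (71,[(3,207252),(1,768),(0,169)]) (568,[(3,1391040),(1,5811),(0,1421)])))))) (.node ⟨0,1,0⟩ (.node ⟨0,0,1⟩ (.node ⟨-238,14,-47⟩ (.node ⟨47,14,238⟩ (.node ⟨-22,206,-127⟩ (.node ⟨146,113,158⟩ (.leaf false ⟨⟨-238,14,-47⟩,⟨-46,17,238⟩,⟨17,242,-14⟩⟩ (1,[(3,1)]) (113,[(4,24208),(6,7680),(0,17)]) (40504,[(3,9847),(1,32809),(0,25712)])) (.leaf false ⟨⟨-241,-22,-22⟩,⟨-22,-1,242⟩,⟨-22,242,-1⟩⟩ (639603,[(1,586156),(2,1139427),(0,1334260)]) (639603,[(1,145144),(2,988524),(0,392731)]) (639603,[(1,794629),(2,516132),(0,142792)]))) (.leaf false ⟨⟨-241,-22,-22⟩,⟨-22,-1,242⟩,⟨-22,242,-1⟩⟩ (29192,[(2,30123),(4,190800),(0,6091)]) (356,[(2,99),(4,145548),(0,715)]) (7298,[(2,693),(4,1797408),(0,199)]))) (.leaf false ⟨⟨-241,-22,-22⟩,⟨-22,-1,242⟩,⟨-22,242,-1⟩⟩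 (47,[(2,56324),(0,241),(3,2340)]) (47,[(2,16610),(0,22),(3,261)]) (47,[(2,5189),(0,22),(3,11682)]))) (.node ⟨-70,-130,193⟩ (.leaf false ⟨⟨-202,-46,127⟩,⟨17,218,106⟩,⟨134,-97,178⟩⟩ (193,[(4,30096),(3,7632),(0,127)]) (47,[(4,24429),(3,11730),(1,106)]) (8204,[(3,75060),(1,6387),(0,6011)])) (.leaf false ⟨⟨-238,2,49⟩,⟨-31,182,-158⟩,⟨38,161,178⟩⟩ (284,[(4,206136),(0,65),(1,563)]) (568,[(4,670176),(0,1057),(1,2431)]) (1136,[(4,4492440),(0,3353),(1,18071)])))) (.node ⟨-238,14,47⟩ (.node ⟨47,14,-238⟩ (.node ⟨-22,206,127⟩ (.node ⟨146,113,-158⟩ (.leaf false ⟨⟨-238,14,47⟩,⟨-46,17,-238⟩,⟨17,242,14⟩⟩ (1,[(3,1)]) (113,[(4,24208),(6,7680),(0,17)]) (40504,[(3,9847),(1,32809),(0,25712)])) (.leaf false ⟨⟨-241,-22,22⟩,⟨-22,-1,-242⟩,⟨-22,242,1⟩⟩ (639603,[(1,586156),(2,1139427),(0,1334260)])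 (639603,[(1,145144),(2,988524),(0,392731)]) (639603,[(1,794629),(2,516132),(0,142792)]))) (.leaf false ⟨⟨-241,-22,22⟩,⟨-22,-1,-242⟩,⟨-22,242,1⟩⟩ (29192,[(2,30123),(4,190800),(0,6091)]) (356,[(2,99),(4,145548),(0,715)]) (7298,[(2,693),(4,1797408),(0,199)]))) (.leaf false ⟨⟨-241,-22,22⟩,⟨-22,-1,-242⟩,⟨-22,242,1⟩⟩ (47,[(2,56324),(0,241),(3,2340)]) (47,[(2,16610),(0,22),(3,261)]) (47,[(2,5189),(0,22),(3,11682)]))) (.node ⟨-70,-130,-193⟩ (.leaf false ⟨⟨-202,-46,-127⟩,⟨17,218,-106⟩,⟨134,-97,-178⟩⟩ (193,[(4,30096),(3,7632),(0,127)]) (47,[(4,24429),(3,11730),(1,106)]) (8204,[(3,75060),(1,6387),(0,6011)])) (.leaf false ⟨⟨-238,2,-49⟩,⟨-31,182,158⟩,⟨38,161,-178⟩⟩ (284,[(4,206136),(0,65),(1,563)]) (568,[(4,670176),(0,1057),(1,2431)]) (1136,[(4,4492440),(0,3353),(1,18071)])))))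 (.node ⟨0,0,1⟩ (.node ⟨47,-238,14⟩ (.node ⟨-238,47,14⟩ (.node ⟨-31,158,182⟩ (.node ⟨74,113,202⟩ (.leaf false ⟨⟨-238,-49,2⟩,⟨-31,158,182⟩,⟨38,-178,161⟩⟩ (7,[(2,1),(6,1428),(5,390)]) (1,[(1,1)]) (202,[(6,4238),(5,54149),(0,161)])) (.leaf false ⟨⟨-223,62,-74⟩,⟨-94,-97,202⟩,⟨-22,-214,-113⟩⟩ (364585,[(3,15280),(1,737753),(0,799328)]) (364585,[(3,504175),(1,843227),(0,430097)]) (1458340,[(3,918295),(1,104063),(0,973208)]))) (.node ⟨-223,62,-74⟩ (.leaf false ⟨⟨-223,62,-74⟩,⟨-94,-97,202⟩,⟨-22,-214,-113⟩⟩ (1,[(0,1)]) (16720,[(4,3913596),(0,8977),(3,9153)]) (399664,[(0,121651),(1,217647),(3,246564)])) (.leaf false ⟨⟨-223,-94,22⟩,⟨62,-97,214⟩,⟨74,-202,-113⟩⟩ (163304,[(2,411968),(1,117671),(0,260017)]) (81652,[(2,205492),(1,17227),(0,239621)]) (5552,[(4,532880),(1,6743),(0,905)]))))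 (.node ⟨-70,-193,-130⟩ (.leaf false ⟨⟨-223,-94,22⟩,⟨62,-97,214⟩,⟨74,-202,-113⟩⟩ (1,[(3,50),(5,699),(1,2)]) (47,[(3,11416),(5,20172),(1,97)]) (8204,[(3,105556),(0,7433),(1,4737)])) (.leaf false ⟨⟨-238,-49,2⟩,⟨-31,158,182⟩,⟨38,-178,161⟩⟩ (284,[(5,206136),(1,563),(0,65)]) (568,[(5,670176),(1,2431),(0,1057)]) (1136,[(5,4492440),(1,18071),(0,3353)])))) (.node ⟨-193,-70,-130⟩ (.leaf false ⟨⟨-202,74,-113⟩,⟨-97,62,214⟩,⟨-94,-223,22⟩⟩ (8204,[(2,105556),(1,4737),(0,7433)]) (47,[(2,11416),(1,97),(3,20172)]) (1,[(2,50),(1,2),(3,699)])) (.leaf false ⟨⟨-238,-49,2⟩,⟨-31,158,182⟩,⟨38,-178,161⟩⟩ (568,[(1,5221),(3,1310400),(0,571)]) (284,[(1,3263),(3,784152),(0,749)]) (1136,[(1,8711),(3,2439576),(0,2345)])))) (.node ⟨47,-238,-14⟩ (.node ⟨-238,47,-14⟩ (.node ⟨-31,158,-182⟩ (.node ⟨74,113,-202⟩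 (.leaf false ⟨⟨-238,-49,-2⟩,⟨-31,158,-182⟩,⟨38,-178,-161⟩⟩ (7,[(2,1),(6,1428),(5,390)]) (1,[(1,1)]) (202,[(6,4238),(5,54149),(0,161)])) (.leaf false ⟨⟨-223,62,74⟩,⟨-94,-97,-202⟩,⟨-22,-214,113⟩⟩ (364585,[(3,15280),(1,737753),(0,799328)]) (364585,[(3,504175),(1,843227),(0,430097)]) (1458340,[(3,918295),(1,104063),(0,973208)]))) (.node ⟨-223,62,74⟩ (.leaf false ⟨⟨-223,62,74⟩,⟨-94,-97,-202⟩,⟨-22,-214,113⟩⟩ (1,[(0,1)]) (16720,[(4,3913596),(0,8977),(3,9153)]) (399664,[(0,121651),(1,217647),(3,246564)])) (.leaf false ⟨⟨-223,-94,-22⟩,⟨62,-97,-214⟩,⟨74,-202,113⟩⟩ (163304,[(2,411968),(1,117671),(0,260017)]) (81652,[(2,205492),(1,17227),(0,239621)]) (5552,[(4,532880),(1,6743),(0,905)])))) (.node ⟨-70,-193,130⟩ (.leaf false ⟨⟨-223,-94,-22⟩,⟨62,-97,-214⟩,⟨74,-202,113⟩⟩ (1,[(3,50),(5,699),(1,2)])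 (47,[(3,11416),(5,20172),(1,97)]) (8204,[(3,105556),(0,7433),(1,4737)])) (.leaf false ⟨⟨-238,-49,-2⟩,⟨-31,158,-182⟩,⟨38,-178,-161⟩⟩ (284,[(5,206136),(1,563),(0,65)]) (568,[(5,670176),(1,2431),(0,1057)]) (1136,[(5,4492440),(1,18071),(0,3353)])))) (.node ⟨-193,-70,130⟩ (.leaf false ⟨⟨-202,74,113⟩,⟨-97,62,-214⟩,⟨-94,-223,-22⟩⟩ (8204,[(2,105556),(1,4737),(0,7433)]) (47,[(2,11416),(1,97),(3,20172)]) (1,[(2,50),(1,2),(3,699)])) (.leaf false ⟨⟨-238,-49,-2⟩,⟨-31,158,-182⟩,⟨38,-178,-161⟩⟩ (568,[(1,5221),(3,1310400),(0,571)]) (284,[(1,3263),(3,784152),(0,749)]) (1136,[(1,8711),(3,2439576),(0,2345)]))))))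
theorem pc243_ok : pc243.check (ok 243 6 ⟨5, 5, 3⟩) (fun _ r => r) [] = true := by decide +kernel

def pa333 : T := .node ⟨1,0,0⟩ (.node ⟨0,1,0⟩ (.node ⟨0,0,1⟩ (.node ⟨-155,92,280⟩ (.node ⟨188,229,-152⟩ (.node ⟨251,-68,208⟩ (.leaf false ⟨⟨-112,232,211⟩,⟨188,229,-152⟩,⟨251,-68,208⟩⟩ (155,[(3,1345),(4,25656),(2,112)]) (1,[(1,1)]) (1,[(0,1)])) (.leaf false ⟨⟨-308,88,-91⟩,⟨-59,112,308⟩,⟨112,301,-88⟩⟩ (17,[(3,3029),(5,286),(0,22)]) (17,[(3,11060),(5,6025),(0,28)]) (68,[(3,56624),(5,83167),(0,301)]))) (.leaf false ⟨⟨-208,160,205⟩,⟨5,-260,208⟩,⟨260,133,160⟩⟩ (152,[(4,6924),(3,71265),(0,205)]) (19,[(4,4983),(3,1014),(0,26)]) (19,[(4,8700),(3,7107),(0,20)]))) (.leaf false ⟨⟨5,160,292⟩,⟨92,280,-155⟩,⟨320,-83,40⟩⟩ (31,[(1,9332),(0,1),(2,5052)]) (155,[(1,1735),(0,92),(2,51864)])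 (31,[(1,19160),(0,64),(2,3315)]))) (.node ⟨-125,20,-308⟩ (.node ⟨-125,308,-20⟩ (.node ⟨20,-125,-308⟩ (.leaf false ⟨⟨-100,292,-125⟩,⟨20,-125,-308⟩,⟨317,100,-20⟩⟩ (1556,[(4,112221),(1,1332),(0,545)]) (1,[(0,1)]) (77,[(5,24309),(4,8325),(0,5)])) (.leaf false ⟨⟨-229,232,-68⟩,⟨152,211,208⟩,⟨188,112,-251⟩⟩ (1015,[(3,77952),(0,1628),(2,1599)]) (125,[(3,38988),(5,23220),(0,211)]) (125,[(3,65871),(5,25740),(0,112)]))) (.leaf false ⟨⟨-125,20,-308⟩,⟨100,317,-20⟩,⟨292,-100,-125⟩⟩ (1,[(1,1)]) (40,[(3,23976),(1,5),(0,37)]) (4000,[(3,3164832),(1,2385),(0,11729)]))) (.node ⟨301,-112,88⟩ (.leaf false ⟨⟨28,304,-133⟩,⟨133,112,284⟩,⟨304,-77,-112⟩⟩ (43,[(2,6071),(0,4),(3,13520)]) (125,[(2,5464),(1,133),(3,16660)]) (301,[(2,60464),(0,304),(3,10871)])) (.leaf false ⟨⟨-296,128,-83⟩,⟨37,236,232⟩,⟨148,197,-224⟩⟩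 (95,[(2,17037),(1,64),(0,120)]) (19,[(2,44388),(1,179),(0,72)]) (2660,[(2,7576308),(1,25291),(0,9195)]))))) (.node ⟨0,0,1⟩ (.node ⟨-125,-308,20⟩ (.node ⟨-125,-20,308⟩ (.node ⟨20,-308,-125⟩ (.leaf false ⟨⟨-100,-125,292⟩,⟨20,-308,-125⟩,⟨317,-20,100⟩⟩ (1556,[(3,112221),(0,545),(1,1332)]) (1,[(0,1)]) (77,[(3,8325),(5,24309),(0,5)])) (.leaf false ⟨⟨-229,-68,232⟩,⟨152,208,211⟩,⟨188,-251,112⟩⟩ (1015,[(4,77952),(2,1599),(0,1628)]) (125,[(5,23220),(4,38988),(0,211)]) (125,[(5,25740),(4,65871),(0,112)]))) (.leaf false ⟨⟨-125,-308,20⟩,⟨100,-20,317⟩,⟨292,-125,-100⟩⟩ (1,[(1,1)]) (40,[(2,23976),(0,37),(1,5)]) (4000,[(2,3164832),(0,11729),(1,2385)]))) (.node ⟨301,88,-112⟩ (.leaf false ⟨⟨28,-133,304⟩,⟨133,284,112⟩,⟨304,-112,-77⟩⟩ (43,[(2,13520),(0,4),(3,6071)]) (125,[(2,16660),(1,133),(3,5464)])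 (301,[(2,10871),(0,304),(3,60464)])) (.leaf false ⟨⟨-296,-83,128⟩,⟨37,232,236⟩,⟨148,-224,197⟩⟩ (95,[(1,64),(3,17037),(0,120)]) (19,[(1,179),(3,44388),(0,72)]) (2660,[(1,25291),(3,7576308),(0,9195)])))) (.node ⟨-76,-323,28⟩ (.node ⟨317,-68,76⟩ (.leaf false ⟨⟨-76,-323,28⟩,⟨68,-44,-323⟩,⟨317,-68,76⟩⟩ (1,[(1,1)]) (323,[(2,105561),(4,25308),(1,44)]) (1,[(0,1)])) (.leaf false ⟨⟨-308,-59,-112⟩,⟨88,112,-301⟩,⟨91,-308,-88⟩⟩ (5661,[(4,1484181),(1,3025),(0,9457)]) (22644,[(4,32726907),(1,11956),(0,94087)]) (5661,[(4,4009653),(1,7348),(0,9262)]))) (.node ⟨-92,44,-317⟩ (.leaf false ⟨⟨-92,44,-317⟩,⟨196,-253,-92⟩,⟨253,212,-44⟩⟩ (1,[(0,1)]) (317,[(4,70596),(3,84249),(0,92)]) (7,[(1,11),(4,935),(3,2069)])) (.leaf false ⟨⟨44,-323,-68⟩,⟨68,76,-317⟩,⟨323,28,76⟩⟩ (23,[(2,5051),(0,11),(3,6945)])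 (19,[(2,5547),(1,17),(3,4047)]) (11020,[(2,9805031),(1,5596),(0,34067)])))))) (.node ⟨0,1,0⟩ (.node ⟨0,0,1⟩ (.node ⟨-20,308,-125⟩ (.node ⟨-308,-125,20⟩ (.leaf false ⟨⟨-308,-125,20⟩,⟨-125,292,-100⟩,⟨-20,100,317⟩⟩ (1,[(0,1)]) (1556,[(0,545),(1,1332),(3,112221)]) (77,[(2,24309),(0,5),(3,8325)])) (.leaf false ⟨⟨-317,20,100⟩,⟨-20,308,-125⟩,⟨100,125,292⟩⟩ (25,[(2,2580),(4,9157),(0,4)]) (1,[(1,1)]) (1,[(2,312),(4,208),(0,1)]))) (.node ⟨112,-88,301⟩ (.leaf false ⟨⟨-308,-91,88⟩,⟨-59,308,112⟩,⟨112,-88,301⟩⟩ (125,[(4,40260),(3,15729),(1,88)]) (43,[(4,4329),(3,14652),(0,16)]) (1,[(0,1)])) (.leaf false ⟨⟨-323,28,-76⟩,⟨-68,76,317⟩,⟨-44,-323,68⟩⟩ (420,[(3,1269852),(1,4669),(0,2045)]) (285,[(3,590712),(1,1999),(0,530)]) (57,[(3,23169),(1,149),(0,49)])))) (.node ⟨-323,-76,28⟩ (.node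 ⟨-68,317,76⟩ (.leaf false ⟨⟨-323,-76,28⟩,⟨-68,317,76⟩,⟨-44,68,-323⟩⟩ (1,[(1,1)]) (1,[(0,1)]) (323,[(2,105561),(1,44),(3,25308)])) (.leaf false ⟨⟨-328,-56,13⟩,⟨-37,148,-296⟩,⟨44,-293,-152⟩⟩ (22644,[(1,24044),(3,2139525),(0,4985)]) (153,[(1,155),(3,241425),(0,653)]) (5661,[(1,1748),(3,2267397),(0,11966)]))) (.node ⟨44,-92,-317⟩ (.leaf false ⟨⟨-323,68,-44⟩,⟨28,-76,-323⟩,⟨76,317,-68⟩⟩ (317,[(4,104327),(3,25604),(0,44)]) (317,[(4,5336),(3,5624),(0,323)]) (7,[(4,4959),(3,927),(1,17)])) (.leaf false ⟨⟨-323,44,-68⟩,⟨28,323,76⟩,⟨76,68,-317⟩⟩ (23,[(2,5051),(4,6945),(0,11)]) (11020,[(2,9805031),(0,34067),(1,5596)]) (19,[(2,5547),(4,4047),(1,17)]))))) (.node ⟨0,0,1⟩ (.node ⟨28,76,323⟩ (.node ⟨76,-317,68⟩ (.leaf false ⟨⟨-323,-68,44⟩,⟨28,76,323⟩,⟨76,-317,68⟩⟩ (323,[(4,105561),(3,25308),(1,44)])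 (1,[(1,1)]) (1,[(0,1)])) (.leaf false ⟨⟨-323,28,-76⟩,⟨-68,76,317⟩,⟨-44,-323,68⟩⟩ (7548,[(3,10997991),(1,5396),(0,34067)]) (1887,[(3,853146),(1,2393),(0,2570)]) (111,[(3,63936),(1,40),(0,79)]))) (.node ⟨-317,92,-44⟩ (.leaf false ⟨⟨-323,76,-28⟩,⟨-68,-317,-76⟩,⟨-44,-68,323⟩⟩ (317,[(2,5336),(0,323),(3,5624)]) (7,[(2,4959),(1,17),(3,927)]) (317,[(2,104327),(0,44),(3,25604)])) (.leaf false ⟨⟨-328,-44,37⟩,⟨-13,-152,-296⟩,⟨56,-293,148⟩⟩ (19,[(2,4256),(4,5924),(1,11)]) (1653,[(4,395611),(1,1696),(0,1330)]) (92,[(2,724),(4,87729),(0,293)])))) (.node ⟨-20,125,-308⟩ (.node ⟨-308,-20,125⟩ (.leaf false ⟨⟨-308,-20,125⟩,⟨-125,100,-292⟩,⟨-20,-317,-100⟩⟩ (1,[(0,1)]) (1556,[(2,112221),(1,1332),(0,545)]) (77,[(2,8325),(0,5),(3,24309)])) (.leaf false ⟨⟨-317,-100,-20⟩,⟨-20,125,-308⟩,⟨100,-292,-125⟩⟩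 (25,[(4,9157),(3,2580),(0,4)]) (1,[(1,1)]) (1,[(4,208),(3,312),(0,1)]))) (.node ⟨112,-301,88⟩ (.leaf false ⟨⟨-328,-44,37⟩,⟨-13,-152,-296⟩,⟨56,-293,148⟩⟩ (125,[(2,8927),(4,41880),(1,44)]) (125,[(2,83816),(4,4665),(1,152)]) (7,[(2,3364),(1,14),(0,1)])) (.leaf false ⟨⟨-323,28,-76⟩,⟨-68,76,317⟩,⟨-44,-323,68⟩⟩ (7980,[(2,26081556),(0,39815),(1,94087)]) (1995,[(2,134637),(0,1745),(1,2989)]) (399,[(2,681312),(0,598),(1,2471)]))))))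
theorem pa333_ok : pa333.check (ok 333 6 ⟨5, 5, 5⟩) (fun _ r => r) [] = true := by decide +kernel

def pb333 : T := .node ⟨1,0,0⟩ (.node ⟨0,1,0⟩ (.node ⟨0,0,1⟩ (.node ⟨-155,92,280⟩ (.node ⟨292,125,-100⟩ (.node ⟨211,-112,232⟩ (.node ⟨-152,188,229⟩ (.leaf false ⟨⟨-152,188,229⟩,⟨208,251,-68⟩,⟨211,-112,232⟩⟩ (1,[(0,1)]) (25,[(6,236),(2,17),(5,4150)]) (1,[(1,1)])) (.leaf false ⟨⟨-131,92,292⟩,⟨148,-259,148⟩,⟨268,188,61⟩⟩ (471,[(5,62640),(3,959),(0,572)]) (2355,[(5,1695303),(3,18796),(0,21460)]) (2355,[(5,3571344),(3,23548),(0,28165)]))) (.leaf false ⟨⟨-260,160,-133⟩,⟨-5,208,260⟩,⟨208,205,-160⟩⟩ (7,[(3,1389),(5,290),(0,10)]) (7,[(3,4836),(5,2708),(0,13)]) (112,[(3,29640),(5,66551),(0,205)]))) (.leaf false ⟨⟨-308,59,112⟩,⟨88,-112,301⟩,⟨91,308,88⟩⟩ (25,[(4,476),(3,4975),(0,28)])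 (100,[(4,96692),(3,26425),(0,301)]) (25,[(4,8699),(3,10450),(0,22)]))) (.leaf false ⟨⟨61,268,188⟩,⟨148,148,-259⟩,⟨292,-131,92⟩⟩ (155,[(1,46220),(0,61),(2,47152)]) (155,[(1,1295),(0,148),(2,36556)]) (155,[(1,96020),(0,292),(2,6559)]))) (.node ⟨-155,92,-280⟩ (.node ⟨292,125,100⟩ (.node ⟨211,-112,-232⟩ (.node ⟨-152,188,-229⟩ (.leaf false ⟨⟨-152,188,-229⟩,⟨208,251,68⟩,⟨211,-112,-232⟩⟩ (1,[(0,1)]) (25,[(6,236),(2,17),(5,4150)]) (1,[(1,1)])) (.leaf false ⟨⟨-131,92,-292⟩,⟨148,-259,-148⟩,⟨268,188,-61⟩⟩ (471,[(5,62640),(3,959),(0,572)]) (2355,[(5,1695303),(3,18796),(0,21460)]) (2355,[(5,3571344),(3,23548),(0,28165)]))) (.leaf false ⟨⟨-260,160,-133⟩,⟨-5,208,260⟩,⟨208,205,-160⟩⟩ (7,[(3,3251),(5,290),(0,10)]) (7,[(3,1196),(5,2708),(0,13)]) (112,[(3,65480),(5,66551),(0,205)])))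 (.leaf false ⟨⟨-308,59,-112⟩,⟨88,-112,-301⟩,⟨91,308,-88⟩⟩ (25,[(4,476),(3,4975),(0,28)]) (100,[(4,96692),(3,26425),(0,301)]) (25,[(4,8699),(3,10450),(0,22)]))) (.leaf false ⟨⟨61,268,-188⟩,⟨148,148,259⟩,⟨292,-131,-92⟩⟩ (155,[(1,46220),(0,61),(2,47152)]) (155,[(1,1295),(0,148),(2,36556)]) (155,[(1,96020),(0,292),(2,6559)])))) (.node ⟨0,0,1⟩ (.node ⟨-155,-280,92⟩ (.node ⟨292,100,125⟩ (.node ⟨211,-232,-112⟩ (.node ⟨-152,-229,188⟩ (.leaf false ⟨⟨-152,-229,188⟩,⟨208,68,251⟩,⟨211,-232,-112⟩⟩ (1,[(0,1)]) (25,[(4,4150),(2,17),(6,236)]) (1,[(1,1)])) (.leaf false ⟨⟨-131,-292,92⟩,⟨148,-148,-259⟩,⟨268,-61,188⟩⟩ (471,[(4,62640),(0,572),(3,959)]) (2355,[(4,1695303),(0,21460),(3,18796)]) (2355,[(4,3571344),(0,28165),(3,23548)]))) (.leaf false ⟨⟨-260,-133,160⟩,⟨-5,260,208⟩,⟨208,-160,205⟩⟩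 (7,[(5,290),(4,3251),(0,10)]) (7,[(5,2708),(4,1196),(0,13)]) (112,[(5,66551),(4,65480),(0,205)]))) (.leaf false ⟨⟨-308,-112,59⟩,⟨88,-301,-112⟩,⟨91,-88,308⟩⟩ (25,[(2,4975),(4,476),(0,28)]) (100,[(2,26425),(4,96692),(0,301)]) (25,[(2,10450),(4,8699),(0,22)]))) (.leaf false ⟨⟨61,-188,268⟩,⟨148,259,148⟩,⟨292,-92,-131⟩⟩ (155,[(1,47152),(0,61),(2,46220)]) (155,[(1,36556),(0,148),(2,1295)]) (155,[(1,6559),(0,292),(2,96020)]))) (.node ⟨-155,-280,-92⟩ (.node ⟨292,100,-125⟩ (.node ⟨211,-232,112⟩ (.node ⟨-152,-229,-188⟩ (.leaf false ⟨⟨-152,-229,-188⟩,⟨208,68,-251⟩,⟨211,-232,112⟩⟩ (1,[(0,1)]) (25,[(4,4150),(2,17),(6,236)]) (1,[(1,1)])) (.leaf false ⟨⟨-131,-292,-92⟩,⟨148,-148,259⟩,⟨268,-61,-188⟩⟩ (471,[(4,62640),(0,572),(3,959)]) (2355,[(4,1695303),(0,21460),(3,18796)]) (2355,[(4,3571344),(0,28165),(3,23548)])))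 (.leaf false ⟨⟨-260,-133,-160⟩,⟨-5,260,-208⟩,⟨208,-160,-205⟩⟩ (7,[(5,290),(4,3251),(0,10)]) (7,[(5,2708),(4,1196),(0,13)]) (112,[(5,66551),(4,65480),(0,205)]))) (.leaf false ⟨⟨-308,-112,-59⟩,⟨88,-301,112⟩,⟨91,-88,-308⟩⟩ (25,[(2,4975),(4,476),(0,28)]) (100,[(2,26425),(4,96692),(0,301)]) (25,[(2,10450),(4,8699),(0,22)]))) (.leaf false ⟨⟨61,-188,-268⟩,⟨148,259,-148⟩,⟨292,-92,131⟩⟩ (155,[(1,47152),(0,61),(2,46220)]) (155,[(1,36556),(0,148),(2,1295)]) (155,[(1,6559),(0,292),(2,96020)]))))) (.node ⟨0,1,0⟩ (.node ⟨0,0,1⟩ (.node ⟨-323,-76,-28⟩ (.node ⟨-68,317,-76⟩ (.leaf false ⟨⟨-323,-76,-28⟩,⟨-68,317,-76⟩,⟨-44,68,323⟩⟩ (1,[(1,1)]) (1,[(0,1)]) (323,[(2,105561),(1,44),(3,25308)])) (.leaf false ⟨⟨-320,-92,-5⟩,⟨-83,280,160⟩,⟨40,-155,292⟩⟩ (22644,[(1,23980),(3,2067597),(0,7345)])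 (5661,[(1,4297),(3,6191469),(0,13501)]) (5661,[(1,4204),(3,6827832),(0,23299)]))) (.node ⟨-44,-92,317⟩ (.leaf false ⟨⟨-212,253,44⟩,⟨-44,-92,317⟩,⟨253,196,92⟩⟩ (7,[(4,5037),(3,935),(1,11)]) (1,[(0,1)]) (6667,[(4,3997332),(1,17649),(0,376)])) (.leaf false ⟨⟨-323,44,68⟩,⟨28,323,-76⟩,⟨76,68,317⟩⟩ (23,[(2,5051),(4,7913),(0,11)]) (92,[(2,95399),(4,11636),(0,323)]) (19,[(2,5547),(4,4047),(1,17)])))) (.node ⟨-323,-76,28⟩ (.node ⟨-68,317,76⟩ (.leaf false ⟨⟨-323,-76,28⟩,⟨-68,317,76⟩,⟨-44,68,-323⟩⟩ (1,[(1,1)]) (1,[(0,1)]) (323,[(2,105561),(1,44),(3,25308)])) (.leaf false ⟨⟨-320,-92,5⟩,⟨-83,280,-160⟩,⟨40,-155,-292⟩⟩ (22644,[(1,23980),(3,2067597),(0,7345)]) (5661,[(1,4297),(3,6191469),(0,13501)]) (5661,[(1,4204),(3,6827832),(0,23299)]))) (.node ⟨-44,-92,-317⟩ (.leaf false ⟨⟨-212,253,-44⟩,⟨-44,-92,-317⟩,⟨253,196,-92⟩⟩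 (7,[(4,5037),(3,935),(1,11)]) (1,[(0,1)]) (6667,[(4,3997332),(1,17649),(0,376)])) (.leaf false ⟨⟨-323,44,-68⟩,⟨28,323,76⟩,⟨76,68,-317⟩⟩ (23,[(2,5051),(4,7913),(0,11)]) (92,[(2,95399),(4,11636),(0,323)]) (19,[(2,5547),(4,4047),(1,17)]))))) (.node ⟨0,0,1⟩ (.node ⟨28,76,323⟩ (.node ⟨76,-317,68⟩ (.leaf false ⟨⟨-323,-68,44⟩,⟨28,76,323⟩,⟨76,-317,68⟩⟩ (323,[(4,105561),(3,25308),(1,44)]) (1,[(1,1)]) (1,[(0,1)])) (.leaf false ⟨⟨-323,28,-76⟩,⟨-68,76,317⟩,⟨-44,-323,68⟩⟩ (7548,[(3,10997991),(1,5396),(0,34067)]) (1887,[(3,853146),(1,2393),(0,2570)]) (111,[(3,63936),(1,40),(0,79)]))) (.node ⟨-317,92,44⟩ (.leaf false ⟨⟨-320,83,40⟩,⟨-92,-280,-155⟩,⟨-5,-160,292⟩⟩ (26668,[(2,905051),(0,26644),(1,3129)]) (7,[(2,6344),(1,23),(3,212)]) (28,[(2,9791),(1,5),(3,4100)])) (.leaf false ⟨⟨-323,-44,68⟩,⟨28,-323,-76⟩,⟨76,-68,317⟩⟩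 (19,[(2,4845),(4,5829),(1,11)]) (92,[(2,7220),(4,99815),(0,323)]) (23,[(2,8039),(4,3641),(0,17)])))) (.node ⟨28,76,-323⟩ (.node ⟨76,-317,-68⟩ (.leaf false ⟨⟨-323,-68,-44⟩,⟨28,76,-323⟩,⟨76,-317,-68⟩⟩ (323,[(4,105561),(3,25308),(1,44)]) (1,[(1,1)]) (1,[(0,1)])) (.leaf false ⟨⟨-323,28,76⟩,⟨-68,76,-317⟩,⟨-44,-323,-68⟩⟩ (7548,[(3,10997991),(1,5396),(0,34067)]) (1887,[(3,853146),(1,2393),(0,2570)]) (111,[(3,63936),(1,40),(0,79)]))) (.node ⟨-317,92,-44⟩ (.leaf false ⟨⟨-320,83,-40⟩,⟨-92,-280,155⟩,⟨-5,-160,-292⟩⟩ (26668,[(2,905051),(0,26644),(1,3129)]) (7,[(2,6344),(1,23),(3,212)]) (28,[(2,9791),(1,5),(3,4100)])) (.leaf false ⟨⟨-323,-44,-68⟩,⟨28,-323,76⟩,⟨76,-68,-317⟩⟩ (19,[(2,4845),(4,5829),(1,11)]) (92,[(2,7220),(4,99815),(0,323)]) (23,[(2,8039),(4,3641),(0,17)]))))))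
theorem pb333_ok : pb333.check (ok 333 6 ⟨5, 3, 3⟩) (fun _ r => r) [] = true := by decide +kernel

def pc333 : T := .node ⟨1,0,0⟩ (.node ⟨0,1,0⟩ (.node ⟨0,0,1⟩ (.node ⟨-76,-28,323⟩ (.node ⟨317,-76,68⟩ (.leaf false ⟨⟨-76,-28,323⟩,⟨68,323,44⟩,⟨317,-76,68⟩⟩ (1,[(1,1)]) (323,[(4,25308),(3,105561),(1,44)]) (1,[(0,1)])) (.leaf false ⟨⟨-292,125,-100⟩,⟨-100,20,317⟩,⟨125,308,20⟩⟩ (2516,[(4,596403),(0,4175),(1,100)]) (629,[(4,125874),(0,426),(1,707)]) (629,[(4,1006992),(0,2779),(1,624)]))) (.node ⟨323,-76,-28⟩ (.leaf false ⟨⟨44,68,323⟩,⟨68,317,-76⟩,⟨323,-76,-28⟩⟩ (19,[(2,9690),(1,11),(3,984)]) (19,[(2,4047),(1,17),(3,5547)]) (1,[(0,1)])) (.leaf false ⟨⟨-253,92,-196⟩,⟨44,317,92⟩,⟨212,44,-253⟩⟩ (1235,[(2,7398),(1,874),(0,1173)]) (988,[(2,2325051),(1,7049),(0,1524)]) (7,[(2,1782),(4,648),(1,11)]))))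 (.node ⟨-76,-28,-323⟩ (.node ⟨317,-76,-68⟩ (.leaf false ⟨⟨-76,-28,-323⟩,⟨68,323,-44⟩,⟨317,-76,-68⟩⟩ (1,[(1,1)]) (323,[(4,25308),(3,105561),(1,44)]) (1,[(0,1)])) (.leaf false ⟨⟨-292,125,100⟩,⟨-100,20,-317⟩,⟨125,308,-20⟩⟩ (2516,[(4,596403),(0,4175),(1,100)]) (629,[(4,125874),(0,426),(1,707)]) (629,[(4,1006992),(0,2779),(1,624)]))) (.node ⟨323,-76,28⟩ (.leaf false ⟨⟨44,68,-323⟩,⟨68,317,76⟩,⟨323,-76,28⟩⟩ (19,[(2,9690),(1,11),(3,984)]) (19,[(2,4047),(1,17),(3,5547)]) (1,[(0,1)])) (.leaf false ⟨⟨-253,92,-196⟩,⟨44,317,92⟩,⟨212,44,-253⟩⟩ (19,[(2,3080),(4,2622),(0,23)]) (988,[(2,2143259),(1,7049),(0,1524)]) (7,[(2,5324),(4,648),(1,11)]))))) (.node ⟨0,0,1⟩ (.node ⟨92,155,280⟩ (.node ⟨125,-292,-100⟩ (.node ⟨-112,-211,232⟩ (.node ⟨188,152,229⟩ (.leaf false ⟨⟨-112,-211,232⟩,⟨188,152,229⟩,⟨251,-208,-68⟩⟩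 (1,[(1,1)]) (1,[(0,1)]) (25,[(6,4150),(2,17),(5,236)])) (.leaf false ⟨⟨-307,-64,112⟩,⟨-16,-268,-197⟩,⟨128,-187,244⟩⟩ (157,[(3,704),(6,34425),(0,784)]) (785,[(3,3492),(6,595836),(0,4945)]) (785,[(3,8879),(6,1167372),(0,10020)]))) (.leaf false ⟨⟨5,-292,160⟩,⟨92,155,280⟩,⟨320,-40,-83⟩⟩ (112,[(3,19080),(0,5),(4,33759)]) (28,[(3,13176),(0,23),(4,513)]) (7,[(3,4059),(0,20),(4,4500)]))) (.leaf false ⟨⟨-232,-37,236⟩,⟨83,296,128⟩,⟨224,-148,197⟩⟩ (25,[(4,1575),(3,18153),(0,59)]) (25,[(4,6075),(3,1944),(0,32)]) (100,[(4,47025),(3,72324),(0,197)]))) (.leaf false ⟨⟨-148,-259,-148⟩,⟨-37,-148,296⟩,⟨296,-148,-37⟩⟩ (155,[(1,49580),(3,888),(0,259)]) (155,[(1,87320),(3,7881),(0,148)]) (155,[(1,35705),(3,59496),(0,148)]))) (.node ⟨92,155,-280⟩ (.node ⟨125,-292,100⟩ (.node ⟨-112,-211,-232⟩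 (.node ⟨188,152,-229⟩ (.leaf false ⟨⟨-112,-211,-232⟩,⟨188,152,-229⟩,⟨251,-208,68⟩⟩ (1,[(1,1)]) (1,[(0,1)]) (25,[(6,4150),(2,17),(5,236)])) (.leaf false ⟨⟨-307,-64,-112⟩,⟨-16,-268,197⟩,⟨128,-187,-244⟩⟩ (157,[(3,704),(6,34425),(0,784)]) (785,[(3,3492),(6,595836),(0,4945)]) (785,[(3,8879),(6,1167372),(0,10020)]))) (.leaf false ⟨⟨5,-292,-160⟩,⟨92,155,-280⟩,⟨320,-40,83⟩⟩ (112,[(3,19080),(0,5),(4,33759)]) (28,[(3,13176),(0,23),(4,513)]) (7,[(3,4059),(0,20),(4,4500)]))) (.leaf false ⟨⟨-232,-37,-236⟩,⟨83,296,-128⟩,⟨224,-148,-197⟩⟩ (25,[(4,1575),(3,18153),(0,59)]) (25,[(4,6075),(3,1944),(0,32)]) (100,[(4,47025),(3,72324),(0,197)]))) (.leaf false ⟨⟨-148,-259,148⟩,⟨-37,-148,-296⟩,⟨296,-148,37⟩⟩ (155,[(1,49580),(3,888),(0,259)]) (155,[(1,87320),(3,7881),(0,148)]) (155,[(1,35705),(3,59496),(0,148)])))))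 (.node ⟨0,1,0⟩ (.node ⟨0,0,1⟩ (.node ⟨155,92,280⟩ (.node ⟨-292,125,-100⟩ (.node ⟨-211,-112,232⟩ (.node ⟨152,188,229⟩ (.leaf false ⟨⟨-211,-112,232⟩,⟨-208,251,-68⟩,⟨152,188,229⟩⟩ (1,[(1,1)]) (25,[(6,236),(2,17),(5,4150)]) (1,[(0,1)])) (.leaf false ⟨⟨-328,-37,44⟩,⟨-13,296,152⟩,⟨56,-148,293⟩⟩ (1413,[(5,2152215),(3,16360),(0,19732)]) (7065,[(5,4805388),(3,26081),(0,27200)]) (7065,[(5,1627056),(3,31712),(0,29735)]))) (.leaf false ⟨⟨-328,44,-37⟩,⟨-13,152,296⟩,⟨56,293,-148⟩⟩ (28,[(3,1516),(5,11505),(0,11)]) (14,[(3,8552),(5,4191),(0,19)]) (112,[(3,51400),(5,55551),(0,293)]))) (.leaf false ⟨⟨-328,-37,44⟩,⟨-13,296,152⟩,⟨56,-148,293⟩⟩ (25,[(4,11412),(3,450),(0,11)]) (25,[(4,11421),(3,12150),(0,38)]) (100,[(4,79956),(3,21825),(0,293)]))) (.leaf false ⟨⟨-301,-112,-88⟩,⟨-112,59,308⟩,⟨-88,308,-91⟩⟩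 (155,[(1,70640),(0,301),(2,10332)]) (155,[(1,79100),(0,112),(2,19449)]) (155,[(1,10535),(0,88),(2,55836)]))) (.node ⟨155,92,-280⟩ (.node ⟨-292,125,100⟩ (.node ⟨-211,-112,-232⟩ (.node ⟨152,188,-229⟩ (.leaf false ⟨⟨-211,-112,-232⟩,⟨-208,251,68⟩,⟨152,188,-229⟩⟩ (1,[(1,1)]) (25,[(6,236),(2,17),(5,4150)]) (1,[(0,1)])) (.leaf false ⟨⟨-328,-37,-44⟩,⟨-13,296,-152⟩,⟨56,-148,-293⟩⟩ (1413,[(5,2152215),(3,16360),(0,19732)]) (7065,[(5,4805388),(3,26081),(0,27200)]) (7065,[(5,1627056),(3,31712),(0,29735)]))) (.leaf false ⟨⟨-328,44,-37⟩,⟨-13,152,296⟩,⟨56,293,-148⟩⟩ (28,[(3,3588),(5,11505),(0,11)]) (14,[(3,264),(5,4191),(0,19)]) (112,[(3,84552),(5,55551),(0,293)]))) (.leaf false ⟨⟨-328,-37,-44⟩,⟨-13,296,-152⟩,⟨56,-148,-293⟩⟩ (25,[(4,11412),(3,450),(0,11)]) (25,[(4,11421),(3,12150),(0,38)])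 (100,[(4,79956),(3,21825),(0,293)]))) (.leaf false ⟨⟨-301,-112,88⟩,⟨-112,59,-308⟩,⟨-88,308,91⟩⟩ (155,[(1,70640),(0,301),(2,10332)]) (155,[(1,79100),(0,112),(2,19449)]) (155,[(1,10535),(0,88),(2,55836)])))) (.node ⟨0,0,1⟩ (.node ⟨155,-280,92⟩ (.node ⟨-229,152,188⟩ (.node ⟨-232,-211,-112⟩ (.leaf false ⟨⟨-232,-211,-112⟩,⟨-229,152,188⟩,⟨68,-208,251⟩⟩ (1,[(0,1)]) (1,[(1,1)]) (35,[(3,6393),(5,1650),(2,26)])) (.leaf false ⟨⟨-307,-112,64⟩,⟨-16,197,268⟩,⟨128,-244,187⟩⟩ (7,[(5,3077),(4,1628),(0,4)]) (28,[(5,15992),(4,8621),(0,67)]) (112,[(5,29048),(4,66785),(0,187)]))) (.leaf false ⟨⟨-307,-64,112⟩,⟨-16,-268,-197⟩,⟨128,-187,244⟩⟩ (19,[(2,3632),(4,7665),(0,8)]) (38,[(2,5110),(4,15951),(0,67)]) (152,[(2,72244),(4,23367),(0,187)]))) (.leaf false ⟨⟨-307,-16,-128⟩,⟨-112,197,244⟩,⟨-64,-268,187⟩⟩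 (155,[(1,8404),(0,307),(2,88440)]) (155,[(1,48124),(0,112),(2,825)]) (155,[(1,34873),(0,64),(2,59460)]))) (.node ⟨155,-280,-92⟩ (.node ⟨-229,152,-188⟩ (.node ⟨-232,-211,112⟩ (.leaf false ⟨⟨-232,-211,112⟩,⟨-229,152,-188⟩,⟨68,-208,-251⟩⟩ (1,[(0,1)]) (1,[(1,1)]) (35,[(3,6393),(5,1650),(2,26)])) (.leaf false ⟨⟨-307,-112,-64⟩,⟨-16,197,-268⟩,⟨128,-244,-187⟩⟩ (7,[(5,3077),(4,1628),(0,4)]) (28,[(5,15992),(4,8621),(0,67)]) (112,[(5,29048),(4,66785),(0,187)]))) (.leaf false ⟨⟨-307,-64,-112⟩,⟨-16,-268,197⟩,⟨128,-187,-244⟩⟩ (19,[(2,3632),(4,7665),(0,8)]) (38,[(2,5110),(4,15951),(0,67)]) (152,[(2,72244),(4,23367),(0,187)]))) (.leaf false ⟨⟨-307,-16,128⟩,⟨-112,197,-244⟩,⟨-64,-268,-187⟩⟩ (155,[(1,8404),(0,307),(2,88440)]) (155,[(1,48124),(0,112),(2,825)]) (155,[(1,34873),(0,64),(2,59460)])))))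
theorem pc333_ok : pc333.check (ok 333 6 ⟨5, 5, 3⟩) (fun _ r => r) [] = true := by decide +kernel

def pa351 : T := .node ⟨1,0,0⟩ (.node ⟨0,1,0⟩ (.node ⟨0,0,1⟩ (.node ⟨-194,182,229⟩ (.node ⟨94,299,-158⟩ (.leaf false ⟨⟨-194,182,229⟩,⟨94,299,-158⟩,⟨277,26,214⟩⟩ (1,[(1,1)]) (1,[(0,1)]) (7,[(2,1269),(4,2133),(1,1)])) (.leaf false ⟨⟨-182,-91,286⟩,⟨91,302,154⟩,⟨286,-154,133⟩⟩ (39,[(3,12636),(1,8),(0,59)]) (79,[(4,14427),(3,46881),(0,77)]) (158,[(4,57690),(3,15435),(0,133)]))) (.leaf false ⟨⟨26,214,277⟩,⟨182,229,-194⟩,⟨299,-158,94⟩⟩ (97,[(1,29846),(0,13),(2,23124)]) (97,[(1,2021),(0,91),(2,38775)]) (194,[(1,86707),(0,299),(2,23766)]))) (.node ⟨-107,74,-326⟩ (.node ⟨-14,341,82⟩ (.leaf false ⟨⟨-107,74,-326⟩,⟨-14,341,82⟩,⟨334,38,-101⟩⟩ (1,[(1,1)]) (1,[(0,1)]) (341,[(2,37557),(4,114426),(0,38)]))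 (.leaf false ⟨⟨-91,-26,-338⟩,⟨194,283,-74⟩,⟨278,-206,-59⟩⟩ (4509,[(4,37206),(1,4351),(0,1288)]) (41,[(4,7436),(3,24220),(0,37)]) (82,[(4,21970),(3,3227),(0,59)]))) (.leaf false ⟨⟨26,91,-338⟩,⟨182,286,91⟩,⟨299,-182,-26⟩⟩ (107,[(1,44642),(0,26),(2,11661)]) (107,[(1,49595),(0,182),(2,44070)]) (107,[(1,100256),(0,299),(2,2652)])))) (.node ⟨0,0,1⟩ (.node ⟨-107,-326,74⟩ (.node ⟨-14,82,341⟩ (.leaf false ⟨⟨-107,-326,74⟩,⟨-14,82,341⟩,⟨334,-101,38⟩⟩ (1,[(1,1)]) (1,[(0,1)]) (341,[(4,114426),(3,37557),(0,38)])) (.leaf false ⟨⟨-91,-338,-26⟩,⟨194,-74,283⟩,⟨278,-59,-206⟩⟩ (513,[(2,37206),(0,250),(1,469)]) (41,[(2,24220),(4,7436),(0,37)]) (82,[(2,3227),(4,21970),(0,59)]))) (.leaf false ⟨⟨26,-338,91⟩,⟨182,91,286⟩,⟨299,-26,-182⟩⟩ (107,[(1,11661),(0,26),(2,44642)]) (107,[(1,44070),(0,182),(2,49595)])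 (107,[(1,2652),(0,299),(2,100256)]))) (.node ⟨-194,-229,-182⟩ (.node ⟨94,158,-299⟩ (.leaf false ⟨⟨-194,-229,-182⟩,⟨94,158,-299⟩,⟨277,-214,-26⟩⟩ (1,[(1,1)]) (1,[(0,1)]) (7,[(4,2133),(3,1269),(1,1)])) (.leaf false ⟨⟨-182,-286,91⟩,⟨91,-154,-302⟩,⟨286,-133,154⟩⟩ (39,[(2,12636),(0,59),(1,8)]) (79,[(2,46881),(4,14427),(0,77)]) (158,[(2,15435),(4,57690),(0,133)]))) (.leaf false ⟨⟨46,-346,37⟩,⟨229,2,-266⟩,⟨262,59,226⟩⟩ (97,[(1,597),(0,23),(2,38829)]) (194,[(1,93282),(0,229),(2,52053)]) (97,[(1,1920),(0,131),(2,24276)]))))) (.node ⟨0,1,0⟩ (.node ⟨0,0,1⟩ (.node ⟨-74,326,-107⟩ (.node ⟨-74,-107,326⟩ (.node ⟨-341,-82,-14⟩ (.leaf false ⟨⟨-341,-82,-14⟩,⟨-74,326,-107⟩,⟨-38,101,334⟩⟩ (1,[(0,1)]) (1,[(2,1)]) (37,[(3,6164),(1,19),(4,5770)])) (.leaf false ⟨⟨-326,5,130⟩,⟨-5,350,-26⟩,⟨130,26,325⟩⟩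 (941,[(1,353),(5,457282),(0,518)]) (2223,[(5,1571076),(2,1172),(0,4829)]) (908001,[(1,956124),(2,234193),(0,604468)]))) (.leaf false ⟨⟨-347,26,46⟩,⟨-26,182,-299⟩,⟨46,299,178⟩⟩ (107,[(2,13398),(4,39053),(0,26)]) (107,[(2,27339),(4,16250),(0,182)]) (107,[(2,116520),(4,17204),(0,299)]))) (.leaf false ⟨⟨-347,46,26⟩,⟨-26,-299,182⟩,⟨46,178,299⟩⟩ (107,[(3,39053),(2,13398),(0,26)]) (107,[(3,16250),(2,27339),(0,182)]) (107,[(3,17204),(2,116520),(0,299)]))) (.node ⟨-182,229,194⟩ (.node ⟨-299,-158,-94⟩ (.leaf false ⟨⟨-299,-158,-94⟩,⟨-182,229,194⟩,⟨-26,214,-277⟩⟩ (1,[(0,1)]) (1,[(1,1)]) (7,[(2,2133),(1,1),(3,1269)])) (.leaf false ⟨⟨-346,58,-11⟩,⟨26,91,-338⟩,⟨53,334,94⟩⟩ (79,[(2,3595),(4,36005),(0,29)]) (158,[(2,61958),(4,23101),(0,91)]) (79,[(2,8272),(4,45746),(0,167)]))) (.leaf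 false ⟨⟨-338,-26,-91⟩,⟨-11,346,-58⟩,⟨94,-53,-334⟩⟩ (194,[(3,82134),(2,15795),(0,91)]) (97,[(3,6345),(2,40203),(0,29)]) (97,[(3,21276),(2,33102),(0,167)])))) (.node ⟨0,0,1⟩ (.node ⟨-182,194,229⟩ (.node ⟨-299,-94,-158⟩ (.leaf false ⟨⟨-299,-94,-158⟩,⟨-182,194,229⟩,⟨-26,-277,214⟩⟩ (1,[(0,1)]) (1,[(1,1)]) (7,[(2,1269),(1,1),(3,2133)])) (.leaf false ⟨⟨-346,-11,58⟩,⟨26,-338,91⟩,⟨53,94,334⟩⟩ (79,[(4,36005),(3,3595),(0,29)]) (158,[(4,23101),(3,61958),(0,91)]) (79,[(4,45746),(3,8272),(0,167)]))) (.leaf false ⟨⟨-338,-91,-26⟩,⟨-11,-58,346⟩,⟨94,-334,-53⟩⟩ (194,[(1,15795),(3,82134),(0,91)]) (97,[(1,40203),(3,6345),(0,29)]) (97,[(1,33102),(3,21276),(0,167)]))) (.node ⟨-74,107,-326⟩ (.node ⟨-74,-326,107⟩ (.node ⟨-341,82,14⟩ (.leaf false ⟨⟨-341,82,14⟩,⟨-74,-326,107⟩,⟨-38,-101,-334⟩⟩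 (1,[(0,1)]) (1,[(1,1)]) (37,[(3,6164),(2,19),(4,5770)])) (.leaf false ⟨⟨-334,-107,-14⟩,⟨38,-74,-341⟩,⟨101,-326,82⟩⟩ (13338,[(5,9889425),(1,350),(0,16013)]) (28230,[(2,26926),(5,17603087),(0,60611)]) (6669,[(5,298350),(1,5644),(0,4075)]))) (.leaf false ⟨⟨-347,-46,-26⟩,⟨-26,299,-182⟩,⟨46,-178,-299⟩⟩ (107,[(4,39053),(3,13398),(0,26)]) (107,[(4,16250),(3,27339),(0,182)]) (107,[(4,17204),(3,116520),(0,299)]))) (.leaf false ⟨⟨-347,-26,-46⟩,⟨-26,-182,299⟩,⟨46,-299,-178⟩⟩ (107,[(1,13398),(3,39053),(0,26)]) (107,[(1,27339),(3,16250),(0,182)]) (107,[(1,116520),(3,17204),(0,299)])))))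
theorem pa351_ok : pa351.check (ok 351 6 ⟨5, 5, 5⟩) (fun _ r => r) [] = true := by decide +kernel

def pb351 : T := .node ⟨1,0,0⟩ (.node ⟨0,1,0⟩ (.node ⟨0,0,1⟩ (.node ⟨-107,74,326⟩ (.node ⟨58,334,-91⟩ (.node ⟨346,-53,26⟩ (.leaf false ⟨⟨-11,94,338⟩,⟨58,334,-91⟩,⟨346,-53,26⟩⟩ (163,[(5,16290),(4,2816),(2,169)]) (1,[(1,1)]) (1,[(0,1)])) (.leaf false ⟨⟨-338,91,-26⟩,⟨-11,58,346⟩,⟨94,334,-53⟩⟩ (53,[(3,988),(5,13572),(0,91)]) (53,[(3,19846),(5,19485),(0,58)]) (53,[(3,5875),(5,120546),(0,334)]))) (.leaf false ⟨⟨-182,-91,286⟩,⟨91,302,154⟩,⟨286,-154,133⟩⟩ (7,[(4,2),(3,6711),(0,22)]) (13,[(4,2459),(3,11274),(0,22)]) (13,[(4,4820),(3,4344),(0,19)]))) (.leaf false ⟨⟨46,346,-37⟩,⟨229,-2,266⟩,⟨262,-59,-226⟩⟩ (107,[(1,11037),(0,46),(2,40426)]) (107,[(1,103116),(0,229),(2,16732)])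 (107,[(1,61230),(0,262),(2,13075)]))) (.node ⟨-107,74,-326⟩ (.node ⟨58,334,91⟩ (.node ⟨346,-53,-26⟩ (.leaf false ⟨⟨-11,94,-338⟩,⟨58,334,91⟩,⟨346,-53,-26⟩⟩ (163,[(5,16290),(4,2816),(2,169)]) (1,[(1,1)]) (1,[(0,1)])) (.leaf false ⟨⟨-338,91,26⟩,⟨-11,58,-346⟩,⟨94,334,53⟩⟩ (53,[(3,988),(5,13572),(0,91)]) (53,[(3,19846),(5,19485),(0,58)]) (53,[(3,5875),(5,120546),(0,334)]))) (.leaf false ⟨⟨-182,-91,-286⟩,⟨91,302,-154⟩,⟨286,-154,-133⟩⟩ (7,[(4,2),(3,6711),(0,22)]) (13,[(4,2459),(3,11274),(0,22)]) (13,[(4,4820),(3,4344),(0,19)]))) (.leaf false ⟨⟨46,346,-37⟩,⟨229,-2,266⟩,⟨262,-59,-226⟩⟩ (107,[(1,18955),(0,46),(2,40426)]) (107,[(1,46192),(0,229),(2,16732)]) (107,[(1,109594),(0,262),(2,13075)])))) (.node ⟨0,0,1⟩ (.node ⟨-107,-326,74⟩ (.node ⟨58,91,334⟩ (.node ⟨346,-26,-53⟩ (.leaf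 false ⟨⟨-11,-338,94⟩,⟨58,91,334⟩,⟨346,-26,-53⟩⟩ (163,[(3,2816),(5,16290),(2,169)]) (1,[(1,1)]) (1,[(0,1)])) (.leaf false ⟨⟨-338,26,91⟩,⟨-11,-346,58⟩,⟨94,53,334⟩⟩ (53,[(5,13572),(4,988),(0,91)]) (53,[(5,19485),(4,19846),(0,58)]) (53,[(5,120546),(4,5875),(0,334)]))) (.leaf false ⟨⟨-182,-299,26⟩,⟨91,-26,338⟩,⟨286,-182,-91⟩⟩ (7,[(2,7864),(4,60),(0,23)]) (7,[(2,3034),(4,753),(0,2)]) (1,[(2,577),(4,402),(0,2)]))) (.leaf false ⟨⟨46,-37,346⟩,⟨229,266,-2⟩,⟨262,-226,-59⟩⟩ (107,[(1,40426),(0,46),(2,18955)]) (107,[(1,16732),(0,229),(2,46192)]) (107,[(1,13075),(0,262),(2,109594)]))) (.node ⟨-107,-326,-74⟩ (.node ⟨58,91,-334⟩ (.node ⟨346,-26,53⟩ (.leaf false ⟨⟨-11,-338,-94⟩,⟨58,91,-334⟩,⟨346,-26,53⟩⟩ (163,[(3,2816),(5,16290),(2,169)]) (1,[(1,1)]) (1,[(0,1)])) (.leaf false ⟨⟨-338,26,-91⟩,⟨-11,-346,-58⟩,⟨94,53,-334⟩⟩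 (53,[(5,13572),(4,988),(0,91)]) (53,[(5,19485),(4,19846),(0,58)]) (53,[(5,120546),(4,5875),(0,334)]))) (.leaf false ⟨⟨-182,-299,-26⟩,⟨91,-26,-338⟩,⟨286,-182,91⟩⟩ (7,[(2,7864),(4,60),(0,23)]) (7,[(2,3034),(4,753),(0,2)]) (1,[(2,577),(4,402),(0,2)]))) (.leaf false ⟨⟨46,-37,-346⟩,⟨229,266,2⟩,⟨262,-226,59⟩⟩ (107,[(1,40426),(0,46),(2,18955)]) (107,[(1,16732),(0,229),(2,46192)]) (107,[(1,13075),(0,262),(2,109594)]))))) (.node ⟨0,1,0⟩ (.node ⟨0,0,1⟩ (.node ⟨-74,326,-107⟩ (.node ⟨-74,-107,326⟩ (.node ⟨-341,-82,-14⟩ (.leaf false ⟨⟨-341,-82,-14⟩,⟨-74,326,-107⟩,⟨-38,101,334⟩⟩ (1,[(0,1)]) (1,[(2,1)]) (37,[(3,6164),(1,19),(4,5770)])) (.leaf false ⟨⟨-338,-26,91⟩,⟨-11,346,58⟩,⟨94,-53,334⟩⟩ (28230,[(1,7826),(5,9392617),(0,1261)]) (6669,[(5,9606168),(2,44),(0,27965)]) (2823,[(1,2813),(5,155962),(0,1846)])))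 (.leaf false ⟨⟨-347,26,-46⟩,⟨-26,182,299⟩,⟨46,299,-178⟩⟩ (107,[(2,3554),(4,39053),(0,26)]) (107,[(2,91325),(4,16250),(0,182)]) (107,[(2,78428),(4,17204),(0,299)]))) (.leaf false ⟨⟨-347,-46,26⟩,⟨-26,299,182⟩,⟨46,-178,299⟩⟩ (107,[(3,39053),(2,3554),(0,26)]) (107,[(3,16250),(2,91325),(0,182)]) (107,[(3,17204),(2,78428),(0,299)]))) (.node ⟨-74,326,107⟩ (.node ⟨-74,-107,-326⟩ (.node ⟨-341,-82,14⟩ (.leaf false ⟨⟨-341,-82,14⟩,⟨-74,326,107⟩,⟨-38,101,-334⟩⟩ (1,[(0,1)]) (1,[(2,1)]) (37,[(3,6164),(1,19),(4,5770)])) (.leaf false ⟨⟨-338,-26,-91⟩,⟨-11,346,-58⟩,⟨94,-53,-334⟩⟩ (28230,[(1,7826),(5,9392617),(0,1261)]) (6669,[(5,9606168),(2,44),(0,27965)]) (2823,[(1,2813),(5,155962),(0,1846)]))) (.leaf false ⟨⟨-347,26,-46⟩,⟨-26,182,299⟩,⟨46,299,-178⟩⟩ (107,[(2,13398),(4,39053),(0,26)])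 (107,[(2,27339),(4,16250),(0,182)]) (107,[(2,116520),(4,17204),(0,299)]))) (.leaf false ⟨⟨-347,-46,-26⟩,⟨-26,299,-182⟩,⟨46,-178,-299⟩⟩ (107,[(3,39053),(2,3554),(0,26)]) (107,[(3,16250),(2,91325),(0,182)]) (107,[(3,17204),(2,78428),(0,299)])))) (.node ⟨0,0,1⟩ (.node ⟨-74,107,326⟩ (.node ⟨-74,-326,-107⟩ (.node ⟨-341,82,-14⟩ (.leaf false ⟨⟨-341,82,-14⟩,⟨-74,-326,-107⟩,⟨-38,-101,334⟩⟩ (1,[(0,1)]) (1,[(1,1)]) (37,[(3,6164),(2,19),(4,5770)])) (.leaf false ⟨⟨-338,-94,-11⟩,⟨-26,53,346⟩,⟨91,-334,58⟩⟩ (6669,[(5,3275532),(1,1109),(0,3236)]) (14115,[(2,14557),(5,2656124),(0,9872)]) (2823,[(2,8),(5,3667084),(0,11509)]))) (.leaf false ⟨⟨-347,-46,26⟩,⟨-26,299,182⟩,⟨46,-178,299⟩⟩ (107,[(4,39053),(3,13398),(0,26)]) (107,[(4,16250),(3,27339),(0,182)]) (107,[(4,17204),(3,116520),(0,299)])))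 (.leaf false ⟨⟨-347,-26,-46⟩,⟨-26,-182,299⟩,⟨46,-299,-178⟩⟩ (107,[(1,3554),(3,39053),(0,26)]) (107,[(1,91325),(3,16250),(0,182)]) (107,[(1,78428),(3,17204),(0,299)]))) (.node ⟨-74,107,-326⟩ (.node ⟨-74,-326,107⟩ (.node ⟨-341,82,14⟩ (.leaf false ⟨⟨-341,82,14⟩,⟨-74,-326,107⟩,⟨-38,-101,-334⟩⟩ (1,[(0,1)]) (1,[(1,1)]) (37,[(3,6164),(2,19),(4,5770)])) (.leaf false ⟨⟨-338,-94,11⟩,⟨-26,53,-346⟩,⟨91,-334,-58⟩⟩ (6669,[(5,3275532),(1,1109),(0,3236)]) (14115,[(2,14557),(5,2656124),(0,9872)]) (2823,[(2,8),(5,3667084),(0,11509)]))) (.leaf false ⟨⟨-347,-46,-26⟩,⟨-26,299,-182⟩,⟨46,-178,-299⟩⟩ (107,[(4,39053),(3,13398),(0,26)]) (107,[(4,16250),(3,27339),(0,182)]) (107,[(4,17204),(3,116520),(0,299)]))) (.leaf false ⟨⟨-347,-26,-46⟩,⟨-26,-182,299⟩,⟨46,-299,-178⟩⟩ (107,[(1,13398),(3,39053),(0,26)])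 (107,[(1,27339),(3,16250),(0,182)]) (107,[(1,116520),(3,17204),(0,299)])))))
theorem pb351_ok : pb351.check (ok 351 6 ⟨5, 3, 3⟩) (fun _ r => r) [] = true := by decide +kernel

def pc351 : T := .node ⟨1,0,0⟩ (.node ⟨0,1,0⟩ (.node ⟨0,0,1⟩ (.node ⟨326,74,-107⟩ (.node ⟨-82,341,-14⟩ (.leaf false ⟨⟨-82,341,-14⟩,⟨101,38,334⟩,⟨326,74,-107⟩⟩ (1,[(0,1)]) (341,[(2,114426),(4,37557),(0,38)]) (1,[(1,1)])) (.leaf false ⟨⟨26,-46,347⟩,⟨182,299,26⟩,⟨299,-178,-46⟩⟩ (41,[(2,14045),(0,13),(3,2547)]) (163,[(2,13975),(1,91),(3,42003)]) (13026,[(2,314769),(0,8906),(1,9707)]))) (.leaf false ⟨⟨-283,26,206⟩,⟨74,338,59⟩,⟨194,-91,278⟩⟩ (107,[(3,36875),(2,18026),(0,206)]) (107,[(3,27152),(2,40532),(0,59)]) (107,[(3,111386),(2,10835),(0,278)]))) (.node ⟨326,74,107⟩ (.node ⟨-82,341,14⟩ (.leaf false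 ⟨⟨-82,341,14⟩,⟨101,38,-334⟩,⟨326,74,107⟩⟩ (1,[(0,1)]) (341,[(2,114426),(4,37557),(0,38)]) (1,[(1,1)])) (.leaf false ⟨⟨26,-46,-347⟩,⟨182,299,-26⟩,⟨299,-178,46⟩⟩ (41,[(2,14045),(0,13),(3,2547)]) (163,[(2,13975),(1,91),(3,42003)]) (13026,[(2,314769),(0,8906),(1,9707)]))) (.leaf false ⟨⟨-283,26,-206⟩,⟨74,338,-59⟩,⟨194,-91,-278⟩⟩ (107,[(3,36875),(2,18026),(0,206)]) (107,[(3,27152),(2,40532),(0,59)]) (107,[(3,111386),(2,10835),(0,278)])))) (.node ⟨0,0,1⟩ (.node ⟨326,107,74⟩ (.node ⟨-91,-58,334⟩ (.node ⟨26,-346,-53⟩ (.leaf false ⟨⟨-91,-58,334⟩,⟨26,-346,-53⟩,⟨338,11,94⟩⟩ (1,[(1,1)]) (1,[(0,1)]) (163,[(3,2816),(2,169),(4,16290)])) (.leaf false ⟨⟨-139,14,322⟩,⟨182,-286,91⟩,⟨266,203,106⟩⟩ (53,[(5,1005),(4,110670),(0,322)]) (53,[(5,12012),(4,46644),(0,91)]) (1,[(5,318),(4,489),(0,2)])))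 (.leaf false ⟨⟨26,-214,277⟩,⟨182,-229,-194⟩,⟨299,158,94⟩⟩ (7,[(2,2607),(0,2),(3,1614)]) (1,[(2,474),(0,2),(3,345)]) (7,[(2,8340),(0,23),(3,228)]))) (.leaf false ⟨⟨-250,-235,-74⟩,⟨26,-130,325⟩,⟨245,-226,-110⟩⟩ (107,[(1,9472),(3,49860),(0,235)]) (107,[(1,44395),(3,45162),(0,130)]) (107,[(1,4954),(3,99891),(0,226)]))) (.node ⟨326,107,-74⟩ (.node ⟨-91,-58,-334⟩ (.node ⟨26,-346,53⟩ (.leaf false ⟨⟨-91,-58,-334⟩,⟨26,-346,53⟩,⟨338,11,-94⟩⟩ (1,[(1,1)]) (1,[(0,1)]) (163,[(3,2816),(2,169),(4,16290)])) (.leaf false ⟨⟨-139,14,-322⟩,⟨182,-286,-91⟩,⟨266,203,-106⟩⟩ (53,[(5,1005),(4,110670),(0,322)]) (53,[(5,12012),(4,46644),(0,91)]) (1,[(5,318),(4,489),(0,2)]))) (.leaf false ⟨⟨26,-214,-277⟩,⟨182,-229,194⟩,⟨299,158,-94⟩⟩ (7,[(2,2607),(0,2),(3,1614)]) (1,[(2,474),(0,2),(3,345)]) (7,[(2,8340),(0,23),(3,228)])))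 (.leaf false ⟨⟨-250,-235,74⟩,⟨26,-130,-325⟩,⟨245,-226,110⟩⟩ (107,[(1,9472),(3,49860),(0,235)]) (107,[(1,44395),(3,45162),(0,130)]) (107,[(1,4954),(3,99891),(0,226)]))))) (.node ⟨0,1,0⟩ (.node ⟨0,0,1⟩ (.node ⟨107,74,326⟩ (.node ⟨-229,182,-194⟩ (.node ⟨158,299,94⟩ (.leaf false ⟨⟨-229,182,-194⟩,⟨-214,26,277⟩,⟨158,299,94⟩⟩ (1,[(1,1)]) (7,[(3,2133),(5,1269),(1,1)]) (1,[(0,1)])) (.leaf false ⟨⟨-346,26,-53⟩,⟨-58,-91,334⟩,⟨11,338,94⟩⟩ (1658,[(4,1252839),(2,966),(0,4285)]) (289692,[(1,98317),(2,428571),(0,254080)]) (6737,[(1,809),(4,1950492),(2,2424)]))) (.leaf false ⟨⟨-346,-37,46⟩,⟨2,266,229⟩,⟨59,-226,262⟩⟩ (97,[(4,38829),(3,597),(0,23)]) (194,[(4,52053),(3,93282),(0,229)]) (97,[(4,24276),(3,1920),(0,131)]))) (.leaf false ⟨⟨-334,-94,-53⟩,⟨-91,338,-26⟩,⟨-58,11,346⟩⟩ (107,[(1,103213),(0,334),(2,14658)])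 (107,[(1,26884),(0,91),(2,42900)]) (107,[(1,55930),(0,58),(2,5469)]))) (.node ⟨107,74,-326⟩ (.node ⟨-229,182,194⟩ (.node ⟨158,299,-94⟩ (.leaf false ⟨⟨-229,182,194⟩,⟨-214,26,-277⟩,⟨158,299,-94⟩⟩ (1,[(1,1)]) (7,[(3,2133),(5,1269),(1,1)]) (1,[(0,1)])) (.leaf false ⟨⟨-346,26,53⟩,⟨-58,-91,-334⟩,⟨11,338,-94⟩⟩ (1658,[(4,1252839),(2,966),(0,4285)]) (289692,[(1,98317),(2,428571),(0,254080)]) (6737,[(1,809),(4,1950492),(2,2424)]))) (.leaf false ⟨⟨-346,-37,-46⟩,⟨2,266,-229⟩,⟨59,-226,-262⟩⟩ (97,[(4,38829),(3,597),(0,23)]) (194,[(4,52053),(3,93282),(0,229)]) (97,[(4,24276),(3,1920),(0,131)]))) (.leaf false ⟨⟨-334,-94,53⟩,⟨-91,338,26⟩,⟨-58,11,-346⟩⟩ (107,[(1,103213),(0,334),(2,14658)]) (107,[(1,26884),(0,91),(2,42900)]) (107,[(1,55930),(0,58),(2,5469)])))) (.node ⟨0,0,1⟩ (.node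 ⟨194,-229,182⟩ (.node ⟨-94,158,299⟩ (.leaf false ⟨⟨-277,-214,26⟩,⟨-94,158,299⟩,⟨194,-229,182⟩⟩ (7,[(4,2133),(3,1269),(1,1)]) (1,[(0,1)]) (1,[(1,1)])) (.leaf false ⟨⟨-346,-58,11⟩,⟨26,-91,338⟩,⟨53,-334,-94⟩⟩ (79,[(2,9540),(4,30060),(0,29)]) (229,[(2,60840),(4,11700),(1,91)]) (79,[(2,42507),(4,11511),(0,167)]))) (.leaf false ⟨⟨-334,53,-94⟩,⟨-91,26,338⟩,⟨-58,-346,11⟩⟩ (97,[(1,21276),(0,167),(2,33102)]) (194,[(1,82134),(0,91),(2,15795)]) (97,[(1,6345),(0,29),(2,40203)]))) (.node ⟨194,-229,-182⟩ (.node ⟨-94,158,-299⟩ (.leaf false ⟨⟨-277,-214,-26⟩,⟨-94,158,-299⟩,⟨194,-229,-182⟩⟩ (7,[(4,2133),(3,1269),(1,1)]) (1,[(0,1)]) (1,[(1,1)])) (.leaf false ⟨⟨-346,-58,-11⟩,⟨26,-91,-338⟩,⟨53,-334,94⟩⟩ (79,[(2,9540),(4,30060),(0,29)]) (229,[(2,60840),(4,11700),(1,91)]) (79,[(2,42507),(4,11511),(0,167)])))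 (.leaf false ⟨⟨-334,53,94⟩,⟨-91,26,-338⟩,⟨-58,-346,-11⟩⟩ (97,[(1,21276),(0,167),(2,33102)]) (194,[(1,82134),(0,91),(2,15795)]) (97,[(1,6345),(0,29),(2,40203)])))))
theorem pc351_ok : pc351.check (ok 351 6 ⟨5, 5, 3⟩) (fun _ r => r) [] = true := by decide +kernel

def pa501 : T := .node ⟨1,0,0⟩ (.node ⟨0,1,0⟩ (.node ⟨0,0,1⟩ (.node ⟨-140,-76,475⟩ (.node ⟨475,-100,124⟩ (.leaf false ⟨⟨-140,-76,475⟩,⟨76,485,100⟩,⟨475,-100,124⟩⟩ (1,[(1,1)]) (19,[(4,2004),(3,9519),(1,4)]) (1,[(0,1)])) (.leaf false ⟨⟨-476,112,-109⟩,⟨-77,136,476⟩,⟨136,469,-112⟩⟩ (3173,[(4,302437),(0,3743),(1,249)]) (3173,[(4,4496809),(0,8398),(1,5372)]) (12692,[(4,37842367),(0,71421),(1,15652)]))) (.node ⟨-92,436,-229⟩ (.leaf false ⟨⟨-92,436,-229⟩,⟨91,244,428⟩,⟨484,37,-124⟩⟩ (1,[(0,1)]) (109,[(2,60621),(4,15531),(0,61)])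 (76,[(2,8151),(4,31604),(1,37)])) (.leaf false ⟨⟨37,-124,484⟩,⟨244,428,91⟩,⟨436,-229,-92⟩⟩ (92,[(2,36055),(0,37),(3,4724)]) (35,[(2,32160),(1,61),(3,10344)]) (17008,[(2,14774868),(0,16299),(1,42257)])))) (.node ⟨-155,20,-476⟩ (.node ⟨-155,476,-20⟩ (.node ⟨20,-155,-476⟩ (.leaf false ⟨⟨-124,460,-155⟩,⟨20,-155,-476⟩,⟨485,124,-20⟩⟩ (2280,[(4,497496),(1,1129),(2,695)]) (1,[(0,1)]) (119,[(5,57615),(4,15531),(0,5)])) (.leaf false ⟨⟨-332,364,-91⟩,⟨91,196,452⟩,⟨364,283,-196⟩⟩ (11900,[(5,687925),(0,24492),(2,26767)]) (155,[(3,23236),(5,18025),(0,196)]) (155,[(3,165088),(5,62080),(0,283)]))) (.leaf false ⟨⟨-155,20,-476⟩,⟨124,485,-20⟩,⟨460,-124,-155⟩⟩ (1,[(1,1)]) (190,[(3,171342),(1,15),(0,167)]) (4712,[(3,7082136),(1,2215),(0,16199)]))) (.leaf false ⟨⟨44,499,-8⟩,⟨176,-8,469⟩,⟨467,-44,-176⟩⟩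 (155,[(1,22184),(0,44),(2,78225)]) (155,[(1,11081),(0,176),(2,2280)]) (155,[(1,249572),(0,467),(2,2520)])))) (.node ⟨0,0,1⟩ (.node ⟨-155,-476,20⟩ (.node ⟨-155,-20,476⟩ (.node ⟨20,-476,-155⟩ (.leaf false ⟨⟨-124,-155,460⟩,⟨20,-476,-155⟩,⟨485,-20,124⟩⟩ (2280,[(3,497496),(2,695),(1,1129)]) (1,[(0,1)]) (119,[(3,15531),(5,57615),(0,5)])) (.leaf false ⟨⟨-332,-91,364⟩,⟨91,452,196⟩,⟨364,-196,283⟩⟩ (11900,[(5,687925),(2,26767),(0,24492)]) (155,[(5,18025),(4,23236),(0,196)]) (155,[(5,62080),(4,165088),(0,283)]))) (.leaf false ⟨⟨-155,-476,20⟩,⟨124,-20,485⟩,⟨460,-155,-124⟩⟩ (1,[(1,1)]) (190,[(2,171342),(0,167),(1,15)]) (4712,[(2,7082136),(0,16199),(1,2215)]))) (.leaf false ⟨⟨44,-8,499⟩,⟨176,469,-8⟩,⟨467,-176,-44⟩⟩ (155,[(1,78225),(0,44),(2,22184)]) (155,[(1,2280),(0,176),(2,11081)])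 (155,[(1,2520),(0,467),(2,249572)]))) (.node ⟨-140,-475,76⟩ (.node ⟨475,-124,100⟩ (.leaf false ⟨⟨-140,-475,76⟩,⟨76,-100,-485⟩,⟨475,-124,100⟩⟩ (1,[(1,1)]) (19,[(2,9519),(4,2004),(1,4)]) (1,[(0,1)])) (.leaf false ⟨⟨-484,-104,-77⟩,⟨-19,352,-356⟩,⟨128,-341,-344⟩⟩ (38076,[(4,5491461),(1,19948),(0,44479)]) (9519,[(4,17036004),(1,2236),(0,35587)]) (9519,[(4,26386167),(1,19189),(0,47329)]))) (.node ⟨-92,229,-436⟩ (.leaf false ⟨⟨-92,229,-436⟩,⟨91,-428,-244⟩,⟨484,124,-37⟩⟩ (1,[(0,1)]) (109,[(4,15531),(3,60621),(0,61)]) (76,[(1,37),(4,31604),(3,8151)])) (.leaf false ⟨⟨37,-484,124⟩,⟨244,-91,-428⟩,⟨436,92,229⟩⟩ (92,[(2,4724),(0,37),(3,36055)]) (35,[(2,10344),(1,61),(3,32160)]) (18940,[(2,14774868),(1,27077),(0,48555)])))))) (.node ⟨0,1,0⟩ (.node ⟨0,0,1⟩ (.node ⟨-20,476,-155⟩ (.node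 ⟨-476,-155,20⟩ (.leaf false ⟨⟨-476,-155,20⟩,⟨-155,460,-124⟩,⟨-20,124,485⟩⟩ (1,[(0,1)]) (229676,[(2,7891251),(0,64580),(1,242985)]) (119,[(2,57615),(0,5),(3,15531)])) (.leaf false ⟨⟨-485,20,124⟩,⟨-20,476,-155⟩,⟨124,155,460⟩⟩ (31,[(2,3924),(4,16939),(0,4)]) (1,[(1,1)]) (1,[(2,480),(4,352),(0,1)]))) (.node ⟨224,-11,448⟩ (.leaf false ⟨⟨-484,124,37⟩,⟨-91,-428,244⟩,⟨92,229,436⟩⟩ (155,[(4,75760),(3,36832),(1,37)]) (155,[(4,18985),(3,49804),(1,244)]) (112,[(4,14112),(3,26847),(0,109)])) (.leaf false ⟨⟨-499,40,-20⟩,⟨-40,-299,400⟩,⟨20,400,301⟩⟩ (25760,[(3,104462277),(1,219072),(0,76945)]) (644,[(3,1083027),(1,2688),(0,355)]) (3220,[(3,4762593),(1,7308),(0,365)])))) (.node ⟨76,-140,-475⟩ (.node ⟨100,475,-124⟩ (.leaf false ⟨⟨-485,76,-100⟩,⟨76,-140,-475⟩,⟨100,475,-124⟩⟩ (19,[(4,9519),(3,2004),(1,4)])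 (1,[(1,1)]) (1,[(0,1)])) (.leaf false ⟨⟨-499,-8,-44⟩,⟨8,469,-176⟩,⟨44,-176,-467⟩⟩ (12692,[(3,41049769),(1,22092),(0,80123)]) (3173,[(3,2060947),(1,1384),(0,798)]) (3173,[(3,500332),(1,3437),(0,1216)]))) (.node ⟨-436,-92,229⟩ (.leaf false ⟨⟨-467,-44,176⟩,⟨-176,-8,-469⟩,⟨-44,499,8⟩⟩ (436,[(2,30207),(0,467),(3,23780)]) (109,[(2,61197),(0,44),(3,3176)]) (19,[(2,5073),(1,11),(3,7941)])) (.leaf false ⟨⟨-485,100,-76⟩,⟨76,475,140⟩,⟨100,124,-475⟩⟩ (7,[(2,2907),(4,3015),(1,5)]) (15152,[(4,14964672),(1,24331),(0,41205)]) (23,[(2,3826),(4,11216),(0,31)]))))) (.node ⟨0,0,1⟩ (.node ⟨76,-475,-140⟩ (.node ⟨100,-124,475⟩ (.leaf false ⟨⟨-485,-100,76⟩,⟨76,-475,-140⟩,⟨100,-124,475⟩⟩ (19,[(2,2004),(4,9519),(1,4)]) (1,[(1,1)]) (1,[(0,1)])) (.leaf false ⟨⟨-499,-44,-8⟩,⟨8,-176,469⟩,⟨44,-467,-176⟩⟩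 (12692,[(2,41049769),(0,80123),(1,22092)]) (3173,[(2,2060947),(0,798),(1,1384)]) (3173,[(2,500332),(0,1216),(1,3437)]))) (.node ⟨-436,229,-92⟩ (.leaf false ⟨⟨-467,176,-44⟩,⟨-176,-469,-8⟩,⟨-44,8,499⟩⟩ (436,[(2,23780),(0,467),(3,30207)]) (109,[(2,3176),(0,44),(3,61197)]) (19,[(2,7941),(1,11),(3,5073)])) (.leaf false ⟨⟨-485,-76,100⟩,⟨76,140,475⟩,⟨100,-475,124⟩⟩ (7,[(1,5),(4,3015),(3,2907)]) (15152,[(1,24331),(4,14964672),(0,41205)]) (23,[(4,11216),(3,3826),(0,31)])))) (.node ⟨-20,155,-476⟩ (.node ⟨-476,-20,155⟩ (.leaf false ⟨⟨-476,-20,155⟩,⟨-155,124,-460⟩,⟨-20,-485,-124⟩⟩ (1,[(0,1)]) (74180,[(2,7891251),(1,62124),(0,21545)]) (119,[(2,15531),(0,5),(3,57615)])) (.leaf false ⟨⟨-485,-124,-20⟩,⟨-20,155,-476⟩,⟨124,-460,-155⟩⟩ (31,[(4,16939),(3,3924),(0,4)]) (1,[(1,1)]) (1,[(4,352),(3,480),(0,1)])))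 (.leaf false ⟨⟨-499,-44,-8⟩,⟨8,-176,469⟩,⟨44,-467,-176⟩⟩ (155,[(1,22184),(3,78225),(0,44)]) (155,[(1,11081),(3,2280),(0,176)]) (155,[(1,249572),(3,2520),(0,467)])))))
theorem pa501_ok : pa501.check (ok 501 6 ⟨5, 5, 5⟩) (fun _ r => r) [] = true := by decide +kernel

def pb501 : T := .node ⟨1,0,0⟩ (.node ⟨0,1,0⟩ (.node ⟨0,0,1⟩ (.node ⟨-155,20,476⟩ (.node ⟨-176,467,-44⟩ (.leaf false ⟨⟨-176,467,-44⟩,⟨-8,44,499⟩,⟨469,176,-8⟩⟩ (1,[(0,1)]) (467,[(2,234969),(4,4008),(0,44)]) (467,[(2,4008),(4,249999),(0,176)])) (.leaf false ⟨⟨-155,20,476⟩,⟨124,485,20⟩,⟨460,-124,155⟩⟩ (1,[(1,1)]) (11,[(4,484),(3,7670),(0,5)]) (223172,[(4,102099291),(1,66929),(0,62124)]))) (.node ⟨448,-139,-176⟩ (.leaf false ⟨⟨37,484,124⟩,⟨244,91,-428⟩,⟨436,-92,229⟩⟩ (155,[(2,36832),(1,37),(3,75760)]) (155,[(2,49804),(1,244),(3,18985)])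 (112,[(2,44832),(0,109),(3,4847)])) (.leaf false ⟨⟨-464,188,-19⟩,⟨43,56,-496⟩,⟨184,461,68⟩⟩ (4195,[(2,1885351),(1,6576),(0,6620)]) (839,[(2,457716),(1,2071),(0,636)]) (4195,[(2,32704508),(1,77368),(0,25045)])))) (.node ⟨-155,20,-476⟩ (.node ⟨-176,467,44⟩ (.leaf false ⟨⟨-176,467,44⟩,⟨-8,44,-499⟩,⟨469,176,8⟩⟩ (1,[(0,1)]) (467,[(2,234969),(4,4008),(0,44)]) (467,[(2,4008),(4,249999),(0,176)])) (.leaf false ⟨⟨-155,20,-476⟩,⟨124,485,-20⟩,⟨460,-124,-155⟩⟩ (1,[(1,1)]) (11,[(4,484),(3,7670),(0,5)]) (223172,[(4,102099291),(1,66929),(0,62124)]))) (.node ⟨448,-139,176⟩ (.leaf false ⟨⟨37,484,-124⟩,⟨244,91,428⟩,⟨436,-92,-229⟩⟩ (155,[(2,36832),(1,37),(3,75760)]) (155,[(2,49804),(1,244),(3,18985)]) (112,[(2,44832),(0,109),(3,4847)])) (.leaf false ⟨⟨-464,188,-19⟩,⟨43,56,-496⟩,⟨184,461,68⟩⟩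 (4195,[(2,2044761),(1,6576),(0,6620)]) (839,[(2,1290004),(1,2071),(0,636)]) (4195,[(2,32133988),(1,77368),(0,25045)]))))) (.node ⟨0,0,1⟩ (.node ⟨-155,-476,20⟩ (.node ⟨-176,44,467⟩ (.leaf false ⟨⟨-176,44,467⟩,⟨-8,-499,44⟩,⟨469,8,176⟩⟩ (1,[(0,1)]) (467,[(4,4008),(3,234969),(0,44)]) (467,[(4,249999),(3,4008),(0,176)])) (.leaf false ⟨⟨-155,-476,20⟩,⟨124,-20,485⟩,⟨460,-155,-124⟩⟩ (1,[(1,1)]) (11,[(2,7670),(4,484),(0,5)]) (90596,[(2,102099291),(0,242985),(1,7040)]))) (.node ⟨448,176,-139⟩ (.leaf false ⟨⟨37,-124,484⟩,⟨244,428,91⟩,⟨436,-229,-92⟩⟩ (155,[(2,75760),(1,37),(3,36832)]) (155,[(2,18985),(1,244),(3,49804)]) (112,[(2,4847),(0,109),(3,44832)])) (.leaf false ⟨⟨-464,-19,188⟩,⟨43,-496,56⟩,⟨184,68,461⟩⟩ (4195,[(1,6576),(3,2044761),(0,6620)]) (839,[(1,2071),(3,1290004),(0,636)])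 (4195,[(1,77368),(3,32133988),(0,25045)])))) (.node ⟨-155,-476,-20⟩ (.node ⟨-176,44,-467⟩ (.leaf false ⟨⟨-176,44,-467⟩,⟨-8,-499,-44⟩,⟨469,8,-176⟩⟩ (1,[(0,1)]) (467,[(4,4008),(3,234969),(0,44)]) (467,[(4,249999),(3,4008),(0,176)])) (.leaf false ⟨⟨-155,-476,-20⟩,⟨124,-20,-485⟩,⟨460,-155,124⟩⟩ (1,[(1,1)]) (11,[(2,7670),(4,484),(0,5)]) (90596,[(2,102099291),(0,242985),(1,7040)]))) (.node ⟨448,176,139⟩ (.leaf false ⟨⟨37,-124,-484⟩,⟨244,428,-91⟩,⟨436,-229,92⟩⟩ (155,[(2,75760),(1,37),(3,36832)]) (155,[(2,18985),(1,244),(3,49804)]) (112,[(2,4847),(0,109),(3,44832)])) (.leaf false ⟨⟨-464,-19,-188⟩,⟨43,-496,-56⟩,⟨184,68,-461⟩⟩ (4195,[(1,6576),(3,2044761),(0,6620)]) (839,[(1,2071),(3,1290004),(0,636)]) (4195,[(1,77368),(3,32133988),(0,25045)])))))) (.node ⟨0,1,0⟩ (.node ⟨0,0,1⟩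 (.node ⟨-20,476,-155⟩ (.node ⟨-476,-155,20⟩ (.leaf false ⟨⟨-476,-155,20⟩,⟨-155,460,-124⟩,⟨-20,124,485⟩⟩ (1,[(0,1)]) (229676,[(2,7891251),(0,64580),(1,242985)]) (119,[(2,57615),(0,5),(3,15531)])) (.leaf false ⟨⟨-485,20,124⟩,⟨-20,476,-155⟩,⟨124,155,460⟩⟩ (31,[(2,3924),(4,16939),(0,4)]) (1,[(1,1)]) (1,[(2,480),(4,352),(0,1)]))) (.node ⟨139,-176,448⟩ (.leaf false ⟨⟨-476,-109,112⟩,⟨-77,476,136⟩,⟨136,-112,469⟩⟩ (155,[(4,76020),(3,36417),(1,112)]) (56,[(4,6675),(3,29648),(0,17)]) (64,[(4,609),(3,4624),(0,67)])) (.leaf false ⟨⟨-476,-155,20⟩,⟨-155,460,-124⟩,⟨-20,124,485⟩⟩ (12585,[(3,87822973),(1,216028),(0,74180)]) (12585,[(3,26846284),(1,52204),(0,21545)]) (2517,[(3,7132448),(1,15275),(0,2560)])))) (.node ⟨-20,476,155⟩ (.node ⟨-476,-155,-20⟩ (.leaf false ⟨⟨-476,-155,-20⟩,⟨-155,460,124⟩,⟨-20,124,-485⟩⟩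 (1,[(0,1)]) (229676,[(2,7891251),(0,64580),(1,242985)]) (119,[(2,57615),(0,5),(3,15531)])) (.leaf false ⟨⟨-485,20,-124⟩,⟨-20,476,155⟩,⟨124,155,-460⟩⟩ (31,[(2,3924),(4,16939),(0,4)]) (1,[(1,1)]) (1,[(2,480),(4,352),(0,1)]))) (.node ⟨139,-176,-448⟩ (.leaf false ⟨⟨-476,-109,-112⟩,⟨-77,476,-136⟩,⟨136,-112,-469⟩⟩ (155,[(4,76020),(3,36417),(1,112)]) (56,[(4,6675),(3,29648),(0,17)]) (64,[(4,609),(3,4624),(0,67)])) (.leaf false ⟨⟨-476,-155,-20⟩,⟨-155,460,124⟩,⟨-20,124,-485⟩⟩ (12585,[(3,87822973),(1,216028),(0,74180)]) (12585,[(3,26846284),(1,52204),(0,21545)]) (2517,[(3,7132448),(1,15275),(0,2560)]))))) (.node ⟨0,0,1⟩ (.node ⟨-20,155,476⟩ (.node ⟨-476,-20,-155⟩ (.leaf false ⟨⟨-476,-20,-155⟩,⟨-155,124,460⟩,⟨-20,-485,124⟩⟩ (1,[(0,1)]) (74180,[(2,7891251),(1,62124),(0,21545)])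 (119,[(2,15531),(0,5),(3,57615)])) (.leaf false ⟨⟨-485,-124,20⟩,⟨-20,155,476⟩,⟨124,-460,155⟩⟩ (31,[(4,16939),(3,3924),(0,4)]) (1,[(1,1)]) (1,[(4,352),(3,480),(0,1)]))) (.node ⟨139,-448,-176⟩ (.leaf false ⟨⟨-476,-112,-109⟩,⟨-77,-136,476⟩,⟨136,-469,-112⟩⟩ (155,[(2,36417),(4,76020),(1,112)]) (56,[(2,29648),(4,6675),(0,17)]) (64,[(2,4624),(4,609),(0,67)])) (.leaf false ⟨⟨-476,-20,-155⟩,⟨-155,124,460⟩,⟨-20,-485,124⟩⟩ (12585,[(2,87822973),(0,74180),(1,216028)]) (12585,[(2,26846284),(0,21545),(1,52204)]) (2517,[(2,7132448),(0,2560),(1,15275)])))) (.node ⟨-20,155,-476⟩ (.node ⟨-476,-20,155⟩ (.leaf false ⟨⟨-476,-20,155⟩,⟨-155,124,-460⟩,⟨-20,-485,-124⟩⟩ (1,[(0,1)]) (74180,[(2,7891251),(1,62124),(0,21545)]) (119,[(2,15531),(0,5),(3,57615)])) (.leaf false ⟨⟨-485,-124,-20⟩,⟨-20,155,-476⟩,⟨124,-460,-155⟩⟩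 (31,[(4,16939),(3,3924),(0,4)]) (1,[(1,1)]) (1,[(4,352),(3,480),(0,1)]))) (.node ⟨139,-448,176⟩ (.leaf false ⟨⟨-476,-112,109⟩,⟨-77,-136,-476⟩,⟨136,-469,112⟩⟩ (155,[(2,36417),(4,76020),(1,112)]) (56,[(2,29648),(4,6675),(0,17)]) (64,[(2,4624),(4,609),(0,67)])) (.leaf false ⟨⟨-476,-20,-155⟩,⟨-155,124,460⟩,⟨-20,-485,124⟩⟩ (12585,[(2,91724323),(0,74180),(1,216028)]) (12585,[(2,15268084),(0,21545),(1,52204)]) (2517,[(2,6508232),(0,2560),(1,15275)]))))))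
theorem pb501_ok : pb501.check (ok 501 6 ⟨5, 3, 3⟩) (fun _ r => r) [] = true := by decide +kernel

def pc501 : T := .node ⟨1,0,0⟩ (.node ⟨0,1,0⟩ (.node ⟨0,0,1⟩ (.node ⟨20,476,-155⟩ (.node ⟨476,20,-155⟩ (.node ⟨-124,155,460⟩ (.leaf false ⟨⟨-124,155,460⟩,⟨20,476,-155⟩,⟨485,20,124⟩⟩ (1,[(0,1)]) (1,[(2,1)]) (1,[(3,279),(5,9),(1,1)])) (.leaf false ⟨⟨20,485,-124⟩,⟨155,-124,-460⟩,⟨476,20,155⟩⟩ (1,[(3,31),(2,1),(4,9)]) (4,[(3,460),(0,5),(4,279)]) (31,[(3,59545),(0,119),(4,19065)]))) (.leaf false ⟨⟨-184,461,-68⟩,⟨-43,56,496⟩,⟨464,188,19⟩⟩ (23560,[(4,1399464),(1,23365),(0,13029)]) (95,[(4,152019),(1,25),(0,329)]) (2945,[(4,2099196),(1,1230),(0,1591)]))) (.node ⟨-196,344,307⟩ (.leaf false ⟨⟨-196,344,307⟩,⟨8,-331,376⟩,⟨461,152,124⟩⟩ (1,[(0,1)]) (155,[(4,8760),(3,127671),(1,376)])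 (5,[(4,2385),(3,2664),(1,4)])) (.leaf false ⟨⟨-19,68,496⟩,⟨188,461,-56⟩,⟨464,-184,43⟩⟩ (8080,[(3,15848676),(1,30461),(0,2325)]) (404,[(3,717696),(1,779),(0,467)]) (2020,[(3,7699428),(1,12573),(0,6065)])))) (.node ⟨20,476,155⟩ (.node ⟨476,20,155⟩ (.node ⟨-124,155,-460⟩ (.leaf false ⟨⟨-124,155,-460⟩,⟨20,476,155⟩,⟨485,20,-124⟩⟩ (1,[(0,1)]) (1,[(2,1)]) (1,[(3,279),(5,9),(1,1)])) (.leaf false ⟨⟨20,485,-124⟩,⟨155,-124,-460⟩,⟨476,20,155⟩⟩ (1,[(3,279),(2,1),(4,9)]) (4,[(3,4140),(0,5),(4,279)]) (31,[(3,49935),(0,119),(4,19065)]))) (.leaf false ⟨⟨-184,461,68⟩,⟨-43,56,-496⟩,⟨464,188,-19⟩⟩ (23560,[(4,1399464),(1,23365),(0,13029)]) (95,[(4,152019),(1,25),(0,329)]) (2945,[(4,2099196),(1,1230),(0,1591)]))) (.node ⟨-196,344,-307⟩ (.leaf false ⟨⟨-196,344,-307⟩,⟨8,-331,-376⟩,⟨461,152,-124⟩⟩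 (1,[(0,1)]) (155,[(4,8760),(3,127671),(1,376)]) (5,[(4,2385),(3,2664),(1,4)])) (.leaf false ⟨⟨-19,68,-496⟩,⟨188,461,56⟩,⟨464,-184,-43⟩⟩ (8080,[(3,15848676),(1,30461),(0,2325)]) (404,[(3,717696),(1,779),(0,467)]) (2020,[(3,7699428),(1,12573),(0,6065)]))))) (.node ⟨0,0,1⟩ (.node ⟨20,155,476⟩ (.node ⟨467,176,-44⟩ (.leaf false ⟨⟨44,8,499⟩,⟨176,-469,-8⟩,⟨467,176,-44⟩⟩ (467,[(2,234969),(0,44),(3,4008)]) (467,[(2,4008),(0,176),(3,249999)]) (1,[(0,1)])) (.leaf false ⟨⟨-244,-436,37⟩,⟨-91,92,484⟩,⟨428,-229,124⟩⟩ (44,[(4,6543),(3,12672),(0,37)]) (22649,[(1,22308),(4,1138650),(0,7807)]) (119,[(1,31),(4,50312),(3,32056)]))) (.node ⟨-139,-448,-176⟩ (.leaf false ⟨⟨-139,-448,-176⟩,⟨128,-211,436⟩,⟨464,-76,-173⟩⟩ (1,[(0,1)]) (155,[(2,168016),(4,24060),(1,211)]) (155,[(2,9361),(4,73440),(1,76)]))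 (.leaf false ⟨⟨-19,-496,-68⟩,⟨188,56,-461⟩,⟨464,-43,184⟩⟩ (4195,[(2,8894084),(0,2325),(1,20144)]) (839,[(2,1710149),(0,1868),(1,5096)]) (4195,[(2,30432828),(0,24260),(1,71283)])))) (.node ⟨20,155,-476⟩ (.node ⟨467,176,44⟩ (.leaf false ⟨⟨44,8,-499⟩,⟨176,-469,8⟩,⟨467,176,44⟩⟩ (467,[(2,234969),(0,44),(3,4008)]) (467,[(2,4008),(0,176),(3,249999)]) (1,[(0,1)])) (.leaf false ⟨⟨-244,-436,-37⟩,⟨-91,92,-484⟩,⟨428,-229,-124⟩⟩ (44,[(4,6543),(3,12672),(0,37)]) (22649,[(1,22308),(4,1138650),(0,7807)]) (119,[(1,31),(4,50312),(3,32056)]))) (.node ⟨-139,-448,176⟩ (.leaf false ⟨⟨-139,-448,-176⟩,⟨128,-211,436⟩,⟨464,-76,-173⟩⟩ (1,[(2,352),(0,1)]) (155,[(2,32856),(4,24060),(1,211)]) (112,[(2,22720),(4,54609),(0,19)])) (.leaf false ⟨⟨-19,-496,-68⟩,⟨188,56,-461⟩,⟨464,-43,184⟩⟩ (4195,[(2,9464604),(0,2325),(1,20144)])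 (839,[(2,2483707),(0,1868),(1,5096)]) (4195,[(2,28889068),(0,24260),(1,71283)])))))) (.node ⟨0,1,0⟩ (.node ⟨0,0,1⟩ (.node ⟨155,20,476⟩ (.node ⟨176,467,-44⟩ (.leaf false ⟨⟨-469,176,-8⟩,⟨8,44,499⟩,⟨176,467,-44⟩⟩ (467,[(2,4008),(4,249999),(0,176)]) (467,[(2,234969),(4,4008),(0,44)]) (1,[(0,1)])) (.leaf false ⟨⟨-460,-124,155⟩,⟨-124,485,20⟩,⟨155,20,476⟩⟩ (223172,[(4,102099291),(1,66929),(0,62124)]) (11,[(4,484),(3,7670),(0,5)]) (1,[(1,1)]))) (.node ⟨-448,-139,-176⟩ (.leaf false ⟨⟨-469,-136,-112⟩,⟨-136,77,476⟩,⟨-112,476,-109⟩⟩ (64,[(2,4624),(0,67),(3,609)]) (56,[(2,29648),(0,17),(3,6675)]) (155,[(2,36417),(1,112),(3,76020)])) (.leaf false ⟨⟨-499,44,-8⟩,⟨8,176,469⟩,⟨44,467,-176⟩⟩ (4195,[(2,13113756),(1,29691),(0,5600)]) (4195,[(2,12710527),(1,25912),(0,9040)]) (839,[(2,5458384),(1,13540),(0,4767)]))))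 (.node ⟨155,20,-476⟩ (.node ⟨176,467,44⟩ (.leaf false ⟨⟨-469,176,8⟩,⟨8,44,-499⟩,⟨176,467,44⟩⟩ (467,[(2,4008),(4,249999),(0,176)]) (467,[(2,234969),(4,4008),(0,44)]) (1,[(0,1)])) (.leaf false ⟨⟨-460,-124,-155⟩,⟨-124,485,-20⟩,⟨155,20,-476⟩⟩ (223172,[(4,102099291),(1,66929),(0,62124)]) (11,[(4,484),(3,7670),(0,5)]) (1,[(1,1)]))) (.node ⟨-448,-139,176⟩ (.leaf false ⟨⟨-469,-136,112⟩,⟨-136,77,-476⟩,⟨-112,476,109⟩⟩ (64,[(2,4624),(0,67),(3,609)]) (56,[(2,29648),(0,17),(3,6675)]) (155,[(2,36417),(1,112),(3,76020)])) (.leaf false ⟨⟨-499,44,-8⟩,⟨8,176,469⟩,⟨44,467,-176⟩⟩ (4195,[(2,13180876),(1,29691),(0,5600)]) (4195,[(2,8775617),(1,25912),(0,9040)]) (839,[(2,5753712),(1,13540),(0,4767)]))))) (.node ⟨0,0,1⟩ (.node ⟨140,-475,-76⟩ (.node ⟨-475,-124,-100⟩ (.leaf false ⟨⟨-475,-124,-100⟩,⟨-76,-100,485⟩,⟨140,-475,-76⟩⟩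 (1,[(0,1)]) (19,[(2,9519),(4,2004),(1,4)]) (1,[(1,1)])) (.leaf false ⟨⟨-499,8,44⟩,⟨8,-469,176⟩,⟨44,176,467⟩⟩ (3173,[(4,2440872),(1,388),(0,1691)]) (3173,[(4,5496471),(1,5727),(0,9937)]) (12692,[(4,34327017),(1,13436),(0,69483)]))) (.node ⟨44,176,467⟩ (.leaf false ⟨⟨-499,8,44⟩,⟨8,-469,176⟩,⟨44,176,467⟩⟩ (19,[(1,11),(4,7941),(3,5073)]) (467,[(4,4008),(3,249999),(0,176)]) (1,[(0,1)])) (.leaf false ⟨⟨-484,92,-91⟩,⟨-124,-229,428⟩,⟨-37,-436,-244⟩⟩ (3795,[(2,7535214),(1,7436),(0,18085)]) (35,[(2,12624),(1,31),(3,22740)]) (44,[(2,6543),(0,37),(3,12672)])))) (.node ⟨140,-475,76⟩ (.node ⟨-475,-124,100⟩ (.leaf false ⟨⟨-475,-124,100⟩,⟨-76,-100,-485⟩,⟨140,-475,76⟩⟩ (1,[(0,1)]) (19,[(2,9519),(4,2004),(1,4)]) (1,[(1,1)])) (.leaf false ⟨⟨-499,8,-44⟩,⟨8,-469,-176⟩,⟨44,176,-467⟩⟩ (3173,[(4,2440872),(1,388),(0,1691)])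 (3173,[(4,5496471),(1,5727),(0,9937)]) (12692,[(4,34327017),(1,13436),(0,69483)]))) (.node ⟨44,176,-467⟩ (.leaf false ⟨⟨-499,8,-44⟩,⟨8,-469,-176⟩,⟨44,176,-467⟩⟩ (19,[(1,11),(4,7941),(3,5073)]) (467,[(4,4008),(3,249999),(0,176)]) (1,[(0,1)])) (.leaf false ⟨⟨-484,92,-91⟩,⟨-124,-229,428⟩,⟨-37,-436,-244⟩⟩ (3795,[(2,8225904),(1,7436),(0,18085)]) (3795,[(2,1841196),(1,979),(0,7580)]) (44,[(2,28015),(0,37),(3,12672)]))))))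
theorem pc501_ok : pc501.check (ok 501 6 ⟨5, 5, 3⟩) (fun _ r => r) [] = true := by decide +kernel


end H34S
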