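import Pool.Agent.Lib.H34S.Hex

/-!
# H34S: from coverings to the theorem, pentagonal numbers
-/

set_option autoImplicit false

namespace H34S

/-- choice of the sign modulo `6` -/
theorem sign6 {x : ℤ} (h : x % 2 = 1) (h3 : x % 3 ≠ 0) : ∃ y : ℤ, y ^ 2 = x ^ 2 ∧ y % 6 = 5 := by
  rcases (show x % 6 = 5 ∨ x % 6 = 1 by omega) with h | h
  · exact ⟨x, rfl, h⟩
  · exact ⟨-x, by ring, by omega⟩

/-- the property of `k` -/
def PentOK (k : ℕ) : Prop := ∀ n : ℕ, k ^ 2 ∣ 24 * n + 3 → Good 6 (24 * n + 3)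

/-- the property of `k` for `n ≡ 2 (mod 3)` -/
def PentOK2 (k : ℕ) : Prop := ∀ n : ℕ, n % 3 = 2 → k ^ 2 ∣ 24 * n + 3 → Good 6 (24 * n + 3)

theorem PentOK.of_dvd {k l : ℕ} (h : PentOK k) (hkl : k ∣ l) : PentOK l :=
  fun n hn => h n ((pow_dvd_pow_of_dvd hkl 2).trans hn)

theorem PentOK2.of_dvd {k l : ℕ} (h : PentOK2 k) (hkl : k ∣ l) : PentOK2 l :=
  fun n h2 hn => h n h2 ((pow_dvd_pow_of_dvd hkl 2).trans hn)

theorem PentOK.two {k : ℕ} (h : PentOK k) : PentOK2 k := fun n _ hn => h n hn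

/-- `m ≡ 3 (mod 24)` is a sum of squares of three integers congruent to `5` modulo `6` -/
theorem rep6 {m : ℕ} (h8 : m % 8 = 3) (h3 : m % 3 = 0) :
    ∃ v : V, Cong 6 v ⟨5, 5, 5⟩ ∧ (m : ℤ) = v.a ^ 2 + v.b ^ 2 + v.c ^ 2 := by
  obtain ⟨x, y, z, h, hn⟩ := prim3 m h8
  obtain ⟨hx, hy, hz⟩ := all_odd (by omega) h
  have hh : x % 3 ≠ 0 ∧ y % 3 ≠ 0 ∧ z % 3 ≠ 0 := by
    rcases sq_mod3 x with ax | ax <;> rcases sq_mod3 y with ay | ay <;> rcases sq_mod3 z with az | az <;> omega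
  obtain ⟨x', hx1, hx2⟩ := sign6 hx hh.1
  obtain ⟨y', hy1, hy2⟩ := sign6 hy hh.2.1
  obtain ⟨z', hz1, hz2⟩ := sign6 hz hh.2.2
  exact ⟨⟨x', y', z'⟩, ⟨by simpa using hx2, by simpa using hy2, by simpa using hz2⟩, by
    simp only [hx1, hy1, hz1]; exact h⟩

/-- `m ≡ 3 (mod 8)` is a sum of squares of three integers congruent to `5, 5, 5` or `5, 3, 3` or `5, 5, 3`
modulo `6` -/
theorem repAny {m : ℕ} (h8 : m % 8 = 3) :
    ∃ v : V, (Cong 6 v ⟨5, 5, 5⟩ ∨ Cong 6 v ⟨5, 3, 3⟩ ∨ Cong 6 v ⟨5, 5, 3⟩) ∧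
      (m : ℤ) = v.a ^ 2 + v.b ^ 2 + v.c ^ 2 := by
  obtain ⟨x, y, z, h, hn⟩ := prim3 m h8
  obtain ⟨hx, hy, hz⟩ := all_odd (by omega) h
  have key : ∀ x : ℤ, x % 2 = 1 → x % 3 = 0 → x % (6 : ℕ) = (3 : ℤ) % (6 : ℕ) := by
    intro x h1 h2; push_cast; omega
  by_cases ax : x % 3 = 0 <;> by_cases ay : y % 3 = 0 <;> by_cases az : z % 3 = 0
  · exact absurd ⟨ax, ay, az⟩ hn
  · obtain ⟨z', hz1, hz2⟩ := sign6 hz az
    exact ⟨⟨z', x, y⟩, Or.inr (Or.inl ⟨by simpa using hz2, key x hx ax, key y hy ay⟩), by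
      simp only [hz1]; rw [h]; ring⟩
  · obtain ⟨y', hy1, hy2⟩ := sign6 hy ay
    exact ⟨⟨y', x, z⟩, Or.inr (Or.inl ⟨by simpa using hy2, key x hx ax, key z hz az⟩), by
      simp only [hy1]; rw [h]; ring⟩
  · obtain ⟨y', hy1, hy2⟩ := sign6 hy ay
    obtain ⟨z', hz1, hz2⟩ := sign6 hz az
    exact ⟨⟨y', z', x⟩, Or.inr (Or.inr ⟨by simpa using hy2, by simpa using hz2, key x hx ax⟩), by
      simp only [hy1, hz1]; rw [h]; ring⟩
  · obtain ⟨x', hx1, hx2⟩ := sign6 hx ax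
    exact ⟨⟨x', y, z⟩, Or.inr (Or.inl ⟨by simpa using hx2, key y hy ay, key z hz az⟩), by
      simp only [hx1]; rw [h]⟩
  · obtain ⟨x', hx1, hx2⟩ := sign6 hx ax
    obtain ⟨z', hz1, hz2⟩ := sign6 hz az
    exact ⟨⟨x', z', y⟩, Or.inr (Or.inr ⟨by simpa using hx2, by simpa using hz2, key y hy ay⟩), by
      simp only [hx1, hz1]; rw [h]; ring⟩
  · obtain ⟨x', hx1, hx2⟩ := sign6 hx ax
    obtain ⟨y', hy1, hy2⟩ := sign6 hy ay
    exact ⟨⟨x', y', z⟩, Or.inr (Or.inr ⟨by simpa using hx2, by simpa using hy2, key z hz az⟩), by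
      simp only [hx1, hy1]; rw [h]⟩
  · obtain ⟨x', hx1, hx2⟩ := sign6 hx ax
    obtain ⟨y', hy1, hy2⟩ := sign6 hy ay
    obtain ⟨z', hz1, hz2⟩ := sign6 hz az
    exact ⟨⟨x', y', z'⟩, Or.inl ⟨by simpa using hx2, by simpa using hy2, by simpa using hz2⟩, by
      simp only [hx1, hy1, hz1]; rw [h]⟩

/-- the covering gives the theorem, for one class of `v` -/
theorem pent_core {k m : ℕ} {t : T} {w v : V} (h : t.check (ok k 6 w) (fun _ r => r) [] = true)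
    (hv : Cong 6 v w) (hm : (m : ℤ) = v.a ^ 2 + v.b ^ 2 + v.c ^ 2) : Good 6 ((k : ℤ) ^ 2 * m) := by
  obtain ⟨-, f, hf, h1, h2, h3⟩ := T.sound (v := v) t [] h (by simp)
  rw [hm]
  exact good_of hf hv h1 h2 h3

/-- the factor `m` is divisible by `3` if `k` is not -/
theorem quot_mod3 {k m n : ℕ} (hk : k % 3 ≠ 0) (h : 24 * n + 3 = k ^ 2 * m) : m % 3 = 0 := by
  have h1 : 3 ∣ k ^ 2 * m := ⟨8 * n + 1, by rw [← h]; ring⟩
  rcases (Nat.Prime.dvd_mul Nat.prime_three).mp h1 with h2 | h2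
  · have := Nat.Prime.dvd_of_dvd_pow Nat.prime_three h2
    omega
  · omega

theorem quot8 {k m n : ℕ} (h : 24 * n + 3 = k ^ 2 * m) : m % 8 = 3 :=
  quot_mod8 (n := 3 * n) (by rw [← h]; ring)

theorem pent_of_check {k : ℕ} {t : T} (hk : k % 3 ≠ 0)
    (h : t.check (ok k 6 ⟨5, 5, 5⟩) (fun _ r => r) [] = true) : PentOK k := by
  rintro n ⟨m, hm⟩
  obtain ⟨v, hv, e⟩ := rep6 (quot8 hm) (quot_mod3 hk hm)
  have := pent_core h hv e
  rw [show (24 * (n : ℤ) + 3) = (k : ℤ) ^ 2 * m by exact_mod_cast hm]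
  exact this

theorem pent_of_three {k : ℕ} {t1 t2 t3 : T}
    (h1 : t1.check (ok k 6 ⟨5, 5, 5⟩) (fun _ r => r) [] = true)
    (h2 : t2.check (ok k 6 ⟨5, 3, 3⟩) (fun _ r => r) [] = true)
    (h3 : t3.check (ok k 6 ⟨5, 5, 3⟩) (fun _ r => r) [] = true) : PentOK k := by
  rintro n ⟨m, hm⟩
  obtain ⟨v, hv, e⟩ := repAny (quot8 hm)
  rw [show (24 * (n : ℤ) + 3) = (k : ℤ) ^ 2 * m by exact_mod_cast hm]
  rcases hv with hv | hv | hv
  · exact pent_core h1 hv e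
  · exact pent_core h2 hv e
  · exact pent_core h3 hv e

/-- three times the reflection at the plane orthogonal to `(1, 1, 1)` -/
def refl (r : V) : V :=
  ⟨3 * r.a - 2 * (r.a + r.b + r.c), 3 * r.b - 2 * (r.a + r.b + r.c), 3 * r.c - 2 * (r.a + r.b + r.c)⟩

/-- kinds of matrices for `m ≡ 6 (mod 9)` -/
def tr6 (j : Bool) (r : V) : V := if j then refl r else r

/-- kinds of matrices for `m ≡ 3 (mod 9)` -/
def tr3 (j : Bool) (r : V) : V := if j then neg (refl r) else r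

theorem dot_refl (r v : V) (t : ℤ) (ht : v.a + v.b + v.c = 3 * t) :
    dot (refl r) v = 3 * dot r ⟨v.a - 2 * t, v.b - 2 * t, v.c - 2 * t⟩ := by
  simp only [dot, refl]
  linear_combination (-2 * (r.a + r.b + r.c)) * ht

theorem norm_refl (v : V) (t : ℤ) (ht : v.a + v.b + v.c = 3 * t) :
    (v.a - 2 * t) ^ 2 + (v.b - 2 * t) ^ 2 + (v.c - 2 * t) ^ 2 = v.a ^ 2 + v.b ^ 2 + v.c ^ 2 := by
  linear_combination (-4 * t) * ht

/-- the sum of the coordinates and the norm modulo `9` -/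
theorem sum_mod {v : V} (hv : Cong 6 v ⟨5, 5, 5⟩) : ∃ t : ℤ, v.a + v.b + v.c = 3 * t ∧
    (v.a ^ 2 + v.b ^ 2 + v.c ^ 2) % 9 = (3 * t + 6) % 9 := by
  obtain ⟨h1, h2, h3⟩ := hv
  obtain ⟨x, hx⟩ : ∃ x, v.a = 3 * x - 1 := ⟨(v.a + 1) / 3, by push_cast at h1; omega⟩
  obtain ⟨y, hy⟩ : ∃ y, v.b = 3 * y - 1 := ⟨(v.b + 1) / 3, by push_cast at h2; omega⟩
  obtain ⟨z, hz⟩ : ∃ z, v.c = 3 * z - 1 := ⟨(v.c + 1) / 3, by push_cast at h3; omega⟩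
  refine ⟨x + y + z - 1, by rw [hx, hy, hz]; ring, ?_⟩
  rw [hx, hy, hz, show (3 * x - 1) ^ 2 + (3 * y - 1) ^ 2 + (3 * z - 1) ^ 2 =
    9 * (x ^ 2 + y ^ 2 + z ^ 2) - 6 * (x + y + z) + 3 by ring]
  omega

theorem pent6_core {k m : ℕ} {t : T} {v : V} (h : t.check (ok k 6 ⟨5, 5, 5⟩) tr6 [] = true)
    (hv : Cong 6 v ⟨5, 5, 5⟩) (hm : (m : ℤ) = v.a ^ 2 + v.b ^ 2 + v.c ^ 2) (h9 : m % 9 = 6) :
    Good 6 ((k : ℤ) ^ 2 * m) := by
  obtain ⟨j, f, hf, h1, h2, h3⟩ := T.sound (v := v) t [] h (by simp)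
  cases j
  · simp only [tr6, Bool.false_eq_true, if_false] at h1 h2 h3
    rw [hm]
    exact good_of hf hv h1 h2 h3
  · simp only [tr6, if_true] at h1 h2 h3
    obtain ⟨s, hs, hs2⟩ := sum_mod hv
    rw [dot_refl _ v s hs] at h1 h2 h3
    rw [hm, ← norm_refl v s hs]
    have hs3 : s % 3 = 0 := by omega
    obtain ⟨g1, g2, g3⟩ := hv
    refine good_of (v := ⟨v.a - 2 * s, v.b - 2 * s, v.c - 2 * s⟩) hf ⟨?_, ?_, ?_⟩ (by omega) (by omega) (by omega)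
    · simp only; push_cast at g1 ⊢; omega
    · simp only; push_cast at g2 ⊢; omega
    · simp only; push_cast at g3 ⊢; omega

theorem pent3_core {k m : ℕ} {t : T} {v : V} (h : t.check (ok k 6 ⟨5, 5, 5⟩) tr3 [] = true)
    (hv : Cong 6 v ⟨5, 5, 5⟩) (hm : (m : ℤ) = v.a ^ 2 + v.b ^ 2 + v.c ^ 2) (h9 : m % 9 = 3) :
    Good 6 ((k : ℤ) ^ 2 * m) := by
  obtain ⟨j, f, hf, h1, h2, h3⟩ := T.sound (v := v) t [] h (by simp)
  cases j
  · simp only [tr3, Bool.false_eq_true, if_false] at h1 h2 h3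
    rw [hm]
    exact good_of hf hv h1 h2 h3
  · simp only [tr3, if_true, dot_neg] at h1 h2 h3
    obtain ⟨s, hs, hs2⟩ := sum_mod hv
    rw [dot_refl _ v s hs] at h1 h2 h3
    have e : ∀ r : V, dot r ⟨2 * s - v.a, 2 * s - v.b, 2 * s - v.c⟩ =
        - dot r ⟨v.a - 2 * s, v.b - 2 * s, v.c - 2 * s⟩ := by
      intro r; simp only [dot]; ring
    rw [hm, ← norm_refl v s hs, show (v.a - 2 * s) ^ 2 + (v.b - 2 * s) ^ 2 + (v.c - 2 * s) ^ 2 =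
      (2 * s - v.a) ^ 2 + (2 * s - v.b) ^ 2 + (2 * s - v.c) ^ 2 by ring]
    have hs3 : s % 3 = 2 := by omega
    obtain ⟨g1, g2, g3⟩ := hv
    refine good_of (v := ⟨2 * s - v.a, 2 * s - v.b, 2 * s - v.c⟩) hf ⟨?_, ?_, ?_⟩
      (by rw [e]; omega) (by rw [e]; omega) (by rw [e]; omega)
    · simp only; push_cast at g1 ⊢; omega
    · simp only; push_cast at g2 ⊢; omega
    · simp only; push_cast at g3 ⊢; omega

/-- the square of an integer not divisible by `3` modulo `3` -/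
theorem sq_one {k : ℕ} (hk : k % 3 ≠ 0) : ∃ q : ℕ, k ^ 2 = 3 * q + 1 := by
  have h := sq_mod3 (k : ℤ)
  have h1 : (k : ℤ) ^ 2 % 3 = 1 := by
    rcases h with h | h
    · omega
    · exact h.2
  have h2 : k ^ 2 % 3 = 1 := by exact_mod_cast h1
  exact ⟨k ^ 2 / 3, by omega⟩

/-- the residue of `m` modulo `9` -/
theorem quot9 {k m n : ℕ} (hk : k % 3 ≠ 0) (h : 24 * n + 3 = k ^ 2 * m) : m % 9 = (24 * n + 3) % 9 := by
  obtain ⟨q, hq⟩ := sq_one hk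
  have h3 := quot_mod3 hk h
  obtain ⟨l, hl⟩ : ∃ l, m = 3 * l := ⟨m / 3, by omega⟩
  rw [hq, hl, show (3 * q + 1) * (3 * l) = 9 * (q * l) + 3 * l by ring] at h
  omega

theorem pent_two_of_check {k : ℕ} {t : T} (hk : k % 3 ≠ 0)
    (h : t.check (ok k 6 ⟨5, 5, 5⟩) tr6 [] = true) : PentOK2 k := by
  rintro n h2 ⟨m, hm⟩
  obtain ⟨v, hv, e⟩ := rep6 (quot8 hm) (quot_mod3 hk hm)
  have := pent6_core h hv e (by rw [quot9 hk hm]; omega)
  rw [show (24 * (n : ℤ) + 3) = (k : ℤ) ^ 2 * m by exact_mod_cast hm]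
  exact this

/-- the case of all `n`, by five coverings -/
theorem pent_of_five {k : ℕ} {t3 t6 s1 s2 s3 : T} (hk : k % 3 ≠ 0)
    (h6 : t6.check (ok k 6 ⟨5, 5, 5⟩) tr6 [] = true)
    (h3 : t3.check (ok k 6 ⟨5, 5, 5⟩) tr3 [] = true)
    (g1 : s1.check (ok (3 * k) 6 ⟨5, 5, 5⟩) (fun _ r => r) [] = true)
    (g2 : s2.check (ok (3 * k) 6 ⟨5, 3, 3⟩) (fun _ r => r) [] = true)
    (g3 : s3.check (ok (3 * k) 6 ⟨5, 5, 3⟩) (fun _ r => r) [] = true) : PentOK k := by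
  intro n hn
  obtain ⟨m, hm⟩ := hn
  have e9 := quot9 hk hm
  have hm' : (24 * (n : ℤ) + 3) = (k : ℤ) ^ 2 * m := by exact_mod_cast hm
  rcases (show m % 9 = 6 ∨ m % 9 = 3 ∨ m % 9 = 0 by omega) with h | h | h
  · obtain ⟨v, hv, e⟩ := rep6 (quot8 hm) (quot_mod3 hk hm)
    rw [hm']
    exact pent6_core h6 hv e h
  · obtain ⟨v, hv, e⟩ := rep6 (quot8 hm) (quot_mod3 hk hm)
    rw [hm']
    exact pent3_core h3 hv e h
  · refine pent_of_three g1 g2 g3 n ?_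
    obtain ⟨l, hl⟩ : ∃ l, m = 9 * l := ⟨m / 9, by omega⟩
    exact ⟨l, by rw [hm, hl]; ring⟩

/-- from squares to pentagonal numbers -/
theorem pent_of_good {n : ℕ} (h : Good 6 (24 * n + 3)) : ∃ a b c : ℕ, 1 ≤ a ∧ 1 ≤ b ∧ 1 ≤ c ∧
    2 * n = a * (3 * a - 1) + b * (3 * b - 1) + c * (3 * c - 1) := by
  obtain ⟨x, y, z, h⟩ := h
  refine ⟨x + 1, y + 1, z + 1, by omega, by omega, by omega, ?_⟩
  rw [show 3 * (x + 1) - 1 = 3 * x + 2 by omega, show 3 * (y + 1) - 1 = 3 * y + 2 by omega,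
    show 3 * (z + 1) - 1 = 3 * z + 2 by omega]
  have h1 : (24 : ℤ) * n = 12 * ((x + 1) * (3 * x + 2) + (y + 1) * (3 * y + 2) + (z + 1) * (3 * z + 2)) := by
    push_cast at h
    linear_combination h
  have h2 : (2 : ℤ) * n = (x + 1) * (3 * x + 2) + (y + 1) * (3 * y + 2) + (z + 1) * (3 * z + 2) := by linarith
  exact_mod_cast h2

end H34S
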