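import Pool.Agent.Lib.H34S.Pent
import Pool.Agent.Lib.H34S.PD1
import Pool.Agent.Lib.H34S.PD2
import Pool.Agent.Lib.H34S.PD3
import Pool.Agent.Lib.H34S.PD4
import Pool.Agent.Lib.H34S.PD5
import Pool.Agent.Lib.H34S.PD6
import Pool.Agent.Lib.H34S.PD7
import Pool.Agent.Lib.H34S.PD8
import Pool.Agent.Lib.H34S.PD9
import Pool.Agent.Lib.H34S.PD10
import Pool.Agent.Lib.H34S.PD11
import Pool.Agent.Lib.H34S.PD12
import Pool.Agent.Lib.H34S.PD13
import Pool.Agent.Lib.H34S.PD14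

/-!
# H34S: all certified moduli, pentagonal numbers
-/

set_option autoImplicit false

namespace H34S

/-- moduli -/
def pentL1 : List ℕ := [
  11, 23, 25, 41, 43, 45, 49, 59, 61, 63, 65, 71, 73, 79, 83, 85, 87, 89, 91, 93]

theorem pentL1_ok : ∀ g ∈ pentL1, PentOK g :=
  List.forall_mem_cons.2 ⟨pent_of_five (by norm_num) ps11_ok pu11_ok pa33_ok pb33_ok pc33_ok,
  List.forall_mem_cons.2 ⟨pent_of_five (by norm_num) ps23_ok pu23_ok pa69_ok pb69_ok pc69_ok,
  List.forall_mem_cons.2 ⟨pent_of_check (by norm_num) pf25_ok,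
  List.forall_mem_cons.2 ⟨pent_of_check (by norm_num) pf41_ok,
  List.forall_mem_cons.2 ⟨pent_of_check (by norm_num) pf43_ok,
  List.forall_mem_cons.2 ⟨pent_of_three pa45_ok pb45_ok pc45_ok,
  List.forall_mem_cons.2 ⟨pent_of_check (by norm_num) pf49_ok,
  List.forall_mem_cons.2 ⟨pent_of_check (by norm_num) pf59_ok,
  List.forall_mem_cons.2 ⟨pent_of_check (by norm_num) pf61_ok,
  List.forall_mem_cons.2 ⟨pent_of_three pa63_ok pb63_ok pc63_ok,
  List.forall_mem_cons.2 ⟨pent_of_check (by norm_num) pf65_ok,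
  List.forall_mem_cons.2 ⟨pent_of_check (by norm_num) pf71_ok,
  List.forall_mem_cons.2 ⟨pent_of_check (by norm_num) pf73_ok,
  List.forall_mem_cons.2 ⟨pent_of_check (by norm_num) pf79_ok,
  List.forall_mem_cons.2 ⟨pent_of_check (by norm_num) pf83_ok,
  List.forall_mem_cons.2 ⟨pent_of_check (by norm_num) pf85_ok,
  List.forall_mem_cons.2 ⟨pent_of_three pa87_ok pb87_ok pc87_ok,
  List.forall_mem_cons.2 ⟨pent_of_check (by norm_num) pf89_ok,
  List.forall_mem_cons.2 ⟨pent_of_check (by norm_num) pf91_ok,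
  List.forall_mem_cons.2 ⟨pent_of_three pa93_ok pb93_ok pc93_ok,
  fun _ h => absurd h List.not_mem_nil⟩⟩⟩⟩⟩⟩⟩⟩⟩⟩⟩⟩⟩⟩⟩⟩⟩⟩⟩⟩

/-- moduli -/
def pentL2 : List ℕ := [
  95, 97, 101, 103, 105, 107, 109, 113, 119, 127, 131, 133, 137, 139, 141, 145, 149, 151, 153, 155]

theorem pentL2_ok : ∀ g ∈ pentL2, PentOK g :=
  List.forall_mem_cons.2 ⟨pent_of_check (by norm_num) pf95_ok,
  List.forall_mem_cons.2 ⟨pent_of_check (by norm_num) pf97_ok,
  List.forall_mem_cons.2 ⟨pent_of_check (by norm_num) pf101_ok,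
  List.forall_mem_cons.2 ⟨pent_of_check (by norm_num) pf103_ok,
  List.forall_mem_cons.2 ⟨pent_of_three pa105_ok pb105_ok pc105_ok,
  List.forall_mem_cons.2 ⟨pent_of_check (by norm_num) pf107_ok,
  List.forall_mem_cons.2 ⟨pent_of_check (by norm_num) pf109_ok,
  List.forall_mem_cons.2 ⟨pent_of_check (by norm_num) pf113_ok,
  List.forall_mem_cons.2 ⟨pent_of_check (by norm_num) pf119_ok,
  List.forall_mem_cons.2 ⟨pent_of_check (by norm_num) pf127_ok,
  List.forall_mem_cons.2 ⟨pent_of_check (by norm_num) pf131_ok,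
  List.forall_mem_cons.2 ⟨pent_of_check (by norm_num) pf133_ok,
  List.forall_mem_cons.2 ⟨pent_of_check (by norm_num) pf137_ok,
  List.forall_mem_cons.2 ⟨pent_of_check (by norm_num) pf139_ok,
  List.forall_mem_cons.2 ⟨pent_of_three pa141_ok pb141_ok pc141_ok,
  List.forall_mem_cons.2 ⟨pent_of_check (by norm_num) pf145_ok,
  List.forall_mem_cons.2 ⟨pent_of_check (by norm_num) pf149_ok,
  List.forall_mem_cons.2 ⟨pent_of_check (by norm_num) pf151_ok,
  List.forall_mem_cons.2 ⟨pent_of_three pa153_ok pb153_ok pc153_ok,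
  List.forall_mem_cons.2 ⟨pent_of_check (by norm_num) pf155_ok,
  fun _ h => absurd h List.not_mem_nil⟩⟩⟩⟩⟩⟩⟩⟩⟩⟩⟩⟩⟩⟩⟩⟩⟩⟩⟩⟩

/-- moduli -/
def pentL3 : List ℕ := [
  157, 159, 163, 169, 171, 173, 179, 181, 185, 191, 193, 197, 199, 201, 203, 211, 217, 221, 223, 227]

theorem pentL3_ok : ∀ g ∈ pentL3, PentOK g :=
  List.forall_mem_cons.2 ⟨pent_of_check (by norm_num) pf157_ok,
  List.forall_mem_cons.2 ⟨pent_of_three pa159_ok pb159_ok pc159_ok,
  List.forall_mem_cons.2 ⟨pent_of_check (by norm_num) pf163_ok,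
  List.forall_mem_cons.2 ⟨pent_of_check (by norm_num) pf169_ok,
  List.forall_mem_cons.2 ⟨pent_of_three pa171_ok pb171_ok pc171_ok,
  List.forall_mem_cons.2 ⟨pent_of_check (by norm_num) pf173_ok,
  List.forall_mem_cons.2 ⟨pent_of_check (by norm_num) pf179_ok,
  List.forall_mem_cons.2 ⟨pent_of_check (by norm_num) pf181_ok,
  List.forall_mem_cons.2 ⟨pent_of_check (by norm_num) pf185_ok,
  List.forall_mem_cons.2 ⟨pent_of_check (by norm_num) pf191_ok,
  List.forall_mem_cons.2 ⟨pent_of_check (by norm_num) pf193_ok,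
  List.forall_mem_cons.2 ⟨pent_of_check (by norm_num) pf197_ok,
  List.forall_mem_cons.2 ⟨pent_of_check (by norm_num) pf199_ok,
  List.forall_mem_cons.2 ⟨pent_of_three pa201_ok pb201_ok pc201_ok,
  List.forall_mem_cons.2 ⟨pent_of_check (by norm_num) pf203_ok,
  List.forall_mem_cons.2 ⟨pent_of_check (by norm_num) pf211_ok,
  List.forall_mem_cons.2 ⟨pent_of_check (by norm_num) pf217_ok,
  List.forall_mem_cons.2 ⟨pent_of_check (by norm_num) pf221_ok,
  List.forall_mem_cons.2 ⟨pent_of_check (by norm_num) pf223_ok,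
  List.forall_mem_cons.2 ⟨pent_of_check (by norm_num) pf227_ok,
  fun _ h => absurd h List.not_mem_nil⟩⟩⟩⟩⟩⟩⟩⟩⟩⟩⟩⟩⟩⟩⟩⟩⟩⟩⟩⟩

/-- moduli -/
def pentL4 : List ℕ := [
  229, 233, 235, 239, 241, 243, 247, 251, 257, 259, 263, 265, 269, 271, 277, 281, 283, 289, 293, 307]

theorem pentL4_ok : ∀ g ∈ pentL4, PentOK g :=
  List.forall_mem_cons.2 ⟨pent_of_check (by norm_num) pf229_ok,
  List.forall_mem_cons.2 ⟨pent_of_check (by norm_num) pf233_ok,
  List.forall_mem_cons.2 ⟨pent_of_check (by norm_num) pf235_ok,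
  List.forall_mem_cons.2 ⟨pent_of_check (by norm_num) pf239_ok,
  List.forall_mem_cons.2 ⟨pent_of_check (by norm_num) pf241_ok,
  List.forall_mem_cons.2 ⟨pent_of_three pa243_ok pb243_ok pc243_ok,
  List.forall_mem_cons.2 ⟨pent_of_check (by norm_num) pf247_ok,
  List.forall_mem_cons.2 ⟨pent_of_check (by norm_num) pf251_ok,
  List.forall_mem_cons.2 ⟨pent_of_check (by norm_num) pf257_ok,
  List.forall_mem_cons.2 ⟨pent_of_check (by norm_num) pf259_ok,
  List.forall_mem_cons.2 ⟨pent_of_check (by norm_num) pf263_ok,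
  List.forall_mem_cons.2 ⟨pent_of_check (by norm_num) pf265_ok,
  List.forall_mem_cons.2 ⟨pent_of_check (by norm_num) pf269_ok,
  List.forall_mem_cons.2 ⟨pent_of_check (by norm_num) pf271_ok,
  List.forall_mem_cons.2 ⟨pent_of_check (by norm_num) pf277_ok,
  List.forall_mem_cons.2 ⟨pent_of_check (by norm_num) pf281_ok,
  List.forall_mem_cons.2 ⟨pent_of_check (by norm_num) pf283_ok,
  List.forall_mem_cons.2 ⟨pent_of_check (by norm_num) pf289_ok,
  List.forall_mem_cons.2 ⟨pent_of_check (by norm_num) pf293_ok,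
  List.forall_mem_cons.2 ⟨pent_of_check (by norm_num) pf307_ok,
  fun _ h => absurd h List.not_mem_nil⟩⟩⟩⟩⟩⟩⟩⟩⟩⟩⟩⟩⟩⟩⟩⟩⟩⟩⟩⟩

/-- moduli -/
def pentL5 : List ℕ := [
  311, 313, 317, 323, 329, 331, 333, 335, 337, 347, 349, 351, 353, 359, 361, 367, 371, 373, 377, 379]

theorem pentL5_ok : ∀ g ∈ pentL5, PentOK g :=
  List.forall_mem_cons.2 ⟨pent_of_check (by norm_num) pf311_ok,
  List.forall_mem_cons.2 ⟨pent_of_check (by norm_num) pf313_ok,
  List.forall_mem_cons.2 ⟨pent_of_check (by norm_num) pf317_ok,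
  List.forall_mem_cons.2 ⟨pent_of_check (by norm_num) pf323_ok,
  List.forall_mem_cons.2 ⟨pent_of_check (by norm_num) pf329_ok,
  List.forall_mem_cons.2 ⟨pent_of_check (by norm_num) pf331_ok,
  List.forall_mem_cons.2 ⟨pent_of_three pa333_ok pb333_ok pc333_ok,
  List.forall_mem_cons.2 ⟨pent_of_check (by norm_num) pf335_ok,
  List.forall_mem_cons.2 ⟨pent_of_check (by norm_num) pf337_ok,
  List.forall_mem_cons.2 ⟨pent_of_check (by norm_num) pf347_ok,
  List.forall_mem_cons.2 ⟨pent_of_check (by norm_num) pf349_ok,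
  List.forall_mem_cons.2 ⟨pent_of_three pa351_ok pb351_ok pc351_ok,
  List.forall_mem_cons.2 ⟨pent_of_check (by norm_num) pf353_ok,
  List.forall_mem_cons.2 ⟨pent_of_check (by norm_num) pf359_ok,
  List.forall_mem_cons.2 ⟨pent_of_check (by norm_num) pf361_ok,
  List.forall_mem_cons.2 ⟨pent_of_check (by norm_num) pf367_ok,
  List.forall_mem_cons.2 ⟨pent_of_check (by norm_num) pf371_ok,
  List.forall_mem_cons.2 ⟨pent_of_check (by norm_num) pf373_ok,
  List.forall_mem_cons.2 ⟨pent_of_check (by norm_num) pf377_ok,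
  List.forall_mem_cons.2 ⟨pent_of_check (by norm_num) pf379_ok,
  fun _ h => absurd h List.not_mem_nil⟩⟩⟩⟩⟩⟩⟩⟩⟩⟩⟩⟩⟩⟩⟩⟩⟩⟩⟩⟩

/-- moduli -/
def pentL6 : List ℕ := [
  383, 389, 397, 401, 403, 409, 419, 421, 431, 433, 439, 443, 449, 457, 461, 463, 467, 469, 479, 481]

theorem pentL6_ok : ∀ g ∈ pentL6, PentOK g :=
  List.forall_mem_cons.2 ⟨pent_of_check (by norm_num) pf383_ok,
  List.forall_mem_cons.2 ⟨pent_of_check (by norm_num) pf389_ok,
  List.forall_mem_cons.2 ⟨pent_of_check (by norm_num) pf397_ok,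
  List.forall_mem_cons.2 ⟨pent_of_check (by norm_num) pf401_ok,
  List.forall_mem_cons.2 ⟨pent_of_check (by norm_num) pf403_ok,
  List.forall_mem_cons.2 ⟨pent_of_check (by norm_num) pf409_ok,
  List.forall_mem_cons.2 ⟨pent_of_check (by norm_num) pf419_ok,
  List.forall_mem_cons.2 ⟨pent_of_check (by norm_num) pf421_ok,
  List.forall_mem_cons.2 ⟨pent_of_check (by norm_num) pf431_ok,
  List.forall_mem_cons.2 ⟨pent_of_check (by norm_num) pf433_ok,
  List.forall_mem_cons.2 ⟨pent_of_check (by norm_num) pf439_ok,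
  List.forall_mem_cons.2 ⟨pent_of_check (by norm_num) pf443_ok,
  List.forall_mem_cons.2 ⟨pent_of_check (by norm_num) pf449_ok,
  List.forall_mem_cons.2 ⟨pent_of_check (by norm_num) pf457_ok,
  List.forall_mem_cons.2 ⟨pent_of_check (by norm_num) pf461_ok,
  List.forall_mem_cons.2 ⟨pent_of_check (by norm_num) pf463_ok,
  List.forall_mem_cons.2 ⟨pent_of_check (by norm_num) pf467_ok,
  List.forall_mem_cons.2 ⟨pent_of_check (by norm_num) pf469_ok,
  List.forall_mem_cons.2 ⟨pent_of_check (by norm_num) pf479_ok,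
  List.forall_mem_cons.2 ⟨pent_of_check (by norm_num) pf481_ok,
  fun _ h => absurd h List.not_mem_nil⟩⟩⟩⟩⟩⟩⟩⟩⟩⟩⟩⟩⟩⟩⟩⟩⟩⟩⟩⟩

/-- moduli -/
def pentL7 : List ℕ := [
  487, 491, 493, 499, 501, 503, 509, 521, 523, 527, 541, 547, 551, 557, 563, 569, 571, 577, 587, 589]

theorem pentL7_ok : ∀ g ∈ pentL7, PentOK g :=
  List.forall_mem_cons.2 ⟨pent_of_check (by norm_num) pf487_ok,
  List.forall_mem_cons.2 ⟨pent_of_check (by norm_num) pf491_ok,
  List.forall_mem_cons.2 ⟨pent_of_check (by norm_num) pf493_ok,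
  List.forall_mem_cons.2 ⟨pent_of_check (by norm_num) pf499_ok,
  List.forall_mem_cons.2 ⟨pent_of_three pa501_ok pb501_ok pc501_ok,
  List.forall_mem_cons.2 ⟨pent_of_check (by norm_num) pf503_ok,
  List.forall_mem_cons.2 ⟨pent_of_check (by norm_num) pf509_ok,
  List.forall_mem_cons.2 ⟨pent_of_check (by norm_num) pf521_ok,
  List.forall_mem_cons.2 ⟨pent_of_check (by norm_num) pf523_ok,
  List.forall_mem_cons.2 ⟨pent_of_check (by norm_num) pf527_ok,
  List.forall_mem_cons.2 ⟨pent_of_check (by norm_num) pf541_ok,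
  List.forall_mem_cons.2 ⟨pent_of_check (by norm_num) pf547_ok,
  List.forall_mem_cons.2 ⟨pent_of_check (by norm_num) pf551_ok,
  List.forall_mem_cons.2 ⟨pent_of_check (by norm_num) pf557_ok,
  List.forall_mem_cons.2 ⟨pent_of_check (by norm_num) pf563_ok,
  List.forall_mem_cons.2 ⟨pent_of_check (by norm_num) pf569_ok,
  List.forall_mem_cons.2 ⟨pent_of_check (by norm_num) pf571_ok,
  List.forall_mem_cons.2 ⟨pent_of_check (by norm_num) pf577_ok,
  List.forall_mem_cons.2 ⟨pent_of_check (by norm_num) pf587_ok,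
  List.forall_mem_cons.2 ⟨pent_of_check (by norm_num) pf589_ok,
  fun _ h => absurd h List.not_mem_nil⟩⟩⟩⟩⟩⟩⟩⟩⟩⟩⟩⟩⟩⟩⟩⟩⟩⟩⟩⟩

/-- moduli -/
def pentL8 : List ℕ := [
  593, 599, 601, 607, 611, 613, 617, 619, 629, 631, 641, 643, 647, 653, 659, 661, 673, 677, 683, 689]

theorem pentL8_ok : ∀ g ∈ pentL8, PentOK g :=
  List.forall_mem_cons.2 ⟨pent_of_check (by norm_num) pf593_ok,
  List.forall_mem_cons.2 ⟨pent_of_check (by norm_num) pf599_ok,
  List.forall_mem_cons.2 ⟨pent_of_check (by norm_num) pf601_ok,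
  List.forall_mem_cons.2 ⟨pent_of_check (by norm_num) pf607_ok,
  List.forall_mem_cons.2 ⟨pent_of_check (by norm_num) pf611_ok,
  List.forall_mem_cons.2 ⟨pent_of_check (by norm_num) pf613_ok,
  List.forall_mem_cons.2 ⟨pent_of_check (by norm_num) pf617_ok,
  List.forall_mem_cons.2 ⟨pent_of_check (by norm_num) pf619_ok,
  List.forall_mem_cons.2 ⟨pent_of_check (by norm_num) pf629_ok,
  List.forall_mem_cons.2 ⟨pent_of_check (by norm_num) pf631_ok,
  List.forall_mem_cons.2 ⟨pent_of_check (by norm_num) pf641_ok,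
  List.forall_mem_cons.2 ⟨pent_of_check (by norm_num) pf643_ok,
  List.forall_mem_cons.2 ⟨pent_of_check (by norm_num) pf647_ok,
  List.forall_mem_cons.2 ⟨pent_of_check (by norm_num) pf653_ok,
  List.forall_mem_cons.2 ⟨pent_of_check (by norm_num) pf659_ok,
  List.forall_mem_cons.2 ⟨pent_of_check (by norm_num) pf661_ok,
  List.forall_mem_cons.2 ⟨pent_of_check (by norm_num) pf673_ok,
  List.forall_mem_cons.2 ⟨pent_of_check (by norm_num) pf677_ok,
  List.forall_mem_cons.2 ⟨pent_of_check (by norm_num) pf683_ok,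
  List.forall_mem_cons.2 ⟨pent_of_check (by norm_num) pf689_ok,
  fun _ h => absurd h List.not_mem_nil⟩⟩⟩⟩⟩⟩⟩⟩⟩⟩⟩⟩⟩⟩⟩⟩⟩⟩⟩⟩

/-- moduli -/
def pentL9 : List ℕ := [
  691, 701, 703, 709, 719, 727, 733, 739, 743, 751, 757, 761, 769, 773, 787, 797, 799, 809, 811, 821]

theorem pentL9_ok : ∀ g ∈ pentL9, PentOK g :=
  List.forall_mem_cons.2 ⟨pent_of_check (by norm_num) pf691_ok,
  List.forall_mem_cons.2 ⟨pent_of_check (by norm_num) pf701_ok,
  List.forall_mem_cons.2 ⟨pent_of_check (by norm_num) pf703_ok,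
  List.forall_mem_cons.2 ⟨pent_of_check (by norm_num) pf709_ok,
  List.forall_mem_cons.2 ⟨pent_of_check (by norm_num) pf719_ok,
  List.forall_mem_cons.2 ⟨pent_of_check (by norm_num) pf727_ok,
  List.forall_mem_cons.2 ⟨pent_of_check (by norm_num) pf733_ok,
  List.forall_mem_cons.2 ⟨pent_of_check (by norm_num) pf739_ok,
  List.forall_mem_cons.2 ⟨pent_of_check (by norm_num) pf743_ok,
  List.forall_mem_cons.2 ⟨pent_of_check (by norm_num) pf751_ok,
  List.forall_mem_cons.2 ⟨pent_of_check (by norm_num) pf757_ok,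
  List.forall_mem_cons.2 ⟨pent_of_check (by norm_num) pf761_ok,
  List.forall_mem_cons.2 ⟨pent_of_check (by norm_num) pf769_ok,
  List.forall_mem_cons.2 ⟨pent_of_check (by norm_num) pf773_ok,
  List.forall_mem_cons.2 ⟨pent_of_check (by norm_num) pf787_ok,
  List.forall_mem_cons.2 ⟨pent_of_check (by norm_num) pf797_ok,
  List.forall_mem_cons.2 ⟨pent_of_check (by norm_num) pf799_ok,
  List.forall_mem_cons.2 ⟨pent_of_check (by norm_num) pf809_ok,
  List.forall_mem_cons.2 ⟨pent_of_check (by norm_num) pf811_ok,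
  List.forall_mem_cons.2 ⟨pent_of_check (by norm_num) pf821_ok,
  fun _ h => absurd h List.not_mem_nil⟩⟩⟩⟩⟩⟩⟩⟩⟩⟩⟩⟩⟩⟩⟩⟩⟩⟩⟩⟩

/-- moduli -/
def pentL10 : List ℕ := [
  823, 827, 829, 835, 839, 841, 853, 857, 859, 863, 871, 877, 881, 883, 887, 893, 899, 901, 907, 911]

theorem pentL10_ok : ∀ g ∈ pentL10, PentOK g :=
  List.forall_mem_cons.2 ⟨pent_of_check (by norm_num) pf823_ok,
  List.forall_mem_cons.2 ⟨pent_of_check (by norm_num) pf827_ok,
  List.forall_mem_cons.2 ⟨pent_of_check (by norm_num) pf829_ok,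
  List.forall_mem_cons.2 ⟨pent_of_check (by norm_num) pf835_ok,
  List.forall_mem_cons.2 ⟨pent_of_check (by norm_num) pf839_ok,
  List.forall_mem_cons.2 ⟨pent_of_check (by norm_num) pf841_ok,
  List.forall_mem_cons.2 ⟨pent_of_check (by norm_num) pf853_ok,
  List.forall_mem_cons.2 ⟨pent_of_check (by norm_num) pf857_ok,
  List.forall_mem_cons.2 ⟨pent_of_check (by norm_num) pf859_ok,
  List.forall_mem_cons.2 ⟨pent_of_check (by norm_num) pf863_ok,
  List.forall_mem_cons.2 ⟨pent_of_check (by norm_num) pf871_ok,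
  List.forall_mem_cons.2 ⟨pent_of_check (by norm_num) pf877_ok,
  List.forall_mem_cons.2 ⟨pent_of_check (by norm_num) pf881_ok,
  List.forall_mem_cons.2 ⟨pent_of_check (by norm_num) pf883_ok,
  List.forall_mem_cons.2 ⟨pent_of_check (by norm_num) pf887_ok,
  List.forall_mem_cons.2 ⟨pent_of_check (by norm_num) pf893_ok,
  List.forall_mem_cons.2 ⟨pent_of_check (by norm_num) pf899_ok,
  List.forall_mem_cons.2 ⟨pent_of_check (by norm_num) pf901_ok,
  List.forall_mem_cons.2 ⟨pent_of_check (by norm_num) pf907_ok,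
  List.forall_mem_cons.2 ⟨pent_of_check (by norm_num) pf911_ok,
  fun _ h => absurd h List.not_mem_nil⟩⟩⟩⟩⟩⟩⟩⟩⟩⟩⟩⟩⟩⟩⟩⟩⟩⟩⟩⟩

/-- moduli -/
def pentL11 : List ℕ := [
  919, 929, 937, 941, 947, 953, 961, 967, 971, 977, 983, 991, 997]

theorem pentL11_ok : ∀ g ∈ pentL11, PentOK g :=
  List.forall_mem_cons.2 ⟨pent_of_check (by norm_num) pf919_ok,
  List.forall_mem_cons.2 ⟨pent_of_check (by norm_num) pf929_ok,
  List.forall_mem_cons.2 ⟨pent_of_check (by norm_num) pf937_ok,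
  List.forall_mem_cons.2 ⟨pent_of_check (by norm_num) pf941_ok,
  List.forall_mem_cons.2 ⟨pent_of_check (by norm_num) pf947_ok,
  List.forall_mem_cons.2 ⟨pent_of_check (by norm_num) pf953_ok,
  List.forall_mem_cons.2 ⟨pent_of_check (by norm_num) pf961_ok,
  List.forall_mem_cons.2 ⟨pent_of_check (by norm_num) pf967_ok,
  List.forall_mem_cons.2 ⟨pent_of_check (by norm_num) pf971_ok,
  List.forall_mem_cons.2 ⟨pent_of_check (by norm_num) pf977_ok,
  List.forall_mem_cons.2 ⟨pent_of_check (by norm_num) pf983_ok,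
  List.forall_mem_cons.2 ⟨pent_of_check (by norm_num) pf991_ok,
  List.forall_mem_cons.2 ⟨pent_of_check (by norm_num) pf997_ok,
  fun _ h => absurd h List.not_mem_nil⟩⟩⟩⟩⟩⟩⟩⟩⟩⟩⟩⟩⟩

/-- all certified moduli -/
def pentL : List ℕ := pentL1 ++ pentL2 ++ pentL3 ++ pentL4 ++ pentL5 ++ pentL6 ++ pentL7 ++ pentL8 ++ pentL9 ++ pentL10 ++ pentL11

theorem pentL_ok : ∀ g ∈ pentL, PentOK g := by
  intro g hg
  simp only [pentL, List.mem_append] at hg
  rcases hg with (((((((((hg | hg) | hg) | hg) | hg) | hg) | hg) | hg) | hg) | hg) | hg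
  · exact pentL1_ok g hg
  · exact pentL2_ok g hg
  · exact pentL3_ok g hg
  · exact pentL4_ok g hg
  · exact pentL5_ok g hg
  · exact pentL6_ok g hg
  · exact pentL7_ok g hg
  · exact pentL8_ok g hg
  · exact pentL9_ok g hg
  · exact pentL10_ok g hg
  · exact pentL11_ok g hg

/-- the further certified moduli for `n ≡ 2 (mod 3)` -/
def twoL : List ℕ := [17, 19, 29, 31, 35, 37, 47, 53, 67, 167]

theorem twoL_ok : ∀ g ∈ twoL, PentOK2 g :=
  List.forall_mem_cons.2 ⟨pent_two_of_check (by norm_num) ps17_ok,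
  List.forall_mem_cons.2 ⟨pent_two_of_check (by norm_num) ps19_ok,
  List.forall_mem_cons.2 ⟨pent_two_of_check (by norm_num) ps29_ok,
  List.forall_mem_cons.2 ⟨pent_two_of_check (by norm_num) ps31_ok,
  List.forall_mem_cons.2 ⟨pent_two_of_check (by norm_num) ps35_ok,
  List.forall_mem_cons.2 ⟨pent_two_of_check (by norm_num) ps37_ok,
  List.forall_mem_cons.2 ⟨pent_two_of_check (by norm_num) ps47_ok,
  List.forall_mem_cons.2 ⟨pent_two_of_check (by norm_num) ps53_ok,
  List.forall_mem_cons.2 ⟨pent_two_of_check (by norm_num) ps67_ok,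
  List.forall_mem_cons.2 ⟨pent_two_of_check (by norm_num) ps167_ok,
  fun _ h => absurd h List.not_mem_nil⟩⟩⟩⟩⟩⟩⟩⟩⟩⟩

/-- the certified moduli divide all moduli of the theorem -/
theorem pent_cover : ((List.range 1000).all fun k =>
    (k % 2 == 0) || ((decide (k < 69) && !([11, 23, 25, 33, 41, 43, 45, 49, 55, 59, 61, 63, 65].contains k)) ||
      (([81, 111, 117, 167].contains k) || (pentL.any fun g => k % g == 0)))) = true := by decide +kernel

theorem pent_all {k : ℕ} (h2 : k % 2 = 1) (h : k ∈ [11, 23, 25, 33, 41, 43, 45, 49, 55, 59, 61, 63, 65] ∨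
    (69 ≤ k ∧ k < 1000 ∧ k ∉ [81, 111, 117, 167])) : PentOK k := by
  have hk : k < 1000 := by
    rcases h with h | h
    · fin_cases h <;> omega
    · exact h.2.1
  have h1 := List.all_eq_true.mp pent_cover k (List.mem_range.mpr hk)
  simp only [Bool.or_eq_true, Bool.and_eq_true, Bool.not_eq_true', decide_eq_true_eq, beq_iff_eq, List.any_eq_true] at h1
  rcases h1 with h1 | ⟨h1, h3⟩ | h1 | ⟨g, hg, h1⟩
  · omega
  · rcases h with h | h
    · rw [List.contains_eq_mem, decide_eq_false_iff_not] at h3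
      exact absurd h h3
    · omega
  · rw [List.contains_eq_mem, decide_eq_true_eq] at h1
    rcases h with h | h
    · exfalso
      have : ∀ x ∈ [11, 23, 25, 33, 41, 43, 45, 49, 55, 59, 61, 63, 65], x ∉ [81, 111, 117, 167] := by decide
      exact this k h h1
    · exact absurd h1 h.2.2
  · exact (pentL_ok g hg).of_dvd (Nat.dvd_of_mod_eq_zero h1)

/-- the certified moduli divide all moduli of the theorem for `n ≡ 2 (mod 3)` -/
theorem two_cover : ((List.range 1000).all fun k =>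
    (k % 2 == 0) || ((k % 3 == 0) || (decide (k < 11) || ((k == 13) || ((pentL.any fun g => k % g == 0) ||
      (twoL.any fun g => k % g == 0)))))) = true := by decide +kernel

theorem two_all {k : ℕ} (h2 : k % 2 = 1) (h11 : 11 ≤ k) (hk : k < 1000) (h13 : k ≠ 13) : PentOK2 k := by
  rcases Nat.eq_zero_or_pos (k % 3) with h3 | h3
  · intro n hn hd
    exfalso
    obtain ⟨m, hm⟩ := hd
    obtain ⟨l, hl⟩ : ∃ l, k = 3 * l := ⟨k / 3, by omega⟩
    rw [hl, show (3 * l) ^ 2 * m = 9 * (l ^ 2 * m) by ring] at hm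
    omega
  have h1 := List.all_eq_true.mp two_cover k (List.mem_range.mpr hk)
  simp only [Bool.or_eq_true, decide_eq_true_eq, beq_iff_eq, List.any_eq_true] at h1
  rcases h1 with h1 | h1 | h1 | h1 | ⟨g, hg, h1⟩ | ⟨g, hg, h1⟩
  · omega
  · omega
  · omega
  · exact absurd h1 h13
  · exact ((pentL_ok g hg).of_dvd (Nat.dvd_of_mod_eq_zero h1)).two
  · exact (twoL_ok g hg).of_dvd (Nat.dvd_of_mod_eq_zero h1)

end H34S
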