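import Pool.Agent.Lib.H34S.Large

/-!
# H34S: all large moduli, pentagonal numbers, end of the proof
-/

set_option autoImplicit false

namespace H34S

/-- case B -/
theorem caseB {k m : ℕ} {x y z : ℤ} (hk : k % 2 = 1) (hk3 : k % 3 ≠ 0) (hK : 400000000 ≤ k)
    (h8 : ((k : ℤ) ^ 2 * m) % 8 = 3) (hm : (m : ℤ) = x ^ 2 + y ^ 2 + z ^ 2)
    (hx : x % 3 = 2) (hy : y % 3 = 2) (hz : z % 3 = 2)
    (h : (0 < x ∧ -x ≤ z ∧ 2 * z ≤ x ∧ ((y ≤ x ∧ x ≤ 6 * y) ∨ (-y ≤ x ∧ x ≤ -(6 * y)))) ∨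
      (x < 0 ∧ z ≤ -x ∧ x ≤ 2 * z ∧ ((y ≤ -x ∧ -x ≤ 6 * y) ∨ (-y ≤ -x ∧ -x ≤ -(6 * y))))) :
    Good 6 ((k : ℤ) ^ 2 * m) := by
  -- first kind
  have i1 : ∀ {q0 q1 q2 q3 s a b c : ℤ}, 5 * q0 = 2 * s + b → 5 * q1 = 2 * a + c → 5 * q2 = -s + 2 * b →
      5 * q3 = -a + 2 * c → R1 s a b c (3 * x - 4 * z) (5 * y) (4 * x + 3 * z) = 25 * R1 q0 q1 q2 q3 x y z ∧
        R2 s a b c (3 * x - 4 * z) (5 * y) (4 * x + 3 * z) = 25 * R2 q0 q1 q2 q3 x y z ∧
        R3 s a b c (3 * x - 4 * z) (5 * y) (4 * x + 3 * z) = 25 * R3 q0 q1 q2 q3 x y z := by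
    intro q0 q1 q2 q3 s a b c h0 h1 h2 h3
    refine ⟨?_, ?_, ?_⟩
    · rw [show 25 * R1 q0 q1 q2 q3 x y z = R1 (5 * q0) (5 * q1) (5 * q2) (5 * q3) x y z by unfold R1; ring,
        h0, h1, h2, h3]
      unfold R1; ring
    · rw [show 25 * R2 q0 q1 q2 q3 x y z = R2 (5 * q0) (5 * q1) (5 * q2) (5 * q3) x y z by unfold R2; ring,
        h0, h1, h2, h3]
      unfold R2; ring
    · rw [show 25 * R3 q0 q1 q2 q3 x y z = R3 (5 * q0) (5 * q1) (5 * q2) (5 * q3) x y z by unfold R3; ring,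
        h0, h1, h2, h3]
      unfold R3; ring
  -- second kind
  have i2 : ∀ {q0 q1 q2 q3 s a b c : ℤ}, 5 * q0 = s - 2 * b → 5 * q1 = a - 2 * c → 5 * q2 = 2 * s + b →
      5 * q3 = 2 * a + c → R1 s a b c (4 * z - 3 * x) (5 * y) (-(4 * x) - 3 * z) = 25 * R1 q0 q1 q2 q3 x y z ∧
        R2 s a b c (4 * z - 3 * x) (5 * y) (-(4 * x) - 3 * z) = 25 * R2 q0 q1 q2 q3 x y z ∧
        R3 s a b c (4 * z - 3 * x) (5 * y) (-(4 * x) - 3 * z) = 25 * R3 q0 q1 q2 q3 x y z := by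
    intro q0 q1 q2 q3 s a b c h0 h1 h2 h3
    refine ⟨?_, ?_, ?_⟩
    · rw [show 25 * R1 q0 q1 q2 q3 x y z = R1 (5 * q0) (5 * q1) (5 * q2) (5 * q3) x y z by unfold R1; ring,
        h0, h1, h2, h3]
      unfold R1; ring
    · rw [show 25 * R2 q0 q1 q2 q3 x y z = R2 (5 * q0) (5 * q1) (5 * q2) (5 * q3) x y z by unfold R2; ring,
        h0, h1, h2, h3]
      unfold R2; ring
    · rw [show 25 * R3 q0 q1 q2 q3 x y z = R3 (5 * q0) (5 * q1) (5 * q2) (5 * q3) x y z by unfold R3; ring,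
        h0, h1, h2, h3]
      unfold R3; ring
  rcases h with ⟨g1, g2, g3, ⟨g4, g5⟩ | ⟨g4, g5⟩⟩ | ⟨g1, g2, g3, ⟨g4, g5⟩ | ⟨g4, g5⟩⟩
  · obtain ⟨q0, q1, q2, q3, s, a, b, c, h0, h1, h2, h3, hn, ⟨r1, r2, r3⟩, hW⟩ :=
      quatB1 (κ := k) (by omega) (by omega) (by omega)
    obtain ⟨n1, n2, n3⟩ := near_pos (x := 3 * x - 4 * z) (y := 5 * y) (z := 4 * x + 3 * z) (M := 7 * x) (by omega)
      (by omega) (by omega) (by omega) (by omega) (by omega) (by omega) hW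
    obtain ⟨f1, f2, f3⟩ := i1 h0 h1 h2 h3
    rw [f1] at n1
    rw [f2] at n2
    rw [f3] at n3
    exact fin_one hn h8 hm hx hy hz r1 r2 r3 (by omega) (by omega) (by omega)
  · obtain ⟨q0, q1, q2, q3, s, a, b, c, h0, h1, h2, h3, hn, ⟨r1, r2, r3⟩, hW⟩ :=
      quatB2 (κ := 2 * k) (by omega) (by omega) (by omega)
    obtain ⟨n1, n2, n3⟩ := near_neg (x := 4 * z - 3 * x) (y := 5 * y) (z := -(4 * x) - 3 * z) (M := 7 * x) (by omega)
      (by omega) (by omega) (by omega) (by omega) (by omega) (by omega) hW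
    obtain ⟨f1, f2, f3⟩ := i2 h0 h1 h2 h3
    rw [f1] at n1
    rw [f2] at n2
    rw [f3] at n3
    exact fin_two hn h8 hm hx hy hz r1 r2 r3 (by omega) (by omega) (by omega)
  · obtain ⟨q0, q1, q2, q3, s, a, b, c, h0, h1, h2, h3, hn, ⟨r1, r2, r3⟩, hW⟩ :=
      quatB2 (κ := k) (by omega) (by omega) (by omega)
    obtain ⟨n1, n2, n3⟩ := near_pos (x := 4 * z - 3 * x) (y := 5 * y) (z := -(4 * x) - 3 * z) (M := 7 * (-x))
      (by omega) (by omega) (by omega) (by omega) (by omega) (by omega) (by omega) hW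
    obtain ⟨f1, f2, f3⟩ := i2 h0 h1 h2 h3
    rw [f1] at n1
    rw [f2] at n2
    rw [f3] at n3
    exact fin_one hn h8 hm hx hy hz r1 r2 r3 (by omega) (by omega) (by omega)
  · obtain ⟨q0, q1, q2, q3, s, a, b, c, h0, h1, h2, h3, hn, ⟨r1, r2, r3⟩, hW⟩ :=
      quatB1 (κ := 2 * k) (by omega) (by omega) (by omega)
    obtain ⟨n1, n2, n3⟩ := near_neg (x := 3 * x - 4 * z) (y := 5 * y) (z := 4 * x + 3 * z) (M := 7 * (-x)) (by omega)
      (by omega) (by omega) (by omega) (by omega) (by omega) (by omega) hW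
    obtain ⟨f1, f2, f3⟩ := i1 h0 h1 h2 h3
    rw [f1] at n1
    rw [f2] at n2
    rw [f3] at n3
    exact fin_two hn h8 hm hx hy hz r1 r2 r3 (by omega) (by omega) (by omega)

/-- the theorem for a sorted vector -/
theorem sorted {k m : ℕ} {x y z : ℤ} (hk : k % 2 = 1) (hk3 : k % 3 ≠ 0) (hK : 400000000 ≤ k)
    (h8 : ((k : ℤ) ^ 2 * m) % 8 = 3) (hm : (m : ℤ) = x ^ 2 + y ^ 2 + z ^ 2)
    (hx : x % 3 = 2) (hy : y % 3 = 2) (hz : z % 3 = 2) (h1 : |y| ≤ |x|) (h2 : |z| ≤ |y|) :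
    Good 6 ((k : ℤ) ^ 2 * m) := by
  have a1 := le_abs_self y
  have a2 := neg_abs_le y
  have a3 := le_abs_self z
  have a4 := neg_abs_le z
  have hm' : (m : ℤ) = x ^ 2 + z ^ 2 + y ^ 2 := by rw [hm]; ring
  rcases (show 0 < x ∨ x < 0 by omega) with h0 | h0
  · rw [abs_of_pos h0] at h1
    by_cases hA : 6 * |y| < x
    · exact caseA hk hK h8 hm hx hy hz (Or.inl ⟨by omega, by omega, by omega, by omega⟩)
    · by_cases hB : 2 * z ≤ x
      · refine caseB hk hk3 hK h8 hm hx hy hz (Or.inl ⟨h0, by omega, hB, ?_⟩)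
        rcases abs_cases y with ⟨e, -⟩ | ⟨e, -⟩
        · exact Or.inl ⟨by omega, by omega⟩
        · exact Or.inr ⟨by omega, by omega⟩
      · rcases (show 0 < y ∨ y < 0 by omega) with hy0 | hy0
        · rw [abs_of_pos hy0] at h1 h2
          exact caseC hk hK h8 hm hx hy hz (Or.inl ⟨h0, by omega, by omega, by omega⟩)
        · exact caseB hk hk3 hK h8 hm' hx hz hy (Or.inl ⟨h0, by omega, by omega, Or.inl ⟨by omega, by omega⟩⟩)
  · rw [abs_of_neg h0] at h1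
    by_cases hA : 6 * |y| < -x
    · exact caseA hk hK h8 hm hx hy hz (Or.inr ⟨by omega, by omega, by omega, by omega⟩)
    · by_cases hB : x ≤ 2 * z
      · refine caseB hk hk3 hK h8 hm hx hy hz (Or.inr ⟨h0, by omega, hB, ?_⟩)
        rcases abs_cases y with ⟨e, -⟩ | ⟨e, -⟩
        · exact Or.inl ⟨by omega, by omega⟩
        · exact Or.inr ⟨by omega, by omega⟩
      · rcases (show 0 < y ∨ y < 0 by omega) with hy0 | hy0
        · exact caseB hk hk3 hK h8 hm' hx hz hy (Or.inr ⟨h0, by omega, by omega, Or.inr ⟨by omega, by omega⟩⟩)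
        · rw [abs_of_neg hy0] at h1 h2
          exact caseC hk hK h8 hm hx hy hz (Or.inr ⟨h0, by omega, by omega, by omega⟩)

/-- all `k ≥ 4 * 10 ^ 8` not divisible by `3` -/
theorem pent_large_coprime {k : ℕ} (hk3 : k % 3 ≠ 0) (hK : 400000000 ≤ k) : PentOK k := by
  rintro n ⟨m, hm⟩
  have hk : k % 2 = 1 := by
    rcases Nat.mod_two_eq_zero_or_one k with h | h
    · exfalso
      obtain ⟨l, hl⟩ : ∃ l, k = 2 * l := ⟨k / 2, by omega⟩
      rw [hl, show (2 * l) ^ 2 * m = 4 * (l ^ 2 * m) by ring] at hm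
      omega
    · exact h
  obtain ⟨v, ⟨v1, v2, v3⟩, e⟩ := rep6 (quot8 hm) (quot_mod3 hk3 hm)
  have hm' : (24 * (n : ℤ) + 3) = (k : ℤ) ^ 2 * m := by exact_mod_cast hm
  have h8 : ((k : ℤ) ^ 2 * m) % 8 = 3 := by rw [← hm']; omega
  rw [hm']
  obtain ⟨x, y, z⟩ := v
  simp only at v1 v2 v3 e
  push_cast at v1 v2 v3
  have hx : x % 3 = 2 := by omega
  have hy : y % 3 = 2 := by omega
  have hz : z % 3 = 2 := by omega
  rcases le_total |x| |y| with h1 | h1 <;> rcases le_total |y| |z| with h2 | h2 <;>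
    rcases le_total |x| |z| with h3 | h3
  · exact sorted hk hk3 hK h8 (x := z) (y := y) (z := x) (by rw [e]; ring) hz hy hx h2 h1
  · exact sorted hk hk3 hK h8 (x := z) (y := y) (z := x) (by rw [e]; ring) hz hy hx h2 h1
  · exact sorted hk hk3 hK h8 (x := y) (y := z) (z := x) (by rw [e]; ring) hy hz hx h2 h3
  · exact sorted hk hk3 hK h8 (x := y) (y := x) (z := z) (by rw [e]; ring) hy hx hz h1 h3
  · exact sorted hk hk3 hK h8 (x := z) (y := x) (z := y) (by rw [e]; ring) hz hx hy h3 h1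
  · exact sorted hk hk3 hK h8 (x := x) (y := z) (z := y) (by rw [e]; ring) hx hz hy h3 h2
  · exact sorted hk hk3 hK h8 (x := x) (y := y) (z := z) e hx hy hz h1 h2
  · exact sorted hk hk3 hK h8 (x := x) (y := y) (z := z) e hx hy hz h1 h2

/-- all `k ≥ 32400000000`, given the modulus `243` -/
theorem pent_large (h243 : PentOK 243) {k : ℕ} (hK : 32400000000 ≤ k) : PentOK k := by
  have aux : ∀ i : ℕ, ∀ l : ℕ, 400000000 * 3 ^ i ≤ l → (3 ^ (i + 1) ∣ l ∨ PentOK l) := by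
    intro i
    induction i with
    | zero =>
      intro l hl
      by_cases h3 : l % 3 = 0
      · exact Or.inl (by simpa using Nat.dvd_of_mod_eq_zero h3)
      · exact Or.inr (pent_large_coprime h3 (by simpa using hl))
    | succ i ih =>
      intro l hl
      by_cases h3 : l % 3 = 0
      · obtain ⟨j, rfl⟩ : ∃ j, l = 3 * j := ⟨l / 3, by omega⟩
        rcases ih j (by rw [pow_succ] at hl; omega) with h | h
        · refine Or.inl ?_
          rw [pow_succ, mul_comm]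
          exact Nat.mul_dvd_mul_left 3 h
        · exact Or.inr (h.of_dvd (Nat.dvd_mul_left j 3))
      · refine Or.inr (pent_large_coprime h3 (le_trans ?_ hl))
        exact Nat.le_mul_of_pos_right _ (by positivity)
  rcases aux 4 k (by norm_num; exact hK) with h | h
  · exact h243.of_dvd (by simpa using h)
  · exact h

end H34S
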