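import Pool.Agent.Lib.H34S.Pent

/-!
# H34S: quaternion rotations close to the identity
-/

set_option autoImplicit false

namespace H34S

/-- first coordinate of `q v q'`, `q = a + b i + c j + d k`, `v = (x, y, z)`, `q'` the conjugate of `q` -/
def R1 (a b c d x y z : ℤ) : ℤ :=
  (a ^ 2 + b ^ 2 - c ^ 2 - d ^ 2) * x + 2 * (b * c - a * d) * y + 2 * (b * d + a * c) * z

/-- second coordinate -/
def R2 (a b c d x y z : ℤ) : ℤ :=
  2 * (b * c + a * d) * x + (a ^ 2 - b ^ 2 + c ^ 2 - d ^ 2) * y + 2 * (c * d - a * b) * z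

/-- third coordinate -/
def R3 (a b c d x y z : ℤ) : ℤ :=
  2 * (b * d - a * c) * x + 2 * (c * d + a * b) * y + (a ^ 2 - b ^ 2 - c ^ 2 + d ^ 2) * z

theorem R_norm (a b c d x y z : ℤ) : R1 a b c d x y z ^ 2 + R2 a b c d x y z ^ 2 + R3 a b c d x y z ^ 2 =
    (a ^ 2 + b ^ 2 + c ^ 2 + d ^ 2) ^ 2 * (x ^ 2 + y ^ 2 + z ^ 2) := by
  unfold R1 R2 R3; ring

theorem R2_cyc (a b c d x y z : ℤ) : R2 a b c d x y z = R1 a c d b y z x := by unfold R1 R2; ring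

theorem R3_cyc (a b c d x y z : ℤ) : R3 a b c d x y z = R1 a d b c z x y := by unfold R1 R3; ring

theorem mul_bound {p P y M : ℤ} (hp : |p| ≤ P) (hy : |y| ≤ M) : -(P * M) ≤ p * y := by
  have h1 : |p * y| ≤ P * M := by
    rw [abs_mul]
    exact mul_le_mul hp hy (abs_nonneg _) ((abs_nonneg _).trans hp)
  exact (abs_le.mp h1).1

/-- a rotation close to the identity keeps the sign of a coordinate which is not too small -/
theorem near1 {s a b c x y z M : ℤ} (hM : 0 < M) (hx : M ≤ 9 * x) (hx2 : x ≤ M) (hy : |y| ≤ M) (hz : |z| ≤ M)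
    (hW : 684 * (a ^ 2 + b ^ 2 + c ^ 2) < s ^ 2) : 0 < R1 s a b c x y z := by
  have h1 : |72 * (a * b - s * c)| ≤ 36 * a ^ 2 + 36 * b ^ 2 + s ^ 2 + 1296 * c ^ 2 := by
    rw [abs_le]
    constructor <;> nlinarith [sq_nonneg (a + b), sq_nonneg (a - b), sq_nonneg (s + 36 * c), sq_nonneg (s - 36 * c)]
  have h2 : |72 * (a * c + s * b)| ≤ 36 * a ^ 2 + 36 * c ^ 2 + s ^ 2 + 1296 * b ^ 2 := by
    rw [abs_le]
    constructor <;> nlinarith [sq_nonneg (a + c), sq_nonneg (a - c), sq_nonneg (s + 36 * b), sq_nonneg (s - 36 * b)]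
  have e1 := mul_bound h1 hy
  have e2 := mul_bound h2 hz
  have e3 : (s ^ 2 + a ^ 2) * M ≤ (s ^ 2 + a ^ 2) * (9 * x) := mul_le_mul_of_nonneg_left hx (by positivity)
  have e4 : (b ^ 2 + c ^ 2) * x ≤ (b ^ 2 + c ^ 2) * M := mul_le_mul_of_nonneg_left hx2 (by positivity)
  have e5 : 684 * (a ^ 2 + b ^ 2 + c ^ 2) * M < s ^ 2 * M := mul_lt_mul_of_pos_right hW hM
  have e6 : 0 ≤ a ^ 2 * M := by positivity
  have e7 : 0 < 36 * R1 s a b c x y z := by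
    unfold R1
    nlinarith [e1, e2, e3, e4, e5, e6]
  omega

/-- all three coordinates are positive -/
theorem near_pos {s a b c x y z M : ℤ} (hM : 0 < M) (hx : M ≤ 9 * x) (hx2 : x ≤ M) (hy : M ≤ 9 * y) (hy2 : y ≤ M)
    (hz : M ≤ 9 * z) (hz2 : z ≤ M) (hW : 684 * (a ^ 2 + b ^ 2 + c ^ 2) < s ^ 2) :
    0 < R1 s a b c x y z ∧ 0 < R2 s a b c x y z ∧ 0 < R3 s a b c x y z := by
  have ax : |x| ≤ M := abs_le.mpr ⟨by omega, hx2⟩
  have ay : |y| ≤ M := abs_le.mpr ⟨by omega, hy2⟩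
  have az : |z| ≤ M := abs_le.mpr ⟨by omega, hz2⟩
  refine ⟨near1 hM hx hx2 ay az hW, ?_, ?_⟩
  · rw [R2_cyc]
    exact near1 hM hy hy2 az ax (by linarith)
  · rw [R3_cyc]
    exact near1 hM hz hz2 ax ay (by linarith)

/-- all three coordinates are negative -/
theorem near_neg {s a b c x y z M : ℤ} (hM : 0 < M) (hx : M ≤ 9 * (-x)) (hx2 : -x ≤ M) (hy : M ≤ 9 * (-y))
    (hy2 : -y ≤ M) (hz : M ≤ 9 * (-z)) (hz2 : -z ≤ M) (hW : 684 * (a ^ 2 + b ^ 2 + c ^ 2) < s ^ 2) :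
    R1 s a b c x y z < 0 ∧ R2 s a b c x y z < 0 ∧ R3 s a b c x y z < 0 := by
  obtain ⟨h1, h2, h3⟩ := near_pos hM hx hx2 hy hy2 hz hz2 hW
  have e1 : R1 s a b c (-x) (-y) (-z) = - R1 s a b c x y z := by unfold R1; ring
  have e2 : R2 s a b c (-x) (-y) (-z) = - R2 s a b c x y z := by unfold R2; ring
  have e3 : R3 s a b c (-x) (-y) (-z) = - R3 s a b c x y z := by unfold R3; ring
  rw [e1] at h1
  rw [e2] at h2
  rw [e3] at h3
  exact ⟨by omega, by omega, by omega⟩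

/-- an integer in a given class just below the square root -/
theorem choose_s (N g r : ℤ) (hg : 0 < g) (hN : (1370 * g) ^ 2 ≤ N) :
    ∃ s : ℤ, s % g = r % g ∧ s ^ 2 ≤ N ∧ 684 * (N - s ^ 2) < s ^ 2 := by
  have hN0 : 0 ≤ N := le_trans (sq_nonneg _) hN
  obtain ⟨t, ht0, ht1, ht2⟩ : ∃ t : ℤ, 0 ≤ t ∧ t ^ 2 ≤ N ∧ N < (t + 1) ^ 2 := by
    refine ⟨Nat.sqrt N.toNat, Int.natCast_nonneg _, ?_, ?_⟩
    · have := Nat.sqrt_le' N.toNat
      have h2 : ((Nat.sqrt N.toNat ^ 2 : ℕ) : ℤ) ≤ (N.toNat : ℤ) := by exact_mod_cast this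
      rw [Int.toNat_of_nonneg hN0] at h2
      exact_mod_cast h2
    · have := Nat.lt_succ_sqrt' N.toNat
      have h2 : (N.toNat : ℤ) < (((Nat.sqrt N.toNat + 1) ^ 2 : ℕ) : ℤ) := by exact_mod_cast this
      rw [Int.toNat_of_nonneg hN0] at h2
      exact_mod_cast h2
  have htg : 1370 * g ≤ t := by
    by_contra h
    have h1 : t + 1 ≤ 1370 * g := by omega
    have h2 : (t + 1) ^ 2 ≤ (1370 * g) ^ 2 := by
      apply pow_le_pow_left₀ (by omega) h1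
    omega
  have hm0 : 0 ≤ (t - r) % g := Int.emod_nonneg _ (by omega)
  have hm1 : (t - r) % g < g := Int.emod_lt_of_pos _ hg
  refine ⟨t - (t - r) % g, ?_, ?_, ?_⟩
  · have h1 : t - (t - r) % g = r + g * ((t - r) / g) := by
      have := Int.mul_ediv_add_emod (t - r) g
      omega
    rw [h1, Int.add_mul_emod_self_left]
  · exact le_trans (pow_le_pow_left₀ (by omega) (by omega) 2) ht1
  · generalize (t - r) % g = e at *
    obtain ⟨s, hs⟩ : ∃ s, s = t - e := ⟨_, rfl⟩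
    rw [← hs]
    have h1 : N < (s + g) ^ 2 := by
      refine lt_of_lt_of_le ht2 (pow_le_pow_left₀ (by omega) (by omega) 2)
    have h2 : 1369 * g ≤ s := by omega
    have h3 : 1369 * g * s ≤ s * s := mul_le_mul_of_nonneg_right h2 (by omega)
    have h4 : 1369 * g * g ≤ g * s := by nlinarith
    nlinarith [mul_pos hg hg]

/-- the final step for a quaternion of norm `k` -/
theorem fin_one {k m : ℕ} {a b c d x y z : ℤ} (hq : a ^ 2 + b ^ 2 + c ^ 2 + d ^ 2 = k)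
    (h8 : ((k : ℤ) ^ 2 * m) % 8 = 3) (hm : (m : ℤ) = x ^ 2 + y ^ 2 + z ^ 2)
    (hx : x % 3 = 2) (hy : y % 3 = 2) (hz : z % 3 = 2)
    (r1 : R1 a b c d 1 1 1 % 3 = 1) (r2 : R2 a b c d 1 1 1 % 3 = 1) (r3 : R3 a b c d 1 1 1 % 3 = 1)
    (p1 : 0 < R1 a b c d x y z) (p2 : 0 < R2 a b c d x y z) (p3 : 0 < R3 a b c d x y z) :
    Good 6 ((k : ℤ) ^ 2 * m) := by
  obtain ⟨x', hx'⟩ : ∃ x', x = 3 * x' - 1 := ⟨(x + 1) / 3, by omega⟩
  obtain ⟨y', hy'⟩ : ∃ y', y = 3 * y' - 1 := ⟨(y + 1) / 3, by omega⟩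
  obtain ⟨z', hz'⟩ : ∃ z', z = 3 * z' - 1 := ⟨(z + 1) / 3, by omega⟩
  have e1 : R1 a b c d x y z = 3 * R1 a b c d x' y' z' - R1 a b c d 1 1 1 := by
    rw [hx', hy', hz']; unfold R1; ring
  have e2 : R2 a b c d x y z = 3 * R2 a b c d x' y' z' - R2 a b c d 1 1 1 := by
    rw [hx', hy', hz']; unfold R2; ring
  have e3 : R3 a b c d x y z = 3 * R3 a b c d x' y' z' - R3 a b c d 1 1 1 := by
    rw [hx', hy', hz']; unfold R3; ring
  have hn := R_norm a b c d x y z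
  rw [hq, ← hm] at hn
  have ho := all_odd h8 hn.symm
  obtain ⟨u, hu⟩ := nat_of (n := 6) p1.le (by push_cast; omega)
  obtain ⟨v, hv⟩ := nat_of (n := 6) p2.le (by push_cast; omega)
  obtain ⟨w, hw⟩ := nat_of (n := 6) p3.le (by push_cast; omega)
  exact ⟨u, v, w, by rw [← hn, hu, hv, hw]⟩

/-- the final step for a quaternion of norm `2 k` -/
theorem fin_two {k m : ℕ} {a b c d x y z : ℤ} (hq : a ^ 2 + b ^ 2 + c ^ 2 + d ^ 2 = 2 * k)
    (h8 : ((k : ℤ) ^ 2 * m) % 8 = 3) (hm : (m : ℤ) = x ^ 2 + y ^ 2 + z ^ 2)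
    (hx : x % 3 = 2) (hy : y % 3 = 2) (hz : z % 3 = 2)
    (r1 : R1 a b c d 1 1 1 % 3 = 1) (r2 : R2 a b c d 1 1 1 % 3 = 1) (r3 : R3 a b c d 1 1 1 % 3 = 1)
    (p1 : R1 a b c d x y z < 0) (p2 : R2 a b c d x y z < 0) (p3 : R3 a b c d x y z < 0) :
    Good 6 ((k : ℤ) ^ 2 * m) := by
  obtain ⟨x', hx'⟩ : ∃ x', x = 3 * x' - 1 := ⟨(x + 1) / 3, by omega⟩
  obtain ⟨y', hy'⟩ : ∃ y', y = 3 * y' - 1 := ⟨(y + 1) / 3, by omega⟩
  obtain ⟨z', hz'⟩ : ∃ z', z = 3 * z' - 1 := ⟨(z + 1) / 3, by omega⟩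
  have e1 : R1 a b c d x y z = 3 * R1 a b c d x' y' z' - R1 a b c d 1 1 1 := by
    rw [hx', hy', hz']; unfold R1; ring
  have e2 : R2 a b c d x y z = 3 * R2 a b c d x' y' z' - R2 a b c d 1 1 1 := by
    rw [hx', hy', hz']; unfold R2; ring
  have e3 : R3 a b c d x y z = 3 * R3 a b c d x' y' z' - R3 a b c d 1 1 1 := by
    rw [hx', hy', hz']; unfold R3; ring
  obtain ⟨f1, hf1⟩ : ∃ f, R1 a b c d x y z = 2 * f :=
    ⟨(k - c ^ 2 - d ^ 2) * x + (b * c - a * d) * y + (b * d + a * c) * z, by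
      unfold R1; linear_combination x * hq⟩
  obtain ⟨f2, hf2⟩ : ∃ f, R2 a b c d x y z = 2 * f :=
    ⟨(b * c + a * d) * x + (k - b ^ 2 - d ^ 2) * y + (c * d - a * b) * z, by
      unfold R2; linear_combination y * hq⟩
  obtain ⟨f3, hf3⟩ : ∃ f, R3 a b c d x y z = 2 * f :=
    ⟨(b * d - a * c) * x + (c * d + a * b) * y + (k - b ^ 2 - c ^ 2) * z, by
      unfold R3; linear_combination z * hq⟩
  have hn := R_norm a b c d x y z
  rw [hq, ← hm, hf1, hf2, hf3] at hn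
  have hn' : (k : ℤ) ^ 2 * m = (-f1) ^ 2 + (-f2) ^ 2 + (-f3) ^ 2 := by
    have : 4 * ((k : ℤ) ^ 2 * m) = 4 * ((-f1) ^ 2 + (-f2) ^ 2 + (-f3) ^ 2) := by linear_combination -hn
    omega
  have ho := all_odd h8 hn'
  obtain ⟨u, hu⟩ := nat_of (n := 6) (x := -f1) (by omega) (by push_cast; omega)
  obtain ⟨v, hv⟩ := nat_of (n := 6) (x := -f2) (by omega) (by push_cast; omega)
  obtain ⟨w, hw⟩ := nat_of (n := 6) (x := -f3) (by omega) (by push_cast; omega)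
  exact ⟨u, v, w, by rw [hn', hu, hv, hw]⟩

end H34S
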